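import Pool.Agent.Helper64.SPW.Density

/-!
Blocks of consecutive exponents: the return times of a rotation of the torus, uniformly in the starting point.
-/

open MeasureTheory Filter Topology UnitAddTorus Polynomial

namespace Pool.Agent.Helper64.SPW

open Pool.Agent.Helper3 Pool.Agent.Helper11.SP

section Torus

variable {I : Type} [Fintype I]

/-- Translate of a continuous function. -/
noncomputable def trans (f : C(UnitAddTorus I, ℂ)) (y : UnitAddTorus I) : C(UnitAddTorus I, ℂ) :=
  f.comp ⟨fun t => y + t, by fun_prop⟩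

lemma trans_continuous (f : C(UnitAddTorus I, ℂ)) : Continuous (fun y => trans f y) := by
  let F : C(UnitAddTorus I × UnitAddTorus I, ℂ) := f.comp ⟨fun z => z.1 + z.2, by fun_prop⟩
  have h : (fun y => trans f y) = fun y => F.curry y := by
    funext y
    ext t
    rfl
  rw [h]
  exact F.curry.continuous

lemma integral_trans (f : C(UnitAddTorus I, ℂ)) (y : UnitAddTorus I) :
    ∫ t, trans f y t ∂(haarT I) = ∫ t, f t ∂(haarT I) := by
  have : (haarT I).IsAddLeftInvariant := by
    unfold haarT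
    infer_instance
  exact integral_add_left_eq_self (fun t => f t) y

/-- Weyl's theorem, uniformly in the starting point. -/
theorem weyl_unif (x : UnitAddTorus I) (hx : ∀ n : I → ℤ, n ≠ 0 → mFourier n x ≠ 1) (f : C(UnitAddTorus I, ℂ))
    (ε : ℝ) (hε : 0 < ε) :
    ∀ᶠ N : ℕ in atTop, ∀ y : UnitAddTorus I, dist (avg x N (trans f y)) (∫ t, f t ∂(haarT I)) < ε := by
  have hcov : ∀ y0 : UnitAddTorus I, {y | dist (trans f y) (trans f y0) < ε / 2} ∈ 𝓝 y0 := by
    intro y0
    have h := (trans_continuous f).tendsto y0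
    have h2 := h.eventually (Metric.ball_mem_nhds (trans f y0) (half_pos hε))
    exact h2
  obtain ⟨s, hs⟩ := CompactSpace.elim_nhds_subcover (fun y0 => {y | dist (trans f y) (trans f y0) < ε / 2}) hcov
  have hfin : ∀ y0 ∈ s, ∀ᶠ N : ℕ in atTop, dist (avg x N (trans f y0)) (∫ t, f t ∂(haarT I)) < ε / 2 := by
    intro y0 _
    have h := weyl x hx (trans f y0)
    rw [integral_trans] at h
    exact h.eventually (Metric.ball_mem_nhds _ (half_pos hε))
  have hall : ∀ᶠ N : ℕ in atTop, ∀ y0 ∈ s, dist (avg x N (trans f y0)) (∫ t, f t ∂(haarT I)) < ε / 2 :=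
    (Finset.eventually_all s).2 hfin
  filter_upwards [hall] with N hN y
  have hy : y ∈ ⋃ y0 ∈ s, {y | dist (trans f y) (trans f y0) < ε / 2} := by
    rw [hs]
    trivial
  simp only [Set.mem_iUnion] at hy
  obtain ⟨y0, hy0, hyy⟩ := hy
  have h1 : dist (avg x N (trans f y)) (avg x N (trans f y0)) ≤ dist (trans f y) (trans f y0) := by
    rw [dist_eq_norm, dist_eq_norm]
    have : avg x N (trans f y) - avg x N (trans f y0) = avg x N (trans f y - trans f y0) := by
      unfold avg; simp only [ContinuousMap.sub_apply, Finset.sum_sub_distrib]; ring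
    rw [this]
    exact avg_norm_le x N _
  have h2 : dist (trans f y) (trans f y0) < ε / 2 := hyy
  calc dist (avg x N (trans f y)) (∫ t, f t ∂(haarT I)) ≤ dist (avg x N (trans f y)) (avg x N (trans f y0)) +
        dist (avg x N (trans f y0)) (∫ t, f t ∂(haarT I)) := dist_triangle _ _ _
    _ < ε / 2 + ε / 2 := add_lt_add (h1.trans_lt h2) (hN y0 hy0)
    _ = ε := by ring

open Classical in
theorem density_block (K U : Set (UnitAddTorus I)) (hK : IsCompact K) (hU : IsOpen U) (hKU : K ⊆ U) (c : ℝ)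
    (hc : c < (haarT I).real K) (x : UnitAddTorus I) (hx : ∀ n : I → ℤ, n ≠ 0 → mFourier n x ≠ 1) :
    ∀ᶠ N : ℕ in atTop, ∀ y : UnitAddTorus I,
      c * N ≤ (((Finset.range N).filter (fun k : ℕ => y + k • x ∈ U)).card : ℝ) := by
  obtain ⟨f, hf0, hf1, hf⟩ := exists_continuous_zero_one_of_isClosed (isClosed_compl_iff.2 hU)
    hK.isClosed (by
      rw [Set.disjoint_left]
      intro y hy hyK
      exact hy (hKU hyK))
  let F : C(UnitAddTorus I, ℂ) := ⟨fun t => (f t : ℂ), by fun_prop⟩
  have hint : Integrable (fun t => f t) (haarT I) := by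
    refine Integrable.mono' (integrable_const (1:ℝ)) f.continuous.aestronglyMeasurable ?_
    refine Eventually.of_forall (fun t => ?_)
    rw [Real.norm_eq_abs, abs_of_nonneg (hf t).1]; exact (hf t).2
  have hpos : c < ∫ t, f t ∂(haarT I) := by
    refine hc.trans_le ?_
    have h1 : (haarT I).real K = ∫ t, K.indicator (fun _ => (1:ℝ)) t ∂(haarT I) := by
      rw [integral_indicator hK.isClosed.measurableSet]
      simp
    rw [h1]
    refine integral_mono ?_ hint ?_
    · exact (integrable_const (1:ℝ)).indicator hK.isClosed.measurableSet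
    · intro t
      show K.indicator (fun _ => (1:ℝ)) t ≤ f t
      by_cases ht : t ∈ K
      · rw [Set.indicator_of_mem ht]
        have := hf1 ht
        simp at this
        rw [this]
      · rw [Set.indicator_of_notMem ht]
        exact (hf t).1
  have hFint : ∫ t, F t ∂(haarT I) = ((∫ t, f t ∂(haarT I) : ℝ) : ℂ) := by
    show ∫ t, ((f t : ℝ) : ℂ) ∂(haarT I) = _
    exact integral_ofReal
  have hw := weyl_unif x hx F ((∫ t, f t ∂(haarT I)) - c) (by linarith)
  filter_upwards [hw, eventually_gt_atTop 0] with N hN hN0 y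
  have hNr : (0:ℝ) < N := by exact_mod_cast hN0
  have hNy := hN y
  rw [hFint] at hNy
  have e1 : avg x N (trans F y) = (((N:ℝ)⁻¹ * ∑ k ∈ Finset.range N, f (y + k • x) : ℝ) : ℂ) := by
    unfold avg
    push_cast
    rfl
  rw [e1, Complex.dist_eq, ← Complex.ofReal_sub, Complex.norm_real, Real.norm_eq_abs, abs_lt] at hNy
  have hlow := hNy.1
  have e2 : ∑ k ∈ Finset.range N, f (y + k • x) ≤
      (((Finset.range N).filter (fun k : ℕ => y + k • x ∈ U)).card : ℝ) := by
    rw [Finset.card_filter]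
    push_cast
    apply Finset.sum_le_sum
    intro k _
    by_cases hk : y + k • x ∈ U
    · rw [if_pos hk]; exact (hf _).2
    · rw [if_neg hk]
      have := hf0 (show y + k • x ∈ Uᶜ from hk)
      simp at this
      rw [this]
  have e3 : c < (N:ℝ)⁻¹ * ∑ k ∈ Finset.range N, f (y + k • x) := by linarith
  have e4 : c * N < ∑ k ∈ Finset.range N, f (y + k • x) := by
    have := mul_lt_mul_of_pos_right e3 hNr
    calc c * N < (N:ℝ)⁻¹ * (∑ k ∈ Finset.range N, f (y + k • x)) * N := this
      _ = _ := by field_simp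
  linarith

end Torus

open Classical in
/-- Every long block of exponents contains at least `c K` exponents `k` with `β ^ k` a Parry number. -/
theorem power_block {g : ℕ} (hg : 1 ≤ g) (c : ℝ) (hc : ENNReal.ofReal c < haarT (Fin g) (RegT g))
    (hopen : IsOpen (RegT g)) (β : ℝ) (hβ : IsSalem β) (hd : (minpoly ℤ β).natDegree = 2 * g + 2) :
    ∃ K0 : ℕ, ∀ K : ℕ, K0 ≤ K → ∀ m : ℕ, c * K ≤ (((Finset.Ioc m (m + K)).filter (fun k : ℕ => IsSalem (β ^ k) ∧
      (minpoly ℤ (β ^ k)).natDegree = 2 * g + 2 ∧ ∃ n, (T (β ^ k))^[n + 2] 1 = (T (β ^ k))^[1] 1)).card : ℝ) := by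
  have hM : (upper β).card = g := by
    have := natDegree_eq hβ
    omega
  obtain ⟨K, hKR, hK, hcK⟩ := hopen.exists_lt_isCompact hc
  have hcK' : c < (haarT (Fin g)).real K := by
    have hfin : haarT (Fin g) K ≠ ⊤ := measure_ne_top _ _
    rcases le_or_gt 0 c with h0 | h0
    · exact (ENNReal.ofReal_lt_iff_lt_toReal h0 hfin).1 hcK
    · exact h0.trans_le measureReal_nonneg
  obtain ⟨c', hc1, hc2⟩ := exists_between hcK'
  obtain ⟨V, hV, hKV, B, hB, hG⟩ := good_compact hg K hK hKR
  have hev := density_block K V hK hV hKV c' hc2 (pt β g hM) (fun n hn => pt_indep hβ g hM n hn)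
  obtain ⟨k0, hk0⟩ : ∃ k0 : ℕ, ∀ k, k0 ≤ k → B < β ^ k := by
    obtain ⟨k0, hk0⟩ := pow_unbounded_of_one_lt B hβ.1
    exact ⟨k0, fun k hk => hk0.trans_le (pow_le_pow_right₀ hβ.1.le hk)⟩
  have key : ∀ k : ℕ, 1 ≤ k → k0 ≤ k → k • pt β g hM ∈ V →
      (IsSalem (β ^ k) ∧ (minpoly ℤ (β ^ k)).natDegree = 2 * g + 2 ∧
        ∃ n, (T (β ^ k))^[n + 2] 1 = (T (β ^ k))^[1] 1) := by
    intro k hk1 hk hreg
    refine ⟨salem_pow hβ hk1, (natDegree_pow hβ hk1).trans hd, ?_⟩
    exact parry_of_good hg β hβ hM k hk1 B (hk0 k hk) (hG _ hreg)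
  have hcc : 0 < c' - c := by linarith
  obtain ⟨N0, hN0⟩ := exists_nat_gt ((k0 + 1 : ℝ) / (c' - c))
  obtain ⟨N1, hN1⟩ := eventually_atTop.1 hev
  refine ⟨max N0 N1, fun N hN m => ?_⟩
  have hNN := hN1 N ((le_max_right _ _).trans hN) ((m + 1) • pt β g hM)
  have hNN0 : N0 ≤ N := (le_max_left _ _).trans hN
  set A := (Finset.range N).filter (fun k : ℕ => (m + 1) • pt β g hM + k • pt β g hM ∈ V) with hA
  have hcardA : A.card = (A.image (fun k => m + 1 + k)).card := by
    rw [Finset.card_image_of_injective]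
    intro a b hab
    simpa using hab
  have hsub : A.image (fun k => m + 1 + k) ⊆
      Finset.range (k0+1) ∪ (Finset.Ioc m (m + N)).filter (fun k : ℕ => IsSalem (β ^ k) ∧
          (minpoly ℤ (β ^ k)).natDegree = 2 * g + 2 ∧ ∃ n, (T (β ^ k))^[n + 2] 1 = (T (β ^ k))^[1] 1) := by
    intro j hj
    rw [Finset.mem_image] at hj
    obtain ⟨k, hk, rfl⟩ := hj
    rw [hA, Finset.mem_filter, Finset.mem_range] at hk
    rw [Finset.mem_union, Finset.mem_range, Finset.mem_filter, Finset.mem_Ioc]
    by_cases h : m + 1 + k < k0 + 1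
    · exact Or.inl h
    · refine Or.inr ⟨⟨by omega, by omega⟩, key (m + 1 + k) (by omega) (by omega) ?_⟩
      rw [add_smul]
      exact hk.2
  have hcard := (Finset.card_le_card hsub).trans (Finset.card_union_le _ _)
  rw [Finset.card_range, ← hcardA] at hcard
  have hcard' : (A.card : ℝ) ≤
      (k0 + 1) + (((Finset.Ioc m (m + N)).filter (fun k : ℕ => IsSalem (β ^ k) ∧
          (minpoly ℤ (β ^ k)).natDegree = 2 * g + 2 ∧ ∃ n, (T (β ^ k))^[n + 2] 1 = (T (β ^ k))^[1] 1)).card : ℝ) := by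
    exact_mod_cast hcard
  have hbig : (k0 + 1 : ℝ) ≤ (c' - c) * N := by
    have h1 : (k0 + 1 : ℝ) / (c' - c) ≤ N := hN0.le.trans (by exact_mod_cast hNN0)
    rw [div_le_iff₀ hcc] at h1
    linarith
  linarith

end Pool.Agent.Helper64.SPW
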