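import Pool.Agent.Helper64.SPW.Iv3

/-! Boxes of three traces, part 2 (data and kernel evaluation). -/

set_option maxRecDepth 1000000
set_option maxHeartbeats 0

namespace Pool.Agent.Helper64.SPW.Dat3

noncomputable def Q52 : QT3 :=
(.b (.c (.c (.a (.c (.a (.l 12) (.c (.l 12) (.b (.a (.l 12) (.c (.l 12) (.b (.a (.l 12) .z) (.l 12)))) (.l 12)))) (.b (.c (.a (.l 12) (.a (.b (.c (.a
(.l 12) .z) .z) (.c (.l 12) (.a (.l 12) .z))) (.c (.b .z (.a (.l 12) .z)) .z))) (.a (.b (.c (.b .z (.a (.l 12) .z)) .z) (.c (.l 12) (.b .z (.a (.l 12)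
.z)))) (.b (.a .z (.l 22)) (.a .z (.c .z (.l 22)))))) (.a (.l 12) (.c (.a (.l 12) (.a (.b (.c (.l 12) .z) (.l 12)) (.c (.b .z (.l 12)) .z))) (.a (.b
(.c (.a (.l 12) .z) .z) (.c (.l 12) (.a (.l 12) .z))) .z))))) (.a (.c (.a (.c (.b (.a (.l 12) (.c (.l 12) .z)) (.l 12)) (.b (.a (.c (.b .z (.l 12))
.z) .z) (.a (.c (.l 12) (.b .z (.l 12))) (.c (.b .z (.l 12)) .z)))) (.c (.a (.b .z (.c (.l 12) .z)) .z) (.a (.b (.c .z (.l 22)) .z) (.b (.l 22) .z))))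
(.a (.c (.b (.a (.c .z (.l 22)) (.l 22)) .z) (.b (.l 22) (.a .z (.b .z (.l 20))))) (.c (.a (.b (.l 22) .z) (.b (.l 22) (.b .z (.l 20)))) (.b (.l 22)
(.b (.b (.l 22) .z) (.l 20)))))) (.c (.a (.c (.a (.b (.l 22) .z) (.b (.l 22) (.b .z (.l 20)))) (.b (.l 22) (.b (.b (.l 22) .z) (.l 20)))) (.b (.l 22)
(.b (.b (.l 22) (.b .z (.l 20))) (.l 20)))) (.b (.l 22) (.b (.b (.l 22) (.b .z (.l 20))) (.l 20)))))) (.a (.c (.b (.c (.a (.b (.c .z (.l 16)) .z) (.b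
.z (.a .z (.c (.l 22) .z)))) (.a (.b (.l 16) (.c (.b (.l 16) .z) (.l 16))) (.b (.a (.l 16) .z) .z))) (.c (.a (.b (.c (.b (.a (.l 12) .z) (.a (.l 12)
.z)) .z) (.c (.l 12) (.b (.a (.l 12) .z) (.l 12)))) (.a .z (.b (.b (.l 22) .z) .z))) (.a (.b (.c .z (.b (.l 16) .z)) (.c (.b .z (.a (.l 12) .z)) .z))
(.b .z (.a (.c .z (.b .z (.l 8))) (.b .z (.l 8))))))) (.b (.c (.a (.l 16) (.b (.l 16) (.a (.l 16) (.c .z (.l 16))))) (.l 16)) (.c (.a (.b (.l 16) (.c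
.z (.b (.l 16) .z))) (.b (.a (.c .z (.l 16)) .z) .z)) (.a (.l 16) (.b (.a (.l 16) (.c .z (.l 16))) (.a (.c .z (.l 16)) .z)))))) (.a (.c (.b (.a (.c
(.l 22) (.b .z (.c (.l 22) .z))) (.c (.l 22) (.b (.a .z (.l 22)) (.l 22)))) (.b (.b (.l 22) (.b .z (.l 20))) (.a .z (.b (.c (.l 20) .z) .z)))) (.b (.a
(.c .z (.b (.l 16) (.a (.l 16) .z))) (.c (.b .z (.a .z (.l 22))) .z)) (.a (.c (.b .z (.b .z (.l 8))) .z) (.c (.b (.b (.l 22) .z) .z) (.b .z (.b .z (.a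
(.l 8) .z))))))) (.c (.b (.l 22) (.b (.b (.l 22) (.b .z (.l 20))) (.l 20))) (.b (.a (.c (.l 22) (.b .z (.a .z (.l 22)))) (.l 22)) (.b (.b (.l 22) (.b
.z (.l 20))) (.a (.b (.c (.l 20) .z) .z) (.b (.l 20) (.a .z (.l 20)))))))))) (.a (.c (.c (.b (.l 16) (.a (.l 16) (.c (.b (.l 16) (.a (.l 16) (.c .z
(.l 16)))) (.l 16)))) (.l 16)) (.c (.a (.l 16) (.a (.l 16) (.c (.b (.l 16) (.a (.l 16) (.c (.l 16) .z))) (.b (.a (.l 16) (.c (.l 16) .z)) (.a (.c (.l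
16) .z) .z))))) (.a (.c (.l 16) (.b (.c (.l 16) (.b (.l 16) (.a (.l 16) .z))) (.c (.b (.a (.l 16) .z) (.a (.l 16) .z)) .z))) (.a (.c (.b (.c (.l 16)
(.a (.l 16) .z)) (.c (.a (.l 16) .z) .z)) .z) .z)))) (.c (.a (.c (.b (.a (.l 16) (.c (.b (.a (.l 16) .z) .z) (.a (.l 16) (.a (.l 16) .z)))) (.a (.c
(.b (.a (.l 16) .z) .z) (.b (.l 16) (.a (.l 16) .z))) (.c .z (.b (.a (.l 16) .z) .z)))) (.b (.a (.l 16) (.c (.a (.l 16) (.b (.l 16) .z)) (.a (.b (.l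
16) .z) .z))) (.a (.c (.l 16) (.a (.l 16) .z)) .z))) (.b (.c (.a .z (.c (.b (.a .z (.l 22)) (.l 22)) (.b .z (.a .z (.l 22))))) .z) (.c (.a (.c .z (.b
.z (.a (.b .z (.l 8)) .z))) (.b (.b (.l 22) (.b .z (.l 20))) (.b (.a .z (.l 20)) .z))) (.a (.b .z (.c (.a .z (.b .z (.l 8))) .z)) (.b .z (.a (.c .z
(.b .z (.l 8))) .z)))))) (.a (.c (.a (.b (.c (.a (.l 16) .z) .z) .z) .z) .z) (.b (.c .z (.a (.a (.c .z (.b (.l 10) .z)) (.c (.b (.c .z (.l 10)) .z)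
(.l 10))) (.a (.l 10) (.c (.b .z (.a (.l 10) .z)) (.l 10))))) (.a (.c .z (.a .z (.c .z (.a .z (.b (.l 10) .z))))) (.c (.b .z (.a .z (.c (.b .z (.l 8))
.z))) (.b (.a (.c (.a .z (.l 10)) (.l 10)) (.l 10)) (.a (.c (.a .z (.l 10)) (.l 10)) (.c .z (.l 10))))))))))) (.c (.a (.c (.c (.l 12) (.a (.l 12) (.b
(.a (.l 12) (.c (.l 12) (.a (.l 12) (.b .z (.c (.l 12) .z))))) (.l 12)))) (.c (.a (.b (.c (.l 12) (.b (.c (.b (.a (.l 12) .z) (.l 12)) (.b .z (.a (.l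
12) .z))) (.l 12))) (.l 12)) (.b (.a (.c (.b (.c (.l 12) .z) (.l 12)) (.b .z (.c (.a (.l 12) .z) .z))) (.c (.a (.b .z (.c (.l 12) .z)) .z) (.b (.a (.c
.z (.l 8)) (.l 8)) (.a .z (.c .z (.l 8)))))) (.a (.c (.l 12) (.b (.c (.l 12) (.a (.l 12) .z)) (.l 12))) (.c (.a (.l 12) (.b (.c (.l 12) .z) (.l 12)))
(.a (.b .z (.c (.l 12) .z)) .z))))) (.b (.a (.c (.b .z (.c (.b (.a (.l 12) .z) (.a (.l 12) .z)) .z)) (.b (.c (.b (.l 16) .z) (.l 16)) .z)) (.c (.b (.a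
(.c (.a .z (.l 8)) .z) (.l 8)) (.a (.c .z (.a .z (.l 8))) (.l 8))) (.b (.a .z (.c (.a .z (.l 8)) .z)) (.a (.c (.b .z (.l 8)) .z) (.c (.l 8) (.a .z (.l
8))))))) (.a (.c (.b (.c (.l 12) (.a (.l 12) (.b .z (.l 12)))) (.l 12)) (.b (.c (.b .z (.a (.l 12) .z)) .z) (.c (.l 12) (.a (.l 12) .z)))) (.a (.c (.b
.z (.a (.l 12) (.c (.l 12) .z))) (.b (.a .z (.c .z (.l 8))) .z)) (.c (.a .z (.b (.l 8) .z)) (.b (.l 8) (.a (.c .z (.l 8)) (.l 8))))))))) (.a (.c (.c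
(.a (.l 12) (.a (.c (.l 12) (.b (.c (.a (.l 12) .z) .z) (.a (.l 12) (.c (.l 12) .z)))) (.c (.b (.c (.a (.l 12) .z) .z) (.a (.l 12) (.c (.l 12) .z)))
.z))) (.a (.b (.c (.a (.c (.l 12) (.b .z (.l 12))) .z) .z) (.c (.a (.l 12) (.c (.l 12) (.b .z (.l 12)))) (.a (.b (.c (.l 12) .z) (.l 12)) .z))) (.a
(.c .z (.b (.b .z (.l 8)) (.a .z (.c .z (.l 8))))) (.c (.b .z (.a .z (.c .z (.l 8)))) (.b (.b .z (.b .z (.l 8))) (.l 8)))))) (.c (.a (.b (.c (.a (.b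
(.b .z (.l 8)) .z) (.b (.b .z (.l 8)) (.l 8))) (.l 8)) (.c (.a .z (.b (.c .z (.l 8)) .z)) (.a (.b (.c .z (.l 8)) .z) (.l 8)))) (.b (.b (.b .z (.c .z
(.l 8))) (.l 8)) (.l 8))) (.b (.b (.a (.l 8) (.b (.c (.a (.l 8) .z) (.l 8)) (.l 8))) (.l 8)) (.l 8)))) (.c (.a (.c (.a (.c .z (.b (.b (.l 20) .z) (.a
.z (.b .z (.l 8))))) (.c (.a .z (.b (.l 20) .z)) (.b (.l 20) (.b .z (.b .z (.l 8)))))) (.b (.b (.b (.l 20) (.c (.l 20) .z)) .z) (.b (.b (.a (.c .z (.l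
8)) .z) (.a (.l 8) (.c .z (.l 8)))) (.l 8)))) (.b (.b (.l 20) (.c (.l 20) (.b (.l 20) (.a .z (.l 20))))) (.b (.c (.a (.b (.l 20) .z) (.l 20)) .z) (.c
.z (.a (.b (.c .z (.l 8)) (.l 8)) (.b .z (.c .z (.l 8)))))))) (.b (.b (.a (.c .z (.b (.c .z (.a (.l 8) .z)) (.c (.a (.l 8) .z) (.l 8)))) (.c (.b (.l
20) (.a .z (.l 20))) .z)) (.a (.c (.b (.c .z (.a (.l 8) .z)) (.a (.l 8) (.c .z (.l 8)))) (.l 8)) (.c .z (.a (.b (.c .z (.l 8)) (.l 8)) (.b .z (.c .z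
(.l 8))))))) (.a (.l 8) (.b (.c (.a (.b (.c .z (.l 8)) (.l 8)) (.b .z (.c .z (.l 8)))) (.l 8)) (.l 8))))))) (.b (.a (.c (.c (.a (.c (.b (.l 16) (.c
(.b (.l 16) .z) (.l 16))) (.l 16)) (.c (.b (.a (.l 16) .z) .z) (.b (.l 16) (.a (.l 16) .z)))) (.a (.l 16) (.a (.l 16) (.c (.l 16) (.a (.l 16) (.b (.l
16) .z)))))) (.c (.a (.l 16) (.a (.c (.l 16) (.c (.a (.l 16) .z) .z)) (.c (.a (.c (.l 16) .z) .z) .z))) (.a (.c (.c (.b (.l 16) (.a (.l 16) .z)) (.b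
(.a (.l 16) .z) .z)) .z) .z))) (.c (.a (.c (.a (.c (.b (.a .z (.c (.l 8) .z)) (.a (.c (.l 8) .z) (.l 8))) (.b .z (.a .z (.c (.l 8) .z)))) (.b (.c (.l
8) (.a .z (.b .z (.l 8)))) (.l 8))) (.a (.b (.c (.a (.l 16) .z) .z) .z) (.b .z (.c (.a .z (.b .z (.l 8))) .z)))) (.a (.c (.l 8) (.b (.c (.a (.b .z (.l
8)) (.l 8)) (.a .z (.b .z (.l 8)))) (.a (.c (.l 8) (.b .z (.l 8))) (.l 8)))) (.b (.c (.b (.a (.c .z (.l 8)) .z) (.a (.l 8) (.c .z (.l 8)))) (.a (.l 8)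
(.b (.c .z (.l 8)) (.l 8)))) (.l 8)))) (.a .z (.a (.c (.b .z (.a .z (.c (.b .z (.l 8)) .z))) .z) (.c (.b (.a (.c (.b .z (.l 8)) .z) (.c (.l 8) (.b .z
(.l 8)))) (.a (.c (.l 8) (.b .z (.l 8))) (.l 8))) (.b (.a (.c .z (.b (.l 10) .z)) .z) (.a .z (.c (.l 8) .z)))))))) (.a (.c (.c (.a (.c (.b .z (.c (.b
.z (.a (.l 12) .z)) .z)) (.b (.c (.b (.l 16) .z) (.l 16)) (.c .z (.b (.l 16) .z)))) (.c (.b (.a (.c (.b .z (.l 8)) .z) (.a (.c (.l 8) .z) (.l 8))) (.a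
(.a (.c .z (.l 8)) (.l 8)) (.l 8))) (.b .z (.a .z (.a (.b .z (.l 8)) (.l 8)))))) (.a (.l 16) (.b (.c (.a (.l 16) .z) (.a (.l 16) (.a (.l 16) .z))) (.c
.z (.a (.l 16) .z))))) (.c (.a (.c (.l 16) (.c (.b (.l 16) (.a (.l 16) .z)) (.b (.a (.l 16) .z) (.a (.l 16) .z)))) (.b (.a (.c (.a (.l 16) .z) .z) .z)
.z)) .z)) (.c (.a (.c (.a (.b (.c (.l 8) (.a (.b .z (.l 8)) (.l 8))) (.l 8)) (.l 8)) (.a (.b (.c (.a .z (.b .z (.l 8))) .z) (.c (.a (.b .z (.l 8)) (.l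
8)) (.a .z (.b .z (.l 8))))) (.b (.c (.l 8) (.a .z (.l 8))) (.l 8)))) (.l 8)) (.a (.c (.a .z (.b .z (.c (.a .z (.l 8)) .z))) .z) (.b (.a (.c (.a (.c
(.l 8) .z) (.l 8)) .z) (.c (.l 8) (.b (.a (.c (.l 8) .z) (.l 8)) (.a (.c (.l 8) .z) (.c (.l 8) .z))))) (.a (.c (.l 8) (.b (.a .z (.c (.l 8) .z)) .z))
(.c (.b (.l 8) (.a (.c (.l 8) .z) .z)) (.b (.a (.c (.l 8) .z) .z) .z))))))))))

theorem vQ52 : ev3 Q52 J3_0 J4_5 J4_12 = 295162271772102841212714 := by decide +kernel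

noncomputable def Q53 : QT3 :=
(.b (.c (.a (.c (.c (.a (.c (.b (.c (.b (.a (.l 16) .z) .z) .z) .z) .z) .z) (.b (.a (.b .z (.l 64)) (.b (.c .z (.a .z (.a (.b (.l 10) .z) (.l 10))))
.z)) (.a (.b (.b (.l 64) .z) .z) .z))) (.b (.c (.a (.b (.c (.b (.c .z (.l 10)) .z) (.l 10)) (.c .z (.b (.c .z (.l 10)) .z))) (.b (.c (.a (.b (.l 10)
(.c .z (.l 10))) (.l 10)) (.l 10)) (.a (.c .z (.b (.l 10) (.c .z (.l 10)))) (.c (.a (.b (.l 10) .z) (.l 10)) (.l 10))))) (.a (.b (.l 10) (.c (.l 10)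
(.b (.l 10) (.c (.l 10) .z)))) (.l 10))) (.c (.a .z (.a .z (.b (.c .z (.a (.b (.l 10) .z) (.l 10))) .z))) (.a (.b (.c (.b (.c .z (.a .z (.l 10))) .z)
.z) (.c .z (.b (.c .z (.l 24)) (.l 24)))) (.a (.b (.c (.b (.l 10) (.a .z (.l 10))) (.b (.c (.l 10) .z) .z)) .z) (.b (.l 10) (.c (.a .z (.l 10)) (.a .z
(.b (.l 10) .z))))))))) (.a (.c (.c (.a (.b (.c .z (.b (.a .z (.c .z (.l 10))) .z)) .z) (.b (.c (.a .z (.b (.l 10) .z)) (.a (.b (.l 10) (.c .z (.l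
10))) (.l 10))) (.a .z (.c .z (.b (.a .z (.l 10)) .z))))) (.b (.a (.c (.b (.a (.c .z (.l 10)) (.l 10)) (.a .z (.c .z (.l 10)))) (.b (.l 10) (.a (.c .z
(.l 10)) (.l 10)))) (.l 10)) (.a (.b (.c .z (.a .z (.c .z (.l 10)))) .z) (.a (.c (.b (.c .z (.l 10)) .z) (.b (.l 10) (.a .z (.l 10)))) (.c (.b (.l 10)
(.a .z (.l 10))) (.l 10)))))) (.b (.l 10) (.a (.c (.b (.c (.a (.b (.l 10) .z) (.l 10)) (.l 10)) (.c (.a .z (.b (.l 10) .z)) (.a (.b (.l 10) .z) (.l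
10)))) (.l 10)) (.l 10)))) (.c (.a (.c (.b (.l 10) (.a (.c (.b (.a .z (.l 10)) .z) (.b (.l 10) (.a .z (.l 10)))) (.l 10))) (.l 10)) (.l 10)) (.l
10)))) (.b (.a (.c (.c (.a (.b (.c (.b (.l 10) (.c (.l 10) .z)) .z) (.c .z (.b .z (.c (.l 24) .z)))) (.a (.b (.c (.l 10) (.b (.c (.l 10) .z) .z)) (.c
(.b (.c (.l 10) .z) .z) .z)) (.b (.l 10) (.c (.l 10) (.a .z (.b (.l 10) .z)))))) (.a (.b (.c .z (.a (.l 28) .z)) .z) (.a .z (.b (.c (.a .z (.c (.l 10)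
.z)) .z) .z)))) (.c (.a (.c (.a (.l 28) (.b (.l 28) .z)) (.c (.l 28) (.a (.l 28) .z))) (.a .z (.b (.c .z (.a .z (.l 14))) (.c .z (.l 14))))) (.a .z
(.a (.c (.a (.c .z (.l 14)) (.l 14)) (.a (.c (.l 14) .z) (.l 14))) (.l 14))))) (.a (.c (.c (.l 10) (.a (.c (.b (.l 10) (.a .z (.l 10))) (.b (.a .z (.l
10)) .z)) (.l 10))) (.a (.c (.b .z (.c .z (.a (.l 14) .z))) (.b (.c (.a (.l 14) .z) (.l 14)) (.l 14))) (.c (.a (.c (.b (.l 10) .z) .z) (.c (.l 10) (.b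
(.l 10) .z))) (.a (.c .z (.b .z (.l 14))) .z)))) (.c (.l 10) (.a (.c (.l 10) (.a (.c (.b (.l 10) (.a .z (.l 10))) (.b (.a .z (.l 10)) .z)) (.l 10)))
(.c (.a (.l 10) (.c (.l 10) (.b (.a (.l 10) .z) (.l 10)))) (.a (.b (.c (.l 10) .z) (.l 10)) (.c (.b .z (.a (.l 10) .z)) .z))))))) (.a (.c (.c (.a (.b
(.c (.b (.c .z (.l 24)) (.l 24)) (.l 24)) (.l 24)) (.a (.b .z (.c (.b .z (.l 24)) .z)) (.b (.c (.a .z (.b (.l 10) .z)) .z) .z))) (.a (.c (.c (.a (.l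
24) .z) (.a (.b .z (.l 24)) .z)) .z) .z)) (.c (.a (.c (.a (.b (.l 28) .z) .z) (.c (.a (.l 28) .z) .z)) (.a (.c .z (.a .z (.c .z (.l 14)))) (.c (.a .z
(.l 14)) (.l 14)))) (.a .z (.a (.c (.l 14) (.a .z (.c (.l 14) .z))) (.l 14))))) (.a (.c (.a (.c (.b (.c (.l 10) (.a .z (.l 10))) (.c (.a .z (.l 10))
.z)) (.b .z (.c .z (.a (.l 14) .z)))) (.c (.l 10) (.a (.c (.b (.l 10) .z) .z) (.c (.l 10) (.b (.l 10) (.a .z (.l 10))))))) (.a (.c (.b (.c (.a (.l 14)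
.z) (.l 14)) (.l 14)) (.l 14)) (.c (.a (.c .z (.b .z (.l 14))) (.c (.b (.a .z (.l 10)) .z) .z)) (.a (.l 14) (.c (.b .z (.l 14)) (.l 14)))))) (.b (.c
(.l 10) (.a (.c (.a (.c (.l 10) (.a .z (.l 10))) (.l 10)) (.a .z (.c (.l 10) (.a .z (.l 10))))) (.b (.c (.l 10) (.a (.l 10) (.c (.l 10) .z))) (.c (.l
10) (.a (.l 10) .z))))) (.c (.a (.l 10) (.c (.l 10) (.b (.l 10) (.a (.l 10) .z)))) (.a (.b (.c (.a (.c (.l 10) .z) (.l 10)) .z) (.c (.a .z (.b (.l 10)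
.z)) .z)) (.b (.c (.a (.l 10) .z) .z) (.c .z (.a .z (.b .z (.l 11)))))))))))) (.c (.b (.a (.c .z (.c (.a (.b .z (.c (.b .z (.c .z (.l 24))) (.l 24)))
.z) (.a (.b (.c (.b (.c .z (.l 24)) (.l 24)) (.l 24)) (.l 24)) (.a (.b (.c .z (.b .z (.l 24))) (.l 24)) (.b .z (.c .z (.a (.l 24) .z))))))) (.a (.c
(.a .z (.c .z (.a .z (.c .z (.b (.a .z (.l 10)) .z))))) (.a (.c (.b (.a .z (.c .z (.b (.l 10) .z))) .z) (.b (.c (.a (.b (.l 10) .z) (.l 10)) (.a .z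
(.l 10))) (.a .z (.c (.b (.l 10) .z) .z)))) (.c (.a (.b (.c (.a .z (.l 10)) (.l 10)) (.c .z (.a .z (.l 10)))) (.l 10)) (.l 10)))) (.c (.b (.a (.c (.a
.z (.c (.a .z (.l 10)) (.l 10))) (.l 10)) (.c (.a (.l 10) (.c (.b (.l 10) .z) (.l 10))) (.l 10))) (.a (.c (.a .z (.c .z (.a .z (.l 10)))) (.a (.c (.a
.z (.l 10)) (.l 10)) (.l 10))) (.c (.a (.c (.b (.l 10) .z) (.l 10)) .z) (.b (.l 10) (.a (.l 10) (.c (.l 10) .z)))))) (.b (.a (.l 10) (.c (.l 10) (.b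
(.l 10) (.a (.l 10) .z)))) (.a (.c (.b (.l 10) (.a (.l 10) (.c (.l 10) .z))) (.b (.a (.l 10) (.c (.l 10) .z)) (.a (.c (.l 10) .z) .z))) (.c (.b (.a
(.l 10) .z) .z) .z)))))) (.a (.c (.c .z (.a (.b (.c .z (.b .z (.c .z (.l 24)))) (.c (.b .z (.c .z (.l 24))) (.l 24))) .z)) (.b (.c (.a (.l 24) (.a (.c
.z (.l 24)) .z)) (.a (.l 24) (.a (.l 24) (.c .z (.a (.l 24) .z))))) (.c (.b (.a (.l 24) (.a (.a (.l 24) .z) .z)) (.a (.l 24) (.a (.a (.l 24) .z) .z)))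
(.b (.a (.l 24) (.a (.l 24) .z)) (.a (.c (.l 24) (.b (.l 24) .z)) .z))))) (.a (.c .z (.b (.c (.a .z (.b (.a .z (.c .z (.l 10))) .z)) (.a .z (.b (.a
(.c (.l 10) .z) .z) .z))) (.c .z (.a .z (.b .z (.l 47)))))) (.c (.b (.a (.c .z (.b (.a .z (.l 10)) .z)) .z) .z) (.b (.a (.c (.b (.a (.c (.l 10) .z)
.z) .z) .z) (.c .z (.c (.l 34) .z))) (.a .z (.c (.a (.l 34) .z) .z))))))) (.b (.a (.b (.c (.c (.a (.l 24) (.a (.c (.l 24) (.a (.l 24) .z)) .z)) (.a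
(.c (.a (.l 24) (.c (.l 24) .z)) (.a (.c (.l 24) .z) .z)) .z)) (.a .z (.c (.a (.c .z (.a .z (.l 14))) (.l 14)) (.a (.c (.a .z (.l 14)) .z) (.l 14)))))
(.c (.a (.c (.l 24) (.c (.l 24) (.a (.l 24) .z))) (.c (.a (.l 24) (.c (.a (.l 24) .z) .z)) (.a .z (.c .z (.a .z (.l 14)))))) (.b (.c (.a .z (.a (.c .z
(.l 14)) (.l 14))) (.a .z (.a .z (.b (.l 14) .z)))) (.c (.a .z (.a (.c .z (.l 14)) .z)) .z)))) (.a (.b (.c (.a (.c .z (.a (.c .z (.l 14)) (.c .z (.l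
14)))) (.c (.a (.c (.l 10) .z) (.l 10)) (.a .z (.c (.a .z (.l 10)) .z)))) (.a (.b (.l 14) (.c (.l 14) (.b (.l 14) .z))) (.b (.c (.a (.l 14) .z) (.a
(.l 14) .z)) .z))) (.c (.a (.c .z (.b (.l 14) .z)) (.c (.b (.a .z (.l 10)) .z) .z)) (.a .z (.b (.c .z (.a .z (.c (.l 11) .z))) (.c (.a (.b .z (.l 11))
(.l 11)) (.c (.c (.l 11) .z) .z)))))) (.b (.c (.a (.c (.b (.l 10) (.a (.l 10) (.c (.l 10) .z))) (.b (.a (.l 10) (.b (.l 10) .z)) (.a (.b (.l 10) .z)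
.z))) (.c (.b (.a (.l 10) .z) .z) (.b .z (.a .z (.b .z (.l 11)))))) (.a (.b .z (.c .z (.a (.b .z (.l 11)) (.l 11)))) (.b (.c (.a .z (.b .z (.l 11)))
(.l 11)) (.l 11)))) (.c (.a (.c (.b (.a (.c (.l 10) .z) .z) .z) (.b .z (.a .z (.c .z (.l 11))))) (.c (.b (.a .z (.c .z (.l 11))) .z) (.l 11))) (.a (.b
(.c (.a (.b .z (.l 11)) (.l 11)) (.c (.l 11) (.c (.l 11) .z))) (.c (.l 11) (.c (.l 11) .z))) (.c (.l 11) (.c (.l 11) (.c (.l 11) (.b (.l 11)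
.z))))))))) (.a (.b (.c (.b (.c (.a (.l 24) (.a (.l 24) .z)) (.a (.c (.l 24) (.a (.l 24) .z)) .z)) (.c (.a (.l 24) (.a (.l 24) .z)) (.a (.b (.l 24)
(.c (.l 24) .z)) .z))) .z) (.c (.b (.c (.a (.c (.l 24) (.b (.l 24) .z)) .z) .z) (.c .z (.a (.b .z (.a (.l 20) .z)) .z))) (.b .z (.c (.c .z (.a .z (.a
.z (.c .z (.l 12))))) .z)))) (.a (.b (.c .z (.a (.b (.c (.b (.a .z (.l 11)) (.c .z (.l 11))) .z) (.c (.c (.c .z (.l 11)) (.c (.l 11) .z)) .z)) (.c (.l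
11) (.c (.c (.b (.l 11) .z) .z) .z)))) (.c (.a .z (.c (.c (.l 47) .z) .z)) (.c (.c (.a .z (.c (.a .z (.l 11)) (.l 11))) (.c (.b (.a .z (.l 11)) .z)
.z)) (.c (.c (.b .z (.a (.l 12) .z)) .z) .z)))) (.b (.c (.a (.b (.c .z (.c .z (.l 11))) (.c .z (.c .z (.l 11)))) (.c (.c .z (.a .z (.c .z (.l 11))))
(.l 11))) (.c (.l 11) (.c (.a (.c (.l 11) .z) (.l 11)) .z))) (.c (.c (.a .z (.c (.a (.c .z (.l 10)) (.c (.l 10) .z)) .z)) (.a (.c .z (.a (.c .z (.l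
11)) (.l 11))) (.c (.a (.c .z (.l 11)) (.l 11)) (.l 11)))) (.c (.c (.l 11) (.a (.c (.l 11) (.b (.l 11) .z)) (.l 11))) (.c (.a .z (.c (.b (.l 11) .z)
.z)) (.a .z (.c .z (.b .z (.l 12)))))))))))))

theorem vQ53 : ev3 Q53 J3_0 J4_5 J4_13 = 208859739982714871078171 := by decide +kernel

noncomputable def Q187 : QT3 :=
(.c (.c (.a (.b (.c (.b (.c .z (.b (.c (.a (.b (.c .z (.l 24)) (.l 24)) .z) (.a (.c (.l 24) .z) .z)) (.c (.a (.a (.b (.l 24) .z) .z) .z) .z))) .z) (.c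
(.b (.c (.b (.c (.b .z (.a .z (.l 25))) (.b (.a .z (.l 25)) .z)) .z) .z) .z) (.c (.b (.b (.a (.c .z (.l 28)) .z) (.c (.c .z (.l 28)) (.l 28))) (.c (.c
(.a .z (.l 28)) (.l 28)) (.l 28))) (.c (.a .z (.c (.b .z (.l 28)) (.b .z (.l 28)))) (.a (.b (.c .z (.l 29)) .z) .z))))) (.c .z (.c .z (.c (.a (.c (.c
(.b .z (.l 28)) (.l 28)) (.l 28)) (.b (.l 28) (.a (.l 28) .z))) (.a (.c (.b (.a .z (.l 28)) (.l 28)) (.b .z (.a .z (.l 28)))) (.c (.b (.a (.l 28) .z)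
.z) .z)))))) (.b (.c .z (.c .z (.b .z (.a (.b (.a (.c (.l 28) .z) .z) (.a (.c (.l 28) .z) .z)) .z)))) .z)) (.a (.b (.c (.c (.c (.c (.a (.l 29) (.b (.c
.z (.l 29)) .z)) (.b (.l 29) (.a (.l 29) (.b (.l 29) .z)))) (.b (.l 29) (.a (.b (.l 29) .z) (.b (.c (.l 29) .z) .z)))) (.b (.c (.b (.c (.l 29) (.a (.l
29) .z)) (.c (.a (.l 29) .z) .z)) .z) .z)) (.b (.c (.c .z (.a (.c .z (.l 42)) .z)) (.a (.c .z (.b .z (.a .z (.c .z (.l 17))))) (.c (.b .z (.a .z (.c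
.z (.l 17)))) (.b (.a .z (.l 17)) (.l 17))))) (.c (.c .z (.a .z (.b (.a .z (.c .z (.l 17))) (.a (.c .z (.l 17)) (.l 17))))) (.b (.a (.c .z (.a .z (.l
17))) (.c (.a (.c .z (.l 17)) (.l 17)) (.l 17))) (.c (.b (.a (.a .z (.l 17)) (.l 17)) (.c (.a .z (.l 17)) (.b (.l 17) .z))) (.b .z (.c .z (.b .z (.a
(.l 13) .z))))))))) (.a (.c .z (.b (.c (.b .z (.c .z (.b (.c .z (.b .z (.l 13))) (.c .z (.l 13))))) (.b (.c (.b .z (.c (.b .z (.l 13)) (.l 13))) (.l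
13)) (.l 13))) (.c (.b (.c .z (.c (.b (.c .z (.l 13)) (.l 13)) (.l 13))) (.c (.c (.b .z (.c .z (.l 13))) (.b (.c .z (.l 13)) (.l 13))) (.l 13))) (.b
(.l 13) (.c (.l 13) (.b (.c (.l 13) .z) .z)))))) (.c .z (.b (.c (.b (.c (.c .z (.a .z (.l 17))) (.b (.l 17) (.c (.l 17) .z))) (.c .z (.b .z (.c (.b .z
(.l 13)) (.l 13))))) (.b (.c (.b .z (.c .z (.b .z (.l 13)))) (.b (.c (.b .z (.l 13)) (.l 13)) (.l 13))) (.l 13))) (.a (.c (.b (.c (.b .z (.c .z (.l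
13))) (.l 13)) (.c (.c (.b .z (.l 13)) (.l 13)) (.l 13))) (.b (.l 13) (.a (.c (.l 13) .z) (.c (.l 13) .z)))) (.c (.b (.c (.b .z (.c .z (.l 13))) (.l
13)) (.a (.c (.l 13) (.b (.l 13) .z)) (.c (.b (.l 13) .z) .z))) (.b (.a (.c (.l 13) (.b (.l 13) .z)) (.c (.b (.l 13) .z) .z)) .z))))))) (.b (.a (.c
(.c (.c (.c .z (.b (.b (.l 29) .z) .z)) (.b (.b (.l 29) (.c (.l 29) .z)) .z)) .z) (.b (.c (.c .z (.b .z (.a .z (.l 17)))) (.c (.b (.a (.c .z (.l 17))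
(.l 17)) (.l 17)) (.a (.c (.l 17) (.a (.l 17) .z)) .z))) (.a (.c (.c (.c .z (.b .z (.l 17))) (.l 17)) (.b (.l 17) (.c (.l 17) .z))) (.c (.c (.c .z (.c
.z (.l 17))) (.l 17)) (.b (.c (.l 17) .z) (.a (.c (.l 17) .z) (.c (.l 17) .z))))))) (.c (.b (.c (.c .z (.c (.b (.l 29) .z) .z)) (.c .z (.c .z (.a .z
(.b (.l 25) .z))))) (.c .z (.a (.c .z (.c .z (.b .z (.l 21)))) (.b (.c (.c (.l 25) .z) .z) .z)))) (.b (.a (.c (.c .z (.c (.c .z (.l 17)) (.l 17))) (.c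
(.c (.a (.l 17) .z) .z) .z)) (.c (.c (.c (.b (.l 25) .z) .z) .z) .z)) (.a (.c (.b (.c .z (.l 17)) .z) .z) .z)))) (.a (.c (.b (.c (.c (.c (.a .z (.l
29)) .z) .z) .z) .z) (.b (.a (.c (.b (.c (.c .z (.l 17)) (.b (.l 17) .z)) .z) (.b (.a (.c .z (.b .z (.l 13))) .z) (.a (.c (.l 13) .z) .z))) (.c (.b
(.a (.c .z (.l 17)) .z) .z) .z)) (.a (.c (.b (.a (.c .z (.b (.l 13) .z)) .z) .z) .z) .z))) .z)))) (.a (.b (.a (.c (.c (.b (.c (.b (.c (.a .z (.c .z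
(.l 17))) (.a .z (.c (.l 17) .z))) (.c (.a .z (.l 17)) .z)) .z) (.c (.b (.c .z (.b .z (.c (.b .z (.l 13)) (.l 13)))) (.c (.b (.c .z (.l 13)) (.l 13))
(.l 13))) (.b (.c (.c (.c (.l 13) .z) .z) .z) (.c (.c (.l 13) (.c (.b .z (.l 13)) .z)) .z)))) (.b (.b .z (.c .z (.c .z (.b (.c .z (.l 26)) (.c .z (.l
26)))))) (.c (.b .z (.c (.b .z (.c .z (.l 19))) (.c (.c (.l 19) .z) (.c .z (.l 21))))) (.c (.c (.c (.b (.l 21) .z) .z) .z) (.c (.c .z (.l 26)) (.a (.l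
26) (.c (.l 26) .z))))))) (.b (.c (.c (.b .z (.c (.c (.a (.l 26) .z) .z) .z)) .z) .z) (.c (.c (.c (.c (.a (.c (.l 26) .z) .z) .z) .z) .z) .z))) (.b
(.c (.c (.c (.b (.c (.a (.l 17) (.c (.l 17) .z)) (.a (.c (.l 17) .z) .z)) (.c (.a (.l 17) (.c (.l 17) .z)) .z)) .z) (.b (.c .z (.c (.c .z (.c (.l 25)
.z)) .z)) .z)) .z) (.c (.c (.c (.b (.c (.b (.l 17) .z) (.b .z (.c .z (.l 13)))) (.c (.b (.c .z (.b .z (.l 13))) (.l 13)) (.l 13))) (.b (.c (.b .z (.c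
(.c (.l 13) .z) .z)) .z) (.c (.c (.a (.l 13) (.c (.l 13) .z)) .z) .z))) (.a (.c (.b .z (.c .z (.c (.l 19) .z))) .z) .z)) .z))) (.a (.c (.b (.c (.c (.b
(.l 13) (.c (.l 13) (.b (.c (.l 13) .z) .z))) (.b (.c (.b (.c (.l 13) .z) .z) (.b (.c .z (.l 19)) (.c .z (.l 19)))) (.c (.b .z (.c (.l 16) .z)) (.c
(.c .z (.l 19)) (.l 19))))) (.a (.c (.c (.l 19) .z) (.c .z (.c .z (.c .z (.l 26))))) (.b (.c (.c (.l 19) .z) .z) (.a (.c (.c (.l 19) .z) .z) (.c (.c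
(.l 19) .z) .z))))) (.c (.a (.c (.b (.c (.b (.c (.l 13) .z) .z) .z) (.c .z (.l 16))) (.c (.c (.c (.l 16) .z) .z) (.l 19))) (.b (.c (.c (.b (.c (.l 13)
.z) .z) .z) (.c (.c (.l 16) .z) (.c .z (.l 19)))) (.c (.a (.c .z (.l 16)) .z) .z))) (.a (.b (.c (.c (.c (.l 19) .z) .z) .z) .z) .z))) .z) (.c (.b (.c
(.a (.b (.c (.l 13) (.c (.b (.c (.l 13) .z) .z) .z)) (.c (.c (.l 13) (.b (.c (.l 13) .z) .z)) .z)) (.b (.c (.l 13) .z) (.c (.a (.b (.c (.l 13) .z) (.c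
(.l 13) .z)) (.b (.c (.l 13) .z) .z)) .z))) (.a (.b (.a (.c (.c (.l 19) .z) .z) .z) .z) .z)) (.c (.a (.b .z (.c .z (.a .z (.b .z (.l 14))))) (.b (.c
.z (.a .z (.c (.l 14) .z))) (.c (.a (.c .z (.l 14)) (.l 14)) (.c (.l 14) (.c (.l 14) .z))))) (.a .z (.c (.c .z (.b (.c (.l 20) .z) .z)) (.c (.b .z (.c
(.l 22) .z)) .z))))) .z))) (.b (.a (.b (.c (.c .z (.a (.b (.c .z (.c (.c .z (.l 25)) .z)) .z) .z)) .z) (.c (.c (.a (.b .z (.c (.a (.c .z (.l 13)) (.b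
(.c .z (.l 13)) .z)) .z)) .z) .z) .z)) (.b .z (.c (.c .z (.c (.b (.c .z (.c .z (.l 19))) (.c .z (.c .z (.l 19)))) (.c (.c (.c (.l 19) .z) .z) .z)))
.z))) (.a (.c (.b (.c (.a (.b (.c (.a (.b (.l 13) .z) .z) .z) (.c .z (.a .z (.c (.l 14) .z)))) (.b (.c .z (.c (.b .z (.l 14)) .z)) (.c (.c .z (.b .z
(.l 14))) (.c (.l 14) .z)))) (.a (.b .z (.c (.c (.c .z (.l 20)) (.c (.l 20) .z)) .z)) (.c (.c (.c .z (.l 20)) (.c (.c (.l 20) .z) .z)) .z))) (.c (.a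
(.b (.c (.a (.b .z (.l 14)) (.l 14)) (.c (.l 14) (.c (.l 14) .z))) (.c (.l 14) (.c (.l 14) (.c (.l 14) .z)))) (.c (.l 14) (.c (.l 14) (.c (.b .z (.l
14)) .z)))) (.c (.c (.c .z (.b (.c .z (.l 20)) .z)) (.b (.c (.a (.l 20) .z) .z) .z)) (.c (.b .z (.c (.c (.l 22) .z) .z)) .z)))) (.c (.c (.b (.c .z (.c
(.l 33) .z)) (.c .z (.c (.c (.l 33) .z) .z))) .z) .z)) (.c (.c (.b (.c (.b .z (.c .z (.b (.c .z (.l 14)) (.l 14)))) (.b (.c (.b .z (.c (.l 14) .z))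
.z) (.c (.l 14) .z))) (.c (.b (.c (.b (.c .z (.l 14)) (.l 14)) (.l 14)) (.c (.c (.c .z (.l 14)) (.l 14)) (.l 14))) (.c (.l 14) (.c (.b (.c (.l 14) .z)
(.l 14)) .z)))) (.c (.b (.c (.c (.b (.c .z (.l 20)) (.c .z (.l 20))) (.c (.l 20) (.a (.l 20) .z))) (.c (.c .z (.a .z (.l 19))) (.b (.c (.l 19) .z)
.z))) (.c (.c .z (.a (.b (.l 20) .z) .z)) .z)) (.b .z (.c .z (.c (.c (.a .z (.l 23)) .z) .z))))) (.c (.c (.b (.c .z (.c (.l 33) .z)) (.c (.c .z (.c .z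
(.l 33))) .z)) .z) .z))))))

theorem vQ187 : ev3 Q187 J4_7 J4_11 J2_3 = 121481739304702713947965 := by decide +kernel

noncomputable def Q64 : QT3 :=
(.a (.c (.c (.c (.b (.a (.c (.b (.a (.c (.c .z (.l 15)) (.l 15)) (.c (.b .z (.l 15)) (.l 15))) (.l 15)) (.l 15)) (.c (.a (.b (.c .z (.b .z (.a (.l 15)
.z))) (.c (.b (.a (.l 15) .z) (.c .z (.l 15))) (.l 15))) (.b (.c (.a (.b (.l 11) .z) (.l 11)) (.a .z (.b (.c (.l 11) .z) .z))) (.c (.a .z (.b (.c (.l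
11) .z) .z)) (.a (.b .z (.l 15)) .z)))) (.a (.l 15) (.b (.c (.a (.b .z (.l 15)) .z) (.l 15)) (.l 15))))) (.a (.c (.c (.b (.c (.a (.l 15) .z) (.l 15))
(.c .z (.a (.l 15) .z))) (.l 15)) (.l 15)) (.c (.a (.c (.b (.c .z (.b (.l 15) .z)) (.c (.b .z (.l 13)) .z)) (.b (.l 15) (.c (.b (.l 15) .z) (.l 15))))
(.b (.c .z (.c (.b (.l 15) .z) (.l 15))) (.c (.c (.l 13) (.b .z (.a .z (.l 13)))) (.c .z (.b (.l 15) .z))))) (.l 15)))) (.c (.c (.b (.l 15) (.b (.c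
(.l 15) (.a (.l 15) (.b (.l 15) (.a (.l 15) .z)))) (.c (.a (.l 15) (.b (.l 15) (.a (.l 15) .z))) (.a (.b (.a (.l 15) .z) .z) .z)))) (.b (.c (.b (.l
15) (.a (.l 15) (.b (.l 15) (.a (.l 15) .z)))) (.b (.a (.l 15) (.b (.l 15) (.a (.l 15) .z))) (.a (.b (.a (.l 15) .z) .z) .z))) (.b (.c (.a (.b (.a (.l
15) .z) .z) .z) .z) .z))) (.c (.b (.c (.b (.a (.b (.a (.l 15) .z) .z) .z) .z) .z) .z) (.b (.a (.a (.a (.c .z (.b .z (.l 22))) .z) .z) .z) (.b (.a (.a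
(.a (.c .z (.l 22)) (.c .z (.l 22))) .z) .z) (.a (.a (.a (.c .z (.l 22)) .z) .z) .z)))))) (.a (.b (.c (.c (.b (.a (.c .z (.b .z (.l 22))) .z) (.a (.c
(.b (.a (.l 22) .z) (.l 22)) (.l 22)) (.c .z (.a (.l 22) (.b .z (.l 22)))))) (.b (.c (.a (.l 22) (.b .z (.a (.l 22) .z))) (.b .z (.a (.c (.l 22) .z)
(.l 22)))) (.c (.l 22) (.b (.l 22) (.a (.l 22) (.c (.l 22) .z)))))) (.c (.b (.c (.b .z (.a .z (.c (.l 22) .z))) (.b (.a (.l 27) .z) .z)) (.c (.b (.a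
(.c (.l 22) .z) (.c (.l 22) .z)) (.a (.c (.l 22) .z) .z)) .z)) .z)) (.c (.c (.b (.a (.l 22) (.c (.a (.l 22) .z) (.l 22))) (.c (.b (.a (.l 22) .z) (.a
(.c (.l 22) .z) .z)) (.b (.a (.c (.l 22) .z) .z) .z))) (.b (.c (.b (.a (.l 22) (.c (.l 22) .z)) (.a (.c (.l 22) .z) .z)) (.b (.a (.c (.l 22) .z) .z)
.z)) (.c (.b .z (.a .z (.l 23))) (.b (.a .z (.c (.l 23) .z)) (.a .z (.c (.l 23) .z)))))) .z)) (.a (.c (.c (.b .z (.b .z (.c .z (.b .z (.c .z (.l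
23)))))) (.b .z (.c (.b .z (.a (.b .z (.l 23)) (.b (.l 23) .z))) (.b (.a (.b .z (.l 23)) .z) (.a (.c (.l 23) .z) .z))))) (.b .z (.c (.b (.c (.a (.c
(.l 23) .z) .z) .z) .z) .z))) (.c .z (.b .z (.a (.c (.b .z (.c (.c (.l 25) .z) .z)) .z) .z)))))) (.a (.b .z (.a .z (.c (.c (.b (.c (.a (.c .z (.l 34))
.z) .z) .z) .z) .z))) (.a .z (.c (.b (.c .z (.b .z (.c (.c (.c .z (.l 41)) .z) .z))) .z) .z)))) (.b (.a (.c (.c (.c (.c (.a (.b (.c (.l 11) (.a (.b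
(.l 11) (.c (.l 11) .z)) (.l 11))) (.c (.a (.b (.l 11) (.c (.l 11) .z)) (.l 11)) (.a .z (.b (.l 11) (.c (.l 11) .z))))) (.c (.l 11) (.c (.l 11) (.b
(.a (.l 11) (.b .z (.l 11))) (.l 11))))) (.a (.b (.c (.a .z (.c (.b .z (.l 11)) .z)) .z) (.c .z (.a (.l 15) (.b .z (.l 15))))) (.c (.a (.b .z (.c (.l
11) .z)) .z) (.a .z (.b (.l 16) (.a .z (.l 16))))))) (.a (.c (.b (.c (.a (.l 15) (.c .z (.l 15))) (.c (.l 15) .z)) (.c (.l 15) .z)) .z) (.c (.a (.c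
(.b .z (.a (.l 15) .z)) .z) .z) (.a .z (.c .z (.a .z (.b (.l 17) .z))))))) (.a (.c .z (.a .z (.b (.c (.b (.c (.l 24) .z) .z) .z) (.c (.c (.l 21) .z)
.z)))) (.c (.a (.c .z (.b (.b (.c .z (.l 24)) .z) (.b .z (.c .z (.l 21))))) (.b (.c (.c (.b (.l 17) .z) .z) (.c .z (.l 24))) .z)) (.b (.c (.b (.c (.l
24) (.b (.l 24) .z)) .z) (.b .z (.c .z (.l 27)))) (.c (.b .z (.c (.c (.l 21) .z) .z)) (.c .z (.b (.l 27) .z))))))) (.c (.c (.c (.b (.c (.c (.l 27) .z)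
.z) .z) .z) (.b .z (.c (.c (.c .z (.b (.l 41) .z)) .z) .z))) .z)) (.b (.c (.c (.a (.c (.c (.a (.c (.l 11) (.c (.l 11) .z)) (.c (.a (.l 11) (.b (.l 11)
.z)) (.c (.a (.l 11) .z) .z))) .z) (.c (.a (.c .z (.a .z (.l 17))) (.c (.a .z (.l 17)) (.l 17))) (.l 17))) (.c (.a (.c .z (.a (.c .z (.l 17)) .z)) (.c
(.b .z (.a .z (.l 15))) .z)) (.a (.l 17) (.c (.b (.l 17) .z) (.l 17))))) (.c (.c (.a (.c (.l 17) (.b (.a .z (.l 17)) .z)) (.l 17)) (.a (.c .z (.b .z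
(.a (.l 24) .z))) (.c (.a (.b (.l 17) .z) (.l 17)) .z))) (.c (.b (.a (.c (.a (.l 24) .z) (.l 24)) .z) (.c (.a (.b (.l 24) .z) .z) .z)) (.b (.c (.a (.b
(.l 24) .z) .z) .z) .z)))) (.c (.c (.c .z (.c (.a .z (.c (.l 33) .z)) .z)) .z) .z)) (.c (.c (.a (.c (.a (.c (.a (.l 11) (.c (.b (.l 11) .z) (.c (.l
11) .z))) .z) .z) (.c (.a (.c .z (.a .z (.l 17))) (.l 17)) (.c (.l 17) (.a (.b (.l 17) .z) (.l 17))))) (.c (.a (.c (.a .z (.c (.l 15) .z)) .z) (.c (.l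
15) (.a .z (.l 15)))) (.a (.c (.a (.l 17) (.b (.l 17) .z)) (.l 17)) (.c .z (.b (.a (.l 17) .z) .z))))) (.a (.c (.c (.b (.c (.a .z (.l 17)) .z) .z) (.b
(.c .z (.b (.l 24) .z)) .z)) (.c .z (.c .z (.c .z (.l 27))))) (.c (.a (.c (.c (.l 17) (.b (.l 17) .z)) .z) (.c (.b (.l 17) (.a (.l 17) .z)) (.b (.c
(.l 17) .z) .z))) (.c .z (.b .z (.c (.l 25) .z)))))) .z))) (.a (.b (.c (.c (.c (.a (.c (.c (.a .z (.b (.l 11) (.a .z (.l 11)))) .z) (.a (.l 15) (.c .z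
(.l 15)))) (.c (.a (.c (.l 11) (.a (.c (.l 11) .z) (.l 11))) (.l 11)) (.a .z (.c (.a (.c (.l 11) .z) (.c (.l 11) .z)) .z)))) (.a (.c (.c (.c (.l 15)
.z) .z) .z) (.a (.c (.c (.c (.l 15) .z) .z) .z) .z))) (.a (.c (.a (.c .z (.a (.c .z (.l 21)) .z)) .z) (.a (.c .z (.a (.c .z (.l 26)) (.c .z (.l 26))))
(.c .z (.c .z (.b .z (.l 26)))))) (.c (.a (.c .z (.c (.c (.l 19) .z) (.c .z (.l 21)))) (.c (.b .z (.c .z (.l 19))) (.c (.c (.l 19) .z) .z))) (.c (.c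
(.c (.l 21) .z) .z) .z)))) (.c (.c (.c .z (.a .z (.c (.c (.l 35) .z) .z))) .z) .z)) (.c (.a (.c (.c (.c (.a (.c (.b (.a (.l 13) .z) (.l 13)) .z) .z)
(.c (.c (.b (.l 15) .z) (.l 15)) (.l 15))) .z) (.c (.a (.c .z (.c (.l 21) (.c (.l 21) .z))) (.c (.a (.c .z (.l 21)) .z) .z)) (.a (.c .z (.a .z (.c .z
(.l 26)))) (.c .z (.c (.l 26) (.b (.l 26) .z)))))) (.c (.c (.a (.c (.c (.a (.b (.l 11) .z) (.l 11)) .z) (.c .z (.c (.l 15) .z))) (.c (.a (.c (.b (.l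
11) .z) (.c (.l 11) .z)) (.c .z (.b (.l 11) .z))) .z)) .z) (.b (.c (.a (.c .z (.c (.l 19) .z)) (.c (.l 19) (.c (.l 19) .z))) .z) (.a (.c (.c .z (.c
(.l 19) .z)) .z) (.b (.c (.c (.l 19) .z) .z) .z))))) .z)) (.b (.c (.a (.c (.c (.a (.c (.a (.c .z (.l 11)) .z) (.a (.c (.c (.l 11) .z) .z) .z)) (.c (.a
.z (.c (.l 15) .z)) .z)) (.a (.c (.a .z (.c .z (.l 17))) .z) (.c (.a (.l 17) (.b (.l 17) .z)) (.b (.c (.l 17) .z) .z)))) (.c (.c .z (.b .z (.c (.l 19)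
.z))) (.c (.c (.c (.b (.l 21) .z) .z) .z) .z))) (.c (.b (.c (.a (.c (.l 15) .z) (.l 15)) (.a (.c .z (.a (.l 17) .z)) (.c (.a .z (.l 15)) .z))) (.a (.c
(.c (.l 15) (.a .z (.l 15))) .z) (.c (.l 15) (.b (.c (.l 15) .z) .z)))) .z)) .z) (.c (.a (.c (.b (.c (.a .z (.c (.l 15) .z)) .z) .z) (.b (.a (.b (.c
(.c (.l 19) .z) .z) (.c (.c (.l 19) .z) .z)) .z) .z)) (.c (.b (.a (.c (.l 15) .z) (.c (.b (.c (.l 15) .z) .z) .z)) (.a .z (.c .z (.b .z (.c (.l 16)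
.z))))) (.b .z (.a (.b .z (.c (.c (.l 17) .z) .z)) (.c (.c (.c .z (.l 17)) (.c (.l 17) .z)) (.c .z (.c (.l 23) .z))))))) .z)))))

theorem vQ64 : ev3 Q64 J3_1 J4_6 J3_7 = 151157805075021911534796 := by decide +kernel

noncomputable def Q126 : QT3 :=
(.c (.b (.c (.a (.c (.b (.l 14) (.b (.l 14) (.a (.l 14) (.a (.l 14) (.b (.l 14) .z))))) (.b (.l 14) (.c (.b (.l 14) (.a (.l 14) (.a (.l 14) (.b (.l
14) .z)))) (.a (.l 14) (.a (.l 14) (.b (.l 14) .z)))))) (.a (.c (.b (.b (.l 14) (.a (.l 14) (.a (.b (.l 14) .z) .z))) (.a (.b (.b (.l 14) (.a (.l 14)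
.z)) .z) (.c (.b .z (.l 27)) .z))) (.b (.a (.l 14) (.c (.b (.l 14) (.a (.l 14) .z)) (.b (.a (.l 14) .z) .z))) (.a (.c (.b (.b (.l 14) .z) .z) .z) (.c
.z (.b .z (.a .z (.l 15))))))) (.c (.b .z (.a .z (.c (.b .z (.a .z (.l 15))) (.a (.b .z (.l 15)) (.l 15))))) (.a (.b (.c .z (.a .z (.b .z (.l 15))))
(.c (.b .z (.a .z (.l 15))) (.l 15))) (.b (.c (.a .z (.b .z (.l 15))) (.l 15)) (.l 15)))))) (.b (.a (.c (.c (.l 14) (.a (.l 14) (.a (.b (.l 14) (.c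
(.l 14) .z)) (.b (.c (.l 14) .z) .z)))) (.c (.a (.c (.b (.l 14) (.b (.l 14) .z)) (.b (.b (.l 14) .z) .z)) (.a .z (.c .z (.b .z (.l 8))))) (.a (.c .z
(.b .z (.l 8))) (.a (.c (.b .z (.l 8)) (.l 8)) (.l 8))))) (.a (.c (.a (.c (.b (.c (.l 14) .z) .z) .z) (.c .z (.a (.b .z (.l 15)) (.l 15)))) (.a (.c .z
(.c (.a (.l 8) .z) (.l 8))) (.c (.c (.l 15) (.a .z (.l 15))) (.c .z (.a (.b (.l 8) .z) .z))))) (.c (.a (.c (.a (.b .z (.l 15)) (.l 15)) (.l 15)) (.l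
15)) (.a (.c (.l 15) (.a (.c (.l 15) .z) (.l 15))) (.l 15))))) (.a (.c (.c (.a (.l 14) (.a (.b (.l 14) (.c (.l 14) .z)) .z)) (.a (.b (.c (.l 14) (.b
(.l 14) .z)) (.c (.b (.l 14) .z) .z)) .z)) (.b (.c (.a .z (.a (.c .z (.l 8)) (.c .z (.a (.l 8) .z)))) (.l 8)) (.c (.a (.c .z (.l 8)) (.a (.c (.a (.l
8) .z) (.l 8)) (.c .z (.a (.l 8) .z)))) (.b (.l 8) (.a (.c (.l 8) (.b (.l 8) .z)) (.l 8)))))) (.a (.c (.a (.c (.b .z (.a .z (.l 15))) (.b (.a .z (.l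
15)) (.l 15))) (.c (.b (.a .z (.l 15)) (.l 15)) (.l 15))) (.c (.a (.c (.a .z (.l 15)) .z) (.l 15)) (.a (.c (.a (.b (.l 8) .z) .z) (.a (.l 8) (.b (.l
8) .z))) (.a .z (.c (.l 15) .z))))) (.l 15))))) (.c (.b (.a (.c (.a (.b (.b (.l 14) (.b (.l 14) (.a (.l 14) .z))) .z) (.b (.a (.b (.a (.l 14) .z) .z)
(.b .z (.l 27))) (.b (.b (.l 27) .z) .z))) (.b (.a (.b (.l 14) (.b (.l 14) (.a (.l 14) .z))) .z) .z)) (.a (.c (.a (.c (.b (.l 27) .z) .z) .z) (.a .z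
(.c (.b (.a .z (.l 15)) .z) (.b (.l 15) .z)))) (.c (.a (.c .z (.b (.a .z (.l 15)) .z)) (.b (.l 15) (.b (.b (.l 15) .z) (.l 41)))) (.b (.l 15) (.b (.b
(.l 15) .z) (.l 41)))))) (.a .z (.a .z (.a .z (.b (.c .z (.b (.l 41) .z)) .z))))) (.b (.a (.c (.b (.c (.a (.c (.b (.l 14) .z) (.b (.l 14) .z)) .z) (.b
(.a .z (.a .z (.l 15))) (.a .z (.a .z (.l 15))))) .z) (.b (.c (.b (.a (.c (.l 8) (.b (.l 8) .z)) (.a (.c .z (.l 8)) .z)) .z) (.b (.a .z (.a .z (.c (.l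
8) .z))) .z)) (.c (.b .z (.a .z (.a (.l 16) .z))) (.b (.a (.a .z (.l 16)) (.a (.l 16) .z)) (.a .z (.l 16)))))) (.a (.c (.b (.l 15) (.a .z (.b (.b (.l
15) .z) (.l 41)))) (.b (.a (.c (.c (.l 15) .z) .z) (.c (.l 15) (.a .z (.l 15)))) .z)) (.b (.l 15) (.b (.b (.l 15) .z) (.l 41))))) (.a (.c (.b (.c .z
(.b .z (.a .z (.a .z (.l 16))))) (.a .z (.a .z (.a .z (.b (.l 16) .z))))) (.a .z (.a (.b (.b (.a .z (.l 16)) .z) .z) (.b (.l 16) (.a .z (.b (.l 16)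
.z)))))) (.a (.c (.b .z (.a (.c (.b .z (.l 16)) (.l 16)) .z)) (.b (.a (.c (.b .z (.l 16)) (.l 16)) .z) (.a (.l 16) .z))) (.c (.b (.a (.b (.l 41) .z)
(.l 41)) .z) (.b (.a .z (.c (.l 41) .z)) .z))))))) (.b (.c (.b (.a (.c (.l 8) (.b (.l 8) (.c (.l 8) (.b (.l 8) (.a (.c (.l 8) (.b (.l 8) .z)) (.l
8)))))) (.a (.c (.c (.a (.l 8) (.c (.a (.l 8) (.b (.l 8) .z)) (.l 8))) (.l 8)) (.l 8)) (.c (.a (.c (.a (.c .z (.b (.l 8) .z)) .z) (.a (.l 8) (.c .z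
(.l 8)))) (.c (.a (.c (.l 15) .z) (.l 15)) .z)) (.a (.l 8) (.c (.a (.c (.b (.l 8) .z) (.l 8)) (.c .z (.b (.l 8) .z))) (.l 8)))))) (.a (.c (.b (.c (.l
8) (.b (.l 8) (.a (.c (.l 8) (.b (.l 8) .z)) (.l 8)))) (.c (.b (.a (.c (.l 8) (.b (.l 8) .z)) (.l 8)) (.a .z (.a .z (.c (.l 8) .z)))) (.b (.a .z (.a
.z (.c (.l 8) .z))) .z))) (.b (.c (.b (.a (.c (.l 8) (.b (.l 8) .z)) (.l 8)) (.a .z (.a .z (.c (.l 8) .z)))) (.b (.a .z (.a .z (.c (.l 8) .z))) .z))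
(.c .z (.b .z (.a .z (.a .z (.l 16))))))) (.a (.c (.b (.c (.a (.l 8) (.a (.l 8) .z)) (.l 8)) (.a (.c (.l 8) (.b (.l 8) (.a .z (.l 8)))) (.c (.a (.c .z
(.l 8)) .z) (.l 8)))) (.b (.a (.c (.l 8) (.b (.l 8) (.a .z (.l 8)))) (.l 8)) (.a (.c (.b (.a .z (.l 8)) .z) .z) (.c (.b (.l 8) (.a .z (.l 8))) (.b (.a
.z (.l 8)) .z))))) (.c (.a (.c (.a .z (.c (.l 15) .z)) (.a (.c .z (.b (.l 8) .z)) .z)) (.c (.l 15) (.a .z (.l 15)))) (.a (.c (.a (.l 8) (.c (.b (.l 8)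
.z) (.l 8))) (.l 8)) (.c .z (.a (.b (.l 8) (.c .z (.l 8))) (.b (.c .z (.l 8)) .z)))))))) (.b (.a (.c (.b (.c (.l 8) (.b (.l 8) (.a (.c (.l 8) (.b (.l
8) .z)) (.l 8)))) (.c (.b (.a (.c (.l 8) (.b (.l 8) .z)) (.l 8)) (.a .z (.a .z (.c (.l 8) .z)))) (.b (.a .z (.a .z (.c (.l 8) .z))) .z))) (.b (.c (.b
(.a (.c (.l 8) (.b (.l 8) .z)) (.l 8)) (.a .z (.a .z (.c (.l 8) .z)))) (.b (.a .z (.a .z (.c (.l 8) .z))) .z)) (.b .z (.c (.a (.l 38) .z) .z)))) (.a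
(.c (.b (.l 8) (.a (.c (.l 8) (.b (.l 8) .z)) (.l 8))) (.b (.a (.c (.l 8) (.b (.l 8) .z)) (.l 8)) (.a .z (.c (.b (.l 8) (.a .z (.l 8))) (.b (.a .z (.l
8)) .z))))) (.c (.l 8) (.b (.l 8) (.a (.c (.l 8) (.b (.l 8) (.a .z (.l 8)))) (.l 8)))))) (.a (.b (.c .z (.a (.c (.a (.l 38) .z) .z) (.a .z (.a .z (.l
16))))) (.c (.a (.a (.l 38) .z) (.a (.a .z (.b .z (.l 16))) (.l 16))) (.a (.c (.a (.l 38) .z) .z) (.c (.a .z (.a (.l 16) .z)) .z)))) (.a (.c (.b (.a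
(.c (.b (.a .z (.l 8)) .z) .z) (.c (.b (.l 8) (.a .z (.l 8))) (.b (.a .z (.l 8)) .z))) (.a (.c (.b .z (.l 16)) (.a (.l 16) .z)) .z)) .z) (.c (.b (.a
(.c (.l 8) (.b (.l 8) (.a .z (.l 8)))) (.l 8)) (.a (.c (.b (.a .z (.l 8)) .z) .z) (.c (.a (.l 8) (.c .z (.l 8))) (.a (.b (.l 8) .z) (.l 8))))) (.b (.a
(.c (.b (.a .z (.l 8)) .z) .z) (.c (.l 8) (.a (.b (.l 8) .z) (.l 8)))) (.a .z (.a .z (.c (.b (.l 8) .z) .z))))))))) (.a (.b (.c (.c (.b (.c (.b .z (.a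
.z (.a (.l 16) .z))) (.b (.a .z (.a (.l 16) .z)) (.a .z (.l 16)))) (.a (.a .z (.b (.l 16) .z)) (.l 16))) (.a (.b .z (.a .z (.b (.l 16) .z))) (.a (.b
(.a (.b .z (.l 16)) (.l 16)) (.l 16)) (.l 16)))) (.c (.a (.b (.a (.b (.l 38) .z) .z) (.a .z (.b (.a .z (.l 16)) .z))) (.b (.c (.a (.a .z (.l 16)) (.l
16)) (.a (.a .z (.l 16)) (.a (.l 16) .z))) (.c (.a (.l 16) (.b (.l 16) .z)) (.a (.b (.l 16) .z) .z)))) (.a .z (.b (.c (.a (.a .z (.l 16)) .z) .z)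
.z)))) (.c (.c (.a (.b (.b .z (.a (.l 48) .z)) .z) (.a .z (.b (.a (.b (.l 16) .z) (.l 16)) (.a .z (.b (.l 16) .z))))) (.a (.b (.b .z (.a (.l 48) .z))
(.a (.l 48) .z)) (.b (.a .z (.c (.a .z (.l 16)) (.b (.l 16) .z))) .z))) (.c .z (.a (.b .z (.c .z (.a (.l 40) .z))) .z)))) (.b (.c (.a (.c (.b (.a (.c
(.b (.a .z (.l 8)) .z) .z) .z) (.a (.c (.b .z (.l 16)) (.l 16)) .z)) (.b (.a (.c (.b .z (.l 16)) (.l 16)) .z) (.a (.c (.l 16) (.a (.l 16) .z)) .z)))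
(.c (.b (.a (.c (.a .z (.l 15)) .z) (.l 15)) .z) (.b (.a (.c (.b (.a (.l 8) .z) .z) .z) (.c (.a .z (.l 15)) .z)) .z))) (.a (.b (.c (.a (.c (.a (.l 16)
.z) .z) .z) .z) .z) (.a (.b (.c .z (.a .z (.c .z (.a .z (.l 10))))) (.c .z (.a .z (.c .z (.a .z (.l 10)))))) (.c .z (.b (.a (.c .z (.l 10)) (.c .z (.b
.z (.l 10)))) (.l 10)))))) (.c (.a (.b (.c (.a (.c (.l 16) (.a (.l 16) .z)) .z) .z) (.c (.a (.c (.a (.l 16) .z) .z) .z) .z)) .z) (.a .z (.a (.c .z (.a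
(.c .z (.a .z (.c .z (.l 10)))) (.c (.a .z (.c .z (.l 10))) (.l 10)))) (.c (.a (.c .z (.a .z (.c .z (.l 10)))) (.c .z (.l 10))) (.l 10)))))))))

theorem vQ126 : ev3 Q126 J3_0 J4_10 J4_12 = 208849054457899687830723 := by decide +kernel

noncomputable def Q80 : QT3 :=
(.c (.b (.c (.a (.b (.c (.a (.c .z (.a (.c .z (.l 14)) .z)) .z) (.a (.c (.a (.l 14) (.b (.l 14) (.c .z (.l 14)))) (.l 14)) (.b (.c .z (.a (.l 14) .z))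
(.c .z (.a (.a (.l 14) .z) .z))))) (.c (.a (.c (.a .z (.b .z (.l 40))) .z) (.b (.a .z (.c .z (.l 40))) (.c (.a (.l 40) .z) (.a (.l 40) .z)))) (.a (.b
(.c (.a (.l 14) .z) (.l 14)) (.c (.a (.a (.l 14) .z) .z) (.a (.l 14) .z))) .z))) (.b (.c (.a (.a (.c (.a (.c (.l 18) .z) (.l 18)) .z) (.c (.l 18) (.a
(.c (.l 18) .z) (.l 18)))) (.b (.c (.l 18) (.a (.l 18) .z)) (.c (.a (.l 18) .z) .z))) (.a .z (.b .z (.c .z (.a .z (.l 31)))))) (.c (.a (.b (.c (.a (.a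
.z (.l 18)) (.l 18)) .z) (.c (.a (.a .z (.l 18)) .z) .z)) (.b .z (.c .z (.a .z (.l 31))))) (.a .z (.b (.c (.a .z (.l 31)) (.l 31)) (.l 31)))))) (.a
(.b (.c (.a (.b (.l 14) (.c (.l 14) (.a (.l 14) (.b (.l 14) .z)))) (.b (.c (.l 14) (.a (.b (.l 14) .z) .z)) (.c (.a (.b (.l 14) .z) .z) (.a .z (.b .z
(.c .z (.l 10))))))) (.a (.b (.c (.a (.l 14) (.b (.l 14) .z)) (.a (.b (.l 14) .z) .z)) (.c (.a (.b (.l 14) .z) .z) .z)) (.b (.c .z (.a .z (.b .z (.l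
19)))) (.c (.a .z (.c (.c (.l 10) .z) .z)) (.l 19))))) (.c (.a (.b (.c (.a (.l 14) (.b (.l 14) .z)) (.a (.b (.l 14) .z) .z)) (.c .z (.a .z (.b (.c .z
(.l 10)) (.l 10))))) (.b (.c (.a .z (.b .z (.c .z (.l 10)))) (.a (.b .z (.c .z (.l 10))) (.l 10))) (.c (.a (.b .z (.c .z (.l 10))) (.c (.c .z (.l 10))
(.l 10))) (.l 10)))) (.a (.b (.c .z (.a .z (.c .z (.l 19)))) (.c (.a (.b (.c .z (.l 10)) (.l 10)) (.c (.l 10) (.c (.l 10) .z))) (.c .z (.c .z (.l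
19))))) (.c (.c (.c (.l 10) (.b (.a (.l 10) .z) (.l 10))) (.b .z (.c (.a (.l 10) .z) .z))) (.c (.b (.l 19) .z) (.l 19)))))) (.b (.c (.a (.b (.c .z (.a
.z (.b .z (.c (.l 10) .z)))) (.c .z (.a (.b (.c .z (.l 10)) (.l 10)) (.l 10)))) (.b (.c .z (.c (.c (.a (.l 10) .z) (.l 10)) (.c (.a (.l 10) .z) .z)))
(.c .z (.c (.l 10) (.c (.a (.l 10) .z) .z))))) (.a (.b (.c (.a .z (.c .z (.l 19))) (.l 19)) (.c (.c .z (.l 19)) (.l 19))) (.c (.c (.c (.a .z (.l 19))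
(.l 19)) (.l 19)) (.l 19)))) (.c (.c (.c .z (.a (.c (.a (.l 10) (.b .z (.l 10))) (.l 10)) (.c .z (.a (.l 10) .z)))) (.c (.l 10) (.a (.l 10) (.c (.l
10) (.a (.b .z (.l 10)) .z))))) (.c (.c (.a (.c (.a (.l 10) (.b .z (.l 10))) .z) (.c .z (.a .z (.l 19)))) (.a (.c .z (.b (.l 19) .z)) (.l 19))) (.l
19)))))) (.c (.a (.b (.c (.a (.b (.a (.c (.l 40) .z) (.l 40)) (.c (.l 40) .z)) (.b (.c (.a (.l 40) .z) .z) .z)) (.a (.b .z (.c .z (.a .z (.b (.c .z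
(.l 10)) (.c .z (.l 10)))))) (.b .z (.c (.a .z (.l 44)) (.c .z (.c .z (.l 10))))))) (.c (.a .z (.b .z (.c .z (.a (.l 44) .z)))) (.a (.b (.c .z (.a (.b
(.c .z (.l 10)) (.l 10)) (.c (.c .z (.l 10)) (.l 10)))) (.c (.c .z (.c .z (.a (.l 10) .z))) (.l 10))) (.c (.c (.l 44) .z) (.c (.b .z (.a (.c .z (.l
10)) .z)) (.a (.l 10) (.c (.b .z (.l 10)) (.l 10)))))))) (.b (.c (.a (.b .z (.c (.a .z (.l 31)) (.a .z (.l 31)))) (.b (.c (.a .z (.l 31)) (.l 31)) (.l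
31))) (.c (.a (.a .z (.a .z (.l 31))) (.l 31)) (.c (.a .z (.l 31)) (.a .z (.c (.l 31) .z))))) (.c (.a (.a (.a .z (.l 31)) (.l 31)) (.l 31)) (.c (.a
(.a .z (.l 31)) (.l 31)) (.a (.c .z (.a (.c .z (.l 10)) .z)) (.c (.l 31) .z)))))) (.a (.b (.c (.a (.b (.c (.a .z (.b (.c .z (.l 10)) (.l 10))) (.a (.b
(.c .z (.l 10)) (.l 10)) (.l 10))) (.c (.a (.b (.c .z (.l 10)) (.l 10)) (.l 10)) (.l 10))) (.l 10)) (.c (.c (.l 10) (.a (.l 10) (.b (.c (.l 10) (.a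
(.l 10) .z)) (.l 10)))) (.c (.a (.b (.c (.l 10) .z) (.l 10)) (.b .z (.a (.c (.l 10) .z) .z))) (.a (.b .z (.c (.a (.l 10) .z) .z)) (.b (.c .z (.l 19))
.z))))) (.c (.l 10) (.c (.l 10) (.a (.c (.l 10) (.b (.a (.l 10) (.c (.l 10) .z)) (.l 10))) (.c (.b (.a (.l 10) (.c (.l 10) .z)) (.l 10)) (.b .z (.a
(.c (.l 10) .z) .z))))))) (.c (.c (.a (.c (.b (.c (.a (.b .z (.l 10)) .z) (.a (.l 10) (.b .z (.l 10)))) (.l 10)) (.l 10)) (.c (.b .z (.a (.c .z (.l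
10)) .z)) (.a (.l 10) (.c (.b .z (.l 10)) (.l 10))))) (.l 10)) (.c (.a (.c (.b (.a (.l 10) (.c (.l 10) (.b .z (.l 10)))) (.l 10)) (.b (.a (.c (.b .z
(.l 10)) .z) .z) (.a (.l 10) (.c (.l 10) (.b .z (.l 10)))))) (.c (.a (.b (.c (.b .z (.l 10)) .z) (.l 10)) (.b .z (.c (.a (.l 10) .z) .z))) (.b (.a .z
(.c .z (.l 19))) .z))) (.a (.b (.c (.a .z (.c .z (.l 19))) (.l 19)) (.c (.a (.b .z (.c (.l 10) .z)) .z) (.a .z (.b (.l 19) .z)))) (.c (.b (.l 19) (.a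
(.c .z (.l 19)) (.l 19))) (.l 19)))))))) (.b (.a (.c (.b (.c (.a (.b (.c .z (.a .z (.l 19))) (.c (.a (.b .z (.l 19)) (.l 19)) (.l 19))) (.l 19)) (.l
19)) (.l 19)) (.c (.l 19) (.c (.l 19) (.a (.c (.l 19) (.a (.c (.l 19) (.a .z (.l 19))) (.l 19))) (.l 19))))) (.l 19)) (.c (.c (.a (.c (.b (.c (.a (.b
(.l 19) .z) (.l 19)) (.l 19)) (.a (.c (.b .z (.a (.l 10) (.c (.l 10) .z))) .z) (.c (.b (.a .z (.l 19)) .z) (.b (.l 19) (.a .z (.l 19)))))) (.b (.l 19)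
(.a (.c (.b (.l 19) (.a .z (.l 19))) (.l 19)) (.l 19)))) (.l 19)) (.b (.l 19) (.b (.l 19) (.a (.c (.l 19) (.b (.l 19) (.a .z (.c (.l 19) .z)))) (.l
19))))) (.a (.c (.b (.l 19) (.b (.b (.l 19) (.c (.l 19) (.b (.c (.l 19) .z) .z))) (.b (.c (.a .z (.c (.l 19) .z)) .z) .z))) (.a (.c (.b (.l 19) .z)
(.a (.c (.b (.b (.l 19) .z) .z) .z) (.b (.b (.l 19) (.b (.l 19) .z)) .z))) (.b (.b (.l 19) (.b (.l 19) (.c (.l 19) (.b (.l 19) .z)))) (.b (.b (.c (.b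
(.l 19) .z) .z) .z) .z)))) (.b (.l 19) (.c (.b (.l 19) (.c (.b (.l 19) (.a .z (.l 19))) (.b (.a .z (.c (.l 19) .z)) .z))) (.b (.c (.b (.l 19) (.a .z
(.c (.l 19) .z))) (.b (.a .z (.c (.l 19) .z)) .z)) .z)))))))

theorem vQ80 : ev3 Q80 J4_4 J4_6 J3_5 = 342838147305060852701078 := by decide +kernel

noncomputable def Q43 : QT3 :=
(.a (.b (.c (.b (.a (.a (.a (.c (.l 34) (.a .z (.l 34))) (.l 34)) (.l 34)) (.a (.l 34) (.a (.c (.l 34) (.a (.c (.l 34) .z) .z)) (.c (.a (.c (.l 34)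
.z) .z) .z)))) (.a (.c (.c (.a (.c (.b (.l 34) .z) (.l 34)) (.l 34)) (.a (.a (.a .z (.l 34)) (.l 34)) (.l 34))) (.a (.a .z (.a (.c (.l 34) .z) (.l
34))) (.l 34))) (.c (.a (.l 34) (.a (.l 34) (.a (.l 34) .z))) (.a (.b (.l 34) (.c (.l 34) .z)) (.b (.c (.a (.l 34) .z) .z) (.c .z (.a .z (.b .z (.c .z
(.l 10)))))))))) (.b (.a (.c (.a (.a .z (.a (.c (.l 34) .z) (.l 34))) (.l 34)) (.b (.a .z (.c (.l 34) (.b (.l 34) .z))) (.a .z (.c (.b (.l 34) .z)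
.z)))) (.c (.a (.b (.a (.l 34) .z) (.c (.l 34) .z)) .z) (.a (.b .z (.c .z (.b (.a .z (.c .z (.l 10))) (.a (.c .z (.l 10)) (.l 10))))) (.b (.c .z (.a
(.b .z (.c .z (.l 10))) (.b (.c .z (.l 10)) (.l 10)))) (.c (.a (.b .z (.c .z (.l 10))) (.b (.c .z (.l 10)) (.l 10))) (.l 10)))))) (.a (.c (.b (.c (.a
.z (.l 34)) (.a .z (.b (.l 34) .z))) (.c .z (.a .z (.b .z (.a .z (.c .z (.l 10))))))) (.b (.a .z (.c .z (.b (.a .z (.c .z (.l 10))) (.a (.c .z (.l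
10)) (.l 10))))) (.a (.c (.b .z (.c .z (.a .z (.l 10)))) (.b (.c .z (.a .z (.l 10))) (.l 10))) (.c (.b (.a .z (.c .z (.l 10))) (.a (.c .z (.l 10)) (.l
10))) (.l 10))))) (.c (.a (.b .z (.c (.b .z (.a .z (.c .z (.l 10)))) (.b (.a .z (.l 10)) (.l 10)))) (.b (.c (.a .z (.b .z (.c .z (.l 10)))) (.a (.b .z
(.l 10)) (.l 10))) (.c (.a (.b (.c .z (.l 10)) (.l 10)) (.l 10)) (.l 10)))) (.a (.b (.c (.b (.a .z (.c .z (.l 10))) (.a (.c .z (.l 10)) (.l 10))) (.l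
10)) (.l 10)) (.l 10)))))) (.c (.b (.a (.c (.c (.a .z (.c (.b (.l 34) .z) (.l 34))) (.a (.a .z (.l 34)) (.l 34))) (.b (.c (.a .z (.l 34)) .z) (.c .z
(.a .z (.b .z (.a .z (.c .z (.l 10)))))))) (.c (.a (.b (.l 34) (.c (.l 34) .z)) (.b (.c (.a (.l 34) .z) .z) (.c .z (.a .z (.b .z (.c .z (.l 10)))))))
(.a (.b (.c .z (.b .z (.a .z (.c .z (.l 10))))) (.c (.b .z (.a .z (.c .z (.l 10)))) (.b (.a (.c .z (.l 10)) (.l 10)) (.l 10)))) (.b (.c (.a .z (.b .z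
(.c .z (.l 10)))) (.a (.b (.c .z (.l 10)) (.l 10)) (.l 10))) (.c (.a (.b (.c .z (.l 10)) (.l 10)) (.l 10)) (.l 10)))))) (.a (.c (.b (.c (.a .z (.c .z
(.l 34))) .z) (.c (.a (.b .z (.c (.l 18) .z)) .z) (.a .z (.b .z (.c .z (.l 10)))))) (.b (.c (.a .z (.b .z (.a .z (.c .z (.l 10))))) (.a (.b .z (.c .z
(.a .z (.l 10)))) (.b (.a (.c .z (.l 10)) (.l 10)) (.l 10)))) (.c (.a (.b .z (.c (.a .z (.l 10)) (.l 10))) (.b (.a (.c .z (.l 10)) (.l 10)) (.l 10)))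
(.l 10)))) (.c (.a (.b (.c .z (.b .z (.a .z (.c .z (.l 10))))) (.c (.b .z (.a .z (.l 10))) (.b (.a (.c .z (.l 10)) (.l 10)) (.l 10)))) (.b (.c (.a .z
(.b (.c .z (.l 10)) (.l 10))) (.a (.b (.c .z (.l 10)) (.l 10)) (.l 10))) (.l 10))) (.a (.b (.c (.b (.a (.c .z (.l 10)) (.l 10)) (.l 10)) (.l 10)) (.l
10)) (.l 10))))) (.b (.a (.c (.b (.c (.a .z (.b .z (.a .z (.c .z (.l 10))))) (.a (.b .z (.c .z (.a .z (.l 10)))) (.b (.a (.c .z (.l 10)) (.l 10)) (.l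
10)))) (.c (.a (.b .z (.c .z (.a .z (.l 10)))) (.b (.a (.c .z (.l 10)) (.l 10)) (.l 10))) (.a (.b (.c (.a .z (.l 10)) (.l 10)) (.l 10)) (.l 10)))) (.b
(.a (.c (.b (.c (.a .z (.l 10)) (.l 10)) (.l 10)) (.l 10)) (.l 10)) (.l 10))) (.c (.a (.b (.c (.b (.a (.c .z (.l 10)) (.l 10)) (.l 10)) (.l 10)) (.l
10)) (.l 10)) (.l 10))) (.a (.c (.b (.c (.a (.b (.c (.a .z (.l 10)) (.l 10)) (.l 10)) (.l 10)) (.l 10)) (.l 10)) (.c (.l 10) (.a (.c (.b (.l 10) (.a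
(.c (.l 10) .z) (.l 10))) (.b (.a (.c (.l 10) .z) (.l 10)) .z)) (.c (.l 10) (.b (.l 10) (.a (.c (.l 10) .z) (.l 10))))))) (.l 10))))) (.b (.c (.a (.b
(.c (.a (.a .z (.c (.b (.l 14) (.a .z (.l 14))) (.b (.a .z (.l 14)) .z))) (.b (.l 14) (.c (.l 14) (.a (.l 14) (.b (.l 14) .z))))) (.a .z (.b (.c (.a
(.a .z (.l 14)) (.b (.l 14) .z)) .z) (.c .z (.a .z (.b (.c .z (.l 10)) (.l 10))))))) (.c (.a .z (.b (.c (.a (.l 14) (.b (.l 14) .z)) .z) (.c .z (.a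
(.b .z (.c .z (.l 10))) (.b (.c .z (.l 10)) (.l 10)))))) (.a (.b (.c .z (.a .z (.b .z (.c .z (.l 10))))) (.c (.a .z (.b .z (.c .z (.l 10)))) (.a (.b
(.c .z (.l 10)) (.l 10)) (.l 10)))) (.b (.c (.a (.b .z (.c .z (.l 10))) (.b (.c .z (.l 10)) (.l 10))) (.a (.b (.c .z (.l 10)) (.l 10)) (.l 10))) (.l
10))))) (.b (.c (.a (.b (.c (.a (.a (.l 14) .z) .z) (.a (.l 14) .z)) (.c .z (.a .z (.b .z (.c .z (.l 10)))))) (.b .z (.c .z (.a (.b .z (.c .z (.l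
10))) .z)))) (.a (.b (.c .z (.a (.b .z (.c .z (.l 10))) (.b (.c .z (.l 10)) (.l 10)))) (.c (.a (.b .z (.c .z (.l 10))) (.b (.c .z (.l 10)) (.l 10)))
(.l 10))) (.b (.c (.a (.b (.c .z (.l 10)) (.l 10)) (.c (.c .z (.l 10)) (.l 10))) (.l 10)) (.l 10)))) (.c (.a (.b (.c .z (.a (.b .z (.c .z (.l 10)))
(.l 10))) (.c (.a (.b .z (.c .z (.l 10))) (.c .z (.c .z (.l 10)))) (.l 10))) (.b (.c .z (.c (.a (.c .z (.l 10)) .z) (.l 10))) (.c .z (.c (.a (.l 10)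
(.c .z (.l 10))) (.l 10))))) (.l 10)))) (.a (.b (.c (.a (.b (.c .z (.a .z (.b .z (.c .z (.l 10))))) (.c (.a .z (.b .z (.c .z (.l 10)))) (.a (.b (.c .z
(.l 10)) (.l 10)) (.l 10)))) (.b (.c (.a .z (.b .z (.l 10))) (.a (.b (.c .z (.l 10)) (.l 10)) (.l 10))) (.c (.a (.b (.c .z (.l 10)) (.l 10)) (.l 10))
(.l 10)))) (.a (.b (.c (.a (.b .z (.c .z (.l 10))) (.l 10)) (.l 10)) (.l 10)) (.l 10))) (.c (.a (.b (.c (.a (.b (.c .z (.l 10)) (.l 10)) (.l 10)) (.l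
10)) (.l 10)) (.l 10)) (.l 10))) (.l 10))) (.c (.a (.b (.c (.a (.b (.c .z (.a .z (.b (.c .z (.l 10)) (.l 10)))) (.c (.a (.b .z (.c .z (.l 10))) (.b
(.c .z (.l 10)) (.l 10))) (.l 10))) (.b (.c (.a (.b .z (.c .z (.l 10))) (.b (.c .z (.l 10)) (.l 10))) (.l 10)) (.l 10))) (.a (.b (.c (.a (.b (.c .z
(.l 10)) (.l 10)) (.l 10)) (.l 10)) (.l 10)) (.l 10))) (.l 10)) (.c (.c (.b (.a (.c (.b (.a (.l 10) (.c .z (.l 10))) (.l 10)) (.l 10)) (.c (.b .z (.a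
(.l 10) (.c .z (.l 10)))) (.b (.a (.l 10) (.c .z (.l 10))) (.l 10)))) (.l 10)) (.l 10)) (.l 10))) (.l 10))))

theorem vQ43 : ev3 Q43 J3_1 J4_7 J4_10 = 362282539312356130168912 := by decide +kernel

noncomputable def Q107 : QT3 :=
(.a (.b (.c (.b (.a (.c (.b (.c .z (.a .z (.a (.c .z (.l 19)) (.l 19)))) .z) (.a (.c (.b (.c .z (.a .z (.l 19))) .z) (.b (.l 19) (.a (.c .z (.l 19))
(.l 19)))) (.c (.b (.l 19) (.a (.c .z (.l 19)) (.l 19))) (.l 19)))) (.c (.a (.c (.a (.c .z (.b (.l 19) .z)) (.c (.b (.l 19) .z) (.l 19))) (.l 19)) (.l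
19)) (.l 19))) (.a (.c .z (.a .z (.c (.b (.a .z (.c .z (.l 19))) .z) (.b (.a (.c .z (.l 19)) (.l 19)) (.a .z (.b (.l 19) .z)))))) (.c (.a (.c .z (.a
(.b (.c .z (.l 19)) .z) (.b (.l 19) (.c .z (.l 19))))) (.c (.a (.b (.l 19) (.c .z (.l 19))) (.l 19)) (.l 19))) (.a (.c (.b (.l 19) (.a (.c .z (.l 19))
(.l 19))) (.l 19)) (.l 19))))) (.c (.a (.b (.l 19) (.c (.a (.b (.a (.b (.l 19) .z) (.l 19)) .z) (.b (.l 19) (.a (.b (.l 19) .z) (.l 19)))) (.a (.b (.c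
(.l 19) (.a .z (.l 19))) .z) (.b (.l 19) (.c (.l 19) (.a .z (.l 19))))))) (.l 19)) (.a (.b (.c (.a (.b (.c (.l 19) (.a .z (.l 19))) (.c (.a .z (.l
19)) .z)) (.b (.l 19) (.c (.l 19) (.a .z (.l 19))))) (.a .z (.c (.b (.a .z (.l 19)) .z) .z))) (.c (.a .z (.b (.c (.a .z (.l 19)) .z) .z)) .z)) (.c (.b
(.l 19) (.a (.b (.l 19) (.c (.l 19) (.a .z (.l 19)))) (.l 19))) (.b (.a (.c (.l 19) (.b (.l 19) (.a .z (.l 19)))) (.l 19)) (.a (.c (.b (.a .z (.l 19))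
.z) .z) (.a (.c (.l 19) (.b (.l 19) .z)) (.l 19)))))))) (.c (.c (.a (.b (.b .z (.b (.c (.a (.b .z (.l 25)) (.l 25)) (.a .z (.b .z (.l 25)))) (.l 25)))
(.l 25)) (.a (.b (.a (.c (.b .z (.l 25)) (.b .z (.l 25))) (.c (.b .z (.l 25)) .z)) (.a (.l 25) (.b (.c (.l 25) (.a (.l 25) .z)) (.l 25)))) (.b (.a (.c
.z (.b (.a .z (.l 19)) .z)) (.c (.b (.l 19) (.a .z (.l 19))) (.l 19))) (.a (.c (.b (.a (.l 25) .z) (.l 25)) (.b .z (.a (.l 25) .z))) (.c .z (.b (.a .z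
(.l 19)) .z)))))) (.a (.b (.c (.a (.b .z (.b .z (.b .z (.l 25)))) (.b .z (.b .z (.l 25)))) .z) (.c (.a (.b (.l 25) (.c (.l 25) .z)) (.l 25)) (.a (.b
(.c (.a .z (.l 25)) .z) .z) (.b (.c (.l 25) (.a .z (.l 25))) (.c (.a .z (.l 25)) .z))))) (.a (.b (.b (.a (.c .z (.b (.l 19) .z)) (.c (.a .z (.l 19))
(.l 19))) (.a .z (.c .z (.a .z (.l 19))))) (.a (.b (.c (.l 25) (.b .z (.l 25))) (.l 25)) (.b .z (.c (.l 25) (.a (.l 25) .z))))) (.b (.l 19) (.a (.b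
(.c .z (.a .z (.l 19))) .z) (.b (.l 19) (.c (.a .z (.l 19)) (.l 19)))))))) (.c (.a (.b (.c (.a .z (.b (.a .z (.b (.l 19) .z)) .z)) (.a (.b .z (.c .z
(.a (.l 17) .z))) (.b (.c (.a .z (.l 19)) .z) .z))) (.c .z (.a (.c .z (.l 17)) (.b (.c .z (.a (.l 17) .z)) (.c .z (.l 17)))))) (.b (.c (.a (.b (.l 19)
(.a (.b (.l 19) .z) (.l 19))) (.l 19)) (.a (.b (.l 19) (.c (.l 19) (.a .z (.l 19)))) (.l 19))) (.a .z (.c (.a (.b (.l 19) (.a .z (.l 19))) (.l 19))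
(.a (.b (.l 19) .z) (.l 19)))))) (.a (.b (.c (.a (.b .z (.a (.b .z (.l 17)) .z)) .z) .z) (.a (.b (.a (.l 17) (.b (.c (.l 17) .z) (.l 17))) (.l 17))
(.b (.a (.b .z (.c (.l 17) .z)) .z) (.a (.l 17) (.b .z (.l 17)))))) (.a (.b (.c (.b (.c (.a .z (.l 19)) .z) .z) .z) .z) (.b (.c (.a (.b (.l 19) (.c
(.l 19) .z)) (.l 19)) (.a .z (.c (.b (.l 19) .z) .z))) (.c (.a .z (.b (.c (.l 19) .z) .z)) .z))))))) (.b (.c (.c (.a (.l 19) (.c (.a (.l 19) (.b (.l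
19) (.a (.l 19) (.c (.b (.l 19) .z) (.l 19))))) (.l 19))) (.l 19)) (.l 19)) (.c (.a (.a (.c (.b (.l 19) (.a (.c (.a (.b (.l 19) .z) (.l 19)) (.l 19))
(.l 19))) (.l 19)) (.l 19)) (.c (.b (.a (.l 19) (.c (.a (.b (.l 19) (.c .z (.l 19))) .z) (.b (.l 19) (.a (.l 19) (.c .z (.l 19)))))) (.a (.c (.a (.b
(.l 19) (.c .z (.l 19))) (.b (.c .z (.l 19)) .z)) (.b (.l 19) (.a (.l 19) (.b (.l 19) .z)))) (.c .z (.b (.a (.c .z (.l 19)) .z) .z)))) (.b (.l 19) (.a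
(.l 19) (.b (.c (.a (.l 19) (.b (.l 19) .z)) (.l 19)) (.a (.c (.b (.l 19) .z) (.l 19)) .z)))))) (.a (.c (.l 19) (.a (.b (.c (.l 19) (.a (.c (.l 19)
(.b (.l 19) .z)) (.l 19))) (.c (.a (.b (.l 19) (.c (.l 19) .z)) (.l 19)) (.a .z (.c (.l 19) (.b (.l 19) .z))))) (.l 19))) (.b (.l 19) (.c (.a (.l 19)
(.b (.l 19) (.c (.a (.l 19) (.b (.l 19) .z)) (.a (.l 19) (.b (.l 19) .z))))) (.a (.b (.l 19) (.c (.l 19) (.a (.l 19) (.b (.l 19) .z)))) (.b (.c (.l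
19) (.a (.b (.l 19) .z) .z)) (.c (.a (.b (.l 19) .z) .z) .z)))))))))

theorem vQ107 : ev3 Q107 J3_1 J4_8 J4_10 = 362159906400722501197859 := by decide +kernel

noncomputable def Q47 : QT3 :=
(.c (.a (.c (.c (.b (.c (.a (.l 16) (.a (.l 16) (.b (.l 16) (.c (.a (.l 16) .z) .z)))) (.a (.b (.l 16) (.c (.l 16) (.b (.l 16) (.a (.l 16) .z)))) (.a
(.b (.c (.l 16) (.b (.l 16) .z)) (.c (.b (.l 16) .z) .z)) (.b .z (.c .z (.a .z (.l 10))))))) (.a (.c (.b (.l 16) (.c (.l 16) (.b (.a (.l 16) .z) (.a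
(.l 16) .z)))) (.b (.c (.b (.l 16) (.a (.l 16) .z)) .z) .z)) (.c (.a (.b (.c (.l 16) .z) .z) (.b (.c .z (.a .z (.b .z (.l 10)))) .z)) (.a (.b (.c .z
(.a .z (.b .z (.l 10)))) .z) (.b (.c (.a (.b .z (.l 10)) (.l 10)) (.l 10)) (.b (.c (.a .z (.l 10)) (.l 10)) .z)))))) (.b (.c (.a (.b (.c (.b (.l 16)
(.a (.l 16) .z)) .z) (.c .z (.b .z (.a (.b .z (.l 10)) (.l 10))))) (.a (.b (.c .z (.b .z (.a .z (.l 10)))) (.c (.b .z (.a .z (.l 10))) (.l 10))) (.b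
(.c (.a .z (.b .z (.l 10))) (.l 10)) (.l 10)))) (.a (.b (.c (.b .z (.a (.b .z (.l 10)) (.l 10))) (.l 10)) (.l 10)) (.l 10))) (.a (.c (.b (.c (.b .z
(.a (.b .z (.l 10)) (.l 10))) (.l 10)) (.b (.c (.b (.a .z (.l 10)) .z) (.b (.l 10) (.a .z (.l 10)))) .z)) (.b (.l 10) (.b (.l 10) (.b (.c (.a .z (.l
10)) (.l 10)) (.c .z (.a .z (.l 10))))))) (.b (.l 10) (.c (.b (.a (.c (.b (.l 10) .z) (.l 10)) (.l 10)) (.a .z (.a (.c .z (.l 10)) (.l 10)))) (.b (.l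
10) (.a (.b (.l 10) (.c .z (.l 10))) (.l 10)))))))) (.l 10)) (.c (.a (.c (.b (.a (.c (.b (.c (.a (.l 16) .z) .z) (.a .z (.c .z (.b .z (.l 10))))) (.b
(.c (.a .z (.b .z (.l 10))) (.a (.b .z (.l 10)) (.l 10))) (.a (.c (.b .z (.l 10)) (.l 10)) (.l 10)))) (.c (.b (.a (.c .z (.b .z (.l 10))) (.c (.b .z
(.l 10)) (.l 10))) (.a (.c (.b .z (.l 10)) (.l 10)) (.l 10))) (.l 10))) (.a (.c (.b (.a (.c (.b .z (.l 10)) (.l 10)) (.l 10)) (.b (.a (.c .z (.l 10))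
(.l 10)) .z)) (.b (.l 10) (.b (.l 10) (.a (.c .z (.l 10)) (.l 10))))) (.l 10))) (.l 10)) (.b (.c (.a (.b (.c (.b .z (.c .z (.a (.l 10) .z))) (.b (.c
(.a (.l 10) .z) (.l 10)) (.l 10))) (.c (.b (.a (.l 10) (.c .z (.l 10))) (.l 10)) (.l 10))) (.b (.c .z (.a (.c .z (.b .z (.l 10))) .z)) (.c (.a (.b .z
(.c .z (.l 10))) .z) (.a (.l 10) (.c (.b .z (.l 10)) (.l 10)))))) (.a (.l 10) (.b (.c (.a (.l 10) (.c (.b .z (.l 10)) (.l 10))) (.l 10)) (.l 10))))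
(.c (.a (.l 10) (.b (.c (.a (.l 10) (.b (.c .z (.l 10)) (.l 10))) (.l 10)) (.l 10))) (.l 10)))) (.l 10))) (.b (.a (.c (.l 10) (.b (.c (.b (.c (.a (.l
10) (.b (.a (.l 10) (.c (.l 10) .z)) (.l 10))) (.a (.b (.c (.l 10) .z) (.l 10)) (.b .z (.a (.c (.l 10) .z) .z)))) (.c (.l 10) (.a (.l 10) (.a (.l 10)
(.b (.c (.l 10) .z) (.l 10)))))) (.b (.a (.c (.b .z (.c (.b .z (.l 10)) .z)) .z) (.c (.a .z (.b (.l 15) .z)) .z)) (.a (.c (.b (.c (.l 10) (.b .z (.l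
10))) (.l 10)) (.b .z (.c (.l 10) .z))) (.c (.a (.b .z (.c (.l 10) .z)) .z) (.a .z (.b (.l 15) .z)))))) (.c (.l 10) (.a (.b (.c (.l 10) (.b (.c (.l
10) .z) .z)) (.c (.b (.c (.l 10) .z) .z) .z)) (.c (.b (.a (.l 10) (.b (.c (.l 10) .z) (.l 10))) (.a (.b (.l 10) (.c (.l 10) .z)) (.l 10))) (.b (.a (.c
(.l 10) .z) .z) (.a .z (.c (.a .z (.l 10)) .z)))))))) (.c (.a (.c (.l 10) (.b (.c (.l 10) (.b (.a (.c (.l 10) (.b .z (.l 10))) (.c (.a (.l 10) .z)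
.z)) (.a (.l 10) (.a (.l 10) (.c (.l 10) .z))))) (.l 10))) (.c (.a (.l 10) (.b (.c (.a (.l 10) (.b (.c (.l 10) .z) (.l 10))) (.a (.b (.c (.l 10) .z)
(.l 10)) .z)) (.c (.l 10) (.a (.l 10) (.b (.c (.l 10) .z) (.l 10)))))) (.a (.b (.c (.b (.a (.c (.l 10) .z) .z) (.a (.l 10) (.c (.l 10) .z))) .z) (.c
(.l 10) (.b (.a (.l 10) .z) (.l 10)))) (.b (.c .z (.a .z (.b .z (.l 15)))) (.c (.a (.b (.c (.l 10) .z) (.l 10)) .z) .z))))) (.a (.b (.c (.b (.c .z (.a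
.z (.l 15))) (.a (.c (.b (.c (.l 10) .z) (.l 10)) .z) .z)) (.b (.l 15) (.a (.c .z (.l 15)) (.l 15)))) (.c (.a (.b (.c (.l 10) (.b (.c (.l 10) .z) (.l
10))) (.l 10)) (.b (.c (.a (.l 10) (.c (.l 10) .z)) .z) (.c (.l 10) (.a (.l 10) (.b .z (.l 10)))))) (.a (.b .z (.c (.b (.a (.l 10) .z) (.l 10)) (.b .z
(.a (.l 10) .z)))) (.b (.c .z (.l 15)) .z)))) (.c (.b (.a (.c (.b (.l 15) .z) (.l 15)) (.l 15)) (.a (.c (.b .z (.a (.c (.l 10) .z) .z)) (.b (.a .z (.l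
15)) .z)) (.c (.a .z (.l 15)) (.l 15)))) (.b (.l 15) (.a (.b (.l 15) (.c (.a .z (.l 15)) (.l 15))) (.l 15))))))) (.a (.c (.b (.c (.l 10) (.a (.b (.l
10) (.c (.l 10) (.b (.l 10) (.c (.l 10) (.a .z (.l 10)))))) (.l 10))) (.c (.a (.b (.l 10) (.c (.l 10) (.b (.l 10) (.c (.l 10) .z)))) (.l 10)) (.a (.b
(.c (.b (.l 10) (.c (.l 10) .z)) (.b (.c (.a .z (.l 10)) .z) .z)) .z) (.b (.c (.l 10) (.a (.b (.c (.l 10) .z) .z) (.l 10))) (.c (.a (.b (.c (.l 10)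
.z) .z) (.l 10)) (.a .z (.a .z (.c (.l 10) .z)))))))) (.b (.c (.a (.b (.c (.b (.l 10) (.c (.l 10) (.a .z (.l 10)))) (.b (.c (.l 10) .z) .z)) (.c (.b
(.c (.a .z (.l 10)) .z) .z) .z)) (.b (.c (.l 10) (.a (.b (.l 10) (.c (.l 10) .z)) (.l 10))) (.c (.a (.b (.l 10) (.c (.l 10) .z)) (.l 10)) (.a .z (.a
.z (.c (.l 10) .z)))))) (.a (.b .z (.c (.c (.l 28) .z) .z)) (.b (.c (.a .z (.a .z (.c (.l 10) .z))) .z) (.c .z (.a (.c .z (.l 14)) (.a (.l 14)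
.z)))))) (.c (.a (.b (.c (.b .z (.l 28)) (.l 28)) (.l 28)) (.b (.c (.a .z (.a .z (.c (.l 10) .z))) .z) .z)) (.a (.c (.c (.a (.l 28) .z) .z) .z) (.a
(.c (.a .z (.c .z (.l 14))) (.c (.l 14) (.a .z (.l 14)))) (.b (.c (.a (.l 14) .z) (.l 14)) (.l 14))))))) (.a (.c (.l 10) (.c (.b (.l 10) (.a (.c (.b
(.l 10) (.a .z (.l 10))) (.b (.a .z (.l 10)) .z)) (.l 10))) (.b (.a (.c (.b (.l 10) (.a .z (.l 10))) (.b (.a .z (.c (.l 10) .z)) .z)) (.c (.b (.a (.l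
10) (.b .z (.l 10))) (.l 10)) (.a (.b .z (.c (.l 10) .z)) (.b .z (.b .z (.l 10)))))) (.a (.c .z (.b .z (.l 14))) (.a (.c (.b (.c (.l 10) .z) .z) .z)
(.c (.l 10) (.b (.a .z (.l 10)) .z))))))) (.c (.a (.l 10) (.c (.l 10) (.b (.a (.c (.l 10) (.b (.c (.l 10) .z) (.l 10))) (.c (.l 10) (.b .z (.a (.l 10)
.z)))) (.l 10)))) (.a (.b (.c (.c (.a (.l 10) (.b (.c (.l 10) .z) (.l 10))) (.b (.a (.c (.l 10) .z) .z) (.a (.l 10) (.a (.l 10) .z)))) (.b (.c .z (.a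
.z (.l 15))) (.a (.c (.b .z (.l 10)) .z) .z))) (.c (.l 10) (.a (.b (.c (.l 10) (.b .z (.l 10))) (.l 10)) (.b (.c (.a (.l 10) .z) .z) (.c (.l 10) (.a
(.l 10) .z)))))) (.c (.b (.a (.c (.b .z (.a (.l 10) .z)) .z) (.c .z (.b (.l 15) .z))) (.a (.c (.l 10) (.b (.a (.l 10) .z) (.l 10))) (.c (.b .z (.a (.l
10) .z)) .z))) (.b (.a (.c (.b (.l 15) .z) (.l 15)) (.l 15)) (.a .z (.c .z (.b (.l 15) .z)))))))))))

theorem vQ47 : ev3 Q47 J3_0 J4_4 J4_13 = 395058469787708222065539 := by decide +kernel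

noncomputable def Q70 : QT3 :=
(.b (.a (.b (.c (.l 9) (.a (.c (.c (.a (.c (.l 9) (.a .z (.l 9))) (.l 9)) (.a (.c .z (.a (.l 11) .z)) (.c (.a (.c (.l 9) .z) (.l 9)) (.a .z (.a .z (.l
9)))))) (.a (.c (.c (.b (.l 11) (.a .z (.l 11))) (.b (.a .z (.l 11)) .z)) (.c .z (.b (.a (.l 13) .z) (.l 13)))) (.c (.a (.c .z (.l 11)) .z) (.c (.a .z
(.b (.l 11) .z)) .z)))) (.b (.c (.l 9) (.a (.c (.a .z (.c (.l 9) .z)) .z) (.c (.l 9) (.a .z (.l 9))))) (.c (.l 9) (.a (.c (.a (.c (.l 9) .z) (.l 9))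
.z) (.b (.c (.l 9) (.a .z (.l 9))) (.c (.l 9) (.a (.l 9) .z)))))))) (.c (.a (.l 9) (.c (.l 9) (.b (.l 9) (.a (.l 9) (.b (.l 9) (.c (.l 9) .z)))))) (.a
(.b (.c (.a (.c (.c (.l 9) (.a .z (.l 9))) (.a (.c .z (.l 11)) .z)) (.c (.l 9) (.a (.c (.l 9) .z) (.l 9)))) (.a (.c .z (.c (.a (.l 13) .z) (.l 13)))
(.c .z (.a (.c .z (.l 13)) .z)))) (.c (.a (.c (.a (.c (.l 9) .z) (.l 9)) .z) (.b (.l 9) (.c (.l 9) (.a (.l 9) .z)))) (.a (.b (.c .z (.l 13)) .z) .z)))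
(.b (.c (.a (.l 9) (.b (.l 9) (.c (.l 9) .z))) (.a (.b (.c (.a .z (.l 9)) .z) (.c (.a (.l 9) .z) .z)) (.b (.c (.a (.l 9) .z) .z) .z))) (.c (.a (.b (.c
(.l 9) (.a (.l 9) .z)) (.c (.a (.l 9) .z) .z)) (.b .z (.c .z (.a .z (.l 10))))) (.a .z (.b (.c (.a .z (.l 10)) (.c (.l 10) .z)) (.c (.l 10) .z))))))))
(.b (.c (.a (.l 9) (.c (.b (.l 9) (.a (.l 9) (.c (.l 9) (.b (.l 9) (.a (.l 9) .z))))) (.b (.a (.l 9) (.c (.l 9) (.b (.l 9) (.a (.l 9) .z)))) (.a (.b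
(.l 9) (.c (.l 9) .z)) (.b (.c (.a (.l 9) .z) .z) .z))))) (.a (.b (.c (.l 9) (.a (.l 9) (.b (.c (.l 9) (.c (.l 9) .z)) (.c (.a (.l 9) .z) .z)))) (.c
(.a (.b (.l 9) (.c (.l 9) (.a (.l 9) .z))) (.b (.c (.l 9) (.a (.l 9) .z)) (.c (.a (.l 9) .z) .z))) (.a (.b (.c (.l 9) (.a (.l 9) .z)) .z) (.b .z (.c
.z (.a .z (.l 10))))))) (.b (.c (.a (.b (.l 9) (.c (.l 9) .z)) (.b (.c (.a (.l 9) .z) .z) .z)) (.a (.b (.c (.a (.l 9) .z) .z) .z) (.b (.c .z (.a .z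
(.l 10))) (.c (.a .z (.l 10)) (.l 10))))) (.c (.a (.b .z (.c .z (.a .z (.l 10)))) (.b (.c .z (.a .z (.l 10))) (.c (.a .z (.l 10)) (.l 10)))) (.a (.b
(.c (.a .z (.l 10)) (.l 10)) (.l 10)) (.l 10)))))) (.c (.a (.c (.b (.l 9) (.a (.c (.l 9) (.b (.l 9) (.a (.l 9) .z))) (.c (.b (.l 9) (.a (.l 9) .z))
(.b (.a (.l 9) .z) .z)))) (.b (.a (.b (.l 9) (.c (.l 9) (.a (.l 9) .z))) (.b (.c (.l 9) (.a (.l 9) .z)) (.c (.a (.l 9) .z) .z))) (.a (.b (.c (.a (.l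
9) .z) .z) .z) (.b .z (.c .z (.l 10)))))) (.c (.b (.a (.c (.l 9) (.b (.l 9) .z)) (.c (.b (.a (.l 9) .z) .z) .z)) (.a (.c .z (.b .z (.a .z (.l 10))))
(.c .z (.b .z (.l 10))))) (.b (.a (.b .z (.c .z (.a .z (.l 10)))) (.b (.c .z (.a .z (.l 10))) (.c (.a .z (.l 10)) (.l 10)))) (.a (.b (.c (.a .z (.l
10)) (.l 10)) (.l 10)) (.l 10))))) (.a (.b (.c (.a (.b (.c (.a (.l 9) .z) .z) .z) (.b .z (.c .z (.l 10)))) (.a (.b (.c .z (.a .z (.l 10))) (.c (.a .z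
(.l 10)) (.l 10))) (.l 10))) (.c (.a (.b (.c .z (.a .z (.l 10))) (.c (.a .z (.l 10)) (.l 10))) (.l 10)) (.c (.l 10) (.c (.l 10) (.a .z (.b (.l 10)
.z)))))) (.b (.c (.a (.b (.c (.a .z (.l 10)) (.l 10)) (.l 10)) (.l 10)) (.l 10)) (.l 10)))))) (.a (.b (.c (.a (.c (.b (.l 9) (.a (.l 9) (.c (.l 9) (.b
(.l 9) (.a (.l 9) .z))))) (.b (.a (.l 9) (.b (.l 9) (.c (.l 9) (.a (.l 9) .z)))) (.a (.b (.c (.l 9) (.a (.l 9) .z)) (.c (.a (.l 9) .z) .z)) (.b (.c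
(.a (.l 9) .z) .z) .z)))) (.c (.b (.a (.l 9) (.c (.l 9) (.b (.l 9) .z))) (.a (.c (.b (.l 9) (.a (.l 9) .z)) .z) .z)) (.b (.a (.b (.c (.l 9) .z) .z)
(.b .z (.c .z (.a .z (.l 10))))) (.a (.b (.c .z (.a .z (.l 10))) (.c (.a .z (.l 10)) (.l 10))) (.b (.c (.a .z (.l 10)) (.l 10)) (.l 10)))))) (.a (.b
(.c (.a (.b (.c (.l 9) .z) (.c (.a (.l 9) .z) .z)) (.b (.c (.a (.l 9) .z) .z) .z)) (.a (.b .z (.c .z (.a .z (.l 11)))) (.b (.c .z (.a .z (.l 11))) (.c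
.z (.l 11))))) (.c (.a .z (.b (.c .z (.c (.l 10) .z)) (.c (.l 10) .z))) (.a (.b (.c (.a .z (.l 11)) (.l 11)) (.l 11)) (.c (.c (.b .z (.l 11)) (.l 11))
(.l 11))))) (.b (.c (.a (.b .z (.c (.a .z (.l 10)) (.l 10))) (.b (.c (.a .z (.l 10)) (.l 10)) (.l 10))) (.c (.c (.a (.b (.l 10) .z) (.l 10)) .z) (.c
(.a (.b .z (.l 11)) .z) (.a (.l 11) (.b .z (.l 11)))))) (.c (.c (.l 10) (.c (.l 10) (.a .z (.b (.l 10) .z)))) (.c (.c .z (.a (.b .z (.l 11)) .z)) (.l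
11)))))) (.c (.a (.c (.b (.a (.c (.b (.l 9) (.a (.l 9) .z)) (.b (.a (.l 9) .z) .z)) (.c (.b (.a (.l 9) .z) .z) .z)) (.a (.c .z (.b .z (.l 7))) (.c (.b
.z (.l 7)) (.c (.l 7) (.c (.l 7) .z))))) (.b (.a (.b .z (.c .z (.l 10))) (.b (.c .z (.l 10)) (.l 10))) (.c (.c (.c .z (.b (.l 10) .z)) (.l 10)) (.c
(.b (.l 10) (.a .z (.l 10))) (.b (.a .z (.l 10)) .z))))) (.c (.b (.a (.c .z (.b .z (.c (.l 7) .z))) (.c (.b (.a .z (.l 7)) (.l 7)) (.c (.c (.l 7) .z)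
(.c .z (.l 10))))) (.c (.l 7) (.c (.l 7) (.c (.b .z (.l 7)) .z)))) (.c (.c (.b (.l 10) (.c .z (.b (.l 10) .z))) (.l 10)) (.l 10)))) (.c (.c (.a (.b
(.c (.b (.l 10) .z) .z) (.c .z (.a (.l 11) (.b .z (.l 11))))) (.b (.c (.l 10) (.a (.b (.l 10) .z) (.l 10))) (.c (.a .z (.l 10)) .z))) (.a (.b (.c (.b
.z (.a (.l 11) .z)) (.a (.l 11) (.b .z (.l 11)))) (.l 11)) (.b (.c (.a .z (.b (.l 10) .z)) .z) (.c (.a (.b .z (.l 11)) .z) (.a (.l 11) (.b .z (.l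
11))))))) (.c (.a (.l 11) (.b (.c (.a (.l 11) (.b .z (.l 11))) (.l 11)) (.l 11))) (.l 11))))) (.b (.c (.a (.c (.b (.a (.c (.b (.a (.l 9) .z) .z) .z)
(.c .z (.b .z (.l 10)))) (.a (.c (.b .z (.a .z (.l 7))) (.b .z (.c .z (.l 10)))) (.c (.c (.l 7) (.c (.l 7) .z)) (.c (.c .z (.l 10)) (.l 10))))) (.b
(.a (.b (.c .z (.a .z (.l 10))) (.c (.a .z (.l 10)) (.l 10))) (.l 10)) (.l 10))) (.c (.b (.a (.c (.b .z (.c (.l 7) .z)) (.l 10)) (.c (.c (.c (.l 7)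
.z) (.c .z (.l 10))) (.l 10))) (.c (.c (.l 7) (.c (.b .z (.l 7)) .z)) (.c (.c (.b (.l 10) .z) (.l 10)) (.l 10)))) (.l 10))) (.c (.l 10) (.c (.a (.b
(.c (.l 10) (.a (.b (.l 10) .z) (.l 10))) (.c (.a (.b (.l 10) .z) (.l 10)) (.a .z (.b (.l 10) .z)))) (.l 10)) (.a (.b (.c (.a .z (.b (.l 10) .z)) .z)
(.c .z (.a (.l 11) (.b .z (.l 11))))) (.b (.c (.l 10) (.a (.b (.l 10) .z) (.l 10))) (.c (.a .z (.l 10)) .z)))))) (.c (.c (.c (.c (.l 7) (.b (.c (.l 7)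
(.a (.l 7) (.b .z (.l 7)))) (.l 7))) (.c (.b (.c (.b .z (.a (.l 7) .z)) .z) (.c (.l 7) (.a (.b .z (.l 7)) .z))) (.b (.c (.b (.l 10) (.a .z (.l 10)))
(.l 10)) (.c .z (.b (.a .z (.l 10)) .z))))) (.c (.c (.b (.l 10) (.c (.b (.l 10) (.a .z (.l 10))) (.l 10))) (.l 10)) (.l 10))) (.c (.c (.a (.b (.l 10)
(.c (.l 10) (.a (.b (.l 10) .z) (.l 10)))) (.l 10)) (.a (.b (.c (.l 10) (.a .z (.l 10))) (.c (.a .z (.b (.l 10) .z)) .z)) (.b (.l 10) (.a (.c (.l 10)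
(.b (.l 10) .z)) (.l 10))))) (.a (.c (.b (.c .z (.a (.b .z (.l 11)) .z)) (.a (.c (.b .z (.l 11)) (.l 11)) (.c .z (.b .z (.l 11))))) (.b (.a (.l 11)
(.c (.b .z (.l 11)) (.l 11))) (.l 11))) (.c (.b (.a (.c (.l 10) .z) (.l 10)) (.a .z (.c (.b (.l 10) .z) .z))) (.b (.a (.c .z (.b .z (.l 11))) .z) (.a
(.c (.b .z (.l 11)) (.l 11)) (.c .z (.b .z (.l 11))))))))))))

theorem vQ70 : ev3 Q70 J4_3 J4_7 J4_13 = 173929259845315506790514 := by decide +kernel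

noncomputable def Q115 : QT3 :=
(.b (.c (.a (.c (.b (.c (.a (.c (.l 16) (.c (.a (.l 16) .z) .z)) .z) (.a .z (.a (.c .z (.a .z (.c .z (.l 10)))) (.c (.a .z (.l 10)) (.l 10))))) (.c
(.b (.a (.c (.l 16) (.c (.l 16) .z)) .z) (.a (.c (.l 16) (.a (.l 16) .z)) .z)) (.b (.a .z (.a .z (.c (.b (.l 10) .z) .z))) .z))) (.b (.b (.c (.a .z
(.a (.c (.l 10) .z) (.l 10))) .z) (.c (.a .z (.a (.c (.a .z (.l 10)) .z) (.c (.b (.l 10) .z) .z))) .z)) .z)) (.a (.c (.b (.c (.b (.a (.c .z (.a .z (.l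
10))) (.l 10)) (.a (.c (.a .z (.l 10)) (.l 10)) (.c (.a (.l 10) .z) .z))) (.b (.a (.l 10) (.a (.c (.l 10) .z) .z)) (.a (.c (.b (.l 10) .z) .z) .z)))
(.c (.b .z (.a .z (.c (.a .z (.l 8)) (.l 8)))) (.b (.a .z (.a (.c .z (.l 8)) (.l 8))) (.a (.c (.b .z (.l 8)) (.c (.l 8) .z)) (.l 8))))) (.b (.b (.c
(.a (.c (.b (.l 10) .z) .z) .z) .z) .z) .z)) (.c (.b (.a (.c (.b (.a (.c (.l 10) .z) .z) .z) (.b .z (.a (.c .z (.l 8)) (.l 8)))) (.c (.b (.a .z (.c .z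
(.l 8))) (.l 8)) (.l 8))) (.a (.c (.b (.a (.c .z (.l 8)) (.l 8)) (.l 8)) (.l 8)) (.l 8))) (.b (.a .z (.c (.c (.c (.l 8) (.a .z (.l 8))) .z) .z)) (.c
(.c (.a (.c (.l 8) (.a .z (.l 8))) (.l 8)) (.a .z (.c (.l 8) (.a .z (.l 8))))) .z))))) (.a (.b (.c (.b .z (.c (.a .z (.a (.b .z (.l 24)) (.a (.l 24)
.z))) (.c (.a .z (.a (.l 24) .z)) .z))) (.c (.c (.a (.c .z (.b .z (.a (.l 12) .z))) .z) (.a (.c .z (.l 11)) (.c (.a (.b (.l 11) .z) (.l 11)) (.l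
11)))) (.l 11))) (.c (.c (.c (.a .z (.a (.l 24) .z)) (.a .z (.a (.a .z (.l 24)) .z))) (.c .z (.a .z (.a .z (.c (.a .z (.l 12)) (.l 12)))))) (.c (.c
(.a (.c (.b .z (.l 12)) (.l 12)) (.c (.a (.l 12) (.a (.l 12) .z)) (.a (.b .z (.l 12)) .z))) (.a (.c (.b .z (.a (.l 12) .z)) .z) (.c .z (.a (.b (.l 11)
.z) (.l 11))))) (.c (.a (.c (.b (.l 11) (.a .z (.l 11))) (.l 11)) (.l 11)) (.l 11))))) (.a (.b (.c (.b (.a .z (.c .z (.c .z (.c .z (.l 11))))) (.c .z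
(.c (.a .z (.c (.l 12) .z)) .z))) (.c (.c (.a (.c (.a .z (.l 11)) (.l 11)) (.l 11)) (.l 11)) (.l 11))) (.c (.c (.c (.a (.b .z (.l 22)) .z) (.a .z (.a
.z (.c .z (.l 12))))) (.c (.a (.c .z (.a .z (.l 12))) (.c (.l 12) (.a (.l 12) .z))) (.a (.c (.l 12) .z) .z))) (.c (.c (.a (.c .z (.a .z (.l 11))) (.l
11)) (.l 11)) (.l 11)))) (.c (.c (.c (.a (.b .z (.a .z (.b .z (.l 12)))) .z) (.a (.c (.a (.b .z (.l 12)) (.b .z (.l 12))) (.a (.b .z (.l 12)) .z)) (.a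
.z (.c .z (.a .z (.l 11)))))) (.a (.c (.c .z (.a .z (.b (.l 11) .z))) (.c (.a (.b (.l 11) .z) (.l 11)) (.l 11))) (.c (.a (.c (.b (.l 11) .z) (.l 11))
(.l 11)) (.l 11)))) (.c (.l 11) (.c (.l 11) (.c (.l 11) (.b (.l 11) (.b (.l 11) (.a (.l 11) .z)))))))))) (.c (.a (.c (.b (.c (.b (.a (.c (.b (.l 16)
.z) .z) (.a .z (.c .z (.b .z (.l 8))))) (.a (.c .z (.b (.c .z (.l 8)) (.l 8))) (.a (.c (.b .z (.l 8)) (.l 8)) (.l 8)))) (.b (.a (.c (.b .z (.c .z (.l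
8))) (.b .z (.c (.l 8) .z))) (.a (.c (.b .z (.l 8)) (.c (.l 8) .z)) (.c (.l 8) (.c (.l 8) .z)))) (.c (.l 8) (.c (.l 8) (.a .z (.a .z (.l 8))))))) (.l
8)) (.c (.c (.b .z (.a (.c (.b .z (.b .z (.l 8))) .z) (.c (.a (.b .z (.l 8)) (.l 8)) .z))) (.b (.a .z (.c .z (.a .z (.l 22)))) .z)) (.a (.c (.a (.b .z
(.l 44)) .z) (.b (.a (.l 44) .z) (.a (.l 44) .z))) (.a .z (.a (.b (.c (.l 22) .z) (.l 22)) (.l 22)))))) (.a (.c (.b (.c (.b (.a (.c (.b .z (.l 8)) (.l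
8)) (.l 8)) (.l 8)) (.l 8)) (.l 8)) (.c (.c (.b (.a (.c (.b .z (.l 8)) .z) (.c (.l 8) (.b .z (.l 8)))) (.l 8)) (.b .z (.a .z (.c (.l 8) (.b .z (.l
8)))))) (.c .z (.b (.a (.l 22) .z) (.a (.c (.l 22) .z) .z))))) (.c (.l 8) (.c (.c (.l 8) (.a (.b (.c (.l 8) .z) (.l 8)) (.l 8))) (.c (.a (.b .z (.c
(.a .z (.l 8)) .z)) (.b (.a .z (.c (.l 8) .z)) (.l 8))) (.a (.b (.c .z (.a .z (.l 12))) .z) (.b .z (.a .z (.b .z (.l 8)))))))))) (.c (.a (.c (.c (.a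
(.b (.a (.l 44) .z) (.a (.l 44) .z)) .z) (.a (.b (.a (.l 44) .z) (.a (.l 44) .z)) .z)) (.c (.a .z (.a (.b .z (.c .z (.b .z (.l 12)))) (.b (.c .z (.a
.z (.l 12))) (.c (.a .z (.l 12)) (.l 12))))) (.a (.b (.c .z (.b .z (.l 12))) (.c (.b .z (.l 12)) (.l 12))) (.a (.b (.c (.b .z (.l 12)) (.l 12)) (.l
12)) (.l 12))))) (.c (.a (.a (.c .z (.b .z (.c (.a .z (.l 12)) (.l 12)))) (.c (.b .z (.a (.c .z (.l 12)) (.l 12))) (.b (.a (.c .z (.l 12)) (.l 12))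
(.l 12)))) (.a (.b (.l 12) (.c (.b (.l 12) (.a (.l 12) .z)) (.l 12))) (.c (.a (.b (.l 12) .z) .z) (.a (.c (.l 12) .z) .z)))) (.a (.c (.l 12) (.a (.c
(.l 12) (.b (.a (.l 12) .z) (.l 12))) (.c (.a (.l 12) .z) .z))) (.a (.c (.a (.c (.l 12) .z) .z) (.a (.c .z (.b (.l 11) .z)) (.c (.b (.l 11) .z) (.l
11)))) (.c (.a (.c .z (.b (.l 11) .z)) (.c (.a .z (.l 11)) (.l 11))) (.l 11)))))) (.a (.c (.c (.a (.l 12) (.a (.l 12) (.c (.l 12) (.b (.a (.l 12) .z)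
(.l 12))))) (.a (.b (.c (.l 12) (.b .z (.a (.l 12) .z))) (.l 12)) (.b (.a (.c (.b .z (.l 12)) .z) .z) (.a (.c (.l 12) (.b .z (.l 12))) (.c (.a (.l 12)
.z) .z))))) (.c (.a (.b (.c .z (.b (.l 11) .z)) (.c (.b (.a (.l 12) .z) (.l 12)) .z)) (.b (.a (.c (.b (.l 11) .z) (.l 11)) (.l 11)) (.a .z (.c .z (.l
11))))) (.a (.b (.l 11) (.c (.b (.l 11) .z) .z)) (.c (.l 11) (.b (.b (.l 11) (.b (.l 11) .z)) .z))))) (.a (.c (.c (.a (.c (.b .z (.a (.l 12) .z)) .z)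
(.c (.a .z (.b (.l 11) .z)) (.a (.b (.l 11) .z) (.l 11)))) (.a (.b (.c (.a .z (.l 11)) (.l 11)) (.c .z (.a .z (.l 11)))) (.l 11))) (.c (.l 11) (.c (.b
(.l 11) (.b (.l 11) .z)) (.b (.b (.l 11) .z) .z)))) (.c (.l 11) (.c (.l 11) (.c (.b (.l 11) .z) .z))))))))

theorem vQ115 : ev3 Q115 J3_0 J5_17 J4_13 = 119698250094015434563144 := by decide +kernel

noncomputable def Q125 : QT3 :=
(.a (.b (.c (.a (.c (.b (.c (.c (.a .z (.a .z (.c (.l 30) .z))) .z) .z) (.c .z (.a (.b .z (.c (.a (.c (.l 17) .z) .z) .z)) .z))) (.b (.a (.c (.b .z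
(.c .z (.a (.l 19) (.b .z (.l 19))))) .z) .z) (.a (.c (.c (.a (.c .z (.l 19)) .z) (.c (.l 19) (.c (.l 19) (.b (.l 19) .z)))) .z) .z))) (.c (.b (.c (.c
(.a .z (.a .z (.c .z (.a .z (.l 16))))) (.b (.a .z (.a (.c .z (.l 16)) (.l 16))) .z)) (.c (.b (.a (.c (.a .z (.l 16)) .z) .z) .z) (.b (.a .z (.c (.b
.z (.l 21)) (.c (.l 21) .z))) (.a (.c .z (.c (.l 21) .z)) (.c (.l 21) .z))))) (.a (.c .z (.b .z (.a (.c (.l 18) .z) (.c (.c (.l 18) .z) .z)))) (.c (.c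
.z (.b .z (.c .z (.l 18)))) (.c (.b .z (.c (.a (.l 18) .z) .z)) (.c (.c (.l 21) (.b (.l 21) .z)) .z))))) (.b (.a .z (.c (.c (.c .z (.a .z (.c .z (.l
26)))) (.b (.c (.l 26) .z) .z)) .z)) .z))) (.a (.b (.a (.c (.c (.c (.a .z (.c .z (.l 29))) .z) .z) .z) (.c (.b (.c (.a (.c (.l 29) .z) .z) .z) (.c (.c
(.l 29) .z) .z)) .z)) (.c (.c (.a .z (.c (.c (.c .z (.l 29)) (.c (.l 29) .z)) .z)) .z) .z)) .z)) (.a (.b (.c (.c (.c (.a (.b (.c .z (.a (.c .z (.l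
17)) .z)) .z) .z) (.a (.c (.a .z (.c .z (.a .z (.l 15)))) .z) (.b (.c (.a (.b .z (.l 15)) .z) .z) (.a (.c (.l 15) .z) (.c (.b .z (.l 15)) .z))))) (.c
(.a (.c (.a (.c .z (.l 19)) (.c .z (.a (.l 19) .z))) (.c (.l 19) .z)) .z) .z)) .z) (.c (.c (.c (.a .z (.b (.c (.a .z (.b .z (.c .z (.l 13)))) (.a (.c
(.a .z (.l 13)) .z) (.b .z (.c (.l 13) .z)))) (.c (.a (.c .z (.a .z (.l 13))) (.l 13)) (.c (.l 13) .z)))) (.a (.c (.a .z (.c (.l 15) .z)) .z) (.c (.c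
(.l 15) (.c (.b (.l 15) .z) .z)) .z))) (.c (.a (.c (.a (.c (.c (.l 17) .z) (.l 19)) (.c .z (.a (.l 19) .z))) .z) .z) .z)) .z)) (.b (.c (.c (.a (.c (.b
(.c .z (.c (.b .z (.l 18)) (.l 18))) (.c .z (.a .z (.l 18)))) (.b (.a .z (.c (.c (.l 18) .z) .z)) .z)) (.c (.c .z (.c (.b (.a (.l 18) .z) .z) (.l
18))) .z)) .z) .z) (.c (.c (.a (.c (.b .z (.a (.c (.b .z (.a (.l 13) .z)) (.c (.l 13) (.c (.l 13) .z))) .z)) (.a (.b .z (.c (.c (.l 15) .z) .z)) .z))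
(.b (.c (.c .z (.c .z (.a (.l 18) .z))) .z) .z)) .z) .z)))) (.b (.a (.b (.c (.c (.c (.c (.b (.a (.c (.a (.l 16) .z) (.l 16)) .z) (.a (.c (.l 16) (.b
(.l 16) .z)) .z)) (.b (.a (.c (.b (.l 16) .z) .z) .z) (.a .z (.c .z (.a .z (.l 17)))))) (.c (.a (.b .z (.c .z (.l 21))) (.b (.c (.a .z (.l 17)) .z)
.z)) (.a (.c (.l 21) (.c (.b (.l 21) .z) .z)) (.c (.b .z (.l 21)) .z)))) (.a (.c (.c (.c (.c .z (.a (.l 26) .z)) (.b (.l 26) (.c (.l 26) .z))) (.c (.b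
(.c (.l 26) .z) .z) .z)) .z) .z)) .z) (.c (.c (.c (.c (.b .z (.a .z (.c .z (.a .z (.l 17))))) (.b (.a .z (.c (.a .z (.l 17)) .z)) .z)) (.c (.a (.c (.a
(.c .z (.l 21)) .z) (.l 21)) (.c .z (.c (.a (.l 21) .z) (.l 21)))) (.c (.c (.b (.l 21) .z) .z) .z))) .z) .z)) (.b (.c (.a (.c (.c (.c .z (.b (.c .z
(.l 17)) (.l 17))) (.c (.c (.b (.l 17) (.a .z (.l 17))) (.b (.a .z (.l 17)) .z)) .z)) (.c .z (.a .z (.c (.c (.c .z (.l 25)) .z) .z)))) (.c (.c (.c (.b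
(.c .z (.a .z (.l 17))) (.c (.a .z (.l 17)) (.l 17))) (.a (.l 17) (.c (.l 17) (.a (.l 17) .z)))) (.c (.a (.c (.l 17) (.a (.l 17) .z)) .z) .z)) .z))
.z) (.c (.a (.c (.b (.c (.c (.c (.a .z (.l 17)) (.l 17)) (.l 17)) .z) (.c (.c (.l 17) (.c (.l 17) .z)) .z)) .z) (.c (.b (.a (.c (.l 17) .z) (.c (.b
(.c (.l 17) .z) (.c (.l 17) .z)) .z)) (.a (.c (.b (.l 17) (.c (.l 17) .z)) .z) .z)) (.b .z (.a .z (.c (.b .z (.c (.l 18) .z)) .z))))) .z))) (.a (.b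
(.c (.a (.c (.c .z (.c (.c .z (.c (.l 21) .z)) .z)) .z) (.c (.b (.c (.c .z (.c .z (.a (.l 19) .z))) (.c (.c (.c (.l 19) .z) .z) .z)) (.c (.a (.c .z
(.c .z (.l 19))) .z) .z)) .z)) .z) (.c (.a .z (.c (.b (.c (.a .z (.b .z (.c .z (.a .z (.l 13))))) .z) (.c (.a (.b .z (.c .z (.c .z (.l 13)))) (.b (.c
.z (.l 13)) (.c .z (.c .z (.l 13))))) (.a .z (.c .z (.c .z (.l 19)))))) (.b .z (.c (.b (.c (.c (.l 19) .z) .z) .z) .z)))) .z)) (.b (.c (.a (.c (.b (.c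
(.a (.c (.c .z (.l 17)) .z) (.b (.c (.l 17) .z) .z)) .z) (.c (.a .z (.b .z (.c (.a .z (.l 13)) (.l 13)))) (.a .z (.b .z (.c (.c (.l 13) .z) .z)))))
(.b (.a .z (.c .z (.c (.c (.l 23) .z) .z))) (.a (.c .z (.c (.c (.l 23) .z) .z)) .z))) (.c (.b (.a (.c (.b .z (.c .z (.a .z (.l 13)))) (.b .z (.c (.c
(.l 13) .z) .z))) (.c (.b (.c .z (.a .z (.l 13))) (.l 13)) (.c (.c (.l 13) .z) .z))) (.a (.c (.b (.c (.a .z (.l 13)) (.l 13)) (.l 13)) (.c (.c (.c (.l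
13) .z) .z) .z)) (.c (.l 13) (.c (.c (.c (.l 13) .z) .z) .z)))) (.c (.c (.b (.c (.a .z (.l 18)) (.b (.l 18) .z)) .z) (.b .z (.c .z (.c .z (.l 23)))))
(.c (.c (.c (.l 23) (.b (.l 23) .z)) .z) .z)))) .z) (.c (.a (.c (.b (.c (.a (.b (.c .z (.a .z (.l 13))) (.c .z (.l 13))) (.c (.c .z (.l 13)) (.l 13)))
(.c (.c (.c (.l 13) .z) .z) .z)) (.c (.c (.c .z (.a .z (.c .z (.l 13)))) (.l 13)) (.c .z (.c .z (.b .z (.l 19)))))) (.b (.c (.c (.c (.b .z (.l 19))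
(.c (.l 19) .z)) .z) .z) (.c (.b (.c (.c (.l 19) .z) .z) (.c (.c (.l 19) .z) .z)) .z))) (.c (.c (.c (.c (.a (.c .z (.b (.l 13) .z)) (.l 13)) (.l 13))
(.c (.l 13) (.b (.l 13) (.c (.l 13) (.b (.l 13) .z))))) (.c (.c (.c (.b (.b (.l 13) .z) .z) .z) .z) .z)) (.b .z (.c (.c (.c (.l 19) .z) .z) .z))))
.z)))))

theorem vQ125 : ev3 Q125 J3_1 J4_9 J3_7 = 57931711816455980823828 := by decide +kernel

noncomputable def Q100 : QT3 :=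
(.a (.c (.a (.b (.b (.b (.b (.a (.b .z (.l 24)) .z) (.a (.l 24) (.b (.a (.l 24) .z) (.l 24)))) (.l 24)) (.l 24)) (.l 24)) (.b (.b (.b (.a (.b (.l 51)
.z) (.l 51)) (.a (.b (.a (.l 24) .z) (.l 24)) (.a .z (.b (.l 51) .z)))) (.b (.a (.l 24) (.a (.l 24) (.b .z (.l 24)))) (.l 24))) (.a (.l 24) (.c (.a
(.b (.l 24) (.c (.a (.l 24) .z) (.l 24))) (.b (.c .z (.a (.l 24) .z)) .z)) (.b (.l 24) (.a (.l 24) (.c (.a (.l 24) .z) (.l 24)))))))) (.b (.b (.a (.b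
(.b (.a (.b .z (.l 24)) .z) (.a (.l 24) (.b (.a (.l 24) .z) (.l 24)))) (.l 24)) (.b (.a (.b (.l 51) .z) (.l 51)) (.a (.b (.a (.l 24) (.b .z (.l 24)))
(.l 24)) (.b (.a .z (.l 51)) (.a (.b .z (.l 24)) .z))))) (.a (.l 24) (.b (.a (.l 24) (.a (.l 24) (.b (.a (.l 24) .z) (.l 24)))) (.l 24)))) (.a (.l 24)
(.a (.l 24) (.b (.l 24) (.c (.l 24) (.a (.b (.l 24) (.c (.l 24) .z)) (.b (.c (.l 24) .z) .z)))))))) (.a (.c (.a (.b (.c (.a (.b (.c .z (.l 51)) .z)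
.z) (.a (.b (.l 51) (.b .z (.l 24))) (.b (.l 51) .z))) (.c (.a (.b .z (.c (.l 17) .z)) (.b (.c (.l 17) (.a .z (.l 17))) (.l 17))) (.a (.b (.c (.a (.l
24) .z) (.l 24)) .z) (.b .z (.a .z (.c (.l 17) .z)))))) (.b .z (.a (.c (.l 17) (.b (.a (.c (.l 17) .z) (.b .z (.l 17))) (.l 17))) (.b (.b (.b .z (.l
17)) (.l 17)) (.l 17))))) (.b (.a (.b (.l 51) (.b (.a .z (.b (.l 51) .z)) (.a (.l 24) (.b .z (.a (.l 24) .z))))) (.c (.a (.b (.l 51) .z) .z) (.b (.l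
51) (.a (.b (.l 51) .z) .z)))) (.a (.b (.c (.a (.l 24) (.c (.a (.l 24) .z) .z)) (.a (.b (.l 24) .z) .z)) (.a (.c (.b (.c (.l 24) .z) .z) .z) .z)) (.a
(.b .z (.c (.a (.b .z (.l 17)) (.l 17)) .z)) (.b (.c (.a (.b .z (.l 17)) (.b .z (.l 17))) .z) (.c (.l 17) (.a (.b .z (.l 17)) (.l 17)))))))) (.a (.b
.z (.c (.b (.b (.b .z (.c (.a (.l 17) .z) .z)) (.b (.c (.l 17) (.a (.l 17) .z)) (.l 17))) (.l 17)) (.a (.b (.c (.b .z (.b .z (.l 17))) .z) (.l 17))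
(.b (.b .z (.b .z (.c (.l 17) .z))) (.l 17))))) (.b (.c .z (.a (.b .z (.c .z (.l 58))) (.c (.b .z (.l 58)) (.l 58)))) (.b (.b (.c .z (.l 58)) (.c (.b
.z (.a (.l 17) .z)) .z)) (.b (.c (.l 17) (.b (.a (.c (.l 17) .z) .z) (.l 17))) (.l 17)))))))

theorem vQ100 : ev3 Q100 J3_0 J4_8 J5_22 = 159019832881606271144470 := by decide +kernel

noncomputable def Q164 : QT3 :=
(.b (.c (.c (.b (.c (.a (.b (.c (.b (.c (.a (.b .z (.l 13)) .z) (.l 13)) (.l 13)) (.l 13)) (.l 13)) (.b (.c (.a (.b .z (.c .z (.l 13))) (.b (.c (.a .z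
(.l 12)) .z) .z)) (.a (.l 13) (.b (.c .z (.l 13)) (.l 13)))) (.c (.a (.l 13) (.b (.c .z (.l 13)) (.l 13))) (.c (.l 13) (.c (.l 13) (.a (.l 13)
.z)))))) (.a (.c (.c (.c (.l 13) (.b (.a (.l 13) (.b (.l 13) .z)) (.a (.b (.l 13) .z) .z))) (.c (.b (.a (.b (.l 13) .z) .z) .z) .z)) (.a (.c .z (.a
(.l 19) (.c .z (.l 19)))) .z)) (.c (.a (.c (.c (.b (.l 13) .z) .z) .z) .z) (.a .z (.c (.a .z (.c .z (.l 17))) (.a (.c .z (.l 17)) (.l 17))))))) (.c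
(.c (.l 13) (.c (.a (.l 13) (.c (.l 13) (.b (.l 13) (.a (.l 13) (.b (.l 13) .z))))) (.a (.c (.l 13) (.b (.l 13) (.a (.l 13) .z))) (.c (.b (.a (.l 13)
.z) .z) .z)))) (.a (.c (.c (.c (.b (.a (.l 13) .z) .z) .z) .z) (.a (.c (.a (.l 19) (.c .z (.l 19))) (.l 19)) (.c .z (.a (.c .z (.l 19)) .z)))) (.c .z
(.a .z (.c .z (.a .z (.c .z (.l 17))))))))) (.c (.a (.c (.b (.a (.c (.b .z (.a (.l 19) .z)) .z) .z) (.a (.c (.l 19) (.b .z (.l 19))) (.c (.a (.b .z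
(.l 19)) .z) .z))) (.b (.a (.c .z (.l 21)) (.c (.c .z (.b .z (.l 21))) (.l 21))) (.a (.c .z (.b (.a .z (.l 21)) .z)) (.c (.b (.a .z (.l 21)) .z) (.b
(.l 21) (.a .z (.l 21))))))) (.c (.a (.b (.c (.a (.b (.l 17) .z) (.l 17)) .z) (.c .z (.a .z (.c .z (.l 21))))) (.c (.b (.c (.l 17) (.b (.l 17) .z))
(.c (.b (.l 17) .z) .z)) (.b .z (.c (.b .z (.l 21)) (.l 21))))) (.c (.b (.c (.a (.b .z (.l 21)) (.l 21)) (.l 21)) (.l 21)) (.b (.l 21) (.c (.b (.l 21)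
(.a (.l 21) .z)) (.b (.a (.l 21) .z) .z)))))) (.a (.b (.c (.c (.c (.l 21) (.b (.a (.l 21) .z) .z)) .z) (.b (.c (.a (.l 27) .z) .z) .z)) (.c (.a (.b
(.c (.c (.l 21) .z) .z) .z) .z) .z)) (.c (.b (.c (.c (.a (.b (.l 21) .z) .z) .z) .z) .z) .z)))) (.c (.c .z (.a .z (.c (.a .z (.b .z (.c (.c (.l 43)
.z) .z))) .z))) .z)) (.c (.c (.c (.c (.b (.c (.l 13) (.a (.l 13) (.b (.l 13) (.c (.l 13) (.a (.l 13) (.b (.l 13) .z)))))) (.c (.a (.l 13) (.b (.l 13)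
(.c (.l 13) (.a (.l 13) .z)))) (.a (.b (.l 13) (.c (.l 13) (.a (.l 13) .z))) (.b (.c (.a (.l 13) .z) .z) .z)))) (.b (.c (.a (.b (.l 13) (.c (.l 13)
(.a (.l 13) .z))) (.b (.c (.a (.l 13) (.b (.l 13) .z)) .z) .z)) (.a (.c (.b (.a (.l 13) .z) .z) .z) .z)) (.c (.a (.b (.c (.a (.l 13) .z) .z) .z) .z)
.z))) (.a (.c (.c (.b .z (.a (.a (.l 19) .z) .z)) (.a (.b (.a (.l 19) .z) (.l 19)) (.b .z (.a (.c .z (.l 19)) .z)))) (.b (.a (.l 19) (.c (.a (.c .z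
(.l 19)) .z) (.l 19))) (.a (.b (.l 19) (.c (.l 19) (.a (.l 19) .z))) (.b (.c (.a (.l 19) .z) (.a (.l 19) .z)) (.c (.a (.l 19) .z) .z))))) (.c .z (.a
(.b .z (.b .z (.c .z (.a .z (.l 20))))) (.c (.a (.b .z (.b .z (.l 20))) (.b .z (.l 20))) (.b .z (.a (.l 20) .z))))))) (.a (.c (.c (.a (.b (.l 19) (.b
(.c (.l 19) .z) .z)) (.b (.c (.b (.l 19) (.a (.l 19) .z)) (.a (.b (.l 19) .z) .z)) .z)) (.b (.a (.c (.a (.b .z (.l 19)) (.b (.l 19) .z)) .z) .z) .z))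
.z) (.c (.a (.c (.b .z (.a (.b (.c .z (.l 20)) (.c (.l 20) .z)) (.c (.l 20) .z))) (.b (.c (.a .z (.b (.l 21) .z)) .z) .z)) (.c (.b (.c .z (.a (.b (.l
21) .z) (.l 21))) (.a .z (.c .z (.b (.l 21) .z)))) (.b (.c (.c (.l 21) (.b (.l 21) .z)) .z) .z))) (.a .z (.b (.c (.c (.b (.l 47) .z) .z) .z) (.c (.b
(.c .z (.l 27)) .z) .z)))))) .z))

theorem vQ164 : ev3 Q164 J4_5 J4_9 J3_7 = 80822903988804415632493 := by decide +kernel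

noncomputable def Q95 : QT3 :=
(.b (.a (.c (.c (.c (.b .z (.c .z (.b (.c (.b .z (.c .z (.l 17))) (.b (.c .z (.l 17)) (.l 17))) (.c (.l 17) (.c (.l 17) (.a .z (.l 17))))))) (.b (.c
(.b .z (.c .z (.c .z (.l 21)))) (.b .z (.c (.b .z (.l 21)) .z))) (.c (.c (.c (.a .z (.b (.l 17) .z)) .z) (.a (.l 21) (.c (.b .z (.l 21)) (.l 21))))
(.b (.c (.l 21) (.b (.a .z (.l 21)) (.l 21))) (.l 21))))) (.a (.c (.b (.c (.b .z (.c .z (.l 20))) (.c (.l 20) .z)) (.c (.b .z (.c (.c (.l 21) .z) .z))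
(.b (.b (.c (.l 20) .z) .z) .z))) .z) (.b (.c (.c .z (.b (.c (.a (.l 20) .z) (.c (.l 20) .z)) (.c (.l 20) (.c (.l 20) .z)))) (.c (.c (.c .z (.a .z (.l
23))) .z) .z)) (.c (.c (.b (.c (.b .z (.l 21)) .z) .z) (.b (.c (.b (.l 20) .z) .z) .z)) .z)))) .z) (.b (.c (.c (.c (.c (.a .z (.a (.a .z (.l 43)) .z))
.z) (.c (.b .z (.c (.b .z (.c .z (.l 17))) (.c (.a .z (.l 17)) .z))) (.b (.c (.a .z (.c .z (.l 21))) .z) (.c (.a (.l 21) (.c .z (.l 21))) (.a (.b .z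
(.l 21)) (.l 21)))))) (.c (.c .z (.b (.a (.c .z (.a (.l 20) .z)) .z) (.a (.c (.a (.l 20) .z) (.c (.l 20) .z)) .z))) (.a (.c (.c (.c .z (.l 23)) (.c
(.l 23) (.a .z (.l 23)))) .z) (.c (.c .z (.l 23)) (.c (.a (.c (.l 23) .z) .z) .z))))) .z) (.a (.c (.c (.c (.c .z (.b (.c .z (.b .z (.l 17))) (.c (.b
.z (.l 17)) (.l 17)))) (.c (.c (.c (.l 17) (.a .z (.l 17))) (.c .z (.a (.l 21) .z))) (.c (.l 21) (.b (.l 21) (.c (.l 21) .z))))) (.c .z (.b (.c (.c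
(.c .z (.l 23)) .z) .z) .z))) .z) (.c (.c (.c (.c .z (.b .z (.c .z (.l 17)))) (.c (.c (.l 17) (.c (.a .z (.l 17)) .z)) (.c (.c (.a (.l 21) .z) (.b (.l
21) .z)) (.b (.c (.l 21) .z) .z)))) (.b (.c .z (.c (.c .z (.l 23)) .z)) .z)) .z)))) (.a (.b (.c (.c (.c (.c (.b (.c .z (.a .z (.l 17))) (.c .z (.a .z
(.l 17)))) (.a (.c (.a .z (.l 17)) .z) (.c (.l 17) (.c (.l 17) .z)))) (.c (.c (.a (.c .z (.b (.l 21) .z)) (.c .z (.a (.l 21) .z))) (.l 21)) (.c (.b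
(.l 21) (.a (.c (.l 21) .z) .z)) (.b (.a (.c (.l 21) .z) .z) .z)))) (.a .z (.c (.c (.c (.b .z (.c (.l 25) .z)) .z) .z) .z))) .z) (.a (.c (.c (.c (.c
(.c (.a (.l 34) .z) .z) .z) (.c (.b (.c .z (.b (.l 21) .z)) .z) .z)) (.c (.c (.c (.a .z (.c (.l 25) .z)) .z) .z) .z)) .z) (.c (.c (.c (.c (.c .z (.a
.z (.l 17))) (.c (.c (.l 17) (.b (.l 17) .z)) .z)) .z) .z) .z))) (.b (.a (.c (.c (.c (.c (.b (.c .z (.b .z (.l 17))) (.c (.b .z (.l 17)) (.l 17))) (.l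
17)) (.c (.c (.c (.a .z (.l 17)) .z) (.c .z (.b (.l 21) .z))) (.c (.b (.c (.l 21) .z) .z) .z))) .z) .z) (.c (.c (.b (.a (.c (.c .z (.l 17)) (.c (.c
(.l 17) .z) .z)) (.c (.c .z (.l 17)) .z)) (.a (.c (.c (.c .z (.l 17)) (.l 17)) .z) (.c (.b (.c .z (.l 17)) .z) .z))) .z) .z)) (.a (.c (.c (.b (.a (.c
(.c (.l 17) (.c (.l 17) .z)) .z) (.c (.l 17) .z)) (.a (.c (.c (.l 17) (.c (.l 17) .z)) .z) (.c (.b (.a (.l 17) .z) .z) .z))) .z) .z) (.c (.c (.b (.a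
(.c (.b (.l 17) .z) .z) .z) (.a .z (.c .z (.c (.c .z (.l 15)) .z)))) (.b (.a .z (.c .z (.c (.c .z (.l 25)) .z))) .z)) .z)))))

theorem vQ95 : ev3 Q95 J4_5 J4_7 J3_7 = 43630052197617762762401 := by decide +kernel

noncomputable def Q200 : QT3 :=
(.b .z (.c (.a (.b (.c (.a (.b .z (.c (.b (.c (.b .z (.b .z (.l 29))) (.a (.c (.b .z (.b .z (.l 29))) .z) .z)) (.c (.a (.b (.l 29) (.b (.a (.l 29) .z)
.z)) (.b (.a (.b (.l 29) .z) .z) .z)) (.a (.b (.c (.c (.l 29) .z) .z) .z) .z))) (.b (.a (.c (.b .z (.c (.c .z (.b .z (.l 17))) (.a (.b .z (.l 17))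
.z))) .z) .z) (.c (.a (.b (.c (.a (.l 17) .z) .z) .z) .z) .z)))) .z) (.a (.b .z (.c (.b .z (.c (.c (.a (.b (.c (.l 29) .z) .z) .z) .z) (.c .z (.c .z
(.b (.c .z (.a .z (.l 26))) (.a .z (.c .z (.l 26)))))))) (.c (.c (.c (.b (.c (.b .z (.b .z (.l 26))) (.b .z (.b .z (.l 26)))) (.l 26)) (.b (.b .z (.b
.z (.l 26))) (.l 26))) (.c (.b (.b .z (.b .z (.l 26))) (.l 26)) (.c (.a (.b .z (.a (.l 26) .z)) .z) .z))) (.c (.a (.c (.b .z (.l 41)) (.b .z (.l 41)))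
(.b .z (.c (.l 41) (.a (.l 41) .z)))) (.a (.c (.b .z (.b (.l 41) .z)) .z) .z))))) (.b .z (.c (.a (.b .z (.c .z (.c .z (.c .z (.c .z (.a (.l 26)
.z)))))) .z) (.a (.b (.c (.a (.b .z (.c (.b .z (.l 26)) .z)) .z) .z) (.c (.c (.a (.l 26) (.a (.a (.l 26) .z) .z)) (.c (.c (.a (.l 26) .z) .z) .z))
.z)) .z))))) (.c .z (.a (.b (.c (.c .z (.c .z (.b (.c .z (.a .z (.c .z (.l 26)))) (.a .z (.c .z (.a .z (.b (.l 26) .z))))))) (.a (.c (.c (.c (.c (.a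
.z (.b (.l 26) .z)) (.b (.l 26) (.b (.l 26) .z))) (.b (.l 26) (.b (.l 26) .z))) (.c (.b (.l 26) (.b (.l 26) .z)) (.c (.a (.b (.l 26) .z) .z) .z))) (.c
(.a (.b (.c (.l 41) .z) .z) (.b (.c (.l 41) .z) .z)) .z)) (.b (.c (.c (.l 26) (.c (.c (.l 26) (.a (.l 26) .z)) .z)) .z) (.a (.c (.c (.b (.l 26) .z)
.z) .z) (.c (.b (.c (.b (.l 26) .z) .z) .z) .z))))) .z) (.b (.c (.a (.b (.c .z (.c .z (.c .z (.a (.l 26) .z)))) (.c .z (.a (.b (.c .z (.c .z (.l 26)))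
.z) .z))) .z) (.a (.b (.a (.c (.c (.l 26) .z) .z) .z) .z) .z)) .z)))) .z) (.a (.b .z (.a (.b .z (.a (.c (.b (.c .z (.a (.b .z (.c .z (.c (.c (.l 21)
.z) .z))) .z)) (.c .z (.c (.b (.c .z (.c (.c .z (.l 21)) (.b (.l 21) .z))) .z) .z))) .z) .z)) (.b .z (.c (.c (.b (.c (.a .z (.b .z (.c .z (.b .z (.l
29))))) .z) (.c (.a .z (.b (.c .z (.l 29)) (.l 29))) (.c (.a (.a .z (.a .z (.l 29))) (.c (.l 29) .z)) .z))) .z) .z)))) (.b .z (.c (.a (.b .z (.c (.a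
(.b .z (.c (.c .z (.c (.l 29) (.a (.l 29) .z))) .z)) .z) .z)) .z) .z)))))

theorem vQ200 : ev3 Q200 J3_5 J2_2 J2_3 = 38385878163504849739701 := by decide +kernel

noncomputable def Q3 : QT3 :=
(.b (.a (.c .z (.b (.a (.b .z (.a (.b .z (.c .z (.c .z (.l 76)))) .z)) .z) .z)) .z) (.a (.c .z (.b (.c .z (.a (.a .z (.b .z (.c .z (.b .z (.l 104)))))
.z)) .z)) (.c .z (.b (.a .z (.c .z (.b (.a .z (.c .z (.b (.a .z (.l 46)) (.l 46)))) (.a (.c (.b .z (.a .z (.l 48))) .z) (.b (.b (.l 46) .z) (.c (.l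
48) .z)))))) (.a (.c .z (.b (.a .z (.c (.b .z (.c (.l 48) .z)) .z)) .z)) (.c .z (.c (.a (.c (.b (.b (.l 48) .z) .z) (.b (.l 48) .z)) (.b (.b (.c .z
(.l 48)) .z) .z)) .z)))))))

theorem vQ3 : ev3 Q3 J3_1 J3_2 J4_6 = 8105960953051231461814 := by decide +kernel

end Pool.Agent.Helper64.SPW.Dat3
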