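import Pool.Agent.Helper64.SPW.Iv3

/-! Boxes of three traces, part 3 (data and kernel evaluation). -/

set_option maxRecDepth 1000000
set_option maxHeartbeats 0

namespace Pool.Agent.Helper64.SPW.Dat3

noncomputable def Q175 : QT3 :=
(.c (.a (.c (.b (.c (.b (.c (.b .z (.c (.b .z (.a (.l 14) .z)) .z)) .z) (.c (.a (.c (.l 14) (.a (.b .z (.l 14)) .z)) (.c (.a (.c (.l 14) .z) .z) .z))
.z)) .z) (.c (.c (.a (.l 14) (.b (.c (.a (.l 14) (.c (.l 14) .z)) (.a (.b .z (.l 14)) .z)) (.a (.l 14) (.c (.l 14) (.b .z (.l 14)))))) (.a (.b (.c (.a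
(.l 14) (.b .z (.l 14))) .z) (.a (.l 14) (.c (.l 14) (.b .z (.l 14))))) (.b .z (.a (.c (.b .z (.l 14)) .z) .z)))) (.b .z (.a (.c (.b .z (.a (.c (.l
14) .z) .z)) .z) .z)))) (.c (.c .z (.c (.a .z (.a .z (.b (.l 89) .z))) (.a (.c .z (.a (.b .z (.a (.l 8) (.b .z (.l 8)))) .z)) .z))) (.c (.a (.c (.c
(.a (.b (.a (.l 8) (.b .z (.l 8))) (.l 8)) (.b .z (.a (.l 8) .z))) (.l 8)) (.l 8)) (.c (.a (.c .z (.a (.b (.a (.l 8) .z) (.l 8)) .z)) (.c .z (.a .z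
(.a .z (.b .z (.l 13)))))) (.a (.a (.c (.l 8) (.b .z (.a (.l 8) .z))) .z) (.c .z (.a (.a .z (.l 19)) (.l 19)))))) (.a (.a (.b (.c (.a (.l 8) (.c (.l
8) (.b .z (.l 8)))) (.a (.b .z (.c (.l 8) .z)) .z)) (.c (.l 8) (.a (.l 8) (.b (.c (.l 8) .z) (.l 8))))) (.c (.b (.a (.c (.b .z (.l 8)) .z) .z) (.a (.l
8) (.c (.l 8) .z))) (.b .z (.a (.b .z (.c (.l 8) .z)) .z)))) (.a .z (.a (.a (.c .z (.b (.l 19) .z)) (.l 19)) (.l 19))))))) (.b (.c .z (.c (.a (.c .z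
(.a .z (.c .z (.b (.l 17) (.b (.b .z (.l 13)) (.l 13)))))) (.c (.a (.c .z (.b .z (.a .z (.b .z (.l 13))))) (.c (.b .z (.a .z (.b .z (.l 13)))) (.b (.l
17) (.b .z (.l 13))))) (.b (.b (.l 17) (.b (.l 17) (.b (.l 17) .z))) (.b (.b .z (.b (.c .z (.l 13)) (.l 13))) (.l 13))))) (.c (.a (.c (.b (.b (.l 17)
(.b (.l 17) .z)) (.b (.b .z (.l 13)) (.l 13))) (.a .z (.c (.b .z (.b .z (.l 13))) .z))) (.c (.b (.b (.l 17) (.b (.l 17) .z)) (.b (.b (.b .z (.l 13))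
(.l 13)) (.l 13))) (.a (.c (.b .z (.l 13)) (.a (.b .z (.l 13)) (.b .z (.l 13)))) (.b (.b (.l 17) .z) (.l 13))))) (.a (.c (.a (.l 19) (.c .z (.l 19)))
(.l 19)) (.c (.a .z (.c (.b .z (.l 13)) (.b .z (.a .z (.l 13))))) (.a (.c (.b (.l 19) .z) (.l 19)) (.c .z (.b (.l 19) .z)))))))) (.c (.c (.c (.a (.c
(.a (.b .z (.a (.l 14) .z)) .z) .z) .z) .z) (.a .z (.c (.a .z (.b .z (.c .z (.a .z (.b .z (.l 13)))))) (.a (.c .z (.b .z (.a .z (.c .z (.l 13))))) (.b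
(.c .z (.a (.c .z (.l 13)) (.l 13))) (.c (.a (.b .z (.l 13)) (.l 13)) (.l 13))))))) (.a (.c (.c (.a .z (.c .z (.a .z (.b (.c .z (.l 13)) (.l 13)))))
(.a (.c .z (.a (.c .z (.a .z (.l 13))) (.l 13))) (.c (.a (.c (.b .z (.l 13)) (.l 13)) (.l 13)) (.l 13)))) (.c (.c (.l 13) (.a (.c (.a .z (.l 13)) .z)
(.c (.l 13) (.a (.b .z (.l 13)) (.l 13))))) (.c (.a (.c (.a (.l 19) .z) (.l 19)) .z) (.a (.l 19) (.c (.a (.l 19) .z) (.l 19)))))) (.b (.c (.c (.a (.c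
(.a .z (.c .z (.l 13))) (.l 13)) (.l 13)) (.l 13)) (.c (.l 13) (.c (.a (.c (.a .z (.l 13)) .z) (.l 13)) (.a .z (.c (.a .z (.l 13)) .z))))) (.c (.c (.a
(.c (.a (.c .z (.l 13)) (.l 13)) (.l 13)) (.l 13)) (.l 13)) (.a (.c (.l 13) (.c (.c (.l 13) (.a .z (.l 13))) .z)) (.b (.c (.l 13) (.c (.l 13) (.c (.l
13) .z))) (.c (.a (.l 13) (.b (.l 13) .z)) .z))))))))) (.a (.b (.c (.c (.a .z (.a (.a .z (.a .z (.c .z (.l 19)))) (.l 19))) (.c (.b (.a .z (.a (.a .z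
(.l 19)) (.l 19))) (.c (.a .z (.b (.a .z (.l 19)) .z)) .z)) (.b (.c .z (.a .z (.b .z (.c .z (.a .z (.l 12)))))) (.c (.a .z (.b .z (.c .z (.l 12))))
(.a (.b (.c .z (.a .z (.l 12))) (.c (.a .z (.l 12)) (.l 12))) (.b (.c (.a .z (.l 12)) (.l 12)) (.l 12))))))) (.c (.b (.c (.c (.a (.b .z (.c .z (.l
12))) (.b (.c (.a .z (.l 12)) (.l 12)) (.l 12))) (.a (.b (.c (.a .z (.l 12)) (.l 12)) (.l 12)) (.l 12))) (.l 12)) (.c (.l 12) (.b (.l 12) (.a (.c (.b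
(.l 12) (.a .z (.l 12))) (.b (.a .z (.l 12)) .z)) (.l 12))))) (.b (.c (.l 12) (.b (.l 12) (.a (.c (.b (.l 12) (.a .z (.l 12))) (.b (.a .z (.l 12))
.z)) (.l 12)))) (.c (.b (.a (.c (.b (.l 12) (.a .z (.l 12))) (.b (.a .z (.l 12)) .z)) (.l 12)) (.a .z (.c (.b (.l 12) (.a .z (.l 12))) (.b (.a .z (.l
12)) .z)))) (.b (.a (.b .z (.c .z (.a (.l 13) .z))) (.c (.b (.l 12) (.a .z (.l 12))) (.b (.a .z (.l 12)) .z))) (.a (.b (.c .z (.l 13)) (.c .z (.l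
13))) (.c .z (.a (.b .z (.l 13)) .z)))))))) (.c (.c (.b (.a (.c (.a (.c (.a (.c (.l 8) .z) .z) .z) .z) (.a (.c .z (.l 21)) .z)) (.c (.a .z (.l 19))
(.c (.a .z (.l 19)) (.b (.a .z (.l 19)) .z)))) (.c (.a (.a (.c (.a (.l 8) (.c (.l 8) .z)) .z) .z) (.c (.a .z (.l 19)) (.b (.a .z (.l 19)) .z))) (.b .z
(.a .z (.c .z (.c (.b .z (.l 12)) (.l 12))))))) (.b (.c (.c .z (.a (.b .z (.c .z (.b .z (.l 12)))) (.b (.c .z (.a .z (.l 12))) (.l 12)))) (.b (.c (.a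
(.c .z (.l 12)) (.l 12)) (.l 12)) (.a (.c (.l 12) (.b (.l 12) .z)) (.l 12)))) (.c (.b (.a (.c .z (.b (.l 12) (.a .z (.l 12)))) (.c (.c (.a .z (.l 12))
(.l 12)) (.l 12))) (.a (.c (.b (.a .z (.l 12)) .z) .z) (.c (.l 12) (.a (.b (.l 12) .z) (.l 12))))) (.a (.b (.c .z (.b .z (.a (.l 11) .z))) (.a (.c (.b
.z (.l 11)) (.l 11)) (.c .z (.l 11)))) (.b (.c (.a (.b (.l 12) .z) (.l 12)) (.a .z (.b (.l 12) .z))) (.a .z (.c (.b (.l 12) .z) .z))))))) (.a (.b (.c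
(.c (.b (.c (.l 12) (.b (.a .z (.l 12)) .z)) (.c .z (.b .z (.a (.l 11) .z)))) (.b (.c .z (.b .z (.a (.l 11) .z))) (.c (.b (.a (.l 11) .z) (.l 11)) (.l
11)))) (.b (.c (.b (.c (.a (.l 11) .z) (.c (.l 11) .z)) (.c (.l 11) (.c (.l 11) .z))) (.c (.c .z (.a (.l 13) .z)) (.l 13))) (.c (.c (.l 11) (.c (.l
11) (.a .z (.l 11)))) (.c (.c .z (.a (.l 13) .z)) (.l 13))))) (.c (.c (.b (.c (.b (.a (.l 11) .z) (.l 11)) (.l 11)) (.l 11)) (.l 11)) (.c (.c (.l 11)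
(.c (.l 11) (.a (.a .z (.l 11)) (.l 11)))) (.c (.c (.a .z (.a .z (.l 11))) (.a (.l 13) .z)) (.l 13))))) (.b (.c (.c (.b (.l 12) (.c (.b (.l 12) (.a .z
(.l 12))) (.a .z (.b (.l 12) .z)))) (.b (.c (.b (.l 12) (.a .z (.l 12))) (.b (.a .z (.l 12)) .z)) (.a (.c .z (.b .z (.l 11))) .z))) (.c (.b (.c .z (.a
(.b .z (.l 11)) .z)) (.a (.l 11) (.c (.b .z (.l 11)) (.l 11)))) (.b (.a (.c (.c (.l 11) .z) (.c .z (.l 13))) (.c (.b .z (.l 11)) .z)) (.c (.c (.l 11)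
(.a .z (.l 11))) (.c .z (.a (.l 13) .z)))))) (.a (.c (.c (.b (.c .z (.b .z (.l 11))) (.l 11)) (.l 11)) (.c (.l 11) (.c (.c (.l 11) .z) (.c .z (.b (.l
13) .z))))) (.b (.c (.c .z (.c (.b .z (.l 11)) (.l 11))) (.c (.l 11) (.c (.l 11) .z))) (.c (.c (.c .z (.b .z (.l 11))) (.l 11)) (.a (.b (.c (.l 11)
.z) (.c (.l 11) .z)) (.b (.c (.l 11) .z) .z))))))))) (.b (.a (.c (.c (.l 19) (.c (.b (.c (.l 19) (.b (.l 19) (.c (.l 19) .z))) (.c (.b (.c (.l 19) .z)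
.z) (.b .z (.c .z (.a .z (.l 12)))))) (.b (.c .z (.b (.c .z (.a .z (.l 12))) (.l 12))) (.c (.b (.c (.a .z (.l 12)) (.l 12)) (.l 12)) (.l 12))))) (.c
(.l 12) (.b (.c (.l 12) (.a (.l 12) (.c (.b (.a (.l 12) .z) (.l 12)) (.b .z (.a (.l 12) .z))))) (.c (.l 12) (.b (.l 12) (.a (.c (.b (.l 12) .z) .z)
(.c (.l 12) (.b (.l 12) .z)))))))) (.b (.c (.c (.l 19) (.c (.c (.b (.l 19) (.c (.l 19) .z)) .z) (.c (.b (.c .z (.a .z (.l 12))) (.c (.a .z (.l 12))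
(.l 12))) (.l 12)))) (.c (.l 12) (.c (.a (.c (.l 12) (.a (.l 12) (.b .z (.l 12)))) (.c (.a (.c (.l 12) .z) .z) .z)) .z))) (.c (.c (.c (.l 19) (.c (.l
19) (.b (.c (.l 19) .z) .z))) (.c (.c (.b .z (.c .z (.a .z (.l 12)))) (.b (.c .z (.a .z (.l 12))) (.l 12))) (.l 12))) (.a (.c (.l 12) (.c (.l 12) (.c
(.a (.l 12) (.b .z (.l 12))) (.a (.b .z (.l 12)) .z)))) (.b (.c (.l 12) (.c (.c (.l 12) .z) .z)) (.c (.l 12) (.a (.b (.c (.l 12) .z) (.c (.l 12) .z))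
.z))))))) (.a (.c (.b (.c (.c (.l 19) (.c (.b (.l 19) (.c (.l 19) .z)) .z)) (.c (.c (.b .z (.c (.a .z (.l 12)) (.l 12))) (.l 12)) (.l 12))) (.c (.c
(.c (.b (.l 19) (.c (.l 19) .z)) (.b (.c (.l 19) .z) .z)) (.c (.b .z (.c .z (.a .z (.l 12)))) (.b (.c (.a .z (.l 12)) (.l 12)) (.l 12)))) (.a (.c (.l
12) (.b (.l 12) (.c (.l 12) (.b (.l 12) .z)))) (.b (.l 12) (.c (.a (.l 12) (.b (.l 12) .z)) (.a (.b (.l 12) .z) .z)))))) (.b (.a (.c (.c (.l 12) (.b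
(.l 12) (.c (.b (.l 12) .z) .z))) (.c (.b (.c (.b (.l 12) .z) .z) (.c .z (.b .z (.l 11)))) (.b .z (.c (.l 11) (.c (.l 11) .z))))) (.b (.c (.l 12) (.c
(.c (.l 12) (.b (.l 12) .z)) .z)) (.c (.c (.l 12) (.c (.l 12) (.b (.l 12) .z))) .z))) (.a (.b (.c (.c (.c (.l 12) .z) .z) (.a (.b (.c (.l 11) .z) (.c
(.l 11) .z)) (.b (.c (.l 11) .z) .z))) (.c (.a (.b (.c .z (.l 11)) .z) .z) .z)) (.b (.c (.a (.b (.c (.l 12) .z) (.c (.l 12) .z)) (.b (.c (.l 12) .z)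
.z)) .z) .z)))) (.c (.b (.c (.c (.c (.a (.l 19) .z) (.b (.l 19) (.c (.l 19) .z))) (.c .z (.b .z (.c (.a .z (.l 12)) (.l 12))))) (.a (.c (.c (.b (.c .z
(.l 12)) (.l 12)) (.l 12)) (.l 12)) (.b (.c (.l 12) (.a (.l 12) (.b (.l 12) .z))) (.c (.a (.l 12) .z) .z)))) (.c (.a (.b (.c (.c (.l 19) .z) (.c .z
(.l 12))) (.c .z (.a (.b (.l 12) .z) .z))) .z) (.a (.b (.c (.a (.l 12) (.b (.l 12) .z)) (.a (.b (.l 12) .z) .z)) .z) .z))) (.b (.a (.b (.c (.l 12) (.a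
(.b (.c (.l 12) .z) (.c (.l 12) .z)) (.b (.c (.l 12) .z) .z))) (.c (.a (.b (.l 12) (.c (.l 12) .z)) (.b (.c (.l 12) .z) .z)) .z)) (.b (.c (.a (.b (.l
12) (.c (.l 12) .z)) .z) .z) .z)) (.a .z (.b .z (.c (.c (.b .z (.c .z (.l 10))) .z) .z)))))))))

theorem vQ175 : ev3 Q175 J4_6 J4_9 J3_6 = 198717937295095380047734 := by decide +kernel

noncomputable def Q21 : QT3 :=
(.a (.c (.a (.c (.b (.b (.c (.b (.a (.c (.l 46) .z) (.l 46)) (.l 46)) (.b (.a .z (.c (.l 46) .z)) (.a (.b .z (.l 46)) (.l 46)))) (.b (.b (.l 46) (.b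
.z (.l 59))) (.a (.c (.l 59) .z) (.l 59)))) (.a .z (.b (.b (.c (.l 59) .z) .z) .z))) (.b (.a .z (.c (.b (.b .z (.b .z (.l 46))) (.b (.b (.l 46) .z)
.z)) .z)) (.a (.b (.c .z (.a (.b .z (.l 32)) .z)) (.c (.a (.l 32) (.b .z (.l 32))) (.l 32))) (.b .z (.c .z (.a (.b .z (.l 32)) .z)))))) (.b (.b (.c
(.l 46) (.a (.b (.c (.a .z (.l 46)) .z) (.c (.l 46) (.a .z (.l 46)))) (.b (.c (.l 46) (.a .z (.l 46))) (.l 46)))) (.b (.b (.l 46) (.b .z (.l 59))) (.l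
59))) (.a (.c (.b (.b (.l 59) (.c (.l 59) .z)) .z) .z) (.b (.c (.l 59) (.b (.l 59) (.a .z (.l 59)))) (.c (.b (.a .z (.l 59)) .z) .z))))) (.a (.b (.c
.z (.a (.b (.c (.b (.a (.l 28) .z) (.l 28)) (.l 28)) (.b (.b (.l 28) .z) .z)) (.b (.c .z (.a (.b .z (.l 28)) .z)) .z))) (.c (.a (.b (.c (.a .z (.b .z
(.l 32))) .z) (.c (.l 32) (.a .z (.b .z (.l 32))))) (.b (.c .z (.a (.b .z (.l 32)) .z)) (.a (.l 32) (.c (.b .z (.l 32)) (.l 32))))) (.a .z (.b (.c (.a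
.z (.b .z (.l 32))) .z) (.a (.c (.b .z (.l 32)) .z) (.c (.l 32) (.b .z (.l 32)))))))) (.b (.c (.a (.b .z (.c (.b (.b (.l 46) .z) .z) .z)) (.b (.b .z
(.c (.l 46) (.a .z (.l 46)))) (.b (.b (.l 46) .z) (.l 59)))) .z) (.a (.c (.a (.b .z (.c .z (.a (.l 32) .z))) .z) (.b (.a (.c .z (.b .z (.l 32))) .z)
(.a (.l 32) (.c .z (.l 32))))) .z)))) (.c (.b (.b (.a (.a (.b (.c (.l 46) (.a (.l 46) (.b .z (.l 46)))) (.l 46)) (.a (.c (.b (.c (.l 46) .z) (.l 46))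
(.b .z (.a (.l 46) .z))) (.c (.b .z (.a (.l 46) .z)) .z))) .z) (.b (.b (.a (.a (.l 46) (.a (.l 46) (.c (.l 46) .z))) .z) (.b .z (.l 59))) (.l 59)))
(.a (.a (.b (.l 59) (.c (.l 59) (.a (.b (.l 59) .z) (.l 59)))) (.l 59)) (.c (.l 59) (.b (.l 59) (.a (.l 59) (.c (.l 59) (.b (.l 59) .z))))))) (.b (.a
(.a (.c (.b (.b (.c (.a (.l 46) .z) .z) (.a (.l 46) (.b .z (.l 46)))) (.b (.b (.l 46) .z) (.l 59))) (.b (.a (.c (.b .z (.l 46)) .z) .z) (.b (.b (.l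
46) .z) (.l 59)))) (.b .z (.b (.b .z (.b .z (.l 59))) (.l 59)))) (.c (.b .z (.b (.b .z (.b .z (.l 59))) (.l 59))) (.b .z (.a (.b .z (.l 59)) (.c (.b
.z (.l 59)) .z))))) (.a (.c (.a (.b (.a (.b (.l 59) .z) (.l 59)) .z) (.l 59)) (.b (.a (.a .z (.b (.l 59) .z)) (.l 59)) (.a .z (.c (.b (.l 59) .z)
.z)))) (.c (.b (.a (.l 59) (.c (.l 59) (.b (.l 59) .z))) (.a (.c (.l 59) .z) (.c .z (.b .z (.a .z (.c .z (.l 26))))))) (.b (.a (.c (.b (.l 59) .z) .z)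
(.c .z (.b .z (.a .z (.c .z (.l 26)))))) (.a (.c .z (.b .z (.a (.c .z (.l 26)) (.l 26)))) (.c (.b (.a .z (.c .z (.l 26))) (.l 26)) (.l 26)))))))))

theorem vQ21 : ev3 Q21 J3_1 J4_5 J4_8 = 217915002992171700717686 := by decide +kernel

noncomputable def Q165 : QT3 :=
(.c (.b (.a (.c (.b (.a (.c (.l 7) (.b (.a (.c (.l 7) (.c (.l 7) (.a .z (.l 7)))) (.c (.l 7) (.b (.l 7) (.a (.l 7) .z)))) (.a (.c (.c (.l 7) (.a .z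
(.l 7))) .z) (.c (.b (.a (.l 7) .z) .z) .z)))) (.c (.b (.a (.l 7) (.c (.l 7) (.b (.a (.l 7) .z) .z))) (.a (.c (.l 7) (.b (.a (.l 7) .z) .z)) (.c (.b
(.a (.l 7) .z) .z) .z))) (.b (.a (.c (.b (.l 7) .z) .z) .z) .z))) (.a (.c (.b (.a (.c (.l 7) (.b (.l 7) .z)) (.c (.b (.l 7) (.a (.l 7) .z)) (.b (.a
(.l 7) .z) .z))) (.a (.c (.b (.l 7) (.a (.l 7) .z)) .z) .z)) .z) (.c (.b .z (.a .z (.c (.l 14) .z))) .z))) (.b (.a (.c (.b (.a (.c .z (.b (.a (.l 9)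
.z) .z)) .z) .z) .z) .z) .z)) (.c (.b (.a (.c (.b (.a (.c (.b (.a (.l 7) .z) .z) .z) (.c .z (.b .z (.l 14)))) (.a (.c .z (.b .z (.l 14))) (.c (.b .z
(.l 14)) (.l 14)))) (.b (.a .z (.c (.c (.l 14) .z) .z)) (.c (.c .z (.c .z (.l 22))) (.a .z (.c (.l 22) .z))))) (.c (.b (.a (.c (.b .z (.l 14)) (.l
14)) (.l 14)) (.l 14)) (.c (.c (.b (.l 14) (.c (.l 14) .z)) .z) (.c .z (.b .z (.a (.l 22) .z)))))) (.c (.c (.l 14) (.c (.b (.l 14) (.a (.c (.l 14) .z)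
(.l 14))) (.a .z (.b (.l 14) (.c (.l 14) .z))))) (.b (.c (.c .z (.a (.l 22) .z)) (.b (.c (.a .z (.l 22)) (.a .z (.l 22))) (.c (.a .z (.l 22)) .z)))
.z))) .z)) (.a (.c (.b (.a (.c (.b .z (.a (.c .z (.b .z (.l 23))) (.c .z (.b .z (.l 23))))) (.b .z (.b .z (.l 23)))) (.c (.b (.c (.b (.c (.l 14) .z)
(.c (.l 14) .z)) .z) (.c .z (.b .z (.l 23)))) (.b .z (.b .z (.l 23))))) (.c (.b (.c (.b (.c .z (.a (.l 23) .z)) (.c .z (.a (.l 23) .z))) (.l 23)) (.c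
(.c .z (.a (.c .z (.l 23)) .z)) (.a (.l 23) (.c (.a (.l 23) .z) (.l 23))))) (.l 23))) (.c (.b (.b .z (.b .z (.l 23))) (.l 23)) (.b (.b (.c .z (.a .z
(.c .z (.l 51)))) (.b .z (.l 23))) (.c (.l 23) (.b (.l 23) (.c (.l 23) (.b (.l 23) (.a (.l 23) .z)))))))) (.c (.b (.c (.b (.c (.c (.l 14) (.a (.c (.l
14) .z) (.l 14))) (.b (.c (.a .z (.l 14)) .z) .z)) (.c (.b (.c (.b (.l 14) .z) .z) .z) (.a (.b .z (.c .z (.l 23))) .z))) (.b (.c .z (.a (.l 35) .z))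
(.c (.a (.b .z (.l 23)) (.b .z (.l 23))) (.b .z (.l 23))))) (.c (.b (.c .z (.a (.c .z (.a (.l 23) .z)) .z)) (.c .z (.a (.c .z (.a (.l 23) .z)) .z)))
(.c (.a (.l 23) (.c (.b (.a (.l 23) .z) .z) (.b (.l 23) (.a (.l 23) .z)))) (.l 23)))) (.c (.b (.b .z (.b .z (.l 23))) (.l 23)) (.b (.b (.a (.a (.c .z
(.l 51)) .z) (.a .z (.c .z (.l 27)))) (.b (.b (.a .z (.l 27)) .z) (.l 23))) (.c (.l 23) (.b (.c (.l 23) (.a (.l 23) .z)) (.c (.a (.b (.l 23) .z) .z)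
.z)))))))) (.b (.c (.c (.c (.c (.a .z (.b (.c (.a .z (.b (.a .z (.l 9)) .z)) (.a (.b (.l 9) .z) (.l 9))) .z)) (.b (.a (.c (.b (.a (.b (.l 9) .z) (.l
9)) (.a .z (.b (.l 9) .z))) (.l 9)) (.l 9)) (.a (.c .z (.b (.a .z (.b (.l 9) .z)) .z)) (.c (.a (.b (.b (.l 9) .z) .z) (.b (.l 9) (.a .z (.l 9)))) (.b
(.l 9) (.a (.b (.l 9) .z) (.l 9))))))) (.b (.l 9) (.a (.c (.b (.l 9) (.c (.a .z (.b (.l 9) .z)) (.a (.b (.l 9) .z) (.l 9)))) (.b (.l 9) (.c (.l 9) (.a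
(.l 9) (.b (.l 9) .z))))) (.c (.b (.l 9) (.a (.l 9) (.c (.b (.l 9) .z) .z))) (.b (.a (.c (.l 9) (.b (.l 9) .z)) (.c (.b (.l 9) .z) .z)) (.a (.c (.b
(.l 9) .z) .z) .z)))))) (.c (.b (.a (.c (.l 9) (.b (.l 9) (.c (.a (.l 9) (.b (.l 9) .z)) (.a (.b (.l 9) .z) .z)))) (.c (.b (.l 9) (.a (.c (.l 9) (.b
(.l 9) .z)) (.c (.b (.l 9) .z) .z))) (.b (.a (.c (.l 9) (.b (.l 9) .z)) (.c (.b (.l 9) .z) .z)) (.a .z (.c .z (.b .z (.l 10))))))) (.a (.c (.b (.c (.l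
9) (.a (.l 9) .z)) (.c (.a (.b (.l 9) .z) .z) .z)) (.b (.c .z (.a .z (.b .z (.l 10)))) (.c (.a .z (.b .z (.l 10))) (.l 10)))) (.c (.b (.a .z (.c .z
(.b .z (.l 10)))) (.a (.c .z (.b .z (.l 10))) (.l 10))) (.b (.a (.c (.b .z (.l 10)) (.l 10)) (.l 10)) (.l 10))))) (.b (.c (.a (.b (.c (.a (.l 9) (.b
(.l 9) .z)) (.a (.b (.l 9) .z) .z)) (.c .z (.a .z (.b .z (.l 10))))) (.b (.a .z (.c .z (.b .z (.l 10)))) (.a (.c (.b .z (.l 10)) (.l 10)) (.l 10))))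
(.a (.b (.c .z (.a .z (.l 10))) (.c (.a (.b .z (.l 10)) (.l 10)) (.l 10))) (.b (.a (.c (.b .z (.l 10)) (.l 10)) (.l 10)) (.l 10)))) (.c (.a (.b (.c
(.a (.b .z (.l 10)) (.l 10)) (.l 10)) (.l 10)) (.l 10)) (.l 10))))) (.c (.a (.c (.l 10) (.a (.c (.l 10) (.b (.a (.c (.b .z (.l 10)) .z) (.c (.l 10)
(.b .z (.l 10)))) (.a (.c (.l 10) (.b .z (.l 10))) (.l 10)))) (.l 10))) (.c (.a (.l 10) (.c (.l 10) (.a (.l 10) (.c (.l 10) (.a (.l 10) (.a (.l 10)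
.z)))))) (.a (.c (.l 10) (.a (.l 10) (.c (.a (.l 10) .z) .z))) (.c (.a (.c (.l 10) (.a (.a (.l 10) .z) .z)) .z) (.a (.c .z (.a (.b (.l 13) .z) (.l
13))) (.c (.b (.b .z (.l 13)) (.l 13)) (.l 13))))))) (.a (.c (.a (.b .z (.c (.a (.b .z (.c (.l 10) .z)) (.b (.c (.l 10) .z) (.l 10))) (.a .z (.b .z
(.a .z (.l 10)))))) (.c (.a (.b (.b (.c (.l 10) .z) (.l 10)) (.l 10)) (.c (.l 10) (.b (.a (.l 10) .z) (.l 10)))) (.a (.b .z (.c (.l 10) .z)) (.b .z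
(.c (.a (.l 10) .z) .z))))) (.a (.c (.b .z (.a (.b (.l 15) .z) .z)) (.b (.a .z (.c .z (.l 13))) .z)) (.c (.a (.b (.c .z (.a .z (.l 13))) .z) (.b (.l
13) (.c .z (.a .z (.l 13))))) (.b (.l 13) (.a (.c .z (.l 13)) (.l 13)))))) (.c (.a (.c (.a (.c (.a (.b .z (.l 10)) .z) .z) (.c (.a .z (.b (.l 13) .z))
(.a (.b (.l 13) .z) (.l 13)))) (.a (.b (.c (.a .z (.l 13)) (.l 13)) (.c .z (.a .z (.l 13)))) (.l 13))) (.l 13)) (.l 13))))) (.c (.b (.c (.c (.a (.b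
(.c (.a .z (.l 51)) .z) (.c (.b .z (.l 23)) (.a (.b .z (.l 23)) .z))) (.b .z (.c (.a (.b .z (.l 23)) .z) .z))) (.a (.c (.b (.a .z (.c .z (.b (.l 9)
.z))) .z) (.b (.c (.a (.b (.l 9) .z) .z) .z) (.c (.a .z (.b .z (.l 10))) (.a (.b .z (.l 10)) (.l 10))))) (.c (.b (.a (.c (.b (.l 9) .z) .z) .z) (.a
(.c .z (.b .z (.l 10))) .z)) (.b (.a (.c .z (.b .z (.l 10))) (.c .z (.a (.l 10) .z))) (.a (.l 10) (.a (.l 10) .z)))))) (.c (.a (.c (.b (.c (.a .z (.b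
.z (.l 10))) (.a (.b .z (.l 10)) (.l 10))) (.l 10)) (.l 10)) (.l 10)) (.l 10))) (.a (.c (.c (.b (.c (.b (.l 23) (.a (.l 23) .z)) .z) (.c .z (.b (.a .z
(.c .z (.l 10))) (.a (.c .z (.l 10)) (.l 10))))) (.b (.c (.b (.a .z (.c .z (.l 10))) (.a (.c .z (.l 10)) (.l 10))) (.l 10)) (.l 10))) (.b (.l 10) (.a
(.c (.l 10) (.b (.l 10) (.a .z (.l 10)))) (.l 10)))) (.c (.c (.b .z (.c (.a .z (.b .z (.l 19))) (.a (.a (.l 10) .z) .z))) (.a (.l 10) (.a (.c (.a (.c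
.z (.l 10)) .z) (.l 10)) (.c .z (.a (.c .z (.l 10)) .z))))) (.a (.l 10) (.c (.a (.l 10) (.c (.a (.l 10) (.c .z (.l 10))) (.l 10))) (.l 10)))))) (.a
(.b (.c (.l 10) (.b (.a (.c (.a (.c (.l 10) .z) (.l 10)) .z) (.c (.c (.l 10) (.a (.l 10) (.c (.l 10) .z))) (.c (.a (.c (.l 10) .z) .z) (.a .z (.l
13))))) (.a (.c (.b (.a (.c (.l 10) .z) (.l 10)) (.a .z (.c (.l 10) .z))) (.b .z (.a (.c .z (.l 11)) .z))) (.c (.c (.l 10) (.a (.l 10) (.a (.l 10)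
.z))) .z)))) (.c (.b (.a (.c (.b (.l 10) (.a (.c (.l 10) .z) (.l 10))) (.b (.a .z (.l 10)) .z)) (.c (.l 10) (.a (.b (.l 10) (.c (.l 10) .z)) (.l
10)))) (.a (.c (.b (.a .z (.c (.l 10) .z)) .z) (.b (.a (.c .z (.l 11)) .z) (.a (.l 11) .z))) (.c (.a (.b (.l 10) (.c (.l 10) .z)) (.l 10)) (.a .z (.b
(.l 10) .z))))) (.a (.b (.c (.b .z (.a (.c .z (.l 11)) .z)) (.b (.a (.c (.l 11) .z) .z) .z)) (.c (.c (.a (.b (.l 11) .z) .z) .z) .z)) (.b (.c (.a (.b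
(.c (.l 10) .z) .z) (.b (.l 10) (.c (.l 10) .z))) .z) (.c (.a (.b .z (.c .z (.l 12))) .z) (.a .z (.b (.c .z (.l 13)) .z))))))) (.b (.c (.c (.a (.l 10)
(.c (.l 10) (.a (.l 10) (.a (.l 10) (.c (.l 10) .z))))) (.a (.c (.l 10) (.a (.l 10) (.c (.l 10) (.a (.l 10) .z)))) (.a (.c (.c (.l 10) (.a (.l 10)
.z)) (.a .z (.c .z (.l 13)))) (.c (.a .z (.c .z (.l 13))) (.l 13))))) (.a (.c (.c (.a (.c (.l 10) (.a (.l 10) .z)) .z) (.a .z (.a (.c .z (.l 13)) (.l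
13)))) (.a (.c (.a (.c .z (.l 13)) (.l 13)) (.b (.c (.l 13) .z) .z)) (.c (.l 13) (.b (.c (.l 13) .z) .z)))) (.c (.a (.c (.a (.c .z (.l 13)) (.l 13))
(.l 13)) (.l 13)) (.c (.b (.l 13) (.c (.l 13) .z)) (.b (.c (.b (.l 13) .z) .z) .z))))) (.c (.a (.l 10) (.c (.a (.l 10) (.c (.l 10) (.a (.l 10) (.c (.l
10) .z)))) (.a (.c (.a (.l 10) (.c (.l 10) .z)) .z) (.c (.a .z (.c .z (.l 13))) (.a (.c .z (.l 13)) (.l 13)))))) (.a (.b (.c (.a (.c (.l 10) .z) (.c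
.z (.a .z (.l 13)))) .z) (.c (.a (.b (.c (.l 10) .z) .z) .z) .z)) (.b (.c (.a (.c (.a .z (.l 13)) (.l 13)) (.c (.l 13) (.c (.l 13) .z))) .z) (.c (.a
(.c (.a .z (.l 13)) .z) (.c (.l 13) .z)) .z)))))))))

theorem vQ165 : ev3 Q165 J4_4 J4_10 J3_6 = 251889415398286869388844 := by decide +kernel

noncomputable def Q58 : QT3 :=
(.b (.c (.b (.a (.c (.l 12) (.c (.a (.l 12) (.a (.l 12) (.c (.l 12) (.a (.l 12) (.b (.c (.l 12) .z) (.l 12)))))) (.a (.l 12) (.a (.c (.l 12) (.b (.a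
(.c (.l 12) .z) .z) (.l 12))) (.c (.a (.b (.c (.l 12) .z) (.l 12)) .z) (.a .z (.b (.c .z (.l 8)) .z))))))) (.c (.a (.a (.c (.l 12) (.a (.l 12) (.c (.l
12) (.b (.a (.l 12) .z) (.l 12))))) (.c (.a (.l 12) (.c (.l 12) (.a (.l 12) (.c (.l 12) .z)))) (.a (.c (.a (.l 12) (.c (.l 12) .z)) .z) (.c .z (.a .z
(.l 8)))))) (.a (.c (.a (.c (.a (.c (.l 12) .z) .z) .z) (.c (.a .z (.c .z (.l 8))) (.l 8))) (.a (.c (.a (.c .z (.l 8)) (.l 8)) (.l 8)) (.l 8))) (.b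
(.c (.a (.l 8) (.b .z (.c .z (.l 8)))) (.l 8)) (.l 8)))) (.a (.a (.c (.a (.c (.b (.c (.l 12) .z) (.l 12)) .z) (.c .z (.b (.a .z (.l 8)) .z))) (.a (.c
(.b (.c .z (.l 8)) .z) (.b (.l 8) (.a .z (.l 8)))) (.c (.b (.l 8) (.a .z (.l 8))) (.l 8)))) (.c (.a (.c (.a .z (.b (.l 8) .z)) (.l 8)) (.l 8)) (.l
8))) (.b (.l 8) (.a (.l 8) (.c (.l 8) (.b (.a (.l 8) (.c (.l 8) .z)) (.a (.c (.l 8) .z) .z)))))))) (.a (.c (.l 12) (.b (.a (.l 12) (.c (.l 12) (.a (.l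
12) (.c (.l 12) (.a (.l 12) .z))))) (.c (.l 12) (.b (.a (.l 12) (.a (.l 12) (.c (.l 12) (.a (.l 12) .z)))) (.a (.l 12) (.c (.l 12) (.a (.l 12) (.b (.l
12) .z)))))))) (.c (.a (.a (.l 12) (.c (.l 12) (.a (.c (.l 12) (.a (.l 12) (.b .z (.l 12)))) (.c (.a (.c (.l 12) .z) .z) .z)))) (.b (.c (.a (.a (.c
(.a (.l 12) .z) .z) (.c .z (.a .z (.l 8)))) (.l 8)) (.a (.a (.c (.a .z (.l 8)) (.l 8)) (.l 8)) (.b (.l 8) (.a (.l 8) (.c (.l 8) .z))))) (.c (.a (.a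
(.c (.l 12) .z) (.c .z (.a .z (.l 8)))) (.b (.l 8) (.a (.c (.l 8) .z) .z))) (.a (.b (.a (.c .z (.l 8)) (.l 8)) .z) (.b (.a (.c (.l 8) .z) .z) .z)))))
(.a (.b (.c (.a (.a (.l 12) (.c (.a (.l 12) .z) .z)) (.a (.c .z (.a .z (.l 8))) (.c (.a .z (.l 8)) (.l 8)))) (.a (.a .z (.c .z (.l 8))) (.b (.l 8) (.c
(.l 8) (.a (.l 8) .z))))) (.c (.a (.a (.l 12) (.c (.l 12) (.a (.l 12) .z))) (.b (.a .z (.c .z (.l 8))) .z)) (.a .z (.b (.c (.a (.l 8) .z) .z) .z))))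
(.b (.a (.c (.b (.l 8) (.c (.l 8) (.a (.l 8) .z))) (.b (.c (.l 8) (.a (.l 8) .z)) .z)) (.c (.b (.a (.l 8) (.c (.l 8) .z)) .z) (.b .z (.a .z (.c .z (.l
6)))))) (.a (.c (.b (.c (.a (.l 8) .z) .z) .z) (.b (.c .z (.a .z (.l 6))) (.c (.a .z (.l 6)) (.l 6)))) (.c (.b (.a .z (.c .z (.l 6))) (.a (.c .z (.l
6)) (.l 6))) (.l 6)))))))) (.b (.a (.c (.c (.a (.c (.b (.c (.a (.l 12) (.b .z (.l 12))) (.a (.l 12) .z)) (.l 12)) (.b (.c (.b .z (.a (.l 12) .z)) .z)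
(.a (.l 12) (.b .z (.c (.l 12) .z))))) (.b (.c (.a .z (.a (.c .z (.l 8)) (.l 8))) (.a (.b (.c (.l 8) .z) (.a .z (.l 8))) (.l 8))) (.a (.c (.a (.c (.l
12) .z) .z) .z) (.c (.a .z (.c .z (.l 8))) (.l 8))))) (.a (.b (.c (.b (.c .z (.l 16)) .z) (.b (.l 16) (.c .z (.l 16)))) (.c (.b .z (.c (.a (.l 12) .z)
.z)) .z)) (.b (.a .z (.c (.a (.b .z (.l 8)) (.l 8)) .z)) (.a (.c (.a (.b (.l 8) .z) (.l 8)) (.b .z (.c (.l 8) .z))) (.c (.l 8) (.a (.b .z (.l 8)) (.l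
8))))))) (.b (.c (.a (.c (.c (.l 16) (.a (.l 16) .z)) (.c (.a (.l 16) .z) .z)) .z) .z) (.c (.a (.c (.b (.c (.l 16) .z) .z) .z) (.a .z (.c (.a .z (.b
.z (.l 8))) .z))) .z))) (.c (.a (.b (.l 8) (.c (.l 8) (.a (.l 8) (.b (.l 8) (.c (.a (.l 8) .z) .z))))) (.b (.a (.c (.l 8) (.b (.l 8) (.a (.l 8) (.c
(.l 8) .z)))) (.c (.b (.l 8) (.a (.l 8) (.c (.l 8) .z))) (.b (.a (.l 8) .z) .z))) (.a (.c (.b (.l 8) (.a (.c (.l 8) .z) .z)) (.b (.a (.c (.l 8) .z)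
.z) .z)) (.c (.b (.a (.c (.l 8) .z) .z) .z) .z)))) (.a (.b (.c (.a (.c (.a .z (.b .z (.l 8))) .z) (.b (.a (.c (.l 8) .z) (.l 8)) (.c (.l 8) (.a (.l 8)
.z)))) .z) (.c (.a (.b (.c (.l 8) (.a .z (.l 8))) (.c (.b (.l 8) .z) .z)) (.b (.c (.a (.l 8) .z) .z) .z)) .z)) (.b (.a (.c (.b (.a (.l 8) (.c (.l 8)
.z)) .z) .z) .z) (.a (.c .z (.c .z (.c (.b .z (.l 9)) (.a .z (.l 9))))) (.c .z (.c .z (.b (.c .z (.l 9)) (.l 9))))))))) (.a (.c (.b (.c (.a (.l 12)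
(.a (.c (.a (.l 12) (.c (.l 12) .z)) (.a (.b .z (.l 12)) .z)) (.c .z (.a .z (.l 8))))) (.b (.a (.c (.a (.l 12) .z) .z) (.a (.c .z (.l 8)) (.l 8))) (.a
(.c (.a (.l 12) (.c (.l 12) .z)) (.c (.a (.l 12) .z) .z)) (.c (.a .z (.b (.l 8) .z)) .z)))) (.c (.b (.a (.l 12) (.c (.a (.l 12) .z) (.a (.a (.l 12)
.z) .z))) (.a (.c (.l 12) (.b (.l 12) (.c (.l 12) .z))) (.c (.a (.b (.l 12) .z) .z) .z))) (.b (.a (.c (.l 12) .z) .z) (.a (.c .z (.b .z (.c .z (.l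
6)))) (.c (.a .z (.b .z (.l 6))) (.a (.b .z (.l 6)) (.l 6))))))) (.b (.c (.b (.a .z (.a .z (.c (.b (.l 8) .z) .z))) .z) .z) (.c (.b .z (.c (.a .z (.c
(.a (.l 6) .z) .z)) .z)) (.a (.b (.a (.c .z (.l 20)) .z) (.a (.l 20) (.a (.l 20) .z))) .z)))) (.c (.a (.b (.c (.a (.b (.l 8) (.c (.l 8) (.b (.l 8)
.z))) (.b (.c (.l 8) (.a (.l 8) .z)) .z)) (.a (.b (.c (.b (.l 8) .z) .z) .z) .z)) (.c (.a (.b .z (.c .z (.b .z (.l 6)))) (.b (.c .z (.a .z (.l 6)))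
(.l 6))) (.a (.b .z (.c (.l 6) (.c (.l 6) .z))) (.c (.b (.c (.l 6) .z) (.l 6)) .z)))) (.b (.a .z (.c (.b .z (.c (.c (.l 6) .z) .z)) .z)) (.c (.c (.l
6) (.a (.l 6) (.c (.b .z (.l 6)) .z))) (.c (.a (.b .z (.c (.l 6) .z)) .z) .z)))) (.a (.b (.c .z (.a .z (.c (.c (.b .z (.l 9)) .z) .z))) (.c (.c (.b .z
(.a .z (.c .z (.l 9)))) (.a (.c (.b .z (.l 9)) .z) (.b (.c .z (.l 9)) (.l 9)))) (.c (.a .z (.c (.a .z (.l 9)) .z)) .z))) (.c (.b (.c .z (.b .z (.c .z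
(.b .z (.l 9))))) (.c (.b .z (.c .z (.l 9))) (.b (.c (.b .z (.l 9)) (.l 9)) (.l 9)))) (.c (.a (.c (.b (.b .z (.l 9)) (.l 9)) (.a (.b (.l 9) .z) (.l
9))) (.b (.b (.c .z (.l 9)) (.l 9)) (.l 9))) (.a (.c (.a .z (.b (.l 9) .z)) .z) (.a (.c (.l 9) (.b (.l 9) .z)) (.l 9)))))))))) (.c (.b (.a (.c (.b (.l
12) (.c (.b (.l 12) (.a (.l 12) (.c (.l 12) (.a (.l 12) (.b (.l 12) .z))))) (.b (.a (.l 12) (.c (.l 12) (.a (.l 12) (.b (.l 12) .z)))) (.a (.c (.l 12)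
(.b (.l 12) (.c (.l 12) .z))) (.c (.a (.b (.l 12) .z) .z) .z))))) (.b (.c (.b (.l 12) (.a (.l 12) (.c (.a (.l 12) (.b (.l 12) .z)) (.a (.b (.l 12) .z)
.z)))) (.b (.a (.l 12) (.c (.a (.l 12) (.b (.l 12) .z)) (.a (.b (.l 12) .z) .z))) (.a (.c (.b (.l 12) (.c (.l 12) .z)) .z) (.c .z (.a .z (.b .z (.l
6))))))) (.c (.b (.a (.c (.l 12) (.b (.c (.l 12) .z) .z)) (.c (.a (.b (.l 12) .z) .z) .z)) (.a (.c .z (.b .z (.l 6))) (.c (.a .z (.b .z (.l 6))) (.a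
(.b .z (.l 6)) (.l 6))))) (.b (.a (.c (.b .z (.c .z (.l 6))) (.b (.c .z (.l 6)) (.l 6))) (.c (.a (.b .z (.l 6)) (.l 6)) (.l 6))) (.l 6))))) (.c (.a
(.b (.c (.a (.l 12) (.b (.l 12) (.c (.l 12) (.a (.l 12) .z)))) (.a (.b (.l 12) (.c (.l 12) (.b (.l 12) .z))) (.b (.c (.l 12) (.a (.l 12) .z)) .z)))
(.c (.a (.b (.l 12) (.c (.b (.l 12) .z) .z)) (.b (.c (.a (.l 12) .z) .z) .z)) (.a (.b .z (.c .z (.b .z (.l 6)))) (.b (.c .z (.a .z (.l 6))) (.c (.a .z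
(.l 6)) (.l 6)))))) (.b (.c (.a (.b (.c (.a (.l 12) .z) .z) (.c (.a (.l 12) .z) .z)) (.b .z (.a .z (.c .z (.l 6))))) (.a (.b .z (.c .z (.a .z (.l
6)))) (.b (.a (.c .z (.l 6)) (.l 6)) (.l 6)))) (.c (.a (.b .z (.c (.a .z (.l 6)) (.l 6))) (.b (.a (.c .z (.l 6)) (.l 6)) (.l 6))) (.l 6)))) (.a (.b
(.c (.a (.b (.c (.b (.l 12) .z) .z) .z) (.b .z (.c .z (.l 6)))) (.a (.b .z (.c (.b .z (.l 6)) (.l 6))) (.b (.c (.a .z (.l 6)) (.l 6)) (.l 6)))) (.c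
(.a (.b (.c .z (.l 6)) (.l 6)) (.l 6)) (.l 6))) (.b (.a (.c (.b (.c (.a .z (.l 6)) (.l 6)) (.l 6)) (.l 6)) (.l 6)) (.l 6))))) (.a (.c (.b (.c (.b (.a
(.l 12) (.c (.a (.l 12) (.b (.l 12) .z)) (.a (.b (.l 12) .z) .z))) (.a (.c (.b (.l 12) (.c (.l 12) .z)) (.b (.c (.l 12) .z) .z)) (.c .z (.a .z (.b .z
(.l 6)))))) (.b (.a (.c (.b (.c (.l 12) .z) .z) .z) (.c .z (.a (.b .z (.l 6)) (.l 6)))) (.a (.c (.b .z (.c .z (.l 6))) (.l 6)) (.c (.a (.b .z (.l 6))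
(.l 6)) (.l 6))))) (.c (.b (.a (.c .z (.b (.c .z (.l 6)) (.l 6))) (.c (.a .z (.b .z (.l 6))) (.l 6))) (.a (.c (.b (.c .z (.l 6)) (.l 6)) (.l 6)) (.l
6))) (.l 6))) (.b (.c (.b (.a (.c (.b (.c .z (.l 6)) (.l 6)) (.l 6)) (.l 6)) (.l 6)) (.l 6)) (.l 6))) (.c (.a (.b (.c (.b (.a .z (.c (.a .z (.l 6))
(.l 6))) (.a (.c (.b .z (.l 6)) (.l 6)) (.l 6))) (.l 6)) (.l 6)) (.l 6)) (.l 6)))) (.b (.a (.c (.b (.c (.b (.a (.c (.b (.c (.l 12) .z) .z) (.b .z (.c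
.z (.l 6)))) (.c .z (.a (.b .z (.l 6)) (.l 6)))) (.a (.c (.b .z (.l 6)) (.l 6)) (.c (.a (.b .z (.l 6)) (.l 6)) (.l 6)))) (.b (.a (.c (.b (.c .z (.l
6)) (.l 6)) (.l 6)) (.l 6)) (.c (.l 6) (.a (.c (.l 6) .z) (.l 6))))) (.c (.l 6) (.c (.l 6) (.a (.c (.b (.l 6) .z) .z) (.c (.l 6) (.a .z (.l 6)))))))
(.c (.c (.a (.c (.b .z (.b .z (.l 16))) (.b .z (.a (.l 16) .z))) (.c (.b (.a .z (.l 6)) .z) .z)) (.a (.c .z (.a (.l 20) .z)) .z)) (.a (.l 20) (.c .z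
(.a (.b (.a (.l 20) .z) (.l 20)) .z))))) (.c (.c (.l 6) (.a (.b (.c (.l 6) (.a (.l 6) (.b (.c (.l 6) .z) (.l 6)))) (.l 6)) (.b (.c (.a (.l 6) (.b .z
(.c (.l 6) .z))) (.a (.b .z (.c (.l 6) .z)) .z)) (.c (.l 6) (.a (.l 6) (.b .z (.c (.l 6) .z))))))) (.c (.a (.c (.a (.c (.b (.b .z (.l 6)) (.l 6)) (.b
(.b .z (.l 6)) .z)) (.b .z (.b (.c (.l 6) .z) (.l 6)))) (.a .z (.c .z (.a .z (.b (.l 9) .z))))) (.b (.c (.a (.b (.c .z (.l 9)) .z) (.b (.l 9) (.c .z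
(.l 9)))) (.l 9)) (.c (.a (.b .z (.c (.l 6) .z)) .z) (.a .z (.b (.l 9) (.a .z (.l 9))))))) (.a (.c .z (.a .z (.b (.l 44) .z))) (.a (.c (.a (.c (.b (.l
9) .z) .z) (.c (.l 9) (.b (.l 9) .z))) .z) (.c (.l 9) (.a (.c (.b (.l 9) .z) .z) (.c (.l 9) (.a .z (.l 9)))))))))) (.c (.a (.c (.l 6) (.c (.a (.b (.c
(.l 6) (.b (.l 6) .z)) (.c (.b (.l 6) .z) .z)) (.b (.l 6) (.c (.l 6) (.a .z (.l 6))))) (.a (.b (.c .z (.b .z (.l 16))) (.c (.b .z (.l 16)) (.l 16)))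
(.b (.c (.a .z (.l 6)) .z) .z)))) (.c (.l 6) (.a (.c (.l 6) (.a (.c (.l 6) (.b (.l 6) .z)) (.l 6))) (.l 6)))) (.a (.c (.c (.a (.c (.l 16) (.b (.a (.l
16) .z) (.l 16))) (.b .z (.a (.c (.l 16) .z) .z))) .z) (.a (.c (.c (.a (.l 20) .z) (.l 20)) (.l 20)) (.c .z (.a (.c (.a (.l 20) .z) (.l 20)) .z))))
(.a (.c (.c (.a .z (.c (.a (.b (.l 6) .z) (.l 6)) (.a .z (.b (.l 6) .z)))) .z) .z) (.c (.a (.c (.l 6) (.a (.c (.b (.l 6) .z) .z) (.c (.b .z (.l 6))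
.z))) (.b (.c (.b .z (.a (.l 6) .z)) .z) (.c (.l 6) (.b (.a (.l 6) .z) (.l 6))))) (.a .z (.c (.a .z (.b (.b (.l 9) .z) .z)) .z)))))))))

theorem vQ58 : ev3 Q58 J3_0 J4_6 J4_12 = 312910279410206310834819 := by decide +kernel

noncomputable def Q124 : QT3 :=
(.c (.b (.c (.c (.a (.c (.b (.b (.b (.l 35) .z) .z) .z) (.a .z (.c .z (.b (.a .z (.c (.a .z (.l 7)) (.l 7))) (.a .z (.c .z (.a .z (.l 7)))))))) (.c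
(.a (.c (.b (.b (.l 35) .z) .z) .z) (.c (.a .z (.c .z (.a .z (.l 7)))) (.a (.c .z (.a (.b (.l 7) .z) (.l 7))) (.l 7)))) (.a (.c (.a (.c .z (.b (.a .z
(.l 7)) .z)) (.c (.b (.a .z (.l 7)) (.a .z (.l 7))) (.l 7))) (.a (.b (.l 7) (.c (.a .z (.l 7)) (.l 7))) (.l 7))) (.l 7)))) (.a (.b (.c (.a (.c (.c .z
(.a .z (.l 7))) (.l 7)) (.l 7)) (.l 7)) (.c (.a (.b (.c .z (.a (.c .z (.l 7)) (.l 7))) (.c .z (.a .z (.b (.l 7) .z)))) (.c (.a (.c .z (.l 7)) (.l 7))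
(.l 7))) (.a (.b (.c (.a (.b (.l 7) .z) (.l 7)) (.a .z (.b (.l 7) .z))) .z) (.b (.l 7) (.a (.c (.b (.l 7) .z) .z) (.c (.l 7) (.b (.l 7) .z))))))) (.l
7))) (.a (.c (.b (.c (.a (.b (.c (.l 7) (.a (.b (.l 7) .z) (.l 7))) (.c (.a .z (.b (.l 7) .z)) .z)) (.b (.l 7) (.c (.l 7) (.a (.b (.l 7) .z) (.l
7))))) (.a (.b (.c (.a .z (.b (.l 7) .z)) .z) .z) (.b (.c (.l 7) (.a (.b (.l 7) .z) (.l 7))) (.a .z (.c (.b (.l 7) .z) .z))))) (.a .z (.c (.b (.a (.c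
(.b (.l 7) .z) .z) (.c (.l 7) (.b (.l 7) .z))) .z) .z))) (.b (.a (.c (.b (.c .z (.a (.c .z (.l 8)) .z)) .z) (.c (.a (.l 8) (.b (.l 8) (.c .z (.l 8))))
(.l 8))) (.c (.b (.a .z (.c (.b (.l 7) .z) .z)) .z) (.b (.a (.c .z (.c (.l 8) .z)) .z) (.a (.c .z (.a (.l 8) .z)) .z)))) (.a (.c .z (.c (.a (.b (.c .z
(.l 8)) .z) .z) (.a (.l 8) (.b (.c .z (.l 8)) .z)))) (.c .z (.a .z (.c .z (.a .z (.l 9)))))))) (.c (.b (.a (.c (.l 7) (.b (.l 7) (.a (.c (.l 7) (.b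
(.l 7) .z)) (.l 7)))) (.l 7)) (.a (.c (.b (.l 7) (.a (.c (.b (.l 7) .z) .z) (.l 7))) (.b (.a (.c (.b (.l 7) .z) .z) (.c (.l 7) (.b (.l 7) .z))) .z))
(.c (.l 7) (.b (.l 7) (.a (.c (.l 7) (.b (.l 7) .z)) (.l 7)))))) (.b (.a (.c (.b (.a (.c (.l 7) (.b (.l 7) .z)) (.l 7)) (.a .z (.c (.l 7) .z))) (.b
(.a .z (.c (.b (.l 7) .z) .z)) (.a (.c .z (.l 9)) .z))) (.c (.l 7) (.b (.a (.c (.l 7) (.b (.l 7) .z)) (.l 7)) (.a (.c (.b (.l 7) .z) .z) (.c (.l 7)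
(.a .z (.l 7))))))) (.a (.c (.b .z (.a .z (.c .z (.l 9)))) (.b (.a (.c (.a .z (.l 9)) (.l 9)) (.c (.b .z (.l 9)) (.l 9))) (.a (.c (.a .z (.l 9)) (.l
9)) (.l 9)))) (.c (.b (.a (.c (.b (.l 7) .z) .z) (.l 7)) (.a .z (.c (.a .z (.l 7)) .z))) (.a (.b .z (.c (.a (.l 9) .z) (.l 9))) (.b (.c (.a .z (.l 7))
.z) .z)))))))) (.a (.c (.c (.b (.c (.a .z (.b .z (.b .z (.l 29)))) .z) (.a (.c (.b .z (.a (.c .z (.l 15)) .z)) (.b (.a (.c .z (.l 15)) .z) (.l 15)))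
(.c (.b (.a .z (.l 29)) .z) .z))) (.b (.a .z (.c (.b (.a .z (.c (.c .z (.l 7)) (.l 7))) .z) (.b (.a .z (.c (.b (.l 7) .z) .z)) .z))) (.a (.c (.c (.l
15) (.a (.l 15) .z)) .z) .z))) (.c (.b .z (.a (.c .z (.a .z (.a .z (.l 39)))) (.c (.b .z (.l 39)) (.a (.l 39) .z)))) (.a .z (.c (.a (.c (.b .z (.l
39)) .z) (.c .z (.b .z (.a .z (.c .z (.l 9)))))) (.a (.c .z (.b (.a .z (.c .z (.l 9))) (.a (.c .z (.l 9)) (.l 9)))) (.c (.b (.a .z (.c .z (.l 9))) (.a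
(.c .z (.l 9)) (.l 9))) (.l 9))))))) (.c (.c (.b (.c (.a .z (.c (.a .z (.c .z (.a .z (.l 7)))) (.a (.c .z (.a .z (.l 7))) (.l 7)))) (.a (.c (.a .z (.c
.z (.a .z (.l 7)))) (.a (.c .z (.a .z (.l 7))) (.l 7))) (.l 7))) (.a (.c (.c (.l 29) (.a (.l 29) .z)) (.b (.c .z (.a .z (.c .z (.l 7)))) .z)) (.c (.c
.z (.a .z (.a (.c .z (.l 7)) (.l 7)))) (.a (.c (.c (.a .z (.l 7)) (.l 7)) (.l 7)) (.l 7))))) (.b (.a (.c (.b (.l 7) (.a (.c (.l 7) (.b (.l 7) .z)) (.l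
7))) (.b (.a (.c (.l 7) (.b (.l 7) .z)) (.l 7)) (.a .z (.c (.l 7) .z)))) (.l 7)) (.a (.c (.b (.a (.c (.b (.l 7) .z) .z) (.c (.l 7) (.b (.l 7) .z)))
.z) .z) (.c (.b (.l 7) (.a (.c (.l 7) (.b (.l 7) .z)) (.l 7))) (.a (.b (.c (.b (.l 7) .z) .z) .z) (.b (.l 7) (.c (.a .z (.l 7)) .z))))))) (.b (.c (.a
(.c (.b (.a .z (.c (.b (.l 7) .z) .z)) .z) .z) (.c (.b (.l 7) (.a (.c (.b (.l 7) .z) .z) (.l 7))) (.a (.b .z (.c .z (.a (.l 9) .z))) (.b (.c (.l 7)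
(.a .z (.l 7))) .z)))) (.a (.c (.a (.c .z (.a .z (.l 9))) (.c (.a (.b .z (.l 9)) (.l 9)) (.l 9))) (.l 9)) (.c (.a (.b (.c .z (.l 9)) (.l 9)) (.b .z
(.c .z (.a (.l 9) .z)))) (.a (.l 9) (.b (.c (.a (.l 9) .z) (.l 9)) (.l 9)))))) (.a (.c (.c .z (.a .z (.c (.a .z (.b .z (.l 9))) (.a (.b .z (.l 9)) (.l
9))))) (.c (.a (.c (.a .z (.l 9)) (.l 9)) (.l 9)) (.l 9))) (.c (.c (.a (.b .z (.c .z (.a .z (.l 9)))) (.b (.c (.a .z (.l 7)) .z) .z)) (.a (.b (.c (.a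
(.l 9) .z) (.l 9)) (.l 9)) (.b (.c .z (.a (.l 9) .z)) (.c (.a (.l 9) .z) (.l 9))))) (.b (.l 9) (.a (.l 9) (.c (.l 9) (.b (.l 9) (.a (.l 9)
.z))))))))))) (.b (.a (.c (.c (.a (.c (.a (.c (.l 8) (.c (.a (.l 8) (.b (.l 8) .z)) (.a (.b (.l 8) .z) .z))) (.c (.b (.c (.l 8) (.a (.l 8) .z)) (.a
(.c (.l 8) .z) .z)) (.a .z (.c .z (.b .z (.l 9)))))) (.a (.c (.a .z (.c .z (.b .z (.l 9)))) (.l 9)) (.c (.a (.c (.b .z (.l 9)) (.l 9)) (.l 9)) (.l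
9)))) (.c (.a (.c (.b .z (.a .z (.c .z (.l 9)))) (.a (.c (.b .z (.l 9)) (.l 9)) (.l 9))) (.c (.b (.a (.c .z (.l 9)) (.l 9)) (.l 9)) (.l 9))) (.l 9)))
(.c (.c (.l 9) (.a (.c (.l 9) (.a (.a (.b .z (.l 9)) (.l 9)) (.l 9))) (.l 9))) (.c (.a (.c (.a .z (.a .z (.b .z (.l 9)))) (.a (.b (.l 11) (.a (.l 11)
.z)) .z)) (.c (.l 9) (.a .z (.b (.a .z (.l 9)) (.l 9))))) (.a (.l 11) (.c (.a (.b (.a (.l 11) .z) .z) .z) (.a (.l 11) (.b (.l 11) .z))))))) (.c (.c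
(.l 11) (.b (.l 11) (.c (.l 11) (.b (.c (.l 11) (.a (.l 11) (.b (.l 11) .z))) (.c (.b (.l 11) (.a (.l 11) .z)) .z))))) (.c (.b (.c (.b (.l 11) (.c (.l
11) (.a (.b (.l 11) .z) .z))) (.b (.c (.a (.b (.l 11) .z) .z) .z) .z)) (.c (.b (.c (.a (.b (.l 11) .z) .z) .z) .z) .z)) .z))) (.b (.c (.c (.a (.c (.b
(.a (.c (.b .z (.l 9)) (.l 9)) (.c .z (.b .z (.l 9)))) (.l 9)) (.l 9)) (.c (.a (.b .z (.c .z (.a (.l 9) .z))) (.b (.c (.l 7) .z) .z)) (.a (.b (.c (.a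
(.l 9) .z) (.l 9)) (.l 9)) (.b .z (.c (.a (.l 9) .z) (.l 9)))))) (.a (.c (.l 9) (.c (.l 9) (.c (.a .z (.l 9)) .z))) (.c (.a (.l 9) (.b (.c (.a (.l 9)
.z) (.l 9)) (.l 9))) (.c (.l 9) (.c (.l 9) (.a (.a .z (.l 9)) (.l 9))))))) (.c (.c (.c (.a (.c (.a (.l 11) .z) (.l 11)) (.c (.a .z (.a .z (.l 9))) (.a
(.a (.l 11) .z) .z))) (.a (.l 11) (.c (.a (.l 11) (.b (.l 11) .z)) (.l 11)))) (.c (.l 11) (.b (.l 11) (.c (.l 11) (.a (.l 11) (.b (.l 11) .z)))))) (.c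
(.c (.b (.c (.a (.l 11) (.b (.l 11) .z)) (.a (.b (.l 11) .z) .z)) (.c (.a (.b (.l 11) .z) .z) .z)) .z) .z))) (.c (.c (.a (.l 9) (.c (.a (.l 9) (.b (.c
.z (.a (.l 9) .z)) (.l 9))) (.l 9))) (.c (.l 9) (.c (.l 9) (.a (.c (.a (.a .z (.l 9)) (.l 9)) (.a .z (.a .z (.l 9)))) (.l 9))))) (.a (.c (.c (.c (.c
(.a (.a (.l 11) .z) .z) (.a (.l 11) (.a (.l 11) .z))) (.l 11)) (.c (.l 11) (.b (.c (.l 11) .z) .z))) .z) (.b (.c (.c (.c (.c (.a .z (.l 9)) .z) (.c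
(.a (.l 11) .z) (.l 11))) (.c (.l 11) (.c (.b (.l 11) .z) .z))) (.c .z (.c .z (.a .z (.l 17))))) (.c (.c (.c (.c (.a .z (.l 9)) .z) (.a (.c .z (.l
11)) .z)) (.c (.c (.l 11) .z) .z)) (.a (.c .z (.c .z (.l 17))) .z))))))) (.a (.c (.c (.a (.c (.a (.c (.a (.b (.b (.l 8) .z) .z) .z) (.a .z (.c .z (.b
.z (.l 9))))) (.c (.a .z (.b .z (.c .z (.l 9)))) (.a (.b (.c .z (.l 9)) (.l 9)) (.l 9)))) (.a (.c (.a (.c (.b .z (.l 9)) (.l 9)) (.l 9)) (.l 9)) (.l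
9))) (.c (.a (.c (.a (.b (.c .z (.l 9)) (.l 9)) (.l 9)) (.l 9)) (.l 9)) (.l 9))) (.c (.l 9) (.c (.a (.c (.a .z (.l 9)) (.a (.a (.b (.l 11) .z) .z)
.z)) (.c (.l 9) (.a (.b (.a .z (.l 9)) (.l 9)) (.l 9)))) (.a (.c (.a (.l 11) (.b (.a (.l 11) .z) .z)) (.l 11)) (.c (.a .z (.b (.a .z (.l 9)) (.l 9)))
(.a (.b (.a (.l 11) .z) .z) .z)))))) (.b (.c (.c (.c (.a (.l 11) (.c (.a (.l 11) (.a (.l 11) .z)) (.l 11))) (.l 11)) (.c (.b (.c (.l 11) (.b (.l 11)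
(.a (.l 11) .z))) (.c (.b (.a (.l 11) .z) .z) .z)) .z)) .z) (.a (.b (.c (.c (.c (.l 11) (.c (.l 11) (.b (.l 11) .z))) .z) .z) (.c (.c (.c (.l 11) .z)
.z) .z)) (.b (.c (.c (.c (.c (.a (.l 11) .z) (.l 11)) (.c (.b (.l 11) .z) .z)) .z) .z) (.c (.a (.c (.c (.c (.l 11) .z) .z) .z) .z) .z))))) (.c (.b (.a
(.c (.l 9) (.c (.l 9) (.c (.l 9) (.c (.l 9) (.a .z (.l 9)))))) (.c (.l 9) (.b (.l 9) (.a (.l 9) (.c (.l 9) (.b (.a (.l 9) .z) .z)))))) (.a (.c (.l 9)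
(.b (.a (.l 9) (.c (.l 9) (.b (.l 9) (.a (.l 9) .z)))) (.a (.c (.l 9) (.b (.l 9) (.a (.l 9) .z))) (.c (.b (.a (.l 9) .z) .z) .z)))) (.c (.b (.a (.l 9)
(.c (.l 9) (.b (.l 9) .z))) (.a (.c (.b (.l 9) (.a (.l 9) .z)) (.b (.a (.l 9) .z) .z)) (.c .z (.b .z (.a .z (.l 9)))))) (.b (.a (.c (.b (.l 9) (.a (.l
9) .z)) (.b (.a (.l 9) .z) .z)) (.c .z (.b .z (.a .z (.l 9))))) (.a (.c .z (.b .z (.l 9))) (.c (.b (.a .z (.l 9)) (.l 9)) (.c (.l 9) (.c (.l 9)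
.z)))))))) (.b (.a (.b (.c (.c (.c (.c .z (.a (.l 11) .z)) (.l 11)) (.c (.c (.b (.l 11) .z) .z) .z)) .z) (.c (.c (.c .z (.a (.c (.l 11) .z) .z)) .z)
.z)) (.b (.c (.a (.c (.c (.c (.l 9) .z) (.c .z (.l 11))) .z) (.b (.c (.c (.l 9) .z) .z) (.c (.c (.l 9) .z) .z))) .z) (.c .z (.a .z (.b (.c .z (.c .z
(.l 13))) .z))))) (.a (.b .z (.c (.a .z (.b .z (.c .z (.l 25)))) (.a (.b .z (.c (.l 25) .z)) (.c (.l 25) .z)))) (.b .z (.c (.c (.c .z (.c (.b .z (.l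
10)) (.a .z (.l 10)))) (.c .z (.a (.l 25) .z))) (.c (.c (.a (.l 25) .z) .z) .z)))))))))

theorem vQ124 : ev3 Q124 J4_3 J4_9 J3_6 = 244011407269887318238795 := by decide +kernel

noncomputable def Q105 : QT3 :=
(.c .z (.a (.b (.c (.a (.b (.c .z (.b (.c (.c .z (.a (.c .z (.a (.c .z (.l 24)) .z)) (.a (.c .z (.l 17)) (.c .z (.l 17))))) (.a (.c (.c (.a (.l 24)
(.a (.l 24) .z)) (.l 24)) (.l 24)) (.a (.c .z (.b (.c .z (.l 24)) .z)) (.c (.a (.c (.l 17) .z) (.l 17)) (.a .z (.b .z (.l 17))))))) (.c (.a .z (.c .z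
(.c .z (.l 17)))) (.b (.c (.a (.a (.l 24) .z) (.a (.a .z (.l 17)) (.l 17))) (.b (.c (.a (.l 24) .z) .z) .z)) (.c (.b (.c (.a .z (.l 17)) .z) .z) (.b
.z (.c .z (.a (.l 14) .z)))))))) (.c .z (.a (.b (.c .z (.b (.c .z (.b (.l 14) .z)) .z)) .z) .z))) (.b (.c .z (.b (.c (.a (.c .z (.c .z (.l 17))) (.c
.z (.c .z (.l 17)))) (.b (.l 17) (.c (.l 17) (.b (.l 17) (.c (.l 17) (.a (.l 17) .z)))))) (.c (.b (.c .z (.c .z (.l 17))) (.c .z (.b (.c .z (.l 17))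
(.c .z (.a (.l 17) .z))))) (.b (.c (.b (.l 17) (.c (.l 17) (.a (.l 17) .z))) (.b (.c (.a (.l 17) .z) .z) .z)) (.c (.b (.c (.a (.l 17) .z) .z) .z)
.z))))) .z)) (.b (.c (.b (.c (.b (.c (.b (.a (.a (.l 24) .z) (.a (.a .z (.l 17)) (.l 17))) (.c (.a (.a (.l 24) .z) (.l 17)) .z)) (.b (.c (.a .z (.a .z
(.l 17))) .z) .z)) (.c (.b (.c (.a .z (.a (.l 17) .z)) .z) .z) (.b .z (.c .z (.c .z (.a (.l 14) .z)))))) (.b (.c (.b .z (.c .z (.a (.b .z (.l 14)) (.l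
14)))) (.b (.a (.c (.b .z (.l 14)) (.l 14)) (.l 14)) (.l 14))) (.a (.l 14) (.a (.l 14) (.c (.a (.l 14) (.b (.l 14) .z)) (.l 14)))))) (.c (.b (.c (.b
.z (.c .z (.c .z (.a (.l 14) .z)))) (.c (.b (.c .z (.a (.l 14) .z)) (.a (.l 14) .z)) (.a (.l 14) (.a (.l 14) .z)))) (.c (.c (.b (.c .z (.a (.l 14)
.z)) (.a (.a (.l 14) .z) .z)) (.a (.l 14) .z)) (.a (.l 14) (.a (.a (.b (.l 14) .z) .z) .z)))) (.a (.l 14) (.b (.a (.l 14) (.a (.b (.l 14) (.c .z (.l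
14))) .z)) (.a (.b (.a (.l 14) (.c .z (.l 14))) (.a (.c .z (.l 14)) .z)) (.a .z (.b .z (.l 27)))))))) (.b (.l 14) (.b (.a (.l 14) (.a (.l 14) (.c (.b
(.l 14) (.a (.l 14) .z)) (.l 14)))) (.a (.l 14) (.a (.b (.l 14) (.c (.a (.l 14) (.b (.l 14) .z)) (.l 14))) (.b (.a (.c (.b (.l 14) .z) (.l 14)) .z)
.z)))))) (.c (.a (.b (.b (.b (.c (.a (.l 14) (.a (.c .z (.l 14)) .z)) (.a (.l 14) (.a (.l 14) (.b (.l 14) .z)))) (.a (.b (.l 14) (.c (.c .z (.l 14))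
(.l 14))) (.a (.b (.c .z (.l 14)) .z) .z))) (.a (.b (.b (.c .z (.a (.l 14) .z)) .z) .z) (.a .z (.b (.b (.l 27) .z) .z)))) .z) (.a (.b (.b (.b .z (.a
(.b .z (.l 27)) (.l 27))) (.b (.b (.l 27) .z) .z)) .z) (.b (.c (.b (.c .z (.b .z (.l 27))) (.b (.b (.l 27) .z) .z)) (.b (.l 27) (.b (.b (.l 27) .z)
.z))) .z))) (.c (.a (.b (.b (.b (.l 14) (.a (.l 14) (.b (.a (.l 14) .z) .z))) (.a (.b (.b (.a (.l 14) .z) .z) .z) .z)) .z) (.b (.b (.a (.b (.a (.b (.l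
14) .z) .z) (.a .z (.l 27))) (.b (.a .z (.l 27)) (.l 27))) (.b (.b (.l 27) .z) .z)) .z)) (.b (.a (.b (.b (.l 14) (.b (.l 14) (.a (.l 14) (.a (.l 14)
.z)))) (.b (.a (.b (.a (.l 14) .z) .z) .z) .z)) (.b (.a (.b (.a (.b (.l 14) .z) .z) .z) (.b (.a .z (.l 27)) (.l 27))) (.b (.b (.l 27) .z) .z)))
.z))))) .z) (.b (.c (.a (.b (.c .z (.b (.c (.c .z (.c .z (.l 17))) (.b (.c (.l 17) (.a (.l 17) (.b (.l 17) (.c (.l 17) .z)))) (.c (.a (.l 17) (.b (.l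
17) (.c (.l 17) .z))) (.a (.b (.c (.l 17) .z) .z) .z)))) (.c (.b (.c .z (.a (.c .z (.l 17)) (.b (.c .z (.l 17)) .z))) .z) (.b (.c (.a (.b (.c (.l 17)
.z) .z) .z) .z) (.c (.a .z (.b .z (.l 29))) .z))))) .z) (.b (.c .z (.b (.c (.b (.c .z (.c .z (.l 17))) (.c .z (.a (.b (.c .z (.l 17)) .z) .z))) (.b
(.c (.a (.l 17) (.b (.c (.l 17) .z) .z)) (.a (.b (.c (.l 17) .z) .z) .z)) (.c (.a (.b (.c (.l 17) .z) .z) .z) .z))) (.c (.b .z (.c .z (.a .z (.c .z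
(.l 29))))) (.b (.c (.a .z (.b .z (.l 29))) (.a (.b .z (.l 29)) (.l 29))) (.c (.l 29) (.c (.l 29) (.b (.l 29) .z))))))) (.c .z (.a (.b (.c .z (.c (.b
(.c (.l 29) .z) .z) .z)) .z) (.b (.c .z (.c (.b (.l 29) .z) .z)) .z))))) (.b (.c (.b (.c (.a (.b (.c (.a (.b (.l 17) .z) .z) (.a .z (.b .z (.c .z (.l
18))))) (.c (.a .z (.b (.c .z (.l 18)) .z)) .z)) (.b (.c (.a (.b .z (.c .z (.l 18))) .z) (.b (.a (.l 18) (.a (.l 18) .z)) (.a (.b (.l 18) .z) .z)))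
(.c (.a .z (.b .z (.l 29))) .z))) (.a (.b (.c .z (.c .z (.a (.l 14) .z))) (.c .z (.a (.a (.b (.l 14) .z) .z) (.a .z (.l 52))))) (.c (.b (.c (.b (.a
(.l 18) .z) .z) (.b (.a (.l 18) .z) .z)) .z) .z))) (.c (.c (.b (.a .z (.c (.l 29) (.b (.l 29) .z))) .z) .z) (.c (.b (.a (.a (.a .z (.l 52)) (.c .z (.l
52))) .z) .z) (.a (.a .z (.b (.l 52) .z)) (.a (.a (.l 52) .z) .z))))) (.c (.b (.c (.b (.a (.a (.l 14) (.a (.b (.l 14) .z) .z)) .z) (.a (.a (.a (.l 14)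
.z) .z) (.a (.a (.l 52) .z) .z))) (.a (.a (.b (.l 14) (.a (.l 14) (.b (.l 14) .z))) (.b (.a (.l 14) .z) .z)) (.a (.b .z (.a (.l 52) .z)) .z))) (.a (.a
(.b .z (.a (.b .z (.l 27)) (.b .z (.l 27)))) (.b (.a .z (.b (.l 52) .z)) .z)) (.a (.b (.a (.a (.l 52) .z) .z) .z) (.c .z (.a (.a (.l 48) .z) .z)))))
(.a (.b (.a (.l 14) (.b (.a (.l 14) (.b (.l 14) (.c .z (.l 14)))) (.a (.b (.c .z (.l 14)) .z) .z))) (.a (.b (.b (.a (.l 14) .z) .z) (.b .z (.a .z (.l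
27)))) (.b .z (.b (.a (.l 27) .z) (.l 27))))) .z))) (.c (.c .z (.a (.a (.b (.b (.c (.b .z (.l 27)) (.l 27)) (.b (.b (.l 27) .z) (.l 77))) .z) .z) .z))
(.c (.a (.b (.b (.a (.l 27) (.b (.c .z (.l 27)) (.l 27))) (.b (.b (.l 27) .z) (.a .z (.l 77)))) .z) .z) (.a (.b (.c (.b (.l 27) (.b (.b (.l 27) .z)
.z)) (.a (.b (.l 27) .z) (.b (.l 27) .z))) .z) (.b (.c (.a (.b (.a (.l 27) .z) .z) .z) (.a .z (.b (.c .z (.a .z (.l 15))) .z))) .z)))))) .z)))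

theorem vQ105 : ev3 Q105 J3_0 J3_5 J2_2 = 191444622612203093229931 := by decide +kernel

noncomputable def Q30 : QT3 :=
(.a (.c (.c (.a .z (.b (.c (.a .z (.b .z (.b (.b .z (.b .z (.l 14))) (.a .z (.c (.l 14) .z))))) .z) .z)) (.a (.a (.b .z (.a (.b (.c .z (.l 58)) .z)
.z)) (.c (.b (.a .z (.b .z (.c .z (.l 44)))) .z) (.a .z (.b (.c (.a .z (.l 44)) .z) .z)))) (.b (.c .z (.a (.a .z (.c .z (.b (.a .z (.l 22)) (.b .z (.l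
20))))) (.a (.c (.b .z (.b .z (.l 20))) (.b (.l 22) (.b .z (.l 20)))) (.b (.b .z (.c .z (.l 22))) (.b (.b (.l 22) .z) (.l 20)))))) (.a (.c .z (.b (.a
(.c .z (.a .z (.l 20))) (.l 20)) (.a (.c (.a .z (.l 20)) (.l 20)) (.c (.b (.l 20) .z) (.l 20))))) (.c .z (.b (.a (.l 20) (.c .z (.b (.l 20) .z))) (.a
(.c .z (.b (.l 20) .z)) .z))))))) (.a (.c (.a (.c (.a (.b .z (.b .z (.a (.b .z (.c .z (.l 12))) .z))) .z) (.a (.c (.a (.b .z (.b .z (.l 12))) .z) .z)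
(.c (.a .z (.b .z (.c .z (.l 20)))) (.a (.c .z (.b .z (.l 20))) (.b (.b (.l 22) .z) (.l 20)))))) (.c (.a (.c .z (.b .z (.a .z (.c .z (.l 20))))) (.b
.z (.c (.a .z (.l 20)) (.l 20)))) (.a (.c (.b (.a .z (.b (.l 22) .z)) (.l 20)) (.b (.b (.l 22) (.b .z (.l 20))) (.l 20))) (.b (.b (.l 22) (.b (.b (.l
22) .z) (.l 20))) (.l 20))))) (.a (.c (.a (.c (.a (.c .z (.b .z (.l 20))) (.b (.b (.l 22) .z) (.l 20))) (.b (.b (.l 22) (.b .z (.l 20))) (.l 20))) (.b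
(.b (.l 22) (.b (.b (.l 22) .z) (.l 20))) (.l 20))) (.b (.b (.l 22) (.b (.b (.l 22) (.b .z (.l 20))) (.l 20))) (.l 20))) (.b (.b (.l 22) (.b (.b (.l
22) (.b .z (.l 20))) (.l 20))) (.l 20)))) (.c (.b (.a (.c (.a (.c (.b (.a .z (.l 22)) (.b .z (.l 20))) (.b (.l 22) (.b .z (.l 20)))) (.b (.l 22) (.b
(.b (.l 22) .z) (.l 20)))) (.b (.l 22) (.b (.b (.l 22) (.b .z (.l 20))) (.l 20)))) (.b (.l 22) (.b (.b (.l 22) (.b .z (.l 20))) (.l 20)))) (.a (.l 20)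
(.c (.b (.l 20) (.a (.l 20) (.c .z (.b (.l 20) .z)))) (.l 20)))) (.b (.b (.l 22) (.b (.b (.l 22) (.b .z (.l 20))) (.l 20))) (.l 20))))) (.b (.c (.a
(.c (.a (.c (.b (.a .z (.c .z (.l 37))) (.b (.b .z (.b .z (.l 14))) (.l 14))) (.b (.c (.a .z (.l 37)) .z) (.b (.b .z (.b .z (.l 14))) (.a .z (.l
14))))) (.b (.l 37) (.b (.b (.l 37) (.b .z (.l 14))) (.l 14)))) (.a (.c .z (.b .z (.a (.c .z (.b .z (.l 20))) .z))) (.c (.b (.a .z (.c (.l 37) .z))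
(.b (.b .z (.b .z (.l 14))) (.a (.c (.l 14) .z) (.l 14)))) .z))) (.c (.b (.a (.a (.c (.l 37) (.c (.l 37) .z)) .z) .z) (.b (.b .z (.b .z (.l 14))) (.l
14))) (.a (.b .z (.b (.b .z (.b .z (.l 14))) (.l 14))) (.b .z (.b (.b .z (.b .z (.l 14))) (.l 14)))))) (.a (.c (.a (.b (.c (.b (.c .z (.a (.l 22) .z))
(.a (.l 22) (.c .z (.l 22)))) (.l 22)) (.b (.b (.l 22) (.b .z (.l 20))) (.l 20))) (.b (.c .z (.a (.c (.b .z (.l 22)) (.l 22)) (.c .z (.b .z (.l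
22))))) (.c .z (.a (.b (.b (.l 22) .z) (.l 20)) (.b (.b (.l 22) .z) (.c .z (.l 20))))))) (.b (.l 22) (.b (.b (.l 22) (.b .z (.l 20))) (.l 20)))) (.b
(.c .z (.a (.c (.a (.c (.a (.l 22) .z) (.l 22)) (.c .z (.a (.l 22) .z))) (.l 22)) (.c .z (.a (.c .z (.l 22)) .z)))) (.c (.a (.c (.a .z (.b .z (.c (.l
14) .z))) .z) (.c (.b (.b .z (.b .z (.l 14))) (.l 14)) (.a (.b .z (.c (.l 14) .z)) (.b .z (.l 14))))) (.a (.c (.a (.b (.b (.l 22) .z) (.c .z (.l 20)))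
.z) (.a (.b (.b (.l 22) .z) (.l 20)) (.b (.b (.l 22) .z) (.c .z (.l 20))))) .z))))) (.c (.a (.c (.a (.b (.c (.a (.b (.c (.l 14) .z) .z) (.b (.l 14)
(.c (.l 14) .z))) .z) .z) (.b (.c (.l 14) (.a (.b (.l 14) (.c (.l 14) .z)) (.l 14))) (.c (.a (.b (.l 14) (.c (.l 14) .z)) (.l 14)) (.a .z (.c (.b (.l
14) .z) .z))))) (.a .z (.b (.c (.a .z (.c (.b (.l 14) .z) .z)) .z) .z))) (.b (.c (.l 14) (.a (.c (.l 14) (.a (.c (.a .z (.l 14)) .z) (.l 14))) (.l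
14))) (.c (.a (.l 14) (.b (.l 14) (.c (.l 14) (.a (.l 14) (.b (.l 14) .z))))) (.a (.b (.a (.c (.a .z (.l 14)) .z) (.l 14)) (.c (.a (.a .z (.l 14)) (.l
14)) .z)) (.b (.c (.a (.l 14) (.b (.l 14) .z)) (.a (.b (.l 14) .z) .z)) (.c (.a (.b (.l 14) .z) .z) .z)))))) (.a (.b (.c (.a (.c (.a (.c (.b (.l 20)
.z) (.l 20)) .z) (.a (.l 20) (.b (.l 20) (.c .z (.l 20))))) (.c .z (.a (.b (.c .z (.l 20)) .z) .z))) (.a (.l 20) (.b (.c (.a (.l 20) (.c .z (.l 20)))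
(.l 20)) (.c (.a (.l 20) .z) (.a (.l 20) (.b (.l 20) .z)))))) (.c (.a (.c .z (.a (.b (.l 20) (.c .z (.l 20))) .z)) .z) (.a (.b (.l 20) (.c (.a (.l 20)
(.b (.l 20) .z)) (.a (.b (.l 20) .z) .z))) (.b .z (.c .z (.a (.b .z (.c .z (.l 6))) (.b (.c .z (.l 6)) (.l 6)))))))) (.b (.c (.a (.b (.c (.a .z (.c
(.l 14) .z)) .z) .z) (.b (.c (.l 14) (.a (.a .z (.l 14)) .z)) (.c (.a (.b (.l 14) .z) .z) .z))) (.a (.b (.c .z (.a (.b (.l 20) .z) .z)) .z) (.b .z (.c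
(.a .z (.b .z (.l 19))) (.a .z (.c (.l 19) .z)))))) (.c (.a (.b .z (.c .z (.a .z (.b .z (.l 19))))) (.b (.c .z (.a .z (.l 19))) (.c (.a .z (.l 19))
(.l 19)))) (.a (.b (.c .z (.a (.b .z (.c .z (.l 6))) (.c .z (.c .z (.l 6))))) (.c (.a .z (.l 19)) (.c .z (.l 6)))) (.c (.l 19) (.c (.a (.c (.l 19) .z)
(.l 19)) (.a (.c .z (.a (.l 6) .z)) .z))))))))))

theorem vQ30 : ev3 Q30 J3_1 J4_5 J4_11 = 210525391530648363259005 := by decide +kernel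

noncomputable def Q48 : QT3 :=
(.b (.c (.c (.a (.c (.b (.c (.b .z (.a .z (.a .z (.c (.b .z (.l 15)) .z)))) (.b (.a (.c .z (.a (.l 32) .z)) .z) (.a (.a (.l 32) .z) .z))) (.c .z (.b
(.a (.c .z (.a (.l 32) .z)) .z) .z))) (.b (.c (.a (.c .z (.c .z (.a (.l 36) .z))) .z) (.a (.l 36) .z)) (.c .z (.b (.a (.c (.c .z (.l 36)) (.l 36)) .z)
(.a (.c (.c .z (.l 36)) (.l 36)) .z))))) (.a (.c (.b (.c (.a (.b (.c (.b .z (.l 15)) .z) (.c (.l 15) (.b .z (.l 15)))) (.b (.c (.l 15) (.a .z (.l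
15))) (.l 15))) (.a .z (.b .z (.a (.c (.l 15) .z) (.l 15))))) (.c (.a (.c (.b (.b (.l 15) .z) .z) .z) (.c (.b (.l 15) (.a .z (.l 15))) (.a (.b (.l 15)
.z) (.l 15)))) (.a .z (.c (.a .z (.b (.l 15) .z)) .z)))) (.b (.a (.c .z (.c (.a .z (.c .z (.l 18))) (.l 18))) (.c .z (.b (.l 18) (.a (.b (.l 18) .z)
.z)))) .z)) (.b (.c (.a (.c (.l 15) (.b (.a (.c (.l 15) .z) (.l 15)) (.l 15))) (.l 15)) (.a (.b .z (.c (.a .z (.c (.l 15) .z)) .z)) (.b (.c (.l 15)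
(.a .z (.b .z (.l 15)))) (.c (.l 15) (.a .z (.c (.l 15) .z)))))) (.c (.a (.c (.l 15) (.a (.c (.l 15) (.b (.l 15) .z)) (.l 15))) (.l 15)) (.a (.b (.c
(.a .z (.c (.l 15) .z)) (.a (.b .z (.l 19)) (.c .z (.l 19)))) (.c .z (.a (.l 19) (.c .z (.l 19))))) (.c (.a (.c (.l 15) (.a .z (.l 15))) (.c (.l 15)
(.b (.l 15) .z))) .z)))))) (.a (.c (.c (.a (.c (.c (.a (.l 36) (.b (.l 36) .z)) (.a (.l 36) .z)) (.c .z (.a .z (.a .z (.a .z (.l 18)))))) (.a (.c (.a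
.z (.c .z (.b .z (.l 18)))) (.a (.c (.b .z (.l 18)) (.l 18)) (.l 18))) (.c (.a (.b (.c .z (.l 18)) (.l 18)) (.l 18)) (.l 18)))) (.a .z (.a (.b (.c (.a
.z (.c (.l 18) .z)) .z) (.c (.a .z (.c (.l 18) .z)) .z)) (.c (.l 18) (.a (.c (.l 18) .z) (.b (.c (.l 18) .z) (.l 18))))))) (.a (.c (.b .z (.c (.b .z
(.a (.l 48) .z)) .z)) (.b (.c .z (.b (.c .z (.l 27)) .z)) .z)) (.c .z (.a (.b (.c .z (.a .z (.l 27))) .z) (.b (.l 27) (.a .z (.c (.l 27) .z))))))) (.a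
(.b (.c (.c (.a (.c (.l 18) (.a (.l 18) (.c (.l 18) .z))) (.a (.c (.l 18) .z) .z)) (.a (.c (.a (.c (.l 18) .z) .z) .z) .z)) (.a (.c .z (.l 27)) (.c
(.c (.c (.a .z (.l 23)) .z) .z) (.l 27)))) (.c (.a (.b (.c (.l 18) (.a (.c (.l 18) .z) .z)) (.c (.b (.a (.l 18) .z) .z) (.a (.c (.l 18) .z) .z))) .z)
(.a (.c .z (.c (.l 27) (.c (.l 27) .z))) (.b (.c (.c (.l 23) .z) .z) (.c (.a (.c (.l 23) .z) .z) .z))))) (.b (.c (.a (.b (.c (.a (.c .z (.l 19)) (.b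
(.l 19) .z)) (.c (.a .z (.l 19)) .z)) .z) (.b (.c .z (.a (.b (.l 19) .z) .z)) .z)) (.a (.c (.a (.c (.l 23) .z) (.c .z (.c (.l 23) .z))) (.c (.c .z (.l
27)) (.c (.l 27) .z))) .z)) (.a (.c .z (.b (.a (.c (.c (.l 23) .z) .z) .z) .z)) .z))))) (.a (.c (.c (.a (.c .z (.b (.b (.c .z (.c (.l 36) .z)) .z)
.z)) .z) .z) .z) (.a .z (.b (.a (.c (.c (.c .z (.a (.c .z (.l 39)) .z)) .z) .z) .z) .z)))) (.b (.c (.a (.c (.c (.c (.a .z (.b (.c (.a .z (.a (.l 14)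
.z)) .z) (.a .z (.c (.l 14) .z)))) .z) (.b (.c (.a .z (.a .z (.b .z (.c .z (.l 22))))) (.a (.b (.c .z (.l 36)) (.c .z (.l 36))) .z)) (.c (.a .z (.a
(.c .z (.l 22)) (.c (.a (.l 22) .z) (.l 22)))) (.a (.b .z (.c (.b .z (.l 22)) .z)) (.a (.b .z (.c (.l 22) .z)) (.b (.c (.l 22) .z) (.l 22))))))) (.c
(.b (.a .z (.c (.a (.c (.a .z (.l 18)) (.l 18)) (.b (.c .z (.l 18)) .z)) (.a .z (.c (.l 18) (.a .z (.l 18)))))) (.a .z (.c (.a .z (.b .z (.c (.l 22)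
.z))) .z))) (.b (.a (.c (.c (.a (.l 48) .z) .z) .z) .z) .z))) (.c (.a (.c (.c (.a (.c (.b .z (.a (.l 14) .z)) (.b (.a (.l 14) .z) (.l 14))) .z) (.a
(.c (.a .z (.l 14)) .z) (.a (.c (.b .z (.l 14)) (.l 14)) (.c .z (.b .z (.l 14)))))) (.a (.b (.c .z (.b (.a .z (.l 22)) (.a (.l 22) .z))) (.c .z (.a
(.l 22) (.c .z (.l 22))))) (.c (.a .z (.c (.l 14) .z)) .z))) (.c (.a (.c (.a (.c (.b (.l 15) .z) (.b (.l 15) .z)) (.l 15)) (.a .z (.c (.l 15) .z)))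
(.l 15)) (.a (.c .z (.a (.c (.a .z (.l 19)) (.l 19)) (.c (.l 19) (.a (.l 19) .z)))) (.c (.a (.c (.a .z (.l 15)) .z) .z) (.a .z (.c .z (.a .z (.l
18)))))))) (.a .z (.a .z (.c (.a .z (.c (.b (.c (.l 18) .z) .z) .z)) .z))))) .z) (.a (.c (.c (.c (.c (.a .z (.a .z (.c (.a (.c (.l 14) .z) (.l 14))
(.a .z (.c (.l 14) .z))))) .z) (.b (.a (.c (.c .z (.c .z (.a .z (.l 22)))) (.b (.c (.l 22) (.b .z (.l 22))) (.l 22))) (.c (.a (.c .z (.l 22)) (.c .z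
(.a (.l 22) .z))) (.l 22))) (.a (.c (.c .z (.a (.c .z (.l 22)) (.c .z (.l 22)))) (.l 22)) (.c (.a (.c .z (.l 22)) (.c .z (.a (.l 22) .z))) (.l 22)))))
(.c (.b (.a .z (.c (.a (.b .z (.c (.l 22) .z)) (.l 22)) .z)) (.a .z (.c (.a (.c (.l 22) .z) (.l 22)) (.a .z (.a .z (.c (.l 22) .z)))))) .z)) .z) (.c
(.a (.c (.c (.a (.c (.l 14) (.a .z (.c (.l 14) .z))) (.c (.a (.c (.b .z (.l 14)) (.l 14)) .z) (.l 14))) (.a (.c .z (.a (.c .z (.b (.l 22) .z)) .z))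
(.c (.a .z (.c (.l 14) (.a .z (.l 14)))) .z))) (.c (.a (.c (.a (.l 22) (.c (.b (.l 22) .z) .z)) .z) .z) .z)) (.c (.c (.a (.c (.a .z (.c .z (.b (.l 15)
.z))) (.a (.c .z (.b .z (.l 14))) .z)) (.c (.a (.b (.l 15) (.c .z (.l 15))) (.l 15)) (.a (.c (.l 15) .z) (.c (.a (.l 15) .z) .z)))) (.a (.c (.a (.c
(.l 14) .z) (.c .z (.a .z (.l 19)))) .z) .z)) (.b (.a .z (.c .z (.c .z (.c (.c (.l 25) .z) .z)))) (.a (.c .z (.c .z (.c (.c (.l 25) .z) .z))) .z))))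
.z))))

theorem vQ48 : ev3 Q48 J3_0 J4_4 J3_7 = 109892902265105692543168 := by decide +kernel

noncomputable def Q183 : QT3 :=
(.c (.a (.b (.c (.a (.b .z (.c .z (.a .z (.b .z (.c .z (.c .z (.l 26))))))) (.b .z (.c .z (.a (.b .z (.c .z (.c (.l 26) .z))) (.c .z (.b (.c .z (.l
26)) .z)))))) (.a (.b (.c .z (.a .z (.b .z (.c .z (.c .z (.l 25)))))) (.c (.a (.b .z (.c (.c (.l 26) .z) .z)) (.c (.c (.b (.l 26) .z) .z) .z)) (.c .z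
(.c .z (.a .z (.l 25)))))) (.b (.c .z (.c .z (.a (.a (.a (.l 25) .z) .z) (.l 29)))) (.c .z (.c .z (.a (.a (.l 25) .z) (.a .z (.l 29)))))))) (.c (.a
(.b (.c .z (.a (.b (.c .z (.b (.l 26) .z)) .z) .z)) .z) .z) (.c .z (.b (.c (.a (.c (.c .z (.l 28)) (.a (.l 28) .z)) .z) (.a .z (.a (.c .z (.a (.l 25)
.z)) (.a .z (.l 29))))) (.c (.a (.c (.c .z (.l 28)) (.l 28)) .z) .z))))) (.b (.c .z (.c .z (.c (.a .z (.c (.c .z (.a .z (.l 28))) (.c (.l 28) .z)))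
(.c (.a (.l 29) (.c .z (.b (.l 29) .z))) (.l 29))))) (.c .z (.c .z (.a (.c (.a .z (.c .z (.c (.l 28) .z))) (.c (.c .z (.b (.l 29) .z)) (.b (.l 29) (.b
(.l 29) .z)))) (.c (.c (.c .z (.l 28)) (.c (.l 28) (.a .z (.l 28)))) (.c .z (.b (.a (.l 29) .z) .z)))))))) (.b (.c (.c (.a (.a (.a (.b (.b .z (.b .z
(.c (.l 25) .z))) (.l 25)) (.a (.b (.b .z (.b .z (.l 25))) (.l 25)) (.c (.b (.b .z (.l 25)) (.l 25)) (.b .z (.a (.l 25) .z))))) (.a (.a (.c (.a (.b .z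
(.l 25)) .z) .z) (.c (.a .z (.l 29)) (.l 29))) (.l 29))) (.b (.l 29) (.c (.l 29) (.b (.l 29) (.c (.l 29) (.a (.l 29) .z)))))) (.a (.b (.c (.a .z (.l
29)) (.a .z (.c (.l 29) (.b (.l 29) .z)))) (.c (.a (.b (.a (.b .z (.l 25)) (.a (.l 25) .z)) .z) (.a .z (.b (.l 29) .z))) .z)) (.b (.c (.l 29) (.c (.b
(.l 29) .z) .z)) (.c (.b (.c (.l 29) .z) .z) .z)))) (.b (.c (.a (.c .z (.a (.b (.c .z (.a (.b .z (.l 12)) .z)) (.c .z (.l 12))) .z)) .z) (.a (.a (.c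
(.b (.c (.a (.l 12) (.b .z (.l 12))) (.l 12)) (.l 12)) (.c (.a (.c (.a .z (.l 12)) .z) (.l 12)) (.a .z (.c (.a .z (.l 12)) .z)))) (.c (.b (.c .z (.a
(.b .z (.l 12)) .z)) (.a (.l 12) (.c .z (.l 12)))) (.b (.a (.l 12) (.c (.b .z (.l 12)) (.l 12))) (.l 12)))) (.a (.c .z (.b (.a (.c .z (.b .z (.l 12)))
.z) (.a (.l 12) (.c .z (.l 12))))) (.c (.b (.c (.l 42) .z) (.a .z (.l 42))) .z)))) (.c (.a (.a (.c (.b (.c .z (.a .z (.b .z (.l 12)))) (.a (.c .z (.a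
.z (.l 12))) (.c (.a .z (.l 12)) (.l 12)))) (.a (.c (.a (.b .z (.l 12)) (.l 12)) (.l 12)) (.l 12))) (.c (.b .z (.a (.c .z (.l 12)) .z)) (.b (.a (.c
(.b .z (.l 12)) (.l 12)) (.c .z (.b .z (.l 12)))) (.l 12)))) (.a (.c .z (.b .z (.a (.c .z (.b .z (.l 12))) .z))) .z)) (.b (.c (.a (.l 12) (.a (.a (.c
(.b .z (.l 12)) (.l 12)) (.c .z (.b .z (.l 12)))) .z)) (.b (.a (.a (.a .z (.c (.l 12) .z)) (.l 12)) (.a (.l 12) (.a (.c .z (.l 12)) .z))) (.c (.a (.a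
(.a .z (.l 12)) (.l 12)) (.a (.l 12) .z)) (.b (.a .z (.a (.l 12) .z)) .z)))) (.c (.b (.c (.a (.l 12) (.a (.a (.l 12) .z) .z)) (.b (.a (.l 12) (.a (.l
12) .z)) (.a (.c (.l 12) .z) (.a (.l 12) .z)))) (.c (.b (.a (.c (.l 12) .z) (.a (.l 12) .z)) .z) .z)) (.b (.c .z (.b .z (.a (.a .z (.l 13)) .z))) (.c
(.a .z (.b .z (.c .z (.l 13)))) (.a (.a (.c .z (.l 13)) (.l 13)) (.l 13))))))))) (.c (.b (.c (.a (.c (.a (.b (.c (.a .z (.l 25)) (.l 25)) (.c (.a .z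
(.l 25)) (.a .z (.l 25)))) (.a (.a (.a (.l 25) .z) .z) (.l 29))) (.a (.b (.c (.l 25) .z) .z) (.b (.a .z (.l 29)) .z))) (.b (.c (.l 29) (.c (.a (.l 29)
.z) .z)) (.a (.c (.l 29) .z) (.c (.c (.l 29) .z) .z)))) (.b (.a (.c .z (.a (.c .z (.a .z (.a .z (.l 12)))) (.a (.c .z (.b .z (.l 12))) .z))) .z) (.c
.z (.b (.a (.a (.a .z (.c .z (.l 12))) (.a (.l 12) .z)) .z) .z)))) (.c .z (.b (.c .z (.b .z (.c (.a (.b .z (.l 21)) .z) .z))) (.c (.b (.c .z (.a (.l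
21) .z)) (.c (.a (.l 21) .z) (.l 21))) (.a (.c (.l 21) (.c (.l 21) (.b .z (.l 21)))) (.c (.l 21) .z)))))) (.b (.c (.b (.c (.b (.a (.a (.a (.c .z (.l
12)) (.l 12)) (.a (.l 12) (.c .z (.l 12)))) .z) (.c (.a (.a (.a .z (.l 12)) (.l 12)) .z) (.b (.a (.l 12) .z) .z))) (.b (.c (.b (.a (.l 12) .z) (.a (.c
(.l 12) .z) .z)) (.b (.a .z (.a (.l 12) .z)) .z)) .z)) (.c .z (.b .z (.a .z (.c .z (.a .z (.c .z (.l 13)))))))) (.b (.c (.b (.c .z (.a .z (.b .z (.a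
.z (.l 13))))) (.c .z (.a .z (.a (.c .z (.l 13)) (.l 13))))) (.a (.c (.a (.c .z (.b .z (.l 13))) (.c (.b .z (.l 13)) (.l 13))) (.l 13)) (.l 13))) (.c
(.a (.c .z (.a (.c .z (.b .z (.l 13))) (.c (.b .z (.l 13)) (.l 13)))) (.c (.a (.c .z (.b .z (.l 13))) (.l 13)) (.l 13))) (.l 13)))) (.c (.b (.c .z (.a
.z (.c (.a .z (.b .z (.c .z (.l 13)))) (.a (.b .z (.c .z (.l 13))) (.l 13))))) (.c (.a .z (.c .z (.a .z (.b .z (.c .z (.l 13)))))) (.a (.c .z (.a (.b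
.z (.c .z (.l 13))) (.b (.c .z (.l 13)) (.l 13)))) (.c (.a (.b .z (.l 13)) (.l 13)) (.l 13))))) (.b (.c (.a (.c (.a (.b .z (.c .z (.l 13))) (.b (.c .z
(.l 13)) (.l 13))) (.l 13)) (.l 13)) (.b (.c (.l 13) (.b (.l 13) (.a (.c (.l 13) .z) (.l 13)))) (.c (.a (.b (.l 13) (.c (.l 13) .z)) (.l 13)) (.a .z
(.b (.c (.l 13) .z) .z))))) (.c (.b (.c (.l 13) (.a (.b (.l 13) (.c (.l 13) .z)) (.l 13))) (.c (.a (.b (.l 13) (.c (.l 13) .z)) (.l 13)) (.a .z (.b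
(.c (.l 13) .z) .z)))) (.b (.c (.a .z (.b (.c (.l 13) .z) .z)) (.a (.b .z (.l 14)) .z)) (.c (.a (.b .z (.l 14)) .z) (.a (.l 14) .z))))))))))

theorem vQ183 : ev3 Q183 J4_6 J4_11 J3_6 = 110267349539189363974827 := by decide +kernel

noncomputable def Q76 : QT3 :=
(.a (.c (.b (.a (.c (.b (.a (.c (.b (.l 59) .z) .z) (.c .z (.b .z (.a .z (.c .z (.l 26)))))) (.a .z (.c .z (.a (.c .z (.l 26)) (.l 26))))) (.b (.a (.c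
(.b .z (.a .z (.c .z (.l 26)))) (.b (.a .z (.l 26)) (.l 26))) (.c (.b (.a (.c .z (.l 26)) (.l 26)) (.l 26)) (.l 26))) (.a (.c (.a (.c .z (.a .z (.l
26))) (.l 26)) (.l 26)) (.l 26)))) (.c (.b (.a (.c (.b .z (.a .z (.c .z (.l 26)))) (.a (.c (.b .z (.l 26)) (.l 26)) (.l 26))) (.c (.a (.c (.b .z (.l
26)) (.l 26)) (.l 26)) (.l 26))) (.a (.c (.a (.c (.b .z (.l 26)) (.l 26)) (.l 26)) (.l 26)) (.l 26))) (.l 26))) (.a (.c (.a (.c (.b .z (.a .z (.c .z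
(.b .z (.l 26))))) (.a (.b .z (.c .z (.a .z (.l 26)))) (.b (.c .z (.l 26)) (.l 26)))) (.c (.b (.a (.c .z (.b .z (.l 26))) (.c (.b .z (.l 26)) (.l
26))) (.a (.c (.b .z (.l 26)) (.l 26)) (.l 26))) (.l 26))) (.a (.c (.a (.b (.c (.a .z (.l 26)) (.l 26)) (.l 26)) (.l 26)) (.l 26)) (.l 26))) (.l 26)))
(.c (.l 26) (.a (.l 26) (.b (.l 26) (.c (.l 26) (.a (.l 26) (.b (.c (.l 26) (.a (.l 26) (.b (.l 26) .z))) (.c (.a (.l 26) (.b (.l 26) .z)) (.a (.b (.l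
26) .z) .z))))))))) (.c (.b (.a (.c (.a (.l 26) (.c (.a (.c (.c (.a (.l 26) .z) (.a (.l 26) .z)) (.a (.l 26) .z)) .z) (.a (.a (.l 26) .z) .z))) (.a
(.l 26) (.a (.a (.l 26) (.a .z (.l 95))) (.c (.a (.l 95) .z) (.b (.l 95) .z))))) .z) (.a (.a (.l 26) (.c (.a (.c (.c (.a (.l 26) .z) (.a (.l 26) .z))
(.a (.l 26) .z)) .z) (.a (.a (.l 26) (.a .z (.l 95))) .z))) .z)) (.b (.a (.a (.c (.l 26) (.c (.l 26) (.b (.l 26) (.c (.l 26) (.a (.l 26) (.b (.l 26)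
.z)))))) (.a (.a (.c (.l 26) (.c (.l 26) (.b (.l 26) (.c (.l 26) .z)))) (.a .z (.l 95))) (.l 95))) (.c (.a (.b (.a (.l 95) .z) .z) .z) (.b (.a (.a (.b
.z (.l 95)) .z) .z) (.a (.a (.a (.l 95) .z) .z) .z)))) (.a (.c (.a (.l 26) (.a (.a (.c (.l 26) (.b (.l 26) (.c (.l 26) .z))) (.a .z (.l 95))) (.b (.a
(.l 95) .z) .z))) (.b (.a (.c (.l 26) (.a (.c (.b (.l 26) .z) .z) .z)) (.a (.a (.c (.c (.l 26) .z) .z) .z) (.l 95))) (.a (.c (.a (.c (.l 26) (.b (.l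
26) .z)) .z) .z) .z))) .z))))

theorem vQ76 : ev3 Q76 J3_2 J4_6 J4_8 = 307798234307647125277567 := by decide +kernel

noncomputable def Q8 : QT3 :=
(.b (.c (.b (.a (.c (.b (.a (.b .z (.b (.a (.l 60) .z) (.a (.l 60) .z))) .z) .z) (.b (.c (.a (.b .z (.b .z (.l 60))) .z) (.a (.b .z (.b .z (.l 60)))
.z)) (.b (.a (.a (.b (.l 60) .z) .z) .z) .z))) .z) (.a (.b (.b (.c (.b .z (.a (.c .z (.b .z (.l 50))) .z)) (.b (.a (.b .z (.c .z (.l 50))) .z) (.a (.l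
50) .z))) (.a (.c .z (.c (.b (.l 50) (.c .z (.l 50))) (.l 50))) (.a (.c .z (.l 50)) (.c .z (.b .z (.a (.l 50) .z)))))) (.b (.a (.c .z (.b (.c .z (.b
(.l 50) .z)) .z)) (.a (.c .z (.c .z (.b (.l 50) .z))) .z)) .z)) .z)) (.b .z (.a (.c (.b (.c (.b (.a (.l 50) (.a (.b .z (.l 50)) .z)) (.a (.l 50) (.a
(.l 50) (.b .z (.l 50))))) (.a (.l 50) (.b .z (.a (.l 50) (.c (.l 50) .z))))) (.b (.a (.b (.l 50) (.c .z (.l 50))) (.a (.l 50) (.b (.a (.l 50) .z)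
.z))) .z)) (.b (.c (.b .z (.a (.c (.l 50) (.b .z (.l 50))) .z)) .z) (.a (.b (.c (.l 50) (.b (.c (.l 50) .z) (.l 50))) (.b (.l 50) (.c .z (.a .z (.l
50))))) (.c (.a (.b (.l 50) (.b (.l 50) .z)) .z) .z)))) .z))) (.c (.a (.b (.b (.b .z (.a (.c .z (.a (.b (.l 104) .z) .z)) .z)) (.b (.a (.c .z (.a (.b
.z (.l 102)) .z)) .z) (.a (.c (.c .z (.a (.l 102) .z)) (.b (.a (.l 102) .z) .z)) .z))) (.b .z (.a (.b (.c (.b (.a (.l 58) .z) (.l 58)) .z) (.c (.l 58)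
.z)) (.a (.b .z (.c (.a (.l 58) .z) .z)) .z)))) (.b .z (.a (.a (.b (.b .z (.c .z (.a .z (.b .z (.l 50))))) .z) (.b (.b .z (.c .z (.b .z (.l 50)))) (.b
(.c .z (.a (.b (.l 50) .z) .z)) .z))) .z))) (.b (.a (.b .z (.b (.a (.c (.a (.b .z (.l 102)) .z) .z) .z) .z)) .z) (.c (.a (.b (.a (.b (.b .z (.c .z (.a
(.l 48) .z))) (.c .z (.c .z (.b (.l 48) .z)))) .z) .z) (.b (.a (.a (.b (.a .z (.b .z (.l 50))) .z) .z) .z) .z)) (.a (.b (.a (.b (.b (.a (.l 48) (.c .z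
(.l 48))) (.l 48)) (.l 48)) (.b .z (.a (.c (.a (.l 48) .z) .z) .z))) (.c (.a (.a (.b (.c .z (.l 48)) .z) (.b (.c .z (.l 48)) .z)) .z) (.b (.a (.a (.l
48) (.a (.l 48) .z)) .z) (.c (.a (.a (.l 48) .z) .z) (.a (.a (.l 48) .z) .z))))) .z)))))

theorem vQ8 : ev3 Q8 J3_0 J3_1 J4_8 = 65802275878154665932931 := by decide +kernel

noncomputable def Q104 : QT3 :=
(.c (.b (.c (.a (.a (.l 24) (.a (.a (.c (.c (.a (.l 24) .z) (.l 24)) (.b (.l 24) .z)) .z) (.a (.c (.a (.b .z (.l 17)) (.l 17)) (.a .z (.b .z (.l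
17)))) (.l 17)))) (.a (.l 17) (.b (.l 17) (.c (.l 17) (.a (.l 17) (.b (.l 17) (.c (.l 17) .z))))))) (.a (.c (.a (.b (.a (.l 24) (.c (.l 24) (.a (.l
24) .z))) (.a (.l 24) (.c (.a (.l 24) .z) .z))) (.a (.a .z (.b .z (.c .z (.l 20)))) (.a .z (.a .z (.b .z (.l 17)))))) (.a (.b (.a (.c (.l 24) (.b (.l
24) .z)) .z) .z) (.b (.a (.a .z (.l 20)) (.a (.l 20) .z)) (.a (.c (.l 20) (.b (.l 20) .z)) (.a (.a (.l 20) .z) .z))))) (.a (.b (.a (.a (.c (.l 17) (.a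
.z (.l 17))) (.l 17)) (.l 17)) (.c (.l 17) (.a (.b (.l 17) (.c (.l 17) .z)) (.b (.c (.l 17) .z) .z)))) (.b (.c (.a (.l 17) (.b (.l 17) (.c (.l 17)
.z))) (.a (.b (.l 17) (.c (.l 17) .z)) .z)) (.c (.a (.b (.l 17) .z) .z) .z))))) (.c (.a (.c (.a (.a (.l 24) (.a (.l 24) (.b (.l 24) .z))) (.a (.a .z
(.a (.b .z (.l 17)) (.l 17))) (.l 17))) (.b (.a (.a (.l 24) (.c (.a (.l 24) .z) .z)) (.a .z (.a (.a .z (.l 17)) (.l 17)))) (.a (.c (.a (.l 24) .z) (.b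
(.a (.l 24) .z) .z)) (.a .z (.l 17))))) (.a (.b (.l 17) (.c (.a (.l 17) (.b (.l 17) (.c (.l 17) .z))) (.a (.b (.l 17) (.c (.l 17) .z)) .z))) (.b (.c
(.a (.l 17) (.b (.c (.l 17) .z) .z)) (.a (.b (.c (.l 17) .z) .z) .z)) (.c (.a (.b (.c (.l 17) .z) .z) .z) (.a (.b .z (.c .z (.l 18))) (.b (.c .z (.l
18)) (.l 18))))))) (.a (.b (.c (.a (.c (.a (.b (.l 24) .z) .z) .z) (.a (.a (.c .z (.l 20)) (.a (.l 20) .z)) (.a .z (.l 17)))) (.b .z (.a (.c .z (.l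
16)) .z))) (.c (.b (.c (.a .z (.a .z (.l 17))) .z) .z) (.b .z (.a (.c .z (.b .z (.l 14))) (.c .z (.l 14)))))) (.a (.b (.c (.a (.b (.l 17) (.c (.l 17)
.z)) (.b (.c (.l 17) .z) .z)) .z) .z) (.b (.c (.a .z (.b (.c .z (.l 18)) (.l 18))) (.a .z (.l 18))) (.c (.a (.b (.c .z (.l 18)) (.l 18)) (.l 18)) (.c
(.b (.a .z (.l 18)) .z) (.b (.a .z (.l 18)) .z)))))))) (.b (.a (.c (.b (.c (.a (.c .z (.b .z (.c .z (.l 16)))) (.a (.c (.b (.l 20) .z) .z) (.c (.a (.l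
20) .z) .z))) (.b (.a (.c (.c .z (.l 16)) (.l 16)) (.a (.c .z (.l 16)) .z)) (.a (.l 16) (.c .z (.a (.l 16) .z))))) (.c (.b (.a (.c .z (.l 16)) .z) (.a
(.c (.c .z (.l 16)) (.l 16)) .z)) (.b (.a (.c (.l 16) (.b (.l 16) .z)) (.c (.a (.l 16) .z) .z)) (.a (.c (.b (.l 16) .z) .z) .z)))) (.b (.c (.b (.a (.l
16) (.c (.a (.l 16) .z) .z)) (.a (.c (.l 16) .z) .z)) (.b (.a (.c (.b (.l 16) .z) .z) .z) (.a (.c .z (.l 14)) (.c (.a .z (.l 14)) (.l 14))))) (.c (.b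
(.a (.c .z (.b .z (.l 14))) (.c .z (.a .z (.l 14)))) (.a (.c (.b .z (.l 14)) (.l 14)) (.l 14))) (.l 14)))) (.c (.a (.b (.c (.a (.a .z (.l 17)) (.b (.l
17) .z)) .z) (.c (.a (.b (.c (.l 17) .z) .z) .z) (.a (.b .z (.c .z (.l 14))) .z))) .z) (.a (.b (.c (.a (.b .z (.c .z (.l 14))) .z) (.a (.b (.c .z (.l
14)) (.l 14)) (.c (.b .z (.l 14)) (.l 14)))) (.c (.c (.b (.a (.l 14) .z) (.l 14)) (.l 14)) (.l 14))) (.c (.b .z (.c .z (.b .z (.a (.l 14) .z)))) (.b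
(.c (.b .z (.a (.l 14) .z)) (.b (.a (.l 14) .z) (.l 14))) (.l 14)))))) (.a (.c (.b (.c (.b (.a (.c (.l 16) .z) .z) (.a .z (.c .z (.a .z (.l 14)))))
(.b (.a (.c .z (.b .z (.l 14))) (.c (.a .z (.l 14)) (.l 14))) (.l 14))) (.c (.b (.a (.c (.b .z (.l 14)) (.l 14)) (.c (.a .z (.l 14)) (.l 14))) (.l
14)) (.l 14))) (.l 14)) (.c (.a (.b (.c .z (.c (.b (.a (.l 14) .z) (.l 14)) (.l 14))) (.c (.c (.b .z (.a (.l 14) .z)) (.l 14)) (.l 14))) (.c (.b (.c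
(.b .z (.a .z (.l 18))) .z) .z) .z)) (.c (.b (.a (.l 14) (.c (.b (.a (.l 14) .z) (.a (.l 14) .z)) (.a (.l 14) .z))) (.a (.l 14) (.a (.a (.l 14) .z)
.z))) (.a (.l 14) (.a (.b (.l 14) (.a (.l 14) (.b (.l 14) .z))) (.b (.a (.b (.l 14) .z) .z) .z))))))))

theorem vQ104 : ev3 Q104 J3_0 J5_19 J4_11 = 133748259558996803819638 := by decide +kernel

noncomputable def Q116 : QT3 :=
(.b (.b (.a (.c (.c (.b (.c (.a .z (.c (.a .z (.c (.a .z (.l 14)) .z)) (.a (.c (.l 18) (.a .z (.l 18))) (.c (.a (.l 18) .z) (.l 18))))) (.b (.a .z (.c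
(.a .z (.a .z (.l 18))) (.a (.c (.l 22) .z) .z))) (.a .z (.c (.a .z (.a .z (.l 18))) (.a (.c (.l 22) .z) .z))))) (.c (.b (.a .z (.c .z (.a (.c (.l 18)
.z) (.c .z (.l 18))))) .z) .z)) (.b (.b (.c (.a .z (.a .z (.c (.a .z (.l 22)) .z))) .z) .z) (.b .z (.c (.a (.c .z (.c (.l 19) .z)) .z) .z)))) .z) (.c
(.a (.c (.b (.c (.b (.a (.c (.l 14) .z) (.l 14)) (.a (.c (.l 14) .z) (.c (.a (.l 14) .z) .z))) (.b (.a (.c (.a (.l 18) .z) (.a .z (.l 18))) .z) .z))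
(.c (.b (.a (.c (.a .z (.l 14)) .z) .z) .z) (.b (.a .z (.c (.a .z (.l 15)) .z)) (.a .z (.c (.l 15) .z))))) (.b (.b (.a .z (.c .z (.c (.c (.l 23) .z)
.z))) (.a .z (.c .z (.c (.c (.l 23) .z) .z)))) (.c (.c (.c .z (.c (.a .z (.l 19)) (.l 19))) (.c (.c (.l 19) .z) .z)) .z))) (.c (.b (.a (.c (.b (.c (.a
(.l 14) .z) .z) .z) (.b .z (.a .z (.c (.l 15) .z)))) (.c (.b .z (.a (.c (.b .z (.l 11)) .z) (.c (.l 11) .z))) (.c (.l 15) (.c (.l 15) (.c (.l 15)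
.z))))) (.a (.c (.b (.c (.a .z (.b .z (.l 11))) .z) (.c (.c (.l 11) (.c (.l 11) .z)) .z)) (.c (.l 15) .z)) (.c (.c (.c (.l 11) (.c (.l 11) .z)) .z)
(.c (.l 15) (.c (.c (.l 15) .z) .z))))) (.c (.c (.c (.b (.c .z (.b .z (.l 19))) (.a .z (.c .z (.l 19)))) (.l 19)) (.c (.c (.l 19) (.b (.b (.l 19) .z)
.z)) (.c .z (.b .z (.a .z (.l 24)))))) (.c (.c (.c .z (.b (.l 23) .z)) .z) (.c (.b .z (.c (.l 27) .z)) .z))))) .z)) (.a (.c (.c (.b (.c (.b .z (.a (.c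
.z (.b .z (.c .z (.l 15)))) (.c (.a .z (.b .z (.c (.l 11) .z))) (.a .z (.c .z (.l 15)))))) (.b (.a .z (.c (.a .z (.c (.l 15) .z)) .z)) (.c (.c (.c (.l
15) .z) .z) .z))) (.c (.b (.a (.c (.b (.c .z (.c (.l 11) .z)) (.c (.l 11) (.c (.l 11) .z))) (.c (.c .z (.l 15)) (.l 15))) (.c (.c (.l 11) (.c (.l 11)
.z)) (.c .z (.l 15)))) (.c (.c (.l 11) (.c (.b (.a (.l 11) .z) .z) .z)) (.c .z (.c (.a (.l 15) .z) .z)))) .z)) (.c (.b (.c .z (.c (.c (.a .z (.a .z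
(.l 19))) .z) .z)) (.c (.c .z (.c (.a .z (.a .z (.l 20))) (.a (.l 20) .z))) .z)) .z)) .z) (.c (.a (.c (.b (.c (.b (.a (.c .z (.c .z (.l 15))) (.c (.c
(.l 11) (.c (.l 11) .z)) .z)) (.c (.c (.l 11) (.c (.l 11) .z)) (.c .z (.c .z (.l 15))))) (.c (.c (.l 15) .z) .z)) (.c (.c (.c (.l 11) .z) (.c .z (.c
.z (.a (.l 15) .z)))) (.c (.c (.c (.b (.l 15) .z) .z) .z) .z))) (.c (.c (.c (.c .z (.a (.b .z (.l 20)) .z)) (.c .z (.a .z (.l 19)))) (.c (.c (.b (.l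
19) .z) .z) .z)) .z)) (.c (.c (.c (.c (.c (.l 11) (.b (.l 11) (.b (.l 11) (.a (.l 11) .z)))) (.c (.b (.b (.l 11) .z) .z) .z)) .z) (.c (.c (.b (.a (.l
15) (.c .z (.l 15))) .z) (.b (.c (.l 15) .z) .z)) .z)) (.c (.c (.c (.a .z (.c .z (.l 19))) (.l 19)) .z) .z))) .z))) (.c (.c (.b (.c (.c (.c (.c (.b
(.a (.l 11) (.a (.l 11) (.b (.l 11) (.a (.l 11) .z)))) (.a (.b (.l 11) (.b (.l 11) (.a (.l 11) .z))) (.a (.b (.b (.l 11) .z) .z) .z))) (.b (.a (.b (.l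
11) (.b (.l 11) (.a (.l 11) .z))) (.a (.b (.b (.l 11) .z) .z) .z)) .z)) .z) .z) (.a .z (.a (.b (.c .z (.c .z (.a .z (.c .z (.l 20))))) (.c .z (.a .z
(.c .z (.l 20))))) (.c .z (.c (.b .z (.a (.c .z (.l 20)) .z)) (.a (.b (.b .z (.l 20)) (.l 20)) .z)))))) (.a (.c (.b .z (.c .z (.b .z (.a (.l 28)
.z)))) (.b (.c .z (.b .z (.a .z (.c (.a .z (.l 14)) .z)))) (.c (.b (.a (.c (.l 28) .z) (.c .z (.a .z (.l 14)))) (.a (.c (.l 28) .z) (.c .z (.a .z (.l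
14))))) (.a .z (.c (.a .z (.a .z (.l 14))) .z))))) (.c .z (.a (.b .z (.c (.a (.b .z (.c .z (.l 14))) .z) .z)) (.b (.a (.c .z (.b (.l 20) .z)) (.c .z
(.c .z (.l 20)))) .z))))) (.b (.a (.c .z (.b .z (.c (.a (.c (.a (.l 44) .z) .z) (.a (.c .z (.c .z (.l 22))) (.c (.a .z (.l 22)) .z))) .z))) (.a (.c
(.b (.c (.a (.b (.c (.l 20) .z) (.c (.l 20) .z)) (.c (.c (.l 20) .z) .z)) .z) (.c (.a .z (.b (.c (.l 20) .z) .z)) .z)) .z) (.c (.b (.c (.c .z (.a .z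
(.c (.l 19) .z))) .z) (.a (.c (.c (.c (.l 20) .z) .z) .z) .z)) .z))) (.a (.c (.c .z (.a (.c .z (.c .z (.a (.l 44) .z))) .z)) (.c (.a (.c (.c (.a (.l
44) .z) (.a (.l 44) .z)) .z) (.a (.c .z (.a (.c .z (.l 22)) (.l 22))) (.c (.a (.c .z (.l 22)) (.l 22)) (.a (.c (.l 22) .z) .z)))) (.a .z (.a (.c (.a
.z (.c (.l 22) .z)) .z) .z)))) (.a (.c (.b (.c .z (.a (.c .z (.a (.l 22) .z)) .z)) .z) .z) (.c .z (.b .z (.a .z (.c .z (.c .z (.c (.l 23) .z))))))))))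
.z))

theorem vQ116 : ev3 Q116 J3_0 J4_8 J3_7 = 51961390639875335018001 := by decide +kernel

noncomputable def Q176 : QT3 :=
(.a (.b (.c (.c (.b (.c (.b (.c (.a (.b (.c (.l 12) (.a .z (.l 12))) (.c (.a .z (.l 12)) .z)) (.a (.l 12) (.c (.l 12) (.a (.l 12) .z)))) .z) (.c (.a
(.b .z (.c .z (.a (.l 13) .z))) (.c (.b (.l 12) (.a .z (.l 12))) (.b (.a .z (.l 12)) .z))) (.a (.b (.c (.a (.l 13) .z) .z) (.c (.l 13) .z)) .z))) (.b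
(.c (.a .z (.b .z (.c .z (.l 17)))) (.l 17)) (.c (.a .z (.c (.a .z (.l 17)) (.l 17))) (.l 17)))) (.c (.b (.c (.a (.b (.c (.a (.l 13) .z) (.l 13)) (.l
13)) (.c .z (.b .z (.a (.l 13) .z)))) (.a (.c (.c (.l 13) .z) .z) .z)) (.a (.c (.l 13) (.c (.c (.a (.l 13) .z) .z) .z)) (.c (.a (.c (.l 13) (.c (.l
13) .z)) (.c (.b .z (.l 13)) (.c (.l 13) .z))) .z))) (.c (.a (.c (.a (.l 33) .z) .z) (.c (.a .z (.l 17)) (.l 17))) (.a (.c (.a (.c .z (.l 17)) (.l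
17)) (.c (.l 17) (.b (.l 17) .z))) (.c (.l 17) (.c (.b (.l 17) .z) .z)))))) (.c (.c (.c (.b (.c (.a (.l 17) .z) .z) (.c .z (.a .z (.b .z (.l 19)))))
(.b (.c .z (.a (.b .z (.l 21)) (.a (.l 21) .z))) (.a (.c .z (.l 21)) .z))) (.c (.b (.l 21) (.c (.l 21) (.a (.l 21) .z))) (.b (.c (.a (.l 21) (.b (.l
21) .z)) (.a (.b (.l 21) .z) .z)) .z))) (.c .z (.b (.c (.a .z (.c .z (.l 29))) .z) .z)))) .z) (.a (.b (.c (.c (.c (.c (.c (.l 13) (.b (.c (.l 13) (.a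
(.l 13) .z)) .z)) (.c .z (.b (.l 33) .z))) .z) (.c (.c (.c (.c (.b .z (.l 19)) (.a .z (.l 19))) (.c .z (.l 21))) (.c (.c (.b (.l 21) .z) .z) .z)) .z))
.z) (.c (.c (.a (.c (.c (.c (.b (.c (.l 13) .z) .z) .z) .z) .z) (.b (.c (.c (.c (.c (.l 13) .z) .z) .z) .z) .z)) (.a .z (.b (.c (.c (.c (.l 19) .z)
.z) .z) .z))) .z)) (.b (.c (.c (.a (.c (.c (.c (.b (.l 13) (.c (.l 13) .z)) .z) .z) (.c (.c .z (.c .z (.l 17))) (.c (.c (.l 17) .z) .z))) (.b (.c (.c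
(.c (.l 13) .z) .z) (.c (.c .z (.l 17)) .z)) (.c (.c (.c (.c (.l 13) .z) .z) .z) .z))) (.a (.b (.c (.c (.c (.l 19) .z) .z) .z) (.c (.c (.c (.l 19) .z)
.z) .z)) (.b (.c (.c (.c (.l 19) .z) .z) .z) .z))) .z) (.c (.c .z (.a .z (.b (.c .z (.a .z (.c .z (.l 23)))) .z))) .z)))) (.b (.a (.b (.c (.c (.c (.c
(.b .z (.c (.a (.a (.l 12) .z) .z) .z)) .z) (.c (.b .z (.a (.c .z (.l 17)) .z)) (.b (.a (.b .z (.l 17)) .z) (.c (.l 17) (.c (.l 17) .z))))) (.c (.c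
(.c (.c .z (.b .z (.l 19))) (.c (.a .z (.l 19)) .z)) (.c (.c (.a (.l 21) .z) (.b (.l 21) .z)) .z)) .z)) .z) (.c (.c (.a (.c (.c (.b (.c (.b (.l 12)
.z) .z) .z) .z) (.c (.l 17) (.c (.l 17) .z))) (.b (.c (.c (.c (.a (.l 12) .z) .z) .z) (.c (.l 17) (.c (.l 17) .z))) (.c (.c .z (.c .z (.l 17))) (.a
(.c (.l 17) .z) .z)))) (.a (.b .z (.c (.c (.c (.l 19) .z) .z) .z)) (.b (.c (.c (.c (.l 19) .z) .z) .z) .z))) .z)) (.b (.c (.c (.a (.c .z (.c (.b (.c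
(.l 20) .z) .z) .z)) (.b (.c (.c .z (.c .z (.l 20))) (.c (.l 20) .z)) (.c (.c .z (.c .z (.l 20))) .z))) .z) .z) (.c (.c (.a .z (.b .z (.c .z (.a .z
(.c (.l 14) .z))))) .z) .z))) (.a (.b (.c (.c (.a (.b (.c .z (.a (.c (.l 17) .z) .z)) .z) .z) (.a (.b .z (.c .z (.a .z (.c .z (.l 23))))) (.b (.c .z
(.a .z (.c .z (.l 23)))) (.c (.c (.c (.l 19) .z) .z) (.c (.c .z (.l 23)) (.l 23)))))) .z) (.c (.c (.a .z (.b (.c .z (.c (.c (.l 14) .z) .z)) (.c .z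
(.c (.c (.l 14) .z) .z)))) (.c .z (.c (.c .z (.a .z (.l 23))) (.c (.l 23) (.c (.l 23) .z))))) .z)) (.b (.c (.c (.a (.b (.c .z (.a .z (.c (.l 14) .z)))
(.c (.a .z (.c .z (.l 14))) (.c (.c (.l 14) .z) (.c .z (.l 19))))) (.b (.c (.a .z (.c .z (.l 14))) (.c (.c (.l 14) .z) (.c .z (.l 19)))) (.c (.c .z
(.l 14)) (.c (.c (.l 14) .z) (.c .z (.l 19)))))) (.c (.c (.c (.b (.c (.l 19) .z) (.l 19)) (.b .z (.c (.l 19) .z))) .z) (.c .z (.b (.c .z (.l 23)) (.a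
(.c (.l 23) .z) .z))))) .z) (.c (.c (.c (.c .z (.c (.b (.a .z (.l 14)) .z) (.b (.l 14) (.a .z (.l 14))))) (.c (.c (.c (.b (.l 14) .z) .z) .z) (.b (.c
.z (.l 19)) .z))) (.c (.c (.b (.c .z (.b .z (.l 20))) (.c (.b .z (.l 20)) (.a .z (.l 20)))) .z) (.c (.b (.a (.c .z (.l 23)) .z) (.a (.c .z (.l 23))
(.c .z (.l 23)))) (.c (.l 23) (.c (.b (.l 23) .z) .z))))) .z)))))

theorem vQ176 : ev3 Q176 J4_6 J4_9 J3_7 = 46370046471051191316005 := by decide +kernel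

noncomputable def Q10 : QT3 :=
(.c (.b (.c (.b .z (.a .z (.a .z (.c (.a (.c .z (.a (.c (.b (.b .z (.l 26)) .z) .z) .z)) .z) .z)))) (.c (.a (.b (.b (.a (.b .z (.b .z (.a (.l 60)
.z))) .z) .z) .z) .z) .z)) (.c (.c (.b (.a (.b .z (.b (.a (.b .z (.c .z (.l 82))) .z) .z)) .z) (.a (.b (.a (.b .z (.l 68)) .z) (.a (.l 68) (.a (.c .z
(.b .z (.l 68))) .z))) .z)) (.b (.a (.b (.b .z (.a (.b (.a (.l 84) .z) (.b (.l 84) .z)) .z)) (.b (.a (.b .z (.b .z (.l 82))) .z) (.a (.b (.l 82) .z)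
.z))) .z) (.a (.b (.a (.b .z (.b .z (.c (.l 68) .z))) .z) (.a (.c (.b (.l 68) (.c (.l 68) .z)) (.b (.c (.l 68) .z) .z)) .z)) .z))) (.a (.b (.c (.b (.b
(.b .z (.a (.a (.l 84) .z) .z)) (.a (.b (.l 84) (.b (.l 84) .z)) .z)) (.b (.a (.b .z (.b .z (.l 82))) .z) (.a (.l 82) .z))) (.b (.c (.b (.b .z (.a (.l
84) .z)) (.a (.l 84) .z)) (.b (.b .z (.a (.l 84) .z)) (.c (.a (.l 84) .z) .z))) .z)) (.b (.a (.b (.c (.b (.c .z (.l 82)) .z) .z) .z) .z) (.a (.b .z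
(.c (.c (.c .z (.b .z (.l 28))) .z) (.a (.c .z (.l 42)) (.a (.c .z (.l 42)) .z)))) .z))) .z))) (.b (.c .z (.b .z (.a (.c (.b .z (.a (.c (.a (.b .z (.l
38)) (.a (.b .z (.l 38)) .z)) (.a (.b .z (.l 38)) (.c (.b .z (.l 38)) .z))) .z)) .z) (.c .z (.a .z (.b (.a (.c .z (.b (.a .z (.l 30)) (.a (.l 30)
.z))) .z) .z)))))) (.c (.b .z (.c (.a (.b .z (.a (.b .z (.b (.a (.b .z (.l 42)) .z) (.a (.l 42) (.a (.l 42) .z)))) .z)) .z) (.a (.b .z (.a (.b .z (.b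
.z (.a (.b .z (.l 42)) .z))) .z)) .z))) .z)))

theorem vQ10 : ev3 Q10 J3_0 J3_1 J3_5 = 46488749426569453425771 := by decide +kernel

noncomputable def Q20 : QT3 :=
(.c (.b (.c (.b (.a (.c .z (.b .z (.c .z (.b .z (.a (.l 28) .z))))) (.a .z (.c (.b .z (.a .z (.c (.l 46) .z))) .z))) (.a (.c .z (.b (.a (.b (.l 28)
.z) (.c .z (.b (.l 28) .z))) .z)) (.a .z (.c (.a (.b (.b (.l 46) .z) .z) (.b (.b (.l 46) .z) .z)) .z)))) (.b (.a (.c (.b (.c .z (.b (.a (.l 28) .z)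
(.a (.l 28) .z))) (.c (.b (.a (.l 28) .z) (.l 28)) (.l 28))) (.l 28)) (.a (.c .z (.b (.a (.c .z (.l 28)) .z) (.a (.l 28) (.c .z (.l 28))))) .z)) (.a
(.b (.a (.b (.l 28) .z) (.b (.l 28) .z)) .z) (.a (.c (.a (.b (.b (.l 28) .z) .z) .z) (.b (.b (.l 28) .z) .z)) .z)))) (.a .z (.c (.a .z (.b (.a (.c .z
(.b .z (.l 32))) .z) (.a .z (.c .z (.b (.a (.l 32) .z) .z))))) (.a .z (.a (.c (.b (.c (.a .z (.l 32)) .z) (.a .z (.b (.l 32) .z))) .z) (.c (.b (.b .z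
(.a (.l 32) .z)) (.b (.l 32) (.a .z (.l 32)))) (.b (.a .z (.c (.l 32) .z)) (.a (.c (.l 32) .z) (.l 32))))))))) (.a (.b (.b (.l 28) (.b (.a (.b (.l 28)
.z) (.b (.l 28) .z)) .z)) (.b .z (.a (.b .z (.c (.b .z (.a (.l 70) .z)) .z)) .z))) (.c (.a (.b (.b (.l 28) (.b (.b (.l 28) .z) .z)) .z) (.b (.c (.a
(.b (.b .z (.l 28)) (.b (.b (.l 28) .z) .z)) .z) (.b (.a (.l 28) (.b (.c .z (.l 28)) (.l 28))) (.b (.b (.l 28) .z) .z))) .z)) (.b (.b (.l 28) (.b (.b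
(.l 28) .z) .z)) (.a (.b (.a .z (.b (.a (.c .z (.l 32)) .z) .z)) .z) .z)))))

theorem vQ20 : ev3 Q20 J3_0 J4_5 J4_8 = 102519498242356882662615 := by decide +kernel

noncomputable def Q171 : QT3 :=
(.a (.b (.c (.c (.c (.c (.b (.c (.b (.l 13) (.c (.a (.l 13) (.b (.l 13) .z)) (.a (.b (.l 13) .z) .z))) (.b (.c (.a (.b (.l 13) .z) .z) .z) .z)) (.c
(.b (.c (.a (.b (.l 13) .z) .z) .z) .z) .z)) (.b (.c .z (.a (.a (.c .z (.l 19)) .z) .z)) (.a (.b (.c .z (.a .z (.l 19))) .z) .z))) (.b (.c (.a (.b (.l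
19) (.c (.l 19) (.a (.l 19) .z))) .z) (.a (.b (.c (.a (.l 19) .z) .z) .z) .z)) (.c (.a (.b (.c (.a (.l 19) .z) .z) .z) .z) .z))) (.c (.b (.c (.a (.b
(.c .z (.a .z (.l 25))) (.c (.a .z (.l 25)) (.l 25))) (.b (.c .z (.b .z (.l 25))) (.c (.b .z (.l 25)) (.c (.l 25) .z)))) (.c .z (.c .z (.a (.l 31)
.z)))) (.c (.c (.c (.l 25) (.b (.l 25) (.a (.l 25) .z))) (.c (.b (.a (.l 25) .z) .z) .z)) .z)) (.a (.b (.c (.c (.b (.l 31) .z) .z) .z) .z) .z))) .z)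
(.a (.b (.c (.c (.c .z (.c .z (.c (.a (.l 22) (.c (.l 22) .z)) (.a .z (.c .z (.l 25)))))) (.c (.b (.c (.c (.c (.l 25) .z) .z) .z) .z) .z)) .z) .z) (.b
(.c (.c (.c .z (.c .z (.c (.a .z (.l 23)) .z))) .z) .z) .z))) (.b (.a (.b (.c (.c (.c (.c (.c (.b (.c (.l 13) .z) .z) .z) .z) (.c (.b .z (.c .z (.a .z
(.l 20)))) (.b (.c (.a .z (.l 20)) (.l 20)) (.c (.l 20) .z)))) .z) .z) (.c (.c (.a (.c .z (.c (.b (.c .z (.l 20)) .z) .z)) (.b (.c .z (.c (.c .z (.l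
20)) .z)) (.c (.c .z (.l 49)) .z))) .z) .z)) (.b (.c (.c (.a (.c .z (.c (.b (.c .z (.l 20)) (.c .z (.l 20))) (.l 20))) (.b (.c .z (.c .z (.l 20))) (.c
.z (.a (.c .z (.l 20)) .z)))) (.a (.b (.c (.c (.c (.l 20) .z) .z) .z) .z) .z)) .z) (.c (.c (.a .z (.b .z (.c .z (.a .z (.b .z (.l 15)))))) (.a .z (.b
.z (.c (.c .z (.c (.l 21) .z)) .z)))) .z))) (.a (.b .z (.c (.c (.a .z (.b (.c .z (.c (.c .z (.l 15)) .z)) .z)) .z) .z)) (.b (.c (.c (.a (.b .z (.c .z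
(.c (.c .z (.l 15)) (.c (.l 15) .z)))) (.b (.c .z (.c (.l 15) (.c (.l 15) .z))) (.c .z (.c (.c .z (.l 15)) (.c (.l 15) .z))))) (.c (.c .z (.b (.c (.b
(.l 21) .z) .z) .z)) .z)) .z) (.c (.c (.c .z (.c (.c .z (.b (.l 15) .z)) .z)) .z) .z)))))

theorem vQ171 : ev3 Q171 J4_5 J4_10 J3_7 = 18595253696848429875813 := by decide +kernel

end Pool.Agent.Helper64.SPW.Dat3
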