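import Pool.Agent.Helper64.SPW.Iv3

/-! Boxes of three traces, part 4 (data and kernel evaluation). -/

set_option maxRecDepth 1000000
set_option maxHeartbeats 0

namespace Pool.Agent.Helper64.SPW.Dat3

noncomputable def Q4 : QT3 :=
(.b (.a (.c (.b .z (.c .z (.a .z (.b (.a .z (.b .z (.c .z (.b .z (.l 46))))) (.a .z (.c (.a (.l 46) .z) (.b (.l 46) .z))))))) (.b .z (.c (.a .z (.b
(.a .z (.c (.b (.b .z (.l 46)) (.l 46)) .z)) (.a .z (.c .z (.b .z (.a .z (.l 46))))))) (.a (.b (.c (.a .z (.b .z (.l 91))) .z) (.c (.a (.b (.l 91) .z)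
.z) (.a .z (.b .z (.c .z (.l 46)))))) (.b (.a .z (.c .z (.b .z (.l 46)))) (.a (.c (.b .z (.c .z (.l 46))) (.b (.c .z (.l 46)) (.l 46))) (.c (.b (.a .z
(.l 46)) (.l 46)) (.l 46)))))))) (.c (.b .z (.a (.c .z (.b .z (.a .z (.c .z (.b .z (.a .z (.l 46))))))) (.c (.b .z (.a .z (.c (.b .z (.a .z (.l 46)))
(.b (.a .z (.l 46)) (.l 46))))) (.b (.a (.c .z (.b .z (.a .z (.l 46)))) (.c .z (.a (.c (.l 46) .z) .z))) (.a (.c (.b (.a .z (.l 46)) (.l 46)) (.l 46))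
(.a (.c (.l 46) (.a (.l 46) .z)) (.c (.a (.l 46) .z) .z))))))) (.b .z (.a (.c (.b (.a .z (.c .z (.b .z (.a (.l 46) .z)))) (.a (.c (.b .z (.a .z (.l
46))) (.b (.a .z (.l 46)) (.l 46))) (.l 46))) (.b (.a (.c (.b .z (.l 46)) .z) .z) (.a (.l 46) (.a (.b (.c (.l 46) .z) (.l 46)) (.b .z (.c (.l 46)
.z)))))) (.c (.b (.a (.c (.b .z (.a (.l 46) .z)) .z) .z) (.a (.a (.c (.l 46) (.b .z (.l 46))) (.c (.a (.l 46) .z) .z)) .z)) .z))))) (.a (.c (.b (.c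
(.a (.a .z (.b .z (.b .z (.l 104)))) .z) (.a .z (.b .z (.a .z (.c .z (.b (.b (.l 46) .z) .z)))))) (.c (.a .z (.b .z (.a (.c .z (.a .z (.l 89))) .z)))
.z)) (.b (.c (.a (.b .z (.c .z (.b (.a .z (.b (.l 46) .z)) .z))) (.b (.a (.c .z (.b (.c .z (.l 46)) (.l 46))) (.c (.b (.a .z (.l 46)) (.l 46)) (.l
46))) (.b (.b (.l 46) .z) .z))) (.a (.b (.c (.a (.b .z (.c .z (.l 46))) (.b (.c .z (.l 46)) (.l 46))) (.a (.b (.c .z (.l 46)) (.l 46)) (.l 46))) (.b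
(.b (.l 46) .z) (.c .z (.l 75)))) (.b (.l 46) (.b (.b (.l 46) .z) (.c (.c .z (.l 75)) (.l 75)))))) (.a (.c .z (.b (.c (.c .z (.l 75)) (.l 75)) (.a (.c
(.l 75) (.b (.l 75) .z)) (.l 75)))) (.c (.c .z (.b (.c .z (.a .z (.l 75))) .z)) (.l 75))))) (.c (.b (.a (.c (.b (.a .z (.c .z (.b .z (.a .z (.l
46))))) (.a .z (.c .z (.b (.b (.l 46) .z) .z)))) (.b (.a (.c (.b .z (.a .z (.l 46))) (.b (.a .z (.l 46)) (.l 46))) (.c (.b (.a .z (.l 46)) (.l 46))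
(.l 46))) (.b (.b (.l 46) .z) .z))) (.c (.b (.a (.c (.b .z (.a .z (.l 46))) (.l 46)) (.l 46)) (.b (.b (.l 46) .z) .z)) (.b (.a (.l 46) (.a (.c (.l 46)
(.a (.l 46) .z)) .z)) (.b (.b (.a (.l 46) (.a (.l 46) .z)) .z) .z)))) .z) (.b (.b (.a (.l 46) (.a (.a (.c (.l 46) (.b .z (.a (.l 46) .z))) (.c (.c (.l
46) (.a (.l 46) .z)) .z)) .z)) (.b (.b (.a (.l 46) (.a (.a (.l 46) (.c (.l 46) .z)) .z)) (.b .z (.c .z (.l 75)))) (.c .z (.l 75)))) (.c (.b (.c .z (.c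
.z (.a (.b (.l 75) .z) .z))) .z) (.b (.c (.a (.l 75) (.c .z (.l 75))) (.l 75)) (.a (.c (.c .z (.l 75)) (.l 75)) (.c .z (.c (.b (.l 75) .z) (.l
75))))))))))

theorem vQ4 : ev3 Q4 J3_1 J3_2 J4_7 = 176896820138319938772142 := by decide +kernel

noncomputable def Q42 : QT3 :=
(.b (.c (.a (.c (.l 20) (.a (.l 20) (.c (.a (.l 20) (.c (.l 20) (.a (.l 20) (.b (.l 20) (.a (.l 20) .z))))) (.a (.c (.l 20) (.a (.l 20) (.c (.l 20)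
(.a (.l 20) .z)))) (.c (.a (.c (.l 20) (.b (.l 20) .z)) .z) .z))))) (.a (.b (.c (.a (.c (.l 20) (.a (.l 20) (.c (.l 20) (.a (.l 20) .z)))) (.c (.a (.l
20) (.c (.a (.l 20) .z) .z)) .z)) (.a (.c (.a (.c (.a (.l 20) .z) .z) .z) (.a (.c .z (.b .z (.l 16))) .z)) .z)) (.a (.b (.c (.c (.l 20) (.a (.l 20)
(.c (.l 20) .z))) (.c .z (.a (.c .z (.l 16)) (.l 16)))) (.a (.c (.l 20) (.c .z (.l 16))) (.b (.c (.c (.l 20) .z) (.c .z (.l 16))) (.a .z (.c .z (.l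
16)))))) (.b (.a (.c (.c (.c (.l 20) .z) .z) (.c .z (.b .z (.l 16)))) .z) (.a (.b (.a (.c .z (.l 16)) .z) .z) .z)))) (.b (.a (.b (.a (.c .z (.l 76))
.z) .z) .z) .z))) (.b (.a (.c (.c (.a (.c (.l 20) (.a (.l 20) (.c (.a (.l 20) .z) .z))) (.a (.c (.a (.c (.l 20) .z) .z) (.a .z (.c .z (.l 16)))) (.c
(.a (.c .z (.l 16)) (.l 16)) (.l 16)))) (.a (.c (.c (.a (.a (.l 20) .z) .z) .z) (.c (.a (.l 12) (.a (.a (.l 12) .z) .z)) (.l 12))) (.c (.l 16) (.a (.c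
.z (.a (.a (.l 12) .z) .z)) (.a (.c (.l 16) .z) (.l 16)))))) (.c (.a (.l 12) (.c (.a (.c (.a (.l 12) (.a (.l 12) .z)) (.l 12)) (.a (.c .z (.a (.l 12)
.z)) .z)) (.a (.l 12) (.a (.l 12) (.c (.a (.l 12) .z) (.l 12)))))) (.l 12))) (.c (.a (.b (.c (.a (.b .z (.c .z (.l 16))) .z) (.a (.l 16) (.b .z (.c .z
(.l 16))))) (.c (.a (.l 16) (.b .z (.c .z (.l 16)))) (.l 16))) (.a (.b .z (.a (.c .z (.b .z (.l 16))) .z)) .z)) (.a (.c (.a (.c (.a (.c (.l 16) .z)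
(.l 16)) (.a (.c .z (.a (.l 12) .z)) .z)) (.l 16)) (.a (.c (.a (.l 12) (.c .z (.a (.l 12) .z))) (.l 12)) (.c (.a .z (.c (.l 16) .z)) (.a (.c .z (.a
(.l 12) .z)) .z)))) (.a (.c (.b (.a (.b .z (.l 16)) .z) (.a (.l 16) (.b (.l 16) .z))) (.a (.c (.l 16) (.a .z (.l 16))) (.b (.l 16) (.b (.l 16) .z))))
.z)))) (.c (.a (.c (.a (.c (.l 20) (.a (.l 20) (.c (.a (.l 20) .z) .z))) (.a (.c (.a (.c (.l 20) .z) .z) (.a (.c .z (.l 16)) (.l 16))) (.a (.c (.c .z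
(.l 16)) (.l 16)) (.l 16)))) (.a (.c (.c (.a (.a (.l 20) .z) (.a .z (.l 16))) (.a .z (.a .z (.l 16)))) (.c (.a (.l 12) (.a (.a (.l 12) .z) .z)) (.l
12))) (.c (.l 16) (.a (.c (.a .z (.l 16)) .z) (.l 16))))) (.a (.a (.l 16) (.b (.a (.l 16) (.b (.l 16) (.a (.l 16) .z))) (.a (.b (.l 16) (.a (.l 16)
.z)) .z))) (.a (.b (.a (.b (.a (.l 16) .z) .z) .z) .z) .z))) (.a (.c (.a (.l 12) (.a (.c (.c (.a (.l 12) (.a (.l 12) .z)) (.l 12)) (.l 12)) (.c (.a .z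
(.c (.l 16) .z)) (.a (.l 12) (.c .z (.a (.l 12) .z)))))) (.l 12)) (.a (.b (.c (.a (.c (.l 16) .z) (.l 16)) (.a (.c (.a (.c .z (.l 12)) .z) (.l 12))
(.c (.a .z (.l 16)) .z))) (.c (.a (.c (.l 16) (.a .z (.l 16))) (.a (.b (.l 16) .z) .z)) (.b (.a (.c .z (.a (.l 12) .z)) .z) (.a (.c .z (.a (.l 12)
.z)) .z)))) (.b (.c .z (.a (.a (.b (.l 16) .z) .z) .z)) (.c .z (.a .z (.b .z (.c .z (.a .z (.l 10)))))))))))) (.c (.b (.a (.a (.l 20) (.b (.c (.l 20)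
(.c (.a (.l 20) (.a (.l 20) (.c (.l 20) .z))) (.a (.c (.l 20) (.a (.l 20) .z)) (.a .z (.c .z (.l 16)))))) (.a (.c (.l 20) (.c (.l 20) (.c (.l 20) (.a
(.l 20) .z)))) (.b (.a (.c (.l 20) (.c (.l 20) .z)) (.a (.c (.l 20) .z) .z)) (.a (.b (.c (.l 20) .z) .z) .z))))) (.a (.a (.b (.a (.b (.c (.c (.l 20)
.z) (.c .z (.l 16))) .z) .z) (.a (.b .z (.a .z (.c (.l 18) .z))) (.b .z (.c (.l 18) .z)))) (.b (.a (.b .z (.c (.c (.l 18) .z) .z)) (.c (.c (.c (.l 18)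
.z) .z) .z)) (.c (.c (.l 18) (.c (.b .z (.l 18)) .z)) .z))) (.c (.c (.c (.a (.l 18) (.b .z (.a (.l 18) .z))) (.a (.b .z (.c (.l 18) .z)) .z)) .z)
.z))) (.c (.a (.a (.b (.l 20) (.b (.a (.l 20) (.b (.l 20) (.a (.l 20) .z))) (.a (.b (.l 20) .z) (.b .z (.a .z (.l 18)))))) (.b (.a (.b (.a (.l 20) (.b
(.l 20) .z)) (.a (.b (.l 20) .z) .z)) (.a (.b .z (.a .z (.l 18))) (.b (.a .z (.l 18)) (.l 18)))) (.a (.b (.a .z (.l 18)) (.l 18)) (.l 18)))) (.a (.c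
(.l 18) (.b (.c (.l 18) (.a (.l 18) (.b .z (.l 18)))) (.l 18))) (.b (.c (.a (.l 18) (.c (.l 18) (.a (.l 18) .z))) (.a (.c (.a (.l 18) .z) .z) .z)) (.c
(.l 18) (.a (.c (.l 18) (.b .z (.l 18))) (.b .z (.c (.l 18) .z))))))) (.a (.a (.b (.l 20) (.b (.a (.l 20) (.b (.l 20) (.a (.l 20) .z))) (.a (.b (.l
20) .z) (.b .z (.a .z (.l 18)))))) (.b (.a (.b (.c (.l 20) (.c (.l 20) .z)) (.a (.b (.l 20) .z) .z)) (.a .z (.b .z (.c (.l 18) .z)))) (.a (.b (.a .z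
(.b .z (.l 18))) (.l 18)) (.c (.l 18) (.c (.l 18) .z))))) (.a (.b (.c (.c (.a (.b .z (.l 18)) .z) .z) .z) (.c (.c (.l 18) (.a (.l 18) .z)) .z)) (.b .z
(.c .z (.a .z (.b (.c .z (.a .z (.l 10))) (.c (.a .z (.l 10)) (.l 10)))))))))) (.b (.c (.a (.c (.a (.c (.l 20) (.a (.l 20) (.a (.c (.l 20) .z) .z)))
(.b (.a (.c .z (.a .z (.l 16))) (.l 16)) (.a (.c .z (.a .z (.l 16))) (.b (.l 16) (.a (.l 16) .z))))) (.a (.c (.c (.a (.a (.l 20) .z) (.a .z (.l 16)))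
(.a .z (.a .z (.l 16)))) (.c (.a (.l 12) (.a (.a (.l 12) .z) .z)) (.l 12))) (.a (.c (.l 16) (.c (.a .z (.l 16)) .z)) (.b (.l 16) (.b (.l 16) (.a (.l
16) .z)))))) (.a (.b (.a (.a (.l 16) (.b (.a (.l 16) .z) .z)) .z) .z) (.b .z (.c .z (.a .z (.b .z (.c .z (.l 10)))))))) (.a (.b (.c (.a (.l 12) (.a
(.c (.c (.a (.l 12) .z) (.l 12)) (.l 12)) (.c .z (.a (.l 12) .z)))) (.b (.l 12) (.c (.l 12) (.a (.l 12) (.a (.l 12) (.b (.l 12) .z)))))) (.c (.b (.a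
(.l 12) (.a (.c (.c .z (.l 12)) (.l 12)) .z)) (.c (.a (.l 12) (.a (.a (.l 12) .z) .z)) (.a (.l 12) (.a (.l 12) .z)))) (.b (.c (.a (.l 12) (.a (.l 12)
(.b (.l 12) .z))) (.a (.l 12) (.a (.b (.l 12) .z) .z))) (.c (.a (.b (.l 12) (.c (.l 12) .z)) .z) .z)))) (.a (.b (.c (.b (.a (.c (.l 16) .z) .z) .z)
(.b (.a (.c .z (.a (.l 12) .z)) .z) .z)) .z) (.b (.c (.a .z (.b .z (.c .z (.a .z (.l 10))))) (.a (.b .z (.c .z (.c (.l 10) .z))) (.b (.c (.a .z (.l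
10)) (.l 10)) (.l 10)))) (.c (.a (.b (.c .z (.a .z (.l 10))) (.c (.a .z (.l 10)) (.l 10))) (.b (.c (.a .z (.l 10)) (.l 10)) (.l 10))) (.c (.a (.c (.l
10) (.b (.l 10) .z)) (.l 10)) (.a .z (.c (.l 10) (.b (.l 10) .z))))))))) (.c (.a (.b (.c (.a (.c (.l 20) (.a (.l 20) .z)) .z) (.b (.a (.c .z (.c (.a
(.l 12) .z) (.l 12))) (.a (.c (.l 16) .z) .z)) (.c .z (.a (.c (.a (.l 12) .z) (.a (.l 12) .z)) .z)))) (.c (.b (.a (.a (.l 20) .z) .z) .z) .z)) (.a (.b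
(.c .z (.b .z (.a .z (.c .z (.a .z (.l 10)))))) (.c (.b .z (.a .z (.c .z (.a .z (.l 10))))) (.b (.a (.c .z (.b .z (.l 10))) (.c (.a .z (.l 10)) (.l
10))) (.a (.c (.b .z (.l 10)) (.c (.l 10) .z)) (.l 10))))) (.b (.c (.a .z (.b (.c .z (.a .z (.l 10))) (.c (.a .z (.l 10)) (.l 10)))) (.a (.b (.c .z
(.a .z (.l 10))) (.c (.a .z (.l 10)) (.l 10))) (.l 10))) (.c (.a (.b (.c .z (.l 10)) (.l 10)) (.l 10)) (.l 10))))) (.a (.b (.c (.b (.c (.a (.l 12) (.a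
(.a (.l 12) .z) .z)) (.a (.b (.l 12) (.c (.l 12) .z)) .z)) (.c (.a (.b (.l 12) (.c (.l 12) .z)) .z) .z)) .z) (.c (.b .z (.c .z (.a .z (.a (.l 26)
.z)))) (.a .z (.a (.b .z (.l 26)) (.c (.a (.l 26) .z) (.l 26)))))) (.a (.b (.c (.b (.a .z (.c (.a .z (.l 10)) (.c (.l 10) .z))) (.a .z (.c (.l 10)
.z))) .z) (.c (.c (.a .z (.b (.c (.l 10) .z) .z)) .z) .z)) (.c (.b (.c (.l 10) (.a (.b (.l 10) (.c (.l 10) .z)) (.l 10))) (.c (.a (.b (.l 10) (.c (.l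
10) .z)) (.l 10)) (.a .z (.b (.l 10) (.c (.l 10) .z))))) (.b (.c (.a .z (.c (.l 10) (.b (.l 10) .z))) .z) .z))))))))

theorem vQ42 : ev3 Q42 J3_0 J4_7 J4_10 = 249744553045104084110223 := by decide +kernel

noncomputable def Q31 : QT3 :=
(.a (.c (.a .z (.a .z (.c .z (.b (.a .z (.b (.b (.a .z (.c .z (.l 32))) .z) .z)) .z)))) (.b (.a (.a (.b (.b (.c (.a (.c .z (.l 70)) .z) .z) .z) .z)
.z) (.a (.c .z (.a .z (.a (.b .z (.c .z (.l 60))) (.c .z (.l 60))))) (.c (.a .z (.b (.c (.a .z (.b (.l 32) .z)) .z) .z)) (.a (.b .z (.c .z (.a (.l 60)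
.z))) .z)))) (.c .z (.b (.a .z (.a (.a (.a .z (.c (.l 60) .z)) (.c (.a (.l 60) .z) .z)) .z)) (.a (.c (.a (.b (.l 127) .z) .z) .z) .z))))) (.a (.c (.b
(.a (.a (.c .z (.b (.b (.l 32) (.a .z (.l 32))) .z)) (.c .z (.b (.a (.c (.b .z (.l 32)) (.l 32)) (.c .z (.b .z (.l 32)))) (.a (.b (.l 32) .z) (.l
32))))) (.a (.c .z (.a (.b .z (.c .z (.a (.l 32) .z))) .z)) .z)) (.c .z (.b (.a .z (.a (.a (.b (.l 32) (.a .z (.l 32))) (.c .z (.a (.l 32) .z))) .z))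
.z))) (.b (.c (.a (.b (.l 32) (.a (.b (.a .z (.l 32)) .z) (.b (.l 32) (.a (.b (.l 32) .z) (.l 32))))) (.b (.a (.a (.c (.a (.l 32) .z) (.l 32)) .z) .z)
(.a (.a (.l 32) (.c (.a (.l 32) .z) (.l 32))) .z))) (.a (.b (.a (.a (.c (.b .z (.l 32)) .z) (.c (.l 32) (.b .z (.l 32)))) (.l 32)) (.c (.a (.b (.l 32)
.z) (.l 32)) (.b (.a (.a .z (.l 32)) (.l 32)) .z))) (.b (.a (.c (.l 32) (.b (.l 32) (.a (.l 32) .z))) .z) (.a (.c (.b (.l 32) .z) .z) (.c .z (.b (.a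
.z (.c .z (.l 26))) (.a (.c .z (.l 26)) (.l 26)))))))) (.c (.b (.a (.c .z (.b (.a .z (.a .z (.l 32))) .z)) (.a (.c (.b (.l 32) .z) .z) .z)) .z) (.b
(.a (.c .z (.b .z (.a .z (.l 34)))) (.a .z (.c .z (.c .z (.a .z (.l 26)))))) (.a (.c .z (.a (.c (.b (.l 34) .z) (.b (.l 34) .z)) (.b (.a (.l 34) .z)
.z))) .z))))) (.c (.b (.a (.c (.a (.b (.a .z (.b (.l 59) .z)) .z) (.b (.l 59) (.a (.b (.l 59) .z) (.l 59)))) (.b (.a .z (.a (.b (.l 59) .z) (.l 59)))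
.z)) (.c (.b (.a (.l 59) (.c (.l 59) (.b (.l 59) .z))) (.a (.c (.l 59) (.b (.l 59) .z)) .z)) (.b (.a (.c (.l 59) (.b (.l 59) .z)) (.c .z (.b .z (.a .z
(.c .z (.l 26)))))) (.a .z (.c .z (.b (.a (.c .z (.l 26)) (.l 26)) (.a (.c .z (.l 26)) (.l 26)))))))) (.a (.c (.b .z (.a .z (.c .z (.b .z (.l 90)))))
(.b (.a .z (.c .z (.b .z (.l 90)))) (.a .z (.l 90)))) (.c (.b .z (.a (.c (.b .z (.l 90)) (.l 90)) (.c (.a (.l 90) .z) .z))) (.b (.a .z (.c (.a .z (.c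
.z (.a .z (.l 26)))) (.a (.c (.a .z (.l 26)) (.l 26)) (.l 26)))) (.a (.c (.a (.l 90) .z) (.a .z (.c .z (.a .z (.l 26))))) (.c (.a .z (.c (.a .z (.l
26)) (.l 26))) (.l 26))))))) (.b (.a (.c (.b (.a .z (.c (.b (.l 59) .z) .z)) (.a .z (.c .z (.b (.a .z (.c .z (.l 26))) (.c (.a .z (.l 26)) (.l
26)))))) (.b (.a (.c .z (.b .z (.a .z (.c .z (.l 26))))) (.c (.b .z (.a .z (.c .z (.l 26)))) (.b (.a .z (.c .z (.l 26))) (.l 26)))) (.a (.c (.b (.a .z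
(.c .z (.l 26))) (.c (.a .z (.l 26)) (.l 26))) (.l 26)) (.l 26)))) (.c (.b (.a (.c .z (.b .z (.a (.c .z (.l 26)) (.l 26)))) (.c (.b (.a .z (.c .z (.l
26))) (.a (.c .z (.l 26)) (.l 26))) (.b (.a (.c .z (.l 26)) (.l 26)) (.l 26)))) (.a (.c (.b (.a (.c .z (.l 26)) (.l 26)) (.a (.c .z (.l 26)) (.l 26)))
(.l 26)) (.l 26))) (.b (.a (.c (.b (.a (.c .z (.l 26)) (.l 26)) (.l 26)) (.l 26)) (.l 26)) (.l 26)))) (.a (.c (.b (.a .z (.c .z (.a (.c .z (.a .z (.l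
26))) (.l 26)))) (.a .z (.c .z (.a .z (.c (.a .z (.l 26)) (.l 26)))))) (.a (.c (.a .z (.c (.b (.a .z (.l 26)) .z) (.b (.l 26) (.a .z (.l 26))))) (.b
(.l 26) (.a (.c .z (.b (.l 26) .z)) (.l 26)))) (.l 26))) (.c (.a (.c (.a (.c (.a .z (.c .z (.l 26))) (.l 26)) (.l 26)) (.l 26)) (.l 26)) (.l 26)))))))

theorem vQ31 : ev3 Q31 J2_0 J4_6 J4_8 = 174759516663026451625736 := by decide +kernel

noncomputable def Q110 : QT3 :=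
(.a (.b (.c (.b (.a (.a (.l 17) (.b (.a (.l 17) (.b (.c (.l 17) .z) (.l 17))) (.l 17))) (.c (.a (.b (.a (.b .z (.a (.l 17) .z)) .z) (.a (.l 17) (.b
(.a (.l 17) .z) (.l 17)))) (.b (.a .z (.c .z (.a .z (.c .z (.l 6))))) .z)) (.a (.b .z (.c (.a (.l 17) .z) (.a (.b (.l 17) .z) .z))) (.b (.c (.a .z (.b
(.a .z (.l 6)) .z)) (.a (.b (.a .z (.l 6)) .z) .z)) .z)))) (.a (.c (.b (.l 17) (.a (.l 17) (.c (.l 17) (.b (.l 17) (.a (.l 17) .z))))) (.b (.a (.l 17)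
(.c (.b (.l 17) (.a (.l 17) .z)) (.b (.a (.l 17) .z) .z))) (.a (.c (.b (.l 17) (.a (.l 17) .z)) (.b (.a (.l 17) .z) .z)) (.c .z (.b .z (.a .z (.l
18))))))) (.c (.a (.b (.c (.l 17) (.a (.l 17) (.b (.l 17) .z))) (.c (.a (.l 17) (.b (.l 17) .z)) .z)) (.b (.c (.a (.b .z (.l 17)) .z) .z) .z)) (.a (.b
.z (.c (.a .z (.b .z (.l 18))) (.a (.l 18) (.a (.l 18) .z)))) .z)))) (.b (.a (.c (.b (.a (.l 17) (.c (.a (.l 17) .z) (.b .z (.a (.l 17) .z)))) (.a (.c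
(.l 17) (.b (.l 17) .z)) (.c (.b (.a (.l 17) .z) .z) .z))) (.b (.a (.c (.b (.l 17) (.a (.l 17) .z)) .z) .z) .z)) (.c (.a .z (.b (.c .z (.a .z (.l
35))) .z)) (.a .z (.b (.b (.b (.l 35) .z) .z) .z)))) (.a (.c (.b (.a (.c (.b (.a (.l 17) .z) .z) .z) .z) (.a .z (.c (.b (.a .z (.l 18)) (.l 18)) (.a
.z (.l 18))))) .z) (.c (.a (.b (.c (.a (.b .z (.l 18)) .z) .z) (.a (.c (.l 18) (.a (.l 18) .z)) .z)) (.b .z (.a (.l 33) (.b .z (.l 33))))) .z)))) (.c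
(.a (.b (.c (.b (.a (.c (.l 17) (.b (.l 17) (.a (.l 17) .z))) (.c (.b (.l 17) (.a (.l 17) .z)) .z)) (.a (.c (.b (.l 17) (.c (.l 17) .z)) .z) (.c .z
(.b .z (.a .z (.l 18)))))) (.b (.a (.c .z (.b .z (.a .z (.l 18)))) (.c (.b .z (.a .z (.l 18))) (.l 18))) (.a (.c (.b .z (.a .z (.l 18))) (.l 18)) (.l
18)))) (.c (.b (.a (.c .z (.b .z (.l 18))) (.c (.b .z (.l 18)) (.l 18))) (.a (.c (.b (.c .z (.l 18)) (.a (.l 18) .z)) (.b (.l 18) .z)) (.b (.a (.b (.l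
18) .z) .z) .z))) (.b (.a (.l 18) (.b (.l 18) (.a (.l 18) (.b (.l 18) .z)))) (.a (.b (.a (.l 18) (.b (.l 18) .z)) .z) (.b .z (.a .z (.l 29))))))) (.b
(.c (.a (.b (.c .z (.a .z (.b .z (.l 18)))) (.c (.a .z (.b .z (.l 18))) (.l 18))) (.b (.c (.a .z (.a (.l 18) .z)) (.a (.l 18) .z)) (.b (.a (.l 18) .z)
(.a (.b (.l 18) .z) .z)))) (.b (.a (.a (.l 18) (.c (.l 18) (.a (.l 18) .z))) (.a .z (.c .z (.l 33)))) (.a (.l 18) .z))) (.b (.a (.b (.a (.b (.l 18)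
(.c (.l 18) .z)) (.b (.a (.l 18) .z) .z)) .z) (.b (.a .z (.b .z (.l 29))) (.l 29))) (.a (.b (.a .z (.l 29)) (.l 29)) (.l 29))))) (.c (.b (.a (.a (.b
(.a .z (.c (.l 18) .z)) (.a (.c (.l 18) .z) (.l 18))) (.l 18)) (.b (.a (.a (.c (.l 18) (.a (.l 18) .z)) .z) (.a (.c .z (.l 33)) (.l 33))) (.a (.a (.l
18) (.a (.c (.l 18) .z) .z)) .z))) (.a (.c (.b (.a (.l 18) (.b (.l 18) .z)) .z) (.b (.a (.c (.b (.l 18) .z) .z) (.c (.b (.l 18) .z) (.b (.l 18) .z)))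
.z)) (.c (.b (.a .z (.b .z (.l 29))) (.l 29)) (.b (.a .z (.b .z (.l 29))) (.a (.c (.l 29) .z) (.l 29)))))) (.b (.a (.c (.b (.a .z (.a (.b .z (.l 18))
(.l 18))) (.a .z (.c (.l 18) (.b (.l 18) .z)))) (.b (.a .z (.c (.a .z (.l 18)) .z)) .z)) (.c (.b (.a .z (.l 33)) .z) .z)) (.a .z (.c (.b (.a .z (.b .z
(.l 29))) .z) (.b .z (.a (.c .z (.l 15)) .z)))))))) (.b (.c (.a (.b (.c (.a (.b (.c (.a (.a .z (.c .z (.l 6))) (.c .z (.l 6))) (.a (.l 6) (.b (.l 6)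
.z))) (.c (.a .z (.b (.c (.l 6) .z) .z)) (.a (.b (.c (.l 6) .z) .z) .z))) .z) (.a (.b (.c (.a (.b (.c (.l 6) .z) .z) .z) .z) (.c .z (.b (.l 35) .z)))
(.b (.c .z (.l 35)) (.a (.l 35) (.c .z (.l 35)))))) (.c .z (.b .z (.a (.a .z (.l 69)) .z)))) (.b .z (.c (.c (.b .z (.a .z (.c .z (.l 23)))) (.b .z (.a
.z (.b (.l 23) .z)))) (.b (.a .z (.b .z (.a .z (.l 23)))) (.a .z (.b (.c (.a .z (.l 23)) .z) .z)))))) (.a (.b (.c (.a (.b (.c (.a .z (.l 35)) (.l 35))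
.z) (.b (.l 35) (.b (.l 35) .z))) (.b (.b (.l 35) (.a .z (.l 35))) .z)) (.b (.c (.b .z (.a (.l 69) .z)) (.a (.c (.l 69) .z) (.l 69))) (.a (.a .z (.l
69)) (.b (.l 69) (.a (.l 69) .z))))) (.c (.b (.b (.a (.a (.l 35) (.c .z (.l 35))) .z) (.a (.a (.b (.l 35) .z) (.c .z (.l 35))) .z)) .z) (.c (.b (.a
(.b (.l 35) (.b (.l 35) .z)) (.a (.a (.l 35) .z) .z)) .z) (.a (.b (.b (.l 35) .z) .z) .z))))) (.c (.b (.a (.b (.a (.b .z (.a (.c .z (.l 33)) .z)) .z)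
(.a (.b (.a .z (.b .z (.l 29))) (.a (.b .z (.l 29)) (.l 29))) (.b (.b .z (.a (.l 29) .z)) (.l 29)))) (.b .z (.c .z (.b .z (.a (.b .z (.l 29)) .z)))))
(.b (.a (.l 29) (.b (.a (.l 29) (.b .z (.a (.l 29) .z))) (.l 29))) (.l 29))) (.c (.b (.a (.b (.a (.b .z (.a (.l 33) .z)) .z) (.a (.b .z (.l 29)) (.b
(.b .z (.l 29)) (.l 29)))) (.b (.a (.a (.l 63) .z) .z) (.b .z (.a (.b .z (.l 29)) .z)))) (.b (.a (.l 29) (.b (.a (.l 29) (.b .z (.l 29))) (.l 29)))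
(.l 29))) (.a (.b (.b (.a (.b .z (.a (.l 33) .z)) .z) (.a (.b .z (.l 29)) (.b (.b .z (.l 29)) (.l 29)))) (.c (.l 29) (.a (.b (.c (.l 29) .z) .z) (.l
29)))) (.c (.b .z (.l 29)) (.a (.b (.b .z (.b .z (.l 29))) (.l 29)) (.c (.b .z (.l 29)) (.a (.b .z (.l 29)) .z)))))))))

theorem vQ110 : ev3 Q110 J3_1 J4_9 J4_11 = 192277552245485142854848 := by decide +kernel

noncomputable def Q44 : QT3 :=
(.b (.c (.b (.c (.a (.l 12) (.a (.c (.a (.l 12) (.c (.a (.l 12) (.c .z (.a (.l 12) .z))) (.l 12))) (.l 12)) (.b (.c (.a (.a (.c .z (.a (.l 12) .z))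
.z) (.a (.c (.l 16) .z) .z)) (.a (.a (.l 12) (.c (.a (.l 12) .z) (.l 12))) .z)) (.c .z (.a (.b (.a (.l 12) (.c .z (.l 12))) (.c (.a (.l 12) .z) (.a
(.l 12) .z))) .z))))) (.a (.b (.l 12) (.c (.l 12) (.b (.l 12) (.a (.l 12) (.c (.l 12) (.a (.l 12) .z)))))) (.a (.b (.c (.l 12) (.b (.l 12) (.a (.l 12)
(.c (.l 12) (.a (.l 12) .z))))) (.c (.b (.l 12) (.a (.l 12) (.c (.a (.l 12) .z) .z))) (.b (.a (.c (.l 12) (.b (.l 12) .z)) .z) .z))) (.b (.c (.a (.b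
(.l 12) (.c (.l 12) (.a (.l 12) .z))) (.b (.c (.a (.l 12) .z) (.a (.l 12) .z)) .z)) (.a (.b (.c (.a (.l 12) .z) .z) .z) .z)) (.c (.a (.b (.c (.a (.l
12) .z) .z) .z) .z) .z))))) (.c (.a (.b (.l 12) (.c (.l 12) (.b (.c (.l 12) (.a (.l 12) (.a (.l 12) (.b (.l 12) .z)))) (.c (.a (.l 12) (.a (.l 12)
.z)) (.a (.b (.l 12) (.c (.l 12) .z)) .z))))) (.a (.b (.c (.a (.l 12) (.a (.l 12) (.c .z (.l 12)))) (.b (.a (.l 12) (.c (.l 12) (.a (.l 12) .z))) (.a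
(.c (.l 12) (.b (.l 12) .z)) (.c (.a (.l 12) .z) .z)))) (.c (.b (.a (.l 12) .z) (.a (.c (.l 12) .z) .z)) (.b (.a (.c (.b (.l 12) .z) .z) .z) .z))) (.b
.z (.c (.a .z (.b (.c (.a .z (.l 10)) (.c (.l 10) .z)) (.c (.l 10) .z))) .z)))) (.a (.b (.c (.b (.l 12) (.c (.a (.l 12) (.a (.l 12) (.b (.l 12) .z)))
(.a (.l 12) (.a (.b (.l 12) .z) .z)))) (.b (.a (.c (.l 12) (.b (.l 12) (.c (.l 12) .z))) (.c (.a (.b (.l 12) .z) .z) .z)) (.a (.c (.b (.c (.l 12) .z)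
.z) .z) .z))) (.c (.b (.c (.a (.b (.l 12) (.c (.l 12) .z)) .z) (.a (.b (.c (.l 12) .z) .z) .z)) .z) .z)) (.a (.b (.c (.b (.a (.c (.b (.l 12) .z) .z)
.z) .z) .z) .z) (.b (.c .z (.a .z (.a (.b .z (.l 26)) (.c .z (.l 26))))) (.a (.c (.a .z (.c .z (.l 26))) (.a .z (.b .z (.l 26)))) (.c .z (.a (.l 26)
.z)))))))) (.b (.a (.c (.b (.c (.b (.l 12) (.a (.l 12) (.c (.l 12) (.a (.l 12) (.b (.l 12) .z))))) (.b (.a (.l 12) (.c (.l 12) (.a (.l 12) .z))) (.a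
(.c (.l 12) (.b (.l 12) .z)) (.c (.a (.b (.l 12) .z) .z) .z)))) (.c (.b (.a (.l 12) (.c (.a (.l 12) (.b (.l 12) .z)) (.a (.b (.l 12) .z) .z))) (.a (.c
(.b (.l 12) (.c (.l 12) .z)) .z) .z)) (.b (.a (.c (.b (.c (.l 12) .z) .z) .z) .z) .z))) (.b (.c (.b (.a (.c (.b (.l 12) (.c (.l 12) .z)) .z) (.c .z
(.a .z (.b .z (.l 6))))) (.a (.c .z (.b (.c .z (.l 6)) .z)) (.c .z (.c (.a .z (.l 6)) (.l 6))))) (.b (.a (.c (.b .z (.l 6)) (.l 6)) (.c (.a (.b .z (.l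
6)) (.l 6)) (.l 6))) (.l 6))) (.c (.c .z (.a .z (.c .z (.a .z (.b (.l 6) .z))))) (.c (.a (.c (.b (.b (.l 6) .z) .z) (.l 6)) (.c (.a (.b (.l 6) .z) (.l
6)) (.l 6))) (.l 6))))) (.c (.a (.b (.c (.b (.a (.c (.l 12) (.b (.l 12) .z)) (.c (.a (.l 12) .z) .z)) (.a (.c (.b (.l 12) .z) .z) .z)) .z) .z) (.b (.c
.z (.a (.c (.c .z (.a .z (.l 6))) (.l 6)) (.l 6))) (.c .z (.a (.c .z (.a (.c .z (.l 6)) (.l 6))) (.c (.a (.c .z (.l 6)) (.l 6)) (.l 6)))))) (.a (.b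
(.c (.b (.a (.c .z (.l 6)) (.l 6)) (.c (.a (.c .z (.l 6)) (.l 6)) (.l 6))) (.l 6)) (.c (.c (.a .z (.c (.a .z (.l 6)) (.l 6))) (.a (.c (.a .z (.l 6))
(.l 6)) (.l 6))) (.l 6))) (.l 6)))) (.a (.c .z (.c .z (.c (.b (.a .z (.a (.c .z (.b (.l 6) .z)) (.c .z (.l 6)))) .z) (.b (.a (.c (.b (.l 6) .z) (.l
6)) (.l 6)) (.a .z (.a (.c .z (.b (.l 6) .z)) (.c (.b (.l 6) .z) (.l 6)))))))) (.c (.a .z (.c (.a (.b .z (.a .z (.b .z (.l 26)))) (.c (.b (.a .z (.l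
26)) (.l 26)) .z)) (.a (.c .z (.b (.a .z (.c .z (.l 6))) .z)) (.c (.a .z (.c .z (.b (.l 6) .z))) (.a (.b (.l 6) (.c .z (.l 6))) (.l 6)))))) (.a (.c
(.c .z (.a (.b (.c .z (.a .z (.l 6))) .z) (.b (.c (.a .z (.l 6)) (.l 6)) (.a .z (.c .z (.l 6)))))) (.c (.a (.b (.l 6) (.c .z (.a .z (.l 6)))) (.l 6))
(.l 6))) (.c (.a (.c (.b (.a (.c .z (.l 6)) (.l 6)) (.a .z (.c .z (.l 6)))) (.l 6)) (.l 6)) (.l 6))))))) (.c (.b (.c (.a (.b (.c (.b (.c (.l 12) (.a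
(.l 12) (.a (.b (.l 12) .z) .z))) (.c (.a (.l 12) (.a (.b (.l 12) .z) .z)) (.a (.b (.c (.l 12) .z) .z) .z))) (.b (.c (.a (.b (.l 12) (.c (.l 12) .z))
.z) .z) .z)) (.c (.b (.c (.a (.b (.c (.l 12) .z) .z) .z) .z) .z) .z)) (.a (.b (.c .z (.b .z (.a .z (.a .z (.l 26))))) (.a (.a .z (.b .z (.l 26))) (.c
.z (.a (.l 26) (.c .z (.l 26)))))) (.c (.c (.b (.a .z (.c (.l 10) .z)) .z) .z) .z))) (.a .z (.a (.a (.b .z (.a .z (.b .z (.a .z (.l 26))))) (.b (.a .z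
(.b .z (.l 26))) (.l 26))) (.a (.c (.a (.c (.a (.l 26) .z) (.l 26)) (.c .z (.a (.l 26) .z))) (.l 26)) (.c .z (.a (.c .z (.b (.l 26) .z)) .z)))))) (.c
(.a (.a (.b .z (.b .z (.a .z (.b .z (.a .z (.l 26)))))) (.b (.a .z (.b .z (.a .z (.l 26)))) (.a (.b (.a .z (.b .z (.l 26))) (.l 26)) (.l 26)))) (.c
(.a (.a (.a (.l 26) (.c .z (.l 26))) .z) .z) (.a (.a (.l 26) (.a (.c (.a (.l 26) .z) (.l 26)) .z)) .z))) (.a (.b (.a .z (.a .z (.b .z (.a .z (.l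
26))))) (.a (.b .z (.a .z (.b .z (.a .z (.l 26))))) (.a (.b (.a .z (.b .z (.l 26))) (.l 26)) (.l 26)))) (.a (.a (.b (.a (.b (.a .z (.l 26)) (.l 26))
(.l 26)) (.l 26)) (.l 26)) (.a (.c (.a (.c .z (.a (.l 26) .z)) .z) (.a (.l 26) (.c .z (.b (.l 26) .z)))) .z))))) (.c (.a (.b .z (.b (.a .z (.a .z (.b
.z (.a .z (.b .z (.l 26)))))) (.a (.b .z (.b .z (.a .z (.a .z (.l 26))))) (.a (.b (.a .z (.b .z (.l 26))) (.a (.b .z (.l 26)) (.l 26))) (.l 26)))))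
(.a (.b (.a (.b .z (.a .z (.b .z (.a .z (.l 26))))) (.b (.a .z (.b .z (.a .z (.l 26)))) (.a (.b (.a .z (.l 26)) (.l 26)) (.l 26)))) (.a (.b (.a (.b
(.b .z (.l 26)) (.l 26)) (.l 26)) (.l 26)) (.l 26))) (.c (.a (.l 26) (.b (.a (.l 26) (.b (.c .z (.l 26)) .z)) (.a (.b (.a (.l 26) .z) .z) .z))) (.a
(.b (.c (.l 26) (.a (.l 26) (.b .z (.l 26)))) (.l 26)) (.b (.c (.a (.b .z (.l 26)) .z) (.a .z (.b (.c .z (.l 6)) .z))) (.c (.a (.b (.l 26) .z) .z) (.a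
(.b .z (.l 26)) .z))))))) (.a (.c (.b .z (.b .z (.a .z (.a (.b .z (.a .z (.l 26))) (.l 26))))) (.b (.c (.b .z (.a .z (.a .z (.l 22)))) (.b .z (.a .z
(.a .z (.c (.l 22) .z))))) (.b .z (.a .z (.a (.b .z (.a .z (.l 26))) (.l 26)))))) (.a (.c (.b (.a .z (.c (.b .z (.a .z (.l 26))) .z)) (.a (.b (.a (.b
.z (.l 26)) (.l 26)) (.l 26)) (.l 26))) (.b (.a (.c .z (.b (.c .z (.a .z (.l 6))) .z)) (.c (.b (.a .z (.c .z (.l 6))) .z) (.b (.l 6) (.a (.c .z (.l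
6)) (.l 6))))) (.a (.c (.b (.a .z (.l 26)) (.l 26)) (.b .z (.l 26))) (.c (.b .z (.l 26)) .z)))) (.c (.a (.b (.c .z (.b (.a (.c .z (.l 6)) (.l 6)) (.a
.z (.c .z (.l 6))))) (.c (.a (.l 26) (.b .z (.l 26))) (.b .z (.a (.l 26) .z)))) (.b (.c (.a (.b (.c .z (.l 6)) .z) (.l 6)) (.l 6)) (.c .z (.a (.b (.c
.z (.l 6)) .z) (.b (.l 6) (.c .z (.l 6))))))) (.b (.a (.c (.b (.l 6) (.a (.c .z (.l 6)) (.l 6))) (.l 6)) (.l 6)) (.a (.c (.b (.a .z (.c .z (.l 6)))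
.z) (.b (.a (.c .z (.l 6)) (.l 6)) (.a .z (.c .z (.l 6))))) (.c (.a (.b (.l 6) (.c .z (.l 6))) (.l 6)) (.l 6))))))))))

theorem vQ44 : ev3 Q44 J3_0 J4_7 J4_11 = 192876674957899865816278 := by decide +kernel

noncomputable def Q22 : QT3 :=
(.a (.c (.b (.c (.a (.b (.c (.b (.c .z (.b .z (.c .z (.l 28)))) (.c (.b (.c .z (.l 28)) (.l 28)) (.l 28))) (.l 28)) (.l 28)) (.b (.c (.a (.b .z (.c .z
(.b .z (.l 28)))) .z) (.a (.b (.c (.b .z (.l 28)) (.l 28)) (.l 28)) (.b .z (.c .z (.l 28))))) (.c (.a (.b (.c (.b .z (.l 28)) (.l 28)) (.l 28)) (.b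
(.a (.c .z (.l 28)) .z) (.a (.l 28) (.c .z (.l 28))))) (.l 28)))) (.l 28)) (.l 28)) (.b (.c (.l 28) (.a (.c (.b (.c (.l 28) (.b .z (.c (.l 28) (.b .z
(.l 28))))) (.l 28)) (.b .z (.c (.b (.c (.l 28) .z) (.l 28)) (.b .z (.c (.b .z (.l 28)) .z))))) (.a (.c (.b (.c (.b (.c (.l 28) .z) (.l 28)) .z) (.c
(.l 28) (.b (.c (.l 28) .z) (.l 28)))) (.b .z (.c (.b .z (.c (.l 28) .z)) .z))) (.c (.b .z (.c (.l 28) (.b .z (.a (.l 28) .z)))) .z)))) (.c (.l 28)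
(.a (.l 28) (.c (.l 28) (.b (.a (.c (.l 28) (.b .z (.l 28))) (.c (.b .z (.a (.l 28) .z)) .z)) (.a (.l 28) (.c (.l 28) (.a (.l 28) (.b .z (.l
28))))))))))) (.a (.a (.c (.b (.c (.b (.c (.a .z (.a (.a .z (.l 30)) (.l 30))) (.a .z (.c (.b (.l 30) .z) .z))) (.c .z (.a (.b (.c .z (.l 28)) (.c .z
(.l 28))) .z))) (.b (.c (.a (.b (.c .z (.l 28)) (.l 28)) .z) (.l 28)) (.c (.a (.l 28) (.c (.b .z (.l 28)) (.l 28))) (.l 28)))) (.c (.a (.b (.c (.b .z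
(.c .z (.l 28))) (.l 28)) (.l 28)) (.b (.c .z (.a (.l 28) (.c .z (.l 28)))) (.c (.a (.b .z (.l 28)) .z) (.l 28)))) (.l 28))) (.c (.b (.c (.l 28) (.c
(.l 28) (.b (.a (.c (.l 28) .z) .z) (.a (.l 28) (.c (.l 28) .z))))) (.l 28)) (.b .z (.c (.b (.a (.c (.l 28) .z) .z) (.a (.l 28) (.c (.l 28) .z))) (.b
(.a .z (.c .z (.b .z (.b .z (.l 24))))) (.a (.c (.b .z (.l 28)) .z) (.c .z (.a .z (.b (.l 24) .z))))))))) (.a (.c (.c (.b (.c (.b (.l 30) (.b (.l 30)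
(.b (.l 30) .z))) (.b (.l 30) (.c (.a .z (.l 30)) .z))) (.c .z (.b .z (.a (.c .z (.l 28)) .z)))) (.b (.c (.b (.c (.a .z (.l 30)) .z) .z) (.b (.c .z
(.l 28)) (.l 28))) (.c (.b (.a (.l 28) (.c .z (.l 28))) (.l 28)) (.l 28)))) (.c (.c (.l 28) (.b (.c (.b (.c (.l 28) .z) (.l 28)) .z) (.c (.l 28) (.b
(.a (.l 28) .z) (.l 28))))) (.c .z (.b .z (.c (.b .z (.a (.b (.l 24) .z) (.l 24))) (.b (.b .z (.b .z (.l 24))) (.l 24))))))) (.c (.c (.b (.a (.l 30)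
(.b (.a (.l 30) (.c .z (.l 30))) (.l 30))) (.c (.b (.b (.a .z (.l 30)) .z) .z) (.a .z (.b (.b (.l 30) .z) .z)))) (.b (.c (.a (.b (.c (.l 30) .z) .z)
(.c (.l 30) (.b (.l 30) .z))) (.a (.b .z (.c .z (.l 28))) .z)) (.c (.a .z (.c (.b (.l 30) .z) .z)) (.a (.l 28) (.c .z (.a (.l 28) .z)))))) (.b (.c (.c
(.a (.l 28) (.c (.b .z (.l 28)) (.l 28))) .z) .z) (.c (.c (.l 28) (.c (.a (.l 28) (.c (.l 28) .z)) .z)) (.c (.c .z (.b .z (.b .z (.b .z (.l 24)))))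
(.b (.b .z (.c .z (.b .z (.l 24)))) (.b (.c (.b .z (.l 24)) (.l 24)) (.l 24))))))))) (.c (.b (.a (.c (.a (.a (.a (.b .z (.c .z (.l 30))) .z) .z) .z)
(.a (.a (.c (.a (.l 30) .z) (.c (.a (.l 30) .z) .z)) .z) .z)) .z) (.a (.c (.a (.b (.c (.a (.a (.l 30) .z) .z) (.a (.a (.l 30) .z) .z)) .z) .z) (.a (.b
(.a (.c (.l 30) .z) .z) .z) .z)) .z)) (.b (.a (.a (.c .z (.a .z (.a .z (.l 57)))) (.a (.c (.c (.a .z (.l 57)) (.l 57)) (.l 57)) (.l 57))) (.c (.a (.b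
(.a (.l 57) (.c .z (.l 57))) (.a (.c .z (.l 57)) .z)) .z) (.b .z (.a (.c (.a (.l 57) .z) .z) .z)))) (.a (.c (.b (.a .z (.a (.l 57) (.c .z (.l 57))))
(.a (.a (.c (.a (.l 28) .z) .z) .z) .z)) (.b (.a .z (.c (.l 57) (.b (.l 57) .z))) .z)) .z)))))

theorem vQ22 : ev3 Q22 J2_0 J4_4 J4_9 = 589596536904669214236794 := by decide +kernel

noncomputable def Q168 : QT3 :=
(.a (.b (.c (.b (.c (.b (.c (.c (.b (.a .z (.c .z (.l 10))) (.l 10)) (.l 10)) (.l 10)) (.a (.c (.l 10) (.b (.a (.c (.l 10) .z) (.l 10)) (.a .z (.c (.l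
10) .z)))) (.l 10))) (.a (.b (.c (.b (.a (.c (.l 10) .z) (.l 10)) (.a .z (.c (.l 10) .z))) (.b .z (.a (.c .z (.l 11)) .z))) (.c .z (.a (.c (.c .z (.l
11)) (.l 11)) (.b (.c .z (.l 11)) (.c .z (.l 11)))))) (.b (.c (.l 10) (.a (.b (.l 10) .z) (.l 10))) (.c (.a (.b (.c (.l 10) .z) .z) (.b (.l 10) (.c
(.l 10) .z))) .z)))) (.c (.a (.b (.c (.b (.a (.c (.l 10) .z) (.l 10)) .z) .z) (.c (.a (.b .z (.l 19)) .z) .z)) (.b (.c (.l 10) (.a (.b (.c (.l 10) .z)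
.z) (.b (.l 10) (.c (.l 10) .z)))) (.c (.a .z (.b (.l 10) (.c (.l 10) .z))) .z))) (.a (.b (.c (.a (.c .z (.c .z (.l 11))) .z) (.c (.a (.l 11) (.b (.l
11) .z)) (.a (.b (.l 11) .z) .z))) (.c (.c .z (.a (.l 11) .z)) (.c (.a (.b (.l 11) .z) .z) .z))) (.b .z (.c .z (.a .z (.a .z (.l 21)))))))) (.b (.c
(.a (.b (.c (.b (.a (.c .z (.l 11)) .z) (.a (.l 11) (.c .z (.l 11)))) (.c (.a (.l 11) (.b (.l 11) .z)) (.a (.b (.l 11) .z) .z))) (.c (.c (.a (.l 11)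
(.b (.l 11) .z)) (.a (.b (.l 11) .z) .z)) (.a .z (.c .z (.b .z (.l 12)))))) (.b (.c (.a .z (.b (.c (.l 10) .z) .z)) .z) (.c .z (.a (.c .z (.l 12))
.z)))) (.a (.c (.b (.a .z (.c .z (.c (.l 12) .z))) (.a .z (.c (.c (.l 12) .z) .z))) (.c (.b .z (.c (.a .z (.l 13)) .z)) .z)) (.b (.c (.a (.c (.l 12)
.z) (.b .z (.c (.l 12) .z))) (.c (.c (.b .z (.l 13)) (.l 13)) (.c (.a .z (.l 13)) .z))) (.c (.c (.c (.b (.l 12) .z) .z) (.c .z (.b .z (.l 13)))) (.c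
(.c (.l 13) (.a .z (.l 13))) .z))))) (.c (.a (.c (.b .z (.a (.c .z (.c .z (.l 12))) .z)) (.b (.a (.c (.b .z (.l 12)) (.c (.l 12) .z)) (.c (.c .z (.l
12)) (.c (.l 12) .z))) (.c (.c (.l 12) (.b (.l 12) .z)) .z))) (.c .z (.c .z (.b .z (.c .z (.b .z (.l 13))))))) (.c (.c (.b (.c .z (.b .z (.a .z (.l
13)))) (.c (.b (.a .z (.l 13)) (.l 13)) (.l 13))) (.b (.c (.b (.a .z (.l 13)) (.l 13)) (.a (.a .z (.l 13)) (.l 13))) (.a (.c (.l 13) .z) (.l 13))))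
(.c (.a .z (.c (.b (.l 13) (.a .z (.l 13))) .z)) (.a .z (.c .z (.a (.l 15) .z)))))))) (.c (.b (.c (.a (.c (.b (.a (.l 19) .z) (.c .z (.a (.l 19) .z)))
(.b (.c (.a (.l 19) .z) .z) .z)) (.b .z (.c .z (.a .z (.c .z (.l 21)))))) (.a .z (.c (.b (.a .z (.c .z (.l 21))) (.l 21)) (.a (.b .z (.l 21)) (.l
21))))) (.c (.a (.c .z (.b .z (.a .z (.l 21)))) (.c (.b (.a .z (.c .z (.l 21))) (.a (.c .z (.l 21)) (.l 21))) (.l 21))) (.c (.b (.a (.a .z (.a .z (.l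
21))) (.l 21)) (.c (.a (.a .z (.l 21)) (.l 21)) (.b (.a .z (.l 21)) .z))) (.b (.c (.a .z (.l 21)) .z) .z)))) (.c (.b (.c (.b (.c (.a .z (.a .z (.l
21))) .z) .z) (.b (.c .z (.c (.b (.a .z (.l 13)) (.a .z (.l 13))) (.l 13))) (.c .z (.a (.c .z (.l 13)) (.l 13))))) (.c (.b .z (.c (.b .z (.a .z (.l
23))) .z)) (.c (.a .z (.c .z (.a (.a .z (.l 13)) (.l 13)))) (.a (.b (.c .z (.a .z (.l 13))) (.c (.a .z (.l 13)) .z)) (.l 13))))) (.c (.b (.c (.a (.b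
(.l 13) (.c (.a .z (.l 13)) .z)) (.l 13)) (.a .z (.c (.b (.l 13) (.a .z (.l 13))) (.b (.a .z (.l 13)) .z)))) (.c (.a .z (.b (.c (.l 13) (.a .z (.l
13))) (.c (.a .z (.l 13)) .z))) .z)) (.c (.b .z (.a (.a .z (.c .z (.l 15))) (.c (.a (.l 15) .z) (.l 15)))) (.a (.a (.b .z (.c .z (.l 15))) (.b (.c .z
(.l 15)) (.l 15))) (.l 15))))))) (.b (.c (.b (.c (.a (.c (.a (.c (.a (.l 10) (.c .z (.l 10))) (.l 10)) (.c .z (.a (.c .z (.l 10)) .z))) (.l 10)) (.c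
(.a (.c (.l 19) (.a .z (.l 19))) (.l 19)) (.a (.c (.a (.c .z (.l 10)) .z) (.a (.l 10) (.c .z (.l 10)))) .z))) (.a (.b (.l 10) (.c (.l 10) (.a (.b (.l
10) (.c (.l 10) .z)) (.l 10)))) (.c (.a (.l 10) (.c (.a (.l 10) .z) (.l 10))) (.l 10)))) (.c (.a (.b (.c (.a (.c (.a (.l 10) .z) (.l 10)) (.c .z (.a
(.l 10) .z))) (.l 10)) (.c (.a (.c (.a (.l 10) .z) (.l 10)) (.c .z (.a (.l 10) .z))) (.a (.b (.c (.l 10) .z) .z) (.b (.l 10) (.c (.l 10) .z))))) (.c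
(.a (.c (.l 19) (.a .z (.l 19))) (.l 19)) (.a (.c (.a (.c .z (.l 10)) .z) (.a (.l 10) (.c .z (.l 10)))) (.c (.l 19) .z)))) (.a (.b (.c (.a (.b (.c (.l
10) .z) .z) (.l 10)) (.a .z (.b (.c (.l 10) .z) .z))) (.c (.a .z (.b (.c (.l 10) .z) .z)) (.a (.b .z (.l 21)) .z))) (.b (.c (.a (.l 10) (.c .z (.l
10))) (.a (.b (.l 10) (.c (.l 10) .z)) (.l 10))) (.c (.a (.b (.l 10) (.c (.l 10) .z)) (.c .z (.a (.l 10) .z))) (.a .z (.b (.l 10) (.c (.l 10)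
.z)))))))) (.a (.b (.c (.b (.c (.a (.b (.l 10) (.c (.l 10) .z)) (.l 10)) (.a .z (.b (.l 10) (.c (.l 10) .z)))) (.c (.a .z (.b (.c (.l 10) .z) .z))
.z)) (.b (.c .z (.a (.c (.l 13) (.c (.l 13) .z)) (.b .z (.c .z (.l 13))))) (.c (.a (.c .z (.c .z (.l 13))) (.b (.c .z (.l 13)) (.c .z (.l 13)))) (.c
(.l 13) (.c (.l 13) (.a .z (.l 13))))))) (.c (.b (.c (.a (.b .z (.l 21)) .z) .z) (.c (.c (.l 21) (.b (.l 21) .z)) (.c .z (.c (.b .z (.l 13)) (.l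
13))))) (.c (.c (.b (.c (.b .z (.l 13)) (.l 13)) (.l 13)) (.l 13)) (.c (.c (.l 13) (.a (.b (.l 13) .z) (.l 13))) (.c (.a .z (.b (.l 13) .z)) .z)))))
(.b (.c (.b (.c (.a (.l 10) (.c (.l 10) (.a (.l 10) .z))) (.a (.c (.l 10) .z) (.c .z (.a .z (.l 13))))) (.c (.a (.l 10) (.c (.l 10) (.a (.l 10) .z)))
(.a (.b (.c (.l 10) .z) .z) .z))) (.b .z (.a (.c .z (.b (.a (.l 13) .z) (.l 13))) .z))) (.c (.b (.c (.a (.b (.c (.l 10) .z) .z) (.b (.c (.l 10) .z)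
(.c (.l 10) .z))) .z) (.c .z (.a (.c .z (.l 13)) .z))) (.a (.b (.c (.b (.a (.l 13) .z) (.l 13)) (.l 13)) (.c (.l 13) (.c (.l 13) (.c (.l 13) .z))))
(.b (.c (.b .z (.a (.l 13) .z)) (.b (.a (.l 13) .z) (.l 13))) (.a (.l 13) (.c (.l 13) (.b (.l 13) .z))))))))) (.c (.a (.b (.c (.b (.c (.a (.b (.c (.l
10) .z) .z) .z) .z) (.c .z (.a (.l 21) .z))) (.b (.c (.a (.l 21) .z) (.l 21)) (.c (.l 21) (.c (.l 21) (.b (.l 21) .z))))) (.c (.b (.c (.a (.l 21) (.b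
.z (.l 21))) (.l 21)) (.l 21)) (.c (.b (.l 21) (.c (.l 21) (.b (.l 21) .z))) (.b (.c (.b (.l 21) .z) .z) .z)))) (.b (.c (.b (.c (.a (.c (.l 19) .z)
(.b (.l 19) .z)) .z) .z) (.b .z (.c (.a (.b .z (.l 21)) .z) (.a (.c (.l 21) .z) .z)))) (.c (.a (.b (.c .z (.b .z (.l 21))) (.c (.b .z (.l 21)) (.l
21))) (.b .z (.c .z (.a (.l 21) .z)))) (.a (.b (.c (.l 21) .z) .z) (.b (.c (.a (.l 21) .z) .z) .z))))) (.a (.b (.c (.c (.b (.c (.b (.l 21) .z) .z) .z)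
(.b (.c (.b (.c .z (.l 13)) (.c .z (.l 13))) (.l 13)) (.l 13))) (.c (.l 13) (.c (.c (.a (.b (.l 13) .z) (.l 13)) (.a .z (.b (.l 13) .z))) (.c .z (.a
(.l 15) .z))))) (.c (.a (.c .z (.l 13)) (.b (.c (.c .z (.c .z (.l 13))) (.l 13)) (.c .z (.a (.b (.l 13) .z) .z)))) (.a (.b (.c (.c (.l 13) (.c (.l 13)
.z)) (.c .z (.l 15))) (.c (.a (.c (.l 13) .z) .z) .z)) (.b (.c (.a (.l 13) (.b (.l 13) .z)) .z) .z)))) (.b (.c (.a (.c (.b .z (.c .z (.c .z (.l 13))))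
(.l 13)) (.b (.c .z (.a (.l 13) (.b (.l 13) .z))) (.c (.a (.c .z (.l 13)) .z) .z))) (.a (.b (.a (.c (.l 13) (.c (.l 13) .z)) (.c (.l 13) .z)) (.a (.c
(.l 13) .z) .z)) (.b (.a (.c (.b (.l 13) .z) .z) .z) .z))) (.c (.a (.b (.c (.a (.c .z (.l 13)) .z) (.a (.b (.l 13) .z) .z)) .z) .z) .z))))))

theorem vQ168 : ev3 Q168 J4_4 J4_11 J4_13 = 96918423839814319281876 := by decide +kernel

noncomputable def Q123 : QT3 :=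
(.c (.b (.c (.b (.a (.c .z (.c .z (.b .z (.a (.c (.l 15) .z) .z)))) (.c .z (.c (.b (.c .z (.a .z (.c .z (.l 7)))) (.a .z (.c .z (.c .z (.a .z (.l
7)))))) (.b (.a (.c (.b (.c .z (.l 7)) (.a .z (.l 7))) (.b (.a .z (.l 7)) .z)) (.l 7)) (.a .z (.c (.b (.l 7) (.a .z (.l 7))) (.b (.a .z (.l 7))
.z))))))) (.c (.a (.c .z (.b .z (.a .z (.c .z (.b .z (.l 15)))))) .z) (.a (.c (.b (.a (.c .z (.l 15)) (.c .z (.b .z (.l 15)))) (.a (.c (.a .z (.l 15))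
(.l 15)) (.l 15))) (.c (.a (.l 15) (.b (.c (.l 15) .z) (.l 15))) (.a (.b (.c (.l 15) .z) (.l 15)) .z))) (.c (.b .z (.a (.c .z (.l 15)) .z)) .z)))) (.c
(.b (.a (.c (.b (.a (.c (.c .z (.a (.l 8) .z)) (.l 8)) (.c .z (.c .z (.a (.l 8) .z)))) (.c .z (.a (.c (.a (.l 8) .z) (.l 8)) .z))) (.c (.a (.l 8) (.c
(.a (.l 8) (.b (.l 8) .z)) (.l 8))) (.l 8))) (.c (.b (.a .z (.c (.b (.a .z (.l 7)) .z) .z)) .z) (.b (.a (.c (.a (.c .z (.l 8)) .z) (.l 8)) .z) (.a (.c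
.z (.a (.l 8) (.c .z (.l 8)))) .z)))) (.a (.c (.a (.c .z (.c (.a (.b (.l 8) .z) .z) (.a (.l 8) (.b (.l 8) .z)))) .z) (.a (.l 8) (.c (.a (.c (.b (.l 8)
.z) (.l 8)) .z) (.l 8)))) (.c (.a (.c .z (.b .z (.l 43))) (.b .z (.a (.l 43) .z))) (.a (.c .z (.a (.c .z (.b (.l 8) .z)) .z)) .z)))) (.a (.l 8) (.c
(.a (.b (.l 8) (.c (.a (.l 8) (.b (.l 8) (.c .z (.l 8)))) (.l 8))) (.b (.c (.a (.c (.b (.l 8) .z) (.l 8)) (.b (.c .z (.l 8)) .z)) (.l 8)) (.c .z (.a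
(.b (.l 8) (.c .z (.l 8))) (.b (.c .z (.l 8)) .z))))) (.a (.l 8) (.b (.l 8) (.c (.a (.l 8) (.b (.l 8) (.c .z (.l 8)))) (.l 8)))))))) (.c (.c (.b (.a
(.c (.b (.a (.c (.b .z (.l 14)) (.a (.l 14) .z)) .z) .z) (.a (.c .z (.a .z (.b .z (.l 15)))) (.c (.a (.b .z (.l 15)) (.l 15)) (.l 15)))) (.c (.b .z
(.a (.c .z (.b .z (.l 15))) .z)) (.b (.a (.c .z (.b .z (.l 15))) .z) (.a (.l 15) (.c .z (.a (.l 15) .z)))))) (.a (.c (.a .z (.c (.a .z (.b .z (.l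
15))) (.a (.b .z (.l 15)) (.l 15)))) (.a (.c (.a .z (.l 15)) (.l 15)) (.l 15))) (.c (.b (.a (.l 15) (.c .z (.a (.l 15) .z))) (.l 15)) (.l 15)))) (.b
(.a (.l 15) (.c (.a (.l 15) (.b (.c .z (.a (.l 15) .z)) (.l 15))) (.a (.c (.l 15) (.b .z (.a (.l 15) .z))) (.c (.a (.b .z (.l 15)) .z) .z)))) (.a (.l
15) (.c (.l 15) (.a (.l 15) (.c (.a (.l 15) (.b .z (.l 15))) (.a (.b .z (.l 15)) .z))))))) (.c (.a (.c (.a (.c (.b (.a (.c (.l 15) .z) (.l 15)) (.l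
15)) (.b .z (.a .z (.c (.l 15) .z)))) (.c (.b (.b .z (.a (.l 15) .z)) (.l 15)) (.b .z (.b (.a (.l 15) .z) (.l 15))))) (.a (.c (.b (.a (.l 8) (.c .z
(.l 8))) (.a (.c .z (.b (.l 8) .z)) .z)) (.b (.l 8) (.a (.l 8) (.b (.l 8) (.c .z (.l 8)))))) (.c .z (.b (.a (.c (.b (.l 8) .z) (.l 8)) (.c .z (.b (.l
8) .z))) .z)))) (.c (.b (.a (.c .z (.b (.l 43) .z)) (.c (.b (.l 43) .z) (.b (.l 43) .z))) (.a (.c (.b (.a (.l 15) .z) (.l 15)) (.b .z (.a (.l 15)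
.z))) .z)) (.a .z (.b (.b (.l 43) .z) .z)))) (.a (.c (.a (.l 8) (.b (.l 8) (.c (.a (.b (.l 8) (.c .z (.l 8))) .z) (.a (.l 8) (.b (.l 8) (.c .z (.l
8))))))) (.l 8)) (.c (.a (.b (.c (.a (.b (.c .z (.l 8)) .z) .z) (.a (.l 8) (.b (.l 8) .z))) (.c .z (.a (.b (.c .z (.l 8)) .z) .z))) .z) (.a (.b (.l 8)
(.c (.a (.b (.l 8) (.c .z (.l 8))) (.b (.c .z (.l 8)) .z)) (.a (.l 8) (.b (.l 8) (.a (.l 8) .z))))) (.b (.c (.a (.b (.l 8) .z) .z) (.a (.l 8) (.b (.l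
8) .z))) (.a (.c .z (.b (.a (.l 8) .z) .z)) .z)))))))) (.c (.b (.c (.a (.l 8) (.c (.l 8) (.a (.l 8) (.c (.a (.l 8) (.c (.a (.l 8) (.b (.l 8) .z)) (.a
(.b (.l 8) .z) .z))) (.a (.c (.l 8) (.a (.l 8) .z)) (.c .z (.a .z (.l 9)))))))) (.a (.c (.l 8) (.a (.c (.l 8) (.a (.l 8) (.c (.l 8) (.a (.l 8) (.b .z
(.l 8)))))) (.c (.a (.l 8) (.c (.a (.l 8) (.a (.l 8) .z)) (.a (.a (.l 8) .z) .z))) (.a (.c (.a (.l 8) .z) .z) (.c .z (.a (.b (.l 11) .z) (.l 11)))))))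
(.c (.a (.c (.a (.l 8) (.c (.l 8) (.a (.l 8) .z))) (.a (.c (.l 8) (.a (.l 8) .z)) (.c .z (.a (.a .z (.l 11)) (.a (.l 11) .z))))) (.c (.a (.c .z (.a .z
(.l 9))) (.l 9)) (.c (.a (.a (.a .z (.l 9)) (.l 9)) (.l 9)) .z))) (.a (.c (.a (.c (.a .z (.a .z (.l 11))) (.a (.a .z (.l 11)) (.l 11))) (.l 11)) (.l
11)) (.c (.c (.a (.l 11) (.a (.b (.l 11) .z) .z)) (.l 11)) (.l 11)))))) (.a (.c (.l 8) (.b (.c (.l 8) (.a (.l 8) (.a (.c (.l 8) (.a (.l 8) (.c (.l 8)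
.z))) (.c (.a (.l 8) (.c (.l 8) .z)) .z)))) (.a (.c (.l 8) (.b (.l 8) (.a (.b (.l 8) (.c (.l 8) .z)) (.l 8)))) (.c (.l 8) (.a (.l 8) (.c (.a (.l 8)
(.c (.l 8) .z)) (.a (.c (.l 8) .z) .z))))))) (.c (.a (.l 8) (.c (.a (.b (.l 8) (.c (.b (.l 8) (.a (.l 8) .z)) (.l 8))) (.c (.b (.l 8) (.b (.a (.l 8)
.z) .z)) (.a (.l 8) (.c (.b (.l 8) .z) .z)))) (.a (.c (.a (.l 8) (.c (.l 8) (.a (.l 8) .z))) (.a (.c (.l 8) (.a (.l 8) .z)) .z)) (.c (.a (.c (.b (.l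
8) .z) .z) .z) (.a (.c .z (.a .z (.l 9))) (.l 9)))))) (.a (.c (.a (.c (.l 8) (.a (.l 8) (.c (.l 8) .z))) (.c (.a (.l 8) (.c (.a (.l 8) .z) .z)) (.a
(.c .z (.a .z (.l 11))) (.c .z (.a (.l 11) .z))))) (.a (.c (.a .z (.c .z (.l 11))) (.a (.c (.a .z (.l 11)) (.l 11)) (.l 11))) (.l 11))) (.c (.a (.c
(.a (.c .z (.a .z (.l 9))) (.c (.a .z (.l 9)) (.l 9))) (.c (.l 9) .z)) (.c (.l 9) (.c (.l 9) (.a .z (.l 9))))) (.c (.c (.a (.l 11) .z) (.l 11)) (.l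
11))))))) (.b (.c (.a (.c (.a (.c (.a (.c (.l 8) (.b (.a (.l 8) .z) (.l 8))) (.c (.a (.b .z (.l 8)) .z) .z)) (.a (.b .z (.c (.a (.l 8) .z) .z)) (.b
(.c (.a .z (.l 11)) (.l 11)) (.c .z (.a .z (.l 11)))))) (.c (.a (.c (.a .z (.b (.l 11) .z)) (.a (.b (.l 11) .z) (.l 11))) (.l 11)) (.l 11))) (.a (.c
(.a (.b (.l 11) (.c .z (.a .z (.l 11)))) (.l 11)) (.l 11)) (.l 11))) (.c (.l 11) (.b (.l 11) (.c (.l 11) (.b (.l 11) (.c (.l 11) (.b (.l 11) (.a (.l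
11) .z)))))))) (.c (.b (.c (.l 11) (.b (.c (.l 11) (.a (.l 11) (.b (.a (.l 11) .z) .z))) (.c (.a (.l 11) (.b (.a (.l 11) .z) .z)) (.a (.b (.a (.l 11)
.z) .z) .z)))) (.c (.b (.c (.l 11) (.a (.l 11) (.b (.a (.l 11) .z) .z))) (.c (.a (.b (.l 11) (.a (.l 11) .z)) (.b (.a (.l 11) .z) .z)) .z)) (.b (.c
(.a (.b (.a (.l 11) .z) .z) .z) .z) .z))) (.b (.c (.b (.c (.a (.b (.a (.l 11) .z) .z) .z) .z) .z) .z) (.a (.a .z (.a .z (.a .z (.l 30)))) (.a (.a (.c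
(.l 30) .z) .z) .z))))) (.a (.b (.c (.a (.b (.c (.c (.a (.l 8) (.c (.l 8) .z)) (.a (.c (.l 8) .z) .z)) (.c (.a .z (.a .z (.l 11))) (.l 11))) (.c (.a
(.l 8) (.c (.a (.l 8) .z) .z)) (.a .z (.c (.a .z (.l 11)) .z)))) (.c (.a (.c .z (.a (.c .z (.l 11)) (.l 11))) (.c (.a (.c .z (.l 11)) (.l 11)) (.l
11))) (.c (.l 11) (.b (.c (.l 11) (.b (.l 11) .z)) (.c (.b (.l 11) .z) .z))))) .z) (.c (.a (.b (.c (.a (.b (.l 8) (.c (.l 8) .z)) (.c (.l 8) .z)) .z)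
(.c (.a .z (.b (.c (.l 8) .z) (.c (.l 8) .z))) .z)) (.b (.c (.a (.c .z (.a .z (.l 11))) (.c (.a .z (.l 11)) (.l 11))) (.c (.c (.l 11) .z) .z)) (.c (.a
.z (.c (.a .z (.l 11)) (.c (.l 11) .z))) .z))) (.a (.b (.c .z (.a (.l 24) .z)) (.c (.a (.c .z (.l 24)) (.b .z (.l 24))) (.c (.b (.l 24) .z) .z)))
.z))) (.b (.c (.c (.l 11) (.c (.b (.l 11) (.c (.l 11) (.b (.l 11) .z))) (.b (.c (.b (.l 11) (.a (.l 11) .z)) .z) .z))) .z) (.c (.c (.c (.l 11) (.b (.l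
11) (.c (.b (.l 11) (.a (.l 11) .z)) .z))) (.c (.b (.c (.b (.a (.l 11) .z) .z) .z) .z) .z)) .z))))))

theorem vQ123 : ev3 Q123 J4_2 J4_9 J3_6 = 279075630159522588327908 := by decide +kernel

noncomputable def Q61 : QT3 :=
(.c (.c (.a (.b (.c (.c (.b .z (.c (.a .z (.b (.a .z (.c (.b .z (.l 12)) .z)) (.a .z (.c (.a .z (.l 12)) (.b .z (.l 12)))))) (.a (.b (.c .z (.l 32))
.z) .z))) (.c (.b (.c (.a (.b .z (.l 32)) .z) (.a (.b (.l 32) .z) .z)) (.c (.a (.b (.l 32) .z) .z) (.a .z (.a .z (.b .z (.l 15)))))) (.b (.c (.a .z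
(.a .z (.b .z (.l 15)))) (.a (.b (.b .z (.l 15)) (.l 15)) (.l 15))) (.c (.a (.b (.b .z (.l 15)) (.l 15)) (.l 15)) (.l 15))))) (.c (.l 15) (.c (.c (.b
(.l 15) (.b (.l 15) (.b (.l 15) (.a (.l 15) .z)))) (.b (.b (.l 15) (.b (.a (.l 15) .z) .z)) .z)) .z))) (.c (.c (.b (.a (.c (.b (.c (.l 28) .z) (.l
28)) (.b .z (.c (.l 28) .z))) (.c (.b .z (.a (.l 28) .z)) .z)) (.a (.l 28) (.c (.a (.l 28) (.a (.l 28) .z)) (.b (.a (.l 28) .z) (.a (.l 28) .z)))))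
(.b (.a (.b (.c (.c .z (.b .z (.l 15))) (.l 15)) (.c .z (.b (.l 15) (.c .z (.l 15))))) (.c (.b (.c .z (.l 15)) (.a .z (.c .z (.l 15)))) (.l 15))) (.a
(.b (.c (.b .z (.l 28)) .z) (.c (.l 28) (.b .z (.l 28)))) (.b (.c .z (.a .z (.a .z (.l 15)))) (.c (.a (.l 28) .z) .z))))) (.b (.c (.c (.l 15) (.c (.l
15) (.b (.l 15) (.b (.l 15) (.a (.l 15) .z))))) .z) (.c (.a (.b (.c (.b (.l 15) (.c .z (.l 15))) (.c (.l 15) .z)) .z) (.b (.c (.l 15) (.c (.l 15) .z))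
(.a .z (.c (.a .z (.l 15)) .z)))) .z)))) (.c (.b (.c (.a (.c (.b .z (.a (.b (.c (.b .z (.l 12)) .z) (.l 12)) (.c (.l 12) .z))) (.b .z (.a .z (.c .z
(.b .z (.l 15)))))) (.c (.a (.b (.c (.b .z (.a (.l 12) .z)) .z) (.c (.b (.a (.l 12) .z) .z) .z)) (.b .z (.c .z (.l 15)))) (.a (.b (.c .z (.a .z (.l
15))) (.c (.a .z (.l 15)) (.l 15))) (.b (.c (.a .z (.l 15)) (.l 15)) (.l 15))))) (.a (.c (.b (.a (.c .z (.b .z (.l 15))) (.c .z (.l 15))) (.a (.c (.b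
.z (.l 15)) (.l 15)) (.l 15))) (.l 15)) (.l 15))) (.a (.c (.b (.a (.c (.b (.a (.c .z (.l 12)) (.c (.l 12) .z)) .z) .z) (.c .z (.c (.b .z (.l 15)) (.l
15)))) (.a .z (.c .z (.a (.b (.l 15) .z) (.l 15))))) (.b (.l 15) (.a (.c (.b (.l 15) .z) (.l 15)) (.l 15)))) (.c (.c (.a (.b (.c .z (.a .z (.l 15)))
(.l 15)) (.b (.l 15) (.c (.b (.l 15) .z) (.l 15)))) (.l 15)) (.l 15)))) (.b (.c (.l 15) (.c (.c (.b (.b (.l 15) (.a (.l 15) (.b (.l 15) .z))) (.b (.a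
(.b (.l 15) .z) .z) .z)) (.b (.b (.a (.b (.l 15) .z) .z) .z) .z)) .z)) (.a (.b (.c (.c (.l 15) (.c (.l 15) (.b (.l 15) .z))) .z) (.c (.c (.l 15) (.c
(.b (.l 15) .z) .z)) .z)) (.c (.c (.l 15) (.b (.c (.l 15) .z) .z)) .z))))) (.b (.c (.a (.b (.c .z (.c (.b (.c .z (.a (.l 44) .z)) .z) (.c (.a (.b (.l
44) .z) .z) (.a .z (.a .z (.l 22)))))) .z) (.c (.c (.a .z (.a .z (.a (.c .z (.a .z (.l 22))) (.b (.b .z (.l 22)) (.l 22))))) (.b (.a .z (.a (.a (.c .z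
(.l 22)) (.l 22)) (.l 22))) (.a .z (.a (.a .z (.c .z (.l 22))) (.l 22))))) (.b (.c (.a .z (.b (.c (.l 22) .z) (.l 22))) (.a (.b (.c (.a (.l 22) .z)
(.l 22)) (.c .z (.a (.l 22) .z))) .z)) (.c (.a .z (.l 22)) (.a .z (.b (.c (.l 22) (.a .z (.l 22))) (.l 22))))))) (.a (.b .z (.c (.b .z (.c (.a (.b (.c
.z (.l 22)) (.c (.l 22) .z)) .z) .z)) (.b (.c (.a (.b (.c (.l 22) .z) .z) .z) .z) .z))) (.a (.b (.c (.c (.c (.a (.l 22) (.b .z (.l 22))) .z) (.a .z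
(.c .z (.l 27)))) .z) .z) (.b (.c (.c (.b (.a .z (.l 27)) .z) (.c (.l 27) (.b (.l 27) .z))) (.c .z (.b (.a .z (.l 34)) .z))) (.c (.c (.b .z (.a .z (.c
(.l 22) .z))) .z) .z))))) (.a (.c (.b (.c .z (.b (.c .z (.a (.b (.c .z (.l 22)) .z) .z)) .z)) (.c .z (.b (.c .z (.a (.b .z (.c .z (.l 20))) (.a .z (.c
(.l 20) .z)))) (.a (.c (.b .z (.c .z (.l 20))) (.c (.l 20) .z)) (.c (.a (.b .z (.l 20)) (.l 20)) (.c (.a (.l 20) .z) .z)))))) (.b (.c (.b (.a .z (.c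
.z (.a .z (.c (.l 23) .z)))) (.a (.c .z (.c (.l 23) .z)) (.c (.a .z (.c .z (.l 23))) (.c (.l 23) .z)))) (.b (.a (.c .z (.c (.b .z (.l 26)) .z)) .z)
.z)) (.c (.c (.c (.a .z (.a .z (.b .z (.l 23)))) (.l 23)) (.c (.b (.b (.l 23) .z) .z) .z)) .z))) (.c (.a (.b (.c .z (.b (.a .z (.c .z (.a .z (.l
22)))) .z)) (.c (.b .z (.a (.c .z (.b .z (.l 20))) .z)) (.b .z (.a (.c (.c (.l 20) .z) .z) (.c .z (.c .z (.l 23))))))) (.b (.c (.a .z (.c (.a .z (.c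
.z (.l 22))) (.l 22))) (.c (.a (.a (.c .z (.l 22)) (.l 22)) (.l 22)) (.b (.l 22) (.a (.l 22) .z)))) (.c (.a .z (.c (.a .z (.c .z (.l 22))) (.b (.l 22)
.z))) (.a (.b (.c (.a .z (.l 22)) .z) .z) (.b (.c (.c (.l 22) .z) .z) .z))))) (.a (.b (.c (.b .z (.a (.c (.b .z (.l 23)) (.c (.l 23) .z)) .z)) (.b (.a
.z (.c .z (.l 30))) (.c .z (.a .z (.l 30))))) (.c (.a (.c (.l 23) .z) (.b (.c (.a (.l 23) .z) .z) (.c (.l 23) .z))) .z)) (.b (.a (.c (.b (.c (.c (.l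
22) .z) .z) .z) .z) .z) (.a (.c (.b .z (.a (.c (.l 23) .z) .z)) .z) .z))))))) (.b .z (.a (.c (.c (.c .z (.b .z (.a (.c (.b .z (.c .z (.l 34))) .z)
.z))) .z) .z) (.a (.c (.c (.c (.b (.a .z (.c (.b .z (.l 30)) .z)) (.a .z (.c (.l 30) .z))) .z) .z) .z) (.c (.c (.b (.a (.c (.b .z (.c (.l 30) .z)) .z)
.z) (.a (.c (.c (.b (.l 30) .z) .z) .z) .z)) .z) .z)))))

theorem vQ61 : ev3 Q61 J3_0 J4_6 J3_7 = 158791828874589666513987 := by decide +kernel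

noncomputable def Q111 : QT3 :=
(.b (.c (.a (.b (.c (.a (.b (.c .z (.b (.a .z (.l 79)) .z)) .z) .z) (.b (.c .z (.b (.a .z (.c .z (.b .z (.l 29)))) (.a (.c .z (.b .z (.l 29))) (.l
29)))) (.c (.b (.c .z (.a .z (.c .z (.l 29)))) (.c .z (.c .z (.l 29)))) (.l 29)))) (.c .z (.a (.b (.c .z (.c (.b (.l 29) .z) (.b (.c (.l 29) .z) .z)))
.z) (.b (.c .z (.c (.b (.l 29) .z) (.b (.l 29) .z))) .z)))) (.b (.c .z (.b (.c (.a (.b .z (.c .z (.c .z (.l 29)))) (.b (.c .z (.c .z (.l 29))) (.c .z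
(.c .z (.l 29))))) (.l 29)) (.c (.c .z (.c .z (.l 29))) (.l 29)))) (.c .z (.a (.b (.c .z (.c (.b (.l 29) .z) (.b (.l 29) .z))) .z) (.b (.c .z (.b (.l
29) (.b (.b (.l 29) .z) .z))) .z))))) (.c (.b (.c (.b (.a (.b (.a (.b .z (.a .z (.l 29))) (.b (.a .z (.l 29)) (.l 29))) (.l 29)) (.l 29)) (.a (.c (.b
(.l 29) (.a (.c (.l 29) .z) (.l 29))) (.b (.a (.c (.l 29) .z) (.l 29)) .z)) (.c (.l 29) (.b (.l 29) (.a (.c (.l 29) .z) (.l 29)))))) (.b (.a (.c (.b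
(.a (.b .z (.l 29)) (.l 29)) (.a .z (.l 29))) (.b (.a .z (.c (.l 29) .z)) .z)) (.c (.l 29) (.b (.l 29) (.a (.c (.l 29) .z) (.l 29))))) (.a .z (.c (.b
(.a (.c (.l 29) .z) (.l 29)) (.a .z (.c (.l 29) .z))) (.b (.a .z (.c (.l 29) .z)) .z))))) (.c (.b (.a .z (.c (.b (.a (.c (.l 29) .z) (.l 29)) .z) (.b
(.a .z (.c (.l 29) .z)) .z))) .z) (.b (.a .z (.c .z (.b .z (.a .z (.b (.b (.l 15) .z) (.l 41)))))) (.a .z (.a .z (.c (.b .z (.a .z (.l 41))) (.l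
41))))))) (.b (.c (.b (.a .z (.c (.b (.a (.c (.l 29) .z) (.l 29)) .z) .z)) (.a .z (.c (.b .z (.a .z (.c .z (.l 15)))) (.a (.b (.a .z (.c .z (.l 15)))
(.a (.c .z (.l 15)) (.l 15))) (.b (.c (.a (.l 15) .z) (.l 15)) (.l 15)))))) (.b (.a (.c .z (.a .z (.c (.a .z (.b .z (.l 15))) (.a (.b .z (.l 15)) (.l
15))))) (.c (.b (.a (.c .z (.a .z (.l 15))) .z) (.a (.a (.c .z (.l 15)) (.l 15)) (.c (.a (.l 15) .z) (.l 15)))) (.a (.l 15) (.b (.c (.a (.l 15) .z)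
(.l 15)) (.l 15))))) (.a (.c (.a .z (.b (.a .z (.c .z (.l 15))) (.a (.c .z (.l 15)) (.l 15)))) (.a (.c (.b .z (.a .z (.l 15))) (.a (.b .z (.l 15)) (.l
15))) (.l 15))) (.l 15)))) (.a (.c (.b (.a .z (.c .z (.b (.a .z (.c .z (.l 15))) .z))) (.a .z (.c .z (.a .z (.b (.l 41) .z))))) (.b (.a (.c (.b (.a .z
(.c .z (.l 15))) .z) (.b (.l 15) (.b (.b (.l 15) .z) (.l 41)))) (.b (.l 15) (.b (.b (.l 15) .z) (.l 41)))) (.a (.c .z (.b (.a .z (.l 41)) .z)) (.c (.b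
(.l 41) (.a .z (.l 41))) (.l 41))))) (.c (.b (.a (.c (.b (.a .z (.c .z (.l 15))) .z) (.b (.l 15) (.b (.b (.l 15) .z) (.l 41)))) (.b (.l 15) (.b (.b
(.l 15) .z) (.l 41)))) (.a (.c (.a (.c .z (.l 41)) (.l 41)) (.l 41)) (.l 41))) (.b (.b (.l 15) (.b (.b (.l 15) .z) (.l 41))) (.l 41))))))) (.c .z (.a
(.b (.c .z (.c .z (.b (.b (.a .z (.a .z (.c .z (.l 41)))) .z) .z))) .z) (.b (.c (.a (.b (.c .z (.c .z (.a .z (.a .z (.l 41))))) (.c .z (.a .z (.b (.c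
.z (.l 41)) .z)))) (.b (.c .z (.l 41)) (.c .z (.a (.b (.c .z (.l 41)) .z) .z)))) (.b (.c (.b (.a (.a (.c .z (.l 41)) (.l 41)) (.l 41)) (.c (.a (.a .z
(.l 41)) (.l 41)) (.a (.a .z (.l 41)) .z))) (.b (.c (.a (.l 41) (.b (.l 41) .z)) (.a (.b (.l 41) .z) .z)) .z)) .z)) .z))))

theorem vQ111 : ev3 Q111 J4_2 J3_5 J3_5 = 153313007956956024806785 := by decide +kernel

noncomputable def Q84 : QT3 :=
(.b .z (.c (.a (.b (.c .z (.a (.b (.c .z (.a (.b (.c .z (.a (.b .z (.c .z (.l 29))) .z)) (.c .z (.c .z (.a (.l 29) .z)))) .z)) .z) .z)) .z) .z) (.a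
(.b (.c (.a (.b (.c (.a (.b (.c (.a (.b .z (.c (.l 29) .z)) .z) .z) .z) .z) .z) .z) .z) (.a (.b .z (.c .z (.b (.a .z (.c (.c .z (.b .z (.l 69))) .z))
(.c (.c (.c .z (.a .z (.l 69))) (.a .z (.l 69))) (.c (.a .z (.a .z (.l 69))) .z))))) (.b .z (.c .z (.a (.b .z (.c (.c (.c .z (.l 69)) (.l 69)) .z))
.z))))) (.c (.b .z (.a (.c .z (.b .z (.c .z (.c (.c (.b .z (.b .z (.l 51))) (.b .z (.l 51))) (.a (.b (.b .z (.l 51)) (.a .z (.l 51))) (.b (.c .z (.l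
51)) (.l 51))))))) .z)) (.b (.a (.c .z (.c (.a (.c (.a (.c .z (.l 71)) (.b .z (.l 71))) (.a (.l 71) (.b .z (.l 71)))) (.a (.a .z (.a .z (.l 69))) (.l
69))) (.c (.a (.a (.l 71) (.b .z (.l 71))) (.a .z (.l 69))) (.b (.a (.c (.l 71) .z) .z) (.a (.l 71) (.a .z (.l 69))))))) (.c .z (.c (.c (.a (.c (.a
(.l 69) .z) (.l 69)) .z) (.a (.a (.l 69) (.a (.l 69) .z)) .z)) (.a (.a (.c (.l 69) .z) .z) .z)))) (.a (.a (.c .z (.a (.c (.b (.c .z (.l 71)) .z) .z)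
(.c (.l 71) (.b (.l 71) (.a .z (.l 71)))))) (.c (.c (.c (.b (.b .z (.c .z (.l 51))) (.a (.c (.l 51) .z) (.l 51))) (.b (.c (.b .z (.l 51)) .z) .z)) .z)
(.a (.a (.a (.l 71) (.b .z (.l 71))) .z) (.l 69)))) (.c (.c (.a (.a (.a (.b .z (.a (.l 51) .z)) .z) .z) .z) (.a (.c .z (.a (.c .z (.l 69)) .z)) .z))
(.b (.c (.a (.a (.l 69) (.a (.l 69) .z)) .z) (.a (.a (.a (.l 69) .z) .z) .z)) (.a (.a (.c (.l 69) (.a (.l 69) .z)) (.c (.a (.l 69) .z) .z)) .z)))))))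
.z)))

theorem vQ84 : ev3 Q84 J3_3 J2_1 J2_2 = 68666470190425504040118 := by decide +kernel

noncomputable def Q83 : QT3 :=
(.c (.b (.a (.c (.c (.a (.l 31) (.a (.a (.l 31) (.a .z (.l 29))) (.l 29))) (.c (.a (.l 31) (.a (.a (.l 31) (.a .z (.l 29))) (.a (.l 29) (.c (.l 29)
.z)))) (.a (.c (.l 31) (.a (.b (.l 31) .z) (.l 31))) (.a (.a (.l 31) (.a .z (.l 29))) (.a (.c (.l 29) .z) .z))))) (.c (.a (.c (.a (.c .z (.a (.l 10)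
(.c (.b .z (.l 10)) (.l 10)))) (.c (.a .z (.l 31)) (.a (.c .z (.b .z (.l 10))) .z))) (.a (.l 10) (.c (.a (.l 10) (.c (.a (.l 10) .z) (.l 10))) (.a (.c
(.l 10) .z) .z)))) (.c (.a (.c (.a (.l 31) .z) .z) .z) (.a (.c (.a (.c .z (.a (.l 10) .z)) .z) .z) .z))) (.a (.c (.a (.c (.a (.b (.c (.l 10) .z) (.c
(.l 10) .z)) .z) (.b (.c .z (.l 19)) .z)) (.c (.a .z (.c .z (.l 19))) (.l 19))) (.a (.c (.b (.l 19) (.a .z (.l 19))) (.l 19)) (.l 19))) (.c (.a (.a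
(.l 19) .z) (.c .z (.l 54))) (.a (.a (.l 19) .z) (.b (.l 54) .z)))))) (.c (.a (.b (.c (.a (.c (.l 29) (.a (.l 29) .z)) .z) .z) (.a (.b (.c (.c (.l 29)
.z) .z) .z) .z)) .z) (.b (.a (.c .z (.c .z (.a (.l 54) .z))) .z) .z))) (.a (.c (.c (.a (.b (.a .z (.b (.l 31) (.a .z (.l 31)))) (.a (.c (.l 33) (.b .z
(.l 33))) (.b .z (.l 33)))) (.b (.a (.a (.l 31) (.a .z (.l 29))) (.b (.l 29) (.a (.l 29) .z))) .z)) (.a (.c (.b (.a .z (.b (.l 31) .z)) .z) (.a (.c .z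
(.a (.b .z (.c .z (.l 10))) .z)) .z)) (.b (.a (.a (.l 31) (.a .z (.l 29))) .z) .z))) (.b (.a (.c (.c (.a (.c (.a (.c .z (.l 10)) .z) (.l 10)) (.c .z
(.a (.c .z (.l 10)) .z))) (.a (.l 10) (.c (.l 10) (.a (.l 10) (.c (.l 10) .z))))) (.c (.a (.c (.a (.l 10) (.c (.l 10) .z)) (.a (.c (.l 10) .z) .z))
.z) (.a .z (.b (.b (.l 19) .z) .z)))) (.c .z (.b (.a (.a (.l 19) .z) .z) (.a (.c (.a (.l 19) .z) .z) .z)))) (.a (.c (.c (.a (.c (.a (.l 10) (.c .z (.l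
10))) (.l 10)) (.c .z (.a (.l 10) .z))) (.a (.l 10) (.c (.l 10) (.a (.l 10) (.c (.l 10) .z))))) (.b (.a (.c (.c (.l 10) (.a (.l 10) .z)) .z) .z) (.a
(.c (.c (.l 10) (.a (.l 10) .z)) .z) .z))) .z))) .z)) (.b (.a (.c (.b (.a (.c (.l 19) (.b (.l 19) (.c (.b (.l 19) (.a .z (.l 19))) (.b (.a .z (.l 19))
.z)))) (.c (.a (.a (.l 19) .z) .z) (.b (.a (.a (.l 19) .z) (.l 81)) (.a (.a (.l 19) .z) .z)))) (.a (.c (.b (.c (.l 19) (.b (.l 19) (.a .z (.l 19))))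
(.c (.a .z (.b (.l 19) .z)) .z)) .z) (.c (.b (.a (.a (.l 19) .z) .z) (.a (.c (.a (.l 19) .z) .z) .z)) .z))) (.b (.a (.c (.b (.c (.b (.l 19) .z) .z)
.z) .z) (.c (.b (.a (.c (.a (.l 19) .z) .z) .z) .z) .z)) (.a (.c .z (.b (.a .z (.c .z (.c .z (.l 22)))) .z)) (.c .z (.c (.c .z (.c .z (.l 29)))
.z))))) (.c (.b (.a (.c (.b (.c (.l 54) .z) .z) .z) .z) .z) (.b (.a .z (.c (.c .z (.a .z (.l 71))) (.c (.l 71) .z))) (.c (.a .z (.a .z (.c .z (.l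
71)))) (.c .z (.a (.c (.b .z (.l 29)) .z) .z)))))) (.a (.c .z (.b (.a (.c .z (.c .z (.c (.b .z (.l 29)) .z))) (.c .z (.c (.c .z (.l 29)) (.c (.l 29)
(.b .z (.l 29)))))) (.c .z (.c (.c (.a .z (.c .z (.l 29))) (.a (.c .z (.l 29)) (.l 29))) (.l 29))))) (.c .z (.a (.b (.c .z (.l 29)) (.c (.c .z (.c .z
(.a .z (.l 29)))) (.l 29))) (.b (.c .z (.a (.b (.c .z (.l 29)) (.l 29)) .z)) (.a (.c .z (.l 29)) (.c .z (.a (.l 29) (.c .z (.l 29)))))))))))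

theorem vQ83 : ev3 Q83 J4_5 J4_7 J3_5 = 99662013156880534517098 := by decide +kernel

noncomputable def Q155 : QT3 :=
(.c (.a (.b (.c .z (.a (.b (.c .z (.c (.b .z (.c (.l 29) .z)) .z)) (.c (.c .z (.c .z (.l 29))) (.c (.l 29) (.b .z (.c (.l 29) .z))))) (.c (.c .z (.c
.z (.l 29))) (.c (.b .z (.c (.l 29) .z)) .z)))) (.c .z (.c (.c (.a .z (.c .z (.l 110))) (.c .z (.l 29))) (.b (.a (.l 29) (.c (.l 29) (.b .z (.a (.l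
29) .z)))) (.l 29))))) (.b (.c .z (.c (.c .z (.a (.c .z (.b .z (.l 29))) .z)) (.a .z (.a (.c .z (.b (.c (.a .z (.l 25)) (.a .z (.l 25))) .z)) (.c (.a
(.c .z (.b (.l 25) .z)) (.c (.b (.l 25) .z) (.l 25))) (.l 25)))))) (.c .z (.c (.a (.c .z (.c .z (.l 29))) (.c .z (.a (.c .z (.a (.l 29) .z)) .z))) (.a
(.b (.c (.a (.c (.l 29) .z) .z) .z) (.a (.c (.l 29) (.b .z (.l 29))) (.c (.c (.l 29) .z) .z))) (.a .z (.a .z (.c (.a .z (.c .z (.l 25))) (.b (.l 25)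
(.a .z (.l 25))))))))))) (.a (.c (.b (.b (.c .z (.a .z (.b (.c (.a (.b (.l 25) .z) (.l 25)) (.l 25)) (.a .z (.c .z (.l 25)))))) .z) (.c (.b (.a (.b .z
(.c (.a (.l 29) .z) .z)) .z) (.a (.b (.c (.l 29) (.a (.l 29) .z)) (.l 29)) (.b (.c (.a (.l 29) .z) .z) (.a (.l 29) (.c (.l 29) .z))))) (.b .z (.c (.b
.z (.c .z (.b .z (.c .z (.l 14))))) (.b (.c .z (.b .z (.l 14))) (.c (.b (.c .z (.l 14)) (.l 14)) (.l 14))))))) (.b (.c (.b (.b (.a (.c .z (.a (.l 27)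
.z)) (.b (.l 25) (.c (.l 25) (.a .z (.l 25))))) (.a .z (.a .z (.c (.b (.l 25) .z) .z)))) .z) (.b (.c (.b (.a .z (.b (.a .z (.l 25)) .z)) .z) .z) .z))
(.c (.b (.c (.b .z (.c .z (.b .z (.a (.l 14) .z)))) (.b (.c .z (.a (.a (.l 14) .z) .z)) (.a (.a (.l 14) (.c (.l 14) .z)) .z))) (.a (.c (.l 14) (.a (.l
14) (.c (.l 14) .z))) (.c (.a (.c (.l 14) (.a (.l 14) .z)) (.c (.a (.l 14) .z) .z)) .z))) (.a (.c (.a (.c (.a (.l 14) (.c (.l 14) .z)) .z) .z) .z) (.c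
.z (.b .z (.a .z (.b (.c .z (.a .z (.l 13))) (.c (.a .z (.l 13)) (.l 13)))))))))) (.b (.c (.a (.b (.c (.c (.a .z (.b (.c .z (.l 25)) .z)) (.a (.b (.l
25) .z) (.l 25))) (.l 25)) (.c (.a .z (.c .z (.b (.a .z (.l 25)) .z))) (.a (.b (.c .z (.b (.l 25) .z)) .z) (.b (.l 25) (.c (.a .z (.l 25)) (.b (.l 25)
.z)))))) (.c (.b (.l 25) (.a (.c (.a .z (.l 25)) (.l 25)) (.l 25))) (.l 25))) (.c (.b (.c (.l 25) (.b (.l 25) (.c (.l 25) (.a (.a .z (.l 25)) (.b (.l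
25) .z))))) (.c (.b (.a (.a .z (.b (.l 25) .z)) (.l 25)) (.c (.a .z (.l 25)) (.b (.a .z (.l 25)) .z))) (.b (.c (.b (.a .z (.l 25)) .z) .z) .z))) (.b
(.c (.b (.c (.a (.l 25) (.b (.l 25) .z)) (.a (.b (.l 25) .z) .z)) .z) (.b .z (.c .z (.a .z (.a .z (.l 17)))))) (.c (.b .z (.a .z (.a .z (.c .z (.l
17))))) (.a .z (.a (.b (.c .z (.l 17)) (.l 17)) (.l 17))))))) (.c (.a .z (.b (.c (.a (.a .z (.c .z (.b (.l 25) .z))) (.l 25)) (.c (.a (.a (.b (.l 25)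
.z) (.b (.l 25) .z)) (.l 25)) (.b (.a (.a .z (.l 25)) (.l 25)) .z))) (.c (.c (.a .z (.a .z (.l 25))) (.b (.a .z (.l 25)) .z)) .z))) (.a (.b (.c .z (.c
.z (.a (.c .z (.b .z (.b .z (.l 13)))) (.b .z (.b (.c .z (.l 13)) (.l 13)))))) (.c (.a .z (.b .z (.c .z (.a (.c .z (.l 13)) .z)))) (.a (.b (.c (.c .z
(.a .z (.l 13))) (.l 13)) (.c (.c (.a .z (.l 13)) (.l 13)) (.a (.b (.l 13) .z) .z))) (.b (.c (.a (.c .z (.l 13)) (.b (.l 13) .z)) (.a (.b (.l 13) .z)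
.z)) (.c (.a (.b (.l 13) .z) .z) .z))))) (.b (.c .z (.a (.b (.c (.c .z (.l 17)) .z) .z) .z)) .z))))))

theorem vQ155 : ev3 Q155 J4_7 J4_9 J3_5 = 97986025261313745063815 := by decide +kernel

noncomputable def Q130 : QT3 :=
(.b (.a (.c (.c (.b (.a (.c (.b (.a (.l 15) (.c .z (.l 15))) (.l 15)) (.l 15)) (.c (.b .z (.a (.l 15) (.c .z (.l 15)))) (.b (.a (.l 15) (.c .z (.l
15))) (.l 15)))) (.l 15)) (.a (.c (.l 15) (.b (.a (.c (.l 15) (.b .z (.l 15))) (.c (.b .z (.l 15)) .z)) (.a (.l 15) (.c (.l 15) (.b .z (.l 15))))))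
(.c (.b (.a (.c (.l 15) (.b .z (.l 15))) .z) (.a (.l 15) (.c (.l 15) (.a (.l 15) .z)))) (.b (.a .z (.c .z (.l 39))) (.a (.c (.b .z (.l 15)) .z)
.z))))) (.b (.c (.a .z (.c (.l 39) (.a (.a .z (.l 39)) .z))) (.a (.c .z (.a .z (.c .z (.a .z (.c .z (.l 9)))))) (.c (.a .z (.c (.a .z (.b .z (.l 9)))
(.a (.c .z (.l 9)) (.l 9)))) (.a (.c (.a .z (.l 9)) (.l 9)) (.l 9))))) (.a (.c (.c (.a (.b (.c (.l 15) .z) (.l 15)) .z) .z) (.c (.a .z (.c (.a (.l 26)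
.z) .z)) (.a .z (.c .z (.a (.c .z (.l 9)) (.l 9)))))) (.c .z (.b (.a (.c (.c .z (.a .z (.l 9))) (.l 9)) (.c (.c (.a .z (.l 9)) (.l 9)) (.b (.l 9)
.z))) (.a (.c .z (.b (.a (.l 9) .z) .z)) (.c (.b (.a (.l 9) .z) .z) .z))))))) (.c (.b (.c (.a (.c (.b (.a .z (.l 29)) .z) .z) (.c (.a (.c (.l 29) .z)
(.c .z (.a (.c .z (.l 7)) (.l 7)))) (.b (.a (.c (.a .z (.l 7)) (.b (.l 7) .z)) (.l 7)) (.a .z (.c (.l 7) (.a .z (.l 7))))))) (.a (.c .z (.a (.b .z (.l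
39)) .z)) (.c (.a .z (.b (.c (.l 7) (.a .z (.l 7))) .z)) (.a .z (.b .z (.c .z (.a (.l 9) .z))))))) (.a (.c (.c (.b (.a (.c .z (.l 15)) .z) (.a (.l 15)
(.c .z (.l 15)))) (.b (.a (.l 15) .z) (.a (.l 15) (.c (.l 15) .z)))) .z) (.c (.b (.c (.a .z (.c .z (.a .z (.l 7)))) .z) .z) (.b (.a (.c .z (.c .z (.a
.z (.l 9)))) (.c .z (.b (.a (.l 9) .z) .z))) .z)))) (.b (.a (.c (.c (.a .z (.c .z (.a .z (.b .z (.l 9))))) (.a (.c .z (.a .z (.l 9))) (.c (.a (.b .z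
(.l 9)) (.l 9)) (.l 9)))) (.b (.l 9) (.a (.c (.l 9) (.b (.l 9) (.a (.l 9) .z))) (.c (.b (.l 9) (.a (.l 9) .z)) (.b (.a (.l 9) .z) .z))))) (.c (.b (.a
(.c (.c (.a .z (.l 9)) (.l 9)) (.l 9)) (.c (.c (.a (.l 9) .z) (.l 9)) (.b (.l 9) (.a (.l 9) .z)))) (.a (.c (.l 9) (.b (.l 9) (.a (.l 9) .z))) (.c (.b
(.l 9) .z) .z))) (.b (.a (.c (.l 9) (.b (.a (.l 9) .z) .z)) (.c (.b (.a (.l 9) .z) .z) .z)) .z))) (.a (.c (.b (.a (.c .z (.c (.a .z (.l 9)) (.l 9)))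
(.c (.c (.a .z (.l 9)) (.l 9)) (.b (.a (.l 9) .z) .z))) (.a (.c .z (.b (.a (.l 9) .z) .z)) (.c (.b (.a (.l 9) .z) .z) .z))) (.b (.a (.c (.b (.l 9) .z)
.z) .z) .z)) (.c (.b (.a (.c (.b (.a (.l 9) .z) .z) .z) .z) .z) .z))))) (.a (.c (.b (.c (.b (.l 15) (.b (.b (.l 15) .z) (.l 41))) (.a (.b (.l 15) (.b
(.b (.l 15) .z) (.c (.l 41) .z))) (.b (.c (.l 15) (.a (.l 15) .z)) (.c (.b (.b (.l 15) .z) .z) .z)))) (.c (.a (.b (.b (.l 41) (.c (.l 41) .z)) .z) .z)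
.z)) (.b (.a (.c (.b (.c (.l 15) (.a (.c (.l 15) .z) .z)) (.c (.b (.b (.l 15) .z) .z) .z)) .z) (.c .z (.b .z (.a (.c .z (.b .z (.l 23))) (.b .z (.l
23)))))) (.a .z (.c .z (.a .z (.b (.c (.a .z (.l 23)) (.l 23)) (.c .z (.a .z (.l 23))))))))) (.c (.b (.a (.c (.b (.c (.l 15) (.a (.l 15) (.c (.l 15)
.z))) (.c (.b (.b (.l 15) .z) .z) .z)) (.b (.a (.c (.c (.l 15) .z) .z) .z) .z)) (.c .z (.b .z (.a (.c .z (.b .z (.l 23))) (.b .z (.l 23)))))) (.a .z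
(.c (.b (.a .z (.c .z (.a .z (.l 23)))) (.a .z (.c .z (.a .z (.l 23))))) (.a (.c (.a .z (.c .z (.l 23))) (.l 23)) (.l 23))))) (.b (.a (.c (.b .z (.a
(.c .z (.b .z (.l 23))) (.b .z (.l 23)))) (.b .z (.b .z (.l 23)))) (.b .z (.b .z (.l 23)))) (.a (.c (.a (.c .z (.b (.a .z (.l 23)) .z)) (.c (.b (.l
23) (.a .z (.l 23))) (.l 23))) (.a (.b (.l 23) (.c (.a .z (.l 23)) (.l 23))) (.l 23))) (.l 23))))))

theorem vQ130 : ev3 Q130 J4_3 J4_10 J4_12 = 84393906216544380227736 := by decide +kernel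

noncomputable def Q169 : QT3 :=
(.a (.b (.c (.c (.c (.c (.c (.a (.a (.c .z (.b .z (.l 15))) (.c (.b .z (.l 15)) (.l 15))) (.b (.c (.a (.l 15) .z) (.l 15)) (.l 15))) (.l 15)) (.c (.b
(.l 15) (.a (.c (.l 15) (.b (.l 15) .z)) (.l 15))) (.b (.c (.a (.b (.l 15) .z) (.l 15)) (.a .z (.b (.l 15) .z))) (.a .z (.c (.b (.l 15) .z) .z)))))
(.c (.c (.a (.b (.c .z (.l 17)) (.l 17)) (.b .z (.c .z (.a (.l 17) .z)))) (.b (.l 17) (.b (.l 17) (.c (.l 17) .z)))) (.b (.c (.b (.l 17) (.c (.l 17)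
(.b (.l 17) .z))) (.b (.c (.b (.l 17) .z) .z) .z)) (.c (.b (.c (.b (.l 17) .z) .z) .z) (.b .z (.a (.l 39) .z)))))) (.c (.c (.b (.c (.b .z (.a (.l 39)
.z)) (.a (.a .z (.l 39)) .z)) (.a (.b (.c (.l 39) .z) .z) .z)) (.a (.b .z (.b (.c .z (.a .z (.l 26))) (.c (.a .z (.l 26)) .z))) (.c (.b .z (.b (.a .z
(.l 26)) (.l 26))) (.a (.b .z (.l 26)) (.b .z (.l 26)))))) (.c (.a (.b (.c (.b .z (.a .z (.l 26))) .z) .z) (.b .z (.a (.c (.b (.l 26) .z) .z) .z)))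
.z))) .z) (.c (.a (.b (.c (.c (.c (.c (.l 15) (.c (.l 15) (.b (.l 15) .z))) (.c .z (.c .z (.l 17)))) (.c (.c (.b (.l 17) .z) .z) .z)) (.c (.c (.b (.c
.z (.a .z (.l 26))) .z) .z) .z)) (.c (.c (.c (.c (.l 15) (.c (.b (.l 15) .z) .z)) (.c .z (.b (.c (.l 17) .z) .z))) .z) .z)) (.b (.c (.c (.c (.l 15)
(.c (.c (.l 15) (.b (.l 15) .z)) .z)) .z) (.a (.c (.c (.b (.c .z (.l 26)) .z) .z) .z) (.b (.c (.c (.c .z (.l 26)) (.c (.l 26) .z)) .z) .z))) (.c (.a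
(.b (.c (.c (.l 15) .z) .z) (.c (.c (.c (.l 15) .z) .z) .z)) (.b (.c (.c (.l 15) .z) .z) (.c (.a (.c (.l 15) .z) .z) .z))) .z))) .z)) (.b (.a (.b (.c
(.c (.c (.c (.c .z (.l 15)) (.l 15)) (.c (.c (.c (.l 15) .z) (.c .z (.a (.l 17) .z))) (.c (.b (.l 17) (.c (.l 17) .z)) .z))) .z) .z) (.c (.c (.c (.c
(.c (.c .z (.l 15)) (.l 15)) (.l 15)) .z) (.a (.c (.c .z (.c (.l 26) .z)) .z) .z)) .z)) (.b (.c (.c (.c (.b (.a (.c .z (.l 15)) .z) (.a (.c .z (.l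
15)) (.c .z (.l 15)))) (.c (.c (.l 15) (.c (.a .z (.l 15)) .z)) .z)) .z) .z) (.c (.c (.a (.b (.c (.c (.c .z (.l 15)) (.l 15)) .z) (.c (.a (.c .z (.l
15)) .z) .z)) (.b (.c (.a (.c .z (.l 15)) .z) .z) .z)) (.a .z (.b .z (.c (.a .z (.c .z (.l 19))) .z)))) .z))) (.a (.c (.b (.c (.a (.b (.c (.c (.l 15)
(.c (.l 15) .z)) .z) (.c (.c (.l 15) (.c (.l 15) .z)) .z)) (.b (.c (.l 15) .z) .z)) (.a (.b (.c (.a (.c .z (.l 26)) .z) .z) .z) (.b .z (.c (.a (.b .z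
(.l 19)) (.l 19)) .z)))) (.c (.a (.b .z (.c .z (.a .z (.c (.l 14) .z)))) (.b .z (.c .z (.c (.l 14) .z)))) (.a (.b (.c (.a .z (.c (.l 19) .z)) .z) (.c
(.c (.c .z (.l 19)) .z) .z)) (.c (.c (.l 19) (.c (.b (.l 19) .z) .z)) .z)))) .z) (.c (.b (.c (.a .z (.b .z (.c (.c (.b (.c (.l 13) .z) .z) (.b .z (.l
14))) (.c (.c (.l 14) .z) .z)))) (.a (.b (.c (.a .z (.c .z (.l 19))) (.c .z (.l 27))) (.c (.c (.c .z (.l 19)) (.c (.l 19) .z)) (.c .z (.l 27)))) (.c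
(.c (.c .z (.l 19)) (.c (.l 19) (.b (.l 19) .z))) (.c .z (.l 27))))) (.c (.a (.b (.c .z (.c (.c (.l 14) .z) .z)) (.c (.c .z (.c .z (.l 14))) (.c (.l
14) .z))) (.c (.b (.c .z (.l 14)) (.c .z (.c .z (.l 14)))) (.c (.l 14) .z))) (.c (.c (.c (.c (.a (.l 19) .z) (.l 19)) (.l 19)) (.c (.b (.l 19) (.c (.l
19) .z)) .z)) .z))) (.c (.c (.b (.c (.b (.c (.l 27) .z) .z) .z) .z) .z) .z)))))

theorem vQ169 : ev3 Q169 J4_4 J4_11 J3_7 = 59721857443278385007882 := by decide +kernel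

noncomputable def Q186 : QT3 :=
(.a (.b (.c (.c (.c (.c (.a .z (.c (.a .z (.b (.c .z (.l 14)) .z)) (.a (.b (.c .z (.l 14)) .z) (.b (.l 14) .z)))) (.a (.b (.c (.a .z (.b (.l 14) .z))
.z) .z) (.b (.c (.b (.c (.l 14) .z) .z) .z) .z))) (.a (.c (.b .z (.a (.c .z (.c .z (.l 20))) .z)) (.b (.b (.c .z (.l 20)) (.l 20)) (.a (.b (.l 20) .z)
(.b (.c (.l 20) .z) .z)))) (.b (.c (.b .z (.c .z (.b .z (.l 20)))) (.b (.c .z (.l 20)) (.l 20))) (.c (.b (.c .z (.l 20)) (.c .z (.b (.l 20) .z))) (.b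
(.c (.l 20) .z) .z))))) (.c (.a (.b (.c (.a (.c (.l 20) (.b (.l 20) .z)) (.b (.l 20) (.c (.l 20) .z))) .z) .z) (.c (.b (.b (.c (.l 20) (.b (.l 20)
.z)) .z) (.a (.c (.b .z (.l 21)) .z) (.b .z (.c (.l 21) .z)))) .z)) (.a (.b (.c (.a (.b (.c .z (.l 23)) (.l 23)) (.c .z (.b .z (.l 23)))) .z) (.c (.c
(.l 23) (.c (.b (.l 23) .z) .z)) .z)) .z))) .z) (.c (.c (.c (.a (.b .z (.c .z (.a .z (.c (.b .z (.l 17)) .z)))) .z) (.a .z (.c (.b (.b .z (.c .z (.b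
.z (.l 21)))) (.a (.b (.c .z (.l 21)) .z) (.c .z (.l 21)))) (.b (.a (.c (.b .z (.l 21)) (.b (.l 21) .z)) (.b (.c .z (.l 21)) (.l 21))) (.a .z (.c (.l
21) .z)))))) (.b (.c (.a (.c (.a .z (.b .z (.c .z (.l 20)))) (.c (.l 20) (.c (.a (.l 20) .z) .z))) .z) (.a (.c (.c (.c (.a .z (.l 23)) (.b (.l 23)
.z)) .z) .z) .z)) (.b (.c (.a (.c (.a .z (.c .z (.l 20))) (.c (.l 20) (.c (.l 20) .z))) (.a (.c .z (.c (.l 20) .z)) .z)) .z) (.c (.b (.a (.c .z (.c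
(.l 20) .z)) .z) (.c (.a (.a .z (.l 20)) .z) .z)) .z)))) .z)) (.b (.c (.c (.c (.c (.b (.c (.a (.b .z (.l 14)) .z) (.a (.b (.l 14) .z) .z)) (.c (.a (.b
(.c (.l 14) .z) .z) .z) .z)) .z) (.b (.c (.b (.c (.c .z (.l 19)) (.b (.l 19) (.c (.l 19) .z))) .z) (.b (.c .z (.b (.c .z (.l 20)) (.a (.l 20) .z)))
(.c (.b (.c .z (.l 20)) (.a (.l 20) .z)) (.a (.b (.l 20) .z) .z)))) (.c (.b (.c (.b .z (.c .z (.l 20))) (.b (.c .z (.l 20)) (.a (.l 20) .z))) (.c (.a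
(.c .z (.l 20)) (.b (.l 20) .z)) .z)) (.b (.c (.a (.b (.l 20) .z) .z) .z) .z)))) (.c (.b (.c (.b (.c (.a (.b (.l 20) .z) .z) .z) (.c .z (.a .z (.c (.l
25) .z)))) .z) (.c (.b (.c (.a .z (.a .z (.l 25))) (.a (.a .z (.l 25)) (.c (.l 25) .z))) (.a .z (.c (.l 25) .z))) .z)) .z)) .z) (.a (.b (.c (.c (.c .z
(.c (.b .z (.c .z (.l 21))) (.c (.a (.l 21) .z) .z))) .z) .z) (.c (.c (.c .z (.c (.c .z (.a (.b (.l 21) .z) .z)) .z)) .z) .z)) (.b (.c (.c (.c .z (.c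
.z (.c .z (.a (.c .z (.l 25)) (.c .z (.l 25)))))) (.c (.c (.c (.c (.b (.l 25) .z) .z) .z) .z) .z)) .z) .z))))

theorem vQ186 : ev3 Q186 J4_7 J4_10 J3_7 = 26464471800589736666355 := by decide +kernel

noncomputable def Q7 : QT3 :=
(.c .z (.a (.b .z (.c (.c (.c (.b .z (.c (.b .z (.c (.a .z (.a .z (.b (.l 42) .z))) (.a .z (.b (.a .z (.l 42)) .z)))) .z)) .z) .z) .z)) .z))

theorem vQ7 : ev3 Q7 J3_0 J3_0 J2_2 = 953922625647253951344 := by decide +kernel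

end Pool.Agent.Helper64.SPW.Dat3
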