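import Pool.Agent.Helper64.SPW.Iv3

/-! Boxes of three traces, part 5 (data and kernel evaluation). -/

set_option maxRecDepth 1000000
set_option maxHeartbeats 0

namespace Pool.Agent.Helper64.SPW.Dat3

noncomputable def Q50 : QT3 :=
(.c (.b (.c (.a (.c (.b (.c (.b (.c .z (.l 39)) (.c (.b (.c (.l 22) .z) (.c (.l 22) .z)) .z)) (.b (.l 39) (.c (.b (.l 39) .z) (.l 39)))) (.c (.b (.c
(.l 22) (.a (.b .z (.l 22)) .z)) (.c (.l 22) (.a (.l 22) (.a (.l 22) .z)))) (.b (.c .z (.a .z (.l 39))) .z))) (.b (.a (.c (.l 39) (.a .z (.c (.l 39)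
.z))) (.l 39)) (.c (.b (.l 39) (.c (.a .z (.l 39)) (.a .z (.l 39)))) (.a (.a .z (.c (.l 39) .z)) (.l 39))))) (.c (.c (.b (.c .z (.b (.l 39) (.a .z (.l
39)))) (.a (.c (.b (.c (.l 22) .z) (.a (.l 22) .z)) .z) (.c .z (.a .z (.l 39))))) (.b (.l 39) (.a (.c (.b (.l 39) .z) (.l 39)) (.l 39)))) (.a (.l 39)
(.b (.l 39) (.c (.l 39) (.a (.l 39) (.b (.l 39) .z))))))) (.a (.c (.a (.b (.c (.a (.b .z (.c .z (.l 26))) .z) (.a (.b .z (.c (.l 26) .z)) (.b (.c (.l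
26) .z) (.l 26)))) (.c (.a (.l 26) (.c .z (.a (.l 26) .z))) (.l 26))) (.c (.a (.c (.a .z (.l 39)) .z) (.l 39)) (.a (.c (.a (.l 26) .z) (.l 26)) .z)))
(.a (.b .z (.c (.a (.b .z (.c (.l 26) .z)) (.b (.c (.l 26) .z) (.l 26))) (.a (.b (.c .z (.l 23)) .z) .z))) (.b (.c (.a (.b .z (.c (.l 26) .z)) (.b (.c
(.l 26) .z) (.l 26))) .z) (.c (.a (.l 26) (.c (.a (.l 26) .z) .z)) .z)))) (.c (.a (.c (.l 39) (.b (.a (.c (.l 39) .z) (.l 39)) (.a (.c (.l 39) .z)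
.z))) (.b (.c (.a (.l 39) (.b (.l 39) .z)) (.a (.c (.l 39) .z) .z)) (.c (.a (.c (.l 39) .z) .z) .z))) .z))) (.a (.c (.c (.b (.c (.l 22) (.a (.b (.c
(.l 22) .z) (.l 22)) (.b .z (.c (.l 22) .z)))) (.a (.l 22) (.c (.l 22) (.a (.l 22) (.c (.l 22) (.b .z (.l 22))))))) (.b (.c (.a (.b .z (.c (.a (.l 22)
.z) .z)) (.b (.c .z (.l 39)) .z)) (.a .z (.l 39))) (.a (.c (.b (.c (.l 22) (.a (.l 22) .z)) (.l 22)) (.b .z (.a (.c (.l 22) .z) .z))) (.c (.a (.b .z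
(.c (.l 22) .z)) .z) (.b (.a .z (.l 39)) .z))))) (.b (.c (.a (.a (.c (.a (.c .z (.l 26)) (.l 26)) (.l 26)) (.c (.a (.l 26) (.c .z (.l 26))) (.l 26)))
(.c (.a .z (.l 39)) (.a (.a (.l 26) (.c .z (.l 26))) .z))) (.a (.c (.l 26) (.a (.b .z (.l 26)) (.c (.a (.l 26) .z) .z))) (.c (.a (.c (.l 26) .z) .z)
.z))) (.a (.c (.c (.b (.a (.c .z (.l 26)) (.a (.l 26) .z)) .z) (.b (.l 26) (.a (.c .z (.l 26)) (.l 26)))) (.c (.a (.l 26) (.c (.l 26) (.a (.l 26)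
.z))) (.a (.c (.l 26) (.a (.l 26) .z)) .z))) (.c (.c (.a .z (.l 39)) (.a (.c (.a (.l 26) .z) (.a (.l 26) .z)) .z)) (.b (.c .z (.a .z (.c (.l 22) .z)))
(.a (.c .z (.c .z (.l 22))) (.c (.c .z (.l 22)) (.b (.l 22) .z)))))))) (.c (.b (.c (.c (.a (.c (.l 22) (.a (.b .z (.l 22)) .z)) (.c (.a (.c (.l 22)
.z) .z) (.a .z (.l 39)))) (.a (.c .z (.a .z (.l 39))) (.l 39))) (.a (.l 39) (.c (.a (.l 39) (.b (.l 39) .z)) (.a (.b (.l 39) .z) .z)))) (.a (.c (.c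
(.a (.l 22) (.c (.l 22) (.a (.l 22) .z))) (.a (.c (.b .z (.l 22)) .z) .z)) (.c (.a .z (.c .z (.l 39))) (.a (.l 39) .z))) (.c (.c (.a (.c (.a (.l 22)
.z) .z) .z) (.a (.c .z (.l 39)) (.b (.l 39) .z))) (.b (.c (.a (.l 39) .z) .z) .z)))) (.b (.a (.c (.c (.a (.l 39) .z) .z) (.c (.a (.c .z (.b .z (.l
22))) .z) .z)) .z) (.a (.c (.b (.c .z (.a .z (.c .z (.l 22)))) (.a (.c .z (.c .z (.l 22))) (.c .z (.b (.l 22) .z)))) (.b (.a (.l 22) .z) (.a (.c (.b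
(.l 22) .z) .z) .z))) .z))))) (.b (.a (.c (.c (.b (.a (.a (.b (.c .z (.b .z (.l 23))) (.c (.a (.l 23) .z) (.l 23))) (.b .z (.c .z (.a (.l 23) .z))))
.z) (.a (.c (.b (.a (.l 23) .z) (.a (.c .z (.l 23)) .z)) (.l 23)) .z)) (.b (.a (.c (.a (.l 23) (.b (.a (.l 23) .z) (.l 23))) (.a (.c (.l 23) (.a .z
(.l 23))) (.b (.l 23) (.c (.l 23) .z)))) .z) (.a (.c (.a (.l 23) (.b (.l 23) .z)) (.a (.b (.c (.l 23) .z) .z) .z)) .z))) .z) (.c .z (.b (.a .z (.c .z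
(.b (.a .z (.c .z (.b .z (.a .z (.l 11))))) (.a (.c .z (.b .z (.a .z (.l 11)))) (.c (.b .z (.a .z (.l 11))) (.l 11)))))) (.a (.c (.b .z (.a .z (.c .z
(.b .z (.a .z (.l 11)))))) (.b (.a .z (.c .z (.b .z (.a .z (.l 11))))) (.a (.c .z (.b .z (.a .z (.l 11)))) (.c (.b (.a .z (.l 11)) (.l 11)) (.l
11))))) (.c (.b (.a .z (.c .z (.b (.a .z (.l 11)) (.l 11)))) (.a (.c .z (.b (.a .z (.l 11)) (.l 11))) (.c .z (.c (.c .z (.l 11)) (.l 11))))) (.b (.a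
(.c (.b .z (.l 11)) (.l 11)) (.l 11)) (.l 11))))))) (.a (.c (.b (.a (.c (.c .z (.a (.b (.l 23) .z) .z)) (.c (.b (.a (.c (.l 23) .z) .z) .z) (.a .z (.b
(.c .z (.l 21)) (.l 21))))) (.c .z (.b (.a (.c .z (.b .z (.l 21))) .z) .z))) (.a (.c .z (.b (.a (.c .z (.l 21)) .z) .z)) .z)) (.b (.a (.c (.b (.c (.a
.z (.l 21)) .z) (.a (.c (.c (.l 21) .z) .z) .z)) (.b (.a (.c (.c .z (.l 13)) .z) .z) (.a (.c (.b (.c .z (.l 13)) (.a (.l 13) .z)) .z) .z))) (.c (.b .z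
(.a .z (.c .z (.b .z (.a .z (.l 11)))))) (.b (.a .z (.c .z (.b .z (.l 11)))) (.a (.c (.b .z (.a .z (.l 11))) (.b (.a .z (.l 11)) (.l 11))) (.l 11)))))
(.a (.c (.b .z (.a (.c .z (.b .z (.a .z (.l 11)))) (.c (.b .z (.a .z (.l 11))) (.b (.a .z (.l 11)) (.l 11))))) (.b (.a (.b .z (.c .z (.a .z (.l 11))))
(.b (.c .z (.l 11)) (.l 11))) (.a (.b (.c (.a .z (.l 11)) (.l 11)) (.l 11)) (.l 11)))) (.c (.b (.a (.c .z (.b (.a .z (.l 11)) (.l 11))) (.c (.b .z (.c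
.z (.l 11))) (.l 11))) (.c (.c (.a (.c .z (.l 11)) .z) (.a (.l 11) (.c .z (.l 11)))) (.l 11))) (.l 11))))) (.c .z (.b (.a (.c (.b (.a (.c .z (.b .z
(.a .z (.l 11)))) (.c .z (.l 11))) (.a (.c .z (.l 11)) (.c .z (.l 11)))) (.b (.a (.c (.b (.a .z (.l 11)) (.l 11)) (.l 11)) (.l 11)) (.l 11))) (.c (.c
.z (.c (.a (.c (.b (.l 11) .z) (.l 11)) .z) (.a (.l 11) (.b (.l 11) (.c .z (.l 11)))))) (.l 11))) (.c (.c (.a (.c .z (.a (.c .z (.b (.l 11) .z)) .z))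
.z) (.a (.c (.a (.l 11) (.c .z (.b (.l 11) .z))) (.l 11)) (.c .z (.a (.b (.l 11) (.c .z (.l 11))) .z)))) (.c (.a (.l 11) (.c (.a (.l 11) (.b (.l 11)
(.c .z (.l 11)))) (.l 11))) (.l 11))))))))

theorem vQ50 : ev3 Q50 J4_3 J4_4 J3_6 = 164500133909522169793434 := by decide +kernel

noncomputable def Q62 : QT3 :=
(.c (.b (.c (.a (.b (.c (.b (.a (.c .z (.a (.b (.c .z (.l 8)) (.l 8)) .z)) (.c (.l 20) (.a .z (.l 20)))) (.a (.c (.a (.b (.c .z (.l 8)) (.l 8)) .z)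
(.b (.a (.l 8) (.c .z (.l 8))) (.a (.l 8) (.c (.l 8) .z)))) (.c (.b (.a .z (.l 20)) .z) .z))) (.b (.a (.c (.a (.l 8) (.b (.c .z (.l 8)) (.l 8))) (.b
(.l 8) (.a (.l 8) .z))) .z) (.a (.c (.b (.a (.l 8) (.c (.l 8) .z)) (.a (.c (.l 8) .z) .z)) .z) (.c (.b .z (.a .z (.c .z (.l 6)))) (.b .z (.c (.c (.l
6) .z) .z)))))) (.c (.b (.a (.c (.b (.a (.l 8) (.c .z (.l 8))) (.a (.l 8) (.c (.l 8) .z))) (.b (.a (.c (.l 8) .z) .z) .z)) (.c .z (.b (.a .z (.c .z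
(.l 6))) (.a (.c .z (.l 6)) (.l 6))))) (.a (.c (.b (.a (.c (.l 8) .z) .z) .z) (.b (.a .z (.c .z (.l 6))) (.a (.c .z (.l 6)) (.l 6)))) (.c (.b (.a .z
(.l 6)) (.l 6)) (.l 6)))) (.b (.a (.c (.b .z (.a .z (.l 6))) (.b (.a (.c .z (.l 6)) (.c (.l 6) .z)) (.l 6))) (.c (.l 6) (.c (.c (.l 6) (.a (.l 6) .z))
.z))) (.c (.l 6) (.c (.l 6) (.a (.l 6) (.c (.l 6) (.a (.l 6) .z)))))))) (.b (.c (.a (.b (.c (.a (.l 20) (.b (.l 20) .z)) (.a (.b (.l 20) .z) .z)) (.c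
.z (.a (.b .z (.c .z (.l 6))) (.b (.c .z (.l 6)) (.l 6))))) (.b (.c .z (.a (.b .z (.c .z (.l 6))) (.b (.c .z (.l 6)) (.l 6)))) (.c (.a (.b .z (.l 6))
(.l 6)) (.l 6)))) (.a (.b .z (.c (.a (.b .z (.l 6)) (.c (.l 6) .z)) .z)) (.c (.c (.c (.a (.l 6) (.b .z (.l 6))) (.a (.b .z (.l 6)) .z)) .z) (.b (.b
(.l 51) .z) .z)))) (.c (.a (.b (.c (.a (.b .z (.c .z (.l 6))) (.l 6)) (.l 6)) (.l 6)) (.l 6)) (.c (.a (.c (.l 6) (.b (.c (.l 6) (.a (.l 6) .z)) (.l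
6))) (.c (.a (.l 6) (.c (.l 6) (.b .z (.l 6)))) (.a (.b .z (.c (.l 6) .z)) .z))) (.a (.c (.b .z (.a (.l 6) (.c (.l 6) .z))) .z) .z))))) (.a (.b (.c
(.b (.a (.c (.b (.a (.c (.l 8) .z) .z) .z) .z) .z) .z) (.b .z (.c .z (.c (.b .z (.c .z (.b .z (.l 9)))) (.b (.c .z (.l 9)) (.l 9)))))) (.c (.c (.c (.a
(.b .z (.c (.l 6) .z)) .z) .z) .z) (.c (.b (.c .z (.b .z (.c .z (.b .z (.l 9))))) (.c (.b .z (.c .z (.l 9))) (.b (.c (.b .z (.l 9)) (.l 9)) (.l 9))))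
(.b (.c (.b (.c (.b .z (.l 9)) (.l 9)) (.l 9)) (.l 9)) (.l 9))))) (.c .z (.b (.c .z (.b (.c .z (.b .z (.c .z (.b .z (.l 9))))) (.c (.b .z (.c .z (.b
.z (.l 9)))) (.b (.c (.b .z (.l 9)) (.l 9)) (.l 9))))) (.c (.b (.c .z (.b .z (.c .z (.b .z (.l 9))))) (.c (.b .z (.c .z (.l 9))) (.b (.c (.b .z (.l
9)) (.l 9)) (.l 9)))) (.b (.c (.b (.c (.b .z (.l 9)) (.l 9)) (.l 9)) (.l 9)) (.l 9))))))) (.c (.b (.a (.c (.b (.a (.c (.b (.a (.c .z (.l 6)) (.l 6))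
(.l 6)) (.l 6)) (.l 6)) (.l 6)) (.l 6)) (.c (.l 6) (.c (.a (.l 6) (.c (.l 6) (.a (.l 6) (.b (.c (.l 6) .z) (.l 6))))) (.a (.c (.l 6) (.b (.a (.c (.l
6) .z) .z) (.a (.l 6) (.c (.l 6) .z)))) (.c (.a (.b (.c (.l 6) .z) (.l 6)) .z) .z))))) (.c (.l 6) (.a (.l 6) (.c (.l 6) (.a (.l 6) (.c (.l 6) (.a (.b
(.c (.l 6) .z) (.l 6)) (.b .z (.c (.l 6) .z))))))))) (.c (.a (.c (.b (.a (.c (.l 6) (.b (.c (.a (.l 6) .z) .z) (.l 6))) (.c (.b (.a (.c (.l 6) .z) .z)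
(.l 6)) (.b .z (.a (.c (.l 6) .z) .z)))) (.a (.l 6) (.c (.l 6) (.b (.a (.l 6) (.c (.l 6) .z)) (.l 6))))) (.b (.a (.b .z (.c (.a (.c (.l 6) .z) .z)
.z)) (.c .z (.b (.b .z (.c .z (.l 9))) (.a (.c .z (.l 9)) (.l 9))))) (.a (.b (.c (.l 6) (.a (.b .z (.l 6)) .z)) (.l 6)) (.b (.c (.a (.c (.l 6) .z) .z)
(.a .z (.c .z (.l 9)))) (.c (.a (.l 6) (.c (.l 6) .z)) .z))))) (.c (.b .z (.a (.c (.b (.a (.l 6) .z) (.l 6)) (.b .z (.a (.l 6) .z))) (.c .z (.a .z (.b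
.z (.c .z (.l 9))))))) (.b (.b (.c .z (.b .z (.c .z (.l 9)))) (.c (.b .z (.c .z (.l 9))) (.l 9))) (.a (.c (.b (.a .z (.c .z (.l 9))) .z) (.b (.l 9)
(.a .z (.l 9)))) (.c (.a (.b (.l 9) (.c .z (.l 9))) (.l 9)) (.l 9)))))) (.a (.c (.b (.a (.b (.l 9) (.c (.a (.b (.l 9) .z) (.l 9)) (.l 9))) (.l 9)) (.a
(.b (.c .z (.a (.b (.l 9) .z) (.l 9))) (.c (.a (.b .z (.l 6)) .z) .z)) (.b (.c (.a (.b (.l 9) .z) (.l 9)) (.l 9)) (.c (.a .z (.b (.l 9) .z)) (.a (.b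
(.l 9) .z) (.l 9)))))) (.a (.c (.b (.l 9) (.b (.l 9) (.a .z (.b (.l 9) .z)))) (.a (.b (.l 9) (.c (.l 9) (.a .z (.l 9)))) (.l 9))) (.l 9))) (.l 9)))))
(.c (.c (.a (.c (.a (.c (.b (.b (.b (.b (.c .z (.l 9)) (.l 9)) (.l 9)) (.l 9)) (.a (.b (.c (.l 9) .z) .z) (.c (.l 9) (.b (.l 9) (.a .z (.l 9)))))) (.b
(.a (.c (.b (.l 9) .z) .z) (.c (.l 9) (.b (.l 9) (.a .z (.l 9))))) (.a .z (.c (.b (.a .z (.l 9)) .z) .z)))) (.c (.b (.b (.b (.b (.c .z (.l 9)) (.l 9))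
(.l 9)) (.l 9)) (.l 9)) (.a (.b (.l 9) (.c (.l 9) (.a (.b (.l 9) .z) (.l 9)))) (.l 9)))) (.a (.c (.b (.a (.c .z (.l 44)) .z) (.a (.b .z (.b .z (.a .z
(.l 10)))) (.c (.a (.b .z (.l 10)) .z) (.b .z (.l 10))))) (.b .z (.b (.a .z (.b (.c .z (.l 10)) (.l 10))) (.l 10)))) (.c (.a (.b (.c (.a (.b (.l 9)
.z) (.l 9)) (.a .z (.b (.l 9) .z))) (.c (.a .z (.b (.l 9) .z)) .z)) (.b (.l 9) (.c (.l 9) (.a .z (.l 9))))) (.a (.b (.c .z (.a .z (.b .z (.l 10))))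
(.c (.a (.l 10) (.b .z (.l 10))) (.l 10))) (.c (.b (.a .z (.l 9)) .z) (.a (.b .z (.a (.l 10) .z)) .z)))))) (.a (.c (.b (.b (.b (.c (.b (.c .z (.l 9))
(.l 9)) (.l 9)) (.l 9)) (.l 9)) (.l 9)) (.c (.l 9) (.a (.c (.l 9) (.a (.b (.l 9) (.a .z (.l 9))) (.l 9))) (.l 9)))) (.b (.b (.c (.b (.c (.b (.c .z (.l
9)) (.l 9)) (.l 9)) (.l 9)) (.l 9)) (.l 9)) (.l 9)))) (.a (.c (.a (.b (.b (.c .z (.a .z (.b .z (.c .z (.l 10))))) (.c (.a .z (.b .z (.l 10))) (.a (.b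
(.c .z (.l 10)) (.l 10)) (.l 10)))) (.b (.a (.c (.b (.c .z (.l 10)) (.l 10)) (.l 10)) (.l 10)) (.l 10))) (.c (.a (.b (.b (.b .z (.c .z (.l 10))) (.l
10)) (.l 10)) (.c (.a (.b (.b .z (.l 10)) (.l 10)) (.b .z (.a (.l 10) .z))) (.l 10))) (.l 10))) (.a (.c (.b (.b (.a (.b (.c .z (.l 10)) (.l 10)) (.l
10)) (.l 10)) (.l 10)) (.b (.a (.l 10) (.c (.l 10) (.b (.a (.l 10) .z) (.l 10)))) (.l 10))) (.c (.a (.l 10) (.a (.c (.l 10) (.b .z (.l 10))) (.c (.b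
(.a (.l 10) .z) (.l 10)) .z))) (.a (.b (.c (.a (.b .z (.l 10)) .z) .z) (.a (.l 10) (.c (.l 10) .z))) (.b (.c (.a .z (.a .z (.l 11))) (.a (.b (.l 11)
.z) (.l 11))) (.a .z (.c .z (.a .z (.l 11))))))))) (.a (.c (.a (.c (.a (.c .z (.b .z (.a (.l 10) .z))) (.c (.a (.b (.l 9) .z) (.l 9)) .z)) (.a (.c (.l
10) (.a (.l 10) (.b .z (.l 10)))) (.c (.a (.l 10) .z) .z))) (.c (.a (.c (.l 9) (.a (.b (.l 9) .z) (.l 9))) (.l 9)) (.a .z (.c (.a (.b .z (.l 9)) (.l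
9)) .z)))) (.a (.c (.a (.c .z (.b (.a .z (.l 11)) .z)) (.c (.a .z (.b (.l 11) .z)) (.l 11))) (.l 11)) (.c (.a (.l 11) (.c (.a (.l 11) .z) (.l 11)))
(.l 11)))) (.c (.a (.c (.l 9) (.a (.c (.l 9) (.a (.b .z (.l 9)) (.l 9))) (.l 9))) (.l 9)) (.a (.c (.a (.c .z (.b (.a (.l 11) .z) .z)) (.c (.b .z (.l
9)) .z)) (.a (.l 11) (.c (.b (.a (.l 11) .z) .z) (.b (.l 11) (.a (.l 11) .z))))) (.c (.a (.c (.l 9) (.b .z (.l 9))) (.l 9)) (.b (.a (.c .z (.b (.l 11)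
.z)) .z) (.a .z (.c (.l 9) (.b .z (.l 9))))))))))) (.a (.c (.c (.a (.b (.c (.a (.b (.c (.a (.l 10) .z) .z) (.c (.l 10) (.a (.l 10) .z))) (.c .z (.b
(.a .z (.l 11)) .z))) (.a (.b (.c .z (.a .z (.l 11))) .z) (.b (.l 11) (.c (.a .z (.l 11)) (.l 11))))) (.c (.a (.l 10) (.a (.b (.c (.l 10) .z) (.l 10))
(.c (.b .z (.l 10)) .z))) (.a (.b (.c (.a (.l 10) .z) .z) (.a (.l 10) (.c (.l 10) .z))) (.b (.c .z (.a .z (.l 11))) .z)))) (.a (.c (.b (.c (.a .z (.b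
(.l 11) .z)) (.l 11)) (.a .z (.c .z (.b (.l 11) .z)))) (.b (.l 11) (.a (.c (.b (.l 11) .z) (.b (.l 11) .z)) (.b (.l 11) (.b (.l 11) .z))))) (.c (.b
(.l 11) (.a (.c (.b (.l 11) .z) (.l 11)) (.l 11))) (.l 11)))) (.a (.b (.c (.a (.b (.l 11) (.c (.a .z (.l 11)) (.l 11))) (.l 11)) (.b (.l 11) (.b (.l
11) (.c (.l 11) (.a .z (.l 11)))))) (.a (.c .z (.b (.b .z (.c .z (.l 12))) (.a .z (.c .z (.l 12))))) (.c (.b (.b (.l 11) (.c (.l 11) .z)) .z) (.b .z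
(.b (.c .z (.l 12)) .z))))) (.b (.l 11) (.b (.c (.l 11) (.b (.a (.c (.l 11) .z) (.l 11)) (.a .z (.c (.l 11) .z)))) (.c (.b (.a .z (.c (.l 11) .z)) .z)
.z))))) (.b (.c (.b (.c (.l 11) (.a (.b (.l 11) (.c (.a .z (.l 11)) .z)) (.l 11))) (.a (.c (.b (.c (.l 11) (.a .z (.l 11))) .z) (.b .z (.c .z (.l
12)))) (.c (.b (.l 11) (.a (.c (.l 11) .z) (.l 11))) (.b (.a .z (.c (.l 11) .z)) .z)))) (.b (.c (.a (.b (.c (.a .z (.l 11)) .z) .z) (.b (.c (.l 11)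
(.a .z (.l 11))) (.c (.a .z (.l 11)) .z))) .z) (.a (.c (.b (.c (.a (.l 12) .z) .z) (.c (.a (.l 12) .z) .z)) (.c .z (.a .z (.l 15)))) (.c (.b .z (.a
(.c .z (.l 13)) .z)) .z)))) (.c (.b (.a (.c (.b (.a (.c .z (.l 12)) .z) (.l 12)) (.c (.a (.l 12) (.b (.l 12) .z)) (.a (.b (.l 12) .z) .z))) (.c .z (.b
.z (.a .z (.c .z (.l 13)))))) (.a (.c (.c (.a (.l 12) (.b (.l 12) .z)) (.a (.b (.l 12) .z) .z)) (.a .z (.c .z (.b .z (.l 13))))) (.c (.b .z (.a .z (.c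
.z (.l 13)))) (.a (.c (.b .z (.l 13)) (.l 13)) (.l 13))))) (.a (.c (.b (.c .z (.a .z (.b .z (.l 13)))) (.a (.c (.b .z (.l 13)) (.l 13)) (.l 13))) (.c
(.b (.b .z (.a .z (.l 13))) (.l 13)) (.b .z (.b .z (.a .z (.l 13)))))) (.c (.b (.a (.c (.b .z (.l 13)) (.l 13)) (.l 13)) (.l 13)) (.c (.b (.b (.a .z
(.l 13)) (.l 13)) (.l 13)) (.b .z (.b (.a .z (.l 13)) (.l 13))))))))) (.c (.a (.b (.l 11) (.c (.l 11) (.b (.l 11) (.c (.b (.l 11) (.a (.c (.l 11) .z)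
(.l 11))) (.b (.a (.c (.l 11) .z) (.l 11)) (.a .z (.c (.l 11) .z))))))) (.c (.a (.l 11) (.c (.b (.a (.l 11) (.c (.b (.l 11) .z) (.l 11))) (.a (.c (.a
(.l 11) .z) (.l 11)) .z)) (.b (.l 11) (.a (.l 11) (.c (.b (.l 11) .z) (.l 11)))))) (.l 11))) (.b (.c (.b (.l 11) (.a (.c (.l 11) (.b (.l 11) (.a (.c
(.l 11) .z) (.l 11)))) (.l 11))) (.b (.a (.c (.l 11) (.b (.a (.c (.l 11) .z) (.l 11)) (.a .z (.c (.l 11) .z)))) (.l 11)) (.a (.c (.b (.a (.c (.l 11)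
.z) (.l 11)) .z) .z) (.c (.l 11) (.a (.b (.c (.l 11) .z) .z) (.b (.l 11) (.c (.l 11) .z))))))) (.c (.a (.b (.c (.b (.l 11) (.a .z (.l 11))) (.b (.a .z
(.c (.l 11) .z)) .z)) (.c (.a (.b .z (.c .z (.l 13))) .z) (.a (.b (.c .z (.l 13)) (.l 13)) (.b .z (.c .z (.l 13)))))) (.b (.c (.l 11) (.a (.b (.l 11)
(.c (.l 11) .z)) (.l 11))) (.c (.a (.b (.l 11) .z) (.l 11)) (.a .z (.b (.c (.l 11) .z) .z))))) (.a (.b (.c (.a (.b (.c .z (.l 13)) (.l 13)) (.b .z (.c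
.z (.l 13)))) (.a (.c (.l 13) (.b .z (.l 13))) (.b .z (.l 13)))) (.l 13)) (.b (.c (.a .z (.b (.l 11) (.c (.l 11) .z))) (.a (.b .z (.c .z (.l 13)))
.z)) (.c (.a (.b .z (.l 13)) .z) (.a (.l 13) (.b .z (.l 13))))))))))))

theorem vQ62 : ev3 Q62 J4_2 J4_6 J3_6 = 317587288957451449199580 := by decide +kernel

noncomputable def Q23 : QT3 :=
(.a (.c (.b (.a (.b (.l 28) (.b (.a (.b (.l 28) .z) (.b (.l 28) .z)) (.a .z (.a .z (.b (.c (.c .z (.l 32)) (.c (.l 32) .z)) .z))))) (.b (.l 28) (.b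
(.b (.l 28) (.b .z (.c (.a (.a .z (.l 32)) .z) (.a (.c (.l 32) .z) (.a (.l 32) .z))))) (.a (.c (.a (.c (.c .z (.l 32)) (.l 32)) (.l 32)) (.c (.l 32)
(.a (.c (.l 32) .z) (.l 32)))) (.a (.c (.a (.c .z (.l 32)) .z) (.a (.l 32) (.c .z (.l 32)))) .z))))) (.a .z (.a (.b (.a (.b (.a (.b (.b (.l 32) .z)
.z) (.b (.l 32) (.a .z (.l 32)))) .z) (.b (.c (.a (.l 32) (.c .z (.l 32))) (.l 32)) (.a (.b (.a .z (.l 32)) .z) (.c .z (.l 32))))) .z) (.a (.b (.c .z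
(.a (.b (.l 32) .z) .z)) .z) .z)))) (.b (.a (.b (.l 28) (.b (.a (.b (.l 28) .z) (.b (.l 28) .z)) .z)) (.b (.l 28) (.b (.b (.l 28) .z) (.a (.c (.c (.a
.z (.a .z (.l 32))) .z) .z) (.c (.a (.c (.a (.l 32) .z) .z) .z) .z))))) (.c (.b (.a .z (.a (.a .z (.b (.c (.l 32) .z) .z)) (.a (.a (.c (.b (.l 32) .z)
.z) .z) .z))) (.a (.a (.b (.b .z (.a (.c .z (.l 52)) .z)) (.b (.a .z (.c .z (.l 52))) .z)) .z) .z)) (.b (.a (.b .z (.a (.b .z (.a (.c .z (.l 52)) .z))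
.z)) .z) (.a (.c (.a (.b (.b (.a (.l 52) .z) (.a (.l 52) .z)) (.a (.l 52) .z)) .z) (.b (.a (.a (.l 52) .z) .z) (.c .z (.b (.a .z (.a (.l 24) .z))
.z)))) .z))))) (.a (.c (.b (.a (.b (.l 28) (.b (.b (.l 28) .z) .z)) (.c (.a (.b (.c (.a (.c .z (.l 28)) .z) (.a (.l 28) (.c .z (.l 28)))) .z) .z) (.a
(.b (.l 28) (.b (.b (.l 28) .z) .z)) (.b (.a (.c (.a (.l 28) .z) (.l 28)) (.c .z (.l 28))) (.a (.b (.b (.l 28) .z) .z) .z))))) (.c (.a .z (.b (.a (.a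
.z (.b .z (.c (.l 32) .z))) (.a (.b .z (.c .z (.l 32))) .z)) (.a (.c (.a (.b .z (.l 32)) (.l 32)) (.b (.a .z (.l 32)) (.a (.l 32) .z))) (.c (.b .z (.a
(.l 32) .z)) (.b (.a (.l 32) .z) .z))))) (.a .z (.b .z (.a .z (.c (.b .z (.a .z (.c .z (.l 26)))) (.b .z (.c (.l 26) .z)))))))) (.b (.a (.c (.b (.l
28) (.b (.b (.l 28) .z) .z)) (.b (.c (.l 28) (.a (.c (.l 28) (.b .z (.l 28))) (.c (.a (.l 28) .z) .z))) (.c (.b (.b (.l 28) .z) .z) (.b (.a (.b (.l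
28) .z) .z) .z)))) (.c (.b (.c (.l 28) (.a (.l 28) (.a (.c (.l 28) .z) (.c (.l 28) .z)))) (.a (.c (.b (.b (.l 28) .z) .z) (.b (.b (.l 28) .z) .z)) (.c
(.b (.b (.l 28) .z) .z) .z))) (.b (.a (.c (.c (.a (.l 28) .z) .z) (.b (.c .z (.l 24)) .z)) (.c (.b (.c .z (.a .z (.l 24))) .z) (.b (.a (.c (.l 24) .z)
.z) .z))) (.a .z (.c .z (.b .z (.a (.c .z (.l 14)) (.l 14)))))))) (.a .z (.c (.b .z (.a .z (.c (.c .z (.a (.b .z (.l 18)) (.c (.l 18) .z))) .z))) (.b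
(.a .z (.c .z (.a (.c .z (.a .z (.l 14))) (.l 14)))) (.a .z (.c .z (.a .z (.c (.a .z (.l 14)) (.l 14)))))))))) (.c (.b (.a (.c (.a .z (.b .z (.b .z
(.l 59)))) .z) (.c (.b .z (.a .z (.c .z (.b .z (.a .z (.l 26)))))) (.b .z (.a (.c (.b .z (.a .z (.c .z (.l 26)))) (.b .z (.l 26))) (.c (.b .z (.l 26))
(.b (.b .z (.b .z (.l 26))) (.l 26))))))) (.a (.c (.b (.a .z (.c (.b (.l 59) .z) .z)) (.a (.c .z (.b .z (.a .z (.c .z (.l 26))))) (.c (.b .z (.a .z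
(.l 26))) (.b (.a (.c .z (.l 26)) (.l 26)) (.l 26))))) (.b (.a (.c .z (.b .z (.a .z (.c .z (.l 26))))) (.c (.b .z (.a (.c .z (.l 26)) (.l 26))) (.b
(.a (.c .z (.l 26)) (.l 26)) (.l 26)))) (.a (.c (.b (.a .z (.c .z (.l 26))) (.l 26)) (.l 26)) (.l 26)))) (.c (.b (.a (.c (.b .z (.a .z (.c .z (.l
26)))) (.b (.a .z (.c .z (.l 26))) (.a (.c .z (.l 26)) (.l 26)))) (.c (.b (.a .z (.c .z (.l 26))) (.l 26)) (.l 26))) (.a (.c (.b (.a (.c .z (.l 26))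
(.l 26)) (.l 26)) (.l 26)) (.l 26))) (.b (.a (.c (.b (.a (.c .z (.l 26)) (.l 26)) (.l 26)) (.l 26)) (.c (.l 26) (.c (.l 26) (.c (.l 26) (.a (.l 26)
.z))))) (.c (.l 26) (.c (.l 26) (.a (.l 26) (.c (.a (.l 26) .z) .z)))))))) (.b (.a (.c (.b (.a (.c (.a (.a (.l 28) .z) .z) .z) .z) (.a (.c .z (.b .z
(.a .z (.c .z (.l 14))))) (.c (.b .z (.a .z (.c (.l 26) .z))) (.b .z (.c .z (.a (.l 14) .z)))))) (.b .z (.a (.c (.b .z (.l 14)) (.b (.b .z (.b .z (.l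
14))) (.l 14))) (.b (.b .z (.b .z (.l 14))) (.l 14))))) (.c (.b .z (.c (.b .z (.c (.a (.c (.l 26) .z) .z) (.a .z (.c .z (.l 18))))) (.a .z (.c (.b .z
(.a .z (.l 18))) .z)))) (.c (.a (.c (.a (.b .z (.b .z (.l 14))) .z) (.b .z (.b .z (.l 14)))) .z) (.b .z (.b (.b .z (.b .z (.l 14))) (.l 14)))))) (.a
(.c (.b (.a (.c (.b (.a .z (.c (.l 26) .z)) (.c (.a .z (.l 26)) .z)) (.a .z (.c (.a .z (.l 14)) (.l 14)))) (.c (.c (.c (.l 26) (.a (.l 26) .z)) .z)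
(.c .z (.a (.l 14) (.c .z (.l 14)))))) (.c (.a (.c (.a .z (.l 26)) .z) (.c (.c (.l 26) (.a (.l 26) .z)) .z)) (.a (.a .z (.c (.a .z (.l 14)) (.l 14)))
(.c .z (.a (.l 14) .z))))) (.a (.c (.a (.c (.a .z (.l 14)) (.l 14)) (.l 14)) (.l 14)) (.l 14))) (.c (.c (.b (.c (.a (.c (.a (.l 26) .z) .z) .z) .z)
(.a (.c (.c (.a (.l 26) .z) .z) .z) .z)) (.a .z (.b (.c (.b (.a .z (.l 18)) .z) .z) .z))) (.c (.a (.c (.a (.c .z (.b (.l 14) .z)) .z) (.a (.l 14) (.b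
(.l 14) .z))) .z) (.a (.l 14) (.a (.c (.b (.l 14) .z) (.l 14)) (.c .z (.b (.l 14) .z)))))))))))

theorem vQ23 : ev3 Q23 J2_0 J4_5 J4_9 = 322816522628508164658098 := by decide +kernel

noncomputable def Q49 : QT3 :=
(.c (.c (.c (.a (.b (.c (.b (.b (.c (.b .z (.c (.l 22) .z)) (.b (.l 39) .z)) (.c (.l 22) (.b .z (.l 22)))) (.l 22)) (.b .z (.b (.c (.b (.c (.l 22) .z)
(.l 22)) (.b .z (.c (.l 22) .z))) (.l 22)))) (.l 22)) (.b (.b (.c (.b (.c .z (.b (.l 39) .z)) (.c (.b (.c (.l 22) .z) (.l 22)) .z)) (.b (.l 39) (.c .z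
(.a .z (.l 39))))) (.c (.l 22) (.b (.c (.b .z (.a (.l 22) .z)) .z) (.c (.l 22) (.a (.b .z (.l 22)) .z))))) (.l 22))) (.b (.a (.c (.b .z (.a (.c (.b .z
(.b .z (.l 22))) .z) (.b (.c .z (.l 43)) (.c (.b .z (.l 22)) .z)))) .z) (.c (.b (.a .z (.c (.a .z (.l 39)) .z)) (.b (.c .z (.a (.l 43) .z)) .z)) (.a
(.b (.c (.b .z (.l 43)) .z) (.b (.l 43) (.c .z (.l 43)))) (.b .z (.a (.l 43) .z))))) (.a (.c (.l 22) (.b (.a (.c (.b .z (.l 22)) (.b .z (.a .z (.l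
22)))) (.b (.b .z (.c (.l 22) .z)) (.l 22))) (.l 22))) (.b (.c (.b (.a (.c (.l 22) (.b .z (.l 22))) (.c (.b .z (.l 22)) .z)) (.a (.l 22) (.c (.l 22)
(.b .z (.l 22))))) (.b .z (.a (.c (.b .z (.l 22)) .z) .z))) (.b (.c (.l 22) (.a (.l 22) (.c (.l 22) .z))) (.l 22)))))) (.b (.c (.a .z (.b .z (.a (.c
(.c (.b .z (.l 43)) .z) .z) (.c (.a .z (.a .z (.c .z (.l 26)))) (.a .z (.b (.c (.l 26) .z) (.l 26))))))) .z) (.a (.c (.b (.c (.a .z (.c (.b .z (.b .z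
(.l 22))) .z)) .z) (.a (.c (.c (.b (.a .z (.l 22)) (.l 22)) (.b .z (.a .z (.l 22)))) .z) (.c (.l 22) (.b .z (.a (.c (.l 22) .z) (.l 22)))))) .z) (.c
(.a (.b (.c (.b (.b (.l 43) .z) .z) (.b .z (.a .z (.l 43)))) (.b (.c (.b .z (.c (.l 22) .z)) .z) (.c (.l 22) (.b .z (.a (.l 22) .z))))) (.b (.c .z (.a
.z (.a (.c .z (.l 26)) (.l 26)))) (.b .z (.c (.a (.b .z (.l 22)) .z) .z)))) (.b (.a .z (.c (.a .z (.b (.c (.l 26) .z) (.l 26))) .z)) (.a .z (.c (.b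
(.a .z (.l 26)) (.a .z (.l 26))) (.a (.b .z (.a .z (.l 26))) (.l 26))))))))) (.b (.c (.c (.a (.c .z (.a (.c (.b (.a (.c .z (.b .z (.l 10))) .z) (.a
(.l 10) (.c .z (.a (.l 10) .z)))) (.a (.l 10) (.b (.c (.a (.l 10) .z) (.l 10)) (.l 10)))) (.c .z (.a (.b (.c .z (.a (.l 10) .z)) (.c (.a (.l 10) .z)
(.l 10))) .z)))) (.a (.c (.b (.b .z (.a .z (.l 30))) (.c .z (.a .z (.l 30)))) (.a .z (.a (.c (.l 30) .z) .z))) (.b (.c (.b (.c .z (.a .z (.l 23))) (.a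
.z (.a .z (.l 23)))) (.a (.a .z (.c .z (.l 23))) (.l 23))) (.a (.a .z (.c .z (.l 23))) (.l 23))))) (.a (.c (.a (.l 10) (.c (.a (.l 10) (.c (.a (.b .z
(.l 10)) .z) (.l 10))) (.l 10))) (.a (.c (.l 10) (.a (.l 10) (.b (.c (.l 10) (.a (.l 10) .z)) (.l 10)))) (.a (.c (.l 10) (.b .z (.a (.c (.l 10) .z)
.z))) (.c (.a (.c (.l 10) (.b .z (.l 10))) (.c (.b .z (.l 10)) .z)) .z)))) (.a (.c (.a (.c .z (.a (.c (.l 10) (.a (.l 10) .z)) (.c (.a (.l 10) .z)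
.z))) .z) (.a (.c .z (.l 36)) .z)) (.c (.a (.c (.l 23) (.a (.c (.l 23) .z) (.l 23))) (.l 23)) (.a .z (.c (.a (.c (.l 23) .z) (.l 23)) .z)))))) (.a (.c
(.a (.c (.c (.b (.a (.c (.b .z (.l 10)) .z) .z) (.a (.l 10) (.c (.a (.l 10) .z) .z))) (.b .z (.a (.b .z (.c (.l 10) .z)) .z))) (.b (.c .z (.b .z (.l
15))) (.a (.c .z (.b (.l 15) .z)) (.c .z (.l 15))))) (.c (.a (.c .z (.b (.l 36) .z)) (.b (.l 36) .z)) (.b .z (.c (.b .z (.a (.l 15) .z)) (.l 15)))))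
(.a (.l 15) (.c (.b (.c (.b (.c .z (.l 15)) (.l 15)) (.l 15)) (.l 15)) (.b (.l 15) (.a (.l 15) (.c (.l 15) (.b (.l 15) .z))))))) (.c (.a (.b (.c (.a
(.a (.l 36) .z) .z) .z) (.c (.c (.a (.l 36) .z) .z) (.a (.c .z (.b .z (.l 15))) .z))) .z) (.a (.b (.c (.a (.c (.b .z (.l 15)) (.l 15)) (.b (.c .z (.l
15)) .z)) (.a (.b (.l 15) (.c (.l 15) .z)) .z)) (.c (.a (.b (.l 15) (.c (.l 15) .z)) .z) .z)) (.b .z (.c (.a (.b .z (.c (.a .z (.l 13)) (.l 13))) (.b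
(.c .z (.c (.l 13) .z)) (.c (.c .z (.l 13)) (.l 13)))) (.c (.b .z (.c (.a (.l 13) .z) .z)) .z))))))) (.a (.c (.c (.a (.c (.a (.c (.b .z (.a (.l 10)
(.c .z (.l 10)))) (.b (.c (.a (.l 10) .z) (.l 10)) (.l 10))) (.c .z (.b .z (.a (.l 10) (.c .z (.l 10)))))) (.a (.l 10) (.c (.b (.c (.a (.l 10) .z) (.l
10)) (.l 10)) (.l 10)))) (.c .z (.a (.c (.b (.a (.c .z (.l 10)) .z) (.a (.l 10) (.c .z (.l 10)))) (.l 10)) (.c .z (.a (.c .z (.l 10)) .z))))) (.a (.l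
10) (.c (.l 10) (.a (.c (.l 10) (.b (.a (.l 10) (.c (.l 10) .z)) (.l 10))) (.c (.a (.l 10) (.c (.l 10) (.b .z (.l 10)))) (.a (.b .z (.c (.l 10) .z))
.z)))))) (.c (.a (.c (.a (.l 10) (.c (.l 10) (.b (.a (.c (.l 10) .z) .z) (.a (.l 10) (.c (.l 10) .z))))) (.a (.b (.c (.b .z (.a (.l 10) .z)) .z) (.c
(.l 10) (.a (.b .z (.l 10)) .z))) (.b (.c .z (.a .z (.l 15))) .z))) (.c (.a (.c (.b .z (.a (.l 10) .z)) .z) (.c .z (.a .z (.b .z (.l 15))))) (.b (.l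
15) (.a (.c (.a .z (.l 15)) (.l 15)) (.b (.c (.l 15) .z) .z))))) (.a (.c (.a (.b (.c (.b (.l 15) .z) (.l 15)) (.c .z (.a .z (.l 15)))) (.b (.l 15) (.c
(.a .z (.l 15)) (.l 15)))) (.b (.l 15) (.a (.l 15) (.c (.b (.l 15) .z) .z)))) (.b (.c (.a (.l 15) (.b (.c (.l 15) .z) .z)) (.a (.c (.b (.l 15) .z) .z)
(.b .z (.c .z (.a .z (.l 13)))))) (.c (.a (.c (.b (.l 15) .z) .z) (.b .z (.c .z (.a .z (.l 13))))) (.a (.b .z (.c .z (.a .z (.l 13)))) (.b (.c (.a .z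
(.l 13)) (.l 13)) (.l 13)))))))) (.c (.c (.b (.a .z (.c (.b (.a .z (.c .z (.l 23))) .z) (.a (.a (.a .z (.l 23)) (.l 23)) (.l 23)))) (.a .z (.c .z (.b
(.a (.l 23) .z) .z)))) (.b (.a (.c (.a (.c (.a (.c .z (.l 10)) .z) (.a (.l 10) (.c (.l 10) .z))) .z) .z) (.c (.a (.l 23) (.b (.l 23) (.c (.l 23) .z)))
(.a .z (.b (.c (.l 23) .z) .z)))) (.a (.c (.a (.c (.a (.c .z (.l 10)) .z) (.a (.l 10) (.c (.l 10) .z))) .z) .z) (.c (.b (.a (.l 23) .z) (.a (.c (.l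
23) .z) .z)) .z)))) (.b (.c (.a (.c .z (.a (.b (.l 15) (.c (.l 15) .z)) .z)) (.c .z (.a (.b .z (.c .z (.l 13))) (.c .z (.b .z (.c .z (.l 13))))))) (.a
(.c (.a .z (.b (.c .z (.a .z (.l 13))) (.c (.a .z (.l 13)) (.l 13)))) (.a (.b .z (.l 13)) (.c (.l 13) (.b (.c (.l 13) .z) (.l 13))))) (.c (.l 13) (.c
(.b (.c (.l 13) (.a (.l 13) .z)) (.l 13)) (.b .z (.a (.c (.l 13) .z) .z)))))) (.a (.c (.c (.a (.b (.c .z (.l 15)) .z) .z) (.a .z (.b (.c .z (.a .z (.l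
13))) (.c (.a .z (.l 13)) (.l 13))))) (.b (.c (.a (.c .z (.l 13)) (.l 13)) (.l 13)) (.a (.l 13) (.b (.c (.l 13) (.a (.l 13) .z)) (.c (.a (.l 13) .z)
.z))))) (.c (.b (.c .z (.c (.a (.c .z (.l 13)) .z) (.l 13))) (.a (.c .z (.b (.l 13) (.a (.l 13) .z))) .z)) (.b (.a (.b (.l 13) (.c (.l 13) (.a (.l 13)
.z))) (.b (.c (.l 13) (.a (.l 13) .z)) .z)) (.a (.b (.c (.a (.l 13) .z) .z) .z) (.b (.c .z (.a .z (.l 11))) (.c (.a .z (.l 11)) (.l 11))))))))))))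

theorem vQ49 : ev3 Q49 J4_2 J4_4 J3_6 = 193962096677364066293794 := by decide +kernel

noncomputable def Q118 : QT3 :=
(.c (.b (.a (.c (.b (.c (.a (.l 6) (.b (.l 6) (.c (.a (.l 6) (.b (.l 6) (.c (.l 6) .z))) (.a (.b (.l 6) (.c (.l 6) .z)) (.b (.c (.l 6) .z) .z))))) (.a
(.b (.l 6) (.c (.a (.l 6) (.b (.l 6) (.c (.l 6) .z))) (.a (.b (.l 6) (.c (.l 6) .z)) (.b (.c (.l 6) .z) .z)))) (.b (.c (.a (.l 6) (.b (.l 6) .z)) (.a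
(.b (.l 6) .z) .z)) (.c (.a (.b (.c (.l 6) .z) .z) .z) (.a .z (.b (.c .z (.l 7)) (.l 7))))))) (.c (.a (.b (.c (.l 6) (.a (.l 6) (.b (.l 6) .z))) (.c
(.a (.b (.l 6) (.c (.l 6) .z)) (.b (.c (.l 6) .z) .z)) (.a .z (.b .z (.c .z (.l 7)))))) (.b (.c (.a (.b (.l 6) .z) .z) (.a .z (.b .z (.c .z (.l 7)))))
(.c .z (.a (.b (.c .z (.l 7)) (.c .z (.l 7))) (.c (.c .z (.l 7)) (.l 7)))))) (.a (.b (.c (.a (.b (.c (.l 6) .z) .z) .z) (.a .z (.b .z (.l 7)))) (.c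
(.a (.b .z (.c .z (.l 7))) (.b (.c .z (.l 7)) (.l 7))) (.a (.b (.c .z (.l 7)) (.l 7)) (.l 7)))) (.b (.c (.a (.b .z (.c .z (.l 7))) (.l 7)) (.l 7)) (.l
7))))) (.b (.a (.c (.b (.c (.a (.l 6) (.b (.l 6) .z)) (.a (.b (.l 6) .z) .z)) (.c (.a (.b (.c (.l 6) .z) .z) .z) (.a (.b .z (.c .z (.l 7))) (.b (.c .z
(.l 7)) (.l 7))))) (.b (.a (.c .z (.b .z (.a .z (.l 7)))) (.c (.b .z (.a .z (.l 7))) (.l 7))) (.a (.c (.b (.c .z (.l 7)) (.l 7)) (.l 7)) (.l 7)))) (.c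
(.b (.a (.c .z (.b .z (.a .z (.l 7)))) (.c (.b .z (.a .z (.l 7))) (.l 7))) (.a (.c (.b (.c .z (.l 7)) (.l 7)) (.l 7)) (.l 7))) (.l 7))) (.a (.c (.b
(.c (.a (.b .z (.l 7)) (.l 7)) (.l 7)) (.l 7)) (.l 7)) (.l 7)))) (.c (.b (.a (.c (.b (.c (.a (.l 6) (.b (.l 6) (.c (.l 6) .z))) (.a (.b (.l 6) (.c (.l
6) .z)) .z)) (.c (.a (.b (.c (.l 6) .z) .z) .z) (.a .z (.b .z (.l 7))))) (.b (.a (.c .z (.b .z (.a .z (.l 7)))) (.c (.b .z (.a .z (.l 7))) (.l 7)))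
(.a (.c (.b (.c .z (.l 7)) (.l 7)) (.l 7)) (.l 7)))) (.c (.b (.a (.c .z (.b .z (.a .z (.l 7)))) (.c .z (.l 7))) (.a (.c (.b .z (.c .z (.l 7))) (.l 7))
(.c (.c (.c .z (.l 7)) (.l 7)) (.l 7)))) (.l 7))) (.a (.c (.b (.c .z (.l 7)) (.c (.c .z (.c .z (.a .z (.l 7)))) (.l 7))) (.l 7)) (.c (.c (.c (.c .z
(.a .z (.l 7))) (.l 7)) (.l 7)) (.l 7)))) (.l 7))) (.a (.c (.b (.c (.a (.b (.c .z (.a .z (.c .z (.l 7)))) (.c (.a .z (.l 35)) (.c .z (.c .z (.a .z (.l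
7)))))) (.c (.c (.l 35) (.c (.l 35) .z)) (.c (.c .z (.a .z (.l 7))) (.l 7)))) (.l 7)) (.c (.c (.c (.l 35) (.a (.l 35) (.c (.l 35) .z))) (.c (.a (.c
(.l 35) .z) .z) (.a (.c .z (.a .z (.b (.l 7) .z))) (.c (.a .z (.l 7)) (.l 7))))) (.c (.c (.a (.c (.a (.b (.l 7) .z) (.l 7)) (.l 7)) (.l 7)) (.l 7))
(.l 7)))) (.c (.b (.l 7) (.c (.l 7) (.a (.b (.l 7) (.c (.l 7) (.a .z (.l 7)))) (.l 7)))) (.b (.c (.l 7) (.a (.b (.c (.l 7) (.a (.b (.l 7) .z) (.l 7)))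
(.c (.a .z (.b (.l 7) .z)) .z)) (.b (.l 7) (.c (.l 7) (.a (.b (.l 7) .z) (.l 7)))))) (.c (.a (.b (.c (.a (.b (.l 7) .z) (.l 7)) (.a .z (.b (.l 7)
.z))) (.c .z (.a (.b .z (.l 8)) .z))) (.b (.l 7) (.c (.a (.b (.l 7) .z) (.l 7)) (.a .z (.b (.l 7) .z))))) (.a (.b (.c .z (.a (.l 8) .z)) (.c (.a (.l
8) (.b .z (.l 8))) (.l 8))) (.b (.c (.a (.b (.l 7) .z) (.l 7)) (.a .z (.b (.l 7) .z))) (.a (.c .z (.b .z (.l 8))) .z))))))) (.c (.c (.c (.c (.a (.c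
(.l 35) (.a (.l 35) .z)) (.c .z (.a .z (.a (.a .z (.l 7)) (.l 7))))) (.a (.c .z (.a .z (.b (.l 7) (.a .z (.l 7))))) (.c (.a (.a .z (.l 7)) (.l 7)) (.l
7)))) (.c (.a (.c (.a (.b (.l 7) (.a .z (.l 7))) (.l 7)) (.l 7)) (.l 7)) (.l 7))) (.l 7)) (.c (.l 7) (.b (.l 7) (.a (.c (.l 7) (.b (.l 7) (.a (.c (.b
(.l 7) .z) .z) (.l 7)))) (.l 7))))))) (.c (.b (.c (.a (.b (.l 7) (.c (.a (.b (.l 7) (.c (.l 7) (.a .z (.b (.l 7) .z)))) (.l 7)) (.a (.b (.c (.a (.b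
(.l 7) .z) (.l 7)) (.a .z (.b (.l 7) .z))) .z) (.b (.l 7) (.c (.a (.b (.l 7) .z) (.l 7)) (.a .z (.b (.l 7) .z))))))) (.c (.l 7) (.b (.c (.l 7) (.b (.c
(.a (.l 7) (.b .z (.l 7))) (.a (.b .z (.l 7)) .z)) (.l 7))) (.l 7)))) (.a (.b (.c (.a (.b (.c (.b (.c (.l 7) .z) (.l 7)) (.b (.c .z (.l 10)) .z)) (.c
(.a .z (.b (.l 7) .z)) .z)) (.b (.c (.c (.b .z (.l 7)) .z) (.b (.c .z (.l 10)) .z)) (.c (.l 7) .z))) (.a (.b (.c .z (.a (.b .z (.l 11)) .z)) (.c (.a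
(.b .z (.l 11)) .z) (.l 11))) (.b (.c (.a (.b (.l 10) .z) (.l 10)) (.a .z (.b (.l 10) .z))) (.c (.a .z (.b (.l 10) .z)) .z)))) (.c (.a (.b (.c .z (.a
(.c (.l 9) .z) (.b .z (.l 9)))) (.c (.a (.l 9) (.b .z (.l 9))) (.c (.l 9) (.a .z (.l 9))))) (.b (.c (.a .z (.b (.l 7) .z)) .z) (.c .z (.a (.l 9)
.z)))) (.a (.c (.c (.a (.a (.l 11) .z) .z) (.l 11)) (.l 11)) (.b (.c .z (.a (.l 11) (.b .z (.l 11)))) (.c .z (.l 11)))))) (.b (.c (.c (.b (.c .z (.b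
(.a .z (.l 10)) .z)) (.a (.c (.l 7) (.b .z (.l 7))) (.c (.b .z (.l 7)) .z))) (.b (.b (.l 10) (.c (.a .z (.l 10)) (.l 10))) (.a .z (.c .z (.b (.l 10)
.z))))) (.a (.b (.l 10) (.c (.b (.l 10) (.c .z (.l 10))) (.a .z (.l 10)))) (.l 10))) (.a (.c (.b (.c (.l 7) (.a .z (.b .z (.l 7)))) (.a (.c (.b (.l 7)
.z) .z) (.c (.l 7) (.b (.l 7) .z)))) (.b .z (.a (.c .z (.c .z (.l 11))) .z))) (.c (.b (.c (.l 7) (.b .z (.c (.l 7) .z))) (.l 7)) (.b (.a (.c .z (.b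
(.l 10) .z)) (.c (.b (.l 10) .z) (.l 10))) (.a .z (.c .z (.b (.l 10) .z))))))))) (.a (.c (.b (.c (.a (.b (.c (.a .z (.b (.l 7) .z)) .z) (.c (.a (.b .z
(.l 8)) .z) (.a (.l 8) .z))) (.b (.c (.l 7) (.a (.b (.l 7) .z) (.l 7))) (.c (.a .z (.b (.l 7) .z)) .z))) (.a (.b (.c (.a (.c (.l 8) .z) .z) (.a (.c .z
(.l 9)) (.l 9))) (.c .z (.a (.c .z (.l 9)) (.l 9)))) (.b (.c .z (.a (.b .z (.l 9)) .z)) (.a (.c (.b .z (.l 9)) (.l 9)) (.c .z (.b .z (.l 9))))))) (.a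
(.c (.c (.l 8) (.a (.l 8) (.c (.a (.l 8) .z) .z))) (.c (.a (.c (.a (.l 8) .z) .z) (.c (.a .z (.l 9)) (.l 9))) (.a (.c (.a .z (.l 9)) (.l 9)) (.l 9))))
(.c (.b .z (.a (.c .z (.c .z (.l 9))) (.c .z (.l 9)))) (.l 9)))) (.b (.a (.c (.c (.l 9) (.c (.l 9) (.a .z (.l 9)))) (.c (.c .z (.l 11)) (.l 11))) (.c
(.b (.c (.a (.l 9) (.b .z (.l 9))) (.l 9)) (.l 9)) (.c (.c (.a .z (.l 9)) .z) (.l 11)))) (.c (.c (.l 9) (.a (.c (.l 9) (.a (.a .z (.l 9)) (.l 9))) (.l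
9))) (.c (.a (.c .z (.a (.l 11) (.a (.l 11) .z))) (.c (.a (.a .z (.l 9)) (.l 9)) .z)) (.a (.l 11) (.c (.a (.l 11) .z) (.l 11))))))) (.c (.b (.a (.c
(.b (.l 7) (.a (.c (.l 7) (.b (.l 7) .z)) (.l 7))) (.b (.a (.c (.l 7) .z) (.l 7)) (.a .z (.c (.b (.l 7) .z) .z)))) (.c (.l 7) (.b (.l 7) (.a (.c (.l
7) (.b (.l 7) .z)) (.l 7))))) (.a (.c (.b (.a (.c (.b (.l 7) .z) .z) (.c (.l 7) (.b (.l 7) .z))) (.a (.c .z (.b .z (.l 9))) .z)) (.b (.a (.c .z (.l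
9)) .z) (.a (.l 9) (.c (.b .z (.l 9)) (.l 9))))) (.c (.b (.l 7) (.a (.c (.l 7) .z) (.l 7))) (.b (.a (.c (.b (.l 7) .z) .z) (.c (.l 7) (.a .z (.l 7))))
(.a .z (.c (.a .z (.l 7)) .z)))))) (.b (.a (.c (.b (.a (.c .z (.b .z (.l 9))) .z) (.a (.c (.b .z (.l 9)) (.l 9)) (.c .z (.b .z (.l 9))))) (.b (.a (.c
(.c (.l 9) .z) (.c .z (.l 11))) (.c (.b .z (.l 9)) (.c .z (.l 11)))) (.c (.c (.l 9) (.a .z (.l 9))) (.c .z (.a (.l 11) .z))))) (.c (.b (.a (.c (.l 7)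
.z) (.l 7)) (.a .z (.c (.l 7) .z))) (.b (.a .z (.c (.b (.l 7) .z) .z)) (.a (.c (.b .z (.l 9)) .z) .z)))) (.a (.c (.l 9) (.c (.c (.l 9) (.a (.a .z (.l
9)) (.l 9))) (.c .z (.a (.a (.l 11) .z) .z)))) (.c (.a (.b (.c .z (.b .z (.l 9))) (.l 9)) (.b .z (.c .z (.a (.l 9) .z)))) (.a (.c (.l 9) (.c (.l 9)
.z)) (.b (.c (.a (.l 9) .z) (.c (.l 9) .z)) (.l 9))))))))) (.b (.a (.c (.b (.c (.a (.b (.c (.a (.l 11) (.b .z (.l 11))) (.l 11)) (.l 11)) (.b (.c .z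
(.a (.b .z (.l 11)) .z)) (.c (.a (.l 11) (.b .z (.l 11))) (.l 11)))) (.l 11)) (.l 11)) (.c (.l 11) (.c (.l 11) (.b (.l 11) (.c (.l 11) (.b (.l 11) (.a
(.b (.l 11) .z) .z))))))) (.c (.b (.a (.c (.b (.c (.a (.b (.l 10) .z) (.l 10)) (.a .z (.b (.l 10) .z))) (.a (.c .z (.b .z (.l 11))) .z)) (.b (.a (.c
.z (.l 11)) .z) (.a (.l 11) (.c (.b .z (.l 11)) (.l 11))))) (.c (.b (.l 10) (.a (.c (.l 10) .z) (.l 10))) (.b (.a (.c (.b (.l 10) .z) .z) (.c (.l 10)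
(.b (.l 10) .z))) (.a (.c .z (.b .z (.l 11))) .z)))) (.a (.c (.b (.a (.c (.b .z (.l 11)) (.l 11)) (.c .z (.b .z (.l 11)))) (.l 11)) (.l 11)) (.c (.b
(.a .z (.c (.l 10) .z)) (.a (.c .z (.b .z (.l 11))) .z)) (.b (.a (.c (.b .z (.l 11)) (.l 11)) (.c .z (.a (.l 11) .z))) (.a (.l 11) (.c (.a (.l 11) .z)
(.l 11))))))) (.b (.a (.l 11) (.c (.b (.a (.c .z (.l 11)) .z) (.a (.l 11) (.c .z (.l 11)))) (.b (.a (.l 11) (.c (.b .z (.l 11)) (.l 11))) (.c (.l 11)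
(.c (.l 11) (.b (.l 11) .z)))))) (.c (.l 11) (.c (.c (.l 11) (.b (.l 11) (.a (.l 11) (.b (.l 11) .z)))) (.c (.b (.a (.l 11) (.b (.l 11) .z)) .z)
.z)))))) (.a (.c (.l 11) (.c (.b (.l 11) (.c (.l 11) (.b (.l 11) (.c (.l 11) (.a (.b (.l 11) .z) .z))))) (.c (.b (.c (.l 11) (.b (.l 11) (.a (.b (.l
11) .z) .z))) (.c (.b (.a (.b (.l 11) .z) .z) .z) .z)) (.b (.c (.b (.a (.b (.l 11) .z) .z) .z) .z) .z)))) (.c (.a (.l 11) (.b (.c (.a (.l 11) (.b (.c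
.z (.a (.l 11) .z)) (.c (.c .z (.l 11)) (.l 11)))) (.l 11)) (.c (.c (.c .z (.a (.l 11) .z)) (.l 11)) (.l 11)))) (.c (.b (.c (.l 11) (.c (.l 11) (.b
(.l 11) (.a (.l 11) (.b (.l 11) .z))))) (.c (.b (.l 11) (.c (.l 11) (.a (.l 11) (.b (.l 11) .z)))) (.b (.c (.a (.l 11) (.b (.l 11) .z)) (.a (.b (.l
11) .z) .z)) (.c (.a (.b (.l 11) .z) .z) .z)))) (.c (.b (.c (.b (.a (.l 11) (.b (.l 11) .z)) (.a (.b (.l 11) .z) .z)) (.b (.a (.b (.l 11) .z) .z) .z))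
.z) .z)))))))

theorem vQ118 : ev3 Q118 J4_3 J4_8 J3_6 = 379908599168083281146170 := by decide +kernel

noncomputable def Q56 : QT3 :=
(.c (.b (.a (.c (.b (.c (.l 22) (.a (.c (.l 22) (.b (.a (.l 22) (.c (.l 22) .z)) (.l 22))) (.c (.a (.l 22) (.b (.c (.l 22) .z) (.l 22))) (.a (.b .z
(.c (.l 22) .z)) .z)))) (.c (.b (.b (.l 22) (.b .z (.l 20))) (.l 20)) (.a (.b (.b (.l 22) (.b .z (.l 20))) (.l 20)) (.b (.c (.b (.l 22) (.b .z (.l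
20))) (.a (.b (.l 22) .z) .z)) (.c (.a (.l 20) .z) .z))))) (.b (.a (.c (.c (.b (.a (.c (.l 22) .z) .z) (.a (.l 22) (.c (.l 22) .z))) (.b (.a .z (.c .z
(.l 26))) .z)) (.b (.c (.a (.c .z (.l 26)) .z) .z) .z)) (.c .z (.b (.a (.c .z (.b (.l 22) .z)) (.c (.b (.l 22) .z) .z)) .z))) (.a (.c (.b (.c (.b (.l
22) (.b .z (.l 20))) (.a (.b (.l 22) .z) .z)) (.c (.a (.l 20) .z) .z)) .z) (.c .z (.b (.a .z (.b .z (.b .z (.l 23)))) (.a (.c .z (.a .z (.l 23))) (.l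
23))))))) (.c (.b (.a (.c (.c (.l 22) (.a (.l 22) (.c (.a (.l 22) .z) .z))) .z) (.c (.b (.c (.a (.c (.l 22) .z) .z) .z) (.a (.c (.c (.l 22) .z) .z)
.z)) .z)) (.a (.c (.b (.c (.b (.l 22) (.b .z (.l 20))) (.a (.b (.l 22) .z) .z)) (.c (.a (.l 20) .z) .z)) (.b .z (.a .z (.c .z (.a .z (.l 23)))))) (.c
(.b .z (.a .z (.c .z (.a .z (.l 23))))) (.b (.a .z (.b .z (.b .z (.l 23)))) (.a (.c (.a .z (.l 23)) (.l 23)) (.l 23)))))) (.b .z (.a (.c (.b (.a .z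
(.b .z (.b .z (.l 23)))) (.a (.c .z (.l 23)) (.l 23))) (.b (.b .z (.b .z (.l 23))) (.l 23))) (.b (.b .z (.b .z (.l 23))) (.l 23)))))) (.a (.c (.b (.c
(.a (.b (.l 20) (.c (.l 20) (.a (.l 20) (.b (.l 20) .z)))) (.b (.c (.a (.l 20) (.b (.l 20) .z)) (.a (.b (.l 20) .z) .z)) (.c (.a (.b (.l 20) .z) .z)
.z))) (.a (.b (.c (.a (.l 20) (.b (.l 20) .z)) (.a (.b (.l 20) .z) .z)) .z) .z)) (.c (.a (.b (.c (.a (.b (.l 20) .z) .z) .z) (.c (.a .z (.b .z (.c .z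
(.l 6)))) (.a .z (.c (.c (.l 6) .z) .z)))) (.b (.c (.a .z (.b .z (.c (.l 6) .z))) .z) (.c (.a (.b (.c .z (.l 6)) (.l 6)) (.l 6)) .z))) (.a (.b .z (.c
(.c .z (.l 51)) .z)) .z))) (.b (.a .z (.c .z (.a .z (.c .z (.b (.l 23) (.a .z (.l 23))))))) .z)) (.c (.b (.a (.c (.b .z (.c (.a .z (.c (.c (.l 6) .z)
.z)) .z)) .z) (.c (.b (.a .z (.c .z (.a .z (.l 23)))) (.c .z (.a .z (.a .z (.l 23))))) (.a (.c (.a .z (.c .z (.l 23))) (.l 23)) (.l 23)))) (.c (.c (.a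
(.c (.a (.l 6) (.c (.l 6) (.a (.l 6) .z))) (.a (.c (.a (.l 6) .z) .z) .z)) (.c (.a (.c (.a (.l 6) .z) .z) .z) .z)) (.a .z (.a .z (.a .z (.l 23)))))
(.a .z (.a (.c .z (.a .z (.l 23))) (.l 23))))) (.c (.a (.a (.b (.c .z (.a .z (.b (.l 23) .z))) .z) (.b (.c (.a (.c .z (.l 23)) (.l 23)) (.l 23)) (.c
.z (.a (.b (.l 23) .z) (.l 23))))) (.l 23)) (.c (.a (.a (.b (.a (.b (.l 23) .z) (.l 23)) (.a .z (.b (.l 23) .z))) (.l 23)) (.l 23)) (.b (.l 23) (.c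
(.a (.a (.a .z (.l 23)) (.l 23)) (.l 23)) (.b (.l 23) (.c (.b (.l 23) .z) .z))))))))) (.b (.a (.c (.b (.a (.c .z (.b .z (.a (.c .z (.c .z (.c .z (.l
11)))) .z))) .z) (.a (.c (.b .z (.c (.a .z (.a .z (.l 23))) (.c (.a .z (.l 23)) .z))) (.c (.c (.b .z (.c .z (.b .z (.l 9)))) .z) (.c .z (.a (.c .z (.a
(.l 11) .z)) .z)))) (.c (.c (.b (.b .z (.b .z (.l 23))) (.l 23)) (.c (.b .z (.l 23)) .z)) (.c (.c (.b .z (.c (.b .z (.l 9)) .z)) .z) .z)))) (.b (.a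
(.c (.b (.a (.c (.b (.a .z (.l 11)) (.l 11)) (.l 11)) (.l 11)) (.c (.c (.a (.l 11) (.c .z (.l 11))) (.l 11)) (.l 11))) (.l 11)) (.c (.c (.c .z (.a (.l
11) (.c .z (.a (.l 11) .z)))) (.l 11)) (.l 11))) (.c (.c (.a (.c (.a (.l 11) (.c .z (.a (.l 11) .z))) (.l 11)) (.c .z (.a (.c .z (.l 11)) .z))) (.a
(.l 11) (.c (.a (.l 11) (.c (.a (.l 11) .z) (.l 11))) (.l 11)))) (.l 11)))) (.c (.c (.c (.b .z (.b (.b .z (.b .z (.l 23))) (.l 23))) (.b (.c (.b .z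
(.c (.l 52) .z)) .z) (.c (.b (.b (.l 52) (.b .z (.l 23))) (.c (.a (.l 23) .z) .z)) .z))) (.c (.b .z (.c .z (.b .z (.a .z (.l 32))))) (.b .z (.b (.b .z
(.b .z (.l 32))) (.a .z (.b (.l 32) .z)))))) (.c (.c .z (.a (.c (.a (.b (.c .z (.a (.l 11) .z)) .z) .z) (.a (.b (.l 11) (.c (.a (.l 11) .z) (.l 11)))
(.b (.c (.b (.l 11) .z) (.l 11)) .z))) .z)) (.a (.c (.b (.l 11) (.a (.l 11) (.c (.b (.l 11) (.a (.l 11) .z)) (.l 11)))) (.l 11)) (.c (.b (.a (.c (.b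
(.l 11) (.c .z (.l 11))) (.l 11)) (.c .z (.b (.l 11) (.a (.l 11) .z)))) (.a (.c .z (.b (.a (.l 11) .z) .z)) .z)) (.b (.l 11) (.a (.l 11) (.c (.b (.a
(.l 11) .z) .z) (.b (.l 11) (.a (.l 11) .z)))))))))) (.c (.c (.c (.b (.c (.b (.a (.a .z (.a .z (.l 23))) (.l 23)) (.a (.a .z (.a .z (.l 23))) (.c (.l
23) (.b (.l 23) .z)))) (.b (.a (.a .z (.l 23)) (.c (.l 23) (.b (.l 23) .z))) .z)) (.c (.b (.a .z (.c (.b (.l 23) .z) .z)) (.c (.b .z (.a .z (.b .z (.l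
9)))) (.b (.a .z (.b .z (.l 9))) (.l 9)))) (.b (.c (.a .z (.b .z (.a .z (.l 9)))) (.b (.a .z (.l 9)) (.l 9))) (.l 9)))) (.a (.b (.c (.b .z (.c .z (.b
.z (.l 9)))) (.b (.c .z (.b (.a .z (.l 9)) (.l 9))) (.l 9))) (.l 9)) (.b (.c (.b (.c .z (.b .z (.a .z (.l 9)))) (.c (.b .z (.l 9)) (.l 9))) (.a (.b
(.c (.b .z (.l 9)) (.l 9)) (.l 9)) (.b (.c (.l 9) (.a (.l 9) .z)) (.l 9)))) (.l 9)))) (.a (.c (.b (.c (.l 9) (.b (.a (.c (.l 9) .z) .z) (.a (.l 9) (.c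
(.l 9) (.b .z (.l 9)))))) (.l 9)) (.a (.c (.b (.b .z (.c (.b .z (.l 9)) .z)) (.l 9)) (.a (.c (.a .z (.b .z (.l 9))) .z) (.c (.b .z (.b .z (.l 9)))
.z))) (.b .z (.c (.b (.c (.l 9) .z) (.l 9)) (.b .z (.a (.c (.l 9) .z) .z)))))) (.c (.b (.c (.a (.b (.c (.l 9) .z) (.l 9)) (.b .z (.c (.a (.l 9) .z)
.z))) .z) (.a (.c (.l 9) (.b (.c (.l 9) (.a (.l 9) .z)) (.l 9))) (.c (.b (.a (.l 9) (.c (.l 9) .z)) (.l 9)) (.b .z (.a (.c (.l 9) .z) .z))))) (.b .z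
(.a (.c (.b .z (.a (.c (.l 9) .z) .z)) .z) .z))))) (.a (.c (.a (.c (.c (.a (.c (.a (.b (.l 11) .z) .z) (.a (.l 11) (.b (.l 11) .z))) .z) (.a (.l 11)
(.b (.c (.a (.l 11) .z) (.l 11)) (.a (.c .z (.l 11)) .z)))) (.l 11)) (.c .z (.a (.c (.b (.a (.l 11) (.c .z (.l 11))) (.a (.c .z (.l 11)) .z)) (.l 11))
(.c .z (.b (.a (.l 11) (.c .z (.l 11))) .z))))) (.a (.l 11) (.c (.a (.l 11) (.c (.b (.l 11) (.a (.l 11) (.c .z (.l 11)))) (.l 11))) (.l 11)))) (.c .z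
(.a (.c (.a (.b (.c (.a (.l 11) (.b (.l 11) .z)) (.l 11)) (.c .z (.a (.l 11) (.b (.l 11) .z)))) (.b (.c .z (.a (.b (.l 11) .z) .z)) .z)) (.a (.l 11)
(.b (.l 11) (.c (.a (.b (.l 11) .z) .z) (.a (.l 11) (.b (.l 11) .z)))))) (.c .z (.b (.a (.c (.b (.a (.l 11) .z) .z) (.b (.l 11) (.a (.l 11) .z))) .z)
(.a .z (.c (.b .z (.l 15)) .z))))))))))

theorem vQ56 : ev3 Q56 J4_3 J4_5 J3_6 = 192643479953211657849505 := by decide +kernel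

noncomputable def Q73 : QT3 :=
(.b .z (.c (.c (.b (.a (.b .z (.b (.b .z (.b .z (.l 59))) (.l 59))) (.c (.b .z (.a (.b .z (.l 59)) (.c (.b .z (.l 59)) .z))) (.b .z (.a .z (.c .z (.b
.z (.a .z (.l 26)))))))) (.a (.c (.b (.l 59) (.a (.l 59) (.c (.b (.l 59) .z) .z))) (.b (.a (.l 59) (.c (.b (.l 59) .z) .z)) (.a (.c (.b (.l 59) .z)
.z) (.c (.b .z (.a .z (.c .z (.l 26)))) (.b (.a .z (.c .z (.l 26))) (.a (.c .z (.l 26)) (.l 26))))))) (.c (.b (.a (.c (.b (.l 59) .z) .z) (.c .z (.b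
.z (.a .z (.c .z (.l 26)))))) (.a (.c .z (.b .z (.a .z (.l 26)))) (.c (.b (.a .z (.c .z (.l 26))) (.a (.c .z (.l 26)) (.l 26))) (.l 26)))) (.b (.a (.c
.z (.b .z (.a (.c .z (.l 26)) (.l 26)))) (.c (.b (.a .z (.l 26)) (.l 26)) (.l 26))) (.a (.c (.b (.a .z (.l 26)) (.l 26)) (.l 26)) (.l 26)))))) (.b (.a
(.c (.b .z (.a (.c (.b .z (.l 59)) .z) .z)) (.b .z (.a (.c .z (.b .z (.a .z (.c .z (.l 26))))) (.c (.b .z (.a .z (.l 26))) (.b .z (.l 26)))))) (.c (.b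
.z (.a (.c (.b .z (.a .z (.c .z (.l 26)))) (.b .z (.a (.c .z (.l 26)) (.l 26)))) (.c (.b .z (.l 26)) (.b (.b .z (.b .z (.l 26))) (.l 26))))) (.b .z
(.a (.c (.b .z (.l 26)) (.b (.b .z (.b .z (.l 26))) (.l 26))) (.b (.b .z (.b .z (.l 26))) (.l 26)))))) (.a (.c (.b (.a .z (.c (.b .z (.a .z (.c .z (.l
26)))) (.b (.a .z (.c .z (.l 26))) (.l 26)))) (.a (.c (.b .z (.a .z (.l 26))) (.b (.a .z (.l 26)) (.l 26))) (.c (.b (.a (.c .z (.l 26)) (.l 26)) (.l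
26)) (.l 26)))) (.b (.a (.c (.b .z (.a (.c .z (.l 26)) (.l 26))) (.b (.a (.c .z (.l 26)) (.l 26)) (.l 26))) (.l 26)) (.l 26))) (.c (.b (.a (.c (.b (.a
(.c .z (.l 26)) (.l 26)) (.l 26)) (.l 26)) (.l 26)) (.l 26)) (.l 26))))) (.c (.b (.a (.c (.b .z (.a (.c (.b .z (.a (.c .z (.l 26)) (.l 26))) (.b .z
(.l 26))) (.b (.b .z (.b .z (.l 26))) (.l 26)))) (.b .z (.b (.b .z (.b .z (.c (.l 26) (.c (.l 26) .z)))) (.c (.l 26) (.c (.a (.l 26) (.c (.l 26) .z))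
.z))))) (.b .z (.b (.b .z (.b .z (.c (.l 26) (.c (.c (.l 26) .z) .z)))) (.c (.l 26) (.c (.c (.l 26) (.a (.l 26) .z)) (.c (.a .z (.c .z (.l 18))) (.a
(.c .z (.l 18)) (.l 18)))))))) (.c (.c (.l 26) (.a (.l 26) (.c (.l 26) (.a (.l 26) (.b (.l 26) (.a (.l 26) .z)))))) (.a (.c (.c (.l 26) (.a (.l 26)
(.b (.l 26) (.c (.l 26) (.a (.l 26) .z))))) (.a (.c (.c (.l 26) (.b (.l 26) .z)) .z) (.c (.b (.c (.a (.l 26) .z) .z) .z) .z))) (.c (.a (.c (.b (.l 26)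
(.c (.l 26) (.a (.l 26) .z))) (.b (.c (.a (.l 26) .z) .z) .z)) (.c (.a (.b (.c (.l 26) .z) .z) .z) .z)) (.a (.c .z (.a (.c .z (.a .z (.l 18))) (.l
18))) (.c (.a (.c .z (.l 18)) (.l 18)) (.l 18))))))) (.a (.c (.b (.b (.a (.b .z (.a (.l 100) .z)) .z) (.b (.b (.a (.l 100) .z) (.b .z (.c (.c .z (.l
18)) (.l 18)))) (.c (.c (.a .z (.c .z (.l 18))) (.l 18)) (.l 18)))) (.c (.a (.c .z (.b (.c .z (.a .z (.l 18))) .z)) (.c (.a .z (.c .z (.b (.l 18)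
.z))) (.b (.l 18) (.a (.c .z (.l 18)) (.l 18))))) (.a (.b (.a (.c (.l 18) (.b (.l 18) .z)) (.l 18)) (.c (.a .z (.l 18)) (.a .z (.a .z (.l 18))))) (.l
18)))) (.b (.c (.a (.c (.b .z (.b .z (.a .z (.l 18)))) .z) (.b .z (.b (.b .z (.b .z (.l 18))) (.l 18)))) (.a (.b .z (.c .z (.a (.b .z (.l 14)) .z)))
(.b .z (.c (.a .z (.b .z (.l 18))) .z)))) (.a (.c (.a .z (.c (.b (.a .z (.l 18)) .z) .z)) .z) (.c (.a (.c (.l 18) (.a (.b (.l 18) .z) (.l 18))) (.l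
18)) (.b (.a .z (.c (.l 18) (.a .z (.l 18)))) (.a .z (.c (.l 18) (.a .z (.l 18))))))))) (.c (.b (.b .z (.b (.b .z (.b .z (.l 18))) (.l 18))) (.l 18))
(.b (.a (.c (.b .z (.b (.b .z (.b .z (.l 18))) (.l 18))) (.b .z (.b (.b .z (.b .z (.l 18))) (.l 18)))) (.b .z (.b (.b .z (.b .z (.l 18))) (.l 18))))
(.l 18)))))))

theorem vQ73 : ev3 Q73 J4_4 J3_2 J3_4 = 231026566657042412917353 := by decide +kernel

noncomputable def Q38 : QT3 :=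
(.c (.b (.a (.c (.b (.a (.b (.c (.b (.c .z (.a (.l 20) .z)) (.c (.a (.l 20) .z) (.l 20))) (.l 20)) (.l 20)) (.b (.c .z (.a (.b (.c .z (.l 20)) (.l
20)) .z)) (.c (.a (.b (.c .z (.l 20)) (.l 20)) .z) (.a (.l 20) (.a (.l 20) (.c .z (.l 20))))))) (.a (.l 20) (.b (.c (.a (.l 20) (.a (.l 20) (.c .z (.l
20)))) (.l 20)) (.l 20)))) (.c (.b (.a (.l 20) (.b (.a (.l 20) (.a (.l 20) (.c .z (.l 20)))) (.l 20))) (.l 20)) (.a (.l 20) (.a (.l 20) (.c (.l 20)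
(.a (.l 20) (.c (.b (.l 20) .z) .z))))))) (.a (.c (.c (.b (.a (.b (.c .z (.l 46)) .z) .z) (.a (.b .z (.a (.l 20) .z)) .z)) (.a (.b .z (.b (.a (.l 20)
.z) (.l 20))) .z)) (.c (.a (.c (.b (.b .z (.a (.l 20) .z)) (.l 20)) (.a (.b (.b .z (.l 20)) (.l 20)) (.b .z (.c (.l 20) .z)))) .z) (.a (.c (.a (.c (.l
20) (.b (.l 20) .z)) .z) .z) (.c .z (.l 39))))) (.c .z (.a (.c .z (.b (.c .z (.b .z (.l 39))) (.b (.l 39) (.b (.l 39) .z)))) (.b (.c (.b .z (.c (.l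
38) .z)) (.c .z (.b .z (.l 39)))) (.b (.c .z (.l 39)) (.c .z (.b (.l 39) .z)))))))) (.a (.c (.l 20) (.c (.l 20) (.a (.l 20) (.a (.l 20) (.c (.a (.l
20) (.c (.l 20) (.b (.l 20) .z))) (.a (.c (.l 20) .z) .z)))))) (.a (.c (.a (.l 20) (.c (.a (.b (.b .z (.l 20)) (.l 20)) (.b .z (.c (.l 20) (.a (.l 20)
.z)))) (.a (.c (.l 20) (.b (.l 20) .z)) .z))) (.a (.c (.c (.a (.l 20) (.b (.l 20) (.a (.l 20) .z))) (.a (.b (.l 20) (.c (.l 20) .z)) .z)) .z) .z))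
.z))) (.c (.a (.c (.a (.c (.l 20) (.c (.l 20) (.a (.l 20) (.a (.l 20) (.b (.a (.l 20) .z) .z))))) (.a (.c (.a (.l 20) (.c (.b (.l 20) (.a (.l 20) .z))
(.b (.a (.l 20) .z) .z))) (.a (.c (.b (.a (.l 20) .z) .z) .z) .z)) (.c (.a (.b (.c (.a (.l 20) .z) .z) .z) .z) (.a (.c .z (.b (.l 39) .z)) (.b (.l 39)
.z))))) (.c (.a (.c (.a (.a (.l 20) (.b (.a (.l 20) .z) (.a (.l 20) .z))) .z) .z) (.a (.c (.a .z (.b (.l 39) .z)) (.a .z (.b (.l 39) .z))) (.b (.l 39)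
(.b (.b (.l 39) .z) (.b .z (.b .z (.l 16))))))) (.a (.c (.a (.l 12) (.a (.l 12) (.b (.a (.l 12) .z) .z))) (.l 12)) (.a (.c .z (.a (.l 12) (.b (.a (.l
12) (.b (.l 12) .z)) .z))) (.c (.a .z (.b (.l 39) .z)) .z))))) (.a (.c (.a (.c (.a (.b (.c .z (.l 39)) .z) (.b (.l 39) .z)) (.b (.l 39) .z)) (.b (.l
39) (.b (.b (.b (.l 39) .z) .z) .z))) (.a (.c (.b (.l 39) (.b (.b (.l 39) .z) .z)) (.c (.b (.l 39) .z) (.a .z (.b (.l 39) .z)))) (.b (.l 39) (.b (.b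
(.l 39) .z) .z)))) (.b (.b (.a (.l 39) (.b (.c (.l 39) (.a (.l 39) .z)) (.l 39))) (.l 39)) (.b (.b (.c .z (.b (.l 39) .z)) .z) .z)))) (.a (.c (.c (.a
(.l 12) (.a (.l 12) (.c (.b (.a (.l 12) (.b (.a (.l 12) .z) .z)) (.a (.b (.a (.l 12) .z) .z) .z)) (.b (.l 12) (.a (.l 12) (.b (.a (.l 12) .z) .z))))))
(.l 12)) (.l 12)) (.a (.c (.a (.c (.b (.c .z (.a (.b (.a (.l 12) .z) .z) .z)) .z) (.b (.c (.a (.l 12) (.b (.a (.l 12) .z) .z)) (.l 12)) (.a (.c (.b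
(.a (.l 12) .z) .z) (.l 12)) (.c .z (.b (.a (.l 12) .z) .z))))) (.c (.b (.a (.c (.l 39) .z) (.l 39)) (.b (.b (.l 39) .z) .z)) (.b (.a (.c .z (.b (.a
(.l 12) .z) .z)) .z) .z))) (.a (.c (.b (.l 12) (.a (.l 12) (.c (.b (.l 12) (.a (.l 12) .z)) (.l 12)))) (.l 12)) (.b (.c (.a (.l 12) (.c (.b (.a (.l
12) .z) .z) (.b (.l 12) (.a (.l 12) .z)))) (.l 12)) (.c (.a (.c .z (.b (.l 12) (.a (.l 12) .z))) .z) (.a (.l 12) (.b (.c (.a (.l 12) .z) (.l 12)) (.c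
.z (.a (.l 12) .z)))))))) (.c (.a (.c (.b (.l 39) (.b (.b (.l 39) .z) .z)) (.b (.a (.c (.l 39) .z) (.l 39)) (.b (.b (.l 39) .z) .z))) (.b (.b (.b .z
(.a (.l 39) .z)) (.l 39)) (.b (.b (.l 39) .z) .z))) (.a (.b (.c (.a (.b (.c .z (.a (.l 12) .z)) .z) .z) (.a (.b (.l 12) (.c (.a (.l 12) .z) (.l 12)))
(.b (.c .z (.l 12)) .z))) .z) (.b (.c (.a (.b .z (.l 39)) (.b .z (.l 39))) .z) (.b (.b (.l 39) (.b (.l 39) .z)) .z))))))))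

theorem vQ38 : ev3 Q38 J3_0 J4_6 J4_10 = 291469708354372139486455 := by decide +kernel

noncomputable def Q192 : QT3 :=
(.a (.b (.c (.a (.b (.c .z (.b .z (.c .z (.b .z (.c .z (.a .z (.a .z (.l 39)))))))) .z) (.b (.c .z (.b (.c .z (.b (.c (.a .z (.c .z (.l 28))) .z) (.c
(.a .z (.l 28)) .z))) (.c .z (.b (.c .z (.b (.c .z (.a .z (.l 21))) .z)) (.c .z (.b (.a (.l 39) .z) (.a (.l 39) .z))))))) (.c .z (.a (.b (.c .z (.c .z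
(.b (.c .z (.l 39)) .z))) .z) .z)))) (.a (.b (.c (.b (.c (.b (.c .z (.b (.c .z (.a .z (.l 21))) (.a (.a .z (.l 21)) (.l 21)))) (.c (.b (.c .z (.a .z
(.l 21))) .z) (.a .z (.b (.l 21) .z)))) (.c (.a (.a (.b (.c .z (.l 21)) .z) (.b (.l 21) .z)) (.b (.l 21) (.b (.b (.l 21) .z) .z))) (.b (.l 21) .z)))
(.c (.a .z (.a (.c .z (.b (.l 39) .z)) (.b (.b .z (.l 39)) (.l 39)))) (.b (.c (.c (.a .z (.l 39)) .z) .z) .z))) (.b (.c (.b (.c (.c .z (.a .z (.b .z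
(.c .z (.l 13))))) (.b (.c (.a .z (.c .z (.l 13))) (.b (.l 13) (.c (.l 13) .z))) (.c (.b (.a .z (.l 13)) (.c (.l 13) .z)) .z))) (.c (.b (.c .z (.b (.a
.z (.l 13)) .z)) .z) .z)) (.b (.c (.b .z (.c .z (.a (.l 14) .z))) (.a (.l 14) (.a (.c (.l 14) .z) .z))) (.a (.c (.c (.a .z (.l 14)) (.l 14)) (.a (.l
14) (.c (.l 14) .z))) (.c (.a (.c .z (.l 14)) .z) .z)))) (.c (.b (.c (.b (.c .z (.b .z (.l 24))) (.c .z (.a .z (.l 24)))) .z) (.a .z (.c (.a (.c (.l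
24) .z) .z) .z))) (.a (.c (.b (.a (.c .z (.l 14)) (.c (.l 14) .z)) .z) (.b (.a (.c (.l 14) .z) .z) .z)) .z)))) (.c (.b (.c (.b (.c (.a .z (.a .z (.l
39))) .z) .z) .z) .z) .z)) (.b (.a (.c (.b (.c (.b (.c .z (.b .z (.l 21))) (.c (.b (.c .z (.l 21)) (.l 21)) (.b (.l 21) (.b (.l 21) .z)))) (.c (.b (.l
21) (.b (.l 21) .z)) (.b (.c (.l 21) (.b (.l 21) .z)) .z))) (.c (.c (.b .z (.l 39)) (.b (.b .z (.l 39)) (.c (.l 39) .z))) (.b (.c .z (.b (.c .z (.l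
13)) (.c (.c .z (.l 13)) .z))) (.c (.b (.c .z (.c .z (.l 13))) .z) .z)))) (.b (.c (.b (.c (.c .z (.b (.c .z (.l 13)) (.l 13))) (.b (.l 13) (.c (.l 13)
.z))) (.c (.b (.c (.c .z (.l 13)) (.l 13)) (.c (.l 13) .z)) .z)) .z) (.c (.b .z (.c .z (.a .z (.c .z (.l 26))))) (.c (.b (.a .z (.l 26)) (.c (.a .z
(.l 26)) .z)) .z)))) (.c (.b (.c (.b (.c .z (.b .z (.c .z (.l 21)))) (.c (.b .z (.c .z (.l 21))) (.l 21))) (.c (.b (.l 21) (.c (.l 21) .z)) (.b (.c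
(.b (.l 21) .z) .z) (.c .z (.b (.c .z (.l 13)) (.l 13)))))) (.c (.c (.b (.b (.b (.l 21) .z) .z) (.b .z (.l 39))) .z) (.c (.b (.c .z (.b .z (.c .z (.l
13)))) (.c (.b .z (.l 13)) (.b (.l 13) (.b (.l 13) .z)))) (.b (.c (.b (.c .z (.l 13)) (.l 13)) (.b (.l 13) (.b (.l 13) .z))) (.b (.c (.b (.l 13) .z)
.z) .z))))) (.b (.c (.b (.c (.c (.b .z (.c .z (.l 13))) (.l 13)) (.b (.l 13) (.c (.l 13) (.b (.l 13) .z)))) (.c (.b (.l 13) (.c (.l 13) (.b (.l 13)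
.z))) (.b (.c (.b (.l 13) .z) .z) .z))) (.b (.c (.b (.c (.b (.l 13) .z) .z) .z) .z) (.c (.b .z (.a (.l 26) .z)) .z))) (.a (.c (.b (.c .z (.c .z (.l
26))) (.c .z (.l 26))) (.c (.b (.l 26) (.c (.l 26) .z)) .z)) (.c (.b (.c .z (.b .z (.l 26))) (.c .z (.b (.l 26) .z))) .z))))) (.a (.c (.b (.c (.c (.b
(.c (.l 39) .z) .z) .z) .z) .z) (.b (.c (.c .z (.b (.a (.a .z (.l 26)) (.b (.l 26) .z)) .z)) .z) .z)) (.c (.b (.c (.c .z (.b (.c .z (.b (.c .z (.l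
13)) (.c (.l 13) .z))) .z)) (.b (.c (.b (.c (.c (.l 13) .z) .z) .z) .z) .z)) .z) .z))))) .z) (.b (.c (.a (.b (.c .z (.a (.b (.c (.c .z (.c .z (.c .z
(.l 28)))) (.b (.a (.l 28) (.c (.l 28) .z)) (.c (.l 28) .z))) (.c (.b (.c .z (.c .z (.l 28))) .z) (.b (.c .z (.b .z (.c .z (.l 21)))) .z))) (.b .z (.c
.z (.a (.b .z (.c .z (.b (.l 21) .z))) .z))))) .z) .z) (.a (.b (.a (.c (.b (.c (.b (.c .z (.b .z (.c .z (.l 21)))) (.c (.b .z (.c .z (.l 21))) (.l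
21))) (.c (.b (.c (.l 21) (.b (.l 21) .z)) (.c (.b (.l 21) .z) .z)) (.b (.c .z (.b .z (.c .z (.l 13)))) (.c (.b .z (.l 13)) (.l 13))))) (.c (.c (.b
(.b (.l 21) (.b (.l 21) .z)) .z) (.b (.c (.b (.l 21) .z) .z) .z)) (.a (.c (.b (.c .z (.b .z (.l 13))) (.c (.c .z (.l 13)) (.l 13))) (.b (.l 13) (.c
(.b (.l 13) .z) .z))) (.b (.c (.c .z (.l 13)) (.l 13)) (.a (.c (.l 13) .z) (.c (.l 13) .z)))))) (.b (.a (.c (.c (.l 13) (.b (.l 13) (.b (.c (.l 13)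
.z) .z))) (.b (.c (.b (.c (.l 13) .z) .z) .z) .z)) (.c (.c (.l 13) (.b (.l 13) (.b (.c (.l 13) .z) .z))) .z)) (.a (.c (.b (.c (.b (.c (.l 13) .z) .z)
.z) .z) .z) .z))) (.c (.b (.c (.a (.b .z (.c .z (.c (.l 21) .z))) .z) (.a (.b (.c .z (.c .z (.l 13))) (.a (.c .z (.l 13)) (.c .z (.b (.l 13) .z))))
(.b (.a (.c .z (.c .z (.l 13))) .z) .z))) (.c (.a (.b (.c (.l 21) .z) .z) (.b (.c (.a (.l 21) .z) .z) .z)) (.a (.b (.a (.c (.c .z (.l 13)) (.b (.l 13)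
.z)) .z) .z) .z))) (.b (.a (.c (.b (.a (.l 13) (.c (.l 13) (.b (.l 13) .z))) (.a (.c (.l 13) .z) .z)) .z) (.c (.b (.a (.c (.b (.l 13) .z) .z) .z) .z)
.z)) (.a .z (.c .z (.c (.c (.b .z (.l 26)) .z) .z)))))) (.a (.c (.b (.c (.a (.c .z (.b (.c .z (.b .z (.l 13))) (.c (.b (.l 13) .z) .z))) (.b (.c .z
(.c .z (.b .z (.l 13)))) .z)) (.a (.b (.c (.c (.b (.l 13) .z) .z) .z) .z) .z)) .z) .z) (.c .z (.b (.c .z (.c (.c (.c .z (.b (.l 26) .z)) .z) .z))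
.z)))) (.b (.a (.c .z (.b .z (.c .z (.c (.c (.b (.a .z (.l 26)) (.l 26)) .z) .z)))) (.c (.b .z (.c (.b .z (.c .z (.b (.l 40) .z))) .z)) (.b (.c .z (.b
.z (.c (.c (.a .z (.l 26)) .z) .z))) (.c (.c .z (.c .z (.c (.a .z (.l 26)) (.l 26)))) (.c (.c (.l 26) (.c (.l 26) .z)) .z))))) (.c .z (.b (.c (.c .z
(.a (.b (.c .z (.c .z (.l 26))) .z) (.c (.b (.a .z (.l 26)) .z) (.b (.l 26) .z)))) (.c (.c (.b (.l 26) (.b (.b (.l 26) .z) .z)) (.a (.c (.b (.l 26)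
.z) .z) (.b (.l 26) .z))) .z)) .z))))) .z))

theorem vQ192 : ev3 Q192 J3_3 J3_6 J3_6 = 62223329290660262455400 := by decide +kernel

noncomputable def Q152 : QT3 :=
(.c (.b (.c (.c (.a (.a (.b (.a (.b (.c .z (.l 19)) .z) (.c (.b (.l 19) (.a .z (.l 19))) (.l 19))) (.a .z (.b (.c .z (.a .z (.l 19))) .z))) (.b (.l
19) (.a (.c (.a (.b (.l 19) .z) (.l 19)) (.l 19)) (.l 19)))) (.l 19)) (.b (.a (.a (.a (.b (.l 19) (.c (.a .z (.l 19)) (.l 19))) (.l 19)) (.l 19)) (.l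
19)) (.c (.a (.a (.a .z (.b (.l 19) (.a .z (.l 19)))) (.l 19)) (.l 19)) (.b (.c (.a (.a (.a .z (.l 19)) (.l 19)) (.l 19)) (.b (.l 19) (.c (.a .z (.l
19)) .z))) (.c (.a .z (.b (.l 19) (.c (.l 19) .z))) .z))))) (.c (.b (.c (.b (.c (.l 19) (.b (.l 19) (.c (.l 19) .z))) (.c (.b (.l 19) (.c (.l 19) .z))
.z)) (.b (.c .z (.l 11)) (.c (.c (.l 38) .z) (.l 11)))) (.c (.b (.c .z (.a (.l 38) (.c .z (.l 38)))) (.c (.a (.l 38) .z) (.l 38))) (.c (.c (.l 38) .z)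
(.l 11)))) (.l 11))) (.a (.c (.c (.b (.c (.a .z (.a .z (.l 19))) (.b (.a .z (.a (.a .z (.l 19)) (.l 19))) (.c (.a .z (.a .z (.l 19))) .z))) (.c (.b
(.a .z (.a .z (.a .z (.l 19)))) .z) .z)) (.b (.c (.b (.c (.b (.a .z (.l 19)) .z) .z) .z) (.b (.c .z (.l 38)) (.l 38))) (.c .z (.b (.a (.l 38) .z)
.z)))) (.c (.c (.b (.l 38) (.b (.a (.l 38) (.b (.l 38) .z)) (.a (.b (.l 38) .z) .z))) (.c (.c (.b (.l 38) (.b (.l 38) .z)) .z) (.l 11))) (.l 11))) (.c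
(.c (.b (.l 19) (.c (.b (.a (.l 19) (.a (.b (.l 19) .z) .z)) .z) (.b (.c (.a (.l 19) .z) .z) .z))) (.b (.c (.b (.c (.l 19) (.b (.l 19) (.c (.l 19)
.z))) (.c (.b (.l 19) .z) .z)) .z) .z)) (.b (.a (.c (.c (.b (.l 38) (.b (.l 38) .z)) (.c (.c (.l 38) .z) (.l 11))) (.l 11)) (.c (.c (.b (.a (.l 38)
.z) .z) (.c .z (.l 11))) (.b (.l 11) (.a (.l 11) (.c (.l 11) (.b (.l 11) (.a (.l 11) .z))))))) (.a (.c (.c .z (.c .z (.l 11))) (.b (.l 11) (.a (.l 11)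
(.c (.l 11) (.b (.l 11) (.a (.l 11) .z)))))) (.c (.b (.c .z (.c .z (.l 11))) (.a (.c .z (.c .z (.l 11))) .z)) (.b (.a (.c (.l 11) (.b (.l 11) (.a (.l
11) .z))) (.c (.b (.l 11) (.a (.l 11) .z)) .z)) (.a (.c (.b (.l 11) (.a (.l 11) .z)) .z) .z)))))))) (.b (.a (.c (.l 11) (.b (.l 11) (.a (.l 11) (.c
(.l 11) (.b (.l 11) (.a (.l 11) (.c (.l 11) (.b (.a (.l 11) .z) .z)))))))) (.c (.b (.l 11) (.a (.l 11) (.c (.l 11) (.b (.a (.l 11) (.c (.l 11) (.b (.a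
(.l 11) .z) .z))) (.a (.c (.l 11) (.b (.a (.l 11) .z) .z)) (.c (.b (.a (.l 11) .z) .z) .z)))))) (.b (.a (.c (.l 11) (.b (.l 11) (.a (.l 11) (.c (.l
11) (.b (.a (.l 11) .z) .z))))) (.c (.b (.a (.l 11) (.c (.l 11) (.b (.l 11) (.a (.l 11) .z)))) (.a (.c (.l 11) (.b (.l 11) (.a (.l 11) .z))) (.c (.b
(.l 11) (.a (.l 11) .z)) .z))) (.b (.a (.c (.l 11) (.b (.a (.l 11) .z) .z)) (.c (.b (.a (.l 11) .z) .z) .z)) (.a (.c (.b (.a (.l 11) .z) .z) .z)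
.z)))) (.a (.c (.b (.a (.l 11) (.c (.l 11) (.b (.l 11) (.a (.l 11) .z)))) (.a (.c (.l 11) (.b (.l 11) (.a (.l 11) .z))) (.c (.b (.l 11) (.a (.l 11)
.z)) .z))) (.b (.a (.c (.l 11) (.b (.a (.l 11) .z) .z)) (.c (.b (.a (.l 11) .z) .z) .z)) (.a (.c (.b (.a (.l 11) .z) .z) .z) .z))) (.c (.b (.a (.c (.b
(.l 11) (.a (.l 11) .z)) .z) .z) .z) .z))))) (.a (.c (.b (.l 11) (.a (.l 11) (.c (.b (.l 11) (.a (.l 11) (.c (.l 11) (.b (.l 11) (.a (.l 11) .z)))))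
(.b (.a (.l 11) (.c (.l 11) (.b (.a (.l 11) .z) .z))) (.a (.c (.l 11) (.b (.a (.l 11) .z) .z)) (.c (.b (.a (.l 11) .z) .z) .z)))))) (.b (.a (.c (.l
11) (.b (.l 11) (.a (.l 11) (.c (.l 11) (.b (.a (.l 11) .z) .z))))) (.c (.b (.a (.l 11) (.c (.l 11) (.b (.l 11) (.a (.l 11) .z)))) (.a (.c (.l 11) (.b
(.l 11) (.a (.l 11) .z))) (.c (.b (.l 11) (.a (.l 11) .z)) .z))) (.b (.a (.c (.l 11) (.b (.a (.l 11) .z) .z)) (.c (.b (.a (.l 11) .z) .z) .z)) (.a (.c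
(.b (.a (.l 11) .z) .z) .z) .z)))) (.a (.c (.b (.a (.l 11) (.c (.l 11) (.b (.l 11) (.a (.l 11) .z)))) (.a (.c (.l 11) (.b (.l 11) (.a (.l 11) .z)))
(.c (.b (.l 11) (.a (.l 11) .z)) .z))) (.b (.a (.c (.b (.l 11) (.a (.l 11) .z)) (.b (.a (.l 11) .z) .z)) (.c (.b (.a (.l 11) .z) .z) .z)) .z)) (.c (.b
(.a (.c (.b (.l 11) (.a (.l 11) .z)) .z) .z) .z) .z)))) (.c (.b (.a (.c (.l 11) (.b (.a (.l 11) (.c (.l 11) (.b (.a (.l 11) .z) .z))) (.a (.c (.l 11)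
(.b (.a (.l 11) .z) .z)) (.c (.b (.a (.l 11) .z) .z) .z)))) (.c (.b (.a (.l 11) (.c (.b (.l 11) (.a (.l 11) .z)) (.b (.a (.l 11) .z) .z))) (.a (.c (.b
(.l 11) (.a (.l 11) .z)) (.b (.a (.l 11) .z) .z)) .z)) (.b (.a (.c (.b (.a (.l 11) .z) .z) .z) .z) .z))) (.a (.c (.b (.a (.l 11) (.c (.b (.l 11) (.a
(.l 11) .z)) (.b (.a (.l 11) .z) .z))) (.a (.c (.b (.l 11) (.a (.l 11) .z)) .z) .z)) (.b (.a (.c (.b (.a (.l 11) .z) .z) .z) .z) .z)) .z)) (.b (.a (.c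
(.b (.a (.c (.b (.l 11) (.a (.l 11) .z)) .z) .z) .z) .z) (.c (.b (.a (.c .z (.a (.l 20) .z)) .z) .z) .z)) (.a .z (.c (.b .z (.a .z (.c .z (.l 27))))
.z)))))))

theorem vQ152 : ev3 Q152 J4_6 J4_8 J3_5 = 322574892940721498319700 := by decide +kernel

noncomputable def Q13 : QT3 :=
(.c (.c (.b (.a (.a (.b (.c .z (.c (.b .z (.c .z (.b .z (.l 34)))) (.b (.c (.b .z (.l 34)) (.b .z (.l 34))) (.l 34)))) (.b (.c .z (.b (.c .z (.b (.l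
34) .z)) .z)) .z)) (.b (.a (.c .z (.c .z (.b .z (.l 34)))) (.c .z (.c .z (.b .z (.l 34))))) .z)) .z) (.a (.a (.b (.b (.c .z (.a (.c .z (.c .z (.l
40))) .z)) (.c .z (.c (.a (.c .z (.l 40)) .z) (.a (.l 40) (.c .z (.l 40)))))) (.c .z (.a (.c (.b (.l 40) .z) (.l 40)) (.a (.c .z (.l 40)) .z)))) .z)
(.c (.a (.a .z (.b (.a .z (.b .z (.l 30))) .z)) (.b (.a (.b (.c (.l 30) .z) (.l 30)) .z) .z)) (.a (.b (.a (.a .z (.b .z (.c .z (.l 30)))) (.a (.b .z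
(.l 30)) (.b .z (.l 30)))) .z) (.b (.a (.c (.b .z (.a (.l 30) .z)) .z) .z) .z))))) (.b (.a (.c (.a (.b (.b .z (.c (.b (.c (.l 34) .z) (.l 34)) .z))
(.b (.c (.b (.l 34) (.b (.l 34) .z)) (.b (.c (.l 34) .z) (.l 34))) .z)) (.b .z (.a (.b (.c (.b (.l 34) .z) .z) .z) .z))) (.b .z (.c (.a (.b .z (.b (.c
(.l 34) .z) .z)) .z) .z))) .z) (.a (.c (.b (.a (.b (.a (.b (.c (.l 40) .z) (.l 40)) (.b .z (.a (.l 40) .z))) (.a (.l 40) (.b (.a (.l 40) .z) (.a (.l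
40) .z)))) .z) (.a (.a (.l 40) (.b (.a (.c (.l 40) .z) .z) .z)) .z)) (.b (.a (.b (.a (.b .z (.c (.l 40) .z)) .z) (.a (.l 40) .z)) .z) (.c (.b (.a (.a
(.l 40) .z) .z) (.a (.a (.a (.l 40) .z) .z) .z)) (.b (.a (.a (.a (.l 40) .z) .z) .z) .z)))) (.c (.a .z (.b .z (.a .z (.c .z (.b .z (.l 35)))))) (.a
(.b .z (.c .z (.b .z (.a .z (.l 35))))) (.b (.a .z (.c (.b .z (.a .z (.l 35))) (.b (.a .z (.l 35)) (.l 35)))) (.a (.c (.b .z (.l 35)) (.l 35)) (.l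
35)))))))) (.b (.c .z (.a (.b (.c .z (.b .z (.c .z (.a (.a (.b (.c .z (.l 24)) (.l 24)) .z) .z)))) (.c (.b .z (.c .z (.a (.a (.b (.c .z (.l 24)) (.l
24)) .z) .z))) (.a (.b (.c (.a (.b (.c .z (.l 24)) (.l 24)) .z) (.a (.l 24) (.a (.l 24) .z))) (.a (.l 24) (.c (.a (.l 24) .z) (.l 24)))) .z))) .z))
(.c (.a (.b (.c .z (.b .z (.c .z (.c .z (.a (.a (.l 24) .z) .z))))) (.c (.b .z (.c .z (.c (.a (.b .z (.a (.l 16) .z)) .z) (.c (.a (.l 16) .z) (.a (.l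
16) .z))))) (.c (.c (.c (.a (.b (.b .z (.l 16)) (.l 16)) .z) (.a (.b (.a (.l 16) .z) .z) .z)) (.a (.b .z (.c (.a .z (.a .z (.l 10))) (.l 10))) (.b (.c
(.a (.a .z (.l 10)) (.b .z (.l 10))) .z) (.l 10)))) (.c (.a (.b .z (.c (.b .z (.l 10)) .z)) (.b .z (.c (.b .z (.b .z (.l 10))) .z))) (.a (.b (.a (.l
24) (.a (.l 24) .z)) (.c (.b (.l 24) .z) (.l 24))) .z))))) (.a (.b .z (.c (.b (.c (.a .z (.l 35)) .z) (.c (.c (.b (.l 35) .z) .z) .z)) (.c (.c (.a (.c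
.z (.b .z (.b .z (.l 10)))) (.c .z (.b .z (.b .z (.l 10))))) (.b (.c (.b (.b .z (.l 10)) (.l 10)) .z) (.c (.l 10) (.b (.b .z (.l 10)) (.l 10)))))
.z))) (.b (.c (.a (.c (.b .z (.c (.l 35) .z)) .z) (.c (.c (.a (.l 35) .z) .z) .z)) .z) (.c (.c (.c (.a (.l 35) .z) (.a (.c (.l 35) .z) .z)) .z) (.c
(.c .z (.c (.b (.b .z (.a (.l 10) .z)) (.l 10)) (.b .z (.b .z (.a (.l 10) .z))))) .z))))) (.c (.a (.c (.b (.a (.a (.b (.b (.c .z (.l 24)) (.l 24)) (.l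
24)) (.b .z (.a (.b .z (.l 24)) .z))) .z) (.c (.a (.a (.l 24) (.b (.a (.l 24) .z) (.l 24))) .z) (.a (.l 24) .z))) (.a (.b (.a (.l 24) (.b (.a (.b .z
(.l 24)) .z) (.a (.l 24) (.a (.l 24) .z)))) (.l 24)) (.a (.a (.b .z (.b (.a (.l 24) .z) (.l 24))) .z) .z))) .z) (.a (.c (.a (.l 24) (.a (.a (.b (.b .z
(.a (.l 24) .z)) (.l 24)) (.b .z (.a (.b .z (.l 24)) .z))) .z)) (.c (.a (.l 24) (.a (.a (.b (.b .z (.l 24)) (.l 24)) (.b .z (.a (.l 24) .z))) .z)) (.a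
(.l 24) (.a (.a (.l 24) (.b .z (.l 24))) .z)))) .z)))))

theorem vQ13 : ev3 Q13 J3_0 J4_2 J3_6 = 98702916519741799679027 := by decide +kernel

noncomputable def Q81 : QT3 :=
(.c (.b (.a (.c (.b (.c (.a (.b (.c (.a (.b (.l 18) .z) .z) .z) (.c .z (.a .z (.l 31)))) (.b (.c (.a .z (.l 29)) (.a .z (.l 29))) (.a (.a (.l 31) .z)
(.l 29)))) (.a (.b (.c (.a .z (.l 31)) (.l 31)) (.l 31)) (.a (.a (.l 31) (.a .z (.l 29))) (.l 29)))) (.c (.a (.b (.c (.a .z (.l 31)) (.l 31)) (.l 31))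
(.a (.a (.l 31) (.a .z (.l 29))) (.l 29))) (.a (.l 31) (.a (.a (.l 31) (.a .z (.l 29))) (.l 29))))) (.c (.c (.c (.a (.l 31) (.a (.a (.l 31) .z) (.a
(.l 29) .z))) (.a (.c (.a .z (.l 31)) .z) (.a (.a (.l 31) .z) .z))) (.c (.a (.c (.a (.b .z (.a (.l 10) .z)) .z) (.a (.l 10) (.a (.b .z (.l 10)) .z)))
.z) (.a (.c .z (.a .z (.b (.l 19) .z))) (.a (.c .z (.a (.l 19) .z)) .z)))) (.c (.c (.a (.c (.a (.b (.l 19) .z) (.l 19)) (.l 19)) (.a (.a (.l 19) .z)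
.z)) (.a (.l 19) (.a (.a (.l 19) .z) (.l 69)))) (.a (.l 19) (.a (.a (.l 19) .z) .z))))) (.c (.c (.a (.l 29) (.b (.l 29) (.c (.a (.l 29) (.b (.l 29)
.z)) (.a (.c (.l 29) .z) .z)))) (.a (.c (.a (.l 29) (.b (.l 29) (.c (.l 29) .z))) (.a (.c (.b (.l 29) .z) .z) .z)) (.c (.b (.a (.c (.l 29) .z) .z) .z)
.z))) .z)) (.c (.a (.a (.l 31) (.c (.a (.a (.l 31) (.a .z (.l 29))) (.l 29)) (.a (.a (.l 31) (.a .z (.l 29))) (.c (.l 29) (.a (.l 29) (.c (.l 29)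
.z)))))) (.a (.c (.a (.l 29) (.c (.l 29) (.b (.c (.l 29) .z) .z))) (.a (.c (.b (.c (.l 29) .z) .z) .z) .z)) (.b (.c (.c (.a (.c (.l 29) .z) .z) .z)
.z) .z))) (.c (.a (.c (.a (.c (.a (.c (.l 31) .z) (.l 31)) (.a (.c .z (.b .z (.a (.l 10) .z))) .z)) (.a (.a (.l 31) .z) .z)) (.a (.c (.a (.l 10) (.c
(.a (.b .z (.l 10)) .z) (.l 10))) (.a (.c (.l 10) (.b .z (.a (.l 10) .z))) .z)) (.c .z (.a (.c .z (.a (.l 19) .z)) .z)))) .z) (.a (.c (.a (.c (.a (.c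
.z (.b (.l 19) .z)) (.c (.a .z (.l 19)) (.l 19))) (.l 19)) (.a (.a (.l 19) .z) (.b .z (.l 54)))) (.a (.l 19) (.a (.a (.l 19) .z) (.b .z (.l 54)))))
(.a (.c .z (.a (.b .z (.l 54)) .z)) .z))))) (.b (.a (.a (.l 19) (.a (.a (.l 19) .z) .z)) .z) (.a (.c (.a (.l 19) (.a (.a (.l 19) .z) (.c (.b .z (.c
(.l 54) .z)) .z))) (.b (.a (.l 19) (.a (.a (.l 19) .z) .z)) (.a (.c (.b (.l 19) (.c (.l 19) (.b (.l 19) (.c (.l 19) .z)))) (.b (.c (.l 19) (.b (.l 19)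
(.c (.l 19) .z))) (.c (.b (.c (.l 19) .z) .z) .z))) (.c (.b (.a (.a (.l 19) .z) .z) (.a (.a (.l 19) .z) .z)) (.b (.a (.a (.l 19) .z) .z) .z))))) (.c
(.b .z (.a (.c (.b (.b .z (.l 54)) (.c (.l 54) .z)) .z) (.c (.b .z (.a (.l 54) .z)) .z))) (.b .z (.a .z (.c .z (.c (.c (.l 71) .z) .z))))))))

theorem vQ81 : ev3 Q81 J4_5 J4_6 J3_5 = 186562560350993499111104 := by decide +kernel

noncomputable def Q188 : QT3 :=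
(.a (.b (.c (.a (.b (.c .z (.b (.c .z (.a .z (.c .z (.b (.a .z (.l 21)) .z)))) .z)) .z) (.b (.c .z (.a (.b (.c (.b .z (.c .z (.a (.c .z (.l 21)) (.b
.z (.l 21))))) (.b (.c (.a (.c .z (.l 21)) (.b .z (.l 21))) (.l 21)) (.b (.l 21) (.a .z (.l 21))))) (.c (.b (.c (.a .z (.b .z (.l 21))) (.a .z (.b (.l
21) .z))) .z) .z)) (.b (.c .z (.a (.b (.c .z (.b .z (.l 21))) (.c (.b .z (.l 21)) (.l 21))) .z)) (.c (.a (.b (.c .z (.b .z (.l 21))) (.c (.l 21) .z))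
.z) (.a (.b (.c (.l 21) .z) .z) .z))))) .z)) (.a (.b (.c (.a (.c .z (.b (.c .z (.b (.c .z (.c .z (.l 23))) .z)) .z)) (.b (.c (.c (.b (.b (.l 21) (.a
.z (.l 21))) .z) (.b (.b (.l 21) (.a .z (.l 21))) .z)) (.c (.b (.c (.b (.l 21) .z) .z) .z) .z)) .z)) (.a (.b (.c (.c (.c (.l 23) (.b (.l 23) (.c (.l
23) .z))) .z) (.c .z (.a (.c (.c .z (.l 15)) (.b (.l 15) .z)) (.l 15)))) (.c .z (.a (.b (.c .z (.c (.l 15) .z)) .z) (.b (.c (.c .z (.l 15)) .z) .z))))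
(.b (.c (.a (.c (.c (.c .z (.l 23)) .z) (.c (.b (.c .z (.l 13)) .z) .z)) (.b (.c (.c (.l 23) .z) (.l 13)) .z)) (.a (.b (.c (.c .z (.l 15)) (.l 15))
(.c (.a (.l 15) .z) .z)) .z)) .z))) (.c .z (.a .z (.b (.c .z (.b (.c (.c (.l 41) .z) .z) .z)) .z)))) (.b (.c (.a (.b (.c (.a (.c (.b (.l 21) (.b (.l
21) .z)) (.b (.l 21) .z)) (.b (.l 21) (.c (.b (.l 21) .z) .z))) .z) .z) (.b (.c (.a (.b (.c (.l 21) .z) .z) .z) .z) .z)) (.a (.b (.c (.a (.b (.c .z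
(.a (.b (.l 13) .z) .z)) .z) .z) .z) .z) .z)) (.c .z (.b .z (.c (.b (.c (.a .z (.a (.l 39) .z)) .z) (.c (.a .z (.a (.l 39) .z)) .z)) .z)))))) .z) (.b
(.c (.a (.b (.c .z (.a .z (.b (.c .z (.a .z (.b (.c (.l 37) .z) .z))) .z))) .z) (.b (.c .z (.b (.c .z (.b (.c (.a (.c .z (.l 37)) .z) (.b (.a (.l 37)
.z) (.c (.l 37) .z))) .z)) .z)) .z)) (.a (.b (.c (.a .z (.b .z (.c (.b .z (.c .z (.b (.l 40) .z))) .z))) (.b (.c (.b (.c .z (.b .z (.c .z (.b .z (.l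
26))))) (.c .z (.b (.c .z (.l 26)) (.c .z (.l 26))))) (.b .z (.c (.a .z (.c (.l 26) (.a .z (.l 26)))) .z))) (.c (.b (.c .z (.c (.c .z (.l 26)) (.l
26))) (.c (.c .z (.c .z (.b .z (.l 26)))) (.l 26))) (.c (.a (.c (.a (.c (.l 26) .z) (.l 26)) .z) (.c (.l 26) (.a (.c (.l 26) .z) (.l 26)))) (.a .z (.c
(.a .z (.c (.l 26) .z)) .z)))))) (.c .z (.b (.c (.c (.c .z (.b (.c .z (.b (.l 26) .z)) .z)) (.b (.b (.l 26) (.b (.l 26) (.a .z (.l 26)))) .z)) (.c (.a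
(.c (.a .z (.b (.l 26) .z)) .z) (.b (.l 26) .z)) (.a .z (.c (.a .z (.b (.l 26) .z)) .z)))) .z))) (.b (.c (.b (.c .z (.a .z (.b (.c .z (.a .z (.b (.l
21) .z))) .z))) .z) (.b (.c (.b (.c (.c (.a .z (.a .z (.l 21))) .z) .z) .z) (.b (.c .z (.a (.c .z (.a .z (.l 14))) (.l 14))) (.c .z (.a (.c .z (.a .z
(.l 14))) (.c (.a .z (.l 14)) (.l 14)))))) (.c (.b (.c .z (.c (.a (.c .z (.l 26)) .z) (.a (.l 26) .z))) (.c .z (.a (.l 26) (.a (.l 26) (.b .z (.l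
26)))))) (.a (.c (.b (.a (.l 26) (.b .z (.l 26))) (.l 26)) (.c (.a (.c (.l 26) .z) .z) (.a .z (.c .z (.l 14))))) (.c (.c (.a (.b .z (.l 26)) .z) (.a
.z (.c .z (.l 14)))) (.b (.c (.a .z (.l 14)) (.l 14)) .z)))))) (.c .z (.c (.b (.a (.c (.c .z (.b (.c .z (.l 26)) .z)) (.b (.l 26) (.b (.b (.l 26) .z)
.z))) (.c (.b (.c .z (.l 26)) (.c .z (.b (.l 26) .z))) (.b (.a (.l 26) (.c (.l 26) .z)) (.a (.b (.l 26) .z) .z)))) (.a (.c (.b .z (.l 59)) .z) .z))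
(.b (.a (.c (.b (.l 26) .z) (.b (.a (.c (.l 26) .z) .z) .z)) (.c (.b (.a (.c (.l 26) .z) .z) .z) .z)) .z)))))) (.c .z (.a (.b (.c .z (.b (.c .z (.b .z
(.c .z (.a (.b .z (.l 31)) .z)))) .z)) .z) .z))))

theorem vQ188 : ev3 Q188 J3_2 J3_6 J3_6 = 46492901090675309262603 := by decide +kernel

noncomputable def Q29 : QT3 :=
(.c (.c (.a (.b (.b (.b (.c (.a (.b (.c (.b .z (.c .z (.l 12))) (.l 12)) (.l 12)) (.a (.c .z (.b .z (.l 12))) .z)) (.a (.l 12) (.a (.l 12) (.c (.b .z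
(.a (.l 12) .z)) (.b (.a (.l 12) .z) (.l 12)))))) (.a (.l 12) (.c (.a (.l 12) (.c (.b .z (.a (.l 12) .z)) (.b (.a (.l 12) .z) (.l 12)))) (.l 12))))
(.l 12)) (.l 12)) (.c (.a (.b (.b (.a .z (.c (.a (.l 37) .z) (.a .z (.l 37)))) (.a (.b (.a (.c (.b .z (.l 12)) (.l 12)) .z) (.a (.l 12) (.c (.b .z (.l
12)) (.l 12)))) (.b .z (.a (.c .z (.b .z (.l 12))) .z)))) (.b (.a (.l 12) (.b (.a (.l 12) (.c .z (.a (.l 12) .z))) (.l 12))) (.l 12))) (.b (.a (.b (.c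
.z (.a (.l 37) .z)) .z) .z) (.a (.b (.a (.b .z (.a (.c .z (.l 12)) .z)) .z) (.a (.b (.a (.l 12) (.c .z (.l 12))) (.l 12)) (.b .z (.a (.l 12) (.c .z
(.l 12)))))) .z))) (.a (.b (.b (.a (.b .z (.a (.c (.b .z (.l 12)) (.l 12)) (.c .z (.b .z (.l 12))))) .z) (.a (.b (.a (.l 12) (.c (.b .z (.l 12)) (.l
12))) (.l 12)) (.b (.a (.c .z (.b .z (.l 12))) .z) (.a (.l 12) (.c .z (.b .z (.l 12))))))) (.l 12)) (.b (.a (.b (.a (.c (.l 37) .z) .z) .z) .z) (.a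
(.b (.a (.b (.a (.c .z (.l 12)) .z) (.l 12)) (.b .z (.a (.c .z (.l 12)) .z))) (.a (.l 12) (.b (.a (.l 12) (.c .z (.l 12))) (.l 12)))) (.b .z (.a (.b
.z (.a (.c .z (.l 12)) .z)) .z))))))) (.a (.l 12) (.a (.b (.b (.a (.c (.b (.a (.c (.b .z (.l 12)) (.l 12)) (.c .z (.b .z (.l 12)))) (.l 12)) (.l 12))
(.c (.b .z (.a (.c .z (.b .z (.l 12))) .z)) (.b (.a (.c .z (.l 12)) .z) (.a (.l 12) (.c (.b .z (.l 12)) (.l 12)))))) (.a (.l 12) (.c (.b (.a (.l 12)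
(.c .z (.l 12))) (.l 12)) (.l 12)))) (.l 12)) (.b (.a (.b .z (.a (.c (.b .z (.a (.c .z (.l 12)) .z)) (.b (.c (.a (.l 12) .z) (.l 12)) (.l 12))) (.c .z
(.b .z (.a (.c .z (.l 12)) .z))))) .z) (.a (.b (.a (.l 12) (.c (.b (.a (.c .z (.l 12)) .z) (.a (.l 12) (.c .z (.l 12)))) (.l 12))) (.l 12)) (.b (.a
(.c .z (.b (.a (.c .z (.l 12)) .z) (.a (.l 12) (.c .z (.l 12))))) .z) (.a (.c (.b (.a (.l 12) .z) (.l 12)) (.l 12)) (.c .z (.a (.b (.c .z (.l 12)) (.l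
12)) (.b .z (.c .z (.l 12)))))))))))) (.a (.l 12) (.c (.a (.b (.b (.a (.l 12) (.c (.b (.a (.l 12) (.c (.b .z (.l 12)) (.l 12))) (.l 12)) (.l 12))) (.l
12)) (.l 12)) (.b (.a (.b (.a (.c (.b .z (.c (.a (.l 12) .z) (.l 12))) (.b (.c (.a (.l 12) .z) (.l 12)) (.l 12))) (.c .z (.b (.a (.c .z (.l 12)) .z)
(.a (.l 12) (.c .z (.l 12)))))) (.a (.l 12) (.c (.b (.a (.l 12) (.c .z (.l 12))) (.l 12)) (.l 12)))) (.b .z (.a (.c (.b .z (.a (.c .z (.l 12)) .z))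
(.b (.a (.l 12) .z) (.l 12))) .z))) (.a (.l 12) (.a (.b (.c (.b (.a (.l 12) (.c .z (.l 12))) (.l 12)) (.l 12)) (.l 12)) (.b (.c (.a (.b .z (.c .z (.l
12))) .z) (.a (.l 12) (.b .z (.l 12)))) (.c (.a (.l 12) (.b (.c .z (.l 12)) (.l 12))) (.l 12))))))) (.a (.c (.l 12) (.a (.l 12) (.b (.c (.l 12) (.a
(.l 12) (.b (.c (.a (.l 12) .z) .z) (.c (.l 12) (.a (.l 12) .z))))) (.l 12)))) (.a (.c (.a (.l 12) (.c (.l 12) (.b (.c (.l 12) (.a (.l 12) (.b .z (.l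
12)))) (.l 12)))) (.a (.c (.b (.c (.l 12) (.b (.a (.l 12) .z) (.l 12))) (.l 12)) (.b .z (.a (.b (.c (.l 12) .z) (.l 12)) (.c (.b .z (.l 12)) .z))))
(.c (.b (.c (.a (.b .z (.l 12)) .z) .z) (.a (.c (.l 12) (.b .z (.l 12))) (.c (.b .z (.l 12)) .z))) (.b (.c .z (.b (.l 22) .z)) .z)))) (.c (.a (.c (.b
(.b (.b .z (.a (.l 12) .z)) (.l 12)) (.l 12)) (.a (.c (.l 12) (.b .z (.a (.l 12) .z))) (.c (.b .z (.a (.l 12) .z)) .z))) (.c (.a (.c (.b .z (.l 12))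
(.a (.b .z (.l 12)) .z)) (.c (.a (.b .z (.l 12)) .z) .z)) (.a .z (.b (.b (.l 22) .z) (.l 20))))) (.a (.c (.a .z (.c .z (.b .z (.l 20)))) (.b (.b (.l
22) (.b .z (.l 20))) (.a .z (.b (.l 20) .z)))) (.b (.b (.l 22) (.b (.b (.l 22) .z) (.l 20))) (.b (.l 20) (.b (.l 20) (.b (.l 20) .z)))))))))))

theorem vQ29 : ev3 Q29 J3_0 J4_5 J4_11 = 403401367636928474843075 := by decide +kernel

noncomputable def Q40 : QT3 :=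
(.b (.c (.c (.a (.l 12) (.a (.l 12) (.c (.a (.c (.a (.l 12) (.b (.l 12) (.c (.a (.l 12) .z) (.l 12)))) (.l 12)) (.c (.a (.b (.c .z (.b .z (.l 12)))
.z) .z) (.b (.a (.b (.a (.l 12) .z) (.l 12)) .z) (.a (.c (.a (.l 12) .z) (.l 12)) (.c .z (.a (.l 12) .z)))))) (.a (.l 12) (.a (.b (.b (.a (.l 12) (.c
.z (.l 12))) (.l 12)) (.l 12)) (.b (.a (.b .z (.c .z (.l 12))) .z) (.a (.l 12) (.b (.c .z (.l 12)) (.l 12))))))))) (.a (.l 12) (.a (.l 12) (.a (.l 12)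
(.a (.l 12) (.b (.c (.a (.l 12) (.b .z (.l 12))) (.l 12)) (.l 12))))))) (.a (.l 12) (.a (.l 12) (.c (.l 12) (.a (.c (.l 12) (.a (.l 12) (.c (.l 12)
(.a (.b (.c (.l 12) .z) (.l 12)) .z)))) (.c (.a (.c (.l 12) (.a (.l 12) (.c (.l 12) .z))) (.c (.a (.c (.l 12) (.a (.l 12) .z)) (.c (.a (.l 12) .z)
.z)) (.a .z (.c .z (.b .z (.l 8)))))) (.a (.c (.a (.c (.a (.l 12) .z) .z) .z) (.a (.c .z (.a .z (.l 8))) (.b (.b .z (.l 8)) (.l 8)))) (.b (.b .z (.b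
.z (.c .z (.l 8)))) (.l 8))))))))) (.c (.b (.a (.l 12) (.c (.a (.l 12) (.c (.a (.c (.a (.l 12) (.c .z (.a (.l 12) .z))) (.l 12)) (.c .z (.a (.c .z (.a
(.l 12) .z)) .z))) (.a (.l 12) (.a (.l 12) (.c (.a (.b (.l 12) .z) .z) (.b (.l 12) (.a (.l 12) .z))))))) (.l 12))) (.c (.a (.l 12) (.a (.l 12) (.a (.c
(.c (.a (.c .z (.a (.l 12) .z)) .z) (.a (.l 12) (.a (.c .z (.l 12)) .z))) (.l 12)) (.c .z (.a (.c (.a (.b (.l 12) .z) .z) (.b (.l 12) (.a (.l 12)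
.z))) .z))))) (.a (.l 12) (.a (.l 12) (.b (.l 12) (.c (.a (.l 12) (.a (.l 12) (.c (.a (.l 12) .z) (.l 12)))) (.a (.l 12) (.b (.c (.l 12) (.a (.l 12)
.z)) (.c (.a (.l 12) .z) .z))))))))) (.b (.a (.l 12) (.c (.a (.l 12) (.b (.l 12) (.c (.l 12) (.a (.l 12) (.b (.l 12) (.c (.l 12) (.a (.l 12) .z)))))))
(.a (.b (.l 12) (.c (.l 12) (.a (.l 12) (.b (.l 12) (.c (.l 12) .z))))) (.b (.c (.a (.l 12) (.a (.c (.l 12) (.a (.l 12) .z)) (.c (.a (.l 12) .z) .z)))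
(.a (.a (.l 12) (.c (.l 12) (.a (.l 12) .z))) .z)) (.c (.a (.b (.l 12) (.c (.l 12) (.a (.l 12) .z))) (.b (.c (.a (.l 12) .z) .z) .z)) (.a (.b (.c (.a
(.l 12) .z) .z) .z) (.b .z (.a (.c .z (.l 6)) (.l 6))))))))) (.a (.c (.l 12) (.b (.c (.l 12) (.b (.l 12) (.a (.l 12) (.c (.l 12) (.a (.l 12) .z)))))
(.c (.b (.a (.l 12) (.c (.l 12) (.a (.l 12) (.b (.l 12) .z)))) (.a (.l 12) (.c (.a (.l 12) (.b (.l 12) .z)) (.a (.b (.l 12) .z) .z)))) (.b (.a (.c (.l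
12) (.b (.l 12) .z)) (.c (.a (.b (.l 12) .z) .z) .z)) (.a (.c (.b (.c (.l 12) .z) .z) (.b .z (.c .z (.l 6)))) (.c .z (.a (.b .z (.l 6)) (.l 6))))))))
(.c (.a (.b (.l 12) (.c (.b (.l 12) (.a (.l 12) (.c (.l 12) (.a (.l 12) .z)))) (.b (.a (.l 12) (.c (.l 12) .z)) (.a (.c (.l 12) .z) .z)))) (.b (.c (.a
(.l 12) (.b (.l 12) (.c (.a (.l 12) .z) .z))) (.a (.b (.l 12) (.c (.a (.l 12) .z) .z)) (.b (.c (.a (.l 12) .z) .z) .z))) (.c (.a (.b (.c (.l 12) (.a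
(.l 12) .z)) (.c (.a (.l 12) .z) .z)) (.b .z (.c .z (.a .z (.l 6))))) (.a (.b .z (.c .z (.a .z (.l 6)))) (.b (.c (.a .z (.l 6)) (.l 6)) (.l 6))))))
(.a (.b (.c (.b (.a (.l 12) (.c (.l 12) (.a (.l 12) .z))) (.a (.c (.l 12) (.b (.l 12) .z)) (.c (.a (.l 12) .z) .z))) (.b (.a (.c (.l 12) .z) .z) (.a
.z (.c .z (.a .z (.l 6)))))) (.c (.b (.a (.c (.b (.l 12) .z) .z) .z) (.a .z (.c (.a .z (.l 6)) (.l 6)))) (.b (.a (.c .z (.b .z (.l 6))) (.l 6)) (.l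
6)))) (.b (.c (.a (.b .z (.c .z (.a .z (.l 6)))) (.b (.c .z (.a .z (.l 6))) (.c (.a .z (.l 6)) (.l 6)))) (.a (.b (.c .z (.a .z (.l 6))) (.l 6)) (.l
6))) (.c (.a (.b (.c (.a .z (.l 6)) (.l 6)) (.l 6)) (.l 6)) (.l 6)))))))))

theorem vQ40 : ev3 Q40 J3_0 J4_6 J4_11 = 453817486536753020024853 := by decide +kernel

noncomputable def Q74 : QT3 :=
(.b .z (.c (.a (.b (.c (.a (.b .z (.c (.c .z (.b .z (.a .z (.c .z (.l 26))))) (.c (.b .z (.l 26)) (.b (.b .z (.b .z (.l 26))) (.l 26))))) (.b .z (.c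
(.a (.b .z (.c .z (.a (.l 26) .z))) .z) (.a (.b .z (.a (.l 26) .z)) .z)))) (.a (.b .z (.b (.b .z (.b .z (.l 26))) (.l 26))) (.b .z (.c (.a (.b .z (.a
(.l 26) .z)) .z) (.a (.b .z (.a (.l 26) .z)) .z))))) (.c (.c (.b (.a (.c (.b (.a .z (.c .z (.l 26))) (.a (.c .z (.l 26)) (.l 26))) (.b (.a (.c .z (.l
26)) (.l 26)) (.l 26))) (.c (.c .z (.a (.a (.l 26) .z) .z)) (.a (.a (.l 26) .z) .z))) (.c (.a (.l 26) (.c .z (.a (.a (.l 26) .z) .z))) (.a (.l 26) (.a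
(.a (.l 26) .z) .z)))) (.a (.l 26) (.a (.a (.l 26) .z) (.b .z (.l 95))))) (.a (.l 26) (.a (.a (.l 26) .z) (.b .z (.b .z (.c (.l 95) .z))))))) (.b .z
(.c (.a (.b .z (.c .z (.c .z (.a (.l 95) .z)))) .z) (.a (.b .z (.b .z (.c (.l 95) .z))) .z)))) (.a (.b (.c (.a (.b .z (.b (.b .z (.b .z (.c (.l 26)
(.c .z (.l 18))))) (.c (.l 26) (.c .z (.l 18))))) (.b .z (.c (.a (.b .z (.a (.l 26) .z)) .z) (.a (.b .z (.a (.c .z (.l 18)) .z)) .z)))) (.a (.b .z (.b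
(.b .z (.b .z (.l 18))) (.l 18))) (.b .z (.c (.a (.b .z (.a (.l 18) .z)) .z) (.a (.b .z (.a (.l 18) .z)) .z))))) (.c (.a (.c (.c (.l 26) (.c (.b (.l
26) (.a (.b (.l 26) .z) .z)) (.b (.a (.c (.l 26) .z) .z) .z))) (.c (.c (.b .z (.a .z (.c .z (.l 18)))) (.a (.b (.c .z (.l 18)) (.l 18)) (.l 18))) (.l
18))) (.a (.a (.c (.c (.b (.l 26) (.c (.l 26) .z)) (.b (.c (.l 26) .z) .z)) (.c (.c (.b .z (.l 18)) (.l 18)) (.l 18))) .z) .z)) (.c (.a (.l 18) (.a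
(.a (.l 18) .z) .z)) (.b (.a (.l 18) (.a (.a (.l 18) .z) .z)) (.a (.l 18) (.c (.b (.a (.a (.l 18) .z) .z) (.a (.a (.l 18) .z) .z)) (.b (.a (.a (.l 18)
.z) .z) .z))))))) .z)))

theorem vQ74 : ev3 Q74 J4_5 J3_2 J3_4 = 93462812185763093201813 := by decide +kernel

noncomputable def Q141 : QT3 :=
(.c .z (.a .z (.b (.c (.a .z (.b (.c .z (.a .z (.b (.c .z (.c (.b (.a (.l 28) .z) .z) .z)) .z))) .z)) (.a (.b (.b (.c (.a (.c (.b .z (.c .z (.c .z (.l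
38)))) .z) .z) .z) (.c (.c (.a (.b (.c .z (.c (.l 38) .z)) .z) (.c (.b .z (.c .z (.l 38))) .z)) .z) .z)) .z) .z)) .z)))

theorem vQ141 : ev3 Q141 J3_0 J3_7 J2_3 = 1905360878966409335053 := by decide +kernel

end Pool.Agent.Helper64.SPW.Dat3
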