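import Pool.Agent.Helper64.SPW.Iv3

/-! Boxes of three traces, part 6 (data and kernel evaluation). -/

set_option maxRecDepth 1000000
set_option maxHeartbeats 0

namespace Pool.Agent.Helper64.SPW.Dat3

noncomputable def Q194 : QT3 :=
(.b (.c .z (.a (.b .z (.c .z (.a (.b .z (.c .z (.a (.b .z (.c .z (.a (.b .z (.l 59)) .z))) .z))) (.b (.c .z (.a .z (.b .z (.a .z (.b .z (.c (.c (.l
34) .z) .z)))))) (.c (.a (.b (.c .z (.a .z (.c .z (.c .z (.l 34))))) (.c .z (.c (.c (.b .z (.l 34)) (.b (.l 34) .z)) (.b (.b (.l 34) .z) .z)))) (.b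
(.c .z (.c .z (.c (.b .z (.l 34)) (.l 34)))) (.c .z (.c (.c .z (.b (.l 34) .z)) .z)))) (.a .z (.b (.a (.b (.c (.c (.l 34) .z) .z) .z) .z) .z)))))))
(.b .z (.c .z (.a (.b (.c (.a (.b .z (.c .z (.c .z (.c .z (.a (.l 34) .z))))) .z) (.a (.b .z (.c (.c (.a (.c (.l 34) .z) .z) .z) .z)) .z)) (.c (.c .z
(.c (.b (.c .z (.a (.b .z (.l 34)) .z)) .z) (.a (.a (.b (.b (.l 34) .z) .z) .z) .z))) .z)) .z))))) (.c .z (.a (.b (.c (.a (.b .z (.c .z (.a (.b (.c .z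
(.a .z (.c .z (.b (.b .z (.l 26)) .z)))) .z) (.b (.c .z (.c (.b (.c .z (.b .z (.l 26))) (.b (.b (.l 26) .z) .z)) (.b (.b (.c .z (.l 26)) (.l 26)) (.b
(.b (.l 26) .z) .z)))) .z)))) (.b .z (.c .z (.a (.b (.c .z (.c (.b (.c .z (.b .z (.l 26))) (.b (.b (.l 26) .z) .z)) (.b (.b (.c .z (.l 26)) (.l 26))
(.b (.b (.l 26) .z) .z)))) .z) (.b (.c .z (.c (.b (.c .z (.b .z (.l 26))) (.b (.b (.l 26) .z) .z)) (.b (.b (.c .z (.l 26)) (.l 26)) (.b (.b (.l 26)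
.z) .z)))) .z))))) (.a (.b (.c (.a (.b .z (.c .z (.a .z (.a (.b .z (.l 26)) (.b .z (.l 26)))))) (.b .z (.c (.c (.b .z (.b .z (.b .z (.l 26)))) (.b .z
(.b (.b .z (.l 26)) (.l 26)))) (.b (.b .z (.c .z (.b .z (.l 26)))) (.l 26))))) (.a (.b (.a (.c (.b .z (.l 59)) (.l 59)) .z) (.a (.b (.a (.l 59) .z)
(.a (.l 59) .z)) (.b (.a .z (.b .z (.a .z (.l 26)))) (.a (.b .z (.l 26)) (.l 26))))) (.b .z (.b (.b (.c (.b .z (.c .z (.l 26))) (.l 26)) (.l 26)) (.l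
26))))) (.c (.a (.a (.b (.a .z (.b (.a (.b .z (.l 26)) (.l 26)) (.b (.b (.l 26) .z) .z))) .z) (.b (.b (.l 26) (.b (.b (.l 26) .z) .z)) .z)) (.b (.b
(.l 26) (.b (.b (.l 26) .z) .z)) .z)) (.c (.a (.a (.b (.a .z (.b (.a .z (.l 26)) .z)) .z) (.b (.b (.l 26) (.b (.b (.l 26) .z) .z)) .z)) (.b (.b (.l
26) (.b (.b (.l 26) .z) .z)) .z)) (.b (.a (.a (.a .z (.b (.b .z (.l 26)) .z)) (.b (.l 26) (.b (.b (.l 26) .z) .z))) (.b (.l 26) (.b (.b (.l 26) .z)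
.z))) .z)))) (.c (.b (.c (.b .z (.c (.b .z (.b .z (.b (.c .z (.l 26)) (.l 26)))) (.b .z (.b (.b (.c .z (.l 26)) (.l 26)) (.l 26))))) (.b .z (.b (.b .z
(.c (.b .z (.c .z (.l 26))) (.l 26))) (.l 26)))) (.b (.b (.l 26) (.b (.b (.l 26) .z) .z)) .z)) (.b (.b (.b .z (.b .z (.c .z (.b .z (.c .z (.a (.l 26)
.z)))))) (.b (.b (.c (.b (.c .z (.c .z (.l 26))) (.c (.c .z (.l 26)) (.l 26))) (.c (.l 26) (.a (.l 26) (.c (.l 26) .z)))) (.c (.l 26) (.c (.l 26) (.a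
(.l 26) .z)))) (.c (.l 26) (.c (.l 26) (.a (.l 26) (.c (.a (.l 26) .z) .z)))))) (.c (.b (.b (.l 26) (.b (.b (.l 26) .z) .z)) .z) (.b (.a (.c (.b (.l
26) (.b (.b (.l 26) .z) .z)) (.b (.l 26) .z)) (.c (.b (.l 26) .z) (.b (.a (.c (.l 26) .z) .z) .z))) (.c .z (.b (.a .z (.c .z (.a .z (.l 23)))) (.a .z
(.a .z (.c .z (.l 23)))))))))))) .z) (.b (.c (.a (.b (.c .z (.c .z (.b .z (.c .z (.b .z (.c .z (.b .z (.b .z (.l 26))))))))) (.c .z (.a (.b (.c .z (.c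
(.b (.c .z (.b .z (.l 26))) (.b (.b (.l 26) .z) .z)) (.b (.b (.c .z (.l 26)) (.l 26)) (.b (.b (.l 26) .z) .z)))) .z) (.b (.c .z (.c (.b (.c .z (.b .z
(.l 26))) (.b (.b (.l 26) .z) .z)) (.b (.l 26) (.b (.b (.l 26) .z) .z)))) .z)))) (.b (.c .z (.c .z (.b .z (.c .z (.b .z (.c .z (.b .z (.b .z (.l
26))))))))) (.c .z (.a (.b (.c .z (.c (.b (.c .z (.b .z (.l 26))) (.b (.b (.l 26) .z) .z)) (.b (.l 26) (.b (.b (.l 26) .z) .z)))) .z) (.b (.c .z (.c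
(.b (.c .z (.b .z (.l 26))) (.b (.b (.l 26) .z) .z)) (.b (.l 26) (.b (.b (.l 26) .z) .z)))) .z))))) (.a (.b (.c (.c (.b .z (.b .z (.b (.c (.b .z (.c
.z (.l 26))) (.b (.c .z (.l 26)) (.l 26))) (.l 26)))) (.b .z (.b (.b (.c .z (.b .z (.c .z (.l 26)))) (.c (.b (.c .z (.l 26)) (.l 26)) (.l 26))) (.l
26)))) (.c (.b (.b .z (.b .z (.b .z (.c .z (.a .z (.l 26)))))) (.a (.b (.b (.b (.c .z (.l 26)) (.l 26)) (.l 26)) (.l 26)) (.c (.l 26) (.b (.c (.l 26)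
(.a (.l 26) .z)) (.a (.c (.l 26) .z) .z))))) (.b (.a .z (.c .z (.b .z (.a (.b .z (.l 20)) .z)))) (.a (.c (.c (.a (.l 26) (.b (.l 26) .z)) (.a (.c (.l
26) .z) .z)) .z) .z)))) (.c (.c (.b (.b (.l 26) (.b (.b (.l 26) .z) .z)) .z) (.b (.b (.l 26) (.b (.b (.l 26) .z) .z)) .z)) (.a (.b (.c (.c (.b (.l 26)
(.b (.b (.l 26) .z) .z)) (.b (.l 26) .z)) (.c (.b (.a (.c (.l 26) .z) .z) .z) (.b .z (.a .z (.b .z (.l 23)))))) (.c .z (.a (.c .z (.b (.l 23) (.b (.l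
23) .z))) (.b (.c (.c .z (.l 23)) (.l 23)) (.c (.b (.l 23) .z) .z))))) (.b (.c (.c (.b (.a (.l 26) (.c (.l 26) .z)) .z) .z) (.a (.c .z (.b .z (.b .z
(.l 23)))) (.b .z (.c (.b .z (.l 23)) .z)))) (.c .z (.a (.b (.c (.b (.l 23) .z) .z) .z) .z)))))) (.b (.c (.c (.c (.b .z (.b .z (.b (.c .z (.b .z (.l
26))) (.l 26)))) (.b .z (.b (.b .z (.b .z (.c .z (.l 26)))) (.l 26)))) (.b (.b .z (.a .z (.b .z (.c .z (.a .z (.l 26)))))) (.a (.b (.b (.c .z (.b .z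
(.l 26))) (.l 26)) (.l 26)) (.c (.b (.b (.b .z (.l 26)) (.l 26)) (.a (.l 26) (.c (.l 26) .z))) (.b (.a (.l 26) (.c (.l 26) .z)) (.a (.c (.l 26) .z)
.z)))))) (.a (.b (.c (.b .z (.b .z (.c (.b .z (.l 26)) .z))) .z) (.c (.c (.b (.c (.l 26) (.a (.l 26) .z)) (.a (.c (.l 26) .z) .z)) .z) .z)) .z)) (.c
(.a (.b (.c (.b (.l 26) (.b (.b (.l 26) .z) .z)) (.c (.b (.l 26) .z) (.b (.a (.l 26) (.c (.l 26) .z)) .z))) .z) (.b (.c (.c (.b (.l 26) (.b (.b (.l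
26) .z) .z)) (.b (.l 26) .z)) (.a (.b (.c (.c (.l 26) .z) .z) .z) .z)) (.c .z (.a .z (.b .z (.c .z (.l 29))))))) (.a (.b .z (.c .z (.a .z (.b (.c .z
(.l 29)) (.l 29))))) (.b (.c .z (.a (.b .z (.b .z (.l 29))) (.b .z (.b .z (.l 29))))) (.c (.a (.b (.c .z (.l 29)) (.l 29)) (.l 29)) (.l 29)))))))) (.c
.z (.a .z (.b (.c (.a .z (.b (.c .z (.a .z (.b (.b (.l 29) .z) .z))) .z)) (.a (.b (.c .z (.b (.b (.a .z (.l 29)) .z) .z)) .z) (.c (.b (.b (.b (.a (.l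
29) .z) .z) .z) .z) .z))) .z)))))))

theorem vQ194 : ev3 Q194 J3_4 J2_2 J2_2 = 150686300791219431252110 := by decide +kernel

noncomputable def Q37 : QT3 :=
(.a (.b (.c (.a (.c (.c (.a (.b (.c (.a (.b .z (.l 18)) .z) (.a (.l 18) (.b .z (.l 18)))) (.l 18)) (.b .z (.a (.c .z (.l 18)) .z))) (.a (.l 18) (.b
(.c (.a (.b .z (.l 18)) .z) (.a (.l 18) (.b .z (.l 18)))) (.l 18)))) (.l 18)) (.c (.a (.c .z (.b .z (.a (.c .z (.l 18)) .z))) (.c .z (.a .z (.b (.b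
(.l 26) .z) .z)))) (.a (.c (.a (.l 18) (.c (.b .z (.a (.l 18) .z)) (.b (.a (.l 18) .z) (.l 18)))) (.l 18)) (.c (.a (.c .z (.b .z (.a (.l 18) .z))) (.c
(.b (.l 26) .z) (.a .z (.b (.l 26) .z)))) (.a (.c (.b (.a (.l 18) .z) (.l 18)) (.l 18)) (.c .z (.a (.l 18) (.c .z (.l 18))))))))) (.c (.a (.l 18) (.c
(.l 18) (.a (.c (.l 18) (.a (.c (.l 18) (.b .z (.l 18))) (.c (.l 18) .z))) (.c (.a (.l 18) (.c (.a (.l 18) .z) .z)) .z)))) (.a (.c (.c (.a (.l 18) (.b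
(.c (.a (.l 18) .z) .z) (.a (.l 18) (.c (.l 18) .z)))) (.a (.b (.c (.a (.l 18) .z) .z) (.c (.l 18) (.a (.l 18) .z))) (.b .z (.a (.c (.l 18) .z) .z))))
(.b (.c (.a .z (.l 34)) (.l 34)) (.a .z (.c .z (.l 34))))) (.c (.a (.c .z (.b (.l 34) .z)) (.c (.a (.c .z (.l 34)) (.l 34)) (.l 34))) (.l 34))))) (.c
(.a (.c (.a (.l 18) (.c (.b (.a (.l 18) (.c (.b .z (.l 18)) (.l 18))) (.l 18)) (.l 18))) (.l 18)) (.c (.a (.c (.b .z (.a (.c (.b .z (.l 18)) (.l 18))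
.z)) (.a (.l 18) (.b (.c .z (.a (.l 18) .z)) (.l 18)))) (.c .z (.a (.b .z (.c .z (.a (.l 18) .z))) .z))) (.a (.l 18) (.c (.a (.b (.c (.a (.l 18) .z)
(.l 18)) (.l 18)) (.c .z (.a (.b .z (.l 18)) .z))) (.a (.l 18) (.a (.l 18) (.c (.b .z (.l 18)) (.l 18)))))))) (.b (.a (.c (.l 18) (.c (.a (.l 18) (.c
(.l 18) (.a (.l 18) (.c (.l 18) .z)))) (.a (.c (.a (.l 18) (.b .z (.l 18))) (.b .z (.a (.l 18) .z))) .z))) (.c (.c (.l 18) (.a (.l 18) (.c (.a (.l 18)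
(.c (.l 18) .z)) (.a (.c (.l 18) .z) .z)))) (.a (.c (.c (.a (.l 18) .z) .z) (.c (.a .z (.l 34)) (.l 34))) (.b (.c (.c .z (.l 34)) (.l 34)) (.c (.c .z
(.l 34)) (.a (.l 34) .z)))))) (.a (.c (.l 18) (.b (.c (.l 18) (.a (.l 18) (.c (.a (.l 18) .z) .z))) (.c (.l 18) (.a (.l 18) (.b (.c (.l 18) .z) (.c
(.l 18) .z)))))) (.c (.a (.l 18) (.b (.c (.l 18) (.c (.l 18) (.a (.l 18) .z))) (.c (.l 18) (.a (.l 18) .z)))) (.a (.b (.c (.c (.a (.l 18) .z) .z) .z)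
(.c (.b (.c (.l 18) .z) (.a (.l 18) .z)) .z)) (.b .z (.c .z (.a (.b .z (.c .z (.l 10))) (.b (.c .z (.l 10)) (.l 10))))))))))) (.b (.c (.a (.c (.a (.b
(.c (.a (.b (.l 26) .z) (.l 26)) (.l 26)) (.a (.c .z (.b (.a .z (.l 26)) .z)) (.c (.b (.a .z (.l 26)) (.a .z (.l 26))) (.l 26)))) (.l 26)) (.a (.c (.b
(.l 26) (.a (.b (.l 26) (.a .z (.l 26))) (.l 26))) (.a (.c (.a .z (.l 26)) .z) (.l 26))) (.c (.l 26) (.c (.l 26) (.a (.l 26) (.c (.l 26) .z)))))) (.c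
(.c (.l 26) (.a (.l 26) (.c (.l 26) (.b (.l 26) (.a (.l 26) (.c (.l 26) .z)))))) (.c (.a (.c (.l 26) (.a (.l 26) (.b (.l 26) (.c (.l 26) .z)))) (.c
(.a (.b (.l 26) (.c (.l 26) .z)) (.b (.c (.l 26) .z) .z)) .z)) (.a (.c (.a (.c (.l 26) (.b (.l 26) .z)) .z) .z) .z)))) (.a (.b (.c (.a (.c (.a (.c .z
(.c (.l 18) .z)) (.c (.a .z (.l 26)) .z)) (.a .z (.c .z (.a .z (.l 14))))) (.c (.c (.a (.c (.l 26) .z) .z) .z) .z)) (.a (.a (.a (.c (.l 34) .z) (.c .z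
(.a .z (.l 14)))) (.a (.c (.a .z (.l 14)) (.l 14)) (.l 14))) (.c (.a (.c (.a (.l 14) .z) (.l 14)) .z) (.a (.l 14) (.a (.l 14) (.c .z (.l 14))))))) (.c
(.a (.c (.a (.c (.a (.l 18) .z) (.l 18)) (.c (.a .z (.l 26)) .z)) (.a (.c .z (.l 34)) (.c .z (.a .z (.l 14))))) .z) (.a (.a (.a (.c (.l 34) .z) .z)
(.a (.c (.a .z (.l 14)) (.b (.l 14) .z)) (.c (.l 14) (.b (.l 14) .z)))) (.b (.a (.c (.a (.l 14) .z) (.l 14)) (.c .z (.a (.l 14) .z))) (.c (.a (.a (.l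
14) .z) .z) (.a (.l 14) .z)))))) (.b (.c (.c (.a (.c .z (.l 53)) .z) .z) .z) .z))) (.c (.a (.b (.a (.c (.a .z (.c .z (.b (.a .z (.l 26)) .z))) (.a .z
(.b (.l 26) (.a (.c .z (.l 26)) (.l 26))))) (.c (.a (.c (.a (.b (.l 26) .z) (.l 26)) (.l 26)) (.l 26)) (.c (.l 26) (.c (.l 26) (.a (.l 26) .z))))) (.c
(.a .z (.a (.a .z (.b (.c .z (.l 26)) .z)) (.l 26))) (.a (.a (.c .z (.a (.c .z (.l 18)) .z)) (.c .z (.a .z (.b (.l 26) .z)))) (.b (.c (.l 26) (.a (.l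
26) .z)) (.c (.a (.a .z (.l 26)) (.l 26)) .z))))) (.b (.c (.a (.l 26) (.c (.l 26) (.a (.c (.l 26) (.b (.l 26) .z)) (.c (.b (.l 26) .z) .z)))) (.a (.b
(.c (.c (.l 26) (.a (.l 26) .z)) .z) (.c (.a (.c (.l 26) .z) .z) .z)) .z)) (.c (.a (.b (.l 26) (.c (.l 26) (.a (.l 26) (.b (.l 26) .z)))) (.b (.c (.a
(.l 26) (.c (.l 26) .z)) (.a (.c (.l 26) .z) .z)) (.c (.a (.l 26) .z) .z))) (.a (.b (.c (.a (.c (.l 26) .z) .z) .z) .z) (.b .z (.c .z (.l 33)))))))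
(.a (.b (.c (.a (.a (.c (.a (.l 18) (.c .z (.l 18))) .z) (.c (.a .z (.c (.l 26) .z)) (.a .z (.c .z (.l 14))))) .z) (.a (.b (.c (.a .z (.a .z (.l 14)))
.z) .z) (.b (.c (.a (.a (.l 14) .z) .z) .z) (.c .z (.a (.b .z (.c .z (.l 10))) (.b (.c .z (.l 10)) (.l 10))))))) (.c (.a (.b (.c (.a (.a (.l 18) .z)
.z) .z) (.c (.a (.l 18) .z) .z)) (.b .z (.c .z (.a (.b .z (.c .z (.l 10))) .z)))) (.a (.b (.c .z (.a (.b .z (.c .z (.l 10))) (.b (.c .z (.l 10)) (.l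
10)))) (.c (.a (.b .z (.c .z (.l 10))) (.b (.c .z (.l 10)) (.l 10))) (.l 10))) (.b (.c (.a (.b .z (.c .z (.l 10))) (.b .z (.c .z (.l 10)))) (.l 10))
(.c (.c (.b (.a (.l 10) .z) (.l 10)) (.l 10)) (.l 10)))))) (.b (.c .z (.a (.b .z (.c .z (.c .z (.a (.l 10) (.b .z (.l 10)))))) .z)) (.c (.a (.b .z (.c
(.a .z (.l 33)) .z)) (.c (.l 33) (.c (.l 33) (.a .z (.l 33))))) (.c (.a (.b .z (.c .z (.a (.l 10) (.b .z (.l 10))))) .z) (.a (.b (.c (.a (.l 10) (.b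
.z (.l 10))) (.l 10)) (.l 10)) (.b (.c .z (.a (.l 10) (.c .z (.l 10)))) (.c (.a (.l 10) (.b .z (.l 10))) (.l 10)))))))))))

theorem vQ37 : ev3 Q37 J3_1 J4_7 J4_9 = 276446786391016959380119 := by decide +kernel

noncomputable def Q41 : QT3 :=
(.a (.b (.c (.a (.c (.a (.c .z (.b .z (.a (.c .z (.b .z (.a (.l 12) .z))) .z))) .z) (.a (.c (.b .z (.a (.a (.b (.a (.l 12) .z) (.l 12)) (.b .z (.a (.l
12) .z))) .z)) (.a (.b (.a (.b .z (.l 12)) .z) (.a (.l 12) (.b (.a (.l 12) .z) (.l 12)))) .z)) (.c .z (.b (.a .z (.c .z (.a .z (.l 20)))) (.a .z (.c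
.z (.l 20))))))) (.b (.c (.a .z (.c .z (.a .z (.b (.l 31) .z)))) (.a (.c .z (.a (.c (.b (.l 20) .z) (.l 20)) .z)) (.c (.b (.a .z (.l 31)) .z) .z)))
.z)) (.a (.b (.c (.a (.c (.a (.a (.l 12) (.b .z (.l 12))) .z) (.a (.c (.a (.l 12) .z) .z) (.c (.a .z (.l 20)) (.l 20)))) (.c (.a (.c .z (.a .z (.l
20))) (.l 20)) (.l 20))) (.a (.c (.a (.c (.a .z (.l 20)) (.b (.l 20) .z)) (.l 20)) (.b (.a (.b (.l 20) .z) (.l 20)) .z)) (.l 20))) (.c (.a (.c (.a (.l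
12) (.c (.a (.b .z (.l 12)) .z) .z)) (.a (.c (.a (.l 12) .z) .z) (.c (.a .z (.l 20)) (.b (.l 20) .z)))) (.a (.c (.c (.a .z (.l 20)) (.l 20)) (.l 20))
(.l 20))) (.b (.a (.c .z (.a (.b (.c .z (.l 8)) (.l 8)) .z)) (.c (.l 20) (.b (.a .z (.l 20)) .z))) (.a (.c (.a (.c .z (.l 8)) .z) (.b (.a (.l 8) .z)
(.a (.c (.l 8) .z) .z))) (.c .z (.b .z (.a .z (.c .z (.l 6))))))))) (.b (.c (.a (.c (.a (.l 20) (.c (.b (.l 20) .z) (.l 20))) (.l 20)) (.b (.c (.a (.c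
.z (.l 20)) .z) (.a (.l 20) (.c .z (.l 20)))) (.c .z (.a (.l 20) .z)))) (.a (.b (.l 20) (.c (.l 20) (.a (.b (.l 20) .z) .z))) (.b (.c (.l 20) (.a (.b
(.l 20) .z) .z)) (.c (.a (.b (.l 20) .z) .z) (.a .z (.b .z (.c .z (.l 6)))))))) (.c (.a (.b (.c (.a (.l 20) .z) (.a (.l 20) (.b (.l 20) .z))) (.c (.a
(.c .z (.l 20)) .z) (.a (.b (.l 20) .z) .z))) (.b .z (.c .z (.a (.b .z (.c .z (.l 6))) .z)))) (.a (.b (.c (.a (.b (.l 20) .z) .z) (.a .z (.b .z (.c .z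
(.l 6))))) (.c (.a .z (.b .z (.c .z (.l 6)))) (.a (.b (.c .z (.l 6)) (.l 6)) (.l 6)))) (.b (.c (.a .z (.b .z (.l 6))) (.a (.b (.c .z (.l 6)) (.l 6))
(.l 6))) (.l 6))))))) (.c (.b (.a (.c .z (.b (.a (.c (.a (.l 12) .z) (.a (.l 12) (.a (.a (.l 12) .z) .z))) .z) (.a (.c (.a (.c (.a (.l 12) .z) (.l
12)) (.c .z (.a (.l 12) .z))) (.a (.l 12) (.a (.l 12) .z))) .z))) (.c (.a .z (.b .z (.c (.a (.l 46) .z) .z))) (.a .z (.b .z (.c .z (.a (.b .z (.l 19))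
(.l 19))))))) (.a (.c (.b .z (.a .z (.c (.a (.l 34) .z) .z))) (.b (.a (.c (.a (.c .z (.a (.l 12) .z)) .z) (.b (.a (.l 12) .z) (.a (.c (.l 12) .z)
.z))) .z) (.a .z (.c (.b .z (.a .z (.c .z (.l 10)))) (.b .z (.c .z (.c .z (.l 6)))))))) (.c (.a (.b .z (.c .z (.a .z (.b .z (.c .z (.l 10)))))) (.b
(.c .z (.a .z (.b .z (.c .z (.l 10))))) (.c (.a (.b .z (.c .z (.l 10))) (.b (.c .z (.l 10)) (.l 10))) (.a (.b (.c .z (.l 10)) (.l 10)) (.l 10))))) (.a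
(.b .z (.c (.a (.b (.c .z (.l 10)) (.l 10)) (.c (.l 10) (.b .z (.l 10)))) (.c (.c (.b .z (.l 10)) .z) .z))) (.b (.c .z (.b (.l 19) (.b (.l 19) .z)))
(.c (.c (.l 10) (.b .z (.c (.l 10) .z))) .z)))))) (.b (.a (.c (.b (.a (.c (.a (.l 12) (.a (.c (.l 12) .z) .z)) .z) (.c (.b (.a .z (.l 20)) .z) .z))
(.a (.c (.b (.a (.l 12) .z) (.a (.a (.l 12) .z) .z)) .z) (.c .z (.b (.a .z (.c .z (.l 6))) (.a (.c .z (.l 6)) (.l 6)))))) (.b (.a (.c (.b (.a (.c .z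
(.l 8)) .z) .z) (.b .z (.a .z (.c .z (.l 6))))) (.c (.b .z (.a .z (.c .z (.l 6)))) (.b (.a (.c .z (.l 6)) (.l 6)) (.l 6)))) (.a (.c (.b .z (.a (.c .z
(.l 6)) (.l 6))) (.b (.a (.c .z (.l 6)) (.l 6)) (.l 6))) (.l 6)))) (.c (.a (.b (.c .z (.a (.b .z (.c .z (.l 6))) (.b (.c .z (.l 6)) (.l 6)))) (.c (.a
(.b .z (.c .z (.l 6))) .z) (.l 6))) (.b (.c .z (.c (.c .z (.a (.l 6) .z)) (.l 6))) (.c (.c (.c (.l 19) .z) .z) (.c (.a (.l 6) (.c .z (.l 6))) (.l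
6))))) (.a (.b (.c (.a (.b (.c .z (.l 6)) (.l 6)) (.l 6)) (.l 6)) (.l 6)) (.l 6)))) (.a (.c (.b (.a (.c (.b (.a (.c (.l 12) .z) .z) .z) (.b (.a .z (.c
.z (.l 6))) (.a (.c .z (.l 6)) (.l 6)))) (.c (.b (.a .z (.c .z (.l 6))) (.a (.c .z (.l 6)) (.l 6))) (.l 6))) (.a (.c (.b (.a (.c .z (.l 6)) (.l 6))
(.c (.a .z (.l 6)) (.l 6))) (.l 6)) (.l 6))) (.l 6)) (.c (.c (.a (.c (.b .z (.a (.l 6) (.c .z (.l 6)))) (.l 6)) (.c .z (.a (.c .z (.l 6)) .z))) (.a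
(.l 6) (.c (.a (.l 6) (.c (.b .z (.l 6)) (.l 6))) (.l 6)))) (.l 6)))))) (.b (.c (.a (.b (.c (.a .z (.a .z (.c (.a .z (.l 14)) .z))) .z) (.c .z (.a .z
(.b (.c .z (.a .z (.b .z (.l 19)))) (.c (.a .z (.b .z (.l 19))) (.a (.b .z (.l 19)) (.l 19))))))) (.b (.c (.a (.b (.l 14) (.c (.l 14) .z)) (.b (.c (.a
(.l 14) (.b (.l 14) .z)) .z) (.c .z (.a .z (.b .z (.l 19)))))) (.a (.b .z (.c .z (.a .z (.b .z (.l 19))))) (.b (.c (.a .z (.b .z (.l 19))) (.a (.b .z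
(.l 19)) (.l 19))) (.c (.a (.b .z (.l 19)) (.l 19)) (.l 19))))) (.c (.a (.b (.c (.a (.b (.l 14) .z) .z) .z) (.c .z (.a (.b .z (.l 19)) (.l 19)))) (.b
(.c (.a .z (.b .z (.l 19))) (.a (.b .z (.l 19)) (.l 19))) (.l 19))) (.a (.b (.c (.a .z (.l 19)) (.l 19)) (.l 19)) (.l 19))))) (.a (.b (.c (.a .z (.b
.z (.c .z (.a (.b .z (.l 19)) (.l 19))))) (.a (.b (.c .z (.a .z (.b .z (.l 6)))) (.c (.a (.b .z (.c .z (.l 6))) (.b (.c .z (.l 6)) (.c .z (.l 6))))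
(.a (.b (.c .z (.l 6)) (.l 6)) (.l 6)))) (.b (.c (.a .z (.c (.l 19) .z)) (.l 6)) (.c (.c .z (.a (.c .z (.l 6)) .z)) (.l 6))))) (.c (.a (.b .z (.c (.a
(.b .z (.l 19)) (.l 19)) (.c (.c (.l 19) .z) .z))) (.b (.c (.a (.b .z (.l 19)) (.l 19)) (.l 19)) (.c (.l 19) (.c (.l 19) (.a .z (.l 19)))))) (.c (.a
(.c (.a (.c (.b .z (.l 6)) (.l 6)) (.c .z (.l 6))) (.l 6)) (.c .z (.a (.l 6) (.c .z (.a (.l 6) .z))))) (.l 6)))) (.b (.c (.a (.b (.c (.a .z (.b .z (.l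
19))) (.a (.b .z (.l 19)) (.l 19))) (.l 19)) (.l 19)) (.c (.a (.c (.l 19) (.a (.c (.l 19) .z) (.l 19))) (.l 19)) (.a (.c (.a (.c .z (.l 6)) .z) (.l
6)) (.c (.a (.c (.l 19) .z) (.l 19)) (.a (.c .z (.l 6)) .z))))) (.c (.l 19) (.c (.a (.c (.l 19) (.a .z (.c (.l 19) .z))) (.l 19)) (.a (.c (.a (.c (.a
(.l 6) .z) (.l 6)) (.c .z (.a (.l 6) .z))) (.l 6)) (.c (.a .z (.l 19)) (.a (.c (.a (.l 6) .z) (.l 6)) .z)))))))) (.c (.a (.b (.c (.a .z (.b (.c .z (.a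
.z (.b .z (.l 19)))) (.c (.a (.b .z (.c .z (.l 10))) (.c (.l 10) .z)) (.c .z (.b (.l 19) .z))))) (.a (.b (.c .z (.a (.b .z (.l 19)) (.l 19))) (.c (.a
(.b .z (.l 19)) (.l 19)) (.l 19))) (.l 19))) (.c (.a (.b (.c (.a (.b .z (.c .z (.l 10))) (.b (.c .z (.l 10)) (.l 10))) (.c (.l 10) (.b .z (.c (.l 10)
.z)))) (.l 10)) (.c (.l 10) (.b (.c (.b .z (.c (.l 10) .z)) .z) (.c (.l 10) (.b (.c (.l 10) .z) (.l 10)))))) (.c (.b (.c (.a .z (.b (.l 19) .z)) (.a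
(.b (.l 19) .z) (.l 19))) (.c (.a (.b .z (.l 10)) .z) .z)) (.b (.b (.l 19) (.b (.l 19) (.c (.l 19) .z))) .z)))) (.b (.c (.a (.b (.c .z (.l 19)) (.c
(.c (.c (.l 10) (.b .z (.l 10))) .z) (.c (.b (.l 19) .z) (.l 19)))) (.c (.c .z (.b (.l 19) .z)) (.l 19))) (.l 19)) (.c (.c (.b (.c (.a (.l 10) (.c (.l
10) (.a (.l 10) .z))) (.a (.b (.c (.l 10) .z) (.l 10)) .z)) (.a (.l 10) (.c (.l 10) (.a (.l 10) (.c (.l 10) .z))))) (.b (.c .z (.a (.b (.l 19) .z) (.l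
19))) (.a (.c (.b (.a (.l 10) .z) (.l 10)) .z) .z))) (.c (.b (.l 19) (.a (.c .z (.b (.l 19) .z)) (.b (.l 19) (.c (.l 19) .z)))) (.b (.l 19) (.b (.b
(.c (.l 19) .z) .z) .z)))))) (.c (.a (.c (.a (.c (.b (.l 19) (.b (.b (.l 19) .z) .z)) (.b (.l 19) .z)) (.b (.l 19) (.b (.b (.l 19) .z) .z))) (.a (.c
(.b (.a .z (.c (.l 19) .z)) (.a (.c .z (.b .z (.l 6))) .z)) (.b (.a (.c (.b .z (.l 6)) (.l 6)) .z) (.a (.l 6) (.c (.b .z (.l 6)) (.l 6))))) (.c (.b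
(.l 19) .z) (.a .z (.b (.c (.l 19) .z) .z))))) (.b (.l 19) (.b (.b (.c (.l 19) (.b (.l 19) (.c (.l 19) .z))) (.c (.b (.c (.l 19) .z) .z) .z)) (.b .z
(.c .z (.l 55)))))) (.a (.c (.a (.l 6) (.c (.a (.b (.c .z (.l 6)) (.l 6)) (.b .z (.c .z (.a (.l 6) .z)))) (.a (.l 6) (.b (.c (.a (.l 6) .z) (.l 6))
(.l 6))))) (.l 6)) (.c (.a (.c (.a (.b (.c (.l 19) .z) .z) (.c (.b (.l 19) .z) .z)) (.a (.c (.b .z (.a (.l 6) .z)) (.b (.a (.l 6) .z) (.l 6))) .z))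
(.c (.b (.l 19) .z) (.a (.c (.b (.l 19) .z) .z) (.b (.l 19) .z)))) (.a (.c (.a (.l 6) (.c (.a (.b .z (.l 6)) .z) (.l 6))) (.l 6)) (.c .z (.a (.c (.a
(.l 6) (.a (.l 6) .z)) (.l 6)) (.c .z (.a (.a (.l 6) .z) .z)))))))))))

theorem vQ41 : ev3 Q41 J3_1 J4_6 J4_11 = 224354210806213733439952 := by decide +kernel

noncomputable def Q90 : QT3 :=
(.c (.c (.b (.a (.c (.b (.c (.a (.l 19) (.a (.a (.l 19) .z) .z)) (.a (.c (.l 19) (.a .z (.c (.l 19) (.b .z (.l 19))))) (.a (.a (.l 19) .z) .z))) (.a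
(.c (.l 19) (.c (.l 19) (.a (.c (.l 19) (.b .z (.l 19))) (.l 19)))) (.c (.a (.a (.l 19) .z) .z) (.b (.a (.a (.l 19) .z) .z) (.a (.a (.l 19) .z)
.z))))) (.b (.a (.c (.c (.a (.c .z (.l 23)) .z) (.a (.l 23) (.c (.b (.l 23) .z) (.l 23)))) (.c (.c (.l 23) (.b (.c (.l 23) .z) .z)) (.c (.a (.b .z (.c
.z (.l 9))) .z) .z))) .z) (.a (.c (.c (.a .z (.c (.b .z (.l 19)) .z)) (.a (.c (.b (.l 23) .z) (.l 23)) .z)) (.b (.a (.c (.c .z (.c .z (.l 9))) (.c (.a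
(.l 9) .z) .z)) .z) (.a (.c (.c .z (.l 9)) .z) .z))) (.c (.b (.a (.c (.a (.l 19) .z) .z) .z) .z) (.b .z (.a .z (.c .z (.l 29)))))))) (.c .z (.b .z (.a
(.c .z (.b .z (.c .z (.l 29)))) (.c (.c (.a .z (.c (.b .z (.l 24)) (.b .z (.l 24)))) (.b .z (.b (.b .z (.l 24)) (.c (.l 24) .z)))) (.c .z (.b .z (.l
29)))))))) (.a (.c (.b (.a (.c (.b (.l 19) (.c (.l 19) (.b (.l 19) .z))) (.b (.c (.b (.l 19) (.c (.l 19) .z)) (.b (.c (.l 19) .z) .z)) .z)) (.c (.b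
(.a (.a (.l 19) .z) .z) (.a (.c (.a (.l 19) .z) .z) .z)) (.b (.a (.c (.a (.l 19) .z) .z) .z) .z))) (.a (.c .z (.b .z (.a .z (.c .z (.l 22))))) (.c (.b
.z (.a .z (.c .z (.b .z (.l 20))))) (.b (.a (.c .z (.a (.l 22) .z)) (.c (.b .z (.l 20)) (.l 20))) (.a (.a (.l 22) (.a .z (.l 20))) (.l 20)))))) (.b
(.a (.c .z (.b .z (.a .z (.c (.c (.l 7) .z) .z)))) (.c (.b .z (.a .z (.c (.c (.l 20) .z) .z))) (.b (.a .z (.c .z (.l 29))) (.c (.c (.c (.b .z (.l 7))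
(.l 7)) .z) (.a .z (.l 29)))))) (.a (.c (.b (.a (.c .z (.b .z (.c .z (.l 7)))) (.c (.b .z (.l 22)) (.c .z (.c .z (.l 7))))) (.a (.c .z (.c .z (.l 7)))
(.c (.c (.l 22) .z) (.c .z (.l 7))))) (.c (.c (.l 7) (.c (.b .z (.l 7)) .z)) (.c .z (.a .z (.l 31))))) (.c (.c (.a (.c (.a (.l 22) .z) (.a (.l 22)
.z)) .z) (.c .z (.b (.c .z (.b .z (.l 7))) (.c (.b .z (.l 7)) (.l 7))))) (.c (.c (.l 7) (.c (.b .z (.b .z (.l 7))) .z)) (.a (.a (.l 31) .z) (.l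
29))))))) (.c (.b .z (.a (.c .z (.c (.a (.b .z (.l 20)) .z) (.a (.c (.a (.l 20) .z) .z) .z))) .z)) (.c (.c (.a .z (.b (.a .z (.b (.c (.l 24) .z) .z))
.z)) (.c .z (.b .z (.a (.c .z (.b .z (.a (.l 7) .z))) .z)))) (.c (.c (.b (.c .z (.b .z (.a (.l 7) .z))) (.a (.l 7) (.c (.b .z (.l 7)) (.l 7)))) (.c .z
(.b (.l 29) (.a .z (.l 29))))) (.l 29)))))) (.b (.a (.c (.b (.a .z (.c .z (.b .z (.a .z (.c .z (.l 29)))))) (.a (.c .z (.b .z (.a (.c .z (.l 31)) (.l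
31)))) (.c (.b (.a .z (.c .z (.l 29))) (.a (.a (.l 31) .z) (.l 29))) (.a (.a (.l 31) (.a .z (.l 29))) (.l 29))))) (.b (.a .z (.b (.a .z (.c (.l 29)
.z)) (.c (.c (.a .z (.l 29)) .z) .z))) (.a (.b (.c (.a .z (.c (.l 31) .z)) (.c (.c (.c .z (.a (.l 10) .z)) .z) .z)) (.c (.c (.l 31) .z) (.c (.c (.a
(.c (.l 10) .z) .z) .z) .z))) (.c (.c (.a (.a (.l 31) .z) (.l 29)) (.c (.a .z (.l 29)) .z)) (.c (.c .z (.a .z (.l 41))) .z))))) (.c (.b (.a (.c (.b .z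
(.c .z (.b .z (.l 29)))) (.b (.c .z (.b .z (.l 29))) (.l 29))) (.c (.b .z (.c .z (.l 29))) (.l 29))) (.c (.b (.c (.b (.c .z (.l 29)) (.l 29)) (.l 29))
(.l 29)) (.l 29))) (.c (.c (.a (.c (.l 29) (.b (.l 29) (.a (.l 29) .z))) (.b (.c (.l 29) (.a (.l 29) .z)) (.c (.a (.l 29) .z) .z))) (.a (.c (.b (.a
(.l 29) .z) .z) .z) .z)) .z))) (.a (.b (.c (.a (.c (.b (.a .z (.l 31)) (.l 31)) (.l 31)) (.a (.a (.l 31) (.a .z (.l 29))) (.l 29))) (.c (.c (.c (.a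
(.l 31) (.a .z (.l 29))) (.a (.b (.l 31) .z) (.a .z (.l 29)))) (.a (.c .z (.a (.b (.c .z (.l 10)) (.l 10)) .z)) .z)) (.c (.a (.c (.a (.c (.a (.l 10)
.z) .z) .z) .z) (.c .z (.a .z (.l 41)))) (.a .z (.a .z (.l 41)))))) (.c (.a (.l 31) (.a (.a (.l 31) (.a .z (.l 29))) (.l 29))) (.c (.c (.a (.c (.b (.l
31) .z) .z) (.c (.a .z (.l 29)) .z)) (.a (.c (.a (.b (.c .z (.l 10)) (.l 10)) .z) (.a (.c (.l 10) .z) .z)) .z)) (.c (.a .z (.a .z (.l 41))) (.a .z (.a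
.z (.l 41))))))) (.c (.c (.l 29) (.c (.l 29) (.a (.c (.l 29) (.b (.l 29) (.a (.l 29) .z))) (.b (.c (.l 29) (.a (.l 29) .z)) (.c (.a (.l 29) .z)
.z))))) (.c (.c (.a (.c (.b (.a (.l 29) .z) .z) .z) (.b .z (.c (.a .z (.b .z (.l 24))) .z))) (.a (.c (.b .z (.a .z (.l 27))) (.b .z (.a .z (.l 27))))
(.c .z (.b .z (.b .z (.l 27)))))) (.c (.a (.c .z (.a (.l 41) (.c .z (.l 41)))) .z) (.a (.a (.b (.c (.l 41) .z) (.c (.l 41) .z)) .z) (.c .z (.b .z (.l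
43)))))))))) (.b (.a (.b (.a (.c (.c .z (.c (.c .z (.c .z (.a (.c .z (.l 22)) .z))) (.c (.c (.a (.c (.l 22) .z) .z) .z) .z))) .z) (.c (.c (.c .z (.c
(.a (.a (.l 49) .z) (.l 47)) .z)) .z) .z)) (.c (.c (.c .z (.c (.a .z (.c (.a .z (.l 47)) .z)) (.a (.c (.a (.c .z (.l 16)) .z) (.a (.c (.l 16) .z) .z))
.z))) (.c (.a (.c .z (.a (.c .z (.b (.l 22) .z)) .z)) .z) .z)) .z)) (.c (.c (.c .z (.a (.b (.c (.c (.c .z (.l 47)) .z) .z) .z) .z)) .z) .z)) (.c (.c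
(.c (.b (.c (.a .z (.c (.a .z (.b .z (.l 43))) (.a .z (.l 43)))) (.a .z (.a .z (.c (.b .z (.l 43)) .z)))) (.c (.a (.a .z (.a .z (.c (.l 41) .z))) (.a
.z (.l 43))) (.a .z (.b (.c (.a .z (.l 43)) .z) .z)))) (.b (.a (.a (.c (.c .z (.a (.c .z (.l 16)) .z)) (.c (.a (.l 16) .z) .z)) .z) .z) (.c (.a (.b
(.c .z (.a (.a (.l 16) .z) .z)) .z) .z) (.a (.b (.a (.a (.c (.l 16) .z) .z) .z) .z) .z)))) (.a (.c .z (.a .z (.b .z (.c (.b .z (.c (.c .z (.l 23))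
.z)) .z)))) (.a (.c (.b (.c .z (.b (.c (.l 46) .z) .z)) .z) (.b .z (.c (.b (.c .z (.c (.l 23) .z)) (.c .z (.c (.l 23) .z))) .z))) (.c (.c .z (.b (.b
(.c (.l 46) .z) .z) .z)) (.c (.b .z (.c .z (.b .z (.a (.l 23) .z)))) (.b .z (.c (.a (.c (.l 23) .z) .z) .z))))))) .z)))

theorem vQ90 : ev3 Q90 J4_5 J4_6 J2_3 = 176318251746352003077058 := by decide +kernel

noncomputable def Q63 : QT3 :=
(.c (.b (.a (.c (.b (.c (.a (.b (.c (.a (.b (.c .z (.l 6)) (.l 6)) (.l 6)) (.c (.l 6) (.c (.a (.l 6) .z) .z))) (.c (.l 6) (.c (.l 6) (.a (.l 6) (.c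
(.l 6) .z))))) (.c (.l 6) (.c (.a (.c (.l 6) .z) .z) .z))) (.c (.a (.c .z (.l 51)) .z) (.a (.a (.b (.l 51) .z) (.c (.l 51) .z)) .z))) (.c (.c (.l 6)
(.a (.c (.l 6) (.a (.l 6) (.c (.l 6) (.b .z (.l 6))))) (.c (.a (.l 6) (.c (.l 6) .z)) (.a (.c (.b .z (.l 6)) .z) .z)))) (.c (.a (.c (.a (.c (.b .z (.l
6)) .z) .z) .z) .z) .z))) (.c .z (.b (.c .z (.c (.b .z (.c .z (.b .z (.b .z (.l 9))))) (.b (.c .z (.b .z (.b .z (.l 9)))) (.b (.c (.b .z (.l 9)) (.l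
9)) (.l 9))))) (.c (.b (.c .z (.b .z (.c .z (.b .z (.l 9))))) (.c (.b .z (.c .z (.b .z (.l 9)))) (.b (.c (.b .z (.l 9)) (.l 9)) (.l 9)))) (.b (.c (.b
(.c (.b .z (.l 9)) (.l 9)) (.l 9)) (.l 9)) (.l 9)))))) (.c (.c (.c (.a (.c (.l 6) (.a (.c (.l 6) (.b .z (.l 6))) (.c (.a (.b .z (.l 6)) .z) .z))) (.c
(.a (.c (.l 6) (.a (.b .z (.l 6)) .z)) .z) .z)) (.a (.c (.a .z (.c .z (.l 32))) (.a .z (.b .z (.l 32)))) (.a (.a (.l 32) (.a (.l 32) .z)) (.a .z (.a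
(.c .z (.l 23)) (.l 23)))))) (.a (.a (.b .z (.b .z (.c (.l 32) .z))) (.a (.b .z (.b .z (.l 32))) (.c (.b .z (.l 32)) (.b .z (.l 32))))) (.a (.a (.c
(.b .z (.l 32)) .z) (.c .z (.a .z (.b (.l 23) .z)))) (.a (.c (.a .z (.l 23)) (.l 23)) (.l 23))))) (.c (.a (.a .z (.a .z (.b (.c .z (.a .z (.l 23)))
.z))) (.a (.a (.c (.b (.a .z (.l 23)) .z) (.b (.l 23) (.a .z (.l 23)))) (.l 23)) (.l 23))) (.c (.b (.c (.a (.a .z (.a .z (.l 23))) (.l 23)) (.b (.a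
(.a .z (.l 23)) (.l 23)) (.c (.a .z (.l 23)) .z))) (.c (.b (.c (.a .z (.l 23)) .z) (.c .z (.b .z (.b .z (.l 9))))) (.b (.c .z (.b .z (.l 9))) (.l
9)))) (.b (.c (.b (.c (.a .z (.l 23)) .z) (.c .z (.b .z (.l 9)))) (.b (.c .z (.b .z (.l 9))) (.l 9))) (.l 9)))))) (.c (.c (.a (.c (.l 6) (.a (.l 6)
(.c (.l 6) (.a (.b (.c (.l 6) (.a (.l 6) .z)) (.l 6)) (.b (.c (.a (.l 6) .z) .z) (.c (.l 6) (.a (.l 6) .z))))))) (.c (.a (.c (.l 6) (.a (.l 6) (.c (.l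
6) (.a (.l 6) .z)))) (.c (.a (.c (.l 6) (.a (.l 6) (.a (.l 6) .z))) (.a (.c (.a (.l 6) .z) .z) .z)) .z)) (.a (.c (.a (.b (.c (.a (.l 6) .z) .z) (.c
(.l 6) (.a (.l 6) .z))) .z) (.a .z (.c .z (.l 32)))) (.a (.c (.c .z (.l 32)) (.l 32)) (.a .z (.a .z (.l 23))))))) (.a (.c (.a (.b (.c (.a (.l 6) (.c
(.l 6) .z)) (.a (.b .z (.c (.l 6) .z)) .z)) (.c (.l 6) (.a (.l 6) (.b .z (.c (.l 6) .z))))) (.c (.a (.b .z (.c (.l 6) .z)) .z) (.a .z (.b (.l 32)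
.z)))) (.a (.b .z (.c (.a (.b .z (.c (.l 6) .z)) .z) .z)) (.c (.b .z (.a .z (.l 32))) .z))) (.a (.c (.c (.a (.b (.l 32) .z) (.l 32)) (.l 32)) (.l 32))
(.a (.a (.c (.l 32) (.b .z (.l 32))) (.c (.a (.l 32) .z) .z)) (.a (.c .z (.a (.b (.l 23) .z) (.l 23))) (.l 23)))))) (.a (.c (.c (.a (.b .z (.c .z (.b
(.b .z (.c .z (.l 9))) (.l 9)))) (.b .z (.b .z (.c .z (.b (.c .z (.l 9)) (.l 9)))))) (.b (.b (.c .z (.b .z (.c .z (.b .z (.l 9))))) (.c (.b .z (.c .z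
(.b .z (.l 9)))) (.b (.c (.b .z (.l 9)) (.l 9)) (.l 9)))) (.b (.c (.b (.c (.b .z (.l 9)) (.l 9)) (.l 9)) (.l 9)) (.l 9)))) (.b (.c (.b (.c (.b (.c (.b
.z (.l 9)) (.l 9)) (.l 9)) (.l 9)) (.l 9)) (.l 9)) (.l 9))) (.c (.b (.c (.a (.a (.b .z (.l 32)) (.l 32)) (.a (.a .z (.a .z (.l 23))) (.l 23))) (.c (.b
(.a .z (.a .z (.l 23))) .z) (.b (.c .z (.b .z (.b .z (.l 9)))) (.c (.b .z (.l 9)) (.l 9))))) (.c (.b (.c (.a (.l 32) (.a .z (.l 23))) .z) (.c .z (.b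
(.c .z (.l 9)) (.l 9)))) (.b (.c (.b (.c .z (.l 9)) (.l 9)) (.l 9)) (.l 9)))) (.b (.c (.c (.b (.c (.b (.b .z (.l 9)) (.l 9)) (.l 9)) (.l 9)) (.l 9))
(.l 9)) (.l 9)))))) (.b (.c (.a (.c (.b (.c (.c (.b (.c (.b (.b .z (.l 9)) (.l 9)) (.l 9)) (.l 9)) (.l 9)) (.l 9)) (.l 9)) (.a (.c (.l 9) (.a (.c (.l
9) (.a (.c (.l 9) .z) (.l 9))) (.l 9))) (.l 9))) (.c (.l 9) (.c (.a (.l 9) (.b (.c (.l 9) (.a (.l 9) (.b (.c (.l 9) .z) (.l 9)))) (.l 9))) (.b (.a (.c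
(.l 9) (.b (.a (.c (.l 9) .z) .z) (.a (.l 9) (.c (.l 9) .z)))) (.c (.a (.b .z (.l 9)) .z) .z)) (.a (.l 9) (.c (.l 9) (.a (.b (.c (.l 9) .z) (.l 9))
(.b .z (.c (.l 9) .z))))))))) (.a (.c (.a (.c (.a (.c (.a .z (.c (.b .z (.l 9)) .z)) (.a (.l 11) (.b (.c .z (.l 11)) .z))) (.c (.a (.b (.c (.l 9) .z)
(.l 9)) (.l 9)) (.a .z (.b .z (.c (.l 9) .z))))) (.a (.l 11) (.c (.b (.a (.l 11) (.c .z (.l 11))) (.a (.c .z (.l 11)) .z)) (.b (.l 11) (.a (.l 11) (.c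
.z (.l 11))))))) (.c (.a (.c (.b (.b (.b .z (.l 9)) (.l 9)) (.l 9)) (.b .z (.l 9))) (.b (.b .z (.c (.l 9) .z)) (.l 9))) (.a (.c (.b .z (.a .z (.b .z
(.l 9)))) (.b (.a (.c .z (.l 11)) .z) .z)) (.c (.b .z (.b .z (.l 9))) .z)))) (.a (.l 11) (.c (.a (.c (.b (.l 11) (.a (.l 11) .z)) (.l 11)) (.b (.c (.a
(.c .z (.l 11)) .z) (.a (.l 11) (.b (.l 11) .z))) (.c .z (.a (.b (.l 11) .z) .z)))) (.a (.l 11) (.b (.l 11) (.c (.a (.l 11) (.b (.l 11) .z)) (.l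
11))))))) (.c (.b (.c (.a (.c (.b .z (.a (.c (.l 9) .z) .z)) .z) .z) (.a (.b .z (.c .z (.c .z (.l 15)))) .z)) (.c (.a (.b (.c (.a (.l 9) (.c (.l 9)
.z)) .z) (.c (.l 9) (.a (.l 9) .z))) (.c (.a (.b .z (.c (.l 9) .z)) .z) .z)) (.a (.b (.c .z (.a .z (.l 15))) .z) (.a (.c .z (.l 15)) (.c (.b .z (.l
15)) (.l 15)))))) (.a (.c (.a (.b .z (.c (.b (.l 15) .z) (.a .z (.l 15)))) (.b (.c (.b .z (.l 15)) (.a .z (.l 15))) (.l 15))) (.a (.b (.c (.a (.b (.l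
11) .z) .z) (.l 11)) (.c .z (.a (.b (.l 11) .z) .z))) (.b .z (.c (.a .z (.l 15)) .z)))) (.c (.b (.c (.b (.c .z (.l 15)) (.l 15)) (.l 15)) (.l 15)) (.a
(.b (.c (.l 15) .z) (.l 15)) (.l 15))))))) (.a (.c (.l 9) (.c (.a (.c (.a (.c (.a (.c (.b .z (.l 9)) .z) (.b (.c (.l 9) .z) (.l 9))) (.a (.b (.c .z
(.l 11)) .z) .z)) (.c (.l 9) (.a (.b (.c (.l 9) .z) (.l 9)) (.l 9)))) (.a (.c (.a (.b (.l 11) (.c .z (.l 11))) (.b (.c .z (.l 11)) .z)) (.l 11)) (.c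
(.a .z (.b .z (.l 9))) (.a (.b (.c .z (.l 11)) .z) .z)))) (.c (.l 9) (.a (.c (.l 9) (.b (.a .z (.c (.l 9) .z)) (.a (.c (.l 9) .z) (.l 9)))) (.l 9))))
(.a (.c (.a (.l 11) (.c (.a (.l 11) (.b (.l 11) .z)) (.l 11))) (.b (.c (.l 11) (.a (.b (.l 11) (.c (.l 11) .z)) (.l 11))) (.a (.c (.b (.c (.l 11) .z)
.z) .z) (.c (.l 11) (.b (.a .z (.l 11)) .z))))) (.a (.c (.b (.c .z (.a (.l 11) .z)) (.c (.a .z (.b .z (.l 9))) .z)) (.b (.l 11) (.a (.l 11) (.c .z (.l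
11))))) (.c (.b (.c (.a (.b .z (.l 9)) (.b .z (.l 9))) .z) (.a (.c (.l 9) (.b .z (.l 9))) (.l 9))) (.b (.a (.c .z (.l 11)) .z) (.a .z (.c (.b .z (.l
9)) .z)))))))) (.b (.c (.l 9) (.a (.c (.c (.l 9) (.b (.a (.c (.l 9) (.b .z (.l 9))) .z) (.a (.l 9) (.c (.l 9) (.a (.l 9) .z))))) (.a (.c (.b .z (.c
(.b .z (.l 9)) .z)) .z) (.c (.b (.c .z (.l 15)) .z) (.l 15)))) (.c (.c (.a (.c (.l 9) (.b .z (.l 9))) (.c (.b .z (.l 9)) .z)) (.a .z (.c .z (.b (.l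
15) .z)))) (.c (.a (.b (.l 15) (.c .z (.l 15))) (.l 15)) (.l 15))))) (.c (.l 9) (.a (.c (.l 9) (.a (.c (.b (.c (.l 9) (.b .z (.l 9))) (.l 9)) (.a (.c
(.b .z (.l 9)) (.b .z (.l 9))) (.b .z (.c (.l 9) .z)))) (.c (.b (.c (.a (.l 9) .z) .z) (.c (.l 9) (.a (.l 9) .z))) .z))) (.b (.c (.c (.a (.l 9) (.c
(.l 9) (.a (.l 9) .z))) (.a (.c (.l 9) .z) .z)) (.c (.a .z (.c .z (.l 15))) (.l 15))) (.c (.a (.l 9) (.b (.c (.l 9) .z) (.c (.l 9) (.a (.l 9) .z))))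
.z))))))))

theorem vQ63 : ev3 Q63 J4_3 J4_6 J3_6 = 322806686661853045935082 := by decide +kernel

noncomputable def Q196 : QT3 :=
(.c (.a (.b (.c .z (.a (.b .z (.a (.b .z (.c (.c .z (.c .z (.a (.l 43) .z))) (.c (.c (.a (.c (.l 43) .z) .z) .z) .z))) .z)) .z)) (.c (.a (.b (.c .z
(.a (.b (.c .z (.a (.b (.c .z (.l 35)) (.l 35)) (.b .z (.l 35)))) (.c (.c .z (.c .z (.l 35))) (.l 35))) (.c .z (.b (.b .z (.a (.c .z (.l 35)) .z)) (.a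
(.l 35) (.b (.c .z (.l 35)) (.c .z (.l 35)))))))) (.c (.a (.b (.c (.a (.b .z (.l 59)) .z) .z) (.c (.a (.l 59) (.b .z (.l 59))) .z)) (.b .z (.a .z (.b
(.a (.c .z (.c .z (.l 24))) (.c .z (.c .z (.l 24)))) .z)))) (.c (.b (.c (.a .z (.b (.a .z (.c .z (.l 24))) (.l 24))) (.a (.c (.a (.l 35) .z) (.l 35))
(.c .z (.a (.l 35) .z)))) (.a (.c .z (.c (.a (.l 35) .z) (.l 35))) (.c (.c (.a (.a .z (.l 24)) (.b (.l 24) .z)) (.a (.c (.l 24) .z) (.b (.l 24) .z)))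
.z))) (.b (.a (.l 35) (.c (.l 35) (.b (.l 35) (.a (.l 35) .z)))) (.a (.c (.b (.l 35) (.a (.l 35) .z)) (.b (.a (.l 35) .z) .z)) (.c (.b (.a (.l 35) .z)
.z) .z)))))) (.c (.b .z (.c .z (.b (.a .z (.a .z (.b .z (.c .z (.l 44))))) .z))) (.b .z (.c (.b (.a (.c (.a (.b (.c .z (.l 24)) (.l 24)) (.b (.c .z
(.l 24)) .z)) (.c (.a (.l 24) (.b (.l 24) .z)) (.a .z (.b (.l 24) .z)))) (.c (.a .z (.b .z (.l 44))) .z)) .z) .z)))) (.a (.b (.c (.c (.b (.a (.c (.l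
35) (.a (.c (.l 35) .z) (.c (.l 35) .z))) (.a (.c (.l 35) .z) .z)) (.a (.c (.l 35) (.a (.l 35) (.c (.l 35) .z))) (.c (.a (.l 35) .z) .z))) .z) (.b (.c
.z (.a .z (.b .z (.c .z (.c .z (.l 27)))))) (.c .z (.c (.a (.c .z (.l 27)) (.c .z (.b .z (.l 27)))) (.l 27))))) (.c (.b (.c (.a (.c (.b (.l 35) (.a
(.l 35) .z)) (.b (.a (.l 35) .z) .z)) (.c (.b (.a (.l 35) .z) .z) .z)) .z) (.c .z (.c .z (.c (.b .z (.c (.a (.b .z (.l 10)) .z) (.a (.l 10) .z)))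
.z)))) (.c .z (.c (.a (.c (.a (.c .z (.l 27)) .z) (.l 27)) (.c .z (.l 27))) (.l 27))))) (.b (.c .z (.c .z (.c .z (.b .z (.a (.b (.c .z (.l 27)) (.l
27)) (.a (.c .z (.l 27)) .z)))))) (.a (.c .z (.c .z (.c (.c .z (.c .z (.l 27))) (.b (.l 27) (.c (.l 27) .z))))) (.c .z (.b (.c .z (.c .z (.c (.a (.l
27) .z) .z))) .z))))))) (.b .z (.c (.a (.b .z (.c (.c .z (.b (.a (.b .z (.c .z (.a (.l 44) .z))) .z) .z)) .z)) .z) .z))) (.a (.b (.c (.a (.b .z (.c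
(.b .z (.c (.a .z (.b .z (.c .z (.l 27)))) .z)) (.b (.a (.c .z (.c (.c (.l 43) .z) .z)) (.c .z (.c (.c (.c (.l 43) .z) .z) .z))) (.c .z (.c (.c (.a
(.c (.l 43) .z) .z) .z) .z))))) (.b .z (.c (.a (.b .z (.c (.c .z (.c (.b .z (.l 27)) .z)) .z)) .z) (.a (.b .z (.c (.c (.c (.c (.b .z (.l 19)) .z) .z)
.z) .z)) (.b .z (.c (.a (.b .z (.c (.c (.l 19) .z) .z)) .z) .z)))))) .z) (.a (.b (.c (.c (.b (.c (.a (.b (.c .z (.l 27)) (.l 27)) (.c (.b (.c .z (.l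
27)) (.l 27)) (.c (.l 27) .z))) (.c .z (.c .z (.a (.b .z (.c .z (.l 19))) (.c .z (.l 19)))))) (.c (.c (.l 27) (.c (.a (.l 27) .z) .z)) (.c .z (.c (.c
.z (.b .z (.l 19))) (.l 19))))) (.c (.c (.b (.c (.a (.b .z (.c (.l 19) .z)) (.b (.c (.l 19) .z) (.l 19))) .z) (.c (.l 19) (.b (.a .z (.c (.l 19) .z))
(.a (.c (.l 19) .z) (.l 19))))) (.b (.c .z (.a (.a (.l 43) .z) .z)) (.c .z (.b (.a (.l 43) .z) .z)))) .z)) .z) (.c (.c (.c (.c (.b (.c (.l 27) (.a (.l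
27) .z)) (.c (.a (.l 27) .z) .z)) .z) (.b (.c .z (.c (.c (.b .z (.l 19)) (.l 19)) (.l 19))) (.c (.c .z (.c (.b .z (.a (.l 19) .z)) (.b (.a (.l 19) .z)
(.l 19)))) (.b (.l 19) (.c (.l 19) (.b (.c (.l 19) .z) .z)))))) (.c (.c (.b (.b (.l 19) (.c (.l 19) (.b (.l 19) (.c (.l 19) .z)))) (.b (.c (.b (.l 19)
.z) .z) .z)) (.b (.c (.b (.a (.c (.l 19) .z) .z) .z) .z) .z)) .z)) .z)) (.b (.c (.c (.c (.c (.c (.b (.l 27) (.a (.l 27) (.b (.l 27) .z))) (.b (.a (.l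
27) (.c (.l 27) .z)) (.a (.c (.l 27) .z) .z))) (.c (.b (.a (.c (.l 27) .z) .z) .z) .z)) (.c .z (.c (.b .z (.c .z (.b .z (.b .z (.l 19))))) (.b (.c (.b
.z (.b .z (.l 19))) (.l 19)) (.l 19))))) (.c (.c (.b (.c (.l 19) (.a (.b .z (.c (.l 19) .z)) (.c (.a (.l 19) .z) .z))) (.c (.a (.l 19) (.c (.l 19) (.a
(.l 19) .z))) (.a (.c (.l 19) (.a (.l 19) .z)) .z))) .z) .z)) .z) (.a (.b (.c (.c (.c (.c (.c (.b (.l 27) .z) .z) .z) (.c .z (.c (.c .z (.l 19)) (.l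
19)))) (.c (.c (.c (.l 19) (.a (.b (.l 19) .z) (.c (.l 19) .z))) .z) .z)) .z) (.c (.c (.c .z (.c .z (.c (.l 19) (.b (.l 19) (.c (.l 19) .z))))) .z)
.z)) (.b (.c (.c (.c .z (.c .z (.c (.c .z (.l 19)) (.l 19)))) (.a (.c (.c (.c (.l 19) .z) .z) .z) .z)) .z) (.c (.c (.a (.b (.c .z (.c .z (.l 19))) (.c
.z (.a (.c .z (.l 19)) .z))) (.b (.c .z (.a (.c .z (.l 19)) .z)) .z)) .z) .z)))))) (.b .z (.c (.a (.b (.c (.a (.b (.c .z (.a (.b .z (.c .z (.c .z (.l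
19)))) .z)) (.c .z (.c .z (.c .z (.a (.l 19) (.c (.l 19) .z)))))) .z) .z) (.a (.b (.c (.a (.b (.c .z (.c .z (.c .z (.l 19)))) .z) .z) .z) (.c .z (.a
(.b .z (.c (.c (.c .z (.l 20)) .z) .z)) (.b (.c (.c (.c .z (.l 20)) .z) .z) (.c (.c (.c .z (.l 20)) .z) .z))))) (.b (.c .z (.a (.b .z (.c (.c (.c .z
(.l 20)) .z) .z)) .z)) .z))) .z) .z))))

theorem vQ196 : ev3 Q196 J3_4 J3_4 J2_3 = 130293522122989939199919 := by decide +kernel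

noncomputable def Q140 : QT3 :=
(.b (.b (.c (.c (.b (.c (.a (.c (.c (.a (.c .z (.b (.l 14) .z)) (.a (.c .z (.l 14)) (.l 14))) (.l 14)) (.l 14)) (.a (.l 14) (.c (.a (.l 14) (.c (.l
14) (.a (.l 14) (.b (.l 14) .z)))) (.a (.c (.l 14) (.a (.l 14) .z)) (.c (.a (.b (.l 14) .z) .z) .z))))) (.a (.c (.l 14) (.c (.l 14) (.a (.b (.c (.l
14) (.b .z (.l 14))) (.l 14)) (.a (.l 14) (.c (.a (.l 14) .z) .z))))) (.a (.c (.a (.l 14) (.c (.a (.l 14) (.c (.l 14) .z)) (.a (.c (.l 14) .z) .z)))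
(.a (.c (.c (.a (.l 14) .z) .z) (.c .z (.a .z (.l 19)))) (.c (.a .z (.c .z (.l 19))) (.l 19)))) (.c (.a .z (.c (.a (.c .z (.l 15)) (.l 15)) (.l 15)))
(.c (.a (.c (.a (.l 19) .z) (.l 19)) (.c (.a .z (.l 15)) .z)) (.a (.l 19) (.c (.a (.l 19) .z) (.l 19)))))))) (.a (.c (.c (.c (.a .z (.a .z (.c .z (.l
14)))) (.a (.b (.c (.b (.l 14) .z) (.l 14)) (.c .z (.b (.l 14) .z))) (.a (.b (.l 14) (.c .z (.l 14))) (.l 14)))) (.l 14)) (.c (.b (.l 14) (.a (.c (.l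
14) (.b (.c (.l 14) .z) .z)) (.c (.l 14) (.a (.b (.l 14) .z) (.l 14))))) (.b (.a (.c (.b (.l 14) (.c (.l 14) .z)) .z) (.c (.l 14) .z)) (.a (.c .z (.b
(.c .z (.l 18)) (.c .z (.l 18)))) .z)))) (.c (.a (.c (.l 14) (.a (.l 14) (.c (.l 14) (.a (.l 14) (.b (.l 14) .z))))) (.c (.a (.l 14) (.c (.a (.l 14)
(.b (.l 14) .z)) (.a (.b (.l 14) .z) .z))) (.a (.c (.a (.l 14) .z) .z) (.c .z (.a (.b .z (.l 15)) (.l 15)))))) (.a (.c (.a (.c (.l 14) (.a (.l 14)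
.z)) (.c (.a (.c (.l 14) .z) .z) .z)) (.b (.a .z (.c (.a .z (.l 19)) (.c (.l 19) .z))) (.a .z (.c (.c (.l 19) .z) .z)))) (.b (.a (.c .z (.c (.c .z (.l
19)) (.c (.l 19) .z))) (.c (.l 15) .z)) (.a (.c (.c (.a .z (.l 15)) .z) .z) (.c (.b (.l 15) (.a (.l 15) .z)) .z))))))) (.a (.b (.c (.c (.b .z (.a (.c
(.b (.c (.l 14) .z) .z) .z) .z)) .z) (.c (.b .z (.a .z (.c (.a .z (.a .z (.l 22))) .z))) (.a (.c (.c (.a (.l 48) .z) (.a (.l 48) .z)) .z) .z))) (.c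
(.c (.b (.a (.c (.b .z (.c (.l 18) .z)) .z) .z) (.a (.c (.c (.l 18) .z) .z) .z)) (.b (.a .z (.c .z (.a .z (.a (.l 22) .z)))) .z)) .z)) (.b (.a (.c (.c
(.c (.b (.l 19) (.c (.l 19) .z)) (.b (.c (.b (.l 19) .z) .z) .z)) .z) (.c .z (.a (.b (.c .z (.l 31)) .z) .z))) (.c (.b (.c (.c (.l 19) .z) .z) .z)
.z)) (.a .z (.c .z (.b (.a .z (.c .z (.c (.c (.l 25) .z) .z))) (.a (.c (.b .z (.c .z (.l 25))) .z) (.c (.c .z (.l 25)) .z)))))))) .z) (.c (.c (.b (.a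
(.c (.c (.a .z (.c (.a (.c (.b .z (.l 26)) .z) .z) (.a .z (.b (.l 14) (.a .z (.l 14)))))) (.b (.a (.c (.c .z (.l 14)) (.b (.l 14) (.c (.l 14) .z)))
(.l 14)) (.a .z (.c (.a .z (.l 14)) (.a .z (.b (.l 14) .z)))))) (.b (.c (.a .z (.c (.a .z (.b (.l 14) .z)) .z)) (.a (.c .z (.c (.a .z (.l 18)) (.l
18))) .z)) (.c .z (.b (.a (.c .z (.l 18)) .z) (.a (.c .z (.b (.l 18) .z)) .z))))) (.c (.a (.c (.a (.c (.a (.c .z (.l 14)) (.l 14)) (.l 14)) (.l 14))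
(.a (.l 14) (.c (.a (.l 14) (.b (.l 14) .z)) (.a (.b (.l 14) .z) .z)))) (.b (.a (.c (.c (.l 14) (.a (.l 14) .z)) .z) (.c .z (.b (.c .z (.l 15)) (.a
(.l 15) .z)))) (.a (.c (.c (.a (.l 14) .z) .z) .z) .z))) (.a (.b (.c (.a (.c (.a (.l 14) .z) .z) .z) .z) .z) (.b (.a (.c (.b (.c (.l 15) .z) .z) .z)
.z) .z)))) (.a (.c .z (.b .z (.c .z (.a .z (.b .z (.a .z (.l 18))))))) (.a (.c (.b (.c (.a (.c (.a .z (.l 14)) (.l 14)) (.l 14)) (.a (.c (.b (.l 14)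
.z) .z) .z)) (.c (.a .z (.b (.c (.l 14) .z) .z)) .z)) .z) (.c (.b (.a .z (.c .z (.a (.b .z (.l 17)) (.c (.l 17) .z)))) (.a (.c .z (.b .z (.c (.l 17)
.z))) (.c (.a .z (.c .z (.l 17))) (.c (.b (.l 17) .z) .z)))) .z)))) (.a (.b (.b (.c (.c (.a (.c (.c (.a (.l 18) .z) .z) .z) (.a .z (.l 42))) .z) .z)
(.c (.c (.b (.a .z (.a .z (.l 42))) .z) .z) (.b (.a .z (.c .z (.a (.c .z (.l 26)) .z))) (.a .z (.c .z (.a (.c .z (.l 26)) .z)))))) (.b (.c (.c (.a (.b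
.z (.c .z (.l 40))) .z) (.a (.c (.l 40) .z) .z)) .z) (.c (.c (.a (.c (.c .z (.l 40)) (.l 40)) (.a .z (.c (.a .z (.l 18)) .z))) (.a (.c (.l 40) (.a (.l
40) .z)) .z)) .z))) (.b (.a (.b .z (.c (.a .z (.c .z (.c .z (.c .z (.l 22))))) .z)) (.c (.b (.a (.c .z (.b .z (.c .z (.l 22)))) (.c .z (.c (.c .z (.l
22)) (.c (.l 22) .z)))) (.c .z (.c (.a .z (.l 22)) (.a (.c (.l 22) .z) .z)))) (.c (.c (.a .z (.c .z (.b (.l 25) .z))) (.b (.c (.l 25) .z) .z)) .z)))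
(.a (.b .z (.c (.a (.c (.b .z (.a (.l 18) .z)) .z) .z) .z)) (.b (.c (.c .z (.c (.a (.c .z (.l 22)) (.c (.l 22) .z)) (.a (.c (.l 22) .z) .z))) .z) (.c
(.a .z (.c (.c .z (.c .z (.l 22))) .z)) .z)))))) .z)) (.b (.c (.c (.a (.b (.c .z (.b (.c .z (.a (.c .z (.b .z (.l 40))) (.a .z (.c (.l 18) (.a .z (.l
18)))))) (.c (.a .z (.a .z (.c .z (.a .z (.l 18))))) (.a (.c .z (.l 40)) (.a .z (.c (.a .z (.l 18)) .z)))))) (.c (.c (.a (.b .z (.c (.l 58) .z)) .z)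
.z) (.b (.c .z (.a (.l 40) .z)) (.c (.a (.c .z (.a (.l 40) .z)) .z) (.a (.c (.a (.l 40) .z) .z) .z))))) (.b (.a (.c (.b (.c (.a .z (.b .z (.c .z (.l
17)))) .z) .z) (.b (.a (.c .z (.b (.a (.l 18) .z) (.a (.l 18) .z))) .z) (.a (.c (.c .z (.a (.l 18) .z)) .z) .z))) .z) .z)) (.a (.b (.c (.b (.a (.c (.l
40) (.c (.a (.l 40) .z) (.a (.l 40) .z))) .z) (.a (.c (.l 40) (.c (.a (.l 40) .z) .z)) .z)) .z) (.c (.b (.a (.c (.c (.a (.l 40) .z) .z) .z) .z) .z)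
.z)) (.b (.a .z (.a .z (.c (.b (.c (.a .z (.c .z (.l 22))) .z) .z) .z))) (.a (.c (.b (.a .z (.c .z (.c .z (.b .z (.l 23))))) (.a .z (.c .z (.c .z (.a
.z (.l 23)))))) .z) .z)))) (.a (.b .z (.c (.b (.c (.a (.b .z (.c (.c (.l 31) .z) .z)) (.c (.c (.c .z (.l 31)) .z) .z)) .z) (.c (.a (.c (.c (.c (.l 31)
.z) .z) .z) (.c (.c (.c (.l 31) .z) .z) .z)) .z)) .z)) (.b (.a (.c (.b (.a (.c .z (.c (.c (.l 41) .z) .z)) .z) .z) .z) .z) .z))) (.c (.a (.c (.b (.c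
.z (.b (.c (.a (.c (.a (.l 40) .z) .z) .z) .z) .z)) .z) .z) (.c .z (.a .z (.b (.c .z (.a (.b .z (.c .z (.c .z (.l 28)))) (.b .z (.c .z (.c (.l 28)
.z))))) (.c .z (.c (.b .z (.a .z (.c .z (.l 28)))) (.b (.a (.c .z (.l 28)) (.c (.l 28) .z)) .z))))))) (.a .z (.a .z (.b (.c (.c (.c (.b .z (.c (.a (.l
28) .z) .z)) .z) .z) .z) .z))))))

theorem vQ140 : ev3 Q140 J3_0 J3_6 J3_7 = 139953918918078764701909 := by decide +kernel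

noncomputable def Q24 : QT3 :=
(.c (.b (.a (.c (.b (.c (.c .z (.a (.a (.l 68) .z) .z)) (.a (.b (.l 68) .z) .z)) (.c .z (.b .z (.a (.a (.c .z (.l 28)) .z) .z)))) (.a (.b (.c .z (.b
.z (.c (.a (.l 28) .z) (.l 28)))) (.c (.b (.c (.a (.l 28) .z) (.a (.l 28) .z)) (.l 28)) (.l 28))) (.a (.b .z (.c .z (.a (.b .z (.l 28)) .z))) .z)))
(.c (.a (.b .z (.c (.a .z (.b .z (.c .z (.b .z (.l 24))))) (.a .z (.b .z (.c (.l 24) .z))))) (.b .z (.c (.b .z (.c .z (.b .z (.l 24)))) (.a (.b .z (.l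
24)) (.b (.c .z (.b .z (.l 24))) (.l 24)))))) (.a .z (.b .z (.a (.c (.b .z (.c (.a .z (.l 24)) .z)) .z) (.c (.b (.a (.c (.l 24) .z) (.l 24)) (.l 24))
(.b .z (.a .z (.c (.l 24) .z))))))))) (.a (.c (.b (.c (.b (.a (.c (.b .z (.l 28)) .z) .z) (.c (.l 28) (.b .z (.c (.l 28) .z)))) (.b (.a (.c .z (.a (.l
28) .z)) .z) (.a .z (.c .z (.a .z (.b .z (.l 24))))))) (.c (.l 28) (.b (.a (.c (.l 28) .z) .z) (.c (.l 28) (.b (.a (.l 28) .z) (.l 28)))))) (.b (.c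
(.b (.a (.a (.l 28) (.a (.l 28) .z)) .z) (.a (.a (.c .z (.l 28)) .z) .z)) (.a (.a (.l 28) (.b (.l 28) (.a (.l 28) .z))) .z)) (.c (.b (.a .z (.c (.a .z
(.b .z (.l 24))) .z)) (.a (.c (.b .z (.l 28)) .z) (.a .z (.c .z (.b (.l 24) .z))))) (.b (.a (.a (.l 28) .z) .z) (.a (.c .z (.a (.l 28) .z)) .z)))))
(.c (.a (.b (.c (.b (.c .z (.b (.l 24) (.a .z (.l 24)))) .z) (.a (.b (.c (.l 24) .z) (.c (.b (.l 24) .z) (.l 24))) (.l 24))) (.c (.b (.c (.l 28) .z)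
(.l 28)) (.b (.c .z (.a (.b (.l 24) .z) (.l 24))) .z))) (.c (.b (.c (.b (.a (.c .z (.l 24)) (.b .z (.l 24))) (.a .z (.c .z (.l 24)))) (.b (.l 24) (.a
(.c .z (.l 24)) (.l 24)))) (.a (.c (.b .z (.l 28)) .z) (.c .z (.b (.c .z (.l 24)) .z)))) (.b (.l 24) (.b (.c (.a (.b (.l 24) .z) (.l 24)) (.l 24)) (.a
(.c .z (.b (.l 24) .z)) (.c (.a .z (.l 24)) (.l 24))))))) (.a (.b (.c (.a (.b .z (.c (.b .z (.l 24)) .z)) (.b (.c (.a .z (.l 24)) .z) (.c (.l 24) (.a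
.z (.l 24))))) .z) (.c (.a (.b (.c (.l 24) (.b .z (.l 24))) (.c .z (.l 24))) (.b (.l 24) (.c (.b (.l 24) .z) (.l 24)))) (.a (.b .z (.c (.l 24) (.b .z
(.l 24)))) (.b (.c (.l 24) (.a .z (.l 24))) (.l 24))))) (.b (.a (.c (.b (.c (.l 24) (.a .z (.l 24))) (.l 24)) (.b .z (.a (.c (.l 24) .z) (.l 24))))
(.c (.l 24) (.b (.a (.c (.l 24) .z) (.l 24)) (.l 24)))) (.l 24)))))) (.b (.a (.b (.a (.c (.c (.b (.c (.b .z (.l 28)) (.l 28)) (.l 28)) (.c (.a (.c (.l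
28) .z) (.c (.l 28) .z)) .z)) (.c (.a (.b .z (.l 92)) .z) (.a (.b (.c .z (.l 42)) .z) (.b (.c .z (.l 42)) .z)))) (.a (.c (.c (.b .z (.a (.l 28) .z))
(.c (.b .z (.l 28)) (.a .z (.l 28)))) (.c .z (.a (.b .z (.l 42)) .z))) (.b .z (.c .z (.c (.a .z (.l 28)) .z))))) (.c (.a (.c (.l 28) (.c (.a (.c (.l
28) .z) (.a .z (.l 28))) .z)) (.a (.c (.l 28) (.c (.l 28) (.a .z (.l 28)))) (.a (.c .z (.l 28)) .z))) .z)) (.c (.a .z (.b (.a .z (.a .z (.b .z (.c .z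
(.a .z (.l 20)))))) (.a .z (.c .z (.b (.a .z (.b (.l 20) .z)) .z))))) (.a .z (.a .z (.b (.a (.b .z (.c (.a .z (.l 20)) (.b (.l 20) .z))) (.b (.c .z
(.b .z (.l 20))) (.b (.l 20) (.c (.l 20) .z)))) (.a (.b .z (.a .z (.l 37))) (.b .z (.l 37)))))))) (.c (.b (.a (.a (.c (.l 28) (.c (.a (.c (.l 28) .z)
(.l 28)) .z)) (.a (.a (.c (.b (.l 28) .z) (.l 28)) (.b (.c .z (.l 28)) .z)) .z)) (.a .z (.a .z (.c (.b (.a .z (.c (.l 24) .z)) (.a (.c (.l 24) .z) (.l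
24))) .z)))) (.a (.c (.b (.a (.a (.l 28) (.a (.l 28) .z)) .z) (.a (.a (.l 28) .z) .z)) (.a (.c (.a (.c (.l 28) .z) (.l 28)) .z) .z)) (.a (.c (.a .z
(.b .z (.a .z (.c (.l 24) .z)))) .z) (.c (.b (.a (.a (.c (.l 24) .z) (.l 24)) (.l 24)) (.a (.l 24) (.c (.b (.l 24) .z) .z))) (.b (.a .z (.c (.b (.l
24) .z) .z)) (.a (.c (.b (.l 24) .z) .z) .z)))))) (.b (.a .z (.a .z (.c (.b .z (.a (.a .z (.l 41)) .z)) .z))) .z))))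

theorem vQ24 : ev3 Q24 J3_0 J4_4 J4_10 = 114440980558596960366962 := by decide +kernel

noncomputable def Q156 : QT3 :=
(.c .z (.a (.b (.c (.a (.b (.c .z (.a (.b (.c .z (.l 29)) (.c (.c .z (.c .z (.l 29))) (.c (.b (.l 29) (.c (.l 29) .z)) (.b (.c (.l 29) .z) (.c .z (.b
.z (.l 14))))))) (.c (.b (.c .z (.c .z (.l 29))) (.c .z (.c .z (.l 29)))) (.b (.l 29) (.c (.b (.l 29) (.c (.l 29) .z)) (.b (.c (.l 29) .z) (.c .z (.b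
.z (.l 14))))))))) (.c .z (.a (.b (.c .z (.c (.b (.c .z (.b .z (.l 14))) (.b (.b (.l 14) .z) .z)) (.b (.l 14) (.b (.b (.l 14) .z) .z)))) .z) (.b (.c
.z (.c (.b (.c .z (.b .z (.l 14))) (.b (.b (.l 14) .z) .z)) (.b (.l 14) (.b (.b (.l 14) .z) .z)))) .z)))) (.b (.c .z (.c (.c .z (.c .z (.l 29))) (.b
(.l 29) (.c (.b (.l 29) (.c (.l 29) (.b (.l 29) .z))) (.b (.c (.l 29) (.b (.l 29) .z)) (.c (.b .z (.c .z (.l 14))) (.b (.c .z (.l 14)) (.l 14))))))))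
(.c .z (.a (.b (.c .z (.c (.b (.c .z (.b .z (.l 14))) (.b (.b (.l 14) .z) .z)) (.b (.l 14) (.b (.b (.l 14) .z) .z)))) .z) (.b (.c .z (.c (.b (.c .z
(.b .z (.l 14))) (.b (.b (.l 14) .z) .z)) (.b (.l 14) (.b (.b (.l 14) .z) .z)))) .z))))) (.a (.c (.b (.c (.b (.c (.b (.l 29) (.c (.l 29) .z)) (.b (.c
(.b (.l 29) .z) .z) (.c (.b .z (.c .z (.l 14))) (.l 14)))) (.c (.b (.c (.b .z (.c .z (.l 14))) (.b (.c .z (.l 14)) (.l 14))) (.l 14)) (.l 14))) (.b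
(.c (.b (.c (.b .z (.l 14)) (.l 14)) (.l 14)) (.l 14)) (.l 14))) (.b (.b (.l 14) (.b (.b (.l 14) .z) .z)) .z)) (.b (.l 14) (.b (.b (.l 14) (.b (.b (.l
14) .z) (.a .z (.c .z (.c .z (.l 35)))))) (.a .z (.c .z (.b (.c .z (.l 35)) .z)))))) (.b (.c (.c (.b (.c (.b (.l 29) (.c (.b (.l 29) .z) .z)) (.b (.c
(.b (.l 29) .z) .z) (.c (.b .z (.l 14)) (.l 14)))) (.c (.b (.c (.b .z (.c .z (.l 14))) (.b (.c .z (.l 14)) (.l 14))) (.l 14)) (.l 14))) (.b (.c (.b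
(.c (.b .z (.l 14)) (.l 14)) (.l 14)) (.l 14)) (.l 14))) (.c (.l 14) (.a (.l 14) (.c (.a (.l 14) (.c (.l 14) (.a (.l 14) (.c (.l 14) .z)))) (.a (.c
(.l 14) (.a (.b .z (.l 14)) .z)) (.c (.a (.c (.l 14) .z) .z) .z)))))) (.c (.b (.b (.l 14) (.b (.b (.l 14) .z) .z)) .z) (.a (.b (.b (.l 14) (.b (.b (.l
14) .z) (.c .z (.l 35)))) (.c (.b (.c .z (.a .z (.l 35))) .z) (.a (.b (.b (.l 35) .z) .z) .z))) (.b (.c (.b (.l 14) (.b (.b (.l 14) .z) .z)) (.a (.b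
(.l 14) .z) (.b (.c (.l 14) .z) .z))) .z)))))) .z) (.b (.c (.a (.b (.c .z (.c (.c .z (.c .z (.l 29))) (.b (.l 29) (.c (.b (.l 29) (.c (.l 29) (.b (.l
29) .z))) (.b (.c (.l 29) (.b (.l 29) .z)) (.c (.b .z (.c .z (.l 14))) (.b (.c .z (.l 14)) (.l 14)))))))) (.c .z (.a (.b (.c .z (.c (.b (.c .z (.b .z
(.l 14))) (.b (.b (.l 14) .z) .z)) (.b (.l 14) (.b (.b (.l 14) .z) .z)))) .z) (.b (.c .z (.c (.b (.c .z (.b .z (.l 14))) (.b (.b (.l 14) .z) .z)) (.b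
(.l 14) (.b (.b (.l 14) .z) .z)))) .z)))) (.b (.c .z (.a (.c (.c .z (.c .z (.l 29))) (.b (.a (.l 29) (.c (.l 29) (.b .z (.l 29)))) (.c (.b (.l 29) (.c
(.l 29) .z)) (.b (.c (.l 29) .z) (.c .z (.b .z (.l 14))))))) (.b (.c (.a (.c .z (.c .z (.l 29))) .z) (.a (.a (.c (.l 29) .z) .z) .z)) (.c (.a (.c .z
(.c .z (.l 29))) .z) (.a (.b (.c (.l 29) .z) .z) .z))))) (.c .z (.a (.b (.c .z (.a (.c .z (.b (.l 14) .z)) (.b (.c .z (.a (.l 14) .z)) .z))) .z)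
.z)))) (.a (.b (.c (.a (.c (.b (.c (.b (.l 29) .z) (.b .z (.c (.b .z (.l 14)) (.l 14)))) (.c (.b (.c .z (.l 14)) (.l 14)) (.l 14))) (.b (.c (.b (.c
(.b .z (.l 14)) (.l 14)) (.l 14)) (.l 14)) (.l 14))) (.b (.c (.c (.b (.l 29) .z) (.b .z (.c (.b .z (.l 14)) (.l 14)))) (.c (.b (.c (.b .z (.l 14)) (.l
14)) (.l 14)) (.a (.l 14) (.c (.l 14) (.a (.l 14) .z))))) (.c (.c (.b (.c .z (.l 14)) (.l 14)) (.l 14)) (.a (.c (.l 14) (.c (.l 14) (.a (.l 14) .z)))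
(.b (.c (.l 14) .z) (.c (.c (.l 14) .z) .z)))))) (.a (.b (.c (.c (.l 14) (.a (.l 14) (.c (.a (.l 14) .z) .z))) (.c (.a (.c (.a (.l 14) .z) .z) .z)
.z)) (.c (.c (.a (.l 14) (.c (.l 14) (.a (.l 14) .z))) (.a (.l 14) (.c (.a (.l 14) .z) .z))) .z)) (.b (.c (.a (.c (.c (.a (.l 14) .z) .z) .z) .z) (.a
(.b (.c .z (.c .z (.a .z (.l 13)))) .z) (.b (.c (.c .z (.a .z (.l 13))) (.a (.b (.l 13) .z) .z)) .z))) .z))) (.c (.a (.b (.c (.b (.l 14) (.b (.b (.l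
14) .z) .z)) (.a (.b (.l 14) (.b (.b (.l 14) .z) .z)) (.b (.l 14) .z))) .z) (.b (.c (.a (.b (.l 14) (.b (.b (.l 14) .z) .z)) (.b (.l 14) .z)) (.a (.b
(.c (.l 14) (.a (.l 14) .z)) .z) .z)) .z)) (.a (.b (.c (.a (.b (.c (.l 14) (.a (.l 14) .z)) .z) (.b (.c (.a (.l 14) .z) .z) .z)) .z) .z) .z))) (.b (.c
(.a (.b (.c (.c (.b (.a (.l 29) .z) .z) (.b .z (.c (.b .z (.l 14)) (.a (.l 14) .z)))) (.a (.c (.b (.c .z (.l 14)) (.c (.l 14) .z)) .z) .z)) (.c (.a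
(.c (.b (.c .z (.l 14)) (.l 14)) (.b (.l 14) (.c (.l 14) .z))) (.b (.c (.c .z (.l 14)) .z) (.c (.c (.l 14) .z) .z))) .z)) .z) (.a (.b (.c .z (.a (.b
(.c (.a (.b (.l 13) .z) .z) .z) .z) .z)) .z) .z)) (.c (.a (.b (.c (.a (.b (.c (.l 14) .z) .z) .z) .z) .z) .z) (.c .z (.b .z (.c (.a (.b (.c .z (.l
29)) (.a .z (.l 29))) (.a (.a (.l 29) .z) .z)) (.b (.a .z (.a (.l 29) .z)) .z)))))))) .z)))

theorem vQ156 : ev3 Q156 J3_3 J3_5 J2_2 = 263932963988109497934725 := by decide +kernel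

noncomputable def Q136 : QT3 :=
(.c (.b (.c (.a (.b (.c (.b (.c (.b (.a .z (.l 41)) .z) .z) .z) .z) .z) .z) (.a (.b (.c .z (.a (.b (.c (.a (.c .z (.l 10)) .z) (.b (.a (.l 10) (.c .z
(.l 10))) (.a (.l 10) .z))) (.c (.a (.c (.a (.l 10) .z) (.l 10)) .z) (.a (.b (.c (.l 10) .z) .z) .z))) .z)) (.c .z (.a .z (.b .z (.c .z (.c (.b .z (.l
19)) (.l 19))))))) (.b (.c .z (.a .z (.b (.c (.b (.l 43) .z) .z) (.c .z (.b .z (.c .z (.l 19))))))) (.c .z (.c (.b (.a .z (.c .z (.b .z (.l 19)))) (.a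
(.c .z (.b .z (.l 19))) (.c (.b .z (.l 19)) (.l 19)))) (.b (.a (.c .z (.l 19)) (.l 19)) (.l 19))))))) (.c .z (.a (.b (.c .z (.c .z (.b .z (.c .z (.b
.z (.l 42)))))) (.c .z (.c .z (.b (.c .z (.a (.l 42) .z)) .z)))) (.c .z (.b (.c (.b (.b (.a .z (.l 19)) .z) .z) (.b (.c (.b (.l 19) (.a .z (.l 19)))
(.c (.b (.l 19) .z) .z)) .z)) .z))))) (.b (.a (.c (.b (.c (.a (.b (.c (.b (.a (.l 10) (.c (.l 10) .z)) (.a (.c (.l 10) .z) .z)) .z) (.c .z (.a .z (.c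
.z (.l 20))))) (.b .z (.c .z (.c .z (.l 20))))) (.a (.b (.c .z (.c (.c .z (.l 11)) (.l 11))) (.c (.c (.l 20) (.c (.l 20) .z)) (.c (.c .z (.l 11)) (.l
11)))) (.c (.c (.l 20) (.c (.l 20) .z)) (.l 11)))) (.c (.c (.b (.c (.a .z (.c (.l 19) .z)) .z) (.c .z (.c (.b .z (.l 20)) (.l 20)))) (.c (.b (.c (.b
.z (.l 20)) (.l 20)) (.l 20)) (.l 20))) (.c (.c (.l 20) (.c (.l 20) (.a (.a (.l 20) .z) .z))) (.c (.c (.a .z (.a .z (.l 11))) (.l 11)) (.l 11))))) (.l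
11)) (.c (.b (.c (.b (.c (.b (.a .z (.c .z (.l 19))) (.a .z (.c .z (.l 19)))) (.a .z (.c (.l 19) .z))) (.c (.a (.c (.b .z (.l 19)) (.l 19)) (.l 19))
(.c .z (.c .z (.a (.l 20) .z))))) (.c (.c (.b (.c (.a (.l 20) .z) (.a (.l 20) .z)) (.c (.l 20) (.a (.l 20) .z))) (.c (.a .z (.a .z (.a .z (.l 11))))
(.a (.a .z (.l 11)) (.l 11)))) (.l 11))) (.c (.c (.c (.b (.l 19) (.c (.b (.l 19) .z) .z)) (.b (.c (.b (.l 19) .z) .z) .z)) (.c (.b (.c .z (.a (.l 20)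
.z)) (.c (.a (.l 20) .z) (.l 20))) (.l 20))) (.c (.c (.c (.l 20) (.a (.l 20) .z)) (.c (.a .z (.a .z (.l 11))) (.a (.a .z (.l 11)) (.l 11)))) (.l
11)))) (.c (.l 11) (.b (.l 11) (.c (.l 11) (.b (.l 11) (.a (.l 11) (.c (.b (.l 11) (.a (.l 11) .z)) (.b (.a (.l 11) .z) .z))))))))) (.c (.b (.c (.c
(.c (.b .z (.a (.b .z (.l 42)) .z)) (.b (.a (.b (.l 20) .z) (.c (.a (.l 20) .z) (.l 20))) (.a (.b .z (.l 42)) .z))) (.b (.a (.b (.l 20) (.b (.a .z (.l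
20)) .z)) (.l 20)) (.a (.b .z (.l 42)) (.b (.a .z (.l 20)) .z)))) (.c (.c (.a (.b (.b (.l 20) (.b (.l 20) .z)) .z) (.a (.b (.l 20) .z) .z)) (.a (.c
(.b (.l 20) .z) (.a (.b (.l 20) .z) .z)) (.a (.c .z (.a .z (.l 11))) (.c (.a .z (.l 11)) (.l 11))))) (.c (.a (.c (.a .z (.a .z (.a .z (.l 11)))) (.a
(.a .z (.b (.l 11) .z)) (.l 11))) (.l 11)) (.l 11)))) (.c (.b (.a (.a (.b (.c (.l 42) .z) .z) .z) (.b .z (.a .z (.c .z (.l 29))))) (.a (.a .z (.b .z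
(.c .z (.l 29)))) (.c (.c .z (.c .z (.l 29))) (.l 29)))) (.a (.b (.c .z (.c (.a .z (.c .z (.l 11))) (.l 11))) (.c (.c (.a .z (.l 29)) .z) (.a (.b (.c
.z (.a .z (.l 11))) .z) (.c (.c .z (.a .z (.l 11))) (.l 11))))) (.c (.c (.a (.b .z (.l 29)) .z) (.a (.c .z (.a .z (.l 11))) (.c (.a (.a .z (.l 11))
(.l 11)) (.l 11)))) (.b (.l 11) (.a (.l 11) (.c (.l 11) (.b (.l 11) (.a (.l 11) .z))))))))) (.b (.a (.c (.b (.l 11) (.c (.l 11) (.a (.b (.l 11) (.c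
(.l 11) (.a .z (.l 11)))) (.l 11)))) (.b (.c (.l 11) (.a (.b (.l 11) (.c (.a .z (.l 11)) .z)) (.l 11))) (.c (.a (.b (.c (.l 11) (.a .z (.l 11))) .z)
(.b (.l 11) (.a (.c (.l 11) .z) (.l 11)))) (.a (.b .z (.c .z (.a (.l 13) .z))) (.b (.a (.c (.l 11) .z) (.c (.l 11) .z)) .z))))) (.c (.c (.l 11) (.b
(.l 11) (.a (.l 11) (.c (.l 11) (.b (.l 11) (.a (.l 11) .z)))))) (.b (.c (.a (.l 11) (.c (.b (.l 11) (.a (.l 11) .z)) (.b (.a (.l 11) .z) .z))) (.a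
(.c (.b (.l 11) (.a (.l 11) .z)) (.b (.a (.l 11) .z) .z)) .z)) (.a (.c (.c (.b (.l 11) (.a (.l 11) .z)) (.b (.a (.l 11) .z) .z)) .z) (.c .z (.c (.b .z
(.l 14)) (.l 14))))))) (.a (.c (.b (.c (.a (.b (.l 11) (.c (.l 11) (.a .z (.l 11)))) (.l 11)) (.a (.b (.c (.a .z (.l 11)) .z) .z) (.b (.l 11) (.c (.a
.z (.l 11)) .z)))) (.c (.a .z (.b (.c (.l 11) (.a .z (.l 11))) (.c (.a .z (.l 11)) .z))) .z)) (.b (.a (.c (.b (.c .z (.a (.l 13) .z)) (.c .z (.l 13)))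
(.c (.b (.l 13) (.a .z (.l 13))) (.a .z (.b (.l 13) .z)))) (.c (.b (.a .z (.c (.l 11) .z)) .z) (.b (.a (.c .z (.l 13)) .z) (.a (.l 13) (.c .z (.l
13)))))) (.a (.c (.c .z (.b (.l 13) (.a .z (.l 13)))) .z) (.c (.b (.a (.c .z (.l 13)) .z) (.c .z (.c .z (.l 13)))) (.c (.a (.b (.l 13) .z) (.l 13))
(.a .z (.b (.l 13) .z))))))) (.c (.b (.c (.a (.l 11) (.c (.l 11) (.b (.l 11) (.a (.l 11) .z)))) (.a (.c (.l 11) (.b (.l 11) .z)) (.c (.b (.a (.l 11)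
.z) .z) .z))) (.a (.c (.c (.l 11) (.b (.l 11) (.a (.l 11) .z))) (.b (.a (.c (.l 11) .z) .z) .z)) (.c (.c (.b (.a (.l 11) .z) .z) .z) (.c .z (.b .z (.l
14)))))) (.b (.a .z (.c (.c .z (.l 14)) (.b (.l 14) (.a .z (.l 14))))) (.a (.c .z (.b (.a (.c .z (.l 13)) .z) (.a (.l 13) (.c .z (.l 13))))) (.c (.b
(.l 14) (.a .z (.l 14))) .z)))))))))

theorem vQ136 : ev3 Q136 J4_2 J4_11 J3_6 = 169650913233081021828785 := by decide +kernel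

noncomputable def Q72 : QT3 :=
(.b (.a (.b (.c (.a (.c (.b (.c (.c (.a (.c (.l 13) (.c (.l 13) .z)) (.c (.a (.l 13) .z) (.l 13))) (.c .z (.c (.l 15) .z))) .z) (.c (.c (.l 13) .z)
.z)) (.b (.a (.c (.c (.c .z (.l 21)) (.c (.l 21) .z)) .z) (.b .z (.c (.c (.l 21) .z) .z))) .z)) (.c (.b .z (.c .z (.a .z (.b .z (.c .z (.l 17))))))
(.b .z (.a .z (.b .z (.c (.c (.l 17) .z) .z)))))) .z) (.c (.a (.c (.b (.c (.a (.b (.c (.l 13) .z) (.c (.l 13) .z)) (.b (.c (.l 13) .z) .z)) .z) (.c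
(.a (.b (.c (.a (.l 13) .z) .z) .z) (.b .z (.c (.a .z (.l 11)) .z))) (.a .z (.c .z (.c .z (.l 17)))))) (.b (.a .z (.b .z (.c (.c (.l 17) .z) .z))) (.c
(.c (.l 17) (.c (.l 17) .z)) .z))) (.c (.b (.c .z (.a (.b .z (.c .z (.l 17))) (.c .z (.l 17)))) (.c (.a (.b (.c (.a .z (.l 11)) .z) (.c (.l 11) .z))
(.c (.c (.b .z (.l 11)) (.l 11)) (.c (.c (.l 11) .z) .z))) (.c .z (.c (.a .z (.l 17)) (.l 17))))) (.c (.c (.l 17) (.c (.l 17) (.c (.b (.l 17) .z)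
.z))) (.c (.c .z (.c .z (.b (.l 24) .z))) (.c (.b (.c (.l 24) .z) (.c (.l 24) .z)) .z))))) (.c (.c (.c (.c (.b .z (.a (.l 27) .z)) (.c (.b (.l 27) .z)
.z)) .z) .z) .z))) (.b (.c (.a (.c (.b (.c .z (.a .z (.b .z (.c .z (.l 17))))) (.c (.a .z (.b (.c (.a .z (.l 10)) .z) (.c (.l 10) .z))) (.a (.b (.a .z
(.l 17)) (.c .z (.l 17))) (.c (.c .z (.l 17)) (.l 17))))) (.b (.a (.b .z (.c (.c (.l 17) .z) .z)) (.c (.c (.l 17) (.c (.l 17) .z)) (.c .z (.c (.l 23)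
.z)))) (.c (.c (.l 17) (.c (.l 17) (.c (.l 17) .z))) (.c (.c (.c (.l 25) .z) .z) .z)))) (.c (.b (.a (.c (.b .z (.c (.a .z (.l 10)) .z)) (.c .z (.c .z
(.l 17)))) (.c (.c (.c (.l 10) .z) .z) .z)) (.c (.c (.c (.l 10) (.a (.l 10) .z)) .z) (.c .z (.a (.l 17) (.c .z (.l 17)))))) (.c (.c (.l 17) (.c (.l
17) (.c (.b (.l 17) .z) .z))) (.c (.c (.c (.a (.l 25) .z) .z) (.c .z (.a .z (.l 23)))) (.c (.l 23) .z))))) .z) (.c (.c (.c (.c (.a (.b (.c (.a (.b (.l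
10) .z) (.l 10)) .z) (.c .z (.a (.b .z (.l 11)) .z))) (.b (.c (.l 10) (.a (.l 10) (.c (.l 10) .z))) (.c (.a (.b (.l 10) .z) (.l 10)) .z))) (.a (.b .z
(.c (.a (.c (.l 11) .z) .z) .z)) .z)) (.a (.c (.c (.a .z (.l 17)) (.l 17)) (.l 17)) (.c (.b (.c .z (.a (.l 17) .z)) (.c (.c .z (.l 17)) (.l 17))) (.l
17)))) (.c (.c (.l 17) (.c (.c (.l 17) (.b (.l 17) (.a (.l 17) .z))) .z)) (.c (.c (.a (.c (.l 25) (.b .z (.l 25))) (.c .z (.a (.l 25) .z))) .z) (.c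
(.a .z (.c (.a .z (.l 23)) .z)) .z)))) .z))) (.a (.b (.c (.a (.c (.b (.c (.a (.b (.c (.a .z (.l 11)) .z) (.c (.l 11) .z)) (.c (.l 11) (.c (.c (.l 11)
.z) .z))) .z) (.c (.c (.l 11) (.c .z (.c (.l 16) .z))) .z)) (.c (.c (.c (.a .z (.l 17)) (.l 17)) (.c (.c (.l 17) (.b (.l 17) .z)) (.c .z (.b .z (.l
22))))) (.c (.c (.b (.c (.l 22) .z) .z) .z) .z))) (.c (.c (.c (.c (.l 11) (.c (.l 11) (.b (.l 11) (.b (.l 11) .z)))) (.c .z (.a (.l 16) (.c .z (.l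
16))))) (.c (.c (.a .z (.c (.l 16) .z)) .z) (.c (.a .z (.c .z (.l 17))) (.a (.b (.l 17) .z) (.l 17))))) (.c (.c (.l 17) (.c (.c (.l 17) (.b (.l 17)
.z)) (.c .z (.a (.l 22) .z)))) .z))) (.c (.c (.c (.c (.l 27) .z) .z) .z) .z)) (.c (.c (.c (.c (.c (.l 11) (.c (.b (.l 11) (.a (.b (.l 11) .z) .z)) (.b
(.a (.b (.l 11) .z) .z) .z))) (.c (.c .z (.a (.l 16) (.a (.l 16) .z))) (.a (.l 16) (.a (.l 16) (.c .z (.l 16)))))) (.c (.a (.c (.b .z (.c (.l 16) .z))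
.z) (.c (.l 16) .z)) (.a .z (.c .z (.a .z (.c .z (.l 17))))))) (.c (.c (.a (.c .z (.a .z (.b (.l 17) .z))) (.c (.a (.b (.l 17) .z) (.l 17)) (.l 17)))
(.a .z (.c (.c (.b (.l 17) .z) .z) (.b (.l 22) (.c (.l 22) .z))))) (.c .z (.a (.c .z (.l 27)) (.c .z (.l 27)))))) (.c (.c (.c (.c (.c (.l 27) .z) (.c
.z (.a (.l 32) .z))) .z) .z) .z))) (.c (.c (.c (.b (.a (.c (.b (.c (.a (.l 11) .z) (.l 11)) (.c (.l 11) (.c (.l 11) .z))) .z) (.c (.b (.c (.a .z (.b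
(.l 10) .z)) .z) (.a (.c (.b .z (.l 11)) (.c (.l 11) .z)) .z)) (.b (.a .z (.c .z (.l 15))) (.c .z (.a .z (.l 15)))))) (.a (.c (.c (.c (.l 11) (.b (.l
11) (.b (.l 11) .z))) .z) .z) (.c (.b (.a (.c (.l 11) .z) (.c (.b .z (.l 11)) .z)) (.c (.c (.l 11) .z) .z)) (.c .z (.a .z (.c .z (.l 15))))))) (.c (.a
(.c (.a (.b .z (.c (.l 16) .z)) .z) (.a (.b (.c .z (.l 17)) .z) (.b (.l 17) (.c .z (.l 17))))) (.c (.a (.b (.c .z (.l 17)) (.c .z (.l 17))) (.c .z (.b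
(.l 17) .z))) (.l 17))) (.a (.c (.a (.b (.l 17) (.c .z (.l 17))) (.l 17)) (.l 17)) (.l 17)))) (.c (.c (.c (.l 17) (.b (.l 17) (.c (.l 17) (.b (.l 17)
(.a (.l 17) .z))))) (.c (.b (.c (.b (.l 17) (.a (.l 17) .z)) .z) .z) .z)) (.c (.b (.c (.a (.a (.c .z (.l 25)) (.l 25)) (.a (.c .z (.l 25)) .z)) (.a
(.b (.c (.l 25) .z) (.c (.l 25) .z)) (.a (.c (.l 25) .z) .z))) (.c (.a (.b (.a .z (.l 25)) .z) (.a (.c .z (.l 25)) .z)) .z)) (.b .z (.a (.c .z (.l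
27)) .z))))) (.c (.c (.c (.b .z (.c (.c (.b (.l 27) .z) .z) .z)) .z) .z) .z))))

theorem vQ72 : ev3 Q72 J4_3 J4_7 J3_7 = 91782512029951399338041 := by decide +kernel

noncomputable def Q82 : QT3 :=
(.c (.b (.c (.a (.b (.c .z (.c (.a (.c (.b .z (.a (.l 10) (.c .z (.l 10)))) (.b (.c (.a (.l 10) .z) (.l 10)) (.l 10))) (.c .z (.b .z (.a (.c .z (.l
10)) .z)))) (.a (.l 10) (.c (.a (.l 10) (.b (.c .z (.l 10)) (.l 10))) (.l 10))))) (.c (.c .z (.a (.c .z (.b (.a (.c .z (.l 10)) .z) (.a (.l 10) (.c .z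
(.l 10))))) .z)) (.c (.a (.l 10) (.c (.a (.b (.c .z (.l 10)) (.l 10)) (.b .z (.c .z (.l 10)))) (.a (.l 10) (.b (.c .z (.l 10)) (.l 10))))) (.l 10))))
(.c (.c (.b (.a (.b (.l 31) .z) (.l 31)) (.a .z (.b (.a .z (.l 31)) .z))) (.a (.b (.b (.a .z (.l 31)) .z) .z) (.b (.l 31) (.b (.a .z (.l 31)) .z))))
(.c (.a (.b .z (.c .z (.a (.b .z (.c .z (.l 10))) .z))) (.c (.b (.l 31) .z) (.b (.l 31) .z))) (.a (.c (.b (.a (.c .z (.b .z (.l 10))) .z) (.a (.l 10)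
(.c .z (.l 10)))) (.b (.a (.l 10) (.c (.b .z (.l 10)) (.l 10))) (.l 10))) (.c (.a .z (.b (.l 31) .z)) (.a (.b .z (.c (.a (.l 10) .z) (.l 10)))
.z)))))) (.c (.a (.l 10) (.c (.a (.l 10) (.c (.a (.l 10) (.b (.c .z (.a (.l 10) .z)) (.c (.a (.l 10) .z) (.l 10)))) (.l 10))) (.l 10))) (.a (.c (.l
10) (.a (.l 10) (.b (.c (.l 10) (.a (.l 10) (.b (.c (.l 10) .z) (.l 10)))) (.l 10)))) (.a (.c (.l 10) (.b (.c (.a (.l 10) (.b .z (.c (.l 10) .z))) (.a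
(.b .z (.c (.l 10) .z)) .z)) (.a (.l 10) (.c (.l 10) (.b .z (.l 10)))))) (.c (.a (.c (.l 10) (.b (.c (.l 10) (.a (.l 10) .z)) (.l 10))) (.c (.b (.c
(.l 10) (.a (.l 10) .z)) (.l 10)) (.b .z (.a (.c (.l 10) .z) .z)))) (.a (.b (.c .z (.b (.l 19) .z)) (.c (.a (.b .z (.l 10)) .z) .z)) (.c (.b (.c .z
(.l 19)) .z) (.b (.l 19) .z)))))))) (.c (.a (.c (.c (.b (.a (.c .z (.b .z (.a (.c .z (.l 10)) .z))) .z) (.a (.c (.b (.a (.c .z (.l 10)) .z) (.a (.l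
10) (.c .z (.l 10)))) (.l 10)) (.c .z (.a (.b .z (.l 10)) .z)))) (.a (.b (.c (.b (.a (.l 10) (.c .z (.l 10))) (.l 10)) (.l 10)) (.l 10)) (.b (.c (.a
(.b .z (.c .z (.l 10))) .z) (.a (.b (.c .z (.l 10)) (.l 10)) (.b .z (.c .z (.l 10))))) (.c (.a (.l 10) (.b .z (.l 10))) (.l 10))))) (.l 10)) (.c (.a
(.c .z (.b .z (.a (.c .z (.b .z (.l 10))) .z))) (.c (.b .z (.a (.c (.l 33) .z) (.l 33))) .z)) (.a (.c (.b (.c (.a (.b .z (.c .z (.l 10))) .z) (.a (.l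
10) (.b .z (.a (.l 10) .z)))) (.a (.l 10) (.c (.b (.a (.l 10) .z) (.l 10)) (.l 10)))) (.l 10)) (.c (.a (.b .z (.c .z (.a (.b .z (.l 10)) .z))) .z) (.a
(.c (.b (.a (.l 10) (.c .z (.l 10))) (.l 10)) (.l 10)) (.c (.b .z (.a (.c .z (.l 10)) .z)) (.b (.a (.l 10) (.c .z (.l 10))) (.l 10)))))))) (.a (.l 10)
(.c (.l 10) (.a (.l 10) (.c (.l 10) (.a (.b (.c (.l 10) (.a (.l 10) .z)) (.l 10)) (.b (.c (.a (.c (.l 10) .z) .z) .z) (.c (.a (.l 10) (.b .z (.l 10)))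
(.a (.b .z (.l 10)) .z)))))))))) (.b (.a (.c (.c (.b (.c (.a (.c (.l 10) (.b (.a (.c (.l 10) .z) .z) (.l 10))) (.c (.b (.a (.c (.l 10) .z) .z) (.a (.l
10) (.c (.l 10) .z))) .z)) (.a (.b .z (.c (.a (.b .z (.l 10)) .z) .z)) (.c (.b (.a .z (.l 19)) .z) (.b (.b (.l 19) .z) .z)))) (.a (.c (.l 10) (.b (.c
(.l 10) (.a (.b .z (.l 10)) .z)) (.l 10))) (.c (.a (.l 10) (.c (.l 10) (.b .z (.l 10)))) (.b .z (.a (.c (.l 10) .z) .z))))) (.b (.c (.a .z (.b (.b (.c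
(.l 19) .z) .z) .z)) .z) (.a (.c (.b .z (.a (.c (.l 10) .z) .z)) .z) .z))) (.c .z (.a (.c (.a (.b (.l 55) .z) .z) .z) (.c .z (.b .z (.b .z (.l
67))))))) (.c (.c (.a (.c (.b (.c (.a .z (.b (.l 19) .z)) (.a (.b (.l 19) .z) (.l 19))) (.a (.c (.b .z (.l 10)) .z) .z)) (.b (.b (.l 19) (.b (.c (.l
19) .z) .z)) .z)) (.c (.b (.l 19) (.a .z (.b (.b (.l 19) .z) .z))) (.b (.b (.l 19) (.b (.l 19) (.c (.l 19) .z))) .z))) (.b (.b (.c (.b (.l 19) (.a (.c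
(.l 19) .z) (.l 19))) (.a (.b (.c (.l 19) .z) .z) (.b (.l 19) (.c (.l 19) .z)))) (.a .z (.c (.b (.c (.l 19) .z) .z) .z))) .z)) .z)) (.a (.c (.c (.a
(.l 10) (.b (.c (.l 10) (.a (.l 10) (.b (.c (.l 10) .z) (.l 10)))) (.l 10))) (.b (.a (.c (.b (.a (.l 10) (.c (.l 10) (.b .z (.l 10)))) (.l 10)) (.b
(.a (.c (.b .z (.l 10)) .z) .z) (.a (.c (.l 10) (.b .z (.l 10))) (.c (.b .z (.l 10)) .z)))) (.c (.a (.b .z (.c (.l 10) (.a (.l 10) .z))) .z) .z)) (.a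
(.l 10) (.c (.a (.l 10) (.b (.c (.l 10) .z) (.l 10))) (.a (.b (.c (.a (.l 10) .z) .z) (.l 10)) (.b .z (.c (.a (.l 10) .z) .z))))))) (.b .z (.a (.c (.b
(.c (.a (.c (.l 10) (.b .z (.l 10))) (.c (.b .z (.l 10)) .z)) .z) (.c (.a (.l 10) (.c (.l 10) (.b .z (.l 10)))) (.a (.b (.c (.l 10) .z) (.l 10)) .z)))
.z) (.c (.b .z (.a (.c (.c (.a (.l 10) .z) .z) .z) .z)) .z)))) (.c (.b (.a (.c (.c (.a (.c (.l 10) (.b (.a (.l 10) .z) (.l 10))) (.c (.b (.a (.l 10)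
.z) (.l 10)) (.b .z (.a (.l 10) .z)))) (.a (.b .z (.c (.a (.l 10) .z) .z)) .z)) .z) .z) (.a (.c (.c (.l 10) (.a (.b (.c (.l 10) (.a (.l 10) .z)) (.l
10)) (.b .z (.c (.l 10) .z)))) (.b .z (.a (.c (.c (.a (.l 10) .z) .z) .z) .z))) (.c (.b (.a (.c (.c (.a (.l 10) .z) .z) .z) .z) (.a (.c (.c (.l 10)
(.a (.l 10) .z)) .z) .z)) .z))) (.b .z (.a (.c .z (.b .z (.c .z (.c .z (.l 29))))) (.c .z (.c .z (.l 29)))))))))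

theorem vQ82 : ev3 Q82 J4_4 J4_7 J3_5 = 225305456596023638837384 := by decide +kernel

noncomputable def Q65 : QT3 :=
(.c (.c (.b (.a (.c (.b (.l 6) (.c (.b (.l 6) (.a (.c (.b (.l 6) (.b (.l 6) .z)) (.l 6)) (.l 6))) (.l 6))) (.l 6)) (.l 6)) (.a (.b (.c (.b (.c (.a (.b
(.c .z (.b (.l 6) .z)) .z) (.a (.b (.c .z (.l 6)) .z) (.c (.b (.l 6) .z) (.l 6)))) (.a (.b (.l 6) (.c (.b (.l 6) .z) (.l 6))) (.l 6))) (.c .z (.a .z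
(.a (.b (.c .z (.l 6)) .z) (.b (.l 6) (.c .z (.l 6))))))) (.b (.l 6) (.c (.a (.b (.l 6) (.c .z (.l 6))) (.l 6)) (.l 6)))) (.c (.b .z (.a .z (.c (.a .z
(.l 26)) (.a .z (.b .z (.l 26)))))) (.b (.a (.c .z (.b (.c (.b (.l 6) .z) (.l 6)) (.c .z (.b (.l 6) .z)))) (.c (.a .z (.b (.l 6) (.c .z (.l 6)))) (.a
(.b (.l 6) (.c .z (.l 6))) (.l 6)))) (.a .z (.c .z (.a .z (.b (.c .z (.l 6)) .z))))))) (.a (.b (.c (.a (.b (.l 6) (.c (.a (.b (.l 6) .z) (.l 6)) (.l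
6))) (.l 6)) (.l 6)) (.c (.a (.b (.c .z (.a .z (.b (.l 6) .z))) (.c (.a (.l 26) .z) .z)) (.b (.c (.a (.b (.l 6) .z) (.l 6)) (.l 6)) (.c .z (.a (.b (.l
6) .z) (.l 6))))) (.a (.b (.l 6) (.c (.a .z (.b (.l 6) .z)) (.l 6))) (.l 6)))) (.l 6)))) (.a (.b (.c (.l 6) (.b (.l 6) (.c (.l 6) (.a (.b (.l 6) (.c
(.l 6) (.b (.l 6) (.a .z (.l 6))))) (.l 6))))) (.c (.b (.l 6) (.c (.b (.l 6) (.a (.b (.c .z (.l 6)) .z) (.a (.b (.l 6) .z) (.l 6)))) (.a (.b (.c (.l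
6) (.b (.l 6) .z)) (.c (.b (.a .z (.l 6)) .z) .z)) (.b (.l 6) (.a (.c (.l 6) .z) (.l 6)))))) (.b (.c (.a (.b (.l 6) (.c (.l 6) (.b (.a .z (.l 6))
.z))) (.b (.l 6) (.a (.c (.l 6) (.b (.l 6) .z)) (.l 6)))) (.a (.b (.c (.b (.l 6) .z) .z) (.c .z (.b .z (.l 16)))) (.b (.a (.c (.l 6) .z) (.l 6)) (.a
.z (.c (.l 6) .z))))) (.c (.a (.b .z (.c (.b .z (.l 16)) (.l 16))) (.b (.a (.c (.b (.l 6) .z) .z) (.c (.l 6) (.a .z (.l 6)))) (.a .z (.c (.a .z (.l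
6)) .z)))) (.a (.l 16) (.b .z (.a (.l 16) .z))))))) (.b (.l 6) (.a (.c (.l 6) (.b (.l 6) (.a (.c (.b (.l 6) (.a (.c (.l 6) .z) (.l 6))) (.b (.c (.l 6)
(.a .z (.l 6))) .z)) (.l 6)))) (.l 6))))) (.c (.a (.b (.c (.b (.c (.l 6) (.a (.b (.c (.l 6) (.b (.l 6) .z)) (.c (.b (.a .z (.l 6)) .z) .z)) (.b (.l 6)
(.a (.c (.l 6) .z) (.c (.l 6) (.a .z (.l 6))))))) (.c (.a (.b (.c (.l 6) .z) .z) (.b (.a (.c (.l 6) (.b (.l 6) .z)) (.l 6)) (.a (.c (.b (.l 6) .z) .z)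
(.c (.l 6) (.a .z (.l 6)))))) (.a (.b (.c .z (.b .z (.l 16))) (.l 16)) (.b (.a .z (.c (.a .z (.l 6)) .z)) (.a (.c .z (.l 16)) .z))))) (.b (.c (.a (.b
(.c .z (.b .z (.l 16))) (.c (.b .z (.l 16)) (.l 16))) (.b (.a .z (.c (.l 6) .z)) .z)) (.a (.l 16) (.b (.a (.c .z (.l 16)) .z) (.a (.l 16) (.c .z (.l
16)))))) (.c (.a (.l 16) (.b (.a (.l 16) .z) (.a (.l 16) (.c .z (.l 16))))) (.l 16)))) (.c (.b (.c (.a (.b (.c (.b .z (.l 16)) (.l 16)) (.l 16)) (.b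
.z (.a (.c .z (.l 16)) .z))) (.a (.l 16) (.a (.l 16) (.b (.c .z (.l 16)) (.l 16))))) (.c (.a (.l 16) (.a (.l 16) (.b (.c .z (.l 16)) (.l 16)))) (.l
16))) (.l 16))) (.a (.b (.c (.b (.l 6) (.c (.l 6) (.a (.b (.l 6) (.c (.a .z (.l 6)) .z)) (.l 6)))) (.b (.c (.a (.b (.l 6) (.c (.l 6) .z)) (.l 6)) (.a
(.b (.c (.a .z (.l 6)) .z) .z) (.a (.c (.b (.l 6) .z) .z) (.c (.l 6) (.b (.l 6) .z))))) (.a (.c .z (.b .z (.a (.l 16) .z))) (.c (.a (.b (.c (.l 6) .z)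
.z) (.b (.l 6) (.c (.l 6) .z))) .z)))) (.c (.b (.a (.c (.b (.c (.l 6) (.a .z (.l 6))) (.c (.a .z (.l 6)) .z)) .z) (.c (.l 6) (.a (.b (.c (.l 6) .z)
.z) (.b (.l 6) (.c (.l 6) .z))))) (.a (.c .z (.b (.a (.l 16) .z) (.l 16))) (.c (.a (.b (.c (.l 6) .z) .z) (.b (.l 6) (.c (.l 6) .z))) .z))) (.a (.b
(.c (.b (.c .z (.l 16)) (.l 16)) (.a (.l 16) (.c (.l 16) .z))) (.c (.l 16) (.a (.l 16) (.c (.l 16) .z)))) (.b .z (.c (.a (.l 16) .z) .z))))) (.b (.c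
(.l 6) (.a (.c (.l 6) (.b (.l 6) (.a (.c (.l 6) (.b (.l 6) .z)) (.l 6)))) (.l 6))) (.c (.a (.b (.l 6) (.c (.l 6) (.a (.b (.c (.l 6) .z) .z) (.l 6))))
(.l 6)) (.a (.b (.c (.a (.b (.l 6) (.c (.l 6) .z)) (.l 6)) (.a .z (.c (.b (.l 6) .z) .z))) (.c (.a .z (.b (.c (.l 6) .z) .z)) .z)) (.c (.l 6) (.b (.l
6) (.a (.c (.b (.l 6) .z) .z) (.l 6))))))))) (.a (.c (.a (.c (.l 16) (.b (.c (.b (.b (.a (.l 16) .z) (.l 16)) (.l 16)) (.b .z (.b (.a (.l 16) .z) (.l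
16)))) (.l 16))) (.c (.b (.a (.c (.l 16) (.b (.a (.l 16) .z) (.l 16))) (.c (.a (.l 16) .z) .z)) (.a (.l 16) (.a (.l 16) (.c (.l 16) (.b .z (.l
16)))))) (.b (.a (.c (.b .z (.a (.l 16) .z)) .z) .z) (.a (.b (.c (.l 16) (.a (.l 16) .z)) (.l 16)) (.a (.c (.b .z (.l 16)) .z) .z))))) (.b (.c (.a (.b
(.c .z (.a (.l 20) .z)) .z) .z) (.a (.b (.c (.a (.l 20) (.b (.l 20) .z)) (.l 20)) (.c (.a (.b (.l 20) .z) .z) (.a (.l 20) (.b (.l 20) .z)))) (.a (.b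
(.c .z (.a (.l 20) .z)) .z) .z))) (.a (.c (.b (.c (.b (.a (.l 16) .z) (.l 16)) (.b .z (.a (.l 16) .z))) (.c (.l 16) (.b (.a (.l 16) .z) (.l 16)))) (.b
(.c .z (.b (.a (.l 20) .z) .z)) (.c (.b .z (.a (.l 16) .z)) .z))) (.c (.a (.b .z (.c (.a (.l 16) .z) .z)) .z) (.a .z (.b .z (.b .z (.l 41)))))))) (.a
.z (.c (.b (.a (.c (.b (.a (.c (.b (.l 6) .z) .z) (.l 6)) (.a .z (.c (.b (.l 6) .z) .z))) (.b (.a .z (.c (.b (.l 6) .z) .z)) .z)) (.c (.b (.l 6) (.a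
(.c (.l 6) (.b (.l 6) .z)) (.l 6))) (.b (.a (.c (.l 6) (.b (.l 6) .z)) (.l 6)) (.a .z (.c (.l 6) (.a .z (.l 6))))))) (.a .z (.c (.a (.b (.c (.b (.l 6)
.z) .z) .z) (.b (.c (.l 6) (.a .z (.l 6))) (.a .z (.c (.l 6) .z)))) .z))) (.a .z (.b (.c (.a .z (.b (.c (.l 6) .z) .z)) .z) (.a (.b .z (.c .z (.b (.a
.z (.l 10)) (.l 10)))) (.c (.b .z (.b (.a .z (.l 10)) (.l 10))) (.b (.b .z (.a .z (.l 10))) (.l 10)))))))))))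

theorem vQ65 : ev3 Q65 J3_0 J4_7 J4_12 = 340926043106412945461697 := by decide +kernel

noncomputable def Q87 : QT3 :=
(.a (.b (.c (.a (.b (.c .z (.a (.b .z (.c .z (.c .z (.c .z (.c (.l 28) .z))))) .z)) (.c (.c .z (.c .z (.c (.b .z (.c .z (.b (.b .z (.l 17)) (.l 17))))
(.b (.c (.b .z (.a .z (.l 17))) (.l 17)) (.l 17))))) (.c (.c (.c (.c (.l 17) (.b .z (.b (.b .z (.l 17)) (.l 17)))) .z) .z) (.c .z (.b (.c .z (.a (.c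
(.l 28) .z) .z)) .z))))) (.b .z (.c (.a (.b (.c .z (.a (.b .z (.c .z (.c .z (.l 17)))) .z)) (.c .z (.c .z (.c (.c .z (.l 17)) (.l 17))))) (.b .z (.c
.z (.a (.b .z (.c .z (.c .z (.l 17)))) .z)))) (.a (.b .z (.c (.c (.c (.l 17) .z) .z) (.c (.c (.b .z (.c (.l 23) .z)) .z) .z))) (.b .z (.c (.a (.b .z
(.c (.c (.l 17) .z) .z)) .z) (.a (.b .z (.c (.c (.l 23) .z) .z)) .z))))))) .z) (.b (.c (.a (.c (.c .z (.a (.c (.c .z (.b .z (.c (.b .z (.l 17)) (.l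
17)))) (.l 17)) (.b (.c .z (.c (.c (.b .z (.l 17)) (.l 17)) (.l 17))) (.c (.a (.c .z (.c .z (.l 17))) .z) (.l 17))))) (.c (.c (.c (.l 17) (.c (.b .z
(.a (.l 17) .z)) .z)) .z) (.c (.b (.a .z (.c (.a (.c .z (.l 23)) (.l 23)) .z)) (.a (.c .z (.a .z (.c (.l 23) .z))) (.c (.a (.c .z (.l 23)) (.l 23))
(.c (.b .z (.l 23)) .z)))) .z))) (.c (.c (.a .z (.b .z (.c (.b .z (.c (.l 50) .z)) .z))) (.a (.b (.c .z (.a (.c (.c .z (.l 17)) (.l 17)) (.b (.c .z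
(.l 17)) .z))) (.a (.c .z (.b (.a (.l 17) .z) .z)) .z)) (.b (.a (.c .z (.b (.c .z (.l 17)) .z)) .z) .z))) (.a (.b (.c (.c (.c (.l 17) .z) .z) (.c (.c
(.l 23) .z) .z)) (.c (.a (.b (.c (.c (.l 17) .z) .z) (.c .z (.c .z (.l 23)))) .z) (.c (.c (.l 23) .z) .z))) (.b (.c (.a (.b (.c (.c (.l 17) .z) .z)
.z) .z) (.c (.c (.l 23) .z) .z)) (.c .z (.a (.b (.c (.c (.l 23) .z) .z) .z) .z)))))) .z) (.a (.c (.c (.a (.c (.b (.c (.a .z (.b .z (.c (.l 15) .z)))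
.z) (.c (.a (.b .z (.c (.l 15) .z)) (.l 15)) .z)) (.b (.a (.c (.c (.c .z (.l 17)) (.l 17)) (.l 17)) (.c (.b (.c .z (.l 17)) .z) (.l 17))) (.a (.c (.b
(.l 17) (.a (.l 17) .z)) (.l 17)) (.c .z (.b (.l 17) .z))))) (.c (.b (.c (.c (.b (.c (.l 15) .z) (.l 15)) .z) .z) (.c (.c (.l 15) (.b (.a (.l 15) .z)
(.l 15))) .z)) (.b (.a (.c .z (.b (.l 17) (.a (.l 17) .z))) .z) (.a .z (.c (.l 21) (.b (.a .z (.l 21)) (.l 21))))))) (.a (.c (.c (.c (.l 17) (.c (.l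
17) (.b (.b .z (.l 17)) (.l 17)))) .z) (.c (.a (.c .z (.a .z (.c .z (.l 23)))) (.c (.a .z (.c .z (.l 23))) (.l 23))) (.b .z (.c (.c (.l 23) (.b .z (.l
23))) .z)))) (.b (.c (.a (.c (.c (.l 17) (.c (.l 17) .z)) .z) (.c (.b (.c (.l 17) .z) .z) (.c .z (.c .z (.l 23))))) (.c (.c (.l 23) (.c (.l 23) (.b .z
(.l 23)))) .z)) (.c (.a (.c (.b (.a (.l 17) .z) .z) .z) .z) (.a (.c (.l 23) .z) (.b (.c (.l 23) .z) .z)))))) .z) (.b (.a (.c (.c (.c .z (.a (.c (.b .z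
(.c .z (.l 21))) .z) (.c (.b (.c .z (.l 21)) (.c .z (.l 21))) .z))) (.c (.a .z (.b .z (.c (.l 27) .z))) (.a (.b (.c (.c (.l 23) .z) .z) .z) .z))) .z)
(.c (.c (.c .z (.c (.c (.b .z (.c .z (.l 21))) (.a (.c (.l 21) .z) .z)) .z)) (.c (.a (.b .z (.c (.l 27) .z)) .z) .z)) .z)) (.a (.c (.c (.c (.c (.c (.a
(.l 15) (.c (.l 15) .z)) .z) (.c .z (.b .z (.c .z (.l 21))))) (.c (.l 21) (.c (.l 21) (.a (.b .z (.l 21)) .z)))) (.b .z (.a .z (.c (.c .z (.l 27))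
.z)))) .z) (.c (.c (.b (.c .z (.c (.c (.l 21) (.a (.l 21) .z)) .z)) (.a (.c .z (.c (.l 21) .z)) .z)) (.b (.a (.c (.c (.l 27) .z) .z) .z) .z)) .z))))))
(.b .z (.c (.a .z (.b .z (.c (.a (.b .z (.c .z (.c (.c (.c .z (.l 47)) (.c (.l 47) .z)) .z))) .z) .z))) .z)))

theorem vQ87 : ev3 Q87 J3_2 J3_2 J3_7 = 63179958299978794800351 := by decide +kernel

noncomputable def Q32 : QT3 :=
(.b (.c (.c (.b (.a (.a (.b .z (.b (.a (.l 64) .z) (.a (.l 64) .z))) .z) .z) .z) .z) (.b (.c .z (.a (.b .z (.c .z (.a (.b (.c .z (.a (.l 20) .z)) (.c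
(.a (.l 20) .z) (.l 20))) .z))) .z)) (.c (.a (.b .z (.c .z (.a (.b (.c .z (.a (.l 20) .z)) (.c (.a (.l 20) .z) (.l 20))) .z))) .z) (.a (.a (.b (.c (.b
(.c .z (.a (.l 20) .z)) (.c (.a (.l 20) .z) (.l 20))) (.l 20)) (.l 20)) (.b (.c .z (.a (.b (.c .z (.l 20)) (.l 20)) .z)) (.c (.a (.b (.c .z (.l 20))
(.l 20)) .z) (.a (.l 20) (.a (.l 20) (.c .z (.l 20))))))) .z)))) (.c (.b (.c (.a .z (.a .z (.c .z (.b .z (.a .z (.a .z (.l 18))))))) (.a (.b .z (.c .z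
(.a (.b (.c .z (.a (.l 20) .z)) (.c (.a (.l 20) .z) (.l 20))) .z))) (.a (.b .z (.c (.a (.b .z (.l 51)) .z) .z)) (.b .z (.a .z (.a .z (.a .z (.c (.l
18) .z)))))))) (.c (.a (.b .z (.c .z (.a (.b (.c .z (.a (.l 20) .z)) (.c (.a (.l 20) .z) (.l 20))) .z))) (.a (.b (.c .z (.b .z (.a (.l 51) .z))) (.c
(.b .z (.a (.l 51) .z)) (.a (.l 51) (.a (.l 51) .z)))) (.b (.c (.a .z (.c .z (.a (.l 18) .z))) (.a .z (.a (.a .z (.l 18)) (.l 18)))) (.c (.a (.a .z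
(.l 18)) (.c .z (.l 18))) (.a (.a .z (.a .z (.l 18))) (.l 18)))))) (.a (.a (.b (.c (.b (.c .z (.a (.l 20) .z)) (.c (.a (.l 20) .z) (.l 20))) (.l 20))
(.l 20)) (.b (.c .z (.a (.b (.c .z (.l 20)) (.l 20)) .z)) (.c (.a (.b (.c .z (.l 20)) (.l 20)) .z) (.a (.l 20) (.a (.l 20) (.c .z (.l 20))))))) (.a
(.a (.c (.b (.l 51) (.a .z (.l 51))) .z) .z) (.a .z (.a (.b .z (.a (.b .z (.l 18)) (.l 18))) (.b (.a (.b .z (.l 18)) (.l 18)) (.l 18)))))))) (.a (.b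
(.c (.a (.b (.c (.b (.c .z (.a (.l 20) .z)) (.c (.a (.l 20) .z) (.l 20))) (.l 20)) (.l 20)) (.b (.c .z (.a (.b (.c .z (.l 20)) (.l 20)) .z)) (.c (.a
(.b (.c .z (.l 20)) (.l 20)) .z) (.a (.l 20) (.a (.l 20) (.c .z (.l 20))))))) (.a (.l 20) (.b (.c (.a (.l 20) (.a (.l 20) (.c .z (.l 20)))) (.l 20))
(.l 20)))) (.c (.a (.l 20) (.a (.l 20) (.b (.c (.a (.l 20) (.c .z (.l 20))) (.l 20)) (.l 20)))) (.l 20))) (.a (.c (.b .z (.a (.c (.b .z (.a (.c .z (.l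
20)) .z)) (.b (.a (.c .z (.l 20)) .z) (.l 20))) .z)) (.b (.a (.c (.b .z (.a (.c .z (.l 20)) .z)) (.b (.a (.l 20) .z) (.l 20))) .z) (.a (.l 20) (.a (.c
(.b .z (.l 20)) (.l 20)) (.c .z (.b .z (.l 20))))))) (.b .z (.a .z (.b (.a .z (.c (.a .z (.b .z (.l 18))) .z)) (.a (.c (.a .z (.b .z (.l 18))) .z) (.c
(.l 18) .z)))))))))

theorem vQ32 : ev3 Q32 J3_0 J4_6 J4_9 = 101090054446324278863368 := by decide +kernel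

noncomputable def Q86 : QT3 :=
(.b .z (.c (.a (.b (.c (.a (.b .z (.c (.c (.b (.b .z (.b .z (.l 19))) (.l 19)) (.c (.b .z (.l 19)) (.a .z (.b .z (.l 19))))) (.c (.c .z (.a (.b .z (.l
23)) .z)) (.b (.b .z (.b .z (.l 23))) (.l 23))))) (.b .z (.c (.a (.b .z (.a (.l 19) .z)) .z) .z))) (.a (.b .z (.c (.b (.b .z (.b .z (.l 23))) (.l 23))
(.c (.b (.b .z (.b .z (.l 23))) (.l 23)) (.c (.b .z (.l 23)) (.c (.b .z (.l 23)) .z))))) (.b .z (.c (.a (.b .z (.a (.l 23) .z)) .z) (.a (.b .z (.c (.a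
(.l 23) .z) .z)) .z))))) (.c (.c (.a (.l 19) (.a (.a (.l 19) .z) .z)) (.c (.a (.b (.c (.a .z (.b .z (.l 19))) .z) (.c (.l 19) (.a .z (.b .z (.l
19))))) (.b (.c (.a (.a (.l 19) .z) .z) .z) (.a (.a (.l 19) .z) .z))) (.a (.b (.c (.a (.l 23) .z) (.l 23)) (.a (.c .z (.b (.l 23) .z)) .z)) .z))) (.c
(.a (.c (.b (.l 23) (.a (.l 23) (.c (.b (.l 23) .z) (.l 23)))) (.l 23)) (.c (.b (.a (.a (.l 23) .z) .z) .z) (.b (.a (.a (.l 23) .z) .z) (.a (.a (.l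
23) .z) .z)))) (.c (.a (.l 23) (.b (.a (.a (.l 23) .z) .z) (.c (.a (.a (.l 23) .z) .z) .z))) (.a (.c (.a (.b (.l 23) .z) (.b (.l 23) .z)) .z) .z)))))
.z) (.a (.b (.c .z (.a (.b .z (.c .z (.c (.b .z (.l 41)) .z))) .z)) (.c (.b (.c .z (.a (.c .z (.b .z (.a .z (.l 37)))) .z)) (.a (.c .z (.c .z (.b (.l
37) (.b (.l 37) .z)))) (.c .z (.b (.a (.a (.l 37) .z) .z) .z)))) (.b (.a (.c (.c (.b (.a .z (.l 37)) (.l 37)) .z) (.c (.c (.a (.l 41) .z) (.c (.l 41)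
.z)) .z)) .z) (.a (.b (.c (.c (.l 37) (.c (.l 37) .z)) .z) .z) .z)))) (.b .z (.c .z (.a (.b .z (.b .z (.c (.c (.a .z (.l 29)) (.c (.l 29) .z)) .z)))
(.b .z (.c (.a (.b .z (.c (.l 29) .z)) .z) .z))))))))

theorem vQ86 : ev3 Q86 J4_5 J3_2 J3_6 = 45062846302670949105932 := by decide +kernel

noncomputable def Q195 : QT3 :=
(.b .z (.c .z (.a (.b (.c (.a (.b (.c .z (.a (.b .z (.c .z (.c .z (.c .z (.b .z (.b .z (.l 26))))))) (.b .z (.c .z (.a (.b .z (.c .z (.c .z (.l 26))))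
.z))))) (.c .z (.a (.b (.c .z (.c (.b (.c .z (.b .z (.l 26))) (.b (.b (.l 26) .z) .z)) (.b (.l 26) .z))) .z) (.b (.c .z (.a (.b (.c .z (.c (.l 26)
.z)) .z) .z)) .z)))) .z) (.a (.b (.c (.a (.b (.c .z (.a (.b .z (.c (.b .z (.l 26)) (.c (.l 26) .z))) .z)) (.c (.c (.b .z (.l 26)) (.b (.b (.a .z (.l
26)) (.l 26)) (.a (.l 26) .z))) (.a (.b (.c (.c (.l 26) .z) .z) .z) .z))) (.b .z (.c (.a (.b .z (.c (.c (.l 26) .z) .z)) .z) .z))) .z) (.c (.a (.b (.c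
(.a (.b (.c (.l 26) .z) .z) (.b (.c (.c (.l 26) .z) .z) .z)) .z) (.c (.a .z (.b .z (.c .z (.l 29)))) (.a (.b (.c .z (.l 29)) (.l 29)) (.b (.l 29) (.b
(.l 29) .z))))) (.b (.c .z (.a (.b .z (.b .z (.l 29))) (.b .z (.b .z (.l 29))))) (.c (.a (.b (.c .z (.l 29)) .z) (.b (.a (.l 29) .z) .z)) (.a (.b (.l
29) .z) .z)))) (.a (.b (.c (.a (.b .z (.b .z (.l 29))) (.b .z (.b .z (.l 29)))) (.b .z (.b .z (.l 29)))) (.b (.l 29) (.b (.l 29) (.a (.b (.l 29) .z)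
.z)))) (.b (.b .z (.b .z (.l 29))) (.b (.a (.l 29) (.b (.a (.l 29) .z) .z)) .z))))) .z)) (.c .z (.a (.b (.c (.a (.b (.c (.a (.b (.c .z (.l 29)) .z)
.z) .z) .z) .z) .z) .z) .z))) .z)))

theorem vQ195 : ev3 Q195 J3_5 J2_2 J2_2 = 25034720964493057763134 := by decide +kernel

end Pool.Agent.Helper64.SPW.Dat3
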