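import Pool.Agent.Helper64.SPW.Iv3

/-! Boxes of three traces, part 7 (data and kernel evaluation). -/

set_option maxRecDepth 1000000
set_option maxHeartbeats 0

namespace Pool.Agent.Helper64.SPW.Dat3

noncomputable def Q170 : QT3 :=
(.c (.a (.b (.c (.c (.l 14) (.b (.c (.c (.l 14) (.a (.b (.l 14) (.c (.l 14) .z)) (.l 14))) (.c (.a .z (.c (.l 14) (.b (.l 14) .z))) .z)) (.c (.c (.a
(.b (.l 14) .z) (.l 14)) (.a .z (.b (.l 14) (.a .z (.l 14))))) (.b (.a .z (.c .z (.a (.c .z (.l 8)) .z))) (.a .z (.c .z (.b (.a (.l 8) .z) .z)))))))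
(.b (.c (.c (.c (.a (.a .z (.a (.c .z (.l 8)) (.l 8))) (.a (.l 8) (.c .z (.l 8)))) (.a (.a (.a .z (.c .z (.l 8))) (.l 8)) (.l 8))) (.b (.l 8) (.a (.b
(.c (.l 8) .z) .z) (.c (.l 8) (.b (.l 8) .z))))) (.b (.c (.a (.b (.c (.l 8) .z) .z) (.c (.l 8) (.b (.l 8) .z))) .z) (.c .z (.a .z (.b (.c .z (.c .z
(.l 9))) (.c .z (.c .z (.l 9)))))))) (.c (.b (.c (.a .z (.c (.l 8) (.b (.l 8) .z))) .z) .z) (.b (.c .z (.c (.a (.l 27) .z) (.a .z (.c .z (.a .z (.l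
9)))))) (.c (.c .z (.c .z (.l 27))) (.c (.l 27) .z)))))) (.c (.c (.b (.c (.b (.l 14) (.b (.b (.l 14) .z) .z)) (.b (.a (.c (.l 14) (.a .z (.l 14))) (.l
14)) .z)) .z) (.b (.b (.c (.a .z (.c (.a .z (.l 14)) .z)) .z) (.c .z (.a (.b .z (.l 23)) (.c .z (.b .z (.l 23)))))) (.b (.c .z (.a (.l 23) (.c .z (.a
(.l 23) .z)))) (.c (.a .z (.c .z (.a .z (.l 25)))) (.a (.c (.a (.l 23) .z) (.l 23)) .z))))) (.b (.c (.b .z (.b .z (.l 23))) (.c (.b (.c .z (.l 27))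
(.b (.b (.l 27) .z) (.l 23))) (.b (.c (.l 27) (.a (.l 27) .z)) (.c (.b .z (.l 23)) .z)))) (.c (.c (.a (.l 23) (.b (.l 23) (.c (.a (.l 23) .z) (.l
23)))) (.l 23)) (.c (.b (.c (.l 23) (.a (.l 23) (.b (.l 23) .z))) (.c (.a (.l 23) (.b (.l 23) .z)) (.a (.b (.l 23) .z) .z))) (.b (.c (.a (.b (.l 23)
.z) .z) .z) (.c .z (.a (.b .z (.l 19)) (.l 19))))))))) (.b (.c (.c (.l 14) (.c (.l 14) (.a (.c (.b (.l 14) (.a (.c (.l 14) .z) (.l 14))) (.b (.a (.c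
(.l 14) .z) (.l 14)) .z)) (.l 14)))) (.c (.b (.c (.a (.c .z (.a (.l 8) (.c .z (.l 8)))) (.c (.a (.c (.l 14) .z) (.b .z (.l 14))) .z)) (.a (.l 8) (.c
(.a (.c (.a (.l 8) .z) (.l 8)) (.c .z (.a (.l 8) .z))) (.l 8)))) (.c (.b (.a (.c (.a (.c .z (.l 8)) .z) (.l 8)) (.c (.a .z (.l 14)) .z)) (.a (.c (.b
(.a (.l 8) .z) .z) (.b (.a .z (.l 8)) .z)) (.c .z (.a (.c .z (.l 8)) .z)))) (.b (.a (.c (.b (.l 8) (.a .z (.l 8))) (.b (.a .z (.l 8)) .z)) (.c (.a (.l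
8) (.c .z (.l 8))) (.l 8))) (.a .z (.c (.b (.l 8) .z) .z))))) (.b (.c (.b (.l 8) (.a (.c (.b (.l 8) (.a .z (.l 8))) (.b (.a .z (.l 8)) .z)) (.c (.l 8)
(.b (.l 8) (.a .z (.l 8)))))) (.b (.a (.c (.b (.l 8) (.a .z (.l 8))) (.b (.a .z (.l 8)) .z)) (.c (.l 8) (.b (.l 8) (.a .z (.l 8))))) (.a (.c .z (.b .z
(.l 9))) (.c (.b (.a .z (.l 8)) .z) .z)))) (.c (.b (.a .z (.c (.b (.a .z (.l 8)) .z) .z)) .z) (.b (.a (.c .z (.c (.a .z (.l 9)) (.l 9))) (.c .z (.b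
(.a (.l 9) .z) (.l 9)))) (.c (.a .z (.c .z (.a .z (.l 9)))) (.a (.c .z (.l 9)) (.b (.l 9) (.c (.l 9) .z))))))))) (.c (.c (.b (.b (.l 14) (.b (.b (.l
14) .z) (.a .z (.l 53)))) .z) (.b (.c (.b (.l 14) (.a .z (.b (.b (.l 14) .z) .z))) (.b (.a .z (.c (.l 14) (.a .z (.l 14)))) .z)) (.c .z (.b .z (.a (.c
(.a (.l 25) .z) (.a .z (.l 25))) .z))))) (.a (.b (.c (.c (.b .z (.c .z (.b .z (.l 23)))) (.b .z (.b .z (.l 23)))) (.c (.b (.c .z (.l 27)) (.b .z (.l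
23))) .z)) (.c (.c (.b (.c .z (.a (.l 23) .z)) .z) (.b (.l 23) (.c .z (.b (.l 23) .z)))) (.c (.b (.c (.l 23) .z) .z) (.b .z (.c (.l 19) .z))))) (.b
(.c (.c .z (.b .z (.c .z (.b .z (.l 23))))) (.c (.b .z (.c (.b .z (.l 23)) .z)) .z)) (.c (.c (.b .z (.a (.c (.l 25) .z) .z)) (.b (.a (.c .z (.l 23))
.z) .z)) .z)))))) (.a (.b (.c (.b (.c (.b (.c (.a (.l 9) (.b (.c (.a (.l 9) .z) (.l 9)) (.l 9))) (.c (.l 9) (.a (.l 9) (.c (.l 9) (.b (.l 9) .z)))))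
(.c (.l 9) (.c (.l 9) (.a (.c (.l 9) (.b (.l 9) .z)) .z)))) (.c (.c (.b (.a (.c (.l 9) .z) .z) .z) (.b .z (.a (.c (.b .z (.l 10)) (.l 10)) .z))) (.a
(.l 10) (.c (.a (.l 10) .z) (.a (.c (.a (.l 10) .z) .z) (.c .z (.a .z (.l 11)))))))) (.c (.c (.c (.a (.c .z (.b (.l 9) (.a .z (.l 9)))) (.c (.b (.l 9)
(.a .z (.l 9))) (.l 9))) (.b (.l 9) (.a (.c (.l 9) (.b (.l 9) .z)) (.c (.b (.l 9) .z) .z)))) (.c (.b (.a (.c (.l 9) (.b (.l 9) .z)) (.c (.b (.l 9) .z)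
.z)) .z) .z)) (.c (.c (.b (.a (.c .z (.a (.l 10) .z)) .z) (.a (.a (.c .z (.l 10)) .z) .z)) (.a (.a (.l 10) (.c (.a (.l 10) .z) (.l 10))) .z)) (.a (.c
(.l 10) (.a (.l 10) (.c (.l 10) (.a (.l 10) .z)))) (.c (.a (.c .z (.a (.l 10) .z)) .z) (.a .z (.c (.a .z (.l 11)) (.l 11)))))))) (.c (.c (.a (.c (.a
(.c (.l 10) (.a (.l 10) (.a (.l 10) .z))) (.c (.a (.b (.l 10) .z) .z) .z)) (.a (.c (.a (.a (.l 10) .z) .z) (.a .z (.l 11))) (.c (.a (.a .z (.l 11))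
(.l 11)) (.l 11)))) (.c (.a (.c (.a .z (.l 11)) (.l 11)) (.l 11)) (.l 11))) (.c (.a (.c (.b (.l 11) (.a (.b (.l 11) .z) (.l 11))) (.b (.a .z (.l 11))
.z)) (.l 11)) (.a (.c (.a (.b .z (.a (.l 13) .z)) .z) (.a (.l 13) (.b .z (.l 13)))) (.c (.a (.b (.a .z (.l 11)) .z) (.l 11)) (.a .z (.b (.a .z (.l
11)) .z)))))) (.c (.c (.a (.l 13) (.c (.a (.b (.a (.l 13) .z) (.l 13)) .z) (.l 13))) (.l 13)) (.b (.l 13) (.c (.l 13) (.b (.c (.l 13) (.a (.l 13) (.b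
(.l 13) .z))) (.c (.a (.l 13) .z) .z))))))) (.c (.c (.b .z (.c (.b .z (.c (.a (.l 19) .z) .z)) (.a .z (.a (.a .z (.l 29)) (.l 29))))) (.a (.c (.a (.c
(.a (.c .z (.b (.l 10) .z)) .z) (.b (.l 10) (.a (.l 10) .z))) .z) (.a (.l 10) (.c (.b (.a (.l 10) (.c .z (.l 10))) (.a (.c .z (.l 10)) .z)) (.a (.c
(.l 10) (.b (.l 10) .z)) .z)))) (.c .z (.a (.c .z (.a (.c .z (.b .z (.l 11))) (.c (.b .z (.l 11)) (.l 11)))) (.c (.a (.b .z (.c .z (.l 11))) (.b (.c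
.z (.l 11)) (.l 11))) (.l 11)))))) (.a (.c (.c (.a (.c (.a (.l 10) (.c (.a (.l 10) .z) .z)) (.a .z (.c .z (.b (.l 11) .z)))) (.c (.a .z (.c .z (.l
11))) (.b (.l 11) (.c (.l 11) (.b (.l 11) .z))))) (.c (.c (.b (.a .z (.b (.l 11) .z)) .z) (.a (.b .z (.l 13)) .z)) (.c (.a (.l 13) (.b (.a (.l 13) .z)
(.l 13))) (.l 13)))) (.c (.b (.l 13) (.c (.b (.l 13) (.c (.l 13) (.b (.l 13) .z))) (.b (.c (.b (.l 13) .z) .z) .z))) (.b (.c (.b (.c (.l 13) (.b (.l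
13) .z)) (.c (.b (.l 13) .z) .z)) .z) .z))) (.b (.c (.c (.l 11) (.c (.c (.l 11) (.a (.a .z (.l 11)) (.l 11))) (.c (.a .z (.a .z (.l 11))) (.a (.a (.l
13) .z) .z)))) (.c (.c (.c (.a (.l 13) (.a (.l 13) .z)) (.l 13)) (.b (.l 13) (.c (.l 13) (.b (.l 13) .z)))) (.c (.b (.c (.b (.l 13) .z) .z) .z) .z)))
(.a (.c (.c (.l 11) (.c (.c (.a .z (.l 11)) .z) (.c .z (.l 13)))) (.c (.c (.b (.l 13) .z) .z) .z)) (.c (.c (.l 11) (.c (.c (.l 11) (.a .z (.l 11)))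
.z)) (.b (.c (.c (.c (.l 13) .z) .z) .z) .z))))))) (.b (.c (.b (.c (.b (.c (.a (.c .z (.b .z (.l 9))) (.c (.b (.a .z (.l 8)) .z) .z)) (.a (.c (.l 9)
(.c (.b (.l 9) .z) .z)) .z)) (.c (.a (.l 9) (.c (.b .z (.a (.l 9) .z)) (.b (.a (.l 9) .z) (.c (.l 9) .z)))) (.c (.a (.c (.b (.l 9) .z) .z) .z) .z)))
(.c (.c (.b (.a .z (.c .z (.a .z (.l 11)))) (.a .z (.a .z (.l 11)))) (.a (.a .z (.c .z (.a .z (.l 11)))) (.a (.c (.a .z (.l 11)) (.l 11)) (.l 11))))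
(.a (.c (.a (.c .z (.a .z (.l 11))) (.l 11)) (.l 11)) (.l 11)))) (.c (.c (.c (.b (.a (.l 9) (.c (.l 9) (.b (.l 9) .z))) (.a (.c (.b (.l 9) .z) .z)
.z)) (.b (.a (.c (.b (.l 9) .z) .z) .z) .z)) (.c .z (.b (.a .z (.a .z (.c .z (.l 11)))) (.a .z (.a .z (.a .z (.l 11))))))) (.c (.a (.c .z (.a .z (.c
(.a .z (.l 11)) (.l 11)))) (.a (.c (.c (.a .z (.l 11)) (.l 11)) (.l 11)) (.l 11))) (.a (.c (.a (.c (.a .z (.l 11)) (.l 11)) (.l 11)) (.l 11)) (.l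
11))))) (.a (.c (.l 11) (.c (.c (.c (.a .z (.l 11)) (.a (.a (.b .z (.l 13)) .z) .z)) (.c (.a (.l 13) (.a (.l 13) .z)) (.l 13))) (.b (.c (.l 13) (.b
(.l 13) (.c (.l 13) (.b (.l 13) .z)))) (.c (.b (.l 13) (.c (.l 13) .z)) (.b (.c (.b (.l 13) .z) .z) .z))))) (.b (.c (.l 11) (.c (.c (.l 11) (.c (.a .z
(.l 11)) (.a (.a (.l 13) .z) .z))) (.c (.c (.a (.l 13) (.a (.l 13) .z)) (.l 13)) (.b (.l 13) (.c (.b (.l 13) .z) .z))))) (.a (.c (.l 11) (.c (.c (.l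
11) (.c .z (.a (.l 13) .z))) (.c (.b (.l 13) .z) .z))) (.b (.c (.l 11) (.c (.c (.l 11) (.c (.l 11) .z)) .z)) (.c (.l 11) .z)))))) (.c (.a (.b (.c .z
(.c (.a (.c .z (.a .z (.c .z (.l 11)))) (.c (.a .z (.c .z (.l 11))) (.l 11))) (.l 11))) (.c (.c (.a (.c .z (.l 29)) .z) (.a .z (.c .z (.a .z (.c .z
(.l 11)))))) (.a (.c (.c .z (.a (.c .z (.l 11)) (.l 11))) (.l 11)) (.b (.l 11) (.c (.l 11) (.a (.l 11) (.b (.l 11) .z))))))) (.b (.c (.c .z (.a (.c .z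
(.a .z (.c .z (.l 11)))) (.c (.a .z (.l 11)) (.l 11)))) (.a (.l 11) (.b (.l 11) (.c (.a (.l 11) (.b (.l 11) .z)) (.a (.b (.l 11) .z) .z))))) (.c (.a
(.b (.c .z (.c .z (.l 11))) (.c .z (.a (.c .z (.l 11)) (.b (.l 11) .z)))) (.b (.c (.c .z (.a .z (.l 11))) (.a (.l 11) (.b (.l 11) .z))) .z)) (.a (.b
(.c (.l 11) (.a (.b (.l 11) .z) .z)) (.c (.a (.b (.l 11) .z) .z) .z)) .z)))) (.a (.b (.a (.c (.c (.l 11) (.c (.l 11) (.c (.l 11) (.a .z (.l 11)))))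
(.c (.c (.c .z (.a (.l 13) .z)) (.b (.l 13) .z)) .z)) (.b (.c (.l 11) .z) (.c (.l 11) .z))) (.a (.c (.b (.c (.l 11) (.c (.l 11) (.c (.l 11) .z))) (.c
(.l 11) (.a (.c (.l 11) .z) .z))) .z) (.c (.b (.c (.a (.l 11) (.b (.l 11) .z)) (.a (.b (.l 11) .z) .z)) (.c (.a (.b (.l 11) .z) .z) .z)) (.b .z (.a .z
(.c (.c (.l 11) .z) .z)))))) (.b (.a (.b (.c (.l 11) .z) (.c (.a (.c (.l 11) (.b (.l 11) .z)) (.c (.b (.l 11) .z) .z)) .z)) (.b (.c (.a (.c (.l 11)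
(.b (.l 11) .z)) (.c (.b (.l 11) .z) .z)) .z) .z)) (.a .z (.c .z (.c (.b .z (.c .z (.c (.l 12) .z))) .z)))))))))

theorem vQ170 : ev3 Q170 J4_5 J4_10 J3_6 = 234252639447222817882070 := by decide +kernel

noncomputable def Q17 : QT3 :=
(.c (.c (.b (.a (.c (.c (.a (.c (.c (.l 24) (.b (.a (.l 24) (.a (.l 24) .z)) (.a (.l 24) .z))) (.c .z (.a .z (.b (.a .z (.l 16)) .z)))) (.a (.c (.c
(.b (.a (.l 24) .z) .z) .z) (.c (.b (.a .z (.l 16)) .z) (.b (.l 16) .z))) (.c .z (.b (.l 16) (.a (.c .z (.l 16)) (.l 16)))))) (.b (.l 16) (.a (.c (.b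
(.c .z (.l 16)) .z) (.l 16)) (.c (.a (.b (.l 16) (.c .z (.l 16))) (.l 16)) (.b (.l 16) (.a (.l 16) (.a (.l 16) .z))))))) (.c (.b (.a (.c (.l 16) (.c
(.l 16) (.b .z (.a .z (.l 16))))) (.c (.l 16) (.b (.l 16) (.a (.l 16) (.a (.l 16) .z))))) (.a (.c (.l 16) (.b (.l 16) (.c (.b (.l 16) .z) .z))) (.b
(.c (.a (.l 16) (.a (.l 16) .z)) (.a (.c (.l 16) .z) .z)) (.c (.a (.c (.l 16) .z) .z) .z)))) (.b (.a .z (.c (.b .z (.a (.c (.l 16) .z) .z)) .z)) .z)))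
(.c (.a (.c (.b (.a (.c .z (.a (.c .z (.l 16)) .z)) .z) (.a (.c .z (.a (.l 16) (.c .z (.l 16)))) .z)) (.b (.a (.l 16) (.c .z (.b (.a (.l 16) .z) .z)))
(.a (.b (.c (.l 16) .z) .z) .z))) (.b .z (.c .z (.a .z (.c (.b .z (.l 29)) .z))))) (.a (.b (.c (.a (.c (.b (.l 16) .z) .z) .z) .z) (.c .z (.a .z (.c
.z (.a (.c .z (.l 18)) (.l 18)))))) (.b (.a .z (.c .z (.c .z (.a (.c .z (.l 19)) (.l 19))))) (.c (.a .z (.c .z (.a .z (.b .z (.l 17))))) (.a .z (.c .z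
(.a (.l 19) .z)))))))) (.a (.c (.b (.c (.a (.c (.c (.a (.l 24) .z) .z) .z) .z) (.a (.c .z (.b (.c .z (.a .z (.l 16))) .z)) (.b (.c (.a .z (.a (.l 16)
.z)) (.a (.c (.l 16) .z) .z)) .z))) (.c (.b (.a (.c (.c (.a (.l 24) .z) .z) .z) .z) (.a .z (.c .z (.a .z (.a .z (.b .z (.l 12))))))) .z)) (.b (.c (.a
(.b (.c (.c (.b (.l 16) .z) .z) .z) .z) .z) (.a (.b (.c .z (.a (.l 36) .z)) (.a (.l 36) .z)) .z)) (.c .z (.a (.a (.l 36) (.a (.l 36) (.b .z (.l 36))))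
.z)))) (.a (.c (.b (.c .z (.a .z (.b .z (.c .z (.a .z (.l 17)))))) (.c (.a (.b (.c .z (.a .z (.c (.l 12) .z))) (.c .z (.b (.a (.l 12) .z) .z))) (.b .z
(.c (.a .z (.l 15)) .z))) (.a (.c (.a (.c (.b .z (.l 12)) .z) .z) .z) (.b (.c .z (.a .z (.l 17))) .z)))) (.c .z (.a (.c .z (.a .z (.b (.c .z (.l 18))
(.l 18)))) (.c (.a (.b .z (.c .z (.l 18))) (.c .z (.l 18))) (.l 18))))) (.c (.b (.a (.c .z (.b (.c .z (.c .z (.l 17))) (.a (.c .z (.l 17)) (.c .z (.l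
17))))) (.c (.b .z (.a (.c (.l 15) .z) (.l 15))) .z)) (.a (.c (.b (.c (.a .z (.l 15)) .z) (.l 15)) (.b .z (.a .z (.c (.l 15) .z)))) (.c (.l 15) (.b
(.a .z (.c (.l 15) .z)) (.l 15))))) (.b (.a (.c (.c (.a (.c (.l 17) .z) (.l 17)) .z) (.c .z (.a .z (.c .z (.l 19))))) (.c (.b (.c (.c .z (.l 17)) (.l
17)) (.a (.l 17) .z)) (.a .z (.c (.a .z (.l 17)) .z)))) (.a (.c (.b (.a (.c (.l 17) .z) .z) .z) .z) (.c (.b .z (.a .z (.c (.l 15) .z))) .z))))))) (.b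
(.a (.c (.b (.c .z (.a .z (.c .z (.a .z (.b .z (.c (.l 19) .z)))))) (.c (.a (.b .z (.c (.a (.l 36) .z) .z)) (.c .z (.a .z (.c (.a .z (.l 18)) (.l
18))))) (.a .z (.c (.a (.c (.l 18) .z) .z) .z)))) (.c (.a (.c (.b (.b .z (.c .z (.b .z (.l 22)))) (.c .z (.b (.l 22) (.a .z (.l 22))))) (.b .z (.c (.b
(.b .z (.l 22)) (.l 22)) .z))) (.c (.a (.b .z (.c .z (.l 22))) (.b .z (.b .z (.c .z (.l 22))))) (.b .z (.c (.a (.l 22) (.a (.l 22) .z)) .z)))) (.b (.c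
(.b (.a .z (.c .z (.l 27))) (.c .z (.a .z (.l 27)))) (.l 27)) (.c (.a (.c .z (.l 27)) (.c (.a .z (.l 27)) (.l 27))) (.l 27))))) (.c (.a (.c (.a (.c
(.a .z (.c .z (.b .z (.l 18)))) (.a (.c (.b .z (.l 18)) .z) .z)) (.c (.a (.c (.b .z (.l 18)) .z) (.c .z (.a .z (.l 19)))) (.a (.c .z (.l 19)) (.l
19)))) (.a (.c (.a (.c .z (.b .z (.l 19))) (.b (.b .z (.l 19)) (.l 19))) (.b .z (.b (.c (.l 19) .z) .z))) (.b (.c (.b .z (.c (.l 19) .z)) .z) (.c (.l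
19) (.b .z (.l 19)))))) (.c (.a (.c (.a (.c (.a .z (.l 19)) (.l 19)) (.l 19)) (.l 19)) (.c (.l 19) (.b (.c (.l 19) (.b .z (.l 19))) (.l 19)))) (.b .z
(.c (.a (.b (.c (.l 19) .z) (.l 19)) (.c (.b .z (.l 19)) .z)) .z)))) (.a (.c (.b (.c .z (.a .z (.b (.c .z (.l 26)) .z))) .z) (.b (.c .z (.a (.l 27)
(.b .z (.l 27)))) (.a (.l 27) (.c (.b .z (.l 27)) (.l 27))))) (.c (.a (.b (.c .z (.l 26)) .z) (.c .z (.b (.l 26) (.c .z (.b (.l 26) .z))))) (.a (.b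
(.c (.b (.c (.l 26) .z) .z) .z) (.c .z (.a (.l 27) .z))) (.c (.b (.a (.l 26) (.c (.l 26) .z)) (.a (.c (.l 26) .z) (.l 26))) .z)))))) (.a (.c (.c (.a
(.c (.b (.a (.l 36) (.a (.l 36) .z)) (.l 36)) (.c (.a (.l 36) .z) .z)) (.a (.c .z (.c .z (.a (.b .z (.l 18)) (.l 18)))) (.c (.a .z (.b .z (.c .z (.l
18)))) (.a (.c (.b .z (.l 18)) (.l 18)) (.l 18))))) (.a .z (.a (.c (.c (.l 18) (.a .z (.l 18))) .z) (.c (.b (.a (.c (.l 18) .z) .z) (.a (.l 18) (.c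
(.l 18) .z))) (.b .z (.a (.c (.l 18) .z) .z)))))) (.c (.a (.b (.c .z (.b (.c (.a .z (.l 22)) (.a (.l 22) .z)) .z)) .z) (.a (.c (.b (.c .z (.b (.l 22)
.z)) .z) (.b (.c (.a (.l 22) .z) .z) .z)) (.c (.b (.a (.c .z (.l 22)) (.l 22)) .z) (.c .z (.b .z (.l 27)))))) (.a (.b (.c (.c .z (.l 27)) (.l 27)) (.c
(.b (.c .z (.l 27)) .z) (.l 27))) (.c (.c (.a (.b .z (.l 27)) (.l 27)) (.l 27)) (.l 27))))) (.a (.c (.c (.a (.c (.a (.b (.c .z (.l 18)) (.l 18)) (.l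
18)) (.a (.c (.l 18) (.b .z (.l 18))) (.c (.a (.l 18) .z) .z))) (.c (.a (.c (.l 18) (.a (.l 18) .z)) .z) (.a .z (.c (.a .z (.l 19)) (.l 19))))) (.a
(.c .z (.a .z (.b .z (.b (.l 22) .z)))) (.b (.c (.b (.l 19) (.a .z (.l 19))) (.b (.a .z (.l 19)) .z)) .z))) (.c (.b (.a (.c .z (.c .z (.l 27))) .z)
(.a (.c .z (.c .z (.l 27))) (.c .z (.c .z (.l 27))))) (.l 27))) (.b (.c (.a (.c (.c (.a (.c .z (.l 19)) (.l 19)) (.l 19)) (.c (.l 19) (.b (.c (.l 19)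
.z) (.l 19)))) (.c (.a (.l 19) (.c .z (.l 19))) (.c (.a (.l 19) (.c (.l 19) .z)) .z))) (.c .z (.a (.c (.a (.l 27) .z) (.l 27)) .z))) (.c (.a (.c (.a
(.c (.c .z (.l 19)) (.l 19)) (.l 19)) (.c (.a (.b (.l 19) .z) (.l 19)) (.a .z (.b (.l 19) .z)))) (.b (.c (.a (.c .z (.l 19)) .z) (.c (.l 19) (.a (.l
19) .z))) (.c (.a (.c .z (.l 19)) .z) (.a (.l 19) (.c .z (.l 19)))))) (.a (.c .z (.l 27)) (.c .z (.a (.c .z (.l 27)) .z))))))))) (.a (.b (.c (.c (.c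
(.c (.c (.l 27) .z) .z) .z) .z) .z) (.c (.c (.c (.c (.c (.b (.b (.l 27) (.a (.l 27) .z)) .z) .z) .z) (.a (.b .z (.c .z (.b .z (.c (.l 36) .z)))) .z))
(.b (.c (.a (.c (.c .z (.l 43)) .z) .z) .z) (.a (.c (.c (.c .z (.b (.l 43) .z)) .z) .z) .z))) .z)) (.b (.c (.c (.a (.c (.b (.c (.c (.l 27) .z) .z) (.c
(.c (.l 27) .z) .z)) .z) (.c .z (.a .z (.c .z (.c (.a .z (.l 35)) .z))))) (.a (.c (.b (.a .z (.c (.l 41) .z)) .z) .z) (.c (.c (.c (.l 41) (.b (.l 41)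
(.a (.l 41) .z))) .z) .z))) .z) (.a .z (.b (.c (.c (.a .z (.c .z (.a .z (.c (.l 35) .z)))) .z) .z) .z)))))

theorem vQ17 : ev3 Q17 J3_0 J4_3 J3_7 = 162127616520798712498822 := by decide +kernel

noncomputable def Q193 : QT3 :=
(.a (.b (.a (.b (.c (.c (.c (.b (.a (.c (.b (.a (.l 14) (.c (.l 14) .z)) .z) (.b .z (.a .z (.c .z (.l 17))))) .z) (.a (.c .z (.c (.c .z (.l 17)) (.c
(.a (.l 17) .z) .z))) .z)) (.b (.a .z (.c .z (.c (.c .z (.l 19)) (.c (.b (.l 19) .z) .z)))) (.c (.c .z (.a .z (.c .z (.a .z (.l 19))))) (.c (.a .z (.b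
(.c (.l 19) .z) .z)) (.a (.b (.c .z (.l 21)) (.l 21)) (.b .z (.c .z (.l 21)))))))) (.c (.c (.c (.b (.a (.c (.b .z (.l 21)) (.l 21)) (.c .z (.l 21)))
(.b (.c (.l 21) (.a (.l 21) .z)) (.c (.a (.l 21) .z) .z))) (.b (.b (.l 21) (.c (.l 21) (.a (.l 21) .z))) .z)) (.b (.c (.b (.c (.a (.l 21) .z) .z) .z)
.z) .z)) .z)) .z) (.a (.c (.c (.c (.c .z (.b (.c (.a (.b (.l 17) .z) .z) .z) .z)) (.c .z (.c (.b (.a .z (.b (.l 21) .z)) .z) (.b (.b (.c (.l 21) .z)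
.z) .z)))) .z) .z) .z)) (.b (.a (.c (.b (.c (.c (.c (.b .z (.c .z (.c .z (.l 16)))) .z) (.c (.c .z (.c .z (.a .z (.l 19)))) (.c (.l 19) (.c (.l 19)
(.b (.l 19) .z))))) .z) (.c (.c (.c (.b (.c .z (.c (.l 16) .z)) (.c (.c (.l 16) .z) .z)) .z) (.c (.c (.a .z (.c .z (.l 19))) (.l 19)) (.c (.b (.l 19)
(.c (.l 19) .z)) .z))) .z)) .z) (.c (.b (.c (.a (.c (.c (.c .z (.b .z (.l 16))) (.c (.l 16) .z)) (.c (.c .z (.l 19)) (.l 19))) (.b (.c (.c .z (.c (.l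
16) .z)) (.c (.c .z (.l 19)) (.l 19))) (.c (.c (.c .z (.l 16)) (.c (.l 16) .z)) (.a (.c .z (.l 19)) .z)))) .z) (.c (.a (.c (.c (.c (.c .z (.l 16)) (.b
(.l 16) .z)) .z) (.b (.c (.l 19) (.c (.l 19) .z)) (.a (.c (.l 19) .z) .z))) (.c (.b .z (.a (.c (.l 16) .z) .z)) (.b (.a (.b (.l 19) .z) .z) .z))) (.a
.z (.b .z (.a .z (.c (.c (.l 17) .z) .z)))))) .z)) (.a (.c (.b (.c (.a (.c .z (.c (.c (.l 19) .z) .z)) (.c .z (.b (.a (.c (.l 19) .z) (.c (.l 19) .z))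
.z))) .z) (.c (.a (.c (.b (.c .z (.c .z (.l 19))) .z) .z) .z) .z)) .z) (.c (.b (.c (.a (.c .z (.b .z (.a .z (.c .z (.l 17))))) (.c .z (.b (.a (.c .z
(.l 17)) (.c .z (.l 17))) (.c .z (.l 17))))) (.a .z (.c (.c (.c (.l 17) .z) .z) (.c (.c (.c .z (.l 23)) .z) .z)))) (.c (.a (.c .z (.c .z (.c .z (.b
(.l 17) .z)))) (.c .z (.c .z (.c (.c .z (.l 17)) (.b (.l 17) .z))))) .z)) .z)))) (.a (.b (.a (.c (.c (.b .z (.a (.c (.b .z (.c .z (.l 33))) (.b .z (.c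
(.l 33) .z))) .z)) .z) .z) (.c (.c .z (.b .z (.a (.b .z (.c .z (.c .z (.c (.l 23) .z)))) (.c .z (.b .z (.c .z (.c (.l 23) .z))))))) .z)) (.a (.c (.c
(.a (.b (.c (.b (.c (.l 33) .z) .z) .z) .z) .z) .z) .z) (.c (.c .z (.b (.c .z (.c (.b (.c (.c .z (.l 23)) (.b (.l 23) .z)) .z) .z)) .z)) .z))) (.a (.b
(.c (.c .z (.b (.a .z (.b .z (.c (.c (.b .z (.l 19)) (.b (.l 19) .z)) .z))) (.c .z (.b (.c .z (.b .z (.c (.l 23) .z))) (.c (.b (.c .z (.l 23)) (.c .z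
(.l 23))) .z))))) .z) (.c (.c .z (.b (.c .z (.c (.b (.c (.c .z (.l 23)) (.b (.l 23) .z)) (.c .z (.b .z (.l 25)))) .z)) (.c .z (.c (.b (.c .z (.l 25))
.z) .z)))) .z)) (.b (.c (.c (.b .z (.c .z (.b (.c .z (.b (.c .z (.l 19)) .z)) .z))) (.b (.b (.c (.c .z (.b .z (.a .z (.l 19)))) .z) (.c (.c (.b (.c .z
(.l 19)) (.l 19)) (.b (.l 19) .z)) .z)) (.c (.b (.c (.b (.c (.l 19) .z) .z) .z) .z) (.b (.c (.b .z (.c .z (.l 23))) .z) .z)))) .z) (.c (.c .z (.b .z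
(.c .z (.b (.c (.c .z (.l 25)) .z) .z)))) .z))))) (.b (.a (.b (.a (.c (.b (.c (.a (.b (.c (.c .z (.l 16)) (.a (.c .z (.l 19)) .z)) .z) (.b .z (.c .z
(.a .z (.c (.l 14) .z))))) .z) (.c (.a .z (.c (.b (.a (.c .z (.l 14)) (.l 14)) (.c (.l 14) (.c (.l 14) .z))) (.b (.c (.c (.l 14) .z) .z) .z))) (.c (.b
.z (.c (.b .z (.a (.l 17) .z)) .z)) (.b (.c (.b .z (.c .z (.l 23))) (.c (.c (.l 23) .z) .z)) (.c (.c (.c .z (.l 23)) (.l 23)) .z))))) .z) (.c (.b (.c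
(.a (.b (.c (.a .z (.c .z (.l 14))) (.l 14)) (.c (.l 14) (.c (.l 14) .z))) (.c (.l 14) (.c (.l 14) (.b (.l 14) .z)))) .z) (.c (.c (.c (.c (.c (.b (.l
14) .z) (.l 14)) (.l 14)) (.b (.l 14) (.c (.l 14) (.b (.l 14) .z)))) (.b (.c (.c (.l 14) (.b (.l 14) .z)) .z) .z)) .z)) .z)) (.c (.c (.b (.c (.b (.a
(.c (.c (.c .z (.l 14)) (.b (.l 14) .z)) .z) (.c (.c .z (.l 14)) .z)) .z) (.b (.a (.c .z (.b .z (.l 17))) .z) (.a (.c (.b .z (.c .z (.l 17))) (.l 17))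
(.c .z (.a (.l 17) (.b .z (.l 17))))))) (.c .z (.b (.a (.c (.c .z (.a .z (.l 17))) (.l 17)) (.c (.a (.l 17) (.b .z (.l 17))) (.l 17))) (.a (.c (.c .z
(.a .z (.l 17))) (.b (.l 17) (.a (.l 17) .z))) (.c (.b (.l 17) (.a (.l 17) .z)) (.b (.a (.l 17) .z) .z)))))) (.b (.b (.c (.a (.c (.c (.l 17) (.c (.l
17) .z)) .z) (.c (.a (.b .z (.l 17)) .z) .z)) (.a (.c (.c (.c .z (.l 23)) .z) .z) .z)) (.c (.c (.c (.l 17) (.a .z (.l 17))) .z) .z)) (.b (.c (.a (.c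
(.c (.c (.l 17) .z) .z) .z) (.c (.b (.l 17) .z) .z)) (.a .z (.b .z (.c .z (.c (.l 25) .z))))) (.c (.a .z (.c .z (.b .z (.l 19)))) (.a .z (.c (.c (.c
(.l 19) .z) .z) (.c (.c (.l 25) .z) .z))))))) .z)) (.b (.c (.c (.c (.c (.c (.b (.c (.a (.b (.l 14) .z) .z) (.a (.l 14) (.b (.l 14) .z))) .z) (.b (.l
14) (.a (.l 14) (.c .z (.b (.l 14) .z))))) (.l 14)) (.b (.c (.l 14) (.b (.c (.l 14) (.c (.l 14) (.a (.l 14) .z))) (.c (.l 14) (.b (.c (.l 14) .z)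
.z)))) (.c (.b (.c (.l 14) (.b (.l 14) (.c (.l 14) .z))) (.c (.b (.c (.l 14) .z) .z) .z)) (.b .z (.c .z (.a (.a .z (.l 18)) (.a (.l 18) .z))))))) (.b
(.c (.c .z (.b (.c .z (.c (.a (.l 22) .z) (.a (.l 22) .z))) (.a (.a (.c .z (.l 22)) (.c (.l 22) .z)) .z))) (.c .z (.a .z (.c (.a .z (.c (.l 23) .z))
.z)))) (.c (.a (.b (.c .z (.a .z (.c (.l 22) .z))) (.c (.c (.c (.l 18) .z) (.a .z (.l 22))) .z)) (.c (.b .z (.c (.c (.l 18) .z) .z)) .z)) .z))) (.b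
(.a (.c (.b (.c (.c (.c (.l 29) .z) .z) .z) .z) .z) .z) .z)) (.c (.c (.b (.c (.c .z (.b (.c (.b (.a (.l 14) .z) .z) .z) .z)) (.b (.a (.c .z (.a .z (.l
18))) (.c .z (.c .z (.a (.l 18) .z)))) (.a (.c (.a .z (.c .z (.l 18))) .z) (.c .z (.b (.a (.l 18) .z) .z))))) (.c .z (.b .z (.a (.c (.b (.a (.l 17)
.z) .z) .z) .z)))) (.b (.b .z (.c (.a (.c (.a (.b .z (.l 17)) .z) .z) .z) (.a .z (.b .z (.c .z (.c (.l 25) .z)))))) (.b (.c (.a (.c .z (.b .z (.a .z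
(.l 19)))) (.c .z (.b (.a .z (.l 19)) (.l 19)))) (.a (.b (.c .z (.c (.l 25) .z)) (.c (.c .z (.l 25)) .z)) (.c (.c .z (.l 25)) (.c (.c (.l 25) .z)
.z)))) (.c (.a (.c (.b .z (.l 19)) (.l 19)) (.l 19)) (.c (.c (.c (.b (.l 19) .z) .z) (.c (.l 25) (.a (.l 25) .z))) .z))))) .z))) (.b (.c (.c (.b (.a
(.c .z (.b .z (.c .z (.a (.b .z (.c .z (.l 19))) (.c .z (.l 19)))))) (.c .z (.b (.a (.c .z (.c .z (.b .z (.l 19)))) (.c .z (.c .z (.l 19)))) (.c .z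
(.c (.a (.b .z (.l 19)) (.l 19)) (.l 19)))))) (.c .z (.b (.c (.a .z (.c .z (.a (.b .z (.l 19)) (.l 19)))) (.a (.c (.b (.a .z (.l 19)) (.l 19)) (.l
19)) (.l 19))) (.c (.a (.b (.c .z (.a .z (.l 19))) (.c (.a .z (.l 19)) (.a .z (.l 19)))) (.c (.b .z (.l 19)) (.l 19))) (.a (.b (.c (.l 19) .z) .z) (.b
(.l 19) (.a (.c (.l 19) .z) (.l 19)))))))) (.b (.a (.b (.c (.a (.c (.b .z (.a .z (.l 19))) (.b (.a .z (.l 19)) (.l 19))) (.l 19)) .z) (.c (.c (.l 19)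
(.b (.l 19) (.c (.l 19) (.a .z (.l 19))))) .z)) (.c (.l 19) (.b (.c (.c .z (.c (.a (.l 25) .z) .z)) .z) .z))) (.c (.b (.a (.c (.b (.c (.l 19) (.a .z
(.l 19))) (.c (.a .z (.l 19)) .z)) .z) (.c (.l 19) (.b (.a (.c (.l 19) .z) (.c (.l 19) .z)) .z))) (.a .z (.c (.b (.a .z (.c (.l 19) .z)) .z) .z)))
.z))) .z) (.c (.c (.b (.c (.b (.c .z (.a .z (.c .z (.c .z (.b .z (.l 19)))))) (.c .z (.a .z (.b (.c .z (.a .z (.l 19))) .z)))) (.b (.a (.c (.b (.c (.a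
.z (.l 19)) .z) .z) .z) (.c (.b (.l 19) (.c (.a .z (.l 19)) .z)) (.b (.a .z (.c (.l 19) .z)) .z))) .z)) .z) (.b (.c (.a (.b .z (.c .z (.c .z (.a .z
(.a .z (.l 24)))))) (.b .z (.c .z (.c .z (.a (.a (.l 24) .z) .z))))) (.a (.c (.b (.a (.c .z (.a .z (.l 24))) .z) (.c (.b (.a .z (.l 24)) .z) .z)) .z)
.z)) (.c (.a .z (.b (.c .z (.c (.a (.l 24) .z) .z)) .z)) (.b (.a (.c (.c (.b .z (.a (.l 25) .z)) (.b (.a (.l 25) .z) .z)) .z) .z) (.a (.c (.b (.c (.a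
(.l 25) .z) .z) .z) .z) .z))))) .z))))

theorem vQ193 : ev3 Q193 J3_3 J3_6 J3_7 = 122784824505589565569300 := by decide +kernel

noncomputable def Q67 : QT3 :=
(.b (.c (.c (.a (.c (.b (.c (.a (.b (.l 28) (.c (.l 28) (.b (.l 28) .z))) (.b (.a (.l 28) .z) .z)) (.a (.b (.c (.l 28) .z) .z) (.b .z (.a .z (.c (.a
.z (.l 14)) .z))))) (.c (.a (.b (.c (.b (.l 28) .z) .z) .z) (.b (.a .z (.c .z (.l 14))) (.a .z (.c (.l 14) (.a .z (.l 14)))))) (.a .z (.a .z (.c (.a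
.z (.c (.l 14) .z)) (.a (.c .z (.l 18)) .z)))))) (.b (.c (.a .z (.b .z (.a (.c (.a .z (.l 18)) .z) .z))) .z) (.c (.a (.c .z (.c .z (.a (.l 44) .z)))
(.b (.a (.c (.a .z (.l 18)) (.a .z (.l 18))) (.c (.l 18) .z)) (.a (.c (.l 18) .z) (.l 18)))) (.a (.b (.c (.a (.l 44) .z) (.b .z (.l 44))) (.c (.l 44)
(.a (.l 44) .z))) .z)))) (.a (.c (.b (.c (.a (.c (.b .z (.a .z (.l 14))) (.b .z (.l 14))) (.c (.a (.b .z (.l 14)) .z) .z)) (.a (.b .z (.c (.a (.l 14)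
.z) .z)) (.c (.a .z (.b (.l 15) .z)) (.a (.b (.l 15) .z) (.l 15))))) (.c (.a (.l 14) (.a (.l 14) (.c (.l 14) (.b .z (.l 14))))) (.a (.b (.c (.l 14)
.z) (.c (.l 14) (.a .z (.l 14)))) (.a (.b .z (.c (.l 14) .z)) .z)))) (.b (.a (.c (.b (.c (.l 15) .z) .z) .z) (.c (.b (.c (.c (.l 15) .z) .z) (.c (.c
(.l 15) .z) .z)) .z)) .z)) (.c (.a (.c (.b (.a (.c .z (.b (.l 15) .z)) (.c .z (.l 15))) (.a .z (.c .z (.b (.l 15) .z)))) (.b (.l 15) (.a (.c .z (.b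
(.l 15) .z)) (.c (.l 15) (.c (.l 15) .z))))) (.c (.b (.c (.c .z (.b (.l 15) .z)) (.l 15)) (.a (.c .z (.c .z (.l 15))) (.c (.c (.l 13) .z) (.c .z (.l
15))))) (.c (.l 15) (.b (.l 15) (.c (.l 15) (.b (.l 15) .z)))))) (.b (.c (.c (.c (.b (.l 15) (.b (.l 15) .z)) .z) .z) .z) .z)))) (.a (.c (.b (.c (.a
(.b (.c .z (.b .z (.c .z (.l 20)))) (.c .z (.l 20))) (.b (.c .z (.a (.b .z (.l 20)) (.l 20))) (.c (.a (.b .z (.l 20)) (.l 20)) (.l 20)))) (.c (.c (.l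
20) (.a (.l 20) (.a (.l 20) (.b (.l 20) .z)))) (.c (.a (.b (.l 20) (.b (.l 20) .z)) .z) (.a .z (.a .z (.b .z (.l 23))))))) (.a (.c (.b (.c .z (.b (.c
.z (.l 20)) .z)) .z) (.b (.c (.b (.l 20) .z) .z) .z)) (.c (.b (.a (.c .z (.b (.l 20) .z)) (.c (.a .z (.l 20)) (.l 20))) (.a .z (.c .z (.a .z (.l
20))))) (.b (.c (.c (.l 20) .z) (.c .z (.l 23))) (.a .z (.c .z (.l 23))))))) (.b (.c (.c (.c (.a (.b (.b .z (.l 23)) (.l 23)) (.l 23)) (.b (.l 23)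
.z)) .z) .z) (.a (.b (.c (.c (.c (.l 23) .z) .z) .z) (.c (.b (.c (.c (.l 23) .z) .z) .z) .z)) (.c (.c (.b (.c (.l 23) .z) (.c (.b (.l 23) .z) .z)) .z)
(.c .z (.b .z (.c .z (.l 31)))))))) (.a (.c (.b (.c (.a (.b (.c (.b .z (.l 20)) (.l 20)) (.l 20)) (.b (.c .z (.a (.l 20) .z)) (.c (.a (.l 20) .z) (.c
(.l 20) .z)))) (.c (.c (.a (.b (.l 20) .z) .z) .z) (.c (.a .z (.l 23)) (.l 23)))) (.c (.c (.b (.c (.a (.l 20) .z) (.l 20)) (.c .z (.a (.l 20) .z)))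
(.c (.a (.l 20) (.b (.l 20) .z)) (.a (.b (.l 20) .z) .z))) (.c (.c .z (.a .z (.b (.l 23) .z))) (.l 23)))) (.c (.b (.c (.c (.l 23) (.b (.b (.l 23) .z)
.z)) .z) (.c (.c (.b (.l 23) .z) .z) .z)) .z)) (.c (.b (.a (.c .z (.b (.c .z (.a (.l 23) .z)) (.a (.c .z (.l 23)) (.c .z (.l 23))))) .z) (.a (.c .z
(.c .z (.l 23))) (.c .z (.b (.a (.c .z (.l 23)) .z) (.a (.c .z (.l 23)) .z))))) (.b (.a (.c (.c (.c (.l 23) .z) .z) .z) .z) .z))))) (.a (.c (.c (.c .z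
(.b (.a (.b (.c (.l 34) .z) .z) .z) .z)) .z) .z) (.a .z (.c (.b (.c (.c (.c .z (.a .z (.c .z (.l 37)))) .z) .z) .z) .z)))) (.b (.a (.c (.c (.c (.c (.a
(.b (.c .z (.a (.l 36) .z)) (.c .z (.a (.l 36) .z))) (.a (.c (.a .z (.c (.l 14) .z)) .z) (.c (.l 14) (.a .z (.c (.l 14) .z))))) (.a (.c (.c (.b .z (.l
36)) (.a (.l 36) .z)) .z) (.a (.c .z (.a (.c .z (.l 18)) (.l 18))) (.c .z (.a (.l 18) (.c .z (.l 18))))))) (.a (.c (.c .z (.a (.l 44) .z)) (.c (.b (.a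
(.l 44) .z) .z) .z)) (.c (.a (.c (.a (.c (.l 18) .z) (.l 18)) .z) (.l 18)) (.a (.c .z (.b (.a .z (.l 22)) (.a .z (.l 22)))) (.b (.c (.a .z (.l 18))
.z) .z))))) (.c (.a .z (.c (.b .z (.a (.c .z (.a (.l 26) .z)) (.a (.c (.l 22) .z) .z))) (.b (.a .z (.a .z (.c .z (.l 23)))) .z))) (.a (.b (.c .z (.b
(.c (.l 28) .z) .z)) .z) .z))) .z) (.c (.a (.c (.c (.a (.c (.l 14) (.a (.c (.c (.l 14) .z) .z) (.c (.l 14) (.a .z (.l 14))))) (.c (.l 14) (.a (.l 14)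
(.b (.c (.l 14) .z) (.l 14))))) (.a (.c (.b (.a (.c .z (.l 18)) .z) (.a (.c .z (.l 18)) .z)) (.b .z (.a (.l 18) .z))) (.c (.a (.b .z (.c (.l 14) .z))
.z) .z))) (.c (.a (.c .z (.b (.c .z (.l 23)) .z)) (.c .z (.c (.c (.b .z (.l 21)) .z) (.c (.b (.l 23) .z) (.b (.l 23) .z))))) (.c .z (.c .z (.a (.c (.l
31) .z) .z))))) (.c (.c (.a (.c (.a (.c (.a (.l 14) .z) (.b .z (.l 14))) .z) .z) (.c (.a .z (.c (.a (.b (.l 13) .z) (.l 13)) .z)) (.a (.c (.b (.l 15)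
.z) .z) (.c (.c .z (.l 15)) .z)))) (.a (.c .z (.b .z (.c (.a .z (.l 17)) .z))) .z)) (.b (.c (.a (.c (.c .z (.c .z (.l 21))) (.c (.c (.l 21) .z) .z))
(.c (.a (.c .z (.l 21)) .z) (.c (.c (.l 21) .z) .z))) .z) (.a (.c (.c (.c .z (.c .z (.l 21))) (.c (.c (.l 21) .z) .z)) .z) (.b (.c (.c .z (.c (.l 21)
.z)) .z) (.c (.c .z (.c (.l 21) .z)) .z)))))) .z)) (.a (.c (.c (.c (.c (.a (.c .z (.a (.c .z (.l 36)) .z)) (.a .z (.c (.a (.c (.l 14) .z) (.l 14))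
.z))) (.a (.c (.a (.c (.l 36) .z) .z) .z) (.a (.c (.a .z (.c .z (.l 18))) (.l 18)) (.c (.a (.l 18) .z) (.l 18))))) (.a .z (.c (.a (.c (.a .z (.c (.l
18) .z)) (.a (.c .z (.l 22)) .z)) (.c (.l 18) (.a (.c (.l 18) .z) (.l 18)))) (.a (.c (.a (.l 22) (.c .z (.l 22))) (.a .z (.l 22))) (.a (.c .z (.l 22))
(.c (.a .z (.l 18)) .z)))))) (.c (.a (.c (.c (.a .z (.c .z (.a .z (.l 26)))) .z) .z) (.a (.c (.c .z (.a (.c (.l 26) .z) (.c .z (.l 26)))) (.c (.a .z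
(.c (.l 26) .z)) .z)) (.c (.a (.c (.a .z (.l 22)) .z) (.c (.a (.l 22) .z) (.l 22))) .z))) .z)) .z) (.c (.a (.c (.c (.a (.c (.l 14) (.a .z (.c (.l 14)
(.a .z (.l 14))))) (.l 14)) (.a (.c (.a (.l 18) (.c .z (.a (.l 18) .z))) (.a (.c (.l 18) (.a .z (.l 18))) (.l 18))) (.c (.a (.c (.a .z (.l 14)) .z)
(.b (.c (.l 14) .z) (.l 14))) (.a (.b .z (.c .z (.l 18))) .z)))) .z) (.c (.b (.a (.c (.c (.a (.l 14) .z) (.a (.c (.l 14) .z) .z)) (.c (.a .z (.c .z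
(.l 17))) (.a .z (.c (.l 17) .z)))) (.c (.c (.a (.c (.a (.l 10) .z) .z) .z) .z) (.b (.c .z (.a (.l 17) .z)) (.a (.c .z (.l 17)) .z)))) (.a (.c (.c (.a
(.l 14) .z) (.a (.l 14) .z)) .z) (.c (.b (.a (.c (.c (.l 10) .z) .z) .z) (.a (.c (.c (.l 10) .z) .z) .z)) .z))) (.b (.a (.b (.c (.c (.c .z (.l 21))
(.c (.l 21) .z)) .z) .z) .z) (.a (.b .z (.c .z (.c (.c (.l 23) .z) .z))) (.b .z (.c (.c .z (.c (.l 19) .z)) .z)))))) .z))))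

theorem vQ67 : ev3 Q67 J3_0 J4_7 J3_7 = 109186528783828404029206 := by decide +kernel

noncomputable def Q173 : QT3 :=
(.c (.b (.a (.c (.b (.a (.l 11) (.c (.l 11) (.b (.a (.l 11) (.c (.l 11) (.b (.l 11) (.a (.l 11) .z)))) (.a (.c (.l 11) (.b (.l 11) (.a (.l 11) .z)))
(.c (.b (.a (.l 11) .z) .z) .z))))) (.a (.c (.b (.l 11) (.a (.l 11) (.c (.l 11) (.b (.l 11) (.a (.l 11) .z))))) (.b (.a (.l 11) (.c (.l 11) (.b (.l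
11) (.a (.l 11) .z)))) (.a (.c (.l 11) (.b (.c (.l 11) .z) .z)) (.c (.b (.a (.l 11) .z) .z) .z)))) (.c (.b (.a (.c (.l 11) (.b (.l 11) (.a (.l 11)
.z))) (.c (.b (.l 11) (.a (.l 11) .z)) .z)) (.a (.c (.b (.l 11) (.a (.l 11) .z)) .z) .z)) (.b (.a (.c (.b (.a (.l 11) .z) .z) .z) .z) .z)))) (.b (.a
(.c (.b (.c (.a (.c (.a .z (.l 11)) .z) (.l 11)) (.a (.c (.a (.l 7) .z) (.l 7)) (.c .z (.a (.l 7) .z)))) (.a (.c (.c (.a .z (.l 11)) .z) (.c (.a (.l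
7) .z) (.l 7))) (.c (.b (.c (.l 11) .z) .z) .z))) (.b (.a (.c (.c (.l 7) (.c (.l 7) .z)) .z) (.c (.b (.c (.l 7) .z) .z) .z)) (.a (.c (.b (.c (.l 7)
.z) (.a (.l 7) .z)) .z) .z))) (.c (.b (.a (.c (.l 11) .z) (.c (.b (.a (.l 11) .z) .z) .z)) (.a (.c (.b (.a (.l 11) .z) .z) .z) .z)) (.b (.a .z (.c .z
(.l 19))) (.a .z (.c .z (.l 19)))))) (.a (.c (.b (.a (.c .z (.b (.a (.l 7) .z) .z)) .z) .z) (.b .z (.a (.c (.b .z (.c .z (.l 8))) .z) (.c (.c .z (.c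
(.l 8) .z)) .z)))) (.c .z (.c .z (.a .z (.l 19))))))) (.c (.b (.a (.c (.b (.a (.l 11) (.c (.b (.l 11) (.a (.l 11) .z)) (.b (.a (.l 11) .z) .z))) (.a
(.c (.b (.l 11) (.a (.l 11) .z)) (.b (.a (.l 11) .z) .z)) .z)) (.b (.a (.c (.b (.a (.l 11) .z) .z) .z) .z) .z)) (.c .z (.b (.a (.c .z (.l 27)) (.l
27)) (.a .z (.l 27))))) (.a (.c .z (.b .z (.c (.a .z (.a .z (.l 23))) .z))) (.c (.a (.a (.c .z (.b .z (.l 23))) (.c (.b .z (.l 23)) (.a (.l 23) .z)))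
(.a (.c (.a (.l 23) .z) .z) .z)) .z))) (.b (.a (.c .z (.c (.b (.c .z (.c .z (.l 19))) (.c .z (.c .z (.l 19)))) (.l 19))) (.c (.c (.b (.c (.l 27) .z)
.z) (.b .z (.c .z (.a .z (.l 17))))) (.c (.c (.l 17) (.c (.a .z (.l 17)) .z)) (.c (.c (.a (.l 19) .z) (.l 19)) (.l 19))))) (.c (.c .z (.a .z (.c (.a
.z (.c .z (.l 17))) (.a (.c .z (.l 17)) (.l 17))))) (.c (.c (.a (.c (.a .z (.l 17)) (.a .z (.l 17))) (.l 17)) (.a (.c .z (.a (.l 19) .z)) (.c (.a .z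
(.l 17)) .z))) (.c (.a (.l 19) (.c (.a (.l 19) .z) (.l 19))) (.l 19))))))) (.a (.c (.b (.a (.c (.b (.a (.c (.l 11) (.b (.l 11) (.a (.l 11) .z))) (.c
(.b (.l 11) (.a (.l 11) .z)) .z)) (.a (.c (.b (.l 11) (.a (.l 11) .z)) .z) .z)) (.b (.a (.c (.b (.a (.l 11) .z) .z) .z) .z) .z)) .z) .z) (.b (.a (.c
.z (.c (.c (.c .z (.l 8)) (.a (.l 8) (.c (.l 8) .z))) (.c (.a (.c (.a (.l 8) .z) .z) .z) .z))) (.c .z (.c .z (.a .z (.l 19))))) (.c .z (.c (.c (.a (.c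
(.a (.a (.l 8) .z) .z) (.l 8)) .z) (.a (.a (.l 8) (.c (.l 8) (.a (.l 8) .z))) .z)) (.a (.c (.a (.c (.l 8) (.a (.l 8) .z)) .z) .z) (.c (.a .z (.a .z
(.l 19))) (.a .z (.l 19)))))))) (.c (.c (.b (.c (.a .z (.a (.a (.a .z (.l 23)) (.l 23)) (.c .z (.a (.l 23) .z)))) (.b (.a .z (.a (.l 23) .z)) (.c (.a
.z (.a (.l 23) .z)) .z))) .z) .z) (.c (.c (.a .z (.c .z (.a .z (.b .z (.a .z (.l 17)))))) (.a (.c .z (.a .z (.c .z (.l 17)))) (.c (.a (.b .z (.a .z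
(.l 17))) (.l 17)) (.l 17)))) (.c (.c (.a (.a (.c (.a .z (.l 17)) (.l 17)) (.l 17)) (.l 17)) (.a (.c .z (.a (.a (.l 19) .z) .z)) (.c (.l 17) (.a .z
(.b .z (.l 17)))))) (.c (.a (.l 19) (.c .z (.a (.l 19) .z))) (.l 19))))))) (.b (.a (.b (.c (.a (.c .z (.b (.a .z (.b (.c .z (.l 19)) (.a .z (.l 19))))
(.a .z (.a .z (.c .z (.l 19)))))) (.c (.b (.a (.c .z (.l 19)) (.l 19)) (.a (.a (.c .z (.l 19)) (.l 19)) (.l 19))) (.l 19))) (.a (.b (.a (.c (.b (.a .z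
(.l 19)) (.a .z (.l 19))) .z) (.c (.l 19) .z)) (.c (.c (.a .z (.l 19)) (.c (.a .z (.l 19)) .z)) (.c (.c (.c .z (.a .z (.l 12))) (.c (.a (.l 12) .z)
.z)) .z))) (.c (.c (.l 19) (.c (.c (.l 19) (.b (.l 19) .z)) .z)) .z))) (.c (.a (.c .z (.a .z (.a .z (.c .z (.l 19))))) (.a (.c (.a (.c .z (.a .z (.l
19))) (.c (.a .z (.l 19)) (.l 19))) (.l 19)) (.l 19))) (.c (.c (.c (.a (.a .z (.a .z (.l 19))) (.l 19)) (.a (.a .z (.l 19)) (.b (.l 19) (.c (.l 19)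
.z)))) (.c (.a (.b (.a .z (.l 19)) .z) .z) (.a (.c .z (.b .z (.a .z (.l 12)))) (.c (.b .z (.a .z (.l 12))) (.b (.a .z (.l 12)) (.l 12)))))) (.c (.a
(.c (.c (.b (.a .z (.l 12)) (.l 12)) (.l 12)) (.b (.a (.l 12) (.c (.l 12) .z)) (.l 12))) (.c (.b (.a (.l 12) (.c (.l 12) .z)) (.l 12)) (.b .z (.a (.l
12) (.c (.l 12) .z))))) (.a (.c (.b .z (.a (.l 12) (.c (.l 12) .z))) .z) .z))))) (.c (.l 19) (.c (.c (.b (.c (.l 19) (.a (.l 19) (.c (.b (.l 19) .z)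
.z))) (.c (.a (.l 19) (.b (.c (.l 19) .z) .z)) (.a (.b (.c (.l 19) .z) .z) (.b .z (.c .z (.a .z (.l 12))))))) (.a (.c (.b (.c (.b (.l 19) .z) .z) (.b
.z (.c .z (.l 12)))) (.b .z (.a (.l 12) (.c (.l 12) (.b .z (.l 12)))))) (.c (.b .z (.a (.b (.c .z (.l 12)) (.l 12)) (.c (.l 12) (.a (.l 12) .z)))) (.b
.z (.a (.c (.b .z (.l 12)) .z) .z))))) (.c (.a (.b (.c .z (.b (.l 27) .z)) (.c (.a (.b .z (.c (.l 12) .z)) .z) .z)) (.c (.b (.l 27) (.a .z (.l 27)))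
(.b (.l 27) (.a .z (.l 27))))) (.b (.a (.b (.a .z (.l 27)) .z) (.l 27)) (.a .z (.a .z (.b (.l 27) .z)))))))) (.c (.c (.a (.a .z (.a (.a .z (.c (.a .z
(.c .z (.l 19))) (.l 19))) (.l 19))) (.l 19)) (.c (.a (.a .z (.a (.a (.a .z (.l 19)) (.l 19)) (.l 19))) (.b (.l 19) (.c (.l 19) (.a (.l 19) (.b (.l
19) (.c (.l 19) .z)))))) (.a (.b (.a .z (.l 19)) (.c (.a .z (.a (.a .z (.l 19)) (.l 19))) (.a .z (.b (.l 19) (.c (.l 19) .z))))) (.b (.c (.l 19) (.a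
(.l 19) (.b (.c (.l 19) .z) .z))) (.c (.a (.b (.l 19) (.c (.l 19) .z)) (.b (.c (.l 19) .z) .z)) (.a .z (.b .z (.c .z (.l 12))))))))) (.c (.a (.c (.b
(.c (.a .z (.b (.l 19) (.c (.l 19) .z))) .z) (.c .z (.a (.b .z (.c .z (.a .z (.l 12)))) (.b (.c .z (.l 12)) (.l 12))))) (.b (.c (.a (.b .z (.c .z (.a
.z (.l 12)))) (.b (.c .z (.a .z (.l 12))) (.c (.a .z (.l 12)) (.l 12)))) (.a (.b (.c (.a .z (.l 12)) (.l 12)) (.l 12)) (.l 12))) (.c (.a (.b (.c (.a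
.z (.l 12)) (.l 12)) (.l 12)) (.l 12)) (.l 12)))) (.a (.c (.b (.c (.b (.c (.l 19) .z) .z) (.b .z (.c (.a .z (.l 12)) (.l 12)))) (.c (.b (.c .z (.a .z
(.l 12))) (.c (.a .z (.l 12)) (.l 12))) (.l 12))) (.l 12)) (.c (.b (.c (.b .z (.c .z (.a .z (.l 12)))) (.b (.c (.a .z (.l 12)) (.l 12)) (.l 12))) (.c
(.b (.c (.a .z (.l 12)) (.l 12)) (.l 12)) (.l 12))) (.a (.c (.l 12) (.b (.c (.l 12) (.a (.l 12) .z)) (.l 12))) (.c (.l 12) (.b (.c (.a (.l 12) .z) .z)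
(.a (.l 12) (.c (.l 12) .z)))))))) (.a (.b (.c (.l 12) (.a (.b (.c (.l 12) (.a (.l 12) (.c (.l 12) .z))) (.l 12)) (.c (.b (.a (.c (.l 12) .z) .z) (.a
(.l 12) (.c (.l 12) .z))) (.b .z (.a (.c (.l 12) .z) .z))))) (.a (.l 12) (.c (.l 12) (.a (.l 12) (.c (.l 12) (.b (.a (.l 12) .z) (.l 12))))))) (.a (.c
(.b (.c (.a (.l 12) (.b (.c (.l 12) .z) (.l 12))) (.a (.b .z (.l 12)) .z)) (.a (.l 12) (.c (.l 12) (.b (.a (.l 12) .z) (.l 12))))) (.b .z (.a (.c (.b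
(.a (.l 12) .z) (.l 12)) .z) .z))) (.c (.a (.b .z (.c (.a (.l 12) (.c (.l 12) .z)) .z)) .z) .z)))))))

theorem vQ173 : ev3 Q173 J4_6 J4_8 J3_6 = 213738346053091029764895 := by decide +kernel

noncomputable def Q57 : QT3 :=
(.a (.b (.a (.b (.c (.c (.a (.b (.c (.b (.c (.a .z (.c .z (.l 13))) (.a (.a .z (.l 13)) (.l 13))) (.a (.c .z (.l 13)) (.c (.a .z (.l 13)) (.b (.l 13)
.z)))) .z) (.c (.b (.a .z (.c (.b (.l 13) .z) .z)) .z) .z)) (.b (.c (.a (.b (.c (.l 13) (.a (.l 13) .z)) (.c (.a (.l 13) .z) .z)) .z) (.a (.b .z (.c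
.z (.l 15))) (.b (.c .z (.l 15)) .z))) (.c (.a .z (.b (.c .z (.l 16)) (.c (.c (.l 11) .z) .z))) (.c (.c .z (.l 15)) (.c (.l 15) (.c (.l 15) .z))))))
(.a .z (.b (.c .z (.c .z (.c (.a .z (.l 23)) .z))) .z))) .z) (.c (.c (.b (.a (.c (.b (.a .z (.c (.b .z (.l 11)) .z)) (.a (.c (.b .z (.l 11)) .z) (.c
(.l 11) .z))) (.c (.l 15) (.c (.l 15) (.c (.l 15) .z)))) (.c (.c (.c (.l 11) (.c (.l 11) (.b .z (.l 11)))) (.c (.c .z (.l 16)) .z)) (.c (.c (.c .z (.l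
15)) (.l 15)) (.c (.l 15) (.c (.l 15) .z))))) (.c (.c (.c (.l 11) (.a (.c (.l 11) (.b (.l 11) .z)) (.l 11))) (.c .z (.a (.c .z (.l 15)) .z))) (.c (.l
15) (.c (.l 15) (.c (.a (.l 15) .z) .z))))) (.c .z (.c (.a (.c (.c .z (.a (.l 23) .z)) .z) .z) .z))) .z)) (.b (.c (.c (.a (.b (.c (.a (.b .z (.c .z
(.l 16))) (.b (.c .z (.l 16)) (.c (.c (.l 11) .z) (.l 16)))) (.c (.c (.c (.l 16) .z) .z) (.c (.c .z (.l 15)) (.c (.l 15) .z)))) (.c (.c (.c (.l 11)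
(.c (.l 11) .z)) (.l 16)) (.c .z (.c (.l 15) (.c (.l 15) .z))))) (.c (.c (.c (.l 11) .z) (.l 16)) (.c (.c (.l 16) (.b (.c (.l 16) .z) .z)) (.c (.b .z
(.c .z (.l 15))) (.c (.b (.l 15) .z) .z))))) (.c .z (.c (.a (.c (.a .z (.b (.l 23) .z)) (.a (.b (.l 23) .z) (.c (.l 23) .z))) .z) .z))) (.c (.c (.c
(.a .z (.c (.b (.l 28) .z) .z)) .z) .z) .z)) (.c (.c (.c (.c (.c (.l 11) (.c (.l 11) (.b .z (.a (.l 11) .z)))) (.c (.c .z (.l 16)) (.a (.b (.c (.l 16)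
.z) .z) (.b (.l 16) (.c (.l 16) .z))))) (.c (.c (.a .z (.b (.c (.l 16) .z) .z)) (.a (.b (.c .z (.l 15)) (.l 15)) (.b .z (.c .z (.l 15))))) (.c (.l 15)
.z))) .z) .z))) (.c (.c (.c (.c (.a (.b (.c (.b (.l 11) (.a (.c (.b (.l 11) .z) .z) (.l 11))) (.b (.a (.c (.b (.l 11) .z) .z) (.c (.l 11) (.a .z (.l
11)))) (.a .z (.c (.a .z (.l 11)) .z)))) (.c (.a .z (.b (.c (.a .z (.l 11)) .z) .z)) (.a (.b (.c .z (.l 15)) (.l 15)) (.b .z (.c .z (.l 15)))))) (.b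
(.c (.l 11) (.a (.b (.l 11) (.c (.l 11) (.a .z (.l 11)))) (.c (.l 11) (.b (.a (.l 11) .z) (.l 11))))) (.a (.c (.b (.l 11) (.a (.c (.l 11) .z) (.l
11))) (.b (.c (.a .z (.l 11)) .z) .z)) (.c (.l 11) (.b (.l 11) (.a (.c (.l 11) .z) (.l 11))))))) (.a (.b (.c (.a (.b (.c .z (.l 15)) (.l 15)) .z) (.a
(.l 15) (.b (.c .z (.l 15)) (.l 15)))) (.l 15)) (.b (.c (.a .z (.b (.c .z (.l 16)) .z)) (.a (.b .z (.c .z (.l 15))) .z)) (.a (.c (.b .z (.a (.l 15)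
.z)) (.l 15)) (.c .z (.a (.b .z (.l 15)) .z)))))) (.a (.c (.l 15) (.c (.c (.l 15) (.b (.l 15) .z)) .z)) (.c (.b (.a (.l 15) (.c (.b .z (.a (.l 15)
.z)) (.l 15))) (.l 15)) (.c (.c (.b (.l 15) (.b (.a (.l 15) .z) .z)) (.b (.b (.a (.l 15) .z) .z) .z)) .z)))) (.a (.c (.c (.c .z (.b (.c (.a .z (.l
46)) .z) (.a .z (.b (.l 46) .z)))) (.b (.c (.a (.c .z (.b (.l 21) .z)) .z) (.a (.c (.l 21) .z) (.b (.c (.l 21) .z) (.c .z (.l 21))))) .z)) (.a (.c (.c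
(.c .z (.b (.b (.l 23) .z) .z)) (.b .z (.c .z (.l 27)))) .z) .z)) .z)) .z)) (.c (.c (.a (.c (.c (.c (.b (.c (.l 11) (.b (.a (.l 11) (.b .z (.l 11)))
(.l 11))) (.l 11)) (.b (.c (.b .z (.a (.b .z (.l 11)) .z)) .z) (.c (.a (.l 11) (.b (.a (.l 11) (.b .z (.l 11))) (.l 11))) (.a (.b (.b .z (.a (.l 11)
.z)) (.l 11)) (.b .z (.a (.b .z (.l 11)) .z)))))) (.b (.a (.l 16) (.c (.a (.c .z (.l 16)) .z) (.l 16))) (.a (.c (.b (.c .z (.l 16)) .z) (.b (.a (.c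
(.l 16) .z) (.l 16)) (.a .z (.c (.l 16) .z)))) (.c (.c .z (.a (.l 16) (.a (.l 16) .z))) (.l 16))))) (.a (.c (.b (.c (.b (.l 16) (.c (.l 16) (.a .z (.l
16)))) (.b (.c (.l 16) (.b (.l 16) .z)) .z)) (.b (.c (.a .z (.c (.l 16) .z)) (.a (.c .z (.l 15)) .z)) (.c .z (.a (.l 15) (.c .z (.l 15)))))) (.a (.b
.z (.c (.c (.b (.l 15) .z) .z) .z)) (.c (.b .z (.c (.b (.l 15) .z) .z)) .z))) (.c (.a (.b (.c (.l 16) (.b (.l 16) (.c (.l 16) .z))) (.c (.b (.l 16)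
.z) .z)) (.c (.l 16) (.a (.b (.l 16) .z) (.c (.l 16) (.b (.l 16) .z))))) (.a (.c (.b (.b (.c (.l 16) .z) .z) .z) .z) (.c .z (.a (.c (.a .z (.l 17))
(.l 17)) (.l 17))))))) (.c (.b (.c (.a (.c (.c (.l 11) (.b .z (.a (.l 11) .z))) .z) (.a (.c (.c (.l 11) .z) .z) (.c (.c (.l 11) .z) .z))) (.a (.c .z
(.a (.c .z (.a (.l 16) .z)) .z)) .z)) (.a (.c (.c (.l 11) (.c (.b .z (.a (.b .z (.l 11)) .z)) .z)) (.a (.c .z (.a (.c .z (.l 16)) .z)) .z)) (.c (.b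
(.a (.c (.c (.l 11) .z) .z) (.c (.b (.c (.l 11) .z) .z) .z)) (.a (.c (.b (.l 11) (.a (.l 11) .z)) .z) .z)) (.b .z (.a (.c .z (.a .z (.l 17))) (.b .z
(.c .z (.l 17)))))))) (.a (.c (.a (.c (.b (.a (.l 16) (.c (.l 16) .z)) (.a (.c (.l 16) .z) .z)) (.a .z (.b .z (.c .z (.l 17))))) (.c (.b .z (.a .z (.b
.z (.l 17)))) (.b .z (.l 17)))) (.a (.c (.a (.c .z (.l 17)) (.l 17)) (.l 17)) (.l 17))) (.c (.b (.a (.c .z (.b .z (.l 17))) (.b .z (.c .z (.l 17))))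
(.b (.c (.b (.c .z (.l 17)) (.l 17)) (.l 17)) (.l 17))) (.l 17))))) (.a (.c (.a (.c (.a .z (.c .z (.b (.a .z (.b .z (.l 17))) .z))) (.a .z (.c (.b .z
(.a .z (.b (.l 17) .z))) (.b (.b (.b (.l 19) .z) .z) (.b .z (.b .z (.l 24))))))) (.c (.a (.c (.a (.c .z (.b (.l 17) .z)) (.l 17)) (.b (.b .z (.l 17))
(.b (.l 17) (.b (.l 17) .z)))) (.b (.c (.l 17) (.b .z (.l 17))) (.l 17))) (.b .z (.b (.c (.c (.l 17) (.b .z (.l 17))) .z) (.c (.b (.a .z (.l 17)) .z)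
.z))))) (.b (.c (.b (.c (.a .z (.b (.a .z (.l 22)) (.c .z (.l 22)))) (.a .z (.c (.l 22) .z))) .z) (.c .z (.b .z (.b .z (.l 83))))) (.b .z (.c (.c (.a
(.b (.c (.l 24) .z) (.l 24)) (.b (.a (.l 24) .z) (.l 24))) (.a (.b .z (.c (.l 24) .z)) (.b (.a .z (.l 24)) (.l 24)))) .z)))) (.b (.c (.c (.c (.l 17)
(.b (.c (.b .z (.l 17)) .z) (.c (.l 17) (.b .z (.a (.l 17) .z))))) .z) (.c (.b (.c .z (.a (.b (.l 22) (.a (.l 22) .z)) .z)) (.a .z (.c (.a (.c .z (.l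
25)) .z) .z))) .z)) (.c (.c (.l 17) (.b (.c (.c (.a (.b .z (.l 17)) .z) .z) .z) (.a (.c (.b (.l 17) (.a .z (.l 17))) .z) (.c (.c (.l 17) .z) .z))))
(.b (.c (.a .z (.c (.a (.l 25) .z) (.a (.b (.l 25) .z) .z))) .z) (.c (.a (.c .z (.b .z (.a (.l 24) .z))) (.a (.c (.b (.l 25) .z) .z) (.c (.a (.l 25)
.z) .z))) (.b (.a (.c (.a .z (.l 24)) .z) .z) (.c (.a (.l 24) .z) .z)))))))) (.b (.c (.b (.a (.c (.c (.c (.c (.b (.l 28) .z) (.b (.l 28) .z)) .z) .z)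
.z) .z) .z) .z) .z)))

theorem vQ57 : ev3 Q57 J3_1 J4_5 J3_7 = 160557764862916389266323 := by decide +kernel

noncomputable def Q197 : QT3 :=
(.c (.c (.a (.c (.b (.c (.a (.b (.a (.l 59) .z) (.a (.b (.l 59) .z) (.b .z (.a .z (.c (.l 26) .z))))) (.b .z (.a (.b (.a .z (.c (.l 26) .z)) (.c (.l
26) .z)) (.c (.c (.l 26) (.c (.l 26) .z)) (.c (.c .z (.l 20)) (.l 20)))))) (.b (.c (.a .z (.a .z (.b .z (.b .z (.l 20))))) (.a .z (.a .z (.b .z (.b .z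
(.l 20)))))) (.c (.b (.a .z (.a (.a .z (.l 20)) (.l 20))) (.a (.a .z (.a .z (.l 20))) (.c (.b (.l 20) .z) .z))) .z))) (.c (.b (.c (.b (.a (.a .z (.l
26)) (.c (.l 26) (.a (.l 26) .z))) .z) (.b (.a (.a .z (.c (.l 26) .z)) .z) .z)) .z) (.b (.c (.b .z (.a .z (.c (.b .z (.l 23)) (.b .z (.l 23))))) (.b
.z (.b .z (.l 23)))) (.a (.c .z (.b (.c (.a .z (.l 23)) (.l 23)) (.a .z (.c .z (.l 23))))) (.c (.a (.c .z (.l 23)) (.l 23)) (.l 23)))))) (.b (.c (.b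
(.a (.c .z (.b (.c (.l 35) .z) .z)) .z) .z) .z) (.c (.b (.b .z (.b .z (.l 23))) (.a (.l 23) (.b (.l 23) (.a (.l 23) (.b (.l 23) (.c (.l 23) .z))))))
(.b (.c (.b .z (.b .z (.l 23))) (.b .z (.c (.b .z (.l 23)) (.a .z (.b .z (.l 23)))))) (.c (.b (.l 23) (.a (.c (.l 23) .z) (.a (.b (.l 23) .z) .z)))
(.a (.b (.c (.b (.l 23) .z) .z) .z) (.b (.c (.l 23) .z) .z))))))) (.b (.c (.c (.b (.a (.b .z (.b .z (.b .z (.c .z (.l 20))))) (.c .z (.b .z (.a (.b .z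
(.l 20)) .z)))) (.a (.c (.c (.a (.c (.l 26) .z) .z) (.a .z (.c .z (.l 20)))) (.b (.l 20) (.c (.a (.l 20) .z) .z))) (.c (.b (.c (.a .z (.l 20)) (.l
20)) .z) (.b (.a (.c (.l 20) .z) .z) .z)))) (.b (.a (.c (.b .z (.b .z (.l 20))) .z) .z) (.a (.c (.b (.a (.c (.l 20) .z) .z) .z) .z) .z))) .z) (.c (.a
(.c (.b (.c .z (.b .z (.c (.b .z (.l 23)) (.b .z (.l 23))))) (.c (.b (.c .z (.a .z (.l 23))) (.a .z (.c .z (.l 23)))) (.a (.c (.a .z (.l 23)) (.l 23))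
(.l 23)))) (.b (.c (.b .z (.b .z (.l 23))) (.b .z (.b .z (.l 23)))) (.b (.l 23) (.a (.l 23) (.b (.c (.l 23) .z) (.c (.l 23) .z)))))) (.b (.c (.c (.b
.z (.c .z (.b .z (.l 23)))) (.b .z (.b .z (.l 23)))) (.b (.c (.l 77) .z) (.b .z (.l 23)))) (.c (.b (.l 23) (.a (.c (.l 23) (.b (.l 23) .z)) (.c (.b
(.l 23) .z) .z))) (.a (.b (.b (.l 23) (.c (.l 23) .z)) .z) (.b (.c (.b (.l 23) .z) .z) .z))))) (.a (.b (.b .z (.b .z (.c (.l 23) (.a (.l 23) (.c (.l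
23) .z))))) (.c (.a (.b (.l 23) (.b (.c (.l 23) .z) .z)) (.b (.b (.l 23) (.c (.l 23) .z)) .z)) (.a (.b (.b (.c (.l 23) .z) .z) .z) .z))) (.b (.c (.a
(.b .z (.b .z (.l 23))) .z) .z) (.c .z (.a (.b .z (.c .z (.a .z (.l 17)))) (.b (.c (.a .z (.l 17)) (.l 17)) (.l 17))))))))) (.a (.b (.c (.c (.c (.b
(.c (.a (.a (.b .z (.l 19)) .z) .z) (.a (.a (.l 19) .z) .z)) .z) (.b (.c (.a (.a (.b (.l 19) .z) .z) .z) .z) .z)) (.c (.b (.c .z (.b (.a (.c .z (.b .z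
(.l 10))) .z) (.a (.c .z (.a .z (.l 10))) (.c .z (.a (.l 10) .z))))) .z) (.c (.a (.c (.b (.l 10) (.a (.b (.l 10) .z) .z)) (.b (.a (.l 10) .z) .z)) .z)
.z))) (.c .z (.c (.b (.c (.a (.c .z (.l 27)) .z) (.l 27)) (.c (.a (.c .z (.l 27)) .z) (.a (.l 27) (.b (.l 27) .z)))) (.b (.c (.l 27) (.a (.b (.l 27)
.z) .z)) (.c (.a (.b (.l 27) .z) .z) .z))))) (.a (.c (.c (.b .z (.c .z (.c (.b (.l 29) .z) (.b (.l 29) .z)))) .z) (.b (.c .z (.c (.c (.c .z (.l 27))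
.z) .z)) .z)) (.c .z (.b (.a .z (.b .z (.c .z (.a .z (.b .z (.c .z (.l 11))))))) (.a (.c .z (.b (.a .z (.b .z (.c .z (.l 11)))) (.a (.b .z (.c .z (.l
11))) (.l 11)))) (.c (.b .z (.a (.c .z (.c .z (.l 11))) (.c .z (.c .z (.l 11))))) (.b (.a (.b (.c .z (.l 11)) (.l 11)) (.c (.c .z (.l 11)) (.l 11)))
(.l 11)))))))) (.b .z (.a (.c (.b .z (.c (.a .z (.b .z (.c (.a .z (.l 17)) .z))) .z)) (.b (.a (.b .z (.c .z (.a (.b (.c .z (.l 11)) (.c .z (.l 11)))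
(.c .z (.l 11))))) (.b .z (.c .z (.c .z (.c (.b .z (.l 11)) (.l 11)))))) (.a (.c (.b .z (.c .z (.c .z (.b .z (.l 11))))) (.b (.c (.c .z (.l 11)) (.l
11)) (.c (.l 11) (.b (.l 11) .z)))) (.c .z (.b (.c (.c .z (.b .z (.l 11))) (.b (.l 11) (.a (.l 11) .z))) (.c (.b (.c .z (.l 11)) .z) .z)))))) (.c (.b
(.c (.a .z (.b .z (.c .z (.b .z (.l 17))))) .z) (.c (.a (.b (.c (.a .z (.l 17)) (.c (.l 17) .z)) (.c (.l 17) (.c (.l 17) .z))) (.l 17)) .z)) (.b (.c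
.z (.b .z (.a (.c .z (.c .z (.l 11))) .z))) (.c .z (.b (.a (.c .z (.b (.a (.l 11) .z) .z)) .z) .z)))))))) (.a (.b (.a (.b (.c (.c (.c (.c .z (.c (.l
47) .z)) (.c (.b (.c (.c .z (.l 19)) (.l 19)) (.c (.c .z (.l 19)) .z)) .z)) (.c (.c (.b (.c .z (.c (.l 25) .z)) (.c (.l 25) .z)) .z) .z)) .z) (.c (.c
(.c (.c (.c .z (.b (.l 47) .z)) .z) (.c .z (.b .z (.c (.c .z (.l 23)) .z)))) (.a (.c (.c (.c (.c (.l 25) .z) .z) .z) .z) .z)) .z)) (.b (.c (.c (.c (.c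
.z (.c (.a (.l 47) .z) .z)) (.c (.b (.c .z (.l 19)) (.c (.c .z (.l 19)) .z)) (.b (.c (.b (.l 19) .z) .z) .z))) .z) .z) (.c (.c (.a (.b (.c (.c (.l 47)
.z) (.c .z (.c (.l 23) .z))) (.c (.c (.l 47) .z) .z)) (.b (.c .z (.a (.c .z (.l 23)) .z)) .z)) .z) .z))) (.a (.b (.c (.c (.a (.c .z (.c .z (.c (.c .z
(.l 23)) .z))) (.b (.c .z (.c .z (.c (.l 23) .z))) .z)) .z) .z) .z) (.b (.c (.c (.a .z (.b .z (.c (.a .z (.c (.c (.l 11) .z) .z)) .z))) .z) .z) (.c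
(.c (.a (.b .z (.c (.c (.c (.l 11) (.c (.l 11) .z)) .z) .z)) (.c (.b (.c (.c (.l 11) (.c (.l 11) .z)) .z) (.c (.b (.l 11) .z) .z)) .z)) .z) .z)))) (.b
(.a (.b (.c (.c (.a .z (.b (.c (.c (.l 43) .z) .z) .z)) .z) .z) (.c (.c .z (.a (.b .z (.c (.c .z (.c (.l 20) .z)) .z)) (.b (.c (.c .z (.l 20)) .z) (.c
(.b (.c .z (.l 20)) .z) .z)))) .z)) (.b (.c (.c .z (.a (.b .z (.c (.c .z (.l 20)) .z)) (.b (.c (.c (.c .z (.l 20)) (.c (.l 20) .z)) .z) (.c (.c (.c .z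
(.l 20)) (.c (.l 20) .z)) .z)))) .z) (.c (.c .z (.b (.c (.a (.b (.c .z (.l 20)) .z) .z) .z) .z)) .z))) (.a (.b (.c (.c (.a (.b .z (.c (.c (.c (.c (.l
11) .z) .z) .z) .z)) .z) .z) .z) (.c (.c (.c (.b (.a (.c (.b (.c (.l 11) .z) (.a (.l 11) .z)) .z) .z) .z) .z) .z) .z)) (.c (.c .z (.b (.b (.c .z (.c
.z (.c .z (.l 27)))) .z) .z)) .z)))))

theorem vQ197 : ev3 Q197 J4_8 J4_10 J2_3 = 84522458766137086298854 := by decide +kernel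

noncomputable def Q108 : QT3 :=
(.a (.b (.c (.c (.a .z (.c (.a (.b (.c (.b (.a .z (.l 19)) .z) .z) .z) (.b (.c (.l 19) (.a .z (.l 19))) (.a .z (.c (.b (.l 19) .z) .z)))) .z)) (.a (.a
(.c (.a (.c .z (.l 58)) .z) (.a (.a (.l 58) .z) .z)) .z) (.a (.c .z (.a .z (.c (.a .z (.c .z (.b (.l 6) .z))) (.a (.b (.l 6) (.c .z (.l 6))) (.l
6))))) (.c (.b (.a (.c .z (.a (.c .z (.l 6)) (.l 6))) (.c (.b .z (.l 6)) (.l 6))) (.a (.c .z (.a .z (.l 6))) (.l 6))) (.l 6))))) (.a (.c (.a .z (.c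
(.a .z (.c .z (.b (.a .z (.c .z (.l 6))) .z))) (.a (.b (.c (.a .z (.b (.l 6) .z)) (.a (.b (.l 6) .z) (.l 6))) .z) (.b (.l 6) (.c (.a .z (.b (.l 6)
.z)) (.l 6)))))) (.a (.c (.b (.a (.c .z (.b (.l 6) .z)) (.c (.b (.l 6) (.a .z (.l 6))) (.l 6))) (.a .z (.c .z (.b (.a .z (.l 6)) .z)))) (.b (.l 6) (.a
(.c (.b (.a .z (.l 6)) .z) (.b (.l 6) (.a .z (.l 6)))) (.c (.b (.l 6) (.a .z (.l 6))) (.l 6))))) (.c (.a (.b (.l 6) (.c (.a (.b (.l 6) .z) (.l 6)) (.l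
6))) (.l 6)) (.l 6)))) (.c (.a (.c (.a (.c (.a (.b (.c .z (.l 6)) .z) (.b (.l 6) (.c .z (.l 6)))) (.b (.l 6) (.a (.c .z (.l 6)) (.l 6)))) (.l 6)) (.l
6)) (.l 6)) (.l 6)))) (.c (.a (.b .z (.b (.a (.c (.b (.a (.c (.l 17) .z) .z) (.a (.l 17) (.c (.l 17) .z))) .z) .z) (.a (.b (.c (.l 17) (.a (.l 17)
.z)) (.l 17)) (.a (.b .z (.c (.l 17) .z)) .z)))) (.c (.a .z (.c .z (.a .z (.c .z (.a .z (.a (.c .z (.l 6)) (.l 6))))))) (.a (.c .z (.a .z (.c .z (.a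
.z (.b (.c .z (.l 6)) .z))))) (.a (.c (.c .z (.a .z (.c (.a .z (.l 6)) (.l 6)))) (.a (.c (.c (.a .z (.l 6)) (.a .z (.l 6))) (.l 6)) (.l 6))) (.c (.a
(.c (.c (.a .z (.l 6)) (.l 6)) (.l 6)) (.l 6)) (.l 6)))))) (.b (.a (.c (.a .z (.c .z (.a .z (.c .z (.a .z (.b (.l 6) .z)))))) (.a (.c .z (.a .z (.c .z
(.b (.l 6) .z)))) (.c (.a (.c .z (.a .z (.b (.l 6) .z))) (.c (.a (.b (.l 6) .z) (.l 6)) (.l 6))) (.a (.c (.a (.b (.l 6) .z) (.l 6)) (.l 6)) (.l 6)))))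
(.c (.a (.c (.a (.c .z (.a .z (.c .z (.l 6)))) (.c (.a (.c .z (.l 6)) (.l 6)) (.l 6))) (.a (.c (.a (.b (.l 6) .z) (.l 6)) (.l 6)) (.l 6))) (.l 6)) (.a
(.l 6) (.b (.l 6) (.c (.a (.l 6) (.b (.l 6) (.c (.l 6) .z))) (.a (.b (.l 6) .z) .z)))))) (.a (.c (.a (.b .z (.b (.a (.b .z (.l 17)) .z) (.a (.l 17)
(.b .z (.l 17))))) .z) (.b (.a .z (.a (.c .z (.a .z (.c .z (.l 6)))) (.c (.a (.c .z (.l 6)) (.l 6)) (.l 6)))) (.a (.a (.b .z (.b .z (.l 17))) .z) (.c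
.z (.b (.a .z (.c (.l 6) .z)) .z))))) (.c (.a (.b (.a (.c .z (.a (.c .z (.l 6)) (.l 6))) (.c (.a (.c .z (.l 6)) (.l 6)) (.l 6))) (.c (.a .z (.a (.c .z
(.l 6)) (.l 6))) (.a (.a .z (.c .z (.l 6))) (.b (.l 6) (.c (.l 6) .z))))) (.b (.c (.l 6) (.a (.l 6) (.b (.l 6) .z))) (.c (.a (.b (.l 6) (.c (.l 6)
.z)) (.b (.c (.l 6) .z) .z)) .z))) (.a (.b (.c (.b (.l 6) (.a (.l 6) (.c (.l 6) .z))) (.b (.a (.l 6) (.c (.l 6) .z)) (.a (.c (.l 6) .z) .z))) (.c (.a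
(.b (.c (.l 6) .z) .z) .z) .z)) (.b (.c (.a (.b (.c (.l 6) .z) .z) .z) .z) (.c .z (.l 35))))))))) (.b (.c (.a (.c (.a (.c (.b (.l 19) (.a (.c (.l 19)
(.b (.l 19) .z)) (.l 19))) (.b (.a (.c (.l 19) .z) (.l 19)) (.a (.c .z (.b .z (.a (.l 6) .z))) (.c (.b (.l 19) .z) .z)))) (.l 19)) (.a (.c (.b (.a (.c
.z (.b .z (.l 6))) .z) (.a (.c (.b (.a (.l 6) .z) (.l 6)) (.l 6)) (.c .z (.b (.a (.l 6) .z) (.l 6))))) (.b (.a (.l 6) (.c (.b .z (.a (.l 6) .z)) (.l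
6))) (.l 6))) (.c (.a (.b (.c (.l 19) (.a .z (.l 19))) .z) (.b (.l 19) (.c (.l 19) (.a .z (.l 19))))) (.a (.b (.c .z (.a (.b .z (.l 6)) .z)) (.c (.a
(.b .z (.l 6)) .z) (.l 6))) (.b (.c (.a .z (.l 19)) .z) .z))))) (.b (.l 19) (.c (.l 19) (.a (.c (.l 19) (.a (.c (.l 19) (.a .z (.l 19))) (.l 19))) (.b
(.c (.l 19) (.a (.l 19) (.b (.l 19) .z))) (.c (.a (.l 19) (.b (.l 19) .z)) (.a (.b (.l 19) .z) .z))))))) (.a (.b (.c (.a (.l 6) (.c (.a (.l 6) (.c .z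
(.a (.l 6) (.c .z (.l 6))))) (.l 6))) (.l 6)) (.c (.a (.l 6) (.c (.a (.l 6) (.c (.a (.l 6) (.b .z (.l 6))) (.l 6))) (.l 6))) (.a (.b (.l 6) (.c (.l 6)
(.a (.l 6) (.b (.l 6) (.c (.l 6) .z))))) (.b (.c (.l 6) (.a (.l 6) (.b (.l 6) (.c (.l 6) .z)))) (.c (.a (.l 6) (.b (.c (.l 6) .z) .z)) (.a (.b (.c (.l
6) .z) .z) .z)))))) (.b (.c (.a (.c (.a (.c (.a .z (.l 19)) .z) (.l 19)) (.a (.c (.a (.c .z (.l 6)) .z) (.l 6)) .z)) (.b (.l 19) (.c (.l 19) (.a (.c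
(.l 19) .z) .z)))) (.a (.b (.c (.a (.l 6) (.c (.a (.l 6) .z) (.l 6))) (.l 6)) (.c (.a (.l 6) (.c (.a (.l 6) .z) (.l 6))) (.a (.l 6) (.b (.c (.l 6) .z)
.z)))) (.b (.c (.a .z (.b (.l 19) .z)) (.a (.b (.c .z (.l 6)) .z) .z)) .z))) (.c (.a (.b (.c (.a .z (.c (.l 19) .z)) (.a (.c (.a (.l 6) .z) (.l 6))
.z)) (.c (.a (.c .z (.a (.l 6) .z)) .z) (.a (.b (.c (.l 6) .z) .z) .z))) (.b (.c (.a (.b (.l 19) .z) .z) .z) .z)) (.a (.b (.c (.a (.b (.l 6) (.c (.l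
6) .z)) .z) .z) (.c .z (.a .z (.l 35)))) .z))))) (.c (.a (.b (.c (.a (.c (.a .z (.c (.l 19) .z)) (.a (.c (.b .z (.a .z (.l 6))) (.l 6)) (.c .z (.b .z
(.a (.l 6) .z))))) (.c (.l 19) (.a (.c (.b (.l 19) .z) .z) (.l 19)))) (.a (.c (.a (.l 6) (.c (.a (.l 6) (.b .z (.l 6))) (.l 6))) (.l 6)) (.b (.c (.a
(.c .z (.a (.l 6) .z)) (.c (.l 19) .z)) (.a (.l 6) (.c .z (.a (.l 6) .z)))) (.c (.a (.c .z (.a (.l 6) .z)) .z) (.a (.l 6) (.b (.c .z (.l 6)) .z))))))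
(.c (.a (.c (.a (.c .z (.b .z (.a .z (.l 6)))) (.c .z (.b .z (.a (.l 6) .z)))) (.a (.l 6) (.c (.b (.a (.l 6) .z) (.l 6)) (.l 6)))) (.b (.c (.a (.c (.l
19) .z) (.l 19)) (.a .z (.c (.l 19) .z))) (.c (.a .z (.l 19)) .z))) (.a (.b (.c (.l 6) (.a (.l 6) (.b (.l 6) (.c (.l 6) .z)))) (.c (.a (.l 6) (.b (.l
6) (.c (.l 6) .z))) (.a (.b (.l 6) .z) .z))) (.b (.c (.a (.c (.a (.l 6) .z) (.l 6)) .z) (.a (.b (.c (.l 6) .z) .z) .z)) .z)))) (.b (.c (.a (.b (.l 19)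
(.c (.l 19) (.a (.l 19) (.b (.l 19) .z)))) (.b (.c (.l 19) (.a (.l 19) (.b (.l 19) .z))) (.c (.a (.l 19) .z) .z))) (.a (.b (.c (.l 19) .z) (.c (.a (.b
(.l 19) .z) .z) .z)) .z)) (.c (.a (.b (.c (.a (.l 19) (.b (.l 19) .z)) (.a (.b (.l 19) .z) .z)) .z) (.b .z (.c .z (.a (.l 45) .z)))) (.a .z (.c (.b
(.l 45) .z) .z))))) (.a (.b (.c (.a (.b (.l 6) (.c (.l 6) (.a (.b (.l 6) (.c (.l 6) .z)) (.b (.c (.l 6) .z) .z)))) (.b (.c (.a (.l 6) (.b (.l 6) (.c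
(.l 6) .z))) (.a (.b (.l 6) (.c (.l 6) .z)) (.b (.c (.l 6) .z) .z))) (.c (.a (.b (.l 6) .z) .z) .z))) (.a (.b (.c (.a (.l 6) (.b (.l 6) (.c (.l 6)
.z))) (.a (.b (.l 6) .z) .z)) (.c (.a (.b (.c (.l 6) .z) .z) .z) .z)) (.b .z (.c (.a .z (.l 35)) (.l 35))))) (.c (.a (.b (.c (.a (.b (.l 6) (.c (.l 6)
.z)) (.b (.c (.l 6) .z) .z)) .z) (.c .z (.a .z (.l 35)))) (.b (.c .z (.a .z (.l 35))) (.l 35))) (.a (.b (.c (.a .z (.l 35)) (.l 35)) (.l 35)) (.l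
35)))) (.b (.c (.a (.b .z (.c .z (.a (.l 35) .z))) .z) (.a (.b (.c (.a .z (.l 35)) (.l 35)) (.l 35)) (.c .z (.c (.a (.l 35) .z) .z)))) (.c (.c (.b .z
(.a (.a (.l 35) .z) .z)) (.a (.a (.l 35) (.a (.l 35) .z)) .z)) (.c (.a (.l 35) (.a (.a (.l 35) .z) .z)) (.a (.l 35) (.c (.a (.l 35) .z) (.a (.l 35)
.z))))))))))

theorem vQ108 : ev3 Q108 J3_1 J4_8 J4_11 = 235437075475469044895617 := by decide +kernel

noncomputable def Q78 : QT3 :=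
(.a (.b (.c (.a (.a (.c (.a (.c (.b (.c .z (.a .z (.l 26))) (.a (.b .z (.l 26)) (.l 26))) (.l 26)) (.c (.b (.c (.b .z (.l 26)) (.l 26)) (.l 26)) (.l
26))) (.l 26)) (.l 26)) (.l 26)) (.a (.c (.l 26) (.c (.l 26) (.a (.l 26) (.b (.l 26) (.a (.l 26) (.c (.l 26) (.b (.l 26) .z))))))) (.b (.a (.c (.l 26)
(.c (.l 26) (.c (.a (.l 26) (.b (.l 26) .z)) (.a (.b (.l 26) .z) .z)))) (.c (.l 26) (.a (.c (.c (.l 26) (.b (.l 26) .z)) .z) (.c (.c (.b (.l 26) .z)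
.z) .z)))) (.c (.a (.l 26) (.c (.l 26) (.a (.b (.l 26) (.c (.l 26) .z)) (.b (.c (.l 26) .z) .z)))) (.a (.b (.c (.a (.l 26) (.c (.l 26) .z)) .z) (.c
(.a (.l 26) .z) .z)) .z))))) (.c (.a (.l 26) (.b (.c (.l 26) (.a (.l 26) (.c (.l 26) (.b (.l 26) (.a (.l 26) (.c (.l 26) .z)))))) (.c (.l 26) (.a (.b
(.l 26) (.c (.l 26) (.a (.l 26) (.b (.l 26) .z)))) (.b (.c (.l 26) (.a (.c (.l 26) .z) .z)) (.c (.a (.l 26) .z) .z)))))) (.a (.b (.c (.l 26) (.a (.c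
(.l 26) (.a (.l 26) (.c (.l 26) (.b (.l 26) .z)))) (.b (.c (.l 26) (.a (.c (.l 26) .z) .z)) (.c (.a (.l 26) (.c (.l 26) .z)) .z)))) (.c (.a (.l 26)
(.b (.l 26) (.c (.l 26) (.a (.l 26) .z)))) (.a (.b (.c (.l 26) (.a (.l 26) (.c (.l 26) .z))) (.c (.l 26) (.a (.b (.l 26) .z) .z))) (.b (.c (.a (.c (.l
26) .z) .z) .z) .z)))) (.b (.c (.a (.b (.c (.l 26) (.a (.l 26) (.c (.l 26) .z))) (.c (.l 26) (.a (.c (.l 26) .z) .z))) (.b (.c (.a (.l 26) (.c (.l 26)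
.z)) .z) (.c (.a (.c (.l 26) .z) .z) .z))) (.a (.b (.c (.a (.c (.l 26) .z) .z) .z) .z) (.b .z (.c .z (.l 33))))) (.c (.a (.b (.c (.a (.l 26) .z) .z)
(.c (.a (.b (.l 26) .z) .z) .z)) (.b .z (.c .z (.l 33)))) (.a (.b (.c .z (.a .z (.l 33))) (.c (.a .z (.l 33)) (.l 33))) (.l 33))))))) (.b (.c (.a (.c
(.a (.l 26) (.a (.c (.a (.l 26) .z) (.a (.l 26) .z)) .z)) (.b (.a (.l 26) (.a (.a (.l 26) .z) .z)) (.a (.c (.l 26) (.b (.l 26) (.a (.l 26) (.c (.l 26)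
.z)))) (.c (.b (.a (.a (.l 26) .z) .z) (.a (.a (.l 26) .z) .z)) (.b (.a (.a (.l 26) .z) .z) .z))))) .z) (.a (.b (.c (.a (.a (.c (.l 26) (.b (.l 26)
(.c (.l 26) .z))) (.c (.l 26) .z)) (.c (.b (.a (.a (.l 26) .z) .z) .z) .z)) .z) (.c (.a (.b (.c (.a (.l 26) .z) .z) .z) .z) (.a .z (.b .z (.a (.a (.l
31) .z) (.a (.l 29) .z)))))) .z)) (.c (.a (.b (.c (.a (.l 26) (.c (.b (.a (.a (.l 26) .z) .z) (.a (.a (.l 26) .z) .z)) (.b (.a (.a (.l 26) .z) .z)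
.z))) (.a (.b (.c (.l 26) (.a (.c (.l 26) .z) .z)) (.c (.a (.l 26) .z) .z)) .z)) (.c (.a (.b (.c (.l 26) (.a (.l 26) .z)) (.c (.a (.l 26) (.b (.l 26)
.z)) .z)) .z) (.a (.b .z (.c .z (.a .z (.l 33)))) .z))) .z) (.a (.b (.c .z (.a (.b .z (.a (.l 33) .z)) (.a (.a (.b (.l 31) .z) (.a .z (.l 29))) (.a
(.b (.l 29) .z) .z)))) (.c (.a (.b (.c (.a .z (.l 33)) (.l 33)) (.l 33)) (.a .z (.a .z (.l 55)))) (.a (.a (.l 33) (.a (.l 33) (.b .z (.l 33)))) (.a .z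
(.a .z (.l 55)))))) (.a (.a (.b .z (.c (.b .z (.l 55)) (.l 55))) (.b .z (.c .z (.b .z (.l 55))))) .z)))))

theorem vQ78 : ev3 Q78 J3_2 J4_7 J4_8 = 250104497785176798343897 := by decide +kernel

noncomputable def Q54 : QT3 :=
(.b (.b (.a (.c (.c (.c (.c (.a .z (.a .z (.c (.a (.c (.l 14) .z) (.l 14)) .z))) .z) (.a (.c (.c (.a (.c (.l 40) .z) .z) (.a (.c .z (.b (.l 22) .z))
(.b (.l 22) (.c .z (.l 22))))) (.c (.b (.l 22) (.a (.c (.l 22) .z) (.c (.l 22) .z))) (.b (.a .z (.c (.l 22) .z)) .z))) (.c (.a (.c (.a (.c .z (.l 22))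
.z) (.a (.l 22) (.b (.l 22) .z))) .z) (.a (.c (.l 22) (.a (.b (.l 22) .z) (.l 22))) (.a (.c (.b (.l 22) .z) (.l 22)) (.c .z (.b (.l 22) .z))))))) (.c
(.a (.c .z (.c .z (.a .z (.a (.l 34) .z)))) (.a (.c (.c (.a .z (.b (.l 22) .z)) .z) .z) (.c (.a (.c (.l 22) (.b (.l 22) .z)) (.l 22)) (.a .z (.c (.a
.z (.l 22)) .z))))) (.b (.a .z (.a (.c (.c .z (.l 34)) .z) .z)) .z))) .z) (.c (.a (.c (.c (.a (.c (.l 14) (.a .z (.c (.l 14) .z))) (.c (.a (.l 14) (.c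
(.b .z (.l 14)) (.l 14))) (.l 14))) (.a .z (.c (.a (.c (.a .z (.l 14)) .z) (.c (.l 14) (.a .z (.l 14)))) .z))) (.b (.c (.a (.c (.a (.l 22) .z) (.a (.c
(.l 22) .z) .z)) .z) .z) (.a (.c (.c (.a (.c .z (.l 22)) .z) (.a (.c (.l 22) .z) .z)) .z) .z))) (.c (.b (.c (.a (.c .z (.a (.l 14) .z)) .z) (.a (.c
(.a (.c (.l 14) .z) .z) .z) .z)) (.a (.c (.c (.a (.c .z (.l 14)) .z) (.a (.l 14) .z)) .z) .z)) .z)) .z)) (.a (.c (.c (.b (.c (.a .z (.c (.a .z (.c (.a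
.z (.l 14)) .z)) .z)) (.a .z (.c .z (.a (.c (.l 22) .z) (.a (.c .z (.l 22)) .z))))) (.c (.a .z (.c (.a .z (.c (.a .z (.l 14)) .z)) .z)) .z)) (.b (.c
(.a .z (.a .z (.c (.a .z (.c (.l 22) .z)) .z))) .z) .z)) .z) (.c (.a (.c (.b (.c (.a (.c (.l 14) (.a .z (.c (.l 14) .z))) (.l 14)) (.a .z (.b (.c (.a
.z (.l 14)) .z) (.c (.a .z (.l 14)) .z)))) (.c (.a (.b (.c (.l 14) .z) (.c (.l 14) .z)) (.b (.c (.l 14) (.a (.l 14) .z)) (.c (.a (.l 14) .z) .z)))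
.z)) (.b .z (.a .z (.c .z (.c (.c (.l 23) .z) .z))))) (.c (.b (.a (.c (.b (.c .z (.a (.l 14) .z)) (.c (.a (.l 14) .z) (.a (.l 14) .z))) .z) (.c (.b
(.a (.c (.c (.l 10) .z) .z) .z) .z) (.b .z (.a .z (.c (.l 15) .z))))) (.a (.c .z (.b .z (.c (.l 15) (.c (.l 15) .z)))) (.c (.b (.a .z (.c (.b .z (.l
11)) .z)) (.c (.c (.l 11) .z) (.c .z (.l 15)))) (.c (.l 15) (.c (.l 15) (.c (.l 15) .z)))))) (.b (.a (.c .z (.b .z (.c (.c (.l 23) .z) .z))) (.c .z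
(.c (.c (.c .z (.l 23)) .z) .z))) (.c .z (.c (.c (.c (.a (.l 23) .z) (.l 23)) .z) .z))))) .z))) (.b (.a (.c (.c (.b (.c (.b .z (.a (.c (.c .z (.l 36))
.z) .z)) .z) (.c (.b (.a (.c (.c .z (.l 36)) .z) .z) .z) (.b (.a (.c (.b .z (.c .z (.l 15))) (.b .z (.c (.l 15) .z))) (.c (.a .z (.l 15)) (.c (.l 15)
(.c (.l 15) .z)))) (.c (.c (.c (.a .z (.l 15)) (.l 15)) (.l 15)) (.c (.l 15) (.c (.l 15) .z)))))) (.b (.c .z (.b (.a .z (.c .z (.c (.l 27) .z))) (.c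
.z (.c (.c (.l 27) .z) .z)))) (.c (.c .z (.c .z (.c (.a (.l 44) .z) (.a (.l 44) .z)))) (.c .z (.c (.c (.l 27) .z) .z))))) .z) (.c (.a (.c (.b (.c (.a
(.b (.c (.b (.l 14) .z) .z) .z) .z) (.a (.b .z (.c (.l 15) (.c (.l 15) .z))) (.c (.l 15) (.c (.l 15) (.c (.l 15) .z))))) (.c (.a .z (.c .z (.c .z (.c
.z (.l 15))))) (.c (.l 15) (.c (.l 15) (.c (.l 15) .z))))) (.c (.c .z (.c (.c (.b .z (.b .z (.l 21))) .z) .z)) (.c (.c (.c (.a .z (.b (.l 23) .z)) .z)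
(.b .z (.c .z (.l 27)))) (.c (.c (.l 27) .z) .z)))) (.c (.b (.a (.c (.b (.c .z (.c .z (.l 15))) (.c .z (.c .z (.l 15)))) (.c (.l 15) (.c (.l 15) (.c
(.l 15) .z)))) (.c (.c (.c (.c (.l 11) (.b (.l 11) .z)) .z) (.c (.c .z (.l 15)) (.l 15))) (.c (.l 15) (.c (.l 15) (.c (.l 15) .z))))) (.c (.c .z (.c
(.a .z (.c .z (.l 15))) (.l 15))) (.c (.l 15) (.c (.l 15) .z)))) (.c (.c .z (.c (.c .z (.b (.b .z (.l 21)) (.l 21))) (.c (.a .z (.l 21)) .z))) (.c (.c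
(.c (.a (.b (.l 23) .z) (.a (.l 23) .z)) (.b (.a .z (.l 23)) .z)) (.c .z (.b .z (.l 27)))) (.c (.c (.l 27) .z) .z))))) (.c (.a (.c (.c (.c .z (.c .z
(.b (.l 39) .z))) .z) .z) .z) .z))) (.a (.c (.c (.b (.c .z (.c (.c (.c (.a (.b .z (.l 15)) (.l 15)) (.l 15)) (.l 15)) (.c (.l 15) (.c (.b (.l 15) (.a
(.l 15) .z)) .z)))) (.c (.c .z (.c .z (.c .z (.a .z (.a .z (.l 15)))))) (.c (.l 15) (.c (.l 15) .z)))) (.c (.c (.c .z (.c .z (.b (.b (.b .z (.l 21))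
(.l 21)) (.b (.a (.l 21) .z) .z)))) (.c (.c .z (.a (.l 44) .z)) (.c (.a (.l 44) .z) .z))) (.c (.c (.c (.a .z (.a .z (.a .z (.l 22)))) (.a (.l 52) .z))
.z) (.c (.c (.l 27) .z) .z)))) .z) (.c (.c (.c (.c (.a .z (.c .z (.a .z (.c .z (.a .z (.l 15)))))) (.a (.c .z (.c (.a .z (.l 15)) (.l 15))) (.c (.a
(.c .z (.l 15)) (.l 15)) (.l 15)))) (.c (.l 15) (.c (.c (.l 15) (.b (.l 15) (.a (.l 15) (.a (.l 15) .z)))) .z))) (.c (.c (.c .z (.a .z (.c (.b .z (.a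
(.l 22) .z)) (.b .z (.l 22))))) (.c (.a (.b (.c (.a (.l 21) .z) .z) .z) (.b (.c .z (.a (.l 21) .z)) .z)) (.a (.c .z (.a (.l 22) (.b .z (.l 22))))
.z))) (.c (.a (.c .z (.c (.a .z (.l 27)) (.l 27))) (.c .z (.l 27))) (.c (.c (.b (.a (.l 27) .z) .z) .z) (.a .z (.a (.c .z (.l 34)) .z)))))) (.c (.a .z
(.c (.c (.c (.c (.a (.l 34) .z) .z) .z) .z) .z)) .z)))))

theorem vQ54 : ev3 Q54 J3_0 J4_5 J3_7 = 103111422440876684598786 := by decide +kernel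

noncomputable def Q102 : QT3 :=
(.b (.c (.c (.b (.a (.c (.b .z (.a (.l 32) (.a (.l 32) .z))) (.a (.b .z (.a (.b .z (.l 32)) (.l 32))) .z)) (.a .z (.c (.b (.a .z (.b (.l 25) (.c .z
(.l 25)))) .z) .z))) (.a (.a (.b (.l 32) (.b (.c (.l 32) .z) .z)) (.a (.b (.l 32) (.b (.l 32) (.a .z (.l 32)))) (.c (.a (.c .z (.l 32)) .z) (.a (.b .z
(.l 32)) .z)))) (.a (.a .z (.c .z (.a .z (.c .z (.l 32))))) (.c (.b .z (.a (.a .z (.l 51)) .z)) (.a .z (.a (.b (.l 51) .z) .z)))))) (.a (.c (.a (.b .z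
(.b (.b (.l 32) (.a .z (.l 32))) .z)) (.a (.b .z (.b (.a (.l 32) .z) (.b (.l 32) .z))) .z)) (.a (.b .z (.b (.b (.a (.l 32) .z) .z) .z)) .z)) (.b (.a
(.a (.c .z (.c .z (.a .z (.l 32)))) (.c (.a .z (.c .z (.l 32))) (.l 32))) (.c (.b .z (.a (.a (.l 32) .z) (.a .z (.l 51)))) (.a (.a (.b .z (.l 32)) .z)
.z))) (.a (.a (.c .z (.a .z (.l 32))) (.c (.a (.c .z (.l 32)) (.l 32)) (.l 32))) (.a (.a (.b (.l 32) (.c .z (.l 32))) .z) .z))))) (.a (.c (.c (.a .z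
(.a .z (.c .z (.b .z (.b (.l 32) .z))))) (.a (.c .z (.a (.c (.a (.l 24) .z) (.l 24)) (.a .z (.c (.l 17) (.a .z (.l 17)))))) (.c .z (.l 17)))) (.a (.c
(.a (.l 24) (.c (.a (.c (.b (.l 24) .z) (.l 24)) .z) (.a (.l 24) (.b (.l 24) (.a (.l 24) .z))))) (.l 24)) (.a (.c (.a (.c (.a .z (.c (.l 17) .z)) .z)
(.c (.l 17) (.a (.b .z (.l 17)) (.l 17)))) (.a (.c (.b (.a (.l 24) .z) .z) (.b (.l 24) (.a (.l 24) .z))) (.b .z (.c (.a .z (.l 17)) .z)))) (.c (.l 17)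
(.a (.b (.c (.a .z (.l 17)) .z) (.a (.c (.l 17) .z) (.l 17))) (.l 17)))))) (.c (.c (.a (.b (.a (.b (.b .z (.l 32)) (.l 32)) (.l 32)) (.b (.l 32) (.a
(.b (.l 32) .z) (.l 32)))) (.a (.b (.a (.b .z (.l 32)) .z) (.a (.l 32) (.b (.l 32) .z))) .z)) (.c (.c (.b (.a (.a .z (.l 32)) .z) (.a (.b (.l 32) .z)
.z)) .z) (.l 17))) (.l 17)))) (.c (.a .z (.a (.c .z (.a (.c (.b .z (.a (.l 81) .z)) .z) (.b (.b (.a (.b (.l 32) .z) (.l 32)) .z) .z))) (.b .z (.a .z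
(.c .z (.b (.a .z (.l 79)) .z)))))) (.b (.a (.c (.a (.c .z (.c .z (.a (.c (.a (.l 24) .z) (.a (.l 24) .z)) (.a .z (.l 17))))) (.a (.c .z (.c .z (.l
17))) (.c .z (.c .z (.l 17))))) (.a (.c (.a (.l 24) (.a (.c .z (.l 24)) .z)) (.a (.l 24) (.a (.l 24) (.c (.a (.l 24) .z) (.l 24))))) (.a (.c (.a (.c
(.l 17) (.a .z (.l 17))) (.l 17)) (.a .z (.a (.c (.l 17) .z) (.l 17)))) (.l 17)))) (.c (.c .z (.c .z (.l 17))) (.l 17))) (.c (.a (.a (.c .z (.c .z (.a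
(.c (.a (.l 24) .z) (.a (.l 24) .z)) (.a (.a .z (.l 17)) (.l 17))))) (.a (.c .z (.c .z (.l 17))) (.c .z (.c .z (.l 17))))) (.c .z (.c .z (.l 17))))
(.a (.a (.a (.c (.c (.c (.a (.l 24) .z) (.l 24)) (.l 24)) (.l 24)) (.c (.a (.c .z (.a (.l 24) .z)) (.c (.a .z (.l 17)) .z)) (.a (.l 24) (.c .z (.a (.l
24) .z))))) (.a (.a (.c (.l 17) (.a .z (.c (.l 17) .z))) (.l 17)) (.l 17))) (.a (.l 17) (.b (.l 17) (.c (.l 17) (.a (.l 17) (.b (.c (.l 17) .z)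
.z))))))))))

theorem vQ102 : ev3 Q102 J3_0 J4_9 J4_10 = 177131250731336795415303 := by decide +kernel

noncomputable def Q101 : QT3 :=
(.c (.a (.b (.b (.a (.b (.b (.b .z (.a (.l 24) .z)) (.a (.l 24) (.b (.a (.l 24) .z) (.l 24)))) (.l 24)) (.b (.a (.b (.a .z (.l 51)) .z) (.l 51)) (.a
(.b (.a (.l 24) (.b .z (.l 24))) (.l 24)) (.b (.a .z (.l 51)) (.a (.b .z (.l 24)) .z))))) (.a (.l 24) (.b (.a (.l 24) (.b (.a (.l 24) (.a (.l 24) .z))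
(.c (.l 24) (.a (.l 24) .z)))) (.a (.l 24) (.c (.l 24) (.a (.l 24) .z)))))) (.a (.b (.l 24) (.c (.l 24) (.b (.l 24) (.c (.l 24) (.a (.l 24) (.a (.l
24) .z)))))) (.a (.b (.c (.l 24) (.a (.l 24) (.b (.l 24) (.c (.l 24) .z)))) (.c (.b (.l 24) (.a (.l 24) (.c (.l 24) .z))) (.a (.b (.c (.l 24) .z) .z)
.z))) (.b (.c (.a (.l 24) (.b (.c (.l 24) .z) .z)) (.a (.b (.c (.l 24) .z) .z) .z)) (.c (.a (.b (.c (.l 24) .z) .z) .z) (.a (.b .z (.c .z (.l 20)))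
(.b (.c .z (.l 20)) (.l 20)))))))) (.a (.b (.b (.b (.l 51) (.c (.l 51) (.b (.a (.l 51) .z) .z))) (.a (.b .z (.a (.c (.c (.l 24) .z) .z) .z)) .z)) (.a
(.b .z (.a (.c .z (.b .z (.l 20))) .z)) (.b (.a (.b .z (.b .z (.l 33))) .z) (.a .z (.c (.b .z (.a .z (.l 17))) .z))))) (.b (.a (.b (.a (.b (.l 51) .z)
.z) .z) (.b (.a .z (.c (.l 58) .z)) (.a (.c (.l 58) .z) (.a (.l 58) .z)))) (.a (.b .z (.a (.c (.l 17) (.b (.a .z (.l 17)) (.l 17))) (.b (.b (.b .z (.l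
17)) (.l 17)) (.l 17)))) (.b (.b (.a (.l 58) .z) .z) (.b (.b .z (.a (.l 17) .z)) (.l 17))))))) (.a (.b (.b (.a (.b (.b (.b .z (.a (.l 24) .z)) (.l
24)) (.l 24)) (.b (.a (.b (.a .z (.l 51)) .z) (.c (.l 51) (.b (.l 51) .z))) (.a (.b (.a (.l 24) (.b .z (.l 24))) (.c (.l 24) (.c (.l 24) .z))) .z)))
(.a (.l 24) (.b (.a (.c (.l 24) (.a (.c (.l 24) .z) .z)) .z) (.a (.c (.a (.l 24) (.c (.l 24) .z)) .z) .z)))) (.c (.b (.a (.l 24) (.a (.a (.b (.l 24)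
.z) .z) (.a (.b .z (.c .z (.l 20))) (.b .z (.b .z (.l 20)))))) (.a (.b (.c (.a (.l 24) (.a (.l 24) .z)) (.a (.l 24) .z)) (.c (.a (.l 24) .z) .z)) (.a
(.a (.b .z (.c .z (.l 20))) (.b (.c .z (.l 20)) (.l 20))) (.l 20)))) (.b (.a (.c (.b (.l 24) (.a (.l 24) .z)) (.b (.a (.l 24) .z) .z)) (.a (.a .z (.b
(.c .z (.l 20)) (.c .z (.l 20)))) (.b (.a (.b .z (.l 20)) .z) (.l 20)))) (.a (.b .z (.c .z (.b .z (.c .z (.l 16))))) (.c (.b (.a (.a .z (.l 20)) (.l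
20)) (.a (.b (.l 20) .z) (.l 20))) (.b (.a (.c (.l 20) .z) (.l 20)) .z)))))) (.b (.a (.b (.c (.b (.b (.l 51) (.a (.l 51) .z)) .z) (.a (.b (.b (.l 51)
.z) .z) .z)) .z) (.a .z (.c .z (.b (.a (.c .z (.b (.a .z (.l 6)) .z)) (.c (.b (.a .z (.l 6)) .z) (.l 6))) .z)))) (.a (.a (.b (.b .z (.c .z (.a (.b .z
(.l 20)) .z))) (.b (.c (.a (.b .z (.l 20)) .z) (.l 20)) (.l 20))) (.b .z (.a (.b .z (.c .z (.l 20))) .z))) (.a (.b .z (.a (.b .z (.a .z (.c (.l 17)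
.z))) (.b .z (.l 17)))) (.b .z (.b .z (.b (.a (.l 17) (.b .z (.l 17))) (.l 17)))))))))

theorem vQ101 : ev3 Q101 J3_0 J4_8 J5_23 = 109917269603582481269684 := by decide +kernel

noncomputable def Q179 : QT3 :=
(.a (.b (.a (.b (.c (.c (.c (.c (.a (.c .z (.l 19)) .z) (.l 19)) (.c (.l 19) (.b (.l 19) (.c (.l 19) .z)))) (.c (.c .z (.b .z (.c (.a .z (.l 12)) (.l
12)))) (.l 12))) (.a (.c (.c (.l 12) (.c (.l 12) (.a (.c (.l 12) .z) .z))) .z) (.b (.c (.c (.c (.l 12) (.a (.l 12) .z)) .z) .z) (.c (.a (.c (.l 12)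
.z) .z) .z)))) (.c (.c (.a (.c (.c .z (.l 19)) (.c (.b (.l 19) .z) .z)) .z) (.a (.b (.c (.c .z (.l 12)) (.l 12)) (.c (.l 12) (.a (.l 12) (.b (.l 12)
.z)))) (.b (.a (.c (.c .z (.l 12)) (.l 12)) (.c (.l 12) (.b (.l 12) .z))) (.a (.c (.b (.l 12) .z) .z) .z)))) (.a (.b (.c (.c (.l 12) (.c (.l 12) (.a
(.l 12) .z))) .z) (.c (.a (.b (.l 12) .z) .z) .z)) (.b (.c (.a (.b (.c (.l 12) .z) .z) .z) (.a .z (.b .z (.c .z (.l 13))))) (.c .z (.a (.b (.c .z (.l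
13)) (.c (.l 13) .z)) (.c (.c .z (.l 13)) .z))))))) (.b (.c (.c (.a (.c .z (.c (.l 19) .z)) (.b (.c .z (.c (.l 19) .z)) (.c (.c (.l 13) .z) .z))) (.a
(.b (.c (.c .z (.c .z (.l 12))) (.l 12)) (.a (.c (.c .z (.l 12)) (.l 12)) (.c (.c .z (.l 12)) (.b (.l 12) .z)))) (.b (.a (.c (.c .z (.l 12)) (.c (.l
12) .z)) (.c (.c .z (.l 12)) .z)) (.a (.c (.b (.l 12) .z) .z) .z)))) (.a (.b (.c (.a (.c (.c (.l 12) .z) .z) .z) .z) (.c .z (.a .z (.b .z (.c .z (.l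
13)))))) (.b .z (.c .z (.c .z (.c (.c .z (.l 13)) (.l 13))))))) (.c (.c (.a (.b (.c (.c (.c (.l 13) .z) .z) .z) .z) (.b .z (.c .z (.a .z (.l 18)))))
(.a (.b (.a (.c (.b (.l 12) .z) .z) .z) .z) (.b .z (.c (.c (.l 18) .z) .z)))) (.a (.b (.c .z (.c (.c .z (.c .z (.l 13))) (.b (.l 13) (.c (.l 13)
.z)))) (.c .z (.c (.b (.c .z (.l 13)) (.c (.l 13) .z)) .z))) (.c .z (.b (.c .z (.b (.c (.l 13) .z) .z)) .z)))))) (.a (.c (.b (.c .z (.a (.b (.c (.a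
(.b (.l 12) .z) .z) .z) .z) (.b .z (.c (.l 18) (.c (.l 18) .z))))) (.c .z (.a .z (.b (.c (.c .z (.l 18)) .z) (.c .z (.b .z (.c .z (.l 10)))))))) (.b
(.a (.b (.c .z (.a .z (.c (.b (.l 13) .z) .z))) (.c (.c .z (.b (.c (.l 13) .z) .z)) .z)) (.c .z (.b (.c (.b (.c (.l 13) .z) .z) .z) .z))) (.c (.b .z
(.c (.b (.c (.a .z (.l 10)) (.c (.l 10) .z)) (.c (.l 10) (.c (.l 10) .z))) .z)) .z))) (.c (.b (.c (.a (.b (.c .z (.a .z (.l 18))) (.c .z (.l 18))) (.b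
(.c (.a .z (.l 18)) (.l 18)) (.c (.c .z (.l 18)) (.l 18)))) (.b (.c (.l 18) (.c (.b .z (.l 18)) .z)) (.c (.l 18) (.b (.l 18) (.c (.l 18) .z))))) (.c
(.b (.c (.a .z (.c .z (.l 18))) (.a (.c .z (.l 18)) (.l 18))) (.c .z (.b (.a .z (.l 18)) .z))) (.b (.c (.b (.l 18) (.c (.l 18) .z)) .z) (.c .z (.b (.c
.z (.a .z (.l 10))) (.c (.c .z (.l 10)) (.l 10))))))) (.b .z (.c (.b (.c (.b .z (.c (.a .z (.l 10)) .z)) (.c (.a (.l 24) .z) .z)) (.c (.c (.l 10) .z)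
.z)) .z))))) (.b (.a (.b (.c (.c (.a (.b (.c (.c (.b .z (.l 13)) .z) .z) .z) (.b (.c (.a (.b (.l 13) .z) .z) .z) (.c .z (.a .z (.l 18))))) .z) (.a (.b
(.c .z (.c .z (.c .z (.c .z (.l 13))))) (.c .z (.c .z (.b (.c .z (.l 13)) .z)))) (.c .z (.b (.c .z (.c .z (.c .z (.l 13)))) .z)))) (.c (.c (.a (.b (.c
.z (.a .z (.l 18))) (.l 18)) (.l 18)) (.c (.b (.c (.l 18) .z) (.l 18)) (.b (.c .z (.b .z (.l 22))) .z))) .z)) (.b (.c (.c (.a (.b (.c .z (.a .z (.l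
18))) (.l 18)) (.l 18)) (.c (.c (.b .z (.c (.l 18) .z)) .z) .z)) (.c .z (.b (.c (.a .z (.c .z (.l 26))) .z) .z))) (.c (.c (.l 18) (.b (.c (.c (.l 18)
(.c (.l 18) .z)) .z) (.c (.l 18) .z))) .z))) (.c (.b (.c (.a (.l 18) (.b (.l 18) (.c (.l 18) (.a (.l 18) (.b (.l 18) .z))))) (.b (.a (.c (.l 18) (.b
(.c (.l 18) .z) (.a (.l 18) .z))) (.c (.a (.l 18) (.b (.l 18) .z)) .z)) (.a (.c (.b (.l 18) (.c (.l 18) .z)) .z) .z))) (.c (.b (.c (.a (.l 18) (.b (.l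
18) (.c (.l 18) .z))) (.a (.b (.l 18) (.c (.l 18) .z)) .z)) (.c (.a (.b (.l 18) (.c (.l 18) .z)) .z) .z)) (.b (.c .z (.a (.b (.c .z (.a .z (.l 10)))
(.c .z (.l 10))) (.c (.c .z (.b .z (.l 10))) (.c (.l 10) (.a (.l 10) .z))))) (.c .z (.c (.l 10) (.a (.l 10) (.c (.l 10) (.a (.l 10) .z)))))))) (.b (.c
(.b .z (.a .z (.c (.c .z (.a .z (.l 25))) (.c (.a .z (.l 25)) .z)))) .z) (.c (.c (.c (.a (.c (.a (.l 10) (.a (.l 10) .z)) .z) (.c .z (.a .z (.l 25))))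
(.a .z (.a (.b .z (.l 25)) (.l 25)))) (.a .z (.c (.l 25) (.a (.c (.l 25) .z) (.c (.l 25) .z))))) .z)))))

theorem vQ179 : ev3 Q179 J4_7 J4_9 J4_13 = 61038288308424241606648 := by decide +kernel

noncomputable def Q153 : QT3 :=
(.c (.a (.b (.c .z (.b (.a (.c (.c .z (.c .z (.l 11))) (.l 11)) (.c (.c .z (.c .z (.l 11))) (.b (.l 11) (.a (.l 11) (.c (.l 11) (.b (.l 11) (.a (.l
11) .z))))))) (.a (.c (.c (.b .z (.l 101)) (.c .z (.l 11))) (.b (.l 11) (.a (.l 11) (.c (.l 11) (.b (.l 11) (.a (.l 11) .z)))))) (.c (.b (.c .z (.c .z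
(.l 11))) (.a (.c .z (.c .z (.l 11))) .z)) (.b (.a (.c (.l 11) (.b (.l 11) (.a (.l 11) .z))) (.c (.b (.l 11) (.a (.l 11) .z)) .z)) (.a (.c (.b (.l 11)
(.a (.l 11) .z)) .z) .z)))))) (.c .z (.a (.b (.c (.b (.c (.l 101) (.c .z (.l 11))) (.a (.c .z (.c .z (.l 11))) .z)) (.b (.a (.c (.l 11) (.b (.l 11)
(.a (.l 11) .z))) (.c (.b (.a (.l 11) .z) .z) .z)) (.a (.c (.b (.a (.l 11) .z) .z) .z) .z))) (.c .z (.a .z (.b .z (.l 29))))) (.b (.c .z (.a .z (.b .z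
(.b .z (.l 29))))) (.c .z (.b (.a (.b .z (.l 29)) (.l 29)) (.l 29))))))) (.b (.c .z (.a (.b (.c (.b (.c .z (.c .z (.l 11))) (.a (.c .z (.c .z (.l
11))) .z)) (.b (.a (.c (.l 11) (.b (.l 11) (.a (.l 11) .z))) (.c (.b (.l 11) (.a (.l 11) .z)) .z)) (.a (.c (.b (.l 11) (.a (.l 11) .z)) .z) .z))) .z)
(.b .z (.c .z (.b .z (.l 29)))))) (.c .z (.a (.b (.c .z (.b (.a .z (.l 29)) (.l 29))) (.c (.c .z (.c .z (.l 29))) (.l 29))) (.c (.b (.c .z (.c .z (.l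
29))) (.c .z (.c .z (.l 29)))) (.l 29)))))) (.a (.b (.c (.b (.a (.c (.b (.l 11) (.a (.l 11) (.c (.l 11) (.b (.l 11) (.a (.l 11) .z))))) (.b (.a (.l
11) (.c (.l 11) (.b (.a (.l 11) .z) .z))) (.a (.c (.l 11) (.b (.a (.l 11) .z) .z)) (.c (.b (.a (.l 11) .z) .z) .z)))) (.c (.b (.a (.c (.l 11) (.b (.l
11) (.a (.l 11) .z))) (.c (.b (.l 11) (.a (.l 11) .z)) .z)) (.a (.c (.b (.l 11) (.a (.l 11) .z)) .z) .z)) (.b (.a (.c (.b (.a (.l 11) .z) .z) .z) .z)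
.z))) (.a (.c (.b (.a (.c (.l 11) (.b (.l 11) (.a (.l 11) .z))) (.c (.b (.l 11) (.a (.l 11) .z)) .z)) (.a (.c (.b (.l 11) (.a (.l 11) .z)) .z) .z))
(.b (.a (.c (.b (.a (.l 11) .z) .z) .z) .z) .z)) .z)) (.b (.a (.c (.b (.a (.c (.b (.a (.l 11) .z) .z) .z) .z) .z) .z) .z) (.a (.c .z (.c (.b .z (.c .z
(.b .z (.l 14)))) (.b (.c .z (.b .z (.l 14))) (.l 14)))) (.c .z (.c (.b .z (.c .z (.b .z (.l 14)))) (.b (.c .z (.l 14)) (.l 14))))))) (.c (.a (.b .z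
(.c (.b .z (.a .z (.l 29))) (.c .z (.b .z (.c (.b .z (.l 14)) (.l 14)))))) (.c (.b .z (.b (.a (.b .z (.l 29)) (.l 29)) (.l 29))) (.b .z (.c (.b (.a .z
(.l 29)) .z) (.b .z (.c (.b .z (.l 14)) (.l 14))))))) (.c (.b (.c (.b .z (.c .z (.b .z (.c .z (.l 14))))) (.b (.c .z (.b .z (.l 14))) (.c (.b (.c .z
(.l 14)) (.l 14)) (.l 14)))) (.c (.b (.c (.b (.c .z (.l 14)) (.l 14)) (.l 14)) (.l 14)) (.l 14))) (.l 14)))) (.b (.c .z (.c .z (.b .z (.c (.b .z (.c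
(.b .z (.c .z (.l 14))) (.a (.l 14) (.a (.l 14) .z)))) (.b (.c (.b .z (.a (.l 14) .z)) .z) (.a (.c (.l 14) .z) .z)))))) (.c (.c (.b (.a (.b (.a .z (.b
.z (.l 29))) (.l 29)) (.b (.c (.c (.l 29) .z) .z) (.c (.l 29) (.b .z (.l 29))))) (.l 29)) (.b (.c (.a (.b .z (.b .z (.l 29))) .z) .z) (.c (.b (.l 29)
(.c (.b (.l 29) .z) .z)) (.b (.c .z (.b .z (.c .z (.l 14)))) (.c (.b (.c .z (.l 14)) (.l 14)) (.l 14)))))) (.c (.b (.c (.b .z (.c .z (.b .z (.l 14))))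
(.b (.c .z (.b (.c .z (.l 14)) (.l 14))) (.l 14))) (.c (.b (.c (.b (.c .z (.l 14)) (.l 14)) (.l 14)) (.l 14)) (.l 14))) (.c (.a (.l 14) (.c (.l 14)
(.a (.l 14) (.a (.l 14) (.c (.l 14) .z))))) (.a (.c (.l 14) (.a (.l 14) (.b .z (.a (.l 14) .z)))) (.c (.a (.c (.l 14) .z) .z) .z))))))))

theorem vQ153 : ev3 Q153 J4_6 J4_9 J3_5 = 129695233601481060819784 := by decide +kernel

noncomputable def Q28 : QT3 :=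
(.a (.b (.c (.a (.c (.b (.c (.a .z (.b (.c (.a .z (.l 24)) (.l 24)) .z)) (.a (.b (.l 24) (.c .z (.b (.l 24) .z))) (.b (.c (.l 24) (.a (.l 24) .z))
.z))) (.c .z (.b .z (.a .z (.a .z (.c .z (.l 14))))))) (.b (.c (.a (.b (.c (.l 24) .z) .z) .z) .z) (.c (.b (.a .z (.b .z (.b .z (.l 14)))) (.a (.a .z
(.c .z (.l 14))) (.l 14))) (.b (.b .z (.b .z (.l 14))) (.l 14))))) (.c (.b (.a (.c (.b (.a (.c (.l 24) .z) .z) .z) .z) .z) (.a (.c (.b .z (.a (.c .z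
(.l 14)) (.l 14))) (.b (.b .z (.b .z (.l 14))) (.l 14))) (.b (.b .z (.b .z (.l 14))) (.l 14)))) (.b .z (.b (.b (.l 150) (.b .z (.l 14))) (.l 14)))))
(.a (.b (.c (.c .z (.c (.b (.l 46) (.c .z (.l 46))) (.b (.c (.l 46) .z) .z))) .z) (.c (.b (.b .z (.b .z (.l 14))) (.l 14)) (.c (.b (.b .z (.b .z (.l
14))) (.a (.c (.b (.l 14) .z) .z) (.c (.l 14) (.b (.l 14) .z)))) .z))) (.b (.c (.c .z (.c (.b (.l 46) .z) .z)) (.c (.c (.b .z (.l 66)) .z) .z)) (.b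
(.b (.c .z (.c (.l 66) .z)) (.b .z (.l 14))) (.c (.l 14) (.c (.l 14) (.a (.c (.l 14) .z) (.l 14)))))))) (.c (.a (.b (.c (.c .z (.a .z (.a .z (.c .z
(.b (.l 14) .z))))) (.a (.c .z (.b (.a (.c .z (.l 14)) (.l 14)) (.a .z (.c .z (.l 14))))) (.c (.a (.b (.c .z (.l 14)) .z) (.l 14)) (.l 14)))) (.c .z
(.a .z (.c (.a .z (.b (.c .z (.l 14)) .z)) (.a (.b (.c .z (.l 14)) .z) (.b (.l 14) .z)))))) (.c (.a (.c (.a .z (.b (.c .z (.l 14)) .z)) (.b (.a (.c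
(.b (.l 14) .z) (.l 14)) (.l 14)) (.a .z (.c (.a .z (.l 14)) (.l 14))))) (.c (.a (.b (.l 14) (.c (.a .z (.l 14)) (.l 14))) (.l 14)) (.l 14))) (.a (.b
(.l 14) (.c (.a (.b (.l 14) (.c .z (.l 14))) (.l 14)) (.l 14))) (.l 14)))) (.c (.a (.b (.c (.b (.l 14) (.a (.c (.b (.l 14) .z) .z) (.l 14))) (.b (.a
(.c (.b (.l 14) .z) .z) (.c (.l 14) (.b (.l 14) .z))) (.a .z (.c (.a .z (.l 14)) .z)))) (.a .z (.c (.b (.c (.a .z (.l 14)) .z) .z) .z))) (.b (.l 14)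
(.a (.c (.b (.l 14) (.a .z (.c (.l 14) .z))) (.b (.a .z (.c (.l 14) .z)) .z)) (.c (.l 14) (.b (.l 14) (.a (.c (.l 14) .z) (.l 14))))))) (.a .z (.b (.a
(.c (.b (.c (.l 14) (.a .z (.l 14))) .z) .z) (.c (.l 14) (.b (.a (.c (.l 14) .z) (.l 14)) (.a .z (.c (.l 14) .z))))) (.a .z (.c (.b (.a .z (.c (.l 14)
.z)) .z) .z))))))) (.b (.c (.a (.c (.b .z (.b (.b .z (.b .z (.l 14))) (.l 14))) (.b .z (.b (.b .z (.b .z (.l 14))) (.l 14)))) (.b .z (.b (.b .z (.b .z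
(.l 14))) (.l 14)))) (.b (.a (.a (.c .z (.c (.l 66) .z)) (.a .z (.c .z (.c .z (.c .z (.l 37)))))) (.a (.a (.c .z (.a (.c .z (.l 37)) .z)) .z) .z)) (.b
(.b .z (.b .z (.l 14))) (.l 14)))) (.c (.a (.l 14) (.c (.a (.l 14) (.c (.a (.l 14) (.b (.l 14) (.c (.a (.l 14) .z) (.l 14)))) (.l 14))) (.l 14))) (.a
(.c (.l 14) (.a (.b (.l 14) (.c (.a (.b (.l 14) (.c (.l 14) .z)) (.l 14)) (.a (.b (.c (.l 14) .z) .z) (.b (.l 14) (.c (.l 14) .z))))) (.l 14))) (.l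
14)))))

theorem vQ28 : ev3 Q28 J3_1 J4_5 J4_10 = 251540062226315623090288 := by decide +kernel

noncomputable def Q0 : QT3 :=
(.c .z (.a (.b .z (.c .z (.c (.b .z (.c (.b (.c .z (.a .z (.b .z (.a (.a .z (.a .z (.b (.l 64) .z))) .z)))) .z) (.b (.c (.a .z (.b .z (.a .z (.c .z
(.a .z (.b .z (.l 60))))))) (.a (.b (.c (.a (.b .z (.l 120)) .z) .z) .z) (.b .z (.a (.c .z (.b (.c .z (.l 60)) (.a .z (.l 60)))) (.c (.a (.b .z (.l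
60)) .z) (.a (.l 60) .z)))))) .z))) (.b .z (.c (.b (.c (.a (.b (.c .z (.b .z (.a .z (.a .z (.l 60))))) (.b (.a .z (.a .z (.a .z (.l 60)))) .z)) (.b
(.a (.c (.b .z (.l 60)) (.b .z (.l 60))) .z) (.a (.b (.l 60) (.b (.l 60) (.a .z (.l 60)))) (.a (.b (.a (.l 60) .z) (.a (.l 60) .z)) .z)))) (.a .z (.a
(.b .z (.b (.c (.a (.l 60) .z) .z) (.a (.c (.l 60) .z) .z))) .z))) (.a (.b (.b .z (.c (.b (.a .z (.a .z (.l 60))) .z) .z)) .z) .z)) (.a .z (.b (.a .z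
(.a (.b (.b (.c (.l 118) .z) .z) .z) .z)) .z))))))) (.b .z (.c .z (.a (.b (.c .z (.a (.b .z (.c (.c .z (.b .z (.a (.b (.c .z (.l 54)) .z) .z))) .z))
.z)) .z) .z)))))

theorem vQ0 : ev3 Q0 J2_0 J2_0 J1_0 = 28605342371130303400088 := by decide +kernel

noncomputable def Q5 : QT3 :=
(.c .z (.a (.b (.c .z (.c (.b (.c (.a .z (.c .z (.b (.a (.b (.l 89) .z) .z) .z))) (.b (.c (.a .z (.a .z (.a .z (.l 83)))) .z) (.c (.a .z (.a .z (.a .z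
(.l 83)))) (.b (.a .z (.a .z (.l 83))) (.a .z (.a .z (.l 83))))))) .z) (.a (.b (.c .z (.a (.b .z (.c .z (.a (.l 81) .z))) (.b (.c (.c .z (.l 75)) (.a
.z (.l 75))) .z))) .z) (.a (.b (.b (.c .z (.c .z (.l 75))) .z) .z) (.b (.b (.c .z (.c .z (.l 75))) (.c (.b (.c (.l 83) .z) (.c (.l 83) .z)) .z)) (.b
(.b (.c (.c (.l 83) .z) .z) .z) (.b .z (.c .z (.c .z (.l 36)))))))))) (.c .z (.a (.b (.c .z (.c .z (.b (.a .z (.c .z (.l 74))) .z))) .z) .z))) (.b (.c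
.z (.c .z (.b (.a (.b (.c .z (.b (.c .z (.l 75)) .z)) .z) .z) .z))) .z)))

theorem vQ5 : ev3 Q5 J3_1 J3_3 J2_1 = 19076300298615877543520 := by decide +kernel

end Pool.Agent.Helper64.SPW.Dat3
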