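import Pool.Agent.Helper64.SPW.Iv3

/-! Boxes of three traces, part 8 (data and kernel evaluation). -/

set_option maxRecDepth 1000000
set_option maxHeartbeats 0

namespace Pool.Agent.Helper64.SPW.Dat3

noncomputable def Q18 : QT3 :=
(.b .z (.c (.a (.b (.c (.a (.b (.c .z (.a (.b .z (.c .z (.c .z (.b .z (.l 35))))) (.b .z (.c .z (.a (.b .z (.c (.l 35) .z)) .z))))) (.c .z (.c (.b (.a
.z (.c .z (.c .z (.l 35)))) (.a (.c .z (.c (.c .z (.l 35)) (.l 35))) (.c .z (.c .z (.c .z (.l 35)))))) (.b (.a (.c (.b (.a .z (.l 35)) (.l 35)) (.c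
(.l 35) (.a (.l 35) .z))) (.c (.l 35) .z)) (.c (.a (.l 35) (.c (.a (.l 35) .z) .z)) (.a (.c (.a (.l 35) .z) .z) .z)))))) .z) (.a (.b .z (.c (.c .z (.c
(.c .z (.c (.b .z (.b .z (.a (.b .z (.l 10)) .z))) .z)) (.c (.b .z (.c .z (.b .z (.l 36)))) .z))) .z)) .z)) (.c (.b (.c .z (.c (.a (.a (.c .z (.c (.a
(.l 35) (.c .z (.l 35))) (.l 35))) (.c .z (.b (.a (.c .z (.l 35)) .z) .z))) .z) (.a (.c (.a (.b (.c (.l 35) (.a (.l 35) .z)) (.c (.a (.l 35) .z) (.a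
(.l 35) .z))) .z) .z) .z))) (.c (.c (.a .z (.c .z (.b .z (.b (.c (.b .z (.l 36)) (.l 36)) (.b (.b (.l 36) .z) (.b .z (.l 39))))))) (.a .z (.c (.b (.a
.z (.c (.b .z (.l 36)) .z)) (.a (.c (.b (.l 36) .z) .z) (.b (.b (.l 36) .z) (.b .z (.l 39))))) .z))) (.c (.a (.c (.a (.a (.c .z (.b .z (.l 35))) .z)
.z) (.a (.b (.a (.l 35) (.c (.l 35) .z)) .z) .z)) .z) .z))) (.c (.c (.a (.b .z (.c .z (.a (.c .z (.b (.c .z (.a (.b .z (.l 10)) .z)) (.a (.c (.b .z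
(.l 10)) (.l 10)) (.c .z (.b .z (.l 10)))))) .z))) (.b .z (.b .z (.c .z (.b .z (.a .z (.c .z (.a .z (.l 23))))))))) (.a (.c (.b (.c (.a (.b .z (.c .z
(.l 10))) .z) (.a (.b (.c (.l 10) (.b .z (.a (.l 10) .z))) (.l 10)) (.c (.b (.a (.b .z (.l 10)) .z) (.l 10)) (.b .z (.a (.b .z (.l 10)) .z))))) (.a
(.c (.b (.c (.a (.l 10) (.b .z (.l 10))) (.l 10)) (.l 10)) (.l 10)) (.c (.a (.c (.b .z (.a (.l 10) .z)) (.l 10)) (.c .z (.b .z (.a (.l 10) .z)))) (.a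
(.l 10) (.c (.l 10) (.b (.a (.l 10) .z) (.l 10))))))) (.b (.c (.a (.b .z (.c (.a (.b .z (.l 10)) .z) .z)) (.c .z (.b (.l 36) .z))) (.a .z (.l 36)))
(.a (.c (.b (.c (.l 10) (.a (.b .z (.l 10)) .z)) (.l 10)) (.b .z (.a (.c (.l 10) .z) .z))) (.c (.a (.b .z (.c (.l 10) .z)) .z) (.a .z (.c .z (.l
36))))))) (.c (.a (.c .z (.a (.c (.b .z (.a (.l 10) .z)) .z) .z)) (.c (.b .z (.b .z (.b .z (.l 23)))) (.b .z (.a (.c (.b .z (.l 23)) .z) (.b .z (.b .z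
(.l 23))))))) (.a (.c (.a (.c .z (.b .z (.l 36))) .z) (.a (.b .z (.a (.l 36) .z)) .z)) .z)))) (.b (.a (.c (.c (.b .z (.a .z (.c (.a .z (.l 36)) .z)))
.z) .z) (.c (.c (.a (.a .z (.l 59)) (.a (.b (.l 59) .z) .z)) .z) (.c .z (.b .z (.c .z (.b .z (.c .z (.b .z (.l 15))))))))) (.a (.c (.c (.a .z (.c (.l
36) (.a .z (.b .z (.l 36))))) (.b (.a (.c .z (.l 38)) (.c .z (.a (.l 38) .z))) (.c (.a (.a (.l 38) .z) .z) (.b (.a (.l 38) .z) .z)))) (.c (.b (.c (.b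
.z (.a .z (.l 38))) .z) (.c .z (.b (.c .z (.b .z (.l 15))) (.l 15)))) (.b (.c (.b .z (.c (.b .z (.l 15)) (.l 15))) (.l 15)) (.l 15)))) (.c (.a (.a (.a
(.b .z (.c (.l 36) .z)) .z) (.a (.a .z (.l 59)) (.l 59))) (.a (.c .z (.a (.l 59) .z)) .z)) (.a (.c (.b .z (.c .z (.b .z (.c .z (.l 15))))) (.b (.c (.b
.z (.c .z (.l 15))) (.l 15)) (.l 15))) (.b (.c .z (.a (.c .z (.b .z (.l 15))) .z)) .z)))))))) (.b .z (.c (.a (.b .z (.c (.c (.c .z (.b .z (.b .z (.b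
.z (.b .z (.l 39)))))) (.c (.b (.a (.a (.a (.l 36) .z) .z) .z) (.b .z (.b .z (.l 39)))) (.a (.b .z (.b .z (.c (.l 39) .z))) (.b .z (.b .z (.l 39))))))
(.c (.b .z (.a .z (.c (.a .z (.l 39)) .z))) .z))) (.b .z (.c (.a (.b .z (.c (.c .z (.b .z (.b .z (.l 39)))) (.b (.c .z (.b .z (.l 39))) (.l 39)))) (.b
.z (.c (.a (.b .z (.c .z (.l 39))) .z) (.a (.b .z (.l 39)) .z)))) (.a (.b .z (.c (.c (.l 39) (.a .z (.c (.l 39) .z))) .z)) (.b .z (.c (.a (.b .z (.l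
39)) .z) .z)))))) (.a (.b .z (.c (.c .z (.a (.c (.b .z (.b .z (.a (.b .z (.l 23)) .z))) (.c (.a (.b .z (.b .z (.l 23))) .z) .z)) .z)) .z)) .z)))) (.a
(.b (.c (.a (.b (.c (.a (.b (.c .z (.a (.b .z (.c (.c .z (.l 16)) .z)) .z)) .z) .z) (.a (.b .z (.c (.c (.c (.c (.b .z (.l 19)) .z) .z) .z) .z)) .z))
(.c (.c .z (.b (.a (.c .z (.c .z (.c .z (.l 19)))) .z) (.c .z (.a (.c .z (.a (.l 19) .z)) .z)))) (.c (.c (.a (.c (.c (.l 19) (.b .z (.l 19))) .z) (.b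
(.c (.c (.l 19) .z) .z) .z)) .z) (.c (.b (.c .z (.a (.b .z (.c .z (.l 26))) .z)) (.c .z (.c .z (.a (.a (.l 26) .z) .z)))) (.c .z (.a (.b (.l 59) .z)
(.a (.l 59) .z))))))) (.b .z (.c (.a .z (.b .z (.c .z (.a (.b .z (.c .z (.c .z (.l 17)))) .z)))) .z))) (.a (.b (.c (.a (.b .z (.c (.c (.c (.l 59) .z)
.z) (.c (.c (.c .z (.l 41)) .z) .z))) .z) .z) (.c (.c (.c (.a (.c (.l 59) .z) (.c (.a (.l 59) .z) .z)) .z) (.a (.c (.c (.c .z (.l 41)) .z) .z) .z))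
.z)) .z)) (.c (.b (.c (.a (.c (.b .z (.a (.c (.b .z (.a .z (.c (.l 15) .z))) .z) (.c (.b (.a .z (.c .z (.l 15))) (.l 15)) (.b .z (.a .z (.l 15))))))
(.b (.c .z (.a .z (.c (.b .z (.c .z (.l 17))) (.a (.b .z (.l 17)) (.l 17))))) (.a (.c (.b .z (.a (.c .z (.l 17)) .z)) (.c (.a (.c (.l 17) .z) (.l 17))
(.a .z (.b .z (.l 17))))) (.c .z (.b (.c (.c .z (.l 17)) (.l 17)) (.a (.l 17) .z)))))) (.c (.b (.a (.c (.b .z (.c .z (.l 15))) (.b .z (.a .z (.c (.l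
15) .z)))) (.c (.c (.c .z (.b .z (.l 15))) (.l 15)) (.b (.a (.c (.l 15) .z) (.l 15)) (.a (.l 15) (.c (.l 15) .z))))) (.a (.c (.c (.b (.c .z (.l 15))
(.l 15)) (.l 15)) (.b (.a (.c (.l 15) .z) (.l 15)) (.l 15))) (.c (.a (.l 15) (.b (.l 15) (.c (.l 15) .z))) (.a (.b (.l 15) (.c (.l 15) .z)) .z)))) (.b
(.a (.c .z (.b (.c .z (.l 17)) (.a (.c .z (.l 17)) .z))) (.c (.b (.a .z (.c (.l 15) .z)) (.a (.c (.l 15) .z) .z)) .z)) (.a (.c (.b (.a .z (.c (.l 15)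
.z)) (.a (.c (.l 15) .z) .z)) .z) .z)))) (.a (.c (.a (.c (.b (.c (.a (.l 19) .z) (.c (.a (.l 19) .z) .z)) (.a (.c .z (.c (.l 19) .z)) .z)) .z) (.c (.b
.z (.a (.c (.b .z (.l 17)) .z) (.c (.c (.l 17) .z) .z))) .z)) (.a (.c (.c .z (.b (.c .z (.a (.l 26) .z)) .z)) .z) .z)) .z)) (.a (.c (.c (.b (.a (.c
(.b (.a (.c (.l 15) .z) (.l 15)) (.l 15)) (.b (.a .z (.c (.l 15) .z)) (.a (.c (.l 15) .z) (.l 15)))) (.l 15)) (.a (.l 15) (.c (.l 15) (.a (.l 15) (.c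
(.l 15) (.b (.l 15) .z)))))) (.b (.a (.c (.b (.a (.c .z (.l 17)) .z) .z) (.b (.a (.c (.l 17) .z) (.c .z (.l 17))) (.a (.b (.l 17) .z) .z))) (.b (.c
(.a .z (.c (.l 15) .z)) .z) (.c (.a (.l 15) .z) .z))) (.a (.b (.c (.a (.c (.l 15) .z) (.l 15)) .z) (.c (.a (.l 15) (.c (.l 15) .z)) .z)) (.c (.a (.c
(.b (.l 15) .z) .z) .z) .z)))) (.b .z (.a (.c (.b .z (.a .z (.c (.b .z (.l 18)) .z))) .z) (.c (.b .z (.a (.c (.l 18) .z) (.c (.c .z (.l 18)) .z))) (.b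
.z (.a .z (.c (.b .z (.l 25)) .z))))))) (.c (.b (.c (.a (.c (.l 15) (.a (.c (.l 15) (.b (.l 15) .z)) (.b (.c (.l 15) .z) .z))) (.c (.a (.b (.c (.l 15)
.z) .z) .z) .z)) .z) (.c (.a (.c (.a (.c (.l 15) (.b (.l 15) .z)) (.b (.c (.l 15) .z) .z)) .z) .z) .z)) (.b .z (.a (.c (.c (.c .z (.a (.b .z (.l 18))
.z)) .z) .z) .z))))) (.b (.a (.b .z (.a (.c (.c (.c .z (.a .z (.c .z (.l 35)))) .z) .z) .z)) .z) (.a (.b (.a (.c (.c (.c .z (.a .z (.c .z (.l 35))))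
.z) .z) .z) (.a (.c (.c (.a (.c .z (.l 35)) .z) .z) .z) .z)) .z)))) (.b .z (.c (.a (.b (.c (.a (.b (.c (.a (.b .z (.c (.l 15) .z)) .z) .z) (.c (.c (.a
(.b (.c (.l 15) .z) .z) .z) .z) .z)) .z) .z) .z) .z) .z)))))

theorem vQ18 : ev3 Q18 J3_1 J2_0 J2_3 = 132686486425006854271812 := by decide +kernel

noncomputable def Q96 : QT3 :=
(.a (.b (.c (.a (.b (.c (.a (.b .z (.c .z (.c .z (.a (.b .z (.c .z (.l 24))) (.b (.c .z (.l 24)) (.l 24)))))) (.b .z (.c .z (.a (.b .z (.c (.c .z (.l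
24)) (.l 24))) .z)))) (.a (.b .z (.c (.b (.c (.b .z (.l 24)) .z) (.c (.l 24) (.c (.l 24) (.b (.l 24) .z)))) (.c .z (.b (.c .z (.l 29)) (.l 29))))) (.b
.z (.c (.a (.b .z (.l 24)) .z) (.a (.b .z (.c .z (.l 29))) .z))))) (.c (.c (.c (.b (.a .z (.c .z (.a .z (.b .z (.l 24))))) (.a .z (.c .z (.b (.a (.l
24) .z) .z)))) (.b (.a .z (.a (.b .z (.l 24)) (.l 24))) (.a (.a (.b .z (.c .z (.l 24))) (.b (.c .z (.l 24)) (.l 24))) (.c (.b (.l 24) (.a (.l 24) .z))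
(.l 24))))) (.a (.b (.c (.a (.b .z (.c .z (.l 24))) (.b (.c .z (.l 24)) (.l 24))) (.l 24)) (.c (.l 24) (.a (.b (.c (.l 24) .z) .z) (.b (.l 24) (.c (.l
24) .z))))) (.a (.l 24) (.a (.l 24) (.b (.l 24) (.c (.l 24) (.a (.l 24) .z))))))) (.c (.c (.a (.b (.b (.l 24) (.a .z (.l 24))) .z) (.a (.b (.l 24) (.a
(.c (.l 24) .z) (.l 24))) (.a (.l 24) (.b (.b (.l 24) .z) .z)))) (.c (.a (.b (.b (.a .z (.l 24)) .z) .z) (.a (.b (.l 24) (.a .z (.l 24))) (.a (.a (.l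
24) .z) .z))) (.a .z (.a .z (.a (.a (.l 24) .z) .z))))) (.c (.c (.a (.c .z (.b .z (.a (.b .z (.l 7)) .z))) .z) (.a (.c .z (.l 29)) (.c (.a (.l 29) .z)
(.a (.l 29) .z)))) (.a (.l 29) (.a (.l 29) (.a (.l 29) (.c .z (.l 29))))))))) (.b .z (.c (.a (.b (.c (.a (.b .z (.c .z (.l 24))) .z) (.a (.b .z (.c
(.l 24) (.a (.l 24) .z))) .z)) (.c (.c .z (.c .z (.b (.a (.l 24) .z) .z))) (.c (.b (.a (.a (.l 24) .z) .z) .z) .z))) .z) .z))) (.a (.b (.c (.a (.b (.c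
(.a (.b .z (.l 29)) .z) (.a (.b .z (.l 29)) .z)) (.c (.l 29) (.c (.l 29) (.c (.l 29) .z)))) (.b .z (.c (.a (.b .z (.l 29)) .z) (.a (.b .z (.c (.l 29)
.z)) .z)))) (.a .z (.b .z (.c (.a (.b .z (.c (.c (.l 24) .z) .z)) .z) .z)))) (.c (.c (.c (.l 29) (.a (.l 29) (.b (.l 29) (.c (.a (.l 29) .z) .z))))
(.c (.a (.b (.c (.l 29) (.a (.l 29) .z)) (.c (.a (.l 29) .z) .z)) (.b (.c (.a (.l 29) .z) .z) .z)) (.a (.b .z (.c .z (.a (.b .z (.l 24)) (.b (.l 24)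
.z)))) (.b (.c (.a .z (.b .z (.l 24))) (.a (.b .z (.l 24)) (.l 24))) (.b (.c (.l 24) .z) .z))))) (.c (.c (.a (.b (.c (.a .z (.l 24)) (.c (.a .z (.l
24)) .z)) (.b (.c (.a (.l 24) .z) .z) .z)) (.b (.b (.a (.l 24) (.c (.l 24) .z)) (.c (.a (.l 24) .z) .z)) .z)) .z) .z))) (.b .z (.c (.a (.b (.c (.a (.b
.z (.c (.l 29) .z)) .z) (.a (.b .z (.c .z (.c (.l 24) .z))) .z)) (.c .z (.c (.c (.a (.b .z (.l 24)) (.b (.l 24) .z)) (.b (.a (.l 24) .z) .z)) .z)))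
.z) .z)))) (.c (.b (.a (.c (.c (.c .z (.b (.a (.b (.l 24) (.c .z (.a .z (.l 24)))) (.b (.c .z (.a (.l 24) .z)) .z)) .z)) (.b (.c (.a (.a .z (.a (.b
(.l 24) .z) (.l 24))) (.b (.l 24) (.c (.a (.l 24) .z) (.a (.l 24) .z)))) (.a (.a .z (.a .z (.c (.l 24) .z))) (.a (.l 24) (.a (.l 24) .z)))) (.c (.a
(.b (.a .z (.a .z (.l 24))) .z) (.b (.c .z (.a (.l 24) .z)) .z)) (.a .z (.b (.a (.a .z (.l 24)) (.a (.l 24) .z)) (.c (.a (.l 24) .z) .z)))))) (.c (.c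
(.a .z (.a (.a .z (.a (.c (.l 24) .z) (.l 24))) (.a (.a (.l 24) .z) .z))) (.a (.c .z (.a (.b .z (.c .z (.a (.l 7) .z))) .z)) (.c (.a .z (.a (.a (.l
24) .z) .z)) .z))) (.c (.a (.c (.a (.c (.b (.b .z (.l 7)) (.l 7)) (.l 7)) (.c (.b .z (.a (.l 7) .z)) (.b (.a (.l 7) .z) (.l 7)))) (.c .z (.b (.l 29)
.z))) (.c .z (.a (.c .z (.l 29)) .z))) (.a (.l 29) (.b (.a (.l 29) (.a (.l 29) .z)) (.c (.a (.l 29) .z) (.a (.l 29) .z))))))) .z) (.a (.c (.c (.b (.c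
(.a .z (.a .z (.l 69))) .z) (.a (.a (.a (.l 29) (.c .z (.l 29))) .z) (.a (.a (.l 71) .z) (.a .z (.l 69))))) (.b .z (.c (.a (.a (.l 29) (.a (.l 29)
.z)) .z) (.a (.b .z (.c (.l 29) .z)) .z)))) (.b (.c (.c .z (.a (.c .z (.a (.c (.a (.l 7) .z) (.l 7)) .z)) .z)) (.c (.a (.c (.l 7) (.c (.a (.a (.l 7)
.z) .z) .z)) .z) (.a (.a (.l 29) (.c (.l 29) .z)) .z))) (.a (.c (.c .z (.a (.c (.c .z (.a (.l 7) .z)) (.l 7)) (.c .z (.a (.c .z (.l 7)) .z)))) (.c (.c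
(.l 7) (.c (.a (.l 7) .z) .z)) .z)) .z))) .z)) (.b (.a (.b (.c (.c (.c (.a (.l 29) (.c (.a (.l 29) .z) (.a (.l 29) .z))) (.a (.c (.l 29) (.a (.l 29)
.z)) .z)) .z) (.c .z (.c (.c .z (.a (.a (.l 27) .z) .z)) .z))) (.c (.c (.c (.a (.c (.l 29) (.a (.l 29) .z)) .z) .z) (.a (.c .z (.b .z (.b .z (.c .z
(.l 21))))) (.c .z (.b .z (.b .z (.c .z (.l 21))))))) (.a (.c (.c (.b (.b .z (.c .z (.l 21))) (.l 21)) (.c (.b (.b .z (.l 21)) (.l 21)) (.c (.a .z (.l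
21)) .z))) (.c (.c .z (.a (.l 27) .z)) (.a .z (.a (.l 27) .z)))) (.b (.a (.c (.c .z (.b .z (.l 21))) .z) (.c (.c .z (.b .z (.l 21))) .z)) (.a (.c (.l
21) .z) (.c (.b (.a (.l 21) .z) .z) .z)))))) .z) (.a (.b (.c (.a (.c (.c (.a (.c (.l 29) .z) .z) (.a .z (.c .z (.b .z (.l 21))))) (.b (.c (.b (.c .z
(.l 21)) (.a .z (.l 21))) (.l 21)) (.a (.c .z (.l 21)) (.l 21)))) (.c (.b .z (.a (.c .z (.b .z (.l 21))) .z)) (.b (.a (.c .z (.l 21)) .z) (.a (.b (.c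
(.l 21) .z) .z) .z)))) (.a (.b (.a (.c (.l 21) .z) (.c (.l 21) .z)) (.a (.c (.l 21) .z) (.c (.b (.a (.l 21) .z) .z) .z))) (.b (.a (.c (.b (.a (.l 21)
.z) .z) .z) .z) .z))) (.c (.a (.c (.b (.c .z (.a .z (.a .z (.l 21)))) (.a (.c .z (.a (.l 25) .z)) .z)) (.b (.a (.c .z (.a .z (.l 21))) (.b (.c (.l 21)
.z) .z)) .z)) .z) (.a (.b (.a (.c (.b (.a (.l 21) .z) .z) .z) .z) .z) .z))) (.b (.a .z (.c .z (.c (.c (.c (.a .z (.l 51)) (.c (.l 51) .z)) .z) .z)))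
(.a (.c (.c .z (.c (.a (.a .z (.l 47)) (.l 47)) .z)) (.c (.c (.c .z (.a .z (.l 51))) .z) .z)) (.c .z (.c (.c (.l 51) .z) (.c .z (.l 65)))))))))) (.b
.z (.c .z (.a (.b .z (.c .z (.c (.c (.c (.a (.a (.b .z (.l 51)) .z) .z) (.a (.c (.a (.l 51) .z) .z) .z)) .z) (.b .z (.c (.b .z (.a (.l 65) .z)) (.a
(.l 65) (.a (.l 65) .z))))))) .z))))

theorem vQ96 : ev3 Q96 J3_3 J3_3 J3_6 = 131971193942605401048880 := by decide +kernel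

noncomputable def Q66 : QT3 :=
(.c (.a (.c (.c (.b (.a (.l 20) (.a (.c (.b (.l 20) (.c .z (.a (.l 20) .z))) (.l 20)) (.c .z (.b (.a (.l 20) (.c .z (.l 20))) (.a (.c .z (.l 20))
.z))))) (.a (.c (.b (.c (.a (.l 20) .z) (.l 20)) (.c .z (.a (.b (.l 20) .z) .z))) (.b (.l 20) (.c (.a (.l 20) (.b (.l 20) .z)) (.l 20)))) (.a (.c .z
(.b (.a (.l 20) .z) .z)) (.c (.b .z (.b .z (.l 41))) (.b .z (.a .z (.l 41))))))) (.b (.a (.l 20) (.a (.l 20) (.b (.l 20) (.c (.a (.l 20) (.b (.l 20)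
.z)) (.l 20))))) (.a (.l 20) (.b (.a (.l 20) (.c (.a (.b (.l 20) .z) .z) (.a (.l 20) (.b (.l 20) .z)))) (.a (.c (.a (.l 20) .z) (.l 20)) (.c .z (.a
(.b (.l 20) .z) .z))))))) (.c (.b (.l 20) (.a (.l 20) (.b (.a (.l 20) (.c (.a (.l 20) (.b (.l 20) .z)) (.a (.b (.l 20) .z) .z))) (.a (.c (.l 20) (.b
(.c (.l 20) .z) .z)) (.c .z (.a .z (.b .z (.l 10)))))))) (.b (.a (.l 20) (.b (.c (.l 20) (.a (.l 20) (.a (.c (.l 20) .z) .z))) (.c (.a (.l 20) (.a (.b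
(.l 20) .z) .z)) (.a (.c (.b (.l 20) .z) .z) (.a .z (.b .z (.c .z (.l 10)))))))) (.a (.c (.b (.l 20) (.b (.c (.l 20) (.a (.l 20) .z)) (.c (.a (.l 20)
.z) .z))) (.b (.c (.b (.l 20) (.a (.l 20) .z)) (.b (.a (.l 20) .z) .z)) .z)) (.c (.a (.b (.b (.c (.l 20) .z) .z) (.b .z (.c .z (.a .z (.l 10))))) (.b
(.a .z (.b .z (.c .z (.l 10)))) (.a (.b (.c .z (.l 10)) (.l 10)) (.l 10)))) (.a (.b (.b .z (.c .z (.a .z (.l 10)))) (.c (.b (.a .z (.l 10)) (.l 10))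
(.b (.l 10) .z))) (.b (.a (.b (.c .z (.l 10)) (.l 10)) (.l 10)) (.l 10)))))))) (.c (.a (.b (.c .z (.a (.b (.c (.a (.b (.l 20) .z) .z) (.a (.l 20) (.b
(.l 20) .z))) (.c .z (.a (.b (.l 20) .z) .z))) .z)) (.c (.a (.b (.a (.b .z (.l 41)) .z) (.a (.l 41) .z)) .z) (.a .z (.b (.c .z (.a .z (.b .z (.c .z
(.l 10))))) (.c (.a .z (.b (.c .z (.l 10)) (.l 10))) (.a (.b (.c .z (.l 10)) (.l 10)) (.l 10))))))) (.b (.c (.a .z (.b .z (.a .z (.c (.b .z (.a .z (.l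
10))) (.b (.a .z (.l 10)) (.l 10)))))) (.a (.b .z (.c .z (.a (.b .z (.c .z (.l 10))) (.b (.c .z (.l 10)) (.l 10))))) (.b (.a (.c .z (.b .z (.l 10)))
(.c (.b .z (.l 10)) (.l 10))) (.a (.c (.b (.a .z (.l 10)) (.l 10)) (.l 10)) (.l 10))))) (.a (.c (.b (.a .z (.c .z (.b .z (.a .z (.l 10))))) (.a (.c .z
(.b (.a .z (.l 10)) (.l 10))) (.c (.b (.a .z (.l 10)) (.l 10)) (.l 10)))) (.b (.a (.c (.b .z (.a .z (.l 10))) (.l 10)) (.l 10)) (.l 10))) (.c (.b (.a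
(.c (.b .z (.a .z (.l 10))) (.l 10)) (.l 10)) (.l 10)) (.l 10))))) (.a (.b (.c (.a (.b (.c (.l 20) (.a (.l 20) (.b (.l 20) .z))) (.c (.a (.l 20) (.b
(.l 20) .z)) .z)) (.b (.c .z (.a .z (.b .z (.c .z (.l 10))))) (.c (.a .z (.b .z (.c .z (.l 10)))) (.a (.b .z (.c .z (.l 10))) (.l 10))))) (.a (.b (.c
.z (.a .z (.b (.c .z (.l 10)) (.l 10)))) (.c (.a .z (.b (.c .z (.l 10)) (.l 10))) (.a (.b (.c .z (.l 10)) (.l 10)) (.l 10)))) (.b (.c (.a (.b .z (.c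
.z (.l 10))) (.b (.c .z (.l 10)) (.l 10))) (.l 10)) (.l 10)))) (.c (.a (.b (.c .z (.a (.b .z (.c .z (.l 10))) (.b (.c .z (.l 10)) (.l 10)))) (.c (.a
(.b .z (.c .z (.l 10))) (.b (.c .z (.l 10)) (.l 10))) (.l 10))) (.b (.c (.a (.b .z (.l 10)) (.l 10)) (.l 10)) (.l 10))) (.a (.b (.c (.a (.b (.c .z (.l
10)) (.l 10)) (.l 10)) (.l 10)) (.l 10)) (.l 10)))) (.b (.a (.c (.b (.c (.a .z (.b (.c .z (.l 10)) (.l 10))) (.a (.b (.c .z (.l 10)) (.l 10)) (.l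
10))) (.a (.c (.b (.c .z (.l 10)) (.l 10)) (.l 10)) (.l 10))) (.l 10)) (.l 10)) (.l 10))))) (.a (.c (.c (.b (.a (.c (.b (.c (.l 20) (.b (.l 20) (.a
(.l 20) .z))) (.c (.b (.l 20) (.a (.l 20) .z)) (.b (.a (.l 20) .z) .z))) (.b (.c (.b (.a (.l 20) .z) .z) .z) .z)) (.c (.a (.b (.c (.b (.l 20) .z) .z)
(.c .z (.b .z (.a .z (.l 10))))) (.b (.a .z (.c .z (.b .z (.l 10)))) (.a (.c (.b .z (.l 10)) (.l 10)) (.l 10)))) (.a (.b (.c .z (.b (.a .z (.l 10))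
(.l 10))) (.c (.b (.l 10) (.a .z (.l 10))) (.b (.a .z (.l 10)) .z))) (.b (.a (.c (.b .z (.l 10)) (.l 10)) (.l 10)) (.l 10))))) (.a .z (.a (.c (.b (.c
(.b (.a .z (.l 10)) (.a .z (.l 10))) (.b (.a .z (.l 10)) .z)) .z) .z) (.c (.b (.l 10) (.a (.c (.b (.l 10) .z) .z) (.l 10))) (.b (.a (.c (.b (.l 10)
.z) .z) (.c (.l 10) (.b (.l 10) .z))) .z))))) (.b (.a (.c (.b .z (.c .z (.a (.l 28) .z))) (.l 28)) (.c (.a (.b (.c (.b (.l 10) .z) .z) .z) (.b (.c (.l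
10) (.a (.b (.l 10) .z) (.l 10))) (.a (.c (.b (.l 10) .z) .z) (.c (.l 10) (.b (.l 10) .z))))) (.a .z (.b (.a .z (.c (.b (.l 10) .z) .z)) .z)))) (.a
(.b (.c .z (.c (.a (.l 28) .z) (.a (.l 28) .z))) .z) .z))) (.c (.b (.a (.l 28) (.c (.a (.b (.l 28) (.a (.l 28) .z)) .z) (.b (.a (.l 28) (.a (.l 28)
.z)) (.b (.a (.l 28) .z) (.a (.l 28) .z))))) (.b (.a (.b (.l 28) (.c (.b (.l 28) .z) .z)) (.b .z (.a .z (.c .z (.a .z (.l 14)))))) (.a (.b (.c .z (.b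
.z (.c .z (.l 14)))) .z) (.a (.b (.c .z (.l 14)) (.c .z (.a .z (.l 14)))) (.c (.b (.l 14) (.a .z (.l 14))) (.l 14)))))) (.b (.b (.a (.l 28) (.b (.a
(.l 28) (.a (.l 28) .z)) (.a (.l 28) .z))) (.a (.b (.l 28) (.c (.l 28) (.b (.l 28) .z))) (.b (.a (.c (.l 28) .z) .z) (.a .z (.c .z (.a .z (.l
14))))))) (.b (.a (.b .z (.c (.b .z (.c .z (.l 14))) .z)) (.a (.b (.c .z (.b .z (.l 14))) (.c (.b .z (.l 14)) (.l 14))) (.b (.c (.a .z (.l 14)) (.l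
14)) (.l 14)))) (.a (.c (.c (.a (.b (.l 14) .z) (.b (.l 14) .z)) (.a .z (.b (.l 14) .z))) .z) (.a (.c (.l 14) (.a .z (.c (.l 14) .z))) (.l 14)))))))
(.a (.c (.c (.a (.b (.b (.c (.a (.c (.b .z (.l 10)) (.l 10)) (.l 10)) (.l 10)) (.l 10)) (.c (.l 10) (.a (.b (.l 10) (.c (.l 10) (.a .z (.l 10)))) (.l
10)))) (.l 10)) (.a (.b (.c (.l 10) (.a (.b (.c (.l 10) (.a .z (.l 10))) (.c (.a .z (.l 10)) .z)) (.l 10))) (.c (.a (.b (.c (.l 10) .z) .z) (.b (.l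
10) (.c (.l 10) (.a .z (.l 10))))) (.a (.b .z (.c .z (.l 14))) (.b (.c (.a .z (.l 10)) .z) .z)))) (.b (.l 10) (.a (.c (.l 10) (.b (.l 10) (.a (.c (.l
10) .z) (.l 10)))) (.l 10))))) (.b (.c (.a (.c (.a .z (.b (.c (.l 10) .z) .z)) .z) (.c (.a (.b (.l 10) (.c (.l 10) (.a .z (.l 10)))) (.l 10)) (.a (.b
(.c (.a .z (.l 10)) .z) .z) (.c (.l 10) (.a (.b (.l 10) .z) (.l 10)))))) (.a (.b .z (.b (.c .z (.a .z (.l 14))) (.c (.a .z (.l 14)) (.l 14)))) (.b (.c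
(.a .z (.c (.a .z (.l 10)) .z)) (.a (.b .z (.l 14)) .z)) (.a (.c (.c .z (.l 14)) (.l 14)) (.c .z (.a (.l 14) .z)))))) (.a (.c (.c (.a (.b .z (.l 14))
(.b .z (.c .z (.l 14)))) (.l 14)) (.l 14)) (.c (.a (.c (.b (.c (.a .z (.l 10)) .z) .z) (.b .z (.a (.l 14) .z))) (.c (.a (.b (.l 10) (.c (.l 10) .z))
(.l 10)) (.a .z (.c (.b (.l 10) .z) .z)))) (.a (.l 14) (.c (.a (.c .z (.l 14)) .z) (.l 14))))))) (.c (.a (.l 10) (.c (.l 10) (.b (.a (.l 10) (.c (.l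
10) (.b (.a (.l 10) (.c (.l 10) .z)) (.l 10)))) (.l 10)))) (.b (.a (.c (.b (.c (.l 10) (.a (.l 10) (.b (.a (.l 10) .z) (.l 10)))) (.l 10)) (.b (.a (.c
(.b (.c (.l 10) .z) (.l 10)) .z) .z) (.a (.c (.a (.c (.l 10) .z) (.l 10)) .z) (.c (.b (.a (.l 10) .z) (.l 10)) (.b .z (.a (.l 10) .z)))))) (.c (.a (.b
(.c (.a (.l 10) (.b .z (.l 10))) .z) (.c (.l 10) (.a (.l 10) (.b .z (.l 10))))) (.b .z (.c (.a (.l 10) (.b .z (.l 10))) .z))) (.a (.b (.c (.b (.a .z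
(.l 13)) .z) (.c (.l 13) (.b .z (.l 13)))) (.c (.a (.b .z (.l 10)) .z) .z)) (.b (.c (.l 13) (.c (.l 13) (.b .z (.l 13)))) (.c (.a .z (.b (.l 13) .z))
(.l 13)))))) (.a (.c (.l 10) (.a (.c (.a .z (.c (.l 10) (.b (.l 10) .z))) (.a (.c .z (.l 14)) .z)) (.c (.l 10) (.a (.c (.a .z (.l 10)) .z) (.l 10)))))
(.c (.a (.l 10) (.b (.c (.l 10) (.a (.l 10) (.b .z (.l 10)))) (.l 10))) (.a (.b (.c (.a (.l 10) (.b .z (.l 10))) (.a (.b .z (.l 10)) .z)) (.l 10)) (.b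
(.c .z (.a .z (.b (.l 13) .z))) (.c (.a (.l 10) (.b .z (.l 10))) (.a (.b .z (.l 10)) .z)))))))))))

theorem vQ66 : ev3 Q66 J3_0 J4_7 J4_13 = 306731004910520207297632 := by decide +kernel

noncomputable def Q91 : QT3 :=
(.c (.b (.a (.c (.b (.c (.a (.c (.a (.c .z (.a (.l 23) .z)) .z) (.a (.l 23) (.c .z (.l 23)))) .z) (.a (.c (.l 23) (.c (.b (.l 23) (.c (.l 23) .z)) (.b
(.c (.l 23) .z) (.c .z (.b .z (.l 9)))))) (.c (.a (.c (.a (.l 23) .z) (.l 23)) .z) (.a (.c (.b (.l 23) .z) .z) (.c (.a (.l 23) .z) (.b (.l 23)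
.z)))))) (.a (.c (.c (.a (.c .z (.a (.l 23) .z)) .z) (.a (.l 23) (.c .z (.a (.l 23) .z)))) (.b (.c (.c (.l 23) (.b (.l 23) .z)) (.c (.b .z (.c .z (.l
9))) (.l 9))) (.a (.c .z (.l 9)) (.c .z (.b (.l 9) (.a (.l 9) .z)))))) (.c .z (.b (.a (.c .z (.c .z (.c .z (.l 9)))) .z) (.a .z (.c .z (.b .z (.a .z
(.l 7))))))))) (.b (.a (.c (.c (.c (.b (.c .z (.b .z (.l 9))) (.l 9)) (.l 9)) (.l 9)) (.b (.l 9) (.a (.l 9) (.c (.l 9) (.b (.a (.l 9) .z) .z))))) (.c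
(.b (.c (.c .z (.c (.b .z (.l 9)) (.l 9))) (.l 9)) (.a (.c (.c (.c .z (.l 9)) (.l 9)) (.b (.l 9) (.a (.l 9) .z))) (.c (.b (.c .z (.l 9)) (.a (.l 9)
.z)) .z))) (.b (.a (.c (.l 9) (.b (.l 9) (.a (.l 9) .z))) (.c (.b (.a (.l 9) .z) .z) .z)) (.a (.c (.b (.a (.l 9) .z) .z) .z) (.c (.b .z (.a .z (.l
7))) .z))))) (.a (.c (.b (.a (.l 9) (.c (.l 9) (.b (.l 9) .z))) (.a (.c (.b (.l 9) (.a (.l 9) .z)) (.b (.a (.l 9) .z) .z)) (.c (.b (.a (.l 9) .z) .z)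
.z))) (.b (.a (.c (.b (.l 9) (.a (.l 9) .z)) (.b (.a (.l 9) .z) .z)) .z) (.a (.c .z (.b .z (.l 7))) (.c (.b (.a .z (.l 7)) (.l 7)) (.c (.l 7) (.c (.l
7) .z)))))) (.c (.b (.a (.c (.b (.a (.l 9) .z) .z) .z) (.c .z (.b .z (.l 7)))) (.a (.c (.b .z (.a .z (.l 7))) (.b (.a .z (.l 7)) (.l 7))) (.c (.b (.a
.z (.l 7)) (.l 7)) (.l 7)))) (.b (.a (.c (.b .z (.a .z (.l 7))) (.b .z (.c (.l 7) .z))) (.c (.l 7) (.c (.l 7) .z))) (.c (.l 7) (.c (.l 7) (.c (.l 7)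
.z)))))))) (.c (.b (.a .z (.c .z (.b .z (.a .z (.c (.b .z (.l 22)) (.l 22)))))) (.a (.c .z (.b .z (.a (.c .z (.c .z (.l 7))) (.c (.c (.l 22) .z) (.c
.z (.l 7)))))) (.c (.b (.a .z (.c .z (.l 22))) (.a (.c (.b .z (.l 22)) (.l 22)) (.l 22))) (.b (.a (.c (.b .z (.l 22)) .z) (.c (.l 22) (.c (.l 22)
.z))) (.c (.l 22) (.c .z (.c .z (.b .z (.l 7))))))))) (.b (.a (.c (.b (.a (.c .z (.b (.a (.l 9) .z) .z)) .z) (.a (.c .z (.b .z (.a .z (.l 7)))) (.c .z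
(.l 7)))) (.b (.a .z (.c (.b (.a .z (.l 7)) (.l 7)) .z)) (.a (.c (.b (.a .z (.l 7)) (.l 7)) (.c (.c (.l 7) .z) .z)) (.c (.l 7) (.c (.c (.l 7) .z)
.z))))) (.c (.b (.a (.c .z (.b (.a .z (.l 7)) (.l 7))) (.c .z (.l 7))) (.c (.c .z (.c (.b .z (.l 7)) (.l 7))) (.l 7))) (.c (.l 7) (.c (.c (.b .z (.b
.z (.l 7))) .z) .z)))) (.a (.c (.b (.a (.c (.b (.a .z (.l 7)) (.l 7)) (.l 7)) (.l 7)) (.l 7)) (.c (.l 7) (.c (.c (.l 7) (.b (.b .z (.l 7)) (.l 7)))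
(.c (.b .z (.b .z (.l 7))) .z)))) (.c (.c (.c (.b (.c (.b .z (.l 7)) (.l 7)) (.l 7)) (.l 7)) (.l 7)) (.c (.l 7) (.c (.c (.l 7) (.b .z (.l 7)))
.z))))))) (.a (.c (.b (.a (.c (.b (.c .z (.a (.c (.l 23) .z) .z)) .z) (.b (.a (.c (.c .z (.l 9)) (.b (.l 9) .z)) (.c (.b (.c .z (.l 9)) .z) .z)) (.a
(.c (.b (.a (.l 9) .z) .z) .z) (.c .z (.b (.a .z (.l 7)) (.l 7)))))) (.c .z (.b (.a (.c .z (.b .z (.a .z (.l 7)))) (.c .z (.l 7))) (.a (.c (.b .z (.l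
7)) (.l 7)) (.c (.c .z (.l 7)) (.l 7)))))) (.a (.c (.b .z (.a (.c .z (.b (.a .z (.l 7)) (.l 7))) (.c .z (.l 7)))) (.b (.a (.c (.b .z (.a .z (.l 7)))
(.l 7)) (.l 7)) (.l 7))) (.c (.b (.a (.c .z (.c .z (.b .z (.l 7)))) (.c (.c .z (.l 22)) .z)) (.c .z (.c (.b .z (.c .z (.l 7))) (.l 7)))) (.l 7)))) (.b
(.a (.c (.b (.a (.c .z (.b .z (.a .z (.l 7)))) (.c (.b .z (.a .z (.l 7))) (.l 7))) (.a (.c (.b (.a .z (.l 7)) (.l 7)) (.l 7)) (.l 7))) (.b (.a (.c (.b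
(.a .z (.l 7)) (.l 7)) (.l 7)) (.l 7)) (.l 7))) (.l 7)) (.l 7))) (.c (.b (.a (.c (.b (.a (.c .z (.b .z (.l 22))) (.c (.b .z (.l 22)) (.l 22))) (.a (.c
(.b .z (.l 22)) (.c (.l 22) .z)) (.c (.c .z (.l 22)) (.c (.l 22) .z)))) (.c (.c (.b (.c (.l 22) .z) .z) (.b .z (.c (.b .z (.l 7)) (.l 7)))) (.c (.b
(.c (.b .z (.l 7)) (.l 7)) (.l 7)) (.l 7)))) (.c (.c (.b (.l 22) (.c .z (.l 22))) (.l 22)) (.c (.c (.b (.l 22) .z) .z) (.c (.b (.c .z (.b .z (.l 7)))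
(.c (.a (.l 7) .z) (.l 7))) (.l 7))))) (.c (.c (.b (.c .z (.a (.b (.l 22) .z) .z)) (.c (.a .z (.l 29)) .z)) (.b (.c (.a (.b (.l 22) .z) (.b (.l 22)
.z)) .z) (.c .z (.a (.b (.c .z (.l 7)) (.l 7)) .z)))) (.c (.a (.b (.c (.c (.b .z (.l 7)) (.l 7)) (.l 7)) (.l 7)) (.c (.b .z (.a (.l 7) (.c .z (.l
7)))) (.b (.a (.l 7) (.c .z (.l 7))) (.l 7)))) (.l 7)))) (.c (.l 7) (.c (.l 7) (.c (.l 7) (.b (.c (.b (.a (.l 7) (.b .z (.l 7))) (.l 7)) (.b .z (.a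
(.l 7) .z))) (.l 7)))))))) (.b (.a (.b (.c (.a (.c (.b (.a (.l 9) (.c (.b (.l 9) (.a (.l 9) .z)) (.b (.a (.l 9) .z) .z))) (.a (.c (.b (.l 9) (.a (.l
9) .z)) .z) .z)) (.b (.a (.c (.b (.l 9) .z) .z) (.c .z (.b .z (.a .z (.l 10))))) (.a (.b (.c .z (.a .z (.l 10))) (.c .z (.l 10))) (.b (.c .z (.l 10))
(.c (.c .z (.l 10)) (.l 10)))))) (.c (.b (.a (.c (.b (.a (.l 9) .z) .z) .z) .z) .z) (.b (.a (.c .z (.c (.c .z (.l 10)) (.l 10))) (.c .z (.c .z (.l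
10)))) (.c .z (.c (.a (.l 10) (.c .z (.l 10))) (.l 10)))))) (.a (.b (.c (.a (.b .z (.c (.a .z (.l 10)) (.l 10))) (.b (.c (.a .z (.l 10)) (.l 10)) (.l
10))) (.l 10)) (.l 10)) (.c (.l 10) (.c (.l 10) (.c (.a (.l 10) (.c (.l 10) (.a (.l 10) .z))) (.a (.c (.a (.l 10) .z) .z) .z)))))) (.c (.a (.c (.b .z
(.c .z (.c .z (.a (.l 10) (.c .z (.l 10)))))) (.c (.b (.c (.a (.l 10) (.c .z (.l 10))) (.l 10)) (.l 10)) (.l 10))) (.c .z (.c (.c (.b .z (.a (.l 10)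
(.c .z (.l 10)))) (.b (.a (.l 10) (.c .z (.l 10))) (.l 10))) (.l 10)))) (.c (.l 10) (.c (.l 10) (.a (.l 10) (.c (.a (.l 10) (.c (.l 10) .z)) (.a (.c
(.a (.l 10) .z) .z) .z))))))) (.c (.c (.c (.c .z (.a .z (.a .z (.l 31)))) (.b (.a .z (.l 31)) (.a .z (.a (.a .z (.l 31)) (.l 31))))) (.c (.b (.a (.c
(.a .z (.l 31)) .z) (.l 31)) (.a (.c .z (.b .z (.a (.l 10) .z))) (.c (.b (.l 31) .z) .z))) (.b (.a (.c .z (.b (.a (.c .z (.l 10)) .z) (.a (.l 10) (.c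
.z (.l 10))))) (.c (.b (.l 31) .z) .z)) (.a (.c (.b (.a (.l 10) (.c .z (.l 10))) (.l 10)) (.l 10)) (.c (.a (.b .z (.c .z (.l 10))) .z) (.a (.l 10) (.b
.z (.c .z (.l 10))))))))) (.c (.c (.b (.a (.l 10) (.c (.b (.a (.c .z (.l 10)) .z) (.a (.l 10) (.c .z (.l 10)))) (.l 10))) (.l 10)) (.a (.l 10) (.c (.l
10) (.a (.l 10) (.b (.c (.l 10) (.a (.l 10) .z)) (.c (.a (.l 10) .z) .z)))))) (.c (.a (.c (.a (.l 10) (.c (.l 10) (.b (.l 10) (.a (.l 10) .z)))) (.a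
(.c (.l 10) (.a (.l 10) (.b (.l 10) .z))) (.c (.b (.a (.l 10) .z) .z) .z))) (.c (.a (.c (.b (.l 10) .z) .z) .z) .z)) .z)))) (.c (.c (.c (.b (.c (.a
(.b (.c (.a (.b .z (.l 7)) .z) .z) (.c (.l 7) (.a (.b .z (.l 7)) .z))) .z) .z) (.a (.c (.l 7) (.b (.c (.a (.l 7) .z) .z) (.a (.l 7) (.c (.l 7) (.b .z
(.l 7)))))) (.c (.a (.b (.c (.l 7) .z) (.l 7)) (.b .z (.c (.l 7) .z))) .z))) (.b (.a (.a (.b (.c (.a (.l 10) (.b .z (.l 10))) (.l 10)) (.l 10)) (.c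
(.b .z (.a (.c .z (.l 10)) .z)) (.b (.a (.l 10) .z) (.l 10)))) (.a (.c .z (.b .z (.a (.c .z (.l 10)) .z))) (.c (.a .z (.l 31)) (.a .z (.l 31))))) (.a
(.c (.b (.c (.a .z (.b (.l 10) .z)) (.a (.b (.l 10) .z) (.l 10))) (.c (.a (.b .z (.l 7)) .z) .z)) (.b (.l 10) (.c (.a (.b (.l 10) .z) (.l 10)) (.l
10)))) (.c (.b (.a (.a (.c .z (.l 10)) .z) .z) (.a (.c .z (.l 10)) .z)) (.a (.b (.a (.l 10) (.c .z (.l 10))) (.l 10)) (.a (.b .z (.c .z (.l 10)))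
.z)))))) (.a (.l 10) (.a (.c (.b (.c (.b (.a (.c .z (.l 10)) .z) (.a (.l 10) (.c .z (.l 10)))) (.l 10)) (.l 10)) (.l 10)) (.c (.b (.c .z (.a (.b .z
(.l 10)) .z)) (.a (.c (.b (.c .z (.l 10)) (.l 10)) (.l 10)) (.c (.b .z (.a (.l 10) .z)) (.b (.a (.l 10) .z) (.l 10))))) (.b (.c (.a (.l 10) (.b (.c .z
(.l 10)) (.l 10))) (.l 10)) (.l 10)))))) (.a (.c (.l 10) (.a (.b (.l 10) (.c (.l 10) (.a (.b (.c (.l 10) .z) .z) (.b (.l 10) (.c (.l 10) .z))))) (.c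
(.l 10) (.c (.a (.l 10) (.c (.a (.l 10) .z) .z)) (.a (.c (.a (.l 10) .z) .z) (.c .z (.b (.l 14) .z))))))) (.c (.c (.a (.l 10) (.c (.l 10) (.a (.l 10)
(.b (.l 10) (.a (.l 10) (.c (.l 10) .z)))))) (.a (.c (.l 10) (.a (.l 10) (.c (.l 10) (.b (.l 10) (.a (.l 10) .z))))) (.c (.a (.b (.l 10) (.a (.l 10)
(.c (.l 10) .z))) (.b (.c (.a (.l 10) .z) .z) .z)) (.a (.b (.c (.a (.l 10) .z) .z) .z) .z)))) (.a (.c (.c (.a (.c (.l 10) (.a (.l 10) (.b (.l 10)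
.z))) (.c (.a (.b (.l 10) .z) .z) .z)) (.a (.c (.a (.l 10) .z) .z) .z)) (.c (.a .z (.b (.b .z (.l 14)) .z)) (.b (.b (.b .z (.l 14)) (.l 14)) (.c (.b
(.l 14) .z) .z)))) (.c .z (.b (.b (.c .z (.b .z (.l 14))) (.c (.b .z (.l 14)) (.c (.l 14) .z))) (.c (.b (.b (.l 14) .z) .z) (.c (.b (.l 14) .z)
.z))))))))))

theorem vQ91 : ev3 Q91 J4_4 J4_7 J3_6 = 292776380744330756154044 := by decide +kernel

noncomputable def Q158 : QT3 :=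
(.c (.b (.a (.c (.c (.c (.b (.a (.c (.l 11) (.b (.l 11) (.a (.c (.l 11) .z) (.l 11)))) (.l 11)) (.a (.c (.b (.a (.c (.l 11) .z) (.l 11)) .z) (.b .z
(.a (.c .z (.l 7)) .z))) (.c (.l 11) (.b (.l 11) (.a .z (.l 11)))))) (.b (.a (.c (.b (.a (.c (.l 11) .z) (.l 11)) .z) (.b .z (.a (.c .z (.l 7)) .z)))
(.c (.l 11) (.b (.a (.c (.l 11) .z) (.l 11)) (.a .z (.c (.l 11) .z))))) (.a (.c (.b (.a (.c .z (.l 7)) .z) (.a (.l 7) (.c .z (.l 7)))) (.b (.a (.l 7)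
(.c .z (.l 7))) (.l 7))) (.c (.b (.a .z (.c (.l 11) .z)) .z) (.a (.b .z (.l 7)) .z))))) (.c (.b (.a (.c (.b (.a (.c .z (.l 7)) .z) (.l 7)) (.l 7)) (.c
(.b (.a .z (.c (.l 11) .z)) .z) (.a (.b (.c .z (.l 7)) (.l 7)) (.b .z (.c .z (.l 7)))))) (.a (.l 7) (.c (.a (.l 7) (.b .z (.l 7))) (.l 7)))) (.a (.l
7) (.b (.c (.a (.l 7) (.b (.c .z (.l 7)) (.l 7))) (.l 7)) (.l 7))))) (.c (.l 7) (.c (.l 7) (.c (.l 7) (.a (.l 7) (.b (.c (.l 7) (.a (.l 7) (.b .z (.l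
7)))) (.l 7))))))) (.c (.c (.c (.l 11) (.a (.b (.l 11) (.c (.l 11) (.a (.b (.c (.l 11) .z) .z) (.l 11)))) (.l 11))) (.a (.c (.b (.c (.a (.b (.l 11)
(.c (.l 11) .z)) (.l 11)) (.a .z (.b (.l 11) .z))) (.a (.c .z (.b (.c .z (.l 7)) (.l 7))) (.c (.b (.c (.l 11) .z) .z) .z))) (.b (.c (.a (.b .z (.c .z
(.l 7))) .z) (.a (.l 7) (.b .z (.c .z (.l 7))))) (.a (.l 7) (.c (.b (.a (.l 7) .z) (.l 7)) (.l 7))))) (.c (.b (.l 11) (.a (.c (.l 11) (.b (.a .z (.l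
11)) .z)) (.l 11))) (.b (.c (.a (.b (.l 11) .z) (.l 11)) (.a .z (.a .z (.c (.l 11) .z)))) (.a (.c .z (.a (.l 7) (.b .z (.l 7)))) (.c (.a .z (.l 11))
.z)))))) (.b (.c (.a (.l 7) (.c (.a (.c (.b (.c .z (.l 7)) (.l 7)) (.l 7)) (.c .z (.a (.l 7) (.c .z (.l 7))))) (.l 7))) (.c (.l 7) (.c (.a (.l 7) (.c
(.a (.l 7) .z) .z)) (.a (.c (.a (.b .z (.l 7)) .z) .z) .z)))) (.a (.c (.l 7) (.b (.c (.l 7) (.c (.l 7) (.a (.l 7) (.c (.l 7) .z)))) (.a (.l 7) (.c (.l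
7) (.b (.c (.l 7) .z) (.a (.l 7) .z)))))) (.c (.b (.c (.a (.l 7) (.c (.a (.l 7) .z) (.l 7))) (.l 7)) (.a (.l 7) (.c (.b (.c .z (.l 7)) (.a (.l 7) .z))
(.b (.a (.l 7) .z) .z)))) (.b (.a (.c (.l 7) (.c (.l 7) .z)) (.c (.b (.l 7) (.a (.l 7) .z)) .z)) (.a (.c (.b (.l 7) (.a (.l 7) .z)) .z) .z))))))) (.a
(.c (.c (.a (.b (.c (.b (.c (.a (.b .z (.l 7)) .z) (.a (.l 7) (.c .z (.l 7)))) (.c (.a (.l 7) (.b .z (.l 7))) (.l 7))) (.l 7)) (.l 7)) (.c (.b (.a (.c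
.z (.b .z (.a (.l 7) .z))) (.c (.b (.l 11) .z) .z)) (.a (.c (.b (.a (.l 7) .z) (.l 7)) (.l 7)) (.c (.b .z (.a (.l 7) .z)) (.b (.a (.l 7) .z) (.l
7))))) (.b (.a (.c (.b (.c .z (.l 7)) (.l 7)) (.l 7)) (.c (.b .z (.a (.l 7) .z)) (.b (.a (.l 7) .z) (.l 7)))) (.l 7)))) (.l 7)) (.b (.a (.l 7) (.c (.l
7) (.b (.l 7) (.a (.l 7) (.c (.l 7) (.b (.l 7) (.a (.l 7) .z))))))) (.a (.c (.l 7) (.b (.l 7) (.a (.l 7) (.c (.l 7) (.b (.a (.l 7) .z) .z))))) (.c (.b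
(.a (.l 7) (.c (.l 7) (.b (.l 7) (.a (.l 7) .z)))) (.a (.c (.l 7) (.b (.l 7) (.a (.l 7) .z))) (.c (.b (.l 7) .z) .z))) (.b (.a (.c (.l 7) (.b (.l 7)
(.a (.l 7) .z))) (.c (.b (.a (.l 7) .z) .z) .z)) (.a (.c (.b (.a (.l 7) .z) .z) .z) (.c (.b .z (.a .z (.l 8))) (.b (.a .z (.l 8)) (.l 8))))))))) (.c
(.b (.a (.c (.c (.a (.c (.l 11) (.b (.l 11) .z)) (.l 11)) (.a (.c .z (.b .z (.a (.l 7) .z))) (.c (.b (.l 11) (.a .z (.l 11))) .z))) (.c (.a (.c (.b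
(.a (.l 7) .z) (.l 7)) (.l 7)) (.c (.b .z (.a (.l 7) .z)) (.b (.a (.l 7) .z) (.l 7)))) (.l 7))) (.c (.b (.l 11) (.a (.c (.l 11) (.c (.l 11) (.a .z (.l
11)))) (.c (.l 11) (.b (.l 11) (.a (.l 11) .z))))) (.b (.a (.c (.c (.a .z (.l 11)) .z) (.c (.a (.l 7) .z) (.l 7))) (.c (.c (.l 11) (.a .z (.l 11)))
.z)) (.a (.c .z (.b (.a (.l 7) .z) .z)) .z)))) (.a (.c (.b (.c (.a (.c (.a .z (.l 11)) .z) (.c (.l 11) (.a .z (.l 11)))) (.a (.c (.a (.l 7) .z) (.l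
7)) .z)) (.a (.c .z (.l 7)) (.c (.c (.a .z (.l 11)) .z) .z))) (.b (.a (.l 7) (.c (.b (.l 7) (.a (.l 7) .z)) (.b (.a (.l 7) .z) .z))) (.a (.c (.b (.l
7) (.a (.l 7) .z)) (.b (.a (.l 7) .z) .z)) .z))) (.c (.b (.a (.c (.l 11) (.b (.c (.l 11) .z) .z)) (.c (.b (.a (.l 11) .z) .z) .z)) (.a (.c (.b (.a (.l
11) .z) .z) .z) .z)) .z))) (.b (.a (.c (.b (.l 7) (.a (.c (.l 7) (.b (.l 7) (.a (.l 7) .z))) (.c (.b (.l 7) (.a (.l 7) .z)) (.b (.a (.l 7) .z) .z))))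
(.b (.a (.c (.l 7) (.b (.l 7) (.a (.l 7) .z))) (.c (.b (.a (.l 7) .z) .z) .z)) (.a (.c (.b (.a (.l 7) .z) .z) .z) (.c .z (.b (.a .z (.l 8)) (.l
8)))))) (.c (.b (.a (.c (.b (.l 7) (.a (.l 7) .z)) (.b (.a (.l 7) .z) .z)) .z) .z) (.b (.a (.c .z (.b .z (.c (.l 8) .z))) (.c (.b .z (.l 8)) (.c (.c
(.l 8) .z) .z))) (.a (.c (.b (.a .z (.l 8)) (.l 8)) (.c (.l 8) (.c (.l 8) .z))) (.c (.l 8) (.c (.l 8) .z)))))) (.a (.c (.b (.a (.c (.b (.l 7) (.a (.l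
7) .z)) .z) .z) (.a .z (.c .z (.c .z (.c .z (.l 8)))))) (.b (.a (.c (.b .z (.a .z (.l 8))) (.b (.a .z (.l 8)) (.l 8))) (.l 8)) (.l 8))) (.c (.b .z (.c
.z (.c .z (.c .z (.a (.l 8) .z))))) (.c (.l 8) (.c (.l 8) (.a (.l 8) (.c (.a (.l 8) .z) .z)))))))))) (.b (.a (.b (.c (.c (.c (.c (.a (.c (.l 7) (.b .z
(.a (.l 7) .z))) (.c (.b .z (.a (.l 7) .z)) .z)) .z) (.c (.a .z (.a .z (.l 29))) (.a .z (.a .z (.l 29))))) (.a (.c (.a (.c (.b .z (.a (.l 10) .z)) (.l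
10)) (.c .z (.a (.b .z (.l 10)) .z))) (.a (.c (.l 10) (.a (.l 10) (.c (.l 10) .z))) (.c (.a (.l 10) (.b (.l 10) .z)) .z))) .z)) (.a (.c .z (.c (.c (.l
27) (.c (.l 27) .z)) .z)) .z)) (.c (.a (.c (.c (.c (.l 7) (.b (.c (.a (.l 7) .z) .z) (.a (.l 7) (.c (.l 7) .z)))) (.c .z (.b (.a (.a (.l 10) .z) .z)
.z))) (.c (.a (.l 10) (.c (.a (.b .z (.l 10)) .z) (.a (.l 10) (.b (.l 10) .z)))) (.a (.c (.a (.l 10) (.c (.l 10) .z)) .z) .z))) (.c (.c (.c (.a (.c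
(.l 7) (.b .z (.l 7))) (.c (.l 7) .z)) .z) .z) .z)) (.a (.b .z (.c (.c .z (.c (.l 39) .z)) .z)) (.b .z (.a .z (.c .z (.b (.a .z (.c .z (.l 11))) (.a
(.c .z (.l 11)) (.c .z (.l 11)))))))))) (.b (.c (.a (.c (.c (.c .z (.a (.l 29) .z)) .z) .z) .z) (.a .z (.b .z (.a .z (.c .z (.c (.c .z (.c (.l 12)
.z)) .z)))))) (.c .z (.a (.b .z (.a (.c (.b .z (.c .z (.l 21))) (.c .z (.c .z (.a (.l 11) .z)))) (.c (.c .z (.c (.l 21) .z)) (.c (.c .z (.c (.l 12)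
.z)) .z)))) (.c .z (.c (.c (.c (.b .z (.a .z (.l 12))) (.b (.a .z (.l 12)) (.l 12))) (.l 12)) (.c (.a (.b .z (.c (.l 12) .z)) (.b (.c (.l 12) .z) (.l
12))) .z))))))) (.a (.b (.c (.a (.c (.c (.l 7) (.c (.b (.a (.l 7) (.c (.l 7) .z)) (.l 7)) (.b .z (.a (.c (.l 7) .z) .z)))) (.b (.c (.c (.a (.c .z (.l
10)) (.a (.l 10) .z)) (.a (.l 10) .z)) .z) .z)) (.c (.b (.a (.c (.c (.l 7) (.c (.l 7) .z)) .z) (.c (.c (.l 7) .z) .z)) (.a (.c (.l 7) .z) (.c (.b (.a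
(.l 7) .z) .z) .z))) (.b .z (.a .z (.b .z (.c .z (.l 21))))))) (.a (.b .z (.c .z (.a .z (.b (.a .z (.c .z (.l 11))) (.c .z (.c (.l 11) .z)))))) (.b
(.a (.c .z (.b (.a .z (.c .z (.l 11))) (.c .z (.l 11)))) (.c .z (.c .z (.c (.c .z (.l 11)) (.l 11))))) (.a (.c (.b .z (.c (.l 21) .z)) (.c (.c (.c .z
(.l 12)) .z) (.c (.c .z (.l 11)) (.l 11)))) (.c (.c (.l 21) (.c (.l 21) .z)) (.c (.c (.c .z (.l 12)) (.c (.l 12) .z)) (.c .z (.c .z (.l 11)))))))))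
(.c (.a (.c (.b (.a (.l 7) (.c (.b (.l 7) (.a (.l 7) .z)) (.b (.a (.l 7) .z) .z))) (.a (.c (.b (.l 7) (.a (.l 7) .z)) (.b (.a (.l 7) .z) .z)) (.c .z
(.b .z (.a .z (.l 8)))))) (.b .z (.a .z (.c .z (.c .z (.l 21)))))) (.c (.b (.a .z (.c (.b .z (.a .z (.l 8))) .z)) (.a (.c (.b .z (.l 8)) (.c (.l 8)
(.c (.l 8) .z))) (.c (.l 8) (.c (.c (.l 8) .z) .z)))) (.b (.a (.b (.c .z (.l 21)) (.c .z (.l 21))) (.c (.c .z (.l 21)) (.l 21))) (.c (.c .z (.a .z (.l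
21))) (.l 21))))) (.a (.b (.c (.a .z (.b .z (.c (.l 21) .z))) (.a .z (.c .z (.c (.c .z (.l 11)) .z)))) (.c (.a (.b .z (.c (.l 21) .z)) (.c (.l 21)
.z)) (.c (.c (.a (.c (.l 12) .z) (.l 12)) .z) .z))) (.c (.c (.l 21) (.c (.b (.c (.l 21) .z) .z) (.b .z (.c .z (.l 12))))) (.c (.c (.l 12) (.a (.b (.c
(.l 12) .z) (.l 12)) (.l 12))) (.c (.a .z (.b .z (.c (.l 12) .z))) (.a (.b (.c (.l 11) .z) .z) .z))))))) (.b (.c (.a (.c (.b .z (.a .z (.c (.c (.c (.l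
8) .z) .z) .z))) (.b .z (.c .z (.c .z (.a (.l 21) .z))))) .z) (.c (.c (.a (.b (.c (.a (.l 21) .z) (.l 21)) (.l 21)) (.b .z (.a (.c .z (.l 21)) .z)))
(.c (.a (.b (.l 21) (.c (.l 21) .z)) .z) (.a .z (.b .z (.c (.a .z (.l 12)) (.l 12)))))) (.c (.a (.c (.b (.c .z (.l 12)) (.l 12)) (.a (.b (.c (.l 12)
.z) (.l 12)) (.l 12))) (.l 12)) (.a (.c (.a .z (.b (.c (.l 12) .z) (.l 12))) .z) (.c (.l 12) (.a (.b .z (.l 12)) (.l 12))))))) (.c (.c (.c (.a (.c (.a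
(.l 8) (.c (.l 8) (.b .z (.l 8)))) (.a (.b (.c (.l 8) .z) (.l 8)) .z)) (.c (.a (.c (.a (.l 8) .z) .z) .z) .z)) .z) (.a (.c (.b .z (.a (.l 21) (.c .z
(.l 21)))) (.b (.a (.l 21) (.c .z (.l 21))) (.l 21))) (.c .z (.b .z (.a (.c .z (.l 21)) .z))))) (.c (.c (.c (.a (.l 21) (.a (.l 21) (.b .z (.l 21))))
(.a (.b (.l 21) (.c (.l 21) .z)) (.b (.c (.l 21) .z) .z))) (.c (.a .z (.b (.c .z (.a .z (.l 12))) (.c (.a .z (.l 12)) (.l 12)))) (.a (.b (.c .z (.l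
12)) (.l 12)) (.l 12)))) (.c (.l 12) (.a (.c (.l 12) (.a (.b .z (.c (.l 12) .z)) (.b (.c (.l 12) .z) (.l 12)))) (.l 12)))))))))

theorem vQ158 : ev3 Q158 J4_5 J4_8 J3_6 = 240210558507645326241590 := by decide +kernel

noncomputable def Q134 : QT3 :=
(.b (.c (.b (.a (.c (.a (.c (.c (.a (.c (.l 40) .z) .z) .z) .z) .z) (.c (.a .z (.a .z (.c .z (.a .z (.c .z (.a .z (.l 10))))))) (.a (.c (.c .z (.a (.l
24) .z)) (.l 24)) (.a (.c .z (.a (.c .z (.l 24)) .z)) (.c (.a (.c .z (.b (.l 10) .z)) (.l 10)) (.a (.c (.l 10) (.a .z (.l 10))) (.l 10))))))) (.a (.c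
(.a (.c .z (.a .z (.c .z (.a .z (.l 10))))) (.c (.a .z (.c (.a .z (.c .z (.l 10))) (.a (.c .z (.l 10)) (.l 10)))) (.a (.c (.a (.c .z (.l 10)) (.l 10))
(.l 10)) (.l 10)))) (.b (.c (.a (.a (.c (.a .z (.l 10)) (.l 10)) (.l 10)) (.l 10)) (.a (.l 10) (.b (.l 10) (.a (.l 10) (.c (.l 10) .z))))) (.c (.a (.a
(.c .z (.l 10)) (.l 10)) (.b (.l 10) (.a (.c (.l 10) .z) .z))) (.a (.b (.l 10) (.c (.a (.l 10) .z) .z)) (.b (.a (.c (.l 10) .z) .z) .z))))) (.c (.b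
(.a (.l 10) (.c (.l 10) (.b (.l 10) (.a (.c (.l 10) .z) .z)))) (.a (.c (.l 10) (.b (.a (.l 10) (.c (.l 10) .z)) (.a (.c (.l 10) .z) .z))) (.c (.b (.a
(.l 10) .z) .z) .z))) (.b (.a (.c (.b (.l 10) (.a (.l 10) (.c (.l 10) .z))) (.b (.a (.l 10) .z) .z)) (.c (.b (.a (.c (.l 10) .z) .z) .z) (.b .z (.a
(.c .z (.l 11)) (.c .z (.l 11)))))) (.a (.c .z (.b (.a .z (.c .z (.l 11))) (.a (.c .z (.l 11)) (.c .z (.l 11))))) (.c (.b (.a .z (.l 20)) (.l 20)) (.c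
(.c .z (.a .z (.l 11))) (.l 11)))))))) (.a (.c (.b (.a (.c (.b .z (.a (.l 40) .z)) .z) .z) .z) (.b (.c .z (.b (.a (.c (.c .z (.l 24)) (.l 24)) .z) (.a
(.c (.a (.l 24) .z) (.b (.l 24) .z)) .z))) (.c .z (.a (.b .z (.c .z (.c (.l 20) .z))) (.b .z (.a .z (.c (.l 20) .z))))))) (.a (.c (.b (.c (.a .z (.b
(.a .z (.c .z (.l 10))) .z)) (.a .z (.b (.a (.c .z (.l 10)) (.c (.l 10) .z)) .z))) (.c .z (.a .z (.b .z (.a .z (.l 20)))))) (.b (.c (.a (.b (.c (.a .z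
(.l 10)) .z) .z) .z) (.a (.b .z (.c .z (.c .z (.l 11)))) (.b .z (.c .z (.c .z (.l 11)))))) (.c (.a (.b .z (.l 20)) (.l 20)) (.c (.c (.l 20) (.a (.l
20) .z)) (.c .z (.a (.b (.l 11) .z) (.l 11))))))) (.c (.b (.a (.c (.b (.a (.c (.l 10) .z) .z) .z) (.b .z (.a .z (.l 20)))) (.c .z (.b (.a .z (.l 20))
(.l 20)))) (.a (.c (.b .z (.a .z (.l 20))) (.l 20)) (.c (.c .z (.l 20)) (.l 20)))) (.b (.a (.c (.b (.a .z (.l 20)) (.l 20)) (.c (.c (.l 20) .z) (.l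
11))) (.c (.l 20) (.c .z (.l 11)))) (.c (.l 20) (.c (.c (.a (.l 20) .z) .z) (.c (.a (.a .z (.l 11)) (.l 11)) (.l 11))))))))) (.b (.a (.c (.b (.c (.a
(.c (.l 24) (.a (.l 24) .z)) (.a .z (.c (.a .z (.c (.l 10) .z)) .z))) (.a .z (.a (.c .z (.a .z (.l 14))) (.c (.a .z (.l 14)) (.l 14))))) (.c (.b (.a
(.c (.l 24) (.a (.l 24) .z)) .z) (.a (.c (.l 24) (.a (.l 24) .z)) .z)) (.b .z (.a .z (.a .z (.c .z (.b .z (.l 11)))))))) (.b (.b (.c (.a .z (.a (.c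
(.l 14) .z) (.l 14))) .z) (.c .z (.a .z (.a .z (.b .z (.c .z (.l 11))))))) (.b (.c (.a .z (.a .z (.c .z (.b .z (.l 11))))) (.a (.b .z (.c .z (.a .z
(.l 11)))) (.a (.b .z (.c .z (.l 11))) (.l 11)))) (.c (.a (.c .z (.b .z (.c .z (.l 11)))) (.a (.c .z (.b .z (.l 11))) (.l 11))) (.l 11))))) (.a (.c
(.b (.a (.c (.a (.c (.l 10) (.a .z (.l 10))) (.l 10)) .z) (.c (.b (.a (.l 10) (.c (.l 10) .z)) (.a (.c (.l 10) .z) .z)) (.b .z (.a .z (.c .z (.l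
11)))))) (.a (.c (.b (.c (.a (.l 10) .z) .z) .z) (.b .z (.c (.a .z (.l 11)) (.l 11)))) (.c (.b .z (.a (.c .z (.l 11)) (.l 11))) (.b (.a (.c .z (.l
11)) (.l 11)) (.l 11))))) (.b (.a (.b .z (.c .z (.a (.b .z (.l 11)) (.l 11)))) (.b (.c (.a .z (.c .z (.l 11))) (.a (.b .z (.l 11)) (.l 11))) (.c (.a
(.c .z (.l 11)) (.l 11)) (.l 11)))) (.a (.b (.c (.a (.c .z (.l 11)) (.l 11)) (.l 11)) (.l 11)) (.l 11)))) (.c (.b (.a (.c (.b .z (.a .z (.c .z (.l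
11)))) (.b (.a .z (.c .z (.l 11))) (.l 11))) (.c (.b (.a (.c .z (.l 11)) (.l 11)) (.l 11)) (.l 11))) (.l 11)) (.l 11)))) (.a (.c (.b (.c (.b (.a (.c
(.a (.l 24) .z) .z) .z) (.a (.c .z (.b .z (.c .z (.l 11)))) (.a (.c .z (.b .z (.l 11))) (.c (.b .z (.l 11)) (.l 11))))) (.b (.a (.c .z (.b .z (.c .z
(.l 11)))) (.a (.c .z (.b .z (.l 11))) (.c (.b .z (.l 11)) (.l 11)))) (.a (.c (.b (.c .z (.l 11)) (.l 11)) (.l 11)) (.l 11)))) (.c (.a (.b (.c (.b (.c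
.z (.l 11)) (.l 11)) (.l 11)) (.l 11)) (.l 11)) (.b (.l 11) (.c (.l 11) (.b (.l 11) (.a (.c (.l 11) .z) (.a .z (.l 11)))))))) (.b (.c (.b (.a (.c (.b
(.c .z (.l 11)) (.l 11)) (.l 11)) (.l 11)) (.l 11)) (.b (.l 11) (.c (.b (.l 11) (.a (.c (.l 11) .z) (.a .z (.l 11)))) (.b (.a .z (.a .z (.l 11)))
.z)))) (.c (.b (.c (.l 11) (.b (.a (.c (.l 11) .z) (.l 11)) .z)) (.c (.a .z (.b (.a .z (.l 11)) .z)) .z)) (.b (.c (.a (.b .z (.c .z (.l 12))) .z) (.a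
(.l 12) (.b .z (.a (.l 12) .z)))) (.c (.a .z (.b .z (.a .z (.l 12)))) (.l 12)))))) (.a (.c (.b (.a (.c (.b (.c (.a .z (.l 11)) (.l 11)) (.l 11)) (.l
11)) (.l 11)) (.l 11)) (.b (.l 11) (.c (.b (.l 11) (.c (.l 11) (.a .z (.b (.l 11) .z)))) (.b (.c (.a (.b (.l 11) .z) (.l 11)) (.a .z (.b (.l 11) .z)))
(.a (.c .z (.b .z (.l 12))) .z))))) (.c (.l 11) (.b (.l 11) (.c (.l 11) (.b (.l 11) (.a (.c (.b (.l 11) .z) .z) (.l 11)))))))))) (.c (.a (.b (.c .z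
(.b (.c .z (.c (.b (.b (.l 20) .z) .z) (.c (.b (.b (.l 20) .z) .z) .z))) .z)) .z) (.b (.a (.c (.b .z (.c .z (.a .z (.c .z (.l 42))))) (.b (.c (.b (.b
(.l 20) .z) .z) (.c (.b (.l 20) .z) (.c .z (.a .z (.a .z (.l 11)))))) .z)) (.c (.b (.b (.c .z (.b (.l 20) .z)) (.c (.b .z (.l 42)) .z)) (.a (.c (.a .z
(.l 42)) (.l 42)) (.l 42))) (.c (.b (.b (.l 20) .z) .z) (.c .z (.c (.a .z (.b (.l 11) (.a .z (.l 11)))) (.a (.b (.l 11) (.a .z (.l 11))) (.l 11)))))))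
(.c (.b (.a .z (.a .z (.c (.b (.l 42) .z) .z))) .z) (.b (.a .z (.c .z (.b (.a .z (.c .z (.c .z (.l 11)))) .z))) .z)))) (.b (.c (.a (.b (.c (.b (.c (.c
(.a .z (.l 11)) (.l 11)) (.l 11)) (.c (.b (.c .z (.l 11)) (.a .z (.c .z (.l 11)))) (.a .z (.b (.a .z (.l 11)) .z)))) (.b (.c (.b (.a (.c (.l 11) .z)
(.l 11)) .z) .z) .z)) .z) (.b (.a (.c (.l 11) (.b (.c (.l 11) (.a (.b (.l 11) .z) (.l 11))) (.c (.a .z (.b (.l 11) .z)) .z))) (.l 11)) (.a (.c (.b (.c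
(.a (.b (.l 11) .z) (.l 11)) (.a .z (.b (.l 11) .z))) .z) .z) (.c (.b (.l 11) (.a (.c (.l 11) .z) (.l 11))) (.b (.a (.c (.b (.l 11) .z) .z) (.c (.l
11) (.a .z (.l 11)))) (.a .z (.c (.a .z (.l 11)) .z))))))) (.a (.b (.c .z (.c (.a .z (.a (.c .z (.a .z (.l 12))) (.l 12))) (.a (.c (.b (.l 12) .z) .z)
(.a (.c (.l 12) (.b (.l 12) .z)) (.l 12))))) (.c .z (.b (.c (.a .z (.a .z (.l 12))) (.a .z (.a .z (.b (.l 12) .z)))) .z))) (.b (.a (.c (.b (.c (.a .z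
(.b (.l 11) .z)) .z) (.c .z (.a (.l 12) (.b .z (.l 12))))) (.b (.a (.l 12) (.c .z (.a (.l 12) .z))) (.a (.c (.l 12) (.b (.l 12) .z)) (.c (.a (.l 12)
.z) .z)))) (.c (.b (.a (.c (.l 11) (.b (.l 11) .z)) (.l 11)) (.a .z (.c (.l 11) (.a .z (.l 11))))) (.b (.a .z (.c (.a .z (.l 11)) .z)) .z))) (.a (.c
(.b (.a (.c .z (.a .z (.l 12))) (.c (.b .z (.l 12)) (.a (.l 12) .z))) (.a .z (.c (.a (.l 12) .z) .z))) (.a (.b (.c (.b (.l 12) .z) .z) .z) (.b .z (.c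
.z (.l 14))))) (.c (.a (.b .z (.c .z (.a .z (.l 13)))) (.b .z (.c .z (.a (.l 13) .z)))) (.a (.b (.c (.a .z (.l 13)) .z) .z) (.b (.c .z (.a .z (.l
13))) (.c (.l 13) .z)))))))) (.c (.a .z (.b (.a .z (.c (.b (.a .z (.c (.l 11) .z)) .z) .z)) .z)) (.a (.b .z (.c (.b .z (.c .z (.a .z (.a (.l 26)
.z)))) .z)) (.a (.b (.c .z (.a (.b (.c .z (.l 14)) (.c .z (.l 14))) (.c (.b .z (.l 14)) (.l 14)))) (.c .z (.c (.a .z (.l 14)) (.l 14)))) (.b (.c (.a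
.z (.c (.c .z (.b (.l 13) .z)) (.b (.l 13) (.a .z (.l 13))))) (.a (.c .z (.b .z (.l 14))) .z)) (.c .z (.a (.c (.c .z (.l 14)) (.l 14)) (.c .z (.a (.l
14) .z)))))))))))

theorem vQ134 : ev3 Q134 J3_0 J4_11 J4_13 = 147822075413074450263631 := by decide +kernel

noncomputable def Q146 : QT3 :=
(.c (.b (.c (.a (.c (.a (.b (.c (.c (.a (.l 19) (.b (.l 19) .z)) (.l 19)) (.l 19)) (.c (.a (.b (.c .z (.l 19)) .z) .z) (.b (.l 19) (.a (.l 19) .z))))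
(.c (.b (.a (.c .z (.b (.l 19) .z)) .z) .z) (.b (.b (.l 19) (.a (.l 19) .z)) .z))) (.b (.l 19) (.a (.l 19) (.c (.b (.a (.l 19) (.c .z (.l 19))) (.a
(.c .z (.l 19)) .z)) (.b (.l 19) (.a (.l 19) (.b (.l 19) .z))))))) (.b (.c .z (.a (.c (.b (.a (.l 19) (.c .z (.l 19))) (.a (.c .z (.l 19)) .z)) (.b
(.l 19) (.a (.l 19) (.c .z (.l 19))))) (.c .z (.a (.b (.c .z (.l 19)) .z) .z)))) (.c .z (.a (.c .z (.b (.a (.c .z (.l 19)) .z) .z)) .z)))) (.a (.b (.l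
19) (.c (.l 19) (.a (.l 19) (.b (.l 19) (.c (.l 19) (.a (.b (.l 19) .z) .z)))))) (.b (.c (.a (.l 19) (.b (.l 19) (.c (.a (.b (.l 19) .z) .z) (.a (.l
19) (.b (.l 19) .z))))) (.a (.b (.l 19) (.c (.l 19) (.a (.l 19) (.b (.l 19) .z)))) (.b (.c (.a (.l 19) (.b (.l 19) .z)) (.a (.b (.l 19) .z) .z)) (.c
(.a (.b (.l 19) .z) .z) .z)))) (.c (.a (.b (.c (.a (.l 19) (.b (.l 19) .z)) (.l 19)) (.c (.a (.b (.l 19) .z) .z) (.a (.l 19) .z))) (.b (.c .z (.a (.b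
(.l 19) .z) .z)) .z)) (.a (.b (.c (.a (.l 19) .z) .z) .z) (.b (.c .z (.a .z (.l 51))) .z)))))) (.c (.a (.b (.c (.a (.c .z (.b (.a (.c .z (.l 19)) .z)
.z)) .z) (.a (.b (.c (.a (.l 19) (.c .z (.l 19))) (.l 19)) (.c (.a (.b (.l 19) .z) .z) (.a (.l 19) (.b (.l 19) .z)))) (.b (.c .z (.a (.b (.l 19) .z)
.z)) .z))) .z) (.b .z (.c (.a .z (.b .z (.c .z (.a .z (.l 38))))) (.a (.b .z (.c .z (.a .z (.l 38)))) (.b (.c .z (.l 38)) (.l 38)))))) (.a (.b (.c (.a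
(.l 19) (.b (.c (.a (.l 19) (.b (.l 19) .z)) (.a (.l 19) (.b (.l 19) .z))) (.c .z (.a (.b (.l 19) .z) .z)))) (.a (.b (.c (.l 19) (.a (.l 19) (.b (.l
19) .z))) (.c (.a (.l 19) (.b (.l 19) .z)) .z)) (.b (.c (.a (.b (.l 19) .z) .z) .z) .z))) (.c (.a (.b (.c (.a (.l 19) .z) (.a (.l 19) .z)) .z) .z)
.z)) (.b (.c (.a .z (.b .z (.c (.a .z (.l 38)) .z))) .z) (.c (.a (.b (.c (.a .z (.l 38)) .z) (.c (.l 38) .z)) (.c (.l 38) (.c (.c (.l 38) .z) .z)))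
.z))))) (.b (.a (.c (.b (.c (.a (.l 19) (.b (.l 19) (.c (.l 19) (.a (.l 19) (.b (.l 19) .z))))) (.a (.b (.l 19) (.c (.l 19) (.a (.l 19) (.b (.l 19)
.z)))) (.b (.c (.a (.l 19) (.b (.l 19) .z)) (.a (.b (.l 19) .z) .z)) (.c (.a (.b (.l 19) .z) .z) .z)))) (.c (.a (.b (.l 19) (.c (.a (.l 19) (.b (.l
19) .z)) (.a (.b (.l 19) .z) .z))) (.b (.c (.a (.l 19) .z) .z) .z)) (.a (.b (.c (.a (.l 19) .z) .z) .z) (.b .z (.c .z (.a (.l 45) .z)))))) (.b (.a (.c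
(.b (.c (.a (.l 19) (.b (.l 19) .z)) (.a (.b (.l 19) .z) .z)) .z) .z) (.c (.b (.a .z (.c .z (.a .z (.c .z (.l 11))))) .z) (.c (.a .z (.b (.a (.b (.l
11) .z) (.l 11)) (.a .z (.b (.l 11) .z)))) (.b (.c (.a (.b (.l 11) .z) (.l 11)) (.b (.l 11) (.c (.l 11) .z))) (.c (.b (.a .z (.l 11)) .z) .z))))) (.a
(.c (.b .z (.c (.l 45) .z)) .z) (.c .z (.c .z (.b (.c .z (.b .z (.c .z (.l 7)))) (.c .z (.c (.a .z (.l 7)) (.l 7))))))))) (.c (.b (.a (.c (.b (.c (.a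
(.l 19) (.b (.l 19) .z)) (.a (.b (.l 19) .z) .z)) (.c (.a (.b (.l 19) .z) .z) .z)) (.b (.a .z (.c .z (.a .z (.c .z (.l 11))))) .z)) (.c (.b (.a .z (.c
.z (.a (.c .z (.l 11)) (.l 11)))) (.a .z (.c .z (.a .z (.c .z (.l 11)))))) (.a (.c (.b (.a .z (.l 11)) .z) (.b (.l 11) (.a (.c .z (.l 11)) (.l 11))))
(.l 11)))) (.a (.c (.b (.c .z (.a .z (.l 51))) (.c (.a .z (.l 51)) (.l 51))) .z) (.c (.a (.c (.l 51) (.a (.l 51) .z)) (.c (.a (.l 51) .z) .z)) (.a (.c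
.z (.b (.a .z (.c .z (.l 11))) .z)) (.c (.a (.b (.c .z (.l 11)) .z) (.b (.l 11) (.c .z (.l 11)))) (.a (.b (.l 11) (.c .z (.l 11))) (.l 11))))))) (.c
(.a (.b (.a (.c (.b (.a .z (.c .z (.l 11))) .z) (.b (.l 11) (.a .z (.c .z (.l 11))))) (.c (.b (.l 11) (.a .z (.l 11))) (.l 11))) (.a .z (.c .z (.b (.a
(.c .z (.l 11)) (.l 11)) .z)))) (.b (.l 11) (.a (.c (.b (.l 11) (.a .z (.l 11))) (.l 11)) (.l 11)))) (.b (.c (.l 11) (.b (.l 11) (.a (.c (.l 11) (.b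
(.c (.l 11) .z) .z)) (.l 11)))) (.c (.a (.b (.a (.a .z (.b (.l 11) .z)) (.l 11)) (.c (.a .z (.a .z (.l 11))) (.a .z (.b (.l 11) .z)))) (.l 11)) (.a
(.b (.c (.b (.a .z (.l 11)) .z) .z) (.c .z (.a (.l 7) (.b .z (.l 7))))) (.b (.c (.l 11) (.a .z (.l 11))) (.c (.a .z (.b (.l 11) .z)) .z)))))))) (.a
(.c (.b (.c (.a (.b (.c (.a (.b (.l 19) .z) .z) .z) .z) .z) (.a (.b (.c .z (.l 45)) (.c (.a (.l 45) .z) (.l 45))) (.c .z (.a (.a (.l 45) .z) .z))))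
(.c .z (.c (.b (.a (.a (.l 45) .z) .z) .z) .z))) (.c (.b (.c (.b (.c (.a (.l 45) .z) .z) .z) .z) .z) (.b (.c .z (.a (.c .z (.c .z (.a .z (.a .z (.l
7))))) (.c (.a .z (.c .z (.a .z (.l 7)))) (.a (.c (.a .z (.l 7)) (.l 7)) (.l 7))))) (.c .z (.a (.c .z (.a .z (.c .z (.l 7)))) (.c (.a .z (.c .z (.l
7))) (.l 7))))))) (.c (.a (.b (.b (.c (.c .z (.c (.l 51) .z)) .z) .z) .z) (.c (.a (.b (.b (.b (.l 51) .z) .z) .z) .z) (.a .z (.b (.c .z (.a .z (.b (.l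
11) .z))) .z)))) (.c (.b (.c (.a .z (.a .z (.a (.b (.l 11) .z) (.l 11)))) (.a .z (.b (.a (.a .z (.l 11)) (.l 11)) (.c (.a .z (.l 11)) (.a .z (.l
11)))))) (.c (.a .z (.b (.a .z (.a .z (.a .z (.l 11)))) .z)) (.a .z (.b (.c (.a .z (.a .z (.l 11))) (.a .z (.b (.l 11) .z))) .z)))) (.b (.c (.a .z (.b
(.c (.l 11) (.a .z (.b (.l 11) .z))) (.c (.a .z (.b (.l 11) .z)) .z))) (.a (.b (.c (.a (.c .z (.l 7)) (.b .z (.l 7))) (.l 7)) (.l 7)) (.b (.c .z (.a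
(.l 7) .z)) (.c (.a (.l 7) .z) (.l 7))))) (.c (.a (.c .z (.a (.c .z (.a .z (.l 7))) (.c (.a .z (.l 7)) (.l 7)))) (.b (.c .z (.a (.l 7) (.b .z (.l
7)))) (.c (.a (.c .z (.l 7)) (.b .z (.l 7))) (.l 7)))) (.l 7))))))))

theorem vQ146 : ev3 Q146 J4_4 J4_8 J3_5 = 159617759997998892965232 := by decide +kernel

noncomputable def Q149 : QT3 :=
(.c (.b (.c (.c (.b (.c (.b .z (.a (.a (.b .z (.l 32)) (.c .z (.l 32))) .z)) (.a (.b (.a (.b (.l 38) .z) .z) (.a .z (.b .z (.l 32)))) .z)) (.a (.b (.a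
(.l 32) (.b (.c .z (.l 32)) .z)) (.a (.b (.c (.l 32) .z) .z) .z)) .z)) (.b (.a (.b (.c (.a (.l 38) (.b (.l 38) .z)) (.l 38)) (.a (.b (.c .z (.l 38))
.z) .z)) (.b (.a (.c .z (.b (.l 38) .z)) .z) .z)) (.b (.a (.b (.a .z (.c (.l 32) .z)) (.a (.c (.l 32) .z) .z)) .z) .z))) (.c (.c (.b (.a (.b (.l 38)
(.b (.l 38) (.a (.l 38) .z))) (.b (.a (.l 38) .z) .z)) .z) (.c (.c (.b (.a (.b (.l 38) .z) .z) .z) .z) (.a (.a .z (.a (.a .z (.a .z (.l 11))) (.l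
11))) (.l 11)))) (.a (.a .z (.a (.a (.c .z (.a (.b (.c .z (.l 11)) .z) (.l 11))) (.l 11)) (.l 11))) (.l 11)))) (.a (.c .z (.c (.c .z (.c .z (.a (.l
55) (.a (.a .z (.a .z (.l 11))) (.l 11))))) (.b (.a (.a (.c (.l 55) .z) .z) (.a (.a .z (.a (.c (.c .z (.l 11)) (.l 11)) (.l 11))) (.l 11))) (.a (.c
(.a (.l 55) .z) .z) (.a (.a .z (.a (.c .z (.l 11)) (.l 11))) (.l 11)))))) (.c .z (.b (.a (.c (.c .z (.c .z (.l 11))) (.l 11)) (.c (.c .z (.c .z (.l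
11))) (.b (.l 11) (.a (.l 11) (.c (.l 11) (.b (.l 11) (.a (.l 11) .z))))))) (.a (.c (.c .z (.c .z (.l 11))) (.b (.l 11) (.a (.l 11) (.c (.l 11) (.b
(.l 11) (.a (.l 11) .z)))))) (.c (.b (.c .z (.c .z (.l 11))) (.a (.c .z (.c .z (.l 11))) .z)) (.b (.a (.c (.l 11) (.b (.l 11) (.a (.l 11) .z))) (.c
(.b (.a (.l 11) .z) .z) .z)) (.a (.c (.b (.a (.l 11) .z) .z) .z) .z)))))))) (.b (.a (.c (.c (.a (.a .z (.a .z (.c (.b (.a .z (.c .z (.l 11))) .z) (.b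
(.l 11) (.a .z (.b (.l 11) .z)))))) (.l 11)) (.b (.a (.a (.a .z (.c .z (.b (.a .z (.l 11)) .z))) (.a (.c (.a (.b (.l 11) .z) (.l 11)) (.l 11)) (.l
11))) (.l 11)) (.a (.c (.a .z (.a .z (.a (.b (.l 11) .z) (.l 11)))) (.b (.a .z (.a (.a .z (.l 11)) (.l 11))) (.a .z (.c (.a .z (.l 11)) .z)))) (.l
11)))) (.b (.c (.a (.c (.b (.a (.a .z (.l 11)) (.l 11)) (.a .z (.c (.l 11) (.b (.l 11) .z)))) (.b (.a .z (.c (.l 11) .z)) (.a (.c .z (.b .z (.l 7)))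
.z))) (.c (.l 11) (.a (.b (.l 11) (.c (.b (.l 11) .z) .z)) (.l 11)))) (.a (.c (.b (.a (.c (.b .z (.l 7)) (.l 7)) (.c .z (.a (.l 7) .z))) (.a (.l 7)
(.c (.a (.l 7) .z) (.l 7)))) (.l 7)) (.c (.a (.b .z (.c .z (.a (.l 7) .z))) (.b (.c (.l 11) .z) .z)) (.a (.b (.c (.a (.l 7) .z) (.l 7)) (.l 7)) (.b
(.c .z (.a (.l 7) .z)) (.c (.a (.l 7) .z) (.l 7))))))) (.a (.c (.c (.b (.a .z (.c (.b (.l 11) .z) .z)) (.a (.c .z (.c .z (.l 7))) .z)) (.a (.l 7) (.b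
(.c .z (.l 7)) (.l 7)))) (.l 7)) (.c (.c (.a (.b (.c (.l 11) (.a .z (.l 11))) (.c (.a .z (.l 11)) .z)) (.b (.l 11) (.c (.l 11) (.a .z (.l 11))))) (.a
(.b .z (.c .z (.a (.l 7) .z))) (.b (.c (.l 11) .z) .z))) (.b (.a (.c (.c (.a (.l 7) .z) (.l 7)) (.l 7)) (.c (.c .z (.a (.l 7) .z)) (.b (.l 7) (.a (.l
7) .z)))) (.a (.c (.l 7) (.b (.l 7) (.a (.l 7) .z))) (.c (.b (.c .z (.l 7)) (.a (.l 7) .z)) .z))))))) (.c (.b (.l 11) (.a (.l 11) (.c (.b (.l 11) (.a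
(.l 11) (.c (.l 11) (.b (.l 11) (.a (.l 11) .z))))) (.b (.a (.l 11) (.c (.l 11) (.b (.a (.l 11) .z) .z))) (.a (.c (.b (.l 11) (.a (.l 11) .z)) (.b (.a
(.l 11) .z) .z)) (.c (.b (.a (.l 11) .z) .z) .z)))))) (.b (.a (.c (.l 11) (.b (.c (.l 11) (.a (.c (.a .z (.l 11)) .z) (.l 11))) (.a (.c (.c (.l 11)
(.a .z (.l 11))) .z) (.c (.b (.l 11) (.a (.l 11) .z)) .z)))) (.c (.b (.a (.l 11) (.c (.l 11) (.b (.l 11) (.a (.l 11) .z)))) (.a (.c (.l 11) (.b (.l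
11) (.a (.l 11) .z))) (.c (.b (.a (.l 11) .z) .z) .z))) (.b (.a (.c (.b (.l 11) (.a (.l 11) .z)) (.b (.a (.l 11) .z) .z)) .z) .z))) (.a (.c (.b (.a
(.l 11) (.c (.l 11) (.b (.l 11) (.a (.l 11) .z)))) (.a (.c (.l 11) .z) (.c (.b (.a (.l 11) .z) .z) .z))) (.b (.a (.c (.b (.c (.l 11) .z) .z) .z) .z)
(.a .z (.c .z (.l 14))))) (.c (.b (.a (.c (.b (.a (.l 11) .z) .z) .z) .z) .z) (.b .z (.c (.c .z (.b .z (.l 14))) (.l 14)))))))) (.a (.c (.b (.c (.a .z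
(.a (.a (.a (.c .z (.b (.l 11) .z)) (.l 11)) (.l 11)) (.l 11))) (.a .z (.c (.b (.l 11) (.a (.c (.l 11) (.a .z (.l 11))) (.l 11))) (.a (.b (.c (.l 11)
.z) .z) (.b (.l 11) (.c (.l 11) (.a .z (.l 11)))))))) (.a (.c .z (.b (.c .z (.a (.c .z (.a .z (.l 7))) (.c (.a .z (.l 7)) (.l 7)))) (.a (.c .z (.c .z
(.l 7))) (.c (.c .z (.a .z (.l 7))) (.b (.l 7) (.a (.l 7) .z)))))) (.c (.b (.a (.a (.a .z (.c .z (.l 11))) (.l 11)) (.l 11)) (.a (.c (.a .z (.l 11))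
.z) (.c (.l 11) (.b (.l 11) (.a (.l 11) .z))))) (.b (.a (.c (.c (.a .z (.l 11)) .z) (.b .z (.a (.l 7) .z))) (.c (.b (.l 11) .z) .z)) .z)))) (.b (.a
(.c (.c (.a (.c (.b .z (.a .z (.l 7))) (.l 7)) (.b (.c (.a (.l 7) .z) (.l 7)) (.l 7))) (.l 7)) (.b (.a (.l 7) (.c (.l 7) (.b (.l 7) (.a (.l 7) .z))))
(.a (.c (.l 7) (.b (.l 7) (.a (.l 7) .z))) (.c (.b (.a (.l 7) .z) .z) .z)))) (.c (.b (.a (.c .z (.l 7)) (.c (.c (.a .z (.l 11)) .z) .z)) (.a (.c (.c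
(.a (.l 7) .z) (.l 7)) (.b (.a (.l 7) .z) .z)) .z)) (.b (.a (.c (.b (.l 7) (.a (.l 7) .z)) .z) .z) (.a (.c .z (.b .z (.l 14))) (.c (.b .z (.l 14)) (.l
14)))))) (.a (.c (.b (.a (.l 7) (.c (.l 7) (.b (.a (.l 7) .z) .z))) (.a (.c (.b (.l 7) (.a (.l 7) .z)) (.b (.a (.l 7) .z) .z)) (.c (.b (.a (.l 7) .z)
.z) .z))) (.b (.a (.c (.b (.a (.l 7) .z) .z) .z) (.c .z (.b .z (.l 14)))) (.a (.c .z (.b .z (.l 14))) (.c (.b .z (.l 14)) (.l 14))))) (.c (.b (.a (.c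
(.b (.a (.l 7) .z) .z) .z) (.c .z (.b .z (.l 14)))) (.a (.c .z (.b .z (.l 14))) (.l 14))) (.b (.a (.c (.b .z (.l 14)) (.l 14)) (.l 14)) (.l 14))))))
(.c (.b (.a (.c (.b (.l 11) (.a (.l 11) (.c (.l 11) (.b (.l 11) (.a (.l 11) .z))))) (.b (.a (.l 11) (.c (.b (.l 11) (.a (.l 11) .z)) (.b (.a (.l 11)
.z) .z))) (.a (.c (.b (.l 11) (.a (.l 11) .z)) (.b (.a (.l 11) .z) .z)) .z))) (.c (.b (.a (.c (.l 11) (.b (.l 11) (.a (.l 11) .z))) (.c (.b (.l 11)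
(.a (.l 11) .z)) .z)) (.a (.c (.b (.l 11) (.a (.l 11) .z)) .z) .z)) .z)) (.a (.c (.b (.a (.c (.l 11) (.b (.l 11) (.a (.l 11) .z))) (.c (.b (.l 11) (.a
(.l 11) .z)) .z)) (.a (.c (.b (.l 11) (.a (.l 11) .z)) .z) .z)) (.b .z (.a (.c .z (.c .z (.l 14))) (.c .z (.c .z (.l 14)))))) (.c .z (.c .z (.b .z (.c
(.b .z (.l 14)) (.l 14))))))) (.b (.a (.c (.b (.a (.c (.b (.a (.l 11) .z) .z) .z) .z) (.a (.c .z (.b .z (.l 14))) (.c .z (.c .z (.l 14))))) (.b (.a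
(.c (.b .z (.l 14)) (.l 14)) (.c (.c .z (.l 14)) (.l 14))) (.l 14))) (.c (.b .z (.c .z (.c (.b .z (.l 14)) (.l 14)))) (.l 14))) (.a (.c (.b (.a (.c
(.b .z (.l 14)) (.l 14)) (.c (.c .z (.l 14)) (.l 14))) (.l 14)) (.l 14)) (.c (.c (.b (.c (.b .z (.l 14)) (.l 14)) (.l 14)) (.l 14)) (.l 14))))))))

theorem vQ149 : ev3 Q149 J4_5 J4_9 J3_5 = 208733995635304847855105 := by decide +kernel

noncomputable def Q148 : QT3 :=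
(.c (.b (.c (.a (.b (.c .z (.a .z (.b .z (.c .z (.a .z (.l 38)))))) (.c .z (.a (.b (.c .z (.a .z (.l 38))) (.c .z (.b (.l 38) .z))) (.b (.c .z (.l
38)) .z)))) (.b (.c (.a .z (.b (.c .z (.l 38)) .z)) (.a (.b (.c (.a .z (.l 38)) (.l 38)) (.l 38)) (.b (.l 38) (.b (.l 38) (.c .z (.l 38)))))) (.c (.a
(.b .z (.c (.c .z (.l 32)) (.l 32))) (.b (.b (.c (.l 32) .z) (.l 32)) (.b (.l 32) (.c (.l 32) .z)))) (.b (.b (.a (.c .z (.l 38)) .z) .z) (.b (.a .z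
(.c (.l 32) .z)) .z))))) (.a (.b (.c (.a (.b .z (.c (.a .z (.l 38)) .z)) (.b (.c (.a .z (.l 38)) .z) (.c (.l 38) .z))) .z) (.c (.c (.b (.l 38) (.b (.a
(.l 38) .z) .z)) (.c (.c (.b (.l 38) .z) .z) .z)) (.c (.b .z (.c .z (.l 55))) (.b (.c .z (.l 55)) (.a .z (.l 55)))))) (.c (.c (.b (.l 38) (.b (.b (.l
38) .z) .z)) (.c (.c (.b (.l 38) .z) .z) .z)) (.a (.b .z (.c (.b .z (.l 55)) (.l 55))) (.c (.b .z (.b .z (.l 55))) (.a (.b .z (.l 55)) .z)))))) (.c .z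
(.c (.b (.a (.c .z (.b (.c .z (.l 55)) .z)) (.c .z (.c .z (.l 55)))) (.a .z (.c .z (.a .z (.c .z (.l 55)))))) (.a (.b (.c (.b (.a .z (.l 55)) .z) .z)
(.c (.b .z (.a (.b .z (.l 29)) .z)) (.a (.b .z (.b .z (.l 29))) .z))) (.b (.c (.l 55) (.a (.b (.l 55) .z) (.l 55))) (.a .z (.c (.b (.l 55) .z)
.z))))))) (.b (.c (.c (.b (.a (.c (.a .z (.b .z (.l 55))) .z) .z) (.a (.c (.b (.a .z (.l 55)) .z) (.b .z (.a (.c (.b .z (.l 23)) (.l 23)) (.c .z (.a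
(.l 23) .z))))) (.c (.a (.l 55) .z) .z))) (.a (.b (.c .z (.b .z (.a (.a .z (.b .z (.l 23))) (.c (.a (.l 23) .z) .z)))) (.c (.a (.b (.l 23) (.b (.l 23)
(.a .z (.l 23)))) (.b (.c .z (.a (.l 23) .z)) (.l 23))) (.b (.a (.l 23) (.a (.l 23) (.b .z (.l 23)))) (.a (.b (.l 23) .z) (.l 23))))) (.b .z (.c (.a
(.b .z (.c .z (.a (.l 23) .z))) .z) (.a (.b .z (.a (.a (.l 23) .z) .z)) .z))))) (.a (.c (.b .z (.b (.a (.b (.a (.b .z (.l 23)) (.c (.l 23) .z)) (.c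
(.l 23) (.a .z (.l 23)))) (.a (.c (.b .z (.l 23)) .z) .z)) (.a .z (.b (.a (.c (.l 23) .z) .z) (.a .z (.c (.l 23) .z)))))) (.c (.a .z (.c .z (.a .z (.c
.z (.a .z (.b .z (.l 7))))))) (.a (.c .z (.a .z (.c (.a .z (.a .z (.l 7))) (.l 7)))) (.c (.a (.c .z (.a .z (.l 7))) (.c (.a (.b .z (.l 7)) (.l 7)) (.l
7))) (.l 7))))) (.c (.b (.c .z (.a .z (.b .z (.a .z (.c .z (.l 7)))))) (.a .z (.c .z (.c (.a .z (.c .z (.a .z (.l 7)))) (.a (.c (.a .z (.l 7)) (.l 7))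
(.l 7)))))) (.c (.a (.c (.a .z (.b (.c .z (.a .z (.l 7))) (.c (.a .z (.l 7)) (.l 7)))) (.a (.c (.b .z (.a .z (.l 7))) (.l 7)) (.l 7))) (.l 7)) (.l
7))))) (.a (.c (.c (.b (.c (.b (.a (.c .z (.b (.l 23) .z)) .z) .z) (.a (.b (.b (.a .z (.l 23)) .z) .z) (.b (.c (.a (.l 23) .z) (.b (.l 23) .z)) .z)))
(.b .z (.a (.l 29) (.b .z (.a (.l 29) .z))))) (.b (.b (.a .z (.b (.c (.l 23) .z) .z)) (.a .z (.b .z (.c .z (.l 44))))) (.b (.a (.b .z (.a (.l 29) .z))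
(.b (.l 44) .z)) (.a (.l 29) (.b .z (.l 29)))))) (.c (.c (.b .z (.b .z (.a (.l 29) (.b .z (.l 29))))) (.a (.b .z (.b (.b .z (.l 29)) (.l 29))) .z))
(.c (.a (.c (.b .z (.b .z (.l 29))) .z) (.c (.a .z (.b .z (.a .z (.c .z (.l 7))))) (.a .z (.c (.a (.b .z (.l 7)) (.l 7)) (.l 7))))) (.a (.c .z (.a (.c
.z (.a .z (.a .z (.l 7)))) (.c (.a (.a .z (.l 7)) (.l 7)) (.l 7)))) (.c (.a (.c (.a .z (.l 7)) (.l 7)) (.l 7)) (.l 7)))))) (.c (.c (.b (.a (.c .z (.b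
.z (.a (.b (.l 23) .z) (.c .z (.l 23))))) .z) .z) (.b (.a (.c (.b (.a (.l 23) (.c .z (.l 23))) (.b (.a .z (.l 23)) .z)) (.b (.b (.a (.l 23) .z) .z)
.z)) (.c (.b .z (.a (.a (.l 23) .z) .z)) .z)) (.a (.b (.b .z (.a (.l 44) .z)) .z) .z))) (.b (.c (.c (.a .z (.a .z (.c .z (.a .z (.b .z (.l 7)))))) (.a
(.c .z (.a .z (.c .z (.a .z (.l 7))))) (.a (.c (.a .z (.c .z (.l 7))) (.l 7)) (.l 7)))) (.a (.c (.c (.a (.c .z (.a .z (.l 7))) (.l 7)) (.l 7)) (.l 7))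
(.l 7))) (.a (.c (.c .z (.a (.c .z (.a .z (.c .z (.l 7)))) (.c (.a .z (.c .z (.l 7))) (.l 7)))) (.l 7)) (.c (.c (.a (.c .z (.a .z (.b .z (.l 7)))) (.c
(.b .z (.a .z (.l 7))) (.l 7))) (.l 7)) (.b (.a (.l 7) (.c (.l 7) (.b (.l 7) .z))) (.a (.c (.l 7) (.b (.a (.l 7) .z) .z)) (.c (.b (.a (.l 7) .z) .z)
.z))))))))))

theorem vQ148 : ev3 Q148 J4_4 J4_9 J3_5 = 117061493865866665130151 := by decide +kernel

noncomputable def Q109 : QT3 :=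
(.a (.b (.c (.a (.c (.b (.c (.a (.b (.l 25) .z) (.b (.l 25) (.b (.l 25) (.c .z (.l 25))))) (.a (.b (.c (.l 25) (.a .z (.l 25))) .z) (.b (.l 25) (.c
(.l 25) (.a .z (.l 25)))))) .z) (.b (.c (.a .z (.b (.c (.l 25) (.a .z (.l 25))) .z)) .z) .z)) (.c (.b (.a (.l 25) (.a (.l 25) (.b (.a (.c (.l 25) .z)
.z) (.a (.l 25) (.c (.l 25) .z))))) (.a (.c (.b (.b (.c .z (.l 25)) .z) .z) (.b (.b (.l 25) (.b (.l 25) .z)) .z)) (.b (.l 25) (.b (.c (.a .z (.l 25))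
(.a .z (.l 25))) .z)))) (.b (.a (.c (.b (.l 25) (.a (.c (.l 25) .z) (.l 25))) (.b (.a (.c (.l 25) .z) (.l 25)) .z)) (.a (.b (.a (.b .z (.l 25)) .z)
(.l 25)) (.b (.a .z (.c .z (.l 19))) (.a (.b .z (.l 25)) .z)))) (.a (.c (.b (.a .z (.c (.l 25) .z)) .z) .z) (.c (.b (.l 25) (.a .z (.b (.l 25) .z)))
(.a .z (.b (.a (.l 25) .z) .z))))))) (.b (.a (.c (.a (.c .z (.c .z (.l 17))) (.c .z (.c .z (.l 17)))) (.l 17)) (.c (.a (.c .z (.b (.a (.c .z (.l 17))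
.z) (.c .z (.l 17)))) (.c (.a .z (.b (.a .z (.l 19)) .z)) .z)) (.a (.b (.a (.b (.a (.l 17) .z) (.l 17)) .z) (.l 17)) .z))) (.a (.c (.c .z (.c .z (.l
17))) (.l 17)) (.c (.a (.c .z (.c .z (.l 17))) (.c .z (.a (.c .z (.l 17)) (.b .z (.c .z (.l 17)))))) (.a (.l 17) (.b (.a (.l 17) (.a (.b .z (.l 17))
.z)) (.c (.l 17) (.a (.b (.l 17) .z) .z)))))))) (.c (.a (.c (.b .z (.b (.b .z (.l 79)) (.l 79))) (.b .z (.l 79))) .z) (.a (.b (.c (.c .z (.c .z (.l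
17))) (.b (.l 17) (.a (.l 17) (.c (.l 17) (.b (.l 17) (.a (.l 17) .z)))))) (.c (.b (.c (.l 79) (.c .z (.l 17))) (.c (.a (.l 79) .z) (.a (.c .z (.l
17)) .z))) (.b (.a (.c (.l 17) (.b (.l 17) .z)) (.c (.b (.a (.l 17) .z) .z) .z)) (.a (.c (.b (.c (.l 17) .z) .z) .z) .z)))) (.b (.c (.a (.c .z (.c .z
(.l 17))) (.b (.c .z (.c .z (.l 17))) .z)) (.a (.b (.c (.l 17) (.a (.l 17) (.b (.l 17) .z))) (.c (.a (.b (.l 17) .z) .z) .z)) (.b (.c (.a (.b (.l 17)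
.z) .z) .z) (.c .z (.a (.b .z (.l 18)) (.b (.l 18) .z)))))) (.c .z (.a .z (.b .z (.l 29)))))))) (.b (.c (.a (.a (.b (.a (.c (.b (.a .z (.l 19)) .z)
(.b (.l 19) (.a .z (.l 19)))) (.l 19)) (.a (.b (.a (.c (.b .z (.l 25)) .z) .z) (.a (.b (.l 25) (.c .z (.l 25))) (.b .z (.a (.l 25) .z)))) (.b (.a (.c
(.a .z (.l 19)) (.l 19)) (.l 19)) (.a .z (.l 19))))) (.b (.c (.b (.l 19) (.a (.l 19) (.c (.a (.l 19) .z) (.l 19)))) (.l 19)) (.b (.c (.a (.c (.a (.l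
19) .z) (.l 19)) .z) (.a (.l 19) (.b (.l 19) .z))) (.a (.b (.c .z (.a (.l 19) .z)) .z) .z)))) (.b (.c (.a (.b (.a (.c .z (.b (.l 19) .z)) .z) .z) .z)
(.a (.b (.a (.l 19) (.c (.b (.l 19) .z) (.l 19))) (.a (.b (.l 19) .z) .z)) .z)) .z)) (.a (.b (.c (.a (.c (.l 19) (.a (.b (.l 19) (.c (.l 19) .z)) (.l
19))) (.l 19)) (.a (.c (.a .z (.b (.l 19) .z)) (.a .z (.b .z (.c .z (.a (.l 6) .z))))) (.b (.c (.l 19) (.a (.c (.l 19) .z) (.b (.l 19) .z))) (.c (.a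
(.l 19) (.b (.l 19) .z)) .z)))) (.c (.a (.b (.c (.a .z (.l 19)) (.a .z (.c (.l 19) .z))) (.c (.a .z (.a .z (.l 19))) .z)) (.b (.c (.l 19) (.a (.l 19)
(.b (.l 19) .z))) (.c (.a (.b (.l 19) .z) .z) .z))) .z)) (.b (.c (.a (.b (.l 19) (.c (.a (.l 19) (.b (.l 19) .z)) (.a (.l 19) .z))) (.b (.c (.a (.b
(.l 19) .z) .z) (.a (.b (.l 19) .z) .z)) .z)) (.a (.b (.c (.a (.l 19) .z) .z) .z) .z)) (.c (.a .z (.b .z (.c (.a .z (.l 38)) .z))) .z)))) (.c .z (.a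
(.b (.c .z (.a .z (.c (.b .z (.b .z (.l 29))) (.b .z (.b .z (.l 29)))))) (.c (.a (.b .z (.c .z (.c .z (.l 29)))) (.c .z (.c .z (.l 29)))) (.l 29)))
(.b .z (.c (.c .z (.b .z (.a (.c .z (.l 29)) (.c .z (.l 29))))) (.b (.a (.l 29) (.c .z (.b .z (.l 29)))) (.l 29))))))))

theorem vQ109 : ev3 Q109 J3_1 J4_9 J4_10 = 143168897661799694254406 := by decide +kernel

noncomputable def Q198 : QT3 :=
(.c (.c (.a (.b (.c (.a .z (.b (.c .z (.c (.a .z (.c .z (.b (.l 23) .z))) (.a (.b (.l 23) .z) (.b (.b (.l 23) .z) .z)))) .z)) (.a (.b (.c (.c (.b (.a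
(.c .z (.l 23)) (.l 23)) .z) (.b (.b (.l 23) (.a (.l 23) .z)) .z)) .z) .z) (.b (.c (.b (.a (.b (.c (.l 23) .z) .z) .z) (.b .z (.c .z (.c .z (.l
24))))) .z) .z))) .z) (.b (.c (.a (.b (.c (.c (.a .z (.c .z (.b (.l 23) .z))) (.a (.c .z (.b (.l 23) .z)) (.b (.b (.l 23) .z) .z))) (.a (.b (.c (.b
(.l 23) .z) .z) .z) .z)) .z) (.b (.c (.a (.b (.c (.b (.l 23) .z) .z) .z) .z) .z) .z)) (.a (.b (.c .z (.a .z (.b (.c .z (.a .z (.l 17))) (.c .z (.l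
17))))) (.c .z (.a .z (.c .z (.b (.c .z (.l 17)) .z))))) (.b (.c (.a (.b .z (.c .z (.l 38))) (.b .z (.c (.l 38) .z))) (.c (.c (.b (.c .z (.l 17)) .z)
(.b (.l 17) (.c .z (.l 17)))) (.l 17))) (.c (.b (.a .z (.l 38)) .z) (.b (.c .z (.c (.a .z (.l 17)) (.l 17))) .z))))) .z)) (.a (.b (.a (.c (.b .z (.c
.z (.a .z (.b (.a .z (.c .z (.c .z (.l 11)))) (.a (.c .z (.c .z (.l 11))) (.c .z (.c .z (.l 11)))))))) (.b (.a (.c .z (.b .z (.a (.b .z (.c .z (.l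
11))) (.b (.c .z (.l 11)) (.c (.l 11) .z))))) (.c (.b .z (.a (.c .z (.b .z (.l 11))) (.c (.b .z (.l 11)) (.l 11)))) (.b (.a (.b .z (.c .z (.l 11)))
(.b (.c .z (.l 11)) (.l 11))) (.c (.l 11) (.b (.c (.l 11) .z) .z))))) (.a (.c (.b (.a .z (.c .z (.l 11))) (.a (.c (.b .z (.l 11)) (.b (.l 11) .z)) (.c
(.b (.l 11) .z) .z))) (.b (.a .z (.c (.b (.l 11) .z) .z)) (.c .z (.b (.c .z (.l 12)) (.c .z (.l 12)))))) (.c (.b (.c (.l 11) (.b (.l 11) (.c (.l 11)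
.z))) (.c (.b (.c (.l 11) .z) .z) .z)) (.b (.c .z (.b .z (.c .z (.l 12)))) (.c .z (.c .z (.l 12)))))))) (.c (.b .z (.c .z (.b (.c .z (.a (.c (.b .z
(.l 11)) (.l 11)) (.b (.c .z (.l 11)) .z))) (.c .z (.a (.b (.l 11) .z) .z))))) (.b (.a (.c (.b (.a (.c .z (.b .z (.l 11))) (.c .z (.l 11))) (.l 11))
(.b (.c (.l 11) (.b (.l 11) (.c (.l 11) .z))) (.c (.b (.c (.l 11) .z) .z) .z))) (.c (.b (.c (.c .z (.b .z (.l 11))) (.l 11)) (.c (.c (.b .z (.l 11))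
(.l 11)) (.b (.c (.l 11) .z) .z))) (.b (.c (.b (.l 11) (.c (.l 11) .z)) .z) .z))) (.c (.b (.c (.a (.b (.l 11) (.c (.l 11) .z)) (.b (.c (.l 11) .z)
.z)) .z) .z) (.b .z (.c .z (.c (.c .z (.a (.l 12) .z)) (.a (.a (.l 12) .z) .z)))))))) (.a (.c .z (.b (.c .z (.c .z (.c .z (.b (.a .z (.c (.l 12) .z))
.z)))) .z)) (.c .z (.b (.c .z (.c .z (.c .z (.b (.a (.l 12) .z) .z)))) (.c (.c (.b (.l 37) (.a (.l 37) .z)) (.a .z (.c (.l 37) .z))) .z))))) (.b (.a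
(.c (.b (.c (.a (.b .z (.c (.c (.l 17) .z) .z)) (.c (.l 17) .z)) .z) (.c (.b (.c (.c (.l 17) (.a .z (.l 17))) .z) .z) .z)) (.b (.c (.b (.c .z (.a (.b
(.c .z (.l 11)) (.c (.l 11) .z)) .z)) (.c (.a (.b (.c .z (.l 11)) .z) .z) .z)) (.b (.c (.a (.b (.c (.l 11) .z) .z) .z) .z) (.c (.a .z (.c (.l 26) .z))
.z))) (.c .z (.c (.c (.b (.c .z (.l 26)) .z) .z) .z)))) (.c (.b (.c (.b (.c (.l 17) (.c (.l 17) (.a .z (.l 17)))) (.c (.l 17) (.a (.c (.l 17) .z) (.b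
(.l 17) .z)))) .z) (.c (.b (.c (.a (.l 17) (.b (.l 17) .z)) .z) .z) (.b .z (.c (.a .z (.l 34)) .z)))) (.b (.c (.b .z (.c .z (.c .z (.c .z (.l 26)))))
(.b .z (.c (.c (.l 26) .z) .z))) (.c .z (.c (.c (.b (.l 26) .z) .z) .z))))) (.c (.b (.c .z (.a .z (.b (.a (.c (.l 34) .z) .z) .z))) .z) (.c (.c (.b
(.a (.b .z (.c .z (.l 37))) .z) (.a (.b (.a (.l 37) .z) .z) .z)) (.b (.c (.a (.b .z (.l 37)) .z) .z) (.a (.b (.a (.l 37) .z) .z) .z))) .z))))) (.a (.b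
(.a (.b (.c (.c (.a .z (.c (.b (.c (.b (.c (.l 11) .z) (.c (.l 11) .z)) .z) .z) .z)) .z) .z) (.c (.c (.c (.b .z (.c (.c (.a .z (.c (.l 12) .z)) .z)
.z)) .z) (.c (.b (.c .z (.b (.c .z (.l 19)) (.l 19))) (.c .z (.l 19))) (.c (.c (.c (.b (.l 19) .z) .z) .z) .z))) .z)) (.c (.b .z (.c .z (.c (.b (.c .z
(.b .z (.c (.l 19) .z))) (.c (.b .z (.c .z (.l 19))) (.c (.l 19) .z))) .z))) .z)) (.c (.c (.b (.c (.b .z (.c .z (.b .z (.c .z (.a (.l 14) .z))))) (.b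
.z (.c (.b (.c (.a (.l 14) .z) (.c (.l 14) .z)) (.c (.l 14) (.c (.l 14) .z))) .z))) (.c (.b (.c (.b .z (.c .z (.l 14))) (.l 14)) (.c (.c .z (.a (.l
14) (.c .z (.l 14)))) (.l 14))) (.c (.l 14) (.a (.c (.b .z (.c (.l 14) .z)) .z) .z)))) (.c (.b (.c (.a (.c (.c .z (.a (.l 20) .z)) (.a .z (.c .z (.l
19)))) (.c (.a .z (.c .z (.l 19))) (.l 19))) (.c (.b (.a (.l 19) (.c (.l 19) .z)) (.a (.c (.l 19) .z) .z)) .z)) (.c (.a .z (.c (.a .z (.c .z (.l 19)))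
(.b (.c (.l 19) .z) .z))) .z)) (.b .z (.c (.b .z (.c .z (.b .z (.a .z (.l 23))))) (.b (.c (.b .z (.a (.l 23) .z)) (.a .z (.c (.l 23) .z))) (.c (.l 23)
(.a .z (.c (.l 23) .z)))))))) .z)) (.b (.c (.b (.c (.a .z (.c (.c (.b (.a .z (.l 31)) .z) .z) .z)) .z) (.c .z (.c (.b .z (.c (.b .z (.a (.c .z (.l
19)) .z)) (.a (.c (.c (.l 19) .z) .z) .z))) (.b .z (.c (.a .z (.c .z (.c .z (.l 26)))) (.c (.c (.l 26) .z) .z)))))) .z) (.c (.c (.b (.c .z (.b .z (.c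
(.a (.b .z (.c (.l 14) .z)) .z) (.a .z (.b (.c .z (.l 19)) (.c .z (.l 19))))))) (.c (.b (.c .z (.a (.b (.c .z (.l 14)) (.l 14)) .z)) (.c .z (.a (.l
14) (.b (.c .z (.l 14)) .z)))) (.b (.c (.a (.c (.l 14) (.a (.l 14) .z)) .z) (.a (.c .z (.a .z (.l 19))) (.c (.a .z (.l 19)) (.l 19)))) (.c (.a (.c (.l
14) (.a (.l 14) .z)) .z) (.a (.c .z (.a .z (.l 19))) (.c (.l 19) (.c (.l 19) .z))))))) (.b (.c (.b (.c (.a (.l 19) (.b .z (.c (.l 19) .z))) .z) (.c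
(.c (.l 19) (.a (.c (.l 19) .z) .z)) .z)) (.c (.a .z (.c .z (.a (.c .z (.l 26)) (.c .z (.l 26))))) (.b (.a (.c (.a .z (.l 26)) .z) (.c (.l 26) .z))
(.c (.b (.a .z (.l 26)) (.a .z (.l 26))) .z)))) (.c (.c (.c (.b (.a (.l 19) .z) .z) .z) .z) .z))) .z))))

theorem vQ198 : ev3 Q198 J4_8 J4_11 J2_3 = 64015967125478129967087 := by decide +kernel

noncomputable def Q19 : QT3 :=
(.a (.c (.b (.c (.a (.a (.c (.l 58) (.b (.c (.l 58) (.c (.l 58) .z)) (.c (.c (.l 58) .z) .z))) (.a (.b (.c (.l 58) (.c (.l 58) .z)) (.c (.c (.l 58)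
.z) .z)) .z)) .z) .z) (.c (.b (.a (.a (.c (.l 58) .z) .z) .z) (.a (.c (.a (.a (.c (.l 58) .z) .z) .z) .z) .z)) (.b .z (.a (.c .z (.b .z (.c (.b .z (.a
(.l 28) .z)) (.b (.a (.l 28) .z) (.l 28))))) (.a .z (.c .z (.b (.a .z (.a .z (.l 38))) .z))))))) (.b (.c .z (.a (.b .z (.c (.b .z (.c .z (.b (.a (.l
28) .z) (.l 28)))) (.b (.c (.a (.b .z (.l 28)) .z) (.l 28)) (.l 28)))) (.b .z (.a (.c .z (.b .z (.c .z (.l 28)))) .z)))) (.c (.b (.a (.c (.b .z (.c .z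
(.b .z (.a (.l 28) .z)))) (.b (.c .z (.b .z (.a (.l 28) .z))) (.c (.b (.a (.l 28) .z) (.l 28)) (.l 28)))) .z) (.a (.c (.b (.c (.b .z (.a (.l 28) .z))
(.b (.a (.l 28) .z) (.l 28))) (.l 28)) (.l 28)) (.a (.c (.b .z (.a (.c .z (.l 28)) .z)) (.b (.c (.a (.l 28) .z) (.l 28)) (.l 28))) (.c (.a .z (.b (.a
.z (.l 38)) .z)) (.a (.b .z (.c .z (.l 28))) .z))))) (.a (.b (.c (.b (.c (.b (.a (.l 28) .z) (.l 28)) (.l 28)) (.l 28)) (.l 28)) (.l 28)) (.b (.a (.c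
(.b (.c .z (.a (.l 28) .z)) (.c (.a (.l 28) .z) (.l 28))) (.l 28)) (.c .z (.b (.a (.c .z (.l 28)) .z) (.a (.l 28) (.c .z (.l 28)))))) (.a (.l 28) (.c
(.a (.l 28) (.b .z (.c .z (.l 28)))) (.l 28)))))))) (.a (.c (.b .z (.c (.a (.b .z (.c (.a .z (.b .z (.c (.l 46) .z))) .z)) (.b .z (.a (.c (.b (.c (.l
46) .z) (.l 46)) (.b .z (.a .z (.l 46)))) (.c (.l 46) (.b (.a .z (.l 46)) (.l 46)))))) (.a (.b .z (.c .z (.a (.c .z (.a (.l 38) .z)) .z))) (.a .z (.b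
.z (.b .z (.c (.a .z (.l 46)) .z))))))) (.b (.c (.a .z (.c .z (.a (.b (.a (.l 30) (.b .z (.l 30))) .z) .z))) (.a (.b (.a .z (.a .z (.a (.c .z (.l 30))
(.l 30)))) .z) (.a (.b (.l 30) (.b (.c (.b (.l 30) .z) (.l 30)) .z)) (.a (.b (.b (.a (.l 30) .z) (.l 30)) (.b (.l 30) (.c .z (.l 30)))) .z)))) (.a (.c
(.c (.a (.b (.b .z (.a (.l 38) .z)) (.a (.l 38) (.a (.l 38) .z))) .z) (.b (.a (.b .z (.a (.l 38) .z)) .z) (.a (.b (.l 38) .z) .z))) (.b .z (.a (.c .z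
(.b .z (.l 28))) .z))) .z))) (.c (.b .z (.a (.c (.b .z (.a (.b (.a (.c (.l 46) .z) .z) (.a (.l 46) (.c (.l 46) .z))) .z)) (.b .z (.a (.b .z (.a (.b .z
(.l 46)) .z)) .z))) .z)) .z)))

theorem vQ19 : ev3 Q19 J2_0 J4_4 J4_8 = 129222459431680547228194 := by decide +kernel

noncomputable def Q112 : QT3 :=
(.b (.c (.a (.b (.c .z (.c (.c .z (.c .z (.l 29))) (.l 29))) (.c .z (.a (.b (.c .z (.b (.l 29) (.b (.b (.l 29) .z) .z))) .z) (.b (.c .z (.b (.l 29)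
(.b (.b (.l 29) .z) .z))) .z)))) (.b (.c .z (.c (.b (.c .z (.c .z (.l 29))) (.c .z (.c .z (.l 29)))) (.l 29))) (.c .z (.a (.b (.c .z (.b (.l 29) (.b
(.b (.l 29) .z) .z))) .z) (.b (.c .z (.b (.l 29) (.b (.b (.l 29) .z) .z))) .z))))) (.b (.c (.a (.c (.l 29) (.b (.l 29) (.a (.c (.l 29) (.b (.l 29) (.a
.z (.l 29)))) (.l 29)))) (.l 29)) (.a (.c (.b (.c (.l 29) (.a (.b (.l 29) .z) (.l 29))) (.a (.c .z (.b .z (.a (.l 15) .z))) (.c (.b (.l 29) (.a .z (.l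
29))) (.b (.a .z (.l 29)) .z)))) (.b (.a (.c .z (.b .z (.a (.l 15) (.c .z (.l 15))))) (.c (.b (.l 29) .z) .z)) (.a (.c (.b (.a (.l 15) (.c .z (.l
15))) (.l 15)) (.l 15)) (.c (.b .z (.a (.c .z (.l 15)) .z)) (.b (.a (.l 15) .z) (.l 15)))))) (.c (.b (.l 29) (.a (.c (.l 29) (.b (.l 29) (.a .z (.l
29)))) (.l 29))) (.b (.a (.c (.l 29) (.b (.l 29) (.a .z (.l 29)))) (.c (.l 29) (.a (.l 29) (.c (.l 29) .z)))) (.a (.c (.b (.a .z (.l 29)) .z) (.b .z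
(.a (.c .z (.l 15)) .z))) (.c (.l 29) (.b (.a (.l 29) .z) .z))))))) (.c (.a (.c (.b (.a (.c (.b (.l 29) .z) (.b (.l 29) .z)) (.b (.l 29) (.b (.b (.l
29) .z) .z))) .z) (.b (.a (.c (.b (.a .z (.l 29)) .z) .z) (.c (.b (.l 29) .z) (.b (.a .z (.l 29)) .z))) (.a (.c .z (.a (.l 41) .z)) .z))) (.c (.b (.b
(.l 29) (.b (.b (.l 29) .z) .z)) .z) (.b (.b (.l 29) (.b (.b (.l 29) .z) .z)) .z))) (.a (.c (.b (.a (.c (.b (.a (.c .z (.l 15)) .z) (.b (.b (.l 15)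
.z) (.l 41))) (.b (.l 15) (.b (.b (.l 15) .z) (.l 41)))) (.c .z (.b (.a (.c .z (.l 15)) .z) (.b (.b (.l 15) .z) (.l 41))))) (.a (.l 41) (.c .z (.b (.a
(.l 41) .z) .z)))) (.b (.b (.l 15) (.b (.b (.l 15) .z) (.l 41))) (.b (.a (.l 41) (.b (.l 41) (.c (.l 41) .z))) (.a (.c (.l 41) (.b (.l 41) .z)) .z))))
(.b (.c (.a (.c (.b (.a .z (.l 29)) .z) .z) (.c (.b (.l 29) .z) (.b (.l 29) .z))) (.a (.c .z (.b (.a (.l 15) (.c .z (.l 15))) (.b (.b (.l 15) .z) (.l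
41)))) (.b (.c (.a .z (.l 29)) .z) .z))) .z))))) (.c .z (.a (.b (.c (.a (.b (.c .z (.a (.c (.c .z (.l 41)) (.l 41)) (.c .z (.a (.l 41) .z)))) .z) .z)
(.b (.c (.b (.a (.c (.l 41) (.b (.l 41) .z)) .z) .z) .z) .z)) .z) .z)))

theorem vQ112 : ev3 Q112 J4_3 J3_5 J3_5 = 192398789276520537086993 := by decide +kernel

noncomputable def Q71 : QT3 :=
(.b (.b (.a (.c (.c (.c (.c (.c (.c (.a (.b .z (.a .z (.l 13))) (.b (.a .z (.l 13)) (.l 13))) .z) (.c (.a (.b (.l 15) .z) .z) (.l 15))) (.l 15)) (.c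
(.c (.c (.b (.a (.l 15) .z) .z) .z) .z) .z)) (.c (.a (.c .z (.a .z (.c (.l 23) .z))) (.c (.c .z (.b (.l 23) (.c .z (.l 23)))) (.c (.l 23) (.a (.c (.l
23) .z) (.c (.l 23) .z))))) .z)) .z) (.c (.c (.c (.c (.c (.c (.l 13) (.a (.b (.a .z (.l 13)) (.l 13)) (.l 13))) (.c (.a .z (.b (.a .z (.l 13)) (.l
13))) .z)) (.c (.a (.l 15) (.c .z (.b (.l 15) .z))) (.c (.l 15) (.b (.l 15) .z)))) (.c .z (.a .z (.c .z (.a .z (.b (.l 23) .z)))))) (.a (.c (.c (.c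
(.b (.c .z (.l 23)) .z) (.a (.l 23) (.b (.l 23) .z))) (.a (.c (.b (.l 23) .z) .z) .z)) .z) (.b (.c (.c (.a (.c (.l 23) .z) .z) .z) .z) .z))) .z)) (.a
(.c (.c (.c (.c (.c (.c (.l 13) (.a (.b .z (.a .z (.l 13))) (.l 13))) (.c (.a .z (.b .z (.a .z (.l 13)))) (.a (.b (.l 15) .z) .z))) (.c (.c (.a (.l
15) (.b (.l 15) .z)) (.l 15)) (.c (.l 15) .z))) (.c .z (.c (.b .z (.a .z (.c .z (.l 20)))) (.b (.a .z (.c .z (.l 20))) (.l 20))))) (.b (.c (.a (.c (.c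
(.l 20) .z) .z) (.c (.c (.c (.l 20) .z) .z) (.c (.a .z (.l 23)) .z))) .z) (.a (.c (.c (.a .z (.l 20)) .z) .z) (.b (.c (.c (.c (.l 20) .z) .z) .z) (.c
(.c (.c (.l 20) .z) .z) .z))))) .z) (.c (.c (.a (.b (.c (.c (.c (.l 13) (.c (.a .z (.l 13)) .z)) (.c (.c .z (.l 15)) (.c (.l 15) .z))) (.c .z (.c (.c
.z (.l 20)) (.a (.l 20) .z)))) (.c (.c (.c (.l 13) (.c (.l 13) (.a .z (.l 13)))) .z) (.b (.c .z (.l 20)) (.a (.c .z (.l 20)) .z)))) (.b (.c (.c (.c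
(.l 13) (.c (.l 13) (.a .z (.l 13)))) .z) .z) (.c (.a (.c (.l 13) .z) (.b (.c (.l 13) .z) (.c (.a (.l 13) .z) .z))) .z))) .z) .z))) (.b (.a (.c (.c
(.b (.a (.c (.c (.c (.l 13) (.c (.a .z (.l 13)) .z)) (.c (.c .z (.l 15)) .z)) (.c .z (.a (.c (.l 20) .z) (.l 20)))) (.c (.c (.c (.l 13) (.c (.l 13)
.z)) .z) (.b (.c .z (.l 20)) (.a (.c .z (.l 20)) .z)))) (.a (.c (.c (.c (.l 13) (.c (.l 13) .z)) .z) (.b (.c .z (.a .z (.l 20))) .z)) (.c (.b (.c (.l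
13) .z) (.a (.c (.l 13) .z) (.c (.b (.l 13) .z) .z))) .z))) (.b (.a .z (.b (.c (.a (.c (.l 20) .z) .z) .z) (.c (.a (.c (.l 20) .z) .z) .z))) (.a .z
(.b .z (.c .z (.c .z (.c (.l 23) .z))))))) .z) (.c (.c (.a (.b (.c (.b (.c (.l 13) .z) (.a (.c (.l 13) .z) (.c (.a (.l 13) .z) .z))) .z) (.c (.b (.a
(.c (.b (.l 13) .z) .z) .z) .z) .z)) (.b (.c (.a (.b (.c (.a (.l 13) .z) .z) .z) .z) .z) (.c (.a (.b .z (.c (.l 11) .z)) (.c (.l 11) .z)) (.c (.c (.c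
.z (.l 15)) (.c (.l 15) .z)) .z)))) (.a (.b .z (.c (.c (.c (.l 42) .z) .z) (.c (.c .z (.a (.l 23) .z)) .z))) (.c (.c (.c .z (.a .z (.b (.l 17) .z)))
(.c (.b (.l 17) (.a .z (.l 17))) .z)) .z))) (.c (.c (.c (.a .z (.c (.a .z (.l 27)) .z)) .z) .z) .z))) (.a (.c (.c (.b (.a (.c (.b (.a (.c (.l 13) .z)
(.c (.l 13) .z)) (.a (.c (.l 13) .z) (.c (.b (.l 13) .z) .z))) .z) (.c (.b (.a (.c (.b (.l 13) .z) .z) .z) .z) (.b .z (.c (.l 15) .z)))) (.a (.c (.b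
.z (.a .z (.c (.b .z (.l 11)) .z))) (.b (.a .z (.c (.l 15) .z)) (.c (.l 15) (.c (.l 15) .z)))) (.c (.b (.a (.c (.b .z (.l 11)) .z) (.c (.l 11) .z))
(.c (.l 11) .z)) (.c (.l 15) (.c (.c (.l 15) .z) .z))))) (.b (.a .z (.c .z (.c .z (.c (.a .z (.l 23)) .z)))) (.c (.c .z (.c (.c .z (.a (.l 19) .z))
(.c .z (.a .z (.l 24))))) .z))) .z) (.c (.c (.a (.b (.c (.b (.a .z (.c (.l 11) .z)) (.c (.l 11) .z)) (.c (.c (.c .z (.l 15)) (.l 15)) (.c .z (.l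
42)))) (.c (.c (.c (.l 11) (.c (.l 11) (.b (.l 11) .z))) (.c (.c .z (.l 16)) .z)) (.c (.c .z (.l 15)) (.c (.c (.l 15) .z) .z)))) (.c (.c (.c (.l 11)
(.c (.l 11) (.b (.l 11) .z))) (.c (.c .z (.b .z (.l 16))) (.c (.l 16) (.b .z (.l 16))))) (.c (.c .z (.b (.l 15) .z)) (.c (.b .z (.c (.l 15) .z))
.z)))) (.c .z (.c (.a (.b (.c .z (.l 23)) (.c .z (.a .z (.l 23)))) .z) (.a (.c (.a (.c (.l 23) .z) .z) .z) .z)))) (.c (.c (.c (.a .z (.c (.c (.l 27)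
.z) (.c .z (.l 32)))) .z) .z) .z)))))

theorem vQ71 : ev3 Q71 J4_2 J4_7 J3_7 = 51500107787425356952802 := by decide +kernel

noncomputable def Q159 : QT3 :=
(.b (.a (.b .z (.a (.c (.c (.b (.a (.c (.c .z (.c (.l 19) .z)) .z) .z) (.a (.c (.b (.c .z (.l 19)) (.a (.l 19) .z)) .z) .z)) .z) .z) (.c (.c (.b .z
(.a .z (.c (.c (.c (.a (.l 11) .z) .z) .z) .z))) (.b .z (.c .z (.c (.b .z (.c .z (.l 21))) .z)))) .z))) (.b (.a (.c (.c (.b (.a .z (.c .z (.b .z (.c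
(.l 15) .z)))) (.a (.c .z (.b .z (.c (.l 15) .z))) (.c .z (.c (.l 15) .z)))) .z) .z) (.c (.c (.b (.a (.c .z (.c (.c .z (.l 15)) (.c (.l 15) .z))) (.c
.z (.c (.l 15) (.c (.l 15) .z)))) (.c (.c .z (.c .z (.c .z (.l 15)))) (.c (.l 15) (.c (.l 15) .z)))) (.c (.c (.c .z (.b .z (.a .z (.l 21)))) .z) .z))
.z)) (.c (.c (.c (.c .z (.c (.b (.c .z (.b .z (.l 15))) (.l 15)) (.l 15))) (.c (.a (.c (.b (.l 15) .z) .z) (.c (.l 15) (.b (.l 15) (.a .z (.l 15)))))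
.z)) (.c (.b (.c (.a .z (.c .z (.l 21))) .z) (.c (.a .z (.c (.a .z (.l 21)) (.l 21))) .z)) (.b .z (.c (.b .z (.c .z (.a (.l 21) .z))) .z)))) (.c (.b
.z (.c (.c (.c (.c .z (.l 29)) .z) .z) .z)) .z)))) (.a (.b (.a (.c (.c .z (.b (.a (.b .z (.c .z (.c (.l 21) .z))) (.c .z (.c (.l 21) .z))) (.c .z (.c
(.l 21) .z)))) .z) (.c (.c (.c (.c (.a (.c (.c (.b (.l 11) .z) .z) .z) (.c (.a (.c (.l 11) .z) (.c (.l 11) .z)) .z)) .z) .z) (.c .z (.c (.c (.l 21)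
(.c (.l 21) (.b (.l 21) .z))) .z))) (.c (.c (.c (.c (.c .z (.l 29)) .z) .z) .z) .z))) (.c (.c (.c (.b (.c .z (.b .z (.c .z (.a (.b .z (.l 13)) .z))))
(.c (.b .z (.c .z (.a (.b .z (.l 13)) .z))) (.b (.c (.a (.b .z (.l 13)) .z) (.a (.l 13) (.b .z (.l 13)))) (.c (.a (.l 13) (.b .z (.l 13))) (.l 13)))))
(.b (.c (.b (.c .z (.a (.l 13) .z)) (.c (.a (.l 13) (.b .z (.l 13))) (.c (.l 13) (.a (.l 13) .z)))) .z) (.c (.c (.l 13) (.c (.a (.l 13) (.b (.l 13)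
.z)) .z)) .z))) (.c (.c (.c .z (.a .z (.b .z (.c .z (.l 21))))) (.c (.c (.b (.b .z (.l 21)) (.a (.l 21) .z)) .z) (.c (.b .z (.a .z (.l 21))) (.b (.a
.z (.l 21)) (.l 21))))) (.c (.c (.l 21) (.c (.b (.l 21) (.a (.l 21) .z)) .z)) (.c (.c .z (.a (.l 27) .z)) (.a (.c (.l 27) .z) .z))))) .z)) (.c (.c (.b
(.c (.c (.a (.c .z (.a (.a .z (.l 15)) (.l 15))) (.c (.a .z (.b .z (.c (.l 12) .z))) (.a (.b (.l 15) .z) .z))) (.a (.c (.b (.l 15) (.a .z (.l 15)))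
(.b (.a .z (.l 15)) .z)) (.a (.c (.l 15) (.b (.l 15) .z)) (.c (.b (.l 15) .z) (.l 15))))) (.b (.c (.a .z (.c (.a .z (.l 15)) .z)) .z) .z)) (.c (.b (.c
(.a .z (.c (.a (.c (.l 12) .z) (.l 12)) (.a .z (.a .z (.l 12))))) .z) (.c (.b (.a .z (.a (.c (.l 12) .z) (.l 12))) (.c (.a .z (.l 12)) (.a .z (.b (.l
12) .z)))) (.b .z (.a (.c .z (.l 13)) .z)))) (.b (.c .z (.b (.a (.c .z (.l 17)) .z) (.a (.c .z (.l 17)) (.c .z (.l 17))))) (.c (.a (.b (.c (.b .z (.l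
13)) .z) (.c (.c (.l 13) .z) .z)) .z) (.a (.c .z (.a .z (.l 17))) (.c (.a .z (.l 17)) (.l 17))))))) (.b (.c (.b (.c (.b (.c .z (.a .z (.l 21))) .z)
(.b .z (.c .z (.c .z (.l 21))))) (.c .z (.c .z (.c (.a .z (.l 21)) (.l 21))))) (.b (.c (.b (.c (.a (.l 21) .z) (.c (.l 21) .z)) (.c (.l 21) .z)) .z)
(.c (.c (.l 21) (.c (.a (.l 21) .z) .z)) .z))) (.c (.c (.c (.c (.b (.b .z (.l 17)) (.l 17)) (.b .z (.b .z (.l 17)))) .z) (.c (.c .z (.a .z (.b .z (.l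
21)))) (.l 21))) (.c (.c (.c (.l 21) (.a (.b (.l 21) .z) .z)) .z) (.c .z (.a .z (.c .z (.l 29)))))))) (.c (.c (.b (.c (.c (.c (.a .z (.l 29)) .z) .z)
.z) .z) .z) .z))))

theorem vQ159 : ev3 Q159 J4_5 J4_8 J3_7 = 41130835272974933442996 := by decide +kernel

noncomputable def Q201 : QT3 :=
(.a (.b (.c .z (.b (.c (.a .z (.c .z (.b .z (.c (.b .z (.a .z (.b .z (.l 44)))) .z)))) (.b (.c (.b .z (.a (.c .z (.b (.c .z (.a (.l 26) .z)) (.a (.c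
.z (.l 26)) (.c .z (.l 26))))) .z)) (.a (.b (.c (.b .z (.a (.c (.l 26) .z) (.c .z (.l 26)))) .z) (.c (.l 26) (.c (.a .z (.c (.l 26) .z)) .z))) (.b (.c
.z (.a (.b .z (.c (.l 26) .z)) .z)) (.c (.a (.b (.c .z (.l 26)) (.l 26)) .z) (.a (.c (.l 26) .z) (.b .z (.c (.l 26) .z))))))) (.c (.a (.b (.c (.a .z
(.b .z (.c .z (.l 26)))) (.c (.a (.c .z (.l 26)) (.l 26)) (.l 26))) (.c (.a .z (.c .z (.l 26))) (.l 26))) (.b (.c .z (.a (.b (.c .z (.l 26)) (.l 26))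
.z)) (.c (.a (.b (.c .z (.l 26)) (.b (.l 26) .z)) .z) (.a (.l 26) (.b (.c .z (.l 26)) (.b (.l 26) .z)))))) (.a (.c (.l 26) (.c (.a (.c (.b .z (.l 26))
.z) (.c (.l 26) (.b .z (.l 26)))) .z)) (.b (.c (.a (.l 26) (.b (.c .z (.l 26)) (.l 26))) (.c (.l 26) (.a (.c (.l 26) .z) .z))) (.c (.l 26) (.a (.l 26)
(.c (.l 26) (.a (.l 26) .z))))))))) (.c .z (.a (.b (.c (.c (.a .z (.b (.b (.b (.l 26) .z) .z) .z)) (.b (.b (.l 26) (.a (.b (.l 26) .z) .z)) .z)) (.c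
(.b (.b (.l 26) (.a (.l 26) .z)) .z) (.c (.b (.b (.l 26) (.a (.l 26) .z)) .z) (.a .z (.b (.b (.l 26) .z) .z))))) .z) (.b (.c .z (.a (.b (.b (.b (.l
26) (.c .z (.l 26))) .z) .z) .z)) .z))))) (.c .z (.a (.b (.c .z (.b (.c .z (.b .z (.a (.c .z (.b .z (.l 31))) (.c .z (.a (.l 31) .z))))) (.c .z (.b
(.a .z (.a (.b (.l 31) .z) .z)) .z)))) .z) .z))) (.b (.c .z (.a (.b (.c .z (.b .z (.c .z (.a (.b (.c (.c .z (.b .z (.l 26))) .z) (.c (.b (.l 26) .z)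
(.a (.c (.l 26) .z) .z))) .z)))) .z) (.b .z (.c .z (.a .z (.b (.a (.c (.b .z (.c .z (.b .z (.l 26)))) (.c (.b .z (.b .z (.l 26))) .z)) (.c (.b (.c .z
(.b .z (.l 26))) (.c .z (.l 26))) (.c (.b .z (.l 26)) .z))) (.c (.c (.c (.b .z (.a .z (.l 26))) (.a (.a .z (.l 26)) (.l 26))) (.b (.l 26) (.c (.b (.l
26) .z) .z))) (.c (.b (.c (.b (.l 26) .z) .z) .z) .z)))))))) .z))

theorem vQ201 : ev3 Q201 J3_4 J3_6 J3_6 = 34568449523543046197436 := by decide +kernel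

noncomputable def Q144 : QT3 :=
(.c .z (.a (.b (.c .z (.a (.b (.a .z (.b (.c (.c (.c (.b (.c .z (.l 29)) .z) .z) .z) .z) .z)) .z) .z)) .z) (.b (.c (.a .z (.b (.c .z (.b (.c (.a .z
(.b (.c .z (.c .z (.c .z (.l 26)))) .z)) .z) .z)) .z)) (.b (.a (.b (.c (.c .z (.b (.c (.c (.c (.l 41) .z) .z) .z) .z)) .z) .z) .z) .z)) .z)))

theorem vQ144 : ev3 Q144 J3_1 J3_7 J2_3 = 1192464838943263029144 := by decide +kernel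

end Pool.Agent.Helper64.SPW.Dat3
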