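import Pool.Agent.Helper64.SPW.Iv3

/-! Boxes of three traces, part 9 (data and kernel evaluation). -/

set_option maxRecDepth 1000000
set_option maxHeartbeats 0

namespace Pool.Agent.Helper64.SPW.Dat3

noncomputable def Q75 : QT3 :=
(.a (.b .z (.c (.b (.c (.a (.c (.c (.a (.b .z (.b (.b .z (.b .z (.l 14))) (.l 14))) (.b .z (.a (.c .z (.b .z (.l 14))) .z))) (.a (.b .z (.b (.b .z (.b
.z (.l 14))) (.l 14))) (.b .z (.a (.b .z (.l 14)) (.c .z (.b .z (.l 14))))))) (.b .z (.b (.b .z (.b .z (.l 14))) (.l 14)))) (.c (.a (.c (.b .z (.a (.c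
(.b .z (.l 18)) .z) (.c (.b .z (.l 18)) (.b .z (.l 18))))) .z) (.b .z (.c (.b (.b .z (.b .z (.l 18))) (.l 18)) (.a (.b .z (.c (.l 18) .z)) (.b .z (.l
18)))))) (.a (.b .z (.c (.a (.b .z (.l 14)) (.b .z (.c .z (.l 14)))) (.b (.b .z (.b .z (.l 14))) (.l 14)))) (.b .z (.c .z (.a (.b .z (.c .z (.l 14)))
.z)))))) (.a (.b (.c .z (.c .z (.b .z (.l 72)))) (.b (.b (.c .z (.l 72)) (.b .z (.l 14))) (.l 14))) (.b (.c .z (.c (.b .z (.c .z (.l 72))) (.b .z (.a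
(.l 72) .z)))) (.c (.b (.b .z (.b .z (.l 14))) (.l 14)) (.a (.b (.b (.l 72) (.b .z (.l 14))) (.l 14)) (.b (.c (.b .z (.b .z (.l 14))) .z) (.c (.a (.l
14) (.b (.l 14) .z)) (.a (.b (.l 14) .z) .z)))))))) (.c (.a (.c (.a (.c (.b (.a (.c (.b (.l 14) .z) (.l 14)) (.c .z (.b (.l 14) .z))) (.a (.c .z (.b
(.l 14) .z)) .z)) (.b (.l 14) (.a (.l 14) (.c (.b (.l 14) .z) (.l 14))))) (.c .z (.b (.a (.c (.b (.l 14) .z) (.l 14)) .z) .z))) (.a (.l 14) (.b (.l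
14) (.c (.a (.b (.l 14) (.c .z (.l 14))) .z) (.a (.l 14) (.b (.l 14) (.c .z (.l 14)))))))) (.b (.c (.a (.c (.a (.c (.l 18) .z) (.l 18)) .z) (.c (.l
18) (.a (.c (.l 18) (.a .z (.l 18))) (.l 18)))) (.a (.c (.a (.b (.c .z (.l 14)) .z) .z) (.a (.l 14) (.b (.c .z (.l 14)) .z))) (.c (.a .z (.a (.c (.l
18) .z) (.l 18))) .z))) (.c (.a (.c (.a (.a (.c (.l 18) .z) (.l 18)) (.l 18)) (.a .z (.a (.c (.l 18) .z) (.l 18)))) (.l 18)) (.a (.c .z (.a (.b (.c .z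
(.l 14)) .z) .z)) (.b (.c (.a (.a .z (.l 18)) (.l 18)) .z) (.c (.a (.a .z (.l 18)) .z) .z)))))) (.a (.b (.l 14) (.c (.l 14) (.a (.b (.l 14) (.c (.l
14) (.a (.l 14) (.b (.l 14) .z)))) (.b (.c (.l 14) (.a (.l 14) .z)) (.c (.a (.l 14) .z) .z))))) (.b (.c (.a (.l 14) (.b (.c (.a (.l 14) .z) (.a (.l
14) (.b (.l 14) .z))) (.c .z (.a (.b (.l 14) .z) .z)))) (.a (.b (.c (.l 14) (.a (.l 14) (.b (.l 14) .z))) (.c (.a (.l 14) .z) .z)) (.b (.c (.a (.b (.l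
14) .z) .z) .z) (.c .z (.a (.b .z (.l 19)) (.l 19)))))) (.c (.a (.b (.c (.a (.l 14) (.c .z (.l 14))) (.a (.l 14) .z)) (.c (.a (.a (.l 14) .z) .z) .z))
(.b .z (.c .z (.a (.b .z (.c (.l 10) .z)) (.c (.c .z (.l 10)) .z))))) (.a (.b (.c .z (.a .z (.b .z (.l 19)))) (.c (.a .z (.b .z (.l 19))) (.a (.b .z
(.l 19)) (.l 19)))) (.b (.c (.a (.b .z (.l 19)) (.l 19)) (.l 19)) (.l 19)))))))) (.b (.a (.c (.b .z (.c (.b (.b (.l 72) (.b .z (.l 14))) (.l 14)) (.a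
(.b (.b .z (.b .z (.l 14))) (.l 14)) (.b (.c (.b .z (.b .z (.l 14))) .z) (.c (.a (.l 14) (.b (.l 14) .z)) (.a (.b (.l 14) .z) .z)))))) (.b .z (.a (.c
(.b (.c (.b .z (.b .z (.l 14))) .z) (.c (.a (.l 14) (.b (.l 14) .z)) (.a (.b (.l 14) .z) .z))) (.b .z (.a .z (.c .z (.l 19))))) (.c (.b .z (.a .z (.c
.z (.l 19)))) (.b (.a .z (.b .z (.b .z (.l 19)))) (.l 19)))))) (.c (.b .z (.a (.c (.b (.c (.b .z (.b .z (.l 14))) .z) (.c (.a (.l 14) (.b (.l 14) .z))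
(.a (.b (.l 14) .z) .z))) (.b .z (.a .z (.c .z (.l 19))))) (.c (.b .z (.a .z (.c .z (.l 19)))) (.b (.a .z (.b .z (.b .z (.l 19)))) (.l 19))))) (.b .z
(.a (.c (.b (.a .z (.b .z (.b .z (.l 19)))) (.l 19)) (.b (.b .z (.b .z (.l 19))) (.l 19))) (.b (.b .z (.b .z (.l 19))) (.l 19)))))) (.a (.c (.b (.c
(.a (.l 14) (.b (.c (.l 14) (.a (.l 14) .z)) (.c (.a (.l 14) .z) .z))) (.a (.b (.c (.l 14) (.a (.l 14) .z)) (.c (.a (.l 14) .z) .z)) (.b (.c .z (.a .z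
(.b .z (.l 19)))) (.c (.a .z (.b .z (.l 19))) (.a (.b .z (.l 19)) (.l 19)))))) (.c (.a (.b (.c (.l 14) (.a (.b (.l 14) .z) .z)) (.c (.a (.b (.l 14)
.z) .z) .z)) (.b (.c .z (.a .z (.b .z (.l 19)))) (.c (.a .z (.b .z (.l 19))) (.a (.b .z (.l 19)) (.l 19))))) (.a (.b (.c .z (.a .z (.b .z (.l 19))))
(.c (.a .z (.l 19)) (.l 19))) (.b (.c (.a (.b .z (.l 19)) (.l 19)) (.l 19)) (.l 19))))) (.b (.a (.c (.b (.c .z (.a .z (.b .z (.l 19)))) (.c (.a .z (.b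
.z (.l 19))) (.a (.b .z (.l 19)) (.l 19)))) (.b (.a (.c (.b .z (.l 19)) (.c (.l 19) .z)) (.l 19)) (.c (.l 19) (.c (.l 19) (.c (.l 19) .z))))) (.c (.b
(.a (.c (.b .z (.l 19)) (.l 19)) (.l 19)) (.l 19)) (.l 19))) (.a (.c (.b (.c (.a (.b .z (.l 19)) (.l 19)) (.l 19)) (.l 19)) (.c (.l 19) (.c (.l 19)
(.a (.c (.l 19) .z) (.l 19))))) (.l 19)))) (.c (.b (.a (.c (.b (.c .z (.a .z (.b .z (.l 19)))) (.c (.a .z (.b .z (.l 19))) (.a (.b .z (.l 19)) (.l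
19)))) (.b (.a (.c (.b .z (.l 19)) (.l 19)) (.l 19)) (.l 19))) (.c (.b (.a (.c .z (.l 19)) (.l 19)) (.l 19)) (.l 19))) (.a (.c (.b (.c (.a (.b .z (.l
19)) (.l 19)) (.l 19)) (.l 19)) (.l 19)) (.l 19))) (.l 19)))))) (.b .z (.c (.a (.b (.c (.a (.b .z (.c (.b (.b .z (.b .z (.l 18))) (.l 18)) (.c (.a (.b
.z (.l 18)) (.b .z (.l 18))) (.a .z (.b .z (.l 18)))))) (.b .z (.c (.a (.b .z (.a (.l 18) .z)) .z) (.a (.b .z (.c (.a (.l 18) .z) .z)) .z)))) (.a (.b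
.z (.c (.b .z (.c .z (.a (.b (.l 14) .z) .z))) (.b .z (.a .z (.c .z (.l 19)))))) (.b .z (.c .z (.a (.b .z (.a (.l 19) .z)) .z))))) (.c (.b (.c (.a (.l
18) (.c (.b (.a (.a (.l 18) .z) .z) (.a (.a (.l 18) .z) .z)) (.b (.a (.a (.l 18) .z) .z) .z))) (.a (.b (.c (.l 18) (.a (.c (.l 18) .z) (.b (.l 18)
.z))) (.c (.a (.l 18) (.b (.l 18) .z)) (.a (.b (.l 18) .z) .z))) (.b .z (.c .z (.a .z (.l 29)))))) (.c (.a (.b (.c (.l 18) (.a (.l 18) (.b (.l 18)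
.z))) (.c (.a (.l 18) (.b (.l 18) .z)) (.a (.b (.l 18) .z) .z))) (.b .z (.c .z (.a .z (.l 29))))) (.a (.b (.c (.a (.b (.l 18) .z) .z) .z) (.c .z (.a
.z (.l 31)))) (.b (.c (.a .z (.l 29)) (.a .z (.l 29))) (.a (.a (.l 31) .z) (.l 29)))))) (.b (.a (.c (.b .z (.c .z (.a .z (.c .z (.l 19))))) (.b (.a
(.c .z (.l 19)) (.l 19)) (.l 19))) (.c (.b (.a .z (.c (.l 29) .z)) (.c (.a .z (.l 29)) .z)) (.a (.a (.l 19) .z) .z))) (.a (.c (.b (.c (.a .z (.l 31))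
(.c .z (.c .z (.l 19)))) (.c (.l 31) (.c (.c .z (.a (.l 10) .z)) (.c .z (.l 19))))) (.l 19)) (.c (.c (.c (.a .z (.l 29)) .z) .z) (.a (.a (.l 19) .z)
.z)))))) (.b .z (.c (.a (.b (.c .z (.a (.b .z (.c .z (.l 29))) .z)) (.c (.b (.c .z (.c .z (.l 29))) (.c .z (.l 29))) (.c (.l 29) (.c (.l 29) (.a (.l
29) .z))))) (.b .z (.c (.a (.b .z (.l 29)) .z) (.a (.b .z (.c (.l 29) .z)) .z)))) .z))) (.a (.b (.c (.a (.b .z (.c (.b (.a .z (.b .z (.b .z (.l 19))))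
(.l 19)) (.b (.b .z (.b .z (.l 19))) (.l 19)))) (.b .z (.c (.a (.b .z (.a (.l 19) .z)) .z) (.a (.b .z (.a (.l 19) .z)) .z)))) (.a (.b .z (.b (.b .z
(.b .z (.l 19))) (.l 19))) (.b .z (.c (.a (.b .z (.a (.l 19) .z)) .z) (.a (.b .z (.a (.l 19) .z)) .z))))) (.a (.l 19) (.a (.a (.l 19) .z) .z))) .z))))

theorem vQ75 : ev3 Q75 J3_2 J3_2 J3_5 = 331286526168715878770305 := by decide +kernel

noncomputable def Q119 : QT3 :=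
(.a (.c (.b (.c (.c (.c (.c (.b (.c (.l 11) (.b (.l 11) (.a (.l 11) (.a (.l 11) (.b (.l 11) .z))))) (.c (.b (.l 11) (.a (.l 11) (.a (.b (.l 11) .z)
.z))) (.b (.a (.b (.l 11) (.a (.l 11) .z)) .z) .z))) (.b (.c (.b (.a (.l 11) (.a (.l 11) (.b (.l 11) .z))) (.a (.b (.l 11) (.a (.l 11) .z)) .z)) (.b
(.a (.b (.a (.l 11) .z) .z) .z) .z)) (.c (.b .z (.a .z (.a .z (.l 16)))) (.b (.a .z (.l 16)) (.a .z (.l 16)))))) (.a (.c (.b (.a .z (.c (.b .z (.l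
16)) (.l 16))) (.a .z (.a .z (.b (.l 16) .z)))) (.b (.a .z (.c (.b .z (.l 16)) .z)) (.a .z (.l 16)))) (.b (.c (.c (.b (.a .z (.l 16)) (.l 16)) (.l
16)) (.a (.b (.c (.l 16) .z) (.l 16)) (.l 16))) (.l 16)))) (.c (.a (.b (.c (.a (.b (.l 15) (.c .z (.l 15))) .z) (.a (.l 15) (.b (.l 15) (.c .z (.l
15))))) (.c (.a .z (.b .z (.c (.l 16) .z))) (.a (.b (.l 15) .z) .z))) (.b (.c (.a (.b .z (.c (.l 16) .z)) (.b (.c (.l 16) .z) (.l 16))) (.a (.b (.c .z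
(.l 15)) .z) .z)) (.c (.l 16) (.a (.b .z (.c (.l 16) .z)) (.b (.c (.l 16) .z) (.l 16)))))) (.a (.b (.c (.l 15) (.b (.c (.l 15) .z) (.c (.a .z (.l 15))
.z))) (.c (.a .z (.b (.c (.l 15) .z) .z)) (.b .z (.a .z (.c .z (.l 19)))))) (.b (.c (.a (.l 15) (.b (.c .z (.l 15)) .z)) (.b (.c (.b .z (.l 15)) .z)
(.l 15))) (.c (.a .z (.b .z (.c (.l 16) .z))) .z))))) (.a (.c (.c (.b (.c (.b .z (.a (.c .z (.l 19)) .z)) (.b (.c .z (.a (.l 19) .z)) (.l 19))) (.c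
(.b (.a (.l 19) (.c .z (.l 19))) (.l 19)) (.c (.l 19) (.b (.l 19) .z)))) (.c (.b (.c (.b (.l 19) (.b (.l 19) .z)) .z) (.c .z (.b .z (.a .z (.l 24)))))
(.b (.c (.b .z (.l 24)) (.l 24)) (.a (.b (.a .z (.l 24)) .z) (.l 24))))) (.b (.c (.a .z (.b (.c (.c (.l 24) .z) .z) (.c (.c (.l 24) .z) .z))) (.a (.b
.z (.c .z (.l 32))) .z)) (.c (.b (.c (.c (.l 24) (.a .z (.l 24))) .z) (.a (.c (.l 24) .z) (.c (.b (.l 24) .z) .z))) .z))) (.c (.a (.c (.b .z (.c (.b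
.z (.l 19)) (.c (.l 19) .z))) (.b (.c .z (.b (.a (.l 24) .z) (.l 24))) (.b (.c (.c .z (.l 24)) (.l 24)) (.c (.c .z (.l 24)) (.b (.l 24) .z))))) (.c
(.b .z (.c .z (.b .z (.c (.l 19) .z)))) (.b .z (.a (.b (.c .z (.l 24)) .z) .z)))) (.b (.a (.c (.b .z (.a (.c (.l 24) .z) .z)) .z) (.c .z (.a .z (.c .z
(.l 27))))) (.a (.c (.b (.c (.b (.l 24) .z) .z) .z) .z) .z))))) (.c (.c (.c (.c (.b (.c (.b (.a (.b (.a (.l 11) .z) .z) .z) .z) .z) (.a .z (.a (.a (.l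
30) .z) (.a .z (.a .z (.l 16)))))) (.a .z (.a .z (.a (.b (.l 16) (.a .z (.l 16))) (.l 16))))) (.a (.a .z (.b (.c .z (.a .z (.b (.l 16) .z))) .z)) (.a
(.b (.c (.a (.b (.l 16) .z) (.l 16)) (.l 16)) (.a .z (.c .z (.l 16)))) (.l 16)))) (.c (.a (.b (.c (.a .z (.a (.b (.l 16) .z) (.l 16))) (.a .z (.b (.c
(.l 16) .z) (.l 16)))) (.a .z (.a .z (.c .z (.l 16))))) (.b (.l 16) (.b (.l 16) (.a (.l 16) (.c (.l 16) (.b (.l 16) .z)))))) (.a (.b (.c .z (.a .z (.b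
(.c .z (.l 19)) .z))) (.c (.a .z (.b (.c (.l 16) .z) (.l 16))) (.a .z (.b .z (.c (.l 16) .z))))) (.b (.a (.c (.b .z (.l 16)) .z) (.c (.l 16) (.b .z
(.b (.l 16) .z)))) (.a (.c (.b (.l 16) (.b (.l 16) .z)) .z) (.b (.c (.b (.l 16) .z) .z) .z)))))) (.a (.b (.c (.c (.c (.a (.c (.a .z (.l 19)) (.l 19))
(.l 19)) (.c (.b (.l 19) .z) .z)) (.b (.c .z (.a .z (.b (.l 24) .z))) .z)) (.c (.b (.a (.c (.b (.l 24) .z) .z) .z) (.a .z (.c (.b .z (.l 25)) (.b (.l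
25) .z)))) .z)) (.c .z (.a .z (.b .z (.a .z (.c (.c (.l 25) .z) .z)))))) (.c (.c (.b (.a (.c (.b (.a (.l 19) .z) .z) .z) .z) (.a .z (.c .z (.b .z (.a
.z (.l 26)))))) .z) (.a (.b (.c (.b .z (.c (.c .z (.l 25)) .z)) .z) (.c (.b (.c .z (.b .z (.l 25))) (.c (.l 25) .z)) .z)) (.b .z (.c (.b (.c .z (.b .z
(.l 25))) (.c (.a (.l 25) .z) (.c (.l 25) .z))) .z))))))) (.b (.a .z (.c (.b (.c (.a .z (.c (.c (.c (.l 27) .z) .z) .z)) .z) .z) .z)) .z)) (.c (.c (.a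
(.c (.c (.b (.c (.b (.c (.b (.l 11) (.a (.l 11) (.b (.l 11) .z))) (.b (.a (.l 11) (.b (.l 11) .z)) .z)) .z) (.b (.c .z (.b .z (.a (.l 16) .z))) (.a
(.a (.l 16) (.c .z (.l 16))) .z))) (.c (.b (.c .z (.a (.a (.l 16) .z) .z)) (.a (.a (.l 16) .z) .z)) (.a (.l 16) (.a (.c .z (.a (.l 16) .z)) .z)))) (.b
(.a (.l 16) (.c (.a (.c (.a (.l 16) .z) (.l 16)) .z) (.l 16))) (.b (.a (.l 16) (.c (.a (.l 16) .z) (.l 16))) (.b (.a (.l 16) (.c (.a (.l 16) .z) (.l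
16))) (.a (.l 16) (.c (.a (.l 16) .z) .z)))))) (.a (.b (.c (.b (.c (.l 16) (.b (.c (.l 16) .z) (.l 16))) (.l 16)) (.b .z (.c (.b (.a .z (.l 16)) (.l
16)) (.b .z (.a .z (.l 16)))))) (.b (.c (.l 16) (.b (.c (.l 16) (.a (.l 16) .z)) (.c (.b (.l 16) .z) .z))) (.c (.b (.c (.l 16) (.b (.l 16) .z)) .z)
(.b .z (.c .z (.c (.l 21) .z)))))) (.b (.c (.l 16) (.a (.b (.c (.b .z (.l 16)) .z) (.c (.l 16) (.b .z (.l 16)))) (.b .z (.c (.l 16) .z)))) (.b (.c (.b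
(.l 16) (.c (.l 16) (.a (.l 16) .z))) (.b (.c (.a (.l 16) .z) .z) .z)) (.c (.b .z (.c .z (.a .z (.l 17)))) .z))))) (.c (.a (.c (.b (.c (.b (.c (.b (.l
11) .z) .z) .z) .z) .z) (.b (.c .z (.a (.c .z (.a (.l 16) .z)) .z)) (.b (.c .z (.a (.c .z (.l 16)) .z)) .z))) (.c .z (.a (.c .z (.b .z (.b .z (.b .z
(.l 17))))) (.c .z (.b (.a .z (.c .z (.l 15))) .z))))) (.a (.c (.b (.a (.c (.l 16) (.b .z (.a (.l 16) .z))) (.c (.b .z (.a (.l 16) .z)) .z)) (.a (.b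
(.b (.c (.l 16) .z) .z) (.b .z (.c .z (.l 17)))) (.c (.b .z (.b .z (.l 17))) (.b .z (.l 17))))) (.b (.a (.c .z (.b (.a .z (.l 17)) .z)) (.c (.b (.l
17) .z) (.l 17))) (.a (.b .z (.c (.b (.l 17) .z) .z)) (.c .z (.b (.a .z (.l 17)) .z))))) (.c (.a (.b (.c .z (.b (.l 17) (.a .z (.l 17)))) .z) (.b (.c
(.a .z (.c (.l 15) .z)) (.c (.b (.l 17) .z) (.l 17))) (.c (.a .z (.b (.l 15) .z)) .z))) (.b (.l 17) (.a (.c (.b (.a .z (.l 17)) .z) (.b (.l 17) .z))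
(.c (.l 17) (.b (.l 17) .z)))))))) (.a (.c (.b (.a .z (.c (.b (.a (.c .z (.b (.l 17) .z)) (.c (.b (.l 17) .z) (.c (.l 17) .z))) .z) (.b .z (.a (.c .z
(.l 22)) (.c .z (.b .z (.l 22))))))) (.a (.c (.b .z (.c .z (.l 26))) (.b .z (.b (.c (.a .z (.l 26)) .z) (.c (.l 26) .z)))) (.c (.a (.b .z (.c .z (.c
.z (.l 26)))) .z) (.b (.a .z (.c .z (.l 22))) (.a (.c (.a (.l 26) .z) .z) .z))))) (.b (.a (.b (.c (.c .z (.a (.c .z (.l 24)) .z)) (.c .z (.l 27))) (.c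
.z (.c (.c .z (.l 27)) (.l 27)))) (.c (.b (.c (.b .z (.l 22)) (.c (.a .z (.l 22)) .z)) (.c (.c (.l 22) (.a .z (.l 22))) .z)) (.c (.c .z (.l 27)) (.c
(.l 27) (.b (.l 27) .z))))) (.a .z (.b (.c (.a .z (.c (.c (.l 22) .z) .z)) (.c (.l 27) .z)) .z)))) (.c (.a (.b (.c (.a (.b (.c (.l 17) (.c (.l 17)
.z)) (.c (.a .z (.l 17)) .z)) (.c (.b (.l 17) (.c (.l 17) .z)) (.b (.c (.l 17) .z) .z))) (.b .z (.c .z (.b .z (.a (.l 22) .z))))) (.c .z (.a (.b (.c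
.z (.l 22)) (.c .z (.l 22))) .z))) (.b (.c (.c (.b (.l 17) (.c (.l 17) (.b (.l 17) .z))) (.b (.c (.b (.l 17) .z) .z) .z)) .z) (.c .z (.b .z (.c .z (.a
(.c (.l 25) .z) (.l 25))))))) (.b (.c (.b (.a (.c .z (.b .z (.c (.l 22) .z))) .z) (.a (.c (.b (.a (.l 22) .z) (.l 22)) .z) .z)) (.b (.a (.c (.c .z (.l
27)) (.l 27)) (.c .z (.c (.l 27) .z))) (.c (.l 27) (.c (.l 27) .z)))) (.c (.a (.c (.b (.c (.l 22) .z) .z) (.b (.c .z (.l 27)) .z)) (.b .z (.c (.a .z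
(.c (.l 25) .z)) .z))) (.a (.c (.c (.l 27) (.b (.l 27) .z)) .z) (.a (.c (.c (.l 27) .z) .z) (.b (.c (.l 27) .z) .z)))))))) (.a (.b (.c (.c (.c (.c (.b
.z (.a .z (.c .z (.l 32)))) (.b (.c (.l 32) .z) .z)) .z) .z) .z) (.a .z (.c (.c (.c (.b .z (.c .z (.c .z (.l 37)))) .z) .z) .z))) .z)))

theorem vQ119 : ev3 Q119 J3_1 J4_8 J3_7 = 148634978179928414042810 := by decide +kernel

noncomputable def Q33 : QT3 :=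
(.a (.b (.c (.c (.a (.b (.c (.b (.a .z (.a .z (.l 32))) (.a .z (.c (.l 32) .z))) .z) (.c .z (.b (.a .z (.c .z (.b .z (.l 26)))) (.a .z (.c (.l 26) (.a
.z (.l 26))))))) (.b (.a (.c (.b (.a (.l 32) .z) .z) (.b .z (.a .z (.c .z (.l 26))))) (.c (.b .z (.a .z (.c .z (.l 26)))) (.b (.a .z (.c .z (.l 26)))
(.l 26)))) (.a (.c (.b (.a .z (.c .z (.l 26))) (.a (.c .z (.l 26)) (.l 26))) (.l 26)) (.l 26)))) (.a (.b (.c .z (.b .z (.a .z (.a .z (.a .z (.l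
18)))))) (.c (.b .z (.a .z (.c .z (.a (.l 18) .z)))) (.a .z (.a (.b .z (.l 18)) (.l 18))))) (.b (.a (.c (.b (.a .z (.c .z (.l 26))) (.c (.l 26) (.a .z
(.l 26)))) (.c .z (.a (.b .z (.l 18)) (.c .z (.l 18))))) (.c (.l 26) (.c (.a (.c (.l 26) .z) (.l 26)) .z))) (.c (.a (.c (.a (.c (.l 26) .z) (.l 26))
(.a .z (.c (.l 26) .z))) (.l 26)) (.a (.c (.a (.c .z (.l 18)) .z) (.l 18)) (.c (.a .z (.l 26)) (.a (.c .z (.l 18)) .z))))))) (.a (.b .z (.a .z (.a .z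
(.b .z (.c (.c (.l 18) (.c (.l 18) .z)) (.a .z (.l 34))))))) (.c (.c (.a (.b (.a (.b .z (.a .z (.l 18))) (.l 18)) (.l 18)) (.c (.a (.l 18) (.c .z (.l
18))) (.l 18))) (.a (.b .z (.c (.c (.l 18) (.a (.l 18) .z)) .z)) (.c .z (.l 34)))) (.a (.b (.a .z (.b .z (.a .z (.l 34)))) (.a (.b (.a .z (.l 34)) (.l
34)) (.l 34))) (.a (.c (.l 34) (.b .z (.a (.l 34) .z))) (.c (.a (.c (.l 34) .z) .z) (.a .z (.c .z (.b (.l 14) .z))))))))) (.c (.b (.c (.a (.c (.b .z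
(.a (.c (.l 34) .z) .z)) (.a (.c .z (.a (.b .z (.l 18)) .z)) (.c (.a .z (.b (.l 26) .z)) .z))) (.c (.a (.b (.c .z (.l 26)) (.c .z (.a .z (.l 26))))
(.l 26)) (.a (.b (.l 26) (.c (.a .z (.l 26)) (.l 26))) (.l 26)))) (.a (.c (.a (.a (.b (.a .z (.l 18)) (.l 18)) (.l 18)) (.c (.a (.c .z (.l 18)) .z)
(.l 18))) (.a (.a (.b .z (.l 18)) (.l 18)) (.l 18))) (.c (.a (.c (.a .z (.c (.l 26) .z)) .z) (.c (.l 26) (.a (.c (.l 26) .z) (.l 26)))) (.a (.c (.a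
(.l 18) (.c .z (.l 18))) (.l 18)) (.c (.a .z (.c (.l 26) .z)) (.a (.c .z (.l 18)) .z)))))) (.c (.a (.c (.a .z (.c (.b (.l 34) .z) .z)) (.a (.c (.a (.l
18) (.b .z (.l 18))) (.l 18)) (.c .z (.a (.b .z (.l 18)) .z)))) (.c (.a .z (.a (.b (.c .z (.l 26)) .z) (.c (.b (.l 26) .z) (.l 26)))) (.a .z (.a (.b
(.l 26) (.c .z (.l 26))) (.l 26))))) (.a (.c (.a (.l 18) (.c (.a (.l 18) (.c .z (.l 18))) (.l 18))) (.l 18)) (.a (.c (.c .z (.a (.l 18) .z)) (.l 18))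
(.c (.a (.c (.l 26) .z) (.l 26)) (.a (.c .z (.l 18)) .z)))))) (.c (.a (.a (.b (.a (.b .z (.a .z (.b .z (.l 18)))) (.b (.a .z (.b .z (.l 18))) (.l
18))) (.l 18)) (.c (.l 18) (.c (.l 18) (.c (.l 18) (.b .z (.a (.l 18) .z)))))) (.a (.c (.l 18) (.c (.c (.l 18) (.a (.l 18) (.b .z (.l 18)))) (.c (.a
(.b .z (.l 18)) .z) .z))) (.c (.a (.l 18) (.c (.a (.l 18) (.c .z (.l 18))) (.l 18))) (.c (.c (.a (.l 18) .z) .z) (.c .z (.a .z (.l 34))))))) (.a (.a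
(.b .z (.a (.b .z (.c (.c (.l 18) .z) (.l 34))) (.c (.c (.c (.l 18) .z) .z) (.l 34)))) (.b (.a (.b .z (.c .z (.l 34))) (.c (.c .z (.l 34)) (.l 34)))
(.c (.c .z (.c .z (.l 34))) (.l 34)))) (.a (.c (.c (.c (.b (.l 34) .z) (.l 34)) (.l 34)) (.l 34)) (.a (.l 34) (.c (.l 34) (.a (.b .z (.l 34))
.z)))))))) (.b (.c (.a (.c (.b (.a (.c (.b (.a .z (.c .z (.l 26))) (.l 26)) (.l 26)) (.l 26)) (.l 26)) (.l 26)) (.c (.l 26) (.c (.l 26) (.c (.a (.l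
26) (.c (.l 26) (.a (.l 26) (.b (.l 26) .z)))) (.a (.c (.l 26) (.a (.l 26) .z)) .z))))) (.a (.c (.c (.a (.c (.a .z (.c (.l 26) (.a .z (.l 26)))) (.a
(.c (.a (.l 18) .z) .z) .z)) (.c (.c (.l 26) (.a (.l 26) .z)) .z)) (.a (.c (.a .z (.c .z (.a .z (.l 14)))) (.a .z (.a (.a .z (.l 14)) (.l 14)))) (.a
(.c .z (.a (.l 14) (.c .z (.l 14)))) .z))) (.a (.a (.c (.a .z (.c (.a .z (.l 14)) (.l 14))) (.a (.c (.b (.l 14) .z) (.l 14)) (.l 14))) (.l 14)) (.c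
(.a (.l 14) (.c (.a (.l 14) (.c .z (.l 14))) (.l 14))) (.l 14)))) (.c (.a (.c (.c .z (.c (.l 53) .z)) .z) (.c (.c .z (.b .z (.l 53))) .z)) (.a (.c (.a
(.c .z (.b (.a (.l 14) .z) .z)) .z) (.a (.l 14) (.c (.b (.a (.l 14) .z) .z) (.b (.l 14) (.a (.l 14) .z))))) .z)))) (.c (.a (.c (.l 26) (.a (.c (.l 26)
(.a (.c (.l 26) (.a .z (.l 26))) (.l 26))) (.l 26))) (.c (.l 26) (.c (.a (.l 26) (.c (.l 26) (.a (.l 26) (.b (.l 26) .z)))) (.a (.c (.a (.l 26) (.c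
(.l 26) (.b (.l 26) .z))) (.a (.c (.b (.l 26) .z) .z) .z)) (.c (.a (.c (.b (.l 26) .z) .z) .z) .z))))) (.a (.c (.a (.c (.a (.c (.a (.c .z (.l 18)) .z)
(.c (.l 18) (.a (.l 18) .z))) (.c (.a (.c (.l 26) .z) (.l 26)) .z)) (.a (.a (.c .z (.l 34)) .z) (.c (.a .z (.c .z (.l 14))) (.a (.a .z (.l 14)) (.l
14))))) (.c (.c (.a (.c (.l 26) (.a (.l 26) .z)) .z) .z) (.a (.c .z (.a (.c .z (.l 14)) .z)) .z))) (.a (.a (.c .z (.a .z (.c (.a .z (.l 14)) (.l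
14)))) (.l 14)) (.c (.a (.l 14) (.c .z (.a (.l 14) .z))) (.l 14)))) (.c (.c (.a (.c .z (.l 53)) (.l 53)) .z) (.a (.c .z (.a (.c (.b (.a (.l 14) .z)
.z) (.b (.l 14) (.a (.l 14) .z))) .z)) .z))))))

theorem vQ33 : ev3 Q33 J3_1 J4_6 J4_9 = 271074475948547447510018 := by decide +kernel

noncomputable def Q77 : QT3 :=
(.a (.b (.c (.a (.c (.l 26) (.a (.c (.c (.l 26) (.b (.l 26) (.a (.c (.l 26) .z) .z))) (.c (.b (.c (.a (.l 26) .z) .z) .z) .z)) (.c (.c (.b (.a (.l 26)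
(.c (.l 26) .z)) (.a (.c (.l 26) .z) .z)) .z) .z))) (.c (.a (.c (.l 26) (.c (.b (.l 26) (.a (.l 26) (.b (.l 26) .z))) (.b (.a (.l 26) (.c (.l 26) .z))
.z))) (.c (.b (.l 26) (.c (.l 26) (.a (.l 26) .z))) (.a (.b (.c (.l 26) .z) .z) .z))) (.a (.c .z (.a .z (.c .z (.a (.c .z (.l 18)) (.l 18))))) (.c (.a
.z (.c .z (.a (.c .z (.l 18)) (.l 18)))) (.a (.c (.a (.c .z (.l 18)) (.l 18)) (.l 18)) (.l 18)))))) (.a (.c (.a .z (.c (.a .z (.c .z (.b (.c .z (.l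
18)) .z))) (.a (.c (.b (.c .z (.l 18)) .z) (.b (.l 18) (.a .z (.l 18)))) (.l 18)))) (.a .z (.a (.c (.a .z (.c (.l 18) .z)) .z) (.c (.l 18) (.a (.c (.a
.z (.l 18)) .z) (.l 18)))))) (.b (.c (.c (.a (.c (.a (.c .z (.l 18)) (.l 18)) (.l 18)) (.l 18)) (.l 18)) (.l 18)) (.c (.a (.c (.a (.c (.a .z (.l 18))
(.l 18)) (.l 18)) (.l 18)) (.l 18)) (.a (.l 18) (.b (.c (.l 18) (.a (.l 18) .z)) (.c (.a (.l 18) .z) .z))))))) (.c (.a (.c (.c (.l 26) (.a (.c (.l 26)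
(.b (.l 26) (.a (.l 26) (.c (.l 26) .z)))) (.c (.b (.l 26) (.a (.b (.l 26) .z) .z)) (.b (.a (.c (.l 26) .z) .z) .z)))) (.c (.a (.c (.b (.a (.l 26) (.c
(.l 26) .z)) (.a (.c (.l 26) .z) .z)) .z) .z) .z)) (.b (.c (.a (.c (.c (.l 26) (.a (.l 26) (.b (.l 26) .z))) .z) (.c (.c (.a (.b (.l 26) .z) .z) .z)
.z)) (.a (.c .z (.a .z (.c .z (.a .z (.l 18))))) (.c (.a .z (.c (.a .z (.l 18)) (.l 18))) (.l 18)))) (.c (.a (.c (.c (.a (.l 26) .z) .z) .z) .z) (.a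
(.c .z (.a .z (.c .z (.a .z (.l 18))))) (.b (.c (.a .z (.l 18)) (.a (.l 18) .z)) .z))))) (.a (.b (.c (.a .z (.c .z (.a .z (.c (.a .z (.l 18)) (.l
18))))) (.a (.c .z (.a .z (.l 40))) (.b (.a .z (.c (.l 18) (.a .z (.l 18)))) (.c (.a .z (.l 18)) .z)))) .z) (.b (.c (.a (.c (.a (.c .z (.l 18)) (.l
18)) (.l 18)) (.b (.c (.l 18) (.a (.l 18) .z)) (.c (.a (.l 18) .z) .z))) (.a (.b (.c (.l 18) (.a (.b (.l 18) .z) .z)) (.c (.a (.b (.l 18) .z) .z) .z))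
(.b .z (.c .z (.a .z (.l 31)))))) (.c (.a (.b (.c (.a .z (.l 18)) (.a (.b (.l 18) .z) .z)) .z) (.b .z (.c .z (.a .z (.l 31))))) (.a (.b (.c .z (.a .z
(.l 31))) (.c (.a .z (.l 31)) (.l 31))) (.b (.c (.a .z (.l 31)) (.l 31)) (.l 31)))))))) (.b (.c (.a (.c (.a (.c (.a (.b (.c (.l 26) (.b (.l 26) .z))
(.c (.b (.l 26) .z) .z)) (.b (.c (.l 26) .z) .z)) (.a .z (.b (.c .z (.a .z (.l 18))) (.c (.a .z (.l 18)) (.l 18))))) (.a (.a (.c .z (.b (.c .z (.l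
18)) (.l 18))) .z) (.b (.b .z (.l 95)) (.l 95)))) (.b (.a (.c (.a (.c (.a .z (.l 18)) (.l 18)) (.l 18)) (.l 18)) (.a (.a (.l 18) .z) .z)) (.a (.l 18)
(.c (.b (.a (.a (.l 18) .z) .z) (.a (.a (.l 18) .z) .z)) (.b (.a (.a (.l 18) .z) .z) .z))))) .z) (.a (.b (.c (.a (.l 18) (.c (.b (.a (.a (.l 18) .z)
.z) (.a (.a (.l 18) .z) .z)) (.b (.a (.a (.l 18) .z) .z) .z))) (.a (.b (.c (.l 18) (.a (.l 18) (.b (.l 18) .z))) (.c (.a (.l 18) (.b (.l 18) .z)) (.a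
(.b (.l 18) .z) .z))) (.b .z (.c .z (.a .z (.l 29)))))) (.c (.a (.b (.c (.l 18) (.a (.l 18) (.b (.l 18) .z))) (.c (.a (.l 18) (.b (.l 18) .z)) (.a (.b
(.l 18) .z) .z))) .z) (.a (.b (.c (.a (.b (.l 18) .z) .z) .z) (.c .z (.a .z (.l 31)))) (.b (.c .z (.a .z (.l 29))) (.a (.a (.l 31) .z) (.l 29))))))
(.b (.c .z (.a (.b .z (.c .z (.l 29))) (.c .z (.b (.c .z (.l 29)) (.l 29))))) (.c .z (.c (.a (.b (.c .z (.l 29)) (.l 29)) (.b .z (.c .z (.l 29)))) (.l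
29)))))) (.c (.a (.b (.c (.a (.c (.a .z (.c .z (.a .z (.l 18)))) (.a (.c .z (.l 18)) (.l 18))) (.c (.b .z (.a (.a (.l 18) .z) .z)) (.b (.a (.a (.l 18)
.z) .z) .z))) (.a (.b (.c (.l 18) (.a (.l 18) (.b (.l 18) .z))) (.c (.a (.l 18) (.b (.l 18) .z)) .z)) .z)) (.c (.a (.b (.c (.a .z (.c .z (.l 18))) (.a
(.c .z (.l 18)) (.b (.l 18) .z))) (.c (.a .z (.b (.l 18) .z)) .z)) .z) (.a (.b .z (.c .z (.a .z (.l 31)))) (.b (.c .z (.a .z (.l 29))) (.a (.a (.l 31)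
.z) (.l 29)))))) (.b .z (.c .z (.a (.c .z (.a (.b .z (.l 29)) .z)) .z)))) (.a (.b (.c (.a (.b .z (.c .z (.a .z (.l 31)))) (.b (.c .z (.a .z (.l 29)))
(.a (.a (.l 31) .z) (.l 29)))) (.a (.b (.c (.a .z (.l 31)) (.l 31)) (.l 31)) (.a (.a (.l 31) (.a .z (.l 29))) (.l 29)))) (.c (.a (.b (.c (.a .z (.l
31)) (.l 31)) (.l 31)) (.a (.a (.l 31) (.a .z (.l 29))) (.l 29))) (.a (.l 31) (.a (.a (.l 31) (.a .z (.l 29))) (.l 29))))) (.a (.c (.b (.c .z (.b (.a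
(.l 29) .z) (.l 29))) (.l 29)) (.l 29)) (.b (.c .z (.c (.a (.l 29) (.c .z (.l 29))) (.a (.l 29) (.b (.l 29) .z)))) (.a (.c (.c .z (.l 29)) (.c (.l 29)
(.a (.l 29) .z))) .z)))))))

theorem vQ77 : ev3 Q77 J3_2 J4_6 J4_9 = 191206818466756984926053 := by decide +kernel

noncomputable def Q106 : QT3 :=
(.a (.b (.c (.a (.b (.c .z (.c (.b (.a (.c (.b .z (.a (.l 35) .z)) (.l 35)) .z) (.a (.a (.l 35) (.c (.a (.l 35) .z) (.l 35))) (.c .z (.a (.a (.l 35)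
.z) .z)))) (.a (.l 35) (.b (.c (.a (.l 35) .z) (.l 35)) (.a (.l 35) (.c .z (.a (.l 35) .z))))))) (.c .z (.a (.b (.c (.a (.b (.c .z (.l 35)) .z) (.b
(.c .z (.l 35)) .z)) (.l 35)) (.c .z (.a (.b (.c .z (.l 35)) .z) (.b (.c .z (.l 35)) .z)))) (.b (.c .z (.a (.l 35) .z)) .z)))) .z) (.b (.c (.b (.c (.a
(.l 35) (.a (.a (.c (.b (.l 35) .z) (.l 35)) (.c .z (.b (.l 35) .z))) .z)) (.a (.l 35) (.a (.l 35) (.b (.a (.c .z (.l 35)) .z) .z)))) (.c (.a (.l 35)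
.z) (.a (.b (.l 35) (.c (.l 35) (.a (.l 35) (.b (.l 35) .z)))) (.a (.b (.c (.a (.l 35) .z) (.b (.l 35) .z)) .z) .z)))) (.b (.a (.c (.b (.l 35) (.c (.l
35) (.a (.l 35) (.b (.l 35) .z)))) (.b (.c (.a (.l 35) (.b (.l 35) .z)) (.a (.b (.l 35) .z) .z)) (.c (.a (.b (.l 35) .z) .z) .z))) (.c (.a (.b (.c (.l
35) (.b (.l 35) .z)) (.c (.b (.l 35) .z) .z)) (.b (.c (.a (.l 35) .z) .z) .z)) (.a .z (.b (.c .z (.a (.c .z (.l 19)) (.l 19))) (.c .z (.a (.c .z (.l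
19)) (.l 19))))))) (.a (.c (.b (.c (.a (.l 35) (.b (.l 35) .z)) (.a (.b (.l 35) .z) .z)) (.c (.a (.b (.l 35) .z) .z) .z)) .z) (.c (.a (.b .z (.c .z
(.c .z (.c .z (.l 25))))) (.b .z (.c .z (.c .z (.l 25))))) (.a (.c (.b .z (.b .z (.c (.l 25) .z))) .z) (.c (.a (.c (.b .z (.l 25)) .z) .z) (.a .z (.c
(.a .z (.l 19)) (.l 19))))))))) (.c (.b (.c (.a (.b (.a (.l 35) (.a (.l 35) (.a (.l 35) .z))) (.c (.a (.l 35) (.a (.l 35) .z)) (.a (.l 35) .z))) .z)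
(.a (.b (.c (.a (.l 35) (.b (.l 35) .z)) (.a (.b (.l 35) .z) .z)) (.c (.a (.b (.l 35) .z) .z) .z)) .z)) (.c (.a (.b (.c (.a (.l 35) .z) (.a (.b (.l
35) .z) .z)) .z) .z) .z)) (.b (.a (.c .z (.c (.c (.c (.b (.a .z (.l 25)) .z) (.b (.b .z (.l 25)) (.a .z (.l 25)))) (.b (.b .z (.l 25)) (.l 25))) (.b
(.b .z (.a .z (.b .z (.l 25)))) (.l 25)))) (.c (.c .z (.c .z (.a (.c .z (.b (.l 25) .z)) (.l 25)))) (.a (.b (.b (.c (.l 25) (.b .z (.l 25))) (.l 25))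
(.l 25)) (.a (.c (.l 25) (.a (.b .z (.l 25)) .z)) (.c (.a (.c (.l 25) .z) .z) .z))))) (.a (.c .z (.c (.c .z (.b (.a (.c .z (.l 25)) (.l 25)) (.a .z
(.c .z (.l 25))))) (.b (.l 25) (.c (.a (.b (.l 25) .z) (.l 25)) (.l 25))))) (.a (.c .z (.c (.c (.b (.l 25) .z) (.l 25)) (.l 25))) (.c (.c .z (.c .z
(.c .z (.b (.l 25) .z)))) (.a (.l 25) (.c (.l 25) (.a (.b .z (.l 25)) .z)))))))))) (.c .z (.a (.b (.c .z (.c (.b (.c .z (.c .z (.l 69))) .z) (.b (.c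
(.b .z (.a (.l 69) .z)) (.b (.c (.a .z (.b (.l 25) .z)) (.a (.b (.l 25) .z) (.l 25))) .z)) (.c (.b (.a .z (.l 69)) .z) .z)))) .z) (.b (.c .z (.c .z
(.b (.c (.a (.b (.c .z (.b (.l 25) .z)) .z) (.c (.b (.a .z (.l 25)) .z) (.b (.l 25) (.a .z (.l 25))))) (.b (.l 25) (.a (.c .z (.b (.l 25) .z)) (.l
25)))) (.b (.a .z (.c .z (.b (.a .z (.l 25)) .z))) .z)))) .z)))) (.b (.c .z (.b (.c .z (.a (.b (.c (.a (.b .z (.c .z (.a .z (.c .z (.l 19))))) (.b (.c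
.z (.c .z (.l 19))) (.c .z (.c .z (.a (.l 19) .z))))) (.a (.c (.a (.c (.a .z (.l 19)) (.l 19)) (.l 19)) (.l 19)) (.l 19))) (.c (.c .z (.a (.a .z (.c
(.a .z (.l 19)) (.l 19))) (.c .z (.a (.l 19) .z)))) (.a (.c (.a (.c (.a .z (.l 19)) (.l 19)) (.l 19)) (.l 19)) (.l 19)))) (.c .z (.b (.c (.a (.b (.c
(.a (.l 19) .z) (.l 19)) (.c (.a (.l 19) .z) (.l 19))) .z) (.a (.l 19) (.c (.a (.l 19) (.b (.l 19) .z)) (.l 19)))) (.c (.a (.c .z (.a (.l 19) .z)) .z)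
(.a (.l 19) (.c .z (.a (.l 19) .z)))))))) (.c .z (.a (.a (.c (.a (.c .z (.a (.c .z (.b .z (.l 25))) .z)) (.c .z (.a .z (.c .z (.l 19))))) (.a (.c (.b
(.a .z (.c .z (.l 19))) .z) (.b (.a (.c .z (.l 19)) (.l 19)) (.a .z (.b (.l 19) .z)))) (.c (.a (.b (.l 19) (.c .z (.l 19))) (.l 19)) (.l 19)))) (.c
(.a (.c .z (.c .z (.b (.c .z (.l 19)) .z))) .z) (.c (.b (.c (.a (.l 19) (.c .z (.l 19))) (.l 19)) (.a (.l 19) .z)) (.l 19)))) (.c .z (.a (.c .z (.b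
(.a (.l 19) (.c .z (.b (.l 19) .z))) (.a (.b (.c .z (.l 19)) .z) .z))) .z)))))) (.c .z (.a (.b (.c .z (.a (.a (.c (.c .z (.b (.c .z (.b (.l 25) .z))
.z)) (.b (.a (.c (.l 25) .z) .z) (.a (.b (.c .z (.l 25)) .z) (.b (.a (.l 25) .z) .z)))) (.c .z (.b (.a (.c .z (.b (.l 19) .z)) (.l 19)) (.a .z (.b (.l
19) .z))))) (.c .z (.b (.c (.a (.c .z (.b (.l 19) .z)) .z) (.a (.b (.l 19) (.a (.l 19) .z)) (.b (.a (.l 19) .z) .z))) .z)))) .z) .z))))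

theorem vQ106 : ev3 Q106 J3_1 J3_4 J3_4 = 164509884941617434406050 := by decide +kernel

noncomputable def Q135 : QT3 :=
(.b (.b (.a (.c (.c (.b (.c (.b .z (.a .z (.c (.a .z (.c (.c (.l 11) .z) .z)) .z))) .z) (.c (.b (.a (.c (.b .z (.c (.c (.l 11) .z) .z)) .z) (.c (.c
(.c (.l 11) .z) .z) .z)) (.c (.c (.c (.a (.a .z (.l 11)) (.l 11)) .z) .z) .z)) .z)) (.b .z (.c (.c .z (.b .z (.a (.c .z (.b .z (.l 19))) (.c (.a .z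
(.l 19)) (.l 19))))) (.c (.b (.a (.c (.b .z (.l 19)) (.c (.l 19) .z)) (.c (.a .z (.l 19)) (.c (.l 19) .z))) (.c (.l 19) .z)) .z)))) (.c (.c (.c .z (.b
.z (.a (.c (.c (.l 32) .z) .z) .z))) .z) .z)) (.c (.a (.c (.b (.c (.a (.b (.c (.a .z (.c (.l 11) .z)) .z) (.c (.c (.l 11) .z) .z)) (.c (.c (.l 11) (.c
(.a .z (.l 11)) .z)) .z)) (.c (.c .z (.a .z (.c .z (.l 15)))) .z)) (.c (.c (.c (.l 11) (.c (.a .z (.a .z (.l 11))) .z)) .z) .z)) (.b (.c .z (.b .z (.c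
(.a (.c (.l 19) .z) .z) .z))) (.c (.b (.c .z (.a (.c .z (.l 19)) (.l 19))) (.c (.a (.c .z (.l 19)) (.c .z (.l 19))) (.l 19))) (.c (.c (.l 19) .z)
.z)))) (.c (.c (.c (.c (.l 11) (.c (.l 11) (.a (.a .z (.l 11)) (.l 11)))) (.c (.a .z (.c (.a .z (.l 11)) .z)) .z)) (.b (.c (.c (.a .z (.c .z (.l 15)))
(.c (.l 15) (.b (.l 15) .z))) .z) .z)) (.b (.c (.b (.c (.c .z (.l 23)) (.a (.l 23) (.c (.l 23) .z))) (.c (.a .z (.c .z (.l 23))) .z)) .z) (.c (.b .z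
(.a (.c .z (.l 19)) .z)) (.b (.a (.c (.c (.l 19) .z) (.c .z (.l 26))) .z) (.c (.c (.l 19) .z) (.c .z (.l 26)))))))) (.b (.a (.c (.c (.c .z (.c (.c .z
(.l 31)) .z)) .z) .z) .z) (.c (.a .z (.c (.c (.c (.a (.c (.l 26) .z) .z) .z) .z) .z)) .z)))) (.c (.c (.c (.a (.b (.c (.b (.c (.b (.a .z (.c (.l 11)
.z)) .z) .z) (.c (.b (.a (.c .z (.l 12)) .z) (.a (.c (.l 12) .z) .z)) .z)) .z) (.c (.b (.c (.a (.c (.a .z (.l 12)) .z) (.b (.a (.l 12) .z) (.a .z (.l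
12)))) .z) (.c (.a .z (.a .z (.l 12))) .z)) .z)) (.b (.a (.c (.b (.a (.c (.l 11) .z) (.c (.l 11) .z)) (.a .z (.c (.l 11) .z))) .z) (.c (.c (.l 11) (.a
(.c (.l 11) (.a .z (.l 11))) (.l 11))) .z)) (.a (.c (.b (.a (.c .z (.b .z (.l 12))) .z) (.a (.c (.l 12) (.b (.l 12) .z)) .z)) .z) (.c (.b (.a (.c (.b
(.l 11) .z) .z) (.c (.l 11) (.a .z (.l 11)))) (.a .z (.c (.a .z (.l 11)) .z))) (.b .z (.a (.c .z (.l 14)) .z)))))) (.a (.b .z (.c (.b .z (.a .z (.c .z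
(.a .z (.l 14))))) .z)) (.b .z (.a (.c (.a (.b .z (.c .z (.l 14))) (.b .z (.l 14))) .z) (.c (.b (.a (.c (.l 14) .z) .z) (.a (.c (.l 14) .z) .z)) (.a
(.c .z (.a .z (.l 19))) (.c .z (.l 19)))))))) (.a (.c (.b (.c .z (.l 19)) (.c (.c .z (.a (.c (.b .z (.l 20)) .z) (.c .z (.a .z (.l 19))))) (.l 19)))
(.c (.c (.c (.b (.l 19) (.b (.l 19) (.b (.l 19) .z))) (.b (.b (.l 19) (.b (.l 19) .z)) .z)) .z) (.c .z (.b .z (.a (.c (.l 27) .z) .z))))) (.b (.a (.c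
(.c (.c (.a .z (.c .z (.l 19))) (.l 19)) (.l 19)) (.c (.c (.c (.l 19) (.b (.l 19) .z)) .z) .z)) (.c (.b (.a (.l 19) (.c .z (.l 19))) (.l 19)) (.c (.c
(.c (.l 19) .z) .z) (.c .z (.a (.c .z (.l 26)) (.l 26)))))) (.c (.a (.c (.c (.a .z (.l 19)) (.l 19)) (.l 19)) (.l 19)) (.c (.c (.c (.b (.a (.l 19) .z)
.z) .z) .z) .z))))) (.a (.c (.c (.c (.b (.c .z (.c (.a .z (.l 32)) (.a (.l 32) .z))) .z) .z) .z) .z) (.c (.a (.c (.c (.c (.b (.a .z (.c (.l 26) .z))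
.z) .z) .z) .z) (.c (.c (.a (.c (.b (.l 26) (.b (.l 26) .z)) .z) (.b (.c (.a (.l 26) .z) .z) .z)) .z) .z)) .z)))) (.c (.b (.c (.a (.c (.b (.c (.b (.c
(.a .z (.a .z (.c (.l 12) .z))) (.a (.l 28) .z)) (.c .z (.a (.l 28) .z))) (.b .z (.c .z (.a .z (.a .z (.l 14)))))) (.c (.b (.c (.a (.l 28) .z) .z) (.c
.z (.a (.b .z (.l 14)) (.a .z (.l 14))))) (.b (.c (.a .z (.a .z (.l 14))) (.l 14)) (.l 14)))) (.b (.c (.b (.a (.c .z (.c (.l 14) .z)) (.c (.a .z (.l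
14)) (.l 14))) (.c (.l 14) (.a (.c (.l 14) .z) (.l 14)))) (.c .z (.a .z (.c .z (.a .z (.l 20)))))) (.c (.l 14) (.c (.a .z (.c (.l 14) .z)) .z)))) (.c
(.b (.a (.c (.a (.b (.c (.b (.l 12) .z) .z) .z) (.b .z (.c .z (.l 14)))) (.a (.b (.c .z (.l 14)) (.l 14)) (.l 14))) (.c (.b .z (.a (.c .z (.l 14))
.z)) (.a (.l 14) (.b (.c .z (.l 14)) (.c .z (.l 14)))))) (.a (.c (.a (.b (.c .z (.l 14)) (.l 14)) (.l 14)) (.l 14)) (.c (.a (.c (.b .z (.l 14)) (.l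
14)) (.c .z (.b .z (.l 14)))) (.a (.l 14) (.c (.l 14) (.a (.l 14) .z)))))) (.c (.a (.l 14) (.a (.c (.l 14) (.a (.c (.l 14) .z) .z)) (.c (.a (.c (.l
14) .z) .z) (.a .z (.c .z (.l 15)))))) (.a (.c (.a (.c (.l 14) (.b .z (.l 14))) (.c (.a (.l 14) .z) .z)) (.a .z (.c .z (.a .z (.l 19))))) (.a (.c (.a
.z (.c .z (.l 19))) (.l 19)) (.c (.c .z (.a (.l 19) .z)) (.l 19))))))) (.c (.a (.c (.c (.a (.b (.c (.b .z (.l 20)) (.l 20)) (.c (.b (.l 20) .z) (.l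
20))) (.a (.c (.l 20) (.a (.l 20) .z)) (.c (.a (.l 20) .z) .z))) (.a (.c (.a (.l 20) (.a (.l 20) .z)) .z) (.a (.c .z (.a .z (.l 19))) (.c (.a .z (.l
19)) (.l 19))))) (.c (.l 19) (.b (.c (.l 19) (.b (.l 19) (.b (.l 19) .z))) (.c (.b (.l 19) .z) .z)))) (.a (.c (.c (.a (.c .z (.l 19)) (.l 19)) (.l
19)) (.c (.l 19) (.b (.c (.l 19) (.b (.l 19) .z)) .z))) (.c (.l 19) (.c (.l 19) (.b (.c (.l 19) .z) .z))))) (.a .z (.c .z (.a .z (.c (.a .z (.c (.l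
28) .z)) .z)))))) (.c (.a (.c (.b (.c (.b (.c (.a (.b .z (.l 14)) (.l 14)) (.l 14)) (.l 14)) (.l 14)) (.c (.c (.a (.c .z (.l 14)) (.l 14)) (.l 14))
(.l 14))) (.c (.l 14) (.c (.a (.b (.c (.l 14) .z) (.l 14)) (.l 14)) (.a (.b .z (.c (.b .z (.l 14)) .z)) (.a (.b .z (.c (.l 14) .z)) (.c (.b .z (.l
14)) .z)))))) (.c (.a (.l 14) (.c (.b (.a (.l 14) (.c (.b .z (.l 14)) (.l 14))) (.l 14)) (.a (.l 14) (.c (.a (.l 14) (.b (.l 14) .z)) (.a (.c (.l 14)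
.z) .z))))) (.a (.c (.c (.l 14) (.a (.l 14) (.c (.l 14) (.a (.l 14) .z)))) (.c (.a (.c (.l 14) (.a (.l 14) .z)) .z) (.a .z (.a (.c .z (.l 19)) (.l
19))))) (.c (.a (.c (.a (.l 14) .z) .z) (.c .z (.a (.c .z (.l 15)) (.l 15)))) (.a (.c (.a (.c .z (.l 19)) (.c .z (.l 19))) (.l 19)) (.c .z (.l
19))))))) (.a (.c (.c (.c (.a (.b (.c .z (.b (.l 20) .z)) .z) .z) (.a (.c (.a (.b (.l 20) .z) .z) .z) (.a (.c .z (.l 19)) (.l 19)))) (.b (.c (.c (.l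
19) (.b (.l 19) .z)) .z) .z)) .z) (.c (.a (.c (.a (.c (.c (.a .z (.l 19)) (.l 19)) (.l 19)) (.c (.l 19) (.b (.l 19) (.c (.l 19) .z)))) (.c (.b (.c (.l
19) .z) .z) .z)) (.c (.c (.l 19) (.b (.l 19) (.c (.l 19) (.b (.l 19) .z)))) (.c (.b (.c (.b (.l 19) .z) .z) .z) .z))) (.a .z (.c .z (.c (.a .z (.a .z
(.l 28))) .z))))))) .z))

theorem vQ135 : ev3 Q135 J3_0 J4_11 J3_7 = 168792356968404336061707 := by decide +kernel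

noncomputable def Q15 : QT3 :=
(.c (.c (.a (.c (.b (.b (.a (.b (.b (.c .z (.a (.l 16) .z)) (.c (.a (.l 16) .z) (.l 16))) (.l 16)) (.a (.b .z (.b (.c .z (.l 16)) (.l 16))) .z)) (.a
(.l 16) (.a (.l 16) (.b (.a (.l 16) .z) (.l 16))))) (.c (.l 16) (.a (.l 16) (.b (.l 16) (.a (.l 16) (.c (.l 16) (.a (.l 16) .z))))))) (.b (.c (.a (.l
16) (.b (.a (.b (.b .z (.l 16)) (.l 16)) (.b .z (.a (.l 16) .z))) (.c (.l 16) (.a (.l 16) (.a (.l 16) .z))))) (.a (.c (.l 16) (.b (.l 16) (.b (.l 16)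
(.a (.l 16) .z)))) (.b (.c (.a (.l 16) .z) (.a (.b (.l 16) .z) .z)) (.c (.a (.b (.l 16) .z) .z) (.a .z (.a .z (.b .z (.l 10)))))))) (.c (.a (.c (.l
16) (.b (.l 16) (.b (.l 16) (.a (.l 16) .z)))) (.b (.a (.c (.l 16) (.b (.l 16) .z)) (.c (.a (.l 16) .z) .z)) (.a (.c (.b (.l 16) .z) .z) (.c .z (.a .z
(.b .z (.l 10))))))) (.a (.c (.b (.b (.l 16) (.a (.l 16) .z)) .z) (.b .z (.b .z (.a (.b .z (.l 10)) (.l 10))))) (.a (.b (.c .z (.b .z (.a .z (.l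
10)))) (.c (.b .z (.a .z (.l 10))) (.l 10))) (.b (.c (.a .z (.b .z (.l 10))) (.l 10)) (.l 10))))))) (.a (.c (.b .z (.c (.a (.b (.a (.l 16) .z) (.c (.l
16) (.a (.l 16) .z))) .z) (.a (.b (.c (.a (.l 16) .z) .z) .z) (.b .z (.a (.c .z (.b .z (.l 10))) (.c (.b .z (.l 10)) (.l 10))))))) (.b (.c .z (.a (.b
.z (.c (.a .z (.b .z (.l 10))) (.l 10))) (.b .z (.b (.c .z (.l 10)) (.l 10))))) (.c (.a (.b (.c .z (.a .z (.b .z (.l 10)))) (.c (.a .z (.l 10)) (.l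
10))) (.b (.c (.a (.b .z (.l 10)) (.b .z (.l 10))) (.l 10)) (.l 10))) (.l 10)))) (.c (.b .z (.a (.c .z (.b .z (.b .z (.c .z (.a (.l 10) .z))))) .z))
(.b (.a (.c .z (.b .z (.c .z (.b .z (.l 10))))) .z) (.b (.c (.a (.b .z (.c .z (.l 10))) .z) (.a (.l 10) (.c (.b .z (.a (.l 10) .z)) (.l 10)))) (.c (.a
(.b (.c (.a (.l 10) .z) (.l 10)) (.l 10)) (.c (.b .z (.a (.l 10) .z)) (.a (.l 10) (.b .z (.l 10))))) (.l 10))))))) (.b (.a (.c (.c (.a (.c (.b (.b (.a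
(.l 16) .z) (.a (.l 16) .z)) .z) (.b .z (.b (.a (.b .z (.l 10)) (.a .z (.l 10))) (.l 10)))) (.c (.b (.a .z (.a .z (.b .z (.l 10)))) (.a (.b .z (.a .z
(.l 10))) (.l 10))) (.b (.a (.b .z (.l 10)) (.l 10)) (.l 10)))) (.l 10)) (.b (.c (.b (.a (.c (.l 10) (.b .z (.l 10))) (.c (.l 10) (.b .z (.b .z (.l
10))))) (.l 10)) (.b .z (.a (.c (.l 10) (.b .z (.b .z (.l 10)))) (.a (.c (.b .z (.l 10)) .z) (.c (.b .z (.l 10)) .z))))) (.c (.l 10) (.b (.c (.l 10)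
(.b (.a (.l 10) (.b .z (.l 10))) (.l 10))) (.l 10))))) (.c (.b (.c (.a (.b (.c (.b .z (.a (.l 10) .z)) (.l 10)) (.l 10)) (.c (.b .z (.a (.b .z (.l
10)) .z)) (.b (.a (.l 10) .z) (.l 10)))) (.l 10)) (.c (.a (.l 10) (.a (.l 10) (.c (.b (.a (.l 10) .z) (.l 10)) (.l 10)))) (.l 10))) (.b (.c (.a (.b
(.c (.b (.a (.l 10) .z) (.l 10)) .z) (.c (.l 10) (.b (.a (.l 10) .z) (.l 10)))) (.c (.b .z (.a (.l 10) .z)) .z)) .z) (.c (.a (.l 10) (.a (.l 10) (.c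
(.l 10) (.b .z (.a (.l 10) .z))))) (.a (.b (.c (.a (.l 10) (.b .z (.l 10))) .z) (.c (.l 10) (.a (.l 10) (.b .z (.l 10))))) (.a (.b .z (.c (.b .z (.l
10)) .z)) .z)))))) (.a (.c (.c (.a (.c (.b (.b .z (.a (.b .z (.l 10)) (.l 10))) (.l 10)) (.l 10)) (.l 10)) (.l 10)) (.l 10)) (.c (.l 10) (.a (.l 10)
(.b (.c (.l 10) (.a (.b (.c (.l 10) (.a (.l 10) .z)) (.l 10)) (.c (.b (.a (.l 10) .z) (.l 10)) (.b .z (.a (.l 10) .z))))) (.l 10))))))) (.b (.c (.a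
(.c (.b (.c (.b (.a (.l 24) .z) (.a (.c .z (.b (.l 24) .z)) .z)) (.b (.a (.l 24) (.a (.a (.l 24) .z) .z)) (.a (.l 24) .z))) (.c (.b (.a (.c (.b .z (.l
10)) .z) .z) (.c (.l 10) (.b (.a (.b .z (.l 10)) .z) (.a (.l 10) (.a (.l 10) .z))))) (.b (.a (.c .z (.l 24)) .z) (.a (.c (.b .z (.b .z (.l 10))) .z)
.z)))) (.b (.a (.l 24) (.a (.a (.l 24) (.a (.l 24) .z)) .z)) (.c (.b (.a (.l 24) (.a (.l 24) .z)) (.a (.c (.b (.l 24) .z) (.l 24)) .z)) (.b (.a (.l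
24) (.a (.l 24) .z)) (.a (.l 24) (.a (.l 24) .z)))))) (.a (.c (.b .z (.a (.c (.b .z (.c (.b .z (.l 10)) .z)) .z) .z)) .z) .z)) (.a (.c (.a (.l 24) (.a
(.a (.l 24) (.b (.a (.l 24) (.b .z (.l 24))) (.l 24))) (.a (.a (.b .z (.a (.l 24) .z)) .z) .z))) (.a (.l 24) (.c (.a (.l 24) (.b .z (.a (.a (.l 24)
.z) .z))) (.a (.c (.l 24) (.b (.l 24) (.a (.l 24) .z))) .z)))) .z)) (.a (.c (.c (.b (.c (.l 10) (.b (.a (.c (.l 10) (.b .z (.l 10))) (.c (.b (.a (.l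
10) .z) (.l 10)) .z)) (.l 10))) (.l 10)) (.b (.c (.b .z (.a (.c (.l 10) (.b .z (.l 10))) (.c (.b .z (.a (.l 10) .z)) .z))) (.b (.a (.c (.b (.l 24) .z)
(.l 24)) .z) .z)) (.b (.c (.a (.l 10) (.c (.l 10) (.b (.a (.l 10) .z) (.l 10)))) (.a (.b (.c (.l 10) .z) (.l 10)) (.c (.b .z (.a (.l 10) .z)) .z)))
(.c (.l 10) (.a (.l 10) (.b (.c (.l 10) (.a (.l 10) .z)) (.l 10))))))) (.b (.c (.b (.c (.a (.l 24) (.a (.l 24) .z)) (.a (.l 24) (.a (.l 24) .z))) (.a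
(.c (.b (.l 24) (.c .z (.l 24))) (.l 24)) (.c .z (.a (.l 24) .z)))) (.a (.l 24) (.a (.c (.l 24) (.c (.a (.l 24) .z) .z)) (.c (.a (.c (.l 24) .z) .z)
.z)))) (.c (.b (.a (.c .z (.b (.l 24) (.c .z (.l 24)))) .z) (.a (.c (.b (.c (.l 10) .z) (.l 10)) .z) (.c (.b .z (.c (.a (.l 10) .z) .z)) (.a .z (.b
(.l 15) .z))))) (.b (.a (.c (.l 24) (.c (.l 24) (.a (.l 24) .z))) (.c (.a (.b (.l 24) .z) .z) .z)) (.a (.c (.b (.l 24) .z) (.c (.l 24) (.a (.l 24)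
.z))) .z))))) (.c (.a (.b (.c (.c (.b (.c (.a (.l 10) (.b .z (.l 10))) (.a (.b .z (.l 10)) .z)) (.l 10)) (.b .z (.a (.c (.l 10) .z) .z))) .z) (.c (.c
(.l 10) (.b (.a (.l 10) (.c (.l 10) (.b .z (.l 10)))) (.l 10))) (.c (.b (.a (.c (.b .z (.l 10)) .z) .z) (.a (.l 10) (.c (.a (.l 10) .z) .z))) (.b .z
(.a (.c (.b .z (.l 10)) .z) .z))))) (.c (.b (.c (.a (.b .z (.c (.a (.l 10) .z) .z)) .z) .z) (.a (.c (.b (.c (.l 10) (.a (.l 10) .z)) (.l 10)) (.b .z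
(.c (.a (.l 10) .z) .z))) (.c (.b (.c (.a (.l 10) .z) .z) (.a (.l 10) (.c (.l 10) .z))) .z))) .z)) (.a (.b .z (.c (.a (.b (.c .z (.b .z (.l 15))) (.c
.z (.l 15))) (.b (.c .z (.l 15)) (.l 15))) (.a (.b .z (.c (.l 15) .z)) (.b (.c (.l 15) .z) (.l 15))))) (.b (.c .z (.a (.b .z (.c (.l 15) (.a .z (.l
15)))) (.b (.a .z (.c .z (.l 15))) (.c (.c .z (.l 15)) (.l 15))))) (.c (.b (.c .z (.b (.c .z (.l 15)) (.l 15))) (.c (.b (.c .z (.l 15)) (.l 15)) (.l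
15))) (.l 15))))))))

theorem vQ15 : ev3 Q15 J3_0 J4_3 J4_13 = 258445942054780724863644 := by decide +kernel

noncomputable def Q185 : QT3 :=
(.c (.a (.b (.c (.a (.b (.c (.a (.c .z (.a (.c .z (.b .z (.l 13))) (.c (.b .z (.l 13)) (.l 13)))) (.b (.c (.c .z (.a .z (.l 13))) (.l 13)) (.c (.a (.c
.z (.l 13)) (.b (.l 13) .z)) (.a (.b (.l 13) .z) .z)))) (.a (.b (.c (.l 13) (.a (.l 13) (.b (.l 13) .z))) (.c (.a (.b (.l 13) .z) .z) .z)) (.b (.c (.a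
(.b (.l 13) .z) .z) .z) .z))) (.c (.a (.b (.c .z (.a (.b (.l 13) .z) .z)) .z) (.b .z (.c .z (.l 15)))) (.a (.b (.c .z (.a .z (.l 15))) (.c (.a .z (.l
15)) (.l 15))) (.b (.c (.a .z (.l 15)) (.c (.l 15) .z)) (.l 15))))) (.b (.c (.a (.b (.c (.a (.l 13) (.b (.l 13) .z)) .z) .z) .z) (.a (.b .z (.c (.a .z
(.l 15)) (.c (.l 15) .z))) (.c (.c .z (.l 15)) (.c (.c (.l 15) .z) .z)))) (.c (.a (.b (.c .z (.c .z (.l 15))) (.c .z (.l 15))) (.c .z (.c .z (.b .z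
(.l 15))))) (.c (.l 15) (.c (.c (.l 15) (.a (.l 15) .z)) .z))))) (.a (.b (.c (.a (.b (.c (.a (.b (.l 13) .z) .z) .z) .z) (.b (.c .z (.l 35)) (.c .z
(.l 35)))) .z) (.c (.b (.c (.c .z (.l 35)) (.c (.l 35) .z)) .z) .z)) (.b (.c (.c (.a (.a (.l 35) .z) .z) (.b (.a (.l 35) .z) .z)) .z) .z))) (.c (.a
(.b (.c (.a (.b (.c .z (.l 15)) (.b (.b (.l 15) .z) (.l 41))) (.b (.l 15) (.b (.b (.l 15) .z) (.l 41)))) (.b (.l 15) (.c (.b (.b (.l 15) .z) (.l 41))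
(.b (.b (.l 15) .z) .z)))) (.c .z (.b (.c (.b (.l 41) .z) .z) (.c .z (.b (.c .z (.l 24)) (.l 24)))))) (.b (.c (.c (.b (.c .z (.a (.l 15) .z)) .z) (.b
(.l 15) (.b (.b (.l 15) .z) (.l 41)))) (.b (.c (.l 15) (.c (.l 15) .z)) (.c (.b (.b (.l 15) .z) (.l 41)) .z))) (.c .z (.b .z (.c (.b .z (.c .z (.l
24))) (.c (.a (.l 24) .z) .z)))))) (.b (.c (.b .z (.c .z (.a .z (.c .z (.b .z (.l 23)))))) (.b .z (.c (.c (.b .z (.a .z (.l 23))) .z) .z))) (.c (.b .z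
(.c (.a .z (.c (.a .z (.l 25)) (.l 25))) .z)) (.c .z (.b (.c .z (.a (.l 29) .z)) (.c .z (.a (.l 29) .z)))))))) (.b (.c (.a (.b (.c .z (.c (.c .z (.a
(.b .z (.l 15)) .z)) .z)) (.c .z (.c (.c (.a (.b .z (.l 15)) .z) (.a (.l 15) (.b .z (.l 15)))) (.c (.c (.a (.l 15) .z) .z) .z)))) .z) (.b (.c (.b (.a
.z (.c .z (.a .z (.l 18)))) (.c (.a (.a .z (.l 51)) .z) (.a .z (.c (.a .z (.l 18)) .z)))) (.b (.c (.a .z (.b (.l 18) (.c (.l 18) .z))) (.a (.b (.a .z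
(.l 18)) .z) .z)) .z)) .z)) (.c (.b (.c (.c .z (.b (.a (.a (.c .z (.l 15)) .z) .z) .z)) (.b (.c (.a (.l 15) .z) .z) (.c (.a (.b (.b (.l 15) .z) .z)
.z) .z))) .z) (.b (.c (.b .z (.c (.a (.b .z (.c .z (.l 23))) (.b .z (.l 23))) (.b .z (.l 23)))) (.c (.b .z (.b .z (.l 23))) .z)) (.c (.c (.a (.b .z
(.a (.c (.l 25) .z) .z)) (.b (.c (.a .z (.l 23)) (.l 23)) (.a .z (.c .z (.l 23))))) (.b (.a (.c (.b (.l 23) .z) (.l 23)) (.l 23)) (.c (.a .z (.a .z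
(.l 23))) (.a .z (.l 23))))) (.c (.b (.c (.a (.b (.l 23) .z) (.l 23)) (.a .z (.b (.l 23) .z))) .z) .z)))))) (.b (.c (.b (.c (.a (.b (.c (.a (.a .z (.l
28)) .z) .z) .z) .z) (.a (.b (.c .z (.a (.b (.c .z (.l 10)) (.c .z (.c .z (.l 10)))) (.c .z (.l 10)))) (.c .z (.c .z (.c .z (.a (.b (.l 10) .z) (.l
10)))))) (.c .z (.c (.a (.c .z (.b (.l 10) (.a .z (.l 10)))) (.c (.b (.l 10) (.a .z (.l 10))) (.l 10))) (.a (.l 10) (.c (.a (.l 10) (.a (.l 10) .z))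
(.a (.a (.l 10) .z) .z))))))) (.c .z (.c .z (.a .z (.c (.a .z (.c .z (.b (.a .z (.l 10)) .z))) (.a (.c (.b (.a .z (.l 10)) .z) (.a (.b (.l 10) .z) (.a
(.l 10) .z))) (.c (.a (.b (.l 10) .z) .z) .z))))))) (.c (.c (.a (.c (.a (.b (.l 10) (.b (.c .z (.l 10)) .z)) (.c (.b (.l 10) (.b (.l 10) .z)) (.a (.b
(.l 10) (.b (.l 10) .z)) (.a (.l 10) .z)))) (.a (.c (.b (.l 10) (.b (.l 10) (.b (.l 10) .z))) (.a (.a (.b .z (.l 10)) .z) .z)) .z)) (.c (.a (.c (.a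
(.b (.l 10) (.a (.l 10) .z)) .z) .z) (.c (.a .z (.b .z (.l 25))) (.l 25))) (.a (.c (.a .z (.b .z (.l 25))) (.a (.b .z (.l 25)) (.l 25))) (.l 25))))
(.a (.c (.a (.c .z (.b .z (.b (.l 25) .z))) .z) (.c (.b (.a (.l 25) .z) .z) (.b (.a (.l 25) (.b (.l 25) .z)) .z))) (.a (.c (.c (.b (.a .z (.l 25)) (.b
(.l 25) .z)) .z) .z) (.c (.c (.l 25) (.b (.l 25) (.a .z (.l 25)))) .z)))) (.a (.c (.b (.c (.b (.a (.c (.l 25) .z) .z) .z) .z) (.c .z (.a (.a (.l 45)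
.z) .z))) (.a (.b .z (.b .z (.c (.l 45) .z))) .z)) (.c .z (.a (.c .z (.a .z (.b .z (.b .z (.l 14))))) .z))))) (.c (.c (.b (.c (.a (.b .z (.b .z (.l
29))) (.b .z (.c .z (.b .z (.l 29))))) (.b .z (.b .z (.l 29)))) (.c (.a (.l 29) (.c (.a (.c .z (.l 29)) .z) (.a (.l 29) (.c .z (.l 29))))) (.l 29)))
(.c (.b (.b .z (.b .z (.l 29))) (.a (.l 29) (.a (.c (.l 29) (.b (.l 29) .z)) (.c (.b (.l 29) .z) .z)))) (.a (.b (.c (.b .z (.b .z (.l 29))) .z) (.c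
(.b (.l 29) (.a (.l 29) .z)) (.b (.a (.l 29) .z) .z))) (.c .z (.a .z (.c .z (.a .z (.b .z (.l 25))))))))) (.c (.c (.a .z (.c (.a (.c .z (.a .z (.b (.l
25) .z))) (.l 25)) (.a (.b (.c (.l 25) (.b (.l 25) .z)) .z) (.b (.l 25) (.c (.l 25) (.a .z (.l 25))))))) (.a .z (.a .z (.a .z (.c (.a .z (.c (.l 25)
.z)) .z))))) (.a (.a (.b (.b (.a (.l 45) .z) (.b .z (.l 41))) (.c (.b (.c .z (.l 41)) .z) (.b (.l 41) (.a (.l 41) .z)))) (.c (.b (.b .z (.b .z (.l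
41))) (.b (.a (.l 41) .z) .z)) .z)) .z)))))

theorem vQ185 : ev3 Q185 J4_7 J4_10 J3_6 = 93580164907280777774821 := by decide +kernel

noncomputable def Q128 : QT3 :=
(.b (.b (.a (.c (.c (.c (.c (.a .z (.a (.c .z (.b (.a .z (.l 14)) (.c (.l 14) .z))) (.c (.a (.b .z (.l 14)) (.l 14)) (.l 14)))) (.a .z (.a .z (.c (.a
(.b (.l 14) .z) (.l 14)) .z)))) (.c (.a .z (.a (.b .z (.c .z (.a .z (.l 20)))) (.c .z (.a (.b .z (.l 20)) (.c .z (.l 20)))))) (.a (.b (.c .z (.b .z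
(.c (.l 20) .z))) (.c (.b (.a .z (.l 20)) (.c (.l 20) .z)) .z)) (.a (.b (.c (.a .z (.l 20)) (.l 20)) (.c (.l 20) (.a .z (.l 20)))) (.l 20))))) (.c (.a
.z (.c (.a (.b (.c (.a .z (.l 20)) .z) .z) (.b (.l 20) (.c (.l 20) (.a .z (.l 20))))) (.a (.b .z (.c (.a (.l 26) .z) .z)) (.c (.b (.a .z (.l 20)) .z)
.z)))) .z)) .z) (.c (.c (.a (.c (.l 14) (.a (.c (.c (.a .z (.l 14)) .z) (.a (.c (.a (.l 20) .z) (.l 20)) (.c .z (.a (.l 20) .z)))) (.c (.l 14) (.a .z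
(.c (.a (.l 14) .z) .z))))) (.c (.a (.c (.l 14) (.a (.l 14) (.c (.l 14) (.a (.l 14) .z)))) (.c (.a (.c .z (.a (.l 14) .z)) .z) (.a (.c .z (.a .z (.l
19))) .z))) (.a (.c (.a (.c (.a (.l 14) .z) .z) (.c .z (.a .z (.l 19)))) (.a (.c .z (.l 19)) (.c (.a (.l 19) .z) .z))) (.c (.a (.c (.a (.l 19) .z) .z)
.z) (.a (.c .z (.a .z (.l 17))) (.c .z (.l 17))))))) (.a (.c (.a (.c (.a (.l 20) (.c (.a (.l 20) .z) .z)) .z) (.c (.a .z (.c (.a .z (.l 19)) .z)) .z))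
(.a (.c (.a (.c (.b (.l 25) .z) .z) (.c (.l 25) .z)) .z) .z)) (.a (.c (.c (.a (.c (.a (.l 19) .z) .z) .z) .z) (.c (.c (.c (.l 23) .z) .z) .z)) (.c (.c
(.c .z (.c (.l 19) .z)) .z) .z)))) .z)) (.a (.c (.c (.c (.c (.a .z (.a (.c (.b (.a .z (.l 14)) .z) .z) (.c (.l 14) (.a (.b (.l 14) .z) (.l 14))))) .z)
(.a (.c (.b (.c .z (.b (.a .z (.l 20)) .z)) (.c (.b (.l 20) .z) .z)) .z) (.c (.a (.b (.c (.a (.l 20) .z) (.l 20)) (.c (.a (.l 20) .z) (.a .z (.l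
20)))) (.c .z (.a (.b (.l 20) .z) .z))) (.a (.b (.c (.a .z (.l 20)) .z) .z) (.b (.l 20) (.c (.a (.l 20) .z) (.a .z (.l 20)))))))) (.c (.a (.c (.c (.a
(.c (.l 52) .z) .z) .z) .z) (.c (.a (.b (.c .z (.a (.l 26) .z)) (.c .z (.l 26))) (.b (.a .z (.c (.l 20) .z)) .z)) (.a (.c (.a .z (.l 26)) .z) (.a (.b
(.c .z (.l 26)) (.l 26)) .z)))) (.a .z (.a .z (.c (.a .z (.c (.b .z (.l 26)) .z)) .z))))) .z) (.c (.a (.c (.c (.a (.c (.l 14) (.a (.c (.l 14) .z) (.l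
14))) (.l 14)) (.a (.c .z (.a (.c .z (.b (.l 20) .z)) .z)) (.c (.a (.c (.l 14) (.a .z (.l 14))) (.l 14)) .z))) (.c (.a (.c (.a (.b (.l 20) (.c (.l 20)
.z)) (.c .z (.a (.l 20) .z))) .z) .z) .z)) (.c (.b (.c (.a (.c (.a (.l 14) (.c .z (.l 14))) (.a (.l 14) (.c (.l 14) .z))) (.c (.a .z (.c (.l 15) .z))
.z)) (.a (.c (.a (.c (.l 14) .z) .z) .z) (.c .z (.a (.c .z (.l 17)) (.l 17))))) (.a (.c (.c (.a (.l 14) (.c .z (.l 14))) (.a (.l 14) (.c (.l 14) .z)))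
(.c (.a (.c (.l 14) .z) .z) .z)) (.c .z (.b (.a (.c .z (.l 17)) (.c .z (.l 17))) (.a (.c .z (.l 17)) .z))))) (.b .z (.a (.c (.a (.c .z (.c (.l 21)
.z)) .z) .z) .z)))) .z))) (.b (.a (.c (.c (.c (.c (.a .z (.a .z (.c (.a .z (.b (.l 14) .z)) .z))) .z) (.a (.c .z (.c (.a .z (.c (.a .z (.l 22)) .z))
.z)) (.c .z (.a (.b .z (.c (.l 22) (.a .z (.l 22)))) (.b .z (.a (.c .z (.l 22)) .z)))))) (.b (.c (.a .z (.a (.c (.c .z (.a .z (.l 26))) .z) .z)) (.a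
.z (.a .z (.c (.a .z (.c (.l 26) .z)) .z)))) (.c (.b .z (.a .z (.a .z (.c (.a .z (.l 22)) .z)))) .z))) .z) (.c (.a (.c (.b (.c (.a (.c (.l 14) (.a .z
(.c (.l 14) .z))) (.l 14)) (.a .z (.c (.a (.c (.l 14) .z) (.l 14)) .z))) (.c (.a (.c (.a (.c (.l 14) .z) (.l 14)) (.a .z (.c (.l 14) .z))) (.l 14))
(.a .z (.b (.c (.a .z (.l 14)) .z) .z)))) (.b .z (.a .z (.c .z (.b .z (.c (.c (.l 23) .z) .z)))))) (.c (.b (.a (.c (.c (.a (.l 14) .z) (.a (.l 14) (.c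
(.l 14) .z))) .z) .z) (.a (.c (.b (.c (.a (.l 14) .z) (.a (.l 14) .z)) (.c (.a (.l 14) .z) .z)) .z) (.c .z (.b (.a .z (.c (.l 15) .z)) (.c (.l 15) (.c
(.l 15) .z)))))) (.b .z (.a (.c .z (.c (.c (.b .z (.l 23)) .z) .z)) (.c .z (.c (.c (.b .z (.l 23)) .z) .z)))))) .z)) (.a (.c (.c (.b (.c .z (.b (.a .z
(.c .z (.a (.c (.l 22) .z) .z))) .z)) .z) (.b (.c .z (.b .z (.a .z (.a .z (.c (.c (.l 23) .z) .z))))) (.c (.b (.a (.c .z (.b (.c .z (.l 23)) .z)) (.a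
(.c .z (.c .z (.l 23))) (.c .z (.c .z (.l 23))))) .z) (.b (.c (.b (.a .z (.c (.l 23) .z)) .z) .z) .z)))) .z) (.c (.a (.c (.b (.c (.a (.b (.c (.a .z
(.l 14)) .z) (.c (.a .z (.l 14)) .z)) (.b (.c (.a (.l 14) .z) .z) .z)) (.a .z (.b .z (.c .z (.c (.l 15) .z))))) (.c (.a .z (.b .z (.c (.a .z (.c (.l
11) .z)) .z))) (.a (.b (.c .z (.c (.l 15) .z)) .z) (.c (.c .z (.l 15)) (.c (.c (.l 15) .z) .z))))) (.b (.a (.c (.b .z (.c .z (.c .z (.l 23)))) (.c (.c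
(.l 23) (.c (.l 23) .z)) .z)) (.c (.c .z (.c .z (.l 23))) (.c (.c (.l 23) (.c (.l 23) .z)) .z))) (.c (.b (.c .z (.c (.c .z (.l 23)) (.l 23))) (.c .z
(.a (.b (.l 23) .z) (.l 23)))) (.b (.c (.c (.l 23) (.c (.l 23) .z)) .z) .z)))) (.c (.b (.a (.c (.b .z (.c (.a .z (.b .z (.l 11))) .z)) (.b (.a .z (.c
(.l 15) .z)) (.c (.l 15) (.c (.l 15) .z)))) (.c (.b (.a (.c (.b .z (.l 11)) .z) (.c (.l 11) .z)) (.c (.l 11) .z)) (.c (.l 15) (.c (.l 15) .z)))) (.c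
(.c (.c (.l 11) (.c (.l 11) (.a (.a .z (.l 11)) (.l 11)))) (.c (.c (.a .z (.a .z (.l 11))) .z) .z)) (.c (.c (.a (.c .z (.l 15)) (.l 15)) (.l 15)) (.c
(.c (.b (.l 15) .z) .z) .z)))) (.b (.c (.c .z (.c .z (.b (.c .z (.l 23)) (.l 23)))) (.c (.c (.l 23) (.c (.l 23) .z)) .z)) (.c (.c (.c .z (.b .z (.c .z
(.l 23)))) (.c (.b (.c .z (.l 23)) (.l 23)) (.l 23))) (.b (.c (.a (.c (.l 23) .z) (.c (.l 23) .z)) .z) (.a (.c (.c (.l 23) .z) .z) .z)))))) .z))))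

theorem vQ128 : ev3 Q128 J3_0 J4_10 J3_7 = 86888942417551726611327 := by decide +kernel

noncomputable def Q16 : QT3 :=
(.c (.c (.a (.c (.c (.c (.a (.b (.b (.b (.a (.b .z (.l 24)) .z) (.a (.l 24) (.a (.l 24) .z))) (.l 24)) (.l 24)) (.b (.a (.b .z (.a (.b .z (.l 24))
.z)) .z) (.a (.c (.a (.l 24) (.b .z (.l 24))) (.b (.a (.l 24) .z) .z)) .z))) (.a (.b (.c (.b (.b (.a (.l 24) .z) (.a (.l 24) .z)) (.l 24)) (.b (.b (.a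
(.l 24) .z) (.l 24)) (.a (.l 24) .z))) (.c (.b (.l 24) (.a (.l 24) .z)) .z)) (.b .z (.a (.c .z (.b .z (.a .z (.l 16)))) (.c (.b .z (.a (.l 16) .z))
(.b .z (.l 16))))))) (.b (.c (.a (.b (.c .z (.b .z (.l 16))) (.c .z (.l 16))) (.a (.c (.b .z (.a .z (.l 16))) (.l 16)) (.b (.c .z (.b .z (.l 16))) (.c
(.b .z (.l 16)) (.l 16))))) (.b (.a .z (.c (.a .z (.b .z (.l 16))) .z)) (.a (.c (.b .z (.l 16)) .z) (.a (.c (.l 16) (.b .z (.l 16))) (.l 16))))) (.c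
(.a (.c (.b (.a .z (.a .z (.l 16))) (.l 16)) (.l 16)) (.l 16)) (.a (.b (.c (.l 16) (.b (.a .z (.l 16)) (.l 16))) (.l 16)) (.l 16))))) (.b (.c (.c (.b
(.a (.a (.l 32) (.a (.l 32) .z)) .z) (.a (.c .z (.l 32)) .z)) (.b (.a (.a (.l 32) (.a (.l 32) .z)) .z) (.a (.l 32) .z))) (.a (.c (.a (.l 32) (.b (.a
(.l 32) .z) (.l 32))) (.c (.a (.l 32) .z) .z)) .z)) (.c (.a (.c (.b .z (.c (.l 16) (.b .z (.l 16)))) (.b (.c (.b (.l 32) .z) (.l 32)) .z)) (.c (.b (.a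
(.c (.b .z (.l 16)) .z) (.c (.l 16) (.b .z (.l 16)))) (.l 16)) (.b .z (.a (.c (.b .z (.l 16)) .z) (.b (.c (.l 16) .z) (.l 16)))))) (.b (.c (.a (.c (.l
32) (.a (.l 32) .z)) .z) .z) (.a (.c (.c (.b (.l 32) .z) (.a (.l 32) .z)) .z) .z))))) (.c (.b (.a (.c .z (.c (.a (.c .z (.b .z (.a (.l 16) .z))) .z)
(.b (.a (.c (.l 16) (.b .z (.l 16))) (.c (.a (.l 16) .z) (.l 16))) (.a (.l 16) (.c (.a (.l 16) .z) (.l 16)))))) (.c .z (.c .z (.a (.c .z (.a (.l 16)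
.z)) .z)))) (.a (.c .z (.a (.c (.b (.c .z (.l 16)) (.c (.a (.l 16) .z) (.l 16))) (.l 16)) (.c (.a (.c .z (.b .z (.l 16))) .z) (.a (.l 16) (.c (.a (.l
16) .z) (.l 16)))))) .z)) (.b (.a (.c (.b (.c (.a .z (.c (.l 16) (.b .z (.l 16)))) .z) (.a (.c (.c (.l 16) (.b .z (.l 16))) .z) (.c (.l 16) (.b .z (.l
16))))) .z) (.c (.b (.a (.c (.l 16) (.a .z (.b .z (.l 16)))) (.c (.c .z (.l 16)) (.l 16))) (.a (.l 16) (.c (.a (.c .z (.l 16)) .z) (.b (.l 16) (.a (.l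
16) .z))))) (.b (.a .z (.c (.a (.b .z (.l 16)) (.l 16)) .z)) (.a (.c (.a (.b .z (.l 16)) (.l 16)) .z) (.c (.b (.a (.l 16) .z) .z) .z))))) (.a (.c (.b
(.a (.c (.l 16) (.b (.c (.l 16) .z) (.l 16))) (.l 16)) (.a (.l 16) (.c (.b (.l 16) (.a (.l 16) .z)) (.b (.a (.l 16) .z) .z)))) (.b (.a .z (.c (.b (.a
.z (.l 16)) (.a (.l 16) .z)) .z)) (.a (.c (.b (.a .z (.l 16)) .z) .z) .z))) (.b (.c (.a (.c (.a (.l 16) (.c .z (.l 16))) (.b (.l 16) .z)) .z) (.a .z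
(.b .z (.c .z (.c .z (.l 19)))))) (.c .z (.a .z (.c .z (.a (.c .z (.l 19)) (.l 19)))))))))) (.a (.c (.b (.c (.a (.c (.b (.c (.l 46) (.b .z (.l 46)))
(.l 46)) .z) .z) (.b (.a (.c (.c (.a (.l 40) .z) .z) .z) .z) .z)) (.c (.b (.a (.c (.a (.l 46) (.a (.l 46) .z)) (.c (.a (.l 46) .z) .z)) .z) (.a (.c
(.a (.l 46) .z) (.b (.a (.l 46) .z) .z)) .z)) .z)) (.b .z (.b (.c .z (.c .z (.b .z (.c (.b (.a .z (.l 26)) .z) .z)))) (.c .z (.c .z (.b (.c .z (.b .z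
(.l 27))) (.l 27))))))) (.b .z (.a (.c (.b .z (.c (.a .z (.b .z (.c .z (.c (.l 19) .z)))) .z)) (.c .z (.b (.c (.b .z (.c .z (.b .z (.l 26)))) (.b .z
(.c (.a (.l 26) .z) .z))) (.c (.b (.c (.a .z (.l 26)) (.a .z (.l 26))) (.a .z (.c (.l 26) .z))) .z)))) (.c (.b (.a (.c (.b .z (.c (.c .z (.l 19)) .z))
.z) (.c (.c (.c (.l 19) .z) .z) .z)) (.c (.a (.c (.c (.a .z (.l 19)) (.l 19)) (.c (.b .z (.l 19)) .z)) (.c (.l 19) .z)) .z)) (.c (.b .z (.c .z (.b (.c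
.z (.l 26)) (.a (.c .z (.l 26)) (.l 26))))) (.c (.b (.b .z (.c (.l 26) .z)) (.a (.l 26) (.c (.l 26) .z))) .z))))))) (.a (.b (.c (.c .z (.c (.b .z (.c
.z (.c (.b (.a (.l 41) .z) .z) .z))) .z)) .z) (.c (.c (.c (.b (.c (.b .z (.c (.b .z (.l 27)) (.a (.l 27) .z))) .z) (.c (.c (.l 27) .z) .z)) .z) .z)
.z)) (.c (.c (.b .z (.c (.a (.b .z (.c (.b .z (.c (.l 27) .z)) .z)) .z) .z)) (.b (.c (.b .z (.c (.b .z (.c .z (.l 41))) .z)) .z) (.c (.c (.a (.c .z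
(.l 41)) (.l 41)) .z) .z))) .z)))

theorem vQ16 : ev3 Q16 J3_0 J4_2 J3_7 = 107805418384789845825812 := by decide +kernel

noncomputable def Q59 : QT3 :=
(.c (.b (.a (.c (.b (.c (.b .z (.a (.c .z (.l 24)) .z)) (.b (.a (.l 24) .z) (.a (.c (.l 24) (.b (.l 24) .z)) .z))) (.c (.b (.a (.c (.c .z (.l 24)) (.b
(.l 24) .z)) .z) .z) .z)) (.b (.c (.b (.a (.c (.l 24) (.b (.l 24) .z)) .z) .z) (.b .z (.a (.c .z (.a (.l 20) .z)) .z))) (.c (.b .z (.a (.a (.l 20) .z)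
.z)) (.a (.b (.a (.l 20) .z) (.l 20)) .z)))) (.a (.c .z (.b (.c (.a .z (.c .z (.l 47))) (.l 47)) (.c .z (.a .z (.b (.l 47) .z))))) (.c (.b (.a .z (.c
(.c (.c (.b .z (.l 9)) (.a .z (.l 9))) .z) .z)) (.c (.c (.a .z (.a .z (.c (.l 9) .z))) .z) .z)) (.c .z (.a (.c (.a (.l 47) .z) .z) (.c .z (.a (.b .z
(.c .z (.l 10))) (.b (.c .z (.l 10)) (.l 10))))))))) (.a (.c (.b (.c (.b .z (.a (.a (.l 20) .z) .z)) (.a (.b (.a (.l 20) .z) (.l 20)) .z)) (.a (.c (.b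
(.a (.l 20) (.a (.l 20) .z)) (.l 20)) (.l 20)) (.a (.c .z (.a (.l 20) .z)) .z))) (.a (.l 20) (.a (.b (.a (.c (.b .z (.l 20)) (.l 20)) (.c .z (.b .z
(.l 20)))) (.a (.l 20) (.c (.b .z (.l 20)) (.l 20)))) (.b .z (.a (.c .z (.b .z (.l 20))) .z))))) (.c (.c (.a .z (.a .z (.c (.a .z (.c (.a .z (.l 9))
.z)) (.a (.l 44) .z)))) (.a .z (.a .z (.a .z (.c (.l 44) .z))))) (.a .z (.c .z (.a (.c .z (.a .z (.b .z (.c .z (.l 10))))) (.c (.a (.b .z (.c .z (.l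
10))) (.b (.c .z (.l 10)) (.l 10))) (.l 10)))))))) (.b (.a (.b (.c (.b (.c (.a (.b .z (.a (.l 20) .z)) .z) (.c (.a (.a (.l 20) .z) .z) (.a (.a (.l 20)
.z) .z))) (.c (.a (.a (.l 20) (.a (.l 20) .z)) .z) (.c (.a (.l 20) .z) (.a (.l 20) .z)))) (.c (.c (.a (.c (.a (.l 20) .z) .z) (.a (.c .z (.a .z (.l
10))) (.c (.a .z (.l 10)) (.a (.l 10) .z)))) .z) (.c (.a .z (.a .z (.c (.b (.l 12) .z) .z))) .z))) (.c (.c (.a (.l 20) (.a (.a (.b .z (.l 20)) .z)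
.z)) (.c (.a (.l 20) (.a (.a (.l 20) .z) .z)) (.a (.l 20) (.a .z (.c .z (.a .z (.l 10))))))) (.c (.c (.a .z (.a (.c .z (.a .z (.l 10))) (.l 10))) (.a
(.c .z (.l 28)) .z)) (.c (.a (.c (.l 28) .z) (.a .z (.c .z (.a .z (.l 12))))) (.a .z (.a .z (.c (.b .z (.l 12)) .z))))))) (.c (.a (.c (.a .z (.c .z
(.a .z (.c .z (.b .z (.l 10)))))) (.c (.a .z (.a (.c (.b .z (.l 10)) (.l 10)) (.l 10))) (.a (.a (.c (.b .z (.l 10)) (.l 10)) (.l 10)) (.c (.a (.l 10)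
(.b .z (.l 10))) (.a (.b .z (.l 10)) .z))))) (.c (.a (.c (.a .z (.c .z (.b .z (.l 10)))) (.a (.c (.b .z (.l 10)) (.l 10)) (.l 10))) (.c (.l 10) (.a
(.c (.l 10) .z) .z))) (.a (.c (.a (.c (.l 10) (.b .z (.l 10))) (.c (.b .z (.l 10)) .z)) (.a .z (.c .z (.b (.l 11) .z)))) (.c (.a .z (.c (.a .z (.l
11)) (.l 11))) (.l 11))))) (.a (.c (.c (.a (.b (.c (.a (.l 10) .z) .z) (.c (.l 10) (.a (.l 10) .z))) .z) (.a (.b (.c .z (.l 12)) .z) (.b (.c .z (.b .z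
(.l 12))) (.a (.c .z (.l 12)) (.l 12))))) (.c (.a (.b (.c (.l 12) (.b .z (.l 12))) (.c (.a .z (.l 12)) (.l 12))) (.l 12)) (.b (.c (.a .z (.b .z (.l
12))) .z) (.c (.l 12) (.a (.b .z (.l 12)) (.l 12)))))) (.c (.a (.c (.a (.c (.b (.l 11) .z) .z) (.b (.l 11) .z)) (.b .z (.c .z (.l 12)))) (.c (.b (.l
11) (.c (.l 11) (.b (.l 11) .z))) (.b (.c (.b (.l 11) .z) .z) .z))) (.c (.b (.a (.c (.b .z (.l 12)) (.l 12)) .z) (.a (.l 12) (.c (.b .z (.l 12)) (.l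
12)))) (.a (.b (.c (.l 12) (.b .z (.l 12))) (.l 12)) (.c (.l 12) (.a (.l 12) (.b (.l 12) .z))))))))) (.c (.a (.c (.c (.a (.l 20) (.a (.l 20) (.b .z
(.a (.l 20) .z)))) (.a (.l 20) (.a (.l 20) .z))) (.c (.a (.l 20) (.a (.c (.l 20) (.b (.l 20) .z)) .z)) (.a (.c (.b (.l 20) (.a (.l 20) .z)) (.b (.a
(.l 20) .z) .z)) (.a (.c .z (.b .z (.a .z (.l 10)))) (.c (.a .z (.b .z (.l 10))) (.l 10)))))) (.a (.c (.a .z (.c .z (.a (.c .z (.b .z (.l 10))) (.l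
10)))) (.a (.c (.a (.c .z (.b .z (.l 10))) (.c (.b .z (.l 10)) (.l 10))) (.l 10)) (.l 10))) (.c (.a (.c (.a (.b (.c .z (.l 10)) (.l 10)) (.l 10)) (.l
10)) (.c (.l 10) (.a (.l 10) (.c (.l 10) .z)))) (.a (.c (.a (.l 10) (.c (.l 10) (.b .z (.l 10)))) (.a (.c (.l 10) (.b .z (.l 10))) .z)) (.c (.a (.c
(.b .z (.l 10)) .z) .z) (.a .z (.c (.a .z (.l 11)) (.b (.l 11) .z)))))))) (.a (.c (.c (.a .z (.a (.c (.b (.a .z (.l 10)) (.a .z (.l 10))) .z) (.c (.l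
10) (.a (.b (.l 10) .z) (.l 10))))) (.a (.l 28) .z)) (.c (.a (.l 28) .z) (.a (.b .z (.l 28)) (.b (.a .z (.c .z (.a .z (.l 12)))) .z)))) (.a (.c (.a
(.c (.l 10) (.b (.c (.a (.l 10) .z) .z) (.c (.l 10) .z))) (.c (.a (.b (.c (.l 10) .z) (.l 10)) (.b .z (.c (.l 10) .z))) (.b (.a .z (.c .z (.l 12)))
.z))) (.a (.c (.b (.c .z (.a .z (.l 12))) .z) (.b (.l 12) (.a (.c .z (.l 12)) (.l 12)))) (.c (.b (.l 12) (.a (.c .z (.l 12)) (.l 12))) (.l 12)))) (.c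
(.a (.c .z (.a (.b (.l 12) (.c .z (.l 12))) (.l 12))) (.c (.b .z (.c .z (.b .z (.l 12)))) (.b (.c (.b .z (.l 12)) (.l 12)) (.l 12)))) (.c (.a (.l 12)
(.c (.l 12) (.a (.l 12) (.b (.l 12) .z)))) (.a (.c (.l 12) (.b (.l 12) (.a (.l 12) .z))) (.c (.a (.b (.l 12) .z) .z) .z)))))))))

theorem vQ59 : ev3 Q59 J3_0 J5_12 J4_13 = 86906529205950393726473 := by decide +kernel

noncomputable def Q161 : QT3 :=
(.b (.a (.b (.c (.a (.c (.b (.a (.c .z (.c (.c (.l 15) .z) .z)) (.c (.c .z (.l 15)) (.b (.c (.l 15) .z) .z))) (.a (.c (.c (.c (.l 17) .z) .z) .z) .z))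
.z) (.c (.b (.a (.c (.b (.l 15) (.a (.l 15) .z)) .z) (.c .z (.b .z (.a .z (.c (.l 13) .z))))) (.a (.c (.b .z (.a .z (.c .z (.l 13)))) (.b .z (.c (.l
13) .z))) (.c (.b (.a .z (.c .z (.l 13))) (.l 13)) (.c (.c (.l 13) (.c (.l 13) .z)) .z)))) (.b (.a .z (.b (.c .z (.c (.l 21) .z)) (.c (.c (.l 18) .z)
.z))) (.c (.c (.l 18) (.c (.l 18) .z)) .z)))) .z) (.c (.a (.c (.b (.a .z (.c (.b .z (.a .z (.c .z (.l 13)))) (.b (.a .z (.c (.l 13) .z)) (.c (.c (.l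
13) .z) .z)))) (.a (.c (.b (.c .z (.a .z (.l 13))) (.c (.a .z (.l 13)) (.l 13))) (.c (.c (.l 13) (.c (.l 13) .z)) .z)) (.c (.l 13) (.c (.c (.l 13) .z)
.z)))) (.b (.a (.c (.b .z (.c (.l 18) .z)) .z) (.c (.c (.l 18) (.c (.l 18) .z)) .z)) (.c (.c (.l 18) (.c (.l 18) .z)) (.c (.c (.b .z (.l 23)) .z)
.z)))) (.c (.b (.a (.c (.b (.a (.c .z (.l 13)) (.l 13)) (.l 13)) (.c (.c (.l 13) (.c (.l 13) .z)) .z)) (.c (.l 13) (.c (.c (.l 13) (.c (.l 13) .z))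
.z))) (.c (.l 13) (.c (.c (.l 13) .z) (.c (.l 19) .z)))) (.c (.c (.c (.c (.a (.l 18) .z) (.l 18)) (.l 18)) (.b (.c (.l 18) (.c (.l 18) .z)) (.c (.l
18) .z))) .z))) .z)) (.b (.a (.c (.c (.b (.a (.c (.b (.a .z (.c .z (.l 13))) (.a (.c .z (.l 13)) (.l 13))) (.c (.l 13) .z)) (.c (.l 13) (.c (.l 13)
.z))) (.c (.l 13) (.c (.c (.l 13) (.c (.l 13) .z)) (.c (.c .z (.l 19)) .z)))) (.c (.c (.c (.c .z (.a (.l 18) .z)) (.l 18)) (.c (.b .z (.a (.l 18) .z))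
.z)) (.c (.b (.c (.l 21) (.c (.l 21) .z)) .z) .z))) .z) (.c (.c (.c (.l 13) (.c (.c (.l 13) (.c (.b (.l 13) (.b (.l 13) .z)) .z)) (.c (.c .z (.l 19))
(.c (.l 19) (.a .z (.l 19)))))) (.c (.c .z (.c .z (.b (.c .z (.l 21)) .z))) (.c (.c (.l 21) .z) (.b (.c (.l 27) .z) .z)))) (.c (.c (.c .z (.c (.c .z
(.l 37)) .z)) .z) .z))) (.c (.c (.c (.l 13) (.c (.c (.c (.b (.l 13) (.a (.l 13) (.b (.l 13) .z))) (.b (.a (.l 13) (.b (.l 13) .z)) (.a (.b (.l 13) .z)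
.z))) (.c .z (.b .z (.a .z (.l 19))))) (.c (.l 19) (.a (.c (.l 19) (.a .z (.l 19))) (.l 19))))) (.c (.c (.a (.c .z (.a (.l 18) (.c .z (.l 18)))) (.c
(.a (.c (.l 19) .z) (.l 19)) .z)) (.a (.c (.l 18) (.b (.a (.l 18) .z) (.b (.l 18) .z))) (.c (.b (.a (.l 18) .z) .z) (.b .z (.a (.l 18) .z))))) .z))
.z))) (.c (.c (.c (.c (.l 13) (.b (.c (.l 13) (.a (.l 13) (.c (.b (.l 13) (.a (.l 13) (.b (.l 13) .z))) (.b (.a (.l 13) (.b (.l 13) .z)) (.a (.b (.l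
13) .z) .z))))) (.c (.a (.l 13) (.b (.c (.l 13) (.a (.l 13) (.b (.l 13) .z))) (.c (.a (.l 13) (.b (.l 13) .z)) (.a (.b (.l 13) .z) .z)))) (.a (.b (.c
(.l 13) (.a (.l 13) .z)) (.c (.a (.b (.l 13) .z) .z) .z)) (.b (.c (.a (.b (.l 13) .z) .z) .z) .z))))) (.c (.c (.b (.a (.c (.b (.l 13) (.a (.l 13) .z))
(.b (.a (.b (.l 13) .z) .z) .z)) (.c (.b (.a (.b (.l 13) .z) .z) .z) (.b .z (.a .z (.l 19))))) (.a .z (.c .z (.a .z (.l 19))))) (.b (.a .z (.c (.b (.a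
.z (.l 19)) (.l 19)) (.l 19))) (.a .z (.a (.a (.c .z (.l 19)) (.l 19)) (.l 19))))) (.a (.c (.a (.b (.c .z (.a .z (.l 19))) .z) (.b (.l 19) (.c (.a .z
(.l 19)) (.l 19)))) (.a (.b .z (.c (.a .z (.l 19)) .z)) (.b (.c (.a .z (.l 19)) .z) (.l 19)))) (.l 19)))) (.c (.a (.c (.a (.c (.b (.c (.a (.l 18) .z)
(.b (.l 18) .z)) .z) (.b (.b (.b (.l 18) .z) .z) .z)) (.c (.b .z (.a .z (.c (.l 19) .z))) (.b (.a (.b (.l 18) .z) .z) .z))) (.a (.b (.b (.c .z (.b .z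
(.l 23))) (.c .z (.l 23))) (.c .z (.c (.a .z (.l 23)) (.b (.l 23) .z)))) (.b (.b .z (.c .z (.l 23))) (.c (.a (.c .z (.l 23)) (.b (.l 23) .z)) (.c (.l
23) (.b (.l 23) .z)))))) (.c (.a (.c (.b (.a .z (.c (.l 19) .z)) (.l 19)) (.b .z (.a .z (.c (.l 19) .z)))) (.c (.l 19) (.b (.a .z (.l 19)) (.b (.l 19)
(.a (.l 19) .z))))) (.a (.b (.c .z (.b .z (.b .z (.l 23)))) (.c .z (.a (.c (.l 23) .z) .z))) .z))) (.a (.b (.c (.c (.c (.b (.l 23) (.a (.l 23) .z))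
.z) (.c .z (.l 29))) (.b (.a .z (.c (.l 29) .z)) (.a .z (.c (.l 29) .z)))) (.c (.a .z (.b (.c .z (.l 29)) .z)) (.a (.b (.c (.l 29) .z) .z) .z))) .z)))
.z))

theorem vQ161 : ev3 Q161 J4_4 J4_9 J3_7 = 105494126468902197513043 := by decide +kernel

noncomputable def Q89 : QT3 :=
(.b (.a (.b (.c (.a (.c (.c (.a (.c (.l 15) (.b .z (.a .z (.l 15)))) (.l 15)) (.a (.c .z (.b (.a (.l 17) .z) .z)) (.c (.b .z (.c (.l 15) .z)) .z)))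
(.c (.a (.c (.b (.l 17) (.a (.l 17) .z)) (.c (.c (.l 17) .z) .z)) (.c (.b (.a (.l 17) .z) .z) .z)) (.c (.a .z (.c (.a .z (.l 23)) (.l 23))) (.b (.c
(.a .z (.l 23)) .z) .z)))) (.c (.c (.c (.l 15) (.a (.c (.l 15) (.b .z (.l 15))) (.c (.b .z (.l 15)) .z))) (.a (.c .z (.b (.a .z (.l 21)) (.c .z (.l
21)))) (.c (.c .z (.b (.l 21) .z)) (.l 21)))) (.b (.c (.a .z (.c (.l 21) .z)) (.a (.a (.c (.l 23) .z) .z) .z)) (.a (.c (.c (.a .z (.l 21)) .z) .z) (.c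
(.c (.l 21) (.c (.l 21) .z)) .z))))) .z) (.c (.a (.c (.c (.l 15) (.a (.c (.b (.a .z (.l 15)) (.l 15)) (.b .z (.a .z (.l 15)))) (.c (.l 15) (.b .z (.l
15))))) (.b (.c (.a (.c .z (.c (.l 17) .z)) .z) .z) .z)) (.c (.b (.a (.c (.l 15) (.c (.c (.l 15) .z) .z)) (.c (.l 15) .z)) (.a (.c (.l 15) .z) (.c (.b
(.a (.l 15) .z) .z) .z))) (.b (.a (.c (.b (.c (.l 21) .z) .z) .z) .z) (.a .z (.c (.b .z (.c (.l 16) .z)) (.c (.l 22) .z)))))) .z)) (.b (.a (.c (.c (.b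
(.a (.c (.c (.l 15) .z) (.l 21)) (.c (.c (.c (.l 15) .z) (.c .z (.l 21))) (.b (.l 21) (.a (.l 21) .z)))) (.a (.c (.c (.l 15) .z) (.b (.c .z (.l 21))
.z)) .z)) (.b (.a (.c (.c (.c (.l 21) .z) .z) .z) .z) (.a .z (.c .z (.b .z (.c (.l 22) .z)))))) .z) (.c (.c (.b .z (.a .z (.c .z (.c .z (.c .z (.l
16)))))) (.b (.a .z (.c .z (.c (.c (.l 22) .z) .z))) (.c (.c .z (.c (.c .z (.l 22)) (.l 22))) (.c (.c (.l 22) .z) .z)))) .z)) (.a (.c (.c (.b (.a .z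
(.c .z (.b .z (.c .z (.l 16))))) (.a (.c .z (.b (.a .z (.l 16)) (.l 16))) (.c .z (.c (.c .z (.l 16)) (.l 16))))) (.b (.a (.c .z (.b .z (.c (.l 22)
.z))) (.c (.c (.c (.l 16) .z) (.c .z (.l 22))) (.c (.l 22) .z))) (.c (.c (.c (.l 16) .z) .z) (.c (.l 22) .z)))) .z) (.c (.c (.b (.a (.c .z (.c .z (.l
16))) (.c .z (.c .z (.l 16)))) (.c .z (.c (.c .z (.a (.l 16) .z)) (.l 16)))) (.c (.c (.c (.a (.c (.l 16) .z) .z) .z) (.c .z (.b (.l 22) .z))) (.c (.c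
(.l 22) (.a (.c (.l 22) .z) .z)) .z))) .z)))) (.a (.b (.c (.a (.c (.b (.a (.c (.l 15) (.b (.l 15) (.a (.l 15) .z))) (.c (.b (.l 15) (.a (.l 15) .z))
(.b (.a (.l 15) .z) .z))) (.a (.c (.b (.l 15) .z) .z) (.c .z (.b .z (.a .z (.l 16)))))) (.b .z (.a .z (.c (.c (.l 16) .z) (.c (.c .z (.l 23)) (.c (.l
23) .z)))))) (.c (.b (.a (.c .z (.b .z (.a .z (.l 16)))) (.c .z (.b (.a .z (.l 16)) (.l 16)))) (.a (.c .z (.l 16)) (.c (.c .z (.c .z (.l 16))) (.l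
16)))) (.b (.a (.c (.b .z (.c (.l 16) .z)) .z) (.c (.c (.l 16) .z) .z)) (.c (.c (.l 16) (.c (.a (.l 16) .z) .z)) (.c .z (.a (.c (.l 23) .z) .z))))))
(.a .z (.c (.c (.c (.c (.c .z (.l 29)) (.c (.l 29) .z)) .z) .z) .z))) (.c (.a (.c (.b (.a (.c .z (.b (.a .z (.l 16)) (.l 16))) (.c (.b .z (.c .z (.l
16))) (.l 16))) (.a (.c .z (.c (.l 16) (.c (.l 16) .z))) (.c .z (.l 16)))) (.c (.c (.b (.c (.a .z (.l 16)) .z) .z) (.b .z (.a (.c (.l 17) .z) .z)))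
(.c (.c (.c .z (.a .z (.l 23))) (.l 23)) (.c (.l 23) .z)))) (.c (.c (.c .z (.b (.c (.b (.l 16) .z) (.l 16)) .z)) (.l 16)) (.c (.c (.b (.l 16) (.a (.c
(.l 16) .z) (.l 16))) .z) (.c (.a (.b (.c .z (.l 23)) (.c .z (.l 23))) (.b .z (.c .z (.l 23)))) (.c (.l 23) .z))))) (.c (.c (.c (.c (.a .z (.c .z (.l
29))) (.c (.a (.l 29) .z) .z)) .z) .z) .z))) (.b (.a (.c (.c (.b (.a (.c .z (.l 16)) (.c .z (.l 16))) (.c (.c .z (.c .z (.a (.l 16) .z))) (.l 16)))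
(.c (.c (.c (.l 16) (.a (.c (.l 16) .z) .z)) .z) (.c (.a (.c .z (.b (.l 22) .z)) (.b (.c .z (.l 22)) .z)) .z))) .z) (.c (.c (.c .z (.c (.c (.a (.b .z
(.l 16)) .z) (.l 16)) (.c (.l 16) (.a (.l 16) (.c (.l 16) .z))))) (.c (.c (.c (.a (.c (.l 16) .z) .z) .z) .z) .z)) .z)) (.c (.c (.c (.c .z (.b (.c .z
(.a (.l 16) .z)) .z)) (.c (.b (.l 16) (.c (.b (.a (.l 16) .z) .z) (.l 16))) (.a (.l 16) (.c (.l 16) (.a (.l 16) (.c (.l 16) .z)))))) (.c (.a (.c (.c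
(.l 16) (.a (.l 16) .z)) .z) (.c (.a (.c (.c (.l 16) .z) .z) .z) .z)) .z)) (.c (.a (.c (.c (.a (.c (.l 29) .z) .z) .z) .z) .z) .z)))))

theorem vQ89 : ev3 Q89 J4_4 J4_6 J3_7 = 80102343373854908788278 := by decide +kernel

noncomputable def Q189 : QT3 :=
(.b (.a (.b (.c (.a .z (.b (.c .z (.a .z (.b (.c (.c (.c .z (.l 19)) .z) .z) .z))) (.c (.a (.c .z (.b (.c (.c .z (.l 15)) .z) (.c (.c .z (.l 15))
.z))) .z) .z))) (.a (.b .z (.c (.c (.b .z (.c (.c (.c .z (.l 25)) .z) .z)) .z) .z)) (.b .z (.b .z (.c (.c (.c (.c (.l 25) .z) .z) .z) .z))))) (.c (.a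
(.b (.c .z (.c (.b (.c (.b .z (.c (.l 17) .z)) .z) .z) .z)) (.c .z (.c (.b (.c .z (.c (.l 19) .z)) (.c (.c .z (.l 19)) (.c (.l 19) .z))) (.c .z (.b .z
(.c .z (.l 27))))))) (.c .z (.b (.c (.b .z (.c .z (.c (.c .z (.l 19)) (.c (.l 19) .z)))) (.b .z (.c .z (.c (.l 27) .z)))) (.c (.c (.c .z (.b (.c .z
(.l 19)) (.l 19))) (.l 19)) .z)))) .z)) (.b (.a (.c (.b (.c .z (.c (.c (.c (.c (.a .z (.l 19)) (.l 19)) (.b (.l 19) (.c (.l 19) .z))) .z) .z)) .z) (.b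
.z (.b .z (.c (.c (.c (.c (.c (.l 25) .z) .z) .z) .z) .z)))) (.c (.c (.c (.c .z (.b (.c .z (.b (.a .z (.l 14)) .z)) .z)) (.c (.c (.b (.b (.l 14) (.a
.z (.l 14))) .z) (.b (.l 14) (.a .z (.b (.l 14) .z)))) (.c (.b (.c (.a .z (.l 14)) .z) .z) .z))) (.b (.c (.c (.c (.a (.l 19) (.c .z (.l 19))) (.b (.c
(.l 19) .z) .z)) .z) .z) (.b (.c .z (.b .z (.c (.a .z (.l 23)) .z))) .z))) .z)) (.c (.c .z (.b (.b (.c (.a (.b .z (.c .z (.c .z (.l 19)))) (.b .z (.c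
.z (.c .z (.l 19))))) (.a (.c .z (.c .z (.c .z (.l 25)))) (.b (.c .z (.c .z (.l 25))) (.c .z (.c .z (.l 25)))))) (.c (.a (.c .z (.c (.c .z (.l 19))
(.l 19))) (.c .z (.l 19))) (.c .z (.c .z (.a .z (.c (.l 25) .z)))))) (.c (.c (.c (.b .z (.c (.b .z (.l 19)) (.l 19))) (.b (.c (.b .z (.l 19)) (.l 19))
(.l 19))) (.l 19)) (.c (.b (.c (.a (.c (.l 19) .z) (.c (.l 19) .z)) .z) (.c (.b (.l 19) (.a .z (.l 19))) .z)) .z)))) .z))) (.b (.c (.c (.b (.c (.b (.c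
.z (.a .z (.b .z (.l 31)))) (.c (.a (.b .z (.c .z (.l 31))) (.b (.c .z (.l 31)) (.l 31))) (.l 31))) (.c (.b (.c (.a .z (.b .z (.l 31))) .z) (.c (.a
(.b .z (.l 31)) (.b (.l 31) .z)) .z)) (.b (.c .z (.a (.b .z (.c .z (.l 19))) (.b (.c .z (.l 19)) (.l 19)))) (.c (.a (.b .z (.c .z (.l 19))) (.b (.c .z
(.l 19)) (.l 19))) (.l 19))))) (.c (.c (.b (.b (.b (.l 31) .z) .z) .z) (.b (.c (.b (.b (.l 31) .z) .z) .z) .z)) (.c (.b (.c .z (.a .z (.b (.c .z (.l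
19)) (.l 19)))) (.a (.c .z (.b (.a .z (.l 19)) .z)) (.c (.a (.c .z (.l 19)) (.l 19)) (.b (.l 19) (.a .z (.l 19)))))) (.b (.a (.c (.b (.l 19) .z) .z)
(.c (.l 19) (.b (.l 19) (.a .z (.l 19))))) (.a .z (.c (.b (.a .z (.l 19)) .z) .z)))))) (.b (.c (.c (.b (.a (.c (.l 19) (.b (.l 19) (.a .z (.l 19))))
(.l 19)) (.a (.c (.b (.a .z (.l 19)) .z) .z) (.c (.l 19) (.b (.l 19) (.a .z (.l 19)))))) (.b (.a (.c (.b (.a .z (.l 19)) .z) .z) (.c (.l 19) (.b (.l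
19) .z))) (.a .z (.c (.b (.a .z (.l 19)) .z) .z)))) .z) (.c (.b (.c (.a .z (.c (.b (.a .z (.l 19)) .z) .z)) .z) .z) .z))) .z) (.c (.c (.b (.c (.c .z
(.b (.a .z (.c .z (.b (.a .z (.l 19)) (.a .z (.l 19))))) (.a .z (.c (.b (.a .z (.l 19)) .z) .z)))) (.b (.c (.a .z (.c (.b (.a .z (.l 19)) .z) .z)) .z)
.z)) .z) (.b (.c (.b (.c .z (.a .z (.b .z (.c .z (.a .z (.l 22)))))) .z) (.b .z (.a (.c (.a (.b .z (.c .z (.l 26))) .z) (.c (.a (.l 26) (.c (.l 26)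
.z)) (.a (.c (.l 26) .z) .z))) .z))) (.c .z (.a (.c (.c (.b (.a (.c .z (.l 26)) .z) (.a (.a (.l 26) .z) .z)) (.a (.l 26) (.a (.l 26) (.c .z (.l
26))))) (.b (.a (.l 26) (.c (.l 26) .z)) (.c (.a (.a .z (.l 26)) (.a (.l 26) .z)) .z))) .z)))) .z)))

theorem vQ189 : ev3 Q189 J4_4 J3_6 J3_7 = 55077713011024969287743 := by decide +kernel

noncomputable def Q142 : QT3 :=
(.a (.b (.c .z (.b (.c (.b (.c (.a (.b (.c .z (.c .z (.l 29))) .z) (.c .z (.c (.b (.b (.l 29) .z) .z) (.a (.b (.l 29) .z) .z)))) (.a .z (.b (.a (.c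
(.c (.l 29) (.c .z (.a .z (.l 11)))) (.b (.l 11) (.a (.c (.l 11) .z) (.c (.l 11) .z)))) (.c (.c .z (.b (.c .z (.l 11)) .z)) (.c (.b (.a (.l 11) .z)
.z) .z))) .z))) (.a (.c .z (.b (.c (.a (.c (.l 33) .z) .z) .z) (.c (.a (.c (.l 33) .z) .z) .z))) (.c .z (.a (.b .z (.c .z (.a .z (.a .z (.l 23)))))
.z)))) (.b (.a (.c .z (.c (.a .z (.b (.c .z (.a .z (.c .z (.l 13)))) .z)) (.a .z (.b (.c (.a .z (.b (.l 13) .z)) .z) .z)))) (.c (.b (.a .z (.c .z (.b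
(.a .z (.l 14)) .z))) (.a .z (.c .z (.a (.b .z (.l 23)) .z)))) (.a (.b (.c .z (.c (.l 13) (.a .z (.l 13)))) (.c .z (.c (.a .z (.b (.l 13) .z)) .z)))
(.b (.c .z (.a (.b (.c .z (.l 13)) (.l 13)) (.b .z (.c .z (.l 13))))) (.c (.a (.c (.l 23) .z) .z) (.a (.c (.c .z (.l 13)) (.b (.l 13) .z)) .z))))))
(.a (.c .z (.c .z (.a .z (.c .z (.a .z (.b .z (.l 15))))))) (.c (.a (.c (.a .z (.b (.b .z (.l 23)) (.l 23))) (.b (.a .z (.b .z (.l 23))) (.c (.a .z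
(.l 23)) .z))) (.b (.c (.a (.b .z (.l 23)) .z) (.a (.l 23) (.b .z (.l 23)))) (.c (.l 23) (.a (.b (.l 23) .z) .z)))) (.a (.b (.c (.c (.a .z (.l 23))
.z) (.a (.c .z (.l 15)) .z)) .z) (.b (.c (.a (.l 23) .z) .z) .z)))))) (.c (.a (.b .z (.c .z (.a (.c .z (.b .z (.b (.l 47) .z))) .z))) (.b (.c .z (.a
(.c .z (.b (.a .z (.a .z (.l 23))) (.a .z (.c .z (.l 23))))) (.b (.c .z (.c .z (.a (.l 23) .z))) .z))) .z)) (.a (.b (.c (.a (.c .z (.b (.a (.l 35) .z)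
(.c .z (.l 35)))) .z) .z) .z) (.b (.c (.a (.b (.c (.a .z (.l 23)) .z) .z) (.b (.c (.a (.b (.l 23) .z) .z) .z) .z)) (.a .z (.b .z (.c .z (.c .z (.b .z
(.l 16))))))) .z))))) .z) (.b (.c (.a (.b .z (.c .z (.a .z (.b (.c .z (.c (.b .z (.c .z (.a (.l 22) .z))) (.b (.c .z (.l 22)) (.c (.b (.l 22) .z)
.z)))) .z)))) .z) (.a (.b (.c (.b (.c .z (.c (.b (.a (.c (.b (.c .z (.l 11)) .z) (.b (.a (.l 11) .z) .z)) .z) .z) .z)) (.c (.c (.b .z (.a .z (.c .z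
(.b (.l 22) .z)))) (.b (.a .z (.c (.a .z (.l 22)) (.b (.l 22) .z))) .z)) .z)) (.b (.c (.a (.b (.c .z (.l 14)) (.c (.c .z (.a (.l 14) .z)) (.a .z (.b
(.l 14) .z)))) (.c .z (.c .z (.a (.l 14) (.c .z (.l 14)))))) (.a (.b (.c (.a (.b (.l 14) .z) (.l 14)) .z) .z) (.b (.l 14) (.c (.a (.b (.l 14) .z) (.l
14)) (.a .z (.b (.l 14) .z)))))) (.c (.a .z (.b (.c .z (.a .z (.c .z (.l 14)))) .z)) .z))) (.c (.b (.c (.a .z (.b (.c (.c (.b (.l 22) .z) .z) .z) .z))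
.z) .z) .z)) (.b (.c (.c .z (.b (.a (.c (.b (.c .z (.b (.l 22) .z)) .z) (.b .z (.c .z (.b .z (.l 23))))) (.c .z (.b .z (.c .z (.c .z (.l 23)))))) .z))
(.b (.c (.c (.c (.b .z (.a .z (.c (.l 23) .z))) .z) .z) (.c (.a (.c (.a (.l 14) .z) (.l 14)) .z) (.a (.c (.l 14) (.a (.l 14) (.c (.l 14) .z))) (.c (.a
(.c (.l 14) .z) .z) .z)))) (.a (.c .z (.b (.a (.c (.l 14) .z) (.c (.c .z (.l 14)) (.c (.l 14) .z))) (.a .z (.c (.b (.l 14) .z) .z)))) (.c .z (.c (.a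
(.c .z (.a (.l 14) .z)) .z) .z))))) (.c .z (.a .z (.b (.c (.a (.b (.c (.l 38) .z) .z) (.b (.c (.l 38) .z) (.c (.l 38) .z))) .z) .z)))))) .z))

theorem vQ142 : ev3 Q142 J3_1 J3_6 J3_6 = 30042643934990541612812 := by decide +kernel

noncomputable def Q166 : QT3 :=
(.b (.c (.c (.b (.c (.a (.c (.a (.c (.a (.c (.b (.l 13) .z) (.l 13)) (.l 13)) (.l 13)) (.l 13)) (.c (.b (.c (.l 13) (.a (.b (.l 13) .z) .z)) (.c (.a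
(.b (.l 13) .z) .z) .z)) .z)) (.c (.c (.l 13) (.b (.c (.l 13) (.a (.l 13) (.b (.l 13) .z))) (.c (.a (.l 13) (.b (.l 13) .z)) .z))) (.c (.b (.c (.a (.b
(.l 13) .z) .z) .z) .z) .z))) (.a (.c (.a (.b (.a .z (.l 35)) .z) .z) (.a (.c .z (.a .z (.c .z (.l 19)))) (.c (.a .z (.c .z (.l 19))) (.l 19)))) (.c
(.a (.c .z (.a .z (.c .z (.l 19)))) (.c (.a (.c .z (.l 19)) (.l 19)) (.l 19))) (.a (.l 19) (.b (.l 19) (.c (.l 19) (.a (.l 19) .z))))))) (.a (.c (.b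
(.c (.a (.c (.a .z (.l 13)) (.c (.l 13) (.b (.l 13) .z))) (.c (.l 13) (.c (.b (.l 13) .z) .z))) .z) (.a .z (.c (.c (.c (.l 13) (.b (.l 13) .z)) .z)
.z))) (.b (.a .z (.c .z (.c .z (.a .z (.l 19))))) (.a (.c .z (.b .z (.a (.l 17) .z))) .z))) (.c (.c (.c (.b (.c (.l 13) (.a (.l 13) .z)) (.c (.a (.b
(.l 13) .z) .z) .z)) .z) .z) (.c (.a (.c .z (.a .z (.c .z (.l 19)))) (.b (.c (.a .z (.l 19)) (.l 19)) .z)) (.a (.b (.c (.l 19) (.a (.l 19) .z)) .z)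
.z))))) (.a (.b (.b (.c (.c (.a .z (.c (.a .z (.l 19)) .z)) .z) .z) (.c (.a .z (.c (.c (.l 19) (.a .z (.l 19))) .z)) .z)) (.b (.a .z (.c (.c (.b (.c
(.l 19) .z) .z) .z) .z)) (.a (.c (.c (.b (.a (.l 17) .z) (.l 17)) .z) .z) .z))) (.b (.c (.c (.a (.b (.l 19) (.c (.a (.l 19) .z) .z)) (.b (.c (.a (.l
19) .z) .z) .z)) .z) .z) .z))) .z) (.c (.a (.c (.b (.c (.b .z (.a (.c .z (.a (.c .z (.l 15)) (.l 15))) (.c .z (.a (.b .z (.l 15)) .z)))) (.a (.b (.c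
.z (.l 17)) (.c (.c .z (.c .z (.l 17))) (.l 17))) (.b (.c .z (.a (.b .z (.l 17)) .z)) (.c .z (.l 17))))) (.c (.a (.c (.b (.a .z (.c .z (.l 15))) (.c
.z (.l 15))) (.c (.l 15) (.c (.l 15) (.b (.l 15) .z)))) (.b (.c .z (.l 15)) (.c (.c (.c .z (.l 15)) (.l 15)) (.l 15)))) (.c (.c (.c (.a .z (.b (.l 15)
.z)) .z) (.c (.a (.l 17) .z) (.l 17))) (.l 17)))) (.b (.a (.c (.c (.c (.l 17) (.c (.b (.l 17) .z) .z)) .z) .z) (.b (.c (.a (.c (.c (.l 17) .z) .z) .z)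
(.c (.c (.c (.l 23) .z) .z) .z)) (.c (.c (.c (.l 17) .z) .z) (.c (.c (.a .z (.l 23)) .z) .z)))) (.c (.c (.c (.b (.c (.l 17) .z) .z) .z) .z) .z))) (.c
(.b (.c (.a (.b (.c .z (.l 101)) .z) .z) (.a (.b .z (.a (.c .z (.b .z (.l 17))) .z)) (.b (.c .z (.c .z (.a (.l 22) .z))) .z))) (.a (.c (.b .z (.c .z
(.a (.l 15) (.b .z (.l 15))))) (.b (.a (.c (.c (.l 15) .z) (.l 17)) (.c .z (.l 17))) (.c (.c (.c (.l 15) .z) .z) (.c (.l 17) (.c (.l 17) .z))))) .z))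
(.b (.a (.b .z (.c (.a (.c .z (.c .z (.l 23))) .z) (.c (.c (.l 23) .z) .z))) (.b .z (.c .z (.a (.c (.c (.l 23) .z) .z) .z)))) (.a (.c (.c .z (.c .z
(.a .z (.b (.l 23) .z)))) (.c (.c (.b (.a (.l 23) .z) .z) .z) .z)) .z)))) .z))

theorem vQ166 : ev3 Q166 J4_4 J4_10 J3_7 = 46247406507966140823701 := by decide +kernel

noncomputable def Q145 : QT3 :=
(.a (.b (.c .z (.b (.c (.a (.b .z (.c .z (.c .z (.c .z (.a .z (.c .z (.l 37))))))) (.c .z (.b .z (.c .z (.a (.c (.c .z (.l 37)) .z) .z))))) (.a (.c .z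
(.b (.c .z (.a (.b (.c .z (.a (.l 19) .z)) .z) .z)) .z)) (.c .z (.a .z (.c (.c .z (.b .z (.l 61))) (.b .z (.l 61))))))) (.c (.a (.c .z (.b (.a .z (.c
.z (.b (.c .z (.l 37)) (.a .z (.l 37))))) .z)) (.c .z (.a (.b (.c .z (.l 37)) .z) .z))) (.a (.c .z (.a .z (.b (.c .z (.b (.l 58) .z)) .z))) (.b (.c
(.a (.c (.b .z (.c (.l 37) .z)) .z) .z) (.a .z (.c .z (.a .z (.l 61))))) .z))))) (.c .z (.a .z (.b (.c .z (.b .z (.c .z (.a .z (.b .z (.c .z (.c .z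
(.l 32)))))))) (.c .z (.a .z (.b (.c .z (.b (.c .z (.a .z (.l 32))) .z)) .z))))))) (.b (.c .z (.b (.c (.a .z (.b (.c .z (.a .z (.c (.b (.l 58) .z) (.b
(.l 58) .z)))) .z)) (.a (.b (.c .z (.c (.c .z (.a .z (.l 61))) (.c (.l 61) .z))) (.c .z (.a (.c (.c .z (.l 61)) (.l 61)) .z))) .z)) (.c .z (.a (.b (.c
.z (.a (.b (.c .z (.l 61)) .z) .z)) .z) .z)))) (.c .z (.a (.b (.c .z (.b .z (.c .z (.c .z (.b .z (.a (.c .z (.l 32)) .z)))))) .z) .z))))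

theorem vQ145 : ev3 Q145 J3_2 J3_4 J3_4 = 19311697511443288263648 := by decide +kernel

end Pool.Agent.Helper64.SPW.Dat3
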