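import Pool.Agent.Helper64.SPW.Iv3

/-! Boxes of three traces, part 10 (data and kernel evaluation). -/

set_option maxRecDepth 1000000
set_option maxHeartbeats 0

namespace Pool.Agent.Helper64.SPW.Dat3

noncomputable def Q88 : QT3 :=
(.c (.b (.c (.a (.c (.c (.a (.c (.a (.c .z (.a (.l 23) .z)) (.c (.l 19) .z)) (.a (.l 23) (.c .z (.a (.l 23) .z)))) (.c (.l 19) (.a (.c (.a .z (.l 19))
.z) (.c (.l 19) (.b .z (.l 19)))))) (.a (.l 23) (.c (.a (.c .z (.a (.l 23) .z)) .z) (.a (.l 23) (.b (.c .z (.l 23)) .z))))) (.l 23)) (.c (.a (.c (.l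
19) (.a (.c (.b (.c (.l 19) .z) (.l 19)) .z) (.c (.l 19) (.b (.c (.l 19) .z) (.l 19))))) (.l 19)) (.a (.c (.a (.c (.b (.c .z (.l 23)) .z) (.b (.l 23)
(.a (.l 23) .z))) (.c .z (.b (.a (.l 23) .z) .z))) (.a (.l 23) (.b (.l 23) (.c (.a (.l 23) .z) (.l 23))))) (.c (.a (.b .z (.c (.l 19) .z)) (.b (.c (.l
19) .z) (.l 19))) (.b (.a (.c (.b (.l 23) .z) (.l 23)) (.c .z (.b (.l 23) .z))) (.a (.c .z (.a (.l 23) .z)) (.c (.b .z (.l 19)) .z))))))) (.a (.c (.l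
23) (.c (.b (.c (.l 23) (.b (.l 23) (.c (.l 23) (.b (.l 23) .z)))) (.c (.b (.c (.l 23) (.b (.l 23) .z)) (.c (.b (.l 23) .z) (.b .z (.b .z (.l 9)))))
(.b (.c .z (.b .z (.l 9))) (.l 9)))) (.b (.c (.b (.c (.b (.l 23) .z) .z) (.c .z (.b (.b .z (.l 9)) (.l 9)))) (.b (.c (.b .z (.b .z (.l 9))) (.l 9))
(.l 9))) (.l 9)))) (.c (.a (.l 23) (.c (.b (.l 23) (.a (.l 23) (.c .z (.b (.l 23) .z)))) (.l 23))) (.a (.c (.b (.c (.l 23) (.b (.l 23) (.c (.l 23)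
.z))) (.c (.b (.c (.l 23) .z) .z) (.b (.c .z (.b .z (.l 9))) (.l 9)))) (.b (.c (.b .z (.c .z (.l 9))) (.b (.c (.b .z (.l 9)) (.l 9)) (.l 9))) (.l 9)))
(.c (.b (.c (.l 23) (.b (.l 23) .z)) (.c (.b (.c (.l 23) .z) .z) (.b (.c .z (.b .z (.l 9))) (.l 9)))) (.a (.b (.c (.b .z (.c .z (.l 9))) (.l 9)) (.l
9)) (.c (.b (.b .z (.c .z (.l 9))) (.l 9)) (.a (.l 9) (.c (.l 9) .z))))))))) (.a (.c (.c (.a (.c (.a (.c .z (.a (.l 23) (.c .z (.l 23)))) .z) (.a (.l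
23) (.c (.a (.l 23) (.c .z (.l 23))) (.l 23)))) (.c (.a (.c (.b (.b (.l 19) .z) .z) .z) (.b (.b (.l 19) .z) .z)) (.a (.c .z (.a (.c .z (.l 23)) .z))
.z))) (.a (.l 23) (.c (.a (.l 23) (.c (.b (.a (.l 23) .z) .z) (.b (.l 23) (.a (.l 23) .z)))) (.l 23)))) (.b (.c (.c (.l 23) (.c (.b (.l 23) (.c (.b
(.l 23) .z) .z)) (.b (.c (.b (.l 23) .z) .z) (.c (.b .z (.b .z (.l 9))) (.l 9))))) (.c (.c (.b (.c (.b .z (.l 9)) (.l 9)) (.l 9)) (.l 9)) (.l 9))) (.a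
(.c (.c (.c (.b (.l 23) .z) (.b .z (.c .z (.b .z (.l 9))))) (.c (.b (.c .z (.l 9)) (.l 9)) (.l 9))) (.l 9)) (.c (.c (.c (.b (.l 23) (.c (.l 23) .z))
(.b (.c (.l 23) .z) (.c .z (.b .z (.l 9))))) (.c (.b (.c .z (.b .z (.l 9))) (.l 9)) (.l 9))) (.b (.l 9) (.a (.l 9) (.c (.l 9) (.b (.l 9) (.a (.l 9)
.z))))))))) (.c (.b (.c (.a (.c (.b (.l 19) (.b (.l 19) .z)) (.a (.c (.b (.l 19) .z) .z) (.b (.l 19) .z))) (.b (.l 19) (.c (.b (.l 19) (.c (.l 19)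
.z)) (.b (.c (.l 19) .z) .z)))) (.a (.c .z (.a (.l 23) (.c .z (.a (.l 23) .z)))) (.c (.b (.b (.l 19) (.c (.l 19) .z)) .z) .z))) (.a (.c .z (.c .z (.a
(.c .z (.l 23)) .z))) .z)) (.b (.a (.c (.c (.l 23) (.c (.b (.l 23) (.c (.l 23) .z)) (.b .z (.c .z (.b .z (.l 9)))))) (.c (.c (.b (.c (.b .z (.l 9))
(.l 9)) (.l 9)) (.l 9)) (.l 9))) (.c (.b (.c (.a (.c .z (.l 23)) .z) (.c (.l 23) (.c (.l 23) .z))) .z) (.b (.a (.c (.c (.c .z (.l 9)) (.l 9)) (.l 9))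
(.c (.c (.c .z (.l 9)) (.l 9)) (.b (.c (.l 9) .z) (.a (.l 9) .z)))) (.a (.c (.l 9) (.b (.a (.l 9) .z) .z)) (.c (.b (.a (.l 9) .z) .z) .z))))) (.a (.c
(.b (.c (.a (.c (.l 23) .z) (.c .z (.l 23))) (.c .z (.l 9))) (.a (.c (.c (.l 23) .z) (.c (.c .z (.l 9)) (.l 9))) .z)) (.b (.a (.l 9) (.c (.b (.l 9)
(.a (.l 9) .z)) (.b (.a (.l 9) .z) .z))) (.a (.c (.b (.l 9) (.a (.l 9) .z)) (.b (.a (.l 9) .z) .z)) .z))) (.c (.b (.a (.c .z (.b (.c .z (.l 9)) .z))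
.z) (.a .z (.c .z (.b .z (.c .z (.l 7)))))) (.b .z (.a (.c (.b .z (.c (.l 7) .z)) .z) (.c (.c (.l 7) (.c (.l 7) .z)) .z))))))))) (.b (.a (.c (.c (.c
(.l 9) (.a (.l 9) (.c (.l 9) (.a (.b (.c (.l 9) (.a (.l 9) .z)) (.l 9)) (.b (.c (.a (.l 9) .z) .z) (.a (.l 9) (.c (.l 9) .z))))))) (.c (.a (.b (.c (.a
(.l 9) (.c (.l 9) .z)) (.a (.b .z (.c (.l 9) .z)) .z)) (.c (.l 9) (.a (.l 9) (.b .z (.a (.l 9) .z))))) (.c (.a (.b .z (.a (.c (.l 9) .z) (.c (.l 9)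
.z))) .z) .z)) (.a (.b .z (.a (.c (.b .z (.a (.l 9) .z)) .z) .z)) .z))) (.c (.a (.c .z (.b .z (.c (.b .z (.c .z (.l 15))) (.l 15)))) (.c (.c (.a (.b
(.a (.l 26) .z) .z) .z) .z) (.b .z (.c .z (.b (.c .z (.l 15)) (.l 15)))))) (.c (.b (.c (.b (.c .z (.b .z (.l 15))) (.l 15)) (.l 15)) (.l 15)) (.l
15)))) (.c (.b (.c (.c (.a (.c (.l 9) (.a (.l 9) (.c (.l 9) (.a (.l 9) .z)))) (.c (.a (.c (.l 9) (.a (.l 9) .z)) .z) .z)) (.a (.c (.a (.c (.l 9) .z)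
.z) .z) .z)) .z) (.a (.c (.c (.a (.l 9) (.c (.l 9) (.a (.l 9) (.c (.l 9) .z)))) (.a (.c (.a (.l 9) (.c (.l 9) .z)) .z) .z)) .z) (.c (.b (.c (.a (.c
(.a (.l 9) .z) .z) .z) .z) (.a (.c (.c (.a (.l 9) .z) .z) .z) .z)) .z))) (.b (.a (.c .z (.c (.c (.b .z (.c .z (.l 15))) (.l 15)) (.l 15))) (.b (.c .z
(.a (.c (.c .z (.l 15)) (.l 15)) .z)) (.c .z (.a (.b (.c .z (.l 15)) .z) .z)))) (.a (.b (.c .z (.a (.l 15) (.b (.c (.l 15) .z) .z))) (.c (.a (.c .z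
(.c .z (.l 15))) .z) (.a (.b (.c (.l 15) .z) .z) .z))) (.b (.c .z (.a .z (.b .z (.c (.c (.l 10) .z) .z)))) (.c .z (.a (.b .z (.c (.c (.l 10) .z) .z))
(.c (.c (.l 10) .z) .z)))))))) (.a (.b (.c (.a (.c (.l 9) (.c (.l 9) (.a (.c (.l 9) (.b .z (.a (.l 9) .z))) (.c (.a (.b .z (.l 9)) .z) .z)))) (.c (.l
9) (.b (.c (.a (.c (.l 9) .z) .z) .z) (.a (.c (.c (.l 9) (.a (.l 9) .z)) .z) .z)))) (.a (.b (.c (.c .z (.l 15)) (.l 15)) (.c (.c (.a .z (.c .z (.l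
15))) (.l 15)) (.a (.l 15) (.b (.l 15) (.c (.l 15) .z))))) (.b (.c (.a (.c .z (.l 15)) (.b (.c .z (.l 15)) .z)) (.a (.b (.l 15) (.c (.l 15) .z)) .z))
(.c (.a (.b (.c .z (.l 15)) .z) .z) (.a .z (.b .z (.c (.a .z (.l 10)) (.c (.l 10) .z)))))))) (.c (.a (.c (.l 9) (.b (.c (.l 9) (.a (.l 9) (.c (.l 9)
.z))) (.a (.l 9) (.c (.b (.l 9) (.a (.l 9) .z)) (.b (.a (.l 9) .z) .z))))) (.c (.b (.a (.l 9) (.c (.l 9) (.b (.l 9) (.a (.l 9) .z)))) (.a (.c (.l 9)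
(.b (.l 9) .z)) (.c (.b (.a (.l 9) .z) .z) .z))) (.b (.a (.c (.c (.l 9) (.a (.l 9) .z)) .z) .z) .z))) (.a (.b (.c (.a (.c (.c (.a (.l 9) .z) .z) (.c
.z (.l 15))) .z) (.a (.b (.c (.l 15) .z) .z) (.b .z (.c .z (.a .z (.l 10)))))) (.c (.a (.b (.c (.c (.l 9) .z) .z) (.c (.a (.l 9) .z) .z)) (.b .z (.c
.z (.a .z (.l 10))))) (.a (.b .z (.c .z (.a .z (.l 10)))) (.b (.c (.a .z (.l 10)) (.l 10)) (.l 10))))) (.b (.c (.a .z (.b (.c .z (.a .z (.l 10))) (.c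
.z (.l 10)))) (.a (.b .z (.c (.l 10) (.c (.l 10) .z))) (.c (.l 10) (.c (.l 10) .z)))) (.c (.a (.b (.c (.a .z (.l 10)) (.l 10)) (.l 10)) (.l 10)) (.c
(.l 10) (.c (.a (.l 10) (.c (.l 10) .z)) (.a (.c (.l 10) .z) .z)))))))) (.b (.c (.a (.c (.b (.c (.a (.l 9) (.c (.l 9) (.a (.l 9) .z))) (.a (.c (.l 9)
.z) .z)) (.a (.c (.l 9) (.c (.l 9) .z)) (.c (.b (.c (.l 9) .z) (.a (.l 9) .z)) .z))) (.b (.a (.c .z (.l 46)) .z) .z)) (.c (.b .z (.a .z (.c .z (.l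
31)))) (.b (.a .z (.c .z (.l 31))) (.a (.c .z (.l 31)) (.l 31))))) (.a (.b (.c .z (.a (.b .z (.c (.a .z (.l 10)) .z)) (.b (.c (.a .z (.l 10)) .z) (.c
(.l 10) .z)))) (.c (.a (.b (.c .z (.a .z (.l 10))) (.c .z (.l 10))) (.b (.c .z (.l 10)) (.c .z (.l 10)))) (.c (.l 10) (.c (.a (.c (.l 10) .z) .z)
.z)))) (.b (.c (.a (.b (.c .z (.c .z (.l 10))) (.c .z (.c .z (.l 10)))) (.c (.l 31) (.c .z (.l 10)))) (.c (.c (.l 10) (.a (.c (.l 10) .z) .z)) .z))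
(.c (.c (.c (.l 31) .z) (.c (.c .z (.l 10)) (.l 10))) (.c (.c (.a (.l 10) (.c (.l 10) .z)) .z) .z))))) (.c (.a (.c (.b (.a (.c (.b (.l 9) .z) .z) .z)
.z) (.b (.a .z (.c .z (.l 31))) (.c (.a .z (.l 31)) .z))) (.c (.b (.a (.c .z (.l 31)) (.c .z (.l 31))) (.c .z (.l 31))) (.c (.l 31) (.c (.l 31) (.b
(.l 31) .z))))) (.c (.c (.a (.c (.b .z (.c .z (.l 10))) (.b (.c (.a (.l 10) .z) (.l 10)) (.l 10))) (.c .z (.b (.c .z (.a (.l 10) .z)) (.a (.l 10) (.c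
.z (.l 10)))))) (.l 10)) (.c (.a (.c (.l 10) (.a (.l 10) (.c (.l 10) .z))) (.c (.a (.c (.l 10) (.a (.l 10) .z)) (.c (.a (.l 10) .z) .z)) .z)) (.a (.c
(.a (.c (.a (.l 10) .z) .z) .z) .z) .z))))))))

theorem vQ88 : ev3 Q88 J4_4 J4_6 J3_6 = 270238840097741989998116 := by decide +kernel

noncomputable def Q177 : QT3 :=
(.c (.c (.a (.c (.b (.c (.b (.a (.l 27) (.c (.a (.c .z (.l 27)) .z) (.a (.l 27) (.b (.l 27) .z)))) (.c (.a (.a (.c .z (.l 27)) .z) .z) (.b (.a (.l 27)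
(.a (.l 27) .z)) (.a (.l 27) .z)))) (.b (.c (.a (.l 27) (.b (.l 27) (.c (.l 27) .z))) (.a (.b (.l 27) (.c (.l 27) .z)) .z)) (.c (.b (.a (.c (.l 27)
.z) .z) .z) .z))) (.c .z (.b (.c .z (.a .z (.c .z (.a .z (.l 17))))) (.a .z (.c (.a .z (.c .z (.b .z (.l 17)))) (.a (.c (.b .z (.l 17)) (.l 17)) (.l
17))))))) (.b (.c (.b (.c (.a .z (.b (.c .z (.a .z (.l 17))) (.c .z (.l 17)))) (.a (.b (.c (.a .z (.l 17)) (.l 17)) (.c (.a .z (.l 17)) (.l 17))) (.l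
17))) (.c (.b (.c (.a .z (.a .z (.l 17))) (.a .z (.l 17))) (.a (.c .z (.a .z (.l 17))) (.l 17))) (.l 17))) (.c (.c (.l 17) (.a (.c (.l 17) (.a (.b .z
(.l 17)) (.l 17))) (.l 17))) (.c (.a (.c .z (.b (.a (.l 19) .z) .z)) (.c (.b (.a .z (.l 17)) (.l 17)) (.b .z (.a .z (.l 17))))) (.a (.c (.b (.l 19)
(.a (.l 19) .z)) (.l 19)) (.b (.c .z (.l 19)) (.c .z (.a (.l 19) .z))))))) (.c (.a (.c (.c (.a (.b .z (.a .z (.l 17))) (.b (.c .z (.l 17)) (.l 17)))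
(.a (.b (.c .z (.l 17)) (.l 17)) (.l 17))) (.l 17)) (.l 17)) (.c (.l 17) (.c (.a (.c (.a (.b .z (.l 17)) (.l 17)) (.a .z (.b .z (.l 17)))) (.l 17))
(.a (.c .z (.a (.b (.l 19) .z) .z)) (.b .z (.a (.c (.l 17) .z) (.l 17))))))))) (.b (.c (.c (.b (.c (.a .z (.a .z (.b .z (.a .z (.l 25))))) .z) (.c (.a
(.a .z (.b .z (.a .z (.l 25)))) (.c (.a (.b .z (.l 25)) (.l 25)) (.b (.a .z (.l 25)) (.a (.l 25) .z)))) .z)) (.c (.b (.a (.c (.b (.l 27) .z) .z) .z)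
(.a .z (.c (.b .z (.a .z (.l 17))) (.a (.b .z (.l 17)) (.l 17))))) (.b (.a (.c .z (.b .z (.a .z (.l 17)))) (.c (.b (.a .z (.l 17)) (.l 17)) (.l 17)))
(.a (.c (.a .z (.b .z (.l 17))) (.l 17)) (.l 17))))) (.c (.l 17) (.c (.l 17) (.c (.a (.b (.c (.l 17) (.a .z (.l 17))) (.l 17)) (.l 17)) (.a (.b .z (.c
(.a .z (.l 17)) .z)) (.b (.c (.l 17) .z) (.l 17))))))) (.c (.c (.b (.c (.a (.b (.c (.a .z (.l 25)) .z) (.c (.b (.l 25) .z) .z)) (.b (.c (.a (.l 25)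
.z) .z) .z)) (.b (.a .z (.c .z (.a .z (.l 17)))) (.c .z (.a .z (.a .z (.l 17)))))) (.c (.b .z (.c .z (.a .z (.a .z (.l 17))))) (.a (.a .z (.c .z (.b
.z (.l 17)))) (.a (.c (.b .z (.l 17)) (.l 17)) (.l 17))))) (.a (.c (.b (.a .z (.c .z (.l 17))) (.a (.c (.b .z (.l 17)) (.l 17)) (.l 17))) (.l 17)) (.l
17))) (.a (.c (.l 17) (.c (.l 17) (.c (.b (.l 17) (.b (.l 17) (.b (.l 17) .z))) (.b (.a (.c (.l 17) .z) (.l 17)) (.b (.l 17) (.b (.l 17) .z)))))) (.b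
(.l 17) (.c (.l 17) (.a (.b (.l 17) (.c (.b (.l 17) .z) .z)) (.b (.c (.l 17) (.a (.l 17) .z)) .z)))))))) (.a (.b (.c (.c (.l 19) (.c (.l 19) (.b (.c
(.l 19) (.a (.l 19) (.b (.l 19) (.c (.l 19) .z)))) (.c (.a (.l 19) (.b (.l 19) (.c (.l 19) .z))) (.a (.b (.l 19) (.c (.l 19) .z)) .z))))) (.c (.c (.a
(.c (.b (.b (.l 19) (.c (.l 19) .z)) (.b .z (.c .z (.a .z (.l 12))))) (.a (.b .z (.b (.c .z (.l 12)) (.l 12))) (.c (.b .z (.b .z (.l 12))) .z))) .z)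
(.a (.c (.a (.c (.b .z (.a (.l 12) .z)) .z) .z) (.a (.c .z (.l 27)) (.b (.l 27) .z))) (.b (.c .z (.l 27)) .z))) (.b (.a (.l 27) (.c (.b (.l 27) (.a
(.l 27) .z)) (.b (.a (.l 27) .z) .z))) (.a (.c (.b (.l 27) (.a (.l 27) .z)) (.b (.a (.l 27) .z) .z)) .z)))) (.a (.c (.c (.c (.c (.b (.l 19) (.a (.l
19) (.c .z (.l 19)))) (.l 19)) (.l 19)) (.c (.b (.l 19) (.c (.l 19) (.b (.c (.l 19) .z) .z))) (.b (.c (.b (.c (.l 19) .z) .z) (.b .z (.c .z (.a .z (.l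
12))))) (.c (.b .z (.c .z (.a .z (.l 12)))) (.b (.c (.a .z (.l 12)) (.l 12)) (.l 12)))))) (.c (.c (.a (.b (.c (.b (.c .z (.l 12)) (.l 12)) (.l 12))
(.l 12)) (.c (.l 12) (.a (.l 12) (.c (.l 12) .z)))) (.a (.c (.a (.c (.l 12) (.b .z (.l 12))) (.c (.b .z (.l 12)) .z)) .z) .z)) .z)) (.b (.c (.c (.c
(.c (.a (.c .z (.l 19)) .z) (.l 19)) (.l 19)) (.c (.c (.l 19) (.b (.l 19) .z)) (.c .z (.a (.b .z (.l 12)) (.c (.b .z (.l 12)) (.a (.l 12) .z)))))) (.c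
(.c (.c (.a (.c (.l 12) (.a (.l 12) .z)) .z) .z) .z) .z)) (.c (.c (.c (.c .z (.a (.l 19) (.c .z (.l 19)))) (.l 19)) (.c (.c (.b (.c (.l 19) .z) .z)
(.b .z (.c .z (.a .z (.l 12))))) (.a (.c (.b (.c .z (.l 12)) (.l 12)) (.l 12)) (.c (.l 12) (.a (.c (.l 12) .z) .z))))) (.a (.c (.c (.c (.a (.l 12) (.c
(.l 12) .z)) .z) .z) .z) .z))))) (.b (.a (.c (.c (.c (.c (.b (.c (.a (.l 19) .z) (.l 19)) (.c .z (.a (.l 19) .z))) (.l 19)) (.l 19)) (.c (.b (.l 19)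
(.c (.l 19) (.b (.l 19) (.c (.l 19) .z)))) (.c (.a (.b (.l 19) .z) (.b (.b (.l 19) .z) .z)) .z))) (.c (.c .z (.b (.b (.c .z (.l 27)) .z) .z)) .z)) (.b
(.c (.c (.c (.c .z (.c (.a (.l 19) .z) (.l 19))) (.l 19)) (.c (.c (.l 19) (.a (.l 19) (.b (.l 19) .z))) .z)) (.c .z (.c .z (.c .z (.b .z (.l 33))))))
(.c (.c (.c (.c (.a .z (.c (.l 17) .z)) .z) (.c (.a (.l 19) (.b (.l 19) .z)) (.l 19))) (.c (.c (.a (.l 19) (.b (.l 19) .z)) .z) .z)) .z))) (.a (.b (.c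
(.c (.c (.c .z (.a (.c .z (.l 19)) .z)) (.l 19)) (.c (.c (.b (.l 19) .z) .z) .z)) .z) (.c (.c (.a (.c .z (.c (.c .z (.l 19)) (.b (.l 19) .z))) (.b (.c
(.c (.l 17) .z) .z) .z)) (.a (.b (.c (.c .z (.c .z (.l 12))) .z) (.a (.c (.c .z (.l 12)) .z) .z)) .z)) .z)) (.b (.c (.c (.a (.c (.c (.c (.l 17) .z)
.z) (.c .z (.b (.l 19) .z))) (.b (.c (.c (.l 17) .z) .z) (.c (.l 17) .z))) .z) (.a .z (.b .z (.c .z (.c .z (.c .z (.l 25))))))) (.c (.c (.a (.b (.c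
(.c (.l 17) .z) .z) .z) .z) .z) .z)))))) (.a (.b (.c (.c (.c (.b (.a (.c (.b (.a (.l 27) .z) .z) .z) (.c .z (.b (.a .z (.l 35)) .z))) .z) (.a (.b .z
(.c (.c (.c .z (.b .z (.l 20))) (.a (.l 20) (.b .z (.l 20)))) (.c (.a (.b .z (.l 20)) .z) .z))) (.c (.c (.b .z (.a (.c .z (.l 20)) (.c (.l 20) .z)))
.z) .z))) (.a (.c (.b .z (.c .z (.a .z (.b .z (.l 28))))) (.b (.a (.c (.c (.b .z (.l 23)) .z) .z) .z) (.a (.b (.c (.a (.l 23) .z) .z) .z) .z))) .z))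
.z) (.a (.b (.c (.c (.c .z (.c (.c (.c (.b .z (.l 20)) (.l 20)) (.l 20)) (.a (.c (.l 20) (.b .z (.l 20))) (.c (.b .z (.l 20)) .z)))) (.c (.c .z (.a
(.b (.l 28) .z) (.l 28))) .z)) .z) (.c (.c (.a (.c (.c .z (.c .z (.c .z (.l 20)))) (.l 20)) (.b (.c .z (.l 20)) (.c (.c .z (.c .z (.l 20))) (.a (.l
20) (.b (.l 20) .z))))) (.a (.b (.c (.c (.c (.l 20) .z) .z) .z) .z) .z)) .z)) (.b (.c (.c (.a (.c .z (.c (.c (.l 20) (.a (.l 20) .z)) .z)) (.b (.c .z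
(.c (.c (.l 20) .z) .z)) (.c (.c .z (.c .z (.l 20))) .z))) (.a (.b (.c (.c .z (.l 28)) .z) .z) .z)) .z) (.c (.c (.a (.b (.c (.c .z (.c .z (.l 20)))
(.a (.c (.l 20) .z) .z)) .z) .z) (.a .z (.b .z (.c .z (.c (.c .z (.l 22)) .z))))) .z)))) (.b (.a (.b (.c (.c (.c (.c (.b .z (.c .z (.l 35))) (.c (.l
35) .z)) .z) .z) .z) .z) .z) (.a (.b (.c (.c (.a (.b (.c (.c .z (.c .z (.l 20))) .z) .z) .z) .z) .z) (.c (.c (.a (.b .z (.c (.a (.b .z (.c (.l 13)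
.z)) (.c (.l 13) .z)) .z)) (.b .z (.c (.c (.c (.l 13) (.c (.l 13) .z)) .z) .z))) (.c .z (.b .z (.c (.c .z (.c (.l 22) .z)) .z)))) .z)) .z))))

theorem vQ177 : ev3 Q177 J4_7 J4_8 J2_3 = 250224781786734923717374 := by decide +kernel

noncomputable def Q127 : QT3 :=
(.b (.c (.a (.b (.c (.b (.c (.b (.c (.a (.b .z (.l 20)) .z) (.a (.l 20) (.a (.l 20) .z))) (.c (.a (.l 20) .z) (.a (.l 20) (.a (.l 20) .z)))) (.a (.c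
(.l 20) (.c (.l 20) (.b (.l 20) .z))) (.c (.a (.c (.l 20) .z) .z) .z))) (.c (.a (.c (.c (.a (.l 20) .z) (.l 20)) (.l 20)) (.c .z (.a (.c .z (.l 20))
.z))) (.a (.c (.c (.l 20) (.b (.l 20) .z)) .z) .z))) (.c (.a (.c .z (.b (.c .z (.l 10)) (.c .z (.a (.b (.l 10) .z) (.l 10))))) (.c (.a .z (.c (.a (.a
.z (.l 10)) (.l 10)) (.l 10))) (.l 10))) (.a (.c (.l 10) (.c (.a (.b (.l 10) (.b (.l 10) .z)) (.l 10)) .z)) (.l 10)))) (.c (.c (.a (.c (.b (.c (.a (.l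
20) .z) (.l 20)) .z) (.b (.c (.l 20) (.b (.l 20) .z)) .z)) .z) .z) (.c (.a .z (.c (.a .z (.a (.c .z (.a .z (.l 10))) (.c (.a .z (.l 10)) (.l 10))))
(.a (.c (.a .z (.b (.l 10) .z)) (.a (.b (.l 10) .z) (.l 10))) (.l 10)))) (.a (.c (.c (.b (.l 10) (.a .z (.a .z (.l 10)))) (.l 10)) (.c (.a .z (.a .z
(.b (.l 10) .z))) (.a (.b .z (.l 24)) .z))) (.c (.l 10) (.a (.c (.l 10) (.a .z (.l 10))) (.l 10))))))) (.b (.c (.a (.b (.c (.a .z (.c (.b (.l 8) (.a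
.z (.l 8))) (.b (.a .z (.l 8)) .z))) (.a (.b (.c .z (.a .z (.l 10))) (.c .z (.a .z (.l 10)))) (.b .z (.c .z (.l 10))))) (.c .z (.a (.c .z (.a (.c .z
(.l 10)) (.l 10))) (.l 10)))) (.c (.b (.a (.c (.l 8) (.b (.l 8) (.a .z (.l 8)))) (.l 8)) (.a (.c (.b (.a .z (.l 8)) .z) .z) (.c (.l 8) (.a (.b (.l 8)
.z) (.l 8))))) (.b (.a (.c (.b (.a .z (.l 8)) .z) .z) (.c (.l 8) (.a (.b (.l 8) .z) (.l 8)))) (.a (.b (.c .z (.a (.l 10) .z)) (.c (.a (.l 10) .z) (.l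
10))) (.a .z (.c (.b (.l 8) .z) .z)))))) (.a (.l 10) (.b (.a (.c (.b (.c .z (.a (.l 10) .z)) (.c (.a (.l 10) .z) (.l 10))) (.l 10)) (.c (.a .z (.c (.b
(.l 8) .z) .z)) (.a (.b (.c .z (.l 10)) (.l 10)) (.b .z (.c .z (.l 10)))))) (.a (.l 10) (.c (.a (.b (.c .z (.l 10)) (.l 10)) (.b .z (.c .z (.l 10))))
(.l 10)))))) (.c (.a (.c (.a .z (.c .z (.a .z (.c (.a .z (.l 10)) (.l 10))))) (.a (.c (.a .z (.c .z (.a .z (.l 10)))) (.a (.c .z (.l 10)) (.l 10)))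
(.l 10))) (.b (.c (.a (.b (.c .z (.a (.l 10) .z)) (.c .z (.l 10))) (.a .z (.c (.b (.l 8) .z) .z))) (.a (.l 10) (.a (.b (.c .z (.l 10)) (.l 10)) (.b .z
(.c .z (.l 10)))))) (.a (.c (.c (.a (.c .z (.l 10)) (.l 10)) (.l 10)) (.l 10)) (.c (.a (.b (.c .z (.l 10)) (.l 10)) (.c .z (.b .z (.l 10)))) (.l
10))))) (.l 10)))) (.a (.c (.c (.a (.c (.c (.a (.l 24) (.b .z (.a (.l 24) .z))) (.l 24)) (.l 24)) (.c (.a (.c (.a .z (.b (.a .z (.l 10)) .z)) (.a (.b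
.z (.l 24)) .z)) (.c (.l 10) (.a (.a .z (.b (.l 10) .z)) (.l 10)))) (.a (.c (.l 24) (.b (.l 24) (.a (.l 24) .z))) (.a .z (.c (.a .z (.a .z (.l 10)))
.z))))) (.a (.c (.c (.l 24) (.a (.l 24) (.b (.a (.l 24) .z) .z))) (.c (.a (.b (.l 24) .z) .z) .z)) (.a (.c (.c (.a (.b (.l 24) .z) .z) .z) .z) (.c .z
(.b (.b (.l 40) .z) .z))))) (.c (.a (.c (.c (.a (.b .z (.l 28)) .z) (.a (.l 28) (.a (.l 28) .z))) (.l 28)) .z) (.a (.b (.c (.l 28) (.b (.l 28) (.c (.l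
28) .z))) (.c (.b (.l 28) (.c (.l 28) .z)) .z)) (.b (.a (.c (.b (.l 28) .z) .z) (.c .z (.a .z (.b .z (.l 14))))) (.a (.c .z (.b .z (.a .z (.l 14))))
(.c (.a .z (.b .z (.l 14))) (.l 14))))))) (.c (.a (.c (.a (.c (.l 10) (.a (.c (.l 10) (.a (.a .z (.l 10)) (.l 10))) (.l 10))) (.l 10)) (.a (.c (.a .z
(.c (.l 10) (.a .z (.a .z (.l 10))))) .z) (.c (.l 10) (.a (.c (.a .z (.l 10)) .z) (.l 10))))) (.l 10)) (.a (.c (.a (.b .z (.c (.a .z (.b .z (.l 14)))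
(.a (.b .z (.l 14)) (.l 14)))) (.c (.a .z (.c (.a .z (.b .z (.l 10))) .z)) (.a (.b (.b .z (.l 14)) (.l 14)) (.c .z (.a (.l 14) .z))))) (.a (.b (.c (.a
.z (.l 14)) (.l 14)) (.l 14)) (.l 14))) (.a (.c (.a (.c (.a (.c (.l 10) (.b .z (.l 10))) (.l 10)) (.a .z (.c (.b .z (.l 10)) .z))) (.c (.l 10) (.a (.c
(.l 10) (.b .z (.l 10))) (.l 10)))) (.a (.c (.b (.a (.l 14) .z) .z) (.b (.l 14) (.a (.l 14) .z))) (.c (.b .z (.a .z (.l 10))) .z))) (.c (.a (.b (.c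
(.l 10) (.b (.a (.l 10) .z) (.l 10))) (.l 10)) (.b (.c (.a (.b .z (.l 10)) .z) .z) (.c (.l 10) (.a (.l 10) (.b .z (.l 10)))))) (.a (.c (.b .z (.b (.a
(.l 10) .z) (.l 10))) (.b .z (.a (.c (.l 10) .z) .z))) (.b (.c .z (.b .z (.l 15))) .z)))))))) (.c (.b (.a (.c .z (.c (.a .z (.a (.c .z (.c .z (.a .z
(.b (.l 10) .z)))) (.c (.a .z (.c .z (.a .z (.l 10)))) (.a (.c (.b (.l 10) .z) (.l 10)) (.l 10))))) (.a (.c (.c .z (.a .z (.a (.b (.l 10) .z) (.b (.l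
10) .z)))) (.c .z (.a (.l 24) (.a (.l 24) .z)))) (.a (.c (.c (.a (.b (.l 10) .z) (.l 10)) (.l 10)) (.c (.a (.b (.l 10) .z) (.l 10)) (.a .z (.a .z (.l
10))))) (.l 10))))) (.a (.c (.c (.a .z (.c .z (.a .z (.c (.a .z (.l 10)) (.l 10))))) (.a (.c .z (.a (.c .z (.a .z (.l 10))) (.l 10))) (.c (.a (.c (.a
.z (.l 10)) (.l 10)) (.l 10)) (.l 10)))) (.l 10)) (.c (.a (.c (.a (.c (.a (.c .z (.l 10)) (.l 10)) (.l 10)) (.l 10)) (.l 10)) (.l 10)) (.l 10)))) (.a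
(.c (.c .z (.a (.c (.a (.l 60) .z) .z) .z)) (.c (.a .z (.a .z (.c .z (.a .z (.c (.a .z (.l 10)) (.l 10)))))) (.a (.c .z (.c (.a (.l 24) .z) (.l 24)))
(.a (.c (.c .z (.a .z (.b (.l 10) .z))) (.c (.a .z (.a .z (.l 10))) .z)) (.l 10))))) (.a (.c (.c (.a .z (.a .z (.c .z (.a (.c .z (.l 10)) (.l 10)))))
(.a (.c .z (.a .z (.c (.a .z (.l 10)) (.l 10)))) (.a (.c (.a (.c .z (.l 10)) (.l 10)) (.l 10)) (.l 10)))) (.a (.c (.c (.a (.c (.a .z (.l 10)) (.l 10))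
(.l 10)) (.l 10)) (.l 10)) (.l 10))) (.c (.l 10) (.b (.l 10) (.a (.l 10) (.c (.b (.l 10) (.a (.l 10) (.c (.l 10) .z))) (.b (.a (.l 10) (.c (.l 10)
.z)) (.a (.c (.l 10) .z) .z))))))))) (.b (.a (.c (.c (.a (.l 24) (.a (.c (.c .z (.a (.l 24) .z)) (.a (.c (.l 24) .z) .z)) (.c (.a (.c (.a .z (.l 10))
.z) (.l 10)) .z))) (.a (.c (.c (.a (.l 24) (.a (.l 24) .z)) (.a (.b (.l 24) .z) .z)) .z) .z)) (.c (.a (.c (.a (.l 28) .z) (.b (.c (.l 28) .z) .z)) (.a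
.z (.c (.b .z (.a .z (.l 14))) (.a (.b .z (.l 14)) (.l 14))))) (.a .z (.a (.c (.b (.a .z (.l 14)) (.a .z (.l 14))) (.b (.a .z (.l 14)) .z)) (.l
14))))) (.a (.c (.c (.a (.c (.l 10) (.a (.c (.l 10) (.a .z (.l 10))) (.l 10))) (.l 10)) (.a (.c (.a .z (.c (.l 10) (.a .z (.l 10)))) .z) (.a (.c (.l
10) (.a (.c (.l 10) .z) (.l 10))) (.l 10)))) (.a (.l 14) (.c (.a (.c .z (.l 14)) (.c (.a (.c (.l 10) .z) (.l 10)) .z)) (.a (.l 14) (.c (.a (.l 14) .z)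
(.l 14)))))) (.b (.c (.l 10) (.a (.c (.a (.c (.l 10) (.a .z (.l 10))) (.l 10)) (.a .z (.c (.l 10) .z))) (.c (.l 10) (.a (.l 10) (.c (.a (.l 10) .z)
.z))))) (.c (.l 10) (.a (.c (.a (.c (.l 10) (.a .z (.l 10))) (.l 10)) (.a .z (.c (.l 10) (.a .z (.l 10))))) (.b (.c (.l 10) (.a (.l 10) .z)) (.c (.a
(.l 10) (.b (.l 10) .z)) (.a (.b (.l 10) .z) .z)))))))) (.a (.c (.c (.a (.c (.l 24) (.c (.l 24) (.a (.l 24) (.a (.l 24) .z)))) (.a (.c (.a (.l 24) .z)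
.z) (.c (.a .z (.c (.l 10) (.a .z (.l 10)))) .z))) (.a (.c (.c (.a (.l 24) .z) .z) .z) (.a .z (.c .z (.b .z (.l 14)))))) (.c (.a .z (.a (.c (.b .z (.a
.z (.l 14))) (.b (.a .z (.l 14)) (.a .z (.l 14)))) (.l 14))) (.a .z (.a .z (.c (.a (.b (.l 14) .z) (.l 14)) (.a .z (.b (.l 14) .z))))))) (.a (.c (.b
(.a (.c (.c (.l 10) (.a (.c (.l 10) .z) (.l 10))) (.c (.a .z (.a .z (.l 10))) (.a (.l 14) .z))) (.c (.l 10) (.a (.c (.l 10) (.a .z (.l 10))) (.l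
10)))) (.a (.c (.c (.l 10) (.a (.c (.l 10) .z) (.l 10))) (.a (.c .z (.l 14)) (.c (.a .z (.l 10)) .z))) (.c (.l 10) (.b (.a (.c (.l 10) .z) (.l 10))
(.a (.c (.l 10) .z) (.c (.l 10) .z)))))) (.b (.a (.l 14) (.b (.c .z (.a (.l 14) .z)) (.c .z (.a (.l 14) .z)))) (.a (.b (.l 14) (.c (.l 14) .z)) (.b .z
(.c .z (.a .z (.b .z (.l 11)))))))) (.c (.b (.a (.l 10) (.c (.b (.l 10) (.a (.l 10) (.c (.l 10) .z))) (.b (.a (.l 10) (.c (.l 10) .z)) .z))) (.a (.c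
(.b (.l 10) (.a (.l 10) .z)) (.b (.a (.l 10) .z) .z)) (.c (.b (.a (.c (.l 10) .z) .z) .z) (.b (.a .z (.c .z (.l 11))) (.a (.c .z (.l 11)) (.l 11))))))
(.b (.a (.b (.c (.l 10) .z) (.c (.a (.l 10) .z) .z)) (.b (.c .z (.a .z (.b .z (.l 11)))) (.c (.a .z (.b .z (.l 11))) (.a (.b .z (.l 11)) (.l 11)))))
(.a (.b (.c .z (.a .z (.b .z (.l 11)))) (.c (.a .z (.b .z (.l 11))) (.l 11))) (.b (.c (.a (.b .z (.l 11)) (.l 11)) (.l 11)) (.l 11))))))))))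

theorem vQ127 : ev3 Q127 J3_0 J4_10 J4_13 = 262267990677591147822255 := by decide +kernel

noncomputable def Q68 : QT3 :=
(.c (.c (.l 6) (.a (.c (.b (.b (.c (.l 6) (.a (.l 6) (.b (.c (.l 6) (.a (.l 6) (.b .z (.l 6)))) (.l 6)))) (.l 6)) (.l 6)) (.a (.c (.b (.b (.b (.c (.l
6) (.a (.l 6) .z)) (.l 6)) (.l 6)) (.a (.c (.l 6) (.b (.a (.c (.l 6) .z) (.l 6)) (.a .z (.c (.l 6) .z)))) (.l 6))) (.b (.c (.a (.b (.b .z (.l 6)) (.c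
(.l 6) (.a .z (.l 6)))) (.b (.b .z (.b .z (.l 6))) (.l 6))) (.a .z (.b (.b (.b (.l 9) .z) .z) (.a (.c (.l 6) .z) (.b .z (.l 6)))))) (.a (.c (.b (.a .z
(.c (.l 6) .z)) .z) (.b (.a (.c .z (.l 10)) .z) (.a (.l 10) (.c .z (.l 10))))) (.c (.b (.l 6) (.a .z (.l 6))) (.b (.a .z (.c (.l 6) .z)) .z))))) (.c
(.b (.b (.b (.c (.a (.b .z (.l 6)) .z) .z) (.c (.a (.l 6) (.b .z (.l 6))) (.a (.b .z (.l 6)) .z))) (.b (.c (.l 6) (.a (.l 6) (.b .z (.l 6)))) (.l 6)))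
(.l 6)) (.a (.b (.b (.b (.c (.b (.l 9) .z) (.l 9)) .z) (.b (.c (.b .z (.l 6)) .z) (.l 6))) (.c (.l 6) (.a (.b (.l 6) (.c (.l 6) .z)) (.l 6)))) (.b (.b
(.b (.l 9) (.c .z (.l 9))) (.b .z (.c (.l 6) .z))) (.l 6)))))) (.b (.c (.a (.c (.l 6) (.b (.b (.c (.a (.c (.l 6) .z) .z) .z) (.c (.a (.l 6) (.c (.l 6)
.z)) (.a (.b .z (.l 6)) .z))) (.a (.l 6) (.b (.c (.l 6) (.a (.l 6) .z)) (.l 6))))) (.c (.b (.c (.a (.l 6) (.b .z (.a (.l 6) .z))) (.a (.b .z (.a (.l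
6) .z)) .z)) (.a (.l 6) (.c (.l 6) (.b (.a (.l 6) .z) (.l 6))))) (.b (.a (.c .z (.b (.l 9) .z)) (.c (.b (.l 9) .z) (.l 9))) (.a (.c (.b (.a (.l 6) .z)
(.l 6)) (.b .z (.a (.l 6) .z))) (.c (.b .z (.a (.l 6) .z)) .z))))) (.b (.a (.c (.b (.c (.a .z (.l 9)) (.l 9)) (.c .z (.a .z (.l 9)))) (.l 9)) (.l 9))
(.a (.c (.b (.a (.c (.b .z (.l 6)) .z) .z) (.a (.l 6) (.c (.a (.l 6) .z) .z))) (.b (.a (.c .z (.b (.l 9) .z)) (.c (.b (.l 9) .z) (.l 9))) (.a .z (.c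
.z (.b (.l 9) .z))))) (.c (.a (.b (.c .z (.l 9)) .z) (.b (.l 9) (.c .z (.l 9)))) (.a (.b (.l 9) (.c (.a .z (.l 9)) (.l 9))) (.l 9)))))) (.c (.a (.l 6)
(.b (.c (.l 6) (.a (.l 6) (.b (.c (.l 6) (.a (.l 6) .z)) (.l 6)))) (.l 6))) (.a (.b (.c (.l 6) (.b (.a (.c (.l 6) (.b .z (.l 6))) .z) (.a (.l 6) (.c
(.l 6) (.a (.l 6) .z))))) (.l 6)) (.b (.c (.a (.b (.c (.a (.l 6) .z) .z) (.c (.l 6) (.a (.l 6) .z))) (.b .z (.c (.a (.l 6) .z) .z))) (.a (.b (.c .z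
(.a .z (.l 9))) .z) (.b (.l 9) (.c .z (.a .z (.l 9)))))) (.c (.a (.l 6) (.b (.c (.l 6) (.a (.l 6) .z)) (.l 6))) (.a (.b (.c (.l 6) .z) (.l 6)) (.b .z
(.c (.a (.l 6) .z) .z)))))))))) (.b (.c (.a (.c (.a (.c (.c (.a (.b .z (.c .z (.l 10))) .z) (.a (.b (.b .z (.l 10)) (.l 10)) (.a (.b (.c .z (.l 10))
(.l 10)) (.c .z (.b .z (.l 10)))))) (.l 10)) (.c (.a (.c (.a (.c (.b (.l 9) .z) (.b (.l 9) .z)) (.b (.l 9) .z)) (.a .z (.c (.b (.l 9) .z) .z))) (.b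
(.l 9) (.b (.c (.b (.l 9) .z) (.l 9)) .z))) (.a (.c (.a (.c (.b .z (.l 10)) (.l 10)) (.c .z (.b .z (.l 10)))) (.l 10)) (.c (.a .z (.c (.l 9) (.a .z
(.l 9)))) (.a (.c (.a (.l 10) .z) (.l 10)) (.c .z (.a (.l 10) .z))))))) (.a (.l 10) (.c (.l 10) (.a (.l 10) (.c (.a (.l 10) (.c (.l 10) (.a (.l 10)
.z))) (.a (.c (.l 10) .z) .z)))))) (.c (.a (.c (.b (.l 9) (.b (.l 9) (.a (.c (.b (.l 9) .z) (.l 9)) (.l 9)))) (.a (.c (.l 9) (.a (.c (.a .z (.l 9))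
.z) (.l 9))) (.l 9))) (.l 9)) (.a (.c (.a (.c (.a (.c .z (.l 10)) .z) (.a (.l 10) (.c (.l 10) (.a (.l 10) .z)))) (.c (.a (.c (.l 9) (.a .z (.l 9)))
(.l 9)) (.a .z (.c (.l 9) .z)))) (.a (.c (.a (.c (.a (.l 10) .z) .z) (.c .z (.a .z (.l 11)))) (.a (.c .z (.b (.l 11) .z)) (.b (.l 11) (.b (.l 11)
.z)))) (.c (.a (.l 11) (.c .z (.l 11))) (.l 11)))) (.c (.l 9) (.a (.c (.a (.c (.a .z (.l 9)) .z) (.c (.l 9) (.a .z (.l 9)))) (.a (.c (.a (.l 11) .z)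
(.l 11)) .z)) (.c (.l 9) (.a (.c (.l 9) .z) (.l 9)))))))) (.a (.c (.a (.c (.a (.l 10) (.c (.l 10) (.a (.b (.c (.l 10) .z) (.l 10)) (.b .z (.c (.l 10)
.z))))) (.a (.c (.b (.a (.l 10) (.c (.l 10) .z)) (.l 10)) (.b .z (.a (.c (.l 10) .z) .z))) (.c (.b .z (.a (.c (.l 10) .z) .z)) .z))) (.c (.a (.c (.a
(.c (.l 10) (.b .z (.l 10))) (.c (.b .z (.l 10)) .z)) .z) .z) (.a (.c .z (.b .z (.b (.c .z (.l 13)) (.l 13)))) (.b (.c .z (.b .z (.c .z (.l 13)))) (.c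
(.b .z (.c .z (.l 13))) (.l 13)))))) (.a (.c (.a (.c .z (.b (.c (.b .z (.l 13)) (.l 13)) (.a .z (.l 13)))) (.c (.b (.c .z (.b .z (.l 13))) (.a (.c .z
(.l 13)) (.l 13))) (.l 13))) (.l 13)) (.c (.b (.c (.a (.b (.c .z (.l 13)) (.l 13)) (.l 13)) (.l 13)) (.l 13)) (.l 13)))) (.c (.a (.c (.b (.c (.l 11)
(.a (.b (.l 11) .z) (.l 11))) (.c (.a .z (.b (.l 11) .z)) (.a (.b .z (.c .z (.l 13))) .z))) (.b (.c (.a .z (.b (.c (.l 11) .z) .z)) (.a (.b .z (.l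
13)) .z)) (.c (.a (.b (.c .z (.l 13)) (.l 13)) (.b .z (.a (.l 13) .z))) (.l 13)))) (.c (.a (.c (.a (.l 11) (.c (.a (.l 11) .z) (.l 11))) (.b (.l 11)
(.b (.l 11) .z))) (.c (.a .z (.c (.a .z (.l 9)) .z)) (.a (.c (.a (.l 11) .z) (.l 11)) .z))) (.a (.b (.c (.b (.l 11) (.c (.l 11) .z)) (.b (.c (.l 11)
.z) .z)) (.c .z (.b .z (.a (.l 13) .z)))) (.c (.a (.b (.l 11) (.b (.l 11) .z)) (.b (.l 11) (.a (.l 11) .z))) (.b (.b (.l 11) (.a .z (.l 11))) .z)))))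
(.a (.c (.b (.c (.a (.l 13) (.b (.c .z (.l 13)) (.l 13))) (.l 13)) (.l 13)) (.l 13)) (.c (.b (.a (.c .z (.b (.c .z (.l 13)) (.l 13))) (.c (.b (.c (.l
11) .z) .z) .z)) (.a (.l 13) (.c (.b .z (.a (.l 13) .z)) (.l 13)))) (.b (.a (.l 13) (.c (.b (.a (.l 13) .z) (.l 13)) (.l 13))) (.l 13))))))) (.b (.a
(.c (.c (.a (.c (.a (.l 10) (.c (.a (.c .z (.l 10)) .z) (.l 10))) (.l 10)) (.c (.a (.c (.a .z (.c (.l 6) .z)) (.a (.c .z (.l 10)) .z)) (.c (.b (.b .z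
(.l 6)) (.l 6)) (.a .z (.b .z (.l 6))))) (.a (.c (.a (.l 10) (.c .z (.l 10))) (.l 10)) (.c .z (.a (.l 10) (.c .z (.l 10))))))) (.a (.l 10) (.c (.l 10)
(.a (.l 10) (.c (.l 10) (.a (.l 10) .z)))))) (.c (.a (.c (.l 10) (.a (.l 10) (.c (.a (.l 10) (.c (.l 10) .z)) .z))) (.c (.a (.c (.a (.l 10) (.c (.l
10) .z)) (.a (.c (.l 10) .z) .z)) (.c .z (.a .z (.b .z (.l 13))))) (.a (.c (.a .z (.c .z (.l 13))) (.a (.c .z (.l 13)) (.l 13))) (.l 13)))) (.a (.c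
(.a (.c (.a (.b .z (.l 10)) .z) .z) (.c (.a .z (.c .z (.l 13))) (.l 13))) (.a (.c (.a .z (.l 13)) (.l 13)) (.l 13))) (.l 13)))) (.c (.a (.c (.c (.b
(.a .z (.c .z (.l 9))) (.a (.c (.b .z (.l 6)) .z) .z)) (.a (.c (.b (.b (.l 9) .z) .z) .z) (.b (.l 9) (.c (.b (.l 9) .z) (.l 9))))) (.c (.a (.c (.a (.c
.z (.l 10)) .z) (.a (.l 10) (.c (.l 10) .z))) (.c (.a (.c (.l 9) .z) (.l 9)) (.a .z (.c (.l 9) .z)))) (.a (.c (.a (.c (.l 10) .z) .z) .z) (.c (.a (.b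
(.l 11) .z) .z) (.b (.c (.l 11) .z) .z))))) (.c (.c (.a (.b (.l 9) (.c (.a .z (.l 9)) (.l 9))) (.l 9)) (.l 9)) (.b (.c (.l 9) (.a (.c (.a .z (.l 9))
.z) (.l 9))) (.a (.c (.l 9) (.c (.a .z (.l 9)) .z)) (.b (.l 9) (.c (.l 9) (.a (.l 9) .z))))))) (.a (.b (.c (.c (.c .z (.a (.l 13) (.a (.l 13) .z)))
(.l 13)) (.l 13)) (.c (.c (.a (.c (.c .z (.l 13)) (.l 13)) (.c .z (.l 13))) (.l 13)) (.b (.a (.l 13) (.c (.l 13) (.a (.l 13) .z))) (.a (.c (.l 13) (.b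
(.l 13) .z)) .z)))) (.b (.c (.a (.c .z (.c (.a (.l 13) .z) (.l 13))) (.c (.a .z (.c (.l 9) .z)) .z)) (.a (.b (.l 13) (.c (.l 13) (.a (.l 13) .z))) (.b
(.c (.l 13) (.a (.l 13) .z)) .z))) (.c (.a (.b (.c .z (.l 13)) .z) .z) (.a (.b .z (.c .z (.a .z (.l 11)))) (.b (.c .z (.a .z (.l 11))) (.c (.a .z (.l
11)) (.l 11))))))))) (.a (.c (.c (.a (.c (.a (.l 10) (.c (.a (.l 10) (.c .z (.l 10))) (.l 10))) (.l 10)) (.c (.a (.c .z (.a (.l 10) .z)) (.c (.l 6)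
(.a .z (.l 6)))) (.a (.l 10) (.c (.a (.c .z (.l 10)) .z) (.a (.l 10) (.c .z (.l 10))))))) (.a (.l 10) (.c (.l 10) (.a (.l 10) (.c (.l 10) (.a (.l 10)
(.c (.l 10) .z))))))) (.b (.a (.c (.c (.l 10) (.a (.l 10) (.c (.l 10) (.a (.l 10) .z)))) (.c (.a (.c (.a (.l 10) .z) .z) (.c .z (.a .z (.l 13)))) (.a
(.c .z (.a .z (.l 13))) (.l 13)))) (.c (.c (.a (.c (.l 10) (.a (.l 10) .z)) (.c .z (.a .z (.l 13)))) (.a (.c .z (.a .z (.l 13))) (.l 13))) (.b (.a (.l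
13) (.c (.l 13) (.b (.l 13) .z))) (.a (.c (.l 13) (.b (.l 13) .z)) .z)))) (.a (.c (.c (.l 10) (.a (.l 10) (.c (.l 10) (.a (.l 10) .z)))) (.b (.a (.c
(.c (.l 10) .z) .z) .z) (.a (.c (.c (.l 10) .z) .z) .z))) (.c (.b (.a (.c (.c (.l 10) .z) .z) .z) (.a (.c (.c (.l 10) .z) .z) .z)) (.b (.a .z (.c .z
(.b .z (.l 11)))) (.a (.c .z (.b .z (.l 11))) (.c (.b .z (.l 11)) (.l 11)))))))) (.c (.a (.c (.c (.a (.l 6) (.b (.c (.a (.l 6) .z) .z) (.l 6))) (.a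
(.c (.a (.c (.l 6) .z) (.b .z (.l 6))) .z) (.b .z (.c (.a (.l 6) .z) .z)))) (.b (.c (.a (.c (.a (.l 10) .z) (.a (.l 10) .z)) (.c (.a .z (.l 9)) .z))
.z) .z)) (.c (.b (.a (.c .z (.c (.a .z (.l 9)) (.l 9))) (.c (.c (.a .z (.l 9)) (.l 9)) (.b (.l 9) (.a (.l 9) .z)))) (.a (.c (.c (.a (.l 6) .z) .z) .z)
.z)) (.b (.a (.b (.c (.l 9) .z) (.c (.a (.l 9) .z) .z)) (.b (.c (.a (.l 9) .z) .z) .z)) (.a (.b .z (.c .z (.c .z (.l 11)))) .z)))) (.a (.b (.c (.b (.a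
(.l 13) (.c (.l 13) .z)) (.a (.c (.l 13) .z) .z)) (.b (.a .z (.c .z (.a .z (.l 11)))) (.a (.c .z (.b .z (.l 11))) (.c (.a .z (.l 11)) (.l 11))))) (.c
(.b (.a .z (.c .z (.a .z (.l 11)))) (.a (.c .z (.b .z (.l 11))) (.c (.a .z (.l 11)) (.l 11)))) (.b (.a (.c (.b .z (.l 11)) (.l 11)) (.l 11)) (.l
11)))) (.b (.c (.a (.b .z (.c .z (.a .z (.l 11)))) (.b (.c .z (.a .z (.l 11))) (.c .z (.l 11)))) (.a (.b (.c (.a .z (.l 11)) (.l 11)) (.l 11)) (.l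
11))) (.c (.a (.b (.c (.a .z (.l 11)) (.l 11)) (.l 11)) (.c (.c (.b .z (.l 11)) (.l 11)) (.l 11))) (.l 11)))))))))

theorem vQ68 : ev3 Q68 J4_2 J4_7 J3_6 = 387811705492280713018578 := by decide +kernel

noncomputable def Q143 : QT3 :=
(.a (.b (.b (.c (.c (.a (.b (.c (.c (.a .z (.b (.c .z (.a .z (.l 15))) (.c (.a .z (.l 15)) (.l 15)))) (.a (.c (.a .z (.b .z (.l 15))) (.l 15)) (.l
15))) (.a (.b (.c (.l 15) (.c (.c (.l 15) .z) .z)) (.c (.l 15) (.a (.c (.l 15) .z) .z))) (.b (.c (.l 15) (.a (.l 15) .z)) (.c (.a (.l 15) (.b (.l 15)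
.z)) .z)))) (.c (.a (.b (.c (.c .z (.a .z (.l 15))) (.l 15)) (.c (.c .z (.a .z (.l 15))) (.a (.l 15) .z))) (.b (.c (.c (.a .z (.l 15)) (.l 15)) (.a
(.b (.l 15) .z) .z)) (.c (.a (.b (.l 15) .z) .z) .z))) (.a (.b (.c (.a (.l 15) (.b (.l 15) .z)) .z) .z) (.b .z (.c (.a (.b .z (.l 17)) (.c .z (.l
17))) .z))))) (.b (.c (.a (.b (.c .z (.a (.l 15) (.c .z (.l 15)))) (.c (.a (.c .z (.l 15)) .z) (.a (.b (.l 15) .z) .z))) (.b (.c (.a (.c (.l 13) .z)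
(.b (.l 13) (.c (.l 13) .z))) .z) .z)) (.a (.b (.c (.a (.b (.l 15) .z) .z) .z) .z) (.b .z (.c (.a (.b .z (.l 16)) (.l 16)) .z)))) (.c (.a (.b (.c (.a
(.b (.l 15) .z) .z) .z) (.c .z (.a .z (.c (.l 16) .z)))) (.b (.c .z (.c (.c .z (.l 16)) (.l 16))) (.c (.c .z (.b .z (.l 16))) (.c (.l 16) (.b (.l 16)
.z))))) (.a (.b (.c (.a .z (.c (.l 16) .z)) .z) .z) (.c (.b (.c (.l 16) (.b (.l 16) .z)) .z) .z))))) (.a (.b (.c (.a (.b (.c (.c (.a (.l 19) .z) .z)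
.z) .z) .z) (.a (.b .z (.c .z (.c (.l 25) .z))) (.b (.c .z (.c (.l 25) (.c (.l 25) .z))) (.c (.c .z (.l 25)) (.c (.l 25) .z))))) (.c (.a (.b (.c .z
(.a .z (.c (.l 22) .z))) (.c .z (.c (.l 22) .z))) (.c .z (.c (.c (.b (.l 22) .z) .z) .z))) (.c (.c (.a (.c .z (.l 25)) (.c .z (.l 25))) (.b (.l 25)
(.c (.l 25) (.b (.l 25) .z)))) (.c (.b (.c (.l 25) .z) .z) .z)))) (.b (.a (.c (.b .z (.c .z (.c .z (.c .z (.l 23))))) (.c (.c (.c (.b (.l 23) .z) .z)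
(.c .z (.l 25))) (.c (.l 25) (.b (.c (.l 25) .z) .z)))) (.c (.c .z (.b .z (.c .z (.b .z (.l 23))))) (.b (.c .z (.c (.l 25) .z)) (.c (.c (.c (.l 23)
.z) (.c .z (.l 25))) (.c (.c (.l 25) .z) .z))))) (.c (.c (.b .z (.c (.a .z (.c (.l 21) .z)) .z)) (.c (.a .z (.c .z (.l 23))) (.a (.c (.a .z (.l 23))
(.b (.l 23) .z)) (.c (.l 23) (.b (.l 23) .z))))) (.c (.c (.c .z (.b .z (.a (.l 25) .z))) (.b (.l 25) (.c (.l 25) (.b (.l 25) .z)))) (.c (.b (.c (.b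
(.l 25) .z) .z) .z) .z)))))) .z) (.c (.c (.a (.b (.c (.a (.b .z (.c .z (.a (.b .z (.l 17)) (.l 17)))) (.b (.c .z (.a (.b .z (.l 17)) (.c .z (.l 17))))
(.c .z (.c (.l 17) (.b (.l 17) .z))))) (.a (.b .z (.c (.c (.b (.l 17) .z) .z) .z)) (.c (.b (.c (.b (.l 17) .z) .z) .z) .z))) (.c (.a (.b (.c (.a .z
(.c .z (.l 17))) (.c (.b (.l 17) .z) .z)) (.c (.c (.c .z (.l 17)) (.b (.l 17) .z)) .z)) (.c (.b (.c .z (.b (.l 17) .z)) (.c (.b (.l 17) .z) .z)) .z))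
.z)) (.b (.c (.a .z (.c (.b (.c (.b .z (.l 16)) (.l 16)) (.c (.b (.l 16) .z) .z)) .z)) .z) .z)) (.c (.c (.a (.c (.b .z (.a (.c .z (.a .z (.l 22))) (.c
.z (.b (.l 22) .z)))) (.a (.b (.c .z (.a .z (.l 22))) (.c (.l 22) (.b (.l 22) .z))) (.b (.c (.b .z (.l 22)) (.b (.l 22) .z)) .z))) (.c .z (.a .z (.b
.z (.b (.l 23) (.c (.l 23) .z)))))) (.a (.c (.b (.a (.c (.b (.l 22) .z) .z) .z) (.a .z (.c .z (.b .z (.l 25))))) (.a (.b (.c .z (.a .z (.l 25))) .z)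
(.b (.c .z (.b .z (.l 25))) (.b (.c (.l 25) .z) .z)))) (.c (.a (.b (.c .z (.b (.l 23) .z)) .z) (.b (.b (.l 23) (.c (.l 23) .z)) .z)) (.b (.b .z (.c .z
(.a (.l 25) .z))) (.b (.c (.a (.l 25) .z) .z) .z))))) (.c (.c (.b (.a (.b (.l 25) (.c (.l 25) .z)) (.c (.b (.a (.l 25) .z) (.b (.l 25) .z)) (.b (.l
25) .z))) .z) (.b (.b (.c (.b (.a (.l 25) .z) .z) .z) .z) .z)) .z))) .z)) (.a (.b (.c (.c (.b (.c .z (.c .z (.c .z (.a (.b .z (.a .z (.l 22))) .z))))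
(.c .z (.a .z (.b (.c .z (.c (.a (.l 22) .z) .z)) (.a (.c (.c .z (.l 22)) .z) .z))))) (.b (.a (.c (.b (.c (.c (.c .z (.l 22)) .z) .z) .z) .z) .z) .z))
.z) .z) (.b (.c (.c .z (.a .z (.b (.a .z (.b (.c (.c (.c (.l 23) .z) .z) .z) .z)) .z))) .z) .z))) (.b (.a (.b (.c (.c (.b (.a (.c (.b .z (.c .z (.c .z
(.c .z (.l 16))))) (.c (.c (.b .z (.a (.l 16) .z)) .z) .z)) (.c (.b (.a .z (.c (.l 14) .z)) .z) .z)) (.a (.c (.c .z (.c (.b (.c .z (.l 16)) (.l 16))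
(.l 16))) (.c (.b (.a (.c (.l 16) .z) .z) (.c (.a (.l 16) .z) .z)) .z)) .z)) (.b (.c (.c .z (.a .z (.b (.c (.a .z (.l 21)) .z) .z))) (.a (.b .z (.c .z
(.c (.c (.l 25) .z) .z))) .z)) (.c (.a (.c .z (.b (.a (.c .z (.l 23)) .z) (.c .z (.l 23)))) .z) (.a (.c (.c (.c (.b (.l 23) .z) .z) (.c (.b .z (.l
25)) (.b (.l 25) .z))) .z) (.b .z (.c (.c (.c (.l 23) .z) .z) .z)))))) .z) (.c (.a (.b (.c (.c (.c (.b (.c .z (.a (.l 16) .z)) .z) (.b (.c (.l 16) (.b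
(.l 16) .z)) .z)) (.c .z (.b .z (.c .z (.c .z (.l 21)))))) (.c (.c (.c (.c (.l 21) (.a .z (.l 21))) .z) (.c (.c (.a (.l 23) .z) (.l 23)) (.c (.b (.l
23) .z) .z))) .z)) (.c (.c (.c .z (.b .z (.c .z (.b .z (.l 19))))) (.c (.b (.c (.b .z (.l 19)) .z) (.c (.c (.l 19) .z) .z)) (.c (.b .z (.c .z (.l
21))) (.c (.l 21) (.a .z (.l 21)))))) (.a (.c (.c (.c .z (.c .z (.l 23))) .z) .z) .z))) (.b (.c .z (.a (.c (.b (.c (.c .z (.l 21)) (.c .z (.l 23)))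
(.c (.c (.l 21) .z) .z)) .z) (.b .z (.c (.a (.c (.l 21) .z) .z) .z)))) (.c (.c .z (.a (.b (.c .z (.c .z (.l 21))) (.c (.c (.l 19) .z) .z)) .z)) (.a
(.b (.c (.c (.c (.l 21) .z) .z) .z) .z) .z)))) .z)) (.b (.c (.a (.b (.c (.c (.b (.c (.c (.a (.l 14) .z) .z) .z) .z) .z) .z) .z) (.b (.c (.c (.c (.a
(.c .z (.b (.l 17) .z)) .z) .z) .z) .z) .z)) .z) (.c (.a (.b .z (.c .z (.a (.b .z (.c .z (.c .z (.l 27)))) (.c .z (.c .z (.b .z (.l 27))))))) (.b .z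
(.c .z (.c (.b (.c .z (.c (.c (.l 19) .z) .z)) (.c (.c .z (.c .z (.l 19))) (.c (.c (.l 19) .z) .z))) (.c .z (.b .z (.c .z (.l 27)))))))) (.a (.b .z
(.c (.c (.c (.c (.b (.l 27) .z) .z) .z) .z) .z)) (.c (.b .z (.c (.c (.c (.b (.l 27) .z) .z) .z) .z)) .z))))) (.a (.b (.c (.a (.c (.b (.c (.c .z (.b
(.c .z (.c (.l 19) .z)) .z)) (.a (.c (.c .z (.b .z (.l 21))) (.c (.b (.l 21) .z) .z)) (.b (.c .z (.l 21)) .z))) .z) .z) (.c (.b (.c (.a (.b (.c .z (.c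
.z (.l 19))) .z) .z) .z) (.c .z (.a (.b .z (.c .z (.l 35))) (.c .z (.b .z (.l 35)))))) (.b (.a .z (.c .z (.c .z (.c (.l 27) .z)))) (.c (.c .z (.c .z
(.b (.c .z (.l 22)) (.c (.l 22) .z)))) (.c (.c (.c .z (.l 23)) .z) .z))))) .z) (.c (.a .z (.c (.b (.c .z (.c .z (.b (.c .z (.l 35)) .z))) .z) (.b (.c
(.b (.c .z (.c (.a .z (.l 22)) (.c (.l 22) .z))) .z) .z) .z))) (.b .z (.c (.b .z (.c .z (.c (.c (.c .z (.l 41)) .z) .z))) .z)))) (.b (.c (.a (.c (.b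
.z (.c .z (.c .z (.b .z (.c .z (.l 35)))))) (.b (.c .z (.c .z (.c (.l 27) .z))) (.c .z (.b (.c (.c (.c .z (.l 23)) .z) .z) (.c (.c (.c .z (.l 23)) .z)
.z))))) (.c (.b (.c (.b .z (.c .z (.b .z (.l 31)))) .z) (.c (.b (.c .z (.b (.l 31) .z)) .z) .z)) (.b (.c (.c (.b (.c (.c .z (.l 19)) (.b (.l 19) .z))
.z) .z) (.c .z (.c (.l 27) .z))) .z))) .z) (.c (.c .z (.b (.c .z (.b (.c (.b (.c (.c (.l 23) .z) .z) .z) .z) (.c .z (.a .z (.b (.c .z (.l 26)) (.l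
26)))))) (.c .z (.a .z (.b (.c (.b (.c .z (.l 26)) (.c .z (.l 26))) (.c (.b (.l 26) .z) .z)) (.c (.c (.l 26) (.b (.l 26) .z)) .z)))))) .z)))))

theorem vQ143 : ev3 Q143 J3_1 J3_6 J3_7 = 73796502370750951256076 := by decide +kernel

noncomputable def Q34 : QT3 :=
(.b (.c (.c (.b (.a (.a .z (.a (.c (.a .z (.l 67)) .z) (.c (.l 67) (.a .z (.l 67))))) (.a (.c (.a (.l 67) .z) .z) .z)) (.a (.a .z (.a (.c (.l 67) .z)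
(.c (.l 67) .z))) .z)) (.b .z (.a .z (.a .z (.c .z (.b .z (.a (.c .z (.l 28)) (.l 28)))))))) (.b (.c .z (.a (.b .z (.c .z (.a (.b (.c .z (.a (.l 20)
.z)) (.c (.a (.l 20) .z) (.l 20))) .z))) (.a (.b (.c .z (.b .z (.a .z (.a .z (.l 18))))) (.c (.b (.c .z (.a .z (.l 18))) (.c .z (.a .z (.l 18)))) (.a
(.a (.l 51) .z) (.a (.a .z (.l 18)) (.l 18))))) (.b (.c (.a .z (.a (.l 34) .z)) (.a (.c .z (.l 18)) .z)) (.c .z (.a (.c (.a (.l 18) .z) (.l 18)) (.c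
.z (.a (.l 18) .z)))))))) (.c (.a (.b .z (.c .z (.a (.b (.c .z (.a (.l 20) .z)) (.c (.a (.l 20) .z) (.l 20))) .z))) (.a (.b .z (.c .z (.c (.a (.l 18)
.z) (.l 18)))) (.b (.c (.a .z (.l 28)) (.a .z (.a .z (.l 28)))) (.c (.a (.c (.l 28) .z) (.l 28)) .z)))) (.a (.a (.b (.c (.b (.c .z (.a (.l 20) .z))
(.c (.a (.l 20) .z) (.l 20))) (.l 20)) (.l 20)) (.a (.b (.c .z (.b (.c .z (.l 20)) (.l 20))) (.c (.b (.c .z (.l 20)) (.l 20)) (.l 20))) (.b .z (.a (.c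
.z (.l 20)) .z)))) (.a (.c (.b (.c (.a (.a .z (.l 18)) (.b .z (.l 18))) (.a .z (.l 18))) (.a (.a (.a .z (.l 18)) (.l 18)) (.l 18))) (.a (.a .z (.b .z
(.l 18))) (.l 18))) (.c (.a (.b (.c .z (.a (.l 18) .z)) (.c (.a (.l 18) .z) (.l 18))) (.b .z (.c .z (.a (.l 18) .z)))) (.a (.l 18) (.c (.b (.a (.l 18)
.z) (.l 18)) (.l 18))))))))) (.c (.b (.c (.a (.c (.a (.a .z (.a .z (.l 67))) (.b (.a (.l 67) .z) .z)) .z) (.a .z (.c .z (.b .z (.a (.c .z (.l 28)) (.l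
28)))))) (.a (.b .z (.c .z (.c (.b .z (.a (.a (.l 20) .z) (.a .z (.l 18)))) (.a (.a (.l 20) (.a (.l 20) .z)) (.a (.a .z (.l 18)) (.l 18)))))) (.a (.b
.z (.c (.b .z (.c (.l 28) .z)) (.c .z (.a (.b .z (.l 18)) .z)))) (.b (.c (.a (.c .z (.l 28)) (.l 28)) (.l 28)) (.c (.l 28) (.a (.c (.l 28) .z) (.l
28))))))) (.c (.a (.b .z (.c .z (.c (.b .z (.a (.a .z (.l 18)) (.a (.l 18) .z))) (.b (.a (.a .z (.l 18)) (.a (.l 18) .z)) (.a (.a .z (.l 18)) (.l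
18)))))) (.a (.b (.c .z (.b (.c .z (.l 28)) (.c (.l 28) .z))) (.c (.b (.c .z (.l 28)) (.a .z (.l 28))) .z)) (.b (.c (.a (.c .z (.l 28)) (.l 28)) (.l
28)) (.c (.l 28) (.a (.c (.l 28) .z) (.l 28)))))) (.a (.c (.b (.c (.b .z (.a .z (.a (.l 18) .z))) (.b (.a (.a (.l 20) .z) (.a (.l 18) .z)) (.a (.a (.l
20) .z) (.l 18)))) (.a (.a (.b (.a (.l 20) .z) .z) (.a (.b .z (.l 18)) (.l 18))) (.l 18))) (.a (.a (.b (.l 20) (.b (.a (.l 20) .z) .z)) (.b .z (.a (.b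
.z (.l 18)) (.l 18)))) (.l 18))) (.a (.c (.b .z (.a (.c (.b .z (.l 18)) (.l 18)) (.c .z (.b .z (.l 18))))) (.b (.a (.l 18) (.c .z (.b .z (.l 18))))
(.l 18))) (.c (.b (.a (.c (.l 28) .z) (.l 28)) (.a .z (.c (.l 28) .z))) (.a (.b .z (.c .z (.a (.l 18) .z))) (.b (.c (.l 28) .z) .z))))))) (.c (.a (.b
(.c (.b (.c (.a (.b .z (.a (.l 20) .z)) (.b .z (.a .z (.l 18)))) (.a (.b (.a (.l 20) .z) (.l 20)) (.a .z (.a .z (.l 18))))) (.a (.a (.l 20) (.a (.l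
20) (.b (.l 20) .z))) (.a (.a .z (.a .z (.l 18))) (.l 18)))) (.a (.l 20) (.a (.b (.a (.l 20) .z) .z) (.a (.b .z (.l 18)) (.l 18))))) (.a (.b (.a (.l
20) (.a (.b (.l 20) (.b (.l 20) .z)) .z)) (.a (.b (.b (.l 20) (.a (.l 20) .z)) (.b (.a (.l 20) .z) .z)) (.a (.b .z (.b .z (.l 18))) (.b (.a .z (.l
18)) (.l 18))))) (.a (.b (.a (.b .z (.a .z (.l 18))) (.l 18)) (.l 18)) (.l 18)))) (.b (.a (.c (.b (.c .z (.a (.l 18) .z)) (.a (.l 18) (.c (.b .z (.l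
18)) (.l 18)))) (.l 18)) (.c (.a .z (.b (.c (.l 28) .z) .z)) (.a (.b (.c .z (.l 18)) (.l 18)) (.b .z (.c .z (.a (.l 18) .z)))))) (.a (.l 18) (.c (.a
(.b (.c (.a (.l 18) .z) (.l 18)) (.l 18)) (.b .z (.c (.a (.l 18) .z) (.l 18)))) (.a (.l 18) (.b (.c (.a (.l 18) .z) (.l 18)) (.l 18))))))) (.a (.a (.b
(.l 20) (.b (.a (.l 20) (.b (.l 20) (.a (.l 20) .z))) (.a (.b (.l 20) (.b (.a (.l 20) .z) .z)) (.b .z (.a (.b .z (.l 18)) (.l 18)))))) (.b (.a (.b (.a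
(.l 20) (.b (.l 20) (.c .z (.l 20)))) (.a (.b (.l 20) (.a (.l 20) .z)) .z)) (.b (.a .z (.b .z (.a .z (.l 18)))) (.a (.b .z (.l 18)) (.l 18)))) (.a (.b
(.a .z (.b (.a .z (.l 18)) (.l 18))) (.l 18)) (.l 18)))) (.a (.l 18) (.b (.c (.a (.l 18) (.b (.c (.a (.l 18) .z) (.l 18)) (.l 18))) (.l 18)) (.l
18)))))))

theorem vQ34 : ev3 Q34 J3_0 J4_7 J4_8 = 176662258637604785440337 := by decide +kernel

noncomputable def Q27 : QT3 :=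
(.b (.c (.c (.b (.a (.l 28) (.a (.c (.l 28) (.b (.c (.l 28) (.a (.l 28) .z)) (.l 28))) (.c (.a (.l 28) (.b (.c (.l 28) .z) (.c (.l 28) .z))) (.a (.b
.z (.c (.l 28) .z)) (.b (.c .z (.a .z (.l 24))) .z))))) (.a (.b (.a (.b (.l 28) .z) (.b (.l 28) .z)) .z) (.a (.b (.b (.l 28) .z) .z) (.c (.b (.b (.l
28) .z) .z) (.b (.a (.b (.l 28) .z) .z) .z))))) (.b (.a (.c (.b (.c (.b (.a (.l 28) .z) (.l 28)) (.b .z (.a (.l 28) .z))) (.l 28)) (.b (.a .z (.a .z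
(.c .z (.b .z (.l 24))))) (.a (.c (.l 28) (.b .z (.l 28))) .z))) (.a (.c (.b (.c .z (.a .z (.b (.l 24) .z))) (.c (.a (.l 28) .z) .z)) (.b (.c (.a (.b
(.l 24) .z) (.l 24)) (.l 24)) (.a (.c .z (.b (.l 24) .z)) (.c .z (.b (.l 24) .z))))) (.c (.b (.a (.c (.b (.l 24) .z) (.l 24)) (.l 24)) (.a .z (.c (.b
(.l 24) .z) .z))) (.b (.a (.l 24) (.c (.b (.l 24) .z) .z)) (.a (.c (.b (.l 24) .z) .z) .z))))) (.a (.c (.b (.a (.b (.l 28) .z) (.b (.l 28) .z)) .z)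
(.b (.a (.b (.l 28) .z) (.b (.c (.l 28) .z) .z)) .z)) (.a (.c (.b (.b (.a (.l 28) .z) .z) .z) .z) (.c .z (.b .z (.a .z (.c .z (.a .z (.l 14))))))))))
(.b (.c (.a (.c (.b (.a (.c .z (.a (.l 28) .z)) .z) (.a .z (.a .z (.c (.b (.l 24) .z) (.b .z (.l 24)))))) .z) (.a (.c (.b (.a (.c (.b .z (.l 24)) .z)
(.c (.l 24) (.b (.l 24) .z))) (.a (.c (.l 24) (.b (.l 24) .z)) .z)) .z) (.c (.b (.a (.c (.b (.l 24) .z) .z) .z) .z) (.b .z (.c (.c .z (.l 46)) .z)))))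
(.a (.b (.c .z (.b .z (.c .z (.a (.b .z (.c .z (.l 12))) .z)))) (.c (.b .z (.c .z (.a (.b .z (.c .z (.l 12))) .z))) (.a (.b (.c (.b .z (.c .z (.l
12))) (.l 12)) (.l 12)) (.a (.c .z (.b .z (.a (.l 12) .z))) .z)))) .z)) (.c (.a (.b (.c .z (.b .z (.c .z (.c .z (.a (.b .z (.l 12)) .z))))) (.c .z (.c
.z (.c (.a (.l 12) .z) (.a (.l 12) (.a (.b .z (.l 12)) .z)))))) (.a .z (.c (.a (.b (.b .z (.b .z (.l 14))) (.c (.a .z (.l 14)) (.l 14))) (.b (.b .z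
(.b .z (.l 14))) (.l 14))) (.b (.b .z (.b .z (.l 14))) (.c (.a (.b (.l 14) .z) (.l 14)) (.a .z (.b (.l 14) .z))))))) (.a (.a (.b (.c (.b (.c (.b .z
(.c .z (.l 12))) (.l 12)) (.l 12)) (.l 12)) (.l 12)) (.b (.c (.a (.c .z (.b .z (.a (.l 12) .z))) .z) (.a (.b (.c (.a (.l 12) .z) (.l 12)) (.l 12)) (.c
(.b .z (.a (.l 12) .z)) (.b (.a (.l 12) .z) (.l 12))))) (.c (.a (.b (.c (.a (.l 12) .z) (.l 12)) (.l 12)) (.c (.b .z (.a (.l 12) .z)) (.b (.a (.l 12)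
.z) (.l 12)))) (.l 12)))) (.c .z (.a (.a (.b .z (.a (.c .z (.l 12)) .z)) .z) .z)))))) (.c (.b (.c (.a (.c (.b .z (.a (.a (.l 52) .z) (.a .z (.a (.b .z
(.l 24)) .z)))) (.b (.a (.a (.b .z (.l 52)) .z) .z) (.c (.b .z (.a .z (.a (.l 24) .z))) (.b (.a .z (.a (.l 24) .z)) .z)))) (.a .z (.c .z (.b .z (.a
(.c .z (.l 46)) .z))))) (.a (.b (.c (.c (.b .z (.a .z (.a (.l 24) .z))) .z) .z) (.c .z (.a (.b (.c .z (.l 20)) (.l 20)) .z))) (.a (.b .z (.c (.a (.b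
.z (.l 46)) (.c (.l 46) .z)) (.a (.c (.l 46) .z) .z))) .z))) (.c (.a (.b (.c (.c (.b (.a .z (.a .z (.l 24))) (.a .z (.a (.l 24) .z))) (.b (.a .z (.a
(.l 24) .z)) .z)) .z) (.c .z (.a (.b (.c .z (.a (.l 20) .z)) (.c (.a (.l 20) .z) (.l 20))) .z))) (.a (.b (.c .z (.a (.b .z (.l 46)) (.l 46))) (.c .z
(.l 46))) .z)) (.a (.a (.b (.c (.b (.c .z (.l 20)) (.c (.a (.l 20) .z) (.l 20))) (.l 20)) (.l 20)) (.b (.c .z (.a (.b (.c .z (.l 20)) (.l 20)) .z))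
(.c (.a (.b (.c .z (.l 20)) (.l 20)) .z) (.a (.l 20) (.a (.l 20) (.c .z (.l 20))))))) (.a (.c (.a (.b (.l 46) .z) (.c (.l 46) (.a (.l 46) .z))) .z)
.z)))) (.c (.a (.c (.a (.b (.b (.b (.c .z (.l 20)) (.l 20)) (.l 20)) (.l 20)) (.c (.a (.b (.b .z (.b .z (.l 20))) (.l 20)) (.c (.a (.b .z (.l 20)) .z)
.z)) (.a (.c (.a (.b .z (.l 20)) .z) .z) .z))) (.c (.a (.c (.a (.l 20) .z) .z) (.c (.a (.a .z (.l 39)) (.l 39)) (.a (.a .z (.l 39)) (.l 39)))) (.a (.l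
12) (.c .z (.a (.l 12) (.a (.b (.a (.l 12) .z) .z) .z)))))) (.c (.a (.b .z (.a (.c .z (.l 39)) (.c (.b .z (.l 39)) (.l 39)))) (.b (.a .z (.b (.a .z
(.c (.l 14) .z)) .z)) (.a (.c (.b .z (.l 39)) (.l 39)) (.b .z (.a (.l 39) .z))))) (.a (.c (.b (.b .z (.a (.l 39) .z)) (.l 39)) (.a (.c (.b .z (.l 39))
.z) (.b .z (.l 39)))) (.b .z (.a (.b .z (.l 39)) .z))))) (.a (.l 12) (.c (.a (.c (.a (.c .z (.a (.b (.b .z (.l 12)) (.l 12)) .z)) .z) (.a (.b (.b (.a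
(.b .z (.l 12)) .z) (.l 12)) (.l 12)) (.c (.a (.b .z (.a (.l 12) .z)) .z) (.a (.b .z (.l 12)) (.b .z (.a (.l 12) .z)))))) .z) (.a (.b (.a (.b (.a (.l
12) (.c (.b .z (.l 12)) (.l 12))) (.l 12)) (.b (.a (.c .z (.b .z (.l 12))) .z) (.a (.c (.b .z (.l 12)) (.l 12)) (.c .z (.a (.l 12) .z))))) (.a (.l 12)
(.a (.l 12) (.b (.c (.a (.l 12) .z) (.l 12)) (.l 12))))) (.a (.c (.a (.c .z (.b .z (.b .z (.l 12)))) .z) (.b .z (.a (.b .z (.l 12)) .z))) .z)))))))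

theorem vQ27 : ev3 Q27 J3_0 J4_5 J4_10 = 162248287409368227620449 := by decide +kernel

noncomputable def Q151 : QT3 :=
(.a (.b (.c (.a .z (.b (.c .z (.b .z (.c .z (.a .z (.b .z (.c .z (.a .z (.a .z (.l 19))))))))) (.c .z (.a .z (.b (.c .z (.a (.c .z (.a .z (.b .z (.l
19)))) (.c (.b (.a .z (.l 19)) (.l 19)) (.l 19)))) (.c .z (.a (.b (.c .z (.l 19)) .z) (.b (.c .z (.l 19)) .z)))))))) (.b (.a (.c (.b (.c (.a (.c .z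
(.c .z (.l 58))) (.b (.c .z (.l 58)) .z)) (.a (.b (.l 58) .z) .z)) .z) (.b (.a .z (.c (.b (.a .z (.c .z (.a .z (.l 19)))) (.a .z (.c .z (.a .z (.l
19))))) (.a (.c (.a .z (.c .z (.l 19))) (.l 19)) (.l 19)))) (.a .z (.c (.a .z (.c .z (.a .z (.c .z (.l 19))))) (.a (.c .z (.a .z (.b (.l 19) .z))) (.c
(.a (.c .z (.l 19)) (.l 19)) (.l 19))))))) (.c (.b (.a (.c .z (.b (.a .z (.c .z (.l 19))) (.a .z (.c .z (.l 19))))) (.c (.b (.a .z (.c .z (.l 19)))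
(.a .z (.c (.a .z (.l 19)) (.l 19)))) (.l 19))) (.a (.c .z (.a (.c .z (.a .z (.c .z (.l 19)))) (.c (.a .z (.l 19)) (.l 19)))) (.c (.a (.c .z (.a (.c
.z (.l 19)) (.l 19))) (.c (.a (.b .z (.l 19)) (.l 19)) (.l 19))) (.l 19)))) (.a (.c (.a (.c (.a (.c (.a .z (.l 19)) (.l 19)) (.l 19)) (.l 19)) (.l
19)) (.l 19)) (.l 19)))) (.a (.c .z (.a .z (.a .z (.c (.a .z (.c .z (.b (.a .z (.l 19)) .z))) (.a (.b (.c .z (.b (.l 19) .z)) .z) (.b (.l 19) (.c (.a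
.z (.l 19)) (.a .z (.l 19))))))))) (.b (.a (.c (.a (.c .z (.a .z (.c .z (.a .z (.l 19))))) (.c (.c .z (.a .z (.b .z (.l 19)))) (.a (.c (.a .z (.l 19))
(.l 19)) (.l 19)))) (.a (.c (.a (.c (.a .z (.l 19)) (.l 19)) (.l 19)) (.l 19)) (.l 19))) (.c (.c (.a (.c (.a (.b .z (.l 19)) (.l 19)) (.l 19)) (.l
19)) (.l 19)) (.l 19))) (.a (.c (.a (.c .z (.a .z (.c (.a .z (.l 19)) (.l 19)))) (.c (.a (.c .z (.a .z (.l 19))) (.c (.b .z (.l 19)) (.l 19))) (.l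
19))) (.b (.a (.c (.a (.c .z (.l 19)) (.l 19)) (.l 19)) (.l 19)) (.a (.b (.a (.c .z (.l 19)) (.l 19)) (.c (.a .z (.l 19)) (.a (.l 19) .z))) (.c (.b
(.l 19) (.c (.l 19) .z)) (.b (.a (.l 19) .z) .z))))) (.c (.b (.l 19) (.c (.l 19) (.a (.l 19) (.b (.a (.l 19) .z) .z)))) (.b (.a (.b (.l 19) (.c (.l
19) (.a (.l 19) .z))) (.b (.c (.l 19) (.a (.l 19) .z)) .z)) (.c (.a (.b (.a (.l 19) .z) .z) .z) .z)))))))) (.c .z (.a .z (.b (.c (.a (.b (.c (.a .z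
(.b (.c .z (.l 19)) .z)) (.b (.a (.a .z (.l 19)) (.c (.l 19) (.b (.l 19) .z))) (.a (.c (.a .z (.l 19)) .z) .z))) .z) (.b (.c (.a (.b (.c .z (.l 19))
.z) .z) (.b (.a (.c (.b (.l 19) .z) .z) .z) .z)) .z)) (.c (.b (.a (.b (.a (.b (.a .z (.l 19)) .z) .z) .z) .z) .z) .z)) .z)))) (.b (.c (.a (.b (.c (.a
.z (.b .z (.c .z (.a .z (.b (.c .z (.a .z (.l 19))) .z))))) (.b (.a (.c .z (.b (.a .z (.c .z (.l 19))) (.a (.c .z (.a .z (.l 19))) (.c (.a .z (.l 19))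
(.l 19))))) (.c (.b (.a .z (.c .z (.l 19))) (.a (.c .z (.a .z (.l 19))) (.c (.a .z (.l 19)) (.l 19)))) (.l 19))) (.a (.c (.b (.c .z (.a .z (.a .z (.l
19)))) (.c .z (.a .z (.l 19)))) (.a (.c (.b .z (.a .z (.l 19))) (.l 19)) (.l 19))) (.c (.a (.c (.b (.a .z (.l 19)) (.l 19)) (.l 19)) (.l 19)) (.l
19))))) (.c .z (.a (.b (.c (.a (.b (.c .z (.a .z (.l 19))) .z) (.b (.c .z (.l 19)) .z)) (.l 19)) (.c .z (.a (.b (.c .z (.l 19)) .z) (.b (.c .z (.l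
19)) .z)))) (.b (.c (.a (.b (.c .z (.l 19)) .z) (.b (.c .z (.l 19)) .z)) (.a (.b (.l 19) (.a (.l 19) (.c (.l 19) .z))) (.a (.b (.l 19) .z) .z)))
.z)))) (.b (.c (.a (.b (.c .z (.b (.a .z (.c .z (.l 19))) (.a (.c .z (.a .z (.l 19))) (.c (.a .z (.l 19)) (.l 19))))) (.c .z (.a (.b (.c .z (.l 19))
.z) (.b (.c .z (.a (.l 19) .z)) .z)))) (.b (.c .z (.a (.b (.l 19) (.a (.b (.l 19) .z) .z)) (.b (.a (.b (.l 19) .z) .z) .z))) .z)) (.a (.b (.l 19) (.a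
(.b (.l 19) (.a (.c (.l 19) (.b (.l 19) .z)) (.c (.b (.l 19) .z) .z))) (.b (.a (.b (.l 19) (.c (.l 19) .z)) .z) .z))) (.b (.a (.b (.l 19) (.a (.b (.l
19) .z) .z)) (.b (.a (.b (.l 19) .z) .z) .z)) .z))) .z)) (.a (.b (.b (.l 19) (.a (.l 19) (.b (.l 19) (.a (.l 19) (.b (.l 19) (.a (.c (.l 19) (.b (.l
19) .z)) (.c (.b (.l 19) .z) .z))))))) (.a (.b (.b (.a (.l 19) (.b (.l 19) (.c (.l 19) (.a (.l 19) (.b (.l 19) .z))))) (.c (.a (.l 19) (.c (.l 19) (.b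
(.l 19) .z))) (.a (.b (.l 19) (.a (.c (.l 19) .z) .z)) (.b (.a (.b (.l 19) .z) .z) .z)))) (.a (.c (.b (.c (.l 19) (.b (.a (.l 19) .z) .z)) (.c (.c (.a
(.l 19) .z) .z) .z)) .z) (.c (.b (.c (.a (.c (.l 19) .z) .z) .z) .z) .z))) (.b (.a (.b (.c (.b (.l 19) (.a (.l 19) (.c (.l 19) .z))) (.b (.a (.l 19)
(.b (.l 19) .z)) .z)) (.c (.c (.a (.b (.l 19) .z) .z) .z) .z)) (.b (.a (.b (.c (.c (.l 19) .z) .z) .z) .z) .z)) .z))) (.b (.a (.b (.b (.l 19) (.a (.l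
19) (.b (.l 19) (.a (.l 19) (.b (.l 19) (.a (.l 19) .z)))))) (.a (.b (.b (.l 19) (.a (.l 19) (.b (.a (.l 19) .z) .z))) (.a (.b (.c (.b (.l 19) .z) .z)
.z) .z)) (.b (.a (.b (.b (.l 19) (.a (.l 19) .z)) .z) .z) .z))) (.b (.a (.b (.b (.l 19) (.a (.l 19) (.b (.l 19) (.a (.l 19) .z)))) (.a (.b (.b (.l 19)
(.a (.l 19) .z)) .z) .z)) (.b (.a (.b (.b (.l 19) (.a (.l 19) .z)) .z) .z) .z)) .z)) .z))) .z))

theorem vQ151 : ev3 Q151 J3_3 J3_4 J3_4 = 250100041781101916939306 := by decide +kernel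

noncomputable def Q131 : QT3 :=
(.b (.a (.c (.b (.a (.c (.c (.a (.c .z (.a .z (.l 9))) (.c (.a (.c .z (.l 9)) (.l 9)) (.l 9))) (.l 9)) (.b (.c (.l 9) (.c (.c (.a .z (.l 9)) .z) (.c
(.a (.l 11) .z) (.a (.l 11) .z)))) (.a (.c (.l 9) .z) (.c (.l 9) .z)))) (.c (.b (.l 9) (.a (.l 9) (.c (.l 9) (.b (.a (.l 9) .z) .z)))) (.b (.a (.c (.l
9) (.c (.l 9) .z)) (.c (.b (.l 9) (.a (.l 9) .z)) .z)) (.a (.c (.b (.l 9) .z) .z) .z)))) (.a (.c (.b (.a (.c (.c .z (.a .z (.l 9))) (.l 9)) (.c (.l 9)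
(.b (.l 9) (.a (.l 9) .z)))) (.a (.c (.c (.a .z (.l 9)) (.l 9)) (.b (.a (.l 9) .z) .z)) (.c (.b (.a (.l 9) .z) .z) .z))) (.b (.a (.c (.b (.l 9) (.a
(.l 9) .z)) .z) (.c (.b (.a (.l 9) .z) .z) .z)) (.a .z (.c (.b .z (.c (.l 9) .z)) .z)))) (.c (.b (.a (.c (.b (.l 9) (.a (.l 9) .z)) .z) .z) (.a .z (.c
.z (.c .z (.c .z (.l 9)))))) (.b (.a (.c (.b .z (.a .z (.l 9))) .z) (.c (.b (.a .z (.l 9)) (.l 9)) (.c .z (.c .z (.l 10))))) (.c (.c (.l 9) (.c (.b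
(.l 9) .z) .z)) (.c (.c .z (.b .z (.l 10))) (.a (.c (.l 10) .z) (.l 10)))))))) (.b (.a .z (.b .z (.c (.a (.b .z (.c .z (.l 25))) (.b (.c .z (.l 25))
(.c .z (.l 25)))) .z))) (.a (.b (.c (.a .z (.c (.b .z (.l 25)) .z)) .z) (.c .z (.c (.b .z (.c .z (.a (.l 11) .z))) (.b (.c (.a (.l 11) .z) (.c (.l 11)
.z)) (.l 11))))) (.c (.b (.c (.c .z (.a (.l 25) .z)) (.c (.a .z (.l 25)) .z)) .z) (.b .z (.c .z (.b .z (.c .z (.a (.l 11) .z))))))))) (.c (.b (.a (.c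
(.b (.a (.c (.l 9) (.b (.l 9) (.a (.l 9) .z))) (.c (.b (.l 9) .z) .z)) (.a (.c (.b (.a (.l 9) .z) .z) .z) (.c .z (.b (.a .z (.l 9)) (.l 9))))) (.b (.a
(.c (.b (.a (.l 9) .z) .z) .z) (.c (.b .z (.a .z (.l 9))) (.b .z (.c (.l 9) .z)))) (.a (.c (.b .z (.l 9)) (.c (.c (.l 9) .z) .z)) (.c (.l 9) (.c (.c
(.l 9) .z) .z))))) (.c (.b (.a (.c .z (.b .z (.a .z (.l 9)))) (.c .z (.l 9))) (.a (.c .z (.l 9)) (.c .z (.l 9)))) (.b (.a (.c (.b (.a .z (.l 9)) (.l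
9)) (.c (.l 9) .z)) (.c (.l 9) (.c (.l 9) .z))) (.c (.l 9) (.c (.c (.b (.l 9) .z) .z) (.c .z (.b .z (.l 10)))))))) (.a (.c (.b (.a (.c .z (.b .z (.c
.z (.l 9)))) (.c .z (.c (.c .z (.l 9)) (.l 9)))) (.c .z (.c .z (.c (.b (.l 9) .z) (.l 9))))) (.c (.c (.l 9) (.b (.c (.l 9) (.b (.l 9) .z)) .z)) (.c
(.b .z (.c (.b .z (.l 10)) (.l 10))) (.b (.c (.b .z (.l 10)) (.l 10)) (.l 10))))) (.c (.c .z (.c (.b (.c .z (.l 9)) .z) (.l 9))) (.c (.c (.b (.l 9)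
(.c (.l 9) (.b (.l 9) .z))) (.b (.c (.b (.l 9) .z) .z) (.c .z (.b .z (.l 10))))) (.c (.b (.c .z (.b .z (.l 10))) (.l 10)) (.l 10)))))) (.b (.a (.b (.c
(.a (.b (.c .z (.l 25)) (.c .z (.l 25))) (.c (.c (.c .z (.l 10)) .z) (.l 25))) (.c (.l 25) .z)) (.c (.c (.c (.a (.c (.l 10) .z) (.l 10)) .z) (.c (.a
(.l 25) .z) (.l 25))) (.c (.c (.l 25) .z) .z))) (.c (.c (.c (.b (.c (.b .z (.l 10)) (.l 10)) (.l 10)) (.a (.c (.l 10) (.a .z (.l 10))) (.l 10))) (.c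
(.a .z (.c (.a .z (.l 10)) .z)) (.a (.c .z (.l 25)) .z))) (.c (.a (.c (.c (.l 25) .z) .z) .z) (.c (.a .z (.b .z (.l 15))) .z)))) (.c (.c (.a (.c (.a
(.c (.l 10) (.a .z (.l 10))) (.l 10)) (.a .z (.c (.l 10) .z))) (.l 10)) (.a (.c (.a (.c .z (.l 25)) .z) (.a (.b (.l 25) .z) (.c .z (.l 25)))) (.c (.a
(.c (.a .z (.l 10)) .z) (.l 10)) (.a .z (.c (.b .z (.l 10)) .z))))) (.b (.c (.a (.a .z (.c (.l 25) .z)) (.c .z (.a .z (.l 15)))) (.a (.a .z (.c .z (.l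
15))) (.l 15))) (.c .z (.a .z (.b (.l 15) (.a .z (.l 15)))))))))) (.a (.c (.b (.a (.c (.b .z (.a (.c .z (.b .z (.l 23))) (.c (.b .z (.l 23)) .z))) (.b
(.a .z (.c .z (.c (.l 10) .z))) (.c (.b (.c .z (.c .z (.l 10))) .z) (.b (.c (.a .z (.l 10)) .z) .z)))) (.c (.b .z (.c (.b .z (.l 23)) (.c (.b .z (.l
23)) .z))) (.b (.c (.c (.c (.b (.l 9) .z) .z) (.c .z (.b .z (.l 10)))) (.l 10)) (.c (.c (.c .z (.b .z (.l 10))) (.l 10)) (.b (.c (.l 10) (.a .z (.l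
10))) (.c (.a .z (.l 10)) .z)))))) (.c (.b (.c (.a .z (.l 23)) (.a .z (.c (.b (.l 23) .z) (.b .z (.c .z (.l 10)))))) (.c (.a .z (.b (.a .z (.l 23))
.z)) (.a (.b .z (.c .z (.l 19))) .z))) (.b (.c (.a .z (.b (.c (.l 10) (.a .z (.l 10))) .z)) (.a (.b (.c (.a (.l 11) .z) (.l 11)) (.l 11)) (.b .z (.c
.z (.l 11))))) (.c (.a (.b (.c .z (.c .z (.l 11))) (.c .z (.l 11))) (.b .z (.c .z (.c .z (.l 11))))) (.l 11))))) (.b (.c (.b (.c .z (.a (.b .z (.c (.a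
(.l 11) .z) (.l 11))) .z)) (.c (.a (.b (.c .z (.a (.l 11) .z)) (.l 11)) (.b .z (.c .z (.a (.l 11) .z)))) (.a (.l 11) (.b (.c (.a (.l 11) .z) (.l 11))
(.l 11))))) (.b (.c (.a (.l 11) (.b (.c .z (.a (.l 11) .z)) (.c (.a (.l 11) .z) (.l 11)))) (.l 11)) (.l 11))) (.c (.b (.c (.a (.l 11) (.b (.c (.a (.l
11) .z) (.l 11)) (.l 11))) (.l 11)) (.l 11)) (.l 11)))) (.c (.b (.c (.c (.b .z (.b .z (.l 23))) (.c (.b .z (.c (.b .z (.l 23)) .z)) (.b (.c .z (.b (.a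
.z (.l 9)) .z)) .z))) (.c (.c (.b (.c (.b (.a (.l 9) .z) .z) .z) (.c (.b .z (.a .z (.l 10))) (.b (.a .z (.l 10)) (.l 10)))) (.b (.c (.b .z (.l 10))
(.l 10)) (.l 10))) (.l 10))) (.c (.b (.c (.c (.l 23) (.b (.l 23) (.c (.l 23) .z))) (.c .z (.b (.c .z (.a .z (.l 10))) (.c (.a .z (.l 10)) (.l 10)))))
(.c (.c (.b (.l 23) (.c (.l 23) .z)) .z) (.a (.b (.c .z (.l 10)) (.c (.c .z (.l 10)) (.a .z (.l 10)))) (.c (.b (.c .z (.l 10)) (.l 10)) (.l 10)))))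
(.b (.c (.a (.b (.l 10) (.c (.l 10) (.a .z (.l 10)))) (.l 10)) (.a (.b (.c (.a .z (.l 10)) .z) .z) (.b (.l 10) (.c (.l 10) (.a .z (.l 10)))))) (.c (.a
(.b (.c (.a .z (.l 10)) .z) .z) (.b (.l 10) (.c (.a .z (.l 10)) .z))) (.a (.b (.c .z (.a (.l 11) .z)) (.c (.a (.l 11) .z) (.l 11))) (.b (.a .z (.c (.l
10) .z)) .z)))))) (.b (.c (.b (.c (.a (.c (.l 10) (.a .z (.l 10))) (.l 10)) (.a .z (.c (.l 10) (.a .z (.l 10))))) (.c (.a (.b (.c (.l 10) (.a .z (.l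
10))) (.c (.a .z (.l 10)) .z)) (.l 10)) (.a (.b .z (.c .z (.a (.l 11) .z))) (.b (.a (.c (.l 10) .z) (.l 10)) (.a .z (.c (.l 10) .z)))))) (.b (.a (.c
.z (.b (.a (.c .z (.l 11)) .z) (.a (.l 11) (.c .z (.l 11))))) .z) (.a (.c (.b (.a (.l 11) (.c .z (.l 11))) (.l 11)) (.l 11)) (.c (.b .z (.a (.c .z (.l
11)) .z)) (.b (.a (.l 11) (.c .z (.l 11))) (.l 11)))))) (.c (.b (.a (.c (.b .z (.c (.a (.l 11) .z) (.l 11))) (.b (.a (.l 11) (.c .z (.l 11))) (.l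
11))) (.c (.b (.a .z (.c (.l 10) .z)) .z) (.b .z (.a (.l 11) (.c .z (.l 11)))))) (.a (.l 11) (.c (.b (.a (.c .z (.l 11)) .z) (.a (.l 11) (.c .z (.l
11)))) (.l 11)))) (.b (.a (.l 11) (.c (.b (.a (.l 11) (.c .z (.l 11))) (.l 11)) (.c (.l 11) (.a (.l 11) (.b (.l 11) .z))))) (.c (.a (.l 11) (.c (.l
11) (.a (.l 11) (.b (.l 11) .z)))) (.a (.c (.l 11) (.a (.l 11) (.b (.l 11) .z))) (.c (.a (.b (.l 11) .z) .z) .z)))))))))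

theorem vQ131 : ev3 Q131 J4_3 J4_10 J4_13 = 113371343170601038648740 := by decide +kernel

noncomputable def Q36 : QT3 :=
(.a (.b (.b (.c (.c (.a (.b (.c (.b (.c .z (.a (.l 20) .z)) (.c (.a (.l 20) .z) (.l 20))) (.l 20)) (.l 20)) (.b (.c .z (.a (.b (.c .z (.l 20)) (.l
20)) .z)) (.c (.a (.b (.c .z (.l 20)) (.l 20)) .z) (.a (.l 20) (.a (.l 20) (.c .z (.l 20))))))) (.a (.l 20) (.a (.l 20) (.b (.c (.a (.l 20) (.c .z (.l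
20))) (.l 20)) (.l 20))))) (.l 20)) (.c (.a (.l 20) (.a (.l 20) (.b (.c (.c (.a (.l 20) (.c .z (.l 20))) (.l 20)) (.l 20)) (.c (.a (.l 20) (.b (.l 20)
(.a (.l 20) .z))) (.l 20))))) (.l 20))) (.b (.a (.l 20) (.b (.a (.l 20) (.c (.a (.c (.b (.l 20) (.a (.l 20) .z)) (.l 20)) (.c .z (.b (.a (.l 20) .z)
.z))) (.a (.l 20) (.b (.l 20) (.c (.a (.l 20) .z) (.l 20)))))) (.a (.c (.a (.l 20) (.b (.c (.a (.l 20) .z) (.l 20)) (.c .z (.a (.l 20) .z)))) (.l 20))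
(.c (.a (.b .z (.a .z (.c (.l 18) .z))) (.b (.c (.a .z (.l 18)) .z) (.l 18))) (.a (.b (.c (.a (.l 20) .z) (.l 20)) (.a (.b (.l 20) .z) .z)) (.b .z (.a
.z (.b .z (.l 18))))))))) (.a (.b (.b (.l 20) (.c (.a (.l 20) (.a (.l 20) (.b (.l 20) (.a (.l 20) .z)))) (.l 20))) (.b (.a (.l 20) (.a (.b (.l 20) (.c
(.a (.l 20) .z) (.l 20))) (.b (.c .z (.a (.l 20) .z)) .z))) (.a (.b (.c (.a (.l 20) (.a (.l 20) .z)) (.l 20)) .z) (.a (.b .z (.a .z (.l 18))) (.b (.a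
.z (.l 18)) (.l 18)))))) (.a (.b (.b (.c (.a (.c (.a (.l 20) .z) (.b (.l 20) .z)) .z) (.a (.l 20) (.b (.a (.l 20) .z) .z))) (.a (.c .z (.b (.a (.l 20)
.z) .z)) (.c (.a (.b .z (.l 18)) (.l 18)) (.b .z (.a .z (.l 18)))))) (.b (.a (.b (.c (.a .z (.l 18)) .z) (.a (.c (.l 18) .z) (.l 18))) (.l 18)) (.l
18))) (.b (.a (.b (.c (.a (.b .z (.l 18)) (.l 18)) (.a .z (.b .z (.l 18)))) (.l 18)) (.l 18)) (.l 18)))))) (.b (.a (.b (.c (.a (.c (.b (.c (.l 51) (.a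
.z (.l 51))) .z) (.c (.b .z (.a (.c .z (.l 20)) .z)) (.b (.a (.c .z (.l 20)) .z) (.a (.l 20) (.c .z (.l 20)))))) (.b (.c .z (.a (.c (.l 51) .z) .z))
(.a .z (.c (.a (.b .z (.l 18)) (.l 18)) .z)))) (.a (.l 20) (.b (.c (.a (.c .z (.l 20)) .z) (.a (.l 20) (.c (.a (.l 20) .z) (.l 20)))) (.a (.l 20) (.c
.z (.b (.l 20) (.a (.l 20) .z))))))) (.a (.c (.b (.a (.c .z (.l 20)) (.c .z (.b (.a (.l 20) .z) .z))) (.a (.c .z (.b (.a (.l 20) .z) .z)) (.c (.b (.a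
.z (.l 18)) (.l 18)) .z))) (.b (.l 20) (.a (.b (.l 20) (.c (.a (.l 20) .z) (.l 20))) (.b (.c (.a (.l 20) .z) (.l 20)) .z)))) (.c (.b (.a (.c (.a (.b
.z (.l 18)) (.l 18)) .z) (.c (.l 18) (.b (.a .z (.l 18)) (.l 18)))) (.a (.c (.l 18) (.b (.a .z (.l 18)) (.l 18))) (.l 18))) (.b (.a (.c (.b (.a (.l
20) .z) .z) (.b (.l 20) (.a (.l 20) .z))) (.b .z (.c (.a .z (.l 18)) .z))) (.a (.b .z (.a .z (.c (.l 18) .z))) (.b (.a (.c (.l 18) .z) (.l 18)) (.l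
18))))))) (.b (.a (.c (.a (.b (.c (.a (.c (.l 18) .z) (.l 18)) .z) (.c (.l 18) (.a (.b .z (.l 18)) (.l 18)))) (.b (.c (.l 18) (.a (.b .z (.l 18)) (.l
18))) (.l 18))) (.b (.a .z (.c (.b .z (.a .z (.l 18))) .z)) (.a (.c (.b .z (.a .z (.l 18))) .z) (.c (.l 18) (.b .z (.c (.l 18) .z)))))) (.c (.l 18)
(.b (.a (.c (.l 18) (.b .z (.c (.l 18) .z))) (.c (.l 18) (.c (.c (.l 18) .z) .z))) (.c (.l 18) (.c (.l 18) .z))))) (.a (.b (.c (.l 18) (.a (.b (.c (.l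
18) (.a .z (.l 18))) (.l 18)) (.c (.l 18) (.c (.l 18) (.c (.l 18) .z))))) (.l 18)) (.c (.l 18) (.c (.l 18) (.c (.l 18) (.c (.b (.c (.l 18) .z) (.l
18)) .z))))))) (.a (.b (.a (.b (.c (.a (.b (.c (.a .z (.l 18)) .z) (.c (.l 18) (.a .z (.l 18)))) (.l 18)) (.a (.b (.c .z (.a (.l 20) .z)) .z) (.b (.a
.z (.c (.l 18) .z)) (.a (.c (.l 18) .z) (.l 18))))) (.a (.c (.l 18) (.b (.a .z (.l 18)) (.l 18))) (.l 18))) (.l 18)) (.l 18)) (.l 18))))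

theorem vQ36 : ev3 Q36 J3_0 J4_7 J4_9 = 417939747512777555704971 := by decide +kernel

noncomputable def Q94 : QT3 :=
(.b (.c (.c (.a (.a (.l 31) (.a (.a (.l 31) (.a .z (.l 29))) (.l 29))) (.c (.l 29) (.a (.l 29) (.b (.l 29) (.c (.l 29) (.a (.l 29) .z)))))) (.a (.c
(.a (.l 31) (.a (.a (.l 31) (.a .z (.l 29))) (.l 29))) (.a (.b (.c (.l 31) (.a .z (.l 31))) (.c (.a .z (.l 31)) .z)) (.c (.a (.a (.l 31) .z) (.l 29))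
(.b (.a .z (.l 29)) .z)))) (.c (.a (.b (.l 29) (.c (.l 29) (.a (.l 29) .z))) (.b (.c (.a (.l 29) .z) .z) .z)) (.a (.b (.c (.a (.l 29) .z) .z) .z)
.z)))) (.c (.a (.c (.a (.c (.b .z (.a (.b (.c .z (.l 10)) (.l 10)) .z)) (.a (.b (.b (.c .z (.l 10)) (.l 10)) (.l 10)) (.b .z (.c (.a (.l 10) .z)
.z)))) .z) (.a (.c (.a (.b (.c (.l 10) (.a (.l 10) .z)) (.c (.a (.l 10) .z) .z)) (.b (.c (.a (.l 10) .z) .z) .z)) .z) (.c .z (.a .z (.b .z (.l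
41)))))) (.c (.a .z (.c (.b .z (.b .z (.l 21))) (.b .z (.b (.b .z (.l 21)) (.l 21))))) (.c (.a .z (.b .z (.c (.b .z (.l 21)) .z))) (.a .z (.b (.c .z
(.l 27)) .z))))) (.a (.c (.a .z (.a (.a .z (.a .z (.l 41))) (.l 41))) (.b (.a .z (.a .z (.l 41))) .z)) (.c (.c (.a (.a (.a (.l 41) .z) .z) (.b (.a .z
(.l 27)) .z)) (.a (.b (.a (.l 41) .z) .z) (.a .z (.a .z (.l 27))))) (.a (.a (.b (.b (.l 41) .z) .z) .z) (.a (.a .z (.c .z (.l 43))) .z)))))) (.a (.c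
(.c (.c (.c (.b (.c .z (.a (.l 31) .z)) .z) (.b (.a (.l 31) (.a .z (.l 29))) (.a (.b (.l 31) .z) (.a .z (.l 29))))) (.a (.b (.l 31) (.a (.c (.l 31)
.z) (.l 31))) (.a (.a (.l 31) (.a .z (.l 29))) (.l 29)))) (.c (.a (.b (.c (.l 31) (.a .z (.l 31))) (.a (.c .z (.b .z (.a (.l 10) .z))) .z)) (.b (.a
(.a (.l 31) .z) (.l 29)) (.a .z (.c (.l 29) .z)))) (.a (.c (.b .z (.a (.b (.a (.l 10) .z) (.l 10)) (.b .z (.a (.l 10) .z)))) (.a (.b (.b (.c .z (.l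
10)) (.l 10)) (.l 10)) (.b .z (.a (.l 10) .z)))) (.b .z (.a .z (.c .z (.a .z (.l 25)))))))) (.c (.a (.c (.a (.c (.b (.l 10) (.a (.l 10) (.c (.l 10)
.z))) (.b (.c (.a (.l 10) .z) .z) .z)) (.c (.b (.c (.a (.l 10) .z) .z) .z) (.b .z (.a .z (.l 25))))) .z) (.c (.a (.c (.b .z (.a .z (.l 25))) (.b .z
(.l 25))) (.b (.c (.b .z (.l 25)) (.l 25)) (.l 25))) .z)) (.b .z (.c .z (.b (.c (.a (.l 14) .z) .z) .z))))) (.b (.c (.c (.c (.l 29) (.a (.l 29) (.a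
(.c (.l 29) .z) .z))) (.a (.c (.c (.a (.l 29) .z) .z) (.a (.c .z (.b .z (.l 25))) (.c (.b .z (.l 25)) (.b .z (.l 25))))) (.c (.a (.c .z (.b .z (.l
25))) .z) (.a (.b .z (.a (.l 25) .z)) (.b (.a .z (.l 21)) .z))))) (.c (.c (.a (.a (.b (.b .z (.l 25)) (.l 25)) (.b .z (.a (.l 25) .z))) (.a .z (.b (.l
21) (.a .z (.l 21))))) (.c (.a .z (.a (.b (.l 21) .z) (.l 21))) (.a .z (.c (.a .z (.l 21)) .z)))) .z)) (.c (.c (.a (.c (.l 29) (.a (.l 29) (.c (.l 29)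
.z))) (.c (.a (.c (.l 29) .z) .z) (.a .z (.c .z (.b .z (.l 25)))))) (.a (.c (.a .z (.c .z (.b .z (.l 25)))) (.a (.c (.b .z (.l 25)) (.l 25)) (.l 25)))
(.c (.a (.c (.b .z (.l 25)) (.l 25)) (.a (.l 25) (.b .z (.l 25)))) (.a (.l 25) (.a (.b .z (.l 25)) .z))))) (.a (.c (.c (.l 25) (.b (.c (.l 25) .z) (.c
(.l 25) .z))) (.c .z (.b .z (.c .z (.a .z (.l 17)))))) (.b (.a .z (.c (.c .z (.a .z (.l 21))) .z)) (.a (.c (.c (.l 25) (.a (.l 25) .z)) .z) .z)))))))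

theorem vQ94 : ev3 Q94 J4_5 J4_7 J4_13 = 97162504006270086184496 := by decide +kernel

noncomputable def Q99 : QT3 :=
(.b (.c (.b (.c (.a (.a (.b .z (.a (.c .z (.l 56)) .z)) (.a .z (.b (.b (.l 35) .z) .z))) (.a (.b (.a (.b (.l 35) (.a .z (.l 35))) (.l 35)) (.c (.a .z
(.b (.l 35) .z)) .z)) (.b (.c (.a (.l 35) (.b (.l 35) .z)) (.a (.b (.l 35) .z) .z)) .z))) (.a .z (.a (.b (.c (.b (.a (.l 35) .z) .z) .z) .z) (.b (.c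
.z (.a .z (.c .z (.l 19)))) .z)))) .z) (.b (.c (.a (.b .z (.c .z (.c .z (.a (.a (.l 24) .z) (.a (.a .z (.l 17)) (.b .z (.l 17))))))) (.a (.b (.c (.b
(.a .z (.c .z (.l 19))) .z) (.c (.a (.b (.l 19) .z) (.l 19)) .z)) .z) (.c (.b (.a (.b (.l 19) (.c .z (.l 19))) (.l 19)) (.a .z (.b (.l 19) (.a .z (.l
19))))) (.b (.c (.l 19) (.a (.b (.l 19) .z) (.l 19))) (.c (.a (.b (.l 19) .z) (.l 19)) (.a .z (.b (.l 19) .z))))))) (.a (.a (.b (.b (.a (.b .z (.l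
24)) .z) (.a (.l 24) (.b (.a (.l 24) .z) (.l 24)))) (.l 24)) (.c (.a (.c .z (.a (.b .z (.l 24)) .z)) .z) (.a (.b (.b (.l 51) .z) (.b (.a (.l 24) .z)
(.l 24))) .z))) (.c (.a .z (.b (.c (.a .z (.b (.l 19) .z)) .z) .z)) .z))) (.c (.a (.c .z (.a (.c .z (.a (.l 24) (.c .z (.a (.l 24) .z)))) (.c .z (.a
(.a (.c (.l 17) .z) (.l 17)) (.l 17))))) (.c .z (.a (.b (.c .z (.a (.l 17) (.b .z (.l 17)))) (.c .z (.l 17))) (.b .z (.a (.c .z (.b .z (.l 17)))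
.z))))) (.a (.a (.l 24) (.c (.a (.c .z (.a (.l 24) .z)) (.a (.c (.l 17) .z) (.b (.b .z (.l 17)) (.l 17)))) (.a (.l 24) (.a (.c .z (.l 24)) .z)))) (.c
(.a (.b (.a (.b .z (.l 17)) .z) (.a (.l 17) (.b (.a (.l 17) .z) (.l 17)))) (.b .z (.a (.b .z (.a (.l 17) .z)) .z))) (.a (.a (.a (.c (.b .z (.l 17))
.z) (.b .z (.b .z (.l 17)))) (.b .z (.b .z (.a (.l 17) .z)))) .z)))))) (.c (.b (.c (.a .z (.a .z (.b .z (.b .z (.c (.b (.a .z (.l 25)) (.l 25)) (.b .z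
(.a .z (.l 25)))))))) .z) (.c (.a (.c (.b (.c (.b (.b .z (.l 25)) (.l 25)) (.b (.b .z (.l 25)) (.a .z (.c (.l 25) .z)))) .z) .z) (.c (.a (.b (.l 25)
(.c (.b (.l 25) .z) (.a .z (.b (.l 25) .z)))) (.l 25)) (.a (.b (.c (.a .z (.l 25)) .z) .z) (.b (.l 25) (.a (.c (.b (.l 25) .z) .z) (.c (.l 25) (.b (.l
25) .z))))))) (.a (.c .z (.a (.a (.b (.l 57) .z) .z) .z)) (.a .z (.c (.b (.a .z (.c (.l 25) .z)) .z) .z))))) (.c (.a (.c (.a (.c (.a (.b (.l 57) .z)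
.z) .z) .z) (.a (.c .z (.a (.c (.a (.l 24) (.a (.l 24) .z)) (.l 24)) (.a (.c .z (.a (.l 24) .z)) (.c (.a .z (.l 17)) .z)))) (.a (.c .z (.a (.c (.l 17)
(.a .z (.l 17))) (.l 17))) (.c .z (.l 17))))) (.b (.c .z (.a (.c .z (.l 17)) (.b (.a (.c .z (.l 17)) (.c .z (.b .z (.l 17)))) (.c .z (.l 17))))) (.c
(.a (.a .z (.a .z (.b .z (.l 32)))) .z) (.c .z (.l 17))))) (.a (.a (.c (.c (.a (.l 24) (.a (.l 24) (.c .z (.l 24)))) (.l 24)) (.l 24)) (.a (.c (.c (.a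
.z (.c (.l 17) (.a .z (.l 17)))) (.a (.c .z (.b (.l 24) .z)) .z)) (.c (.a (.l 24) (.b (.c .z (.l 24)) .z)) (.l 24))) (.c (.a (.c (.l 17) (.b (.a .z
(.l 17)) (.l 17))) (.l 17)) (.a (.c .z (.b (.a (.l 24) .z) .z)) (.c (.b (.a .z (.l 17)) (.l 17)) (.b .z (.a .z (.l 17)))))))) (.a (.a (.c (.l 17) (.a
(.c (.l 17) (.b (.a .z (.l 17)) (.l 17))) (.l 17))) (.l 17)) (.b (.b (.a (.b (.c (.l 17) (.a (.l 17) .z)) (.l 17)) (.b .z (.c (.a (.l 17) .z) .z)))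
(.a (.l 17) (.b (.a (.l 17) (.c (.l 17) .z)) (.l 17)))) (.l 17)))))))

theorem vQ99 : ev3 Q99 J3_0 J4_8 J4_10 = 123265058206342173879607 := by decide +kernel

noncomputable def Q114 : QT3 :=
(.b (.c (.a (.c (.c (.a (.c (.c (.b .z (.a (.l 16) .z)) .z) (.c (.b (.a (.l 20) .z) .z) (.a (.l 20) .z))) (.a .z (.b (.c (.l 41) .z) .z))) (.a (.c (.a
(.l 20) (.b (.l 20) (.c .z (.l 20)))) (.l 20)) (.a (.c .z (.b (.a (.l 20) .z) .z)) .z))) (.c (.a (.c (.b (.l 20) (.c (.l 20) (.a (.l 20) .z))) (.b (.c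
(.a (.l 20) .z) (.a (.l 20) .z)) (.c (.a (.l 20) .z) .z))) (.a (.c .z (.b .z (.a (.c .z (.l 10)) (.c .z (.l 10))))) (.c (.a (.b .z (.c .z (.l 10)))
(.b (.c .z (.l 10)) (.l 10))) (.a (.b (.c .z (.l 10)) (.l 10)) (.l 10))))) (.a .z (.a (.c (.b (.a (.c .z (.l 10)) (.l 10)) (.c (.l 10) .z)) .z) (.c
(.l 10) (.a (.c (.l 10) .z) (.l 10))))))) (.a (.c (.c (.a .z (.a (.c .z (.b .z (.a .z (.l 10)))) (.c (.b .z (.a .z (.l 10))) (.b (.a .z (.l 10)) (.l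
10))))) (.a (.c (.a .z (.b .z (.c .z (.l 10)))) (.a (.b .z (.c .z (.l 10))) (.l 10))) (.a (.c (.b (.c .z (.l 10)) (.l 10)) (.l 10)) (.l 10)))) (.l
10)) (.c (.a (.c (.a (.c (.b (.a .z (.l 10)) (.l 10)) (.l 10)) (.l 10)) (.l 10)) (.l 10)) (.b (.l 10) (.a (.l 10) (.b (.l 10) (.c (.l 10) (.a (.l 10)
.z)))))))) (.a (.c (.c (.a .z (.a .z (.c (.a .z (.c (.b (.l 10) .z) .z)) .z))) .z) (.c (.a .z (.a .z (.c .z (.b (.a .z (.l 14)) .z)))) (.a (.c .z (.c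
(.a (.l 32) .z) (.a (.l 32) .z))) (.a .z (.c (.b (.l 14) (.a .z (.l 14))) (.a (.c (.l 14) .z) (.l 14))))))) (.a (.b (.c (.a (.c (.c (.l 10) (.a .z (.l
10))) .z) (.c (.l 10) (.a (.c (.l 10) .z) (.l 10)))) (.a (.l 14) (.c (.a (.c .z (.l 14)) (.c (.a .z (.l 10)) .z)) (.a (.l 14) (.c .z (.l 14)))))) (.c
(.a (.c (.c (.a (.c (.l 10) .z) (.l 10)) (.a .z (.a .z (.l 10)))) .z) (.c (.l 10) (.a (.c (.a .z (.l 10)) .z) (.l 10)))) (.b (.a (.c (.a .z (.l 14))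
(.l 14)) (.c .z (.a (.l 14) .z))) (.a (.c (.a .z (.l 14)) (.b (.l 14) .z)) .z)))) (.b (.c (.a (.l 10) (.b (.l 10) (.c (.l 10) (.a (.l 10) (.b (.l 10)
.z))))) (.a (.b (.c (.a (.c (.l 10) .z) (.l 10)) (.a .z (.c (.l 10) .z))) (.c (.a (.c (.l 10) .z) (.l 10)) .z)) (.b (.c (.a (.l 10) (.b (.l 10) .z))
(.a (.b (.l 10) .z) .z)) (.c (.a (.b (.l 10) .z) .z) .z)))) (.c (.a (.b (.l 10) (.c (.a (.l 10) (.b (.l 10) .z)) (.a (.b (.l 10) .z) .z))) (.b (.c (.a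
(.l 10) .z) .z) (.c .z (.a .z (.b .z (.l 11)))))) (.a (.b .z (.c .z (.a (.b .z (.l 11)) (.l 11)))) (.b (.c (.a .z (.b .z (.l 11))) (.a (.b .z (.l 11))
(.l 11))) (.c (.a (.b .z (.l 11)) (.l 11)) (.l 11))))))))) (.c (.a (.c (.c (.a (.c (.c (.b (.a (.l 16) .z) (.l 16)) (.b .z (.a (.l 16) .z))) .z) (.a
.z (.c (.a .z (.b .z (.l 18))) .z))) (.a (.c (.b (.a (.l 20) .z) (.c .z (.a (.l 20) .z))) (.b (.l 20) (.c (.a (.l 20) .z) (.a (.l 20) .z)))) (.a .z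
(.c .z (.a (.b .z (.c .z (.l 10))) (.b (.c .z (.l 10)) (.l 10))))))) (.c (.a (.c (.b (.c (.a (.l 20) .z) .z) .z) .z) (.a (.c (.b (.a .z (.c .z (.l
10))) (.a (.c .z (.l 10)) (.l 10))) (.b (.c (.l 10) (.a .z (.l 10))) (.a .z (.c (.l 10) .z)))) (.l 10))) (.a .z (.a .z (.c (.a (.b (.l 10) .z) (.l
10)) (.a .z (.c (.b (.l 10) .z) .z))))))) (.a (.c (.a (.c (.c .z (.a .z (.b .z (.l 10)))) (.c (.a (.b (.c .z (.l 10)) (.l 10)) (.l 10)) (.l 10))) (.c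
(.a (.c (.b .z (.l 10)) (.l 10)) (.l 10)) (.l 10))) (.b (.l 10) (.b (.c (.l 10) (.a (.l 10) (.a (.b (.l 10) .z) .z))) (.c (.a (.l 10) (.a (.c (.l 10)
.z) .z)) (.a (.b (.c (.l 10) .z) .z) .z))))) (.c (.b (.a (.l 10) (.c (.l 10) (.b (.l 10) (.a (.l 10) .z)))) (.a (.c (.b (.l 10) (.a (.l 10) (.c (.l
10) .z))) (.b (.a (.l 10) (.c (.l 10) .z)) (.a (.c (.l 10) .z) .z))) (.c (.b (.a (.l 10) .z) .z) (.b .z (.a .z (.c .z (.l 8))))))) (.b (.a (.b (.c (.l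
10) (.a (.l 10) (.b (.l 10) .z))) (.c (.a (.l 10) (.c (.l 10) .z)) (.a (.b (.l 10) .z) .z))) (.b (.c (.a (.l 10) .z) .z) .z)) .z)))) (.a (.b (.c (.c
.z (.c (.a (.l 80) .z) .z)) (.b (.c .z (.a (.c .z (.l 32)) .z)) .z)) (.c (.b (.c .z (.a (.l 80) .z)) .z) (.b (.c .z (.a (.b .z (.c .z (.a .z (.l
11)))) (.a (.b .z (.c .z (.l 11))) (.b (.c .z (.l 11)) (.l 11))))) (.c (.a (.b .z (.c .z (.l 11))) (.a (.b .z (.c .z (.l 11))) (.c (.c .z (.l 11)) (.l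
11)))) (.l 11))))) (.a (.b (.c (.b (.a (.c (.c (.a .z (.l 10)) .z) .z) (.c (.l 10) .z)) (.a (.c (.c (.a .z (.l 10)) .z) .z) (.c (.a (.b (.l 10) .z)
.z) .z))) (.b (.a .z (.c .z (.a .z (.b .z (.l 11))))) (.a (.c .z (.b .z (.l 11))) (.c (.a (.b .z (.l 11)) (.l 11)) (.l 11))))) (.c (.b (.a .z (.c .z
(.a .z (.c .z (.l 11))))) (.a .z (.c .z (.c .z (.c .z (.l 11)))))) (.b (.a (.c (.b (.a .z (.l 11)) (.l 11)) (.l 11)) (.l 11)) (.l 11)))) (.b (.c (.a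
(.b (.c (.a (.b (.l 10) .z) .z) .z) (.c .z (.a .z (.l 11)))) (.b (.c .z (.l 11)) (.c (.c .z (.c .z (.l 11))) (.l 11)))) (.a (.b (.c (.a (.b .z (.l
11)) (.l 11)) (.l 11)) (.l 11)) (.l 11))) (.c (.a (.b (.c .z (.c (.c .z (.l 11)) (.l 11))) (.c .z (.c (.c .z (.l 11)) (.l 11)))) (.c (.c .z (.c .z (.a
.z (.l 11)))) (.l 11))) (.l 11)))))))

theorem vQ114 : ev3 Q114 J3_0 J5_16 J4_13 = 105736115540990930485695 := by decide +kernel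

noncomputable def Q167 : QT3 :=
(.b (.c (.c (.a (.c (.a (.c .z (.a (.b (.l 23) (.c .z (.l 23))) (.b (.c .z (.l 23)) .z))) .z) (.a (.b (.l 23) (.c (.a (.l 23) (.b (.l 23) .z)) (.l
23))) (.b (.c (.a (.c .z (.l 23)) .z) (.a (.l 23) (.b (.l 23) .z))) (.c .z (.a (.b (.l 23) .z) .z))))) .z) (.a (.b (.l 23) (.c (.a (.l 23) (.b (.l 23)
(.a (.l 23) .z))) (.l 23))) (.b (.c (.a (.c (.b (.a (.l 23) .z) .z) (.b (.l 23) (.a (.l 23) .z))) .z) (.a (.l 23) (.b (.c (.a (.l 23) .z) (.l 23)) (.c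
.z (.a (.l 23) .z))))) (.a (.c .z (.b (.a (.l 23) (.c .z (.l 23))) (.a (.c .z (.l 23)) .z))) .z)))) (.b (.c (.c (.l 23) (.b (.l 23) (.a (.l 23) (.c
(.l 23) (.a (.l 23) (.b (.l 23) .z)))))) (.c (.b (.a (.l 23) (.c (.l 23) (.a (.b (.l 23) .z) .z))) (.a (.c (.l 23) (.b (.a (.l 23) .z) .z)) (.c (.a
(.b (.l 23) .z) .z) .z))) (.b (.a (.c (.b (.a (.l 23) .z) .z) (.b .z (.a .z (.c .z (.l 10))))) (.c .z (.a .z (.l 19)))) (.a (.c .z (.b (.a (.c .z (.l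
10)) (.a (.l 10) .z)) (.a (.l 10) (.a (.l 10) .z)))) (.c (.a .z (.l 19)) (.a (.a .z (.l 19)) (.l 19))))))) (.a (.c (.c (.l 23) (.b (.c (.l 23) (.b (.l
23) (.a (.l 23) .z))) (.c (.b (.l 23) .z) .z))) (.b (.a (.c .z (.b (.c (.c .z (.l 10)) (.l 10)) (.a (.c (.l 10) .z) (.l 10)))) (.c .z (.a (.l 10) (.c
.z (.l 10))))) (.a (.c (.b (.c .z (.l 10)) (.a .z (.c .z (.l 10)))) (.b (.a .z (.c (.l 10) .z)) .z)) (.c (.c .z (.a (.a (.l 10) .z) .z)) (.a (.b (.l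
10) (.c (.l 10) .z)) (.c .z (.l 10))))))) (.c (.c (.b (.a (.l 23) (.a (.l 23) .z)) (.c (.b (.a (.l 23) .z) .z) (.b (.a (.l 23) .z) .z))) (.b (.c (.b
(.l 23) (.a (.l 23) .z)) .z) .z)) (.c (.b (.c (.b .z (.a .z (.l 19))) (.b (.a .z (.l 19)) (.l 19))) (.a (.l 19) (.b (.l 19) (.a (.l 19) .z)))) (.a (.a
(.c (.a .z (.l 19)) .z) (.c (.l 19) (.a .z (.l 19)))) (.l 19))))))) (.c (.a (.b (.c (.a (.c .z (.a (.b (.l 23) (.c .z (.l 23))) .z)) .z) (.c (.a (.b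
(.l 23) (.a (.l 23) (.b (.l 23) .z))) .z) (.b (.a (.l 23) (.a (.l 23) (.b (.l 23) .z))) (.c (.a (.l 23) .z) (.b (.a (.l 23) .z) .z))))) (.c .z (.a (.b
(.c (.a (.b (.l 23) .z) .z) .z) .z) .z))) (.c .z (.b .z (.c .z (.b .z (.a (.l 53) .z)))))) (.a (.b (.c (.b (.a (.c (.c (.l 23) (.b (.l 23) .z)) .z)
(.c (.c (.b (.l 23) .z) .z) (.c .z (.a .z (.l 19))))) .z) (.a (.b (.c (.b (.a .z (.c (.l 10) .z)) .z) (.a (.b .z (.l 19)) .z)) (.c .z (.a (.a (.l 19)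
.z) .z))) (.b (.c (.a (.b (.c .z (.l 10)) .z) .z) .z) .z))) (.c .z (.a .z (.b .z (.c .z (.a .z (.c .z (.l 21)))))))) (.b (.c (.c .z (.b (.c .z (.a (.a
(.l 19) .z) .z)) .z)) (.a (.b (.c (.a (.c (.l 19) .z) (.l 19)) (.a .z (.c (.l 19) .z))) .z) (.b (.b (.a (.c .z (.l 19)) .z) .z) .z))) (.c .z (.a (.b
.z (.c .z (.a (.l 21) (.b .z (.l 21))))) (.b (.c (.a (.l 45) .z) .z) .z)))))))

theorem vQ167 : ev3 Q167 J4_4 J4_11 J4_12 = 74859165818090570473762 := by decide +kernel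

noncomputable def Q174 : QT3 :=
(.c (.b (.c (.a (.c (.c .z (.a (.b (.c .z (.b .z (.l 15))) (.c (.a (.l 15) .z) (.a (.l 15) (.b (.l 15) .z)))) (.b (.c .z (.a (.b .z (.l 15)) (.b (.l
15) .z))) .z))) (.a (.c (.l 15) (.b (.c (.b (.c (.l 15) .z) (.l 15)) .z) (.c (.b (.l 15) (.a .z (.l 15))) (.a .z (.b (.l 15) .z))))) (.b (.c (.l 15)
(.c (.c (.l 15) .z) .z)) (.c (.a (.b (.l 15) (.c .z (.l 15))) (.b (.c .z (.l 15)) .z)) (.c (.l 15) (.b .z (.c (.l 15) .z))))))) (.c (.a .z (.b (.c (.b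
(.a .z (.l 27)) .z) .z) .z)) (.a (.b (.c (.a (.b (.l 15) (.c .z (.l 15))) (.b (.c .z (.l 15)) .z)) .z) .z) (.b .z (.c (.a .z (.c .z (.c .z (.l 20))))
(.a .z (.b .z (.c (.l 20) .z)))))))) (.b (.a (.c .z (.a (.c (.a (.c (.b (.l 25) .z) .z) (.c (.l 25) .z)) .z) .z)) (.c .z (.a (.c (.b .z (.a .z (.c (.l
23) .z))) (.b .z (.c (.a (.l 26) .z) .z))) (.c (.c (.b (.c .z (.l 23)) (.l 23)) .z) .z)))) (.c (.a (.a (.c (.c .z (.a (.l 21) .z)) (.c .z (.b (.c .z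
(.l 25)) (.a .z (.l 25))))) (.c .z (.a (.c .z (.c .z (.l 25))) .z))) (.a (.c .z (.a .z (.c (.b .z (.l 23)) (.b (.l 23) .z)))) (.c .z (.a (.b (.c .z
(.l 23)) (.c .z (.l 23))) (.b (.c .z (.l 23)) .z))))) (.b (.c (.a .z (.a .z (.c (.l 23) (.a .z (.l 23))))) (.a .z (.a (.c (.a .z (.l 26)) .z) (.a (.c
.z (.l 26)) .z)))) .z)))) (.c (.b (.c (.a (.a (.c (.c (.b .z (.a (.l 12) .z)) .z) (.a (.c .z (.b (.l 15) .z)) .z)) .z) .z) (.b (.a (.a (.c (.a (.l 15)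
(.c .z (.l 15))) .z) (.c .z (.a (.c (.l 15) .z) (.c .z (.l 15))))) (.a (.c (.a .z (.c .z (.l 20))) .z) (.c (.c .z (.l 20)) (.l 20)))) (.a (.c (.a (.a
(.c (.l 15) .z) .z) .z) .z) (.a (.c (.c .z (.l 20)) (.a .z (.l 20))) (.c (.c (.c .z (.l 20)) (.l 20)) (.l 20)))))) (.c (.a (.b (.a (.c (.c (.l 12) (.a
(.l 12) (.b .z (.l 12)))) .z) (.c (.a (.c (.b .z (.l 12)) .z) .z) .z)) (.c (.a (.l 12) (.a (.c (.l 12) (.a (.l 12) .z)) (.c (.a (.l 12) .z) .z))) (.a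
(.b (.a (.c (.l 12) .z) .z) (.c (.a .z (.l 12)) .z)) .z))) (.a .z (.c .z (.c .z (.c .z (.b .z (.l 20))))))) (.a (.b (.c (.a .z (.a .z (.c .z (.l
20)))) .z) (.c .z (.a (.b (.c .z (.l 17)) (.l 17)) (.b .z (.c .z (.l 17)))))) (.c (.b (.c (.a (.c .z (.l 20)) (.l 20)) (.l 20)) (.a (.c (.c .z (.l
20)) (.b (.l 20) .z)) (.l 20))) (.b (.a (.c (.l 20) (.b (.l 20) .z)) (.l 20)) (.a .z (.c (.l 20) (.a .z (.l 20))))))))) (.b (.c (.a (.b (.c (.b (.a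
(.c .z (.l 21)) .z) (.c (.a (.l 21) .z) .z)) .z) (.c .z (.a (.b (.c .z (.l 21)) (.c .z (.l 21))) (.b .z (.c .z (.l 21)))))) (.b .z (.c (.a .z (.a (.l
20) (.c (.l 20) .z))) .z))) (.a (.b (.c (.b .z (.a (.c (.l 21) .z) .z)) .z) (.c (.c (.a (.c (.l 21) .z) (.c (.l 21) .z)) .z) (.c .z (.c .z (.l 29)))))
.z)) (.a (.c (.b (.c .z (.c (.c (.a .z (.l 21)) (.l 21)) (.l 21))) (.c (.c (.c (.l 17) (.a (.l 17) .z)) .z) (.c (.l 21) (.c (.l 21) (.a (.l 21)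
.z))))) (.c (.c (.a (.c (.b (.l 21) .z) .z) .z) .z) (.c .z (.c (.a .z (.l 29)) .z)))) (.c (.b (.c (.a .z (.c (.l 20) (.b (.l 20) .z))) .z) (.a (.c .z
(.c (.l 21) (.c (.l 21) .z))) .z)) (.a (.c (.c .z (.c (.a .z (.l 25)) (.b (.l 25) .z))) .z) (.b .z (.c (.c (.c .z (.l 25)) .z) .z)))))))) .z)

theorem vQ174 : ev3 Q174 J4_6 J4_8 J3_7 = 45292234641253536467109 := by decide +kernel

noncomputable def Q133 : QT3 :=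
(.b (.c (.a (.b (.c .z (.c .z (.a (.b .z (.a (.l 52) .z)) .z))) .z) (.b (.c (.a (.c (.b .z (.a (.c .z (.a .z (.l 16))) .z)) (.b (.a (.c (.b .z (.l
16)) (.a .z (.l 16))) .z) (.a (.a .z (.a .z (.l 16))) (.c .z (.a (.l 16) .z))))) .z) (.a (.b (.c (.a (.a (.b (.l 16) .z) (.l 16)) (.c .z (.a (.l 16)
.z))) (.a (.c (.a .z (.l 16)) .z) .z)) .z) .z)) (.c (.a (.c (.b (.a .z (.c .z (.a (.l 16) .z))) .z) (.a .z (.b (.c (.a (.l 16) .z) .z) .z))) .z) .z)))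
(.b (.a (.c .z (.c (.a (.b .z (.c .z (.a (.l 40) .z))) .z) (.a (.b (.c (.a (.l 40) .z) (.a (.l 40) .z)) (.a (.l 40) .z)) .z))) (.c (.a .z (.a .z (.c
.z (.a .z (.c .z (.b .z (.a .z (.l 10)))))))) (.a .z (.b (.a (.c .z (.a .z (.c (.a .z (.l 10)) (.l 10)))) (.c (.a (.c .z (.a .z (.l 10))) (.l 10)) (.l
10))) (.a (.c .z (.a (.c .z (.a .z (.l 10))) (.c (.a .z (.l 10)) (.l 10)))) (.c (.a (.c (.a .z (.l 10)) (.l 10)) (.l 10)) (.b (.l 10) (.a (.l 10) (.c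
(.l 10) .z))))))))) (.a (.c .z (.a (.b (.c .z (.a (.b (.l 40) .z) .z)) .z) .z)) (.c (.a .z (.b (.a .z (.c .z (.a .z (.c .z (.l 10))))) (.a .z (.c .z
(.b (.a .z (.c (.l 10) .z)) .z))))) (.a .z (.b (.a (.c .z (.b (.a .z (.l 10)) (.a .z (.c (.l 10) .z)))) (.c (.b (.a (.c .z (.l 10)) (.l 10)) (.a (.c
.z (.l 10)) .z)) (.b (.a (.c (.l 10) .z) .z) .z))) .z)))))) (.c (.a (.c (.b .z (.c .z (.a .z (.b .z (.a .z (.a .z (.l 44))))))) (.b .z (.c (.a .z (.a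
.z (.b .z (.a .z (.l 44))))) .z))) (.b (.c .z (.a (.a (.c (.b .z (.a .z (.l 44))) .z) (.c (.c (.b .z (.l 44)) (.l 44)) (.a (.b .z (.l 44)) (.l 44))))
.z)) (.c (.a (.a (.c .z (.b (.c .z (.l 44)) (.l 44))) (.c .z (.b .z (.c .z (.l 44))))) .z) (.a (.b (.c (.l 44) (.a (.l 44) (.b (.l 44) .z))) (.c (.a
(.l 44) (.b (.l 44) .z)) .z)) .z)))) (.a .z (.b (.c (.a (.b (.a .z (.a .z (.b .z (.l 44)))) (.c (.a .z (.b (.l 44) .z)) .z)) .z) (.a .z (.b .z (.a .z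
(.c .z (.c .z (.l 42))))))) (.c .z (.a (.b (.c (.a .z (.c .z (.l 52))) .z) .z) (.c .z (.b (.a .z (.a .z (.l 42))) .z))))))))

theorem vQ133 : ev3 Q133 J3_0 J4_11 J4_12 = 25508426604753887264920 := by decide +kernel

noncomputable def Q12 : QT3 :=
(.c (.a (.b .z (.c (.c .z (.c (.b .z (.c (.b (.a (.c .z (.b .z (.l 98))) (.c .z (.b .z (.l 98)))) .z) .z)) .z)) .z)) (.b .z (.c .z (.a (.b .z (.c (.c
(.b (.c .z (.a (.b (.a .z (.l 50)) .z) .z)) .z) .z) .z)) .z)))) (.a (.b .z (.c (.b .z (.c (.b .z (.c .z (.c (.a (.a (.b .z (.l 32)) .z) .z) (.c (.a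
(.a (.l 32) .z) .z) (.a (.c (.a (.l 32) .z) .z) .z))))) (.c (.c (.c (.a (.c (.b .z (.b .z (.l 46))) .z) .z) (.a (.c .z (.a (.b .z (.l 40)) .z)) .z))
(.c (.a (.c (.a (.b .z (.l 40)) .z) (.a (.l 40) .z)) .z) .z)) (.c (.a (.c (.c (.b (.a (.l 48) .z) .z) (.b (.a (.l 48) .z) (.a (.l 48) .z))) .z) .z)
.z)))) .z)) (.b .z (.c (.a (.b .z (.c (.b .z (.c (.c .z (.c .z (.a (.c (.b .z (.l 16)) .z) (.c .z (.b .z (.l 16)))))) .z)) .z)) (.b .z (.c (.a (.b .z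
(.c (.c .z (.c .z (.c .z (.l 16)))) (.c (.c (.c (.l 16) (.b .z (.l 16))) .z) .z))) (.b .z (.c .z (.a (.b .z (.c (.c (.l 16) .z) .z)) .z)))) .z)))
.z))))

theorem vQ12 : ev3 Q12 J3_0 J3_0 J2_3 = 10491577671134163577093 := by decide +kernel

end Pool.Agent.Helper64.SPW.Dat3
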