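import Pool.Agent.Helper64.SPW.Iv3

/-! Boxes of three traces, part 11 (data and kernel evaluation). -/

set_option maxRecDepth 1000000
set_option maxHeartbeats 0

namespace Pool.Agent.Helper64.SPW.Dat3

noncomputable def Q121 : QT3 :=
(.b (.c (.c (.l 8) (.b (.a (.c (.c (.b (.a (.c (.l 8) (.b .z (.l 8))) (.l 8)) (.l 8)) (.b (.a .z (.c (.a .z (.b .z (.l 8))) .z)) (.a (.c (.l 8) (.b .z
(.l 8))) (.c (.l 8) (.b (.a .z (.l 8)) (.l 8)))))) (.c (.b .z (.a .z (.c (.b .z (.a .z (.l 8))) .z))) (.b (.a (.a (.l 44) .z) (.a .z (.l 22))) .z)))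
(.c (.a (.c (.l 8) (.b (.a (.c (.l 8) (.b .z (.l 8))) (.l 8)) (.l 8))) (.l 8)) (.a (.c (.b (.a .z (.c (.l 8) (.b .z (.l 8)))) (.a (.c (.l 8) (.b .z
(.l 8))) (.l 8))) (.b .z (.a .z (.b (.c (.l 8) .z) (.l 8))))) (.a (.b (.c (.l 8) (.b .z (.a .z (.l 8)))) (.l 8)) (.l 8))))) (.a (.c (.l 8) (.b (.c (.a
(.c (.l 8) (.b .z (.l 8))) (.c (.l 8) (.b (.a .z (.l 8)) (.l 8)))) (.a .z (.b .z (.a .z (.c (.l 8) .z))))) (.b (.c (.l 8) (.a (.c (.l 8) .z) (.a (.c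
(.l 8) .z) (.l 8)))) (.c (.l 8) (.a (.b (.l 8) (.c (.l 8) .z)) (.l 8)))))) (.c (.l 8) (.a (.b (.c (.l 8) (.a (.b (.c (.l 8) .z) (.l 8)) (.l 8))) (.l
8)) (.l 8)))))) (.b (.c (.a (.b (.c (.c (.a (.a (.l 44) .z) .z) (.a .z (.a .z (.c .z (.a .z (.l 12)))))) (.c (.a (.c .z (.b (.a .z (.l 12)) (.l 12)))
(.a (.c (.b .z (.l 12)) (.l 12)) (.l 12))) (.l 12))) (.c (.c .z (.a .z (.a (.c .z (.b .z (.l 12))) (.l 12)))) (.b (.c (.a (.c (.a .z (.l 12)) (.l 12))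
(.l 12)) (.l 12)) (.c (.l 12) (.a (.b (.l 12) (.c (.l 12) .z)) (.l 12)))))) (.a (.c (.b (.c (.a (.a .z (.c .z (.l 12))) (.b (.l 12) (.c .z (.l 12))))
(.l 12)) (.c (.a (.b (.c .z (.l 12)) .z) .z) (.a (.l 12) (.b (.l 12) .z)))) (.c (.l 12) (.a (.l 12) (.a (.l 12) (.c (.l 12) (.b .z (.l 12))))))) (.c
(.a (.b (.c .z (.b (.l 12) (.a (.l 12) .z))) (.c (.b .z (.a .z (.l 8))) .z)) (.c (.b (.a .z (.b .z (.l 8))) (.l 8)) (.a (.b .z (.b .z (.l 8))) .z)))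
(.a (.c (.a (.b (.l 12) (.b (.l 12) .z)) (.c (.b (.l 12) .z) .z)) (.a (.c (.b .z (.l 12)) .z) .z)) (.c (.a .z (.c .z (.a .z (.l 11)))) (.a (.c .z (.l
11)) (.l 11))))))) (.a (.b (.c (.c (.l 12) (.a (.l 12) (.a (.l 12) (.c (.l 12) (.a (.l 12) .z))))) (.b (.c (.a (.c (.l 12) (.a (.l 12) .z)) .z) .z)
(.c (.a (.b (.c (.l 12) .z) .z) .z) .z))) (.c (.b (.c (.a (.b (.l 12) (.c (.l 12) .z)) (.l 12)) (.a (.b (.c (.l 12) .z) .z) (.a .z (.l 12)))) (.c (.a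
.z (.a .z (.b (.l 12) .z))) .z)) (.b (.a (.c .z (.l 28)) .z) (.a (.l 28) .z)))) (.a (.b (.c (.c (.a (.c (.l 12) (.a (.l 12) .z)) .z) (.a .z (.a (.c .z
(.l 11)) (.l 11)))) (.c (.a (.c (.a .z (.l 11)) (.b (.l 11) .z)) (.c (.l 11) (.b (.l 11) .z))) .z)) (.c (.a (.b (.c (.l 12) .z) (.c (.l 12) .z)) (.c
(.a (.c (.l 12) .z) .z) (.a .z (.c .z (.l 11))))) (.a .z (.b (.c (.c (.l 11) .z) .z) .z)))) (.c (.a (.c (.a (.c .z (.b (.l 11) .z)) (.c (.b (.l 11)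
.z) (.l 11))) (.l 11)) (.c (.l 11) (.b (.l 11) (.c (.l 11) (.b (.l 11) .z))))) (.c (.b (.c (.l 11) .z) .z) .z))))) (.a (.c (.b (.c (.b (.c (.a .z (.a
.z (.c .z (.l 12)))) (.a (.c .z (.l 12)) (.l 12))) (.c .z (.a (.b (.c .z (.l 12)) (.c (.l 12) .z)) (.l 12)))) (.b (.c (.a (.b (.l 12) (.c (.l 12) .z))
(.l 12)) (.a .z (.a .z (.b (.l 12) .z)))) (.c (.a .z (.a .z (.b (.l 12) .z))) .z))) (.c .z (.b (.c (.a (.b .z (.l 24)) .z) (.a (.c (.l 24) .z) .z))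
(.a (.c (.l 24) (.c (.l 24) .z)) .z)))) (.b (.c .z (.a (.l 28) (.a (.l 28) .z))) (.c (.a (.c .z (.c .z (.l 28))) .z) (.a (.l 28) (.a (.l 28) .z)))))
(.c (.a (.b (.c (.c (.a .z (.b (.c (.l 8) .z) (.l 8))) (.a (.b (.c .z (.l 12)) .z) .z)) (.a (.b (.l 12) (.c (.l 12) (.a .z (.l 12)))) (.c (.b (.a (.l
12) .z) .z) (.l 12)))) (.c (.a (.b (.c (.c (.l 8) .z) .z) (.c (.l 8) (.a .z (.l 8)))) (.c (.l 8) (.b (.a .z (.l 8)) (.l 8)))) (.a .z (.b .z (.c (.a .z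
(.l 8)) .z))))) (.c (.a (.b (.c (.l 8) (.b (.a .z (.l 8)) (.l 8))) (.l 8)) (.c (.l 8) (.a (.l 8) (.c (.l 8) (.a (.l 8) .z))))) (.a (.c (.b .z (.b (.a
.z (.l 8)) (.l 8))) (.a (.b (.b (.l 12) .z) .z) (.c (.b .z (.l 8)) .z))) (.c (.a (.c (.l 8) .z) .z) (.a .z (.c .z (.a .z (.l 11)))))))) (.a (.b (.c
(.a (.b (.c (.a .z (.l 12)) .z) .z) (.b (.c (.a (.l 12) .z) .z) (.c (.a .z (.l 12)) .z))) .z) (.c .z (.a (.c (.l 42) .z) .z))) (.b (.c (.a (.c .z (.a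
.z (.c (.l 11) .z))) (.c (.l 11) (.c (.b (.l 11) .z) .z))) .z) (.c (.a .z (.b (.c (.a .z (.l 11)) .z) .z)) .z))))))) (.c (.b (.c (.a (.c (.l 8) (.b
(.l 8) (.c (.l 8) (.b (.l 8) (.a (.b (.l 8) (.c (.l 8) .z)) (.l 8)))))) (.l 8)) (.a (.b (.c (.b (.l 8) (.c (.l 8) (.a (.b (.l 8) (.c (.l 8) .z)) (.l
8)))) (.b (.c (.a (.b (.l 8) (.c (.l 8) .z)) (.l 8)) (.a .z (.a .z (.b (.l 8) .z)))) (.c (.a .z (.a .z (.b (.l 8) .z))) .z))) (.c (.b (.c (.a (.b (.l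
8) (.c (.l 8) .z)) (.l 8)) (.a .z (.a .z (.b (.l 8) .z)))) (.c (.a .z (.a .z (.b (.l 8) .z))) (.a (.b .z (.l 20)) .z))) (.b (.c .z (.a (.c .z (.l 10))
(.a (.l 10) (.b .z (.l 10))))) (.c (.a .z (.a .z (.b .z (.l 10)))) (.a (.c (.a .z (.l 10)) (.l 10)) (.l 10)))))) (.a (.b (.c (.l 8) (.a (.b (.l 8) (.c
(.l 8) (.a .z (.l 8)))) (.l 8))) (.c (.a (.b (.l 8) (.c (.l 8) .z)) (.l 8)) (.a (.b .z (.c .z (.a (.l 10) .z))) (.b (.c (.l 8) (.a .z (.l 8))) (.c (.a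
.z (.l 8)) .z))))) (.c (.l 8) (.b (.l 8) (.a (.b (.l 8) (.c (.l 8) (.a .z (.l 8)))) (.l 8))))))) (.c (.a (.b (.c (.c (.l 8) (.b (.l 8) (.a (.c (.l 8)
(.b (.l 8) .z)) (.l 8)))) (.b (.c (.a (.c (.l 8) (.b (.l 8) .z)) (.l 8)) (.a .z (.a .z (.b (.l 8) .z)))) (.c (.a .z (.a .z (.c (.l 8) .z))) (.a (.b .z
(.l 20)) .z)))) (.c (.c (.b (.a (.c (.l 8) (.b (.l 8) .z)) (.l 8)) (.a .z (.a .z (.c (.l 8) .z)))) (.b (.a .z (.a .z (.c (.l 8) .z))) (.a (.b .z (.l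
20)) .z))) (.b (.c (.a (.b .z (.l 20)) .z) (.a (.l 20) (.a (.l 20) .z))) (.c (.a (.l 20) (.a (.l 20) .z)) (.a (.l 20) .z))))) (.a (.c (.b (.l 8) (.a
(.c (.l 8) (.b (.l 8) .z)) (.l 8))) (.b (.a (.c (.l 8) (.b (.l 8) .z)) (.l 8)) (.a .z (.c (.b (.l 8) (.a .z (.l 8))) (.b (.a .z (.l 8)) .z))))) (.c
(.l 8) (.b (.l 8) (.a (.c (.l 8) (.b (.l 8) (.a .z (.l 8)))) (.l 8)))))) (.a (.b (.c (.b (.c (.a (.b .z (.l 20)) .z) (.a (.c (.l 20) .z) .z)) (.c (.a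
(.l 20) .z) (.a .z (.a .z (.c .z (.l 10)))))) (.a (.c (.c .z (.b .z (.l 10))) (.c (.l 10) (.a .z (.l 10)))) (.c (.a (.c (.b .z (.l 10)) (.l 10)) (.l
10)) (.l 10)))) (.c (.a (.c (.c (.l 20) .z) (.c .z (.b .z (.a .z (.l 10))))) (.c (.a .z (.c .z (.a .z (.l 10)))) (.a (.c (.b .z (.l 10)) (.l 10)) (.l
10)))) (.c (.l 10) (.a (.c (.l 10) (.a .z (.a .z (.l 10)))) (.l 10))))) (.a (.b (.c (.a (.b .z (.c .z (.a (.l 10) .z))) (.b (.c (.l 8) (.a .z (.l 8)))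
(.c (.a .z (.l 8)) .z))) (.a (.b (.c (.a (.l 10) .z) (.l 10)) (.l 10)) (.b .z (.c .z (.l 10))))) (.c (.a (.b (.c (.a (.l 10) .z) (.l 10)) (.l 10)) (.b
.z (.c .z (.l 10)))) (.l 10))) (.b (.c (.a (.c (.l 8) (.b (.l 8) (.a .z (.l 8)))) (.l 8)) (.a (.b (.c (.a .z (.l 8)) .z) .z) (.b (.l 8) (.a (.c (.l 8)
.z) (.l 8))))) (.c (.a (.b (.c (.a .z (.l 8)) .z) .z) (.c (.l 8) (.a (.b (.l 8) .z) (.l 8)))) (.a (.b (.c .z (.a (.l 10) .z)) (.c (.a (.l 10) .z) (.l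
10))) (.a .z (.b (.c (.l 8) .z) .z))))))))) (.a (.b (.c (.b (.c (.b (.c .z (.a (.a (.l 24) .z) .z)) (.a (.c .z (.a (.l 24) .z)) (.c (.a (.c (.l 10)
.z) .z) .z))) (.c (.a (.l 24) .z) (.a (.c (.l 24) (.a (.l 24) .z)) .z))) (.c (.c (.a (.c .z (.a (.l 24) .z)) (.a (.c (.l 10) .z) (.l 10))) (.a (.l 24)
(.a .z (.c (.a .z (.l 10)) .z)))) (.a (.c (.l 24) (.c (.l 24) .z)) .z))) (.c (.a (.c (.c .z (.a (.l 28) .z)) (.l 28)) .z) (.a (.l 28) (.a (.l 28) (.c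
.z (.a (.l 28) .z)))))) (.c (.c (.c (.a (.c .z (.a (.l 24) (.a (.l 24) .z))) (.a (.c (.a .z (.l 10)) .z) (.c (.l 10) (.a (.a .z (.l 10)) (.l 10)))))
(.a (.l 24) (.a (.c .z (.a (.l 24) .z)) (.c (.a .z (.a .z (.l 10))) .z)))) (.a (.c (.l 24) (.c (.a (.l 24) (.a (.l 24) .z)) .z)) (.c (.a (.c (.a (.l
24) .z) .z) .z) (.a .z (.l 40))))) (.c (.a (.c (.c .z (.a (.l 28) .z)) (.l 28)) .z) (.a (.l 28) (.a (.l 28) .z))))) (.b (.c (.a (.b (.c (.a (.b (.c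
(.a .z (.l 8)) .z) .z) (.b (.c (.l 8) (.a .z (.l 8))) (.c (.a .z (.l 8)) .z))) .z) (.c (.a (.b (.c .z (.a .z (.l 10))) (.c (.l 10) (.a .z (.l 10))))
(.b .z (.c .z (.a (.l 10) .z)))) (.a .z (.b (.c (.a (.l 10) .z) .z) (.c (.l 10) .z))))) (.b (.c (.l 8) (.a (.b (.c (.l 8) .z) .z) (.b (.c (.a (.l 8)
.z) .z) (.a (.c (.l 8) .z) .z)))) (.c (.a (.b (.c (.l 8) .z) .z) (.b (.l 8) (.a (.c (.l 8) .z) (.l 8)))) (.a (.b (.c .z (.a (.l 10) .z)) (.c (.a (.l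
10) .z) (.l 10))) .z)))) (.a (.b (.c .z (.a .z (.c .z (.a .z (.l 14))))) (.c .z (.a .z (.c .z (.a .z (.l 14)))))) (.b (.a (.c .z (.c .z (.l 14))) .z)
(.a (.c (.c (.a .z (.c (.l 10) .z)) .z) (.c (.a (.l 14) .z) (.l 14))) .z)))) (.c (.a (.c (.a (.c (.l 10) (.a (.c (.l 10) (.a .z (.l 10))) (.l 10)))
(.l 10)) (.a (.c (.a .z (.c (.l 10) .z)) .z) (.c (.l 10) (.a .z (.c (.l 10) (.a .z (.l 10))))))) (.b (.a (.c (.b (.c .z (.a (.l 10) .z)) (.c (.a (.l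
10) .z) (.l 10))) (.l 10)) (.c (.a .z (.b (.c (.l 8) .z) .z)) (.a (.b (.c .z (.l 10)) (.l 10)) .z))) (.a (.l 10) (.c (.a (.b (.c .z (.l 10)) (.l 10))
(.b .z (.c .z (.l 10)))) (.a (.l 10) (.c (.l 10) (.a (.l 10) .z))))))) (.a (.c (.a .z (.c .z (.a .z (.b .z (.l 14))))) (.a (.c .z (.a .z (.b .z (.l
14)))) (.c (.a (.b .z (.l 14)) (.l 14)) (.l 14)))) (.a (.c (.c (.a (.c (.l 10) (.a .z (.l 10))) (.l 10)) .z) (.a (.l 14) (.c .z (.a (.l 14) .z)))) (.c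
(.a (.c (.b .z (.a (.l 10) .z)) .z) (.c .z (.b (.l 24) .z))) (.a .z (.c (.l 24) .z))))))))))

theorem vQ121 : ev3 Q121 J3_0 J4_9 J4_13 = 300303196667592541606229 := by decide +kernel

noncomputable def Q129 : QT3 :=
(.c (.b (.c (.a (.c (.c (.a (.b (.c (.a .z (.b .z (.l 15))) (.a (.b .z (.l 15)) (.l 15))) (.l 15)) (.l 15)) (.l 15)) (.l 15)) (.l 15)) (.a (.c (.c (.a
(.c (.l 15) (.b (.a (.c (.l 15) .z) (.l 15)) (.l 15))) (.l 15)) (.a (.b (.c (.a .z (.c (.l 15) .z)) (.a (.b (.c .z (.l 8)) .z) .z)) (.c (.a (.b .z (.l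
15)) (.l 15)) (.a .z (.b .z (.l 15))))) (.b (.c (.l 15) (.a (.b .z (.l 15)) (.b .z (.l 15)))) (.l 15)))) (.b (.c (.a (.c (.a (.l 8) (.b (.c .z (.l 8))
.z)) (.l 8)) (.c .z (.a (.b (.l 8) .z) .z))) (.a (.l 8) (.c (.a (.l 8) (.b (.l 8) .z)) (.l 8)))) (.a (.c (.c (.a (.b (.c .z (.l 8)) .z) .z) (.a (.b
(.l 8) (.c .z (.l 8))) (.b (.c .z (.l 8)) .z))) (.b (.l 8) (.a (.c (.l 8) (.b (.l 8) .z)) (.c (.a (.l 8) .z) (.l 8))))) (.c (.a (.c (.b .z (.l 15))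
.z) (.c (.l 15) (.b .z (.l 15)))) (.a (.c (.b (.a (.l 8) .z) .z) (.b (.l 8) (.a (.l 8) .z))) .z))))) (.c (.b (.c (.a (.l 15) (.b (.c (.a (.l 15) .z)
.z) (.a (.l 15) (.c (.l 15) .z)))) (.a (.b (.c (.a (.l 15) .z) .z) (.c (.l 15) (.a (.l 15) .z))) .z)) (.a (.l 15) (.c (.l 15) (.b (.a (.c (.l 15) .z)
.z) (.a (.l 15) (.c (.l 15) .z)))))) (.a (.c (.b .z (.b (.a (.c (.l 15) .z) .z) (.l 15))) (.b (.a (.c .z (.b (.l 8) .z)) .z) (.a (.b .z (.c (.l 15)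
.z)) .z))) (.c (.b .z (.b .z (.a (.c (.l 15) .z) .z))) .z))))) (.c (.a (.c (.b (.b (.l 15) (.b (.b (.l 15) .z) (.l 41))) (.a (.b (.l 41) (.c (.a .z
(.l 41)) (.b (.l 41) .z))) (.l 41))) (.b (.b (.l 15) (.b (.b (.l 15) .z) (.l 41))) (.a (.c (.l 41) (.b (.l 41) .z)) (.b (.l 41) (.b (.c (.l 41) .z)
.z))))) (.b (.b (.l 15) (.b (.b (.l 15) .z) (.l 41))) (.b (.c (.l 41) (.b (.a (.l 41) (.c (.l 41) .z)) (.a (.c (.l 41) .z) .z))) (.c (.a (.b (.l 41)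
(.c (.l 41) .z)) (.b (.c (.l 41) .z) .z)) .z)))) (.a (.b (.c (.a (.c (.b (.l 15) (.b (.b (.l 15) .z) (.l 41))) (.b (.l 15) .z)) (.b (.l 15) (.b (.b
(.l 15) .z) (.l 41)))) (.a (.c (.b (.a .z (.c (.l 15) .z)) .z) (.b (.a .z (.c .z (.b (.l 8) .z))) (.a (.c .z (.b .z (.l 10))) .z))) (.c (.b (.l 15)
(.b (.b (.l 15) .z) (.l 41))) (.b (.a .z (.c (.l 15) .z)) .z)))) (.c (.a (.c (.b (.a .z (.l 41)) .z) .z) (.c (.b (.l 41) .z) (.b (.b (.l 41) .z) .z)))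
(.a (.b (.c .z (.a (.c (.a (.l 10) .z) (.l 10)) (.c .z (.a (.l 10) .z)))) (.c (.a (.c .z (.a (.l 10) .z)) .z) (.a (.l 10) (.c .z (.a (.l 10) .z)))))
.z))) (.b (.c (.b (.l 15) (.b (.b (.l 15) .z) (.a (.l 41) (.c (.l 41) .z)))) (.a (.b (.l 15) (.b (.b (.l 15) .z) (.c (.l 41) .z))) (.b (.c (.a (.l 15)
(.c (.l 15) .z)) .z) .z))) (.c (.a (.b (.b (.c (.l 41) .z) .z) .z) .z) .z))))) (.b (.a (.c (.b (.c (.a (.c (.l 8) (.b (.l 8) (.a (.c (.l 8) (.b (.l 8)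
.z)) (.l 8)))) (.l 8)) (.a (.b (.c (.a (.c (.l 8) (.b (.l 8) .z)) (.l 8)) (.a .z (.b (.l 8) (.c (.l 8) .z)))) (.c (.a .z (.c (.l 8) (.b (.l 8) .z)))
(.a (.b .z (.c .z (.l 10))) .z))) (.c (.l 8) (.b (.a (.l 8) (.c (.l 8) .z)) (.a (.b (.c (.l 8) .z) .z) (.c (.l 8) .z)))))) (.c (.a (.c (.b (.a (.c (.l
8) (.b (.l 8) .z)) (.l 8)) (.a .z (.c (.l 8) (.b (.l 8) .z)))) (.b (.a .z (.c (.l 8) (.b (.l 8) .z))) (.a (.b .z (.c .z (.l 10))) .z))) (.c (.a (.l 8)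
(.b (.l 8) (.c .z (.l 8)))) (.b (.l 8) (.a (.c (.b (.l 8) .z) .z) (.c (.l 8) (.b (.l 8) .z)))))) (.a (.b (.c (.a (.b .z (.c .z (.l 10))) .z) (.a (.l
10) (.b (.c .z (.l 10)) (.l 10)))) (.c (.a (.l 10) (.b (.c .z (.l 10)) (.l 10))) (.l 10))) (.b (.c (.a (.c (.b (.l 8) .z) .z) (.c (.l 8) (.b (.l 8)
.z))) (.a (.b .z (.c .z (.l 10))) .z)) (.c (.a (.b .z (.c .z (.l 10))) .z) (.a (.l 10) .z)))))) (.b (.c (.a (.b (.c (.a (.b .z (.c .z (.l 10))) .z)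
(.a (.c (.l 10) .z) .z)) (.c (.a (.l 10) (.b (.c .z (.l 10)) (.l 10))) (.a (.c (.l 10) (.a (.l 10) .z)) .z))) .z) (.a (.c (.a .z (.b (.c (.l 24) .z)
.z)) (.a (.b .z (.l 15)) (.c (.b .z (.l 15)) (.a (.l 15) .z)))) (.b (.c .z (.a .z (.c .z (.a .z (.l 13))))) (.c .z (.a .z (.c (.a .z (.l 13)) (.l
13))))))) (.b (.c (.a (.c (.l 10) (.a (.c (.l 10) (.a (.l 10) .z)) (.c (.a (.l 10) .z) .z))) (.c (.a (.c (.a (.l 10) .z) .z) .z) .z)) (.a (.c (.a .z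
(.c .z (.l 15))) (.a (.c .z (.l 15)) .z)) (.c (.a .z (.c .z (.a .z (.l 13)))) (.a (.c .z (.a .z (.l 13))) (.l 13))))) (.a (.c (.c (.l 10) (.a (.l 10)
(.c (.a (.l 10) .z) .z))) (.c (.a (.c (.a (.l 10) .z) .z) .z) .z)) (.c (.c (.a (.c (.l 10) (.a (.l 10) .z)) .z) .z) (.a (.b (.c .z (.c .z (.l 13)))
(.c .z (.b (.l 13) .z))) (.b (.c (.c .z (.l 13)) (.a (.l 13) .z)) (.c (.a (.l 13) .z) .z)))))))) (.c (.b (.c (.a (.c (.a (.l 8) (.b (.c (.a (.l 8) .z)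
(.l 8)) (.c .z (.a (.l 8) .z)))) (.l 8)) (.c (.a (.b (.c .z (.a (.l 8) .z)) .z) .z) (.a (.c (.a (.l 8) .z) .z) (.c (.a .z (.c .z (.l 9))) (.l 9)))))
(.a (.c (.a (.c (.l 8) (.a (.l 8) (.c (.l 8) .z))) (.c (.a (.l 8) .z) .z)) (.a (.c .z (.a (.c .z (.l 11)) (.l 11))) (.l 11))) (.c (.a (.c (.a (.c .z
(.l 9)) (.l 9)) (.c (.l 9) .z)) (.c (.l 9) (.c (.l 9) (.a .z (.l 9))))) (.c (.c (.a (.a (.l 11) .z) .z) (.a (.l 11) (.a (.l 11) .z))) (.b (.l 11) (.c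
(.l 11) (.b (.l 11) .z))))))) (.a (.c (.c (.a (.b (.c .z (.a (.l 8) .z)) .z) .z) (.b (.a (.l 8) (.c (.a (.l 8) .z) (.l 8))) (.a (.c (.a (.l 8) .z) (.l
8)) .z))) (.c (.b (.a (.c (.l 8) (.a (.l 8) .z)) (.c (.a (.l 8) .z) .z)) (.a (.c (.l 8) .z) (.c (.a (.l 8) .z) .z))) (.b (.a .z (.c (.l 11) .z)) .z)))
(.c (.c .z (.a (.c .z (.a .z (.c .z (.l 9)))) (.c (.a .z (.l 9)) (.l 9)))) (.b (.a (.c (.c (.a .z (.l 9)) (.c (.l 9) .z)) (.c (.c .z (.l 11)) .z)) (.c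
(.l 9) .z)) (.a (.c (.c (.a .z (.l 9)) (.c (.l 9) .z)) .z) (.c (.b (.l 9) .z) .z)))))) (.b (.a (.c (.b (.c (.c (.c (.l 11) (.b (.l 11) .z)) .z) .z)
.z) (.b (.a (.c .z (.b .z (.a (.l 13) .z))) .z) (.a (.c (.b .z (.a (.l 13) .z)) (.l 13)) (.c .z (.a (.b .z (.l 13)) .z))))) (.b (.c (.c (.c (.c (.l
11) .z) .z) .z) .z) .z)) (.a (.b (.c (.c .z (.a (.b .z (.c .z (.l 13))) .z)) (.a (.b (.l 13) (.c (.l 13) (.a (.l 13) .z))) (.b (.c .z (.a (.l 13) .z))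
(.c (.a (.l 13) .z) .z)))) (.c (.a (.c .z (.b (.c .z (.l 13)) (.a (.l 13) .z))) .z) (.a (.b (.c (.a (.l 13) .z) .z) .z) (.b .z (.c (.a .z (.l 11)) (.l
11)))))) (.b .z (.c .z (.a (.b (.c .z (.l 11)) (.l 11)) (.c (.b .z (.l 11)) (.l 11))))))))) (.a (.c (.b (.c (.a (.b (.c (.a (.c .z (.b .z (.l 10)))
.z) (.a (.l 10) (.b (.c .z (.l 10)) (.l 10)))) (.c (.a (.l 10) (.b (.c .z (.l 10)) (.l 10))) (.l 10))) (.c .z (.b (.a (.b .z (.c .z (.l 10))) .z) (.a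
(.l 10) (.b .z (.c .z (.l 10))))))) (.b (.a (.l 10) (.c (.a (.l 10) (.b .z (.c .z (.l 10)))) (.a (.l 10) (.c (.l 10) (.a (.l 10) .z))))) (.a (.l 10)
(.c (.a (.l 10) (.b (.l 10) (.c (.l 10) .z))) (.a (.b (.l 10) (.c (.l 10) .z)) (.b (.c (.l 10) .z) .z)))))) (.c (.a (.b (.l 10) (.c (.l 10) (.b (.l
10) (.a (.l 10) .z)))) (.b (.c (.a (.c .z (.a (.l 10) .z)) .z) (.a (.l 10) .z)) (.c (.a (.b (.c .z (.l 10)) .z) .z) .z))) (.a (.b (.c (.b (.l 10) (.a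
(.l 10) (.c (.l 10) .z))) (.b (.a (.l 10) (.c (.l 10) .z)) (.a (.c (.l 10) .z) .z))) (.c (.b (.a (.c (.l 10) .z) .z) .z) (.b .z (.a .z (.c .z (.l
11)))))) (.b (.c (.a (.b (.c (.l 10) .z) .z) .z) (.a .z (.b .z (.l 11)))) (.c .z (.l 11)))))) (.b (.b (.a (.c (.c (.l 10) (.a (.l 10) (.c (.l 10) (.a
(.l 10) .z)))) (.b (.a (.c (.c (.l 10) .z) .z) .z) (.a (.c (.c (.l 10) .z) .z) .z))) (.c (.a (.c (.c (.l 10) (.a (.l 10) .z)) .z) .z) (.a .z (.b .z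
(.c .z (.l 11)))))) (.a (.c (.c (.b (.l 10) (.a (.l 10) (.c (.l 10) .z))) (.b (.a (.l 10) (.c (.l 10) .z)) (.a (.c (.l 10) .z) .z))) (.b .z (.a .z (.c
.z (.l 11))))) (.c (.a (.c (.b (.c (.l 10) .z) .z) .z) (.c .z (.b .z (.l 11)))) (.a (.b (.c .z (.l 11)) (.l 11)) (.l 11))))) (.a (.c (.b (.c (.b (.a
(.c (.l 10) .z) .z) .z) (.b .z (.a .z (.l 11)))) (.c (.b (.a .z (.l 11)) (.l 11)) (.l 11))) (.b (.b (.a (.c .z (.l 11)) (.l 11)) (.l 11)) (.l 11)))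
(.c (.b (.a (.c (.b .z (.l 11)) (.l 11)) (.l 11)) (.l 11)) (.l 11))))) (.c (.b (.a (.c .z (.b .z (.a .z (.c .z (.b .z (.l 11)))))) (.c .z (.b .z (.a
(.c .z (.b .z (.l 11))) (.c .z (.b .z (.c .z (.l 11)))))))) (.a (.c .z (.b (.a (.c .z (.l 11)) (.c .z (.l 11))) (.c (.c (.c .z (.l 20)) (.c .z (.a .z
(.l 11)))) (.l 11)))) (.c (.b .z (.c .z (.b (.c .z (.l 19)) (.c (.l 19) .z)))) (.b (.c (.b .z (.c .z (.c .z (.l 11)))) (.l 11)) (.c (.c .z (.c .z (.l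
11))) (.l 11)))))) (.b (.a (.b (.c (.a .z (.c (.b .z (.a .z (.l 11))) (.b (.a .z (.l 11)) (.l 11)))) (.a (.b (.c .z (.l 11)) (.l 11)) (.l 11))) (.c
(.a (.c (.b .z (.l 11)) (.l 11)) (.l 11)) (.l 11))) (.b (.c (.a (.c (.b .z (.c .z (.l 11))) (.l 11)) (.c .z (.b (.c .z (.l 11)) (.l 11)))) (.l 11))
(.l 11))) (.l 11))))))

theorem vQ129 : ev3 Q129 J4_2 J4_10 J3_6 = 279325775556248575989913 := by decide +kernel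

noncomputable def Q79 : QT3 :=
(.a (.b (.c (.a (.b (.c (.c (.a (.l 26) (.c (.a (.l 26) (.b (.l 26) .z)) (.a (.b (.l 26) .z) .z))) (.a (.c (.a (.l 26) (.b (.l 26) .z)) (.a (.c (.l
26) .z) .z)) .z)) .z) (.c (.a (.c (.c (.l 26) (.a (.l 26) (.b (.l 26) .z))) (.c (.a (.b (.l 26) .z) .z) .z)) (.b (.c (.a (.c (.l 26) .z) .z) .z) .z))
.z)) (.b (.c .z (.a .z (.b .z (.c .z (.a .z (.l 31)))))) (.c (.a .z (.b .z (.c .z (.a (.l 33) .z)))) (.a (.b (.c .z (.a .z (.l 33))) (.c (.a .z (.l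
33)) (.l 33))) (.b .z (.a (.l 33) .z)))))) (.a (.b .z (.c (.a (.b .z (.c .z (.a .z (.l 33)))) (.b (.c .z (.a .z (.l 33))) (.c (.a .z (.l 33)) (.l
33)))) .z)) (.b (.c (.a (.b (.c .z (.a .z (.l 31))) .z) (.b (.c (.a .z (.l 31)) (.l 31)) (.a (.b (.l 31) .z) (.l 31)))) (.a (.b (.b (.l 31) (.a .z (.l
31))) (.a .z (.b (.l 31) .z))) (.l 31))) (.a (.b (.a (.c (.l 33) .z) (.b .z (.c (.l 33) .z))) (.c (.l 33) (.c (.c (.l 33) .z) .z))) (.b (.a .z (.b (.l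
31) (.a .z (.l 31)))) (.a (.b .z (.c (.l 33) .z)) .z)))))) (.c (.a (.b (.c (.a (.b (.c (.a (.c (.l 26) .z) .z) .z) (.c (.a (.c (.l 26) .z) .z) .z))
.z) (.a (.b .z (.c .z (.a .z (.l 33)))) (.b (.c .z (.a .z (.l 33))) (.c (.a .z (.l 33)) (.l 33))))) (.c (.a (.b .z (.c .z (.a .z (.l 33)))) (.b (.c .z
(.a .z (.l 33))) (.c (.a .z (.l 33)) (.l 33)))) (.a (.b (.c (.a .z (.l 33)) (.l 33)) (.l 33)) (.l 33)))) (.b (.c (.a (.b (.c .z (.a .z (.l 33))) (.c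
(.a .z (.l 33)) (.l 33))) (.l 33)) (.l 33)) (.l 33))) (.a (.b (.c (.a (.b (.c (.a .z (.l 33)) (.l 33)) (.l 33)) (.l 33)) (.c (.a .z (.c (.l 33) .z))
(.a (.c (.l 54) .z) .z))) (.c (.l 33) (.c (.a (.b .z (.c (.l 33) .z)) (.c (.l 33) (.a .z (.l 33)))) (.a (.c .z (.b .z (.a (.c .z (.l 10)) .z))) .z))))
(.b (.a (.c (.l 33) (.c (.l 33) (.c (.a .z (.l 33)) .z))) (.b (.a (.c (.l 33) (.c (.l 33) .z)) (.a (.l 33) (.b .z (.l 33)))) (.l 33))) (.c (.l 33) (.c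
(.l 33) (.a (.c (.l 33) (.a .z (.l 33))) (.l 33)))))))) (.b (.c (.a (.b (.c (.a (.b .z (.c .z (.a .z (.l 31)))) (.b (.c .z (.a .z (.l 29))) (.a (.a
(.l 31) .z) (.l 29)))) (.a (.b (.c (.a .z (.l 31)) (.l 31)) (.l 31)) (.a (.a (.l 31) (.a .z (.l 29))) (.l 29)))) (.c (.a (.b (.c (.a .z (.l 31)) (.a
.z (.l 31))) (.a .z (.l 31))) (.a (.a (.l 31) (.a .z (.l 29))) (.l 29))) (.a (.a (.b (.l 31) .z) (.l 31)) (.a (.a (.l 31) (.a .z (.l 29))) (.l 29)))))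
(.a (.b (.a (.c (.c .z (.b .z (.l 29))) (.l 29)) (.b (.c .z (.c .z (.l 29))) .z)) (.a (.b (.a (.l 29) .z) .z) .z)) .z)) (.a (.a (.b (.l 31) (.a (.b
(.l 31) (.a (.b (.l 31) .z) (.l 31))) (.l 31))) (.a (.a (.l 31) (.a .z (.l 29))) (.l 29))) (.a (.b (.a (.l 29) (.b (.l 29) (.a (.l 29) (.b (.l 29)
.z)))) (.a (.b (.l 29) (.a (.l 29) .z)) .z)) .z))) (.a (.a (.b (.a (.b (.c (.a (.b .z (.l 33)) .z) .z) (.a (.l 33) (.b (.c (.l 33) .z) (.l 33)))) (.b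
(.c (.a .z (.l 31)) (.a (.b (.l 31) .z) (.l 31))) (.a .z (.c .z (.b (.l 31) .z))))) (.a (.l 33) (.b (.a (.b (.a (.l 33) .z) (.l 33)) (.b .z (.a (.l
33) .z))) (.l 33)))) (.b (.a (.a (.l 31) (.a .z (.l 29))) (.b (.a (.l 29) (.c .z (.l 29))) (.a (.c (.a (.l 29) .z) (.l 29)) .z))) (.a (.b (.a (.b (.c
.z (.l 31)) .z) (.a .z (.l 29))) (.a (.b .z (.a (.l 33) .z)) .z)) (.b (.a .z (.b .z (.l 55))) (.a (.b .z (.l 55)) (.l 55)))))) (.a (.b (.a (.b .z (.a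
(.b .z (.l 55)) (.l 55))) (.c (.c .z (.l 55)) (.c (.l 55) (.b (.l 55) .z)))) (.c (.l 55) (.a (.c (.l 55) (.a (.l 55) .z)) .z))) (.c (.b .z (.a (.c (.b
.z (.l 55)) .z) .z)) (.c (.b (.a (.b (.l 55) .z) .z) .z) .z))))))

theorem vQ79 : ev3 Q79 J3_2 J4_7 J4_9 = 232573645821439608802358 := by decide +kernel

noncomputable def Q1 : QT3 :=
(.b (.c (.a (.b (.c .z (.c (.b (.a .z (.a (.c .z (.c (.c .z (.c .z (.l 86))) (.a (.c (.l 86) .z) (.b .z (.l 86))))) .z)) (.b (.a .z (.a (.c .z (.a (.c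
.z (.l 86)) .z)) .z)) .z)) .z)) (.c .z (.a (.b (.c .z (.c (.b .z (.b .z (.a .z (.a (.l 64) .z)))) (.b .z (.b .z (.a .z (.a .z (.l 64))))))) .z) .z)))
.z) (.c (.b .z (.a .z (.b (.a (.b .z (.c (.b (.b (.l 121) .z) .z) .z)) (.c (.c .z (.b .z (.b (.b (.l 121) .z) .z))) .z)) .z))) (.b .z (.c (.b (.c (.a
(.b .z (.a .z (.b (.a .z (.b .z (.b .z (.l 50)))) .z))) (.a (.b .z (.c .z (.b (.b .z (.b .z (.l 50))) .z))) .z)) (.b .z (.a (.b (.a .z (.a .z (.b .z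
(.b .z (.l 50))))) .z) .z))) (.c (.b (.a (.a .z (.a .z (.a .z (.b .z (.a .z (.l 48)))))) .z) .z) (.b (.a (.b (.a .z (.a .z (.a .z (.b .z (.l 48)))))
.z) .z) (.a .z (.a .z (.c .z (.b .z (.a (.l 81) .z)))))))) (.b (.c .z (.b (.a .z (.a .z (.c .z (.b .z (.a .z (.c .z (.l 46))))))) (.a .z (.a .z (.c .z
(.b (.b (.l 46) .z) (.c .z (.l 75)))))))) (.c .z (.b (.a .z (.a .z (.c .z (.a (.b (.l 75) .z) (.l 75))))) (.a (.c (.b .z (.a (.c .z (.l 84)) .z)) (.c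
(.a (.a (.l 84) .z) .z) .z)) (.a .z (.a .z (.c (.b (.l 75) .z) .z))))))))))) (.c .z (.a (.b (.c .z (.c .z (.b (.c (.b (.c .z (.b .z (.a (.l 84) .z)))
(.c (.b (.a (.c .z (.l 84)) .z) .z) (.a (.l 84) .z))) (.c (.a (.a (.l 84) (.c (.l 84) (.a (.l 84) .z))) .z) (.c (.c (.a (.a (.l 84) .z) .z) (.a (.a
(.l 84) .z) .z)) .z))) .z))) (.c .z (.a (.b .z (.c .z (.a .z (.b (.c .z (.c .z (.c .z (.a .z (.l 34))))) (.c .z (.a .z (.b (.c .z (.l 34)) .z)))))))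
(.b (.c .z (.b (.c .z (.c .z (.a (.c .z (.a .z (.l 34))) (.c (.a .z (.l 34)) (.l 34))))) (.c .z (.c (.a .z (.c .z (.a .z (.l 34)))) (.a (.c .z (.l
34)) (.l 34)))))) (.c .z (.a (.b (.c .z (.c .z (.a (.c .z (.l 34)) (.l 34)))) (.c .z (.a (.b (.c .z (.l 34)) .z) .z))) (.b (.c .z (.c (.a (.b .z (.l
34)) (.l 34)) (.b (.l 34) (.c (.l 34) .z)))) .z))))))) (.b (.c .z (.c (.b .z (.a .z (.c (.b .z (.a (.c .z (.b .z (.l 76))) .z)) (.b .z (.a (.b .z (.l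
76)) (.c (.b .z (.l 76)) (.l 76))))))) (.b (.a (.c .z (.c .z (.c .z (.a (.c .z (.l 81)) (.l 81))))) (.c .z (.b (.a (.c .z (.c .z (.l 81))) (.c .z (.b
.z (.l 81)))) (.a (.c .z (.l 81)) (.c .z (.l 81)))))) (.a .z (.c (.b .z (.a (.b .z (.b .z (.l 76))) (.a (.b .z (.l 76)) .z))) (.b .z (.a (.b .z (.b .z
(.l 76))) .z))))))) (.c .z (.a (.b (.c (.a .z (.b (.c .z (.b (.l 76) (.c (.l 76) .z))) .z)) (.c (.b .z (.b (.a .z (.c .z (.a (.l 34) .z))) (.a (.c .z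
(.a .z (.l 34))) (.a (.l 34) .z)))) (.b (.b (.a (.b (.c .z (.l 34)) (.c .z (.l 34))) .z) (.a (.c (.a .z (.l 34)) (.l 34)) (.c (.b .z (.l 34)) (.l
34)))) (.a (.l 34) (.c (.b (.a (.l 34) .z) .z) (.b (.l 34) .z)))))) (.c .z (.a (.b (.c (.a (.b (.c .z (.l 34)) .z) (.b (.c .z (.l 34)) .z)) (.c (.b
(.a (.l 34) .z) .z) (.b (.a (.l 34) .z) .z))) .z) .z))) (.b (.c (.a (.b (.c .z (.l 76)) .z) (.b (.c .z (.a (.b (.l 76) .z) .z)) .z)) (.c (.b (.a (.b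
(.l 76) .z) (.a (.b (.l 76) .z) .z)) .z) .z)) .z)))))))

theorem vQ1 : ev3 Q1 J3_0 J2_1 J2_1 = 89643420956131678228132 := by decide +kernel

noncomputable def Q117 : QT3 :=
(.c (.b (.c (.b (.l 6) (.a (.l 6) (.c (.a (.l 6) (.b (.l 6) (.c (.l 6) (.a (.l 6) (.b (.l 6) (.c (.l 6) .z)))))) (.a (.b (.l 6) (.c (.l 6) (.b (.a (.l
6) (.c (.l 6) .z)) (.a (.c (.l 6) .z) .z)))) (.b (.c (.l 6) (.a (.b (.l 6) (.c (.l 6) .z)) (.b (.c (.l 6) .z) .z))) (.c (.a (.b (.l 6) .z) .z) (.a .z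
(.b .z (.c .z (.l 7)))))))))) (.b (.a (.c (.l 6) (.a (.c (.a (.c (.a .z (.c (.l 6) .z)) .z) (.c (.l 6) (.a (.c (.l 6) .z) (.l 6)))) (.a (.c (.a (.l
10) (.c .z (.l 10))) (.l 10)) (.c .z (.a (.c .z (.l 10)) .z)))) (.c (.l 6) (.a (.c (.l 6) (.a .z (.c (.l 6) .z))) (.l 6))))) (.c (.a (.l 6) (.b (.l 6)
(.c (.a (.l 6) (.b (.l 6) (.c (.l 6) .z))) (.a (.b (.l 6) .z) .z)))) (.a (.b (.l 6) (.c (.b (.l 6) (.a (.l 6) .z)) (.b (.a (.l 6) .z) .z))) (.b (.c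
(.a (.l 6) (.b (.l 6) .z)) (.a (.b (.l 6) .z) .z)) (.c (.a .z (.b .z (.c .z (.l 7)))) (.a (.b .z (.c .z (.l 7))) (.b (.c .z (.l 7)) (.l 7)))))))) (.a
(.c (.b (.a (.c (.l 6) (.a (.c (.l 6) (.a .z (.l 6))) (.l 6))) (.l 6)) (.a (.c (.l 6) (.a (.c (.l 6) (.a .z (.l 6))) (.l 6))) (.c (.b (.l 6) (.a (.l
6) (.c (.l 6) .z))) (.b (.a (.l 6) (.c (.l 6) .z)) .z)))) (.b (.a (.c (.a (.c .z (.a (.l 10) .z)) (.c (.l 6) .z)) (.b (.a (.l 10) .z) (.a (.l 10)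
.z))) (.c (.b (.l 6) (.a (.l 6) .z)) .z)) (.a (.c (.b (.a .z (.c (.l 6) .z)) .z) (.b (.a (.c (.l 10) .z) .z) .z)) (.c (.b .z (.a .z (.c .z (.l 7))))
(.b .z (.a (.c .z (.l 8)) .z)))))) (.c (.a (.b (.c (.b (.l 6) (.a (.l 6) (.c (.l 6) .z))) (.b (.a (.l 6) (.c (.l 6) .z)) (.a (.c (.l 6) .z) .z))) (.c
(.b (.a (.c (.l 6) .z) .z) .z) (.b .z (.a .z (.l 7))))) (.b (.c (.a (.b (.c (.l 6) .z) .z) .z) (.a .z (.b (.c .z (.l 7)) (.l 7)))) (.c (.a (.b .z (.l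
7)) (.l 7)) (.l 7)))) (.a (.b (.c (.b .z (.a .z (.c .z (.l 7)))) (.b (.a .z (.c .z (.l 7))) (.a (.c .z (.l 7)) (.l 7)))) (.c (.b (.a (.c .z (.l 7))
(.l 7)) (.l 7)) (.c (.b (.l 7) (.a .z (.l 7))) .z))) (.b (.c (.a (.b (.c .z (.l 7)) (.l 7)) (.l 7)) (.l 7)) (.c (.l 7) (.c (.l 7) (.b (.l 7) (.a .z
(.l 7))))))))))) (.c (.b (.a (.c (.b (.a (.c (.a (.c (.a .z (.l 6)) (.l 6)) (.l 6)) (.l 6)) (.l 6)) (.a (.c (.a (.c .z (.a .z (.l 6))) (.c (.a .z (.l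
6)) (.l 6))) (.l 6)) (.c (.l 6) (.b (.l 6) (.a (.l 6) (.c (.l 6) .z)))))) (.b (.a (.l 6) (.c (.l 6) (.b (.a (.l 6) (.c (.l 6) .z)) (.a (.c (.l 6) .z)
.z)))) (.a (.c (.l 6) (.b (.a (.l 6) (.c (.l 6) .z)) (.a (.c (.l 6) .z) .z))) (.c (.b (.a (.l 6) .z) .z) (.b .z (.a .z (.c .z (.l 7)))))))) (.c (.a
(.b (.c (.l 6) (.b (.l 6) (.a (.l 6) (.c (.l 6) .z)))) (.c (.b (.a (.l 6) (.c (.l 6) .z)) (.a (.c (.l 6) .z) .z)) (.b (.a (.c (.l 6) .z) .z) .z))) (.b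
(.c (.a (.b (.l 6) (.c (.l 6) .z)) (.b (.c (.l 6) .z) .z)) (.a (.b (.c (.l 6) .z) .z) .z)) .z)) (.a (.b (.c (.b (.a (.l 6) .z) .z) (.b .z (.a .z (.c
.z (.l 7))))) (.c (.b (.a .z (.c .z (.l 7))) (.a (.c .z (.l 7)) (.c .z (.l 7)))) (.b (.a (.c .z (.l 7)) (.l 7)) (.l 7)))) (.b (.c (.a (.b .z (.c .z
(.l 7))) (.b (.c .z (.l 7)) (.l 7))) (.a (.b (.c .z (.l 7)) (.l 7)) (.l 7))) (.c (.c (.c (.a .z (.l 7)) (.l 7)) (.l 7)) (.l 7)))))) (.a (.c (.b (.a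
(.c (.a .z (.a .z (.c .z (.l 6)))) (.b (.a (.c .z (.l 6)) (.l 6)) (.a .z (.c (.l 6) .z)))) (.c (.b (.a (.l 6) (.c (.l 6) .z)) (.a (.c (.l 6) .z) .z))
(.b (.a (.c (.l 6) .z) .z) .z))) .z) (.b (.a (.c (.b (.a (.c (.l 6) .z) .z) .z) (.b .z (.a .z (.c .z (.l 7))))) (.c .z (.b (.a (.c .z (.l 7)) (.l 7))
(.c (.c .z (.l 7)) (.l 7))))) (.a .z (.c .z (.c (.c .z (.a .z (.l 7))) (.b (.l 7) .z)))))) (.c (.a (.b (.c .z (.b .z (.l 35))) (.c (.a .z (.l 35)) (.b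
(.l 35) .z))) (.b (.c (.a .z (.l 35)) (.c (.l 35) .z)) (.c (.l 35) (.c (.l 35) .z)))) (.c (.c (.a .z (.c .z (.a .z (.b (.l 7) .z)))) (.a (.c .z (.b
(.l 7) (.a .z (.l 7)))) (.c (.a (.b (.l 7) .z) (.l 7)) (.l 7)))) (.l 7))))) (.b (.a (.c (.b (.a (.c (.b (.l 6) (.a (.l 6) (.c (.l 6) .z))) (.b (.a (.c
(.l 6) .z) .z) .z)) (.c (.b (.a (.c (.l 6) .z) .z) .z) (.b (.a .z (.c .z (.l 7))) (.a (.c .z (.l 7)) (.l 7))))) (.a (.c (.b .z (.a .z (.c .z (.l 7))))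
(.b .z (.a (.c .z (.l 8)) .z))) (.c (.b (.a .z (.l 7)) (.l 7)) (.c (.b (.l 7) (.a .z (.l 7))) .z)))) (.b (.a (.c (.b .z (.a .z (.c .z (.l 8)))) (.b
(.a .z (.l 8)) (.l 8))) (.c (.b (.a .z (.c (.l 7) .z)) .z) (.c (.b .z (.l 8)) (.l 8)))) (.c (.a (.c (.b (.c .z (.l 8)) (.l 8)) (.l 8)) (.c (.b .z (.a
(.l 8) .z)) (.b (.a (.l 8) .z) (.l 8)))) (.l 8)))) (.c (.a (.b (.c (.b (.a .z (.l 7)) (.l 7)) (.l 7)) (.c (.l 7) (.c (.l 7) (.b (.l 7) (.a .z (.l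
7)))))) (.l 7)) (.c (.b (.a (.c (.l 7) (.b (.a .z (.l 7)) .z)) (.l 7)) (.a (.c .z (.b .z (.a (.l 8) .z))) (.c (.b (.l 7) (.a .z (.l 7))) (.b (.a .z
(.l 7)) .z)))) (.b (.a (.c .z (.b .z (.a (.l 8) .z))) (.c (.b (.l 7) .z) .z)) (.a (.c (.b (.a (.l 8) .z) (.l 8)) (.l 8)) (.c .z (.b (.a (.l 8) .z) (.l
8)))))))) (.a (.c (.b (.a (.c (.b (.a .z (.c (.l 7) .z)) .z) (.c (.b .z (.l 8)) (.l 8))) (.c (.c (.b (.l 7) (.a .z (.l 7))) (.b (.a .z (.l 7)) .z))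
(.c .z (.b .z (.l 8))))) (.c (.a (.c .z (.l 8)) .z) (.a (.l 8) (.c (.b (.a (.l 8) .z) (.l 8)) (.l 8))))) (.l 8)) (.c (.c (.b (.l 7) (.a (.c (.b (.l 7)
(.a .z (.l 7))) .z) (.c (.l 7) (.b (.l 7) (.a .z (.l 7)))))) (.b (.a (.c (.b (.a .z (.l 7)) .z) .z) (.c (.l 7) (.b (.l 7) .z))) (.a (.c .z (.b (.a (.l
8) .z) (.l 8))) (.c (.b (.a .z (.l 7)) .z) .z)))) (.c (.b (.a (.c (.b .z (.a (.l 8) .z)) (.l 8)) (.c .z (.b .z (.a (.l 8) .z)))) (.a (.l 8) (.c (.b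
(.a (.l 8) .z) (.l 8)) (.l 8)))) (.b (.a (.l 8) (.c (.b (.a (.l 8) .z) (.l 8)) (.l 8))) (.l 8)))))))) (.b (.b (.a (.c (.c (.b (.a (.l 10) (.c (.a (.c
.z (.a (.l 10) .z)) (.c (.a .z (.l 6)) .z)) (.b (.a (.l 10) (.c .z (.l 10))) (.a (.l 10) .z)))) (.a (.c (.l 10) (.b (.l 10) (.a (.l 10) (.c (.l 10)
.z)))) (.c (.b (.a (.c .z (.l 10)) .z) .z) (.b (.a (.c (.l 10) .z) .z) .z)))) (.b (.a (.b (.l 10) (.c (.l 10) (.a (.l 10) (.b (.l 10) .z)))) (.b (.c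
(.a (.l 10) (.c (.l 10) .z)) (.a (.b (.l 10) .z) .z)) (.c (.a (.c (.l 10) .z) .z) .z))) (.a (.b (.c (.a (.l 10) (.c (.l 10) .z)) (.a (.b (.l 10) .z)
.z)) (.c (.a (.c (.l 10) .z) .z) .z)) (.b (.c .z (.a .z (.c .z (.l 11)))) (.c (.a .z (.c (.l 8) .z)) (.c .z (.a .z (.l 11)))))))) (.b (.a (.c (.b (.c
(.a (.l 10) (.b (.l 10) .z)) (.a (.b (.l 10) .z) .z)) (.c (.a (.b (.l 10) .z) .z) .z)) (.b (.a .z (.c .z (.l 11))) (.a (.c .z (.l 11)) (.l 11)))) (.c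
(.b (.a .z (.c .z (.l 11))) (.a (.c .z (.l 11)) (.l 11))) (.l 11))) (.a (.c (.b (.c .z (.a (.b .z (.l 11)) (.l 11))) (.c (.a .z (.l 11)) (.l 11))) (.l
11)) (.l 11)))) (.c (.a (.c (.b (.c (.b (.l 6) (.a (.l 6) .z)) .z) (.c (.b .z (.a .z (.c .z (.l 7)))) (.b .z (.a (.c .z (.l 8)) .z)))) (.b (.b (.a .z
(.c .z (.l 11))) (.a (.c .z (.c .z (.l 11))) (.c .z (.l 11)))) (.c (.c (.b (.a (.l 8) .z) (.a (.l 8) .z)) .z) (.c (.a (.c .z (.l 11)) (.l 11)) (.l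
11))))) (.c (.b (.a (.c .z (.b .z (.a .z (.l 7)))) (.c (.b .z (.a .z (.l 7))) (.l 7))) (.a (.c (.b (.c .z (.l 7)) (.l 7)) (.c (.b (.l 7) .z) .z)) (.c
(.l 7) (.c (.l 7) (.b (.l 7) .z))))) (.c .z (.b (.c (.b .z (.a (.l 11) .z)) (.l 11)) (.l 11))))) (.l 11))) (.a (.c (.c (.b (.a (.c (.b (.a (.l 10) (.c
(.l 10) .z)) (.a (.c (.l 10) .z) .z)) (.b (.a (.c (.l 10) .z) .z) .z)) (.c (.b .z (.a .z (.c .z (.l 8)))) (.b (.a .z (.l 8)) (.l 8)))) (.a (.c (.b .z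
(.a (.c .z (.l 8)) (.l 8))) (.b (.a (.c .z (.l 8)) (.l 8)) (.l 8))) (.c (.c (.b (.a (.l 8) .z) (.l 8)) (.l 8)) (.l 8)))) (.b (.a .z (.c (.c (.l 8) (.a
.z (.c (.l 8) .z))) (.c .z (.a (.c .z (.l 11)) (.l 11))))) (.c (.a (.c (.c (.l 8) (.a .z (.l 8))) .z) (.c (.l 8) (.a (.c (.l 8) .z) (.l 8)))) (.a .z
(.c .z (.a (.c .z (.l 11)) (.l 11))))))) (.c (.c (.a (.c (.a (.c .z (.a .z (.l 11))) (.c (.a .z (.l 11)) (.l 11))) (.l 11)) (.l 11)) (.l 11)) (.l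
11))) (.c (.a (.c (.b (.c (.b (.a .z (.c (.l 7) .z)) .z) (.c (.b .z (.a (.l 8) .z)) (.l 8))) (.c (.c (.b .z (.a (.l 8) .z)) (.b (.a (.l 8) .z) (.l
8))) (.l 8))) (.c (.c (.a (.l 8) (.c (.l 8) (.a (.l 8) .z))) (.a (.c (.l 8) .z) (.c .z (.a .z (.l 11))))) (.c (.a (.c (.a .z (.l 11)) (.l 11)) (.l
11)) (.l 11)))) (.c (.c (.b (.c (.l 7) (.b (.l 7) .z)) (.c (.b (.a .z (.l 7)) .z) .z)) (.b (.c .z (.b .z (.a (.l 8) .z))) (.c (.b (.a (.l 8) .z) (.l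
8)) (.a (.l 8) .z)))) (.c (.b (.c .z (.c (.a .z (.l 9)) .z)) (.c (.a .z (.c .z (.l 9))) (.c (.a .z (.l 9)) .z))) (.l 11)))) (.l 11)))) (.c (.c (.b (.a
(.l 8) (.c (.b (.a (.l 8) (.c (.b .z (.a (.l 8) .z)) (.b (.a (.l 8) .z) (.l 8)))) (.l 8)) (.a (.l 8) (.c (.l 8) (.a (.l 8) (.c (.a (.l 8) .z) .z))))))
(.a (.l 8) (.c (.l 8) (.a (.l 8) (.c (.a (.l 8) (.c (.l 8) (.a (.l 8) .z))) (.a (.c (.l 8) (.a (.l 8) .z)) .z)))))) (.a (.c (.b (.a (.c (.l 8) (.b (.a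
(.c (.l 8) .z) (.l 8)) (.l 8))) (.l 8)) (.l 8)) (.a (.c (.b (.b .z (.a (.c (.l 8) .z) (.l 8))) (.l 8)) (.a (.b .z (.b .z (.l 8))) (.c (.a (.b .z (.l
8)) (.b .z (.l 8))) (.a (.b .z (.l 8)) .z)))) (.c (.a (.c (.l 8) (.a (.b .z (.l 8)) (.b .z (.l 8)))) (.c (.a (.l 8) .z) .z)) (.a (.c .z (.a .z (.b (.l
11) .z))) (.c (.a .z (.l 11)) (.l 11)))))) (.c (.a (.c (.a (.l 8) (.c (.l 8) (.a (.l 8) .z))) (.a (.c (.l 8) (.a (.a (.l 8) .z) .z)) (.c .z (.a (.a .z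
(.l 11)) (.l 11))))) (.c (.a (.c (.a (.a (.l 8) .z) .z) (.a .z (.a .z (.l 9)))) (.c (.a (.a .z (.l 9)) (.l 9)) (.l 9))) (.c (.a (.a (.a .z (.l 9)) (.l
9)) (.l 9)) .z))) (.a (.c (.a (.c (.a .z (.a .z (.l 11))) (.l 11)) (.l 11)) (.l 11)) (.l 11))))) (.c (.a (.c (.a (.c (.a .z (.c .z (.b (.l 11) (.a .z
(.l 11))))) (.a (.c (.b (.l 11) .z) (.l 11)) (.l 11))) (.l 11)) (.l 11)) (.l 11)) (.c (.l 11) (.c (.b (.l 11) (.c (.b (.l 11) (.a (.l 11) (.b (.a (.l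
11) .z) .z))) (.b (.a (.l 11) (.b (.a (.l 11) .z) .z)) (.a (.b (.a (.l 11) .z) .z) .z)))) (.b (.c (.b (.l 11) (.a (.l 11) (.b (.a (.l 11) .z) .z)))
(.b (.a (.l 11) (.b (.a (.l 11) .z) .z)) (.a (.b (.a (.l 11) .z) .z) .z))) (.c (.b (.a (.b (.a (.l 11) .z) .z) .z) .z) .z))))))))

theorem vQ117 : ev3 Q117 J4_2 J4_8 J3_6 = 363487360599748744220989 := by decide +kernel

noncomputable def Q132 : QT3 :=
(.a (.b (.a (.b (.c (.c (.b (.c (.a (.c (.a (.c (.l 15) .z) .z) (.a .z (.c (.a .z (.l 13)) .z))) (.c (.a (.c (.a .z (.l 13)) (.l 13)) (.l 13)) (.c (.l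
13) .z))) (.a .z (.c (.c (.c (.l 15) .z) .z) .z))) (.a (.c (.c (.a .z (.c .z (.a .z (.l 13)))) (.a .z (.c (.c (.l 13) .z) .z))) .z) (.c (.c (.l 13)
(.c (.l 13) .z)) .z))) .z) .z) (.c (.c (.b (.a (.c (.c (.a .z (.c .z (.l 13))) (.a .z (.c (.c (.l 13) .z) .z))) .z) (.c (.a (.c (.l 13) (.c (.l 13)
.z)) (.b (.c (.l 13) (.c (.l 13) .z)) (.c (.a (.l 13) .z) .z))) .z)) (.a (.c (.b (.a .z (.c (.a .z (.l 13)) (.c (.l 13) .z))) (.a .z (.c (.b (.l 13)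
.z) .z))) .z) (.c (.a (.b (.c (.b (.l 13) .z) .z) .z) .z) (.a (.b .z (.c .z (.l 15))) (.b (.c .z (.l 15)) (.l 15)))))) (.b .z (.a .z (.c (.c .z (.c
(.c .z (.l 21)) (.c (.l 21) .z))) .z)))) .z)) (.b (.c (.c (.a (.b (.c (.a (.c (.l 13) (.c (.l 13) (.c (.l 13) .z))) (.c (.a (.b .z (.l 13)) .z) (.c
(.l 13) (.c (.l 13) .z)))) .z) (.c (.a (.c (.l 13) (.c (.l 13) (.c (.l 13) .z))) (.b (.c (.l 13) .z) (.c (.a (.l 13) .z) .z))) .z)) (.b .z (.c .z (.a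
(.b .z (.c .z (.l 15))) (.c (.c .z (.l 15)) (.l 15)))))) (.a (.b .z (.a .z (.c (.b .z (.c .z (.l 21))) .z))) (.b .z (.c (.c (.c (.c (.l 15) .z) .z)
(.c (.c .z (.l 21)) .z)) (.c .z (.c (.l 26) .z)))))) .z) (.c (.c (.a (.b (.c (.a (.b (.c (.a (.l 13) .z) .z) .z) .z) (.a (.b .z (.c .z (.l 15))) (.b
(.c .z (.l 15)) (.c .z (.l 15))))) (.c (.a .z (.c .z (.c .z (.l 16)))) (.c (.c .z (.l 15)) (.l 15)))) (.b (.c .z (.c (.c .z (.c .z (.l 15))) (.l 15)))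
(.c (.c .z (.c .z (.l 16))) (.c (.c .z (.c .z (.l 15))) (.l 15))))) (.c (.c (.c (.c (.b (.b (.l 15) .z) .z) .z) .z) (.c (.a (.c .z (.l 21)) (.c .z (.a
(.l 21) .z))) (.c (.b (.l 21) .z) .z))) .z)) .z))) (.a (.b (.c (.c (.b (.a (.c .z (.b (.a .z (.c .z (.l 15))) (.a (.c .z (.l 15)) (.c (.l 15) .z))))
(.c (.a (.b .z (.c (.c (.l 11) .z) .z)) (.c (.c (.l 11) .z) .z)) (.c (.l 15) (.c (.l 15) (.c (.l 15) .z))))) (.a (.c (.b (.a .z (.c (.l 11) .z)) (.c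
(.l 11) .z)) (.c (.l 15) (.c (.l 15) .z))) (.c (.c (.c (.l 11) (.c (.l 11) (.b .z (.l 11)))) .z) (.c (.c (.c .z (.l 15)) (.l 15)) (.c (.l 15) .z)))))
.z) .z) (.c (.c (.c (.c (.l 11) (.c (.a (.c (.l 11) (.a .z (.b .z (.l 11)))) (.b (.c (.l 11) (.b .z (.l 11))) (.l 11))) (.a (.c .z (.a (.l 15) .z))
(.c (.a .z (.b .z (.l 11))) .z)))) (.c (.c (.a (.l 15) (.c (.a (.l 15) .z) (.l 15))) (.l 15)) (.c (.b (.c (.l 15) (.b (.l 15) .z)) .z) .z))) (.c .z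
(.b (.c (.a (.c (.b (.l 23) .z) .z) .z) (.a .z (.b .z (.c (.l 23) .z)))) (.c (.a .z (.c (.b .z (.l 23)) (.l 23))) (.a (.b (.c .z (.l 23)) (.l 23)) (.c
(.a (.l 23) .z) .z)))))) .z)) (.c (.c (.c (.c (.b (.c (.b (.c (.l 11) (.b .z (.l 11))) (.l 11)) (.b .z (.c (.b (.a (.l 11) .z) (.l 11)) (.b .z (.a (.l
11) .z))))) (.l 11)) (.c (.b (.b (.l 16) (.c .z (.b (.l 16) .z))) (.b (.c (.b (.a (.l 11) .z) (.l 11)) (.b .z (.b .z (.l 11)))) (.l 11))) (.a (.c (.b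
(.l 16) (.b .z (.l 11))) (.a .z (.b (.l 16) .z))) (.b (.l 16) (.b .z (.b .z (.c (.l 11) .z))))))) (.b (.c (.c (.a (.c .z (.a (.l 15) .z)) (.c (.l 16)
.z)) (.a (.l 15) (.c .z (.a (.l 15) .z)))) (.c (.b (.l 15) (.c (.l 15) (.b (.l 15) .z))) (.b (.c (.b (.l 15) .z) .z) .z))) (.c (.b (.c (.a .z (.c (.l
16) .z)) (.a (.l 15) .z)) (.a (.c .z (.c .z (.l 15))) .z)) (.b (.a (.c (.c (.l 15) .z) .z) .z) .z)))) (.c (.b .z (.c .z (.a (.b .z (.c .z (.a (.l 23)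
.z))) .z))) (.b .z (.a (.b (.c (.c (.b .z (.l 23)) (.a (.l 23) .z)) .z) (.c (.c (.a (.l 23) .z) .z) .z)) (.c .z (.c .z (.a .z (.l 27)))))))) (.b (.c
(.c (.a .z (.c (.c (.c (.l 27) .z) .z) .z)) .z) .z) .z)))) (.b (.a (.b (.c (.a (.c (.b (.c .z (.a (.b .z (.c .z (.l 15))) .z)) (.c .z (.c .z (.l
15)))) (.b (.c (.b .z (.c (.c (.l 15) .z) .z)) .z) (.c (.c (.c (.c (.l 15) .z) .z) .z) (.c .z (.a (.c (.l 26) .z) .z))))) (.c (.c (.b (.c .z (.c .z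
(.a .z (.c (.l 13) .z)))) .z) (.b .z (.c .z (.b .z (.c .z (.l 15)))))) (.b .z (.c (.c (.c (.c (.l 15) .z) .z) .z) .z)))) (.c (.c (.a .z (.b .z (.c (.c
(.l 27) .z) .z))) .z) .z)) (.c (.c (.c .z (.c (.c (.a (.c (.b .z (.l 16)) .z) .z) (.a .z (.c (.b .z (.l 16)) .z))) (.c (.a (.c (.a (.l 15) .z) (.l
15)) .z) (.a (.c (.l 15) (.b (.l 15) .z)) (.c (.a (.l 15) .z) (.b (.l 15) .z)))))) .z) (.c (.c (.a (.b .z (.c (.c (.l 27) .z) .z)) (.c (.c (.l 27) .z)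
.z)) .z) .z))) (.c (.c (.b (.c (.b (.c (.a .z (.c (.a .z (.c .z (.l 13))) (.a (.c .z (.l 13)) (.l 13)))) (.a (.c (.a (.c .z (.l 13)) (.l 13)) (.c (.l
13) .z)) (.c (.l 13) (.c (.b (.l 13) .z) .z)))) (.a (.c (.c (.a .z (.l 15)) .z) .z) (.c (.c .z (.a .z (.l 13))) (.c (.c (.l 13) .z) .z)))) .z) (.c (.b
(.a (.c (.b (.c (.l 15) .z) .z) .z) .z) .z) (.b .z (.a .z (.c .z (.a .z (.c .z (.l 17)))))))) (.b .z (.b (.c (.a .z (.b (.c .z (.c (.l 17) .z)) (.c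
(.a .z (.l 17)) .z))) .z) (.c (.a .z (.c (.l 17) .z)) (.c .z (.a .z (.c .z (.l 27)))))))) (.b (.b .z (.c (.c (.c (.c (.l 27) .z) .z) .z) .z)) (.c (.c
(.c (.c (.c (.l 27) (.b (.l 27) .z)) .z) .z) .z) .z)))) (.c (.c (.b (.a (.c (.c (.c (.b (.c (.b .z (.l 11)) .z) (.c (.l 11) (.b (.a (.l 11) .z) (.l
11)))) (.b .z (.c (.b .z (.a (.l 11) .z)) .z))) (.c (.b .z (.c .z (.a (.l 16) .z))) (.a (.l 16) (.b .z (.a (.l 16) .z))))) (.c (.a (.c (.l 16) (.c (.a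
.z (.l 16)) .z)) (.b (.c (.a (.l 16) .z) (.l 16)) (.c (.l 16) (.a (.l 16) .z)))) (.a (.b (.c (.c .z (.l 15)) .z) .z) .z))) (.c (.b .z (.c (.a (.c (.c
(.l 11) (.b .z (.l 11))) .z) (.c (.c (.b .z (.l 11)) .z) .z)) .z)) (.a (.c .z (.b .z (.a (.c .z (.l 17)) (.l 17)))) (.c (.b .z (.a (.c .z (.l 17)) (.c
.z (.l 17)))) (.b (.a (.c .z (.l 17)) (.l 17)) (.l 17)))))) (.c (.a (.c (.a (.l 11) (.b (.c (.l 11) (.c (.l 11) (.b .z (.l 11)))) (.c (.l 11) (.a (.l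
11) (.b (.l 11) .z))))) (.a (.b (.c (.c (.b .z (.l 11)) .z) (.b (.l 16) .z)) (.c (.l 11) .z)) .z)) (.c (.a (.b (.c (.l 11) (.a (.c (.l 11) .z) .z))
(.c (.a (.b (.l 11) .z) .z) .z)) (.b (.c (.a (.b (.l 11) .z) .z) .z) .z)) (.a .z (.b (.a .z (.c .z (.l 15))) (.c (.l 15) (.c (.l 15) .z)))))) (.a (.c
(.a (.b (.c (.l 16) .z) .z) (.b .z (.c .z (.a .z (.l 17))))) (.a (.b .z (.c .z (.a .z (.l 17)))) (.b (.c .z (.l 17)) (.l 17)))) (.a (.c (.b (.a .z (.c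
.z (.l 17))) (.l 17)) (.l 17)) (.c (.c (.c .z (.l 17)) (.l 17)) (.l 17)))))) (.a (.c (.b (.c (.a .z (.b .z (.a (.c .z (.l 17)) (.c (.l 17) .z)))) .z)
(.a (.c (.b (.c (.a .z (.l 17)) (.c (.l 17) .z)) (.c (.l 17) .z)) .z) (.c (.c (.b (.l 17) (.c (.l 17) .z)) .z) .z))) (.b (.a (.c .z (.c .z (.c .z (.l
27)))) (.c (.c (.c .z (.a (.l 22) .z)) .z) (.c .z (.l 27)))) (.c .z (.c (.c (.b .z (.l 27)) (.l 27)) (.c (.l 27) (.b (.l 27) .z)))))) (.c (.b (.a (.c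
(.b (.a (.c .z (.l 17)) (.l 17)) (.c (.l 17) (.c (.l 17) .z))) .z) (.c (.c (.l 17) (.c (.l 17) (.b (.l 17) .z))) .z)) (.c (.c (.b (.l 17) (.c (.l 17)
.z)) .z) .z)) (.c (.c (.a (.b .z (.a .z (.l 25))) (.b .z (.a (.l 25) (.b .z (.l 25))))) (.a .z (.b .z (.a (.c (.l 25) .z) .z)))) (.a (.c .z (.b (.l
27) (.c (.l 27) .z))) (.b (.c .z (.a (.l 27) .z)) .z)))))) (.c (.c (.a (.c (.b (.c (.c (.b (.l 27) .z) .z) .z) .z) .z) .z) .z) .z))))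

theorem vQ132 : ev3 Q132 J3_1 J4_10 J3_7 = 107765900719595443401548 := by decide +kernel

noncomputable def Q154 : QT3 :=
(.c (.a (.b (.c (.c (.b (.l 19) (.a (.l 19) (.b (.l 19) (.a (.l 19) (.b (.a (.l 19) .z) .z))))) (.c (.b (.l 19) (.a (.l 19) (.b (.l 19) (.a (.l 19)
.z)))) (.b (.l 19) (.c (.a (.l 19) (.b (.l 19) (.a (.l 19) .z))) (.b (.l 19) (.c (.a (.l 19) .z) .z)))))) (.b (.a (.c (.c (.c (.l 19) (.b (.c (.l 19)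
.z) .z)) (.c .z (.l 11))) (.l 11)) (.c (.c (.c (.l 19) (.b (.l 19) (.c (.l 19) .z))) (.c .z (.l 11))) (.b (.l 11) (.a (.l 11) (.c (.l 11) (.b (.l 11)
(.a (.l 11) .z))))))) (.a (.c (.c (.c (.b (.c (.l 19) .z) .z) (.b .z (.l 38))) (.c (.c (.l 38) .z) (.l 11))) (.b (.l 11) (.a (.l 11) (.c (.l 11) (.b
(.l 11) (.a (.l 11) .z)))))) (.c (.b (.c (.c (.c (.l 19) .z) .z) (.c .z (.l 11))) (.a (.c .z (.c .z (.l 11))) .z)) (.b (.a (.c (.l 11) (.b (.l 11) (.a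
(.l 11) .z))) (.c (.b (.l 11) (.a (.l 11) .z)) .z)) (.a (.c (.b (.l 11) (.a (.l 11) .z)) .z) .z)))))) (.c (.a (.b (.c (.b (.a (.l 19) (.b (.l 19) (.a
(.l 19) .z))) (.a (.b (.a (.l 19) .z) .z) .z)) (.c (.c (.b (.a (.l 19) .z) .z) (.b (.a (.l 19) .z) .z)) .z)) .z) .z) (.a (.b (.c (.b (.c .z (.c .z (.l
11))) (.a (.c .z (.c .z (.l 11))) .z)) (.b (.a (.c (.l 11) (.b (.l 11) (.a (.l 11) .z))) (.c (.b (.l 11) (.a (.l 11) .z)) .z)) (.a (.c (.b (.l 11) (.a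
(.l 11) .z)) .z) .z))) .z) .z))) (.b (.c (.a (.b (.b (.l 19) (.a (.l 19) (.b (.l 19) (.a (.l 19) (.b (.l 19) .z))))) (.c (.a (.b (.b (.l 19) (.a (.l
19) .z)) .z) .z) (.a (.b (.b (.l 19) (.a (.l 19) .z)) .z) .z))) (.b (.c (.a (.b (.b (.l 19) (.a (.l 19) .z)) .z) .z) (.a (.b (.b (.l 19) (.a (.l 19)
.z)) .z) .z)) .z)) (.a (.b (.c (.b (.c (.l 19) (.c .z (.l 11))) (.a (.c (.c (.l 19) .z) (.c .z (.l 11))) (.c (.b (.l 19) .z) .z))) (.b (.a (.c (.l 11)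
(.b (.l 11) (.a (.l 11) .z))) (.c (.b (.l 11) (.a (.l 11) .z)) .z)) (.a (.c (.b (.l 11) (.a (.l 11) .z)) .z) .z))) (.c .z (.a .z (.b .z (.c .z (.a .z
(.l 25))))))) (.b (.c (.a (.b (.c (.b (.l 19) .z) .z) .z) .z) (.a .z (.b .z (.a (.b .z (.l 25)) (.l 25))))) (.c .z (.a (.b (.a (.b .z (.l 25)) (.l
25)) (.l 25)) (.l 25)))))) (.c .z (.a (.b (.c .z (.c (.c .z (.b (.a .z (.l 25)) .z)) (.c (.b (.a .z (.l 25)) (.a .z (.l 25))) (.a (.b .z (.l 25)) (.l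
25))))) (.c .z (.c .z (.a .z (.c .z (.l 25)))))) (.c (.c .z (.c .z (.a .z (.a .z (.c .z (.l 25)))))) (.c (.a (.c (.b (.c .z (.l 25)) .z) (.b (.l 25)
(.a .z (.l 25)))) (.c (.b (.l 25) (.a .z (.l 25))) (.l 25))) (.l 25))))))) (.a (.b (.c (.b (.a (.c (.l 11) (.b (.a (.l 11) (.c (.l 11) (.b (.l 11)
.z))) (.a (.c (.l 11) (.b (.a (.l 11) .z) .z)) (.c (.b (.a (.l 11) .z) .z) .z)))) (.c (.b (.a (.l 11) (.c (.b (.l 11) (.a (.l 11) .z)) (.b (.a (.l 11)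
.z) .z))) (.a (.c (.b (.l 11) (.a (.l 11) .z)) (.b (.a (.l 11) .z) .z)) .z)) (.b (.a (.c (.b (.a (.l 11) .z) .z) .z) .z) .z))) (.a (.c (.b (.a (.l 11)
(.c (.b (.l 11) (.a (.l 11) .z)) (.b (.a (.l 11) .z) .z))) (.a (.c (.b (.l 11) (.a (.l 11) .z)) (.b (.a (.l 11) .z) .z)) .z)) (.b (.a (.c (.b (.a (.l
11) .z) .z) .z) .z) .z)) .z)) (.b (.a (.c (.b (.a (.c (.b (.l 11) (.a (.l 11) .z)) .z) .z) .z) .z) .z) .z)) (.c (.a .z (.c (.b .z (.c .z (.b (.a .z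
(.a .z (.l 25))) (.a .z (.l 25))))) (.b .z (.a (.b .z (.a .z (.b .z (.l 25)))) (.b (.a (.b .z (.l 25)) (.l 25)) (.l 25)))))) (.c (.a .z (.b (.a .z (.b
.z (.a .z (.b .z (.l 25))))) (.a (.b .z (.a .z (.l 25))) (.b (.a (.b .z (.l 25)) (.l 25)) (.l 25))))) (.b (.a .z (.a .z (.b .z (.a .z (.b .z (.l
25)))))) (.c (.a .z (.a (.b .z (.a .z (.l 25))) (.b (.a .z (.l 25)) (.l 25)))) (.b (.a .z (.a .z (.a .z (.l 25)))) (.c (.a .z (.a .z (.l 25)))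
.z))))))) (.b (.c (.a (.b .z (.a .z (.b (.a .z (.b .z (.a .z (.l 25)))) (.a (.b .z (.l 25)) (.l 25))))) (.b (.a (.b .z (.a .z (.b .z (.a .z (.l
25))))) (.b (.a .z (.b .z (.a .z (.l 25)))) (.a (.b (.a .z (.l 25)) (.l 25)) (.l 25)))) (.a (.b (.a (.b (.a .z (.l 25)) (.l 25)) (.l 25)) (.l 25)) (.l
25)))) (.a (.b .z (.a .z (.b (.a .z (.b .z (.a .z (.l 25)))) (.a (.b .z (.l 25)) (.l 25))))) (.b (.a (.b .z (.a .z (.b .z (.a .z (.l 25))))) (.b (.a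
.z (.b .z (.a .z (.l 25)))) (.a (.b (.a .z (.l 25)) (.l 25)) (.l 25)))) (.a (.b (.a (.b (.a .z (.l 25)) (.l 25)) (.l 25)) (.l 25)) (.l 25))))) (.c (.c
(.b (.a (.a (.b (.a .z (.b .z (.l 25))) (.l 25)) (.l 25)) (.l 25)) (.a (.c (.b (.l 25) (.a (.c .z (.l 25)) (.l 25))) (.l 25)) (.l 25))) (.a (.b (.a
(.b (.a .z (.b .z (.l 25))) (.l 25)) (.l 25)) (.l 25)) (.l 25))) (.c (.a (.b (.a (.b (.a .z (.b .z (.l 25))) (.l 25)) (.l 25)) (.l 25)) (.l 25)) (.b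
(.c (.a (.a (.b .z (.l 25)) (.l 25)) (.l 25)) (.a (.a (.b (.a .z (.l 25)) (.l 25)) (.l 25)) (.b (.l 25) (.c (.l 25) (.a (.l 25) .z))))) (.c (.b (.l
25) (.c (.l 25) (.a (.l 25) (.b (.l 25) .z)))) (.b (.c (.l 25) (.a (.b (.l 25) .z) .z)) (.c (.a (.b (.l 25) .z) .z) .z)))))))))

theorem vQ154 : ev3 Q154 J4_7 J4_8 J3_5 = 175714911902434356798991 := by decide +kernel

noncomputable def Q39 : QT3 :=
(.a (.b (.a (.c (.a (.c .z (.b .z (.b (.c .z (.l 39)) .z))) (.c .z (.b .z (.a (.c .z (.b (.l 39) .z)) .z)))) (.a (.b (.c (.c (.a (.b .z (.l 39)) .z)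
.z) .z) (.c (.a (.l 39) (.b (.c (.l 39) .z) (.c .z (.l 39)))) (.a (.b .z (.c (.l 39) .z)) .z))) .z)) (.c (.a (.c (.a (.b .z (.b .z (.a .z (.l 34))))
(.c (.b .z (.l 34)) .z)) (.b (.a (.c .z (.b (.c (.l 14) .z) .z)) (.c (.a (.b (.l 14) .z) (.l 14)) (.b (.l 14) .z))) .z)) (.c (.a (.c (.b (.a .z (.c .z
(.l 14))) .z) (.b (.a (.c .z (.l 14)) (.l 14)) (.a .z (.c .z (.l 14))))) (.c (.a (.b (.l 14) (.c .z (.l 14))) (.l 14)) (.l 14))) (.b (.l 14) (.c (.a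
(.b (.l 14) .z) (.l 14)) (.a .z (.b (.l 14) .z)))))) (.a .z (.c (.b (.c (.b (.a (.c (.l 14) .z) (.l 14)) (.a .z (.c (.l 14) .z))) .z) .z) .z)))) (.c
(.a (.b (.a .z (.b (.a .z (.c (.a .z (.l 34)) .z)) (.a (.c (.a .z (.l 34)) .z) (.l 34)))) (.a (.b (.a .z (.c (.b .z (.l 34)) .z)) (.a (.b .z (.a .z
(.l 34))) (.l 34))) (.l 34))) (.a (.c (.a (.l 34) (.b (.c (.l 34) (.a (.l 34) .z)) (.l 34))) (.a (.b (.c (.l 34) (.a (.l 34) .z)) (.l 34)) (.b .z (.c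
(.l 34) .z)))) (.c (.a (.c (.b (.a (.l 34) .z) (.l 34)) (.b .z (.a (.l 34) .z))) (.c (.a .z (.b (.c .z (.l 14)) .z)) (.a .z (.b (.l 14) .z)))) (.a .z
(.b (.c (.b (.c (.l 14) .z) .z) .z) .z))))) (.b (.a (.a (.c .z (.a (.b (.l 39) .z) .z)) .z) (.a .z (.c .z (.a .z (.c .z (.l 46)))))) (.a (.a (.b .z
(.a .z (.b .z (.c (.l 34) .z)))) (.c (.b (.a (.b .z (.l 34)) (.l 34)) (.l 34)) (.a (.b .z (.l 34)) (.b .z (.a (.l 34) .z))))) (.c (.a (.a (.a (.b .z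
(.l 34)) .z) .z) .z) .z))))) (.b (.c (.a (.l 14) (.c (.a (.l 14) (.c (.a (.b (.l 14) (.c .z (.a (.l 14) .z))) (.b (.c .z (.a (.l 14) .z)) .z)) (.a (.l
14) (.b (.l 14) (.c (.a (.l 14) .z) (.l 14)))))) (.l 14))) (.a (.a (.c (.b (.c (.l 14) (.a (.b (.l 14) (.c (.l 14) .z)) (.l 14))) (.c (.a (.b (.c (.l
14) .z) .z) (.l 14)) (.a .z (.b (.c (.l 14) .z) .z)))) (.b (.c (.a .z (.b (.l 14) .z)) .z) (.a (.c .z (.c (.l 46) .z)) (.c .z (.b .z (.l 46)))))) (.c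
(.l 14) (.b (.a (.c (.l 14) (.b (.c (.l 14) .z) .z)) (.l 14)) (.a (.c (.b (.a .z (.l 14)) .z) .z) (.c (.l 14) (.a .z (.b (.l 14) .z))))))) (.b (.c (.l
14) (.a (.l 14) (.b (.l 14) (.c (.l 14) (.a (.l 14) .z))))) (.c (.a (.l 14) (.b (.l 14) (.c (.l 14) (.a (.l 14) .z)))) (.a (.b (.c (.l 14) (.a (.l 14)
(.b (.l 14) .z))) (.c (.a (.l 14) (.b (.l 14) .z)) (.a (.b (.l 14) .z) .z))) (.b (.c (.a (.l 14) .z) .z) .z)))))) (.c (.a (.b (.a (.c (.l 14) (.a (.c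
(.b (.l 14) (.c (.l 14) .z)) .z) (.c (.l 14) (.b (.l 14) (.a .z (.l 14)))))) (.l 14)) (.c (.a (.a (.c (.a (.c .z (.l 14)) (.l 14)) (.b (.a .z (.l 14))
.z)) (.l 14)) (.l 14)) (.a (.a .z (.c (.b (.l 14) .z) .z)) (.b (.l 14) (.c (.l 14) (.a (.a .z (.l 14)) (.b (.l 14) .z))))))) (.b (.c (.a (.c (.a (.l
14) (.c (.a (.l 14) .z) (.l 14))) (.l 14)) (.c .z (.a (.c (.a (.l 14) .z) (.l 14)) .z))) (.a (.l 14) (.b (.l 14) (.c (.a (.l 14) (.a (.l 14) .z)) (.a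
(.b (.l 14) .z) .z))))) (.c (.a (.a (.l 14) (.c (.a (.c .z (.l 14)) .z) (.l 14))) .z) (.a (.b (.c (.l 14) (.a (.l 14) (.b (.l 14) .z))) (.c (.a (.l
14) .z) .z)) (.b (.c (.a (.b (.l 14) .z) .z) (.a .z (.b .z (.c .z (.l 10))))) (.c (.a .z (.b .z (.c .z (.l 10)))) (.a (.b (.c .z (.l 10)) (.l 10)) (.l
10)))))))) (.a (.b (.c (.a .z (.a (.c (.b (.l 14) (.a .z (.l 14))) (.b (.a .z (.l 14)) .z)) (.l 14))) (.a (.b (.a (.l 46) (.c .z (.l 46))) (.c (.l 46)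
(.a (.l 46) .z))) (.b (.c (.a .z (.a .z (.l 14))) .z) (.c .z (.a .z (.b .z (.c .z (.l 10)))))))) (.c (.a (.b (.a .z (.c .z (.l 46))) .z) (.b (.c (.a
.z (.b (.l 14) .z)) .z) (.c .z (.a .z (.b .z (.c .z (.l 10))))))) (.a (.b (.c (.a (.l 46) .z) .z) (.c .z (.a (.b .z (.c .z (.l 10))) (.b (.c .z (.l
10)) (.l 10))))) (.b (.c (.a .z (.b .z (.c .z (.l 10)))) (.a (.b .z (.l 10)) (.l 10))) (.c (.a (.b (.c .z (.l 10)) (.l 10)) (.l 10)) (.l 10)))))) (.b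
(.c (.a (.b (.c (.l 14) (.a (.l 14) (.b (.l 14) .z))) (.c (.a (.l 14) (.b (.l 14) .z)) .z)) (.b (.c (.a (.b (.l 14) .z) .z) (.a .z (.b .z (.c .z (.l
10))))) (.c (.a .z (.b .z (.c .z (.l 10)))) (.a (.b .z (.c .z (.l 10))) (.l 10))))) (.a (.b (.c (.a (.b (.l 14) .z) .z) (.a .z (.b .z (.c .z (.l
10))))) (.c (.a .z (.b (.c .z (.l 10)) (.l 10))) (.a (.b (.c .z (.l 10)) (.l 10)) (.l 10)))) (.b (.c (.a (.b .z (.c .z (.l 10))) (.b (.c .z (.l 10))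
(.l 10))) (.c (.l 10) (.c (.b .z (.l 10)) .z))) (.c (.l 10) (.c (.l 10) (.c (.l 10) (.a (.l 10) .z))))))) (.c (.a (.b (.c .z (.a .z (.b (.c .z (.l
10)) (.l 10)))) (.c (.a (.b .z (.c .z (.l 10))) (.b (.c .z (.l 10)) (.l 10))) (.l 10))) (.b (.c (.a (.b .z (.c .z (.l 10))) (.l 10)) (.l 10)) (.l
10))) (.a (.b (.c (.a (.b (.c .z (.l 10)) (.l 10)) (.l 10)) (.l 10)) (.l 10)) (.l 10))))))))

theorem vQ39 : ev3 Q39 J3_1 J4_6 J4_10 = 229834985014356397696939 := by decide +kernel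

noncomputable def Q46 : QT3 :=
(.c (.c (.a (.c (.b (.c (.b .z (.a (.c (.b (.b (.a (.l 12) .z) (.l 12)) (.l 12)) (.b .z (.b (.a (.l 12) .z) (.l 12)))) (.c (.a (.b .z (.a (.l 12) .z))
.z) (.b (.a .z (.l 22)) .z)))) (.b (.a (.b (.b (.a (.l 16) .z) (.l 16)) (.l 16)) .z) (.a (.c .z (.b (.l 16) .z)) (.c (.b .z (.a .z (.l 22))) .z))))
(.c (.b (.a (.l 12) (.a (.c (.l 12) (.b (.a (.l 12) .z) (.l 12))) (.c (.b (.a (.l 12) .z) (.l 12)) .z))) (.a (.l 12) (.a (.l 12) (.c (.l 12) (.b (.a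
(.l 12) .z) (.l 12)))))) (.b (.a (.c (.b (.b .z (.a (.l 12) .z)) (.l 12)) (.b .z (.b .z (.a (.l 12) .z)))) (.c .z (.b (.a .z (.l 22)) .z))) (.a (.l
12) (.a (.c (.l 12) (.b .z (.a (.l 12) .z))) (.c (.b .z (.a (.l 12) .z)) .z)))))) (.b (.c (.b (.a (.l 16) (.a (.b .z (.a (.l 16) .z)) .z)) (.a (.l 16)
(.c (.b (.a (.l 16) .z) .z) (.b (.a (.l 16) .z) (.a (.l 16) .z))))) (.a (.l 16) (.b (.a (.b (.a (.l 16) .z) (.l 16)) .z) (.a (.l 16) (.a (.l 16) (.b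
.z (.l 16))))))) (.b (.c (.a (.c .z (.b (.l 16) .z)) (.b .z (.c (.a .z (.l 22)) .z))) (.a (.l 16) (.b (.c (.a (.l 16) .z) (.l 16)) (.a (.c .z (.l 16))
.z)))) (.c (.a (.b (.c (.b .z (.a (.l 12) .z)) .z) (.c (.l 12) (.b .z (.a (.l 12) .z)))) (.b (.a .z (.l 22)) (.a .z (.c .z (.l 22))))) (.a (.b (.c .z
(.l 16)) .z) (.b .z (.a .z (.c (.l 22) .z)))))))) (.b (.c (.a (.c (.b (.a (.c (.b .z (.l 22)) (.b .z (.l 22))) (.b .z (.l 22))) (.a (.c (.a .z (.l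
22)) (.l 22)) (.l 22))) (.b (.a .z (.c (.b .z (.l 22)) .z)) (.a (.c (.l 22) (.b .z (.l 22))) (.l 22)))) (.b (.b (.c (.b .z (.c (.l 22) .z)) .z) (.c
(.l 22) (.b (.c (.l 22) .z) (.l 22)))) (.l 22))) (.a (.b .z (.c (.a .z (.b .z (.c (.l 22) .z))) .z)) (.b .z (.a (.c (.l 22) (.b .z (.a .z (.l 22))))
(.b (.b (.c (.l 22) .z) (.l 22)) (.l 22)))))) (.a (.c (.a (.c (.b (.c .z (.a .z (.l 22))) (.c (.a (.b .z (.l 12)) .z) .z)) (.b (.l 22) (.c .z (.a .z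
(.l 22))))) (.c (.a (.b (.c .z (.l 22)) .z) (.b (.l 22) (.c .z (.l 22)))) (.l 22))) (.b (.c (.a (.b (.c (.l 22) .z) (.l 22)) (.l 22)) (.a .z (.b .z
(.l 22)))) (.c (.l 22) (.a (.b (.c (.l 22) .z) (.l 22)) (.l 22))))) (.l 22)))) (.a (.b (.a (.l 16) (.b (.a (.l 16) (.c (.a (.b .z (.l 16)) .z) (.a (.l
16) (.b .z (.l 16))))) (.l 16))) (.c (.b (.l 16) (.c (.a (.l 16) (.b (.a (.l 16) (.c .z (.l 16))) (.a (.c .z (.l 16)) .z))) (.a (.l 16) (.b (.l 16)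
(.a (.l 16) (.c .z (.l 16))))))) (.l 16))) (.b (.c (.a (.b .z (.c .z (.a (.a (.b .z (.l 16)) .z) (.l 70)))) (.b .z (.a .z (.c (.b .z (.a .z (.l 22)))
.z)))) (.a (.a (.b .z (.a (.b (.a (.l 16) .z) (.l 16)) .z)) .z) (.b .z (.a (.l 70) .z)))) (.a (.c (.b (.c .z (.a (.a (.l 16) (.a (.l 16) .z)) .z)) (.c
(.a .z (.b (.a .z (.l 22)) (.l 22))) (.a (.b (.c .z (.l 16)) .z) .z))) (.b (.a (.a (.l 16) (.a (.l 16) (.b .z (.l 16)))) .z) (.a (.l 16) (.c .z (.b .z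
(.a (.l 16) .z)))))) (.c (.b (.a (.c (.b .z (.a .z (.l 22))) .z) (.c (.l 22) (.b .z (.l 22)))) (.a (.c (.l 22) (.b (.a .z (.l 22)) (.l 22))) (.l 22)))
(.b (.a (.c .z (.l 70)) .z) (.a .z (.c (.b (.a .z (.l 22)) (.l 22)) (.b .z (.a .z (.l 22))))))))))) (.c (.b (.a (.l 16) (.a (.a (.b (.a (.c (.b .z (.l
16)) (.l 16)) (.c .z (.b .z (.a (.l 16) .z)))) (.a (.l 16) (.c (.b (.a (.l 16) .z) (.l 16)) (.l 16)))) (.a (.b .z (.c .z (.a (.b .z (.l 16)) .z)))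
.z)) (.c (.a .z (.b .z (.c (.l 70) .z))) .z))) (.a (.l 16) (.a (.c (.a (.l 16) (.a (.b (.a (.l 16) .z) (.l 16)) .z)) (.a (.l 16) (.b (.a (.l 16) .z)
(.c (.a (.l 16) (.a (.l 16) .z)) (.a (.l 16) .z))))) (.c (.b (.a (.c (.l 70) .z) .z) .z) .z)))) (.a (.c (.l 16) (.b (.l 16) (.a (.l 16) (.c (.a (.l
16) (.b (.l 16) (.a (.l 16) (.c (.l 16) .z)))) (.a (.b (.l 16) (.c (.l 16) (.a (.l 16) .z))) (.b (.c (.l 16) (.a (.l 16) .z)) .z)))))) (.a (.c (.b (.a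
(.b (.a (.l 16) (.b (.a (.l 16) .z) (.l 16))) (.l 16)) (.c (.a (.b .z (.a (.l 16) .z)) .z) (.b .z (.a (.l 16) .z)))) (.a (.c (.l 16) (.b (.l 16) (.a
(.l 16) .z))) (.b (.c (.a (.l 16) .z) (.a (.c (.l 16) .z) .z)) (.c (.a (.b (.l 16) .z) .z) .z)))) (.b (.a (.c (.l 16) (.b (.l 16) (.a (.c (.l 16) .z)
.z))) (.c (.b (.a (.a (.l 16) .z) .z) (.a (.c (.l 16) .z) .z)) (.b .z (.a .z (.c .z (.l 10)))))) (.a (.c (.b (.a (.c (.l 16) .z) .z) .z) (.b (.a .z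
(.c .z (.b .z (.l 10)))) .z)) (.b (.c (.a .z (.b .z (.c .z (.l 10)))) (.a (.c (.b .z (.l 10)) (.l 10)) (.l 10))) (.c .z (.a (.b (.c .z (.l 10)) .z)
(.b (.l 10) (.c .z (.l 10))))))))) (.b (.c .z (.a (.b .z (.c .z (.b .z (.a (.c .z (.l 10)) .z)))) .z)) (.c .z (.a (.b (.c (.b .z (.a (.l 10) .z)) (.a
(.l 10) (.b (.c .z (.l 10)) (.l 10)))) (.c (.a (.b (.l 10) (.c .z (.l 10))) (.l 10)) (.l 10))) (.b (.c .z (.a (.b .z (.c .z (.l 10))) .z)) (.c (.a (.b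
.z (.c .z (.l 10))) .z) (.a (.l 10) (.b .z (.c .z (.l 10)))))))))))))

theorem vQ46 : ev3 Q46 J3_0 J4_4 J4_12 = 301348327541737361508566 := by decide +kernel

noncomputable def Q178 : QT3 :=
(.a (.b (.c (.c (.b .z (.a .z (.c .z (.a .z (.c .z (.b (.l 17) .z)))))) (.a (.c .z (.a (.b .z (.c .z (.b .z (.b .z (.l 13))))) (.b (.c (.a .z (.l 17))
(.l 17)) (.b (.b (.l 17) .z) (.b (.c .z (.l 13)) (.l 13)))))) (.c (.b (.a (.c .z (.b .z (.l 17))) (.c (.b .z (.l 17)) (.l 17))) (.a (.c .z (.b .z (.b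
.z (.l 13)))) (.b (.b (.l 17) .z) (.b .z (.c .z (.l 13)))))) (.b (.l 17) (.b (.b (.c (.l 17) .z) .z) (.b (.c (.b .z (.l 13)) (.l 13)) (.l 13)))))))
(.a (.c (.b (.b (.l 17) (.b (.l 17) (.c (.l 17) .z))) (.b (.b (.c .z (.b .z (.c .z (.l 13)))) (.c (.b .z (.c .z (.l 13))) (.l 13))) (.l 13))) (.c (.b
(.b (.l 17) (.b .z (.b .z (.c .z (.l 13))))) (.l 13)) (.c (.a (.c (.b .z (.l 13)) (.b .z (.l 13))) (.b (.b .z (.b .z (.l 13))) (.l 13))) (.a (.b .z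
(.c (.a .z (.l 13)) .z)) (.b .z (.l 13)))))) (.b (.b (.c (.l 17) (.b (.c (.l 17) .z) .z)) (.c (.b (.c (.l 17) .z) .z) (.b (.c .z (.b (.c .z (.l 13))
(.l 13))) (.c (.b (.c .z (.l 13)) (.l 13)) (.l 13))))) (.c (.b (.c (.b .z (.c (.b .z (.l 13)) (.l 13))) (.b (.b (.c .z (.l 13)) (.l 13)) (.l 13))) (.l
13)) (.a (.l 13) (.b (.c (.l 13) (.a (.l 13) (.b (.l 13) .z))) (.c (.a (.l 13) (.b (.l 13) .z)) (.a (.b (.l 13) .z) .z)))))))) (.c (.a (.b (.c (.c .z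
(.a .z (.c .z (.a .z (.b .z (.l 13)))))) (.c (.a (.c .z (.a .z (.b .z (.l 13)))) (.c (.a (.b .z (.l 13)) (.l 13)) (.l 13))) (.l 13))) (.c (.c .z (.a
.z (.c (.a .z (.b .z (.l 13))) (.l 13)))) (.a (.c (.c (.a .z (.l 13)) (.l 13)) (.l 13)) (.b (.l 13) (.c (.l 13) (.a (.l 13) (.b (.l 13) .z))))))) (.b
(.c (.c (.a .z (.c (.b .z (.a .z (.l 13))) (.b .z (.l 13)))) (.a (.c (.a .z (.b .z (.l 13))) (.l 13)) (.b (.b (.c .z (.l 13)) (.l 13)) (.l 13)))) (.a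
(.l 13) (.b (.l 13) (.c (.l 13) (.a (.l 13) .z))))) (.c (.a (.b (.c (.c .z (.a .z (.l 13))) (.l 13)) (.c (.c (.a .z (.l 13)) (.l 13)) (.a (.l 13) (.b
(.l 13) .z)))) (.b (.c (.l 13) (.a (.l 13) (.b (.l 13) .z))) (.c (.a (.l 13) (.b (.l 13) .z)) .z))) (.a (.b (.c (.l 13) (.a (.l 13) (.b (.l 13) .z)))
(.c (.a (.b (.l 13) .z) .z) .z)) (.b (.c (.a (.b (.l 13) .z) .z) .z) .z))))) (.a (.b (.c (.l 13) (.a (.c (.l 13) (.c (.l 13) (.c (.l 13) (.a .z (.l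
13))))) (.b (.l 13) (.c (.a (.l 13) (.b (.l 13) .z)) (.a (.b (.l 13) .z) .z))))) (.c (.a (.b (.l 13) (.c (.a (.l 13) (.b (.l 13) .z)) (.a (.b (.l 13)
.z) .z))) (.b (.c (.a (.l 13) (.b (.l 13) .z)) (.a (.b (.l 13) .z) .z)) .z)) (.a (.b (.c (.a (.l 13) (.b (.l 13) .z)) (.a (.b (.l 13) .z) .z)) .z)
.z))) (.b (.c (.a (.b (.l 13) (.c (.a (.l 13) (.b (.l 13) .z)) (.a (.b (.l 13) .z) .z))) (.b (.c (.a (.l 13) (.b (.l 13) .z)) (.a (.b (.l 13) .z) .z))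
.z)) (.a (.b (.c (.a (.l 13) (.b (.l 13) .z)) (.a (.b (.l 13) .z) .z)) .z) .z)) (.c (.a (.b .z (.c .z (.l 35))) .z) (.a (.b .z (.c (.l 35) .z))
.z)))))) (.b (.c (.a (.b (.c (.c (.a .z (.c .z (.b .z (.l 17)))) (.a (.c .z (.b .z (.l 17))) (.l 17))) (.b (.l 17) (.c (.l 17) (.b (.l 17) (.c (.l 17)
.z))))) (.c (.c (.a .z (.c (.b .z (.l 17)) (.b (.l 17) .z))) (.b (.l 17) (.b .z (.c .z (.b .z (.l 13)))))) (.a (.b (.c (.b (.l 17) .z) .z) (.c (.b .z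
(.l 13)) (.l 13))) (.b (.c .z (.b .z (.c .z (.l 13)))) (.c (.b (.c .z (.l 13)) (.l 13)) (.a (.b (.l 13) .z) .z)))))) (.b (.c (.c (.a (.c (.b .z (.l
17)) (.l 17)) (.l 17)) (.l 17)) (.a (.b (.l 17) (.c (.l 17) (.b (.l 17) .z))) (.b (.l 17) (.c (.a (.l 17) .z) .z)))) (.c (.a (.b (.c (.l 17) (.b (.l
17) .z)) (.c (.b (.l 17) .z) .z)) (.b (.c (.l 17) .z) .z)) .z))) (.a (.b (.c (.b (.c (.l 17) (.b (.l 17) .z)) (.c (.b (.c (.l 17) .z) .z) (.b .z (.c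
(.b .z (.l 13)) (.l 13))))) (.a (.b (.b .z (.c .z (.b .z (.l 13)))) (.c (.b (.b .z (.l 13)) (.l 13)) (.a (.l 13) (.b (.l 13) .z)))) (.b (.c .z (.a (.b
.z (.l 13)) .z)) (.c (.a (.l 13) (.b (.l 13) .z)) .z)))) (.c (.a (.b (.c (.b (.c .z (.l 13)) (.l 13)) (.l 13)) (.c (.a (.l 13) (.b (.l 13) .z)) (.a
(.b (.l 13) .z) .z))) (.b (.c (.a (.b .z (.l 13)) (.b (.l 13) .z)) (.a (.b (.l 13) .z) .z)) .z)) (.a (.b (.c (.a (.l 13) (.b (.l 13) .z)) .z) .z) (.b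
.z (.c .z (.l 18)))))) (.b (.c (.a (.b (.c (.l 17) .z) .z) .z) (.a .z (.b (.c .z (.a .z (.l 18))) (.c (.a .z (.l 18)) (.l 18))))) (.c (.a .z (.b (.c
.z (.c .z (.l 18))) (.c .z (.c .z (.l 18))))) (.a (.b (.c (.a .z (.l 18)) (.l 18)) (.l 18)) (.l 18)))))) (.c (.a (.b (.c (.a (.b (.c (.b .z (.c .z (.l
13))) (.b (.c .z (.l 13)) (.l 13))) (.c (.l 13) (.a (.l 13) (.b (.l 13) .z)))) (.b (.c (.b .z (.c .z (.l 13))) (.a (.l 13) (.b (.l 13) .z))) (.c (.a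
(.l 13) .z) .z))) (.a (.b (.c (.l 13) (.a (.b (.l 13) .z) .z)) (.c (.a (.b (.l 13) .z) .z) .z)) (.b (.c (.a (.b (.l 13) .z) .z) .z) .z))) (.c (.a (.b
(.c (.a (.l 13) (.b (.l 13) .z)) .z) .z) .z) .z)) .z) (.a (.b (.c .z (.a (.b (.c .z (.c .z (.l 18))) (.c .z (.c .z (.l 18)))) (.c (.c .z (.a .z (.l
18))) (.l 18)))) (.c .z (.c (.a .z (.c .z (.a .z (.l 18)))) (.a (.c .z (.a .z (.l 18))) (.l 18))))) (.c (.c .z (.a (.c .z (.a .z (.c .z (.l 18)))) (.c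
(.a (.c .z (.l 18)) (.l 18)) (.l 18)))) (.b (.l 18) (.c (.l 18) (.b (.l 18) (.b (.l 18) (.c (.l 18) .z))))))))))

theorem vQ178 : ev3 Q178 J4_7 J4_9 J4_12 = 98701302486622823887841 := by decide +kernel

noncomputable def Q120 : QT3 :=
(.b (.c (.b (.a (.c (.b (.c (.a (.l 16) (.c (.a (.l 16) (.a (.l 16) .z)) (.l 16))) (.l 16)) (.c (.l 16) (.b (.l 16) (.a (.l 16) (.c (.l 16) (.a (.l
16) .z)))))) (.b (.c (.l 16) (.b (.l 16) (.a (.l 16) (.c (.a (.l 16) .z) .z)))) (.c (.b (.a (.l 16) (.c (.l 16) (.a (.l 16) .z))) (.a (.c (.l 16) (.b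
(.l 16) .z)) .z)) (.b (.a (.c (.b (.l 16) .z) .z) .z) .z)))) (.c (.a (.b (.c (.a .z (.c (.a (.l 20) .z) .z)) (.b (.a (.l 16) .z) (.a (.l 16) .z))) (.c
(.b .z (.a (.c .z (.l 16)) .z)) (.b (.a (.c (.l 16) .z) .z) .z))) (.b (.c (.a (.b (.a .z (.l 17)) .z) (.b (.a (.l 17) .z) .z)) .z) .z)) (.a (.b (.c
(.b (.a (.l 16) (.c (.l 16) .z)) (.a (.c (.l 16) .z) .z)) .z) (.c (.b .z (.a .z (.l 14))) (.b .z (.c (.a .z (.l 14)) .z)))) (.b .z (.c (.c (.b (.a (.l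
14) .z) (.a (.l 14) .z)) (.a (.l 14) .z)) (.c (.a .z (.a .z (.l 15))) (.a (.c .z (.l 8)) .z))))))) (.a (.c (.b (.c (.b (.l 16) (.a (.l 16) (.c (.a (.l
16) .z) .z))) (.b (.a (.c (.l 16) (.b (.l 16) .z)) (.c (.a (.l 16) .z) .z)) (.a (.c (.b (.l 16) .z) .z) .z))) (.c (.b (.a (.c (.l 16) .z) .z) (.a (.c
.z (.b .z (.l 14))) (.c .z (.a .z (.l 14))))) (.b (.a (.c .z (.b .z (.l 14))) (.c (.a .z (.l 14)) (.l 14))) (.l 14)))) (.b (.c (.b .z (.a (.c (.b .z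
(.l 14)) .z) (.c (.l 14) (.a .z (.l 14))))) .z) (.c (.c (.l 14) (.a (.b (.c (.l 14) .z) (.l 14)) (.l 14))) (.c (.a .z (.a .z (.b .z (.l 14)))) .z))))
(.c (.a (.b (.c (.a .z (.b .z (.c .z (.l 14)))) (.a (.b .z (.c .z (.l 14))) (.b (.c .z (.l 14)) (.l 14)))) (.c (.a (.b (.c .z (.l 14)) (.l 14)) (.l
14)) (.l 14))) (.b (.c .z (.c (.b .z (.a (.l 14) .z)) (.b (.a (.l 14) .z) (.l 14)))) (.c (.c (.b .z (.a (.l 14) .z)) (.b (.a (.l 14) .z) (.l 14))) (.a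
(.l 14) (.c (.l 14) (.a (.l 14) .z)))))) (.c (.a (.l 14) (.a (.c (.l 14) (.c (.a (.l 14) .z) .z)) (.c (.a (.b (.l 14) .z) .z) .z))) (.a (.c (.a (.b
(.b .z (.l 14)) (.l 14)) (.c (.b (.l 14) .z) .z)) (.a .z (.c .z (.a (.b .z (.l 8)) (.l 8))))) (.a (.c .z (.c .z (.a (.l 8) .z))) (.c (.a (.c .z (.l
15)) (.l 15)) (.c (.a .z (.l 15)) .z)))))))) (.b (.a (.c (.b (.c (.b (.a (.c (.l 16) (.b (.l 16) .z)) (.c (.a (.l 16) .z) .z)) (.a (.c (.b (.l 16) .z)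
.z) .z)) (.b (.a (.c .z (.b .z (.c .z (.l 8)))) (.c (.a .z (.b .z (.l 8))) (.a (.b .z (.l 8)) (.l 8)))) (.a (.c (.b .z (.c .z (.l 8))) (.l 8)) (.l
8)))) (.c (.b (.a .z (.c .z (.c .z (.a .z (.l 8))))) (.c .z (.a .z (.c .z (.a .z (.l 8)))))) (.l 8))) (.b (.c (.b (.a (.c (.b (.c .z (.l 8)) (.l 8))
(.l 8)) (.l 8)) (.l 8)) (.l 8)) (.l 8))) (.c (.a (.b (.c (.b (.a .z (.c .z (.l 8))) (.a (.c .z (.l 8)) (.c (.c .z (.l 8)) (.l 8)))) (.l 8)) (.c (.c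
(.a .z (.c (.a .z (.l 8)) (.l 8))) (.l 8)) (.l 8))) (.c (.c (.a (.l 8) (.c (.a (.l 8) .z) (.l 8))) (.l 8)) (.l 8))) (.l 8))) (.c (.a (.c (.c (.a .z
(.c .z (.a .z (.b .z (.a .z (.l 8)))))) (.a (.c .z (.b .z (.l 8))) (.c (.a (.b .z (.a .z (.l 8))) (.b (.a .z (.l 8)) (.l 8))) (.l 8)))) (.l 8)) (.c
(.a (.c (.a (.c (.a .z (.b .z (.l 8))) (.a (.b .z (.l 8)) (.l 8))) (.l 8)) (.l 8)) (.c (.a (.l 8) (.c .z (.a (.l 8) (.b (.l 8) .z)))) (.l 8))) (.l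
8))) (.l 8)))) (.c (.b (.a (.c (.b (.c (.b (.a (.c (.b .z (.l 14)) (.l 14)) (.l 14)) (.l 14)) (.l 14)) (.l 14)) (.c (.l 14) (.c (.b (.a (.b (.c (.l
14) .z) (.l 14)) (.l 14)) (.l 14)) (.a (.b (.b .z (.c (.l 14) .z)) (.l 14)) (.a (.c (.l 14) .z) .z))))) (.c (.c (.l 14) (.a (.l 14) (.a (.l 14) (.c
(.b (.l 14) (.a (.l 14) .z)) .z)))) (.a (.c (.c (.l 14) (.a (.l 14) (.c (.b (.l 14) .z) .z))) (.c (.a (.c (.b (.l 14) .z) .z) .z) (.a (.c .z (.a (.b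
.z (.l 8)) (.l 8))) (.c (.a (.b .z (.l 8)) .z) (.l 8))))) (.c (.a (.c (.b (.a (.l 14) .z) .z) .z) (.c (.a .z (.b .z (.l 15))) (.a (.b .z (.l 15)) (.l
15)))) (.a (.c (.a (.c .z (.l 15)) (.l 15)) .z) (.c (.l 15) (.c (.l 15) (.a .z (.l 15))))))))) (.c (.a (.l 14) (.a (.l 14) (.c (.a (.l 14) (.c (.b (.a
(.l 14) .z) .z) (.b (.a (.l 14) .z) .z))) (.a (.c (.b (.l 14) (.a (.l 14) .z)) (.b (.a (.l 14) .z) .z)) (.c .z (.a .z (.b .z (.l 15)))))))) (.a (.c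
(.l 14) (.c (.a (.l 14) (.a (.c (.l 14) (.b (.l 14) .z)) (.c (.b (.l 14) .z) .z))) (.a (.c (.b (.l 14) (.b (.l 14) .z)) (.b (.b (.l 14) .z) .z)) (.a
.z (.c (.b .z (.a .z (.l 8))) (.b (.a .z (.l 8)) (.l 8))))))) (.a (.c (.c (.a (.l 14) (.b (.a (.l 14) .z) .z)) (.a (.b (.c (.l 14) .z) .z) .z)) (.c
(.a .z (.a .z (.c (.l 15) .z))) (.a (.c (.b (.a .z (.l 8)) (.l 8)) (.l 8)) (.c .z (.a (.l 8) .z))))) (.c (.a (.c .z (.a (.b .z (.l 15)) (.l 15))) (.c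
(.a (.b .z (.l 15)) (.l 15)) (.l 15))) (.c (.l 15) (.a (.c (.a .z (.l 15)) .z) (.l 15)))))))) (.c (.a (.c (.c (.a (.b .z (.c (.b .z (.a .z (.b .z (.l
8)))) (.b (.a (.b .z (.l 8)) (.l 8)) (.l 8)))) (.b (.a (.c .z (.b .z (.a .z (.l 8)))) (.c (.b .z (.a .z (.l 8))) (.l 8))) (.a (.c (.b (.a .z (.l 8))
(.l 8)) (.l 8)) (.l 8)))) (.a (.b (.c (.b (.a .z (.b .z (.l 8))) (.l 8)) (.l 8)) (.l 8)) (.l 8))) (.l 8)) (.c (.a (.l 8) (.c (.a (.c (.b (.a (.l 8)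
.z) (.a (.b (.l 8) .z) .z)) (.b (.l 8) (.a (.l 8) (.b (.l 8) .z)))) (.b (.c .z (.a (.b (.l 8) .z) .z)) (.a .z (.c (.l 15) .z)))) (.a (.l 8) (.b (.c
(.a (.l 8) (.b (.l 8) .z)) (.l 8)) (.a (.c .z (.l 8)) .z))))) (.l 8))) (.b (.l 8) (.a (.c (.l 8) (.b (.l 8) (.c (.l 8) (.b (.l 8) (.a (.c (.l 8) (.b
(.l 8) .z)) (.l 8)))))) (.l 8))))))

theorem vQ120 : ev3 Q120 J3_0 J4_9 J4_12 = 374772485552506074059050 := by decide +kernel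

noncomputable def Q92 : QT3 :=
(.c (.c (.a (.b (.c (.b (.c (.a (.c (.a (.c (.l 10) (.a (.l 10) .z)) .z) .z) .z) .z) (.a (.c (.c (.a (.c (.l 10) (.a (.l 10) .z)) (.c (.a (.l 10) .z)
.z)) .z) .z) .z)) (.a (.b (.c (.b (.c (.b (.l 16) .z) (.l 16)) (.c (.b .z (.l 21)) .z)) (.b (.c (.a .z (.l 16)) .z) .z)) (.c (.b .z (.a (.c .z (.l
17)) .z)) (.a (.b (.c .z (.l 17)) (.l 17)) (.b .z (.c .z (.l 17)))))) (.b (.c (.b (.c .z (.b (.l 16) .z)) .z) (.a (.b (.l 16) .z) (.b (.l 16) (.c .z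
(.l 16))))) (.c (.a (.b (.c .z (.l 21)) .z) (.c (.c .z (.l 21)) (.l 21))) .z)))) (.c (.a (.b (.c (.b (.a (.c (.c (.l 10) .z) .z) .z) .z) (.a (.b .z
(.c .z (.l 15))) .z)) (.c .z (.a (.c (.c .z (.l 15)) (.l 15)) (.b (.c .z (.l 15)) (.l 15))))) (.b (.c (.c (.a .z (.c (.l 14) .z)) .z) (.a .z (.c (.l
34) .z))) (.c (.a .z (.c .z (.l 34))) .z))) (.a (.b (.c (.a (.c .z (.l 17)) (.b .z (.c .z (.l 17)))) (.l 17)) (.c (.c (.c (.a .z (.l 15)) .z) (.c (.a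
(.l 17) .z) (.l 17))) (.l 17))) (.b (.c .z (.a (.b (.c .z (.l 17)) (.l 17)) (.b .z (.c .z (.l 17))))) (.c .z (.l 17)))))) (.c (.b (.b .z (.c .z (.b
(.c (.b .z (.a .z (.l 17))) (.c (.a .z (.l 17)) .z)) (.c (.a .z (.a .z (.l 17))) .z)))) (.a (.c (.c (.b (.c (.b (.l 14) .z) .z) .z) (.b (.c .z (.l
34)) (.l 34))) (.b .z (.a (.c (.l 34) .z) (.c (.l 34) .z)))) (.c (.c (.b .z (.c .z (.l 34))) (.b .z (.l 34))) .z))) (.b (.a (.c (.b (.b (.c .z (.b (.l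
16) .z)) .z) (.c (.c .z (.l 21)) (.l 21))) (.b (.b (.l 16) (.c .z (.b (.l 16) .z))) (.a (.c (.b .z (.l 21)) .z) (.b (.c (.l 21) .z) (.l 21))))) (.b
(.c (.b .z (.c .z (.b .z (.l 21)))) (.b (.c (.b (.l 16) .z) (.a (.l 16) .z)) .z)) (.c (.c (.c .z (.l 21)) (.l 21)) (.b (.c (.l 21) (.b .z (.l 21)))
(.l 21))))) (.a (.c (.b (.a (.c .z (.b (.l 21) .z)) (.c .z (.l 21))) .z) (.b (.a .z (.c (.l 21) .z)) (.a (.b .z (.a (.l 17) .z)) .z))) (.c (.b (.c (.c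
.z (.b (.l 21) .z)) (.l 21)) (.c .z (.b (.c .z (.l 21)) .z))) (.a (.b (.b (.l 21) (.c (.l 21) .z)) .z) (.b (.b (.l 21) (.c (.l 21) .z)) (.b .z (.c .z
(.l 22)))))))))) (.a (.b (.c (.a (.b (.c (.b (.a (.c .z (.l 17)) .z) (.a (.l 17) (.c .z (.l 17)))) (.c (.l 17) .z)) (.c (.l 17) (.c (.c (.l 17) .z)
.z))) (.b (.c (.a .z (.b (.c (.l 16) .z) .z)) (.a (.b .z (.c (.l 17) .z)) .z)) (.c (.a (.b (.c .z (.l 17)) (.l 17)) (.b .z (.c .z (.l 17)))) (.c (.c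
(.b (.l 17) .z) .z) .z)))) (.c (.c (.a (.c .z (.a .z (.a .z (.l 23)))) (.c (.a (.a .z (.l 23)) (.l 23)) (.l 23))) (.a (.c (.a (.a .z (.l 23)) (.l 23))
(.l 23)) (.l 23))) (.c (.c (.b (.l 23) (.a (.l 23) (.b (.l 23) .z))) (.b (.a (.b (.l 23) .z) .z) .z)) .z))) (.c (.c (.c (.l 17) (.b (.c (.l 17) (.b
(.l 17) (.a (.l 17) .z))) (.c (.b (.l 17) (.a (.l 17) .z)) .z))) (.a (.c .z (.b .z (.b .z (.l 42)))) (.c .z (.a .z (.c .z (.a .z (.l 23))))))) (.c (.a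
(.c (.a .z (.c .z (.a .z (.l 23)))) (.a (.c .z (.b (.l 23) .z)) (.c (.l 23) (.b (.l 23) .z)))) (.c (.a (.c (.a .z (.l 23)) (.l 23)) (.l 23)) (.c (.l
23) (.b (.b (.l 23) .z) .z)))) .z))) (.a (.b (.c (.c (.b (.a (.c (.l 16) (.b (.l 16) .z)) (.c (.l 16) .z)) .z) .z) (.b (.c (.a (.b .z (.c .z (.l 23)))
.z) (.a (.c (.c (.l 23) .z) .z) .z)) (.a (.c (.l 23) .z) (.c (.a (.c .z (.l 23)) (.c .z (.l 23))) .z)))) (.c (.a (.b (.c .z (.c .z (.c .z (.l 23))))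
(.c (.c (.l 17) .z) (.c .z (.l 23)))) (.c .z (.b (.a (.c .z (.l 23)) .z) (.c .z (.c .z (.l 23)))))) (.c (.c (.l 23) (.c (.b (.l 23) (.b (.l 23) .z))
.z)) .z))) (.c (.b (.c (.b .z (.b .z (.c (.l 21) .z))) .z) .z) (.b .z (.a (.c (.b .z (.c (.l 23) .z)) (.c .z (.c (.l 29) .z))) .z)))))) (.a (.c (.c
(.b (.c (.b (.c (.a .z (.c .z (.l 29))) .z) .z) .z) .z) .z) .z) (.a (.c (.c (.c (.b (.c (.c (.l 29) .z) .z) .z) .z) .z) .z) .z)))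

theorem vQ92 : ev3 Q92 J4_4 J4_7 J3_7 = 68427147373734231076128 := by decide +kernel

noncomputable def Q147 : QT3 :=
(.c (.b (.a (.c (.b (.c (.a (.c (.c .z (.l 56)) (.l 56)) (.b (.l 56) .z)) .z) (.c (.a (.b (.c .z (.l 56)) .z) .z) .z)) (.b (.a (.c (.b (.c .z (.a (.b
(.l 19) .z) .z)) .z) (.b (.a .z (.c .z (.a (.c .z (.l 11)) (.l 11)))) (.a .z (.c .z (.a (.c .z (.l 11)) (.l 11)))))) (.c (.b (.a .z (.c .z (.c .z (.l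
11)))) (.a .z (.c .z (.c .z (.l 11))))) (.a (.c (.a (.c (.a .z (.l 11)) (.l 11)) (.l 11)) (.l 11)) (.l 11)))) (.a (.c (.b .z (.c (.a .z (.l 38)) .z))
(.a .z (.c .z (.a (.c .z (.a .z (.l 11))) (.c (.a .z (.l 11)) (.l 11)))))) (.c (.c (.b (.c .z (.l 38)) (.l 38)) (.c (.c (.l 38) .z) (.a (.a .z (.a .z
(.l 11))) (.l 11)))) (.a (.c (.a (.c (.a .z (.l 11)) (.l 11)) (.l 11)) (.l 11)) (.l 11)))))) (.c (.b (.a .z (.c .z (.b (.a (.c .z (.b (.l 19) .z)) (.c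
(.b (.l 19) .z) (.l 19))) (.a .z (.c .z (.b (.l 19) .z)))))) .z) (.c (.b (.c (.b (.c (.a .z (.l 19)) (.b (.a .z (.l 19)) .z)) .z) (.b (.c .z (.l 11))
(.c (.c (.l 38) .z) (.l 11)))) (.c (.b (.c .z (.l 38)) (.l 38)) (.c (.c (.l 38) .z) (.l 11)))) (.l 11)))) (.a (.c (.b (.c .z (.a (.b (.c .z (.a .z (.l
38))) (.c .z (.l 38))) (.c (.b .z (.c .z (.l 38))) (.l 38)))) (.c (.a (.b .z (.c .z (.l 38))) (.c .z (.b (.c .z (.l 38)) (.b (.l 38) .z)))) (.l 38)))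
(.c (.c (.l 38) (.c (.c (.l 38) .z) (.a .z (.a (.a .z (.a (.c .z (.l 11)) (.l 11))) (.l 11))))) (.a (.a .z (.c .z (.a .z (.c .z (.b (.a .z (.l 11))
(.a .z (.l 11))))))) (.a (.c (.a (.c .z (.a .z (.l 11))) (.l 11)) (.l 11)) (.l 11))))) (.c (.c .z (.b (.c (.b .z (.c .z (.l 38))) (.b (.c (.b .z (.l
38)) (.l 38)) (.l 38))) (.b (.l 38) (.c (.a (.b (.l 38) .z) .z) (.a (.l 38) (.b (.l 38) .z)))))) (.c (.c (.l 38) (.c (.c (.l 38) .z) (.l 11))) (.l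
11))))) (.b (.c (.a (.a (.c (.a (.c (.b (.a (.c .z (.b (.l 11) .z)) (.c (.b (.l 11) .z) (.l 11))) (.a .z (.c .z (.a .z (.l 11))))) (.b (.l 11) (.a (.c
.z (.l 11)) (.l 11)))) (.l 11)) (.l 11)) (.l 11)) (.l 11)) (.c (.l 11) (.a (.b (.l 11) (.c (.l 11) (.a (.b (.l 11) (.c (.l 11) (.a (.b (.l 11) .z) (.l
11)))) (.l 11)))) (.l 11)))) (.a (.c (.a (.c (.a (.c .z (.b (.a .z (.c .z (.b (.l 11) .z))) .z)) (.c (.a (.b (.c .z (.a .z (.l 11))) .z) (.b (.l 11)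
(.a (.c .z (.l 11)) (.l 11)))) (.a (.b (.l 11) (.a (.c .z (.l 11)) (.l 11))) (.l 11)))) (.a (.b (.c (.a (.b (.l 11) .z) (.l 11)) (.l 11)) (.a (.c .z
(.b (.a .z (.l 11)) .z)) (.c (.b (.a .z (.l 11)) .z) (.l 11)))) (.l 11))) (.l 11)) (.c (.b (.l 11) (.c (.a (.a (.a (.b (.l 11) (.a .z (.l 11))) (.l
11)) (.l 11)) (.l 11)) (.a (.b (.l 11) (.c (.l 11) (.a .z (.l 11)))) (.l 11)))) (.b (.c (.a (.b (.l 11) (.c (.l 11) (.a (.b (.l 11) .z) (.l 11)))) (.l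
11)) (.a (.b (.c (.a (.b (.l 11) .z) (.l 11)) .z) (.c .z (.a (.b .z (.l 7)) .z))) (.c (.l 11) (.b (.l 11) (.a .z (.l 11)))))) (.a (.c (.b (.c (.a .z
(.l 11)) .z) (.a (.c .z (.b .z (.l 7))) .z)) (.b (.c (.a (.b .z (.l 7)) .z) (.a (.l 7) (.b .z (.l 7)))) (.a (.l 7) (.c (.b .z (.l 7)) (.l 7))))) (.c
(.b (.l 11) (.a (.c (.l 11) .z) (.l 11))) (.a (.b .z (.c .z (.a (.l 7) .z))) (.c (.b (.l 11) .z) .z))))))) (.c (.l 11) (.b (.l 11) (.a (.c (.l 11) (.c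
(.l 11) (.a (.c (.l 11) (.b (.l 11) (.a .z (.l 11)))) (.l 11)))) (.c (.l 11) (.b (.l 11) (.a (.l 11) (.c (.b (.l 11) (.a (.l 11) .z)) (.b (.a (.l 11)
.z) .z)))))))))))

theorem vQ147 : ev3 Q147 J4_5 J4_8 J3_5 = 342851913703688931878436 := by decide +kernel

noncomputable def Q14 : QT3 :=
(.b (.c (.a (.c .z (.b (.a (.c .z (.b (.a (.c .z (.l 40)) .z) .z)) .z) .z)) (.c (.b .z (.a .z (.c .z (.a .z (.b .z (.a (.c .z (.l 24)) .z)))))) (.b .z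
(.a .z (.a (.c (.b .z (.c .z (.l 41))) .z) .z))))) (.a (.b (.c (.c (.b (.a (.a (.l 40) .z) .z) .z) (.b (.a (.a (.a (.l 40) .z) .z) .z) .z)) (.b .z (.c
.z (.a (.b (.c .z (.a (.l 16) .z)) (.c (.a (.l 16) .z) (.l 16))) .z)))) (.c (.b .z (.c .z (.a (.b (.c .z (.a (.l 16) .z)) (.c (.a (.l 16) .z) (.l
16))) .z))) (.a (.b (.c (.b (.c .z (.a (.l 16) .z)) (.c (.a (.l 16) .z) (.l 16))) (.l 16)) (.l 16)) (.a (.b (.c .z (.b (.c .z (.l 16)) (.l 16))) (.c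
(.b .z (.c .z (.l 16))) (.l 16))) (.c .z (.b .z (.a (.c .z (.l 16)) .z))))))) (.b (.c (.a (.c .z (.b .z (.a .z (.l 35)))) (.a (.c .z (.b (.a .z (.l
35)) (.l 35))) (.c (.c .z (.c .z (.l 35))) (.l 35)))) (.a (.b (.c (.a .z (.l 35)) (.c (.b (.l 35) .z) .z)) (.c (.c (.l 35) (.b (.l 35) .z)) .z)) (.c
(.l 35) (.a (.b (.l 35) .z) (.c (.l 35) .z))))) (.c (.a (.b (.c (.a .z (.c .z (.l 35))) (.c (.l 35) (.b (.l 35) .z))) (.c (.c .z (.a .z (.l 35))) .z))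
(.c (.a (.c (.a (.l 35) .z) (.l 35)) (.c .z (.a (.l 35) .z))) (.a (.b (.l 35) (.c (.l 35) .z)) (.l 35)))) (.c (.a .z (.a (.b (.c (.l 35) .z) .z) (.b
(.l 35) (.c (.l 35) .z)))) .z))))) (.c (.a (.b (.c .z (.b .z (.c .z (.a (.b (.c .z (.a (.l 16) .z)) (.c (.a (.l 16) .z) (.l 16))) .z)))) (.c (.b .z
(.c .z (.a (.b (.c .z (.a (.l 16) .z)) (.c (.a (.l 16) .z) (.l 16))) .z))) (.a (.b (.c (.b (.c .z (.a (.l 16) .z)) (.c (.a (.l 16) .z) (.l 16))) (.l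
16)) (.l 16)) (.a (.c (.b .z (.a (.c .z (.l 16)) .z)) (.b (.a (.c .z (.l 16)) .z) (.l 16))) .z)))) (.b (.c .z (.a .z (.c (.a (.c (.a (.l 41) .z) (.l
41)) .z) .z))) (.c .z (.a .z (.c (.a (.c (.a (.l 41) .z) (.b (.l 41) .z)) .z) .z))))) (.c (.a (.b (.a (.b (.c (.b (.c .z (.a (.l 16) .z)) (.c (.a (.l
16) .z) (.l 16))) (.l 16)) (.l 16)) (.a (.c (.b .z (.a (.c .z (.l 16)) .z)) (.b (.a (.c .z (.l 16)) .z) (.l 16))) (.c .z (.b .z (.a (.c .z (.l 16))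
.z))))) (.a (.l 16) (.a (.l 16) (.c (.b (.a (.c .z (.l 16)) .z) (.a (.l 16) (.c .z (.l 16)))) (.b (.a (.l 16) (.c .z (.l 16))) (.l 16)))))) (.a (.a
(.b .z (.a (.c .z (.b .z (.a (.l 16) .z))) .z)) .z) (.b (.c (.a (.b (.l 35) .z) (.c (.a (.l 35) .z) (.l 35))) (.a .z (.b (.c (.l 35) .z) .z))) (.a .z
(.c (.b (.a .z (.l 35)) .z) .z))))) (.a (.b (.a (.l 16) (.a (.l 16) (.c (.b (.a (.c .z (.l 16)) .z) (.a (.l 16) (.c .z (.l 16)))) (.l 16)))) (.l 16))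
(.a (.c (.a (.b .z (.a (.b (.a (.l 16) .z) (.l 16)) .z)) .z) (.c (.a (.b .z (.a (.l 16) (.b .z (.l 16)))) .z) (.a (.b (.a (.b .z (.l 16)) .z) (.l 16))
.z))) .z)))))

theorem vQ14 : ev3 Q14 J3_0 J4_3 J4_12 = 106802451626062158930036 := by decide +kernel

noncomputable def Q11 : QT3 :=
(.b .z (.c (.a (.b .z (.c (.c .z (.b .z (.c .z (.a (.b .z (.c (.a .z (.a .z (.a .z (.l 30)))) (.a .z (.a .z (.l 30))))) (.b .z (.a (.b (.a (.c .z (.l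
30)) .z) (.a (.l 30) (.c .z (.l 30)))) .z)))))) (.c (.b (.c (.a (.b .z (.c .z (.a (.b .z (.b .z (.l 30))) .z))) .z) (.a (.b .z (.c (.b .z (.b (.a (.l
30) .z) (.l 30))) (.c (.b .z (.l 30)) (.b (.b .z (.l 30)) (.c (.l 30) .z))))) (.b .z (.b .z (.a (.c .z (.b .z (.l 30))) .z))))) (.c (.a (.b (.c (.a .z
(.b (.b .z (.l 30)) (.l 30))) (.a (.a .z (.l 30)) (.l 30))) (.c (.a .z (.l 30)) (.c (.a .z (.l 30)) (.b (.a .z (.l 30)) (.a .z (.l 30)))))) (.a (.b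
(.b .z (.a (.l 30) (.c .z (.l 30)))) (.l 30)) (.b .z (.a (.b (.c .z (.l 30)) (.l 30)) .z)))) (.a (.c (.b (.c (.a (.a .z (.l 30)) (.l 30)) (.b (.l 30)
(.a .z (.l 30)))) (.c (.b (.a .z (.l 30)) .z) .z)) (.b (.c (.b (.c (.l 30) .z) .z) .z) (.c (.a (.b .z (.l 28)) .z) (.a (.l 28) (.b .z (.l 28)))))) (.c
(.b (.a (.l 30) (.a (.b .z (.l 30)) .z)) (.a (.c (.l 30) (.b (.l 30) .z)) (.a (.l 30) (.a (.l 30) .z)))) (.b (.c (.a (.l 30) (.a (.l 30) .z)) (.a .z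
(.c (.l 30) .z))) (.a .z (.c (.a .z (.l 30)) .z))))))) (.c (.b (.b .z (.b .z (.a (.c (.c .z (.c (.l 28) .z)) .z) .z))) (.a (.c (.b (.c (.b (.a (.l 28)
.z) (.l 28)) (.l 28)) (.l 28)) (.c (.b .z (.c (.l 28) .z)) .z)) (.a (.c (.b (.c .z (.c (.l 28) .z)) (.l 28)) .z) (.b .z (.c (.c .z (.c (.l 28) .z))
.z))))) .z)))) (.b .z (.c .z (.a (.b .z (.c (.a (.a (.c .z (.b .z (.a (.c .z (.l 30)) .z))) .z) .z) .z)) (.b .z (.c .z (.a (.b .z (.c (.c .z (.b .z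
(.l 57))) .z)) .z))))))) (.a (.b .z (.c (.c (.b .z (.a (.c (.b (.c .z (.a (.b .z (.c .z (.a (.l 26) .z))) .z)) .z) (.b (.a (.a (.b .z (.c (.a .z (.l
26)) .z)) (.b .z (.a (.b .z (.l 26)) .z))) .z) (.a (.c (.b (.c .z (.a (.l 26) .z)) .z) (.b (.a .z (.l 26)) (.a (.a .z (.l 26)) .z))) .z))) .z)) .z)
(.c (.b .z (.a .z (.c (.b (.a (.a .z (.c .z (.a .z (.l 34)))) .z) .z) .z))) .z))) .z)))

theorem vQ11 : ev3 Q11 J3_1 J2_0 J2_2 = 50784107995995967203484 := by decide +kernel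

noncomputable def Q162 : QT3 :=
(.b (.a (.c (.b (.a (.c (.l 7) (.b (.l 7) (.a (.l 7) (.c (.l 7) (.b (.l 7) (.a (.l 7) .z)))))) (.c (.b (.l 7) (.a (.l 7) (.c (.l 7) (.b (.a (.l 7) .z)
.z)))) (.b (.a (.l 7) (.c (.b (.l 7) (.a (.l 7) .z)) (.b (.a (.l 7) .z) .z))) (.a (.c (.b (.l 7) (.a (.l 7) .z)) .z) .z)))) (.a (.c (.b (.l 7) (.a (.l
7) (.c (.b (.l 7) (.a (.l 7) .z)) (.b (.a (.l 7) .z) .z)))) (.b (.a (.c (.l 7) (.b (.l 7) (.a (.l 7) .z))) (.c (.b (.l 7) (.a (.l 7) .z)) .z)) (.a (.c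
(.b (.a (.l 7) .z) .z) .z) .z))) (.c (.b (.a (.c (.l 7) (.b (.a (.l 7) .z) .z)) (.c (.b (.a (.l 7) .z) .z) .z)) (.a (.c (.b (.a (.l 7) .z) .z) .z) (.c
.z (.b .z (.l 14))))) (.b .z (.a (.c (.b .z (.l 14)) .z) (.c (.c (.l 14) .z) .z)))))) (.b (.a (.c (.b (.a (.l 7) (.c (.l 7) (.b (.l 7) (.a (.l 7)
.z)))) (.a (.c (.l 7) (.b (.l 7) .z)) (.c (.b (.a (.l 7) .z) .z) .z))) (.b (.a (.c (.b (.l 7) (.a (.l 7) .z)) (.b (.a (.l 7) .z) .z)) (.c .z (.b .z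
(.a .z (.l 8))))) (.a (.c .z (.b .z (.a .z (.l 8)))) (.c (.b .z (.a .z (.l 8))) (.l 8))))) (.c (.b (.a (.c (.b (.a (.l 7) .z) .z) .z) (.c .z (.b .z
(.c .z (.l 8))))) (.a (.c .z (.b .z (.l 8))) (.c .z (.c (.c .z (.l 8)) (.l 8))))) (.b (.a (.c (.b .z (.a .z (.l 8))) (.b (.a .z (.l 8)) (.l 8))) (.l
8)) (.l 8)))) (.a (.c (.b (.a (.c (.b (.a (.l 7) .z) .z) .z) (.c .z (.b (.a .z (.l 8)) (.l 8)))) (.a (.c .z (.b (.a .z (.l 8)) (.l 8))) (.c (.c .z (.c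
.z (.l 8))) (.l 8)))) (.b (.a (.c (.b (.a .z (.l 8)) (.l 8)) (.l 8)) (.l 8)) (.l 8))) (.c (.c .z (.c (.c (.a (.l 8) (.b .z (.l 8))) (.l 8)) (.l 8)))
(.l 8))))) (.c (.b (.a (.c (.b (.a (.c (.c .z (.l 7)) (.b (.l 7) (.a (.l 7) .z))) .z) (.a (.c (.b (.a (.l 7) .z) .z) .z) .z)) .z) .z) (.a (.c (.b (.a
(.c .z (.b .z (.l 14))) (.c (.l 14) (.c (.l 14) .z))) (.l 14)) .z) (.c (.c (.l 14) (.c (.b .z (.l 14)) .z)) .z))) (.b (.a (.c (.b (.a (.c .z (.c .z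
(.l 8))) (.c .z (.c .z (.c .z (.l 8))))) (.c .z (.c .z (.l 8)))) (.l 8)) (.c (.c .z (.c .z (.c .z (.a (.l 8) .z)))) (.c (.l 8) (.a (.l 8) (.c (.l 8)
(.a (.l 8) (.c (.l 8) .z))))))) (.c (.c .z (.c (.a (.c .z (.a (.l 8) .z)) .z) (.a (.l 8) (.c (.a (.a (.l 8) .z) .z) (.l 8))))) (.l 8))))) (.a (.c (.b
(.a (.c (.b (.a (.c (.b (.l 7) (.a (.l 7) .z)) (.b (.a (.l 7) .z) .z)) .z) (.a .z (.c .z (.l 14)))) (.b (.a (.c .z (.b .z (.l 14))) (.c (.b .z (.l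
14)) (.c (.l 14) .z))) (.a (.c (.b .z (.l 14)) (.c (.l 14) .z)) (.c (.l 14) (.c (.l 14) .z))))) (.c (.b (.a (.c .z (.l 14)) (.l 14)) (.l 14)) (.c (.l
14) (.b .z (.c (.l 14) (.b .z (.l 14))))))) (.a (.c (.b (.a (.c .z (.l 14)) (.l 14)) (.l 14)) (.c (.l 14) (.c (.c (.l 14) (.b (.l 14) .z)) .z))) (.c
(.l 14) (.c (.l 14) (.c (.l 14) (.c (.l 14) .z)))))) (.c (.c (.c (.a (.b .z (.c (.b .z (.a .z (.l 8))) (.a (.a .z (.l 8)) (.l 8)))) (.b .z (.c .z (.a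
(.b .z (.l 8)) .z)))) (.a (.a (.b (.l 8) (.a (.c .z (.l 8)) (.l 8))) (.l 8)) (.b (.c .z (.a (.l 8) (.b .z (.l 8)))) (.c (.a (.l 8) (.b .z (.l 8))) (.l
8))))) (.l 8)) (.b (.l 8) (.b (.l 8) (.c (.l 8) (.a (.b (.c (.l 8) .z) .z) (.c (.l 8) (.b (.l 8) .z)))))))) (.c (.c (.c (.l 14) (.b (.a (.l 14) (.c
(.l 14) (.b (.a (.l 14) .z) (.l 14)))) (.l 14))) (.b (.c (.a (.b (.c (.l 14) .z) (.l 14)) (.b .z (.c (.a (.l 14) .z) .z))) .z) (.c (.a (.l 14) (.b (.c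
(.l 14) (.a (.l 14) .z)) (.l 14))) (.a (.b (.c (.l 14) (.a (.l 14) .z)) (.l 14)) (.b .z (.a (.c (.l 14) .z) .z)))))) (.c (.c (.c .z (.a (.b .z (.c .z
(.a (.b .z (.l 8)) .z))) .z)) (.c (.a (.c (.b (.a (.b .z (.l 8)) .z) (.l 8)) (.l 8)) (.c .z (.a (.b .z (.l 8)) .z))) (.a (.l 8) (.a (.l 8) (.c (.b .z
(.l 8)) (.l 8)))))) (.l 8)))))

theorem vQ162 : ev3 Q162 J4_5 J4_9 J4_12 = 152105124041402758937824 := by decide +kernel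

noncomputable def Q2 : QT3 :=
(.a (.b .z (.c .z (.a (.b (.c .z (.c (.b (.c (.b .z (.c .z (.l 64))) .z) (.b (.b (.c (.l 64) .z) .z) .z)) .z)) .z) (.b (.c .z (.c (.b (.c (.b .z (.c
.z (.l 64))) (.b (.c .z (.l 64)) (.l 64))) (.b (.b (.l 64) .z) .z)) (.b (.a .z (.c (.l 64) (.a .z (.l 64)))) (.b (.b (.a .z (.l 64)) .z) .z)))) .z))))
(.b .z (.c .z (.a (.b (.c .z (.c (.b (.c (.b .z (.c .z (.l 64))) (.b .z (.a (.l 64) .z))) (.b (.b (.a (.l 64) .z) .z) .z)) (.b (.a (.a (.l 64) (.c (.l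
64) .z)) .z) (.b (.b (.a (.l 64) .z) .z) .z)))) .z) .z))))

theorem vQ2 : ev3 Q2 J3_1 J3_2 J3_2 = 18119421507647684684105 := by decide +kernel

end Pool.Agent.Helper64.SPW.Dat3
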