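import Pool.Agent.Helper64.SPW.Iv3

/-! Boxes of three traces, part 12 (data and kernel evaluation). -/

set_option maxRecDepth 1000000
set_option maxHeartbeats 0

namespace Pool.Agent.Helper64.SPW.Dat3

noncomputable def Q26 : QT3 :=
(.a (.b (.c (.c (.a (.b (.a (.b (.a (.l 42) (.a (.l 42) (.b .z (.l 42)))) (.c (.a (.c .z (.l 42)) (.l 42)) (.l 42))) .z) (.a (.a (.c .z (.b (.l 42)
.z)) (.a (.b (.c .z (.l 42)) .z) .z)) .z)) (.b (.a .z (.c (.a (.b (.a .z (.b .z (.l 20))) (.a .z (.b (.l 20) .z))) (.b (.b .z (.a (.l 20) .z)) (.b (.l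
20) .z))) (.b (.a (.a (.b .z (.l 20)) (.b .z (.l 20))) .z) (.a (.b (.b (.l 20) .z) .z) (.c (.b (.l 20) .z) .z))))) (.a .z (.c (.b (.a (.a .z (.l 37))
(.b .z (.l 37))) .z) .z)))) (.a (.b (.a (.b (.a (.l 42) (.a (.l 42) .z)) (.a (.l 42) (.a (.c (.l 42) .z) .z))) .z) (.c (.b (.a (.a (.l 42) .z) .z) (.c
(.a (.a (.l 42) .z) .z) .z)) (.b (.a (.a (.a (.l 42) .z) .z) .z) .z))) (.b (.a (.c (.a .z (.b (.a .z (.b .z (.l 20))) .z)) .z) (.c (.b (.a (.b .z (.a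
(.l 20) .z)) .z) .z) .z)) .z))) (.a (.b (.c (.c (.b (.a (.b (.a (.l 42) .z) (.a (.l 42) .z)) .z) (.a (.a (.a (.l 42) .z) .z) .z)) (.b (.a (.b (.a (.l
42) .z) .z) .z) .z)) (.b (.c .z (.a (.b .z (.c .z (.c .z (.a (.l 12) .z)))) .z)) (.c (.a (.b .z (.c .z (.b .z (.c .z (.l 12))))) .z) (.c (.a (.b (.b
.z (.c .z (.l 12))) (.l 12)) (.a (.b .z (.c .z (.l 12))) .z)) (.a (.l 12) (.c (.a (.b .z (.l 12)) .z) .z)))))) (.c (.b (.c .z (.a (.b .z (.c .z (.b .z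
(.c .z (.l 12))))) .z)) (.c (.a (.b .z (.c .z (.b .z (.c .z (.l 12))))) .z) (.a (.b (.c (.b .z (.c .z (.l 12))) (.l 12)) (.l 12)) (.a (.c .z (.b .z
(.l 12))) .z)))) (.c (.b (.a (.b (.c (.b .z (.c .z (.l 12))) (.l 12)) (.l 12)) (.a (.c (.b .z (.c .z (.l 12))) (.b (.c .z (.l 12)) (.l 12))) .z)) (.a
(.l 12) (.a (.l 12) (.c (.b .z (.l 12)) (.l 12))))) (.c (.b (.a (.l 12) (.a (.l 12) (.b (.a (.l 12) .z) (.l 12)))) (.l 12)) (.a (.l 12) (.c (.l 12)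
(.a (.l 12) (.b .z (.a (.l 12) .z))))))))) (.b (.c .z (.a (.b .z (.c .z (.c .z (.a .z (.l 22))))) (.c .z (.c (.a (.c .z (.b .z (.l 22))) (.b .z (.b .z
(.l 22)))) (.b (.b .z (.c .z (.l 22))) (.l 22)))))) (.c (.a (.b .z (.c (.a (.a (.l 32) .z) .z) .z)) .z) (.c (.a (.a (.b .z (.c .z (.b .z (.a (.l 12)
.z)))) .z) (.a .z (.c .z (.a .z (.l 22))))) (.a (.c (.a (.c (.b .z (.b .z (.l 12))) (.a (.b .z (.l 12)) (.b .z (.l 12)))) .z) (.a (.c (.a (.b .z (.l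
12)) .z) .z) (.c .z (.l 22)))) (.a (.c (.a .z (.c .z (.l 22))) (.l 22)) (.l 22)))))))) (.c (.b (.c .z (.a (.b (.c .z (.a (.b .z (.c .z (.b .z (.c .z
(.l 12))))) .z)) (.c (.b .z (.c .z (.a (.b .z (.c .z (.l 12))) .z))) (.a (.b (.c (.b .z (.c .z (.l 12))) (.l 12)) (.l 12)) (.a (.c .z (.b .z (.l 12)))
.z)))) (.a (.b (.c .z (.a (.l 32) .z)) (.c .z (.a (.c (.l 32) .z) .z))) .z))) (.c (.a (.b (.c .z (.b .z (.c .z (.a (.b .z (.c .z (.l 12))) .z)))) (.c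
(.b .z (.c .z (.a (.b .z (.c .z (.l 12))) .z))) (.a (.b (.c (.b .z (.c .z (.l 12))) (.l 12)) (.l 12)) (.a (.c .z (.b .z (.l 12))) .z)))) (.a .z (.c .z
(.a (.c (.a (.l 37) .z) (.a (.l 37) .z)) .z)))) (.a (.b (.c (.a (.b (.c (.b .z (.c .z (.l 12))) (.l 12)) (.l 12)) (.a (.c .z (.b .z (.l 12))) .z)) (.a
(.l 12) (.a (.l 12) (.c (.b .z (.a (.l 12) .z)) (.b (.a (.l 12) .z) (.l 12)))))) (.c (.a (.l 12) (.a (.l 12) (.c (.b .z (.a (.l 12) .z)) (.b (.a (.l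
12) .z) (.l 12))))) (.l 12))) (.a (.a (.c .z (.b .z (.a (.c (.b .z (.l 12)) (.l 12)) (.c .z (.b .z (.l 12)))))) .z) .z)))) (.c (.a (.b (.b (.c (.a (.b
(.c (.b .z (.c .z (.l 12))) (.l 12)) (.l 12)) (.a (.c .z (.b .z (.l 12))) .z)) (.a (.l 12) (.a (.l 12) (.c (.b .z (.a (.l 12) .z)) (.l 12))))) (.c (.a
(.l 12) (.a (.l 12) (.c (.b .z (.a (.l 12) .z)) (.b (.a (.l 12) .z) (.l 12))))) (.l 12))) (.l 12)) (.a (.b (.a (.c .z (.b (.c .z (.a (.b .z (.l 12))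
.z)) (.a (.l 12) (.c .z (.l 12))))) .z) (.a (.c (.b (.a (.c (.b .z (.l 12)) (.l 12)) (.c .z (.b .z (.l 12)))) (.l 12)) (.l 12)) (.c (.b .z (.a (.c (.b
.z (.l 12)) (.l 12)) .z)) (.b (.a (.c (.b .z (.l 12)) (.l 12)) (.c .z (.b .z (.l 12)))) (.a (.l 12) (.c (.b .z (.l 12)) (.l 12))))))) (.a (.b .z (.c
.z (.a (.b .z (.c .z (.a (.l 12) .z))) .z))) .z))) (.a (.l 12) (.a (.c (.b (.a (.b (.c (.a (.l 12) (.b .z (.l 12))) (.l 12)) (.l 12)) (.b (.a (.c .z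
(.b .z (.l 12))) .z) (.a (.c (.b .z (.l 12)) (.l 12)) (.c .z (.b .z (.l 12)))))) (.l 12)) (.a (.c (.l 12) (.b (.c (.a (.l 12) (.b .z (.l 12))) (.a (.b
.z (.l 12)) .z)) (.l 12))) (.c (.a (.l 12) (.c (.b (.b .z (.l 12)) (.l 12)) (.b .z (.a (.l 12) .z)))) (.a (.b .z (.c (.a (.l 12) .z) .z)) (.c .z (.b
(.l 22) .z)))))) (.c (.a (.c (.b .z (.a (.b .z (.l 12)) .z)) (.a (.b .z (.b (.b .z (.l 12)) (.l 12))) .z)) (.c .z (.a .z (.c (.a .z (.l 22)) (.l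
22))))) (.a (.c (.a (.c (.b .z (.a (.l 12) .z)) .z) (.c .z (.a .z (.l 22)))) (.a (.c (.b (.l 22) .z) (.l 22)) (.l 22))) (.l 22)))))))) (.a (.b (.c .z
(.c .z (.a (.c (.a (.c (.a .z (.b .z (.b .z (.l 22)))) (.b .z (.b (.b .z (.l 22)) (.l 22)))) (.b .z (.b (.c .z (.b .z (.l 22))) (.c (.b .z (.l 22))
(.l 22))))) (.b (.b (.c .z (.b .z (.c .z (.l 22)))) (.c (.b .z (.c .z (.l 22))) (.l 22))) (.l 22))) (.b (.c .z (.b .z (.c .z (.b (.c .z (.l 22)) (.l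
22))))) (.c (.b .z (.c (.a (.b .z (.l 22)) .z) (.a (.l 22) (.b .z (.l 22))))) (.b (.c (.b (.c .z (.l 22)) (.l 22)) (.l 22)) (.l 22))))))) (.c (.a (.b
(.c .z (.c (.a .z (.a (.c (.l 30) .z) (.b .z (.l 30)))) .z)) (.c .z (.a .z (.c (.a .z (.b (.l 30) .z)) .z)))) (.c .z (.a (.c (.b .z (.a (.b (.l 30)
.z) .z)) .z) .z))) (.c (.a (.c .z (.a (.c .z (.a .z (.c .z (.a .z (.l 22))))) (.c (.a .z (.c .z (.b .z (.l 22)))) (.l 22)))) (.a (.c (.a (.c .z (.b .z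
(.a .z (.l 22)))) (.c .z (.b .z (.l 22)))) (.b (.b (.c .z (.b .z (.l 22))) (.c (.b .z (.l 22)) (.l 22))) (.l 22))) (.b (.c .z (.b .z (.c .z (.l 22))))
(.c (.b .z (.c .z (.l 22))) (.l 22))))) (.a (.c (.a (.c (.a (.c (.a .z (.l 22)) (.l 22)) (.l 22)) (.l 22)) (.l 22)) (.l 22)) (.b (.c (.b (.c (.a (.l
22) (.b .z (.l 22))) (.l 22)) (.l 22)) (.l 22)) (.l 22)))))) (.c (.c (.a (.b .z (.c (.a (.b .z (.c (.a .z (.l 37)) (.a .z (.l 37)))) (.b (.b .z (.a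
(.l 37) .z)) (.l 37))) (.a .z (.b .z (.c (.l 37) (.a .z (.l 37))))))) (.b .z (.c .z (.a (.b .z (.a (.b .z (.l 37)) .z)) .z)))) .z) (.a (.b (.c (.b .z
(.a .z (.b .z (.l 54)))) (.c .z (.b (.c .z (.b .z (.c .z (.l 22)))) (.b (.c .z (.l 22)) (.c (.a (.l 22) (.c .z (.l 22))) (.l 22)))))) (.c (.b .z (.c
.z (.a (.b (.c .z (.a (.l 22) .z)) (.c (.a (.l 22) .z) (.l 22))) .z))) (.b (.c (.a (.b (.c .z (.l 22)) (.c (.a (.l 22) .z) (.l 22))) (.c .z (.b .z (.a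
(.l 22) .z)))) (.l 22)) (.c (.a (.l 22) (.a (.l 22) (.c (.b .z (.l 22)) (.l 22)))) (.l 22))))) (.b (.c (.b (.a (.b .z (.c (.l 86) .z)) .z) .z) (.c .z
(.b .z (.a (.c .z (.b (.c .z (.l 22)) (.a (.l 22) .z))) .z)))) (.c .z (.a (.c (.b .z (.a (.c .z (.b .z (.l 22))) .z)) (.b (.c (.a (.b .z (.l 22)) .z)
(.l 22)) (.a (.l 22) (.c (.a (.l 22) .z) (.l 22))))) (.c .z (.a (.c .z (.b (.c .z (.l 22)) (.a (.l 22) .z))) .z)))))))))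

theorem vQ26 : ev3 Q26 J2_0 J4_4 J4_11 = 228635154742718269758763 := by decide +kernel

noncomputable def Q157 : QT3 :=
(.c (.c (.c (.b (.c (.a (.b (.c (.b (.c (.a (.b .z (.c .z (.l 7))) .z) (.a (.l 7) (.b .z (.c .z (.l 7))))) (.c (.a (.l 7) (.b (.c .z (.l 7)) (.l 7)))
(.l 7))) (.l 7)) (.l 7)) (.b (.c (.a (.b (.c (.b (.l 11) .z) .z) (.c .z (.a (.l 7) (.b .z (.l 7))))) (.b (.c (.l 11) (.a .z (.l 11))) (.c (.a .z (.l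
11)) .z))) (.a (.b (.c (.b (.c .z (.l 7)) (.l 7)) (.l 7)) (.l 7)) (.c (.b .z (.a (.b .z (.l 7)) .z)) (.b (.a (.l 7) .z) (.l 7))))) (.c (.a (.b (.c (.a
(.l 7) (.b .z (.l 7))) (.l 7)) (.l 7)) (.b (.c .z (.a (.b .z (.l 7)) .z)) (.c (.a (.b .z (.l 7)) .z) (.l 7)))) (.l 7)))) (.l 7)) (.l 7)) (.l 7)) (.b
(.c (.c (.c (.a (.l 7) (.b (.c (.l 7) (.a (.b (.c (.l 7) (.b .z (.l 7))) (.l 7)) (.b .z (.c (.l 7) (.a (.l 7) .z))))) (.l 7))) (.b (.a (.c (.b (.a (.c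
(.l 7) (.b .z (.l 7))) (.c (.b .z (.l 7)) .z)) (.l 7)) (.b (.a .z (.c .z (.b (.l 10) .z))) (.a (.c (.l 7) (.b .z (.l 7))) .z))) (.c (.a (.b .z (.c (.a
(.l 7) .z) .z)) .z) (.b (.a (.c (.b (.l 10) .z) (.l 10)) (.a (.l 10) .z)) (.a (.c .z (.b (.l 10) .z)) (.c (.a .z (.l 10)) (.l 10)))))) (.a (.c (.l 7)
(.b (.a (.l 7) (.c (.l 7) (.b .z (.l 7)))) (.l 7))) (.c (.a (.l 7) (.b (.c (.a (.l 7) .z) .z) (.c (.l 7) (.a (.l 7) .z)))) (.a (.b .z (.c (.l 7) (.a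
(.l 7) .z))) (.b (.c .z (.a .z (.l 10))) .z)))))) (.b (.c (.a (.c (.b (.a (.c (.b (.l 10) .z) (.l 10)) (.l 10)) (.a .z (.c .z (.l 10)))) (.b (.l 10)
(.a (.c (.b (.l 10) .z) (.l 10)) (.l 10)))) (.l 10)) (.l 10)) (.c (.a (.c (.b (.a (.c (.b .z (.l 7)) .z) .z) (.a (.l 7) (.c (.l 7) (.b .z (.l 7)))))
(.b (.a .z (.c (.b (.l 10) .z) (.l 10))) (.a (.b .z (.c (.l 7) .z)) .z))) (.c (.a (.b (.c .z (.b (.l 10) .z)) .z) (.b (.l 10) (.c .z (.a .z (.l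
10))))) (.b (.l 10) (.a (.c .z (.l 10)) (.l 10))))) (.a (.b (.c (.a (.b (.l 10) (.c .z (.l 10))) (.l 10)) (.l 10)) (.c (.a .z (.b (.l 10) (.c .z (.l
10)))) (.a (.b (.l 10) (.c .z (.l 10))) (.l 10)))) (.l 10))))) (.a (.c (.a (.b (.c (.l 10) (.a (.b (.l 10) (.c (.l 10) (.a .z (.l 10)))) (.l 10))) (.c
(.a (.b (.l 10) (.c (.l 10) .z)) (.l 10)) (.a (.b (.c (.a .z (.l 10)) .z) .z) (.b (.c (.l 10) (.a .z (.l 10))) (.c (.a .z (.l 10)) .z))))) (.l 10))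
(.a (.b (.c (.a (.b (.c (.a .z (.l 10)) .z) .z) (.b (.l 10) (.c (.a .z (.l 10)) .z))) (.a (.b (.c .z (.a (.l 11) .z)) (.c (.a (.l 11) .z) (.c (.l 11)
.z))) .z)) (.c (.a (.b (.c .z (.l 11)) (.l 11)) (.b .z (.c .z (.a (.l 11) .z)))) (.a (.c (.c (.l 11) (.b (.l 11) .z)) .z) (.b (.c (.a (.l 11) .z) .z)
(.c (.c (.l 11) .z) .z))))) (.b (.c (.a (.l 10) (.c (.l 10) (.a (.l 10) (.c (.l 10) .z)))) (.a (.b (.c (.a (.l 10) .z) .z) .z) .z)) (.c (.a (.b (.c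
(.l 10) (.a .z (.l 10))) .z) (.b (.c (.l 10) (.a (.l 10) .z)) (.c (.l 10) .z))) .z)))) (.c (.a (.c (.l 10) (.a (.l 10) (.c (.b (.l 10) (.a (.l 10) (.c
(.l 10) .z))) (.a (.b (.c (.l 10) .z) .z) .z)))) (.c (.a (.c (.l 10) (.b (.l 10) (.a (.l 10) .z))) (.c (.b (.a (.l 10) (.c (.l 10) .z)) (.a (.c (.l
10) .z) .z)) (.b (.a (.c (.l 10) .z) .z) .z))) (.a (.c (.b (.a (.c (.l 10) .z) .z) .z) .z) (.c .z (.b (.l 27) .z))))) (.a (.b (.c (.a (.c (.a (.l 10)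
(.c (.l 10) .z)) .z) (.c .z (.l 27))) .z) (.c (.a (.c (.a (.c (.l 10) .z) .z) .z) .z) (.a .z (.c .z (.l 47))))) (.c (.c (.l 27) (.b (.l 27) .z))
.z))))) (.a (.c (.c (.l 7) (.a (.b (.c (.l 7) (.a (.b (.c (.b .z (.l 7)) .z) (.c (.a .z (.l 7)) .z)) (.b .z (.c (.l 7) (.b .z (.l 7)))))) (.c (.a (.b
(.c (.l 7) (.a .z (.l 7))) .z) (.b (.l 7) (.c (.l 7) (.a .z (.l 7))))) (.a (.b .z (.c .z (.l 9))) (.b (.c (.a .z (.l 7)) .z) .z)))) (.b (.c (.b (.c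
(.l 7) (.b .z (.c (.l 7) .z))) (.l 7)) (.b (.c .z (.b (.l 10) (.c .z (.l 10)))) (.c (.b .z (.l 7)) .z))) (.c (.l 7) (.a (.b (.l 7) (.c (.l 7) (.a .z
(.l 7)))) (.b (.c (.l 7) (.b .z (.l 7))) (.l 7))))))) (.c (.a (.b (.c (.a (.b .z (.c .z (.a (.l 11) .z))) (.b (.c (.l 10) (.a .z (.l 10))) .z)) (.a
(.b (.c (.a (.l 11) .z) (.l 11)) (.l 11)) (.b .z (.c .z (.l 11))))) (.c (.a (.b (.c .z (.l 11)) (.c (.c (.l 9) .z) (.c .z (.l 11)))) .z) (.l 11))) (.b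
(.c (.a (.b (.l 10) (.c .z (.a .z (.l 10)))) (.b (.l 10) (.c (.b (.l 10) .z) (.l 10)))) (.a (.b (.c (.a .z (.l 10)) .z) .z) (.b (.l 10) (.c (.l 10)
(.a .z (.l 10)))))) (.c (.a .z (.b (.c .z (.b (.l 10) .z)) (.c (.b .z (.l 7)) .z))) (.a (.b (.c .z (.a (.l 11) .z)) (.a (.l 11) (.c .z (.l 11)))) (.b
(.c (.a .z (.l 10)) .z) .z))))) (.a (.b (.c (.a (.c (.l 11) (.c (.l 11) (.b (.l 11) .z))) (.b (.c (.a (.l 11) .z) (.l 11)) (.c (.l 11) (.c (.l 11)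
.z)))) .z) (.c (.c (.b (.l 11) (.c (.l 11) .z)) .z) .z)) (.b (.c (.a (.b (.c .z (.a (.l 11) .z)) (.c (.a (.l 11) .z) .z)) (.b (.c (.a .z (.l 10)) .z)
.z)) .z) (.a (.c (.c (.b (.c (.l 11) .z) .z) .z) .z) (.c .z (.c (.a .z (.l 15)) (.l 15)))))))) (.b (.c (.c (.c (.l 7) (.a (.l 7) (.c (.l 7) (.b (.a
(.l 7) (.c (.l 7) .z)) (.l 7))))) (.c (.a (.c (.b (.a (.l 7) (.c (.l 7) .z)) (.l 7)) (.b .z (.a (.c (.l 7) .z) .z))) (.c (.b .z (.a (.c (.l 7) .z)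
.z)) (.b (.a (.c .z (.l 10)) (.l 10)) .z))) (.a (.b (.c (.b (.l 10) (.a .z (.l 10))) (.l 10)) (.c .z (.a .z (.l 10)))) (.b (.a (.l 10) (.c (.l 10) (.a
(.l 10) .z))) (.c (.a (.c .z (.l 10)) (.l 10)) (.a (.l 10) .z)))))) (.a (.c (.c (.l 10) (.a (.c (.l 10) (.a (.l 10) (.c (.l 10) .z))) (.c (.a (.c (.l
10) .z) .z) .z))) .z) (.b (.c (.c (.a (.c (.l 10) .z) .z) .z) .z) (.c (.c (.a (.c (.a (.l 10) .z) .z) .z) .z) .z)))) (.c (.a (.c (.l 7) (.c (.l 7) (.b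
(.c (.a (.b .z (.l 7)) .z) .z) (.c (.l 7) (.a (.l 7) (.b .z (.l 7))))))) (.c (.l 7) (.b (.c (.c (.l 7) (.a (.c (.l 7) .z) .z)) (.c .z (.a (.b (.l 10)
.z) .z))) (.a (.c (.l 7) .z) (.c (.b (.l 7) (.a (.l 7) .z)) .z))))) (.a (.b (.c (.c (.c (.a .z (.b (.l 10) .z)) (.a (.l 10) (.a (.l 10) .z))) (.a (.c
(.l 10) (.a (.l 10) .z)) .z)) .z) (.c (.a (.c .z (.a .z (.c (.l 10) .z))) .z) .z)) (.b (.c (.a (.c (.c (.a (.l 10) .z) .z) .z) .z) .z) .z))))))) (.b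
(.a (.c (.c (.a (.c (.b (.c .z (.a (.c (.a .z (.l 15)) (.l 15)) (.l 15))) (.c (.a .z (.c .z (.a .z (.l 15)))) (.a (.c .z (.l 15)) (.l 15)))) (.c (.c
(.c (.l 15) (.b .z (.a .z (.l 15)))) (.c .z (.b (.l 17) (.a (.l 17) .z)))) (.l 17))) (.c (.b (.c .z (.a (.b (.c .z (.l 15)) (.l 15)) (.b .z (.c .z (.l
15))))) (.a (.c (.c (.a .z (.l 15)) (.l 15)) (.l 15)) (.c (.b .z (.a (.l 15) .z)) (.l 15)))) (.c (.c (.l 15) (.c (.b .z (.a .z (.l 15))) .z)) (.c (.c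
(.b (.l 17) (.a (.l 17) .z)) (.l 17)) (.l 17))))) (.c (.c (.c (.b (.c (.l 17) (.b (.l 17) (.a (.l 17) .z))) (.c (.b (.l 17) .z) .z)) .z) (.a (.b (.b
(.l 83) .z) .z) (.c .z (.a .z (.c .z (.l 23)))))) (.c (.a .z (.b (.c (.a (.c .z (.l 23)) (.l 23)) .z) (.c (.a .z (.c (.l 23) .z)) .z))) .z))) .z) (.b
(.c (.c (.a (.c .z (.a (.c .z (.c (.c .z (.l 17)) (.l 17))) (.c .z (.a (.c .z (.l 17)) .z)))) (.c .z (.a .z (.c .z (.c (.l 22) (.c (.l 22) .z))))))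
(.a (.c (.c (.c (.c (.l 17) .z) .z) (.c .z (.c .z (.l 23)))) (.c (.c (.c (.l 23) (.b (.l 23) .z)) .z) .z)) (.c (.a (.c .z (.a (.c (.l 21) .z) .z)) .z)
(.a (.c (.c (.c (.l 23) .z) .z) .z) .z)))) .z) (.a (.c (.c (.c (.a (.c .z (.a (.b .z (.l 15)) .z)) .z) (.a (.c (.c (.l 15) (.c (.l 15) .z)) (.c .z (.l
17))) (.c (.a (.c .z (.l 15)) .z) .z))) (.c (.c .z (.c (.a .z (.l 21)) .z)) (.c (.c (.c (.b (.l 23) .z) .z) .z) .z))) .z) (.c (.c (.c (.c (.b .z (.c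
.z (.a .z (.l 19)))) (.b (.c (.a .z (.l 19)) (.l 19)) (.l 19))) (.a (.c (.a .z (.c (.l 19) .z)) .z) (.c (.c (.b .z (.l 19)) .z) .z))) (.b (.c (.a (.c
.z (.c (.l 21) .z)) .z) .z) .z)) .z)))) (.a (.b (.c (.c (.c (.a (.c (.a .z (.c .z (.a .z (.l 15)))) (.a (.c .z (.a .z (.l 15))) (.l 15))) (.c (.a (.c
(.a .z (.l 15)) (.l 15)) (.l 15)) (.l 15))) (.c (.c (.l 15) (.a .z (.c (.l 15) .z))) (.c (.a (.c (.a (.l 17) .z) (.l 17)) (.c .z (.a (.l 17) .z))) (.c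
(.l 17) (.b (.a (.l 17) .z) .z))))) .z) .z) (.c (.a (.c (.c (.c (.a .z (.c .z (.a .z (.l 15)))) (.a (.c .z (.a .z (.l 15))) (.l 15))) (.c (.c (.l 15)
(.c (.a .z (.l 15)) .z)) (.c (.c .z (.l 17)) .z))) (.b (.c .z (.c (.c (.a (.l 25) .z) .z) .z)) (.a (.c .z (.c (.c (.l 25) .z) .z)) .z))) (.c (.b (.c
(.c (.a (.c .z (.l 15)) (.l 15)) (.l 15)) (.c (.l 15) .z)) (.a (.c (.l 15) (.c (.l 15) .z)) (.c (.b (.l 15) (.a (.l 15) .z)) .z))) (.b (.a (.c (.c .z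
(.c (.l 23) .z)) .z) .z) .z))) .z)) (.b (.a (.c (.c (.b (.c (.a (.c .z (.l 15)) .z) (.a (.c (.l 15) .z) (.c (.a (.l 15) .z) .z))) (.a (.c (.c (.a (.l
15) .z) (.l 15)) (.c (.l 15) .z)) (.c .z (.b (.c (.l 15) .z) .z)))) .z) .z) (.c (.c (.b (.a (.c (.c (.c .z (.l 19)) (.a .z (.l 19))) .z) (.c (.b (.l
19) (.a (.l 19) .z)) .z)) .z) (.b .z (.a (.b .z (.c .z (.c (.l 21) .z))) (.c .z (.c (.l 21) .z))))) .z)) (.a (.c (.c (.b (.a (.c (.l 15) .z) .z) (.a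
(.c (.b (.a (.l 15) .z) .z) .z) (.c (.b .z (.a (.c .z (.l 13)) (.l 13))) (.b (.a .z (.c (.l 13) .z)) (.c (.l 13) .z))))) (.b (.a .z (.b (.c .z (.c (.l
21) .z)) (.c .z (.c (.l 21) .z)))) (.a (.b (.c .z (.c (.l 21) .z)) (.c (.c (.l 18) .z) (.c (.l 21) .z))) (.c (.c (.c (.l 18) .z) .z) (.c (.c (.l 21)
.z) .z))))) .z) (.c (.c (.b (.a (.c .z (.b (.a .z (.c (.l 13) .z)) (.c (.l 13) .z))) (.c (.b .z (.c .z (.c .z (.l 13)))) (.c (.b (.c .z (.l 13)) (.l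
13)) (.c (.c (.l 13) .z) .z)))) (.a (.c (.b (.a (.c .z (.l 13)) (.c .z (.l 13))) (.c (.c .z (.l 13)) (.l 13))) (.c (.l 13) .z)) (.c (.c (.b .z (.c .z
(.l 13))) (.l 13)) (.c (.l 13) (.c .z (.l 19)))))) (.c (.c .z (.c (.b (.c .z (.l 21)) .z) (.c .z (.b .z (.l 21))))) (.c (.c (.l 21) (.c (.l 21) (.b
(.l 21) .z))) .z))) .z))))))

theorem vQ157 : ev3 Q157 J4_4 J4_8 J2_3 = 446081623347751342862269 := by decide +kernel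

noncomputable def Q55 : QT3 :=
(.c (.b (.c (.b (.l 22) (.b (.b (.l 22) (.b .z (.l 20))) (.l 20))) (.a (.c (.b (.a (.c (.l 22) (.b (.a .z (.c (.l 22) .z)) (.a (.c (.l 22) .z) (.l
22)))) (.l 22)) (.a (.b (.b (.l 22) (.b .z (.l 20))) (.c (.l 20) (.a .z (.b (.l 20) .z)))) (.b (.b (.l 22) (.b .z (.l 20))) (.l 20)))) (.b (.a (.c .z
(.b .z (.a (.c .z (.a (.l 10) .z)) .z))) (.c (.b (.a .z (.c (.l 22) .z)) (.a (.c (.l 22) .z) (.l 22))) .z)) (.a (.c (.b .z (.a (.c .z (.b .z (.l 8)))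
.z)) (.b (.a (.c .z (.l 10)) .z) (.a .z (.c (.b .z (.l 8)) .z)))) (.c (.b (.b (.l 22) (.b .z (.l 20))) (.a .z (.l 20))) (.b (.a .z (.b (.l 22) .z))
.z))))) (.b (.c (.a (.l 22) (.b (.c (.l 22) (.a (.b .z (.l 22)) .z)) (.l 22))) (.a (.c (.b (.b .z (.l 22)) (.l 22)) (.a (.b .z (.l 22)) (.b .z (.b .z
(.l 22))))) (.b (.c .z (.a .z (.l 26))) (.c (.a (.b .z (.l 22)) .z) .z)))) (.c (.a (.b (.b (.l 22) (.b .z (.l 20))) (.l 20)) (.b (.b (.l 22) (.b .z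
(.l 20))) (.c (.l 20) (.a (.l 20) (.b (.l 20) .z))))) (.a (.b (.b (.l 22) (.b .z (.l 20))) (.c (.l 20) (.a (.l 20) (.b (.l 20) .z)))) (.b (.c (.b (.l
22) (.b .z (.l 20))) (.a (.b (.l 22) .z) .z)) (.c (.a (.b (.l 20) .z) .z) .z))))))) (.c (.a (.b (.c (.l 20) (.a (.b (.c (.l 20) (.a (.b (.l 20) .z)
(.l 20))) (.c (.a (.b (.l 20) .z) (.l 20)) (.a .z (.b (.l 20) .z)))) (.l 20))) (.c (.a (.b (.c (.l 20) (.a (.b (.l 20) .z) (.l 20))) (.c (.a (.b (.l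
20) .z) (.l 20)) .z)) (.l 20)) (.b (.a (.c .z (.a (.b (.c .z (.l 8)) (.l 8)) .z)) (.c (.l 20) (.a .z (.l 20)))) (.a (.c (.a (.b (.c .z (.l 8)) (.l 8))
.z) (.a (.l 8) (.b (.c .z (.l 8)) (.l 8)))) (.c (.a .z (.l 20)) .z))))) (.b (.c (.l 20) (.a (.l 20) (.b (.l 20) (.c (.l 20) (.a (.b (.l 20) .z)
.z))))) (.c (.a (.b (.l 20) (.c (.l 20) (.a (.l 20) (.b (.l 20) .z)))) (.b (.c (.l 20) (.a (.l 20) (.b (.l 20) .z))) (.c (.a (.l 20) (.b (.l 20) .z))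
.z))) (.a (.b (.c (.l 20) (.a (.l 20) (.b (.l 20) .z))) (.c (.a (.b (.l 20) .z) .z) .z)) (.b (.c (.a (.b (.l 20) .z) .z) .z) (.c .z (.a .z (.l
51)))))))) (.a (.b (.c (.a (.b (.c (.a .z (.b (.l 20) .z)) (.a (.b .z (.c .z (.l 8))) .z)) (.c (.a (.b .z (.c .z (.l 8))) .z) (.a (.l 8) (.b (.c .z
(.l 8)) (.l 8))))) (.b (.c (.l 20) (.a .z (.l 20))) (.c (.a .z (.l 20)) .z))) (.b (.a (.c (.a (.l 8) (.b (.c .z (.l 8)) (.l 8))) (.a (.c (.b .z (.l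
8)) .z) (.l 8))) (.c .z (.a (.b (.c .z (.l 8)) (.l 8)) .z))) (.a (.l 8) (.c (.a (.b (.c .z (.l 8)) (.l 8)) .z) (.a (.b (.l 8) .z) .z))))) (.c (.b (.a
(.c (.a (.l 8) (.b (.c .z (.l 8)) (.l 8))) (.l 8)) (.c .z (.b (.a (.c .z (.l 8)) .z) (.a (.c (.l 8) .z) .z)))) (.a (.c (.b (.l 8) (.a (.l 8) (.c (.l
8) .z))) (.b (.a (.l 8) (.c (.l 8) .z)) (.a (.c (.l 8) .z) .z))) .z)) (.b (.a (.c (.b (.l 8) (.a (.l 8) .z)) (.b (.a (.c (.l 8) .z) .z) .z)) .z) (.a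
.z (.c .z (.c .z (.l 38))))))) (.b (.c (.a (.b (.l 20) (.c (.a (.l 20) (.b (.l 20) .z)) (.a (.b (.l 20) .z) .z))) (.b (.c (.a (.l 20) (.b (.l 20) .z))
(.a (.b (.l 20) .z) .z)) .z)) (.a (.b (.c (.a (.l 20) (.b (.l 20) .z)) .z) .z) .z)) .z)))) (.b (.a (.c (.b (.c (.a (.c (.a (.l 10) (.c (.a (.c .z (.l
10)) .z) (.l 10))) (.l 10)) (.c (.b .z (.a (.c .z (.a (.l 10) .z)) .z)) (.a (.l 10) (.c .z (.a (.l 10) (.c .z (.l 10))))))) (.a (.l 10) (.c (.l 10)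
(.a (.l 10) (.c (.l 10) (.a (.l 10) .z)))))) (.c (.b (.a (.c (.a (.l 10) (.c (.b (.l 10) .z) (.l 10))) (.l 10)) (.c .z (.a (.l 10) (.c .z (.b (.l 10)
.z))))) (.a (.c (.a (.c (.b (.l 10) .z) (.l 10)) (.c .z (.b (.l 10) .z))) (.l 10)) (.c .z (.a (.c .z (.b (.l 10) .z)) .z)))) (.b (.a (.l 10) (.c (.l
10) (.a (.l 10) (.b (.c (.l 10) .z) .z)))) (.a (.c (.l 10) (.b (.l 10) (.a (.l 10) .z))) (.c (.a (.b (.l 10) (.c (.l 10) .z)) .z) (.a .z (.b .z (.c .z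
(.l 11))))))))) (.b (.a (.c (.c (.l 10) (.a (.l 10) (.c (.a (.l 10) (.b .z (.l 10))) .z))) (.b .z (.b .z (.a (.c (.c (.l 10) .z) .z) .z)))) (.c (.b
(.c (.a (.c (.l 10) .z) .z) .z) (.a (.c (.c (.l 10) (.a (.l 10) .z)) .z) .z)) (.b (.a (.c .z (.a (.c .z (.l 13)) (.l 13))) (.b (.c (.c .z (.l 13)) (.l
13)) (.c (.a .z (.l 13)) .z))) (.a .z (.b .z (.c .z (.a .z (.l 11)))))))) (.b (.a (.c (.c (.l 10) (.b (.a (.l 10) (.c (.l 10) .z)) (.a (.l 10) .z)))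
(.b (.a (.c (.c (.l 10) .z) .z) .z) (.a .z (.c .z (.b .z (.l 11)))))) (.c (.a (.c (.b (.c (.l 10) .z) .z) .z) (.c .z (.b .z (.a .z (.l 11))))) (.a (.b
(.c .z (.a .z (.l 11))) (.c (.a .z (.l 11)) (.l 11))) (.b (.c (.a .z (.l 11)) (.l 11)) (.l 11))))) (.a (.c (.c (.b (.a (.l 10) .z) .z) (.b .z (.a .z
(.b .z (.l 11))))) (.b (.a (.c .z (.b .z (.l 11))) (.c (.b .z (.l 11)) (.l 11))) (.a (.c (.b .z (.l 11)) (.l 11)) (.l 11)))) (.c (.a (.c (.b .z (.c .z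
(.l 11))) (.b (.a .z (.l 11)) (.l 11))) (.c (.b (.a .z (.l 11)) (.l 11)) (.l 11))) (.l 11)))))) (.c (.b (.a (.c .z (.b (.c (.a (.c .z (.a (.l 10) .z))
.z) .z) (.a (.c (.c (.a (.l 10) .z) (.a (.l 10) .z)) .z) .z))) (.c .z (.b .z (.a .z (.c .z (.b .z (.c .z (.l 11)))))))) (.a (.c .z (.b (.a .z (.c .z
(.b .z (.a .z (.l 11))))) (.a (.c .z (.b (.a .z (.l 11)) (.c .z (.l 11)))) (.c .z (.l 11))))) (.c .z (.b (.a (.c .z (.b .z (.c .z (.l 11)))) (.c .z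
(.c .z (.l 11)))) (.c (.c (.c .z (.b .z (.l 9))) .z) (.c (.a (.c .z (.l 11)) .z) (.a (.l 11) (.c .z (.l 11))))))))) (.b (.a (.c (.b (.a (.c .z (.c (.a
.z (.l 13)) (.l 13))) (.c (.b (.c .z (.l 13)) .z) (.b (.a (.l 13) .z) .z))) (.a .z (.c .z (.b .z (.a .z (.l 11)))))) (.b (.a (.b (.c (.l 13) .z) .z)
(.b .z (.c .z (.a .z (.l 11))))) (.a (.b (.c .z (.a .z (.l 11))) (.c (.a .z (.l 11)) (.l 11))) (.b (.c (.a .z (.l 11)) (.l 11)) (.l 11))))) (.c (.b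
(.a .z (.c .z (.b .z (.l 11)))) (.a (.c (.b .z (.a .z (.l 11))) (.l 11)) (.l 11))) (.b (.a (.b (.c .z (.l 11)) (.l 11)) (.l 11)) (.l 11)))) (.a (.b
(.c (.a (.c (.b .z (.a .z (.l 11))) (.b (.a .z (.l 11)) (.l 11))) (.c (.b (.a .z (.l 11)) (.l 11)) (.l 11))) (.l 11)) (.l 11)) (.l 11))))) (.a (.c (.b
(.c (.b (.a (.c (.a .z (.c (.b .z (.l 8)) .z)) (.b (.a (.l 10) (.c .z (.l 10))) (.a (.l 10) .z))) (.c (.a (.b (.c (.l 8) .z) (.c (.l 8) .z)) .z) .z))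
(.a (.c (.b (.a .z (.c (.l 8) .z)) (.a (.c (.l 8) .z) .z)) .z) .z)) (.b (.a (.c (.b (.a (.l 10) (.c (.l 10) .z)) .z) .z) (.c .z (.a .z (.c .z (.l
11))))) (.a .z (.c .z (.c .z (.a (.c .z (.l 11)) (.l 11))))))) (.c (.b (.a .z (.c .z (.c (.b (.c .z (.l 9)) (.l 9)) (.a .z (.c (.l 9) .z))))) (.c (.a
(.c .z (.a .z (.b .z (.l 9)))) (.c .z (.b (.c .z (.l 9)) (.l 9)))) (.a .z (.c (.l 9) (.a .z (.c (.l 9) .z)))))) (.c (.a .z (.c .z (.a (.b .z (.c .z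
(.l 10))) (.b (.c .z (.l 10)) (.l 10))))) (.a (.c (.a .z (.b .z (.c .z (.l 10)))) (.a (.b .z (.c .z (.l 10))) (.c (.a (.l 10) .z) .z))) (.c (.a (.c
(.b .z (.l 10)) (.a (.l 10) .z)) (.c (.a (.l 10) .z) .z)) (.a (.c .z (.a .z (.l 11))) (.c (.a .z (.l 11)) (.l 11)))))))) (.b (.b (.a (.c (.c (.b (.a
.z (.c .z (.l 11))) (.a (.c .z (.l 11)) (.l 11))) (.b (.a (.b .z (.l 11)) (.l 11)) (.l 11))) (.l 11)) (.l 11)) (.c (.c (.a (.c (.a .z (.c .z (.l 11)))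
(.l 11)) (.l 11)) (.l 11)) (.l 11))) (.c (.c (.a (.c (.a .z (.c .z (.l 11))) (.a (.c (.a .z (.l 11)) (.l 11)) (.l 11))) (.l 11)) (.l 11)) (.c (.l 11)
(.c (.a (.b (.l 11) (.c (.l 11) (.b (.l 11) .z))) (.l 11)) (.a (.b (.c (.l 11) (.b (.l 11) .z)) .z) (.b (.l 11) (.c (.l 11) (.a .z (.l 11))))))))))
(.c (.b (.a (.c (.b .z (.c .z (.c .z (.b (.c .z (.l 9)) (.l 9))))) (.c (.c (.a .z (.b (.c .z (.l 9)) (.l 9))) .z) (.c (.a (.c (.a .z (.l 11)) (.l 11))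
(.l 11)) (.l 11)))) (.c (.c .z (.c .z (.b .z (.c (.b .z (.l 9)) (.l 9))))) (.c (.c (.b (.c (.b .z (.l 9)) (.l 9)) (.l 9)) (.a (.c (.l 9) (.a .z (.l
9))) (.l 9))) (.c (.a (.c .z (.a (.l 11) .z)) .z) (.a (.l 11) (.c (.a (.l 11) .z) (.l 11))))))) (.c (.c (.b .z (.c (.b .z (.c .z (.b .z (.l 9)))) (.b
(.c (.b .z (.l 9)) (.l 9)) (.l 9)))) (.b (.c (.b (.c .z (.l 9)) (.l 9)) (.l 9)) (.l 9))) (.c (.a (.c (.a (.c (.a .z (.l 9)) .z) (.l 9)) (.a (.c (.a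
(.l 10) .z) .z) .z)) (.c (.l 9) (.a (.c (.l 9) (.a .z (.l 9))) (.l 9)))) (.a (.c (.a (.c (.a .z (.l 11)) (.l 11)) (.l 11)) (.l 11)) (.c (.a (.c .z (.a
(.l 11) .z)) (.c (.l 9) .z)) (.a (.l 11) (.c .z (.a (.l 11) .z)))))))) (.l 11)))))

theorem vQ55 : ev3 Q55 J4_2 J4_5 J3_6 = 295540576641785891603950 := by decide +kernel

noncomputable def Q35 : QT3 :=
(.a (.b (.c (.c (.b (.a (.c (.a .z (.l 139)) .z) .z) (.a (.c .z (.b .z (.a .z (.c .z (.l 28))))) (.a (.c .z (.b .z (.a (.l 28) .z))) .z))) (.b .z (.a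
(.c (.b (.a .z (.c .z (.l 28))) (.l 28)) (.l 28)) (.a (.a (.b (.a (.l 28) .z) (.a (.l 28) .z)) .z) .z)))) (.b (.c (.a (.c (.b .z (.a (.l 28) (.a (.l
28) .z))) (.a (.b .z (.l 28)) .z)) .z) (.a (.c (.a (.b .z (.a .z (.l 28))) .z) .z) .z)) (.c (.a (.l 28) .z) (.a (.c (.a (.c (.b (.l 28) .z) .z) (.b
(.a (.l 28) .z) (.l 28))) (.a (.c .z (.a (.b .z (.l 18)) .z)) .z)) (.a .z (.a .z (.b (.l 53) .z))))))) (.c (.b (.c (.a (.c (.b (.a .z (.c .z (.l 28)))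
(.l 28)) (.l 28)) (.a (.a (.a (.l 28) .z) .z) .z)) (.a (.l 28) .z)) (.a (.c (.l 28) (.a (.c (.l 28) (.b (.l 28) (.a .z (.l 28)))) (.a (.l 28) (.a (.l
28) .z)))) .z)) (.a (.c (.b (.c (.a (.l 28) (.a (.l 28) (.a (.l 28) .z))) (.a (.b (.c (.l 28) .z) .z) (.a (.l 28) (.a (.l 28) .z)))) (.a (.c .z (.b .z
(.a (.l 18) .z))) (.c (.b (.a (.l 28) .z) .z) .z))) (.a (.b (.c (.b .z (.a (.c .z (.l 18)) .z)) (.a (.l 18) (.c (.b .z (.l 18)) (.l 18)))) (.c (.b (.a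
(.l 18) (.c .z (.l 18))) (.l 18)) (.l 18))) (.b (.c .z (.a (.c .z (.b .z (.l 18))) .z)) (.c (.a (.b .z (.c .z (.l 18))) .z) (.a (.l 18) (.b (.c .z (.l
18)) (.l 18))))))) .z))) (.b (.c (.a (.c (.b (.a (.c .z (.b .z (.l 90))) (.l 90)) (.l 90)) (.a (.a (.a .z (.c (.l 90) .z)) (.c (.l 90) (.a .z (.l
90)))) (.l 90))) (.c (.a (.c (.l 90) (.a (.l 90) (.b (.l 90) .z))) (.c (.a (.b (.l 90) .z) .z) (.a .z (.b (.c .z (.a .z (.l 26))) (.a (.c .z (.l 26))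
(.l 26)))))) (.a (.c (.a (.c (.l 90) .z) .z) (.a .z (.c (.a .z (.b .z (.l 26))) (.l 26)))) (.a (.c (.b (.c .z (.a .z (.l 26))) (.a (.c .z (.l 26)) (.l
26))) (.l 26)) (.l 26))))) (.a (.c (.a .z (.c (.a (.l 90) .z) (.a .z (.c (.a .z (.l 26)) (.a (.b (.l 26) .z) (.l 26)))))) (.a (.c .z (.a .z (.b (.c
(.a .z (.l 26)) (.l 26)) .z))) (.a (.c (.b (.c (.a .z (.l 26)) (.l 26)) (.a .z (.c .z (.l 26)))) (.b (.l 26) (.a (.c .z (.l 26)) (.l 26)))) (.l 26))))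
(.a (.c (.a (.c (.c (.a .z (.l 26)) (.l 26)) (.l 26)) (.l 26)) (.l 26)) (.l 26)))) (.a (.c (.a (.a (.b (.a .z (.c (.l 90) .z)) .z) (.l 90)) (.l 90))
(.a (.c (.b .z (.a .z (.a .z (.l 90)))) .z) (.c (.a (.c (.l 90) (.a (.l 90) .z)) (.c .z (.a .z (.c (.a .z (.l 26)) (.b (.l 26) .z))))) (.a (.b (.c .z
(.a .z (.b (.l 26) .z))) .z) (.c (.a (.b (.c .z (.l 26)) .z) (.l 26)) (.b (.l 26) (.a (.b (.l 26) .z) (.l 26)))))))) (.c (.a (.c (.a (.b (.l 90) (.c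
(.l 90) .z)) (.b .z (.c .z (.a .z (.b .z (.l 26)))))) (.a (.c .z (.a .z (.c .z (.a .z (.l 26))))) (.c (.a (.b .z (.a .z (.l 26))) (.b (.c .z (.l 26))
(.l 26))) (.l 26)))) (.c (.a (.b (.c .z (.a (.c .z (.l 26)) (.l 26))) (.c (.a (.b .z (.l 26)) (.l 26)) (.l 26))) (.b (.c (.a (.b .z (.l 26)) (.l 26))
(.l 26)) (.l 26))) (.l 26))) (.a (.c (.a (.c (.a (.c (.a .z (.l 26)) (.l 26)) (.l 26)) (.l 26)) (.l 26)) (.l 26)) (.l 26))))))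

theorem vQ35 : ev3 Q35 J3_1 J4_7 J4_8 = 228883872708063384026069 := by decide +kernel

noncomputable def Q113 : QT3 :=
(.b (.c (.a (.c (.c (.b (.b (.a (.b (.b .z (.a (.l 24) .z)) (.l 24)) .z) (.a (.c (.l 24) (.a (.l 24) (.a (.l 24) .z))) .z)) (.c (.a (.b (.a (.l 24)
(.a (.l 24) .z)) (.a (.l 24) .z)) (.b .z (.a (.a .z (.l 20)) .z))) (.a (.b (.a (.l 24) .z) .z) (.b .z (.a (.l 20) .z))))) (.b (.c (.b (.a (.b .z (.a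
(.l 24) .z)) .z) (.a (.a (.l 24) .z) .z)) .z) (.a (.c .z (.b .z (.c (.b .z (.l 16)) (.l 16)))) (.c (.b (.a (.b .z (.l 20)) .z) (.a .z (.a (.l 20)
.z))) .z)))) (.c (.b (.c (.a (.b .z (.c .z (.b .z (.l 16)))) (.b (.a .z (.b (.a .z (.l 6)) .z)) .z)) (.a (.b (.c .z (.b .z (.l 16))) (.l 16)) (.b (.a
.z (.c (.a .z (.l 6)) .z)) (.a (.c .z (.l 16)) .z)))) (.a (.c (.b (.c (.b .z (.l 16)) (.l 16)) (.l 16)) (.l 16)) (.c (.b .z (.a (.l 16) .z)) (.a (.l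
16) (.b .z (.l 16)))))) (.b (.c (.a (.l 16) (.a (.b (.c .z (.l 16)) (.l 16)) (.b .z (.c .z (.l 16))))) (.l 16)) (.l 16)))) (.c (.a (.c .z (.b (.a (.b
(.c .z (.a .z (.b (.l 6) .z))) .z) (.b (.c (.a .z (.l 6)) (.l 6)) (.c .z (.a .z (.b (.l 6) .z))))) .z)) (.b (.a (.c (.b (.c (.a .z (.b (.l 6) .z)) (.a
(.b (.l 6) .z) (.l 6))) (.a .z (.c .z (.b (.l 6) .z)))) (.b (.l 6) (.a (.c (.b (.l 6) .z) (.l 6)) (.l 6)))) (.c (.a (.b (.l 6) (.c (.a .z (.l 6)) (.l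
6))) (.l 6)) (.l 6))) (.a (.c .z (.b (.a (.c .z (.b (.l 6) .z)) (.c (.b (.l 6) .z) (.l 6))) .z)) (.c (.a (.b (.c .z (.a .z (.l 6))) .z) (.b (.l 6) (.c
.z (.a .z (.l 6))))) (.a (.b (.l 6) (.c (.a .z (.l 6)) (.l 6))) (.l 6)))))) (.a (.c (.b (.a (.c (.b (.b (.l 6) (.a .z (.l 6))) .z) (.b (.l 6) (.a .z
(.l 6)))) (.b (.l 6) (.c (.a (.b (.l 6) .z) (.l 6)) (.l 6)))) (.a .z (.c (.b (.a .z (.b (.l 6) .z)) .z) (.a .z (.b (.l 6) .z))))) (.b (.a (.c (.b (.a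
.z (.c (.l 6) .z)) .z) (.b .z (.a (.l 16) .z))) (.c (.a (.b (.l 6) (.c (.l 6) .z)) (.l 6)) (.a .z (.b (.l 6) .z)))) (.a (.c (.b .z (.l 16)) (.l 16))
(.c (.a .z (.b (.c (.l 6) .z) .z)) (.a (.b .z (.l 16)) .z))))) (.c (.b (.l 6) (.a (.b (.l 6) (.a (.c .z (.b (.l 6) .z)) (.l 6))) (.l 6))) (.a (.b (.l
6) (.c (.a (.b (.l 6) (.c (.l 6) .z)) (.l 6)) (.a (.b (.c (.l 6) .z) .z) (.b (.l 6) (.a .z (.l 6)))))) (.l 6)))))) (.b (.a (.c (.l 16) (.c (.a (.l 16)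
(.a (.l 16) (.c (.l 16) (.a (.l 16) (.c (.l 16) .z))))) (.a (.c (.l 16) (.c (.l 16) (.b (.a (.l 16) .z) (.a (.l 16) .z)))) (.a (.c (.c (.l 16) (.a (.l
16) .z)) .z) .z)))) (.c (.a (.c (.a (.c (.b (.a (.l 16) .z) (.l 16)) (.l 16)) (.c .z (.a (.l 16) (.b .z (.l 16))))) (.a (.l 16) (.c (.a (.l 16) .z)
.z))) (.c (.a (.c (.a (.b (.c (.l 6) .z) .z) (.l 6)) (.a .z (.b (.c (.l 6) .z) .z))) (.l 6)) (.a .z (.a (.c (.b (.c (.l 6) .z) .z) .z) (.c (.l 6) (.a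
.z (.c (.l 6) .z))))))) (.a (.c (.a (.c (.a (.c (.l 16) .z) .z) .z) (.c (.a (.c .z (.l 18)) (.a (.l 18) .z)) (.a (.l 18) .z))) (.a (.b .z (.a .z (.l
18))) (.c (.a (.l 18) .z) .z))) (.a (.c .z (.a (.c .z (.b .z (.a .z (.l 10)))) (.c (.b .z (.a .z (.l 10))) (.l 10)))) (.c (.a (.c .z (.b .z (.a .z (.l
10)))) (.c .z (.a (.l 10) (.c .z (.l 10))))) (.l 10)))))) (.a (.c (.l 16) (.c (.a (.l 16) (.a (.l 16) (.c (.l 16) (.a (.l 16) (.c (.l 16) .z))))) (.a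
(.l 16) (.a (.c (.l 16) (.a (.c (.l 16) .z) .z)) (.c (.a (.c (.l 16) .z) .z) .z))))) (.c (.a (.c (.a (.l 16) (.c (.a (.l 16) (.b .z (.l 16))) (.l
16))) (.a (.l 16) (.a (.c (.l 16) .z) (.c .z (.a .z (.l 18)))))) (.a .z (.c (.a (.c (.b (.l 6) (.a .z (.l 6))) (.b (.a .z (.l 6)) .z)) (.l 6)) (.a (.c
.z (.a .z (.b .z (.l 10)))) (.c (.a .z (.b (.l 6) .z)) .z))))) (.a (.c (.a (.c (.a (.l 16) .z) .z) (.a (.c .z (.l 18)) (.c (.b (.l 18) .z) .z))) (.a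
(.c (.a .z (.l 18)) (.a (.l 18) .z)) (.a .z (.c .z (.b .z (.l 10)))))) (.b (.a (.c (.a .z (.c .z (.a .z (.l 10)))) (.a (.c (.a .z (.l 10)) (.l 10))
(.l 10))) (.c (.a (.c (.a .z (.l 10)) (.l 10)) (.c (.a (.l 10) .z) (.l 10))) (.l 10))) (.a (.c (.a .z (.c (.a .z (.l 10)) (.l 10))) (.l 10)) (.c (.l
10) (.b (.l 10) (.a (.l 10) (.c (.l 10) .z))))))))))) (.c (.b (.a (.c (.c (.a (.c .z (.b .z (.c .z (.l 16)))) (.c (.b (.a (.a .z (.l 20)) (.l 20)) (.a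
(.c (.l 20) .z) (.l 20))) (.b (.a .z (.l 20)) .z))) (.a (.c (.b (.c (.b .z (.l 16)) (.l 16)) (.l 16)) (.l 16)) (.c (.b .z (.a (.c .z (.l 16)) .z)) (.b
(.a (.c .z (.l 16)) .z) (.a (.l 16) (.a (.l 16) .z)))))) (.l 16)) (.c (.a (.c (.a (.b .z (.a (.l 20) (.b .z (.l 20)))) .z) (.a (.c (.b (.a (.l 20) .z)
.z) .z) .z)) (.a .z (.c .z (.a .z (.b (.c (.a .z (.l 6)) (.l 6)) (.c .z (.a .z (.l 6)))))))) (.a (.c (.a (.c (.b .z (.a (.l 16) .z)) (.b (.a (.l 16)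
.z) (.l 16))) .z) (.a (.l 16) (.c (.a (.l 16) .z) (.l 16)))) (.a (.c (.c .z (.a .z (.b (.b (.l 6) .z) .z))) (.a .z (.c (.b (.l 6) .z) .z))) (.c (.a
(.b (.l 6) (.c .z (.a .z (.l 6)))) (.l 6)) (.a (.c (.l 6) (.b (.l 6) (.a .z (.l 6)))) (.l 6))))))) (.a (.c (.c (.a (.c (.b (.c .z (.b .z (.l 16))) (.l
16)) (.l 16)) (.c (.b .z (.a (.c .z (.l 16)) .z)) (.b (.a (.c .z (.l 16)) .z) (.a (.l 16) (.a (.l 16) .z))))) (.a (.l 16) (.c (.a (.l 16) (.b (.a (.l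
16) .z) (.l 16))) (.l 16)))) (.l 16)) (.c (.a (.c (.a (.c (.b (.l 20) (.a .z (.l 20))) (.b (.a .z (.l 20)) .z)) (.c (.b .z (.a (.l 20) .z)) (.b (.a
(.l 20) .z) (.a .z (.l 20))))) (.a (.c .z (.b (.a (.l 16) .z) (.l 16))) .z)) (.b .z (.c (.a (.a .z (.a .z (.l 17))) (.b .z (.l 17))) .z))) (.a (.b (.c
(.a (.l 16) (.c .z (.a (.l 16) .z))) (.l 16)) (.c (.a (.l 16) (.c (.a (.l 16) .z) (.l 16))) (.b (.l 16) (.a (.l 16) .z)))) (.b (.a .z (.c (.b (.a .z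
(.c .z (.l 6))) .z) .z)) .z))))) (.b (.a (.c (.l 16) (.c (.l 16) (.a (.l 16) (.a (.l 16) (.c (.a (.l 16) (.c (.l 16) .z)) .z))))) (.c (.a (.a (.l 16)
(.c (.l 16) (.a (.c (.l 16) (.a (.l 16) .z)) .z))) (.b (.a (.c (.a (.c (.l 16) .z) .z) .z) (.c (.a .z (.c (.l 6) (.a .z (.l 6)))) (.b (.a (.c .z (.l
10)) .z) (.a (.l 10) .z)))) (.a (.c (.a (.c (.l 16) .z) .z) (.b (.a .z (.c .z (.l 10))) .z)) (.c (.b (.a .z (.c (.l 6) .z)) .z) (.b (.a (.c (.l 10)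
.z) .z) .z))))) (.a (.b (.a (.c (.c (.a (.l 16) .z) .z) .z) (.c .z (.a (.c .z (.a .z (.l 10))) (.c (.a .z (.l 10)) (.l 10))))) (.c (.b .z (.a (.a (.l
16) .z) .z)) .z)) (.b (.a (.c (.a (.c .z (.l 10)) (.l 10)) (.b (.a (.l 10) (.c (.l 10) .z)) (.a (.c (.l 10) .z) .z))) (.c (.b (.a (.l 10) (.c (.l 10)
.z)) (.a (.c (.l 10) .z) .z)) (.b .z (.a .z (.c .z (.l 8)))))) (.a (.c .z (.b .z (.a (.c .z (.l 8)) (.l 8)))) (.c (.b .z (.a (.c .z (.l 8)) (.l 8)))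
(.b (.a (.c .z (.l 8)) (.l 8)) (.l 8)))))))) (.a (.c (.b (.l 16) (.c (.b (.l 16) (.a (.l 16) (.c (.l 16) (.a (.l 16) .z)))) (.b (.a (.l 16) (.c (.l
16) (.a (.l 16) .z))) (.a (.c (.l 16) (.b (.l 16) .z)) .z)))) (.b (.c (.b (.l 16) (.a (.l 16) (.a (.l 16) .z))) (.b (.a (.l 16) (.a (.c (.l 16) .z)
.z)) (.a (.c (.b (.l 16) .z) .z) (.a .z (.c .z (.b .z (.l 8))))))) (.c (.b (.a (.c (.l 16) (.b (.l 16) .z)) .z) (.a (.c .z (.b .z (.c .z (.l 8)))) (.a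
(.c .z (.b .z (.l 8))) (.c (.b .z (.l 8)) (.l 8))))) (.b (.a (.c .z (.b .z (.l 8))) (.a (.c .z (.l 8)) (.c (.b .z (.l 8)) (.l 8)))) (.l 8))))) (.c (.a
(.b (.c (.b (.l 16) (.a (.l 16) (.c (.l 16) .z))) (.b (.a (.l 16) .z) (.a (.c (.l 16) .z) .z))) (.c (.b (.a (.c (.l 16) .z) .z) (.a .z (.c .z (.a .z
(.l 8))))) (.b (.a .z (.c .z (.a .z (.l 8)))) (.a (.c .z (.b .z (.l 8))) (.l 8))))) (.b (.a (.c .z (.b .z (.a .z (.c .z (.l 8))))) (.c (.b .z (.a .z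
(.c .z (.l 8)))) (.b (.a (.c .z (.l 8)) (.l 8)) (.l 8)))) (.a (.c (.b (.a .z (.c .z (.l 8))) (.a (.c .z (.l 8)) (.l 8))) (.l 8)) (.l 8)))) (.a (.b (.c
(.b .z (.a .z (.c .z (.a .z (.l 8))))) (.b (.a .z (.c (.a .z (.l 8)) (.l 8))) (.a (.c (.b .z (.l 8)) (.l 8)) (.l 8)))) (.c (.b (.a (.c .z (.l 8)) (.l
8)) (.l 8)) (.l 8))) (.b (.a (.c (.b (.a (.c .z (.l 8)) (.l 8)) (.l 8)) (.l 8)) (.l 8)) (.l 8))))))))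

theorem vQ113 : ev3 Q113 J3_0 J4_8 J4_12 = 296111611552348608624729 := by decide +kernel

noncomputable def Q85 : QT3 :=
(.b (.c (.a (.b (.c (.a (.b (.c (.a (.b .z (.c .z (.l 39))) .z) (.a (.b .z (.l 39)) .z)) (.c (.c .z (.a (.a (.l 39) .z) .z)) (.c (.a (.l 39) .z) .z)))
.z) .z) .z) .z) (.a (.b (.c .z (.a (.b (.c (.a (.b .z (.c .z (.b (.a .z (.l 11)) (.l 11)))) (.b .z (.c .z (.a (.b .z (.l 11)) .z)))) (.a (.b (.c .z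
(.a (.b .z (.l 11)) .z)) (.l 11)) (.b .z (.c (.a (.b .z (.l 11)) .z) (.a (.b .z (.l 11)) .z))))) (.c (.c .z (.c (.a (.b (.c .z (.l 11)) .z) .z) (.a
(.l 11) (.b (.l 11) (.c .z (.l 11)))))) (.l 11))) (.b .z (.c .z (.a (.b (.c (.a (.b .z (.l 11)) .z) (.a (.b .z (.l 11)) .z)) (.c (.c (.c .z (.l 11))
(.l 11)) (.l 11))) (.b .z (.c .z (.a (.b .z (.l 11)) .z)))))))) (.c .z (.c (.c .z (.a (.b (.c .z (.a (.b (.c .z (.l 11)) .z) .z)) .z) .z)) (.a (.c (.b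
(.c (.a (.l 11) (.b (.l 11) .z)) (.l 11)) (.c (.a (.b (.c .z (.l 11)) .z) .z) (.a (.b (.l 11) (.c .z (.l 11))) (.b (.c .z (.l 11)) .z)))) (.b (.l 11)
(.a (.l 11) (.c (.b (.l 11) (.a (.l 11) .z)) (.l 11))))) (.c (.b (.c .z (.a (.b (.l 11) .z) .z)) .z) (.b (.c (.a (.l 11) (.b (.l 11) .z)) (.l 11)) (.a
(.c (.b (.a (.l 11) .z) .z) (.b (.l 11) (.a (.l 11) .z))) (.c .z (.b (.a (.l 11) .z) .z))))))))) (.b .z (.c (.a (.b .z (.c (.c (.c .z (.c (.l 51) .z))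
.z) .z)) .z) .z)))) (.c (.b (.a (.c (.b .z (.a (.c (.b .z (.c (.c .z (.l 23)) (.l 23))) (.b (.b .z (.b .z (.l 23))) (.l 23))) (.c (.c (.c (.c (.b .z
(.l 19)) .z) .z) (.b (.b .z (.b .z (.l 23))) (.l 23))) (.b (.b .z (.b .z (.l 23))) (.l 23))))) (.b .z (.b (.b .z (.b .z (.l 23))) (.l 23)))) (.c (.c
(.c (.c (.b .z (.a (.b .z (.l 19)) (.b .z (.l 19)))) (.a .z (.b .z (.b .z (.l 19))))) (.a (.c .z (.b .z (.b .z (.l 23)))) .z)) (.c (.a (.b .z (.b (.b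
.z (.b .z (.l 23))) (.l 23))) (.c (.b .z (.a (.b .z (.l 23)) .z)) (.b .z (.b .z (.l 23))))) (.b .z (.b (.b .z (.b .z (.l 23))) (.l 23))))) (.b .z (.b
(.b .z (.b .z (.l 23))) (.l 23))))) (.c (.c (.a (.c (.a (.c (.a (.c .z (.a (.l 23) .z)) (.c (.a .z (.l 19)) .z)) (.a (.l 23) (.c (.a (.l 23) .z) (.l
23)))) (.c (.a (.c (.l 19) (.a .z (.l 19))) (.l 19)) (.a .z (.c (.b .z (.l 19)) .z)))) (.a (.l 23) (.c (.a (.l 23) (.c .z (.b (.l 23) .z))) (.l 23))))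
(.c (.a (.c (.l 19) (.a (.b (.c (.l 19) .z) (.l 19)) (.l 19))) (.l 19)) (.a (.c (.a .z (.b .z (.c (.l 19) .z))) (.a (.b (.l 23) .z) .z)) (.c (.b (.a
(.c (.l 19) .z) (.l 19)) (.l 19)) (.b .z (.a (.c (.l 19) .z) (.l 19))))))) (.a (.l 23) (.c (.a (.c (.a (.l 23) (.b (.l 23) (.c .z (.l 23)))) (.l 23))
(.b (.c (.a (.c .z (.l 23)) .z) (.a (.l 23) (.b (.l 23) .z))) (.c .z (.a (.c .z (.l 23)) .z)))) (.a (.l 23) (.b (.l 23) (.c (.a (.l 23) (.b (.l 23)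
.z)) (.l 23))))))) (.c (.l 23) (.c (.l 23) (.b (.a (.l 23) (.c (.l 23) (.b (.l 23) (.c (.l 23) .z)))) (.c (.b (.l 23) (.a (.l 23) (.c (.l 23) .z)))
(.b (.a (.c (.l 23) (.b (.l 23) .z)) .z) (.a .z (.c .z (.b (.a .z (.l 9)) (.l 9))))))))))) (.c (.c (.a (.c (.b (.c (.b (.a .z (.a .z (.l 51))) (.b (.b
.z (.b .z (.l 23))) (.l 23))) (.b (.c (.a .z (.l 51)) .z) (.b (.b .z (.b .z (.l 23))) (.c (.l 23) .z)))) (.b (.c (.b (.c (.l 23) (.a (.l 23) .z)) (.c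
(.a (.l 23) .z) .z)) (.b .z (.c (.b .z (.a .z (.l 9))) (.b (.a .z (.l 9)) (.l 9))))) (.c (.b (.c .z (.b .z (.a .z (.l 9)))) (.c (.b (.a .z (.l 9)) (.l
9)) (.l 9))) (.l 9)))) (.b .z (.a (.c (.b (.b (.c .z (.l 9)) (.l 9)) (.l 9)) (.b (.c (.a (.l 9) (.b .z (.l 9))) .z) (.a (.l 9) (.c (.l 9) (.b .z (.l
9)))))) (.c (.a (.b (.c (.l 9) (.b .z (.l 9))) (.l 9)) (.c (.l 9) (.b .z (.a (.l 9) .z)))) (.b .z (.a (.c (.b .z (.l 9)) .z) .z)))))) (.c (.a (.c (.b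
(.b .z (.b .z (.l 23))) (.b (.b (.c (.l 23) .z) .z) (.b (.c .z (.l 9)) (.l 9)))) (.a (.b .z (.b (.b .z (.l 9)) (.l 9))) (.c (.b .z (.b (.b .z (.l 9))
(.l 9))) (.a (.b .z (.b .z (.l 9))) .z)))) (.c (.a (.b .z (.b .z (.l 9))) (.b .z (.c (.a (.b .z (.l 9)) .z) .z))) .z)) (.a (.c (.b .z (.a (.c (.a (.b
.z (.l 9)) .z) .z) .z)) (.b (.b .z (.b .z (.l 32))) .z)) .z))) (.a (.c (.b (.b .z (.b .z (.l 32))) (.a (.c (.b .z (.a (.c (.b .z (.l 9)) .z) .z)) (.b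
(.b (.l 32) .z) .z)) (.c (.b (.l 32) (.a .z (.l 32))) (.b (.l 32) (.a .z (.l 32)))))) (.b (.b .z (.b (.b .z (.b .z (.l 32))) (.l 32))) (.b (.a (.b (.a
.z (.l 32)) .z) (.b (.l 32) (.a .z (.l 32)))) .z))) (.b (.a (.b .z (.b (.b .z (.b .z (.l 32))) (.l 32))) (.c (.b .z (.a (.b .z (.l 32)) .z)) (.b .z
(.b .z (.l 32))))) (.b (.c (.a (.a (.l 32) (.c .z (.l 32))) .z) (.a (.b (.l 32) (.c (.l 32) .z)) .z)) (.c (.a (.b (.a (.l 32) .z) .z) .z) .z))))) (.a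
(.c (.b (.b .z (.b (.b .z (.b .z (.l 32))) (.a (.c (.b (.l 32) .z) .z) (.l 32)))) (.b (.c (.a .z (.b (.l 32) .z)) .z) .z)) (.b (.a (.c .z (.b (.a (.c
(.b (.l 11) .z) (.l 11)) (.c .z (.b (.a (.l 11) .z) .z))) (.a (.c .z (.b (.a (.l 11) .z) .z)) .z))) .z) (.a (.c (.b .z (.b .z (.c .z (.c .z (.l
15))))) (.b (.a .z (.b .z (.c .z (.l 15)))) (.c (.b (.c .z (.l 15)) (.l 15)) (.l 15)))) (.b (.c .z (.b (.c .z (.c .z (.l 15))) (.c .z (.l 15)))) (.c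
(.c .z (.b .z (.c .z (.l 15)))) (.l 15)))))) (.b (.c (.b .z (.a (.c (.b .z (.l 32)) .z) .z)) (.b .z (.a .z (.c (.b .z (.l 41)) .z)))) (.c (.b .z (.c
(.a .z (.c (.b (.l 37) .z) .z)) (.a .z (.c .z (.a (.l 41) .z))))) (.b (.a (.c .z (.c .z (.a (.b .z (.l 15)) .z))) (.c (.c (.l 41) (.b (.l 41) .z)) (.c
(.b .z (.c .z (.l 15))) (.a (.c (.l 15) .z) .z)))) (.c (.c (.b (.a .z (.l 41)) .z) (.b .z (.c .z (.l 15)))) (.a (.l 15) (.c (.l 15) (.a (.c (.l 15)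
.z) .z)))))))))))

theorem vQ85 : ev3 Q85 J4_4 J3_2 J3_6 = 210294370748038219547988 := by decide +kernel

noncomputable def Q150 : QT3 :=
(.c .z (.a (.b (.c (.a (.b (.c .z (.c (.b (.c .z (.a (.c .z (.l 29)) (.b .z (.c .z (.l 29))))) (.c .z (.c .z (.l 29)))) (.b (.b (.a (.l 29) (.c (.b .z
(.l 29)) (.l 29))) (.l 29)) (.l 29)))) (.c .z (.a (.b (.c .z (.b (.l 29) (.b (.b (.l 29) .z) .z))) .z) (.b (.c .z (.b (.l 29) (.b (.b (.l 29) .z)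
.z))) .z)))) (.b (.c .z (.c (.b .z (.a (.c .z (.b .z (.c .z (.l 29)))) .z)) (.b (.a (.c (.b .z (.a (.l 29) .z)) (.b .z (.l 29))) .z) (.a (.l 29) (.c
(.b (.a (.l 29) .z) (.l 29)) (.b (.a (.l 29) .z) (.l 29))))))) (.c .z (.a (.b (.c .z (.b (.l 29) (.b (.b (.l 29) .z) .z))) .z) (.b (.c .z (.b (.l 29)
.z)) .z))))) (.b (.a (.c (.l 29) (.b (.a (.c (.l 29) (.c (.a (.l 29) (.c (.l 29) .z)) (.a (.c .z (.a .z (.c .z (.l 7)))) (.c (.a .z (.c .z (.l 7)))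
(.l 7))))) (.c (.c (.l 29) (.a (.c (.l 29) .z) .z)) (.b (.c (.a .z (.c (.a .z (.l 7)) (.l 7))) (.l 7)) (.a (.c (.c .z (.a .z (.l 7))) (.l 7)) (.c (.c
(.a .z (.l 7)) (.l 7)) (.b (.l 7) (.a (.l 7) .z))))))) (.a (.c (.l 29) (.b (.c (.a (.l 29) .z) (.a .z (.c (.a .z (.l 7)) (.l 7)))) (.a (.c (.l 29) .z)
(.c .z (.b (.c .z (.l 7)) .z))))) (.c (.b (.c (.a (.l 29) .z) .z) (.a (.c (.l 29) .z) .z)) (.b (.a (.c (.c .z (.a .z (.l 7))) (.b (.l 7) (.a (.l 7)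
.z))) (.c (.b (.l 7) (.a (.l 7) .z)) .z)) (.a (.c (.b (.c .z (.l 7)) .z) .z) .z)))))) (.c (.b (.a (.c (.b (.b .z (.a (.l 29) .z)) (.l 29)) (.c (.b (.b
.z (.l 29)) (.l 29)) (.a (.l 29) (.c (.l 29) .z)))) (.c (.b .z (.b .z (.a (.l 29) .z))) (.b (.c .z (.a .z (.c .z (.a .z (.l 7))))) (.a .z (.c .z (.b
(.c .z (.l 7)) .z)))))) (.a (.c (.l 29) (.b (.c (.l 29) (.a (.l 29) .z)) (.a (.c (.l 29) .z) .z))) (.c (.b (.c (.l 29) (.a (.l 29) .z)) (.a (.c (.l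
29) .z) .z)) .z))) (.b (.a (.c (.b (.c .z (.a (.c .z (.a .z (.l 7))) (.l 7))) (.a (.c .z (.c .z (.l 7))) (.c (.c .z (.a .z (.l 7))) (.b (.l 7) (.a (.l
7) .z))))) (.b (.a (.l 7) (.c (.l 7) (.b (.a (.l 7) .z) .z))) (.a (.c (.b (.l 7) (.a (.l 7) .z)) (.b (.a (.l 7) .z) .z)) .z))) (.c (.b (.a (.c (.c .z
(.l 7)) (.b (.l 7) (.a (.l 7) .z))) (.c (.b (.l 7) (.a (.l 7) .z)) (.b (.a (.l 7) .z) .z))) (.a (.c (.b (.c .z (.l 7)) (.a (.l 7) .z)) .z) .z)) (.b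
(.a (.c (.b (.a (.l 7) .z) .z) .z) (.c .z (.b .z (.l 14)))) (.a (.c .z (.b .z (.l 14))) (.l 14))))) (.a (.c (.b (.a (.c .z (.b (.c .z (.l 7)) (.a (.l
7) .z))) (.c (.b (.c .z (.l 7)) .z) .z)) .z) (.b (.a .z (.c .z (.l 14))) (.a (.c .z (.l 14)) (.l 14)))) (.c (.b (.a .z (.c .z (.l 14))) (.a (.c .z (.l
14)) (.l 14))) (.l 14)))))) (.a (.c (.b (.c (.b (.l 29) (.b (.b (.l 29) .z) .z)) (.a (.b (.l 29) (.b (.b (.l 29) .z) .z)) (.b (.l 29) .z))) .z) (.b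
(.a (.c (.b (.l 29) .z) (.b (.a (.c (.l 29) .z) .z) .z)) (.c (.b (.a (.c (.l 29) .z) .z) .z) (.b (.a (.c .z (.b .z (.l 14))) (.c (.b .z (.l 14)) (.l
14))) .z))) .z)) (.c (.b (.a (.c (.b (.l 29) .z) (.b (.a (.c (.l 29) .z) .z) .z)) (.c (.b (.a (.c (.l 29) .z) .z) .z) (.b (.a (.c .z (.b .z (.l 14)))
(.c (.b .z (.l 14)) (.l 14))) (.a .z (.b (.b (.l 14) .z) .z))))) .z) (.b (.a (.c (.b (.a (.c .z (.b .z (.l 14))) (.c (.b .z (.l 14)) (.l 14))) (.a .z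
(.b (.b (.l 14) .z) .z))) (.b (.l 14) (.b (.b (.l 14) .z) .z))) (.b (.l 14) (.b (.b (.l 14) .z) .z))) .z))))) .z) (.b (.c (.a (.b (.c .z (.b (.a (.c
(.c .z (.c .z (.l 55))) (.c (.b (.l 55) .z) .z)) (.c (.c .z (.c .z (.a (.a .z (.a .z (.l 11))) (.l 11)))) (.b (.a (.a .z (.a (.c .z (.l 11)) (.l 11)))
(.l 11)) (.a (.c (.a .z (.a .z (.l 11))) .z) (.c (.l 11) (.b (.a (.l 11) .z) .z)))))) (.a (.c .z (.b .z (.a (.c .z (.l 29)) .z))) (.c (.b (.c .z (.c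
.z (.a .z (.l 11)))) .z) (.b (.a .z (.c (.b (.a (.l 11) .z) .z) .z)) .z))))) (.c .z (.a (.b (.c .z (.b (.a (.c (.l 29) .z) .z) .z)) .z) (.b (.c .z (.a
(.b (.c .z (.b .z (.l 14))) .z) (.b (.c .z (.l 14)) (.b (.b (.l 14) .z) .z)))) .z)))) (.b (.c .z (.a (.b (.c (.b (.c .z (.c .z (.l 11))) (.a (.c .z
(.c .z (.l 11))) .z)) (.b (.a (.c (.l 11) (.b (.l 11) .z)) (.c (.b (.a (.l 11) .z) .z) .z)) (.a (.c (.b (.a (.l 11) .z) .z) .z) .z))) .z) (.b (.c .z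
(.a .z (.b .z (.l 29)))) (.c .z (.c (.b (.l 29) (.c (.l 29) .z)) (.b (.c (.l 29) .z) (.c .z (.b .z (.l 14))))))))) (.c .z (.a (.b (.c .z (.c (.b (.c
.z (.b .z (.l 14))) (.b (.b (.l 14) .z) .z)) (.b (.l 14) (.b (.b (.l 14) .z) .z)))) .z) (.b (.c .z (.c (.b (.c .z (.b .z (.l 14))) (.b (.b (.l 14) .z)
.z)) (.b (.l 14) (.b (.b (.l 14) .z) .z)))) .z))))) (.a (.b (.c (.b (.a (.c .z (.b (.a (.c .z (.b (.c .z (.l 7)) (.a (.l 7) .z))) (.c (.b (.c .z (.l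
7)) .z) .z)) .z)) (.c (.b (.a (.c (.c (.a .z (.l 11)) (.a .z (.l 11))) .z) (.c (.b (.l 11) (.a (.l 11) .z)) .z)) .z) (.b (.a .z (.c .z (.l 14))) (.a
(.c .z (.l 14)) (.l 14))))) (.a (.c (.b .z (.a .z (.c .z (.b .z (.l 14))))) (.b (.a .z (.c .z (.l 14))) (.a (.c (.b .z (.l 14)) (.l 14)) (.l 14))))
(.c (.b (.a (.c .z (.b .z (.l 14))) (.c .z (.l 14))) (.a (.c (.b .z (.l 14)) (.l 14)) (.l 14))) (.l 14)))) (.b (.a (.c (.b (.a .z (.c .z (.l 14))) (.a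
(.c .z (.l 14)) (.l 14))) (.b (.a (.c (.b .z (.l 14)) (.l 14)) (.l 14)) (.l 14))) (.l 14)) (.l 14))) (.c (.a (.b (.c (.b (.a (.c .z (.b .z (.l 14)))
(.c (.b .z (.l 14)) (.l 14))) (.a .z (.b (.b (.l 14) .z) .z))) (.b (.l 14) (.b (.b (.l 14) .z) .z))) .z) (.b (.b (.l 14) (.b (.b (.l 14) .z) .z)) .z))
(.c (.b (.b (.l 14) (.b (.b (.l 14) .z) .z)) .z) (.b (.b (.l 14) (.b (.b (.l 14) .z) .z)) .z)))) (.b (.c (.a (.b (.c .z (.c (.b (.c (.b .z (.l 14))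
(.l 14)) (.l 14)) (.l 14))) (.c (.c (.b (.c .z (.b .z (.l 14))) (.l 14)) (.l 14)) (.l 14))) (.c (.b (.c .z (.b .z (.c .z (.b .z (.l 14))))) (.c (.b
(.c .z (.b .z (.l 14))) (.l 14)) (.l 14))) (.b (.c (.b (.c (.b .z (.l 14)) (.l 14)) (.l 14)) (.l 14)) (.l 14)))) (.l 14)) (.b (.b (.l 14) (.b (.b (.l
14) .z) .z)) (.a (.c .z (.c (.c .z (.c .z (.a (.l 43) .z))) .z)) .z))))) .z)))

theorem vQ150 : ev3 Q150 J3_2 J3_5 J2_2 = 281341817399117299934758 := by decide +kernel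

noncomputable def Q163 : QT3 :=
(.b (.a (.b (.c (.a (.c (.b (.a (.c .z (.b .z (.a .z (.l 8)))) (.c (.b (.a .z (.l 8)) (.l 8)) (.l 8))) (.a (.c (.b (.a .z (.l 8)) (.l 8)) (.l 8)) (.l
8))) (.b (.a (.c (.b (.a .z (.l 8)) (.l 8)) .z) (.c (.c (.l 8) .z) .z)) (.c (.l 8) (.c (.a (.l 8) .z) .z)))) (.c (.c (.l 8) (.c (.l 8) (.a (.l 8) (.b
(.c (.l 8) .z) (.l 8))))) (.c (.c (.a (.b .z (.l 8)) .z) .z) (.c (.a .z (.b (.l 21) .z)) (.b (.l 21) (.a .z (.l 21))))))) (.c (.b (.c (.a (.c (.a .z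
(.l 21)) (.l 21)) (.c (.l 21) (.c (.l 21) .z))) (.c (.a .z (.c .z (.b .z (.l 12)))) (.a (.c (.b .z (.l 12)) (.l 12)) (.l 12)))) (.c (.a .z (.c (.l 21)
.z)) (.b (.c (.a .z (.c .z (.l 12))) (.a (.b (.l 12) .z) (.l 12))) (.c (.a .z (.l 12)) (.a .z (.b (.l 12) .z)))))) (.b (.c (.b (.a (.c (.l 12) .z) (.l
12)) (.c (.a (.b (.l 12) .z) (.l 12)) (.a .z (.b (.l 12) .z)))) (.b .z (.c .z (.a (.l 13) .z)))) (.c (.b (.c (.a .z (.b (.l 12) .z)) .z) (.c .z (.a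
(.l 13) .z))) (.b (.a (.l 13) (.c .z (.l 13))) (.l 13)))))) (.c (.c (.l 8) (.b (.a (.c (.l 8) (.a (.l 8) (.c (.l 8) .z))) (.c (.a (.l 8) (.c (.l 8)
.z)) .z)) (.c (.a (.l 8) (.a (.l 8) (.c (.l 8) (.a (.l 8) .z)))) (.b (.c (.a (.l 8) (.a (.l 8) .z)) (.a (.b (.l 8) .z) .z)) (.c (.a .z (.a (.l 8) .z))
.z))))) (.c (.b (.c .z (.b (.c (.a .z (.b (.l 12) .z)) .z) (.a (.c (.b .z (.l 11)) (.c (.l 11) .z)) (.c .z (.b .z (.l 11)))))) (.c (.b .z (.a .z (.c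
.z (.a (.l 11) .z)))) (.a (.c (.l 11) (.c (.l 11) .z)) (.b (.c (.a (.l 11) .z) (.l 11)) (.l 11))))) (.b (.c (.b (.a (.c (.c .z (.l 13)) (.l 13)) (.c
.z (.l 13))) (.c (.c .z (.a (.l 13) .z)) (.l 13))) (.l 13)) (.c (.c (.c .z (.a (.l 13) (.a (.l 13) .z))) (.l 13)) (.l 13)))))) (.c (.c (.a (.c (.b (.c
(.l 8) (.a (.l 8) (.b (.c (.l 8) .z) (.l 8)))) (.l 8)) (.b (.a (.c (.b (.c (.l 8) .z) (.l 8)) .z) .z) (.a (.c (.l 8) (.b (.a (.l 8) .z) (.l 8))) (.c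
(.b (.a (.l 8) .z) (.l 8)) (.b .z (.a (.l 8) .z)))))) (.c (.a (.c (.b (.a (.l 8) (.c (.l 8) .z)) (.l 8)) (.b .z (.a (.l 8) (.c (.l 8) .z)))) (.c (.b
.z (.a (.l 8) (.c (.l 8) .z))) .z)) (.a .z (.b .z (.c .z (.b .z (.l 21))))))) (.a (.c (.b (.a (.c .z (.b (.l 21) .z)) (.l 21)) (.a (.c (.b .z (.a (.l
8) .z)) .z) (.c .z (.b (.l 21) .z)))) (.b (.l 21) (.a (.c (.b (.l 21) .z) (.b (.l 21) .z)) (.c (.l 21) .z)))) (.c (.b (.a (.b (.c .z (.l 21)) (.l 21))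
(.b .z (.c .z (.l 21)))) (.a (.c (.b (.l 21) .z) (.l 21)) (.l 21))) (.b (.c (.a (.l 21) (.b .z (.l 21))) (.b (.l 21) (.c (.l 21) .z))) (.c (.b (.l 21)
.z) (.b .z (.c .z (.b .z (.l 12))))))))) (.b (.c (.c (.c (.a (.b (.l 21) .z) .z) (.a (.b .z (.c .z (.b .z (.l 12)))) (.b (.c .z (.a .z (.l 12))) (.c
(.a .z (.l 12)) (.l 12))))) (.c (.a (.b (.c (.b .z (.l 12)) (.l 12)) (.l 12)) (.l 12)) (.l 12))) (.b (.c (.l 12) (.b (.c (.l 12) (.a (.b (.l 12) .z)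
(.l 12))) (.a (.c (.b (.l 12) .z) .z) (.c (.l 12) (.a .z (.l 12)))))) (.c (.a (.b (.c (.l 12) (.b (.l 12) .z)) (.c (.b (.l 12) .z) .z)) (.b (.l 12)
(.c (.l 12) (.a .z (.l 12))))) (.a (.b .z (.c .z (.l 13))) (.b (.c (.a .z (.l 12)) .z) .z))))) (.c (.b (.c (.c (.a .z (.c .z (.l 12))) (.a (.c (.b .z
(.l 12)) (.l 12)) (.l 12))) (.a (.b (.c (.l 12) (.a .z (.l 12))) .z) (.c (.l 12) (.b (.l 12) (.a .z (.l 12)))))) (.c (.a (.b (.c (.c .z (.l 12)) .z)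
.z) (.c (.l 12) (.b (.l 12) (.a .z (.l 12))))) (.a (.b (.c .z (.a (.l 11) .z)) (.c (.a (.l 11) .z) (.l 11))) (.b (.c (.a .z (.l 12)) .z) .z)))) (.b
(.c (.a (.b .z (.c .z (.c .z (.l 13)))) (.b (.c (.a .z (.l 12)) .z) .z)) (.a (.l 13) (.b (.c .z (.l 13)) (.l 13)))) (.c (.a (.c (.c (.l 11) .z) (.c
(.a (.l 13) .z) (.l 13))) (.b .z (.c (.l 11) .z))) (.l 13))))))) (.c (.b (.c (.b (.a (.l 8) (.a (.l 8) (.c (.a (.l 8) (.c (.l 8) (.a (.l 8) .z))) (.a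
(.c (.a (.l 8) .z) .z) .z)))) (.a (.c (.l 8) (.b (.c (.l 8) (.a .z (.l 8))) (.a .z (.c (.l 8) .z)))) (.a (.l 8) (.c (.a (.l 8) (.c (.l 8) (.a (.l 8)
.z))) (.a (.c (.l 8) (.a (.l 8) .z)) .z))))) (.a (.b (.c (.b (.c (.l 8) (.a .z (.l 8))) (.c (.a .z (.l 8)) .z)) (.a (.b .z (.c (.b .z (.l 9)) (.c (.l
9) .z))) .z)) (.c (.a (.b (.c .z (.a (.l 9) .z)) (.c (.a (.l 9) .z) (.l 9))) (.b .z (.c .z (.a (.l 9) .z)))) (.a (.c (.c (.l 9) (.b (.l 9) .z)) .z)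
.z))) (.b (.c (.a (.a (.c (.l 8) (.a (.l 8) .z)) .z) (.a (.c .z (.l 21)) (.c (.l 21) .z))) (.a .z (.c .z (.b (.c .z (.l 12)) (.a .z (.l 12)))))) (.c
(.a (.c (.b (.a (.l 8) .z) .z) .z) .z) (.a (.b .z (.c .z (.a .z (.l 11)))) .z))))) (.c (.a (.b (.c (.a (.b (.c (.l 8) .z) .z) (.c (.l 8) (.b (.l 8)
.z))) (.a (.b (.c .z (.a (.l 9) .z)) (.c (.a (.l 9) .z) (.l 9))) (.b .z (.c .z (.a (.l 9) .z))))) (.c (.a (.b (.c .z (.a (.l 9) .z)) (.c (.a (.l 9)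
.z) (.l 9))) (.b .z (.c .z (.a (.l 9) .z)))) (.a (.l 9) (.b (.c (.a (.l 9) .z) (.l 9)) (.l 9))))) (.c (.b (.l 8) (.a (.c (.b (.l 8) (.a .z (.l 8)))
(.b (.a .z (.l 8)) .z)) (.c (.l 8) (.b (.l 8) (.a .z (.l 8)))))) (.b (.a (.c (.b (.l 8) (.a .z (.l 8))) (.b (.a .z (.l 8)) .z)) (.c (.a (.l 8) (.a (.l
8) .z)) .z)) (.a (.c .z (.b .z (.l 9))) .z)))) (.a (.b (.c (.a (.l 9) (.b (.c (.a (.l 9) .z) (.c (.l 9) .z)) (.c (.l 9) (.c (.l 9) .z)))) (.c (.a (.c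
(.b (.l 9) .z) .z) .z) (.a (.c .z (.l 10)) (.a (.c (.l 10) .z) .z)))) (.c (.c (.a (.l 9) (.c (.l 9) (.b (.l 9) .z))) (.a (.c (.b (.l 9) .z) .z) .z))
(.c (.a (.c .z (.b .z (.l 10))) (.c .z (.a (.l 10) .z))) (.a (.l 10) (.a (.c (.l 10) .z) .z))))) (.b (.c .z (.a (.c (.c .z (.a .z (.l 11))) (.a (.c .z
(.l 11)) (.l 11))) (.c (.b .z (.a (.l 11) .z)) (.b (.a (.l 11) .z) (.l 11))))) (.c (.a .z (.c .z (.b .z (.a .z (.l 11))))) (.a (.c (.a .z (.c .z (.l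
11))) (.l 11)) (.l 11))))))) (.b (.c (.a (.b (.c (.a (.c .z (.a .z (.c .z (.l 11)))) (.b (.c .z (.l 11)) (.c .z (.l 11)))) (.c (.l 11) (.c (.l 11) (.a
.z (.l 11))))) (.c (.c (.a (.c (.b .z (.l 10)) (.a (.l 10) .z)) (.a .z (.l 11))) (.a (.a .z (.c .z (.l 11))) (.l 11))) (.c (.l 11) (.a (.c (.a .z (.l
11)) .z) (.c (.l 11) (.a .z (.l 11))))))) (.b (.c (.a (.b (.c .z (.a (.l 11) .z)) (.c (.a (.l 11) .z) (.l 11))) (.c (.b (.a .z (.l 12)) .z) .z)) (.a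
(.l 11) (.b (.c .z (.l 11)) (.l 11)))) (.c (.a (.l 11) (.b (.c .z (.a (.l 11) .z)) (.c (.a (.l 11) .z) (.l 11)))) (.l 11)))) (.c (.a (.c (.a (.c (.a
(.l 13) .z) (.l 13)) (.c .z (.a (.l 13) .z))) (.l 13)) (.c (.a (.c (.l 11) (.a .z (.a .z (.l 11)))) (.l 11)) (.a (.c (.a (.l 13) .z) (.l 13)) (.c (.a
.z (.l 11)) (.a (.a (.l 13) .z) .z))))) (.l 13))) (.c (.a (.c (.a (.c (.a (.l 10) (.c (.a (.l 10) .z) .z)) (.a .z (.c (.a .z (.l 11)) (.l 11)))) (.c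
(.a (.c .z (.a .z (.l 11))) (.l 11)) (.l 11))) (.c (.l 11) (.a (.c (.a .z (.b (.l 11) .z)) .z) (.c (.l 11) (.a .z (.l 11)))))) (.l 11)) (.c (.a (.c
(.a (.l 13) (.c .z (.a (.l 13) (.a (.l 13) .z)))) (.l 13)) (.c (.a (.c (.a (.a .z (.l 11)) (.l 11)) .z) (.l 11)) (.a (.c (.a (.l 13) .z) (.l 13)) (.c
(.a .z (.l 11)) (.a (.a (.l 13) .z) .z))))) (.a (.l 13) (.c (.a (.l 13) (.c (.a (.l 13) (.a (.l 13) .z)) (.l 13))) (.l 13))))))))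

theorem vQ163 : ev3 Q163 J4_5 J4_9 J4_13 = 152007060928717623328359 := by decide +kernel

noncomputable def Q98 : QT3 :=
(.a (.b (.c (.a .z (.b (.c (.a (.b (.c (.a (.b (.c .z (.l 35)) .z) (.b (.c .z (.l 35)) .z)) (.b (.b (.l 35) (.a .z (.l 35))) .z)) .z) (.b (.c (.a (.b
(.c .z (.l 35)) .z) (.b (.c .z (.l 35)) .z)) (.b (.l 35) (.a (.b (.l 35) .z) (.l 35)))) .z)) (.a (.b (.b (.b (.a (.b (.l 35) .z) (.l 35)) .z) .z) .z)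
(.b (.b (.b (.l 35) (.a (.b (.l 35) .z) (.l 35))) (.b (.a .z (.c (.l 35) .z)) .z)) .z))) .z)) (.b (.b (.a .z (.a (.b (.b (.b (.a (.a .z (.l 35)) (.l
35)) .z) .z) .z) (.b (.b (.l 35) (.b (.a .z (.c (.l 35) .z)) .z)) .z))) .z) (.c .z (.b .z (.c .z (.b (.c .z (.c .z (.b (.l 25) (.c .z (.b (.l 25)
.z))))) .z)))))) (.c .z (.a (.b (.c .z (.b .z (.c .z (.c .z (.c .z (.a (.b .z (.l 32)) (.b .z (.l 32)))))))) .z) (.b (.c .z (.b .z (.c .z (.c .z (.a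
(.c .z (.a (.l 32) .z)) .z))))) (.c .z (.a (.b (.c .z (.b (.c .z (.a (.l 32) .z)) .z)) .z) .z)))))) (.b (.c (.a (.b (.c (.a (.b (.c .z (.l 35)) (.c .z
(.a (.b (.c .z (.l 35)) .z) (.b (.c .z (.l 35)) .z)))) (.b (.c .z (.l 35)) (.c .z (.a (.b (.c .z (.l 35)) .z) (.b (.c .z (.l 35)) .z))))) (.b (.a (.b
(.l 35) (.a (.b (.l 35) (.c (.l 35) .z)) (.l 35))) (.l 35)) (.a (.b (.c (.a .z (.b (.l 35) .z)) .z) .z) (.b (.c (.l 35) (.a (.b (.l 35) .z) (.l 35)))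
(.c (.a (.c (.l 35) .z) (.l 35)) .z))))) .z) (.b (.c (.a (.b (.c .z (.c (.b .z (.a (.l 35) .z)) (.l 35))) (.c .z (.a (.b (.c .z (.l 35)) .z) (.b (.c
.z (.l 35)) .z)))) (.b (.c .z (.c .z (.b .z (.a (.l 35) .z)))) (.c .z (.a (.b (.c .z (.l 35)) .z) (.b (.c .z (.l 35)) .z))))) (.l 35)) (.c .z (.a (.b
(.c (.a (.b (.c .z (.l 35)) .z) (.b (.c .z (.l 35)) .z)) (.b (.a .z (.c (.l 35) .z)) .z)) .z) (.b (.c (.a (.b (.c .z (.l 35)) .z) (.b (.c .z (.l 35))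
.z)) (.a (.b (.l 35) (.c (.l 35) .z)) (.l 35))) (.c .z (.a .z (.b (.c .z (.l 35)) .z)))))))) (.b (.c (.a (.a (.b (.b (.l 35) (.b (.a .z (.l 35)) .z))
.z) (.b (.b (.l 35) (.b (.l 35) (.a (.c (.l 35) .z) (.l 35)))) (.b (.b (.a .z (.c (.l 35) .z)) .z) .z))) (.b (.l 35) (.a (.b (.a (.b (.l 35) (.c (.l
35) .z)) (.l 35)) (.a .z (.c (.l 35) .z))) (.l 35)))) (.b (.c (.a (.b (.l 35) (.a .z (.b (.l 35) (.a .z (.l 35))))) (.l 35)) (.a (.b (.a (.b (.l 35)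
(.a .z (.l 35))) (.l 35)) (.a .z (.b (.l 35) .z))) (.b (.l 35) (.c (.l 35) (.a (.l 35) (.b (.l 35) .z)))))) (.c (.a .z (.b (.a (.a (.b (.l 35) .z) (.l
35)) (.l 35)) (.c (.a .z (.a .z (.l 35))) (.a .z (.b (.l 35) .z))))) (.a .z (.b (.c (.a .z (.b (.l 35) .z)) .z) (.c .z (.a .z (.b .z (.l 46)))))))))
(.c (.b (.c (.a .z (.a .z (.b (.a (.b (.l 35) .z) (.l 35)) (.a .z (.c (.l 35) .z))))) (.a .z (.b (.a .z (.a .z (.b (.l 35) .z))) .z))) .z) (.b (.c .z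
(.a (.b .z (.c .z (.c .z (.b .z (.b .z (.l 25)))))) (.b .z (.c (.c .z (.c .z (.l 25))) (.b (.b .z (.a .z (.l 25))) (.l 25)))))) (.c .z (.c .z (.b (.c
(.a (.c .z (.b (.l 25) .z)) (.c (.b (.l 25) .z) (.l 25))) (.l 25)) (.c .z (.a .z (.b (.l 25) (.a .z (.l 25)))))))))))) (.c .z (.a .z (.b (.c .z (.c .z
(.b (.c (.b .z (.a .z (.l 69))) .z) .z))) .z)))))

theorem vQ98 : ev3 Q98 J3_0 J3_4 J3_4 = 169737587943478958284530 := by decide +kernel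

noncomputable def Q190 : QT3 :=
(.b (.b (.c (.c (.a (.c (.b (.c (.a .z (.c .z (.a (.c .z (.l 14)) (.l 14)))) (.a (.c (.a .z (.b (.l 14) .z)) (.l 14)) (.l 14))) (.a (.c .z (.c .z (.a
.z (.b (.l 14) .z)))) (.c (.c .z (.a .z (.b (.l 14) .z))) (.b (.l 14) (.a (.c .z (.l 14)) (.c (.l 14) .z)))))) (.b (.a (.c (.l 14) (.c (.l 14) (.a .z
(.b .z (.l 14))))) (.c (.l 14) (.b (.a (.c (.l 14) .z) (.c (.l 14) .z)) (.a (.c (.l 14) .z) .z)))) (.a (.c (.b (.l 14) (.a (.c .z (.l 14)) (.c (.l 14)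
.z))) (.b (.a (.c (.l 14) .z) (.c (.l 14) .z)) (.a (.c (.l 14) .z) .z))) (.c (.b (.a (.l 14) (.c (.l 14) .z)) .z) .z)))) (.c (.b (.a (.l 14) (.c (.b
(.l 14) (.a (.l 14) (.c (.l 14) .z))) (.b (.a (.l 14) (.c (.l 14) .z)) (.a (.c (.l 14) .z) .z)))) (.a (.c (.b (.l 14) (.a (.c .z (.l 14)) (.c (.l 14)
.z))) (.b (.a (.c (.l 14) .z) .z) .z)) (.c (.b (.a (.c (.l 14) .z) .z) .z) (.b .z (.a (.c .z (.l 17)) (.c .z (.l 17))))))) (.b (.a (.c (.b (.a (.l 14)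
(.c (.l 14) .z)) (.a (.c (.l 14) .z) .z)) .z) .z) (.a (.c (.b .z (.a .z (.c (.l 17) .z))) .z) (.c .z (.c (.c (.a (.l 18) .z) .z) (.c .z (.a .z (.l
21))))))))) (.b (.a (.c (.a .z (.c .z (.b .z (.a .z (.c (.l 21) .z))))) (.a (.c (.b .z (.a (.c .z (.l 23)) (.c .z (.l 23)))) (.b (.a .z (.c (.l 23)
.z)) (.c (.l 23) .z))) (.c .z (.c (.a (.c (.l 23) .z) .z) .z)))) (.c (.a (.c (.b (.a .z (.c .z (.l 21))) (.c .z (.l 21))) (.c (.b (.l 21) (.c (.l 21)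
.z)) .z)) (.c (.l 21) (.c (.b (.l 21) .z) .z))) .z)) (.a (.b (.c (.a .z (.c (.a .z (.c .z (.l 21))) .z)) (.c (.a (.c .z (.l 23)) .z) (.a (.c (.l 23)
.z) .z))) (.c .z (.a (.b (.c (.c .z (.l 23)) .z) .z) .z))) (.c (.c (.c (.a (.c .z (.l 21)) (.b (.l 21) (.c (.l 21) .z))) (.b (.c (.l 21) (.b (.l 21)
.z)) .z)) .z) .z)))) .z) (.c (.c (.b (.a (.c .z (.b (.a .z (.c (.a .z (.c .z (.l 17))) .z)) (.a .z (.c (.a (.c .z (.l 17)) (.c (.l 17) .z)) .z)))) (.c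
(.a (.c .z (.b (.a .z (.c .z (.l 17))) (.a (.c .z (.l 17)) (.l 17)))) (.c .z (.c (.l 17) (.a (.l 17) .z)))) (.c (.a (.c (.a (.l 17) (.c (.l 17) .z))
.z) .z) (.a (.c (.a (.c .z (.l 18)) .z) .z) (.c .z (.a .z (.b (.l 21) .z))))))) (.a (.c (.b (.c .z (.a .z (.b (.a .z (.l 17)) (.a .z (.l 17))))) .z)
(.b .z (.a .z (.c .z (.c .z (.c .z (.l 19))))))) (.c (.b (.a (.c .z (.l 17)) (.c (.c .z (.c .z (.l 17))) (.c (.a (.l 17) .z) .z))) (.a (.c (.c .z (.l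
17)) (.b (.l 17) .z)) (.c (.c .z (.l 17)) .z))) .z))) (.b (.a (.b (.c .z (.a (.b (.c .z (.a (.l 25) .z)) (.c .z (.c (.l 25) .z))) .z)) (.c (.a (.c .z
(.b (.a (.l 19) .z) (.l 19))) .z) (.a (.c .z (.c (.l 25) .z)) (.b (.c .z (.c (.l 25) .z)) (.c .z (.c (.l 25) .z)))))) .z) (.a (.b (.c (.a (.c (.c .z
(.l 19)) (.l 19)) (.c (.b .z (.l 19)) (.c (.l 19) (.c (.l 19) .z)))) (.c (.c .z (.a .z (.c .z (.l 25)))) (.c (.c (.b (.l 25) .z) .z) .z))) (.c (.c (.l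
19) (.c (.l 19) (.a (.l 19) (.c (.l 19) .z)))) (.c (.c (.a (.c (.l 19) .z) .z) (.a .z (.c (.l 25) .z))) .z))) (.b (.c .z (.a (.b .z (.c (.c .z (.l
25)) .z)) .z)) (.a (.c (.c (.b (.a (.l 19) .z) (.l 19)) (.c (.a (.l 19) .z) .z)) (.c (.c (.l 25) .z) .z)) (.c .z (.a (.c (.c (.l 25) .z) .z) .z)))))))
.z)) (.a (.b (.c (.c (.b (.c (.b (.a (.c (.b .z (.l 31)) (.l 31)) (.c .z (.b .z (.l 31)))) (.a (.l 31) (.c (.b .z (.l 31)) (.c (.l 31) .z)))) (.c (.b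
(.c (.b (.l 31) .z) .z) (.c .z (.b .z (.c .z (.l 19))))) (.b (.c (.b .z (.c .z (.l 19))) (.l 19)) (.l 19)))) (.c .z (.c (.b (.c .z (.a (.l 19) (.c .z
(.l 19)))) (.a (.l 19) (.c .z (.l 19)))) (.b (.l 19) (.c (.l 19) (.a (.b (.l 19) .z) (.l 19))))))) (.b (.c (.c (.l 19) (.b (.a (.l 19) (.c (.l 19) (.a
(.l 19) .z))) (.c (.b (.l 19) (.a .z (.l 19))) .z))) .z) (.c (.b (.c (.c (.l 19) (.a (.b (.l 19) .z) (.l 19))) (.a .z (.c (.b (.l 19) .z) .z))) (.c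
(.b (.c (.a .z (.l 19)) .z) .z) .z)) .z))) .z) (.c (.c (.b (.c (.b (.c .z (.a (.c .z (.a (.l 19) .z)) .z)) (.c .z (.b (.a (.c .z (.l 19)) .z) (.c (.a
(.l 19) .z) .z)))) (.b (.c (.c (.a (.l 19) (.a (.l 19) .z)) (.b (.l 19) (.a .z (.l 19)))) (.b (.a .z (.c (.l 19) .z)) .z)) (.c (.b (.c (.a .z (.l 19))
.z) .z) .z))) .z) .z) .z)) (.b (.c (.c (.b (.c (.b (.a .z (.c (.c (.c .z (.l 17)) (.a (.l 17) .z)) .z)) .z) (.a (.b (.c .z (.c .z (.l 19))) (.c .z (.c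
.z (.l 19)))) .z)) (.c (.a .z (.b .z (.c .z (.l 33)))) (.b (.c (.a .z (.l 33)) (.a (.c (.a (.l 19) .z) (.l 19)) (.c .z (.a (.l 19) .z)))) (.c (.a .z
(.c (.l 33) .z)) (.b (.a (.c .z (.l 19)) .z) (.a (.c (.l 19) .z) .z)))))) (.b (.a (.c (.c (.c (.l 19) (.a (.l 19) (.c (.l 19) .z))) (.c (.a (.c (.l
19) .z) .z) .z)) (.b (.c (.c (.c (.l 25) .z) .z) .z) .z)) (.c (.b (.c (.a (.c (.l 19) .z) .z) .z) (.c (.c (.a (.l 19) .z) .z) .z)) .z)) (.c (.b (.c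
(.b (.a (.c (.l 19) .z) .z) (.a (.c (.l 19) .z) .z)) .z) (.c (.b (.a (.c (.l 19) .z) .z) .z) .z)) .z))) .z) (.a .z (.c (.c (.b (.c (.b (.c (.c .z (.l
33)) (.a .z (.l 33))) .z) .z) .z) .z) .z)))))

theorem vQ190 : ev3 Q190 J4_5 J3_6 J3_7 = 87510339895105163339874 := by decide +kernel

noncomputable def Q45 : QT3 :=
(.a (.b (.c (.b (.a (.c (.b (.a .z (.c .z (.b .z (.a .z (.c .z (.l 10)))))) (.a (.c .z (.b (.a .z (.c .z (.l 10))) (.a .z (.l 10)))) (.c (.b (.a .z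
(.c .z (.l 10))) (.a (.c .z (.l 10)) (.l 10))) (.l 10)))) (.b (.a .z (.c (.b (.a .z (.l 10)) (.c (.l 10) .z)) (.c .z (.a .z (.l 6))))) (.c (.c (.a .z
(.c (.l 10) (.a .z (.l 10)))) .z) (.c .z (.a .z (.a .z (.c .z (.l 6)))))))) (.c (.a (.b (.c (.a (.b .z (.c .z (.l 10))) (.b (.c .z (.l 10)) (.l 10)))
(.a (.b (.c .z (.l 10)) (.l 10)) (.l 10))) (.l 10)) (.l 10)) (.c (.a (.c (.l 10) (.b (.l 10) (.a (.c (.l 10) .z) (.l 10)))) (.l 10)) (.a (.c (.b (.a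
.z (.c (.l 10) .z)) .z) (.b (.a (.c .z (.l 6)) .z) (.a (.l 6) (.c .z (.l 6))))) (.c (.a (.b (.l 10) (.c (.l 10) .z)) (.b (.b .z (.l 10)) (.l 10)))
.z))))) (.a (.c (.b (.a (.c (.b (.c .z (.a .z (.l 10))) (.c (.a .z (.l 10)) (.l 10))) (.c (.l 10) .z)) (.c (.l 10) (.c (.l 10) (.a (.c (.l 10) .z) (.l
10))))) (.c (.l 10) (.a (.c (.c (.a .z (.l 10)) .z) .z) (.c (.l 10) (.a .z (.c (.l 10) .z)))))) (.c .z (.a .z (.c .z (.a .z (.c .z (.a .z (.l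
6)))))))) (.c (.l 10) (.c (.a (.c (.b (.a (.c (.l 10) .z) (.l 10)) (.a .z (.c (.l 10) .z))) (.b (.a .z (.c (.l 10) .z)) .z)) (.c (.l 10) (.a (.b (.l
10) (.c (.l 10) .z)) (.l 10)))) (.a (.c (.b .z (.a .z (.c .z (.l 6)))) (.l 6)) (.c (.a .z (.b (.c (.l 10) .z) .z)) (.a (.b (.c .z (.l 6)) (.l 6))
.z))))))) (.c (.a (.c (.a (.c (.b (.a .z (.c .z (.b (.l 6) .z))) .z) (.b (.a (.c (.b (.l 6) .z) (.l 6)) (.l 6)) (.a .z (.c (.b (.l 6) .z) (.l 6)))))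
(.c (.a (.b (.l 6) (.c .z (.l 6))) (.l 6)) (.l 6))) (.a (.c (.b (.l 6) (.a (.c (.b (.l 6) .z) (.l 6)) (.l 6))) (.l 6)) (.l 6))) (.c (.a (.l 6) (.b (.c
(.a (.b .z (.c .z (.l 6))) .z) (.a (.l 6) (.b (.c .z (.l 6)) (.l 6)))) (.c (.a (.l 6) (.b (.c .z (.l 6)) (.l 6))) (.l 6)))) (.l 6))) (.l 6))) (.c (.c
(.a (.c (.b (.a (.c (.b (.l 10) (.a .z (.c (.l 10) .z))) (.b (.c (.a .z (.l 10)) .z) .z)) (.c (.l 10) (.b (.l 10) (.a (.c (.l 10) .z) (.l 10))))) (.a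
.z (.c (.b (.a (.c (.l 10) .z) (.l 10)) .z) .z))) (.b (.a .z (.c (.b (.a .z (.c (.l 10) .z)) .z) .z)) (.a .z (.c .z (.a .z (.l 50)))))) (.c (.b (.l
10) (.a (.c (.l 10) (.b (.a (.c (.l 10) .z) (.l 10)) (.a .z (.c (.l 10) .z)))) (.l 10))) (.a (.b (.c (.b (.l 10) (.a (.c (.l 10) .z) (.l 10))) (.b (.a
(.c (.l 10) .z) (.l 10)) .z)) (.c (.b (.a .z (.c (.l 10) .z)) .z) .z)) (.b (.l 10) (.c (.a (.b (.l 10) (.c (.l 10) .z)) (.l 10)) (.a .z (.b (.l 10)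
(.c (.l 10) .z)))))))) (.a .z (.c (.a .z (.b (.c (.a (.b (.c (.l 10) .z) .z) (.l 10)) (.a .z (.b (.c (.l 10) .z) .z))) (.c .z (.a (.b (.c .z (.l 6))
(.a .z (.l 6))) (.b .z (.c .z (.l 6))))))) (.a (.a (.c .z (.a (.b (.c .z (.l 6)) .z) (.c (.b (.l 6) .z) (.l 6)))) (.c (.a (.c .z (.b (.l 6) .z)) (.l
6)) (.l 6))) (.b (.c (.a (.b (.c .z (.l 6)) (.l 6)) (.b .z (.c .z (.l 6)))) (.a (.l 6) (.b (.c .z (.l 6)) (.l 6)))) (.l 6)))))) (.a (.c (.c (.a .z (.c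
(.a .z (.b (.c (.a .z (.l 6)) (.l 6)) (.a .z (.c .z (.l 6))))) (.a (.b (.c (.a .z (.l 6)) (.l 6)) .z) (.l 6)))) (.a (.b (.c (.a .z (.c (.b (.l 6) .z)
(.l 6))) (.a (.b (.l 6) (.c .z (.l 6))) (.l 6))) (.c .z (.a .z (.b (.l 6) (.a .z (.l 6)))))) (.a (.c (.b (.l 6) (.a (.c .z (.l 6)) (.l 6))) (.l 6))
(.l 6)))) (.c (.a (.b (.l 6) (.a (.c (.b (.l 6) (.a .z (.l 6))) (.l 6)) (.l 6))) (.l 6)) (.l 6))) (.l 6)))) (.c (.c (.b (.a (.l 10) (.b (.c (.l 10)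
(.a (.b (.c (.l 10) (.b (.a (.l 10) .z) (.l 10))) (.l 10)) (.b (.c (.a (.l 10) (.b .z (.l 10))) .z) (.c (.l 10) (.a (.l 10) (.b .z (.l 10))))))) (.l
10))) (.l 10)) (.a (.b (.c (.b (.b (.a (.c (.l 10) (.b (.c (.l 10) .z) (.l 10))) (.c (.b (.a (.l 10) .z) (.l 10)) (.b .z (.a (.l 10) .z)))) (.l 10))
(.l 10)) (.a (.b (.b (.c (.b .z (.a (.l 10) .z)) .z) (.c (.l 10) (.b .z (.l 10)))) (.c (.l 10) (.a (.b (.c (.l 10) .z) .z) (.b (.l 10) (.c (.l 10)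
.z))))) (.b (.b .z (.c (.b .z (.l 10)) .z)) (.b (.c (.l 10) (.b (.a (.l 10) .z) (.l 10))) (.l 10))))) (.a (.c (.b (.c (.l 10) (.a (.b (.l 10) (.c (.l
10) .z)) (.l 10))) (.a (.c (.b (.l 10) (.a .z (.l 10))) .z) (.c (.l 10) (.b (.l 10) (.a .z (.l 10)))))) (.b (.c (.a .z (.b (.l 10) (.c (.l 10) .z)))
(.a (.b .z (.c .z (.l 6))) .z)) (.a (.c (.b .z (.a (.l 6) .z)) (.l 6)) (.c .z (.b .z (.a (.l 6) .z)))))) (.c (.l 10) (.a (.b (.c (.l 10) (.b (.l 10)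
(.a .z (.l 10)))) (.c (.a (.b (.l 10) .z) (.l 10)) .z)) (.c (.l 10) (.b (.l 10) (.a (.b (.l 10) .z) (.l 10)))))))) (.b (.b (.c (.b .z (.a (.c (.b (.a
(.l 10) .z) (.l 10)) (.b .z (.a (.l 10) .z))) .z)) .z) (.c (.a (.l 10) (.b (.c (.a (.l 10) (.b .z (.l 10))) (.a (.b .z (.l 10)) .z)) (.l 10))) (.a (.b
(.c (.b (.a (.l 10) .z) (.l 10)) .z) (.c (.l 10) (.a (.l 10) (.b .z (.l 10))))) (.b .z (.c (.a (.l 10) .z) .z))))) (.b (.a (.l 10) (.c (.l 10) (.b (.a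
(.l 10) (.c (.l 10) (.b .z (.l 10)))) (.l 10)))) (.l 10))))) (.a (.c (.a (.b (.c (.c (.b .z (.a (.b .z (.c .z (.l 6))) .z)) (.b (.a (.c .z (.b .z (.l
6))) .z) (.a (.l 6) (.c .z (.b .z (.l 6)))))) (.c (.b (.a (.l 6) (.c .z (.b .z (.l 6)))) (.l 6)) (.l 6))) (.c (.b (.c (.a (.l 6) (.b .z (.a (.l 6)
.z))) (.l 6)) (.l 6)) (.l 6))) (.c (.b (.c (.a (.b .z (.c (.l 10) .z)) (.b .z (.b .z (.l 10)))) (.a .z (.b .z (.c (.b .z (.l 10)) .z)))) (.a (.c (.b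
.z (.a (.b .z (.l 6)) .z)) (.b (.a (.c .z (.l 6)) .z) (.l 6))) (.c (.b (.a (.c (.l 10) .z) (.l 10)) (.a .z (.c (.l 10) .z))) (.b (.a .z (.c (.l 10)
.z)) .z)))) (.b (.c (.a (.b .z (.c .z (.a (.l 6) .z))) .z) (.a (.b (.c (.a (.l 6) .z) (.l 6)) (.l 6)) (.b .z (.a (.c .z (.l 6)) (.c .z (.l 6)))))) (.a
(.l 6) (.c (.b (.a (.c .z (.l 6)) .z) (.a (.l 6) (.c .z (.l 6)))) (.l 6)))))) (.a (.l 6) (.c (.b (.c (.a (.l 6) (.b (.c (.a (.l 6) .z) (.l 6)) (.l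
6))) (.l 6)) (.l 6)) (.l 6)))) (.c (.a (.c (.b (.b .z (.b .z (.c (.b .z (.a (.l 10) .z)) .z))) (.a (.c (.l 10) (.b (.l 10) (.a .z (.l 10)))) (.b (.b
(.c (.l 10) (.b .z (.l 10))) (.l 10)) (.l 10)))) (.b .z (.a (.c (.b (.a .z (.c (.l 10) .z)) .z) (.b (.a (.c .z (.l 6)) .z) (.a (.l 6) (.c .z (.l
6))))) (.c (.a (.b (.b .z (.l 10)) (.c (.l 10) .z)) (.b (.b .z (.l 10)) (.l 10))) (.a .z (.b .z (.c (.l 10) .z))))))) (.b (.b (.c .z (.c .z (.l 55)))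
.z) (.b (.b (.c (.a (.c (.b .z (.l 10)) .z) .z) .z) (.c (.a (.l 10) (.c (.l 10) (.b .z (.l 10)))) (.a (.b .z (.c (.l 10) .z)) .z))) (.b (.c (.l 10)
(.a (.l 10) (.b (.c (.l 10) .z) (.l 10)))) (.l 10))))) (.a (.c (.a (.b (.c (.b .z (.a (.l 6) (.c .z (.l 6)))) (.l 6)) (.l 6)) (.c (.b .z (.a (.b .z
(.c .z (.l 6))) .z)) (.b (.a (.c .z (.l 6)) .z) (.a (.l 6) (.c (.b .z (.l 6)) (.l 6)))))) (.l 6)) (.c (.a (.c (.b (.l 55) (.a .z (.b .z (.b .z (.l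
10))))) .z) (.b (.b (.l 55) .z) (.b .z (.b .z (.b (.c (.l 10) .z) (.l 10)))))) (.a (.c (.a (.b (.c .z (.l 6)) (.l 6)) (.b .z (.c .z (.a (.l 6) .z))))
(.l 6)) (.c .z (.a (.c (.a (.b .z (.l 6)) .z) (.l 6)) .z)))))))))

theorem vQ45 : ev3 Q45 J3_1 J4_7 J4_11 = 342963692396413443535649 := by decide +kernel

noncomputable def Q25 : QT3 :=
(.a (.c (.b (.a (.c (.b (.c .z (.b (.c (.l 56) .z) .z)) (.c (.b .z (.c .z (.b .z (.l 24)))) (.b (.c (.b .z (.c .z (.l 24))) (.l 24)) (.l 24)))) (.b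
(.a (.c (.b .z (.a .z (.c .z (.l 24)))) .z) (.c (.b .z (.c (.b .z (.l 24)) (.l 24))) (.b .z (.l 24)))) (.a (.c (.l 24) (.b (.a (.c (.l 24) .z) (.l
24)) (.l 24))) (.l 24)))) (.c (.a (.b .z (.c (.b .z (.c .z (.b .z (.l 24)))) (.b (.c .z (.l 24)) (.l 24)))) (.a (.b .z (.a (.c .z (.b .z (.l 24)))
.z)) .z)) (.b (.a (.a (.b .z (.c (.a (.l 24) .z) .z)) .z) .z) (.a (.a (.l 24) (.b (.c (.a (.l 24) .z) .z) (.a (.l 24) (.c (.l 24) .z)))) (.c (.a .z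
(.a .z (.b .z (.l 26)))) (.b .z (.a .z (.c (.l 26) .z)))))))) (.a (.c (.c (.b (.b (.c (.b (.c .z (.l 24)) (.l 24)) (.l 24)) (.l 24)) (.a (.c (.b (.a
.z (.l 24)) .z) (.b (.l 24) (.a .z (.l 24)))) (.l 24))) (.l 24)) (.b (.l 24) (.c (.a (.l 24) (.b (.l 24) (.a (.c (.l 24) .z) .z))) (.a (.b (.l 24) (.c
(.b (.l 24) .z) .z)) (.b (.a (.c (.l 24) .z) .z) .z))))) (.c (.b (.a (.c (.b (.c (.b .z (.l 24)) (.l 24)) (.l 24)) (.l 24)) (.c (.a (.b (.c .z (.l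
24)) (.l 24)) (.a (.b .z (.l 24)) .z)) (.b (.a (.l 24) .z) (.a (.l 24) .z)))) (.a (.c (.l 24) (.b (.l 24) (.a (.c (.l 24) .z) .z))) (.c (.b (.l 24)
(.a (.c (.l 24) .z) .z)) (.b (.a (.c (.l 24) .z) .z) .z)))) (.b (.a (.c (.l 24) (.b (.l 24) (.a (.c (.l 24) .z) .z))) (.c (.b (.a (.a (.l 24) .z) .z)
(.a (.c (.l 24) .z) .z)) .z)) (.a (.c (.b (.a (.c (.l 24) .z) .z) .z) .z) .z))))) (.b (.a (.c (.b (.a (.c (.b .z (.a (.c .z (.l 20)) .z)) (.a (.b .z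
(.l 20)) (.b .z (.l 20)))) .z) (.a (.c (.b .z (.a .z (.l 24))) .z) (.c (.b (.a (.c (.l 24) .z) (.l 24)) (.l 24)) (.b (.a .z (.c (.l 24) .z)) (.a (.c
(.l 24) .z) (.l 24)))))) (.b (.a (.b (.b .z (.a (.c (.l 20) .z) .z)) (.a (.l 20) (.b .z (.l 20)))) .z) (.a (.c (.b (.b (.b (.l 20) .z) .z) (.a (.l 37)
.z)) .z) .z))) (.c (.b .z (.a (.c (.b (.a (.a (.l 24) .z) .z) (.a (.l 24) .z)) (.b .z (.a (.c (.l 24) .z) .z))) .z)) .z)) (.a (.c (.b (.c (.a (.l 24)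
(.b (.l 24) (.a (.c (.l 24) .z) .z))) (.a (.b (.a .z (.b .z (.l 24))) (.c (.a (.l 24) .z) .z)) (.b (.a (.c (.l 24) .z) .z) .z))) (.c (.a (.b (.c (.a
(.l 24) .z) .z) .z) .z) (.a (.b .z (.c .z (.l 46))) (.b (.a .z (.l 46)) (.l 46))))) .z) (.c (.b (.a (.c (.b (.a (.c (.l 24) .z) .z) .z) (.b .z (.a .z
(.l 46)))) (.c .z (.b .z (.l 46)))) (.a (.c .z (.c (.l 46) (.c (.l 46) .z))) (.c (.c .z (.c .z (.l 46))) (.c (.l 46) (.c (.l 46) .z))))) .z)))) (.c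
(.b (.a (.c (.b (.a .z (.b .z (.a (.l 57) .z))) (.a .z (.c (.l 57) .z))) .z) .z) .z) (.b .z (.a (.b .z (.a (.b (.c (.a (.c .z (.l 46)) (.c .z (.l
46))) .z) (.c (.c .z (.c (.l 46) .z)) .z)) (.c .z (.a (.b (.c .z (.l 37)) .z) .z)))) .z))))

theorem vQ25 : ev3 Q25 J3_1 J4_4 J4_10 = 82734757412151265412611 := by decide +kernel

noncomputable def Q93 : QT3 :=
(.b (.a (.c (.b (.a (.c (.b (.a .z (.c .z (.b .z (.l 22)))) (.a (.c .z (.b .z (.l 22))) (.l 22))) (.b (.a (.c (.b .z (.l 22)) (.l 22)) (.l 22)) (.l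
22))) (.c (.b (.a (.c .z (.a (.l 22) .z)) (.c (.b .z (.l 20)) (.l 20))) (.a (.a (.l 22) (.a .z (.l 20))) (.l 20))) (.c (.a (.a (.l 22) (.a .z (.l
20))) (.l 20)) (.a (.a (.l 22) (.a .z (.l 20))) (.c (.a (.l 20) .z) .z))))) (.c (.c (.a (.l 22) (.c (.b (.a .z (.l 20)) .z) (.a (.a (.l 22) .z) (.l
20)))) (.a (.l 22) (.a (.a (.l 22) (.a .z (.l 20))) (.l 20)))) (.c (.a (.l 22) (.a (.a (.l 22) (.a .z (.l 20))) (.c (.l 20) (.a (.l 20) .z)))) (.c (.b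
(.a (.l 22) .z) (.a (.c (.l 22) .z) .z)) (.a (.b (.c (.l 22) .z) .z) .z))))) (.c (.c (.b (.c (.b (.a (.l 22) .z) .z) (.b .z (.a (.c .z (.b .z (.l 7)))
.z))) (.c (.a (.b .z (.c (.a (.l 7) .z) (.l 7))) .z) (.a (.l 7) (.b (.c .z (.a (.l 7) .z)) (.c (.a (.l 7) .z) (.l 7)))))) (.b (.c (.b (.a (.c (.b .z
(.l 7)) (.l 7)) (.c .z (.b .z (.l 7)))) (.a (.l 7) (.c (.a (.l 7) .z) (.l 7)))) (.l 7)) (.l 7))) (.c (.c (.l 7) (.b (.c (.l 7) (.b .z (.a (.l 7) .z)))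
(.l 7))) (.c (.b .z (.c (.a (.b (.a (.l 7) .z) (.l 7)) (.b .z (.a (.l 7) .z))) .z)) (.b (.a (.l 31) (.a .z (.l 29))) (.c .z (.a (.l 31) .z))))))) (.c
(.c (.c (.b (.a (.c (.b .z (.a (.l 20) .z)) (.b .z (.l 20))) .z) (.a (.c .z (.b (.a (.l 20) .z) .z)) .z)) (.b (.a (.a (.l 20) .z) .z) (.a (.b (.a (.c
(.l 20) .z) .z) (.c (.a (.l 20) .z) .z)) .z))) (.a (.c (.a (.b (.c (.a (.l 20) .z) .z) .z) .z) (.a .z (.b .z (.l 55)))) (.b .z (.a (.a (.l 55) .z) (.b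
(.l 65) .z))))) (.c (.c (.b .z (.c .z (.a (.b .z (.a (.c .z (.l 7)) .z)) .z))) (.a (.b (.c (.b .z (.c .z (.a (.l 7) .z))) (.c (.b (.a (.l 7) .z) (.l
7)) (.l 7))) (.c (.b (.c (.a (.l 7) .z) (.l 7)) (.l 7)) (.l 7))) (.c (.b .z (.a (.c .z (.b .z (.l 7))) .z)) (.b (.c .z (.a (.l 7) (.b .z (.l 7)))) (.a
(.l 7) (.c (.b .z (.l 7)) (.l 7))))))) (.c (.c (.l 7) (.c (.a (.b (.b (.a (.l 7) .z) (.l 7)) (.l 7)) (.b .z (.a (.l 7) (.b .z (.l 7))))) (.b .z (.a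
(.b .z (.a (.l 7) .z)) .z)))) (.c (.c (.b (.a .z (.l 29)) .z) (.b (.l 29) (.a .z (.l 29)))) (.l 29)))))) (.c (.c (.a (.c (.b (.b (.a (.c .z (.l 22))
.z) .z) (.b (.a .z (.l 29)) (.l 29))) (.b (.b (.a (.l 22) (.c .z (.a .z (.l 20)))) (.a (.c (.b (.l 22) .z) (.l 22)) .z)) (.a (.c .z (.b (.b (.l 22)
.z) .z)) (.b .z (.c (.l 29) .z))))) (.b (.c (.a (.b .z (.l 29)) (.a (.l 29) (.a (.l 29) .z))) (.a .z (.b .z (.c (.l 29) .z)))) (.c (.l 29) (.a (.b (.c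
(.l 29) .z) (.l 29)) (.l 29))))) (.a (.c (.b (.c (.a (.l 22) (.a (.a (.l 22) .z) .z)) (.a (.b (.l 22) .z) (.a (.a (.l 22) .z) .z))) (.a (.c .z (.b .z
(.a (.l 7) (.c .z (.l 7))))) .z)) (.b (.a (.c (.b .z (.c .z (.a (.l 7) .z))) (.b (.c .z (.a (.l 7) .z)) (.l 7))) (.c .z (.b .z (.a (.c .z (.l 7))
.z)))) (.a (.c (.b (.a (.l 7) (.c .z (.l 7))) (.l 7)) (.l 7)) (.c (.b .z (.a (.c .z (.l 7)) .z)) (.b (.a (.l 7) (.c .z (.l 7))) (.l 7)))))) (.c (.b .z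
(.a .z (.b .z (.c (.l 29) .z)))) (.a (.b (.c (.l 55) .z) (.c .z (.a (.b .z (.c .z (.l 7))) .z))) .z)))) (.c (.a (.c (.b (.a (.l 7) (.c (.b (.a (.c .z
(.l 7)) .z) (.l 7)) (.l 7))) (.l 7)) (.l 7)) (.c (.a (.b (.c (.a (.b .z (.c .z (.l 7))) .z) (.a (.l 7) (.b .z (.c .z (.l 7))))) (.c (.a (.l 7) (.b .z
(.c .z (.l 7)))) (.l 7))) (.c .z (.b .z (.a (.c (.b .z (.l 7)) (.l 7)) .z)))) (.a (.l 7) (.c (.b (.a (.c (.b .z (.l 7)) (.l 7)) (.c .z (.a (.l 7)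
.z))) (.a (.l 7) (.c (.a (.l 7) .z) (.l 7)))) (.l 7))))) (.c (.a (.l 7) (.c (.l 7) (.a (.l 7) (.c (.l 7) (.b (.a (.b .z (.l 7)) .z) (.a (.l 7) (.a (.l
7) .z))))))) (.a (.c (.b (.a (.l 7) (.c (.l 7) (.b .z (.a (.l 7) .z)))) (.l 7)) (.b (.c (.a (.b .z (.a (.l 7) .z)) .z) .z) (.a (.c (.l 7) (.b .z (.l
7))) (.c (.b .z (.a (.l 7) .z)) .z)))) (.c (.a (.b (.c (.a (.b .z (.l 7)) .z) .z) (.c (.l 7) (.a (.b .z (.l 7)) .z))) .z) (.a (.b (.c .z (.l 29)) .z)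
(.b (.l 29) (.c .z (.l 29))))))))))

theorem vQ93 : ev3 Q93 J4_5 J4_7 J4_12 = 129933273872904687373573 := by decide +kernel

noncomputable def Q180 : QT3 :=
(.a (.b (.a (.b (.c (.c (.a (.b (.c (.c .z (.c .z (.l 20))) (.a (.c (.l 20) .z) (.b (.l 20) .z))) .z) .z) (.a .z (.b .z (.c .z (.c (.c .z (.l 22))
.z))))) .z) (.c (.c (.a (.b .z (.c .z (.c (.l 14) (.c .z (.l 19))))) (.b (.c (.a .z (.c (.b (.l 13) .z) .z)) (.c (.b .z (.l 14)) .z)) (.c .z (.c (.c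
(.l 14) .z) (.c .z (.l 19)))))) .z) (.c (.c (.c .z (.a (.c (.l 31) .z) .z)) .z) .z))) (.b (.c (.c (.a (.b (.c (.a .z (.b .z (.c .z (.l 13)))) .z) (.c
(.a (.b (.c .z (.l 13)) (.c (.l 13) .z)) (.c (.l 13) .z)) .z)) (.b (.c (.a (.b .z (.c (.l 13) .z)) (.c (.l 13) .z)) .z) (.c (.c (.b (.l 13) (.c (.l
13) .z)) .z) .z))) (.c .z (.c (.c (.l 22) (.c (.l 22) (.b (.l 22) .z))) .z))) .z) (.c (.c (.c (.b (.c (.b (.a (.c (.l 13) .z) .z) .z) .z) (.c .z (.c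
.z (.c .z (.l 14))))) (.c (.c (.l 14) (.c (.b (.l 14) .z) .z)) (.c (.c .z (.b .z (.l 19))) (.b (.c (.l 19) .z) (.l 19))))) (.c (.c (.c (.b .z (.c (.l
19) .z)) .z) .z) (.c (.c (.a (.b (.l 22) .z) (.l 22)) .z) .z))) .z))) (.c (.c (.b (.c (.b (.a (.c .z (.l 14)) (.c .z (.c (.c .z (.l 14)) (.l 14))))
(.c (.a (.c .z (.c .z (.l 14))) .z) (.l 14))) (.c (.c (.a (.c (.l 14) (.b (.l 14) .z)) (.c (.b (.l 14) .z) .z)) (.a .z (.c .z (.b .z (.l 19))))) (.c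
(.a (.c (.b .z (.l 19)) (.l 19)) (.l 19)) (.l 19)))) (.c (.c (.a (.c .z (.a .z (.c .z (.l 14)))) (.c .z (.b (.c .z (.l 14)) (.l 14)))) (.c (.l 14) (.a
(.b (.l 14) (.c (.l 14) .z)) (.b (.c (.l 14) .z) .z)))) (.c (.c .z (.a .z (.a (.c .z (.l 19)) (.l 19)))) (.b (.l 19) (.c (.b (.a .z (.l 19)) .z)
.z))))) (.c (.c (.b (.c (.b (.c (.l 19) (.b .z (.l 19))) (.l 19)) (.b .z (.c (.l 19) .z))) (.b (.c (.b (.c (.l 19) .z) .z) (.b .z (.l 20))) (.c (.b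
(.c .z (.l 20)) (.l 20)) (.l 20)))) (.a (.b .z (.c (.b (.b .z (.l 20)) (.l 20)) .z)) (.b .z (.b (.c (.l 20) .z) (.c (.b (.l 20) .z) .z))))) (.a (.c .z
(.b .z (.a (.b .z (.c (.l 23) .z)) .z))) .z))) .z)) (.b (.c (.c (.b (.c (.a (.b (.c (.a (.l 13) (.b (.c (.l 13) .z) .z)) .z) (.c (.a (.b (.c (.l 13)
.z) .z) .z) .z)) .z) (.a .z (.c .z (.c .z (.b .z (.c .z (.l 19))))))) (.c .z (.c (.c (.a (.c (.b .z (.l 14)) (.b (.l 14) .z)) .z) .z) (.c (.a (.c .z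
(.b .z (.l 19))) (.c .z (.b .z (.l 19)))) (.l 19))))) (.c (.c (.b .z (.c (.b (.c (.a .z (.l 19)) .z) (.c (.l 19) (.a .z (.l 19)))) .z)) (.b .z (.c .z
(.a (.a (.b .z (.l 22)) .z) .z)))) (.b (.c (.c (.c .z (.a (.b .z (.l 22)) .z)) (.c (.a (.b (.l 22) .z) .z) .z)) .z) (.c (.a (.c (.c (.l 22) .z) .z)
.z) .z)))) .z) (.c (.c (.c (.c (.b .z (.c .z (.a (.b .z (.a (.l 14) .z)) .z))) (.b (.c .z (.a (.c (.b .z (.l 14)) (.b (.l 14) .z)) .z)) (.c (.a (.b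
(.l 14) (.c (.l 14) .z)) .z) .z))) (.c (.c (.b .z (.a (.c .z (.b .z (.l 19))) .z)) (.b (.a (.c .z (.b .z (.l 19))) .z) (.b (.c (.b .z (.l 19)) (.l
19)) (.l 19)))) (.b (.c (.b (.c (.b .z (.l 19)) (.l 19)) (.l 19)) (.l 19)) (.b (.l 19) (.c (.b (.l 19) (.c (.l 19) .z)) (.b (.c (.l 19) .z) .z))))))
(.c (.c (.b (.c (.l 19) (.b (.c (.l 19) (.b .z (.l 19))) (.b (.l 19) (.c (.l 19) .z)))) (.b (.c (.b (.c (.l 19) .z) .z) (.b .z (.c .z (.l 20)))) (.c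
(.b (.c .z (.l 20)) (.a (.l 20) .z)) (.a (.b (.l 20) .z) .z)))) (.b (.c (.b .z (.c .z (.b .z (.l 20)))) (.b (.a (.a .z (.l 22)) .z) .z)) (.b (.c (.a
(.b (.l 20) .z) .z) .z) .z))) (.b .z (.c .z (.b (.c .z (.a (.l 29) .z)) (.c .z (.a (.l 29) .z))))))) (.c (.a (.c (.c (.a (.b (.c (.l 29) .z) .z) (.c
(.c (.l 29) .z) .z)) .z) .z) (.c (.c (.b (.c (.c (.l 29) .z) .z) .z) .z) .z)) .z))))

theorem vQ180 : ev3 Q180 J4_7 J4_9 J3_7 = 54484945824675827037304 := by decide +kernel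

noncomputable def Q69 : QT3 :=
(.b (.a (.c (.c (.l 6) (.a (.c (.l 6) (.b (.a (.c (.l 6) (.b .z (.a (.l 6) .z))) (.c (.b .z (.a (.l 6) .z)) .z)) (.a (.l 6) (.c (.l 6) (.b (.a (.l 6)
.z) (.l 6)))))) (.c (.a (.c (.l 6) (.b (.a (.c (.l 6) .z) .z) (.l 6))) (.c (.b (.a (.c (.l 6) .z) .z) (.l 6)) (.b .z (.a (.c (.l 6) .z) .z)))) (.a (.b
(.c .z (.b .z (.a .z (.l 9)))) (.c (.a (.b .z (.l 6)) .z) .z)) (.b (.c .z (.b .z (.l 9))) (.c .z (.a (.b (.l 9) .z) (.l 9)))))))) (.c (.a (.c (.b (.a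
(.c .z (.b (.l 9) .z)) (.c (.b (.l 9) .z) (.l 9))) (.a (.c (.b (.a (.l 6) .z) (.l 6)) .z) (.c .z (.b (.a .z (.l 9)) .z)))) (.b (.l 9) (.a (.c (.b (.a
.z (.l 9)) .z) (.b (.l 9) (.a .z (.l 9)))) (.c (.b (.l 9) (.a .z (.l 9))) (.l 9))))) (.c (.b (.b (.c (.b (.c .z (.l 9)) (.l 9)) (.l 9)) (.l 9)) (.a
(.c (.a .z (.b (.l 9) .z)) (.l 9)) (.l 9))) (.l 9))) (.l 9))) (.c (.c (.a (.c (.l 6) (.a (.c (.l 6) (.b (.a (.c (.l 6) .z) .z) (.a (.l 6) (.c (.l 6)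
.z)))) (.c (.a (.c (.l 6) (.b .z (.l 6))) (.c (.b .z (.l 6)) .z)) .z))) (.c (.a (.c (.l 6) (.a (.c (.l 6) .z) .z)) (.c (.a (.c (.l 6) .z) .z) .z)) (.a
(.c .z (.b (.l 32) .z)) (.a (.a (.l 32) .z) (.a .z (.c .z (.l 23))))))) (.a (.c (.a .z (.c .z (.b .z (.b .z (.b .z (.l 9)))))) (.b (.b .z (.c .z (.b
(.c .z (.l 9)) (.l 9)))) (.b (.c (.b (.c .z (.l 9)) (.l 9)) (.l 9)) (.l 9)))) (.b (.c (.a (.l 32) (.a .z (.l 23))) (.b .z (.c .z (.b .z (.c .z (.l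
9)))))) (.c (.b .z (.c .z (.b (.c .z (.l 9)) (.l 9)))) (.b (.c (.b .z (.c .z (.l 9))) (.l 9)) (.l 9)))))) (.b (.c (.c (.b (.c (.b (.c .z (.l 9)) (.l
9)) (.l 9)) (.l 9)) (.l 9)) (.l 9)) (.a (.l 9) (.c (.l 9) (.b (.a (.l 9) (.c (.l 9) (.b (.l 9) (.a (.l 9) .z)))) (.a (.c (.l 9) (.b (.l 9) .z)) (.c
(.b (.a (.l 9) .z) .z) .z)))))))) (.a (.c (.c (.l 6) (.a (.l 6) (.c (.a (.l 6) (.b (.c (.l 6) (.a (.l 6) (.c (.l 6) .z))) (.l 6))) (.a (.b (.c (.l 6)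
(.a (.l 6) .z)) (.l 6)) (.b (.c (.a (.b .z (.l 6)) .z) .z) (.c (.a (.l 6) (.b .z (.l 6))) (.a (.b .z (.l 6)) .z))))))) (.b (.a (.c (.c (.a (.l 6) (.c
(.b (.a (.l 6) .z) (.l 6)) (.b .z (.a (.l 6) .z)))) (.a (.c (.b .z (.a (.l 6) .z)) .z) (.c .z (.b (.l 9) .z)))) (.c (.a (.b (.c (.a .z (.l 9)) (.l 9))
(.c .z (.a .z (.l 9)))) (.l 9)) (.l 9))) (.c (.c (.a (.c .z (.a .z (.b (.l 9) .z))) (.c (.a (.b (.l 9) .z) (.l 9)) (.l 9))) (.a (.c (.a (.b (.l 9) .z)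
(.l 9)) (.l 9)) (.l 9))) (.b (.l 9) (.a (.l 9) (.c (.l 9) (.b (.l 9) .z)))))) (.a (.c (.c (.l 6) (.a (.b (.c (.l 6) (.a (.l 6) .z)) (.l 6)) (.c (.b
(.a (.l 6) .z) (.l 6)) .z))) (.b (.a (.c .z (.c (.a .z (.l 9)) (.l 9))) (.c (.c (.a .z (.l 9)) (.l 9)) (.b (.l 9) (.a (.l 9) .z)))) (.a (.c (.c (.a
(.l 6) .z) .z) .z) .z))) (.c (.b (.a (.c (.c (.a (.l 6) .z) .z) (.c .z (.a .z (.l 9)))) (.c (.c .z (.a .z (.l 9))) (.b (.l 9) (.a (.l 9) .z)))) (.a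
(.c (.c (.l 6) (.a (.l 6) .z)) .z) .z)) (.b (.a (.c (.b (.l 9) (.a (.l 9) .z)) (.b (.a (.l 9) .z) .z)) (.c .z (.b .z (.a .z (.l 7))))) (.a (.c .z (.b
.z (.l 7))) (.c (.b .z (.l 7)) (.l 7)))))))) (.c (.b (.a (.c (.c (.l 6) (.a (.l 6) (.c (.a (.l 6) (.c (.l 6) .z)) (.a (.c (.l 6) .z) .z)))) (.c (.a
(.c (.a (.l 6) .z) .z) (.c (.a .z (.c .z (.l 9))) (.a (.c .z (.l 9)) (.l 9)))) (.a (.c (.a .z (.c .z (.l 9))) (.l 9)) (.l 9)))) (.c (.c (.a (.c (.l 6)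
(.a (.l 6) (.c (.l 6) .z))) (.c (.a (.c (.l 6) .z) .z) .z)) (.a .z (.b .z (.c .z (.b .z (.l 9)))))) (.b (.c (.c (.b (.c .z (.l 9)) (.l 9)) (.l 9)) (.l
9)) (.a (.l 9) (.c (.b (.l 9) (.a (.l 9) .z)) (.b (.a (.l 9) .z) .z)))))) (.a (.c (.c (.l 6) (.a (.l 6) (.c (.l 6) (.a (.l 6) .z)))) (.b (.a (.c (.c
(.l 6) (.a (.l 6) .z)) (.c .z (.a .z (.l 9)))) (.c (.c .z (.a .z (.l 9))) (.b (.l 9) (.a (.l 9) .z)))) (.a (.c (.c (.l 6) (.a (.l 6) .z)) .z) .z)))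
(.c (.b (.a (.c (.c (.l 6) (.a (.l 6) .z)) (.c .z (.a .z (.l 9)))) (.c .z (.b (.c .z (.l 9)) .z))) (.a (.c (.c (.l 6) (.a (.l 6) .z)) .z) .z)) (.b (.a
(.c (.b (.l 9) .z) .z) (.c .z (.b .z (.a .z (.l 7))))) (.a (.c .z (.b (.a .z (.l 7)) (.l 7))) (.c (.b (.a .z (.l 7)) (.l 7)) (.l 7))))))) (.b (.a (.c
(.b (.l 9) (.a (.l 9) (.c (.l 9) (.b (.a (.l 9) .z) .z)))) (.b (.a (.c (.l 9) (.b (.l 9) (.a (.l 9) .z))) (.c (.b (.l 9) (.a (.l 9) .z)) (.b (.a (.l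
9) .z) .z))) (.a (.c (.b (.l 9) .z) .z) (.c .z (.b .z (.a .z (.l 7))))))) (.c (.b (.a (.c (.l 9) (.b (.l 9) (.a (.l 9) .z))) (.c (.b (.l 9) (.a (.l 9)
.z)) .z)) (.a (.c (.b (.a (.l 9) .z) .z) .z) (.c .z (.b .z (.l 7))))) (.b (.a (.c (.b (.a (.l 9) .z) .z) .z) (.c (.b .z (.a .z (.l 7))) (.b (.a .z (.l
7)) (.l 7)))) (.a (.c (.b .z (.l 7)) (.l 7)) (.l 7))))) (.a (.c (.b (.a (.c (.b (.l 9) (.a (.l 9) .z)) .z) (.c .z (.b .z (.a .z (.l 7))))) (.a (.c .z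
(.b .z (.l 7))) (.c (.b .z (.l 7)) (.l 7)))) (.b (.a (.c (.b .z (.a .z (.l 7))) (.b (.a .z (.l 7)) (.l 7))) (.c (.b (.a .z (.l 7)) (.l 7)) (.l 7)))
(.l 7))) (.c (.b (.a (.c (.b .z (.a .z (.l 7))) (.b (.a .z (.l 7)) (.l 7))) (.c (.b (.a .z (.l 7)) (.l 7)) (.l 7))) (.l 7)) (.l 7)))))))

theorem vQ69 : ev3 Q69 J4_3 J4_7 J4_12 = 179993351107506325468255 := by decide +kernel

noncomputable def Q6 : QT3 :=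
(.b .z (.c .z (.a (.b (.c .z (.a (.b (.c .z (.a (.b .z (.c (.c (.b .z (.a (.a (.c (.l 46) .z) .z) .z)) .z) .z)) .z)) (.c (.c .z (.b (.a (.c (.b (.a
(.c .z (.b .z (.a .z (.l 46)))) .z) (.a (.c .z (.b (.b (.l 46) .z) .z)) .z)) (.b (.a (.c (.b (.a .z (.l 46)) (.a (.l 46) .z)) (.a (.l 46) .z)) .z) (.b
(.b (.a (.a (.l 46) .z) .z) .z) .z))) .z) .z)) (.c .z (.b (.b .z (.b .z (.c .z (.a (.c (.c .z (.l 75)) (.l 75)) (.a (.c .z (.l 75)) .z))))) (.a (.c .z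
(.b (.c .z (.c (.a (.l 75) .z) (.l 75))) .z)) .z))))) .z)) (.c .z (.a (.b (.c .z (.c .z (.b (.a .z (.c .z (.b .z (.a (.c .z (.c .z (.l 65))) .z))))
(.a (.c .z (.b (.a (.c .z (.b .z (.l 65))) (.c .z (.l 65))) (.b (.l 65) (.c (.a .z (.l 65)) (.a .z (.l 65)))))) (.c .z (.a (.c (.b .z (.c .z (.l 65)))
(.l 65)) (.c .z (.c (.b .z (.l 65)) (.l 65))))))))) (.c .z (.a .z (.b (.c .z (.c .z (.b (.a (.b (.l 65) .z) (.c .z (.l 65))) (.a .z (.b (.l 65)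
.z))))) .z)))) (.b .z (.c .z (.a (.b (.c .z (.a (.c .z (.a (.c .z (.c .z (.l 65))) .z)) .z)) .z) .z)))))) .z)))

theorem vQ6 : ev3 Q6 J2_1 J1_0 J1_0 = 34807932618218633438965 := by decide +kernel

noncomputable def Q97 : QT3 :=
(.a (.b (.c (.a .z (.b .z (.c (.a (.b .z (.b (.c .z (.c .z (.c (.c .z (.l 17)) .z))) (.a (.c .z (.c .z (.c (.l 17) .z))) .z))) .z) .z))) .z) (.b (.a
(.b (.a (.c (.c (.c (.c .z (.c (.a .z (.l 37)) .z)) (.c (.c .z (.b (.c .z (.l 17)) (.l 17))) (.b (.c .z (.b .z (.l 21))) (.c .z (.c (.l 21) .z)))))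
.z) .z) (.c (.c (.b (.c .z (.c .z (.c (.c (.l 17) .z) .z))) (.a (.c .z (.c (.c .z (.l 17)) .z)) .z)) .z) .z)) (.a (.c (.c (.b (.c .z (.c (.c (.c .z
(.l 17)) (.l 17)) .z)) (.a (.c .z (.c (.c (.l 17) .z) .z)) .z)) .z) .z) .z)) .z) (.a (.b (.a .z (.c (.c .z (.c (.c .z (.a (.c (.l 37) .z) .z)) .z))
.z)) (.a (.c (.c (.b (.a .z (.c .z (.c (.c .z (.l 15)) .z))) (.c .z (.c (.c (.c .z (.l 15)) (.l 15)) (.c (.c (.l 15) .z) .z)))) (.c (.c (.c (.l 41)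
.z) .z) (.c (.a (.c (.c .z (.l 25)) (.b (.l 25) .z)) (.c (.c .z (.l 25)) .z)) .z))) .z) (.c (.c (.c .z (.c (.c (.b .z (.l 15)) (.c (.l 15) (.b .z (.l
15)))) .z)) (.c (.c (.b .z (.a (.l 41) .z)) .z) .z)) .z))) (.c (.c (.c (.c (.a .z (.b .z (.c (.l 65) .z))) .z) (.a (.c (.b .z (.c (.b (.c .z (.l 15))
(.l 15)) (.c (.l 15) .z))) .z) (.b (.c (.c (.b .z (.c .z (.l 15))) .z) .z) (.c (.a (.b (.c (.l 15) .z) .z) .z) .z)))) .z) (.c (.b .z (.c (.a .z (.c .z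
(.c (.a .z (.l 34)) .z))) .z)) .z))))) (.b .z (.c (.a (.b .z (.c (.c (.c (.a (.b .z (.l 65)) .z) .z) .z) .z)) .z) (.a (.b .z (.c (.b .z (.c (.c .z (.a
(.c (.a (.l 34) .z) .z) .z)) .z)) .z)) .z))))

theorem vQ97 : ev3 Q97 J3_3 J3_3 J3_7 = 14068327329378676657293 := by decide +kernel

end Pool.Agent.Helper64.SPW.Dat3
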