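import Pool.Agent.Helper64.SPW.E01
import Pool.Agent.Helper64.SPW.E02
import Pool.Agent.Helper64.SPW.E03
import Pool.Agent.Helper64.SPW.E04
import Pool.Agent.Helper64.SPW.E05
import Pool.Agent.Helper64.SPW.E06
import Pool.Agent.Helper64.SPW.E07
import Pool.Agent.Helper64.SPW.E08
import Pool.Agent.Helper64.SPW.E09
import Pool.Agent.Helper64.SPW.E10
import Pool.Agent.Helper64.SPW.E11
import Pool.Agent.Helper64.SPW.E12

/-! Assembly of the boxes of three traces.  All sums are formed with lemmas, so that nothing is evaluated again. -/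

set_option maxRecDepth 100000

namespace Pool.Agent.Helper64.SPW.Dat3

lemma ev_a_eq (x y : QT3) (lo hi w : ℕ) (u v q r : T1) (n m k : ℕ) (h1 : ev3 x u q r = n) (h2 : ev3 y v q r = m)
    (h3 : n + m = k) : ev3 (QT3.a x y) (T1.node lo hi w u v) q r = k := by
  rw [ev3_a, h1, h2, h3]

lemma ev_b_eq (x y : QT3) (lo hi w : ℕ) (u v p r : T1) (n m k : ℕ) (h1 : ev3 x p u r = n) (h2 : ev3 y p v r = m)
    (h3 : n + m = k) : ev3 (QT3.b x y) p (T1.node lo hi w u v) r = k := by
  rw [ev3_b, h1, h2, h3]

lemma ev_c_eq (x y : QT3) (lo hi w : ℕ) (u v p q : T1) (n m k : ℕ) (h1 : ev3 x p q u = n) (h2 : ev3 y p q v = m)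
    (h3 : n + m = k) : ev3 (QT3.c x y) p q (T1.node lo hi w u v) = k := by
  rw [ev3_c, h1, h2, h3]

lemma J4_6_def : J4_6 = .node 80913 105501 62499362 J5_12 J5_13 := rfl

lemma J4_8_def : J4_8 = .node 131072 156643 62500177 J5_16 J5_17 := rfl

lemma J4_9_def : J4_9 = .node 156643 181231 62499362 J5_18 J5_19 := rfl

lemma J4_11_def : J4_11 = .node 203892 223754 62499349 J5_22 J5_23 := rfl

lemma J3_1_def : J3_1 = .node 9977 38390 125001078 J4_2 J4_3 := rfl

lemma J3_2_def : J3_2 = .node 38390 80913 125000315 J4_4 J4_5 := rfl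

lemma J3_3_def : J3_3 = .node 80913 131072 124999539 J4_6 J4_7 := rfl

lemma J3_4_def : J3_4 = .node 131072 181231 124999539 J4_8 J4_9 := rfl

lemma J3_5_def : J3_5 = .node 181231 223754 125000315 J4_10 J4_11 := rfl

lemma J3_6_def : J3_6 = .node 223754 252167 125001078 J4_12 J4_13 := rfl

lemma J2_0_def : J2_0 = .node 0 38390 249999176 J3_0 J3_1 := rfl

lemma J2_1_def : J2_1 = .node 38390 131072 249999854 J3_2 J3_3 := rfl

lemma J2_2_def : J2_2 = .node 131072 223754 249999854 J3_4 J3_5 := rfl

lemma J2_3_def : J2_3 = .node 223754 262144 249999176 J3_6 J3_7 := rfl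

lemma J1_0_def : J1_0 = .node 0 131072 499999030 J2_0 J2_1 := rfl

lemma J1_1_def : J1_1 = .node 131072 262144 499999030 J2_2 J2_3 := rfl

lemma J0_0_def : J0_0 = .node 0 262144 999998060 J1_0 J1_1 := rfl

noncomputable def M0 : QT3 := .c Q3 Q4

lemma M0_def : M0 = .c Q3 Q4 := rfl

lemma vM0 : ev3 M0 J3_1 J3_2 J3_3 = 185002781091371170233956 := by
  rw [M0_def]
  have h : ∀ q, q = J3_3 → ev3 (.c Q3 Q4) J3_1 J3_2 q = 185002781091371170233956 := by
    intro q hq
    rw [J3_3_def] at hq
    subst hq
    exact ev_c_eq _ _ _ _ _ _ _ _ _ 8105960953051231461814 176896820138319938772142 185002781091371170233956 vQ3 vQ4 (by norm_num)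
  exact h _ rfl

noncomputable def M1 : QT3 := .c Q2 M0

lemma M1_def : M1 = .c Q2 M0 := rfl

lemma vM1 : ev3 M1 J3_1 J3_2 J2_1 = 203122202599018854918061 := by
  rw [M1_def]
  have h : ∀ q, q = J2_1 → ev3 (.c Q2 M0) J3_1 J3_2 q = 203122202599018854918061 := by
    intro q hq
    rw [J2_1_def] at hq
    subst hq
    exact ev_c_eq _ _ _ _ _ _ _ _ _ 18119421507647684684105 185002781091371170233956 203122202599018854918061 vQ2 vM0 (by norm_num)
  exact h _ rfl

noncomputable def M2 : QT3 := .b M1 Q5

lemma M2_def : M2 = .b M1 Q5 := rfl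

lemma vM2 : ev3 M2 J3_1 J2_1 J2_1 = 222198502897634732461581 := by
  rw [M2_def]
  have h : ∀ q, q = J2_1 → ev3 (.b M1 Q5) J3_1 q J2_1 = 222198502897634732461581 := by
    intro q hq
    rw [J2_1_def] at hq
    subst hq
    exact ev_b_eq _ _ _ _ _ _ _ _ _ 203122202599018854918061 19076300298615877543520 222198502897634732461581 vM1 vQ5 (by norm_num)
  exact h _ rfl

noncomputable def M3 : QT3 := .a Q1 M2

lemma M3_def : M3 = .a Q1 M2 := rfl

lemma vM3 : ev3 M3 J2_0 J2_1 J2_1 = 311841923853766410689713 := by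
  rw [M3_def]
  have h : ∀ q, q = J2_0 → ev3 (.a Q1 M2) q J2_1 J2_1 = 311841923853766410689713 := by
    intro q hq
    rw [J2_0_def] at hq
    subst hq
    exact ev_a_eq _ _ _ _ _ _ _ _ _ 89643420956131678228132 222198502897634732461581 311841923853766410689713 vQ1 vM2 (by norm_num)
  exact h _ rfl

noncomputable def M4 : QT3 := .c .z M3

lemma M4_def : M4 = .c .z M3 := rfl

lemma vM4 : ev3 M4 J2_0 J2_1 J1_0 = 311841923853766410689713 := by
  rw [M4_def]
  have h : ∀ q, q = J1_0 → ev3 (.c .z M3) J2_0 J2_1 q = 311841923853766410689713 := by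
    intro q hq
    rw [J1_0_def] at hq
    subst hq
    exact ev_c_eq _ _ _ _ _ _ _ _ _ 0 311841923853766410689713 311841923853766410689713 (ev3_z _ _ _) vM3 (by norm_num)
  exact h _ rfl

noncomputable def M5 : QT3 := .b Q0 M4

lemma M5_def : M5 = .b Q0 M4 := rfl

lemma vM5 : ev3 M5 J2_0 J1_0 J1_0 = 340447266224896714089801 := by
  rw [M5_def]
  have h : ∀ q, q = J1_0 → ev3 (.b Q0 M4) J2_0 q J1_0 = 340447266224896714089801 := by
    intro q hq
    rw [J1_0_def] at hq
    subst hq
    exact ev_b_eq _ _ _ _ _ _ _ _ _ 28605342371130303400088 311841923853766410689713 340447266224896714089801 vQ0 vM4 (by norm_num)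
  exact h _ rfl

noncomputable def M6 : QT3 := .a M5 Q6

lemma M6_def : M6 = .a M5 Q6 := rfl

lemma vM6 : ev3 M6 J1_0 J1_0 J1_0 = 375255198843115347528766 := by
  rw [M6_def]
  have h : ∀ q, q = J1_0 → ev3 (.a M5 Q6) q J1_0 J1_0 = 375255198843115347528766 := by
    intro q hq
    rw [J1_0_def] at hq
    subst hq
    exact ev_a_eq _ _ _ _ _ _ _ _ _ 340447266224896714089801 34807932618218633438965 375255198843115347528766 vM5 vQ6 (by norm_num)
  exact h _ rfl

noncomputable def M7 : QT3 := .c Q8 Q9

lemma M7_def : M7 = .c Q8 Q9 := rfl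

lemma vM7 : ev3 M7 J3_0 J3_1 J3_4 = 177857986984434827848213 := by
  rw [M7_def]
  have h : ∀ q, q = J3_4 → ev3 (.c Q8 Q9) J3_0 J3_1 q = 177857986984434827848213 := by
    intro q hq
    rw [J3_4_def] at hq
    subst hq
    exact ev_c_eq _ _ _ _ _ _ _ _ _ 65802275878154665932931 112055711106280161915282 177857986984434827848213 vQ8 vQ9 (by norm_num)
  exact h _ rfl

noncomputable def M8 : QT3 := .c M7 Q10

lemma M8_def : M8 = .c M7 Q10 := rfl

lemma vM8 : ev3 M8 J3_0 J3_1 J2_2 = 224346736411004281273984 := by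
  rw [M8_def]
  have h : ∀ q, q = J2_2 → ev3 (.c M7 Q10) J3_0 J3_1 q = 224346736411004281273984 := by
    intro q hq
    rw [J2_2_def] at hq
    subst hq
    exact ev_c_eq _ _ _ _ _ _ _ _ _ 177857986984434827848213 46488749426569453425771 224346736411004281273984 vM7 vQ10 (by norm_num)
  exact h _ rfl

noncomputable def M9 : QT3 := .b Q7 M8

lemma M9_def : M9 = .b Q7 M8 := rfl

lemma vM9 : ev3 M9 J3_0 J2_0 J2_2 = 225300659036651535225328 := by
  rw [M9_def]
  have h : ∀ q, q = J2_0 → ev3 (.b Q7 M8) J3_0 q J2_2 = 225300659036651535225328 := by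
    intro q hq
    rw [J2_0_def] at hq
    subst hq
    exact ev_b_eq _ _ _ _ _ _ _ _ _ 953922625647253951344 224346736411004281273984 225300659036651535225328 vQ7 vM8 (by norm_num)
  exact h _ rfl

noncomputable def M10 : QT3 := .a M9 Q11

lemma M10_def : M10 = .a M9 Q11 := rfl

lemma vM10 : ev3 M10 J2_0 J2_0 J2_2 = 276084767032647502428812 := by
  rw [M10_def]
  have h : ∀ q, q = J2_0 → ev3 (.a M9 Q11) q J2_0 J2_2 = 276084767032647502428812 := by
    intro q hq
    rw [J2_0_def] at hq
    subst hq
    exact ev_a_eq _ _ _ _ _ _ _ _ _ 225300659036651535225328 50784107995995967203484 276084767032647502428812 vM9 vQ11 (by norm_num)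
  exact h _ rfl

noncomputable def M11 : QT3 := .c Q14 Q15

lemma M11_def : M11 = .c Q14 Q15 := rfl

lemma vM11 : ev3 M11 J3_0 J4_3 J3_6 = 365248393680842883793680 := by
  rw [M11_def]
  have h : ∀ q, q = J3_6 → ev3 (.c Q14 Q15) J3_0 J4_3 q = 365248393680842883793680 := by
    intro q hq
    rw [J3_6_def] at hq
    subst hq
    exact ev_c_eq _ _ _ _ _ _ _ _ _ 106802451626062158930036 258445942054780724863644 365248393680842883793680 vQ14 vQ15 (by norm_num)
  exact h _ rfl

noncomputable def M12 : QT3 := .b Q13 M11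

lemma M12_def : M12 = .b Q13 M11 := rfl

lemma vM12 : ev3 M12 J3_0 J3_1 J3_6 = 463951310200584683472707 := by
  rw [M12_def]
  have h : ∀ q, q = J3_1 → ev3 (.b Q13 M11) J3_0 q J3_6 = 463951310200584683472707 := by
    intro q hq
    rw [J3_1_def] at hq
    subst hq
    exact ev_b_eq _ _ _ _ _ _ _ _ _ 98702916519741799679027 365248393680842883793680 463951310200584683472707 vQ13 vM11 (by norm_num)
  exact h _ rfl

noncomputable def M13 : QT3 := .b Q16 Q17

lemma M13_def : M13 = .b Q16 Q17 := rfl

lemma vM13 : ev3 M13 J3_0 J3_1 J3_7 = 269933034905588558324634 := by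
  rw [M13_def]
  have h : ∀ q, q = J3_1 → ev3 (.b Q16 Q17) J3_0 q J3_7 = 269933034905588558324634 := by
    intro q hq
    rw [J3_1_def] at hq
    subst hq
    exact ev_b_eq _ _ _ _ _ _ _ _ _ 107805418384789845825812 162127616520798712498822 269933034905588558324634 vQ16 vQ17 (by norm_num)
  exact h _ rfl

noncomputable def M14 : QT3 := .c M12 M13

lemma M14_def : M14 = .c M12 M13 := rfl

lemma vM14 : ev3 M14 J3_0 J3_1 J2_3 = 733884345106173241797341 := by
  rw [M14_def]
  have h : ∀ q, q = J2_3 → ev3 (.c M12 M13) J3_0 J3_1 q = 733884345106173241797341 := by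
    intro q hq
    rw [J2_3_def] at hq
    subst hq
    exact ev_c_eq _ _ _ _ _ _ _ _ _ 463951310200584683472707 269933034905588558324634 733884345106173241797341 vM12 vM13 (by norm_num)
  exact h _ rfl

noncomputable def M15 : QT3 := .b Q12 M14

lemma M15_def : M15 = .b Q12 M14 := rfl

lemma vM15 : ev3 M15 J3_0 J2_0 J2_3 = 744375922777307405374434 := by
  rw [M15_def]
  have h : ∀ q, q = J2_0 → ev3 (.b Q12 M14) J3_0 q J2_3 = 744375922777307405374434 := by
    intro q hq
    rw [J2_0_def] at hq
    subst hq
    exact ev_b_eq _ _ _ _ _ _ _ _ _ 10491577671134163577093 733884345106173241797341 744375922777307405374434 vQ12 vM14 (by norm_num)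
  exact h _ rfl

noncomputable def M16 : QT3 := .a M15 Q18

lemma M16_def : M16 = .a M15 Q18 := rfl

lemma vM16 : ev3 M16 J2_0 J2_0 J2_3 = 877062409202314259646246 := by
  rw [M16_def]
  have h : ∀ q, q = J2_0 → ev3 (.a M15 Q18) q J2_0 J2_3 = 877062409202314259646246 := by
    intro q hq
    rw [J2_0_def] at hq
    subst hq
    exact ev_a_eq _ _ _ _ _ _ _ _ _ 744375922777307405374434 132686486425006854271812 877062409202314259646246 vM15 vQ18 (by norm_num)
  exact h _ rfl

noncomputable def M17 : QT3 := .c M10 M16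

lemma M17_def : M17 = .c M10 M16 := rfl

lemma vM17 : ev3 M17 J2_0 J2_0 J1_1 = 1153147176234961762075058 := by
  rw [M17_def]
  have h : ∀ q, q = J1_1 → ev3 (.c M10 M16) J2_0 J2_0 q = 1153147176234961762075058 := by
    intro q hq
    rw [J1_1_def] at hq
    subst hq
    exact ev_c_eq _ _ _ _ _ _ _ _ _ 276084767032647502428812 877062409202314259646246 1153147176234961762075058 vM10 vM16 (by norm_num)
  exact h _ rfl

noncomputable def M18 : QT3 := .a Q20 Q21

lemma M18_def : M18 = .a Q20 Q21 := rfl

lemma vM18 : ev3 M18 J2_0 J4_5 J4_8 = 320434501234528583380301 := by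
  rw [M18_def]
  have h : ∀ q, q = J2_0 → ev3 (.a Q20 Q21) q J4_5 J4_8 = 320434501234528583380301 := by
    intro q hq
    rw [J2_0_def] at hq
    subst hq
    exact ev_a_eq _ _ _ _ _ _ _ _ _ 102519498242356882662615 217915002992171700717686 320434501234528583380301 vQ20 vQ21 (by norm_num)
  exact h _ rfl

noncomputable def M19 : QT3 := .b Q19 M18

lemma M19_def : M19 = .b Q19 M18 := rfl

lemma vM19 : ev3 M19 J2_0 J3_2 J4_8 = 449656960666209130608495 := by
  rw [M19_def]
  have h : ∀ q, q = J3_2 → ev3 (.b Q19 M18) J2_0 q J4_8 = 449656960666209130608495 := by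
    intro q hq
    rw [J3_2_def] at hq
    subst hq
    exact ev_b_eq _ _ _ _ _ _ _ _ _ 129222459431680547228194 320434501234528583380301 449656960666209130608495 vQ19 vM18 (by norm_num)
  exact h _ rfl

noncomputable def M20 : QT3 := .b Q22 Q23

lemma M20_def : M20 = .b Q22 Q23 := rfl

lemma vM20 : ev3 M20 J2_0 J3_2 J4_9 = 912413059533177378894892 := by
  rw [M20_def]
  have h : ∀ q, q = J3_2 → ev3 (.b Q22 Q23) J2_0 q J4_9 = 912413059533177378894892 := by
    intro q hq
    rw [J3_2_def] at hq
    subst hq
    exact ev_b_eq _ _ _ _ _ _ _ _ _ 589596536904669214236794 322816522628508164658098 912413059533177378894892 vQ22 vQ23 (by norm_num)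
  exact h _ rfl

noncomputable def M21 : QT3 := .c M19 M20

lemma M21_def : M21 = .c M19 M20 := rfl

lemma vM21 : ev3 M21 J2_0 J3_2 J3_4 = 1362070020199386509503387 := by
  rw [M21_def]
  have h : ∀ q, q = J3_4 → ev3 (.c M19 M20) J2_0 J3_2 q = 1362070020199386509503387 := by
    intro q hq
    rw [J3_4_def] at hq
    subst hq
    exact ev_c_eq _ _ _ _ _ _ _ _ _ 449656960666209130608495 912413059533177378894892 1362070020199386509503387 vM19 vM20 (by norm_num)
  exact h _ rfl

noncomputable def M22 : QT3 := .a Q24 Q25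

lemma M22_def : M22 = .a Q24 Q25 := rfl

lemma vM22 : ev3 M22 J2_0 J4_4 J4_10 = 197175737970748225779573 := by
  rw [M22_def]
  have h : ∀ q, q = J2_0 → ev3 (.a Q24 Q25) q J4_4 J4_10 = 197175737970748225779573 := by
    intro q hq
    rw [J2_0_def] at hq
    subst hq
    exact ev_a_eq _ _ _ _ _ _ _ _ _ 114440980558596960366962 82734757412151265412611 197175737970748225779573 vQ24 vQ25 (by norm_num)
  exact h _ rfl

noncomputable def M23 : QT3 := .c M22 Q26

lemma M23_def : M23 = .c M22 Q26 := rfl

lemma vM23 : ev3 M23 J2_0 J4_4 J3_5 = 425810892713466495538336 := by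
  rw [M23_def]
  have h : ∀ q, q = J3_5 → ev3 (.c M22 Q26) J2_0 J4_4 q = 425810892713466495538336 := by
    intro q hq
    rw [J3_5_def] at hq
    subst hq
    exact ev_c_eq _ _ _ _ _ _ _ _ _ 197175737970748225779573 228635154742718269758763 425810892713466495538336 vM22 vQ26 (by norm_num)
  exact h _ rfl

noncomputable def M24 : QT3 := .a Q27 Q28

lemma M24_def : M24 = .a Q27 Q28 := rfl

lemma vM24 : ev3 M24 J2_0 J4_5 J4_10 = 413788349635683850710737 := by
  rw [M24_def]
  have h : ∀ q, q = J2_0 → ev3 (.a Q27 Q28) q J4_5 J4_10 = 413788349635683850710737 := by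
    intro q hq
    rw [J2_0_def] at hq
    subst hq
    exact ev_a_eq _ _ _ _ _ _ _ _ _ 162248287409368227620449 251540062226315623090288 413788349635683850710737 vQ27 vQ28 (by norm_num)
  exact h _ rfl

noncomputable def M25 : QT3 := .a Q29 Q30

lemma M25_def : M25 = .a Q29 Q30 := rfl

lemma vM25 : ev3 M25 J2_0 J4_5 J4_11 = 613926759167576838102080 := by
  rw [M25_def]
  have h : ∀ q, q = J2_0 → ev3 (.a Q29 Q30) q J4_5 J4_11 = 613926759167576838102080 := by
    intro q hq
    rw [J2_0_def] at hq
    subst hq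
    exact ev_a_eq _ _ _ _ _ _ _ _ _ 403401367636928474843075 210525391530648363259005 613926759167576838102080 vQ29 vQ30 (by norm_num)
  exact h _ rfl

noncomputable def M26 : QT3 := .c M24 M25

lemma M26_def : M26 = .c M24 M25 := rfl

lemma vM26 : ev3 M26 J2_0 J4_5 J3_5 = 1027715108803260688812817 := by
  rw [M26_def]
  have h : ∀ q, q = J3_5 → ev3 (.c M24 M25) J2_0 J4_5 q = 1027715108803260688812817 := by
    intro q hq
    rw [J3_5_def] at hq
    subst hq
    exact ev_c_eq _ _ _ _ _ _ _ _ _ 413788349635683850710737 613926759167576838102080 1027715108803260688812817 vM24 vM25 (by norm_num)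
  exact h _ rfl

noncomputable def M27 : QT3 := .b M23 M26

lemma M27_def : M27 = .b M23 M26 := rfl

lemma vM27 : ev3 M27 J2_0 J3_2 J3_5 = 1453526001516727184351153 := by
  rw [M27_def]
  have h : ∀ q, q = J3_2 → ev3 (.b M23 M26) J2_0 q J3_5 = 1453526001516727184351153 := by
    intro q hq
    rw [J3_2_def] at hq
    subst hq
    exact ev_b_eq _ _ _ _ _ _ _ _ _ 425810892713466495538336 1027715108803260688812817 1453526001516727184351153 vM23 vM26 (by norm_num)
  exact h _ rfl

noncomputable def M28 : QT3 := .c M21 M27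

lemma M28_def : M28 = .c M21 M27 := rfl

lemma vM28 : ev3 M28 J2_0 J3_2 J2_2 = 2815596021716113693854540 := by
  rw [M28_def]
  have h : ∀ q, q = J2_2 → ev3 (.c M21 M27) J2_0 J3_2 q = 2815596021716113693854540 := by
    intro q hq
    rw [J2_2_def] at hq
    subst hq
    exact ev_c_eq _ _ _ _ _ _ _ _ _ 1362070020199386509503387 1453526001516727184351153 2815596021716113693854540 vM21 vM27 (by norm_num)
  exact h _ rfl

noncomputable def M29 : QT3 := .a Q32 Q33

lemma M29_def : M29 = .a Q32 Q33 := rfl

lemma vM29 : ev3 M29 J2_0 J4_6 J4_9 = 372164530394871726373386 := by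
  rw [M29_def]
  have h : ∀ q, q = J2_0 → ev3 (.a Q32 Q33) q J4_6 J4_9 = 372164530394871726373386 := by
    intro q hq
    rw [J2_0_def] at hq
    subst hq
    exact ev_a_eq _ _ _ _ _ _ _ _ _ 101090054446324278863368 271074475948547447510018 372164530394871726373386 vQ32 vQ33 (by norm_num)
  exact h _ rfl

noncomputable def M30 : QT3 := .c Q31 M29

lemma M30_def : M30 = .c Q31 M29 := rfl

lemma vM30 : ev3 M30 J2_0 J4_6 J3_4 = 546924047057898177999122 := by
  rw [M30_def]
  have h : ∀ q, q = J3_4 → ev3 (.c Q31 M29) J2_0 J4_6 q = 546924047057898177999122 := by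
    intro q hq
    rw [J3_4_def] at hq
    subst hq
    exact ev_c_eq _ _ _ _ _ _ _ _ _ 174759516663026451625736 372164530394871726373386 546924047057898177999122 vQ31 vM29 (by norm_num)
  exact h _ rfl

noncomputable def M31 : QT3 := .a Q34 Q35

lemma M31_def : M31 = .a Q34 Q35 := rfl

lemma vM31 : ev3 M31 J2_0 J4_7 J4_8 = 405546131345668169466406 := by
  rw [M31_def]
  have h : ∀ q, q = J2_0 → ev3 (.a Q34 Q35) q J4_7 J4_8 = 405546131345668169466406 := by
    intro q hq
    rw [J2_0_def] at hq
    subst hq
    exact ev_a_eq _ _ _ _ _ _ _ _ _ 176662258637604785440337 228883872708063384026069 405546131345668169466406 vQ34 vQ35 (by norm_num)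
  exact h _ rfl

noncomputable def M32 : QT3 := .a Q36 Q37

lemma M32_def : M32 = .a Q36 Q37 := rfl

lemma vM32 : ev3 M32 J2_0 J4_7 J4_9 = 694386533903794515085090 := by
  rw [M32_def]
  have h : ∀ q, q = J2_0 → ev3 (.a Q36 Q37) q J4_7 J4_9 = 694386533903794515085090 := by
    intro q hq
    rw [J2_0_def] at hq
    subst hq
    exact ev_a_eq _ _ _ _ _ _ _ _ _ 417939747512777555704971 276446786391016959380119 694386533903794515085090 vQ36 vQ37 (by norm_num)
  exact h _ rfl

noncomputable def M33 : QT3 := .c M31 M32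

lemma M33_def : M33 = .c M31 M32 := rfl

lemma vM33 : ev3 M33 J2_0 J4_7 J3_4 = 1099932665249462684551496 := by
  rw [M33_def]
  have h : ∀ q, q = J3_4 → ev3 (.c M31 M32) J2_0 J4_7 q = 1099932665249462684551496 := by
    intro q hq
    rw [J3_4_def] at hq
    subst hq
    exact ev_c_eq _ _ _ _ _ _ _ _ _ 405546131345668169466406 694386533903794515085090 1099932665249462684551496 vM31 vM32 (by norm_num)
  exact h _ rfl

noncomputable def M34 : QT3 := .b M30 M33

lemma M34_def : M34 = .b M30 M33 := rfl

lemma vM34 : ev3 M34 J2_0 J3_3 J3_4 = 1646856712307360862550618 := by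
  rw [M34_def]
  have h : ∀ q, q = J3_3 → ev3 (.b M30 M33) J2_0 q J3_4 = 1646856712307360862550618 := by
    intro q hq
    rw [J3_3_def] at hq
    subst hq
    exact ev_b_eq _ _ _ _ _ _ _ _ _ 546924047057898177999122 1099932665249462684551496 1646856712307360862550618 vM30 vM33 (by norm_num)
  exact h _ rfl

noncomputable def M35 : QT3 := .a Q38 Q39

lemma M35_def : M35 = .a Q38 Q39 := rfl

lemma vM35 : ev3 M35 J2_0 J4_6 J4_10 = 521304693368728537183394 := by
  rw [M35_def]
  have h : ∀ q, q = J2_0 → ev3 (.a Q38 Q39) q J4_6 J4_10 = 521304693368728537183394 := by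
    intro q hq
    rw [J2_0_def] at hq
    subst hq
    exact ev_a_eq _ _ _ _ _ _ _ _ _ 291469708354372139486455 229834985014356397696939 521304693368728537183394 vQ38 vQ39 (by norm_num)
  exact h _ rfl

noncomputable def M36 : QT3 := .a Q40 Q41

lemma M36_def : M36 = .a Q40 Q41 := rfl

lemma vM36 : ev3 M36 J2_0 J4_6 J4_11 = 678171697342966753464805 := by
  rw [M36_def]
  have h : ∀ q, q = J2_0 → ev3 (.a Q40 Q41) q J4_6 J4_11 = 678171697342966753464805 := by
    intro q hq
    rw [J2_0_def] at hq
    subst hq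
    exact ev_a_eq _ _ _ _ _ _ _ _ _ 453817486536753020024853 224354210806213733439952 678171697342966753464805 vQ40 vQ41 (by norm_num)
  exact h _ rfl

noncomputable def M37 : QT3 := .c M35 M36

lemma M37_def : M37 = .c M35 M36 := rfl

lemma vM37 : ev3 M37 J2_0 J4_6 J3_5 = 1199476390711695290648199 := by
  rw [M37_def]
  have h : ∀ q, q = J3_5 → ev3 (.c M35 M36) J2_0 J4_6 q = 1199476390711695290648199 := by
    intro q hq
    rw [J3_5_def] at hq
    subst hq
    exact ev_c_eq _ _ _ _ _ _ _ _ _ 521304693368728537183394 678171697342966753464805 1199476390711695290648199 vM35 vM36 (by norm_num)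
  exact h _ rfl

noncomputable def M38 : QT3 := .a Q42 Q43

lemma M38_def : M38 = .a Q42 Q43 := rfl

lemma vM38 : ev3 M38 J2_0 J4_7 J4_10 = 612027092357460214279135 := by
  rw [M38_def]
  have h : ∀ q, q = J2_0 → ev3 (.a Q42 Q43) q J4_7 J4_10 = 612027092357460214279135 := by
    intro q hq
    rw [J2_0_def] at hq
    subst hq
    exact ev_a_eq _ _ _ _ _ _ _ _ _ 249744553045104084110223 362282539312356130168912 612027092357460214279135 vQ42 vQ43 (by norm_num)
  exact h _ rfl

noncomputable def M39 : QT3 := .a Q44 Q45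

lemma M39_def : M39 = .a Q44 Q45 := rfl

lemma vM39 : ev3 M39 J2_0 J4_7 J4_11 = 535840367354313309351927 := by
  rw [M39_def]
  have h : ∀ q, q = J2_0 → ev3 (.a Q44 Q45) q J4_7 J4_11 = 535840367354313309351927 := by
    intro q hq
    rw [J2_0_def] at hq
    subst hq
    exact ev_a_eq _ _ _ _ _ _ _ _ _ 192876674957899865816278 342963692396413443535649 535840367354313309351927 vQ44 vQ45 (by norm_num)
  exact h _ rfl

noncomputable def M40 : QT3 := .c M38 M39

lemma M40_def : M40 = .c M38 M39 := rfl

lemma vM40 : ev3 M40 J2_0 J4_7 J3_5 = 1147867459711773523631062 := by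
  rw [M40_def]
  have h : ∀ q, q = J3_5 → ev3 (.c M38 M39) J2_0 J4_7 q = 1147867459711773523631062 := by
    intro q hq
    rw [J3_5_def] at hq
    subst hq
    exact ev_c_eq _ _ _ _ _ _ _ _ _ 612027092357460214279135 535840367354313309351927 1147867459711773523631062 vM38 vM39 (by norm_num)
  exact h _ rfl

noncomputable def M41 : QT3 := .b M37 M40

lemma M41_def : M41 = .b M37 M40 := rfl

lemma vM41 : ev3 M41 J2_0 J3_3 J3_5 = 2347343850423468814279261 := by
  rw [M41_def]
  have h : ∀ q, q = J3_3 → ev3 (.b M37 M40) J2_0 q J3_5 = 2347343850423468814279261 := by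
    intro q hq
    rw [J3_3_def] at hq
    subst hq
    exact ev_b_eq _ _ _ _ _ _ _ _ _ 1199476390711695290648199 1147867459711773523631062 2347343850423468814279261 vM37 vM40 (by norm_num)
  exact h _ rfl

noncomputable def M42 : QT3 := .c M34 M41

lemma M42_def : M42 = .c M34 M41 := rfl

lemma vM42 : ev3 M42 J2_0 J3_3 J2_2 = 3994200562730829676829879 := by
  rw [M42_def]
  have h : ∀ q, q = J2_2 → ev3 (.c M34 M41) J2_0 J3_3 q = 3994200562730829676829879 := by
    intro q hq
    rw [J2_2_def] at hq
    subst hq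
    exact ev_c_eq _ _ _ _ _ _ _ _ _ 1646856712307360862550618 2347343850423468814279261 3994200562730829676829879 vM34 vM41 (by norm_num)
  exact h _ rfl

noncomputable def M43 : QT3 := .b M28 M42

lemma M43_def : M43 = .b M28 M42 := rfl

lemma vM43 : ev3 M43 J2_0 J2_1 J2_2 = 6809796584446943370684419 := by
  rw [M43_def]
  have h : ∀ q, q = J2_1 → ev3 (.b M28 M42) J2_0 q J2_2 = 6809796584446943370684419 := by
    intro q hq
    rw [J2_1_def] at hq
    subst hq
    exact ev_b_eq _ _ _ _ _ _ _ _ _ 2815596021716113693854540 3994200562730829676829879 6809796584446943370684419 vM28 vM42 (by norm_num)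
  exact h _ rfl

noncomputable def M44 : QT3 := .c Q46 Q47

lemma M44_def : M44 = .c Q46 Q47 := rfl

lemma vM44 : ev3 M44 J3_0 J4_4 J3_6 = 696406797329445583574105 := by
  rw [M44_def]
  have h : ∀ q, q = J3_6 → ev3 (.c Q46 Q47) J3_0 J4_4 q = 696406797329445583574105 := by
    intro q hq
    rw [J3_6_def] at hq
    subst hq
    exact ev_c_eq _ _ _ _ _ _ _ _ _ 301348327541737361508566 395058469787708222065539 696406797329445583574105 vQ46 vQ47 (by norm_num)
  exact h _ rfl

noncomputable def M45 : QT3 := .c M44 Q48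

lemma M45_def : M45 = .c M44 Q48 := rfl

lemma vM45 : ev3 M45 J3_0 J4_4 J2_3 = 806299699594551276117273 := by
  rw [M45_def]
  have h : ∀ q, q = J2_3 → ev3 (.c M44 Q48) J3_0 J4_4 q = 806299699594551276117273 := by
    intro q hq
    rw [J2_3_def] at hq
    subst hq
    exact ev_c_eq _ _ _ _ _ _ _ _ _ 696406797329445583574105 109892902265105692543168 806299699594551276117273 vM44 vQ48 (by norm_num)
  exact h _ rfl

noncomputable def M46 : QT3 := .a Q49 Q50

lemma M46_def : M46 = .a Q49 Q50 := rfl

lemma vM46 : ev3 M46 J3_1 J4_4 J3_6 = 358462230586886236087228 := by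
  rw [M46_def]
  have h : ∀ q, q = J3_1 → ev3 (.a Q49 Q50) q J4_4 J3_6 = 358462230586886236087228 := by
    intro q hq
    rw [J3_1_def] at hq
    subst hq
    exact ev_a_eq _ _ _ _ _ _ _ _ _ 193962096677364066293794 164500133909522169793434 358462230586886236087228 vQ49 vQ50 (by norm_num)
  exact h _ rfl

noncomputable def M47 : QT3 := .c M46 Q51

lemma M47_def : M47 = .c M46 Q51 := rfl

lemma vM47 : ev3 M47 J3_1 J4_4 J2_3 = 455137275662294589641298 := by
  rw [M47_def]
  have h : ∀ q, q = J2_3 → ev3 (.c M46 Q51) J3_1 J4_4 q = 455137275662294589641298 := by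
    intro q hq
    rw [J2_3_def] at hq
    subst hq
    exact ev_c_eq _ _ _ _ _ _ _ _ _ 358462230586886236087228 96675045075408353554070 455137275662294589641298 vM46 vQ51 (by norm_num)
  exact h _ rfl

noncomputable def M48 : QT3 := .a M45 M47

lemma M48_def : M48 = .a M45 M47 := rfl

lemma vM48 : ev3 M48 J2_0 J4_4 J2_3 = 1261436975256845865758571 := by
  rw [M48_def]
  have h : ∀ q, q = J2_0 → ev3 (.a M45 M47) q J4_4 J2_3 = 1261436975256845865758571 := by
    intro q hq
    rw [J2_0_def] at hq
    subst hq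
    exact ev_a_eq _ _ _ _ _ _ _ _ _ 806299699594551276117273 455137275662294589641298 1261436975256845865758571 vM45 vM47 (by norm_num)
  exact h _ rfl

noncomputable def M49 : QT3 := .c Q52 Q53

lemma M49_def : M49 = .c Q52 Q53 := rfl

lemma vM49 : ev3 M49 J3_0 J4_5 J3_6 = 504022011754817712290885 := by
  rw [M49_def]
  have h : ∀ q, q = J3_6 → ev3 (.c Q52 Q53) J3_0 J4_5 q = 504022011754817712290885 := by
    intro q hq
    rw [J3_6_def] at hq
    subst hq
    exact ev_c_eq _ _ _ _ _ _ _ _ _ 295162271772102841212714 208859739982714871078171 504022011754817712290885 vQ52 vQ53 (by norm_num)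
  exact h _ rfl

noncomputable def M50 : QT3 := .c M49 Q54

lemma M50_def : M50 = .c M49 Q54 := rfl

lemma vM50 : ev3 M50 J3_0 J4_5 J2_3 = 607133434195694396889671 := by
  rw [M50_def]
  have h : ∀ q, q = J2_3 → ev3 (.c M49 Q54) J3_0 J4_5 q = 607133434195694396889671 := by
    intro q hq
    rw [J2_3_def] at hq
    subst hq
    exact ev_c_eq _ _ _ _ _ _ _ _ _ 504022011754817712290885 103111422440876684598786 607133434195694396889671 vM49 vQ54 (by norm_num)
  exact h _ rfl

noncomputable def M51 : QT3 := .a Q55 Q56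

lemma M51_def : M51 = .a Q55 Q56 := rfl

lemma vM51 : ev3 M51 J3_1 J4_5 J3_6 = 488184056594997549453455 := by
  rw [M51_def]
  have h : ∀ q, q = J3_1 → ev3 (.a Q55 Q56) q J4_5 J3_6 = 488184056594997549453455 := by
    intro q hq
    rw [J3_1_def] at hq
    subst hq
    exact ev_a_eq _ _ _ _ _ _ _ _ _ 295540576641785891603950 192643479953211657849505 488184056594997549453455 vQ55 vQ56 (by norm_num)
  exact h _ rfl

noncomputable def M52 : QT3 := .c M51 Q57

lemma M52_def : M52 = .c M51 Q57 := rfl

lemma vM52 : ev3 M52 J3_1 J4_5 J2_3 = 648741821457913938719778 := by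
  rw [M52_def]
  have h : ∀ q, q = J2_3 → ev3 (.c M51 Q57) J3_1 J4_5 q = 648741821457913938719778 := by
    intro q hq
    rw [J2_3_def] at hq
    subst hq
    exact ev_c_eq _ _ _ _ _ _ _ _ _ 488184056594997549453455 160557764862916389266323 648741821457913938719778 vM51 vQ57 (by norm_num)
  exact h _ rfl

noncomputable def M53 : QT3 := .a M50 M52

lemma M53_def : M53 = .a M50 M52 := rfl

lemma vM53 : ev3 M53 J2_0 J4_5 J2_3 = 1255875255653608335609449 := by
  rw [M53_def]
  have h : ∀ q, q = J2_0 → ev3 (.a M50 M52) q J4_5 J2_3 = 1255875255653608335609449 := by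
    intro q hq
    rw [J2_0_def] at hq
    subst hq
    exact ev_a_eq _ _ _ _ _ _ _ _ _ 607133434195694396889671 648741821457913938719778 1255875255653608335609449 vM50 vM52 (by norm_num)
  exact h _ rfl

noncomputable def M54 : QT3 := .b M48 M53

lemma M54_def : M54 = .b M48 M53 := rfl

lemma vM54 : ev3 M54 J2_0 J3_2 J2_3 = 2517312230910454201368020 := by
  rw [M54_def]
  have h : ∀ q, q = J3_2 → ev3 (.b M48 M53) J2_0 q J2_3 = 2517312230910454201368020 := by
    intro q hq
    rw [J3_2_def] at hq
    subst hq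
    exact ev_b_eq _ _ _ _ _ _ _ _ _ 1261436975256845865758571 1255875255653608335609449 2517312230910454201368020 vM48 vM53 (by norm_num)
  exact h _ rfl

noncomputable def M55 : QT3 := .b Q59 Q60

lemma M55_def : M55 = .b Q59 Q60 := rfl

lemma vM55 : ev3 M55 J3_0 J4_6 J4_13 = 235803842247608564084087 := by
  rw [M55_def]
  have h : ∀ q, q = J4_6 → ev3 (.b Q59 Q60) J3_0 q J4_13 = 235803842247608564084087 := by
    intro q hq
    rw [J4_6_def] at hq
    subst hq
    exact ev_b_eq _ _ _ _ _ _ _ _ _ 86906529205950393726473 148897313041658170357614 235803842247608564084087 vQ59 vQ60 (by norm_num)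
  exact h _ rfl

noncomputable def M56 : QT3 := .c Q58 M55

lemma M56_def : M56 = .c Q58 M55 := rfl

lemma vM56 : ev3 M56 J3_0 J4_6 J3_6 = 548714121657814874918906 := by
  rw [M56_def]
  have h : ∀ q, q = J3_6 → ev3 (.c Q58 M55) J3_0 J4_6 q = 548714121657814874918906 := by
    intro q hq
    rw [J3_6_def] at hq
    subst hq
    exact ev_c_eq _ _ _ _ _ _ _ _ _ 312910279410206310834819 235803842247608564084087 548714121657814874918906 vQ58 vM55 (by norm_num)
  exact h _ rfl

noncomputable def M57 : QT3 := .c M56 Q61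

lemma M57_def : M57 = .c M56 Q61 := rfl

lemma vM57 : ev3 M57 J3_0 J4_6 J2_3 = 707505950532404541432893 := by
  rw [M57_def]
  have h : ∀ q, q = J2_3 → ev3 (.c M56 Q61) J3_0 J4_6 q = 707505950532404541432893 := by
    intro q hq
    rw [J2_3_def] at hq
    subst hq
    exact ev_c_eq _ _ _ _ _ _ _ _ _ 548714121657814874918906 158791828874589666513987 707505950532404541432893 vM56 vQ61 (by norm_num)
  exact h _ rfl

noncomputable def M58 : QT3 := .a Q62 Q63

lemma M58_def : M58 = .a Q62 Q63 := rfl

lemma vM58 : ev3 M58 J3_1 J4_6 J3_6 = 640393975619304495134662 := by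
  rw [M58_def]
  have h : ∀ q, q = J3_1 → ev3 (.a Q62 Q63) q J4_6 J3_6 = 640393975619304495134662 := by
    intro q hq
    rw [J3_1_def] at hq
    subst hq
    exact ev_a_eq _ _ _ _ _ _ _ _ _ 317587288957451449199580 322806686661853045935082 640393975619304495134662 vQ62 vQ63 (by norm_num)
  exact h _ rfl

noncomputable def M59 : QT3 := .c M58 Q64

lemma M59_def : M59 = .c M58 Q64 := rfl

lemma vM59 : ev3 M59 J3_1 J4_6 J2_3 = 791551780694326406669458 := by
  rw [M59_def]
  have h : ∀ q, q = J2_3 → ev3 (.c M58 Q64) J3_1 J4_6 q = 791551780694326406669458 := by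
    intro q hq
    rw [J2_3_def] at hq
    subst hq
    exact ev_c_eq _ _ _ _ _ _ _ _ _ 640393975619304495134662 151157805075021911534796 791551780694326406669458 vM58 vQ64 (by norm_num)
  exact h _ rfl

noncomputable def M60 : QT3 := .a M57 M59

lemma M60_def : M60 = .a M57 M59 := rfl

lemma vM60 : ev3 M60 J2_0 J4_6 J2_3 = 1499057731226730948102351 := by
  rw [M60_def]
  have h : ∀ q, q = J2_0 → ev3 (.a M57 M59) q J4_6 J2_3 = 1499057731226730948102351 := by
    intro q hq
    rw [J2_0_def] at hq
    subst hq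
    exact ev_a_eq _ _ _ _ _ _ _ _ _ 707505950532404541432893 791551780694326406669458 1499057731226730948102351 vM57 vM59 (by norm_num)
  exact h _ rfl

noncomputable def M61 : QT3 := .c Q65 Q66

lemma M61_def : M61 = .c Q65 Q66 := rfl

lemma vM61 : ev3 M61 J3_0 J4_7 J3_6 = 647657048016933152759329 := by
  rw [M61_def]
  have h : ∀ q, q = J3_6 → ev3 (.c Q65 Q66) J3_0 J4_7 q = 647657048016933152759329 := by
    intro q hq
    rw [J3_6_def] at hq
    subst hq
    exact ev_c_eq _ _ _ _ _ _ _ _ _ 340926043106412945461697 306731004910520207297632 647657048016933152759329 vQ65 vQ66 (by norm_num)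
  exact h _ rfl

noncomputable def M62 : QT3 := .c M61 Q67

lemma M62_def : M62 = .c M61 Q67 := rfl

lemma vM62 : ev3 M62 J3_0 J4_7 J2_3 = 756843576800761556788535 := by
  rw [M62_def]
  have h : ∀ q, q = J2_3 → ev3 (.c M61 Q67) J3_0 J4_7 q = 756843576800761556788535 := by
    intro q hq
    rw [J2_3_def] at hq
    subst hq
    exact ev_c_eq _ _ _ _ _ _ _ _ _ 647657048016933152759329 109186528783828404029206 756843576800761556788535 vM61 vQ67 (by norm_num)
  exact h _ rfl

noncomputable def M63 : QT3 := .c Q69 Q70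

lemma M63_def : M63 = .c Q69 Q70 := rfl

lemma vM63 : ev3 M63 J4_3 J4_7 J3_6 = 353922610952821832258769 := by
  rw [M63_def]
  have h : ∀ q, q = J3_6 → ev3 (.c Q69 Q70) J4_3 J4_7 q = 353922610952821832258769 := by
    intro q hq
    rw [J3_6_def] at hq
    subst hq
    exact ev_c_eq _ _ _ _ _ _ _ _ _ 179993351107506325468255 173929259845315506790514 353922610952821832258769 vQ69 vQ70 (by norm_num)
  exact h _ rfl

noncomputable def M64 : QT3 := .a Q68 M63

lemma M64_def : M64 = .a Q68 M63 := rfl

lemma vM64 : ev3 M64 J3_1 J4_7 J3_6 = 741734316445102545277347 := by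
  rw [M64_def]
  have h : ∀ q, q = J3_1 → ev3 (.a Q68 M63) q J4_7 J3_6 = 741734316445102545277347 := by
    intro q hq
    rw [J3_1_def] at hq
    subst hq
    exact ev_a_eq _ _ _ _ _ _ _ _ _ 387811705492280713018578 353922610952821832258769 741734316445102545277347 vQ68 vM63 (by norm_num)
  exact h _ rfl

noncomputable def M65 : QT3 := .a Q71 Q72

lemma M65_def : M65 = .a Q71 Q72 := rfl

lemma vM65 : ev3 M65 J3_1 J4_7 J3_7 = 143282619817376756290843 := by
  rw [M65_def]
  have h : ∀ q, q = J3_1 → ev3 (.a Q71 Q72) q J4_7 J3_7 = 143282619817376756290843 := by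
    intro q hq
    rw [J3_1_def] at hq
    subst hq
    exact ev_a_eq _ _ _ _ _ _ _ _ _ 51500107787425356952802 91782512029951399338041 143282619817376756290843 vQ71 vQ72 (by norm_num)
  exact h _ rfl

noncomputable def M66 : QT3 := .c M64 M65

lemma M66_def : M66 = .c M64 M65 := rfl

lemma vM66 : ev3 M66 J3_1 J4_7 J2_3 = 885016936262479301568190 := by
  rw [M66_def]
  have h : ∀ q, q = J2_3 → ev3 (.c M64 M65) J3_1 J4_7 q = 885016936262479301568190 := by
    intro q hq
    rw [J2_3_def] at hq
    subst hq
    exact ev_c_eq _ _ _ _ _ _ _ _ _ 741734316445102545277347 143282619817376756290843 885016936262479301568190 vM64 vM65 (by norm_num)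
  exact h _ rfl

noncomputable def M67 : QT3 := .a M62 M66

lemma M67_def : M67 = .a M62 M66 := rfl

lemma vM67 : ev3 M67 J2_0 J4_7 J2_3 = 1641860513063240858356725 := by
  rw [M67_def]
  have h : ∀ q, q = J2_0 → ev3 (.a M62 M66) q J4_7 J2_3 = 1641860513063240858356725 := by
    intro q hq
    rw [J2_0_def] at hq
    subst hq
    exact ev_a_eq _ _ _ _ _ _ _ _ _ 756843576800761556788535 885016936262479301568190 1641860513063240858356725 vM62 vM66 (by norm_num)
  exact h _ rfl

noncomputable def M68 : QT3 := .b M60 M67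

lemma M68_def : M68 = .b M60 M67 := rfl

lemma vM68 : ev3 M68 J2_0 J3_3 J2_3 = 3140918244289971806459076 := by
  rw [M68_def]
  have h : ∀ q, q = J3_3 → ev3 (.b M60 M67) J2_0 q J2_3 = 3140918244289971806459076 := by
    intro q hq
    rw [J3_3_def] at hq
    subst hq
    exact ev_b_eq _ _ _ _ _ _ _ _ _ 1499057731226730948102351 1641860513063240858356725 3140918244289971806459076 vM60 vM67 (by norm_num)
  exact h _ rfl

noncomputable def M69 : QT3 := .b M54 M68

lemma M69_def : M69 = .b M54 M68 := rfl

lemma vM69 : ev3 M69 J2_0 J2_1 J2_3 = 5658230475200426007827096 := by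
  rw [M69_def]
  have h : ∀ q, q = J2_1 → ev3 (.b M54 M68) J2_0 q J2_3 = 5658230475200426007827096 := by
    intro q hq
    rw [J2_1_def] at hq
    subst hq
    exact ev_b_eq _ _ _ _ _ _ _ _ _ 2517312230910454201368020 3140918244289971806459076 5658230475200426007827096 vM54 vM68 (by norm_num)
  exact h _ rfl

noncomputable def M70 : QT3 := .c M43 M69

lemma M70_def : M70 = .c M43 M69 := rfl

lemma vM70 : ev3 M70 J2_0 J2_1 J1_1 = 12468027059647369378511515 := by
  rw [M70_def]
  have h : ∀ q, q = J1_1 → ev3 (.c M43 M69) J2_0 J2_1 q = 12468027059647369378511515 := by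
    intro q hq
    rw [J1_1_def] at hq
    subst hq
    exact ev_c_eq _ _ _ _ _ _ _ _ _ 6809796584446943370684419 5658230475200426007827096 12468027059647369378511515 vM43 vM69 (by norm_num)
  exact h _ rfl

noncomputable def M71 : QT3 := .b M17 M70

lemma M71_def : M71 = .b M17 M70 := rfl

lemma vM71 : ev3 M71 J2_0 J1_0 J1_1 = 13621174235882331140586573 := by
  rw [M71_def]
  have h : ∀ q, q = J1_0 → ev3 (.b M17 M70) J2_0 q J1_1 = 13621174235882331140586573 := by
    intro q hq
    rw [J1_0_def] at hq
    subst hq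
    exact ev_b_eq _ _ _ _ _ _ _ _ _ 1153147176234961762075058 12468027059647369378511515 13621174235882331140586573 vM17 vM70 (by norm_num)
  exact h _ rfl

noncomputable def M72 : QT3 := .a Q73 Q74

lemma M72_def : M72 = .a Q73 Q74 := rfl

lemma vM72 : ev3 M72 J3_2 J3_2 J3_4 = 324489378842805506119166 := by
  rw [M72_def]
  have h : ∀ q, q = J3_2 → ev3 (.a Q73 Q74) q J3_2 J3_4 = 324489378842805506119166 := by
    intro q hq
    rw [J3_2_def] at hq
    subst hq
    exact ev_a_eq _ _ _ _ _ _ _ _ _ 231026566657042412917353 93462812185763093201813 324489378842805506119166 vQ73 vQ74 (by norm_num)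
  exact h _ rfl

noncomputable def M73 : QT3 := .c M72 Q75

lemma M73_def : M73 = .c M72 Q75 := rfl

lemma vM73 : ev3 M73 J3_2 J3_2 J2_2 = 655775905011521384889471 := by
  rw [M73_def]
  have h : ∀ q, q = J2_2 → ev3 (.c M72 Q75) J3_2 J3_2 q = 655775905011521384889471 := by
    intro q hq
    rw [J2_2_def] at hq
    subst hq
    exact ev_c_eq _ _ _ _ _ _ _ _ _ 324489378842805506119166 331286526168715878770305 655775905011521384889471 vM72 vQ75 (by norm_num)
  exact h _ rfl

noncomputable def M74 : QT3 := .c Q76 Q77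

lemma M74_def : M74 = .c Q76 Q77 := rfl

lemma vM74 : ev3 M74 J3_2 J4_6 J3_4 = 499005052774404110203620 := by
  rw [M74_def]
  have h : ∀ q, q = J3_4 → ev3 (.c Q76 Q77) J3_2 J4_6 q = 499005052774404110203620 := by
    intro q hq
    rw [J3_4_def] at hq
    subst hq
    exact ev_c_eq _ _ _ _ _ _ _ _ _ 307798234307647125277567 191206818466756984926053 499005052774404110203620 vQ76 vQ77 (by norm_num)
  exact h _ rfl

noncomputable def M75 : QT3 := .c Q78 Q79

lemma M75_def : M75 = .c Q78 Q79 := rfl

lemma vM75 : ev3 M75 J3_2 J4_7 J3_4 = 482678143606616407146255 := by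
  rw [M75_def]
  have h : ∀ q, q = J3_4 → ev3 (.c Q78 Q79) J3_2 J4_7 q = 482678143606616407146255 := by
    intro q hq
    rw [J3_4_def] at hq
    subst hq
    exact ev_c_eq _ _ _ _ _ _ _ _ _ 250104497785176798343897 232573645821439608802358 482678143606616407146255 vQ78 vQ79 (by norm_num)
  exact h _ rfl

noncomputable def M76 : QT3 := .b M74 M75

lemma M76_def : M76 = .b M74 M75 := rfl

lemma vM76 : ev3 M76 J3_2 J3_3 J3_4 = 981683196381020517349875 := by
  rw [M76_def]
  have h : ∀ q, q = J3_3 → ev3 (.b M74 M75) J3_2 q J3_4 = 981683196381020517349875 := by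
    intro q hq
    rw [J3_3_def] at hq
    subst hq
    exact ev_b_eq _ _ _ _ _ _ _ _ _ 499005052774404110203620 482678143606616407146255 981683196381020517349875 vM74 vM75 (by norm_num)
  exact h _ rfl

noncomputable def M77 : QT3 := .a Q80 Q81

lemma M77_def : M77 = .a Q80 Q81 := rfl

lemma vM77 : ev3 M77 J3_2 J4_6 J3_5 = 529400707656054351812182 := by
  rw [M77_def]
  have h : ∀ q, q = J3_2 → ev3 (.a Q80 Q81) q J4_6 J3_5 = 529400707656054351812182 := by
    intro q hq
    rw [J3_2_def] at hq
    subst hq
    exact ev_a_eq _ _ _ _ _ _ _ _ _ 342838147305060852701078 186562560350993499111104 529400707656054351812182 vQ80 vQ81 (by norm_num)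
  exact h _ rfl

noncomputable def M78 : QT3 := .a Q82 Q83

lemma M78_def : M78 = .a Q82 Q83 := rfl

lemma vM78 : ev3 M78 J3_2 J4_7 J3_5 = 324967469752904173354482 := by
  rw [M78_def]
  have h : ∀ q, q = J3_2 → ev3 (.a Q82 Q83) q J4_7 J3_5 = 324967469752904173354482 := by
    intro q hq
    rw [J3_2_def] at hq
    subst hq
    exact ev_a_eq _ _ _ _ _ _ _ _ _ 225305456596023638837384 99662013156880534517098 324967469752904173354482 vQ82 vQ83 (by norm_num)
  exact h _ rfl

noncomputable def M79 : QT3 := .b M77 M78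

lemma M79_def : M79 = .b M77 M78 := rfl

lemma vM79 : ev3 M79 J3_2 J3_3 J3_5 = 854368177408958525166664 := by
  rw [M79_def]
  have h : ∀ q, q = J3_3 → ev3 (.b M77 M78) J3_2 q J3_5 = 854368177408958525166664 := by
    intro q hq
    rw [J3_3_def] at hq
    subst hq
    exact ev_b_eq _ _ _ _ _ _ _ _ _ 529400707656054351812182 324967469752904173354482 854368177408958525166664 vM77 vM78 (by norm_num)
  exact h _ rfl

noncomputable def M80 : QT3 := .c M76 M79

lemma M80_def : M80 = .c M76 M79 := rfl

lemma vM80 : ev3 M80 J3_2 J3_3 J2_2 = 1836051373789979042516539 := by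
  rw [M80_def]
  have h : ∀ q, q = J2_2 → ev3 (.c M76 M79) J3_2 J3_3 q = 1836051373789979042516539 := by
    intro q hq
    rw [J2_2_def] at hq
    subst hq
    exact ev_c_eq _ _ _ _ _ _ _ _ _ 981683196381020517349875 854368177408958525166664 1836051373789979042516539 vM76 vM79 (by norm_num)
  exact h _ rfl

noncomputable def M81 : QT3 := .b M73 M80

lemma M81_def : M81 = .b M73 M80 := rfl

lemma vM81 : ev3 M81 J3_2 J2_1 J2_2 = 2491827278801500427406010 := by
  rw [M81_def]
  have h : ∀ q, q = J2_1 → ev3 (.b M73 M80) J3_2 q J2_2 = 2491827278801500427406010 := by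
    intro q hq
    rw [J2_1_def] at hq
    subst hq
    exact ev_b_eq _ _ _ _ _ _ _ _ _ 655775905011521384889471 1836051373789979042516539 2491827278801500427406010 vM73 vM80 (by norm_num)
  exact h _ rfl

noncomputable def M82 : QT3 := .a M81 Q84

lemma M82_def : M82 = .a M81 Q84 := rfl

lemma vM82 : ev3 M82 J2_1 J2_1 J2_2 = 2560493748991925931446128 := by
  rw [M82_def]
  have h : ∀ q, q = J2_1 → ev3 (.a M81 Q84) q J2_1 J2_2 = 2560493748991925931446128 := by
    intro q hq
    rw [J2_1_def] at hq
    subst hq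
    exact ev_a_eq _ _ _ _ _ _ _ _ _ 2491827278801500427406010 68666470190425504040118 2560493748991925931446128 vM81 vQ84 (by norm_num)
  exact h _ rfl

noncomputable def M83 : QT3 := .a Q85 Q86

lemma M83_def : M83 = .a Q85 Q86 := rfl

lemma vM83 : ev3 M83 J3_2 J3_2 J3_6 = 255357217050709168653920 := by
  rw [M83_def]
  have h : ∀ q, q = J3_2 → ev3 (.a Q85 Q86) q J3_2 J3_6 = 255357217050709168653920 := by
    intro q hq
    rw [J3_2_def] at hq
    subst hq
    exact ev_a_eq _ _ _ _ _ _ _ _ _ 210294370748038219547988 45062846302670949105932 255357217050709168653920 vQ85 vQ86 (by norm_num)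
  exact h _ rfl

noncomputable def M84 : QT3 := .c M83 Q87

lemma M84_def : M84 = .c M83 Q87 := rfl

lemma vM84 : ev3 M84 J3_2 J3_2 J2_3 = 318537175350687963454271 := by
  rw [M84_def]
  have h : ∀ q, q = J2_3 → ev3 (.c M83 Q87) J3_2 J3_2 q = 318537175350687963454271 := by
    intro q hq
    rw [J2_3_def] at hq
    subst hq
    exact ev_c_eq _ _ _ _ _ _ _ _ _ 255357217050709168653920 63179958299978794800351 318537175350687963454271 vM83 vQ87 (by norm_num)
  exact h _ rfl

noncomputable def M85 : QT3 := .c Q88 Q89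

lemma M85_def : M85 = .c Q88 Q89 := rfl

lemma vM85 : ev3 M85 J4_4 J4_6 J2_3 = 350341183471596898786394 := by
  rw [M85_def]
  have h : ∀ q, q = J2_3 → ev3 (.c Q88 Q89) J4_4 J4_6 q = 350341183471596898786394 := by
    intro q hq
    rw [J2_3_def] at hq
    subst hq
    exact ev_c_eq _ _ _ _ _ _ _ _ _ 270238840097741989998116 80102343373854908788278 350341183471596898786394 vQ88 vQ89 (by norm_num)
  exact h _ rfl

noncomputable def M86 : QT3 := .a M85 Q90

lemma M86_def : M86 = .a M85 Q90 := rfl

lemma vM86 : ev3 M86 J3_2 J4_6 J2_3 = 526659435217948901863452 := by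
  rw [M86_def]
  have h : ∀ q, q = J3_2 → ev3 (.a M85 Q90) q J4_6 J2_3 = 526659435217948901863452 := by
    intro q hq
    rw [J3_2_def] at hq
    subst hq
    exact ev_a_eq _ _ _ _ _ _ _ _ _ 350341183471596898786394 176318251746352003077058 526659435217948901863452 vM85 vQ90 (by norm_num)
  exact h _ rfl

noncomputable def M87 : QT3 := .c Q91 Q92

lemma M87_def : M87 = .c Q91 Q92 := rfl

lemma vM87 : ev3 M87 J4_4 J4_7 J2_3 = 361203528118064987230172 := by
  rw [M87_def]
  have h : ∀ q, q = J2_3 → ev3 (.c Q91 Q92) J4_4 J4_7 q = 361203528118064987230172 := by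
    intro q hq
    rw [J2_3_def] at hq
    subst hq
    exact ev_c_eq _ _ _ _ _ _ _ _ _ 292776380744330756154044 68427147373734231076128 361203528118064987230172 vQ91 vQ92 (by norm_num)
  exact h _ rfl

noncomputable def M88 : QT3 := .c Q93 Q94

lemma M88_def : M88 = .c Q93 Q94 := rfl

lemma vM88 : ev3 M88 J4_5 J4_7 J3_6 = 227095777879174773558069 := by
  rw [M88_def]
  have h : ∀ q, q = J3_6 → ev3 (.c Q93 Q94) J4_5 J4_7 q = 227095777879174773558069 := by
    intro q hq
    rw [J3_6_def] at hq
    subst hq
    exact ev_c_eq _ _ _ _ _ _ _ _ _ 129933273872904687373573 97162504006270086184496 227095777879174773558069 vQ93 vQ94 (by norm_num)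
  exact h _ rfl

noncomputable def M89 : QT3 := .c M88 Q95

lemma M89_def : M89 = .c M88 Q95 := rfl

lemma vM89 : ev3 M89 J4_5 J4_7 J2_3 = 270725830076792536320470 := by
  rw [M89_def]
  have h : ∀ q, q = J2_3 → ev3 (.c M88 Q95) J4_5 J4_7 q = 270725830076792536320470 := by
    intro q hq
    rw [J2_3_def] at hq
    subst hq
    exact ev_c_eq _ _ _ _ _ _ _ _ _ 227095777879174773558069 43630052197617762762401 270725830076792536320470 vM88 vQ95 (by norm_num)
  exact h _ rfl

noncomputable def M90 : QT3 := .a M87 M89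

lemma M90_def : M90 = .a M87 M89 := rfl

lemma vM90 : ev3 M90 J3_2 J4_7 J2_3 = 631929358194857523550642 := by
  rw [M90_def]
  have h : ∀ q, q = J3_2 → ev3 (.a M87 M89) q J4_7 J2_3 = 631929358194857523550642 := by
    intro q hq
    rw [J3_2_def] at hq
    subst hq
    exact ev_a_eq _ _ _ _ _ _ _ _ _ 361203528118064987230172 270725830076792536320470 631929358194857523550642 vM87 vM89 (by norm_num)
  exact h _ rfl

noncomputable def M91 : QT3 := .b M86 M90

lemma M91_def : M91 = .b M86 M90 := rfl

lemma vM91 : ev3 M91 J3_2 J3_3 J2_3 = 1158588793412806425414094 := by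
  rw [M91_def]
  have h : ∀ q, q = J3_3 → ev3 (.b M86 M90) J3_2 q J2_3 = 1158588793412806425414094 := by
    intro q hq
    rw [J3_3_def] at hq
    subst hq
    exact ev_b_eq _ _ _ _ _ _ _ _ _ 526659435217948901863452 631929358194857523550642 1158588793412806425414094 vM86 vM90 (by norm_num)
  exact h _ rfl

noncomputable def M92 : QT3 := .b M84 M91

lemma M92_def : M92 = .b M84 M91 := rfl

lemma vM92 : ev3 M92 J3_2 J2_1 J2_3 = 1477125968763494388868365 := by
  rw [M92_def]
  have h : ∀ q, q = J2_1 → ev3 (.b M84 M91) J3_2 q J2_3 = 1477125968763494388868365 := by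
    intro q hq
    rw [J2_1_def] at hq
    subst hq
    exact ev_b_eq _ _ _ _ _ _ _ _ _ 318537175350687963454271 1158588793412806425414094 1477125968763494388868365 vM84 vM91 (by norm_num)
  exact h _ rfl

noncomputable def M93 : QT3 := .c Q96 Q97

lemma M93_def : M93 = .c Q96 Q97 := rfl

lemma vM93 : ev3 M93 J3_3 J3_3 J2_3 = 146039521271984077706173 := by
  rw [M93_def]
  have h : ∀ q, q = J2_3 → ev3 (.c Q96 Q97) J3_3 J3_3 q = 146039521271984077706173 := by
    intro q hq
    rw [J2_3_def] at hq
    subst hq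
    exact ev_c_eq _ _ _ _ _ _ _ _ _ 131971193942605401048880 14068327329378676657293 146039521271984077706173 vQ96 vQ97 (by norm_num)
  exact h _ rfl

noncomputable def M94 : QT3 := .b .z M93

lemma M94_def : M94 = .b .z M93 := rfl

lemma vM94 : ev3 M94 J3_3 J2_1 J2_3 = 146039521271984077706173 := by
  rw [M94_def]
  have h : ∀ q, q = J2_1 → ev3 (.b .z M93) J3_3 q J2_3 = 146039521271984077706173 := by
    intro q hq
    rw [J2_1_def] at hq
    subst hq
    exact ev_b_eq _ _ _ _ _ _ _ _ _ 0 146039521271984077706173 146039521271984077706173 (ev3_z _ _ _) vM93 (by norm_num)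
  exact h _ rfl

noncomputable def M95 : QT3 := .a M92 M94

lemma M95_def : M95 = .a M92 M94 := rfl

lemma vM95 : ev3 M95 J2_1 J2_1 J2_3 = 1623165490035478466574538 := by
  rw [M95_def]
  have h : ∀ q, q = J2_1 → ev3 (.a M92 M94) q J2_1 J2_3 = 1623165490035478466574538 := by
    intro q hq
    rw [J2_1_def] at hq
    subst hq
    exact ev_a_eq _ _ _ _ _ _ _ _ _ 1477125968763494388868365 146039521271984077706173 1623165490035478466574538 vM92 vM94 (by norm_num)
  exact h _ rfl

noncomputable def M96 : QT3 := .c M82 M95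

lemma M96_def : M96 = .c M82 M95 := rfl

lemma vM96 : ev3 M96 J2_1 J2_1 J1_1 = 4183659239027404398020666 := by
  rw [M96_def]
  have h : ∀ q, q = J1_1 → ev3 (.c M82 M95) J2_1 J2_1 q = 4183659239027404398020666 := by
    intro q hq
    rw [J1_1_def] at hq
    subst hq
    exact ev_c_eq _ _ _ _ _ _ _ _ _ 2560493748991925931446128 1623165490035478466574538 4183659239027404398020666 vM82 vM95 (by norm_num)
  exact h _ rfl

noncomputable def M97 : QT3 := .b .z M96

lemma M97_def : M97 = .b .z M96 := rfl

lemma vM97 : ev3 M97 J2_1 J1_0 J1_1 = 4183659239027404398020666 := by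
  rw [M97_def]
  have h : ∀ q, q = J1_0 → ev3 (.b .z M96) J2_1 q J1_1 = 4183659239027404398020666 := by
    intro q hq
    rw [J1_0_def] at hq
    subst hq
    exact ev_b_eq _ _ _ _ _ _ _ _ _ 0 4183659239027404398020666 4183659239027404398020666 (ev3_z _ _ _) vM96 (by norm_num)
  exact h _ rfl

noncomputable def M98 : QT3 := .a M71 M97

lemma M98_def : M98 = .a M71 M97 := rfl

lemma vM98 : ev3 M98 J1_0 J1_0 J1_1 = 17804833474909735538607239 := by
  rw [M98_def]
  have h : ∀ q, q = J1_0 → ev3 (.a M71 M97) q J1_0 J1_1 = 17804833474909735538607239 := by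
    intro q hq
    rw [J1_0_def] at hq
    subst hq
    exact ev_a_eq _ _ _ _ _ _ _ _ _ 13621174235882331140586573 4183659239027404398020666 17804833474909735538607239 vM71 vM97 (by norm_num)
  exact h _ rfl

noncomputable def M99 : QT3 := .c M6 M98

lemma M99_def : M99 = .c M6 M98 := rfl

lemma vM99 : ev3 M99 J1_0 J1_0 J0_0 = 18180088673752850886136005 := by
  rw [M99_def]
  have h : ∀ q, q = J0_0 → ev3 (.c M6 M98) J1_0 J1_0 q = 18180088673752850886136005 := by
    intro q hq
    rw [J0_0_def] at hq
    subst hq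
    exact ev_c_eq _ _ _ _ _ _ _ _ _ 375255198843115347528766 17804833474909735538607239 18180088673752850886136005 vM6 vM98 (by norm_num)
  exact h _ rfl

noncomputable def M100 : QT3 := .c Q100 Q101

lemma M100_def : M100 = .c Q100 Q101 := rfl

lemma vM100 : ev3 M100 J3_0 J4_8 J4_11 = 268937102485188752414154 := by
  rw [M100_def]
  have h : ∀ q, q = J4_11 → ev3 (.c Q100 Q101) J3_0 J4_8 q = 268937102485188752414154 := by
    intro q hq
    rw [J4_11_def] at hq
    subst hq
    exact ev_c_eq _ _ _ _ _ _ _ _ _ 159019832881606271144470 109917269603582481269684 268937102485188752414154 vQ100 vQ101 (by norm_num)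
  exact h _ rfl

noncomputable def M101 : QT3 := .c Q99 M100

lemma M101_def : M101 = .c Q99 M100 := rfl

lemma vM101 : ev3 M101 J3_0 J4_8 J3_5 = 392202160691530926293761 := by
  rw [M101_def]
  have h : ∀ q, q = J3_5 → ev3 (.c Q99 M100) J3_0 J4_8 q = 392202160691530926293761 := by
    intro q hq
    rw [J3_5_def] at hq
    subst hq
    exact ev_c_eq _ _ _ _ _ _ _ _ _ 123265058206342173879607 268937102485188752414154 392202160691530926293761 vQ99 vM100 (by norm_num)
  exact h _ rfl

noncomputable def M102 : QT3 := .b Q103 Q104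

lemma M102_def : M102 = .b Q103 Q104 := rfl

lemma vM102 : ev3 M102 J3_0 J4_9 J4_11 = 301824597727812344812676 := by
  rw [M102_def]
  have h : ∀ q, q = J4_9 → ev3 (.b Q103 Q104) J3_0 q J4_11 = 301824597727812344812676 := by
    intro q hq
    rw [J4_9_def] at hq
    subst hq
    exact ev_b_eq _ _ _ _ _ _ _ _ _ 168076338168815540993038 133748259558996803819638 301824597727812344812676 vQ103 vQ104 (by norm_num)
  exact h _ rfl

noncomputable def M103 : QT3 := .c Q102 M102

lemma M103_def : M103 = .c Q102 M102 := rfl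

lemma vM103 : ev3 M103 J3_0 J4_9 J3_5 = 478955848459149140227979 := by
  rw [M103_def]
  have h : ∀ q, q = J3_5 → ev3 (.c Q102 M102) J3_0 J4_9 q = 478955848459149140227979 := by
    intro q hq
    rw [J3_5_def] at hq
    subst hq
    exact ev_c_eq _ _ _ _ _ _ _ _ _ 177131250731336795415303 301824597727812344812676 478955848459149140227979 vQ102 vM102 (by norm_num)
  exact h _ rfl

noncomputable def M104 : QT3 := .b M101 M103

lemma M104_def : M104 = .b M101 M103 := rfl

lemma vM104 : ev3 M104 J3_0 J3_4 J3_5 = 871158009150680066521740 := by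
  rw [M104_def]
  have h : ∀ q, q = J3_4 → ev3 (.b M101 M103) J3_0 q J3_5 = 871158009150680066521740 := by
    intro q hq
    rw [J3_4_def] at hq
    subst hq
    exact ev_b_eq _ _ _ _ _ _ _ _ _ 392202160691530926293761 478955848459149140227979 871158009150680066521740 vM101 vM103 (by norm_num)
  exact h _ rfl

noncomputable def M105 : QT3 := .c Q98 M104

lemma M105_def : M105 = .c Q98 M104 := rfl

lemma vM105 : ev3 M105 J3_0 J3_4 J2_2 = 1040895597094159024806270 := by
  rw [M105_def]
  have h : ∀ q, q = J2_2 → ev3 (.c Q98 M104) J3_0 J3_4 q = 1040895597094159024806270 := by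
    intro q hq
    rw [J2_2_def] at hq
    subst hq
    exact ev_c_eq _ _ _ _ _ _ _ _ _ 169737587943478958284530 871158009150680066521740 1040895597094159024806270 vQ98 vM104 (by norm_num)
  exact h _ rfl

noncomputable def M106 : QT3 := .b M105 Q105

lemma M106_def : M106 = .b M105 Q105 := rfl

lemma vM106 : ev3 M106 J3_0 J2_2 J2_2 = 1232340219706362118036201 := by
  rw [M106_def]
  have h : ∀ q, q = J2_2 → ev3 (.b M105 Q105) J3_0 q J2_2 = 1232340219706362118036201 := by
    intro q hq
    rw [J2_2_def] at hq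
    subst hq
    exact ev_b_eq _ _ _ _ _ _ _ _ _ 1040895597094159024806270 191444622612203093229931 1232340219706362118036201 vM105 vQ105 (by norm_num)
  exact h _ rfl

noncomputable def M107 : QT3 := .c Q107 Q108

lemma M107_def : M107 = .c Q107 Q108 := rfl

lemma vM107 : ev3 M107 J3_1 J4_8 J3_5 = 597596981876191546093476 := by
  rw [M107_def]
  have h : ∀ q, q = J3_5 → ev3 (.c Q107 Q108) J3_1 J4_8 q = 597596981876191546093476 := by
    intro q hq
    rw [J3_5_def] at hq
    subst hq
    exact ev_c_eq _ _ _ _ _ _ _ _ _ 362159906400722501197859 235437075475469044895617 597596981876191546093476 vQ107 vQ108 (by norm_num)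
  exact h _ rfl

noncomputable def M108 : QT3 := .c Q109 Q110

lemma M108_def : M108 = .c Q109 Q110 := rfl

lemma vM108 : ev3 M108 J3_1 J4_9 J3_5 = 335446449907284837109254 := by
  rw [M108_def]
  have h : ∀ q, q = J3_5 → ev3 (.c Q109 Q110) J3_1 J4_9 q = 335446449907284837109254 := by
    intro q hq
    rw [J3_5_def] at hq
    subst hq
    exact ev_c_eq _ _ _ _ _ _ _ _ _ 143168897661799694254406 192277552245485142854848 335446449907284837109254 vQ109 vQ110 (by norm_num)
  exact h _ rfl

noncomputable def M109 : QT3 := .b M107 M108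

lemma M109_def : M109 = .b M107 M108 := rfl

lemma vM109 : ev3 M109 J3_1 J3_4 J3_5 = 933043431783476383202730 := by
  rw [M109_def]
  have h : ∀ q, q = J3_4 → ev3 (.b M107 M108) J3_1 q J3_5 = 933043431783476383202730 := by
    intro q hq
    rw [J3_4_def] at hq
    subst hq
    exact ev_b_eq _ _ _ _ _ _ _ _ _ 597596981876191546093476 335446449907284837109254 933043431783476383202730 vM107 vM108 (by norm_num)
  exact h _ rfl

noncomputable def M110 : QT3 := .c Q106 M109

lemma M110_def : M110 = .c Q106 M109 := rfl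

lemma vM110 : ev3 M110 J3_1 J3_4 J2_2 = 1097553316725093817608780 := by
  rw [M110_def]
  have h : ∀ q, q = J2_2 → ev3 (.c Q106 M109) J3_1 J3_4 q = 1097553316725093817608780 := by
    intro q hq
    rw [J2_2_def] at hq
    subst hq
    exact ev_c_eq _ _ _ _ _ _ _ _ _ 164509884941617434406050 933043431783476383202730 1097553316725093817608780 vQ106 vM109 (by norm_num)
  exact h _ rfl

noncomputable def M111 : QT3 := .a Q111 Q112

lemma M111_def : M111 = .a Q111 Q112 := rfl

lemma vM111 : ev3 M111 J3_1 J3_5 J3_5 = 345711797233476561893778 := by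
  rw [M111_def]
  have h : ∀ q, q = J3_1 → ev3 (.a Q111 Q112) q J3_5 J3_5 = 345711797233476561893778 := by
    intro q hq
    rw [J3_1_def] at hq
    subst hq
    exact ev_a_eq _ _ _ _ _ _ _ _ _ 153313007956956024806785 192398789276520537086993 345711797233476561893778 vQ111 vQ112 (by norm_num)
  exact h _ rfl

noncomputable def M112 : QT3 := .c .z M111

lemma M112_def : M112 = .c .z M111 := rfl

lemma vM112 : ev3 M112 J3_1 J3_5 J2_2 = 345711797233476561893778 := by
  rw [M112_def]
  have h : ∀ q, q = J2_2 → ev3 (.c .z M111) J3_1 J3_5 q = 345711797233476561893778 := by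
    intro q hq
    rw [J2_2_def] at hq
    subst hq
    exact ev_c_eq _ _ _ _ _ _ _ _ _ 0 345711797233476561893778 345711797233476561893778 (ev3_z _ _ _) vM111 (by norm_num)
  exact h _ rfl

noncomputable def M113 : QT3 := .b M110 M112

lemma M113_def : M113 = .b M110 M112 := rfl

lemma vM113 : ev3 M113 J3_1 J2_2 J2_2 = 1443265113958570379502558 := by
  rw [M113_def]
  have h : ∀ q, q = J2_2 → ev3 (.b M110 M112) J3_1 q J2_2 = 1443265113958570379502558 := by
    intro q hq
    rw [J2_2_def] at hq
    subst hq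
    exact ev_b_eq _ _ _ _ _ _ _ _ _ 1097553316725093817608780 345711797233476561893778 1443265113958570379502558 vM110 vM112 (by norm_num)
  exact h _ rfl

noncomputable def M114 : QT3 := .a M106 M113

lemma M114_def : M114 = .a M106 M113 := rfl

lemma vM114 : ev3 M114 J2_0 J2_2 J2_2 = 2675605333664932497538759 := by
  rw [M114_def]
  have h : ∀ q, q = J2_0 → ev3 (.a M106 M113) q J2_2 J2_2 = 2675605333664932497538759 := by
    intro q hq
    rw [J2_0_def] at hq
    subst hq
    exact ev_a_eq _ _ _ _ _ _ _ _ _ 1232340219706362118036201 1443265113958570379502558 2675605333664932497538759 vM106 vM113 (by norm_num)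
  exact h _ rfl

noncomputable def M115 : QT3 := .b Q114 Q115

lemma M115_def : M115 = .b Q114 Q115 := rfl

lemma vM115 : ev3 M115 J3_0 J4_8 J4_13 = 225434365635006365048839 := by
  rw [M115_def]
  have h : ∀ q, q = J4_8 → ev3 (.b Q114 Q115) J3_0 q J4_13 = 225434365635006365048839 := by
    intro q hq
    rw [J4_8_def] at hq
    subst hq
    exact ev_b_eq _ _ _ _ _ _ _ _ _ 105736115540990930485695 119698250094015434563144 225434365635006365048839 vQ114 vQ115 (by norm_num)
  exact h _ rfl

noncomputable def M116 : QT3 := .c Q113 M115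

lemma M116_def : M116 = .c Q113 M115 := rfl

lemma vM116 : ev3 M116 J3_0 J4_8 J3_6 = 521545977187354973673568 := by
  rw [M116_def]
  have h : ∀ q, q = J3_6 → ev3 (.c Q113 M115) J3_0 J4_8 q = 521545977187354973673568 := by
    intro q hq
    rw [J3_6_def] at hq
    subst hq
    exact ev_c_eq _ _ _ _ _ _ _ _ _ 296111611552348608624729 225434365635006365048839 521545977187354973673568 vQ113 vM115 (by norm_num)
  exact h _ rfl

noncomputable def M117 : QT3 := .c M116 Q116

lemma M117_def : M117 = .c M116 Q116 := rfl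

lemma vM117 : ev3 M117 J3_0 J4_8 J2_3 = 573507367827230308691569 := by
  rw [M117_def]
  have h : ∀ q, q = J2_3 → ev3 (.c M116 Q116) J3_0 J4_8 q = 573507367827230308691569 := by
    intro q hq
    rw [J2_3_def] at hq
    subst hq
    exact ev_c_eq _ _ _ _ _ _ _ _ _ 521545977187354973673568 51961390639875335018001 573507367827230308691569 vM116 vQ116 (by norm_num)
  exact h _ rfl

noncomputable def M118 : QT3 := .a Q117 Q118

lemma M118_def : M118 = .a Q117 Q118 := rfl

lemma vM118 : ev3 M118 J3_1 J4_8 J3_6 = 743395959767832025367159 := by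
  rw [M118_def]
  have h : ∀ q, q = J3_1 → ev3 (.a Q117 Q118) q J4_8 J3_6 = 743395959767832025367159 := by
    intro q hq
    rw [J3_1_def] at hq
    subst hq
    exact ev_a_eq _ _ _ _ _ _ _ _ _ 363487360599748744220989 379908599168083281146170 743395959767832025367159 vQ117 vQ118 (by norm_num)
  exact h _ rfl

noncomputable def M119 : QT3 := .c M118 Q119

lemma M119_def : M119 = .c M118 Q119 := rfl

lemma vM119 : ev3 M119 J3_1 J4_8 J2_3 = 892030937947760439409969 := by
  rw [M119_def]
  have h : ∀ q, q = J2_3 → ev3 (.c M118 Q119) J3_1 J4_8 q = 892030937947760439409969 := by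
    intro q hq
    rw [J2_3_def] at hq
    subst hq
    exact ev_c_eq _ _ _ _ _ _ _ _ _ 743395959767832025367159 148634978179928414042810 892030937947760439409969 vM118 vQ119 (by norm_num)
  exact h _ rfl

noncomputable def M120 : QT3 := .a M117 M119

lemma M120_def : M120 = .a M117 M119 := rfl

lemma vM120 : ev3 M120 J2_0 J4_8 J2_3 = 1465538305774990748101538 := by
  rw [M120_def]
  have h : ∀ q, q = J2_0 → ev3 (.a M117 M119) q J4_8 J2_3 = 1465538305774990748101538 := by
    intro q hq
    rw [J2_0_def] at hq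
    subst hq
    exact ev_a_eq _ _ _ _ _ _ _ _ _ 573507367827230308691569 892030937947760439409969 1465538305774990748101538 vM117 vM119 (by norm_num)
  exact h _ rfl

noncomputable def M121 : QT3 := .c Q120 Q121

lemma M121_def : M121 = .c Q120 Q121 := rfl

lemma vM121 : ev3 M121 J3_0 J4_9 J3_6 = 675075682220098615665279 := by
  rw [M121_def]
  have h : ∀ q, q = J3_6 → ev3 (.c Q120 Q121) J3_0 J4_9 q = 675075682220098615665279 := by
    intro q hq
    rw [J3_6_def] at hq
    subst hq
    exact ev_c_eq _ _ _ _ _ _ _ _ _ 374772485552506074059050 300303196667592541606229 675075682220098615665279 vQ120 vQ121 (by norm_num)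
  exact h _ rfl

noncomputable def M122 : QT3 := .c M121 Q122

lemma M122_def : M122 = .c M121 Q122 := rfl

lemma vM122 : ev3 M122 J3_0 J4_9 J2_3 = 786170169650793696796995 := by
  rw [M122_def]
  have h : ∀ q, q = J2_3 → ev3 (.c M121 Q122) J3_0 J4_9 q = 786170169650793696796995 := by
    intro q hq
    rw [J2_3_def] at hq
    subst hq
    exact ev_c_eq _ _ _ _ _ _ _ _ _ 675075682220098615665279 111094487430695081131716 786170169650793696796995 vM121 vQ122 (by norm_num)
  exact h _ rfl

noncomputable def M123 : QT3 := .a Q123 Q124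

lemma M123_def : M123 = .a Q123 Q124 := rfl

lemma vM123 : ev3 M123 J3_1 J4_9 J3_6 = 523087037429409906566703 := by
  rw [M123_def]
  have h : ∀ q, q = J3_1 → ev3 (.a Q123 Q124) q J4_9 J3_6 = 523087037429409906566703 := by
    intro q hq
    rw [J3_1_def] at hq
    subst hq
    exact ev_a_eq _ _ _ _ _ _ _ _ _ 279075630159522588327908 244011407269887318238795 523087037429409906566703 vQ123 vQ124 (by norm_num)
  exact h _ rfl

noncomputable def M124 : QT3 := .c M123 Q125

lemma M124_def : M124 = .c M123 Q125 := rfl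

lemma vM124 : ev3 M124 J3_1 J4_9 J2_3 = 581018749245865887390531 := by
  rw [M124_def]
  have h : ∀ q, q = J2_3 → ev3 (.c M123 Q125) J3_1 J4_9 q = 581018749245865887390531 := by
    intro q hq
    rw [J2_3_def] at hq
    subst hq
    exact ev_c_eq _ _ _ _ _ _ _ _ _ 523087037429409906566703 57931711816455980823828 581018749245865887390531 vM123 vQ125 (by norm_num)
  exact h _ rfl

noncomputable def M125 : QT3 := .a M122 M124

lemma M125_def : M125 = .a M122 M124 := rfl

lemma vM125 : ev3 M125 J2_0 J4_9 J2_3 = 1367188918896659584187526 := by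
  rw [M125_def]
  have h : ∀ q, q = J2_0 → ev3 (.a M122 M124) q J4_9 J2_3 = 1367188918896659584187526 := by
    intro q hq
    rw [J2_0_def] at hq
    subst hq
    exact ev_a_eq _ _ _ _ _ _ _ _ _ 786170169650793696796995 581018749245865887390531 1367188918896659584187526 vM122 vM124 (by norm_num)
  exact h _ rfl

noncomputable def M126 : QT3 := .b M120 M125

lemma M126_def : M126 = .b M120 M125 := rfl

lemma vM126 : ev3 M126 J2_0 J3_4 J2_3 = 2832727224671650332289064 := by
  rw [M126_def]
  have h : ∀ q, q = J3_4 → ev3 (.b M120 M125) J2_0 q J2_3 = 2832727224671650332289064 := by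
    intro q hq
    rw [J3_4_def] at hq
    subst hq
    exact ev_b_eq _ _ _ _ _ _ _ _ _ 1465538305774990748101538 1367188918896659584187526 2832727224671650332289064 vM120 vM125 (by norm_num)
  exact h _ rfl

noncomputable def M127 : QT3 := .c Q126 Q127

lemma M127_def : M127 = .c Q126 Q127 := rfl

lemma vM127 : ev3 M127 J3_0 J4_10 J3_6 = 471117045135490835652978 := by
  rw [M127_def]
  have h : ∀ q, q = J3_6 → ev3 (.c Q126 Q127) J3_0 J4_10 q = 471117045135490835652978 := by
    intro q hq
    rw [J3_6_def] at hq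
    subst hq
    exact ev_c_eq _ _ _ _ _ _ _ _ _ 208849054457899687830723 262267990677591147822255 471117045135490835652978 vQ126 vQ127 (by norm_num)
  exact h _ rfl

noncomputable def M128 : QT3 := .c M127 Q128

lemma M128_def : M128 = .c M127 Q128 := rfl

lemma vM128 : ev3 M128 J3_0 J4_10 J2_3 = 558005987553042562264305 := by
  rw [M128_def]
  have h : ∀ q, q = J2_3 → ev3 (.c M127 Q128) J3_0 J4_10 q = 558005987553042562264305 := by
    intro q hq
    rw [J2_3_def] at hq
    subst hq
    exact ev_c_eq _ _ _ _ _ _ _ _ _ 471117045135490835652978 86888942417551726611327 558005987553042562264305 vM127 vQ128 (by norm_num)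
  exact h _ rfl

noncomputable def M129 : QT3 := .c Q130 Q131

lemma M129_def : M129 = .c Q130 Q131 := rfl

lemma vM129 : ev3 M129 J4_3 J4_10 J3_6 = 197765249387145418876476 := by
  rw [M129_def]
  have h : ∀ q, q = J3_6 → ev3 (.c Q130 Q131) J4_3 J4_10 q = 197765249387145418876476 := by
    intro q hq
    rw [J3_6_def] at hq
    subst hq
    exact ev_c_eq _ _ _ _ _ _ _ _ _ 84393906216544380227736 113371343170601038648740 197765249387145418876476 vQ130 vQ131 (by norm_num)
  exact h _ rfl

noncomputable def M130 : QT3 := .a Q129 M129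

lemma M130_def : M130 = .a Q129 M129 := rfl

lemma vM130 : ev3 M130 J3_1 J4_10 J3_6 = 477091024943393994866389 := by
  rw [M130_def]
  have h : ∀ q, q = J3_1 → ev3 (.a Q129 M129) q J4_10 J3_6 = 477091024943393994866389 := by
    intro q hq
    rw [J3_1_def] at hq
    subst hq
    exact ev_a_eq _ _ _ _ _ _ _ _ _ 279325775556248575989913 197765249387145418876476 477091024943393994866389 vQ129 vM129 (by norm_num)
  exact h _ rfl

noncomputable def M131 : QT3 := .c M130 Q132

lemma M131_def : M131 = .c M130 Q132 := rfl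

lemma vM131 : ev3 M131 J3_1 J4_10 J2_3 = 584856925662989438267937 := by
  rw [M131_def]
  have h : ∀ q, q = J2_3 → ev3 (.c M130 Q132) J3_1 J4_10 q = 584856925662989438267937 := by
    intro q hq
    rw [J2_3_def] at hq
    subst hq
    exact ev_c_eq _ _ _ _ _ _ _ _ _ 477091024943393994866389 107765900719595443401548 584856925662989438267937 vM130 vQ132 (by norm_num)
  exact h _ rfl

noncomputable def M132 : QT3 := .a M128 M131

lemma M132_def : M132 = .a M128 M131 := rfl

lemma vM132 : ev3 M132 J2_0 J4_10 J2_3 = 1142862913216032000532242 := by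
  rw [M132_def]
  have h : ∀ q, q = J2_0 → ev3 (.a M128 M131) q J4_10 J2_3 = 1142862913216032000532242 := by
    intro q hq
    rw [J2_0_def] at hq
    subst hq
    exact ev_a_eq _ _ _ _ _ _ _ _ _ 558005987553042562264305 584856925662989438267937 1142862913216032000532242 vM128 vM131 (by norm_num)
  exact h _ rfl

noncomputable def M133 : QT3 := .c Q133 Q134

lemma M133_def : M133 = .c Q133 Q134 := rfl

lemma vM133 : ev3 M133 J3_0 J4_11 J3_6 = 173330502017828337528551 := by
  rw [M133_def]
  have h : ∀ q, q = J3_6 → ev3 (.c Q133 Q134) J3_0 J4_11 q = 173330502017828337528551 := by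
    intro q hq
    rw [J3_6_def] at hq
    subst hq
    exact ev_c_eq _ _ _ _ _ _ _ _ _ 25508426604753887264920 147822075413074450263631 173330502017828337528551 vQ133 vQ134 (by norm_num)
  exact h _ rfl

noncomputable def M134 : QT3 := .c M133 Q135

lemma M134_def : M134 = .c M133 Q135 := rfl

lemma vM134 : ev3 M134 J3_0 J4_11 J2_3 = 342122858986232673590258 := by
  rw [M134_def]
  have h : ∀ q, q = J2_3 → ev3 (.c M133 Q135) J3_0 J4_11 q = 342122858986232673590258 := by
    intro q hq
    rw [J2_3_def] at hq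
    subst hq
    exact ev_c_eq _ _ _ _ _ _ _ _ _ 173330502017828337528551 168792356968404336061707 342122858986232673590258 vM133 vQ135 (by norm_num)
  exact h _ rfl

noncomputable def M135 : QT3 := .a Q136 Q137

lemma M135_def : M135 = .a Q136 Q137 := rfl

lemma vM135 : ev3 M135 J3_1 J4_11 J3_6 = 337968489897599835276763 := by
  rw [M135_def]
  have h : ∀ q, q = J3_1 → ev3 (.a Q136 Q137) q J4_11 J3_6 = 337968489897599835276763 := by
    intro q hq
    rw [J3_1_def] at hq
    subst hq
    exact ev_a_eq _ _ _ _ _ _ _ _ _ 169650913233081021828785 168317576664518813447978 337968489897599835276763 vQ136 vQ137 (by norm_num)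
  exact h _ rfl

noncomputable def M136 : QT3 := .c M135 Q138

lemma M136_def : M136 = .c M135 Q138 := rfl

lemma vM136 : ev3 M136 J3_1 J4_11 J2_3 = 454541216635718520764764 := by
  rw [M136_def]
  have h : ∀ q, q = J2_3 → ev3 (.c M135 Q138) J3_1 J4_11 q = 454541216635718520764764 := by
    intro q hq
    rw [J2_3_def] at hq
    subst hq
    exact ev_c_eq _ _ _ _ _ _ _ _ _ 337968489897599835276763 116572726738118685488001 454541216635718520764764 vM135 vQ138 (by norm_num)
  exact h _ rfl

noncomputable def M137 : QT3 := .a M134 M136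

lemma M137_def : M137 = .a M134 M136 := rfl

lemma vM137 : ev3 M137 J2_0 J4_11 J2_3 = 796664075621951194355022 := by
  rw [M137_def]
  have h : ∀ q, q = J2_0 → ev3 (.a M134 M136) q J4_11 J2_3 = 796664075621951194355022 := by
    intro q hq
    rw [J2_0_def] at hq
    subst hq
    exact ev_a_eq _ _ _ _ _ _ _ _ _ 342122858986232673590258 454541216635718520764764 796664075621951194355022 vM134 vM136 (by norm_num)
  exact h _ rfl

noncomputable def M138 : QT3 := .b M132 M137

lemma M138_def : M138 = .b M132 M137 := rfl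

lemma vM138 : ev3 M138 J2_0 J3_5 J2_3 = 1939526988837983194887264 := by
  rw [M138_def]
  have h : ∀ q, q = J3_5 → ev3 (.b M132 M137) J2_0 q J2_3 = 1939526988837983194887264 := by
    intro q hq
    rw [J3_5_def] at hq
    subst hq
    exact ev_b_eq _ _ _ _ _ _ _ _ _ 1142862913216032000532242 796664075621951194355022 1939526988837983194887264 vM132 vM137 (by norm_num)
  exact h _ rfl

noncomputable def M139 : QT3 := .b M126 M138

lemma M139_def : M139 = .b M126 M138 := rfl

lemma vM139 : ev3 M139 J2_0 J2_2 J2_3 = 4772254213509633527176328 := by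
  rw [M139_def]
  have h : ∀ q, q = J2_2 → ev3 (.b M126 M138) J2_0 q J2_3 = 4772254213509633527176328 := by
    intro q hq
    rw [J2_2_def] at hq
    subst hq
    exact ev_b_eq _ _ _ _ _ _ _ _ _ 2832727224671650332289064 1939526988837983194887264 4772254213509633527176328 vM126 vM138 (by norm_num)
  exact h _ rfl

noncomputable def M140 : QT3 := .c M114 M139

lemma M140_def : M140 = .c M114 M139 := rfl

lemma vM140 : ev3 M140 J2_0 J2_2 J1_1 = 7447859547174566024715087 := by
  rw [M140_def]
  have h : ∀ q, q = J1_1 → ev3 (.c M114 M139) J2_0 J2_2 q = 7447859547174566024715087 := by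
    intro q hq
    rw [J1_1_def] at hq
    subst hq
    exact ev_c_eq _ _ _ _ _ _ _ _ _ 2675605333664932497538759 4772254213509633527176328 7447859547174566024715087 vM114 vM139 (by norm_num)
  exact h _ rfl

noncomputable def M141 : QT3 := .c Q139 Q140

lemma M141_def : M141 = .c Q139 Q140 := rfl

lemma vM141 : ev3 M141 J3_0 J3_6 J2_3 = 215059321510881012739637 := by
  rw [M141_def]
  have h : ∀ q, q = J2_3 → ev3 (.c Q139 Q140) J3_0 J3_6 q = 215059321510881012739637 := by
    intro q hq
    rw [J2_3_def] at hq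
    subst hq
    exact ev_c_eq _ _ _ _ _ _ _ _ _ 75105402592802248037728 139953918918078764701909 215059321510881012739637 vQ139 vQ140 (by norm_num)
  exact h _ rfl

noncomputable def M142 : QT3 := .b M141 Q141

lemma M142_def : M142 = .b M141 Q141 := rfl

lemma vM142 : ev3 M142 J3_0 J2_3 J2_3 = 216964682389847422074690 := by
  rw [M142_def]
  have h : ∀ q, q = J2_3 → ev3 (.b M141 Q141) J3_0 q J2_3 = 216964682389847422074690 := by
    intro q hq
    rw [J2_3_def] at hq
    subst hq
    exact ev_b_eq _ _ _ _ _ _ _ _ _ 215059321510881012739637 1905360878966409335053 216964682389847422074690 vM141 vQ141 (by norm_num)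
  exact h _ rfl

noncomputable def M143 : QT3 := .c Q142 Q143

lemma M143_def : M143 = .c Q142 Q143 := rfl

lemma vM143 : ev3 M143 J3_1 J3_6 J2_3 = 103839146305741492868888 := by
  rw [M143_def]
  have h : ∀ q, q = J2_3 → ev3 (.c Q142 Q143) J3_1 J3_6 q = 103839146305741492868888 := by
    intro q hq
    rw [J2_3_def] at hq
    subst hq
    exact ev_c_eq _ _ _ _ _ _ _ _ _ 30042643934990541612812 73796502370750951256076 103839146305741492868888 vQ142 vQ143 (by norm_num)
  exact h _ rfl

noncomputable def M144 : QT3 := .b M143 Q144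

lemma M144_def : M144 = .b M143 Q144 := rfl

lemma vM144 : ev3 M144 J3_1 J2_3 J2_3 = 105031611144684755898032 := by
  rw [M144_def]
  have h : ∀ q, q = J2_3 → ev3 (.b M143 Q144) J3_1 q J2_3 = 105031611144684755898032 := by
    intro q hq
    rw [J2_3_def] at hq
    subst hq
    exact ev_b_eq _ _ _ _ _ _ _ _ _ 103839146305741492868888 1192464838943263029144 105031611144684755898032 vM143 vQ144 (by norm_num)
  exact h _ rfl

noncomputable def M145 : QT3 := .a M142 M144

lemma M145_def : M145 = .a M142 M144 := rfl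

lemma vM145 : ev3 M145 J2_0 J2_3 J2_3 = 321996293534532177972722 := by
  rw [M145_def]
  have h : ∀ q, q = J2_0 → ev3 (.a M142 M144) q J2_3 J2_3 = 321996293534532177972722 := by
    intro q hq
    rw [J2_0_def] at hq
    subst hq
    exact ev_a_eq _ _ _ _ _ _ _ _ _ 216964682389847422074690 105031611144684755898032 321996293534532177972722 vM142 vM144 (by norm_num)
  exact h _ rfl

noncomputable def M146 : QT3 := .c .z M145

lemma M146_def : M146 = .c .z M145 := rfl

lemma vM146 : ev3 M146 J2_0 J2_3 J1_1 = 321996293534532177972722 := by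
  rw [M146_def]
  have h : ∀ q, q = J1_1 → ev3 (.c .z M145) J2_0 J2_3 q = 321996293534532177972722 := by
    intro q hq
    rw [J1_1_def] at hq
    subst hq
    exact ev_c_eq _ _ _ _ _ _ _ _ _ 0 321996293534532177972722 321996293534532177972722 (ev3_z _ _ _) vM145 (by norm_num)
  exact h _ rfl

noncomputable def M147 : QT3 := .b M140 M146

lemma M147_def : M147 = .b M140 M146 := rfl

lemma vM147 : ev3 M147 J2_0 J1_1 J1_1 = 7769855840709098202687809 := by
  rw [M147_def]
  have h : ∀ q, q = J1_1 → ev3 (.b M140 M146) J2_0 q J1_1 = 7769855840709098202687809 := by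
    intro q hq
    rw [J1_1_def] at hq
    subst hq
    exact ev_b_eq _ _ _ _ _ _ _ _ _ 7447859547174566024715087 321996293534532177972722 7769855840709098202687809 vM140 vM146 (by norm_num)
  exact h _ rfl

noncomputable def M148 : QT3 := .a Q146 Q147

lemma M148_def : M148 = .a Q146 Q147 := rfl

lemma vM148 : ev3 M148 J3_2 J4_8 J3_5 = 502469673701687824843668 := by
  rw [M148_def]
  have h : ∀ q, q = J3_2 → ev3 (.a Q146 Q147) q J4_8 J3_5 = 502469673701687824843668 := by
    intro q hq
    rw [J3_2_def] at hq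
    subst hq
    exact ev_a_eq _ _ _ _ _ _ _ _ _ 159617759997998892965232 342851913703688931878436 502469673701687824843668 vQ146 vQ147 (by norm_num)
  exact h _ rfl

noncomputable def M149 : QT3 := .a Q148 Q149

lemma M149_def : M149 = .a Q148 Q149 := rfl

lemma vM149 : ev3 M149 J3_2 J4_9 J3_5 = 325795489501171512985256 := by
  rw [M149_def]
  have h : ∀ q, q = J3_2 → ev3 (.a Q148 Q149) q J4_9 J3_5 = 325795489501171512985256 := by
    intro q hq
    rw [J3_2_def] at hq
    subst hq
    exact ev_a_eq _ _ _ _ _ _ _ _ _ 117061493865866665130151 208733995635304847855105 325795489501171512985256 vQ148 vQ149 (by norm_num)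
  exact h _ rfl

noncomputable def M150 : QT3 := .b M148 M149

lemma M150_def : M150 = .b M148 M149 := rfl

lemma vM150 : ev3 M150 J3_2 J3_4 J3_5 = 828265163202859337828924 := by
  rw [M150_def]
  have h : ∀ q, q = J3_4 → ev3 (.b M148 M149) J3_2 q J3_5 = 828265163202859337828924 := by
    intro q hq
    rw [J3_4_def] at hq
    subst hq
    exact ev_b_eq _ _ _ _ _ _ _ _ _ 502469673701687824843668 325795489501171512985256 828265163202859337828924 vM148 vM149 (by norm_num)
  exact h _ rfl

noncomputable def M151 : QT3 := .c Q145 M150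

lemma M151_def : M151 = .c Q145 M150 := rfl

lemma vM151 : ev3 M151 J3_2 J3_4 J2_2 = 847576860714302626092572 := by
  rw [M151_def]
  have h : ∀ q, q = J2_2 → ev3 (.c Q145 M150) J3_2 J3_4 q = 847576860714302626092572 := by
    intro q hq
    rw [J2_2_def] at hq
    subst hq
    exact ev_c_eq _ _ _ _ _ _ _ _ _ 19311697511443288263648 828265163202859337828924 847576860714302626092572 vQ145 vM150 (by norm_num)
  exact h _ rfl

noncomputable def M152 : QT3 := .b M151 Q150

lemma M152_def : M152 = .b M151 Q150 := rfl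

lemma vM152 : ev3 M152 J3_2 J2_2 J2_2 = 1128918678113419926027330 := by
  rw [M152_def]
  have h : ∀ q, q = J2_2 → ev3 (.b M151 Q150) J3_2 q J2_2 = 1128918678113419926027330 := by
    intro q hq
    rw [J2_2_def] at hq
    subst hq
    exact ev_b_eq _ _ _ _ _ _ _ _ _ 847576860714302626092572 281341817399117299934758 1128918678113419926027330 vM151 vQ150 (by norm_num)
  exact h _ rfl

noncomputable def M153 : QT3 := .b Q152 Q153

lemma M153_def : M153 = .b Q152 Q153 := rfl

lemma vM153 : ev3 M153 J4_6 J3_4 J3_5 = 452270126542202559139484 := by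
  rw [M153_def]
  have h : ∀ q, q = J3_4 → ev3 (.b Q152 Q153) J4_6 q J3_5 = 452270126542202559139484 := by
    intro q hq
    rw [J3_4_def] at hq
    subst hq
    exact ev_b_eq _ _ _ _ _ _ _ _ _ 322574892940721498319700 129695233601481060819784 452270126542202559139484 vQ152 vQ153 (by norm_num)
  exact h _ rfl

noncomputable def M154 : QT3 := .b Q154 Q155

lemma M154_def : M154 = .b Q154 Q155 := rfl

lemma vM154 : ev3 M154 J4_7 J3_4 J3_5 = 273700937163748101862806 := by
  rw [M154_def]
  have h : ∀ q, q = J3_4 → ev3 (.b Q154 Q155) J4_7 q J3_5 = 273700937163748101862806 := by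
    intro q hq
    rw [J3_4_def] at hq
    subst hq
    exact ev_b_eq _ _ _ _ _ _ _ _ _ 175714911902434356798991 97986025261313745063815 273700937163748101862806 vQ154 vQ155 (by norm_num)
  exact h _ rfl

noncomputable def M155 : QT3 := .a M153 M154

lemma M155_def : M155 = .a M153 M154 := rfl

lemma vM155 : ev3 M155 J3_3 J3_4 J3_5 = 725971063705950661002290 := by
  rw [M155_def]
  have h : ∀ q, q = J3_3 → ev3 (.a M153 M154) q J3_4 J3_5 = 725971063705950661002290 := by
    intro q hq
    rw [J3_3_def] at hq
    subst hq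
    exact ev_a_eq _ _ _ _ _ _ _ _ _ 452270126542202559139484 273700937163748101862806 725971063705950661002290 vM153 vM154 (by norm_num)
  exact h _ rfl

noncomputable def M156 : QT3 := .c Q151 M155

lemma M156_def : M156 = .c Q151 M155 := rfl

lemma vM156 : ev3 M156 J3_3 J3_4 J2_2 = 976071105487052577941596 := by
  rw [M156_def]
  have h : ∀ q, q = J2_2 → ev3 (.c Q151 M155) J3_3 J3_4 q = 976071105487052577941596 := by
    intro q hq
    rw [J2_2_def] at hq
    subst hq
    exact ev_c_eq _ _ _ _ _ _ _ _ _ 250100041781101916939306 725971063705950661002290 976071105487052577941596 vQ151 vM155 (by norm_num)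
  exact h _ rfl

noncomputable def M157 : QT3 := .b M156 Q156

lemma M157_def : M157 = .b M156 Q156 := rfl

lemma vM157 : ev3 M157 J3_3 J2_2 J2_2 = 1240004069475162075876321 := by
  rw [M157_def]
  have h : ∀ q, q = J2_2 → ev3 (.b M156 Q156) J3_3 q J2_2 = 1240004069475162075876321 := by
    intro q hq
    rw [J2_2_def] at hq
    subst hq
    exact ev_b_eq _ _ _ _ _ _ _ _ _ 976071105487052577941596 263932963988109497934725 1240004069475162075876321 vM156 vQ156 (by norm_num)
  exact h _ rfl

noncomputable def M158 : QT3 := .a M152 M157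

lemma M158_def : M158 = .a M152 M157 := rfl

lemma vM158 : ev3 M158 J2_1 J2_2 J2_2 = 2368922747588582001903651 := by
  rw [M158_def]
  have h : ∀ q, q = J2_1 → ev3 (.a M152 M157) q J2_2 J2_2 = 2368922747588582001903651 := by
    intro q hq
    rw [J2_1_def] at hq
    subst hq
    exact ev_a_eq _ _ _ _ _ _ _ _ _ 1128918678113419926027330 1240004069475162075876321 2368922747588582001903651 vM152 vM157 (by norm_num)
  exact h _ rfl

noncomputable def M159 : QT3 := .c Q158 Q159

lemma M159_def : M159 = .c Q158 Q159 := rfl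

lemma vM159 : ev3 M159 J4_5 J4_8 J2_3 = 281341393780620259684586 := by
  rw [M159_def]
  have h : ∀ q, q = J2_3 → ev3 (.c Q158 Q159) J4_5 J4_8 q = 281341393780620259684586 := by
    intro q hq
    rw [J2_3_def] at hq
    subst hq
    exact ev_c_eq _ _ _ _ _ _ _ _ _ 240210558507645326241590 41130835272974933442996 281341393780620259684586 vQ158 vQ159 (by norm_num)
  exact h _ rfl

noncomputable def M160 : QT3 := .a Q157 M159

lemma M160_def : M160 = .a Q157 M159 := rfl

lemma vM160 : ev3 M160 J3_2 J4_8 J2_3 = 727423017128371602546855 := by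
  rw [M160_def]
  have h : ∀ q, q = J3_2 → ev3 (.a Q157 M159) q J4_8 J2_3 = 727423017128371602546855 := by
    intro q hq
    rw [J3_2_def] at hq
    subst hq
    exact ev_a_eq _ _ _ _ _ _ _ _ _ 446081623347751342862269 281341393780620259684586 727423017128371602546855 vQ157 vM159 (by norm_num)
  exact h _ rfl

noncomputable def M161 : QT3 := .c Q160 Q161

lemma M161_def : M161 = .c Q160 Q161 := rfl

lemma vM161 : ev3 M161 J4_4 J4_9 J2_3 = 428906901485483596333740 := by
  rw [M161_def]
  have h : ∀ q, q = J2_3 → ev3 (.c Q160 Q161) J4_4 J4_9 q = 428906901485483596333740 := by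
    intro q hq
    rw [J2_3_def] at hq
    subst hq
    exact ev_c_eq _ _ _ _ _ _ _ _ _ 323412775016581398820697 105494126468902197513043 428906901485483596333740 vQ160 vQ161 (by norm_num)
  exact h _ rfl

noncomputable def M162 : QT3 := .c Q162 Q163

lemma M162_def : M162 = .c Q162 Q163 := rfl

lemma vM162 : ev3 M162 J4_5 J4_9 J3_6 = 304112184970120382266183 := by
  rw [M162_def]
  have h : ∀ q, q = J3_6 → ev3 (.c Q162 Q163) J4_5 J4_9 q = 304112184970120382266183 := by
    intro q hq
    rw [J3_6_def] at hq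
    subst hq
    exact ev_c_eq _ _ _ _ _ _ _ _ _ 152105124041402758937824 152007060928717623328359 304112184970120382266183 vQ162 vQ163 (by norm_num)
  exact h _ rfl

noncomputable def M163 : QT3 := .c M162 Q164

lemma M163_def : M163 = .c M162 Q164 := rfl

lemma vM163 : ev3 M163 J4_5 J4_9 J2_3 = 384935088958924797898676 := by
  rw [M163_def]
  have h : ∀ q, q = J2_3 → ev3 (.c M162 Q164) J4_5 J4_9 q = 384935088958924797898676 := by
    intro q hq
    rw [J2_3_def] at hq
    subst hq
    exact ev_c_eq _ _ _ _ _ _ _ _ _ 304112184970120382266183 80822903988804415632493 384935088958924797898676 vM162 vQ164 (by norm_num)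
  exact h _ rfl

noncomputable def M164 : QT3 := .a M161 M163

lemma M164_def : M164 = .a M161 M163 := rfl

lemma vM164 : ev3 M164 J3_2 J4_9 J2_3 = 813841990444408394232416 := by
  rw [M164_def]
  have h : ∀ q, q = J3_2 → ev3 (.a M161 M163) q J4_9 J2_3 = 813841990444408394232416 := by
    intro q hq
    rw [J3_2_def] at hq
    subst hq
    exact ev_a_eq _ _ _ _ _ _ _ _ _ 428906901485483596333740 384935088958924797898676 813841990444408394232416 vM161 vM163 (by norm_num)
  exact h _ rfl

noncomputable def M165 : QT3 := .b M160 M164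

lemma M165_def : M165 = .b M160 M164 := rfl

lemma vM165 : ev3 M165 J3_2 J3_4 J2_3 = 1541265007572779996779271 := by
  rw [M165_def]
  have h : ∀ q, q = J3_4 → ev3 (.b M160 M164) J3_2 q J2_3 = 1541265007572779996779271 := by
    intro q hq
    rw [J3_4_def] at hq
    subst hq
    exact ev_b_eq _ _ _ _ _ _ _ _ _ 727423017128371602546855 813841990444408394232416 1541265007572779996779271 vM160 vM164 (by norm_num)
  exact h _ rfl

noncomputable def M166 : QT3 := .c Q165 Q166

lemma M166_def : M166 = .c Q165 Q166 := rfl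

lemma vM166 : ev3 M166 J4_4 J4_10 J2_3 = 298136821906253010212545 := by
  rw [M166_def]
  have h : ∀ q, q = J2_3 → ev3 (.c Q165 Q166) J4_4 J4_10 q = 298136821906253010212545 := by
    intro q hq
    rw [J2_3_def] at hq
    subst hq
    exact ev_c_eq _ _ _ _ _ _ _ _ _ 251889415398286869388844 46247406507966140823701 298136821906253010212545 vQ165 vQ166 (by norm_num)
  exact h _ rfl

noncomputable def M167 : QT3 := .c Q167 Q168

lemma M167_def : M167 = .c Q167 Q168 := rfl

lemma vM167 : ev3 M167 J4_4 J4_11 J3_6 = 171777589657904889755638 := by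
  rw [M167_def]
  have h : ∀ q, q = J3_6 → ev3 (.c Q167 Q168) J4_4 J4_11 q = 171777589657904889755638 := by
    intro q hq
    rw [J3_6_def] at hq
    subst hq
    exact ev_c_eq _ _ _ _ _ _ _ _ _ 74859165818090570473762 96918423839814319281876 171777589657904889755638 vQ167 vQ168 (by norm_num)
  exact h _ rfl

noncomputable def M168 : QT3 := .c M167 Q169

lemma M168_def : M168 = .c M167 Q169 := rfl

lemma vM168 : ev3 M168 J4_4 J4_11 J2_3 = 231499447101183274763520 := by
  rw [M168_def]
  have h : ∀ q, q = J2_3 → ev3 (.c M167 Q169) J4_4 J4_11 q = 231499447101183274763520 := by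
    intro q hq
    rw [J2_3_def] at hq
    subst hq
    exact ev_c_eq _ _ _ _ _ _ _ _ _ 171777589657904889755638 59721857443278385007882 231499447101183274763520 vM167 vQ169 (by norm_num)
  exact h _ rfl

noncomputable def M169 : QT3 := .b M166 M168

lemma M169_def : M169 = .b M166 M168 := rfl

lemma vM169 : ev3 M169 J4_4 J3_5 J2_3 = 529636269007436284976065 := by
  rw [M169_def]
  have h : ∀ q, q = J3_5 → ev3 (.b M166 M168) J4_4 q J2_3 = 529636269007436284976065 := by
    intro q hq
    rw [J3_5_def] at hq
    subst hq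
    exact ev_b_eq _ _ _ _ _ _ _ _ _ 298136821906253010212545 231499447101183274763520 529636269007436284976065 vM166 vM168 (by norm_num)
  exact h _ rfl

noncomputable def M170 : QT3 := .c Q170 Q171

lemma M170_def : M170 = .c Q170 Q171 := rfl

lemma vM170 : ev3 M170 J4_5 J4_10 J2_3 = 252847893144071247757883 := by
  rw [M170_def]
  have h : ∀ q, q = J2_3 → ev3 (.c Q170 Q171) J4_5 J4_10 q = 252847893144071247757883 := by
    intro q hq
    rw [J2_3_def] at hq
    subst hq
    exact ev_c_eq _ _ _ _ _ _ _ _ _ 234252639447222817882070 18595253696848429875813 252847893144071247757883 vQ170 vQ171 (by norm_num)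
  exact h _ rfl

noncomputable def M171 : QT3 := .b M170 Q172

lemma M171_def : M171 = .b M170 Q172 := rfl

lemma vM171 : ev3 M171 J4_5 J3_5 J2_3 = 357510590034920164636032 := by
  rw [M171_def]
  have h : ∀ q, q = J3_5 → ev3 (.b M170 Q172) J4_5 q J2_3 = 357510590034920164636032 := by
    intro q hq
    rw [J3_5_def] at hq
    subst hq
    exact ev_b_eq _ _ _ _ _ _ _ _ _ 252847893144071247757883 104662696890848916878149 357510590034920164636032 vM170 vQ172 (by norm_num)
  exact h _ rfl

noncomputable def M172 : QT3 := .a M169 M171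

lemma M172_def : M172 = .a M169 M171 := rfl

lemma vM172 : ev3 M172 J3_2 J3_5 J2_3 = 887146859042356449612097 := by
  rw [M172_def]
  have h : ∀ q, q = J3_2 → ev3 (.a M169 M171) q J3_5 J2_3 = 887146859042356449612097 := by
    intro q hq
    rw [J3_2_def] at hq
    subst hq
    exact ev_a_eq _ _ _ _ _ _ _ _ _ 529636269007436284976065 357510590034920164636032 887146859042356449612097 vM169 vM171 (by norm_num)
  exact h _ rfl

noncomputable def M173 : QT3 := .b M165 M172

lemma M173_def : M173 = .b M165 M172 := rfl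

lemma vM173 : ev3 M173 J3_2 J2_2 J2_3 = 2428411866615136446391368 := by
  rw [M173_def]
  have h : ∀ q, q = J2_2 → ev3 (.b M165 M172) J3_2 q J2_3 = 2428411866615136446391368 := by
    intro q hq
    rw [J2_2_def] at hq
    subst hq
    exact ev_b_eq _ _ _ _ _ _ _ _ _ 1541265007572779996779271 887146859042356449612097 2428411866615136446391368 vM165 vM172 (by norm_num)
  exact h _ rfl

noncomputable def M174 : QT3 := .c Q173 Q174

lemma M174_def : M174 = .c Q173 Q174 := rfl

lemma vM174 : ev3 M174 J4_6 J4_8 J2_3 = 259030580694344566232004 := by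
  rw [M174_def]
  have h : ∀ q, q = J2_3 → ev3 (.c Q173 Q174) J4_6 J4_8 q = 259030580694344566232004 := by
    intro q hq
    rw [J2_3_def] at hq
    subst hq
    exact ev_c_eq _ _ _ _ _ _ _ _ _ 213738346053091029764895 45292234641253536467109 259030580694344566232004 vQ173 vQ174 (by norm_num)
  exact h _ rfl

noncomputable def M175 : QT3 := .c Q175 Q176

lemma M175_def : M175 = .c Q175 Q176 := rfl

lemma vM175 : ev3 M175 J4_6 J4_9 J2_3 = 245087983766146571363739 := by
  rw [M175_def]
  have h : ∀ q, q = J2_3 → ev3 (.c Q175 Q176) J4_6 J4_9 q = 245087983766146571363739 := by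
    intro q hq
    rw [J2_3_def] at hq
    subst hq
    exact ev_c_eq _ _ _ _ _ _ _ _ _ 198717937295095380047734 46370046471051191316005 245087983766146571363739 vQ175 vQ176 (by norm_num)
  exact h _ rfl

noncomputable def M176 : QT3 := .b M174 M175

lemma M176_def : M176 = .b M174 M175 := rfl

lemma vM176 : ev3 M176 J4_6 J3_4 J2_3 = 504118564460491137595743 := by
  rw [M176_def]
  have h : ∀ q, q = J3_4 → ev3 (.b M174 M175) J4_6 q J2_3 = 504118564460491137595743 := by
    intro q hq
    rw [J3_4_def] at hq
    subst hq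
    exact ev_b_eq _ _ _ _ _ _ _ _ _ 259030580694344566232004 245087983766146571363739 504118564460491137595743 vM174 vM175 (by norm_num)
  exact h _ rfl

noncomputable def M177 : QT3 := .c Q178 Q179

lemma M177_def : M177 = .c Q178 Q179 := rfl

lemma vM177 : ev3 M177 J4_7 J4_9 J3_6 = 159739590795047065494489 := by
  rw [M177_def]
  have h : ∀ q, q = J3_6 → ev3 (.c Q178 Q179) J4_7 J4_9 q = 159739590795047065494489 := by
    intro q hq
    rw [J3_6_def] at hq
    subst hq
    exact ev_c_eq _ _ _ _ _ _ _ _ _ 98701302486622823887841 61038288308424241606648 159739590795047065494489 vQ178 vQ179 (by norm_num)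
  exact h _ rfl

noncomputable def M178 : QT3 := .c M177 Q180

lemma M178_def : M178 = .c M177 Q180 := rfl

lemma vM178 : ev3 M178 J4_7 J4_9 J2_3 = 214224536619722892531793 := by
  rw [M178_def]
  have h : ∀ q, q = J2_3 → ev3 (.c M177 Q180) J4_7 J4_9 q = 214224536619722892531793 := by
    intro q hq
    rw [J2_3_def] at hq
    subst hq
    exact ev_c_eq _ _ _ _ _ _ _ _ _ 159739590795047065494489 54484945824675827037304 214224536619722892531793 vM177 vQ180 (by norm_num)
  exact h _ rfl

noncomputable def M179 : QT3 := .b Q177 M178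

lemma M179_def : M179 = .b Q177 M178 := rfl

lemma vM179 : ev3 M179 J4_7 J3_4 J2_3 = 464449318406457816249167 := by
  rw [M179_def]
  have h : ∀ q, q = J3_4 → ev3 (.b Q177 M178) J4_7 q J2_3 = 464449318406457816249167 := by
    intro q hq
    rw [J3_4_def] at hq
    subst hq
    exact ev_b_eq _ _ _ _ _ _ _ _ _ 250224781786734923717374 214224536619722892531793 464449318406457816249167 vQ177 vM178 (by norm_num)
  exact h _ rfl

noncomputable def M180 : QT3 := .a M176 M179

lemma M180_def : M180 = .a M176 M179 := rfl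

lemma vM180 : ev3 M180 J3_3 J3_4 J2_3 = 968567882866948953844910 := by
  rw [M180_def]
  have h : ∀ q, q = J3_3 → ev3 (.a M176 M179) q J3_4 J2_3 = 968567882866948953844910 := by
    intro q hq
    rw [J3_3_def] at hq
    subst hq
    exact ev_a_eq _ _ _ _ _ _ _ _ _ 504118564460491137595743 464449318406457816249167 968567882866948953844910 vM176 vM179 (by norm_num)
  exact h _ rfl

noncomputable def M181 : QT3 := .c Q181 Q182

lemma M181_def : M181 = .c Q181 Q182 := rfl

lemma vM181 : ev3 M181 J4_6 J4_10 J2_3 = 171413649356268167435288 := by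
  rw [M181_def]
  have h : ∀ q, q = J2_3 → ev3 (.c Q181 Q182) J4_6 J4_10 q = 171413649356268167435288 := by
    intro q hq
    rw [J2_3_def] at hq
    subst hq
    exact ev_c_eq _ _ _ _ _ _ _ _ _ 136854187351638504795382 34559462004629662639906 171413649356268167435288 vQ181 vQ182 (by norm_num)
  exact h _ rfl

noncomputable def M182 : QT3 := .c Q183 Q184

lemma M182_def : M182 = .c Q183 Q184 := rfl

lemma vM182 : ev3 M182 J4_6 J4_11 J2_3 = 178570191678630434650154 := by
  rw [M182_def]
  have h : ∀ q, q = J2_3 → ev3 (.c Q183 Q184) J4_6 J4_11 q = 178570191678630434650154 := by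
    intro q hq
    rw [J2_3_def] at hq
    subst hq
    exact ev_c_eq _ _ _ _ _ _ _ _ _ 110267349539189363974827 68302842139441070675327 178570191678630434650154 vQ183 vQ184 (by norm_num)
  exact h _ rfl

noncomputable def M183 : QT3 := .b M181 M182

lemma M183_def : M183 = .b M181 M182 := rfl

lemma vM183 : ev3 M183 J4_6 J3_5 J2_3 = 349983841034898602085442 := by
  rw [M183_def]
  have h : ∀ q, q = J3_5 → ev3 (.b M181 M182) J4_6 q J2_3 = 349983841034898602085442 := by
    intro q hq
    rw [J3_5_def] at hq
    subst hq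
    exact ev_b_eq _ _ _ _ _ _ _ _ _ 171413649356268167435288 178570191678630434650154 349983841034898602085442 vM181 vM182 (by norm_num)
  exact h _ rfl

noncomputable def M184 : QT3 := .c Q185 Q186

lemma M184_def : M184 = .c Q185 Q186 := rfl

lemma vM184 : ev3 M184 J4_7 J4_10 J2_3 = 120044636707870514441176 := by
  rw [M184_def]
  have h : ∀ q, q = J2_3 → ev3 (.c Q185 Q186) J4_7 J4_10 q = 120044636707870514441176 := by
    intro q hq
    rw [J2_3_def] at hq
    subst hq
    exact ev_c_eq _ _ _ _ _ _ _ _ _ 93580164907280777774821 26464471800589736666355 120044636707870514441176 vQ185 vQ186 (by norm_num)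
  exact h _ rfl

noncomputable def M185 : QT3 := .b M184 Q187

lemma M185_def : M185 = .b M184 Q187 := rfl

lemma vM185 : ev3 M185 J4_7 J3_5 J2_3 = 241526376012573228389141 := by
  rw [M185_def]
  have h : ∀ q, q = J3_5 → ev3 (.b M184 Q187) J4_7 q J2_3 = 241526376012573228389141 := by
    intro q hq
    rw [J3_5_def] at hq
    subst hq
    exact ev_b_eq _ _ _ _ _ _ _ _ _ 120044636707870514441176 121481739304702713947965 241526376012573228389141 vM184 vQ187 (by norm_num)
  exact h _ rfl

noncomputable def M186 : QT3 := .a M183 M185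

lemma M186_def : M186 = .a M183 M185 := rfl

lemma vM186 : ev3 M186 J3_3 J3_5 J2_3 = 591510217047471830474583 := by
  rw [M186_def]
  have h : ∀ q, q = J3_3 → ev3 (.a M183 M185) q J3_5 J2_3 = 591510217047471830474583 := by
    intro q hq
    rw [J3_3_def] at hq
    subst hq
    exact ev_a_eq _ _ _ _ _ _ _ _ _ 349983841034898602085442 241526376012573228389141 591510217047471830474583 vM183 vM185 (by norm_num)
  exact h _ rfl

noncomputable def M187 : QT3 := .b M180 M186

lemma M187_def : M187 = .b M180 M186 := rfl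

lemma vM187 : ev3 M187 J3_3 J2_2 J2_3 = 1560078099914420784319493 := by
  rw [M187_def]
  have h : ∀ q, q = J2_2 → ev3 (.b M180 M186) J3_3 q J2_3 = 1560078099914420784319493 := by
    intro q hq
    rw [J2_2_def] at hq
    subst hq
    exact ev_b_eq _ _ _ _ _ _ _ _ _ 968567882866948953844910 591510217047471830474583 1560078099914420784319493 vM180 vM186 (by norm_num)
  exact h _ rfl

noncomputable def M188 : QT3 := .a M173 M187

lemma M188_def : M188 = .a M173 M187 := rfl

lemma vM188 : ev3 M188 J2_1 J2_2 J2_3 = 3988489966529557230710861 := by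
  rw [M188_def]
  have h : ∀ q, q = J2_1 → ev3 (.a M173 M187) q J2_2 J2_3 = 3988489966529557230710861 := by
    intro q hq
    rw [J2_1_def] at hq
    subst hq
    exact ev_a_eq _ _ _ _ _ _ _ _ _ 2428411866615136446391368 1560078099914420784319493 3988489966529557230710861 vM173 vM187 (by norm_num)
  exact h _ rfl

noncomputable def M189 : QT3 := .c M158 M188

lemma M189_def : M189 = .c M158 M188 := rfl

lemma vM189 : ev3 M189 J2_1 J2_2 J1_1 = 6357412714118139232614512 := by
  rw [M189_def]
  have h : ∀ q, q = J1_1 → ev3 (.c M158 M188) J2_1 J2_2 q = 6357412714118139232614512 := by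
    intro q hq
    rw [J1_1_def] at hq
    subst hq
    exact ev_c_eq _ _ _ _ _ _ _ _ _ 2368922747588582001903651 3988489966529557230710861 6357412714118139232614512 vM158 vM188 (by norm_num)
  exact h _ rfl

noncomputable def M190 : QT3 := .a Q189 Q190

lemma M190_def : M190 = .a Q189 Q190 := rfl

lemma vM190 : ev3 M190 J3_2 J3_6 J3_7 = 142588052906130132627617 := by
  rw [M190_def]
  have h : ∀ q, q = J3_2 → ev3 (.a Q189 Q190) q J3_6 J3_7 = 142588052906130132627617 := by
    intro q hq
    rw [J3_2_def] at hq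
    subst hq
    exact ev_a_eq _ _ _ _ _ _ _ _ _ 55077713011024969287743 87510339895105163339874 142588052906130132627617 vQ189 vQ190 (by norm_num)
  exact h _ rfl

noncomputable def M191 : QT3 := .c Q188 M190

lemma M191_def : M191 = .c Q188 M190 := rfl

lemma vM191 : ev3 M191 J3_2 J3_6 J2_3 = 189080953996805441890220 := by
  rw [M191_def]
  have h : ∀ q, q = J2_3 → ev3 (.c Q188 M190) J3_2 J3_6 q = 189080953996805441890220 := by
    intro q hq
    rw [J2_3_def] at hq
    subst hq
    exact ev_c_eq _ _ _ _ _ _ _ _ _ 46492901090675309262603 142588052906130132627617 189080953996805441890220 vQ188 vM190 (by norm_num)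
  exact h _ rfl

noncomputable def M192 : QT3 := .b M191 Q191

lemma M192_def : M192 = .b M191 Q191 := rfl

lemma vM192 : ev3 M192 J3_2 J2_3 J2_3 = 189795447915720888887820 := by
  rw [M192_def]
  have h : ∀ q, q = J2_3 → ev3 (.b M191 Q191) J3_2 q J2_3 = 189795447915720888887820 := by
    intro q hq
    rw [J2_3_def] at hq
    subst hq
    exact ev_b_eq _ _ _ _ _ _ _ _ _ 189080953996805441890220 714493918915446997600 189795447915720888887820 vM191 vQ191 (by norm_num)
  exact h _ rfl

noncomputable def M193 : QT3 := .c Q192 Q193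

lemma M193_def : M193 = .c Q192 Q193 := rfl

lemma vM193 : ev3 M193 J3_3 J3_6 J2_3 = 185008153796249828024700 := by
  rw [M193_def]
  have h : ∀ q, q = J2_3 → ev3 (.c Q192 Q193) J3_3 J3_6 q = 185008153796249828024700 := by
    intro q hq
    rw [J2_3_def] at hq
    subst hq
    exact ev_c_eq _ _ _ _ _ _ _ _ _ 62223329290660262455400 122784824505589565569300 185008153796249828024700 vQ192 vQ193 (by norm_num)
  exact h _ rfl

noncomputable def M194 : QT3 := .b M193 .z

lemma M194_def : M194 = .b M193 .z := rfl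

lemma vM194 : ev3 M194 J3_3 J2_3 J2_3 = 185008153796249828024700 := by
  rw [M194_def]
  have h : ∀ q, q = J2_3 → ev3 (.b M193 .z) J3_3 q J2_3 = 185008153796249828024700 := by
    intro q hq
    rw [J2_3_def] at hq
    subst hq
    exact ev_b_eq _ _ _ _ _ _ _ _ _ 185008153796249828024700 0 185008153796249828024700 vM193 (ev3_z _ _ _) (by norm_num)
  exact h _ rfl

noncomputable def M195 : QT3 := .a M192 M194

lemma M195_def : M195 = .a M192 M194 := rfl

lemma vM195 : ev3 M195 J2_1 J2_3 J2_3 = 374803601711970716912520 := by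
  rw [M195_def]
  have h : ∀ q, q = J2_1 → ev3 (.a M192 M194) q J2_3 J2_3 = 374803601711970716912520 := by
    intro q hq
    rw [J2_1_def] at hq
    subst hq
    exact ev_a_eq _ _ _ _ _ _ _ _ _ 189795447915720888887820 185008153796249828024700 374803601711970716912520 vM192 vM194 (by norm_num)
  exact h _ rfl

noncomputable def M196 : QT3 := .c .z M195

lemma M196_def : M196 = .c .z M195 := rfl

lemma vM196 : ev3 M196 J2_1 J2_3 J1_1 = 374803601711970716912520 := by
  rw [M196_def]
  have h : ∀ q, q = J1_1 → ev3 (.c .z M195) J2_1 J2_3 q = 374803601711970716912520 := by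
    intro q hq
    rw [J1_1_def] at hq
    subst hq
    exact ev_c_eq _ _ _ _ _ _ _ _ _ 0 374803601711970716912520 374803601711970716912520 (ev3_z _ _ _) vM195 (by norm_num)
  exact h _ rfl

noncomputable def M197 : QT3 := .b M189 M196

lemma M197_def : M197 = .b M189 M196 := rfl

lemma vM197 : ev3 M197 J2_1 J1_1 J1_1 = 6732216315830109949527032 := by
  rw [M197_def]
  have h : ∀ q, q = J1_1 → ev3 (.b M189 M196) J2_1 q J1_1 = 6732216315830109949527032 := by
    intro q hq
    rw [J1_1_def] at hq
    subst hq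
    exact ev_b_eq _ _ _ _ _ _ _ _ _ 6357412714118139232614512 374803601711970716912520 6732216315830109949527032 vM189 vM196 (by norm_num)
  exact h _ rfl

noncomputable def M198 : QT3 := .a M147 M197

lemma M198_def : M198 = .a M147 M197 := rfl

lemma vM198 : ev3 M198 J1_0 J1_1 J1_1 = 14502072156539208152214841 := by
  rw [M198_def]
  have h : ∀ q, q = J1_0 → ev3 (.a M147 M197) q J1_1 J1_1 = 14502072156539208152214841 := by
    intro q hq
    rw [J1_0_def] at hq
    subst hq
    exact ev_a_eq _ _ _ _ _ _ _ _ _ 7769855840709098202687809 6732216315830109949527032 14502072156539208152214841 vM147 vM197 (by norm_num)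
  exact h _ rfl

noncomputable def M199 : QT3 := .c .z M198

lemma M199_def : M199 = .c .z M198 := rfl

lemma vM199 : ev3 M199 J1_0 J1_1 J0_0 = 14502072156539208152214841 := by
  rw [M199_def]
  have h : ∀ q, q = J0_0 → ev3 (.c .z M198) J1_0 J1_1 q = 14502072156539208152214841 := by
    intro q hq
    rw [J0_0_def] at hq
    subst hq
    exact ev_c_eq _ _ _ _ _ _ _ _ _ 0 14502072156539208152214841 14502072156539208152214841 (ev3_z _ _ _) vM198 (by norm_num)
  exact h _ rfl

noncomputable def M200 : QT3 := .b M99 M199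

lemma M200_def : M200 = .b M99 M199 := rfl

lemma vM200 : ev3 M200 J1_0 J0_0 J0_0 = 32682160830292059038350846 := by
  rw [M200_def]
  have h : ∀ q, q = J0_0 → ev3 (.b M99 M199) J1_0 q J0_0 = 32682160830292059038350846 := by
    intro q hq
    rw [J0_0_def] at hq
    subst hq
    exact ev_b_eq _ _ _ _ _ _ _ _ _ 18180088673752850886136005 14502072156539208152214841 32682160830292059038350846 vM99 vM199 (by norm_num)
  exact h _ rfl

noncomputable def M201 : QT3 := .a Q194 Q195

lemma M201_def : M201 = .a Q194 Q195 := rfl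

lemma vM201 : ev3 M201 J2_2 J2_2 J2_2 = 175721021755712489015244 := by
  rw [M201_def]
  have h : ∀ q, q = J2_2 → ev3 (.a Q194 Q195) q J2_2 J2_2 = 175721021755712489015244 := by
    intro q hq
    rw [J2_2_def] at hq
    subst hq
    exact ev_a_eq _ _ _ _ _ _ _ _ _ 150686300791219431252110 25034720964493057763134 175721021755712489015244 vQ194 vQ195 (by norm_num)
  exact h _ rfl

noncomputable def M202 : QT3 := .b Q197 Q198

lemma M202_def : M202 = .b Q197 Q198 := rfl

lemma vM202 : ev3 M202 J4_8 J3_5 J2_3 = 148538425891615216265941 := by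
  rw [M202_def]
  have h : ∀ q, q = J3_5 → ev3 (.b Q197 Q198) J4_8 q J2_3 = 148538425891615216265941 := by
    intro q hq
    rw [J3_5_def] at hq
    subst hq
    exact ev_b_eq _ _ _ _ _ _ _ _ _ 84522458766137086298854 64015967125478129967087 148538425891615216265941 vQ197 vQ198 (by norm_num)
  exact h _ rfl

noncomputable def M203 : QT3 := .a M202 Q199

lemma M203_def : M203 = .a M202 Q199 := rfl

lemma vM203 : ev3 M203 J3_4 J3_5 J2_3 = 281336796853078565993745 := by
  rw [M203_def]
  have h : ∀ q, q = J3_4 → ev3 (.a M202 Q199) q J3_5 J2_3 = 281336796853078565993745 := by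
    intro q hq
    rw [J3_4_def] at hq
    subst hq
    exact ev_a_eq _ _ _ _ _ _ _ _ _ 148538425891615216265941 132798370961463349727804 281336796853078565993745 vM202 vQ199 (by norm_num)
  exact h _ rfl

noncomputable def M204 : QT3 := .b Q196 M203

lemma M204_def : M204 = .b Q196 M203 := rfl

lemma vM204 : ev3 M204 J3_4 J2_2 J2_3 = 411630318976068505193664 := by
  rw [M204_def]
  have h : ∀ q, q = J2_2 → ev3 (.b Q196 M203) J3_4 q J2_3 = 411630318976068505193664 := by
    intro q hq
    rw [J2_2_def] at hq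
    subst hq
    exact ev_b_eq _ _ _ _ _ _ _ _ _ 130293522122989939199919 281336796853078565993745 411630318976068505193664 vQ196 vM203 (by norm_num)
  exact h _ rfl

noncomputable def M205 : QT3 := .a M204 Q200

lemma M205_def : M205 = .a M204 Q200 := rfl

lemma vM205 : ev3 M205 J2_2 J2_2 J2_3 = 450016197139573354933365 := by
  rw [M205_def]
  have h : ∀ q, q = J2_2 → ev3 (.a M204 Q200) q J2_2 J2_3 = 450016197139573354933365 := by
    intro q hq
    rw [J2_2_def] at hq
    subst hq
    exact ev_a_eq _ _ _ _ _ _ _ _ _ 411630318976068505193664 38385878163504849739701 450016197139573354933365 vM204 vQ200 (by norm_num)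
  exact h _ rfl

noncomputable def M206 : QT3 := .c M201 M205

lemma M206_def : M206 = .c M201 M205 := rfl

lemma vM206 : ev3 M206 J2_2 J2_2 J1_1 = 625737218895285843948609 := by
  rw [M206_def]
  have h : ∀ q, q = J1_1 → ev3 (.c M201 M205) J2_2 J2_2 q = 625737218895285843948609 := by
    intro q hq
    rw [J1_1_def] at hq
    subst hq
    exact ev_c_eq _ _ _ _ _ _ _ _ _ 175721021755712489015244 450016197139573354933365 625737218895285843948609 vM201 vM205 (by norm_num)
  exact h _ rfl

noncomputable def M207 : QT3 := .c Q201 Q202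

lemma M207_def : M207 = .c Q201 Q202 := rfl

lemma vM207 : ev3 M207 J3_4 J3_6 J2_3 = 132326836197051629910486 := by
  rw [M207_def]
  have h : ∀ q, q = J2_3 → ev3 (.c Q201 Q202) J3_4 J3_6 q = 132326836197051629910486 := by
    intro q hq
    rw [J2_3_def] at hq
    subst hq
    exact ev_c_eq _ _ _ _ _ _ _ _ _ 34568449523543046197436 97758386673508583713050 132326836197051629910486 vQ201 vQ202 (by norm_num)
  exact h _ rfl

noncomputable def M208 : QT3 := .b M207 .z

lemma M208_def : M208 = .b M207 .z := rfl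

lemma vM208 : ev3 M208 J3_4 J2_3 J2_3 = 132326836197051629910486 := by
  rw [M208_def]
  have h : ∀ q, q = J2_3 → ev3 (.b M207 .z) J3_4 q J2_3 = 132326836197051629910486 := by
    intro q hq
    rw [J2_3_def] at hq
    subst hq
    exact ev_b_eq _ _ _ _ _ _ _ _ _ 132326836197051629910486 0 132326836197051629910486 vM207 (ev3_z _ _ _) (by norm_num)
  exact h _ rfl

noncomputable def M209 : QT3 := .a M208 Q203

lemma M209_def : M209 = .a M208 Q203 := rfl

lemma vM209 : ev3 M209 J2_2 J2_3 J2_3 = 174762397023751525919765 := by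
  rw [M209_def]
  have h : ∀ q, q = J2_2 → ev3 (.a M208 Q203) q J2_3 J2_3 = 174762397023751525919765 := by
    intro q hq
    rw [J2_2_def] at hq
    subst hq
    exact ev_a_eq _ _ _ _ _ _ _ _ _ 132326836197051629910486 42435560826699896009279 174762397023751525919765 vM208 vQ203 (by norm_num)
  exact h _ rfl

noncomputable def M210 : QT3 := .c .z M209

lemma M210_def : M210 = .c .z M209 := rfl

lemma vM210 : ev3 M210 J2_2 J2_3 J1_1 = 174762397023751525919765 := by
  rw [M210_def]
  have h : ∀ q, q = J1_1 → ev3 (.c .z M209) J2_2 J2_3 q = 174762397023751525919765 := by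
    intro q hq
    rw [J1_1_def] at hq
    subst hq
    exact ev_c_eq _ _ _ _ _ _ _ _ _ 0 174762397023751525919765 174762397023751525919765 (ev3_z _ _ _) vM209 (by norm_num)
  exact h _ rfl

noncomputable def M211 : QT3 := .b M206 M210

lemma M211_def : M211 = .b M206 M210 := rfl

lemma vM211 : ev3 M211 J2_2 J1_1 J1_1 = 800499615919037369868374 := by
  rw [M211_def]
  have h : ∀ q, q = J1_1 → ev3 (.b M206 M210) J2_2 q J1_1 = 800499615919037369868374 := by
    intro q hq
    rw [J1_1_def] at hq
    subst hq
    exact ev_b_eq _ _ _ _ _ _ _ _ _ 625737218895285843948609 174762397023751525919765 800499615919037369868374 vM206 vM210 (by norm_num)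
  exact h _ rfl

noncomputable def M212 : QT3 := .a M211 Q204

lemma M212_def : M212 = .a M211 Q204 := rfl

lemma vM212 : ev3 M212 J1_1 J1_1 J1_1 = 801453555198214754119638 := by
  rw [M212_def]
  have h : ∀ q, q = J1_1 → ev3 (.a M211 Q204) q J1_1 J1_1 = 801453555198214754119638 := by
    intro q hq
    rw [J1_1_def] at hq
    subst hq
    exact ev_a_eq _ _ _ _ _ _ _ _ _ 800499615919037369868374 953939279177384251264 801453555198214754119638 vM211 vQ204 (by norm_num)
  exact h _ rfl

noncomputable def M213 : QT3 := .c .z M212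

lemma M213_def : M213 = .c .z M212 := rfl

lemma vM213 : ev3 M213 J1_1 J1_1 J0_0 = 801453555198214754119638 := by
  rw [M213_def]
  have h : ∀ q, q = J0_0 → ev3 (.c .z M212) J1_1 J1_1 q = 801453555198214754119638 := by
    intro q hq
    rw [J0_0_def] at hq
    subst hq
    exact ev_c_eq _ _ _ _ _ _ _ _ _ 0 801453555198214754119638 801453555198214754119638 (ev3_z _ _ _) vM212 (by norm_num)
  exact h _ rfl

noncomputable def M214 : QT3 := .b .z M213

lemma M214_def : M214 = .b .z M213 := rfl

lemma vM214 : ev3 M214 J1_1 J0_0 J0_0 = 801453555198214754119638 := by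
  rw [M214_def]
  have h : ∀ q, q = J0_0 → ev3 (.b .z M213) J1_1 q J0_0 = 801453555198214754119638 := by
    intro q hq
    rw [J0_0_def] at hq
    subst hq
    exact ev_b_eq _ _ _ _ _ _ _ _ _ 0 801453555198214754119638 801453555198214754119638 (ev3_z _ _ _) vM213 (by norm_num)
  exact h _ rfl

noncomputable def M215 : QT3 := .a M200 M214

lemma M215_def : M215 = .a M200 M214 := rfl

lemma vM215 : ev3 M215 J0_0 J0_0 J0_0 = 33483614385490273792470484 := by
  rw [M215_def]
  have h : ∀ q, q = J0_0 → ev3 (.a M200 M214) q J0_0 J0_0 = 33483614385490273792470484 := by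
    intro q hq
    rw [J0_0_def] at hq
    subst hq
    exact ev_a_eq _ _ _ _ _ _ _ _ _ 32682160830292059038350846 801453555198214754119638 33483614385490273792470484 vM200 vM214 (by norm_num)
  exact h _ rfl

end Pool.Agent.Helper64.SPW.Dat3
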