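import Pool.Agent.Helper64.SPW.Meas3
import Pool.Agent.Helper64.SPW.Total3
import Pool.Agent.Helper64.SPW.Block

/-!
One fifth of the powers of every Salem number of degree 8, in every long block of exponents.
-/

open MeasureTheory Polynomial Filter

namespace Pool.Agent.Helper64.SPW

open Pool.Agent.Helper11.SP

theorem haar_fifth : ENNReal.ofReal (1 / 5) < Helper3.haarT (Fin 3) (RegT 3) := by
  have h := haar_lower3 Dat3.M215 Dat3.J0_0 Dat3.J_ok
  rw [Dat3.vM215] at h
  refine lt_of_lt_of_le ?_ h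
  rw [ENNReal.ofReal_lt_ofReal_iff (by norm_num)]
  norm_num

lemma RegT_open {g : ℕ} (hg : 1 ≤ g) : IsOpen (RegT g) :=
  (Reg_open' (g := g) hg).preimage ((ee_continuous (g := g)).comp tr_continuous)

open Classical in
/-- For a Salem number `β` of degree 8 there is `N0` such that among any `N ≥ N0` consecutive exponents `k` at least
`N / 5` are such that `β ^ k` is a Salem number of degree 8 whose orbit of `1` is eventually periodic. -/
theorem eight_block (β : ℝ) (hβ : Helper3.IsSalem β) (hd : (minpoly ℤ β).natDegree = 8) :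
    ∃ N0 : ℕ, ∀ N ≥ N0, ∀ M : ℕ, (1 / 5 : ℝ) * N ≤
      (((Finset.Ioc M (M + N)).filter (fun k : ℕ => Helper3.IsSalem (β ^ k) ∧
        (minpoly ℤ (β ^ k)).natDegree = 8 ∧ ∃ n, (Helper3.T (β ^ k))^[n + 2] 1 = (Helper3.T (β ^ k))^[1] 1)).card : ℝ) :=
  power_block (g := 3) (by norm_num) (1 / 5) haar_fifth (RegT_open (by norm_num)) β hβ hd

end Pool.Agent.Helper64.SPW
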