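import Mathlib

/-!
Measure of the set of angles `θ` with `u < 2 cos (2 π θ) < v`, and a lower bound by natural numbers.
-/

open MeasureTheory

namespace Pool.Agent.Helper64.SPW

/-- Haar probability measure on the circle. -/
noncomputable abbrev mu : Measure UnitAddCircle := AddCircle.haarAddCircle

/-- The trace of a point of the circle. -/
noncomputable def t1 (x : UnitAddCircle) : ℝ := 2 * (fourier 1 x).re

lemma t1_continuous : Continuous t1 := by
  unfold t1
  fun_prop

lemma t1_coe (x : ℝ) : t1 (x : UnitAddCircle) = 2 * Real.cos (2 * Real.pi * x) := by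
  unfold t1
  rw [fourier_coe_apply]
  congr 1
  have : (2 * (Real.pi : ℂ) * Complex.I * ((1 : ℤ) : ℂ) * (x : ℂ) / ((1 : ℝ) : ℂ)) =
      ((2 * Real.pi * x : ℝ) : ℂ) * Complex.I := by
    push_cast
    ring
  rw [this, Complex.exp_ofReal_mul_I_re]

/-- Angles with trace in `(u, v)`. -/
def arcSet (u v : ℝ) : Set UnitAddCircle := {x | u < t1 x ∧ t1 x < v}

lemma arcSet_open (u v : ℝ) : IsOpen (arcSet u v) :=
  (isOpen_Ioi.preimage t1_continuous).inter (isOpen_Iio.preimage t1_continuous)

lemma arc_measure (u v : ℝ) (hu : -2 ≤ u) (huv : u < v) (hv : v ≤ 2) :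
    ENNReal.ofReal ((Real.arccos (u / 2) - Real.arccos (v / 2)) / Real.pi) ≤ mu (arcSet u v) := by
  have hvol : (volume : Measure UnitAddCircle) = mu := by
    have := AddCircle.volume_eq_smul_haarAddCircle (T := (1 : ℝ))
    rw [this, ENNReal.ofReal_one, one_smul]
  rw [← hvol]
  have hmp := UnitAddCircle.measurePreserving_mk (-1/2)
  rw [← hmp.measure_preimage (arcSet_open u v).measurableSet.nullMeasurableSet]
  set p := Real.arccos (v / 2) / (2 * Real.pi) with hp
  set q := Real.arccos (u / 2) / (2 * Real.pi) with hq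
  have hpi := Real.pi_pos
  have hp0 : 0 ≤ p := div_nonneg (Real.arccos_nonneg _) (by positivity)
  have hpq : p < q := by
    rw [hp, hq]
    apply div_lt_div_of_pos_right _ (by positivity)
    exact Real.arccos_lt_arccos (by linarith) (by linarith) (by linarith)
  have hq1 : q ≤ 1 / 2 := by
    rw [hq, div_le_iff₀ (by positivity)]
    have := Real.arccos_le_pi (u / 2)
    linarith
  have hsub : Set.Ioo p q ∪ Set.Ioo (-q) (-p) ⊆ ((↑) : ℝ → UnitAddCircle) ⁻¹' (arcSet u v) ∩ Set.Ioc (-1/2 : ℝ) (-1/2 + 1) := by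
    have key : ∀ x, p < x → x < q → u < 2 * Real.cos (2 * Real.pi * x) ∧ 2 * Real.cos (2 * Real.pi * x) < v := by
      intro x h1 h2
      have e1 : Real.arccos (v / 2) < 2 * Real.pi * x := by
        rw [hp, div_lt_iff₀ (by positivity)] at h1
        linarith
      have e2 : 2 * Real.pi * x < Real.arccos (u / 2) := by
        rw [hq, lt_div_iff₀ (by positivity)] at h2
        linarith
      have a1 := Real.cos_lt_cos_of_nonneg_of_le_pi (Real.arccos_nonneg _)
        ((e2.le).trans (Real.arccos_le_pi _)) e1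
      have a2 := Real.cos_lt_cos_of_nonneg_of_le_pi ((Real.arccos_nonneg _).trans e1.le)
        (Real.arccos_le_pi _) e2
      rw [Real.cos_arccos (by linarith) (by linarith)] at a1 a2
      constructor <;> linarith
    rintro x (⟨h1, h2⟩ | ⟨h1, h2⟩)
    · refine ⟨?_, by constructor <;> linarith⟩
      show u < t1 (x : UnitAddCircle) ∧ t1 (x : UnitAddCircle) < v
      rw [t1_coe]
      exact key x h1 h2
    · refine ⟨?_, by constructor <;> linarith⟩
      show u < t1 (x : UnitAddCircle) ∧ t1 (x : UnitAddCircle) < v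
      rw [t1_coe]
      have := key (-x) (by linarith) (by linarith)
      rw [mul_neg, Real.cos_neg] at this
      exact this
  rw [Measure.restrict_apply' measurableSet_Ioc]
  refine le_trans ?_ (measure_mono hsub)
  rw [measure_union _ measurableSet_Ioo, Real.volume_Ioo, Real.volume_Ioo, ← ENNReal.ofReal_add (by linarith) (by linarith)]
  · apply le_of_eq
    congr 1
    rw [hp, hq]
    field_simp
    ring
  · rw [Set.disjoint_left]
    rintro x ⟨h1, _⟩ ⟨_, h2⟩
    linarith

/-- Chord bound for the length of an arc. -/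
lemma chord (a b r s : ℝ) (ha : -1 ≤ a) (hab : a ≤ b) (hb : b ≤ 1) (hr : 0 ≤ r) (hs : 0 ≤ s)
    (h1 : (1 - a ^ 2) * (1 - b ^ 2) ≤ r ^ 2) (h2 : s ^ 2 ≤ 2 - 2 * a * b - 2 * r) :
    s ≤ Real.arccos a - Real.arccos b := by
  set α := Real.arccos a
  set γ := Real.arccos b
  have hle : γ ≤ α := Real.arccos_le_arccos hab
  have hc : Real.cos (α - γ) = a * b + Real.sqrt (1 - a ^ 2) * Real.sqrt (1 - b ^ 2) := by
    rw [Real.cos_sub, Real.cos_arccos ha (by linarith), Real.cos_arccos (by linarith) hb,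
      Real.sin_arccos, Real.sin_arccos]
  have ha2 : 0 ≤ 1 - a ^ 2 := by nlinarith
  have hr' : Real.sqrt (1 - a ^ 2) * Real.sqrt (1 - b ^ 2) ≤ r := by
    rw [← Real.sqrt_mul ha2]
    exact Real.sqrt_le_iff.2 ⟨hr, h1⟩
  have h3 := Real.one_sub_sq_div_two_le_cos (x := α - γ)
  have h4 : s ^ 2 ≤ (α - γ) ^ 2 := by
    rw [hc] at h3
    nlinarith
  exact (sq_le_sq₀ hs (by linarith)).1 h4

end Pool.Agent.Helper64.SPW
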