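import Pool.Agent.Helper64.SPW.Iv

/-! Boxes of traces, part 1 (data and kernel evaluation). -/

set_option maxRecDepth 1000000
set_option maxHeartbeats 0

namespace Pool.Agent.Helper64.SPW.Dat

noncomputable def Q259 : QT :=
(.a (.b (.b (.b (.b (.b (.a (.b (.a (.b (.a .z (.b (.l 29) .z)) (.l 30)) (.b (.b (.a (.a (.l 29) .z) .z) (.a .z (.l 30))) (.l 30))) (.b (.l 30) (.b
(.l 30) (.a (.l 30) (.a (.a (.l 30) .z) .z))))) (.b (.b (.b .z (.l 30)) (.l 30)) (.b (.l 30) (.b (.l 30) .z)))) (.b (.b (.b (.a (.a .z (.a .z (.l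
33))) (.l 33)) (.l 33)) (.l 33)) (.l 33))) (.b (.a (.l 33) (.b (.l 33) (.a (.l 33) (.b (.a (.l 33) (.b (.l 33) .z)) (.a (.b (.l 33) .z) .z))))) (.a
(.b (.l 33) (.a (.l 33) (.b (.a (.l 33) (.b (.l 33) .z)) .z))) (.b (.a (.b (.a (.l 33) (.b (.l 33) .z)) (.a (.b (.l 33) .z) .z)) .z) .z)))) (.b (.a
(.b (.b (.a (.b (.a (.l 33) .z) .z) .z) .z) .z) .z) (.a (.b .z (.a .z (.b (.a (.a .z (.l 110)) .z) (.a .z (.b .z (.a .z (.l 38))))))) (.b (.a .z (.b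
(.a .z (.b (.a .z (.l 38)) (.l 38))) (.a (.b (.a .z (.l 38)) (.l 38)) (.l 38)))) (.a (.b (.a (.b .z (.a .z (.l 38))) (.b (.a .z (.l 38)) (.l 38))) (.l
38)) (.b (.a (.l 38) (.b (.l 38) (.a (.l 38) .z))) (.a (.b (.l 38) (.a (.l 38) .z)) .z))))))) (.b (.b (.a (.b (.a (.b .z (.a .z (.b (.a .z (.l 38))
(.l 38)))) (.b (.a (.b .z (.l 38)) (.l 38)) (.a (.l 38) (.b (.l 38) (.a (.l 38) .z))))) (.a (.b (.a (.b (.a .z (.l 38)) (.l 38)) (.l 38)) (.b (.a (.b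
(.l 38) .z) (.a (.l 38) .z)) .z)) (.b (.a (.b (.l 38) (.a (.l 38) .z)) .z) .z))) (.b (.a (.b (.a (.l 38) (.b (.a (.l 38) .z) .z)) (.a (.b (.a (.l 38)
.z) .z) (.b .z (.l 89)))) (.b (.a .z (.l 89)) (.l 89))) (.a .z (.b (.b (.b (.l 89) .z) .z) (.a (.a .z (.l 123)) (.l 123)))))) (.a (.b (.b (.a (.b (.a
(.l 45) (.b .z (.l 45))) (.l 45)) .z) (.a (.b (.a .z (.a (.l 45) .z)) (.a (.b .z (.l 44)) .z)) .z)) (.b (.b (.a (.a (.l 44) .z) .z) .z) (.b (.b (.a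
(.a .z (.l 51)) (.l 51)) (.l 51)) (.a (.l 51) (.a (.l 51) (.b (.l 51) .z)))))) (.b (.b (.a (.a (.l 159) .z) (.b (.a (.l 123) .z) .z)) .z) (.a (.b .z
(.a (.b (.l 51) .z) (.b (.b (.l 51) .z) .z))) (.b .z (.a (.b .z (.a .z (.l 53))) (.l 53))))))) (.b (.a (.b (.a (.b (.b (.l 51) (.a (.b (.l 51) .z)
.z)) .z) .z) (.a (.b .z (.a (.b .z (.a .z (.l 47))) (.l 47))) (.b (.a (.b (.a .z (.l 47)) (.l 47)) (.l 47)) (.l 47)))) (.b (.a (.b (.a .z (.b (.a .z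
(.l 53)) (.b (.l 53) .z))) .z) (.b (.b (.a (.l 53) (.b (.l 53) .z)) .z) .z)) (.l 47))) (.b (.b (.b (.b .z (.a .z (.a .z (.l 59)))) (.a .z (.a (.a .z
(.b (.l 59) .z)) (.b (.a (.l 59) .z) .z)))) (.a .z (.a .z (.b .z (.a (.b .z (.l 65)) (.b .z (.l 65))))))) (.a (.b (.a (.b (.a (.l 123) .z) .z) (.b .z
(.a (.b .z (.l 65)) (.l 65)))) (.b (.a (.b (.a .z (.l 65)) (.l 65)) (.l 65)) (.a (.l 65) (.b (.a (.l 65) .z) .z)))) (.b (.a (.b (.a (.b .z (.l 65))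
(.l 65)) (.l 65)) (.b (.l 65) (.a (.b (.l 65) .z) .z))) (.a (.b (.a (.b (.l 65) .z) .z) .z) .z))))))) (.b (.b (.b (.b (.a (.b (.b (.a (.b (.a (.l 65)
.z) .z) .z) .z) (.a .z (.a (.l 140) .z))) (.a .z (.b (.a (.l 134) .z) .z))) (.a (.b .z (.a (.b (.b .z (.l 59)) (.a (.l 59) (.b (.l 59) .z))) .z)) .z))
(.a (.b (.b .z (.b .z (.a .z (.b (.l 83) .z)))) .z) (.b .z (.b (.a (.b .z (.a .z (.l 71))) (.b (.b .z (.l 71)) (.l 71))) .z)))) (.b (.b .z (.a (.b .z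
(.a (.b (.b (.l 83) .z) .z) .z)) (.b (.a .z (.b .z (.l 98))) .z))) .z)) .z)) (.a (.b (.b (.b (.b (.b (.b (.b (.b (.a .z (.l 30)) (.l 30)) (.l 30)) (.b
(.l 30) (.b (.a (.l 30) .z) (.a .z (.a .z (.l 33)))))) (.b (.l 33) (.a (.l 33) (.b (.l 33) (.a (.l 33) .z))))) (.b (.b (.a (.b (.l 33) (.a (.b (.l 33)
.z) .z)) .z) .z) .z)) (.b (.b .z (.a (.b (.a .z (.b .z (.a .z (.l 38)))) (.a (.b .z (.l 38)) (.l 38))) (.b (.b (.a (.l 38) .z) (.l 38)) (.a (.l 38)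
(.b (.l 38) .z))))) (.b (.a (.b (.l 38) (.a (.l 38) (.b (.a (.l 38) .z) .z))) (.b (.a (.b (.a (.l 38) .z) .z) .z) .z)) (.a (.b .z (.a (.b .z (.l 89))
(.l 89))) (.b .z (.a (.b .z (.l 89)) .z)))))) (.a (.b (.b (.b (.l 89) (.b (.b (.b (.l 89) .z) (.b .z (.l 123))) (.b (.l 123) (.a (.l 123) .z)))) (.b
(.b .z (.a .z (.b .z (.a .z (.l 49))))) (.b (.a (.b .z (.b (.l 50) .z)) .z) (.b (.l 53) (.a (.b (.l 53) .z) .z))))) (.b (.b .z (.b (.l 47) (.b (.l 47)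
(.b (.l 47) .z)))) (.b (.b .z (.b (.a .z (.b .z (.l 62))) (.b .z (.l 65)))) (.b (.b (.a (.b (.l 65) .z) .z) .z) (.a (.l 134) .z))))) (.a (.b (.b (.b
(.l 89) .z) (.b (.b .z (.b (.b .z (.l 49)) (.l 49))) (.b (.b (.b .z (.l 50)) (.b .z (.l 53))) (.b (.b (.l 53) .z) .z)))) (.b (.b .z (.b (.l 47) (.b
(.l 47) (.b (.l 47) .z)))) (.b (.b (.b .z (.b .z (.l 61))) (.b (.b .z (.l 62)) .z)) .z))) (.b (.b (.b (.b (.b .z (.l 89)) (.l 89)) .z) (.b (.b (.b .z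
(.b .z (.l 49))) (.l 49)) (.b (.b (.b .z (.l 50)) .z) .z))) (.a (.b (.b .z (.b (.l 47) (.b (.l 47) .z))) (.b (.b (.b .z (.l 61)) .z) (.b .z (.b .z (.l
65))))) (.b (.b .z (.b (.l 47) (.b (.l 47) .z))) .z)))))) (.a (.b (.b (.b .z (.b .z (.b (.b (.b .z (.l 71)) (.l 71)) .z))) (.b (.b (.b .z (.b .z (.a
.z (.l 98)))) (.b (.l 98) (.b (.a (.l 98) .z) .z))) (.b (.b (.b .z (.b (.l 95) .z)) .z) .z))) .z) (.a (.b (.b (.b .z (.b .z (.b (.b .z (.l 71)) .z)))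
(.a (.b (.b .z (.b (.l 98) .z)) .z) .z)) .z) .z))) (.b (.b (.a (.b (.b (.b (.b (.l 30) (.b (.l 30) (.b .z (.l 33)))) (.b (.a (.l 33) (.b (.l 33) .z))
.z)) .z) .z) (.b (.a (.b (.b (.b (.l 30) (.b (.l 30) .z)) .z) .z) (.b (.a (.b (.b (.l 30) (.b (.l 30) .z)) .z) (.b (.a (.b (.l 30) (.b (.l 30) .z))
(.b (.a (.l 30) .z) .z)) (.a .z (.b .z (.l 62))))) (.a (.b .z (.a (.b .z (.l 35)) (.l 35))) (.b (.b (.l 62) .z) (.l 35))))) (.a .z (.b (.b (.b (.l 35)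
.z) (.l 157)) .z)))) (.a (.a (.b (.b .z (.a (.b (.b (.b .z (.l 49)) (.l 49)) .z) (.a (.b (.b .z (.l 49)) .z) .z))) (.a .z (.b (.a .z (.b .z (.b (.l
53) .z))) (.b (.b .z (.l 115)) (.b (.b .z (.l 61)) .z))))) (.b (.b (.a (.b .z (.a .z (.b .z (.l 41)))) (.b .z (.l 41))) (.a .z (.b (.b (.b (.l 41) .z)
.z) .z))) (.b (.b (.b .z (.a .z (.b .z (.l 53)))) (.b (.b (.l 53) (.a (.l 53) .z)) .z)) (.b (.b .z (.b (.l 115) .z)) (.b (.b .z (.l 61)) .z))))) (.b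
(.b (.b .z (.b (.a (.b .z (.a (.l 41) .z)) (.b (.a (.l 53) .z) .z)) (.a (.l 41) .z))) .z) (.b (.b (.a (.b .z (.b .z (.l 53))) (.b .z (.b (.b .z (.l
53)) .z))) .z) (.b (.b (.b .z (.a .z (.l 115))) (.b (.a (.l 115) .z) .z)) (.b (.b (.b .z (.a .z (.l 61))) (.a (.b (.l 61) .z) .z)) .z)))))) (.b (.b
(.a (.b (.b .z (.b .z (.b (.l 89) .z))) .z) (.b .z (.a .z (.b .z (.b (.b (.l 63) (.b (.l 63) .z)) .z))))) (.a .z (.b (.b .z (.b (.b .z (.b .z (.l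
93))) .z)) (.b (.b .z (.b (.b (.l 87) .z) (.b (.l 105) .z))) .z)))) (.b (.b (.a (.b (.b (.b .z (.b .z (.l 111))) .z) .z) .z) .z) .z)))))

theorem vQ259 : ev Q259 I5_24 I4_15 = 376221882571593 := by decide +kernel

noncomputable def Q49 : QT :=
(.b (.b (.a (.b (.a (.b (.a (.l 46) (.b (.a (.l 46) (.b .z (.l 46))) (.l 46))) (.a (.b (.a .z (.b (.l 46) .z)) (.a (.l 50) (.b .z (.l 50)))) (.b (.l
46) (.a .z (.b (.l 46) .z))))) (.b (.a (.b (.a .z (.b (.l 42) .z)) (.a (.l 46) (.b .z (.l 46)))) (.b (.l 42) (.a .z (.l 42)))) (.a (.l 46) (.b (.a (.b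
.z (.l 46)) .z) (.l 46))))) (.a (.b (.a (.b (.l 50) (.a .z (.b (.l 50) .z))) (.b (.a (.l 50) (.b .z (.l 50))) (.l 50))) (.a (.b (.a (.l 54) .z) (.l
54)) (.b (.a (.b (.l 50) .z) (.l 50)) (.a (.b .z (.l 54)) .z)))) (.b (.a (.b (.a .z (.b (.l 46) .z)) (.a (.l 50) .z)) (.b (.l 46) (.a (.b (.l 46) .z)
(.l 46)))) (.a (.b (.l 50) (.a (.b (.l 50) .z) (.l 50))) (.b (.a (.b .z (.l 50)) .z) (.l 50)))))) (.b (.a (.b (.a (.l 42) (.b (.a (.l 42) .z) (.l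
42))) (.a (.b (.a (.b (.l 42) .z) (.l 42)) (.a (.b .z (.l 46)) .z)) (.l 42))) (.b (.a (.b (.a (.b (.l 38) .z) (.l 38)) (.a (.b .z (.l 42)) .z)) (.l
38)) (.a (.b (.a (.l 42) (.b .z (.l 42))) (.l 42)) (.b (.a .z (.b (.l 38) .z)) (.a (.l 42) .z))))) (.a (.b (.a (.b (.a (.l 46) (.b .z (.l 46))) (.l
46)) (.b (.a .z (.b (.l 42) .z)) (.a (.l 46) .z))) (.a (.b (.a (.b (.l 46) .z) (.l 46)) (.a .z (.b (.l 46) .z))) (.l 46))) (.b (.a (.b (.l 42) (.a (.b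
(.l 42) .z) (.l 42))) (.l 42)) (.a (.b (.a (.b .z (.l 46)) .z) (.a (.l 46) (.b .z (.l 46)))) (.b (.l 42) (.a .z (.b (.l 42) .z)))))))) (.a (.b (.a (.b
(.a (.b (.a .z (.l 54)) (.a (.b .z (.l 58)) .z)) (.b (.l 54) (.a (.b (.l 54) .z) (.l 54)))) (.a (.b (.l 58) (.a .z (.b (.l 58) .z))) (.b (.a (.b .z
(.l 58)) .z) (.l 58)))) (.b (.a (.b (.a (.b .z (.l 54)) .z) (.a (.l 54) (.b .z (.l 54)))) (.b (.l 50) (.a .z (.b (.l 50) .z)))) (.a (.b (.a (.b (.l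
54) .z) (.l 54)) (.a .z (.b (.l 54) .z))) (.b (.a (.l 54) .z) (.l 54))))) (.a (.b (.a (.b (.a (.l 62) (.b .z (.l 62))) (.a (.b (.l 62) .z) (.l 62)))
(.b (.a .z (.l 58)) (.a (.b .z (.l 62)) .z))) (.a (.b .z (.a .z (.l 66))) (.b (.a (.b (.l 62) .z) (.l 62)) (.a .z (.b (.l 62) .z))))) (.b (.a (.b (.a
(.l 58) (.b .z (.l 58))) (.a (.b (.l 58) .z) (.l 58))) (.b (.a .z (.l 54)) (.a (.b .z (.l 58)) .z))) (.a (.b (.a .z (.b (.l 58) .z)) (.a (.l 62) (.b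
.z (.l 62)))) (.b (.l 58) (.a .z (.l 58))))))) (.b (.a (.b (.a (.b (.a (.l 50) (.b .z (.l 50))) (.l 50)) (.b (.a .z (.l 46)) (.a (.b .z (.l 50)) .z)))
(.a (.b (.a (.b (.l 50) .z) (.l 50)) (.a (.b .z (.l 54)) .z)) (.l 50))) (.b (.a (.b (.l 46) (.a (.b (.l 46) .z) (.l 46))) (.b (.a (.l 46) .z) (.l
46))) (.a (.b (.a .z (.b (.l 46) .z)) (.a (.l 50) .z)) (.b (.l 46) (.a (.b (.l 46) .z) (.l 46)))))) (.a (.b (.a (.b (.a (.l 54) (.b .z (.l 54))) (.a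
(.b (.l 54) .z) (.l 54))) (.b (.a .z (.b (.l 50) .z)) (.a (.l 54) .z))) (.a (.b (.a .z (.b (.l 54) .z)) (.a (.l 58) .z)) (.b (.l 54) (.a (.b (.l 54)
.z) (.l 54))))) (.b (.a (.b (.l 50) (.a (.b (.l 50) .z) (.l 50))) (.b (.a (.b .z (.l 50)) .z) (.a (.l 50) (.b .z (.l 50))))) (.a (.b (.a .z (.b (.l
50) .z)) (.a (.l 54) .z)) (.b (.l 50) (.a (.b (.l 50) .z) (.l 50))))))))) (.a (.b (.b (.a (.b (.a (.b .z (.a (.l 70) .z)) (.b (.a (.l 66) .z) (.a .z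
(.l 66)))) (.a .z (.b .z (.a .z (.l 70))))) (.b (.a (.b (.a .z (.l 62)) .z) (.b (.a (.b .z (.l 62)) .z) (.a (.b (.l 62) .z) (.l 62)))) (.a (.b (.a .z
(.l 66)) .z) (.b (.a .z (.b (.l 62) .z)) (.a (.l 66) .z))))) (.a .z (.b (.a (.b (.a (.l 70) .z) .z) (.b (.a .z (.l 66)) .z)) (.a (.b (.a (.l 74) .z)
(.a .z (.l 74))) .z)))) (.a (.b .z (.a .z (.b .z (.b (.b (.l 99) .z) .z)))) (.b (.a .z (.b (.a (.b (.l 74) .z) .z) (.b (.b (.l 79) .z) .z))) (.b (.b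
(.b (.b (.l 87) .z) (.l 91)) (.b (.b .z (.l 95)) (.b (.l 95) .z))) (.b (.b (.b .z (.l 99)) (.b .z (.l 103))) (.b (.b (.l 103) .z) (.b (.l 107)
.z))))))) (.b (.a (.b (.b (.a (.b (.a (.b (.l 58) .z) (.l 58)) (.a .z (.b (.l 58) .z))) (.b (.a (.b .z (.l 58)) .z) (.a (.l 58) (.b .z (.l 58))))) (.a
(.b (.a (.l 62) .z) (.a (.b (.l 62) .z) (.l 62))) (.b (.a (.b (.l 58) .z) (.l 58)) (.a .z (.b (.l 58) .z))))) (.a (.b (.b (.a .z (.b (.l 62) .z)) (.a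
(.l 66) .z)) .z) (.b (.a (.b (.l 62) .z) (.b .z (.b (.l 63) .z))) (.b (.l 67) (.b .z (.l 71)))))) (.b (.a (.b (.b (.l 54) (.a .z (.l 54))) (.a (.b (.b
.z (.l 58)) .z) (.b .z (.l 59)))) (.b (.a .z (.b .z (.l 55))) (.b (.b (.l 55) (.b .z (.l 59))) (.l 59)))) (.b (.b (.b (.b (.l 59) .z) (.l 63)) (.b (.l
63) (.b (.l 63) .z))) (.b (.l 67) (.b (.b .z (.l 71)) (.l 71)))))) (.b (.b (.b (.b (.b (.l 71) .z) (.l 75)) (.b (.b (.l 75) .z) (.b .z (.l 79)))) (.b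
(.b (.b (.l 79) (.a (.l 79) .z)) (.b .z (.l 83))) (.b (.b (.l 83) .z) (.b .z (.l 87))))) (.b (.b (.b (.b (.l 87) .z) (.l 91)) (.b .z (.b (.l 95) .z)))
(.b (.b (.b .z (.l 99)) .z) (.b (.b (.l 103) .z) (.b (.l 107) .z))))))))

theorem vQ49 : ev Q49 I6_2 I5_30 = 254154551269582 := by decide +kernel

noncomputable def Q125 : QT :=
(.a (.b (.b (.a (.a (.b (.a (.b (.a (.b .z (.l 35)) (.l 35)) (.b (.a .z (.l 35)) .z)) (.l 35)) (.b (.a (.b (.a (.l 43) .z) (.l 43)) (.b (.a .z (.l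
35)) .z)) (.l 43))) (.b (.l 35) (.b (.a (.b (.l 35) .z) (.b (.l 35) .z)) (.a (.b .z (.a (.l 43) .z)) .z)))) (.b (.a (.b (.l 35) (.b (.l 35) (.a (.l
35) (.b (.l 35) .z)))) (.b (.l 35) (.a (.b (.l 35) .z) .z))) (.a (.b (.b (.a (.b (.l 35) .z) .z) .z) .z) (.b (.a .z (.b .z (.a .z (.l 41)))) (.a (.b
(.a .z (.l 41)) (.l 41)) (.l 41)))))) (.a (.b (.a (.b (.a (.b (.l 43) (.a .z (.l 43))) (.l 43)) (.a (.b .z (.a (.l 45) .z)) (.b (.l 43) .z))) (.b (.a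
(.l 43) (.b .z (.a (.l 43) .z))) (.a (.b (.l 43) (.a (.l 43) .z)) (.b .z (.a .z (.l 41)))))) (.a (.b (.a (.l 45) (.b (.a (.l 45) .z) (.l 45))) (.b (.l
45) (.a (.b .z (.l 48)) .z))) (.b (.a .z (.l 41)) (.a (.b (.a (.l 45) .z) .z) .z)))) (.b (.a (.b (.a .z (.b (.a .z (.l 41)) (.l 41))) (.a (.b (.a .z
(.l 41)) (.l 41)) (.l 41))) (.l 41)) (.a (.b (.b (.l 41) (.a (.b (.l 41) .z) .z)) (.a .z (.b .z (.l 97)))) (.b (.b (.a (.b (.l 41) .z) .z) (.a .z (.a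
.z (.l 44)))) .z))))) (.b (.a (.b (.b (.a (.b (.a (.b (.l 48) .z) .z) (.a (.b .z (.l 49)) (.l 49))) (.l 49)) (.b (.b (.l 49) .z) (.b (.a (.a .z (.l
51)) (.l 51)) (.l 51)))) (.b (.b (.l 51) (.b (.l 51) (.a (.l 51) (.a (.l 51) .z)))) (.a (.b (.b .z (.l 54)) (.l 54)) (.b (.b .z (.l 54)) (.a (.l 54)
(.b (.l 54) .z)))))) (.b (.a (.b (.a (.b .z (.a (.l 49) .z)) (.b (.l 97) .z)) (.a (.b (.b (.l 49) .z) (.l 51)) (.b .z (.l 51)))) (.b (.a .z (.b (.a .z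
(.l 47)) (.l 47))) (.a (.b (.a .z (.l 47)) .z) (.b (.l 47) .z)))) (.a (.b (.b (.l 51) (.b (.l 51) .z)) (.b (.a (.b (.l 54) .z) .z) (.a .z (.l 55))))
(.b (.a (.b (.a (.l 51) .z) (.b (.l 51) .z)) (.b (.a .z (.l 50)) .z)) (.a (.b (.b .z (.l 55)) (.l 55)) (.b (.a (.l 55) .z) (.l 55))))))) (.b (.a (.b
(.a (.b (.a (.l 54) (.b (.l 54) .z)) (.a .z (.b .z (.l 57)))) (.b .z (.b (.a .z (.l 57)) (.l 57)))) (.b (.l 57) (.b (.a (.l 57) (.a (.l 57) .z)) .z)))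
(.b (.b (.b (.a (.l 55) (.a (.l 55) .z)) .z) (.l 57)) (.b (.l 57) (.b .z (.l 60))))) (.a (.b (.l 60) (.a (.b (.l 60) (.a (.b (.l 60) .z) .z)) (.b (.a
(.b (.l 60) .z) .z) (.a .z (.b (.l 63) .z))))) (.b (.a (.b (.l 60) (.a (.b (.l 60) .z) .z)) (.b (.a (.b (.l 60) .z) .z) (.a .z (.b .z (.l 63))))) (.a
(.b (.a (.b .z (.l 63)) (.l 63)) (.b (.l 63) .z)) (.b (.l 63) (.b (.a (.l 63) .z) .z)))))))) (.b (.a (.b (.a (.b (.a (.b (.a (.l 35) .z) (.b .z (.a .z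
(.l 41)))) (.b (.a .z (.l 50)) (.a (.b .z (.l 41)) .z))) (.l 41)) (.b (.a (.b (.l 50) (.a (.b (.l 50) .z) (.b (.l 50) .z))) (.b (.l 50) (.b (.l 50)
.z))) (.a (.b (.a (.b .z (.l 41)) .z) (.l 41)) (.b (.a .z (.b .z (.l 56))) (.a .z (.b (.l 56) .z)))))) (.a (.b (.b (.l 41) (.b (.a (.l 41) (.b (.l 41)
.z)) (.a .z (.b .z (.l 44))))) (.b (.a (.b (.b .z (.l 44)) (.a (.l 44) .z)) (.b (.a (.l 44) .z) .z)) (.a (.b .z (.a .z (.l 47))) (.l 47)))) (.b (.a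
(.b (.l 41) .z) (.b (.a (.b (.l 41) .z) .z) (.b .z (.a .z (.l 47))))) (.b (.a (.b (.a .z (.l 47)) (.l 47)) (.l 47)) (.l 47))))) (.b (.b (.b (.a (.b
(.l 50) (.a (.l 50) (.b (.l 50) .z))) (.b (.a (.l 50) .z) (.a .z (.b .z (.l 53))))) (.a (.b (.a (.b (.l 50) .z) .z) (.a .z (.b (.l 53) .z))) (.b (.l
53) (.b (.l 53) .z)))) (.b (.b (.b (.a (.a .z (.l 56)) (.l 56)) (.l 56)) (.l 56)) (.a (.l 56) (.b (.a (.l 56) (.b (.l 56) .z)) (.a (.b (.l 56) .z)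
.z))))) (.a (.b (.a (.b .z (.a (.b .z (.l 47)) .z)) (.b (.b .z (.b .z (.l 62))) (.a (.b (.l 62) .z) (.l 62)))) (.a (.l 47) (.b (.a (.b .z (.l 47)) .z)
(.a (.l 47) .z)))) (.b (.b (.b (.a .z (.b (.l 59) .z)) (.b (.a .z (.l 62)) (.l 62))) (.l 62)) (.a (.b (.b (.b (.l 62) .z) .z) .z) (.b .z (.l 68)))))))
(.a (.b (.b (.a (.b (.l 47) (.b (.a (.b (.l 47) .z) .z) (.a (.b .z (.l 50)) (.l 50)))) (.b (.b (.a (.l 47) (.b (.l 47) .z)) (.a (.b (.l 47) .z) .z))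
(.a (.b (.b .z (.l 50)) (.a (.l 50) .z)) (.b (.a (.l 50) .z) .z)))) (.a (.b (.a (.l 50) (.b (.a (.l 50) .z) .z)) (.a .z (.b (.a .z (.l 53)) (.b (.l
53) .z)))) (.b (.a (.b .z (.l 53)) (.l 53)) (.b (.a (.l 53) (.b (.l 53) .z)) (.a .z (.b .z (.l 56))))))) (.b (.a (.b (.a (.b .z (.l 57)) (.b .z (.a
(.l 57) .z))) (.b (.a (.b (.l 57) .z) (.b (.l 57) .z)) (.a .z (.b .z (.l 61))))) (.b (.a (.b (.l 56) (.a .z (.l 56))) (.b (.a (.l 56) .z) .z)) (.a (.b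
.z (.a (.l 61) .z)) (.b (.a .z (.l 59)) .z)))) (.a (.b (.b (.a (.b .z (.l 61)) (.l 61)) (.b .z (.l 63))) (.b (.l 63) (.b .z (.l 66)))) (.a (.b (.b (.l
61) (.b .z (.l 63))) (.b (.l 63) .z)) (.b .z (.b (.l 63) .z)))))) (.b (.a (.b (.b (.a .z (.b .z (.a .z (.l 53)))) (.a (.b (.a .z (.l 53)) (.l 53)) (.l
53))) (.b (.b (.l 53) (.a (.l 53) (.b (.l 53) .z))) (.a (.b .z (.a (.l 56) .z)) .z))) (.b (.a (.b (.a (.l 53) .z) (.l 53)) .z) (.a (.b (.b (.l 53) .z)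
(.b .z (.l 59))) (.b .z (.l 59))))) (.a (.b (.b (.a (.b .z (.l 59)) (.l 59)) (.a (.b (.b (.l 59) .z) (.b .z (.l 62))) (.b .z (.a (.l 62) .z)))) (.a
(.b (.a (.b (.l 62) .z) (.b (.l 62) .z)) .z) (.b (.b .z (.a .z (.l 65))) (.b .z (.l 68))))) (.b (.b (.a (.b (.l 59) (.b (.l 59) .z)) (.b (.l 59) .z))
(.a .z (.b .z (.l 65)))) (.b (.b (.l 65) (.b (.a (.l 65) .z) .z)) .z)))))))

theorem vQ125 : ev Q125 I5_9 I6_61 = 283239691897527 := by decide +kernel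

noncomputable def Q153 : QT :=
(.b (.a (.b (.a (.b (.l 19) (.a (.b (.l 19) (.a (.l 19) (.b (.l 19) (.a (.l 19) (.b (.l 19) (.a (.l 19) .z)))))) (.b (.a (.l 19) (.b (.l 19) (.a (.b
(.l 19) (.a (.l 19) .z)) (.b (.a (.l 19) .z) .z)))) (.a (.b (.a (.l 19) (.b (.l 19) .z)) (.a (.b (.a (.l 19) .z) .z) (.b (.a .z (.l 19)) (.l 19))))
(.b (.a (.b .z (.a .z (.l 19))) (.l 19)) (.l 19)))))) (.b (.a (.b (.l 19) (.a (.b (.l 19) (.a (.l 19) (.b (.l 19) (.a (.l 19) .z)))) (.b (.a (.l 19)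
(.b (.l 19) .z)) (.a (.b (.a (.l 19) .z) .z) (.b (.a .z (.l 19)) .z))))) (.b (.a (.b (.l 19) (.a (.b (.l 19) (.a (.l 19) .z)) (.b (.a (.l 19) .z)
.z))) (.b (.a (.b (.l 19) (.a (.l 19) .z)) (.b .z (.a .z (.l 19)))) (.a (.b .z (.l 19)) (.l 19)))) (.a (.b (.a (.b .z (.a .z (.l 19))) (.l 19)) (.b
(.b (.l 19) (.a (.l 19) .z)) (.b .z (.l 19)))) (.b (.l 19) (.b (.b (.a (.l 19) .z) .z) (.l 19)))))) (.a (.b (.a (.b (.a (.b (.l 19) .z) (.b .z (.a .z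
(.l 19)))) (.a (.b (.a .z (.l 19)) (.l 19)) (.l 19))) (.l 19)) (.l 19)) (.l 19)))) (.a (.b (.a (.b (.a (.b (.l 19) (.a (.l 19) (.b (.a (.l 19) .z)
.z))) (.b (.a (.b (.l 19) (.a (.l 19) .z)) (.b .z (.a .z (.l 19)))) (.a (.b .z (.l 22)) (.b .z (.l 22))))) (.a (.b (.a (.b .z (.a .z (.l 22))) (.b (.a
.z (.l 22)) (.l 22))) (.l 22)) (.l 22))) (.b (.b (.l 19) (.a (.b (.a (.b (.l 19) .z) (.l 19)) (.a .z (.b (.l 19) .z))) (.l 19))) (.b (.a (.b (.a (.l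
22) (.b .z (.l 22))) (.l 22)) (.b (.a .z (.l 19)) (.a (.b .z (.l 22)) .z))) (.l 22)))) (.a (.l 22) (.b (.a (.l 22) (.b (.l 22) (.a (.l 22) (.b (.l 22)
.z)))) (.a (.b (.a (.l 22) (.b (.l 22) (.a (.l 22) .z))) (.a (.b (.a (.l 22) .z) .z) (.b .z (.l 23)))) (.b (.a (.b .z (.a .z (.l 23))) (.b (.a .z (.l
23)) (.l 23))) (.l 23)))))) (.b (.a (.b (.l 19) (.a (.b (.b (.l 19) (.a (.b (.l 19) .z) (.l 19))) (.b (.a (.b .z (.l 22)) .z) (.a (.l 22) (.b .z (.l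
22))))) (.b (.l 19) (.a (.b (.l 19) .z) (.b .z (.a .z (.l 23))))))) (.b (.a (.b (.l 19) (.a (.l 19) (.b (.l 19) (.a (.l 19) .z)))) (.b (.a (.l 19) (.b
(.l 19) (.a (.l 19) .z))) (.a (.b (.a (.l 19) .z) .z) (.b .z (.l 23))))) (.a (.b (.a (.b (.l 19) .z) (.b .z (.a .z (.l 23)))) (.a (.b (.a .z (.l 23))
(.l 23)) (.l 23))) (.l 23)))) (.a (.b (.a (.b (.a (.b (.l 22) (.a (.l 22) .z)) (.b (.a (.l 22) .z) .z)) (.a (.b .z (.a .z (.l 23))) (.l 23))) (.b (.a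
(.b .z (.l 23)) (.l 23)) (.l 23))) (.l 23)) (.b (.l 23) (.a (.l 23) (.b (.l 23) (.a (.b (.l 23) (.a (.l 23) .z)) (.b (.a (.l 23) .z) .z))))))))) (.b
(.a (.b (.a (.b (.a (.b (.a (.b (.a .z (.l 19)) (.l 19)) (.l 19)) (.l 19)) (.l 19)) (.b (.b (.l 19) (.b (.l 19) (.a (.l 19) .z))) (.b (.b (.a .z (.a
.z (.l 19))) (.l 19)) (.l 19)))) (.b (.a (.l 19) (.b (.a (.l 19) (.b (.a (.l 19) .z) (.l 19))) (.l 19))) (.b (.b (.b (.l 19) (.a (.l 19) .z)) (.b (.a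
.z (.a .z (.l 19))) (.a (.a .z (.l 19)) (.l 19)))) (.a (.l 19) (.a (.l 19) (.b (.l 19) (.a (.l 19) .z))))))) (.a (.b (.l 19) (.a (.b (.l 19) (.a (.l
19) (.b (.l 19) .z))) (.b (.a (.b (.l 19) (.a (.l 19) .z)) (.b (.a (.l 19) .z) .z)) (.a (.b .z (.a .z (.l 23))) (.l 23))))) (.b (.a (.b (.l 19) (.a
(.b (.l 19) (.a (.l 19) .z)) (.b .z (.a .z (.l 23))))) (.b (.a (.b (.l 19) .z) (.b .z (.a .z (.l 23)))) (.a (.b (.a .z (.l 23)) (.l 23)) (.l 23))))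
(.a (.b (.a (.b .z (.l 23)) (.l 23)) (.l 23)) (.l 23))))) (.b (.a (.b (.a (.b (.a (.b .z (.a (.l 19) .z)) (.b (.l 41) .z)) (.a (.l 19) (.b (.a (.l 19)
.z) (.l 19)))) (.b (.l 41) (.a (.b .z (.a (.l 19) .z)) (.b (.l 41) .z)))) (.a (.b (.b (.b .z (.a .z (.l 19))) (.a (.l 19) (.a (.l 19) .z))) (.a (.b
(.a (.l 19) .z) .z) (.b .z (.l 23)))) (.b (.a .z (.b .z (.l 23))) (.l 23)))) (.b (.b (.l 41) (.b (.b (.l 41) (.a (.l 41) .z)) (.b .z (.a (.a .z (.l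
20)) (.l 20))))) (.a (.b (.a (.b .z (.a (.l 23) .z)) (.b (.l 20) (.a .z (.l 20)))) (.a (.l 23) (.b .z (.l 23)))) (.b (.l 20) (.a (.b (.a .z (.l 20))
.z) (.b (.l 20) (.a .z (.l 20)))))))) (.a (.l 23) (.b (.a (.l 23) (.b (.a (.l 23) (.b .z (.l 23))) (.l 23))) (.a (.b (.l 23) (.a (.l 23) (.b (.l 23)
(.a (.l 23) .z)))) (.b (.a (.l 23) (.b (.l 23) .z)) (.a (.b .z (.a .z (.l 20))) (.b (.a .z (.l 20)) (.l 20))))))))) (.a (.b (.a (.b (.a (.b (.a (.b .z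
(.a .z (.l 23))) (.b (.a .z (.l 23)) (.l 23))) (.l 23)) (.l 23)) (.l 23)) (.b (.l 23) (.a (.l 23) (.b (.l 23) (.a (.b (.l 23) .z) (.b .z (.a .z (.l
20)))))))) (.a (.b (.a (.l 23) (.b (.l 23) (.a (.b (.l 23) (.a (.l 23) .z)) (.b (.a (.l 23) .z) .z)))) (.a (.b (.a (.b (.l 23) (.a (.l 23) .z)) (.b
(.a (.l 23) .z) .z)) (.a (.b .z (.l 20)) (.l 20))) (.b (.a (.b .z (.l 20)) (.l 20)) (.l 20)))) (.b (.a (.b (.a (.b (.l 23) .z) (.b .z (.a .z (.l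
20)))) (.a (.b (.a .z (.l 20)) (.l 20)) (.l 20))) (.b (.a (.b (.a .z (.l 20)) (.l 20)) (.l 20)) (.l 20))) (.l 20)))) (.b (.a (.b (.a (.b (.l 23) (.a
(.l 23) (.b (.l 23) (.a (.l 23) .z)))) (.b (.a (.l 23) (.b (.l 23) (.a (.l 23) .z))) (.a (.b (.a (.l 23) .z) .z) (.b .z (.l 20))))) (.a (.b (.a (.b
(.a (.l 23) .z) .z) (.b .z (.l 20))) (.a (.b (.a .z (.l 20)) (.l 20)) (.l 20))) (.l 20))) (.b (.a (.b (.a (.b (.a (.l 23) .z) .z) (.b .z (.l 20))) (.l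
20)) (.l 20)) (.l 20))) (.l 20))))) (.a (.b (.a (.b (.a (.b (.a (.b (.l 22) (.a (.b (.l 22) (.a (.l 22) .z)) (.b (.a (.l 22) .z) .z))) (.b (.a (.b (.l
22) .z) .z) .z)) .z) (.b (.a .z (.b (.b (.a (.b (.l 23) .z) (.l 23)) .z) (.b .z (.l 131)))) (.a .z (.b (.l 131) .z)))) (.a (.b .z (.a .z (.b (.a .z
(.b .z (.a .z (.l 23)))) (.a (.b .z (.b (.l 23) .z)) (.b (.l 23) (.b (.l 23) .z)))))) (.b (.a (.b .z (.a .z (.b .z (.a .z (.l 23))))) (.b (.a .z (.b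
.z (.l 23))) (.a (.b (.a .z (.l 23)) (.l 23)) (.l 23)))) (.a (.b (.a (.b (.a .z (.l 23)) (.l 23)) (.l 23)) (.b (.l 23) (.b .z (.a .z (.l 27))))) (.b
(.l 23) (.b (.b (.l 23) (.a (.l 23) .z)) (.b .z (.l 27)))))))) (.b (.a (.b (.a (.b (.l 23) (.b (.a .z (.b (.l 23) .z)) .z)) (.b (.l 23) (.a (.b (.l
23) .z) (.b (.l 23) .z)))) (.a (.b (.a (.l 131) .z) (.a .z (.b .z (.l 23)))) (.b (.a .z (.b .z (.l 23))) (.l 23)))) (.b (.a (.b (.a (.l 23) (.b (.l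
23) .z)) (.a .z (.b (.a .z (.l 20)) (.b (.l 20) .z)))) (.b (.a (.b .z (.a .z (.l 20))) (.l 20)) (.b (.l 20) (.b (.a (.l 20) .z) .z)))) (.b (.b (.b (.a
(.a .z (.l 23)) (.l 23)) (.l 23)) (.l 23)) (.l 23)))) (.b (.l 23) (.b (.b (.l 23) (.a (.l 23) (.b (.l 23) (.a (.a (.l 23) .z) .z)))) (.b (.a (.b (.a
(.l 23) .z) (.a .z (.a .z (.l 27)))) (.b (.a .z (.l 27)) (.l 27))) (.l 27)))))) (.a (.b (.a (.b (.a (.b (.a (.b .z (.l 26)) (.b .z (.l 26))) (.l 26))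
(.b (.b (.a (.b (.l 27) .z) (.l 27)) (.a (.b .z (.l 26)) .z)) (.l 26))) (.l 26)) (.b (.b (.a (.b (.l 27) (.a (.b (.l 27) .z) (.l 27))) (.l 27)) (.a
(.b (.a .z (.b (.l 27) .z)) (.a (.l 26) (.b .z (.l 26)))) (.b (.l 27) (.a .z (.b (.l 27) .z))))) (.b (.a (.l 26) (.b (.a (.l 26) (.b .z (.l 26))) (.l
26))) (.l 26)))) (.b (.l 26) (.a (.b (.a (.b (.l 26) (.a .z (.b (.l 26) .z))) (.l 26)) (.a (.b (.a (.l 29) (.b .z (.l 29))) (.l 29)) (.b (.a .z (.b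
(.l 26) .z)) (.a (.l 29) (.b .z (.l 29)))))) (.b (.l 26) (.a (.b (.l 26) (.a .z (.b (.l 26) .z))) (.l 26)))))) (.b (.b (.l 27) (.a (.b (.a (.b (.a .z
(.b (.l 27) .z)) (.a (.l 26) .z)) (.b (.l 27) (.a (.b (.l 27) .z) (.l 27)))) (.a (.l 26) (.b (.a (.b .z (.l 26)) .z) (.l 26)))) (.b (.l 27) (.a (.b
(.a (.b (.l 27) .z) (.l 27)) (.a (.b .z (.l 26)) .z)) (.l 27))))) (.b (.a (.l 26) (.b (.a (.b (.a (.l 26) (.b .z (.l 26))) (.l 26)) (.b (.a .z (.b (.l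
27) .z)) (.a (.l 26) (.b .z (.l 26))))) (.l 26))) (.l 26))))) (.b (.b (.b (.b (.a (.b (.l 20) (.a (.l 20) (.b (.l 20) (.a (.l 20) (.a (.l 20) .z)))))
(.b (.a (.l 20) (.b (.a (.l 20) .z) (.a .z (.a .z (.l 23))))) (.a (.b (.a (.a (.l 20) .z) .z) (.a .z (.l 23))) (.b (.a (.a .z (.l 23)) (.l 23)) (.l
23))))) (.a (.b (.a (.b (.l 20) (.a (.a (.l 20) .z) .z)) (.b .z (.a (.a .z (.l 23)) (.l 23)))) (.a (.b (.a .z (.l 23)) (.l 23)) (.l 23))) (.l 23)))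
(.l 23)) (.b (.b (.l 23) (.a (.l 23) (.b (.a (.l 23) (.b (.l 23) (.a (.a (.l 23) .z) .z))) (.a (.b (.a (.l 23) (.a (.l 23) .z)) .z) (.b (.a .z (.l
27)) (.l 27)))))) (.b (.a (.b (.a (.b (.l 23) (.a (.l 23) .z)) (.b (.a (.a (.l 23) .z) .z) (.a .z (.l 27)))) (.a (.b (.a .z (.a .z (.l 27))) (.a (.a
.z (.l 27)) (.l 27))) (.l 27))) (.b (.a (.b (.a (.a .z (.l 27)) (.l 27)) (.l 27)) (.l 27)) (.l 27))) (.l 27)))) (.b (.l 27) (.a (.b (.a (.b (.a (.b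
(.l 27) (.a .z (.b (.l 27) .z))) (.l 27)) (.a (.b (.a (.l 26) .z) (.l 26)) (.b (.a (.b (.l 27) .z) (.l 27)) (.a (.b .z (.l 26)) .z)))) (.l 27)) (.a
(.b (.a (.l 26) (.b (.a (.l 26) (.b .z (.l 26))) (.l 26))) (.l 26)) (.b (.a (.b (.a .z (.b (.l 27) .z)) (.a (.l 26) (.b .z (.l 26)))) (.b (.l 27) (.a
.z (.l 27)))) (.a (.l 26) (.b (.a (.b .z (.l 26)) .z) (.l 26)))))) (.b (.l 27) (.a (.b (.l 27) (.a (.b (.a (.b (.l 27) .z) (.l 27)) (.a .z (.b (.l 27)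
.z))) (.l 27))) (.b (.a (.l 27) (.b (.l 27) (.a (.l 27) (.b (.l 27) .z)))) (.a (.b (.l 27) (.a (.l 27) .z)) (.b (.a (.b (.l 27) .z) .z) (.a (.b .z (.l
31)) (.l 31))))))))))))

theorem vQ153 : ev Q153 I5_13 I5_29 = 830408599733837 := by decide +kernel

noncomputable def Q201 : QT :=
(.a (.b (.a (.b (.a (.b (.l 43) (.b (.b (.b .z (.a (.l 45) .z)) (.l 45)) (.b (.b (.l 45) (.a (.l 45) .z)) .z))) (.b (.l 43) (.a (.b (.b (.b (.l 43)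
.z) (.b .z (.l 45))) .z) (.b (.b (.l 43) .z) .z)))) (.a (.b (.b (.b (.b .z (.a .z (.l 51))) (.l 51)) (.l 51)) (.a (.b (.l 51) .z) (.b (.a (.b (.l 51)
.z) .z) (.a .z (.b (.l 47) .z))))) (.b (.a (.b (.a (.b .z (.l 51)) .z) (.a (.b (.l 51) .z) .z)) (.b .z (.l 47))) (.a (.b (.a .z (.b (.l 47) .z)) (.b
(.l 47) .z)) (.b (.b (.l 47) (.b (.l 47) .z)) (.b (.b .z (.l 47)) .z)))))) (.b (.a (.b (.a (.l 43) (.b (.l 43) (.a (.b (.l 43) .z) .z))) (.a (.b (.a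
(.b (.l 43) .z) .z) .z) .z)) (.b (.a (.b (.a (.b (.l 43) .z) .z) (.a .z (.b (.l 39) .z))) (.b (.a (.b .z (.l 39)) (.b .z (.l 39))) (.b (.l 39) .z)))
.z)) (.a (.b (.b (.b .z (.l 47)) (.l 47)) (.a (.b (.l 47) .z) (.b (.a (.b (.l 47) .z) .z) (.a .z (.b (.l 43) .z))))) (.b (.a (.b (.b (.b .z (.l 47))
(.l 47)) (.a (.b (.l 47) .z) .z)) (.b .z (.a (.b .z (.l 43)) .z))) (.a (.b (.a (.b .z (.l 43)) (.l 43)) (.b (.l 43) .z)) (.b (.l 43) (.b (.b (.l 43)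
.z) (.b .z (.l 49))))))))) (.a (.b (.a (.b (.a (.b .z (.b .z (.b .z (.l 55)))) (.b (.b .z (.l 102)) (.b .z (.l 55)))) (.a (.b (.l 55) (.b (.b (.l 55)
.z) .z)) (.b (.a (.l 55) (.b (.l 55) .z)) (.a .z (.b .z (.l 51)))))) (.b (.a (.b .z (.a (.b .z (.l 55)) .z)) .z) (.a (.b (.a .z (.b .z (.l 49))) (.b
.z (.l 51))) (.b (.b (.l 49) (.b (.l 49) .z)) (.b .z (.b .z (.l 51))))))) (.a (.b (.a (.b .z (.a .z (.b (.l 57) .z))) (.b (.a .z (.b (.l 51) .z)) (.b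
(.l 57) (.b (.l 57) .z)))) (.b (.b (.b (.a .z (.l 57)) (.l 57)) (.b (.a (.l 57) .z) .z)) (.b .z (.b (.a (.l 59) .z) (.a (.l 59) .z))))) (.b (.b (.b
(.b (.l 51) (.a (.l 51) .z)) (.b .z (.l 57))) (.b (.l 57) (.b .z (.a .z (.l 57))))) (.b (.b (.l 57) .z) (.b (.b (.a .z (.l 63)) (.l 63)) (.b (.a .z
(.l 63)) .z)))))) (.b (.a (.b (.a (.b (.a .z (.b .z (.l 49))) (.b (.b (.l 49) .z) (.b .z (.l 49)))) (.b (.l 49) (.b (.b (.l 49) .z) (.l 49)))) (.b (.b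
(.l 49) (.b (.a (.l 49) .z) .z)) (.b (.b .z (.a .z (.l 55))) (.b .z (.a (.l 51) .z))))) (.b (.b (.l 49) (.b (.b .z (.a .z (.l 49))) (.l 49))) (.b (.b
(.b (.l 49) .z) .z) (.b (.b (.a .z (.l 55)) (.l 55)) (.b (.l 55) (.a .z (.l 55))))))) (.b (.b (.b (.a (.b (.a (.l 51) .z) .z) (.b .z (.l 57))) (.l
57)) (.b (.b (.a (.l 57) .z) (.a .z (.a .z (.l 57)))) (.b (.a (.a .z (.l 57)) (.l 57)) (.l 57)))) (.b (.b (.b (.a (.l 57) .z) .z) (.b (.a .z (.a .z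
(.l 63))) (.a (.a .z (.l 63)) (.l 63)))) (.b (.l 63) (.a (.b (.l 63) (.a .z (.l 63))) (.l 63)))))))) (.b (.a (.b (.a (.b (.b (.b (.b (.l 39) (.a .z
(.l 39))) (.b .z (.a (.l 39) .z))) (.b (.b (.l 39) .z) .z)) (.a .z (.b .z (.a (.b .z (.l 41)) (.l 41))))) (.b (.a (.b (.b (.l 39) (.b (.l 39) .z)) .z)
(.b (.a (.b (.l 39) .z) .z) (.a (.b .z (.l 41)) (.l 41)))) (.a (.b (.a .z (.b (.l 41) .z)) (.l 41)) (.b (.b (.b (.l 41) .z) (.b .z (.l 41))) (.l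
41))))) (.a (.b (.a (.b (.a (.b .z (.l 41)) (.l 41)) (.b .z (.b .z (.l 43)))) (.b (.b (.l 41) (.b (.l 41) .z)) .z)) (.b (.l 43) (.b (.b (.a (.l 43)
.z) .z) (.l 49)))) (.b (.b (.b (.l 41) .z) (.b .z (.b (.l 47) (.a .z (.l 47))))) (.b (.b (.b .z (.a (.l 43) .z)) (.b (.l 43) (.a (.l 43) .z))) (.b (.b
.z (.l 49)) (.l 49)))))) (.b (.a (.b (.a (.b (.a (.b .z (.l 41)) (.b .z (.l 41))) (.l 41)) (.l 41)) (.b (.b (.b (.a (.l 41) .z) .z) (.l 41)) (.l 41)))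
(.b (.b (.l 41) (.b (.l 41) (.b (.l 41) .z))) (.b (.b (.b (.a .z (.l 41)) (.l 41)) (.l 41)) (.b (.l 41) (.b (.l 41) (.a (.l 41) .z)))))) (.b (.b (.b
(.a (.b (.a (.l 41) .z) .z) .z) (.a .z (.b .z (.a .z (.l 47))))) (.b (.a (.b .z (.l 47)) (.l 47)) (.l 47))) (.b (.b (.a (.b (.l 47) (.a .z (.l 47)))
(.l 47)) (.a .z (.b (.l 47) (.a .z (.l 47))))) (.b (.a (.l 49) (.b .z (.a (.l 49) .z))) (.a (.l 49) (.b (.l 49) (.a (.l 49) .z)))))))) (.b (.a (.b (.b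
(.b (.a (.l 49) (.b (.l 49) (.a (.l 49) .z))) (.a (.b (.a (.l 49) .z) .z) (.b .z (.l 49)))) (.b (.a (.b (.a .z (.l 49)) (.l 49)) (.l 49)) (.a (.l 49)
(.b (.l 49) .z)))) (.b (.b .z (.a (.b .z (.a .z (.l 55))) (.b (.a .z (.l 55)) (.l 55)))) (.l 55))) (.b (.b (.b (.a (.b (.a (.l 49) .z) .z) (.b .z (.l
49))) (.l 49)) (.b (.a (.l 49) (.b (.a (.l 49) .z) .z)) .z)) (.a (.b (.b (.b .z (.l 55)) (.l 55)) (.l 55)) (.b (.l 55) (.a (.l 55) (.b (.l 55) (.a (.l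
55) .z))))))) (.a (.b (.b (.b (.a (.b (.a .z (.l 55)) .z) (.l 55)) (.a (.b (.a (.l 57) .z) .z) (.b (.a .z (.l 55)) .z))) (.b (.a (.b (.a .z (.l 57))
(.l 57)) (.l 57)) (.b (.a (.l 57) .z) .z))) (.a (.b (.b (.b .z (.a .z (.l 63))) (.l 63)) (.a (.l 63) (.b (.l 63) (.a (.l 63) .z)))) (.b (.a (.b (.b .z
(.l 63)) (.l 63)) (.b (.l 63) .z)) (.a (.b (.a (.l 63) .z) .z) .z)))) (.b (.a (.b (.b (.l 55) (.b (.l 55) (.a .z (.l 55)))) (.a .z (.b .z (.a .z (.l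
58))))) (.b (.a (.b (.a (.l 55) .z) .z) .z) (.a (.b (.a .z (.l 58)) (.l 58)) (.b (.l 58) (.a (.l 58) .z))))) (.a (.b (.a .z (.b (.l 58) .z)) .z) (.b
(.a (.b (.l 58) .z) .z) (.a .z (.b (.l 61) (.b .z (.l 61)))))))))))

theorem vQ201 : ev Q201 I5_17 I6_61 = 267980764894633 := by decide +kernel

noncomputable def Q228 : QT :=
(.a (.b (.a (.b (.a (.a (.b (.b (.b (.l 55) .z) (.l 133)) (.l 133)) (.a (.a (.b (.b (.b (.l 55) .z) .z) (.l 133)) (.b (.b (.b (.l 55) .z) .z) .z))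
.z)) (.b (.b (.l 145) (.b (.a (.l 145) .z) .z)) .z)) (.a (.b (.a (.l 133) .z) (.a (.a (.b .z (.a (.b (.a (.l 19) .z) (.l 19)) .z)) (.a (.l 133) .z))
(.b (.a .z (.l 231)) .z))) (.b (.a (.b .z (.l 231)) .z) .z))) (.b (.a (.b (.a (.b (.l 145) .z) (.b (.b (.l 145) .z) .z)) .z) .z) (.a (.b .z (.b .z (.a
(.b .z (.l 145)) (.l 145)))) (.b .z (.b .z (.b .z (.a .z (.b .z (.a .z (.l 36)))))))))) (.a (.b (.a (.b (.a (.b (.b (.a (.a (.l 19) (.a (.l 19) .z))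
.z) (.a (.b (.l 19) .z) .z)) (.a (.b (.b (.a (.l 25) .z) .z) (.a (.l 11) (.b (.l 11) .z))) .z)) .z) (.a (.b (.a (.b (.a (.b (.a (.l 11) .z) .z) (.b .z
(.l 20))) (.a (.b .z (.l 20)) (.l 20))) (.a (.l 20) (.a (.l 20) (.b .z (.l 20))))) (.l 20)) (.a (.a (.b .z (.a (.l 20) (.b .z (.l 20)))) (.b (.l 77)
.z)) (.b (.b .z (.l 77)) (.l 77))))) (.b (.b .z (.b (.b .z (.l 144)) (.l 144))) (.b (.a (.b .z (.a (.l 77) .z)) (.b (.l 144) .z)) (.a (.l 77) (.b (.a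
(.l 77) .z) (.l 77)))))) (.b (.a (.a (.l 20) (.a (.a (.l 20) (.b (.a (.l 20) (.b .z (.l 20))) (.l 20))) (.a (.b .z (.a (.l 20) (.b .z (.l 20)))) (.b
(.l 77) .z)))) (.l 77)) (.b (.a (.a (.l 20) (.a (.l 20) (.a (.l 20) (.a (.b .z (.l 20)) .z)))) (.a (.a (.a .z (.l 77)) (.l 77)) (.l 77))) (.b (.a (.l
20) (.a (.a .z (.l 77)) (.a (.l 77) .z))) (.a (.b (.l 20) (.a (.b (.l 20) .z) (.l 20))) (.a (.a (.a (.a (.l 20) .z) .z) .z) .z)))))) (.b (.b (.b (.a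
.z (.b (.a .z (.l 36)) (.a (.a .z (.a .z (.l 36))) (.l 36)))) (.a (.a (.l 144) .z) (.a (.a (.a .z (.b .z (.l 36))) (.l 36)) (.l 36)))) (.a (.b (.a (.l
144) .z) (.a .z (.a .z (.a (.b .z (.l 36)) (.l 36))))) (.a (.a (.b (.a (.b .z (.l 36)) (.l 36)) (.l 36)) (.l 36)) (.a (.b (.l 36) (.a (.l 36) (.b (.l
36) .z))) (.b (.a (.b (.l 36) .z) .z) .z))))) (.a (.b (.b (.a (.b (.a (.l 77) .z) (.l 77)) (.b (.a .z (.b (.l 36) .z)) (.a (.l 77) .z))) (.l 77)) (.a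
(.b (.b (.l 77) (.a (.l 77) .z)) (.b .z (.a .z (.l 71)))) (.b .z (.a (.b (.l 71) .z) (.b (.a .z (.b .z (.l 21))) (.a .z (.b (.l 21) .z))))))) (.b (.a
(.b (.b (.l 36) (.a (.b (.l 36) .z) (.l 36))) (.a .z (.b (.b (.l 36) .z) .z))) (.b (.a (.b (.a (.l 36) .z) .z) .z) .z)) (.a (.b (.a (.b .z (.a .z (.b
.z (.l 21)))) (.b (.a (.b .z (.l 21)) (.l 21)) (.l 21))) (.b (.l 21) (.b (.l 21) (.a .z (.l 21))))) (.b (.b (.a (.b (.a (.l 21) .z) (.l 21)) .z) (.a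
(.l 21) (.b (.a (.l 21) .z) (.l 21)))) (.l 21)))))))) (.b (.a (.b .z (.a (.b .z (.b .z (.b .z (.a (.b .z (.a (.l 36) .z)) .z)))) (.b (.a (.a .z (.b
(.l 183) .z)) (.b .z (.l 183))) .z))) (.b (.a (.b (.a (.b .z (.b .z (.l 201))) .z) .z) (.b (.a (.b (.a .z (.b (.l 37) (.a .z (.l 37)))) .z) (.b (.l
37) (.a (.b (.a .z (.l 37)) .z) (.l 37)))) (.a (.b (.b (.l 169) .z) .z) .z))) (.a (.b .z (.a (.b .z (.a (.b .z (.l 89)) .z)) (.b .z (.a (.l 138)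
.z)))) .z))) (.a (.b (.a (.b (.a (.a (.b (.a (.l 36) (.b (.l 36) .z)) .z) .z) .z) (.a .z (.b (.a .z (.b .z (.l 93))) (.b (.l 93) (.a (.l 93) .z)))))
(.b (.a (.b .z (.a .z (.b .z (.l 89)))) (.b (.a (.b .z (.l 89)) (.l 89)) (.l 89))) (.a (.b (.b (.b (.l 89) .z) (.l 93)) (.b (.a (.l 93) .z) .z)) .z)))
(.a (.b (.a .z (.b (.b .z (.l 155)) .z)) (.b .z (.a (.b (.a (.b (.a (.l 21) .z) (.l 21)) .z) (.a (.l 21) (.a (.l 21) (.b .z (.l 21))))) .z))) .z)) (.b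
(.a (.a (.a (.b (.a (.b (.l 89) .z) .z) .z) (.b .z (.b .z (.l 237)))) (.b (.b (.b (.l 138) .z) .z) (.b .z (.l 237)))) (.b (.b (.b (.a .z (.l 157)) .z)
.z) (.a (.b .z (.l 237)) (.b .z (.b .z (.l 237)))))) (.b (.b (.l 237) (.b (.l 237) (.b (.b (.l 237) .z) .z))) .z)))))

theorem vQ228 : ev Q228 I5_23 I5_26 = 279067602235645 := by decide +kernel

noncomputable def Q158 : QT :=
(.b (.b (.a (.b (.a (.b (.a (.b (.a .z (.b .z (.l 41))) (.a .z (.b (.l 41) .z))) (.l 41)) (.a (.b (.a (.l 40) .z) (.a .z (.b (.l 40) .z))) (.b (.a (.b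
(.l 41) .z) (.l 41)) (.a (.b .z (.l 40)) .z)))) (.l 41)) (.a (.b (.a (.b (.a (.l 43) .z) (.l 43)) (.b (.a (.b (.l 40) .z) (.b .z (.l 40))) (.a (.b .z
(.l 43)) .z))) (.a (.l 43) (.b (.a (.l 43) (.b .z (.l 43))) (.l 43)))) (.b (.a (.b (.a .z (.b (.l 41) .z)) (.a (.l 40) .z)) (.b (.l 41) (.a (.b (.l
41) .z) (.l 41)))) (.a (.b (.a .z (.b (.l 40) .z)) (.a (.l 43) .z)) (.b (.a .z (.b (.l 41) .z)) (.a (.b (.l 40) .z) .z)))))) (.b (.l 41) (.a (.b (.l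
41) (.a (.b (.l 41) (.a .z (.l 41))) (.l 41))) (.a (.l 41) (.b (.l 41) (.a (.b (.l 41) .z) (.b .z (.a .z (.l 42))))))))) (.a (.a (.b (.b (.b (.b (.l
43) (.a (.l 43) .z)) (.b (.a .z (.a .z (.l 43))) (.l 43))) (.b (.b (.l 43) (.a (.a (.l 43) .z) .z)) (.b (.a .z (.l 47)) (.l 47)))) (.l 47)) (.b (.a
(.b (.b (.b .z (.a .z (.l 43))) (.l 43)) (.b (.b .z (.a .z (.l 47))) (.l 47))) (.b (.b (.b (.a .z (.l 43)) (.l 43)) (.b (.l 43) .z)) (.a (.b (.b .z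
(.l 47)) (.l 47)) (.b (.l 47) (.a (.l 47) .z))))) (.a (.b (.l 47) (.a (.b (.l 47) .z) (.b .z (.a .z (.l 47))))) (.b (.a (.b (.a (.l 47) .z) .z) (.b .z
(.l 47))) (.a (.b (.a .z (.l 47)) (.l 47)) (.l 47)))))) (.b (.a (.b (.a (.b (.a (.b .z (.l 43)) .z) (.a (.b (.l 43) .z) .z)) (.b (.l 41) (.a .z (.l
41)))) (.a (.a (.b (.a (.l 47) .z) .z) (.b .z (.l 44))) (.b (.a (.b .z (.l 44)) .z) (.a (.a (.l 44) .z) .z)))) (.b (.a (.a (.b (.l 41) .z) (.b .z (.a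
.z (.l 45)))) (.a (.b .z (.l 45)) (.b (.b .z (.l 45)) (.b (.l 45) .z)))) (.a (.b .z (.a .z (.b (.l 49) .z))) (.b (.b .z (.l 49)) (.l 49))))) (.a (.a
(.b (.b (.a (.b .z (.l 47)) .z) (.l 47)) (.a (.l 47) (.b (.l 47) (.a (.l 47) .z)))) (.b .z (.a (.b (.a (.l 47) .z) .z) (.b .z (.l 48))))) (.a (.b (.b
.z (.a (.a .z (.l 48)) (.l 48))) (.l 48)) (.b (.b (.a (.b (.l 49) .z) (.l 49)) (.a .z (.a .z (.l 49)))) (.a (.l 48) (.b .z (.l 48))))))))) (.a (.b (.a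
(.b (.a (.b (.b (.l 47) (.a (.b (.l 47) .z) (.l 47))) (.a (.b (.b .z (.l 49)) (.b .z (.l 53))) .z)) (.b (.a (.b (.l 47) (.a (.l 47) .z)) (.b (.a (.l
47) .z) .z)) (.a (.b .z (.l 50)) (.b .z (.b (.l 50) .z))))) (.a (.b (.a (.b .z (.a .z (.l 57))) (.b .z (.l 57))) (.l 57)) (.b (.b .z (.a (.l 57) .z))
(.a (.b (.l 57) .z) .z)))) (.b (.a (.b (.a (.b (.a .z (.l 47)) (.l 47)) (.l 47)) (.b (.a (.b (.l 47) .z) (.l 47)) (.b (.a .z (.l 47)) .z))) (.b (.a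
(.l 47) (.b (.l 47) (.a (.l 47) .z))) (.a (.b (.a (.l 47) .z) .z) (.b .z (.l 48))))) (.a (.b (.a .z (.b .z (.a .z (.l 51)))) (.a .z (.b (.b .z (.l
55)) .z))) (.b (.a (.b .z (.b (.l 51) .z)) (.b .z (.b (.l 51) .z))) (.b (.b (.a .z (.l 55)) (.l 55)) (.a (.b (.l 55) .z) (.l 55))))))) (.a (.b (.a (.b
(.a (.b (.l 57) (.a (.l 57) .z)) .z) (.a (.b .z (.l 57)) (.l 57))) (.b (.a (.b (.a .z (.l 54)) .z) (.l 54)) (.b (.a (.b .z (.l 57)) .z) (.l 57)))) (.b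
(.b (.b (.l 57) (.a (.a (.l 57) .z) .z)) (.b (.a .z (.l 57)) .z)) (.b (.b (.a (.a .z (.l 61)) (.l 61)) (.l 61)) (.l 61)))) (.b (.b (.a (.l 54) (.b (.a
.z (.b (.l 55) .z)) (.a (.l 54) (.b .z (.l 54))))) (.b (.a (.a (.b (.l 54) .z) (.l 54)) (.l 54)) (.b (.a .z (.l 54)) (.a (.a (.l 57) .z) .z)))) (.b
(.b (.b .z (.a (.a .z (.l 57)) (.a (.l 57) .z))) (.b .z (.a (.a .z (.l 61)) (.l 61)))) (.a (.l 61) (.b (.l 61) (.a (.l 61) (.b (.l 61) .z)))))))) (.b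
(.a (.b (.a (.b (.a (.b (.a (.l 47) .z) .z) (.b .z (.l 48))) (.l 48)) (.b (.l 48) (.b (.l 48) (.b (.l 48) .z)))) (.b (.b (.b (.a .z (.a .z (.l 51)))
(.a (.l 51) (.a (.l 51) .z))) (.b (.a (.a (.l 51) .z) .z) (.a .z (.l 55)))) (.l 55))) (.b (.b (.l 48) (.b (.b (.l 48) (.a (.l 48) (.a (.l 48) .z)))
(.b (.a (.a (.l 48) .z) .z) (.a .z (.l 51))))) (.b (.b (.b (.a (.l 51) .z) (.a .z (.a .z (.l 55)))) (.l 55)) (.a (.l 55) (.b (.l 55) (.a (.b (.l 55)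
.z) .z)))))) (.b (.a (.b (.a (.b (.l 55) (.a .z (.b (.l 55) .z))) (.l 55)) (.a (.b (.a (.l 54) .z) (.b (.l 54) .z)) (.b (.a (.b (.l 55) .z) (.b (.l
55) .z)) .z))) (.b (.a (.b (.a (.l 55) (.b (.l 55) .z)) (.a (.b (.l 55) .z) .z)) (.b .z (.b (.a .z (.l 56)) (.l 56)))) (.a (.b (.a .z (.b (.l 56) .z))
.z) (.b (.a (.l 56) .z) .z)))) (.a (.b (.a (.b (.b (.l 57) .z) (.l 61)) (.b .z (.a .z (.b .z (.l 57))))) (.a (.b (.a (.l 61) .z) .z) (.b (.a (.b .z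
(.l 57)) (.l 57)) (.b (.l 57) .z)))) (.b (.a (.b .z (.a (.b .z (.l 57)) .z)) (.b .z (.a (.b (.l 63) .z) (.l 63)))) (.a (.b (.l 57) (.b .z (.a .z (.l
62)))) (.b (.a (.b .z (.l 57)) .z) (.a (.b .z (.l 62)) (.b .z (.l 62)))))))))))

theorem vQ158 : ev Q158 I5_13 I6_61 = 317571435305208 := by decide +kernel

noncomputable def Q39 : QT :=
(.b (.b (.a (.b (.b (.a (.b (.b (.a (.l 16) (.a (.l 16) (.b (.l 16) (.a (.l 16) (.a (.a (.l 16) .z) .z))))) (.a (.b (.l 16) (.a (.l 16) (.a (.a (.l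
16) (.a (.l 16) .z)) .z))) (.a (.b (.a (.l 16) (.a (.l 16) .z)) .z) (.b .z (.l 41))))) (.b (.a (.b .z (.a (.l 20) (.a (.l 20) .z))) (.a (.b (.a .z (.l
41)) .z) (.b (.l 41) (.a .z (.l 41))))) (.a (.l 20) (.a (.b (.a (.l 20) .z) (.l 20)) .z)))) (.a (.b (.b (.a (.b (.a (.a (.l 16) .z) .z) (.a .z (.l
41))) (.l 41)) (.l 41)) (.b (.l 41) (.a (.b (.a .z (.l 41)) .z) (.l 41)))) (.l 41))) (.a (.b (.a (.l 20) (.b (.a (.l 20) (.b (.a (.l 20) .z) (.l 20)))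
(.l 20))) (.l 20)) (.a (.b (.a (.b .z (.a (.l 20) (.b .z (.l 20)))) (.b (.b .z (.a (.l 43) .z)) (.a .z (.l 43)))) (.a (.l 20) (.b (.a (.b (.a (.l 20)
.z) (.l 20)) (.b .z (.a (.l 20) .z))) (.l 20)))) (.b (.a (.b (.b (.l 41) (.a .z (.l 41))) (.b .z (.a (.l 43) .z))) (.b (.l 41) (.a (.b (.l 41) .z) (.l
41)))) (.a (.b (.a (.b (.l 43) .z) (.l 43)) (.a (.b .z (.a (.l 20) .z)) (.b (.l 43) .z))) (.b (.a (.b .z (.l 43)) .z) (.l 43))))))) (.a (.l 20) (.b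
(.a (.l 20) (.b (.a (.b (.a (.l 20) (.b .z (.a (.l 20) .z))) (.l 20)) (.b (.a (.b (.l 43) .z) (.l 43)) (.a (.b .z (.a (.l 20) .z)) (.a .z (.l 43)))))
(.a (.l 20) (.b (.a (.l 20) (.a (.b .z (.l 20)) .z)) (.l 20))))) (.l 20)))) (.a (.b (.b (.l 41) (.a (.b (.l 41) (.a (.b (.a (.b (.l 41) .z) (.l 41))
(.a .z (.b (.l 41) .z))) (.l 41))) (.l 41))) (.a (.b (.a (.b (.b (.a (.l 43) (.b .z (.l 43))) (.l 43)) (.a (.b (.a .z (.l 43)) (.a (.b .z (.l 20))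
.z)) (.b (.l 43) (.a .z (.l 43))))) (.b (.b (.a .z (.b (.l 41) .z)) (.a (.l 43) .z)) (.l 43))) (.a (.b (.a (.l 20) (.b (.a (.b .z (.l 20)) .z) (.l
20))) (.l 20)) (.b (.a (.b (.a .z (.l 43)) (.a (.b .z (.l 20)) .z)) (.l 43)) (.a (.b (.a (.l 20) (.b .z (.l 20))) (.l 20)) (.b .z (.a (.l 20) (.b .z
(.l 20)))))))) (.b (.b (.a (.b (.l 41) (.a (.b (.l 41) .z) (.l 41))) (.l 41)) (.a (.b (.a (.b .z (.l 43)) .z) (.a (.l 43) (.b .z (.l 43)))) (.b (.l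
41) (.a .z (.l 41))))) (.a (.b (.l 43) (.a (.b (.l 43) (.a .z (.l 43))) (.l 43))) (.b (.b (.a (.b .z (.l 43)) .z) (.a (.l 43) (.b .z (.l 43)))) (.l
43)))))) (.b (.l 41) (.a (.b (.l 41) (.a (.b (.b (.l 41) (.a .z (.l 41))) (.b (.a (.b .z (.l 43)) .z) (.a (.l 43) (.b .z (.l 43))))) (.b (.l 41) (.a
(.b (.l 41) .z) (.l 41))))) (.l 41))))) (.a (.l 20) (.a (.b (.a (.l 20) (.b (.a (.b (.a (.b (.a (.b .z (.l 20)) .z) (.l 20)) (.b (.a .z (.l 43)) (.a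
(.b .z (.l 20)) .z))) (.a (.l 20) (.b (.a (.l 20) (.b .z (.l 20))) (.l 20)))) (.b (.l 43) (.a (.b .z (.a (.l 20) .z)) (.b (.l 43) (.a .z (.l 43))))))
(.a (.l 20) (.b (.a (.l 20) (.b .z (.a (.l 20) (.b .z (.l 20))))) (.l 20))))) (.l 20)) (.b (.a (.b (.a (.l 43) (.b (.a (.b (.a (.l 43) .z) (.l 43))
(.b .z (.a (.l 43) .z))) (.l 43))) (.a (.b (.a (.b (.l 43) (.a .z (.l 43))) (.l 43)) (.a (.b (.a (.b .z (.l 20)) .z) (.a (.l 20) (.b .z (.l 20)))) (.b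
(.l 43) .z))) (.l 43))) (.b (.a (.b (.a (.b (.l 41) .z) (.l 41)) (.a (.b (.a (.l 43) .z) (.l 43)) (.b .z (.a (.l 43) .z)))) (.b (.l 41) (.a (.b (.l
41) (.a .z (.l 41))) (.l 41)))) (.a (.l 43) (.b (.a (.b .z (.l 43)) (.b (.a .z (.l 41)) .z)) (.l 43))))) (.a (.b (.a (.b (.a (.l 20) (.b (.a (.l 20)
.z) (.l 20))) (.l 20)) (.b (.a (.b (.a .z (.l 43)) .z) (.l 43)) (.a (.b (.a (.l 20) .z) (.l 20)) (.b (.a .z (.l 43)) .z)))) (.a (.l 20) (.b (.a (.l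
20) (.b (.a (.l 20) .z) (.l 20))) (.l 20)))) (.b (.l 43) (.a (.a (.b (.a .z (.b (.l 43) .z)) (.a (.l 20) (.b .z (.l 20)))) (.b (.l 43) (.a .z (.b (.l
43) .z)))) (.b (.a (.l 43) (.b (.l 43) (.a (.l 43) .z))) (.a (.b (.l 43) (.a .z (.b .z (.a .z (.l 10))))) (.b (.a .z (.b (.a .z (.l 10)) (.l 10))) (.a
(.b (.a .z (.l 10)) (.l 10)) (.l 10)))))))))))) (.b (.a (.l 20) (.a (.b (.l 20) (.b (.a (.l 20) (.a (.b (.l 20) (.a (.b (.l 20) (.a (.l 20) (.b (.l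
20) .z))) (.b (.a (.l 20) (.b (.l 20) .z)) (.a (.b .z (.a .z (.l 10))) (.b (.a .z (.l 10)) (.l 10)))))) (.b (.a (.b (.l 20) (.a (.b (.l 20) .z) .z))
(.b (.a (.b (.l 20) .z) .z) (.a (.b .z (.l 10)) (.l 10)))) (.a (.b (.a (.b .z (.a .z (.l 10))) (.l 10)) (.l 10)) (.l 10))))) (.a (.b (.a (.l 20) (.b
(.a (.l 20) (.b (.l 20) (.a (.l 20) .z))) (.a (.b (.l 20) .z) (.b (.a .z (.a .z (.l 10))) (.a (.a .z (.l 10)) (.l 10)))))) (.a (.b (.a (.l 20) (.b (.a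
(.l 20) .z) .z)) (.a (.b (.a (.l 20) .z) .z) (.b (.a .z (.l 10)) (.l 10)))) (.b (.a (.b (.a .z (.l 10)) (.l 10)) (.l 10)) (.l 10)))) (.a (.b (.a (.b
(.a (.b .z (.a .z (.l 10))) (.b (.a .z (.l 10)) (.l 10))) (.l 10)) (.l 10)) (.l 10)) (.l 10))))) (.b (.a (.b (.a (.l 20) (.b (.l 20) (.a (.l 20) (.b
(.l 20) (.a (.b (.l 20) .z) .z))))) (.a (.b (.a (.l 20) (.b (.l 20) (.a (.l 20) (.b (.l 20) .z)))) (.a (.b (.l 20) (.a (.b (.l 20) .z) (.b .z (.a .z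
(.l 10))))) (.b (.a .z (.b .z (.l 10))) (.a (.b (.a .z (.l 10)) (.l 10)) (.l 10))))) (.b (.a (.b (.a (.l 20) (.b (.l 20) .z)) (.a .z (.b (.a .z (.l
10)) (.l 10)))) (.b (.a (.b .z (.a .z (.l 10))) (.l 10)) (.l 10))) (.l 10)))) (.b (.a (.b (.a (.b (.l 20) (.a (.l 20) (.b (.l 20) .z))) (.b (.a (.l
20) .z) (.a .z (.b (.a .z (.l 10)) (.l 10))))) (.a (.b (.a (.b (.l 20) .z) (.b .z (.a .z (.l 10)))) (.a (.b (.a .z (.l 10)) (.l 10)) (.l 10))) (.l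
10))) (.b (.a (.b (.a (.b .z (.l 10)) (.l 10)) (.l 10)) (.l 10)) (.l 10))) (.l 10))) (.a (.b (.a (.b (.a (.b (.a (.b (.a .z (.l 10)) (.l 10)) (.l 10))
(.l 10)) (.l 10)) (.l 10)) (.l 10)) (.l 10)) (.l 10))))) (.a (.b (.b (.a (.l 20) (.a (.b (.l 20) (.a (.l 20) (.b (.a (.l 20) (.b (.l 20) (.a (.l 20)
.z))) (.a (.b (.l 20) .z) (.b .z (.a (.a .z (.l 10)) (.l 10))))))) (.b (.a (.b (.l 20) (.a (.l 20) (.b (.l 20) .z))) (.b (.a (.b (.l 20) (.a (.l 20)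
.z)) (.b (.a (.l 20) .z) (.a .z (.a .z (.l 10))))) (.a (.b .z (.a (.a .z (.l 10)) (.l 10))) (.l 10)))) (.a (.b (.a (.b (.a (.l 20) .z) (.a .z (.a .z
(.l 10)))) (.b (.a .z (.l 10)) (.l 10))) (.l 10)) (.l 10))))) (.a (.b (.b (.a (.l 20) (.a (.l 20) (.b (.l 20) (.a (.l 20) (.a (.l 20) .z))))) (.a (.l
20) (.a (.b (.l 20) (.a (.a (.l 20) .z) .z)) (.b .z (.a (.a .z (.l 10)) (.l 10)))))) (.b (.a (.b (.a (.a (.l 20) .z) .z) .z) (.a (.b (.a (.a .z (.a .z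
(.l 10))) (.l 10)) (.a (.a .z (.l 10)) (.l 10))) (.l 10))) (.a (.l 24) (.a (.b .z (.l 24)) (.b (.a (.a .z (.a .z (.l 10))) (.l 10)) (.a (.a (.l 24)
.z) .z)))))) (.a (.b (.a (.b (.b (.a (.l 20) .z) (.a .z (.a (.a .z (.l 10)) (.l 10)))) (.l 10)) (.b (.a (.b (.a (.a .z (.l 10)) (.l 10)) (.l 10)) (.l
10)) (.l 10))) (.b (.l 10) (.a (.b (.l 10) (.a (.a (.a .z (.l 10)) (.l 10)) (.l 10))) (.l 10)))) (.l 10)))) (.b (.a (.l 24) (.a (.b (.b (.a (.b (.a .z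
(.a .z (.l 10))) (.a (.l 24) .z)) (.b (.l 10) (.a (.a .z (.l 10)) (.l 10)))) (.a (.l 24) (.b (.a .z (.a .z (.l 10))) (.a (.l 24) .z)))) (.l 24)) (.b
(.a (.b (.l 10) (.a (.b (.l 10) (.a .z (.l 10))) (.l 10))) (.l 10)) (.a (.b (.a (.b .z (.l 24)) (.b (.a .z (.l 10)) .z)) (.l 24)) (.b (.a (.b (.l 10)
(.a (.a .z (.l 10)) (.l 10))) (.l 10)) (.a (.b .z (.a (.l 24) .z)) (.b (.l 10) (.a .z (.a .z (.l 10)))))))))) (.a (.l 24) (.a (.l 24) (.b (.a (.l 24)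
(.b (.a (.l 24) (.b (.a (.l 24) .z) (.l 24))) (.l 24))) (.l 24)))))) (.a (.b (.a (.b (.b (.a (.b (.a (.b (.a (.a .z (.l 10)) (.l 10)) (.l 10)) (.l
10)) (.l 10)) (.l 10)) (.l 10)) (.l 10)) (.l 10)) (.b (.l 10) (.a (.b (.a (.b (.a (.b (.a .z (.l 10)) .z) (.l 10)) (.a (.b (.a (.l 24) .z) (.l 24))
(.b (.a .z (.a .z (.l 10))) (.a (.l 24) .z)))) (.b (.l 10) (.a (.b (.l 10) (.a (.a .z (.l 10)) (.l 10))) (.l 10)))) (.a (.l 24) (.b (.a (.b .z (.a (.l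
24) .z)) (.b (.l 10) (.a .z (.l 10)))) (.a (.l 24) (.b .z (.a (.l 24) .z)))))) (.a (.b (.l 10) (.b (.l 10) (.a (.b (.l 10) (.a .z (.l 10))) (.l 10))))
(.l 10))))) (.l 10)))))

theorem vQ39 : ev Q39 I4_0 I5_26 = 1846543479870751 := by decide +kernel

noncomputable def Q235 : QT :=
(.b (.b (.a (.b (.b (.a (.b (.a (.b .z (.a .z (.l 49))) (.b (.a .z (.l 49)) (.l 49))) (.b (.a (.b (.l 49) .z) .z) .z)) (.b (.b (.a (.l 49) (.b (.l 49)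
.z)) (.a (.b (.l 49) .z) .z)) .z)) (.b (.a (.b .z (.a .z (.b .z (.l 55)))) (.b (.a .z (.b .z (.l 55))) (.l 55))) (.l 55))) (.a (.b (.l 55) (.a (.b (.a
(.b (.l 55) .z) (.b (.l 55) .z)) .z) (.b (.b .z (.a .z (.l 56))) (.b (.a (.l 56) .z) .z)))) (.b (.b (.a (.l 55) (.b (.l 55) (.a (.l 55) .z))) (.a (.b
(.l 55) .z) (.b .z (.a .z (.l 56))))) (.b (.a (.b (.a .z (.l 56)) .z) (.b .z (.a .z (.l 61)))) (.a .z (.b .z (.l 106))))))) (.b (.b (.b .z (.a (.b .z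
(.a .z (.l 55))) (.b (.a (.b .z (.l 55)) (.l 55)) (.l 55)))) (.a (.b (.l 55) (.a (.l 55) (.b (.l 55) .z))) (.b (.a (.b (.l 55) (.a (.l 55) .z)) (.b
(.a (.l 55) .z) .z)) (.a (.b .z (.a .z (.l 56))) (.b (.a (.l 56) .z) .z))))) (.b (.a (.b (.a (.b (.a (.l 55) .z) .z) (.b (.a .z (.l 56)) (.a (.l 56)
.z))) (.a (.b (.a (.l 56) .z) .z) (.b .z (.l 61)))) (.b (.a (.b .z (.a .z (.l 61))) (.b (.a .z (.l 61)) (.l 61))) (.l 61))) (.a (.b (.a (.b (.a .z (.l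
61)) (.b (.l 61) .z)) (.b (.l 61) .z)) (.b (.a .z (.l 106)) .z)) (.b (.b (.a (.b (.l 61) .z) .z) .z) (.b .z (.a .z (.l 67)))))))) (.a (.a (.b (.a (.b
(.b (.a (.b .z (.l 41)) .z) (.l 41)) (.b (.b (.l 41) .z) (.l 45))) (.b .z (.a (.b (.b (.l 41) .z) (.l 45)) (.b .z (.l 45))))) (.b (.b (.a (.b (.l 45)
(.b (.l 45) .z)) (.b (.l 45) .z)) (.a .z (.b .z (.l 47)))) (.b (.a (.b (.a .z (.l 47)) (.l 47)) (.b (.a (.l 47) .z) .z)) (.a (.b .z (.a .z (.l 51)))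
(.b (.a .z (.l 51)) (.l 51)))))) (.b (.a (.b (.b .z (.l 67)) (.a .z (.b (.l 67) .z))) (.b (.b (.b .z (.l 67)) (.l 67)) (.b (.b (.l 67) .z) .z))) (.a
(.b (.a (.b (.b (.l 45) .z) (.l 47)) (.b .z (.b (.l 47) .z))) (.b (.b .z (.l 51)) (.l 51))) (.b .z (.a (.b .z (.l 51)) (.b .z (.a (.l 51) .z)))))))
(.a (.b (.b (.b (.b (.a .z (.l 67)) (.l 67)) (.a (.l 67) (.b (.l 67) .z))) .z) (.a (.b (.b .z (.l 79)) (.a (.b (.l 79) .z) .z)) (.b (.b .z (.l 79))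
.z))) (.b (.b (.b (.a (.l 67) (.b (.l 67) .z)) .z) (.b (.a .z (.b .z (.l 73))) .z)) (.b (.b (.b .z (.l 79)) (.a (.b (.l 79) .z) .z)) .z))))) (.a (.b
(.b (.b (.b (.b (.a (.b (.l 51) (.a (.l 51) .z)) (.b (.a (.l 51) .z) .z)) (.a (.b .z (.a .z (.l 53))) (.l 53))) (.b (.l 53) (.a (.l 53) (.b (.a (.l
53) .z) .z)))) (.b (.b (.a (.b (.a (.l 53) .z) .z) (.b (.a .z (.l 57)) (.l 57))) (.a (.b (.a .z (.l 57)) (.l 57)) (.l 57))) (.a (.b (.l 57) (.b (.a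
(.l 57) .z) .z)) (.b (.b (.a (.l 57) .z) .z) .z)))) (.b (.b (.a (.b .z (.a (.b (.l 63) .z) .z)) (.b (.a .z (.b (.l 59) .z)) (.a (.b (.l 59) .z) .z)))
(.a (.b (.a .z (.b (.l 59) .z)) (.a (.b (.l 59) .z) .z)) (.b (.a .z (.l 63)) (.b (.a (.l 63) .z) .z)))) (.b (.a (.b .z (.b (.a .z (.l 65)) (.l 65)))
(.b (.b (.a .z (.l 65)) (.l 65)) (.b (.l 65) (.a (.l 65) .z)))) (.b (.a (.b (.a (.l 65) .z) .z) (.b .z (.l 69))) (.a (.b .z (.l 69)) (.b (.l 69)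
.z)))))) (.b (.b (.b (.a (.b (.b (.l 69) .z) .z) .z) (.a (.b (.a (.l 75) .z) .z) .z)) (.b (.a .z (.b (.a .z (.l 77)) .z)) (.b (.a .z (.b (.l 81) .z))
.z))) (.b (.b (.a (.b .z (.l 87)) (.b (.a (.l 87) .z) .z)) .z) (.b (.a .z (.b .z (.b .z (.l 99)))) (.a (.b (.l 99) (.a (.l 99) .z)) .z))))) (.b (.a
(.b (.a (.b (.a (.b .z (.b (.l 53) .z)) .z) (.b (.b (.l 57) (.b (.l 57) .z)) (.b .z (.b .z (.l 59))))) .z) (.a (.b (.b (.b .z (.l 63)) (.b (.b (.l 63)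
.z) (.b .z (.l 65)))) (.b (.b (.l 65) .z) (.b (.l 69) .z))) (.b (.a (.b (.b .z (.l 63)) (.b .z (.l 65))) (.b .z (.b .z (.l 65)))) (.b (.b (.b (.l 65)
.z) .z) .z)))) (.b (.b (.b (.a (.b .z (.l 91)) (.b (.l 91) .z)) .z) (.b .z (.b (.b .z (.l 103)) (.a (.l 103) .z)))) (.a .z (.b (.b .z (.b .z (.l
115))) .z)))) (.a (.b (.b (.b .z (.b .z (.b .z (.l 77)))) .z) .z) (.b (.a (.b (.b (.b .z (.l 75)) (.b .z (.l 77))) .z) .z) (.b (.b (.b .z (.b (.l 89)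
.z)) .z) .z))))))

theorem vQ235 : ev Q235 I6_41 I5_30 = 159740564697267 := by decide +kernel

noncomputable def Q252 : QT :=
(.a (.b (.a (.b .z (.a (.b (.a (.b .z (.b .z (.a .z (.a .z (.l 219))))) (.b .z (.b (.b (.b .z (.l 219)) (.a (.l 219) .z)) (.a (.b (.l 219) .z) .z))))
.z) (.b .z (.a (.b .z (.a .z (.b .z (.a (.b .z (.a .z (.l 37))) (.b (.a .z (.l 37)) (.l 37)))))) (.b (.a .z (.b .z (.a (.b .z (.a (.l 37) .z)) (.b (.a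
(.l 37) .z) .z)))) (.a (.b (.a (.b .z (.a .z (.l 37))) (.b (.a .z (.l 37)) (.l 37))) (.a (.l 37) (.a (.b (.l 37) .z) .z))) (.a (.b (.a (.b (.l 37) .z)
.z) .z) .z))))))) .z) (.a (.b (.a (.b (.a (.b .z (.a .z (.b .z (.a .z (.b .z (.l 37)))))) (.b (.a .z (.b .z (.a .z (.b (.a .z (.l 37)) (.l 37))))) (.a
(.b (.a .z (.b .z (.l 37))) (.l 37)) (.l 37)))) (.a (.b (.a (.b (.a .z (.b .z (.a .z (.l 37)))) (.a (.b (.a .z (.l 37)) (.l 37)) (.l 37))) (.b (.a (.b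
(.a .z (.l 37)) (.l 37)) (.l 37)) (.l 37))) (.l 37)) (.l 37))) (.b (.a (.b (.a (.b (.a (.b .z (.a .z (.l 37))) (.b (.a .z (.l 37)) (.l 37))) (.l 37))
(.a (.l 37) (.b (.l 37) (.a (.l 37) (.b (.l 37) .z))))) (.a (.l 37) (.a (.b (.l 37) (.a (.l 37) .z)) (.b (.a (.b (.l 37) .z) .z) .z)))) (.a (.b (.a
(.b (.a (.b (.l 37) .z) .z) .z) .z) .z) .z)) (.a (.a (.a (.l 37) (.b (.a (.l 37) (.b (.l 37) (.a (.l 37) .z))) (.a (.b (.a (.l 37) .z) .z) .z))) (.a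
(.b (.a (.b (.a (.l 37) .z) .z) .z) .z) (.b (.b (.l 175) .z) (.b .z (.b .z (.l 101)))))) (.b .z (.b (.a (.b .z (.a .z (.l 101))) (.b .z (.l 101))) (.l
101)))))) (.a (.b (.a (.l 37) (.a (.l 37) (.a (.l 37) (.a (.l 37) (.b (.l 37) (.a (.l 37) (.b (.l 37) .z))))))) (.a (.l 37) (.b (.a (.l 37) (.b (.a
(.l 37) (.a (.l 37) (.a (.l 37) .z))) (.a (.l 37) (.b (.a (.l 37) .z) (.a (.l 37) .z))))) (.a (.b (.l 37) (.a (.b (.l 37) .z) .z)) (.b (.a (.b (.a (.l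
37) .z) .z) (.b .z (.l 73))) (.a (.b .z (.l 73)) (.l 73))))))) (.b (.a (.b (.a (.a (.a (.l 37) (.b (.a (.l 37) .z) .z)) .z) (.b (.b (.a .z (.l 101))
.z) .z)) (.a (.a .z (.b .z (.b .z (.l 101)))) .z)) (.b (.a (.b (.l 101) (.a .z (.b (.l 101) .z))) (.b (.l 101) (.a (.l 101) .z))) .z)) (.a (.b (.a (.b
(.a .z (.b (.l 101) .z)) .z) .z) (.b (.b .z (.a (.b .z (.l 73)) .z)) (.a (.a (.l 73) (.a (.l 73) .z)) .z))) (.b (.b .z (.a .z (.a .z (.l 185)))) (.b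
(.b (.a .z (.l 185)) (.a .z (.l 185))) .z)))))) (.b (.a (.b .z (.a (.b (.b (.a .z (.b (.a .z (.l 119)) (.l 119))) (.a (.b (.a .z (.l 119)) (.l 119))
(.l 119))) (.a (.b (.b (.b (.l 119) .z) (.b .z (.l 101))) (.l 101)) (.b (.b (.l 119) .z) (.a (.b (.l 101) .z) .z)))) (.b (.a (.a (.a (.a (.l 119) .z)
.z) .z) .z) .z))) .z) (.a (.b (.a (.b (.a (.b (.a (.b (.l 101) .z) .z) .z) .z) .z) (.b (.b (.a .z (.b (.l 263) .z)) .z) .z)) (.b .z (.b (.a (.a (.a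
(.l 185) .z) .z) .z) (.a (.b (.a (.l 185) .z) .z) .z)))) (.b (.b .z (.a (.a .z (.b .z (.a .z (.l 191)))) (.a (.b (.a (.l 191) .z) (.a (.l 191) .z))
.z))) (.b (.a (.a .z (.b (.a (.l 191) .z) .z)) .z) (.b .z (.a (.b .z (.a .z (.b .z (.l 87)))) (.b (.a .z (.b .z (.l 87))) (.l 87)))))))))) (.b .z (.a
(.b .z (.a (.a (.b .z (.a (.b .z (.b (.b .z (.b .z (.l 87))) (.l 87))) (.b (.b (.a .z (.l 201)) .z) (.a (.b (.b .z (.l 87)) (.a (.l 87) .z)) (.b (.a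
(.l 87) .z) .z))))) .z) (.b .z (.a .z (.b .z (.a (.b .z (.b .z (.a .z (.l 93)))) .z)))))) .z)))

theorem vQ252 : ev Q252 I4_12 I4_12 = 325201694092561 := by decide +kernel

noncomputable def Q155 : QT :=
(.b (.b (.a (.b (.a (.b (.a (.b (.a (.b (.b (.l 29) .z) .z) (.b (.l 29) .z)) (.a .z (.b .z (.l 29)))) (.b (.a (.b .z (.a .z (.l 29))) (.b (.a .z (.l
29)) (.l 29))) (.l 29))) (.b (.l 29) (.b (.l 29) (.b .z (.a (.a .z (.l 29)) (.l 29)))))) (.b (.l 29) (.b (.l 29) (.b (.b (.l 29) .z) (.b (.a (.a .z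
(.l 29)) (.l 29)) (.l 29)))))) (.b (.b (.l 29) (.b (.l 29) (.a (.l 29) (.b (.l 29) (.a (.l 29) .z))))) (.b (.b (.a (.b (.a (.l 29) .z) .z) (.b .z (.l
33))) (.l 33)) (.l 33)))) (.b (.b (.l 29) (.b (.b (.l 29) (.a (.l 29) (.b (.a (.l 29) (.a (.l 29) .z)) .z))) (.b (.a (.b .z (.a (.a .z (.l 29)) (.l
29))) (.b (.a (.a .z (.l 29)) (.l 29)) (.l 29))) (.l 29)))) (.b (.b (.l 29) (.b (.a (.l 29) (.b (.l 29) (.a (.a (.l 29) .z) .z))) (.a (.b (.a (.a (.l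
29) .z) .z) (.a .z (.l 33))) (.b (.a .z (.l 33)) (.l 33))))) (.l 33)))) (.b (.b (.a (.b (.a (.b (.a .z (.l 33)) (.a (.b .z (.l 35)) .z)) (.b (.l 33)
(.a (.b (.l 33) .z) (.l 33)))) (.a (.l 35) (.b (.a .z (.b (.l 33) .z)) (.a (.l 35) (.b .z (.l 35)))))) (.b (.l 33) (.a (.b (.l 33) (.a .z (.l 33)))
(.l 33)))) (.a (.l 35) (.b (.a (.b (.a (.b .z (.l 35)) .z) (.l 35)) (.b (.a (.b (.l 33) .z) (.l 33)) (.a .z (.b (.l 33) .z)))) (.a (.b (.l 35) (.b (.l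
35) .z)) (.b (.a (.l 35) .z) (.b .z (.a .z (.l 35)))))))) (.a (.b (.b (.b (.b (.a (.l 35) .z) (.a .z (.a .z (.l 35)))) (.l 35)) (.b (.l 35) (.b (.a
(.l 35) (.a (.l 35) .z)) (.a (.a (.l 35) .z) .z)))) (.b (.b (.b (.a .z (.l 39)) (.l 39)) (.l 39)) (.l 39))) (.b (.b (.b (.b (.a (.a .z (.l 35)) (.l
35)) (.l 35)) (.l 35)) (.b (.b (.a (.l 35) (.a (.l 35) .z)) (.a (.a (.l 35) .z) .z)) (.b (.a .z (.l 39)) (.l 39)))) (.a (.l 39) (.b (.l 39) (.a (.l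
39) (.b (.l 39) (.a (.l 39) .z))))))))) (.b (.b (.a (.b (.b (.l 39) (.a (.b (.l 39) (.a (.b (.l 39) .z) (.l 39))) (.l 39))) (.a (.b (.b (.a (.b .z (.l
41)) .z) (.a (.l 41) (.b .z (.l 41)))) (.b (.b (.a (.l 41) .z) .z) (.l 45))) (.b (.a (.b (.l 39) .z) (.b (.l 39) .z)) (.a (.b (.b .z (.l 45)) .z) (.b
.z (.a .z (.l 43))))))) (.b (.a (.b (.l 39) (.a (.b (.l 39) (.a (.l 39) .z)) (.b (.a (.l 39) .z) .z))) (.b (.a (.b (.a (.l 39) .z) .z) (.b .z (.l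
40))) (.a (.b .z (.l 43)) (.b .z (.b .z (.l 43)))))) (.a (.b (.a (.b .z (.a .z (.l 43))) (.l 43)) (.l 43)) (.l 43)))) (.a (.b (.a (.b (.a (.l 45) (.b
(.a (.l 45) .z) .z)) (.a (.b (.a (.l 45) .z) .z) (.b .z (.l 43)))) (.b (.a (.b (.a .z (.l 43)) (.l 43)) (.l 43)) (.b (.b .z (.a .z (.l 43))) (.l
43)))) (.a (.b (.a .z (.b .z (.b (.l 47) .z))) (.b (.a (.l 49) (.b .z (.l 49))) (.l 49))) (.b (.b (.b .z (.l 47)) (.l 47)) (.b (.a .z (.b (.l 47) .z))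
(.a (.l 49) (.b .z (.l 49))))))) (.b (.b (.b (.l 43) (.b (.a (.l 43) (.a (.l 43) .z)) (.a (.a (.l 43) .z) .z))) (.b (.b (.a .z (.l 43)) (.l 43)) (.b
(.a (.l 43) (.a (.l 43) .z)) .z))) (.b (.b (.b (.a (.a .z (.l 47)) (.l 47)) (.l 47)) (.l 47)) (.a (.b (.l 47) (.a .z (.b (.l 47) .z))) (.l 47))))))
(.b (.a (.b (.b (.l 49) (.b (.b (.l 49) (.a (.a (.l 49) .z) .z)) (.b (.a .z (.l 49)) (.a (.l 49) (.a (.l 49) .z))))) (.b (.b (.b .z (.a (.a .z (.l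
53)) (.l 53))) (.l 53)) (.b (.l 53) (.a (.b (.l 53) (.a .z (.l 53))) (.l 53))))) (.b (.b (.a (.b (.a (.l 49) .z) (.l 49)) (.b (.a (.b (.l 47) .z) (.l
47)) (.a (.b .z (.l 49)) .z))) (.b (.b .z (.a (.a .z (.l 49)) (.l 49))) (.b (.a (.l 49) .z) (.a .z (.a .z (.l 53)))))) (.a (.b (.l 53) (.a (.l 53) (.b
(.l 53) (.a (.l 53) .z)))) (.b (.a (.l 53) (.b (.l 53) .z)) (.a (.b (.a (.l 53) .z) .z) (.b (.a .z (.l 57)) (.l 57))))))) (.a (.b (.a (.b (.b (.b .z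
(.a (.l 55) .z)) (.b .z (.l 55))) (.b (.b .z (.a .z (.l 59))) (.l 59))) (.b (.b (.b (.l 53) (.a .z (.l 53))) (.b .z (.a (.l 55) .z))) (.a (.b (.b .z
(.l 59)) (.a (.l 59) .z)) .z))) (.a (.b (.a (.b (.l 59) (.a (.l 59) .z)) (.b (.a (.l 59) .z) .z)) .z) .z)) (.b (.a (.b (.a (.b (.a (.l 53) .z) .z) (.b
.z (.a .z (.l 57)))) .z) (.b (.l 57) .z)) (.a (.b (.a (.b (.b (.l 57) .z) (.l 61)) .z) (.a .z (.b .z (.b .z (.l 63))))) (.b (.a .z (.b (.l 57) (.b .z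
(.l 57)))) (.b (.b .z (.l 61)) (.b (.a .z (.l 61)) .z)))))))))

theorem vQ155 : ev Q155 I6_25 I5_30 = 357150253907706 := by decide +kernel

noncomputable def Q225 : QT :=
(.a (.b (.a (.a (.b (.b (.a (.l 34) (.b (.a (.l 34) (.b (.l 34) (.a (.l 34) .z))) (.a (.b (.l 34) (.a (.l 34) .z)) (.b .z (.a .z (.l 55)))))) (.a (.b
(.a (.l 34) (.b (.a (.l 34) .z) .z)) (.a (.b (.a (.l 34) .z) .z) (.b (.a .z (.l 55)) (.l 55)))) (.b (.a (.b .z (.l 55)) (.l 55)) (.l 55)))) (.l 55))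
(.a (.b (.b (.b (.a (.b (.a (.l 34) .z) .z) (.b (.a .z (.l 55)) (.l 55))) (.l 55)) (.l 55)) (.l 55)) (.b (.a (.l 55) (.b (.l 55) (.a (.l 55) (.b (.l
55) (.a (.l 55) .z))))) (.a (.b (.l 55) (.a (.b (.l 55) (.a (.l 55) .z)) .z)) (.b (.a (.b (.l 55) .z) .z) (.a .z (.b (.l 91) .z))))))) (.a (.b (.a (.b
(.a (.b (.l 55) (.a (.l 55) (.b (.l 55) .z))) (.b (.a (.b (.l 55) .z) .z) .z)) (.a (.a (.b (.a (.l 55) .z) .z) (.b .z (.l 91))) (.l 91))) (.b (.b .z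
(.b .z (.l 91))) (.l 91))) (.b (.a (.b (.l 91) (.a (.l 91) (.b (.l 91) .z))) (.b (.a (.l 91) (.b (.l 91) .z)) .z)) (.a (.b (.a (.b (.l 91) .z) .z) .z)
.z))) (.b (.b (.a (.b .z (.b .z (.a (.l 91) .z))) .z) (.a (.b (.a (.l 91) (.a (.l 91) .z)) (.a (.b (.l 91) .z) .z)) .z)) .z))) (.a (.a (.a (.l 55) (.b
(.l 55) (.a (.l 55) (.b (.l 55) (.a (.l 55) (.b (.l 55) .z)))))) (.a (.b (.a (.b (.l 55) (.a (.l 55) (.b (.l 55) (.a (.l 55) .z)))) (.b (.a (.l 55)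
(.b (.a (.l 55) .z) .z)) .z)) (.a (.b (.a (.b (.l 55) (.a (.l 55) .z)) .z) .z) .z)) (.b .z (.b (.b .z (.b (.a .z (.l 91)) .z)) (.b .z (.b .z (.l
145))))))) (.b (.a (.b (.b (.a (.b (.l 243) .z) .z) .z) .z) .z) (.a (.b .z (.b (.b .z (.a .z (.b .z (.l 123)))) (.a (.b .z (.l 145)) (.b (.a .z (.l
123)) .z)))) (.b .z (.a (.b (.b .z (.b .z (.l 123))) (.b (.l 123) (.a .z (.l 123)))) (.b (.b .z (.l 123)) (.a (.b (.l 123) .z) .z)))))))) (.b (.a (.b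
(.a (.b .z (.a .z (.b (.a .z (.l 167)) .z))) (.b (.b .z (.a (.a (.l 167) .z) .z)) .z)) (.a .z (.a (.b .z (.a .z (.b .z (.l 167)))) (.b (.a .z (.b .z
(.l 191))) .z)))) (.b (.b .z (.a (.a .z (.b (.l 225) (.b (.l 225) .z))) .z)) (.a (.b (.a (.b .z (.a (.l 191) .z)) .z) .z) (.b .z (.a (.b .z (.a (.b .z
(.a .z (.l 37))) (.l 37))) (.b (.a (.b .z (.l 37)) (.l 37)) (.l 37))))))) (.a (.b (.a .z (.b (.a (.b (.l 167) .z) .z) (.a (.b (.b .z (.l 252)) .z) (.b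
(.a .z (.b .z (.a .z (.l 37)))) (.a (.b (.a .z (.l 37)) (.l 37)) (.l 37)))))) (.a .z (.b (.a (.b (.a .z (.b (.l 37) (.b (.l 37) .z))) .z) (.b (.l 37)
(.b (.a .z (.l 37)) .z))) (.b (.a .z (.b .z (.a .z (.l 113)))) (.a .z (.a .z (.a (.l 113) .z))))))) (.b (.a (.b (.a (.b .z (.a .z (.b .z (.l 37))))
(.b (.a (.b .z (.a .z (.l 37))) (.b (.a .z (.l 37)) (.l 37))) (.l 37))) (.a (.b (.a (.b (.a .z (.l 37)) (.l 37)) (.l 37)) (.l 37)) (.l 37))) (.l 37))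
(.b (.l 37) (.a (.a (.b (.b (.a .z (.l 37)) .z) .z) (.b (.l 37) (.a .z (.b (.l 37) .z)))) (.l 37)))))))

theorem vQ225 : ev Q225 I5_23 I5_25 = 370500912111178 := by decide +kernel

noncomputable def Q47 : QT :=
(.a (.b (.a (.b (.b (.a (.b (.a (.l 34) (.b (.a (.l 34) .z) (.l 34))) (.l 34)) (.b (.a (.b (.a .z (.l 30)) .z) (.l 30)) (.a (.b (.a (.l 34) .z) (.l
34)) (.b (.a .z (.l 30)) .z)))) (.a (.l 34) (.b (.a (.l 34) (.b (.a (.l 34) .z) (.l 34))) (.l 34)))) (.b (.a (.b (.a (.b (.l 34) (.a .z (.l 34))) (.l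
34)) (.a (.b .z (.a (.l 38) .z)) (.b (.l 34) (.a .z (.l 34))))) (.l 34)) (.a (.b (.a (.l 38) (.b .z (.a (.l 38) .z))) (.l 38)) (.a (.b (.b (.l 34) .z)
(.a (.l 38) .z)) (.b (.l 34) (.a (.b (.l 34) .z) (.l 34))))))) (.b (.a (.b (.l 30) (.a (.b (.a .z (.b (.l 30) .z)) (.a (.l 34) (.b .z (.l 34)))) (.b
(.l 30) (.a .z (.b (.l 30) .z))))) (.l 30)) (.a (.b (.a (.l 34) (.b (.a (.l 34) (.b .z (.l 34))) (.l 34))) (.l 34)) (.b (.a (.b (.a (.b (.a .z (.l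
30)) .z) (.b (.l 30) (.a .z (.l 30)))) (.a (.l 34) (.b .z (.l 34)))) (.b (.l 30) (.a (.b (.a .z (.l 30)) .z) (.l 30)))) (.a (.l 34) (.b (.a (.b .z (.l
34)) .z) (.l 34))))))) (.a (.b (.a (.b (.b (.l 38) (.a (.b (.l 38) (.a .z (.l 38))) (.l 38))) (.b (.a (.b .z (.a (.l 42) .z)) (.b (.l 38) (.a .z (.l
38)))) (.a (.l 42) (.a (.b .z (.l 42)) .z)))) (.b (.a (.l 38) (.b (.a (.b .z (.l 38)) .z) (.l 38))) (.a (.b (.l 38) (.a (.b (.l 38) .z) (.l 38))) (.l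
38)))) (.a (.b (.l 42) (.a (.b (.b (.a .z (.l 42)) .z) (.a (.l 46) (.b .z (.l 46)))) (.b (.l 42) (.a .z (.b (.l 42) .z))))) (.b (.a (.b (.a (.b .z (.l
42)) .z) (.l 42)) (.b (.a (.b (.l 38) .z) (.l 38)) (.a (.b .z (.l 42)) .z))) (.a (.l 42) (.b (.a (.l 42) (.b .z (.l 42))) (.l 42)))))) (.b (.a (.b (.a
(.b (.a (.b (.l 34) .z) (.l 34)) (.a (.b .z (.l 38)) .z)) (.b (.l 34) (.a (.b (.l 34) .z) (.l 34)))) (.a (.l 38) (.b (.a (.b .z (.l 38)) .z) (.l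
38)))) (.b (.l 34) (.a (.b (.a (.b (.l 34) .z) (.l 34)) (.a .z (.b (.l 34) .z))) (.l 34)))) (.a (.b (.l 38) (.a (.b (.a .z (.b (.l 38) .z)) (.a (.l
42) (.b .z (.l 42)))) (.b (.l 38) (.a .z (.b (.l 38) .z))))) (.b (.a (.b (.a (.l 38) (.b .z (.l 38))) (.l 38)) (.b (.a .z (.b (.l 34) .z)) (.a (.l 38)
.z))) (.l 38)))))) (.b (.a (.b (.a (.b (.a (.l 30) (.b (.a (.b (.a (.l 30) .z) (.l 30)) (.b (.a .z (.l 26)) .z)) (.l 30))) (.l 30)) (.b (.a (.b (.a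
(.b (.l 26) (.a .z (.l 26))) (.l 26)) (.a (.b .z (.a (.l 30) .z)) (.b (.l 26) .z))) (.l 26)) (.a (.b (.a (.l 30) (.b (.a (.l 30) .z) (.l 30))) (.l
30)) (.b (.a (.b (.a .z (.l 26)) .z) (.b (.l 26) (.a .z (.l 26)))) (.a (.l 30) (.b .z (.a (.l 30) .z))))))) (.a (.b (.l 30) (.a (.b (.a (.b (.l 30)
(.a .z (.l 30))) (.l 30)) (.a (.b .z (.l 34)) (.b (.a .z (.l 30)) .z))) (.l 30))) (.l 30))) (.b (.a (.b (.l 26) (.a (.b (.l 26) (.a (.b (.l 26) .z)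
(.l 26))) (.l 26))) (.l 26)) (.a (.b (.a (.b (.a (.b (.a (.l 30) .z) (.l 30)) (.b (.a .z (.l 26)) .z)) (.a (.l 30) (.b (.a (.l 30) .z) (.l 30)))) (.b
(.l 26) (.a (.b .z (.a (.l 30) .z)) (.b (.l 26) (.a .z (.l 26)))))) (.a (.l 30) (.b (.a (.l 30) (.b .z (.a (.l 30) .z))) (.l 30)))) (.b (.l 26) (.a
(.b (.a (.b (.l 26) (.a .z (.l 26))) (.l 26)) (.a (.b .z (.l 30)) (.b (.a .z (.l 26)) .z))) (.l 26)))))) (.a (.b (.a (.b (.a (.b (.a (.l 34) (.b .z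
(.l 34))) (.l 34)) (.b (.a .z (.b (.l 30) (.a .z (.l 30)))) (.a (.l 34) (.b .z (.l 34))))) (.l 34)) (.b (.a (.b (.l 30) (.a (.b (.a .z (.l 30)) .z)
(.l 30))) (.l 30)) (.a (.b (.a (.b .z (.l 34)) (.b (.a .z (.l 30)) .z)) (.l 34)) (.b (.a (.b (.l 30) (.a .z (.l 30))) (.l 30)) (.a .z (.b (.l 30) (.a
.z (.l 30)))))))) (.a (.b (.a (.b (.l 34) (.a (.b (.l 34) .z) (.l 34))) (.l 34)) (.a (.b (.a (.b .z (.l 38)) .z) (.a (.l 38) (.b .z (.l 38)))) (.b (.l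
34) (.a .z (.b (.l 34) .z))))) (.b (.a (.l 34) (.b (.a (.l 34) .z) (.l 34))) (.l 34)))) (.b (.a (.l 30) (.b (.a (.b (.a (.l 30) (.b (.a (.l 30) .z)
(.l 30))) (.l 30)) (.b (.a (.b (.a .z (.l 26)) .z) (.l 26)) (.a (.b (.a (.l 30) .z) (.l 30)) (.b (.a .z (.l 26)) .z)))) (.a (.l 30) (.b (.a (.l 30)
(.b (.a (.l 30) .z) (.l 30))) (.l 30))))) (.a (.b (.a (.b (.a (.b (.l 30) (.a .z (.l 30))) (.l 30)) (.a (.b .z (.l 34)) (.b (.a .z (.l 30)) .z))) (.l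
30)) (.a (.b (.a (.l 34) (.b .z (.l 34))) (.l 34)) (.b (.a (.b (.a .z (.l 30)) .z) (.l 30)) (.a (.b .z (.l 34)) (.b (.a .z (.l 30)) .z))))) (.l
30))))))

theorem vQ47 : ev Q47 I5_1 I6_59 = 418899127807367 := by decide +kernel

noncomputable def Q80 : QT :=
(.a (.b (.a (.b (.a (.a (.b (.l 58) (.a (.l 58) (.b (.l 58) (.a (.l 58) (.b (.l 58) (.a (.l 58) .z)))))) (.b (.a (.b (.l 58) (.a (.l 58) (.b (.l 58)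
(.a (.l 58) .z)))) (.b (.a (.b (.l 58) (.a (.l 58) .z)) (.b .z (.a .z (.l 61)))) (.a (.b .z (.a .z (.l 61))) (.l 61)))) (.a (.b (.a (.b (.l 58) (.a
(.l 58) .z)) (.b .z (.a .z (.l 61)))) (.a (.b .z (.a .z (.l 61))) (.l 61))) (.b (.l 61) (.a (.l 61) (.b (.l 61) (.a (.l 61) .z))))))) (.a (.b (.a (.l
61) (.b (.l 61) (.a (.l 61) (.b (.l 61) (.a (.l 61) .z))))) (.a (.b (.a (.l 61) (.b (.l 61) (.a (.l 61) .z))) (.a (.b (.a (.l 61) .z) .z) (.b .z (.l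
57)))) (.b (.a (.b (.a (.l 61) .z) .z) (.b .z (.l 57))) (.l 57)))) (.b (.a (.b (.a (.l 61) (.b (.l 61) (.a (.l 61) .z))) (.a (.b (.a (.l 61) .z) .z)
(.b .z (.l 57)))) (.b .z (.b (.a (.l 57) (.b .z (.l 57))) (.l 57)))) (.l 57)))) (.a (.b (.a (.a (.b (.l 58) (.a (.l 58) (.b (.l 58) (.a (.l 58) .z))))
(.b (.a (.b (.l 58) (.a (.l 58) .z)) (.b .z (.a .z (.l 61)))) (.a (.b .z (.a .z (.l 61))) (.l 61)))) (.a (.b (.l 61) (.a (.b (.l 61) .z) (.b .z (.a .z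
(.l 57))))) (.b (.a (.b (.a (.l 61) .z) .z) (.b .z (.l 57))) (.a (.b (.a .z (.l 57)) (.l 57)) (.l 57))))) (.a (.b (.a (.a (.b (.l 58) (.a (.l 58) .z))
(.b .z (.a .z (.l 61)))) (.a (.b (.l 61) .z) (.b .z (.a .z (.l 57))))) (.a .z (.b (.a (.a .z (.l 57)) (.b (.l 57) .z)) (.a (.b .z (.a .z (.b .z (.l
6)))) (.b (.a .z (.b .z (.l 6))) (.l 6)))))) (.b (.a (.b (.a (.a .z (.l 57)) (.l 57)) (.a (.l 57) (.b (.l 57) .z))) (.b (.a (.l 57) (.b (.l 57) .z))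
(.a (.b .z (.a (.b .z (.a .z (.l 6))) (.b (.a .z (.l 6)) (.l 6)))) (.b (.a (.b .z (.a .z (.l 6))) (.b (.a .z (.l 6)) (.l 6))) (.l 6))))) (.a (.b (.a
(.b .z (.a .z (.b .z (.l 6)))) (.b (.a .z (.b (.a .z (.l 6)) (.l 6))) (.l 6))) (.l 6)) (.l 6))))) (.b (.a (.b (.l 57) (.a (.b (.l 57) (.a (.l 57) (.b
(.l 57) .z))) (.b (.a (.l 57) (.b (.l 57) (.a .z (.b .z (.a .z (.l 6)))))) (.a (.b .z (.a (.b .z (.l 6)) (.l 6))) (.b (.a (.b .z (.l 6)) (.l 6)) (.l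
6)))))) (.b (.a (.b (.l 57) (.a (.l 57) (.b .z (.a .z (.b .z (.a .z (.l 6))))))) (.b (.a (.b (.l 57) .z) (.b .z (.a .z (.b (.a .z (.l 6)) (.l 6)))))
(.a (.b (.a .z (.b .z (.l 6))) (.l 6)) (.l 6)))) (.a (.b (.a (.b (.a .z (.b .z (.a .z (.l 6)))) (.a (.b (.a .z (.l 6)) (.l 6)) (.l 6))) (.b (.a (.b
(.a .z (.l 6)) (.l 6)) (.l 6)) (.l 6))) (.l 6)) (.l 6)))) (.a (.b (.a (.b (.a (.b .z (.a (.b .z (.a .z (.l 6))) (.b (.a .z (.l 6)) (.l 6)))) (.b (.a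
(.b .z (.l 6)) (.l 6)) (.l 6))) (.l 6)) (.l 6)) (.l 6)) (.l 6))))) (.b (.a (.b (.a (.b (.a .z (.a .z (.l 88))) (.a (.b .z (.a (.b .z (.l 57)) .z)) (.a
.z (.a .z (.l 88))))) (.b (.l 88) (.a (.l 88) (.b (.l 88) (.a (.l 88) .z))))) (.a (.b (.a (.b (.a (.l 57) (.b .z (.l 57))) (.l 57)) (.b .z (.a (.b .z
(.l 57)) .z))) (.a (.b (.l 57) (.a (.b (.l 57) .z) (.b .z (.a (.b .z (.a .z (.l 6))) (.b (.a .z (.l 6)) (.l 6)))))) (.b (.a (.b (.l 57) .z) (.b (.a .z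
(.b .z (.a .z (.l 6)))) (.a (.b .z (.l 6)) (.l 6)))) (.a (.b (.a (.b .z (.l 6)) (.l 6)) (.l 6)) (.l 6))))) (.b (.a (.b (.a (.l 88) .z) (.a (.b .z (.a
.z (.b .z (.a .z (.l 6))))) (.b (.a .z (.b .z (.l 6))) (.l 6)))) (.b (.a (.b .z (.a .z (.b (.a .z (.l 6)) (.l 6)))) (.b (.a (.b .z (.a .z (.l 6))) (.b
(.a .z (.l 6)) (.l 6))) (.l 6))) (.l 6))) (.a (.b (.a (.b (.a (.b (.a .z (.l 6)) (.l 6)) (.l 6)) (.l 6)) (.l 6)) (.l 6)) (.l 6))))) (.b (.a (.b (.a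
(.l 88) (.b (.l 88) (.a .z (.b .z (.a .z (.b .z (.l 6))))))) (.a (.b (.a (.l 88) (.b .z (.a .z (.b .z (.a .z (.l 6)))))) (.a (.b .z (.a (.b .z (.l 6))
(.l 6))) (.b (.a (.b .z (.l 6)) (.l 6)) (.l 6)))) (.b (.a (.b (.a .z (.b .z (.a .z (.l 6)))) (.a (.b (.a .z (.l 6)) (.l 6)) (.l 6))) (.l 6)) (.l 6))))
(.b (.a (.b (.a .z (.b .z (.a (.b .z (.a .z (.l 6))) (.l 6)))) (.a (.b (.a (.b .z (.a .z (.l 6))) (.b (.a .z (.l 6)) (.l 6))) (.l 6)) (.l 6))) (.b (.a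
(.b (.a (.b .z (.l 6)) (.l 6)) (.l 6)) (.l 6)) (.l 6))) (.l 6))) (.l 6))) (.a (.b (.a (.b (.a (.b (.a (.b (.a (.b .z (.a .z (.l 6))) (.b (.a .z (.l
6)) (.l 6))) (.l 6)) (.l 6)) (.l 6)) (.l 6)) (.l 6)) (.l 6)) (.l 6)) (.l 6)))) (.a (.b (.a (.b (.a (.b (.a (.b (.a (.b .z (.a .z (.b .z (.a .z (.l
6))))) (.b (.a .z (.b .z (.l 6))) (.a (.b (.a .z (.l 6)) (.l 6)) (.l 6)))) (.a (.b (.a (.b (.a .z (.l 6)) (.l 6)) (.l 6)) (.l 6)) (.l 6))) (.l 6)) (.l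
6)) (.l 6)) (.l 6)) (.l 6)) (.l 6)) (.l 6))) (.l 6))

theorem vQ80 : ev Q80 I4_2 I5_23 = 1874080547556356 := by decide +kernel

noncomputable def Q263 : QT :=
(.a (.b (.a (.b (.a (.b (.a (.b (.b (.b (.l 43) .z) (.b (.a .z (.l 17)) (.l 17))) (.a (.l 17) (.b (.a (.l 17) (.b (.l 17) .z)) (.a (.b (.l 17) .z)
.z)))) (.b (.a (.b (.b .z (.b .z (.l 17))) (.a (.l 17) .z)) (.b .z (.a (.b .z (.l 31)) (.l 31)))) (.a (.b (.a .z (.b .z (.l 31))) (.l 31)) (.l 31))))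
(.a (.b (.a (.b (.a (.b (.l 17) .z) .z) (.a .z (.l 31))) (.b (.a (.b .z (.l 31)) (.l 31)) (.l 31))) (.l 31)) (.l 31))) (.b (.a (.b (.a (.b (.a (.b .z
(.l 31)) (.l 31)) (.l 31)) (.l 31)) (.l 31)) (.l 31)) (.l 31))) (.l 31)) (.b (.l 31) (.b (.l 31) (.a (.l 31) (.b (.l 31) (.a (.l 31) (.b (.l 31) (.a
(.l 31) (.b (.l 31) (.a (.l 31) .z)))))))))) (.b (.a (.b (.l 31) (.a (.b (.l 31) (.a (.l 31) (.b (.a (.l 31) (.b (.l 31) (.a (.l 31) .z))) (.a (.b (.a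
(.l 31) .z) .z) (.b .z (.l 19)))))) (.b (.a (.b (.l 31) (.a (.l 31) (.b (.l 31) (.a (.l 31) .z)))) (.b (.a (.l 31) (.b (.l 31) .z)) (.a (.b (.a (.l
31) .z) .z) (.b (.a .z (.l 19)) (.l 19))))) (.a (.b (.a (.b (.a (.l 31) .z) .z) (.b .z (.l 19))) (.l 19)) (.l 19))))) (.b (.a (.b (.l 31) (.a (.b (.l
31) (.a (.l 31) (.b (.l 31) .z))) (.b (.a (.b (.l 31) (.a (.l 31) .z)) (.b (.a (.l 31) .z) .z)) .z))) (.b (.a (.b (.l 31) (.a (.b (.l 31) (.a (.l 31)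
.z)) .z)) (.b (.a (.b (.l 31) .z) .z) .z)) (.a (.b (.a .z (.l 111)) (.b .z (.b (.a .z (.l 19)) (.l 19)))) (.b (.b (.l 111) .z) (.b (.b (.a .z (.l 19))
(.l 19)) (.l 19)))))) (.a (.b (.a (.b (.a (.b .z (.a .z (.l 19))) (.b .z (.l 19))) (.l 19)) (.b (.b (.b (.a .z (.l 19)) (.l 19)) (.l 19)) (.l 19)))
(.l 19)) (.l 19)))) (.a (.b (.a (.b (.a (.b (.a (.b (.l 31) .z) (.b .z (.a .z (.l 19)))) (.a (.b (.a .z (.l 19)) (.l 19)) (.l 19))) (.b (.a (.b (.a .z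
(.l 19)) (.l 19)) (.l 19)) (.l 19))) (.l 19)) (.l 19)) (.l 19)) (.l 19)))) (.b (.b (.a (.a (.a (.a (.l 31) (.a (.l 31) (.b (.a (.l 31) (.b .z (.l
31))) (.l 31)))) (.a (.a (.a (.b .z (.b .z (.l 31))) .z) .z) .z)) (.a (.b .z (.a (.b .z (.a .z (.b .z (.l 58)))) (.b (.a (.b .z (.l 58)) (.l 58)) (.l
58)))) (.b (.a (.b (.a .z (.l 58)) (.l 58)) (.l 58)) (.l 58)))) (.b (.l 58) (.a (.b (.l 58) (.a (.l 58) (.b (.l 58) (.a (.l 58) (.b (.l 58) .z)))))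
(.b (.a (.l 58) (.b (.a (.l 58) (.b (.l 58) .z)) (.a (.b (.l 58) .z) .z))) (.a (.b (.a (.l 58) .z) .z) .z))))) (.a (.b (.a (.a (.l 31) (.a (.a (.a (.l
31) .z) .z) (.a .z (.b .z (.a .z (.l 58)))))) (.b (.a (.a (.a (.a .z (.l 58)) (.l 58)) (.l 58)) (.l 58)) (.a (.b (.l 58) (.a (.l 58) (.b (.l 58) .z)))
(.b (.a (.l 58) (.b (.l 58) .z)) .z)))) (.a (.b (.a (.l 31) (.b (.a (.a (.l 31) .z) (.a .z (.l 58))) (.a (.b (.a (.l 31) .z) (.a (.l 31) .z)) .z)))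
(.a (.b (.a (.l 31) (.b (.l 31) .z)) (.a (.b (.a (.l 31) .z) .z) .z)) (.b (.a .z (.l 34)) (.b (.b (.l 34) .z) .z)))) (.b (.a (.b (.a (.b (.l 58) .z)
.z) (.a (.b .z (.l 34)) (.l 34))) (.l 34)) (.b (.l 34) (.b (.l 34) (.a .z (.b (.l 34) .z))))))) (.b (.a (.b (.a (.b (.l 58) (.a (.b (.l 58) .z) .z))
(.b (.a (.b (.l 58) .z) .z) .z)) .z) (.b .z (.b .z (.a (.b .z (.l 99)) .z)))) (.b (.a (.a (.a (.b .z (.a (.l 34) .z)) (.b (.l 102) .z)) (.b (.a (.l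
102) .z) .z)) (.b (.a (.b (.l 99) .z) .z) .z)) (.a (.b (.a (.a (.l 34) .z) .z) (.a (.a (.l 34) (.a (.l 34) .z)) (.b .z (.a .z (.b .z (.l 19)))))) (.b
(.a .z (.b .z (.a (.b .z (.l 19)) (.l 19)))) (.a (.b (.a .z (.b .z (.l 19))) (.l 19)) (.l 19)))))))) (.b (.b (.a (.b (.a .z (.b .z (.a (.b .z (.a (.b
.z (.l 19)) (.l 19))) (.b (.a (.b .z (.l 19)) (.l 19)) (.l 19))))) (.b (.a (.b (.a .z (.a .z (.b .z (.l 19)))) (.a (.b .z (.a .z (.l 19))) (.l 19)))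
(.l 19)) (.l 19))) (.b (.a (.b (.a (.b .z (.a (.b .z (.l 19)) (.l 19))) (.b (.a (.b .z (.l 19)) (.l 19)) (.l 19))) (.l 19)) (.l 19)) (.l 19))) (.l
19)) (.l 19))))

theorem vQ263 : ev Q263 I5_26 I5_28 = 829930855352844 := by decide +kernel

noncomputable def Q27 : QT :=
(.b (.b (.b (.a (.b (.b (.a (.b (.b (.a (.b (.b (.a .z (.a .z (.a (.a .z (.l 19)) (.l 19)))) (.a (.l 8) (.a (.l 8) (.a (.a (.a (.l 8) (.a (.l 8) .z))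
.z) .z)))) (.l 8)) (.a (.b (.b (.l 19) (.a (.a .z (.a .z (.l 19))) (.l 19))) (.b (.a (.a (.l 8) .z) (.a .z (.a .z (.l 19)))) (.a (.l 8) (.a (.l 8)
.z)))) (.b (.l 19) (.a (.b (.l 19) (.a .z (.l 19))) (.l 19))))) (.a (.l 8) (.a (.l 8) (.b (.a (.b (.a (.a (.l 8) (.a (.a (.l 8) .z) .z)) .z) (.l 8))
(.b (.a (.a .z (.l 19)) (.l 19)) (.a (.a (.a (.a (.l 8) .z) .z) .z) .z))) (.a (.l 8) (.b (.a (.l 8) (.a (.l 8) .z)) (.l 8))))))) (.l 8)) (.a (.b (.a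
(.b (.l 19) (.b (.l 19) (.a (.b (.a .z (.l 19)) (.a (.a (.l 8) (.a (.l 8) .z)) .z)) (.l 19)))) (.l 19)) (.a (.b (.b (.a (.b (.a (.l 8) (.a (.l 8) (.a
(.l 8) (.a (.l 8) .z)))) (.l 8)) (.b (.a .z (.a .z (.l 19))) (.a (.l 8) .z))) (.l 8)) (.l 8)) (.b (.a (.b (.a (.b (.l 19) (.a .z (.l 19))) (.l 19))
(.a (.b .z (.l 8)) (.b (.a .z (.l 19)) .z))) (.l 19)) (.a (.b (.a (.l 8) (.b (.a (.l 8) (.a (.l 8) (.a (.l 8) .z))) (.l 8))) (.l 8)) (.b (.a (.b .z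
(.a (.l 8) (.a (.l 8) .z))) (.b (.l 19) .z)) (.a (.l 8) (.b (.a (.l 8) (.a (.a (.l 8) .z) .z)) (.l 8)))))))) (.b (.l 19) (.a (.b (.l 19) (.a (.b (.l
19) (.a (.b (.a .z (.l 19)) (.a (.a (.l 8) (.a (.l 8) .z)) .z)) (.b (.l 19) (.a .z (.l 19))))) (.l 19))) (.l 19))))) (.a (.l 8) (.a (.l 8) (.b (.a (.b
(.a (.b (.a (.l 8) (.b (.a (.a (.a (.l 8) .z) .z) .z) (.l 8))) (.l 8)) (.b (.a (.b (.a .z (.l 19)) .z) (.l 19)) (.a (.b (.a (.l 8) (.a (.a (.l 8) .z)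
.z)) (.l 8)) (.b (.a .z (.l 19)) (.a (.a (.l 8) (.a (.l 8) .z)) .z))))) (.l 8)) (.b (.a (.b (.l 19) (.a (.b (.l 19) (.a .z (.l 19))) (.l 19))) (.l
19)) (.a (.b (.a (.b (.a (.a (.a (.l 8) .z) .z) .z) (.a (.l 8) (.a (.l 8) .z))) (.b (.l 19) (.a .z (.l 19)))) (.a (.l 8) (.b (.a (.a (.l 8) (.a (.l 8)
.z)) .z) (.l 8)))) (.b (.l 19) (.a (.b (.a .z (.l 19)) (.a (.a (.a (.l 8) .z) .z) .z)) (.l 19)))))) (.a (.l 8) (.b (.a (.l 8) (.b (.a (.b (.a (.l 8)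
(.a (.l 8) .z)) (.l 8)) (.b (.a .z (.l 19)) (.a (.a (.l 8) .z) .z))) (.a (.l 8) (.b (.a (.l 8) (.a (.l 8) (.a (.l 8) .z))) (.l 8))))) (.l 8))))))) (.l
8)) (.a (.b (.a (.b (.l 19) (.b (.l 19) (.a (.b (.a (.b (.l 19) (.a (.b .z (.a (.l 8) .z)) (.b (.l 19) (.a .z (.l 19))))) (.l 19)) (.a (.b (.a (.l 8)
(.b (.a (.a (.a (.l 8) .z) .z) .z) (.a (.l 8) (.a (.a (.l 8) .z) .z)))) (.l 8)) (.b (.a (.b (.l 19) (.a .z (.l 19))) (.l 19)) (.a (.b (.a (.a (.a (.l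
8) .z) .z) .z) (.a (.l 8) (.a (.l 8) .z))) (.b (.l 19) (.a .z (.l 19))))))) (.l 19)))) (.l 19)) (.a (.b (.b (.a (.b (.a (.l 8) (.b (.a (.l 8) (.b (.a
(.a (.l 8) .z) .z) (.a (.l 8) (.a (.l 8) .z)))) (.l 8))) (.l 8)) (.a (.b (.b (.a (.b (.l 19) (.a .z (.l 19))) (.l 19)) (.a (.b (.a (.a (.l 8) .z) .z)
(.a (.l 8) (.a (.l 8) .z))) (.a (.b (.l 19) .z) (.l 19)))) (.a (.l 8) (.b (.a (.b (.a (.l 8) .z) (.l 8)) (.b .z (.a (.l 8) .z))) (.l 8)))) (.b (.l 19)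
(.a (.b (.a (.b (.l 19) .z) (.l 19)) (.a (.b (.a (.l 8) .z) (.l 8)) (.b .z (.a (.l 8) .z)))) (.b (.l 19) (.a (.b (.l 19) .z) (.l 19))))))) (.a (.l 8)
(.a (.l 8) (.b (.a (.l 8) (.b (.a (.b (.a (.l 8) .z) (.l 8)) (.b .z (.a (.a (.l 8) .z) .z))) (.l 8))) (.l 8))))) (.l 8)) (.b (.a (.b (.l 19) (.a (.b
(.a (.b (.a (.b (.l 19) .z) (.l 19)) (.a (.b (.a (.a (.l 8) .z) .z) (.l 8)) (.b .z (.a (.a (.l 8) .z) .z)))) (.b (.l 19) (.a (.b (.l 19) .z) (.l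
19)))) (.a (.l 8) (.b (.a (.b .z (.l 8)) .z) (.a (.l 8) (.b (.a (.l 8) (.a (.l 8) .z)) (.l 8)))))) (.b (.l 19) (.a (.b (.l 19) (.a (.b .z (.a (.l 8)
(.a (.l 8) .z))) (.b (.l 19) .z))) (.l 19))))) (.l 19)) (.a (.b (.a (.l 8) (.b (.a (.b (.a (.l 8) (.b (.a (.l 8) .z) (.l 8))) (.l 8)) (.b (.a (.b .z
(.a (.a (.l 8) .z) .z)) (.b (.l 19) .z)) (.a (.l 8) (.b .z (.l 8))))) (.l 8))) (.l 8)) (.b (.a (.b (.a (.b (.l 19) (.a .z (.l 19))) (.l 19)) (.a (.b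
(.a (.b (.a (.l 8) (.a (.l 8) .z)) (.l 8)) (.b .z (.a (.l 8) .z))) (.l 8)) (.b (.a (.b (.l 19) .z) (.l 19)) (.a (.b (.a (.a (.l 8) .z) .z) (.l 8))
.z)))) (.l 19)) (.a (.b (.a (.l 8) (.b (.a (.l 8) (.b (.a (.l 8) (.a (.l 8) .z)) (.l 8))) (.l 8))) (.l 8)) (.b (.a (.b (.a (.b .z (.a (.l 8) .z)) (.b
(.l 19) .z)) (.a (.l 8) (.b (.a (.a (.l 8) .z) .z) (.l 8)))) (.b (.l 19) (.a .z (.l 19)))) (.a (.l 8) (.b (.a (.b (.a (.l 8) (.a (.l 8) .z)) (.l 8))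
(.b .z (.a (.l 8) .z))) (.l 8)))))))))) (.b (.l 19) (.a (.b (.l 19) (.a (.b (.l 19) (.a (.b (.l 19) (.a (.b (.a (.b (.l 19) .z) (.l 19)) (.a (.b (.a
(.a (.l 8) .z) .z) (.l 8)) .z)) (.l 19))) (.l 19))) (.l 19))) (.l 19))))) (.a (.l 8) (.a (.l 8) (.b (.a (.b (.a (.b (.a (.b (.a (.b (.a (.l 8) (.b (.a
(.l 8) (.a (.l 8) .z)) (.l 8))) (.l 8)) (.b (.a (.b .z (.a (.l 8) .z)) (.b (.l 19) .z)) (.a (.l 8) (.b .z (.a (.l 8) (.a (.l 8) .z)))))) (.l 8)) (.b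
(.a (.b (.l 19) (.a (.b (.l 19) .z) (.l 19))) (.l 19)) (.a (.b (.a (.b (.a (.l 8) .z) (.l 8)) .z) (.a (.l 8) (.b (.a (.l 8) (.a (.l 8) .z)) (.l 8))))
(.b (.l 19) (.a (.b .z (.a (.l 8) .z)) (.b (.l 19) .z)))))) (.a (.l 8) (.b (.a (.l 8) (.b (.a (.l 8) (.b .z (.a (.l 8) (.a (.l 8) .z)))) (.l 8))) (.l
8)))) (.b (.l 19) (.a (.b (.a (.b (.a (.b (.l 19) .z) (.l 19)) (.a (.b (.a (.a (.l 8) .z) .z) (.l 8)) .z)) (.l 19)) (.a (.b (.a (.l 8) (.b (.a (.l 8)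
(.a (.l 8) .z)) (.l 8))) (.l 8)) (.b (.a (.b .z (.a (.a (.l 8) .z) .z)) (.b (.l 19) .z)) (.a (.l 8) (.b .z (.a (.l 8) .z)))))) (.b (.l 19) (.a (.b (.l
19) (.a (.b (.l 19) .z) (.l 19))) (.l 19)))))) (.a (.l 8) (.b (.a (.l 8) (.b (.a (.b (.a (.b .z (.a (.l 8) (.a (.l 8) .z))) (.b (.l 19) .z)) (.a (.l
8) (.b (.a (.a (.l 8) .z) .z) (.l 8)))) (.b (.l 19) (.a .z (.l 19)))) (.a (.l 8) (.b (.a (.b (.a (.l 8) .z) (.l 8)) .z) (.a (.l 8) (.b (.a (.l 8) (.a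
(.l 8) .z)) (.l 8))))))) (.l 8)))) (.b (.l 19) (.a (.b (.a (.b (.l 19) (.a (.b (.l 19) (.a (.b .z (.a (.a (.l 8) .z) .z)) (.l 19))) (.l 19))) (.l 19))
(.a (.b (.a (.b (.a (.b (.a (.l 8) (.a (.l 8) .z)) (.l 8)) (.b .z (.a (.l 8) .z))) (.l 8)) (.b (.a (.b (.l 19) .z) (.l 19)) (.a (.b .z (.a (.l 8) .z))
(.b (.l 19) .z)))) (.a (.l 8) (.b (.a (.l 8) (.b .z (.a (.l 8) .z))) (.l 8)))) (.b (.l 19) (.a (.b (.a (.b (.l 19) .z) (.l 19)) (.a (.b (.a (.a (.l 8)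
.z) .z) (.a (.l 8) (.a (.l 8) .z))) (.b (.l 19) .z))) (.l 19))))) (.l 19)))) (.a (.l 8) (.b (.a (.b (.a (.l 8) (.b (.a (.b (.a (.l 8) (.b (.a (.a (.l
8) .z) .z) (.a (.l 8) (.a (.l 8) .z)))) (.l 8)) (.b (.a (.b (.l 19) .z) (.l 19)) (.a (.b (.a (.a (.l 8) .z) .z) (.a (.l 8) (.a (.l 8) .z))) (.b (.l
19) .z)))) (.a (.l 8) (.b (.a (.l 8) (.b (.a (.a (.l 8) .z) .z) (.l 8))) (.l 8))))) (.l 8)) (.a (.b (.b (.l 19) (.a (.b (.a .z (.l 19)) (.a (.b (.a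
(.l 8) .z) (.l 8)) .z)) (.l 19))) (.b (.a (.b (.a (.l 8) (.b (.a (.l 8) .z) (.l 8))) (.l 8)) (.a (.b .z (.b (.a (.l 8) .z) (.l 8))) (.b (.l 19) .z)))
(.a (.l 8) (.a (.l 8) (.b (.a (.l 8) (.b .z (.l 8))) (.l 8)))))) (.b (.l 19) (.a (.b (.l 19) (.a (.b .z (.a (.l 8) (.b .z (.l 8)))) (.b (.l 19) .z)))
(.l 19))))) (.a (.l 8) (.a (.l 8) (.b (.a (.b (.a (.l 8) (.b (.a (.l 8) (.b .z (.a (.l 8) .z))) (.l 8))) (.l 8)) (.b (.a (.b (.a .z (.l 19)) (.a (.b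
(.a (.l 8) .z) (.l 8)) (.b .z (.a (.l 8) .z)))) (.b (.l 19) (.a .z (.l 19)))) (.a (.l 8) (.b (.a (.b (.a (.l 8) .z) (.l 8)) (.b .z (.a (.l 8) .z)))
(.l 8))))) (.l 8)))))))))) (.l 8)) (.l 8))

theorem vQ27 : ev Q27 I3_0 I3_4 = 15576711867170207 := by decide +kernel

noncomputable def Q17 : QT :=
(.a (.b (.a (.b (.a .z (.b (.a .z (.a (.b .z (.a (.b .z (.a .z (.l 24))) (.b (.a .z (.l 24)) (.l 24)))) (.b (.a (.b .z (.a .z (.l 24))) (.b (.a .z (.l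
24)) (.l 24))) (.l 24)))) (.a (.b (.a .z (.b (.a .z (.b .z (.l 24))) (.a (.b .z (.l 24)) (.l 24)))) (.a (.b (.a .z (.b .z (.l 24))) (.a (.b .z (.l
24)) (.l 24))) (.l 24))) (.l 24)))) (.a (.b (.a .z (.b (.a .z (.b (.a .z (.b .z (.l 24))) (.a (.b .z (.l 24)) (.l 24)))) (.a (.b (.a .z (.b .z (.l
24))) (.l 24)) (.l 24)))) (.a (.b (.a .z (.b (.a .z (.l 24)) (.l 24))) (.a (.b (.a (.b .z (.l 24)) (.l 24)) (.l 24)) (.l 24))) (.l 24))) (.l 24))) (.b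
(.l 24) (.a (.b (.l 24) (.a (.l 24) (.b (.l 24) (.a (.l 24) (.b (.l 24) (.a (.b (.l 24) .z) .z)))))) (.b (.a (.l 24) (.b (.a (.l 24) (.b (.l 24) (.a
(.l 24) (.b (.l 24) .z)))) (.a (.b (.l 24) (.a (.b (.l 24) .z) .z)) (.b .z (.a .z (.l 46)))))) (.a (.b (.a (.b (.l 24) (.a (.l 24) (.b (.l 24) .z)))
(.b (.a (.l 24) .z) .z)) (.a (.b .z (.a .z (.l 46))) (.l 46))) (.b (.a (.b (.a .z (.l 46)) (.l 46)) (.l 46)) (.l 46))))))) (.a (.b (.a (.l 24) (.b (.a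
(.l 24) (.b (.l 24) (.a (.l 24) (.b (.l 24) (.a (.l 24) (.b (.l 24) .z)))))) (.a (.b (.l 24) (.a (.b (.l 24) (.a (.b (.l 24) .z) .z)) (.b (.a (.b (.l
24) .z) .z) (.a .z (.l 46))))) (.b (.a (.b (.l 24) (.a (.b (.l 24) .z) .z)) (.b .z (.a .z (.l 46)))) (.a (.b (.a .z (.l 46)) (.l 46)) (.l 46)))))) (.a
(.b (.b (.a (.l 24) (.a (.b (.l 24) (.b (.a (.l 24) .z) .z)) (.b (.a (.b (.l 24) .z) .z) (.a .z (.l 46))))) (.a (.b (.a (.l 24) (.b (.a (.l 24) .z)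
.z)) (.a (.b (.a (.l 24) .z) .z) (.b .z (.l 46)))) (.b (.a (.b .z (.l 46)) (.l 46)) (.l 46)))) (.b (.a (.b (.a (.b .z (.l 46)) (.l 46)) (.l 46)) (.l
46)) (.l 46))) (.b (.a (.b (.a (.b (.a .z (.l 46)) (.l 46)) (.l 46)) (.l 46)) (.l 46)) (.l 46)))) (.b (.a (.b (.a (.b (.a (.l 24) (.b (.l 24) (.a (.l
24) (.b (.l 24) .z)))) (.a (.b (.a (.l 24) (.b (.l 24) .z)) .z) (.b .z (.l 46)))) (.b (.a (.b (.a (.b (.l 24) .z) .z) (.a .z (.l 46))) (.b (.a .z (.l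
46)) (.l 46))) (.l 46))) (.l 46)) (.l 46)) (.l 46)))) (.b (.a (.b (.a (.b (.a (.l 24) (.b (.l 24) (.a (.l 24) (.b (.l 24) (.a (.l 24) (.b (.l 24)
.z)))))) (.a (.b (.l 24) (.a (.l 24) (.b (.a (.l 24) (.b (.l 24) .z)) (.a (.b (.l 24) .z) .z)))) (.b (.a (.b (.l 24) (.a (.l 24) .z)) (.b (.a (.b (.l
24) .z) .z) (.a .z (.l 46)))) (.a (.b .z (.l 46)) (.l 46))))) (.b (.a (.b (.a (.l 24) (.b (.a (.l 24) (.b (.l 24) .z)) (.a (.b (.l 24) .z) .z))) (.a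
(.b (.a (.l 24) .z) .z) (.b (.a .z (.l 46)) (.l 46)))) (.b (.a (.b .z (.l 46)) (.l 46)) (.l 46))) (.l 46))) (.a (.b (.a (.b (.a (.b (.a (.l 24) .z)
.z) (.b (.a .z (.l 46)) (.l 46))) (.l 46)) (.l 46)) (.l 46)) (.l 46))) (.l 46)) (.l 46)))

theorem vQ17 : ev Q17 I4_1 I6_20 = 886674745731888 := by decide +kernel

noncomputable def Q95 : QT :=
(.b (.b (.b (.l 27) (.b (.a (.l 27) (.b (.l 27) (.a (.b (.l 27) (.a (.l 27) (.a (.l 27) (.a (.l 27) .z)))) (.b (.a (.l 27) (.a (.l 27) .z)) (.a .z (.a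
.z (.a .z (.l 32)))))))) (.b (.a (.b (.a (.l 27) (.a (.l 27) (.a (.l 27) (.a (.l 27) .z)))) (.a (.a (.l 27) (.a (.l 27) .z)) .z)) (.a (.b .z (.l 32))
(.l 32))) (.a (.b (.a (.a .z (.a .z (.a .z (.l 32)))) (.l 32)) (.l 32)) (.l 32))))) (.a (.l 32) (.a (.l 32) (.b (.l 32) (.a (.l 32) (.b (.l 32) (.a
(.l 32) (.b (.l 32) (.a (.b (.l 32) .z) .z))))))))) (.b (.b (.a (.l 32) (.a (.a (.l 32) (.b (.l 32) (.a (.l 32) (.b (.l 32) (.a (.l 32) .z))))) (.a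
(.b (.a (.l 32) (.b (.l 32) (.a (.b (.l 32) .z) .z))) (.a (.b (.a (.b (.l 32) .z) .z) (.a .z (.l 35))) (.b (.a .z (.l 35)) (.l 35)))) (.b (.a (.b (.a
(.b (.l 32) .z) .z) (.a .z (.l 35))) (.b (.a .z (.l 35)) (.l 35))) (.l 35))))) (.a (.b (.a (.b (.a (.b (.l 32) (.a (.a .z (.l 32)) (.l 32))) (.l 32))
(.a (.b (.a .z (.a .z (.l 32))) .z) (.b (.l 32) (.a (.a .z (.l 32)) (.l 32))))) (.l 32)) (.a (.b (.a (.a (.l 73) .z) (.b (.a .z (.a .z (.l 32))) .z))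
(.a (.a (.l 73) .z) (.a .z (.l 37)))) (.b (.a (.b (.l 32) (.a (.a .z (.l 32)) (.l 32))) (.l 32)) (.a (.b (.a .z (.a .z (.l 32))) (.a (.l 37) .z)) (.a
(.b (.l 32) (.a .z (.l 32))) (.a (.l 32) (.b (.l 32) .z))))))) (.a (.a (.b (.a (.l 32) (.b (.l 32) (.a (.l 32) (.b (.l 32) .z)))) (.a (.b (.a (.l 32)
(.b (.l 32) .z)) .z) (.b .z (.l 35)))) (.b (.a (.b (.a (.l 32) (.b (.l 32) .z)) .z) (.b .z (.l 35))) (.l 35))) (.l 35)))) (.a (.b (.a (.a (.b (.a .z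
(.b .z (.l 37))) (.a (.b (.a .z (.l 37)) (.l 37)) (.l 37))) (.l 37)) (.b (.a (.l 37) (.b (.a (.b .z (.l 37)) .z) (.l 37))) (.l 37))) (.b (.b (.b (.l
37) (.a (.l 37) (.a (.l 37) .z))) (.b (.a .z (.a .z (.a .z (.l 42)))) (.a (.a (.a .z (.l 42)) (.l 42)) (.l 42)))) (.l 42))) (.b (.a (.b (.a (.b (.a
(.b (.l 35) .z) (.l 35)) (.a (.b .z (.l 37)) .z)) (.b (.l 35) (.a (.b (.l 35) .z) (.l 35)))) (.a (.l 37) (.b (.a (.b .z (.l 37)) .z) (.l 37)))) (.b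
(.l 35) (.a (.b (.a (.b (.l 35) .z) (.l 35)) (.a (.b .z (.l 37)) .z)) (.b (.a (.l 35) .z) (.a .z (.b .z (.l 40))))))) (.a (.b (.b (.b (.a (.l 37) (.a
(.l 37) .z)) .z) (.l 42)) (.a (.l 42) (.b (.a (.l 42) .z) (.a .z (.b .z (.l 42)))))) (.b (.a (.b (.a (.b .z (.l 42)) .z) (.a .z (.b .z (.l 40)))) (.b
(.a (.b .z (.l 40)) (.l 40)) (.l 40))) (.a (.b (.a .z (.l 40)) (.a .z (.l 40))) (.l 40))))))))

theorem vQ95 : ev Q95 I5_6 I6_60 = 433681362183202 := by decide +kernel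

noncomputable def Q51 : QT :=
(.b (.b (.a (.b (.b (.b (.b (.b .z (.l 111)) (.b .z (.l 115))) (.b (.b .z (.a (.l 119) .z)) (.b .z (.a (.a (.l 123) .z) .z)))) (.b (.b (.b .z (.a (.a
(.l 127) .z) .z)) (.b .z (.a (.a (.l 131) .z) .z))) (.b (.b .z (.a (.l 135) .z)) .z))) .z) (.b (.a (.b (.b (.b (.b .z (.l 111)) .z) .z) .z) (.b (.b
(.b (.b (.a .z (.l 112)) .z) (.b (.a .z (.l 116)) .z)) .z) .z)) .z)) .z) .z)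

theorem vQ51 : ev Q51 I5_1 I5_31 = 18118066661471 := by decide +kernel

end Pool.Agent.Helper64.SPW.Dat
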