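import Pool.Agent.Helper64.SPW.Iv

/-! Boxes of traces, part 2 (data and kernel evaluation). -/

set_option maxRecDepth 1000000
set_option maxHeartbeats 0

namespace Pool.Agent.Helper64.SPW.Dat

noncomputable def Q41 : QT :=
(.b (.b (.a (.l 24) (.a (.b (.b (.a (.l 24) (.a (.b (.b (.a (.b .z (.a (.l 24) .z)) (.b (.l 10) (.a .z (.l 10)))) (.a (.l 24) (.b .z (.a (.l 24)
.z)))) (.l 24)) (.b (.a (.b (.l 10) (.a (.b (.l 10) .z) (.l 10))) (.l 10)) (.a (.b (.a (.b .z (.l 24)) .z) (.l 24)) (.b (.a (.b (.l 10) .z) (.l 10))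
(.a (.b .z (.l 24)) .z)))))) (.l 24)) (.a (.b (.l 24) (.b (.l 24) (.a (.l 24) (.a (.b (.l 24) (.a (.l 24) (.b (.l 24) .z))) (.b (.a (.l 24) (.b (.l
24) .z)) .z))))) (.b (.a (.l 24) (.b (.l 24) (.a (.b (.l 24) (.a (.l 24) .z)) (.b (.a (.b (.l 24) .z) .z) (.a .z (.l 53)))))) (.a (.b (.a (.b (.l 24)
(.a (.l 24) (.b (.l 24) .z))) (.b (.a (.l 24) (.b (.l 24) .z)) .z)) (.a (.b .z (.l 53)) (.l 53))) (.b (.a (.b .z (.l 53)) (.l 53)) (.l 53)))))) (.b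
(.a (.b (.a (.b (.l 10) (.a (.b (.l 10) (.a (.b (.l 10) .z) (.l 10))) (.l 10))) (.l 10)) (.a (.b (.a (.b (.a (.b .z (.l 24)) (.b (.a .z (.l 10)) .z))
(.l 24)) (.b (.a (.b (.l 10) (.a .z (.l 10))) (.l 10)) (.a (.b .z (.l 24)) (.b (.a .z (.l 10)) .z)))) (.a (.l 24) (.b (.a (.l 24) (.b .z (.l 24))) (.a
(.l 24) (.b (.l 24) .z))))) (.b (.l 10) (.a (.b (.a .z (.b (.l 10) .z)) .z) (.b (.l 10) (.a (.b (.a .z (.l 10)) .z) (.b (.l 10) (.a .z (.l 10)))))))))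
(.l 10)) (.a (.b (.a (.b (.a (.b (.a (.l 24) (.b (.l 24) .z)) (.a (.b (.l 24) .z) .z)) (.b .z (.l 53))) (.a (.b (.a .z (.l 53)) (.l 53)) (.l 53))) (.b
(.a (.l 53) (.b (.a (.l 53) .z) (.l 53))) (.l 53))) (.l 53)) (.b (.a (.b (.a (.b (.a (.b (.l 10) .z) (.l 10)) (.a .z (.b (.a .z (.l 10)) .z))) (.b (.l
10) (.a (.b (.l 10) (.a .z (.l 10))) (.l 10)))) (.a (.l 53) (.b (.a .z (.b (.l 10) (.a .z (.l 10)))) (.a (.l 53) .z)))) (.b (.l 10) (.a (.b (.l 10)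
(.a (.b (.a .z (.l 10)) .z) (.l 10))) (.l 10)))) (.a (.l 53) (.b (.a (.b (.a .z (.b (.a .z (.l 10)) .z)) (.l 53)) (.b (.a (.b (.l 10) (.a .z (.l 10)))
(.l 10)) (.a .z (.b (.l 10) (.a .z (.l 10)))))) (.a (.l 53) (.b (.a (.l 53) .z) (.l 53)))))))))) (.a (.b (.b (.a (.l 24) (.a (.l 24) (.b (.l 24) (.a
(.l 24) (.b (.a (.l 24) (.b (.l 24) (.a (.l 24) .z))) (.a (.b (.l 24) (.a (.l 24) .z)) .z)))))) (.a (.l 24) (.a (.b (.a (.l 24) (.b (.l 24) (.a (.l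
24) (.b (.l 24) (.a (.l 24) .z))))) (.a (.b (.l 24) (.a (.b (.l 24) .z) .z)) (.b (.a (.b (.l 24) .z) .z) (.a (.b .z (.l 53)) (.l 53))))) (.b (.a (.b
(.a (.l 24) (.b (.l 24) .z)) (.a (.b (.a (.l 24) .z) .z) (.b .z (.l 53)))) (.b (.a .z (.l 53)) (.l 53))) (.l 53))))) (.b (.a (.b (.b (.a (.l 24) (.a
(.b (.l 24) (.a (.l 24) (.a (.l 24) .z))) (.b (.a (.l 24) .z) .z))) (.a (.b (.l 24) .z) (.a (.b .z (.a .z (.l 53))) (.l 53)))) (.a (.b (.b (.a (.a (.a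
(.l 28) .z) .z) .z) (.a (.l 28) (.a (.l 28) (.a (.l 28) .z)))) (.l 28)) (.b (.a .z (.b (.l 53) .z)) (.a (.b (.a (.l 28) .z) (.l 28)) .z)))) (.a (.b
(.a (.b (.a (.b .z (.l 53)) (.l 53)) (.l 53)) (.l 53)) (.b (.a (.b (.l 53) (.a .z (.l 53))) (.l 53)) (.a (.b .z (.l 67)) (.b (.a .z (.l 53)) .z))))
(.l 53))) (.a (.b (.a (.l 28) (.b (.a (.l 28) (.a (.l 28) (.b .z (.l 28)))) (.l 28))) (.l 28)) (.a (.b (.a (.b .z (.a (.l 28) (.b .z (.a (.l 28)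
.z)))) (.b (.b .z (.l 67)) (.a .z (.l 67)))) (.a (.l 28) (.b (.a (.b (.a (.l 28) .z) (.l 28)) .z) (.a (.l 28) (.b (.a (.l 28) .z) (.l 28)))))) (.a (.b
(.b .z (.l 67)) (.b (.l 67) (.a .z (.l 67)))) (.b (.b (.b (.l 53) (.a .z (.l 53))) .z) (.l 67))))))) (.a (.b (.a (.b (.b (.a (.b (.a (.l 24) (.b (.l
24) (.a (.l 24) .z))) (.a (.b (.l 24) (.a (.l 24) .z)) .z)) (.a (.b .z (.l 53)) (.l 53))) (.a (.b (.a .z (.l 53)) (.l 53)) (.l 53))) (.l 53)) (.l 53))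
(.b (.l 53) (.a (.b (.a (.b (.l 53) (.a (.b (.l 53) .z) (.l 53))) (.l 53)) (.a (.b .z (.l 67)) (.b (.a (.b (.l 53) .z) (.l 53)) .z))) (.b (.l 53) (.a
(.b (.l 53) (.a (.b (.l 53) .z) (.l 53))) (.l 53)))))) (.b (.a (.l 53) (.b (.l 53) (.a (.l 53) (.b (.l 53) (.a (.b (.l 53) (.a (.l 53) .z)) (.b (.a
(.l 53) .z) (.a .z (.b (.a .z (.l 14)) (.l 14))))))))) (.a (.b (.l 53) (.a (.b (.l 53) (.a (.l 53) (.b (.l 53) (.a (.l 53) .z)))) (.b (.a (.l 53) (.b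
(.a (.l 53) .z) (.a .z (.b .z (.a .z (.l 14)))))) (.a (.b (.a (.l 53) .z) (.a .z (.b (.a .z (.l 14)) (.l 14)))) (.b (.a (.b .z (.l 14)) (.l 14)) (.l
14)))))) (.b (.a (.b (.a (.l 53) (.b (.l 53) (.a (.l 53) .z))) (.a (.b (.l 53) (.a (.l 53) .z)) (.b (.a .z (.b .z (.l 14))) (.a (.b (.a .z (.l 14))
(.l 14)) (.l 14))))) (.b (.a (.b (.a .z (.b .z (.a .z (.l 14)))) (.a (.b .z (.a .z (.l 14))) (.l 14))) (.l 14)) (.l 14))) (.a (.b (.a (.b (.a .z (.b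
(.a .z (.l 14)) (.l 14))) (.l 14)) (.l 14)) (.l 14)) (.l 14)))))))) (.b (.a (.b (.a (.l 28) (.b (.a (.l 28) (.a (.b (.b (.a (.b (.a (.l 28) .z) (.l
28)) .z) (.a (.l 28) (.a (.l 28) (.b .z (.l 28))))) (.l 28)) (.b (.a (.b (.l 67) .z) (.l 67)) (.a (.b (.a (.l 28) (.b .z (.l 28))) (.l 28)) (.b .z (.a
(.l 28) (.b .z (.l 28)))))))) (.l 28))) (.b (.l 28) (.a (.l 28) (.a (.b (.l 28) (.a (.l 28) (.b (.l 28) (.a (.l 28) (.b (.l 28) .z))))) (.b (.a (.l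
28) (.b (.a (.l 28) (.b (.a (.l 28) .z) (.a .z (.a .z (.l 14))))) (.a (.b (.a (.l 28) .z) (.a .z (.a .z (.l 14)))) (.b (.a (.a .z (.l 14)) (.l 14))
(.l 14))))) (.a (.b (.a (.b (.l 28) (.a (.l 28) .z)) (.b .z (.a .z (.l 14)))) (.a (.b .z (.a (.a .z (.l 14)) (.l 14))) (.l 14))) (.b (.a (.b (.a (.a
.z (.l 14)) (.l 14)) (.l 14)) (.l 14)) (.l 14)))))))) (.a (.b (.a (.b (.a (.b (.l 67) (.a (.b (.l 67) .z) (.l 67))) (.l 67)) (.a (.b (.a (.b (.a (.l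
28) .z) (.l 28)) (.b .z (.a (.b .z (.l 28)) .z))) (.l 28)) (.b (.a (.b (.l 67) .z) (.l 67)) (.a (.b .z (.a (.l 28) (.b .z (.l 28)))) (.b (.l 67)
.z))))) (.b (.a (.b (.b (.a .z (.b (.l 53) .z)) (.a (.l 67) .z)) (.l 67)) (.b (.b (.l 53) (.a .z (.b (.l 53) .z))) (.a (.l 67) (.b .z (.a .z (.b .z
(.a .z (.l 14)))))))) (.a (.b (.a (.l 67) (.b (.l 67) .z)) (.a (.b .z (.a .z (.b .z (.l 14)))) (.b (.a (.b .z (.a .z (.l 14))) (.b (.a .z (.l 14)) (.l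
14))) (.l 14)))) (.b (.a (.b .z (.a (.b .z (.a .z (.l 14))) (.l 14))) (.b (.a (.b (.a .z (.l 14)) (.l 14)) (.l 14)) (.l 14))) (.l 14))))) (.a (.b (.a
(.b (.l 28) (.a (.b (.l 28) (.b (.a (.l 28) .z) (.a .z (.a .z (.l 14))))) (.b (.a (.b (.l 28) .z) (.b .z (.a .z (.l 14)))) (.a (.b (.a .z (.l 14)) (.l
14)) (.l 14))))) (.b (.a (.b (.l 28) (.a (.b (.l 28) .z) (.b .z (.a .z (.l 14))))) (.b (.a .z (.b .z (.a .z (.l 14)))) (.a (.b (.a .z (.l 14)) (.l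
14)) (.l 14)))) (.a (.b (.a (.b (.a .z (.l 14)) (.l 14)) (.l 14)) (.l 14)) (.l 14)))) (.a (.b (.a (.b (.b (.a (.a .z (.l 14)) (.l 14)) (.l 14)) (.l
14)) (.l 14)) (.l 14)) (.l 14))) (.l 14))) (.b (.a (.b (.a (.b (.a (.b (.l 53) (.a (.l 53) .z)) (.b (.a .z (.b .z (.a .z (.l 14)))) (.a (.b .z (.l
14)) (.l 14)))) (.a (.b (.a (.b .z (.a .z (.l 14))) (.b (.a .z (.l 14)) (.l 14))) (.l 14)) (.l 14))) (.l 14)) (.l 14)) (.l 14)) (.l 14)))) (.a (.b (.b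
(.a (.b (.l 28) (.b (.a (.l 28) (.a (.b (.l 28) (.a (.l 28) (.a (.l 28) .z))) (.b (.a (.a (.l 28) .z) .z) (.a .z (.l 14))))) (.a (.b (.a (.l 28) (.a
(.l 28) (.a (.l 28) .z))) .z) (.a (.b (.a .z (.a .z (.a .z (.l 14)))) (.l 14)) (.l 14))))) (.a (.b (.a (.b (.a (.l 28) (.b (.l 28) (.a (.l 28) .z)))
(.a (.b (.l 28) .z) (.b .z (.a (.a .z (.l 14)) (.l 14))))) (.b (.a (.b (.a (.l 28) .z) (.a .z (.a .z (.l 14)))) (.b (.a .z (.l 14)) (.l 14))) (.l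
14))) (.a (.b (.a (.b (.a (.a .z (.l 14)) (.l 14)) (.l 14)) (.l 14)) (.l 14)) (.l 14))) (.l 14))) (.a (.b (.b (.a (.b (.a (.a (.a (.l 32) .z) .z) .z)
(.l 32)) (.a (.b (.a (.a .z (.l 14)) (.l 14)) .z) (.b (.l 14) (.a (.a (.a .z (.l 14)) (.l 14)) (.l 14))))) (.a (.l 32) (.a (.l 32) (.b (.a .z (.a .z
(.l 14))) (.a (.l 32) .z))))) (.l 32)) (.a (.b (.a (.b (.l 14) (.a (.b (.l 14) (.a .z (.l 14))) (.l 14))) (.l 14)) (.a (.b (.a (.b .z (.l 32)) (.b (.a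
.z (.l 14)) .z)) (.l 32)) (.b (.a (.b (.l 14) (.a .z (.l 14))) (.l 14)) (.a (.b .z (.l 32)) (.b (.a (.a .z (.l 14)) (.l 14)) .z))))) (.l 14)))) (.b
(.a (.l 32) (.a (.b (.a (.l 32) (.b (.a (.l 32) (.b (.a (.l 32) .z) (.l 32))) (.l 32))) (.l 32)) (.b (.a (.b (.a (.b (.a .z (.a .z (.l 14))) (.a (.l
32) .z)) (.b (.l 14) (.a .z (.l 14)))) (.a (.l 32) (.b .z (.a (.l 32) .z)))) (.b (.l 14) (.a (.b (.l 14) (.a .z (.a .z (.l 14)))) (.l 14)))) (.a (.l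
32) (.b (.a (.b (.a (.l 32) .z) (.l 32)) (.b (.a (.a .z (.l 14)) (.l 14)) (.a .z (.a .z (.l 14))))) (.a (.l 32) (.b (.a (.l 32) .z) (.l 32)))))))) (.a
(.l 32) (.a (.l 32) (.b (.l 32) (.a (.l 32) (.b (.l 32) (.a (.l 32) (.b (.l 32) (.a (.l 32) .z)))))))))) (.a (.b (.l 14) (.a (.b (.a (.b (.l 14) (.b
(.l 14) (.a (.b (.a (.a .z (.l 14)) (.l 14)) (.a .z (.a .z (.l 14)))) (.l 14)))) (.l 14)) (.a (.b (.b (.a (.b (.a (.l 32) .z) (.l 32)) (.a (.b (.a .z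
(.l 14)) .z) (.b (.l 14) (.a .z (.l 14))))) (.a (.l 32) (.a (.l 32) .z))) (.a (.b (.a (.l 32) (.b (.l 32) .z)) .z) .z)) (.b (.a (.b (.l 14) (.a (.b
(.a .z (.l 14)) .z) (.b (.l 14) (.a .z (.l 14))))) (.l 14)) (.a .z (.b (.a (.b (.a .z (.l 14)) .z) (.b (.l 14) (.a .z (.l 14)))) .z))))) (.b (.l 14)
(.a (.b (.l 14) (.a (.b (.l 14) (.a (.b (.l 14) .z) (.l 14))) (.l 14))) (.l 14))))) (.l 14)))))

theorem vQ41 : ev Q41 I4_0 I5_27 = 1825325150157765 := by decide +kernel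

noncomputable def Q69 : QT :=
(.b (.a (.b (.a (.b (.b (.a (.b (.a (.l 39) (.b (.a (.l 39) .z) (.l 39))) (.l 39)) (.b .z (.a (.b (.a (.l 39) .z) (.l 39)) .z))) (.a (.l 39) (.b (.a
(.l 39) (.b (.a (.l 39) .z) (.l 39))) (.l 39)))) (.l 39)) (.b (.a (.b (.a (.b .z (.l 394)) .z) (.a (.b .z (.a (.l 39) (.b .z (.l 39)))) .z)) .z) (.a
(.b (.a (.l 39) (.b (.a (.l 39) (.b .z (.l 39))) (.l 39))) (.l 39)) (.b (.a (.b .z (.a (.b (.a (.l 39) .z) (.l 39)) (.b .z (.a (.l 39) .z)))) .z) (.a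
(.l 39) (.b (.a (.b (.a (.l 39) .z) (.l 39)) (.b .z (.a (.l 39) .z))) (.l 39))))))) (.l 39)) (.b (.a (.b .z (.a (.b .z (.a (.b .z (.a (.b .z (.l 39))
.z)) .z)) (.b (.b (.b (.a (.l 188) .z) (.a (.l 188) .z)) (.b .z (.l 168))) .z))) (.b (.b (.a .z (.b (.a .z (.l 152)) .z)) .z) (.b (.b (.a (.b .z (.a
.z (.l 168))) .z) (.a (.l 168) (.a (.b (.l 168) .z) .z))) .z))) (.a (.b (.a (.b (.a (.l 39) (.b (.a (.b .z (.a (.l 39) .z)) .z) (.a (.l 39) (.b (.a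
(.l 39) .z) (.l 39))))) (.l 39)) (.b .z (.a (.b (.a (.l 39) (.b .z (.a (.l 39) .z))) (.l 39)) (.b .z (.a (.b (.a (.l 39) .z) (.l 39)) .z))))) (.a (.l
39) (.b (.a (.l 39) (.b (.a (.l 39) (.b (.a (.l 39) .z) (.l 39))) (.l 39))) (.l 39)))) (.b .z (.a (.b (.a (.b (.a (.b .z (.a (.l 39) .z)) .z) (.a (.l
39) (.b .z (.l 39)))) .z) (.a (.l 39) (.b (.a (.b (.a (.l 39) .z) (.l 39)) .z) (.a (.l 39) (.b (.a (.l 39) .z) (.l 39)))))) (.b .z (.a (.b .z (.a (.b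
.z (.a (.l 39) .z)) .z)) .z))))))) (.a (.b (.b (.b (.l 39) (.b (.a (.b (.l 39) (.b (.l 39) (.a (.l 39) (.b (.a (.l 39) .z) .z)))) (.b (.a (.l 39) (.b
(.l 39) (.a (.b (.l 39) .z) .z))) (.a (.b (.a (.b (.l 39) .z) .z) (.a .z (.l 74))) (.b (.a .z (.l 74)) (.l 74))))) (.b (.a (.b (.a (.b (.a (.l 39) .z)
.z) (.b .z (.l 74))) (.a (.b .z (.l 74)) (.l 74))) (.l 74)) (.l 74)))) (.a (.b (.a (.b (.l 74) (.b (.a (.b (.l 74) .z) (.l 74)) (.a .z (.a .z (.l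
74))))) (.l 74)) (.a (.b .z (.b .z (.a .z (.b .z (.l 106))))) (.b (.a (.b (.a .z (.l 74)) .z) (.b (.l 74) (.a .z (.l 74)))) (.a (.b (.b .z (.l 106))
(.l 106)) (.b .z (.l 106)))))) (.b (.l 74) (.a (.b (.l 74) (.a (.b (.a .z (.l 74)) .z) (.b (.l 74) (.a .z (.l 74))))) (.l 74))))) (.b (.a (.b (.b (.a
(.b (.a (.b .z (.l 106)) (.l 106)) (.l 106)) (.l 106)) (.l 106)) (.a (.a (.a (.b (.l 106) (.a .z (.l 106))) (.l 106)) (.l 106)) (.b (.l 106) (.a (.l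
106) (.b (.l 106) (.a (.l 106) .z)))))) (.b (.a (.b (.a (.l 106) (.b .z (.l 106))) (.l 106)) (.b (.a (.b (.a .z (.l 74)) .z) (.b (.a (.l 74) .z) (.a
.z (.b .z (.l 34))))) (.a (.b (.a (.l 106) .z) (.a .z (.b .z (.l 34)))) (.b (.a (.b .z (.l 34)) (.l 34)) (.l 34))))) (.a (.b (.a (.b (.l 106) (.a (.l
106) .z)) (.b (.a (.l 106) .z) (.a .z (.b .z (.l 34))))) (.a (.b .z (.a .z (.l 34))) (.l 34))) (.b (.a (.b (.a (.b .z (.l 34)) (.l 34)) (.l 34)) (.l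
34)) (.l 34))))) (.a (.b (.a (.b (.a (.a .z (.l 106)) (.l 106)) (.a .z (.b (.l 106) (.a (.l 106) .z)))) (.b (.a (.b (.l 106) (.a (.l 106) .z)) (.b .z
(.a .z (.l 34)))) (.a (.b .z (.a (.b .z (.l 34)) (.l 34))) (.l 34)))) (.a (.b (.a (.b .z (.a (.l 76) .z)) (.b (.a .z (.b .z (.l 34))) (.a .z (.l
34)))) (.a (.b .z (.l 75)) (.a .z (.l 34)))) (.l 34))) (.l 34)))) (.b (.a (.b (.b (.b (.l 39) (.b (.l 39) (.a (.l 39) (.b (.l 39) (.a (.b (.l 39) .z)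
.z))))) (.b (.b (.a (.b (.a (.b (.l 39) .z) .z) (.a .z (.l 74))) (.b (.a .z (.l 74)) (.l 74))) (.l 74)) (.l 74))) (.b (.a (.l 74) (.b (.a (.l 74) (.b
(.a (.l 74) .z) .z)) (.a (.b (.a (.l 74) .z) .z) (.b (.a .z (.l 34)) (.l 34))))) (.a (.b (.a (.l 74) (.b (.a (.l 74) .z) .z)) (.a (.b (.a (.l 74) .z)
.z) (.b (.a .z (.l 34)) (.l 34)))) (.b (.a (.b (.a .z (.l 34)) (.l 34)) (.l 34)) (.l 34))))) (.b (.a (.b (.b (.l 39) (.b (.b (.l 39) (.a (.l 39) (.b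
(.l 39) .z))) (.b .z (.a .z (.l 74))))) (.b (.a (.l 74) (.b (.l 74) (.a (.l 74) .z))) (.a (.b (.l 74) .z) (.b (.a .z (.b .z (.l 34))) (.a (.b .z (.l
34)) (.l 34)))))) (.b (.a (.b (.a (.l 39) (.b .z (.a (.l 39) .z))) (.b (.b (.l 39) .z) (.a (.l 74) .z))) .z) (.a (.b (.b (.a .z (.b .z (.l 34))) (.a
(.b .z (.l 34)) (.l 34))) (.l 34)) (.b (.a (.l 34) (.b (.a (.l 34) .z) (.l 34))) (.l 34))))) (.b (.a (.b (.a (.b (.a .z (.l 34)) (.l 34)) (.l 34)) (.l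
34)) (.l 34)) (.l 34)))) (.b (.a (.b (.a (.b (.a (.b (.a (.b .z (.l 34)) (.l 34)) (.l 34)) (.l 34)) (.l 34)) (.l 34)) (.l 34)) (.l 34)) (.l 34)))))

theorem vQ69 : ev Q69 I5_4 I4_6 = 1393312079840676 := by decide +kernel

noncomputable def Q257 : QT :=
(.b .z (.a (.b (.a (.b .z (.b .z (.a (.a (.b (.b .z (.b .z (.a (.b .z (.a (.l 59) .z)) .z))) (.b (.b (.a (.l 59) (.b (.a (.l 59) .z) (.l 59))) (.l
59)) (.l 59))) (.b .z (.a (.b (.a (.b .z (.l 59)) .z) (.a (.b (.a (.l 59) .z) .z) .z)) .z))) (.a .z (.b .z (.b (.a .z (.b (.a .z (.l 97)) (.l 97)))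
(.a (.b (.a .z (.l 97)) (.l 97)) (.b (.a (.l 97) .z) .z)))))))) (.b .z (.a (.b .z (.b .z (.a (.b (.a (.b (.a (.l 97) .z) (.a (.l 97) .z)) .z) .z)
.z))) (.b .z (.a (.b .z (.b (.a .z (.b .z (.a (.l 91) .z))) (.a (.b (.a .z (.l 91)) (.l 91)) (.a (.l 91) .z)))) .z))))) (.a (.b (.b (.a (.a (.b (.a
(.b (.l 59) (.a (.l 59) (.b (.l 59) (.a (.l 59) .z)))) (.b (.a (.b (.l 59) (.a (.l 59) .z)) .z) .z)) (.a (.b (.a (.b (.l 59) .z) .z) .z) .z)) .z) (.b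
(.b (.a (.a (.b .z (.a .z (.l 97))) (.b (.a .z (.l 97)) (.l 97))) (.a (.b (.a (.l 97) .z) .z) .z)) (.a (.b (.a (.a .z (.l 97)) (.a (.l 97) .z)) .z)
.z)) .z)) (.a .z (.b (.a .z (.a (.b .z (.a .z (.b .z (.l 91)))) (.b (.a .z (.b .z (.l 91))) (.l 91)))) (.a .z (.b (.a (.b (.b (.l 91) .z) .z) .z)
.z))))) (.a (.b (.b .z (.a .z (.b (.a .z (.b .z (.a .z (.l 43)))) (.a (.b .z (.a (.b .z (.l 43)) (.l 43))) (.l 43))))) (.a (.b (.b (.a .z (.b (.a .z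
(.b .z (.l 43))) (.a (.b .z (.l 43)) (.l 43)))) (.a (.b (.a .z (.b .z (.l 43))) (.l 43)) (.l 43))) (.l 43)) (.b (.a (.l 43) (.b (.l 43) (.a (.l 43)
(.b (.a (.l 43) .z) .z)))) (.a (.b (.a (.l 43) (.b (.l 43) (.a (.l 43) .z))) (.a (.b (.a (.l 43) .z) (.a .z (.b .z (.l 31)))) (.b (.a .z (.b .z (.l
31))) (.l 31)))) (.b (.a (.b .z (.a .z (.l 31))) (.b (.a (.b .z (.l 31)) (.l 31)) (.l 31))) (.l 31)))))) (.b (.a (.b (.b (.a .z (.b .z (.a .z (.b .z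
(.l 43))))) (.a (.b .z (.a .z (.b .z (.l 43)))) (.b (.a (.b .z (.l 43)) (.l 43)) (.l 43)))) (.a (.l 43) (.b (.l 43) (.a (.b (.l 43) .z) (.b .z (.a (.b
.z (.l 31)) (.l 31))))))) (.b (.a (.b (.b (.a (.b .z (.l 43)) (.b .z (.l 43))) (.l 43)) (.a (.l 43) (.b (.l 43) (.a (.l 43) .z)))) (.b (.a (.b (.b .z
(.l 43)) (.l 43)) (.b (.l 43) .z)) (.a (.b (.a (.l 43) .z) (.a .z (.b .z (.l 31)))) (.b (.a (.b .z (.l 31)) (.l 31)) (.l 31))))) (.a (.b (.a (.b (.a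
(.l 43) .z) (.a .z (.b .z (.l 31)))) (.b (.a .z (.b .z (.l 31))) (.l 31))) (.a (.b (.a (.b .z (.l 31)) (.l 31)) (.l 31)) (.l 31))) (.l 31)))) (.a (.b
(.a (.b (.a (.b (.l 43) (.a (.l 43) .z)) (.b (.a (.l 43) .z) (.a .z (.b .z (.l 31))))) (.a (.b (.a .z (.b .z (.l 31))) (.l 31)) (.l 31))) (.b (.a (.b
(.a (.b .z (.l 31)) (.l 31)) (.l 31)) (.l 31)) (.l 31))) (.l 31)) (.l 31))))) (.b (.a (.b (.b (.a .z (.b (.a .z (.b (.a .z (.l 91)) (.l 91))) (.a (.a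
(.b .z (.l 91)) (.l 91)) (.l 91)))) (.a (.b (.a .z (.a .z (.l 91))) (.a (.a .z (.b .z (.l 91))) (.l 91))) (.b (.a (.l 91) (.b (.l 91) (.a (.l 91)
.z))) (.a (.b (.a (.l 91) .z) .z) .z)))) (.a (.b (.b (.a (.l 91) (.b (.a (.l 91) .z) .z)) (.a (.b (.a (.l 91) .z) .z) .z)) (.a .z (.b .z (.a .z (.b
(.l 71) .z))))) (.b .z (.a (.b (.a (.b .z (.l 71)) (.b .z (.l 71))) (.b (.b (.l 71) .z) .z)) (.b (.l 71) .z))))) (.b (.a (.b (.b (.a (.l 91) (.b (.a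
(.l 91) .z) (.a (.l 91) .z))) (.a (.b (.l 91) (.a (.l 91) .z)) .z)) .z) .z) (.a (.b (.a (.b .z (.b .z (.l 71))) (.b .z (.a (.l 71) .z))) (.a (.b (.b
(.l 71) .z) .z) (.a (.b (.b (.l 71) .z) .z) .z))) .z))) (.a (.b (.a (.b (.a (.b .z (.a (.a (.l 31) .z) .z)) .z) (.a (.a (.a (.l 31) (.a (.l 31) (.b .z
(.l 31)))) .z) (.b (.b (.l 173) .z) .z))) (.b .z (.b (.b (.a (.l 173) .z) .z) .z))) (.a (.a (.a (.l 31) (.a (.b (.a (.l 31) (.b .z (.b .z (.l 31))))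
(.l 31)) (.b .z (.a (.b .z (.l 31)) .z)))) (.b (.b .z (.b (.l 195) .z)) (.b (.a .z (.b .z (.l 115))) .z))) (.a .z (.b .z (.a .z (.b (.a .z (.b .z (.l
58))) (.a (.b .z (.l 58)) (.l 58)))))))) (.a (.b (.a (.b (.b .z (.a .z (.l 132))) .z) (.b (.b (.a (.l 132) .z) (.a (.l 132) .z)) .z)) (.a (.b (.a (.b
.z (.a .z (.b .z (.l 58)))) (.b .z (.l 58))) (.l 58)) (.b (.b .z (.b (.b (.b .z (.l 58)) (.l 58)) (.l 58))) (.l 58)))) (.b .z (.b (.b .z (.b (.b .z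
(.a (.b .z (.l 58)) .z)) (.a (.l 58) (.b (.a (.l 58) .z) (.l 58))))) (.l 58)))))))) (.b .z (.a (.b (.a (.b .z (.a (.b .z (.a (.b .z (.a (.l 181) .z))
.z)) .z)) .z) (.b .z (.a (.b (.a (.b .z (.b .z (.a (.b .z (.a (.l 58) .z)) .z))) (.a (.a .z (.b .z (.l 83))) (.l 83))) (.a (.a (.l 58) (.a (.b (.l 58)
(.a (.l 58) (.b (.l 58) .z))) (.b .z (.a .z (.l 83))))) (.b (.a (.a (.a .z (.l 83)) (.l 83)) (.l 83)) (.a (.l 83) (.b (.a (.l 83) .z) .z))))) (.b (.a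
(.b .z (.a (.a (.l 83) .z) .z)) .z) (.a (.b (.a (.b (.a (.l 83) .z) .z) .z) .z) .z))))) (.b .z (.a (.b .z (.b .z (.a .z (.b .z (.a .z (.b .z (.a .z
(.l 83)))))))) (.b .z (.a (.b .z (.b (.a .z (.b (.a .z (.l 83)) (.a (.l 83) .z))) (.a (.b (.a .z (.l 83)) (.a (.l 83) .z)) (.b (.a .z (.b (.a .z (.l
19)) (.l 19))) (.a (.b (.a .z (.l 19)) (.l 19)) (.l 19)))))) (.b .z (.a (.b (.a (.b .z (.b (.a .z (.l 19)) (.l 19))) (.b .z (.a (.b .z (.l 19)) .z)))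
(.l 19)) (.b .z (.a (.b (.a (.b .z (.l 19)) .z) (.l 19)) (.b .z (.a (.b .z (.l 19)) .z))))))))))))))

theorem vQ257 : ev Q257 I4_13 I3_6 = 382183092654345 := by decide +kernel

noncomputable def Q87 : QT :=
(.a (.b (.a (.b (.b (.b (.a (.b (.l 24) (.a (.b (.a (.a .z (.l 24)) (.l 24)) .z) (.l 24))) (.l 24)) (.a (.b (.a (.b (.a (.l 23) (.a (.l 23) .z)) (.l
23)) (.b (.a .z (.a .z (.l 24))) (.a (.l 23) .z))) (.l 23)) (.b (.a (.b (.l 24) (.a .z (.l 24))) (.l 24)) (.a (.b (.a (.a (.l 23) .z) .z) (.a (.l 23)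
(.a (.l 23) .z))) (.b (.l 24) (.a .z (.a .z (.l 24)))))))) (.b (.a (.l 23) (.b (.a (.l 23) (.b (.a (.l 23) .z) (.l 23))) (.l 23))) (.l 23))) (.b (.b
(.l 23) (.b (.b (.a (.l 23) (.a (.a (.l 23) (.a (.l 23) .z)) .z)) (.a (.a (.a (.a (.l 23) .z) .z) .z) (.a .z (.l 28)))) (.b (.a (.a (.a .z (.l 28))
(.l 28)) (.l 28)) (.l 28)))) (.l 28))) (.b (.b (.l 24) (.b (.a (.b (.a (.b (.a .z (.l 24)) (.a (.a (.l 23) .z) .z)) (.l 24)) (.a (.b (.a (.l 23) (.a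
(.l 23) .z)) (.l 23)) (.b (.a .z (.l 24)) (.a (.a (.l 23) .z) .z)))) (.b (.l 24) (.a (.b (.l 24) (.a (.a .z (.l 24)) (.l 24))) (.l 24)))) (.a (.l 23)
(.b (.a (.b (.a .z (.a .z (.l 24))) (.a (.l 23) .z)) (.b (.l 24) (.a (.a .z (.l 24)) (.l 24)))) (.a (.l 23) (.b .z (.a (.l 23) (.a (.l 23) .z))))))))
(.a (.b (.b (.b (.l 23) (.b (.l 23) (.a (.l 23) (.a (.a (.l 23) .z) .z)))) (.b (.b (.a .z (.a .z (.l 28))) (.l 28)) (.l 28))) (.l 28)) (.b (.b (.b (.l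
23) (.b (.a (.l 23) (.a (.l 23) .z)) (.a .z (.a .z (.a .z (.l 28)))))) (.l 28)) (.a (.l 28) (.b (.l 28) (.a (.l 28) (.b (.a (.l 28) (.b (.l 28) .z))
(.a .z (.b .z (.l 23))))))))))) (.a (.b (.b (.b (.l 28) (.a (.b (.l 28) (.a (.b (.a .z (.a .z (.l 28))) (.a (.l 27) .z)) (.b (.l 28) (.a .z (.l
28))))) (.l 28))) (.b (.a (.b (.a (.l 27) (.b (.a (.a (.l 27) .z) .z) (.l 27))) (.l 27)) (.b (.a (.b (.a (.a .z (.l 28)) (.l 28)) .z) (.l 28)) (.a (.b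
(.a (.l 27) (.a (.l 27) .z)) (.l 27)) (.b (.a .z (.a .z (.l 28))) (.a (.l 27) .z))))) (.b (.l 27) (.b (.a (.l 27) (.a (.l 27) (.a (.a (.l 27) .z)
.z))) (.a (.a (.a (.a (.l 27) .z) .z) .z) (.a .z (.a .z (.l 32)))))))) (.a (.b (.b (.b (.b (.a (.a .z (.l 32)) (.l 32)) (.l 32)) (.l 32)) (.l 32)) (.l
32)) (.b (.l 32) (.a (.l 32) (.b (.a (.l 32) (.b (.l 32) (.a (.l 32) (.b (.l 32) .z)))) (.a (.b (.l 32) (.a (.l 32) .z)) (.b (.a .z (.b .z (.l 23)))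
(.a (.b .z (.l 23)) (.l 23))))))))) (.b (.a (.b (.l 28) (.a (.b (.b (.l 28) (.b (.l 28) (.a .z (.l 28)))) (.b (.b (.a (.a (.l 27) .z) .z) (.l 27)) (.b
.z (.l 32)))) (.b (.l 28) (.a (.b (.b (.a .z (.l 28)) .z) (.a (.b .z (.l 32)) .z)) (.b (.a (.b (.l 28) .z) .z) (.a .z (.l 23))))))) (.b (.a (.b (.l
28) (.a (.l 28) (.b (.a (.l 28) .z) (.a .z (.b .z (.l 23)))))) (.b (.a (.b (.a (.l 28) .z) (.a .z (.b .z (.l 23)))) (.b (.a (.b .z (.l 23)) (.l 23))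
(.l 23))) (.a (.b (.a (.b .z (.l 23)) (.l 23)) (.l 23)) (.l 23)))) (.a (.b (.a (.b (.a (.l 28) .z) (.a .z (.b .z (.l 23)))) (.b (.a (.b .z (.l 23))
(.l 23)) (.l 23))) (.a (.b (.a (.b .z (.l 23)) (.l 23)) (.l 23)) (.l 23))) (.l 23)))) (.a (.b (.a (.b (.a (.l 32) (.b (.l 32) (.a (.l 32) (.b (.l 32)
.z)))) (.a (.b (.l 32) (.a (.l 32) (.b (.l 32) .z))) (.b (.a (.b (.l 32) .z) .z) (.a .z (.l 23))))) (.b (.a (.b (.a (.b (.l 32) .z) .z) (.a .z (.l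
23))) (.l 23)) (.l 23))) (.a (.b (.a (.b (.a (.b (.l 32) .z) .z) (.a .z (.l 23))) (.l 23)) (.l 23)) (.l 23))) (.b (.l 23) (.a (.l 23) (.b (.l 23) (.a
(.l 23) (.b (.a (.l 23) (.b (.l 23) .z)) .z))))))))) (.a (.b (.b (.a (.b (.l 24) (.a (.b (.l 24) (.b (.l 24) (.b (.l 24) (.a .z (.l 24))))) (.b (.l
24) (.a (.l 24) (.b (.l 24) (.a (.b (.l 24) .z) .z)))))) (.b (.a (.b (.l 24) (.a (.l 24) (.b (.l 24) (.a (.l 24) .z)))) (.b (.a (.b (.l 24) (.a (.l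
24) .z)) (.b .z (.a (.b .z (.l 23)) (.l 23)))) (.a (.b (.a .z (.b .z (.l 23))) (.a (.b .z (.l 23)) (.l 23))) (.l 23)))) (.a (.b (.a (.b (.l 24) (.a
(.l 24) .z)) (.b (.a .z (.b .z (.l 23))) (.a (.b .z (.l 23)) (.l 23)))) (.a (.b (.a .z (.b .z (.l 23))) (.a (.b .z (.l 23)) (.l 23))) (.l 23))) (.l
23)))) (.a (.b (.a (.b (.b (.b (.a (.a (.l 23) .z) .z) (.a (.l 23) (.a (.l 23) .z))) (.b .z (.l 28))) (.a (.l 28) (.b (.a (.l 28) (.b (.l 28) .z)) (.a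
(.b (.l 28) .z) .z)))) (.b (.a (.b (.a (.b (.l 24) .z) (.b (.l 24) .z)) .z) (.b (.a .z (.l 23)) (.l 23))) (.a (.b (.a .z (.l 23)) (.l 23)) (.l 23))))
(.a (.b (.a (.b (.a (.l 28) (.b (.l 28) .z)) (.a (.b (.l 28) .z) .z)) (.b (.a .z (.l 23)) (.l 23))) (.a (.b (.a .z (.l 23)) (.l 23)) (.l 23))) (.l
23))) (.l 23))) (.b (.a (.b (.l 23) (.a (.l 23) (.b (.l 23) (.a (.l 23) (.b (.l 23) (.a (.l 23) (.b (.l 23) .z))))))) (.b (.a (.l 23) (.b (.a (.l 23)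
(.b (.l 23) (.a (.l 23) .z))) (.a (.b (.a (.l 23) (.b (.l 23) .z)) (.a (.b (.l 23) .z) .z)) (.b (.a .z (.b .z (.l 26))) (.l 26))))) (.a (.b (.a (.l
23) (.b (.a (.l 23) (.b (.l 23) .z)) .z)) (.a (.b (.a (.l 23) .z) (.a .z (.b .z (.l 26)))) (.b (.a (.b .z (.l 26)) (.l 26)) (.l 26)))) (.b (.a (.b (.a
.z (.l 26)) (.b (.l 26) .z)) (.b (.l 26) (.b (.l 26) .z))) (.l 26))))) (.a (.b (.a (.b (.l 23) (.a (.l 23) (.b (.l 23) (.a (.l 23) .z)))) (.b (.a (.b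
(.l 23) (.a (.l 23) (.b (.l 23) .z))) (.b (.a (.b (.l 23) .z) .z) (.a .z (.l 26)))) (.a (.b (.a .z (.b .z (.l 26))) (.a (.b .z (.l 26)) (.l 26))) (.l
26)))) (.a (.b (.a (.b (.a (.l 23) (.b (.l 23) .z)) (.a (.b (.l 23) .z) .z)) (.b (.a .z (.b .z (.l 26))) (.l 26))) (.a (.b .z (.a .z (.l 64))) (.b (.a
.z (.b (.l 26) .z)) (.a (.l 64) .z)))) (.b (.l 26) (.a (.b (.l 26) (.a .z (.l 26))) (.b (.a (.l 26) (.b (.l 26) .z)) (.a .z (.b .z (.l 27)))))))) (.b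
(.a (.b (.l 26) (.a (.l 26) (.b (.l 26) (.a (.l 26) .z)))) (.b (.a (.b (.l 26) (.a (.l 26) (.b (.l 26) .z))) (.b (.a (.b (.l 26) .z) .z) (.a .z (.l
27)))) (.a (.b (.a (.b (.l 26) .z) .z) (.a (.b .z (.l 27)) (.l 27))) (.l 27)))) (.a (.b (.a (.b (.a (.l 26) (.b (.l 26) .z)) (.a (.b (.l 26) .z) .z))
(.b (.a .z (.b .z (.l 27))) (.l 27))) (.a (.b (.a .z (.l 27)) (.l 27)) (.l 27))) (.l 27)))))) (.b (.b (.a (.b (.a (.b (.a (.b (.a (.b (.l 21) .z) (.l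
21)) (.a (.b .z (.l 23)) .z)) (.b (.l 21) (.a (.b (.l 21) .z) (.l 21)))) (.a (.l 23) (.b (.a (.b .z (.l 23)) .z) (.a (.l 23) (.b .z (.l 23)))))) (.b
(.l 21) (.a (.b (.l 21) (.a .z (.b (.l 21) .z))) (.l 21)))) (.a (.l 23) (.b (.a (.b (.a (.l 23) (.b .z (.l 23))) (.l 23)) (.b (.a .z (.b (.l 21) .z))
(.a (.l 23) .z))) (.l 23)))) (.b (.a (.l 21) (.b (.l 21) (.a (.l 21) (.b (.l 21) (.a (.l 21) (.b (.l 21) .z)))))) (.a (.b (.a (.b (.l 21) (.a (.b (.l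
21) .z) (.l 21))) (.l 21)) (.a (.b (.a (.b .z (.l 23)) .z) (.l 23)) (.b (.a (.b (.l 21) .z) (.l 21)) .z))) (.b (.a (.b (.l 21) (.a (.l 21) .z)) (.b .z
(.a (.b .z (.l 26)) (.b .z (.l 26))))) (.a (.b (.a .z (.b .z (.l 26))) (.a (.b .z (.l 26)) (.l 26))) (.l 26)))))) (.a (.b (.a (.l 23) (.b (.l 23) (.a
(.l 23) (.b (.a (.l 23) .z) (.a .z (.b .z (.l 26))))))) (.a (.b (.a (.l 23) (.b (.l 23) (.a (.l 23) (.b (.l 23) .z)))) (.a (.b (.l 23) (.a (.l 23) (.b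
(.l 23) .z))) (.b (.a (.b (.l 23) .z) .z) (.a .z (.l 26))))) (.b (.a (.b (.a (.b (.l 23) .z) .z) (.a .z (.l 26))) (.b (.a (.b .z (.l 26)) (.l 26)) (.l
26))) (.l 26)))) (.b (.a (.b (.a (.b (.a (.l 23) (.b (.l 23) .z)) (.a (.b (.l 23) .z) .z)) (.b (.a .z (.l 26)) (.l 26))) (.a (.b (.a (.b .z (.l 26))
(.l 26)) (.l 26)) (.l 26))) (.b (.l 26) (.a (.l 26) (.b (.l 26) (.a (.b (.l 26) .z) .z))))) (.a (.b (.l 26) (.a (.l 26) (.b (.a (.l 26) .z) (.a .z (.b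
.z (.l 24)))))) (.b (.a (.b (.a (.l 26) (.b (.l 26) .z)) (.a (.b (.l 26) .z) .z)) (.b (.a .z (.l 24)) (.l 24))) (.a (.b (.a (.b .z (.l 24)) (.l 24))
(.l 24)) (.l 24))))))) (.b (.a (.b (.a (.b (.a (.b (.a .z (.b .z (.l 26))) (.a (.b .z (.l 26)) (.l 26))) (.l 26)) (.l 26)) (.b (.a (.l 26) (.b (.l 26)
(.a (.l 26) (.b (.l 26) .z)))) (.a (.b (.l 26) (.a (.l 26) .z)) (.b (.a .z (.b .z (.l 24))) (.a (.b .z (.l 24)) (.l 24)))))) (.a (.b (.a (.b (.l 26)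
(.b (.l 26) .z)) (.b (.a (.l 26) (.b (.l 26) .z)) .z)) (.a (.b (.a (.l 26) (.b (.l 26) .z)) (.a .z (.b .z (.l 27)))) (.b (.a .z (.l 27)) (.l 27))))
(.b (.a (.b (.a .z (.b .z (.l 24))) (.b .z (.l 27))) (.b (.l 24) (.b .z (.l 27)))) (.l 27)))) (.b (.a (.b (.a (.b (.a (.b (.l 26) .z) .z) (.a .z (.l
24))) (.b (.a (.b .z (.l 24)) (.l 24)) (.l 24))) (.l 24)) (.l 24)) (.b (.b (.b (.l 24) (.a (.a (.l 24) .z) .z)) (.b (.a (.a .z (.a .z (.l 27))) (.l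
27)) (.l 27))) (.l 27)))) (.a (.b (.a (.b (.a (.b (.a (.b .z (.l 27)) (.l 27)) (.l 27)) (.l 27)) (.l 27)) (.l 27)) (.l 27)) (.l 27))))))

theorem vQ87 : ev Q87 I4_2 I6_59 = 866647128543968 := by decide +kernel

noncomputable def Q177 : QT :=
(.a (.b (.l 56) (.a (.l 56) (.b (.l 56) (.a (.b (.l 56) (.a (.b (.l 56) (.a (.l 56) (.b (.l 56) .z))) (.b (.a (.l 56) (.b (.a (.l 56) .z) .z)) .z)))
(.b (.a (.b (.l 56) (.a (.b (.l 56) (.a (.l 56) .z)) (.b (.a (.l 56) .z) .z))) (.b (.a (.b (.l 56) (.a (.l 56) .z)) (.b (.a (.l 56) .z) .z)) (.a .z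
(.l 229)))) (.a (.b (.a .z (.l 229)) (.l 229)) (.l 229))))))) (.b (.a (.b (.b (.b (.b (.a (.b (.a (.b .z (.l 56)) .z) (.a (.l 56) (.b .z (.l 56))))
(.b (.l 61) (.a .z (.l 61)))) (.a (.l 56) (.b (.a (.b .z (.l 56)) .z) (.l 56)))) (.l 56)) (.l 56)) (.a (.l 56) (.b (.l 56) (.a (.l 56) (.b (.l 56) (.a
(.l 56) (.b (.l 56) (.a (.l 56) .z)))))))) (.b (.a (.b (.b (.b (.l 61) (.b (.a (.b (.l 61) .z) (.l 61)) (.a .z (.b (.l 61) .z)))) (.b (.b (.a (.l 56)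
.z) (.l 56)) (.l 56))) (.l 56)) (.b (.b (.l 61) (.b (.a (.b (.b (.l 61) .z) .z) (.b (.l 61) (.a .z (.l 61)))) (.a (.l 56) (.b .z (.l 56))))) (.a (.l
56) (.b (.l 56) (.a (.b (.l 56) (.a (.l 56) .z)) (.b (.a (.l 56) .z) .z)))))) (.a (.b (.a (.l 56) (.b (.l 56) (.a (.l 56) (.b (.l 56) .z)))) (.a (.b
(.a (.l 56) (.b (.l 56) .z)) (.a (.b (.a (.l 56) .z) .z) (.b .z (.l 101)))) (.b (.a .z (.b .z (.l 101))) (.l 101)))) (.b (.a (.b (.a (.l 56) (.b (.l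
56) .z)) (.a .z (.b .z (.l 81)))) (.b (.a .z (.l 81)) (.l 81))) (.a (.b .z (.a (.a (.l 101) .z) .z)) (.b (.l 81) (.a .z (.l 81)))))))) (.a (.b (.a (.b
(.l 56) (.a (.b (.l 56) (.a (.b (.l 56) .z) .z)) (.b (.a (.b (.l 56) .z) .z) (.a .z (.l 229))))) (.b (.a (.b (.a (.l 56) (.b (.l 56) (.a (.l 56) .z)))
(.a (.b (.a (.l 56) .z) .z) .z)) (.b (.a (.b (.a (.l 56) .z) .z) .z) (.l 229))) (.a (.b (.a .z (.l 229)) (.l 229)) (.l 229)))) (.a (.b (.a (.b (.a .z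
(.l 229)) (.l 229)) (.l 229)) (.b (.l 229) (.a (.b (.l 229) .z) (.b .z (.a .z (.b .z (.l 38))))))) (.b (.b (.l 229) (.a (.l 229) (.b (.l 229) .z)))
(.b (.a (.b (.l 229) .z) (.b .z (.a (.b .z (.l 38)) (.l 38)))) (.a (.b (.a .z (.l 38)) (.l 38)) (.l 38)))))) (.b (.b (.a (.a (.a .z (.b (.l 101) .z))
(.l 101)) (.a (.a (.l 101) (.a .z (.b (.l 110) .z))) (.a (.b (.b .z (.l 110)) (.l 110)) (.b .z (.a (.l 110) .z))))) (.a (.a (.a (.l 229) (.b .z (.l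
229))) (.a (.b (.a .z (.l 101)) .z) (.b (.l 101) (.a .z (.l 101))))) (.b (.a (.a (.l 101) (.a (.l 101) .z)) (.a (.a .z (.l 110)) (.l 110))) (.a (.b
(.l 101) (.a (.l 101) .z)) (.b .z (.a .z (.b .z (.l 38)))))))) (.b (.a (.b (.a (.l 229) .z) (.a (.b .z (.a .z (.b .z (.l 38)))) (.b (.a .z (.l 38))
(.l 38)))) (.b (.a (.b .z (.a (.b .z (.l 38)) (.l 38))) (.l 38)) (.l 38))) (.l 38))))))

theorem vQ177 : ev Q177 I5_16 I5_20 = 863071626712841 := by decide +kernel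

noncomputable def Q196 : QT :=
(.b (.a (.b (.a (.b (.b (.a (.b (.a (.b (.b (.l 65) .z) (.l 103)) .z) (.a (.b .z (.a .z (.b .z (.l 29)))) (.b .z (.l 29)))) (.b (.a (.b (.a .z (.l
53)) (.l 53)) (.b (.l 53) (.b (.l 53) .z))) (.b (.b .z (.b .z (.l 29))) (.l 29)))) (.b (.l 29) (.b (.l 29) (.b (.l 29) (.b (.l 29) (.a (.l 29)
.z)))))) (.b (.b (.b (.b (.b .z (.l 76)) .z) .z) (.b .z (.b .z (.a .z (.l 37))))) (.b (.b (.b (.b .z (.a .z (.l 37))) (.l 37)) (.l 37)) (.b (.l 37)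
(.b (.b (.l 37) (.a (.l 37) .z)) .z))))) (.b (.b (.b (.b (.a (.l 53) (.b (.l 53) (.a (.l 53) .z))) (.a (.b (.a (.l 53) .z) (.a .z (.b .z (.l 29))))
(.b (.a .z (.b .z (.l 29))) (.l 29)))) (.b (.b (.b (.a (.l 29) .z) (.a .z (.a .z (.l 29)))) (.l 29)) (.l 29))) (.b (.l 29) (.b (.l 29) (.b (.b (.l 29)
(.a (.l 29) (.a (.l 29) .z))) (.b (.a (.a (.l 29) .z) .z) .z))))) (.b (.b (.b (.b (.l 76) (.b (.l 76) .z)) (.b .z (.a (.l 105) .z))) (.b (.b .z (.a .z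
(.l 37))) (.b (.l 37) (.b (.a (.l 37) .z) .z)))) (.b (.b (.b (.b (.a .z (.l 37)) (.l 37)) (.l 37)) (.l 37)) (.b (.l 37) .z))))) (.b (.b (.b (.b (.b
(.a .z (.b .z (.a .z (.l 43)))) (.a .z (.b (.l 43) (.a .z (.l 43))))) (.b (.a (.a .z (.b .z (.l 45))) (.b .z (.a (.l 45) .z))) (.a (.a (.b .z (.l 45))
(.l 45)) (.b (.l 45) (.a (.l 45) .z))))) (.b (.b (.a (.b (.a (.l 45) .z) .z) (.b .z (.l 45))) (.l 45)) (.l 45))) (.b (.b (.b (.a (.l 45) (.b (.a (.l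
45) .z) .z)) .z) (.b (.a .z (.b .z (.l 51))) (.a (.b (.a .z (.l 51)) (.a .z (.l 51))) (.l 51)))) (.b (.b (.a (.b .z (.l 53)) (.b (.a .z (.l 51)) .z))
(.a (.b .z (.a .z (.l 53))) (.b .z (.l 53)))) (.l 53)))) (.b (.b (.b (.b (.a (.b (.l 53) .z) .z) (.a .z (.b .z (.a .z (.l 59))))) (.b (.a (.b (.a .z
(.l 59)) (.l 59)) (.l 59)) (.a (.b (.a .z (.l 59)) .z) (.l 59)))) (.b (.b (.a (.b .z (.l 61)) (.b .z (.a (.l 61) .z))) (.l 61)) (.b (.b (.a (.l 61)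
.z) .z) (.b .z (.a .z (.l 67)))))) (.a (.b (.b (.b (.l 67) .z) (.b (.l 69) .z)) (.b (.b (.b .z (.l 75)) (.l 75)) .z)) (.b (.b (.b (.l 67) (.b (.l 67)
.z)) .z) (.a (.b (.b .z (.l 75)) .z) (.b (.a (.l 75) .z) .z))))))) (.b (.b (.b (.b (.b (.a (.a (.b (.a (.l 53) .z) (.a .z (.b .z (.l 29)))) (.b (.a .z
(.b .z (.l 29))) (.l 29))) (.l 29)) (.b (.a (.l 29) (.b (.a (.l 29) (.a (.l 29) .z)) (.a (.a (.l 29) .z) .z))) (.a (.b (.a (.l 29) (.a (.l 29) .z))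
.z) (.b (.a .z (.l 29)) (.l 29))))) (.b (.b (.a (.b (.a (.a .z (.l 29)) (.l 29)) (.l 29)) (.l 29)) (.l 29)) (.l 29))) (.b (.l 29) (.b (.b (.l 29) (.a
(.l 29) (.b (.a (.l 29) (.a (.l 29) .z)) (.a (.a (.l 29) .z) .z)))) (.b (.a (.b (.a (.l 29) .z) .z) .z) .z)))) (.b (.b (.b (.b (.a (.b .z (.l 76)) .z)
(.a .z (.b (.a .z (.l 35)) (.l 35)))) (.b (.a (.b (.l 35) (.a .z (.l 35))) (.l 35)) (.a .z (.b (.l 35) (.a .z (.l 35)))))) (.b (.b (.a (.l 37) (.b .z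
(.a (.l 37) .z))) (.a (.l 37) (.b (.l 37) (.a (.l 37) .z)))) (.b (.a (.b (.l 37) (.a (.l 37) .z)) (.b .z (.a .z (.l 37)))) (.a (.b .z (.l 37)) (.l
37))))) (.b (.l 37) (.b (.b (.a (.l 37) (.b (.l 37) (.a (.l 37) .z))) (.a (.b (.a (.l 37) .z) .z) .z)) (.b .z (.a .z (.b .z (.l 43)))))))) (.b (.b (.b
(.b (.b (.a (.b (.a .z (.l 43)) (.l 43)) (.l 43)) (.l 43)) (.b (.a (.b (.l 43) .z) (.l 43)) (.a (.b .z (.a .z (.l 45))) (.b (.a .z (.l 43)) .z)))) (.b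
(.b (.a (.l 45) (.b (.a (.l 45) .z) (.l 45))) (.l 45)) (.b (.l 45) (.a (.b (.l 45) (.a (.l 45) .z)) (.b (.a (.l 45) .z) .z))))) (.b (.b (.b (.a .z (.b
(.l 94) .z)) (.a .z (.b .z (.l 51)))) (.l 51)) (.b (.b (.l 51) (.a (.b .z (.a (.l 53) .z)) (.b (.l 51) (.a .z (.l 51))))) (.b (.a (.l 53) (.b .z (.l
53))) (.a (.b (.l 53) .z) .z))))) (.b (.a (.b (.b (.b .z (.b (.a .z (.l 59)) (.l 59))) (.l 59)) (.a (.b (.b (.b (.l 59) .z) (.b (.l 61) .z)) (.b .z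
(.l 67))) (.b (.b (.b (.l 59) .z) .z) .z))) (.b (.a (.b (.b .z (.l 59)) (.l 59)) (.b (.a (.b .z (.l 59)) .z) (.a (.b (.l 59) .z) .z))) (.a (.b (.a (.b
(.l 59) .z) .z) .z) (.b (.a (.b .z (.l 55)) (.l 55)) (.b (.b (.l 55) .z) (.b (.l 55) .z)))))) (.a (.b (.a (.b (.l 67) .z) (.b .z (.a (.b .z (.l 63))
(.b .z (.l 63))))) (.a (.b (.a .z (.b (.l 63) .z)) .z) (.b (.b (.l 63) .z) .z))) (.b (.a (.b .z (.b (.b .z (.l 63)) (.l 63))) .z) (.a (.b (.a (.b (.l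
63) .z) .z) (.a .z (.b .z (.l 59)))) (.b (.a (.b .z (.l 57)) .z) (.b .z (.l 59)))))))))) (.b (.a (.b (.b (.a (.b (.a (.b (.b .z (.l 83)) .z) (.b (.b
.z (.l 83)) .z)) (.a (.b (.b (.l 91) .z) .z) .z)) (.b .z (.a (.b (.b .z (.l 79)) .z) .z))) .z) (.b (.a .z (.b .z (.b (.b .z (.b .z (.l 119))) .z)))
.z)) (.b (.b (.a (.b (.a (.b (.a (.l 71) .z) .z) (.b (.a .z (.b .z (.l 65))) (.b (.b .z (.l 65)) (.b (.l 65) .z)))) .z) (.b (.b (.b (.b .z (.a .z (.l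
65))) (.b (.l 65) (.a (.l 65) .z))) (.b (.b .z (.l 65)) (.b (.a (.l 65) .z) .z))) (.b .z (.b .z (.b (.l 73) .z))))) (.b (.b (.b (.b .z (.a .z (.l
79))) .z) (.b (.b .z (.a .z (.l 81))) .z)) (.a (.b .z (.b .z (.b (.l 95) .z))) (.b (.b (.l 87) .z) (.a (.b .z (.l 95)) .z))))) (.b (.b (.a (.b (.b .z
(.b .z (.l 103))) .z) .z) .z) (.b (.a .z (.b .z (.b (.b .z (.l 123)) .z))) .z)))) .z))

theorem vQ196 : ev Q196 I6_33 I4_15 = 310420366455116 := by decide +kernel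

noncomputable def Q79 : QT :=
(.a (.a (.b (.a (.b (.a (.l 58) (.b (.a (.l 58) (.b (.a (.l 58) (.b .z (.l 58))) (.l 58))) (.l 58))) (.l 58)) (.b (.a (.b (.a (.b (.a .z (.l 123)) (.a
(.b .z (.l 58)) .z)) (.b (.l 123) (.a .z (.l 123)))) (.a (.l 58) (.b (.a (.b .z (.l 58)) .z) (.a (.l 58) (.b .z (.l 58)))))) (.b .z (.a (.b (.a (.l
123) .z) .z) (.a .z (.b (.a .z (.l 50)) (.l 50)))))) (.a (.l 58) (.b (.a (.b (.a (.l 58) .z) (.a (.l 58) .z)) (.b (.a .z (.b .z (.l 44))) .z)) (.a (.a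
(.b (.a (.l 58) .z) .z) (.b (.a .z (.l 61)) (.l 61))) (.a (.a (.l 61) .z) .z)))))) (.a (.a (.l 58) (.b (.l 58) (.a (.l 58) (.b (.l 58) (.a (.l 58) (.b
(.l 58) (.a (.l 58) .z))))))) (.a (.b (.a (.b (.l 58) (.a (.l 58) (.b (.l 58) (.a (.l 58) .z)))) (.b (.a (.l 58) (.b (.a (.l 58) .z) .z)) (.a (.b (.a
(.l 58) .z) .z) (.b (.a .z (.l 61)) (.l 61))))) (.a (.b (.a (.b (.l 58) (.a (.l 58) .z)) (.b .z (.a .z (.l 61)))) (.a (.b .z (.a .z (.l 61))) (.l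
61))) (.l 61))) (.b (.a (.b (.a (.b (.a .z (.l 61)) (.l 61)) (.l 61)) (.l 61)) (.a (.l 61) (.b (.a (.b .z (.l 61)) .z) (.a (.l 61) (.b .z (.l 61))))))
(.a (.l 61) (.b (.l 61) (.a (.l 61) (.b (.l 61) .z)))))))) (.b (.a (.b (.a (.a (.b (.a (.b (.a .z (.l 50)) (.l 50)) (.l 50)) (.l 50)) (.b (.l 50) (.b
(.l 50) (.b (.l 50) (.b (.l 50) .z))))) (.b (.l 50) (.b (.l 50) (.b (.b (.l 50) (.a (.l 50) .z)) (.b .z (.a .z (.l 44))))))) (.a (.b (.a (.b (.b (.b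
.z (.l 44)) (.l 44)) (.a (.b (.l 44) .z) (.l 44))) (.b (.b (.b .z (.l 44)) (.l 44)) (.l 44))) (.a (.b (.a .z (.b (.l 44) .z)) .z) (.b (.l 44) (.a .z
(.l 44))))) (.l 44))) (.b (.b (.l 50) (.b (.b (.a (.l 50) (.b (.l 50) (.a (.l 50) .z))) (.a (.b (.l 50) (.a (.l 50) .z)) (.b .z (.a .z (.l 44))))) (.b
(.a (.b .z (.a .z (.l 44))) (.l 44)) (.l 44)))) (.l 44))) (.a (.b (.a .z (.b (.a (.b (.a (.b (.l 44) .z) (.l 44)) (.a .z (.b (.l 44) .z))) (.l 44))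
(.a (.b .z (.l 88)) (.b (.a .z (.l 44)) .z)))) (.a (.a (.b (.a (.a (.l 61) .z) .z) .z) (.b (.a .z (.b .z (.l 88))) (.l 88))) (.l 88))) (.b (.a (.b (.l
44) (.a (.b (.l 44) (.a (.b (.l 44) .z) (.l 44))) (.l 44))) (.l 44)) (.a (.b (.a (.b (.a .z (.b (.l 44) .z)) (.a (.l 88) .z)) (.b (.l 44) (.a .z (.l
44)))) (.a (.l 88) (.b .z (.a (.l 88) .z)))) (.b (.l 44) (.a (.b (.l 44) (.a .z (.b (.l 44) .z))) (.b (.a (.l 44) (.b (.l 44) .z)) (.a (.b (.l 44) (.a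
.z (.b .z (.a .z (.l 6))))) (.b (.a .z (.b .z (.a .z (.l 6)))) (.a (.b (.a .z (.l 6)) (.l 6)) (.l 6)))))))))))) (.b (.a (.a (.b (.b (.b (.l 50) (.a
(.b (.l 50) (.a (.l 50) (.b (.l 50) .z))) (.b (.a (.l 50) (.b (.l 50) .z)) (.a .z (.b .z (.l 44)))))) (.b (.a (.b (.a .z (.b .z (.l 44))) (.l 44)) (.l
44)) (.l 44))) (.l 44)) (.b (.b (.b (.a (.b (.l 50) (.a (.l 50) (.b (.l 50) .z))) (.b (.a (.l 50) .z) (.a .z (.b .z (.l 44))))) (.a (.b (.a .z (.b .z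
(.l 44))) (.l 44)) (.l 44))) (.l 44)) (.a (.b (.l 44) (.a (.l 44) (.b (.l 44) (.a (.l 44) (.b .z (.a .z (.b .z (.a .z (.l 6))))))))) (.b (.a (.l 44)
(.b (.a (.l 44) (.b (.l 44) .z)) (.a (.b (.l 44) (.a .z (.b .z (.a .z (.l 6))))) (.b (.a .z (.b .z (.l 6))) (.a (.b (.a .z (.l 6)) (.l 6)) (.l 6))))))
(.a (.b (.a (.b (.l 44) .z) (.b .z (.a (.b .z (.a .z (.l 6))) (.b (.a .z (.l 6)) (.l 6))))) (.a (.b (.a .z (.b .z (.l 6))) (.l 6)) (.l 6))) (.b (.a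
(.b (.a (.b .z (.l 6)) (.l 6)) (.l 6)) (.l 6)) (.l 6))))))) (.b (.a (.a (.b (.b (.b (.a (.b .z (.l 44)) (.l 44)) (.l 44)) (.l 44)) (.a (.b (.l 44) (.a
(.l 44) (.b (.l 44) .z))) (.b (.a (.b (.l 44) .z) (.b .z (.a .z (.b (.a .z (.l 6)) (.l 6))))) (.a (.b (.a .z (.b .z (.a .z (.l 6)))) (.a (.b (.a .z
(.l 6)) (.l 6)) (.l 6))) (.l 6))))) (.b (.a (.b (.a (.l 44) (.b (.l 44) .z)) (.a (.b (.l 44) .z) (.b (.a .z (.b .z (.a .z (.l 6)))) (.a (.b (.a .z (.l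
6)) (.l 6)) (.l 6))))) (.b (.a (.b .z (.a .z (.b (.a .z (.l 6)) (.l 6)))) (.b (.a (.b .z (.a .z (.l 6))) (.l 6)) (.l 6))) (.l 6))) (.a (.b (.a (.b (.a
(.b .z (.a .z (.l 6))) (.l 6)) (.l 6)) (.l 6)) (.l 6)) (.l 6)))) (.b (.a (.b (.a (.l 6) (.b (.a (.l 6) (.b (.a (.a (.l 6) .z) .z) (.a (.l 6) (.a (.l
6) .z)))) (.l 6))) (.l 6)) (.b (.a (.b (.a (.b (.l 4) (.a .z (.l 4))) (.l 4)) (.a (.b (.a (.a (.l 6) .z) .z) (.a (.l 6) (.a (.l 6) .z))) (.b (.l 4)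
(.a .z (.l 4))))) (.l 4)) (.a (.b (.a (.l 6) (.b (.a (.a (.l 6) .z) .z) (.a (.l 6) (.a (.l 6) .z)))) (.l 6)) (.b (.a (.b (.l 4) (.a .z (.l 4))) (.l
4)) (.a (.b (.a (.a (.l 6) .z) .z) (.a (.l 6) (.a (.l 6) .z))) (.b (.l 4) (.a .z (.l 4)))))))) (.a (.l 6) (.b (.a (.l 6) (.a (.l 6) (.b (.a (.b (.a
(.l 6) .z) (.l 6)) (.b .z (.a (.l 6) .z))) (.l 6)))) (.l 6))))) (.a (.a (.b (.a (.b (.a (.b .z (.a (.b .z (.a .z (.l 6))) (.b (.a .z (.l 6)) (.l 6))))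
(.b (.a (.b .z (.a .z (.l 6))) (.l 6)) (.l 6))) (.l 6)) (.l 6)) (.l 6)) (.l 6)) (.l 6)))) (.a (.a (.b (.a (.l 44) (.b (.l 44) (.a (.b (.l 44) (.a (.b
(.l 44) .z) (.b .z (.a (.b .z (.a .z (.l 6))) (.b (.a .z (.l 6)) (.l 6)))))) (.b (.a (.b (.l 44) .z) (.b (.a .z (.b .z (.a .z (.l 6)))) (.a (.b (.a .z
(.l 6)) (.l 6)) (.l 6)))) (.a (.b (.a (.b .z (.a .z (.l 6))) (.l 6)) (.l 6)) (.l 6)))))) (.a (.b (.a (.b (.l 44) (.a (.l 44) (.b (.l 44) .z))) (.b (.a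
(.l 44) (.b (.l 44) (.a .z (.b .z (.a .z (.l 6)))))) (.a (.b .z (.a (.b .z (.l 6)) (.l 6))) (.b (.a (.b (.a .z (.l 6)) (.l 6)) (.l 6)) (.l 6))))) (.a
(.b (.a (.b .z (.a .z (.b .z (.l 6)))) (.b (.a (.b .z (.a .z (.l 6))) (.b (.a .z (.l 6)) (.l 6))) (.l 6))) (.l 6)) (.l 6))) (.b (.a (.b (.a (.b (.a .z
(.b .z (.l 6))) (.a (.b (.a .z (.l 6)) (.l 6)) (.l 6))) (.l 6)) (.l 6)) (.l 6)) (.l 6)))) (.b (.a (.b (.a (.b (.a (.l 44) (.b (.l 44) .z)) (.a (.b .z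
(.a .z (.b .z (.l 6)))) (.b (.a (.b .z (.a .z (.l 6))) (.b (.a .z (.l 6)) (.l 6))) (.l 6)))) (.b (.a (.b .z (.a (.b .z (.a .z (.l 6))) (.l 6))) (.b
(.a (.b (.a .z (.l 6)) (.l 6)) (.l 6)) (.l 6))) (.l 6))) (.a (.b (.a (.b (.a (.b (.a .z (.l 6)) (.l 6)) (.l 6)) (.l 6)) (.l 6)) (.l 6)) (.l 6))) (.l
6)) (.l 6))) (.l 6))))

theorem vQ79 : ev Q79 I4_2 I6_45 = 856156874884110 := by decide +kernel

noncomputable def Q71 : QT :=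
(.b (.b (.b (.a (.b (.a (.b (.l 14) (.a (.b (.a (.b (.a (.b (.l 14) .z) (.l 14)) (.a .z (.b (.l 14) .z))) (.l 14)) (.a .z (.b (.a .z (.l 14)) .z)))
(.l 14))) (.l 14)) (.a (.b (.a .z (.b (.a (.b (.a .z (.l 14)) .z) (.l 14)) (.a .z (.b (.a .z (.b (.l 14) .z)) .z)))) .z) (.b (.a (.b (.l 14) (.a (.b
(.l 14) (.a (.b (.l 14) .z) (.l 14))) (.l 14))) (.l 14)) (.a (.b (.a (.b (.a .z (.b (.l 14) .z)) .z) (.b (.l 14) (.a (.b (.l 14) .z) (.l 14)))) (.a .z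
(.b (.a .z (.b (.l 14) .z)) .z))) (.b (.l 14) (.a (.b (.l 14) (.a (.b (.l 14) .z) (.l 14))) (.l 14))))))) (.l 14)) (.a (.b (.a .z (.b (.a .z (.b (.a
(.b (.a .z (.b (.l 14) .z)) .z) (.b (.l 14) (.a (.b (.l 14) .z) (.l 14)))) (.a .z (.b (.a .z (.b (.l 14) .z)) .z)))) (.a .z (.b .z (.a .z (.l 75))))))
(.a (.b .z (.a .z (.b .z (.a .z (.l 75))))) (.a (.b (.b .z (.a .z (.l 75))) (.l 75)) (.l 75)))) (.a (.b (.a (.b (.a (.b (.l 14) (.a (.b (.l 14) .z)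
(.l 14))) (.l 14)) (.a (.b (.a .z (.b (.a .z (.l 14)) .z)) (.l 75)) (.b (.a (.b (.l 14) (.a .z (.l 14))) (.l 14)) (.a .z (.b (.a .z (.l 14)) .z)))))
(.b (.l 14) (.a (.b (.l 14) (.a (.b (.l 14) (.a .z (.l 14))) (.l 14))) (.l 14)))) (.a (.l 75) (.b (.a (.b (.a .z (.b (.a .z (.l 14)) .z)) (.l 75)) (.b
(.a (.b (.l 14) (.a .z (.l 14))) (.l 14)) (.a .z (.b (.a .z (.l 14)) .z)))) (.l 75)))) (.b (.l 14) (.a (.b (.a (.b (.l 14) (.a (.b (.l 14) (.a .z (.l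
14))) (.l 14))) (.l 14)) (.a (.b (.a .z (.b (.a .z (.l 14)) .z)) .z) (.b (.l 14) (.a .z (.b (.l 14) .z))))) (.l 14)))))) (.a (.b (.a (.b (.b (.a (.b
.z (.a .z (.l 75))) (.l 75)) (.l 75)) (.a (.b (.a (.b (.l 75) .z) (.l 75)) (.a .z (.b (.l 75) .z))) (.l 75))) (.l 75)) (.b (.a (.a (.b (.a (.l 115)
.z) (.a (.a (.l 115) .z) .z)) (.b (.a .z (.l 75)) .z)) (.a (.b (.l 75) (.a (.b (.l 75) .z) (.l 75))) (.l 75))) (.b (.a .z (.a .z (.l 75))) .z))) (.b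
(.a (.l 75) (.b (.a (.b (.a (.l 75) (.b .z (.l 75))) (.l 75)) (.b (.a (.b (.a .z (.b (.l 14) (.a .z (.l 14)))) .z) (.b (.l 14) (.a (.b (.a .z (.l 14))
.z) (.b (.l 14) (.a .z (.l 14)))))) (.a (.l 75) (.b .z (.l 75))))) (.l 75))) (.b (.l 75) (.b (.b (.a (.l 75) (.b (.a (.l 75) .z) .z)) (.a (.b (.a (.l
75) .z) .z) (.b (.a .z (.l 116)) (.a .z (.l 116))))) (.b (.a .z (.a (.a .z (.l 116)) (.l 116))) (.a (.a (.l 140) .z) (.a (.a .z (.l 116)) (.l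
116))))))))) (.a (.b (.b (.b (.a (.a (.b (.l 241) .z) .z) .z) .z) (.b (.b (.a (.b .z (.a (.l 76) (.b .z (.l 76)))) .z) (.a (.l 76) (.b .z (.a .z (.l
140))))) (.a (.l 76) (.a (.a (.a (.l 76) .z) (.l 140)) (.l 140))))) (.a (.a (.l 76) (.a (.l 76) (.b (.l 76) (.a (.l 76) (.b (.a (.l 76) .z) .z)))))
(.a (.a (.b (.a (.b (.a (.l 76) .z) .z) .z) (.a .z (.l 290))) (.b .z (.l 290))) (.b (.b (.b (.b (.l 140) .z) .z) .z) (.l 290))))) (.b (.a (.b (.a (.a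
.z (.b (.b (.l 140) .z) .z)) (.a (.b (.a (.l 140) .z) .z) .z)) (.b .z (.b (.b (.a (.l 140) .z) (.l 140)) (.l 140)))) (.b (.a (.a .z (.b (.a (.b (.l
116) .z) (.l 116)) .z)) (.l 116)) (.a (.b .z (.a (.b .z (.l 140)) .z)) (.b (.a (.a .z (.b (.l 116) .z)) (.b (.l 116) (.a (.l 116) .z))) (.a (.b .z (.a
.z (.b .z (.l 46)))) (.b (.a .z (.b .z (.l 46))) (.l 46))))))) (.a (.b (.a (.b (.b (.l 140) (.b (.l 140) .z)) .z) (.b (.l 140) (.a .z (.b .z (.a .z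
(.b .z (.l 46))))))) (.a (.b (.a (.l 290) .z) (.a (.b .z (.a .z (.b .z (.l 46)))) (.b (.a .z (.b .z (.l 46))) (.l 46)))) (.b (.a (.b .z (.a (.b .z (.l
46)) (.l 46))) (.l 46)) (.l 46)))) (.b (.a (.b (.a (.b (.l 140) .z) (.b .z (.a (.b .z (.l 46)) (.l 46)))) (.a (.b (.a .z (.l 46)) (.l 46)) (.l 46)))
(.l 46)) (.l 46))))))

theorem vQ71 : ev Q71 I6_11 I4_6 = 618573777775133 := by decide +kernel

noncomputable def Q94 : QT :=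
(.b (.b (.b (.a (.b (.a (.b (.a (.b (.l 60) (.a (.l 60) (.b (.l 60) .z))) (.b (.a (.l 60) .z) (.a .z (.b .z (.l 57))))) (.a (.b (.a (.b (.l 60) .z)
.z) (.a (.b .z (.l 65)) (.l 65))) (.b (.b (.l 57) .z) (.b (.a (.l 65) .z) (.l 65))))) (.b (.a (.b (.a (.b .z (.l 57)) (.l 57)) (.l 57)) (.l 57)) (.b
(.a (.l 57) (.a (.l 57) .z)) (.b .z (.a (.a (.l 65) .z) .z))))) (.a (.b (.a (.b (.b (.a (.l 65) .z) .z) (.a .z (.l 70))) (.b (.b .z (.l 70)) (.l 70)))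
(.a (.b .z (.l 73)) (.b (.a .z (.l 70)) .z))) (.b (.a (.b (.b .z (.l 70)) (.l 70)) .z) .z))) (.b (.a (.b (.a (.b (.a (.l 57) (.b (.l 57) .z)) (.a (.b
(.l 57) .z) .z)) (.b (.a .z (.b .z (.l 65))) (.a (.l 65) (.b (.l 65) .z)))) (.a (.b (.a (.b .z (.l 65)) (.l 65)) (.a (.b (.l 65) .z) .z)) (.b (.a (.b
(.l 65) .z) .z) (.a (.b .z (.l 63)) (.b (.l 63) .z))))) (.b (.a (.b (.a (.a (.l 65) .z) .z) .z) (.b (.a .z (.b (.l 59) .z)) .z)) (.b (.b (.a (.a .z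
(.l 63)) (.l 63)) (.l 63)) (.b (.l 63) .z)))) (.a (.b (.a (.b (.a .z (.b .z (.l 64))) (.b .z (.l 67))) (.b .z (.b .z (.l 67)))) (.b (.b (.l 67) .z)
(.b (.l 72) .z))) (.b (.b (.b (.l 68) (.a .z (.l 68))) (.b .z (.a (.l 67) .z))) (.a (.b (.b (.l 67) .z) (.l 72)) (.b .z (.a (.l 72) .z))))))) (.a (.b
(.a (.b (.a (.b (.a (.l 73) .z) .z) .z) (.a .z (.b (.b .z (.l 75)) (.b .z (.l 80))))) (.b (.b (.l 71) (.b .z (.a .z (.l 76)))) (.b (.b .z (.a (.l 75)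
.z)) (.b .z (.l 80))))) (.a (.b (.b (.b .z (.a (.l 79) .z)) (.b .z (.l 84))) (.a (.b .z (.l 88)) .z)) (.b (.a (.b (.b (.l 80) .z) .z) .z) (.a (.b .z
(.l 78)) (.l 78))))) (.b (.a (.b (.b (.b (.a (.l 71) .z) (.a (.l 71) .z)) (.b .z (.l 76))) (.a (.b (.b (.l 76) .z) .z) .z)) (.b (.a .z (.b .z (.a (.l
71) .z))) (.a .z (.b .z (.l 74))))) (.a (.b .z (.a (.b .z (.a (.l 78) .z)) (.b (.b .z (.l 82)) .z))) (.b (.a (.b .z (.b (.l 77) .z)) (.b (.b (.l 74)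
.z) (.b (.l 77) .z))) (.b (.l 82) (.b (.a .z (.l 82)) .z))))))) (.b (.a (.b (.a (.b .z (.b (.l 81) (.a (.b (.l 81) .z) (.a (.l 81) .z)))) (.b (.b (.b
.z (.l 81)) (.b .z (.a .z (.l 86)))) .z)) (.a (.b (.b .z (.a (.b (.l 92) .z) .z)) (.b (.b (.a .z (.l 92)) .z) (.b .z (.l 100)))) (.b (.a .z (.b .z (.b
.z (.l 96)))) (.a .z (.b (.a .z (.l 96)) .z))))) (.b (.a (.b (.a (.b (.b .z (.l 81)) (.b .z (.l 86))) .z) (.a (.b .z (.a .z (.l 88))) (.b .z (.l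
88)))) (.b .z (.a (.b .z (.l 88)) .z))) (.a (.b (.b (.b (.l 88) .z) (.b .z (.l 96))) (.a (.b (.l 96) .z) (.b (.l 96) .z))) (.b (.b (.b .z (.a .z (.l
91))) (.a (.b .z (.l 96)) .z)) (.b (.a (.b (.l 96) .z) .z) (.a .z (.b (.l 98) .z))))))) (.b (.a (.a (.b (.b (.a (.b (.l 100) .z) .z) .z) (.a .z (.b
(.b .z (.l 110)) .z))) (.b (.a (.b .z (.b (.l 102) .z)) (.b (.b .z (.l 102)) (.b (.l 102) .z))) (.b (.b .z (.l 110)) (.a (.l 110) (.b (.l 110) .z)))))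
(.b (.a (.a (.b .z (.b (.l 102) .z)) .z) (.b (.b .z (.a .z (.l 106))) (.l 106))) (.a (.a .z (.b .z (.b .z (.l 112)))) .z))) (.a (.b (.a (.b (.a .z (.b
.z (.l 105))) .z) .z) (.a (.b (.b .z (.l 124)) (.a (.l 124) .z)) (.b (.a (.b (.l 124) .z) .z) .z))) (.b (.a .z (.b .z (.a .z (.b (.l 120) .z))))
.z))))) (.b (.b (.b .z (.a (.b .z (.a (.b (.b .z (.l 164)) .z) .z)) .z)) .z) .z))

theorem vQ94 : ev Q94 I5_5 I5_31 = 153067365472307 := by decide +kernel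

noncomputable def Q195 : QT :=
(.b (.a (.b (.b (.b (.b (.a (.b (.a (.b .z (.l 45)) .z) (.l 45)) (.b (.a (.b (.l 59) .z) (.l 59)) (.a (.b .z (.l 45)) .z))) (.a (.l 45) (.b (.a (.l
45) (.b .z (.l 45))) (.l 45)))) (.l 45)) (.b (.b (.l 45) (.a (.b (.l 45) (.a (.l 45) (.b (.l 45) .z))) (.b (.a (.l 45) .z) (.a (.b .z (.a .z (.l 20)))
(.b (.a .z (.l 20)) (.l 20)))))) (.b (.a (.b (.a (.b .z (.a .z (.l 20))) (.b (.a .z (.l 20)) (.l 20))) (.l 20)) (.l 20)) (.a (.b (.l 20) (.a (.b .z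
(.a (.l 19) .z)) (.b (.l 20) .z))) (.l 20))))) (.b (.b (.b (.a (.b (.a (.l 19) (.b (.a (.l 19) .z) (.l 19))) (.l 19)) (.b (.a (.b (.a .z (.l 20)) .z)
(.b (.l 20) (.a .z (.l 20)))) (.a (.l 19) (.b .z (.l 19))))) (.l 19)) (.b (.l 19) (.a (.b (.l 19) (.a (.b (.l 19) (.a (.l 19) .z)) (.b (.a (.l 19) .z)
.z))) (.b (.a (.b (.l 19) (.a (.l 19) .z)) .z) (.a .z (.l 71)))))) (.b (.b (.a (.b (.a .z (.l 71)) (.l 71)) (.l 71)) (.a (.b (.l 71) .z) (.l 71))) (.b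
(.a (.b (.a (.l 23) .z) (.a (.a (.l 23) (.b (.l 23) .z)) .z)) (.b (.a .z (.l 71)) .z)) (.a .z (.l 123)))))) (.b (.b (.b (.b (.a (.a (.l 59) (.b (.l
59) (.a (.l 59) .z))) (.a .z (.l 81))) (.a (.b .z (.a (.l 45) (.b .z (.l 45)))) (.b (.l 81) (.a .z (.l 81))))) (.b (.a (.l 45) (.b (.a (.b .z (.l 45))
.z) (.l 45))) (.a (.l 45) (.b (.l 45) (.a (.l 45) (.b (.l 45) .z)))))) (.b (.b (.a (.b (.l 45) (.a (.b (.l 45) .z) (.b .z (.a .z (.l 20))))) (.b (.a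
(.b (.l 45) .z) (.b .z (.a .z (.l 20)))) (.a (.b (.a .z (.l 20)) (.l 20)) (.l 20)))) (.a (.b (.a (.b .z (.l 20)) (.l 20)) (.l 20)) (.l 20))) (.l 20)))
(.a (.b (.b (.b (.b (.l 20) (.a (.b (.a .z (.l 20)) .z) (.l 20))) (.b (.a (.b (.a (.l 19) .z) (.l 19)) (.b .z (.a (.l 19) .z))) (.l 19))) (.b (.b (.l
19) (.a (.b (.l 19) .z) .z)) (.b (.a .z (.l 71)) (.l 71)))) (.a (.b (.l 71) (.b (.b (.l 71) .z) (.b .z (.l 123)))) (.b (.l 71) (.a (.b (.l 71) .z) (.b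
(.l 71) .z))))) (.b (.a (.b (.b (.l 20) (.b (.b (.l 20) (.a .z (.l 20))) (.b .z (.l 19)))) (.b (.b (.b (.a (.l 19) .z) .z) .z) (.l 71))) (.b (.a (.b
(.l 20) (.b (.l 20) .z)) (.b (.l 20) (.a (.b (.l 20) .z) (.b (.l 20) .z)))) .z)) (.a (.b (.a (.b (.l 71) .z) .z) (.a (.b .z (.a .z (.b .z (.l 21))))
(.b .z (.b .z (.l 21))))) (.b (.a (.b .z (.l 67)) (.l 67)) (.b (.b .z (.b (.a .z (.l 21)) .z)) (.b (.b .z (.l 21)) (.l 21))))))))) (.a (.b (.a (.b (.b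
(.a (.b (.l 73) .z) .z) (.b (.a .z (.b .z (.a .z (.l 49)))) (.a (.b .z (.l 49)) (.l 49)))) (.b (.b (.b (.l 49) (.b (.a (.l 49) .z) .z)) (.b (.b .z (.l
79)) (.a (.l 79) .z))) (.b .z (.b .z (.l 69))))) (.b (.b (.b (.a (.l 123) (.b (.l 123) .z)) (.a .z (.b .z (.l 49)))) (.b (.a (.b (.a .z (.l 49)) (.l
49)) (.l 49)) (.l 49))) (.a (.b (.b (.b (.b (.l 49) .z) .z) .z) (.b (.l 109) .z)) (.b (.a (.b .z (.l 109)) .z) (.a (.b (.l 109) .z) (.b .z (.a (.b .z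
(.l 21)) (.l 21)))))))) (.a (.b (.b (.b (.b (.b .z (.a .z (.a .z (.l 28)))) (.b (.a (.a .z (.l 28)) (.l 28)) (.l 28))) (.l 28)) (.b (.b (.l 28) (.b
(.a .z (.l 28)) (.a (.a (.l 27) .z) .z))) (.b (.b (.a (.l 27) (.a (.l 27) .z)) (.a (.a (.l 27) .z) .z)) (.b .z (.l 125))))) (.a (.b (.b (.b (.l 125)
.z) .z) (.b .z (.l 65))) (.b (.a (.b (.l 125) .z) .z) (.a .z (.b (.a .z (.l 53)) (.l 53)))))) (.b (.a (.b (.a (.b (.b (.b .z (.l 28)) (.l 28)) (.l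
28)) (.b (.b (.b .z (.l 28)) (.l 28)) (.a (.b (.l 28) .z) .z))) (.a (.b (.a (.b (.l 28) .z) (.b (.l 28) .z)) .z) (.b (.a .z (.b (.l 21) .z)) (.b .z
(.l 53))))) (.b (.a (.b (.a .z (.b .z (.l 21))) (.a (.b .z (.l 21)) (.l 21))) (.l 21)) (.b (.b (.l 21) (.b (.a (.l 21) .z) .z)) (.b .z (.l 53))))) (.a
(.b (.a (.b (.a .z (.l 53)) (.l 53)) (.l 53)) (.l 53)) (.l 53))))) (.b (.a (.b (.a (.b (.b (.b .z (.a .z (.l 49))) (.l 49)) (.a (.b (.l 49) (.b (.l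
49) .z)) (.b (.a (.l 49) .z) (.a .z (.b .z (.l 21)))))) (.b (.a (.b (.b .z (.l 49)) .z) (.b (.a .z (.b .z (.l 21))) (.a (.b .z (.l 21)) (.l 21)))) (.a
(.b (.a .z (.l 21)) (.l 21)) (.l 21)))) (.a (.b (.a (.b .z (.a .z (.b .z (.l 21)))) (.b (.a (.b .z (.l 21)) (.l 21)) (.l 21))) (.l 21)) (.l 21))) (.l
21)) (.b (.b (.b (.l 21) (.b (.l 21) (.a (.l 21) (.b (.l 21) (.a (.l 21) .z))))) (.b (.b (.a (.b (.l 21) (.a (.l 21) .z)) .z) (.a .z (.l 141))) (.a .z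
(.l 141)))) (.b (.b (.a (.b (.a (.l 53) (.b .z (.l 53))) (.l 53)) (.b .z (.a (.l 53) (.b .z (.l 53))))) (.l 53)) (.a (.b (.l 53) (.a (.l 53) (.b (.l
53) (.a (.l 53) .z)))) (.b (.a (.l 53) (.b (.l 53) .z)) (.a (.b .z (.a .z (.l 29))) (.b (.a (.b .z (.l 29)) (.l 29)) (.l 29))))))))))

theorem vQ195 : ev Q195 I6_33 I5_29 = 350712069702894 := by decide +kernel

noncomputable def Q185 : QT :=
(.b (.b (.b (.b (.b (.a (.b (.l 7) (.a (.b (.a (.b (.a .z (.l 7)) (.a (.a (.l 9) .z) .z)) (.l 7)) (.a (.b (.a (.l 9) (.a (.l 9) .z)) (.l 9)) (.b (.a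
.z (.a (.a .z (.l 7)) (.l 7))) (.a (.l 9) .z)))) (.b (.l 7) (.a (.b (.l 7) (.a (.a .z (.l 7)) (.l 7))) (.l 7))))) (.l 7)) (.a (.b (.a (.l 9) (.b (.a
(.b (.a .z (.a .z (.a .z (.l 7)))) (.a (.l 9) (.a (.l 9) .z))) (.b (.l 7) (.a .z (.l 7)))) (.a (.l 9) (.b (.a (.a (.l 9) .z) .z) (.a (.l 9) (.a (.l 9)
.z)))))) (.l 9)) (.b (.a (.b (.l 7) (.a (.b (.l 7) (.a .z (.a (.a .z (.l 7)) (.l 7)))) (.l 7))) (.l 7)) (.a (.b (.a (.b (.a (.l 9) .z) (.l 9)) (.b (.a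
(.a (.a .z (.l 7)) (.l 7)) (.l 7)) (.a .z (.a .z (.l 7))))) (.a (.l 9) (.b (.a (.l 9) .z) (.l 9)))) (.b (.l 7) (.a (.b (.a (.a .z (.l 7)) (.l 7)) (.a
.z (.a .z (.a .z (.l 7))))) (.l 7))))))) (.b (.a (.l 9) (.b (.a (.l 9) (.b (.a (.b (.a (.l 9) (.a (.l 9) .z)) (.l 9)) (.b (.a (.a .z (.a .z (.l 7)))
(.l 7)) (.a (.a (.l 9) .z) (.a .z (.a .z (.l 7)))))) (.a (.l 9) (.b (.a (.l 9) (.a (.l 9) .z)) (.l 9))))) (.l 9))) (.l 9))) (.l 9)) (.b (.b (.l 9) (.a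
(.l 9) (.b (.l 9) (.a (.l 9) (.b (.a (.l 9) (.b (.l 9) (.a (.l 9) (.b (.l 9) (.a (.l 9) .z))))) (.a (.b (.l 9) (.a (.b (.l 9) .z) .z)) (.b (.a (.b (.l
9) .z) .z) .z))))))) (.b (.a (.b (.a (.l 9) (.b (.l 9) (.a (.b (.l 9) (.a (.b (.l 9) (.a (.l 9) .z)) (.b (.a (.l 9) .z) .z))) (.b (.a (.b (.l 9) (.a
(.l 9) .z)) (.b (.a (.l 9) .z) .z)) .z)))) (.a (.b (.a (.b (.l 9) (.a (.l 9) (.b (.l 9) .z))) (.b (.a (.b (.l 9) (.a (.l 9) .z)) (.b (.a (.l 9) .z)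
.z)) .z)) .z) (.b .z (.l 311)))) (.b (.a (.b (.a (.b (.l 9) (.a (.b (.l 9) (.a (.l 9) .z)) (.b (.a (.l 9) .z) .z))) (.b (.a (.b (.l 9) .z) .z) .z))
.z) .z) (.a (.a (.l 311) .z) .z))) (.a (.a (.b (.a (.b .z (.l 143)) .z) (.l 143)) (.b (.a (.b (.b .z (.l 100)) (.a .z (.l 100))) (.b .z (.l 100))) (.a
.z (.b (.l 100) (.a .z (.l 100)))))) (.b (.b .z (.a (.b .z (.a (.l 100) .z)) .z)) (.b (.a (.l 100) (.b .z (.a (.l 100) .z))) (.l 100))))))) (.b (.b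
(.a (.b (.a (.b (.a (.l 143) (.b (.l 143) .z)) (.a (.b (.l 143) .z) .z)) (.b .z (.b (.a .z (.b .z (.l 119))) (.a (.b .z (.l 119)) (.l 119))))) (.a (.b
(.b (.b (.a .z (.l 119)) .z) .z) (.b (.a (.l 107) .z) (.l 107))) (.b (.b (.b (.l 119) .z) .z) (.a (.b .z (.b .z (.l 107))) .z)))) (.b (.a (.b (.a (.b
(.a .z (.l 100)) .z) (.l 100)) (.a (.b (.a (.l 119) .z) (.l 119)) (.b .z (.a (.l 119) .z)))) (.b (.l 100) (.a (.b (.l 100) .z) (.b (.a (.l 100) .z)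
(.a .z (.b .z (.l 39))))))) (.a (.b (.a (.b (.b (.l 119) .z) (.l 196)) (.b (.b (.l 119) .z) .z)) (.a (.b .z (.a .z (.b .z (.l 39)))) (.b (.a .z (.l
39)) (.l 39)))) (.b (.a (.b .z (.a (.b .z (.l 39)) (.l 39))) (.l 39)) (.l 39))))) (.a (.b (.a (.b (.l 107) (.a (.b (.l 107) (.a (.l 107) .z)) (.b (.a
(.l 107) .z) (.a .z (.b .z (.l 39)))))) (.b (.a (.b (.l 107) .z) (.b (.a .z (.b .z (.l 39))) (.a (.b .z (.l 39)) (.l 39)))) (.a (.b (.a (.b .z (.l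
39)) (.l 39)) (.l 39)) (.l 39)))) (.a (.b (.a (.b (.a .z (.b .z (.l 39))) (.b (.b .z (.a (.l 27) .z)) (.l 27))) (.b (.l 39) (.b (.b (.l 39) .z) (.b .z
(.l 27))))) (.l 27)) (.b (.b (.l 39) (.b (.l 39) (.a .z (.l 39)))) (.b (.b (.a (.b (.a (.l 27) .z) (.l 27)) .z) (.a (.l 27) (.b (.a (.l 27) .z) (.l
27)))) (.l 27))))) (.b (.l 39) (.b (.l 39) (.b (.a (.b (.l 39) (.a (.b .z (.a (.l 27) .z)) (.b (.l 39) .z))) (.l 39)) (.a (.b (.a (.l 27) (.b .z (.a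
(.l 27) .z))) (.l 27)) (.b (.a (.b (.l 39) .z) (.l 39)) (.a (.b .z (.l 27)) .z)))))))) (.b (.b (.b (.a (.l 27) (.b (.a (.l 27) (.b (.a (.l 27) (.b (.a
(.l 27) .z) (.l 27))) (.l 27))) (.l 27))) (.l 27)) (.b (.l 27) (.a (.l 27) (.b (.a (.l 27) (.b (.l 27) (.a (.b (.l 27) (.a (.l 27) .z)) (.b .z (.a .z
(.l 15)))))) (.a (.b (.a (.l 27) (.b (.l 27) (.a (.l 27) .z))) (.a (.b (.l 27) (.a (.l 27) .z)) (.b .z (.a (.a .z (.l 15)) (.l 15))))) (.b (.a (.b .z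
(.a .z (.l 15))) (.l 15)) (.l 15))))))) (.b (.b (.a (.b (.a (.l 27) (.b (.a (.l 27) (.b (.l 27) (.a (.l 27) .z))) (.a (.b (.a (.l 27) .z) .z) (.b (.a
.z (.a .z (.l 15))) (.l 15))))) (.a (.b (.a (.l 27) (.b (.a (.l 27) .z) .z)) (.a (.b (.a (.l 27) .z) (.a .z (.a .z (.l 15)))) (.b (.a (.a .z (.l 15))
(.l 15)) (.l 15)))) (.b (.a (.b (.a .z (.l 15)) (.l 15)) (.l 15)) (.l 15)))) (.b (.a (.b (.a (.b (.a .z (.a .z (.l 15))) (.a (.a .z (.l 15)) (.l 15)))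
(.l 15)) (.l 15)) (.l 15)) (.l 15))) (.l 15)) (.l 15)))))

theorem vQ185 : ev Q185 I6_32 I4_13 = 816401351657686 := by decide +kernel

noncomputable def Q249 : QT :=
(.b (.a (.b (.b (.a (.b (.a (.b (.a (.b (.a .z (.b .z (.l 20))) (.a (.b .z (.l 20)) (.l 20))) (.l 20)) (.l 20)) (.l 20)) (.l 20)) (.b (.a (.l 20) (.b
(.b (.a (.b .z (.a (.l 20) .z)) (.b (.l 35) .z)) (.a (.l 20) (.a (.b .z (.l 20)) .z))) (.l 20))) (.l 20))) (.b (.l 20) (.b (.b (.l 20) (.a (.l 20) (.b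
(.l 20) (.a (.l 20) (.a (.l 20) .z))))) (.b (.a (.b (.a (.l 20) (.a (.l 20) .z)) (.a .z (.a .z (.a .z (.l 19))))) (.b (.a .z (.a .z (.a .z (.l 19))))
(.l 19))) (.l 19))))) (.b (.l 19) (.a (.b (.l 19) (.a (.l 19) (.b (.l 19) (.a (.l 19) (.b (.l 19) (.a (.l 19) (.b (.l 19) .z))))))) (.b (.a (.l 19)
(.b (.l 19) (.a (.l 19) (.b (.l 19) (.a (.b (.l 19) .z) .z))))) (.a (.b (.a (.l 19) (.b (.l 19) (.a (.l 19) (.b (.l 19) .z)))) (.a (.b (.a (.l 19) (.b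
(.l 19) .z)) .z) .z)) (.b (.a (.b (.a (.l 19) (.b (.l 19) .z)) .z) (.b (.a .z (.l 65)) (.l 65))) (.b .z (.a (.a .z (.l 49)) .z)))))))) (.b (.b (.a (.b
(.a (.b (.a (.b (.a (.l 35) .z) .z) .z) (.a (.b (.a (.b .z (.l 20)) .z) (.l 20)) (.b .z (.a (.b .z (.l 20)) .z)))) .z) (.a (.l 20) (.b (.a (.b (.a (.b
.z (.l 20)) .z) (.l 20)) (.b .z (.a (.b .z (.l 20)) .z))) (.l 20)))) (.b (.a (.a .z (.a .z (.b (.l 81) .z))) (.l 81)) (.a (.b .z (.a (.b .z (.a (.l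
20) (.b .z (.l 20)))) .z)) (.a (.b (.a .z (.l 81)) .z) (.b (.a (.l 81) .z) .z))))) (.b (.a (.l 20) (.a (.b (.a (.l 20) (.b (.a (.l 20) (.b .z (.l
20))) (.l 20))) (.l 20)) (.b (.a (.b .z (.a (.l 20) .z)) (.b (.a .z (.l 37)) (.a .z (.l 37)))) (.a (.l 20) (.b (.a (.b .z (.l 20)) .z) (.l 20))))))
(.b (.b (.a (.l 20) (.b (.l 20) (.a (.a (.l 20) (.a (.l 20) .z)) .z))) (.a (.b (.a (.l 20) (.a (.a (.l 20) .z) .z)) (.a .z (.a .z (.l 19)))) (.b (.a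
.z (.l 19)) (.l 19)))) (.l 19)))) (.a (.b (.b (.l 19) (.a (.l 19) (.b (.l 19) (.a (.b (.l 19) (.a (.l 19) (.b (.l 19) .z))) (.b (.a (.l 19) (.b (.l
19) .z)) .z))))) (.b (.a (.b (.a (.l 19) (.b (.l 19) (.a (.b (.l 19) .z) .z))) (.a (.b (.a (.b (.l 19) .z) .z) (.a .z (.l 65))) (.b (.a .z (.l 65))
(.l 65)))) (.b (.a (.b .z (.a .z (.l 65))) (.b (.a (.l 65) .z) (.l 65))) (.l 65))) (.b (.l 65) (.a (.b (.b (.l 65) .z) .z) (.b (.b (.l 65) .z) .z)))))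
(.b (.b (.a (.l 19) (.b (.a (.l 19) (.b (.l 19) (.a (.l 19) (.b (.l 19) .z)))) (.a (.b (.a (.l 19) (.b (.l 19) .z)) (.a (.b (.l 19) .z) .z)) .z))) (.a
(.b (.a (.b (.l 19) (.a (.l 19) .z)) (.b (.a (.b (.l 19) .z) .z) .z)) .z) .z)) (.a (.b (.b .z (.a (.l 65) (.b .z (.l 65)))) (.a (.b (.l 65) .z) (.b
(.a (.l 65) (.b (.l 65) .z)) (.a .z (.b .z (.a .z (.l 21))))))) (.b (.a .z (.b (.a .z (.b .z (.a .z (.l 21)))) (.a (.b .z (.l 21)) (.l 21)))) (.a (.b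
(.a (.b .z (.a .z (.l 21))) (.b (.a .z (.l 21)) (.l 21))) (.l 21)) (.l 21)))))))) (.a (.b (.a (.b (.b (.a (.b (.a (.l 19) (.b (.l 19) (.a (.l 19) (.b
(.l 19) .z)))) (.a (.b (.a (.l 19) (.b (.l 19) .z)) (.a (.b (.l 19) .z) .z)) .z)) (.b (.a (.b (.a (.l 19) (.b (.l 19) .z)) .z) .z) (.l 160))) (.a .z
(.a (.b (.l 160) .z) .z))) (.b (.b (.a (.a .z (.l 135)) (.a .z (.b (.a .z (.l 49)) .z))) .z) .z)) (.b (.b (.a (.a .z (.b .z (.a (.b .z (.l 49)) (.l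
49)))) (.l 49)) (.a (.b (.a (.a .z (.b .z (.l 49))) (.l 49)) (.a (.l 49) (.b (.a (.l 49) .z) .z))) (.b (.a (.b (.l 49) (.a (.l 49) .z)) (.b (.a (.l
49) .z) .z)) .z))) .z)) (.a (.b (.b .z (.b .z (.b .z (.l 27)))) (.a (.b (.l 27) (.a (.l 27) (.b (.l 27) (.a (.l 27) (.b (.l 27) (.a (.l 27) .z))))))
(.b (.a (.l 27) (.b (.a (.l 27) (.b (.l 27) (.a (.l 27) .z))) (.a (.b (.l 27) .z) (.b .z (.a .z (.l 23)))))) (.a (.b (.a (.b (.l 27) (.a (.l 27) .z))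
(.b (.a (.l 27) .z) .z)) .z) (.b (.a (.b .z (.l 57)) (.b .z (.l 57))) (.b (.b (.l 57) .z) .z)))))) (.b (.a (.b .z (.a (.b .z (.a (.b (.b .z (.l 27))
(.l 27)) .z)) (.b (.a .z (.b .z (.a .z (.l 23)))) (.a (.b .z (.l 23)) (.l 23))))) (.b (.a (.b .z (.a .z (.b (.a .z (.l 23)) (.l 23)))) (.b (.a (.b .z
(.a .z (.l 23))) (.l 23)) (.l 23))) (.a (.b (.a (.b (.a .z (.l 23)) (.l 23)) (.l 23)) (.l 23)) (.l 23)))) (.a (.b (.a (.b (.a (.b .z (.a .z (.l 23)))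
(.b (.a .z (.l 23)) (.l 23))) (.l 23)) (.l 23)) (.b (.b (.b .z (.l 57)) (.l 57)) (.b (.b (.l 57) .z) .z))) (.b (.l 23) (.b (.b (.b .z (.l 57)) (.l
57)) (.b (.b (.l 57) .z) (.a .z (.l 96))))))))) (.b (.a (.b (.a (.b (.b (.b .z (.a .z (.a (.l 51) .z))) (.a (.b (.a (.l 49) .z) (.a (.l 49) .z)) .z))
.z) (.b .z (.a (.b .z (.a .z (.b .z (.a .z (.l 21))))) (.b (.a .z (.b (.a .z (.l 21)) (.l 21))) (.a (.b (.a .z (.l 21)) (.l 21)) (.l 21)))))) (.a (.b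
.z (.a (.b (.a .z (.b .z (.a .z (.l 23)))) (.a (.b (.a .z (.l 23)) (.l 23)) (.l 23))) (.l 23))) (.b (.a (.b (.a (.b .z (.l 21)) (.b (.l 21) (.b (.l
21) .z))) .z) (.b (.b (.a (.l 21) (.b (.l 21) .z)) .z) .z)) (.l 23)))) (.b (.a (.b (.a (.b .z (.a (.b .z (.a .z (.l 21))) (.l 21))) (.b (.a (.b (.a .z
(.l 21)) (.l 21)) (.l 21)) (.l 21))) (.b (.l 21) (.a (.b (.l 21) (.a (.l 21) (.b (.l 21) .z))) (.b (.a (.b (.l 21) .z) .z) .z)))) (.b (.l 21) (.b (.a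
(.b (.l 21) (.a (.b (.l 21) .z) .z)) (.b (.a (.b (.l 21) .z) .z) .z)) .z))) (.b (.b .z (.b .z (.b .z (.a (.a .z (.a .z (.l 23))) (.l 23))))) (.l
23)))) (.b (.l 23) (.b (.b (.l 23) (.b (.l 23) (.b (.l 23) .z))) (.b (.b (.b (.a (.a (.a .z (.l 57)) (.l 57)) .z) (.a (.a (.l 57) (.a (.l 57) .z))
.z)) (.a (.a (.l 57) (.a (.b (.l 57) .z) .z)) .z)) (.b (.b (.a (.a (.l 57) .z) .z) .z) (.a (.a (.l 96) .z) (.a (.l 119) .z)))))))))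

theorem vQ249 : ev Q249 I5_23 I5_29 = 631329246829906 := by decide +kernel

noncomputable def Q232 : QT :=
(.a (.b (.a (.b (.a (.b (.a (.l 20) (.b (.l 20) (.a (.l 20) (.b (.l 20) .z)))) (.a (.b (.a (.l 20) (.b (.l 20) (.a (.l 20) .z))) (.a (.b (.a (.l 20)
.z) .z) (.b .z (.l 25)))) (.b (.a (.b (.a (.l 20) .z) .z) (.b (.a .z (.l 25)) (.l 25))) (.l 25)))) (.b (.a (.b (.a (.l 20) (.b (.l 20) .z)) (.a (.b .z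
(.a .z (.l 25))) (.b (.a .z (.l 25)) (.l 25)))) (.b (.a (.b .z (.a .z (.l 25))) (.b (.a .z (.l 25)) (.l 25))) (.l 25))) (.l 25))) (.l 25)) (.b (.l 25)
(.b (.l 25) (.b (.l 25) (.a (.l 25) (.b (.l 25) (.a (.l 25) (.b (.l 25) (.a (.l 25) .z))))))))) (.b (.b (.a (.b (.l 25) (.a (.l 25) (.b (.a (.l 25)
(.b (.l 25) (.a (.l 25) .z))) (.a (.b (.l 25) (.a (.l 25) .z)) .z)))) (.b (.a (.b (.l 25) (.a (.l 25) (.b (.a (.l 25) .z) .z))) (.b (.a (.b (.a (.l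
25) .z) .z) .z) .z)) (.a (.b (.a (.b (.a (.l 25) .z) .z) .z) (.l 119)) (.a (.l 119) .z)))) (.a (.b (.a (.b (.a (.l 25) (.b (.l 25) .z)) (.a (.b (.a
(.l 25) .z) .z) .z)) (.b (.a .z (.l 119)) (.l 119))) (.a (.b (.a .z (.l 119)) (.l 119)) (.l 119))) (.b (.a (.l 119) (.a (.a (.l 119) .z) (.a .z (.l
76)))) (.a (.l 119) (.b .z (.a .z (.b (.a .z (.l 31)) (.l 31)))))))) (.b (.a (.b (.a (.b .z (.l 219)) .z) (.a (.b (.l 219) .z) (.b (.a .z (.b .z (.a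
.z (.l 31)))) (.a (.b (.a .z (.l 31)) (.l 31)) (.l 31))))) (.b (.a (.b .z (.a (.b .z (.a .z (.l 31))) (.l 31))) (.b (.a (.b (.a .z (.l 31)) (.l 31))
(.l 31)) (.l 31))) (.l 31))) (.a (.b (.a (.b (.a (.b .z (.a .z (.l 31))) (.b (.a .z (.l 31)) (.l 31))) (.l 31)) (.l 31)) (.l 31)) (.l 31))))) (.b (.b
(.l 25) (.b (.a (.l 25) (.b (.a (.l 25) (.b (.a (.l 25) (.b (.a (.l 25) .z) .z)) (.a (.b (.a (.l 25) .z) .z) .z))) (.a (.b (.a (.l 25) (.b (.a (.l 25)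
.z) .z)) (.a (.b (.a (.l 25) .z) .z) .z)) (.b (.a .z (.l 83)) (.l 83))))) (.a (.b (.a (.b (.l 25) (.a (.l 25) (.b (.l 25) (.a (.l 25) .z)))) (.b (.a
(.b (.l 25) (.a (.l 25) .z)) (.b (.a (.l 25) .z) .z)) (.a .z (.l 83)))) (.a (.b (.a (.b (.l 25) (.a (.l 25) .z)) .z) .z) (.a (.a .z (.l 83)) (.l
83)))) (.b (.a (.b (.a .z (.l 83)) (.l 83)) (.l 83)) (.a (.l 83) (.b (.l 83) (.a (.l 83) .z))))))) (.b (.a (.b (.b (.a .z (.l 83)) (.a (.a (.a .z (.l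
77)) (.a .z (.l 83))) (.b (.l 83) (.a (.l 83) .z)))) (.b (.a (.b .z (.a .z (.b .z (.a .z (.l 31))))) (.b (.a (.b .z (.a .z (.l 31))) (.b (.a .z (.l
31)) (.l 31))) (.l 31))) (.a (.b (.a (.b .z (.a .z (.l 31))) (.l 31)) (.l 31)) (.l 31)))) (.b (.b (.a (.b (.l 83) (.a (.l 83) .z)) (.b (.a .z (.b .z
(.a .z (.l 31)))) (.a (.b (.a .z (.l 31)) (.l 31)) (.l 31)))) (.a (.b (.a .z (.b (.a .z (.l 31)) (.l 31))) (.a (.b (.a .z (.l 31)) (.l 31)) (.l 31)))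
(.l 31))) (.a (.l 31) (.b (.a (.l 31) (.b (.a (.l 31) .z) (.a .z (.b .z (.l 32))))) (.a (.b (.a (.l 31) .z) (.a .z (.b .z (.l 32)))) (.b (.a (.b .z
(.l 32)) (.l 32)) (.l 32))))))) (.a (.b (.a (.l 31) (.b (.l 31) (.a (.l 31) (.b (.l 31) (.a (.l 31) (.b (.l 31) .z)))))) (.a (.b (.l 31) (.a (.l 31)
(.b (.l 31) (.a (.b (.l 31) .z) .z)))) (.b (.a (.b (.l 31) (.a (.l 31) .z)) (.b (.a .z (.b .z (.l 32))) (.a (.b .z (.l 32)) (.l 32)))) (.a (.b (.a .z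
(.b .z (.l 32))) (.a (.b .z (.l 32)) (.l 32))) (.l 32))))) (.b (.a (.b (.a (.b (.l 31) (.a (.l 31) (.b (.l 31) .z))) (.b (.a (.b (.l 31) .z) .z) (.a
.z (.l 32)))) (.a (.b (.a (.b (.l 31) .z) .z) (.a .z (.l 32))) (.l 32))) (.b (.a (.b (.a (.b .z (.l 32)) (.l 32)) (.l 32)) (.l 32)) (.a (.l 32) (.b
(.a (.l 32) (.b (.l 32) .z)) (.a (.b (.l 32) .z) .z))))) (.a (.b (.l 32) (.a (.b (.l 32) (.a (.l 32) (.b (.l 32) .z))) (.b (.a (.l 32) .z) .z))) (.b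
(.a (.b (.a (.l 32) .z) .z) (.b .z (.l 35))) (.a (.b (.a .z (.l 35)) (.l 35)) (.l 35)))))))))

theorem vQ232 : ev Q232 I5_20 I6_58 = 406740960937925 := by decide +kernel

noncomputable def Q205 : QT :=
(.a (.b (.a (.b (.a (.b (.b (.l 27) (.b (.l 27) (.a (.b (.a .z (.l 27)) .z) (.l 27)))) (.a (.b (.b (.b (.a (.l 29) .z) (.l 29)) (.l 29)) (.b .z (.l
67))) (.b (.b (.b .z (.a (.l 29) .z)) (.b (.l 29) (.a (.l 29) .z))) .z))) (.b (.a (.l 27) (.b (.l 27) (.a (.b (.l 27) (.a (.l 27) .z)) (.b (.a (.l 27)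
.z) .z)))) (.a (.b (.a (.b (.b (.l 27) .z) .z) (.b (.l 27) .z)) .z) .z))) (.a (.b (.a (.b .z (.a .z (.b (.a .z (.l 31)) (.l 31)))) (.b .z (.b (.b (.a
(.l 31) .z) (.l 31)) (.l 31)))) (.b (.l 31) (.b (.b (.l 31) (.a (.l 31) (.a (.l 31) .z))) (.b (.a (.a (.l 31) .z) .z) .z)))) (.b (.b .z (.b .z (.a (.b
(.a (.l 31) .z) (.l 31)) (.b .z (.a (.l 31) .z))))) (.b (.l 31) (.b (.b (.a (.a (.l 31) .z) .z) .z) (.l 69)))))) (.b (.a (.b (.a (.b (.a (.b (.l 27)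
(.a (.l 27) .z)) (.b (.a (.l 27) .z) .z)) .z) .z) .z) (.b (.b (.b .z (.a .z (.l 97))) .z) .z)) (.b (.a .z (.b (.a .z (.b (.l 70) .z)) (.a .z (.b (.a
.z (.l 29)) (.b (.l 29) (.a .z (.l 29))))))) (.a (.b (.a (.b (.b .z (.a (.l 31) .z)) (.b (.l 31) .z)) .z) (.a .z (.b (.a .z (.l 33)) (.l 33)))) (.b
(.a (.b .z (.b .z (.l 33))) (.b .z (.l 33))) (.l 33)))))) (.a (.b (.b (.a (.b (.b (.a .z (.l 69)) .z) (.b (.a .z (.b (.l 37) .z)) .z)) (.b (.a (.b (.l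
69) (.b .z (.l 37))) .z) (.a (.b (.a (.l 37) .z) .z) (.b (.a .z (.l 33)) (.l 33))))) (.a (.b .z (.a .z (.b .z (.b .z (.l 35))))) (.b (.a (.b (.a .z
(.l 33)) (.b (.l 33) .z)) (.b (.l 33) .z)) .z))) (.a (.b (.b (.a (.b (.a .z (.l 35)) (.l 35)) (.l 35)) (.l 35)) (.b (.l 35) (.b (.b .z (.a .z (.l
41))) (.l 41)))) (.b (.b (.b (.a (.b .z (.l 35)) .z) (.l 35)) (.l 35)) (.b (.b (.l 35) (.b (.a (.l 35) .z) .z)) (.b (.b (.a .z (.l 41)) (.l 41)) (.l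
41)))))) (.b (.b (.a (.b (.a (.b (.a .z (.l 33)) (.l 33)) (.l 33)) (.l 33)) (.b (.l 33) (.b (.l 33) (.b (.l 33) (.a (.l 33) .z))))) (.b (.b (.a (.b
(.l 33) .z) .z) .z) (.b (.a .z (.b .z (.a .z (.l 39)))) (.a (.b .z (.a .z (.l 39))) (.l 39))))) (.b (.b (.a (.b (.a (.b (.l 39) .z) (.l 39)) (.a (.b
.z (.l 35)) .z)) (.l 39)) (.a (.b (.a (.l 35) (.b .z (.l 35))) (.l 35)) (.b (.a .z (.b (.l 39) .z)) (.a (.l 35) .z)))) (.b (.b (.a (.b (.l 35) .z) (.b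
.z (.a .z (.l 37)))) (.a (.b (.a .z (.l 37)) (.a .z (.l 37))) (.l 37))) (.a (.b (.a (.b .z (.l 41)) .z) (.a (.l 41) (.b .z (.l 41)))) (.b (.l 37) (.a
.z (.b (.l 37) .z))))))))) (.b (.b (.a (.b (.a (.b (.b .z (.a (.l 97) .z)) .z) (.b (.a (.b (.l 65) .z) .z) (.a .z (.b (.a .z (.b .z (.l 29))) (.a (.b
.z (.l 29)) (.l 29)))))) (.a (.b .z (.a (.b (.l 70) .z) (.b (.a .z (.b .z (.l 29))) (.a (.b .z (.l 29)) (.l 29))))) (.b (.a (.b (.a .z (.b .z (.l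
29))) (.a (.b .z (.l 29)) (.l 29))) (.l 29)) (.l 29)))) (.b (.a (.b (.a (.b .z (.a (.b .z (.l 29)) (.l 29))) (.b (.b .z (.l 29)) (.l 29))) (.l 29))
(.l 29)) (.l 29))) (.a (.b (.a (.b (.a (.b (.a .z (.b .z (.l 29))) (.a (.b .z (.l 29)) (.l 29))) (.l 29)) (.b (.l 29) (.b (.a (.l 29) (.a (.l 29) .z))
(.a (.a (.l 29) .z) .z)))) (.b (.l 29) (.b (.b (.a (.l 29) (.a (.l 29) .z)) (.a (.a (.l 29) .z) .z)) (.b (.a .z (.l 33)) (.l 33))))) (.b (.b (.a (.b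
(.a .z (.l 33)) (.l 33)) (.l 33)) (.l 33)) (.l 33))) (.b (.b (.b (.a (.l 29) (.b (.a (.l 29) (.a (.l 29) .z)) (.a (.a (.l 29) .z) .z))) (.a (.b (.a
(.l 29) (.a (.l 29) .z)) (.a (.a (.l 29) .z) .z)) (.b (.a .z (.l 33)) (.l 33)))) (.b (.a (.b (.a .z (.l 33)) (.l 33)) (.l 33)) (.l 33))) (.l 33))))
(.b (.b (.b (.a (.b (.l 33) (.a (.l 33) (.b (.l 33) (.a (.l 33) .z)))) (.b (.a (.l 33) (.b (.a (.l 33) .z) .z)) (.a (.b (.a (.l 33) .z) .z) (.b .z (.l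
69))))) (.a (.b (.a (.b (.l 33) (.a (.l 33) .z)) .z) .z) (.b (.a (.l 69) .z) (.a .z (.b (.a .z (.l 39)) (.l 39)))))) (.b (.a (.b .z (.a .z (.b (.a .z
(.l 39)) (.l 39)))) (.b (.a (.b (.a .z (.l 39)) (.l 39)) (.l 39)) (.l 39))) (.l 39))) (.b (.a (.b (.l 39) (.a (.b (.l 39) (.a (.b (.l 39) .z) (.l
39))) (.l 39))) (.l 39)) (.a (.b (.a (.b (.a (.b .z (.l 37)) .z) (.a (.l 37) (.b .z (.l 37)))) (.b (.l 39) (.a .z (.b (.l 39) .z)))) (.a (.l 37) (.b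
(.a (.l 37) .z) (.b (.a (.l 37) .z) .z)))) (.b (.l 39) (.a (.b (.a (.b (.l 39) .z) (.l 39)) (.a .z (.b (.l 39) .z))) (.l 39))))))))

theorem vQ205 : ev Q205 I5_18 I6_60 = 301121336793960 := by decide +kernel

noncomputable def Q224 : QT :=
(.b (.a (.a (.b (.a (.b (.b (.b (.a (.l 117) .z) .z) (.b (.b (.b .z (.l 87)) (.l 87)) (.l 87))) (.b (.a (.b (.b (.l 87) .z) .z) (.l 87)) (.a (.b (.a
(.l 79) .z) (.l 79)) (.b .z (.a (.l 79) .z))))) (.b (.a (.b .z (.b (.b .z (.l 87)) (.l 87))) (.b .z (.a (.b .z (.l 87)) .z))) (.a (.b (.l 87) (.a (.b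
(.l 87) .z) .z)) .z))) (.a (.b (.a (.b (.l 79) (.a .z (.b (.l 79) .z))) (.b (.a (.l 79) .z) (.a .z (.b .z (.l 72))))) (.a (.b (.a (.b (.l 62) .z) .z)
(.a (.b .z (.l 91)) .z)) .z)) (.b (.a (.b (.a (.b .z (.l 72)) (.b .z (.l 72))) (.l 72)) (.b .z (.b (.a (.l 72) .z) (.a (.l 72) .z)))) (.b (.a (.b (.a
.z (.l 72)) .z) (.b .z (.a .z (.l 57)))) .z)))) (.b (.a .z (.b .z (.b (.a .z (.b .z (.a (.l 111) .z))) (.a .z (.b (.a .z (.b .z (.l 57))) (.l 57))))))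
(.b (.a (.b (.a .z (.b .z (.a .z (.b .z (.l 57))))) (.a (.b .z (.a .z (.l 57))) (.b (.a (.b .z (.l 57)) (.l 57)) (.l 57)))) (.b (.a (.b (.a .z (.l
57)) (.l 57)) (.l 57)) (.a (.l 57) (.a (.l 57) (.a (.l 57) (.b (.l 57) .z)))))) (.a (.b (.l 57) (.a (.b (.a (.b (.l 57) .z) (.l 57)) (.a .z (.b (.l
57) .z))) (.l 57))) (.a (.l 57) (.a (.a (.l 57) (.b (.l 57) (.a (.l 57) .z))) (.b (.a (.b (.l 57) .z) .z) .z))))))) (.b (.a (.b (.a (.b (.a .z (.b (.a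
(.l 127) .z) .z)) .z) .z) (.a (.b .z (.a (.a (.l 57) (.a (.b (.l 57) .z) .z)) (.a (.l 139) .z))) (.a (.b (.a (.l 139) .z) .z) .z))) .z) (.a (.b (.a
(.a (.a (.b (.a (.b (.l 57) .z) .z) .z) .z) .z) (.b (.a .z (.a .z (.l 151))) .z)) .z) .z))) (.a (.b (.a (.b (.a (.b .z (.b .z (.a (.l 185) .z))) .z)
.z) (.b (.a (.b (.a .z (.b (.a .z (.l 57)) .z)) .z) (.b (.a (.l 57) (.a (.a (.a (.l 57) .z) .z) .z)) (.a (.a .z (.a (.b (.l 57) .z) .z)) .z))) (.a .z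
(.b .z (.a (.a (.a (.b .z (.l 55)) .z) .z) .z))))) (.a (.b (.a .z (.b .z (.a .z (.b (.a .z (.b .z (.l 34))) (.l 34))))) (.a (.b (.a .z (.b .z (.a .z
(.b .z (.l 34))))) (.a (.b .z (.a .z (.l 34))) (.l 34))) (.b (.a (.b (.a (.b .z (.l 34)) (.l 34)) (.l 34)) (.a (.b (.l 34) (.a (.l 34) .z)) (.b .z (.a
.z (.l 55))))) (.a (.a (.l 34) (.b (.a (.l 34) .z) .z)) (.a (.b .z (.l 55)) (.l 55)))))) (.b (.a (.b (.a (.b (.a .z (.b .z (.l 34))) (.a (.b .z (.l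
34)) (.a (.l 34) .z))) (.a (.b .z (.a .z (.l 55))) (.a (.b .z (.l 55)) (.b (.l 55) .z)))) (.a (.a (.b (.a (.l 34) .z) .z) (.b .z (.l 55))) (.a (.l 55)
(.a (.b (.l 55) .z) .z)))) .z) (.a (.a (.a (.b (.b (.a .z (.l 55)) (.l 55)) (.l 55)) (.b (.l 55) (.a (.l 55) (.b (.l 55) .z)))) (.a (.b (.a (.l 55)
.z) .z) .z)) .z)))) (.b .z (.a (.a .z (.b .z (.a (.b .z (.a .z (.b (.l 100) .z))) .z))) .z))))

theorem vQ224 : ev Q224 I5_23 I5_24 = 142573724610002 := by decide +kernel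

noncomputable def Q266 : QT :=
(.a (.b (.b (.a (.b (.a (.b (.a (.l 58) (.b (.a (.a (.l 58) .z) (.l 83)) .z)) (.a (.b (.l 58) (.a (.l 58) .z)) .z)) .z) .z) (.b .z (.a .z (.b (.a .z
(.b .z (.a .z (.l 83)))) (.a (.b (.a .z (.l 83)) .z) (.b (.a (.l 83) .z) (.a (.b .z (.a .z (.l 19))) (.b (.a .z (.l 19)) (.l 19))))))))) (.b (.a (.b
.z (.a .z (.b .z (.a .z (.b (.a .z (.b .z (.l 19))) (.a (.b .z (.l 19)) (.l 19))))))) (.a (.b (.a .z (.b .z (.a .z (.b .z (.l 19))))) (.b (.a (.b .z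
(.a .z (.l 19))) (.l 19)) (.l 19))) (.b (.a (.b (.a .z (.b .z (.l 19))) (.l 19)) (.l 19)) (.l 19)))) (.a (.b (.a (.b .z (.a (.b .z (.a .z (.b .z (.l
19)))) (.b (.a .z (.l 19)) (.l 19)))) (.b (.a (.b (.a .z (.b .z (.l 19))) (.a (.b .z (.l 19)) (.l 19))) (.l 19)) (.l 19))) (.a (.b (.a (.b (.a (.b .z
(.l 19)) (.l 19)) (.l 19)) (.l 19)) (.l 19)) (.l 19))) (.l 19)))) (.a (.b (.l 19) (.a (.b (.l 19) (.b (.l 19) (.a (.l 19) (.b (.l 19) (.a (.b (.l 19)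
(.a (.l 19) .z)) (.b (.a (.l 19) .z) .z)))))) (.b (.b (.l 19) (.a (.l 19) (.b (.l 19) (.a (.l 19) (.b (.a (.l 19) .z) .z))))) (.a (.b (.b (.l 19) (.a
(.l 19) (.b (.a (.l 19) .z) .z))) (.a (.b (.b (.a (.l 19) .z) .z) .z) .z)) (.b (.a (.b (.b (.a (.l 19) .z) .z) .z) .z) (.a (.b .z (.l 37)) (.b .z (.l
37)))))))) (.b (.a (.b (.l 19) (.a (.l 19) (.b (.l 19) (.a (.l 19) (.b (.a (.l 19) (.b (.l 19) .z)) (.a (.b (.l 19) .z) .z)))))) (.b (.a (.l 19) (.b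
(.l 19) (.a (.b (.l 19) (.a (.b (.l 19) .z) .z)) (.b (.a (.b (.l 19) .z) .z) .z)))) (.a (.b (.a (.b (.l 19) (.a (.l 19) (.b (.l 19) .z))) (.b (.a (.l
19) (.b (.l 19) .z)) .z)) (.a .z (.b (.l 69) .z))) (.b (.a (.b .z (.l 69)) (.l 69)) (.b (.l 69) .z))))) (.a (.b (.a (.b (.a (.l 19) (.b (.l 19) (.a
(.b (.l 19) .z) (.b (.l 19) .z)))) (.a (.b (.a (.b (.l 19) .z) .z) .z) .z)) (.b (.a (.b (.a (.b (.l 19) .z) .z) .z) .z) .z)) (.a (.b .z (.b .z (.b .z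
(.l 37)))) .z)) .z)))) (.b (.a (.b (.b (.a (.b .z (.a .z (.b (.a .z (.l 83)) (.l 83)))) (.b (.a (.b .z (.a .z (.l 83))) (.b (.l 83) (.a .z (.b .z (.a
.z (.l 19)))))) (.a (.b (.a (.l 83) .z) (.a .z (.b (.a .z (.l 19)) (.l 19)))) (.b (.a (.b .z (.a .z (.l 19))) (.l 19)) (.l 19))))) (.a (.b (.a (.b (.l
83) .z) (.b (.a .z (.b .z (.a .z (.l 19)))) (.a (.b .z (.l 19)) (.l 19)))) (.a (.b (.a (.b .z (.a .z (.l 19))) (.l 19)) (.l 19)) (.l 19))) (.b (.a (.b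
(.a (.b (.a .z (.l 19)) (.l 19)) (.l 19)) (.l 19)) (.l 19)) (.l 19)))) (.a (.b (.l 19) (.a (.b (.l 19) (.a (.l 19) (.b (.l 19) (.a (.l 19) (.b (.l 19)
.z))))) (.b (.a (.l 19) (.b (.l 19) (.a (.l 19) (.b (.l 19) .z)))) (.a (.b (.a (.l 19) (.b (.l 19) .z)) .z) .z)))) (.b (.a (.b (.l 19) (.a (.l 19) (.b
(.l 19) (.a (.b (.l 19) .z) .z)))) (.b (.a (.l 19) (.b (.l 19) (.a (.b (.l 19) .z) .z))) (.a (.b (.a (.b (.l 19) .z) .z) .z) .z))) (.a (.b (.a (.b (.a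
(.b (.l 19) .z) .z) .z) .z) .z) .z)))) (.b (.a (.b (.b (.a (.b (.a .z (.b (.a .z (.l 19)) (.l 19))) (.a (.b (.a .z (.l 19)) (.l 19)) (.l 19))) (.l
19)) (.l 19)) (.a (.b (.l 19) (.a (.b (.l 19) (.a (.l 19) (.b (.l 19) .z))) (.b (.a (.l 19) (.b (.l 19) .z)) .z))) (.b (.a (.b (.l 19) (.a (.l 19) (.b
(.l 19) .z))) (.b (.a (.l 19) (.b (.l 19) .z)) .z)) .z))) (.b (.a (.b (.l 19) (.a (.b (.l 19) (.a (.l 19) (.b (.l 19) .z))) (.b (.a (.l 19) (.b (.l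
19) .z)) .z))) (.b (.a (.b (.l 19) (.a (.l 19) (.b (.l 19) .z))) (.b (.a (.l 19) (.b (.l 19) .z)) .z)) .z)) .z)) (.a (.b (.a (.b (.a (.b (.a (.b (.l
19) .z) .z) .z) .z) .z) .z) .z) .z))) (.a (.b (.a (.b (.a (.b (.a (.b (.a (.l 19) (.b (.l 19) .z)) (.a (.b (.l 19) .z) .z)) .z) (.a (.b .z (.l 69))
(.l 69))) (.b .z (.b (.b .z (.l 69)) (.l 69)))) (.b (.l 69) (.b (.l 69) (.b (.b (.l 69) .z) .z)))) (.b (.b .z (.b .z (.a (.b .z (.l 69)) .z))) (.b (.a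
(.l 69) (.b (.a (.l 69) .z) (.a (.l 69) .z))) (.b (.a (.l 69) (.a (.l 69) .z)) .z)))) (.b .z (.b (.a .z (.b .z (.a .z (.l 118)))) (.a .z (.b .z (.a .z
(.a (.l 121) .z))))))) (.b .z (.b (.a (.a (.b .z (.b .z (.b .z (.l 118)))) (.a (.b .z (.b .z (.l 118))) .z)) .z) (.a (.b (.a (.b (.l 118) .z) .z) .z)
.z))))))

theorem vQ266 : ev Q266 I5_27 I5_28 = 393388901613801 := by decide +kernel

noncomputable def Q34 : QT :=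
(.a (.l 12) (.b (.a (.l 12) (.a (.l 12) (.a (.b (.a (.b (.a (.b (.a (.b (.a (.l 12) (.b (.a (.l 12) .z) (.l 12))) (.l 12)) (.b .z (.a (.l 12) (.b .z
(.l 12))))) (.l 12)) (.b (.a (.b (.l 58) (.a .z (.l 58))) (.l 58)) (.a (.b (.a (.b (.a (.l 12) .z) (.l 12)) (.b .z (.a (.l 12) .z))) (.l 12)) (.b (.a
.z (.l 58)) (.a (.b (.a (.l 12) .z) (.l 12)) (.b .z (.a (.l 12) .z))))))) (.l 12)) (.b (.a (.b (.l 58) (.a (.b (.l 58) (.a .z (.l 58))) (.l 58))) (.l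
58)) (.a (.b (.a (.b (.a (.b .z (.l 12)) .z) (.l 12)) (.b (.a .z (.l 58)) (.a (.b .z (.a (.l 12) .z)) .z))) (.a (.l 12) (.b (.a (.l 12) (.b (.a (.l
12) .z) (.l 12))) (.l 12)))) (.b (.l 58) (.a (.b (.a (.b .z (.a (.l 12) .z)) .z) (.a (.l 12) (.b .z (.l 12)))) (.b (.l 58) (.a .z (.l 58)))))))) (.a
(.l 12) (.b (.a (.l 12) (.b (.a (.l 12) (.b (.a (.b (.a (.l 12) .z) (.l 12)) (.b .z (.a (.l 12) .z))) (.l 12))) (.l 12))) (.l 12)))) (.b (.l 58) (.a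
(.b (.a (.b (.a (.b (.a .z (.l 58)) (.a (.b (.a (.l 12) .z) (.l 12)) .z)) (.b (.l 58) (.a .z (.l 58)))) (.a (.l 12) (.b (.a (.b .z (.a (.l 12) .z))
.z) (.a (.l 12) (.b (.a (.l 12) .z) (.l 12)))))) (.b (.l 58) (.a (.b (.l 58) .z) (.l 58)))) (.a (.l 12) (.b (.a (.b (.a (.l 12) (.b .z (.a (.l 12)
.z))) (.l 12)) (.b (.a .z (.l 58)) (.a (.b (.a (.l 12) .z) (.l 12)) .z))) (.l 12)))) (.b (.l 58) (.a (.b (.a (.b (.l 58) (.a .z (.l 58))) (.l 58)) (.a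
(.b (.a (.b .z (.a (.l 12) .z)) .z) (.a (.l 12) (.b (.a (.l 12) .z) (.l 12)))) (.b (.l 58) .z))) (.b (.l 58) (.a (.l 58) (.b (.l 58) (.a (.l 58)
.z))))))))))) (.a (.b (.l 12) (.a (.l 12) (.b (.l 12) (.a (.l 12) (.b (.l 12) (.a (.l 12) (.b (.l 12) (.a (.l 12) (.b (.l 12) (.a (.l 12) (.b (.l 12)
(.a (.l 12) .z)))))))))))) (.b (.a (.l 12) (.b (.a (.l 12) (.a (.b (.l 12) (.b (.l 12) (.a (.l 12) (.a (.b (.l 12) (.a (.b (.l 12) .z) (.b .z (.a .z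
(.l 6))))) (.b (.a (.b (.l 12) .z) (.b .z (.a .z (.l 6)))) (.a (.b (.a .z (.l 6)) (.l 6)) (.l 6))))))) (.b (.a (.a (.l 12) (.b (.a (.l 12) (.b .z (.a
(.l 12) .z))) (.l 12))) (.b (.a (.a .z (.l 58)) .z) (.a (.b .z (.a (.b (.l 12) .z) (.b .z (.a .z (.l 6))))) (.b (.a .z (.b .z (.a .z (.l 6)))) (.a (.b
(.a .z (.l 6)) (.l 6)) (.l 6)))))) (.a (.b (.a (.b (.l 12) (.a (.b (.l 12) .z) (.b .z (.a .z (.l 6))))) (.b (.a (.b (.l 12) .z) (.b .z (.a .z (.l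
6)))) (.a (.b (.a .z (.l 6)) (.l 6)) (.l 6)))) (.a (.b (.a (.b (.a .z (.l 6)) (.l 6)) (.l 6)) (.l 6)) (.l 6))) (.b (.a (.b (.a (.b (.a .z (.l 6)) (.l
6)) (.l 6)) (.l 6)) (.l 6)) (.l 6)))))) (.a (.b (.a (.l 12) (.b (.l 12) (.a (.l 12) (.b (.a (.l 12) (.b (.a (.l 12) .z) (.a .z (.a .z (.l 6))))) (.a
(.b (.a (.l 12) .z) (.a .z (.a .z (.l 6)))) (.b (.a (.a .z (.l 6)) (.l 6)) (.l 6))))))) (.a (.b (.l 12) (.a (.b (.l 12) (.a (.l 12) (.b (.l 12) (.a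
(.l 12) .z)))) (.b (.a (.b (.l 12) (.a (.l 12) .z)) (.b (.a (.l 12) .z) (.a .z (.a .z (.l 6))))) (.a (.b .z (.a .z (.l 6))) (.l 6))))) (.b (.a (.b (.a
(.l 12) (.b (.a (.l 12) .z) (.a .z (.a .z (.l 6))))) (.a (.b (.a (.l 12) .z) (.a .z (.a .z (.l 6)))) (.b (.a (.a .z (.l 6)) (.l 6)) (.l 6)))) (.b (.a
(.b (.a (.a .z (.l 6)) (.l 6)) (.l 6)) (.l 6)) (.l 6))) (.a (.b (.a (.b (.a (.a .z (.l 6)) (.l 6)) (.l 6)) (.l 6)) (.l 6)) (.l 6))))) (.a (.b (.a (.b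
(.b (.a (.l 12) (.b (.a (.l 12) .z) (.a .z (.a .z (.l 6))))) (.a (.b (.a (.l 12) .z) (.a .z (.a .z (.l 6)))) (.b (.a (.a .z (.l 6)) (.l 6)) (.l 6))))
(.b (.a (.b (.a (.a .z (.l 6)) (.l 6)) (.l 6)) (.l 6)) (.l 6))) (.b (.a (.b (.a (.b (.a .z (.l 6)) (.l 6)) (.l 6)) (.l 6)) (.l 6)) (.l 6))) (.l 6))
(.l 6))))) (.a (.b (.a (.l 12) (.b (.a (.l 12) (.b (.a (.l 12) (.b (.l 12) (.a (.l 12) (.b (.l 12) (.a (.l 12) .z))))) (.a (.b (.l 12) (.a (.l 12) (.b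
(.l 12) (.a (.l 12) .z)))) (.b (.a (.b (.l 12) (.a (.l 12) .z)) (.b .z (.a .z (.l 6)))) (.a (.b (.a .z (.a .z (.l 6))) (.a (.a .z (.l 6)) (.l 6))) (.l
6)))))) (.a (.b (.a (.l 12) (.b (.l 12) (.a (.l 12) (.b (.a (.l 12) .z) .z)))) (.a (.b (.l 12) (.a (.l 12) (.b (.a (.l 12) .z) .z))) (.b (.a (.b (.a
(.l 12) .z) .z) (.b (.a .z (.l 6)) (.l 6))) (.a (.b (.a .z (.l 6)) (.l 6)) (.l 6))))) (.b (.a (.b (.a (.b (.l 12) (.a (.l 12) .z)) (.b (.a .z (.a .z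
(.l 6))) (.a (.a .z (.l 6)) (.l 6)))) (.a (.b (.a .z (.a .z (.l 6))) (.l 6)) (.l 6))) (.l 6)) (.l 6))))) (.a (.b (.a (.l 12) (.b (.a (.l 12) (.b (.l
12) (.a (.b (.l 12) (.a (.l 12) .z)) (.b .z (.a .z (.l 6)))))) (.a (.b (.a (.l 12) (.b (.l 12) (.a (.l 12) .z))) (.a (.b (.l 12) (.a (.l 12) .z)) (.b
.z (.a (.a .z (.l 6)) (.l 6))))) (.b (.a (.b .z (.a .z (.l 6))) (.l 6)) (.l 6))))) (.a (.b (.a (.l 12) (.b (.a (.l 12) (.b (.l 12) .z)) (.a (.b (.a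
(.l 12) .z) .z) (.b (.a .z (.l 6)) (.l 6))))) (.a (.b (.a (.l 12) (.b (.a (.l 12) .z) (.a .z (.a .z (.l 6))))) (.a (.b .z (.a .z (.l 6))) (.b (.a (.a
.z (.l 6)) (.l 6)) (.l 6)))) (.b (.a (.b (.a (.a .z (.l 6)) (.l 6)) (.l 6)) (.l 6)) (.l 6)))) (.b (.a (.b (.a (.b (.a .z (.a .z (.l 6))) (.a (.a .z
(.l 6)) (.l 6))) (.l 6)) (.l 6)) (.l 6)) (.l 6)))) (.b (.a (.b (.a (.b (.a (.b (.a (.l 12) .z) (.a .z (.a .z (.l 6)))) (.b (.a (.a .z (.l 6)) (.l 6))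
(.l 6))) (.a (.b (.a (.a .z (.l 6)) (.l 6)) (.l 6)) (.l 6))) (.l 6)) (.l 6)) (.l 6)) (.l 6)))) (.a (.b (.b (.a (.b (.a (.b (.a (.b (.l 12) (.a (.l 12)
.z)) (.b .z (.a .z (.l 6)))) (.a (.b .z (.a .z (.l 6))) (.l 6))) (.l 6)) (.l 6)) (.l 6)) (.l 6)) (.l 6)) (.l 6)))))))

theorem vQ34 : ev Q34 I3_0 I5_23 = 3875774689563855 := by decide +kernel

noncomputable def Q86 : QT :=
(.a (.b (.b (.b (.l 20) (.a (.b (.l 20) (.a (.b (.a (.b (.l 20) (.a .z (.a .z (.l 20)))) (.l 20)) (.a (.b (.a (.l 19) .z) (.l 19)) (.b (.a (.a .z (.l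
20)) (.l 20)) .z))) (.l 20))) (.l 20))) (.b (.a (.b (.a (.b (.a (.l 19) (.b (.a (.l 19) (.a (.l 19) .z)) (.l 19))) (.l 19)) (.b (.a (.b (.a .z (.l
20)) (.a (.a (.l 19) .z) .z)) (.l 20)) (.a (.b (.a (.l 19) (.a (.l 19) .z)) (.l 19)) (.b (.a .z (.a .z (.l 20))) (.a (.l 19) .z))))) (.l 19)) (.b (.a
(.b (.l 20) (.a (.b (.l 20) (.a (.a .z (.l 20)) (.l 20))) (.l 20))) (.l 20)) (.a (.b (.a (.b (.a .z (.a .z (.l 20))) (.a (.l 19) .z)) (.b (.l 20) (.a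
(.a .z (.l 20)) (.l 20)))) (.a (.l 19) (.b (.a .z (.a .z (.l 20))) (.a (.l 19) .z)))) (.a (.b (.l 20) (.b (.l 20) (.a (.a .z (.l 20)) (.l 20)))) (.l
20))))) (.a (.l 19) (.a (.l 19) (.b (.a (.b (.a (.b .z (.l 19)) (.b (.a .z (.l 20)) .z)) (.l 19)) (.b (.a (.b (.l 20) (.a .z (.l 20))) (.l 20)) (.a
(.b .z (.l 19)) (.b (.a .z (.l 20)) .z)))) (.l 19)))))) (.b (.b (.l 19) (.b (.l 19) (.b (.l 19) (.a (.l 19) (.b (.l 19) (.a (.l 19) .z)))))) (.b (.b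
(.b (.a (.b (.l 19) (.a (.a (.l 19) (.a (.l 19) (.a (.l 19) .z))) .z)) (.b (.a .z (.a (.a (.a .z (.l 24)) (.l 24)) (.l 24))) (.a (.a (.a (.a .z (.l
24)) (.l 24)) (.l 24)) (.l 24)))) (.a (.b (.a .z (.l 24)) (.l 24)) (.l 24))) (.l 24)) (.l 24)))) (.b (.b (.l 20) (.a (.b (.l 20) (.a (.b (.a (.b (.l
20) (.a (.b (.l 20) (.a .z (.l 20))) (.l 20))) (.l 20)) (.a (.b (.a (.b .z (.l 19)) (.b (.a .z (.l 20)) .z)) (.l 19)) (.b (.a (.b (.l 20) (.a .z (.l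
20))) (.l 20)) (.a (.b .z (.l 19)) (.b (.a .z (.l 20)) .z))))) (.l 20))) (.l 20))) (.a (.b (.b (.a (.b (.a (.l 19) (.b (.a (.l 19) (.b (.a (.l 19) .z)
(.l 19))) (.l 19))) (.l 19)) (.b (.a (.b (.a (.b .z (.a (.l 19) .z)) (.b (.l 20) .z)) (.a (.l 19) (.b (.a (.l 19) .z) (.l 19)))) (.b (.l 20) (.a (.b
.z (.a (.l 19) .z)) (.b (.l 20) (.a .z (.l 20)))))) (.a (.l 19) (.b (.a (.l 19) (.b .z (.l 19))) (.l 19))))) (.b (.l 19) (.b (.a (.b (.l 19) (.a (.l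
19) (.a (.l 19) (.a (.l 19) .z)))) (.b (.a (.l 19) (.a (.l 19) .z)) (.a .z (.a .z (.a .z (.l 24)))))) (.a (.b .z (.a (.a (.a .z (.l 24)) (.l 24)) (.l
24))) (.l 24))))) (.a (.l 24) (.b (.l 24) (.a (.l 24) (.b (.l 24) (.a (.l 24) (.b (.l 24) (.a (.l 24) .z)))))))) (.b (.a (.b (.b (.l 20) (.a (.b (.a
(.b (.a .z (.l 20)) .z) (.b (.l 20) (.a .z (.l 20)))) (.a (.l 19) (.b .z (.a (.l 19) .z)))) (.b (.l 20) (.a (.b (.l 20) .z) (.l 20))))) (.a (.b (.l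
19) (.b (.b .z (.l 24)) (.l 24))) (.b (.b (.a (.b (.a (.l 19) .z) (.l 19)) (.b (.a .z (.l 20)) .z)) (.b (.l 19) (.a (.a (.l 19) .z) .z))) (.a (.b (.b
.z (.l 24)) (.l 24)) (.b (.l 24) (.a (.l 24) (.b (.l 24) .z))))))) (.b (.a (.l 20) (.b (.a (.l 20) (.b (.a (.l 20) .z) (.a .z (.b .z (.l 17))))) (.a
(.b (.a (.l 20) .z) (.a .z (.b .z (.l 17)))) (.b (.a (.b .z (.l 17)) (.l 17)) (.l 17))))) (.a (.b (.a (.b (.b (.l 20) (.a .z (.l 20))) .z) (.b (.a (.b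
(.l 20) .z) .z) (.a .z (.b (.l 17) .z)))) (.a (.b (.a (.b (.l 24) .z) .z) (.a .z (.l 21))) (.b (.b .z (.a (.l 21) .z)) (.l 21)))) (.b (.a (.b (.a (.b
.z (.l 17)) (.l 17)) (.b .z (.a .z (.l 22)))) (.b (.l 17) (.b .z (.l 22)))) (.b (.a (.b (.a .z (.l 22)) .z) (.b (.l 22) (.a .z (.l 22)))) (.a (.a .z
(.b (.l 19) .z)) (.b .z (.a (.l 19) .z)))))))) (.a (.b (.a (.b (.l 24) (.a (.l 24) (.b (.l 24) (.a (.l 24) (.b (.l 24) .z))))) (.b (.a (.b (.l 24) (.a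
(.l 24) (.b (.l 24) .z))) (.b (.a (.b (.l 24) .z) .z) (.a .z (.l 21)))) (.a (.b (.a (.b (.l 24) .z) .z) (.a .z (.l 21))) (.l 21)))) (.a (.b (.a (.b
(.l 24) (.a (.l 24) (.b (.l 24) .z))) (.b (.a (.b (.l 24) .z) .z) (.a .z (.l 21)))) (.a (.b (.a (.b (.l 24) .z) .z) (.a (.b .z (.l 21)) (.l 21))) (.l
21))) (.l 21))) (.b (.a (.l 21) (.b (.a (.b (.a (.l 21) (.b .z (.l 21))) (.l 21)) (.b (.a .z (.l 19)) (.a (.b .z (.l 21)) .z))) (.l 21))) (.l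
21)))))))

theorem vQ86 : ev Q86 I4_2 I6_58 = 923154173829657 := by decide +kernel

noncomputable def Q143 : QT :=
(.b (.b (.l 9) (.b (.b (.l 9) (.b (.b (.l 9) (.b (.b (.l 9) (.b .z (.l 5))) (.l 5))) (.l 5))) (.l 5))) (.a (.l 5) (.b (.l 5) (.a (.l 5) (.b (.l 5) (.a
(.l 5) (.b (.l 5) (.a (.l 5) (.b (.a (.l 5) (.b (.l 5) (.a (.b (.l 5) (.a (.l 5) (.b (.l 5) (.a (.l 5) (.b (.l 5) .z))))) (.b (.a (.l 5) (.b (.l 5)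
(.a (.b (.l 5) .z) .z))) (.a (.b (.a (.l 5) .z) (.a .z (.b .z (.l 6)))) (.b (.a (.b .z (.l 6)) (.l 6)) (.l 6))))))) (.a (.b (.a (.l 5) (.b (.l 5) (.a
(.b (.l 5) (.a (.l 5) (.b (.l 5) .z))) (.b (.a (.l 5) .z) (.a .z (.b .z (.l 6))))))) (.a (.b (.a (.l 5) (.b (.l 5) (.a (.b (.l 5) .z) .z))) (.a (.b
(.a (.l 5) (.b (.l 5) .z)) (.a .z (.b .z (.l 6)))) (.b (.a .z (.l 6)) (.l 6)))) (.b (.a (.b (.a (.b (.l 5) .z) .z) (.a (.b .z (.l 6)) (.l 6))) (.l 6))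
(.l 6)))) (.b (.a (.b (.a (.b (.l 5) (.a (.b (.l 5) .z) .z)) (.b (.a .z (.b .z (.l 6))) (.a (.b .z (.l 6)) (.l 6)))) (.a (.b (.a (.b .z (.l 6)) (.l
6)) (.l 6)) (.l 6))) (.l 6)) (.l 6))))))))))))

theorem vQ143 : ev Q143 I4_6 I3_5 = 7795000863350893 := by decide +kernel

noncomputable def Q0 : QT :=
(.a .z (.b .z (.a .z (.b .z (.a (.b .z (.b .z (.a .z (.b .z (.a .z (.b .z (.a (.b .z (.b .z (.l 58))) (.b (.b .z (.a .z (.l 58))) (.a (.l 58)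
.z))))))))) .z)))))

theorem vQ0 : ev Q0 I3_0 I3_0 = 2384200927745 := by decide +kernel

noncomputable def Q20 : QT :=
(.l 39)

theorem vQ20 : ev Q20 I3_0 I5_12 = 3906233250017956 := by decide +kernel

noncomputable def Q31 : QT :=
(.l 12)

theorem vQ31 : ev Q31 I4_0 I5_22 = 1953116000010318 := by decide +kernel

noncomputable def Q109 : QT :=
(.l 10)

theorem vQ109 : ev Q109 I4_4 I4_7 = 3906232000020700 := by decide +kernel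

end Pool.Agent.Helper64.SPW.Dat
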