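import Pool.Agent.Helper64.SPW.Iv

/-! Boxes of traces, part 3 (data and kernel evaluation). -/

set_option maxRecDepth 1000000
set_option maxHeartbeats 0

namespace Pool.Agent.Helper64.SPW.Dat

noncomputable def Q262 : QT :=
(.a (.a (.b (.b (.a (.b (.a (.b (.a (.b (.a .z (.b (.l 25) .z)) (.l 62)) (.b (.b (.b (.l 25) (.b (.l 25) .z)) (.b .z (.l 62))) (.l 62))) (.b (.b (.b
(.a (.l 62) .z) .z) (.b (.a .z (.l 35)) (.l 35))) (.l 35))) (.b (.b (.b (.b (.a (.l 25) (.b (.l 25) .z)) .z) (.b .z (.l 62))) (.b (.l 62) (.b (.l 62)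
.z))) (.b (.b (.b (.a .z (.l 35)) (.l 35)) (.l 35)) (.l 35)))) (.b (.b (.b (.b (.a (.l 35) .z) .z) (.b .z (.l 157))) (.a (.l 157) (.a (.l 157) .z)))
(.b .z (.a (.b .z (.b (.l 73) .z)) (.b (.b .z (.l 73)) .z))))) (.b (.b (.b (.b .z (.b .z (.a (.l 62) (.a (.l 62) .z)))) (.b (.a (.b (.l 62) (.a (.l
62) .z)) .z) .z)) (.b (.b (.b (.a (.b .z (.l 35)) .z) (.l 35)) (.l 35)) (.b (.l 35) (.a (.b (.l 35) .z) .z)))) (.b .z (.b (.a (.b .z (.b .z (.l 73)))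
.z) (.a .z (.b (.a .z (.l 125)) .z)))))) (.b (.a (.b (.b .z (.b (.a .z (.a .z (.b .z (.l 45)))) .z)) (.b .z (.a (.b .z (.l 143)) (.l 143)))) (.b (.b
(.a (.b .z (.a .z (.b .z (.l 45)))) (.b .z (.b (.b .z (.l 45)) (.l 45)))) (.b (.b (.a (.l 45) .z) .z) .z)) (.a (.b (.b .z (.a (.b (.l 55) .z) (.b (.l
55) .z))) .z) (.b (.b .z (.b (.b (.l 55) .z) .z)) .z)))) (.a (.b .z (.a (.b (.b (.b .z (.l 115)) .z) .z) .z)) .z))) (.b (.b (.a (.b (.a (.b (.a (.b .z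
(.a .z (.l 61))) (.b .z (.l 61))) (.b (.b (.l 61) (.b (.l 61) .z)) (.b (.b .z (.l 60)) .z))) (.b (.b (.b .z (.l 61)) (.l 61)) (.b (.b (.l 61) .z) (.b
(.b .z (.l 60)) .z)))) (.b (.b .z (.b .z (.b .z (.l 63)))) (.b (.b (.l 63) (.b (.l 63) .z)) .z))) (.b (.b (.b (.b (.a (.b .z (.l 61)) (.l 61)) (.l
61)) (.l 61)) (.b (.b (.a (.b (.l 61) .z) .z) .z) (.b (.b .z (.l 60)) .z))) (.b (.b .z (.b .z (.b .z (.l 63)))) (.b (.b (.l 63) (.b (.l 63) .z))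
.z)))) (.b (.b (.b .z (.a (.b .z (.b .z (.l 80))) (.b .z (.b .z (.l 80))))) (.b (.b .z (.a (.b (.l 93) .z) .z)) (.b (.a .z (.l 199)) .z))) (.a (.b (.b
.z (.b (.b (.l 87) .z) (.a (.l 105) .z))) .z) .z))) (.b (.b (.a .z (.b .z (.b (.b .z (.b .z (.l 127))) .z))) .z) .z))) (.b (.b (.b (.b (.b (.b .z (.b
.z (.a .z (.a .z (.l 67))))) (.b (.a (.b .z (.a (.a .z (.l 64)) .z)) (.b (.a .z (.l 67)) (.a .z (.l 67)))) (.a (.a (.a .z (.l 64)) (.l 64)) .z))) (.b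
(.a (.b (.b (.a .z (.a (.l 64) .z)) .z) (.b (.a (.l 35) .z) (.l 35))) (.b (.a .z (.b (.l 115) .z)) .z)) (.a (.b (.a (.b (.l 35) .z) .z) .z) .z))) (.b
(.a (.b .z (.a .z (.b .z (.a .z (.b .z (.l 36)))))) (.b (.a .z (.b .z (.a .z (.l 36)))) (.a (.b (.a .z (.b .z (.l 36))) (.a (.l 36) (.b (.l 36) .z)))
(.b (.a (.l 36) (.b (.l 36) .z)) (.a .z (.b .z (.l 39))))))) (.a (.b (.a (.b .z (.a .z (.b (.l 36) .z))) (.b (.a (.l 36) (.b (.l 36) .z)) .z)) .z) (.a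
(.b (.b .z (.b (.l 83) .z)) .z) (.b (.b (.b (.l 39) (.b (.l 39) .z)) .z) .z))))) (.b (.a (.b (.a (.b (.b .z (.b (.l 45) (.b (.l 45) .z))) .z) (.b (.b
.z (.b (.b (.l 45) .z) .z)) .z)) (.a .z (.b (.a (.b .z (.a .z (.l 39))) (.b (.a .z (.l 39)) (.l 39))) (.b (.b (.l 39) (.b (.l 39) .z)) .z)))) (.b (.a
(.b .z (.a (.b .z (.a .z (.l 39))) (.b .z (.l 39)))) (.b .z (.b (.b .z (.b .z (.l 39))) (.l 39)))) (.b (.l 39) (.b (.b (.l 39) .z) .z)))) (.b (.b .z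
(.b .z (.a (.b (.a .z (.l 102)) .z) (.b (.a (.l 102) .z) .z)))) (.b (.a .z (.b (.a .z (.b .z (.a .z (.l 48)))) (.a (.b (.a .z (.l 48)) .z) (.b (.l 48)
.z)))) (.a (.b (.a .z (.b (.l 111) .z)) (.b (.a .z (.b .z (.l 61))) (.a (.b .z (.l 61)) (.l 61)))) (.b (.b .z (.a .z (.b .z (.l 61)))) (.l 61)))))))
(.b (.b (.b (.b (.b (.a (.l 61) (.b (.l 61) (.a (.l 61) (.b (.l 61) .z)))) (.a (.b (.l 61) (.a (.b (.l 61) .z) .z)) .z)) (.b (.a (.b .z (.l 135)) (.l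
135)) (.b (.b .z (.l 60)) .z))) (.b (.b .z (.b .z (.b .z (.l 63)))) (.b (.b (.l 63) (.b (.l 63) .z)) .z))) (.b (.a (.b (.b .z (.b (.b .z (.l 89)) .z))
.z) .z) (.a .z (.b .z (.b .z (.b .z (.b (.l 103) .z))))))) (.b (.b (.b .z (.a (.b (.b .z (.b .z (.l 127))) .z) .z)) .z) .z)))) (.b (.b (.b (.a (.b (.b
(.b .z (.b (.b .z (.a (.l 67) .z)) (.a (.l 67) .z))) (.a (.b (.l 67) (.a (.b (.l 67) .z) (.b (.l 67) .z))) (.a (.b (.a (.l 67) .z) .z) .z))) (.a .z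
(.b .z (.a .z (.b (.a .z (.b .z (.l 38))) .z))))) (.b (.a .z (.b (.a .z (.b (.a .z (.b .z (.a .z (.l 29)))) (.a (.b .z (.a .z (.l 29))) (.l 29)))) (.a
(.b (.a .z (.b .z (.l 29))) (.a (.b (.a .z (.l 29)) .z) (.b (.b (.l 29) .z) .z))) (.b (.b (.l 29) (.a (.b (.l 29) .z) .z)) .z)))) (.a (.b (.a .z (.b
(.a .z (.b .z (.l 28))) (.a (.b (.a .z (.l 28)) (.l 28)) (.l 28)))) (.a (.b (.a .z (.b (.a .z (.l 28)) (.l 28))) (.a (.b (.a .z (.l 28)) (.l 28)) (.l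
28))) (.l 28))) (.b (.b (.b (.b (.a .z (.l 28)) (.l 28)) (.l 28)) (.l 28)) (.l 28))))) (.a (.b (.a (.b (.a (.b (.a (.b .z (.l 36)) .z) (.a (.b (.l 36)
.z) .z)) (.b .z (.a (.b .z (.l 39)) (.l 39)))) (.a (.b (.a .z (.l 39)) (.l 39)) (.b (.l 39) (.a (.l 39) .z)))) (.b (.a (.b (.a (.b .z (.l 39)) (.l
39)) (.a (.l 39) .z)) .z) .z)) (.a (.a (.b (.b (.l 39) .z) .z) .z) .z)) (.b .z (.b .z (.b .z (.a .z (.a .z (.b (.l 111) .z)))))))) (.b (.b (.b (.a (.b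
.z (.a (.b .z (.l 177)) (.a (.l 177) .z))) .z) (.b (.b .z (.b (.a (.a .z (.l 39)) (.l 39)) (.l 39))) (.l 39))) (.b (.l 39) (.b (.b (.l 39) .z) .z)))
(.b (.a .z (.b (.a .z (.b (.a .z (.b .z (.l 97))) .z)) (.b .z (.a (.b .z (.a .z (.b .z (.l 57)))) (.b (.a .z (.l 57)) (.l 57)))))) (.a (.b (.a (.b (.a
(.b .z (.l 48)) (.b (.b .z (.l 48)) (.l 48))) (.b (.l 48) .z)) (.b (.b (.b .z (.l 48)) (.l 48)) (.b (.b (.l 48) .z) (.b (.a .z (.l 61)) (.l 61)))))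
(.b (.a (.b (.a .z (.l 61)) (.l 61)) (.l 61)) (.a (.l 61) (.b (.l 61) (.a (.l 61) .z))))) (.b (.b (.b (.b .z (.l 48)) (.l 48)) (.b (.b (.l 48) .z) (.l
61))) (.b (.a (.l 61) (.b (.a (.l 61) (.b (.l 61) .z)) (.a (.b (.l 61) .z) .z))) (.a (.b (.a (.b (.l 61) .z) .z) .z) .z))))))) (.b (.b (.b (.a (.b (.b
(.a (.b (.a (.l 61) (.b (.l 61) .z)) .z) .z) .z) (.b .z (.a (.b (.b .z (.l 60)) .z) .z))) (.b (.a .z (.b .z (.a .z (.b .z (.l 69))))) (.a (.b .z (.a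
.z (.b .z (.l 69)))) (.b (.a (.b .z (.l 69)) (.l 69)) (.b (.l 69) (.a (.l 69) .z)))))) (.a (.a (.b (.b .z (.b .z (.b .z (.l 63)))) (.a (.b (.b (.l 63)
(.b (.l 63) .z)) .z) (.b (.a (.b (.l 63) .z) .z) .z))) .z) .z)) (.a (.b .z (.b .z (.a (.b .z (.b .z (.b (.l 103) .z))) .z))) (.b (.b (.a (.b .z (.a
(.b .z (.l 79)) (.b .z (.l 79)))) (.b .z (.b .z (.l 79)))) (.b (.b (.b (.l 79) .z) .z) .z)) .z))) (.b (.b (.a .z (.b (.a .z (.b .z (.b (.b (.l 119)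
.z) .z))) .z)) .z) .z))))

theorem vQ262 : ev Q262 I5_25 I4_15 = 349522914301066 := by decide +kernel

noncomputable def Q169 : QT :=
(.b (.a .z (.b .z (.a (.b .z (.a (.b .z (.b .z (.b .z (.a (.l 234) .z)))) .z)) .z))) (.b (.a (.b (.b (.b (.a .z (.a (.l 306) .z)) (.a (.a (.l 443) (.b
.z (.l 443))) .z)) (.b (.a (.a (.l 443) (.b (.l 443) .z)) .z) (.a (.b (.a (.l 443) .z) .z) (.b .z (.a .z (.l 450)))))) (.a (.b (.b .z (.a (.l 458)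
.z)) (.l 458)) (.b (.b (.l 450) (.a .z (.l 450))) (.a (.b .z (.l 458)) .z)))) (.b (.a (.b (.b (.a (.a (.b (.l 234) .z) (.a (.l 234) .z)) .z) .z) .z)
(.b .z (.a .z (.b .z (.a .z (.b .z (.l 192))))))) (.a .z (.b (.a (.b .z (.a .z (.l 192))) (.b (.a (.b .z (.l 192)) (.b (.l 192) .z)) .z)) .z)))) (.a
(.b (.b (.a (.b (.l 458) (.a (.l 458) (.b (.l 458) .z))) (.b (.a (.b (.l 458) .z) (.b .z (.a .z (.l 74)))) (.a (.b .z (.a .z (.l 74))) (.l 74)))) (.a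
(.b (.a (.b (.l 458) .z) (.b (.a .z (.b .z (.l 74))) (.a (.b .z (.l 74)) (.l 74)))) (.a (.b (.a .z (.l 74)) (.a (.b .z (.l 72)) .z)) (.l 74))) (.l
74))) (.a (.b (.b (.a (.b (.a (.l 72) (.b .z (.l 72))) (.l 72)) (.b (.a .z (.b (.l 74) .z)) (.a (.l 72) .z))) (.l 72)) (.l 72)) (.b (.a (.b (.a (.b
(.l 74) (.a .z (.l 74))) (.l 74)) (.a (.b .z (.a (.l 72) .z)) (.b (.l 74) .z))) (.l 74)) (.a (.b (.a (.l 72) (.b (.a (.l 72) .z) (.l 72))) (.l 72))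
(.b (.a (.b (.a .z (.l 74)) .z) (.b (.l 74) (.a .z (.l 74)))) (.a (.a (.b (.l 72) .z) .z) .z)))))) (.b (.a (.a (.b (.a (.b .z (.a (.l 74) (.b .z (.l
74)))) .z) (.a (.l 74) (.b (.a (.b .z (.l 74)) .z) (.l 74)))) (.a .z (.b .z (.b .z (.b .z (.l 142)))))) (.b (.a (.a (.b (.a .z (.l 201)) .z) (.a (.l
201) (.b (.l 201) .z))) .z) (.a .z (.b .z (.a (.b .z (.l 101)) (.b .z (.a (.l 101) .z))))))) (.a (.b (.a (.a (.l 74) (.a (.l 74) (.a (.l 74) .z))) (.a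
(.a (.a .z (.b (.l 119) .z)) .z) .z)) (.a (.b (.a (.l 74) (.a (.l 74) (.a (.l 74) .z))) (.a (.b (.l 74) (.a .z (.l 74))) (.a (.l 74) .z))) .z)) (.b
(.a .z (.b (.a (.b (.a .z (.l 101)) .z) .z) .z)) .z))))))

theorem vQ169 : ev Q169 I5_16 I4_8 = 366209325685197 := by decide +kernel

noncomputable def Q181 : QT :=
(.a (.a (.b (.a (.b (.a (.b (.b (.b (.b (.a (.l 47) (.b (.l 47) .z)) (.a .z (.b (.a .z (.l 32)) (.l 32)))) (.l 32)) (.l 32)) (.a (.b (.a (.b (.b (.a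
.z (.l 32)) .z) (.a (.l 38) .z)) (.b (.l 32) (.a .z (.b (.l 32) .z)))) (.a (.l 38) (.b (.a (.l 38) .z) (.l 38)))) (.b (.l 32) (.a (.b (.a (.b (.l 32)
.z) (.l 32)) .z) (.b (.l 32) (.a (.b (.l 32) .z) (.l 32))))))) (.b (.b (.b (.b (.a (.b .z (.a .z (.l 32))) (.l 32)) (.l 32)) (.l 32)) (.l 32)) (.l
32))) (.a (.b (.a (.l 38) (.b (.a (.l 38) (.b .z (.l 38))) (.l 38))) (.l 38)) (.b (.a (.b (.a (.b (.a (.b (.l 32) .z) (.l 32)) .z) (.l 32)) (.a (.b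
(.a (.l 38) .z) (.l 38)) (.b (.a .z (.b (.l 32) .z)) (.a (.l 38) .z)))) (.b (.l 32) (.a (.b (.l 32) (.a (.b (.l 32) .z) (.l 32))) (.l 32)))) (.a (.l
38) (.b (.a (.b .z (.l 38)) (.b (.a (.b (.l 32) .z) (.l 32)) (.a .z (.b (.l 32) .z)))) (.a (.l 38) (.b (.a (.l 38) .z) (.l 38)))))))) (.b (.l 32) (.a
(.b (.l 32) (.a (.b (.l 32) (.a (.b (.a (.b (.l 32) .z) (.l 32)) .z) (.l 32))) (.l 32))) (.l 32)))) (.a (.l 38) (.a (.b (.a (.b (.b (.a (.b (.a (.l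
38) .z) (.l 38)) (.b (.a .z (.l 32)) .z)) (.a (.l 38) (.b (.a (.l 38) .z) (.l 38)))) (.l 38)) (.b (.b (.l 32) (.a (.a .z (.b (.l 32) .z)) (.l 32)))
(.a (.b (.a (.l 38) (.b .z (.l 38))) (.l 38)) (.b (.a .z (.b (.l 32) .z)) (.a (.l 38) (.b .z (.l 38))))))) (.l 38)) (.b (.a (.b (.l 32) (.a (.b (.l
32) (.a .z (.b (.l 32) (.a .z (.l 32))))) (.l 32))) (.l 32)) (.a (.b (.a (.b (.a (.l 38) (.b .z (.l 38))) (.l 38)) (.b (.a (.b (.a .z (.l 32)) .z) (.l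
32)) (.a (.b .z (.l 38)) .z))) (.l 38)) (.b (.a (.b (.l 32) (.a (.b (.l 32) (.a .z (.l 32))) (.l 32))) (.l 32)) (.a (.b (.a (.b .z (.l 38)) (.b (.a .z
(.l 32)) .z)) (.a (.l 38) (.b .z (.l 38)))) (.b (.l 32) (.a (.b (.a .z (.l 32)) .z) (.b (.l 32) (.a .z (.l 32)))))))))))) (.a (.b (.l 32) (.a (.l 32)
(.b (.a (.l 32) (.b (.l 32) (.a (.l 32) (.b (.l 32) (.a (.b (.l 32) (.a (.l 32) .z)) .z))))) (.a (.b (.l 32) (.a (.b (.l 32) (.a (.l 32) (.b (.l 32)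
(.a (.l 32) .z)))) (.b (.a (.l 32) (.b (.a (.l 32) .z) .z)) (.a (.b (.a (.l 32) .z) .z) .z)))) (.b (.a (.b (.a (.l 32) (.b (.l 32) .z)) (.a (.b (.a
(.l 32) .z) .z) .z)) .z) .z))))) (.b (.a (.b (.l 32) (.a (.l 32) (.b (.a (.l 32) (.b (.l 32) (.a (.l 32) (.b (.l 32) (.a (.l 32) .z))))) (.a (.b (.a
(.l 32) (.b (.l 32) (.a (.l 32) .z))) (.a (.b (.l 32) .z) .z)) (.b (.a (.b (.a (.l 32) .z) .z) .z) .z))))) (.b (.a (.b (.l 32) (.a (.l 32) (.b (.l 32)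
(.a (.l 32) (.b (.l 32) .z))))) (.b (.b (.l 32) (.a (.l 32) (.b (.l 32) (.a (.l 32) .z)))) (.a (.b (.a (.l 32) (.b (.l 32) .z)) .z) .z))) (.a (.b (.a
(.b (.a (.l 32) (.b (.l 32) .z)) .z) .z) .z) .z))) (.a (.b (.a (.b (.a (.b (.l 32) (.a (.l 32) (.b (.l 32) .z))) (.b (.a (.b (.l 32) (.a (.l 32) .z))
(.b (.a (.l 32) .z) .z)) .z)) (.a (.b (.a (.b (.a (.l 32) .z) .z) .z) .z) .z)) .z) .z) .z)))) (.a (.b (.a (.b (.a (.b (.a (.b (.a (.b (.l 32) (.a (.l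
32) .z)) (.b .z (.a .z (.l 58)))) (.a .z (.l 58))) (.l 58)) (.b (.a .z (.b (.a (.b (.l 58) .z) (.l 58)) (.a .z (.a .z (.l 58))))) .z)) (.b (.l 58) (.a
(.b (.l 58) (.a (.b (.a .z (.l 58)) .z) (.l 58))) (.l 58)))) (.a .z (.b (.a .z (.b (.a (.b (.l 58) (.a .z (.l 58))) (.l 58)) (.a .z (.b (.l 58) .z))))
.z))) (.b (.a (.l 58) (.b (.l 58) (.a (.b (.l 58) (.a (.l 58) (.b (.a (.l 58) .z) .z))) (.b (.a (.b (.l 58) (.a (.l 58) .z)) (.b (.a (.l 58) .z) .z))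
.z)))) (.b (.a (.a (.b (.l 58) (.a (.l 58) (.b (.l 58) (.a (.l 58) .z)))) (.b (.a (.l 58) (.b (.l 58) .z)) (.a .z (.b .z (.l 89))))) (.a (.b .z (.a
(.b .z (.l 89)) .z)) .z)) (.a (.a (.b .z (.b .z (.l 175))) (.b (.b (.b (.l 89) .z) .z) (.b .z (.l 175)))) .z)))) (.b (.a (.b (.a (.a (.b .z (.b (.a .z
(.l 121)) (.a .z (.l 121)))) (.b .z (.a (.b (.l 121) .z) .z))) (.a .z (.b (.a .z (.l 175)) (.a .z (.l 175))))) (.a .z (.b (.a (.a (.l 171) .z) .z)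
.z))) (.b (.a (.b (.l 175) (.a (.l 175) (.b (.l 175) .z))) (.b (.a (.b (.l 175) .z) .z) .z)) .z)) (.a (.b (.a .z (.b .z (.a (.b (.a .z (.l 73)) (.l
73)) (.a (.b .z (.l 73)) .z)))) (.a (.b (.a .z (.b .z (.l 164))) .z) (.b (.a (.b (.a .z (.l 73)) .z) (.l 73)) (.a .z (.b (.a .z (.l 73)) .z))))) (.a
(.b .z (.a (.b .z (.a (.l 73) .z)) .z)) (.a .z (.b .z (.b .z (.l 281)))))))) (.b (.b (.a (.b (.a (.a (.b (.l 58) (.a (.b (.l 58) (.a (.l 58) .z)) (.b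
(.a (.l 58) .z) .z))) (.b (.a (.b (.l 58) (.a (.l 58) .z)) .z) .z)) .z) (.a (.a (.b (.a .z (.l 154)) .z) (.b (.a (.l 154) .z) .z)) .z)) .z) (.a (.b
(.a (.b (.a (.a .z (.b (.l 117) .z)) .z) .z) .z) .z) .z)) (.a (.b (.b (.b (.b (.a (.a .z (.l 179)) .z) .z) .z) .z) (.a .z (.b .z (.a (.b .z (.a .z (.b
.z (.a .z (.l 61))))) (.b .z (.a (.b .z (.l 61)) .z)))))) (.b (.a .z (.b .z (.a (.b (.a .z (.b (.l 121) .z)) .z) (.b (.l 121) (.a .z (.b (.l 121)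
.z)))))) (.a (.b (.a (.b .z (.a .z (.l 157))) (.b .z (.b .z (.l 157)))) (.b .z (.a .z (.a (.l 170) .z)))) (.b .z (.b (.b .z (.a (.l 153) .z)) (.a (.l
153) .z)))))))))

theorem vQ181 : ev Q181 I4_9 I5_20 = 963922406376180 := by decide +kernel

noncomputable def Q117 : QT :=
(.b (.b (.b (.b (.a (.b (.l 7) (.a (.b (.l 7) (.a (.b (.l 7) (.a (.l 7) (.b (.l 7) (.a (.l 7) (.a (.l 7) (.a (.l 7) .z)))))) (.b (.a (.l 7) (.b (.l 7)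
(.a (.l 7) .z))) (.a (.b (.a (.l 7) (.a (.l 7) .z)) .z) (.b .z (.l 31)))))) (.b (.a (.b (.l 7) (.a (.l 7) (.b (.a (.l 7) (.a (.l 7) .z)) .z))) (.b (.a
(.b (.l 7) (.a (.l 7) .z)) (.b (.a (.a (.l 7) .z) .z) (.a .z (.l 31)))) (.a (.b .z (.l 31)) (.l 31)))) (.a (.b (.a (.b (.a (.a (.l 7) .z) .z) (.a .z
(.l 31))) (.b (.a .z (.l 31)) (.l 31))) (.l 31)) (.l 31))))) (.b (.a (.b (.a (.l 7) (.b (.l 7) (.a (.b (.l 7) (.a (.l 7) (.a (.l 7) (.a (.l 7) .z))))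
(.b (.a (.l 7) (.a (.a (.l 7) .z) .z)) .z)))) (.a (.b (.a (.l 7) (.b (.l 7) (.a (.l 7) .z))) (.a (.b (.a (.l 7) (.a (.l 7) .z)) .z) (.b .z (.l 31))))
(.b (.a (.b (.a (.a (.a (.l 7) .z) .z) .z) .z) (.l 29)) (.a (.a (.l 31) (.a .z (.l 29))) (.l 29))))) (.b (.a (.b (.a (.b (.l 7) (.a (.a (.l 7) .z)
.z)) (.b .z (.a .z (.l 29)))) (.a (.b (.a .z (.l 29)) (.l 29)) (.l 29))) (.l 29)) (.l 29))) (.a (.b (.a (.b (.a (.b (.a .z (.l 31)) (.l 31)) (.l 31))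
(.l 31)) (.a (.a (.l 31) (.a (.a (.l 31) .z) (.l 29))) (.l 29))) (.a (.l 31) (.a (.a (.l 31) (.a (.a (.l 31) .z) (.l 29))) (.l 29)))) (.l 29)))) (.a
(.b (.a (.b (.a (.b (.a (.b (.l 7) (.a (.a (.l 7) (.a (.l 7) .z)) .z)) (.b (.a (.a (.a (.l 7) .z) .z) .z) (.a .z (.l 31)))) (.a (.b (.a .z (.l 31))
(.l 31)) (.l 31))) (.l 31)) (.l 31)) (.l 31)) (.l 31)) (.a (.a (.l 31) (.a (.a (.l 31) (.a (.a (.l 31) .z) (.l 29))) (.l 29))) (.l 29)))) (.a (.a (.b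
(.l 31) (.a (.b (.l 31) (.a (.b (.a (.b (.a .z (.l 31)) (.a (.b .z (.l 10)) .z)) (.b (.l 31) (.a .z (.l 31)))) (.a (.l 10) (.b .z (.a (.l 10) (.b .z
(.l 10)))))) (.b (.l 31) (.a (.b (.l 31) .z) (.l 31))))) (.l 31))) (.l 31)) (.a (.a (.l 31) (.a (.a (.l 31) (.a (.a (.l 31) .z) (.l 29))) (.l 29)))
(.l 29)))) (.a (.b (.a (.b (.a (.b (.a (.l 10) (.b (.a (.b (.a (.l 10) (.b .z (.l 10))) (.l 10)) (.b .z (.a (.l 10) (.b .z (.l 10))))) (.l 10))) (.l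
10)) (.b (.a (.b (.a (.b (.l 31) .z) (.l 31)) (.a (.b (.a (.l 10) (.b .z (.l 10))) (.l 10)) (.b .z (.a (.l 10) .z)))) (.b (.l 31) (.a (.b (.l 31) (.a
.z (.l 31))) (.l 31)))) (.a (.l 10) (.b (.a (.b (.a (.b .z (.l 10)) .z) (.l 10)) (.b (.a .z (.l 31)) (.a (.b .z (.l 10)) .z))) (.l 10))))) (.l 10))
(.b (.a (.b (.l 31) (.a (.b (.a (.b (.l 31) (.a .z (.l 31))) (.l 31)) (.a (.b (.a (.b .z (.l 10)) .z) (.a (.l 10) (.b .z (.l 10)))) (.b (.l 31) .z)))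
(.l 31))) (.l 31)) (.a (.b (.a (.b (.a (.l 10) (.b (.a (.l 10) (.b .z (.l 10))) (.l 10))) (.l 10)) (.b (.a (.b .z (.a (.l 10) (.b .z (.l 10)))) (.b
(.l 31) (.a .z (.l 31)))) (.a (.l 10) (.b (.a (.b .z (.l 10)) .z) (.l 10))))) (.l 10)) (.b (.a (.b (.l 31) (.a (.b (.a .z (.l 31)) (.a (.b .z (.l 10))
.z)) (.b (.l 31) (.a .z (.l 31))))) (.l 31)) (.a (.b (.a (.l 10) (.b (.a (.b .z (.l 10)) .z) (.a (.l 10) (.b .z (.l 10))))) (.l 10)) (.b (.a (.b (.l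
31) .z) (.l 31)) (.a (.b (.a (.l 10) (.b .z (.l 10))) (.l 10)) (.b .z (.a (.l 10) .z))))))))) (.a (.l 10) (.b (.l 10) (.a (.l 10) (.b (.l 10) (.a (.b
(.l 10) (.a (.b (.l 10) (.a (.l 10) (.b (.l 10) .z))) (.b (.a (.l 10) (.b (.l 10) .z)) (.a .z (.b .z (.l 11)))))) (.b (.a (.b (.l 10) (.a (.l 10) (.b
(.l 10) .z))) (.b (.a (.l 10) .z) (.a .z (.b .z (.l 11))))) (.a (.b (.a .z (.b .z (.l 11))) (.l 11)) (.l 11))))))))) (.b (.a (.b (.a (.l 31) (.a (.a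
(.l 31) (.a (.a (.l 31) .z) (.l 29))) (.l 29))) (.a (.b (.l 31) (.a (.b (.l 31) (.a (.b (.l 31) (.a .z (.l 31))) (.l 31))) (.l 31))) (.a (.a (.l 31)
(.a (.a (.l 31) .z) (.l 29))) (.l 29)))) (.b (.l 29) (.a (.b (.l 29) (.a (.l 29) (.b (.l 29) (.a (.l 29) (.b (.l 29) .z))))) (.b (.a (.l 29) (.b (.l
29) (.a (.b (.l 29) (.a (.l 29) .z)) (.b (.a (.l 29) .z) (.a .z (.b .z (.l 11))))))) (.a (.b (.a (.b (.l 29) (.a (.l 29) .z)) (.b (.a (.l 29) .z) (.a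
.z (.b .z (.l 11))))) (.a (.b .z (.a (.b .z (.l 11)) (.l 11))) (.l 11))) (.b (.a (.b (.a .z (.b .z (.l 11))) (.l 11)) (.l 11)) (.l 11))))))) (.a (.b
(.a (.b (.a (.b (.a (.b (.a (.b .z (.l 10)) .z) (.l 10)) (.b (.a .z (.l 31)) .z)) (.a (.l 10) (.b (.a (.l 10) (.b .z (.l 10))) (.l 10)))) (.b (.l 31)
(.a (.b .z (.a (.l 10) (.b .z (.l 10)))) (.b (.l 31) (.a .z (.l 31)))))) (.a (.l 10) (.b (.a (.l 10) (.b (.a (.b .z (.l 10)) .z) (.l 10))) (.l 10))))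
(.b (.a (.a (.l 31) (.a (.a (.l 31) .z) (.l 29))) (.b (.l 29) (.a (.l 29) (.b (.l 29) (.a (.l 29) .z))))) (.a (.b (.a (.b (.a .z (.l 31)) (.a (.b .z
(.l 10)) .z)) (.b (.a .z (.l 29)) .z)) (.a (.b (.a (.l 10) .z) (.a .z (.b .z (.l 11)))) (.b (.a .z (.b .z (.l 11))) (.l 11)))) (.b (.a (.b (.a (.l 29)
.z) (.a .z (.b .z (.l 11)))) (.b (.a .z (.b .z (.l 11))) (.l 11))) (.l 11))))) (.a (.b (.a (.b (.l 10) (.a (.b (.l 10) (.a (.b (.l 10) .z) .z)) (.b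
(.a (.b (.l 10) .z) .z) (.a (.b .z (.l 11)) (.l 11))))) (.b (.a (.b (.l 10) (.a (.b (.l 10) .z) .z)) (.b (.a (.b (.l 10) .z) .z) (.a (.b .z (.l 11))
(.l 11)))) (.a (.b (.a (.b .z (.l 11)) (.l 11)) (.l 11)) (.l 11)))) (.a (.b (.a (.b (.a (.b .z (.l 11)) (.l 11)) (.l 11)) (.l 11)) (.l 11)) (.l 11)))
(.b (.a (.b (.a (.b (.a (.b .z (.l 11)) (.l 11)) (.l 11)) (.l 11)) (.l 11)) (.l 11)) (.l 11)))) (.b (.a (.b (.a (.b (.a (.l 29) (.b (.l 29) .z)) (.a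
(.b (.a (.l 29) .z) (.a .z (.b .z (.l 11)))) (.b (.a (.b .z (.l 11)) (.l 11)) (.l 11)))) (.b (.a (.b .z (.a (.b .z (.l 11)) (.l 11))) (.b (.a (.b .z
(.l 11)) (.l 11)) (.l 11))) (.l 11))) (.l 11)) (.l 11)) (.l 11)))))) (.b (.a (.b (.a (.b (.a (.l 10) (.b (.l 10) (.a (.b (.l 10) (.a (.l 10) (.b (.l
10) (.a (.l 10) (.b (.l 10) .z))))) (.b (.a (.l 10) (.b (.l 10) (.a (.b (.l 10) .z) .z))) (.a (.b (.a (.b (.l 10) .z) .z) (.a .z (.l 11))) (.b (.a (.b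
.z (.l 11)) (.l 11)) (.l 11))))))) (.a (.b (.a (.b (.l 10) (.a (.l 10) (.b (.l 10) (.a (.l 10) (.b (.l 10) .z))))) (.b (.a (.l 10) (.b (.l 10) (.a (.l
10) (.b (.l 10) .z)))) (.a (.b (.a (.l 10) (.b (.l 10) .z)) (.a .z (.b .z (.l 11)))) (.b (.a .z (.b .z (.l 11))) (.l 11))))) (.a (.b (.a (.b (.a (.l
10) (.b (.l 10) .z)) (.a (.b (.l 10) .z) .z)) (.b (.a .z (.b .z (.l 11))) (.l 11))) (.a (.b (.a (.b .z (.l 11)) (.l 11)) (.l 11)) (.l 11))) (.l 11)))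
(.b (.a (.b (.a (.b (.a (.l 10) (.b (.l 10) .z)) (.a .z (.b .z (.l 11)))) (.b (.a .z (.b .z (.l 11))) (.l 11))) (.l 11)) (.l 11)) (.l 11)))) (.b (.a
(.b (.a (.b (.l 10) (.a (.l 10) (.b (.l 10) (.a (.b (.l 10) .z) .z)))) (.b (.a (.l 10) (.b (.a (.l 10) (.b (.l 10) .z)) (.a .z (.b .z (.l 11))))) (.a
(.b (.a (.b (.l 10) .z) .z) (.a (.b .z (.l 11)) (.l 11))) (.b (.a (.b .z (.l 11)) (.l 11)) (.l 11))))) (.a (.b (.a (.b (.a (.b (.l 10) .z) .z) (.a (.b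
.z (.l 11)) (.l 11))) (.b (.a (.b .z (.l 11)) (.l 11)) (.l 11))) (.l 11)) (.l 11))) (.b (.a (.b (.a (.b (.a .z (.b .z (.l 11))) (.l 11)) (.l 11)) (.l
11)) (.l 11)) (.l 11))) (.l 11))) (.b (.b (.a (.b (.a (.b (.a (.b (.l 11) (.a .z (.a .z (.l 11)))) (.l 11)) (.a (.b (.a (.l 13) .z) (.l 13)) (.b (.a
(.a .z (.l 11)) (.l 11)) (.a .z (.a .z (.l 11)))))) (.l 11)) (.a (.b (.a (.l 13) (.b (.a (.l 13) .z) (.l 13))) (.l 13)) (.b (.a (.b (.a .z (.l 11))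
(.a (.a (.l 13) .z) .z)) (.l 11)) (.a (.b (.a (.l 13) (.a (.l 13) .z)) (.l 13)) (.b (.a .z (.a .z (.l 11))) (.a (.l 13) .z)))))) (.b (.l 11) (.a (.b
(.l 11) (.a (.b (.l 11) (.a (.a .z (.l 11)) (.l 11))) (.l 11))) (.l 11)))) (.a (.l 13) (.b (.a (.b (.a (.b (.a .z (.a .z (.l 11))) (.a (.l 13) .z))
(.b (.l 11) (.a (.a .z (.l 11)) (.l 11)))) (.a (.l 13) (.b .z (.a (.l 13) (.a (.l 13) .z))))) (.b (.l 11) (.a (.b (.l 11) (.a .z (.l 11))) (.l 11))))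
(.a (.l 13) (.b (.a (.b (.a (.a (.l 13) .z) .z) (.a (.l 13) (.a (.l 13) .z))) (.b (.l 11) (.a .z (.l 11)))) (.a (.l 13) (.b (.a (.a (.l 13) .z) .z)
(.l 13)))))))) (.l 13))) (.b (.l 11) (.b (.b (.l 11) (.a (.b (.l 11) (.a (.b (.l 11) (.a (.b (.a (.a .z (.l 11)) (.l 11)) (.a .z (.a .z (.l 11)))) (.l
11))) (.l 11))) (.l 11))) (.b (.a (.b (.a (.b (.a (.b (.a (.l 13) .z) (.l 13)) (.b (.a (.a .z (.l 11)) (.l 11)) (.a .z (.a .z (.l 11))))) (.a (.l 13)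
(.b (.a (.l 13) .z) (.l 13)))) (.b (.l 11) (.a (.b (.a (.a .z (.l 11)) (.l 11)) (.a .z (.a .z (.l 11)))) (.l 11)))) (.a (.l 13) (.b (.a (.b (.a (.l
13) .z) (.l 13)) (.b (.a (.a .z (.l 11)) (.l 11)) (.a .z (.a .z (.l 11))))) (.a (.l 13) (.b (.a (.l 13) .z) (.l 13)))))) (.b (.l 11) (.a (.b (.l 11)
(.a (.b (.a (.a .z (.l 11)) (.l 11)) .z) (.l 11))) (.l 11)))) (.a (.l 13) (.a (.b (.b (.a (.b (.a (.l 13) (.a (.l 13) .z)) (.l 13)) (.b (.a .z (.l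
11)) (.a (.a (.l 13) .z) .z))) (.a (.l 13) (.a (.l 13) (.b (.a (.l 13) .z) (.l 13))))) (.l 13)) (.b (.a (.b (.l 11) (.a (.b .z (.a (.l 13) .z)) (.b
(.l 11) .z))) (.l 11)) (.a (.b (.a (.l 13) (.b (.a (.l 13) .z) (.l 13))) (.l 13)) (.b (.a (.b (.a .z (.l 11)) .z) (.b (.l 11) (.a .z (.l 11)))) (.a
(.l 13) (.b .z (.l 13)))))))))))) (.b (.l 13) (.b (.b (.a (.l 13) (.b (.a (.l 13) (.b (.l 13) (.a (.l 13) (.a (.b (.l 13) (.a (.l 13) .z)) (.b (.a (.l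
13) .z) .z))))) (.a (.b (.l 13) (.a (.l 13) (.b (.a (.l 13) (.a (.l 13) .z)) (.a (.a (.l 13) .z) .z)))) (.b (.a (.b (.a (.l 13) (.a (.l 13) .z)) (.a
(.a (.l 13) .z) .z)) (.b (.a .z (.l 47)) (.l 47))) (.a (.b (.a .z (.l 47)) (.l 47)) (.l 47)))))) (.a (.b (.a (.l 13) (.b (.l 13) (.a (.l 13) (.b (.a
(.l 13) (.a (.a (.l 13) .z) .z)) (.a (.a (.a (.l 13) .z) .z) .z))))) (.a (.b (.l 13) (.a (.b (.l 13) (.a (.l 13) (.a (.l 13) (.a (.l 13) .z)))) (.b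
(.a (.l 13) .z) .z))) (.b (.a (.b (.a (.l 13) (.a (.a (.l 13) .z) .z)) .z) (.b (.a .z (.l 49)) (.l 49))) (.a (.b (.a .z (.l 49)) (.l 49)) (.l 49)))))
(.b (.a (.b (.a (.b (.a (.l 13) (.a (.l 13) .z)) (.a (.a (.l 13) .z) .z)) (.b (.a .z (.l 47)) (.a .z (.l 47)))) (.a (.b (.a .z (.l 49)) (.l 49)) (.a
(.a (.l 49) .z) (.l 47)))) (.l 47)) (.a (.a (.l 49) (.a (.a (.l 49) (.a .z (.l 47))) (.l 47))) (.l 47))))) (.b (.a (.b (.a (.b (.a (.b (.a (.a (.l 13)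
(.a (.l 13) .z)) .z) (.a .z (.l 16))) (.a (.a (.b (.a (.l 16) .z) (.l 16)) .z) (.l 49))) (.a (.l 16) (.a (.a (.l 16) (.b (.a (.l 16) .z) (.l 16))) (.a
.z (.l 49))))) (.l 49)) (.a (.a (.l 16) (.a (.l 16) (.b (.a (.b (.a (.l 16) .z) (.l 16)) .z) (.a (.l 16) (.b (.a (.l 16) .z) (.l 16)))))) (.a (.a (.b
(.l 49) .z) (.l 49)) (.l 49)))) (.a (.a (.l 49) (.a (.a (.l 49) (.a (.a (.l 49) .z) (.l 47))) (.l 47))) (.l 47))) (.a (.a (.l 16) (.a (.b (.a (.b (.a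
(.l 16) (.b .z (.a (.l 16) .z))) (.l 16)) (.b (.a .z (.l 49)) (.a (.b .z (.a (.l 16) .z)) .z))) (.a (.l 16) (.b (.a (.l 16) (.b .z (.a (.l 16) .z)))
(.l 16)))) (.b (.l 49) (.a (.b (.a .z (.l 49)) (.a (.b .z (.a (.l 16) .z)) .z)) (.l 49))))) (.a (.a (.l 49) (.a (.a (.l 49) (.a (.a (.l 49) .z) (.l
47))) (.l 47))) (.a (.l 47) (.b (.l 47) (.a (.l 47) (.b (.a (.l 47) .z) .z)))))))))))

theorem vQ117 : ev Q117 I5_10 I4_13 = 1873007788095533 := by decide +kernel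

noncomputable def Q7 : QT :=
(.b (.b (.b (.a (.b (.b (.a (.a (.l 84) (.b (.a (.l 84) (.b .z (.l 84))) (.l 84))) (.a (.a (.b .z (.a (.l 84) .z)) (.b (.l 226) .z)) (.b .z (.a (.l
226) .z)))) (.a (.l 84) (.a (.a (.l 84) (.b .z (.l 84))) .z))) (.a (.l 84) (.a (.l 84) (.a (.b (.b (.a (.l 84) .z) (.l 84)) (.l 84)) (.b .z (.a (.b .z
(.l 84)) .z)))))) (.a (.b (.a (.b (.b (.l 118) (.a .z (.l 118))) .z) (.b (.l 118) (.a (.b (.l 118) .z) (.l 118)))) .z) (.b (.b (.b (.a (.l 118) (.b .z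
(.a (.l 118) .z))) (.l 118)) (.l 118)) (.a (.b (.a (.b (.l 118) (.a .z (.l 118))) (.l 118)) (.a .z (.b (.l 118) .z))) (.l 118))))) (.a (.l 84) (.a (.a
(.b (.a (.b (.a (.b .z (.l 84)) .z) (.l 84)) .z) (.a (.l 84) (.b (.a (.l 84) .z) (.l 84)))) (.b .z (.a (.b .z (.a (.b .z (.l 84)) .z)) .z))) (.b (.a
.z (.a (.b (.b (.a .z (.l 118)) .z) (.b .z (.l 166))) (.b (.l 118) (.a .z (.b (.l 118) .z))))) (.a (.a .z (.a .z (.a .z (.l 166)))) (.a (.l 166) (.b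
(.a (.l 166) .z) (.a (.l 166) .z)))))))) (.a (.b (.l 84) (.b (.l 84) (.b (.l 84) (.a (.l 84) (.a (.l 84) (.b (.l 84) (.a (.l 84) (.b (.l 84)
.z)))))))) (.a (.b (.a (.l 84) (.b (.a (.b (.a (.l 84) (.b .z (.l 84))) (.l 84)) (.a (.b .z (.a (.l 84) .z)) .z)) (.a (.l 84) (.a (.l 84) (.b (.a (.l
84) .z) (.l 84)))))) (.b (.a (.l 84) (.b (.l 84) (.a (.l 84) (.b (.l 84) .z)))) (.a (.b (.a (.l 84) (.b (.l 84) (.a (.l 84) .z))) (.a (.b (.b (.l 84)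
.z) .z) .z)) (.b (.a (.b (.a (.l 84) .z) .z) .z) .z)))) (.a (.b (.a (.b (.a .z (.a (.l 234) .z)) (.a .z (.b (.l 234) .z))) .z) (.a (.b (.a (.b (.l 84)
.z) .z) .z) .z)) (.b (.b (.a (.b (.l 166) .z) .z) .z) (.a (.b .z (.a .z (.b (.l 157) .z))) (.b (.b .z (.b .z (.l 157))) (.b (.a (.l 157) .z)
.z)))))))) (.b (.a (.b (.b (.a (.b (.l 84) (.b (.b (.l 84) (.a (.l 84) .z)) .z)) (.b (.a (.b (.l 84) (.a (.l 84) .z)) (.b (.a (.b (.l 84) .z) .z) .z))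
.z)) (.a (.b (.b (.a (.l 82) (.a (.b .z (.l 82)) .z)) (.a (.l 82) (.a (.l 82) (.b .z (.l 82))))) (.l 82)) (.a (.b .z (.a (.b (.b .z (.l 82)) (.l 82))
(.b .z (.a (.l 82) .z)))) .z))) (.b (.a (.l 82) (.a (.l 82) (.b (.a (.b (.a (.l 82) .z) (.l 82)) .z) (.a (.l 82) (.b (.a (.l 82) .z) (.l 82)))))) (.l
82))) (.a (.b .z (.a (.b .z (.a (.b (.b (.a (.l 82) .z) (.l 82)) (.l 82)) (.b .z (.a (.l 82) (.b .z (.l 82)))))) .z)) .z)) (.a (.l 82) (.a (.b (.a (.l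
82) (.b (.a (.b (.a (.l 82) (.b .z (.l 82))) (.l 82)) (.b .z (.a (.b .z (.l 82)) .z))) (.l 82))) (.a (.l 82) (.b (.l 82) (.a (.l 82) (.b (.l 82) (.a
(.l 82) .z)))))) (.b (.a (.b .z (.a (.b .z (.a (.l 82) .z)) .z)) .z) (.a (.b (.a (.a (.l 82) (.b (.l 82) .z)) .z) .z) .z))))))

theorem vQ7 : ev Q7 I4_0 I5_6 = 1222605570560575 := by decide +kernel

noncomputable def Q151 : QT :=
(.a (.b (.b (.a (.b (.a (.a (.a (.b (.a (.b (.a (.b (.l 28) .z) (.l 28)) .z) (.l 28)) (.a .z (.b (.a .z (.b (.l 28) .z)) .z))) (.b (.l 28) (.a (.b (.l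
28) (.a .z (.b (.l 28) .z))) (.l 28)))) (.l 28)) (.b (.l 28) (.a (.b (.l 28) (.a (.l 28) (.b (.l 28) (.a (.l 28) (.b (.l 28) .z))))) (.b (.a (.l 28)
(.b (.a (.l 28) .z) (.a .z (.b (.a .z (.l 15)) (.l 15))))) (.a (.b (.a (.b (.l 28) .z) (.b .z (.a .z (.l 15)))) (.a (.b .z (.a .z (.l 15))) (.l 15)))
(.b (.a (.b (.a .z (.l 15)) (.l 15)) (.l 15)) (.l 15))))))) (.a (.b (.a (.a .z (.a .z (.b (.a .z (.l 28)) .z))) (.b (.l 28) (.a (.a (.a (.b (.l 28)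
.z) (.l 28)) (.l 28)) (.b (.a (.l 28) (.b (.l 28) .z)) (.a (.b (.l 28) .z) (.b .z (.a .z (.l 15)))))))) (.a (.b .z (.a .z (.b (.a .z (.b .z (.a .z (.l
15)))) (.a (.b .z (.a .z (.l 15))) (.l 15))))) (.b (.a (.b .z (.a .z (.b (.a .z (.l 15)) (.l 15)))) (.b (.a (.b .z (.l 15)) (.l 15)) (.l 15))) (.l
15)))) (.b (.a (.b (.a (.b (.l 28) (.a (.l 28) .z)) (.b (.a .z (.b .z (.l 15))) (.a (.b (.a .z (.l 15)) (.l 15)) (.l 15)))) (.a (.b (.a (.b .z (.a .z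
(.l 15))) (.b (.a .z (.l 15)) (.l 15))) (.l 15)) (.l 15))) (.l 15)) (.l 15)))) (.b (.a (.b (.a (.b (.a (.l 28) (.b (.a (.b .z (.l 28)) .z) (.a (.l 28)
.z))) (.a (.b (.a (.l 28) (.b (.l 28) .z)) (.a (.b (.l 28) .z) (.b .z (.a .z (.l 15))))) (.b (.a (.b .z (.a .z (.l 15))) (.b (.a .z (.l 15)) (.l 15)))
(.l 15)))) (.b (.a (.b (.a (.b (.l 13) (.a .z (.l 13))) (.l 13)) (.a (.b .z (.a (.l 15) .z)) (.b (.l 13) (.a .z (.l 13))))) (.l 13)) (.a (.b (.a (.l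
15) (.b .z (.l 15))) (.l 15)) (.b (.a (.b (.a .z (.l 13)) .z) (.l 13)) (.a (.b (.a (.l 15) .z) (.l 15)) (.b (.a .z (.l 13)) .z)))))) (.a (.b (.a (.b
(.a (.b .z (.l 15)) (.l 15)) (.l 15)) (.l 15)) (.l 15)) (.b (.a (.l 15) (.b (.a (.l 15) (.b (.a (.l 15) .z) (.l 15))) (.l 15))) (.l 15)))) (.b (.l 13)
(.a (.b (.a (.b (.a (.b (.a .z (.l 13)) .z) (.b (.l 13) (.a .z (.l 13)))) (.a (.l 15) (.b .z (.a (.l 15) .z)))) (.b (.l 13) (.a (.b (.l 13) (.a .z (.l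
13))) (.l 13)))) (.a (.l 15) (.b (.a (.b .z (.a (.l 15) .z)) (.b (.l 13) (.a .z (.l 13)))) (.a (.l 15) (.b .z (.a (.l 15) .z)))))) (.b (.l 13) (.a (.b
(.l 13) (.a (.b (.l 13) .z) (.l 13))) (.l 13)))))) (.a (.l 15) (.b (.a (.l 15) (.b (.a (.b (.a (.b (.a (.l 15) .z) (.l 15)) (.b (.a .z (.l 13)) .z))
(.a (.l 15) (.b (.a (.l 15) .z) (.l 15)))) (.b (.l 13) (.a (.b (.a .z (.l 13)) .z) (.l 13)))) (.a (.l 15) (.b (.a (.b (.a (.l 15) .z) (.l 15)) (.b (.a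
.z (.l 13)) .z)) (.a (.l 15) (.b (.a (.l 15) .z) (.l 15))))))) (.l 15))))) (.b (.a (.a (.b (.a (.b (.a (.b (.a .z (.b (.a .z (.l 15)) (.l 15))) (.a
(.b (.a .z (.l 15)) (.l 15)) (.l 15))) (.l 15)) (.l 15)) (.l 15)) (.l 15)) (.l 15)) (.b (.l 15) (.a (.b (.l 15) (.a (.b (.l 15) (.a (.l 15) (.b (.l
15) .z))) (.b (.a (.l 15) (.b (.l 15) .z)) (.a (.b .z (.a (.a .z (.l 15)) (.l 15))) (.b (.a (.a .z (.l 15)) (.l 15)) (.l 15)))))) (.b (.a (.b (.l 15)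
(.a (.l 15) (.b (.l 15) .z))) (.b (.a (.b (.l 15) (.a (.l 15) (.a (.l 15) .z))) (.b (.a (.l 15) (.a (.l 15) .z)) .z)) (.a (.b .z (.a (.a .z (.l 15))
(.l 15))) (.l 15)))) (.a (.b (.a (.b .z (.a (.a .z (.l 15)) (.l 15))) (.b (.a (.a .z (.l 15)) (.l 15)) (.l 15))) (.l 15)) (.l 15)))))) (.b (.a (.b (.a
(.l 15) (.b (.a (.l 15) (.a (.l 15) (.b (.l 15) .z))) (.a (.b (.l 15) (.a (.l 15) .z)) (.a (.b .z (.a (.a .z (.l 15)) (.l 15))) (.b (.a (.a .z (.l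
15)) (.l 15)) (.l 15)))))) (.a (.b (.a (.l 15) (.b (.l 15) (.a (.l 15) .z))) (.a (.b (.l 15) (.a (.l 15) .z)) (.b (.a .z (.a (.a .z (.l 15)) (.l 15)))
(.a (.a (.a .z (.l 15)) (.l 15)) (.l 15))))) (.b (.a (.b (.a .z (.a (.a .z (.l 15)) (.l 15))) (.a (.a (.a .z (.l 15)) (.l 15)) (.l 15))) (.l 15)) (.l
15)))) (.a (.b (.a (.b (.a (.b .z (.a (.a .z (.l 15)) (.l 15))) (.b (.a (.a .z (.l 15)) (.l 15)) (.l 15))) (.l 15)) (.l 15)) (.l 15)) (.l 15))) (.a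
(.b (.a (.b (.a (.b (.a .z (.a (.a .z (.l 15)) (.l 15))) (.a (.a (.a .z (.l 15)) (.l 15)) (.l 15))) (.l 15)) (.l 15)) (.l 15)) (.l 15)) (.l 15)))))
(.b (.l 15) (.b (.b (.l 15) (.a (.b (.l 15) (.a (.l 15) (.b (.l 15) (.a (.l 15) (.b (.l 15) (.a (.l 15) (.a (.l 15) .z))))))) (.b (.a (.l 15) (.b (.a
(.l 15) (.b (.a (.l 15) (.a (.l 15) .z)) (.a (.a (.a (.l 15) .z) .z) .z))) (.a (.b (.a (.l 15) (.a (.a (.l 15) .z) .z)) (.a .z (.a .z (.l 19)))) (.b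
(.a (.a .z (.l 19)) (.l 19)) (.l 19))))) (.a (.b (.a (.b (.l 15) (.a (.l 15) (.a (.l 15) (.a (.l 15) .z)))) (.b (.a (.l 15) .z) (.a .z (.a .z (.l
19))))) (.a (.b (.a (.a (.l 15) (.a (.l 15) .z)) .z) (.a .z (.l 19))) (.l 19))) (.b (.a (.b (.a (.a .z (.l 19)) (.l 19)) (.l 19)) (.l 19)) (.l
19)))))) (.b (.a (.b (.a (.b (.l 15) (.a (.l 15) (.b (.l 15) (.a (.l 15) .z)))) (.b (.a (.b (.l 15) (.a (.l 15) (.a (.a (.l 15) .z) .z))) (.b (.a (.a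
(.l 15) .z) .z) (.a .z (.l 19)))) (.a (.b (.a .z (.a .z (.l 19))) (.a (.a .z (.l 19)) (.l 19))) (.l 19)))) (.a (.b (.a (.b (.a (.l 15) (.a (.l 15) (.a
(.l 15) .z))) (.a (.a (.l 15) .z) .z)) (.b (.a .z (.a .z (.l 19))) (.l 19))) (.a (.b (.a .z (.l 19)) (.l 19)) (.l 19))) (.l 19))) (.l 19)) (.l 19)))))
(.b (.b (.a (.b (.l 13) (.a (.b (.a (.b (.l 13) (.a (.b (.l 13) (.a (.b (.a .z (.l 13)) .z) (.b (.l 13) (.a .z (.l 13))))) (.l 13))) (.l 13)) (.a (.b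
(.a (.b (.a (.l 15) (.b .z (.a (.l 15) .z))) (.l 15)) (.b (.a (.b (.l 13) (.a .z (.l 13))) (.l 13)) (.a (.b .z (.a (.l 15) .z)) (.b (.l 13) (.a .z (.l
13)))))) (.a (.l 15) (.b (.a (.l 15) (.b .z (.a (.l 15) .z))) (.l 15)))) (.b (.l 13) (.a (.b (.a (.b (.l 13) (.a .z (.l 13))) (.l 13)) (.a (.b .z (.a
(.l 15) .z)) (.b (.l 13) (.a .z (.l 13))))) (.l 13))))) (.l 13))) (.l 13)) (.a (.a (.b (.b (.a (.b (.l 15) (.b (.l 15) (.a (.b (.l 15) (.a (.l 15) (.a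
(.l 15) .z))) (.b (.a (.l 15) .z) (.a .z (.a .z (.l 15))))))) (.b (.a (.b (.a (.l 15) (.b .z (.a (.l 15) .z))) (.l 15)) (.b (.a (.b (.l 13) (.a .z (.l
13))) (.l 13)) (.a (.b .z (.a (.l 15) .z)) (.b (.l 13) (.a .z (.l 13)))))) (.a (.b (.b (.l 15) (.a (.l 15) .z)) (.b (.a .z (.a .z (.l 15))) (.l 15)))
(.b (.a (.b (.a (.l 15) .z) .z) (.b .z (.a (.l 15) .z))) (.l 15))))) (.b (.a (.b (.a (.b .z (.l 15)) (.l 15)) (.l 15)) (.l 15)) (.l 15))) (.l 15)) (.b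
(.a (.b (.b (.l 13) (.a (.b (.a (.b (.l 13) (.a .z (.l 13))) (.l 13)) (.a (.b .z (.a (.l 15) .z)) (.b (.l 13) (.a .z (.l 13))))) (.l 13))) (.a (.b (.a
(.l 15) (.b (.a (.b .z (.l 15)) .z) (.l 15))) (.l 15)) (.b (.a (.b (.a (.b (.l 13) .z) (.l 13)) (.a (.b .z (.l 15)) .z)) (.b (.l 13) (.a (.b (.l 13)
.z) (.l 13)))) (.a (.l 15) (.b (.a (.b .z (.l 15)) .z) (.l 15)))))) (.b (.l 13) (.a (.b (.l 13) (.a (.b (.a (.b (.l 13) .z) (.l 13)) (.a (.b .z (.l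
15)) .z)) (.b (.l 13) (.a (.b (.l 13) .z) (.l 13))))) (.l 13)))) (.a (.l 15) (.b (.a (.b (.a (.l 15) (.b (.a (.b .z (.l 15)) .z) (.l 15))) (.l 15))
(.b (.a (.b (.a (.b (.l 13) .z) (.l 13)) (.a (.b .z (.l 15)) .z)) (.b (.l 13) (.a (.b (.l 13) .z) (.l 13)))) (.a (.l 15) (.b (.a (.b .z (.l 15)) .z)
(.l 15))))) (.l 15))))) (.a (.b (.l 13) (.a (.b (.a (.b (.l 13) (.a (.b (.a (.b (.l 13) .z) (.l 13)) (.a (.b .z (.l 15)) .z)) (.b (.l 13) (.a (.b (.l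
13) .z) (.l 13))))) (.l 13)) (.a (.b (.a (.l 15) (.b (.a (.b .z (.l 15)) .z) (.l 15))) (.l 15)) (.b (.a (.b (.a (.b (.l 13) .z) (.l 13)) (.a .z (.b
(.l 13) .z))) (.l 13)) (.a (.b (.a (.l 15) (.b .z (.l 15))) (.l 15)) (.b (.a .z (.b (.l 13) .z)) (.a (.l 15) (.b .z (.l 15)))))))) (.b (.l 13) (.a (.b
(.l 13) (.a (.b (.l 13) (.a .z (.b (.l 13) .z))) (.l 13))) (.l 13))))) (.l 13)))) (.a (.b (.l 15) (.b (.b (.b (.a (.l 15) (.b (.a (.l 15) (.b (.a (.l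
15) (.a (.l 15) (.a (.l 15) .z))) (.a (.a (.l 15) (.a (.l 15) .z)) .z))) (.a (.b (.a (.l 15) (.a (.l 15) (.a (.l 15) .z))) (.a (.a (.l 15) (.a (.l 15)
.z)) .z)) (.b (.a .z (.l 19)) (.l 19))))) (.a (.b (.a (.l 15) (.b (.a (.l 15) (.a (.l 15) .z)) (.a (.a (.l 15) .z) .z))) (.a (.b (.a (.l 15) (.a (.l
15) .z)) (.a (.a (.l 15) .z) .z)) (.b (.a .z (.l 19)) (.l 19)))) (.b (.a (.b (.a .z (.l 19)) (.l 19)) (.l 19)) (.l 19)))) (.b (.a (.b (.a (.b (.a .z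
(.l 19)) (.l 19)) (.l 19)) (.l 19)) (.l 19)) (.l 19))) (.l 19))) (.b (.a (.b (.a (.l 15) (.b (.a (.b (.a (.b (.a (.l 15) (.b .z (.l 15))) (.l 15)) (.b
(.a .z (.b (.l 13) .z)) (.a (.l 15) (.b .z (.l 15))))) (.l 15)) (.b (.a (.b (.l 13) (.a .z (.l 13))) (.l 13)) (.a (.b (.a (.b .z (.l 15)) .z) (.l 15))
(.b (.a (.b (.l 13) .z) (.l 13)) (.a (.b .z (.l 15)) .z))))) (.l 15))) (.b (.l 15) (.b (.l 15) (.a (.b (.l 15) (.a (.b (.l 15) (.a (.l 15) (.a (.l 15)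
.z))) (.b (.a (.l 15) (.a (.l 15) .z)) .z))) (.b (.a (.b (.l 15) (.a (.l 15) .z)) (.b (.a (.l 15) .z) .z)) (.a (.b .z (.l 19)) (.l 19))))))) (.b (.a
(.b (.a (.b (.l 13) (.a (.b (.l 13) (.a (.b (.l 13) .z) (.l 13))) (.l 13))) (.l 13)) (.a (.b (.a (.b (.a (.b .z (.l 15)) .z) (.l 15)) (.b (.a (.b (.l
13) .z) (.l 13)) (.a .z (.b (.l 13) .z)))) (.a (.l 15) (.b (.a (.l 15) (.b .z (.l 15))) (.l 15)))) (.b (.l 13) (.a (.b (.a .z (.b (.l 13) .z)) (.a (.l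
15) (.b .z (.l 15)))) (.b (.l 13) (.a .z (.b (.l 13) .z))))))) (.l 13)) (.a (.b (.a (.l 15) (.b (.a (.l 15) (.b (.a (.l 15) .z) (.l 15))) (.l 15)))
(.b (.b (.l 15) (.a (.b (.l 15) (.a (.l 15) .z)) (.b (.a (.l 15) .z) .z))) (.b (.a (.b .z (.l 19)) (.l 19)) (.l 19)))) (.b (.a (.b (.a (.b (.a (.b (.l
13) .z) (.l 13)) (.a (.b .z (.l 15)) .z)) (.b (.l 13) (.a (.b (.l 13) .z) (.l 13)))) (.a (.l 15) (.b (.a (.b .z (.l 15)) .z) (.a (.l 15) (.b .z (.l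
15)))))) (.b (.l 13) (.a (.b (.l 13) (.a .z (.b (.l 13) .z))) (.b (.l 13) (.a (.b (.l 13) .z) .z))))) (.a (.b (.a (.b (.l 15) (.b .z (.l 19))) (.b (.b
(.l 15) .z) .z)) (.a (.b (.l 19) .z) .z)) (.b (.a (.b (.a (.b (.l 15) .z) .z) .z) .z) (.l 41))))))) (.a (.b (.a (.b (.b (.b (.a (.b .z (.l 19)) (.l
19)) (.l 19)) (.l 19)) (.l 19)) (.b (.l 19) (.a (.l 19) (.b (.a (.l 19) (.b (.l 19) (.a (.l 19) .z))) (.a (.b (.a (.l 19) .z) .z) (.b .z (.l 41)))))))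
(.a (.b (.a (.l 19) (.b (.l 19) (.a (.l 19) (.b (.a (.l 19) .z) .z)))) (.a (.b (.a (.l 19) (.b (.l 19) (.a (.l 19) .z))) (.a (.b (.a (.l 19) .z) .z)
(.b .z (.l 19)))) (.b (.a (.b .z (.a .z (.l 19))) (.b .z (.l 19))) (.l 19)))) (.b (.a (.b (.a (.b (.l 19) (.a (.l 19) .z)) .z) (.a (.b .z (.l 41)) (.l
41))) (.b (.a (.b .z (.l 41)) (.l 41)) (.l 41))) (.a (.b (.a (.b .z (.a (.l 19) .z)) (.b (.l 41) .z)) (.a (.l 19) (.b (.a (.l 19) .z) (.l 19)))) (.b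
(.l 41) (.a (.b .z (.a (.l 19) .z)) (.b (.l 41) .z))))))) (.b (.a (.b (.a (.b (.l 19) (.a (.l 19) (.b (.l 19) .z))) (.b (.a (.b (.l 19) (.a (.l 19)
.z)) (.b (.a (.l 19) .z) .z)) (.a .z (.l 41)))) (.a (.b (.a .z (.b .z (.l 41))) (.l 41)) (.l 41))) (.b (.a (.b (.a (.b .z (.l 41)) (.l 41)) (.l 41))
(.l 41)) (.l 41))) (.l 41)))))))

theorem vQ151 : ev Q151 I4_6 I5_28 = 1852861248850846 := by decide +kernel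

noncomputable def Q220 : QT :=
(.a (.b (.a (.b (.a (.b (.a (.l 9) (.b (.l 9) (.a (.l 9) (.b (.a (.l 9) (.b (.l 9) (.a (.l 9) .z))) (.a (.b (.l 9) (.a (.l 9) .z)) .z))))) (.a (.b (.l
9) (.a (.b (.l 9) (.a (.l 9) (.b (.l 9) (.a (.l 9) .z)))) (.b (.a (.b (.l 9) (.a (.l 9) .z)) .z) .z))) (.b (.a (.b (.a (.l 9) (.b (.a (.l 9) .z) .z))
(.a (.b (.a (.l 9) .z) .z) .z)) (.b .z (.l 93))) (.a (.b .z (.l 93)) (.l 93))))) (.b (.a (.b (.a (.b (.l 9) (.a (.b (.l 9) (.a (.l 9) .z)) .z)) (.b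
(.a (.b (.a (.l 9) .z) .z) .z) .z)) (.a (.b .z (.l 93)) (.l 93))) (.l 93)) (.l 93))) (.a (.b (.a (.b (.a (.b (.a (.b (.l 9) .z) .z) (.a (.b (.a .z (.l
10)) (.l 10)) (.l 10))) (.b .z (.b (.a (.a (.l 10) .z) .z) (.l 10)))) (.l 10)) (.b (.b (.l 93) (.a (.b .z (.a (.a (.l 10) .z) .z)) .z)) (.b (.a (.l
10) (.b (.a (.a (.l 10) .z) .z) (.l 10))) (.l 10)))) (.l 10)) (.b (.b (.l 93) (.a (.b (.a (.b .z (.a (.a (.l 10) .z) .z)) .z) (.a (.l 10) (.b .z (.l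
10)))) (.b (.l 93) (.a .z (.l 93))))) (.b (.a (.l 10) (.b (.a (.b (.a (.l 10) (.a (.l 10) .z)) (.l 10)) (.b .z (.a (.l 10) .z))) (.l 10))) (.l 10)))))
(.b (.a (.a (.a (.b (.b (.b .z (.l 93)) (.l 93)) (.l 93)) (.a .z (.b (.a .z (.l 61)) (.l 61)))) (.b (.a (.l 61) (.b (.a .z (.l 95)) (.a (.a (.l 61)
.z) .z))) (.a (.b (.a (.l 61) (.b (.l 61) .z)) (.a (.b (.l 61) .z) .z)) (.b .z (.l 78))))) (.a (.b (.a (.b .z (.a .z (.l 78))) (.b (.a (.l 78) .z) (.l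
78))) (.a (.l 78) (.a (.l 78) (.b (.l 78) .z)))) (.b (.a (.b .z (.a (.l 78) .z)) (.b (.l 137) .z)) (.a (.a .z (.b .z (.l 107))) (.b .z (.a (.l 107)
.z)))))) (.b (.a (.a (.a (.a (.l 93) (.a (.l 93) .z)) (.a (.a .z (.b (.l 61) .z)) (.b (.b (.l 61) .z) .z))) (.a (.b (.a .z (.l 78)) (.l 78)) (.l 78)))
(.a (.a (.l 78) (.a .z (.b .z (.l 107)))) (.a (.l 107) (.a .z (.b .z (.l 113)))))) (.a (.b (.a (.b .z (.a (.b (.a (.l 10) .z) (.l 10)) (.b .z (.a (.a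
(.l 10) .z) .z)))) (.b (.l 78) (.a .z (.l 78)))) (.a (.l 10) (.b (.a (.b .z (.a (.l 10) (.a (.l 10) .z))) .z) (.a (.l 10) (.b (.a (.l 10) .z) (.l
10)))))) (.b (.a (.a (.a (.l 78) .z) (.a .z (.l 107))) (.a (.a (.l 107) .z) (.a .z (.l 113)))) (.a (.b (.a .z (.l 107)) (.a (.b .z (.a (.a (.l 10) .z)
.z)) .z)) (.a .z (.l 113)))))))) (.b (.a (.l 10) (.b (.a (.l 10) (.b (.a (.b (.a (.l 10) (.b .z (.a (.l 10) (.a (.l 10) .z)))) (.l 10)) (.b (.a .z (.l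
113)) (.a (.b (.a (.a (.l 10) .z) .z) (.l 10)) .z))) (.a (.l 10) (.b (.a (.l 10) (.b (.a (.l 10) (.a (.l 10) .z)) (.l 10))) (.l 10))))) (.l 10))) (.b
(.a (.b (.l 10) (.a (.l 10) (.b (.l 10) (.a (.l 10) (.b (.l 10) (.a (.l 10) (.a (.a (.l 10) .z) .z))))))) (.b (.a (.l 10) (.b (.a (.l 10) (.b (.l 10)
(.a (.l 10) (.a (.l 10) .z)))) (.a (.b (.l 10) (.a (.a (.l 10) (.a (.l 10) .z)) .z)) (.b (.a .z (.a .z (.a .z (.l 11)))) (.a (.a (.a .z (.l 11)) (.l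
11)) (.l 11)))))) (.a (.b (.a (.l 10) (.b (.a (.l 10) (.a (.l 10) .z)) (.a .z (.a .z (.a .z (.l 11)))))) (.a (.b (.a (.a (.l 10) .z) .z) (.a (.a .z
(.a .z (.l 11))) (.l 11))) (.b (.a (.a (.a .z (.l 11)) (.l 11)) (.l 11)) (.l 11)))) (.b (.a (.b (.a .z (.l 11)) (.l 11)) (.l 11)) (.l 11))))) (.a (.b
(.a (.b (.l 10) (.a (.b (.l 10) (.a (.a (.l 10) (.a (.l 10) .z)) .z)) (.b (.a (.a (.l 10) .z) .z) (.a (.a .z (.a .z (.l 11))) (.l 11))))) (.b (.a (.b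
(.a (.l 10) (.a (.l 10) (.a (.l 10) .z))) .z) (.b (.a .z (.a .z (.l 11))) (.l 11))) (.a (.b (.a (.a (.a .z (.l 11)) (.l 11)) (.l 11)) (.l 11)) (.l
11)))) (.a (.b (.a (.b (.a .z (.l 11)) (.l 11)) (.l 11)) (.l 11)) (.l 11))) (.l 11))))) (.b (.a (.a (.b (.a .z (.b (.a (.a .z (.l 135)) (.b (.l 135)
.z)) .z)) (.a (.b (.a (.b (.a (.l 113) .z) (.l 113)) .z) (.l 113)) (.b .z (.a (.b .z (.a (.l 113) .z)) .z)))) (.a (.a (.b (.b .z (.a .z (.l 139))) (.b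
(.l 139) (.a .z (.l 139)))) (.a (.a (.b .z (.l 139)) (.a .z (.l 29))) (.l 29))) (.l 29))) (.b (.a (.l 29) (.a (.b (.l 29) (.b (.l 29) (.a (.l 29) (.b
(.a (.l 29) .z) .z)))) (.b (.a (.l 29) (.b (.l 29) (.a (.b (.l 29) .z) .z))) (.a (.b (.a (.b (.l 29) .z) .z) (.a .z (.l 91))) (.b (.a .z (.l 91)) (.l
91)))))) (.a (.b (.a (.l 29) (.b (.l 29) (.a (.l 29) (.b (.a (.l 29) .z) .z)))) (.a (.b (.a (.l 29) (.b (.l 29) (.a (.l 29) (.b (.l 29) .z)))) (.a (.b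
(.l 29) (.a (.l 29) (.b (.l 29) .z))) (.b (.a (.b (.l 29) .z) .z) .z))) (.b (.a (.b (.a (.b (.l 29) .z) .z) .z) .z) .z))) (.b (.a (.b (.a (.b (.a (.l
29) .z) .z) .z) (.a .z (.l 167))) (.a (.a .z (.b (.l 91) .z)) (.b (.b (.l 91) .z) .z))) .z)))) (.b (.b (.a (.a (.b (.a (.l 113) (.a (.l 113) .z)) (.a
(.b (.a (.b .z (.a (.a (.l 10) .z) .z)) .z) (.a (.l 10) (.b .z (.a (.l 10) .z)))) (.b (.l 113) (.a .z (.l 113))))) (.a (.a .z (.a (.a .z (.a .z (.l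
29))) (.l 29))) (.b (.a (.l 29) (.b (.l 29) (.a (.l 29) (.b (.l 29) .z)))) (.a (.b (.l 29) (.a (.l 29) (.b (.l 29) .z))) (.b (.a (.b (.l 29) .z) .z)
.z))))) (.a (.b (.a (.a (.b (.a (.b (.l 29) .z) .z) .z) (.l 157)) (.a (.l 157) .z)) (.a (.l 157) (.b .z (.a .z (.b .z (.a .z (.a .z (.l 11)))))))) (.b
(.a .z (.b .z (.a .z (.b .z (.a .z (.l 11)))))) (.a (.b (.a .z (.b .z (.a .z (.a .z (.l 11))))) (.a (.b (.a .z (.a .z (.l 11))) (.l 11)) (.l 11))) (.b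
(.a (.b (.a .z (.a .z (.l 11))) (.l 11)) (.l 11)) (.l 11)))))) (.a (.b (.a (.a (.l 10) (.b (.a (.b (.a (.a (.l 10) .z) .z) (.a (.l 10) (.a (.l 10)
.z))) .z) (.a (.l 10) (.b (.a (.l 10) .z) (.l 10))))) (.b (.a (.a .z (.a .z (.l 29))) .z) (.a .z (.b .z (.a .z (.a .z (.a .z (.l 11)))))))) (.a (.b
(.l 10) (.a (.b (.l 10) (.a (.l 10) (.a (.l 10) (.a (.l 10) .z)))) (.b (.a (.l 10) .z) (.a .z (.a (.a .z (.l 11)) (.l 11)))))) (.b (.a (.b (.a (.a (.l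
10) .z) .z) (.a (.a (.a (.l 10) .z) .z) (.a .z (.l 11)))) (.b (.a (.a .z (.a .z (.l 11))) (.l 11)) (.l 11))) (.a (.b (.a (.a .z (.l 11)) (.l 11)) (.l
11)) (.l 11))))) (.b (.a (.b (.a (.b .z (.a .z (.a .z (.a .z (.l 11))))) (.b (.a (.a .z (.a .z (.l 11))) (.l 11)) (.l 11))) (.a (.b (.a (.a .z (.a .z
(.l 11))) (.l 11)) (.l 11)) (.l 11))) (.l 11)) (.l 11)))) (.b (.a (.b (.a (.b (.a (.b (.a (.a (.l 10) (.a (.l 10) .z)) .z) (.a .z (.l 11))) (.l 11))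
(.l 11)) (.l 11)) (.l 11)) (.l 11)) (.l 11)))))

theorem vQ220 : ev Q220 I4_10 I6_53 = 749703922305509 := by decide +kernel

noncomputable def Q206 : QT :=
(.b (.b (.a (.b (.b (.a (.l 41) (.b (.a (.l 41) (.b (.a (.l 41) .z) (.a (.l 41) .z))) (.a (.b (.l 41) .z) (.b .z (.a .z (.l 41)))))) (.a (.b (.a (.b
(.l 41) (.a (.l 41) .z)) (.b (.a (.l 41) .z) .z)) (.a (.b .z (.a .z (.l 41))) (.l 41))) (.b (.a (.b (.a .z (.l 41)) (.l 41)) (.l 41)) (.l 41)))) (.b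
(.a (.l 41) (.b (.l 41) (.a (.b (.l 41) (.a (.l 41) .z)) .z))) (.a (.b (.a (.l 41) (.b (.a (.l 41) .z) .z)) .z) (.b .z (.a (.b .z (.a .z (.l 47))) (.b
(.a .z (.l 47)) (.l 47))))))) (.b (.a (.b (.b (.a (.b .z (.a .z (.l 41))) (.b (.a .z (.l 41)) (.l 41))) (.l 41)) (.b (.l 41) (.a (.l 41) (.b (.l 41)
.z)))) (.b (.a (.b (.a (.l 41) (.b .z (.l 41))) (.l 41)) (.b (.a .z (.l 39)) (.a (.b .z (.l 41)) .z))) (.a (.b (.b (.l 41) (.a (.l 41) .z)) .z) .z)))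
(.a (.a (.b (.b (.b (.a (.l 41) .z) .z) .z) (.b (.b .z (.l 47)) (.l 47))) (.b (.b .z (.b .z (.a .z (.l 47)))) (.a (.l 47) (.b (.l 47) .z)))) (.a (.b
(.a (.b .z (.a (.l 47) .z)) .z) .z) .z)))) (.a (.a (.b (.b (.b (.a .z (.b .z (.l 47))) (.a (.b (.a .z (.l 47)) (.l 47)) (.l 47))) (.l 47)) (.b (.l 47)
(.a (.b (.b (.l 47) (.a .z (.l 47))) .z) (.b (.l 47) (.a (.b (.l 47) .z) (.l 47)))))) (.b (.l 47) (.a (.b (.l 47) (.a (.l 47) (.b (.l 47) (.a (.l 47)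
.z)))) (.b (.a (.b (.l 47) (.a (.l 47) .z)) (.b (.a (.l 47) .z) .z)) (.a .z (.b (.l 111) .z)))))) (.a (.b (.a (.b (.a (.l 47) (.b (.l 47) (.a (.l 47)
.z))) (.a (.b (.l 47) .z) .z)) (.b (.a (.b (.a (.l 47) .z) .z) .z) .z)) (.a .z (.b .z (.a .z (.b .z (.l 47)))))) (.b (.a (.b (.b .z (.b .z (.a .z (.l
47)))) .z) (.b .z (.a (.b .z (.l 47)) (.l 47)))) (.a (.b (.a (.b .z (.a .z (.l 47))) (.b (.a .z (.l 47)) (.l 47))) (.b (.l 47) (.b (.l 47) (.a (.l 47)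
.z)))) (.b (.l 47) (.b (.l 47) (.b (.a (.l 47) .z) .z)))))))) (.a (.b (.a (.b (.a (.b (.b (.l 49) (.b (.l 49) (.a (.l 49) .z))) (.b .z (.b .z (.l
55)))) (.b (.b (.a (.b .z (.l 49)) .z) (.b (.a (.l 49) .z) .z)) (.a (.b .z (.a (.l 55) .z)) (.b .z (.a .z (.l 51)))))) (.a (.b (.a (.l 55) (.b (.a (.l
55) .z) .z)) (.a .z (.b .z (.l 113)))) (.b (.a .z (.b (.b (.l 51) .z) .z)) .z))) (.b (.a (.b .z (.a (.b .z (.l 51)) (.b .z (.b .z (.l 51))))) (.b (.a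
.z (.b .z (.l 56))) (.a (.b (.a .z (.l 56)) .z) .z))) (.a (.b (.a (.b .z (.b .z (.l 57))) .z) (.a .z (.b (.a .z (.l 53)) .z))) (.b (.a (.b .z (.l 53))
(.b .z (.l 53))) (.b (.b (.a (.l 53) .z) .z) (.b .z (.a .z (.l 59)))))))) (.a (.b (.a (.b (.a (.b .z (.b .z (.l 58))) .z) (.a (.b (.a (.l 58) .z) .z)
(.b .z (.a .z (.l 55))))) (.b (.a .z (.b .z (.b .z (.l 55)))) (.l 55))) (.a (.b (.a (.b (.a .z (.l 55)) .z) (.b (.l 55) (.b .z (.l 61)))) (.b (.b (.l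
61) .z) (.b (.a .z (.l 61)) (.l 61)))) (.b (.b (.b (.l 55) .z) (.b (.a .z (.l 61)) (.l 61))) (.b (.b (.a (.l 61) .z) .z) (.b (.l 61) (.a (.l 61)
.z)))))) (.b (.b (.a (.b .z (.l 55)) (.b (.a (.b (.l 59) .z) (.l 59)) (.a (.b .z (.l 55)) .z))) (.b (.l 55) (.a (.l 55) (.b (.l 55) .z)))) (.b (.b (.a
(.b .z (.a .z (.l 61))) (.b .z (.a (.l 61) .z))) (.a (.b (.l 61) .z) (.b .z (.a .z (.l 61))))) (.b (.a (.b (.a .z (.l 61)) (.l 61)) (.b (.l 61) (.a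
(.l 61) .z))) (.a (.b (.a (.l 61) .z) .z) .z)))))) (.b (.a (.b (.a (.b .z (.a (.b (.a .z (.l 49)) (.b (.l 49) .z)) (.b (.l 49) (.b (.l 49) .z)))) (.b
(.b (.b (.l 47) .z) (.b (.a .z (.l 49)) (.l 49))) (.b (.l 49) (.b .z (.a .z (.l 53)))))) (.b (.b (.a (.b (.a .z (.l 53)) (.l 53)) (.l 53)) (.a (.b (.l
53) (.a (.l 53) .z)) (.b (.a (.l 53) .z) .z))) (.b (.a .z (.b .z (.a .z (.l 59)))) (.a (.b (.a .z (.l 59)) (.l 59)) (.l 59))))) (.b (.b (.b (.a (.b .z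
(.a .z (.l 49))) (.l 49)) (.a (.l 49) (.b (.l 49) (.a (.l 49) .z)))) (.b (.a (.b (.a (.l 49) .z) .z) (.b .z (.l 53))) (.a (.b (.a .z (.l 53)) (.l 53))
(.l 53)))) (.b (.b (.a (.b (.l 53) (.a (.l 53) .z)) .z) (.a .z (.b .z (.l 59)))) (.b (.a (.b (.a .z (.l 59)) (.l 59)) (.l 59)) (.l 59))))) (.b (.a (.b
(.a (.b (.l 59) (.a (.b (.l 59) .z) (.l 59))) (.l 59)) (.a (.b (.a (.b .z (.l 55)) .z) (.b .z (.a .z (.l 57)))) (.b (.a (.b (.l 59) .z) (.l 59)) (.a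
(.b .z (.l 57)) .z)))) (.l 59)) (.a (.b (.a (.b (.b (.l 57) .z) (.b (.a .z (.l 61)) (.l 61))) (.b (.a .z (.b .z (.l 61))) (.b (.l 61) .z))) (.a (.b
(.b (.a (.l 61) .z) .z) (.b .z (.l 67))) (.b .z (.a (.l 67) .z)))) (.b (.a (.b (.a .z (.b (.l 59) .z)) .z) (.b (.a (.l 59) .z) .z)) .z))))))

theorem vQ206 : ev Q206 I5_18 I6_61 = 252722221192866 := by decide +kernel

noncomputable def Q85 : QT :=
(.b (.a (.b (.b (.l 11) (.b (.a (.b (.l 11) (.b (.l 11) (.a (.l 11) (.b (.l 11) (.a (.l 11) (.a (.l 11) (.a (.a (.l 11) .z) .z))))))) (.b (.a (.l 11)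
(.b (.l 11) (.a (.l 11) (.b (.l 11) (.a (.l 11) .z))))) (.a (.b (.a (.l 11) (.b (.l 11) (.a (.l 11) (.a (.a (.l 11) .z) .z)))) (.a (.b (.a (.l 11) (.a
(.a (.l 11) .z) .z)) (.a .z (.a .z (.l 14)))) (.b (.a .z (.a .z (.l 14))) (.l 14)))) (.b (.a (.b (.a (.l 11) .z) (.a .z (.a (.a .z (.l 14)) (.l 14))))
(.b (.a .z (.a (.a .z (.l 14)) (.l 14))) (.l 14))) (.l 14))))) (.b (.a (.b (.a (.b (.l 11) (.a (.l 11) (.a (.l 11) (.a (.a (.l 11) .z) .z)))) (.b (.a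
(.a (.l 11) (.a (.a (.l 11) .z) .z)) (.a .z (.a .z (.a .z (.l 14))))) (.a (.a .z (.a .z (.l 16))) (.a (.l 16) (.a (.l 16) .z))))) (.a (.b (.a (.a (.l
11) .z) (.a .z (.a .z (.l 16)))) (.a (.a .z (.a (.a .z (.l 16)) (.l 16))) (.l 16))) (.l 16))) (.a (.a (.a (.b (.a (.b (.l 14) (.a .z (.l 14))) (.l
14)) (.a (.b .z (.l 16)) (.b (.a .z (.l 14)) .z))) (.l 14)) (.l 14)) (.l 14))) (.a (.l 16) (.a (.a (.a (.b (.a (.l 16) (.b (.a (.l 16) .z) (.l 16)))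
(.l 16)) (.b (.a (.b .z (.a (.l 16) .z)) (.b (.l 14) .z)) (.a (.l 16) (.b (.a (.l 16) .z) (.l 16))))) (.a (.b (.l 14) (.a (.b (.a .z (.l 14)) .z) (.b
(.l 14) (.a .z (.l 14))))) (.l 14))) (.l 14)))))) (.a (.l 16) (.b (.a (.b (.a (.l 16) (.b (.a (.b (.a (.l 16) (.b .z (.l 16))) (.l 16)) (.b (.a (.b
(.a .z (.l 14)) .z) (.l 14)) (.a (.b (.a (.l 16) .z) (.l 16)) (.b .z (.a (.l 16) .z))))) (.l 16))) (.l 16)) (.b (.a (.b (.a (.b (.l 14) (.a (.b (.l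
14) (.a .z (.l 14))) (.l 14))) (.l 14)) (.a (.b (.a (.b .z (.l 16)) (.b (.a .z (.l 14)) .z)) (.a (.l 16) (.b (.a (.l 16) .z) (.l 16)))) (.b (.l 14)
(.a (.b .z (.a (.l 16) .z)) (.b (.l 14) .z))))) (.l 14)) (.a (.b (.a (.l 16) (.b (.a (.l 16) (.b (.a (.l 16) .z) (.l 16))) (.l 16))) (.l 16)) (.b (.a
(.b (.a (.b (.a .z (.l 14)) .z) (.b (.l 14) (.a .z (.l 14)))) (.a (.l 16) (.b .z (.a (.l 16) .z)))) (.b (.l 14) (.a (.b (.l 14) .z) (.l 14)))) (.a (.l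
16) (.b (.a (.b (.a (.l 16) .z) (.l 16)) (.b (.a .z (.l 14)) .z)) (.l 16))))))) (.l 16)))) (.b (.b (.b (.l 11) (.a (.b (.l 11) (.a (.l 11) (.b (.l 11)
(.a (.l 11) (.b (.a (.l 11) (.a (.l 11) (.a (.l 11) .z))) .z))))) (.b (.a (.l 11) (.b (.a (.l 11) (.b (.l 11) (.a (.l 11) (.a (.l 11) (.a (.l 11)
.z))))) (.a (.b (.l 11) (.a (.a (.l 11) (.a (.l 11) .z)) .z)) (.b (.a (.a (.a (.l 11) .z) .z) .z) (.a (.a .z (.l 14)) (.l 14)))))) (.a (.b (.a (.b (.l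
11) (.a (.l 11) (.a (.l 11) .z))) (.b (.a (.l 11) .z) (.a .z (.a (.a .z (.l 14)) (.l 14))))) (.a (.b (.a .z (.a .z (.a .z (.l 14)))) (.l 14)) (.l
14))) (.b (.a (.b (.a .z (.l 14)) (.l 14)) (.l 14)) (.l 14)))))) (.b (.a (.b (.a (.b (.a (.l 11) (.b (.l 11) (.a (.a (.l 11) .z) .z))) (.a (.b (.a (.a
(.l 11) (.a (.l 11) .z)) .z) (.a .z (.l 14))) (.b (.a (.a .z (.a .z (.l 14))) (.l 14)) (.l 14)))) (.b (.a (.b (.a (.a (.a (.l 11) .z) .z) .z) (.a (.a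
.z (.l 14)) (.l 14))) (.b (.a (.a (.a .z (.l 14)) (.l 14)) (.l 14)) (.l 14))) (.l 14))) (.l 14)) (.l 14)) (.l 14))) (.a (.b (.a (.b (.l 14) (.a (.b
(.l 14) (.a (.b (.a (.b (.l 14) (.a .z (.l 14))) (.l 14)) (.a (.b .z (.a (.l 16) .z)) (.b (.l 14) (.a .z (.l 14))))) (.l 14))) (.l 14))) (.l 14)) (.a
(.b (.a (.b (.a (.b (.a (.l 16) (.b .z (.l 16))) (.l 16)) (.b (.a (.b (.a .z (.l 14)) .z) (.l 14)) (.a (.b (.a (.l 16) .z) (.l 16)) (.b .z (.a (.l 16)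
.z))))) (.l 16)) (.b (.a (.b (.l 14) (.a (.b (.l 14) (.a .z (.l 14))) (.l 14))) (.l 14)) (.a (.b (.a (.b .z (.l 16)) (.b (.a .z (.l 14)) .z)) (.a (.l
16) (.b (.a (.l 16) .z) (.l 16)))) (.b (.l 14) (.a (.b (.a .z (.l 14)) .z) (.b (.l 14) (.a .z (.l 14)))))))) (.a (.l 16) (.b (.a (.l 16) (.b (.a (.l
16) (.b .z (.a (.l 16) .z))) (.l 16))) (.l 16)))) (.b (.l 14) (.a (.b (.a (.b (.a (.b (.l 14) .z) (.l 14)) (.a (.b (.a (.l 16) .z) (.l 16)) (.b (.a .z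
(.l 14)) .z))) (.l 14)) (.a (.b (.a (.l 16) (.b (.a (.l 16) .z) (.l 16))) (.l 16)) (.b (.a (.b .z (.a (.l 16) .z)) (.b (.l 14) (.a .z (.l 14)))) (.a
(.l 16) (.b .z (.a (.l 16) .z)))))) (.b (.l 14) (.a (.b (.l 14) (.a (.b (.l 14) .z) (.l 14))) (.l 14))))))) (.a (.b (.l 14) (.b (.a (.l 14) (.b (.a
(.l 14) (.a (.l 14) (.b (.l 14) (.a (.b (.l 14) .z) .z)))) (.a (.b (.l 14) (.a (.l 14) (.a (.b (.l 14) .z) .z))) (.a (.b (.a (.b (.l 14) .z) .z) (.a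
(.b .z (.l 15)) (.l 15))) (.b (.a (.b .z (.l 15)) (.l 15)) (.l 15)))))) (.a (.b (.a (.l 14) (.b (.l 14) (.a (.l 14) (.a (.b (.l 14) .z) .z)))) (.a (.b
(.l 14) (.a (.l 14) (.b (.a (.l 14) .z) .z))) (.a (.b (.b (.a (.l 14) .z) .z) (.a (.b .z (.l 15)) (.l 15))) (.b (.a (.b .z (.l 15)) (.l 15)) (.l
15))))) (.a (.b (.a (.b (.a (.b (.l 14) .z) .z) (.a (.b .z (.l 15)) (.l 15))) (.b (.a (.b .z (.l 15)) (.l 15)) (.l 15))) (.l 15)) (.l 15))))) (.b (.a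
(.b (.l 14) (.a (.b (.l 14) (.a (.l 14) (.b (.l 14) (.a (.b (.l 14) .z) .z)))) (.b (.a (.l 14) (.b (.l 14) (.a (.b (.l 14) .z) .z))) (.a (.b (.a (.b
(.l 14) .z) .z) (.a (.b .z (.l 15)) (.l 15))) (.b (.a (.b .z (.l 15)) (.l 15)) (.l 15)))))) (.b (.a (.b (.l 14) (.a (.l 14) (.b (.l 14) (.a (.b (.l
14) .z) .z)))) (.b (.a (.l 14) (.b (.l 14) (.a (.b (.l 14) .z) .z))) (.a (.b (.a (.b (.l 14) .z) .z) (.a (.b .z (.l 15)) (.l 15))) (.b (.a (.b .z (.l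
15)) (.l 15)) (.l 15))))) (.a (.b (.a (.b (.a (.b (.l 14) .z) .z) (.a (.b .z (.l 15)) (.l 15))) (.b (.a (.b .z (.l 15)) (.l 15)) (.l 15))) (.l 15))
(.l 15)))) (.a (.b (.a (.b (.a (.b (.a (.b (.l 14) .z) .z) (.a (.b .z (.l 15)) (.l 15))) (.b (.a (.b .z (.l 15)) (.l 15)) (.l 15))) (.l 15)) (.l 15))
(.l 15)) (.l 15))))))) (.a (.b (.b (.l 16) (.a (.b (.l 16) (.a (.b (.a (.b (.a (.b (.a .z (.a .z (.l 16))) (.a (.l 15) .z)) (.b (.l 16) (.a (.a .z (.l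
16)) (.l 16)))) (.a (.l 15) (.b (.a .z (.a .z (.l 16))) (.a (.l 15) .z)))) (.b (.l 16) (.a (.b (.l 16) (.a (.a .z (.l 16)) (.l 16))) (.l 16)))) (.a
(.l 15) (.b (.a (.b .z (.a (.l 15) (.a (.l 15) .z))) (.b (.l 16) (.a .z (.l 16)))) (.a (.l 15) (.b (.a (.a (.l 15) .z) .z) (.a (.l 15) (.a (.l 15)
.z))))))) (.b (.l 16) (.a (.b (.l 16) (.a (.b (.l 16) (.a .z (.l 16))) (.l 16))) (.l 16))))) (.l 16))) (.a (.b (.b (.a (.l 15) (.b (.a (.b (.a (.b (.a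
(.a (.l 15) .z) .z) (.a (.l 15) (.a (.l 15) .z))) (.b (.l 16) (.a .z (.l 16)))) (.a (.l 15) (.b (.a (.a (.l 15) .z) .z) (.a (.l 15) (.a (.l 15)
.z))))) (.b (.l 16) (.a (.b (.l 16) (.a .z (.l 16))) (.l 16)))) (.a (.l 15) (.b (.a (.b (.a (.a (.l 15) .z) .z) (.a (.l 15) (.a (.l 15) .z))) (.b (.l
16) (.a .z (.a .z (.l 16))))) (.a (.l 15) (.b (.a (.l 15) .z) (.l 15))))))) (.l 15)) (.b (.b (.b (.l 15) (.a (.b (.l 15) (.a (.l 15) (.a (.l 15) .z)))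
(.b (.a (.a (.l 15) (.a (.l 15) .z)) .z) (.a .z (.l 20))))) (.b (.a (.b (.a (.a (.a (.a (.l 15) .z) .z) .z) (.a .z (.a .z (.l 20)))) (.a (.a (.a .z
(.l 20)) (.l 20)) (.l 20))) (.l 20)) (.l 20))) (.l 20))) (.b (.a (.b (.a (.b (.l 16) (.a (.b (.l 16) (.a (.b (.a .z (.l 16)) .z) (.b (.l 16) (.a .z
(.l 16))))) (.l 16))) (.l 16)) (.a (.b (.a (.b (.a (.l 15) (.b .z (.a (.l 15) .z))) (.l 15)) (.b (.a (.b (.l 16) .z) (.l 16)) (.a (.b (.a (.l 15) .z)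
(.l 15)) (.b .z (.a (.l 15) .z))))) (.l 15)) (.b (.a (.b (.l 16) (.a (.b (.l 16) .z) (.l 16))) (.l 16)) (.a (.b (.a (.b (.a (.l 15) .z) (.l 15)) (.b
.z (.a (.l 15) .z))) (.l 15)) (.b (.a (.b (.l 16) .z) (.l 16)) (.a (.b (.a (.l 15) .z) (.l 15)) (.b .z (.a (.l 15) .z)))))))) (.b (.a (.l 16) (.b (.a
(.l 16) (.b (.l 16) (.a (.l 16) (.b (.a (.l 16) .z) .z)))) (.a (.b (.l 16) (.a (.l 16) (.b (.a (.l 16) .z) .z))) (.b (.a (.b (.a (.l 16) .z) .z) (.b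
.z (.l 17))) (.a (.b .z (.l 17)) (.l 17)))))) (.a (.b (.a (.l 16) (.b (.l 16) (.a (.l 16) (.b (.a (.l 16) .z) .z)))) (.a (.b (.l 16) (.a (.b (.l 16)
.z) (.b (.a (.l 16) .z) .z))) (.b (.a (.b (.a (.l 16) .z) .z) (.b .z (.l 17))) (.a (.b .z (.l 17)) (.l 17))))) (.b (.a (.b (.a (.b (.a (.l 16) .z) .z)
(.b .z (.l 17))) (.a (.b .z (.l 17)) (.l 17))) (.l 17)) (.l 17))))) (.a (.b (.a (.b (.b (.b (.l 15) .z) (.b (.a (.a .z (.l 20)) (.l 20)) (.l 20))) (.l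
20)) (.b (.a (.b (.b (.a (.l 15) .z) .z) (.l 20)) (.b (.a (.b .z (.l 20)) .z) (.a (.b (.l 20) .z) .z))) (.a (.b (.a (.l 20) (.b (.l 20) .z)) (.a (.b
(.l 20) .z) .z)) (.b (.a .z (.l 17)) (.l 17))))) (.a (.b (.a (.l 20) (.b (.a (.l 20) (.b (.l 20) .z)) (.a (.b (.l 20) .z) .z))) (.a (.b (.a (.l 20)
(.b (.l 20) .z)) (.a (.b (.l 20) .z) .z)) (.b (.a .z (.l 17)) (.l 17)))) (.b (.a (.b (.a .z (.l 17)) (.l 17)) (.l 17)) (.l 17)))) (.a (.b (.b (.a (.b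
(.a .z (.l 17)) (.l 17)) (.l 17)) (.l 17)) (.l 17)) (.l 17)))))) (.a (.b (.b (.a (.l 16) (.b (.a (.l 16) (.b (.a (.b (.a (.b (.a (.l 16) .z) (.l 16))
(.b (.a .z (.l 14)) .z)) (.a (.l 16) (.b (.a (.l 16) .z) (.l 16)))) (.b (.l 14) (.a (.b (.a .z (.l 14)) .z) (.b (.a (.l 14) .z) .z)))) (.a (.b (.l 16)
(.a (.l 16) (.b (.a (.l 16) .z) .z))) (.b (.a (.b (.a (.l 16) .z) .z) (.b .z (.l 17))) (.a (.b .z (.l 17)) (.l 17)))))) (.a (.b (.a (.l 16) (.b (.l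
16) (.a (.l 16) (.b (.a (.l 16) .z) .z)))) (.a (.b (.l 16) (.a (.l 16) (.b (.a (.l 16) .z) .z))) (.b (.a (.b (.a (.l 16) .z) .z) (.b .z (.l 17))) (.a
(.b .z (.l 17)) (.l 17))))) (.a (.b (.b (.a (.b (.a (.l 16) .z) .z) (.b .z (.l 17))) (.a (.b .z (.l 17)) (.l 17))) (.l 17)) (.l 17))))) (.a (.b (.a
(.l 16) (.b (.a (.l 16) (.b (.l 16) (.a (.l 16) (.b (.a (.l 16) .z) .z)))) (.a (.b (.l 16) (.a (.l 16) (.b (.a (.l 16) .z) .z))) (.b (.a (.b (.a (.l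
16) .z) .z) (.b .z (.l 17))) (.a (.b .z (.l 17)) (.l 17)))))) (.a (.b (.a (.l 16) (.b (.l 16) (.a (.l 16) (.b (.a (.l 16) .z) .z)))) (.a (.b (.l 16)
(.a (.l 16) (.b (.a (.l 16) .z) .z))) (.b (.a (.b (.a (.l 16) .z) .z) (.b .z (.l 17))) (.a (.b .z (.l 17)) (.l 17))))) (.b (.a (.b (.a (.b (.a (.l 16)
.z) .z) (.b .z (.l 17))) (.a (.b .z (.l 17)) (.l 17))) (.l 17)) (.l 17)))) (.a (.b (.a (.b (.b (.a (.b (.a (.l 16) .z) .z) (.b .z (.l 17))) (.a (.b .z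
(.l 17)) (.l 17))) (.l 17)) (.l 17)) (.l 17)) (.l 17)))) (.a (.b (.a (.b (.b (.a (.b (.a (.b (.a (.l 16) .z) .z) (.b .z (.l 17))) (.a (.b .z (.l 17))
(.l 17))) (.l 17)) (.l 17)) (.l 17)) (.l 17)) (.l 17)) (.l 17))) (.b (.a (.b (.a (.b (.a (.b (.a (.b (.b (.a (.l 14) .z) .z) (.a (.b .z (.l 15)) (.l
15))) (.b (.a (.b .z (.l 15)) (.l 15)) (.l 15))) (.b (.b .z (.a (.l 17) .z)) (.l 17))) (.b (.l 15) (.b (.b (.l 15) .z) (.l 17)))) (.l 17)) (.b (.b (.l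
15) (.b (.b (.l 15) (.a (.a .z (.l 15)) (.l 15))) (.b (.a .z (.a .z (.a .z (.l 15)))) (.a (.l 17) (.a (.l 17) .z))))) (.l 17))) (.l 17)) (.b (.b (.b
(.l 15) (.b (.l 15) (.a (.b (.l 15) (.a .z (.a (.a .z (.l 15)) (.l 15)))) (.l 15)))) (.b (.b (.a (.b (.a (.l 17) .z) (.l 17)) (.b (.a (.a .z (.l 15))
(.l 15)) .z)) (.a (.l 17) (.b (.a (.l 17) (.a (.l 17) .z)) (.l 17)))) (.l 17))) (.l 17))) (.l 17)))))

theorem vQ85 : ev Q85 I4_3 I5_28 = 1875630456430606 := by decide +kernel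

noncomputable def Q134 : QT :=
(.b (.a (.b (.a (.b (.a (.b (.a (.b (.a (.b (.l 17) (.a (.l 17) .z)) (.b (.a (.l 17) .z) .z)) (.a .z (.l 97))) (.b (.a .z (.l 97)) (.l 97))) (.b (.b
(.l 97) (.b (.l 97) .z)) (.b .z (.l 99)))) (.b (.l 97) (.b (.l 97) .z))) (.b (.b (.l 99) (.a (.l 99) (.b (.l 99) .z))) (.b (.b (.a .z (.a .z (.l
119))) (.a .z (.b .z (.a (.b .z (.a .z (.l 15))) (.b (.a .z (.l 15)) (.l 15)))))) (.b (.a (.b (.a .z (.b .z (.a .z (.l 15)))) (.a (.b (.a .z (.l 15))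
(.l 15)) (.l 15))) (.l 15)) (.b (.l 15) (.b (.a (.l 15) (.a (.a (.l 15) .z) .z)) (.a (.a (.a (.l 15) .z) .z) (.a .z (.l 15))))))))) (.b (.b (.l 97)
(.b (.l 97) (.b (.a (.b (.l 97) .z) (.a (.l 97) .z)) .z))) (.b (.b (.a (.b .z (.a (.l 99) .z)) .z) (.b (.a .z (.l 119)) (.a (.a .z (.l 119)) (.b (.l
119) .z)))) (.b (.b (.a (.b .z (.a .z (.b .z (.a .z (.l 15))))) (.b (.a (.b .z (.a .z (.l 15))) (.b (.a .z (.l 15)) (.l 15))) (.l 15))) (.a (.b (.a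
(.b (.a .z (.l 15)) (.l 15)) (.l 15)) (.l 15)) (.l 15))) (.b (.l 15) (.b (.b (.a (.l 15) (.a (.l 15) .z)) (.a (.a (.l 15) .z) (.a .z (.a .z (.l
15))))) (.b (.a (.a .z (.a .z (.l 15))) (.l 15)) (.l 15)))))))) (.b (.b (.b (.b (.b (.a (.b (.a (.a .z (.l 15)) (.l 15)) (.l 15)) (.l 15)) (.l 15))
(.l 15)) (.l 15)) (.l 15)) (.b (.l 15) (.b (.l 15) (.b (.b (.a (.l 15) (.b (.l 15) (.a (.l 15) (.a (.l 15) .z)))) (.a (.b (.l 15) (.a (.l 15) .z)) (.b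
(.a (.a (.a (.l 15) .z) .z) .z) (.a (.a .z (.l 19)) (.l 19))))) (.b (.a (.b (.a .z (.a .z (.l 19))) (.l 19)) (.l 19)) (.l 19))))))) (.b (.b (.a (.b
(.b (.a (.l 97) .z) (.a (.l 97) (.b .z (.a (.l 97) .z)))) (.b (.a (.b (.l 97) .z) .z) .z)) (.b (.a (.b (.b .z (.l 177)) .z) .z) (.b .z (.b .z (.a .z
(.l 152)))))) (.b (.b (.a (.b .z (.l 119)) (.b (.a .z (.b .z (.a .z (.b .z (.a .z (.l 15)))))) (.a (.b .z (.a .z (.b .z (.l 15)))) (.b (.a (.b .z (.a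
.z (.l 15))) (.l 15)) (.l 15))))) (.a (.b (.a (.b (.l 119) .z) (.b .z (.a (.b .z (.a .z (.l 15))) (.l 15)))) (.a (.b (.a .z (.b .z (.l 15))) (.a (.b
(.a .z (.l 15)) (.l 15)) (.l 15))) (.l 15))) (.b (.a (.b (.a (.b (.a .z (.l 15)) (.l 15)) (.l 15)) (.l 15)) (.l 15)) (.l 15)))) (.b (.l 15) (.b (.b
(.a (.l 15) (.b (.l 15) (.a (.a (.l 15) (.a (.l 15) .z)) .z))) (.a (.b (.a (.l 15) (.a (.l 15) (.a (.l 15) .z))) (.a (.a (.l 15) (.a (.l 15) .z)) .z))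
(.b (.a .z (.l 15)) (.l 15)))) (.b (.a (.b (.a .z (.l 15)) (.l 15)) (.l 15)) (.l 15)))))) (.b (.l 15) (.b (.l 15) (.b (.b (.l 15) (.b (.l 15) (.a (.l
15) (.b (.a (.l 15) (.a (.a (.l 15) .z) .z)) (.a .z (.a .z (.l 19))))))) (.b (.b (.a (.b (.a (.a (.l 15) (.a (.l 15) .z)) .z) (.a .z (.l 19))) (.b (.a
(.a .z (.l 19)) (.l 19)) (.l 19))) (.l 19)) (.l 19))))))) (.b (.b (.b (.b (.l 19) (.a (.b (.a (.b (.a (.b (.l 19) (.a .z (.l 19))) (.l 19)) (.a (.b .z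
(.l 65)) (.b (.a .z (.l 19)) .z))) (.l 19)) (.a (.b (.a (.a (.l 65) .z) .z) (.a (.a (.l 65) .z) (.l 65))) (.b (.a (.b (.a .z (.l 19)) .z) (.l 19)) (.a
(.b .z (.l 65)) (.b (.a .z (.l 19)) .z))))) (.l 19))) (.b (.a (.b (.a (.a (.a (.l 65) .z) (.l 65)) (.b (.a (.l 65) .z) (.a .z (.a (.b .z (.l 21)) (.l
21))))) (.a (.a .z (.b (.a (.l 65) .z) (.a .z (.b .z (.l 21))))) (.a (.b (.a .z (.l 21)) (.l 21)) (.l 21)))) (.b (.a (.b (.a (.b .z (.a (.l 21) .z))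
(.b (.l 19) (.a .z (.l 19)))) (.a (.l 21) (.b .z (.a (.l 21) .z)))) (.b (.l 19) (.a (.b (.l 19) (.a .z (.l 19))) (.l 19)))) (.a (.l 21) (.b (.a (.b .z
(.a (.l 21) .z)) (.b (.l 19) (.a .z (.l 19)))) (.a (.l 21) (.b .z (.a (.l 21) .z))))))) (.a (.a (.b (.a (.b (.a .z (.b .z (.l 21))) (.l 21)) (.l 21))
(.l 21)) (.l 21)) (.l 21)))) (.b (.b (.b (.a (.b (.l 21) (.a (.l 21) (.b (.l 21) (.a (.a (.l 21) .z) .z)))) (.b (.a (.b (.l 21) (.a (.l 21) (.a (.l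
21) .z))) (.b (.a (.l 21) .z) (.a .z (.a .z (.l 21))))) (.a (.b .z (.a (.a .z (.l 21)) (.l 21))) (.l 21)))) (.a (.b (.a (.b (.a (.l 21) .z) (.a .z (.a
.z (.l 21)))) (.b (.a .z (.l 21)) (.l 21))) (.l 21)) (.l 21))) (.l 21)) (.b (.l 21) (.b (.l 21) (.a (.l 21) (.b (.l 21) (.a (.l 21) (.b (.l 21) (.a
(.a (.l 21) .z) .z))))))))) (.b (.b (.b (.b (.a (.b (.a (.l 21) (.b (.l 21) (.a (.l 21) (.a (.l 21) .z)))) (.a (.b (.a (.l 21) (.a (.l 21) .z)) .z)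
(.b .z (.l 25)))) (.b (.a (.b (.a (.l 21) .z) (.a .z (.a .z (.l 25)))) (.b (.a .z (.l 25)) (.l 25))) (.l 25))) (.a (.b (.a (.b (.a (.a .z (.l 25)) (.l
25)) (.l 25)) (.l 25)) (.l 25)) (.l 25))) (.l 25)) (.b (.a (.b (.a (.b (.l 25) (.a (.b (.l 25) .z) (.l 25))) (.l 25)) (.a (.b (.a (.b (.a (.l 27) .z)
(.l 27)) (.b (.a .z (.l 25)) .z)) (.l 27)) (.b (.a (.b (.l 25) (.a .z (.l 25))) (.l 25)) (.a (.b .z (.a (.l 27) .z)) (.b (.l 25) .z))))) (.l 25)) (.a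
(.b (.a (.b (.l 27) (.b (.a (.l 27) .z) (.a .z (.a .z (.l 27))))) (.b (.a (.l 27) (.b (.a (.l 27) .z) .z)) (.b (.a .z (.a .z (.l 27))) (.l 27)))) (.l
27)) (.b (.a (.b (.a (.b (.a .z (.l 25)) .z) (.l 25)) (.a (.b (.a (.l 27) .z) (.l 27)) (.b .z (.a (.l 27) .z)))) (.b (.l 25) (.a (.b (.l 25) (.a .z
(.l 25))) (.l 25)))) (.a (.l 27) (.b (.a (.b .z (.a (.l 27) .z)) (.b (.l 25) .z)) (.a (.l 27) (.b (.a (.l 27) .z) (.l 27))))))))) (.b (.b (.l 27) (.b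
(.a (.l 27) (.b (.l 27) (.a (.b (.l 27) (.a (.a (.l 27) .z) .z)) (.b (.a (.a (.l 27) .z) .z) (.a .z (.l 31)))))) (.a (.b (.a (.b (.l 27) (.a (.l 27)
.z)) (.b (.a (.l 27) .z) (.a .z (.a .z (.l 31))))) (.a (.b (.a .z (.a .z (.l 31))) (.l 31)) (.l 31))) (.b (.a (.b (.a .z (.l 31)) (.l 31)) (.l 31))
(.l 31))))) (.b (.l 31) (.a (.b (.l 31) (.a (.b (.a (.b (.l 31) (.a .z (.l 31))) (.l 31)) (.a (.b .z (.l 33)) (.b (.a .z (.l 31)) .z))) (.b (.l 31)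
(.a (.b (.l 31) (.a .z (.l 31))) (.l 31))))) (.l 31)))))))

theorem vQ134 : ev Q134 I6_23 I4_14 = 828858732852547 := by decide +kernel

noncomputable def Q183 : QT :=
(.a (.b (.l 11) (.b (.a (.b (.l 11) (.a (.l 11) (.b (.l 11) (.a (.l 11) (.b (.l 11) (.a (.l 11) (.b (.l 11) (.a (.b (.l 11) (.a (.l 11) (.b (.l 11)
.z))) (.b (.a (.b (.l 11) .z) .z) (.a (.b .z (.a .z (.l 7))) (.l 7))))))))))) (.b (.a (.l 11) (.b (.l 11) (.a (.l 11) (.b (.a (.l 11) (.b (.l 11) (.a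
(.l 11) (.b (.l 11) (.a (.b (.l 11) .z) .z))))) (.a (.b (.a (.l 11) (.b (.l 11) (.a (.l 11) (.b (.l 11) .z)))) (.a (.b (.l 11) (.a (.b (.l 11) .z) (.b
.z (.a .z (.l 7))))) (.b (.a .z (.b .z (.l 7))) (.a (.b (.a .z (.l 7)) (.l 7)) (.l 7))))) (.b (.a (.b (.a (.l 11) (.b (.l 11) .z)) (.a .z (.b (.a .z
(.l 7)) (.l 7)))) (.b (.a (.b .z (.a .z (.l 7))) (.l 7)) (.l 7))) (.l 7))))))) (.a (.b (.a (.l 11) (.b (.l 11) (.a (.b (.l 11) (.a (.l 11) (.b (.l 11)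
(.a (.l 11) .z)))) (.b (.a (.l 11) (.b (.l 11) (.a (.b (.l 11) .z) (.b .z (.a .z (.l 7)))))) (.a (.b (.a (.b (.l 11) .z) .z) (.a (.b .z (.l 7)) (.l
7))) (.b (.a (.b (.a .z (.l 7)) (.l 7)) (.l 7)) (.l 7))))))) (.a (.b (.a (.l 11) (.b (.a (.l 11) (.b (.l 11) (.a (.l 11) (.b (.l 11) .z)))) (.a (.b
(.a (.l 11) (.b (.l 11) .z)) (.a (.b (.l 11) .z) (.b .z (.a .z (.l 7))))) (.b (.a .z (.b .z (.l 7))) (.l 7))))) (.a (.b (.a (.b (.l 11) (.a (.b (.l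
11) .z) .z)) (.b (.a (.b (.l 11) .z) (.b .z (.a .z (.l 7)))) (.a (.b (.a .z (.l 7)) (.l 7)) (.l 7)))) (.a (.b (.a (.b .z (.l 7)) (.l 7)) (.l 7)) (.l
7))) (.b (.a (.b (.a (.b (.a .z (.l 7)) (.l 7)) (.l 7)) (.l 7)) (.l 7)) (.l 7)))) (.b (.a (.b (.a (.b (.a (.l 11) (.b (.l 11) .z)) (.a .z (.b (.a .z
(.l 7)) (.l 7)))) (.b (.a (.b .z (.a .z (.l 7))) (.b (.a .z (.l 7)) (.l 7))) (.l 7))) (.l 7)) (.l 7)) (.l 7)))) (.b (.a (.b (.a (.b (.l 11) (.a (.b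
(.l 11) (.a (.l 11) (.b (.l 11) .z))) (.b (.a (.l 11) (.b (.l 11) .z)) (.a .z (.b (.a .z (.l 7)) (.l 7)))))) (.b (.a (.b (.l 11) (.a (.l 11) .z)) (.b
(.a (.b (.l 11) .z) .z) (.a (.b .z (.l 7)) (.l 7)))) (.a (.b (.a (.b .z (.a .z (.l 7))) (.b (.a .z (.l 7)) (.l 7))) (.l 7)) (.l 7)))) (.a (.b (.a (.b
(.a .z (.b .z (.l 7))) (.a (.b (.a .z (.l 7)) (.l 7)) (.l 7))) (.l 7)) (.l 7)) (.l 7))) (.b (.a (.b (.a (.b (.a (.b (.a .z (.l 7)) (.l 7)) (.l 7)) (.l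
7)) (.l 7)) (.l 7)) (.l 7)) (.l 7))) (.l 7))))) (.a (.b (.a (.b (.a (.l 11) (.b (.l 11) (.a (.l 11) (.b (.l 11) (.a (.l 11) (.b (.l 11) (.a (.b (.l
11) .z) .z))))))) (.a (.b (.a (.l 11) (.b (.l 11) (.a (.l 11) (.b (.l 11) (.a (.l 11) (.b (.l 11) .z)))))) (.a (.b (.a (.l 11) (.b (.l 11) (.a (.l 11)
(.b (.l 11) .z)))) (.a (.b (.a (.l 11) (.b (.l 11) .z)) (.a .z (.b .z (.l 7)))) (.b (.a .z (.b .z (.l 7))) (.l 7)))) (.b (.a (.b (.a (.l 11) (.b (.l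
11) .z)) (.a .z (.b (.a .z (.l 7)) (.l 7)))) (.b (.a (.b .z (.a .z (.l 7))) (.b (.a .z (.l 7)) (.l 7))) (.l 7))) (.l 7)))) (.b (.a (.b (.a (.l 11) (.b
(.l 11) (.a (.l 11) (.b (.l 11) .z)))) (.a (.b (.a (.l 11) (.b (.l 11) .z)) (.a (.b .z (.a .z (.l 7))) (.b (.a .z (.l 7)) (.l 7)))) (.b (.a (.b .z (.a
.z (.l 7))) (.b (.a .z (.l 7)) (.l 7))) (.l 7)))) (.b (.a (.b (.a (.b (.l 11) .z) .z) (.a (.b .z (.a .z (.l 7))) (.l 7))) (.b (.a (.b .z (.l 7)) (.l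
7)) (.l 7))) (.l 7))) (.l 7)))) (.b (.a (.b (.a (.l 11) (.b (.l 11) (.a (.l 11) (.b (.a (.l 11) (.b (.l 11) .z)) (.a .z (.b .z (.l 7))))))) (.a (.b
(.a (.l 11) (.b (.l 11) (.a (.b (.l 11) .z) (.b .z (.a .z (.l 7)))))) (.a (.b (.a (.b (.l 11) .z) .z) (.a (.b .z (.l 7)) (.l 7))) (.b (.a (.b (.a .z
(.l 7)) (.l 7)) (.l 7)) (.l 7)))) (.b (.a (.b (.a (.b (.l 11) .z) (.b .z (.a .z (.l 7)))) (.a (.b (.a .z (.l 7)) (.l 7)) (.l 7))) (.b (.a (.b (.a .z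
(.l 7)) (.l 7)) (.l 7)) (.l 7))) (.l 7)))) (.b (.a (.b (.a (.b (.l 11) (.a (.l 11) (.b (.l 11) .z))) (.b (.a (.l 11) (.b (.l 11) .z)) (.a .z (.b (.a
.z (.l 7)) (.l 7))))) (.a (.b (.a .z (.b .z (.l 7))) (.l 7)) (.l 7))) (.b (.a (.b (.a (.b .z (.a .z (.l 7))) (.b (.a .z (.l 7)) (.l 7))) (.l 7)) (.l
7)) (.l 7))) (.l 7))) (.l 7))) (.l 7)) (.l 7)))) (.b (.a (.b (.l 11) (.b (.l 11) (.a (.l 11) (.b (.a (.l 11) (.b (.l 11) (.a (.l 11) (.b (.l 11) (.a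
(.b (.l 11) (.a (.l 11) (.b (.l 11) .z))) (.b (.a (.l 11) .z) (.a (.b .z (.a .z (.l 7))) (.b (.a .z (.l 7)) (.l 7))))))))) (.a (.b (.a (.l 11) (.b (.l
11) (.a (.l 11) (.b (.l 11) (.a (.l 11) (.b (.l 11) .z)))))) (.a (.b (.l 11) (.a (.b (.l 11) (.a (.l 11) (.b (.l 11) .z))) (.b (.a (.l 11) (.b (.l 11)
.z)) (.a (.b .z (.a .z (.l 7))) (.b (.a .z (.l 7)) (.l 7)))))) (.b (.a (.b (.l 11) (.a (.b (.l 11) .z) .z)) (.b (.a (.b (.l 11) .z) (.b .z (.a .z (.l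
7)))) (.a (.b (.a .z (.l 7)) (.l 7)) (.l 7)))) (.a (.b (.a (.b .z (.a .z (.l 7))) (.l 7)) (.l 7)) (.l 7))))) (.b (.a (.b (.a (.l 11) (.b (.l 11) (.a
(.b (.l 11) .z) (.b .z (.a .z (.l 7)))))) (.a (.b (.a (.l 11) (.b (.l 11) .z)) (.a .z (.b (.a .z (.l 7)) (.l 7)))) (.b (.a (.b .z (.a .z (.l 7))) (.l
7)) (.l 7)))) (.b (.a (.b (.a .z (.b .z (.l 7))) (.a (.b (.a .z (.l 7)) (.l 7)) (.l 7))) (.l 7)) (.l 7))) (.l 7))))))) (.b (.b (.l 11) (.a (.l 11) (.b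
(.l 11) (.a (.l 11) (.b (.l 11) (.a (.l 11) (.b (.l 11) (.a (.l 11) (.b (.l 11) (.a (.l 11) .z)))))))))) (.a (.b (.b (.l 11) (.a (.l 11) (.b (.a (.l
11) (.b (.l 11) (.a (.l 11) (.b (.l 11) (.a (.b (.l 11) .z) .z))))) (.a (.b (.l 11) (.a (.b (.l 11) (.a (.l 11) .z)) (.b (.a (.b (.l 11) .z) (.b .z
(.a .z (.l 7)))) (.a (.b .z (.l 7)) (.l 7))))) (.b (.a (.b (.a (.l 11) (.b (.l 11) .z)) (.a .z (.b .z (.l 7)))) (.b (.a (.b .z (.a .z (.l 7))) (.l 7))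
(.l 7))) (.a (.b (.a (.b (.a .z (.l 7)) (.l 7)) (.l 7)) (.l 7)) (.l 7))))))) (.b (.a (.b (.a (.b (.l 11) (.a (.l 11) (.b (.l 11) (.a (.l 11) (.b (.l
11) .z))))) (.b (.a (.l 11) (.b (.a (.l 11) (.b (.l 11) .z)) (.a (.b (.l 11) .z) (.b .z (.a .z (.l 7)))))) (.a (.b (.a (.b (.l 11) .z) .z) (.a (.b .z
(.a .z (.l 7))) (.l 7))) (.b (.a (.b (.a .z (.l 7)) (.l 7)) (.l 7)) (.l 7))))) (.a (.b (.a (.b (.l 11) (.a (.b (.l 11) .z) (.b .z (.a .z (.l 7)))))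
(.b (.a .z (.b .z (.l 7))) (.a (.b (.a .z (.l 7)) (.l 7)) (.l 7)))) (.a (.b (.a (.b .z (.l 7)) (.l 7)) (.l 7)) (.l 7))) (.l 7))) (.b (.a (.b (.a (.b
(.a .z (.b (.a .z (.l 7)) (.l 7))) (.l 7)) (.l 7)) (.l 7)) (.l 7)) (.l 7))) (.l 7))) (.b (.b (.a (.b (.l 11) (.a (.l 11) (.b (.a (.l 11) (.b (.l 11)
(.a (.l 11) .z))) (.a (.b (.a (.l 11) (.b (.l 11) .z)) (.a (.b (.l 11) .z) (.b .z (.a .z (.l 7))))) (.b (.a .z (.b (.a .z (.l 7)) (.l 7))) (.l 7))))))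
(.b (.a (.b (.l 11) (.a (.b (.l 11) (.a (.l 11) (.b (.l 11) .z))) (.b (.a (.l 11) .z) (.a .z (.b (.a .z (.l 7)) (.l 7)))))) (.b (.a (.b (.a (.l 11)
(.b (.l 11) .z)) (.a (.b (.l 11) .z) (.b .z (.a .z (.l 7))))) (.b (.a .z (.b (.a .z (.l 7)) (.l 7))) (.l 7))) (.a (.b (.a (.b .z (.l 7)) (.l 7)) (.l
7)) (.l 7)))) (.a (.b (.a (.b (.a (.b (.l 11) .z) (.b .z (.a .z (.l 7)))) (.a (.b .z (.l 7)) (.l 7))) (.l 7)) (.l 7)) (.l 7)))) (.a (.b (.a (.b (.a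
(.b (.l 11) (.a (.l 11) (.b (.l 11) .z))) (.b (.a (.l 11) .z) (.a (.b .z (.a .z (.l 7))) (.b (.a .z (.l 7)) (.l 7))))) (.a (.b (.a (.b (.l 11) .z) (.b
.z (.a .z (.l 7)))) (.a (.b (.a .z (.l 7)) (.l 7)) (.l 7))) (.l 7))) (.b (.a (.b (.a (.b (.a .z (.l 7)) (.l 7)) (.l 7)) (.l 7)) (.l 7)) (.l 7))) (.l
7)) (.l 7))) (.a (.b (.l 7) (.a (.b (.l 7) (.a (.l 7) (.b (.l 7) (.a (.l 7) (.b (.l 7) (.a (.l 7) (.b (.l 7) .z))))))) (.b (.a (.l 7) (.b (.l 7) (.a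
(.l 7) (.b (.l 7) (.a (.b (.l 7) .z) .z))))) (.a (.b (.a (.l 7) (.b (.l 7) (.a (.l 7) (.b (.l 7) .z)))) (.a (.b (.a (.l 7) (.b (.l 7) .z)) .z) (.b .z
(.l 14)))) (.b (.a (.b (.a (.b (.l 7) .z) .z) (.a .z (.l 14))) (.b (.a .z (.l 14)) (.l 14))) (.l 14)))))) (.b (.a (.b (.l 7) (.a (.l 7) (.b (.l 7) (.a
(.b (.l 7) (.a (.l 7) (.b (.l 7) .z))) (.b (.a (.l 7) .z) .z))))) (.b (.a (.l 7) (.b (.a (.l 7) (.b (.l 7) (.a (.l 7) (.b (.l 7) .z)))) (.a (.b (.a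
(.l 7) (.b (.l 7) .z)) .z) (.b .z (.l 14))))) (.a (.b (.a (.b (.l 7) (.a (.b (.l 7) .z) .z)) (.b (.a (.b (.l 7) .z) .z) (.a .z (.l 14)))) (.a (.b (.a
.z (.l 14)) (.l 14)) (.l 14))) (.b (.a (.b (.a .z (.l 14)) (.l 14)) (.l 14)) (.l 14))))) (.a (.b (.a (.b (.a (.l 7) (.b (.a (.l 7) (.b (.l 7) .z))
.z)) (.a (.b (.a (.b (.l 7) .z) .z) (.a .z (.l 14))) (.b (.a .z (.l 14)) (.l 14)))) (.b (.a (.b .z (.l 14)) (.l 14)) (.l 14))) (.l 14)) (.l 14))))))))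
(.a (.b (.a (.b (.b (.a (.b (.l 11) (.a (.l 11) (.b (.l 11) (.a (.b (.l 11) (.a (.l 11) (.b (.l 11) .z))) (.b (.a (.b (.l 11) .z) .z) (.a (.b .z (.a
.z (.l 7))) (.l 7))))))) (.b (.a (.b (.l 11) (.a (.l 11) (.b (.l 11) (.a (.l 11) (.b (.l 11) .z))))) (.b (.a (.l 11) (.b (.l 11) (.a (.b (.l 11) .z)
(.b .z (.a .z (.l 7)))))) (.a (.b (.a (.l 11) .z) (.a (.b .z (.a .z (.l 7))) (.b (.a .z (.l 7)) (.l 7)))) (.b (.a (.b .z (.l 7)) (.l 7)) (.l 7)))))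
(.a (.b (.a (.b (.l 11) (.a (.b (.l 11) .z) (.b .z (.a .z (.l 7))))) (.b (.a .z (.b .z (.l 7))) (.a (.b (.a .z (.l 7)) (.l 7)) (.l 7)))) (.a (.b (.a
(.b (.a .z (.l 7)) (.l 7)) (.l 7)) (.l 7)) (.l 7))) (.l 7)))) (.a (.b (.a (.b (.a (.l 11) (.b (.a (.l 11) (.b (.l 11) .z)) (.a .z (.b .z (.l 7)))))
(.a (.b (.a (.b (.l 11) .z) (.b .z (.a .z (.l 7)))) (.a (.b .z (.l 7)) (.l 7))) (.b (.a (.b (.a .z (.l 7)) (.l 7)) (.l 7)) (.l 7)))) (.b (.a (.b (.a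
.z (.b (.a .z (.l 7)) (.l 7))) (.l 7)) (.l 7)) (.l 7))) (.l 7)) (.l 7))) (.l 7)) (.b (.b (.a (.b (.a (.b (.a (.b (.a .z (.b .z (.l 7))) (.a (.b (.a .z
(.l 7)) (.l 7)) (.l 7))) (.l 7)) (.l 7)) (.l 7)) (.l 7)) (.l 7)) (.l 7)) (.a (.l 7) (.b (.l 7) (.a (.b (.l 7) (.a (.l 7) (.b (.a (.l 7) (.b (.l 7) (.a
(.l 7) (.b (.l 7) .z)))) (.a (.b (.a (.l 7) (.b (.l 7) .z)) (.a (.b (.l 7) .z) .z)) (.b .z (.l 14)))))) (.b (.a (.b (.l 7) (.a (.l 7) (.b (.l 7) (.a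
(.b (.l 7) .z) .z)))) (.b (.a (.b (.l 7) (.a (.l 7) (.b (.l 7) .z))) (.b (.a (.l 7) (.b (.l 7) .z)) .z)) (.a (.b .z (.a .z (.l 14))) (.l 14)))) (.a
(.b (.a (.b (.a (.l 7) .z) .z) (.b (.a .z (.l 14)) (.l 14))) (.l 14)) (.l 14)))))))) (.a (.b (.a (.l 7) (.b (.l 7) (.a (.l 7) (.b (.l 7) (.a (.b (.l
7) (.a (.l 7) (.b (.l 7) (.a (.l 7) (.b (.l 7) .z))))) (.b (.a (.l 7) (.b (.l 7) (.a (.b (.l 7) .z) .z))) (.a (.b (.a (.l 7) .z) .z) (.b (.a .z (.l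
14)) (.l 14))))))))) (.a (.b (.a (.l 7) (.b (.l 7) (.a (.l 7) (.b (.l 7) (.a (.l 7) (.b (.l 7) (.a (.l 7) (.b (.l 7) .z)))))))) (.a (.b (.l 7) (.a (.b
(.l 7) (.a (.l 7) (.b (.l 7) (.a (.l 7) (.b (.l 7) .z))))) (.b (.a (.l 7) (.b (.l 7) (.a (.b (.l 7) .z) .z))) (.a (.b (.a (.l 7) .z) .z) (.b (.a .z
(.l 14)) (.l 14)))))) (.b (.a (.b (.l 7) (.a (.b (.l 7) (.a (.l 7) (.b (.l 7) .z))) (.b (.a (.b (.l 7) .z) .z) (.a .z (.l 14))))) (.b (.a (.b (.a (.l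
7) (.b (.l 7) .z)) (.a (.b (.l 7) .z) .z)) (.b .z (.l 14))) (.a (.b (.a .z (.l 14)) (.l 14)) (.l 14)))) (.a (.b (.a (.b .z (.a .z (.l 14))) (.l 14))
(.l 14)) (.l 14))))) (.b (.a (.b (.a (.l 7) (.b (.l 7) (.a (.b (.l 7) (.a (.l 7) (.b (.l 7) .z))) (.b (.a (.l 7) .z) .z)))) (.a (.b (.a (.l 7) (.b (.a
(.l 7) (.b (.l 7) .z)) (.a (.b (.l 7) .z) .z))) (.a (.b (.a (.b (.l 7) .z) .z) (.a .z (.l 14))) (.b (.a .z (.l 14)) (.l 14)))) (.b (.a (.b .z (.l 14))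
(.l 14)) (.l 14)))) (.b (.a (.b (.a (.b (.l 7) (.a (.b (.l 7) .z) .z)) (.b .z (.a .z (.l 14)))) (.a (.b (.a .z (.l 14)) (.l 14)) (.l 14))) (.l 14))
(.l 14))) (.l 14)))) (.b (.a (.b (.a (.b (.l 7) (.a (.l 7) (.b (.l 7) (.a (.l 7) (.b (.l 7) (.a (.l 7) (.b (.l 7) .z))))))) (.b (.a (.l 7) (.b (.l 7)
(.a (.l 7) (.b (.a (.l 7) (.b (.l 7) .z)) .z)))) (.a (.b (.a (.l 7) (.b (.l 7) (.a (.b (.l 7) .z) .z))) (.a (.b (.a (.l 7) (.b (.l 7) .z)) .z) (.b (.a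
.z (.l 14)) (.l 14)))) (.b (.a (.b (.a (.b (.l 7) .z) .z) (.a .z (.l 14))) (.b (.a .z (.l 14)) (.l 14))) (.l 14))))) (.a (.b (.a (.b (.l 7) (.a (.b
(.l 7) (.a (.l 7) (.b (.l 7) .z))) (.b (.a (.l 7) (.b (.l 7) .z)) .z))) (.b (.a (.b (.l 7) (.a (.b (.l 7) .z) .z)) (.b (.a (.b (.l 7) .z) .z) (.a .z
(.l 14)))) (.a (.b (.a .z (.l 14)) (.l 14)) (.l 14)))) (.a (.b (.a (.b .z (.a .z (.l 14))) (.l 14)) (.l 14)) (.l 14))) (.l 14))) (.b (.a (.b (.a (.b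
(.a (.b (.l 7) (.a (.l 7) .z)) (.b (.a (.b (.l 7) .z) .z) (.a .z (.l 14)))) (.a (.b .z (.l 14)) (.l 14))) (.b (.a (.b (.a .z (.l 14)) (.l 14)) (.l
14)) (.l 14))) (.l 14)) (.l 14)) (.l 14))) (.l 14)))) (.b (.a (.b (.a (.b (.l 7) (.a (.l 7) (.b (.l 7) (.a (.l 7) (.b (.l 7) (.a (.b (.l 7) (.a (.l 7)
(.b (.l 7) .z))) (.b (.a (.l 7) (.b (.l 7) .z)) .z))))))) (.b (.a (.l 7) (.b (.l 7) (.a (.b (.l 7) (.a (.l 7) (.b (.l 7) (.a (.b (.l 7) .z) .z)))) (.b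
(.a (.l 7) (.b (.a (.l 7) (.b (.l 7) .z)) .z)) (.a (.b (.a (.b (.l 7) .z) .z) (.a .z (.l 14))) (.b (.a .z (.l 14)) (.l 14))))))) (.a (.b (.a (.l 7)
(.b (.a (.l 7) (.b (.l 7) (.a (.l 7) (.b (.l 7) .z)))) (.a (.b (.a (.l 7) (.b (.l 7) .z)) (.a (.b (.l 7) .z) .z)) (.b .z (.l 14))))) (.a (.b (.a (.b
(.l 7) (.a (.l 7) .z)) (.b (.a (.b (.l 7) .z) .z) (.a .z (.l 14)))) (.a (.b .z (.l 14)) (.l 14))) (.b (.a (.b (.a .z (.l 14)) (.l 14)) (.l 14)) (.l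
14)))) (.b (.a (.b (.a (.b (.a (.l 7) .z) .z) (.b (.a .z (.l 14)) (.l 14))) (.l 14)) (.l 14)) (.l 14))))) (.a (.b (.a (.b (.a (.l 7) (.b (.l 7) (.a
(.l 7) (.b (.l 7) (.a (.l 7) (.b (.l 7) .z)))))) (.a (.b (.l 7) (.a (.b (.l 7) (.a (.b (.l 7) .z) .z)) (.b (.a (.b (.l 7) .z) .z) (.a .z (.l 14)))))
(.b (.a (.b (.a (.l 7) (.b (.l 7) .z)) .z) (.b .z (.l 14))) (.a (.b (.a .z (.l 14)) (.l 14)) (.l 14))))) (.b (.a (.b (.a (.l 7) (.b (.l 7) (.a (.b (.l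
7) .z) .z))) (.a (.b (.a (.b (.l 7) .z) .z) (.a .z (.l 14))) (.b (.a .z (.l 14)) (.l 14)))) (.b (.a (.b .z (.a .z (.l 14))) (.l 14)) (.l 14))) (.l
14))) (.a (.b (.a (.b (.a (.b (.a .z (.l 14)) (.l 14)) (.l 14)) (.l 14)) (.l 14)) (.l 14)) (.l 14))) (.l 14))) (.b (.a (.b (.a (.b (.a (.b (.l 7) (.a
(.b (.l 7) (.a (.l 7) (.b (.l 7) .z))) (.b (.a (.l 7) .z) .z))) (.b (.a (.b (.l 7) (.a (.b (.l 7) .z) .z)) (.b (.a (.b (.l 7) .z) .z) (.a .z (.l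
14)))) (.a (.b (.a .z (.l 14)) (.l 14)) (.l 14)))) (.a (.b (.a (.b .z (.l 14)) (.l 14)) (.l 14)) (.l 14))) (.l 14)) (.l 14)) (.l 14)) (.l 14))) (.l
14)))))

theorem vQ183 : ev Q183 I4_9 I4_11 = 3855747032338564 := by decide +kernel

noncomputable def Q237 : QT :=
(.b (.b (.a (.b (.l 47) (.a (.b (.l 47) (.b (.a (.b (.l 47) (.a (.l 47) .z)) (.b (.a (.l 47) .z) (.a .z (.b .z (.l 19))))) (.a (.b (.a .z (.b .z (.l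
19))) (.l 19)) (.l 19)))) (.b (.a (.b (.l 47) (.b (.l 47) .z)) (.b (.b (.l 47) (.a (.l 47) .z)) (.a (.b .z (.b .z (.l 19))) (.b .z (.a (.l 19) .z)))))
(.a (.b (.a (.b (.b .z (.l 19)) (.l 19)) (.b (.l 19) (.a (.l 19) .z))) (.a (.b (.l 19) .z) .z)) (.b (.a (.b (.a (.l 19) .z) .z) (.b .z (.l 38))) (.l
38)))))) (.b (.a (.b (.a (.l 47) (.a (.a (.l 47) (.a .z (.l 61))) (.l 61))) (.a (.l 47) (.b (.a (.a (.l 47) .z) (.l 61)) .z))) (.b (.a (.b (.l 61) (.a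
(.l 61) (.b (.l 61) .z))) (.b (.a (.l 61) (.b (.l 61) .z)) (.a .z (.b .z (.l 45))))) (.a (.b (.a (.b (.l 61) .z) .z) (.a .z (.b (.l 45) .z))) (.b (.l
45) (.b (.l 45) (.b (.l 45) .z)))))) (.a (.b (.a (.b (.a (.b (.l 47) .z) .z) (.a .z (.b .z (.l 38)))) (.b .z (.a (.a (.l 38) .z) (.l 51)))) (.a (.l
38) (.a (.a (.l 38) (.a .z (.l 51))) (.l 51)))) (.b (.a (.b .z (.a (.b .z (.l 51)) .z)) (.b (.b (.l 127) .z) .z)) (.a (.l 51) (.b (.a (.b .z (.l 51))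
.z) (.l 51))))))) (.a (.b (.a (.b (.a (.b (.l 19) (.a (.b (.l 19) (.a (.l 19) .z)) (.b (.a (.l 19) .z) .z))) (.b (.a (.b (.l 19) (.a (.l 19) .z)) .z)
(.a (.b .z (.l 38)) (.l 38)))) (.a (.b (.a .z (.a .z (.l 38))) (.a (.l 77) (.a .z (.l 38)))) (.l 38))) (.b (.a (.b (.a (.b .z (.l 38)) (.l 38)) (.l
38)) (.l 38)) (.l 38))) (.a (.b (.b (.b (.b (.a .z (.l 38)) .z) (.b (.a .z (.l 20)) (.l 20))) (.l 20)) (.l 20)) (.b (.a (.b (.b (.b (.l 38) .z) (.l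
20)) (.l 20)) (.b (.b (.b (.l 38) .z) (.l 20)) (.a (.l 20) (.b (.l 20) .z)))) (.a (.b (.a (.l 20) (.b (.l 20) (.a (.l 20) .z))) (.a (.b (.a (.l 20)
.z) .z) .z)) (.b (.a (.b (.a (.l 20) .z) .z) .z) (.a .z (.l 95))))))) (.b (.a (.b (.a (.l 38) (.a (.a (.l 38) (.a .z (.l 51))) (.l 51))) (.a (.l 38)
(.b (.a (.a (.l 38) .z) (.l 51)) .z))) (.b (.a (.l 51) (.b (.l 51) (.a (.b (.l 51) .z) .z))) (.a (.b (.a (.b (.l 51) .z) .z) .z) .z))) (.a (.b (.a (.b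
(.a (.b .z (.l 20)) (.b (.b .z (.l 20)) .z)) .z) (.b .z (.a .z (.l 59)))) (.a (.l 95) (.a (.a (.l 95) (.a .z (.l 59))) (.l 59)))) (.b (.a (.b .z (.a
(.b .z (.l 59)) .z)) (.b .z (.a .z (.b .z (.l 65))))) (.a (.l 59) (.b (.a (.b .z (.l 59)) .z) (.l 59)))))))) (.b (.a (.b (.a (.b (.a (.b (.l 20) (.a
(.b (.l 20) (.a (.l 20) .z)) (.b .z (.a .z (.l 21))))) (.b (.a (.b (.l 20) .z) .z) (.a (.b .z (.l 21)) (.b .z (.l 21))))) (.a (.b (.a (.b .z (.l 21))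
(.l 21)) (.l 21)) (.l 21))) (.b (.a (.b (.a .z (.l 113)) (.b .z (.b .z (.a (.l 21) .z)))) (.b .z (.b (.l 113) .z))) (.b (.b (.a (.l 21) (.b .z (.l
21))) (.l 21)) (.a (.l 21) (.b (.l 21) (.a (.b (.l 21) .z) .z)))))) (.b (.a (.b (.a (.l 21) (.b (.l 21) (.a (.l 21) (.b (.l 21) .z)))) (.a (.b (.a (.l
21) (.b (.l 21) .z)) .z) .z)) (.b (.a (.b (.a (.b (.l 21) .z) .z) .z) .z) .z)) (.b (.a (.b .z (.a (.b (.a (.l 22) .z) (.l 22)) .z)) (.a (.l 221) .z))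
(.a (.b (.a (.l 22) (.b (.a (.l 22) .z) (.l 22))) (.l 22)) (.b .z (.a (.l 22) (.b .z (.a (.l 22) .z)))))))) (.b (.b (.a (.a (.b (.a .z (.l 95)) .z)
(.a (.a (.l 95) (.a .z (.l 59))) (.l 59))) (.b (.l 59) (.a (.b (.l 59) (.a (.l 59) .z)) (.b (.a (.l 59) .z) .z)))) (.a (.b (.a (.b .z (.b (.a (.l 21)
.z) (.l 21))) .z) (.a (.b (.a (.b (.l 21) .z) .z) .z) (.b .z (.a .z (.l 65))))) (.b (.a (.b .z (.l 71)) (.l 71)) (.b (.a .z (.l 71)) (.a (.b .z (.l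
65)) .z))))) (.b (.b (.a (.a .z (.a .z (.l 65))) (.b (.a (.l 65) (.b .z (.l 65))) (.l 65))) (.a (.a .z (.a .z (.l 65))) (.l 65))) (.b (.a (.a .z (.a
.z (.l 65))) (.a (.l 65) (.b (.l 65) (.a (.l 65) .z)))) (.a (.b (.a .z (.a .z (.l 65))) (.a .z (.a .z (.l 65)))) (.a (.b (.l 65) .z) .z)))))) (.b (.b
(.b (.b (.b (.a (.l 22) .z) (.a (.l 22) (.a (.a (.a (.l 22) .z) .z) .z))) (.b (.a .z (.a (.a .z (.a .z (.l 23))) (.l 23))) (.a (.a (.a (.a .z (.l 23))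
(.l 23)) (.l 23)) (.l 23)))) (.l 23)) (.l 23)) (.b (.b (.l 23) (.b (.b (.a (.l 23) (.a (.l 23) (.a (.l 23) .z))) (.a (.a (.l 23) .z) (.a .z (.a .z (.a
.z (.l 25)))))) (.b (.a (.a .z (.a (.a .z (.l 25)) (.l 25))) (.l 25)) (.l 25)))) (.l 25)))))

theorem vQ237 : ev Q237 I6_42 I5_28 = 349281335329099 := by decide +kernel

noncomputable def Q182 : QT :=
(.b (.b (.a (.a (.a (.l 38) (.a (.l 38) (.a (.l 38) (.b (.a (.l 38) (.b (.a (.l 38) .z) (.l 38))) (.l 38))))) (.a (.a (.a (.b (.a (.b (.a (.b (.l 32)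
(.a .z (.l 32))) (.l 32)) (.a .z (.b (.l 32) (.a .z (.l 32))))) (.l 32)) (.a (.b (.a (.l 38) .z) (.l 38)) (.b (.a (.b (.l 32) (.a .z (.l 32))) (.l
32)) (.a .z (.a (.b (.l 32) .z) (.l 32)))))) (.a (.b (.l 32) (.a (.l 32) (.b (.l 32) (.a (.l 32) (.b (.l 32) .z))))) (.b (.b (.l 32) (.a (.l 32) (.b
(.l 32) (.a (.l 32) .z)))) (.a (.b (.a (.l 32) (.b (.l 32) .z)) .z) .z)))) (.a (.b (.a (.b (.a (.b (.l 32) (.a (.l 32) .z)) .z) .z) .z) .z) .z)) (.b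
(.a .z (.b .z (.a .z (.b .z (.l 101))))) (.a (.b (.a .z (.b .z (.a .z (.l 101)))) (.a (.b .z (.l 101)) (.l 101))) (.b (.a (.b (.a .z (.l 101)) (.l
101)) (.l 101)) (.l 101)))))) (.a (.a (.a (.b (.b (.a (.b .z (.a .z (.l 101))) (.b (.a (.l 101) .z) (.l 101))) (.l 101)) (.l 101)) (.b (.a (.b (.b .z
(.a (.l 101) .z)) (.l 101)) (.b .z (.b .z (.a (.l 101) .z)))) (.l 101))) (.a (.a (.b (.b (.a .z (.b (.l 73) .z)) .z) (.b (.b .z (.a (.l 101) .z)) (.l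
101))) (.b (.a (.b (.b .z (.l 73)) (.b (.l 73) .z)) .z) (.b .z (.a (.b .z (.l 101)) .z)))) (.a .z (.a (.a .z (.l 281)) .z)))) (.a (.a (.b (.a .z (.b
.z (.a .z (.b .z (.l 61))))) (.a (.b .z (.a .z (.b (.a .z (.l 61)) (.l 61)))) (.b (.a (.b (.a .z (.l 61)) (.l 61)) (.l 61)) (.l 61)))) (.b (.a (.b (.a
(.b .z (.a .z (.l 61))) (.l 61)) (.l 61)) (.b (.a (.l 61) (.b (.a (.l 61) .z) (.l 61))) (.l 61))) (.l 61))) (.a (.b (.a (.b (.a (.b .z (.a (.l 61)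
.z)) .z) (.a (.l 61) (.b .z (.a (.l 61) .z)))) .z) (.a (.l 61) (.a (.b (.b .z (.a (.l 61) .z)) (.l 61)) (.b .z (.a (.b .z (.l 61)) .z))))) (.a (.b (.a
(.a .z (.l 153)) (.a (.l 153) .z)) .z) (.b .z (.a .z (.b .z (.l 143))))))))) (.b (.b (.a (.a (.l 38) (.a (.a (.a (.a (.l 38) (.a (.l 38) .z)) (.a (.a
(.a (.b (.l 32) .z) (.l 32)) .z) .z)) (.a (.b .z (.a .z (.l 101))) (.b (.a .z (.l 101)) (.l 101)))) (.l 101))) (.a (.a (.l 101) (.a (.l 101) (.a (.a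
(.b .z (.l 101)) .z) .z))) (.a (.a (.a (.a (.b (.a .z (.l 61)) (.l 61)) (.l 61)) (.l 61)) (.l 61)) (.a (.l 61) (.a (.a (.a (.b .z (.l 61)) .z) .z) (.a
.z (.l 143))))))) (.b (.b (.a (.a (.l 38) (.a (.a (.a (.l 38) .z) (.l 101)) (.l 101))) (.a (.a (.l 101) (.a (.l 101) (.a (.l 101) .z))) (.a (.l 61)
(.a (.l 61) (.a (.a (.l 61) .z) .z))))) (.b .z (.l 11))) (.l 11))) (.l 11))) (.l 11))

theorem vQ182 : ev Q182 I4_9 I5_21 = 1711122478646470 := by decide +kernel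

noncomputable def Q230 : QT :=
(.b (.b (.b (.a (.b (.a (.b (.a (.l 21) (.a (.a (.l 21) (.b .z (.l 21))) .z)) (.a (.b (.a .z (.b (.l 21) .z)) .z) (.b (.a (.l 21) (.a (.l 21) .z)) (.a
(.b (.l 21) .z) (.l 21))))) .z) (.a .z (.b (.a (.b (.a (.a (.l 21) .z) .z) .z) .z) .z))) (.b .z (.b (.a (.b .z (.a .z (.l 61))) (.a (.b (.b .z (.l
61)) (.l 61)) .z)) (.a (.b (.l 61) (.a (.b (.l 61) .z) (.l 61))) (.a (.a (.l 61) (.a (.l 61) .z)) .z))))) (.a (.b (.a (.b .z (.a (.l 239) .z)) (.b .z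
(.a (.a .z (.l 73)) (.a (.l 73) .z)))) (.a (.a .z (.a .z (.b .z (.l 73)))) (.a (.l 73) (.a (.l 73) (.b .z (.l 73)))))) (.a (.b (.b (.a .z (.b .z (.b
.z (.l 59)))) (.a .z (.b (.a .z (.l 59)) .z))) .z) (.b (.b (.b (.a (.a (.l 61) .z) .z) .z) (.a (.b (.b .z (.l 59)) (.l 59)) (.b .z (.a (.l 59) .z))))
(.a (.b (.a .z (.b (.l 59) .z)) .z) (.b (.l 59) (.a .z (.b (.l 59) .z)))))))) (.a (.a (.b (.a .z (.b (.l 73) (.a (.b (.l 73) .z) (.l 73)))) .z) (.b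
(.a (.l 73) (.b (.l 73) (.a (.b (.l 73) .z) .z))) (.a (.b (.a (.b (.l 73) .z) .z) .z) .z))) (.b (.a (.a (.b (.a (.b (.l 73) .z) .z) .z) .z) (.b (.a
(.a .z (.l 85)) (.b (.a (.l 85) .z) (.l 85))) (.a (.a (.b (.l 85) .z) (.l 85)) (.l 85)))) (.a .z (.a (.b (.a .z (.b (.l 85) .z)) .z) (.b (.l 85) (.a
(.b (.l 85) .z) (.l 85)))))))) (.a (.b (.b (.a (.a (.b .z (.a .z (.b (.a .z (.l 52)) .z))) (.b .z (.a (.b (.a (.l 52) .z) (.l 52)) (.b .z (.a (.l 52)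
.z))))) (.a (.b (.a (.l 107) (.b .z (.l 107))) .z) .z)) (.b (.a (.a (.a .z (.a .z (.a .z (.l 52)))) (.l 52)) (.a (.a (.b (.a (.l 52) .z) (.l 52)) .z)
(.b .z (.a .z (.b .z (.a (.b .z (.l 13)) (.l 13))))))) (.a (.b (.a .z (.l 52)) (.a .z (.b (.a (.l 52) .z) (.a .z (.b (.a .z (.l 13)) (.l 13)))))) (.b
(.a (.b (.a (.l 52) .z) (.a .z (.b (.a .z (.l 13)) (.l 13)))) (.b (.a (.b (.a .z (.l 13)) (.l 13)) (.l 13)) (.l 13))) (.a (.b (.a (.b (.a .z (.l 13))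
(.l 13)) (.l 13)) (.l 13)) (.l 13)))))) (.a (.b (.b (.b (.a (.b .z (.a (.b .z (.a .z (.l 13))) (.b (.a .z (.l 13)) (.l 13)))) (.b (.a (.b (.a .z (.l
13)) (.l 13)) (.l 13)) (.l 13))) (.l 13)) (.l 13)) (.a (.b (.l 13) (.a (.l 13) (.b (.l 13) (.a (.l 13) (.b (.l 13) .z))))) (.b (.a (.l 13) (.b (.l 13)
(.a (.b (.l 13) (.a (.l 13) .z)) (.b (.a (.l 13) .z) .z)))) (.a (.b (.a (.b (.l 13) (.a (.l 13) .z)) (.b (.a (.l 13) .z) .z)) (.a (.b .z (.a .z (.l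
14))) (.l 14))) (.b .z (.l 14)))))) (.b (.a (.b (.l 13) (.a (.l 13) (.b (.l 13) (.a (.b (.l 13) .z) .z)))) (.b (.a (.l 13) (.b (.l 13) (.a (.b (.l 13)
.z) .z))) (.a (.b (.a (.b (.l 13) .z) .z) .z) .z))) (.a (.b (.a (.b (.a (.b (.l 13) (.a (.l 13) .z)) (.b (.a (.l 13) .z) .z)) .z) (.b .z (.l 75))) (.b
(.b (.l 75) .z) (.b (.b .z (.l 14)) (.l 14)))) (.b (.l 75) (.b (.l 75) (.b (.b .z (.a (.a (.l 14) .z) .z)) (.l 14)))))))) (.b (.a (.b (.b (.a (.b .z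
(.a (.l 99) .z)) .z) (.a (.a .z (.a (.l 99) .z)) (.b .z (.a .z (.b .z (.a (.b .z (.l 13)) (.l 13))))))) (.a (.b (.b (.a .z (.b .z (.a (.b .z (.l 13))
(.l 13)))) (.a (.b (.a (.b .z (.l 13)) (.l 13)) (.l 13)) (.l 13))) (.a (.b (.l 13) (.a (.l 13) (.b (.l 13) (.a (.l 13) .z)))) (.b (.a (.l 13) (.b (.l
13) (.a (.l 13) .z))) (.a (.b (.a (.l 13) .z) .z) .z)))) (.b (.a (.b (.b (.a (.b .z (.l 13)) (.l 13)) (.l 13)) (.a (.l 13) (.b (.l 13) (.a (.l 13)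
.z)))) (.b (.a (.l 13) (.b (.l 13) .z)) (.a (.b (.a (.l 13) .z) .z) .z))) (.a (.b (.a (.b (.a (.l 13) .z) .z) .z) .z) .z)))) (.b (.a (.b .z (.a (.b .z
(.a (.b (.b .z (.l 13)) (.l 13)) (.b (.l 13) .z))) (.b (.a (.b .z (.l 13)) (.b (.b .z (.l 13)) .z)) .z))) (.b .z (.a (.b .z (.l 97)) (.b .z (.l
97))))) (.a (.b (.a (.b .z (.l 97)) (.b (.l 97) .z)) .z) (.b (.b (.l 97) (.b (.l 97) .z)) (.b (.b (.l 117) .z) .z))))) (.a (.b (.a (.b (.a (.b (.a (.b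
(.a (.l 13) .z) .z) .z) .z) .z) (.b .z (.b .z (.l 75)))) (.b .z (.b .z (.b .z (.l 75))))) (.b (.l 75) (.b (.l 75) (.b (.b (.l 75) .z) (.a (.b (.a (.a
(.l 14) .z) .z) (.l 14)) (.b .z (.a (.a (.l 14) .z) .z))))))) (.b .z (.b (.l 75) (.b (.a (.l 75) (.b (.l 75) .z)) (.b (.a (.l 75) .z) .z))))))))

theorem vQ230 : ev Q230 I6_47 I5_27 = 182031751526713 := by decide +kernel

noncomputable def Q64 : QT :=
(.a (.b (.a (.b (.a (.b (.a (.b (.a (.b (.a .z (.b (.a .z (.l 24)) (.l 24))) (.l 24)) (.l 24)) (.l 24)) (.l 24)) (.l 24)) (.l 24)) (.a (.l 24) (.b (.l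
24) (.a (.l 24) (.b (.l 24) (.a (.l 24) (.b (.l 24) (.a (.l 24) (.b (.l 24) (.a (.l 24) .z)))))))))) (.b (.a (.l 24) (.b (.l 24) (.a (.l 24) (.b (.l
24) (.a (.l 24) (.b (.a (.l 24) (.b (.l 24) (.a (.l 24) .z))) (.a (.b (.a (.l 24) .z) .z) (.b .z (.l 46))))))))) (.a (.b (.a (.l 24) (.b (.l 24) (.a
(.l 24) (.b (.l 24) (.a (.l 24) (.b (.a (.l 24) .z) .z)))))) (.a (.b (.a (.l 24) (.b (.l 24) (.a (.l 24) (.b (.l 24) .z)))) (.a (.b (.a (.l 24) (.b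
(.l 24) (.a (.l 24) .z))) (.a (.b (.a (.l 24) .z) .z) (.b .z (.l 46)))) (.b (.a (.b (.a (.l 24) .z) .z) (.b .z (.l 46))) (.l 46)))) (.b (.a (.b (.a
(.l 24) (.b (.l 24) .z)) (.a .z (.b .z (.l 46)))) (.b (.a .z (.b .z (.l 46))) (.l 46))) (.l 46)))) (.b (.a (.b (.a (.l 24) (.b (.l 24) (.a (.b (.l 24)
(.a (.l 24) .z)) .z))) (.a (.b (.a (.b (.l 24) (.a (.l 24) .z)) (.b (.a (.l 24) .z) .z)) (.a (.b .z (.l 46)) (.l 46))) (.b (.a (.b .z (.l 46)) (.l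
46)) (.l 46)))) (.b (.a (.b (.a (.b (.l 24) .z) .z) (.a (.b .z (.l 46)) (.l 46))) (.b (.a (.b .z (.l 46)) (.l 46)) (.l 46))) (.l 46))) (.l 46))))) (.a
(.b (.b (.a (.l 24) (.a (.b (.a (.l 24) (.b (.l 24) (.a (.l 24) (.b (.l 24) (.a (.l 24) .z))))) (.a (.b (.a (.l 24) (.b (.l 24) (.a (.l 24) .z))) (.a
(.b (.l 24) .z) .z)) (.b (.a (.b (.a (.l 24) .z) .z) (.b .z (.l 46))) (.l 46)))) (.b (.a (.b (.a (.l 24) (.b (.l 24) (.a (.l 24) .z))) (.a (.b (.a (.l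
24) .z) .z) (.b .z (.l 46)))) (.b (.a (.b (.a (.l 24) .z) .z) (.b .z (.l 46))) (.l 46))) (.l 46)))) (.a (.b (.a (.b (.l 24) (.a (.l 24) (.b (.l 24)
(.a (.l 24) (.b (.l 24) .z))))) (.b (.a (.b (.l 24) (.a (.l 24) (.b (.l 24) .z))) (.b (.a (.l 24) .z) .z)) (.a (.b (.a (.b (.l 24) .z) .z) (.a .z (.l
46))) (.l 46)))) (.a (.b (.a (.b (.l 24) (.a (.l 24) (.b (.l 24) .z))) (.b (.a (.b (.l 24) .z) .z) (.a .z (.l 46)))) (.a (.b (.a (.b (.l 24) .z) .z)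
(.a .z (.l 46))) (.l 46))) (.l 46))) (.a (.b (.a (.b (.a (.b .z (.l 46)) (.l 46)) (.l 46)) (.l 46)) (.l 46)) (.l 46)))) (.l 46)) (.l 46))) (.b (.a (.b
(.a (.b (.a (.l 24) (.b (.a (.l 24) (.b (.l 24) (.a (.l 24) (.b (.l 24) (.a (.l 24) .z))))) (.a (.b (.l 24) (.a (.b (.l 24) (.a (.l 24) .z)) .z)) (.b
(.a (.b (.l 24) .z) .z) (.a (.b .z (.l 46)) (.l 46)))))) (.a (.b (.a (.b (.l 24) (.a (.l 24) (.b (.l 24) .z))) (.b (.a (.l 24) (.b (.a (.l 24) .z)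
.z)) (.a .z (.b .z (.l 46))))) (.a (.b (.a (.b (.a (.l 24) .z) .z) (.b .z (.l 46))) (.l 46)) (.l 46))) (.b (.a (.b (.a (.b .z (.l 46)) (.l 46)) (.l
46)) (.l 46)) (.l 46)))) (.b (.a (.b (.a (.b (.a (.l 24) (.b (.l 24) .z)) (.a (.b (.a (.l 24) .z) .z) (.b .z (.l 46)))) (.b (.a .z (.l 46)) (.l 46)))
(.l 46)) (.l 46)) (.l 46))) (.l 46)) (.b (.b (.a (.b (.a (.b (.a (.l 46) (.b (.a (.l 46) .z) (.l 46))) (.l 46)) (.b (.a (.b .z (.a (.l 46) .z)) (.b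
(.l 124) .z)) (.a (.l 46) (.b .z (.l 46))))) (.l 46)) (.b (.a (.b (.a (.l 124) .z) .z) (.a .z (.l 208))) (.a (.b (.a (.b (.a (.l 46) .z) (.l 46)) (.b
.z (.a (.l 46) .z))) (.l 46)) (.b .z (.a (.b .z (.a (.l 46) .z)) .z))))) (.a (.l 46) (.b (.a (.l 46) (.b (.a (.l 46) (.b (.a (.l 46) .z) (.l 46))) (.l
46))) (.l 46)))) (.l 46))) (.l 46)))

theorem vQ64 : ev Q64 I4_2 I5_9 = 1892557687510653 := by decide +kernel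

noncomputable def Q103 : QT :=
(.b (.b (.a (.a (.a (.l 220) (.a (.l 220) (.a (.l 220) (.a (.l 220) (.b .z (.l 220)))))) (.a .z (.a (.b (.a .z (.l 515)) (.l 515)) (.l 515)))) (.a (.a
(.a (.a (.b .z (.l 515)) (.a .z (.b (.a .z (.l 117)) .z))) (.l 117)) (.a (.a (.l 117) (.b (.a (.l 117) (.b .z (.l 117))) (.l 117))) (.a (.a (.b .z (.a
(.l 117) .z)) .z) .z))) .z)) (.b (.b (.a (.a (.l 220) (.a (.a .z (.l 515)) (.l 515))) (.a (.a (.a .z (.l 117)) (.a (.l 117) (.a (.a (.l 117) .z) .z)))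
.z)) (.b (.b (.a (.a (.l 220) .z) (.a (.a (.a .z (.l 117)) (.a (.l 117) .z)) .z)) .z) (.l 14))) (.l 14))) (.l 14))

theorem vQ103 : ev Q103 I4_4 I6_21 = 802989726079326 := by decide +kernel

noncomputable def Q120 : QT :=
(.b (.a (.b (.l 16) (.a (.b (.l 16) (.a (.b (.l 16) (.a (.b (.l 16) (.a (.b (.a .z (.l 16)) (.a (.b .z (.l 15)) .z)) (.l 16))) (.l 16))) (.l 16))) (.l
16))) (.b (.l 16) (.b (.l 16) (.a (.l 16) (.b (.a (.l 16) (.b (.l 16) (.a (.b (.l 16) (.a (.l 16) (.b (.l 16) (.a (.l 16) .z)))) (.b (.a (.b (.l 16)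
(.a (.l 16) .z)) (.b (.a (.l 16) .z) .z)) (.a .z (.l 19)))))) (.a (.b (.a (.l 16) (.b (.l 16) (.a (.l 16) (.b (.a (.l 16) .z) .z)))) (.a (.b (.l 16)
(.a (.b (.l 16) (.a (.l 16) .z)) .z)) (.b (.a (.b (.a (.l 16) .z) .z) (.b .z (.l 19))) (.a (.b .z (.l 19)) (.l 19))))) (.b (.a (.b (.a (.b (.l 16) (.a
(.l 16) .z)) .z) (.a (.b .z (.l 19)) (.l 19))) (.l 19)) (.l 19)))))))) (.a (.a (.b (.b (.a (.b (.a (.b (.a (.b (.a (.l 15) (.b .z (.l 15))) (.l 15))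
(.b (.a .z (.l 16)) (.a (.b .z (.l 15)) .z))) (.a (.l 15) (.b (.a (.l 15) (.b .z (.l 15))) (.l 15)))) (.b (.l 16) (.a (.b (.a .z (.l 16)) (.a (.b .z
(.l 15)) .z)) (.b (.l 16) (.a (.b (.l 16) .z) (.l 16)))))) (.a (.l 15) (.b (.a (.l 15) (.b (.a .z (.b (.l 16) .z)) (.a (.l 15) .z))) (.l 15)))) (.b
(.l 16) (.a (.b (.a (.b (.l 16) (.a (.b (.l 16) .z) (.l 16))) (.l 16)) (.a (.b (.a .z (.b (.l 16) .z)) (.a (.l 15) .z)) (.b (.l 16) (.a (.b (.l 16)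
.z) (.l 16))))) (.l 16)))) (.a (.b (.b (.l 15) (.b (.l 15) (.b (.l 15) (.a (.a .z (.a .z (.l 15))) (.l 15))))) (.b (.b (.b (.a (.a (.l 17) .z) (.a .z
(.a .z (.l 15)))) (.a (.l 17) (.a (.l 17) .z))) (.l 17)) (.l 17))) (.b (.a (.b (.a (.l 15) (.b (.a .z (.b (.l 16) .z)) (.a (.l 15) .z))) (.l 15)) (.b
(.a (.b (.l 16) (.a (.b (.l 16) .z) (.l 16))) (.l 16)) (.a (.b (.a .z (.b (.l 16) .z)) (.a (.l 15) .z)) (.b (.l 16) (.a (.b (.l 16) .z) (.l 16))))))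
(.a (.b (.b (.b (.l 15) (.a .z (.a .z (.l 15)))) (.b (.a (.l 17) .z) (.l 17))) (.l 17)) (.b (.a (.b (.l 15) (.b .z (.l 17))) (.b (.a .z (.b (.l 16)
.z)) .z)) (.l 17)))))) (.l 17)) (.b (.b (.b (.l 16) (.a (.l 16) (.b (.l 16) (.a (.l 16) (.b (.l 16) (.a (.l 16) (.b (.a (.l 16) .z) .z))))))) (.a (.b
(.b (.l 16) (.a (.l 16) (.b (.a (.l 16) (.b (.l 16) .z)) (.a (.b (.a (.l 16) .z) .z) (.b .z (.l 19)))))) (.a (.a (.b (.b (.b (.l 16) (.a (.l 16) .z))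
.z) (.a (.b .z (.l 17)) .z)) (.b (.b (.b (.a (.l 16) .z) .z) .z) (.a (.b (.l 22) .z) (.l 22)))) (.b (.b (.a (.b .z (.l 19)) (.l 19)) (.b .z (.l 22)))
(.l 22)))) (.b (.b (.a (.b (.a (.l 16) (.b (.l 16) (.a (.l 16) .z))) (.a (.b (.l 16) (.a (.l 16) .z)) .z)) (.b (.a .z (.b .z (.l 19))) (.l 19))) (.a
(.b (.a .z (.l 19)) (.l 19)) (.l 19))) (.b (.b (.b (.a (.l 19) (.a (.l 19) .z)) .z) (.b (.a (.a .z (.l 22)) (.l 22)) (.l 22))) (.l 22))))) (.a (.b (.a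
(.b (.a (.l 17) (.b (.a (.b .z (.l 17)) .z) (.l 17))) (.l 17)) (.b (.a (.b (.a (.b (.l 22) .z) (.l 22)) (.a (.b .z (.l 17)) .z)) (.b (.l 22) (.a (.b
(.l 22) .z) (.l 22)))) (.a (.l 17) (.b (.a (.b .z (.l 17)) .z) (.l 17))))) (.l 17)) (.b (.a (.b (.l 22) (.a (.b (.a (.b (.l 22) .z) (.l 22)) (.a (.b
.z (.l 17)) .z)) (.b (.l 22) (.a (.b (.l 22) .z) (.l 22))))) (.l 22)) (.a (.b (.a (.l 17) (.b (.a .z (.b (.l 22) .z)) (.a (.l 17) (.b .z (.l 17)))))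
(.l 17)) (.b (.a (.b (.l 22) (.a .z (.b (.l 22) .z))) (.l 22)) (.a (.b (.a (.l 17) (.b .z (.l 17))) (.l 17)) (.b (.a .z (.b (.l 22) .z)) (.a (.l 17)
(.b .z (.l 17))))))))))) (.a (.b (.b (.b (.a (.l 16) (.b (.a (.l 16) (.b (.a (.l 16) (.b (.l 16) (.a (.l 16) .z))) (.a (.b (.l 16) .z) .z))) (.a (.b
(.a (.l 16) (.b (.a (.l 16) .z) .z)) (.a (.b (.a (.l 16) .z) .z) (.b .z (.l 19)))) (.b (.a (.b .z (.l 19)) (.l 19)) (.l 19))))) (.a (.b (.a (.b (.l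
16) (.a (.l 16) (.b (.l 16) (.a (.l 16) .z)))) (.b (.a (.b (.l 16) (.a (.l 16) .z)) .z) (.a .z (.l 19)))) (.a (.b (.a (.b (.a (.l 16) .z) .z) (.b .z
(.l 19))) (.a (.b .z (.l 19)) (.l 19))) (.l 19))) (.b (.a (.b (.a (.b .z (.l 19)) (.l 19)) (.l 19)) (.l 19)) (.l 19)))) (.b (.b (.l 19) (.b (.l 19)
(.a (.b (.l 19) (.a (.l 19) .z)) (.b (.a (.a (.l 19) .z) .z) (.a .z (.l 22)))))) (.b (.b (.a (.b (.a .z (.a .z (.l 22))) (.l 22)) (.l 22)) (.l 22))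
(.l 22)))) (.a (.b (.l 22) (.a (.b (.l 22) (.a (.b (.l 22) (.a .z (.b (.l 22) .z))) (.l 22))) (.l 22))) (.l 22))) (.b (.b (.b (.a (.b (.a (.b (.a .z
(.l 19)) (.l 19)) (.l 19)) (.l 19)) (.l 19)) (.l 19)) (.b (.b (.b (.l 19) (.a (.l 19) (.b (.l 19) (.a (.l 19) .z)))) (.b (.a (.b (.a (.l 19) (.a (.l
19) .z)) .z) (.b (.a .z (.a .z (.l 22))) (.l 22))) (.a (.b (.a (.a .z (.l 22)) (.l 22)) (.l 22)) (.l 22)))) (.l 22))) (.l 22)))))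

theorem vQ120 : ev Q120 I5_9 I5_28 = 940198952459896 := by decide +kernel

noncomputable def Q184 : QT :=
(.a (.b (.b (.b (.a (.l 11) (.b (.l 11) (.a (.l 11) (.b (.l 11) (.a (.l 11) (.b (.l 11) (.a (.l 11) (.b (.a (.l 11) (.b (.l 11) (.a (.l 11) .z))) (.a
(.b (.l 11) .z) (.b (.a .z (.a .z (.l 7))) (.a (.a .z (.l 7)) (.l 7)))))))))))) (.a (.b (.l 11) (.a (.l 11) (.b (.l 11) (.a (.b (.l 11) (.a (.l 11)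
(.b (.l 11) (.a (.l 11) (.b (.l 11) .z))))) (.b (.a (.b (.l 11) (.a (.l 11) (.b (.l 11) (.a (.l 11) .z)))) (.b (.a (.l 11) (.b (.a (.l 11) .z) (.a .z
(.a .z (.l 7))))) (.a (.b .z (.a .z (.l 7))) (.b (.a (.a .z (.l 7)) (.l 7)) (.l 7))))) (.a (.b (.a (.b (.l 11) (.a (.l 11) .z)) (.b .z (.a .z (.l
7)))) (.a (.b (.a .z (.a .z (.l 7))) (.a (.a .z (.l 7)) (.l 7))) (.l 7))) (.l 7))))))) (.b (.a (.b (.l 11) (.a (.l 11) (.b (.a (.l 11) (.b (.l 11) (.a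
(.l 11) (.b (.l 11) (.a (.l 11) .z))))) (.a (.b (.l 11) (.a (.l 11) (.b (.a (.l 11) .z) .z))) (.b (.a (.b (.a (.l 11) .z) .z) (.b (.a .z (.a .z (.l
7))) (.l 7))) (.a (.b (.a .z (.l 7)) (.l 7)) (.l 7))))))) (.b (.a (.b (.l 11) (.a (.b (.l 11) (.a (.l 11) (.b (.l 11) (.a (.l 11) .z)))) (.b (.a (.l
11) (.b (.a (.l 11) .z) (.a .z (.a .z (.l 7))))) (.a (.b .z (.a .z (.l 7))) (.b (.a (.a .z (.l 7)) (.l 7)) (.l 7)))))) (.b (.a (.b (.a (.l 11) (.b (.a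
(.l 11) .z) .z)) (.a (.b (.a (.l 11) .z) .z) (.b (.a .z (.l 7)) (.l 7)))) (.b (.a (.b (.a .z (.l 7)) (.l 7)) (.l 7)) (.l 7))) (.a (.b (.a (.b (.a (.a
.z (.l 7)) (.l 7)) (.l 7)) (.l 7)) (.l 7)) (.l 7)))) (.a (.b (.a (.b (.a (.b (.l 11) (.a (.l 11) .z)) (.b .z (.a .z (.l 7)))) (.a (.b (.a .z (.a .z
(.l 7))) (.a (.a .z (.l 7)) (.l 7))) (.l 7))) (.l 7)) (.l 7)) (.l 7)))) (.a (.b (.a (.b (.a (.l 11) (.b (.a (.l 11) (.b (.l 11) (.a (.l 11) .z))) (.a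
(.b (.l 11) (.a (.l 11) .z)) (.b .z (.a .z (.l 7)))))) (.a (.b (.a (.l 11) (.b (.l 11) (.a (.l 11) .z))) (.a (.b (.a (.l 11) .z) .z) (.b (.a .z (.a .z
(.l 7))) (.l 7)))) (.b (.a (.b .z (.a (.a .z (.l 7)) (.l 7))) (.l 7)) (.l 7)))) (.b (.a (.b (.a (.b (.a (.l 11) .z) (.a .z (.a .z (.l 7)))) (.b (.a
(.a .z (.l 7)) (.l 7)) (.l 7))) (.l 7)) (.l 7)) (.l 7))) (.a (.b (.a (.b (.a (.b (.a .z (.l 7)) (.l 7)) (.l 7)) (.l 7)) (.l 7)) (.l 7)) (.l 7))) (.l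
7))))) (.b (.a (.b (.a (.b (.a (.l 11) (.b (.l 11) (.a (.l 11) (.b (.a (.l 11) (.b (.l 11) (.a (.l 11) .z))) (.a (.b (.a (.l 11) .z) .z) (.b (.a .z
(.a .z (.l 7))) (.l 7))))))) (.a (.b (.a (.l 11) (.b (.l 11) (.a (.l 11) (.b (.l 11) (.a (.l 11) .z))))) (.a (.b (.l 11) (.a (.l 11) (.b (.a (.l 11)
.z) .z))) (.b (.a (.b (.l 11) .z) (.b (.a .z (.a .z (.l 7))) (.a (.a .z (.l 7)) (.l 7)))) (.a (.b (.a .z (.l 7)) (.l 7)) (.l 7))))) (.b (.a (.b (.a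
(.l 11) (.b (.a (.l 11) .z) (.a .z (.a .z (.l 7))))) (.a (.b .z (.a .z (.l 7))) (.b (.a (.a .z (.l 7)) (.l 7)) (.l 7)))) (.b (.a (.b (.a .z (.l 7))
(.l 7)) (.l 7)) (.l 7))) (.l 7)))) (.b (.a (.b (.a (.b (.l 11) (.a (.b (.l 11) (.a (.l 11) .z)) (.b (.a (.l 11) .z) (.a .z (.a .z (.l 7)))))) (.b (.a
(.b (.a (.l 11) .z) .z) (.b (.a .z (.l 7)) (.l 7))) (.a (.b (.a (.a .z (.l 7)) (.l 7)) (.l 7)) (.l 7)))) (.a (.b (.a (.b .z (.a (.a .z (.l 7)) (.l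
7))) (.l 7)) (.l 7)) (.l 7))) (.l 7)) (.l 7))) (.a (.b (.a (.b (.a (.b (.a (.b .z (.a .z (.l 7))) (.b (.a (.a .z (.l 7)) (.l 7)) (.l 7))) (.l 7)) (.l
7)) (.l 7)) (.l 7)) (.l 7)) (.l 7))) (.l 7)) (.l 7))) (.l 7)) (.b (.b (.b (.a (.b (.a (.b (.l 11) (.a (.l 11) (.b (.l 11) (.a (.l 11) (.b (.l 11) (.a
(.l 11) (.b (.a (.l 11) .z) .z))))))) (.b (.a (.b (.l 11) (.a (.l 11) (.b (.l 11) (.a (.l 11) (.b (.l 11) (.a (.l 11) .z)))))) (.b (.a (.b (.l 11) (.a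
(.l 11) (.b (.l 11) (.a (.l 11) .z)))) (.b (.a (.b (.l 11) (.a (.l 11) .z)) (.b .z (.a .z (.l 7)))) (.a (.b .z (.a .z (.l 7))) (.l 7)))) (.a (.b (.a
(.b (.l 11) (.a (.l 11) .z)) (.b .z (.a .z (.l 7)))) (.a (.b .z (.a (.a .z (.l 7)) (.l 7))) (.l 7))) (.l 7)))) (.a (.b (.a (.b (.l 11) (.a (.l 11) (.b
(.l 11) (.a (.l 11) .z)))) (.b (.a (.b (.l 11) (.a (.l 11) .z)) (.b (.a .z (.a .z (.l 7))) (.a (.a .z (.l 7)) (.l 7)))) (.a (.b (.a .z (.a .z (.l 7)))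
(.a (.a .z (.l 7)) (.l 7))) (.l 7)))) (.a (.b (.a (.b (.l 11) .z) (.b (.a .z (.a .z (.l 7))) (.a (.a .z (.l 7)) (.l 7)))) (.a (.b (.a .z (.l 7)) (.l
7)) (.l 7))) (.l 7))) (.l 7)))) (.a (.b (.a (.b (.l 11) (.a (.l 11) (.b (.l 11) (.a (.b (.l 11) (.a (.l 11) .z)) (.b (.a (.l 11) .z) (.a .z (.a .z (.l
7)))))))) (.b (.a (.b (.l 11) (.a (.l 11) (.b (.a (.l 11) .z) .z))) (.b (.a (.b (.a (.l 11) .z) .z) (.b (.a .z (.l 7)) (.l 7))) (.a (.b (.a .z (.l 7))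
(.l 7)) (.l 7)))) (.a (.b (.a (.b (.a (.l 11) .z) (.a .z (.a .z (.l 7)))) (.b (.a (.a .z (.l 7)) (.l 7)) (.l 7))) (.a (.b (.a (.a .z (.l 7)) (.l 7))
(.l 7)) (.l 7))) (.l 7)))) (.a (.b (.a (.b (.a (.l 11) (.b (.l 11) (.a (.l 11) .z))) (.a (.b (.l 11) (.a (.l 11) .z)) (.b .z (.a .z (.l 7))))) (.b (.a
(.b .z (.a .z (.l 7))) (.l 7)) (.l 7))) (.a (.b (.a (.b (.a .z (.a .z (.l 7))) (.a (.a .z (.l 7)) (.l 7))) (.l 7)) (.l 7)) (.l 7))) (.l 7))) (.l 7)))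
(.l 7)) (.l 7)) (.l 7)) (.a (.l 7) (.b (.l 7) (.a (.b (.l 7) (.a (.l 7) (.b (.l 7) (.a (.l 7) (.b (.l 7) (.a (.l 7) (.b (.a (.l 7) (.b (.l 7) (.a (.l
7) .z))) (.a (.b (.a (.l 7) (.b (.l 7) .z)) (.a (.b (.l 7) .z) .z)) (.b (.a .z (.b .z (.l 8))) (.l 8)))))))))) (.b (.a (.b (.l 7) (.a (.l 7) (.b (.l
7) (.a (.l 7) (.b (.l 7) (.a (.l 7) (.b (.l 7) (.a (.l 7) .z)))))))) (.b (.a (.l 7) (.b (.a (.l 7) (.b (.a (.l 7) (.b (.l 7) (.a (.l 7) (.b (.l 7)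
.z)))) (.a (.b (.l 7) (.a (.l 7) (.b (.l 7) .z))) (.b (.a (.b (.l 7) .z) .z) (.a .z (.l 8)))))) (.a (.b (.a (.l 7) (.b (.l 7) (.a (.l 7) .z))) (.a (.b
(.a (.l 7) (.b (.l 7) .z)) (.a (.b (.l 7) .z) .z)) (.b (.a .z (.b .z (.l 8))) (.l 8)))) (.b (.a (.b (.a .z (.b .z (.l 8))) (.a (.b .z (.l 8)) (.l 8)))
(.l 8)) (.l 8))))) (.a (.b (.a (.b (.l 7) (.a (.l 7) (.b (.l 7) (.a (.l 7) (.b (.l 7) .z))))) (.b (.a (.l 7) (.b (.a (.l 7) (.b (.l 7) .z)) (.a .z (.b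
.z (.l 8))))) (.a (.b (.a (.l 7) .z) (.a .z (.b .z (.l 8)))) (.b (.a (.b .z (.l 8)) (.l 8)) (.l 8))))) (.a (.b (.a (.b (.l 7) (.a (.l 7) (.b (.l 7)
.z))) (.b (.a (.b (.l 7) .z) .z) (.a .z (.l 8)))) (.a (.b (.a .z (.b .z (.l 8))) (.a (.b .z (.l 8)) (.l 8))) (.l 8))) (.l 8))) (.b (.a (.b (.a (.b (.a
.z (.l 8)) (.l 8)) (.l 8)) (.l 8)) (.l 8)) (.l 8))))) (.a (.b (.a (.b (.l 7) (.a (.l 7) (.b (.l 7) (.a (.b (.l 7) (.a (.l 7) (.b (.l 7) .z))) (.b (.a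
(.l 7) .z) (.a .z (.b .z (.l 8)))))))) (.b (.a (.b (.l 7) (.a (.l 7) (.b (.a (.l 7) (.b (.l 7) .z)) (.a (.b (.l 7) .z) .z)))) (.b (.a (.b (.l 7) (.a
(.b (.l 7) .z) .z)) (.b (.a .z (.b .z (.l 8))) (.a (.b .z (.l 8)) (.l 8)))) (.a (.b (.a .z (.l 8)) (.l 8)) (.l 8)))) (.a (.b (.a (.b (.a (.l 7) .z)
(.a .z (.b .z (.l 8)))) (.b (.a (.b .z (.l 8)) (.l 8)) (.l 8))) (.a (.b (.a (.b .z (.l 8)) (.l 8)) (.l 8)) (.l 8))) (.l 8)))) (.a (.b (.a (.b (.a (.l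
7) (.b (.l 7) (.a (.l 7) (.b (.l 7) .z)))) (.a (.b (.l 7) (.a (.l 7) .z)) (.b (.a (.b (.l 7) .z) .z) (.a (.b .z (.l 8)) (.l 8))))) (.b (.a (.b (.a (.b
(.l 7) .z) .z) (.a .z (.l 8))) (.l 8)) (.l 8))) (.a (.b (.a (.b (.a .z (.b .z (.l 8))) (.a (.b .z (.l 8)) (.l 8))) (.l 8)) (.l 8)) (.l 8))) (.l 8)))
(.l 8))))))))

theorem vQ184 : ev Q184 I4_8 I4_12 = 3881676366350537 := by decide +kernel

noncomputable def Q28 : QT :=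
(.b (.a (.l 8) (.a (.l 8) (.b (.l 8) (.a (.l 8) (.b (.l 8) (.a (.l 8) (.b (.l 8) (.a (.l 8) (.b (.a (.l 8) (.b (.l 8) (.a (.l 8) (.b (.a (.l 8) (.a
(.l 8) .z)) .z)))) (.a (.b (.l 8) (.a (.b (.l 8) (.a (.l 8) (.a (.l 8) .z))) (.b (.a (.a (.l 8) .z) .z) (.a .z (.l 4))))) (.b (.a (.b (.a (.l 8) .z)
(.a .z (.a .z (.l 4)))) (.b (.a (.a .z (.l 4)) (.l 4)) (.l 4))) (.a (.b (.a (.a .z (.l 4)) (.l 4)) (.l 4)) (.l 4))))))))))))) (.a (.l 8) (.a (.b (.l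
8) (.a (.b (.l 8) (.b (.l 8) (.a (.l 8) (.a (.l 8) (.b (.l 8) (.a (.l 8) (.b (.a (.l 8) (.b (.l 8) (.a (.l 8) (.a (.l 8) .z)))) (.a (.b (.l 8) .z) (.b
.z (.a (.a .z (.l 4)) (.l 4))))))))))) (.b (.a (.l 8) (.b (.l 8) (.a (.b (.l 8) (.a (.l 8) (.b (.l 8) (.a (.l 8) (.b (.l 8) (.a (.l 8) (.a (.l 8)
.z))))))) (.b (.a (.l 8) (.b (.l 8) (.a (.l 8) (.b (.a (.l 8) (.a (.l 8) .z)) .z)))) (.a (.b (.a (.l 8) (.b (.l 8) (.a (.a (.l 8) .z) .z))) (.a (.b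
(.a (.l 8) .z) (.a .z (.a .z (.l 4)))) (.b (.a .z (.l 4)) (.l 4)))) (.b (.a (.b .z (.a (.a .z (.l 4)) (.l 4))) (.b (.a (.a .z (.l 4)) (.l 4)) (.l 4)))
(.l 4))))))) (.a (.b (.a (.l 8) (.b (.l 8) (.a (.b (.l 8) (.a (.l 8) (.b (.l 8) (.a (.a (.l 8) .z) .z)))) (.b (.a (.b (.l 8) (.a (.l 8) (.a (.l 8)
.z))) (.b (.a (.l 8) (.a (.l 8) .z)) .z)) (.a (.b .z (.a (.a .z (.l 4)) (.l 4))) (.l 4)))))) (.a (.b (.a (.b (.l 8) (.a (.l 8) (.b (.l 8) (.a (.l 8)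
(.a (.l 8) .z))))) (.b (.a (.l 8) (.b (.l 8) (.a (.l 8) .z))) (.a (.b (.a (.l 8) .z) (.a .z (.a .z (.l 4)))) (.b (.a .z (.a .z (.l 4))) (.l 4))))) (.a
(.b (.a (.b (.a (.l 8) (.a (.l 8) .z)) .z) (.b .z (.l 4))) (.l 4)) (.l 4))) (.b (.a (.b (.a (.b (.a (.a (.l 8) .z) .z) (.a .z (.l 4))) (.b (.a .z (.l
4)) (.l 4))) (.l 4)) (.l 4)) (.l 4)))) (.b (.a (.b (.a (.b (.l 8) (.a (.b (.l 8) (.a (.l 8) .z)) (.b (.a (.a (.l 8) .z) .z) (.a .z (.l 4))))) (.b (.a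
(.b (.l 8) (.a (.a (.l 8) .z) .z)) (.b .z (.a (.a .z (.l 4)) (.l 4)))) (.a (.b (.a .z (.l 4)) (.l 4)) (.l 4)))) (.a (.b (.a (.b (.a .z (.a .z (.l 4)))
(.l 4)) (.l 4)) (.l 4)) (.l 4))) (.l 4)) (.l 4)))))) (.b (.a (.b (.l 8) (.a (.b (.l 8) (.a (.l 8) (.b (.l 8) (.a (.l 8) (.b (.l 8) (.a (.l 8) (.b (.l
8) (.a (.l 8) (.a (.l 8) .z))))))))) (.b (.a (.l 8) (.b (.l 8) (.a (.b (.l 8) (.a (.l 8) (.b (.l 8) (.a (.a (.l 8) .z) .z)))) (.b (.a (.b (.l 8) (.a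
(.l 8) (.a (.l 8) .z))) (.b (.a (.l 8) .z) (.a .z (.a .z (.l 4))))) (.a (.b .z (.a (.a .z (.l 4)) (.l 4))) (.l 4)))))) (.a (.b (.a (.l 8) (.b (.l 8)
(.a (.b (.l 8) (.a (.l 8) .z)) (.b (.a (.a (.l 8) .z) .z) (.a .z (.l 4)))))) (.a (.b (.a (.l 8) (.b (.l 8) (.a (.a (.l 8) .z) .z))) (.a (.b (.a (.l 8)
.z) (.a .z (.a .z (.l 4)))) (.b (.a .z (.l 4)) (.l 4)))) (.b (.a (.b (.a .z (.a .z (.l 4))) (.a (.a .z (.l 4)) (.l 4))) (.l 4)) (.l 4)))) (.b (.a (.b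
(.a (.b (.a (.l 8) (.a (.l 8) .z)) .z) (.b (.a .z (.l 4)) (.l 4))) (.a (.b (.a (.a .z (.l 4)) (.l 4)) (.l 4)) (.l 4))) (.l 4)) (.l 4)))))) (.b (.a (.b
(.a (.l 8) (.b (.l 8) (.a (.l 8) (.b (.l 8) (.a (.l 8) (.b (.l 8) (.a (.l 8) (.a (.l 8) .z)))))))) (.a (.b (.l 8) (.a (.l 8) (.b (.l 8) (.a (.b (.l 8)
(.a (.l 8) (.a (.l 8) .z))) (.b (.a (.a (.l 8) .z) .z) (.a .z (.l 4))))))) (.b (.a (.b (.l 8) (.a (.l 8) (.b (.l 8) (.a (.a (.l 8) .z) .z)))) (.b (.a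
(.b (.l 8) (.a (.l 8) .z)) (.b (.a (.a (.l 8) .z) .z) (.a .z (.l 4)))) (.a (.b (.a .z (.a .z (.l 4))) (.a (.a .z (.l 4)) (.l 4))) (.l 4)))) (.a (.b
(.a (.b (.a (.l 8) .z) (.a .z (.a .z (.l 4)))) (.b (.a .z (.l 4)) (.l 4))) (.a (.b (.a (.a .z (.l 4)) (.l 4)) (.l 4)) (.l 4))) (.l 4))))) (.b (.a (.b
(.a (.l 8) (.b (.a (.l 8) (.b (.l 8) (.a (.l 8) .z))) (.a (.b (.l 8) (.a (.a (.l 8) .z) .z)) (.b (.a .z (.a .z (.l 4))) (.a (.a .z (.l 4)) (.l 4))))))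
(.a (.b (.a (.l 8) (.b (.a (.l 8) (.a (.l 8) .z)) .z)) (.a (.b (.a (.l 8) .z) (.a .z (.a .z (.l 4)))) (.b (.a (.a .z (.l 4)) (.l 4)) (.l 4)))) (.b (.a
(.b (.a .z (.l 4)) (.l 4)) (.l 4)) (.l 4)))) (.b (.a (.b (.a (.b .z (.a (.a .z (.l 4)) (.l 4))) (.l 4)) (.l 4)) (.l 4)) (.l 4))) (.l 4))) (.a (.b (.a
(.b (.a (.b (.a (.l 8) (.b (.l 8) (.a (.a (.l 8) .z) .z))) (.a (.b (.a (.l 8) (.a (.l 8) .z)) .z) (.b (.a .z (.l 4)) (.l 4)))) (.b (.a (.b .z (.a (.a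
.z (.l 4)) (.l 4))) (.l 4)) (.l 4))) (.a (.b (.a (.b (.a (.a .z (.l 4)) (.l 4)) (.l 4)) (.l 4)) (.l 4)) (.l 4))) (.l 4)) (.l 4)) (.l 4)))) (.a (.b (.a
(.b (.a (.b (.l 8) (.a (.l 8) (.b (.a (.l 8) (.b (.l 8) (.a (.l 8) .z))) (.a (.b (.a (.l 8) (.a (.l 8) .z)) .z) (.b (.a .z (.a .z (.l 4))) (.l 4))))))
(.b (.a (.b (.l 8) (.a (.l 8) (.b (.a (.l 8) (.a (.l 8) .z)) .z))) (.b (.a (.b (.l 8) (.a (.a (.l 8) .z) .z)) (.b .z (.a (.a .z (.l 4)) (.l 4)))) (.a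
(.b (.a .z (.l 4)) (.l 4)) (.l 4)))) (.a (.b (.a (.b (.a (.a (.l 8) .z) .z) (.a .z (.l 4))) (.b (.a (.a .z (.l 4)) (.l 4)) (.l 4))) (.l 4)) (.l 4))))
(.a (.b (.a (.b (.a (.b (.l 8) (.a (.l 8) .z)) (.b (.a (.a (.l 8) .z) .z) (.a .z (.l 4)))) (.a (.b (.a .z (.a .z (.l 4))) (.l 4)) (.l 4))) (.b (.a (.b
(.a (.a .z (.l 4)) (.l 4)) (.l 4)) (.l 4)) (.l 4))) (.l 4)) (.l 4))) (.l 4)) (.l 4)) (.l 4))))))

theorem vQ28 : ev Q28 I3_0 I5_20 = 3890200706100737 := by decide +kernel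

end Pool.Agent.Helper64.SPW.Dat
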