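import Pool.Agent.Helper64.SPW.Iv

/-! Boxes of traces, part 4 (data and kernel evaluation). -/

set_option maxRecDepth 1000000
set_option maxHeartbeats 0

namespace Pool.Agent.Helper64.SPW.Dat

noncomputable def Q73 : QT :=
(.b (.b (.a (.a (.a (.a (.b (.a (.l 75) (.b (.a (.b (.a (.l 75) .z) (.l 75)) (.b (.a .z (.b (.l 34) .z)) (.a (.l 75) .z))) (.l 75))) (.b (.l 75) (.b
(.b (.b (.l 75) .z) .z) (.a (.b .z (.l 258)) .z)))) (.b (.a (.b (.a (.b (.l 34) (.a (.b (.l 34) .z) (.l 34))) (.l 34)) (.a (.b .z (.a (.l 75) .z)) (.b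
(.l 34) (.a .z (.b (.l 34) .z))))) (.l 34)) (.a (.b (.a (.l 75) (.b (.a (.l 75) .z) (.l 75))) (.b (.b (.b (.l 75) .z) .z) .z)) (.b (.a (.b (.a (.b (.l
34) .z) (.l 34)) (.a .z (.b (.l 34) .z))) (.l 34)) (.a (.b .z (.b .z (.l 102))) (.b (.a .z (.l 34)) .z)))))) (.l 34)) (.l 34)) (.a (.a (.l 34) (.a (.l
34) (.b (.a (.b (.a (.b (.a (.l 34) (.b .z (.l 34))) (.l 34)) (.b .z (.a (.l 34) (.b .z (.l 34))))) (.l 34)) (.b (.a (.b (.l 76) (.a .z (.l 76))) (.l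
76)) (.a (.b (.a (.b .z (.l 34)) .z) (.l 34)) (.b (.a .z (.l 76)) (.a (.b .z (.l 34)) .z))))) (.a (.l 34) (.b (.a (.l 34) (.b (.a (.l 34) (.b .z (.l
34))) (.l 34))) (.l 34)))))) (.b (.a (.a (.a (.l 76) (.a (.l 76) (.a (.a (.b (.l 76) .z) .z) .z))) (.a (.b (.l 290) (.a (.l 290) .z)) (.b (.a .z (.b
.z (.a .z (.l 46)))) (.a (.b (.a .z (.b .z (.l 46))) (.a (.b .z (.l 46)) (.l 46))) (.l 46))))) (.a (.a (.b (.a (.b (.a (.b .z (.l 46)) (.l 46)) (.l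
46)) (.l 46)) (.l 46)) (.l 46)) (.l 46))) (.a (.b (.a (.a (.a (.b .z (.a (.l 34) .z)) (.b (.l 76) (.a .z (.l 76)))) (.a (.a (.l 76) (.a (.l 76) .z))
.z)) (.a (.a (.b .z (.a .z (.b .z (.l 46)))) (.b (.a (.b .z (.l 46)) (.l 46)) (.l 46))) (.l 46))) (.a (.b (.a (.a (.l 34) (.a (.b .z (.l 34)) .z)) (.a
(.a (.l 76) .z) .z)) (.a (.a (.l 34) (.a (.l 34) (.b .z (.l 34)))) (.b (.a .z (.a .z (.l 46))) (.a .z (.b .z (.a .z (.b .z (.l 10)))))))) (.b (.a (.l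
46) (.b (.l 46) (.a (.b (.l 46) .z) (.b .z (.a .z (.l 10)))))) (.a (.b (.a (.b (.l 46) .z) (.b .z (.a .z (.b .z (.l 10))))) (.a (.b (.a .z (.b .z (.l
10))) (.l 10)) (.l 10))) (.b (.a (.b (.a .z (.b .z (.l 10))) (.l 10)) (.l 10)) (.l 10)))))) (.b (.a (.b (.l 46) (.a (.l 46) (.b (.l 46) (.a (.b (.l
46) .z) (.b .z (.a (.b .z (.l 10)) (.l 10))))))) (.b (.a (.b (.l 46) (.a (.l 46) (.b (.l 46) .z))) (.b (.a (.l 46) (.b (.l 46) .z)) (.a (.b .z (.a .z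
(.b .z (.l 10)))) (.b (.a .z (.b .z (.l 10))) (.l 10))))) (.a (.b (.a .z (.b (.a .z (.b .z (.l 10))) (.l 10))) (.a (.b (.a (.b .z (.l 10)) (.l 10))
(.l 10)) (.l 10))) (.l 10)))) (.a (.b (.a (.b (.a (.b (.l 46) .z) (.b .z (.a (.b .z (.l 10)) (.l 10)))) (.a (.b (.a (.b .z (.l 10)) (.l 10)) (.l 10))
(.l 10))) (.b (.a (.b (.a (.b .z (.l 10)) (.l 10)) (.l 10)) (.l 10)) (.l 10))) (.l 10)) (.l 10))))))) (.a (.b (.a (.a (.a (.b .z (.a .z (.b (.a .z (.b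
.z (.l 88))) (.a (.b .z (.l 88)) (.l 88))))) (.a (.b (.b (.a .z (.b .z (.l 102))) (.a (.b .z (.l 102)) (.l 102))) (.b (.a .z (.b (.l 102) .z)) (.a (.l
88) .z))) (.b (.a (.l 102) (.b (.a (.l 102) .z) (.l 102))) (.b (.l 102) (.a (.b (.l 102) .z) (.l 102)))))) (.a (.a (.b (.a (.b (.a .z (.b (.l 34) .z))
(.a (.l 102) .z)) (.b (.l 34) (.a (.b (.l 34) .z) (.l 34)))) (.a (.l 102) (.b (.a .z (.b (.l 34) .z)) (.a (.l 102) .z)))) (.b (.l 34) (.a (.b (.l 34)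
(.a (.b (.l 34) .z) (.l 34))) (.l 34)))) (.l 34))) (.l 34)) (.a (.a (.a (.b (.a (.b (.a .z (.b .z (.l 88))) (.a (.b .z (.l 88)) (.l 88))) (.l 88)) (.l
88)) (.b (.a (.l 88) (.b (.a (.b .z (.l 88)) .z) (.a (.l 88) (.b .z (.l 88))))) (.l 88))) (.a (.a (.b (.b (.l 102) (.a .z (.b (.l 102) .z))) (.b (.a
(.l 88) .z) (.l 88))) (.b (.a (.b (.a .z (.b (.l 34) .z)) (.a (.l 102) .z)) (.b (.l 34) (.a (.b (.l 34) .z) (.l 34)))) (.a (.b (.b (.l 102) .z) .z)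
(.b (.a .z (.b (.l 34) .z)) .z)))) (.a (.a (.b (.l 34) (.a (.b (.l 34) (.a .z (.l 34))) (.l 34))) (.l 34)) (.l 34)))) (.b (.a (.l 34) (.b (.a (.l 34)
(.b (.l 34) (.a (.l 34) (.b (.a (.l 34) .z) (.a .z (.b .z (.a .z (.l 10)))))))) (.a (.b (.l 34) (.a (.l 34) (.b (.a (.l 34) .z) (.a .z (.b .z (.a .z
(.l 10))))))) (.b (.a (.b (.a (.l 34) .z) (.a .z (.b .z (.a .z (.l 10))))) (.b (.a (.b .z (.a .z (.l 10))) (.l 10)) (.l 10))) (.a (.b (.a (.b .z (.a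
.z (.l 10))) (.l 10)) (.l 10)) (.l 10)))))) (.a (.b (.a (.l 34) (.b (.l 34) (.a (.l 34) (.b (.a (.l 34) .z) (.a .z (.b (.a .z (.l 10)) (.l 10)))))))
(.a (.b (.a (.l 34) (.b (.l 34) (.a (.l 34) .z))) (.a (.b (.l 34) (.a (.l 34) .z)) (.b (.a .z (.b .z (.a .z (.l 10)))) (.a (.b .z (.a .z (.l 10))) (.l
10))))) (.b (.a (.b .z (.a (.b .z (.a .z (.l 10))) (.l 10))) (.b (.a (.b (.a .z (.l 10)) (.l 10)) (.l 10)) (.l 10))) (.l 10)))) (.b (.a (.b (.a (.b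
(.a (.l 34) .z) (.a .z (.b (.a .z (.l 10)) (.l 10)))) (.b (.a (.b (.a .z (.l 10)) (.l 10)) (.l 10)) (.l 10))) (.a (.b (.a (.b (.a .z (.l 10)) (.l 10))
(.l 10)) (.l 10)) (.l 10))) (.l 10)) (.l 10)))))) (.a (.b (.b (.a (.l 34) (.a (.b (.l 34) (.a (.l 34) (.b (.l 34) (.a (.l 34) (.b (.l 34) .z))))) (.b
(.a (.l 34) (.b (.l 34) (.a (.b (.l 34) .z) (.b .z (.a .z (.b .z (.l 10))))))) (.a (.b (.a (.l 34) (.b (.l 34) .z)) (.a (.b .z (.a (.b .z (.l 10)) (.l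
10))) (.b (.a (.b .z (.l 10)) (.l 10)) (.l 10)))) (.b (.a (.b (.a .z (.b .z (.l 10))) (.a (.b .z (.l 10)) (.l 10))) (.l 10)) (.l 10)))))) (.a (.b (.a
(.l 34) (.b (.l 34) (.a (.l 34) (.b (.l 34) (.a (.l 34) .z))))) (.a (.b (.l 34) (.a (.l 34) (.b (.l 34) (.a .z (.b .z (.a .z (.l 10))))))) (.b (.a (.b
(.l 34) (.a (.l 34) .z)) (.b (.a .z (.b (.a .z (.l 10)) (.l 10))) (.a (.b (.a .z (.l 10)) (.l 10)) (.l 10)))) (.a (.b (.a .z (.b (.a .z (.l 10)) (.l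
10))) (.a (.b (.a .z (.l 10)) (.l 10)) (.l 10))) (.l 10))))) (.a (.b (.a (.b (.a (.l 34) (.b (.l 34) .z)) (.b (.a .z (.a (.b .z (.l 10)) (.l 10))) (.a
(.b (.a .z (.l 10)) (.l 10)) (.l 10)))) (.b (.a (.b .z (.a (.b .z (.l 10)) (.l 10))) (.b (.a (.b .z (.l 10)) (.l 10)) (.l 10))) (.l 10))) (.l 10)) (.l
10)))) (.b (.a (.b (.a (.b (.a (.b (.a (.l 34) .z) (.a .z (.b .z (.a .z (.l 10))))) (.b (.a (.b .z (.a .z (.l 10))) (.l 10)) (.l 10))) (.a (.b (.a (.b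
.z (.a .z (.l 10))) (.l 10)) (.l 10)) (.l 10))) (.l 10)) (.l 10)) (.l 10)) (.l 10))) (.b (.a (.b (.a (.b (.a (.b (.a (.b (.l 34) .z) (.b .z (.a .z (.b
.z (.l 10))))) (.a (.b (.a .z (.b .z (.l 10))) (.l 10)) (.l 10))) (.b (.a (.b (.a .z (.b .z (.l 10))) (.l 10)) (.l 10)) (.l 10))) (.l 10)) (.l 10))
(.l 10)) (.l 10)) (.l 10))))) (.b (.a (.b (.a (.b (.a (.l 88) (.b (.a (.a (.l 88) (.a (.l 88) (.b .z (.l 88)))) (.b (.a (.a (.a .z (.l 34)) (.l 34))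
(.b (.l 34) (.a (.l 34) .z))) (.a (.b (.a .z (.l 34)) (.a .z (.b .z (.a .z (.l 10))))) (.b (.a .z (.b (.a .z (.l 10)) (.l 10))) (.a (.b (.a .z (.l
10)) (.l 10)) (.l 10)))))) (.a (.b (.a (.l 88) (.b .z (.a .z (.b .z (.a .z (.l 10)))))) (.a (.b .z (.a .z (.b (.a .z (.l 10)) (.l 10)))) (.b (.a (.b
(.a .z (.l 10)) (.l 10)) (.l 10)) (.l 10)))) (.b (.a (.b (.a (.b .z (.a .z (.l 10))) (.l 10)) (.l 10)) (.l 10)) (.l 10))))) (.a (.b (.a (.b (.l 88)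
(.a (.l 88) (.b (.l 88) .z))) (.b (.a (.b (.l 88) .z) (.b (.a .z (.b .z (.a .z (.l 10)))) (.a (.b .z (.a .z (.l 10))) (.l 10)))) (.a (.b (.a .z (.b .z
(.l 10))) (.a (.b (.a .z (.l 10)) (.l 10)) (.l 10))) (.l 10)))) (.a (.b (.a (.b .z (.a .z (.b .z (.a .z (.l 10))))) (.b (.a (.b .z (.a .z (.l 10)))
(.b (.a .z (.l 10)) (.l 10))) (.l 10))) (.a (.b (.a (.b (.a .z (.l 10)) (.l 10)) (.l 10)) (.l 10)) (.l 10))) (.l 10))) (.b (.a (.b (.a (.b (.a (.b (.a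
.z (.l 10)) (.l 10)) (.l 10)) (.l 10)) (.l 10)) (.l 10)) (.l 10)) (.l 10)))) (.b (.a (.b (.a (.b (.a (.b (.a .z (.b .z (.l 10))) (.a (.b (.a .z (.l
10)) (.l 10)) (.l 10))) (.l 10)) (.l 10)) (.l 10)) (.l 10)) (.l 10)) (.l 10))) (.l 10)) (.l 10)) (.l 10)))

theorem vQ73 : ev Q73 I4_2 I4_7 = 3711087752520999 := by decide +kernel

noncomputable def Q33 : QT :=
(.a (.b (.b (.b (.a (.l 37) (.b (.a (.b (.a (.b (.a (.l 37) .z) (.l 37)) (.b (.a .z (.l 49)) .z)) (.a (.l 37) (.b (.a (.l 37) .z) (.l 37)))) (.b (.l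
49) (.a (.b (.a .z (.l 49)) .z) (.l 49)))) (.a (.l 37) (.b (.a (.b (.a (.l 37) .z) (.l 37)) (.b (.a .z (.l 49)) .z)) (.a (.l 37) (.b (.a (.l 37) .z)
(.l 37))))))) (.a (.l 37) (.a (.l 37) (.a (.l 37) (.a (.l 37) (.b (.l 37) (.a (.l 37) (.b (.l 37) .z)))))))) (.a (.b (.l 37) (.a (.b (.l 37) (.a (.b
(.l 37) (.a .z (.l 37))) (.l 37))) (.l 37))) (.a (.l 37) (.a (.b (.a (.l 37) (.b (.l 37) (.a (.l 37) (.b (.l 37) .z)))) (.a (.b (.l 37) (.a (.b (.l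
37) .z) .z)) (.b (.a (.b (.l 37) .z) .z) (.a (.b .z (.l 51)) (.l 51))))) (.b (.a (.b (.a (.l 37) (.b (.l 37) .z)) (.a .z (.b .z (.l 51)))) (.b (.a .z
(.b .z (.l 51))) (.l 51))) (.l 51)))))) (.b (.a (.b (.a (.b (.a (.b (.a (.b (.a (.l 12) .z) (.l 12)) (.b .z (.a (.b .z (.l 12)) .z))) (.a (.l 12) (.b
(.a (.l 12) (.b .z (.l 12))) (.l 12)))) (.b (.l 37) (.a (.b .z (.a (.b .z (.l 12)) .z)) (.l 37)))) (.a (.l 12) (.b (.a (.b (.a (.l 12) (.b .z (.l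
12))) (.l 12)) (.b .z (.a (.b .z (.l 12)) .z))) (.l 12)))) (.b (.l 37) (.a (.b (.a (.b (.l 37) .z) (.l 37)) (.a (.b .z (.a (.l 12) .z)) (.b (.l 37)
.z))) (.l 37)))) (.a (.l 12) (.b (.a (.b (.a (.l 12) (.b .z (.a (.l 12) .z))) (.l 12)) (.b (.a (.b (.l 37) .z) (.l 37)) (.a (.b .z (.a (.l 12) .z))
(.b (.l 37) .z)))) (.a (.l 12) (.b (.a (.l 12) (.b .z (.a (.l 12) .z))) (.l 12)))))) (.a (.b (.a (.l 37) (.a (.b (.l 37) (.a (.l 37) (.b (.l 37) .z)))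
(.b (.a (.l 37) .z) (.a .z (.b .z (.l 51)))))) (.a (.b (.a (.l 37) (.a (.l 37) (.b (.l 37) .z))) (.b (.a (.b (.l 37) .z) (.a (.l 37) .z)) (.a (.b .z
(.a (.l 12) .z)) .z))) (.b (.a (.a .z (.b .z (.l 51))) (.b (.l 51) .z)) (.a .z (.b .z (.b .z (.l 58))))))) (.b (.a (.b (.a (.a (.b .z (.l 51)) (.l
51)) (.l 51)) (.a (.l 51) (.b (.l 51) .z))) (.b (.a (.l 51) (.b (.a (.l 51) .z) .z)) .z)) (.a (.b .z (.b (.b .z (.a .z (.l 58))) (.l 58))) (.b (.b (.l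
153) .z) (.l 58)))))) (.a (.l 12) (.a (.b (.a (.b (.a (.l 12) (.b (.a (.b .z (.l 12)) .z) (.l 12))) (.l 12)) (.b (.a (.b (.a .z (.l 58)) (.a (.b .z
(.l 12)) .z)) (.b (.l 58) (.a .z (.l 58)))) (.a (.l 12) (.b (.a (.b .z (.l 12)) .z) (.l 12))))) (.l 12)) (.b (.a (.b (.l 58) (.a (.b (.a .z (.l 58))
(.a (.b .z (.l 12)) .z)) (.b (.l 58) (.a .z (.l 58))))) (.l 58)) (.a (.b (.a (.l 12) (.b (.a (.b .z (.l 12)) .z) (.l 12))) (.l 12)) (.b (.a (.b (.a .z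
(.l 58)) (.a (.b .z (.a (.l 12) .z)) .z)) (.l 58)) (.a (.b (.a (.l 12) (.b (.a (.l 12) .z) (.l 12))) (.l 12)) (.b (.a (.b .z (.a (.l 12) .z)) .z) (.a
(.l 12) (.b (.a (.l 12) .z) (.l 12)))))))))))) (.b (.b (.a (.b (.b (.l 49) (.a (.b (.l 49) (.a (.b (.a .z (.l 49)) .z) (.l 49))) (.l 49))) (.a (.b (.b
(.a (.b (.a (.l 37) .z) .z) (.b (.a .z (.l 49)) .z)) (.a (.a .z (.l 51)) (.a (.l 51) (.b .z (.l 51))))) (.a (.a (.a .z (.l 51)) (.l 51)) (.l 51))) (.b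
(.a (.b (.l 49) (.a .z (.b (.l 49) .z))) (.l 49)) (.a (.b (.a (.l 51) (.b .z (.l 51))) (.l 51)) (.b (.a .z (.b (.l 49) .z)) (.a (.l 51) (.b .z (.l
51)))))))) (.b (.a (.l 49) (.a (.b (.l 49) (.a (.b (.l 49) .z) (.b .z (.a .z (.l 56))))) (.b (.a (.b (.l 49) .z) (.b .z (.a .z (.l 56)))) (.a (.b (.a
.z (.l 56)) (.l 56)) (.l 56))))) (.a (.b (.a (.l 49) (.a (.b (.l 49) .z) (.b .z (.a .z (.l 56))))) (.a (.b (.a (.l 49) .z) .z) (.a (.b (.a .z (.l 56))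
(.l 56)) (.l 56)))) (.a (.b (.a (.b (.a .z (.l 56)) (.l 56)) (.l 56)) (.l 56)) (.l 56))))) (.a (.a (.b (.l 51) (.a (.b (.l 51) (.a (.b (.l 51) (.a (.l
51) .z)) (.b (.a (.l 51) .z) .z))) (.b (.a (.b (.l 51) (.a (.l 51) .z)) (.b (.a (.l 51) .z) .z)) (.a .z (.l 153))))) (.b (.a (.b (.l 51) (.a (.b (.l
51) (.a (.l 51) .z)) (.b (.a (.l 51) .z) .z))) (.b (.a (.b (.l 51) (.a (.l 51) .z)) (.b (.a (.l 51) .z) .z)) (.a (.b .z (.l 125)) (.l 125)))) (.a (.b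
.z (.l 153)) (.b (.b (.l 125) (.a .z (.l 125))) (.b .z (.l 153)))))) (.b (.a (.b (.a (.b .z (.l 125)) (.b (.a .z (.b (.l 56) .z)) (.a (.l 125) .z)))
(.l 125)) (.b (.a (.b (.l 56) (.a .z (.b (.l 56) .z))) (.l 56)) (.a (.b (.a (.l 125) .z) (.l 125)) (.b (.a .z (.b (.l 56) .z)) (.a (.l 125) .z)))))
(.b (.a (.l 125) (.b (.l 125) (.a (.l 125) (.b (.l 125) .z)))) (.a (.b (.a (.a .z (.l 125)) (.l 125)) (.a .z (.b (.l 125) .z))) (.b (.a (.b (.l 125)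
.z) (.b .z (.a .z (.l 58)))) (.a (.b .z (.a .z (.l 58))) (.l 58)))))))) (.a (.b (.a (.b (.a (.b (.a .z (.l 153)) (.l 153)) (.b (.l 153) (.b (.l 153)
.z))) (.b (.b (.a .z (.b (.a .z (.l 58)) (.l 58))) (.a (.b (.a .z (.l 58)) (.l 58)) (.l 58))) (.l 58))) (.b (.b (.b (.l 153) (.a (.l 153) .z)) (.b (.a
.z (.b .z (.a .z (.l 58)))) (.a (.b (.a .z (.l 58)) (.l 58)) (.l 58)))) (.l 58))) (.a (.b (.l 58) (.a (.b (.l 58) (.a (.b (.l 58) (.a (.b .z (.a (.l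
12) .z)) .z)) (.l 58))) (.l 58))) (.l 58))) (.b (.b (.b (.a (.b (.a .z (.b .z (.a .z (.l 58)))) (.a (.b .z (.a .z (.l 58))) (.l 58))) (.l 58)) (.l
58)) (.l 58)) (.l 58)))))

theorem vQ33 : ev Q33 I5_3 I5_22 = 845904907475537 := by decide +kernel

noncomputable def Q13 : QT :=
(.b (.a (.b (.a (.b (.a (.b (.a (.b (.l 138) .z) (.l 138)) .z) (.b .z (.a (.a (.l 138) .z) (.l 114)))) (.a (.b (.a .z (.b .z (.l 172))) .z) (.b (.a .z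
(.b (.l 114) (.a .z (.l 114)))) .z))) (.a (.b (.b .z (.a (.b .z (.a (.l 114) .z)) .z)) (.b (.a (.l 114) (.b (.a (.l 114) .z) (.l 114))) (.a (.b (.l
114) .z) (.l 114)))) (.b .z (.a (.b .z (.a .z (.b .z (.l 86)))) (.b (.a .z (.b .z (.l 86))) (.l 86)))))) (.a (.a .z (.b (.b (.a (.b (.l 236) .z) (.l
236)) .z) (.a .z (.b .z (.a (.b .z (.l 86)) (.l 86)))))) (.b (.a (.a (.b (.b .z (.l 236)) .z) (.b .z (.a (.b .z (.l 86)) (.l 86)))) (.a (.b (.a (.b .z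
(.l 86)) (.l 86)) (.l 86)) (.l 86))) (.a (.a (.b (.a (.b .z (.l 86)) (.l 86)) (.l 86)) (.l 86)) (.b (.l 86) (.a (.l 86) (.b (.l 86) (.a (.l 86)
.z)))))))) (.a (.b (.b (.a (.a (.b .z (.a .z (.b .z (.l 86)))) (.b (.a .z (.b .z (.l 86))) (.l 86))) (.l 86)) (.a (.l 86) (.a (.l 86) (.b (.l 86) (.a
(.l 86) (.b (.l 86) .z)))))) (.a (.b (.b (.l 86) (.a (.l 86) (.a (.l 86) (.b (.l 86) .z)))) (.a (.b (.b (.l 86) (.a (.l 86) .z)) (.a (.b .z (.a (.b .z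
(.l 20)) (.l 20))) (.b (.a (.b .z (.l 20)) (.l 20)) (.l 20)))) (.b (.a (.b .z (.a (.b .z (.l 20)) (.l 20))) (.b (.a (.b .z (.l 20)) (.l 20)) (.l 20)))
(.l 20)))) (.b (.a (.b (.a (.l 86) (.b (.l 86) .z)) (.a (.b .z (.a (.b .z (.l 20)) (.l 20))) (.b (.a (.b .z (.l 20)) (.l 20)) (.l 20)))) (.b (.a (.b
.z (.a (.b .z (.l 20)) (.l 20))) (.b (.a (.b .z (.l 20)) (.l 20)) (.l 20))) (.l 20))) (.l 20)))) (.b (.a (.b (.a (.a (.a (.l 86) (.a (.l 86) .z)) (.a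
(.a .z (.b .z (.l 44))) (.l 44))) (.b (.l 44) (.a (.l 44) (.b (.l 44) .z)))) (.a (.b (.a (.a (.l 86) .z) (.b (.l 44) .z)) (.a (.b .z (.a (.b .z (.l
20)) (.l 20))) (.b (.a (.b .z (.l 20)) (.l 20)) (.l 20)))) (.b (.a (.b .z (.a (.b .z (.l 20)) (.l 20))) (.b (.a (.b .z (.l 20)) (.l 20)) (.l 20))) (.l
20)))) (.b (.a (.b (.a (.l 44) (.b (.l 44) .z)) (.a (.b .z (.a (.b .z (.l 20)) (.l 20))) (.b (.a (.b .z (.l 20)) (.l 20)) (.l 20)))) (.b (.a (.b .z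
(.a (.b .z (.l 20)) (.l 20))) (.b (.a (.b .z (.l 20)) (.l 20)) (.l 20))) (.l 20))) (.l 20))) (.l 20)))) (.a (.b (.a (.b (.a .z (.a .z (.b (.a .z (.b
(.l 86) .z)) .z))) (.a (.a (.b (.a (.b .z (.a (.l 53) .z)) .z) (.a (.l 53) (.b .z (.l 53)))) .z) .z)) (.b (.a (.b (.l 86) (.a (.a .z (.b (.l 86) .z))
(.b (.l 86) (.a (.l 86) .z)))) (.b (.a (.b (.l 86) (.a (.l 86) .z)) (.b (.a .z (.b (.a .z (.l 20)) (.l 20))) (.a (.b (.a .z (.l 20)) (.l 20)) (.l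
20)))) (.a (.b (.a .z (.b (.a .z (.l 20)) (.l 20))) (.a (.b (.a .z (.l 20)) (.l 20)) (.l 20))) (.l 20)))) (.a (.b (.a .z (.b (.a .z (.b (.a .z (.l
20)) (.l 20))) (.a .z (.b (.b (.l 20) .z) (.l 37))))) (.a (.b .z (.a .z (.l 110))) (.a (.b .z (.l 110)) (.b (.a .z (.l 37)) .z)))) (.a (.b (.b (.l 20)
(.b (.b (.l 20) .z) (.b .z (.l 37)))) (.a (.b (.l 37) (.a .z (.l 37))) (.l 37))) (.b (.b (.l 20) (.b (.l 20) (.b .z (.l 37)))) (.l 37)))))) (.a (.b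
(.a (.b (.a (.l 53) (.a (.b (.a (.l 53) .z) (.l 53)) (.b .z (.a (.l 53) .z)))) (.a (.l 53) (.b (.l 53) (.a (.l 53) .z)))) (.b (.a .z (.b .z (.a .z (.l
110)))) (.a (.b .z (.a .z (.l 110))) (.l 110)))) (.a (.b (.a (.b (.l 53) (.a (.b (.l 53) .z) .z)) (.b .z (.a .z (.l 110)))) (.a .z (.b (.b (.l 110)
.z) .z))) (.b (.a (.l 110) (.b (.l 110) (.a (.l 110) .z))) (.a .z (.b .z (.l 66)))))) (.a (.b (.b (.a (.l 110) (.b (.l 110) (.a (.l 110) .z))) (.a (.b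
(.l 110) (.a (.l 110) .z)) (.b .z (.a .z (.l 66))))) (.b (.a (.b .z (.a .z (.l 66))) (.l 66)) (.l 66))) (.b (.a (.b (.a .z (.b (.l 37) .z)) (.a (.l
66) (.b .z (.l 66)))) (.b (.l 37) (.a (.b (.a .z (.l 37)) .z) (.l 37)))) (.a (.b (.l 66) (.b (.a (.l 66) .z) (.a .z (.b .z (.l 41))))) (.b .z (.b (.a
(.b .z (.l 41)) (.l 41)) (.l 41)))))))) (.a (.b (.b (.l 20) (.b (.b (.l 20) (.b (.l 20) (.a (.b (.a .z (.l 20)) .z) (.b (.l 20) (.a (.a .z (.l 20))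
(.l 20)))))) (.b (.b (.a (.l 37) (.b .z (.a (.l 37) .z))) (.l 37)) (.l 37)))) (.a (.b (.l 37) (.a (.b (.a (.b (.l 37) (.a .z (.l 37))) (.l 37)) (.a
(.b .z (.a (.l 41) .z)) (.b (.l 37) .z))) (.l 37))) (.l 37))) (.b (.b (.l 20) (.b (.l 20) (.b (.b (.a (.b (.l 20) (.a .z (.a .z (.l 20)))) (.l 20))
(.a (.b (.a (.l 37) .z) (.l 37)) (.b (.a (.a .z (.l 20)) (.l 20)) .z))) (.b (.a (.l 37) (.b (.a (.l 37) .z) (.l 37))) (.l 37))))) (.l 37)))))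

theorem vQ13 : ev Q13 I5_3 I5_8 = 656840162722837 := by decide +kernel

noncomputable def Q268 : QT :=
(.a (.b (.a (.b (.b (.b (.a (.b (.b (.l 31) (.a (.b (.l 31) (.a (.l 31) (.b (.l 31) .z))) (.b (.a (.l 31) .z) .z))) (.b (.a (.b (.a (.b (.l 31) .z)
.z) .z) .z) (.a .z (.b (.l 101) .z)))) (.b (.b (.a (.b (.a (.l 31) (.b (.l 31) .z)) .z) .z) (.a .z (.b .z (.l 101)))) (.a (.b (.l 101) .z) (.b (.a (.l
101) .z) .z)))) (.a .z (.a .z (.b (.b (.a .z (.b (.l 31) .z)) .z) .z)))) (.a (.b (.a (.b (.a .z (.b .z (.a .z (.b .z (.l 32))))) (.a (.b (.a .z (.b .z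
(.l 32))) (.b .z (.l 37))) (.b (.l 32) (.b .z (.l 37))))) (.b (.a (.b .z (.b .z (.l 32))) (.b .z (.b .z (.l 32)))) (.b (.l 32) (.b (.b .z (.l 37)) (.l
37))))) (.b (.b (.a (.l 37) (.b (.l 37) (.a (.l 37) .z))) (.a (.b (.a (.l 37) .z) .z) .z)) .z)) (.b (.b (.b .z (.b (.b .z (.a (.a .z (.l 32)) (.l
32))) (.l 32))) (.b (.b (.l 32) (.b (.l 32) (.a (.l 32) .z))) (.b (.b .z (.a (.l 37) .z)) (.a (.l 37) .z)))) (.a .z (.a (.b (.b .z (.l 75)) .z)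
.z))))) (.a (.b (.a (.b (.b (.b (.a .z (.l 71)) .z) (.b (.b .z (.l 82)) .z)) (.b (.b .z (.b (.l 47) (.b (.l 47) .z))) (.l 40))) (.b (.b (.b (.l 71)
.z) (.b (.l 82) .z)) (.a (.b (.b .z (.b (.l 47) .z)) (.l 40)) (.b .z (.a (.b (.l 40) .z) .z))))) (.a (.b (.a (.b (.b (.b (.l 40) .z) .z) .z) (.b (.b
(.b (.l 40) .z) .z) .z)) .z) .z)) (.b (.a (.b (.a (.b (.b (.l 71) .z) .z) .z) .z) .z) .z))) (.b (.b (.a (.b (.b .z (.a (.b .z (.b .z (.b .z (.l 31))))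
(.b .z (.b .z (.b .z (.l 31)))))) (.a (.b (.b (.b (.l 31) .z) .z) (.a .z (.l 67))) (.b (.b (.b (.b (.l 31) (.a (.l 31) .z)) .z) (.l 67)) (.a (.b (.l
67) .z) .z)))) (.b (.a (.b .z (.a (.b .z (.b .z (.l 31))) .z)) (.b (.a .z (.b (.a .z (.b .z (.l 26))) (.a .z (.b (.l 26) .z)))) .z)) .z)) (.a (.b (.a
(.b (.a (.b .z (.b (.b .z (.l 32)) (.l 32))) (.b .z (.a (.b .z (.l 32)) .z))) (.a (.b (.b (.l 32) (.b (.l 32) .z)) .z) (.b (.a (.b (.l 32) .z) .z) (.a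
.z (.l 37))))) (.b (.a (.b .z (.a .z (.l 37))) (.b .z (.l 37))) (.l 37))) (.a (.a (.b (.b .z (.a .z (.l 37))) (.b (.b (.l 37) .z) .z)) (.b (.l 37) (.b
(.b (.l 37) .z) .z))) (.b (.b (.l 37) (.b (.l 37) (.a (.l 37) .z))) .z))) (.b (.b (.b (.a (.b .z (.l 37)) (.l 37)) (.l 37)) (.l 37)) (.b (.b (.a (.l
37) (.b (.l 37) .z)) (.a (.b (.a (.l 37) .z) .z) .z)) .z)))) (.b (.a .z (.b .z (.a .z (.b (.b (.l 137) .z) .z)))) (.a .z (.b (.a (.b .z (.a .z (.b .z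
(.b .z (.l 45))))) (.b (.a .z (.b (.b (.l 41) .z) .z)) (.b .z (.b (.b .z (.l 45)) (.l 45))))) (.b (.b (.b (.l 45) (.b (.l 45) .z)) (.a .z (.b (.a .z
(.l 55)) (.b (.l 55) .z)))) .z)))))) (.a (.a .z (.b (.b (.b (.a .z (.b .z (.a .z (.b (.b .z (.l 65)) .z)))) .z) (.b (.b (.b (.b .z (.l 83)) (.b (.l
83) (.b (.l 83) .z))) .z) (.b .z (.b (.b .z (.b (.l 96) .z)) .z)))) .z)) (.a (.b (.b (.b (.a (.b (.a (.b .z (.l 54)) (.b .z (.l 54))) (.b (.b (.b (.l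
54) .z) (.b (.l 65) .z)) .z)) (.b (.b (.b .z (.b .z (.l 54))) (.l 54)) (.b (.b (.b (.l 54) .z) .z) .z))) .z) (.b (.b (.b (.b .z (.l 83)) (.b (.l 83)
(.b (.l 83) .z))) .z) (.b .z (.b (.b .z (.b (.l 96) .z)) .z)))) .z) (.b (.b (.b (.b (.b (.b .z (.l 54)) (.l 54)) (.b (.b (.b (.l 54) .z) .z) .z)) (.b
.z (.b (.b (.b (.l 68) .z) .z) .z))) (.a (.b (.b (.b (.b .z (.l 83)) (.b (.l 83) .z)) .z) .z) .z)) .z)))) (.b (.b (.a (.b (.b (.a (.b (.a (.b (.a (.l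
26) (.b (.l 26) (.a (.l 26) .z))) (.a (.b (.b (.l 26) .z) .z) .z)) (.b (.a (.b (.a (.l 26) .z) .z) .z) .z)) .z) .z) (.b .z (.b .z (.b .z (.b (.a .z
(.l 37)) (.l 37)))))) (.a (.b (.b (.l 37) (.b (.l 37) (.a (.b (.l 37) (.a (.l 37) .z)) (.b (.a (.l 37) .z) .z)))) .z) (.b (.b (.b (.l 37) (.a (.l 37)
(.b (.l 37) (.a (.l 37) .z)))) (.b (.a (.b (.a (.l 37) .z) .z) .z) .z)) .z))) (.b (.a (.b .z (.b .z (.b .z (.b (.b (.a .z (.l 37)) (.l 37)) (.l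
37))))) (.b .z (.a (.b .z (.a (.b .z (.b (.l 37) .z)) .z)) .z))) (.a (.b (.a (.b (.b (.b (.l 37) (.a (.l 37) .z)) .z) .z) (.b (.b .z (.b .z (.l 79)))
.z)) .z) (.b .z (.a .z (.b .z (.b .z (.b (.a .z (.l 43)) (.l 43))))))))) (.a (.a (.b (.b .z (.a (.b .z (.a (.b .z (.b .z (.l 41))) (.b .z (.b .z (.l
41))))) (.b (.a (.b .z (.l 45)) (.b (.b (.l 39) .z) (.b (.l 45) .z))) (.b .z (.b (.b .z (.l 41)) (.l 41)))))) (.a (.b (.b (.b (.b (.l 41) .z) .z) (.b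
.z (.b (.b .z (.l 45)) (.l 45)))) (.b (.b (.b (.l 45) (.b (.l 45) .z)) (.b (.l 55) (.b (.l 55) .z))) .z)) (.b (.b (.b (.b (.l 41) .z) .z) (.b .z (.b
(.b .z (.l 45)) (.l 45)))) (.a (.b (.b (.b (.l 45) .z) (.b (.l 55) .z)) .z) (.b (.b (.b (.l 45) .z) (.b (.l 55) .z)) .z))))) (.b (.b (.a (.b .z (.a
(.b .z (.b .z (.l 39))) (.b .z (.b .z (.l 39))))) (.b (.a .z (.b (.b (.l 38) .z) .z)) (.b .z (.b .z (.l 39))))) (.a (.b (.b (.b (.l 39) (.b .z (.l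
45))) (.b (.a (.l 45) .z) .z)) (.b .z (.l 41))) (.b (.a (.b (.b (.l 39) .z) .z) .z) (.a (.a (.b .z (.l 41)) .z) .z)))) (.a (.b (.a (.b .z (.b .z (.b
.z (.l 45)))) .z) (.a .z (.b (.a (.b .z (.l 55)) (.b .z (.l 55))) (.b (.b (.l 55) .z) (.b (.l 55) .z))))) (.b .z (.b (.b (.b (.a .z (.l 55)) (.l 55))
(.l 55)) (.b (.b (.a (.l 55) .z) (.b .z (.l 55))) (.b (.l 55) .z))))))) (.a (.b (.b (.a (.b (.a (.b (.b (.l 38) .z) .z) .z) (.a .z (.b .z (.a .z (.l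
43))))) (.b (.a (.b .z (.a .z (.l 43))) (.b .z (.l 43))) (.b (.l 43) (.b (.l 43) (.a (.l 43) .z))))) (.a (.b .z (.b (.b .z (.l 102)) (.l 102))) (.b .z
(.b (.b .z (.l 102)) (.l 102))))) (.b (.b .z (.b .z (.a (.b .z (.a .z (.l 55))) (.l 55)))) (.a (.b (.b (.l 55) (.b (.l 55) .z)) (.b (.b .z (.b .z (.l
55))) .z)) (.b (.b (.l 55) .z) .z)))) (.b (.b (.b (.l 43) (.b (.a (.l 43) (.b (.a (.l 43) .z) .z)) .z)) .z) (.b (.a (.b .z (.b (.b (.a .z (.l 55)) (.l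
55)) (.l 55))) (.b (.b .z (.b .z (.a .z (.l 55)))) (.a (.b (.l 55) .z) .z))) (.a (.b (.a (.b (.b (.l 55) .z) .z) .z) .z) (.b .z (.b .z (.b .z (.b .z
(.l 51))))))))))) (.a (.a (.b (.b (.a (.b (.a (.b (.b (.b .z (.l 54)) (.l 54)) .z) (.b (.b (.b .z (.l 54)) (.l 54)) .z)) .z) (.b (.a (.b (.a (.b .z
(.l 54)) .z) .z) .z) .z)) (.a .z (.b .z (.b .z (.b (.b (.l 111) .z) .z))))) .z) (.b (.b (.b (.a (.b (.b .z (.b .z (.l 67))) .z) .z) .z) (.b .z (.b (.b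
.z (.b .z (.l 111))) (.b (.b (.l 111) .z) .z)))) .z)) (.a (.b (.b (.b (.a (.b .z (.a .z (.b .z (.l 57)))) (.b .z (.b .z (.l 57)))) (.b .z (.b .z (.b
(.b .z (.l 70)) (.l 70))))) (.a (.b .z (.b (.b .z (.b .z (.l 111))) (.b (.b (.l 111) .z) .z))) .z)) .z) (.b (.b (.a (.b (.b (.b (.b (.l 51) (.b (.l
51) .z)) .z) (.b .z (.l 57))) (.b .z (.b .z (.b .z (.l 70))))) (.b (.a (.b (.b (.b (.l 51) .z) .z) (.b .z (.l 57))) (.b (.b (.b (.l 51) .z) .z) (.a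
(.b .z (.l 57)) .z))) .z)) .z) .z)))))

theorem vQ268 : ev Q268 I5_27 I4_15 = 242709767822697 := by decide +kernel

noncomputable def Q25 : QT :=
(.a (.a (.l 16) (.b (.l 16) (.a (.l 16) (.b (.l 16) (.a (.l 16) (.a (.l 16) (.b (.a (.l 16) (.b (.l 16) (.a (.l 16) (.b (.l 16) (.a (.l 16) (.b (.l
16) .z)))))) (.a (.b (.a (.l 16) (.b (.l 16) (.a (.l 16) (.b (.l 16) .z)))) (.a (.b (.a (.l 16) (.b (.l 16) .z)) (.a (.b (.l 16) .z) .z)) (.b .z (.l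
48)))) (.b (.a (.b (.a (.l 16) (.b (.l 16) .z)) .z) (.b .z (.l 48))) (.l 48)))))))))) (.a (.a (.b (.a (.l 16) (.b (.l 16) (.a (.b (.l 16) (.a (.l 16)
(.b (.a (.l 16) (.b (.l 16) (.a (.l 16) (.b (.l 16) .z)))) (.a (.b (.a (.l 16) (.b (.l 16) .z)) (.a (.b (.l 16) .z) .z)) (.b .z (.l 48)))))) (.b (.a
(.b (.l 16) (.a (.l 16) (.b (.l 16) (.a (.b (.l 16) .z) .z)))) (.b (.a (.b (.l 16) (.a (.l 16) (.b (.l 16) .z))) (.b (.a (.l 16) (.b (.l 16) .z)) .z))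
(.a (.b (.a (.b (.l 16) .z) .z) .z) (.l 48)))) (.a (.b (.a (.b (.a (.l 16) .z) .z) (.b .z (.l 48))) (.l 48)) (.l 48)))))) (.a (.b (.a (.b (.l 16) (.a
(.l 16) (.b (.l 16) (.a (.l 16) (.b (.l 16) (.a (.b (.l 16) .z) .z)))))) (.b (.a (.l 16) (.b (.l 16) (.a (.b (.l 16) (.a (.l 16) (.b (.l 16) .z))) (.b
(.a (.l 16) (.b (.l 16) .z)) .z)))) (.a (.b (.a (.l 16) (.b (.l 16) (.a (.b (.l 16) .z) .z))) (.a (.b (.a (.b (.l 16) .z) .z) .z) (.b .z (.l 48))))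
(.b (.a .z (.l 48)) (.l 48))))) (.a (.b (.a (.b (.a (.l 16) (.b (.l 16) (.a (.l 16) (.b (.l 16) .z)))) (.a (.b (.a (.l 16) (.b (.l 16) .z)) .z) (.b .z
(.l 48)))) (.b (.a (.b (.a (.l 16) .z) .z) (.b .z (.l 48))) (.l 48))) (.l 48)) (.l 48))) (.b (.a (.b (.a (.b (.a (.b (.l 16) (.a (.l 16) .z)) (.b (.a
(.b (.l 16) .z) .z) .z)) (.a (.b .z (.l 48)) (.l 48))) (.b (.a (.b .z (.l 48)) (.l 48)) (.l 48))) (.l 48)) (.l 48)) (.l 48)))) (.b (.a (.b (.a (.b (.a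
(.l 16) (.b (.l 16) (.a (.l 16) (.b (.l 16) (.a (.l 16) .z))))) (.a (.b (.l 16) (.a (.b (.l 16) (.a (.b (.l 16) .z) .z)) (.b (.a (.b (.l 16) .z) .z)
.z))) (.b (.a (.b (.a (.l 16) (.b (.l 16) .z)) .z) (.b .z (.l 48))) (.a (.b .z (.l 48)) (.l 48))))) (.b (.a (.b (.a (.b (.l 16) (.a (.l 16) (.b (.l
16) .z))) (.b (.a (.l 16) (.b (.l 16) .z)) .z)) (.a (.b (.a (.b (.l 16) .z) .z) .z) (.l 48))) (.b (.a (.b .z (.l 48)) (.l 48)) (.l 48))) (.l 48))) (.a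
(.b (.a (.b (.a (.b .z (.l 48)) (.l 48)) (.l 48)) (.l 48)) (.l 48)) (.l 48))) (.l 48)) (.l 48))) (.b (.a (.a (.a (.b (.a (.b (.a (.b .z (.l 48)) .z)
(.a (.l 48) (.b (.a (.l 48) .z) (.l 48)))) (.b (.a .z (.l 115)) (.a (.b .z (.a (.l 48) .z)) .z))) (.a (.l 48) (.b (.a (.l 48) (.b .z (.a (.l 48) .z)))
(.l 48)))) (.b (.a (.b (.b (.l 115) (.a (.l 115) .z)) (.b .z (.l 139))) (.a (.b (.b (.l 115) .z) (.l 139)) .z)) (.a (.b (.a .z (.l 139)) (.a (.b (.a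
(.l 48) .z) (.l 48)) .z)) (.b (.l 139) (.a .z (.l 139)))))) (.a (.a .z (.b (.b (.b (.l 205) .z) .z) (.b .z (.a (.l 180) .z)))) (.b .z (.b .z (.l
203))))) (.b (.a (.a (.a (.b (.a .z (.b (.l 104) .z)) .z) (.b (.l 104) (.a .z (.b (.l 104) .z)))) (.a (.a (.l 104) (.a (.l 104) (.b .z (.l 104)))) (.a
(.a .z (.b (.l 92) .z)) (.l 92)))) (.a (.a (.l 92) (.b (.l 92) (.a (.l 92) .z))) (.a (.b (.a .z (.b .z (.l 88))) (.a (.b .z (.l 88)) (.l 88))) (.l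
88)))) (.a (.a (.a (.b .z (.b .z (.l 203))) .z) (.a (.b (.a .z (.l 104)) .z) (.a (.a (.b (.l 104) .z) (.b .z (.l 104))) (.a .z (.b (.l 92) .z))))) (.b
(.a (.a (.l 92) (.a .z (.b .z (.l 88)))) (.l 88)) (.a (.a (.a (.l 92) .z) (.a (.b .z (.l 88)) (.l 88))) (.b (.l 88) (.a (.b (.l 88) .z) (.b .z (.a (.b
.z (.a .z (.l 10))) (.b (.a .z (.l 10)) (.l 10))))))))))) (.a (.b (.a (.a (.l 48) (.a (.l 48) (.b (.a (.b .z (.a (.l 48) .z)) .z) (.a (.l 48) (.b .z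
(.a (.l 48) .z)))))) (.a (.a (.b (.a (.l 139) .z) .z) (.a (.a (.l 180) .z) .z)) (.l 203))) (.a (.b (.l 48) (.a (.l 48) (.b (.l 48) (.a (.l 48) (.b (.l
48) (.a .z (.b .z (.a .z (.l 10))))))))) (.b (.a (.a (.a (.b (.a (.l 48) .z) (.l 48)) .z) (.a .z (.l 203))) (.b (.a (.l 203) .z) (.a .z (.b (.a .z (.b
.z (.a .z (.l 10)))) (.a (.b (.a .z (.l 10)) (.l 10)) (.l 10)))))) (.a (.b (.a (.b (.a (.l 48) .z) (.a (.l 48) .z)) (.b .z (.a (.b .z (.a .z (.l 10)))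
(.b (.a .z (.l 10)) (.l 10))))) (.a (.b (.a .z (.b .z (.l 10))) (.a (.b (.a .z (.l 10)) (.l 10)) (.l 10))) (.l 10))) (.b (.a (.b (.a (.b .z (.a .z (.l
10))) (.l 10)) (.l 10)) (.l 10)) (.l 10)))))) (.b (.a (.b (.a (.l 203) (.a (.b .z (.l 203)) .z)) (.a (.b (.l 203) (.a (.l 203) (.b .z (.a .z (.b .z
(.a .z (.l 10))))))) (.b (.a .z (.b .z (.a (.b .z (.a .z (.l 10))) (.b (.a .z (.l 10)) (.l 10))))) (.a (.b (.a .z (.b .z (.l 10))) (.a (.b (.a .z (.l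
10)) (.l 10)) (.l 10))) (.l 10))))) (.b (.a (.b (.a .z (.b (.l 88) .z)) (.a (.b .z (.a .z (.b .z (.a .z (.l 10))))) (.b (.a (.b .z (.a .z (.l 10)))
(.b (.a .z (.l 10)) (.l 10))) (.l 10)))) (.b (.a (.b (.a .z (.b .z (.a .z (.l 10)))) (.a (.b (.a .z (.l 10)) (.l 10)) (.l 10))) (.l 10)) (.l 10))) (.a
(.b (.a (.b (.a (.b (.a .z (.l 10)) (.l 10)) (.l 10)) (.l 10)) (.l 10)) (.l 10)) (.l 10)))) (.a (.b (.a (.b (.a (.b .z (.a .z (.b (.a .z (.l 10)) (.l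
10)))) (.b (.a (.b .z (.a .z (.l 10))) (.l 10)) (.l 10))) (.l 10)) (.l 10)) (.l 10)) (.l 10)))))))

theorem vQ25 : ev Q25 I3_0 I6_30 = 1759163130319103 := by decide +kernel

noncomputable def Q234 : QT :=
(.b (.b (.a (.b (.a (.b (.l 33) (.b (.l 33) (.b (.a (.l 33) (.b (.l 33) .z)) (.a (.b (.l 33) .z) .z)))) (.b (.a (.l 33) (.b (.a (.l 33) (.b .z (.l
33))) (.l 33))) (.b (.b (.l 33) (.a (.l 33) (.b (.l 33) .z))) .z))) (.b (.a (.b .z (.a .z (.b .z (.a .z (.l 35))))) (.b (.a .z (.b (.a .z (.l 35)) (.l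
35))) (.l 35))) (.a (.b (.a (.b (.a .z (.l 35)) (.l 35)) (.l 35)) (.a (.l 35) (.b (.l 35) (.a (.l 35) .z)))) (.b (.a (.l 35) (.b (.a (.l 35) .z) .z))
(.a (.b .z (.a .z (.l 39))) (.b (.a .z (.l 39)) (.l 39))))))) (.b (.a (.b (.a (.b (.a .z (.b (.l 43) .z)) (.a (.l 33) .z)) (.b (.b (.a (.l 43) .z) .z)
(.a .z (.l 44)))) (.a (.b (.b (.l 33) .z) (.b .z (.a .z (.l 35)))) (.b .z (.a (.l 35) (.b .z (.l 35)))))) (.b (.b (.a (.b .z (.l 44)) (.b (.l 44) (.a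
(.l 44) .z))) (.a (.b (.a (.l 44) .z) .z) .z)) (.a (.b .z (.a .z (.b .z (.l 55)))) (.b .z (.b .z (.l 55)))))) (.a (.b (.b (.l 35) (.a (.b (.l 35) (.a
(.l 35) .z)) .z)) (.b (.a (.b .z (.l 39)) (.l 39)) (.l 39))) (.b (.a .z (.b (.l 55) (.a .z (.b (.l 55) .z)))) (.a (.l 39) (.b (.a (.l 39) .z) (.l
39))))))) (.b (.a (.b (.a (.b (.a (.b (.a (.l 35) .z) .z) (.b .z (.l 39))) (.b (.l 39) (.a (.l 39) (.b (.l 39) .z)))) (.b (.l 39) (.b (.a (.l 39) (.b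
(.l 39) .z)) (.a .z (.b .z (.l 41)))))) (.b (.b (.a (.b .z (.a .z (.l 41))) (.l 41)) (.l 41)) (.b (.l 41) (.a (.l 41) (.b (.l 41) (.a (.l 41) .z))))))
(.b (.b (.a (.b (.l 39) (.a (.l 39) (.b (.l 39) .z))) (.b (.a (.l 39) (.b (.l 39) .z)) (.a .z (.b .z (.l 41))))) (.a (.b (.a .z (.b .z (.l 41))) (.l
41)) (.l 41))) (.b (.a (.l 41) (.b (.l 41) (.a (.l 41) (.b (.l 41) .z)))) (.a (.b (.a (.l 41) (.b (.l 41) .z)) (.b .z (.a .z (.l 45)))) (.b (.a .z (.b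
.z (.l 45))) (.l 45)))))) (.a (.b (.b (.b (.a (.b (.l 41) (.a (.l 41) .z)) (.b .z (.a .z (.l 45)))) (.a (.b .z (.a .z (.l 45))) (.l 45))) (.l 45)) (.b
(.b (.a (.l 45) (.b (.a (.l 45) .z) .z)) (.a (.b (.a (.l 45) .z) .z) .z)) (.b (.a .z (.b .z (.a .z (.l 51)))) (.a (.b .z (.l 51)) (.l 51))))) (.b (.b
(.l 45) (.b (.a (.l 45) (.b (.a (.l 45) .z) .z)) (.a (.b (.a (.l 45) .z) .z) .z))) (.a (.b (.b .z (.b .z (.a .z (.l 51)))) (.a (.b (.l 51) (.a (.l 51)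
.z)) (.b .z (.a .z (.l 47))))) (.b (.a .z (.b .z (.a .z (.l 47)))) (.a (.b (.a .z (.l 47)) (.l 47)) (.b (.l 47) .z)))))))) (.b (.b (.a (.b (.a (.b (.l
51) (.a (.b (.l 51) (.a (.l 51) .z)) (.b (.a (.l 51) .z) .z))) (.b (.a (.b (.l 51) (.a (.l 51) .z)) (.b (.a (.l 51) .z) .z)) (.a (.b .z (.l 47)) (.b
(.l 47) .z)))) (.a (.b (.a (.b .z (.l 47)) (.b (.l 47) (.a (.l 47) .z))) (.a (.b (.a (.l 47) .z) .z) (.b .z (.b (.l 53) .z)))) (.b (.a (.b (.a (.l 47)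
.z) .z) (.b (.a .z (.l 53)) (.l 53))) (.b (.b (.l 53) (.a (.l 53) .z)) (.b .z (.a .z (.l 57))))))) (.b (.a (.b (.a (.b .z (.l 47)) (.b (.l 47) .z))
(.a .z (.b .z (.b .z (.l 53))))) (.b (.a (.b .z (.a .z (.l 51))) (.b (.a .z (.l 51)) (.b (.l 51) .z))) (.b (.b .z (.a .z (.l 53))) (.l 53)))) (.b (.b
(.l 53) (.a (.b (.l 53) (.a (.l 53) .z)) (.b (.a (.l 53) .z) .z))) (.b (.a (.b .z (.a .z (.l 57))) (.l 57)) (.a (.l 57) (.b (.l 57) (.a (.l 57)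
.z))))))) (.b (.a (.b (.b (.a (.b .z (.l 57)) (.l 57)) (.a (.l 57) (.b (.l 57) (.a (.l 57) .z)))) (.b (.a (.b (.a (.l 57) .z) .z) .z) (.a .z (.b (.a
.z (.l 63)) (.l 63))))) (.b (.b (.a (.b (.l 57) (.a (.l 57) .z)) .z) (.a .z (.b .z (.a .z (.l 63))))) (.a (.b (.b .z (.a .z (.l 63))) (.l 63)) (.b (.a
(.l 63) (.b (.l 63) .z)) (.a (.b (.l 63) .z) .z))))) (.a (.b (.b (.a (.b (.a .z (.l 63)) (.l 63)) (.l 63)) (.l 63)) (.a (.l 63) (.b (.a (.l 63) (.b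
(.l 63) .z)) (.a (.b (.l 63) .z) .z)))) (.b (.a (.b (.a (.l 63) (.b (.l 63) .z)) (.a (.b (.l 63) .z) .z)) (.b (.a .z (.b (.l 59) .z)) (.a (.b (.l 59)
.z) .z))) (.a (.b (.a .z (.b (.l 59) .z)) (.a (.b (.l 59) .z) .z)) (.b (.a .z (.l 65)) (.b (.a (.l 65) .z) .z))))))) (.b (.a (.b (.b (.a (.b (.a (.l
63) (.b (.l 63) .z)) (.a .z (.b .z (.l 59)))) .z) (.a (.b (.a (.b .z (.l 59)) .z) .z) .z)) (.a (.b (.a .z (.b .z (.l 75))) (.a (.b .z (.b (.l 61) .z))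
.z)) (.b (.b (.b .z (.l 75)) (.l 75)) (.a (.b (.l 75) .z) (.b (.l 75) .z))))) (.b (.b (.a (.b .z (.l 69)) (.b (.b .z (.l 69)) .z)) (.b .z (.a (.b .z
(.l 75)) (.l 75)))) (.b (.a (.l 75) (.b (.a (.l 75) .z) .z)) (.a (.b (.a (.l 75) .z) .z) (.b .z (.a .z (.l 81))))))) (.a (.b (.a (.b (.b (.b (.a .z
(.l 65)) (.l 65)) (.a (.b (.l 65) .z) .z)) (.b (.a .z (.b .z (.l 62))) (.a (.b .z (.l 62)) .z))) (.b .z (.a (.b (.b (.l 62) .z) .z) .z))) (.b (.a (.b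
.z (.a .z (.l 71))) (.b (.b .z (.l 71)) (.b (.l 71) .z))) (.b (.a (.b (.l 71) .z) .z) .z))) (.b (.a (.b .z (.a .z (.l 87))) (.b (.b .z (.b .z (.l
87))) (.b (.l 87) (.a (.l 87) .z)))) (.a .z (.b .z (.a .z (.b .z (.l 99))))))))))

theorem vQ234 : ev Q234 I6_40 I5_30 = 253676481934880 := by decide +kernel

noncomputable def Q113 : QT :=
(.b (.a (.b (.a (.l 19) (.b (.l 19) (.a (.b (.l 19) (.a (.l 19) (.b (.l 19) (.a (.l 19) (.b (.l 19) (.a (.l 19) (.b (.l 19) (.a (.l 19) (.b (.a (.l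
19) .z) (.a .z (.b .z (.l 13)))))))))))) (.b (.a (.l 19) (.b (.a (.l 19) (.b (.l 19) (.a (.b (.l 19) (.a (.l 19) (.b (.l 19) (.a (.l 19) .z)))) (.b
(.a (.b (.l 19) (.a (.l 19) .z)) (.b (.a (.l 19) .z) (.a .z (.b .z (.l 13))))) (.a (.b .z (.a .z (.l 13))) (.l 13)))))) (.a (.b (.a (.l 19) (.b (.l
19) (.a (.l 19) (.b (.a (.l 19) .z) .z)))) (.a (.b (.l 19) (.a (.b (.l 19) (.a (.l 19) .z)) (.b (.a (.l 19) .z) (.a .z (.b .z (.l 13)))))) (.b (.a (.b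
(.a (.l 19) .z) (.a .z (.b .z (.l 13)))) (.b (.a .z (.l 13)) (.l 13))) (.a (.b (.a (.b .z (.l 13)) (.l 13)) (.l 13)) (.l 13))))) (.b (.a (.b (.a (.b
(.l 19) (.a (.l 19) .z)) (.b (.a .z (.b .z (.l 13))) (.a (.b .z (.l 13)) (.l 13)))) (.a (.b (.a .z (.b .z (.l 13))) (.l 13)) (.l 13))) (.l 13)) (.l
13))))) (.a (.b (.a (.l 19) (.b (.a (.l 19) (.b (.a (.l 19) (.b (.l 19) (.a (.l 19) .z))) (.a (.b (.l 19) .z) (.b (.a .z (.b .z (.l 13))) (.a (.b .z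
(.l 13)) (.l 13)))))) (.a (.b (.a (.l 19) (.b (.a (.l 19) .z) .z)) (.a (.b (.a (.l 19) .z) (.a .z (.b .z (.l 13)))) (.b (.a (.b .z (.l 13)) (.l 13))
(.l 13)))) (.b (.a (.b (.a .z (.l 13)) (.l 13)) (.l 13)) (.l 13))))) (.a (.b (.a (.b (.l 19) (.a (.l 19) (.b (.l 19) (.a (.l 19) .z)))) (.b (.a (.b
(.l 19) (.a (.l 19) .z)) (.b .z (.a .z (.l 13)))) (.a (.b (.a .z (.b .z (.l 13))) (.a (.b .z (.l 13)) (.l 13))) (.l 13)))) (.a (.b (.a (.b (.a (.l 19)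
.z) .z) (.b (.a .z (.b .z (.l 13))) (.l 13))) (.a (.b (.a (.b .z (.l 13)) (.l 13)) (.l 13)) (.l 13))) (.l 13))) (.b (.a (.b (.a (.b (.a (.b .z (.l
13)) (.l 13)) (.l 13)) (.l 13)) (.l 13)) (.l 13)) (.l 13)))) (.b (.a (.b (.a (.b (.a (.b .z (.a (.b .z (.l 13)) (.l 13))) (.l 13)) (.l 13)) (.l 13))
(.l 13)) (.l 13)) (.l 13))))))) (.a (.b (.a (.l 19) (.b (.l 19) (.a (.l 19) (.b (.a (.l 19) (.b (.l 19) (.a (.l 19) (.b (.l 19) (.a (.l 19) (.b (.l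
19) (.a (.l 19) .z))))))) (.a (.b (.l 19) (.a (.l 19) (.b (.l 19) (.a (.b (.l 19) (.a (.l 19) .z)) (.b .z (.a .z (.l 13))))))) (.b (.a (.b (.l 19) (.a
(.l 19) (.b (.a (.l 19) .z) .z))) (.b (.a (.b (.l 19) (.a (.l 19) .z)) (.b .z (.a (.b .z (.l 13)) (.l 13)))) (.a (.b (.a .z (.b .z (.l 13))) (.l 13))
(.l 13)))) (.a (.b (.a (.b (.a (.l 19) .z) (.a .z (.b .z (.l 13)))) (.b (.a .z (.l 13)) (.l 13))) (.a (.b (.a (.b .z (.l 13)) (.l 13)) (.l 13)) (.l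
13))) (.l 13)))))))) (.a (.b (.l 19) (.a (.b (.l 19) (.a (.l 19) (.b (.l 19) (.a (.b (.l 19) (.a (.l 19) (.b (.l 19) .z))) (.b (.a (.b (.l 19) (.a (.l
19) .z)) (.b (.a (.l 19) .z) (.a .z (.b .z (.l 13))))) (.a (.b .z (.a (.b .z (.l 13)) (.l 13))) (.l 13))))))) (.b (.a (.b (.l 19) (.a (.l 19) (.b (.l
19) (.a (.b (.l 19) (.a (.l 19) .z)) (.b (.a (.l 19) .z) (.a .z (.b .z (.l 13)))))))) (.b (.a (.b (.l 19) (.a (.l 19) (.b (.l 19) (.a (.l 19) .z))))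
(.b (.a (.b (.l 19) (.a (.l 19) .z)) (.b (.a (.l 19) .z) (.a .z (.b .z (.l 13))))) (.a (.b .z (.a (.b .z (.l 13)) (.l 13))) (.l 13)))) (.a (.b (.a (.b
(.a (.l 19) .z) .z) (.b (.a .z (.b .z (.l 13))) (.l 13))) (.a (.b (.a (.b .z (.l 13)) (.l 13)) (.l 13)) (.l 13))) (.l 13)))) (.a (.b (.a (.b (.a (.l
19) (.b (.l 19) (.a (.l 19) .z))) (.a (.b (.a (.l 19) .z) .z) (.b (.a .z (.b .z (.l 13))) (.l 13)))) (.b (.a (.b .z (.a (.b .z (.l 13)) (.l 13))) (.l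
13)) (.l 13))) (.a (.b (.a (.b (.a (.b .z (.l 13)) (.l 13)) (.l 13)) (.l 13)) (.l 13)) (.l 13))) (.l 13))))) (.b (.a (.b (.a (.l 19) (.b (.l 19) (.a
(.b (.l 19) (.a (.l 19) (.b (.l 19) (.a (.l 19) .z)))) (.b (.a (.b (.l 19) (.a (.l 19) .z)) (.b (.a (.l 19) .z) (.a .z (.b .z (.l 13))))) (.a (.b .z
(.a (.b .z (.l 13)) (.l 13))) (.l 13)))))) (.a (.b (.a (.l 19) (.b (.l 19) (.a (.b (.l 19) (.a (.l 19) .z)) (.b (.a (.l 19) .z) (.a .z (.b .z (.l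
13))))))) (.a (.b (.a (.l 19) (.b (.l 19) (.a (.l 19) .z))) (.a (.b (.a (.l 19) .z) .z) (.b (.a .z (.b .z (.l 13))) (.l 13)))) (.b (.a (.b .z (.a (.b
.z (.l 13)) (.l 13))) (.l 13)) (.l 13)))) (.b (.a (.b (.a (.b (.a (.l 19) .z) .z) (.b (.a .z (.b .z (.l 13))) (.l 13))) (.a (.b (.a (.b .z (.l 13))
(.l 13)) (.l 13)) (.l 13))) (.l 13)) (.l 13)))) (.b (.a (.b (.a (.b (.a (.l 19) (.b (.l 19) .z)) (.a (.b (.a (.l 19) .z) (.a .z (.b .z (.l 13)))) (.b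
(.a .z (.l 13)) (.l 13)))) (.b (.a (.b (.a .z (.b .z (.l 13))) (.a (.b .z (.l 13)) (.l 13))) (.l 13)) (.l 13))) (.a (.b (.a (.b (.a (.b .z (.l 13))
(.l 13)) (.l 13)) (.l 13)) (.l 13)) (.l 13))) (.l 13)) (.l 13))) (.a (.b (.a (.b (.a (.b (.a (.b (.a (.b .z (.l 13)) (.l 13)) (.l 13)) (.l 13)) (.l
13)) (.l 13)) (.l 13)) (.l 13)) (.l 13)) (.l 13))))) (.b (.a (.b (.a (.b (.l 19) (.a (.l 19) (.b (.a (.l 19) (.b (.l 19) (.a (.l 19) (.b (.l 19) (.a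
(.l 19) .z))))) (.a (.b (.l 19) (.a (.l 19) (.b (.a (.l 19) .z) (.a .z (.b .z (.l 13)))))) (.b (.a (.b (.a (.l 19) .z) .z) (.b (.a .z (.b .z (.l 13)))
(.l 13))) (.a (.b (.a (.b .z (.l 13)) (.l 13)) (.l 13)) (.l 13))))))) (.b (.a (.b (.l 19) (.a (.l 19) (.b (.a (.l 19) (.b (.a (.l 19) .z) .z)) (.a (.b
(.a (.l 19) .z) (.a .z (.b .z (.l 13)))) (.b (.a .z (.l 13)) (.l 13)))))) (.b (.a (.b (.a (.l 19) (.b (.l 19) (.a (.l 19) .z))) (.a (.b (.l 19) (.a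
(.l 19) .z)) (.b .z (.a (.b .z (.l 13)) (.l 13))))) (.b (.a (.b .z (.a .z (.l 13))) (.b (.a (.b .z (.l 13)) (.l 13)) (.l 13))) (.l 13))) (.a (.b (.a
(.b (.a .z (.b .z (.l 13))) (.l 13)) (.l 13)) (.l 13)) (.l 13)))) (.a (.b (.a (.b (.a (.b (.l 19) (.a (.l 19) .z)) (.b .z (.a .z (.l 13)))) (.a (.b
(.a .z (.b .z (.l 13))) (.a (.b .z (.l 13)) (.l 13))) (.l 13))) (.b (.a (.b (.a (.b .z (.l 13)) (.l 13)) (.l 13)) (.l 13)) (.l 13))) (.l 13)) (.l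
13)))) (.a (.b (.a (.b (.a (.l 19) (.b (.a (.l 19) (.b (.l 19) (.a (.l 19) .z))) (.a (.b (.l 19) .z) (.b (.a .z (.b .z (.l 13))) (.a (.b .z (.l 13))
(.l 13)))))) (.a (.b (.a (.l 19) (.b (.a (.l 19) .z) .z)) (.a (.b (.a (.l 19) .z) (.a .z (.b .z (.l 13)))) (.b (.a (.b .z (.l 13)) (.l 13)) (.l 13))))
(.b (.a (.b (.a .z (.l 13)) (.l 13)) (.l 13)) (.l 13)))) (.b (.a (.b (.a (.b .z (.a .z (.l 13))) (.b (.a (.b .z (.l 13)) (.l 13)) (.l 13))) (.l 13))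
(.l 13)) (.l 13))) (.l 13)) (.l 13))) (.l 13)) (.l 13)))) (.b (.a (.b (.a (.b (.a (.l 19) (.b (.l 19) (.a (.l 19) (.b (.a (.l 19) (.b (.a (.l 19) (.b
(.l 19) (.a (.l 19) .z))) (.a (.b (.a (.l 19) .z) .z) (.b (.a .z (.b .z (.l 13))) (.l 13))))) (.a (.b (.a (.l 19) (.b (.a (.l 19) .z) (.a .z (.b .z
(.l 13))))) (.a (.b (.a (.l 19) .z) (.a .z (.b .z (.l 13)))) (.b (.a (.b .z (.l 13)) (.l 13)) (.l 13)))) (.b (.a (.b (.a .z (.l 13)) (.l 13)) (.l 13))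
(.l 13))))))) (.a (.b (.a (.l 19) (.b (.l 19) (.a (.l 19) (.b (.l 19) (.a (.l 19) (.b (.a (.l 19) .z) .z)))))) (.a (.b (.l 19) (.a (.l 19) (.b (.a (.l
19) (.b (.l 19) (.a (.l 19) .z))) (.a (.b (.l 19) (.a (.l 19) .z)) (.b (.a .z (.b .z (.l 13))) (.a (.b .z (.l 13)) (.l 13))))))) (.b (.a (.b (.l 19)
(.a (.b (.l 19) (.a (.l 19) .z)) (.b (.a (.l 19) .z) (.a .z (.b .z (.l 13)))))) (.b (.a (.b (.a (.l 19) .z) (.a .z (.b .z (.l 13)))) (.b (.a .z (.l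
13)) (.l 13))) (.a (.b (.a (.b .z (.l 13)) (.l 13)) (.l 13)) (.l 13)))) (.a (.b (.a (.b .z (.a .z (.l 13))) (.l 13)) (.l 13)) (.l 13))))) (.b (.a (.b
(.a (.b (.l 19) (.a (.l 19) (.b (.l 19) (.a (.l 19) .z)))) (.b (.a (.b (.l 19) (.a (.l 19) .z)) (.b .z (.a .z (.l 13)))) (.a (.b .z (.a (.b .z (.l
13)) (.l 13))) (.l 13)))) (.a (.b (.a (.b (.l 19) .z) (.b (.a .z (.b .z (.l 13))) (.a (.b .z (.l 13)) (.l 13)))) (.a (.b (.a .z (.l 13)) (.l 13)) (.l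
13))) (.l 13))) (.b (.a (.b (.a (.b (.a (.b .z (.l 13)) (.l 13)) (.l 13)) (.l 13)) (.l 13)) (.l 13)) (.l 13))) (.l 13)))) (.b (.a (.b (.a (.b (.a (.l
19) (.b (.l 19) (.a (.l 19) (.b (.a (.l 19) .z) (.a .z (.b .z (.l 13))))))) (.a (.b (.a (.l 19) (.b (.l 19) (.a (.l 19) .z))) (.a (.b (.l 19) (.a (.l
19) .z)) (.b .z (.a (.b .z (.l 13)) (.l 13))))) (.b (.a (.b .z (.a .z (.l 13))) (.b (.a (.b .z (.l 13)) (.l 13)) (.l 13))) (.l 13)))) (.b (.a (.b (.a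
(.b (.a (.l 19) .z) (.a .z (.b .z (.l 13)))) (.b (.a .z (.l 11)) (.a (.a (.l 13) .z) (.l 11)))) (.a (.b (.a (.b .z (.l 13)) (.l 13)) (.l 13)) (.a (.a
(.l 13) .z) (.l 11)))) (.l 11)) (.a (.a (.l 13) (.a (.a (.l 13) .z) (.l 11))) (.l 11)))) (.a (.b (.a (.b (.a (.b (.a .z (.b .z (.l 13))) (.a (.b .z
(.l 13)) (.l 13))) (.l 13)) (.l 13)) (.l 13)) (.l 13)) (.a (.a (.l 13) (.a (.a (.l 13) .z) (.l 11))) (.l 11)))) (.l 11)) (.a (.a (.l 13) (.a (.a (.l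
13) (.a (.a (.l 13) .z) (.l 11))) (.l 11))) (.l 11)))) (.a (.b (.a (.b (.a (.b (.a (.b (.a (.l 19) (.b (.a (.l 19) .z) .z)) (.a (.b (.a (.l 19) .z)
(.a .z (.b .z (.l 13)))) (.b (.a .z (.l 13)) (.l 13)))) (.b (.a (.b (.a .z (.b .z (.l 13))) (.l 13)) (.l 13)) (.l 13))) (.a (.b (.a (.b (.a (.b .z (.l
13)) (.l 13)) (.l 13)) (.l 13)) (.l 13)) (.l 13))) (.l 13)) (.l 13)) (.l 13)) (.l 13)) (.a (.a (.l 13) (.a (.a (.l 13) (.a (.a (.l 13) .z) (.l 11)))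
(.l 11))) (.l 11)))) (.l 11)) (.a (.a (.l 13) (.a (.a (.l 13) (.a (.a (.l 13) (.a (.a (.l 13) .z) (.l 11))) (.l 11))) (.l 11))) (.l 11)))) (.a (.b (.a
(.b (.a (.b (.a (.b (.a (.b (.a (.l 19) (.b (.l 19) (.a (.b (.l 19) (.a (.l 19) .z)) (.b .z (.a .z (.l 13)))))) (.a (.b (.a (.l 19) (.b (.l 19) .z))
(.a (.b (.a (.l 19) .z) (.a .z (.b .z (.l 13)))) (.b (.a .z (.l 13)) (.l 13)))) (.b (.a (.b (.a .z (.b .z (.l 13))) (.a (.b .z (.l 13)) (.l 13))) (.l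
13)) (.l 13)))) (.b (.a (.b (.a (.b (.a (.l 19) .z) (.a .z (.b .z (.l 13)))) (.b (.a .z (.l 13)) (.l 13))) (.a (.b (.a (.b .z (.l 13)) (.l 13)) (.l
13)) (.l 13))) (.l 13)) (.l 13))) (.l 13)) (.l 13)) (.l 13)) (.l 13)) (.l 13)) (.l 13)) (.b (.l 13) (.a (.b (.a (.b (.l 13) (.a (.b (.a (.b (.l 13)
(.a (.b (.l 13) (.a (.b (.l 13) .z) (.l 13))) (.l 13))) (.l 13)) (.a (.b (.a (.b (.a (.b (.a (.l 4) .z) (.l 4)) (.b (.a .z (.l 13)) .z)) (.a (.l 4)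
(.b (.a (.l 4) (.a (.l 4) .z)) (.l 4)))) (.b (.l 13) (.a (.b .z (.a (.l 4) .z)) (.b (.l 13) (.a .z (.l 13)))))) (.a (.l 4) (.b (.a (.l 4) (.b .z (.a
(.l 4) (.a (.l 4) .z)))) (.l 4)))) (.b (.l 13) (.a (.b (.a (.b (.l 13) (.a .z (.l 13))) (.l 13)) (.a (.b (.a (.a (.l 4) .z) .z) (.l 4)) (.b (.a .z (.l
13)) .z))) (.l 13))))) (.l 13))) (.l 13)) (.a (.b (.a (.b (.a (.l 4) (.b (.a (.b (.a (.l 4) (.b (.a (.l 4) .z) (.l 4))) (.l 4)) (.b (.a (.b (.a .z (.l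
13)) (.a (.a (.l 4) .z) .z)) (.l 13)) (.a (.b (.a (.l 4) (.a (.l 4) .z)) (.l 4)) (.b .z (.a (.l 4) .z))))) (.l 4))) (.l 4)) (.b (.a (.b (.a (.b (.l
13) (.a (.b (.l 13) (.a .z (.l 13))) (.l 13))) (.l 13)) (.a (.b (.a (.b .z (.a (.l 4) (.a (.l 4) .z))) (.b (.l 13) (.a .z (.l 13)))) (.a (.l 4) (.b
(.a (.a (.l 4) .z) .z) (.a (.l 4) (.a (.l 4) .z))))) (.b (.l 13) (.a (.b (.l 13) .z) (.l 13))))) (.l 13)) (.a (.b (.a (.l 4) (.b (.a (.b (.a (.l 4)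
.z) (.l 4)) (.b (.a .z (.l 13)) .z)) (.a (.l 4) (.b (.a (.l 4) (.a (.l 4) .z)) (.l 4))))) (.l 4)) (.b (.a (.b (.l 13) (.a (.b (.a .z (.l 13)) (.a (.a
(.l 4) .z) .z)) (.l 13))) (.l 13)) (.a (.b (.a (.b (.a (.l 4) (.a (.l 4) .z)) (.l 4)) (.b .z (.a (.l 4) .z))) (.l 4)) (.b (.a (.b (.l 13) (.a .z (.l
13))) (.l 13)) (.a (.b .z (.a (.l 4) .z)) (.b (.l 13) (.a .z (.l 13)))))))))) (.a (.l 4) (.b (.a (.l 4) (.b (.a (.l 4) (.b (.a (.l 4) (.b .z (.a (.l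
4) (.a (.l 4) .z)))) (.l 4))) (.l 4))) (.l 4)))) (.b (.l 13) (.a (.b (.a (.b (.a (.b (.a (.b (.l 13) (.a .z (.l 13))) (.l 13)) (.a (.b (.a (.a (.l 4)
.z) .z) (.a (.l 4) (.a (.l 4) .z))) (.b (.l 13) (.a .z (.l 13))))) (.l 13)) (.a (.b (.a (.l 4) (.b (.a (.a (.l 4) .z) .z) (.l 4))) (.l 4)) (.b (.a (.b
(.a .z (.l 13)) .z) (.l 13)) (.a (.b (.a (.l 4) .z) (.l 4)) (.b (.a .z (.l 13)) .z))))) (.l 13)) (.a (.b (.a (.l 4) (.b (.a (.l 4) (.b (.a (.l 4) .z)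
(.l 4))) (.l 4))) (.l 4)) (.b (.a (.b (.a (.b (.a .z (.l 13)) .z) (.l 13)) (.a (.b (.a (.l 4) (.a (.l 4) .z)) (.l 4)) (.b (.a .z (.l 13)) (.a (.a (.l
4) .z) .z)))) (.l 13)) (.a (.b (.a (.l 4) (.b (.a (.l 4) (.a (.l 4) .z)) (.l 4))) (.l 4)) (.b (.a (.b (.a .z (.l 13)) (.a (.a (.l 4) .z) .z)) (.l 13))
(.a (.b (.a (.l 4) (.a (.l 4) .z)) (.l 4)) (.b (.a .z (.l 13)) (.a (.a (.l 4) .z) .z)))))))) (.l 13))))) (.l 13)))) (.a (.a (.l 13) (.a (.a (.l 13)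
(.a (.a (.l 13) (.a (.a (.l 13) .z) (.l 11))) (.l 11))) (.l 11))) (.l 11))))

theorem vQ113 : ev Q113 I3_2 I3_4 = 15522708507615850 := by decide +kernel

noncomputable def Q227 : QT :=
(.a (.b (.b (.l 11) (.b (.b (.b (.l 11) (.a (.l 11) (.b (.a (.l 11) (.b (.l 11) (.a (.l 11) .z))) (.a (.b (.l 11) (.a (.l 11) .z)) (.b (.a .z (.a (.a
.z (.l 13)) (.l 13))) (.a (.a (.a .z (.l 13)) (.l 13)) (.l 13))))))) (.b (.a (.b (.a (.l 11) (.b (.a (.l 11) (.a (.l 11) (.a (.l 11) .z))) (.a (.a (.l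
11) (.a (.l 11) .z)) .z))) (.a (.b (.a (.l 11) (.a (.l 11) .z)) (.a (.a (.a (.l 11) .z) .z) (.a .z (.a .z (.l 13))))) (.b (.a .z (.l 13)) (.l 13))))
(.b (.a (.b (.a .z (.a (.a .z (.l 13)) (.l 13))) (.l 13)) (.l 13)) (.a (.l 13) (.a (.l 13) (.a (.l 13) (.b (.a (.l 13) .z) .z)))))) (.a (.b (.a (.b
(.a (.a .z (.l 13)) (.l 13)) (.l 13)) (.l 13)) (.l 13)) (.a (.l 13) (.a (.b (.l 13) (.a (.l 13) (.b (.a (.l 13) .z) .z))) (.b (.a (.b (.a (.l 13) .z)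
.z) .z) .z)))))) (.a (.b (.l 13) (.a (.l 13) (.b (.a (.l 13) (.b (.a (.l 13) (.b (.l 13) (.a (.l 13) .z))) (.a (.b (.l 13) .z) .z))) (.a (.b (.a (.l
13) (.b (.a (.l 13) .z) .z)) (.a (.b (.a (.l 13) .z) .z) .z)) (.b (.a .z (.l 55)) (.l 55)))))) (.b (.a (.b (.a (.l 13) (.b (.l 13) (.a (.b (.l 13) (.a
(.l 13) .z)) (.b (.a (.l 13) .z) .z)))) (.a (.b (.a (.l 13) (.b (.l 13) (.a (.l 13) .z))) (.a (.b (.l 13) (.a (.l 13) .z)) .z)) (.b (.a .z (.l 55))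
(.l 55)))) (.b (.a (.b (.a (.b (.a (.l 13) .z) .z) .z) (.a .z (.l 55))) (.a .z (.b (.a .z (.l 29)) (.l 29)))) (.a (.a (.b (.l 55) .z) (.b .z (.a .z
(.l 29)))) (.a (.b (.a .z (.l 29)) (.l 29)) (.l 29))))) (.a (.b (.a (.b (.a .z (.l 55)) (.l 55)) (.a (.l 55) .z)) (.a (.a (.l 55) (.b (.l 55) .z)) (.a
(.b .z (.a .z (.l 29))) (.b (.a .z (.l 29)) (.l 29))))) (.a (.b (.a (.b .z (.l 29)) (.l 29)) (.l 29)) (.l 29))))))) (.a (.b (.b (.b (.a (.b (.a (.b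
(.l 13) (.a (.l 13) (.b (.l 13) (.a (.l 13) .z)))) (.b (.a (.b (.l 13) (.a (.l 13) .z)) (.b (.a (.l 13) .z) .z)) .z)) (.a (.b (.a (.b (.l 13) (.a (.l
13) .z)) .z) .z) .z)) (.b (.a .z (.a .z (.l 55))) (.a (.l 195) .z))) (.a .z (.a .z (.b .z (.l 193))))) (.a (.b (.a .z (.b .z (.a .z (.a .z (.l 59)))))
(.a (.b (.a .z (.l 91)) (.l 91)) (.a (.a .z (.b .z (.l 59))) (.l 59)))) (.b (.b .z (.a (.b (.a (.l 59) .z) (.l 59)) (.b .z (.a (.l 59) .z)))) (.l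
59)))) (.b (.a (.b (.a (.a (.l 91) .z) (.a (.a (.b .z (.l 59)) (.l 59)) (.l 59))) (.a (.b (.a .z (.a .z (.l 59))) (.a .z (.l 59))) (.l 59))) (.b (.l
59) (.a (.b (.l 59) (.a (.l 59) (.b (.l 59) .z))) (.b (.a (.b (.l 59) .z) .z) (.a .z (.l 48)))))) (.a (.b (.a (.b (.a .z (.b (.l 59) .z)) .z) (.b (.a
(.l 59) (.b (.l 59) .z)) (.a .z (.b .z (.l 48))))) (.a (.b .z (.a (.b .z (.l 48)) (.l 48))) (.b (.a (.b .z (.l 48)) (.l 48)) (.l 48)))) (.b (.a (.b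
(.a .z (.b .z (.l 48))) (.l 48)) (.l 48)) (.l 48))))) (.a (.b (.b (.b (.a .z (.a (.a (.b (.l 29) .z) (.l 29)) (.l 29))) (.a (.a (.b (.a .z (.l 58))
.z) (.b (.l 58) (.a .z (.l 58)))) (.a (.a (.b .z (.l 58)) (.b (.a .z (.l 29)) .z)) (.a (.b (.l 29) (.a .z (.l 29))) (.l 29))))) (.a (.b .z (.b (.b .z
(.a (.l 59) .z)) (.l 59))) (.b (.a (.b (.a .z (.l 58)) .z) (.a .z (.b (.l 29) (.a .z (.l 29))))) (.a (.b .z (.b .z (.l 59))) .z)))) (.a (.b (.b (.b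
(.a (.l 59) (.b (.l 59) .z)) (.a (.b (.l 59) .z) .z)) (.b (.a (.b .z (.l 48)) (.l 48)) (.l 48))) (.a (.b (.l 48) (.a (.b (.l 48) .z) (.b .z (.a (.b .z
(.l 11)) (.l 11))))) (.b (.a (.b (.l 48) .z) (.b .z (.a (.b .z (.l 11)) (.l 11)))) (.a (.b (.a (.b .z (.l 11)) (.l 11)) (.l 11)) (.l 11))))) (.b (.a
(.b (.b .z (.l 48)) (.a (.b (.l 48) .z) (.b .z (.a (.b .z (.l 11)) (.l 11))))) (.b (.a .z (.b (.a .z (.b .z (.l 11))) (.l 11))) (.a (.b (.a (.b .z (.l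
11)) (.l 11)) (.l 11)) (.l 11)))) (.a (.b (.a (.b (.a (.b .z (.l 11)) (.l 11)) (.l 11)) (.l 11)) (.l 11)) (.l 11))))) (.b (.b (.a (.l 29) (.b (.a (.l
29) (.b (.a (.l 29) .z) (.a .z (.b (.a .z (.l 11)) (.l 11))))) (.a (.b (.a (.l 29) .z) (.a .z (.b (.a .z (.l 11)) (.l 11)))) (.b (.a (.b (.a .z (.l
11)) (.l 11)) (.l 11)) (.l 11))))) (.a (.b (.a (.l 29) (.b (.a (.l 29) .z) (.a .z (.b (.a .z (.l 11)) (.l 11))))) (.a (.b (.a (.b (.l 29) .z) .z) (.a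
(.b .z (.a .z (.l 11))) (.l 11))) (.b (.a (.b (.a .z (.l 11)) (.l 11)) (.l 11)) (.l 11)))) (.b (.a (.b (.a (.b (.a .z (.l 11)) (.l 11)) (.l 11)) (.l
11)) (.l 11)) (.l 11)))) (.l 11))))) (.b (.a (.b (.a (.l 11) (.b (.a (.l 11) (.b (.a (.l 11) (.b (.l 11) (.a (.l 11) (.b (.l 11) (.a (.l 11) .z)))))
(.a (.b (.l 11) (.a (.l 11) (.b (.l 11) (.a (.l 11) .z)))) (.b (.a (.b (.l 11) (.a (.l 11) .z)) (.b .z (.a .z (.l 11)))) (.a (.b .z (.a .z (.l 11)))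
(.l 11)))))) (.a (.b (.a (.l 11) (.b (.l 11) (.a (.l 11) (.b (.a (.l 11) .z) .z)))) (.a (.b (.l 11) (.a (.l 11) (.b (.a (.l 11) .z) .z))) (.b (.a (.b
(.a (.l 11) .z) .z) (.b (.a .z (.l 11)) (.l 11))) (.a (.b (.a .z (.l 11)) (.l 11)) (.l 11))))) (.b (.a (.b (.a (.b (.l 11) .z) (.b .z (.a .z (.l
11)))) (.a (.b (.a .z (.l 11)) (.l 11)) (.l 11))) (.l 11)) (.l 11))))) (.a (.b (.a (.b (.b (.l 11) (.b (.b (.a (.a (.l 11) .z) .z) (.a .z (.l 13)))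
(.a (.l 13) (.b (.l 13) (.a (.l 13) .z))))) (.b (.b (.a (.b (.l 13) .z) .z) .z) (.a (.b .z (.a .z (.l 29))) (.l 29)))) (.b (.a (.b (.b (.l 11) (.b (.l
11) (.a (.l 11) .z))) (.b (.b .z (.a (.l 13) .z)) .z)) (.b (.a (.b (.l 11) (.b (.l 11) .z)) (.b (.l 11) .z)) (.a .z (.b .z (.a .z (.l 11)))))) (.a (.b
(.a (.b .z (.l 29)) (.b (.l 29) .z)) (.a (.b (.l 29) .z) (.b .z (.a .z (.l 11))))) (.b (.a (.b .z (.a .z (.l 11))) (.l 11)) (.l 11))))) (.a (.b (.a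
(.l 29) (.b (.a (.l 29) (.b (.l 29) .z)) (.a .z (.b (.a .z (.l 11)) (.l 11))))) (.a (.b (.a (.l 29) .z) (.a .z (.b (.a .z (.l 11)) (.l 11)))) (.b (.a
(.b (.a .z (.l 11)) (.l 11)) (.l 11)) (.l 11)))) (.b (.a (.b (.a (.b .z (.a .z (.l 11))) (.l 11)) (.l 11)) (.l 11)) (.l 11)))) (.b (.a (.b (.a (.b (.a
(.b .z (.a .z (.l 11))) (.b (.a .z (.l 11)) (.l 11))) (.l 11)) (.l 11)) (.l 11)) (.l 11)) (.l 11)))) (.b (.a (.b (.a (.b (.a (.b (.a (.l 11) (.b (.a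
(.l 11) .z) .z)) (.a (.b (.a (.l 11) .z) .z) (.b (.a .z (.l 11)) (.l 11)))) (.b (.a (.b (.a .z (.l 11)) (.l 11)) (.l 11)) (.l 11))) (.l 11)) (.l 11))
(.l 11)) (.l 11)) (.a (.l 11) (.b (.l 11) (.a (.l 11) (.b (.l 11) (.a (.b (.l 11) (.a (.l 11) (.b (.l 11) .z))) (.b (.a (.b (.l 11) (.a (.l 11) .z))
(.b (.a (.l 11) .z) .z)) .z)))))))) (.a (.b (.a (.b (.a (.b (.a (.b (.a (.b (.a .z (.l 11)) (.l 11)) (.l 11)) (.l 11)) (.l 11)) (.l 11)) (.l 11)) (.l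
11)) (.l 11)) (.a (.l 11) (.b (.a (.l 11) (.b (.l 11) (.a (.b (.l 11) (.a (.l 11) (.b (.l 11) (.a (.l 11) .z)))) (.b (.a (.b (.l 11) (.a (.l 11) .z))
(.b .z (.a .z (.l 12)))) (.a (.b .z (.a .z (.l 12))) (.l 12)))))) (.a (.b (.a (.l 11) (.b (.l 11) (.a (.b (.l 11) (.a (.l 11) .z)) (.b (.a (.l 11) .z)
.z)))) (.a (.b (.a (.l 11) (.b (.l 11) (.a (.l 11) .z))) (.a (.b (.l 11) .z) (.b .z (.a .z (.l 12))))) (.b (.a (.b .z (.a .z (.l 12))) (.l 12)) (.l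
12)))) (.b (.a (.b (.a (.b (.a (.l 11) .z) .z) (.b .z (.l 12))) (.a (.b (.a .z (.l 12)) (.l 12)) (.l 12))) (.l 12)) (.l 12)))))) (.b (.a (.b (.l 11)
(.a (.b (.l 11) (.a (.l 11) (.b (.l 11) (.a (.b (.l 11) (.a (.l 11) .z)) .z)))) (.b (.a (.b (.l 11) (.a (.l 11) (.b (.l 11) .z))) (.b (.a (.b (.l 11)
(.a (.l 11) .z)) .z) .z)) (.a (.b (.a (.b (.a (.l 11) .z) .z) (.b .z (.l 26))) (.a (.b .z (.l 26)) (.l 26))) (.b .z (.b (.a (.l 26) .z) (.l 26)))))))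
(.b (.a (.b (.a (.l 11) (.b (.l 11) (.a (.b (.l 11) (.a (.l 11) .z)) .z))) (.a (.b (.a (.l 11) (.b (.l 11) .z)) (.a (.b (.a (.l 11) .z) .z) .z)) .z))
(.b (.a (.b (.a (.b (.a (.l 11) .z) .z) .z) .z) (.l 77)) (.l 77))) (.a (.b (.a (.b .z (.l 97)) (.b .z (.l 97))) (.b (.l 97) (.a (.b .z (.a (.l 26)
.z)) .z))) (.b (.a .z (.b (.l 77) .z)) .z)))) (.a (.b (.a (.b (.a (.b (.a (.l 11) (.b (.l 11) .z)) (.a (.b (.a (.l 11) .z) .z) (.b .z (.l 12)))) (.b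
(.a .z (.l 26)) (.b (.b (.l 26) .z) (.b .z (.l 12))))) (.a (.b (.a (.b (.a .z (.l 12)) (.l 12)) (.l 12)) (.l 12)) (.l 12))) (.b (.b (.l 26) (.b (.l
26) (.b (.a .z (.l 26)) (.a (.a (.l 12) .z) .z)))) (.l 12))) (.l 12)) (.b (.b (.b (.a (.a (.l 26) (.b (.a (.l 26) .z) (.l 26))) .z) (.b (.a (.l 26)
(.a (.l 26) .z)) (.a (.b (.l 26) (.a .z (.l 26))) (.l 26)))) (.b (.b (.a (.b .z (.a (.l 12) (.a (.l 12) .z))) (.b (.l 26) .z)) (.a (.l 12) (.b (.a (.a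
(.l 12) .z) .z) (.l 12)))) (.l 12))) (.l 12)))))))

theorem vQ227 : ev Q227 I5_22 I5_27 = 825282205387165 := by decide +kernel

noncomputable def Q233 : QT :=
(.a (.b (.b (.a (.l 31) (.b (.a (.l 31) (.b (.l 31) (.a (.l 31) (.b (.a (.l 31) (.b (.l 31) .z)) (.a .z (.b .z (.l 32))))))) (.a (.b (.l 31) (.a (.b
(.l 31) (.a (.l 31) (.b (.l 31) .z))) (.b (.a (.b (.l 31) .z) .z) (.a .z (.l 32))))) (.b (.a (.b (.a (.l 31) .z) (.a .z (.b .z (.l 32)))) (.b (.a (.b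
.z (.l 32)) (.l 32)) (.l 32))) (.a (.b (.a (.b .z (.l 32)) (.l 32)) (.l 32)) (.l 32)))))) (.a (.b (.a (.l 31) (.b (.a (.l 31) (.b (.l 31) (.a (.l 31)
.z))) (.a (.b (.l 31) (.a (.l 31) .z)) (.b (.a .z (.b .z (.l 32))) (.a (.b .z (.l 32)) (.l 32)))))) (.a (.b (.a (.l 31) (.b (.a (.l 31) (.b (.l 31)
.z)) (.a (.b (.l 31) .z) .z))) (.a (.b (.a (.l 31) (.b (.l 31) .z)) (.a .z (.b .z (.l 32)))) (.b (.a .z (.l 32)) (.l 32)))) (.b (.a (.b (.a .z (.b .z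
(.l 32))) (.l 32)) (.l 32)) (.a (.l 32) (.b (.l 32) (.a (.b (.l 32) .z) .z)))))) (.b (.a (.b (.a (.b (.a (.b (.l 31) .z) .z) (.a (.b .z (.l 32)) (.l
32))) (.l 32)) (.a (.l 32) (.b (.l 32) (.a (.l 32) (.b (.l 32) .z))))) (.b (.a (.l 32) (.b (.a (.l 32) .z) .z)) (.a (.b (.a (.b (.l 32) .z) .z) (.a .z
(.l 37))) (.b (.a .z (.l 37)) (.l 37))))) (.a (.b (.a (.b (.l 32) (.a (.l 32) .z)) (.b (.a (.b (.l 32) .z) .z) (.a .z (.l 37)))) (.a (.b .z (.a .z (.l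
37))) (.l 37))) (.l 37))))) (.a (.b (.a (.b (.b (.a (.b (.a (.b .z (.l 32)) (.l 32)) (.l 32)) (.l 32)) (.a (.b (.l 32) (.a (.l 32) (.b (.l 32) .z)))
(.b (.a (.l 32) .z) .z))) (.a (.b .z (.a (.b (.a (.l 29) .z) (.l 29)) (.b .z (.a (.l 29) .z)))) (.b (.b .z (.l 70)) .z))) (.b (.b (.a (.b (.a (.l 32)
(.b (.l 32) .z)) (.a (.b (.l 32) .z) .z)) (.b (.a .z (.l 37)) (.l 37))) (.a (.b (.a .z (.l 37)) (.b (.l 37) .z)) (.b (.b (.l 37) .z) .z))) (.b (.b (.a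
.z (.l 70)) (.l 70)) (.b (.a (.l 70) .z) (.a .z (.b .z (.l 43))))))) (.a (.b (.a (.l 29) (.b (.a (.b .z (.l 29)) .z) (.a (.l 29) (.b (.a (.l 29) .z)
(.l 29))))) (.b (.l 29) (.b (.a (.l 29) (.b (.l 29) .z)) (.a .z (.b .z (.l 33)))))) (.b (.a (.b (.l 43) (.a .z (.b (.l 43) .z))) (.l 43)) (.a (.b (.a
(.l 29) (.b .z (.a (.l 29) .z))) (.b .z (.l 33))) (.b (.a (.b (.l 43) .z) (.l 43)) (.a (.b .z (.l 33)) .z)))))) (.b (.b (.b (.a (.b (.l 37) (.a (.l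
37) .z)) (.b (.a (.b (.l 37) .z) .z) (.a .z (.l 70)))) (.a (.b .z (.l 70)) (.b (.l 70) (.a (.l 70) .z)))) (.b (.a (.b (.l 70) .z) (.b .z (.a (.b .z
(.l 43)) (.l 43)))) (.a (.b (.a .z (.l 43)) (.l 43)) (.l 43)))) (.b (.l 43) (.a (.l 43) (.b (.l 43) (.a (.b (.l 43) (.a (.l 43) .z)) (.b .z (.a .z (.l
44)))))))))) (.b (.b (.a (.b (.a (.b (.a (.b (.a (.l 31) (.b (.l 31) .z)) (.a (.b (.l 31) .z) .z)) (.b (.a .z (.l 32)) (.l 32))) (.a (.b (.a .z (.l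
32)) (.l 32)) (.l 32))) (.b (.a (.l 32) (.b (.l 32) (.a (.l 32) (.b (.l 32) .z)))) (.a (.b (.l 32) (.a (.l 32) .z)) (.b .z (.a .z (.l 37)))))) (.a (.b
(.a (.l 32) (.b (.l 32) (.a (.b (.l 32) .z) .z))) (.a (.b (.a (.l 32) (.b (.l 32) .z)) (.a (.b (.l 32) .z) .z)) (.b (.a .z (.l 37)) (.l 37)))) (.b (.a
(.b .z (.a .z (.l 37))) (.l 37)) (.l 37)))) (.b (.a (.b (.a (.b (.a (.b (.l 32) .z) .z) .z) (.b (.l 35) (.b (.l 35) .z))) (.l 37)) (.b (.b (.l 35) (.b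
(.l 35) .z)) (.l 37))) (.l 37))) (.a (.b (.a (.b (.a (.b (.a .z (.l 37)) (.l 37)) (.l 37)) (.l 37)) (.l 37)) (.b (.a (.l 37) (.b (.l 37) (.a (.b (.l
37) .z) .z))) (.a (.b (.a (.l 37) (.b (.l 37) .z)) .z) .z))) (.b (.b (.l 37) (.a (.b (.l 37) (.a (.l 37) (.b (.l 37) .z))) (.b (.a (.b (.l 37) .z) .z)
(.a .z (.l 119))))) (.b (.a (.b (.a (.b (.l 37) .z) .z) .z) (.l 119)) (.a .z (.b .z (.a .z (.l 43)))))))) (.b (.b (.a (.b (.a (.b (.a .z (.l 70)) (.l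
70)) .z) (.a (.b (.a (.l 70) .z) (.a .z (.b .z (.l 43)))) (.b (.a .z (.l 43)) (.l 43)))) (.a (.b (.b (.a .z (.b .z (.l 43))) (.a (.b .z (.l 43)) (.l
43))) (.l 43)) (.b (.l 43) (.a (.b (.l 43) (.a (.l 43) .z)) (.b (.a (.l 43) .z) .z))))) (.a (.l 43) (.a (.b (.a (.l 43) (.b (.l 43) (.a (.l 43) .z)))
(.a (.b (.a (.l 43) .z) .z) (.b .z (.l 44)))) (.b (.a (.b .z (.a .z (.l 44))) (.b (.l 44) (.a (.l 44) .z))) (.a (.b (.l 44) (.a (.l 44) .z)) .z)))))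
(.a (.b (.a (.b (.l 43) (.a (.l 43) (.b (.l 43) .z))) (.b (.a (.b (.l 43) (.a (.l 43) .z)) (.b .z (.a .z (.l 44)))) (.a (.b .z (.a .z (.l 44))) (.b
(.l 44) (.a (.l 44) .z))))) (.a (.b (.a (.b (.a (.l 43) .z) .z) (.b (.a .z (.l 44)) (.l 44))) (.a (.b (.a .z (.l 44)) (.l 44)) (.b (.a (.l 44) .z)
.z))) (.b (.a (.b (.l 44) .z) (.b .z (.a .z (.l 49)))) (.a (.b (.a .z (.l 49)) (.l 49)) (.l 49))))) (.b (.a (.b (.a (.b (.a .z (.l 44)) (.l 44)) (.b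
(.a (.l 44) .z) .z)) (.a (.b (.a (.l 44) .z) .z) (.b (.a .z (.l 49)) (.l 49)))) (.b (.a (.b .z (.l 49)) (.b (.b .z (.l 49)) (.l 49))) (.l 49))) (.b
(.l 49) (.a (.b (.l 49) (.a (.l 49) (.b (.l 49) .z))) (.b (.a (.l 49) .z) .z))))))))

theorem vQ233 : ev Q233 I5_20 I6_59 = 363586659548665 := by decide +kernel

noncomputable def Q16 : QT :=
(.b (.a (.a (.l 28) (.a (.l 28) (.b (.a (.l 28) (.a (.l 28) (.b (.l 28) (.a (.b (.l 28) (.a (.l 28) (.b (.l 28) .z))) (.b (.a (.l 28) (.b (.l 28) .z))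
.z))))) (.a (.b (.l 28) (.a (.l 28) (.b (.a (.l 28) (.b (.l 28) (.a (.l 28) .z))) (.a (.b (.l 28) (.a (.l 28) .z)) .z)))) (.b (.a (.b (.a (.l 28) (.a
(.l 28) (.b (.l 28) .z))) (.a (.b (.l 28) (.a (.l 28) .z)) .z)) .z) (.a .z (.b (.a .z (.l 76)) (.l 76)))))))) (.a (.a (.a (.b (.a (.b (.a (.b (.l 28)
(.a (.l 28) (.b (.l 28) .z))) (.b (.a (.l 28) (.b (.l 28) .z)) .z)) .z) (.b .z (.a (.b .z (.l 76)) (.l 76)))) (.a (.b (.a (.b .z (.l 76)) (.l 76)) (.l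
76)) (.l 76))) (.b (.a (.b (.a (.b .z (.l 76)) (.l 76)) (.l 76)) (.l 76)) (.b (.l 76) (.a (.l 76) (.b (.l 76) (.a (.l 76) .z)))))) (.b (.a (.l 76) (.b
(.l 76) (.a (.b (.l 76) (.a (.l 76) .z)) .z))) (.a (.b (.a (.l 76) (.b (.l 76) .z)) (.a (.b (.a (.l 76) .z) .z) .z)) (.b .z (.a .z (.b .z (.a .z (.l
72)))))))) (.b (.a (.a (.b (.a (.b (.a (.l 76) .z) .z) .z) .z) (.b .z (.a (.b .z (.a .z (.l 72))) (.l 72)))) (.a (.b (.a (.b .z (.a (.l 72) .z)) .z)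
(.a (.l 72) (.a (.b .z (.l 72)) .z))) .z)) (.a (.a (.b (.a .z (.b (.a .z (.l 72)) (.l 72))) (.l 72)) (.l 72)) (.b (.a (.l 72) .z) (.a (.l 72) (.b (.a
(.a (.l 72) .z) .z) (.a (.l 72) (.b .z (.a .z (.b .z (.l 24)))))))))))) (.b (.a (.a (.l 28) (.a (.a (.l 28) (.b (.l 28) (.a (.l 28) (.b (.a (.l 28)
(.b (.l 28) (.a (.l 28) .z))) (.a (.b (.a (.l 28) .z) .z) .z))))) (.a (.b (.a (.b (.a (.l 28) (.b (.l 28) (.a (.l 28) .z))) (.a (.b (.l 28) (.a (.l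
28) .z)) .z)) .z) (.a (.b .z (.a .z (.l 76))) (.l 76))) (.b (.a (.b (.a .z (.l 76)) (.l 76)) (.l 76)) (.l 76))))) (.a (.a (.b (.a (.l 76) (.a (.b (.l
76) .z) .z)) (.a (.a (.b (.l 76) .z) .z) (.a .z (.b .z (.a .z (.l 72)))))) (.a (.b (.a .z (.b .z (.a .z (.l 72)))) (.a (.b (.a .z (.l 72)) (.l 72))
(.l 72))) (.b (.a (.b (.a .z (.l 72)) (.l 72)) (.l 72)) (.l 72)))) (.a (.b (.l 72) (.a (.b (.l 72) (.a (.l 72) (.b (.l 72) .z))) (.b (.a (.l 72) .z)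
(.a (.b .z (.a .z (.b .z (.l 24)))) (.b (.a (.b .z (.l 24)) (.l 24)) (.l 24)))))) (.b (.a (.b (.a (.l 72) (.b (.l 72) .z)) (.a (.b (.l 72) .z) (.b .z
(.a (.b .z (.l 24)) (.l 24))))) (.b (.a (.b .z (.a .z (.l 24))) (.b (.a (.b .z (.l 24)) (.l 24)) (.l 24))) (.l 24))) (.a (.b (.a (.b (.a .z (.b .z (.l
24))) (.l 24)) (.l 24)) (.l 24)) (.l 24)))))) (.a (.a (.l 28) (.a (.a (.b (.a (.l 28) (.b (.l 28) (.a (.l 28) (.b (.l 28) (.a (.l 28) .z))))) (.a (.b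
(.l 28) (.a (.b (.l 28) (.a (.l 28) .z)) (.b (.a (.l 28) .z) .z))) (.b (.a (.b (.a (.l 28) .z) .z) .z) .z))) (.b (.a (.b (.a (.l 28) (.b (.a (.l 28)
.z) .z)) .z) (.b .z (.a .z (.l 76)))) (.a (.b (.a .z (.l 76)) (.l 76)) (.l 76)))) (.b (.a (.l 76) (.a (.b (.l 76) (.b (.l 76) .z)) (.b (.a (.l 76) .z)
.z))) (.a (.b (.a (.l 76) (.b (.l 76) .z)) .z) (.b .z (.a .z (.b .z (.l 72)))))))) (.a (.a (.b (.a (.b .z (.a .z (.b .z (.l 72)))) (.a (.b (.b .z (.l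
72)) (.l 72)) (.l 72))) (.a (.b (.a (.b .z (.l 72)) (.l 72)) (.l 72)) (.b (.l 72) (.a (.l 72) (.b (.l 72) .z))))) (.b (.a (.l 72) (.b (.l 72) (.a (.b
(.l 72) .z) (.b .z (.a .z (.b .z (.l 24))))))) (.a (.b (.a (.l 72) (.b (.l 72) .z)) (.a (.b .z (.a (.b .z (.l 24)) (.l 24))) (.b (.a (.b .z (.l 24))
(.l 24)) (.l 24)))) (.b (.a (.b .z (.a (.b .z (.l 24)) (.l 24))) (.l 24)) (.l 24))))) (.b (.a (.a (.b (.a (.b (.l 72) .z) (.b .z (.a (.b .z (.l 24))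
(.l 24)))) (.a (.b (.a .z (.l 24)) (.l 24)) (.l 24))) (.l 24)) (.l 24)) (.a (.b (.l 24) (.a (.l 24) (.b (.l 24) (.a (.l 24) (.b (.l 24) .z))))) (.b
(.a (.b (.l 24) (.a (.l 24) (.b (.l 24) (.a (.l 24) .z)))) (.b (.a (.l 24) (.b (.a (.l 24) .z) .z)) (.a .z (.b .z (.l 46))))) (.a (.b (.a (.b (.l 24)
(.a (.l 24) .z)) .z) (.a .z (.l 46))) (.l 46)))))))))

theorem vQ16 : ev Q16 I4_0 I6_20 = 758882846562808 := by decide +kernel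

noncomputable def Q122 : QT :=
(.b (.a (.b (.a (.b (.b (.l 27) (.b (.b (.a (.l 27) (.a (.l 27) (.a (.l 27) .z))) .z) (.b (.a (.a (.a .z (.l 30)) (.l 30)) (.l 30)) (.l 30)))) (.a (.l
30) (.b (.l 30) (.a (.b (.l 30) (.a (.b (.l 30) .z) .z)) (.b (.a (.b (.l 30) .z) .z) .z))))) (.b (.a (.b (.l 27) (.b (.b .z (.l 30)) (.l 30))) (.b (.a
(.b (.l 27) (.b (.l 27) (.a (.l 27) .z))) (.b (.a (.l 27) .z) (.b (.l 27) .z))) (.a (.b (.b .z (.l 30)) (.a (.b (.l 30) .z) .z)) (.b (.a (.b (.l 30)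
.z) .z) .z)))) (.a (.b (.a (.b (.l 30) (.a (.b (.l 30) .z) .z)) (.b (.a (.b (.l 30) .z) .z) .z)) .z) (.b .z (.a (.b .z (.l 66)) .z))))) (.a (.b (.a
(.b (.a (.b (.l 30) (.a (.b (.l 30) .z) .z)) (.b (.a (.b (.l 30) .z) .z) .z)) .z) (.b (.a .z (.b (.l 91) .z)) (.a (.l 94) .z))) (.a (.b (.a (.l 132)
.z) (.a (.l 132) .z)) (.b (.a .z (.b (.a .z (.l 33)) (.l 33))) (.a (.b (.a .z (.l 33)) (.l 33)) (.l 33))))) (.b (.a (.b (.a .z (.b .z (.l 66))) (.a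
(.b .z (.l 33)) (.b .z (.a (.l 33) .z)))) (.b (.l 66) (.a (.b (.l 66) .z) (.l 66)))) (.b (.a (.l 33) (.b .z (.a (.b (.l 33) .z) .z))) (.a (.b (.a (.l
33) (.b (.l 33) .z)) (.a (.b (.l 33) .z) .z)) (.b (.a .z (.l 33)) (.l 33))))))) (.b (.a (.b (.a (.b (.a (.b (.a (.b (.l 26) .z) (.l 26)) .z) (.b (.a
(.b (.l 26) .z) .z) (.a .z (.b .z (.l 32))))) (.a .z (.b (.a .z (.l 32)) .z))) (.b (.a (.b (.a (.b .z (.l 29)) (.l 29)) (.b .z (.l 32))) (.b (.l 29)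
(.b .z (.l 32)))) (.a (.b (.l 32) (.a (.b (.l 32) .z) (.l 32))) (.l 32)))) (.a (.b (.a (.a (.l 129) .z) .z) .z) (.b (.a (.b (.a .z (.b (.l 32) .z))
.z) (.b (.l 32) (.a .z (.l 32)))) .z))) (.b (.b (.b (.b (.a (.l 29) (.a (.l 29) .z)) (.a .z (.a .z (.a .z (.l 32))))) (.b (.a (.a (.a .z (.l 32)) (.l
32)) (.l 32)) (.l 32))) (.l 32)) (.a (.b (.l 32) (.a (.b (.l 32) (.a .z (.b (.l 32) .z))) (.l 32))) (.l 32)))) (.a (.a (.b (.b .z (.b (.a (.l 66) .z)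
.z)) (.b (.b (.a .z (.l 33)) (.l 33)) (.l 33))) (.b (.a (.b .z (.b .z (.l 33))) (.b .z (.a (.b (.l 33) .z) .z))) (.a (.b (.a (.l 33) (.b (.l 33) .z))
(.a .z (.b .z (.l 37)))) (.b (.a .z (.b (.l 29) .z)) (.b .z (.l 37)))))) (.b (.a (.b (.a (.b .z (.a .z (.l 29))) (.b (.a (.b (.l 32) .z) (.l 32)) (.a
.z (.b (.l 32) .z)))) (.a (.a (.b (.a .z (.l 29)) (.l 29)) (.l 29)) (.b (.a (.l 29) (.b .z (.l 29))) (.l 29)))) (.b (.l 32) (.a (.b (.a .z (.l 32))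
(.a (.b .z (.l 29)) .z)) (.l 32)))) (.a (.b (.a (.b (.l 29) (.a (.b (.l 29) .z) (.l 29))) (.l 29)) (.a (.b (.a .z (.b (.l 29) .z)) (.a (.l 37) .z))
(.b (.l 29) (.a .z (.l 29))))) (.b (.a (.b (.a (.l 29) (.b .z (.l 29))) (.l 29)) (.b (.a .z (.l 32)) (.a (.b .z (.l 29)) .z))) (.l 29))))))) (.a (.a
(.b (.b (.b (.a (.a .z (.a (.b .z (.l 33)) (.l 33))) (.b (.a (.l 33) .z) (.a .z (.b .z (.l 36))))) (.a (.b (.a (.a .z (.l 33)) .z) (.a .z (.b .z (.l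
36)))) (.b (.a (.b .z (.l 36)) (.l 36)) (.l 36)))) (.b (.a (.b (.a (.b .z (.l 36)) (.l 36)) (.l 36)) (.l 36)) (.l 36))) (.b (.l 36) (.b (.b (.l 36)
(.b (.l 36) .z)) (.b (.b (.a (.a .z (.l 44)) (.a (.l 44) .z)) (.a (.l 44) (.a (.l 44) .z))) (.l 44))))) (.b (.a (.b (.b (.b (.a (.b .z (.l 36)) .z)
(.l 36)) (.l 36)) (.l 36)) (.b (.b (.a (.b (.a .z (.l 33)) .z) (.l 33)) (.a (.b (.a (.l 36) .z) (.l 36)) (.b .z (.a (.l 36) .z)))) (.a (.l 36) (.b (.l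
36) (.a (.l 36) .z))))) (.a (.b (.l 36) (.a (.b (.b (.l 36) .z) .z) (.b (.a (.b (.l 36) .z) (.b (.l 36) .z)) (.a .z (.b .z (.l 37)))))) (.b (.a (.b
(.a (.l 36) (.b (.l 36) .z)) (.a (.b (.l 36) .z) .z)) (.b (.a .z (.b .z (.l 36))) (.b (.l 36) (.b (.l 36) .z)))) (.a (.b .z (.b (.a (.l 37) .z) (.l
37))) (.b (.b (.b .z (.l 39)) (.l 39)) .z)))))) (.a (.b (.a (.b (.a (.b (.l 33) (.a (.b (.l 33) .z) (.b (.l 33) .z))) (.b (.a (.b (.l 33) .z) .z) (.a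
.z (.l 37)))) (.a (.b (.a (.b (.l 36) .z) .z) (.a (.b .z (.l 36)) (.l 36))) (.b (.b (.a .z (.l 37)) .z) (.l 36)))) (.b (.a (.b (.a (.b .z (.l 37)) (.l
37)) (.l 37)) (.l 37)) (.b (.a (.b (.l 37) (.a .z (.l 37))) (.l 37)) (.a (.b .z (.a (.l 36) .z)) (.b (.l 37) .z))))) (.b (.a (.b (.b (.l 36) (.a (.l
36) (.b (.l 36) .z))) (.b (.a (.b (.l 36) .z) .z) .z)) (.b (.a (.b (.l 36) .z) .z) .z)) (.a .z (.b .z (.b .z (.a .z (.l 39))))))) (.b (.b (.a (.b (.a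
(.l 37) (.b .z (.a (.l 37) .z))) (.l 37)) (.b (.a (.b (.l 29) (.a .z (.b (.l 29) .z))) (.l 29)) (.a (.b (.a (.l 37) .z) (.l 37)) (.b (.a (.b (.l 29)
.z) (.l 29)) (.a .z (.b (.l 29) .z)))))) (.a (.l 37) (.b (.a (.l 37) (.b (.a (.l 37) .z) (.l 37))) (.l 37)))) (.b (.a (.b (.a (.b (.a .z (.l 37)) .z)
(.l 37)) .z) (.b (.l 37) (.a (.b (.l 37) (.a .z (.l 37))) (.l 37)))) (.a (.b (.b (.a (.l 81) .z) (.a .z (.b .z (.l 39)))) (.b (.a (.b .z (.l 39)) (.l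
39)) (.b (.l 39) .z))) (.b (.a (.b .z (.a (.l 39) .z)) (.b (.l 37) .z)) (.a (.b (.l 39) (.b (.l 39) .z)) (.b (.a (.l 39) .z) (.b (.l 39) .z))))))))))

theorem vQ122 : ev Q122 I5_8 I6_60 = 303267474610007 := by decide +kernel

noncomputable def Q238 : QT :=
(.b (.b (.b (.b (.a (.l 25) (.a (.b (.l 25) (.a (.b (.l 25) (.a (.b (.l 25) .z) .z)) (.b (.a (.b (.l 25) .z) .z) .z))) (.b (.a (.b (.l 25) (.a (.b (.l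
25) .z) .z)) (.b (.a (.b (.l 25) .z) .z) .z)) (.a .z (.l 129))))) (.a (.b (.a (.l 25) (.b (.a (.l 25) (.b (.a (.l 25) .z) .z)) (.a (.b (.a (.l 25) .z)
.z) .z))) (.a (.b (.a (.l 25) (.b (.a (.l 25) .z) .z)) (.a (.b (.a (.l 25) .z) .z) .z)) (.b (.a .z (.l 83)) (.l 83)))) (.b (.a (.b .z (.a (.l 83) .z))
.z) (.a (.a (.l 83) .z) .z)))) (.b (.a (.b (.a (.b (.a .z (.l 83)) (.l 83)) (.l 83)) (.a (.l 83) (.b (.l 83) (.a (.l 83) .z)))) (.a (.b (.a (.l 83)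
.z) .z) .z)) (.a (.a (.b (.b (.l 83) (.a (.l 83) .z)) (.b (.a .z (.b .z (.a .z (.l 31)))) (.a (.b .z (.a .z (.l 31))) (.l 31)))) (.b (.a (.b .z (.b .z
(.a .z (.l 31)))) (.b (.b .z (.a .z (.l 31))) (.a (.l 31) .z))) (.a (.b (.a (.l 31) (.b (.l 31) .z)) (.a (.b (.l 31) .z) .z)) (.b .z (.l 62))))) (.a
(.b (.a (.b .z (.a .z (.l 62))) (.a (.a (.l 62) .z) .z)) (.a (.l 62) (.a (.a (.l 62) .z) .z))) (.b .z (.a .z (.b (.a .z (.l 53)) (.l 53)))))))) (.b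
(.a (.b (.a (.b (.a (.l 31) (.b (.a (.l 31) (.b (.l 31) .z)) (.a (.b (.l 31) .z) .z))) (.a (.b (.a (.l 31) (.b (.l 31) .z)) (.a (.b (.l 31) .z) .z))
(.b (.a .z (.l 32)) (.l 32)))) (.b (.a (.b .z (.b .z (.l 32))) (.b (.l 62) (.b .z (.l 32)))) (.a (.l 32) (.b (.l 32) (.a (.l 32) (.b (.l 32) .z))))))
(.a (.b (.a (.b (.a (.b .z (.l 32)) (.l 32)) (.l 32)) (.l 32)) (.a (.l 32) (.b (.l 32) (.a (.l 32) .z)))) (.b (.a (.b (.l 32) (.a (.l 32) .z)) (.b (.a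
(.b (.l 32) .z) .z) .z)) (.a (.b .z (.a .z (.l 33))) (.b (.b .z (.l 33)) (.l 33)))))) (.b (.a (.b (.a (.b (.l 62) (.a (.b .z (.l 32)) .z)) .z) (.a (.b
(.a (.b (.l 32) .z) .z) .z) .z)) (.b (.a (.b (.a .z (.l 53)) (.l 53)) (.l 53)) (.a (.b (.a .z (.l 53)) .z) (.l 53)))) (.b (.a (.a (.l 87) (.a .z (.l
95))) .z) (.a (.b .z (.a (.b (.l 33) .z) .z)) (.b (.a .z (.l 55)) (.a (.b (.l 55) .z) (.l 55))))))) (.a (.b (.a (.b (.a (.b (.a (.l 32) (.b (.l 32)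
.z)) (.a (.b (.l 32) .z) .z)) (.b .z (.l 33))) (.a (.b (.a .z (.l 33)) .z) (.b .z (.b .z (.l 34))))) (.b (.b (.a (.l 33) .z) .z) (.b .z (.a (.l 34)
.z)))) (.b (.b (.b (.l 34) .z) (.l 35)) (.l 35))) (.b (.b (.a .z (.b (.a .z (.b (.l 55) .z)) (.a (.l 101) .z))) (.a .z (.b (.a (.l 101) .z) .z))) (.b
(.b .z (.l 35)) (.l 35)))))) (.b (.b (.b (.b (.b (.l 35) (.b (.a (.l 35) (.a (.a (.l 35) .z) .z)) (.a .z (.a .z (.l 37))))) (.a (.l 37) (.a (.l 37)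
(.b (.l 37) (.a (.l 37) (.b (.l 37) .z)))))) (.a (.b (.l 37) (.a (.l 37) (.b (.l 37) (.a (.b (.l 37) .z) .z)))) (.b (.a (.b (.l 37) (.a (.l 37) .z))
(.b (.a (.b (.l 37) .z) .z) .z)) .z))) (.b (.a (.b (.a (.b (.a (.l 37) (.b (.l 37) .z)) .z) (.b (.a .z (.l 119)) (.l 119))) (.a (.b (.a .z (.l 119))
(.l 119)) (.b (.l 119) .z))) (.a (.b (.a (.l 119) .z) .z) .z)) (.a (.a (.b (.b (.a (.l 119) .z) (.a .z (.b .z (.l 43)))) (.a (.b (.b .z (.l 43)) (.l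
43)) (.b (.l 43) (.a (.l 43) .z)))) (.b (.a (.b .z (.a (.l 43) .z)) .z) (.a (.b .z (.a .z (.l 44))) (.b (.b .z (.l 44)) (.a (.l 44) .z))))) (.a (.b .z
(.a (.b (.a (.l 44) .z) .z) .z)) .z)))) (.b (.a (.b (.a (.b (.a (.b (.a (.l 43) .z) .z) (.b .z (.l 44))) (.a (.b (.a .z (.l 44)) (.l 44)) (.b (.a (.l
44) .z) .z))) (.b (.a (.b (.l 44) (.a (.l 44) .z)) (.b .z (.a .z (.l 45)))) .z)) (.a (.b (.a (.b (.a (.l 44) .z) .z) (.b .z (.l 47))) (.b (.l 47) (.b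
(.l 47) .z))) (.b (.b (.b (.l 46) .z) (.l 47)) (.b (.l 47) (.b (.l 47) .z))))) (.b .z (.b (.b .z (.l 47)) (.b (.l 47) (.b (.l 47) .z))))) (.b (.a (.b
(.l 49) (.a (.l 49) (.b (.l 49) (.a (.l 49) (.b (.l 49) .z))))) (.b (.a (.l 49) (.b (.a (.l 49) (.b (.l 49) .z)) (.a (.b (.l 49) .z) .z))) (.a (.b (.a
(.b (.l 49) .z) .z) .z) .z))) (.a (.b (.a (.b (.l 49) (.a (.b (.l 49) .z) .z)) .z) .z) (.a .z (.b .z (.a .z (.l 89)))))))))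

theorem vQ238 : ev Q238 I6_42 I5_29 = 240087022827056 := by decide +kernel

noncomputable def Q124 : QT :=
(.b (.a (.b (.b (.b (.b (.a (.b (.a .z (.l 32)) (.l 32)) (.l 32)) (.l 32)) (.l 32)) (.a (.l 32) (.b (.l 32) (.a (.l 32) (.b (.a (.l 32) (.b (.a (.l
32) .z) .z)) (.a (.b (.a (.l 32) .z) .z) (.b .z (.l 35)))))))) (.a (.b (.b (.l 32) (.a (.b (.l 32) (.a (.l 32) (.b (.l 32) (.a (.l 32) .z)))) (.b (.a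
(.l 32) (.b (.a (.l 32) .z) .z)) (.a (.b (.a (.l 32) .z) .z) (.b .z (.l 35)))))) (.a (.b (.a (.b (.b (.l 32) (.a (.l 32) .z)) .z) .z) (.a (.b .z (.a
(.l 29) .z)) (.b (.l 38) (.a .z (.l 38))))) (.b (.b (.l 35) (.b .z (.l 38))) (.l 38)))) (.b (.b (.a (.b (.a (.l 32) (.b (.a (.l 32) .z) .z)) (.a (.b
(.a (.l 32) .z) .z) (.b .z (.l 35)))) (.b (.a (.b .z (.l 35)) (.l 35)) (.l 35))) (.a (.b (.a (.b .z (.l 35)) (.l 35)) (.l 35)) (.l 35))) (.b (.b (.b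
(.a (.l 35) (.a (.l 35) .z)) .z) (.b (.a (.a .z (.l 38)) (.l 38)) (.l 38))) (.l 38))))) (.b (.b (.a (.b (.l 32) (.a (.l 32) (.b (.a (.l 32) (.b (.l
32) (.a (.l 32) .z))) (.a (.b (.l 32) (.a (.l 32) .z)) .z)))) (.b (.a (.b (.a (.l 32) (.b (.l 32) (.a (.l 32) .z))) (.a (.b (.l 32) (.a (.l 32) .z))
.z)) (.b (.a .z (.l 33)) (.b (.l 33) (.a .z (.l 33))))) (.a (.b (.a .z (.l 35)) (.l 35)) (.b (.b .z (.a (.l 35) .z)) (.l 35))))) (.a (.b (.a (.b (.a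
(.l 32) (.b (.l 32) (.a (.l 32) .z))) (.a (.b (.l 32) (.a (.l 32) .z)) .z)) (.b (.a .z (.l 35)) (.l 35))) (.a (.b (.a (.b .z (.l 35)) (.l 35)) (.l
35)) (.l 35))) (.l 35))) (.b (.b (.l 35) (.b (.a (.l 35) (.b (.l 35) (.a (.l 35) (.a (.l 35) .z)))) (.a (.b (.l 35) (.a (.l 35) .z)) (.b (.a (.a (.l
35) .z) .z) (.a .z (.l 38)))))) (.a (.b (.b (.b (.a .z (.a .z (.l 38))) (.l 38)) (.l 38)) (.l 38)) (.b (.a (.l 38) (.b (.l 38) (.a (.l 38) (.b (.l 38)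
.z)))) (.a (.b (.l 38) (.a (.l 38) .z)) (.b (.a (.b (.l 38) .z) .z) (.a (.b .z (.l 41)) (.l 41))))))))) (.a (.a (.b (.b (.a (.b (.a (.l 29) (.b .z (.a
(.l 29) .z))) (.l 29)) (.b (.a (.b (.l 38) (.a .z (.l 38))) (.l 38)) (.a (.b .z (.a (.l 29) .z)) (.b (.l 38) (.a .z (.l 38)))))) (.a (.b (.a (.b (.a
.z (.l 29)) .z) (.l 29)) (.a (.b (.a (.l 37) .z) (.l 37)) (.b (.a .z (.l 29)) .z))) (.a (.b (.l 29) (.b (.l 29) (.a (.b (.l 29) .z) (.l 29)))) (.b (.a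
(.b .z (.l 29)) .z) (.b (.l 29) (.b (.l 29) (.a (.l 29) .z))))))) (.a (.b (.l 37) (.a (.b (.l 37) .z) (.b (.a (.b (.l 37) .z) .z) (.a (.b .z (.l 35))
(.l 35))))) (.b (.a (.b (.b .z (.a (.l 37) .z)) (.a (.b (.l 37) .z) .z)) (.b .z (.a (.b .z (.l 35)) (.l 35)))) (.a (.b (.a (.b .z (.l 35)) (.l 35))
(.l 35)) (.l 35))))) (.b (.a (.b (.l 38) (.a (.b (.a (.b (.l 38) .z) (.l 38)) .z) (.b (.b (.l 38) (.b (.l 38) .z)) (.a .z (.b .z (.l 44)))))) (.b (.l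
38) (.b (.b (.a (.l 38) .z) (.a .z (.b .z (.l 41)))) (.b (.b (.l 41) .z) (.l 44))))) (.a (.b (.a (.b (.a (.b .z (.l 35)) (.l 35)) (.l 35)) (.b (.a (.b
.z (.l 35)) .z) (.l 35))) (.l 35)) (.b (.a (.b (.a (.b (.l 44) .z) (.l 44)) (.a .z (.b (.l 44) .z))) (.l 44)) (.a (.b (.a (.l 35) (.b .z (.l 35))) (.l
35)) (.b (.a .z (.b (.l 44) .z)) (.a (.l 35) (.b .z (.l 35))))))))) (.a (.b (.b (.b (.a (.l 38) (.b (.l 38) (.a (.b (.l 38) .z) .z))) (.a (.b (.a (.l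
38) (.b (.l 38) .z)) (.a (.b (.l 38) .z) .z)) (.b (.a .z (.l 41)) (.l 41)))) (.b (.a (.b (.a (.b .z (.l 41)) (.l 41)) (.l 41)) (.b (.l 41) (.b (.l 41)
(.a (.l 41) .z)))) (.b (.b .z (.a (.a .z (.l 44)) (.l 44))) (.l 44)))) (.a (.b (.l 44) (.a (.b (.b (.l 44) (.b (.l 44) .z)) .z) (.b (.b (.b (.l 44)
.z) .z) (.b (.b .z (.l 50)) (.l 50))))) (.b (.b (.l 44) (.b (.l 44) (.a (.l 44) .z))) (.b (.b (.a .z (.b .z (.l 47))) (.b (.l 47) .z)) (.b (.b (.a .z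
(.l 50)) (.l 50)) (.l 50)))))) (.b (.b (.b (.a (.b (.a .z (.b .z (.l 41))) (.a (.b .z (.l 41)) (.l 41))) (.l 41)) (.l 41)) (.b (.b (.l 41) (.b (.a (.l
41) .z) (.a .z (.a .z (.l 44))))) (.l 44))) (.b (.b (.a (.b (.l 44) (.a (.l 44) (.b (.l 44) .z))) (.b (.a (.l 44) .z) (.a .z (.b .z (.l 47))))) (.a
(.b (.a (.b (.l 44) .z) .z) (.a (.b .z (.l 47)) (.l 47))) (.l 47))) (.b (.b (.l 47) (.b (.a (.a (.l 47) .z) .z) (.a .z (.l 50)))) (.l 50)))))))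

theorem vQ124 : ev Q124 I5_9 I6_60 = 393865510011530 := by decide +kernel

noncomputable def Q136 : QT :=
(.a (.b (.a (.b .z (.a (.a (.b (.b (.b (.a .z (.b .z (.a .z (.b .z (.l 59))))) (.a (.b .z (.a .z (.l 59))) (.l 59))) (.l 59)) (.l 59)) (.b (.b (.b (.a
(.b .z (.b (.b .z (.l 59)) (.l 59))) (.b .z (.b (.b .z (.l 59)) (.l 59)))) (.l 59)) (.l 59)) (.a (.l 59) (.b (.l 59) (.a (.l 59) (.b (.l 59) (.a (.b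
(.l 59) .z) .z))))))) (.b (.a (.b (.b (.b .z (.b (.b .z (.l 59)) (.l 59))) (.l 59)) (.a (.l 59) (.b (.l 59) (.a (.l 59) (.b (.l 59) (.a (.l 59)
.z)))))) (.b (.a (.b (.b .z (.b (.b .z (.l 59)) (.l 59))) (.l 59)) (.b (.b .z (.b (.b .z (.l 59)) (.l 59))) (.a (.b (.l 59) (.a (.l 59) .z)) (.b (.a
(.l 59) .z) .z)))) (.a (.b (.a (.l 59) (.b (.a (.l 59) .z) .z)) .z) .z))) (.a (.b (.a (.b (.l 59) (.a (.l 59) (.b (.a (.l 59) .z) .z))) (.b (.a (.b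
(.l 59) .z) .z) .z)) (.a (.b (.a (.b (.a (.l 59) .z) .z) .z) .z) .z)) .z)))) (.b .z (.a (.b .z (.a .z (.b .z (.a .z (.b .z (.l 167)))))) (.b .z (.a
(.b .z (.b (.a (.b .z (.l 167)) .z) (.a (.b (.l 167) .z) .z))) .z))))) (.b (.a (.a (.b (.a (.b (.b (.b (.a (.b (.l 59) (.a .z (.l 59))) (.l 59)) (.a
.z (.b (.a .z (.l 59)) .z))) .z) .z) (.a (.b (.a (.b (.b (.l 59) (.b (.l 59) .z)) .z) (.b (.l 59) .z)) .z) (.b (.a (.b (.a (.l 59) .z) .z) .z) .z)))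
(.b .z (.b (.b .z (.b .z (.b .z (.l 143)))) (.l 143)))) (.b .z (.a (.b .z (.b .z (.l 143))) (.b .z (.a (.b .z (.b (.l 143) .z)) .z))))) (.a (.b (.a .z
(.b (.b (.a (.b (.l 167) .z) .z) .z) .z)) (.a .z (.b .z (.b .z (.a .z (.l 428)))))) .z)) (.a (.a (.b (.b (.b (.l 143) (.a (.b (.l 143) (.a (.l 143)
.z)) .z)) (.b .z (.a (.a .z (.b .z (.a .z (.l 113)))) (.b .z (.a (.l 113) .z))))) (.a (.b (.b (.a .z (.b (.l 113) .z)) (.a .z (.b .z (.b .z (.b .z (.l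
58)))))) (.a (.b (.l 58) (.a (.l 58) (.b (.l 58) .z))) (.b (.a (.l 58) (.b (.a (.l 58) .z) .z)) .z))) (.b (.a (.b (.l 113) .z) (.b (.a (.b (.l 113)
.z) .z) .z)) .z))) (.b (.a (.b (.a (.b (.b (.l 143) .z) .z) .z) .z) (.b (.a .z (.b .z (.l 152))) (.l 152))) (.a .z (.b (.b (.b (.l 152) .z) .z) .z))))
(.b (.a (.a (.a (.a (.l 152) .z) .z) .z) .z) (.a .z (.b (.a (.a (.a (.b .z (.l 154)) .z) .z) .z) (.a (.b (.a (.a .z (.l 154)) .z) (.a (.a .z (.l 154))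
.z)) .z))))))) (.b .z (.a .z (.b .z (.a .z (.b .z (.a .z (.b .z (.a .z (.b .z (.a (.b .z (.l 101)) .z)))))))))))

theorem vQ136 : ev Q136 I4_6 I4_6 = 277041041017151 := by decide +kernel

noncomputable def Q248 : QT :=
(.a (.b (.a (.b (.b (.b (.a (.b (.a (.b (.a (.b (.a .z (.l 13)) (.l 13)) (.l 13)) (.l 13)) (.l 13)) (.l 13)) (.l 13)) (.l 13)) (.l 13)) (.a (.b (.b
(.l 13) (.b (.l 13) (.b (.a (.b (.l 13) (.a (.a .z (.l 13)) (.l 13))) (.l 13)) (.a .z (.b (.l 13) (.a .z (.l 13))))))) (.a (.b (.b (.a .z (.l 103))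
.z) (.b (.a .z (.l 115)) .z)) (.b (.b .z (.a .z (.l 115))) (.a (.b (.l 115) .z) (.b (.l 115) (.a .z (.b .z (.a .z (.l 14))))))))) (.b (.a (.l 13) (.b
(.l 13) (.a (.b (.l 13) (.a (.l 13) (.b (.l 13) (.a (.l 13) .z)))) (.b (.a (.l 13) (.b (.l 13) .z)) (.a (.b .z (.a .z (.l 14))) (.b (.a .z (.l 14))
(.l 14))))))) (.a (.b (.a (.b (.b (.b (.a .z (.l 13)) .z) .z) (.l 115)) (.b (.a (.b (.b (.l 13) .z) .z) (.b (.l 13) .z)) (.a .z (.b .z (.l 14))))) (.a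
(.b (.a .z (.b .z (.a .z (.l 14)))) (.a (.b (.a .z (.l 14)) (.l 14)) (.l 14))) (.b (.a (.b (.a .z (.l 14)) (.l 14)) (.l 14)) (.l 14)))) (.b (.a (.b
(.a (.b (.a (.l 13) .z) .z) (.b .z (.l 14))) (.l 14)) (.l 14)) (.l 14)))))) (.b (.a (.b (.l 13) (.a (.l 13) (.b (.l 13) (.a (.b (.l 13) (.a (.b (.l
13) (.a (.l 13) .z)) (.b (.a (.l 13) .z) .z))) (.b (.a (.b (.l 13) .z) (.b .z (.a .z (.l 14)))) (.a (.b (.a .z (.l 14)) (.l 14)) (.l 14))))))) (.b (.a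
(.b (.l 13) (.a (.l 13) (.b (.l 13) (.a (.l 13) (.b (.l 13) (.a (.l 13) .z)))))) (.b (.a (.l 13) (.b (.l 13) (.a (.l 13) (.b (.l 13) .z)))) (.a (.b
(.a (.l 13) (.b (.l 13) (.a (.l 13) .z))) (.a (.b (.a (.l 13) .z) .z) (.b .z (.l 14)))) (.b (.a (.b (.a (.l 13) .z) .z) (.b (.a .z (.l 14)) (.l 14)))
(.l 14))))) (.a (.b (.a (.b (.l 13) (.a (.b (.l 13) .z) (.b .z (.a .z (.l 14))))) (.b (.a (.b (.a (.l 13) .z) .z) (.b .z (.l 14))) (.a (.b (.a .z (.l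
14)) (.l 14)) (.l 14)))) (.a (.b (.a (.b (.a .z (.l 14)) (.l 14)) (.l 14)) (.l 14)) (.l 14))) (.l 14)))) (.a (.b (.a (.b (.a (.b (.l 13) (.a (.l 13)
(.b (.a (.l 13) .z) .z))) (.b (.a (.b (.l 13) (.a (.l 13) .z)) (.b (.a (.l 13) .z) .z)) (.a (.b .z (.l 14)) (.l 14)))) (.a (.b (.a (.b .z (.a .z (.l
14))) (.b (.a .z (.l 14)) (.l 14))) (.l 14)) (.l 14))) (.b (.a (.b (.a (.b .z (.l 14)) (.l 14)) (.l 14)) (.l 14)) (.l 14))) (.l 14)) (.l 14)))) (.a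
(.b (.a (.b (.a (.b .z (.a (.b .z (.a .z (.b (.a .z (.l 14)) (.l 14)))) (.b (.a (.b .z (.a .z (.l 14))) (.b (.a .z (.l 14)) (.l 14))) (.l 14)))) (.b
(.a (.b .z (.a (.b .z (.l 14)) (.l 14))) (.b (.a (.b .z (.l 14)) (.l 14)) (.l 14))) (.l 14))) (.b (.l 14) (.b (.l 14) (.b (.a (.b (.a .z (.l 14)) .z)
(.l 14)) (.a (.b .z (.l 37)) (.b (.a .z (.a .z (.l 14))) .z)))))) (.b (.l 14) (.b (.l 14) (.b (.l 14) (.b (.l 14) (.a (.b (.l 14) (.a (.a .z (.l 14))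
(.l 14))) (.l 14))))))) (.b (.b (.b (.a (.l 37) (.b (.a .z (.b (.l 14) (.a .z (.l 14)))) (.a (.l 37) .z))) (.a (.l 37) (.a (.l 37) (.a (.a (.l 37) .z)
.z)))) (.a (.l 37) (.a (.a (.b (.l 37) (.a (.l 37) .z)) (.b (.a (.l 37) .z) .z)) (.a (.b .z (.l 35)) (.l 35))))) (.b (.b (.a (.a (.l 37) (.a (.l 37)
(.a (.l 37) .z))) (.a (.a .z (.l 35)) (.l 35))) (.a (.b (.a .z (.a (.l 37) .z)) .z) (.b (.l 35) (.a (.b (.l 35) .z) (.l 35))))) (.b (.a .z (.b (.a .z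
(.b (.l 35) .z)) (.a (.a (.b .z (.l 20)) (.l 20)) (.b .z (.a (.l 20) .z))))) (.a (.a .z (.b (.a .z (.b .z (.l 20))) (.a (.b .z (.l 20)) (.l 20)))) (.l
20)))))) (.b (.l 14) (.b (.b (.b (.a (.b (.l 14) (.a (.b (.l 14) (.a .z (.l 14))) (.l 14))) (.l 14)) (.a (.b (.a .z (.b (.l 14) (.a .z (.a .z (.l
14))))) (.a (.l 35) (.b .z (.l 35)))) (.b (.l 14) (.a (.b (.a (.a .z (.l 14)) (.l 14)) (.a .z (.a .z (.l 14)))) (.l 14))))) (.a (.l 35) (.b (.a (.b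
(.b .z (.l 35)) (.l 35)) (.b (.a (.b (.a .z (.l 14)) .z) (.b (.l 14) (.a .z (.l 14)))) (.a (.l 35) .z))) (.l 35)))) (.b (.l 35) (.b (.a (.b (.l 35)
(.a (.b (.l 35) .z) (.l 35))) (.l 35)) (.a (.b (.a (.b .z (.a (.l 20) .z)) (.b (.l 35) .z)) (.a (.l 20) (.b .z (.a (.l 20) .z)))) (.b (.l 35) (.a (.b
(.l 35) .z) (.l 35)))))))))) (.b (.a (.b (.a (.b (.a (.b (.a (.b (.a (.l 13) (.b (.l 13) .z)) (.a (.b .z (.a .z (.l 14))) (.b (.a .z (.l 14)) (.l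
14)))) (.b (.a (.b .z (.a .z (.l 14))) (.b (.a .z (.l 14)) (.l 14))) (.l 14))) (.l 14)) (.l 14)) (.l 14)) (.l 14)) (.l 14)) (.b (.b (.b (.b (.a (.l
14) (.b (.a (.b (.a (.a (.l 14) .z) .z) (.l 14)) .z) (.l 14))) (.l 14)) (.l 14)) (.l 14)) (.l 14))) (.b (.l 14) (.b (.a (.b (.l 14) (.a (.b (.a (.b
(.l 14) (.a (.b (.a .z (.l 14)) .z) (.b (.l 14) (.a .z (.l 14))))) (.l 14)) (.a (.b (.a (.l 35) .z) (.l 35)) (.b (.a (.b (.l 14) .z) (.l 14)) .z)))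
(.b (.l 14) (.a (.b (.l 14) (.a (.b (.l 14) .z) (.l 14))) (.l 14))))) (.l 14)) (.a (.b (.a (.l 35) (.b (.a (.b .z (.l 35)) (.b (.a (.b (.l 14) (.a .z
(.l 14))) (.l 14)) (.a .z (.b (.a .z (.l 14)) .z)))) (.l 35))) (.a (.b (.l 35) (.a (.l 35) (.b (.l 35) .z))) (.b (.a (.b (.l 35) (.a (.l 35) .z)) (.b
.z (.a .z (.l 60)))) .z))) (.b (.a (.b (.a (.b (.l 14) (.a (.b (.l 14) (.a .z (.l 14))) (.l 14))) (.l 14)) (.a (.b (.a .z (.b (.l 14) .z)) .z) (.b (.l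
14) (.a .z (.b (.l 14) (.a .z (.l 14))))))) (.l 14)) (.a (.b (.a (.b (.a .z (.l 60)) (.b (.l 60) .z)) (.b (.a (.l 60) .z) (.b (.l 60) .z))) .z) (.b
(.a (.b (.a (.b (.a .z (.l 14)) .z) (.l 14)) .z) (.b (.l 14) (.a (.b (.l 14) (.a .z (.l 14))) (.l 14)))) (.a (.l 81) (.b (.a .z (.b (.a .z (.l 14))
.z)) .z))))))))))

theorem vQ248 : ev Q248 I5_23 I5_28 = 892396375127508 := by decide +kernel

noncomputable def Q29 : QT :=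
(.a (.b (.b (.a (.l 8) (.a (.l 8) (.b (.l 8) (.a (.l 8) (.b (.l 8) (.a (.l 8) (.b (.a (.l 8) (.b (.l 8) (.a (.l 8) (.a (.l 8) (.a (.l 8) .z))))) (.a
(.b (.l 8) (.a (.l 8) (.a (.l 8) .z))) (.b (.a (.a (.l 8) (.a (.l 8) .z)) .z) (.a .z (.l 4))))))))))) (.a (.l 8) (.a (.b (.l 8) (.a (.b (.l 8) (.a (.l
8) (.b (.l 8) (.a (.l 8) (.b (.l 8) (.a (.a (.l 8) (.a (.l 8) .z)) .z)))))) (.b (.a (.l 8) (.b (.l 8) (.a (.b (.l 8) (.a (.l 8) (.a (.l 8) .z))) (.b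
(.a (.l 8) .z) (.a .z (.a (.a .z (.l 4)) (.l 4))))))) (.a (.b (.a (.l 8) (.b (.l 8) (.a (.a (.a (.l 8) .z) .z) .z))) (.a (.b (.a (.a (.l 8) .z) .z)
(.a (.a .z (.a .z (.l 4))) (.l 4))) (.b (.a (.a .z (.l 4)) (.l 4)) (.l 4)))) (.b (.a (.b (.a .z (.a .z (.a .z (.l 4)))) (.a (.a (.a .z (.l 4)) (.l 4))
(.l 4))) (.l 4)) (.l 4)))))) (.b (.a (.b (.l 8) (.a (.b (.l 8) (.a (.l 8) (.b (.l 8) (.a (.l 8) (.a (.a (.l 8) .z) .z))))) (.b (.a (.l 8) (.b (.a (.l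
8) (.a (.a (.l 8) .z) .z)) (.a .z (.a .z (.l 4))))) (.a (.b (.a (.a (.l 8) (.a (.l 8) .z)) .z) (.a .z (.l 4))) (.b (.a (.a (.a .z (.l 4)) (.l 4)) (.l
4)) (.l 4)))))) (.b (.a (.b (.a (.l 8) (.b (.l 8) (.a (.l 8) .z))) (.a (.b (.l 8) (.a (.a (.l 8) (.a (.l 8) .z)) .z)) (.b (.a .z (.a (.a .z (.l 4))
(.l 4))) (.a (.a (.a .z (.l 4)) (.l 4)) (.l 4))))) (.b (.a (.b (.a (.a (.a (.l 8) .z) .z) (.a .z (.a .z (.l 4)))) (.a (.a .z (.l 4)) (.l 4))) (.l 4))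
(.l 4))) (.a (.b (.a (.b (.a .z (.l 4)) (.l 4)) (.l 4)) (.l 4)) (.l 4)))) (.a (.b (.a (.b (.a (.b (.l 8) (.a (.a (.l 8) .z) .z)) (.b (.a .z (.a .z (.l
4))) (.a (.a (.a .z (.l 4)) (.l 4)) (.l 4)))) (.a (.b (.a (.a .z (.a .z (.l 4))) (.l 4)) (.l 4)) (.l 4))) (.l 4)) (.l 4)) (.l 4)))))) (.b (.a (.b (.b
(.a (.l 8) (.a (.l 8) (.b (.l 8) (.a (.l 8) (.b (.l 8) (.a (.l 8) (.a (.a (.l 8) .z) .z))))))) (.a (.l 8) (.a (.b (.l 8) (.a (.b (.l 8) (.a (.l 8) (.a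
(.l 8) (.a (.a (.l 8) .z) .z)))) (.b (.a (.l 8) (.a (.a (.l 8) (.a (.l 8) .z)) .z)) (.a .z (.a .z (.l 4)))))) (.b (.a (.b (.l 8) (.a (.a (.l 8) (.a
(.l 8) .z)) .z)) (.b (.a (.a (.a (.a (.l 8) .z) .z) .z) (.a (.a .z (.a .z (.l 4))) (.l 4))) (.a (.a (.a .z (.l 4)) (.l 4)) (.l 4)))) (.a (.b (.a (.a
.z (.a .z (.a .z (.l 4)))) (.l 4)) (.l 4)) (.l 4)))))) (.b (.a (.b (.b (.a (.l 8) (.a (.l 8) (.a (.l 8) (.a (.l 8) (.a (.a (.l 8) .z) .z))))) (.a (.l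
8) (.a (.a (.a (.l 8) (.a (.l 8) .z)) .z) (.a .z (.a .z (.a .z (.l 4))))))) (.b (.a .z (.a (.a (.a .z (.a .z (.a .z (.l 4)))) (.l 4)) (.l 4))) (.a (.a
(.l 12) (.a (.a (.a (.l 12) .z) .z) .z)) .z))) (.a (.b (.a (.b (.a .z (.a .z (.a .z (.l 4)))) (.l 4)) (.l 4)) (.b (.l 4) (.a (.a .z (.a .z (.a .z (.l
4)))) (.l 4)))) (.l 4))) (.b (.a (.a (.l 12) (.a (.b (.a (.a (.l 12) (.a (.l 12) .z)) .z) (.l 12)) (.b .z (.a (.a (.a (.l 12) .z) .z) .z)))) (.a (.b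
.z (.a (.a (.l 37) .z) (.a .z (.l 49)))) (.b (.a (.a (.a .z (.a .z (.a .z (.l 4)))) (.l 4)) (.l 4)) (.a .z (.a .z (.a (.a .z (.a .z (.l 4))) (.l
4))))))) (.a (.a (.l 12) (.a (.l 12) (.b (.a (.l 12) (.a (.l 12) .z)) (.l 12)))) (.a (.a (.a (.b .z (.a (.l 12) .z)) (.b (.l 37) .z)) (.b .z (.l 37)))
(.b (.a (.a .z (.l 49)) (.a (.l 49) .z)) (.a .z (.l 49)))))))) (.a (.b (.a (.b (.a (.b (.b (.l 8) (.a (.l 8) (.a (.l 8) .z))) (.b (.a (.a (.a (.l 8)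
(.a (.l 8) .z)) .z) (.a .z (.a (.a .z (.l 4)) (.l 4)))) (.a (.a .z (.l 4)) (.l 4)))) (.b (.a (.b (.a (.a (.l 8) (.a (.l 8) .z)) .z) (.a .z (.l 4)))
(.b (.a .z (.l 4)) (.l 4))) (.l 4))) (.l 4)) (.l 4)) (.b (.l 4) (.a (.b (.l 4) (.a (.b (.a .z (.a .z (.l 4))) (.a (.l 49) .z)) (.b (.l 4) (.a .z (.a
(.a .z (.a .z (.l 4))) (.l 4)))))) (.l 4)))) (.l 4))) (.b (.a (.a (.l 12) (.a (.b (.a (.b (.a (.l 12) (.b (.a (.l 12) .z) (.l 12))) (.l 12)) (.b (.a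
(.b .z (.a (.l 12) .z)) (.b (.l 37) .z)) (.a (.l 12) (.b (.a (.a (.l 12) .z) .z) (.l 12))))) (.l 12)) (.b (.a (.b (.b (.a (.l 37) .z) (.l 37)) (.a .z
(.l 37))) (.b (.b (.a .z (.l 49)) .z) (.l 37))) (.a (.b (.a (.b (.a (.l 12) (.a (.l 12) .z)) (.l 12)) (.b .z (.a (.a (.l 12) .z) .z))) (.l 12)) (.b
(.a (.b (.l 37) .z) (.l 37)) (.a (.b .z (.a (.l 12) .z)) (.b (.l 37) .z))))))) (.a (.b (.a (.b (.a (.b (.l 49) (.a .z (.l 49))) (.b (.a (.l 49) .z)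
(.l 49))) (.a (.b .z (.a (.l 37) .z)) (.a (.b (.l 49) .z) (.l 49)))) (.b (.a (.b (.a .z (.a (.a (.a .z (.l 4)) (.l 4)) (.l 4))) (.a (.l 49) .z)) (.b
(.l 4) (.a (.a .z (.a .z (.l 4))) (.l 4)))) (.a (.l 49) (.b .z (.l 49))))) (.a (.a (.l 37) (.b (.a .z (.b (.l 49) .z)) (.a (.l 37) (.b .z (.l 37)))))
(.a (.b (.l 49) (.a .z (.b (.l 49) .z))) (.l 49)))) (.b (.a (.b (.l 4) (.a (.b (.a (.a (.a (.a .z (.l 4)) (.l 4)) (.l 4)) (.l 4)) (.a .z (.a .z (.a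
(.a .z (.l 4)) (.l 4))))) (.l 4))) (.l 4)) (.a (.b (.a (.b (.a (.l 49) .z) (.l 49)) (.b (.a (.a .z (.a .z (.a .z (.l 4)))) (.l 4)) .z)) (.l 49)) (.b
(.a (.b (.l 4) (.a (.a (.a (.a .z (.l 4)) (.l 4)) (.l 4)) (.l 4))) (.l 4)) (.a (.b (.a .z (.a (.a .z (.a .z (.l 4))) (.l 4))) (.a (.l 49) .z)) (.b (.l
4) (.a (.a .z (.l 4)) (.l 4))))))))) (.a (.a (.l 12) (.a (.l 12) (.b (.a (.l 12) (.b (.a (.l 12) (.b (.a (.a (.l 12) .z) .z) (.a (.l 12) (.a (.l 12)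
.z)))) (.l 12))) (.l 12)))) (.a (.a (.a (.b (.b (.a (.b (.l 37) .z) (.l 37)) (.a (.b (.a (.a (.l 12) .z) .z) (.a (.l 12) (.a (.l 12) .z))) (.a .z (.l
37)))) (.b (.a (.l 12) (.a (.b (.a (.l 12) .z) (.l 12)) (.b .z (.a (.l 12) .z)))) (.l 12))) (.b (.l 37) (.a (.b (.a .z (.l 37)) (.a (.b (.a (.l 12)
.z) (.l 12)) (.b .z (.a (.l 12) .z)))) (.b (.l 37) (.a .z (.l 37)))))) (.b (.a (.b (.a (.l 37) (.b .z (.l 37))) (.l 37)) (.b (.a .z (.b (.l 49) .z))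
(.a (.l 37) .z))) (.l 37))) (.b (.a (.a (.b (.l 49) (.a (.b (.l 49) .z) (.l 49))) (.l 49)) (.b (.a (.l 49) (.b (.a .z (.a .z (.a (.a .z (.l 4)) (.l
4)))) (.a (.l 49) .z))) (.l 49))) (.a (.a (.b (.a (.b .z (.l 37)) .z) (.a (.l 37) (.b .z (.l 37)))) (.b (.l 49) (.a .z (.b (.l 49) .z)))) (.l
49)))))))) (.a (.b (.a (.b (.b (.a (.b (.l 8) (.a (.l 8) (.b (.l 8) (.a (.l 8) (.b (.a (.l 8) (.a (.a (.l 8) .z) .z)) (.a (.a (.a (.l 8) .z) .z) (.a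
.z (.l 4)))))))) (.a (.b (.a (.l 8) (.b (.l 8) (.a (.b (.l 8) (.a (.a (.l 8) .z) .z)) (.b (.a (.a (.l 8) .z) .z) (.a .z (.l 4)))))) (.a (.b (.a (.b
(.l 8) (.a (.a (.l 8) .z) .z)) (.b (.a (.a (.l 8) .z) .z) (.a .z (.l 4)))) (.a (.b (.a .z (.l 4)) (.l 4)) (.l 4))) (.b (.a (.b (.a .z (.l 4)) (.l 4))
(.l 4)) (.l 4)))) (.b (.a (.b (.a (.b (.l 8) (.a (.a (.l 8) .z) .z)) (.b .z (.a (.a .z (.l 4)) (.l 4)))) (.a (.b (.a .z (.l 4)) (.l 4)) (.l 4))) (.b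
(.a (.b (.a (.a .z (.l 4)) (.l 4)) (.l 4)) (.l 4)) (.l 4))) (.l 4)))) (.a (.b (.a (.b (.l 8) (.a (.l 8) (.b (.a (.l 8) .z) (.a .z (.a (.a .z (.l 4))
(.l 4)))))) (.b (.a (.b (.a (.l 8) (.a (.a (.l 8) .z) .z)) (.a (.a (.a (.l 8) .z) .z) (.a .z (.l 4)))) (.b (.a (.a .z (.l 4)) (.l 4)) (.l 4))) (.a (.b
(.a (.a .z (.l 4)) (.l 4)) (.l 4)) (.l 4)))) (.a (.b (.a (.b (.a (.l 8) .z) (.a .z (.a (.a .z (.l 4)) (.l 4)))) (.b (.a (.a (.a .z (.l 4)) (.l 4)) (.l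
4)) (.l 4))) (.l 4)) (.l 4))) (.l 4))) (.l 4)) (.l 4)) (.b (.l 4) (.a (.b (.l 4) (.a (.b (.a (.b (.b (.l 4) (.a (.a .z (.a (.a .z (.l 4)) (.l 4))) (.l
4))) (.b (.a .z (.a .z (.a (.a .z (.l 4)) (.l 4)))) (.a (.l 49) .z))) (.b (.l 4) (.a (.b (.l 4) (.a .z (.a (.a .z (.l 4)) (.l 4)))) (.l 4)))) (.a (.l
49) (.b (.a (.b .z (.l 49)) (.b (.a .z (.a (.a .z (.l 4)) (.l 4))) .z)) (.l 49)))) (.b (.l 4) (.a (.b (.a (.b (.l 4) (.a .z (.l 4))) (.l 4)) (.a (.b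
.z (.l 49)) (.b (.a .z (.l 4)) .z))) (.b (.l 4) (.a (.b (.l 4) (.a (.a .z (.a .z (.l 4))) (.l 4))) (.l 4))))))) (.l 4)))) (.l 4)))

theorem vQ29 : ev Q29 I3_0 I6_42 = 1878611105783215 := by decide +kernel

noncomputable def Q116 : QT :=
(.b (.b (.a (.b (.l 5) (.a (.b (.l 5) (.a (.b (.l 5) (.a (.b (.a (.b (.a (.b .z (.a (.l 7) (.a (.l 7) .z))) (.b (.l 5) .z)) (.a (.l 7) (.b (.a (.l 7)
(.a (.l 7) .z)) (.l 7)))) (.b (.l 5) (.a (.b (.a .z (.a .z (.l 5))) (.a (.l 7) .z)) (.b (.l 5) (.a .z (.a .z (.l 5))))))) (.a (.l 7) (.b (.a (.l 7)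
(.b (.a (.l 7) .z) (.l 7))) (.l 7)))) (.b (.l 5) (.a (.b (.a (.b (.a .z (.l 5)) (.a (.a (.l 7) .z) .z)) (.b (.l 5) (.a .z (.l 5)))) (.a (.l 7) (.b (.a
(.a (.l 7) .z) .z) (.l 7)))) (.b (.l 5) (.a (.b (.a (.a .z (.l 5)) (.l 5)) .z) (.b (.l 5) (.a (.a .z (.l 5)) (.l 5))))))))) (.l 5))) (.l 5))) (.l 5))
(.a (.b (.a (.b (.a (.b (.a (.l 7) (.b (.a (.l 7) (.b (.a (.l 7) (.b .z (.a (.l 7) (.a (.l 7) .z)))) (.l 7))) (.l 7))) (.l 7)) (.b (.a (.b (.a (.b (.a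
(.b (.l 5) (.a .z (.a .z (.l 5)))) (.l 5)) (.a (.b (.a (.l 7) .z) (.l 7)) (.b (.a .z (.a .z (.l 5))) (.a (.l 7) .z)))) (.b (.l 5) (.a (.b (.l 5) (.a
.z (.l 5))) (.l 5)))) (.a (.l 7) (.b (.a (.b (.a (.a (.l 7) .z) .z) (.l 7)) (.b (.a (.a .z (.l 5)) (.l 5)) .z)) (.l 7)))) (.b (.l 5) (.a (.b (.a (.b
(.l 5) (.a (.a .z (.l 5)) (.l 5))) (.l 5)) (.a (.b .z (.a (.l 7) (.a (.l 7) .z))) (.b (.l 5) (.a .z (.a .z (.l 5)))))) (.l 5)))) (.a (.l 7) (.b (.a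
(.b (.a (.l 7) (.b (.a (.l 7) .z) (.l 7))) (.l 7)) (.b (.a (.b (.a .z (.a .z (.l 5))) (.a (.l 7) .z)) (.b (.l 5) (.a .z (.l 5)))) (.a (.l 7) (.b (.a
(.a (.l 7) .z) .z) (.l 7))))) (.l 7))))) (.l 7)) (.b (.a (.b (.l 5) (.a (.b (.a (.b (.l 5) (.a (.b (.a (.a .z (.l 5)) (.l 5)) .z) (.l 5))) (.l 5)) (.a
(.b (.a (.b (.a (.l 7) (.a (.l 7) .z)) (.l 7)) (.b (.a .z (.a .z (.l 5))) (.a (.l 7) .z))) (.l 7)) (.b (.a (.b (.l 5) (.a .z (.l 5))) (.l 5)) (.a (.b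
(.a (.a (.l 7) .z) .z) (.l 7)) (.b (.a .z (.l 5)) (.a (.a (.l 7) .z) .z)))))) (.b (.l 5) (.a (.b (.l 5) (.a (.b (.l 5) (.a (.a .z (.l 5)) (.l 5))) (.l
5))) (.l 5))))) (.l 5)) (.a (.b (.a (.l 7) (.b (.a (.b (.a (.b .z (.a (.l 7) (.a (.l 7) .z))) (.b (.l 5) (.a .z (.a .z (.l 5))))) (.a (.l 7) (.b (.a
(.l 7) .z) (.l 7)))) (.b (.l 5) (.a (.b (.a .z (.l 5)) (.a (.a (.l 7) .z) .z)) (.b (.l 5) (.a (.a .z (.l 5)) (.l 5)))))) (.a (.l 7) (.b (.a (.l 7) (.b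
.z (.a (.l 7) (.a (.l 7) .z)))) (.l 7))))) (.l 7)) (.b (.a (.b (.l 5) (.a (.b (.a (.b (.l 5) (.a .z (.a .z (.l 5)))) (.l 5)) (.a (.b (.a (.l 7) .z)
(.l 7)) (.b (.a .z (.l 5)) (.a (.a (.l 7) .z) .z)))) (.b (.l 5) (.a (.b (.l 5) (.a (.a .z (.l 5)) (.l 5))) (.l 5))))) (.l 5)) (.a (.b (.a (.l 7) (.b
(.a (.b .z (.a (.l 7) (.a (.l 7) .z))) (.b (.l 5) (.a .z (.a .z (.l 5))))) (.a (.l 7) (.b (.a (.l 7) .z) (.l 7))))) (.l 7)) (.b (.a (.b (.l 5) (.a (.b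
(.a (.a .z (.l 5)) (.l 5)) .z) (.l 5))) (.l 5)) (.a (.b (.a (.b (.a (.l 7) (.a (.l 7) .z)) (.l 7)) (.b (.a .z (.a .z (.l 5))) (.a (.l 7) .z))) (.l 7))
(.b (.a (.b (.l 5) (.a .z (.l 5))) (.l 5)) (.a (.b (.a (.a (.l 7) .z) .z) (.l 7)) (.b (.a (.a .z (.l 5)) (.l 5)) .z)))))))))) (.a (.l 7) (.b (.a (.l
7) (.b (.a (.l 7) (.b (.a (.l 7) (.b (.a (.l 7) (.b (.a (.l 7) (.a (.l 7) .z)) (.l 7))) (.l 7))) (.l 7))) (.l 7))) (.l 7)))) (.b (.l 5) (.a (.b (.a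
(.b (.a (.b (.a (.b (.a (.b (.a .z (.l 5)) (.a (.a (.l 7) .z) .z)) (.b (.l 5) (.a (.a .z (.l 5)) (.l 5)))) (.a (.l 7) (.b .z (.a (.l 7) (.a (.l 7)
.z))))) (.b (.l 5) (.a (.b (.l 5) (.a .z (.a .z (.l 5)))) (.l 5)))) (.a (.l 7) (.b (.a (.b (.a (.l 7) .z) (.l 7)) (.b (.a (.a .z (.l 5)) (.l 5)) .z))
(.a (.l 7) (.b (.a (.l 7) (.a (.l 7) .z)) (.l 7)))))) (.b (.l 5) (.a (.b (.l 5) (.a (.b (.a .z (.a .z (.l 5))) (.a (.l 7) .z)) (.b (.l 5) (.a .z (.l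
5))))) (.l 5)))) (.a (.l 7) (.b (.a (.b (.a (.l 7) (.b (.a (.a (.l 7) .z) .z) (.a (.l 7) (.a (.l 7) .z)))) (.l 7)) (.b (.a (.b (.l 5) (.a .z (.a .z
(.l 5)))) (.l 5)) (.a (.b (.a (.l 7) .z) (.l 7)) (.b (.a (.a .z (.l 5)) (.l 5)) .z)))) (.a (.l 7) (.b (.a (.l 7) (.b (.a (.l 7) (.a (.l 7) .z)) (.l
7))) (.l 7)))))) (.b (.l 5) (.a (.b (.l 5) (.a (.b (.a (.b (.a .z (.a .z (.l 5))) (.a (.l 7) .z)) (.b (.l 5) (.a (.a .z (.l 5)) (.l 5)))) (.a (.l 7)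
(.b .z (.a (.l 7) (.a (.l 7) .z))))) (.b (.l 5) (.a (.b (.l 5) (.a .z (.l 5))) (.l 5))))) (.l 5)))) (.a (.l 7) (.b (.a (.b (.a (.l 7) (.b (.a (.b (.a
(.a (.l 7) .z) .z) (.l 7)) (.b (.a (.a .z (.l 5)) (.l 5)) (.a .z (.a .z (.l 5))))) (.a (.l 7) (.b (.a (.l 7) .z) (.l 7))))) (.l 7)) (.b (.a (.b (.l 5)
(.a (.b (.a .z (.l 5)) (.a (.a (.l 7) .z) .z)) (.b (.l 5) (.a (.a .z (.l 5)) (.l 5))))) (.l 5)) (.a (.b (.a (.l 7) (.b (.a .z (.a .z (.l 5))) (.a (.l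
7) .z))) (.l 7)) (.b (.a (.b (.l 5) (.a (.a .z (.l 5)) (.l 5))) (.l 5)) (.a (.b .z (.a (.l 7) (.a (.l 7) .z))) (.b (.l 5) (.a .z (.l 5)))))))) (.a (.l
7) (.b (.a (.l 7) (.b (.a (.l 7) (.b (.a (.a (.l 7) .z) .z) (.l 7))) (.l 7))) (.l 7)))))) (.b (.l 5) (.a (.b (.l 5) (.a (.b (.a (.b (.a (.b (.a (.a .z
(.l 5)) (.l 5)) (.a .z (.a .z (.l 5)))) (.l 5)) (.a (.b (.a (.l 7) .z) (.l 7)) (.b (.a .z (.l 5)) (.a (.a (.l 7) .z) .z)))) (.l 5)) (.a (.b (.a (.l 7)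
(.b (.a (.l 7) (.a (.l 7) .z)) (.l 7))) (.l 7)) (.b (.a (.b (.a .z (.l 5)) (.a (.a (.l 7) .z) .z)) (.b (.l 5) (.a (.a .z (.l 5)) (.l 5)))) (.a (.l 7)
(.b (.a .z (.a .z (.l 5))) (.a (.l 7) .z)))))) (.b (.l 5) (.a (.b (.l 5) (.a (.b (.l 5) (.a .z (.l 5))) (.l 5))) (.l 5))))) (.l 5))))))) (.b (.a (.l
7) (.b (.a (.l 7) (.b (.a (.b (.a (.l 7) (.b (.a (.b (.a (.b (.a (.a (.l 7) .z) .z) (.a (.l 7) (.a (.l 7) .z))) (.b (.l 5) (.a .z (.l 5)))) (.a (.l 7)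
(.b (.a (.a (.l 7) .z) .z) (.a (.l 7) (.a (.l 7) .z))))) (.b (.l 5) (.a (.b (.l 5) (.a .z (.a .z (.l 5)))) (.l 5)))) (.a (.l 7) (.b (.a (.b (.a (.l 7)
.z) (.l 7)) (.b (.a (.a .z (.l 5)) (.l 5)) (.a .z (.a .z (.l 5))))) (.a (.l 7) (.b (.a (.l 7) .z) (.l 7))))))) (.l 7)) (.b (.a (.b (.l 5) (.a (.b (.l
5) (.a (.b (.a .z (.l 5)) (.a (.a (.l 7) .z) .z)) (.l 5))) (.l 5))) (.l 5)) (.a (.b (.a (.b (.a (.b (.a (.l 7) (.a (.l 7) .z)) (.l 7)) (.b (.a .z (.l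
5)) (.a (.a (.l 7) .z) .z))) (.a (.l 7) (.b (.a (.l 7) (.a (.l 7) .z)) (.l 7)))) (.b (.l 5) (.a (.b (.a .z (.a .z (.l 5))) (.a (.l 7) .z)) (.b (.l 5)
(.a (.a .z (.l 5)) (.l 5)))))) (.a (.l 7) (.b (.a (.l 7) (.b (.a .z (.a .z (.l 5))) (.a (.l 7) .z))) (.l 7)))) (.b (.l 5) (.a (.b (.a (.b (.l 5) (.a
(.a .z (.l 5)) (.l 5))) (.l 5)) (.a (.b (.a .z (.a .z (.l 5))) (.a (.l 7) .z)) (.b (.l 5) (.a (.a .z (.l 5)) (.l 5))))) (.l 5)))))) (.a (.l 7) (.b (.a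
(.l 7) (.b (.a (.b (.a (.l 7) (.b .z (.a (.l 7) (.a (.l 7) .z)))) (.l 7)) (.b (.a (.b (.l 5) (.a .z (.l 5))) (.l 5)) (.a (.b (.a (.a (.l 7) .z) .z)
(.a (.l 7) (.a (.l 7) .z))) (.b (.l 5) (.a .z (.l 5)))))) (.a (.l 7) (.b (.a (.l 7) (.b (.a (.a (.l 7) .z) .z) (.a (.l 7) (.a (.l 7) .z)))) (.l 7)))))
(.l 7))))) (.l 7))) (.b (.l 7) (.a (.b (.l 7) (.a (.l 7) (.b (.l 7) (.a (.l 7) (.b (.l 7) (.a (.b (.l 7) (.a (.l 7) (.b (.l 7) (.a (.l 7) (.a (.l 7)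
.z))))) (.b (.a (.l 7) (.b (.a (.l 7) (.a (.l 7) .z)) (.a (.a (.a (.l 7) .z) .z) .z))) (.a (.b (.a (.a (.l 7) (.a (.l 7) .z)) .z) (.a .z (.l 29))) (.b
(.a .z (.l 29)) (.l 29)))))))))) (.b (.a (.l 7) (.b (.a (.l 7) (.b (.a (.l 7) (.b (.l 7) (.a (.l 7) (.b (.l 7) (.a (.l 7) (.a (.l 7) .z)))))) (.a (.b
(.l 7) (.a (.l 7) (.b (.a (.l 7) (.a (.l 7) (.a (.l 7) .z))) (.a (.a (.l 7) (.a (.l 7) .z)) .z)))) (.b (.a (.b (.l 7) (.a (.l 7) .z)) (.b (.a (.a (.a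
(.l 7) .z) .z) .z) (.a .z (.l 29)))) (.a (.b .z (.l 29)) (.l 29)))))) (.a (.b (.a (.l 7) (.b (.l 7) (.a (.b (.l 7) (.a (.l 7) (.a (.l 7) (.a (.l 7)
.z)))) (.b (.a (.l 7) .z) .z)))) (.a (.b (.a (.l 7) (.b (.l 7) (.a (.l 7) (.a (.a (.l 7) .z) .z)))) (.a (.b (.l 7) (.a (.a (.l 7) (.a (.l 7) .z)) .z))
(.b .z (.a .z (.l 29))))) (.b (.a (.b (.a (.a (.l 7) .z) .z) (.a .z (.l 29))) (.l 29)) (.l 29)))) (.b (.a (.b (.a (.b (.a (.l 7) (.a (.l 7) .z)) (.a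
(.a (.a (.l 7) .z) .z) .z)) (.b (.a .z (.l 29)) (.l 29))) (.a (.b (.a .z (.l 29)) (.l 29)) (.l 29))) (.l 29)) (.l 29))))) (.a (.b (.a (.b (.l 7) (.a
(.l 7) (.b (.l 7) (.a (.l 7) (.b (.a (.l 7) (.a (.l 7) (.a (.l 7) .z))) (.a (.a (.a (.l 7) .z) .z) .z)))))) (.b (.a (.b (.l 7) (.a (.l 7) (.b (.l 7)
(.a (.l 7) (.a (.l 7) .z))))) (.b (.a (.l 7) (.b (.a (.l 7) (.a (.l 7) .z)) (.a (.a (.a (.l 7) .z) .z) .z))) (.a (.b (.a (.a (.l 7) (.a (.l 7) .z))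
.z) (.a .z (.l 29))) (.b (.a .z (.l 29)) (.l 29))))) (.a (.b (.a (.b (.l 7) (.a (.l 7) .z)) (.b (.a (.a (.a (.l 7) .z) .z) .z) (.a .z (.l 29)))) (.a
(.b .z (.l 29)) (.l 29))) (.l 29)))) (.a (.b (.a (.b (.a (.l 7) (.b (.l 7) (.a (.l 7) (.a (.l 7) (.a (.l 7) .z))))) (.a (.b (.l 7) (.a (.l 7) .z)) (.b
(.a (.a (.a (.l 7) .z) .z) .z) (.a .z (.l 29))))) (.b (.a (.b (.a (.l 7) .z) .z) (.b (.a .z (.l 29)) (.l 29))) (.l 29))) (.a (.b (.a (.b .z (.l 29))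
(.l 29)) (.l 29)) (.l 29))) (.l 29))) (.b (.a (.b (.a (.b (.a (.b (.a .z (.l 29)) (.l 29)) (.l 29)) (.l 29)) (.l 29)) (.l 29)) (.l 29)) (.l 29))))))))

theorem vQ116 : ev Q116 I4_5 I4_12 = 3872676667954347 := by decide +kernel

noncomputable def Q42 : QT :=
(.a (.b (.b (.a (.b (.l 10) (.a (.b (.l 10) (.a (.b (.l 10) (.a (.b (.a (.b (.a .z (.l 10)) .z) (.l 10)) (.a .z (.b (.a .z (.l 10)) .z))) (.l 10)))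
(.l 10))) (.l 10))) (.l 10)) (.a (.b (.a (.b (.a (.b (.a (.b (.a (.l 53) .z) (.l 53)) (.b (.a .z (.b (.l 10) (.a .z (.l 10)))) (.a (.l 53) .z))) (.a
(.l 53) (.b (.a (.l 53) .z) (.a .z (.b .z (.l 14)))))) (.b (.a (.b (.l 10) (.a (.b (.l 10) (.a .z (.l 10))) (.l 10))) (.l 10)) (.a (.b (.a .z (.b (.l
10) .z)) (.a (.l 14) (.b (.a (.l 14) .z) (.l 14)))) (.b (.l 10) (.a (.b (.a .z (.l 10)) .z) (.l 10)))))) (.a (.b (.a (.b (.a (.l 53) .z) (.a .z (.b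
(.a .z (.l 14)) (.l 14)))) (.b (.a (.b (.a .z (.l 14)) (.l 14)) (.l 14)) (.l 14))) (.a (.b (.a (.b (.a .z (.l 14)) (.l 14)) (.l 14)) (.l 14)) (.l
14))) (.b (.a (.l 14) (.b (.a (.b (.a (.l 14) .z) (.l 14)) (.b (.a .z (.l 10)) .z)) (.a (.l 14) (.b (.a (.l 14) .z) (.l 14))))) (.l 14)))) (.b (.l 10)
(.a (.b (.a (.b (.l 10) (.a (.b (.a .z (.l 10)) .z) (.l 10))) (.l 10)) (.a (.b (.a (.b (.a (.l 14) .z) (.l 14)) (.b (.a .z (.l 10)) .z)) (.a (.l 14)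
(.b (.a (.l 14) .z) (.l 14)))) (.b (.l 10) (.a (.b (.a .z (.l 10)) .z) (.l 10))))) (.l 10)))) (.a (.l 14) (.b (.a (.b (.a (.l 14) (.b (.a (.b (.a (.l
14) .z) (.l 14)) (.b .z (.a (.l 14) .z))) (.l 14))) (.l 14)) (.a (.b (.b (.a (.b (.l 10) (.a .z (.l 10))) (.l 10)) (.a (.b .z (.a (.l 14) .z)) (.b (.l
10) (.a .z (.l 10))))) (.b (.a (.l 14) (.a (.b .z (.l 14)) .z)) (.l 14))) (.b (.l 10) (.a (.b (.a (.b (.l 10) .z) (.l 10)) (.a (.b .z (.l 14)) .z))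
(.b (.l 10) (.a (.b (.l 10) .z) (.l 10))))))) (.a (.l 14) (.a (.l 14) (.b (.a (.l 14) (.b (.a .z (.b (.l 10) .z)) (.a (.l 14) (.b .z (.l 14))))) (.l
14))))))) (.a (.b (.l 10) (.a (.b (.l 10) (.a (.b (.a (.b (.l 10) (.a .z (.b (.l 10) .z))) (.l 10)) (.a (.b (.a (.l 14) (.b .z (.l 14))) (.l 14)) (.b
(.a .z (.b (.l 10) .z)) (.a (.l 14) (.b .z (.l 14)))))) (.b (.l 10) (.a (.b (.l 10) (.a .z (.b (.l 10) .z))) (.l 10))))) (.l 10))) (.l 10)))) (.a (.l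
14) (.b (.a (.b (.a (.b (.a (.l 14) (.b (.a (.b (.a (.l 14) (.b .z (.l 14))) (.l 14)) (.b (.a .z (.b (.l 10) .z)) (.a (.l 14) (.b .z (.l 14))))) (.l
14))) (.l 14)) (.b (.a (.b (.a (.b (.l 10) (.a .z (.b (.l 10) .z))) (.l 10)) (.a (.b (.a (.l 14) (.b .z (.l 14))) (.l 14)) (.b (.a .z (.l 10)) (.a (.b
.z (.l 14)) .z)))) (.b (.l 10) (.a (.b (.l 10) (.a (.b (.l 10) .z) (.l 10))) (.l 10)))) (.a (.l 14) (.b (.a (.b (.a (.b .z (.l 14)) .z) (.l 14)) (.b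
(.a (.b (.l 10) .z) (.l 10)) (.a (.b .z (.l 14)) .z))) (.a (.l 14) (.b (.a (.l 14) (.b .z (.l 14))) (.l 14))))))) (.l 14)) (.b (.a (.b (.l 10) (.a (.b
(.l 10) (.a (.b (.a .z (.b (.l 10) .z)) (.a (.l 14) (.b .z (.l 14)))) (.b (.l 10) (.a .z (.b (.l 10) .z))))) (.l 10))) (.l 10)) (.a (.b (.a (.b (.a
(.l 14) (.b (.a (.l 14) (.b .z (.l 14))) (.l 14))) (.l 14)) (.b (.a (.b (.a .z (.l 10)) (.a (.b .z (.l 14)) .z)) (.b (.l 10) (.a (.b (.l 10) .z) (.l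
10)))) (.a (.l 14) (.b (.a (.b .z (.l 14)) .z) (.l 14))))) (.l 14)) (.b (.a (.b (.l 10) (.a (.b (.a (.b (.l 10) .z) (.l 10)) (.a .z (.b (.l 10) .z)))
(.l 10))) (.l 10)) (.a (.b (.a (.b (.a (.l 14) (.b .z (.l 14))) (.l 14)) (.b (.a .z (.b (.l 10) .z)) (.a (.l 14) .z))) (.l 14)) (.b (.a (.b (.l 10)
(.a (.b (.l 10) .z) (.l 10))) (.l 10)) (.a (.b (.a (.b .z (.l 14)) .z) (.l 14)) (.b (.a (.b (.l 10) .z) (.l 10)) (.a .z (.b (.l 10) .z)))))))))) (.a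
(.l 14) (.b (.a (.l 14) (.b (.a (.l 14) (.b (.a (.l 14) (.b (.a (.l 14) (.b .z (.l 14))) (.l 14))) (.l 14))) (.l 14))) (.l 14)))))) (.b (.l 10) (.a
(.b (.l 10) (.a (.b (.a (.b (.a (.b (.a (.b (.a .z (.b (.l 10) .z)) (.a (.l 14) .z)) (.b (.l 10) (.a (.b (.l 10) .z) (.l 10)))) (.a (.l 14) (.b (.a
(.b .z (.l 14)) .z) (.a (.l 14) (.b .z (.l 14)))))) (.b (.l 10) (.a (.b (.l 10) (.a .z (.b (.l 10) .z))) (.l 10)))) (.a (.l 14) (.b (.a (.b (.a (.l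
14) (.b .z (.l 14))) (.l 14)) (.b (.a .z (.l 10)) (.a (.b .z (.l 14)) .z))) (.l 14)))) (.b (.l 10) (.a (.b (.a (.b (.l 10) (.a (.b (.l 10) .z) (.l
10))) (.l 10)) (.a (.b (.a .z (.b (.l 10) .z)) (.a (.l 14) (.b .z (.l 14)))) (.b (.l 10) (.a .z (.l 10))))) (.l 10)))) (.a (.l 14) (.b (.a (.b (.a (.l
14) (.b (.a (.b .z (.l 14)) .z) (.l 14))) (.l 14)) (.b (.a (.b (.a (.b (.l 10) .z) (.l 10)) (.a .z (.b (.l 10) .z))) (.l 10)) (.a (.b (.a (.l 14) (.b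
.z (.l 14))) (.l 14)) (.b (.a .z (.l 10)) (.a (.b .z (.l 14)) .z))))) (.l 14)))) (.b (.l 10) (.a (.b (.a (.b (.l 10) (.a (.b (.l 10) (.a (.b (.l 10)
.z) (.l 10))) (.l 10))) (.l 10)) (.a (.b (.a (.b (.a .z (.b (.l 10) .z)) (.a (.l 14) .z)) (.b (.l 10) (.a (.b (.l 10) .z) (.l 10)))) (.a (.l 14) (.b
(.a (.b .z (.l 14)) .z) (.a (.l 14) (.b .z (.l 14)))))) (.b (.l 10) (.a (.b (.l 10) (.a .z (.b (.l 10) .z))) (.l 10))))) (.l 10))))) (.l 10))))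

theorem vQ42 : ev Q42 I4_1 I5_27 = 1927486835399286 := by decide +kernel

noncomputable def Q104 : QT :=
(.a (.l 14) (.b (.a (.l 14) (.b (.l 14) (.a (.l 14) (.b (.a (.l 14) (.b (.a (.l 14) (.b (.l 14) (.a (.l 14) (.b (.l 14) (.a (.l 14) (.b (.l 14)
.z)))))) (.a (.b (.l 14) (.a (.l 14) (.b (.l 14) (.a (.l 14) .z)))) (.b (.a (.b (.l 14) (.a (.l 14) (.b (.l 14) .z))) (.b (.a (.b (.l 14) .z) .z) (.a
.z (.l 10)))) (.a (.b (.a (.b (.l 14) .z) .z) (.a (.b .z (.l 10)) (.l 10))) (.l 10)))))) (.a (.b (.a (.l 14) (.b (.l 14) (.a (.l 14) (.b (.l 14) (.a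
(.l 14) .z))))) (.a (.b (.l 14) (.a (.l 14) (.b (.a (.l 14) (.b (.l 14) .z)) (.a (.b (.l 14) .z) .z)))) (.b (.a (.b (.a (.l 14) (.b (.l 14) .z)) (.a
(.b (.l 14) .z) .z)) (.b (.a .z (.b .z (.l 10))) (.l 10))) (.a (.b (.a .z (.l 10)) (.l 10)) (.l 10))))) (.b (.a (.b (.a (.b (.l 14) (.a (.l 14) .z))
(.b (.a .z (.b .z (.l 10))) (.a (.b .z (.l 10)) (.l 10)))) (.a (.b (.a .z (.b .z (.l 10))) (.a (.b .z (.l 10)) (.l 10))) (.l 10))) (.l 10)) (.l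
10))))))) (.a (.b (.l 14) (.a (.b (.l 14) (.a (.l 14) (.b (.l 14) (.a (.l 14) (.b (.l 14) (.a (.l 14) (.b (.a (.l 14) (.b (.l 14) .z)) (.a .z (.b .z
(.l 10)))))))))) (.b (.a (.b (.l 14) (.a (.l 14) (.b (.l 14) (.a (.l 14) (.b (.l 14) (.a (.l 14) (.b (.l 14) .z))))))) (.b (.a (.l 14) (.b (.a (.l 14)
(.b (.a (.l 14) (.b (.l 14) .z)) (.a (.b (.l 14) .z) .z))) (.a (.b (.a (.l 14) .z) (.a .z (.b .z (.l 10)))) (.b (.a (.b .z (.l 10)) (.l 10)) (.l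
10))))) (.a (.b (.a (.b (.l 14) (.a (.l 14) (.b (.l 14) .z))) (.b (.a (.l 14) .z) (.a .z (.b .z (.l 10))))) (.a (.b (.a (.b (.l 14) .z) .z) (.a .z (.l
10))) (.l 10))) (.b (.a (.b (.a (.b .z (.l 10)) (.l 10)) (.l 10)) (.l 10)) (.l 10))))) (.a (.b (.a (.b (.l 14) (.a (.l 14) (.b (.l 14) (.a (.b (.l 14)
.z) .z)))) (.b (.a (.b (.l 14) (.a (.l 14) .z)) (.b (.a (.b (.l 14) .z) .z) (.a (.b .z (.l 10)) (.l 10)))) (.a (.b (.a .z (.b .z (.l 10))) (.a (.b .z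
(.l 10)) (.l 10))) (.l 10)))) (.a (.b (.a (.b (.a (.l 14) (.b (.l 14) .z)) (.a (.b (.l 14) .z) .z)) (.b (.a .z (.l 10)) (.l 10))) (.a (.b (.a .z (.l
10)) (.l 10)) (.l 10))) (.l 10))) (.l 10))))) (.b (.a (.b (.a (.l 14) (.b (.a (.l 14) (.b (.l 14) (.a (.l 14) (.b (.a (.l 14) .z) (.a .z (.b .z (.l
10))))))) (.a (.b (.l 14) (.a (.b (.l 14) (.a (.l 14) (.b (.l 14) .z))) (.b (.a (.b (.l 14) .z) .z) (.a .z (.l 10))))) (.b (.a (.b (.a (.l 14) .z) (.a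
.z (.b .z (.l 10)))) (.b (.a (.b .z (.l 10)) (.l 10)) (.l 10))) (.a (.b (.a (.b .z (.l 10)) (.l 10)) (.l 10)) (.l 10)))))) (.a (.b (.a (.l 14) (.b (.a
(.l 14) (.b (.l 14) (.a (.l 14) (.b (.l 14) .z)))) (.a (.b (.l 14) (.a (.l 14) .z)) (.b (.a .z (.b .z (.l 10))) (.a (.b .z (.l 10)) (.l 10)))))) (.a
(.b (.a (.l 14) (.b (.l 14) (.a (.l 14) .z))) (.a (.b (.a (.l 14) (.b (.l 14) .z)) (.a (.b (.l 14) .z) .z)) (.b (.a .z (.b .z (.l 10))) (.l 10)))) (.b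
(.a (.b (.a .z (.b .z (.l 10))) (.a (.b .z (.l 10)) (.l 10))) (.l 10)) (.l 10)))) (.b (.a (.b (.a (.b (.a (.b (.l 14) .z) .z) (.a .z (.l 10))) (.l
10)) (.l 10)) (.l 10)) (.l 10)))) (.b (.a (.b (.a (.b (.a (.b (.a (.l 14) (.b (.l 14) .z)) (.a (.b (.l 14) .z) .z)) (.b (.a .z (.l 10)) (.l 10))) (.a
(.b (.a (.b .z (.l 10)) (.l 10)) (.l 10)) (.l 10))) (.l 10)) (.l 10)) (.l 10)) (.l 10))) (.a (.b (.a (.b (.a (.b (.a (.b (.a .z (.l 10)) (.l 10)) (.l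
10)) (.l 10)) (.l 10)) (.l 10)) (.l 10)) (.l 10)) (.l 10))))))

theorem vQ104 : ev Q104 I4_4 I5_11 = 1936665806283103 := by decide +kernel

end Pool.Agent.Helper64.SPW.Dat
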