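import Pool.Agent.Helper64.SPW.Iv

/-! Boxes of traces, part 5 (data and kernel evaluation). -/

set_option maxRecDepth 1000000
set_option maxHeartbeats 0

namespace Pool.Agent.Helper64.SPW.Dat

noncomputable def Q140 : QT :=
(.b (.a (.b (.a (.b (.a (.b (.a (.b (.a (.b .z (.l 101)) .z) (.a (.l 101) (.b (.l 101) .z))) .z) .z) .z) (.a (.b (.b (.b .z (.b .z (.l 77))) (.l 77))
(.a (.b (.l 77) (.b (.l 77) .z)) (.b (.b (.l 77) (.a (.l 77) .z)) .z))) (.b (.a (.b (.b .z (.b .z (.l 77))) (.l 77)) (.b (.b .z (.b .z (.l 77))) (.a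
(.b (.l 77) .z) .z))) (.a (.b (.a (.b (.l 77) .z) .z) .z) .z)))) .z) (.a .z (.b .z (.a .z (.b .z (.b .z (.b .z (.a (.l 159) .z)))))))) .z) (.a (.b (.a
(.b (.a (.b (.a (.b .z (.a (.b .z (.l 78)) .z)) .z) (.a (.l 78) (.b .z (.a (.l 78) .z)))) (.b (.b (.b (.a .z (.b .z (.l 93))) (.a (.b .z (.l 93)) (.l
93))) (.b (.a (.b (.l 93) .z) (.l 93)) .z)) .z)) (.a (.b (.a (.b (.l 78) (.a .z (.b (.l 78) .z))) (.l 78)) (.a (.b (.a (.l 91) .z) (.l 91)) (.b (.a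
(.b (.l 78) .z) (.l 78)) (.a (.b .z (.l 91)) .z)))) (.a (.b (.a (.b .z (.a (.l 78) .z)) .z) (.a (.l 78) (.b (.a (.l 78) .z) (.l 78)))) .z))) (.b (.b
(.b (.a (.a (.a (.l 93) .z) (.l 159)) (.a (.l 159) (.a (.l 159) .z))) (.a (.a (.a (.l 93) .z) (.l 159)) (.b (.a (.l 159) .z) .z))) .z) (.a .z (.b .z
(.b .z (.a (.a .z (.l 161)) (.l 161))))))) (.a (.a (.b (.b (.a (.l 91) (.b (.a (.l 91) (.b .z (.l 91))) (.l 91))) (.l 91)) (.l 91)) (.a (.b (.b (.a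
(.b .z (.a (.l 91) .z)) (.b (.l 78) .z)) (.a (.l 91) (.b (.a (.l 91) .z) (.l 91)))) (.l 91)) (.b (.a (.b (.a (.l 78) (.b .z (.l 78))) (.b .z (.a (.l
91) .z))) (.b .z (.a (.b (.l 78) .z) (.b .z (.l 78))))) (.b (.a (.l 91) (.b .z (.a (.l 91) .z))) (.l 91))))) (.a (.a (.b (.a (.b (.l 219) (.a .z (.l
219))) (.a (.a (.l 219) .z) (.l 266))) (.a (.b .z (.a (.b .z (.l 91)) .z)) .z)) (.b (.a (.b (.l 266) .z) (.b .z (.a .z (.l 161)))) (.a (.b (.a .z (.l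
161)) (.l 161)) (.l 161)))) (.l 161)))) (.b (.b (.b (.a (.b (.a (.b .z (.a (.l 227) .z)) (.a .z (.b .z (.l 169)))) (.a (.b .z (.a .z (.l 169))) (.a
(.l 169) (.a (.l 169) .z)))) (.a (.a (.b (.a (.l 169) .z) .z) .z) .z)) (.a (.a (.b (.a .z (.a .z (.l 169))) .z) (.a (.b (.b (.l 169) .z) .z) (.b .z
(.a (.b .z (.l 113)) .z)))) .z)) (.b (.a (.b (.a (.a (.a .z (.b .z (.l 94))) .z) (.a (.a .z (.l 113)) (.a (.l 113) .z))) (.b (.a (.a (.a .z (.l 94))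
.z) (.a (.l 113) (.a (.l 113) .z))) (.a (.a .z (.a .z (.l 113))) (.b (.a (.l 113) .z) .z)))) .z) (.b .z (.a (.a (.a (.l 161) .z) .z) (.b .z (.a (.b .z
(.a .z (.l 121))) (.a (.a (.l 121) .z) .z))))))) (.a (.a (.b (.a (.l 161) (.b (.a (.l 161) (.b .z (.l 161))) (.l 161))) (.l 161)) (.a (.b (.b .z (.a
(.b .z (.l 161)) .z)) (.a (.l 161) (.b (.a (.l 161) .z) (.l 161)))) (.b (.a (.a (.b (.b (.l 121) .z) .z) (.b (.l 121) (.a .z (.l 121)))) (.l 121)) (.a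
(.b .z (.a (.l 161) .z)) (.b (.l 121) (.a .z (.l 121))))))) (.a (.l 121) (.a (.l 121) (.a (.b (.a (.b .z (.l 121)) .z) (.a (.l 121) (.b (.a (.l 121)
.z) (.l 121)))) (.a .z (.b .z (.l 345))))))))))

theorem vQ140 : ev Q140 I5_14 I4_7 = 530240718019895 := by decide +kernel

noncomputable def Q132 : QT :=
(.b (.a (.b (.b (.l 17) (.b (.l 17) (.b (.l 17) (.b (.a (.b (.a (.b (.l 17) (.a .z (.l 17))) (.l 17)) (.a (.b .z (.l 19)) (.b (.a .z (.l 17)) .z)))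
(.l 17)) (.a (.b (.a (.l 19) (.b (.a (.l 19) .z) (.l 19))) (.l 19)) (.b (.a (.b (.a .z (.l 17)) .z) (.l 17)) (.a (.b (.a (.l 19) .z) (.l 19)) (.b (.a
.z (.l 17)) .z)))))))) (.a (.b (.b (.b (.b (.l 19) (.b (.b (.l 19) (.a (.l 19) .z)) (.b .z (.a .z (.l 65))))) (.b (.l 65) (.a (.b (.l 65) (.a (.l 65)
.z)) (.b (.a (.l 65) .z) (.a .z (.b .z (.l 23))))))) (.b (.b (.a (.b (.a .z (.b .z (.l 23))) (.a (.b .z (.l 23)) (.l 23))) (.l 23)) (.l 23)) (.l 23)))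
(.b (.l 23) (.b (.l 23) (.b (.l 23) (.b (.a (.b (.a .z (.l 23)) .z) (.l 23)) (.a (.b (.a (.l 25) .z) (.l 25)) (.b (.a .z (.l 23)) .z))))))) (.b (.b
(.b (.b (.b (.a (.l 19) (.b (.a (.l 19) .z) (.l 19))) (.b (.l 19) (.a (.l 19) (.a (.l 19) .z)))) (.b (.b (.a (.a (.l 19) .z) .z) (.a .z (.l 65))) (.a
(.l 65) (.a (.l 65) .z)))) (.b (.a (.b (.a (.l 65) .z) .z) (.b (.a .z (.b .z (.l 23))) (.l 23))) (.a (.b (.a (.b .z (.l 23)) (.l 23)) (.l 23)) (.l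
23)))) (.l 23)) (.a (.b (.l 23) (.a (.b (.l 23) (.b (.l 23) (.b (.l 23) (.b (.l 23) .z)))) (.b (.a (.l 23) (.b (.l 23) (.a (.l 23) .z))) (.a (.b (.l
23) (.a (.l 23) .z)) (.b .z (.a (.b .z (.l 15)) (.l 15))))))) (.b (.a (.b (.l 23) (.a (.l 23) (.b (.a (.l 23) .z) .z))) (.b (.a (.b (.l 23) (.a (.l
23) .z)) (.b .z (.a .z (.l 15)))) (.a (.b (.a .z (.b .z (.l 15))) (.l 15)) (.l 15)))) (.a (.b (.a (.b (.a (.l 23) .z) (.a .z (.b .z (.l 15)))) (.b (.a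
(.b .z (.l 15)) (.l 15)) (.l 15))) (.l 15)) (.b (.l 15) (.b (.l 15) (.b (.l 15) (.b (.l 15) .z)))))))))) (.b (.a (.b (.l 17) (.a (.l 17) (.b (.l 17)
(.a (.b (.l 17) (.a (.l 17) (.b (.l 17) (.a (.l 17) .z)))) (.b (.a (.l 17) (.b (.l 17) .z)) (.a (.b (.a (.l 17) .z) .z) .z)))))) (.b (.a (.l 17) (.b
(.a (.l 17) (.b (.l 17) (.a (.l 17) (.b (.l 17) .z)))) (.a (.b (.a (.l 17) (.b (.l 17) (.a (.l 17) .z))) (.a (.b (.a (.l 17) .z) .z) .z)) (.b .z (.l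
99))))) (.a (.b (.a (.b (.l 17) (.a (.b (.l 17) (.a (.l 17) .z)) (.b (.a (.l 17) .z) .z))) (.b (.a (.b (.l 17) .z) .z) (.a .z (.l 99)))) (.a (.b (.a
.z (.l 99)) (.b (.l 99) .z)) (.b (.l 99) (.b .z (.b .z (.b .z (.a .z (.l 15)))))))) (.b (.a (.b (.a .z (.l 99)) (.l 99)) (.l 99)) (.b (.b (.l 99) (.a
(.l 99) .z)) (.b .z (.b (.a (.b .z (.a .z (.l 15))) (.b (.a .z (.l 15)) (.l 15))) (.l 15)))))))) (.a (.b (.a (.b (.a (.b (.b (.b .z (.b (.l 19) .z))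
(.b .z (.b .z (.l 23)))) (.l 23)) (.b (.b (.b (.b (.l 17) .z) .z) (.b .z (.l 23))) (.a (.b (.l 23) (.a (.l 23) .z)) (.b (.a (.l 23) .z) (.a .z (.b .z
(.l 15))))))) (.a (.b (.a (.l 23) (.b (.l 23) .z)) (.a (.b (.a (.l 23) .z) (.a .z (.b .z (.l 15)))) (.b (.a .z (.l 15)) (.l 15)))) (.b (.a (.b .z (.a
(.b .z (.l 15)) (.l 15))) (.l 15)) (.l 15)))) (.b (.a (.b (.a .z (.b .z (.a (.b .z (.l 15)) (.l 15)))) (.a (.b (.a .z (.l 15)) (.l 15)) (.l 15))) (.b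
(.b (.b .z (.b .z (.l 15))) (.l 15)) (.l 15))) (.l 15))) (.a (.b (.a (.b (.a (.b (.a (.b .z (.l 15)) (.l 15)) (.l 15)) (.l 15)) (.l 15)) (.l 15)) (.b
(.l 15) (.b (.l 15) (.b (.l 15) (.b (.l 15) .z))))) (.b (.l 15) (.b (.l 15) (.b (.l 15) (.b (.l 15) (.b .z (.a .z (.l 19))))))))) (.b (.b (.b (.b (.b
(.b (.a (.a (.a .z (.l 15)) (.l 15)) .z) (.a .z (.a (.a .z (.l 15)) (.l 15)))) (.b (.a (.a (.a .z (.l 15)) (.l 15)) (.l 15)) (.l 15))) (.l 15)) (.l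
15)) (.l 15)) (.b (.l 15) (.b (.l 15) (.b (.l 15) (.b (.b (.a (.l 15) (.a (.l 15) .z)) (.a (.a (.a (.l 15) .z) .z) .z)) (.b (.a (.a .z (.l 19)) (.l
19)) (.l 19)))))))))) (.a (.b (.a (.b (.a (.b (.b (.b (.b (.b (.l 25) (.a (.l 25) .z)) .z) (.b .z (.a .z (.b .z (.l 29))))) (.l 29)) (.l 29)) (.b (.b
(.b (.b (.b (.l 25) .z) .z) (.b (.a (.b .z (.l 29)) (.l 29)) (.l 29))) (.l 29)) (.a (.b (.l 29) (.a (.l 29) (.b (.l 29) (.a (.l 29) .z)))) (.b (.a (.b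
(.l 29) (.a (.l 29) .z)) .z) (.a .z (.l 86)))))) (.a (.b (.a (.b (.l 29) (.b (.b (.b (.l 29) .z) .z) (.b .z (.l 35)))) (.b (.l 29) (.a (.b .z (.l 35))
.z))) (.a (.b (.l 35) (.a (.l 35) .z)) (.b (.a .z (.b (.a .z (.l 21)) (.l 21))) (.a (.b (.a .z (.l 21)) (.l 21)) (.l 21))))) (.b (.a (.b (.a (.b (.l
29) .z) .z) (.a (.b .z (.l 21)) (.b .z (.l 21)))) (.b (.l 86) (.b (.b .z (.b .z (.l 21))) (.l 21)))) (.l 21)))) (.b (.a (.b (.a (.b (.a (.b .z (.l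
29)) .z) (.a (.b (.a (.l 29) .z) .z) .z)) (.b .z (.l 86))) (.a (.b (.a .z (.l 86)) (.l 86)) (.l 86))) (.b (.b (.b (.b (.b .z (.a .z (.l 19))) .z) .z)
(.a (.b .z (.l 86)) .z)) (.b (.a (.l 86) (.b .z (.l 86))) (.l 86)))) (.b (.b (.b (.a (.l 86) (.b (.l 86) .z)) (.a .z (.b (.a .z (.b .z (.l 21))) (.l
21)))) (.b (.b (.b (.a (.a .z (.l 21)) .z) (.a .z (.a .z (.l 21)))) (.l 21)) (.l 21))) (.l 21)))) (.a (.a (.b (.b (.a (.b (.a (.b .z (.a .z (.l 21)))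
(.b (.a .z (.l 21)) (.l 21))) (.b .z (.l 73))) (.b (.l 21) (.b .z (.l 73)))) (.b (.l 73) (.b .z (.b .z (.b (.a .z (.l 27)) .z))))) (.b (.b (.b (.b (.b
(.a .z (.l 27)) (.l 27)) (.l 27)) (.l 27)) (.l 27)) (.b (.b (.b (.l 27) (.b .z (.l 31))) (.b (.b (.a .z (.l 31)) .z) .z)) .z))) (.b (.b (.b (.b (.l
21) (.b (.l 21) (.b (.l 21) (.a (.l 21) .z)))) (.b (.b (.b .z (.l 25)) .z) (.l 73))) (.b (.b (.a (.l 73) .z) .z) (.b .z (.b (.a (.b .z (.l 27)) (.l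
27)) (.b (.l 27) .z))))) (.b (.l 27) (.b (.b (.b (.b (.l 27) (.a (.l 27) .z)) (.b .z (.l 31))) (.b (.b (.l 31) (.a .z (.l 31))) .z)) (.b .z (.b .z (.b
.z (.l 33)))))))) (.b (.b (.b (.b (.l 21) (.b (.l 21) (.b (.a (.l 21) .z) (.a .z (.a .z (.l 25)))))) (.b (.b (.l 25) (.a (.b (.l 25) (.a .z (.l 25)))
(.l 25))) (.b (.a .z (.b (.a .z (.l 25)) .z)) .z))) (.b (.b (.a .z (.l 101)) (.a .z (.b (.l 101) .z))) (.b (.a (.b .z (.a (.b .z (.l 27)) (.l 27)))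
(.b (.a (.b .z (.l 27)) (.l 27)) (.l 27))) (.b (.b (.l 27) (.a (.l 27) (.a (.l 27) .z))) (.b .z (.a (.a .z (.l 27)) (.l 27))))))) (.b (.l 27) (.b (.b
(.b (.b (.a (.l 27) (.a (.l 27) .z)) .z) (.l 31)) (.b (.l 31) (.a (.b (.a .z (.l 31)) .z) (.l 31)))) (.b (.b .z (.a .z (.b .z (.l 33)))) (.b (.a (.b
.z (.l 33)) (.l 33)) (.l 33)))))))) (.b (.b (.b (.b (.b (.a (.b (.l 19) (.a (.b (.a .z (.l 19)) .z) (.l 19))) (.l 19)) (.a (.b (.a (.b .z (.l 65)) (.b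
(.a .z (.l 19)) .z)) (.a (.a .z (.l 65)) (.l 65))) (.b (.a (.b (.l 19) (.a .z (.l 19))) (.l 19)) (.a .z (.b (.l 19) (.a .z (.l 19))))))) (.b (.a (.a
.z (.a (.b (.l 65) .z) (.l 65))) (.b (.a (.l 65) .z) (.l 65))) (.a .z (.a (.a (.b (.l 65) .z) (.l 65)) (.l 65))))) (.b (.a (.a .z (.b .z (.l 161)))
(.a .z (.b (.l 65) (.a .z (.b (.l 65) .z))))) (.a (.b (.a (.a (.l 86) .z) (.l 161)) (.a (.a (.l 86) .z) .z)) (.b (.a (.l 161) .z) (.a (.b .z (.a (.b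
.z (.l 21)) (.l 21))) (.b (.a (.b .z (.l 21)) (.l 21)) (.l 21))))))) (.b (.b (.b (.a (.a (.b .z (.a .z (.b .z (.l 21)))) (.b (.a .z (.l 21)) (.l 21)))
(.l 21)) (.b (.a (.l 21) (.b (.l 21) (.a (.l 21) (.a (.l 21) .z)))) (.a (.b (.l 21) (.a (.a (.l 21) .z) .z)) (.b .z (.a (.a .z (.l 21)) (.l 21))))))
(.b (.b (.a (.b (.a .z (.l 21)) (.l 21)) (.l 21)) (.l 21)) (.l 21))) (.l 21))) (.b (.b (.b (.b (.l 21) (.b (.a (.b (.l 21) (.a (.l 21) .z)) (.b (.a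
(.a (.l 21) .z) .z) (.a .z (.l 25)))) (.a (.b (.a .z (.a .z (.l 25))) (.l 25)) (.l 25)))) (.b (.l 25) (.a (.b (.a (.b (.l 25) (.a .z (.l 25))) (.l
25)) (.a .z (.b (.l 25) .z))) (.l 25)))) (.b (.b (.a .z (.b (.a (.b (.a .z (.l 25)) .z) (.b (.l 25) (.a .z (.l 25)))) (.a (.a (.b .z (.l 27)) (.l 27))
(.b .z (.a (.l 27) .z))))) (.a (.a (.b .z (.a (.b .z (.l 27)) (.l 27))) (.b (.a (.b .z (.l 27)) (.l 27)) (.l 27))) (.l 27))) (.b (.b (.l 27) (.a (.l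
27) (.b (.l 27) (.a (.l 27) (.a (.l 27) .z))))) (.b (.a (.b (.a (.l 27) (.a (.l 27) .z)) .z) (.b .z (.l 27))) (.l 27))))) (.b (.b (.l 27) (.b (.l 27)
(.b (.l 27) (.a (.b (.l 27) (.a (.l 27) (.a (.l 27) .z))) (.b (.a (.l 27) .z) (.a .z (.a .z (.l 31)))))))) (.b (.b (.b (.a (.b .z (.l 31)) (.l 31))
(.l 31)) (.l 31)) (.b (.a (.b (.a (.b (.l 31) .z) (.l 31)) (.a (.b .z (.l 33)) .z)) (.b (.l 31) (.a (.b (.l 31) .z) (.l 31)))) (.a (.b (.l 33) (.b (.l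
33) .z)) (.b (.a (.b .z (.l 33)) (.b (.a .z (.l 31)) .z)) (.b .z (.a .z (.l 33))))))))))))

theorem vQ132 : ev Q132 I6_22 I4_14 = 795361416018378 := by decide +kernel

noncomputable def Q250 : QT :=
(.b (.a (.b (.a (.b (.a (.b (.a (.b (.l 27) (.a (.b (.l 27) .z) .z)) (.b (.a (.b (.a (.l 27) .z) .z) .z) .z)) (.a (.b (.a .z (.l 95)) (.b (.l 95) .z))
(.b (.l 95) (.b (.l 95) .z)))) (.b (.b .z (.b (.a .z (.l 131)) .z)) (.b (.b (.l 95) (.a (.l 95) .z)) .z))) (.b .z (.b (.a (.b (.a (.a .z (.l 33)) .z)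
(.a .z (.b .z (.l 33)))) (.b (.a .z (.l 33)) (.l 33))) (.a (.b (.a (.b .z (.l 33)) (.l 33)) (.l 33)) (.l 33))))) (.b (.b (.b (.a (.b (.a .z (.l 131))
(.l 131)) (.a (.a (.l 131) .z) .z)) (.a (.b (.l 131) .z) .z)) .z) (.b (.b (.a .z (.b .z (.a .z (.l 33)))) (.a (.b (.a .z (.b .z (.l 33))) (.a (.b .z
(.l 33)) (.l 33))) (.l 33))) (.l 33)))) (.b (.l 33) (.b (.a (.b (.l 33) (.a (.l 33) (.b (.a (.l 33) (.b (.l 33) .z)) (.a (.b (.l 33) .z) .z)))) (.b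
(.a (.b (.l 33) (.a (.l 33) .z)) (.b (.a (.b (.l 33) .z) .z) .z)) .z)) (.a (.b (.a (.b (.a (.b (.l 33) .z) .z) .z) .z) .z) .z)))) (.b (.b (.b (.a (.b
(.a (.b (.a (.l 96) .z) .z) (.b (.a .z (.l 119)) (.a .z (.l 119)))) (.a (.b (.a .z (.l 95)) (.a .z (.l 95))) (.b .z (.a (.l 95) .z)))) (.b (.a (.a (.l
119) (.a (.l 119) .z)) (.b .z (.a .z (.b .z (.a .z (.l 30)))))) (.a (.b (.a (.l 119) .z) (.a .z (.b .z (.a .z (.l 30))))) (.b (.a (.b .z (.a .z (.l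
30))) (.l 30)) (.l 30))))) (.a (.b (.a (.a (.a .z (.l 95)) (.l 95)) (.b (.a (.l 95) .z) (.a .z (.b .z (.l 33))))) (.a (.b .z (.a .z (.b .z (.l 33))))
(.b (.a (.b .z (.l 33)) (.l 33)) (.l 33)))) (.b (.a (.b (.a (.b .z (.l 33)) (.b .z (.l 33))) (.l 33)) (.b (.b .z (.l 33)) (.l 33))) (.l 33)))) (.l
33)) (.b (.b (.a (.l 33) (.b (.a (.l 33) (.b (.l 33) (.a (.l 33) (.b (.l 33) .z)))) (.a (.b (.l 33) (.a (.l 33) (.b (.l 33) .z))) (.b (.a (.b (.l 33)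
.z) .z) .z)))) (.a (.b (.a (.l 33) (.b (.l 33) (.a (.b (.l 33) .z) .z))) (.a (.b (.a (.l 33) (.b (.l 33) .z)) .z) .z)) .z)) (.b .z (.b .z (.b .z (.b
.z (.a (.a .z (.l 124)) (.a (.l 124) .z))))))))) (.b (.a (.b (.b (.b (.a (.a (.a (.l 81) (.a (.l 81) .z)) .z) (.a (.a .z (.a .z (.l 115))) (.a (.b (.l
115) .z) .z))) (.b (.a (.a (.a (.l 81) .z) .z) (.a (.a .z (.l 115)) .z)) (.b .z (.l 35)))) (.b (.l 35) (.b (.l 35) (.b (.l 35) .z)))) (.b (.a (.l 45)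
(.b (.l 45) (.a (.l 45) (.b (.l 45) (.a (.b (.l 45) .z) .z))))) (.a (.b (.a (.l 45) (.b (.l 45) (.a (.b (.l 45) .z) .z))) (.a (.b (.a (.l 45) (.b (.l
45) .z)) .z) .z)) (.b (.a (.b (.a (.b (.l 45) .z) .z) .z) .z) (.a (.b .z (.l 100)) (.a (.l 100) (.b .z (.l 100)))))))) (.b (.a (.b (.b (.a (.a .z (.b
.z (.l 124))) (.l 124)) (.b (.a (.a .z (.l 124)) (.l 124)) (.b .z (.l 35)))) (.b (.l 35) (.b (.l 35) (.b (.l 35) .z)))) (.b (.b (.a (.a (.l 124) .z)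
.z) (.b .z (.b .z (.l 35)))) (.a (.b (.l 35) (.a (.b (.l 35) (.b (.l 35) .z)) (.b (.l 35) .z))) (.b (.a (.b (.l 35) (.a (.l 35) .z)) (.b .z (.a .z (.l
38)))) .z)))) (.a (.b (.a (.b (.b (.l 45) (.a (.l 45) (.b (.l 45) .z))) (.b (.a (.b (.l 45) .z) .z) .z)) (.b (.b (.a (.l 45) (.b (.l 45) .z)) .z) .z))
(.a .z (.b (.a (.b .z (.a .z (.l 44))) (.b (.a .z (.l 44)) (.l 44))) .z))) (.b (.a (.b (.a .z (.b .z (.l 44))) (.a (.b (.a .z (.l 44)) (.l 44)) (.l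
44))) (.b (.b (.a .z (.b .z (.l 45))) (.a (.b .z (.l 44)) .z)) (.b (.a (.l 44) (.b .z (.l 44))) (.l 44)))) (.b (.l 44) (.b (.b .z (.a .z (.l 51))) (.a
(.a (.b .z (.l 51)) (.l 51)) (.l 51)))))))) (.a (.b (.a (.b (.b (.a (.b .z (.l 100)) (.l 100)) (.l 100)) (.a (.b (.b (.b (.l 100) .z) (.a .z (.l
105))) (.b .z (.l 47))) (.b (.b (.b (.l 100) .z) .z) (.a (.b .z (.l 47)) .z)))) (.b (.a (.l 100) (.b (.a (.l 100) .z) (.a .z (.b (.a .z (.l 51)) (.l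
51))))) (.a (.b (.a .z (.b .z (.a .z (.l 51)))) (.a (.b .z (.a .z (.l 51))) (.b (.l 51) (.b (.l 51) .z)))) (.b (.a (.b (.a .z (.l 51)) (.l 51)) (.l
51)) (.b (.a (.l 51) (.b (.l 51) .z)) .z))))) (.a (.b (.a (.b (.b (.l 47) .z) .z) (.b (.a (.b (.a (.l 47) .z) .z) (.b .z (.b .z (.l 57)))) (.a (.b (.a
.z (.l 57)) (.l 57)) (.l 57)))) (.a (.b (.a (.b .z (.a .z (.l 57))) (.l 57)) (.l 57)) (.l 57))) (.b (.b (.b .z (.b .z (.a (.l 57) .z))) (.b (.a (.l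
57) (.b (.a (.l 57) .z) (.l 57))) (.l 57))) (.a (.b (.l 57) (.a (.l 57) (.b (.l 57) (.a (.l 57) .z)))) (.b (.a (.l 57) (.b (.a (.l 57) .z) .z))
.z))))) (.b (.a (.b (.a (.b (.a (.b .z (.b .z (.l 51))) (.b .z (.l 51))) (.l 51)) (.b (.b (.a (.b .z (.l 51)) (.l 51)) (.l 51)) (.l 51))) (.b (.a (.b
(.l 51) (.a (.l 51) (.b (.l 51) .z))) (.b (.a (.b (.l 51) .z) .z) .z)) .z)) (.b (.b (.l 51) (.a (.b (.l 51) (.a (.b (.l 51) .z) .z)) (.b (.a (.b (.l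
51) .z) .z) .z))) .z)) (.a (.b (.b .z (.a (.a (.b .z (.a (.l 57) .z)) .z) .z)) (.a (.b .z (.a (.b .z (.l 60)) (.b (.a (.l 60) .z) .z))) (.b (.a (.b .z
(.a (.l 60) .z)) .z) .z))) (.b (.a (.b (.a .z (.b .z (.a (.l 54) .z))) (.a (.b (.l 54) .z) .z)) .z) (.a .z (.b (.b (.b .z (.l 123)) (.b (.l 123) .z))
(.b .z (.b (.a .z (.l 65)) (.l 65)))))))))))

theorem vQ250 : ev Q250 I5_23 I5_30 = 509736790039584 := by decide +kernel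

noncomputable def Q137 : QT :=
(.b (.a (.b (.a (.a (.b (.a (.b (.a (.b (.a (.l 58) .z) .z) .z) .z) .z) (.a (.b .z (.a (.b .z (.l 71)) .z)) .z)) .z) (.b (.b .z (.a .z (.b .z (.a .z
(.l 247))))) .z)) (.a (.a (.b (.a (.b (.a (.l 71) (.b .z (.l 71))) (.a (.b (.l 71) .z) .z)) .z) .z) .z) (.b (.a (.b (.a .z (.l 223)) .z) (.b (.b (.a
(.l 223) .z) (.l 223)) (.a (.b (.l 223) .z) .z))) (.a .z (.b (.a .z (.b (.a .z (.l 72)) (.l 72))) (.a (.b (.a .z (.l 72)) (.l 72)) (.l 72))))))) (.b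
(.a (.b (.a (.a (.a .z (.a .z (.l 197))) (.b .z (.l 197))) (.b (.a .z (.l 330)) .z)) (.a (.b (.a (.a (.l 247) .z) (.l 197)) .z) (.b (.a .z (.b (.a .z
(.l 103)) (.l 103))) (.a (.b (.a .z (.l 103)) (.l 103)) (.l 103))))) (.b (.a (.b .z (.a (.b .z (.a (.l 103) .z)) .z)) .z) (.a (.a (.b (.l 103) (.a (.l
103) .z)) .z) .z))) (.a (.b (.a (.b (.a .z (.b (.a .z (.l 103)) .z)) (.a (.b .z (.l 72)) .z)) (.b (.b (.l 103) (.b (.b (.l 103) .z) .z)) .z)) (.a (.a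
(.l 72) (.a (.b .z (.l 72)) .z)) (.b (.a (.b .z (.l 155)) .z) (.a .z (.b .z (.l 144)))))) .z))) (.a (.b (.a (.b (.a (.b (.b .z (.a (.b (.a (.l 64) .z)
(.l 64)) (.b .z (.a (.l 64) .z)))) (.l 64)) (.b .z (.a (.b (.b .z (.l 64)) (.l 64)) .z))) (.a (.b (.a (.l 64) (.b (.l 64) (.a (.l 64) (.b (.l 64)
.z)))) (.a (.b (.l 64) (.a (.l 64) (.b (.l 64) .z))) (.b (.a (.b (.l 64) .z) .z) (.a .z (.l 76))))) (.b (.a (.b (.a (.l 64) .z) .z) (.b .z (.l 76)))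
(.l 76)))) (.b (.a (.b (.a .z (.b (.a .z (.l 72)) (.l 72))) (.a (.b (.a .z (.l 72)) .z) (.b (.l 72) (.b (.l 72) .z)))) (.l 72)) (.b (.a (.b .z (.a .z
(.l 195))) (.b (.a (.b (.l 72) .z) (.l 72)) (.a .z (.b (.l 72) .z)))) (.a (.a (.a (.a (.l 76) .z) .z) (.l 195)) (.b (.a (.l 195) .z) (.l 195)))))) (.a
(.b (.a (.b (.a (.b (.a (.b (.l 64) .z) .z) (.a .z (.l 76))) (.l 76)) (.l 76)) (.l 76)) (.l 76)) (.a (.a (.b (.a (.l 76) (.b .z (.a (.l 76) .z))) (.l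
76)) (.b (.a (.b (.l 195) .z) (.l 195)) (.a (.b (.a (.l 76) .z) (.l 76)) .z))) (.b (.b (.l 195) (.b (.l 195) (.b (.l 195) .z))) .z)))) (.b (.a (.b (.a
(.l 72) (.a (.a (.b .z (.a (.l 72) .z)) .z) (.b (.b (.l 144) .z) .z))) (.a (.b (.l 72) (.a (.b (.a .z (.l 72)) .z) (.b (.l 72) (.a .z (.l 72))))) (.a
(.a (.l 72) (.b (.a (.l 72) .z) (.l 72))) (.a .z (.b .z (.l 141)))))) (.b .z (.a .z (.b (.a (.a .z (.l 137)) .z) .z)))) (.a (.b (.a (.b (.a (.l 195)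
(.b .z (.l 195))) (.b (.l 195) .z)) (.b (.a (.b (.a .z (.l 72)) .z) .z) (.a (.b (.l 195) .z) (.b .z (.a .z (.b .z (.l 41))))))) (.a (.b (.a (.l 263)
(.b (.l 263) .z)) (.a .z (.b (.a .z (.b .z (.l 41))) (.l 41)))) (.b (.a (.b .z (.a (.b .z (.l 41)) (.l 41))) (.b (.a (.b .z (.l 41)) (.l 41)) (.l
41))) (.l 41)))) (.b .z (.a (.b (.a (.b (.a (.b .z (.l 41)) .z) (.l 41)) .z) (.a (.l 41) (.b (.a (.l 41) .z) (.l 41)))) .z))))))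

theorem vQ137 : ev Q137 I5_12 I5_14 = 329016329102992 := by decide +kernel

noncomputable def Q128 : QT :=
(.a (.b (.b (.a (.b (.b (.b (.b (.l 33) (.b (.b (.l 33) .z) (.b (.a (.l 35) .z) (.l 35)))) (.l 35)) (.b (.b (.l 35) (.b (.b (.l 35) .z) (.l 38))) (.b
(.b (.a (.b (.l 38) .z) .z) (.a .z (.l 39))) (.b (.b .z (.a (.l 41) .z)) (.l 41))))) (.b (.b (.l 41) (.b (.b (.b (.l 41) (.a (.l 41) .z)) (.b .z (.l
44))) (.b (.a (.l 44) (.b (.l 44) .z)) (.a (.b (.l 44) .z) .z)))) (.b (.b (.b (.a (.b .z (.l 47)) (.l 47)) (.l 47)) (.l 47)) (.b (.b (.b (.l 47) .z)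
(.b (.a .z (.l 50)) (.l 50))) (.b (.l 50) (.a (.b (.l 50) .z) .z)))))) (.b (.a (.b (.b (.b (.l 33) (.b (.l 33) .z)) (.l 35)) (.b (.b (.l 35) .z) (.b
(.b (.b .z (.l 39)) (.l 39)) (.b (.b (.l 39) .z) (.l 41))))) (.b (.a (.b .z (.l 35)) (.b (.a (.b (.l 52) .z) (.b (.l 52) .z)) (.a (.b .z (.l 35))
.z))) (.b (.b (.l 35) (.b .z (.b .z (.l 39)))) (.b (.l 39) (.b (.b (.l 39) .z) (.b .z (.l 41))))))) (.b (.b (.l 41) (.b (.b (.b (.a (.l 41) .z) .z)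
(.a (.l 44) .z)) (.b (.a .z (.b .z (.l 45))) (.b .z (.a (.l 47) .z))))) (.b (.l 47) (.b (.b (.b (.a (.l 47) .z) .z) (.a (.l 50) (.b (.l 50) .z))) (.b
.z (.a (.b .z (.l 53)) (.l 53)))))))) (.b (.b (.b (.b (.a (.b (.a (.b .z (.l 53)) (.l 53)) (.l 53)) (.l 53)) (.b (.b (.l 53) (.a (.l 53) (.a (.l 53)
.z))) (.b .z (.a (.a .z (.l 56)) (.l 56))))) (.b (.a (.b (.l 56) (.a (.l 56) (.b (.l 56) .z))) (.b (.a (.b (.l 56) .z) .z) (.a .z (.l 59)))) (.a (.b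
(.a .z (.b .z (.l 59))) (.l 59)) (.l 59)))) (.b (.b (.a (.b (.b (.l 59) .z) (.l 62)) (.b (.b .z (.a .z (.l 62))) (.a (.l 62) (.b (.l 62) .z)))) (.a
(.b (.a (.l 62) (.b (.l 62) .z)) (.a (.b (.l 62) .z) .z)) (.b (.a .z (.b .z (.l 65))) (.l 65)))) (.b (.a (.b (.a (.b .z (.l 65)) (.l 65)) (.b .z (.l
68))) (.b (.b (.l 65) .z) (.b .z (.l 68)))) (.a (.b (.l 68) (.a (.l 68) .z)) (.b .z (.a .z (.l 71))))))) (.b (.a (.b (.b (.b .z (.b .z (.l 74))) (.b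
(.l 74) .z)) (.a (.b .z (.a (.b .z (.l 59)) .z)) (.b (.b .z (.l 80)) .z))) (.b (.b (.b (.b (.l 71) .z) (.l 74)) (.b .z (.a .z (.l 77)))) (.b (.b (.b
.z (.l 80)) (.a (.l 80) .z)) (.b .z (.b .z (.l 86)))))) (.a (.b (.a (.b (.a (.b (.l 59) .z) .z) (.l 65)) (.b .z (.a (.l 65) .z))) (.b (.b (.a (.b (.l
65) .z) .z) .z) (.b (.a .z (.l 71)) (.b (.l 71) .z)))) (.b (.a (.b (.b (.l 86) .z) .z) (.b .z (.b (.l 92) .z))) .z))))) (.b (.b (.a (.b (.b (.b .z (.b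
(.b (.l 77) .z) .z)) .z) .z) (.b (.a (.b (.b (.b .z (.l 77)) .z) .z) .z) .z)) .z) .z)) (.b (.b (.a (.b (.a (.b (.a (.b (.b (.l 52) (.b (.l 52) .z))
(.a (.b (.l 58) .z) (.l 58))) (.b (.b (.l 52) .z) (.l 58))) (.a (.b .z (.a (.b (.l 39) .z) .z)) (.b (.b (.b (.l 58) .z) (.b .z (.l 64))) (.a .z (.b
(.l 64) .z))))) (.b (.b (.b (.b (.l 52) (.b (.l 52) .z)) .z) (.l 58)) (.b (.b (.b (.b (.l 58) .z) .z) (.l 64)) (.b (.l 64) (.b (.b (.l 64) .z) .z)))))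
(.a (.b (.a (.b (.l 41) (.b .z (.b (.l 45) .z))) (.b (.a (.l 41) (.b .z (.l 41))) (.b (.b .z (.l 45)) (.b (.l 45) .z)))) (.b (.b (.b (.b .z (.l 47))
(.l 47)) (.l 47)) (.b .z (.b (.b (.l 51) .z) (.b .z (.l 53)))))) (.b (.a (.b .z (.a (.b .z (.l 45)) (.b .z (.l 45)))) (.b (.b (.l 70) .z) .z)) (.a (.b
(.b (.b .z (.l 47)) (.l 47)) (.b (.b .z (.l 51)) (.b (.l 51) .z))) (.b (.a (.b .z (.l 47)) .z) (.b (.b .z (.l 51)) (.b (.l 51) .z))))))) (.b (.b (.b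
(.b (.b (.a (.b (.l 52) .z) .z) (.a .z (.l 55))) (.b (.b (.l 55) (.a (.l 55) .z)) (.b .z (.l 58)))) (.b (.l 58) (.b (.a (.l 58) (.b (.l 58) .z)) (.a
(.b (.l 58) .z) .z)))) (.b (.b (.b (.a .z (.l 61)) (.b (.a (.l 61) .z) .z)) (.l 64)) (.b (.b (.a (.l 64) (.b (.l 64) .z)) (.a (.b (.l 64) .z) .z)) (.b
.z (.b .z (.l 70)))))) (.a (.b (.b (.b (.l 70) .z) (.b (.b .z (.l 76)) (.b (.l 76) .z))) .z) (.b (.b (.b (.l 70) .z) (.b (.l 76) .z)) (.b (.b (.b .z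
(.l 82)) .z) (.b (.l 88) .z)))))) (.a (.b (.b (.b (.b (.l 53) (.b (.a (.b (.l 53) .z) (.b (.l 53) .z)) (.a (.b (.l 56) .z) .z))) (.b (.b (.a .z (.b
(.l 57) .z)) (.l 59)) (.b (.l 59) (.b (.l 59) (.a (.l 59) .z))))) (.b (.b (.b (.a (.b .z (.l 62)) .z) .z) (.l 65)) (.b (.b (.b (.a (.l 65) .z) .z) .z)
(.b (.a .z (.l 71)) (.l 71))))) (.b (.b (.b .z (.b (.a .z (.l 77)) (.b (.l 77) .z))) (.b .z (.b (.b (.l 83) .z) (.a (.l 86) .z)))) .z)) (.b (.a (.b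
(.a (.b (.a (.b (.l 53) .z) .z) (.b .z (.b (.l 59) .z))) .z) (.b (.b (.b (.b .z (.l 63)) (.b (.l 63) .z)) (.b (.b .z (.l 65)) (.l 65))) (.b .z (.b .z
(.l 71))))) .z) (.a (.b (.b (.b .z (.b (.l 77) .z)) (.b (.b .z (.l 83)) .z)) (.b (.b (.b (.l 89) .z) .z) .z)) (.b .z (.b (.b (.b (.l 89) .z) .z)
.z)))))) (.b (.b (.a .z (.b (.b (.b (.b .z (.b (.l 113) .z)) .z) .z) .z)) .z) .z)))

theorem vQ128 : ev Q128 I6_20 I4_15 = 241755735107648 := by decide +kernel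

noncomputable def Q18 : QT :=
(.a (.b (.b (.a (.b (.a (.a (.l 28) (.a (.l 28) (.b (.a (.l 28) (.a (.l 28) (.b (.a (.l 28) .z) .z))) (.a (.b (.l 28) (.a (.l 28) .z)) .z)))) (.a (.a
(.a (.b .z (.l 76)) (.b (.l 76) (.b (.l 76) .z))) (.b (.a (.l 76) .z) .z)) (.b (.a .z (.l 72)) (.a (.a (.b .z (.l 72)) (.l 72)) (.b (.l 72) (.a (.l
72) .z)))))) (.b (.a (.a (.l 28) (.a (.a (.l 28) (.b (.l 28) (.a (.b (.l 28) .z) .z))) (.a .z (.l 76)))) (.a (.a .z (.a .z (.l 72))) (.a (.b (.l 72)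
.z) (.b (.a .z (.b (.a .z (.l 24)) (.l 24))) (.a (.b (.a .z (.l 24)) (.l 24)) (.l 24)))))) (.a (.a (.l 28) (.a (.a (.b (.a (.l 28) (.b (.l 28) .z))
(.a (.b (.l 28) .z) .z)) .z) (.b (.a (.l 76) .z) .z))) (.a (.a .z (.b (.a (.l 72) .z) (.a .z (.b (.a .z (.l 24)) (.l 24))))) (.b (.a (.a (.b .z (.a .z
(.l 24))) (.l 24)) (.l 24)) (.a (.b (.l 24) (.a (.l 24) (.a (.l 24) .z))) (.b (.a (.a (.l 24) .z) .z) (.a .z (.l 46))))))))) (.a (.b (.a (.a (.b (.b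
(.l 72) (.a (.l 72) .z)) (.b (.a .z (.b .z (.a .z (.l 24)))) (.a (.b .z (.l 24)) (.l 24)))) (.b (.a (.b .z (.a .z (.b .z (.l 24)))) (.b (.a .z (.b .z
(.l 24))) (.l 24))) (.l 24))) (.b (.l 24) (.a (.b (.l 24) (.a (.l 24) (.b (.l 24) (.a (.l 24) .z)))) (.b (.a (.l 24) (.b (.a (.l 24) .z) .z)) (.a .z
(.b .z (.l 46))))))) (.a (.b (.a (.l 24) (.b (.a (.l 24) (.b (.l 24) (.a (.l 24) .z))) (.a (.b (.l 24) .z) .z))) (.a (.b (.b (.a (.l 24) .z) .z) (.b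
(.a .z (.l 46)) (.l 46))) (.b (.a (.b .z (.l 46)) (.l 46)) (.l 46)))) (.b (.a (.b (.a (.b (.a (.l 24) .z) .z) (.b .z (.l 46))) (.l 46)) (.l 46)) (.l
46)))) (.b (.a (.b (.a (.b (.l 24) (.a (.b (.l 24) (.a (.l 24) .z)) .z)) (.b (.a (.b (.a (.l 24) .z) .z) (.b .z (.l 46))) (.a (.b .z (.l 46)) (.l
46)))) (.a (.b (.a (.b .z (.l 46)) (.l 46)) (.l 46)) (.l 46))) (.l 46)) (.l 46)))) (.a (.b (.b (.a (.b (.a (.a (.l 28) (.a (.l 28) (.b (.a (.l 28) .z)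
.z))) .z) (.b (.a (.a (.l 28) (.a (.a (.l 28) .z) .z)) .z) (.a (.a (.l 28) .z) .z))) (.a (.b (.a (.a .z (.b .z (.l 24))) (.b (.l 24) (.a (.a (.l 24)
.z) .z))) (.a (.b (.a (.l 24) .z) .z) (.b (.a .z (.l 46)) (.l 46)))) (.b (.a (.b .z (.a .z (.l 46))) (.l 46)) (.l 46)))) (.a (.b (.b (.a (.a (.a (.l
28) .z) .z) (.a .z (.a .z (.l 46)))) .z) (.b (.a (.l 39) .z) (.a (.l 39) (.a (.l 39) (.a (.l 39) .z))))) (.a (.b (.b (.l 46) .z) (.a .z (.b (.a .z (.l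
14)) .z))) (.b (.b (.l 46) .z) (.b (.l 14) (.a (.a .z (.a .z (.a .z (.l 14)))) (.l 14))))))) (.b (.a (.l 39) (.a (.b (.a (.b (.a (.l 39) .z) (.l 39))
(.b .z (.a (.l 39) .z))) (.l 39)) (.b .z (.a (.b .z (.l 39)) .z)))) (.a (.l 39) (.a (.l 39) (.b (.a (.l 39) (.b (.a (.l 39) .z) (.l 39))) (.l 39))))))
(.a (.b (.b (.l 46) (.b (.b (.l 46) .z) (.l 14))) (.a (.b (.b (.a (.b (.l 14) .z) (.l 14)) .z) (.a (.b .z (.a (.l 39) (.b .z (.l 39)))) .z)) (.b (.b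
(.l 14) (.a (.b (.l 14) (.a .z (.a .z (.l 14)))) (.l 14))) (.b (.a .z (.b (.a .z (.l 14)) .z)) .z)))) (.b (.b (.l 46) (.b (.b (.l 46) .z) (.l 14)))
(.b (.l 14) (.a (.b (.a (.b (.l 14) (.a (.a .z (.l 14)) (.l 14))) (.l 14)) (.a (.b (.a .z (.a .z (.a .z (.l 14)))) .z) (.b (.l 14) (.a .z (.l 14)))))
(.l 14))))))) (.b (.a (.l 39) (.a (.b (.a (.b (.a (.l 39) (.b (.a (.l 39) (.b .z (.l 39))) (.l 39))) (.l 39)) (.b (.a (.b .z (.a (.b .z (.l 39)) .z))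
.z) (.a (.l 39) (.b (.a (.b .z (.l 39)) .z) (.a (.l 39) (.b .z (.l 39))))))) (.l 39)) (.b (.a (.b .z (.a (.b (.l 132) .z) (.b .z (.l 132)))) (.b (.b
(.a (.b (.a (.a (.a .z (.l 14)) (.l 14)) (.l 14)) (.a .z (.a (.a .z (.l 14)) (.l 14)))) (.l 14)) (.a .z (.b (.a (.a .z (.l 14)) (.l 14)) (.a .z (.a .z
(.l 14)))))) .z)) (.a (.b (.a (.b (.a (.l 39) .z) (.l 39)) .z) (.a (.l 39) (.b (.a (.l 39) (.b .z (.l 39))) (.l 39)))) (.b (.a (.l 132) (.b .z (.l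
132))) (.a (.b .z (.a (.b .z (.l 39)) .z)) (.l 132))))))) (.a (.l 39) (.a (.l 39) (.b (.a (.l 39) (.b (.a (.b (.a (.l 39) (.b .z (.l 39))) (.l 39))
(.a (.b .z (.b .z (.l 39))) .z)) (.a (.l 39) (.a (.l 39) (.b (.a (.l 39) .z) (.l 39)))))) (.l 39)))))) (.a (.b (.b (.l 46) (.b (.b (.l 46) (.b (.b (.l
46) .z) (.l 14))) (.l 14))) (.a (.b (.b (.a (.b (.l 14) (.a (.b (.a (.b (.a .z (.l 14)) .z) (.b (.l 14) (.a .z (.l 14)))) .z) (.b (.l 14) (.a (.b (.a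
.z (.l 14)) .z) (.b (.l 14) (.a (.a .z (.l 14)) (.l 14))))))) (.l 14)) (.a (.b .z (.a (.b .z (.l 132)) .z)) (.b (.a (.b (.a (.b (.a (.a .z (.l 14))
(.l 14)) .z) (.l 14)) (.a .z (.b (.a .z (.a .z (.l 14))) .z))) (.b (.l 14) (.a (.b (.l 14) (.a .z (.l 14))) (.l 14)))) (.a .z (.b (.a .z (.b (.a .z
(.l 14)) .z)) .z))))) (.a (.b (.a (.b (.l 132) (.a (.b .z (.a (.l 39) .z)) .z)) (.l 132)) (.a (.b (.a (.l 39) (.b (.a (.l 39) .z) (.l 39))) (.l 39))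
(.b (.a (.b .z (.a (.l 39) .z)) .z) (.a (.l 39) (.b .z (.l 39)))))) (.b (.b .z (.a (.l 132) .z)) (.a (.b (.l 132) .z) (.l 132))))) (.b (.b (.l 14) (.a
(.b (.l 14) (.a (.b (.a (.b (.l 14) (.a (.a .z (.l 14)) (.l 14))) (.l 14)) (.a (.b (.a .z (.a .z (.l 14))) .z) (.b (.l 14) (.a .z (.l 14))))) (.l
14))) (.l 14))) (.b (.a (.b (.a .z (.b (.a (.b (.a (.a .z (.l 14)) (.l 14)) .z) (.l 14)) (.a .z (.b (.a .z (.a .z (.l 14))) .z)))) (.a .z (.l 484)))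
(.b (.a (.b (.l 14) (.a (.b (.l 14) (.a (.a .z (.l 14)) (.l 14))) (.l 14))) (.l 14)) (.a (.b (.a .z (.b (.l 14) (.a .z (.l 14)))) .z) (.b (.l 14) (.a
(.b (.a (.a .z (.l 14)) (.l 14)) (.a .z (.a .z (.l 14)))) (.l 14)))))) (.a (.b .z (.a (.l 132) .z)) (.b (.a (.l 484) (.b (.a .z (.b (.a .z (.l 14))
.z)) .z)) .z)))))) (.b (.b (.l 46) (.b (.b (.l 46) (.b (.b (.l 46) .z) (.l 14))) (.l 14))) (.a (.b (.l 14) (.b (.l 14) (.a (.b (.a (.b (.l 14) (.a (.b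
(.a .z (.l 14)) .z) (.l 14))) (.l 14)) (.a (.b (.a .z (.b (.a .z (.a .z (.l 14))) .z)) .z) (.b (.a (.b (.l 14) (.a (.a .z (.l 14)) (.l 14))) (.l 14))
(.a (.b (.a .z (.a .z (.l 14))) .z) (.b (.l 14) (.a (.a .z (.l 14)) (.l 14))))))) (.l 14)))) (.l 14)))))

theorem vQ18 : ev Q18 I3_0 I6_21 = 1667492173107021 := by decide +kernel

noncomputable def Q22 : QT :=
(.b (.b (.l 39) (.b (.b (.a (.l 39) (.b (.l 39) (.a (.l 39) (.b (.l 39) (.a (.l 39) (.b (.l 39) (.a (.l 39) .z))))))) (.a (.b (.l 39) (.b (.a (.l 39)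
(.a (.b (.l 39) .z) .z)) (.a (.b (.a (.l 39) .z) .z) (.a .z (.l 140))))) (.b (.a (.b (.a (.l 39) (.b (.l 39) (.a (.l 39) .z))) (.a (.b (.l 39) .z)
.z)) (.b (.a (.b (.a (.l 39) .z) .z) (.b .z (.l 123))) (.a (.a .z (.l 123)) (.l 123)))) (.a .z (.a (.a .z (.a .z (.l 123))) (.l 123)))))) (.b (.a (.a
(.l 161) (.a (.a (.l 161) (.b .z (.l 161))) (.a .z (.l 140)))) (.a (.a (.a (.a (.l 140) .z) .z) .z) (.a (.a (.a .z (.l 193)) (.a .z (.l 123))) (.l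
123)))) (.b (.a (.b (.b (.a (.l 161) .z) .z) (.b .z (.a (.l 82) .z))) (.b (.a .z (.a .z (.l 123))) (.a .z (.a .z (.l 123))))) (.a (.l 82) (.b (.a (.b
.z (.l 82)) (.b (.a .z (.l 123)) .z)) (.a (.l 82) (.b .z (.a .z (.l 116)))))))))) (.b (.a (.b (.b (.l 82) (.a (.b (.l 82) (.a (.b (.l 82) .z) (.l
82))) (.l 82))) (.a (.b (.b (.a (.b .z (.l 110)) (.b (.a .z (.l 82)) .z)) (.a (.l 110) (.b (.a (.l 110) .z) (.l 110)))) (.a (.b (.a (.b .z (.a (.l 16)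
(.b .z (.a (.l 16) .z)))) (.b (.l 110) .z)) (.a (.l 16) (.b (.a (.b (.a (.l 16) .z) (.l 16)) (.b .z (.a (.l 16) .z))) (.l 16)))) (.b (.l 110) (.a (.b
.z (.a (.b .z (.l 16)) .z)) (.b (.l 110) .z))))) (.b (.b (.l 82) (.a (.b (.a .z (.l 82)) .z) (.l 82))) (.b (.a (.b (.a (.l 110) .z) (.l 110)) (.b (.a
.z (.l 82)) .z)) (.a (.a (.l 110) .z) .z))))) (.b (.a (.l 82) (.b (.a (.a (.l 82) (.a (.l 82) .z)) (.a (.a (.a .z (.l 116)) (.l 116)) (.a (.l 116) (.b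
(.l 116) .z)))) (.a (.l 82) (.b (.a (.a .z (.l 116)) .z) .z)))) (.a (.b (.l 82) (.a (.b (.l 82) (.a .z (.b (.l 82) .z))) (.b (.l 82) (.a (.b (.l 82)
.z) .z)))) (.b (.a (.b (.l 82) (.a (.l 82) .z)) (.b .z (.a (.b .z (.l 111)) .z))) (.a (.b (.a .z (.b .z (.l 111))) (.a (.b .z (.l 111)) (.l 111))) (.l
111)))))) (.a (.b (.a (.b (.a (.l 16) (.b (.a (.l 16) (.b (.a (.b .z (.a (.l 16) .z)) .z) (.a (.l 16) (.b (.a (.l 16) .z) (.l 16))))) (.l 16))) (.l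
16)) (.b (.a (.b .z (.a (.b (.a (.l 16) (.b .z (.a (.l 16) .z))) (.l 16)) (.b .z (.a (.b (.a (.l 16) .z) (.l 16)) .z)))) .z) (.a (.l 16) (.b (.a (.b
(.a (.b .z (.a (.l 16) .z)) .z) (.a (.l 16) (.b .z (.l 16)))) .z) (.a (.l 16) (.b (.a (.b (.a (.l 16) .z) (.l 16)) (.b .z (.a (.l 16) .z))) (.l
16))))))) (.l 16)) (.b (.a (.b (.a (.b .z (.a .z (.b .z (.l 111)))) (.b (.a .z (.l 111)) (.l 111))) (.a (.b (.a (.b .z (.l 111)) (.l 111)) (.a (.b .z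
(.a (.b .z (.a (.l 16) .z)) .z)) (.l 111))) (.l 111))) (.b (.l 111) (.a (.l 111) (.b (.l 111) (.a (.b (.l 111) .z) .z))))) (.a (.b (.a (.b (.a (.b (.a
(.l 16) (.b (.a (.l 16) .z) (.l 16))) (.l 16)) (.b .z (.a (.b (.a (.l 16) .z) (.l 16)) .z))) (.l 16)) (.b (.a (.b (.l 111) .z) (.l 111)) (.a (.b (.a
(.b .z (.a (.l 16) .z)) .z) (.a (.l 16) (.b .z (.a (.l 16) .z)))) .z))) (.a (.l 16) (.b (.a (.l 16) (.b (.a (.b (.a (.l 16) .z) (.l 16)) .z) (.a (.l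
16) (.b (.a (.l 16) .z) (.l 16))))) (.l 16)))) (.b (.a (.b (.a (.b (.l 111) .z) .z) (.a (.b .z (.l 76)) (.l 76))) (.b (.a (.b .z (.l 76)) (.l 76)) (.l
76))) (.a (.b (.a (.b (.l 76) .z) (.l 76)) (.a (.b (.a (.b (.a (.l 16) .z) (.l 16)) .z) (.a (.l 16) (.b (.a (.l 16) .z) (.l 16)))) (.b (.l 76) (.a (.b
.z (.a (.l 16) .z)) .z)))) (.l 76))))))))

theorem vQ22 : ev Q22 I5_2 I5_13 = 798222248050715 := by decide +kernel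

noncomputable def Q2 : QT :=
(.a (.b (.a .z (.b (.a (.b .z (.a .z (.b .z (.a .z (.b (.a .z (.b .z (.l 58))) (.l 58)))))) (.b (.a (.b .z (.a .z (.b .z (.a .z (.b .z (.l 58))))))
(.b .z (.a (.b .z (.l 58)) (.b (.b .z (.l 58)) (.l 58))))) (.a (.b (.a (.b .z (.a .z (.l 58))) (.b (.a (.b .z (.l 58)) (.l 58)) (.l 58))) (.l 58)) (.l
58)))) (.a (.b (.a (.b (.a .z (.b .z (.a .z (.b .z (.l 58))))) (.a .z (.b (.a .z (.b (.l 58) .z)) .z))) (.b (.a (.b (.a (.b .z (.l 58)) (.l 58)) (.l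
58)) (.l 58)) (.a (.b (.l 58) (.a (.b (.l 58) .z) (.l 58))) (.l 58)))) (.a .z (.b (.a (.b (.a .z (.b (.l 58) .z)) .z) (.b (.l 58) (.a (.b (.l 58) .z)
(.l 58)))) (.a .z (.b (.a .z (.a .z (.l 58))) .z))))) (.b (.a (.l 58) (.b (.l 58) (.a (.l 58) (.b (.l 58) (.a (.b (.l 58) .z) .z))))) (.a (.b (.a (.l
58) (.b (.l 58) (.a (.l 58) (.b (.l 58) .z)))) (.a (.b (.a (.l 58) (.b (.l 58) .z)) .z) .z)) (.b (.a (.b (.a (.b (.l 58) .z) .z) .z) .z) .z)))))) (.b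
(.a (.b .z (.a .z (.b (.a .z (.b .z (.a .z (.l 92)))) (.a (.b (.a .z (.b .z (.l 92))) (.a (.b .z (.l 92)) (.l 92))) (.l 92))))) (.b (.a (.a (.b .z (.b
.z (.a .z (.l 92)))) .z) .z) (.a (.b (.a (.l 92) (.b (.a (.l 92) .z) (.a (.l 92) .z))) (.a (.b (.l 92) (.a (.l 92) .z)) (.b (.a (.b (.l 92) .z) .z)
.z))) (.b (.a .z (.b .z (.l 394))) .z)))) (.a (.b (.a (.b (.a .z (.b (.a .z (.b .z (.l 92))) (.a .z (.l 92)))) (.a .z (.b (.a (.a .z (.l 92)) (.l 92))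
.z))) (.b (.a (.l 92) (.b (.a (.l 92) (.b (.l 92) .z)) (.a (.b (.l 92) .z) .z))) (.a (.b (.a (.b (.l 92) .z) .z) .z) .z))) (.a .z (.b .z (.b .z (.a .z
(.b (.a .z (.l 116)) (.a (.l 116) .z))))))) (.b .z (.a (.b .z (.a (.b (.b .z (.l 116)) (.b (.a (.l 116) .z) .z)) (.b (.a (.b (.l 116) .z) .z) .z)))
.z))))) (.b (.a (.b (.a (.b (.b (.b .z (.a .z (.b (.a .z (.b .z (.l 58))) (.l 58)))) (.b (.a (.b (.a (.b .z (.l 58)) (.l 58)) (.l 58)) (.l 58)) (.l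
58))) (.a (.l 58) (.b (.a (.l 58) (.b (.l 58) (.a (.l 58) (.b (.l 58) .z)))) (.a (.b (.l 58) (.a (.b (.l 58) .z) .z)) .z)))) (.b (.a (.b (.b (.a (.b
.z (.a .z (.l 58))) (.b (.a .z (.l 58)) (.l 58))) (.l 58)) (.a (.l 58) (.b (.a (.l 58) (.b (.l 58) .z)) .z))) (.b (.a (.b (.l 58) (.a (.b (.l 58) .z)
.z)) .z) .z)) (.a (.b (.a (.b (.a (.b (.l 58) .z) .z) .z) .z) .z) .z))) (.a (.b (.a (.b (.a (.b (.l 58) (.a (.l 58) (.b (.l 58) .z))) (.b (.a (.l 58)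
.z) .z)) .z) .z) .z) .z)) .z) (.a (.b (.a (.b (.a .z (.b .z (.b (.a (.l 224) .z) .z))) .z) .z) (.b (.a (.b (.b .z (.a (.a (.a .z (.l 114)) .z) .z))
(.a (.a (.a .z (.l 114)) (.a .z (.l 90))) (.a (.a (.a (.l 90) .z) .z) .z))) (.b (.a (.b .z (.a .z (.l 200))) (.a (.l 200) (.a (.l 200) .z))) .z)) (.a
(.a (.a (.a (.a (.b .z (.l 114)) (.l 114)) (.a (.b (.l 114) .z) .z)) (.a (.a (.b .z (.l 90)) (.l 90)) (.a (.l 90) (.b (.l 90) .z)))) .z) (.b (.a .z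
(.b (.a (.a .z (.l 124)) (.b .z (.l 124))) (.a (.a .z (.l 124)) (.l 124)))) (.a .z (.a (.a (.a .z (.l 124)) (.l 124)) (.l 124))))))) (.b .z (.a (.b .z
(.a (.b (.b .z (.a (.b .z (.l 124)) .z)) (.a (.l 124) (.b (.a (.l 124) .z) (.l 124)))) (.b .z (.a (.b .z (.a (.l 124) .z)) .z)))) .z)))))

theorem vQ2 : ev Q2 I4_1 I5_4 = 258444512452550 := by decide +kernel

noncomputable def Q254 : QT :=
(.a (.b (.a (.b (.b (.b (.a (.a .z (.a .z (.b .z (.l 96)))) (.b .z (.a (.a .z (.l 104)) (.l 104)))) (.b (.a (.a .z (.a .z (.l 96))) (.a (.a .z (.l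
104)) (.a (.l 104) .z))) .z)) (.b .z (.a (.b (.a (.b (.a (.l 59) .z) (.l 59)) .z) (.l 59)) (.b .z (.a (.b .z (.l 59)) .z))))) (.a (.b (.b (.a (.b (.a
.z (.b (.l 59) .z)) (.a (.l 85) .z)) (.b (.l 59) (.a (.b (.l 59) .z) (.b (.l 59) .z)))) (.a (.l 85) (.b .z (.l 85)))) (.a (.b (.l 85) (.a (.b (.l 85)
.z) (.b .z (.a (.b .z (.l 26)) (.l 26))))) (.b (.a (.b (.l 85) .z) (.b .z (.a (.b .z (.l 26)) (.l 26)))) (.a (.b (.a (.b .z (.l 26)) (.l 26)) (.l 26))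
(.l 26))))) (.b (.a (.b (.b (.b (.l 59) (.a (.l 59) .z)) .z) (.a .z (.b .z (.a (.b .z (.l 26)) (.b .z (.l 26)))))) (.b (.a (.b (.b (.l 59) .z) .z) .z)
(.a (.b .z (.b (.b .z (.l 26)) (.l 26))) (.b .z (.l 26))))) (.a (.b (.a (.b (.a (.b .z (.l 26)) (.l 26)) (.l 26)) (.l 26)) (.l 26)) (.l 26))))) (.b
(.a (.b (.a .z (.b (.a .z (.a .z (.l 72))) .z)) (.a (.b .z (.a .z (.b .z (.a .z (.b .z (.l 25)))))) (.b .z (.a (.b .z (.b (.b .z (.l 25)) (.l 25)))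
(.b (.b .z (.b .z (.l 25))) (.l 25)))))) (.b (.a (.b (.a (.l 72) .z) .z) .z) (.b (.b (.a .z (.a .z (.b .z (.a .z (.l 25))))) (.a (.b .z (.a .z (.b .z
(.l 25)))) (.b (.a (.b .z (.l 25)) (.l 25)) (.l 25)))) (.b (.a (.b (.a (.b .z (.l 25)) (.l 25)) (.l 25)) (.l 25)) (.l 25))))) (.a (.b (.a (.b (.a .z
(.b (.b (.b (.l 25) .z) .z) .z)) (.b (.b .z (.b .z (.l 26))) (.l 26))) (.b (.b (.b (.l 25) (.a .z (.l 25))) .z) (.b (.b (.b .z (.a .z (.l 26))) (.l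
26)) (.l 26)))) (.l 26)) (.b (.b (.b (.b (.l 25) (.a (.l 25) (.b (.l 25) (.a (.l 25) .z)))) (.b (.a (.b (.l 25) .z) (.b .z (.a .z (.l 26)))) (.a (.b
.z (.a .z (.l 26))) (.l 26)))) (.l 26)) (.l 26))))) (.a (.b (.a (.b (.a (.b (.a (.b (.a (.b .z (.l 26)) (.l 26)) (.l 26)) (.l 26)) (.a (.b (.a (.b (.l
26) .z) (.l 26)) (.a .z (.a .z (.l 26)))) (.l 26))) (.l 26)) (.b (.a (.a .z (.a (.b (.a .z (.l 26)) .z) (.b (.l 26) (.a .z (.l 26))))) (.l 26)) (.b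
(.b (.a .z (.l 26)) (.b (.a .z (.l 26)) (.a .z (.a .z (.l 26))))) (.b (.b (.a .z (.a .z (.l 26))) .z) .z)))) (.b (.l 26) (.b (.l 26) (.b (.l 26) (.b
(.a (.b (.l 26) (.a .z (.l 26))) (.l 26)) (.a .z (.b (.a .z (.l 26)) .z))))))) (.b (.b .z (.a .z (.a .z (.b .z (.a .z (.b .z (.l 62))))))) (.b (.a (.b
(.a (.b .z (.l 75)) .z) (.a (.b (.l 75) .z) .z)) (.a (.b (.a .z (.b .z (.l 62))) (.l 62)) (.l 62))) (.a (.b (.a .z (.a .z (.l 62))) (.a .z (.l 62)))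
(.l 62))))) (.b (.l 26) (.b (.b (.b (.a (.b (.a .z (.b (.l 26) .z)) .z) (.b (.l 26) (.a .z (.b (.l 26) (.a .z (.l 26)))))) (.a (.a .z (.a .z (.b .z
(.l 62)))) (.b (.a (.a (.l 62) .z) (.b .z (.l 49))) (.a (.a (.l 62) .z) (.l 49))))) (.a (.a (.b (.a .z (.b .z (.l 62))) (.l 62)) (.l 62)) (.a (.a (.b
(.a (.l 62) .z) .z) (.b (.a .z (.l 49)) (.l 49))) (.l 49)))) (.a (.a (.l 62) (.a (.b (.l 62) (.a (.b (.l 62) .z) .z)) (.b (.a (.b (.l 62) .z) .z) (.a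
(.b .z (.l 49)) (.l 49))))) (.a (.a (.b (.b (.a .z (.l 49)) (.l 49)) (.l 49)) (.l 49)) (.l 49))))))) (.b (.b (.a (.b (.a (.b .z (.a (.b .z (.a .z (.b
.z (.a .z (.l 25))))) (.b (.a .z (.b .z (.a .z (.l 25)))) (.a (.b (.a .z (.l 25)) (.l 25)) (.l 25))))) (.b (.a (.b .z (.a .z (.b .z (.a .z (.l 25)))))
(.b .z (.a (.b (.a .z (.l 25)) (.l 25)) (.a (.a (.l 25) .z) .z)))) (.a (.b (.a (.b (.a .z (.l 25)) (.l 25)) (.l 25)) (.l 25)) (.a (.l 25) (.a (.l 25)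
(.b (.a (.l 25) .z) (.l 25))))))) (.a (.b (.a (.b (.a (.b (.a .z (.l 25)) (.l 25)) (.l 25)) (.l 25)) (.l 25)) (.b (.l 25) (.a (.l 25) (.b (.l 25) (.a
(.l 25) (.b (.l 25) .z)))))) (.b (.l 25) (.b (.a (.l 25) (.b (.l 25) (.a (.l 25) .z))) (.a (.b (.a (.l 25) (.b (.l 25) .z)) (.a .z (.b .z (.l 26))))
(.b (.a .z (.b .z (.l 26))) (.l 26))))))) (.b (.a (.a (.a (.b (.l 79) (.a (.b .z (.a (.l 25) .z)) .z)) (.l 79)) (.l 79)) (.b (.a (.l 79) (.b (.a (.l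
79) .z) (.l 79))) (.a (.l 79) (.a (.l 79) .z)))) (.b (.a (.b (.a (.a (.a (.l 25) .z) .z) (.l 79)) (.a (.a (.l 25) .z) (.b (.l 79) .z))) (.b (.a (.b
(.l 79) .z) (.b .z (.a .z (.b .z (.l 26))))) (.a (.b (.a .z (.b .z (.l 26))) (.a (.b .z (.l 26)) (.l 26))) (.l 26)))) (.a (.b (.a (.b (.a (.b (.l 25)
.z) .z) (.a (.b .z (.l 26)) (.l 26))) (.b (.a (.b .z (.l 26)) (.l 26)) (.l 26))) (.l 26)) (.l 26))))) (.b (.a (.b (.a (.b (.a (.b (.a (.l 25) (.b (.l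
25) .z)) (.a .z (.b .z (.l 26)))) (.b (.a .z (.b .z (.l 26))) (.l 26))) (.l 26)) (.l 26)) (.l 26)) (.l 26)) (.l 26))) (.b (.l 26) (.b (.b (.a (.b (.l
26) (.a (.b (.a (.b (.a .z (.l 26)) .z) (.l 26)) (.a (.b .z (.l 49)) .z)) (.b (.l 26) (.a (.b (.l 26) (.a .z (.l 26))) (.l 26))))) (.l 26)) (.a (.b
(.a (.l 49) (.b (.a .z (.b (.l 26) .z)) (.a (.l 49) (.b .z (.l 49))))) (.l 49)) (.b (.a (.b (.l 26) (.a (.b (.a .z (.l 26)) .z) (.l 26))) (.l 26)) (.a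
(.b (.a (.b .z (.l 49)) (.b (.a .z (.l 26)) .z)) (.a (.l 49) (.b .z (.l 49)))) (.b (.l 26) (.a (.b (.a .z (.l 26)) .z) (.b (.l 26) (.a .z (.l
26))))))))) (.a (.l 49) (.b (.b (.a (.l 49) (.b (.a (.l 49) .z) (.a (.l 49) .z))) (.a (.l 49) (.a (.l 49) .z))) (.a (.l 49) (.a (.a (.b (.l 49) (.a
(.l 49) .z)) .z) .z))))))))

theorem vQ254 : ev Q254 I5_24 I5_27 = 725743087161010 := by decide +kernel

noncomputable def Q6 : QT :=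
(.a (.b (.b (.a (.a (.a (.l 210) .z) .z) (.a (.a .z (.a (.b .z (.l 114)) (.l 114))) (.l 114))) (.a (.a (.a (.b (.a (.l 210) .z) (.a (.l 210) .z)) .z)
(.a .z (.b .z (.a .z (.b .z (.l 114)))))) (.a (.a (.b (.a .z (.l 114)) (.l 114)) (.l 114)) (.b (.a (.l 114) (.b (.l 114) (.a (.l 114) .z))) (.a (.b
(.l 114) (.a (.l 114) .z)) (.b .z (.a .z (.l 123)))))))) (.b (.a (.b (.a .z (.a .z (.a (.b .z (.l 114)) (.l 114)))) (.b .z (.a .z (.a .z (.l 123)))))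
(.a (.b (.b (.a (.l 114) (.a (.l 114) .z)) .z) (.b (.a (.a .z (.l 123)) (.l 123)) (.l 123))) (.b (.a (.b .z (.l 123)) (.l 123)) (.l 123)))) (.a (.a
(.b (.b (.a (.a (.l 84) .z) .z) (.a (.l 84) .z)) (.a (.l 84) (.a (.b .z (.l 84)) .z))) (.a (.b (.a .z (.b .z (.l 118))) .z) (.b (.b .z (.l 118)) (.a
(.b (.l 118) .z) (.l 118))))) (.a (.b (.b (.a (.a .z (.l 123)) (.l 123)) (.a .z (.a .z (.l 123)))) (.b (.a (.l 118) .z) (.l 118))) (.b (.l 123) (.a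
(.b (.a .z (.l 123)) .z) (.b (.l 123) (.a .z (.l 123))))))))) (.a (.b (.a (.b (.b (.l 114) (.a (.l 114) (.a (.b (.l 114) .z) .z))) (.b (.a (.b (.a (.l
114) .z) .z) (.b .z (.a (.l 123) .z))) (.a (.l 123) (.a (.l 123) .z)))) (.b (.a (.b (.a (.b (.l 114) .z) .z) .z) (.a (.a (.a .z (.l 113)) (.a (.l 113)
.z)) .z)) (.a .z (.a (.a .z (.l 113)) .z)))) (.a (.a (.l 123) (.a (.a (.l 123) (.b (.l 123) (.a (.l 123) .z))) .z)) (.a (.a .z (.a .z (.l 150))) (.a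
(.a (.b .z (.l 150)) (.a .z (.b (.l 113) .z))) (.a (.b (.a (.l 113) .z) (.l 113)) .z))))) (.a (.a (.a .z (.b (.a .z (.b (.l 120) (.a .z (.l 120))))
.z)) (.a (.a (.b (.l 120) (.a (.b (.l 120) .z) (.l 120))) (.l 120)) (.l 120))) (.a (.l 120) (.a (.b (.a (.a (.l 120) (.b .z (.l 120))) .z) (.a (.l
120) (.b (.a (.l 120) .z) .z))) (.b .z (.a .z (.l 167))))))))

theorem vQ6 : ev Q6 I3_0 I8_47 = 249861852540584 := by decide +kernel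

noncomputable def Q102 : QT :=
(.a (.a (.a (.b (.b (.a (.b (.a (.l 220) (.b .z (.l 220))) (.l 220)) (.b (.a .z (.l 146)) (.a (.b .z (.l 220)) .z))) (.a (.l 220) (.a (.l 220) (.b (.a
(.l 220) .z) (.l 220))))) (.l 220)) (.b (.a (.b (.a (.b .z (.l 146)) .z) (.a (.b .z (.a (.l 220) .z)) (.b (.a (.l 146) .z) (.a .z (.l 146))))) .z) (.a
(.b (.a (.l 220) (.b .z (.l 220))) (.l 220)) (.b .z (.a (.b (.a (.l 220) .z) (.l 220)) .z))))) (.a (.a (.a (.b (.b .z (.l 250)) (.a .z (.b (.l 250)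
(.a .z (.l 250))))) (.b (.b .z (.b (.b .z (.l 250)) (.l 250))) (.b (.a (.l 250) (.a (.l 250) .z)) (.a (.a (.l 250) .z) .z)))) .z) (.b (.b (.a .z (.a
.z (.b (.b .z (.l 201)) (.b (.l 201) .z)))) .z) (.a .z (.b .z (.a (.b .z (.l 515)) .z)))))) (.a (.a (.b (.b (.a (.a (.a (.b .z (.l 201)) .z) .z) .z)
(.a (.b .z (.a (.b (.a (.l 117) .z) (.l 117)) .z)) .z)) (.a (.b (.a (.a .z (.b (.l 117) (.a .z (.l 117)))) (.l 117)) (.a .z (.a (.b (.a .z (.l 117))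
.z) (.l 117)))) (.b (.b (.a (.b .z (.a (.l 117) .z)) .z) (.a (.l 117) (.b .z (.a (.l 117) .z)))) (.l 117)))) (.b .z (.a (.b .z (.a (.b (.a (.b .z (.l
117)) .z) (.l 117)) (.b .z (.a (.b .z (.l 117)) .z)))) .z))) (.b (.b (.a (.b (.a (.a .z (.a (.l 250) .z)) .z) (.a (.b (.a (.l 250) .z) .z) .z)) .z)
.z) .z)))

theorem vQ102 : ev Q102 I4_4 I6_20 = 235556253907835 := by decide +kernel

noncomputable def Q88 : QT :=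
(.b (.a (.b (.b (.a (.l 20) (.b (.a (.l 20) (.b (.a (.l 20) (.b (.a (.l 20) (.b (.l 20) .z)) (.a (.b (.l 20) .z) .z))) (.a (.b (.a (.l 20) (.b (.l 20)
.z)) (.a (.b (.l 20) .z) .z)) (.b (.a .z (.l 17)) (.l 17))))) (.a (.b (.a (.l 20) (.b (.a (.l 20) (.b (.l 20) .z)) (.a (.b (.l 20) .z) .z))) (.a (.b
(.a (.l 20) (.b (.l 20) .z)) (.a (.b (.l 20) .z) .z)) (.b (.a .z (.l 17)) (.l 17)))) (.b (.a (.b (.a .z (.l 17)) (.l 17)) (.l 17)) (.l 17))))) (.a (.b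
(.a (.l 20) (.b (.a (.l 20) (.b (.a (.l 20) (.b (.l 20) .z)) (.a .z (.b .z (.l 17))))) (.a (.b (.a (.l 20) .z) (.a .z (.b .z (.l 17)))) (.b (.a (.b .z
(.l 17)) (.l 17)) (.l 17))))) (.a (.b (.a (.l 20) (.b (.a (.l 20) .z) (.a .z (.b .z (.l 17))))) (.a (.b (.a (.l 20) .z) (.a .z (.b .z (.l 17)))) (.b
(.a (.b .z (.l 17)) (.l 17)) (.l 17)))) (.b (.a (.b (.a (.b .z (.l 17)) (.l 17)) (.l 17)) (.l 17)) (.l 17)))) (.a (.b (.b (.a (.b (.a .z (.l 17)) (.l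
17)) (.l 17)) (.l 17)) (.l 17)) (.l 17)))) (.a (.b (.b (.a (.b (.a (.b (.a (.b .z (.l 17)) (.l 17)) (.l 17)) (.l 17)) (.l 17)) (.l 17)) (.b (.b (.b
(.l 17) (.a (.a (.l 17) .z) .z)) (.b (.a (.a .z (.a .z (.l 22))) (.l 22)) (.l 22))) (.a (.b (.l 22) (.a (.b (.l 22) .z) (.l 22))) (.l 22)))) (.b (.b
(.a (.b (.a (.b (.a (.l 19) .z) (.l 19)) (.b (.a .z (.l 22)) .z)) (.a (.a (.b (.l 19) .z) (.l 19)) (.b (.a (.l 19) .z) (.l 19)))) (.b (.l 22) (.a (.b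
.z (.a (.l 19) .z)) (.b (.l 22) (.a .z (.l 22)))))) (.a (.a (.b (.a .z (.b (.l 19) .z)) (.a (.l 21) (.b .z (.l 21)))) (.b (.l 19) (.a .z (.l 19))))
(.b (.a (.l 19) (.b .z (.l 19))) (.l 19)))) (.a (.b (.a (.l 21) (.b (.a (.b .z (.l 21)) .z) (.a (.l 21) (.b .z (.l 21))))) (.l 21)) (.b (.a (.b (.l
19) (.a .z (.b (.l 19) .z))) (.l 19)) (.a (.b (.a (.l 21) .z) .z) (.b (.a (.b (.l 19) .z) (.l 19)) (.a .z (.b (.l 19) .z)))))))) (.b (.b (.b (.l 17)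
(.b (.l 17) (.b (.l 17) (.a (.l 17) (.a (.l 17) .z))))) (.b (.b (.b (.a .z (.a .z (.a .z (.l 22)))) (.a (.a (.a .z (.l 22)) (.l 22)) (.l 22))) (.l
22)) (.l 22))) (.b (.b (.l 22) (.a (.b (.a (.b (.a .z (.l 22)) .z) (.l 22)) (.a (.b (.a (.l 19) .z) (.l 19)) (.b (.a .z (.l 22)) .z))) (.l 22))) (.b
(.a (.b (.a (.l 19) (.b (.a (.l 19) .z) (.l 19))) (.l 19)) (.b (.a (.b .z (.a (.l 19) .z)) (.b (.l 22) (.a .z (.l 22)))) (.a (.l 19) (.b .z (.a (.l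
19) .z))))) (.a (.l 19) (.a (.b (.l 19) (.a (.l 19) (.b (.l 19) .z))) (.b (.a (.b (.l 19) .z) .z) (.a .z (.l 22)))))))))) (.b (.a (.b (.a (.b (.b (.a
(.b (.a .z (.l 17)) (.l 17)) (.l 17)) (.l 17)) (.l 17)) (.l 17)) (.l 17)) (.l 17)) (.b (.b (.b (.l 17) (.b (.a (.l 17) (.b (.a (.l 17) (.a (.l 17)
.z)) (.a (.a (.a (.l 17) .z) .z) (.a .z (.a .z (.l 20)))))) (.a (.b (.a (.l 17) .z) (.a .z (.a (.a .z (.l 22)) (.l 22)))) (.b (.a (.a .z (.l 22)) (.a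
(.l 22) .z)) (.a (.l 22) (.a (.l 22) (.a (.l 22) .z))))))) (.l 22)) (.b (.l 22) (.a (.b (.a (.b (.l 22) (.a (.b (.l 22) .z) (.l 22))) (.l 22)) (.a (.b
(.a (.b .z (.l 22)) (.b (.a .z (.l 22)) .z)) (.a (.l 22) (.b (.a (.l 22) .z) (.l 22)))) (.b (.l 22) (.a (.b (.a .z (.l 22)) .z) (.l 22))))) (.l
22)))))) (.b (.b (.a (.a (.b (.a (.b (.a (.b (.l 21) (.a (.l 21) (.b (.l 21) .z))) (.b (.a (.l 21) .z) .z)) (.a (.b (.a (.b (.l 21) .z) .z) (.a .z (.l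
24))) (.l 24))) (.b (.a (.b .z (.b (.a .z (.l 24)) (.l 24))) (.b (.a .z (.b .z (.l 24))) (.l 24))) (.l 24))) (.a (.b (.b (.l 24) (.a (.b (.a .z (.l
24)) .z) (.b (.l 24) (.a .z (.l 24))))) (.a (.l 26) (.b (.b .z (.a (.l 26) .z)) (.a (.l 26) (.b (.l 26) .z))))) (.b (.a (.l 24) (.b (.a (.l 24) (.b
(.l 24) .z)) (.a .z (.b .z (.l 22))))) (.a (.b (.a (.b (.l 24) .z) .z) (.a .z (.b .z (.l 24)))) (.b (.a (.b .z (.l 22)) (.l 22)) (.b (.a .z (.l 22))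
.z)))))) (.b (.a (.b (.a (.b (.a .z (.l 19)) (.a (.b .z (.l 24)) .z)) (.b (.l 19) (.a (.l 19) .z))) (.a (.b (.a (.l 24) .z) (.a (.b (.l 24) .z) .z))
(.b (.a .z (.b .z (.l 22))) (.l 22)))) (.b (.a (.b (.a (.b (.l 19) .z) .z) (.a (.b .z (.l 22)) (.l 22))) (.l 22)) (.l 22))) (.a (.b (.a (.b (.a .z (.l
22)) (.l 22)) (.l 22)) (.b (.l 22) (.a (.b (.l 22) (.a .z (.l 22))) (.l 22)))) (.l 22)))) (.b (.a (.b (.a (.l 22) (.b (.a (.b (.a (.l 22) .z) (.l 22))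
(.b .z (.a (.l 22) .z))) (.l 22))) (.l 22)) (.b (.a (.b (.a (.b (.l 22) (.a .z (.l 22))) (.l 22)) (.a (.b .z (.a (.l 22) .z)) (.b (.l 22) (.a .z (.l
22))))) (.l 22)) (.a (.b (.a (.l 22) (.b .z (.a (.l 22) .z))) (.l 22)) (.b (.a (.b (.l 22) (.a .z (.l 22))) (.l 22)) (.a (.b .z (.a (.l 22) .z)) (.b
(.l 22) (.a .z (.l 22)))))))) (.a (.l 22) (.b (.a (.l 22) (.b (.a (.l 22) (.b .z (.l 22))) (.l 22))) (.l 22))))) (.a (.a (.b (.a (.b (.a (.b (.l 26)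
(.a (.l 26) (.b (.l 26) .z))) (.b (.a (.b (.l 26) .z) .z) (.a .z (.l 24)))) (.a (.b (.a .z (.b .z (.l 24))) (.a (.b .z (.l 24)) (.l 24))) (.l 24)))
(.l 24)) (.l 24)) (.b (.b (.a (.b (.a (.b .z (.a (.l 24) .z)) (.b (.l 22) .z)) (.a (.l 24) (.b (.a (.l 24) .z) (.l 24)))) (.b (.l 22) (.a (.b (.a .z
(.l 22)) .z) (.l 22)))) (.a (.l 24) (.b (.a (.b (.a (.l 24) .z) (.l 24)) (.b .z (.a (.l 24) .z))) (.l 24)))) (.l 24))) (.b (.a (.b (.l 22) (.a (.b (.a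
(.b (.l 22) (.a .z (.l 22))) (.l 22)) (.a (.b .z (.a (.l 24) .z)) (.b (.l 22) .z))) (.l 22))) (.l 22)) (.a (.b (.a (.b (.a (.l 24) (.b (.a (.l 24) .z)
(.l 24))) (.l 24)) (.b (.a (.b (.a .z (.l 22)) .z) (.l 22)) (.a (.b .z (.a .z (.l 27))) (.b .z (.a (.l 27) .z))))) (.a (.a (.b (.l 24) (.a (.l 24) (.b
(.l 24) .z))) (.b (.a (.b (.l 24) .z) .z) (.a .z (.l 27)))) (.a (.b (.a (.b .z (.l 27)) (.l 27)) (.l 27)) (.l 27)))) (.b (.a (.b (.l 22) (.a (.b (.l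
22) (.a .z (.l 22))) (.l 22))) (.l 22)) (.a (.b (.a (.b .z (.a (.l 27) .z)) (.b (.l 22) (.a .z (.l 22)))) (.a (.l 27) (.b .z (.l 27)))) (.b (.l 22)
(.a (.b (.a .z (.l 22)) .z) (.l 22))))))))) (.b (.b (.b (.a (.a (.l 24) (.a (.l 24) (.a (.l 24) (.b (.l 24) (.a (.b (.l 24) .z) .z))))) (.a (.a (.a
(.b (.a .z (.b .z (.l 27))) (.a (.b .z (.l 27)) (.l 27))) (.l 27)) (.l 27)) (.a (.l 27) (.b (.a (.b (.a (.l 27) .z) (.l 27)) (.b (.a .z (.l 22)) .z))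
(.a (.l 27) (.b (.a (.l 27) .z) (.l 27))))))) (.a (.b (.a (.l 24) (.a (.l 24) (.a (.a (.l 24) .z) (.a (.b .z (.l 27)) (.l 27))))) (.a (.l 24) (.b (.a
(.l 24) (.a .z (.l 27))) (.a (.a (.l 24) .z) .z)))) (.b (.a (.l 27) (.b (.a (.l 27) (.a (.l 27) .z)) (.a .z (.a .z (.a .z (.l 27)))))) (.a (.b (.a (.a
(.a (.l 27) .z) .z) .z) (.a (.a .z (.l 27)) (.l 27))) (.b (.a (.a (.a .z (.l 27)) (.l 27)) (.l 27)) (.l 27)))))) (.b (.a (.b (.a (.b (.a (.a (.l 24)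
.z) .z) (.a (.a .z (.a .z (.l 27))) (.l 27))) (.b (.a (.a .z (.a .z (.l 27))) (.l 27)) (.l 27))) (.l 27)) (.l 27)) (.l 27))) (.l 27))))

theorem vQ88 : ev Q88 I5_6 I5_29 = 892635834231982 := by decide +kernel

noncomputable def Q61 : QT :=
(.b (.a (.a (.a (.b .z (.a (.b .z (.b .z (.b .z (.l 243)))) (.b .z (.a (.b .z (.l 243)) .z)))) (.b (.a .z (.b .z (.a .z (.b .z (.l 164))))) (.a (.b .z
(.a (.b .z (.l 161)) .z)) (.b .z (.a (.b (.l 103) (.a .z (.l 103))) (.l 103)))))) (.a (.b (.a .z (.b (.b (.b (.l 158) .z) .z) .z)) (.b (.b .z (.b .z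
(.b .z (.b .z (.l 103))))) (.l 103))) (.b .z (.b (.b .z (.b .z (.b .z (.b .z (.l 103))))) (.l 103))))) (.b (.a (.b (.a .z (.b (.a .z (.b (.a .z (.l
68)) .z)) .z)) .z) (.a (.b (.b (.l 68) (.a (.b (.a .z (.l 68)) .z) (.l 68))) (.a .z (.b (.a .z (.b (.l 68) .z)) .z))) (.b (.l 68) (.a (.b (.l 68) (.a
.z (.l 68))) (.l 68))))) (.a (.b .z (.b .z (.a (.a (.a (.a (.l 103) .z) .z) .z) .z))) (.b (.a .z (.b (.a .z (.a (.b (.l 68) .z) (.b (.l 68) .z))) .z))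
(.a (.b .z (.a .z (.b .z (.a .z (.b .z (.l 51)))))) (.b (.a (.b .z (.a .z (.b .z (.l 51)))) (.b (.a (.b .z (.l 51)) (.b .z (.l 51))) (.l 51))) (.a (.b
(.a (.b .z (.l 51)) (.l 51)) (.l 51)) (.l 51)))))))) (.a (.b (.a (.a (.a (.b (.l 243) (.a .z (.b .z (.a .z (.l 78))))) (.b (.a .z (.b .z (.l 161)))
(.a (.b .z (.b .z (.l 78))) (.b .z (.b .z (.l 78)))))) (.b (.b (.a (.l 161) (.a .z (.l 103))) (.b (.a (.l 161) (.a .z (.l 103))) (.a (.l 161) .z)))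
(.b .z (.a (.b .z (.l 78)) .z)))) (.b (.b (.a (.l 103) (.b (.l 103) (.a (.l 103) (.b (.l 103) .z)))) (.a (.b (.a (.l 103) (.b (.l 103) .z)) .z) .z))
.z)) (.a (.a (.a (.b (.a .z (.b (.l 78) .z)) .z) (.b (.b (.l 78) (.b (.b (.l 78) .z) .z)) .z)) (.b (.b (.l 78) (.a (.b (.b (.l 78) .z) .z) .z)) .z))
(.b (.a (.b (.a (.b .z (.a (.l 78) .z)) .z) .z) .z) .z))) (.b (.a .z (.b (.a (.b (.a (.b .z (.a .z (.b .z (.l 51)))) (.b (.a (.b .z (.l 51)) (.l 51))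
(.l 51))) (.a (.b (.a (.b .z (.l 51)) (.l 51)) (.l 51)) (.l 51))) (.l 51)) (.b (.a (.a (.a (.b (.a .z (.l 51)) .z) (.b (.l 51) (.a .z (.l 51)))) (.l
51)) (.l 51)) (.a (.b (.a .z (.l 51)) .z) (.b (.l 51) (.a (.b (.l 51) (.a .z (.l 51))) (.l 51))))))) (.a (.b (.a (.b (.a .z (.a .z (.l 116))) (.b (.a
.z (.a .z (.l 116))) .z)) (.b (.b (.a (.b .z (.l 116)) .z) (.a (.l 116) (.b .z (.l 116)))) (.a (.l 116) (.a (.l 116) .z)))) (.a .z (.b (.a .z (.b (.a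
(.l 116) .z) .z)) .z))) (.b (.b (.a (.b (.a (.b (.l 110) .z) .z) .z) (.b (.a .z (.b (.l 51) .z)) .z)) .z) (.a .z (.b .z (.a .z (.a .z (.l
196))))))))))

theorem vQ61 : ev Q61 I5_5 I5_7 = 229357644532249 := by decide +kernel

noncomputable def Q241 : QT :=
(.a (.b (.a (.b (.b (.b (.b (.a (.b .z (.l 129)) (.b (.l 129) .z)) (.a (.b (.l 129) .z) .z)) .z) (.b (.b .z (.a .z (.b (.a .z (.l 53)) (.l 53)))) (.b
(.a (.b (.a .z (.l 53)) (.l 53)) (.l 53)) (.l 53)))) (.b (.b (.b (.l 53) (.b (.a (.l 53) (.b (.l 53) .z)) (.a (.b (.l 53) .z) .z))) (.b (.b (.a .z (.l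
55)) (.l 55)) (.l 55))) (.b (.b (.b (.l 55) (.a .z (.l 55))) .z) (.b (.b (.b .z (.l 35)) (.l 35)) (.l 35))))) (.b (.b .z (.b (.b (.a (.b .z (.l 53))
(.b .z (.a (.l 53) .z))) (.l 53)) (.l 53))) (.a (.b (.b (.b (.b (.l 53) (.b (.l 53) .z)) (.b .z (.l 55))) (.l 55)) (.b (.b (.l 55) (.b (.l 55) .z))
(.b (.b (.b .z (.l 35)) (.l 35)) (.l 35)))) (.b (.a (.b (.b (.b (.l 53) .z) (.l 55)) (.l 55)) (.b (.a (.b .z (.l 55)) .z) (.a (.b (.l 55) .z) .z)))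
(.a (.b (.a (.b (.l 55) .z) .z) (.a .z (.b (.a .z (.l 23)) (.l 23)))) (.b (.a (.b (.a .z (.l 23)) (.l 23)) (.l 23)) (.l 23))))))) (.a (.b (.a (.b (.b
(.b (.b (.l 35) (.b .z (.l 37))) (.b (.b (.l 37) .z) .z)) .z) .z) (.b (.b (.b (.b (.l 35) (.b .z (.l 37))) .z) .z) .z)) (.a (.a (.b (.b .z (.b (.b .z
(.l 47)) (.b (.l 47) .z))) (.b .z (.b .z (.l 89)))) (.b (.b .z (.b (.b .z (.l 47)) (.b (.l 47) .z))) .z)) (.a .z (.b (.b .z (.a .z (.b (.b .z (.l 27))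
(.b (.l 27) .z)))) .z)))) (.b (.a (.b (.a (.b (.b (.b (.l 35) .z) .z) .z) (.b .z (.a (.b .z (.a .z (.l 23))) (.l 23)))) (.a .z (.b (.b (.b (.l 23) (.b
(.l 23) .z)) (.l 129)) (.b .z (.l 69))))) (.b (.a (.b (.a (.b (.a .z (.l 23)) (.l 23)) (.l 23)) (.l 23)) (.l 23)) (.b (.b (.b (.l 23) (.b (.l 23) .z))
.z) (.b (.b .z (.l 69)) (.l 69))))) (.a (.b (.b (.l 69) (.b (.b .z (.b .z (.a (.l 27) .z))) (.b (.b (.l 27) .z) .z))) .z) (.b (.a (.b (.l 69) .z) .z)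
(.a (.b (.a .z (.b .z (.l 62))) (.a .z (.b (.l 62) .z))) (.b (.l 62) (.b (.b (.l 62) .z) .z)))))))) (.b (.a (.b (.a (.b (.a (.b .z (.b .z (.l 71)))
.z) (.a (.b (.b .z (.l 53)) (.a (.b (.l 53) .z) .z)) .z)) (.b (.a (.b .z (.a .z (.l 110))) (.b .z (.l 110))) (.b (.b (.l 110) .z) (.b (.l 110) .z))))
(.a (.b (.a (.b .z (.b .z (.b (.b .z (.l 23)) (.l 23)))) (.b (.b .z (.l 73)) (.b (.b .z (.b .z (.l 23))) (.l 23)))) (.l 23)) (.b (.b (.b (.l 73) .z)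
(.b (.b (.a .z (.l 23)) (.l 23)) (.l 23))) (.a (.l 23) (.b (.l 23) (.a (.b (.l 23) (.a (.l 23) .z)) (.b (.a (.l 23) .z) .z))))))) (.b (.a (.b (.b .z
(.l 110)) (.b (.a (.b (.l 110) .z) .z) (.b .z (.b .z (.l 73))))) (.b .z (.a .z (.b .z (.a (.b .z (.a .z (.l 17))) (.b .z (.l 17))))))) (.a (.b (.a (.b
(.b .z (.b .z (.l 23))) (.l 23)) (.b (.a (.b .z (.l 23)) (.b .z (.a (.l 23) .z))) (.a (.b (.a (.l 23) .z) .z) (.b .z (.l 17))))) (.a (.b (.a (.b (.l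
23) .z) (.b .z (.a .z (.l 17)))) (.a (.b (.a .z (.l 17)) .z) (.b (.b (.l 17) .z) .z))) (.b (.a (.b (.a .z (.l 17)) (.l 17)) (.l 17)) (.b (.b (.l 17)
(.b (.l 17) .z)) .z)))) (.b (.a (.b (.a .z (.b .z (.l 17))) (.l 17)) (.l 17)) (.b (.l 17) (.b (.b (.b (.l 17) (.a (.l 17) .z)) .z) .z)))))) (.a (.b
(.a (.b (.a (.l 23) (.b (.l 23) (.a (.l 23) (.b (.l 23) .z)))) (.a (.b (.a (.b (.b (.l 23) .z) .z) (.b (.b (.l 23) .z) .z)) .z) (.b (.a .z (.b (.a .z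
(.l 23)) .z)) .z))) (.b (.a (.b (.a (.l 23) (.b (.a (.l 23) .z) .z)) (.a (.b .z (.a .z (.l 23))) (.b (.a .z (.l 23)) (.l 23)))) (.b (.a (.b .z (.l
23)) (.l 23)) (.l 23))) (.b (.b (.a (.b (.l 23) (.a (.l 23) .z)) (.b (.a (.l 23) .z) .z)) (.a .z (.l 129))) .z))) (.a (.b .z (.b (.a (.l 62) (.a (.l
62) (.b (.l 62) .z))) .z)) .z)) (.b (.b (.b (.b (.a (.l 23) (.b (.a (.b .z (.l 23)) .z) (.l 23))) (.l 23)) (.a (.b (.l 23) (.a (.b (.l 23) (.a (.l 23)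
.z)) (.b (.a (.l 23) .z) .z))) (.b (.a (.b (.l 23) .z) .z) .z))) (.b (.a (.b .z (.l 129)) .z) (.b (.a (.b (.l 129) .z) .z) .z))) (.b (.b (.a (.b .z
(.b (.l 81) .z)) (.b (.a (.l 81) .z) .z)) .z) .z)))))

theorem vQ241 : ev Q241 I6_43 I5_29 = 189780114015199 := by decide +kernel

noncomputable def Q157 : QT :=
(.b (.a (.b (.b (.b (.a (.a (.l 29) (.a (.b (.a (.l 29) (.b .z (.l 29))) (.l 29)) (.b (.a .z (.b (.l 26) .z)) (.a (.l 29) (.b .z (.l 29)))))) (.a (.a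
(.b (.l 26) (.a .z (.l 26))) (.l 26)) (.l 26))) (.a (.l 29) (.b (.a (.a (.a (.b .z (.l 29)) .z) (.a (.b (.l 26) .z) (.l 26))) (.l 26)) (.a (.b (.a (.l
29) .z) (.a (.l 29) .z)) (.b (.a (.a (.l 26) .z) .z) (.a .z (.l 29))))))) (.b (.a (.b (.a (.b (.l 29) (.a (.l 29) (.a (.l 29) .z))) (.b (.a (.l 29)
.z) (.a .z (.a .z (.l 29))))) (.a (.b .z (.l 29)) (.l 29))) (.b (.a (.b (.a .z (.a .z (.l 29))) (.l 29)) (.l 29)) (.l 29))) (.l 29))) (.b (.b (.a (.b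
(.l 29) (.a (.l 29) (.b (.l 29) (.a (.a (.l 29) .z) .z)))) (.b (.a (.l 29) (.b (.a (.l 29) (.a (.l 29) .z)) .z)) (.a (.b .z (.a .z (.l 33))) (.b (.a
.z (.l 33)) (.l 33))))) (.a (.b (.a (.b (.a (.a (.l 29) .z) .z) (.a .z (.l 33))) (.b (.a .z (.l 33)) (.l 33))) (.l 33)) (.l 33))) (.l 33))) (.b (.a
(.b (.b (.b (.l 26) (.a (.l 26) (.b (.l 26) (.a (.l 26) (.a (.l 26) .z))))) (.b (.a (.b (.l 26) .z) (.b .z (.a (.a .z (.l 29)) (.l 29)))) (.a (.b (.a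
(.a .z (.l 29)) (.l 29)) (.l 29)) (.l 29)))) (.b (.l 29) (.b (.l 29) (.a (.b (.l 29) (.a (.l 29) (.a (.l 29) .z))) (.b (.a (.l 29) .z) .z))))) (.b (.a
(.b (.a (.b (.a (.l 26) (.b .z (.l 26))) (.b (.l 26) .z)) (.b (.a .z (.b (.l 27) .z)) .z)) (.l 29)) (.b (.a (.b (.a .z (.b .z (.l 31))) (.a .z (.l
31))) (.l 31)) (.a (.b (.a (.b .z (.l 29)) .z) (.a (.l 29) (.b .z (.l 29)))) (.b (.l 31) (.a .z (.b (.l 31) .z)))))) (.a (.b (.l 29) (.b (.b (.l 29)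
(.a (.l 29) .z)) (.b .z (.l 33)))) (.b (.a (.l 29) (.b (.a (.l 29) .z) (.l 29))) (.a (.b (.b (.a (.l 29) .z) .z) (.l 33)) .z))))) (.a (.b (.b (.b (.a
(.b .z (.l 33)) (.l 33)) (.l 33)) (.l 33)) (.a (.b (.l 33) (.a (.l 33) (.b (.l 33) (.a (.l 33) .z)))) (.b (.a (.l 33) (.b (.a (.l 33) .z) .z)) (.a (.b
(.a (.l 33) .z) .z) (.b (.a .z (.l 34)) (.l 34)))))) (.b (.a (.b (.a (.l 33) (.b (.l 33) (.a (.l 33) .z))) (.a (.b (.l 33) (.a (.l 33) .z)) (.b .z (.a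
.z (.l 34))))) (.b (.a (.b (.a (.l 33) .z) .z) (.b (.a .z (.l 34)) (.l 34))) (.l 34))) (.a (.b (.a (.b .z (.l 34)) (.l 34)) (.l 34)) (.l 34)))))) (.a
(.b (.a (.b (.l 33) (.b (.l 33) (.a (.b (.a (.b (.l 33) .z) (.l 33)) (.a (.b .z (.l 35)) .z)) (.l 33)))) (.b (.a (.l 33) (.b (.l 33) (.a (.l 33) (.b
(.a (.l 33) .z) .z)))) (.a (.b (.a (.l 33) (.b (.l 33) (.a (.l 33) .z))) (.a (.b (.l 33) (.a (.l 33) .z)) (.b .z (.a .z (.l 34))))) (.b (.a (.b (.a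
(.l 33) .z) .z) (.b (.a .z (.l 34)) (.l 34))) (.l 34))))) (.a (.b (.a (.b (.b (.a (.l 35) (.b .z (.l 35))) (.b (.l 35) (.a (.l 35) .z))) (.b (.b .z
(.l 39)) (.l 39))) (.b (.a .z (.b (.l 33) .z)) (.a (.b (.a (.l 39) .z) .z) (.b (.a .z (.l 37)) (.l 37))))) (.a (.b (.a (.b (.l 39) (.a (.l 39) .z))
.z) (.a (.b .z (.a .z (.l 37))) (.b (.l 37) (.b (.l 37) .z)))) (.b (.a (.b .z (.b .z (.l 37))) (.b (.b (.l 37) .z) (.l 37))) (.b (.l 37) (.b (.a (.l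
37) .z) .z))))) (.b (.a (.b (.a (.b .z (.a .z (.l 34))) (.l 34)) (.b (.a .z (.b (.l 34) .z)) (.a (.l 37) .z))) (.b (.l 34) (.b (.l 34) (.b (.l 34)
.z)))) (.b (.b (.b (.a .z (.a .z (.l 37))) (.a (.a .z (.l 37)) (.l 37))) (.l 37)) (.b (.b (.a (.l 37) (.a (.l 37) .z)) (.a (.a (.l 37) .z) .z)) (.b
(.a .z (.l 41)) (.l 41))))))) (.b (.a (.b (.a (.b (.a (.b (.l 33) (.a (.l 33) .z)) (.b .z (.a .z (.l 34)))) (.a (.b .z (.l 34)) (.l 34))) (.l 34)) (.l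
34)) (.l 34)) (.b (.b (.a (.l 34) (.b (.l 34) (.a (.l 34) (.b (.l 34) .z)))) (.b (.a (.b (.l 34) (.a (.l 34) .z)) (.a (.b .z (.a .z (.l 37))) (.b (.a
.z (.l 37)) (.l 37)))) (.a (.b (.a .z (.a .z (.l 37))) (.a (.a .z (.l 37)) (.l 37))) (.l 37)))) (.b (.b (.a (.l 37) (.b (.l 37) (.a (.l 37) .z))) (.a
(.b (.l 37) (.a (.a (.l 37) .z) .z)) (.b (.a .z (.a .z (.l 41))) (.a (.a .z (.l 41)) (.l 41))))) (.b (.a (.b (.a .z (.l 41)) (.l 41)) (.l 41)) (.l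
41)))))))

theorem vQ157 : ev Q157 I5_13 I6_60 = 405548526976855 := by decide +kernel

noncomputable def Q251 : QT :=
(.b (.b (.a (.b (.a (.b (.b (.b (.l 57) .z) (.a (.b .z (.a (.b .z (.l 63)) .z)) .z)) (.a (.b (.b (.a (.b (.l 63) .z) .z) .z) .z) (.b .z (.a .z (.b .z
(.a .z (.l 59))))))) (.b (.a (.b (.a (.b (.a (.l 57) .z) .z) .z) .z) (.b .z (.a .z (.b .z (.l 65))))) (.a (.b .z (.a (.b .z (.l 59)) (.b (.b .z (.l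
59)) (.l 59)))) (.b (.b (.b (.l 65) (.a (.l 65) .z)) .z) (.b (.b .z (.l 59)) (.l 59)))))) (.a (.b (.a (.b .z (.a .z (.b .z (.l 77)))) (.b .z (.b (.b
.z (.l 77)) (.b (.l 77) .z)))) (.b (.b (.a .z (.b .z (.l 77))) (.a (.b (.l 77) .z) .z)) .z)) (.b (.b .z (.b .z (.a .z (.b (.l 77) .z)))) (.b (.b (.a
(.b (.l 77) .z) .z) .z) .z)))) (.b (.a (.b (.a (.b .z (.b (.b (.a .z (.l 65)) (.l 65)) (.b (.l 65) (.a (.l 65) .z)))) (.b (.b .z (.b (.a .z (.l 65))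
(.l 65))) (.b (.b (.l 65) (.a (.l 65) .z)) .z))) (.b (.b .z (.a .z (.l 212))) (.b (.b .z (.l 59)) (.l 59)))) (.b (.b (.b (.a (.b (.a .z (.l 65)) (.l
65)) (.l 65)) (.a (.l 65) (.b (.a (.l 65) .z) .z))) (.b (.a (.b (.a (.l 65) .z) .z) .z) (.a .z (.l 201)))) (.b (.b .z (.a (.l 212) .z)) (.b (.b .z (.l
59)) (.l 59))))) (.b (.a (.b (.b .z (.a .z (.b .z (.l 77)))) (.b (.a (.b .z (.l 77)) .z) .z)) (.b (.a (.b .z (.b (.l 77) .z)) .z) .z)) (.a .z (.b (.a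
.z (.b (.b .z (.l 83)) .z)) .z))))) (.a (.b (.b (.a (.b (.b (.b (.l 71) .z) (.a (.b (.l 89) .z) .z)) .z) (.b (.a (.b (.b (.l 71) .z) (.b (.l 89) .z))
(.b (.b (.l 71) .z) .z)) .z)) .z) (.a (.b (.b (.a (.b .z (.a .z (.l 108))) (.b .z (.a (.l 108) .z))) (.a (.b (.l 108) (.b (.l 108) .z)) (.b (.a (.l
108) .z) .z))) .z) (.b (.b (.a (.b (.b .z (.l 103)) .z) .z) (.a (.b .z (.b .z (.l 95))) (.b .z (.b .z (.l 95))))) .z))) (.b (.b (.a (.b (.a .z (.b (.a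
.z (.l 84)) (.l 84))) (.a (.b .z (.b .z (.l 90))) (.b (.l 84) .z))) (.b (.a (.b .z (.l 84)) .z) (.a (.b (.a (.l 84) .z) .z) .z))) (.a (.b .z (.a .z
(.b (.b (.l 83) .z) .z))) (.b .z (.b (.b (.l 83) .z) .z)))) (.b (.a (.b .z (.a (.b .z (.b .z (.l 95))) .z)) .z) .z)))) .z)

theorem vQ251 : ev Q251 I5_23 I5_31 = 79631412599112 := by decide +kernel

noncomputable def Q21 : QT :=
(.b (.b (.l 39) (.a (.b (.l 39) (.b (.a (.b (.l 39) (.b (.l 39) (.a (.b .z (.a (.l 16) (.a (.l 16) (.a (.l 16) .z)))) .z))) (.b (.l 39) (.b (.b (.a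
(.l 39) (.a (.l 39) (.a (.l 39) .z))) (.a (.a (.a (.l 39) .z) .z) .z)) (.b (.a .z (.l 161)) .z)))) (.a (.b (.b (.a (.l 16) (.b (.a (.l 16) (.a (.a (.l
16) .z) .z)) (.l 16))) (.l 16)) (.l 16)) (.b (.a (.b (.a (.b .z (.a (.a (.l 16) (.a (.l 16) .z)) .z)) .z) (.a (.l 16) (.b (.a (.a (.a (.l 16) .z) .z)
.z) (.a (.l 16) (.a (.l 16) (.a (.l 16) .z)))))) (.b (.a (.b (.l 82) .z) (.l 82)) .z)) (.a (.l 16) (.b (.a (.b (.a (.l 16) .z) (.l 16)) .z) (.a (.l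
16) (.b (.a (.l 16) .z) (.l 16))))))))) (.b (.b (.l 39) (.b (.l 39) (.a (.l 39) (.b (.l 39) (.a (.l 39) (.b (.l 39) (.a (.l 39) (.a (.l 39) .z))))))))
(.a (.b (.b (.b (.l 39) (.a (.l 39) (.b (.a (.l 39) (.a (.l 39) .z)) .z))) (.b (.a (.b .z (.l 161)) (.b .z (.l 161))) (.b (.l 161) .z))) (.a (.b (.l
82) (.a .z (.b (.b (.l 82) .z) .z))) (.b (.b (.b .z (.l 82)) (.l 82)) (.a (.b (.l 82) (.b (.l 82) .z)) (.l 82))))) (.b (.b (.b (.a (.b (.l 39) (.a (.l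
39) .z)) (.b (.a (.a (.l 39) .z) .z) .z)) (.a (.b .z (.l 161)) (.l 161))) (.l 161)) (.b (.b (.b (.a .z (.l 161)) (.a (.a (.l 82) .z) .z)) (.l 82)) (.l
82))))))) (.b (.a (.l 16) (.b (.a (.b (.a (.b (.a (.b (.a (.l 16) (.b .z (.l 16))) (.l 16)) (.b .z (.a (.b (.a (.l 16) (.a (.l 16) .z)) (.l 16)) (.b
.z (.a (.l 16) .z))))) (.l 16)) (.b (.a .z (.b (.a .z (.l 82)) .z)) (.a (.b (.a (.b (.a (.a (.l 16) .z) .z) (.l 16)) .z) (.a (.l 16) (.b (.a (.l 16)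
(.a (.l 16) .z)) (.l 16)))) (.b .z (.a (.b .z (.a (.a (.l 16) .z) .z)) .z))))) (.a (.l 16) (.b (.a (.l 16) (.b (.a (.l 16) (.b .z (.a (.l 16) (.a (.l
16) .z)))) (.l 16))) (.l 16)))) (.b (.a (.b (.a (.b (.l 82) (.a .z (.l 82))) (.l 82)) (.a .z (.b (.a .z (.l 82)) .z))) (.l 82)) (.a (.b (.a (.b .z (.a
(.b (.a (.a (.l 16) .z) .z) (.a (.l 16) (.a (.l 16) .z))) .z)) .z) (.a (.b (.a (.l 16) (.b (.a (.l 16) .z) (.l 16))) (.l 16)) (.b .z (.a (.b (.a (.l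
16) .z) (.l 16)) (.b .z (.a (.a (.l 16) .z) .z)))))) (.b (.a .z (.b (.l 82) (.a .z (.l 82)))) .z)))) (.a (.l 16) (.b (.a (.b (.a (.l 16) (.b (.a (.l
16) (.b (.a (.l 16) (.a (.l 16) .z)) (.l 16))) (.l 16))) (.l 16)) (.a (.b (.a (.b (.b .z (.a (.a (.l 16) .z) .z)) (.b (.a (.l 16) (.a (.l 16) .z)) (.l
16))) (.b .z (.a (.b .z (.a (.l 16) .z)) .z))) (.a (.l 16) (.b (.a (.l 16) (.b (.a (.l 16) .z) (.l 16))) (.l 16)))) (.b .z (.a (.b (.a (.b .z (.a (.l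
16) .z)) .z) (.a (.l 16) (.b .z (.l 16)))) (.b (.l 110) .z))))) (.a (.l 16) (.a (.l 16) (.b (.a (.l 16) (.b (.a (.l 16) (.b .z (.l 16))) (.l 16))) (.l
16)))))))) (.l 16)))

theorem vQ21 : ev Q21 I4_0 I5_13 = 1838795082222388 := by decide +kernel

noncomputable def Q178 : QT :=
(.a (.b (.a (.b (.a (.b (.l 56) (.a (.l 56) (.b (.l 56) (.a (.b (.l 56) .z) .z)))) (.b (.a (.b (.l 56) (.a (.l 56) (.b (.l 56) (.a (.l 56) .z)))) (.b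
(.a (.l 56) (.b (.l 56) (.a (.l 56) .z))) (.a (.b (.a (.l 56) .z) .z) .z))) (.a (.b (.a (.b (.a (.l 56) .z) .z) .z) .z) (.b (.b (.l 229) .z) (.b .z
(.a (.b .z (.l 38)) (.l 38))))))) (.a (.b (.a (.b (.a (.b (.l 56) (.a (.l 56) .z)) .z) (.a (.b (.a .z (.b .z (.b .z (.l 11)))) (.l 11)) (.b (.b .z (.b
.z (.l 11))) (.l 11)))) (.b (.a .z (.b .z (.l 38))) (.b (.b (.l 38) (.b .z (.l 11))) (.l 11)))) (.l 11)) (.b (.b (.a (.b (.a (.b .z (.l 38)) (.l 38))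
(.l 38)) (.l 38)) (.b (.b (.l 38) (.b .z (.l 11))) (.l 11))) (.l 11)))) (.b (.a (.b (.a (.b .z (.l 229)) (.b (.l 229) (.b (.l 229) .z))) (.b (.a (.b
.z (.a .z (.b .z (.l 38)))) (.b (.a .z (.b .z (.l 38))) (.l 38))) (.l 38))) (.b (.b (.a (.l 229) (.b (.l 229) .z)) (.a (.b .z (.a .z (.l 38))) (.b (.a
(.b .z (.l 38)) (.l 38)) (.l 38)))) (.l 38))) (.b (.b (.l 38) (.b (.b (.l 38) (.b .z (.l 11))) (.l 11))) (.l 11)))) (.l 11)) (.b (.b (.a (.b (.a (.b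
(.a (.b (.a .z (.b .z (.l 38))) (.a (.b .z (.l 38)) (.l 38))) (.l 38)) (.l 38)) (.l 38)) (.l 38)) (.l 38)) (.b (.b (.l 38) (.b (.b (.l 38) (.b .z (.l
11))) (.l 11))) (.l 11))) (.l 11)))

theorem vQ178 : ev Q178 I5_16 I5_21 = 925894214909749 := by decide +kernel

noncomputable def Q77 : QT :=
(.a (.b (.a (.b (.b (.a (.b (.l 8) (.a (.l 8) (.b (.l 8) (.a (.l 8) (.b (.l 8) (.a (.l 8) (.b (.l 8) (.a (.l 8) (.b (.a (.l 8) .z) (.a .z (.a .z (.l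
4)))))))))))) (.b (.a (.b (.l 8) (.a (.l 8) (.b (.l 8) (.a (.l 8) (.b (.l 8) (.a (.l 8) (.b (.a (.l 8) (.a (.l 8) .z)) (.a (.a (.l 8) .z) .z))))))))
(.b (.a (.b (.l 8) (.a (.l 8) (.b (.l 8) (.a (.l 8) (.b (.l 8) (.a (.l 8) .z)))))) (.a (.b (.a (.l 8) (.b (.l 8) (.a (.b (.l 8) (.a (.l 8) .z)) (.b
(.a (.l 8) .z) .z)))) (.a (.b (.a (.l 8) (.b (.a (.l 8) .z) .z)) (.a (.b .z (.a .z (.l 4))) (.b (.a .z (.l 4)) (.l 4)))) (.b (.a (.b .z (.l 4)) (.l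
4)) (.l 4)))) (.b (.a (.b (.a (.b (.l 8) (.a (.l 8) .z)) (.b (.a (.l 8) .z) .z)) (.a (.b .z (.l 4)) (.l 4))) (.b (.a (.b .z (.l 4)) (.l 4)) (.l 4)))
(.l 4)))) (.a (.b (.a (.b (.l 8) (.a (.l 8) (.b (.a (.l 8) (.a (.l 8) .z)) (.a (.a (.l 8) .z) .z)))) (.b (.a (.b (.a (.l 8) (.a (.l 8) .z)) (.a (.a
(.l 8) .z) .z)) (.b (.a .z (.l 4)) (.l 4))) (.a (.b (.a .z (.l 4)) (.l 4)) (.l 4)))) (.a (.b (.a (.b (.a (.l 8) (.a (.l 8) .z)) (.a (.a (.l 8) .z)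
.z)) (.b (.a .z (.l 4)) (.l 4))) (.a (.b (.a .z (.l 4)) (.l 4)) (.l 4))) (.l 4))) (.l 4)))) (.a (.b (.a (.b (.l 8) (.a (.l 8) (.b (.l 8) (.a (.l 8)
(.b (.a (.l 8) (.a (.l 8) .z)) (.a (.a (.l 8) .z) .z)))))) (.b (.a (.b (.l 8) (.a (.l 8) (.b (.a (.l 8) (.a (.l 8) .z)) (.a (.a (.l 8) .z) .z)))) (.b
(.a (.b (.a (.l 8) (.a (.l 8) .z)) (.a (.a (.l 8) .z) .z)) (.b (.a .z (.l 4)) (.l 4))) (.a (.b (.a .z (.l 4)) (.l 4)) (.l 4)))) (.a (.b (.a (.b (.a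
(.l 8) (.a (.l 8) .z)) (.a (.a (.l 8) .z) .z)) (.b (.a .z (.l 4)) (.l 4))) (.a (.b (.a .z (.l 4)) (.l 4)) (.l 4))) (.l 4)))) (.a (.b (.a (.b (.l 8)
(.a (.l 8) (.b (.a (.l 8) .z) (.a .z (.a .z (.l 4)))))) (.b (.a (.b (.a (.l 8) (.a (.l 8) .z)) .z) (.b (.a .z (.l 4)) (.l 4))) (.a (.b (.a (.a .z (.l
4)) (.l 4)) (.l 4)) (.l 4)))) (.a (.b (.a (.b (.a (.l 8) .z) (.a .z (.a .z (.l 4)))) (.b (.a (.a .z (.l 4)) (.l 4)) (.l 4))) (.a (.b (.a (.a .z (.l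
4)) (.l 4)) (.l 4)) (.l 4))) (.l 4))) (.l 4))) (.l 4)))) (.a (.b (.a (.b (.l 8) (.a (.l 8) (.b (.l 8) (.a (.l 8) (.b (.a (.l 8) (.b (.a (.l 8) (.a (.l
8) .z)) (.a (.a (.l 8) .z) .z))) (.a (.b (.a (.l 8) (.a (.l 8) .z)) .z) (.b (.a .z (.l 4)) (.l 4)))))))) (.b (.a (.b (.l 8) (.a (.l 8) (.b (.a (.l 8)
(.b (.l 8) (.a (.l 8) (.a (.l 8) .z)))) (.a (.b (.l 8) (.a (.l 8) .z)) (.b .z (.a (.a .z (.l 4)) (.l 4))))))) (.b (.a (.b (.a (.l 8) (.b (.l 8) (.a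
(.l 8) (.a (.l 8) .z)))) (.a (.b (.l 8) (.a (.l 8) (.a (.l 8) .z))) (.b (.a (.a (.l 8) .z) .z) (.a .z (.l 4))))) (.b (.a (.b (.a (.l 8) .z) (.a .z (.a
.z (.l 4)))) (.b (.a (.a .z (.l 4)) (.l 4)) (.l 4))) (.l 4))) (.a (.b (.a (.b (.a (.a (.l 8) .z) .z) (.a .z (.l 4))) (.l 4)) (.l 4)) (.l 4)))) (.a (.b
(.a (.b (.a (.l 8) (.b (.l 8) (.a (.l 8) .z))) (.a (.b (.l 8) (.a (.a (.l 8) .z) .z)) (.b (.a .z (.a .z (.l 4))) (.a (.a .z (.l 4)) (.l 4))))) (.b (.a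
(.b (.a .z (.a .z (.l 4))) (.a (.a .z (.l 4)) (.l 4))) (.l 4)) (.l 4))) (.a (.b (.a (.b (.a .z (.l 4)) (.l 4)) (.l 4)) (.l 4)) (.l 4))) (.l 4)))) (.a
(.b (.a (.b (.a (.l 8) (.b (.l 8) (.a (.l 8) (.b (.l 8) (.a (.l 8) (.a (.l 8) .z)))))) (.a (.b (.l 8) (.a (.l 8) (.b (.l 8) (.a (.l 8) .z)))) (.b (.a
(.b (.l 8) (.a (.l 8) (.a (.l 8) .z))) (.b (.a (.a (.l 8) .z) .z) (.a .z (.l 4)))) (.a (.b .z (.a (.a .z (.l 4)) (.l 4))) (.l 4))))) (.b (.a (.b (.a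
(.l 8) (.b (.a (.l 8) .z) (.a .z (.a .z (.l 4))))) (.a (.b (.a (.a (.l 8) .z) .z) (.a .z (.l 4))) (.b (.a (.a .z (.l 4)) (.l 4)) (.l 4)))) (.b (.a (.b
(.a (.a .z (.l 4)) (.l 4)) (.l 4)) (.l 4)) (.l 4))) (.l 4))) (.a (.b (.a (.b (.a (.b (.l 8) (.a (.a (.l 8) .z) .z)) (.b (.a .z (.a .z (.l 4))) (.a (.a
.z (.l 4)) (.l 4)))) (.a (.b (.a .z (.l 4)) (.l 4)) (.l 4))) (.l 4)) (.l 4)) (.l 4))) (.l 4))) (.l 4))) (.l 4)) (.l 4)) (.b (.l 4) (.a (.b (.l 4) (.a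
(.b (.a (.b (.l 4) (.a (.b (.a (.b (.a (.b (.l 4) (.a .z (.l 4))) (.l 4)) (.a .z (.b (.a .z (.l 4)) .z))) (.b (.l 4) (.a (.b (.l 4) (.a (.a .z (.l 4))
(.l 4))) (.l 4)))) (.a (.l 49) (.b (.a .z (.b (.a (.a .z (.l 4)) (.l 4)) .z)) (.a (.l 49) .z)))) (.b (.l 4) (.a (.b (.a (.b (.l 4) (.a (.a .z (.l 4))
(.l 4))) (.l 4)) (.a .z (.b (.l 4) .z))) (.l 4))))) (.l 4)) (.a (.b (.a (.a (.a (.l 49) (.b (.l 49) (.a (.l 49) .z))) (.a (.b (.a (.l 49) .z) .z) (.b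
.z (.a (.l 56) .z)))) (.b (.a .z (.b (.a (.b (.a .z (.a .z (.l 4))) .z) (.b (.l 4) (.a .z (.a .z (.l 4))))) .z)) (.a .z (.a .z (.l 128))))) (.a (.a
(.a (.b (.a (.l 49) .z) .z) (.b .z (.l 56))) (.a (.l 56) (.a (.l 56) .z))) (.a .z (.a .z (.b (.l 128) .z))))) (.b (.a (.b (.a (.b (.l 4) (.a (.b (.a
.z (.l 4)) .z) (.b (.l 4) (.a .z (.l 4))))) (.l 4)) (.a (.b .z (.l 128)) (.b (.a (.b (.a (.a .z (.l 4)) (.l 4)) .z) (.l 4)) .z))) (.b (.l 4) (.a (.b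
(.l 4) (.a (.b (.l 4) (.a .z (.a .z (.l 4)))) (.l 4))) (.l 4)))) (.a (.a (.l 128) (.a (.l 128) (.b (.l 128) .z))) (.b (.a (.b (.a .z (.b (.a .z (.l
4)) .z)) .z) (.b (.a (.b (.l 4) (.a .z (.l 4))) (.l 4)) (.a .z (.b (.a (.a .z (.l 4)) (.l 4)) .z)))) .z))))) (.b (.l 4) (.a (.b (.l 4) (.a (.b (.l 4)
(.a (.b (.a (.b (.a .z (.a .z (.l 4))) .z) (.b (.l 4) (.a .z (.l 4)))) .z) (.b (.l 4) (.a (.b (.a .z (.l 4)) .z) (.b (.l 4) (.a (.a .z (.l 4)) (.l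
4))))))) (.l 4))) (.l 4))))) (.l 4)))) (.l 4))

theorem vQ77 : ev Q77 I3_1 I4_10 = 7766631117374776 := by decide +kernel

end Pool.Agent.Helper64.SPW.Dat
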