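import Pool.Agent.Helper64.SPW.Iv

/-! Boxes of traces, part 6 (data and kernel evaluation). -/

set_option maxRecDepth 1000000
set_option maxHeartbeats 0

namespace Pool.Agent.Helper64.SPW.Dat

noncomputable def Q76 : QT :=
(.a (.b (.a (.l 8) (.a (.b (.b (.a (.l 8) (.a (.l 8) (.b (.a (.l 8) (.b (.a (.b (.a (.l 8) (.b (.a (.l 8) (.b .z (.l 8))) (.l 8))) (.l 8)) (.b (.a (.b
.z (.a (.l 8) (.b .z (.l 8)))) (.b (.l 19) .z)) (.a (.l 8) (.b (.a (.l 8) .z) (.l 8))))) (.l 8))) (.l 8)))) (.l 8)) (.l 8)) (.b (.a (.b (.a (.b (.a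
(.b (.a (.b (.l 19) (.a (.b .z (.a (.b .z (.l 8)) .z)) (.b (.l 19) .z))) (.l 19)) (.a (.b (.a (.l 8) (.b (.a (.b .z (.l 8)) .z) (.l 8))) (.l 8)) (.b
(.a (.b .z (.a (.b .z (.l 8)) .z)) (.b (.l 19) .z)) (.a (.l 8) (.b (.a (.b .z (.l 8)) .z) (.l 8)))))) (.b (.l 19) (.a (.b (.l 19) (.a (.b .z (.a (.b
.z (.l 8)) .z)) (.b (.l 19) .z))) (.l 19)))) (.a (.l 8) (.b (.a (.b (.a (.l 8) (.b (.a (.b .z (.l 8)) .z) (.l 8))) (.l 8)) (.b (.a (.b .z (.a (.b .z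
(.l 8)) .z)) (.b (.l 19) .z)) (.a (.l 8) (.b (.a (.b .z (.l 8)) .z) (.l 8))))) (.l 8)))) (.b (.l 19) (.a (.b (.a (.b (.l 19) (.a (.b .z (.a (.b .z (.l
8)) .z)) (.l 19))) (.l 19)) (.a (.b (.a (.b (.a (.l 8) (.b .z (.l 8))) (.l 8)) (.b .z (.a (.l 8) (.b .z (.l 8))))) (.l 8)) (.b (.a (.b (.l 19) .z) (.l
19)) (.a (.b (.a (.l 8) (.b .z (.l 8))) (.l 8)) (.b .z (.a (.l 8) (.b .z (.l 8)))))))) (.b (.l 19) (.a (.b (.l 19) (.a (.b (.l 19) .z) (.l 19))) (.l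
19)))))) (.a (.l 8) (.b (.a (.l 8) (.b (.a (.b (.a (.b (.a (.l 8) (.b .z (.l 8))) (.l 8)) (.b .z (.a (.b .z (.l 8)) .z))) (.l 8)) (.b (.a (.b (.l 19)
.z) (.l 19)) (.a (.b (.a (.b .z (.l 8)) .z) (.l 8)) (.b .z (.a (.b .z (.l 8)) .z))))) (.l 8))) (.l 8)))) (.b (.l 19) (.a (.b (.a (.b (.a (.b (.l 19)
(.a (.b (.l 19) .z) (.l 19))) (.l 19)) (.a (.b (.a (.b (.a (.b .z (.l 8)) .z) (.a (.l 8) (.b .z (.l 8)))) (.b (.l 19) .z)) (.a (.l 8) (.b (.a (.l 8)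
(.b .z (.l 8))) (.l 8)))) (.b (.l 19) (.a (.b .z (.a (.l 8) (.b .z (.l 8)))) (.b (.l 19) .z))))) (.l 19)) (.a (.b (.a (.l 8) (.b (.a (.l 8) (.b (.a
(.b .z (.l 8)) .z) (.l 8))) (.l 8))) (.l 8)) (.b (.a (.b (.a (.b .z (.a (.b .z (.l 8)) .z)) (.b (.l 19) .z)) (.a (.l 8) (.b (.a (.b .z (.l 8)) .z) (.l
8)))) (.b (.l 19) (.a .z (.l 19)))) (.a (.l 8) (.b (.a (.b (.a (.l 8) (.b .z (.l 8))) (.l 8)) (.b .z (.a (.l 8) (.b .z (.l 8))))) (.l 8)))))) (.b (.l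
19) (.a (.b (.l 19) (.a (.b (.a (.b (.l 19) .z) (.l 19)) (.a (.b (.a (.b .z (.l 8)) .z) (.l 8)) (.b .z (.a (.b .z (.l 8)) .z)))) (.b (.l 19) (.a (.b
(.l 19) .z) (.l 19))))) (.l 19)))))) (.a (.l 8) (.b (.a (.l 8) (.b (.a (.b (.a (.l 8) (.b (.a (.b .z (.a (.l 8) (.b .z (.l 8)))) (.b (.l 19) .z)) (.a
(.l 8) (.b (.a (.l 8) (.b .z (.l 8))) (.l 8))))) (.l 8)) (.b (.a (.b (.l 19) (.a (.b .z (.a (.b .z (.l 8)) .z)) (.b (.l 19) .z))) (.l 19)) (.a (.b (.a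
(.l 8) (.b (.a (.b .z (.l 8)) .z) (.l 8))) (.l 8)) (.b (.a .z (.l 19)) (.a (.b (.a (.l 8) (.b .z (.l 8))) (.l 8)) (.b .z (.a (.l 8) .z))))))) (.l 8)))
(.l 8)))))) (.a (.b (.l 8) (.b (.l 8) (.a (.l 8) (.b (.l 8) (.a (.l 8) (.b (.l 8) (.a (.l 8) (.a (.l 8) (.b (.l 8) (.a (.l 8) (.b (.l 8) (.a (.b (.l
8) (.a (.l 8) .z)) (.b (.a (.l 8) .z) .z))))))))))))) (.b (.a (.l 8) (.b (.l 8) (.a (.l 8) (.b (.l 8) (.a (.l 8) (.b (.l 8) (.a (.b (.l 8) (.a (.b (.l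
8) (.a (.l 8) (.b (.l 8) (.a (.l 8) .z)))) (.b (.a (.l 8) (.b (.l 8) .z)) (.a (.b .z (.a .z (.l 4))) (.b (.a .z (.l 4)) (.l 4)))))) (.b (.a (.b (.l 8)
(.a (.l 8) (.b (.a (.l 8) .z) .z))) (.b (.a (.b (.l 8) (.a (.l 8) .z)) (.b (.a (.l 8) .z) .z)) (.a (.b .z (.l 4)) (.l 4)))) (.a (.b (.a (.b .z (.a .z
(.l 4))) (.b (.a .z (.l 4)) (.l 4))) (.l 4)) (.l 4)))))))))) (.a (.b (.a (.l 8) (.b (.l 8) (.a (.l 8) (.b (.l 8) (.a (.l 8) (.b (.l 8) (.a (.b (.l 8)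
(.a (.l 8) (.b (.l 8) .z))) (.b (.a (.l 8) (.b (.a (.l 8) .z) .z)) (.a (.b .z (.a .z (.l 4))) (.b (.a .z (.l 4)) (.l 4))))))))))) (.a (.b (.a (.l 8)
(.b (.l 8) (.a (.l 8) (.b (.l 8) (.a (.l 8) (.b (.l 8) (.a (.b (.l 8) .z) (.b .z (.a .z (.l 4)))))))))) (.a (.b (.a (.l 8) (.b (.l 8) (.a (.l 8) (.b
(.l 8) (.a (.b (.l 8) (.a (.l 8) .z)) (.b (.a (.l 8) .z) .z)))))) (.a (.b (.a (.l 8) (.b (.l 8) (.a (.b (.l 8) (.a (.l 8) .z)) (.b (.a (.l 8) .z)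
.z)))) (.a (.b (.a (.b (.l 8) (.a (.l 8) .z)) (.b (.a (.l 8) .z) .z)) (.a (.b .z (.l 4)) (.l 4))) (.b (.a (.b .z (.l 4)) (.l 4)) (.l 4)))) (.b (.a (.b
(.a (.b (.l 8) (.a (.l 8) .z)) (.b (.a (.l 8) .z) .z)) (.a (.b .z (.l 4)) (.l 4))) (.b (.a (.b .z (.l 4)) (.l 4)) (.l 4))) (.l 4)))) (.b (.a (.b (.a
(.l 8) (.b (.l 8) (.a (.b (.l 8) (.a (.l 8) .z)) (.b (.a (.l 8) .z) .z)))) (.a (.b (.a (.b (.l 8) (.a (.l 8) .z)) (.b (.a (.l 8) .z) .z)) (.a (.b .z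
(.l 4)) (.l 4))) (.b (.a (.b .z (.l 4)) (.l 4)) (.l 4)))) (.b (.a (.b (.a (.b (.l 8) .z) (.b .z (.a .z (.l 4)))) (.a (.b (.a .z (.l 4)) (.l 4)) (.l
4))) (.b (.a (.b (.a .z (.l 4)) (.l 4)) (.l 4)) (.l 4))) (.l 4))) (.l 4)))) (.b (.a (.b (.a (.l 8) (.b (.l 8) (.a (.b (.l 8) (.a (.l 8) (.b (.l 8) (.a
(.l 8) .z)))) (.b (.a (.l 8) (.b (.l 8) (.a (.l 8) .z))) (.a (.b (.a (.l 8) .z) .z) (.b .z (.l 4))))))) (.a (.b (.a (.l 8) (.b (.l 8) (.a (.b (.l 8)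
.z) (.b .z (.a .z (.l 4)))))) (.a (.b (.a (.b (.l 8) .z) (.b .z (.a .z (.l 4)))) (.a (.b (.a .z (.l 4)) (.l 4)) (.l 4))) (.b (.a (.b (.a .z (.l 4))
(.l 4)) (.l 4)) (.l 4)))) (.b (.a (.b (.a (.b (.a (.l 8) .z) .z) (.b .z (.l 4))) (.a (.b (.a .z (.l 4)) (.l 4)) (.l 4))) (.l 4)) (.l 4)))) (.b (.a (.b
(.a (.b (.l 8) (.a (.l 8) (.b (.l 8) (.a (.l 8) .z)))) (.b (.a (.l 8) (.b (.l 8) .z)) (.a (.b .z (.a .z (.l 4))) (.b (.a .z (.l 4)) (.l 4))))) (.a (.b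
(.a (.b (.a (.l 8) .z) .z) (.b .z (.l 4))) (.l 4)) (.l 4))) (.b (.a (.b (.a (.b .z (.a .z (.l 4))) (.b (.a .z (.l 4)) (.l 4))) (.l 4)) (.l 4)) (.l
4))) (.l 4))) (.l 4)))) (.b (.a (.b (.a (.l 8) (.b (.l 8) (.a (.b (.l 8) (.a (.l 8) (.b (.l 8) (.a (.l 8) (.b (.l 8) (.a (.l 8) .z)))))) (.b (.a (.l
8) (.b (.l 8) (.a (.l 8) (.b (.l 8) .z)))) (.a (.b (.a (.l 8) (.b (.l 8) .z)) (.a (.b (.a (.l 8) .z) .z) (.b (.a .z (.l 4)) (.l 4)))) (.b (.a (.b .z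
(.a .z (.l 4))) (.b (.a .z (.l 4)) (.l 4))) (.l 4))))))) (.a (.b (.a (.l 8) (.b (.l 8) (.a (.b (.l 8) (.a (.b (.l 8) .z) (.b .z (.a .z (.l 4))))) (.b
(.a (.b (.l 8) .z) (.b .z (.a .z (.l 4)))) (.a (.b (.a .z (.l 4)) (.l 4)) (.l 4)))))) (.a (.b (.a (.b (.l 8) (.a (.b (.l 8) (.a (.l 8) .z)) (.b (.a
(.l 8) .z) .z))) (.b (.a (.b (.l 8) (.a (.l 8) .z)) (.b (.a (.l 8) .z) .z)) (.a (.b .z (.l 4)) (.l 4)))) (.a (.b (.a (.b .z (.l 4)) (.l 4)) (.l 4))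
(.l 4))) (.b (.a (.b (.a (.b (.a .z (.l 4)) (.l 4)) (.l 4)) (.l 4)) (.l 4)) (.l 4)))) (.b (.a (.b (.a (.b (.a (.l 8) (.b (.l 8) (.a (.l 8) .z))) (.a
(.b (.a (.l 8) .z) .z) (.b .z (.l 4)))) (.b (.a (.b (.a (.l 8) .z) .z) (.b .z (.l 4))) (.l 4))) (.a (.b (.a (.b (.a .z (.l 4)) (.l 4)) (.l 4)) (.l 4))
(.l 4))) (.l 4)) (.l 4)))) (.b (.a (.b (.a (.b (.l 8) (.a (.l 8) (.b (.l 8) (.a (.b (.l 8) (.a (.l 8) .z)) (.b (.a (.l 8) .z) .z))))) (.b (.a (.l 8)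
(.b (.a (.l 8) (.b (.l 8) (.a (.l 8) .z))) (.a (.b (.l 8) .z) (.b .z (.a .z (.l 4)))))) (.a (.b (.a (.b (.l 8) .z) (.b .z (.a .z (.l 4)))) (.a (.b (.a
.z (.l 4)) (.l 4)) (.l 4))) (.b (.a (.b (.a .z (.l 4)) (.l 4)) (.l 4)) (.l 4))))) (.a (.b (.a (.b (.a (.b (.l 8) (.a (.l 8) .z)) (.b (.a (.l 8) .z)
.z)) (.a (.b .z (.a .z (.l 4))) (.l 4))) (.b (.a (.b .z (.l 4)) (.l 4)) (.l 4))) (.l 4)) (.l 4))) (.b (.a (.b (.a (.b (.a (.b (.a (.l 8) .z) .z) (.b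
.z (.l 4))) (.l 4)) (.l 4)) (.l 4)) (.l 4)) (.l 4))) (.l 4))) (.l 4)))))) (.b (.a (.b (.l 19) (.a (.a (.b (.a (.b (.a (.b (.l 19) (.a (.b (.l 19) (.a
(.b (.l 19) .z) (.l 19))) (.l 19))) (.l 19)) (.a (.b (.a (.b (.a (.b (.a (.b .z (.l 8)) .z) (.l 8)) .z) (.a (.l 8) (.b (.a (.l 8) (.b .z (.l 8))) (.l
8)))) (.b (.l 19) (.a (.b .z (.a (.l 8) .z)) (.b (.l 19) .z)))) (.a (.l 8) (.b (.a (.l 8) (.b (.a (.b .z (.l 8)) .z) (.l 8))) (.l 8)))) (.b (.l 19)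
(.a (.b (.a .z (.l 19)) (.a (.b (.a (.l 8) (.b .z (.l 8))) (.l 8)) (.b .z (.a (.l 8) .z)))) (.b (.l 19) (.a (.b (.l 19) .z) (.l 19))))))) (.l 19)) (.a
(.b (.a (.l 8) (.b (.a (.l 8) (.b (.a (.b (.a (.b .z (.l 8)) .z) (.l 8)) .z) (.a (.l 8) (.b (.a (.l 8) (.b .z (.l 8))) (.l 8))))) (.l 8))) (.l 8)) (.b
(.a (.b (.a (.b (.l 19) (.a (.b .z (.a (.b .z (.l 8)) .z)) (.b (.l 19) .z))) (.l 19)) (.a (.b (.a (.l 8) (.b (.a (.b .z (.l 8)) .z) (.a (.l 8) (.b .z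
(.l 8))))) (.l 8)) (.b (.a (.b (.l 19) .z) (.l 19)) (.a (.b (.a (.l 8) .z) (.l 8)) (.b .z (.a (.b .z (.l 8)) .z)))))) (.l 19)) (.a (.b (.a (.l 8) (.b
(.a (.l 8) (.b (.a (.l 8) (.b .z (.l 8))) (.l 8))) (.l 8))) (.l 8)) (.b (.a (.b (.a (.b .z (.a (.l 8) (.b .z (.l 8)))) (.b (.l 19) .z)) (.a (.l 8) (.b
(.a (.b .z (.l 8)) .z) (.l 8)))) (.b (.l 19) (.a .z (.l 19)))) (.a (.l 8) (.b (.a (.b (.a (.l 8) (.b .z (.l 8))) (.l 8)) (.b .z (.a (.b .z (.l 8))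
.z))) (.l 8)))))))) (.b (.l 19) (.a (.b (.l 19) (.a (.b (.l 19) (.a (.b (.a (.b (.l 19) .z) (.l 19)) (.a (.b .z (.a (.l 8) (.b .z (.l 8)))) (.b (.l
19) .z))) (.l 19))) (.l 19))) (.l 19)))) (.b (.l 19) (.a (.b (.l 19) (.a (.l 19) (.b (.l 19) (.a (.l 19) (.b (.l 19) (.a (.b (.l 19) (.a (.l 19) .z))
(.b (.a (.l 19) .z) (.a .z (.b .z (.l 13)))))))))) (.b (.a (.l 19) (.b (.l 19) (.a (.b (.l 19) (.a (.l 19) (.b (.a (.l 19) .z) .z))) (.b (.a (.b (.l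
19) (.a (.l 19) .z)) (.b .z (.a .z (.l 13)))) (.a (.b (.a .z (.b .z (.l 13))) (.l 13)) (.l 13)))))) (.a (.b (.a (.l 19) (.b (.a (.l 19) (.b (.l 19)
(.a (.l 19) .z))) (.a (.b (.a (.l 19) .z) (.a .z (.b .z (.l 13)))) (.b (.a .z (.b .z (.l 13))) (.l 13))))) (.a (.b (.a (.b (.l 19) (.a (.l 19) .z))
(.b .z (.a (.b .z (.l 13)) (.l 13)))) (.a (.b (.a .z (.b .z (.l 13))) (.l 13)) (.l 13))) (.b (.a (.b (.a (.b .z (.l 13)) (.l 13)) (.l 13)) (.l 13))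
(.l 13)))) (.b (.a (.b (.a (.b .z (.a .z (.l 13))) (.b (.a (.b .z (.l 13)) (.l 13)) (.l 13))) (.l 13)) (.l 13)) (.l 13)))))))) (.b (.a (.b (.l 19) (.a
(.l 19) (.b (.l 19) (.a (.l 19) (.b (.l 19) (.a (.l 19) (.b (.l 19) (.a (.l 19) (.b (.a (.l 19) .z) (.a .z (.b .z (.l 13)))))))))))) (.b (.a (.l 19)
(.b (.a (.l 19) (.b (.l 19) (.a (.l 19) (.b (.l 19) (.a (.l 19) (.b (.l 19) (.a (.l 19) .z))))))) (.a (.b (.l 19) (.a (.l 19) (.b (.a (.l 19) (.b (.l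
19) (.a (.l 19) .z))) (.a (.b (.l 19) .z) (.b (.a .z (.b .z (.l 13))) (.a (.b .z (.l 13)) (.l 13))))))) (.b (.a (.b (.l 19) (.a (.l 19) (.b (.a (.l
19) .z) .z))) (.b (.a (.b (.l 19) (.a (.l 19) .z)) (.b .z (.a (.b .z (.l 13)) (.l 13)))) (.a (.b (.a .z (.b .z (.l 13))) (.l 13)) (.l 13)))) (.a (.b
(.a (.b (.a (.l 19) .z) (.a .z (.b .z (.l 13)))) (.b (.a (.b .z (.l 13)) (.l 13)) (.l 13))) (.l 13)) (.l 13)))))) (.a (.b (.a (.l 19) (.b (.a (.l 19)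
(.b (.l 19) (.a (.l 19) (.b (.l 19) (.a (.l 19) .z))))) (.a (.b (.l 19) (.a (.b (.l 19) (.a (.l 19) .z)) (.b .z (.a .z (.l 13))))) (.b (.a (.b (.a (.l
19) .z) .z) (.b (.a .z (.b .z (.l 13))) (.l 13))) (.a (.b (.a (.b .z (.l 13)) (.l 13)) (.l 13)) (.l 13)))))) (.a (.b (.a (.b (.l 19) (.a (.l 19) (.b
(.l 19) (.a (.l 19) .z)))) (.b (.a (.l 19) (.b (.l 19) .z)) (.a (.b (.a (.l 19) .z) (.a .z (.b .z (.l 13)))) (.b (.a (.b .z (.l 13)) (.l 13)) (.l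
13))))) (.a (.b (.a (.b (.l 19) .z) (.b .z (.a (.b .z (.l 13)) (.l 13)))) (.a (.b (.a .z (.l 13)) (.l 13)) (.l 13))) (.l 13))) (.b (.a (.b (.a (.b (.a
.z (.b .z (.l 13))) (.a (.b .z (.l 13)) (.l 13))) (.l 13)) (.l 13)) (.l 13)) (.l 13)))) (.b (.a (.b (.a (.b (.a (.l 19) (.b (.a (.l 19) .z) (.a .z (.b
.z (.l 13))))) (.a (.b .z (.a (.b .z (.l 13)) (.l 13))) (.b (.a (.b .z (.l 13)) (.l 13)) (.l 13)))) (.b (.a (.b (.a .z (.l 13)) (.l 13)) (.l 13)) (.l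
13))) (.l 13)) (.l 13)) (.l 13))))) (.a (.b (.a (.b (.l 19) (.a (.b (.l 19) (.a (.l 19) (.b (.l 19) (.a (.l 19) (.b (.a (.l 19) .z) .z))))) (.b (.a
(.l 19) (.b (.a (.l 19) (.b (.l 19) (.a (.l 19) .z))) (.a (.b (.a (.l 19) .z) .z) (.b (.a .z (.b .z (.l 13))) (.l 13))))) (.a (.b (.a (.b (.l 19) (.a
(.l 19) .z)) (.b .z (.a .z (.l 13)))) (.a (.b (.a .z (.b .z (.l 13))) (.l 13)) (.l 13))) (.b (.a (.b (.a (.b .z (.l 13)) (.l 13)) (.l 13)) (.l 13))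
(.l 13)))))) (.b (.a (.b (.l 19) (.a (.b (.l 19) (.a (.l 19) (.b (.a (.l 19) .z) .z))) (.b (.a (.b (.l 19) (.a (.l 19) .z)) (.b .z (.a .z (.l 13))))
(.a (.b (.a .z (.b .z (.l 13))) (.l 13)) (.l 13))))) (.b (.a (.b (.a (.l 19) (.b (.l 19) (.a (.l 19) .z))) (.a (.b (.a (.l 19) .z) (.a .z (.b .z (.l
13)))) (.b (.a .z (.b .z (.l 13))) (.l 13)))) (.b (.a (.b .z (.a (.b .z (.l 13)) (.l 13))) (.b (.a (.b .z (.l 13)) (.l 13)) (.l 13))) (.l 13))) (.a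
(.b (.a (.b (.a (.b .z (.l 13)) (.l 13)) (.l 13)) (.l 13)) (.l 13)) (.l 13)))) (.a (.b (.a (.b (.a (.b .z (.a .z (.l 13))) (.b (.a (.b .z (.l 13)) (.l
13)) (.l 13))) (.l 13)) (.l 13)) (.l 13)) (.l 13)))) (.a (.b (.a (.b (.a (.b (.a (.l 19) (.b (.l 19) (.a (.l 19) .z))) (.a (.b (.a (.l 19) .z) .z) (.b
(.a .z (.b .z (.l 13))) (.l 13)))) (.b (.a (.b .z (.a .z (.l 13))) (.b (.a (.b .z (.l 13)) (.l 13)) (.l 13))) (.l 13))) (.a (.b (.a (.b (.a (.b .z (.l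
13)) (.l 13)) (.l 13)) (.l 13)) (.l 13)) (.l 13))) (.l 13)) (.l 13)) (.l 13))) (.l 13)))) (.a (.b (.a (.b (.a (.l 8) (.b (.a (.a (.b (.a (.b (.a (.l
8) (.b (.a (.b .z (.l 8)) .z) (.l 8))) (.l 8)) (.b (.a .z (.l 19)) (.a (.b (.a (.l 8) (.b .z (.l 8))) (.l 8)) (.b .z (.a (.b .z (.l 8)) .z))))) (.l
8)) (.b (.a (.b (.l 19) (.a (.b (.l 19) .z) (.l 19))) (.l 19)) (.a (.b (.a (.b .z (.a (.l 8) .z)) (.b (.l 19) .z)) (.a (.l 8) (.b (.a (.b .z (.l 8))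
.z) (.a (.l 8) (.b .z (.l 8)))))) (.b (.l 19) (.a (.b (.l 19) .z) (.l 19)))))) (.l 19)) (.a (.b (.a (.l 8) (.a (.l 8) (.b (.a (.b (.a (.l 8) .z) (.l
8)) (.b .z (.a (.b .z (.l 8)) .z))) (.a (.l 8) (.b (.a (.l 8) (.b .z (.l 8))) (.l 8)))))) (.a (.l 8) (.b (.a (.l 8) (.b (.l 8) (.a (.l 8) (.b (.l 8)
(.a (.l 8) .z))))) (.a (.b (.l 8) (.a (.b (.l 8) .z) (.b .z (.a .z (.l 4))))) (.b (.a (.b (.a (.l 8) .z) .z) (.b .z (.l 4))) (.a (.b (.a .z (.l 4))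
(.l 4)) (.l 4))))))) (.b (.a (.b (.l 19) (.a (.a (.b .z (.a (.b .z (.l 8)) .z)) (.b (.l 19) .z)) (.b (.l 19) .z))) (.b (.a (.l 19) (.b (.a (.l 19) .z)
(.a .z (.b .z (.l 13))))) (.a (.b .z (.a (.b .z (.l 13)) (.l 13))) (.b (.a (.b .z (.l 13)) (.l 13)) (.l 13))))) (.a (.b (.a (.b (.a (.l 8) .z) (.a (.b
.z (.a .z (.l 4))) (.b (.a .z (.l 4)) (.l 4)))) (.b (.a .z (.l 13)) (.b .z (.l 4)))) (.l 4)) (.b (.b (.l 13) (.b (.a (.a .z (.l 13)) (.l 13)) (.a (.a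
(.a (.l 4) .z) .z) (.a .z (.l 13))))) (.b (.b (.a (.l 4) (.a (.a (.l 4) .z) .z)) (.l 4)) (.l 4)))))))) (.a (.b (.a (.b (.l 8) (.a (.l 8) (.b (.l 8)
(.a (.l 8) (.b (.l 8) (.a (.l 8) (.b (.l 8) .z))))))) (.b (.a (.l 8) (.b (.l 8) (.a (.b (.l 8) (.a (.l 8) (.b (.l 8) (.a (.l 8) .z)))) (.b (.a (.l 8)
(.b (.l 8) .z)) (.a (.b (.a (.l 8) .z) .z) (.b (.a .z (.l 4)) (.l 4))))))) (.a (.b (.a (.l 8) (.b (.l 8) (.a (.b (.l 8) (.a (.l 8) .z)) (.b .z (.a .z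
(.l 4)))))) (.a (.b (.a (.b (.l 8) (.a (.l 8) .z)) (.b (.a (.l 8) .z) .z)) (.a (.b .z (.a .z (.l 4))) (.l 4))) (.b (.a (.b .z (.l 4)) (.l 4)) (.l
4)))) (.b (.a (.b (.a (.b (.a (.l 8) .z) .z) (.b .z (.l 4))) (.a (.b (.a .z (.l 4)) (.l 4)) (.l 4))) (.l 4)) (.l 4))))) (.a (.b (.a (.b (.a (.l 8) (.b
(.l 8) (.a (.l 8) (.b (.l 8) (.a (.l 8) .z))))) (.a (.b (.l 8) (.a (.b (.l 8) .z) (.b .z (.a .z (.l 4))))) (.b (.a (.b (.a (.l 8) .z) .z) (.b .z (.l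
4))) (.a (.b (.a .z (.l 4)) (.l 4)) (.l 4))))) (.b (.a (.b (.a (.l 8) (.b (.l 8) .z)) (.a (.b (.a (.l 8) .z) .z) (.b (.a .z (.l 4)) (.l 4)))) (.b (.a
(.b .z (.a .z (.l 4))) (.b (.a .z (.l 4)) (.l 4))) (.l 4))) (.l 4))) (.a (.b (.a (.b (.a (.b (.a .z (.l 4)) (.l 4)) (.l 4)) (.l 4)) (.l 4)) (.l 4))
(.l 4))) (.l 4))) (.b (.a (.b (.a (.b (.a (.b (.l 8) (.a (.l 8) (.b (.a (.l 8) .z) .z))) (.b (.a (.b (.l 8) (.a (.l 8) .z)) (.b (.a (.l 8) .z) .z))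
(.a (.b .z (.l 4)) (.l 4)))) (.a (.b (.a (.b .z (.a .z (.l 4))) (.b (.a .z (.l 4)) (.l 4))) (.l 4)) (.l 4))) (.b (.a (.b (.a (.b (.a .z (.l 4)) (.l
4)) (.l 4)) (.l 4)) (.l 4)) (.l 4))) (.l 4)) (.l 4)) (.l 4)))) (.b (.a (.b (.a (.b (.a (.l 19) (.b (.l 19) (.a (.l 19) (.b (.l 19) (.a (.l 19) .z)))))
(.a (.b (.l 19) (.a (.b (.l 19) (.a (.l 19) .z)) (.b .z (.a .z (.l 13))))) (.b (.a (.b (.l 19) .z) (.b (.a .z (.b .z (.l 13))) (.a (.b .z (.l 13)) (.l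
13)))) (.a (.b (.a (.b .z (.l 13)) (.l 13)) (.l 13)) (.l 13))))) (.b (.a (.b (.a (.l 19) (.b (.l 19) .z)) (.a (.b (.a (.l 19) .z) (.a .z (.b .z (.l
13)))) (.b (.a .z (.l 13)) (.l 13)))) (.b (.a (.b .z (.a (.b .z (.l 13)) (.l 13))) (.l 13)) (.l 13))) (.l 13))) (.a (.b (.a (.b (.a (.b (.a .z (.b .z
(.l 13))) (.l 13)) (.l 13)) (.l 13)) (.l 13)) (.b (.l 13) (.b (.a (.b (.a (.a .z (.l 13)) (.l 13)) (.a (.a (.a (.l 4) .z) .z) (.a .z (.l 13)))) (.l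
13)) (.a (.b (.a (.l 4) (.a (.a (.l 4) .z) .z)) (.l 4)) (.b (.a (.a .z (.l 13)) (.l 13)) (.a (.a (.a (.l 4) .z) .z) (.a .z (.l 13)))))))) (.l 13)))
(.l 13)) (.b (.a (.b (.a (.b (.b (.a (.l 4) (.a (.l 4) (.b (.a (.a (.l 4) .z) .z) (.l 4)))) (.l 4)) (.l 4)) (.b (.a (.b (.a (.b (.a .z (.l 13)) (.a
(.a (.l 4) .z) .z)) (.b (.l 13) (.a .z (.l 13)))) (.a (.l 4) (.b (.a (.a (.l 4) .z) .z) (.l 4)))) (.b (.l 13) (.a (.b (.a .z (.l 13)) (.a (.a (.l 4)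
.z) .z)) (.b (.l 13) (.a .z (.l 13)))))) (.a (.l 4) (.b (.a (.l 4) (.b (.a (.a (.l 4) .z) .z) (.l 4))) (.l 4))))) (.l 4)) (.b (.a (.b (.l 13) (.a (.b
(.a (.b (.a .z (.l 13)) (.a (.a (.l 4) .z) .z)) (.b (.l 13) (.a .z (.l 13)))) (.a (.l 4) (.b .z (.l 4)))) (.b (.l 13) (.a (.b (.a .z (.l 13)) .z) (.b
(.l 13) (.a .z (.l 13))))))) (.l 13)) (.a (.b (.a (.l 4) (.b (.a (.l 4) (.b .z (.l 4))) (.l 4))) (.l 4)) (.b (.a (.b (.a (.b (.a .z (.l 13)) .z) (.l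
13)) (.a (.b (.a (.l 4) (.a (.l 4) .z)) (.l 4)) (.b .z (.a (.l 4) (.a (.l 4) .z))))) (.b (.l 13) (.a (.b (.l 13) .z) (.l 13)))) (.a (.l 4) (.b (.a (.b
(.a (.l 4) (.a (.l 4) .z)) (.l 4)) (.b .z (.a (.l 4) .z))) (.l 4))))))) (.l 4)))) (.l 4)) (.b (.b (.l 13) (.a (.b (.a (.b (.l 13) (.a (.b (.l 13) (.a
(.b (.a (.b (.l 13) .z) (.l 13)) (.a (.b (.a (.l 4) .z) (.l 4)) (.b (.a .z (.l 13)) (.a (.a (.l 4) .z) .z)))) (.b (.l 13) (.a (.b (.l 13) (.a .z (.l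
13))) (.l 13))))) (.l 13))) (.l 13)) (.a (.b (.a (.b (.a (.l 4) (.b (.a (.b (.a (.a (.l 4) .z) .z) (.l 4)) (.b (.a .z (.l 13)) .z)) (.l 4))) (.l 4))
(.b (.a (.b (.a (.b (.l 13) (.a .z (.l 13))) (.l 13)) (.a (.b .z (.a (.l 4) (.a (.l 4) .z))) (.b (.l 13) .z))) (.l 13)) (.a (.b (.a (.l 4) (.b (.a (.l
4) .z) (.l 4))) (.l 4)) (.b (.a (.b .z (.a (.l 4) .z)) (.b (.l 13) (.a .z (.l 13)))) (.a (.l 4) (.b (.a (.a (.l 4) .z) .z) (.l 4))))))) (.l 4)) (.b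
(.a (.b (.l 13) (.a (.b (.l 13) (.a (.b (.a .z (.l 13)) (.a (.a (.l 4) .z) .z)) (.b (.l 13) (.a .z (.l 13))))) (.l 13))) (.l 13)) (.a (.b (.a (.b (.a
(.l 4) (.b .z (.a (.l 4) (.a (.l 4) .z)))) (.l 4)) (.b (.a (.b (.l 13) .z) (.l 13)) (.a (.b (.a (.l 4) .z) (.l 4)) (.b .z (.a (.l 4) .z))))) (.l 4))
(.b (.a (.b (.l 13) (.a (.b (.l 13) (.a .z (.l 13))) (.l 13))) (.l 13)) (.a (.b (.a (.b (.a (.a (.l 4) .z) .z) (.l 4)) (.b (.a .z (.l 13)) .z)) (.a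
(.l 4) (.b (.a (.l 4) (.a (.l 4) .z)) (.l 4)))) (.b (.l 13) (.a (.b .z (.a (.l 4) .z)) (.b (.l 13) (.a .z (.l 13))))))))))) (.l 13))) (.b (.a (.b (.a
(.l 4) (.b (.a (.l 4) (.b (.a (.l 4) (.b (.a (.l 4) (.b (.a (.a (.l 4) .z) .z) (.l 4))) (.l 4))) (.l 4))) (.l 4))) (.l 4)) (.b (.a (.b (.a (.b (.a (.b
(.a (.b (.a .z (.l 13)) .z) (.l 13)) (.a (.b (.a (.l 4) (.a (.l 4) .z)) (.l 4)) (.b .z (.a (.l 4) .z)))) (.b (.l 13) (.a (.b (.l 13) .z) (.l 13))))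
(.a (.l 4) (.b (.a (.b (.a (.l 4) .z) (.l 4)) (.b (.a .z (.l 13)) (.a (.a (.l 4) .z) .z))) (.a (.l 4) (.b (.a (.l 4) (.a (.l 4) .z)) (.l 4)))))) (.b
(.l 13) (.a (.b (.l 13) (.a (.b .z (.a (.l 4) .z)) (.b (.l 13) (.a .z (.l 13))))) (.l 13)))) (.a (.l 4) (.b (.a (.b (.a (.l 4) (.b (.a (.a (.l 4) .z)
.z) (.l 4))) (.l 4)) (.b (.a (.b (.a .z (.l 13)) .z) (.l 13)) (.a (.b (.a (.l 4) (.a (.l 4) .z)) (.l 4)) (.b .z (.a (.l 4) .z))))) (.l 4)))) (.b (.l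
13) (.a (.b (.a (.b (.l 13) (.a (.b (.l 13) (.a .z (.l 13))) (.l 13))) (.l 13)) (.a (.b (.a (.b (.a (.a (.l 4) .z) .z) (.l 4)) (.b (.a .z (.l 13))
.z)) (.a (.l 4) (.b (.a (.l 4) (.a (.l 4) .z)) (.l 4)))) (.b (.l 13) (.a (.b (.a .z (.l 13)) (.a (.a (.l 4) .z) .z)) (.b (.l 13) (.a .z (.l 13)))))))
(.l 13)))) (.a (.l 4) (.b (.a (.b (.a (.l 4) (.b (.a (.l 4) (.b .z (.a (.l 4) (.a (.l 4) .z)))) (.l 4))) (.l 4)) (.b (.a (.b (.a (.b (.l 13) .z) (.l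
13)) (.a (.b (.a (.l 4) .z) (.l 4)) (.b (.a .z (.l 13)) .z))) (.l 13)) (.a (.b (.a (.l 4) (.b (.a (.l 4) (.a (.l 4) .z)) (.l 4))) (.l 4)) (.b (.a (.b
.z (.a (.l 4) .z)) (.b (.l 13) (.a .z (.l 13)))) (.a (.l 4) (.b .z (.a (.l 4) (.a (.l 4) .z)))))))) (.l 4))))) (.l 4))))))

theorem vQ76 : ev Q76 I3_1 I4_9 = 7717813917151739 := by decide +kernel

noncomputable def Q24 : QT :=
(.a (.l 16) (.a (.b (.b (.a (.l 16) (.b (.a (.l 16) (.b (.a (.b (.a (.l 16) (.b (.a (.l 16) (.b .z (.a (.l 16) .z))) (.l 16))) (.l 16)) (.b (.a (.b .z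
(.a (.b .z (.a (.l 16) .z)) .z)) (.l 76)) (.a (.b (.a (.l 16) (.b .z (.a (.l 16) .z))) (.l 16)) (.b .z (.a (.b .z (.a (.l 16) .z)) .z))))) (.a (.l 16)
(.b (.a (.l 16) (.b (.a (.l 16) (.b .z (.a (.l 16) .z))) (.l 16))) (.l 16))))) (.l 16))) (.l 16)) (.a (.l 16) (.b (.l 16) (.a (.b (.l 16) (.a (.l 16)
(.b (.l 16) (.a (.l 16) (.b (.a (.l 16) (.b (.l 16) (.a (.l 16) (.b (.l 16) .z)))) (.a (.b (.l 16) (.a (.b (.l 16) .z) .z)) (.b (.a (.b (.l 16) .z)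
.z) .z))))))) (.b (.a (.l 16) (.b (.a (.l 16) (.b (.l 16) (.a (.b (.l 16) (.a (.l 16) (.b (.l 16) .z))) (.b (.a (.l 16) .z) .z)))) (.a (.b (.a (.l 16)
(.b (.l 16) (.a (.b (.l 16) .z) .z))) (.a (.b (.a (.l 16) (.b (.l 16) .z)) .z) .z)) (.b (.a (.b (.a (.b (.l 16) .z) .z) .z) .z) .z)))) (.a (.b (.a (.b
(.l 16) (.a (.l 16) (.b (.l 16) (.a (.b (.l 16) .z) .z)))) (.b (.a (.b (.l 16) (.a (.l 16) (.b (.l 16) .z))) (.b (.a (.b (.l 16) .z) .z) .z)) (.a .z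
(.l 48)))) (.a (.b (.a (.b (.a (.l 16) .z) .z) (.b .z (.l 48))) (.l 48)) (.l 48))) (.b (.a (.b (.a (.b .z (.l 48)) .z) (.a (.l 48) (.a (.l 48) .z)))
.z) (.a (.l 48) (.a (.b (.a (.l 48) .z) (.l 48)) (.b .z (.a (.l 48) .z))))))))))) (.b (.a (.b (.a (.b (.a (.b (.l 76) (.a (.b (.b .z (.a (.b .z (.a
(.l 16) .z)) .z)) (.b (.a (.l 16) (.b .z (.a (.l 16) .z))) (.l 16))) (.b (.l 76) (.a (.b .z (.a (.b .z (.l 16)) .z)) .z)))) (.l 76)) (.a (.b (.a (.l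
16) (.b (.a (.l 16) (.b (.a (.b .z (.l 16)) .z) (.l 16))) (.l 16))) (.l 16)) (.b (.a (.b (.a (.b .z (.a (.b .z (.l 16)) .z)) .z) (.a (.l 16) (.b (.a
(.b .z (.l 16)) .z) (.l 16)))) (.b (.l 76) (.a (.b .z (.a (.b .z (.l 16)) .z)) .z))) (.a (.l 16) (.b (.a (.l 16) (.b (.a (.b .z (.l 16)) .z) (.l 16)))
(.l 16)))))) (.b (.l 76) (.a (.b (.l 76) (.a (.b (.a (.b .z (.a (.b .z (.l 16)) .z)) (.l 76)) (.a (.b (.a (.l 16) (.b .z (.l 16))) (.l 16)) (.b .z (.a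
(.l 16) (.b .z (.l 16)))))) (.b (.l 76) (.a .z (.l 76))))) (.l 76)))) (.a (.l 16) (.b (.a (.b (.a (.l 16) (.b (.a (.b (.a (.l 16) (.b .z (.l 16))) (.l
16)) (.b .z (.a (.l 16) (.b .z (.l 16))))) (.l 16))) (.l 16)) (.b (.a (.b (.a .z (.l 76)) (.a (.b (.a (.b .z (.l 16)) .z) (.l 16)) (.b .z (.a (.b .z
(.l 16)) .z)))) (.b (.l 76) (.a .z (.l 76)))) (.a (.l 16) (.b (.a (.b (.a (.b .z (.l 16)) .z) (.a (.l 16) (.b .z (.l 16)))) .z) (.a (.l 16) (.b (.a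
(.l 16) (.b .z (.l 16))) (.l 16))))))) (.a (.b (.l 16) (.a (.l 16) (.b (.l 16) (.a (.l 16) (.b (.l 16) (.a (.l 16) (.b (.l 16) .z))))))) (.b (.a (.l
16) (.b (.a (.l 16) (.b (.l 16) (.a (.l 16) .z))) (.a (.b (.a (.l 16) (.b (.l 16) .z)) (.a (.b (.l 16) .z) .z)) .z))) (.a (.b (.a (.l 16) (.b (.a (.l
16) .z) .z)) (.a (.b (.a (.b (.l 16) .z) .z) .z) .z)) .z)))))) (.b (.a (.b (.l 76) (.a (.l 76) (.b (.a (.l 76) (.b (.l 76) (.a (.l 76) .z))) (.a (.b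
(.l 76) (.a (.l 76) .z)) (.b .z (.a .z (.l 75))))))) (.b (.a (.b (.l 76) (.a (.l 76) (.b (.a (.l 76) .z) .z))) (.b (.a (.b (.a (.l 76) .z) .z) (.b (.a
.z (.l 75)) (.l 75))) (.a (.b (.a .z (.l 75)) (.l 75)) (.l 75)))) (.a (.b (.a (.b (.a (.l 76) .z) .z) (.b (.a .z (.l 75)) (.l 75))) (.l 75)) (.l
75)))) (.a (.b (.a (.b (.a (.l 76) (.b (.l 76) (.a (.l 76) .z))) (.a (.b (.a (.l 76) .z) (.a (.b .z (.a (.l 16) .z)) .z)) (.b .z (.b (.l 75) .z))))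
(.b (.a (.b .z (.a .z (.l 75))) (.l 75)) (.b (.l 75) (.b (.l 75) (.b (.l 75) .z))))) (.a (.b .z (.a .z (.a .z (.l 240)))) .z)) (.b (.l 75) (.b (.b (.b
(.b (.a .z (.l 75)) .z) .z) .z) .z))))) (.a (.b (.a (.b (.a (.l 16) (.b (.l 16) (.a (.l 16) (.b (.l 16) (.a (.b (.l 16) (.a (.l 16) (.b (.l 16) .z)))
(.b (.a (.b (.l 16) .z) .z) .z)))))) (.a (.b (.l 16) (.a (.b (.l 16) (.a (.l 16) (.b (.l 16) (.a (.l 16) .z)))) (.b (.a (.b (.l 16) (.a (.l 16) (.b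
(.l 16) .z))) (.b (.a (.l 16) .z) .z)) (.a (.b (.a (.b (.l 16) .z) .z) .z) .z)))) (.b (.a (.b (.a (.l 16) (.b (.l 16) (.a (.b (.l 16) .z) .z))) (.a
(.b (.a (.l 16) (.b (.l 16) .z)) .z) .z)) .z) .z))) (.b (.a (.b (.a (.b (.l 16) (.a (.l 16) (.b (.a (.l 16) (.b (.l 16) .z)) (.a (.b (.l 16) .z)
.z)))) (.b (.a (.b (.l 16) (.a (.l 16) .z)) (.b (.a (.b (.l 16) .z) .z) .z)) .z)) (.a (.b (.a (.b (.a (.l 16) .z) .z) .z) .z) (.a (.l 178) .z))) .z)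
(.a (.a (.b (.b (.l 178) .z) (.a .z (.b .z (.l 104)))) (.b (.l 178) (.b .z (.l 104)))) (.b .z (.b .z (.a (.b .z (.l 104)) .z)))))) (.a (.b (.a (.b (.a
(.b (.a (.b (.a (.l 16) (.b (.l 16) .z)) (.a (.b (.l 16) .z) .z)) .z) .z) .z) (.a .z (.a .z (.a .z (.l 115))))) (.a (.a (.b (.a .z (.l 115)) (.l 115))
(.a (.l 115) (.b .z (.l 115)))) (.a .z (.b (.l 238) .z)))) (.a (.a .z (.a (.b .z (.a .z (.l 115))) (.l 115))) (.a (.l 115) (.a (.a (.l 115) (.b .z (.l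
115))) .z)))) (.a (.b (.a .z (.b (.a (.b (.l 104) .z) (.l 104)) .z)) (.l 205)) (.b (.a (.b (.l 104) (.a (.b (.l 104) .z) (.l 104))) (.l 104)) (.a (.b
.z (.a (.l 205) .z)) (.b (.a (.b (.l 104) .z) (.l 104)) (.a .z (.b (.l 104) .z)))))))) (.a (.a (.a (.b .z (.b (.b (.b .z (.l 104)) (.l 104)) (.l
104))) (.b (.a (.b .z (.b .z (.b .z (.l 100)))) (.b .z (.a (.b .z (.l 100)) .z))) (.b (.b (.b (.b (.l 100) .z) (.b .z (.l 104))) (.l 104)) (.l 104))))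
(.a (.b .z (.a (.b (.a (.b .z (.l 104)) .z) (.a (.l 104) (.b .z (.l 104)))) .z)) (.b .z (.b .z (.b (.a .z (.b .z (.l 92))) (.l 92)))))) (.b (.b .z (.a
.z (.b (.a .z (.l 154)) (.a .z (.l 154))))) (.a (.b (.a (.b .z (.a (.b .z (.l 92)) (.l 92))) .z) (.a (.l 92) (.b (.a (.l 92) .z) (.l 92)))) (.b .z (.a
(.b .z (.a (.b .z (.l 92)) .z)) (.b (.a .z (.b .z (.l 88))) (.a (.b .z (.l 88)) (.l 88))))))))))))

theorem vQ24 : ev Q24 I3_0 I5_14 = 3473267063736566 := by decide +kernel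

noncomputable def Q165 : QT :=
(.a (.b (.b (.a (.b (.a (.b (.l 41) (.a (.l 41) (.b (.l 41) (.a (.l 41) .z)))) (.b (.a (.l 41) (.b (.l 41) (.a (.l 41) .z))) (.a (.b (.a (.l 41) .z)
.z) (.b .z (.l 42))))) (.a (.b (.a (.b (.a (.l 41) .z) .z) (.b .z (.l 42))) (.a (.b (.a .z (.l 42)) (.b (.l 42) .z)) (.b (.l 42) (.b (.l 42) .z))))
(.b (.l 42) (.b (.l 42) (.b .z (.a .z (.l 45))))))) (.b (.a (.b (.a (.b (.a (.l 41) .z) .z) (.b (.a .z (.l 42)) (.l 42))) (.l 42)) (.l 42)) (.b (.l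
42) (.b (.b (.a (.l 42) .z) (.a .z (.a .z (.l 45)))) (.b (.a (.a .z (.l 45)) (.l 45)) (.l 45)))))) (.a (.b (.b (.b (.b (.a (.a .z (.l 45)) (.l 45))
(.a (.l 45) (.a (.l 45) .z))) (.b (.a (.a (.l 45) .z) .z) (.a .z (.l 49)))) (.l 49)) (.a (.b (.l 49) (.a (.b (.a .z (.l 49)) .z) (.l 49))) (.l 49)))
(.b (.b (.b (.b (.a (.l 45) .z) (.a .z (.a .z (.l 49)))) (.l 49)) (.l 49)) (.b (.a (.l 49) (.b (.l 49) (.a (.l 49) (.b (.l 49) .z)))) (.a (.b (.l 49)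
(.a (.l 49) (.b (.l 49) .z))) (.b (.a (.b (.l 49) .z) .z) (.a .z (.l 50)))))))) (.b (.a (.b (.a (.b (.a (.b (.a (.l 48) .z) (.l 48)) (.b .z (.a (.l
48) .z))) (.b (.b (.l 48) .z) (.b (.l 51) (.a (.l 51) .z)))) (.b (.a (.b (.l 49) .z) (.b (.l 49) (.b (.l 49) .z))) (.a (.b .z (.b (.l 51) .z)) .z)))
(.b (.a (.b (.b .z (.l 55)) (.a (.l 55) .z)) (.b (.a .z (.b .z (.l 53))) (.a (.b .z (.l 53)) (.l 53)))) (.a .z (.b (.a .z (.b (.l 53) .z)) .z)))) (.b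
(.a (.b (.b (.a (.b (.l 49) .z) .z) (.a .z (.b (.l 53) .z))) (.a (.b (.b .z (.l 57)) .z) (.l 57))) (.b (.b (.b .z (.l 53)) (.b (.a (.l 53) .z) .z))
(.l 57))) (.a (.b (.a (.b (.a (.l 53) .z) (.l 53)) (.b (.a .z (.l 57)) .z)) (.b (.a .z (.b .z (.l 56))) (.l 56))) (.b (.a (.b (.l 57) (.a .z (.l 57)))
(.l 57)) (.a (.b .z (.l 56)) (.b (.a .z (.l 57)) .z)))))) (.a (.b (.b (.a (.b .z (.a (.b (.l 56) .z) .z)) (.b (.a .z (.l 56)) (.l 56))) (.a (.b (.a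
(.b .z (.l 56)) (.l 56)) (.b .z (.a .z (.l 59)))) (.b (.b (.l 56) (.a (.l 56) .z)) .z))) (.b (.b (.b (.a .z (.a .z (.l 63))) (.l 63)) (.l 63)) (.a (.b
(.l 63) (.a .z (.l 63))) (.b (.l 63) (.a (.b (.l 63) .z) .z))))) (.b (.a (.b (.l 56) (.b (.b (.l 56) .z) (.b (.a (.l 59) .z) .z))) (.b (.a (.l 56) (.b
(.a (.l 56) .z) (.l 56))) (.b (.b .z (.a .z (.l 59))) (.b .z (.l 63))))) (.b (.a (.b (.l 63) (.a (.l 63) (.b (.l 63) .z))) (.b (.a (.b (.l 63) .z) .z)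
(.a .z (.l 61)))) (.a (.b (.a .z (.b .z (.l 61))) (.a (.b .z (.l 61)) (.b (.l 61) .z))) (.b (.a (.l 61) .z) (.a .z (.b .z (.l 64)))))))))) (.b (.a (.b
(.b (.l 42) (.b (.b (.l 42) (.b (.a (.l 42) .z) (.a .z (.a .z (.l 45))))) (.b (.b (.a (.a .z (.l 45)) (.l 45)) (.l 45)) (.b (.a (.l 45) .z) (.a .z (.a
.z (.l 49))))))) (.b (.b (.b (.b (.a (.a .z (.l 49)) (.l 49)) (.l 49)) (.l 49)) (.a (.l 49) (.b (.a (.l 49) .z) (.a .z (.b .z (.l 50)))))) (.b (.a (.b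
(.a (.b (.l 49) .z) .z) (.a .z (.l 50))) (.b (.a (.b .z (.l 50)) (.l 50)) (.l 50))) (.b (.l 50) (.b (.a (.l 50) .z) (.a .z (.a .z (.l 53)))))))) (.b
(.a (.b (.l 42) (.b (.b (.b (.l 42) .z) (.b (.a .z (.l 45)) (.l 45))) (.b (.b (.l 45) .z) (.b (.a .z (.l 49)) (.l 49))))) (.b (.a (.b (.a (.b .z (.l
42)) .z) (.a (.l 42) (.b .z (.l 42)))) (.b (.l 51) (.a .z (.b (.l 51) .z)))) (.a (.b (.b .z (.l 45)) .z) (.b (.a (.b .z (.l 45)) (.b .z (.l 45))) (.b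
.z (.b .z (.l 50))))))) (.b (.b (.a (.b (.a (.l 49) .z) (.a .z (.b .z (.l 50)))) (.b (.a (.b .z (.l 50)) (.l 50)) (.l 50))) (.a (.b (.a (.b .z (.l
50)) (.l 50)) (.l 50)) (.l 50))) (.b (.l 50) (.b (.b (.a (.l 50) .z) (.a .z (.a .z (.l 53)))) (.b (.a (.a .z (.l 53)) (.l 53)) (.a (.l 53) .z)))))))
(.b (.b (.a (.b (.b (.b (.a (.a .z (.l 53)) (.l 53)) (.a (.a (.l 53) .z) .z)) (.b (.a .z (.l 57)) (.l 57))) (.l 57)) (.b (.a (.b (.b .z (.a .z (.l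
57))) (.l 57)) (.b (.b (.a .z (.l 57)) (.l 57)) (.a (.l 57) (.b (.l 57) .z)))) (.a (.b (.l 57) (.a (.l 57) .z)) (.b (.a (.b (.l 57) .z) .z) (.a (.b .z
(.l 58)) (.l 58)))))) (.a (.b (.a (.l 57) (.b (.l 57) (.a (.b (.l 57) .z) .z))) (.a (.b (.a (.l 57) (.b (.l 57) .z)) .z) (.b .z (.b (.a (.l 61) .z)
.z)))) (.b (.a (.b (.a .z (.b .z (.l 58))) (.a (.b .z (.l 58)) (.l 58))) (.b (.l 58) (.b (.l 58) .z))) (.b (.b (.a .z (.a .z (.l 61))) (.a (.l 61)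
.z)) (.b (.a .z (.a .z (.l 65))) (.l 65)))))) (.a (.b (.a (.b (.a (.b .z (.a (.l 56) .z)) (.b (.b .z (.l 65)) (.a .z (.l 65)))) (.a .z (.b .z (.b .z
(.l 61))))) (.b (.l 65) (.a (.b (.a .z (.l 65)) .z) (.l 65)))) (.a (.b (.b (.a (.b .z (.l 61)) (.b (.l 61) .z)) (.a (.b (.l 61) .z) .z)) (.b (.a (.b
.z (.l 64)) (.l 64)) (.l 64))) (.b (.a (.b .z (.l 64)) (.b .z (.a (.l 64) .z))) (.b (.l 64) (.b (.l 64) .z))))) (.b (.b (.a (.l 65) (.b (.l 65) (.a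
(.l 65) (.b (.l 65) .z)))) (.a (.b (.l 65) (.a (.b (.l 65) .z) .z)) .z)) (.a (.b (.a .z (.b .z (.l 73))) (.a .z (.b (.l 73) .z))) (.b (.b (.b .z (.l
73)) (.l 73)) (.b (.l 73) (.a (.l 73) .z)))))))))

theorem vQ165 : ev Q165 I5_14 I6_61 = 326631913087311 := by decide +kernel

noncomputable def Q56 : QT :=
(.a (.b (.b (.a (.b (.a (.b (.b (.b (.a (.l 51) .z) .z) (.l 56)) (.l 56)) (.b (.b .z (.l 56)) (.a (.l 56) (.b (.a (.l 56) .z) .z)))) (.a (.b (.a (.b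
.z (.l 60)) (.b (.b .z (.l 60)) (.a (.l 60) .z))) (.a (.b (.l 60) .z) (.b .z (.a .z (.l 42))))) (.b .z (.l 42)))) (.b (.a (.b (.a .z (.b .z (.b .z (.l
39)))) (.a (.b (.a .z (.l 39)) (.l 39)) (.l 39))) (.b (.b (.l 38) (.b .z (.a (.l 39) .z))) (.l 39))) (.a (.b (.a (.b .z (.a .z (.l 45))) (.b .z (.l
45))) (.a (.b .z (.l 42)) (.b (.a .z (.l 45)) .z))) (.b (.b (.b .z (.a .z (.l 44))) (.b .z (.l 45))) (.a (.b (.l 45) (.a .z (.l 45))) (.l 45)))))) (.a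
(.b (.a (.b (.a (.b .z (.a .z (.l 43))) (.b (.b .z (.l 43)) (.l 43))) (.b (.b (.l 43) .z) (.a .z (.b .z (.l 49))))) (.b (.b (.b (.a .z (.l 42)) .z)
(.l 43)) (.b (.b (.l 43) .z) (.b .z (.a (.l 49) .z))))) (.b (.a (.b (.a (.b .z (.l 46)) .z) (.a (.l 46) (.b .z (.l 46)))) (.b (.l 49) (.a .z (.l
49)))) (.a (.b (.b (.a .z (.l 46)) .z) (.b (.l 47) .z)) .z))) (.b (.a (.b (.b (.b (.l 42) (.a .z (.l 42))) (.b .z (.a (.l 43) .z))) (.b (.b (.l 43)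
.z) (.b (.l 48) .z))) (.b (.a .z (.b (.l 45) .z)) (.a (.b .z (.b (.l 48) .z)) .z))) (.a (.b (.a (.l 49) (.b (.l 49) (.a (.l 49) .z))) (.a (.b (.l 49)
.z) (.b .z (.a .z (.l 47))))) (.b (.a .z (.b (.a .z (.l 43)) .z)) (.l 47)))))) (.b (.a (.b (.a (.b (.b (.b (.a .z (.l 52)) .z) (.l 53)) (.a (.b (.b
(.l 53) .z) .z) (.b (.l 53) .z))) (.b (.a (.b (.b (.l 52) .z) (.l 53)) .z) (.a (.b (.a (.l 53) .z) .z) (.b .z (.l 51))))) (.a (.b (.a (.b (.b .z (.l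
56)) .z) (.b .z (.a .z (.l 51)))) (.a (.b .z (.l 55)) (.b .z (.l 55)))) (.b (.l 51) (.b (.b .z (.a .z (.l 56))) (.b .z (.l 55)))))) (.b (.a (.b (.a
(.b .z (.l 47)) (.l 47)) (.b .z (.b (.a (.l 51) .z) (.l 51)))) (.b (.b (.l 47) (.b (.l 47) (.a (.l 47) .z))) (.b (.b .z (.l 52)) (.b (.a .z (.l 52))
.z)))) (.b (.b (.l 51) (.b (.l 51) (.a (.l 51) (.a (.l 51) .z)))) (.b (.b .z (.l 56)) (.a (.b (.a .z (.l 56)) .z) (.b (.l 56) (.a .z (.l 56))))))))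
(.a (.b (.b (.b (.l 55) (.b (.l 55) .z)) (.b (.a (.b (.a .z (.l 60)) .z) (.b (.l 60) (.a .z (.l 60)))) (.a (.l 59) (.b .z (.l 59))))) (.b (.b (.b (.l
59) .z) (.a (.b (.l 64) .z) (.l 64))) (.b (.a (.b (.a (.l 63) .z) (.l 63)) .z) (.b .z (.l 68))))) (.b (.a (.b (.b (.l 55) (.b (.l 55) .z)) (.b (.l 60)
.z)) (.b (.b (.b .z (.a (.l 55) .z)) (.b .z (.a .z (.l 60)))) (.a (.b (.l 60) .z) (.b (.l 60) .z)))) (.a (.b (.b (.b (.l 59) .z) (.l 64)) .z) (.b .z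
(.a (.b .z (.a .z (.l 57))) (.b (.a .z (.l 57)) (.l 57))))))))) (.b (.b (.a (.b (.a (.b (.a (.b (.l 38) (.b (.l 38) .z)) (.b (.a (.l 38) .z) (.l 38)))
(.b (.b .z (.a (.l 39) .z)) (.l 39))) (.b (.a (.b .z (.a (.l 38) .z)) (.b (.l 41) (.a .z (.l 41)))) (.a (.b (.b (.l 38) .z) (.b .z (.l 39))) .z))) (.a
(.b (.b (.b .z (.l 44)) (.b .z (.a (.l 45) .z))) (.a (.l 45) (.b (.l 45) (.a (.l 45) .z)))) (.b (.a (.b (.b .z (.l 44)) .z) .z) (.a .z (.b (.l 39)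
.z))))) (.b (.a (.b (.a (.l 41) (.b (.l 41) (.a (.l 41) .z))) (.a (.b (.a (.l 41) .z) .z) (.b .z (.l 39)))) (.b (.a (.b .z (.a .z (.l 39))) (.b .z (.l
39))) (.l 39))) (.a (.b (.a (.b (.a .z (.l 39)) (.l 39)) (.l 39)) (.b (.l 39) (.b .z (.l 44)))) (.b (.l 39) (.b (.l 39) (.b .z (.l 44))))))) (.a (.b
(.a (.b (.a (.b (.l 45) .z) (.b .z (.a .z (.l 43)))) (.a (.b (.a .z (.l 43)) (.l 43)) (.l 43))) (.b (.b (.b (.a (.l 43) .z) (.l 43)) (.l 43)) (.l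
43))) (.b (.b (.l 43) (.a (.b .z (.a .z (.l 48))) (.b .z (.l 48)))) (.b (.a (.b .z (.a (.l 47) .z)) (.b (.l 48) (.a .z (.l 48)))) (.a (.l 47) (.b .z
(.a (.l 47) .z)))))) (.b (.b (.b (.a (.b (.a .z (.l 44)) .z) (.l 44)) (.a (.b (.a (.l 43) .z) (.l 43)) (.a .z (.b (.l 44) .z)))) (.a (.l 43) (.b (.a
(.l 43) (.b .z (.l 43))) (.l 43)))) (.b (.b (.b (.l 43) (.a (.a (.l 43) .z) .z)) (.b (.a .z (.l 48)) (.l 48))) (.b (.l 48) (.a (.b (.l 48) .z) (.b (.l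
48) (.a .z (.l 48))))))))) (.b (.a (.b (.b (.b (.l 47) (.b (.l 47) .z)) (.b (.l 52) (.a (.b (.l 52) (.a .z (.l 52))) (.l 52)))) (.a (.b (.b (.b .z (.a
(.l 51) .z)) (.b (.l 51) .z)) (.l 56)) (.b .z (.a (.l 56) (.b (.a (.l 56) .z) .z))))) (.b (.a (.b (.b (.b .z (.a (.l 47) .z)) (.b (.l 47) .z)) (.l
52)) (.b (.a .z (.b (.b .z (.l 49)) .z)) (.a (.b (.l 52) .z) (.b .z (.a .z (.l 48)))))) (.a (.b (.a (.b (.b (.l 52) .z) .z) .z) (.a (.b .z (.l 48))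
(.l 48))) (.b (.a (.b (.a .z (.l 48)) (.l 48)) (.l 48)) (.a (.b (.l 48) (.a (.l 48) .z)) .z))))) (.a (.b (.a (.b (.a (.b .z (.b .z (.l 60))) .z) (.a
(.b (.a (.l 60) .z) .z) (.b (.a .z (.l 55)) (.l 55)))) (.b (.a .z (.b (.a .z (.l 48)) (.b (.l 48) .z))) (.b (.b (.a (.l 55) .z) (.l 55)) (.l 55))))
(.a (.b (.a (.b (.a .z (.l 55)) .z) (.b (.l 55) .z)) (.a (.l 57) (.b .z (.a (.l 57) .z)))) (.b (.b (.l 55) (.b (.l 55) .z)) (.a (.b (.l 62) .z) (.b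
(.l 62) .z))))) (.b (.a (.b (.a (.b (.l 48) (.a (.l 48) .z)) (.b (.a (.l 48) .z) .z)) (.b (.b .z (.a (.l 55) .z)) (.l 55))) (.b (.a (.b .z (.b .z (.l
55))) (.b .z (.b .z (.l 55)))) (.a (.b (.b (.l 55) .z) .z) (.b (.a (.l 55) .z) .z)))) (.a (.b (.a (.b (.l 55) (.b (.l 55) .z)) (.b (.a (.l 55) .z)
.z)) (.a (.b .z (.a .z (.l 59))) (.b (.a .z (.l 53)) .z))) (.b (.a (.b .z (.l 53)) (.l 53)) (.a (.b (.l 53) .z) (.b (.a (.l 53) .z) .z)))))))))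

theorem vQ56 : ev Q56 I5_3 I6_61 = 274656317143487 := by decide +kernel

noncomputable def Q66 : QT :=
(.a (.b (.a (.b (.b (.a .z (.a .z (.b (.a .z (.b (.l 254) .z)) .z))) (.a (.b (.a (.b .z (.a (.b (.a (.l 46) .z) (.l 46)) .z)) .z) (.a (.b (.a (.l 46)
(.b (.a (.l 46) .z) (.l 46))) (.l 46)) (.b .z (.a (.b (.a (.l 46) .z) (.l 46)) .z)))) .z)) (.a (.b (.a (.l 46) (.b (.a (.l 46) (.b (.a (.l 46) (.b .z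
(.l 46))) (.l 46))) (.l 46))) (.l 46)) (.b (.a (.b (.a (.b .z (.a (.l 46) (.b .z (.l 46)))) .z) (.a (.l 46) (.b (.a (.l 46) (.b .z (.l 46))) (.l
46)))) (.b .z (.a (.b .z (.a (.l 46) .z)) .z))) (.a (.l 46) (.b (.a (.l 46) (.b (.a (.b .z (.l 46)) .z) (.l 46))) (.l 46)))))) (.b (.a .z (.a (.b (.a
(.b (.b (.a .z (.l 86)) .z) .z) (.b (.b (.l 86) .z) .z)) .z) (.b (.b (.b (.l 86) (.b (.b (.l 86) .z) .z)) .z) (.a (.b .z (.a .z (.b .z (.l 72)))) (.b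
.z (.b (.b .z (.l 72)) (.l 72))))))) (.a (.b .z (.a (.b .z (.a (.b (.a (.l 46) (.b .z (.l 46))) (.l 46)) (.b .z (.a (.b .z (.l 46)) .z)))) .z)) (.a .z
(.b (.a .z (.b (.l 72) (.a .z (.b (.l 72) .z)))) (.a .z (.b .z (.l 214)))))))) (.a (.l 46) (.a (.b (.b (.a (.b (.a (.l 46) (.b (.a (.l 46) (.b .z (.l
46))) (.l 46))) (.l 46)) (.b (.a (.b .z (.a (.l 46) .z)) .z) (.a (.l 46) (.b .z (.a (.l 46) .z))))) (.l 46)) (.l 46)) (.b (.a (.b (.b .z (.a (.b (.l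
142) .z) (.a (.l 142) .z))) (.a (.b (.a (.b .z (.l 46)) .z) (.l 46)) (.b .z (.a (.b .z (.l 46)) .z)))) (.b (.a (.a .z (.b (.l 214) .z)) (.b .z (.a .z
(.l 213)))) (.a (.b (.a .z (.l 213)) (.a .z (.l 213))) (.l 213)))) (.a (.l 46) (.b (.a (.b (.a (.b .z (.a (.l 46) .z)) .z) (.a (.l 46) (.b (.a (.l 46)
.z) (.l 46)))) (.b (.l 213) (.a (.b .z (.a (.l 46) .z)) .z))) (.a (.l 46) (.b (.a (.l 46) (.b .z (.a (.l 46) .z))) (.l 46))))))))) (.a (.b (.a (.a (.b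
(.b (.b (.b (.a (.l 86) (.b .z (.l 86))) (.b (.l 86) (.a .z (.l 86)))) .z) (.b .z (.b (.b (.a .z (.l 72)) (.l 72)) (.l 72)))) (.a (.b (.b (.l 72) (.b
(.l 72) (.b (.l 72) .z))) .z) (.b (.l 72) .z))) (.b (.b (.b (.b .z (.a (.l 86) .z)) (.b (.b (.l 86) .z) .z)) (.b (.b .z (.b .z (.l 72))) (.l 72))) (.b
(.l 72) (.b (.b (.b (.l 72) .z) .z) .z)))) (.b (.b .z (.b (.b .z (.a (.a (.l 72) (.a (.l 72) .z)) .z)) (.a (.a (.l 72) (.a (.l 72) (.a (.l 72) .z)))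
.z))) (.b (.a (.a (.l 72) (.a (.l 72) (.a (.l 72) .z))) .z) (.b (.b (.a (.a (.l 72) (.a (.l 72) .z)) .z) .z) .z)))) (.a (.b (.a (.a (.b (.a (.b .z (.l
213)) .z) (.l 213)) (.b .z (.a (.b .z (.l 213)) .z))) (.a (.b .z (.a .z (.b .z (.l 200)))) (.b .z (.b .z (.l 200))))) (.a (.b (.l 213) (.a (.b (.a .z
(.l 213)) (.a (.b (.a (.l 46) .z) (.l 46)) .z)) (.l 213))) (.a (.b (.a (.b .z (.l 213)) .z) (.a (.l 213) (.b .z (.l 213)))) (.b (.l 200) (.a .z (.l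
200)))))) (.a (.a (.b (.b .z (.b .z (.l 200))) (.l 200)) (.a (.b (.b .z (.b .z (.l 200))) (.l 200)) (.a (.b .z (.l 200)) .z))) .z))) (.b .z (.a .z (.b
.z (.a .z (.b .z (.a (.b .z (.a .z (.l 220))) (.b .z (.l 220))))))))))

theorem vQ66 : ev Q66 I4_3 I5_9 = 751969115970034 := by decide +kernel

noncomputable def Q19 : QT :=
(.a (.l 39) (.a (.b (.b (.a (.b (.a (.l 39) (.b (.a (.b (.a (.l 39) (.b .z (.a (.l 39) .z))) (.l 39)) (.b (.a .z (.l 132)) (.a (.b (.a (.l 39) .z) (.l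
39)) .z))) (.a (.l 39) (.b (.a (.l 39) (.b (.a (.l 39) .z) (.l 39))) (.l 39))))) (.l 39)) (.b (.a (.b (.l 132) (.a (.b (.a (.b .z (.a (.l 39) .z)) .z)
(.a (.l 39) (.b .z (.l 39)))) (.b (.l 132) (.a .z (.l 132))))) (.b (.a (.b .z (.l 132)) .z) (.l 132))) (.a (.b (.a (.l 39) (.b (.a (.b (.a (.l 39) .z)
(.l 39)) .z) (.a (.l 39) (.b (.a (.l 39) .z) (.l 39))))) (.l 39)) (.b (.a (.b (.l 132) (.a (.b .z (.a (.l 39) .z)) .z)) (.l 132)) (.a (.b (.a (.l 39)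
(.b .z (.a (.l 39) .z))) (.l 39)) (.b (.a .z (.l 132)) (.a (.b .z (.a (.l 39) .z)) .z))))))) (.a (.l 39) (.b (.a (.l 39) (.b (.a (.l 39) (.b (.a (.l
39) (.b .z (.a (.l 39) .z))) (.l 39))) (.l 39))) (.l 39)))) (.l 39)) (.b (.a (.b (.b (.a (.b (.b (.a .z (.b (.a .z (.b (.a .z (.a .z (.l 14))) .z))
.z)) .z) (.a (.b .z (.a (.l 132) .z)) .z)) (.b (.a (.b (.a (.b (.b (.l 14) (.a (.a .z (.l 14)) (.l 14))) (.a .z (.b (.a .z (.l 14)) .z))) (.b (.l 14)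
(.a (.b (.l 14) (.a .z (.l 14))) (.l 14)))) (.a .z (.b (.a .z (.b (.a .z (.l 14)) .z)) .z))) (.b (.l 14) (.a (.b (.a (.b (.l 14) (.a .z (.l 14))) (.l
14)) (.a .z (.b (.a .z (.l 14)) .z))) (.b (.l 14) (.a (.b (.l 14) (.a .z (.l 14))) (.l 14)))))) (.a .z (.b (.a .z (.b (.a .z (.b (.a .z (.l 14)) .z))
.z)) .z)))) (.a (.b (.a (.l 132) (.b (.a (.l 132) .z) (.l 132))) (.l 132)) (.b .z (.a (.l 132) (.b .z (.a (.l 132) .z)))))) (.a (.b (.a (.b (.b (.a .z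
(.l 132)) (.a (.b .z (.a (.l 39) .z)) .z)) (.b (.a (.l 39) (.a (.b .z (.l 39)) .z)) (.l 39))) (.b (.l 132) (.a (.b .z (.a (.b .z (.l 39)) .z)) (.b (.l
132) .z)))) (.a (.l 39) (.b (.a (.l 39) (.b (.a (.b .z (.l 39)) .z) (.l 39))) (.l 39)))) (.b (.l 132) (.a (.b (.a (.b .z (.a (.b .z (.l 39)) .z)) (.b
(.l 132) .z)) (.a (.l 39) (.b (.a (.b .z (.l 39)) .z) (.l 39)))) (.b (.l 132) (.a .z (.l 132))))))) (.b (.b (.a (.b (.l 14) (.a (.b (.a (.b (.l 14)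
(.a .z (.b (.l 14) .z))) (.l 14)) (.a .z (.b (.a .z (.b (.l 14) (.a .z (.l 14)))) .z))) (.b (.l 14) (.a (.b (.l 14) (.a (.b (.a .z (.l 14)) .z) (.b
(.l 14) (.a .z (.l 14))))) (.l 14))))) (.l 14)) (.a (.b (.a .z (.b (.a .z (.b (.a (.b (.l 14) .z) (.l 14)) .z)) .z)) (.a .z (.a (.l 272) .z))) (.b (.a
(.b (.a (.b (.l 14) (.a (.b (.l 14) (.a .z (.l 14))) (.l 14))) (.l 14)) (.a (.b (.a .z (.b (.a .z (.l 14)) .z)) .z) (.b (.l 14) (.a .z (.b (.l 14) (.a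
.z (.l 14))))))) (.l 14)) (.a .z (.b (.a (.b (.a (.b (.a .z (.l 14)) .z) (.l 14)) .z) (.b (.l 14) (.a (.b (.l 14) (.a .z (.l 14))) (.l 14)))) (.a .z
(.b (.a .z (.b (.l 14) .z)) .z))))))) (.b (.a (.b (.a (.b .z (.l 132)) .z) (.a (.l 132) (.b (.a (.l 132) .z) (.l 132)))) .z) (.a (.l 132) (.b (.a (.b
(.a (.l 132) .z) (.l 132)) .z) (.a (.a (.b (.l 132) .z) .z) .z)))))) (.a (.b (.a (.l 39) (.b (.a (.l 39) (.b (.a (.b (.a (.l 39) (.b .z (.l 39))) (.l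
39)) (.b .z (.a (.l 39) (.b .z (.l 39))))) (.l 39))) (.l 39))) (.l 39)) (.b (.a (.b (.a (.b (.a (.b (.l 132) .z) (.l 132)) (.a (.b (.a (.b .z (.l 39))
.z) (.l 39)) (.b .z (.a (.b .z (.l 39)) .z)))) (.b (.a (.b (.l 132) .z) .z) (.a (.b .z (.l 148)) (.l 148)))) (.a (.b (.a (.l 39) (.b (.a (.l 39) (.b
.z (.l 39))) (.l 39))) (.l 39)) (.b (.a (.b .z (.a (.l 39) (.b .z (.l 39)))) (.b (.l 148) .z)) (.a (.l 39) (.b (.a (.b .z (.l 39)) .z) (.l 39))))))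
(.b (.a (.b (.a (.b .z (.l 148)) (.l 148)) (.l 148)) (.a (.b (.b .z (.l 148)) (.a (.l 148) .z)) (.b .z (.a .z (.b .z (.l 121)))))) (.a (.b (.l 148)
.z) (.b (.a .z (.b (.a (.l 121) .z) .z)) (.a (.b .z (.a .z (.l 83))) (.b (.a .z (.l 83)) (.l 83))))))) (.a (.l 39) (.b (.a (.b (.a (.b (.a (.l 39) (.b
.z (.l 39))) (.l 39)) (.b .z (.a (.b .z (.l 39)) .z))) (.l 39)) (.b (.a (.b (.l 83) (.a .z (.l 83))) (.l 83)) (.a (.b .z (.a (.l 39) .z)) (.b (.l 83)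
(.a .z (.l 83)))))) (.a (.l 39) (.b (.a (.l 39) (.b (.a (.b .z (.l 39)) .z) (.a (.l 39) (.b .z (.l 39))))) (.l 39))))))))))

theorem vQ19 : ev Q19 I3_0 I5_11 = 3594980093702722 := by decide +kernel

noncomputable def Q152 : QT :=
(.b (.a (.b (.b (.l 19) (.b (.a (.b (.l 19) (.a (.b (.l 19) (.a (.b (.l 19) (.a .z (.l 19))) (.l 19))) (.l 19))) (.l 19)) (.a (.b (.a (.b (.a (.b .z
(.a (.l 21) .z)) (.b (.l 19) (.a .z (.l 19)))) (.a (.l 21) (.b .z (.a (.l 21) .z)))) (.b (.l 19) (.a (.b (.l 19) (.a .z (.l 19))) (.l 19)))) (.a (.b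
(.l 21) (.b (.a (.l 21) (.a (.l 21) .z)) .z)) (.b (.a (.b .z (.a (.l 21) .z)) (.b (.l 19) .z)) (.a (.b .z (.l 21)) (.b .z (.l 21)))))) (.b (.l 19) (.a
(.a (.b (.l 19) (.a .z (.l 19))) (.l 19)) (.l 19)))))) (.b (.a (.b (.b (.b (.a (.b (.a (.a .z (.l 21)) (.l 21)) (.l 21)) (.l 21)) (.l 21)) (.l 21))
(.l 21)) (.b (.a (.b (.a (.b (.a (.b .z (.l 21)) .z) (.l 21)) (.b (.a (.b (.l 19) .z) (.l 19)) (.a (.b .z (.l 21)) .z))) (.l 21)) (.b (.a (.b (.l 19)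
(.a (.b (.l 19) .z) (.l 19))) (.l 19)) (.a (.b (.a (.b .z (.l 21)) .z) (.l 21)) (.b (.a (.b (.l 19) .z) (.l 19)) (.a (.b .z (.l 21)) .z))))) (.l 21)))
(.b (.l 21) (.b (.a (.l 21) (.b (.a (.l 21) (.b (.l 21) (.a (.l 21) .z))) (.a (.b (.l 21) (.a (.a (.l 21) .z) .z)) (.b (.a .z (.a .z (.l 25))) (.a (.a
.z (.l 25)) (.l 25)))))) (.a (.b (.a (.b (.l 21) (.a (.l 21) (.a (.l 21) .z))) (.b (.a (.l 21) .z) (.a .z (.a .z (.l 25))))) (.a (.b .z (.a (.a .z (.l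
25)) (.l 25))) (.l 25))) (.b (.a (.b (.a .z (.l 25)) (.l 25)) (.l 25)) (.l 25))))))) (.b (.l 19) (.a (.b (.b (.a (.b (.l 19) (.a (.b (.l 19) (.a (.b
(.l 19) .z) (.l 19))) (.l 19))) (.l 19)) (.a (.b (.a (.b (.a (.b .z (.l 21)) .z) (.l 21)) (.b (.a (.b (.l 19) .z) (.l 19)) (.a (.b .z (.l 21)) .z)))
(.l 21)) (.b (.a (.b (.l 19) (.a (.b (.l 19) .z) (.l 19))) (.l 19)) (.a (.b (.a (.b .z (.l 21)) .z) (.l 21)) (.b (.a (.b (.l 19) .z) (.l 19)) (.a .z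
(.b (.l 19) .z))))))) (.b (.a (.l 21) (.b (.a (.l 21) (.b (.a (.l 21) (.b .z (.l 21))) (.l 21))) (.b (.l 21) (.b (.a (.l 21) (.a (.l 21) .z)) .z))))
(.b (.b (.a (.b (.a (.a (.l 21) .z) .z) (.a .z (.l 25))) (.b (.a (.a .z (.l 25)) (.l 25)) (.l 25))) (.l 25)) (.l 25)))) (.b (.a (.l 19) (.b (.l 19)
(.a (.l 19) (.b (.a (.l 19) (.b (.l 19) (.a (.l 19) .z))) (.a (.b (.a (.l 19) .z) .z) (.b .z (.l 22))))))) (.a (.b (.a (.b (.b (.a .z (.b (.l 19) .z))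
(.a (.l 21) (.b .z (.l 21)))) (.b (.l 21) (.b .z (.l 25)))) (.b (.b (.l 19) (.a .z (.b (.l 19) .z))) (.a (.b (.b (.l 21) .z) (.b .z (.l 25))) .z)))
(.a (.b (.a (.l 25) (.b (.l 25) (.a (.l 25) .z))) (.a (.b (.l 25) .z) (.b .z (.a .z (.l 22))))) (.b (.a (.b .z (.a .z (.l 22))) (.b (.a .z (.l 22))
(.l 22))) (.l 22)))) (.b (.a (.b (.a (.b (.l 19) (.a (.l 19) .z)) (.b .z (.a .z (.l 22)))) (.a (.b .z (.l 22)) (.l 22))) (.b (.a (.b (.a .z (.l 22))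
(.l 22)) (.l 22)) (.l 22))) (.l 22))))))) (.a (.b (.a (.b (.l 25) (.b (.l 25) (.b (.l 25) (.a (.b (.l 25) (.a (.b (.a .z (.l 25)) .z) (.l 25))) (.l
25))))) (.b (.l 25) (.a (.l 25) (.b (.a (.l 25) (.b (.l 25) (.a (.l 25) (.b (.l 25) (.a (.l 25) .z))))) (.a (.b (.l 25) (.a (.l 25) (.b (.a (.l 25)
.z) .z))) (.b (.a (.b (.l 25) (.a (.l 25) .z)) (.b .z (.a .z (.l 22)))) (.a (.b .z (.l 22)) (.l 22)))))))) (.a (.b (.a (.b (.b (.b (.a (.b (.a (.l 27)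
.z) (.l 27)) (.b .z (.a (.l 27) .z))) (.l 27)) (.l 27)) (.b (.b (.b (.l 27) .z) (.b (.a (.a .z (.l 31)) (.l 31)) (.l 31))) (.l 31))) (.b (.b (.b (.a
(.b (.l 25) (.a .z (.l 25))) (.l 25)) (.a (.b .z (.a (.l 27) .z)) (.b (.l 25) (.a .z (.l 25))))) (.b (.a (.l 27) (.b .z (.l 27))) (.b (.l 27) (.a (.l
27) (.a (.l 27) .z))))) (.a (.b (.b (.b .z (.a .z (.l 31))) (.l 31)) (.l 31)) (.b (.b (.b .z (.l 31)) (.l 31)) (.a (.l 31) (.b (.l 31) (.a (.l 31)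
.z))))))) (.a (.b (.l 31) (.a (.l 31) (.b (.a (.l 31) (.b (.l 31) (.a (.l 31) .z))) (.a (.b (.l 31) (.a (.l 31) .z)) (.b .z (.a .z (.l 28))))))) (.b
(.a (.b (.l 31) (.a (.l 31) (.b (.a (.l 31) .z) .z))) (.b (.a (.b (.l 31) (.a (.l 31) .z)) (.b .z (.a .z (.l 22)))) (.a (.b .z (.l 22)) (.l 22)))) (.a
(.b (.a (.b (.a (.l 31) .z) .z) .z) (.l 28)) (.b (.a (.b (.b (.l 22) .z) .z) (.b (.l 22) .z)) (.a (.b .z (.a (.l 28) .z)) .z)))))) (.b (.a (.b (.a (.b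
(.l 25) (.b (.b (.a .z (.l 25)) .z) (.b (.a (.l 27) .z) .z))) (.b (.a (.l 25) (.b (.l 25) (.a (.l 25) .z))) (.a (.b (.l 25) .z) (.b .z (.a .z (.l
22)))))) (.a (.b (.a (.l 31) (.b (.a (.l 31) .z) .z)) (.a (.b (.a (.l 31) .z) .z) (.b (.a .z (.l 22)) (.l 22)))) (.b (.a (.b (.a .z (.l 22)) (.l 22))
(.l 22)) (.l 22)))) (.b (.a (.b (.a (.b (.a (.l 25) .z) .z) (.b (.a .z (.l 22)) (.l 22))) (.l 22)) (.l 22)) (.l 22))) (.a (.b (.l 22) (.a (.b (.b (.l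
22) (.b (.l 22) .z)) (.b .z (.a .z (.a .z (.l 32))))) (.b (.l 22) (.a (.b .z (.l 32)) .z)))) (.b (.a (.l 22) (.b (.a (.l 22) (.b (.l 22) (.a (.l 22)
.z))) (.a (.b (.a (.l 22) .z) .z) (.b .z (.l 29))))) (.a (.b (.a (.b (.l 22) (.a (.l 22) .z)) (.b .z (.a .z (.l 29)))) (.a (.b .z (.b .z (.l 29))) (.b
(.l 29) .z))) (.b (.a (.b (.a .z (.l 29)) (.l 29)) (.l 29)) (.b (.l 29) (.b (.l 29) (.a .z (.l 29))))))))))) (.b (.a (.b (.a (.b (.l 25) (.a (.l 25)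
(.b (.l 25) (.a (.b (.l 25) (.a (.l 25) .z)) (.b .z (.a .z (.l 22))))))) (.b (.a (.b (.l 25) (.a (.l 25) (.b (.l 25) (.a (.l 25) .z)))) (.b (.a (.b
(.l 25) (.a (.l 25) .z)) (.b (.a (.l 25) .z) .z)) (.a (.b .z (.a .z (.l 22))) (.l 22)))) (.a (.b (.a (.b (.a (.l 25) .z) .z) (.b .z (.l 22))) (.a (.b
(.a .z (.l 22)) (.l 22)) (.l 22))) (.l 22)))) (.a (.b (.a (.b (.a (.l 25) (.b (.l 25) .z)) (.a (.b (.a (.l 25) .z) .z) (.b (.a .z (.l 22)) (.l 22))))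
(.b (.a (.b .z (.a .z (.l 22))) (.l 22)) (.l 22))) (.l 22)) (.b (.l 22) (.a (.l 22) (.b (.l 22) (.a (.l 22) (.b (.l 22) .z))))))) (.b (.a (.b (.a (.b
(.a (.b (.a .z (.l 22)) (.l 22)) (.l 22)) (.l 22)) (.l 22)) (.l 22)) (.b (.l 22) (.a (.b (.l 22) (.a (.l 22) (.b (.l 22) (.a (.l 22) .z)))) (.b (.a
(.l 22) (.b (.a (.l 22) .z) .z)) .z)))) (.a (.b (.a (.l 22) (.b (.a (.l 22) (.b (.l 22) (.a (.l 22) .z))) (.a (.b (.l 22) .z) .z))) (.a (.b (.a (.b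
(.l 22) (.a (.l 22) .z)) (.b (.a (.l 22) .z) .z)) (.a .z (.a (.l 52) .z))) .z)) (.b (.a (.b (.a (.b (.a (.l 22) .z) .z) .z) .z) (.b (.a (.l 123) .z)
.z)) .z)))) (.a (.b (.a (.b (.l 22) (.a (.b (.l 22) (.a (.l 22) (.b (.a (.l 22) .z) .z))) (.b (.a (.b (.l 22) (.a (.l 22) .z)) (.b .z (.a .z (.l
29)))) (.a (.b .z (.l 29)) (.l 29))))) (.b (.a (.b (.a (.l 22) (.b (.l 22) (.a (.l 22) .z))) (.a (.b (.a (.l 22) .z) .z) (.b .z (.l 29)))) (.b .z (.l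
29))) (.a (.b (.a (.b (.a .z (.l 29)) (.l 29)) (.l 29)) (.l 29)) (.l 29)))) (.a (.b (.a (.b (.a (.b .z (.a .z (.l 29))) (.b (.a .z (.l 29)) (.l 29)))
(.l 29)) (.l 29)) (.a (.l 29) (.b (.l 29) (.a (.l 29) (.b (.l 29) .z))))) (.b (.a (.l 29) (.b (.l 29) (.a (.b (.l 29) (.a (.l 29) .z)) (.b .z (.a .z
(.l 29)))))) (.a (.b (.a (.b (.l 29) (.a (.l 29) .z)) (.b (.a (.l 29) .z) .z)) (.a (.b .z (.a .z (.l 29))) (.l 29))) (.b (.a (.b .z (.l 29)) (.l 29))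
(.l 29)))))) (.b (.a (.b (.b (.b .z (.b .z (.a (.a .z (.l 29)) (.l 29)))) (.l 29)) (.a (.b (.l 29) (.a (.l 29) (.b (.l 29) (.a (.l 29) .z)))) (.b (.a
(.l 29) (.b (.l 29) (.a (.l 29) .z))) (.a (.b (.a (.l 29) .z) .z) (.b .z (.l 26)))))) (.b (.a (.b (.b .z (.l 29)) (.a (.l 29) (.b (.l 29) .z))) (.b
(.a (.b .z (.l 29)) .z) (.a (.b .z (.a .z (.l 26))) (.b (.a .z (.l 26)) (.l 26))))) (.a (.b (.a (.b .z (.a .z (.l 26))) (.b (.a .z (.l 26)) (.l 26)))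
(.l 26)) (.l 26)))) (.a (.b (.a (.b (.a (.b (.l 29) .z) (.b .z (.a .z (.l 26)))) (.a (.b (.a .z (.l 29)) (.l 29)) (.b (.b .z (.l 29)) (.l 29)))) (.b
(.l 26) (.b (.b (.a .z (.l 26)) .z) (.b (.a (.l 29) .z) (.l 29))))) (.l 29)) (.b (.b (.l 26) (.b (.l 26) (.a (.b (.a .z (.l 26)) .z) (.l 26)))) (.b
(.b (.a (.b (.a (.l 29) .z) (.l 29)) (.b (.a .z (.l 26)) .z)) (.a (.l 29) (.a (.l 29) (.b .z (.l 29))))) (.l 29)))))))))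

theorem vQ152 : ev Q152 I5_12 I5_29 = 859734154055536 := by decide +kernel

noncomputable def Q231 : QT :=
(.b (.b (.a (.b (.a (.l 13) (.b (.l 13) (.a (.l 13) (.b (.a (.l 13) (.b (.l 13) (.a (.l 13) (.b (.l 13) (.a (.l 13) .z))))) (.a (.b (.a (.l 13) (.b
(.l 13) (.a (.l 13) .z))) (.a (.b (.l 13) .z) .z)) (.b (.a (.b (.a (.l 13) .z) .z) .z) (.l 47))))))) (.a (.b (.a (.l 13) (.b (.l 13) (.a (.b (.l 13)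
(.a (.l 13) (.b (.l 13) .z))) (.b (.a (.l 13) (.b (.l 13) .z)) .z)))) (.a (.b (.a (.b (.l 13) (.a (.l 13) (.b (.l 13) (.a (.l 13) .z)))) (.b (.a (.l
13) (.b (.l 13) (.a (.l 13) .z))) (.a (.b (.a (.l 13) .z) .z) .z))) (.a (.b (.a (.b (.l 13) .z) .z) (.a .z (.l 47))) (.l 47))) (.b (.a (.b (.a (.b (.a
(.l 13) .z) .z) .z) (.l 47)) (.l 47)) (.l 47)))) (.b (.a (.b (.a (.b (.l 13) (.a (.b (.l 13) (.a (.l 13) .z)) (.b (.a (.l 13) .z) .z))) (.b (.a (.b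
(.l 13) (.a (.l 13) .z)) .z) (.a .z (.l 47)))) (.a (.b (.a .z (.l 47)) (.l 47)) (.l 47))) (.b (.a (.b (.a .z (.l 47)) (.l 47)) (.l 47)) (.l 47))) (.l
47)))) (.b (.a (.b (.a (.b (.l 13) (.a (.l 13) (.b (.l 13) (.a (.b (.l 13) (.a (.l 13) .z)) (.b (.a (.l 13) .z) .z))))) (.b (.a (.b (.l 13) (.a (.l
13) (.b (.l 13) (.a (.l 13) .z)))) (.b (.a (.l 13) (.b (.l 13) (.a (.l 13) .z))) (.a (.b (.a (.l 13) .z) .z) .z))) (.a (.b (.a (.b (.l 13) .z) .z) (.a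
.z (.l 47))) (.l 47)))) (.a (.b (.a (.b (.a (.l 13) (.b (.l 13) .z)) .z) (.b (.a .z (.l 47)) (.l 47))) (.l 47)) (.l 47))) (.b (.a (.b (.a (.b .z (.l
47)) (.l 47)) (.l 47)) (.l 47)) (.l 47))) (.a (.l 47) (.b (.l 47) (.a (.l 47) (.b (.l 47) (.a (.l 47) (.b (.a (.l 47) .z) .z)))))))) (.a (.b (.l 47)
(.a (.b (.l 47) (.a (.b (.l 47) (.a (.l 47) (.b (.l 47) .z))) (.b (.a (.l 47) (.b (.a (.l 47) .z) (.a .z (.b .z (.l 19))))) (.a (.b .z (.a (.b .z (.l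
19)) (.l 19))) (.b (.a (.b .z (.l 19)) (.l 19)) (.l 19)))))) (.b (.a (.b (.l 47) (.a (.b (.l 47) (.a (.l 47) .z)) (.b (.a (.l 47) .z) (.a .z (.b .z
(.l 19)))))) (.b (.a (.b (.l 47) (.a (.l 47) .z)) (.b (.a (.l 47) .z) (.a .z (.b .z (.l 19))))) (.a (.b (.a .z (.b .z (.l 19))) (.l 19)) (.l 19))))
(.a (.b (.a (.b (.a .z (.b .z (.l 19))) (.l 19)) (.l 19)) (.l 19)) (.l 19))))) (.a (.b (.b (.a (.l 47) (.b (.l 47) (.a (.l 47) (.b (.l 47) (.a (.l 47)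
.z))))) (.a (.b (.l 47) (.a (.b (.l 47) .z) (.b .z (.a (.b .z (.l 19)) (.l 19))))) (.b (.a (.b (.l 47) .z) (.b (.a .z (.b .z (.l 19))) (.a (.b .z (.l
19)) (.l 19)))) (.a (.b (.a (.b .z (.l 19)) (.l 19)) (.l 19)) (.l 19))))) (.a (.b (.b (.a (.b (.a .z (.l 19)) (.l 19)) (.l 19)) (.l 19)) (.l 19)) (.b
(.l 19) (.a (.l 19) (.b (.l 19) (.a (.b (.l 19) (.a (.l 19) .z)) (.b (.a (.l 19) .z) .z))))))) (.b (.a (.b (.b (.a (.l 47) (.b (.l 47) (.a (.l 47)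
.z))) (.a (.b (.a (.l 47) .z) (.a .z (.b .z (.l 19)))) (.b (.a .z (.b .z (.l 19))) (.l 19)))) (.l 19)) (.b (.b (.a (.b .z (.a (.b .z (.l 19)) (.l
19))) (.b (.a (.b .z (.l 19)) (.l 19)) (.l 19))) (.l 19)) (.a (.b (.l 19) (.a (.l 19) (.b (.l 19) (.a (.l 19) .z)))) (.b (.a (.l 19) (.b (.l 19) .z))
.z)))) (.a (.b (.a (.l 19) (.b (.a (.l 19) (.b (.l 19) (.a (.l 19) .z))) (.a (.b (.l 19) .z) (.b .z (.a .z (.l 20)))))) (.a (.b (.a (.b (.l 19) (.a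
(.l 19) .z)) (.b .z (.a .z (.l 20)))) (.a (.b .z (.l 20)) (.l 20))) (.b (.a (.b (.a .z (.l 20)) (.l 20)) (.l 20)) (.l 20)))) (.b (.a (.b (.a (.b (.a
(.l 19) .z) .z) (.b .z (.b .z (.l 20)))) (.l 20)) (.b (.b (.l 77) (.b .z (.l 20))) (.l 20))) (.l 20))))))) (.a (.b (.a (.b (.b (.a (.b (.a (.b .z (.a
(.b .z (.l 19)) (.l 19))) (.b (.a (.b .z (.l 19)) (.l 19)) (.l 19))) (.l 19)) (.l 19)) (.l 19)) (.l 19)) (.b (.l 19) (.a (.b (.l 19) (.a (.b (.l 19)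
(.a (.l 19) (.b (.l 19) .z))) (.b (.a (.b (.l 19) (.a (.l 19) .z)) (.b (.a (.l 19) .z) .z)) (.a (.b .z (.a .z (.l 20))) (.l 20))))) (.b (.a (.b (.l
19) (.a (.b (.l 19) (.a (.l 19) .z)) (.b (.a (.l 19) .z) .z))) (.b (.a (.b (.l 19) .z) (.b .z (.a .z (.l 20)))) (.a (.b (.a .z (.l 20)) (.l 20)) (.l
20)))) (.a (.b (.a (.b .z (.l 20)) (.l 20)) (.l 20)) (.l 20)))))) (.a (.b (.a (.b (.l 19) (.a (.l 19) (.b (.a (.l 19) (.b (.l 19) (.a (.l 19) .z)))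
(.a (.b (.l 19) .z) (.b .z (.a .z (.l 20))))))) (.b (.a (.b (.l 19) (.a (.l 19) (.b (.l 19) (.a (.l 19) .z)))) (.b (.a (.l 19) (.b (.l 19) .z)) (.a
(.b (.a (.l 19) .z) .z) (.b (.a .z (.l 20)) (.l 20))))) (.a (.b (.a (.b (.a (.l 19) .z) .z) (.b .z (.l 20))) (.l 20)) (.l 20)))) (.a (.b (.a (.b (.a
(.b (.l 19) .z) (.b .z (.a .z (.l 20)))) (.a (.b (.a .z (.l 20)) (.l 20)) (.l 20))) (.b (.a (.b (.a .z (.l 20)) (.l 20)) (.l 20)) (.l 20))) (.l 20))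
(.b (.l 20) (.a (.l 20) (.b (.l 20) (.a (.l 20) (.b (.l 20) .z))))))) (.b (.a (.b (.a (.b (.a (.b .z (.a .z (.l 20))) (.b (.a .z (.l 20)) (.l 20)))
(.l 20)) (.l 20)) (.l 20)) (.b (.l 20) (.a (.l 20) (.b (.l 20) (.a (.b (.l 20) (.a (.l 20) .z)) (.b .z (.a .z (.l 23)))))))) (.a (.b (.a (.l 20) (.b
(.l 20) (.a (.b (.l 20) (.a (.l 20) .z)) (.b (.a (.l 20) .z) .z)))) (.a (.b (.a (.l 20) (.b (.a (.l 20) .z) .z)) (.a (.b .z (.a .z (.l 25))) (.b (.a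
.z (.l 25)) (.l 25)))) (.b (.a (.b .z (.l 25)) (.b (.b .z (.l 25)) (.l 25))) (.l 25)))) (.b (.a (.b (.a (.b (.l 20) (.a (.l 20) .z)) (.b (.a (.l 20)
.z) .z)) (.a (.b .z (.b (.l 23) .z)) (.b (.l 23) (.b (.l 23) .z)))) (.b (.a (.b .z (.l 23)) (.l 23)) (.b (.l 23) (.b (.l 23) .z)))) (.l 25)))))) (.b
(.a (.b (.a (.b (.a (.l 19) (.b (.l 19) (.a (.l 19) (.b (.l 19) (.a (.l 19) .z))))) (.a (.b (.a (.l 19) (.b (.l 19) (.a (.l 19) .z))) (.a (.b (.a (.l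
19) .z) .z) (.b .z (.l 20)))) (.b (.a (.b (.a (.l 19) .z) .z) (.b .z (.l 20))) (.l 20)))) (.b (.a (.b (.a (.l 19) (.b (.l 19) .z)) (.a (.b .z (.a .z
(.l 20))) (.b (.a .z (.l 20)) (.l 20)))) (.b (.a (.b .z (.a .z (.l 20))) (.l 20)) (.l 20))) (.l 20))) (.a (.b (.a (.b (.a (.b (.a .z (.l 20)) (.l 20))
(.l 20)) (.l 20)) (.l 20)) (.l 20)) (.b (.l 20) (.a (.b (.l 20) (.a (.l 20) (.b (.l 20) (.a (.l 20) .z)))) (.b (.a (.l 20) (.b (.l 20) (.a (.l 20)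
.z))) (.a (.b (.a (.l 20) .z) .z) (.b .z (.l 21)))))))) (.b (.a (.l 20) (.b (.l 20) (.a (.b (.l 20) (.a (.b (.l 20) (.a (.l 20) .z)) (.b (.a (.l 20)
.z) .z))) (.b (.a (.b (.l 20) (.a (.l 20) .z)) (.b (.a (.l 20) .z) .z)) (.a (.b .z (.l 21)) (.l 21)))))) (.a (.b (.a (.b (.l 20) (.a (.l 20) (.b (.l
20) .z))) (.b (.a (.l 20) (.b (.l 20) .z)) (.a (.b .z (.a .z (.l 21))) (.b (.a .z (.l 21)) (.l 21))))) (.a (.b (.a (.b (.a (.l 20) .z) .z) (.b (.a .z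
(.l 21)) (.l 21))) (.b (.a (.l 21) (.b (.l 21) .z)) (.a .z (.b .z (.l 22))))) (.b (.b (.l 21) (.a (.l 21) (.b (.l 21) .z))) (.b (.a .z (.b .z (.l
22))) (.l 22))))) (.b (.a (.b (.a (.b .z (.a .z (.l 21))) (.l 21)) (.l 21)) (.b (.l 21) (.b (.l 21) (.a (.l 21) (.b (.l 21) .z))))) (.b (.a (.b (.a
(.l 21) (.b (.l 21) .z)) (.a .z (.b .z (.l 22)))) (.b .z (.l 22))) (.l 22)))))) (.a (.b (.a (.b (.a (.l 20) (.b (.l 20) (.a (.b (.l 20) .z) (.b .z (.a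
.z (.l 23)))))) (.a (.b (.a (.b (.l 20) .z) (.b .z (.a .z (.l 23)))) (.a (.b (.a .z (.l 23)) (.l 23)) (.l 23))) (.b (.a (.b (.a .z (.l 23)) (.l 23))
(.l 23)) (.l 23)))) (.b (.a (.b (.a (.b (.a (.l 20) .z) .z) .z) (.a (.b .z (.l 23)) (.b (.b .z (.l 23)) (.l 23)))) (.b (.b (.a (.b (.l 21) .z) .z) (.a
.z (.b (.l 22) .z))) (.b (.b (.a .z (.l 23)) (.l 23)) (.l 23)))) (.l 23))) (.b (.b (.l 23) (.b (.l 23) (.b (.l 23) .z))) (.l 25))) (.b (.b (.a (.b (.a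
(.b (.a (.b .z (.l 22)) (.l 22)) (.b (.l 22) .z)) (.b (.l 22) (.b (.l 22) .z))) (.l 23)) (.b (.b (.l 22) (.b (.l 22) .z)) (.l 23))) (.l 23)) (.b (.b
(.l 23) (.b (.l 23) (.b .z (.a (.a (.a .z (.l 25)) (.l 25)) (.l 25))))) (.l 25)))))))

theorem vQ231 : ev Q231 I5_20 I5_28 = 883933094791142 := by decide +kernel

noncomputable def Q107 : QT :=
(.a (.l 10) (.a (.a (.l 10) (.a (.a (.l 10) (.a (.a (.l 10) .z) (.b (.b (.b (.b .z (.l 253)) (.l 253)) (.b (.b .z (.l 220)) (.l 220))) (.b (.b (.l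
220) (.b (.l 220) (.b .z (.l 81)))) (.l 81))))) (.b (.b (.b (.b .z (.l 253)) (.l 253)) (.b (.b (.b .z (.b .z (.l 220))) (.l 220)) (.l 220))) (.b (.b
(.l 220) (.b (.b (.l 220) (.b (.l 220) .z)) (.b .z (.b (.b .z (.l 81)) (.l 81))))) (.l 81))))) (.b (.b (.b (.b .z (.a (.b (.b .z (.a (.l 253) .z)) (.l
253)) (.b .z (.a (.b .z (.l 253)) .z)))) (.b (.a (.l 253) (.b (.a (.l 253) (.b .z (.l 253))) (.l 253))) (.b (.l 253) (.b (.l 253) (.a (.l 253) (.b (.l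
253) .z)))))) (.b (.b .z (.a (.b (.a (.l 220) (.b .z (.l 220))) (.l 220)) (.b .z (.a (.l 220) .z)))) (.l 220))) (.b (.b (.b (.a (.l 220) (.b (.l 220)
(.a (.l 220) (.b (.l 220) .z)))) (.a (.b (.l 220) (.a (.l 220) (.b (.l 220) .z))) (.b (.a (.b (.l 220) .z) .z) .z))) (.b (.b (.a (.a (.b (.l 220) .z)
.z) .z) .z) (.b .z (.a (.b .z (.a (.l 81) (.b .z (.l 81)))) .z)))) (.b (.b (.b (.a (.l 81) (.b (.a (.l 81) (.b .z (.l 81))) (.l 81))) (.l 81)) (.l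
81)) (.l 81))))))

theorem vQ107 : ev Q107 I5_10 I4_6 = 1741401409920962 := by decide +kernel

noncomputable def Q255 : QT :=
(.a (.b (.a (.b (.a (.a (.b (.a (.l 87) (.b (.l 87) .z)) (.a (.b (.a (.l 87) .z) .z) .z)) .z) (.b .z (.a .z (.b (.a .z (.b (.l 93) .z)) .z)))) (.a (.b
.z (.a (.b (.a (.b .z (.l 96)) .z) .z) (.b (.a .z (.b .z (.l 101))) (.a .z (.l 101))))) (.b (.a (.b (.a (.l 175) .z) .z) .z) (.a (.a (.l 101) (.a (.l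
101) (.b .z (.l 101)))) .z)))) (.b (.a (.b (.a (.b .z (.b (.a .z (.l 93)) (.l 93))) (.b (.b .z (.l 93)) (.a (.b (.l 93) .z) .z))) .z) (.b (.a (.b (.a
(.l 93) (.b (.l 93) .z)) .z) .z) .z)) (.a .z (.a (.b (.b .z (.a .z (.l 156))) (.b (.b (.l 156) .z) .z)) (.a (.b (.l 156) (.b (.l 156) .z)) (.b (.a (.l
156) .z) (.b (.l 156) .z))))))) (.b (.a (.b (.a (.a (.b (.b (.a .z (.l 80)) .z) .z) (.a (.b (.a (.l 80) .z) .z) .z)) (.a (.a (.b (.l 101) (.a .z (.l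
101))) (.l 101)) (.a (.a (.l 101) .z) .z))) (.a (.b .z (.b .z (.b .z (.b (.a (.l 35) .z) (.l 35))))) (.b (.a .z (.b (.a (.l 101) .z) .z)) (.a .z (.b
.z (.a (.b .z (.l 57)) (.l 57))))))) (.b .z (.a .z (.b (.a .z (.b .z (.l 95))) (.b (.a (.b (.l 95) .z) .z) .z))))) (.a (.b (.a (.b (.a (.b (.l 35) (.a
(.l 35) (.b (.l 35) .z))) (.b (.a (.l 35) (.b (.l 35) .z)) .z)) (.a (.b (.a (.b (.l 35) .z) .z) .z) .z)) (.b (.a (.b (.a .z (.b (.l 57) .z)) (.b (.b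
.z (.l 45)) (.a .z (.l 45)))) (.b (.b (.b (.l 57) .z) .z) (.a (.a (.l 45) .z) .z))) .z)) (.a (.a (.a (.b (.l 174) .z) .z) (.a .z (.b .z (.b .z (.l
109))))) (.a (.a (.b .z (.a (.l 109) .z)) .z) (.a (.b .z (.l 143)) (.l 143))))) (.b (.b .z (.a (.a (.a (.l 143) .z) .z) .z)) (.b (.a (.a (.a (.l 143)
.z) .z) .z) .z))))) (.b (.b (.a (.b (.a (.b .z (.a .z (.b .z (.a .z (.l 127))))) (.b .z (.a (.a (.a (.l 127) .z) .z) .z))) (.a (.b (.a (.b (.a .z (.l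
127)) (.l 127)) (.l 127)) (.l 127)) (.a (.a (.a (.l 127) .z) .z) .z))) .z) (.a (.b (.a (.a (.a (.a .z (.l 127)) (.l 127)) (.l 127)) .z) (.a (.b (.a
(.a (.a .z (.l 127)) (.l 127)) (.b (.a (.l 127) .z) .z)) .z) .z)) (.b .z (.a .z (.a (.a .z (.a .z (.l 233))) (.b (.a (.l 233) .z) .z)))))) (.b (.a (.b
(.a .z (.b (.a .z (.a (.l 193) .z)) .z)) (.b (.a .z (.b .z (.a (.b .z (.l 68)) (.l 68)))) (.a (.b (.a .z (.l 68)) (.a .z (.l 68))) (.l 68)))) (.b .z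
(.a (.b (.a (.a (.l 68) .z) .z) (.a (.a (.a (.l 68) .z) .z) (.b (.l 149) .z))) .z))) (.a (.b (.a (.b (.a (.a .z (.a .z (.l 68))) (.l 68)) (.a (.a .z
(.a .z (.l 68))) (.b (.l 68) (.a (.l 68) .z)))) (.b (.a (.l 68) (.b (.l 68) (.a (.l 68) .z))) (.a (.b (.a (.l 68) .z) .z) .z))) .z) (.b (.a (.b .z (.a
(.a (.a .z (.l 59)) (.l 59)) (.l 59))) (.b .z (.b (.b .z (.a (.l 59) .z)) (.l 59)))) (.a (.a (.a (.a (.a .z (.b .z (.l 59))) (.l 59)) (.l 59)) (.l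
59)) (.l 59)))))))

theorem vQ255 : ev Q255 I5_25 I5_26 = 196932753908066 := by decide +kernel

noncomputable def Q256 : QT :=
(.b (.b (.a (.b (.a (.b (.a (.a .z (.b (.l 109) .z)) (.b (.a .z (.l 143)) (.a (.a .z (.b .z (.l 47))) (.b .z (.a .z (.b .z (.l 26))))))) (.a (.b (.a
(.a .z (.l 71)) .z) (.a (.b (.l 71) .z) (.b (.a .z (.b .z (.l 26))) (.a (.b .z (.l 26)) (.l 26))))) (.b (.a (.b .z (.a .z (.l 26))) (.b (.a (.b .z (.l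
26)) (.l 26)) (.l 26))) (.l 26)))) (.b .z (.a (.a (.a (.a (.a (.b .z (.l 26)) .z) (.l 37)) .z) .z) .z))) (.a (.b (.a (.b (.a (.b (.a (.b .z (.l 26))
(.l 26)) (.l 26)) (.l 26)) (.l 26)) (.l 26)) (.l 26)) (.a (.a (.a (.a (.b (.a (.l 26) (.b .z (.l 26))) (.l 26)) (.b .z (.a (.l 26) .z))) .z) .z) .z)))
(.a (.a .z (.a .z (.a .z (.a .z (.b (.a .z (.b .z (.l 59))) (.a (.b .z (.l 59)) (.l 59))))))) (.a (.l 59) (.b (.l 59) (.a (.l 59) (.b (.l 59) (.a (.l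
59) (.b (.a (.l 59) .z) .z)))))))) (.a (.a (.l 26) (.a (.a (.a (.l 26) (.b (.a (.b .z (.a (.l 26) (.b .z (.l 26)))) .z) (.a (.l 26) (.a (.b (.b .z (.l
26)) (.l 26)) (.b .z (.b .z (.l 26))))))) (.a (.a (.b (.l 141) .z) (.b (.l 141) .z)) (.b (.l 141) (.b (.b .z (.l 104)) .z)))) (.b (.b (.b .z (.a (.l
141) .z)) (.a (.l 141) (.b (.l 141) .z))) (.b (.b .z (.a (.l 104) .z)) (.a (.a (.b (.l 104) .z) (.l 104)) (.a (.b .z (.l 104)) .z)))))) (.a (.a .z (.a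
.z (.a .z (.a (.a (.b .z (.b .z (.l 59))) (.b (.b .z (.l 59)) (.l 59))) (.l 59))))) (.a (.a (.l 59) (.b (.l 59) (.a (.l 59) (.b (.l 59) (.a (.b (.l
59) .z) .z))))) (.a (.b (.a (.l 59) (.b (.l 59) (.a (.b (.l 59) .z) .z))) (.a (.b (.a (.b (.l 59) .z) .z) .z) .z)) (.b (.b (.a (.b (.a (.l 59) .z) .z)
.z) .z) .z)))))) (.a (.b (.a (.l 26) (.a (.a (.l 26) (.a (.a (.b (.a (.b .z (.l 26)) .z) (.l 26)) (.b .z (.a (.b .z (.b .z (.l 26))) .z))) (.b (.b (.l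
133) .z) (.b (.b .z (.l 95)) (.l 95))))) (.b (.b (.a .z (.b (.a (.l 104) .z) .z)) (.b .z (.a .z (.l 95)))) (.b (.a (.b (.a .z (.l 95)) (.l 95)) (.l
95)) (.l 95))))) (.b (.a (.l 26) (.a (.a (.l 26) (.a (.a (.l 26) (.a (.l 26) (.b .z (.l 26)))) (.a .z (.b (.l 95) .z)))) (.b (.a (.l 95) (.b (.a (.l
95) .z) .z)) .z))) (.a (.b (.a (.b (.a (.b (.b (.l 26) (.a .z (.l 26))) .z) (.b (.l 26) (.a (.b (.l 26) .z) (.l 26)))) (.a .z (.b (.a .z (.b (.l 26)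
.z)) .z))) (.b (.l 26) (.a (.b (.l 26) (.a .z (.b (.l 26) .z))) (.l 26)))) (.a .z (.b (.a .z (.b (.a .z (.b (.l 26) .z)) .z)) .z))) (.b (.a (.a (.l
26) (.a (.l 26) (.a (.a (.b .z (.l 26)) .z) .z))) .z) (.a (.b (.a (.b (.l 26) (.a .z (.l 26))) (.a (.l 26) (.a (.a (.l 26) .z) .z))) (.a (.b .z (.l
81)) (.b (.a (.b (.l 26) .z) .z) .z))) .z))))) (.b (.a (.a (.b (.b .z (.b .z (.a (.l 95) .z))) (.b (.l 95) (.a (.b (.l 95) (.a (.l 95) .z)) .z))) (.a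
(.b .z (.b (.b (.a (.l 95) .z) .z) .z)) (.a (.a .z (.a .z (.b (.b .z (.l 59)) (.l 59)))) (.l 59)))) (.a (.a (.b (.a (.l 59) (.b (.l 59) (.a (.l 59)
(.b (.l 59) .z)))) (.a (.b (.a (.l 59) (.b (.l 59) .z)) (.a (.b (.l 59) .z) .z)) (.b .z (.b (.l 81) .z)))) (.b (.a (.b (.a (.l 59) (.b (.l 59) .z))
.z) (.b .z (.l 81))) (.b (.l 81) (.b (.l 81) .z)))) (.b (.a (.b .z (.a (.l 81) (.b .z (.l 81)))) .z) (.a (.b (.b (.l 81) (.a (.l 81) .z)) (.b .z (.a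
.z (.l 82)))) (.a (.b .z (.l 82)) .z))))) (.a (.a .z (.a .z (.b (.a (.b (.a .z (.a .z (.l 59))) (.a .z (.b (.l 59) .z))) (.b (.a (.b (.l 59) .z) .z)
.z)) .z))) (.b (.a .z (.b (.b (.a .z (.b (.l 82) .z)) .z) (.a (.a .z (.l 141)) .z))) (.a (.b .z (.a .z (.b .z (.a .z (.b .z (.l 43)))))) (.b (.a (.b
.z (.a .z (.b .z (.l 43)))) (.b (.a .z (.l 43)) (.l 43))) (.a (.b (.a (.b .z (.l 43)) (.l 43)) (.l 43)) (.l 43)))))))))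

theorem vQ256 : ev Q256 I5_25 I5_27 = 477550230349407 := by decide +kernel

noncomputable def Q242 : QT :=
(.a (.a (.b (.b (.a (.b (.a (.b (.b (.b .z (.l 91)) (.b (.b .z (.l 59)) .z)) .z) (.b (.a .z (.b .z (.l 35))) (.a .z (.b (.b (.l 35) .z) .z)))) (.a (.b
.z (.b (.l 47) .z)) (.b .z (.b (.a (.b (.l 47) .z) .z) .z)))) (.b (.b (.b (.b .z (.b (.a .z (.l 35)) (.l 35))) (.l 35)) (.a (.b (.b (.l 35) .z) .z)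
(.b (.a (.b (.l 35) .z) .z) (.a (.b .z (.a .z (.l 29))) (.b (.a .z (.l 29)) (.l 29)))))) (.b (.a .z (.b (.b .z (.b (.l 35) .z)) .z)) (.b (.b .z (.b .z
(.l 91))) (.b (.b .z (.l 73)) .z))))) (.a (.b (.a .z (.b (.b .z (.b (.b (.l 41) .z) .z)) .z)) (.b .z (.a .z (.b (.a .z (.b .z (.l 55))) .z)))) (.b (.b
(.b (.b .z (.b .z (.b (.l 43) .z))) .z) (.a .z (.b .z (.a .z (.b .z (.l 43)))))) (.b (.a .z (.b (.b (.b (.l 43) .z) .z) .z)) (.b (.b .z (.b (.l 55)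
(.b (.l 55) .z))) .z))))) .z) (.b (.b (.b (.a (.b (.a (.b (.a (.b .z (.l 35)) .z) .z) .z) (.a (.b .z (.b (.b (.b .z (.l 29)) (.l 29)) (.l 29))) (.b
(.b (.l 93) (.b .z (.b .z (.l 31)))) (.b (.b (.b .z (.l 29)) (.l 29)) (.b (.l 29) (.b (.l 29) .z)))))) (.b .z (.b (.b .z (.b (.b .z (.a .z (.l 31)))
(.l 31))) (.b (.b (.b (.a .z (.l 31)) .z) (.b (.a (.l 29) .z) (.l 29))) (.b (.l 29) (.b (.a (.l 29) .z) .z)))))) (.b (.b (.b .z (.b (.a (.a (.l 35)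
.z) .z) .z)) .z) (.a (.b (.b (.a .z (.l 74)) .z) (.b (.b .z (.l 73)) .z)) (.a (.b (.b (.l 74) .z) .z) (.b .z (.a .z (.b (.l 31) .z))))))) (.b (.a (.b
(.a (.b (.b .z (.b .z (.l 43))) .z) .z) (.a (.b .z (.b .z (.l 43))) (.b .z (.b .z (.l 43))))) (.b .z (.b .z (.b (.b (.b .z (.l 44)) (.b .z (.l 43)))
(.l 43))))) (.b (.b (.b (.b (.b (.a (.l 43) .z) .z) .z) .z) .z) (.b (.b (.b (.a .z (.l 56)) (.b (.l 56) .z)) (.b (.b (.l 55) (.a (.l 55) .z)) .z))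
.z)))) (.b (.b (.b (.a .z (.b (.b (.b (.l 68) .z) .z) .z)) (.a (.b (.b .z (.b .z (.l 92))) .z) .z)) (.b (.a .z (.b (.b (.b (.l 93) .z) .z) .z)) .z))
.z))) (.b (.b (.b (.a (.b (.b .z (.b .z (.b .z (.l 125)))) (.a (.b (.b (.b (.l 125) .z) (.b (.b (.a .z (.l 31)) (.l 31)) (.l 31))) (.b (.b (.l 31) (.b
.z (.a (.l 29) .z))) (.b (.b (.l 29) .z) .z))) (.b (.a (.b .z (.l 31)) (.b (.b .z (.b .z (.l 31))) (.a (.l 31) .z))) (.a (.b (.b (.l 31) (.b (.l 31)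
.z)) .z) .z)))) .z) (.a (.b (.a (.b .z (.a .z (.b .z (.a (.b .z (.l 31)) (.b .z (.l 31)))))) (.b .z (.b (.b .z (.b (.a .z (.l 32)) (.a (.l 32) .z)))
(.b (.b .z (.l 31)) (.l 31))))) (.a (.a (.b (.b (.a .z (.l 31)) (.l 31)) (.b (.l 31) .z)) (.b (.l 31) (.b (.b (.l 31) (.b (.l 31) .z)) .z))) (.b (.l
31) (.b (.b (.l 31) (.b (.a (.l 31) .z) .z)) (.b (.l 79) .z))))) (.b (.b (.b .z (.a .z (.b .z (.a (.b .z (.l 32)) (.l 32))))) (.b (.b (.a (.a (.b .z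
(.l 32)) (.l 32)) (.l 32)) (.b (.l 32) .z)) (.l 31))) (.b (.l 31) (.b (.b (.a (.b (.l 31) .z) .z) (.a .z (.l 79))) (.b (.l 79) .z)))))) (.b (.b (.b .z
(.b (.a (.b .z (.a (.l 119) .z)) (.a .z (.l 212))) .z)) (.b (.b (.a .z (.b .z (.a (.b .z (.l 44)) (.l 44)))) (.a (.b (.a .z (.b .z (.l 44))) (.a (.b
.z (.l 44)) (.l 44))) (.l 44))) (.b (.b (.l 44) (.b .z (.l 43))) (.b (.a (.l 43) (.b (.a (.l 43) .z) .z)) (.a (.b (.a (.l 43) .z) .z) (.b .z (.l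
103))))))) (.b (.a (.b .z (.b .z (.b (.a .z (.b .z (.l 56))) (.a (.b .z (.l 56)) (.l 56))))) (.b (.b .z (.b .z (.a (.b (.l 51) .z) (.l 51)))) (.a (.b
.z (.l 56)) (.b (.b .z (.l 56)) (.a (.l 56) (.b (.l 56) .z)))))) (.a (.b (.b (.b (.l 56) (.b (.l 56) .z)) (.b (.b (.a (.l 55) .z) .z) .z)) (.a .z (.b
(.b .z (.b .z (.l 63))) .z))) (.b (.a (.b (.b (.l 56) (.b (.l 56) .z)) .z) (.b (.a (.b (.l 56) .z) .z) .z)) (.a (.b .z (.a .z (.l 57))) (.b (.b .z (.l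
57)) (.l 57)))))))) (.b (.b (.a (.b (.a (.b .z (.a .z (.b .z (.l 69)))) (.b (.a .z (.b .z (.b (.l 59) .z))) (.b .z (.l 69)))) (.b (.b (.b .z (.b (.l
71) .z)) (.b .z (.b .z (.l 81)))) (.b (.b (.l 81) .z) (.b (.b (.l 83) .z) .z)))) (.b (.b (.b (.b (.b (.l 57) (.a (.l 57) .z)) .z) (.b (.l 59) .z)) (.b
(.b .z (.b .z (.l 69))) (.b (.l 69) (.b (.l 69) .z)))) (.b (.b (.b .z (.b (.l 71) .z)) (.b .z (.l 81))) (.b .z (.b (.b (.l 83) .z) (.b .z (.l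
93))))))) (.b (.b (.b (.b (.a (.b (.l 93) .z) .z) .z) (.b (.b .z (.a .z (.l 105))) (.a (.b (.l 105) .z) .z))) .z) (.a (.b (.b (.b (.b (.l 129) .z) .z)
.z) .z) (.b .z (.a .z (.b (.b (.l 117) .z) .z)))))) .z)))

theorem vQ242 : ev Q242 I6_43 I4_15 = 144482015380282 := by decide +kernel

noncomputable def Q62 : QT :=
(.b .z (.a (.b (.a (.b .z (.b (.a (.b (.a (.b .z (.a .z (.b (.l 141) .z))) (.b .z (.l 141))) (.b (.a .z (.a .z (.l 141))) .z)) (.a (.b (.b .z (.l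
141)) (.b (.b (.l 141) (.a (.l 141) .z)) .z)) (.b (.a (.b .z (.l 141)) (.b .z (.a (.l 141) .z))) .z))) (.a (.a (.b (.b (.b .z (.b (.a .z (.l 104))
.z)) (.b (.b (.a (.l 68) .z) (.l 68)) (.l 68))) (.l 68)) (.b (.b (.b (.b (.a .z (.l 104)) (.l 104)) (.a (.l 104) .z)) (.b .z (.a (.b .z (.l 68)) .z)))
(.a (.b (.l 68) (.a (.l 68) (.b (.l 68) .z))) (.b (.a (.l 68) (.b (.l 68) .z)) .z)))) .z))) .z) (.b (.a (.b (.a (.b (.a (.a (.l 68) (.b (.l 68) (.a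
(.l 68) .z))) (.b (.a (.a (.b (.l 68) .z) .z) .z) .z)) (.a (.b (.a (.l 68) .z) (.a (.a (.b (.l 68) .z) .z) .z)) .z)) .z) (.a (.b .z (.a (.b (.b (.a
(.b .z (.a (.l 51) .z)) .z) (.a (.l 51) (.b .z (.a (.l 51) .z)))) (.l 51)) (.b .z (.a (.b (.a (.b .z (.l 51)) .z) (.l 51)) .z)))) .z)) .z) (.a (.b (.b
(.a (.a (.l 51) (.b (.a (.l 51) (.b (.a (.l 51) (.b .z (.l 51))) (.l 51))) (.l 51))) (.a (.b (.a (.b .z (.a (.b .z (.l 51)) .z)) .z) (.a (.l 51) (.b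
.z (.a (.l 51) .z)))) .z)) (.b (.a (.l 51) (.a (.l 51) (.a (.a (.b .z (.a (.l 51) .z)) .z) .z))) (.a (.l 51) (.b (.a (.l 51) (.b (.a (.a (.l 51) .z)
.z) (.a (.l 51) .z))) (.a (.b (.a (.l 51) (.b (.l 51) .z)) (.a (.b (.l 51) .z) .z)) .z))))) (.a (.b (.a (.b (.b (.b (.b (.l 51) (.a (.l 51) .z)) .z)
.z) .z) .z) .z) .z)) .z))) (.b .z (.a (.b .z (.b (.a (.b .z (.a .z (.a (.b .z (.l 290)) .z))) (.a (.a (.b (.a .z (.l 358)) (.l 358)) (.a (.l 358) (.a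
(.l 358) .z))) .z)) (.a (.a (.b (.a .z (.b .z (.l 290))) (.a (.a .z (.l 290)) (.l 290))) (.a (.a (.l 290) .z) (.a .z (.l 358)))) (.b (.a (.a (.l 358)
(.a (.l 358) .z)) .z) (.a (.a (.b (.l 358) .z) .z) .z))))) .z))))

theorem vQ62 : ev Q62 I4_3 I3_1 = 257491320557017 := by decide +kernel

noncomputable def Q176 : QT :=
(.b .z (.a (.b (.a (.b (.a (.b .z (.b (.a .z (.b (.a .z (.l 106)) (.l 106))) (.a (.b (.a .z (.l 106)) (.l 106)) (.l 106)))) (.b .z (.a (.b (.a (.b .z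
(.l 106)) .z) (.l 106)) (.b .z (.a (.b .z (.l 106)) .z))))) (.b (.a (.l 106) (.a (.b (.a (.l 106) (.b (.l 106) .z)) (.a (.b (.l 106) .z) .z)) .z)) (.b
(.a (.a (.l 106) (.a (.l 106) (.a (.l 106) .z))) (.a .z (.b .z (.l 192)))) (.b (.b (.a (.a (.l 106) .z) .z) .z) (.l 47))))) (.b .z (.a (.b (.a (.b .z
(.b .z (.l 192))) .z) (.b (.l 192) (.b (.b (.l 192) .z) (.l 47)))) (.b .z (.a (.b .z (.a (.b .z (.l 47)) .z)) .z))))) (.a (.b (.a (.b (.l 47) (.b (.l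
47) (.a (.b (.l 47) (.b (.l 47) (.a (.l 47) .z))) (.b (.a (.l 47) (.b (.l 47) .z)) (.a (.b .z (.b .z (.l 32))) (.b (.a .z (.l 32)) (.l 32))))))) (.b
(.l 47) (.a (.b (.b (.l 47) (.a (.l 47) (.b (.l 47) .z))) (.b (.a (.b .z (.a .z (.l 32))) (.b (.a .z (.l 32)) (.l 32))) (.l 32))) (.b (.b (.a (.b (.l
47) .z) .z) (.a (.b .z (.a .z (.l 32))) (.l 32))) (.a (.b (.l 32) (.a (.l 32) (.b (.l 32) .z))) (.b (.a (.l 32) (.b (.l 32) .z)) .z)))))) (.a (.b (.b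
(.b (.a (.b (.a .z (.b .z (.l 32))) (.a (.b .z (.l 32)) (.l 32))) (.l 32)) (.l 32)) (.l 32)) (.a (.b (.l 32) (.a (.l 32) (.b (.l 32) (.a (.l 32)
.z)))) (.b (.a (.b (.l 32) (.a (.l 32) (.b (.l 32) .z))) (.b (.a (.b (.l 32) .z) .z) (.a .z (.l 58)))) (.a (.b (.a (.b (.l 32) .z) .z) (.a .z (.l
58))) (.l 58))))) (.b (.a (.b (.a (.l 32) (.b (.l 32) (.a (.b (.l 32) .z) .z))) (.a (.b (.a (.l 32) (.b (.l 32) .z)) .z) (.b (.a .z (.l 58)) (.l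
58)))) (.b (.a (.b (.a (.b (.l 32) .z) .z) (.a .z (.l 58))) (.l 58)) (.l 58))) (.a (.b (.a (.b (.a .z (.l 58)) (.l 58)) (.l 58)) (.l 58)) (.l 58)))))
(.b (.a (.b (.a (.b (.l 47) (.a (.b (.l 47) (.b (.l 47) .z)) (.b (.b (.l 47) .z) .z))) (.b (.a (.l 47) (.b (.l 47) .z)) (.a .z (.b .z (.l 58))))) (.a
(.b (.a (.b (.b (.a .z (.l 32)) (.l 32)) (.a (.b (.l 32) .z) .z)) (.b (.a (.b (.l 32) .z) .z) (.a .z (.l 58)))) (.a (.b (.a .z (.l 58)) (.l 58)) (.l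
58))) (.l 58))) (.b (.a (.b (.a .z (.b .z (.l 58))) (.l 58)) (.l 58)) (.l 58))) (.l 58)))) (.b .z (.a (.b (.a (.b (.a (.b (.a (.b .z (.l 58)) .z) (.l
58)) (.b .z (.a (.b .z (.l 58)) .z))) (.l 58)) (.b .z (.a (.b (.a (.b .z (.l 58)) .z) (.l 58)) (.b .z (.a (.b .z (.l 58)) .z))))) (.a (.l 58) (.b (.l
58) (.a (.b (.l 58) (.a (.b (.l 58) .z) .z)) (.b (.a (.b (.l 58) .z) .z) .z))))) (.b .z (.a (.b (.a (.b (.a (.b .z (.l 58)) .z) (.a (.b (.l 58) .z)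
.z)) .z) .z) .z))))))

theorem vQ176 : ev Q176 I5_19 I4_9 = 365732455079947 := by decide +kernel

noncomputable def Q191 : QT :=
(.a (.b (.b (.b (.l 15) (.b (.b (.a (.b (.a (.b (.a .z (.a .z (.l 15))) (.a (.l 17) .z)) (.b (.l 15) (.a .z (.l 15)))) (.a (.l 17) (.b .z (.l 17))))
(.b (.l 15) (.a (.b (.a (.a .z (.l 15)) (.l 15)) .z) (.l 15)))) (.a (.l 17) (.b (.a (.b (.a (.l 17) .z) (.l 17)) (.b (.a .z (.a .z (.l 15))) (.a (.l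
17) .z))) (.l 17)))) (.l 17))) (.b (.b (.l 17) (.b (.a (.l 17) (.b (.l 17) (.a (.l 17) (.b (.a (.l 17) .z) .z)))) (.a (.b (.a (.l 17) (.b (.l 17) (.a
(.l 17) .z))) (.a (.b (.l 17) .z) .z)) (.b .z (.l 87))))) (.b (.b (.a (.b (.a .z (.l 87)) (.a .z (.l 87))) (.l 87)) (.a (.a (.a (.l 127) .z) .z) (.l
87))) (.a (.a (.b (.l 127) (.b (.l 127) .z)) (.b (.a (.l 127) .z) (.l 127))) (.b (.a .z (.b (.l 87) .z)) (.a .z (.b .z (.a .z (.l 55))))))))) (.b (.b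
(.b (.a (.b .z (.a .z (.b .z (.a .z (.l 55))))) (.b (.a (.b .z (.a .z (.l 55))) (.l 55)) (.l 55))) (.a (.b (.a .z (.l 55)) (.b (.a (.b .z (.l 43)) .z)
(.l 43))) (.b (.l 55) (.b (.a (.b (.l 55) .z) (.l 55)) (.a .z (.b (.l 55) .z)))))) (.b (.b (.a (.l 43) (.b (.a (.l 43) (.b .z (.l 43))) (.l 43))) (.l
43)) (.b (.l 43) (.a (.b (.l 43) (.a (.l 43) (.b (.l 43) .z))) (.b (.a (.l 43) .z) (.a (.b .z (.a .z (.l 23))) (.b (.a .z (.l 23)) (.l 23)))))))) (.b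
(.b (.b (.a (.b (.a .z (.b .z (.l 23))) (.l 23)) (.l 23)) (.l 23)) (.l 23)) (.b (.b (.l 23) (.a (.b (.a (.b (.l 23) .z) (.l 23)) (.a (.b (.a (.l 25)
.z) (.l 25)) (.b (.a .z (.l 23)) .z))) (.b (.l 23) (.a (.b (.l 23) (.a .z (.l 23))) (.l 23))))) (.b (.a (.l 25) (.b (.a (.b .z (.l 25)) (.b (.a .z (.l
23)) .z)) (.l 25))) (.l 25)))))) (.b (.b (.b (.l 15) (.b (.b (.l 15) (.a (.b (.a (.b (.l 15) (.a (.a .z (.l 15)) (.l 15))) (.l 15)) (.a (.b .z (.a (.l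
17) .z)) (.b (.l 15) (.a .z (.a .z (.l 15)))))) (.l 15))) (.b (.a (.b (.a (.l 17) (.b (.a (.l 17) .z) (.l 17))) (.l 17)) (.b (.a (.b (.a .z (.l 15))
.z) (.l 15)) (.a (.b (.a (.l 17) .z) (.l 17)) (.b (.a .z (.a .z (.l 15))) (.a (.l 17) .z))))) (.l 17)))) (.b (.b (.b (.l 17) (.a (.b (.l 17) (.a (.l
17) (.b (.l 17) (.a (.l 17) .z)))) (.b (.a (.l 17) (.b (.a (.l 17) .z) .z)) .z))) (.b (.a (.b (.a (.b (.l 17) .z) .z) (.a .z (.l 87))) (.a (.l 87) (.b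
(.l 87) .z))) (.a (.l 87) (.a (.b (.l 87) .z) (.b .z (.a .z (.l 55))))))) (.b (.a (.b (.a (.l 87) (.b (.l 87) .z)) (.a (.b (.l 87) .z) (.b .z (.a .z
(.l 55))))) (.b (.a (.b .z (.a .z (.l 55))) (.l 55)) (.l 55))) (.a (.b (.a (.b .z (.a .z (.l 55))) (.l 55)) (.l 55)) (.l 55))))) (.a (.b (.b (.l 55)
(.b (.b (.b (.a .z (.b (.l 55) .z)) (.a (.l 43) (.b .z (.l 43)))) (.l 43)) (.b (.b (.l 43) (.a (.b (.l 43) .z) (.b .z (.a .z (.l 23))))) (.b (.a (.b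
.z (.l 23)) (.l 23)) (.l 23))))) (.b (.l 23) (.b (.l 23) (.b (.b (.a (.b (.l 23) (.a .z (.l 23))) (.l 23)) (.a (.b .z (.a (.l 25) .z)) (.b (.l 23)
.z))) (.b (.a (.l 25) (.b (.a (.l 25) .z) (.l 25))) (.a (.l 25) (.b (.l 25) .z))))))) (.b (.b (.l 55) (.b (.b (.b (.l 55) (.a .z (.l 55))) (.b (.a (.b
.z (.l 43)) .z) (.a (.l 43) (.b (.l 43) .z)))) (.b (.b (.a .z (.b .z (.l 23))) (.a (.b (.a .z (.l 23)) (.l 23)) (.l 23))) (.l 23)))) (.a (.b (.l 23)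
(.b (.l 23) (.b (.l 23) (.b (.b .z (.a (.l 25) .z)) .z)))) (.b (.a (.l 23) (.b (.a (.l 23) (.b (.l 23) (.a (.l 23) .z))) (.a (.b (.l 23) .z) .z))) (.a
(.b (.a (.l 23) (.b (.a (.l 23) .z) .z)) (.a (.b (.a (.l 23) .z) .z) .z)) (.b (.a (.b .z (.l 53)) (.l 53)) (.b (.b (.l 53) .z) .z)))))))))

theorem vQ191 : ev Q191 I6_32 I5_28 = 411747009645162 := by decide +kernel

noncomputable def Q4 : QT :=
(.a (.a (.b (.a (.b (.b .z (.a (.b (.a (.l 210) .z) (.l 210)) .z)) (.a (.l 210) (.a (.l 210) (.b .z (.a (.l 210) .z))))) .z) (.a (.l 210) (.a (.a (.b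
(.b (.a (.l 210) .z) (.a (.l 210) .z)) .z) .z) .z))) (.a .z (.b .z (.a (.b (.a .z (.b .z (.a .z (.b .z (.l 129))))) (.a (.b (.a .z (.l 230)) (.l 230))
.z)) .z)))) (.a (.a (.b (.a (.a .z (.b .z (.a .z (.b .z (.b .z (.a .z (.l 60))))))) (.b (.a .z (.b (.a .z (.b .z (.a .z (.l 60)))) (.a (.b .z (.a .z
(.l 60))) (.l 60)))) (.a (.b (.a .z (.b (.a .z (.l 60)) (.l 60))) (.a (.b (.a .z (.l 60)) (.l 60)) (.l 60))) (.b (.l 60) (.a (.l 60) (.b (.l 60) (.a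
(.l 60) .z))))))) (.a (.b (.a .z (.a .z (.b (.l 60) (.a .z (.b (.l 60) .z))))) (.b .z (.a .z (.a (.b .z (.l 114)) (.l 114))))) (.b (.a (.b (.l 60) (.a
(.b (.l 60) .z) .z)) (.b (.a (.b (.l 60) .z) .z) .z)) (.a (.b (.a (.b .z (.l 114)) (.l 114)) (.l 114)) (.b (.b (.a (.l 114) .z) (.l 114)) (.l
114)))))) (.b (.a (.b (.a (.b (.a (.b (.a .z (.l 60)) (.l 60)) (.l 60)) (.l 60)) (.b (.l 60) (.a (.l 60) (.b (.a (.l 60) .z) .z)))) (.a (.b (.a (.l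
60) (.b (.l 60) (.a (.l 60) .z))) (.a (.b (.a (.l 60) .z) .z) .z)) .z)) (.b (.a (.b (.a (.b (.l 60) .z) .z) .z) .z) .z)) (.b .z (.a (.b (.a (.b .z (.a
(.l 114) .z)) .z) (.a (.l 114) (.b .z (.a (.l 114) .z)))) .z)))) (.b (.a .z (.a .z (.a .z (.a (.a .z (.b (.l 130) (.a .z (.l 130)))) (.l 130))))) (.a
.z (.b (.a .z (.a .z (.a .z (.a (.a .z (.l 130)) (.l 130))))) .z)))))

theorem vQ4 : ev Q4 I3_0 I7_22 = 178812947998107 := by decide +kernel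

noncomputable def Q75 : QT :=
(.a (.b (.a (.b (.l 19) (.a (.b (.l 19) (.a (.b (.l 19) (.a (.b (.a (.b (.l 19) (.a (.b (.a .z (.l 19)) (.a (.b (.a (.l 8) .z) (.l 8)) (.b .z (.a (.l
8) .z)))) (.b (.l 19) (.a .z (.l 19))))) (.l 19)) (.a (.b (.a (.l 8) (.b (.a (.b (.a (.l 8) .z) (.l 8)) .z) (.l 8))) (.l 8)) (.b (.a (.b (.a .z (.l
19)) (.a (.b .z (.l 8)) .z)) (.b (.l 19) (.a .z (.l 19)))) (.a (.l 8) (.b (.a (.b .z (.l 8)) .z) (.a (.l 8) (.b (.a (.l 8) .z) (.l 8)))))))) (.b (.l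
19) (.a (.b (.l 19) (.a (.b (.l 19) (.a (.b .z (.a (.l 8) .z)) .z)) (.l 19))) (.l 19))))) (.l 19))) (.l 19))) (.l 19)) (.a (.b (.a (.b (.a (.b (.a (.l
8) (.b (.a (.b (.a (.b (.a (.l 8) (.b (.a (.l 8) .z) (.l 8))) (.l 8)) (.b (.a (.b .z (.a (.l 8) .z)) .z) (.a (.l 8) (.b (.a (.l 8) .z) (.l 8))))) (.l
8)) (.b (.a (.b (.l 19) .z) (.l 19)) (.a (.b (.a (.l 8) (.b .z (.l 8))) (.l 8)) (.b (.a .z (.l 19)) (.a (.b (.a (.l 8) .z) (.l 8)) (.b .z (.a (.l 8)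
.z))))))) (.l 8))) (.l 8)) (.b (.a (.b (.a (.b (.l 19) (.a (.b (.l 19) (.a .z (.l 19))) (.l 19))) (.l 19)) (.a (.b (.a (.b (.a (.b (.a (.l 8) .z) (.l
8)) .z) (.l 8)) (.b (.a .z (.l 19)) (.a (.b .z (.l 8)) .z))) (.a (.l 8) (.b (.a (.l 8) (.b (.a (.l 8) .z) (.l 8))) (.l 8)))) (.b (.l 19) (.a (.b (.a
(.b .z (.a (.l 8) .z)) .z) (.a (.l 8) (.b (.a (.l 8) .z) (.l 8)))) (.b (.l 19) .z))))) (.l 19)) (.a (.b (.a (.l 8) (.b (.a (.l 8) (.b (.a (.l 8) (.b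
.z (.a (.l 8) .z))) (.l 8))) (.l 8))) (.l 8)) (.b (.a (.b (.a (.b (.a .z (.l 19)) (.a (.b (.a (.l 8) .z) (.l 8)) (.b .z (.a (.l 8) .z)))) (.b (.l 19)
(.a .z (.l 19)))) (.a (.l 8) (.b (.a (.b .z (.l 8)) .z) (.a (.l 8) (.b (.a (.l 8) .z) (.l 8)))))) (.b (.l 19) (.a (.b (.l 19) (.a (.b .z (.a (.l 8)
.z)) .z)) (.l 19)))) (.a (.l 8) (.b (.a (.b (.a (.l 8) (.b .z (.l 8))) (.l 8)) (.b .z (.a (.l 8) (.b .z (.a (.l 8) .z))))) (.l 8))))))) (.l 8)) (.b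
(.a (.b (.l 19) (.a (.b (.l 19) (.a (.b (.a (.b (.l 19) (.a .z (.l 19))) (.l 19)) (.a (.b (.a (.b (.a (.l 8) .z) (.l 8)) .z) (.l 8)) (.b (.a .z (.l
19)) (.a (.b .z (.a (.l 8) .z)) .z)))) (.l 19))) (.l 19))) (.l 19)) (.a (.b (.a (.b (.a (.b (.a (.l 8) (.b (.a (.l 8) (.b (.a (.l 8) .z) (.l 8))) (.l
8))) (.l 8)) (.b (.a (.b (.a .z (.l 19)) (.a (.b (.a (.l 8) .z) (.l 8)) (.b .z (.a (.l 8) .z)))) (.b (.l 19) (.a .z (.l 19)))) (.a (.l 8) (.b (.a (.b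
.z (.l 8)) .z) (.a (.l 8) (.b (.a (.l 8) .z) (.l 8))))))) (.l 8)) (.b (.a (.b (.l 19) (.a (.b (.l 19) (.a (.b .z (.a (.l 8) .z)) .z)) (.l 19))) (.l
19)) (.a (.b (.a (.b (.a (.l 8) (.b .z (.l 8))) (.l 8)) (.b (.a .z (.l 19)) (.a (.b (.a (.l 8) .z) (.l 8)) .z))) (.l 8)) (.b (.a (.b (.l 19) (.a .z
(.l 19))) (.l 19)) (.a (.b (.a (.b .z (.a (.l 8) .z)) .z) (.a (.l 8) (.b (.a (.l 8) .z) (.l 8)))) (.b (.l 19) (.a .z (.l 19)))))))) (.a (.l 8) (.b (.a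
(.l 8) (.b (.a (.l 8) (.b (.a (.b (.a (.l 8) .z) (.l 8)) (.b .z (.a (.l 8) .z))) (.l 8))) (.l 8))) (.l 8)))) (.b (.l 19) (.a (.b (.a (.b (.a (.b (.a
.z (.l 19)) (.a (.b .z (.a (.l 8) .z)) .z)) (.l 19)) (.a (.b (.a (.l 8) (.b (.a (.l 8) .z) (.l 8))) (.l 8)) (.b (.a .z (.l 19)) (.a (.b (.a (.l 8) .z)
(.l 8)) (.b .z (.a (.l 8) .z)))))) (.b (.l 19) (.a (.b (.l 19) (.a .z (.l 19))) (.l 19)))) (.a (.l 8) (.b (.a (.b (.a (.b .z (.a (.l 8) .z)) .z) (.a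
(.l 8) (.b (.a (.l 8) .z) (.l 8)))) (.b (.l 19) (.a .z (.l 19)))) (.a (.l 8) (.b (.a (.b (.a (.l 8) .z) (.l 8)) (.b .z (.a (.l 8) .z))) (.l 8))))))
(.b (.l 19) (.a (.b (.l 19) (.a (.b (.a .z (.l 19)) (.a (.b .z (.a (.l 8) .z)) .z)) (.l 19))) (.l 19)))))))) (.a (.l 8) (.b (.a (.l 8) (.b (.a (.l 8)
(.b (.a (.b (.a (.b (.a (.l 8) (.b (.a (.l 8) .z) (.l 8))) (.l 8)) (.b (.a .z (.l 19)) (.a (.b (.a (.l 8) .z) (.l 8)) .z))) (.l 8)) (.b (.a (.b (.l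
19) (.a .z (.l 19))) (.l 19)) (.a (.b (.a (.b .z (.a (.l 8) .z)) .z) (.a (.l 8) (.b .z (.a (.l 8) .z)))) (.b (.l 19) (.a .z (.l 19)))))) (.a (.l 8)
(.b (.a (.l 8) (.b (.a (.b (.a (.l 8) .z) (.l 8)) .z) (.a (.l 8) (.b (.a (.l 8) .z) (.l 8))))) (.l 8))))) (.l 8))) (.l 8)))) (.b (.l 19) (.a (.b (.a
(.b (.a (.b (.l 19) (.a (.b (.a (.b (.l 19) (.a .z (.l 19))) (.l 19)) (.a (.b (.a (.b (.a (.l 8) .z) (.l 8)) (.b .z (.a (.l 8) .z))) (.l 8)) (.b (.a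
.z (.l 19)) (.a (.b .z (.a (.l 8) .z)) .z)))) (.l 19))) (.l 19)) (.a (.b (.a (.b (.a (.l 8) (.b (.a (.l 8) (.b .z (.l 8))) (.l 8))) (.l 8)) (.b (.a
(.b (.a .z (.l 19)) (.a (.b (.a (.l 8) .z) (.l 8)) .z)) (.l 19)) (.a (.b (.a (.l 8) (.b (.a (.l 8) .z) (.l 8))) (.l 8)) (.b (.a .z (.l 19)) (.a (.b
(.a (.l 8) .z) (.l 8)) (.b .z (.a (.l 8) .z))))))) (.l 8)) (.b (.a (.b (.l 19) (.a (.b (.l 19) (.a .z (.l 19))) (.l 19))) (.l 19)) (.a (.b (.a (.b (.a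
(.b .z (.a (.l 8) .z)) .z) (.a (.l 8) (.b .z (.a (.l 8) .z)))) (.b (.l 19) (.a .z (.l 19)))) (.a (.l 8) (.b (.a (.b .z (.a (.l 8) .z)) .z) (.a (.l 8)
(.b (.a (.l 8) .z) (.l 8)))))) (.b (.l 19) (.a (.b (.l 19) (.a .z (.l 19))) (.l 19))))))) (.l 19)) (.a (.b (.a (.l 8) (.b (.a (.l 8) (.b (.a (.b (.a
(.b (.a (.l 8) .z) (.l 8)) .z) (.a (.l 8) (.b (.a (.l 8) .z) (.l 8)))) (.b (.l 19) (.a .z (.l 19)))) (.a (.l 8) (.b (.a (.b (.a (.l 8) .z) (.l 8)) .z)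
(.a (.l 8) (.b (.a (.l 8) .z) (.l 8))))))) (.l 8))) (.l 8)) (.b (.a (.b (.a (.b (.l 19) (.a (.b (.l 19) (.a (.b .z (.a (.l 8) .z)) .z)) (.l 19))) (.l
19)) (.a (.b (.a (.b (.a (.l 8) (.b .z (.a (.l 8) .z))) (.l 8)) (.b (.a .z (.l 19)) (.a (.b .z (.a (.l 8) .z)) .z))) (.a (.l 8) (.b (.a (.l 8) (.b .z
(.a (.l 8) .z))) (.l 8)))) (.b (.l 19) (.a (.b (.a .z (.l 19)) (.a (.b .z (.a (.l 8) .z)) .z)) (.l 19))))) (.l 19)) (.a (.b (.a (.l 8) (.b (.a (.b (.a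
(.l 8) (.b .z (.a (.l 8) .z))) (.l 8)) (.b (.a .z (.l 19)) (.a (.b .z (.a (.l 8) .z)) .z))) (.a (.l 8) (.b (.a (.l 8) (.b .z (.a (.l 8) .z))) (.l
8))))) (.l 8)) (.b (.a (.b (.l 19) (.a (.b (.a .z (.l 19)) (.a (.b .z (.a (.l 8) .z)) .z)) (.l 19))) (.l 19)) (.a (.b (.a (.b (.a (.l 8) (.b (.a (.l
8) .z) (.l 8))) (.l 8)) (.b (.a .z (.l 19)) (.a (.b (.a (.l 8) .z) (.l 8)) .z))) (.a (.l 8) (.b (.a (.l 8) (.b (.a (.l 8) .z) (.l 8))) (.l 8)))) (.a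
(.b (.l 19) (.a (.b .z (.a (.l 8) (.b .z (.l 8)))) (.b (.l 19) .z))) (.l 19)))))))) (.l 19))))) (.l 19))

theorem vQ75 : ev Q75 I3_1 I4_8 = 7783796088813126 := by decide +kernel

noncomputable def Q239 : QT :=
(.a (.b (.b (.b (.b (.b (.a (.b (.a (.b .z (.l 55)) (.b (.b .z (.l 55)) (.a (.l 55) .z))) (.a (.b (.l 55) .z) (.b .z (.a .z (.l 56))))) (.b (.a (.b
(.a (.l 55) .z) .z) (.b (.a .z (.l 56)) (.a (.l 56) .z))) (.a (.b (.l 56) .z) .z))) (.a (.b (.a (.b (.a .z (.l 56)) (.a (.l 56) .z)) (.b (.a (.l 56)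
.z) .z)) (.a (.b .z (.l 61)) (.b (.b (.l 59) .z) (.l 61)))) (.b (.a (.b .z (.l 59)) (.b (.b (.l 58) .z) (.l 59))) (.b (.b (.l 59) .z) (.l 61))))) (.b
(.b (.a (.l 61) (.b (.l 61) (.a (.l 61) (.b (.l 61) .z)))) (.a (.b (.a (.l 61) (.b (.l 61) .z)) .z) .z)) (.b .z (.a (.a (.l 67) .z) .z)))) (.b (.b (.a
(.b .z (.a (.b .z (.l 73)) (.l 73))) (.b .z (.b (.l 73) (.a (.l 73) .z)))) (.b (.a (.b (.l 73) .z) .z) .z)) (.b (.a (.b (.a (.b (.l 79) .z) .z) (.a .z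
(.b .z (.l 85)))) (.b (.a .z (.b .z (.l 83))) (.b (.b .z (.l 85)) (.l 85)))) (.b (.a (.b (.l 85) .z) .z) .z)))) (.b (.b (.b (.a .z (.b (.a .z (.b .z
(.l 97))) .z)) (.b (.b .z (.a (.b .z (.l 103)) .z)) (.a .z (.b .z (.b (.l 109) .z))))) (.b (.b .z (.a (.b (.b .z (.l 115)) .z) .z)) (.b .z (.b .z (.a
(.a (.l 127) .z) .z))))) .z)) .z) (.a (.b (.b (.b (.b (.b (.b (.a (.b (.a (.l 56) .z) .z) .z) .z) (.b (.b .z (.l 59)) (.b (.b (.l 59) .z) (.l 61))))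
(.b (.b (.b (.a (.l 61) .z) .z) .z) .z)) (.b (.b (.b (.b (.b .z (.l 71)) (.b (.l 71) .z)) (.b (.a (.l 73) .z) .z)) .z) (.b (.b (.b .z (.l 83)) .z)
.z))) (.b (.b (.b (.b (.b (.b (.l 95) .z) .z) .z) .z) .z) .z)) .z) (.b (.b (.a (.b (.b (.b .z (.b (.b .z (.l 59)) (.b (.b (.l 59) .z) (.b (.l 61)
.z)))) .z) (.b .z (.b (.b (.b .z (.l 83)) .z) .z))) (.b (.b (.b (.b .z (.b (.l 91) .z)) (.b (.b .z (.l 59)) (.b (.b (.l 59) .z) .z))) .z) (.a .z (.b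
.z (.a .z (.b (.l 47) .z)))))) (.a .z (.b (.a (.b (.a .z (.b .z (.b .z (.l 59)))) .z) (.b (.a (.b .z (.b .z (.l 59))) .z) .z)) (.a .z (.b (.b (.b (.b
.z (.l 53)) .z) .z) .z))))) .z)))

theorem vQ239 : ev Q239 I6_42 I4_15 = 64849762694554 := by decide +kernel

noncomputable def Q74 : QT :=
(.b (.a (.b (.a (.b (.a (.b (.l 46) (.a (.b (.l 46) (.a (.b (.l 46) (.a (.l 46) (.b (.l 46) .z))) (.b (.a (.l 46) (.b (.l 46) .z)) (.a (.b .z (.a (.b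
.z (.l 10)) (.l 10))) (.b (.a (.b .z (.l 10)) (.l 10)) (.l 10)))))) (.b (.a (.b (.l 46) (.a (.b (.l 46) .z) (.b .z (.a .z (.b .z (.l 10)))))) (.b (.a
(.b (.l 46) .z) (.b .z (.a .z (.l 10)))) (.a (.b (.a .z (.b .z (.l 10))) (.l 10)) (.l 10)))) (.a (.b (.a (.b (.a .z (.b .z (.l 10))) (.a (.b .z (.l
10)) (.l 10))) (.l 10)) (.l 10)) (.l 10))))) (.b (.a (.b (.a (.l 46) (.b (.l 46) (.a (.l 46) (.b (.l 46) .z)))) (.a (.b (.l 46) (.a (.b (.l 46) .z)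
(.b .z (.a (.b .z (.l 10)) (.l 10))))) (.b (.a (.b .z (.a .z (.b .z (.l 10)))) (.b (.a .z (.b .z (.l 10))) (.l 10))) (.a (.b (.a (.b .z (.l 10)) (.l
10)) (.l 10)) (.l 10))))) (.b (.a (.b (.a (.l 46) (.b (.l 46) .z)) (.a (.b .z (.a .z (.b .z (.l 10)))) (.b (.a (.b .z (.l 10)) (.l 10)) (.l 10)))) (.b
(.a (.b .z (.a (.b .z (.l 10)) (.l 10))) (.b (.a (.b .z (.l 10)) (.l 10)) (.l 10))) (.l 10))) (.l 10))) (.a (.b (.a (.b (.a (.b (.a (.b .z (.l 10))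
(.l 10)) (.l 10)) (.l 10)) (.l 10)) (.l 10)) (.l 10)) (.l 10)))) (.a (.b (.a (.b (.a (.b (.a (.b .z (.a .z (.b .z (.l 10)))) (.b (.a (.b .z (.l 10))
(.l 10)) (.l 10))) (.l 10)) (.l 10)) (.l 10)) (.l 10)) (.l 10)) (.l 10))) (.l 10)) (.l 10)) (.l 10)) (.l 10))

theorem vQ74 : ev Q74 I4_3 I4_7 = 3895146959795581 := by decide +kernel

end Pool.Agent.Helper64.SPW.Dat
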