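import Pool.Agent.Helper64.SPW.Iv

/-! Boxes of traces, part 7 (data and kernel evaluation). -/

set_option maxRecDepth 1000000
set_option maxHeartbeats 0

namespace Pool.Agent.Helper64.SPW.Dat

noncomputable def Q218 : QT :=
(.a (.b (.a (.b (.l 8) (.a (.l 8) (.b (.l 8) (.a (.l 8) (.b (.l 8) (.a (.l 8) (.b (.a (.l 8) (.b (.l 8) (.a (.l 8) (.b (.a (.l 8) .z) .z)))) (.a (.b
(.l 8) (.a (.l 8) (.b (.a (.l 8) .z) .z))) (.b (.a (.b (.a (.l 8) .z) .z) .z) .z))))))))) (.b (.a (.b (.l 8) (.a (.l 8) (.b (.l 8) (.a (.l 8) (.b (.a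
(.l 8) (.b (.l 8) (.a (.l 8) (.b (.a (.l 8) .z) .z)))) (.a (.b (.l 8) (.a (.l 8) (.b (.a (.l 8) .z) .z))) (.b (.a (.b (.a (.l 8) .z) .z) .z) .z)))))))
(.b (.a (.b (.l 8) (.a (.l 8) (.b (.a (.l 8) (.b (.l 8) (.a (.l 8) (.b (.l 8) (.a (.l 8) .z))))) (.a (.b (.l 8) (.a (.l 8) (.b (.l 8) (.a (.l 8)
.z)))) (.b (.a (.b (.l 8) (.a (.l 8) .z)) .z) .z))))) (.b (.a (.b (.a (.l 8) (.b (.l 8) (.a (.l 8) (.b (.l 8) (.a (.l 8) .z))))) (.a (.b (.l 8) (.a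
(.l 8) (.b (.l 8) (.a (.l 8) .z)))) (.b (.a (.b (.l 8) (.a (.l 8) .z)) .z) .z))) (.b (.a (.b (.a (.b (.l 8) (.a (.l 8) .z)) .z) .z) .z) (.l 183))) (.a
(.b (.a (.b (.a (.b (.l 8) (.a (.l 8) .z)) .z) .z) .z) (.l 183)) (.a (.l 183) .z)))) (.a (.b (.a (.b (.a (.l 8) (.b (.l 8) (.a (.l 8) (.b (.l 8) (.a
(.l 8) .z))))) (.a (.b (.l 8) (.a (.l 8) (.b (.l 8) (.a (.l 8) .z)))) (.b (.a (.b (.l 8) (.a (.l 8) .z)) .z) .z))) (.b (.a (.b (.a (.b (.l 8) (.a (.l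
8) .z)) .z) .z) .z) (.l 183))) (.a (.b (.a (.b (.a (.b (.l 8) (.a (.l 8) .z)) .z) .z) .z) (.l 183)) (.l 183))) (.a (.b (.a (.l 183) .z) (.a .z (.b .z
(.a .z (.l 53))))) (.b (.a .z (.b (.a .z (.l 53)) (.l 53))) (.l 53)))))) (.a (.b (.a (.b (.l 8) (.a (.l 8) (.b (.a (.l 8) (.b (.l 8) (.a (.l 8) (.b
(.a (.l 8) .z) .z)))) (.a (.b (.l 8) (.a (.l 8) (.b (.a (.l 8) .z) .z))) (.b (.a (.b (.a (.l 8) .z) .z) .z) .z))))) (.b (.a (.b (.a (.l 8) (.b (.l 8)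
(.a (.l 8) (.b (.a (.l 8) .z) .z)))) (.a (.b (.l 8) (.a (.l 8) (.b (.a (.l 8) .z) .z))) (.b (.a (.b (.a (.l 8) .z) .z) .z) .z))) (.b (.a (.b (.a (.b
(.a (.l 8) .z) .z) .z) .z) .z) (.l 183))) (.a (.b (.a (.b (.a (.b (.a (.l 8) .z) .z) .z) .z) .z) .z) (.a .z (.l 183))))) (.a (.b (.a (.b (.a (.l 8)
(.b (.l 8) (.a (.l 8) (.b (.a (.l 8) .z) .z)))) (.a (.b (.l 8) (.a (.l 8) (.b (.a (.l 8) .z) .z))) (.b (.a (.b (.a (.l 8) .z) .z) .z) .z))) (.b (.a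
(.b (.a (.b (.a (.l 8) .z) .z) .z) .z) .z) .z)) (.a (.b (.a (.b (.a (.b (.a (.l 8) .z) .z) .z) .z) .z) (.l 141)) (.a (.l 141) .z))) .z)) (.a (.b (.a
(.b (.l 183) (.a (.l 183) .z)) (.b (.a (.l 183) .z) (.a (.b .z (.a .z (.l 53))) (.b (.a .z (.l 53)) (.l 53))))) (.a (.b (.a .z (.b .z (.l 53))) (.a
(.b (.a .z (.l 53)) (.l 53)) (.l 53))) (.l 53))) (.b (.a (.b (.a (.b (.a .z (.l 53)) (.l 53)) (.l 53)) (.l 53)) (.l 53)) (.l 53)))))) (.a (.b (.a (.b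
(.l 8) (.a (.l 8) (.b (.l 8) (.a (.l 8) (.b (.a (.l 8) (.b (.a (.l 8) (.b (.l 8) (.a (.l 8) .z))) (.a (.b (.l 8) (.a (.l 8) .z)) .z))) (.a (.b (.a (.l
8) (.b (.l 8) (.a (.l 8) .z))) (.a (.b (.l 8) (.a (.l 8) .z)) .z)) .z)))))) (.b (.a (.b (.l 8) (.a (.l 8) (.b (.a (.l 8) (.b (.l 8) (.a (.l 8) (.b (.a
(.l 8) .z) .z)))) (.a (.b (.l 8) (.a (.l 8) (.b (.a (.l 8) .z) .z))) (.b (.a (.b (.a (.l 8) .z) .z) .z) .z))))) (.b (.a (.b (.a (.l 8) (.b (.l 8) (.a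
(.l 8) (.b (.a (.l 8) .z) .z)))) (.a (.b (.l 8) (.a (.l 8) (.b (.a (.l 8) .z) .z))) (.b (.a (.b (.a (.l 8) .z) .z) .z) .z))) (.b (.a (.b (.a (.b (.a
(.l 8) .z) .z) .z) .z) .z) (.l 141))) (.a (.b (.a (.b (.a (.b (.a (.l 8) .z) .z) .z) .z) .z) (.l 141)) (.l 141)))) (.a (.b (.a (.b (.a (.l 8) (.b (.l
8) (.a (.l 8) (.b (.a (.l 8) .z) .z)))) (.a (.b (.l 8) (.a (.l 8) (.b (.a (.l 8) .z) .z))) (.b (.a (.b (.a (.l 8) .z) .z) .z) .z))) (.b (.a (.b (.a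
(.b (.a (.l 8) .z) .z) .z) .z) .z) .z)) .z) (.b (.b (.a (.l 141) .z) .z) (.b (.a (.l 75) (.b .z (.l 75))) (.a (.l 75) (.b (.l 75) .z))))))) (.a (.b
(.a (.b (.l 8) (.a (.l 8) (.b (.a (.l 8) (.b (.a (.l 8) (.b (.l 8) (.a (.l 8) .z))) (.a (.b (.l 8) (.a (.l 8) .z)) .z))) (.a (.b (.a (.l 8) (.b (.l 8)
(.a (.l 8) .z))) (.a (.b (.l 8) (.a (.l 8) .z)) .z)) .z)))) (.b (.a (.b (.a (.l 8) (.b (.a (.l 8) (.b (.l 8) (.a (.l 8) .z))) (.a (.b (.l 8) (.a (.l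
8) .z)) .z))) (.a (.b (.a (.l 8) (.b (.l 8) (.a (.l 8) .z))) (.a (.b (.l 8) (.a (.l 8) .z)) .z)) .z)) .z) (.a (.b .z (.b (.a .z (.b .z (.l 27))) (.l
27))) (.b (.b .z (.a .z (.b .z (.l 27)))) (.l 27))))) (.a (.b (.a (.b (.a (.l 8) (.b (.a (.l 8) (.b (.l 8) (.a (.l 8) .z))) (.a (.b (.l 8) (.a (.l 8)
.z)) .z))) (.a (.b (.a (.l 8) (.b (.l 8) (.a (.l 8) .z))) (.a (.b (.l 8) (.a (.l 8) .z)) .z)) (.b (.a .z (.l 9)) (.l 9)))) (.b (.a (.b (.a .z (.l 9))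
(.l 9)) (.b (.b (.a (.l 9) .z) (.l 9)) (.l 9))) (.l 9))) (.a (.b (.a (.b (.a .z (.l 9)) (.l 9)) (.l 9)) (.l 9)) (.l 9))) (.b (.b (.b (.b (.a .z (.a .z
(.l 27))) (.a (.l 9) .z)) (.l 9)) (.l 9)) (.l 9)))) (.b (.b (.a (.b .z (.a .z (.b .z (.a (.b .z (.l 27)) (.l 27))))) (.b (.a .z (.b (.a .z (.b .z (.l
27))) (.l 27))) (.a (.b (.a (.b .z (.l 27)) (.l 27)) (.l 27)) (.l 27)))) (.a (.b (.a (.b (.a .z (.l 27)) (.l 27)) (.l 27)) (.l 27)) (.l 27))) (.b (.b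
(.b (.a (.b (.l 27) (.a (.a .z (.l 27)) (.l 27))) (.l 27)) (.a (.b (.a (.a (.a (.l 9) .z) .z) .z) (.a (.l 9) (.a (.l 9) .z))) (.b (.l 27) (.a .z (.l
27))))) (.b (.a (.l 9) (.b (.a (.a (.l 9) .z) .z) (.a (.l 9) (.a (.l 9) (.a (.l 9) .z))))) (.l 9))) (.l 9))))) (.b (.b (.a (.a (.a (.b (.a (.l 141)
.z) .z) .z) (.a (.b .z (.a .z (.b .z (.l 53)))) (.b (.a (.b .z (.a .z (.l 53))) (.l 53)) (.l 53)))) (.b (.l 53) (.a (.b (.l 53) (.a (.l 53) (.b (.l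
53) (.a (.l 53) .z)))) (.b (.a (.l 53) (.b (.a (.l 53) .z) (.a .z (.b .z (.l 27))))) (.a (.b .z (.a .z (.l 27))) (.b (.a (.b .z (.l 27)) (.l 27)) (.l
27))))))) (.a (.b (.a (.a (.a .z (.l 181)) .z) (.b (.a (.a (.a .z (.l 53)) (.l 53)) (.l 53)) (.a (.b (.l 53) (.a (.l 53) .z)) (.b (.a (.l 53) .z) (.a
.z (.b .z (.l 27))))))) (.a (.b .z (.a (.b .z (.a .z (.b .z (.l 27)))) (.b (.a (.b .z (.l 27)) (.l 27)) (.l 27)))) (.b (.a (.b (.a .z (.b .z (.l 27)))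
(.a (.b .z (.l 27)) (.l 27))) (.l 27)) (.l 27)))) (.b (.a (.b (.a (.b (.a (.l 53) .z) .z) (.b (.a .z (.b .z (.l 27))) (.l 27))) (.a (.b (.a (.b .z (.l
27)) (.l 27)) (.l 27)) (.l 27))) (.l 27)) (.l 27)))) (.b (.l 27) (.b (.b (.l 27) (.a (.b (.a (.b (.l 27) (.a .z (.l 27))) (.l 27)) (.a (.b (.a (.a (.l
9) (.a (.l 9) .z)) .z) (.a (.l 9) (.a (.l 9) (.a (.l 9) .z)))) (.b (.l 27) (.a .z (.l 27))))) (.l 27))) (.a (.b (.a (.l 9) (.b (.a (.b (.a (.l 9) (.a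
(.l 9) .z)) (.l 9)) (.b .z (.a (.l 9) (.a (.l 9) .z)))) (.l 9))) (.l 9)) (.b (.a (.b (.a (.b (.l 27) .z) (.l 27)) (.a (.b (.a (.l 9) (.a (.l 9) .z))
(.l 9)) (.b .z (.a (.l 9) .z)))) (.b (.l 27) (.a (.b (.l 27) .z) (.l 27)))) (.a (.l 9) (.b (.a (.b (.a (.l 9) .z) (.l 9)) (.b .z (.a (.l 9) .z))) (.l
9)))))))))) (.b (.a (.a (.b (.a (.b (.a (.b (.a .z (.b .z (.a .z (.l 53)))) (.a (.b .z (.l 53)) (.l 53))) (.b (.a (.b (.a .z (.l 53)) (.l 53)) (.l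
53)) (.l 53))) (.l 53)) (.l 53)) (.b (.l 53) (.b (.l 53) (.a (.l 53) (.b (.l 53) (.a (.l 53) (.b (.a (.l 53) .z) (.a .z (.b .z (.l 27)))))))))) (.a
(.a (.b (.l 53) (.b (.l 53) (.b (.l 53) (.b (.b (.l 53) .z) (.b (.a .z (.l 27)) (.l 27)))))) (.a (.a (.b (.l 53) (.b (.l 53) (.b (.l 53) (.b .z (.l
27))))) (.a .z (.l 23))) (.l 23))) (.l 23))) (.l 23)) (.a (.b (.a (.b (.b (.a (.b (.a (.l 53) (.b (.l 53) (.a (.l 53) .z))) (.a (.b (.l 53) .z) (.b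
(.a .z (.b .z (.l 27))) (.a (.b .z (.l 27)) (.l 27))))) (.b (.a (.b .z (.a .z (.l 27))) (.b (.a (.b .z (.l 27)) (.l 27)) (.l 27))) (.l 27))) (.a (.b
(.a (.b (.a .z (.l 27)) (.l 27)) (.l 27)) (.l 27)) (.l 27))) (.l 27)) (.a (.a (.l 27) (.a (.a (.l 27) (.a .z (.l 23))) (.l 23))) (.l 23))) (.a (.b (.l
27) (.b (.l 27) (.b (.l 27) (.a (.b (.a (.b (.l 27) (.a .z (.l 27))) (.l 27)) (.a (.b (.a (.a (.l 9) .z) .z) (.l 9)) (.b (.a .z (.l 27)) .z))) (.b (.l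
27) (.a (.b (.l 27) (.a .z (.l 27))) (.l 27))))))) (.b (.a (.a (.l 27) (.a (.a (.l 27) (.a .z (.l 23))) (.l 23))) (.l 23)) (.a (.a (.l 27) (.a (.a (.l
27) (.a .z (.l 23))) (.l 23))) (.b (.l 23) (.a (.b (.l 23) (.a (.b (.l 23) (.a (.l 23) .z)) (.b (.a (.l 23) .z) .z))) (.b (.a (.b (.l 23) (.a (.l 23)
.z)) (.b (.a (.l 23) .z) .z)) (.a (.b .z (.l 19)) (.l 19))))))))) (.b (.a (.l 23) (.b (.l 23) (.a (.b (.l 23) (.a (.l 23) (.b (.l 23) (.a (.l 23) (.b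
(.l 23) .z))))) (.b (.a (.l 23) (.b (.l 23) (.a (.b (.l 23) (.a (.l 23) .z)) (.b .z (.a .z (.l 19)))))) (.a (.b (.a (.b (.l 23) (.a (.l 23) .z)) (.b
(.a (.l 23) .z) .z)) (.a (.b .z (.a .z (.l 19))) (.l 19))) (.b (.a (.b .z (.l 19)) (.l 19)) (.l 19))))))) (.a (.b (.a (.l 23) (.b (.a (.l 23) (.b (.l
23) (.a (.l 23) (.b (.l 23) (.a (.l 23) .z))))) (.a (.b (.a (.l 23) (.b (.l 23) (.a (.l 23) .z))) (.a (.b (.l 23) .z) (.b .z (.a .z (.l 19))))) (.b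
(.a (.b (.a (.l 23) .z) .z) (.b .z (.l 19))) (.l 19))))) (.a (.b (.a (.b (.l 23) (.a (.b (.l 23) .z) (.b .z (.a .z (.l 19))))) (.b (.a (.b (.l 23) .z)
(.b .z (.a .z (.l 19)))) (.a (.b (.a .z (.l 19)) (.l 19)) (.l 19)))) (.a (.b (.a (.b (.a .z (.l 19)) (.l 19)) (.l 19)) (.l 19)) (.l 19))) (.b (.a (.b
(.a (.b (.a .z (.l 19)) (.l 19)) (.l 19)) (.l 19)) (.l 19)) (.l 19)))) (.b (.a (.b (.a (.b (.a (.l 23) (.b (.l 23) .z)) (.a (.b (.a (.l 23) .z) .z)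
(.b (.a .z (.l 19)) (.l 19)))) (.b (.a (.b .z (.a .z (.l 19))) (.b (.a .z (.l 19)) (.l 19))) (.l 19))) (.l 19)) (.l 19)) (.l 19)))))))

theorem vQ218 : ev Q218 I4_10 I5_25 = 1749985035164109 := by decide +kernel

noncomputable def Q15 : QT :=
(.a (.a (.l 28) (.a (.a (.b (.l 28) (.a (.b (.l 28) (.a (.l 28) (.b (.l 28) (.a (.b (.l 28) (.a (.l 28) (.b (.l 28) .z))) (.b (.a (.b (.l 28) .z) .z)
(.a .z (.l 45))))))) (.b (.a (.b (.l 28) (.a (.l 28) (.b (.l 28) (.a (.l 28) (.b (.l 28) .z))))) (.b (.a (.l 28) (.b (.l 28) (.a (.l 28) (.b (.l 28)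
.z)))) (.a (.b (.a (.l 28) (.b (.l 28) .z)) .z) (.b .z (.a (.l 45) .z))))) (.a (.b (.a (.b (.l 28) (.a (.b (.l 28) .z) .z)) (.b (.a (.b (.l 28) .z)
.z) (.a .z (.l 45)))) (.a (.b (.a .z (.l 45)) .z) .z)) (.b (.a (.b (.a (.l 45) .z) .z) (.b .z (.l 76))) (.a (.b .z (.l 76)) (.l 76))))))) (.b (.a (.b
(.l 28) (.a (.b (.l 28) (.a (.l 28) (.b (.l 28) (.a (.b (.l 28) .z) .z)))) (.b (.a (.b (.l 28) (.a (.l 28) (.b (.l 28) .z))) (.b (.a (.l 28) .z) .z))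
(.a (.b .z (.a .z (.l 45))) (.b (.l 45) .z))))) (.b (.a (.b (.a (.l 28) (.b (.l 28) (.a (.l 28) (.b (.l 28) .z)))) (.a (.b (.l 28) (.a (.b (.l 28) .z)
.z)) (.b .z (.a .z (.l 45))))) (.b (.a (.b (.a (.l 28) .z) .z) (.b (.a .z (.l 45)) (.l 45))) (.a (.b (.l 45) .z) .z))) (.a (.b (.a (.b (.a .z (.l 45))
(.a (.l 45) .z)) (.b (.a (.l 45) .z) .z)) (.a .z (.l 76))) (.b (.a (.b .z (.l 76)) (.l 76)) (.l 76))))) (.a (.b (.a (.b (.a (.b (.a (.b (.l 28) .z)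
.z) (.a .z (.l 45))) (.b (.a .z (.l 45)) (.a (.l 45) .z))) (.a (.b (.a (.l 45) .z) .z) (.b .z (.l 76)))) (.b (.a .z (.b .z (.l 76))) (.l 76))) (.l
76)) (.l 76)))) (.b (.a (.a (.b (.a (.b (.a (.b (.a (.l 45) .z) .z) (.b .z (.l 76))) (.a (.b .z (.l 76)) (.l 76))) (.l 76)) (.l 76)) (.l 76)) (.b (.a
(.a (.a (.l 76) (.b (.a (.l 76) .z) (.l 76))) .z) (.a (.a .z (.l 106)) (.a (.b (.a (.l 106) .z) (.l 106)) (.b .z (.a (.l 106) .z))))) (.a (.a (.l 76)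
(.a (.b (.a (.l 76) .z) (.l 76)) .z)) (.b (.a (.a .z (.l 106)) (.b (.l 106) .z)) .z)))) (.a (.b (.a (.l 76) (.b (.l 76) (.a (.l 76) (.b (.l 76) (.a
(.l 76) .z))))) (.a (.b (.l 76) (.a (.l 76) (.b (.l 76) .z))) (.b (.a (.b (.l 76) (.a (.l 76) .z)) .z) .z))) (.b (.a (.b (.a (.l 76) (.b (.a (.l 76)
.z) .z)) (.a (.b (.a (.l 76) .z) .z) .z)) .z) .z))))) (.a (.a (.b (.a (.b (.a (.b (.a (.a (.l 153) .z) .z) .z) .z) (.a .z (.b (.a .z (.b .z (.a .z (.b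
.z (.l 53))))) (.a .z (.b (.a .z (.l 53)) (.a .z (.a .z (.l 53)))))))) (.b (.a (.b .z (.a .z (.b (.a .z (.a (.l 53) .z)) (.a (.l 53) (.a (.l 53)
.z))))) (.b (.a (.b .z (.a .z (.l 97))) (.l 97)) (.a (.a .z (.b (.l 97) .z)) (.l 97)))) (.a (.b (.a (.b (.a (.b .z (.l 53)) (.l 53)) (.l 53)) (.l 53))
(.l 53)) (.a (.b .z (.a (.a (.l 53) (.b .z (.l 53))) .z)) (.b (.a .z (.b (.l 97) .z)) .z))))) (.b (.a .z (.a (.a (.b (.a (.b (.a .z (.l 53)) .z) (.l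
53)) .z) (.b (.b (.l 53) (.a (.b (.l 53) .z) .z)) .z)) .z)) (.a (.a .z (.b .z (.a .z (.l 210)))) (.b (.a .z (.a (.a (.l 224) .z) .z)) (.a .z (.a (.a
.z (.l 224)) .z)))))) (.b (.a (.a (.b (.l 97) (.a (.b (.l 97) (.a .z (.l 97))) (.l 97))) (.a (.b (.a (.b .z (.a (.l 97) .z)) .z) (.a (.l 97) (.b (.a
(.l 97) .z) (.l 97)))) .z)) (.b .z (.a .z (.b .z (.a .z (.b .z (.a .z (.b (.a .z (.l 24)) (.l 24))))))))) (.a (.b (.a (.a .z (.b (.a (.b (.l 97) .z)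
(.l 97)) .z)) (.b (.a (.l 97) (.a (.a (.l 97) .z) .z)) (.a (.a (.b (.l 97) .z) (.l 97)) (.b (.a (.l 97) .z) .z)))) (.a (.b (.a .z (.b (.l 254) .z))
(.a (.b .z (.a (.b .z (.a .z (.l 24))) (.b (.a .z (.l 24)) (.l 24)))) (.b (.a (.b .z (.a .z (.l 24))) (.b (.a .z (.l 24)) (.l 24))) (.l 24)))) (.b (.a
(.b .z (.a (.b .z (.l 24)) (.l 24))) (.b (.a (.b .z (.l 24)) (.l 24)) (.l 24))) (.l 24)))) (.b (.a (.b (.a .z (.b .z (.a .z (.b .z (.a .z (.l 24))))))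
(.a (.b (.a .z (.b .z (.a .z (.l 24)))) (.a (.b (.a .z (.l 24)) (.l 24)) (.l 24))) (.b (.a (.b (.a .z (.l 24)) (.l 24)) (.l 24)) (.l 24)))) (.b (.a
(.b (.a .z (.b .z (.l 24))) (.l 24)) (.l 24)) (.l 24))) (.l 24))))) (.b (.a (.a (.b (.a (.a .z (.a (.b (.a .z (.b (.l 41) .z)) .z) (.b (.l 41) (.a .z
(.l 41))))) (.b (.a (.l 41) (.b (.l 41) (.a (.l 41) (.b (.l 41) .z)))) (.a (.b (.a (.l 41) (.b (.l 41) .z)) (.a (.b (.l 41) .z) (.b .z (.a .z (.l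
24))))) (.b (.a .z (.b (.a .z (.l 24)) (.l 24))) (.l 24))))) (.a (.b (.a .z (.b (.a .z (.b .z (.a .z (.l 24)))) (.a (.b .z (.l 24)) (.l 24)))) (.a (.b
(.a (.b .z (.a .z (.l 24))) (.b (.a .z (.l 24)) (.l 24))) (.l 24)) (.l 24))) (.b (.a (.b (.a (.b (.a .z (.l 24)) (.l 24)) (.l 24)) (.l 24)) (.l 24))
(.l 24)))) (.b (.a (.b (.a (.b (.a (.b (.l 41) .z) .z) (.a (.b .z (.a .z (.l 24))) (.l 24))) (.b (.a (.b .z (.l 24)) (.l 24)) (.l 24))) (.l 24)) (.l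
24)) (.l 24))) (.b (.l 24) (.a (.l 24) (.b (.l 24) (.a (.l 24) (.b (.l 24) (.a (.l 24) (.b (.l 24) (.a (.l 24) (.b (.l 24) .z)))))))))) (.a (.b (.l
24) (.a (.l 24) (.b (.l 24) (.a (.l 24) (.b (.a (.l 24) (.b (.l 24) (.a (.l 24) (.b (.l 24) .z)))) (.a (.b (.l 24) (.a (.l 24) .z)) (.b (.a (.b (.l
24) .z) .z) (.a .z (.l 46))))))))) (.b (.a (.b (.l 24) (.a (.l 24) (.b (.l 24) (.a (.l 24) (.b (.a (.l 24) (.b (.l 24) .z)) (.a (.b (.l 24) .z)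
.z)))))) (.b (.a (.b (.l 24) (.a (.l 24) (.b (.l 24) (.a (.l 24) .z)))) (.b (.a (.b (.l 24) (.a (.l 24) (.b (.l 24) .z))) (.b (.a (.b (.l 24) .z) .z)
(.a .z (.l 46)))) (.a (.b (.a (.b (.l 24) .z) .z) (.a .z (.l 46))) (.l 46)))) (.a (.b (.a (.b (.l 24) (.a (.l 24) .z)) (.b .z (.a .z (.l 46)))) (.a
(.b .z (.l 46)) (.l 46))) (.l 46)))) (.a (.b (.a (.b (.l 24) (.a (.l 24) (.b (.a (.l 24) .z) .z))) (.b (.a (.b (.a (.l 24) (.b (.l 24) .z)) (.a (.b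
(.l 24) .z) .z)) (.b (.a .z (.l 46)) (.l 46))) (.a (.b (.a .z (.l 46)) (.l 46)) (.l 46)))) (.a (.b (.a (.b (.a (.b (.l 24) .z) .z) (.a .z (.l 46)))
(.b (.a .z (.l 46)) (.l 46))) (.l 46)) (.l 46))) (.l 46)))))))

theorem vQ15 : ev Q15 I3_0 I6_19 = 1443141359993068 := by decide +kernel

noncomputable def Q23 : QT :=
(.b (.b (.b (.l 39) (.b (.l 39) (.a (.l 39) (.b (.a (.l 39) (.b (.l 39) (.a (.l 39) (.b (.a (.l 39) .z) .z)))) (.a (.b (.l 39) (.a (.l 39) (.b (.a (.l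
39) .z) .z))) (.b (.a (.b (.a (.l 39) .z) .z) (.b .z (.l 74))) (.a .z (.l 74)))))))) (.b (.b (.a (.b (.a (.l 39) (.b (.a (.l 39) (.b (.l 39) (.a (.l
39) .z))) (.a (.b (.l 39) .z) .z))) (.a (.b (.a (.l 39) (.b (.a (.l 39) .z) .z)) .z) (.b .z (.a (.l 187) .z)))) (.b (.a .z (.a .z (.a (.b (.l 74) .z)
(.l 74)))) (.a .z (.a (.a (.a (.l 78) .z) .z) (.a .z (.b (.l 74) .z)))))) (.a (.a (.a (.l 123) (.a (.l 123) (.b (.a (.l 123) .z) (.l 123)))) (.a (.a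
.z (.b (.l 187) .z)) (.a (.a (.l 187) .z) .z))) (.a (.a (.a .z (.b .z (.a .z (.l 75)))) (.a (.a (.b .z (.l 75)) (.b (.l 75) .z)) (.a .z (.b .z (.l
78))))) (.a (.a (.l 78) .z) .z)))) (.a (.b (.a (.l 123) (.a (.a (.l 123) (.b .z (.l 123))) (.b .z (.a .z (.b .z (.l 75)))))) (.b (.a (.l 123) (.a (.a
(.l 123) .z) (.a (.b .z (.l 75)) (.l 75)))) (.b (.a (.l 123) (.a .z (.l 75))) (.a (.b (.a .z (.l 123)) .z) (.b (.a .z (.l 75)) (.a .z (.l 75)))))))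
(.a (.a (.a (.b (.b (.a .z (.l 75)) (.l 75)) (.a (.l 75) (.b (.l 75) .z))) (.b (.a (.l 75) (.b (.l 75) .z)) (.a .z (.b .z (.l 78))))) (.a (.b (.a .z
(.b .z (.l 78))) (.l 78)) (.l 78))) (.a (.a (.l 78) (.a (.l 78) (.b .z (.l 78)))) .z))))) (.a (.b (.b (.b (.b (.b (.a .z (.b .z (.a (.l 103) .z))) (.a
.z (.l 103))) (.a (.a .z (.a .z (.b .z (.l 103)))) (.l 103))) (.a (.a (.b .z (.a .z (.l 103))) (.l 103)) (.l 103))) (.a (.b (.b (.l 103) (.a (.b (.l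
103) .z) (.l 103))) (.b (.a (.b (.a (.l 111) .z) (.l 111)) (.b (.a .z (.l 103)) .z)) (.a (.l 111) (.b (.a (.l 111) .z) (.l 111))))) (.b (.a (.l 103)
(.b (.l 103) (.a (.l 103) (.b (.l 103) .z)))) (.a (.b (.l 103) (.a (.b .z (.l 111)) .z)) (.b (.a (.b (.l 103) .z) .z) .z))))) (.b (.a (.b (.a (.b (.l
111) (.a (.l 111) (.b (.l 111) .z))) (.b (.a (.l 111) (.b (.l 111) .z)) (.a .z (.b .z (.l 76))))) (.a (.b (.a (.b (.l 111) .z) .z) (.a (.b .z (.l 76))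
(.l 76))) (.l 76))) (.b (.a (.b (.a .z (.b .z (.l 76))) (.l 76)) (.b (.b .z (.a (.l 76) .z)) (.l 76))) (.l 76))) (.l 76))) (.b (.a (.b (.b (.b (.b (.b
(.a .z (.l 78)) (.a .z (.l 78))) .z) (.a (.a (.l 103) .z) (.l 79))) (.a (.a (.l 103) (.b (.a (.l 103) .z) (.l 103))) (.b (.a .z (.l 79)) .z))) (.b (.a
(.b (.a (.l 103) (.b (.l 103) .z)) .z) .z) (.b .z (.a (.b .z (.l 174)) (.a (.l 174) .z))))) (.a (.b (.b (.b (.b (.l 78) (.b (.l 78) .z)) (.b (.b .z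
(.l 79)) (.a (.l 79) .z))) (.b .z (.a .z (.l 152)))) .z) (.a (.b (.a (.b .z (.l 152)) .z) (.b .z (.b .z (.l 226)))) (.b (.a (.b (.b .z (.l 106)) .z)
(.b (.b .z (.l 106)) (.l 106))) (.a (.b .z (.l 226)) (.b (.a .z (.l 106)) .z)))))) (.a (.b (.b (.b (.a (.b (.l 174) .z) .z) (.a (.b .z (.a (.l 76)
.z)) .z)) (.b (.a (.l 76) (.b .z (.a (.l 76) .z))) (.l 76))) (.l 76)) (.b (.b (.a .z (.a .z (.b (.l 226) .z))) (.a (.b .z (.a (.b .z (.l 76)) .z))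
.z)) (.a (.l 76) (.b (.b (.a (.b .z (.l 76)) .z) (.l 76)) (.a (.l 76) (.b (.a (.l 76) .z) .z)))))))))

theorem vQ23 : ev Q23 I5_3 I5_13 = 665184470951529 := by decide +kernel

noncomputable def Q214 : QT :=
(.a (.b (.a (.b (.a (.b (.l 11) (.a (.b (.l 11) (.b (.a (.l 11) (.b (.a (.l 11) (.b (.l 11) (.a (.l 11) .z))) (.a (.b (.a (.l 11) (.b (.l 11) .z)) (.a
(.b (.l 11) .z) (.b .z (.a .z (.l 7))))) (.b (.a (.b .z (.a .z (.l 7))) (.b (.a .z (.l 7)) (.l 7))) (.l 7))))) (.a (.b (.a (.b (.l 11) (.a (.l 11) (.b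
(.l 11) .z))) (.b (.a (.l 11) .z) (.a .z (.b (.a .z (.l 7)) (.l 7))))) (.a (.b (.a (.b (.l 11) .z) (.b .z (.a .z (.l 7)))) (.a (.b .z (.l 7)) (.l 7)))
(.l 7))) (.b (.a (.b (.a (.b .z (.l 7)) (.l 7)) (.l 7)) (.l 7)) (.l 7))))) (.b (.b (.a (.l 11) (.b (.l 11) (.a (.l 11) (.b (.l 11) (.a (.b (.l 11) .z)
(.b .z (.a .z (.l 7)))))))) (.a (.b (.l 11) (.a (.b (.l 11) (.a (.l 11) (.b (.l 11) .z))) (.b (.a (.l 11) .z) (.a (.b .z (.a .z (.l 7))) (.b (.a .z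
(.l 7)) (.l 7)))))) (.b (.a (.b (.a (.l 11) (.b (.l 11) .z)) (.a .z (.b .z (.l 7)))) (.b (.a (.b .z (.a .z (.l 7))) (.l 7)) (.l 7))) (.a (.b (.a (.b
(.a .z (.l 7)) (.l 7)) (.l 7)) (.l 7)) (.l 7))))) (.a (.b (.b (.a (.b (.a (.b (.l 11) .z) (.b .z (.a .z (.l 7)))) (.a (.b (.a .z (.l 7)) (.l 7)) (.l
7))) (.l 7)) (.l 7)) (.l 7)) (.b (.l 7) (.a (.l 7) (.b (.l 7) (.a (.l 7) (.b (.l 7) (.a (.b (.l 7) .z) .z)))))))))) (.b (.a (.b (.l 11) (.b (.l 11)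
(.a (.b (.l 11) (.a (.l 11) (.b (.l 11) (.a (.l 11) (.b (.l 11) .z))))) (.b (.a (.l 11) (.b (.a (.l 11) (.b (.l 11) .z)) (.a .z (.b .z (.l 7))))) (.a
(.b (.a (.l 11) .z) (.a (.b .z (.a .z (.l 7))) (.b (.a .z (.l 7)) (.l 7)))) (.b (.a (.b (.a .z (.l 7)) (.l 7)) (.l 7)) (.l 7))))))) (.b (.b (.l 11)
(.a (.l 11) (.b (.l 11) (.a (.b (.l 11) (.a (.l 11) (.b (.l 11) .z))) (.b (.a (.b (.l 11) .z) (.b .z (.a .z (.l 7)))) (.a (.b .z (.a .z (.l 7))) (.l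
7))))))) (.a (.b (.b (.a (.l 11) (.b (.l 11) (.a (.l 11) .z))) (.a (.b (.l 11) (.a (.b (.l 11) .z) (.b .z (.a .z (.l 7))))) (.b (.a .z (.b (.a .z (.l
7)) (.l 7))) (.a (.b (.a .z (.l 7)) (.l 7)) (.l 7))))) (.b (.a (.b (.a (.b .z (.a .z (.l 7))) (.l 7)) (.l 7)) (.l 7)) (.l 7))) (.b (.b (.a (.b (.a (.b
(.l 11) .z) (.b .z (.a .z (.l 7)))) (.a (.b (.a .z (.l 7)) (.l 7)) (.l 7))) (.l 7)) (.l 7)) (.a (.b (.l 7) (.a (.l 7) (.b (.l 7) (.a (.l 7) (.b (.l 7)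
.z))))) (.b (.a (.l 7) (.b (.l 7) (.a (.b (.l 7) .z) .z))) (.a (.b (.a (.b (.l 7) .z) .z) (.a .z (.l 14))) (.b (.a .z (.l 14)) (.l 14))))))))) (.a (.b
(.a (.b (.b (.a (.b (.l 11) (.a (.l 11) .z)) (.b (.a (.b (.l 11) .z) (.b .z (.a .z (.l 7)))) (.a (.b .z (.l 7)) (.l 7)))) (.a (.b (.a .z (.b (.a .z
(.l 7)) (.l 7))) (.a (.b (.a .z (.l 7)) (.l 7)) (.l 7))) (.l 7))) (.l 7)) (.b (.l 7) (.a (.l 7) (.b (.l 7) (.a (.b (.l 7) (.a (.b (.l 7) .z) .z)) (.b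
(.a (.b (.l 7) .z) .z) (.a .z (.l 14)))))))) (.a (.b (.a (.l 7) (.b (.l 7) (.a (.b (.l 7) (.a (.l 7) (.b (.l 7) .z))) (.b (.a (.l 7) (.b (.l 7) .z))
.z)))) (.a (.b (.a (.l 7) (.b (.a (.l 7) (.b (.l 7) .z)) (.a (.b (.l 7) .z) .z))) (.a (.b (.a (.b (.l 7) .z) .z) (.a .z (.l 14))) (.b (.a .z (.l 14))
(.l 14)))) (.b (.a (.b .z (.l 14)) (.l 14)) (.l 14)))) (.b (.a (.b (.a (.b (.l 7) (.a (.l 7) (.b (.l 7) .z))) (.b (.a (.l 7) .z) .z)) (.a (.b .z (.l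
14)) (.l 14))) (.b (.a (.b (.a .z (.l 14)) (.l 14)) (.l 14)) (.l 14))) (.l 14)))) (.b (.a (.b (.a (.b (.l 7) (.a (.l 7) (.b (.l 7) (.a (.l 7) (.b (.l
7) .z))))) (.b (.a (.l 7) (.b (.l 7) (.a (.l 7) (.b (.l 7) .z)))) (.a (.b (.a (.l 7) (.b (.l 7) .z)) .z) (.b .z (.l 14))))) (.a (.b (.a (.b (.l 7) (.a
(.b (.l 7) .z) .z)) (.b (.a (.b (.l 7) .z) .z) (.a .z (.l 14)))) (.a (.b (.a .z (.l 14)) (.l 14)) (.l 14))) (.l 14))) (.b (.a (.b (.a (.b (.a (.l 7)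
(.b (.l 7) .z)) .z) (.b .z (.l 14))) (.l 14)) (.l 14)) (.l 14))) (.l 14))))) (.a (.b (.a (.b (.l 7) (.a (.b (.l 7) (.a (.b (.l 7) (.a (.l 7) (.b (.l
7) (.a (.b (.l 7) .z) .z)))) (.b (.a (.l 7) (.b (.l 7) (.a (.b (.l 7) .z) .z))) (.a (.b (.a (.b (.l 7) .z) .z) (.a .z (.l 14))) (.b (.a .z (.l 14))
(.l 14)))))) (.b (.a (.b (.l 7) (.a (.b (.l 7) (.a (.l 7) (.b (.l 7) .z))) (.b (.a (.l 7) (.b (.l 7) .z)) .z))) (.b (.a (.b (.l 7) (.a (.l 7) (.b (.l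
7) .z))) (.b (.a (.b (.l 7) .z) .z) (.a .z (.l 14)))) (.a (.b .z (.l 14)) (.l 14)))) (.a (.b (.a (.b .z (.a .z (.l 14))) (.l 14)) (.l 14)) (.l 14)))))
(.b (.a (.b (.a (.l 7) (.b (.l 7) (.a (.l 7) (.b (.l 7) (.a (.l 7) (.b (.l 7) .z)))))) (.a (.b (.l 7) (.a (.b (.l 7) (.a (.b (.l 7) .z) .z)) (.b (.a
(.b (.l 7) .z) .z) (.a .z (.l 14))))) (.b (.a (.b (.a (.l 7) (.b (.l 7) .z)) (.a (.b (.l 7) .z) .z)) (.b .z (.l 14))) (.a (.b (.a .z (.l 14)) (.l 14))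
(.l 14))))) (.b (.a (.b (.a (.l 7) (.b (.l 7) (.a (.l 7) (.b (.l 7) .z)))) (.a (.b (.a (.l 7) (.b (.l 7) .z)) .z) (.b .z (.l 14)))) (.b (.a (.b (.a
(.b (.l 7) .z) .z) (.a .z (.l 14))) (.b (.a .z (.l 14)) (.l 14))) (.l 14))) (.l 14))) (.a (.b (.a (.b (.a (.b (.a .z (.l 14)) (.l 14)) (.l 14)) (.l
14)) (.l 14)) (.l 14)) (.l 14)))) (.a (.b (.a (.b (.a (.b (.a (.b (.a (.l 7) (.b (.l 7) .z)) .z) (.b (.a .z (.l 14)) (.l 14))) (.l 14)) (.l 14)) (.l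
14)) (.l 14)) (.l 14)) (.l 14))) (.l 14))) (.b (.a (.b (.a (.b (.a (.b (.b (.l 11) (.a (.l 11) (.b (.a (.l 11) (.b (.l 11) .z)) (.a (.b (.l 11) .z)
(.b .z (.a .z (.l 7))))))) (.b (.a (.b (.a (.l 11) .z) (.a .z (.b (.a .z (.l 7)) (.l 7)))) (.b (.a (.b (.a .z (.l 7)) (.l 7)) (.l 7)) (.l 7))) (.a (.b
(.a (.b (.a .z (.l 7)) (.l 7)) (.l 7)) (.l 7)) (.l 7)))) (.b (.b (.a (.b (.l 11) (.a (.b (.l 11) .z) (.b .z (.a .z (.l 7))))) (.b (.a .z (.b (.a .z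
(.l 7)) (.l 7))) (.a (.b (.a .z (.l 7)) (.l 7)) (.l 7)))) (.a (.b (.a (.b .z (.a .z (.l 7))) (.l 7)) (.l 7)) (.l 7))) (.a (.b (.l 7) (.a (.b (.l 7)
(.a (.l 7) (.b (.l 7) .z))) (.b (.a (.l 7) (.b (.l 7) .z)) .z))) (.b (.a (.b (.l 7) (.a (.l 7) (.b (.l 7) .z))) (.b (.a (.l 7) (.b (.l 7) .z)) .z))
(.a (.b .z (.l 14)) (.l 14)))))) (.a (.b (.a (.b (.l 7) (.a (.l 7) (.b (.l 7) (.a (.b (.l 7) .z) .z)))) (.b (.a (.l 7) (.b (.a (.l 7) (.b (.l 7) .z))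
.z)) (.a (.b (.a (.b (.l 7) .z) .z) (.a .z (.l 14))) (.b (.a .z (.l 14)) (.l 14))))) (.a (.b (.a (.b (.a (.b (.l 7) .z) .z) (.a .z (.l 14))) (.b (.a
.z (.l 14)) (.l 14))) (.l 14)) (.l 14))) (.b (.a (.b (.a (.b .z (.l 14)) (.l 14)) (.l 14)) (.l 14)) (.l 14)))) (.b (.a (.b (.a (.b (.l 7) (.a (.b (.l
7) (.a (.l 7) .z)) (.b (.a (.b (.l 7) .z) .z) (.a .z (.l 14))))) (.b (.a (.b (.l 7) (.a (.b (.l 7) .z) .z)) (.b (.a (.b (.l 7) .z) .z) (.a .z (.l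
14)))) (.a (.b (.a .z (.l 14)) (.l 14)) (.l 14)))) (.a (.b (.a (.b .z (.l 14)) (.l 14)) (.l 14)) (.l 14))) (.b (.a (.b (.a (.b (.a .z (.l 14)) (.l
14)) (.l 14)) (.l 14)) (.l 14)) (.l 14))) (.l 14))) (.l 14)) (.l 14)) (.l 14))) (.l 14)) (.b (.a (.a (.l 14) (.a (.a (.l 14) (.a (.a (.l 14) .z) (.b
(.b .z (.b .z (.l 230))) .z))) (.b (.b .z (.b (.b (.a (.l 341) .z) (.b (.l 341) .z)) (.l 230))) .z))) (.b (.a (.a (.b .z (.b .z (.b (.b .z (.a (.l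
230) .z)) (.b (.l 230) .z)))) .z) (.a (.b .z (.b (.b (.a (.b .z (.l 238)) (.l 238)) (.a (.b (.l 238) .z) .z)) .z)) .z)) (.b (.b (.a (.a (.b .z (.b (.b
.z (.l 243)) .z)) (.a (.b .z (.b .z (.l 243))) (.a .z (.b (.b .z (.l 87)) (.b (.l 87) .z))))) (.a (.a (.b (.b (.b .z (.l 87)) (.l 87)) (.b (.l 87) (.b
(.l 87) .z))) (.a (.l 87) (.a (.l 87) .z))) .z)) (.a (.b .z (.a .z (.b (.a (.l 155) .z) .z))) .z)) (.a .z (.b (.b .z (.a .z (.a .z (.l 273)))) .z)))))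
(.b (.a (.a (.l 14) (.a (.a (.l 14) (.a (.a (.l 14) (.a .z (.b .z (.b .z (.b .z (.l 53)))))) (.b .z (.b .z (.b .z (.l 53)))))) (.b .z (.b .z (.b .z
(.l 53)))))) (.b (.b (.a (.a (.b .z (.a (.l 440) .z)) .z) (.a .z (.b .z (.a (.b .z (.a .z (.l 93))) (.b (.a .z (.l 93)) (.a (.l 93) .z)))))) (.a .z
(.b (.a (.a .z (.b .z (.a (.l 93) .z))) (.a (.b (.a (.l 93) .z) .z) (.b .z (.l 87)))) (.a (.a .z (.b .z (.l 87))) (.b (.a (.l 87) (.b (.l 87) .z)) (.a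
.z (.b .z (.l 113)))))))) (.b (.a (.b (.a .z (.b .z (.a .z (.b (.l 87) .z)))) (.a .z (.b (.a (.b (.l 87) .z) .z) (.a (.b .z (.l 113)) (.b (.l 113)
.z))))) (.b (.a (.b (.a (.l 87) .z) (.a .z (.b .z (.l 113)))) (.b (.a (.b .z (.l 113)) (.l 113)) (.l 113))) (.b (.a (.b (.l 113) (.a (.l 113) .z)) (.b
(.a (.l 113) .z) .z)) .z))) (.a (.b .z (.l 53)) (.b .z (.l 53)))))) (.a (.a (.l 14) (.a (.a (.l 14) (.a (.a (.l 14) (.a .z (.l 53))) (.l 53))) (.l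
53))) (.b (.l 53) (.a (.l 53) (.b (.a (.l 53) (.a (.l 53) (.b (.l 53) (.a (.b (.l 53) .z) .z)))) (.a (.a (.l 53) (.b (.l 53) (.a (.l 53) (.b (.a (.l
53) .z) .z)))) (.b (.a (.a (.b (.l 53) (.a (.l 53) .z)) (.b (.a (.l 53) .z) .z)) (.a .z (.b .z (.l 115)))) .z)))))))))

theorem vQ214 : ev Q214 I4_10 I4_11 = 3014491118088330 := by decide +kernel

noncomputable def Q204 : QT :=
(.b (.b (.a (.b (.a (.b (.a (.b (.a (.b (.a (.b .z (.l 17)) .z) (.l 17)) (.b (.a (.b (.l 19) .z) (.l 19)) (.a (.b .z (.l 17)) .z))) (.l 17)) (.b (.a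
(.b (.l 19) (.a (.b (.l 19) .z) (.l 19))) (.l 19)) (.a (.b (.a (.b .z (.l 17)) .z) (.l 17)) (.b (.a (.b (.l 19) .z) (.l 19)) (.a .z (.b (.l 19)
.z)))))) (.a (.l 17) (.b (.a (.l 17) (.b (.a (.l 17) (.b .z (.l 17))) (.l 17))) (.l 17)))) (.b (.l 19) (.a (.b (.a (.b (.a .z (.b (.l 19) .z)) (.a (.l
17) (.b .z (.l 17)))) (.b (.l 19) (.a .z (.b (.l 19) .z)))) (.a (.l 17) (.b (.a (.l 17) .z) (.l 17)))) (.b (.l 19) (.a (.b (.a (.b (.l 19) .z) (.l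
19)) (.a (.b .z (.l 17)) .z)) (.b (.l 19) (.a (.b (.l 19) .z) (.l 19)))))))) (.a (.b (.a (.b (.a (.b (.l 17) (.a (.b (.l 17) .z) (.l 17))) (.l 17))
(.a (.b (.a (.b .z (.l 21)) .z) (.l 21)) (.b (.a (.b (.l 17) .z) (.l 17)) (.a (.b .z (.l 21)) .z)))) (.b (.l 17) (.a (.b (.l 17) (.a (.b (.l 17) .z)
(.l 17))) (.l 17)))) (.a (.l 21) (.b (.a (.b (.a (.b .z (.l 21)) .z) (.l 21)) (.b (.a (.b (.l 17) .z) (.l 17)) (.a .z (.b (.l 17) .z)))) (.a (.l 21)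
(.b (.a (.l 21) (.b .z (.l 21))) (.l 21)))))) (.b (.a (.l 17) (.b (.a (.l 17) (.b (.a (.b .z (.l 17)) .z) (.a (.l 17) (.b .z (.l 17))))) (.l 17))) (.b
(.l 17) (.a (.a (.b (.a .z (.b (.l 17) .z)) (.a (.l 21) (.b .z (.l 21)))) (.b (.l 17) (.a .z (.b (.l 17) .z)))) (.b (.a (.l 17) (.b (.l 17) (.a (.l
17) .z))) (.a (.b (.l 17) .z) (.b .z (.a .z (.l 21)))))))))) (.b (.l 19) (.a (.b (.a (.b (.a (.b (.l 19) (.a .z (.b (.l 19) .z))) (.l 19)) (.a (.b (.a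
(.l 17) (.b .z (.l 17))) (.l 17)) (.b (.a .z (.l 19)) (.a (.b .z (.l 17)) .z)))) (.b (.l 19) (.a (.b (.l 19) (.a (.b (.l 19) .z) (.l 19))) (.l 19))))
(.a (.b (.b (.l 17) (.a (.l 17) (.b (.a (.l 17) .z) .z))) (.b (.a (.b (.a (.l 17) .z) .z) (.b (.a .z (.l 21)) (.l 21))) (.l 21))) (.b (.a (.b (.a (.b
.z (.l 17)) .z) (.a (.b .z (.l 21)) (.b .z (.l 21)))) (.b (.l 19) (.a .z (.b (.l 19) .z)))) (.a (.l 21) (.b (.a (.l 21) .z) (.l 21)))))) (.b (.l 19)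
(.a (.b (.l 19) (.a (.b (.a (.b (.l 19) .z) (.l 19)) (.a (.b .z (.l 21)) .z)) (.b (.l 19) (.a (.b (.l 19) .z) (.l 19))))) (.l 19)))))) (.a (.b (.b (.a
(.b (.a (.l 21) (.b (.l 21) (.a (.l 21) (.b (.l 21) .z)))) (.a (.b (.a (.l 21) (.b (.l 21) (.a (.l 21) .z))) (.a (.b (.l 21) .z) (.b .z (.a .z (.l
21))))) (.b (.a (.b (.a (.l 21) .z) .z) (.b (.a .z (.l 21)) (.l 21))) (.l 21)))) (.b (.a (.b (.a (.b (.l 21) (.a (.l 21) .z)) (.b (.a (.l 21) .z) .z))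
(.a (.b .z (.a .z (.l 21))) (.l 21))) (.b (.a (.b (.a .z (.l 21)) (.l 21)) (.l 21)) (.l 21))) (.l 21))) (.a (.b (.a (.b (.a (.b (.a .z (.l 21)) (.l
21)) (.l 21)) (.l 21)) (.l 21)) (.l 21)) (.l 21))) (.l 21)) (.b (.a (.l 21) (.b (.a (.b (.a (.l 21) (.b (.a .z (.b (.l 19) .z)) (.a (.l 21) (.b .z (.l
21))))) (.l 21)) (.b (.a (.b (.l 19) (.a .z (.l 19))) (.l 19)) (.a (.b (.a (.b .z (.l 21)) .z) (.l 21)) (.b (.a (.b (.l 19) .z) (.l 19)) (.a .z (.b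
(.l 19) .z)))))) (.a (.l 21) (.b (.a (.l 21) (.b (.a (.l 21) .z) (.l 21))) (.l 21))))) (.l 21)))) (.a (.b (.b (.b (.l 21) (.a (.l 21) (.b (.l 21) (.a
(.b (.l 21) (.a (.l 21) (.b (.l 21) (.a (.l 21) .z)))) (.b (.a (.l 21) (.b (.l 21) (.a (.l 21) .z))) (.a (.b (.a (.l 21) .z) .z) .z)))))) (.b (.a (.b
(.a (.l 21) (.b (.l 21) (.a (.b (.l 21) .z) .z))) (.a (.b (.a (.b (.l 21) (.a (.l 21) .z)) (.b (.a (.l 21) .z) .z)) (.a .z (.l 103))) (.b .z (.l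
103)))) (.b (.a (.b (.a (.b (.a (.l 21) .z) .z) .z) (.a .z (.l 77))) (.a (.a (.l 77) .z) (.b .z (.l 50)))) (.a (.b (.a .z (.l 77)) .z) (.a (.a (.l 77)
.z) (.l 50))))) (.a (.b (.a (.b .z (.a (.l 131) .z)) (.b (.l 103) (.a .z (.l 103)))) (.a (.a (.a .z (.l 131)) (.l 131)) (.b .z (.a .z (.b .z (.a .z
(.l 27))))))) (.b (.a (.b (.a (.l 103) .z) (.a (.l 103) .z)) (.b (.a .z (.b (.l 50) .z)) (.a .z (.b .z (.l 27))))) (.a (.b (.a .z (.b .z (.l 27))) (.a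
(.b (.a .z (.l 27)) (.l 27)) (.l 27))) (.l 27)))))) (.a (.b (.b (.b (.a (.b (.a .z (.b .z (.a .z (.l 27)))) (.a (.b (.a .z (.l 27)) (.l 27)) (.l 27)))
(.b (.a (.b (.a .z (.l 27)) (.l 27)) (.l 27)) (.l 27))) (.l 27)) (.l 27)) (.l 27)) (.b (.l 27) (.a (.b (.l 27) (.a (.l 27) (.b (.l 27) (.a (.b (.l 27)
(.a (.l 27) .z)) (.b (.a (.l 27) .z) .z))))) (.b (.a (.l 27) (.b (.l 27) (.a (.b (.l 27) .z) .z))) (.a (.b (.a (.b (.l 27) (.a (.l 27) .z)) .z) .z)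
(.b (.a .z (.l 87)) .z))))))) (.b (.a (.b (.b (.l 21) (.b (.a (.b (.l 21) (.a (.l 21) (.b (.a (.l 21) .z) .z))) (.b (.a (.b (.l 21) (.a (.l 21) .z))
(.b (.a (.l 21) .z) .z)) .z)) (.a (.b (.a .z (.b .z (.l 55))) (.l 55)) (.a (.a (.a (.l 55) .z) (.l 51)) (.b .z (.a (.l 51) .z)))))) (.b (.b (.a (.a
(.b (.a .z (.l 55)) .z) (.b (.l 55) (.a .z (.l 55)))) (.a (.a (.a (.l 55) .z) (.l 51)) (.l 51))) (.a (.b (.a (.l 50) .z) (.a (.l 50) .z)) (.b .z (.a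
(.b .z (.a .z (.l 27))) (.l 27))))) (.b (.a (.b (.a (.b .z (.a .z (.l 27))) (.b (.a .z (.l 27)) (.l 27))) (.l 27)) (.l 27)) (.l 27)))) (.b (.b (.b (.a
(.l 21) (.b (.l 21) (.a (.l 21) (.b (.l 21) .z)))) (.a (.b (.a (.l 21) (.b (.l 21) (.a (.l 21) .z))) (.a (.b (.l 21) .z) .z)) (.b (.a (.b (.a (.l 21)
.z) .z) .z) (.a .z (.l 73))))) (.b (.a (.b .z (.a .z (.a .z (.l 51)))) (.a (.b (.a (.l 51) .z) (.l 51)) (.b .z (.a (.l 51) .z)))) (.a (.a .z (.l 51))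
(.b (.l 51) (.a (.l 51) (.b (.l 51) .z)))))) (.a (.b (.b (.b (.a (.a (.l 51) .z) (.a .z (.l 51))) (.a (.b (.l 51) .z) (.b .z (.a .z (.l 27))))) (.b
(.a (.b .z (.l 27)) (.l 27)) (.l 27))) (.a (.b (.l 27) (.a (.l 27) (.b (.l 27) (.a (.l 27) .z)))) (.b (.a (.l 27) (.b (.l 27) (.a (.l 27) .z))) (.a
(.b (.a (.l 27) .z) .z) .z)))) (.b (.a (.b (.b (.b (.l 51) .z) (.b (.a .z (.l 27)) (.l 27))) (.a (.l 27) (.b (.l 27) (.a (.l 27) .z)))) (.b (.a (.b .z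
(.l 27)) (.b (.b .z (.l 27)) .z)) (.a (.b (.a (.l 27) .z) .z) (.b (.a .z (.l 23)) (.l 23))))) (.a (.b (.a (.b (.a (.l 27) .z) .z) (.b .z (.l 23))) (.b
(.l 23) (.a (.b (.l 23) .z) (.l 23)))) (.l 23)))))) (.a (.b (.a (.b (.l 27) (.a (.l 27) (.b (.l 27) (.a (.b (.l 27) .z) .z)))) (.b (.a (.b (.l 27) (.a
(.l 27) (.b (.l 27) (.a (.l 27) .z)))) (.b (.a (.l 27) (.b (.l 27) (.a (.l 27) .z))) (.a (.b (.a (.l 27) .z) .z) .z))) (.a (.b (.a (.b (.l 27) .z) .z)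
(.a .z (.l 85))) (.l 85)))) (.a (.b (.a (.b (.a (.b (.l 27) .z) .z) .z) (.b .z (.b .z (.l 87)))) (.b (.l 87) .z)) (.b (.b (.b (.l 85) .z) .z) (.a (.b
.z (.a (.b .z (.l 65)) .z)) (.b (.b .z (.l 99)) (.b (.l 99) .z)))))) (.b (.a (.b (.a (.b (.a (.b (.a (.l 27) .z) .z) .z) (.l 85)) (.b (.a (.l 85) .z)
(.l 85))) (.b (.l 85) (.a (.l 85) .z))) (.b (.b (.a (.b (.a .z (.b (.l 23) .z)) .z) (.b (.l 23) (.a .z (.b (.l 23) .z)))) .z) (.b .z (.a (.b .z (.a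
(.l 57) .z)) .z)))) (.b (.a (.b (.a .z (.b (.a .z (.l 57)) (.l 57))) (.a .z (.l 57))) (.b (.a (.a (.l 57) .z) .z) (.a (.b (.a (.l 57) .z) (.a (.l 57)
.z)) (.b .z (.a .z (.l 27)))))) (.a (.b (.a .z (.b (.l 57) .z)) (.a (.b (.l 99) .z) (.b .z (.a .z (.b (.l 27) .z))))) (.b (.a (.b .z (.a .z (.l 27)))
(.l 27)) (.b (.a (.l 27) (.b (.l 27) (.a (.l 27) .z))) (.a (.b (.a (.l 27) .z) .z) (.b .z (.l 29))))))))))))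

theorem vQ204 : ev Q204 I5_18 I5_29 = 804898118655263 := by decide +kernel

noncomputable def Q253 : QT :=
(.a (.b (.a (.b (.a (.b (.a (.b (.l 37) (.a (.b (.l 37) (.a (.l 37) .z)) (.b (.a (.l 37) .z) .z))) (.b (.a (.b (.l 37) (.a (.l 37) .z)) .z) (.a (.b .z
(.l 73)) (.l 73)))) (.a (.b (.a .z (.l 73)) (.a .z (.b (.l 73) .z))) (.l 73))) (.b (.a (.b (.a (.b .z (.l 73)) (.l 73)) (.l 73)) (.l 73)) (.a (.l 73)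
(.a (.b (.l 73) .z) .z)))) (.a (.b (.a .z (.b (.a .z (.b (.l 73) .z)) .z)) .z) (.a (.b (.b (.a (.l 73) (.a (.l 73) .z)) .z) (.a .z (.b (.l 123) .z)))
(.b (.b (.a (.a .z (.l 90)) (.l 90)) (.b (.a (.l 90) .z) .z)) .z)))) (.b (.a (.a (.b (.a (.b (.l 73) .z) .z) (.a (.b .z (.b .z (.l 90))) (.b .z (.b .z
(.l 90))))) (.b .z (.b .z (.b (.b .z (.l 90)) (.a (.l 90) .z))))) (.b .z (.b (.b .z (.a (.b .z (.l 90)) .z)) (.a (.b .z (.a .z (.l 81))) (.b (.a .z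
(.l 81)) (.l 81)))))) (.b (.a (.b (.a (.b (.l 90) .z) (.b .z (.a .z (.l 81)))) (.a (.b (.a .z (.l 81)) (.l 81)) (.l 81))) (.l 81)) (.a (.b (.a (.b (.l
81) .z) (.l 81)) (.a .z (.b (.a .z (.l 81)) .z))) (.l 81))))) (.a (.a (.b (.b (.b (.b (.l 157) .z) (.a .z (.l 211))) (.a (.a .z (.a .z (.l 211))) (.l
211))) (.b .z (.b .z (.b (.b (.a .z (.l 73)) (.a .z (.l 73))) .z)))) (.b (.a (.b (.a (.b .z (.l 211)) .z) (.a (.b (.l 211) .z) .z)) .z) (.b .z (.b (.a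
(.b .z (.l 73)) (.l 73)) (.b (.l 73) .z))))) (.b (.a (.a (.b .z (.a (.b (.b .z (.l 89)) (.a .z (.l 89))) (.l 89))) (.b .z (.l 89))) (.b (.a (.b (.a .z
(.b (.l 81) .z)) (.a (.b .z (.l 89)) .z)) (.b (.l 81) (.a .z (.b (.l 81) .z)))) (.a (.a (.b (.a (.l 89) .z) .z) .z) .z))) (.a (.a (.b (.a (.b .z (.b
.z (.l 73))) .z) (.a (.b (.l 73) .z) (.b (.a (.l 73) .z) .z))) (.b (.b (.a (.b (.l 89) .z) .z) .z) (.a .z (.b .z (.b .z (.l 72)))))) (.b .z (.a (.b .z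
(.a (.b .z (.l 72)) .z)) .z)))))) (.b (.a (.b (.b (.a (.b .z (.b .z (.a .z (.a .z (.l 81))))) (.b (.a .z (.b .z (.a .z (.l 87)))) (.a (.a (.a .z (.l
40)) (.l 40)) (.b .z (.a (.l 40) (.b .z (.l 40))))))) (.a (.b (.a (.b (.a .z (.l 81)) (.l 81)) (.l 81)) (.l 81)) (.a (.a (.a (.a (.l 81) .z) (.l 40))
(.l 40)) (.l 40)))) (.a (.l 81) (.a (.a (.a (.a (.b (.l 81) .z) .z) (.l 40)) (.l 40)) (.l 40)))) (.b (.b (.a (.b (.b (.a (.b .z (.l 87)) (.l 87)) (.l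
87)) (.a (.b (.l 87) .z) (.l 87))) (.l 87)) (.a (.b (.a (.b (.a (.l 40) .z) (.l 40)) (.b (.a .z (.l 87)) .z)) (.a (.l 40) (.b (.a (.l 40) .z) (.l
40)))) (.a (.b (.l 87) (.a .z (.b (.l 87) .z))) (.l 87)))) (.a (.l 40) (.b (.a (.b (.a (.l 40) (.b .z (.l 40))) (.l 40)) (.b .z (.a (.a (.l 40) (.b
(.l 40) .z)) .z))) (.a (.a (.l 40) (.a (.l 40) (.b (.l 40) (.a (.l 40) .z)))) (.b (.a (.a (.a (.l 40) .z) .z) (.a .z (.l 96))) (.a (.a .z (.l 50))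
.z))))))) (.a (.b (.a (.b (.a (.b (.l 81) (.a (.l 81) .z)) (.b (.a (.b (.l 81) .z) .z) (.a (.b .z (.l 74)) (.l 74)))) (.a (.b (.a .z (.b .z (.l 74)))
.z) (.b (.l 74) (.a (.b (.l 74) .z) (.l 74))))) (.b (.a (.a (.a .z (.l 40)) (.l 40)) (.l 40)) (.a (.a (.a (.a (.l 74) .z) (.l 40)) (.l 40)) (.b (.l
40) (.a (.l 40) (.b (.l 40) (.a (.l 40) .z))))))) (.a .z (.b (.a (.b (.a (.a .z (.l 40)) (.b (.l 40) (.a (.l 40) .z))) .z) (.b (.a (.b (.a (.l 40) .z)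
.z) .z) .z)) .z))) (.b (.a (.b (.a (.l 40) (.b (.l 40) (.a (.l 40) (.b (.l 40) (.a (.l 40) .z))))) (.a (.b (.a (.l 40) (.b (.l 40) (.a (.l 40) .z)))
(.a (.b (.a (.l 40) .z) .z) .z)) (.b (.a (.b (.a (.l 40) .z) .z) .z) .z))) (.b (.a (.b (.a (.l 40) (.b (.a (.l 40) .z) (.a (.l 40) .z))) (.a (.b (.a
(.l 40) .z) .z) .z)) (.b (.a (.b (.a (.l 50) .z) .z) .z) .z)) (.a (.a .z (.b .z (.b .z (.b .z (.l 35))))) (.b .z (.b .z (.b .z (.l 35))))))) (.b (.a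
.z (.b (.a (.a (.a .z (.a .z (.l 35))) (.l 35)) (.l 35)) (.a (.a (.a (.l 61) .z) (.l 35)) (.b (.l 35) (.a (.b (.l 35) .z) .z))))) (.a (.b .z (.a .z
(.b .z (.l 79)))) (.b (.a (.b (.a (.a (.l 61) .z) .z) .z) .z) (.a (.b .z (.a (.l 79) .z)) .z))))))))

theorem vQ253 : ev Q253 I5_24 I5_26 = 449178771486687 := by decide +kernel

noncomputable def Q67 : QT :=
(.a (.b (.b (.l 46) (.b (.b (.l 46) (.b (.b (.l 46) (.b (.b (.l 46) .z) (.l 14))) (.l 14))) (.l 14))) (.b (.b (.a (.b (.l 14) (.a (.b (.l 14) (.a (.b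
(.l 14) (.a (.b (.l 14) (.a (.b (.a .z (.l 14)) .z) (.b (.l 14) (.a .z (.l 14))))) (.l 14))) (.l 14))) (.l 14))) (.l 14)) (.a (.b (.a (.b (.a (.b (.a
.z (.b (.a (.b (.l 14) (.a .z (.l 14))) (.l 14)) (.a .z (.b (.a .z (.l 14)) .z)))) .z) (.b (.l 14) (.a (.b (.a (.b (.a .z (.l 14)) .z) (.b (.l 14) (.a
.z (.l 14)))) .z) (.b (.l 14) (.a (.b (.l 14) (.a .z (.l 14))) (.l 14)))))) (.a .z (.b (.a .z (.b (.a .z (.b (.l 14) .z)) .z)) .z))) (.b (.l 14) (.a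
(.b (.a (.b (.l 14) (.a (.b (.a .z (.l 14)) .z) (.l 14))) (.l 14)) (.a (.b (.a .z (.b (.a .z (.l 14)) .z)) .z) (.b (.l 14) (.a .z (.b (.l 14) (.a .z
(.l 14))))))) (.l 14)))) (.a (.a .z (.b .z (.a .z (.b .z (.a .z (.l 83)))))) (.b (.a .z (.b (.a (.b (.a (.b (.l 14) (.a .z (.l 14))) (.l 14)) (.a .z
(.b (.l 14) (.a .z (.l 14))))) (.l 14)) (.a .z (.b (.a (.b (.l 14) .z) (.l 14)) (.a .z (.b (.a .z (.l 14)) .z)))))) (.a (.a (.b .z (.a (.l 83) .z))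
(.l 174)) (.b (.a (.l 174) .z) (.a (.l 174) .z)))))) (.a (.b (.l 14) (.b (.l 14) (.a (.b (.a (.b (.a (.b (.a .z (.l 14)) .z) (.l 14)) (.a .z (.b (.a
.z (.l 14)) .z))) (.l 14)) (.a .z (.b (.a (.b (.a .z (.l 14)) .z) (.l 14)) (.a .z (.b (.a .z (.l 14)) .z))))) (.l 14)))) (.l 14)))) (.a (.b (.a (.b
(.a (.b (.a (.a (.b .z (.l 121)) .z) .z) (.a (.b (.a (.l 121) .z) .z) (.b .z (.l 83)))) (.b (.a (.b .z (.a .z (.l 83))) (.l 83)) (.a (.l 83) (.a (.l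
83) (.a (.l 83) .z))))) (.a (.b (.a (.b (.a .z (.l 83)) (.l 83)) (.l 83)) (.l 83)) (.a (.l 83) (.a (.b (.l 83) (.a (.l 83) .z)) .z)))) (.a (.a (.b (.a
(.b (.a (.l 83) .z) .z) .z) .z) (.b (.b (.b (.l 174) .z) .z) .z)) (.b (.a .z (.b .z (.a .z (.l 181)))) (.b (.a .z (.l 181)) .z)))) (.a (.b (.a (.l 83)
(.a (.a (.l 83) (.b (.a (.l 83) .z) .z)) (.a (.b .z (.l 238)) (.l 238)))) (.a (.b (.a (.b (.l 83) (.a .z (.l 83))) (.l 83)) (.a (.b (.a (.b .z (.l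
39)) .z) (.l 39)) (.b (.a .z (.l 83)) .z))) (.a (.a (.b (.a (.l 83) .z) .z) .z) (.b (.l 238) .z)))) (.b (.a (.b (.a (.b .z (.l 238)) .z) (.a (.l 238)
(.b (.l 238) .z))) .z) .z))) (.b (.a (.b (.a .z (.b (.a (.b (.a (.b (.a .z (.b (.l 14) .z)) .z) (.b (.l 14) (.a .z (.b (.l 14) .z)))) .z) (.b (.l 14)
(.a (.b (.a .z (.b (.l 14) .z)) .z) (.b (.l 14) (.a .z (.b (.l 14) .z)))))) .z)) .z) (.b (.a (.b (.l 14) (.a (.b (.a (.b (.a .z (.b (.l 14) .z)) .z)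
(.b (.l 14) (.a .z (.l 14)))) .z) (.b (.l 14) (.a (.b (.a (.b (.l 14) .z) (.l 14)) .z) (.b (.l 14) (.a (.b (.l 14) .z) (.l 14))))))) (.l 14)) (.a (.b
(.a (.a .z (.a .z (.l 100))) (.b (.a (.l 100) .z) (.l 100))) (.a (.a (.l 166) .z) (.l 100))) (.b (.a (.b (.a (.b (.a (.b (.l 14) .z) (.l 14)) .z) (.l
14)) (.a .z (.b (.a .z (.b (.l 14) .z)) .z))) (.b (.l 14) (.a (.b (.l 14) (.a .z (.b (.l 14) .z))) (.l 14)))) (.a (.l 100) (.b (.a .z (.b (.a .z (.l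
14)) .z)) (.l 100))))))) (.a (.a .z (.a .z (.b (.a .z (.l 166)) (.a .z (.l 166))))) (.a (.b (.a (.a (.l 166) (.a (.l 166) .z)) (.a (.a (.b (.l 100)
.z) (.l 100)) (.l 100))) (.a (.l 166) (.b (.a (.a .z (.l 100)) (.l 100)) .z))) (.b (.a (.b (.l 100) (.a (.l 100) (.b (.l 100) .z))) (.b (.a (.l 100)
(.b (.l 100) .z)) .z)) (.a (.b (.a (.b (.l 100) .z) .z) .z) (.b (.l 190) (.b (.l 190) .z)))))))))) (.b (.b (.l 46) (.b (.b (.l 46) (.b (.b (.l 46) (.b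
(.b (.l 46) .z) (.l 14))) (.l 14))) (.l 14))) (.b (.l 14) (.a (.b (.a (.b (.l 14) (.a (.b (.l 14) (.a (.b (.a (.b (.l 14) (.a (.b (.l 14) .z) (.l
14))) (.l 14)) (.a .z (.b (.a (.b (.l 14) .z) (.l 14)) (.a .z (.b (.l 14) .z))))) (.l 14))) (.l 14))) (.l 14)) (.a (.b (.a (.b (.a .z (.b (.a (.b (.a
.z (.b (.l 14) .z)) .z) (.b (.l 14) (.a .z (.l 14)))) .z)) (.a (.a (.l 190) .z) .z)) (.b (.a (.b (.l 14) (.a (.b (.a (.b (.l 14) .z) (.l 14)) .z) (.l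
14))) (.l 14)) (.a (.b (.a .z (.b (.a .z (.b (.l 14) .z)) .z)) .z) (.b (.a (.b (.l 14) (.a .z (.l 14))) (.l 14)) (.a .z (.b (.a (.b (.l 14) .z) (.l
14)) (.a .z (.b (.l 14) .z)))))))) .z) (.b (.l 14) (.a (.b (.a (.b (.a (.b (.a .z (.l 14)) .z) (.b (.l 14) (.a (.b (.l 14) .z) (.l 14)))) .z) (.b (.l
14) (.a (.b (.l 14) (.a .z (.b (.l 14) .z))) (.l 14)))) (.a .z (.b (.a .z (.b (.a (.b (.l 14) .z) (.l 14)) (.a .z (.b (.l 14) .z)))) .z))) (.b (.l 14)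
(.a (.b (.l 14) (.a (.b (.a .z (.l 14)) .z) (.b (.l 14) (.a (.b (.l 14) .z) (.l 14))))) (.l 14))))))) (.l 14)))))

theorem vQ67 : ev Q67 I4_2 I4_5 = 3456815745500056 := by decide +kernel

noncomputable def Q8 : QT :=
(.b (.a (.b (.b (.l 82) (.a (.l 82) (.b (.l 82) (.a (.l 82) (.a (.b (.l 82) (.b (.a (.l 82) .z) .z)) (.b (.a (.b (.l 82) .z) .z) .z)))))) (.b (.a (.b
(.l 82) (.b (.b (.a (.l 82) (.a (.l 82) .z)) (.a (.l 82) (.a (.b (.l 82) .z) .z))) (.a (.b (.b (.a (.l 82) .z) .z) (.b .z (.a (.l 28) (.a (.a (.l 28)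
.z) .z)))) .z))) (.b (.a (.b (.a (.l 82) (.b (.a (.l 82) .z) .z)) (.b (.a (.a (.l 82) .z) .z) .z)) .z) .z)) (.a (.b (.b (.a (.l 28) (.b (.a (.b .z (.a
(.l 28) .z)) .z) (.a (.a (.l 28) (.b (.a (.l 28) .z) (.l 28))) (.b .z (.a (.a (.l 28) .z) .z))))) (.a (.l 28) (.a (.l 28) (.b (.a (.l 28) (.b .z (.l
28))) (.l 28))))) (.l 28)) (.b (.a (.b .z (.a (.b .z (.a (.b (.a (.l 28) .z) (.l 28)) .z)) .z)) .z) (.a (.a (.b (.b (.a (.l 28) (.a (.l 28) (.b .z (.l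
28)))) (.l 28)) (.l 28)) (.b (.a (.b .z (.a (.l 28) .z)) (.b (.a .z (.l 56)) .z)) (.a (.l 28) (.b (.a (.b .z (.l 28)) .z) (.l 28))))) (.b (.a (.b .z
(.a (.l 56) .z)) .z) (.a (.a (.b .z (.a (.b .z (.l 28)) .z)) (.b (.l 56) .z)) (.a (.b .z (.l 56)) .z)))))))) (.b (.a (.b (.a (.b (.l 82) (.a (.l 82)
(.b (.a (.l 82) (.b (.l 82) .z)) (.a (.b (.l 82) .z) .z)))) (.b (.a (.b (.l 82) (.a (.l 82) .z)) .z) .z)) (.b (.a (.a (.b (.a (.l 82) (.b (.l 82) .z))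
.z) .z) .z) .z)) .z) (.a (.b (.b .z (.b .z (.b (.b (.a .z (.a .z (.l 101))) (.a (.a .z (.l 101)) (.l 101))) (.b .z (.a .z (.l 190)))))) .z) (.b (.b .z
(.b (.b .z (.a .z (.b (.a .z (.l 101)) (.l 101)))) (.b (.l 101) (.b .z (.l 190))))) (.b (.b (.a (.b (.b (.l 190) .z) .z) (.b (.l 190) .z)) (.a .z (.b
(.l 212) .z))) .z))))) (.a (.b (.b (.a (.l 28) (.a (.l 28) (.b (.a (.b (.a (.b (.a (.l 28) (.b .z (.l 28))) (.l 28)) (.b .z (.a (.l 28) .z))) (.l 28))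
(.b (.a (.b (.a .z (.l 56)) .z) (.l 56)) (.a (.b (.a (.b .z (.l 28)) .z) (.a (.l 28) (.b .z (.l 28)))) .z))) (.a (.l 28) (.b (.a (.l 28) (.b (.a (.b
.z (.l 28)) .z) (.a (.l 28) (.b .z (.l 28))))) (.l 28)))))) (.l 28)) (.l 28)) (.b (.a (.b (.a (.b (.a (.b (.a (.b .z (.a (.l 56) .z)) .z) (.a (.b (.l
56) (.a .z (.l 56))) (.b (.a (.l 56) .z) (.l 56)))) (.b .z (.a (.b .z (.a (.l 56) .z)) .z))) (.a (.b (.a .z (.b (.l 56) (.a .z (.l 56)))) (.a (.b (.a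
(.l 28) .z) (.l 28)) .z)) (.b (.a (.l 56) (.b .z (.a (.l 56) .z))) (.a (.b (.l 56) (.a .z (.l 56))) (.l 56))))) (.b .z (.a (.b .z (.a (.b (.a (.l 56)
.z) (.l 56)) .z)) .z))) (.a (.a (.b (.a (.l 28) (.b (.a (.l 28) (.b .z (.a (.l 28) .z))) (.l 28))) (.l 28)) (.b (.a (.b .z (.a (.b (.a (.l 28) .z) (.l
28)) (.b .z (.a (.l 28) .z)))) (.b (.a (.b (.l 56) .z) (.l 56)) .z)) (.a (.l 28) (.b (.a (.b (.a (.l 28) .z) (.l 28)) .z) (.l 28))))) (.b (.a (.b (.a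
(.l 56) (.b (.a (.l 56) .z) (.l 56))) (.a (.a (.b (.l 56) .z) (.l 56)) (.l 56))) (.b .z (.a (.b (.a (.l 56) .z) (.l 56)) .z))) (.a (.a (.b .z (.a (.b
.z (.l 28)) .z)) (.b (.a (.b (.l 56) .z) (.l 56)) (.a .z (.b (.l 56) .z)))) (.l 56))))) (.a (.b .z (.a (.b .z (.a (.b (.b .z (.a (.l 56) .z)) (.l 56))
.z)) .z)) (.b .z (.b .z (.a .z (.b .z (.a .z (.l 115)))))))) (.a (.a (.l 28) (.b (.a (.b (.a (.b (.a (.l 28) (.b (.a (.l 28) .z) (.l 28))) (.l 28))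
(.b (.a (.b .z (.a (.l 28) .z)) .z) (.a (.l 28) (.b .z (.a (.l 28) .z))))) (.l 28)) (.b (.a (.b (.a .z (.b (.l 56) .z)) .z) (.b (.l 56) (.a .z (.l
56)))) (.a (.b (.a (.b (.a (.l 28) .z) (.l 28)) .z) (.a (.l 28) (.b (.a (.l 28) .z) (.l 28)))) (.b .z (.a (.b .z (.a (.l 28) .z)) .z))))) (.a (.l 28)
(.b (.a (.l 28) (.b (.a (.l 28) (.b .z (.a (.l 28) .z))) (.l 28))) (.l 28))))) (.a (.b (.a (.b (.a (.l 56) (.b (.a (.l 56) (.b .z (.l 56))) (.l 56)))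
(.a (.b (.a (.b (.l 56) .z) (.l 56)) (.a .z (.b (.l 56) .z))) (.l 56))) (.b (.a (.b .z (.a (.l 56) (.b .z (.l 56)))) .z) (.a (.l 56) (.b (.a (.l 56)
(.b .z (.l 56))) (.l 56))))) (.a (.b (.a (.b .z (.a (.b .z (.l 28)) .z)) (.b (.a .z (.l 56)) .z)) (.a (.b (.a (.l 28) (.b (.a (.l 28) .z) (.l 28)))
(.l 28)) (.b .z (.a (.b (.a (.l 28) .z) (.l 28)) .z)))) (.b (.l 56) (.a (.b (.a .z (.b (.l 56) .z)) .z) (.b (.l 56) (.a (.b (.l 56) .z) (.l 56)))))))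
(.b (.a (.b .z (.a (.b .z (.a (.l 56) .z)) .z)) (.b (.b (.a .z (.b (.l 115) .z)) .z) .z)) (.a (.b (.a (.l 56) (.b (.a (.b .z (.l 56)) .z) (.l 56)))
(.l 56)) (.b .z (.a (.b (.a (.l 56) (.b .z (.l 56))) (.l 56)) (.b .z (.a (.b .z (.l 56)) .z)))))))))))

theorem vQ8 : ev Q8 I4_0 I5_7 = 1127477327276521 := by decide +kernel

noncomputable def Q90 : QT :=
(.a (.b (.b (.a (.b (.b (.b (.a (.b .z (.a (.l 31) (.a (.l 31) .z))) (.b (.l 32) (.a .z (.a .z (.l 32))))) (.a (.l 31) (.b (.a (.l 31) .z) .z))) (.b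
(.b (.a .z (.a .z (.l 36))) (.l 36)) (.l 36))) (.a (.l 36) (.b (.a (.l 36) (.b (.a (.l 36) .z) .z)) (.a (.b (.a (.l 36) .z) .z) (.b (.a .z (.l 30))
(.l 30)))))) (.b (.a (.b (.a (.b (.l 32) .z) (.b (.l 32) (.a (.b (.l 32) .z) .z))) (.a (.b (.l 36) (.a (.l 36) .z)) (.b (.a .z (.b .z (.l 30))) (.a
(.b .z (.l 30)) (.l 30))))) (.b (.a (.b (.a .z (.b .z (.l 23))) (.a .z (.b (.l 23) .z))) (.l 23)) (.b (.b (.a (.a (.l 30) .z) .z) (.l 30)) (.l 30))))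
(.a (.b (.a (.b (.a .z (.b .z (.l 30))) (.l 30)) (.l 30)) (.l 30)) (.l 30)))) (.a (.b (.a (.b (.a (.b (.l 36) (.b (.l 36) .z)) (.b (.a (.l 36) .z)
.z)) (.a (.b .z (.a .z (.b .z (.l 32)))) (.b (.a .z (.b (.l 30) .z)) (.a (.l 32) .z)))) (.b (.a (.b (.a .z (.l 30)) (.l 30)) (.l 30)) (.a (.b (.l 30)
(.a (.b (.l 30) .z) (.l 30))) (.l 30)))) (.a (.b (.a (.b (.a (.b .z (.l 32)) (.l 32)) (.l 32)) (.l 32)) (.a (.b (.l 32) (.a .z (.b (.l 32) .z))) (.l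
32))) (.b (.a (.b (.a (.b .z (.l 32)) .z) (.a (.l 32) (.b .z (.l 32)))) (.b (.l 30) (.a .z (.l 30)))) (.a (.l 32) (.b (.a (.b .z (.l 32)) .z) (.l
32)))))) (.b (.a (.l 30) (.b (.l 30) (.a (.l 30) (.b (.l 30) (.a (.l 30) (.b (.l 30) .z)))))) (.a (.b (.l 30) (.a (.b (.a (.b (.l 30) .z) (.l 30)) (.a
.z (.b (.l 30) .z))) (.b (.l 30) (.a (.l 30) .z)))) (.b (.a (.b (.l 30) (.a (.l 30) (.b (.l 30) .z))) (.b (.a (.b (.l 30) .z) .z) (.a .z (.l 35))))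
(.a (.b .z (.a (.b .z (.l 31)) (.l 31))) (.b (.b (.l 35) .z) (.b .z (.a (.l 31) .z))))))))) (.b (.a (.b (.a (.b (.a (.b (.a (.l 34) .z) (.l 34)) (.b
(.a (.b (.l 32) .z) (.l 32)) .z)) (.l 34)) (.b (.a (.b (.l 32) (.a (.b (.l 32) .z) (.l 32))) (.l 32)) (.a (.b (.a .z (.b (.l 32) .z)) (.a (.l 34) .z))
(.b (.l 32) (.a .z (.l 32)))))) (.a (.b (.a (.l 34) (.b (.l 34) (.a (.l 34) .z))) (.a (.b (.l 34) (.a (.l 34) .z)) .z)) (.b (.a (.b (.a (.l 34) .z)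
.z) .z) .z))) (.b (.a (.b (.a (.b (.a (.l 32) .z) (.l 32)) (.b .z (.a (.b .z (.l 32)) .z))) (.a (.l 32) (.b (.a (.l 32) (.b .z (.l 32))) (.l 32))))
(.b (.a (.b (.b (.l 31) .z) (.l 36)) (.b (.b (.l 31) .z) (.a (.l 36) .z))) (.a (.b (.a .z (.l 36)) .z) (.b (.a .z (.b .z (.l 31))) (.a (.b .z (.l 31))
(.l 31)))))) (.a (.b (.a (.b (.l 32) (.a .z (.b (.l 32) .z))) (.b (.a (.l 32) (.b (.l 32) .z)) (.a (.b (.l 32) .z) .z))) (.a .z (.b .z (.b .z (.l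
35))))) (.b (.a (.b (.a .z (.l 31)) (.l 31)) (.l 31)) (.b (.b .z (.l 36)) (.a .z (.l 36))))))) (.a (.b (.a (.b (.a .z (.a (.l 80) .z)) .z) (.b (.a .z
(.b .z (.a .z (.l 35)))) (.a (.b .z (.a .z (.l 35))) (.l 35)))) (.a (.b (.a (.b (.a (.l 40) .z) .z) (.b (.a .z (.l 35)) (.l 35))) (.a (.b (.a .z (.l
35)) (.b (.l 35) .z)) (.b (.l 35) (.b (.l 35) .z)))) (.b (.l 35) (.b (.l 35) (.b (.l 35) .z))))) (.b (.b (.a (.l 35) (.b (.a (.b .z (.l 35)) .z) (.l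
35))) (.l 35)) (.b (.l 35) (.b (.l 35) (.b (.a (.l 35) (.a (.l 35) .z)) .z))))))) (.b (.b (.a (.b (.b (.l 23) (.b (.a (.b (.a (.a .z (.l 23)) (.l 23))
.z) (.l 23)) (.a (.b (.a (.l 30) (.a (.l 30) .z)) (.l 30)) (.b (.a .z (.a .z (.l 23))) (.a (.l 30) .z))))) (.a (.l 30) (.b (.a (.l 30) (.b (.l 30) (.a
(.l 30) .z))) (.a (.b (.a (.l 30) (.b (.l 30) .z)) (.a (.b (.l 30) .z) .z)) (.b .z (.l 59)))))) (.b (.a (.b (.a (.l 23) (.b (.l 23) (.a (.l 23) (.b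
(.l 23) .z)))) (.a (.b (.l 23) (.a (.b (.l 23) .z) (.b (.l 23) .z))) (.b (.a (.b (.l 23) .z) .z) (.a .z (.l 59))))) (.b (.a (.b (.a (.l 23) .z) .z)
(.b .z (.l 92))) (.a (.a (.l 59) (.b .z (.l 59))) .z))) (.a (.b (.a (.b .z (.a .z (.l 59))) (.l 59)) (.l 59)) (.b (.a (.l 59) (.b (.a (.l 59) .z) .z))
(.a (.b (.a (.l 59) .z) (.a .z (.b .z (.l 27)))) (.b (.a .z (.l 27)) (.l 27))))))) (.a (.b (.a (.b (.a (.l 30) (.b (.a (.l 30) (.b (.l 30) .z)) .z))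
(.a (.b (.a (.l 30) .z) .z) (.b (.a .z (.l 35)) (.l 35)))) (.b (.a (.b .z (.a (.l 35) .z)) (.b (.l 59) (.a .z (.l 59)))) (.a (.l 35) (.b .z (.a (.l
35) .z))))) (.a (.b (.l 35) (.a (.b (.l 35) (.b (.l 35) .z)) (.b (.a (.l 35) .z) (.a .z (.b .z (.l 31)))))) (.b (.a (.b (.a (.l 35) .z) .z) (.b (.a .z
(.b .z (.l 31))) (.l 31))) (.a (.b (.a (.b .z (.l 31)) (.l 31)) (.l 31)) (.l 31))))) (.b (.a (.b (.a (.b (.l 59) (.a (.l 59) .z)) .z) (.a (.b (.a .z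
(.b .z (.l 31))) (.a (.b .z (.l 31)) (.l 31))) (.b (.a (.l 31) (.b .z (.l 31))) (.l 31)))) (.b (.a (.b (.a (.b .z (.l 27)) (.l 27)) (.b .z (.l 32)))
(.b (.l 27) (.b .z (.l 32)))) (.a (.b (.a .z (.b (.l 32) .z)) (.a (.l 31) (.b .z (.l 31)))) (.b (.l 32) (.a .z (.b (.l 32) .z)))))) (.a (.l 31) (.b
(.a (.l 31) (.b (.a (.l 31) (.b .z (.l 31))) (.l 31))) (.l 31)))))) (.b (.a (.b (.a (.b (.a (.b .z (.a .z (.l 31))) (.b (.a (.b .z (.l 31)) (.l 31))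
(.l 31))) (.l 31)) (.l 31)) (.b (.b (.l 31) (.b (.l 31) (.a (.l 31) (.a (.l 31) .z)))) (.b (.b .z (.l 36)) (.l 36)))) (.b (.l 31) (.b (.b (.l 31) (.b
(.l 31) .z)) (.l 36)))) (.a (.b (.b (.a (.b (.a (.b (.l 36) .z) (.l 36)) (.a .z (.b (.l 36) .z))) (.l 36)) (.a (.b (.a (.l 35) .z) (.l 35)) (.b (.a
(.b (.l 36) .z) (.l 36)) (.a (.b .z (.l 35)) .z)))) (.b (.a (.l 35) (.b (.a (.l 35) (.b .z (.l 35))) (.l 35))) (.b (.l 35) (.b .z (.l 40))))) (.b (.b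
(.l 36) (.b (.l 36) (.a (.b (.a .z (.l 36)) .z) (.b (.l 36) (.a .z (.l 36)))))) (.a (.b (.b (.a .z (.l 37)) (.a (.b .z (.l 35)) .z)) (.b (.a (.l 35)
(.b .z (.l 35))) (.b .z (.l 40)))) (.b (.a (.b (.b .z (.l 37)) (.l 37)) (.b .z (.a (.l 37) .z))) (.a .z (.b .z (.l 38))))))))))

theorem vQ90 : ev Q90 I5_4 I6_60 = 356434058474574 := by decide +kernel

noncomputable def Q44 : QT :=
(.a (.b (.b (.a (.b (.b (.l 40) (.a (.l 40) (.b (.l 40) (.a (.l 40) (.a (.b (.l 40) .z) .z))))) (.b (.a (.b (.l 40) (.b (.a (.l 40) .z) .z)) (.b (.a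
(.b (.a (.l 40) .z) .z) (.a .z (.l 71))) (.a (.b .z (.l 71)) (.l 71)))) (.a (.b (.b (.a (.l 44) .z) (.l 44)) (.l 44)) (.a (.b .z (.b (.a (.l 44) .z)
(.l 44))) (.b (.b (.l 71) .z) .z))))) (.b (.a (.b (.a (.b (.l 40) (.a (.l 40) (.b (.l 40) .z))) (.b (.a (.l 40) .z) .z)) (.a (.b (.a (.b (.l 40) .z)
.z) (.a .z (.l 71))) (.l 71))) (.b (.a (.b (.a .z (.l 71)) (.l 71)) (.a (.l 71) (.b .z (.l 71)))) (.l 71))) (.a (.b (.l 71) (.a (.b (.l 71) .z) (.l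
71))) (.a (.l 71) (.b (.l 71) (.a (.l 71) (.b (.l 71) .z))))))) (.a (.b (.b (.a (.l 44) (.a (.l 44) (.b (.a (.l 44) (.b .z (.l 44))) (.l 44)))) (.l
44)) (.b (.l 44) (.a (.l 44) (.b (.a (.l 44) (.a (.l 44) .z)) (.a (.b (.l 44) (.a (.l 44) .z)) (.a (.b .z (.a .z (.l 22))) (.b (.a .z (.l 22)) (.l
22)))))))) (.b (.a (.b (.a (.b .z (.a (.b .z (.l 44)) .z)) (.b (.a .z (.l 71)) .z)) (.a (.b (.a (.l 44) (.b .z (.l 44))) (.l 44)) (.b .z (.a (.l 44)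
.z)))) (.a (.b (.b (.l 71) .z) (.b (.a .z (.a (.b .z (.l 22)) (.l 22))) (.a (.b (.a .z (.l 22)) (.l 22)) (.l 22)))) (.b (.a (.b .z (.a (.b .z (.l 22))
(.l 22))) (.b (.a (.b .z (.l 22)) (.l 22)) (.l 22))) (.l 22)))) (.a (.b (.a (.b (.l 44) (.a (.b (.l 44) .z) (.b .z (.a .z (.l 22))))) (.b (.a .z (.b
(.a .z (.l 22)) (.l 22))) (.a (.b (.a .z (.l 22)) (.l 22)) (.l 22)))) (.a (.b (.a (.b .z (.l 22)) (.l 22)) (.l 22)) (.l 22))) (.l 22))))) (.b (.a (.b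
(.b (.a (.b (.b (.a (.l 44) (.a (.l 44) .z)) .z) (.b .z (.a (.l 48) (.a (.l 48) .z)))) (.b (.a (.b (.a .z (.a .z (.l 22))) (.l 22)) (.l 22)) (.a (.b
(.l 22) (.a .z (.a .z (.l 22)))) (.l 22)))) (.a (.l 48) (.b (.a (.b (.a (.l 48) .z) (.l 48)) (.a (.b (.a .z (.l 22)) .z) (.b (.l 22) (.a .z (.l
22))))) (.a (.l 48) (.a (.l 48) (.b .z (.l 48))))))) (.l 48)) (.b (.a (.b (.l 22) (.a (.b (.l 22) (.a (.b (.a .z (.l 22)) .z) (.l 22))) (.l 22))) (.l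
22)) (.a (.b (.a (.b (.a (.b .z (.l 48)) .z) (.l 48)) (.b (.a (.b (.l 22) (.a .z (.l 22))) (.l 22)) (.a .z (.b (.l 22) .z)))) (.a (.b (.a (.l 48) (.b
(.l 48) .z)) .z) .z)) (.a (.b (.l 22) (.a (.b (.b (.a .z (.l 22)) .z) .z) (.b (.l 22) (.a .z (.b (.l 22) .z))))) (.l 22))))) (.a (.b (.b (.a (.l 48)
(.b (.a (.l 48) (.a (.b (.l 48) .z) .z)) (.a (.b (.a (.l 48) .z) .z) .z))) (.a (.b (.b (.a (.l 48) .z) .z) (.b (.a (.l 52) .z) (.l 52))) .z)) (.b (.a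
(.l 52) (.a (.b (.b (.a (.l 52) .z) (.l 52)) (.l 52)) (.b .z (.a (.l 52) .z)))) (.l 52))) (.b (.a .z (.a (.b .z (.a .z (.b .z (.a .z (.b .z (.l
26)))))) (.b (.a (.b (.a .z (.l 22)) .z) (.b (.l 22) (.a (.b (.l 22) .z) (.l 22)))) (.a (.b (.a .z (.b .z (.l 26))) (.l 26)) (.b (.a (.b .z (.l 26))
.z) (.l 26)))))) (.a (.b .z (.a (.b .z (.a (.b (.l 52) .z) (.b .z (.a .z (.l 26))))) (.b (.a (.b .z (.a .z (.l 26))) (.b (.a .z (.l 26)) (.l 26))) (.l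
26)))) (.a (.b (.a (.b .z (.a (.b .z (.l 26)) (.l 26))) (.b (.a (.b .z (.l 26)) (.l 26)) (.l 26))) (.l 26)) (.l 26))))))) (.b (.a (.b (.a (.b (.a (.b
(.a (.b (.a (.b (.l 18) .z) (.l 18)) (.a .z (.b (.l 18) .z))) (.l 18)) (.a (.b .z (.l 71)) (.b (.a .z (.b (.l 18) .z)) .z))) (.b (.l 18) (.a (.b (.l
18) (.a .z (.b (.l 18) .z))) (.l 18)))) (.a (.b (.a (.b (.l 71) .z) (.b .z (.a .z (.b .z (.l 22))))) (.a (.b .z (.a (.b .z (.l 22)) (.l 22))) (.l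
22))) (.b (.a (.b .z (.l 22)) (.b (.a (.b (.l 18) .z) (.l 18)) (.a (.b .z (.l 22)) .z))) (.l 22)))) (.b (.l 18) (.a (.b (.a (.b (.l 18) (.a (.b (.l
18) .z) (.l 18))) (.l 18)) (.a (.b (.a .z (.b (.l 18) .z)) (.a (.l 22) (.b .z (.l 22)))) (.b (.l 18) (.a .z (.l 18))))) (.l 18)))) (.a (.l 22) (.b (.a
(.b (.a (.l 22) (.b (.a (.b .z (.l 22)) .z) (.a (.l 22) (.b .z (.l 22))))) (.l 22)) (.b (.a (.b (.l 18) (.a .z (.b (.l 18) .z))) (.l 18)) (.a (.b (.a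
(.l 22) .z) (.l 22)) (.b (.a (.b (.l 18) .z) (.l 18)) (.a (.b .z (.l 22)) .z))))) (.a (.l 22) (.b (.a (.l 22) (.b (.a (.l 22) (.b .z (.l 22))) (.l
22))) (.l 22)))))) (.a (.b (.l 18) (.b (.l 18) (.a (.b (.a (.b (.a .z (.l 18)) (.a (.b .z (.l 22)) .z)) (.l 18)) (.a (.b (.a (.l 22) (.b .z (.l 22)))
(.l 22)) (.b (.a .z (.l 18)) (.a (.b .z (.l 22)) .z)))) (.l 18)))) (.l 18))) (.a (.b (.l 22) (.a (.b (.a (.b (.l 22) (.a (.b (.a (.b (.l 22) .z) (.l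
22)) (.a (.b .z (.l 26)) .z)) (.l 22))) (.l 22)) (.a (.b (.a (.b (.a (.l 26) (.b .z (.l 26))) (.l 26)) (.b (.a .z (.b (.l 22) .z)) (.a (.l 26) .z)))
(.l 26)) (.b (.a (.b (.l 22) (.a (.b (.l 22) .z) (.l 22))) (.l 22)) (.a (.b (.a (.b .z (.l 26)) .z) (.l 26)) (.b (.a (.b (.l 22) .z) (.l 22)) (.a .z
(.b (.l 22) .z))))))) (.l 22))) (.a (.b (.b (.a (.b (.a (.l 22) (.b (.a (.l 22) (.b .z (.l 22))) (.l 22))) (.l 22)) (.a (.b (.b (.a .z (.l 18)) (.a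
(.b .z (.l 22)) .z)) (.a (.l 22) (.b (.a (.l 22) .z) (.l 22)))) (.b (.l 18) (.a (.b .z (.a (.l 22) .z)) (.b (.l 18) .z))))) (.a (.l 22) (.a (.l 22)
(.b (.a (.l 22) (.b (.a (.l 22) .z) (.l 22))) (.l 22))))) (.l 22)) (.b (.a (.b (.l 18) (.a (.b (.a (.b .z (.a (.l 22) .z)) (.b (.l 18) .z)) (.a (.l
22) (.b (.a (.l 22) .z) (.l 22)))) (.b (.l 18) (.a (.b .z (.a (.l 22) .z)) (.b (.l 18) (.a .z (.l 18))))))) (.l 18)) (.a (.b (.a (.l 22) (.b (.a (.l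
22) (.b .z (.l 22))) (.l 22))) (.l 22)) (.b (.a (.b (.a (.b (.a .z (.l 18)) .z) (.b (.l 18) (.a .z (.l 18)))) (.a (.l 22) (.b .z (.a (.l 22) .z))))
(.b (.l 18) (.a (.b (.l 18) .z) (.l 18)))) (.a (.l 22) (.b (.a (.b (.a (.l 22) .z) (.l 22)) (.b .z (.a (.l 22) .z))) (.l 22))))))))))

theorem vQ44 : ev Q44 I4_0 I6_57 = 822064019770499 := by decide +kernel

noncomputable def Q53 : QT :=
(.b (.a (.b (.b (.a (.l 14) (.b (.a (.b (.a (.l 14) (.b (.a (.b (.a (.l 14) .z) (.l 14)) (.b (.a (.b (.l 10) .z) (.l 10)) (.a .z (.b (.l 10) .z))))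
(.a (.l 14) (.b (.a (.l 14) (.b .z (.l 14))) (.l 14))))) (.l 14)) (.b (.a (.b (.l 10) (.a (.b (.a .z (.l 10)) (.a (.b .z (.l 14)) .z)) (.l 10))) (.l
10)) (.a (.b (.a (.b (.a (.l 14) (.b .z (.l 14))) (.l 14)) (.b (.a .z (.l 10)) (.a (.b .z (.l 14)) .z))) (.l 14)) (.b (.a (.b (.l 10) (.a (.b (.l 10)
.z) (.l 10))) (.l 10)) (.a (.b (.a .z (.b (.l 10) .z)) (.a (.l 14) .z)) (.b (.l 10) (.a (.b (.l 10) .z) (.l 10)))))))) (.a (.l 14) (.b (.a (.l 14) (.b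
(.a (.l 14) (.b (.a .z (.b (.l 10) .z)) (.a (.l 14) (.b .z (.l 14))))) (.l 14))) (.l 14))))) (.l 14)) (.a (.b (.l 14) (.a (.b (.l 14) (.a (.b (.l 14)
(.a (.b (.l 14) (.a (.b (.l 14) .z) (.b .z (.l 15)))) (.b (.a (.b (.l 14) .z) (.b .z (.l 15))) (.l 15)))) (.b (.a (.b (.l 14) (.a (.b (.l 14) .z) (.b
.z (.l 15)))) (.b (.a (.b (.l 14) .z) (.b .z (.l 15))) (.l 15))) (.l 15)))) (.b (.a (.b (.l 14) (.a (.b (.l 14) (.a (.b (.l 14) .z) (.b .z (.l 15))))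
(.b (.a (.b (.l 14) .z) (.b .z (.l 15))) (.l 15)))) (.b (.a (.b (.l 14) (.a (.b (.l 14) .z) (.b .z (.l 15)))) (.b (.a (.b (.l 14) .z) (.b .z (.l 15)))
(.l 15))) (.l 15))) (.l 15)))) (.b (.a (.b (.l 14) (.a (.b (.l 14) (.a (.b (.l 14) (.a (.b (.l 14) .z) (.b .z (.l 15)))) (.b (.a (.b (.l 14) .z) (.b
.z (.l 15))) (.l 15)))) (.b (.a (.b (.l 14) (.a (.b (.l 14) .z) (.b .z (.l 15)))) (.b (.a (.b (.l 14) .z) (.b .z (.l 15))) (.l 15))) (.l 15)))) (.b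
(.a (.b (.l 14) (.a (.b (.l 14) (.a (.b (.l 14) .z) (.b .z (.l 15)))) (.b (.a (.b (.l 14) .z) (.b .z (.l 15))) (.l 15)))) (.b (.a (.b (.l 14) (.a (.b
(.l 14) .z) (.b .z (.l 15)))) (.b (.a (.b (.l 14) .z) (.b .z (.l 15))) (.l 15))) (.l 15))) (.l 15))) (.l 15)))) (.b (.a (.b (.b (.l 10) (.a (.b (.a
(.b (.a (.b (.l 10) (.a .z (.l 10))) (.l 10)) (.a (.b (.a (.b .z (.l 14)) .z) (.a (.l 14) (.b .z (.l 14)))) (.b (.l 10) (.a .z (.l 10))))) (.l 10))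
(.a (.b (.a (.l 14) (.b (.a (.b .z (.l 14)) .z) (.a (.l 14) (.b .z (.l 14))))) (.l 14)) (.b (.a (.b (.l 10) (.a .z (.l 10))) (.l 10)) (.a (.b (.a (.b
.z (.l 14)) .z) (.l 14)) (.b (.a (.b (.l 10) .z) (.l 10)) (.a .z (.b (.l 10) .z))))))) (.l 10))) (.a (.b (.b (.a (.l 14) (.b (.a (.l 14) (.b (.a (.l
14) .z) (.l 14))) (.l 14))) (.l 14)) (.a (.b (.l 14) (.a (.b (.l 14) (.a (.b (.l 14) .z) (.b .z (.l 15)))) (.b (.a (.b (.l 14) .z) (.b .z (.l 15)))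
(.l 15)))) (.b (.a (.b (.l 14) (.a (.b (.l 14) .z) (.b .z (.l 15)))) (.b (.a (.b (.l 14) .z) (.b .z (.l 15))) (.l 15))) (.l 15)))) (.b (.a (.b (.b (.a
(.b (.a (.b (.l 10) .z) (.l 10)) (.a .z (.b (.l 10) .z))) (.l 10)) (.a (.b (.a (.l 14) .z) (.l 14)) (.b (.a (.b (.l 10) .z) (.l 10)) (.a .z (.b (.l
10) .z))))) (.a (.b (.l 14) (.a (.b (.l 14) .z) (.b .z (.l 15)))) (.b (.a (.b (.l 14) .z) (.b .z (.l 15))) (.l 15)))) (.b (.a (.b (.l 10) (.a (.b (.l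
10) .z) (.b .z (.l 11)))) (.b (.a (.b (.l 10) .z) (.b .z (.l 11))) (.l 11))) (.b (.b .z (.l 15)) (.l 15)))) (.l 15)))) (.b (.a (.b (.l 10) (.a (.b (.l
10) (.a (.b (.l 10) (.a (.b (.l 10) .z) (.b .z (.l 11)))) (.b (.a (.b (.l 10) .z) (.b .z (.l 11))) (.l 11)))) (.b (.a (.b (.l 10) (.a (.b (.l 10) .z)
(.b .z (.l 11)))) (.b (.a (.b (.l 10) .z) (.b .z (.l 11))) (.l 11))) (.l 11)))) (.b (.a (.b (.l 10) (.a (.b (.l 10) (.a (.b (.l 10) .z) (.b .z (.l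
11)))) (.b (.a (.b (.l 10) .z) (.b .z (.l 11))) (.l 11)))) (.b (.a (.b (.l 10) (.a (.b (.l 10) .z) (.b .z (.l 11)))) (.b (.a (.b (.l 10) .z) (.b .z
(.l 11))) (.l 11))) (.l 11))) (.l 11))) (.b (.b (.b (.l 11) (.b (.l 11) (.b (.l 11) (.a (.a (.l 11) (.a (.l 11) (.a (.l 11) .z))) .z)))) (.b (.b (.a
(.b .z (.a (.a (.a .z (.l 16)) (.l 16)) (.l 16))) (.l 16)) (.a (.b (.a .z (.a .z (.l 16))) (.a (.l 15) (.a (.a (.l 15) .z) .z))) (.b (.l 16) (.a (.a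
.z (.l 16)) (.l 16))))) (.b (.a (.l 15) (.b (.a (.a (.a (.l 15) .z) .z) (.a .z (.l 16))) (.a (.l 15) (.a (.a (.l 15) .z) .z)))) (.l 15)))) (.l 15))))
(.b (.l 15) (.b (.l 15) (.b (.l 15) (.b (.l 15) (.b (.l 15) (.b (.a (.l 15) (.a (.l 15) (.a (.l 15) (.a (.a (.l 15) .z) .z)))) (.a (.a (.l 15) (.a (.a
(.l 15) (.a (.l 15) .z)) .z)) (.a .z (.a .z (.a .z (.l 20))))))))))))) (.b (.b (.b (.b (.a (.b (.a (.b (.b (.l 15) (.a (.a (.a (.l 15) (.a (.l 15)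
.z)) .z) .z)) (.a (.b (.a .z (.a .z (.l 20))) (.a (.l 19) .z)) (.b (.l 20) (.a .z (.l 20))))) (.b (.b (.a (.l 15) .z) (.a .z (.a (.a .z (.l 20)) (.l
20)))) (.l 20))) (.a (.b (.a (.l 19) (.b (.a (.a (.l 19) .z) .z) (.l 19))) (.l 19)) (.b (.a (.b (.a .z (.l 20)) (.a (.a (.l 19) .z) .z)) (.b (.l 20)
(.a (.a .z (.l 20)) (.l 20)))) (.a (.l 19) (.b .z (.a (.l 19) (.a (.l 19) .z))))))) (.b (.b (.b (.a (.a .z (.a .z (.l 20))) (.l 20)) (.l 20)) (.l 20))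
(.a (.b (.l 20) (.a (.b (.l 20) (.a .z (.a .z (.l 20)))) (.l 20))) (.l 20)))) (.a (.l 19) (.b (.a (.b (.a (.b (.a (.l 19) .z) (.l 19)) (.b (.a .z (.l
20)) (.a (.a (.l 19) .z) .z))) (.a (.l 19) (.b (.a (.l 19) (.a (.l 19) .z)) (.l 19)))) (.b (.l 20) (.a (.b (.a .z (.a .z (.l 20))) (.a (.l 19) .z))
(.b (.l 20) (.a .z (.l 20)))))) (.a (.l 19) (.b (.a (.l 19) (.b (.a (.a (.l 19) .z) .z) (.a (.l 19) (.a (.l 19) .z)))) (.l 19)))))) (.l 19)) (.b (.l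
19) (.b (.b (.b (.l 19) (.a (.l 19) (.b (.a (.l 19) (.a (.l 19) (.a (.a (.l 19) .z) .z))) (.a (.a (.a (.l 19) (.a (.l 19) .z)) .z) (.a .z (.a .z (.l
24))))))) (.b (.a (.b (.a (.a (.l 19) (.a (.l 19) (.a (.l 19) .z))) .z) (.a .z (.l 24))) (.b (.a (.a .z (.l 24)) (.l 24)) (.l 24))) (.l 24))) (.a (.b
(.a (.b (.b (.l 24) (.a (.a .z (.l 24)) (.l 24))) (.a (.b (.a (.a (.l 23) .z) .z) (.l 23)) (.b (.a .z (.l 24)) (.a (.a (.l 23) .z) .z)))) (.b (.l 24)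
(.a (.b (.l 24) (.a .z (.l 24))) (.l 24)))) (.a (.l 23) (.b (.a (.b (.a (.a (.l 23) .z) .z) (.l 23)) (.b (.a .z (.l 24)) (.a (.a (.l 23) .z) .z))) (.l
23)))) (.b (.l 24) (.a (.b (.a (.b (.l 24) (.a (.a .z (.l 24)) (.l 24))) (.l 24)) (.a (.b .z (.l 23)) (.b (.a (.a .z (.l 24)) (.l 24)) .z))) (.l
24))))))) (.b (.b (.b (.a (.l 23) (.b (.a (.b (.a (.l 23) (.b (.a (.l 23) (.a (.l 23) .z)) (.l 23))) (.l 23)) (.b (.a (.b (.a .z (.a .z (.l 24))) (.a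
(.l 23) .z)) (.b (.l 24) (.a .z (.l 24)))) (.a (.l 23) (.b (.a (.a (.l 23) .z) .z) (.l 23))))) (.l 23))) (.l 23)) (.b (.b (.l 23) (.b (.l 23) (.a (.b
(.l 23) (.a (.l 23) (.a (.a (.a (.l 23) .z) .z) .z))) (.b (.a (.a (.l 23) (.a (.a (.l 23) .z) .z)) .z) (.a (.a .z (.a .z (.l 28))) (.l 28)))))) (.b
(.b (.a (.b (.a .z (.a (.a .z (.l 28)) (.l 28))) (.l 28)) (.l 28)) (.l 28)) (.a (.b (.l 28) (.a (.b (.a .z (.l 28)) (.a (.a (.l 27) (.a (.l 27) .z))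
.z)) (.b (.l 28) (.a (.a (.a .z (.l 28)) (.l 28)) (.l 28))))) (.l 28))))) (.b (.b (.a (.b (.b (.a (.l 27) (.b (.a .z (.a (.a .z (.l 28)) (.l 28))) (.a
(.l 27) .z))) (.l 27)) (.l 27)) (.b (.a (.b (.a (.b (.l 28) (.a (.a .z (.l 28)) (.l 28))) (.l 28)) (.a (.b .z (.l 27)) (.b (.a (.a .z (.l 28)) (.l
28)) .z))) (.l 28)) (.a (.b (.a (.l 27) (.b (.a (.l 27) (.a (.l 27) .z)) (.l 27))) (.l 27)) (.b (.a (.b .z (.a (.l 27) (.a (.l 27) .z))) (.b (.l 28)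
(.a .z (.a .z (.l 28))))) (.a (.l 27) (.b (.a (.l 27) .z) (.l 27))))))) (.l 27)) (.b (.b (.b (.a (.b (.l 27) (.a (.a (.l 27) (.a (.l 27) (.a (.l 27)
.z))) .z)) (.b (.a (.a (.l 27) (.a (.a (.l 27) .z) .z)) .z) (.a (.a .z (.a .z (.l 32))) (.l 32)))) (.a (.b (.a .z (.l 32)) (.l 32)) (.l 32))) (.l 32))
(.b (.a (.b (.a (.b (.a (.a .z (.l 32)) (.l 32)) (.a (.a (.a (.l 31) .z) .z) (.a .z (.a .z (.l 32))))) (.l 32)) (.a (.b (.a (.l 31) (.a (.l 31) .z))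
(.l 31)) (.b (.a .z (.l 32)) (.a (.a (.l 31) (.a (.l 31) .z)) .z)))) (.l 32)) (.a (.b (.a (.l 31) (.b (.a (.l 31) (.a (.l 31) (.a (.l 31) .z))) (.l
31))) (.l 31)) (.a (.b (.b (.a .z (.l 32)) (.a (.a (.l 31) (.a (.l 31) .z)) .z)) (.b (.a (.l 31) (.a (.l 31) (.a (.l 31) .z))) (.l 31))) (.b (.l 32)
(.a (.b .z (.a (.l 31) (.a (.l 31) .z))) (.b (.l 32) .z)))))))))))

theorem vQ53 : ev Q53 I5_3 I4_14 = 1853934256594189 := by decide +kernel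

noncomputable def Q131 : QT :=
(.a (.a (.b (.b (.b (.b (.b (.b (.l 55) (.b (.b (.a (.l 55) .z) .z) (.a (.l 58) .z))) (.b (.b (.l 58) (.a (.l 58) .z)) (.b (.a .z (.b .z (.l 61))) (.l
61)))) (.b (.b (.b (.b (.l 61) (.a (.l 61) .z)) (.b .z (.a (.l 64) .z))) (.b (.a (.l 64) (.a (.l 64) .z)) (.a (.l 64) .z))) (.b (.b .z (.l 67)) (.b
(.b (.l 67) .z) (.a (.l 70) .z))))) (.b (.b (.b (.b (.a (.l 70) .z) .z) (.b (.a .z (.l 73)) .z)) (.b (.b (.a (.l 76) .z) .z) (.b (.a .z (.l 79)) (.b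
(.l 79) .z)))) (.b (.b (.b (.a (.l 82) .z) (.a (.l 82) .z)) .z) (.b (.b (.a (.l 88) .z) .z) (.b .z (.b .z (.l 94))))))) (.b (.b (.b (.b .z (.b (.b .z
(.l 100)) .z)) .z) (.b (.b (.b (.a (.l 112) .z) .z) (.b (.a (.l 118) .z) .z)) .z)) .z)) .z) (.b (.b (.b (.b (.b (.b (.b (.b .z (.a (.l 55) .z)) (.l
55)) .z) (.b (.b (.a .z (.b .z (.l 59))) (.a (.b .z (.l 59)) (.l 59))) (.b (.b (.a .z (.l 59)) .z) (.b (.a (.l 61) .z) (.l 61))))) (.b (.b (.b (.b (.l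
61) .z) .z) (.b (.a .z (.b .z (.l 65))) (.a (.b .z (.l 65)) (.l 65)))) (.b (.b (.b (.a .z (.l 65)) .z) (.b .z (.l 67))) .z))) (.b (.b (.b (.b (.a .z
(.l 71)) .z) .z) (.b (.b .z (.a .z (.l 77))) .z)) (.b (.b (.b .z (.a .z (.l 83))) .z) .z))) .z) .z)) (.a (.b (.b (.a (.b (.b (.b (.b (.b (.b (.l 53)
.z) .z) (.b .z (.b .z (.l 59)))) (.b (.l 59) (.b (.l 59) .z))) (.b (.b .z (.l 65)) (.b (.b (.l 65) .z) .z))) (.a (.b (.b (.b (.l 71) .z) (.b (.l 77)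
.z)) (.b (.b (.l 83) .z) (.b (.l 89) .z))) (.b (.b (.b (.l 71) .z) (.b (.l 77) .z)) .z))) (.b (.a (.b (.b (.b (.b (.l 53) .z) (.b .z (.l 59))) (.b (.l
59) (.b (.l 59) .z))) (.a (.b (.b .z (.l 65)) .z) (.b (.b .z (.l 65)) .z))) (.b (.a (.b .z (.b (.l 59) .z)) (.b (.b .z (.l 59)) .z)) (.a .z (.b .z (.b
.z (.l 39)))))) (.a (.b .z (.a .z (.b (.b (.l 45) .z) .z))) (.b (.b (.b (.l 39) .z) (.b (.l 115) (.b .z (.l 45)))) (.b (.b (.l 45) .z) (.b .z (.b .z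
(.l 51)))))))) (.a (.b (.a .z (.b .z (.b (.b .z (.b (.l 63) .z)) .z))) .z) (.b (.b (.b (.b (.b (.l 51) .z) .z) (.b (.b (.b .z (.l 57)) (.l 57)) (.b
(.b (.l 57) .z) .z))) (.b (.b (.b .z (.b .z (.l 63))) (.b (.l 63) .z)) (.b .z (.b (.l 69) .z)))) .z))) (.b (.b (.b (.b (.b .z (.b (.b (.l 117) .z)
.z)) .z) .z) .z) .z)) (.b (.b (.a (.b (.a (.b (.a (.b .z (.a .z (.l 33))) (.b .z (.b (.l 33) .z))) (.b .z (.b .z (.l 39)))) (.b (.b (.b .z (.l 33))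
(.b (.l 33) (.b (.l 33) .z))) (.b .z (.b .z (.l 39))))) (.b (.b (.b (.l 39) .z) (.b (.b (.l 115) .z) (.b .z (.l 45)))) (.b (.b (.l 45) (.b (.b (.l 45)
.z) .z)) (.b .z (.b (.b .z (.l 51)) (.l 51)))))) (.b (.b (.b (.b (.b .z (.b .z (.l 33))) (.l 33)) (.b (.l 33) (.b (.l 33) (.b (.l 33) .z)))) (.b (.b
(.b (.b (.l 37) .z) .z) .z) (.b (.b .z (.b .z (.l 39))) (.l 39)))) (.b (.b (.b (.l 39) (.b (.b .z (.l 43)) .z)) (.b .z (.b .z (.l 45)))) (.b (.b (.l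
45) (.b .z (.b (.l 49) .z))) (.b (.b .z (.b (.l 51) .z)) (.l 51)))))) (.b (.b (.b (.b (.b (.b (.l 51) (.a (.l 51) .z)) (.b .z (.a .z (.l 55)))) (.b .z
(.b (.a .z (.l 57)) .z))) (.b (.b (.b (.a .z (.l 57)) (.l 57)) (.l 57)) (.b (.b (.a (.l 57) .z) .z) (.b (.a .z (.l 61)) .z)))) (.b (.b (.b .z (.b (.a
.z (.l 63)) (.l 63))) (.b (.b (.l 63) (.a (.l 63) .z)) (.b .z (.l 67)))) (.b (.b .z (.b .z (.l 69))) (.b (.b (.l 69) .z) (.b .z (.l 73)))))) (.b (.b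
(.b (.b .z (.b .z (.l 75))) (.b .z (.b (.l 79) .z))) (.b (.b (.b .z (.l 81)) .z) (.b (.b (.l 85) .z) (.b .z (.l 87))))) (.b (.b (.b (.b .z (.l 91))
.z) (.b (.b (.l 93) .z) (.b (.l 97) .z))) .z)))) .z)))

theorem vQ131 : ev Q131 I6_21 I4_15 = 122069074954290 := by decide +kernel

noncomputable def Q229 : QT :=
(.b (.a (.b (.a (.b (.b (.b (.b (.a (.b (.a (.l 11) .z) (.l 11)) (.b .z (.a (.l 11) .z))) (.l 11)) (.l 11)) (.l 11)) (.l 11)) (.b (.a (.b (.b (.b .z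
(.b (.a (.l 11) .z) (.l 11))) (.l 11)) (.l 11)) (.b (.b (.b .z (.b .z (.a (.a (.l 11) .z) .z))) (.l 11)) (.a (.l 11) (.b (.l 11) (.a (.b (.l 11) (.a
(.l 11) .z)) .z))))) (.a (.b (.a (.l 11) (.b (.l 11) (.a (.l 11) (.b (.l 11) (.a (.l 11) .z))))) (.a (.b (.l 11) (.a (.b (.l 11) (.a (.l 11) .z)) .z))
(.b (.a (.b (.a (.l 11) .z) .z) .z) .z))) (.b (.a (.b (.a (.l 11) (.b (.a (.l 11) .z) .z)) .z) .z) .z)))) (.a (.b (.a (.b (.l 11) (.a (.l 11) (.b (.l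
11) (.a (.l 11) (.b (.a (.l 11) .z) .z))))) (.b (.a (.b (.l 11) (.a (.l 11) (.b (.l 11) (.a (.l 11) .z)))) (.b (.a (.l 11) (.b (.l 11) .z)) (.a (.b
(.a (.l 11) .z) .z) .z))) (.a (.b (.a (.b (.l 11) .z) .z) .z) (.l 77)))) (.a (.b (.a (.b (.a (.l 11) (.b (.l 11) (.a (.l 11) .z))) (.a (.b (.a (.l 11)
.z) .z) .z)) (.b .z (.l 77))) (.a (.b .z (.l 77)) (.l 77))) (.l 77))) (.b (.a (.b (.a (.b .z (.l 77)) (.a (.l 77) .z)) (.l 77)) (.a .z (.b .z (.b .z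
(.l 64))))) (.a (.l 77) (.a (.a (.b .z (.l 77)) .z) (.a (.b (.l 64) (.a .z (.l 64))) (.l 64))))))) (.b (.a (.b (.a (.b (.a (.b .z (.a (.b (.b .z (.l
11)) (.l 11)) (.b (.b .z (.l 11)) (.a (.l 11) .z)))) .z) (.a (.b (.a (.b (.a (.l 11) .z) .z) .z) .z) (.b (.l 87) .z))) (.b (.a (.b .z (.l 87)) (.b (.l
87) .z)) .z)) (.b .z (.a .z (.a .z (.l 239))))) (.b (.b (.b (.a .z (.b (.a (.b (.l 21) .z) (.l 21)) .z)) .z) .z) (.b (.b .z (.b .z (.l 239))) (.a (.l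
239) (.b (.l 239) .z))))) (.a (.b (.a (.b (.a (.b .z (.a .z (.l 64))) .z) (.l 64)) (.b (.b (.l 239) .z) (.b (.a (.b .z (.l 64)) .z) (.a (.l 64) (.b .z
(.l 64)))))) (.a (.l 64) (.b (.l 64) (.a (.l 64) (.b (.l 64) .z))))) (.b .z (.a (.b (.a (.b (.b .z (.l 64)) (.l 64)) .z) .z) .z))))) (.b (.a (.a (.b
(.l 77) (.b (.b (.l 77) .z) .z)) (.a (.b (.l 77) (.b (.b (.b (.l 77) .z) .z) (.b (.a .z (.b .z (.l 55))) (.a (.b .z (.l 55)) (.l 55))))) (.a (.b (.l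
77) (.b .z (.l 55))) (.b (.a .z (.b (.l 64) (.a .z (.l 64)))) (.a (.b .z (.l 55)) (.a (.b .z (.l 55)) .z)))))) (.a (.a (.a (.a (.b (.b (.l 64) (.b (.l
64) .z)) .z) (.b (.b (.l 64) (.b (.l 64) .z)) .z)) (.b (.b (.b (.l 64) (.a (.l 64) .z)) .z) (.b .z (.a .z (.l 109))))) (.b (.b (.a (.b (.a (.l 64) .z)
.z) (.b .z (.l 93))) (.b (.b (.l 93) .z) .z)) (.b .z (.l 109)))) (.b (.a (.a (.b (.l 93) .z) .z) .z) (.a (.b .z (.a (.b (.l 109) .z) .z)) .z)))) (.b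
(.a (.b (.a (.a (.b .z (.a .z (.b .z (.l 55)))) (.b (.a (.b .z (.l 55)) (.l 55)) (.l 55))) (.l 55)) (.b (.a (.b (.a .z (.l 55)) (.a .z (.a .z (.l
55)))) (.l 55)) (.a (.b (.a (.b (.a (.l 12) (.a (.l 12) .z)) (.l 12)) (.b .z (.a (.a (.l 12) .z) .z))) (.l 12)) (.b (.a (.b (.l 55) .z) (.l 55)) (.a
(.b .z (.a (.l 12) .z)) (.b (.l 55) .z)))))) (.b (.a (.a .z (.a (.b (.l 109) .z) .z)) (.b (.a (.a .z (.l 87)) .z) (.a (.b (.l 87) .z) (.b (.a .z (.b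
.z (.a .z (.l 13)))) (.a (.b .z (.a .z (.l 13))) (.l 13)))))) (.a (.b .z (.a .z (.b (.a .z (.b .z (.a .z (.l 13)))) (.a (.b .z (.a .z (.l 13))) (.l
13))))) (.b (.a (.b (.a .z (.b .z (.a .z (.l 13)))) (.a (.b .z (.a .z (.l 13))) (.l 13))) (.l 13)) (.l 13))))) (.a (.b (.a (.l 12) (.b (.a (.l 12) (.b
(.b (.a (.a (.l 12) .z) .z) (.a (.l 12) (.a (.l 12) .z))) (.a (.l 12) (.b (.a (.l 12) .z) .z)))) (.a (.b (.l 12) (.a (.b (.l 12) (.a (.l 12) .z)) (.b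
(.a (.l 12) .z) .z))) (.b (.a (.b (.a (.l 12) .z) .z) (.b (.a .z (.l 13)) (.l 13))) (.a (.b (.a .z (.l 13)) (.l 13)) (.l 13)))))) (.a (.b (.a (.l 12)
(.b (.a (.l 12) (.b (.l 12) (.a (.l 12) .z))) (.a (.b (.l 12) (.a (.l 12) .z)) (.b .z (.a .z (.l 13)))))) (.a (.b (.a (.l 12) (.b (.l 12) .z)) (.a (.b
(.a (.l 12) .z) .z) (.b (.a .z (.l 13)) (.l 13)))) (.b (.a (.b .z (.a .z (.l 13))) (.l 13)) (.l 13)))) (.b (.a (.b (.a (.b .z (.a .z (.l 13))) (.l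
13)) (.l 13)) (.l 13)) (.l 13)))) (.b (.a (.b (.a (.b (.a .z (.b (.a .z (.l 13)) (.l 13))) (.a (.b (.a .z (.l 13)) (.l 13)) (.l 13))) (.l 13)) (.l
13)) (.l 13)) (.l 13))))))

theorem vQ229 : ev Q229 I6_46 I5_27 = 268934991456362 := by decide +kernel

noncomputable def Q193 : QT :=
(.a (.a (.b (.b (.a (.b (.b (.b (.b (.l 55) (.b .z (.l 57))) .z) (.b (.b (.b .z (.l 63)) (.b (.b (.l 63) .z) (.b .z (.l 65)))) .z)) .z) (.b (.b (.b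
(.b (.l 55) (.b (.b (.l 55) .z) .z)) .z) (.b (.b (.b (.b .z (.l 63)) (.l 63)) (.b (.l 63) .z)) .z)) (.a (.b (.b (.b (.l 71) .z) .z) .z) (.b (.b (.b
(.l 71) .z) .z) .z)))) .z) .z) (.b (.b (.a (.b (.a (.b (.b (.b (.l 55) (.b (.l 55) .z)) .z) (.a .z (.b (.b (.l 63) .z) .z))) (.b (.a (.b (.b (.l 55)
.z) .z) .z) (.a .z (.b .z (.b (.l 39) .z))))) (.a (.b (.a .z (.b .z (.b .z (.l 43)))) .z) (.b (.b .z (.b .z (.b (.l 43) .z))) .z))) (.b (.a (.b .z (.b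
(.b (.b .z (.l 35)) (.b (.l 35) .z)) (.b (.b .z (.l 39)) .z))) (.b (.b .z (.b (.l 93) .z)) (.b (.b (.b .z (.l 35)) (.b (.l 35) .z)) .z))) (.b (.b .z
(.b .z (.b (.b .z (.l 43)) (.b (.l 43) .z)))) (.b .z (.b .z (.b .z (.b (.l 52) .z))))))) (.b (.a (.b (.b (.b (.b (.b (.l 51) .z) .z) .z) (.b .z (.b .z
(.b .z (.l 59))))) .z) (.b (.b (.b (.b (.b (.l 51) .z) .z) .z) (.b .z (.b (.b .z (.l 60)) .z))) .z)) (.a .z (.b (.a (.b .z (.a .z (.b .z (.l 61))))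
(.b (.a .z (.b (.l 53) .z)) (.b .z (.b (.l 61) .z)))) (.b (.b .z (.b .z (.l 69))) (.b .z (.b .z (.l 77)))))))) .z)) (.b (.b (.a (.b (.b (.b (.b (.a .z
(.b .z (.a .z (.l 65)))) (.a .z (.b .z (.l 103)))) (.b (.b .z (.l 93)) (.b (.b (.l 93) .z) (.b (.a .z (.l 36)) (.l 36))))) (.b (.b (.b (.b (.a .z (.l
36)) .z) (.b (.a (.l 35) .z) (.l 35))) (.b (.b (.a (.l 35) .z) .z) .z)) .z)) (.a (.b (.b .z (.b (.b .z (.l 44)) (.b (.b .z (.l 43)) .z))) (.b .z (.b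
.z (.b .z (.b (.l 52) .z))))) (.b (.b (.b (.b (.l 119) .z) .z) (.b (.b (.b .z (.l 44)) (.l 44)) .z)) (.a .z (.b .z (.a (.b .z (.l 37)) (.l 37)))))))
(.b (.b (.a (.b (.b (.b (.a .z (.l 65)) (.b (.l 65) .z)) (.b .z (.l 103))) (.b .z (.b .z (.l 36)))) (.b (.b (.b (.l 65) .z) (.l 103)) (.a (.b .z (.b
.z (.l 36))) (.b .z (.a (.l 36) .z))))) (.a (.b (.b (.b (.l 36) (.b .z (.l 35))) .z) .z) (.a (.b (.b (.b (.l 36) .z) .z) (.a .z (.b .z (.l 29)))) (.b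
(.b .z (.a .z (.l 29))) (.l 29))))) (.a (.b .z (.a (.b (.a (.b .z (.l 37)) (.b .z (.l 37))) (.b (.l 37) (.b (.l 37) .z))) (.b (.b .z (.l 37)) (.b (.l
37) (.b (.l 37) .z))))) (.b (.b (.b (.b (.b (.a (.l 29) .z) .z) .z) .z) .z) (.b (.b (.b .z (.b .z (.l 37))) (.l 37)) (.b (.l 37) (.b (.l 37) .z)))))))
(.a (.b (.a (.b (.a .z (.b .z (.a .z (.b .z (.l 45))))) (.a (.b .z (.b .z (.b .z (.l 53)))) (.b (.b (.l 45) .z) (.b .z (.b .z (.l 53)))))) (.b (.a (.b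
.z (.b .z (.l 45))) (.b .z (.b .z (.l 45)))) (.b (.b (.l 45) .z) (.b .z (.b (.b .z (.l 53)) (.l 53)))))) (.b (.b (.b (.b (.l 53) (.b (.l 53) .z)) (.b
.z (.a (.l 109) .z))) (.b (.b .z (.b (.a .z (.l 61)) (.l 61))) (.b (.l 61) (.b (.a (.l 61) .z) .z)))) (.b (.b .z (.b (.b .z (.l 69)) (.l 69))) (.b .z
(.b .z (.l 77)))))) (.b (.b (.b .z (.b (.b (.b (.a .z (.l 45)) .z) (.b .z (.a .z (.l 45)))) (.l 45))) (.b (.b (.b (.l 45) (.b (.l 45) .z)) (.b (.b .z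
(.l 116)) .z)) (.b (.b (.a .z (.b .z (.l 53))) (.b (.a .z (.l 53)) .z)) (.b (.b (.a .z (.l 53)) (.l 53)) (.l 53))))) (.b (.b (.b (.b (.l 53) .z) (.b
(.b .z (.a .z (.l 59))) (.b .z (.a .z (.l 61))))) (.b (.b (.b (.a (.l 61) .z) .z) (.l 61)) (.b (.l 61) .z))) (.b (.b .z (.b (.l 69) (.b (.l 69) .z)))
(.b (.b .z (.b (.l 75) .z)) (.b (.b .z (.l 77)) (.b (.l 77) .z)))))))) (.b (.b (.b (.b (.b (.b .z (.b (.a .z (.l 83)) .z)) (.b (.b .z (.a (.l 85) .z))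
.z)) (.b (.b (.b (.a .z (.l 91)) .z) (.b .z (.a (.l 93) .z))) (.b .z (.b (.a .z (.l 99)) .z)))) (.a (.b (.b (.b (.b (.l 101) .z) .z) .z) .z) (.b (.a
.z (.b (.b .z (.l 107)) .z)) .z))) .z) .z)))

theorem vQ193 : ev Q193 I6_32 I4_15 = 113248380739750 := by decide +kernel

noncomputable def Q200 : QT :=
(.a (.b (.b (.b (.b (.a (.b (.a (.l 29) (.b (.l 29) (.a (.l 29) .z))) (.a (.b (.l 29) (.a (.l 29) .z)) (.b (.a .z (.a .z (.l 29))) (.a (.a .z (.l 29))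
(.l 29))))) (.b (.a (.b (.a (.a (.l 29) .z) .z) (.a .z (.l 29))) (.l 29)) (.l 29))) (.a (.b (.a (.b (.a .z (.a .z (.l 29))) (.l 29)) (.l 29)) (.l 29))
(.l 29))) (.l 29)) (.b (.b (.l 29) (.a (.b (.l 29) (.a (.l 29) (.b (.l 29) (.a (.l 29) (.a (.l 29) .z))))) (.b (.a (.l 29) (.b (.a (.l 29) .z) .z))
(.a (.b (.a (.a (.l 29) .z) .z) .z) .z)))) (.b (.a (.b (.a (.b (.l 29) (.a (.l 29) .z)) .z) (.a .z (.l 171))) .z) (.a (.b (.a (.l 171) .z) (.a .z (.b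
.z (.a .z (.l 35))))) (.b (.a .z (.b (.a .z (.l 35)) (.l 35))) (.l 35)))))) (.a (.b (.b (.b (.b (.a (.b .z (.a .z (.l 35))) (.l 35)) (.l 35)) (.l 35))
(.b (.b (.a (.b (.l 35) (.a .z (.l 35))) (.l 35)) (.a .z (.b (.a .z (.l 35)) .z))) (.b (.a (.l 37) (.b (.a (.l 37) .z) (.l 37))) (.l 37)))) (.b (.b
(.l 37) (.b (.l 37) (.a (.l 37) (.b (.a (.l 37) .z) .z)))) (.b .z (.b (.a .z (.b (.a .z (.l 43)) (.l 43))) (.l 43))))) (.b (.b (.l 35) (.b (.l 35) (.b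
(.a (.b (.a .z (.l 35)) .z) (.l 35)) (.a (.b (.a (.l 37) .z) (.l 37)) (.b (.a .z (.l 35)) .z))))) (.a (.b (.b (.l 37) (.b (.b (.l 37) (.a (.l 37) .z))
.z)) (.b (.b .z (.b .z (.l 43))) (.l 43))) (.b (.b (.b (.a (.l 37) (.b .z (.l 37))) (.l 37)) (.b .z (.l 78))) (.a (.b (.b .z (.l 43)) (.l 43)) (.b (.a
(.b .z (.l 43)) .z) (.a .z (.b .z (.l 39)))))))))) (.b (.a (.b (.b (.b (.a (.l 29) (.b (.a (.l 29) (.b .z (.l 29))) (.l 29))) (.l 29)) (.l 29)) (.b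
(.b (.b (.a (.l 29) (.b (.l 29) (.a (.a (.l 29) .z) .z))) (.a (.b (.a (.l 29) (.a (.l 29) .z)) (.a (.a (.l 29) .z) .z)) (.b .z (.l 66)))) (.b (.a .z
(.l 66)) (.a .z (.b (.l 66) .z)))) (.b (.b (.a .z (.b .z (.a .z (.l 35)))) (.a (.b (.a .z (.l 35)) (.l 35)) (.l 35))) (.l 35)))) (.b (.b (.b (.a (.b
(.a (.b (.a .z (.l 27)) .z) (.l 27)) (.a (.b (.a (.l 29) .z) (.l 29)) (.b .z (.a (.l 29) .z)))) (.b (.l 27) (.a (.b (.l 27) (.a .z (.l 27))) (.l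
27)))) (.a (.l 29) (.b (.a (.b .z (.a (.l 29) .z)) (.b (.l 27) .z)) (.a (.l 29) (.b (.a (.l 29) .z) (.l 29)))))) (.b (.l 29) (.b (.a (.l 29) (.b (.l
29) (.a (.l 29) .z))) (.a (.b (.l 29) (.a (.l 29) .z)) .z)))) (.a (.b (.b .z (.b .z (.b .z (.a .z (.l 35))))) (.l 35)) (.b (.a (.b .z (.b .z (.l 35)))
(.b (.b (.l 67) .z) (.a (.b .z (.l 35)) .z))) (.a (.b (.a (.l 35) (.b (.l 35) .z)) (.a .z (.b .z (.l 31)))) (.b (.a .z (.b .z (.l 31))) (.b (.l 31)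
(.b (.l 31) .z)))))))) (.a (.b (.a (.l 35) (.b (.l 35) (.a (.b (.l 35) (.a (.b (.l 35) .z) .z)) (.b (.a (.b (.l 35) .z) .z) (.a .z (.l 111)))))) (.a
(.b (.a (.b (.b .z (.b (.l 37) .z)) .z) (.b (.a .z (.b (.l 35) .z)) (.a .z (.b .z (.l 39))))) (.a (.b (.a .z (.b .z (.l 39))) (.l 39)) (.l 39))) (.b
(.a (.b .z (.l 39)) (.b (.b .z (.l 39)) (.l 39))) (.l 39)))) (.b (.a (.b (.a (.b (.l 35) (.a (.b (.l 35) .z) .z)) (.b (.a (.b (.l 35) .z) .z) .z)) (.a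
(.b (.a .z (.l 111)) (.l 111)) (.b (.l 111) (.b (.l 111) .z)))) (.b .z (.b (.a .z (.b .z (.l 107))) (.b .z (.b .z (.a .z (.l 39))))))) (.b (.a (.b (.b
(.b .z (.a .z (.l 39))) (.l 39)) (.l 39)) (.b (.a (.l 39) (.b (.a (.l 39) .z) .z)) (.a (.b (.a (.l 39) .z) .z) (.b (.a .z (.l 35)) (.l 35))))) (.a (.b
(.a (.l 39) (.b (.a (.l 39) .z) .z)) (.a (.a (.b (.l 39) .z) .z) (.a .z (.b (.l 35) .z)))) (.a (.b (.a (.b .z (.l 35)) (.l 35)) (.b (.l 35) .z)) (.b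
(.l 35) (.b (.b (.l 35) .z) (.b .z (.l 41)))))))))))

theorem vQ200 : ev Q200 I5_17 I6_60 = 347374533569513 := by decide +kernel

noncomputable def Q58 : QT :=
(.a (.b .z (.a (.a (.b (.b .z (.b .z (.b .z (.a (.b (.a (.b .z (.l 130)) .z) (.a (.l 130) (.b .z (.l 130)))) .z)))) (.a (.b (.b (.l 130) (.b (.b (.l
130) (.b (.a (.l 130) .z) .z)) (.b (.b .z (.l 204)) (.l 204)))) (.b (.b (.a (.l 204) .z) .z) (.a (.l 167) (.b (.a (.l 167) .z) (.l 167))))) (.b (.b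
(.b (.a (.b (.a (.l 130) .z) (.l 130)) (.b .z (.a (.l 130) .z))) (.l 130)) (.b (.b (.a (.b (.l 130) .z) .z) .z) (.a (.b (.l 204) .z) .z))) (.a .z (.b
(.a .z (.b .z (.a .z (.b .z (.l 50))))) (.a .z (.b (.a (.b .z (.l 50)) (.l 50)) (.b (.b (.l 50) .z) .z)))))))) (.b (.b .z (.a .z (.b (.a .z (.b .z (.a
.z (.b .z (.l 50))))) (.a (.b .z (.a .z (.b (.a .z (.l 50)) (.l 50)))) (.b (.a (.b (.a .z (.l 50)) (.l 50)) (.l 50)) (.l 50)))))) (.a (.b (.a (.b .z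
(.a .z (.b .z (.a .z (.l 50))))) (.b (.a .z (.b .z (.a (.b .z (.l 50)) (.l 50)))) (.a (.b (.a (.b .z (.l 50)) (.l 50)) (.l 50)) (.l 50)))) (.a (.b (.a
(.b (.a .z (.b .z (.l 50))) (.l 50)) (.l 50)) (.b (.l 50) (.b (.b (.l 50) (.b (.l 50) .z)) .z))) (.b (.l 50) (.b (.l 50) (.b (.b (.l 50) (.b (.l 50)
.z)) .z))))) (.b (.b (.a (.b (.a (.b (.a .z (.l 50)) (.l 50)) (.l 50)) (.l 50)) (.a (.l 50) (.a (.l 50) (.b (.a (.l 50) .z) .z)))) (.a (.l 50) (.a (.a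
(.l 50) (.a (.l 50) (.b (.l 50) .z))) (.b (.a (.a (.l 50) .z) .z) .z)))) (.b (.a (.a (.l 50) (.b (.l 50) (.a (.b (.l 50) .z) .z))) (.a (.b (.a (.b (.l
50) .z) .z) .z) .z)) (.b (.a (.a (.a (.b (.l 50) .z) .z) .z) .z) .z)))))) (.b (.a (.b .z (.a (.b (.a (.b (.a (.b .z (.a .z (.l 50))) (.a (.b (.l 50)
.z) .z)) (.a (.a (.l 50) (.a (.l 50) .z)) .z)) .z) (.a (.a (.a (.b (.l 50) .z) .z) .z) .z)) .z)) .z) (.a (.a .z (.b (.b .z (.b (.a (.b .z (.b .z (.l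
130))) (.b .z (.a (.l 130) .z))) .z)) .z)) .z)))) (.b .z (.a (.b .z (.b .z (.a (.b .z (.b (.a (.a .z (.a (.b (.l 94) .z) .z)) .z) .z)) .z))) .z)))

theorem vQ58 : ev Q58 I4_2 I4_2 = 144957808106420 := by decide +kernel

noncomputable def Q202 : QT :=
(.b (.b (.a (.b (.a (.b (.b (.b (.b (.a .z (.l 65)) (.a (.l 65) (.a (.l 65) .z))) (.b (.a (.a (.l 65) .z) .z) (.a .z (.l 65)))) (.b (.b (.a (.l 65)
(.a (.l 65) .z)) (.a (.a (.l 65) .z) .z)) (.b .z (.a .z (.l 71))))) (.b (.b (.l 71) (.a .z (.b (.l 71) .z))) (.b (.a (.b .z (.l 73)) .z) .z))) (.b (.a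
(.b (.b .z (.l 65)) (.b .z (.l 71))) (.b (.b (.b (.a .z (.l 63)) .z) (.b (.a (.l 65) .z) .z)) (.a (.b .z (.l 71)) .z))) (.a (.b (.a (.l 71) (.b (.l
71) .z)) .z) .z))) (.a (.b (.a (.b (.b (.l 79) (.b (.l 79) .z)) (.b .z (.b .z (.l 87)))) (.b (.a (.l 79) .z) .z)) (.a (.b (.a (.b (.l 87) .z) .z) .z)
.z)) (.b (.a (.b (.a .z (.b (.l 74) .z)) .z) (.b .z (.b (.b (.l 71) .z) .z))) (.a (.b .z (.b (.b (.l 79) .z) .z)) .z)))) (.b (.a (.b (.a (.b (.a (.b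
(.l 63) .z) .z) (.a (.b .z (.l 66)) (.l 66))) (.b .z (.a (.b (.l 66) .z) (.b .z (.a .z (.l 63)))))) (.a .z (.b (.a (.b (.a .z (.l 63)) .z) (.b (.l 63)
.z)) .z))) (.b (.a (.b (.a .z (.b (.a .z (.l 61)) .z)) (.b (.b .z (.a .z (.l 63))) (.l 63))) (.b (.b (.b (.l 61) .z) .z) (.b .z (.b (.a (.l 63) .z)
(.l 63))))) (.b (.b (.b (.a (.l 63) .z) .z) .z) (.b (.b (.a .z (.l 69)) .z) (.b .z (.a .z (.l 75))))))) (.a (.b (.b (.b (.a .z (.b .z (.l 75))) (.a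
(.b .z (.l 71)) .z)) .z) (.a (.b (.b .z (.l 83)) .z) (.b (.b (.b .z (.l 83)) (.l 83)) (.a .z (.b (.l 83) .z))))) (.b (.b (.b (.l 75) (.a (.b (.l 75)
.z) (.l 75))) .z) (.a (.b (.a (.b .z (.l 83)) .z) .z) .z))))) (.a (.b (.a (.b .z (.a .z (.b (.b (.b (.l 99) .z) .z) .z))) (.b (.a (.b (.b .z (.b (.l
91) .z)) .z) (.b (.b .z (.l 91)) .z)) (.a (.b (.a (.b (.l 99) .z) (.b (.l 99) .z)) .z) .z))) (.a (.b (.a (.b (.b (.b .z (.l 115)) .z) .z) .z) .z) (.b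
(.a .z (.b .z (.b .z (.b .z (.l 119))))) .z))) (.b (.a (.b (.a (.b (.a (.b .z (.l 91)) .z) .z) .z) (.a .z (.b .z (.b (.b .z (.l 103)) .z)))) (.b (.a
.z (.b (.b (.b .z (.l 83)) .z) (.b .z (.l 95)))) (.b .z (.a (.b (.l 103) .z) .z)))) (.b (.a (.b (.a (.b .z (.b (.l 111) .z)) (.b .z (.a (.l 111) .z)))
.z) .z) (.a .z (.b (.a .z (.b (.b .z (.l 123)) .z)) .z)))))) .z)

theorem vQ202 : ev Q202 I5_17 I5_31 = 77724142088787 := by decide +kernel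

noncomputable def Q106 : QT :=
(.b (.a (.b (.a (.l 14) (.b (.a (.l 14) (.b (.l 14) (.a (.l 14) (.b (.l 14) (.a (.b (.l 14) (.a (.l 14) (.b (.l 14) (.a (.l 14) .z)))) (.b (.a (.b (.l
14) (.a (.l 14) (.b (.l 14) .z))) (.b (.a (.b (.l 14) .z) .z) (.a .z (.l 10)))) (.a (.b (.a .z (.b .z (.l 10))) (.a (.b .z (.l 10)) (.l 10))) (.l
10)))))))) (.a (.b (.l 14) (.a (.b (.l 14) (.a (.l 14) (.b (.l 14) (.a (.l 14) (.b (.l 14) (.a (.l 14) (.b (.l 14) .z))))))) (.b (.a (.l 14) (.b (.a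
(.l 14) (.b (.l 14) (.a (.b (.l 14) .z) .z))) (.a (.b (.a (.l 14) (.b (.l 14) .z)) (.a (.b (.l 14) .z) .z)) (.b (.a .z (.l 10)) (.l 10))))) (.a (.b
(.a (.b (.l 14) (.a (.l 14) (.b (.l 14) .z))) (.b (.a (.l 14) .z) (.a .z (.b .z (.l 10))))) (.a (.b (.a (.b (.l 14) .z) .z) (.a .z (.l 10))) (.l 10)))
(.b (.a (.b (.a (.b .z (.l 10)) (.l 10)) (.l 10)) (.l 10)) (.l 10)))))) (.b (.a (.b (.a (.l 14) (.b (.l 14) (.a (.l 14) (.b (.a (.l 14) (.b (.l 14)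
.z)) (.a .z (.b .z (.l 10))))))) (.a (.b (.a (.l 14) (.b (.l 14) (.a (.l 14) (.b (.l 14) .z)))) (.a (.b (.l 14) (.a (.l 14) .z)) (.b (.a (.b (.l 14)
.z) .z) (.a (.b .z (.l 10)) (.l 10))))) (.b (.a (.b (.a (.l 14) .z) (.a .z (.b .z (.l 10)))) (.b (.a (.b .z (.l 10)) (.l 10)) (.l 10))) (.l 10)))) (.b
(.a (.b (.a (.b (.a (.l 14) (.b (.l 14) .z)) (.a (.b (.l 14) .z) .z)) (.b (.a .z (.b .z (.l 10))) (.l 10))) (.a (.b (.a .z (.l 10)) (.l 10)) (.l 10)))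
(.l 10)) (.l 10))) (.a (.b (.a (.b (.a (.b (.a .z (.b .z (.l 10))) (.a (.b .z (.l 10)) (.l 10))) (.l 10)) (.l 10)) (.l 10)) (.l 10)) (.l 10)))))) (.a
(.b (.a (.l 14) (.b (.a (.l 14) (.b (.l 14) (.a (.l 14) (.b (.a (.l 14) (.b (.l 14) (.a (.l 14) (.b (.l 14) .z)))) (.a (.b (.l 14) (.a (.l 14) .z))
(.b (.a (.b (.l 14) .z) .z) (.a (.b .z (.l 10)) (.l 10)))))))) (.a (.b (.l 14) (.a (.b (.l 14) (.a (.l 14) (.b (.l 14) (.a (.b (.l 14) .z) .z)))) (.b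
(.a (.b (.l 14) (.a (.l 14) (.b (.l 14) .z))) (.b (.a (.b (.l 14) .z) .z) (.a .z (.l 10)))) (.a (.b (.a .z (.b .z (.l 10))) (.a (.b .z (.l 10)) (.l
10))) (.l 10))))) (.b (.a (.b (.a (.l 14) (.b (.a (.l 14) (.b (.l 14) .z)) (.a (.b (.l 14) .z) .z))) (.a (.b (.a (.l 14) (.b (.l 14) .z)) (.a .z (.b
.z (.l 10)))) (.b (.a .z (.l 10)) (.l 10)))) (.b (.a (.b (.a .z (.b .z (.l 10))) (.l 10)) (.l 10)) (.l 10))) (.a (.b (.a (.b (.a (.b .z (.l 10)) (.l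
10)) (.l 10)) (.l 10)) (.l 10)) (.l 10)))))) (.a (.b (.a (.l 14) (.b (.a (.l 14) (.b (.l 14) (.a (.b (.l 14) (.a (.l 14) (.b (.l 14) .z))) (.b (.a (.b
(.l 14) .z) .z) (.a .z (.l 10)))))) (.a (.b (.a (.l 14) (.b (.l 14) (.a (.l 14) .z))) (.a (.b (.a (.l 14) (.b (.l 14) .z)) (.a (.b (.l 14) .z) .z))
(.b (.a .z (.b .z (.l 10))) (.l 10)))) (.b (.a (.b (.a .z (.b .z (.l 10))) (.a (.b .z (.l 10)) (.l 10))) (.l 10)) (.l 10))))) (.a (.b (.a (.b (.l 14)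
(.a (.l 14) (.b (.l 14) (.a (.b (.l 14) .z) .z)))) (.b (.a (.b (.l 14) (.a (.l 14) (.b (.l 14) .z))) (.b (.a (.l 14) .z) (.a .z (.b .z (.l 10))))) (.a
(.b (.a (.b (.l 14) .z) .z) (.a (.b .z (.l 10)) (.l 10))) (.l 10)))) (.a (.b (.a (.b (.a (.l 14) (.b (.l 14) .z)) (.a .z (.b .z (.l 10)))) (.b (.a .z
(.l 10)) (.l 10))) (.a (.b (.a (.b .z (.l 10)) (.l 10)) (.l 10)) (.l 10))) (.l 10))) (.b (.a (.b (.a (.b (.a (.b .z (.l 10)) (.l 10)) (.l 10)) (.l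
10)) (.l 10)) (.l 10)) (.l 10)))) (.b (.a (.b (.a (.b (.a (.b (.a (.l 14) (.b (.l 14) .z)) (.a .z (.b .z (.l 10)))) (.b (.a .z (.l 10)) (.l 10))) (.a
(.b (.a (.b .z (.l 10)) (.l 10)) (.l 10)) (.l 10))) (.l 10)) (.l 10)) (.l 10)) (.l 10)))) (.b (.a (.b (.a (.b (.a (.b (.l 14) (.a (.l 14) (.b (.a (.l
14) (.b (.l 14) .z)) (.a .z (.b .z (.l 10)))))) (.b (.a (.b (.l 14) (.a (.b (.l 14) .z) .z)) (.b (.a .z (.b .z (.l 10))) (.a (.b .z (.l 10)) (.l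
10)))) (.a (.b (.a .z (.l 10)) (.l 10)) (.l 10)))) (.a (.b (.a (.b (.a (.l 14) .z) (.a .z (.b .z (.l 10)))) (.b (.a (.b .z (.l 10)) (.l 10)) (.l 10)))
(.l 10)) (.l 10))) (.l 10)) (.l 10)) (.l 10)) (.l 10)))) (.b (.a (.b (.a (.b (.a (.b (.l 14) (.a (.l 14) (.b (.a (.l 14) (.b (.l 14) (.a (.l 14) .z)))
(.a (.b (.a (.l 14) (.b (.l 14) .z)) (.a (.b (.l 14) .z) .z)) (.b (.a .z (.b .z (.l 10))) (.l 10)))))) (.b (.a (.b (.a (.l 14) (.b (.l 14) (.a (.l 14)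
(.b (.l 14) .z)))) (.a (.b (.l 14) (.a (.l 14) (.b (.l 14) .z))) (.b (.a (.b (.l 14) .z) .z) (.a .z (.l 10))))) (.b (.a (.b (.a (.l 14) .z) (.a .z (.b
.z (.l 10)))) (.b (.a (.b .z (.l 10)) (.l 10)) (.l 10))) (.l 10))) (.a (.b (.a (.b (.a .z (.b .z (.l 10))) (.a (.b .z (.l 10)) (.l 10))) (.l 10)) (.l
10)) (.l 10)))) (.a (.b (.a (.b (.a (.l 14) (.b (.a (.l 14) (.b (.l 14) .z)) (.a (.b (.l 14) .z) .z))) (.a (.b (.a (.l 14) .z) (.a .z (.b .z (.l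
10)))) (.b (.a (.b .z (.l 10)) (.l 10)) (.l 10)))) (.b (.a (.b (.a .z (.l 10)) (.l 10)) (.l 10)) (.l 10))) (.a (.b (.a (.b (.a (.b .z (.l 10)) (.l
10)) (.l 10)) (.l 10)) (.l 10)) (.l 10))) (.l 10))) (.l 10)) (.l 10)) (.l 10)) (.l 10))) (.l 10))

theorem vQ106 : ev Q106 I4_4 I4_6 = 3882032575643186 := by decide +kernel

noncomputable def Q189 : QT :=
(.b (.a (.b (.a (.b (.a (.b (.a (.b (.a (.b (.a (.b (.l 7) (.a (.b (.l 7) .z) .z)) (.b .z (.a .z (.l 14)))) (.a (.b (.a .z (.l 14)) (.l 14)) (.l 14)))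
(.l 14)) (.l 14)) (.l 14)) (.l 14)) (.l 14)) (.l 14)) (.l 14)) (.b (.l 14) (.a (.b (.a (.b (.l 14) (.a (.b (.l 14) (.a (.b (.l 14) (.a (.b (.l 14) .z)
(.l 14))) (.l 14))) (.l 14))) (.l 14)) (.a (.b (.a (.b (.a (.b (.a .z (.b (.l 14) .z)) .z) (.b (.l 14) (.a .z (.b (.l 14) .z)))) .z) (.b (.l 14) (.a
(.b (.a .z (.l 14)) .z) (.b (.l 14) (.a (.b (.l 14) .z) (.l 14)))))) .z) (.b (.l 14) (.a (.b (.a (.b (.l 14) (.a .z (.b (.l 14) .z))) (.l 14)) (.a .z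
(.b (.a .z (.l 14)) .z))) (.b (.l 14) (.a (.b (.l 14) (.a (.b (.l 14) .z) (.l 14))) (.l 14))))))) (.l 14)))) (.b (.l 14) (.b (.l 14) (.b (.l 14) (.b
(.l 14) (.a (.l 14) (.b (.l 14) (.a (.l 14) (.b (.a (.l 14) (.b (.l 14) (.a (.l 14) .z))) (.a (.b (.a (.l 14) (.a (.l 14) .z)) (.a (.a (.l 14) .z)
.z)) (.b (.a .z (.a (.a .z (.l 8)) (.l 8))) (.l 8)))))))))))) (.b (.b (.b (.a (.b (.a (.a (.a .z (.b .z (.l 155))) (.a (.l 155) (.b (.a .z (.b (.l 14)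
(.a .z (.b (.l 14) .z)))) .z))) (.a (.a (.b (.l 14) (.a (.b (.a (.b (.l 14) .z) (.l 14)) .z) (.l 14))) (.l 14)) (.l 14))) (.a (.b (.l 155) (.a (.l
155) (.b (.l 155) (.a .z (.b .z (.a (.a .z (.a .z (.l 8))) (.l 8))))))) (.b (.a (.b (.a (.a .z (.a .z (.b (.l 14) .z))) (.l 14)) (.a .z (.b (.l 14)
(.a (.a .z (.l 14)) .z)))) (.b (.a (.l 14) (.b (.l 14) (.a (.a (.l 14) .z) .z))) (.a (.b (.a (.l 14) .z) (.a .z (.a (.a .z (.l 8)) (.l 8)))) (.b (.a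
(.a .z (.a .z (.l 8))) (.l 8)) (.l 8))))) (.a (.b (.a .z (.b (.a .z (.a .z (.l 8))) (.l 8))) (.a (.b (.a (.a .z (.l 8)) (.l 8)) (.l 8)) (.l 8))) (.l
8))))) (.b (.a (.b (.a (.l 14) (.b (.l 14) (.a (.l 14) (.b (.l 14) (.a (.l 14) .z))))) (.a (.b (.l 14) (.a (.b (.l 14) (.a (.l 14) .z)) (.b (.a (.a
(.l 14) .z) .z) (.a .z (.l 8))))) (.b (.a (.b (.a (.l 14) (.a (.l 14) .z)) .z) (.b (.a .z (.a (.a .z (.l 8)) (.l 8))) (.l 8))) (.a (.b (.a (.a .z (.l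
8)) (.l 8)) (.l 8)) (.l 8))))) (.b (.a (.b (.a (.b (.l 14) (.a (.l 14) (.a (.l 14) .z))) (.b (.a (.l 14) .z) (.a .z (.a (.a .z (.l 8)) (.l 8))))) (.a
(.b (.a (.a (.l 14) .z) .z) (.a (.a .z (.a .z (.l 8))) (.l 8))) (.l 8))) (.b (.a (.b (.a (.a .z (.a .z (.l 8))) (.l 8)) (.l 8)) (.l 8)) (.l 8))) (.l
8))) (.a (.b (.a (.b (.a (.b (.a .z (.a .z (.l 8))) (.a (.a (.a .z (.l 8)) (.l 8)) (.l 8))) (.l 8)) (.l 8)) (.l 8)) (.l 8)) (.l 8)))) (.a (.b (.a (.b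
(.a (.b (.a .z (.b .z (.a .z (.a .z (.l 8))))) (.a (.b (.a .z (.a .z (.a .z (.l 8)))) (.a (.a (.a .z (.l 8)) (.l 8)) (.l 8))) (.l 8))) (.b (.a (.b (.a
.z (.a (.a .z (.l 8)) (.l 8))) (.l 8)) (.l 8)) (.l 8))) (.l 8)) (.l 8)) (.l 8)) (.l 8))) (.l 8)) (.a (.l 8) (.b (.l 8) (.a (.l 8) (.b (.l 8) (.a (.l
8) (.b (.l 8) (.a (.l 8) (.b (.a (.l 8) (.b (.a (.l 8) (.b (.l 8) (.a (.l 8) .z))) (.a (.b (.l 8) (.a (.l 8) .z)) .z))) (.a (.b (.a (.l 8) (.b (.l 8)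
(.a (.l 8) .z))) (.a (.b (.l 8) (.a (.l 8) .z)) .z)) (.b (.a .z (.l 9)) (.l 9)))))))))))))

theorem vQ189 : ev Q189 I5_19 I4_12 = 1914433570717825 := by decide +kernel

end Pool.Agent.Helper64.SPW.Dat
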