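import Pool.Agent.Helper64.SPW.Iv

/-! Boxes of traces, part 8 (data and kernel evaluation). -/

set_option maxRecDepth 1000000
set_option maxHeartbeats 0

namespace Pool.Agent.Helper64.SPW.Dat

noncomputable def Q265 : QT :=
(.a (.b (.a (.b (.b (.b (.b (.a (.b (.l 29) (.a (.l 29) (.b (.a (.l 29) (.b (.l 29) .z)) .z))) (.b (.a (.b (.l 29) (.a (.l 29) .z)) (.b (.a (.b (.l
29) .z) .z) .z)) .z)) (.b (.a (.a (.b (.a (.b (.l 29) .z) .z) .z) .z) (.a (.b .z (.l 71)) .z)) (.b .z (.b .z (.a .z (.a .z (.l 28))))))) (.b (.l 28)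
(.b (.l 28) (.b (.l 28) (.b (.l 28) (.a (.a (.l 28) .z) .z)))))) (.b (.b (.b (.b .z (.a .z (.a .z (.l 73)))) (.a (.a .z (.b .z (.l 73))) (.l 73))) (.b
(.b (.a (.l 73) (.a (.l 73) .z)) (.b (.a (.l 73) .z) .z)) .z)) (.b (.b (.b .z (.b .z (.a .z (.l 111)))) (.a (.a (.b .z (.l 111)) (.l 111)) (.l 111)))
(.a (.b (.l 111) (.a (.b (.l 111) .z) (.b (.l 111) .z))) (.b (.a (.l 111) .z) .z))))) (.a (.b (.b (.b .z (.b (.b .z (.l 39)) (.l 39))) (.b (.l 39) (.b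
(.b (.l 39) .z) .z))) (.b (.b (.b (.b (.a (.l 97) .z) .z) .z) (.b (.b .z (.a .z (.b .z (.l 57)))) (.l 57))) (.b (.b (.b (.b .z (.l 48)) (.l 48)) (.b
(.b (.l 48) .z) (.a (.l 61) .z))) .z))) (.b (.a (.b (.b .z (.b (.b .z (.l 39)) (.l 39))) (.b (.l 39) (.b (.b (.l 39) .z) .z))) (.b (.b .z (.b (.b .z
(.l 39)) (.l 39))) (.a (.b (.l 39) (.b (.b (.l 39) .z) .z)) (.b (.l 39) .z)))) (.a (.b (.b .z (.b (.b .z (.b .z (.l 57))) (.l 57))) (.a (.b (.b (.b .z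
(.l 48)) .z) .z) .z)) (.b (.a .z (.b (.a .z (.b .z (.l 49))) (.b (.l 49) .z))) .z))))) (.b (.a (.b (.b (.b .z (.b .z (.b .z (.b .z (.l 28))))) (.b (.l
28) (.b (.l 28) (.b (.l 28) (.b (.a (.l 28) (.a (.l 28) .z)) .z))))) (.a (.b (.b (.b (.l 73) .z) (.b .z (.b .z (.l 112)))) (.b (.b (.b .z (.l 111))
(.b (.l 111) .z)) .z)) .z)) (.b (.a (.b (.b .z (.b .z (.b .z (.b (.a .z (.l 28)) (.l 28))))) (.a (.b (.l 28) (.b (.l 28) (.b (.l 28) .z))) (.b (.l 28)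
(.a (.b (.l 28) (.b (.l 28) .z)) (.b (.a (.l 28) .z) .z))))) (.b (.a (.b .z (.b (.b .z (.l 60)) (.b .z (.l 28)))) (.b (.b .z (.b .z (.l 60))) (.a (.b
(.l 60) .z) .z))) (.a (.b (.a (.b (.l 28) (.a (.l 28) .z)) (.b (.a (.l 28) .z) .z)) (.a (.b .z (.l 31)) (.l 31))) (.b (.a (.b .z (.l 31)) (.l 31)) (.l
31))))) (.a (.b .z (.b (.b .z (.a .z (.l 78))) (.l 78))) (.b (.b (.b (.b (.a (.b (.l 31) .z) .z) .z) .z) .z) (.a (.l 78) .z))))) (.a (.b (.a (.b (.a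
(.b .z (.a (.b .z (.l 39)) .z)) .z) .z) (.b (.a (.b (.a (.b .z (.l 41)) (.b .z (.l 41))) (.b (.l 41) .z)) (.b (.b (.b .z (.l 41)) (.l 41)) (.b (.l 41)
.z))) .z)) (.b (.b (.b .z (.l 49)) (.b (.b (.a (.l 49) (.b (.l 49) .z)) .z) .z)) (.b (.b (.a .z (.b (.b (.l 49) .z) .z)) .z) .z))) (.b (.b (.b (.b (.b
.z (.l 41)) (.a (.l 41) (.b (.l 41) .z))) (.b (.a (.b (.a (.l 41) .z) .z) .z) (.a .z (.a .z (.b (.l 46) .z))))) .z) (.b (.b (.b .z (.b (.a (.l 49) (.b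
(.l 49) .z)) (.a (.b (.l 49) .z) .z))) (.b .z (.a (.b .z (.b .z (.l 49))) (.b .z (.b .z (.l 49)))))) (.a (.b (.b (.b (.b (.l 49) .z) .z) .z) .z)
.z)))))) (.a (.a (.b (.a (.b (.b (.b (.b (.b .z (.b (.l 65) .z)) (.b .z (.l 69))) (.b (.l 69) .z)) .z) (.b (.b (.b .z (.b .z (.l 79))) .z) .z)) (.b
(.a (.b (.b .z (.b (.l 69) .z)) .z) (.b (.b .z (.b (.l 69) .z)) .z)) .z)) .z) .z) (.b (.b (.a (.b .z (.a .z (.b .z (.b (.b (.l 73) .z) .z)))) (.b (.a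
(.b (.a .z (.b .z (.l 59))) (.a .z (.b (.b (.l 59) .z) .z))) (.b (.b (.b .z (.l 59)) (.l 59)) (.b (.b (.l 59) (.b (.l 59) .z)) .z))) (.b (.b .z (.b .z
(.b .z (.l 73)))) (.b (.b (.a (.l 73) .z) .z) .z)))) (.a (.a (.b (.b .z (.b .z (.b .z (.l 97)))) (.b (.b .z (.b (.l 107) .z)) (.b (.b .z (.l 99))
.z))) (.b (.b .z (.b .z (.b .z (.l 97)))) (.b (.b .z (.b (.l 107) .z)) (.b (.b .z (.l 99)) .z)))) (.b (.b (.b (.a .z (.b (.l 70) .z)) .z) (.b .z (.b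
(.l 97) .z))) (.b (.b .z (.b (.a (.l 107) .z) (.b .z (.l 90)))) (.b (.b .z (.l 99)) .z))))) .z))) (.b (.a (.b (.a (.b (.a (.b (.a (.b .z (.a (.b .z
(.l 31)) (.l 31))) (.b (.a (.b .z (.l 31)) (.l 31)) (.l 31))) (.b (.l 31) (.b (.l 31) (.b (.l 31) (.a (.b (.l 31) .z) .z))))) (.b (.l 31) (.b (.l 31)
(.b (.b (.l 31) (.a (.l 31) (.b (.l 31) .z))) .z)))) .z) (.b (.b (.l 31) (.b (.b (.l 31) (.a (.l 31) (.b (.l 31) (.a (.b (.l 31) .z) .z)))) (.b (.a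
(.b (.a (.l 31) .z) .z) .z) .z))) (.b .z (.b .z (.b .z (.a .z (.b .z (.b .z (.l 46))))))))) (.b (.a (.b (.b (.b (.a (.b .z (.a (.l 41) .z)) .z) (.a .z
(.a (.b .z (.l 46)) (.l 46)))) (.a (.b (.a (.b .z (.l 46)) (.l 46)) (.b (.l 46) (.b (.l 46) .z))) (.l 46))) (.b (.b (.b (.a .z (.b (.l 46) .z)) .z)
.z) .z)) (.b (.a (.b (.b (.b (.a .z (.l 46)) (.l 46)) (.l 46)) (.l 46)) (.b (.l 46) (.a (.l 46) (.b (.l 46) (.a (.l 46) .z))))) (.a (.b (.a (.b (.b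
(.l 46) .z) .z) (.b (.l 46) .z)) (.a .z (.b .z (.l 40)))) (.b (.a (.b (.a (.l 46) .z) .z) (.b .z (.l 47))) (.b (.b (.b .z (.l 40)) (.l 40)) (.l
40)))))) (.a .z (.b (.a (.b (.a .z (.b (.b (.l 40) .z) .z)) .z) (.b (.b (.b (.l 40) (.b (.l 40) .z)) .z) (.b (.l 210) .z))) (.b (.b .z (.a .z (.b .z
(.b (.l 57) .z)))) .z))))) (.b (.b (.b (.b (.l 31) (.a (.l 31) (.b (.a (.l 31) (.b (.l 31) (.a (.l 31) .z))) (.a (.b (.a (.l 31) (.b (.l 31) .z)) (.a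
(.b (.l 31) .z) .z)) .z)))) (.b (.a (.b (.a (.b (.l 31) (.a (.l 31) (.b (.l 31) .z))) (.b (.a (.l 31) .z) .z)) .z) .z) .z)) (.a .z (.b .z (.a .z (.b
(.a (.b .z (.a .z (.l 37))) (.b (.l 37) (.b (.l 37) .z))) .z))))) (.b (.a (.b (.a (.b (.a (.l 46) (.b (.b .z (.l 46)) .z)) .z) .z) (.b (.b .z (.l 47))
(.b (.b (.b .z (.l 40)) (.l 40)) (.l 40)))) (.b .z (.b (.b .z (.b (.l 47) (.b (.l 47) (.a (.l 47) .z)))) (.b (.b (.b .z (.l 40)) (.l 40)) (.l 40)))))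
(.b (.b (.b (.b (.l 40) (.b (.a (.a (.l 40) .z) .z) .z)) .z) (.a (.b (.a (.l 210) .z) .z) (.b .z (.a .z (.b .z (.b .z (.l 57))))))) (.b (.a (.b (.a
(.b .z (.a .z (.l 57))) (.b (.a .z (.l 57)) (.b (.l 57) .z))) (.b (.a (.b (.l 57) .z) .z) .z)) (.b (.b (.a (.l 57) .z) .z) .z)) .z))))) (.a (.b (.b
(.b (.b (.b (.b (.b (.a .z (.l 111)) .z) (.l 59)) (.l 59)) (.b (.b (.l 59) (.b (.l 59) .z)) (.a (.b (.a (.l 67) .z) .z) .z))) (.b (.a (.b .z (.a .z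
(.b (.l 79) .z))) (.b (.a (.b .z (.l 79)) .z) (.a .z (.b .z (.l 77))))) (.a .z (.b (.b (.l 77) .z) .z)))) (.b (.a (.b (.b (.b (.l 70) (.b (.l 70) .z))
.z) (.b (.b .z (.b .z (.l 97))) .z)) (.b (.b (.b (.l 70) (.b (.l 70) .z)) .z) .z)) .z)) .z) (.a (.b (.b (.b (.b (.b (.b .z (.l 59)) (.l 59)) (.b (.b
(.l 59) (.b (.l 59) .z)) .z)) (.b (.b .z (.b .z (.a (.l 77) .z))) .z)) (.b (.b (.a (.b (.b (.l 70) .z) .z) (.b (.b (.l 70) .z) .z)) .z) .z)) .z) (.b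
(.a (.b (.b (.b (.b (.b .z (.l 59)) (.l 59)) (.b (.b (.l 59) (.b (.l 59) .z)) (.b .z (.l 61)))) .z) .z) (.b (.b (.a (.b (.b (.b .z (.l 59)) (.l 59))
(.b (.b (.l 59) .z) (.b .z (.l 61)))) (.b (.a (.b .z (.l 59)) .z) .z)) .z) .z)) .z)))))

theorem vQ265 : ev Q265 I5_26 I4_15 = 394342337650433 := by decide +kernel

noncomputable def Q139 : QT :=
(.a (.b (.a (.b (.a (.b (.l 76) (.a (.b (.l 76) (.a (.l 76) (.b (.l 76) (.a (.l 76) .z)))) (.b (.a (.l 76) (.b (.l 76) (.a (.l 76) .z))) (.a (.b (.a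
(.l 76) .z) (.a .z (.b .z (.l 41)))) (.b (.a .z (.b .z (.l 41))) (.l 41)))))) (.b (.a (.b (.a (.l 76) (.a (.l 76) (.a (.l 76) .z))) (.a (.l 76) (.b
(.a (.l 76) .z) (.a .z (.b .z (.l 41)))))) (.b (.a .z (.b .z (.a .z (.l 41)))) (.a (.b (.a .z (.b .z (.l 41))) (.l 41)) (.l 41)))) (.a (.b (.a (.b .z
(.a (.b .z (.l 41)) (.l 41))) (.b (.a (.b .z (.l 41)) (.l 41)) (.l 41))) (.l 41)) (.l 41)))) (.a (.b (.a (.b (.a (.b (.l 76) .z) (.b .z (.a (.b .z (.l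
41)) (.l 41)))) (.a (.b (.a (.b .z (.l 41)) (.l 41)) (.l 41)) (.l 41))) (.l 41)) (.l 41)) (.l 41))) (.b (.a (.b (.a (.b (.a (.b (.a (.b .z (.l 41))
(.l 41)) (.l 41)) (.l 41)) (.l 41)) (.l 41)) (.l 41)) (.a (.l 41) (.b (.a (.b (.a (.l 41) (.b .z (.l 41))) (.l 41)) (.b .z (.a (.l 41) (.b .z (.l
41))))) (.l 41)))) (.l 41))) (.l 41)) (.a (.a (.b (.b (.a (.b (.a (.b (.l 74) (.a .z (.l 74))) (.l 74)) (.a (.b (.a (.b (.a (.l 41) .z) (.l 41)) (.b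
.z (.a (.l 41) .z))) (.l 41)) (.b (.a (.b (.l 74) .z) (.l 74)) (.a (.b .z (.l 41)) .z)))) (.a (.l 74) (.b (.a (.b .z (.l 74)) .z) (.a (.l 74) (.b (.a
(.l 74) .z) (.l 74)))))) (.a (.b (.a (.l 41) (.b (.a (.l 41) (.b (.a (.l 41) .z) (.l 41))) (.l 41))) (.l 41)) (.b (.a (.b (.a .z (.b (.l 74) .z)) (.a
(.l 41) (.b .z (.a (.l 41) .z)))) (.b (.l 74) (.a (.b (.l 74) .z) (.l 74)))) (.a (.l 41) (.a (.b (.b .z (.a (.l 41) .z)) (.l 41)) (.b (.a .z (.l 74))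
(.a (.b .z (.l 41)) .z))))))) (.l 41)) (.b (.a (.b (.a .z (.b (.b .z (.b (.l 200) .z)) (.b .z (.b .z (.l 143))))) (.a (.b (.a (.l 74) (.b .z (.a (.l
74) .z))) (.a (.b (.l 74) (.a .z (.l 74))) (.l 74))) (.a (.b .z (.a (.b .z (.l 74)) .z)) .z))) (.a (.a (.b (.b (.b .z (.l 200)) (.b .z (.l 143))) .z)
(.a (.b (.b (.l 200) .z) .z) (.a .z (.l 173)))) (.l 173))) (.a (.b (.a (.b (.a (.b (.a (.b .z (.l 41)) .z) (.l 41)) (.b (.a .z (.l 74)) .z)) (.a (.l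
41) (.b (.a (.l 41) (.b .z (.l 41))) (.l 41)))) (.b (.a (.a (.l 74) (.b .z (.l 74))) .z) (.a (.b .z (.a (.l 41) .z)) (.b (.a (.l 74) .z) (.a .z (.l
74)))))) (.a (.l 41) (.b (.a (.l 41) (.b (.a (.b .z (.l 41)) .z) (.a (.l 41) (.b .z (.l 41))))) (.l 41)))) (.b (.a (.a .z (.a .z (.a .z (.l 173))))
(.b (.l 173) (.a (.l 173) (.b (.l 173) .z)))) (.a (.b .z (.a (.b (.a (.l 41) .z) (.l 41)) .z)) (.b (.a (.b (.l 173) .z) .z) (.a .z (.b .z (.l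
91))))))))) (.a (.b (.a (.b (.l 173) (.a (.l 173) (.b (.a (.l 173) (.b (.l 173) .z)) (.a (.b (.l 173) .z) .z)))) (.b (.a (.b (.l 173) (.a (.l 173) (.b
(.l 173) .z))) (.b (.a (.l 173) (.b (.l 173) .z)) .z)) .z)) (.a (.b (.a (.b (.a (.l 173) .z) .z) (.b .z (.b .z (.a .z (.b .z (.l 91)))))) (.b (.a (.b
.z (.a .z (.l 91))) (.l 91)) (.l 91))) (.b (.b (.a (.b .z (.a .z (.b .z (.l 91)))) (.b (.a .z (.l 91)) (.l 91))) (.a (.b (.a (.b .z (.l 91)) (.l 91))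
(.l 91)) (.l 91))) (.l 91)))) (.b (.a (.b (.a .z (.b .z (.b .z (.a .z (.l 200))))) (.b (.a .z (.b .z (.a .z (.l 91)))) (.a (.b (.a .z (.b .z (.l 91)))
(.a (.b .z (.l 91)) (.l 91))) (.l 91)))) (.b (.b (.a (.b .z (.a .z (.l 200))) (.b (.a (.l 200) .z) .z)) (.a (.b (.a (.l 200) .z) .z) (.b (.a .z (.l
78)) (.l 78)))) (.b (.a (.b (.a (.b .z (.l 91)) (.b .z (.l 91))) (.l 91)) (.b (.a .z (.b (.l 78) .z)) (.a (.l 91) (.b .z (.l 91))))) (.l 91)))) (.l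
91)))))

theorem vQ139 : ev Q139 I4_6 I5_15 = 1615993882576640 := by decide +kernel

noncomputable def Q48 : QT :=
(.b (.b (.b (.a (.b (.b (.a (.b (.b (.b (.a .z (.a .z (.l 54))) (.a (.l 112) .z)) (.a (.l 112) .z)) (.b .z (.a (.l 116) .z))) (.b (.a (.b (.a (.b (.l
54) .z) (.l 54)) .z) (.l 54)) (.a (.b .z (.a .z (.l 58))) (.b (.a .z (.l 54)) (.a (.b .z (.l 58)) .z))))) (.a (.b (.b (.a .z (.b .z (.a .z (.l 58))))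
(.a (.l 120) .z)) (.b (.a (.b (.l 120) .z) .z) (.a (.b .z (.l 124)) .z))) (.b (.a (.b (.l 58) (.a (.b (.l 58) .z) (.l 58))) (.l 58)) (.a (.b .z (.a .z
(.b .z (.l 62)))) (.b (.a (.b (.l 58) .z) (.l 58)) (.a .z (.b (.l 58) .z))))))) (.b (.a (.b (.b (.a (.b (.l 124) .z) (.b .z (.a .z (.l 62)))) (.a (.b
.z (.l 128)) .z)) .z) (.b (.a (.b (.l 62) (.a (.b (.l 62) .z) (.l 62))) (.b (.a (.l 62) .z) (.l 62))) (.a .z (.b (.l 62) (.a .z (.l 62)))))) (.a (.b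
(.b .z (.a (.l 136) .z)) .z) (.b (.a (.b (.l 66) (.a .z (.l 66))) (.b .z (.a (.l 66) .z))) (.a (.b .z (.a (.l 70) .z)) (.b (.l 66) (.a .z (.l
66)))))))) (.b (.a (.b (.a (.b (.a (.l 54) (.b .z (.l 54))) (.a (.b (.l 54) (.a .z (.l 54))) (.l 54))) (.b (.a (.b (.a .z (.l 50)) .z) (.l 50)) (.a
(.b (.a (.l 54) .z) (.l 54)) (.b .z (.a (.l 54) .z))))) (.a (.b (.a (.b .z (.a (.l 58) .z)) (.b (.l 54) .z)) (.a (.l 58) (.b (.a (.l 58) .z) (.l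
58)))) (.b (.l 54) (.a (.b .z (.a (.l 58) .z)) (.b (.l 54) (.a .z (.l 54))))))) (.b (.a (.b (.a (.l 50) (.b (.a (.l 50) .z) (.l 50))) (.a (.b (.l 50)
(.a .z (.l 50))) (.l 50))) (.b (.a (.b (.a .z (.l 46)) .z) (.l 46)) (.a (.b (.a (.l 50) .z) (.l 50)) (.b (.a .z (.l 46)) .z)))) (.a (.b (.a (.b .z (.a
(.l 54) .z)) (.b (.l 50) .z)) (.a (.l 54) (.b (.a (.l 54) .z) (.l 54)))) (.b (.a (.l 50) (.b (.a (.l 50) .z) (.l 50))) (.a (.b (.a .z (.l 50)) .z) (.l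
50)))))) (.a (.b (.a (.b (.a (.b (.a .z (.l 58)) .z) (.b (.l 58) (.a .z (.l 58)))) (.a (.l 62) (.b .z (.a (.l 62) .z)))) (.b (.a (.l 58) (.b .z (.a
(.l 58) .z))) (.a (.b (.l 58) .z) (.l 58)))) (.a (.b (.a (.b (.l 62) .z) (.l 62)) (.a (.b .z (.l 66)) .z)) (.b (.a (.b (.a (.l 62) .z) (.l 62)) (.b
(.a .z (.l 58)) .z)) (.a (.b (.l 62) (.a .z (.l 62))) (.b (.a (.l 62) .z) (.l 62)))))) (.b (.a (.b (.a (.b (.l 54) .z) (.l 54)) (.a (.b (.a (.l 58)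
.z) (.l 58)) (.b (.a .z (.l 54)) .z))) (.a (.b (.b (.a (.l 54) .z) (.l 54)) (.l 54)) (.b (.a .z (.b (.l 50) .z)) (.a (.l 54) (.b .z (.l 54)))))) (.a
(.b (.a (.l 58) (.b (.a (.l 58) .z) (.l 58))) (.a (.b (.a .z (.l 58)) .z) (.b (.l 58) (.a .z (.l 58))))) (.a (.b (.a .z (.b (.l 54) .z)) (.a (.l 58)
(.b .z (.l 58)))) (.b (.l 54) (.a .z (.b (.l 54) .z))))))))) (.a (.b (.b (.a (.b .z (.b .z (.a .z (.b (.l 74) .z)))) (.b (.a (.b (.l 70) .z) (.b .z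
(.a (.l 70) .z))) (.a (.b .z (.l 74)) (.a .z (.b (.l 70) .z))))) (.a .z (.b (.a (.b (.a .z (.l 74)) .z) (.a (.b (.l 74) .z) (.b .z (.l 74)))) (.a (.b
(.l 78) (.a .z (.l 78))) (.a (.b .z (.l 78)) .z))))) (.b (.a (.b .z (.b .z (.a .z (.b (.l 86) .z)))) (.b (.a (.b .z (.l 82)) (.a .z (.b (.l 78) .z)))
(.a (.b .z (.a (.l 86) .z)) (.a (.b (.l 82) .z) .z)))) (.a (.b .z (.b .z (.a .z (.b .z (.l 94))))) (.b (.a (.b (.a .z (.l 86)) .z) (.a (.b .z (.l 86))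
.z)) (.a .z (.a .z (.b (.l 86) .z))))))) (.b (.a (.b (.a (.b (.a (.b (.l 66) .z) (.l 66)) (.a (.b .z (.l 70)) .z)) (.b (.a .z (.b (.l 62) .z)) (.a (.b
(.l 66) .z) (.b .z (.l 66))))) (.a (.b (.a .z (.b (.l 70) .z)) (.a (.b (.l 74) .z) .z)) (.b (.a .z (.b (.l 66) .z)) (.a (.b (.l 70) .z) (.b .z (.l
70)))))) (.a (.b (.b (.a (.l 62) (.b .z (.a (.l 62) .z))) (.a (.b (.a .z (.l 62)) .z) (.l 62))) (.b (.a (.b .z (.l 66)) (.a .z (.b (.l 62) .z))) (.a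
.z (.a (.l 66) .z)))) (.b (.a (.b (.a (.b (.l 58) .z) (.l 58)) (.a (.b .z (.l 62)) .z)) (.b (.a (.l 58) (.b .z (.l 58))) (.l 58))) (.a (.b (.a (.l 62)
(.b .z (.l 62))) (.a .z (.b (.l 62) .z))) (.b (.a .z (.b (.l 58) .z)) (.a (.l 62) (.b .z (.l 62)))))))) (.a (.b (.a (.b (.a .z (.b (.l 74) .z)) (.a
(.b (.l 78) .z) (.b .z (.l 78)))) (.b (.a (.b .z (.l 74)) .z) (.a .z (.b .z (.l 74))))) (.a (.b .z (.a .z (.b (.l 82) .z))) .z)) (.a (.b (.a (.b (.b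
.z (.l 70)) .z) (.b .z (.a (.l 70) .z))) (.a (.b (.a (.l 74) .z) .z) (.b .z (.a (.l 74) .z)))) (.b (.a (.b (.a (.l 66) .z) (.a .z (.l 66))) (.b (.a .z
(.l 62)) .z)) (.a (.b .z (.a .z (.l 70))) (.b (.a .z (.l 66)) .z)))))))) (.b (.a (.b (.b (.a .z (.a (.b (.b (.a (.l 94) .z) .z) (.b (.a (.l 98) .z)
.z)) .z)) (.a (.b .z (.b .z (.a .z (.a .z (.l 110))))) (.a (.b (.b (.a (.l 102) .z) .z) .z) .z))) .z) (.a .z (.b (.a .z (.b (.a .z (.b (.a .z (.l 70))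
.z)) (.a (.b (.a (.l 78) .z) .z) .z))) (.a .z (.b (.a .z (.b (.a .z (.l 78)) .z)) .z))))) .z)) .z)

theorem vQ48 : ev Q48 I5_0 I4_15 = 199317152371867 := by decide +kernel

noncomputable def Q133 : QT :=
(.b (.b (.b (.b (.b (.b (.b (.a (.b (.a (.l 33) .z) (.a .z (.a .z (.l 33)))) (.b (.a (.a .z (.l 33)) (.l 33)) (.l 33))) (.a (.b (.a (.a .z (.l 33))
(.l 33)) (.l 33)) (.l 33))) (.l 33)) (.b (.b (.l 33) (.a (.l 33) (.b (.l 33) (.a (.l 33) (.a (.l 33) .z))))) (.b (.a (.b (.l 33) (.a (.l 33) .z)) (.b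
(.a (.a (.l 33) .z) .z) (.a .z (.l 37)))) (.a (.b (.a .z (.a .z (.l 37))) (.a (.a .z (.l 37)) (.l 37))) (.l 37))))) (.b (.b (.a (.b (.l 37) (.a (.b
(.a .z (.l 37)) .z) (.l 37))) (.l 37)) (.a (.b (.a .z (.b (.a .z (.l 37)) .z)) (.a (.a .z (.b .z (.l 39))) (.b (.a (.l 39) .z) (.l 39)))) (.b (.l 37)
(.a (.b .z (.a (.l 39) .z)) (.b (.l 37) (.a .z (.l 37))))))) (.a (.b (.b (.b (.a (.l 39) (.a (.l 39) .z)) (.a (.a (.l 39) .z) .z)) (.b (.a .z (.l 39))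
(.l 39))) (.l 39)) (.b (.a (.b (.b .z (.l 39)) (.l 39)) (.b (.a (.b .z (.l 39)) .z) (.a (.l 39) (.b .z (.l 39))))) (.l 39))))) (.b (.b (.b (.b (.a (.l
39) (.b (.a (.l 39) (.a (.l 39) .z)) (.a (.a (.l 39) .z) .z))) (.a (.b (.a (.l 39) (.a (.l 39) .z)) .z) (.b (.a .z (.l 43)) (.l 43)))) (.a (.b (.b (.a
(.a .z (.l 43)) (.l 43)) (.l 43)) (.a (.b (.l 43) (.a .z (.l 43))) (.l 43))) (.l 43))) (.b (.a (.b (.a .z (.b (.l 43) (.a .z (.l 43)))) (.a (.l 45)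
.z)) (.b (.l 43) (.a (.b (.l 43) .z) (.l 43)))) (.a (.b (.b (.a .z (.a .z (.l 45))) (.l 45)) (.l 45)) (.b (.a (.b (.a (.l 45) .z) (.l 45)) (.b (.a .z
(.l 43)) .z)) (.a (.l 45) (.b (.a (.l 45) .z) (.l 45))))))) (.b (.b (.b (.a (.l 45) (.b (.l 45) (.a (.l 45) .z))) (.a (.b (.l 45) (.a (.a (.l 45) .z)
.z)) (.b (.a .z (.a .z (.l 49))) (.a (.a .z (.l 49)) (.l 49))))) (.b (.a (.b (.a .z (.l 49)) (.l 49)) (.l 49)) (.l 49))) (.b (.a (.b (.a (.b .z (.a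
(.l 51) .z)) (.b (.l 49) (.a .z (.l 49)))) (.a (.b (.a (.l 51) .z) .z) (.b .z (.a (.l 51) .z)))) (.b (.l 49) (.a (.b (.l 49) (.a .z (.l 49))) (.l
49)))) (.a (.l 51) (.b (.a (.b .z (.l 51)) (.b (.a .z (.l 49)) .z)) (.a (.b (.l 51) (.a (.l 51) .z)) (.b (.a (.l 51) .z) .z)))))))) (.a (.b (.b (.b
(.b (.b (.b (.a (.l 51) .z) (.a .z (.a .z (.l 55)))) (.l 55)) (.b (.a (.b (.l 55) (.a .z (.l 55))) (.l 55)) (.a .z (.b (.a .z (.l 55)) .z)))) (.b (.b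
(.a (.l 57) (.b (.a (.l 57) .z) (.l 57))) (.b (.l 57) (.a (.l 57) .z))) (.b (.b (.a .z (.a .z (.l 61))) (.l 61)) (.l 61)))) (.b (.b (.b (.a .z (.b (.l
61) (.a .z (.l 61)))) (.a (.l 63) (.b .z (.a (.l 63) .z)))) (.b (.b (.a (.l 63) .z) .z) (.l 67))) (.b (.b (.a (.b (.l 67) .z) (.l 67)) (.a (.b .z (.l
69)) .z)) (.b (.a (.b (.l 69) .z) .z) (.l 73))))) (.a (.b (.b (.b (.b (.b (.l 73) .z) (.b .z (.l 75))) (.b (.b .z (.l 79)) (.l 79))) (.b (.b .z (.b .z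
(.l 85))) (.b (.l 85) .z))) (.a (.b (.b .z (.b .z (.l 97))) .z) .z)) (.b (.a (.b (.b (.b (.l 73) .z) (.b .z (.l 79))) .z) (.b .z (.a (.b (.a .z (.l
58)) .z) (.b (.l 58) .z)))) (.a (.b (.a .z (.b (.l 64) .z)) (.b (.b (.l 70) .z) (.b .z (.l 76)))) (.b (.b (.l 64) (.b (.b (.l 64) .z) .z)) (.b (.a (.l
70) .z) .z)))))) (.b (.a (.b (.b (.b (.b (.b .z (.l 55)) (.l 55)) (.l 55)) (.b (.b (.b (.a .z (.l 55)) .z) (.b (.a (.l 57) .z) .z)) (.l 61))) (.a (.b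
(.b (.b (.l 61) (.b (.l 61) .z)) (.b .z (.l 67))) (.a (.b (.l 67) .z) (.b .z (.a .z (.l 52))))) (.b (.a (.b (.b (.l 61) .z) .z) (.b .z (.a .z (.l
46)))) (.a (.b .z (.l 52)) (.b .z (.l 52)))))) (.b (.b (.a (.l 55) (.b (.a (.l 55) .z) (.a .z (.b .z (.l 40))))) (.a (.a .z (.b .z (.a .z (.l 46))))
(.a (.b .z (.b .z (.l 46))) (.b (.b (.l 40) .z) (.b .z (.l 46)))))) (.a (.b (.a (.b (.a .z (.l 46)) (.l 46)) (.l 46)) (.b (.b (.b (.l 46) .z) .z) (.b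
(.a (.l 52) .z) (.l 52)))) (.b (.l 46) (.b (.b (.b (.l 46) .z) (.b .z (.l 49))) (.a (.b .z (.l 52)) .z)))))) (.a (.b (.a (.b (.a (.b (.a .z (.l 52))
(.b .z (.l 58))) (.b (.l 52) .z)) (.b (.l 58) (.b (.b (.l 58) .z) .z))) (.b (.b (.l 52) .z) (.b (.l 58) (.a (.b (.l 58) .z) .z)))) (.b (.a (.b (.a (.l
64) .z) .z) (.b (.a .z (.b .z (.l 59))) (.b (.b (.l 59) .z) (.b .z (.l 59))))) (.a (.b (.a .z (.b .z (.l 65))) (.b (.l 65) (.b .z (.l 65)))) (.b (.b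
.z (.l 65)) (.b (.l 65) .z))))) (.b (.b (.a (.b (.l 52) .z) (.b (.a (.b (.l 52) .z) .z) (.a (.b .z (.l 53)) (.l 53)))) (.a (.b .z (.a .z (.b (.l 53)
.z))) (.b (.b (.l 53) (.b (.l 53) .z)) (.b (.l 53) .z)))) (.b (.b (.b (.b (.a (.l 59) .z) (.l 59)) (.l 59)) (.b (.b (.l 59) .z) (.b (.l 59) .z))) (.b
(.b (.b (.a .z (.l 63)) (.a .z (.l 63))) (.b .z (.l 65))) (.b (.b (.l 65) .z) (.b (.a .z (.l 65)) .z))))))))) (.a (.b (.b (.a (.b (.a .z (.b (.b .z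
(.b (.l 82) .z)) .z)) .z) .z) .z) .z) (.b (.b (.b (.b (.b (.b (.a .z (.b (.l 69) .z)) (.a (.l 71) .z)) (.b .z (.b .z (.l 75)))) (.b (.b (.a .z (.b (.l
75) .z)) .z) (.b (.b .z (.l 81)) (.b (.a .z (.l 81)) .z)))) (.a (.b (.b (.b .z (.b (.l 87) .z)) (.b .z (.b (.l 93) .z))) (.a .z (.b (.b .z (.l 99))
.z))) (.b (.a (.b (.b .z (.l 87)) (.b .z (.l 93))) .z) .z))) (.b (.a .z (.b .z (.b (.b (.b .z (.l 113)) .z) .z))) .z)) .z)))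

theorem vQ133 : ev Q133 I6_22 I4_15 = 328540879639575 := by decide +kernel

noncomputable def Q72 : QT :=
(.b (.a (.a (.b (.l 14) (.a (.b (.a (.b (.a (.b (.l 14) (.a (.b (.a (.b (.l 14) .z) (.l 14)) .z) (.b (.l 14) (.a (.b (.l 14) (.a .z (.l 14))) (.l
14))))) (.l 14)) (.a (.b (.a (.l 75) (.b (.a .z (.b (.a .z (.l 14)) .z)) (.l 75))) (.l 75)) (.b (.a (.b (.a (.b (.l 14) (.a .z (.l 14))) (.l 14)) (.a
.z (.b (.l 14) .z))) (.l 14)) (.a (.b .z (.l 75)) (.b (.a (.b (.a .z (.l 14)) .z) (.b (.l 14) (.a .z (.l 14)))) .z))))) (.b (.l 14) (.a (.b (.l 14)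
(.a (.b (.l 14) (.a (.b (.l 14) .z) (.l 14))) (.l 14))) (.l 14)))) (.a (.b (.b (.l 75) (.b (.l 75) (.b (.l 75) (.a (.l 75) .z)))) (.b (.b (.b .z (.l
116)) (.l 116)) (.l 116))) (.b (.a (.b (.a (.b (.a .z (.b (.a .z (.l 14)) .z)) (.l 75)) (.b (.a (.b (.l 14) (.a .z (.l 14))) (.l 14)) (.a .z (.b (.l
14) .z)))) (.a (.b (.l 75) .z) .z)) (.b (.l 14) (.a (.b (.a (.b (.a .z (.l 14)) .z) (.l 14)) .z) (.b (.l 14) (.a (.b (.l 14) (.a .z (.l 14))) (.l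
14)))))) (.a (.a (.b (.l 116) .z) (.b .z (.a (.b .z (.l 46)) (.l 46)))) (.b (.a (.a (.b .z (.l 46)) (.l 46)) (.b (.a .z (.b (.a .z (.l 14)) .z)) (.a
(.l 46) .z))) (.l 46)))))) (.b (.l 14) (.a (.b (.l 14) (.a (.b (.a (.b (.l 14) (.a (.b (.a .z (.l 14)) .z) (.b (.l 14) (.a .z (.l 14))))) (.l 14)) (.a
(.b (.a (.l 46) .z) (.l 46)) (.b (.a (.b (.l 14) (.a .z (.l 14))) (.l 14)) (.a .z (.b (.a .z (.l 14)) .z))))) (.l 14))) (.l 14))))) (.l 14)) (.b (.l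
14) (.a (.l 14) (.b (.l 14) (.a (.l 14) (.b (.l 14) (.a (.l 14) (.b (.l 14) (.a (.l 14) (.b (.l 14) (.a (.b (.l 14) (.a (.l 14) (.b (.l 14) .z))) (.b
(.a (.b (.l 14) .z) .z) (.a .z (.l 10)))))))))))))) (.a (.b (.a (.a (.a (.b (.a (.b (.l 116) (.a (.l 116) (.b (.a (.l 116) .z) .z))) (.b (.a (.b (.l
116) (.a (.l 116) .z)) (.b (.a (.l 116) .z) (.a .z (.b .z (.l 46))))) (.a (.b (.a .z (.b .z (.l 46))) (.l 46)) (.l 46)))) (.a (.b (.a (.b .z (.a (.b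
.z (.l 46)) (.l 46))) (.b (.a (.b .z (.l 46)) (.l 46)) (.l 46))) (.l 46)) (.l 46))) (.b (.a (.b (.a (.b (.a (.b .z (.l 46)) (.l 46)) (.l 46)) (.l 46))
(.l 46)) (.l 46)) (.l 46))) (.b (.a (.b (.a (.b (.a (.l 46) (.b (.a (.l 46) .z) (.l 46))) (.l 46)) (.b (.a (.b (.a (.b (.a .z (.l 14)) .z) (.b (.l 14)
(.a .z (.l 14)))) (.a (.l 46) .z)) (.b (.l 14) (.a (.b (.l 14) (.a .z (.l 14))) (.l 14)))) (.a (.l 46) (.b (.a .z (.b (.l 14) .z)) (.a (.l 46) .z)))))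
(.l 46)) (.b (.a (.b (.l 14) (.a (.b (.l 14) (.a (.b (.a .z (.l 14)) .z) (.l 14))) (.l 14))) (.l 14)) (.a (.b (.a (.b (.a .z (.b (.a .z (.l 14)) .z))
(.a (.l 46) .z)) (.b (.l 14) (.a .z (.b (.l 14) (.a .z (.l 14)))))) (.a (.l 46) (.b (.a (.l 46) .z) (.l 46)))) (.b (.l 14) (.a (.b (.a (.b (.l 14) (.a
.z (.l 14))) (.l 14)) (.a .z (.b (.l 14) (.a .z (.l 14))))) (.l 14)))))) (.a (.l 46) (.b (.a (.l 46) (.b (.a (.b (.a (.l 46) .z) (.l 46)) (.b (.a (.b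
(.l 14) .z) (.l 14)) (.a .z (.b (.a .z (.l 14)) .z)))) (.a (.l 46) (.b (.a (.l 46) .z) (.l 46))))) (.l 46))))) (.a (.b (.l 14) (.a (.b (.a (.b (.l 14)
(.a (.b (.a (.b (.a .z (.l 14)) .z) (.l 14)) (.a .z (.b (.a .z (.l 14)) .z))) (.l 14))) (.l 14)) (.a (.b (.a (.b (.a (.l 46) .z) (.l 46)) (.b (.a (.b
(.a .z (.l 14)) .z) (.l 14)) (.a .z (.b (.a .z (.l 14)) .z)))) (.a (.l 46) (.b (.a (.l 46) .z) (.l 46)))) (.b (.l 14) (.a (.b (.a (.b (.a .z (.l 14))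
.z) (.l 14)) (.a .z (.b (.a .z (.l 14)) .z))) (.l 14))))) (.l 14))) (.l 14))) (.a (.b (.l 46) (.a (.l 46) (.b (.l 46) (.a (.l 46) (.b (.l 46) (.a (.l
46) (.b (.l 46) (.a (.l 46) (.b .z (.a .z (.b .z (.l 10)))))))))))) (.b (.a (.a (.a (.l 46) (.b (.a (.b (.a (.l 46) (.b .z (.l 46))) (.l 46)) (.b (.a
(.b (.a .z (.b (.l 14) .z)) .z) (.b (.l 14) (.a .z (.b (.l 14) .z)))) (.a (.l 46) (.b .z (.l 46))))) (.l 46))) (.a (.b (.a (.b (.l 14) (.a (.b (.a .z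
(.b (.l 14) .z)) .z) (.b (.l 14) (.a .z (.b (.l 14) .z))))) (.l 14)) (.a (.b (.a (.l 46) (.b .z (.l 46))) (.l 46)) (.b (.a (.b (.a .z (.b (.l 14) .z))
.z) (.b (.l 14) (.a .z (.b (.l 14) .z)))) (.a (.l 46) (.b .z (.l 46)))))) (.b (.l 14) (.a (.b (.l 14) (.a (.b (.a .z (.b (.l 14) .z)) .z) (.b (.l 14)
(.a (.b (.l 14) .z) (.l 14))))) (.l 14))))) (.b (.l 14) (.a (.b (.l 14) (.a (.l 14) (.b (.l 14) (.a (.l 14) (.b (.l 14) (.a (.l 14) (.b (.l 14)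
.z))))))) (.b (.a (.l 14) (.b (.l 14) (.a (.l 14) (.b (.a (.l 14) (.b (.l 14) .z)) (.a .z (.b .z (.l 10))))))) (.a (.b (.a (.l 14) (.b (.l 14) (.a (.b
(.l 14) .z) .z))) (.a (.b (.a (.l 14) (.b (.l 14) .z)) (.a .z (.b .z (.l 10)))) (.b (.a .z (.l 10)) (.l 10)))) (.b (.a (.b (.a (.b (.l 14) .z) .z) (.a
(.b .z (.l 10)) (.l 10))) (.b (.a (.b .z (.l 10)) (.l 10)) (.l 10))) (.l 10))))))) (.a (.b (.a (.l 46) (.b (.a (.l 46) (.a (.a (.l 46) (.b .z (.l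
46))) (.a (.b (.a (.b (.l 14) .z) (.l 14)) .z) (.b (.l 14) (.a (.b (.l 14) .z) (.l 14)))))) (.a (.b (.l 46) (.a (.l 46) (.b (.l 46) .z))) (.b (.a (.l
46) .z) (.a (.b .z (.a (.b .z (.l 10)) (.l 10))) (.b (.a (.b .z (.l 10)) (.l 10)) (.l 10))))))) (.a (.b (.a (.l 46) (.b (.a (.l 46) (.b (.l 46) .z))
(.a (.b (.l 46) .z) (.b .z (.a (.b .z (.l 10)) (.l 10)))))) (.a (.b (.a (.b (.l 46) .z) (.b .z (.a .z (.b .z (.l 10))))) (.a (.b (.a .z (.b .z (.l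
10))) (.l 10)) (.l 10))) (.b (.a (.b (.a (.b .z (.l 10)) (.l 10)) (.l 10)) (.l 10)) (.l 10)))) (.b (.a (.b (.a (.b .z (.a .z (.b .z (.l 10)))) (.b (.a
.z (.b .z (.l 10))) (.l 10))) (.l 10)) (.l 10)) (.l 10)))) (.b (.a (.b (.a (.b (.l 14) (.a (.b (.l 14) (.a (.l 14) (.b (.l 14) .z))) (.b (.a (.l 14)
.z) (.a .z (.b .z (.l 10)))))) (.b (.a (.b (.l 14) (.a (.b (.l 14) .z) .z)) (.b (.a (.b (.l 14) .z) .z) (.a (.b .z (.l 10)) (.l 10)))) (.a (.b (.a (.b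
.z (.l 10)) (.l 10)) (.l 10)) (.l 10)))) (.a (.b (.a (.b (.a .z (.b .z (.l 10))) (.l 10)) (.l 10)) (.l 10)) (.l 10))) (.l 10)) (.l 10)))))) (.b (.a
(.b (.l 14) (.a (.l 14) (.b (.a (.l 14) (.b (.l 14) (.a (.b (.l 14) (.a (.l 14) (.b (.l 14) (.a (.l 14) (.b (.l 14) .z))))) (.b (.a (.l 14) (.b (.l
14) (.a (.b (.l 14) .z) .z))) (.a (.b (.a (.l 14) (.b (.l 14) .z)) (.a .z (.b .z (.l 10)))) (.b (.a .z (.l 10)) (.l 10))))))) (.a (.b (.a (.l 14) (.b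
(.l 14) (.a (.l 14) (.b (.a (.l 14) (.b (.l 14) .z)) (.a .z (.b .z (.l 10))))))) (.a (.b (.a (.l 14) (.b (.l 14) (.a (.l 14) .z))) (.a (.b (.a (.l 14)
(.b (.l 14) .z)) (.a .z (.b .z (.l 10)))) (.b (.a .z (.b .z (.l 10))) (.l 10)))) (.b (.a (.b (.a (.b (.l 14) .z) .z) (.a (.b .z (.l 10)) (.l 10))) (.b
(.a (.b .z (.l 10)) (.l 10)) (.l 10))) (.l 10)))) (.b (.a (.b (.a (.b (.l 14) (.a (.l 14) .z)) (.b (.a (.b (.l 14) .z) .z) (.a (.b .z (.l 10)) (.l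
10)))) (.a (.b (.a .z (.b .z (.l 10))) (.l 10)) (.l 10))) (.l 10)) (.l 10)))))) (.b (.a (.b (.l 14) (.a (.b (.l 14) (.a (.l 14) (.b (.l 14) (.a (.l
14) (.b (.l 14) (.a (.l 14) (.b (.l 14) .z))))))) (.b (.a (.l 14) (.b (.a (.l 14) (.b (.l 14) (.a (.l 14) (.b (.l 14) .z)))) (.a (.b (.l 14) (.a (.l
14) .z)) (.b (.a (.b (.l 14) .z) .z) (.a (.b .z (.l 10)) (.l 10)))))) (.a (.b (.a (.l 14) (.b (.a (.l 14) (.b (.l 14) .z)) (.a .z (.b .z (.l 10)))))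
(.a (.b (.a (.b (.l 14) .z) .z) (.a .z (.l 10))) (.b (.a (.b .z (.l 10)) (.l 10)) (.l 10)))) (.b (.a (.b (.a .z (.b .z (.l 10))) (.l 10)) (.l 10)) (.l
10)))))) (.b (.a (.b (.l 14) (.a (.b (.l 14) (.a (.l 14) (.b (.a (.l 14) (.b (.l 14) .z)) (.a (.b (.l 14) .z) .z)))) (.b (.a (.b (.l 14) (.a (.l 14)
(.b (.l 14) .z))) (.b (.a (.b (.l 14) .z) .z) (.a .z (.l 10)))) (.a (.b (.a .z (.b .z (.l 10))) (.l 10)) (.l 10))))) (.b (.a (.b (.a (.l 14) (.b (.l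
14) (.a (.b (.l 14) .z) .z))) (.a (.b (.a (.l 14) (.b (.l 14) .z)) (.a .z (.b .z (.l 10)))) (.b (.a .z (.l 10)) (.l 10)))) (.b (.a (.b (.a .z (.b .z
(.l 10))) (.a (.b .z (.l 10)) (.l 10))) (.l 10)) (.l 10))) (.a (.b (.a (.b (.a (.b .z (.l 10)) (.l 10)) (.l 10)) (.l 10)) (.l 10)) (.l 10)))) (.a (.b
(.a (.b (.a (.b (.a (.l 14) .z) (.a .z (.b .z (.l 10)))) (.b (.a (.b .z (.l 10)) (.l 10)) (.l 10))) (.l 10)) (.l 10)) (.l 10)) (.l 10)))) (.a (.b (.a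
(.b (.a (.b (.l 14) (.a (.b (.l 14) (.a (.l 14) (.b (.l 14) .z))) (.b (.a (.l 14) .z) (.a .z (.b .z (.l 10)))))) (.b (.a (.b (.a (.l 14) (.b (.l 14)
.z)) (.a (.b (.l 14) .z) .z)) (.b (.a .z (.b .z (.l 10))) (.l 10))) (.a (.b (.a (.b .z (.l 10)) (.l 10)) (.l 10)) (.l 10)))) (.a (.b (.a (.b (.a .z
(.b .z (.l 10))) (.a (.b .z (.l 10)) (.l 10))) (.l 10)) (.l 10)) (.l 10))) (.l 10)) (.l 10)) (.l 10)))) (.a (.b (.a (.b (.a (.b (.l 14) (.a (.l 14)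
(.b (.a (.l 14) (.b (.l 14) (.a (.l 14) .z))) (.a (.b (.a (.l 14) (.b (.l 14) .z)) (.a .z (.b .z (.l 10)))) (.b (.a .z (.b .z (.l 10))) (.l 10))))))
(.b (.a (.b (.l 14) (.a (.l 14) (.b (.a (.l 14) (.b (.l 14) .z)) (.a .z (.b .z (.l 10)))))) (.b (.a (.b (.l 14) (.a (.l 14) .z)) (.b (.a (.b (.l 14)
.z) .z) (.a (.b .z (.l 10)) (.l 10)))) (.a (.b (.a .z (.b .z (.l 10))) (.l 10)) (.l 10)))) (.a (.b (.a (.b (.a (.b (.l 14) .z) .z) (.a (.b .z (.l 10))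
(.l 10))) (.b (.a (.b .z (.l 10)) (.l 10)) (.l 10))) (.l 10)) (.l 10)))) (.a (.b (.a (.b (.a (.b (.l 14) (.a (.l 14) .z)) (.b (.a (.b (.l 14) .z) .z)
(.a (.b .z (.l 10)) (.l 10)))) (.a (.b (.a .z (.b .z (.l 10))) (.l 10)) (.l 10))) (.b (.a (.b (.a (.b .z (.l 10)) (.l 10)) (.l 10)) (.l 10)) (.l 10)))
(.l 10)) (.l 10))) (.b (.a (.b (.a (.b (.a (.b (.a (.b .z (.l 10)) (.l 10)) (.l 10)) (.l 10)) (.l 10)) (.l 10)) (.l 10)) (.l 10)) (.l 10))) (.l 10))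
(.l 10)))))

theorem vQ72 : ev Q72 I4_3 I4_6 = 3822429541216111 := by decide +kernel

noncomputable def Q112 : QT :=
(.b (.a (.b (.a (.a (.l 81) (.b (.a (.l 81) (.b (.l 81) (.a (.b (.l 81) .z) .z))) (.a (.b (.a (.l 81) (.b (.l 81) .z)) (.a .z (.b .z (.l 91)))) (.b
(.a .z (.l 91)) (.l 91))))) (.a (.b (.a (.b (.a .z (.b .z (.l 91))) (.a (.b .z (.l 91)) (.l 91))) (.l 91)) (.l 91)) (.l 91))) (.a (.b (.a (.a (.b (.l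
81) (.a (.l 81) (.b (.l 81) .z))) (.b (.a (.b (.l 81) .z) .z) (.a .z (.l 91)))) (.a (.b (.a (.b .z (.l 91)) (.l 91)) (.l 91)) (.l 91))) (.a (.a (.b
(.a .z (.b .z (.l 91))) (.a (.b .z (.l 91)) (.l 91))) (.l 91)) (.b (.l 91) (.a (.l 91) (.b (.l 91) (.a (.l 91) .z)))))) (.b (.a (.b (.l 91) (.a (.l
91) (.b (.l 91) (.a (.l 91) .z)))) (.b (.a (.l 91) (.b (.a (.l 91) .z) .z)) (.a (.b (.a (.l 91) .z) .z) (.b (.a .z (.l 76)) (.l 76))))) (.a (.b (.a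
(.b (.l 91) (.a (.l 91) .z)) (.b .z (.a .z (.l 76)))) (.a (.b .z (.a .z (.l 76))) (.l 76))) (.l 76))))) (.b (.a (.b (.a (.l 91) (.b (.a (.l 91) (.b
(.l 91) .z)) (.a (.b (.a (.l 91) .z) .z) (.b (.a .z (.l 76)) (.l 76))))) (.a (.b (.a (.l 91) (.b (.a (.l 91) .z) .z)) (.a (.b (.a (.l 91) .z) .z) (.b
(.a .z (.l 76)) (.l 76)))) (.b (.a (.b (.a .z (.l 76)) (.l 76)) (.l 76)) (.l 76)))) (.b (.a (.b (.a (.b .z (.a .z (.l 76))) (.l 76)) (.l 76)) (.l 76))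
(.l 76))) (.a (.b (.a (.b (.a (.b (.a .z (.l 76)) (.l 76)) (.l 76)) (.l 76)) (.l 76)) (.a (.l 76) (.b (.l 76) (.a (.l 76) (.b (.a (.l 76) .z) (.a .z
(.b .z (.l 41)))))))) (.b (.a (.l 76) (.b (.l 76) (.a (.b (.l 76) (.a (.l 76) .z)) (.b .z (.a .z (.l 41)))))) (.a (.b (.a (.b (.l 76) (.a (.l 76) .z))
(.b (.a (.l 76) .z) (.a .z (.b .z (.l 41))))) (.a (.b (.a .z (.b .z (.l 41))) (.l 41)) (.l 41))) (.b (.a (.b (.a .z (.b .z (.l 41))) (.l 41)) (.l 41))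
(.l 41))))))) (.a (.b (.a (.b (.a (.b (.l 91) (.a (.l 91) (.b (.l 91) (.a (.l 91) .z)))) (.b (.a (.b (.l 91) (.a (.l 91) .z)) (.b .z (.a .z (.l 76))))
(.a (.b .z (.a .z (.l 76))) (.l 76)))) (.a (.b (.a (.b (.a (.l 91) .z) .z) (.b .z (.l 76))) (.a (.b (.a .z (.l 76)) (.l 76)) (.l 76))) (.b (.l 76) (.b
(.l 76) (.a (.l 76) .z))))) (.b (.a (.l 76) (.b (.l 76) (.a (.l 76) (.b (.l 76) .z)))) (.a (.b (.a (.l 76) (.b (.l 76) .z)) (.a (.b .z (.b (.a .z (.l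
41)) (.l 41))) (.b (.a (.b .z (.l 41)) (.l 41)) (.l 41)))) (.b (.a (.b .z (.a (.b .z (.l 41)) (.l 41))) (.b (.a (.b .z (.l 41)) (.l 41)) (.l 41))) (.l
41))))) (.b (.a (.b (.a (.b (.l 76) (.a (.l 76) .z)) (.b (.a .z (.b (.a .z (.l 41)) (.l 41))) (.a (.b (.a .z (.l 41)) (.l 41)) (.l 41)))) (.a (.b (.a
.z (.b (.a .z (.l 41)) (.l 41))) (.a (.b (.a .z (.l 41)) (.l 41)) (.l 41))) (.l 41))) (.l 41)) (.l 41))) (.b (.a (.b (.a (.b (.a (.l 76) (.b (.l 76)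
.z)) (.a (.b .z (.a (.b .z (.l 41)) (.l 41))) (.b (.a (.b .z (.l 41)) (.l 41)) (.l 41)))) (.b (.a (.b .z (.a (.b .z (.l 41)) (.l 41))) (.b (.a (.b .z
(.l 41)) (.l 41)) (.l 41))) (.l 41))) (.l 41)) (.l 41)) (.l 41))))

theorem vQ112 : ev Q112 I5_11 I5_15 = 868793630374924 := by decide +kernel

noncomputable def Q150 : QT :=
(.b (.b (.b (.a (.l 9) (.b (.a (.l 9) (.b (.a (.l 9) (.b (.a (.b (.a (.l 9) (.b (.a .z (.a .z (.a .z (.l 7)))) (.a (.l 9) (.a (.l 9) .z)))) (.l 9))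
(.b (.a (.b (.l 7) (.a .z (.l 7))) (.l 7)) (.a (.b (.a (.a (.l 9) .z) .z) (.l 9)) (.b (.a (.a .z (.l 7)) (.l 7)) (.a .z (.a .z (.a .z (.l 7))))))))
(.a (.l 9) (.b (.a (.l 9) (.b (.a (.l 9) (.a (.l 9) .z)) (.l 9))) (.l 9))))) (.l 9))) (.l 9))) (.l 9)) (.b (.l 9) (.a (.l 9) (.b (.a (.l 9) (.a (.l 9)
(.b (.l 9) (.a (.l 9) (.b (.l 9) (.a (.b (.l 9) (.a (.l 9) (.b (.l 9) .z))) (.b (.a (.l 9) (.b (.l 9) .z)) (.a .z (.b .z (.l 25)))))))))) (.a (.b (.l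
9) (.a (.l 9) (.b (.l 9) (.a (.l 9) (.b (.a (.l 9) (.b (.l 9) (.a (.a (.l 9) .z) .z))) (.a (.b (.a (.l 9) (.a (.l 9) .z)) (.a (.a (.l 9) .z) .z)) (.b
(.a .z (.l 25)) (.l 25)))))))) (.b (.a (.b (.l 9) (.a (.l 9) (.b (.a (.l 9) (.b (.l 9) (.a (.l 9) .z))) (.a (.b (.l 9) (.a (.l 9) .z)) (.b .z (.a .z
(.l 25))))))) (.a (.b (.a (.b (.l 9) (.a (.l 9) (.b (.l 9) .z))) (.b (.a (.l 9) (.b (.l 9) .z)) (.a .z (.b .z (.l 25))))) (.b (.a (.b .z (.a .z (.l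
25))) (.l 25)) (.l 25))) (.b (.a (.b (.a .z (.b .z (.l 25))) (.l 25)) (.l 25)) (.l 25)))) (.a (.b (.a (.b (.a (.l 9) (.b (.l 9) (.a (.l 9) .z))) (.a
(.b (.l 9) (.a (.l 9) .z)) (.b .z (.a .z (.l 25))))) (.b (.a (.b .z (.a .z (.l 25))) (.l 25)) (.l 25))) (.a (.b (.a (.b .z (.a .z (.l 25))) (.l 25))
(.l 25)) (.l 25))) (.l 25)))))))) (.b (.b (.a (.b (.a (.l 9) (.b (.l 9) (.a (.l 9) (.b (.a (.l 9) (.b (.l 9) (.a (.l 9) (.b (.l 9) (.a (.l 9) (.a (.l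
9) .z)))))) (.a (.b (.l 9) (.a (.l 9) (.b (.l 9) (.a (.l 9) .z)))) (.b (.a (.b (.l 9) (.a (.l 9) (.a (.l 9) .z))) (.b (.a (.a (.l 9) .z) .z) (.a .z
(.l 25)))) (.a (.b .z (.a .z (.l 25))) (.l 25)))))))) (.a (.b (.l 9) (.a (.l 9) (.b (.a (.l 9) (.b (.a (.l 9) (.b (.l 9) (.a (.l 9) .z))) (.a (.b (.l
9) (.a (.l 9) .z)) (.b (.a .z (.a .z (.l 13))) (.a (.a .z (.l 13)) (.l 13)))))) (.a (.b (.a (.l 9) (.b (.a (.l 9) (.a (.l 9) .z)) (.a (.a (.l 9) .z)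
.z))) (.a (.b (.a (.l 9) .z) (.a .z (.a .z (.l 13)))) (.b (.a .z (.l 13)) (.l 13)))) (.b (.a (.b (.a .z (.a .z (.l 13))) (.l 13)) (.l 13)) (.l
13)))))) (.b (.a (.b (.a (.l 9) (.b (.l 9) (.a (.l 9) (.b (.a (.l 9) (.a (.l 9) .z)) (.a (.a (.l 9) .z) .z))))) (.a (.b (.l 9) (.a (.b (.l 9) (.a (.l
9) (.a (.l 9) .z))) (.b (.a (.l 9) .z) .z))) (.b (.a (.b (.a (.l 9) .z) .z) (.b (.a .z (.l 25)) (.l 25))) (.a (.b (.a .z (.l 25)) (.l 25)) (.l 25)))))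
(.b (.a (.b (.a (.b (.l 9) (.a (.a (.l 9) .z) .z)) (.b .z (.a .z (.l 25)))) (.a (.b (.a .z (.l 25)) (.l 25)) (.l 25))) (.l 25)) (.l 25))) (.a (.b (.a
(.b (.a (.b (.a (.a (.l 9) .z) .z) (.a .z (.l 13))) (.b .z (.l 13))) (.l 13)) (.b (.a (.b (.a .z (.l 25)) .z) (.b (.l 25) (.a .z (.l 25)))) (.a (.l
13) (.b .z (.l 13))))) (.l 13)) (.b (.a (.b (.l 25) (.a (.b (.a .z (.l 25)) .z) (.b (.l 25) (.a .z (.l 25))))) (.l 25)) (.a (.b (.a (.l 13) (.b .z (.a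
(.l 13) (.a (.l 13) .z)))) (.l 13)) (.b (.a (.b (.l 25) .z) (.l 25)) (.a (.b (.a (.l 13) (.a (.l 13) .z)) (.l 13)) (.b .z (.a (.l 13) .z)))))))))) (.b
(.a (.b (.a (.b (.l 9) (.a (.l 9) (.b (.a (.l 9) (.b (.a (.l 9) (.a (.l 9) .z)) .z)) (.a (.b (.a (.l 9) .z) .z) (.b (.a .z (.l 25)) (.l 25)))))) (.b
(.a (.b (.a (.l 9) (.b (.a (.l 9) (.a (.l 9) .z)) (.a (.a (.l 9) .z) .z))) (.a (.b (.a (.l 9) (.a (.l 9) .z)) (.a (.a (.l 9) .z) .z)) (.b (.a .z (.l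
25)) (.l 25)))) (.b (.a (.b (.a .z (.l 25)) (.l 25)) (.l 25)) (.l 25))) (.a (.b (.a (.b (.a .z (.l 25)) (.l 25)) (.l 25)) (.l 25)) (.l 25)))) (.a (.b
(.a (.b (.a (.l 9) (.b (.a (.l 9) .z) .z)) (.a (.b (.a (.a (.l 9) .z) .z) (.a .z (.l 25))) (.b (.a .z (.l 25)) (.l 25)))) (.b (.a (.b (.a .z (.l 25))
(.l 25)) (.l 25)) (.l 25))) (.l 25)) (.l 25))) (.l 25)) (.a (.b (.l 25) (.a (.b (.l 25) (.a (.b (.l 25) (.a (.b (.l 25) .z) (.l 25))) (.l 25))) (.l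
25))) (.l 25)))) (.a (.b (.a (.b (.a (.b (.a (.b (.l 9) (.a (.l 9) (.b (.l 9) (.a (.l 9) .z)))) (.b (.a (.b (.l 9) (.a (.l 9) (.a (.l 9) .z))) (.b (.a
(.a (.l 9) .z) .z) (.a .z (.l 13)))) (.a (.b .z (.a (.a .z (.l 13)) (.l 13))) (.l 13)))) (.a (.b (.a (.b (.a (.l 9) (.a (.l 9) .z)) .z) (.b (.a .z (.a
.z (.l 13))) (.l 13))) (.a (.b (.a (.a .z (.l 13)) (.l 13)) (.l 13)) (.l 13))) (.l 13))) (.b (.a (.b (.a (.b (.a (.a .z (.l 13)) (.l 13)) (.l 13)) (.l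
13)) (.l 13)) (.l 13)) (.l 13))) (.l 13)) (.l 13)) (.l 13)) (.a (.b (.b (.a (.b (.a (.b (.a (.b (.a (.l 13) .z) (.l 13)) (.b (.a .z (.l 25)) (.a (.a
(.l 13) .z) .z))) (.l 13)) (.b (.a (.b (.l 25) (.a .z (.l 25))) (.l 25)) (.a (.b (.a (.a (.l 13) .z) .z) (.l 13)) (.b (.a .z (.l 25)) .z)))) (.l 13))
(.b (.a (.b (.l 25) (.a (.b (.l 25) (.a .z (.l 25))) (.l 25))) (.l 25)) (.a (.b (.a (.b .z (.a (.l 13) (.a (.l 13) .z))) (.b (.l 25) .z)) (.a (.l 13)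
(.b (.a (.l 13) .z) (.l 13)))) (.b (.l 25) (.a (.b (.a .z (.l 25)) (.a (.a (.l 13) .z) .z)) (.b (.l 25) (.a .z (.l 25)))))))) (.a (.l 13) (.b (.a (.l
13) (.b (.a (.l 13) (.b .z (.l 13))) (.l 13))) (.l 13)))) (.l 13)) (.a (.b (.b (.l 25) (.b (.a (.b (.a (.b (.a .z (.l 25)) .z) (.l 25)) (.a (.b (.a
(.l 13) (.a (.l 13) .z)) (.l 13)) (.b .z (.a (.l 13) .z)))) (.b (.l 25) (.a (.b (.l 25) (.a .z (.l 25))) (.l 25)))) (.a (.l 13) (.b (.a (.b (.a (.a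
(.l 13) .z) .z) (.l 13)) (.b (.a .z (.l 25)) .z)) (.a (.l 13) (.b (.a (.l 13) (.a (.l 13) .z)) (.l 13))))))) (.l 13)) (.b (.b (.l 25) (.b (.l 25) (.a
(.b (.l 25) (.a (.b .z (.a (.l 13) .z)) (.b (.l 25) (.a .z (.l 25))))) (.l 25)))) (.a (.b (.b (.b (.a (.l 13) (.b .z (.a (.l 13) (.a (.l 13) .z))))
(.l 13)) (.l 13)) (.a (.l 13) (.b (.l 13) (.a (.l 13) (.b (.l 13) (.a (.b (.l 13) .z) .z)))))) (.b (.a (.b (.b (.b (.l 25) .z) (.b (.a (.l 13) .z) (.l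
13))) (.l 13)) (.b (.a (.b (.l 25) (.b .z (.a (.l 13) .z))) (.b (.l 25) .z)) (.a (.b (.l 13) (.a (.b (.l 13) .z) .z)) (.b (.a (.b (.l 13) .z) .z)
.z)))) (.a (.b (.a (.b (.l 13) (.a (.l 13) (.b (.l 13) .z))) (.b (.a (.l 13) (.b (.l 13) .z)) .z)) (.a .z (.l 69))) (.b (.a .z (.l 69)) (.l
69)))))))))) (.a (.l 13) (.a (.b (.a (.l 13) (.b (.l 13) (.a (.l 13) (.b (.l 13) (.a (.l 13) (.b (.l 13) (.a (.b (.l 13) (.a (.l 13) (.b (.l 13) .z)))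
(.b (.a (.l 13) .z) (.a .z (.b .z (.l 14))))))))))) (.a (.b (.l 13) (.a (.b (.l 13) (.a (.l 13) (.b (.a (.l 13) (.b (.l 13) (.a (.l 13) (.b (.l 13)
.z)))) (.a (.b (.a (.l 13) (.b (.l 13) .z)) (.a (.b (.l 13) .z) .z)) .z)))) (.b (.a (.b (.l 13) (.a (.l 13) (.b (.l 13) (.a (.b (.l 13) .z) .z)))) (.b
(.a (.b (.l 13) (.a (.l 13) (.b (.l 13) .z))) (.b (.a (.l 13) (.b (.l 13) .z)) (.a .z (.b .z (.l 14))))) (.a (.b (.a .z (.b .z (.l 14))) (.a (.b .z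
(.l 14)) (.l 14))) (.l 14)))) (.a (.b (.a (.b (.a (.b (.l 13) .z) .z) (.a .z (.l 14))) (.b (.a (.b .z (.l 14)) (.l 14)) (.l 14))) (.b (.b (.a (.l 14)
.z) (.a .z (.a .z (.l 15)))) (.b (.l 15) (.a .z (.l 15))))) (.b (.b (.l 14) (.b (.a (.l 14) (.a (.l 14) .z)) (.a (.a (.l 14) .z) .z))) (.b (.b (.a .z
(.l 15)) (.l 15)) (.l 15))))))) (.b (.a (.b (.a (.l 13) (.b (.l 13) (.a (.l 13) (.b (.l 13) (.a (.l 13) .z))))) (.a (.b (.l 13) (.a (.b (.l 13) (.a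
(.b (.l 13) .z) .z)) (.b (.a (.b (.l 13) .z) .z) (.a (.b .z (.l 14)) (.l 14))))) (.b (.a (.b (.a (.l 13) (.b (.l 13) .z)) (.a .z (.b .z (.l 14)))) (.b
(.a .z (.b .z (.l 14))) (.l 14))) (.a (.b (.a (.b .z (.l 14)) (.l 14)) (.l 14)) (.l 14))))) (.b (.a (.b (.a (.l 13) (.b (.a (.l 13) (.b (.l 13) .z))
(.a (.b (.l 13) .z) .z))) (.a (.b (.a (.b (.l 13) .z) .z) (.a (.b .z (.l 14)) (.l 14))) (.b (.a (.b .z (.l 14)) (.l 14)) (.l 14)))) (.b (.a (.b (.a .z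
(.b .z (.l 14))) (.l 14)) (.l 14)) (.l 14))) (.l 14))) (.a (.b (.a (.b (.a (.b (.a .z (.l 14)) (.l 14)) (.l 14)) (.l 14)) (.b (.l 14) (.b (.l 14) (.b
(.l 14) (.a (.l 14) (.a (.l 14) .z)))))) (.b (.b (.a (.b (.l 14) (.a (.l 14) .z)) (.b (.a (.a (.l 14) .z) .z) (.a .z (.l 15)))) (.a (.b (.a .z (.a .z
(.l 15))) (.l 15)) (.l 15))) (.l 15))) (.b (.b (.l 14) (.b (.a (.l 14) (.b (.a (.l 14) (.a (.l 14) .z)) .z)) (.a (.b (.a (.l 14) .z) (.a .z (.a .z (.l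
15)))) (.b (.a (.a .z (.l 15)) (.l 15)) (.l 15))))) (.l 15)))))) (.b (.a (.b (.a (.l 13) (.b (.l 13) (.a (.b (.l 13) (.a (.l 13) (.b (.a (.l 13) (.b
(.l 13) .z)) .z))) (.b (.a (.b (.l 13) (.a (.l 13) .z)) (.b (.a (.b (.l 13) .z) .z) .z)) (.a .z (.l 69)))))) (.a (.b (.a (.b (.l 13) (.a (.l 13) (.b
(.l 13) (.a (.l 13) (.b (.l 13) .z))))) (.b (.a (.l 13) (.b (.l 13) (.a (.b (.l 13) .z) .z))) (.a (.b (.a (.l 13) (.b (.l 13) .z)) (.a .z (.b .z (.l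
14)))) (.b (.a .z (.l 14)) (.l 14))))) (.a (.b (.a (.b (.l 13) (.a (.b (.l 13) .z) .z)) (.b (.a (.b (.l 13) .z) .z) (.a (.b .z (.l 14)) (.l 14)))) (.a
(.b (.a (.b .z (.l 14)) (.l 14)) (.l 14)) (.l 14))) (.l 14))) (.b (.a (.b (.a (.b (.a (.b (.l 13) .z) .z) (.a (.b .z (.l 14)) (.l 14))) (.b .z (.b (.a
(.l 14) .z) (.l 14)))) (.l 14)) (.b (.b (.l 69) .z) (.a (.b (.b (.a (.l 14) .z) (.l 14)) (.l 14)) (.b .z (.a (.l 14) (.b .z (.l 14))))))) (.l 14))))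
(.b (.a (.b (.a (.b (.a (.l 13) (.b (.l 13) (.a (.l 13) (.b (.l 13) .z)))) (.a (.b (.a (.l 13) (.b (.l 13) .z)) (.a (.b (.l 13) .z) .z)) .z)) (.b (.a
(.b (.a (.l 13) .z) .z) .z) (.l 69))) (.a (.b (.a .z (.l 69)) (.l 69)) (.l 69))) (.l 69)) (.a (.b (.a (.b (.l 69) (.a .z (.l 69))) (.l 69)) (.a (.b
(.a (.b (.a (.l 14) .z) (.l 14)) (.b .z (.a (.b .z (.l 14)) .z))) (.l 14)) (.b (.a .z (.l 69)) (.a (.b (.a (.b .z (.l 14)) .z) (.l 14)) (.b .z (.a (.b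
.z (.l 14)) .z)))))) (.b (.l 69) (.a (.b (.l 69) (.a .z (.l 69))) (.l 69)))))) (.b (.b (.a (.l 14) (.b (.a (.l 14) (.a (.a (.b (.a (.b .z (.l 14)) .z)
(.l 14)) (.b .z (.a (.b .z (.l 14)) .z))) (.a .z (.l 69)))) (.a (.l 14) (.b (.a (.l 14) (.a (.a (.b .z (.l 14)) .z) .z)) (.a (.l 14) (.b (.a (.l 14)
.z) (.a (.l 14) (.a (.l 14) .z)))))))) (.a (.b (.l 14) (.a (.l 14) (.b (.l 14) (.a (.l 14) (.b (.a (.l 14) .z) (.a .z (.a .z (.l 15)))))))) (.b (.a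
(.b (.l 14) (.a (.l 14) (.b (.l 14) (.a (.l 14) .z)))) (.b (.a (.b (.l 14) (.a (.l 14) (.a (.l 14) .z))) (.b (.a (.a (.l 14) .z) .z) (.a .z (.l 15))))
(.a (.b .z (.a (.a .z (.l 15)) (.l 15))) (.l 15)))) (.a (.b (.a (.b (.a (.l 14) (.a (.l 14) .z)) (.a (.a (.l 14) .z) .z)) (.b (.a .z (.a .z (.l 15)))
(.l 15))) (.a (.b (.a .z (.l 15)) (.l 15)) (.l 15))) (.l 15))))) (.b (.a (.b (.a (.b (.a (.l 14) (.b (.l 14) (.a (.l 14) (.a (.l 14) .z)))) (.a (.b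
(.l 14) (.a (.l 14) .z)) (.b .z (.a (.a .z (.l 15)) (.l 15))))) (.b (.a (.b (.a (.a (.l 14) .z) .z) (.a .z (.l 15))) (.b (.a (.a .z (.l 15)) (.l 15))
(.l 15))) (.l 15))) (.a (.b (.a (.b (.a .z (.a .z (.l 15))) (.l 15)) (.l 15)) (.l 15)) (.l 15))) (.l 15)) (.l 15))))))))

theorem vQ150 : ev Q150 I4_7 I4_13 = 3820998153523540 := by decide +kernel

noncomputable def Q30 : QT :=
(.a (.b (.a (.l 12) (.a (.b (.a (.b (.a (.l 12) (.b (.a (.l 12) (.b (.a (.b .z (.l 12)) .z) (.l 12))) (.l 12))) (.l 12)) (.b (.a (.b (.a (.b (.a .z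
(.l 37)) (.a (.b .z (.l 12)) .z)) (.l 37)) (.a (.b (.a (.l 12) (.b (.a (.l 12) .z) (.l 12))) (.l 12)) (.b (.a (.b .z (.a (.l 12) .z)) .z) (.a (.l 12)
(.b .z (.l 12)))))) (.b (.l 37) (.a (.b (.l 37) (.a .z (.l 37))) (.l 37)))) (.a (.l 12) (.b (.a (.b (.a (.b (.a (.l 12) .z) (.l 12)) (.b .z (.a (.l
12) .z))) (.l 12)) (.b (.a .z (.l 37)) (.a (.b .z (.l 12)) .z))) (.a (.l 12) (.b (.a (.l 12) (.b (.a (.l 12) .z) (.l 12))) (.l 12))))))) (.l 12)) (.b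
(.a (.b (.b (.a (.l 37) (.b (.a (.l 37) .z) (.l 37))) (.l 37)) (.a (.b (.l 37) (.a (.b (.a (.b .z (.a (.l 12) .z)) .z) (.a (.l 12) (.b .z (.a (.l 12)
.z)))) (.b (.l 37) (.a .z (.l 37))))) (.l 37))) (.b (.b (.a (.b (.a (.b (.l 49) .z) (.l 49)) (.a .z (.b (.l 49) .z))) (.l 49)) (.a (.b (.a (.l 37) (.b
.z (.l 37))) (.l 37)) (.b (.a .z (.l 49)) (.a (.b .z (.l 37)) .z)))) (.b (.a (.l 37) (.b (.a (.l 37) (.b .z (.l 37))) (.l 37))) (.l 37)))) (.a (.b (.a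
(.b (.a (.l 12) (.b (.a (.b (.a (.l 12) .z) (.l 12)) .z) (.a (.l 12) (.b (.a (.l 12) .z) (.l 12))))) (.l 12)) (.b (.a (.b (.l 37) .z) (.l 37)) (.a (.b
(.a (.l 12) (.b .z (.a (.l 12) .z))) (.l 12)) (.b (.a .z (.l 37)) (.a (.b .z (.a (.l 12) .z)) .z))))) (.a (.l 12) (.b (.a (.l 12) (.b (.a (.l 12) (.b
(.a (.l 12) .z) (.l 12))) (.l 12))) (.l 12)))) (.b (.l 37) (.a (.b (.a (.b (.a .z (.l 37)) (.a (.b (.a (.l 12) .z) (.l 12)) .z)) (.l 37)) (.a (.b (.a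
(.l 12) (.b (.a (.l 12) .z) (.l 12))) (.l 12)) (.b (.a .z (.l 37)) (.a (.b (.a (.l 12) .z) (.l 12)) .z)))) (.b (.l 37) (.a (.b (.l 37) (.a .z (.l
37))) (.l 37))))))))) (.a (.l 12) (.a (.l 12) (.b (.a (.l 12) (.b (.a (.l 12) (.b (.a (.b (.a (.b .z (.a (.l 12) .z)) .z) (.a (.l 12) (.b .z (.a (.l
12) .z)))) (.b (.l 37) (.a .z (.l 37)))) (.a (.l 12) (.b (.a (.b .z (.a (.l 12) .z)) .z) (.a (.l 12) (.b .z (.a (.l 12) .z))))))) (.l 12))) (.l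
12))))) (.b (.a (.b (.a (.b (.a (.l 49) (.b (.a (.l 49) (.b (.a (.b .z (.l 49)) (.b (.a (.a (.a .z (.l 4)) (.l 4)) (.l 4)) .z)) (.a (.l 49) (.b .z (.l
49))))) (.l 49))) (.a (.a (.b (.b (.a .z (.l 49)) (.a (.b .z (.l 37)) .z)) (.a (.l 37) (.b (.a (.l 37) .z) (.l 37)))) (.b (.l 49) (.a (.b .z (.a (.l
37) .z)) (.b (.l 49) .z)))) (.l 49))) (.b (.a (.b (.a (.b (.l 4) (.a (.b (.a .z (.a .z (.a .z (.l 4)))) .z) (.b (.l 4) (.a .z (.a (.a .z (.l 4)) (.l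
4)))))) (.l 4)) (.a (.b (.a (.l 49) (.b .z (.l 49))) (.l 49)) (.b (.a (.b (.a (.a .z (.a .z (.l 4))) (.l 4)) .z) (.b (.l 4) (.a (.a .z (.l 4)) (.l
4)))) (.a (.l 49) .z)))) (.b (.l 4) (.a (.b (.l 4) (.a (.b (.l 4) (.a .z (.a .z (.l 4)))) (.l 4))) (.l 4)))) (.a (.l 49) (.b (.a (.b (.a (.b .z (.l
49)) (.b (.a (.a .z (.a .z (.l 4))) (.l 4)) .z)) (.l 49)) (.b (.a (.b (.l 4) (.a (.a (.a .z (.l 4)) (.l 4)) (.l 4))) (.l 4)) (.a (.b (.a .z (.a .z (.a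
.z (.l 4)))) .z) (.b (.l 4) (.a .z (.l 4)))))) (.a (.l 49) (.b (.a (.l 49) (.b .z (.l 49))) (.l 49))))))) (.a (.a (.b (.a (.l 37) (.b (.a (.l 37) (.b
(.a (.l 37) .z) (.l 37))) (.l 37))) (.l 37)) (.b (.a (.b (.a (.b .z (.a (.l 37) .z)) (.b (.l 49) (.a .z (.l 49)))) (.a (.l 37) (.b .z (.l 37)))) (.b
(.l 49) (.a (.b (.a .z (.l 49)) .z) (.b (.l 49) (.a .z (.l 49)))))) (.a (.l 37) (.b (.a (.l 37) (.b .z (.a (.l 37) .z))) (.l 37))))) (.a (.b (.l 49)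
(.a (.b (.a (.b (.l 49) .z) (.l 49)) (.a (.b (.a (.l 37) .z) (.l 37)) (.b .z (.a (.l 37) .z)))) (.b (.l 49) (.a (.b (.l 49) (.a .z (.l 49))) (.l
49))))) (.l 49)))) (.b (.a (.b (.l 4) (.a (.b (.l 4) (.a (.b (.a (.b (.a (.a .z (.l 4)) (.l 4)) (.a .z (.a .z (.a .z (.l 4))))) (.l 4)) (.a (.b .z (.l
49)) (.b (.a .z (.l 4)) .z))) (.b (.l 4) (.a (.b (.l 4) (.a (.a (.a .z (.l 4)) (.l 4)) (.l 4))) (.l 4))))) (.l 4))) (.l 4)) (.a (.b (.a (.b (.a (.l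
49) (.b (.a (.b (.a .z (.a .z (.l 4))) .z) (.b (.l 4) (.a (.a .z (.a .z (.l 4))) (.l 4)))) (.a (.l 49) .z))) (.l 49)) (.b (.a (.b (.l 4) (.a (.b (.l
4) (.a .z (.a (.a .z (.l 4)) (.l 4)))) (.l 4))) (.l 4)) (.a (.b (.a (.b .z (.l 49)) (.b (.a (.a .z (.l 4)) (.l 4)) (.a .z (.a .z (.a .z (.l 4))))))
(.a (.l 49) (.b .z (.l 49)))) (.b (.l 4) (.a (.b (.a (.a .z (.a .z (.l 4))) (.l 4)) .z) (.l 4)))))) (.a (.l 49) (.b (.a (.l 49) (.b (.a (.b .z (.l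
49)) (.b (.a .z (.l 4)) .z)) (.l 49))) (.l 49)))) (.b (.l 4) (.a (.b (.a (.b (.a (.b (.l 4) (.a (.a (.a .z (.l 4)) (.l 4)) (.l 4))) (.l 4)) (.a (.b
(.a .z (.a (.a .z (.l 4)) (.l 4))) .z) (.b (.l 4) (.a (.a .z (.l 4)) (.l 4))))) (.l 4)) (.a (.b (.a (.l 49) (.b (.a .z (.a .z (.l 4))) .z)) (.l 49))
(.b (.a (.b (.l 4) (.a (.a .z (.l 4)) (.l 4))) (.l 4)) (.a (.b (.a .z (.a .z (.a .z (.l 4)))) .z) (.b (.l 4) (.a (.a .z (.a .z (.l 4))) (.l 4)))))))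
(.l 4)))))) (.a (.a (.a (.b (.a (.b (.a (.b (.l 37) (.a (.b (.l 37) .z) (.l 37))) (.l 37)) (.a (.b (.a (.b (.a (.b .z (.l 12)) .z) (.l 12)) (.b .z (.a
(.b .z (.l 12)) .z))) (.l 12)) (.b (.a (.b (.l 37) .z) (.l 37)) (.a (.b (.a (.b .z (.l 12)) .z) (.l 12)) (.b .z (.a (.b .z (.l 12)) .z)))))) (.l 37))
(.a (.b (.a (.l 12) (.b (.a (.l 12) (.b (.a (.l 12) (.b .z (.l 12))) (.l 12))) (.l 12))) (.l 12)) (.b (.a (.b (.a (.b .z (.a (.l 12) (.b .z (.l 12))))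
(.b (.l 37) .z)) (.a (.l 12) (.b (.a (.l 12) (.b .z (.l 12))) (.l 12)))) (.b (.l 37) (.a (.b .z (.a (.l 12) (.b .z (.l 12)))) (.b (.l 37) .z)))) (.a
(.l 12) (.b (.a (.l 12) (.b (.a (.l 12) (.b .z (.l 12))) (.l 12))) (.l 12)))))) (.b (.l 37) (.a (.b (.l 37) (.a (.b (.a (.b .z (.a (.b .z (.l 12))
.z)) (.b (.l 37) .z)) (.a (.l 12) (.b (.a (.b .z (.l 12)) .z) (.l 12)))) (.b (.l 37) (.a (.b .z (.a (.b .z (.l 12)) .z)) (.l 37))))) (.l 37)))) (.b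
(.a (.b (.a (.l 37) (.b (.a (.b .z (.l 37)) (.b (.a .z (.l 49)) .z)) (.a (.l 37) (.b (.a (.l 37) .z) (.l 37))))) (.l 37)) (.b (.a (.b (.l 49) (.a (.b
(.a .z (.l 49)) .z) (.b (.l 49) (.a .z (.l 49))))) (.l 49)) (.a (.b (.a (.l 37) (.b .z (.a (.l 37) .z))) (.l 37)) (.b (.a (.b (.l 49) .z) (.l 49)) (.a
(.b (.a (.l 37) .z) (.l 37)) (.b (.a .z (.l 49)) .z)))))) (.a (.l 37) (.b (.a (.l 37) (.b (.a (.l 37) (.b (.a (.l 37) .z) (.l 37))) (.l 37))) (.l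
37))))) (.b (.a (.l 49) (.b (.a (.b (.a (.l 49) (.b (.a (.l 49) (.b (.a .z (.a .z (.a .z (.l 4)))) .z)) (.l 49))) (.l 49)) (.a (.b (.b (.a (.b (.l 4)
(.a (.a .z (.a .z (.l 4))) (.l 4))) (.l 4)) (.a (.b (.a .z (.a .z (.a .z (.l 4)))) .z) (.a (.b (.l 4) (.a .z (.a .z (.l 4)))) (.l 4)))) (.a (.l 49)
(.b (.a .z (.b (.a .z (.a .z (.l 4))) .z)) (.l 49)))) (.b (.l 4) (.a (.b (.a (.b (.l 4) (.a .z (.a .z (.l 4)))) (.l 4)) (.a .z (.b (.a .z (.a .z (.l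
4))) .z))) (.b (.l 4) (.a (.b (.l 4) (.a .z (.l 4))) (.l 4))))))) (.a (.l 49) (.a (.l 49) (.b (.a (.l 49) (.b (.a .z (.b (.a .z (.l 4)) .z)) (.l 49)))
(.l 49)))))) (.a (.a (.b (.a (.b (.a (.b (.a .z (.l 49)) .z) (.b (.l 49) (.a .z (.l 49)))) (.a (.l 37) (.b .z (.a (.l 37) .z)))) (.b (.l 49) (.a (.b
(.l 49) (.a .z (.l 49))) (.l 49)))) (.a (.l 37) (.b (.a (.b .z (.a (.l 37) .z)) (.b (.l 49) .z)) (.a (.l 37) (.b (.a (.l 37) .z) (.l 37)))))) (.b (.l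
49) (.a (.b (.l 49) (.a (.b (.a .z (.l 49)) .z) (.l 49))) (.l 49)))) (.a (.l 49) (.a (.l 49) (.a (.l 49) (.b (.l 49) (.a (.l 49) (.b (.l 49) (.a (.l
49) .z))))))))))))

theorem vQ30 : ev Q30 I3_0 I6_43 = 1865617139048176 := by decide +kernel

noncomputable def Q247 : QT :=
(.b (.b (.b (.a (.b (.b (.a (.a (.b (.b (.l 91) .z) .z) .z) .z) (.a (.b .z (.a .z (.b .z (.a .z (.b .z (.l 32)))))) (.b (.a .z (.b .z (.a (.b .z (.l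
32)) (.l 32)))) (.a (.b (.a (.b .z (.l 32)) (.l 32)) (.l 32)) (.l 32))))) (.b (.a (.b (.a (.b (.a .z (.b .z (.l 32))) (.l 32)) (.l 32)) (.l 32)) (.l
32)) (.l 32))) (.b (.a (.b (.b .z (.a (.b .z (.a .z (.b .z (.l 32)))) (.b (.a .z (.b .z (.l 32))) (.l 32)))) (.l 32)) (.b (.b (.a (.b (.a .z (.b (.l
27) .z)) (.a (.b .z (.l 32)) (.b .z (.l 32)))) (.b (.l 27) (.a .z (.l 27)))) (.a (.l 32) (.b (.a (.b .z (.l 32)) .z) (.a (.l 32) (.b .z (.l 32))))))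
(.a (.b (.l 32) (.a (.l 32) (.b (.l 32) (.a (.l 32) .z)))) (.b (.a (.l 32) (.b (.l 32) .z)) (.a (.b (.a (.l 32) .z) .z) .z))))) (.a (.b (.a (.l 32)
(.b (.l 32) (.a (.l 32) (.b (.a (.l 32) .z) .z)))) (.a (.b (.a (.l 32) (.b (.l 32) (.a (.l 32) .z))) (.a (.b (.l 32) .z) .z)) (.b (.a (.b (.a (.l 32)
.z) .z) .z) .z))) (.b (.a (.b (.a (.b (.l 32) (.a (.l 32) .z)) .z) .z) .z) (.b .z (.b .z (.a .z (.l 33)))))))) (.a (.b (.a (.b (.l 32) (.a (.b (.b (.l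
32) (.b (.l 32) .z)) (.b (.b (.l 31) .z) .z)) (.b (.b (.l 32) (.b (.l 32) .z)) .z))) (.b (.a (.b (.l 32) (.a (.l 32) (.b (.l 32) (.a (.l 32) .z))))
(.b (.a (.l 32) (.b (.a (.l 32) .z) .z)) (.a .z (.b .z (.l 33))))) (.a (.b (.a (.b (.l 32) .z) .z) (.a (.b .z (.l 33)) (.l 33))) (.l 33)))) (.a (.b
(.a (.b (.a (.l 75) .z) .z) (.b (.a .z (.b .z (.l 33))) (.l 33))) (.a (.b (.a (.b .z (.l 33)) (.l 33)) (.l 33)) (.l 33))) (.b (.l 33) (.b (.l 33) (.b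
(.l 33) (.a (.l 33) (.b (.l 33) .z))))))) (.b (.a (.b (.a (.b (.a .z (.b .z (.l 33))) (.l 33)) (.b (.b (.b .z (.l 33)) (.l 33)) (.l 33))) (.l 33)) (.l
33)) (.b (.l 33) (.b (.a (.l 33) (.b (.l 33) (.a (.l 33) .z))) (.a (.b (.a (.l 33) (.b (.l 33) .z)) .z) .z)))))) (.b (.b (.b (.b (.a (.a (.b (.l 33)
(.a (.b (.l 33) .z) .z)) (.b (.a (.b (.l 33) .z) .z) .z)) (.a .z (.b .z (.a .z (.l 81))))) (.b (.a .z (.a .z (.a .z (.l 81)))) (.b .z (.a (.a (.a .z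
(.l 35)) (.l 35)) (.l 35))))) (.b (.l 35) (.b (.l 35) (.b (.l 35) .z)))) (.b (.a (.b (.a (.b .z (.a .z (.b .z (.l 45)))) (.b (.a (.b .z (.l 45)) (.l
45)) (.l 45))) (.a (.b (.a (.b .z (.l 45)) (.l 45)) (.a (.b (.l 45) .z) .z)) (.b (.a (.b (.l 45) .z) .z) (.a (.b .z (.l 45)) (.l 45))))) (.b (.a (.b
(.l 45) (.a (.b (.l 45) .z) .z)) (.b (.a .z (.b .z (.l 45))) (.a (.b .z (.l 45)) (.l 45)))) (.a (.b (.a (.b .z (.l 45)) (.l 45)) (.l 45)) (.l 45))))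
(.a (.b (.a (.b (.a (.b .z (.l 45)) (.l 45)) (.l 45)) (.l 45)) (.l 45)) (.b (.l 45) (.a (.l 45) (.b (.l 45) (.a (.l 45) (.b (.l 45) .z)))))))) (.b (.b
(.b (.a (.b (.l 45) (.a (.l 45) (.b (.l 45) (.a (.l 45) .z)))) (.a (.b (.a (.l 45) (.b (.l 45) .z)) .z) .z)) (.a (.b (.a (.b (.l 45) (.a (.l 45) .z))
.z) .z) (.b .z (.a (.l 105) (.a .z (.l 100)))))) (.b (.a (.b (.a .z (.l 105)) .z) .z) (.b .z (.l 47)))) (.a (.b (.b (.b (.l 47) (.b .z (.l 57))) (.l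
57)) (.b (.b (.a (.b (.l 57) (.a (.l 57) .z)) (.b (.a (.l 57) .z) .z)) .z) (.b (.a .z (.l 124)) (.l 124)))) (.b (.b (.b (.l 47) (.b .z (.l 57))) (.b
(.a (.l 57) (.b (.a (.l 57) .z) .z)) (.a (.b (.a (.l 57) .z) .z) .z))) (.a (.b (.b .z (.l 124)) (.a (.l 124) (.b (.l 124) .z))) (.b (.a (.b .z (.l
124)) .z) (.a .z (.b .z (.a .z (.l 57))))))))))) (.b (.b (.b (.a (.b (.a (.b (.b (.b (.l 124) .z) .z) (.b (.l 59) (.b .z (.l 69)))) (.b (.b (.b (.l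
124) .z) .z) (.a (.b (.l 59) .z) (.b (.l 59) .z)))) (.a .z (.b (.a .z (.b .z (.a .z (.l 63)))) (.a .z (.b (.b (.l 63) .z) .z))))) (.b (.a (.b .z (.a
(.b (.a (.l 59) .z) .z) .z)) (.b (.a (.b (.a .z (.l 57)) .z) (.b (.l 57) .z)) (.b .z (.b (.a .z (.l 63)) (.l 63))))) (.a (.b (.b (.l 63) (.b (.l 63)
(.a (.l 63) .z))) (.b .z (.b .z (.l 69)))) (.b (.b (.l 63) (.b (.a (.l 63) .z) .z)) .z)))) (.a (.b (.a (.b (.a .z (.b .z (.l 69))) (.a .z (.b (.l 69)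
.z))) (.b (.l 69) (.b (.l 69) (.b (.l 69) .z)))) (.a (.b (.b .z (.l 75)) .z) .z)) (.b (.a (.b (.a (.l 69) (.b (.l 69) .z)) (.a (.b (.l 69) .z) .z))
.z) (.a .z (.b .z (.b (.b (.l 77) .z) .z)))))) (.b (.a (.b .z (.a .z (.b (.b (.b (.l 89) .z) .z) .z))) (.b (.a .z (.b (.b (.b (.l 71) .z) (.b .z (.l
89))) .z)) .z)) (.b .z (.a (.b .z (.a .z (.b (.a .z (.l 120)) (.b (.l 120) .z)))) (.a (.b .z (.b (.b .z (.l 120)) .z)) .z))))) .z))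

theorem vQ247 : ev Q247 I6_45 I4_15 = 344990679809919 := by decide +kernel

noncomputable def Q168 : QT :=
(.b (.a (.b (.b (.a (.b (.b (.l 53) (.b (.a (.b (.l 53) (.a (.l 53) .z)) (.b (.a (.l 53) .z) .z)) (.a .z (.b (.b (.l 57) .z) (.b .z (.l 61)))))) (.a
(.b (.l 61) (.a (.b (.a .z (.l 61)) .z) (.b (.l 61) .z))) (.b (.l 61) (.b (.b (.l 61) .z) .z)))) (.b (.b (.b (.l 53) (.a (.b (.l 53) .z) (.b .z (.a .z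
(.l 57))))) (.b (.a (.b (.a .z (.l 57)) (.l 57)) (.l 57)) (.b (.b .z (.a .z (.l 61))) (.l 61)))) (.b (.b (.l 61) (.a (.l 61) (.b (.l 61) .z))) (.b (.a
(.b .z (.a .z (.l 65))) (.b (.a .z (.l 65)) (.l 65))) (.b .z (.l 69)))))) (.a (.b (.a (.b .z (.a (.l 44) (.b (.a (.l 44) .z) (.l 44)))) (.b (.l 69)
(.a .z (.b .z (.l 77))))) (.a (.b (.b (.b .z (.l 47)) (.b (.b (.l 47) .z) .z)) (.b .z (.b .z (.b .z (.l 52))))) (.b .z (.a (.b .z (.b .z (.l 52))) (.a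
(.b .z (.l 52)) (.b .z (.l 52))))))) (.b (.b (.b (.l 69) (.a (.b (.l 69) .z) .z)) (.b (.a .z (.b .z (.l 77))) (.l 77))) (.a (.b (.b (.b (.l 77) .z)
(.b .z (.l 85))) (.a .z (.b (.l 85) .z))) (.b (.b .z (.b .z (.l 85))) (.b (.b (.l 85) .z) .z)))))) (.a (.b (.b (.b (.b (.b (.l 52) (.b (.l 52) .z))
(.b (.b (.a .z (.l 55)) (.l 55)) (.b (.l 55) .z))) (.b .z (.b (.a (.b (.l 60) .z) .z) (.a .z (.l 60))))) (.b (.b (.b (.b (.l 60) (.a (.l 60) .z)) (.b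
.z (.l 63))) (.b (.b (.a (.l 63) .z) .z) (.a (.l 67) .z))) .z)) (.b (.b (.b (.b (.b .z (.l 75)) .z) .z) (.b (.b (.b (.l 79) .z) (.a (.l 83) .z)) .z))
(.b (.b (.b .z (.a (.l 91) .z)) .z) (.a .z (.b (.b (.l 99) .z) (.b .z (.l 107))))))) (.b (.a (.b (.a (.b .z (.b .z (.b .z (.l 60)))) (.b .z (.a (.b .z
(.l 60)) (.b .z (.l 60))))) (.b (.b (.b (.b (.l 60) .z) (.l 63)) .z) (.b (.b .z (.l 68)) .z))) (.b (.a (.b (.b (.l 93) .z) .z) (.b (.b (.l 93) .z) (.b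
(.l 101) .z))) .z)) (.b (.b (.b .z (.b .z (.b .z (.l 79)))) .z) .z)))) (.b (.b (.b (.b (.a (.b (.a (.b (.a (.l 53) .z) .z) .z) (.a (.b (.a .z (.l 57))
(.l 57)) (.l 57))) (.b (.b (.b .z (.a .z (.l 55))) (.b (.l 55) .z)) (.b (.b (.a (.l 57) .z) (.l 57)) (.l 57)))) (.b (.b (.a (.l 57) (.b (.l 57) .z))
(.a (.b (.a (.l 57) .z) .z) (.b .z (.l 121)))) (.b (.a (.b .z (.l 61)) (.a (.b .z (.l 61)) .z)) (.a (.l 61) (.a (.a (.l 61) .z) .z))))) (.b (.a (.b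
(.a (.l 61) (.b (.a (.l 61) .z) .z)) (.a (.b .z (.a .z (.l 65))) (.b .z (.l 65)))) (.b (.a .z (.b .z (.b .z (.l 63)))) (.b (.b .z (.a (.l 65) .z)) (.l
65)))) (.b (.b (.a (.l 65) (.b (.l 65) .z)) (.a (.b (.a (.l 65) .z) .z) .z)) (.b (.a (.b .z (.l 69)) .z) (.a (.l 69) .z))))) (.b (.b (.a (.b (.a (.b
(.l 69) .z) .z) (.a (.b .z (.l 73)) (.b (.l 73) .z))) (.b .z (.b (.l 73) .z))) (.b (.b .z (.a (.l 77) .z)) (.a (.b (.a (.l 77) .z) .z) .z))) (.b (.b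
(.a (.b (.a .z (.l 81)) .z) (.b (.b (.l 81) .z) .z)) (.b (.a (.b .z (.l 85)) (.a (.l 85) .z)) (.a (.a (.l 85) .z) .z))) (.b (.a (.b .z (.a .z (.l
89))) (.b (.b .z (.l 89)) (.b (.l 89) .z))) (.b .z (.a (.l 93) .z)))))) (.a (.b (.a (.b (.b (.b (.b (.l 93) .z) (.b .z (.l 101))) (.b (.b (.l 101) .z)
(.b .z (.l 109)))) (.a (.b (.b .z (.l 117)) .z) .z)) (.b (.b (.b .z (.b .z (.l 101))) (.b .z (.b .z (.l 109)))) (.b (.b .z (.b (.l 117) .z)) (.b (.b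
.z (.l 125)) .z)))) .z) (.b (.b (.b (.b (.b .z (.b (.l 97) .z)) .z) (.b (.b .z (.b (.l 105) .z)) .z)) .z) .z)))) (.a (.b (.b (.a (.b (.a (.b (.a (.b
(.l 82) .z) .z) (.b (.b (.l 90) .z) .z)) .z) (.b (.b (.b .z (.a .z (.l 106))) .z) .z)) .z) .z) .z) .z))

theorem vQ168 : ev Q168 I6_31 I4_15 = 151634041746992 := by decide +kernel

noncomputable def Q26 : QT :=
(.a (.b (.a (.l 16) (.a (.b (.l 16) (.a (.l 16) (.b (.a (.l 16) (.b (.l 16) (.a (.l 16) (.b (.l 16) (.a (.l 16) (.b (.a (.l 16) .z) .z)))))) (.a (.b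
(.l 16) (.a (.l 16) (.b (.a (.l 16) (.b (.l 16) .z)) (.a (.b (.a (.l 16) .z) .z) .z)))) (.b (.a (.b (.a (.l 16) (.b (.l 16) (.a (.l 16) .z))) (.a (.b
(.l 16) (.a (.l 16) .z)) .z)) (.b (.a (.b (.a (.l 16) .z) .z) .z) (.l 48))) (.a (.b (.a .z (.l 48)) (.l 48)) (.l 48))))))) (.b (.a (.b (.l 16) (.a (.b
(.l 16) (.a (.l 16) (.b (.l 16) (.a (.l 16) (.b (.l 16) (.a (.l 16) .z)))))) (.b (.a (.b (.l 16) (.a (.l 16) (.b (.l 16) (.a (.l 16) .z)))) (.b (.a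
(.b (.l 16) (.a (.l 16) .z)) (.b (.a (.l 16) .z) .z)) (.a .z (.l 48)))) (.a (.b (.a (.b (.l 16) (.a (.l 16) .z)) .z) (.a .z (.l 48))) (.l 48))))) (.a
(.b (.b (.a (.l 16) (.a (.b (.l 16) (.a (.b (.l 16) .z) .z)) (.b (.a (.b (.l 16) .z) .z) .z))) (.a (.b (.a (.l 16) (.b (.a (.l 16) .z) .z)) (.a (.b
(.a (.l 16) .z) .z) .z)) (.a (.b .z (.l 48)) (.l 48)))) (.a (.b (.b (.a .z (.l 48)) (.l 48)) (.l 48)) (.l 48))) (.b (.a (.b (.a (.b .z (.l 48)) (.l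
48)) (.l 48)) (.l 48)) (.l 48)))) (.a (.b (.a (.b (.a (.b (.l 16) (.a (.l 16) (.b (.l 16) .z))) (.b (.a (.b (.l 16) (.a (.l 16) .z)) .z) (.a .z (.l
48)))) (.a (.b (.a (.b (.a (.l 16) .z) .z) .z) (.a .z (.l 48))) (.l 48))) (.l 48)) (.l 48)) (.l 48))))) (.b (.a (.a (.l 16) (.b (.l 16) (.a (.l 16)
(.a (.l 16) (.b (.l 16) (.a (.b (.l 16) (.a (.l 16) (.b (.l 16) (.a (.l 16) .z)))) (.b (.a (.l 16) (.b (.l 16) .z)) (.a (.b (.a (.l 16) .z) .z)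
.z)))))))) (.a (.a (.b (.a (.l 16) (.b (.a (.l 16) (.b (.l 16) (.a (.l 16) (.b (.l 16) .z)))) (.a (.b (.a (.l 16) (.b (.l 16) (.a (.l 16) .z))) (.a
(.b (.l 16) .z) .z)) (.b (.a (.b (.a (.l 16) .z) .z) .z) (.l 48))))) (.a (.b (.a (.b (.l 16) (.a (.l 16) (.b (.a (.l 16) .z) .z))) (.b (.a (.b (.l 16)
(.a (.l 16) .z)) (.b (.a (.l 16) .z) .z)) (.a .z (.l 48)))) (.a (.b .z (.l 48)) (.l 48))) (.b (.a (.b (.a .z (.l 48)) (.l 48)) (.l 48)) (.l 48)))) (.b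
(.a (.b (.a (.b (.a (.b (.l 16) (.a (.l 16) .z)) .z) (.a .z (.l 48))) (.b (.a .z (.l 48)) (.l 48))) (.l 48)) (.l 48)) (.l 48))) (.b (.a (.l 48) (.b
(.l 48) (.a (.l 48) (.b (.l 48) (.a (.l 48) .z))))) (.a (.b (.l 48) (.a (.b (.l 48) (.a (.l 48) (.b (.l 48) .z))) (.b (.a (.l 48) .z) (.a (.b .z (.a
.z (.l 10))) (.b (.a (.a .z (.l 10)) (.l 10)) (.l 10)))))) (.b (.a (.b (.a (.l 48) (.b (.l 48) .z)) (.a (.b (.l 48) .z) (.b .z (.a .z (.l 10))))) (.b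
(.a (.b .z (.a .z (.a .z (.l 10)))) (.b (.a .z (.l 10)) (.l 10))) (.l 10))) (.a (.b (.a (.b (.a .z (.a .z (.l 10))) (.l 10)) (.l 10)) (.l 10)) (.l
10))))))) (.a (.b (.a (.l 16) (.a (.b (.l 16) (.a (.l 16) (.b (.a (.l 16) (.b (.l 16) (.a (.l 16) .z))) (.a (.b (.l 16) (.a (.a (.l 16) .z) .z))
.z)))) (.a (.b (.b (.a (.l 16) (.b (.l 16) (.a (.l 16) (.a (.l 16) .z)))) (.a (.b (.l 16) (.a (.l 16) (.a (.l 16) .z))) (.b (.a (.a (.l 16) .z) .z)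
.z))) (.b (.a (.b (.a (.a (.l 16) .z) .z) .z) (.l 48)) (.l 48))) (.b (.a (.b (.a (.b (.a (.l 16) .z) .z) .z) (.l 48)) (.l 48)) (.l 48))))) (.b (.a (.a
(.l 16) (.b (.l 16) (.a (.l 16) (.a (.l 16) (.b (.l 16) (.a (.a (.l 16) .z) .z)))))) (.a (.a (.b (.a (.l 16) (.b (.a (.l 16) (.a (.l 16) .z)) .z)) (.a
(.b (.a (.a (.l 16) .z) .z) .z) (.b .z (.l 48)))) (.b (.a (.b .z (.l 48)) (.l 48)) (.l 48))) (.b (.a (.l 48) (.b (.l 48) (.a (.l 48) .z))) (.a (.b (.l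
48) .z) (.b (.a .z (.a .z (.a .z (.l 10)))) (.a (.a .z (.l 10)) (.l 10))))))) (.a (.b (.a (.l 16) (.a (.b (.l 16) (.a (.l 16) .z)) (.a (.b (.a (.a (.l
16) .z) .z) .z) (.b .z (.l 48))))) (.b (.a (.a (.l 16) (.a (.l 16) (.a (.l 16) .z))) .z) (.a .z (.a .z (.a (.a .z (.l 10)) (.l 10)))))) (.a (.b (.b
(.a (.l 48) (.a (.l 48) .z)) (.a (.a (.l 48) .z) (.a .z (.a (.a .z (.l 10)) (.l 10))))) (.b (.a (.a .z (.a (.a .z (.l 10)) (.l 10))) (.l 10)) (.l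
10))) (.b (.a (.b (.a .z (.l 10)) (.l 10)) (.l 10)) (.l 10)))))) (.a (.b (.b (.a (.l 48) (.a (.l 48) (.b (.a (.l 48) (.b (.l 48) .z)) (.a (.b (.l 48)
.z) (.b .z (.a (.a .z (.l 10)) (.l 10))))))) (.a (.b (.l 48) (.a (.l 48) (.b (.a (.l 48) .z) (.a .z (.a (.a .z (.l 10)) (.l 10)))))) (.a (.b (.a (.b
(.l 48) .z) (.b .z (.a (.a .z (.l 10)) (.l 10)))) (.a (.b (.a (.a .z (.l 10)) (.l 10)) (.l 10)) (.l 10))) (.b (.a (.b (.a (.a .z (.l 10)) (.l 10)) (.l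
10)) (.l 10)) (.l 10))))) (.b (.a (.b (.a (.b .z (.a .z (.l 10))) (.b (.a (.a (.a .z (.l 10)) (.l 10)) (.l 10)) (.l 10))) (.l 10)) (.l 10)) (.l 10)))
(.b (.a (.b (.a (.b (.a (.b .z (.a .z (.a .z (.l 10)))) (.b (.a .z (.a .z (.l 10))) (.l 10))) (.l 10)) (.l 10)) (.l 10)) (.l 10)) (.l 10)))))) (.a (.b
(.b (.a (.l 48) (.a (.l 48) (.b (.a (.l 48) (.b (.l 48) (.a (.l 48) (.b (.l 48) (.a (.l 48) .z))))) (.a (.b (.l 48) (.a (.b (.l 48) .z) (.b (.a .z (.b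
.z (.a .z (.l 10)))) (.a (.b .z (.l 10)) (.l 10))))) (.b (.a (.b (.l 48) (.a .z (.b .z (.a .z (.l 10))))) (.b (.a .z (.b .z (.l 10))) (.a (.b (.a .z
(.l 10)) (.l 10)) (.l 10)))) (.a (.b (.a (.b (.a .z (.l 10)) (.l 10)) (.l 10)) (.l 10)) (.l 10))))))) (.a (.b (.l 48) (.a (.l 48) (.b (.a (.l 48) (.b
(.a (.l 48) .z) (.a .z (.b (.a .z (.l 10)) (.l 10))))) (.a (.b (.a (.l 48) .z) (.a (.b .z (.a .z (.a .z (.l 10)))) (.b (.a .z (.l 10)) (.l 10)))) (.b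
(.a (.b (.a .z (.l 10)) (.l 10)) (.l 10)) (.l 10)))))) (.a (.b (.a (.b (.l 48) (.b (.a (.l 48) .z) (.a .z (.a (.b .z (.l 10)) (.l 10))))) (.b (.a (.b
(.l 48) .z) (.b .z (.a (.b .z (.l 10)) (.l 10)))) (.a (.b (.a (.b .z (.l 10)) (.l 10)) (.l 10)) (.l 10)))) (.a (.b (.b (.a (.b (.a .z (.l 10)) (.l
10)) (.l 10)) (.l 10)) (.l 10)) (.l 10))) (.b (.a (.b (.a (.b (.a (.b .z (.l 10)) (.l 10)) (.l 10)) (.l 10)) (.l 10)) (.l 10)) (.l 10))))) (.b (.a (.b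
(.a (.b (.a (.b (.l 48) (.a (.l 48) (.b (.l 48) .z))) (.b (.a (.l 48) (.b .z (.a .z (.a .z (.l 10))))) (.a (.b .z (.a .z (.l 10))) (.b (.a (.a .z (.l
10)) (.l 10)) (.l 10))))) (.a (.b (.a (.b (.l 48) .z) (.b .z (.a (.a .z (.l 10)) (.l 10)))) (.a (.b (.a .z (.a .z (.l 10))) (.l 10)) (.l 10))) (.l
10))) (.b (.a (.b (.a (.b (.a (.a .z (.l 10)) (.l 10)) (.l 10)) (.l 10)) (.l 10)) (.l 10)) (.l 10))) (.l 10)) (.l 10)) (.l 10))) (.b (.a (.b (.a (.b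
(.a (.b (.a (.l 48) (.b (.l 48) (.a (.l 48) .z))) (.a (.b (.a (.l 48) .z) (.a .z (.b .z (.l 10)))) (.b (.a (.b .z (.a .z (.l 10))) (.b (.a .z (.l 10))
(.l 10))) (.l 10)))) (.b (.a (.b .z (.a (.b .z (.a .z (.l 10))) (.l 10))) (.b (.a (.b .z (.l 10)) (.l 10)) (.l 10))) (.l 10))) (.l 10)) (.l 10)) (.l
10)) (.l 10)) (.l 10))))

theorem vQ26 : ev Q26 I3_0 I6_31 = 1880280242622860 := by decide +kernel

noncomputable def Q164 : QT :=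
(.b (.a (.b (.a (.b (.a (.b (.a (.l 31) (.b (.a (.l 31) .z) (.l 31))) (.a (.l 31) (.b (.l 31) (.a (.l 31) (.b (.l 31) .z))))) (.b (.a (.b (.a (.b (.l
28) .z) (.l 28)) (.a .z (.b (.l 28) .z))) (.b (.a (.l 28) (.b (.l 28) .z)) (.a (.b (.l 28) .z) .z))) (.a (.b (.a (.l 31) .z) (.a .z (.b .z (.l 31))))
(.b (.a (.b .z (.l 31)) (.l 31)) (.l 31))))) (.a (.b (.a (.b (.a (.b (.l 31) .z) (.l 31)) .z) (.b (.a (.b (.l 31) .z) .z) .z)) (.a (.b .z (.l 34)) (.b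
(.a .z (.l 35)) .z))) (.b (.b (.b (.l 31) (.a (.l 31) (.a (.l 31) .z))) (.b .z (.l 35))) (.a (.b (.l 35) (.a .z (.l 35))) (.l 35))))) (.b (.a (.b (.a
(.b (.a .z (.b .z (.l 31))) (.l 31)) (.l 31)) (.l 31)) (.b (.l 31) (.b (.l 31) (.b (.l 31) (.a (.a (.l 31) .z) .z))))) (.b (.b (.a (.b (.a (.l 31) .z)
.z) (.b (.a .z (.l 35)) (.l 35))) (.l 35)) (.l 35)))) (.a (.b (.a (.l 34) (.b (.a (.b .z (.a (.l 34) .z)) (.b (.l 35) (.a .z (.l 35)))) (.a (.l 34)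
(.b .z (.a (.l 34) .z))))) (.l 34)) (.b (.a (.b (.l 35) (.a (.b (.l 35) (.a .z (.l 35))) (.l 35))) (.l 35)) (.a (.b (.a (.b .z (.a (.l 34) .z)) (.b
(.l 35) (.a .z (.l 35)))) (.a (.l 34) (.b .z (.l 34)))) (.b (.l 35) (.a (.b (.a .z (.l 35)) .z) (.b (.l 35) (.a (.l 35) .z)))))))) (.b (.a (.b (.b (.l
31) (.b (.a (.b (.l 31) (.a (.l 31) (.a (.l 31) .z))) (.b (.a (.l 31) .z) .z)) (.a (.b .z (.a .z (.l 35))) (.l 35)))) (.l 35)) (.b (.b (.b (.a (.l 31)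
(.b (.l 31) (.a (.l 31) .z))) (.a (.b (.l 31) (.a (.a (.l 31) .z) .z)) (.b .z (.a .z (.l 35))))) (.b (.a (.b (.a .z (.l 35)) (.l 35)) (.l 35)) (.l
35))) (.a (.l 35) (.b (.a (.l 35) (.b (.l 35) (.a (.l 35) .z))) (.a (.b (.l 35) .z) (.b .z (.a .z (.l 36)))))))) (.a (.b (.a (.l 35) (.b (.l 35) (.a
(.l 35) (.b (.a (.l 35) .z) .z)))) (.a (.b (.a (.l 35) (.b (.l 35) .z)) (.a (.b (.a (.l 35) .z) .z) (.b (.a .z (.l 36)) (.l 36)))) (.b (.a (.b .z (.a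
.z (.l 36))) (.b (.a .z (.l 36)) (.l 36))) (.l 36)))) (.b (.a (.b (.a (.b (.l 35) (.a (.l 35) .z)) (.b .z (.a .z (.l 36)))) (.a (.b .z (.l 36)) (.l
36))) (.b (.a (.b (.a .z (.l 36)) (.l 36)) (.l 36)) (.a (.l 36) (.b (.l 36) .z)))) (.a (.b (.a (.l 36) (.b (.l 36) (.a (.l 36) .z))) (.a (.b (.a (.l
36) .z) .z) (.b .z (.b .z (.l 39))))) (.b (.a (.b (.a (.l 36) .z) .z) (.b (.a .z (.l 36)) (.l 36))) (.b (.b (.a (.l 36) .z) .z) (.l 39)))))))) (.a (.a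
(.b (.l 34) (.b (.b (.b (.a (.l 34) (.b (.l 34) .z)) (.a (.b .z (.a .z (.l 37))) (.b (.a .z (.l 37)) (.l 37)))) (.b (.l 37) (.a (.l 37) (.b (.a (.l
37) .z) .z)))) (.b (.b (.a (.b .z (.a .z (.l 41))) (.b (.a .z (.l 41)) (.l 41))) (.l 41)) (.l 41)))) (.b (.b (.a (.l 34) (.b (.a (.b (.a (.l 34) .z)
(.l 34)) .z) (.a (.l 34) (.b (.a (.l 34) .z) (.l 34))))) (.b (.l 34) (.b (.l 34) (.a (.l 34) (.b (.a (.l 34) .z) .z))))) (.b (.b (.b (.a (.b .z (.a .z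
(.l 37))) (.b (.a .z (.l 37)) (.l 37))) (.l 37)) (.b (.a (.b (.l 37) (.a (.l 37) .z)) (.b (.a (.l 37) .z) .z)) (.a (.b .z (.l 41)) (.l 41)))) (.a (.b
(.l 41) (.a (.l 41) (.b (.l 41) .z))) (.b (.a (.l 41) (.b (.l 41) .z)) (.a (.b .z (.a .z (.l 42))) (.b (.a .z (.l 42)) (.l 42)))))))) (.a (.b (.a (.b
(.b (.l 36) (.a (.b (.a .z (.l 36)) .z) (.b (.a (.l 36) .z) .z))) (.a (.b (.a (.l 34) (.b .z (.l 34))) (.b (.l 34) (.b .z (.l 37)))) (.b (.a .z (.b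
(.l 43) .z)) (.a (.b (.l 34) .z) .z)))) (.b (.b (.a (.b (.l 36) .z) (.b .z (.a .z (.l 39)))) (.a (.b (.a .z (.l 39)) .z) (.b (.l 39) (.b .z (.l
43))))) (.a (.b (.l 43) (.a .z (.b (.l 43) .z))) (.l 43)))) (.a (.b (.b (.b (.l 37) (.b (.l 37) (.a (.l 37) .z))) (.a (.b (.b .z (.l 41)) (.l 41))
.z)) (.b (.a (.b .z (.a .z (.l 42))) (.b (.a .z (.l 42)) (.l 42))) (.l 42))) (.b (.a (.b (.a (.b (.l 37) .z) .z) (.b .z (.l 42))) (.b (.a .z (.b (.l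
43) .z)) (.a (.l 42) .z))) (.l 42)))) (.b (.b (.a (.b (.a (.b (.a .z (.l 39)) (.l 39)) (.l 39)) (.b (.b (.l 39) .z) (.b (.a .z (.l 43)) (.l 43)))) (.b
(.b (.l 39) (.b (.l 39) (.a (.l 39) .z))) (.b (.b .z (.a .z (.l 43))) (.l 43)))) (.l 43)) (.a (.b (.a (.b (.l 43) (.a (.b (.l 43) .z) (.b (.l 43)
.z))) (.b (.l 43) (.b .z (.a .z (.l 44))))) (.a (.b (.a (.b .z (.l 42)) .z) (.l 42)) (.b (.a (.b (.l 44) .z) (.b (.l 44) .z)) (.a (.b .z (.l 42))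
.z)))) (.b (.b (.a (.b (.l 43) .z) (.b .z (.a .z (.l 44)))) (.a (.b (.a .z (.l 44)) (.l 44)) (.b (.l 44) (.a (.l 44) .z)))) (.a (.b (.b (.a (.l 44)
.z) .z) (.a .z (.l 51))) (.b (.b .z (.b (.l 47) .z)) (.l 51)))))))))

theorem vQ164 : ev Q164 I5_14 I6_60 = 380991523194989 := by decide +kernel

noncomputable def Q68 : QT :=
(.b (.b (.a (.l 46) (.a (.a (.b (.a (.b (.a (.b (.a (.l 46) (.b (.a (.l 46) .z) (.l 46))) (.l 46)) (.b (.a (.b .z (.a (.l 46) .z)) .z) (.a (.l 46) (.b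
.z (.a (.l 46) .z))))) (.l 46)) (.b (.a (.b (.l 213) (.a .z (.l 213))) (.a (.b .z (.l 213)) .z)) (.a (.b (.a (.b .z (.a (.l 46) .z)) .z) (.a (.l 46)
(.a (.b .z (.l 46)) .z))) (.a (.b (.l 213) .z) (.l 213))))) (.a (.l 46) (.a (.l 46) (.b (.a (.b (.a (.b .z (.l 46)) .z) (.l 46)) (.b .z (.a (.b .z (.l
46)) .z))) (.l 46))))) (.a (.b (.a (.a (.b (.b (.l 200) .z) .z) (.b (.l 200) (.a .z (.l 200)))) (.a (.l 200) (.a (.l 200) .z))) (.a (.b (.a (.b (.l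
213) .z) .z) (.a (.b (.a (.b .z (.l 46)) .z) (.a (.l 46) (.b .z (.l 46)))) .z)) (.a (.b (.l 200) .z) (.a (.l 200) .z)))) .z)) (.a (.a (.b .z (.a (.b
.z (.b .z (.a .z (.l 220)))) (.b .z (.l 220)))) (.b (.b .z (.a (.b (.a .z (.l 136)) .z) (.b .z (.a .z (.l 220))))) (.b (.a (.b (.a .z (.l 220)) (.l
220)) (.l 220)) (.l 220)))) (.b (.a (.b (.a .z (.b (.a .z (.l 220)) (.l 220))) (.l 220)) (.l 220)) (.l 220))))) (.b (.b (.a (.l 46) (.a (.a (.l 46)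
(.a (.a (.a (.l 46) (.b (.a (.l 46) (.b .z (.l 46))) (.l 46))) (.a (.b .z (.a (.b .z (.l 46)) .z)) .z)) (.a .z (.b .z (.l 220))))) (.l 220))) (.b (.b
(.a (.l 46) (.a (.a (.l 46) (.a (.a (.l 46) (.a (.l 46) .z)) (.a .z (.l 220)))) (.l 220))) (.b (.b (.a (.l 46) (.a (.a (.l 46) (.a (.a (.l 46) .z)
.z)) (.l 220))) .z) (.l 14))) (.l 14))) (.l 14))) (.l 14))

theorem vQ68 : ev Q68 I4_3 I4_5 = 3662094136246228 := by decide +kernel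

noncomputable def Q159 : QT :=
(.b (.b (.b (.a (.b (.a (.b (.a (.b (.a .z (.b (.l 61) .z)) (.a (.l 63) (.b .z (.l 63)))) (.b (.l 61) (.a .z (.b (.l 61) .z)))) (.a (.b (.b (.l 63)
.z) (.b .z (.l 67))) .z)) (.b (.a (.b (.l 61) (.a (.l 61) (.b (.l 61) .z))) (.b (.a (.b (.l 61) .z) .z) (.a .z (.l 62)))) (.a (.b .z (.a (.b .z (.l
65)) .z)) (.b (.l 62) (.b (.l 62) .z))))) (.a (.b (.a (.b (.l 67) (.a (.l 67) .z)) (.b .z (.a (.b .z (.l 63)) .z))) (.a (.b .z (.a .z (.l 71))) (.b .z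
(.b .z (.l 71))))) (.b (.b .z (.a (.a .z (.l 69)) (.l 69))) (.a .z (.b (.l 69) .z))))) (.b (.b (.b (.a (.b (.a .z (.l 62)) (.l 62)) (.l 62)) (.l 62))
(.b (.a (.l 62) (.b (.a (.l 62) (.a (.l 62) .z)) .z)) (.a (.b (.a (.a (.l 62) .z) .z) .z) (.b .z (.a .z (.l 69)))))) (.a (.b (.b (.b .z (.l 69)) (.l
69)) (.l 69)) (.b (.a (.l 69) (.b (.l 69) .z)) (.a (.b (.a (.l 69) .z) .z) (.b (.a .z (.l 70)) (.l 70))))))) (.a (.b (.a (.b (.b (.b (.l 71) (.a (.l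
71) .z)) .z) (.b (.l 75) (.a .z (.l 75)))) (.b (.a (.b .z (.b .z (.l 75))) (.b .z (.a (.l 75) .z))) (.a (.b (.a (.l 75) .z) .z) .z))) .z) (.b (.a (.b
.z (.a .z (.b .z (.b .z (.l 76))))) (.b (.a (.b .z (.b .z (.l 77))) (.b .z (.l 77))) (.a (.b .z (.a (.l 76) .z)) (.b (.l 77) (.a .z (.l 77)))))) (.a
(.b (.b (.b (.l 76) (.a (.l 76) .z)) .z) (.b (.l 83) (.a (.b (.l 83) .z) .z))) (.b (.a (.b (.b (.l 76) .z) (.b .z (.l 83))) .z) .z))))) (.b (.a (.b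
(.a (.b (.a .z (.b (.a .z (.l 85)) .z)) (.b (.a .z (.b (.l 89) .z)) (.a (.b .z (.l 91)) .z))) (.b (.b (.b (.a .z (.l 82)) .z) (.b .z (.a .z (.l 89))))
(.a (.b (.l 89) .z) (.b (.a (.l 89) .z) .z)))) (.a (.b (.a (.b .z (.l 95)) .z) .z) (.b (.a .z (.b .z (.b .z (.l 97)))) .z))) (.b (.a (.b .z (.a (.b .z
(.b .z (.l 90))) (.b .z (.b .z (.l 90))))) (.b (.a .z (.b (.b (.l 84) .z) (.b .z (.l 91)))) (.a (.b .z (.l 90)) .z))) (.b (.a (.b .z (.l 97)) (.a (.b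
(.b .z (.l 97)) .z) .z)) (.a (.b (.a (.l 97) .z) .z) (.a (.b .z (.b .z (.l 105))) (.b .z (.b .z (.l 105)))))))) (.b (.a (.a (.b (.a (.b .z (.b (.l
105) .z)) (.b (.b (.l 103) .z) .z)) (.a (.b (.a (.l 109) .z) .z) .z)) (.b (.a (.b (.a (.l 103) .z) .z) .z) .z)) (.b (.a (.b .z (.b (.a .z (.l 104))
.z)) (.b (.a (.b (.l 105) .z) (.b (.l 105) .z)) .z)) (.a (.b (.a (.b .z (.l 111)) .z) .z) .z))) (.a (.a .z (.b (.b (.a (.b .z (.l 117)) .z) .z) (.a .z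
(.b (.b .z (.l 125)) .z)))) (.b .z (.a (.b (.a (.b .z (.l 125)) .z) (.a (.b (.l 125) .z) .z)) .z)))))) .z)

theorem vQ159 : ev Q159 I5_13 I5_31 = 133038876217056 := by decide +kernel

noncomputable def Q213 : QT :=
(.a (.b (.a (.b .z (.a (.b (.a (.b (.a (.b .z (.b .z (.l 121))) (.b .z (.b .z (.a (.l 121) .z)))) (.a (.l 121) (.a (.b (.l 121) .z) .z))) .z) .z) (.b
.z (.b (.b .z (.b (.a .z (.l 179)) (.a .z (.a (.l 179) .z)))) .z)))) (.b .z (.a (.b .z (.b (.b (.a (.b (.a .z (.l 179)) (.a (.l 179) .z)) .z) (.a (.a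
(.b (.l 179) .z) .z) .z)) .z)) .z))) (.a (.b (.b (.a (.a (.a (.b (.a .z (.b .z (.l 143))) (.l 143)) (.b (.a (.l 143) .z) (.l 143))) (.a (.a (.b .z (.a
(.l 143) .z)) .z) .z)) (.b .z (.a .z (.a (.l 374) .z)))) (.b (.b (.a (.a (.l 143) (.a (.a (.l 143) .z) .z)) (.a .z (.a (.l 374) .z))) (.b (.b (.a (.a
(.l 143) .z) .z) (.b .z (.l 11))) (.l 11))) (.l 11))) (.l 11)) (.b (.b .z (.b (.b .z (.b (.b .z (.b .z (.l 11))) (.l 11))) (.l 11))) (.a (.b (.l 11)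
(.a (.b (.l 11) (.b (.l 11) (.a (.l 11) (.b (.l 11) (.a (.l 11) (.b (.l 11) (.a (.l 11) .z))))))) (.b (.l 11) (.a (.b (.b (.l 11) (.a (.l 11) (.b (.l
11) (.a (.l 11) (.b (.l 11) .z))))) (.b (.a (.b (.l 11) (.a (.l 11) (.b (.l 11) .z))) (.b (.a (.b (.l 11) .z) (.b .z (.a .z (.l 7)))) (.a (.b .z (.a
.z (.l 7))) (.l 7)))) (.a (.b (.a .z (.b .z (.l 7))) (.a (.b (.a .z (.l 7)) (.l 7)) (.l 7))) (.l 7)))) (.b (.a (.b (.l 11) (.b (.a (.b (.l 11) .z) .z)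
(.a (.b .z (.a .z (.l 7))) (.l 7)))) (.b (.b (.a (.l 11) .z) (.a .z (.b (.a .z (.l 7)) (.l 7)))) (.a (.b (.b (.a .z (.l 7)) (.l 7)) (.l 7)) (.b (.l 7)
(.a (.l 7) (.b (.l 7) .z)))))) (.a (.b (.l 7) (.a (.b (.l 7) (.a (.b (.l 7) .z) .z)) (.b (.a (.b (.l 7) .z) .z) (.a .z (.l 14))))) (.b (.a (.b (.l 7)
(.a (.b (.l 7) .z) .z)) (.b .z (.a .z (.l 14)))) (.a (.b (.a .z (.l 14)) (.l 14)) (.l 14))))))))) (.b (.a (.l 11) (.b (.l 11) (.a (.b (.l 11) (.a (.b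
(.l 11) (.b (.l 11) (.a (.l 11) .z))) (.b (.b (.l 11) (.a (.l 11) (.b (.l 11) .z))) (.a (.b .z (.b (.a .z (.l 7)) (.l 7))) (.b (.b .z (.l 7)) (.a (.b
(.l 7) .z) .z)))))) (.b (.a (.b (.l 11) (.b (.l 11) (.a (.l 11) (.b (.l 11) .z)))) (.b (.b (.l 11) (.a (.l 11) (.b (.l 11) .z))) (.a (.b (.b (.l 11)
.z) (.b .z (.a .z (.l 7)))) (.b (.b .z (.a .z (.l 7))) (.a (.b (.l 7) .z) .z))))) (.a (.b (.a (.b (.b (.l 11) .z) (.b .z (.a .z (.l 7)))) (.b (.b .z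
(.a .z (.l 7))) (.a (.b (.l 7) .z) .z))) (.a (.b (.a (.b (.l 7) .z) .z) (.a .z (.l 14))) (.b (.a .z (.l 14)) (.l 14)))) (.b (.a (.b (.a (.b (.l 7) .z)
.z) (.a .z (.l 14))) (.b (.a .z (.l 14)) (.l 14))) (.l 14))))))) (.a (.b (.a (.b (.l 11) (.a (.b (.l 11) (.b (.a (.l 11) (.b (.l 11) .z)) (.a .z (.b
.z (.l 7))))) (.b (.b (.a (.l 11) (.b (.l 11) .z)) (.a (.b (.l 11) .z) (.b .z (.a .z (.l 7))))) (.a (.b (.b .z (.a .z (.l 7))) (.l 7)) (.b (.l 7) (.a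
(.l 7) (.b (.l 7) .z))))))) (.b (.a (.b (.l 11) (.b (.l 11) (.a (.b (.l 11) .z) (.b .z (.a .z (.l 7)))))) (.b (.b (.l 11) (.a (.l 11) .z)) (.a (.b .z
(.b (.a .z (.l 7)) (.l 7))) (.b (.b (.a .z (.l 7)) (.l 7)) (.a (.b (.l 7) .z) .z))))) (.a (.b (.a (.b (.b .z (.a .z (.l 7))) (.l 7)) (.b (.l 7) (.a
(.l 7) (.b (.l 7) .z)))) (.a (.b (.a (.l 7) (.b (.l 7) .z)) .z) (.b .z (.l 14)))) (.b (.a (.b (.a (.l 7) (.b (.l 7) .z)) .z) (.b (.a .z (.l 14)) (.l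
14))) (.l 14))))) (.a (.b (.a (.b (.a (.b (.b (.a .z (.l 7)) (.l 7)) (.l 7)) (.b (.l 7) (.a (.l 7) (.b (.l 7) .z)))) (.a (.b (.a (.l 7) (.b (.l 7)
.z)) .z) (.b .z (.l 14)))) (.b (.a (.b (.a (.l 7) (.b (.l 7) .z)) .z) (.b .z (.l 14))) (.l 14))) (.l 14)) (.l 14))) (.b (.a (.b (.a (.b (.a (.b .z (.b
(.a .z (.l 7)) (.l 7))) (.b (.b (.a .z (.l 7)) (.l 7)) (.a (.b (.l 7) .z) .z))) (.a (.b (.a (.b (.l 7) .z) .z) (.a .z (.l 14))) (.b (.a .z (.l 14))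
(.l 14)))) (.b (.a (.b (.a (.b (.l 7) .z) .z) (.a .z (.l 14))) (.b (.a .z (.l 14)) (.l 14))) (.l 14))) (.l 14)) (.l 14)) (.l 14)))))))) (.b .z (.a (.b
(.a (.b .z (.a (.b (.b .z (.b (.b .z (.b .z (.l 11))) (.l 11))) (.l 11)) (.b (.b .z (.b (.b .z (.b .z (.l 11))) (.l 11))) (.a (.b (.l 11) (.a (.l 11)
(.b (.l 11) (.a (.b (.l 11) .z) .z)))) (.b (.a (.l 11) (.b (.l 11) (.a (.b (.l 11) (.a (.l 11) .z)) (.b (.a (.l 11) .z) .z)))) (.a (.b (.a (.b (.l 11)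
(.a (.l 11) .z)) (.b (.a (.l 11) .z) .z)) (.a (.b .z (.l 14)) (.l 14))) (.b (.a (.b .z (.l 14)) (.l 14)) (.l 14)))))))) (.b .z (.a (.b (.a (.b .z (.a
(.b (.b .z (.b .z (.l 11))) (.l 11)) (.b (.b .z (.b .z (.l 11))) (.a (.b (.l 11) (.a (.l 11) .z)) (.b (.a (.l 11) .z) .z))))) (.b .z (.a (.b .z (.a
(.b .z (.l 14)) .z)) .z))) (.a (.b (.a (.b (.a (.b (.l 11) (.a (.l 11) .z)) (.b (.a (.l 11) .z) .z)) (.a (.b .z (.l 14)) (.l 14))) (.b (.a (.b .z (.l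
14)) (.l 14)) (.l 14))) (.l 14)) (.a (.a (.l 14) .z) .z))) .z))) (.a (.b (.a (.b (.a (.b (.l 11) (.a (.l 11) (.b (.l 11) (.a (.b (.l 11) .z) .z))))
(.b (.a (.l 11) (.b (.l 11) (.a (.b (.l 11) .z) .z))) (.a (.b (.a (.b (.l 11) .z) .z) (.a (.b .z (.l 14)) (.l 14))) (.b (.a (.b .z (.l 14)) (.l 14))
(.l 14))))) (.a (.b (.a (.b (.a (.b (.b (.l 11) .z) (.b .z (.a .z (.l 7)))) (.b (.b .z (.a .z (.l 7))) (.a (.b (.l 7) .z) .z))) (.a (.b (.a (.b (.l 7)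
.z) .z) (.a .z (.l 14))) (.b (.a .z (.l 14)) (.l 14)))) (.b (.a (.b .z (.a .z (.l 14))) (.l 14)) (.l 14))) (.l 14)) (.l 14))) (.b (.a (.b (.a (.b (.a
(.b (.l 11) .z) .z) (.a (.b .z (.l 14)) (.l 14))) (.b (.a (.b .z (.l 14)) (.l 14)) (.l 14))) (.l 14)) (.l 14)) (.l 14))) (.l 14)) (.a (.a (.l 14) (.a
(.a (.l 14) .z) .z)) .z))) .z)))

theorem vQ213 : ev Q213 I4_10 I4_10 = 908728520572654 := by decide +kernel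

noncomputable def Q129 : QT :=
(.b (.b (.b (.a (.b (.a (.b (.l 49) (.a (.b (.a .z (.l 49)) (.a (.b .z (.a (.l 16) .z)) .z)) (.l 49))) (.a (.a (.l 49) (.a (.a (.l 49) .z) (.l 47)))
(.l 47))) (.a (.a (.b (.a (.l 16) (.b (.a (.b .z (.l 16)) .z) (.l 16))) (.l 16)) (.b (.a (.b .z (.a (.b .z (.l 16)) .z)) (.b (.l 49) .z)) (.a (.l 16)
(.b (.a (.b .z (.l 16)) .z) (.l 16))))) (.b (.a (.a (.l 49) (.a .z (.l 47))) (.b (.l 47) (.a (.l 47) .z))) (.a (.b .z (.a (.a (.b .z (.l 16)) .z) .z))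
(.b .z (.a .z (.l 17))))))) (.b (.a (.b (.l 47) (.a (.l 47) (.b (.a (.l 47) .z) (.a .z (.b .z (.l 17)))))) (.b (.a (.b (.a (.l 47) .z) .z) (.b (.a .z
(.l 17)) (.l 17))) (.a (.b (.a (.b .z (.l 17)) (.l 17)) (.l 17)) (.l 17)))) (.a (.b (.a (.b .z (.a .z (.l 17))) (.b (.a (.b .z (.l 17)) (.l 17)) (.l
17))) (.l 17)) (.l 17)))) (.a (.b (.a (.b (.a (.l 16) (.b (.l 16) (.a (.l 16) (.b (.a (.l 16) .z) .z)))) (.a (.b (.a (.l 16) (.b (.l 16) (.a (.l 16)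
.z))) (.a (.b (.l 16) (.a (.l 16) .z)) .z)) (.b (.a (.b (.a (.l 16) .z) .z) (.b .z (.l 17))) (.l 17)))) (.b (.a (.b (.a (.b (.a (.l 16) .z) .z) (.b .z
(.l 17))) (.a (.b .z (.l 17)) (.l 17))) (.l 17)) (.l 17))) (.a (.b (.a (.b (.a .z (.l 17)) (.l 17)) (.l 17)) (.l 17)) (.l 17))) (.l 17))) (.b (.b (.l
17) (.a (.b (.l 17) (.a (.b (.a (.b (.a .z (.l 17)) .z) (.l 17)) (.a (.b (.a (.l 19) .z) (.l 19)) (.b .z (.a (.l 19) .z)))) (.b (.l 17) (.a (.b (.l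
17) (.a .z (.l 17))) (.l 17))))) (.l 17))) (.b (.a (.b (.a (.l 19) (.b (.a (.b .z (.a (.l 19) .z)) (.b (.l 17) .z)) (.a (.l 19) (.b (.a (.l 19) .z)
(.l 19))))) (.l 19)) (.b (.a (.b (.l 17) (.a (.b (.a .z (.l 17)) .z) (.l 17))) (.l 17)) (.a (.b (.a (.b (.a (.l 19) .z) (.l 19)) (.b (.a .z (.l 17))
.z)) (.l 19)) (.b (.a (.b (.l 17) (.a .z (.l 17))) (.l 17)) (.a (.b .z (.a (.l 19) .z)) (.b (.l 17) (.a .z (.l 17)))))))) (.a (.l 19) (.b (.a (.l 19)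
(.b (.a (.l 19) (.b .z (.a (.l 19) .z))) (.l 19))) (.l 19)))))) (.b (.b (.b (.b (.l 19) (.a (.l 19) (.b (.l 19) (.a (.l 19) (.b (.l 19) (.a (.a (.l
19) .z) .z)))))) (.b (.a (.b (.l 19) (.a (.b (.l 19) (.a (.l 19) (.a (.l 19) .z))) (.b (.a (.l 19) .z) .z))) (.b (.a (.b (.a (.l 19) (.a (.l 19) .z))
.z) (.b (.a .z (.l 65)) (.l 65))) (.a (.b (.a .z (.l 65)) (.l 65)) (.l 65)))) (.a (.b (.a (.b (.a (.a (.l 19) .z) .z) .z) (.a .z (.l 65))) (.a (.l 67)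
(.a .z (.l 65)))) (.l 65)))) (.a (.b (.a (.l 67) (.a (.a (.l 67) (.a .z (.l 65))) (.l 65))) (.a (.b (.a (.b .z (.a (.b .z (.l 22)) .z)) (.l 67)) (.a
(.b (.a (.l 22) (.b .z (.l 22))) (.l 22)) (.b .z (.a (.l 22) .z)))) (.b (.a (.a (.l 67) (.a .z (.l 65))) (.l 65)) (.a .z (.b (.l 65) .z))))) (.b (.a
(.l 65) (.b (.a (.l 65) (.b (.l 65) .z)) (.a (.b (.a (.l 65) .z) (.a .z (.b .z (.l 23)))) (.b (.a .z (.l 23)) (.l 23))))) (.a (.b (.a (.b (.l 65) (.a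
(.l 65) .z)) (.b .z (.a .z (.l 23)))) (.a (.b (.a .z (.b .z (.l 23))) (.a (.b .z (.l 23)) (.l 23))) (.l 23))) (.b (.a (.b (.a (.b .z (.l 23)) (.l 23))
(.l 23)) (.l 23)) (.l 23)))))) (.b (.a (.b (.a (.b (.a (.l 22) (.b (.l 22) (.a (.l 22) (.b (.l 22) .z)))) (.a (.b (.l 22) (.a (.l 22) .z)) (.b (.a (.b
(.l 22) .z) .z) (.a (.b .z (.l 23)) (.l 23))))) (.b (.a (.b .z (.a .z (.b .z (.l 23)))) (.b (.a .z (.l 23)) (.l 23))) (.l 23))) (.a (.b (.a (.b (.a .z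
(.b .z (.l 23))) (.l 23)) (.l 23)) (.l 23)) (.l 23))) (.l 23)) (.b (.a (.b (.a (.b (.a (.b (.l 23) (.a .z (.l 23))) (.l 23)) (.a (.b .z (.a (.l 25)
.z)) (.b (.l 23) .z))) (.l 23)) (.a (.b (.a (.l 25) (.b (.a (.l 25) .z) (.l 25))) (.l 25)) (.b (.a (.b (.a .z (.l 23)) .z) (.b (.l 23) (.a .z (.l
23)))) (.a (.l 25) (.b .z (.a (.l 25) .z)))))) (.b (.l 23) (.a (.b (.l 23) (.a (.b (.l 23) .z) (.l 23))) (.l 23)))) (.a (.l 25) (.b (.a (.b (.a (.b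
(.a (.l 25) .z) (.l 25)) (.b (.a .z (.l 23)) .z)) (.l 25)) (.b (.a (.b (.l 23) (.a .z (.l 23))) (.l 23)) (.a (.b .z (.a (.l 25) .z)) (.b (.l 23) (.a
.z (.l 23)))))) (.a (.l 25) (.b (.a (.l 25) (.b .z (.l 25))) (.l 25)))))))))

theorem vQ129 : ev Q129 I6_21 I5_28 = 432966034914482 := by decide +kernel

noncomputable def Q212 : QT :=
(.b (.b (.b (.a (.b (.a (.b .z (.b (.a (.b .z (.l 67)) (.l 67)) (.a (.b (.l 67) .z) .z))) (.b (.a (.b (.l 71) .z) (.b (.l 71) (.a (.l 71) .z))) (.a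
(.b (.a (.l 67) .z) .z) .z))) (.a (.b .z (.a (.b .z (.l 79)) (.b (.b .z (.l 79)) (.a (.l 79) .z)))) (.b (.a .z (.b .z (.a .z (.b .z (.l 65))))) (.a
(.b .z (.a .z (.b (.l 65) .z))) (.b (.a (.b (.l 65) .z) .z) .z))))) (.b (.a (.b (.a (.b .z (.a .z (.b (.l 62) .z))) (.b (.a (.b .z (.l 62)) .z) .z))
(.a (.b (.a (.b (.l 62) .z) .z) .z) (.b .z (.b .z (.l 83))))) (.b (.a (.b .z (.b .z (.l 77))) .z) (.b (.a .z (.b .z (.l 83))) (.l 83)))) (.a (.b (.a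
.z (.b (.l 83) (.a .z (.l 83)))) .z) (.b (.a (.b (.l 83) (.a (.l 83) .z)) .z) .z)))) (.a (.b (.a (.b (.a (.b (.a (.l 79) .z) .z) .z) .z) (.b (.a .z
(.b (.b .z (.l 79)) (.b (.l 79) .z))) .z)) (.a (.b (.b .z (.a (.b (.l 91) .z) (.l 91))) (.a .z (.b (.a .z (.l 91)) .z))) (.b (.a (.b (.b .z (.l 91))
(.l 91)) (.b (.l 91) (.a (.l 91) .z))) (.a (.b (.a (.l 91) .z) .z) .z)))) (.a (.b (.b (.b (.b (.l 79) (.a (.l 79) .z)) .z) (.a (.b .z (.b .z (.l 91)))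
.z)) .z) (.b (.b (.a .z (.b (.l 95) (.a .z (.l 95)))) .z) .z)))) (.b (.a (.b (.a (.b .z (.a (.b (.a (.l 99) .z) .z) .z)) .z) (.b (.a .z (.a (.b .z (.b
.z (.l 111))) .z)) (.a (.b (.a (.b (.l 111) .z) (.l 111)) (.a .z (.b (.l 111) .z))) .z))) (.b (.a (.b (.a (.b (.l 103) (.a .z (.l 103))) (.b (.l 103)
.z)) .z) (.b .z (.a (.b .z (.l 115)) (.b (.b .z (.l 115)) .z)))) .z)) (.a (.b (.b (.a .z (.b (.a .z (.b .z (.l 123))) (.a .z (.b (.l 123) .z)))) .z)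
(.b (.a (.b (.a (.b .z (.l 131)) (.b (.l 131) .z)) .z) .z) .z)) (.b (.a (.b (.b (.a (.b (.l 123) .z) .z) .z) .z) .z) .z)))) .z)

theorem vQ212 : ev Q212 I5_19 I5_31 = 66758065914361 := by decide +kernel

noncomputable def Q170 : QT :=
(.b .z (.a (.b (.a (.b (.a (.b .z (.b (.a (.b (.a .z (.l 109)) (.a .z (.l 109))) (.l 109)) (.a (.a .z (.l 109)) (.l 109)))) (.b .z (.a (.b (.a (.b .z
(.l 109)) .z) (.l 109)) (.b .z (.a (.b .z (.l 109)) .z))))) (.b (.a (.a (.a (.a .z (.a .z (.l 109))) (.l 109)) (.l 109)) (.a (.l 109) (.b (.a (.l 109)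
(.b (.l 109) .z)) (.a .z (.b .z (.l 79)))))) (.a (.a (.a (.a .z (.a .z (.l 109))) (.l 109)) (.b (.l 109) (.a (.l 109) (.b (.l 109) .z)))) (.b (.a (.a
(.b (.l 109) .z) .z) (.a (.b .z (.l 79)) (.l 79))) (.a (.a .z (.l 79)) (.b (.l 79) (.a (.l 79) .z))))))) (.b .z (.a (.b (.a (.b .z (.a (.a (.l 79) .z)
.z)) .z) .z) .z))) (.b (.a (.b (.a (.b (.a (.a .z (.l 109)) (.a (.a (.l 109) .z) .z)) (.a (.a .z (.a (.l 109) .z)) (.b (.a .z (.l 79)) .z))) (.b (.a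
(.b (.l 79) (.a (.l 79) .z)) .z) .z)) (.a (.b (.a .z (.b .z (.a .z (.l 80)))) (.a (.b .z (.a .z (.l 80))) (.l 80))) (.b (.a (.l 80) (.a (.b .z (.l
80)) .z)) (.a (.l 80) (.b (.l 80) .z))))) .z) (.a (.a (.a (.b (.a (.b (.a .z (.l 80)) .z) (.b (.b (.l 80) .z) .z)) .z) (.b (.b (.b (.l 80) .z) .z)
.z)) (.b .z (.b .z (.b .z (.a .z (.l 238)))))) .z))) .z))

theorem vQ170 : ev Q170 I5_17 I4_8 = 91552309082411 := by decide +kernel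

noncomputable def Q105 : QT :=
(.b .z (.a (.b (.a (.b .z (.b (.b .z (.b (.b .z (.b .z (.l 14))) (.l 14))) (.a (.l 14) (.b (.a (.l 14) (.b (.l 14) (.a (.l 14) (.b (.a (.l 14) (.b (.l
14) (.a (.l 14) .z))) (.a (.b (.l 14) (.a (.l 14) .z)) (.b (.a .z (.b .z (.l 10))) (.a (.b .z (.l 10)) (.l 10)))))))) (.a (.b (.l 14) (.a (.l 14) (.b
(.a (.l 14) (.b (.l 14) (.a (.b (.l 14) .z) .z))) (.a (.b (.a (.l 14) (.b (.l 14) .z)) (.a (.b (.l 14) .z) .z)) (.b (.a .z (.l 10)) (.l 10)))))) (.b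
(.a (.b (.a (.l 14) (.b (.l 14) (.a (.l 14) .z))) (.a (.b (.l 14) (.a (.l 14) .z)) (.b (.a .z (.b .z (.l 10))) (.a (.b .z (.l 10)) (.l 10))))) (.b (.a
(.b (.a .z (.b .z (.l 10))) (.a (.b .z (.l 10)) (.l 10))) (.l 10)) (.l 10))) (.a (.b (.a (.b (.a .z (.b .z (.l 10))) (.a (.b .z (.l 10)) (.l 10))) (.l
10)) (.l 10)) (.l 10)))))))) (.b .z (.a (.b (.a (.b .z (.b (.b .z (.b .z (.l 14))) (.a (.l 14) (.b (.a (.l 14) (.b (.l 14) (.a (.l 14) .z))) (.a (.b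
(.l 14) (.a (.l 14) .z)) (.b (.a .z (.b .z (.l 10))) (.a (.b .z (.l 10)) (.l 10)))))))) (.b .z (.a (.b (.a (.b .z (.b .z (.a (.l 14) .z))) .z) (.b (.a
(.b (.a .z (.b .z (.l 10))) (.a (.b .z (.l 10)) (.l 10))) (.a (.a (.l 10) .z) .z)) (.a (.l 10) (.a (.a (.l 10) .z) .z)))) .z))) (.b (.a (.b (.a (.b
(.a (.l 14) (.b (.l 14) (.a (.l 14) .z))) (.a (.b (.l 14) (.a (.l 14) .z)) (.b (.a .z (.b .z (.l 10))) (.a (.b .z (.l 10)) (.l 10))))) (.b (.a (.b (.a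
.z (.b .z (.l 10))) (.a (.b .z (.l 10)) (.l 10))) (.l 10)) (.l 10))) (.a (.b (.a (.b (.a .z (.b .z (.l 10))) (.a (.b .z (.l 10)) (.l 10))) (.l 10))
(.l 10)) (.l 10))) (.a (.a (.l 10) (.a (.a (.l 10) .z) .z)) .z)) (.a (.l 10) (.a (.a (.l 10) (.a (.a (.l 10) .z) .z)) .z)))) .z))) (.b (.a (.b (.a (.b
(.a (.l 14) (.b (.l 14) (.a (.l 14) (.b (.a (.l 14) (.b (.a (.l 14) (.b (.l 14) .z)) (.a (.b (.l 14) .z) .z))) (.a (.b (.a (.l 14) (.b (.l 14) .z))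
(.a (.b (.l 14) .z) .z)) (.b (.a .z (.l 10)) (.l 10))))))) (.a (.b (.l 14) (.a (.l 14) (.b (.a (.l 14) (.b (.a (.l 14) .z) (.a .z (.b .z (.l 10)))))
(.a (.b (.a (.l 14) .z) (.a .z (.b .z (.l 10)))) (.b (.a (.b .z (.l 10)) (.l 10)) (.l 10)))))) (.b (.a (.b (.a (.l 14) (.b (.a (.l 14) (.b (.l 14)
.z)) (.a .z (.b .z (.l 10))))) (.a (.b (.a (.l 14) .z) (.a .z (.b .z (.l 10)))) (.b (.a (.b .z (.l 10)) (.l 10)) (.l 10)))) (.b (.a (.b (.a .z (.l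
10)) (.l 10)) (.l 10)) (.l 10))) (.a (.b (.a (.b (.a (.b .z (.l 10)) (.l 10)) (.l 10)) (.l 10)) (.l 10)) (.l 10))))) (.b (.a (.b (.a (.b (.a (.l 14)
(.b (.a (.l 14) (.b (.l 14) .z)) (.a (.b (.l 14) .z) .z))) (.a (.b (.a (.l 14) (.b (.l 14) .z)) (.a (.b (.l 14) .z) .z)) (.b (.a .z (.l 10)) (.l
10)))) (.b (.a (.b (.a .z (.l 10)) (.l 10)) (.l 10)) (.l 10))) (.a (.b (.a (.b (.a .z (.l 10)) (.l 10)) (.l 10)) (.l 10)) (.l 10))) (.l 10)) (.l 10)))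
(.a (.b (.a (.b (.a (.b (.a (.b (.l 14) (.a (.l 14) (.b (.l 14) .z))) (.b (.a (.b (.l 14) .z) .z) (.a .z (.l 10)))) (.a (.b (.a (.b (.l 14) .z) .z)
(.a .z (.l 10))) (.l 10))) (.b (.a (.b (.a (.b .z (.l 10)) (.l 10)) (.l 10)) (.l 10)) (.l 10))) (.l 10)) (.l 10)) (.l 10)) (.l 10))) (.a (.a (.l 10)
(.a (.a (.l 10) (.a (.a (.l 10) .z) .z)) .z)) .z)) (.a (.l 10) (.a (.a (.l 10) (.a (.a (.l 10) (.a (.a (.l 10) .z) .z)) .z)) .z)))) .z))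

theorem vQ105 : ev Q105 I4_5 I3_2 = 846501548770874 := by decide +kernel

end Pool.Agent.Helper64.SPW.Dat
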