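import Pool.Agent.Helper64.SPW.Iv

/-! Boxes of traces, part 9 (data and kernel evaluation). -/

set_option maxRecDepth 1000000
set_option maxHeartbeats 0

namespace Pool.Agent.Helper64.SPW.Dat

noncomputable def Q135 : QT :=
(.b (.b (.b (.a (.b (.b (.b (.a (.l 33) (.b (.a .z (.b (.l 31) .z)) (.a (.l 33) (.b .z (.l 33))))) (.l 33)) (.b (.b (.b (.l 33) (.a (.l 33) (.a (.l
33) .z))) (.b (.a (.a (.l 33) .z) .z) (.a .z (.l 37)))) (.l 37))) (.b (.l 37) (.b (.a (.b (.l 37) (.a .z (.b (.l 37) .z))) (.l 37)) (.a (.b (.a (.l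
39) (.b .z (.l 39))) (.l 39)) (.b (.a .z (.b (.l 37) .z)) (.a (.b (.l 39) .z) .z)))))) (.b (.a (.b (.b (.b (.l 31) (.a .z (.b (.l 31) (.a .z (.l
31))))) (.b (.a (.l 33) (.b .z (.l 33))) (.l 33))) (.b (.b (.b (.a (.l 33) .z) .z) (.l 37)) (.l 37))) (.b (.b (.l 31) (.b (.a (.b (.a .z (.l 31)) .z)
(.l 31)) (.a (.b .z (.l 33)) .z))) (.a (.b (.b (.b .z (.l 37)) (.l 37)) (.a (.l 37) (.b (.l 37) .z))) (.b .z (.a (.b .z (.a .z (.l 28))) (.l 28))))))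
(.a (.b (.a (.l 37) (.b (.l 37) (.a (.l 37) .z))) (.a (.b (.l 37) (.a (.b (.l 37) .z) .z)) (.b (.a .z (.b (.a .z (.l 28)) (.l 28))) (.a (.b (.a .z (.l
28)) (.b (.l 28) .z)) (.b (.l 28) (.b (.l 28) .z)))))) (.b (.a (.b (.a (.b (.l 37) .z) (.b .z (.a .z (.l 28)))) (.a (.b (.a .z (.l 28)) (.l 28)) (.l
28))) (.l 28)) (.l 28))))) (.a (.b (.a (.b (.b (.b (.b .z (.l 43)) (.l 43)) (.l 43)) (.b (.l 43) (.b (.l 43) (.b (.a .z (.l 43)) .z)))) (.b (.a (.b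
(.b (.b .z (.l 43)) (.l 43)) (.l 43)) (.b (.a (.l 43) (.b (.l 43) .z)) (.a (.b (.l 43) .z) .z))) (.a (.b (.a (.l 43) (.b (.l 43) .z)) (.a .z (.b .z
(.l 34)))) (.b (.a .z (.l 34)) (.l 34))))) (.a (.b (.a (.b (.b (.b (.l 45) .z) (.l 49)) (.l 49)) (.b (.a (.b .z (.l 49)) .z) (.a .z (.b .z (.l 34)))))
(.a (.b (.a (.l 49) .z) (.a .z (.b .z (.l 40)))) (.b (.a (.b .z (.l 40)) .z) (.l 40)))) (.b (.a (.b (.a (.b .z (.l 34)) (.l 34)) (.l 34)) (.l 34)) (.b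
(.a (.b (.b (.l 34) .z) (.a .z (.l 37))) (.b (.b (.l 34) .z) (.b .z (.l 37)))) (.a (.b .z (.l 40)) (.b (.a .z (.l 37)) .z)))))) (.b (.a (.b (.a (.b
(.a .z (.b .z (.l 34))) (.l 34)) (.b (.b (.a .z (.b .z (.l 31))) .z) (.b (.a (.l 34) .z) (.l 34)))) (.l 34)) (.b (.b (.b (.a (.b (.a .z (.l 28)) .z)
(.b (.l 28) (.a .z (.l 28)))) (.a (.l 31) (.b .z (.l 31)))) (.a (.b (.a .z (.l 31)) .z) (.l 31))) (.a (.b (.b (.a (.l 34) .z) (.l 34)) (.l 34)) (.b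
(.b (.a .z (.l 31)) .z) (.a (.l 34) (.b .z (.l 34))))))) (.a (.b (.l 34) (.a (.b (.b (.l 34) .z) (.l 37)) (.b (.a (.b (.l 34) .z) (.b (.l 34) .z))
.z))) (.b (.a (.b (.l 34) (.a (.l 34) (.b (.l 34) .z))) (.b (.a (.b (.l 34) .z) .z) (.a .z (.b .z (.l 35))))) (.a (.b (.a .z (.b .z (.l 35))) (.b .z
(.l 41))) (.b (.b (.l 35) (.b (.l 35) .z)) (.b .z (.b .z (.l 41)))))))))) (.a (.b (.a (.b (.a (.b (.b (.a (.b .z (.l 40)) (.l 40)) (.l 40)) (.b (.b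
(.l 40) (.b (.l 40) .z)) .z)) (.b (.l 40) (.b (.l 40) (.b .z (.l 43))))) (.b (.a (.b (.b (.a (.l 46) .z) (.l 46)) (.l 46)) (.b (.a (.b .z (.l 46)) .z)
(.a .z (.b .z (.l 47))))) (.a (.b (.a (.b (.l 46) .z) .z) .z) (.b (.a (.b .z (.l 47)) (.l 47)) (.b (.l 47) (.b .z (.l 47))))))) (.b (.b (.a (.l 40)
(.b (.b (.a (.l 40) .z) (.l 40)) (.a (.l 40) (.b (.l 40) .z)))) (.a (.b (.l 40) .z) (.b (.a .z (.b .z (.l 41))) (.a (.b .z (.l 41)) (.b .z (.l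
41)))))) (.b (.a (.b (.a .z (.b (.l 41) .z)) (.l 47)) (.b (.b (.b (.l 41) .z) .z) (.b (.b .z (.l 47)) (.l 47)))) (.b (.l 47) (.b (.b (.l 47) (.a (.l
47) .z)) (.b .z (.l 47))))))) (.b (.b (.b (.b (.b (.l 47) (.a (.a (.l 47) .z) .z)) (.a .z (.l 51))) (.b (.a (.b (.a (.l 53) .z) (.l 53)) (.b (.a .z
(.l 51)) .z)) (.l 53))) (.b (.b (.l 53) (.b (.a (.a (.l 53) .z) .z) (.a .z (.l 53)))) (.b (.b (.a (.l 53) (.a (.l 53) .z)) .z) (.b (.a (.a .z (.l 57))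
(.l 57)) (.l 57))))) (.b (.b (.b (.a (.b .z (.a (.l 59) .z)) (.b (.l 57) (.a .z (.l 57)))) (.a (.l 59) (.b .z (.l 59)))) (.b (.b (.a (.a (.l 59) .z)
.z) (.a .z (.l 59))) (.b (.a (.a (.l 59) .z) .z) (.a .z (.l 63))))) (.b (.b (.l 63) (.a (.b (.a .z (.l 63)) .z) (.b (.l 63) (.a .z (.l 63))))) (.b (.a
(.b (.l 65) .z) .z) (.b (.a (.a (.l 65) .z) .z) (.a .z (.l 69)))))))) (.b (.b (.a (.b (.a (.b .z (.a .z (.b .z (.l 41)))) (.b (.a (.b .z (.l 41)) (.l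
41)) (.l 41))) (.b (.l 41) (.b (.b (.a (.l 41) .z) .z) (.l 41)))) (.b (.l 41) (.b (.b (.l 41) (.b (.l 41) (.a (.l 41) .z))) (.b (.b .z (.l 41)) (.l
41))))) (.b (.b (.b (.b (.a (.l 41) .z) (.a .z (.a .z (.l 45)))) (.l 45)) (.b (.a (.b (.a .z (.l 45)) .z) (.b (.l 45) (.a .z (.l 45)))) (.a (.l 47)
(.b .z (.a (.l 47) .z))))) (.b (.l 47) (.b (.b (.a (.l 47) .z) (.a .z (.a .z (.l 47)))) (.b (.l 47) (.a (.l 47) (.a (.l 47) .z))))))) (.b (.b (.b (.b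
(.b .z (.a (.a .z (.l 51)) (.l 51))) (.l 51)) (.b (.a (.b (.l 51) (.a .z (.l 51))) (.l 51)) (.a (.b .z (.a (.l 53) .z)) (.b (.l 51) (.a .z (.l
51)))))) (.b (.b (.a (.b (.l 53) .z) .z) (.b (.a (.a .z (.l 53)) (.l 53)) (.a (.l 53) (.a (.l 53) .z)))) (.b (.b .z (.l 57)) (.l 57)))) (.b (.a (.b
(.b (.l 57) (.b (.a .z (.l 57)) .z)) (.b (.b .z (.a (.l 59) .z)) (.b .z (.l 63)))) (.b (.a (.l 57) (.b (.l 57) (.a (.l 57) .z))) (.a (.b .z (.a (.l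
63) .z)) .z))) (.a (.b (.a (.l 63) (.b (.l 63) (.a (.l 63) .z))) (.a (.b (.b (.l 63) .z) .z) .z)) (.b (.a (.b .z (.a .z (.l 61))) (.b (.b .z (.l 61))
(.l 61))) (.b (.l 61) (.b (.l 61) .z))))))))) (.b (.b (.a (.b (.a (.b (.b (.b (.l 69) (.b (.l 69) .z)) (.b .z (.l 75))) (.a (.b (.b (.l 75) .z) (.a
(.l 81) .z)) .z)) (.b (.b (.a (.l 69) (.b (.l 69) .z)) .z) (.a (.b .z (.b (.l 73) .z)) (.b .z (.b (.l 73) .z))))) (.a (.b (.a .z (.b (.b .z (.l 79))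
.z)) (.b (.b (.b (.l 85) .z) .z) (.b .z (.b .z (.l 95))))) (.b (.b (.b .z (.b .z (.l 79))) (.b .z (.b (.l 83) .z))) (.b (.b .z (.b .z (.l 89))) .z))))
(.b (.a (.b (.b (.a .z (.b (.b (.l 61) .z) .z)) (.b (.l 67) (.b (.l 67) .z))) (.b .z (.b (.l 73) .z))) (.b (.b (.b (.b (.a (.l 61) .z) .z) (.b (.a .z
(.l 65)) .z)) (.b (.b .z (.l 67)) .z)) (.b (.b (.b .z (.l 71)) (.b (.l 71) .z)) .z))) (.b (.a (.b (.b (.l 77) .z) (.b .z (.l 83))) (.b (.a (.b (.l 77)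
.z) (.b (.l 77) .z)) .z)) (.a (.b (.a (.b .z (.l 89)) .z) .z) .z)))) (.b (.a (.b (.a (.b (.b .z (.b .z (.l 101))) .z) .z) (.a .z (.b (.a .z (.b .z (.l
99))) .z))) (.b (.a (.b .z (.a .z (.b .z (.l 93)))) .z) (.a .z (.b (.b (.b .z (.l 97)) .z) .z)))) (.a (.b (.a .z (.b (.b .z (.b .z (.l 115))) .z)) .z)
.z))) .z))

theorem vQ135 : ev Q135 I6_23 I4_15 = 375269428466601 := by decide +kernel

noncomputable def Q45 : QT :=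
(.a (.b (.b (.a (.b (.b (.a (.l 52) (.a (.b (.l 52) (.b (.l 52) (.a (.l 52) .z))) (.b (.a (.l 52) .z) (.a (.b .z (.a .z (.l 26))) (.b (.a .z (.l 26))
(.l 26)))))) (.a (.b (.b (.a (.l 52) (.a (.l 52) .z)) (.a (.a (.l 52) .z) .z)) (.b (.a .z (.a .z (.l 26))) (.a (.l 56) .z))) (.b (.a (.b (.a .z (.a .z
(.l 26))) (.l 26)) (.l 26)) (.a (.b (.l 26) (.a .z (.l 26))) (.l 26))))) (.b (.a (.l 56) (.b (.a (.b .z (.a (.l 56) .z)) (.a (.b (.l 26) .z) (.l 26)))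
(.a (.l 56) (.a (.b .z (.l 56)) .z)))) (.a (.l 56) (.a (.l 56) (.b (.l 56) (.a (.l 56) (.b (.l 56) .z))))))) (.b (.a (.b (.a (.b (.a (.b .z (.l 26))
(.l 26)) (.l 26)) (.l 26)) (.l 26)) (.l 26)) (.a (.b (.a (.b (.l 26) (.a (.b (.l 26) (.a .z (.l 26))) (.l 26))) (.l 26)) (.a (.b (.a .z (.b (.l 26)
.z)) .z) (.b (.l 26) (.a (.b (.a .z (.l 26)) .z) (.l 26))))) (.l 26)))) (.a (.b (.b (.a (.b (.l 56) (.b (.l 56) (.a (.l 56) (.a (.l 56) .z)))) (.a (.b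
(.l 56) .z) .z)) (.a (.b (.b (.a (.a (.l 56) .z) .z) .z) (.b (.a (.l 60) .z) (.l 60))) (.a .z (.b (.l 184) .z)))) (.b (.a (.l 60) (.a (.b (.a (.l 60)
(.b .z (.l 60))) (.l 60)) (.b .z (.a (.b .z (.l 60)) .z)))) (.a (.l 60) (.a (.b (.l 60) (.b (.l 60) (.a (.l 60) .z))) (.b (.a (.b (.l 60) .z) .z) (.a
(.b .z (.a .z (.l 30))) (.l 30))))))) (.a (.b (.b (.a (.b .z (.l 184)) (.b (.a .z (.b (.a .z (.l 26)) .z)) .z)) (.a (.l 184) (.b .z (.a .z (.a .z (.b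
.z (.l 30))))))) (.b (.a (.b .z (.a .z (.b .z (.a .z (.l 30))))) (.b (.a (.b .z (.a .z (.l 30))) (.l 30)) (.l 30))) (.a (.b (.a (.b (.a .z (.l 30))
(.l 30)) (.l 30)) (.l 30)) (.l 30)))) (.b (.a (.b (.a (.b (.l 26) (.a .z (.b (.l 26) .z))) (.l 26)) (.a (.b (.a .z (.b .z (.l 30))) (.l 30)) (.b (.a
.z (.b (.l 26) .z)) (.a (.l 30) (.b .z (.l 30)))))) (.b (.l 26) (.a (.b (.l 26) (.a .z (.l 26))) (.l 26)))) (.a (.l 30) (.b (.a (.b (.a (.b .z (.l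
30)) .z) (.l 30)) (.b (.a (.b (.l 26) .z) (.l 26)) (.a (.b .z (.l 30)) .z))) (.a (.l 30) (.b (.a (.l 30) (.b .z (.l 30))) (.l 30))))))))) (.b (.a (.b
(.b (.a (.b (.b (.l 60) (.a (.l 60) .z)) (.b (.a .z (.a (.a .z (.l 30)) (.l 30))) (.a (.l 64) .z))) (.a (.b (.b (.a .z (.a .z (.l 30))) (.a (.a .z (.l
30)) (.l 30))) (.b (.l 30) (.a (.a .z (.l 30)) (.l 30)))) (.l 30))) (.a (.l 64) (.a (.b (.b (.a .z (.a .z (.l 30))) (.a (.l 64) .z)) (.l 64)) (.b (.a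
(.b (.l 30) (.a .z (.l 30))) (.l 30)) (.a (.b .z (.l 64)) (.b (.a .z (.l 30)) .z)))))) (.b (.a (.l 64) (.a (.b (.l 64) (.b (.a (.l 64) .z) (.a (.l 64)
.z))) (.b (.a (.b (.l 64) .z) .z) .z))) (.a (.b (.b (.a (.l 64) (.a (.l 64) .z)) (.a (.l 64) .z)) (.b .z (.a (.l 68) .z))) .z))) (.a (.b (.l 30) (.b
(.a (.b (.a (.b (.a .z (.l 30)) .z) (.b (.l 30) (.a .z (.l 30)))) .z) (.a (.b (.l 30) (.b (.l 30) (.a .z (.l 30)))) (.l 30))) (.a .z (.a .z (.b (.a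
(.b (.l 30) .z) (.l 30)) .z))))) (.b (.l 30) (.a (.b (.l 30) (.a (.b (.l 30) (.a (.b (.l 30) .z) (.l 30))) (.l 30))) (.l 30))))) (.a (.b (.b (.a (.b
(.b (.a (.l 68) .z) (.l 68)) (.l 68)) (.a (.b .z (.a (.l 68) .z)) .z)) (.a (.b (.l 68) (.b (.l 68) (.a (.l 68) .z))) (.a (.b (.b (.l 68) .z) (.b .z
(.a .z (.l 34)))) (.b (.a .z (.b .z (.l 34))) (.l 34))))) (.b (.a (.b (.b .z (.a .z (.a .z (.l 34)))) (.b (.a (.l 72) .z) (.l 72))) (.a (.b (.l 34)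
(.b (.a .z (.l 34)) .z)) (.l 34))) (.a (.l 72) (.a (.b (.b .z (.l 72)) (.a (.l 72) .z)) (.b (.a .z (.b (.l 34) .z)) .z))))) (.a (.b (.b (.a (.b .z (.a
(.b .z (.l 34)) (.l 34))) (.l 34)) (.l 34)) (.b (.l 34) (.a (.b (.l 34) (.a (.b (.l 34) .z) (.l 34))) (.l 34)))) (.b (.a (.b (.a (.b .z (.l 34)) (.b
(.a (.b (.l 30) .z) (.l 30)) (.a .z (.b (.l 30) .z)))) (.a (.l 34) (.b (.a (.l 34) .z) (.l 34)))) (.b (.l 30) (.a (.b (.a .z (.b (.l 30) .z)) (.a (.l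
34) .z)) (.b (.l 30) (.a (.b (.l 30) .z) (.l 30)))))) (.a (.l 34) (.b (.a (.l 34) (.b .z (.a (.l 34) .z))) (.l 34)))))))) (.a (.b (.b (.a (.b (.a (.l
26) (.b (.a (.l 26) (.b (.a (.l 26) .z) (.l 26))) (.l 26))) (.l 26)) (.b (.a (.b (.a (.b (.a (.b (.l 22) .z) (.l 22)) (.a (.b .z (.l 26)) .z)) (.l
22)) (.a (.b (.a (.l 26) (.b .z (.l 26))) (.l 26)) (.b (.a .z (.l 22)) (.a (.b .z (.l 26)) .z)))) (.l 22)) (.a (.b (.a (.l 26) (.b (.a (.l 26) (.b .z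
(.l 26))) (.l 26))) (.l 26)) (.b (.a (.b (.a .z (.b (.l 22) .z)) (.a (.l 26) .z)) (.b (.l 22) (.a (.b (.l 22) .z) (.l 22)))) (.a (.l 26) (.b (.a .z
(.a .z (.l 22))) (.a (.l 26) .z))))))) (.a (.b (.l 26) (.a (.b (.l 26) (.a (.b (.a .z (.b (.l 26) .z)) (.a (.l 30) (.b .z (.l 30)))) (.b (.l 26) (.a
.z (.l 26))))) (.l 26))) (.l 26))) (.b (.a (.b (.a (.b (.a (.l 30) (.b (.a (.b .z (.l 30)) .z) (.a (.l 30) (.b .z (.l 30))))) (.l 30)) (.b (.a (.b (.l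
26) (.a .z (.b (.l 26) .z))) (.l 26)) (.a (.b (.a (.l 30) .z) (.l 30)) (.b (.a (.b (.l 26) .z) (.l 26)) (.a .z (.b (.l 26) .z)))))) (.a (.l 30) (.b
(.a (.l 30) (.b (.a (.l 30) .z) (.l 30))) (.l 30)))) (.a (.b (.l 26) (.b (.a (.b (.a (.b (.l 26) .z) (.l 26)) (.a (.b .z (.l 30)) .z)) (.l 26)) (.a
(.b (.a (.l 30) (.b .z (.l 30))) (.l 30)) (.a (.b .z (.b .z (.l 30))) (.b (.l 26) .z))))) (.l 26))) (.a (.b (.l 30) (.a (.b (.a (.b (.l 30) (.a .z (.b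
(.l 30) .z))) (.l 30)) (.a (.b (.a (.l 34) .z) (.l 34)) (.b (.a (.b (.l 30) .z) (.l 30)) (.a .z (.b (.l 30) .z))))) (.l 30))) (.a (.b (.b (.a (.l 30)
(.a (.l 30) (.b (.a (.l 30) .z) (.l 30)))) (.l 30)) (.l 30)) (.b (.a (.b (.a (.b .z (.a (.l 30) .z)) (.b (.l 26) .z)) (.a (.l 30) (.b (.a (.l 30) .z)
(.l 30)))) (.b (.l 26) (.a (.b (.a .z (.l 26)) .z) (.b (.l 26) (.a .z (.l 26)))))) (.a (.l 30) (.b (.a (.l 30) (.b .z (.l 30))) (.l 30)))))))) (.b (.a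
(.b (.a (.b (.l 22) (.a (.b (.l 22) (.a (.b (.l 22) (.a .z (.l 22))) (.l 22))) (.l 22))) (.l 22)) (.a (.b (.a (.b (.a (.b .z (.l 26)) (.b (.a .z (.l
22)) .z)) (.a (.l 26) (.b (.a (.l 26) .z) (.l 26)))) (.b (.l 22) (.a (.b .z (.a (.l 26) .z)) (.b (.l 22) .z)))) (.a (.l 26) (.b (.a (.l 26) (.b (.a
(.l 26) .z) (.l 26))) (.l 26)))) (.b (.l 22) (.a (.b (.a (.b .z (.a (.l 26) .z)) (.b (.l 22) .z)) (.a (.l 26) (.b (.a (.l 26) .z) (.l 26)))) (.b (.l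
22) (.a (.b (.a .z (.l 22)) .z) (.b (.l 22) (.a .z (.l 22))))))))) (.l 22)) (.a (.b (.a (.l 26) (.b (.a (.l 26) (.b (.a (.l 26) (.b .z (.a (.l 26)
.z))) (.l 26))) (.l 26))) (.a (.b (.l 26) (.a (.b (.a (.b (.a .z (.l 26)) .z) (.b (.l 26) (.a .z (.l 26)))) (.a (.l 30) (.b .z (.a (.l 30) .z)))) (.b
(.l 26) (.a (.b (.l 26) .z) (.l 26))))) (.l 26))) (.b (.a (.b (.a (.b (.a (.b (.l 22) .z) (.l 22)) (.a (.b (.a (.l 26) .z) (.l 26)) (.b .z (.a (.l 26)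
.z)))) (.b (.l 22) (.a (.b (.l 22) (.a .z (.l 22))) (.l 22)))) (.a (.l 26) (.b (.a (.b .z (.l 26)) (.b (.a .z (.l 22)) .z)) (.a (.l 26) (.b (.a (.l
26) .z) (.l 26)))))) (.b (.l 22) (.a (.b (.l 22) (.a (.b (.a .z (.l 22)) .z) (.b (.l 22) (.a .z (.l 22))))) (.l 22)))) (.a (.l 26) (.b (.a (.b (.a (.l
26) (.b .z (.a (.l 26) .z))) (.l 26)) (.b (.a (.b (.l 22) .z) (.l 22)) (.a (.b (.a (.l 26) .z) (.l 26)) (.b (.a .z (.l 22)) .z)))) (.a (.l 26) (.b (.a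
(.l 26) (.b (.a (.l 26) .z) (.l 26))) (.l 26))))))))))

theorem vQ45 : ev Q45 I4_0 I6_58 = 821112123085996 := by decide +kernel

noncomputable def Q126 : QT :=
(.a (.b (.b (.a (.b (.b (.a (.b (.a (.b (.a .z (.b (.l 58) .z)) (.a (.l 66) .z)) (.b (.l 58) (.a .z (.b (.l 58) .z)))) (.a .z (.b (.a .z (.b .z (.l
61))) (.a .z (.b .z (.l 64)))))) (.b (.a (.b (.a (.l 58) (.b (.l 58) .z)) (.a .z (.b .z (.l 61)))) (.b .z (.b .z (.l 61)))) (.b (.b (.l 61) (.a (.a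
(.l 61) .z) .z)) (.b (.a .z (.l 64)) (.l 64))))) (.a .z (.b (.a (.b (.a (.b (.l 64) .z) (.l 64)) (.a .z (.b (.l 64) .z))) (.l 64)) (.a .z (.b (.a .z
(.b (.l 64) .z)) .z))))) (.a (.b (.b (.a (.b .z (.a (.l 69) .z)) (.b .z (.a .z (.l 74)))) (.a (.b (.b .z (.l 73)) (.l 73)) (.b .z (.l 73)))) (.b (.b
(.b .z (.a .z (.l 75))) (.b .z (.a .z (.l 78)))) (.l 78))) (.b (.b (.b (.b .z (.a .z (.l 74))) (.l 74)) (.a (.b (.a .z (.l 74)) .z) (.b (.l 74) (.a .z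
(.l 74))))) (.a (.b (.b (.b .z (.l 75)) (.b .z (.l 78))) (.l 78)) .z)))) (.b (.a (.b (.b (.b (.b (.l 59) .z) (.l 61)) (.b (.b (.a (.l 61) (.a (.l 61)
.z)) .z) (.l 64))) (.b (.b (.a (.l 64) (.b (.l 64) (.a (.l 64) .z))) (.a (.b (.l 64) (.a (.l 64) .z)) .z)) (.a (.b .z (.a .z (.l 70))) (.b (.b (.l 67)
.z) (.l 70))))) (.b (.a (.b (.b (.b (.a (.l 59) .z) .z) (.l 61)) (.b (.b .z (.l 64)) (.b (.l 64) (.a (.l 64) .z)))) (.b (.a (.b (.b .z (.l 61)) (.l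
61)) (.b .z (.l 61))) (.b (.b .z (.a (.l 64) .z)) (.b .z (.a .z (.l 65)))))) (.b (.b (.a .z (.b (.l 65) .z)) (.b (.a .z (.l 67)) (.l 67))) (.b (.b .z
(.a .z (.l 70))) (.a (.l 70) (.b (.l 70) .z)))))) (.b (.a (.b (.a (.b .z (.l 74)) (.b (.a .z (.l 70)) .z)) (.a (.a (.b (.l 74) .z) .z) .z)) (.b (.b
(.a (.b (.l 70) .z) .z) (.a .z (.b (.l 73) .z))) (.a (.b (.a .z (.l 76)) .z) (.b (.l 76) (.a .z (.l 76)))))) (.a (.a (.b (.a .z (.l 80)) .z) (.b (.b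
(.a (.l 80) .z) (.l 80)) (.b (.l 80) .z))) (.b (.a (.a (.b .z (.l 80)) .z) .z) .z))))) (.a (.b (.a (.b (.a .z (.b (.b (.b (.l 78) .z) .z) .z)) .z) (.b
(.a .z (.b .z (.b (.b .z (.l 86)) .z))) (.b .z (.b (.b (.l 91) .z) (.a (.b .z (.l 96)) .z))))) (.a (.a (.b (.b .z (.a .z (.b (.l 101) .z))) .z) (.b
(.b .z (.b (.l 101) .z)) (.b (.b (.b .z (.l 110)) .z) .z))) (.b (.b (.b .z (.a .z (.b .z (.l 102)))) .z) .z))) (.b (.b (.a (.b (.a (.b (.b .z (.l 81))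
.z) (.b .z (.b .z (.l 83)))) (.b (.a (.b .z (.l 86)) .z) .z)) (.b .z (.a (.b .z (.b (.l 87) .z)) .z))) (.a (.b (.b (.a .z (.b (.l 89) .z)) (.a (.b (.l
92) .z) (.b (.l 92) .z))) .z) (.b .z (.b (.b .z (.a .z (.l 98))) (.a (.b (.l 98) .z) .z))))) (.b (.a (.b (.a (.b (.b (.l 97) .z) .z) .z) (.b .z (.a .z
(.b (.l 108) .z)))) (.b (.a .z (.b (.b .z (.l 104)) .z)) .z)) (.b (.a .z (.b (.a (.b .z (.l 114)) .z) (.a .z (.b .z (.l 120))))) .z))))) (.a (.b (.b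
(.a (.b (.a .z (.b (.b (.l 126) .z) .z)) .z) (.b (.a (.b (.a (.b (.l 126) .z) .z) .z) .z) .z)) .z) .z) .z)) (.a (.b (.b (.b (.a (.b (.a (.b .z (.a (.b
.z (.l 65)) (.b .z (.l 65)))) (.b (.b (.b .z (.l 66)) (.l 66)) (.a .z (.b (.l 66) .z)))) (.a (.b (.b (.b (.l 65) .z) (.l 67)) (.b (.b .z (.l 70)) .z))
(.b .z (.b .z (.b .z (.l 71)))))) (.b (.b (.b (.l 66) (.a (.l 66) .z)) (.b (.a .z (.b .z (.l 69))) (.a .z (.b .z (.l 72))))) (.a (.b (.a .z (.l 72))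
.z) (.b (.b (.l 72) .z) (.a .z (.b .z (.l 78))))))) (.a (.b (.b (.b (.b .z (.l 73)) (.b .z (.a .z (.l 76)))) (.b (.a (.l 76) .z) (.a .z (.b .z (.l
79))))) (.b (.a (.b (.b .z (.l 82)) (.a .z (.l 82))) (.b (.b .z (.l 82)) (.b (.l 82) .z))) (.a .z (.b .z (.a .z (.l 88)))))) (.b (.a (.b (.b (.b .z
(.l 73)) .z) (.b .z (.b .z (.l 79)))) (.b .z (.b (.b (.l 77) .z) (.b (.l 79) .z)))) (.b (.b (.a (.b .z (.l 82)) .z) .z) (.b (.b .z (.a .z (.l 88)))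
(.a (.b (.l 88) .z) .z)))))) (.b (.b (.a (.b (.a (.a .z (.b .z (.l 79))) (.b .z (.l 79))) (.a (.b (.a .z (.l 79)) .z) .z)) (.b (.a .z (.b .z (.b (.l
94) .z))) .z)) (.a (.b (.a .z (.b (.l 85) .z)) .z) .z)) .z)) .z) (.b (.b (.a (.b (.b (.b (.b .z (.a (.b .z (.l 69)) (.b .z (.l 69)))) (.b (.b (.l 69)
.z) (.a (.b .z (.l 72)) (.b (.l 72) .z)))) (.b (.b .z (.a (.b .z (.l 75)) (.b (.l 75) .z))) (.b (.b .z (.l 78)) (.a (.b (.l 78) .z) .z)))) (.b (.a (.b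
(.a .z (.b .z (.l 84))) .z) (.b (.b (.b (.l 81) .z) (.l 84)) (.b .z (.b .z (.l 90))))) .z)) (.b (.a (.b .z (.b (.b (.b .z (.l 75)) (.b (.l 75) .z))
(.b .z (.b .z (.l 81))))) .z) (.b (.b .z (.b (.a .z (.b (.l 87) .z)) (.a (.b (.l 90) .z) .z))) (.a (.b (.b .z (.b .z (.l 96))) (.a .z (.b .z (.l
102)))) (.b (.b (.b (.l 93) .z) .z) .z))))) (.b (.a (.b (.b (.b (.a (.b .z (.l 94)) .z) .z) (.b (.a (.b .z (.l 100)) .z) .z)) (.a (.b (.a .z (.b (.l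
106) .z)) .z) (.b (.b .z (.b .z (.l 112))) .z))) (.b (.a .z (.b (.b (.b .z (.l 108)) .z) .z)) .z)) .z)) .z)))

theorem vQ126 : ev Q126 I4_4 I5_31 = 202176722418232 := by decide +kernel

noncomputable def Q211 : QT :=
(.b (.a (.b (.b (.a (.b (.a (.a (.b (.a (.l 39) .z) .z) .z) .z) .z) (.a (.b (.a (.b .z (.a .z (.l 45))) (.b (.a .z (.l 45)) (.l 45))) (.b (.b (.a (.l
45) .z) .z) .z)) (.b (.b (.l 45) (.b (.l 45) .z)) (.b .z (.b .z (.a .z (.l 51))))))) (.a (.b .z (.a .z (.a (.l 89) .z))) (.a (.b (.b (.b .z (.l 51))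
(.l 51)) (.a .z (.b (.l 51) .z))) (.l 51)))) (.a (.b (.a (.b (.a (.b .z (.b .z (.l 47))) (.b .z (.b .z (.l 47)))) (.l 47)) (.b (.b (.b .z (.a .z (.l
47))) (.l 47)) (.l 47))) (.b (.b (.l 47) (.a (.l 47) (.b (.l 47) (.a (.l 47) .z)))) (.b (.a (.b (.l 47) .z) (.b .z (.a .z (.l 49)))) (.a (.b (.a .z
(.l 49)) (.l 49)) (.l 49))))) (.b (.a (.b (.a (.l 47) (.b (.a (.l 47) .z) (.l 47))) (.l 47)) (.b (.a (.b .z (.a (.l 47) .z)) (.b (.l 51) .z)) (.a (.l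
47) (.b (.a (.l 47) .z) (.l 47))))) (.b (.b (.a (.l 47) (.b (.a (.l 47) .z) .z)) (.a (.b (.a (.l 47) .z) .z) (.b (.a .z (.l 49)) (.l 49)))) (.b (.l
49) (.a (.b (.l 49) (.a (.l 49) .z)) (.b .z (.a .z (.l 53))))))))) (.b (.a (.b (.b (.b (.a (.b (.l 45) (.a (.l 45) .z)) .z) .z) (.b (.a (.b .z (.a .z
(.l 51))) (.b (.a .z (.l 51)) (.l 51))) (.l 51))) (.l 51)) (.b (.b (.b (.a .z (.b (.a .z (.l 51)) (.l 51))) (.a (.b (.a .z (.l 51)) (.l 51)) (.l 51)))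
(.l 51)) (.a (.b (.l 51) (.a (.l 51) (.b (.l 51) .z))) (.b (.a (.l 51) (.b (.a (.l 51) .z) .z)) (.a (.b .z (.a .z (.l 47))) (.b (.a .z (.l 47)) (.a
(.l 47) .z))))))) (.a (.b (.a (.b (.l 51) (.a (.b .z (.a (.l 47) .z)) (.b (.l 51) .z))) (.b (.a (.l 51) (.b (.l 51) .z)) (.a (.b .z (.a .z (.l 47)))
(.b (.a .z (.l 47)) (.a (.l 47) .z))))) (.a (.b (.a (.b (.b .z (.l 49)) (.l 49)) (.b .z (.l 49))) (.b (.b (.a (.l 49) .z) .z) (.b (.a .z (.l 53)) (.l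
53)))) (.b .z (.a (.b (.b .z (.l 53)) (.l 53)) (.b .z (.a (.l 53) .z)))))) (.b (.a (.b (.a (.b .z (.a .z (.l 47))) (.b (.a .z (.l 47)) (.a (.l 47)
.z))) (.a (.b (.a (.l 47) .z) .z) (.b .z (.l 57)))) (.b (.a (.b (.a (.l 47) .z) .z) (.b .z (.l 57))) (.b (.l 57) (.b (.a (.l 57) .z) .z)))) (.a (.b
(.b .z (.b .z (.a .z (.l 63)))) (.a (.b (.l 63) .z) (.l 63))) (.b (.b .z (.l 63)) (.l 63))))))) (.a (.b (.b (.b (.a (.b (.a (.l 49) (.b (.a (.l 49)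
.z) .z)) (.a (.b .z (.a .z (.l 53))) (.b (.a .z (.l 53)) (.l 53)))) (.b (.a (.b .z (.l 53)) (.l 53)) (.a (.l 53) (.b (.a (.l 53) .z) .z)))) (.a (.b
(.a (.l 53) (.b (.l 53) (.a (.l 53) .z))) (.a (.b (.a (.l 53) .z) .z) .z)) (.b .z (.a (.b .z (.a .z (.l 59))) (.l 59))))) (.a (.b (.b (.a (.b .z (.a
.z (.l 59))) (.b (.a .z (.l 59)) (.l 59))) (.l 59)) (.l 59)) (.b (.a (.l 59) (.b (.a (.l 59) .z) (.a .z (.b .z (.l 50))))) (.a (.b (.a (.l 59) .z) (.a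
.z (.b .z (.l 50)))) (.b (.a (.b .z (.l 50)) (.l 50)) (.a (.l 50) .z)))))) (.b (.a (.b (.a (.l 59) (.b (.a (.l 59) .z) (.a .z (.b .z (.l 59))))) (.a
(.b (.a (.l 59) .z) (.a .z (.b .z (.l 59)))) (.b (.a (.b .z (.l 59)) (.b (.l 59) .z)) (.a (.b (.l 59) .z) .z)))) (.b (.a (.b (.a .z (.l 50)) .z) (.b
(.a .z (.b .z (.l 59))) .z)) (.a (.b (.a .z (.b .z (.l 61))) (.b (.a (.l 61) .z) .z)) (.b (.b (.l 61) (.a (.l 61) .z)) (.b .z (.l 65)))))) (.a (.b (.a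
(.b (.a .z (.b (.l 59) .z)) .z) (.b (.a .z (.b .z (.l 65))) (.b (.a (.l 65) .z) .z))) (.a .z (.b (.b .z (.l 71)) (.a .z (.l 71))))) (.b (.b (.a (.b
(.l 65) (.a (.l 65) .z)) (.b (.a (.l 65) .z) .z)) (.a .z (.b .z (.l 71)))) (.l 71))))) (.b (.a (.b (.b (.a (.b (.b (.l 53) (.a (.l 53) .z)) .z) (.b .z
(.a .z (.b .z (.l 50))))) (.a (.b (.a (.b .z (.l 59)) .z) (.a .z (.b .z (.l 50)))) (.b (.a (.b .z (.l 50)) (.l 50)) (.a (.l 50) .z)))) (.b (.a (.b (.a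
(.b .z (.l 50)) (.l 50)) (.a (.l 50) .z)) (.b .z (.a (.b .z (.l 59)) (.l 59)))) (.a (.b (.a .z (.b .z (.l 59))) (.a (.b .z (.l 59)) (.l 59))) (.b (.l
59) (.b (.l 59) (.a (.l 59) .z)))))) (.b (.a (.b (.a (.b .z (.l 50)) (.b (.a .z (.l 63)) .z)) .z) (.b (.a (.b (.l 63) (.a .z (.l 63))) (.l 63)) .z))
(.a (.b (.b (.b (.a .z (.l 59)) (.l 59)) (.l 59)) (.b (.l 59) (.b (.a (.l 59) .z) .z))) (.b (.a (.l 59) (.b (.a (.l 59) .z) (.l 59))) (.b (.b (.l 59)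
.z) (.b (.a .z (.l 61)) (.l 61))))))) (.b (.a (.b (.b (.a (.b (.l 59) .z) (.b .z (.a .z (.l 61)))) (.a (.b (.a .z (.l 61)) (.l 61)) (.b (.l 61) .z)))
(.b (.a (.b (.a (.l 61) .z) .z) (.b (.a .z (.l 65)) (.l 65))) (.a (.b (.l 65) (.a (.l 65) .z)) .z))) (.b (.b (.a (.b (.l 61) (.a (.l 61) .z)) (.b (.a
(.l 61) .z) .z)) (.a (.b .z (.a .z (.l 65))) (.b (.l 65) (.a (.l 65) .z)))) (.a (.b (.b (.a (.l 65) .z) .z) .z) (.b .z (.a (.l 71) .z))))) (.a (.b (.b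
(.a .z (.b .z (.l 71))) (.l 71)) (.a (.l 71) (.b (.a (.l 71) .z) (.a .z (.b .z (.l 62)))))) (.b (.a (.b (.a (.l 71) .z) .z) (.b (.a .z (.b .z (.l
62))) (.a (.b (.l 62) .z) .z))) (.a (.b (.a .z (.b (.l 62) .z)) .z) (.b (.a .z (.l 71)) .z))))))))

theorem vQ211 : ev Q211 I5_19 I6_61 = 262258941165580 := by decide +kernel

noncomputable def Q108 : QT :=
(.b (.b (.a (.a (.b .z (.a (.b (.b .z (.a (.l 253) .z)) (.b (.l 253) (.b (.l 253) .z))) (.b (.a (.b .z (.a .z (.l 207))) .z) (.a .z (.b (.l 207)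
.z))))) (.a (.a (.b .z (.b .z (.b .z (.l 207)))) .z) (.a .z (.b (.b .z (.b (.l 310) .z)) .z)))) (.a (.a (.b .z (.a (.b (.a .z (.b .z (.a .z (.l
116)))) .z) (.b (.l 116) (.b (.b (.b (.l 116) .z) .z) .z)))) (.b (.b .z (.b .z (.a (.b .z (.l 116)) (.a (.l 116) .z)))) (.b (.a (.a (.l 116) (.b (.l
116) .z)) .z) (.b (.b (.a (.a (.l 116) .z) .z) .z) .z)))) .z)) (.a (.b .z (.a (.a (.b (.b (.a (.b .z (.l 220)) .z) (.a (.l 220) (.b .z (.l 220)))) (.l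
220)) (.b .z (.a (.b (.a (.l 220) .z) .z) .z))) .z)) (.b (.a .z (.b .z (.a .z (.b (.a .z (.b (.a .z (.b .z (.l 59))) (.a (.b .z (.l 59)) (.l 59))))
(.a (.b (.a .z (.l 59)) (.l 59)) (.l 59)))))) (.a (.b (.a .z (.b .z (.a .z (.b .z (.a (.b .z (.l 59)) (.l 59)))))) (.a (.b (.a .z (.b .z (.a .z (.b .z
(.l 59))))) (.a .z (.b (.b (.b (.l 59) .z) .z) .z))) (.b (.a (.b (.a .z (.l 59)) (.l 59)) (.l 59)) (.b (.b (.l 59) (.a .z (.b (.l 59) .z))) .z)))) (.b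
(.a (.b (.a (.b .z (.a .z (.b .z (.l 59)))) (.b (.a (.b .z (.l 59)) (.l 59)) (.l 59))) (.l 59)) (.l 59)) (.b (.l 59) (.b (.l 59) (.a (.b (.a .z (.l
59)) .z) (.b (.l 59) (.a (.b (.l 59) .z) (.l 59))))))))))) (.b (.b (.a (.a (.b (.a (.b (.a (.l 220) .z) .z) (.b .z (.a .z (.l 150)))) (.a (.b (.a .z
(.b .z (.l 150))) .z) (.b (.a (.b (.l 150) .z) .z) .z))) (.b (.a (.b .z (.a (.b (.l 150) .z) .z)) .z) .z)) (.b (.b (.a .z (.b (.a .z (.b (.a .z (.b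
(.l 59) .z)) .z)) .z)) .z) .z)) (.b (.a .z (.b (.a (.b .z (.a .z (.l 165))) .z) (.a (.a .z (.l 165)) .z))) (.b (.b (.a (.a .z (.l 566)) (.a (.a .z (.l
165)) .z)) (.b (.a (.l 566) (.a (.a .z (.l 165)) .z)) (.b .z (.l 143)))) (.a (.a (.b (.b (.l 143) .z) .z) (.b (.l 143) (.a .z (.b (.l 143) .z)))) (.l
143))))) (.a (.b (.b (.a (.b (.a (.b .z (.a (.b .z (.l 81)) .z)) .z) (.a (.l 81) (.b .z (.a (.l 81) (.b .z (.l 81)))))) .z) (.a (.l 81) (.b (.a (.b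
(.a (.b .z (.l 81)) .z) (.a (.l 81) (.b .z (.l 81)))) .z) (.a (.l 81) (.a (.b (.a (.l 81) .z) (.l 81)) (.b .z (.a (.l 81) .z))))))) (.l 81)) (.b (.a
(.b (.b (.b (.a (.b (.l 143) .z) (.l 143)) .z) .z) .z) (.b (.b (.l 143) (.a .z (.b (.l 143) .z))) .z)) (.a (.b (.a (.b (.a (.b (.a (.l 81) .z) (.l
81)) (.b .z (.a (.l 81) .z))) (.l 81)) (.b .z (.a (.b .z (.a (.l 81) .z)) .z))) (.a (.l 81) (.b (.a (.l 81) (.b (.a (.l 81) .z) (.l 81))) (.l 81))))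
(.b .z (.a (.b (.a (.b (.a .z (.b .z (.l 58))) (.a .z (.b (.l 58) .z))) (.b (.b .z (.l 58)) (.l 58))) (.a (.b (.a (.l 81) .z) (.l 81)) (.b (.a .z (.l
58)) .z))) (.b (.b (.b (.b .z (.l 58)) (.l 58)) (.l 58)) (.l 58)))))))))

theorem vQ108 : ev Q108 I5_11 I4_6 = 513074761232471 := by decide +kernel

noncomputable def Q118 : QT :=
(.b (.b (.a (.b (.l 29) (.a (.l 29) (.b (.l 29) (.a (.b (.l 29) (.a (.b (.l 29) (.a (.l 29) (.b (.l 29) .z))) (.b (.a (.b (.l 29) (.a (.l 29) .z)) (.b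
(.a (.l 29) .z) (.a .z (.b .z (.l 11))))) (.a (.b .z (.a (.b .z (.l 11)) (.l 11))) (.l 11))))) (.b (.a (.b (.l 29) (.a (.b (.l 29) (.a (.l 29) .z))
(.b (.a (.l 29) .z) (.a .z (.b .z (.l 11)))))) (.b (.a (.b (.l 29) .z) (.b .z (.a (.b .z (.l 11)) (.l 11)))) (.a (.b (.a .z (.l 11)) (.l 11)) (.l
11)))) (.a (.b (.a (.b (.a .z (.b .z (.l 11))) (.l 11)) (.l 11)) (.l 11)) (.l 11))))))) (.b (.a (.b (.l 29) (.a (.l 29) (.b (.l 29) (.a (.l 29) (.b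
(.l 29) (.a (.l 29) (.b (.a (.l 29) .z) (.a .z (.b .z (.l 11)))))))))) (.b (.a (.l 29) (.b (.l 29) (.a (.b (.l 29) (.a (.l 29) (.b (.l 29) (.a (.l 29)
.z)))) (.b (.a (.l 29) (.b (.l 29) (.a (.l 29) .z))) (.a (.b (.a (.l 29) .z) (.a .z (.b .z (.l 11)))) (.b (.a .z (.b .z (.l 11))) (.l 11))))))) (.a
(.b (.a (.l 29) (.b (.l 29) (.a (.b (.l 29) .z) (.b .z (.a (.b .z (.l 11)) (.l 11)))))) (.a (.b (.a (.b (.l 29) (.a (.l 29) .z)) (.b (.a (.l 29) .z)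
(.a .z (.b .z (.l 11))))) (.a (.b (.a .z (.b .z (.l 11))) (.l 11)) (.l 11))) (.b (.a (.b (.a .z (.l 11)) (.l 11)) (.l 11)) (.l 11)))) (.b (.a (.b (.a
(.b (.a (.l 29) .z) .z) (.b (.a .z (.b .z (.l 11))) (.l 11))) (.a (.b (.a (.b .z (.l 11)) (.l 11)) (.l 11)) (.l 11))) (.l 11)) (.l 11))))) (.a (.b (.a
(.b (.a (.l 29) (.b (.l 29) (.a (.l 29) (.b (.l 29) (.a (.l 29) .z))))) (.a (.b (.a (.l 29) (.b (.l 29) (.a (.l 29) .z))) (.a (.b (.l 29) .z) (.b (.a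
.z (.b .z (.l 11))) (.a (.b .z (.l 11)) (.l 11))))) (.b (.a (.b (.a (.l 29) .z) (.a .z (.b .z (.l 11)))) (.b (.a .z (.b .z (.l 11))) (.l 11))) (.l
11)))) (.b (.a (.b (.a (.l 29) (.b (.l 29) .z)) (.a (.b .z (.a .z (.l 11))) (.b (.a (.b .z (.l 11)) (.l 11)) (.l 11)))) (.b (.a (.b .z (.a (.b .z (.l
11)) (.l 11))) (.b (.a (.b .z (.l 11)) (.l 11)) (.l 11))) (.l 11))) (.l 11))) (.a (.b (.a (.b (.a (.b (.a (.b .z (.l 11)) (.l 11)) (.l 11)) (.l 11))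
(.l 11)) (.l 11)) (.l 11)) (.l 11))) (.l 11)))) (.a (.b (.a (.b (.a (.b (.l 29) (.a (.l 29) (.b (.a (.l 29) (.b (.l 29) (.a (.l 29) .z))) (.a (.b (.l
29) .z) (.b .z (.a (.b .z (.l 11)) (.l 11))))))) (.b (.a (.b (.l 29) (.a (.l 29) (.b (.l 29) (.a (.l 29) .z)))) (.b (.a (.l 29) (.b (.l 29) .z)) (.a
(.b (.a (.l 29) .z) (.a .z (.b .z (.l 11)))) (.b (.a .z (.l 11)) (.l 11))))) (.a (.b (.a (.b (.a (.l 29) .z) (.a .z (.b .z (.l 11)))) (.b (.a .z (.b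
.z (.l 11))) (.l 11))) (.l 11)) (.l 11)))) (.a (.b (.a (.b (.a (.b (.l 29) .z) (.b .z (.a (.b .z (.l 11)) (.l 11)))) (.a (.b (.a .z (.l 11)) (.l 11))
(.l 11))) (.b (.a (.b (.a (.b .z (.l 11)) (.l 11)) (.l 11)) (.l 11)) (.l 11))) (.l 11)) (.l 11))) (.b (.a (.b (.a (.b (.a (.b .z (.a (.b .z (.l 11))
(.l 11))) (.b (.a (.b .z (.l 11)) (.l 11)) (.l 11))) (.l 11)) (.l 11)) (.l 11)) (.l 11)) (.l 11))) (.l 11)) (.l 11))) (.a (.b (.b (.l 11) (.b (.l 11)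
(.a (.b (.l 11) (.a (.b (.l 11) (.a (.b (.l 11) (.a (.b (.a .z (.l 11)) .z) (.b (.l 11) (.a .z (.l 11))))) (.l 11))) (.l 11))) (.l 11)))) (.b (.b (.a
(.b (.a (.b (.a (.b (.a (.l 13) (.b .z (.l 13))) (.l 13)) (.b (.a (.b (.a .z (.l 11)) .z) (.b (.l 11) (.a .z (.l 11)))) (.a (.l 13) (.b .z (.l 13)))))
(.l 13)) (.b (.a (.b (.l 11) (.a (.b (.a .z (.l 11)) .z) (.b (.l 11) (.a .z (.l 11))))) (.l 11)) (.a (.b (.a (.l 13) (.b .z (.l 13))) (.l 13)) (.b (.a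
(.b (.a .z (.l 11)) .z) (.b (.l 11) (.a .z (.l 11)))) (.a (.l 13) (.b .z (.a (.l 13) .z))))))) (.l 13)) (.b (.a (.b (.l 11) (.a (.b (.l 11) (.a (.b
(.l 11) .z) (.l 11))) (.l 11))) (.l 11)) (.a (.b (.a (.b (.a (.b (.a (.l 13) .z) (.l 13)) (.b .z (.a (.l 13) .z))) (.l 13)) (.b (.a (.b (.l 11) .z)
(.l 11)) (.a (.b (.a (.l 13) .z) (.l 13)) (.b .z (.a (.l 13) .z))))) (.l 13)) (.b (.a (.b (.l 11) (.a (.b (.l 11) (.a .z (.l 11))) (.l 11))) (.l 11))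
(.a (.b (.a (.b .z (.l 13)) (.b (.a .z (.l 11)) .z)) (.l 13)) (.b (.a (.b (.l 11) (.a .z (.l 11))) (.l 11)) (.a (.b .z (.a (.l 13) .z)) (.b (.l 11)
.z)))))))) (.a (.b (.l 13) (.b (.l 13) (.a (.l 13) (.b (.l 13) (.a (.b (.l 13) (.a (.l 13) .z)) (.b (.a (.l 13) .z) .z)))))) (.b (.a (.l 13) (.b (.a
(.l 13) (.b (.a (.l 13) (.b (.a (.l 13) .z) (.l 13))) (.l 13))) (.l 13))) (.b (.a (.l 13) (.b (.l 13) (.a (.b (.l 13) (.a (.a (.l 13) .z) .z)) (.b (.a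
(.a (.l 13) .z) .z) .z)))) (.a (.b (.a (.b (.l 13) (.a (.l 13) .z)) (.b (.a (.l 13) .z) .z)) (.a (.b .z (.l 47)) (.l 47))) (.b (.a (.b .z (.l 47)) (.l
47)) (.l 47))))))) (.b (.b (.a (.b (.a (.b (.a (.b (.l 13) (.a (.l 13) .z)) (.b (.a (.l 13) .z) .z)) (.a (.b .z (.l 47)) (.l 47))) (.b (.a (.b .z (.l
47)) (.l 47)) (.l 47))) (.l 47)) (.a (.l 47) (.b (.a (.l 47) (.b (.a (.l 47) .z) .z)) (.a (.b (.a (.l 47) .z) (.a .z (.b .z (.l 17)))) (.b (.a .z (.l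
17)) (.l 17)))))) (.a (.a (.l 47) (.b (.l 47) (.a (.l 47) (.b (.l 47) (.a (.l 47) .z))))) (.a (.b (.a (.l 47) (.b (.a (.l 47) .z) (.a .z (.b .z (.l
17))))) (.a (.b .z (.a .z (.l 17))) (.b (.a (.b .z (.l 17)) (.l 17)) (.l 17)))) (.b (.a (.b (.a (.b .z (.l 17)) (.l 17)) (.l 17)) (.l 17)) (.l 17)))))
(.a (.b (.a (.b (.l 47) (.a (.l 47) (.b (.l 47) (.a (.l 47) .z)))) (.b (.a (.b (.l 47) (.a (.l 47) .z)) (.b .z (.a .z (.l 17)))) (.a (.b .z (.a (.b .z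
(.l 17)) (.l 17))) (.l 17)))) (.a (.b (.a (.b (.l 47) (.a (.l 47) .z)) (.b (.a .z (.b .z (.l 17))) (.a (.b .z (.l 17)) (.l 17)))) (.a (.b (.a .z (.b
.z (.l 17))) (.l 17)) (.l 17))) (.l 17))) (.l 17))))) (.a (.b (.l 11) (.a (.b (.b (.l 11) (.b (.b (.a (.b (.a (.b .z (.a (.l 13) .z)) (.b (.l 11) .z))
(.a (.l 13) (.b (.a (.l 13) .z) (.l 13)))) (.b (.l 11) (.a (.b (.a .z (.l 11)) .z) (.b (.l 11) (.a .z (.l 11)))))) (.a (.l 13) (.b (.a (.l 13) (.b .z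
(.l 13))) (.l 13)))) (.b (.b (.a (.b (.l 13) (.a (.a (.l 13) .z) .z)) .z) (.a (.b .z (.l 47)) (.a (.l 47) .z))) (.a (.b (.a (.l 47) .z) .z) (.b (.a .z
(.b .z (.l 17))) (.l 17)))))) (.a (.b (.b (.b (.b (.a .z (.l 17)) (.l 17)) (.l 17)) (.l 17)) (.a (.l 17) (.b (.l 17) (.a (.b (.l 17) (.a (.l 17) .z))
.z)))) (.b (.a (.l 17) (.b (.a (.l 17) (.b (.l 17) (.a (.l 17) .z))) (.a (.b (.a (.l 17) .z) .z) .z))) (.a (.b (.a (.b (.l 17) .z) .z) (.a .z (.l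
97))) (.b (.a .z (.l 97)) (.l 97)))))) (.b (.a (.b (.l 11) (.a (.b (.b (.l 11) (.b (.b (.a .z (.l 11)) .z) (.b (.a (.l 13) .z) .z))) (.a (.b .z (.l
17)) (.b (.b .z (.l 17)) (.a (.l 17) .z)))) (.b (.a (.b (.l 11) (.b (.l 11) .z)) (.b (.l 11) (.a (.b (.l 11) .z) .z))) .z))) (.b (.a (.b (.l 11) (.a
(.l 11) (.b (.l 11) (.a (.b (.l 11) .z) .z)))) (.b (.a (.l 11) (.b (.a (.l 11) (.b (.l 11) .z)) (.a .z (.b .z (.l 9))))) (.a (.b (.a (.b (.l 11) .z)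
.z) (.a (.b .z (.l 9)) (.l 9))) (.b (.a (.b .z (.l 9)) (.l 9)) (.l 9))))) (.a (.b (.a (.b (.a (.b (.l 11) .z) .z) (.a .z (.b (.l 9) .z))) (.b (.a (.b
.z (.l 9)) (.l 9)) (.b (.l 9) (.b .z (.l 13))))) .z) (.b (.b (.l 9) (.b (.b (.l 9) (.a (.l 9) .z)) (.b .z (.l 13)))) (.b (.b (.b (.a .z (.l 13)) .z)
(.l 28)) (.a .z (.b (.l 28) .z))))))) (.a (.b (.a (.b (.a (.b (.a (.l 17) .z) .z) .z) (.l 97)) (.l 97)) (.l 97)) (.b (.b (.a (.a (.l 97) .z) .z) (.a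
(.l 97) (.a (.l 97) .z))) (.l 97)))))) (.b (.a (.b (.l 11) (.a (.b (.l 11) (.a (.b (.l 11) (.a (.b (.l 11) (.a (.l 11) (.b (.l 11) .z))) (.b (.a (.l
11) (.b (.l 11) .z)) (.a .z (.b .z (.l 9)))))) (.b (.a (.b (.l 11) (.a (.l 11) (.b (.l 11) .z))) (.b (.a (.l 11) (.b (.l 11) .z)) (.a .z (.b .z (.l
9))))) (.a (.b (.a .z (.b .z (.l 9))) (.l 9)) (.l 9))))) (.b (.a (.b (.l 11) (.a (.b (.l 11) (.a (.l 11) (.b (.l 11) .z))) (.b (.a (.l 11) (.b (.l 11)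
.z)) (.a .z (.b .z (.l 9)))))) (.b (.a (.b (.l 11) (.a (.l 11) (.b (.l 11) .z))) (.b (.a (.l 11) (.b (.l 11) .z)) (.a .z (.b .z (.l 9))))) (.a (.b (.a
.z (.b .z (.l 9))) (.l 9)) (.l 9)))) (.a (.b (.a (.b (.a .z (.b .z (.l 9))) (.l 9)) (.l 9)) (.l 9)) (.l 9))))) (.b (.a (.b (.l 11) (.a (.b (.l 11) (.a
(.b (.l 11) (.a (.l 11) (.b (.l 11) .z))) (.b (.a (.l 11) (.b (.l 11) .z)) (.a .z (.b .z (.l 9)))))) (.b (.a (.b (.l 11) (.a (.l 11) (.b (.l 11) .z)))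
(.b (.a (.l 11) (.b (.l 11) .z)) (.a .z (.b .z (.l 9))))) (.a (.b (.a .z (.b .z (.l 9))) (.l 9)) (.l 9))))) (.b (.b (.a (.l 11) (.b (.a (.l 11) (.b
(.l 11) (.a (.l 11) .z))) (.a (.b (.l 11) (.a (.l 11) .z)) (.b .z (.a .z (.l 9)))))) (.a (.b (.a (.l 11) (.b (.l 11) (.a (.l 11) .z))) (.a (.b (.a (.l
11) .z) .z) (.b .z (.l 9)))) (.b (.a (.b .z (.a .z (.l 9))) (.l 9)) (.l 9)))) (.a (.b (.a (.b (.a (.b .z (.l 9)) (.l 9)) (.l 9)) (.l 9)) (.l 9)) (.l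
9)))) (.a (.b (.a (.b (.a (.b (.a .z (.b .z (.l 9))) (.l 9)) (.l 9)) (.l 9)) (.l 9)) (.l 9)) (.l 9)))) (.a (.b (.a (.b (.a (.b (.a (.b (.a .z (.b .z
(.l 9))) (.l 9)) (.l 9)) (.l 9)) (.l 9)) (.b (.b (.l 9) (.b (.b (.a (.l 9) (.a (.l 9) .z)) .z) (.l 13))) (.b (.b (.a (.b (.l 13) (.a .z (.l 13))) (.l
13)) (.a .z (.b (.l 13) .z))) (.b (.a (.l 28) (.b .z (.l 28))) (.l 28))))) (.b (.l 9) (.b (.b (.b (.l 9) (.b (.l 9) (.a (.l 9) .z))) (.b (.b (.a .z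
(.a .z (.l 13))) (.l 13)) (.l 13))) (.b (.l 13) (.b (.a (.b (.a .z (.l 13)) .z) (.b (.l 13) (.a .z (.l 13)))) (.a (.l 28) .z)))))) (.b (.a (.b (.a (.b
(.a .z (.b (.l 28) .z)) .z) (.b (.l 28) (.a .z (.b (.l 28) .z)))) .z) (.b (.l 28) (.a (.b (.a .z (.b (.l 28) .z)) .z) (.b (.l 28) (.a .z (.b (.l 28)
.z)))))) (.a (.a (.b .z (.l 97)) .z) .z))) (.b (.b (.l 9) (.b (.b (.b (.a (.l 9) (.b (.l 9) (.a (.a (.l 9) .z) .z))) (.a (.b (.a (.l 9) .z) (.a .z (.a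
.z (.l 13)))) (.b (.a .z (.l 13)) (.l 13)))) (.l 13)) (.b (.l 13) (.a (.b (.l 13) (.a (.b (.l 13) .z) (.l 13))) (.l 13))))) (.b (.b (.b (.a (.b (.a
(.b .z (.l 28)) .z) (.l 28)) (.b (.a (.b (.l 13) (.a .z (.l 13))) (.l 13)) (.a (.b .z (.l 28)) (.b (.a .z (.l 13)) .z)))) (.a (.l 28) (.b (.a (.l 28)
(.b .z (.l 28))) (.l 28)))) (.l 28)) (.a (.b (.a (.b (.a .z (.b (.l 28) .z)) .z) (.b (.l 28) (.a .z (.b (.l 28) .z)))) .z) (.b (.l 28) (.a (.b (.a (.b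
(.l 28) .z) (.l 28)) .z) (.b (.l 28) (.a (.b (.l 28) .z) (.l 28)))))))))))))

theorem vQ118 : ev Q118 I5_11 I4_13 = 1836649767890947 := by decide +kernel

noncomputable def Q46 : QT :=
(.b (.b (.a (.b (.b (.a (.b (.b (.l 72) (.a (.l 72) .z)) .z) (.a .z (.b (.l 131) .z))) (.a (.b (.b (.a (.l 76) .z) (.l 76)) (.l 76)) (.a (.b .z (.a
(.l 76) .z)) (.b .z (.a .z (.b .z (.l 38))))))) (.b (.a (.b (.l 76) (.b (.a (.l 76) .z) .z)) (.a (.b .z (.a (.b .z (.l 38)) (.l 38))) (.b (.a (.b .z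
(.l 38)) (.l 38)) (.l 38)))) (.a (.b (.b .z (.a (.l 80) .z)) (.l 80)) (.a (.b (.a (.b (.l 38) .z) (.l 38)) .z) (.b (.l 38) (.a (.b (.l 38) .z) (.l
38))))))) (.a (.b (.b (.a (.b (.a .z (.b (.l 34) .z)) .z) (.a (.b (.l 34) .z) (.l 34))) (.a (.b (.a .z (.l 38)) (.l 38)) (.a (.b (.a (.l 38) .z) (.l
38)) (.b (.a .z (.l 34)) .z)))) (.l 38)) (.b (.a (.b (.l 34) (.a (.b (.l 34) (.a .z (.l 34))) (.l 34))) (.l 34)) (.a (.b (.a (.b .z (.l 38)) (.b (.a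
.z (.l 34)) .z)) (.a (.l 38) (.b (.a (.l 38) .z) (.l 38)))) (.b (.l 34) (.a (.b (.a .z (.l 34)) .z) (.b (.l 34) (.a .z (.l 34))))))))) (.a (.b (.b (.a
(.b (.l 80) (.b (.a (.l 80) .z) .z)) (.a .z (.b (.a .z (.b (.l 38) .z)) .z))) (.a (.b (.b .z (.a (.l 84) .z)) (.b (.a (.l 84) .z) (.l 84))) (.a .z (.b
.z (.a .z (.b .z (.l 42))))))) (.b (.a (.b (.l 84) (.b (.a (.l 84) .z) (.a .z (.a .z (.l 42))))) (.a (.b .z (.a (.b .z (.l 42)) (.l 42))) (.l 42)))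
(.a (.b (.b .z (.a (.l 88) .z)) (.l 88)) (.a (.b (.a (.b (.l 42) .z) (.l 42)) .z) (.b (.l 42) (.a (.b (.l 42) .z) (.l 42))))))) (.a (.b (.a (.b (.b
(.l 38) (.a .z (.l 38))) (.b (.a (.b .z (.l 42)) .z) (.a (.l 42) (.a (.l 42) .z)))) (.b (.l 38) (.a (.b (.l 38) .z) (.l 38)))) (.a (.l 42) (.b (.a (.b
(.a (.l 42) .z) (.l 42)) (.b .z (.a (.l 42) .z))) (.l 42)))) (.b (.a (.l 38) (.b (.a (.l 38) (.b .z (.a (.l 38) .z))) (.l 38))) (.a (.b (.a (.b (.l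
38) (.a .z (.l 38))) (.l 38)) (.a (.b .z (.l 42)) (.b (.a .z (.l 38)) .z))) (.l 38)))))) (.b (.a (.b (.b (.a (.b (.b (.l 88) (.a (.l 88) .z)) .z) (.a
.z (.b (.a .z (.b (.l 42) .z)) .z))) (.a (.b (.b (.a (.l 92) .z) (.l 92)) (.b (.l 92) (.a (.l 92) .z))) (.a (.b .z (.a .z (.b .z (.l 46)))) (.b (.a .z
(.l 46)) (.l 46))))) (.b (.a (.b (.b (.a (.l 92) .z) (.a .z (.a .z (.l 46)))) (.b (.a (.l 96) .z) (.a (.l 96) .z))) (.a (.b (.l 46) (.a (.b (.l 46)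
.z) (.l 46))) (.l 46))) (.a (.b (.b (.l 96) (.a (.l 96) .z)) (.b (.a (.l 96) .z) .z)) (.a .z (.b (.a (.b (.l 46) .z) (.l 46)) (.a .z (.b (.l 46)
.z))))))) (.a (.b (.a (.b (.b (.l 42) (.a .z (.l 42))) (.a (.b (.b .z (.l 46)) (.l 46)) (.b .z (.a (.l 46) .z)))) (.b (.l 42) (.a (.b (.l 42) .z) (.l
42)))) (.a (.l 46) (.b (.a (.b (.a (.l 46) .z) (.l 46)) (.b (.a .z (.l 42)) .z)) (.l 46)))) (.b (.a (.b (.a (.l 42) (.b (.a (.l 42) .z) (.l 42))) (.l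
42)) (.b (.a (.b (.a .z (.l 38)) .z) (.b (.l 38) (.a .z (.l 38)))) (.a (.l 42) (.b .z (.a (.l 42) .z))))) (.a (.b (.a (.b (.l 42) (.a .z (.l 42))) (.l
42)) (.a (.b .z (.a (.l 46) .z)) (.b (.l 42) (.a .z (.l 42))))) (.l 42))))) (.a (.b (.b (.a (.b (.a (.b .z (.l 100)) .z) (.b (.l 100) (.a (.l 100)
.z))) (.a (.b .z (.a .z (.b .z (.l 50)))) (.b (.a .z (.b .z (.l 50))) (.l 50)))) (.a (.b (.b .z (.a .z (.a .z (.l 50)))) (.b (.a (.l 104) .z) (.a (.l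
104) .z))) (.a (.b (.l 50) (.a (.b (.l 50) .z) (.l 50))) (.l 50)))) (.b (.a (.b (.b (.a (.l 104) .z) (.a (.l 104) .z)) .z) (.a .z (.b (.a (.b (.l 50)
.z) (.l 50)) (.a .z (.b (.l 50) .z))))) (.a (.b (.b (.a (.l 108) .z) (.a (.l 108) .z)) (.b (.a (.l 108) .z) (.a .z (.a .z (.l 54))))) (.a (.b (.a .z
(.b .z (.l 54))) (.l 54)) (.b (.a (.l 54) .z) (.l 54)))))) (.a (.b (.a (.b (.a (.b .z (.b .z (.l 50))) (.b (.l 46) .z)) (.a (.l 50) (.b (.a (.l 50)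
.z) (.l 50)))) (.b (.l 46) (.a (.b (.a .z (.l 46)) .z) (.b (.l 46) (.a .z (.l 46)))))) (.a (.b (.l 50) (.a (.b (.a .z (.l 50)) .z) (.b (.l 50) (.a .z
(.l 50))))) (.b (.a (.l 50) (.b .z (.a (.l 50) .z))) (.l 50)))) (.b (.a (.b (.a (.l 46) (.b .z (.l 46))) (.l 46)) (.b (.a (.b (.a .z (.l 42)) .z) (.l
42)) (.a (.b (.a (.l 46) .z) (.l 46)) (.b (.a .z (.l 42)) .z)))) (.a (.b (.a (.b (.l 46) .z) (.l 46)) (.a (.b (.a (.l 50) .z) (.l 50)) (.b (.a .z (.l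
46)) .z))) (.b (.a (.l 46) (.b (.a (.l 46) .z) (.l 46))) (.l 46))))))))

theorem vQ46 : ev Q46 I5_0 I6_59 = 312805938450949 := by decide +kernel

noncomputable def Q171 : QT :=
(.b (.a (.b (.a (.a (.l 72) (.b (.l 72) (.a (.l 72) (.b (.l 72) (.a (.l 72) .z))))) (.b (.a (.a (.b (.l 72) (.a (.l 72) (.b (.l 72) .z))) (.b (.a (.l
72) (.b (.l 72) .z)) .z)) .z) (.a (.a (.b (.a (.b (.l 72) .z) .z) .z) .z) (.b .z (.a .z (.b .z (.a .z (.l 82)))))))) (.a (.b (.a (.l 72) (.a (.b (.a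
(.l 72) (.b (.l 72) .z)) .z) .z)) (.a (.b (.a (.l 72) (.a (.b (.l 72) .z) .z)) (.a (.a (.l 72) (.b (.l 72) .z)) .z)) (.b (.a .z (.b .z (.a .z (.l
82)))) (.a (.b .z (.a .z (.l 82))) (.l 82))))) (.b (.a (.b .z (.a .z (.b (.a .z (.l 82)) (.l 82)))) (.b (.a (.b (.a .z (.l 82)) (.l 82)) (.l 82)) (.l
82))) (.a (.b (.a (.b (.a .z (.l 82)) (.l 82)) (.l 82)) (.l 82)) (.l 82))))) (.b (.a (.b (.a (.b (.a .z (.b (.a (.l 74) .z) .z)) .z) .z) (.a (.b (.a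
(.b .z (.a .z (.l 82))) (.l 82)) (.l 82)) (.a (.b .z (.a (.l 82) (.b .z (.l 82)))) .z))) (.a (.b (.a .z (.b .z (.b .z (.l 145)))) (.a .z (.b (.a .z
(.l 145)) .z))) (.a (.a (.b (.b .z (.l 145)) .z) .z) .z))) (.a (.a (.l 82) (.b (.a (.l 82) (.b (.a (.b .z (.l 82)) .z) (.a (.l 82) (.b .z (.l 82)))))
(.l 82))) (.a (.a (.b .z (.a (.b (.a (.l 82) .z) (.l 82)) (.b .z (.a (.l 82) .z)))) .z) (.a (.a (.b (.a .z (.b .z (.l 71))) (.l 71)) (.b .z (.l 71)))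
(.b .z (.a (.b .z (.l 71)) .z))))))) (.a (.b (.a (.b (.a (.b (.a .z (.b .z (.l 82))) (.a .z (.b (.b .z (.a .z (.l 47))) .z))) (.b (.l 82) (.b (.b (.b
(.l 82) .z) (.l 47)) (.a (.b (.a .z (.l 47)) .z) (.l 47))))) .z) (.b (.b (.l 82) (.b (.b (.b (.l 82) .z) (.l 47)) (.l 47))) (.b (.a (.b (.a (.b (.l
47) (.a .z (.l 47))) (.l 47)) (.a .z (.b (.a .z (.l 47)) .z))) (.l 47)) (.a .z (.b (.a (.b (.a .z (.l 47)) .z) (.b (.l 47) (.a .z (.l 47)))) (.a (.l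
235) .z)))))) (.a (.b (.a (.l 585) .z) (.a (.l 585) .z)) (.b (.a .z (.b (.a .z (.b (.l 235) .z)) .z)) .z))) (.b (.b (.b (.a (.l 82) (.a (.a (.l 82)
(.a .z (.a .z (.l 71)))) (.a (.l 71) (.a (.l 71) (.a (.l 71) .z))))) (.b (.b (.b (.a (.l 82) (.a .z (.l 71))) .z) (.l 47)) (.l 47))) (.a (.b (.l 47)
(.a (.b (.l 47) (.a (.b (.l 47) (.a .z (.l 47))) (.l 47))) (.l 47))) (.l 47))) (.a (.b (.a (.b (.b (.a .z (.b (.l 47) (.a .z (.l 47)))) (.a (.l 235)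
.z)) (.a .z (.l 235))) (.b (.a (.b (.l 47) (.a (.b (.l 47) .z) (.l 47))) (.l 47)) (.a (.b .z (.l 235)) (.b (.a (.b (.l 47) .z) (.l 47)) (.a .z (.b (.l
47) .z)))))) (.a .z (.b (.a (.l 235) (.b .z (.l 235))) (.a .z (.b (.l 235) .z))))) (.b (.l 47) (.a (.b (.a (.b (.a .z (.b (.l 47) .z)) .z) (.b (.l 47)
(.a (.b (.l 47) .z) (.l 47)))) .z) (.b (.l 47) (.a (.b (.l 47) (.a .z (.b (.l 47) .z))) (.l 47)))))))))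

theorem vQ171 : ev Q171 I5_16 I5_18 = 520703864504545 := by decide +kernel

noncomputable def Q78 : QT :=
(.a (.b (.a (.a (.a (.a (.l 56) (.a (.a (.l 56) (.b (.l 56) (.a (.b (.l 56) .z) .z))) (.a (.b (.a (.b (.l 56) .z) .z) .z) .z))) (.b (.a (.b (.l 356)
.z) .z) (.a .z (.b .z (.a .z (.b .z (.l 123))))))) (.a (.b (.a (.b (.a .z (.b (.l 128) .z)) .z) .z) (.a (.b (.a .z (.l 114)) (.a .z (.a .z (.l 114))))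
(.b .z (.a .z (.l 193))))) (.b (.a (.a (.b .z (.l 140)) (.a .z (.l 140))) (.l 140)) (.a .z (.l 140))))) (.b (.a (.b (.a (.b (.a (.l 140) .z) (.l 140))
(.b (.a (.b (.a (.b (.l 4) (.a .z (.a .z (.l 4)))) (.l 4)) (.a .z (.b (.a .z (.l 4)) .z))) (.b (.l 4) (.a (.b (.l 4) (.a (.a .z (.l 4)) (.l 4))) (.l
4)))) (.a (.l 140) (.b (.a .z (.b (.l 4) (.a .z (.a .z (.l 4))))) .z)))) (.a (.l 140) (.a (.l 140) (.a .z (.b .z (.a .z (.l 50))))))) (.b (.a (.b (.l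
4) (.a (.b (.l 4) (.a (.b (.a .z (.l 4)) .z) (.b (.l 4) (.a (.a .z (.l 4)) (.l 4))))) (.l 4))) (.l 4)) (.a (.b (.a (.b (.a (.l 50) .z) (.l 50)) (.b
(.a (.b (.l 4) (.a .z (.l 4))) (.l 4)) (.a .z (.b (.a (.a .z (.l 4)) (.l 4)) .z)))) (.a (.l 50) (.b (.a (.l 50) .z) (.l 50)))) (.b (.l 4) (.a (.b (.a
(.b (.a .z (.a .z (.l 4))) .z) (.b (.l 4) (.a .z (.l 4)))) (.a (.l 50) .z)) (.b (.l 4) (.a (.b (.l 4) (.a .z (.a .z (.l 4)))) (.l 4)))))))) (.a (.a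
(.l 140) (.a (.b (.a (.l 140) .z) (.a .z (.b .z (.a .z (.l 50))))) (.b (.a (.b .z (.a .z (.l 50))) (.l 50)) (.l 50)))) (.b (.a (.l 50) (.b (.a (.l 50)
(.b (.a .z (.b (.a .z (.l 4)) .z)) (.l 50))) (.l 50))) (.l 50))))) (.a (.a (.b (.a (.b (.a (.l 56) (.a (.a (.a (.l 56) .z) .z) (.l 201))) (.a (.b (.l
56) (.a (.b (.l 56) .z) (.l 56))) (.a (.a (.a (.l 56) .z) .z) .z))) (.a (.b .z (.a (.b .z (.l 123)) (.l 123))) (.l 123))) (.a (.b (.a (.b .z (.b .z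
(.a .z (.l 58)))) (.b (.a .z (.l 123)) (.a (.b .z (.l 58)) .z))) (.l 58)) (.b (.a (.b (.l 123) (.a .z (.l 123))) (.l 123)) (.a (.b .z (.a (.l 58) (.b
.z (.l 58)))) (.b (.l 123) .z))))) (.a (.a (.b (.a (.l 123) (.b .z (.l 123))) (.l 123)) (.b .z (.a (.b (.a (.l 123) .z) (.l 123)) (.b .z (.a (.l 123)
.z))))) .z)) (.a (.a (.b (.a (.b (.l 140) (.a .z (.l 140))) (.b (.a (.l 140) .z) (.a .z (.b .z (.a .z (.l 50)))))) (.a (.b .z (.a .z (.b (.a .z (.l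
50)) (.l 50)))) (.b (.a (.b (.a .z (.l 50)) (.l 50)) (.l 50)) (.l 50)))) (.b (.a (.b (.a (.b .z (.a .z (.l 50))) (.l 50)) (.l 50)) (.l 50)) (.l 50)))
(.l 50)))) (.b (.a (.b (.l 4) (.a (.b (.a (.b (.a (.b (.a (.b (.l 4) (.a (.a .z (.l 4)) (.l 4))) (.l 4)) (.a (.b (.a .z (.a .z (.l 4))) .z) (.b (.l 4)
(.a .z (.l 4))))) (.l 4)) (.a (.b (.a (.l 50) .z) (.l 50)) (.b (.a (.b (.a (.a .z (.l 4)) (.l 4)) (.a .z (.a .z (.l 4)))) (.l 4)) (.a .z (.b (.a .z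
(.l 4)) .z))))) (.b (.l 4) (.a (.b (.l 4) (.a (.b (.l 4) (.a (.a .z (.l 4)) (.l 4))) (.l 4))) (.l 4)))) (.a (.l 50) (.b (.a (.b (.a (.b (.a .z (.a .z
(.l 4))) .z) (.b (.l 4) (.a .z (.l 4)))) (.a (.l 50) .z)) (.b (.l 4) (.a (.b (.l 4) (.a .z (.a .z (.l 4)))) (.l 4)))) (.a (.l 50) (.b (.a .z (.b (.a
.z (.l 4)) .z)) (.a (.l 50) .z)))))) (.b (.l 4) (.a (.b (.l 4) (.a (.b (.l 4) (.a (.b (.a .z (.a .z (.l 4))) .z) (.b (.l 4) (.a (.a .z (.l 4)) (.l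
4))))) (.l 4))) (.l 4))))) (.l 4)) (.a (.b (.a (.l 50) (.b (.a (.b (.a (.b (.a (.l 50) .z) (.l 50)) (.b (.a (.b (.l 4) (.a .z (.l 4))) (.l 4)) (.a .z
(.b (.l 4) (.a .z (.a .z (.l 4))))))) (.a (.l 50) (.b (.a (.l 50) .z) (.l 50)))) (.b (.l 4) (.a (.b (.a (.b (.a (.a .z (.l 4)) (.l 4)) .z) (.l 4)) (.a
.z (.b (.a .z (.l 4)) .z))) (.b (.l 4) (.a (.b (.l 4) (.a (.a .z (.l 4)) (.l 4))) (.l 4)))))) (.a (.l 50) (.b (.a (.l 50) (.b (.a (.b (.a .z (.a .z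
(.l 4))) .z) (.b (.l 4) (.a (.a .z (.l 4)) (.l 4)))) (.a (.l 50) .z))) (.l 50))))) (.l 50)) (.b (.a (.b (.l 4) (.a (.b (.a (.b (.l 4) (.a (.b (.l 4)
(.a .z (.l 4))) (.l 4))) (.l 4)) (.a (.b (.a .z (.b (.l 4) (.a .z (.a .z (.l 4))))) (.a (.l 50) .z)) (.b (.l 4) (.a (.b (.a (.a .z (.l 4)) (.l 4)) (.a
.z (.a .z (.l 4)))) (.l 4))))) (.l 4))) (.l 4)) (.a (.b (.a (.b (.a (.l 50) (.b (.a .z (.b (.a (.a .z (.l 4)) (.l 4)) .z)) (.a (.l 50) .z))) (.l 50))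
(.b (.a (.b (.l 4) (.a (.b (.a .z (.l 4)) .z) (.l 4))) (.l 4)) (.a (.b (.a .z (.b (.a .z (.l 4)) .z)) (.a (.l 50) .z)) (.b (.l 4) (.a (.b (.a .z (.a
.z (.l 4))) .z) (.b (.l 4) (.a (.a .z (.l 4)) (.l 4)))))))) (.a (.b (.l 50) (.b (.l 50) (.a (.b (.l 50) .z) .z))) (.b (.a (.l 50) (.b (.a (.l 50) (.b
(.a .z (.a .z (.l 4))) .z)) (.l 50))) (.a (.b (.b (.l 50) .z) (.b .z (.l 44))) (.a (.b .z (.l 44)) .z))))) (.b (.l 4) (.a (.b (.a (.b (.a (.b (.l 4)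
(.a (.a .z (.l 4)) (.l 4))) (.l 4)) (.a (.b (.a .z (.a .z (.l 4))) .z) (.b (.l 4) (.a (.a .z (.l 4)) (.l 4))))) (.l 4)) (.a (.b (.a (.a .z (.b .z (.a
.z (.l 6)))) (.b .z (.a (.l 6) (.a (.l 6) .z)))) (.a (.a (.b (.a .z (.l 6)) (.l 6)) (.l 6)) (.l 6))) (.b (.a (.b (.l 4) (.a .z (.l 4))) (.l 4)) (.a
(.b (.a (.a (.l 6) .z) .z) (.a (.l 6) (.a (.l 6) .z))) (.b (.l 4) (.a .z (.l 4))))))) (.l 4))))))))

theorem vQ78 : ev Q78 I4_2 I6_44 = 787016031131516 := by decide +kernel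

noncomputable def Q175 : QT :=
(.a (.b (.a (.b (.a (.b (.a (.b (.l 47) (.a (.b (.l 47) (.a (.l 47) .z)) (.b (.a (.l 47) .z) .z))) (.b (.a (.b (.l 47) (.a (.l 47) .z)) (.b (.a (.l
47) .z) .z)) (.a (.b .z (.l 72)) (.l 72)))) (.a (.b (.a (.b .z (.l 72)) (.l 72)) (.l 72)) (.l 72))) (.b (.a (.b (.a (.b .z (.l 72)) (.l 72)) (.l 72))
(.b (.a (.l 72) .z) .z)) (.a (.a (.b (.l 72) .z) .z) .z))) (.a (.a (.b (.a (.b (.l 72) .z) (.l 72)) .z) (.b (.a (.b (.l 72) (.a (.l 72) .z)) (.b .z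
(.a .z (.b .z (.l 55))))) (.a .z (.b (.b (.l 55) .z) .z)))) (.a (.b (.a (.b .z (.b .z (.b .z (.l 55)))) (.b .z (.b .z (.b .z (.l 55))))) (.b (.b (.a
(.b (.l 55) .z) .z) .z) .z)) .z))) (.b (.a (.b (.a .z (.b (.b (.l 211) .z) .z)) .z) .z) (.b .z (.b .z (.b .z (.a (.l 190) (.a (.l 190) .z))))))) (.b
(.a (.b (.a (.a (.a .z (.b (.a .z (.l 127)) .z)) .z) (.b (.a .z (.l 190)) (.b .z (.a .z (.b .z (.l 41)))))) (.a (.b (.b (.a .z (.b .z (.l 41))) (.l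
41)) (.l 41)) (.b (.l 41) (.a (.l 41) (.b (.l 41) (.a (.l 41) (.b (.l 41) .z))))))) (.b (.a (.b (.b (.l 190) (.a (.l 190) .z)) (.b (.a (.b .z (.a .z
(.l 41))) (.b (.a .z (.l 41)) (.l 41))) (.l 41))) (.b (.a (.b .z (.b (.a .z (.l 41)) (.l 41))) (.b .z (.a (.b (.l 41) .z) .z))) (.a (.b (.a (.l 41)
(.b (.l 41) .z)) (.a (.b (.l 41) .z) .z)) (.b (.a .z (.l 47)) (.l 47))))) (.a (.b (.a (.l 41) (.b (.a (.l 41) .z) (.a .z (.b .z (.l 47))))) (.a (.b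
(.a (.l 41) .z) (.a .z (.b .z (.l 47)))) (.b (.a (.b .z (.l 47)) (.l 47)) (.l 47)))) (.b (.a (.b (.a (.b .z (.l 47)) (.l 47)) (.l 47)) (.l 47)) (.l
47))))) (.a (.b (.a (.b (.l 41) (.a (.l 41) (.b (.l 41) (.a (.l 41) .z)))) (.b (.a (.b (.l 41) (.a (.l 41) (.b (.l 41) .z))) (.b (.a (.b (.l 41) .z)
.z) (.a .z (.l 47)))) (.a (.b (.a .z (.b .z (.l 47))) (.a (.b .z (.l 47)) (.l 47))) (.l 47)))) (.a (.b (.a (.b (.a (.l 41) (.b (.l 41) .z)) (.a (.b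
(.l 41) .z) .z)) (.b (.a .z (.b .z (.l 47))) (.l 47))) (.a (.b (.a .z (.l 47)) (.l 47)) (.l 47))) (.b (.l 47) (.b (.l 47) (.b (.l 47) (.a (.b (.l 47)
.z) .z)))))) (.b (.l 47) (.b (.b (.l 47) (.a (.l 47) (.b (.l 47) (.a (.l 47) (.b (.l 47) .z))))) (.b (.a (.b (.l 47) (.a (.l 47) (.b (.l 47) .z))) (.b
(.a (.b (.l 47) .z) (.b .z (.a .z (.l 32)))) (.a (.b .z (.a .z (.l 32))) (.l 32)))) (.a (.b (.a .z (.b (.a .z (.l 32)) (.l 32))) (.a (.b (.a .z (.l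
32)) (.l 32)) (.l 32))) (.l 32)))))))) (.b (.b (.a .z (.b .z (.a (.b (.a (.b .z (.l 164)) .z) .z) .z))) (.a (.b .z (.a (.b .z (.a .z (.b .z (.a (.b .z
(.l 47)) (.l 47))))) (.b (.a .z (.b .z (.l 106))) (.b (.b (.l 106) (.b (.l 106) .z)) (.l 47))))) (.b (.a (.b .z (.a .z (.b .z (.l 106)))) (.b (.a (.b
.z (.a .z (.l 106))) (.l 106)) (.l 106))) (.b (.l 106) (.b (.b (.l 106) (.b (.l 106) .z)) (.l 47)))))) (.b (.a (.b (.a (.b (.a (.b (.a .z (.b .z (.l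
47))) (.l 47)) (.l 47)) (.l 47)) (.l 47)) (.l 47)) (.l 47)) (.b (.a (.b (.l 47) (.a (.l 47) (.b (.l 47) (.a (.l 47) (.b (.l 47) .z))))) (.b (.a (.l
47) (.b (.a (.l 47) (.b (.l 47) (.a (.l 47) .z))) (.a (.b (.a (.l 47) .z) .z) (.b (.a .z (.b .z (.l 32))) (.l 32))))) (.a (.b (.a (.b (.l 47) (.a (.l
47) .z)) (.b (.a (.l 47) .z) (.a .z (.b .z (.l 32))))) (.a (.b .z (.a (.b .z (.l 32)) (.l 32))) (.l 32))) (.b (.a (.b (.a .z (.l 32)) (.l 32)) (.l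
32)) (.l 32))))) (.a (.b (.a (.b (.a (.l 47) (.b (.l 47) (.a (.l 47) .z))) (.a (.b (.a (.l 47) .z) (.b .z (.a .z (.l 32)))) (.b (.a .z (.b .z (.l
32))) (.l 32)))) (.b (.a (.b (.a (.l 47) .z) (.a .z (.b .z (.l 32)))) (.b (.a .z (.l 32)) (.l 32))) (.l 32))) (.l 32)) (.l 32))))))

theorem vQ175 : ev Q175 I5_18 I5_19 = 523087916262809 := by decide +kernel

noncomputable def Q194 : QT :=
(.a (.b (.a (.b (.b (.l 15) (.b (.l 15) (.b (.b (.l 15) (.a (.b (.l 15) (.a .z (.l 15))) (.l 15))) (.b (.a (.b .z (.a (.l 17) .z)) (.b (.l 15) (.a .z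
(.a .z (.l 15))))) (.a (.l 17) (.b (.a (.l 17) .z) (.l 17))))))) (.a (.b (.b (.b (.b (.l 17) (.b (.l 17) .z)) .z) (.b (.b .z (.a .z (.l 55))) (.l
55))) (.l 55)) (.b (.b (.b (.b (.b (.l 17) (.a (.l 17) .z)) .z) (.a .z (.b .z (.l 55)))) (.l 55)) (.a (.l 55) (.b (.a (.l 55) (.b (.l 55) .z)) (.a (.b
.z (.a .z (.b .z (.l 15)))) (.b (.a .z (.l 15)) (.l 15)))))))) (.b (.a (.b (.l 15) (.a (.b (.l 15) (.b (.l 15) (.b (.l 15) (.b (.a .z (.l 15)) .z))))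
(.b (.l 15) (.a (.b (.l 15) (.b (.l 15) (.b (.l 15) .z))) (.b (.l 15) (.a (.b (.l 15) .z) (.b (.l 15) .z))))))) (.b (.a (.l 15) (.b (.l 15) (.a (.b
(.l 15) (.a (.l 15) (.b (.l 15) .z))) (.b (.a (.b (.l 15) .z) .z) (.a .z (.l 11)))))) (.a (.b (.a (.l 15) (.b (.a (.l 15) (.b (.l 15) .z)) (.a (.b (.l
15) .z) .z))) (.a (.b (.a (.b (.l 15) .z) .z) (.a .z (.b (.l 11) .z))) (.b (.a (.b .z (.l 11)) (.l 11)) (.b (.l 11) (.b (.l 11) .z))))) (.b (.a (.b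
(.a .z (.b .z (.l 11))) (.l 11)) (.l 11)) (.b (.l 11) (.b (.l 11) .z)))))) (.a (.b (.a (.b (.b .z (.l 55)) (.a (.b (.l 55) .z) (.b .z (.a .z (.b .z
(.l 15)))))) (.b (.a .z (.b (.a .z (.b .z (.l 15))) (.l 15))) (.a (.b (.a (.b .z (.l 15)) (.l 15)) (.l 15)) (.l 15)))) (.a (.b (.a (.b .z (.a (.b .z
(.l 15)) (.l 15))) (.l 15)) (.l 15)) (.l 15))) (.b (.b (.b (.b (.b .z (.a (.l 15) .z)) (.l 15)) (.l 15)) (.l 15)) (.l 15))))) (.a (.b (.a (.b (.a (.l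
55) (.b (.l 55) (.a (.l 55) (.b (.l 55) .z)))) (.a (.b (.b (.l 55) .z) (.a (.b (.l 23) (.a (.l 23) .z)) (.b (.a (.l 23) .z) .z))) (.b (.a .z (.b (.a
.z (.l 15)) (.b (.b (.l 15) .z) .z))) (.a (.b .z (.l 53)) (.b .z (.l 53)))))) (.b (.a (.b (.a (.b (.l 55) .z) (.b .z (.a .z (.l 15)))) (.a (.b (.a .z
(.b .z (.l 15))) (.a (.b .z (.l 15)) (.l 15))) (.l 15))) (.b (.a (.b (.a (.b .z (.l 15)) (.l 15)) (.l 15)) (.l 15)) (.l 15))) (.b (.b (.b (.a (.l 15)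
(.b (.l 15) (.a (.l 15) .z))) (.a (.b (.l 15) (.a (.l 15) .z)) .z)) .z) (.b .z (.a (.l 53) (.b .z (.l 53))))))) (.a (.b (.a (.b (.a .z (.l 53)) (.l
53)) (.l 53)) (.b (.b (.l 53) (.b (.l 53) (.a (.l 53) .z))) (.b .z (.b (.b .z (.l 59)) .z)))) (.b (.l 53) (.b (.b (.l 53) (.b .z (.a .z (.l 37)))) (.b
(.b (.l 37) .z) (.l 59)))))) (.b (.b (.b (.l 15) (.b (.a (.l 15) (.b (.l 15) (.a (.b (.l 15) (.a (.l 15) .z)) .z))) (.a (.b (.a (.l 15) (.b (.l 15)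
(.a (.l 15) .z))) (.a (.b (.l 15) (.a (.l 15) .z)) .z)) .z))) (.b (.b (.a .z (.b .z (.l 112))) (.l 112)) .z)) (.b (.b (.a (.b (.a (.b .z (.l 53)) .z)
(.l 53)) (.b .z (.a (.b .z (.l 53)) .z))) (.b (.l 53) (.a (.l 53) (.b (.a (.l 53) .z) .z)))) (.b (.b (.a (.b (.a (.l 53) .z) .z) (.b (.a .z (.l 37))
(.l 37))) (.a (.b (.a .z (.l 37)) (.l 37)) (.b (.l 37) (.b (.l 37) .z)))) (.b (.b (.a .z (.b .z (.l 59))) (.a (.b .z (.l 59)) (.l 59))) (.l 59)))))))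
(.b (.a (.b (.a (.b (.a (.b (.a (.b (.a (.l 15) (.b (.l 15) .z)) (.a (.b (.l 15) .z) .z)) (.b (.a .z (.b .z (.l 11))) (.l 11))) (.a (.b (.a (.b .z (.l
11)) (.l 11)) (.l 11)) (.l 11))) (.l 11)) (.b (.l 11) (.b (.l 11) (.b (.b (.a (.l 11) (.a (.l 11) .z)) .z) (.b .z (.l 47)))))) (.b (.l 11) (.b (.l 11)
(.b (.b (.l 11) (.b (.l 11) (.a (.a (.l 11) .z) .z))) (.b (.b .z (.l 47)) (.l 47)))))) (.b (.b (.b (.b (.a (.b (.l 47) .z) (.l 47)) (.a (.b .z (.a (.l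
15) .z)) (.b (.l 47) .z))) (.b (.a (.l 15) (.b (.a (.a (.l 15) .z) .z) (.a (.l 15) (.a (.l 15) .z)))) (.l 15))) (.l 15)) (.l 15))) (.b (.b (.l 11) (.b
(.b (.l 11) (.b (.l 11) (.a (.l 11) (.b (.l 11) (.a (.l 11) (.a (.l 11) .z)))))) (.b (.b (.a (.b (.l 11) (.a (.l 11) .z)) (.b (.a (.a (.l 11) .z) .z)
.z)) (.a .z (.l 47))) (.l 47)))) (.b (.b (.b (.l 47) (.b (.a (.b (.l 47) .z) (.l 47)) (.a (.b (.a (.l 15) .z) (.l 15)) .z))) (.b (.b (.a (.l 15) (.b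
(.a (.l 15) .z) (.l 15))) (.l 15)) (.l 15))) (.b (.l 15) (.b (.a (.l 15) (.b (.l 15) (.a (.l 15) (.b (.l 15) (.a (.l 15) .z))))) (.a (.b (.l 15) (.a
(.l 15) (.b (.a (.l 15) .z) .z))) (.b (.a (.b (.l 15) (.a (.l 15) .z)) .z) .z))))))) (.b (.b (.b (.a (.b (.a (.l 15) (.b (.l 15) (.a (.l 15) (.b (.a
(.l 15) .z) .z)))) (.a (.b (.l 15) (.a (.l 15) (.b (.a (.l 15) .z) .z))) (.b (.a (.b (.a (.l 15) .z) .z) .z) .z))) (.b (.a (.b (.a (.b (.a (.l 15) .z)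
.z) .z) .z) (.a (.l 90) .z)) (.b (.a .z (.l 90)) .z))) (.a (.b (.a (.b (.a (.b (.a (.l 15) .z) .z) .z) .z) .z) (.a (.b .z (.l 112)) (.l 112))) (.b (.a
(.b .z (.l 112)) (.l 112)) (.l 112)))) (.b (.a (.l 112) (.b (.l 112) (.a (.l 112) (.b (.l 112) .z)))) (.a (.b (.b (.l 112) (.a .z (.l 112))) .z) .z)))
(.b (.b (.a .z (.b .z (.a (.b .z (.a .z (.l 37))) (.a .z (.l 55))))) (.a (.b (.a .z (.b .z (.l 37))) (.a (.b (.a .z (.l 37)) (.l 37)) (.l 37))) (.a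
(.a (.l 37) (.b (.a (.l 37) .z) .z)) (.a (.b (.a .z (.l 55)) (.l 55)) (.l 55))))) (.b (.b (.a (.l 37) (.b (.a .z (.l 55)) .z)) (.a (.b (.a (.l 37) .z)
(.a .z (.b .z (.l 59)))) (.b (.a .z (.l 77)) (.a (.a (.l 59) .z) (.l 77))))) (.a (.l 59) (.a (.b (.a (.l 59) (.b .z (.l 59))) (.b (.l 59) (.a (.l 59)
.z))) .z)))))))

theorem vQ194 : ev Q194 I6_33 I5_28 = 357864281130612 := by decide +kernel

noncomputable def Q172 : QT :=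
(.b (.b (.a .z (.a (.b .z (.b (.a (.a (.b .z (.l 177)) (.l 177)) (.b .z (.a .z (.b .z (.a .z (.l 49)))))) (.a (.b (.a (.l 177) .z) (.a .z (.b .z (.a
.z (.l 49))))) (.b (.a (.b .z (.a .z (.l 49))) (.l 49)) (.l 49))))) (.b (.a (.b (.l 177) (.b .z (.a .z (.b .z (.a .z (.l 49)))))) (.b (.a .z (.b (.a
(.b (.l 47) .z) (.l 47)) (.a .z (.b (.l 47) .z)))) (.a (.b (.a .z (.b .z (.l 49))) (.l 49)) (.b (.a (.l 49) .z) (.l 49))))) (.b (.a (.b (.a (.b .z (.a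
.z (.l 49))) (.l 49)) (.l 49)) (.l 49)) (.l 49))))) (.b (.a (.a (.b (.a (.b .z (.l 507)) .z) (.a (.l 507) .z)) (.b (.a .z (.b .z (.a .z (.b (.a .z (.l
49)) (.l 49))))) (.a (.b .z (.a (.b .z (.a .z (.l 49))) (.b (.a .z (.l 49)) (.l 49)))) (.b (.a (.b (.a .z (.l 49)) (.l 49)) (.l 49)) (.l 49))))) (.b
(.a (.a (.b (.a (.b .z (.a .z (.l 49))) (.l 49)) (.l 49)) (.l 49)) (.b (.l 49) (.a (.l 49) (.b (.l 49) (.a (.l 49) .z))))) (.a (.b (.l 49) (.a (.b (.l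
49) (.a (.l 49) (.b (.l 49) .z))) (.b (.a (.l 49) (.b (.l 49) .z)) .z))) (.b (.a (.b (.l 49) (.a (.b (.l 49) .z) .z)) .z) (.a .z (.l 321)))))) (.a (.b
(.a (.b (.a .z (.a .z (.b .z (.a .z (.l 49))))) (.a .z (.b (.a (.a .z (.l 49)) (.l 49)) (.a (.l 49) (.b (.l 49) .z))))) (.b (.a (.l 49) (.b (.l 49)
(.a (.b (.l 49) .z) .z))) (.a (.b (.a (.b (.l 49) .z) .z) .z) .z))) (.a (.b .z (.a (.b (.a (.b .z (.l 61)) .z) (.l 61)) (.b .z (.a (.b .z (.l 61))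
.z)))) .z)) (.b (.a (.b (.a (.b (.a (.b (.l 49) .z) .z) .z) .z) .z) .z) .z)))) (.b (.b (.a (.b (.a (.l 61) (.b (.a (.b (.a (.b .z (.l 61)) .z) (.l
61)) (.b .z (.a (.b .z (.l 61)) .z))) (.a (.l 61) (.b (.a (.l 61) (.b .z (.l 61))) (.l 61))))) (.l 61)) (.b (.a (.b .z (.a (.b .z (.a (.l 61) (.b .z
(.l 61)))) .z)) (.a (.a (.b .z (.l 197)) .z) .z)) (.a (.b (.a (.l 61) (.b (.a (.b .z (.l 61)) .z) (.a (.l 61) (.b .z (.l 61))))) (.l 61)) (.b (.a .z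
(.a .z (.a .z (.l 113)))) (.a (.b (.a (.l 61) .z) (.l 61)) (.b (.a .z (.l 113)) .z)))))) (.a (.l 61) (.a (.l 61) (.b (.a (.l 61) (.b (.a (.l 61) (.b
.z (.l 61))) (.l 61))) (.l 61))))) (.b (.l 61) (.a (.b (.a (.b (.l 61) (.a (.b (.a (.b (.l 61) .z) (.l 61)) (.a (.b .z (.l 56)) .z)) (.b (.l 61) (.a
(.b (.l 61) .z) (.l 61))))) (.l 61)) (.a (.b (.a (.l 56) (.b (.a (.b .z (.l 56)) .z) (.l 56))) (.l 56)) (.b (.a (.b (.a (.b (.l 61) .z) (.l 61)) (.a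
.z (.b (.l 61) .z))) (.l 61)) (.a (.b (.a (.l 56) (.b .z (.l 56))) (.l 56)) (.b (.a .z (.b (.l 61) .z)) (.a (.l 56) .z)))))) (.b (.l 61) (.a (.b (.l
61) (.a (.b (.l 61) (.a (.b (.l 61) .z) (.l 61))) (.l 61))) (.l 61)))))))

theorem vQ172 : ev Q172 I5_16 I5_19 = 574586160159332 := by decide +kernel

noncomputable def Q3 : QT :=
(.a (.b (.b (.a .z (.a .z (.b (.a (.b .z (.b (.l 433) .z)) (.b (.a (.a .z (.l 176)) .z) .z)) (.b (.a .z (.b (.a (.b (.l 116) .z) .z) .z)) .z)))) .z)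
.z) (.a (.b (.a (.b (.b (.b (.a (.a .z (.b .z (.l 116))) (.a (.b (.l 116) .z) .z)) (.a (.b (.a (.a .z (.l 116)) .z) .z) .z)) .z) .z) (.a .z (.b .z (.a
(.b (.b (.b .z (.b .z (.l 114))) (.b (.l 114) (.b (.l 114) .z))) (.b .z (.a (.l 164) .z))) .z)))) (.a (.a (.b (.a (.b .z (.a (.l 291) .z)) .z) .z) (.a
.z (.b (.b .z (.a .z (.b .z (.l 146)))) (.a .z (.b (.l 146) (.a .z (.l 146))))))) (.b (.a (.a (.b .z (.a (.l 146) (.b .z (.l 146)))) .z) (.b (.a (.a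
(.b (.l 164) .z) .z) (.a .z (.b .z (.a .z (.b .z (.l 60)))))) (.a (.b .z (.a .z (.b .z (.a .z (.l 60))))) (.b (.a (.b .z (.a .z (.l 60))) (.l 60)) (.l
60))))) (.a (.b (.a (.l 146) (.b .z (.a .z (.b .z (.a .z (.l 60)))))) (.a (.b (.a (.l 146) .z) (.a .z (.b (.a .z (.l 60)) (.l 60)))) (.b (.a (.b (.a
.z (.l 60)) (.l 60)) (.l 60)) (.l 60)))) (.b (.a (.b (.a (.b .z (.a .z (.l 60))) (.l 60)) (.l 60)) (.l 60)) (.a (.b (.l 60) (.a (.l 60) (.b (.l 60)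
(.a (.l 60) .z)))) (.b (.a (.l 60) (.b (.a (.l 60) .z) .z)) (.a (.b (.a (.l 60) .z) .z) .z)))))))) (.a (.b (.a (.b (.a (.b (.a (.a (.l 114) (.a .z (.l
90))) (.a (.l 90) .z)) (.a .z (.a (.a (.l 90) .z) .z))) .z) (.a (.b .z (.a .z (.b .z (.a .z (.b .z (.l 60)))))) (.b .z (.a (.b .z (.a (.l 60) .z))
.z)))) (.b (.a (.a .z (.a .z (.b .z (.l 124)))) (.l 124)) (.a .z (.b (.a (.a (.b (.l 124) .z) (.l 124)) (.b (.l 124) (.a (.l 124) .z))) (.a (.b (.a .z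
(.l 124)) .z) .z))))) (.b (.a (.b (.a (.a (.b (.a .z (.b .z (.l 60))) (.l 60)) (.l 60)) (.a (.l 60) (.a (.b .z (.l 60)) .z))) (.a (.l 60) (.b (.a (.l
60) (.b (.l 60) (.a (.l 60) .z))) (.a (.b (.l 60) (.a (.l 60) .z)) .z)))) .z) (.a (.b (.a (.b (.a (.l 60) (.b (.l 60) (.a (.l 60) .z))) (.a (.b (.l
60) .z) .z)) .z) .z) .z))) (.b (.a (.b (.a (.b (.a (.l 124) (.b (.l 124) (.a (.l 124) .z))) (.a (.b (.l 124) (.a (.l 124) .z)) .z)) .z) .z) .z) (.b .z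
(.a .z (.b .z (.b (.b .z (.b .z (.a .z (.l 130)))) (.a .z (.l 130))))))))))

theorem vQ3 : ev Q3 I3_0 I6_10 = 158786170410134 := by decide +kernel

noncomputable def Q261 : QT :=
(.a (.a (.b (.b (.b (.b (.l 18) (.b (.b (.a (.b (.l 18) (.a (.l 18) (.a (.l 18) .z))) (.b (.a (.l 18) .z) (.a .z (.a .z (.l 21))))) (.a (.b .z (.l
21)) (.l 21))) (.l 21))) (.b (.a (.b (.l 21) (.a (.l 21) (.b (.l 21) (.a (.l 21) (.b (.l 21) .z))))) (.b (.a (.l 21) (.b (.a (.l 21) .z) .z)) (.a (.b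
(.a (.b (.l 21) .z) .z) .z) .z))) (.a (.b (.a (.b (.l 21) (.a (.l 21) .z)) .z) .z) .z))) (.a (.b .z (.b .z (.a (.b .z (.b .z (.l 85))) (.b (.b (.l 82)
.z) (.b (.l 85) .z))))) (.a (.b .z (.b .z (.b (.b (.l 82) .z) .z))) .z))) (.a (.b (.a (.b (.b (.b (.b (.l 85) .z) .z) .z) (.b (.b (.b .z (.b .z (.l
23))) (.l 23)) (.l 23))) (.b .z (.a (.b (.b (.b .z (.b .z (.l 23))) (.l 23)) (.l 23)) (.b (.b (.b .z (.b .z (.l 23))) (.l 23)) (.a (.b (.l 23) (.a (.l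
23) .z)) (.b (.a (.l 23) .z) .z)))))) (.a (.b (.a (.l 23) (.b (.l 23) (.a (.l 23) (.b (.l 23) (.a (.l 23) .z))))) (.a (.b (.b (.l 23) (.b (.b .z (.l
29)) (.l 29))) (.a (.b (.l 29) .z) (.b .z (.a .z (.l 25))))) (.b (.a (.b (.a (.l 23) .z) .z) (.b .z (.l 25))) (.a (.b (.a .z (.l 25)) (.l 25)) (.l
25))))) (.b (.a (.b (.a (.l 23) (.b (.l 23) .z)) (.a (.b .z (.a .z (.l 25))) (.b (.a .z (.l 25)) (.l 25)))) (.b (.a (.b .z (.a .z (.l 25))) (.l 25))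
(.l 25))) (.l 25)))) (.b (.a (.b (.a (.b .z (.b .z (.b .z (.l 45)))) .z) (.a (.b (.a (.b (.b .z (.l 23)) (.a (.l 23) .z)) (.b .z (.a .z (.l 25)))) (.a
(.b .z (.l 25)) (.l 25))) (.b (.a (.b (.a .z (.l 25)) (.l 25)) (.l 25)) (.l 25)))) (.b (.a (.b .z (.a (.b .z (.b .z (.l 25))) (.b .z (.b .z (.l
25))))) (.b (.b .z (.l 98)) (.b (.l 98) (.b .z (.l 25))))) (.l 25))) (.b (.l 25) (.b (.l 25) (.b (.l 25) (.a (.b (.l 25) (.a (.l 25) (.b (.l 25) .z)))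
(.b (.a (.l 25) .z) .z)))))))) (.b (.b (.a (.b (.b (.b (.l 18) (.b (.l 18) (.b (.l 18) (.a (.a (.l 18) .z) .z)))) (.b (.b (.b (.a .z (.l 21)) (.l 21))
(.a (.l 21) (.a (.b (.l 21) .z) .z))) (.a (.b (.a (.l 21) (.b (.l 21) .z)) (.a (.b (.l 21) .z) .z)) .z))) (.a .z (.b .z (.a .z (.b .z (.a .z (.l
19))))))) (.b (.a (.b (.b (.l 18) (.b (.l 18) .z)) (.a .z (.b .z (.a .z (.l 19))))) (.b (.a (.b (.a (.l 18) .z) (.a .z (.b .z (.l 19)))) (.b (.a (.b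
.z (.l 18)) (.b (.l 18) .z)) (.b (.b .z (.l 19)) (.l 19)))) (.a (.b (.a (.b .z (.l 19)) (.l 19)) (.l 19)) (.l 19)))) (.a (.b (.a (.b .z (.a .z (.l
19))) (.l 19)) (.l 19)) (.l 19)))) (.a (.a (.b (.a .z (.b .z (.a .z (.b .z (.l 19))))) (.a (.b (.a .z (.b .z (.l 19))) (.b (.l 19) .z)) (.b (.l 19)
(.b (.l 19) (.b (.b (.l 19) .z) .z))))) (.b (.b (.a (.b .z (.a .z (.l 19))) (.l 19)) (.l 19)) (.b (.l 19) (.b (.l 19) (.b (.l 19) (.b (.a .z (.l 19))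
.z)))))) (.l 19))) (.b (.b (.b (.a (.b (.b .z (.a .z (.l 98))) (.l 98)) (.b (.a (.b (.b (.a .z (.l 19)) .z) .z) (.b (.l 19) (.a .z (.b (.l 19) .z))))
(.a (.l 98) (.b .z (.l 98))))) (.b (.b (.a (.l 98) (.a (.l 98) .z)) (.b (.a (.l 98) .z) (.a (.l 98) .z))) (.b (.b (.a .z (.a .z (.a .z (.l 25)))) (.a
(.a (.a .z (.l 25)) (.l 25)) (.l 25))) (.l 25)))) (.l 25)) (.b (.l 25) (.b (.a (.l 25) (.b (.a (.l 25) (.b (.l 25) (.a (.l 25) (.b (.l 25) .z)))) (.a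
(.b (.a (.l 25) (.b (.l 25) .z)) .z) (.b .z (.l 107))))) (.a (.b (.a (.b (.l 25) (.a (.b (.l 25) .z) .z)) (.b (.a (.b (.l 25) .z) .z) .z)) .z)
.z)))))) (.b (.b (.b (.a (.b (.a (.b (.a (.b (.a (.b (.l 18) .z) .z) (.a .z (.l 19))) (.l 19)) (.l 19)) (.l 19)) (.l 19)) (.l 19)) (.l 19)) (.l 19))
(.b (.b (.b (.b (.l 19) (.a (.a (.a (.b (.a .z (.b (.l 19) .z)) .z) (.b (.l 19) (.a (.b (.l 19) .z) (.l 19)))) (.l 19)) (.b (.l 19) (.a (.l 19) (.b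
(.l 19) (.a (.l 19) (.a (.l 19) .z))))))) (.b (.b (.a (.b (.a .z (.l 19)) (.a .z (.a (.a .z (.l 19)) (.a (.l 19) .z)))) (.b (.a (.a (.l 19) (.a (.l
19) .z)) .z) (.a .z (.l 25)))) (.a (.b .z (.a (.a .z (.a .z (.l 25))) (.l 25))) (.l 25))) (.l 25))) (.a (.l 25) (.b (.l 25) (.a (.l 25) (.b (.l 25)
(.a (.l 25) (.b (.a (.l 25) (.b (.l 25) .z)) .z))))))) (.a (.b (.b (.l 25) (.a (.b (.l 25) (.a (.l 25) (.b (.l 25) (.a (.b (.l 25) .z) .z)))) (.b (.a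
(.b (.l 25) (.a (.l 25) (.b (.l 25) .z))) (.b (.a (.l 25) .z) .z)) (.a .z (.b (.l 107) .z))))) (.b (.a (.b (.a (.b (.a (.b (.l 25) .z) .z) .z) (.b .z
(.l 107))) (.a (.b (.l 107) .z) .z)) (.b (.a (.b (.l 107) .z) (.b .z (.a .z (.l 56)))) (.a (.b (.a .z (.l 56)) (.b (.l 56) .z)) (.b (.l 56) .z))))
.z)) (.b (.b (.a (.b (.a (.l 25) (.b (.l 25) (.a (.l 25) (.b (.l 25) .z)))) (.a (.b (.l 25) (.a (.b (.l 25) .z) .z)) .z)) (.b (.a (.b (.a (.b (.l 25)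
.z) .z) .z) .z) (.a .z (.b .z (.a .z (.l 56)))))) (.a (.b .z (.a .z (.b (.a .z (.l 56)) (.l 56)))) (.b (.a (.b .z (.a .z (.l 56))) (.l 56)) (.a (.l
56) (.a (.l 56) .z))))) (.a (.b (.b (.l 56) (.b (.l 56) .z)) .z) (.b (.b (.a (.l 56) .z) (.b (.b (.a (.l 56) .z) .z) .z)) (.a .z (.b (.b (.l 125) .z)
.z)))))))))

theorem vQ261 : ev Q261 I5_25 I5_29 = 710246244021638 := by decide +kernel

noncomputable def Q148 : QT :=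
(.a (.b (.a (.b (.a (.b (.b (.a (.b (.a (.b (.l 29) (.a (.l 29) (.b (.l 29) .z))) (.b (.a (.b (.l 29) (.a (.l 29) .z)) (.b (.a (.l 29) .z) (.a .z (.b
.z (.l 11))))) (.a (.b (.a .z (.b .z (.l 11))) (.a (.b .z (.l 11)) (.l 11))) (.l 11)))) (.a (.b (.a (.b .z (.a (.b .z (.l 11)) (.l 11))) (.b (.a (.b
.z (.l 11)) (.l 11)) (.l 11))) (.l 11)) (.l 11))) (.b (.a (.b (.a (.b (.a .z (.b .z (.l 11))) (.l 11)) (.l 11)) (.l 11)) (.l 11)) (.l 11))) (.l 11))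
(.l 11)) (.b (.a (.l 11) (.b (.a (.l 11) (.b (.l 11) (.a (.l 11) (.b (.l 11) (.a (.l 11) (.b (.a (.l 11) .z) .z)))))) (.a (.b (.l 11) (.a (.l 11) (.b
(.a (.l 11) (.b (.l 11) (.a (.l 11) .z))) (.a (.b (.l 11) .z) (.b .z (.a .z (.l 9))))))) (.b (.a (.b (.a (.l 11) (.b (.l 11) (.a (.l 11) .z))) (.a (.b
(.l 11) (.a (.l 11) .z)) (.b .z (.a .z (.l 9))))) (.b (.a (.b .z (.a .z (.l 9))) (.b (.a .z (.l 9)) (.l 9))) (.l 9))) (.a (.b (.a (.b .z (.a .z (.l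
9))) (.l 9)) (.l 9)) (.l 9)))))) (.a (.b (.a (.l 11) (.b (.l 11) (.a (.b (.l 11) (.a (.l 11) (.b (.l 11) (.a (.l 11) .z)))) (.b (.a (.l 11) (.b (.a
(.l 11) .z) .z)) (.a (.b (.a (.l 11) .z) .z) (.b (.a .z (.l 9)) (.l 9))))))) (.a (.b (.a (.l 11) (.b (.l 11) (.a (.l 11) (.b (.l 11) (.a (.l 11)
.z))))) (.a (.b (.l 11) (.a (.l 11) (.b (.l 11) (.a (.l 11) .z)))) (.b (.a (.b (.l 11) (.a (.l 11) .z)) (.b .z (.a .z (.l 9)))) (.a (.b .z (.a .z (.l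
9))) (.l 9))))) (.b (.a (.b (.a (.b (.l 11) (.a (.l 11) .z)) (.b .z (.a .z (.l 9)))) (.a (.b .z (.a .z (.l 9))) (.l 9))) (.l 9)) (.l 9)))) (.b (.a (.b
(.a (.b (.a (.l 11) (.b (.a (.l 11) .z) .z)) (.a (.b (.a (.l 11) .z) .z) (.b (.a .z (.l 9)) (.l 9)))) (.b (.a (.b (.a .z (.l 9)) (.l 9)) (.l 9)) (.l
9))) (.a (.b (.a (.b (.a .z (.l 9)) (.l 9)) (.l 9)) (.l 9)) (.l 9))) (.l 9)) (.l 9))))) (.a (.b (.a (.l 11) (.b (.a (.l 11) (.b (.a (.l 11) (.b (.l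
11) (.a (.l 11) (.b (.a (.l 11) .z) .z)))) (.a (.b (.l 11) (.a (.l 11) (.b (.a (.l 11) .z) .z))) (.b (.a (.b (.a (.l 11) .z) .z) (.b (.a .z (.l 9))
(.l 9))) (.a (.b (.a .z (.l 9)) (.l 9)) (.l 9)))))) (.a (.b (.a (.l 11) (.b (.l 11) (.a (.b (.l 11) (.a (.l 11) .z)) (.b (.a (.l 11) .z) .z)))) (.a
(.b (.a (.l 11) (.b (.l 11) (.a (.l 11) .z))) (.a (.b (.l 11) (.a (.l 11) .z)) (.b .z (.a .z (.l 9))))) (.b (.a (.b .z (.a .z (.l 9))) (.l 9)) (.l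
9)))) (.b (.a (.b (.a (.b (.a (.l 11) .z) .z) (.b (.a .z (.l 9)) (.l 9))) (.a (.b (.a .z (.l 9)) (.l 9)) (.l 9))) (.l 9)) (.l 9))))) (.a (.b (.a (.l
11) (.b (.a (.l 11) (.b (.a (.l 11) (.b (.l 11) (.a (.l 11) .z))) (.a (.b (.l 11) (.a (.l 11) .z)) (.b .z (.a .z (.l 9)))))) (.a (.b (.a (.l 11) (.b
(.l 11) (.a (.l 11) .z))) (.a (.b (.l 11) (.a (.l 11) .z)) (.b .z (.a .z (.l 9))))) (.b (.a (.b .z (.a .z (.l 9))) (.l 9)) (.l 9))))) (.a (.b (.a (.l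
11) (.b (.a (.l 11) (.b (.l 11) (.a (.l 11) .z))) (.a (.b (.l 11) (.a (.l 11) .z)) (.b .z (.a .z (.l 9)))))) (.a (.b (.a (.l 11) (.b (.l 11) (.a (.l
11) .z))) (.a (.b (.l 11) (.a (.l 11) .z)) (.b .z (.a .z (.l 9))))) (.b (.a (.b .z (.a .z (.l 9))) (.l 9)) (.l 9)))) (.b (.a (.b (.a (.b .z (.a .z (.l
9))) (.l 9)) (.l 9)) (.l 9)) (.l 9)))) (.b (.a (.b (.a (.b (.a (.b .z (.a .z (.l 9))) (.l 9)) (.l 9)) (.l 9)) (.l 9)) (.l 9)) (.l 9)))) (.b (.a (.b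
(.a (.b (.a (.b (.a (.b (.a (.l 11) .z) .z) (.b .z (.l 9))) (.a (.b (.a .z (.l 9)) (.l 9)) (.l 9))) (.l 9)) (.l 9)) (.l 9)) (.l 9)) (.l 9)) (.l 9))))
(.b (.a (.b (.a (.b (.a (.b (.a (.b (.l 11) (.a (.l 11) (.b (.a (.l 11) .z) .z))) (.b (.a (.b (.l 11) (.a (.l 11) .z)) (.b .z (.a .z (.l 9)))) (.a (.b
.z (.l 9)) (.l 9)))) (.a (.b (.a (.b (.a (.l 11) .z) .z) (.b (.a .z (.l 9)) (.l 9))) (.a (.b (.a .z (.l 9)) (.l 9)) (.l 9))) (.l 9))) (.l 9)) (.l 9))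
(.l 9)) (.l 9)) (.l 9)) (.l 9))) (.a (.a (.b (.a (.b (.a (.b (.b (.a (.b (.a (.b .z (.a .z (.l 9))) (.l 9)) (.l 9)) (.l 9)) (.l 9)) (.l 9)) (.l 9))
(.l 9)) (.l 9)) (.b (.b (.b (.l 9) (.b (.l 9) (.a (.b (.l 9) (.a (.l 9) (.b (.a (.l 9) (.a (.l 9) .z)) .z))) (.b (.a (.b (.l 9) (.a (.l 9) (.a (.l 9)
.z))) (.b (.a (.l 9) .z) (.a .z (.a .z (.l 13))))) (.a (.b .z (.l 13)) (.l 13)))))) (.b (.b (.a (.b (.a (.b (.a (.a (.l 9) .z) .z) (.a .z (.l 13)))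
(.b (.a (.a .z (.l 13)) (.l 13)) (.l 13))) (.l 13)) (.l 13)) (.l 13)) (.l 13))) (.b (.b (.a (.b (.l 13) (.a (.b (.a .z (.b (.l 13) (.a .z (.l 13))))
(.a (.l 28) (.b .z (.l 28)))) (.b (.l 13) (.a (.b (.a .z (.l 13)) .z) (.l 13))))) (.l 13)) (.a (.b (.a (.l 28) (.b (.a (.b .z (.l 28)) (.b (.a .z (.l
13)) .z)) (.l 28))) (.l 28)) (.b (.a (.b (.a (.b (.l 13) (.a .z (.l 13))) (.l 13)) (.a .z (.b (.l 13) .z))) (.l 13)) (.a (.b (.a (.l 28) (.b .z (.l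
28))) (.l 28)) (.b (.a (.b (.a .z (.l 13)) .z) (.b (.l 13) (.a .z (.l 13)))) (.a (.l 28) .z)))))) (.l 28)))) (.b (.l 9) (.b (.b (.b (.b (.l 9) (.a (.l
9) (.b (.l 9) (.a (.l 9) (.b (.l 9) (.a (.l 9) (.a (.l 9) .z))))))) (.b (.a (.b (.l 9) (.a (.b (.l 9) (.a (.l 9) .z)) (.b (.a (.a (.l 9) .z) .z) (.a
.z (.l 13))))) (.b (.a (.b (.a (.l 9) (.a (.l 9) .z)) .z) (.b .z (.l 13))) (.a (.b (.a (.a .z (.l 13)) (.l 13)) (.l 13)) (.l 13)))) (.a (.b (.a (.b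
(.a .z (.a .z (.l 13))) (.l 13)) (.l 13)) (.l 13)) (.l 13)))) (.l 13)) (.b (.b (.l 13) (.a (.b (.l 13) (.a (.b (.l 13) (.a (.b (.l 13) (.a .z (.l
13))) (.l 13))) (.l 13))) (.l 13))) (.b (.a (.b (.a (.b (.a (.b .z (.l 28)) (.b (.a .z (.l 13)) .z)) (.a (.l 28) (.b .z (.l 28)))) (.b (.l 13) (.a (.b
(.a .z (.l 13)) .z) (.b (.l 13) (.a .z (.l 13)))))) (.a (.l 28) (.b (.a (.l 28) .z) (.l 28)))) (.b (.l 13) (.a (.b (.a (.b (.l 13) (.a .z (.l 13)))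
(.l 13)) (.a (.b .z (.l 28)) (.b (.a .z (.l 13)) .z))) (.l 13)))) (.a (.l 28) (.b (.a (.b (.a (.l 28) (.b .z (.l 28))) (.l 28)) (.b (.a (.b (.a .z (.l
13)) .z) (.b (.l 13) (.a .z (.l 13)))) (.a (.l 28) .z))) (.l 28)))))))) (.b (.b (.l 9) (.b (.l 9) (.b (.l 9) (.a (.l 9) (.b (.l 9) (.a (.l 9) (.b (.a
(.l 9) (.b (.l 9) (.a (.l 9) .z))) (.a (.b (.a (.l 9) (.a (.l 9) .z)) .z) (.b (.a .z (.a .z (.l 13))) (.l 13)))))))))) (.b (.b (.b (.a (.b (.a (.l 9)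
(.b (.l 9) (.a (.b (.l 9) (.a (.l 9) (.a (.l 9) .z))) (.b (.a (.l 9) .z) (.a .z (.a .z (.l 13))))))) (.a (.b (.a (.l 9) (.b (.l 9) (.a (.a (.l 9) .z)
.z))) (.a (.b (.a (.l 9) .z) (.a .z (.a .z (.l 13)))) (.b (.a .z (.l 13)) (.l 13)))) (.b (.a (.b .z (.a (.a .z (.l 13)) (.l 13))) (.l 13)) (.l 13))))
(.b (.a (.b (.a (.b (.l 9) (.a (.a (.l 9) .z) .z)) (.b .z (.a (.a .z (.l 13)) (.l 13)))) (.a (.b (.a .z (.l 13)) (.l 13)) (.l 13))) (.b (.a (.b (.a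
(.a .z (.l 13)) (.l 13)) (.l 13)) (.l 13)) (.l 13))) (.l 13))) (.l 13)) (.l 13)) (.b (.l 13) (.a (.b (.l 13) (.a (.b (.a (.b (.l 13) (.a (.b (.l 13)
(.a .z (.l 13))) (.l 13))) (.l 13)) (.a (.b (.a (.b .z (.l 28)) (.b (.a .z (.l 13)) .z)) (.a (.l 28) (.b .z (.l 28)))) (.b (.l 13) (.a (.b (.a .z (.l
13)) .z) (.l 13))))) (.l 13))) (.l 13))))))) (.b (.l 9) (.b (.b (.l 9) (.b (.a (.l 9) (.b (.a (.l 9) (.b (.l 9) (.a (.l 9) (.b (.l 9) (.a (.b (.l 9)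
(.a (.l 9) (.a (.l 9) .z))) (.b (.a (.l 9) .z) (.a .z (.a .z (.l 13))))))))) (.a (.b (.l 9) (.a (.b (.l 9) (.a (.l 9) (.b (.l 9) (.a (.l 9) .z)))) (.b
(.a (.b (.l 9) (.a (.l 9) (.a (.l 9) .z))) (.b (.a (.l 9) .z) (.a .z (.a .z (.l 13))))) (.a (.b (.a (.a (.l 9) .z) .z) (.a .z (.l 13))) (.l 13)))))
(.b (.a (.b (.a (.l 9) (.b (.l 9) (.a (.l 9) .z))) (.a (.b (.a (.l 9) (.a (.l 9) .z)) (.a (.a (.l 9) .z) .z)) (.b (.a .z (.a .z (.l 13))) (.l 13))))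
(.b (.a (.b (.a (.a (.l 9) .z) .z) (.a .z (.l 13))) (.l 13)) (.l 13))) (.a (.b (.a (.b (.a .z (.l 13)) (.l 13)) (.l 13)) (.l 13)) (.l 13)))))) (.a (.b
(.a (.b (.l 9) (.a (.l 9) (.b (.l 9) (.a (.l 9) (.b (.l 9) (.a (.l 9) (.a (.l 9) .z))))))) (.b (.a (.l 9) (.b (.l 9) (.a (.b (.l 9) (.a (.l 9) (.a (.l
9) .z))) (.b (.a (.a (.l 9) .z) .z) (.a .z (.l 13)))))) (.a (.b (.a (.l 9) (.b (.l 9) (.a (.a (.l 9) .z) .z))) (.a (.b (.a (.l 9) .z) (.a .z (.a .z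
(.l 13)))) (.b (.a .z (.l 13)) (.l 13)))) (.b (.a (.b .z (.a (.a .z (.l 13)) (.l 13))) (.l 13)) (.l 13))))) (.a (.b (.a (.b (.l 9) (.a (.l 9) (.b (.a
(.l 9) (.a (.l 9) .z)) .z))) (.b (.a (.b (.l 9) (.a (.a (.l 9) .z) .z)) (.b .z (.a (.a .z (.l 13)) (.l 13)))) (.a (.b (.a .z (.l 13)) (.l 13)) (.l
13)))) (.a (.b (.a (.b (.a (.a (.l 9) .z) .z) (.a .z (.l 13))) (.b (.a (.a .z (.l 13)) (.l 13)) (.l 13))) (.l 13)) (.l 13))) (.l 13))) (.b (.a (.b (.a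
(.b (.a (.b (.a (.l 9) (.a (.l 9) .z)) .z) (.b (.a .z (.a .z (.l 13))) (.l 13))) (.a (.b (.a (.a .z (.l 13)) (.l 13)) (.l 13)) (.l 13))) (.l 13)) (.l
13)) (.l 13)) (.l 13))))) (.l 13))))

theorem vQ148 : ev Q148 I4_6 I4_13 = 3857714430866511 := by decide +kernel

noncomputable def Q37 : QT :=
(.a (.b (.a (.b (.a (.l 16) (.b (.a (.l 16) (.b (.a (.l 16) (.b (.a (.l 16) (.b (.a (.l 16) .z) (.l 16))) (.l 16))) (.l 16))) (.l 16))) (.l 16)) (.b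
(.a (.b (.a (.b (.a (.b (.a (.b (.a .z (.a .z (.l 6))) (.a (.l 16) .z)) (.b (.l 6) (.a .z (.l 6)))) (.a (.l 16) (.b .z (.l 16)))) (.b (.l 6) (.a (.b
(.a (.a .z (.l 6)) (.l 6)) .z) (.l 6)))) (.a (.l 16) (.b (.a (.b (.a (.l 16) .z) (.l 16)) (.b (.a .z (.a .z (.l 6))) (.a (.l 16) .z))) (.l 16)))) (.b
(.l 6) (.a (.b (.a (.b (.l 6) (.a .z (.l 6))) (.l 6)) (.a (.b .z (.l 16)) (.b (.a .z (.l 6)) .z))) (.b (.l 6) (.a (.b (.l 6) (.a (.a .z (.l 6)) (.l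
6))) (.l 6)))))) (.a (.l 16) (.b (.a (.l 16) (.b (.a (.b .z (.a (.l 16) .z)) (.b (.l 6) (.a .z (.l 6)))) (.a (.l 16) (.b .z (.l 16))))) (.l 16)))) (.b
(.l 6) (.a (.b (.a (.b (.l 6) (.a (.b (.a (.a .z (.l 6)) (.l 6)) .z) (.l 6))) (.l 6)) (.a (.b (.a (.b (.a (.l 16) .z) (.l 16)) (.b (.a .z (.a .z (.l
6))) (.a (.l 16) .z))) (.l 16)) (.b (.a (.b (.l 6) (.a .z (.l 6))) (.l 6)) (.a (.b .z (.l 16)) (.b (.a (.a .z (.l 6)) (.l 6)) .z))))) (.l 6)))) (.a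
(.l 16) (.b (.a (.b (.a (.l 16) (.b (.a (.l 16) (.b (.a (.l 16) .z) (.l 16))) (.l 16))) (.l 16)) (.b (.a (.b (.a (.b (.a .z (.l 6)) .z) (.b (.l 6) (.a
(.a .z (.l 6)) (.l 6)))) (.a (.l 16) (.b .z (.a (.l 16) .z)))) (.b (.l 6) (.a (.b (.l 6) (.a .z (.l 6))) (.l 6)))) (.a (.l 16) (.b (.a (.b .z (.l 16))
(.b (.a (.a .z (.l 6)) (.l 6)) .z)) (.a (.l 16) (.b (.a (.l 16) .z) (.l 16))))))) (.l 16))))) (.a (.l 16) (.b (.a (.l 16) (.b (.a (.l 16) (.b (.l 16)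
(.a (.b (.l 16) (.a (.l 16) (.b (.l 16) (.a (.l 16) .z)))) (.b (.a (.b (.l 16) (.a (.l 16) .z)) (.b (.a (.l 16) .z) .z)) (.a .z (.l 18)))))) (.a (.b
(.a (.l 16) (.b (.l 16) (.a (.l 16) (.b (.l 16) (.a (.l 16) .z))))) (.a (.b (.l 16) (.a (.l 16) (.b (.l 16) (.a (.l 16) .z)))) (.b (.a (.b (.l 16) (.a
(.l 16) .z)) .z) (.a .z (.l 18))))) (.b (.a (.b (.a (.b (.l 16) (.a (.l 16) .z)) .z) (.a .z (.l 18))) (.l 18)) (.l 18))))) (.a (.b (.a (.l 16) (.b (.a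
(.l 16) (.b (.l 16) (.a (.l 16) (.b (.a (.l 16) .z) .z)))) (.a (.b (.l 16) (.a (.b (.l 16) (.a (.l 16) .z)) (.b (.a (.l 16) .z) .z))) (.b (.a (.b (.a
(.l 16) .z) .z) (.b .z (.l 18))) (.a (.b .z (.l 18)) (.l 18)))))) (.a (.b (.a (.l 16) (.b (.a (.l 16) (.b (.l 16) (.a (.l 16) .z))) (.a (.b (.l 16)
(.a (.l 16) .z)) .z))) (.a (.b (.a (.l 16) (.b (.l 16) .z)) (.a (.b (.a (.l 16) .z) .z) (.b .z (.l 18)))) (.b (.a .z (.l 18)) (.l 18)))) (.b (.a (.b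
(.a .z (.l 18)) (.l 18)) (.l 18)) (.l 18)))) (.b (.a (.b (.a (.b (.a (.b (.a (.l 16) .z) .z) (.b .z (.l 18))) (.a (.b .z (.l 18)) (.l 18))) (.l 18))
(.l 18)) (.l 18)) (.a (.l 18) (.a (.l 18) (.a (.l 18) (.a (.l 18) (.b (.l 18) .z)))))))))) (.b (.a (.b (.l 6) (.a (.b (.a (.b (.l 6) (.a (.b (.l 6)
(.a (.b (.a .z (.l 6)) .z) (.b (.l 6) (.a (.a .z (.l 6)) (.l 6))))) (.l 6))) (.l 6)) (.a (.b (.a (.b (.a (.l 16) (.b (.a .z (.a .z (.l 6))) (.a (.l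
16) .z))) (.l 16)) (.b (.a (.b (.l 6) (.a .z (.l 6))) (.l 6)) (.a (.b .z (.l 16)) (.b (.a (.a .z (.l 6)) (.l 6)) (.a .z (.a .z (.l 6))))))) (.a (.l
16) (.b (.a (.l 16) (.b (.a (.l 16) .z) .z)) (.a (.b (.a (.l 16) .z) .z) .z)))) (.b (.l 6) (.a (.b (.a (.b (.a .z (.l 6)) .z) (.l 6)) (.a .z (.b (.a
.z (.l 6)) .z))) (.b (.l 6) (.a (.b (.l 6) (.a (.a .z (.l 6)) (.l 6))) (.l 6))))))) (.l 6))) (.l 6)) (.a (.b (.a (.b (.a (.b (.a (.b (.a (.l 16) (.b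
(.a (.l 16) .z) .z)) (.a (.b (.a (.l 16) .z) .z) (.b .z (.l 18)))) (.b (.a (.b .z (.l 18)) .z) (.a (.l 18) .z))) (.a (.b (.a (.b .z (.l 18)) (.l 18))
(.l 18)) (.a (.a (.l 18) .z) .z))) (.b (.a .z (.b (.a (.b (.a .z (.a .z (.l 6))) .z) (.b (.l 6) (.a .z (.l 6)))) .z)) (.a .z (.l 172)))) (.a (.a (.a
(.l 18) (.a (.l 18) (.b (.l 18) .z))) (.a .z (.l 158))) .z)) (.b (.a (.b (.a (.b (.l 6) (.a (.b (.l 6) (.a .z (.l 6))) (.l 6))) (.l 6)) (.a (.b (.a .z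
(.b (.a (.a .z (.l 6)) (.l 6)) (.a .z (.a .z (.l 6))))) .z) (.b (.l 6) (.a (.b (.a (.a .z (.l 6)) (.l 6)) .z) (.l 6))))) (.l 6)) (.a (.b (.a (.l 172)
(.b (.a .z (.b (.a .z (.l 6)) .z)) .z)) (.l 172)) (.b (.a (.b (.l 6) (.a (.b (.a .z (.l 6)) .z) (.l 6))) (.l 6)) (.a (.b (.a .z (.b (.a .z (.a .z (.l
6))) .z)) .z) (.b (.a (.b (.l 6) (.a (.a .z (.l 6)) (.l 6))) (.l 6)) (.a (.b (.a .z (.a .z (.l 6))) .z) (.b (.l 6) (.a (.a .z (.l 6)) (.l 6))))))))))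
(.a (.a (.a (.a (.b (.a (.l 18) (.b (.l 18) .z)) .z) (.b .z (.l 158))) (.l 158)) (.a (.a (.l 158) .z) .z)) (.b (.a (.a (.a .z (.l 172)) .z) (.b (.a
(.a .z (.l 68)) (.b (.a .z (.b (.a .z (.a .z (.l 6))) .z)) (.l 68))) (.a (.l 68) (.a (.l 68) .z)))) (.a (.a .z (.a (.b .z (.l 68)) (.l 68))) (.a (.b
(.l 68) (.a (.l 68) .z)) .z))))) (.a (.b (.l 6) (.b (.a (.b (.a (.b (.a (.b (.l 6) (.a (.a .z (.l 6)) (.l 6))) (.l 6)) (.a .z (.b (.l 6) (.a .z (.l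
6))))) (.l 6)) (.a .z (.b (.a (.b (.l 6) (.a .z (.l 6))) (.l 6)) (.a .z (.b (.l 6) (.a .z (.l 6))))))) (.l 6)) (.a (.b (.a (.l 147) .z) (.l 147)) (.a
(.b (.a (.b (.b (.l 6) (.a .z (.l 6))) .z) (.b (.l 6) (.a (.b (.l 6) .z) (.l 6)))) .z) (.b (.l 6) (.a (.b (.a (.b (.l 6) .z) (.l 6)) .z) (.b (.l 6)
(.a (.b (.l 6) .z) (.l 6))))))))) (.l 6)))))

theorem vQ37 : ev Q37 I4_1 I6_50 = 889773435797631 := by decide +kernel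

noncomputable def Q84 : QT :=
(.b (.b (.b (.l 11) (.b (.l 11) (.a (.l 11) (.b (.a (.l 11) (.b (.l 11) (.a (.l 11) (.b (.l 11) (.a (.l 11) (.a (.a (.l 11) (.a (.l 11) .z)) .z))))))
(.a (.b (.l 11) (.a (.l 11) (.b (.a (.l 11) (.a (.l 11) (.a (.l 11) (.a (.l 11) .z)))) (.a (.a (.l 11) (.a (.l 11) .z)) .z)))) (.b (.a (.b (.l 11) (.a
(.l 11) (.a (.a (.a (.l 11) .z) .z) .z))) (.b (.a (.a (.a (.l 11) .z) .z) (.a .z (.l 16))) (.a (.a (.a .z (.a .z (.l 16))) (.l 16)) (.l 16)))) (.a (.b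
(.a .z (.a (.a .z (.l 16)) (.l 16))) (.l 16)) (.l 16)))))))) (.a (.b (.a (.b (.b (.l 11) (.b (.a (.l 11) (.b (.a (.l 11) (.a (.l 11) (.a (.l 11) (.a
(.l 11) .z)))) (.a (.a (.a (.l 11) .z) .z) .z))) (.a (.b (.a (.a (.l 11) (.a (.a (.l 11) .z) .z)) .z) (.a (.a .z (.a .z (.l 16))) (.l 16))) (.b (.a
(.a (.a .z (.a .z (.l 16))) (.l 16)) (.l 16)) (.l 16))))) (.a (.b (.l 16) (.a (.b (.b (.l 16) (.a (.a .z (.l 16)) (.l 16))) (.b (.a (.a (.a (.l 15)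
.z) .z) (.a .z (.l 16))) (.a (.l 15) (.a (.a (.l 15) .z) .z)))) (.b (.l 16) (.a (.b (.l 16) (.a .z (.l 16))) (.l 16))))) (.l 16))) (.b (.b (.b (.l 11)
(.a (.b (.l 11) (.a (.l 11) (.a (.a (.l 11) (.a (.l 11) .z)) .z))) (.b (.a (.a (.l 11) (.a (.l 11) .z)) .z) (.a (.a .z (.a .z (.a .z (.l 16)))) (.l
16))))) (.b (.a (.b (.a .z (.a .z (.l 16))) (.l 16)) (.l 16)) (.l 16))) (.l 16))) (.a (.b (.a (.b (.a (.l 15) (.b (.a (.b (.a (.a (.l 15) .z) .z) (.l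
15)) (.b (.a .z (.l 16)) (.a (.a (.l 15) .z) .z))) (.l 15))) (.l 15)) (.b (.a (.b (.a (.b (.l 16) (.a .z (.l 16))) (.l 16)) (.a (.b (.a (.a (.l 15)
.z) .z) (.l 15)) (.b (.a .z (.l 16)) (.a (.a (.l 15) .z) .z)))) (.b (.l 16) (.a (.b (.l 16) (.a (.a .z (.l 16)) (.l 16))) (.l 16)))) (.a (.l 15) (.b
(.a (.b .z (.l 15)) (.b (.a (.a .z (.l 16)) (.l 16)) .z)) (.a (.l 15) (.b (.a (.l 15) (.a (.l 15) .z)) (.l 15))))))) (.l 15)) (.b (.a (.b (.l 16) (.a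
(.b (.l 16) (.a (.b .z (.a (.l 15) (.a (.l 15) .z))) (.b (.l 16) (.a .z (.a .z (.l 16)))))) (.l 16))) (.l 16)) (.a (.b (.a (.b (.a (.l 15) (.b (.a (.l
15) .z) (.l 15))) (.l 15)) (.b (.a (.b (.a .z (.a .z (.l 16))) (.a (.l 15) .z)) (.b (.l 16) (.a .z (.l 16)))) (.a (.l 15) (.b (.a (.a (.l 15) .z) .z)
(.l 15))))) (.l 15)) (.b (.a (.b (.l 16) (.a (.b (.a (.a .z (.l 16)) (.l 16)) .z) (.b (.l 16) (.a (.a .z (.l 16)) (.l 16))))) (.l 16)) (.a (.b (.a (.l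
15) (.b .z (.a (.l 15) (.a (.l 15) .z)))) (.l 15)) (.b (.a (.b (.l 16) (.a .z (.a .z (.l 16)))) (.l 16)) (.a (.b (.a (.l 15) .z) (.l 15)) (.b (.a .z
(.l 16)) (.a (.a (.l 15) .z) .z)))))))))) (.b (.b (.b (.a (.b (.a (.b (.a (.l 11) (.a (.a (.l 11) (.a (.l 11) .z)) .z)) (.a (.a (.a (.a (.l 11) .z)
.z) .z) (.a .z (.l 16)))) (.b (.a (.a .z (.a .z (.a .z (.l 16)))) (.l 16)) (.l 16))) (.a (.b (.a (.a (.a .z (.l 16)) (.l 16)) (.l 16)) (.l 16)) (.l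
16))) (.l 16)) (.l 16)) (.l 16)) (.a (.b (.l 16) (.a (.b (.l 16) (.a (.b (.l 16) (.a (.b (.l 16) (.a (.a .z (.l 16)) (.l 16))) (.l 16))) (.l 16))) (.l
16))) (.l 16))))) (.b (.a (.l 15) (.b (.a (.b (.a (.b (.a (.b (.a (.b .z (.a (.l 15) (.a (.l 15) .z))) (.b (.l 16) (.a .z (.a .z (.l 16))))) (.a (.l
15) (.b (.a (.l 15) .z) (.l 15)))) (.b (.l 16) (.a (.b (.a .z (.l 16)) (.a (.a (.l 15) .z) .z)) (.b (.l 16) (.a (.a .z (.l 16)) (.l 16)))))) (.a (.l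
15) (.b (.a (.l 15) (.b .z (.a (.l 15) (.a (.l 15) .z)))) (.l 15)))) (.b (.l 16) (.a (.b (.a (.b (.l 16) (.a .z (.a .z (.l 16)))) (.l 16)) (.a (.b (.a
(.l 15) .z) (.l 15)) (.b (.a (.a .z (.l 16)) (.l 16)) .z))) (.l 16)))) (.a (.l 15) (.b (.a (.b (.a (.l 15) (.b (.a (.l 15) (.a (.l 15) .z)) (.l 15)))
(.l 15)) (.b (.a (.b (.a .z (.a .z (.l 16))) (.a (.l 15) .z)) (.b (.l 16) (.a .z (.l 16)))) (.a (.l 15) (.b (.a (.a (.l 15) .z) .z) (.a (.l 15) (.a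
(.l 15) .z)))))) (.l 15)))) (.b (.l 16) (.a (.b (.a (.b (.l 16) (.a (.b (.l 16) (.a .z (.a .z (.l 16)))) (.l 16))) (.l 16)) (.a (.b (.a (.b (.a (.l
15) .z) (.l 15)) (.b (.a .z (.l 16)) (.a (.a (.l 15) .z) .z))) (.a (.l 15) (.b (.a (.l 15) (.a (.l 15) .z)) (.l 15)))) (.b (.l 16) (.a (.b (.a .z (.a
.z (.l 16))) (.a (.l 15) .z)) (.b (.l 16) (.a (.a .z (.l 16)) (.l 16))))))) (.l 16)))) (.a (.l 15) (.b (.a (.b (.a (.l 15) (.b (.a (.l 15) (.b .z (.a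
(.l 15) (.a (.l 15) .z)))) (.l 15))) (.l 15)) (.b (.a (.b (.a (.b (.l 16) (.a .z (.l 16))) (.l 16)) (.a (.b (.a (.a (.l 15) .z) .z) (.l 15)) (.b (.a
(.a .z (.l 16)) (.l 16)) (.a .z (.a .z (.l 16)))))) (.l 16)) (.a (.b (.a (.l 15) (.b (.a (.l 15) .z) (.l 15))) (.l 15)) (.b (.a (.b (.a (.a .z (.l
16)) (.l 16)) .z) (.l 16)) (.a (.b (.a (.l 15) (.a (.l 15) .z)) (.l 15)) (.b (.a .z (.l 16)) (.a (.a (.l 15) .z) .z))))))) (.a (.l 15) (.b (.a (.l 15)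
(.b (.a (.l 15) (.b (.a (.l 15) (.a (.l 15) .z)) (.l 15))) (.l 15))) (.l 15))))))) (.b (.l 15) (.b (.a (.l 15) (.b (.l 15) (.a (.l 15) (.b (.a (.l 15)
(.b (.l 15) (.a (.a (.l 15) (.a (.l 15) (.a (.l 15) .z))) .z))) (.a (.b (.a (.l 15) (.a (.a (.l 15) (.a (.l 15) .z)) .z)) (.a .z (.a .z (.l 20)))) (.b
(.a .z (.l 20)) (.l 20))))))) (.a (.b (.a (.l 15) (.b (.l 15) (.a (.b (.l 15) (.a (.l 15) (.a (.l 15) .z))) (.b (.a (.l 15) (.a (.a (.a (.l 15) .z)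
.z) .z)) (.a .z (.a (.a .z (.l 20)) (.l 20))))))) (.a (.b (.a (.b (.l 15) (.a (.l 15) (.a (.l 15) (.a (.l 15) .z)))) (.b (.a (.l 15) (.a (.l 15) (.a
(.a (.l 15) .z) .z))) (.a .z (.a .z (.a .z (.l 20)))))) (.a (.b .z (.l 20)) (.l 20))) (.b (.a (.b (.a .z (.a .z (.a .z (.l 20)))) (.l 20)) (.l 20))
(.l 20)))) (.b (.a (.b (.a (.b (.l 15) (.a (.a (.l 15) (.a (.l 15) (.a (.l 15) .z))) .z)) (.b (.a (.a (.a (.l 15) (.a (.l 15) .z)) .z) .z) (.a (.a .z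
(.l 20)) (.l 20)))) (.a (.b (.a .z (.l 20)) (.l 20)) (.l 20))) (.b (.a (.b (.a (.a (.a .z (.l 20)) (.l 20)) (.l 20)) (.l 20)) (.l 20)) (.l 20))) (.l
20)))))))

theorem vQ84 : ev Q84 I4_2 I5_28 = 1899352261913755 := by decide +kernel

noncomputable def Q141 : QT :=
(.b .z (.a (.b .z (.b (.b .z (.a (.a (.a (.b .z (.l 345)) .z) .z) .z)) (.a (.a (.a (.l 345) (.a (.l 345) (.b .z (.l 345)))) (.a (.a .z (.l 459)) (.a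
(.l 459) (.b .z (.l 459))))) (.a (.a (.a .z (.l 593)) .z) (.a (.a (.l 369) .z) .z))))) .z))

theorem vQ141 : ev Q141 I5_15 I4_7 = 64849596679948 := by decide +kernel

noncomputable def Q216 : QT :=
(.b .z (.a (.b .z (.b .z (.a (.b (.a (.b (.a (.b (.a (.l 125) .z) .z) .z) (.a (.a (.l 117) .z) .z)) .z) (.a (.a (.a (.l 117) (.a (.l 117) (.b .z (.l
117)))) .z) .z)) (.a (.b .z (.a .z (.b (.a .z (.l 185)) (.a (.l 185) .z)))) (.b .z (.a .z (.b (.a .z (.b (.l 127) .z)) .z))))))) (.b .z (.a (.b (.a .z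
(.b .z (.a (.b .z (.a (.b .z (.l 127)) (.l 127))) (.b .z (.a (.b .z (.l 127)) .z))))) (.a (.b (.a (.b .z (.a (.b .z (.l 127)) (.l 127))) (.b (.a (.b
.z (.l 127)) (.l 127)) (.l 127))) (.a (.b (.l 127) (.a .z (.l 127))) (.l 127))) (.b (.a (.l 127) (.b (.l 127) (.a (.l 127) (.b (.l 127) .z)))) (.b (.a
(.a (.l 127) (.b (.l 127) .z)) .z) .z)))) (.b .z (.a (.b (.a (.b (.a (.b .z (.l 127)) .z) .z) .z) .z) .z))))))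

theorem vQ216 : ev Q216 I5_23 I4_11 = 59127555176041 := by decide +kernel

end Pool.Agent.Helper64.SPW.Dat
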