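import Pool.Agent.Helper64.SPW.Iv

/-! Boxes of traces, part 10 (data and kernel evaluation). -/

set_option maxRecDepth 1000000
set_option maxHeartbeats 0

namespace Pool.Agent.Helper64.SPW.Dat

noncomputable def Q269 : QT :=
(.b .z (.b .z (.b .z (.a (.b (.a (.b (.a .z (.b .z (.a .z (.b .z (.a (.b .z (.b .z (.a (.b .z (.a .z (.b .z (.l 47)))) (.b (.a .z (.l 47)) (.a (.l 47)
(.b (.l 47) .z)))))) (.b .z (.a (.b (.a (.b .z (.l 47)) .z) (.b (.a (.b (.l 47) .z) .z) .z)) .z))))))) (.a (.b (.a (.b (.a (.b (.b .z (.b .z (.a (.b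
.z (.l 105)) .z))) .z) .z) (.a (.b (.a (.b .z (.b .z (.b .z (.a .z (.l 47))))) (.b .z (.b .z (.b (.a .z (.l 47)) (.l 47))))) (.l 47)) (.b (.b (.b .z
(.a .z (.b .z (.a .z (.l 47))))) (.b (.a (.b .z (.l 47)) (.l 47)) (.l 47))) (.b (.l 47) (.b (.l 47) (.a (.b (.l 47) .z) (.b .z (.a .z (.l 62)))))))))
(.b (.b .z (.b .z (.a .z (.b (.a .z (.b (.a .z (.l 47)) (.l 47))) (.a (.b (.a .z (.l 47)) (.l 47)) (.l 47)))))) (.b (.a (.b (.b (.a .z (.b (.a .z (.l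
47)) (.l 47))) (.l 47)) (.l 47)) (.b (.l 47) (.a (.l 47) (.b (.a (.l 47) (.b (.l 47) .z)) .z)))) (.a (.b (.a (.l 47) (.b (.l 47) (.a (.l 47) (.b (.l
47) .z)))) (.a (.b (.b (.a (.l 47) .z) .z) (.a (.b .z (.l 62)) (.b (.l 62) .z))) .z)) (.b (.a (.b (.a (.l 47) .z) .z) (.b .z (.l 75))) (.a (.a .z (.b
(.l 75) .z)) (.b (.b (.l 75) .z) .z))))))) (.a (.b (.b (.a (.b (.b (.a (.b (.l 47) .z) .z) (.b .z (.a (.l 73) .z))) (.a .z (.a .z (.b .z (.a .z (.l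
62)))))) (.b (.a (.b .z (.a .z (.a .z (.l 62)))) (.b (.a (.a .z (.l 62)) (.l 62)) (.a (.b (.l 62) .z) .z))) (.a (.b (.a (.a .z (.l 62)) (.b (.l 62)
.z)) (.a (.b (.l 62) .z) .z)) .z))) .z) (.a (.b (.b .z (.b .z (.b (.a .z (.l 75)) (.l 75)))) (.b (.b (.l 75) (.b (.a (.l 75) .z) .z)) .z)) (.b (.b (.b
.z (.b (.l 132) .z)) (.b .z (.a (.a (.l 75) .z) .z))) .z))) (.b (.a (.b (.b (.a .z (.a .z (.b .z (.l 81)))) (.a .z (.a .z (.b (.l 81) .z)))) .z) (.b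
(.a (.b (.b (.b .z (.l 81)) (.a (.l 81) .z)) .z) (.b (.b (.a (.l 81) .z) .z) .z)) (.a .z (.b (.a (.b .z (.l 85)) (.b .z (.l 85))) .z)))) .z))) (.b (.a
(.b (.b (.a .z (.b (.a .z (.b .z (.a .z (.l 47)))) (.a (.b (.a .z (.b .z (.l 47))) (.a (.b .z (.l 47)) (.l 47))) (.b (.l 47) (.a (.l 47) .z))))) (.a
(.b (.a (.b .z (.a (.b .z (.l 47)) (.l 47))) (.b (.a (.b .z (.l 47)) (.l 47)) (.l 47))) (.a (.l 47) (.b (.l 47) (.a (.l 47) .z)))) (.b (.a (.b (.l 47)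
(.a (.l 47) .z)) .z) .z))) (.a (.b (.b (.a (.b (.a (.l 47) (.b (.l 47) .z)) (.a (.b (.l 47) .z) .z)) .z) (.a .z (.b .z (.l 75)))) (.a (.b (.l 75) .z)
(.b (.a (.b (.l 75) .z) (.b (.l 75) .z)) .z))) (.b (.a (.b .z (.a (.l 75) (.b (.l 75) .z))) (.b (.a (.b .z (.l 75)) .z) .z)) .z))) (.b (.a (.b (.b (.a
(.b (.a (.b .z (.l 47)) (.l 47)) (.a (.l 47) (.b (.l 47) .z))) (.b (.a (.b (.l 47) .z) .z) .z)) (.a (.b (.a (.b (.l 47) .z) .z) .z) .z)) .z) .z) .z))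
(.a (.b (.a (.b .z (.b (.a (.b (.a (.l 85) .z) .z) .z) .z)) .z) (.a (.b .z (.b .z (.a (.b .z (.a (.b .z (.l 64)) (.l 64))) (.b (.b .z (.l 64)) (.a (.l
64) .z))))) (.b (.b .z (.a .z (.b (.a .z (.l 91)) (.b (.l 91) .z)))) .z))) (.b (.a (.b .z (.b .z (.a .z (.b .z (.a (.l 91) .z))))) .z) (.a (.b (.a (.b
(.b (.a .z (.l 91)) (.l 91)) (.a (.b (.l 91) .z) .z)) (.b (.a (.l 91) .z) .z)) .z) .z)))))) .z) (.a (.a (.b (.b (.a (.b (.a (.b (.a (.b .z (.b (.l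
139) .z)) .z) .z) (.b .z (.b .z (.a .z (.b (.a .z (.b (.l 64) .z)) (.a .z (.l 67))))))) (.b (.a (.b .z (.a .z (.b (.a .z (.l 67)) .z))) (.b (.a (.b
(.a .z (.l 67)) (.l 67)) (.b (.l 67) .z)) (.b (.b (.a (.l 67) .z) .z) .z))) (.b .z (.b (.b .z (.b (.a .z (.a .z (.l 43))) (.a (.a .z (.l 43)) (.l
43)))) (.a (.l 43) (.a (.l 43) (.b (.a (.l 43) .z) .z))))))) (.b (.a (.b (.b (.a .z (.a .z (.b (.l 83) .z))) (.a .z (.b .z (.a .z (.l 64))))) (.b (.a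
(.b (.a .z (.b .z (.l 64))) (.a (.b .z (.l 64)) (.l 64))) (.b (.l 64) (.a (.l 64) .z))) (.b (.b (.b (.a (.l 64) .z) (.a (.l 64) .z)) .z) (.a (.a (.l
67) .z) .z)))) (.b (.b (.a (.b .z (.a .z (.b .z (.l 64)))) (.b (.a .z (.l 64)) (.l 64))) (.a (.b (.a (.b .z (.l 64)) (.l 64)) (.a (.l 64) (.b (.l 64)
.z))) (.b (.a (.l 64) .z) .z))) (.a (.b (.b (.a (.b (.l 64) .z) .z) .z) (.b .z (.a .z (.b .z (.l 64))))) (.b .z (.a (.b (.b .z (.l 64)) (.l 64)) (.b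
(.l 64) .z)))))) (.a (.b (.b (.a .z (.b .z (.a .z (.b .z (.l 64))))) (.b (.b (.b (.a .z (.l 64)) .z) .z) .z)) .z) (.b (.a (.b (.b (.a (.b .z (.l 64))
(.l 64)) (.a (.l 64) .z)) .z) .z) (.a .z (.b .z (.b .z (.a .z (.l 83))))))))) (.a (.b (.a (.b (.b (.b (.a (.l 43) (.b (.l 43) (.a (.l 43) .z))) (.a
(.b (.l 43) (.a (.l 43) .z)) .z)) .z) .z) (.b (.a (.b (.b (.b (.a (.l 43) .z) .z) .z) .z) .z) (.a .z (.b .z (.a (.b .z (.a .z (.l 49))) (.l 49))))))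
(.a (.b (.a (.b .z (.a .z (.b (.b .z (.l 46)) .z))) (.b (.b (.b (.b (.l 45) .z) .z) .z) (.a (.b (.b .z (.l 46)) .z) .z))) .z) (.b (.a .z (.b (.b (.b
(.a (.l 49) .z) .z) .z) .z)) .z))) (.b (.a (.b .z (.b (.b .z (.a (.b .z (.l 49)) (.l 49))) (.b (.a (.l 49) (.b (.l 49) (.a (.l 49) .z))) (.a (.b (.l
49) .z) .z)))) (.b .z (.b (.b (.b .z (.l 49)) (.a (.l 49) (.b (.l 49) .z))) (.b (.a (.b (.a (.l 49) .z) .z) .z) .z)))) (.a (.b .z (.a .z (.b .z (.a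
(.b .z (.b .z (.l 53))) (.b .z (.b .z (.l 53))))))) .z)))) (.a (.a (.b (.b .z (.b .z (.a .z (.b (.b (.b (.l 88) .z) .z) .z)))) (.b (.b (.b (.b .z (.b
(.l 143) .z)) .z) .z) .z)) (.b (.b (.b (.a (.b (.b (.b .z (.a .z (.l 63))) (.b (.b (.l 63) .z) .z)) .z) (.b (.a (.b (.b .z (.l 63)) .z) (.b (.b .z (.l
63)) .z)) .z)) (.a .z (.b (.b .z (.b .z (.l 62))) (.b (.b (.b (.l 62) .z) .z) .z)))) (.a (.b .z (.b (.b (.b (.l 88) .z) .z) .z)) .z)) .z)) (.b (.a (.b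
(.a (.b .z (.a (.b (.b .z (.b .z (.l 62))) .z) .z)) .z) .z) .z) .z))) (.b (.b (.a (.b (.a (.b (.a (.b (.b (.a (.l 64) (.b (.l 64) .z)) (.a (.b (.l 64)
.z) .z)) (.b .z (.l 142))) .z) (.a (.b .z (.a (.b (.a (.l 64) .z) .z) .z)) .z)) .z) .z) .z) (.a (.b (.a (.b (.a .z (.b (.b (.a (.l 75) .z) .z) .z))
(.a (.b (.a (.b (.b .z (.l 49)) .z) .z) .z) .z)) .z) (.a (.b (.a (.b .z (.a (.b .z (.l 55)) (.b (.l 55) (.b (.l 55) .z)))) (.b (.b .z (.b .z (.a .z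
(.l 55)))) (.b (.l 55) .z))) .z) (.b (.a (.b (.b .z (.b (.b .z (.l 55)) (.l 55))) (.b (.b (.a (.l 55) .z) .z) .z)) (.b (.b .z (.b (.b .z (.l 55)) (.a
(.l 55) .z))) .z)) (.a .z (.b .z (.a .z (.b (.a .z (.l 61)) .z))))))) (.b .z (.a (.b .z (.a (.b (.a .z (.b .z (.b .z (.l 61)))) (.b (.b (.l 61) (.a
(.l 61) .z)) .z)) (.b (.b .z (.l 61)) .z))) (.b .z (.a (.b (.b .z (.b (.a (.l 61) .z) .z)) .z) .z)))))) .z)) (.b (.a (.b (.a (.b .z (.a (.b .z (.a (.b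
(.b .z (.a .z (.l 118))) (.a (.b (.l 118) .z) .z)) .z)) .z)) .z) .z) (.b .z (.a (.b (.a (.b .z (.a .z (.b .z (.a .z (.b (.b (.l 51) .z) .z))))) (.b
(.a .z (.b .z (.a (.b .z (.b .z (.l 51))) .z))) (.a (.b (.a (.b .z (.b (.l 51) .z)) (.b (.l 51) .z)) .z) .z))) .z) .z))) .z))) (.b .z (.a (.b (.a (.b
.z (.a (.b .z (.a (.b .z (.a .z (.b .z (.a (.b .z (.l 69)) (.b (.l 69) .z))))) .z)) .z)) .z) .z) .z))))))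

theorem vQ269 : ev Q269 I3_7 I0_0 = 256059474607462 := by decide +kernel

noncomputable def Q190 : QT :=
(.a (.b (.b (.l 8) (.a (.b (.b (.a (.b (.l 8) (.a (.b (.l 8) (.a (.b (.a (.b (.a .z (.l 8)) .z) (.l 8)) (.a (.b .z (.l 21)) (.b (.a .z (.a .z (.l 8)))
.z))) (.b (.l 8) (.a (.b (.l 8) (.a (.a .z (.l 8)) (.l 8))) (.l 8))))) (.l 8))) (.l 8)) (.a (.b (.a (.b (.a (.l 21) (.b (.a .z (.b (.l 8) (.a .z (.l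
8)))) (.a (.l 21) (.b .z (.l 21))))) (.l 21)) (.b (.a (.b (.l 8) (.a (.b (.a (.a .z (.l 8)) (.l 8)) (.a .z (.a .z (.l 8)))) (.l 8))) (.l 8)) (.a (.b
(.a (.b .z (.l 21)) (.b (.a (.a .z (.l 8)) (.l 8)) .z)) (.a (.l 21) (.b .z (.l 21)))) (.b (.l 8) (.a (.b (.a .z (.l 8)) .z) (.l 8)))))) (.a (.l 21)
(.b (.a (.l 21) (.b (.a (.b .z (.l 21)) (.b (.a .z (.a .z (.l 8))) .z)) (.l 21))) (.l 21)))) (.b (.l 8) (.a (.b (.a (.b (.a (.b (.l 8) (.a (.a .z (.l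
8)) (.l 8))) (.l 8)) (.a (.b (.a .z (.a .z (.l 8))) .z) (.b (.l 8) (.a .z (.l 8))))) (.l 8)) (.a (.b (.a (.l 21) .z) (.l 21)) (.b (.a (.b (.l 8) (.a
.z (.l 8))) (.l 8)) (.a .z (.b (.l 8) (.a .z (.l 8))))))) (.l 8))))) (.b (.a (.l 21) (.b (.a (.b (.a (.l 21) (.b (.a (.l 21) (.b .z (.l 21))) (.l
21))) (.l 21)) (.b (.a (.b (.a (.b (.a (.a .z (.l 8)) (.l 8)) (.a .z (.a .z (.l 8)))) (.l 8)) (.a (.b .z (.l 21)) (.b (.a (.a .z (.l 8)) (.l 8)) (.a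
.z (.a .z (.l 8)))))) (.l 8)) (.a (.b (.a (.l 21) (.b .z (.l 21))) (.l 21)) (.b (.a (.b (.a (.a .z (.l 8)) (.l 8)) (.a .z (.a .z (.l 8)))) (.l 8)) (.a
(.b .z (.l 21)) (.b (.a (.a .z (.l 8)) (.l 8)) .z)))))) (.a (.l 21) (.b (.a (.l 21) (.b (.a (.l 21) (.b .z (.l 21))) (.l 21))) (.l 21))))) (.l 21)))
(.b (.l 8) (.a (.b (.b (.l 8) (.a (.b (.a (.b (.a (.b (.a .z (.l 8)) .z) (.l 8)) (.a (.b .z (.l 21)) (.b (.a .z (.l 8)) .z))) (.l 8)) (.a (.b (.a (.l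
21) (.b .z (.l 21))) (.l 21)) (.a (.b (.a .z (.b (.l 8) .z)) (.a (.l 21) .z)) (.b (.l 8) (.a .z (.b (.l 8) .z)))))) (.l 8))) (.a (.b (.a (.l 21) (.b
(.a (.l 21) (.b (.a (.l 21) .z) (.l 21))) (.l 21))) (.l 21)) (.b (.a (.b (.a (.b (.a .z (.b (.l 8) .z)) (.a (.l 21) .z)) (.b (.l 8) (.a (.b (.a .z (.l
8)) .z) (.b (.l 8) (.a .z (.l 8)))))) (.a (.l 21) (.b (.a (.l 21) .z) (.l 21)))) (.b (.l 8) (.a (.b (.a (.b (.a .z (.l 8)) .z) (.b (.l 8) (.a .z (.l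
8)))) (.a (.l 21) .z)) (.b (.l 8) (.a (.b (.a .z (.l 8)) .z) (.b (.l 8) (.a .z (.l 8)))))))) (.a (.l 21) (.b (.a (.l 21) (.b (.a (.l 21) .z) (.l 21)))
(.l 21)))))) (.a (.b (.l 8) (.b (.l 8) (.a (.b (.a (.b (.a (.b (.a .z (.l 8)) .z) (.b (.l 8) (.a .z (.l 8)))) (.a (.l 21) .z)) (.b (.l 8) (.a (.b (.l
8) .z) (.l 8)))) (.a (.l 21) (.b .z (.l 21)))) (.b (.l 8) (.a (.b (.a (.b (.l 8) .z) (.l 8)) .z) (.b (.l 8) (.a (.b (.l 8) (.a .z (.l 8))) (.l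
8)))))))) (.b (.l 8) (.a (.l 8) (.b (.l 8) (.a (.b (.l 8) (.a (.l 8) (.b (.l 8) (.a (.b (.l 8) .z) .z)))) (.b (.a (.l 8) (.b (.l 8) (.a (.b (.l 8) .z)
.z))) (.a (.b (.a (.b (.l 8) .z) .z) (.a .z (.l 9))) (.b (.a .z (.l 9)) (.l 9))))))))))))) (.a (.b (.a (.b (.l 21) (.b (.b (.a (.b (.l 21) (.a (.b (.l
21) (.a (.l 21) (.b (.l 21) .z))) (.b (.a (.l 21) .z) (.a (.b .z (.a .z (.l 12))) (.b (.a .z (.l 12)) (.l 12)))))) (.b (.a (.b (.l 21) (.a (.b (.l 21)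
.z) .z)) (.b (.a (.b (.l 21) .z) (.b .z (.a .z (.l 12)))) (.a (.b (.a .z (.l 12)) (.l 12)) (.l 12)))) (.a (.b (.a (.b .z (.l 12)) (.l 12)) (.l 12))
(.l 12)))) (.a (.b (.a (.b (.a (.b .z (.a .z (.l 12))) (.b (.a .z (.l 12)) (.l 12))) (.l 12)) (.l 12)) (.l 12)) (.l 12))) (.l 12))) (.b (.b (.l 21)
(.b (.a (.l 21) (.b (.l 21) (.a (.l 21) (.b (.l 21) (.a (.b (.l 21) .z) .z))))) (.a (.b (.a (.l 21) (.b (.l 21) (.a (.l 21) (.b (.l 21) .z)))) (.a (.b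
(.a (.l 21) (.b (.l 21) .z)) (.a .z (.b .z (.l 12)))) (.b (.a .z (.b (.a .z (.l 12)) (.l 12))) (.l 12)))) (.b (.a (.b (.a (.l 21) .z) (.a (.b .z (.a
.z (.l 12))) (.b (.a .z (.l 12)) (.l 12)))) (.b (.a (.b .z (.l 12)) (.l 12)) (.l 12))) (.l 12))))) (.a (.b (.b (.b (.a (.b (.a (.b (.a .z (.l 12)) (.l
12)) (.l 12)) (.l 12)) (.l 12)) (.l 12)) (.l 12)) (.l 12)) (.b (.l 12) (.a (.l 12) (.b (.l 12) (.a (.l 12) (.b (.l 12) (.a (.l 12) (.b (.l 12)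
.z)))))))))) (.a (.b (.l 12) (.a (.b (.l 12) (.a (.b (.b (.l 12) (.b (.a (.b .z (.a (.l 11) .z)) (.b (.l 12) (.a .z (.l 12)))) (.a (.l 11) (.b .z (.l
11))))) (.a (.b (.b (.b (.l 11) (.a (.l 11) .z)) .z) .z) (.b (.a (.b (.b (.l 11) .z) .z) .z) (.a .z (.b .z (.l 13)))))) (.b (.a (.b (.l 12) (.a (.b
(.l 12) .z) (.b (.l 12) .z))) (.b (.a (.l 12) (.b (.l 12) .z)) (.a (.b .z (.a .z (.l 13))) (.b (.a .z (.l 13)) (.l 13))))) (.a (.b (.a .z (.b .z (.l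
13))) (.l 13)) (.l 13))))) (.b (.a (.b (.l 12) (.a (.b (.l 12) (.a (.l 12) (.b (.l 12) .z))) (.b (.a (.b (.l 12) (.a (.l 12) .z)) (.b (.a (.l 12) .z)
.z)) (.a (.b .z (.a .z (.l 13))) (.l 13))))) (.b (.a (.b (.l 12) (.a (.b (.l 12) (.a (.l 12) .z)) (.b (.a (.l 12) .z) .z))) (.b (.a (.b (.l 12) (.a
(.l 12) .z)) (.b .z (.a .z (.l 13)))) (.a (.b .z (.l 13)) (.l 13)))) (.a (.b (.a (.b .z (.l 13)) (.l 13)) (.l 13)) (.l 13)))) (.a (.b (.a (.b (.a (.b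
.z (.a .z (.l 13))) (.b (.a .z (.l 13)) (.l 13))) (.l 13)) (.l 13)) (.l 13)) (.l 13))))) (.b (.a (.b (.a (.l 12) (.b (.l 12) (.a (.l 12) (.b (.l 12)
(.a (.l 12) (.b (.l 12) (.a (.l 12) .z))))))) (.a (.b (.l 12) (.a (.b (.l 12) (.a (.b (.l 12) .z) (.b .z (.a .z (.l 13))))) (.b (.a (.b (.l 12) .z)
(.b .z (.a .z (.l 13)))) (.a (.b (.a .z (.l 13)) (.l 13)) (.l 13))))) (.b (.a (.b (.a (.l 12) (.b (.l 12) (.a (.l 12) .z))) (.a (.b (.a (.l 12) .z)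
.z) (.b .z (.l 13)))) (.b (.a (.b (.a (.l 12) .z) .z) (.b .z (.l 13))) (.l 13))) (.a (.b (.a (.b (.a .z (.l 13)) (.l 13)) (.l 13)) (.l 13)) (.l
13))))) (.b (.a (.b (.a (.l 12) (.b (.l 12) (.a (.l 12) (.b (.l 12) .z)))) (.a (.b (.a (.l 12) (.b (.l 12) (.a (.l 12) .z))) (.a (.b (.a (.l 12) .z)
.z) (.b .z (.l 13)))) (.b (.a (.b .z (.a .z (.l 13))) (.b (.a .z (.l 13)) (.l 13))) (.l 13)))) (.b (.a (.b (.a (.l 12) (.b (.l 12) .z)) (.a .z (.b (.a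
.z (.l 11)) (.b (.l 11) .z)))) (.b (.a (.b .z (.a .z (.l 11))) (.b (.a .z (.l 11)) (.l 11))) (.b (.l 11) (.b (.l 11) .z)))) (.l 13))) (.l 13))) (.a
(.b (.a (.b (.a (.b (.a (.b (.a .z (.l 13)) (.l 13)) (.l 13)) (.l 13)) (.l 13)) (.l 13)) (.l 13)) (.l 13)) (.l 13))))) (.b (.a (.b (.a (.b (.l 21) (.b
(.b (.a (.b (.l 21) (.a (.l 21) (.b (.l 21) .z))) (.b (.a (.l 21) (.b (.l 21) .z)) (.a .z (.b .z (.l 12))))) (.a (.b (.a (.b (.l 21) .z) (.b .z (.a .z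
(.l 12)))) (.a (.b (.a .z (.l 12)) (.l 12)) (.l 12))) (.l 12))) (.l 12))) (.b (.b (.l 21) (.b (.l 21) (.a (.b (.l 21) (.a (.l 21) .z)) (.b (.a (.b (.l
21) .z) .z) (.a (.b .z (.l 12)) (.l 12)))))) (.a (.b (.b (.b (.a (.b .z (.a .z (.l 12))) (.b (.a .z (.l 12)) (.l 12))) (.l 12)) (.l 12)) (.l 12)) (.b
(.l 12) (.a (.l 12) (.b (.l 12) (.a (.b (.l 12) .z) (.b .z (.a .z (.l 11)))))))))) (.a (.b (.a (.l 12) (.b (.l 12) (.a (.l 12) (.b (.l 12) (.a (.b (.l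
12) (.a (.l 12) .z)) (.b (.a (.l 12) .z) .z)))))) (.a (.b (.a (.l 12) (.b (.l 12) (.a (.b (.l 12) (.a (.l 12) .z)) (.b (.a (.l 12) .z) .z)))) (.a (.b
(.a (.b (.l 12) (.a (.l 12) .z)) (.b (.a (.l 12) .z) .z)) (.a (.b .z (.a .z (.l 11))) (.l 11))) (.b (.a (.b .z (.l 11)) (.l 11)) (.l 11)))) (.b (.a
(.b (.a (.b (.l 12) (.a (.l 12) .z)) (.b (.a (.l 12) .z) .z)) (.a (.b .z (.l 11)) (.l 11))) (.b (.a (.b .z (.l 11)) (.l 11)) (.l 11))) (.l 11)))) (.b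
(.a (.b (.a (.l 12) (.b (.l 12) (.a (.b (.l 12) .z) (.b .z (.a .z (.l 11)))))) (.a (.b (.a (.b (.l 12) .z) (.b .z (.a .z (.l 11)))) (.a (.b (.a .z (.l
11)) (.l 11)) (.l 11))) (.b (.a (.b (.a .z (.l 11)) (.l 11)) (.l 11)) (.l 11)))) (.b (.a (.b (.a (.b (.l 12) .z) (.b .z (.a .z (.l 11)))) (.a (.b (.a
.z (.l 11)) (.l 11)) (.l 11))) (.b (.a (.b (.a .z (.l 11)) (.l 11)) (.l 11)) (.l 11))) (.l 11))) (.l 11)))) (.b (.a (.b (.a (.b (.l 21) (.b (.b (.a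
(.l 21) (.b (.l 21) .z)) (.a (.b (.l 21) .z) (.b .z (.a .z (.l 12))))) (.b (.a (.b (.a .z (.l 12)) (.l 12)) (.l 12)) (.l 12)))) (.b (.b (.a (.l 21)
(.b (.a .z (.b (.a .z (.l 8)) .z)) (.l 21))) (.b (.l 21) (.a (.l 21) (.b (.l 21) .z)))) (.a (.b (.b .z (.l 12)) (.a (.l 12) (.b (.l 12) (.a (.l 12)
.z)))) (.b (.a (.b (.b .z (.l 12)) (.l 12)) (.b (.l 12) (.a (.l 12) .z))) (.a (.b (.a (.l 12) .z) .z) (.b .z (.l 11))))))) (.a (.b (.a (.b (.l 12) (.a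
(.l 12) (.b (.l 12) (.a (.l 12) .z)))) (.b (.a (.l 12) (.b (.l 12) (.a (.l 12) .z))) (.a (.b (.a (.l 12) .z) .z) (.b .z (.l 11))))) (.a (.b (.a (.b
(.a (.l 12) .z) .z) (.b .z (.l 11))) (.a (.b (.a .z (.l 11)) (.l 11)) (.l 11))) (.l 11))) (.b (.a (.b (.a (.b (.a (.l 12) .z) .z) (.b .z (.l 11))) (.l
11)) (.l 11)) (.l 11)))) (.b (.a (.b (.a (.b (.b (.a (.b (.l 8) (.a .z (.l 8))) (.l 8)) (.a .z (.b (.a .z (.l 8)) .z))) (.a (.b (.l 21) .z) .z)) (.b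
(.a (.l 8) (.b (.l 8) (.a (.l 8) (.b (.l 8) .z)))) (.a .z (.b .z (.l 11))))) (.a (.b (.a (.b (.a (.l 12) .z) .z) (.b .z (.l 11))) (.l 11)) (.l 11)))
(.b (.a (.b (.a (.b (.a (.l 8) .z) .z) (.b (.a .z (.l 9)) (.b (.l 9) .z))) (.b (.b .z (.a .z (.l 11))) (.l 11))) (.b (.b (.b (.l 9) (.a (.l 9) .z))
(.b .z (.a .z (.l 10)))) (.b (.b .z (.l 11)) (.l 11)))) (.l 11))) (.l 11))) (.l 11))) (.b (.b (.b (.b (.l 11) (.b (.a (.l 11) (.b (.a (.l 11) (.a (.l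
11) (.a (.l 11) .z))) (.a (.a (.a (.a (.l 11) .z) .z) .z) (.a .z (.a .z (.a .z (.l 13))))))) (.a (.b (.a (.a (.a (.l 11) (.a (.l 11) .z)) .z) .z) (.a
(.a .z (.l 13)) (.l 13))) (.b (.a (.a (.a .z (.l 13)) (.l 13)) (.l 13)) (.l 13))))) (.l 13)) (.l 13)) (.l 13))))) (.b (.a (.b (.b (.l 8) (.a (.l 8)
(.b (.l 8) (.a (.l 8) (.a (.l 8) (.b (.l 8) (.a (.b (.l 8) (.a (.b (.l 8) (.a (.l 8) (.b (.l 8) .z))) (.b (.a (.l 8) (.b (.l 8) .z)) .z))) (.b (.a (.b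
(.l 8) (.a (.l 8) (.b (.l 8) .z))) (.b (.a (.l 8) (.b (.l 8) .z)) .z)) (.a (.b .z (.l 9)) (.l 9)))))))))) (.a (.b (.a (.l 8) (.b (.l 8) (.a (.l 8) (.b
(.l 8) (.a (.b (.l 8) (.a (.l 8) (.b (.l 8) (.a (.b (.l 8) .z) .z)))) (.b (.a (.b (.l 8) (.a (.l 8) (.b (.l 8) .z))) (.b (.a (.l 8) (.b (.l 8) .z))
.z)) (.a (.b (.a (.b (.l 8) .z) .z) (.a .z (.l 9))) (.l 9)))))))) (.a (.b (.a (.l 8) (.b (.l 8) (.a (.b (.l 8) (.a (.l 8) (.b (.l 8) (.a (.b (.l 8)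
.z) .z)))) (.b (.a (.l 8) (.b (.l 8) (.a (.b (.l 8) .z) .z))) (.a (.b (.a (.b (.l 8) .z) .z) (.a .z (.l 9))) (.b (.a .z (.l 9)) (.l 9))))))) (.a (.b
(.a (.b (.l 8) (.a (.l 8) (.b (.l 8) (.a (.b (.l 8) .z) .z)))) (.b (.a (.l 8) (.b (.l 8) (.a (.b (.l 8) .z) .z))) (.a (.b (.a (.b (.l 8) .z) .z) (.a
.z (.l 9))) (.b (.a .z (.l 9)) (.l 9))))) (.a (.b (.a (.b (.a (.b (.l 8) .z) .z) (.a .z (.l 9))) (.b (.a .z (.l 9)) (.l 9))) (.l 9)) (.b (.l 9) (.b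
(.l 9) (.b (.l 9) .z))))) (.b (.a (.b (.a (.b (.a (.b (.l 8) .z) .z) (.a .z (.l 9))) (.b (.a .z (.l 9)) (.l 9))) (.l 9)) (.l 9)) (.b (.l 9) (.b (.a
(.b (.l 9) (.a (.l 9) .z)) (.b (.a (.l 9) .z) .z)) (.a (.b .z (.a .z (.l 10))) (.l 10))))))) (.b (.a (.b (.a (.b (.l 8) (.a (.l 8) (.b (.l 8) (.a (.b
(.l 8) .z) .z)))) (.b (.a (.l 8) (.b (.l 8) (.a (.b (.l 8) .z) .z))) (.a (.b (.a (.b (.l 8) .z) .z) (.a .z (.l 9))) (.b (.a .z (.l 9)) (.l 9))))) (.a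
(.b (.a (.b (.a (.b (.l 8) .z) .z) (.a .z (.l 9))) (.b (.a .z (.l 9)) (.l 9))) (.l 9)) (.l 9))) (.b (.a (.b (.a (.b (.a (.b (.l 8) .z) .z) (.a .z (.l
9))) (.b (.a .z (.l 9)) (.l 9))) (.l 9)) (.l 9)) (.l 9))) (.b (.b (.l 9) (.a (.l 9) (.b (.l 9) (.a (.l 9) (.b (.a (.l 9) .z) .z))))) (.b (.a (.b (.a
(.l 9) (.b (.l 9) (.a (.l 9) .z))) (.a (.b (.l 9) .z) (.b .z (.a .z (.l 10))))) (.b (.a (.b .z (.a .z (.l 10))) (.b (.a .z (.l 10)) (.l 10))) (.l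
10))) (.a (.b (.a (.b (.a .z (.l 10)) (.l 10)) (.l 10)) (.l 10)) (.l 10))))))) (.b (.a (.b (.a (.l 8) (.b (.l 8) (.a (.b (.l 8) (.a (.b (.l 8) (.a (.l
8) (.b (.l 8) .z))) (.b (.a (.l 8) (.b (.l 8) .z)) .z))) (.b (.a (.b (.l 8) (.a (.l 8) (.b (.l 8) .z))) (.b (.a (.l 8) (.b (.l 8) .z)) .z)) (.a (.b .z
(.l 9)) (.l 9)))))) (.a (.b (.a (.b (.l 8) (.a (.b (.l 8) (.a (.l 8) (.b (.l 8) .z))) (.b (.a (.l 8) (.b (.l 8) .z)) .z))) (.b (.a (.b (.l 8) (.a (.l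
8) (.b (.l 8) .z))) (.b (.a (.l 8) (.b (.l 8) .z)) .z)) (.a (.b .z (.l 9)) (.l 9)))) (.a (.b (.a (.b .z (.l 9)) (.l 9)) (.l 9)) (.l 9))) (.b (.a (.b
(.a (.b .z (.l 9)) (.l 9)) (.l 9)) (.l 9)) (.l 9)))) (.b (.a (.b (.a (.b (.l 8) (.a (.b (.l 8) (.a (.l 8) (.b (.l 8) .z))) (.b (.a (.l 8) (.b (.l 8)
.z)) .z))) (.b (.a (.b (.l 8) (.a (.l 8) (.b (.l 8) .z))) (.b (.a (.l 8) (.b (.l 8) .z)) .z)) (.a (.b .z (.l 9)) (.l 9)))) (.a (.b (.a (.b .z (.l 9))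
(.l 9)) (.l 9)) (.l 9))) (.b (.a (.b (.a (.b .z (.l 9)) (.l 9)) (.l 9)) (.l 9)) (.l 9))) (.l 9))) (.b (.b (.l 9) (.a (.l 9) (.b (.a (.l 9) (.b (.l 9)
(.a (.l 9) (.b (.l 9) (.a (.l 9) .z))))) (.a (.b (.l 9) (.a (.b (.l 9) (.a (.l 9) .z)) (.b .z (.a .z (.l 10))))) (.b (.a (.b (.a (.l 9) .z) .z) (.b .z
(.l 10))) (.a (.b (.a .z (.l 10)) (.l 10)) (.l 10))))))) (.b (.a (.b (.a (.b (.l 9) (.a (.l 9) (.b (.l 9) (.a (.l 9) .z)))) (.b (.a (.l 9) (.b (.l 9)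
.z)) (.a (.b (.a (.l 9) .z) .z) (.b (.a .z (.l 10)) (.l 10))))) (.a (.b (.a (.b (.l 9) (.a (.l 9) .z)) (.b .z (.a .z (.l 10)))) (.a (.b .z (.l 10))
(.l 10))) (.l 10))) (.b (.a (.b (.a (.b .z (.a .z (.l 10))) (.l 10)) (.l 10)) (.l 10)) (.l 10))) (.l 10)))))) (.b (.a (.b (.b (.l 8) (.a (.l 8) (.b
(.l 8) (.a (.l 8) (.b (.a (.l 8) (.b (.a (.l 8) (.b (.l 8) (.a (.l 8) .z))) (.a (.b (.l 8) (.a (.l 8) .z)) .z))) (.a (.b (.a (.l 8) (.b (.l 8) (.a (.l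
8) .z))) (.a (.b (.l 8) (.a (.l 8) .z)) .z)) (.a (.b .z (.l 9)) (.l 9)))))))) (.a (.b (.b (.l 8) (.a (.l 8) (.a (.b (.l 8) (.a (.b (.l 8) (.a (.l 8)
(.b (.l 8) .z))) (.b (.a (.l 8) (.b (.l 8) .z)) .z))) (.b (.a (.b (.l 8) (.a (.l 8) (.b (.l 8) .z))) (.b (.a (.l 8) (.b (.l 8) .z)) .z)) (.a (.b .z
(.l 9)) (.l 9)))))) (.a (.b (.a (.b (.l 8) (.a (.b (.l 8) (.a (.l 8) (.b (.l 8) .z))) (.b (.a (.l 8) (.b (.l 8) .z)) .z))) (.b (.a (.b (.l 8) (.a (.l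
8) (.b (.l 8) .z))) (.b (.a (.l 8) (.b (.l 8) .z)) .z)) (.a (.b .z (.l 9)) (.l 9)))) (.a (.b (.a (.b .z (.l 9)) (.l 9)) (.l 9)) (.l 9))) (.b (.a (.b
(.a (.b .z (.l 9)) (.l 9)) (.l 9)) (.l 9)) (.l 9)))) (.b (.a (.b (.a (.b (.l 8) (.a (.b (.l 8) (.a (.l 8) (.b (.l 8) .z))) (.b (.a (.l 8) (.b (.l 8)
.z)) .z))) (.b (.b (.a (.l 8) (.b (.l 8) (.a (.l 8) .z))) (.a (.a (.l 8) (.b (.l 8) .z)) .z)) (.a (.b .z (.l 9)) (.l 9)))) (.a (.b (.a (.b .z (.l 9))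
(.l 9)) (.l 9)) (.l 9))) (.b (.a (.b (.a (.b .z (.l 9)) (.l 9)) (.l 9)) (.l 9)) (.l 9))) (.l 9)))) (.b (.b (.a (.b (.l 8) (.a (.l 8) (.b (.a (.l 8)
(.b (.a (.l 8) (.b (.l 8) (.a (.l 8) .z))) (.a (.b (.l 8) (.a (.l 8) .z)) .z))) (.a (.b (.a (.l 8) (.b (.l 8) (.a (.l 8) .z))) (.a (.b (.l 8) (.a (.l
8) .z)) .z)) (.b (.a .z (.l 9)) (.l 9)))))) (.b (.a (.b (.a (.l 8) (.b (.a (.l 8) (.b (.l 8) (.a (.l 8) .z))) (.a (.b (.l 8) (.a (.l 8) .z)) .z))) (.a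
(.b (.a (.l 8) (.b (.l 8) (.a (.l 8) .z))) (.a (.b (.l 8) (.a (.l 8) .z)) .z)) (.b (.a .z (.l 9)) (.l 9)))) (.b (.a (.b (.a .z (.l 9)) (.l 9)) (.l 9))
(.l 9))) (.a (.b (.a (.b (.a .z (.l 9)) (.l 9)) (.l 9)) (.l 9)) (.l 9)))) (.a (.a (.b (.b (.a (.l 8) (.b (.a (.l 8) (.b (.l 8) (.a (.l 8) .z))) (.a
(.b (.l 8) (.a (.l 8) .z)) .z))) (.a (.b (.a (.l 8) (.b (.l 8) (.a (.l 8) .z))) (.a (.b (.l 8) (.a (.l 8) .z)) .z)) (.b (.a .z (.l 9)) (.l 9)))) (.a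
(.b (.b (.a .z (.l 9)) (.l 9)) (.l 9)) (.l 9))) (.b (.b (.a (.b (.a .z (.l 9)) (.l 9)) (.l 9)) (.l 9)) (.l 9))) (.l 9))) (.l 9))) (.b (.b (.l 9) (.a
(.b (.l 9) (.a (.l 9) (.b (.l 9) (.a (.l 9) (.b (.l 9) (.a (.l 9) (.b (.l 9) (.a (.l 9) .z)))))))) (.b (.a (.l 9) (.b (.a (.l 9) (.b (.l 9) (.a (.l 9)
(.b (.a (.l 9) .z) .z)))) (.a (.b (.a (.l 9) (.b (.l 9) (.a (.l 9) .z))) (.a (.b (.l 9) (.a (.l 9) .z)) (.b .z (.a .z (.l 10))))) (.b (.a (.b (.a (.l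
9) .z) .z) (.b (.a .z (.l 10)) (.l 10))) (.l 10))))) (.a (.b (.a (.l 9) (.b (.a (.l 9) (.b (.l 9) .z)) (.a (.b (.a (.l 9) .z) .z) (.b (.a .z (.l 10))
(.l 10))))) (.a (.b (.a (.b (.l 9) (.a (.l 9) .z)) (.b .z (.a .z (.l 10)))) (.a (.b .z (.a .z (.l 10))) (.l 10))) (.b (.a (.b (.a .z (.l 10)) (.l 10))
(.l 10)) (.l 10)))) (.b (.a (.b (.a (.b .z (.a .z (.l 10))) (.l 10)) (.l 10)) (.l 10)) (.l 10)))))) (.b (.a (.b (.a (.b (.l 9) (.a (.l 9) (.b (.a (.l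
9) (.b (.l 9) (.a (.l 9) .z))) (.a (.b (.a (.l 9) .z) .z) (.b .z (.l 10)))))) (.b (.a (.b (.l 9) (.a (.b (.l 9) (.a (.l 9) .z)) (.b (.a (.l 9) .z)
.z))) (.b (.a (.b (.a (.l 9) .z) .z) (.b .z (.l 10))) (.a (.b (.a .z (.l 10)) (.l 10)) (.l 10)))) (.a (.b (.a (.b .z (.a .z (.l 10))) (.l 10)) (.l
10)) (.l 10)))) (.a (.b (.a (.b (.a (.b (.l 9) (.a (.l 9) .z)) (.b (.a (.l 9) .z) .z)) (.a (.b .z (.a .z (.l 10))) (.l 10))) (.b (.a (.b (.a .z (.l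
10)) (.l 10)) (.l 10)) (.l 10))) (.l 10)) (.l 10))) (.l 10)) (.b (.l 10) (.b (.l 10) (.a (.b (.l 10) (.a (.b (.l 10) (.a (.l 10) (.a (.l 10) .z))) (.b
(.a (.l 10) (.a (.l 10) .z)) (.a .z (.a .z (.a .z (.l 11))))))) (.b (.a (.b (.l 10) (.a (.l 10) (.a (.a (.l 10) .z) .z))) (.b (.a (.l 10) .z) (.a .z
(.a (.a .z (.l 11)) (.l 11))))) (.a (.b (.a .z (.a .z (.l 11))) (.l 11)) (.l 11)))))))))) (.b (.b (.a (.b (.a (.b (.a (.b (.a (.b (.a (.b (.a (.l 9)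
.z) .z) (.b (.a .z (.l 10)) (.l 10))) (.l 10)) (.b (.l 10) (.b (.l 10) (.a (.a (.l 10) .z) .z)))) (.b (.b (.a .z (.a .z (.l 11))) (.l 11)) (.l 11)))
(.b (.b (.l 10) (.b (.a (.l 10) (.a (.l 10) .z)) (.a .z (.a .z (.a .z (.l 11)))))) (.l 11))) (.l 11)) (.b (.b (.b (.b (.a (.l 10) (.a (.l 10) (.a (.l
10) (.a (.l 10) .z)))) (.a (.a (.l 10) (.a (.l 10) .z)) .z)) (.b (.a (.a .z (.a .z (.a .z (.l 11)))) (.l 11)) (.l 11))) (.l 11)) (.l 11))) (.l 11))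
(.b (.b (.b (.a (.b (.a (.b (.a .z (.a .z (.a .z (.l 11)))) (.l 11)) (.l 11)) (.l 11)) (.l 11)) (.l 11)) (.l 11)) (.l 11))) (.b (.l 11) (.b (.l 11)
(.b (.l 11) (.a (.l 11) (.b (.l 11) (.a (.l 11) (.b (.l 11) (.a (.a (.l 11) (.a (.l 11) .z)) .z))))))))) (.b (.b (.b (.b (.a (.b (.l 11) (.a (.b (.l
11) (.a (.l 11) (.a (.a (.l 11) .z) .z))) (.b (.a (.a (.l 11) (.a (.l 11) .z)) .z) (.a (.a .z (.a .z (.a .z (.l 13)))) (.l 13))))) (.b (.a (.b (.a (.l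
11) (.a (.l 11) .z)) (.a (.a (.a (.a (.l 11) .z) .z) .z) (.a .z (.a (.a .z (.l 13)) (.l 13))))) (.b (.a (.a .z (.a .z (.a .z (.l 13)))) (.l 13)) (.l
13))) (.a (.b (.a (.a (.a .z (.l 13)) (.l 13)) (.l 13)) (.l 13)) (.l 13)))) (.a (.b (.a (.b (.a .z (.a (.a .z (.a .z (.l 13))) (.l 13))) (.l 13)) (.l
13)) (.l 13)) (.l 13))) (.l 13)) (.l 13)) (.l 13)))))

theorem vQ190 : ev Q190 I4_9 I4_13 = 3797752319477230 := by decide +kernel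

noncomputable def Q161 : QT :=
(.b (.a (.b (.a (.b (.a (.b (.b (.b (.l 41) (.b (.l 41) (.a (.l 41) .z))) (.b (.b .z (.a .z (.l 20))) (.l 20))) (.l 20)) (.b (.b (.b (.b (.l 41) (.a
(.l 41) .z)) (.b .z (.a .z (.l 20)))) (.l 20)) (.a (.b (.l 20) (.a (.b (.l 20) (.a (.l 20) .z)) (.b (.a (.l 20) .z) .z))) (.b (.a (.b (.l 20) (.a (.l
20) .z)) (.b (.a (.l 20) .z) .z)) (.a (.b .z (.l 20)) (.l 20)))))) (.a (.b (.a (.b (.a (.b (.a .z (.l 20)) .z) (.b (.l 20) (.a .z (.l 20)))) (.a (.l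
23) .z)) (.b (.a (.l 20) (.b (.l 20) .z)) (.a (.b .z (.a .z (.l 20))) (.b (.a .z (.l 20)) (.l 20))))) (.a (.b (.a (.b .z (.a .z (.l 20))) (.b (.a .z
(.l 20)) (.l 20))) (.l 20)) (.l 20))) (.b (.a (.b (.a (.b .z (.a .z (.l 20))) (.l 20)) (.l 20)) (.l 20)) (.l 20)))) (.b (.a (.b (.a (.b (.b .z (.l
20)) (.a (.b (.l 20) (.a (.l 20) .z)) (.b (.a (.l 20) .z) .z))) (.b (.a (.b (.b .z (.l 20)) .z) (.b .z (.a .z (.l 20)))) (.a (.b (.a .z (.l 20)) (.l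
20)) (.l 20)))) (.a (.b (.a (.b .z (.l 20)) (.l 20)) (.l 20)) (.l 20))) (.b (.a (.b (.a (.b .z (.l 20)) (.b .z (.a (.l 20) .z))) (.l 20)) (.b (.a (.b
(.l 21) (.a .z (.l 21))) (.l 21)) (.a (.b .z (.a (.l 20) .z)) (.b (.l 21) (.a .z (.l 21)))))) (.a (.l 20) (.b (.a (.l 20) (.b .z (.l 20))) (.l 20)))))
(.l 20))) (.b (.l 20) (.b (.l 20) (.b (.a (.l 20) (.b (.a (.l 20) (.b (.l 20) (.a (.l 20) (.a (.l 20) .z)))) (.a (.b (.l 20) (.a (.l 20) .z)) (.b (.a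
(.a (.l 20) .z) .z) (.a .z (.l 23)))))) (.a (.b (.a (.l 20) (.b (.l 20) (.a (.a (.l 20) .z) .z))) (.a (.b (.a (.l 20) (.a (.l 20) .z)) (.a (.a (.l 20)
.z) .z)) (.b (.a .z (.l 23)) (.l 23)))) (.b (.a (.b (.a .z (.a .z (.l 23))) (.a (.a .z (.l 23)) (.l 23))) (.l 23)) (.l 23))))))) (.b (.a (.b (.a (.b
(.l 21) (.a (.b (.a (.b (.a .z (.l 21)) .z) (.l 21)) (.a (.b (.a (.l 20) .z) (.l 20)) (.b (.a .z (.l 21)) .z))) (.l 21))) (.l 21)) (.a (.b (.a (.b (.a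
(.l 20) (.b (.a (.l 20) .z) (.l 20))) (.l 20)) (.b (.a (.b (.a .z (.l 21)) .z) (.b (.l 21) (.a .z (.l 21)))) (.a (.l 20) (.b .z (.a (.l 20) .z)))))
(.l 20)) (.b (.a (.b (.l 21) (.a (.b (.l 21) (.a .z (.l 21))) (.l 21))) (.l 21)) (.a (.b (.a (.b .z (.a (.l 20) .z)) (.b (.l 21) (.a .z (.l 21)))) (.a
(.l 20) (.b .z (.a (.l 20) .z)))) (.b (.b (.a (.l 21) .z) .z) (.a (.b (.b .z (.l 29)) (.a .z (.l 29))) (.b (.b .z (.l 29)) (.l 29)))))))) (.b (.b (.l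
21) (.a (.l 21) (.b (.a (.l 21) (.b (.a (.l 21) .z) (.a .z (.b .z (.l 25))))) (.a (.b (.a (.l 21) .z) (.a .z (.b .z (.l 25)))) (.b (.a (.b .z (.l 25))
(.l 25)) (.l 25)))))) (.b (.a (.b (.a (.l 21) (.b (.a (.l 21) .z) (.a .z (.b .z (.l 25))))) (.a (.b (.a (.l 21) .z) (.a .z (.b .z (.l 25)))) (.b (.a
(.b .z (.l 25)) (.l 25)) (.l 25)))) (.b (.a (.b (.a (.b .z (.l 25)) (.l 25)) (.l 25)) (.l 25)) (.b (.l 25) (.a (.l 25) (.b (.l 25) (.a (.l 25)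
.z)))))) (.a (.b (.a (.b (.a (.b .z (.l 25)) (.l 25)) (.b (.a (.l 25) .z) .z)) (.b (.b (.l 25) (.a (.l 25) .z)) (.b .z (.l 29)))) (.l 29)) (.b (.b (.b
(.a (.a (.l 25) .z) .z) (.a .z (.l 29))) (.l 29)) (.l 29)))))) (.a (.b (.a (.l 20) (.b (.a (.l 20) (.b (.a (.b .z (.l 20)) (.b (.a .z (.l 29)) .z))
(.a (.l 20) (.b (.a (.l 20) .z) (.l 20))))) (.l 20))) (.b (.b (.l 20) (.b (.l 20) (.a (.b (.l 20) (.a (.l 20) (.a (.l 20) .z))) (.b (.a (.l 20) .z)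
(.a .z (.a .z (.l 23))))))) (.b (.b (.a (.b (.a (.a (.l 20) .z) .z) (.a .z (.l 23))) (.l 23)) (.l 23)) (.l 23)))) (.b (.a (.b (.a (.b (.l 29) (.a (.b
(.a .z (.l 29)) .z) (.l 29))) (.l 29)) (.a (.b (.a (.b (.a (.l 20) .z) (.l 20)) (.b (.a .z (.l 29)) .z)) (.a (.l 20) (.b (.a (.l 20) .z) (.l 20))))
(.b (.l 29) (.a (.b (.a .z (.l 29)) .z) (.l 29))))) (.l 29)) (.a (.a (.b (.b (.l 20) (.b (.b (.l 20) .z) (.b (.a .z (.l 23)) (.l 23)))) (.l 23)) (.b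
(.b (.a (.b (.a (.l 20) .z) (.l 20)) (.b (.a .z (.l 29)) .z)) (.a (.b .z (.l 23)) (.a (.b .z (.l 23)) (.b .z (.l 23))))) (.l 23))) (.a (.b (.a (.b (.l
29) (.a .z (.b (.l 29) .z))) (.l 29)) (.a (.b (.a (.l 23) (.b .z (.l 23))) (.l 23)) (.b (.a .z (.b (.l 29) .z)) (.a (.l 23) (.b .z (.l 23)))))) (.b
(.l 29) (.a (.b (.l 29) (.a .z (.b (.l 29) .z))) (.l 29))))))))) (.a (.b (.b (.b (.b (.a (.b (.a (.b (.a .z (.l 23)) (.l 23)) (.l 23)) (.l 23)) (.l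
23)) (.l 23)) (.b (.l 23) (.a (.l 23) (.b (.l 23) (.a (.l 23) (.b (.a (.l 23) (.a (.l 23) .z)) (.a (.a (.l 23) .z) .z))))))) (.b (.b (.a (.b (.l 23)
(.a (.b (.l 23) (.a (.l 23) (.a (.l 23) .z))) (.b (.a (.a (.l 23) .z) .z) (.a .z (.l 27))))) (.b (.a (.b (.a (.l 23) .z) (.a .z (.a .z (.l 27)))) (.b
(.a .z (.l 27)) (.l 27))) (.a (.b (.a (.a .z (.l 27)) (.l 27)) (.l 27)) (.l 27)))) (.a (.b (.a (.b .z (.a (.a .z (.l 27)) (.l 27))) (.l 27)) (.l 27))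
(.l 27))) (.l 27))) (.b (.a (.b (.l 27) (.a (.l 27) (.b (.l 27) (.a (.l 27) (.b (.l 27) (.a (.l 27) .z)))))) (.b (.a (.l 27) (.b (.a (.l 27) (.b (.l
27) (.a (.b (.l 27) .z) .z))) (.a (.b (.a (.l 27) (.b (.l 27) .z)) (.a .z (.b .z (.l 28)))) (.b (.a .z (.l 28)) (.l 28))))) (.a (.b (.a (.b (.l 27)
(.a (.l 27) (.b (.l 27) .z))) (.b (.a (.l 27) .z) (.a .z (.b .z (.l 28))))) (.a (.b (.a (.b (.l 27) .z) .z) (.a (.b .z (.l 28)) (.l 28))) (.l 28)))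
(.b (.a (.b (.a (.b .z (.l 28)) (.l 28)) (.l 28)) (.l 28)) (.l 28))))) (.a (.b (.a (.b (.l 27) (.a (.l 27) (.b (.a (.l 27) (.b (.l 27) .z)) (.a .z (.b
.z (.l 28)))))) (.b (.a (.b (.l 27) (.a (.b (.l 27) .z) .z)) (.b (.a .z (.b .z (.l 28))) (.a (.b .z (.l 28)) (.l 28)))) (.a (.b (.a .z (.l 28)) (.l
28)) (.l 28)))) (.a (.b (.a (.b (.a (.l 27) .z) (.a .z (.b .z (.l 28)))) (.b (.a (.b .z (.l 28)) (.l 28)) (.l 28))) (.a (.b (.a (.b .z (.l 31)) .z)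
(.a (.l 31) (.b .z (.l 31)))) (.b (.l 28) (.a .z (.b (.l 28) .z))))) (.l 28))) (.b (.a (.l 28) (.b (.l 28) (.a (.l 28) (.b (.l 28) (.a (.b (.l 28) .z)
.z))))) (.a (.b (.l 28) (.a (.b (.l 28) (.a (.l 28) (.b (.l 28) .z))) (.b (.a (.b (.l 28) .z) .z) (.a .z (.l 31))))) (.b (.a (.b (.a (.l 28) (.b (.l
28) .z)) (.a .z (.b .z (.l 28)))) (.b (.a .z (.l 28)) (.b (.l 28) (.a (.l 28) .z)))) (.a (.b .z (.l 31)) (.b (.b .z (.l 31)) (.l 31))))))))) (.a (.b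
(.b (.b (.l 23) (.b (.b (.l 23) (.a (.l 23) (.b (.l 23) (.a (.l 23) (.a (.l 23) .z))))) (.b (.a (.b (.l 23) (.a (.l 23) .z)) (.b .z (.a (.a .z (.l
27)) (.l 27)))) (.a (.b (.a .z (.a .z (.l 27))) (.l 27)) (.l 27))))) (.b (.a (.l 27) (.b (.l 27) (.a (.l 27) (.b (.a (.l 27) (.b (.l 27) .z)) (.a (.b
(.l 27) .z) .z))))) (.a (.b (.a (.l 27) (.b (.l 27) (.a (.l 27) (.b (.l 27) .z)))) (.a (.b (.l 27) (.a (.l 27) (.b (.l 27) .z))) (.b (.a (.b (.l 27)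
.z) .z) .z))) (.b (.a (.b (.a (.l 27) .z) .z) (.b (.a .z (.l 54)) (.l 54))) (.b (.b (.l 54) (.a (.l 54) .z)) (.b (.a .z (.a .z (.l 28))) (.l 28)))))))
(.b (.b (.a (.b (.a (.b (.a .z (.b .z (.l 28))) (.a (.b .z (.l 28)) (.l 28))) (.l 28)) (.l 28)) (.l 28)) (.a (.l 28) (.b (.a (.l 28) (.b (.l 28) (.a
(.b (.l 28) .z) .z))) (.a (.b (.a (.l 28) (.b (.l 28) .z)) (.a .z (.b .z (.l 28)))) (.b (.a .z (.l 28)) (.l 28)))))) (.b (.a (.b (.a (.b (.l 28) (.a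
(.l 28) (.b (.l 28) .z))) (.b (.a (.b (.l 28) .z) .z) (.a .z (.l 28)))) (.a (.b (.a .z (.b .z (.l 28))) (.a (.b .z (.l 28)) (.l 28))) (.l 28))) (.b
(.a (.b (.a (.b .z (.l 28)) (.l 28)) (.l 28)) (.l 28)) (.l 28))) (.b (.b (.a (.l 28) (.b (.l 28) (.a (.a (.l 28) .z) .z))) (.a (.b (.a (.l 28) .z) (.a
.z (.a .z (.l 31)))) (.b (.a .z (.l 31)) (.l 31)))) (.l 31))))) (.b (.a (.b (.b (.l 23) (.b (.b (.b (.l 23) (.a (.l 23) (.a (.l 23) .z))) (.b (.a (.a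
(.l 23) .z) .z) (.a .z (.l 27)))) (.a (.l 27) (.b (.l 27) (.a (.l 27) (.b (.l 27) .z)))))) (.b (.b (.a (.b (.l 27) (.a (.b (.l 27) .z) .z)) .z) (.a
(.b (.a .z (.l 54)) (.l 54)) (.a (.l 54) (.b (.l 54) .z)))) (.b (.b (.a (.l 54) (.a (.l 54) .z)) (.b (.a (.l 54) .z) (.a (.l 54) .z))) (.b (.b .z (.a
(.a .z (.l 28)) (.l 28))) (.l 28))))) (.b (.a (.b (.l 23) (.b (.b (.b (.l 23) .z) (.a (.l 27) (.b (.l 27) .z))) (.b (.a (.b (.l 27) .z) .z) .z))) (.b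
(.a (.b (.a (.l 23) (.b .z (.l 23))) (.l 23)) (.b (.a .z (.b (.l 29) .z)) (.a (.l 23) (.b .z (.l 23))))) .z)) (.b (.a .z (.a .z (.b (.a .z (.l 51))
(.l 51)))) (.b (.b (.a .z (.a .z (.l 51))) (.b .z (.a .z (.l 28)))) (.a (.l 28) (.b (.l 28) (.a (.b (.l 28) .z) .z))))))) (.b (.b (.a (.b (.l 28) (.a
(.b (.l 28) (.a (.l 28) (.b (.l 28) .z))) (.b (.a (.b (.l 28) .z) .z) (.a .z (.l 28))))) (.b (.a (.b (.a (.l 28) (.b (.l 28) .z)) (.a .z (.b .z (.l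
28)))) (.b (.a .z (.l 28)) (.l 28))) (.a (.b (.a (.b .z (.l 28)) (.l 28)) (.l 28)) (.l 28)))) (.a (.b (.a (.b (.a .z (.b .z (.l 28))) (.a (.b .z (.l
28)) (.l 28))) (.l 28)) (.l 28)) (.l 28))) (.b (.b (.l 28) (.b (.l 28) (.a (.b (.l 28) (.a (.l 28) (.a (.l 28) .z))) (.b (.a (.l 28) .z) (.a .z (.a .z
(.l 31))))))) (.b (.b (.a (.b .z (.a (.a .z (.l 31)) (.l 31))) (.l 31)) (.l 31)) (.l 31))))))))

theorem vQ161 : ev Q161 I5_14 I5_29 = 854012145756570 := by decide +kernel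

noncomputable def Q38 : QT :=
(.a (.b (.a (.b (.a (.b (.l 16) (.a (.l 16) (.b (.l 16) (.a (.b (.l 16) (.a (.l 16) (.b (.l 16) (.a (.l 16) .z)))) (.b (.a (.l 16) (.b (.a (.l 16) .z)
.z)) (.a (.b (.a (.l 16) .z) .z) (.b .z (.l 18)))))))) (.b (.a (.b (.l 16) (.a (.l 16) (.b (.l 16) (.a (.l 16) (.b (.a (.l 16) .z) .z))))) (.b (.a (.b
(.l 16) (.a (.l 16) (.b (.l 16) (.a (.l 16) .z)))) (.b (.a (.b (.l 16) (.a (.l 16) .z)) (.b (.a (.l 16) .z) .z)) (.a .z (.l 18)))) (.a (.b (.a (.b (.l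
16) .z) .z) (.a (.b .z (.l 18)) (.l 18))) (.l 18)))) (.a (.b (.a (.b (.a (.l 16) (.b (.l 16) (.a (.l 16) .z))) (.a (.b (.l 16) (.a (.l 16) .z)) .z))
(.b (.a (.b (.a (.l 16) .z) .z) (.b .z (.l 18))) (.l 18))) (.a (.b (.a (.b .z (.l 18)) (.l 18)) (.l 18)) (.l 18))) (.l 18)))) (.a (.b (.a (.b (.a (.l
16) (.b (.l 16) (.a (.l 16) (.b (.a (.l 16) .z) .z)))) (.a (.b (.a (.l 16) (.b (.l 16) (.a (.l 16) .z))) (.a (.b (.a (.l 16) .z) .z) .z)) (.b .z (.l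
60)))) (.b (.a (.b (.a (.b (.l 16) .z) .z) .z) (.a .z (.a (.b (.l 18) .z) (.l 18)))) (.a (.a (.l 60) .z) (.a (.l 82) .z)))) (.a (.b (.a (.b (.a .z (.l
60)) (.l 60)) (.l 60)) (.l 60)) (.a (.a (.a (.l 60) .z) (.a .z (.l 82))) (.l 82)))) (.a (.a (.b (.a (.b (.l 18) (.a (.b (.l 18) .z) (.l 18))) (.l 18))
(.a (.b .z (.l 82)) (.b (.a (.b (.l 18) .z) (.l 18)) .z))) (.l 18)) (.l 18)))) (.b (.a (.b (.a (.b (.a (.b (.a (.b .z (.l 18)) (.l 18)) (.l 18)) (.l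
18)) (.l 18)) (.l 18)) (.l 18)) (.a (.l 18) (.a (.a (.l 18) (.b (.l 18) (.a (.l 18) (.b (.l 18) .z)))) (.a (.b (.a (.l 18) (.b (.l 18) .z)) .z) .z))))
(.a (.l 18) (.a (.a (.l 18) (.a (.l 18) (.b (.l 18) (.a (.l 18) (.b (.l 18) .z))))) (.a (.a (.b (.a (.l 18) (.b (.l 18) .z)) .z) .z) (.b (.b (.l 208)
.z) .z)))))) (.a (.a (.b (.b (.a (.a (.l 60) (.a (.l 60) (.a (.l 60) (.b (.l 60) .z)))) (.a (.a .z (.l 82)) (.l 82))) (.a (.b (.a (.b (.l 60) (.a .z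
(.l 60))) (.a (.l 60) .z)) (.a (.b .z (.a (.l 41) .z)) (.b (.a (.l 60) .z) .z))) (.l 82))) (.b (.a (.b (.a (.l 41) (.b .z (.a (.l 41) .z))) (.l 41))
(.b (.a (.b (.l 82) .z) (.l 82)) (.a (.b .z (.a (.l 41) .z)) (.b (.l 82) .z)))) (.a (.l 41) (.b (.a (.l 41) (.b .z (.a (.l 41) .z))) (.l 41))))) (.a
(.b (.a (.b (.a (.l 82) (.b .z (.l 82))) (.l 82)) (.b (.a (.b (.a .z (.b (.l 18) .z)) .z) (.b (.l 18) (.a .z (.b (.l 18) .z)))) (.a (.l 82) .z))) (.b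
(.a (.b (.a (.l 82) .z) .z) (.b (.a .z (.b .z (.l 52))) (.l 52))) (.b (.a (.b (.a .z (.l 52)) (.a .z (.l 52))) (.l 52)) (.a (.b .z (.a (.l 41) .z))
(.a (.b (.l 52) .z) (.l 52)))))) (.b (.a (.b (.l 18) (.a (.b (.a .z (.b (.l 18) .z)) .z) (.b (.l 18) (.a .z (.b (.l 18) .z))))) (.l 18)) (.a (.b (.a
(.l 52) (.b (.a (.l 52) .z) (.l 52))) (.l 52)) (.b (.a (.b (.a (.b (.l 18) .z) (.l 18)) .z) (.b (.l 18) (.a (.b (.l 18) .z) (.l 18)))) (.a (.l 52) (.b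
.z (.l 52)))))))) (.a (.a (.b (.l 18) (.a (.b (.l 18) (.a (.b (.a (.b (.l 18) .z) (.l 18)) (.a .z (.b (.l 18) .z))) (.l 18))) (.l 18))) (.a (.l 18)
(.b (.l 18) (.a (.l 18) (.b (.l 18) (.a (.l 18) (.b (.l 18) (.a (.l 18) .z)))))))) (.a (.a (.b (.a (.l 18) (.b (.l 18) (.a (.l 18) (.b (.l 18) (.a (.l
18) .z))))) (.a (.b (.a (.l 18) (.b (.l 18) (.a (.l 18) .z))) (.a (.b (.a (.l 18) .z) .z) .z)) (.b (.a (.b (.a (.l 18) .z) .z) .z) (.l 100)))) (.b (.a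
(.b (.a (.l 18) (.b (.l 18) (.a (.l 18) .z))) (.a (.b (.a (.l 18) .z) .z) .z)) (.b (.a (.b (.a (.l 18) .z) .z) .z) (.l 100))) (.l 100))) (.b (.b (.b
.z (.b .z (.a .z (.l 131)))) (.a (.b (.a (.l 100) .z) (.l 100)) (.b (.a .z (.l 131)) .z))) (.b (.a (.l 100) (.b (.a (.l 100) .z) (.l 100))) (.l
100))))))) (.a (.b (.a (.a (.b (.b (.l 158) (.b (.b (.l 158) .z) (.a (.l 208) .z))) (.b (.a (.b (.l 208) .z) (.a .z (.a .z (.l 118)))) (.b .z (.b .z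
(.l 160))))) (.a (.b (.b (.l 158) (.b .z (.l 118))) (.b (.l 118) (.b (.b .z (.l 98)) .z))) (.a (.b .z (.b (.b (.l 118) .z) .z)) .z))) (.b (.a (.b (.a
.z (.b (.a .z (.l 68)) .z)) (.a (.b (.l 79) (.a (.l 79) .z)) .z)) (.b (.a .z (.a .z (.l 147))) .z)) (.a (.a (.a .z (.b .z (.l 222))) (.b (.l 222) .z))
(.b .z (.a .z (.b .z (.a .z (.b .z (.a .z (.b .z (.l 10))))))))))) (.a (.b (.a (.b (.b (.a (.l 160) .z) .z) (.b (.b (.a (.l 131) .z) (.a (.l 131) .z))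
(.a (.l 131) .z))) .z) (.a (.b (.a (.b (.a .z (.l 131)) .z) (.a (.a (.l 131) .z) .z)) (.a (.b (.a (.l 100) .z) (.a .z (.b .z (.a .z (.l 10))))) (.b
(.a .z (.b .z (.a (.b .z (.l 10)) (.l 10)))) (.a (.b (.a (.b .z (.l 10)) (.l 10)) (.l 10)) (.l 10))))) (.b (.a (.b .z (.a .z (.b .z (.a (.b .z (.l
10)) (.l 10))))) (.b (.a .z (.b (.a .z (.b .z (.l 10))) (.a (.b .z (.l 10)) (.l 10)))) (.a (.b (.a (.b .z (.l 10)) (.l 10)) (.l 10)) (.l 10)))) (.a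
(.b (.a (.b (.a (.b .z (.l 10)) (.l 10)) (.l 10)) (.l 10)) (.l 10)) (.l 10))))) (.b (.a (.b .z (.a (.b .z (.a (.b .z (.a .z (.b .z (.l 10)))) (.b (.a
.z (.b .z (.l 10))) (.l 10)))) (.b (.a (.b .z (.a .z (.b .z (.l 10)))) (.b (.a .z (.b .z (.l 10))) (.l 10))) (.l 10)))) (.b (.a (.b .z (.a (.b .z (.a
(.b .z (.l 10)) (.l 10))) (.b (.a (.b .z (.l 10)) (.l 10)) (.l 10)))) (.b (.a (.b .z (.a (.b .z (.l 10)) (.l 10))) (.l 10)) (.l 10))) (.l 10))) (.l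
10)))) (.b (.a (.b (.a (.b (.l 147) (.b (.b (.l 147) .z) .z)) (.b (.a (.l 147) .z) (.a .z (.b .z (.a (.b .z (.a .z (.b .z (.l 10)))) (.b (.a (.b .z
(.l 10)) (.l 10)) (.l 10))))))) (.a (.b (.a .z (.b (.l 145) (.a .z (.b .z (.a (.b .z (.l 10)) (.l 10)))))) (.a (.b (.a .z (.b .z (.a .z (.b .z (.l
10))))) (.a (.b (.a .z (.b .z (.l 10))) (.l 10)) (.l 10))) (.b (.a (.b (.a (.b .z (.l 10)) (.l 10)) (.l 10)) (.l 10)) (.l 10)))) (.b (.a (.b (.a .z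
(.b (.a .z (.b .z (.l 10))) (.l 10))) (.a (.b (.a (.b .z (.l 10)) (.l 10)) (.l 10)) (.l 10))) (.l 10)) (.l 10)))) (.b (.a (.b (.a (.b (.a (.b (.a (.b
(.l 6) .z) (.l 6)) (.a .z (.b (.a .z (.l 6)) .z))) (.b (.l 6) (.a (.b (.l 6) (.a .z (.l 6))) (.l 6)))) (.a .z (.b (.a .z (.b (.a .z (.l 6)) .z)) (.a
.z (.b .z (.l 10)))))) (.b (.l 6) (.a (.b (.a (.b (.l 6) (.a .z (.l 6))) (.l 6)) (.a (.b .z (.l 10)) (.b (.a .z (.l 6)) .z))) (.b (.l 6) (.a (.b (.l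
6) (.a .z (.l 6))) (.l 6)))))) (.a (.b (.a (.b .z (.a (.b .z (.l 10)) (.l 10))) (.b (.a (.b .z (.l 10)) (.l 10)) (.l 10))) (.l 10)) (.b (.a (.l 10)
(.b (.a (.b .z (.l 10)) (.b (.a .z (.l 6)) .z)) (.l 10))) (.l 10)))) (.b (.l 6) (.a (.b (.a (.b (.a (.b (.l 6) (.a .z (.l 6))) (.l 6)) (.a .z (.b (.l
6) .z))) (.l 6)) (.a (.b (.a (.l 10) (.b .z (.l 10))) (.l 10)) (.b (.a .z (.b (.l 6) .z)) (.a (.l 10) (.b .z (.l 10)))))) (.b (.l 6) (.a (.b (.l 6)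
(.a .z (.b (.l 6) (.a .z (.l 6))))) (.l 6)))))) (.a (.l 10) (.b (.a (.l 10) (.b (.a (.b (.a (.l 10) (.b .z (.l 10))) (.l 10)) (.b (.a (.b (.a .z (.l
6)) .z) (.b (.l 6) (.a .z (.l 6)))) (.a (.l 10) (.b .z (.l 10))))) (.l 10))) (.l 10))))) (.l 10))))

theorem vQ38 : ev Q38 I4_1 I6_51 = 721154352571320 := by decide +kernel

noncomputable def Q147 : QT :=
(.a (.b (.l 5) (.a (.b (.b (.b (.l 5) (.a (.b (.a (.b (.l 5) (.a (.b (.a (.b (.l 5) (.a .z (.l 5))) (.l 5)) (.a (.b (.a (.a (.l 7) .z) .z) (.a (.l 7)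
(.a (.l 7) .z))) (.b (.l 5) (.a .z (.l 5))))) (.l 5))) (.l 5)) (.a (.b (.a (.b (.a (.l 7) (.b (.a (.a (.l 7) .z) .z) (.a (.l 7) (.a (.l 7) .z)))) (.l
7)) (.b (.a (.b (.l 5) (.a .z (.l 5))) (.l 5)) (.a (.b (.a (.a (.l 7) .z) .z) (.a (.l 7) (.a (.l 7) .z))) (.b (.l 5) (.a .z (.a .z (.l 5))))))) (.a
(.l 7) (.b (.a (.l 7) (.b (.a (.l 7) .z) (.l 7))) (.l 7)))) (.b (.l 5) (.a (.b (.a (.b (.a (.a .z (.l 5)) (.l 5)) (.a .z (.a .z (.l 5)))) (.l 5)) (.a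
(.b (.a (.l 7) .z) (.l 7)) (.a (.b (.a .z (.l 5)) .z) (.b (.l 5) (.a .z (.l 5)))))) (.l 5))))) (.l 5))) (.a (.b (.a (.l 7) (.b (.a (.b (.a (.l 7) (.b
(.a (.l 7) (.b .z (.l 7))) (.l 7))) (.l 7)) (.b (.a (.b (.a (.b (.a .z (.l 5)) .z) (.l 5)) (.a (.b (.a (.l 7) .z) (.l 7)) (.b .z (.a (.l 7) .z)))) (.b
(.l 5) (.a (.b (.l 5) .z) (.l 5)))) (.a (.l 7) (.b (.a (.b (.a (.l 7) .z) (.l 7)) (.b .z (.a (.l 7) .z))) (.l 7))))) (.l 7))) (.l 7)) (.b (.a (.b (.a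
(.b (.l 5) (.a (.b (.a (.b (.l 5) .z) (.l 5)) (.a (.b (.a (.l 7) .z) (.l 7)) (.b .z (.a (.l 7) .z)))) (.b (.l 5) (.a (.b (.l 5) .z) (.l 5))))) (.l 5))
(.a (.b (.a (.l 7) (.b (.a (.b (.a (.l 7) .z) (.l 7)) (.b .z (.a (.l 7) .z))) (.l 7))) (.l 7)) (.b (.a (.b (.a (.b (.l 5) .z) (.l 5)) (.a (.b (.a (.l
7) .z) (.l 7)) (.b .z (.a (.l 7) .z)))) (.b (.l 5) (.a (.b (.l 5) .z) (.l 5)))) (.a (.l 7) (.b (.a (.b (.a (.l 7) .z) (.l 7)) (.b .z (.a (.l 7) .z)))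
(.l 7)))))) (.b (.l 5) (.a (.b (.l 5) (.a (.b (.a (.b (.l 5) (.a .z (.l 5))) (.l 5)) (.a (.b .z (.l 7)) (.b (.a .z (.l 5)) .z))) (.b (.l 5) (.a (.b
(.l 5) (.a .z (.l 5))) (.l 5))))) (.l 5)))) (.a (.l 7) (.b (.a (.b (.a (.l 7) (.b (.a (.b .z (.l 7)) (.b (.a .z (.l 5)) .z)) (.l 7))) (.l 7)) (.b (.a
(.b (.a (.b (.l 5) (.a .z (.l 5))) (.l 5)) (.a (.b .z (.l 7)) (.b (.a .z (.l 5)) .z))) (.l 5)) (.a (.b (.a (.l 7) (.b (.a (.l 7) .z) (.l 7))) (.l 7))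
(.b (.a (.b .z (.a (.l 7) .z)) (.b (.l 5) .z)) (.a (.l 7) (.b (.a (.l 7) .z) (.l 7))))))) (.l 7)))))) (.b (.b (.l 7) (.b (.a (.l 7) (.b (.l 7) (.a (.l
7) (.b (.a (.l 7) (.b (.l 7) (.a (.l 7) (.a (.l 7) .z)))) (.a (.b (.l 7) (.a (.l 7) (.a (.a (.l 7) .z) .z))) (.b (.a (.a (.l 7) .z) .z) (.a .z (.l
29)))))))) (.a (.b (.l 7) (.a (.l 7) (.b (.a (.l 7) (.b (.a (.l 7) (.a (.l 7) (.a (.l 7) .z))) (.a (.a (.l 7) .z) .z))) (.a (.b (.a (.l 7) (.a (.a (.l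
7) .z) .z)) (.a (.a (.a (.l 7) .z) .z) .z)) (.b (.a .z (.l 29)) (.l 29)))))) (.b (.a (.b (.a (.l 7) (.b (.l 7) (.a (.l 7) .z))) (.a (.b (.l 7) (.a (.a
(.l 7) (.a (.l 7) .z)) .z)) (.b .z (.a .z (.l 29))))) (.b (.a (.b (.a (.a (.a (.l 7) .z) .z) .z) (.a .z (.l 29))) (.l 29)) (.l 29))) (.a (.b (.a (.b
(.a .z (.l 29)) (.l 29)) (.l 29)) (.l 29)) (.l 29)))))) (.b (.b (.a (.b (.a (.b (.a (.b (.l 7) (.a (.l 7) (.a (.l 7) (.a (.l 7) .z)))) (.b (.a (.l 7)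
.z) .z)) (.a (.b (.a (.a (.l 7) (.a (.l 7) .z)) .z) (.a .z (.l 29))) (.l 29))) (.b (.a (.b (.a .z (.l 29)) (.l 29)) (.l 29)) (.l 29))) (.l 29)) (.a
(.l 29) (.a (.l 29) (.b (.l 29) (.a (.b (.l 29) .z) (.b .z (.a (.b .z (.l 11)) (.l 11)))))))) (.a (.l 29) (.a (.a (.l 29) (.b (.l 29) (.a (.l 29) (.b
(.l 29) .z)))) (.a (.b (.a (.b (.l 29) (.a (.l 29) .z)) (.b (.a (.l 29) .z) (.a .z (.b .z (.l 11))))) (.a (.b (.a .z (.b .z (.l 11))) (.a (.b .z (.l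
11)) (.l 11))) (.l 11))) (.b (.a (.b (.a .z (.l 11)) (.l 11)) (.l 11)) (.l 11)))))) (.a (.a (.l 29) (.b (.a (.l 29) (.b (.l 29) (.a (.l 29) (.b (.l
29) (.a (.l 29) .z))))) (.a (.b (.l 29) (.a (.b (.l 29) (.a (.l 29) .z)) (.b .z (.a (.b .z (.l 11)) (.l 11))))) (.b (.a (.b (.l 29) .z) (.b (.a .z (.b
.z (.l 11))) (.a (.b .z (.l 11)) (.l 11)))) (.a (.b (.a (.b .z (.l 11)) (.l 11)) (.l 11)) (.l 11)))))) (.a (.b (.a (.b (.a (.l 29) (.b (.l 29) (.a (.l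
29) .z))) (.a (.b (.a (.l 29) .z) (.a .z (.b .z (.l 11)))) (.b (.a .z (.b .z (.l 11))) (.l 11)))) (.b (.a (.b .z (.a (.b .z (.l 11)) (.l 11))) (.b (.a
(.b .z (.l 11)) (.l 11)) (.l 11))) (.l 11))) (.l 11)) (.l 11)))))) (.b (.a (.b (.l 5) (.b (.l 5) (.a (.b (.a (.b (.l 5) (.a (.b (.l 5) (.a (.b .z (.a
(.l 7) .z)) (.b (.l 5) .z))) (.l 5))) (.l 5)) (.a (.b (.a (.b (.a (.l 7) (.b (.a (.l 7) .z) (.l 7))) (.l 7)) (.b (.a (.b (.a .z (.l 5)) .z) (.b (.l 5)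
(.a .z (.l 5)))) (.a (.l 7) (.b .z (.l 7))))) (.l 7)) (.b (.a (.b (.l 5) (.a (.b (.a .z (.l 5)) .z) (.b (.l 5) (.a .z (.l 5))))) (.l 5)) (.a (.b (.a
(.l 7) (.b .z (.a (.l 7) .z))) (.l 7)) (.b (.a (.b (.l 5) .z) (.l 5)) (.a (.b (.a (.l 7) .z) (.l 7)) (.b .z (.a (.l 7) .z)))))))) (.b (.l 5) (.a (.b
(.l 5) (.a (.b (.l 5) (.a (.b (.l 5) .z) (.l 5))) (.l 5))) (.l 5)))))) (.b (.l 5) (.a (.b (.l 5) (.a (.l 5) (.b (.l 5) (.a (.l 5) (.b (.l 5) (.a (.l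
5) (.b (.a (.l 5) (.b (.l 5) .z)) (.a .z (.b .z (.l 6)))))))))) (.b (.a (.l 5) (.b (.a (.l 5) (.b (.l 5) (.a (.b (.l 5) (.a (.l 5) (.b (.l 5) .z)))
(.b (.a (.b (.l 5) .z) .z) (.a .z (.l 6)))))) (.a (.b (.a (.l 5) (.b (.l 5) (.a (.b (.l 5) .z) .z))) (.a (.b (.a (.l 5) (.b (.l 5) .z)) (.a (.b (.l 5)
.z) .z)) (.b (.a .z (.l 6)) (.l 6)))) (.b (.a (.b (.a .z (.b .z (.l 6))) (.a (.b .z (.l 6)) (.l 6))) (.l 6)) (.l 6))))) (.a (.b (.a (.b (.l 5) (.a (.l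
5) (.b (.l 5) (.a (.l 5) (.b (.l 5) .z))))) (.b (.a (.b (.l 5) (.a (.l 5) (.b (.l 5) .z))) (.b (.a (.l 5) .z) (.a .z (.b .z (.l 6))))) (.a (.b (.a (.b
(.l 5) .z) .z) (.a .z (.l 6))) (.l 6)))) (.a (.b (.a (.b (.l 5) (.a (.b (.l 5) .z) .z)) (.b (.a .z (.b .z (.l 6))) (.a (.b .z (.l 6)) (.l 6)))) (.a
(.b (.a .z (.l 6)) (.l 6)) (.l 6))) (.l 6))) (.b (.a (.b (.a (.b (.a (.b .z (.l 6)) (.l 6)) (.l 6)) (.l 6)) (.l 6)) (.l 6)) (.l 6))))))) (.a (.b (.a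
(.b (.l 7) (.b (.b (.b (.l 7) (.a (.b (.l 7) (.a (.l 7) (.a (.l 7) (.a (.l 7) .z)))) (.b (.a (.a (.l 7) (.a (.l 7) .z)) .z) (.a .z (.l 29))))) (.b (.a
(.b (.a (.a (.l 7) .z) .z) (.a .z (.l 29))) (.l 29)) (.l 29))) (.a (.b (.l 29) (.a (.l 29) (.b (.l 29) (.a (.l 29) .z)))) (.b (.a (.l 29) (.b (.l 29)
.z)) (.a (.b (.a (.l 29) .z) (.a .z (.b .z (.l 11)))) (.b (.a .z (.l 11)) (.l 11))))))) (.b (.b (.a (.b (.a (.b (.a (.b (.a (.l 7) .z) (.l 7)) (.b (.a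
.z (.l 5)) .z)) (.l 7)) (.b (.a (.b (.l 5) (.a .z (.l 5))) (.l 5)) (.a (.b .z (.l 7)) (.b (.a .z (.l 5)) .z)))) (.a (.l 7) (.b (.a (.l 7) (.b (.a (.l
7) .z) (.l 7))) (.l 7)))) (.b (.l 5) (.a (.b (.a (.b .z (.a (.l 7) .z)) (.b (.l 5) .z)) (.a (.l 7) (.b (.a (.l 7) .z) (.l 7)))) (.b (.l 5) (.a (.b (.a
.z (.l 5)) .z) (.b (.l 5) (.a .z (.l 5)))))))) (.a (.l 7) (.b (.a (.l 7) (.b (.a (.l 7) (.b .z (.l 7))) (.l 7))) (.b (.l 7) (.b (.a (.l 7) (.a (.a (.l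
7) .z) .z)) .z))))) (.a (.b (.b (.b (.b (.a (.l 7) .z) .z) (.b (.a .z (.l 29)) (.l 29))) (.a (.l 29) (.b (.a (.l 29) .z) (.a .z (.b .z (.l 11))))))
(.b (.a (.b .z (.a (.b .z (.l 11)) (.l 11))) (.b (.a (.b .z (.l 11)) (.l 11)) (.l 11))) (.l 11))) (.b (.a (.b (.b (.b .z (.l 29)) (.a (.l 29) .z)) (.b
(.a .z (.b .z (.l 11))) (.l 11))) (.b (.b .z (.a .z (.l 11))) (.a (.l 11) (.b (.l 11) (.a (.l 11) .z))))) (.a (.b (.l 11) (.a (.l 11) (.b (.a (.l 11)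
.z) .z))) (.b (.a (.b (.l 11) (.a (.l 11) .z)) (.b .z (.a .z (.l 9)))) (.a (.b .z (.l 9)) (.l 9)))))))) (.a (.b (.b (.a (.b (.a (.b (.a (.l 29) .z)
.z) (.b (.a .z (.b .z (.l 11))) (.l 11))) (.a (.b (.a (.b .z (.l 11)) (.l 11)) (.l 11)) (.l 11))) (.l 11)) (.l 11)) (.a (.b (.l 11) (.a (.l 11) (.b
(.l 11) (.a (.l 11) (.b (.l 11) (.a (.l 11) .z)))))) (.b (.a (.l 11) (.b (.a (.l 11) (.b (.a (.l 11) .z) .z)) (.a (.b (.a (.l 11) .z) .z) (.b (.a .z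
(.l 9)) (.l 9))))) (.a (.b (.a (.b (.l 11) (.a (.l 11) .z)) (.b (.a (.l 11) .z) .z)) (.a (.b .z (.a .z (.l 9))) (.l 9))) (.b (.a (.b (.a .z (.l 9))
(.l 9)) (.l 9)) (.l 9)))))) (.b (.a (.b (.a (.l 11) (.b (.l 11) (.a (.b (.l 11) (.a (.l 11) .z)) (.b (.a (.l 11) .z) .z)))) (.a (.b (.a (.l 11) (.b
(.l 11) (.a (.l 11) .z))) (.a (.b (.l 11) .z) (.b .z (.a .z (.l 9))))) (.b (.a (.b .z (.a .z (.l 9))) (.l 9)) (.l 9)))) (.b (.a (.b (.a (.b (.a (.l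
11) .z) .z) (.b (.a .z (.l 9)) (.l 9))) (.a (.b (.a .z (.l 9)) (.l 9)) (.l 9))) (.l 9)) (.l 9))) (.a (.b (.a (.b (.a (.b (.a .z (.l 9)) (.l 9)) (.l
9)) (.l 9)) (.l 9)) (.l 9)) (.l 9))))) (.b (.a (.b (.a (.b (.l 5) (.a (.b (.b (.a (.b (.a .z (.l 5)) .z) (.l 5)) (.a (.b (.a (.l 7) .z) (.l 7)) (.b .z
(.a (.l 7) .z)))) (.b (.b (.l 7) (.a (.a (.l 7) .z) .z)) .z)) (.b (.a (.b (.l 5) (.b (.l 5) .z)) (.b (.l 5) (.a (.b (.l 5) .z) .z))) (.a (.b (.a (.b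
(.l 7) .z) .z) .z) (.b .z (.l 9)))))) (.b (.a (.b (.a (.l 5) (.b (.l 5) (.a (.l 5) (.b (.l 5) .z)))) (.a (.b (.l 5) (.a (.l 5) .z)) (.b (.a (.b (.l 5)
.z) .z) (.a (.b .z (.l 6)) (.l 6))))) (.b (.a (.b (.a (.l 5) .z) (.a .z (.b .z (.l 6)))) (.b (.a (.b .z (.l 6)) (.l 6)) (.l 6))) (.l 6))) (.a (.b (.a
(.b (.a .z (.b .z (.l 6))) (.a (.b .z (.l 6)) (.b (.l 6) .z))) (.b (.l 6) (.b (.l 6) .z))) (.b (.b (.a .z (.l 7)) .z) (.l 9))) (.b (.b (.l 6) (.b (.a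
(.a (.l 6) .z) .z) (.a .z (.l 7)))) (.b (.b (.l 7) .z) (.l 9)))))) (.a (.b (.a (.b (.a (.b (.b .z (.l 11)) (.a (.l 11) .z)) (.b (.a (.l 11) .z) .z))
(.a (.b .z (.a .z (.l 9))) (.l 9))) (.b (.a (.b (.a .z (.l 9)) (.l 9)) (.l 9)) (.l 9))) (.l 9)) (.l 9))) (.b (.b (.b (.l 6) (.b (.l 6) (.a (.l 6) (.b
(.a (.l 6) (.a (.l 6) .z)) (.a (.a (.l 6) .z) (.a .z (.a .z (.l 7)))))))) (.b (.b (.a (.b (.a (.l 6) (.a (.l 6) .z)) (.a (.a (.l 6) .z) (.a .z (.a .z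
(.l 7))))) (.b (.a (.a .z (.a .z (.l 7))) (.l 7)) (.l 7))) (.a (.b (.a (.a .z (.a .z (.l 7))) (.l 7)) (.l 7)) (.l 7))) (.b (.b (.l 7) (.a (.a .z (.l
7)) (.l 7))) (.b (.a (.a (.a (.l 9) .z) .z) (.a .z (.a .z (.a .z (.l 7))))) (.a (.l 9) (.a (.l 9) (.a (.l 9) .z))))))) (.l 9))) (.l 9)))))) (.b (.a
(.b (.l 5) (.a (.b (.l 5) (.a (.l 5) (.b (.l 5) (.a (.b (.l 5) (.a (.l 5) (.b (.l 5) (.a (.l 5) (.b (.l 5) (.a (.l 5) (.b (.l 5) .z))))))) (.b (.a (.l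
5) (.b (.a (.l 5) (.b (.l 5) (.a (.l 5) (.b (.l 5) .z)))) (.a (.b (.l 5) (.a (.b (.l 5) .z) .z)) (.b (.a .z (.b .z (.l 6))) (.a (.b .z (.l 6)) (.l
6)))))) (.a (.b (.a (.l 5) (.b (.a (.l 5) (.b (.l 5) .z)) (.a .z (.b .z (.l 6))))) (.a (.b (.a (.b (.l 5) .z) .z) (.a .z (.l 6))) (.b (.a (.b .z (.l
6)) (.l 6)) (.l 6)))) (.b (.a (.b (.a .z (.l 6)) (.l 6)) (.l 6)) (.l 6)))))))) (.b (.a (.b (.l 5) (.a (.l 5) (.b (.l 5) (.a (.l 5) (.b (.a (.l 5) (.b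
(.l 5) (.a (.l 5) (.b (.l 5) .z)))) (.a (.b (.l 5) (.a (.b (.l 5) .z) .z)) (.b (.a .z (.b .z (.l 6))) (.a (.b .z (.l 6)) (.l 6))))))))) (.b (.a (.b
(.l 5) (.a (.l 5) (.b (.l 5) (.a (.l 5) (.b (.l 5) (.a (.l 5) (.b (.l 5) .z))))))) (.b (.a (.l 5) (.b (.a (.l 5) (.b (.l 5) (.a (.l 5) (.b (.l 5)
.z)))) (.a (.b (.l 5) (.a (.l 5) .z)) (.b (.a (.b (.l 5) .z) .z) (.a (.b .z (.l 6)) (.l 6)))))) (.a (.b (.a (.l 5) (.b (.a (.l 5) (.b (.l 5) .z)) (.a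
(.b (.l 5) .z) .z))) (.a (.b (.a (.l 5) .z) (.a .z (.b .z (.l 6)))) (.b (.a (.b .z (.l 6)) (.l 6)) (.l 6)))) (.b (.a (.b (.a .z (.b .z (.l 6))) (.l
6)) (.l 6)) (.l 6))))) (.a (.b (.a (.b (.l 5) (.a (.l 5) (.b (.a (.l 5) (.b (.l 5) .z)) (.a .z (.b .z (.l 6)))))) (.b (.a (.b (.l 5) (.a (.b (.l 5)
.z) .z)) (.b (.a (.b (.l 5) .z) .z) (.a (.b .z (.l 6)) (.l 6)))) (.a (.b (.a .z (.l 6)) (.l 6)) (.l 6)))) (.a (.b (.a (.b (.a (.b (.l 5) .z) .z) (.a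
.z (.l 6))) (.b (.a (.b .z (.l 6)) (.l 6)) (.l 6))) (.l 6)) (.l 6))) (.l 6)))) (.a (.b (.a (.b (.a (.l 5) (.b (.l 5) (.a (.l 5) (.b (.l 5) (.a (.l 5)
(.b (.l 5) .z)))))) (.a (.b (.l 5) (.a (.l 5) (.b (.a (.l 5) (.b (.l 5) .z)) (.a .z (.b .z (.l 6)))))) (.b (.a (.b (.l 5) (.a (.b (.l 5) .z) .z)) (.b
(.a .z (.b .z (.l 6))) (.a (.b .z (.l 6)) (.l 6)))) (.a (.b (.a .z (.l 6)) (.l 6)) (.l 6))))) (.b (.a (.b (.a (.l 5) (.b (.a (.l 5) (.b (.l 5) .z))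
(.a .z (.b .z (.l 6))))) (.a (.b (.a (.b (.l 5) .z) .z) (.a .z (.l 6))) (.b (.a (.b .z (.l 6)) (.l 6)) (.l 6)))) (.b (.a (.b (.a .z (.l 6)) (.l 6))
(.l 6)) (.l 6))) (.l 6))) (.a (.b (.a (.b (.a (.b (.a (.b (.l 5) .z) .z) (.a .z (.l 6))) (.b (.a (.b .z (.l 6)) (.l 6)) (.l 6))) (.l 6)) (.l 6)) (.l
6)) (.l 6))) (.l 6))))) (.b (.a (.b (.a (.l 5) (.b (.l 5) (.a (.l 5) (.b (.a (.l 5) (.b (.l 5) (.a (.l 5) (.b (.l 5) (.a (.b (.l 5) .z) .z))))) (.a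
(.b (.a (.l 5) (.b (.l 5) (.a (.l 5) (.b (.l 5) .z)))) (.a (.b (.l 5) (.a (.l 5) .z)) (.b (.a (.b (.l 5) .z) .z) (.a (.b .z (.l 6)) (.l 6))))) (.b (.a
(.b (.a (.l 5) (.b (.l 5) .z)) (.a .z (.b .z (.l 6)))) (.b (.a .z (.l 6)) (.l 6))) (.l 6))))))) (.a (.b (.a (.l 5) (.b (.l 5) (.a (.l 5) (.b (.l 5)
(.a (.b (.l 5) (.a (.l 5) (.b (.l 5) .z))) (.b (.a (.l 5) .z) (.a .z (.b .z (.l 6))))))))) (.a (.b (.l 5) (.a (.b (.l 5) (.a (.l 5) (.b (.l 5) (.a (.b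
(.l 5) .z) .z)))) (.b (.a (.b (.l 5) (.a (.l 5) (.b (.l 5) .z))) (.b (.a (.b (.l 5) .z) .z) (.a .z (.l 6)))) (.a (.b (.a .z (.b .z (.l 6))) (.a (.b .z
(.l 6)) (.l 6))) (.l 6))))) (.b (.a (.b (.a (.l 5) (.b (.l 5) (.a (.l 5) .z))) (.a (.b (.a (.l 5) (.b (.l 5) .z)) (.a .z (.b .z (.l 6)))) (.b (.a .z
(.b .z (.l 6))) (.l 6)))) (.b (.a (.b (.a (.b (.l 5) .z) .z) (.a (.b .z (.l 6)) (.l 6))) (.l 6)) (.l 6))) (.a (.b (.a (.b (.a (.b .z (.l 6)) (.l 6))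
(.l 6)) (.l 6)) (.l 6)) (.l 6))))) (.b (.a (.b (.a (.b (.l 5) (.a (.l 5) (.b (.l 5) (.a (.l 5) (.b (.l 5) .z))))) (.b (.a (.l 5) (.b (.a (.l 5) (.b
(.l 5) .z)) (.a .z (.b .z (.l 6))))) (.a (.b (.a (.b (.l 5) .z) .z) (.a .z (.l 6))) (.b (.a (.b .z (.l 6)) (.l 6)) (.l 6))))) (.a (.b (.a (.b (.l 5)
(.a (.b (.l 5) .z) .z)) (.b (.a .z (.b .z (.l 6))) (.a (.b .z (.l 6)) (.l 6)))) (.a (.b (.a (.b .z (.l 6)) (.l 6)) (.l 6)) (.l 6))) (.l 6))) (.b (.a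
(.b (.a (.b (.a .z (.b .z (.l 6))) (.l 6)) (.l 6)) (.l 6)) (.l 6)) (.l 6))) (.l 6)))) (.b (.a (.b (.a (.b (.l 5) (.a (.l 5) (.b (.a (.l 5) (.b (.l 5)
(.a (.l 5) (.b (.l 5) .z)))) (.a (.b (.a (.l 5) (.b (.l 5) .z)) (.a (.b (.l 5) .z) .z)) (.b (.a .z (.b .z (.l 6))) (.l 6)))))) (.b (.a (.b (.l 5) (.a
(.l 5) (.b (.a (.l 5) (.b (.l 5) .z)) (.a .z (.b .z (.l 6)))))) (.b (.a (.b (.l 5) (.a (.l 5) .z)) (.b (.a (.b (.l 5) .z) .z) (.a (.b .z (.l 6)) (.l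
6)))) (.a (.b (.a .z (.b .z (.l 6))) (.l 6)) (.l 6)))) (.a (.b (.a (.b (.a (.b (.l 5) .z) .z) (.a .z (.l 6))) (.b (.a (.b .z (.l 6)) (.l 6)) (.l 6)))
(.l 6)) (.l 6)))) (.a (.b (.a (.b (.a (.b (.l 5) (.a (.l 5) (.b (.l 5) .z))) (.b (.a (.l 5) .z) (.a .z (.b .z (.l 6))))) (.a (.b (.a .z (.b .z (.l
6))) (.a (.b .z (.l 6)) (.l 6))) (.l 6))) (.b (.a (.b (.a (.b .z (.l 6)) (.l 6)) (.l 6)) (.l 6)) (.l 6))) (.l 6)) (.l 6))) (.b (.a (.b (.a (.b (.a (.b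
(.a (.b .z (.l 6)) (.l 6)) (.l 6)) (.l 6)) (.l 6)) (.l 6)) (.l 6)) (.l 6)) (.l 6))) (.l 6))) (.a (.b (.a (.b (.a (.b (.a (.b (.a (.b (.a (.l 5) (.b
(.l 5) .z)) (.a .z (.b .z (.l 6)))) (.b (.a .z (.l 6)) (.l 6))) (.l 6)) (.l 6)) (.l 6)) (.l 6)) (.l 6)) (.l 6)) (.l 6)) (.l 6)))) (.a (.b (.a (.b (.a
(.b (.a (.l 5) (.b (.l 5) (.a (.l 5) (.b (.a (.l 5) (.b (.l 5) (.a (.l 5) (.b (.l 5) .z)))) (.a (.b (.l 5) (.a (.b (.l 5) .z) .z)) (.b (.a .z (.b .z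
(.l 6))) (.a (.b .z (.l 6)) (.l 6)))))))) (.a (.b (.a (.l 5) (.b (.l 5) (.a (.l 5) (.b (.l 5) (.a (.l 5) (.b (.l 5) .z)))))) (.a (.b (.l 5) (.a (.l 5)
(.b (.a (.l 5) (.b (.l 5) .z)) (.a (.b (.l 5) .z) .z)))) (.b (.a (.b (.l 5) (.a (.l 5) .z)) (.b (.a (.b (.l 5) .z) .z) (.a (.b .z (.l 6)) (.l 6))))
(.a (.b (.a .z (.b .z (.l 6))) (.l 6)) (.l 6))))) (.b (.a (.b (.a (.l 5) (.b (.a (.l 5) (.b (.l 5) .z)) (.a (.b (.l 5) .z) .z))) (.a (.b (.a (.l 5)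
.z) (.a .z (.b .z (.l 6)))) (.b (.a (.b .z (.l 6)) (.l 6)) (.l 6)))) (.b (.a (.b (.a .z (.l 6)) (.l 6)) (.l 6)) (.l 6))) (.l 6)))) (.b (.a (.b (.a (.b
(.l 5) (.a (.l 5) (.b (.a (.l 5) (.b (.l 5) .z)) (.a .z (.b .z (.l 6)))))) (.b (.a (.b (.l 5) (.a (.b (.l 5) .z) .z)) (.b (.a .z (.b .z (.l 6))) (.a
(.b .z (.l 6)) (.l 6)))) (.a (.b (.a .z (.l 6)) (.l 6)) (.l 6)))) (.a (.b (.a (.b (.a (.b (.l 5) .z) .z) (.a .z (.l 6))) (.b (.a (.b .z (.l 6)) (.l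
6)) (.l 6))) (.l 6)) (.l 6))) (.l 6)) (.l 6))) (.a (.b (.a (.b (.a (.b (.a (.b (.a (.l 5) .z) (.a .z (.b .z (.l 6)))) (.b (.a (.b .z (.l 6)) (.l 6))
(.l 6))) (.a (.b (.a (.b .z (.l 6)) (.l 6)) (.l 6)) (.l 6))) (.l 6)) (.l 6)) (.l 6)) (.l 6)) (.b (.l 6) (.b (.l 6) (.b (.l 6) (.a (.l 6) (.b (.l 6)
(.a (.b (.l 6) (.a (.l 6) (.a (.l 6) .z))) (.b (.a (.l 6) (.a (.l 6) .z)) .z))))))))) (.b (.l 6) (.b (.l 6) (.b (.a (.l 6) (.b (.l 6) (.a (.l 6) (.b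
(.l 6) (.a (.b (.l 6) (.a (.l 6) .z)) (.b (.a (.l 6) .z) (.a .z (.a .z (.l 7))))))))) (.a (.b (.a (.l 6) (.b (.l 6) (.a (.b (.l 6) (.a (.l 6) .z)) (.b
(.a (.l 6) .z) (.a .z (.a .z (.l 7))))))) (.a (.b (.a (.b (.l 6) (.a (.l 6) .z)) (.b (.a (.l 6) .z) (.a .z (.a .z (.l 7))))) (.a (.b (.a .z (.a .z (.l
7))) (.l 7)) (.l 7))) (.b (.a (.b (.a .z (.a .z (.l 7))) (.l 7)) (.l 7)) (.l 7)))) (.b (.a (.b (.a (.b (.l 6) (.a (.l 6) .z)) (.b (.a (.l 6) .z) (.a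
.z (.a .z (.l 7))))) (.a (.b (.a .z (.a .z (.l 7))) (.l 7)) (.l 7))) (.b (.a (.b (.a .z (.a .z (.l 7))) (.l 7)) (.l 7)) (.l 7))) (.l 7))))))) (.b (.b
(.b (.a (.b (.a (.b (.l 6) (.a (.l 6) (.b (.a (.l 6) (.a (.l 6) .z)) (.a (.a (.l 6) .z) (.a .z (.a .z (.l 7))))))) (.b (.a (.b (.a (.l 6) (.a (.l 6)
(.a (.l 6) .z))) (.a (.a (.l 6) (.a (.l 6) .z)) .z)) (.a (.b .z (.l 7)) (.l 7))) (.a (.b (.a .z (.l 7)) (.l 7)) (.l 7)))) (.a (.b (.a (.b (.a (.l 6)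
(.a (.l 6) .z)) (.a (.a (.l 6) .z) (.a .z (.a .z (.l 7))))) (.b (.a (.a .z (.a .z (.l 7))) (.l 7)) (.l 7))) (.a (.b (.a (.a .z (.a .z (.l 7))) (.l 7))
(.l 7)) (.l 7))) (.l 7))) (.l 7)) (.b (.l 7) (.a (.b (.l 7) (.a (.b (.l 7) (.a .z (.a (.a (.a .z (.l 7)) (.l 7)) (.l 7)))) (.l 7))) (.l 7)))) (.b (.b
(.a (.b (.a (.b (.a (.l 9) .z) (.l 9)) (.b (.a (.a .z (.l 7)) (.l 7)) (.a (.a (.a (.l 9) .z) .z) (.a .z (.a .z (.l 7)))))) (.a (.l 9) (.b (.a (.l 9)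
(.a (.l 9) .z)) (.l 9)))) (.b (.l 7) (.a (.b (.a .z (.l 7)) (.a (.a (.l 9) (.a (.l 9) .z)) .z)) (.b (.l 7) (.a (.a (.a .z (.l 7)) (.l 7)) (.l 7))))))
(.a (.l 9) (.b (.a (.l 9) (.b (.a .z (.a (.a .z (.a .z (.l 7))) (.l 7))) (.a (.l 9) (.a (.a (.l 9) .z) .z)))) (.l 9)))) (.l 9))) (.l 9))) (.b (.b (.l
6) (.b (.a (.b (.l 6) (.a (.l 6) (.b (.l 6) (.a (.l 6) (.b (.l 6) (.a (.b (.l 6) .z) (.b .z (.a (.a .z (.l 7)) (.l 7))))))))) (.b (.a (.l 6) (.b (.l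
6) (.a (.b (.l 6) (.a (.l 6) (.b (.l 6) (.a (.l 6) .z)))) (.b (.a (.l 6) (.b (.l 6) (.a (.a (.l 6) .z) .z))) (.a (.b (.a (.a (.l 6) .z) .z) (.a .z (.l
7))) (.b (.a .z (.l 7)) (.l 7))))))) (.a (.b (.a (.b (.l 6) (.a (.l 6) (.b (.l 6) (.a (.l 6) (.a (.l 6) .z))))) (.b (.a (.l 6) (.b (.l 6) (.a (.l 6)
.z))) (.a (.b (.a (.l 6) (.a (.l 6) .z)) .z) (.b (.a .z (.a .z (.l 7))) (.l 7))))) (.a (.b (.a (.b (.a (.l 6) (.a (.l 6) .z)) .z) (.b .z (.l 7))) (.a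
(.b (.a (.a .z (.l 7)) (.l 7)) (.l 7)) (.l 7))) (.l 7))) (.b (.a (.b (.a (.b (.a (.l 6) .z) (.a .z (.a .z (.l 7)))) (.b (.a .z (.a .z (.l 7))) (.l
7))) (.l 7)) (.l 7)) (.l 7))))) (.a (.b (.a (.b (.a (.l 6) (.b (.l 6) (.a (.b (.l 6) (.a (.a (.l 6) .z) .z)) (.b (.a (.a (.l 6) .z) .z) (.a .z (.l
7)))))) (.a (.b (.a (.b (.l 6) (.a (.l 6) .z)) (.b (.a (.a (.l 6) .z) .z) (.a .z (.l 7)))) (.a (.b (.a .z (.a .z (.l 7))) (.l 7)) (.l 7))) (.b (.a (.b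
(.a .z (.l 7)) (.l 7)) (.l 7)) (.l 7)))) (.b (.a (.b (.a (.b (.l 6) (.a (.a (.l 6) .z) .z)) (.b (.a (.a (.l 6) .z) .z) (.a .z (.l 7)))) (.a (.b (.a .z
(.l 7)) (.l 7)) (.l 7))) (.b (.a (.b (.a (.a .z (.l 7)) (.l 7)) (.l 7)) (.l 7)) (.l 7))) (.l 7))) (.l 7)) (.l 7)))) (.b (.b (.l 7) (.b (.b (.l 7) (.a
(.b (.a (.b (.l 7) (.a (.a .z (.a (.a .z (.l 7)) (.l 7))) (.l 7))) (.l 7)) (.a (.b (.a (.a (.l 9) .z) (.a .z (.a .z (.l 7)))) (.a (.l 9) (.a (.l 9)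
.z))) (.b (.l 7) (.a (.a .z (.a .z (.a .z (.l 7)))) (.l 7))))) (.l 7))) (.b (.a (.b (.a (.l 9) (.b (.a (.a (.l 9) (.a (.l 9) .z)) .z) (.a (.l 9) (.a
(.l 9) (.a (.l 9) .z))))) (.l 9)) (.b (.a (.b (.l 7) (.a .z (.a (.a (.a .z (.l 7)) (.l 7)) (.l 7)))) (.l 7)) (.a (.b (.a (.l 9) .z) (.l 9)) (.b (.a
(.a (.a .z (.l 7)) (.l 7)) (.l 7)) (.a .z (.a (.a .z (.l 7)) (.l 7))))))) (.a (.l 9) (.b (.a (.l 9) (.b (.a (.l 9) .z) (.l 9))) (.l 9)))))) (.l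
9))))))

theorem vQ147 : ev Q147 I4_6 I4_12 = 3825529014482475 := by decide +kernel

noncomputable def Q119 : QT :=
(.b (.b (.a (.b (.a (.b (.b (.b (.l 11) (.b (.l 11) (.a (.l 11) (.b (.l 11) (.a (.a (.l 11) (.a (.l 11) .z)) .z))))) (.b (.b (.a (.b (.a (.l 11) (.a
(.a (.l 11) .z) .z)) (.a .z (.a .z (.l 14)))) (.b (.a .z (.l 14)) (.l 14))) (.l 14)) (.l 14))) (.a (.b (.l 14) (.a (.b (.l 14) (.a (.l 14) (.b (.l 14)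
(.a (.b (.l 14) .z) .z)))) (.b (.a (.l 14) (.b (.l 14) (.a (.b (.l 14) .z) .z))) (.a (.b (.a (.b (.l 14) .z) .z) (.a (.b .z (.l 15)) (.l 15))) (.b (.a
(.b .z (.l 15)) (.l 15)) (.l 15)))))) (.b (.a (.b (.l 14) (.a (.l 14) (.b (.l 14) (.a (.b (.l 14) .z) .z)))) (.b (.a (.l 14) (.b (.l 14) (.a (.b (.l
14) .z) .z))) (.a (.b (.a (.b (.l 14) .z) .z) (.a (.b .z (.l 15)) (.l 15))) (.b (.a (.b .z (.l 15)) (.l 15)) (.l 15))))) (.a (.b (.a (.b (.a (.b (.l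
14) .z) .z) (.a (.b .z (.l 15)) (.l 15))) (.b (.a (.b .z (.l 15)) (.l 15)) (.l 15))) (.l 15)) (.l 15))))) (.b (.a (.b (.b (.l 11) (.b (.b (.l 11) (.a
(.l 11) (.a (.l 11) (.a (.l 11) .z)))) (.b (.a (.a (.a (.l 11) .z) .z) .z) (.a (.a .z (.l 14)) (.l 14))))) (.a (.b (.l 14) (.a (.l 14) (.b (.l 14) (.a
(.b (.l 14) .z) .z)))) (.b (.a (.b (.l 14) (.a (.l 14) (.b (.l 14) .z))) (.b (.a (.l 14) (.b (.l 14) .z)) (.a .z (.b .z (.l 15))))) (.a (.b (.a .z (.b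
.z (.l 15))) (.a (.b .z (.l 15)) (.l 15))) (.l 15))))) (.b (.a (.b (.a (.b (.a (.b .z (.l 11)) .z) (.l 11)) (.b (.a (.b (.l 10) .z) (.l 10)) (.a (.b
.z (.l 11)) .z))) (.a (.b (.b (.l 11) .z) (.a (.l 14) (.b (.l 14) .z))) (.b (.a (.b (.l 11) .z) .z) (.a .z (.b .z (.l 15)))))) (.b (.a (.b (.l 10) (.a
(.l 10) (.b (.l 10) .z))) (.b (.a (.l 10) (.b (.l 10) .z)) (.a .z (.b .z (.l 13))))) (.a (.b .z (.a (.l 15) .z)) (.b (.b .z (.l 16)) (.a (.b (.l 16)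
.z) (.l 16)))))) (.a (.b (.a (.b (.a .z (.b .z (.l 15))) (.l 15)) (.l 15)) (.l 15)) (.b (.a (.l 15) (.b (.a (.b .z (.l 15)) .z) (.l 15))) (.l 15)))))
(.a (.b (.a (.b (.a (.b (.a (.b (.l 14) .z) .z) (.a (.b .z (.l 15)) (.l 15))) (.b (.a (.b .z (.l 15)) (.l 15)) (.l 15))) (.l 15)) (.l 15)) (.l 15))
(.l 15)))) (.a (.b (.a (.b (.a (.b (.a (.b (.a (.b (.l 14) .z) .z) (.a (.b .z (.l 15)) (.l 15))) (.b (.a (.b .z (.l 15)) (.l 15)) (.l 15))) (.l 15))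
(.l 15)) (.l 15)) (.l 15)) (.l 15)) (.l 15))) (.b (.a (.b (.a (.b (.a (.b (.a (.b (.a .z (.b .z (.l 13))) (.l 13)) (.b (.l 13) (.b (.l 13) (.a (.l 13)
.z)))) (.b (.b .z (.l 16)) (.l 16))) (.b (.b (.l 13) (.b (.l 13) .z)) (.l 16))) (.a (.b (.a (.b (.a (.b (.l 16) .z) (.l 16)) (.a .z (.b (.l 16) .z)))
(.l 16)) (.a (.b (.a (.l 15) (.b .z (.l 15))) (.l 15)) (.b (.a .z (.l 16)) (.a (.b .z (.l 15)) .z)))) (.b (.l 16) (.a (.b (.l 16) (.a (.b (.l 16) .z)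
(.l 16))) (.l 16))))) (.b (.b (.b (.b (.l 13) (.a (.l 13) (.a (.l 13) .z))) (.b (.a .z (.a .z (.a .z (.l 16)))) (.a (.a (.a .z (.l 16)) (.l 16)) (.l
16)))) (.l 16)) (.l 16))) (.a (.b (.a (.l 15) (.b (.a (.b (.a .z (.b (.l 16) .z)) (.a (.l 15) (.b .z (.l 15)))) (.b (.l 16) (.a .z (.l 16)))) (.a (.l
15) (.b (.a (.b .z (.l 15)) .z) (.l 15))))) (.l 15)) (.b (.a (.b (.l 16) (.a (.b (.a (.b (.l 16) .z) (.l 16)) (.a .z (.b (.l 16) .z))) (.l 16))) (.l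
16)) (.a (.b (.a (.b (.a (.l 15) (.b .z (.l 15))) (.l 15)) (.b (.a .z (.l 16)) (.a (.b .z (.l 15)) .z))) (.l 15)) (.b (.a (.b (.l 16) (.a (.b (.l 16)
.z) (.l 16))) (.l 16)) (.a (.b (.a .z (.b (.l 16) .z)) (.a (.l 15) (.b .z (.l 15)))) (.b (.l 16) (.a .z (.l 16))))))))) (.b (.b (.b (.b (.a (.b (.a
(.l 13) .z) (.a .z (.a (.a .z (.l 16)) (.l 16)))) (.b (.a (.a .z (.l 16)) (.l 16)) (.l 16))) (.l 16)) (.l 16)) (.l 16)) (.l 16))) (.a (.b (.a (.l 15)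
(.b (.a (.l 15) (.b (.a (.l 15) (.b (.a (.b .z (.l 15)) .z) (.a (.l 15) (.b .z (.l 15))))) (.l 15))) (.l 15))) (.l 15)) (.b (.a (.b (.a (.b (.a (.b
(.l 16) (.a .z (.b (.l 16) .z))) (.l 16)) (.a (.b (.a (.l 15) .z) (.l 15)) (.b (.a (.b (.l 16) .z) (.l 16)) (.a (.b .z (.l 15)) .z)))) (.l 16)) (.a
(.b (.a (.l 15) (.b (.a (.l 15) (.b .z (.l 15))) (.l 15))) (.l 15)) (.b (.a (.b (.a .z (.l 16)) (.a (.b .z (.l 15)) .z)) (.b (.l 16) (.a (.b (.l 16)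
.z) (.l 16)))) (.a (.l 15) (.b (.a .z (.b (.l 16) .z)) (.a (.l 15) .z)))))) (.b (.l 16) (.a (.b (.l 16) (.a (.b (.l 16) (.a (.b (.l 16) .z) (.l 16)))
(.l 16))) (.l 16)))) (.a (.l 15) (.b (.a (.b (.a (.b (.a (.b .z (.l 15)) .z) (.a (.l 15) (.b .z (.l 15)))) (.b (.l 16) (.a .z (.l 16)))) (.a (.l 15)
(.b (.a (.b .z (.l 15)) .z) (.a (.l 15) (.b .z (.l 15)))))) (.b (.l 16) (.a (.b (.l 16) (.a .z (.b (.l 16) .z))) (.l 16)))) (.a (.l 15) (.b (.a (.b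
(.a (.l 15) .z) (.l 15)) (.b (.a (.b (.l 16) .z) (.l 16)) (.a .z (.b (.l 16) .z)))) (.a (.l 15) (.b (.a (.l 15) (.b .z (.l 15))) (.l 15))))))))))) (.b
(.b (.b (.l 15) (.a (.b (.a (.b (.l 15) (.a (.b (.a .z (.a (.a .z (.l 15)) (.l 15))) (.a (.l 17) .z)) (.b (.l 15) (.a (.a .z (.l 15)) (.l 15))))) (.l
15)) (.a (.b (.a (.l 17) (.b (.a .z (.a .z (.a .z (.l 15)))) (.a (.l 17) (.a (.l 17) .z)))) (.l 17)) (.b (.a (.b (.l 15) (.a .z (.l 15))) (.l 15)) (.a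
(.b (.a (.a (.l 17) .z) .z) (.l 17)) (.b (.a (.a (.a .z (.l 15)) (.l 15)) (.l 15)) (.a .z (.a .z (.l 15)))))))) (.l 15))) (.b (.a (.b (.a (.l 17) (.b
(.a (.l 17) (.b (.a (.l 17) .z) (.l 17))) (.l 17))) (.l 17)) (.b (.a (.b (.a (.b (.a (.a .z (.a .z (.l 15))) (.l 15)) (.a (.a (.l 17) .z) .z)) (.l
15)) (.a (.b (.a (.l 17) (.a (.l 17) .z)) (.l 17)) (.b (.a .z (.l 15)) (.a (.a (.l 17) .z) .z)))) (.b (.l 15) (.a (.b (.l 15) (.a (.a (.a .z (.l 15))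
(.l 15)) (.l 15))) (.l 15)))) (.a (.l 17) (.b (.a (.b (.a .z (.a .z (.l 15))) (.a (.l 17) .z)) (.b (.l 15) (.a (.a .z (.l 15)) (.l 15)))) (.a (.l 17)
(.b (.a .z (.a .z (.l 15))) (.a (.l 17) .z))))))) (.l 17))) (.l 17))) (.b (.b (.b (.l 17) (.b (.b (.l 17) (.a (.l 17) (.a (.l 17) (.b (.l 17) (.a (.b
(.l 17) (.a (.a (.l 17) .z) .z)) (.b (.a (.a (.l 17) .z) .z) (.a .z (.l 20)))))))) (.b (.a (.b (.l 17) (.a (.l 17) (.b (.a (.l 17) (.a (.a (.l 17) .z)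
.z)) (.a (.a (.a (.l 17) .z) .z) (.a .z (.l 20)))))) (.a (.b (.b (.a (.l 17) (.a (.a (.l 17) .z) .z)) (.a (.a (.a (.l 17) .z) .z) (.a .z (.l 20))))
(.b (.a (.a .z (.l 20)) (.l 20)) (.l 20))) (.b (.a (.b (.a .z (.l 20)) (.l 20)) (.l 20)) (.l 20)))) (.a (.b (.a (.b (.a (.l 17) .z) (.a .z (.a (.a .z
(.l 20)) (.l 20)))) (.b (.a (.a .z (.l 20)) (.l 20)) (.l 20))) (.a (.b (.a (.a (.a .z (.l 20)) (.l 20)) (.l 20)) (.l 20)) (.l 20))) (.l 20))))) (.a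
(.l 20) (.b (.a (.l 20) (.b (.l 20) (.a (.l 20) (.b (.a (.l 20) (.b (.l 20) (.a (.l 20) (.b (.l 20) .z)))) (.a (.b (.l 20) (.a (.b (.l 20) .z) .z))
(.b (.a (.b (.l 20) .z) .z) (.a (.b .z (.l 23)) (.l 23)))))))) (.a (.b (.a (.l 20) (.b (.l 20) (.a (.l 20) (.b (.l 20) (.a (.b (.l 20) .z) .z))))) (.a
(.b (.a (.l 20) (.b (.l 20) (.a (.l 20) (.b (.l 20) .z)))) (.a (.b (.l 20) (.a (.b (.l 20) .z) .z)) (.b (.a (.b (.l 20) .z) .z) (.a (.b .z (.l 23))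
(.l 23))))) (.b (.a (.b (.a (.l 20) (.b (.l 20) .z)) (.a .z (.b .z (.l 23)))) (.b (.a .z (.l 23)) (.l 23))) (.l 23)))) (.b (.a (.b (.a (.b (.l 20) (.a
(.l 20) (.b (.l 20) .z))) (.b (.a (.l 20) (.b (.l 20) .z)) (.a .z (.b .z (.l 23))))) (.a (.b (.a (.b (.l 20) .z) .z) (.a (.b .z (.l 23)) (.l 23))) (.l
23))) (.b (.a (.b (.a .z (.l 23)) (.l 23)) (.l 23)) (.l 23))) (.l 23)))))) (.b (.a (.b (.a (.b (.l 20) (.a (.b (.l 20) (.a (.b (.a (.b (.l 20) .z) (.l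
20)) (.a .z (.b (.l 20) .z))) (.l 20))) (.b (.a (.l 20) (.b (.l 20) (.a (.l 20) (.b (.l 20) .z)))) (.a (.b (.l 20) (.a (.b (.l 20) .z) .z)) (.b (.a .z
(.b .z (.l 23))) (.a (.b .z (.l 23)) (.l 23))))))) (.b (.a (.b (.l 20) (.a (.l 20) (.b (.l 20) (.a (.b (.l 20) .z) .z)))) (.b (.a (.b (.l 20) (.a (.l
20) (.b (.l 20) .z))) (.b (.a (.l 20) (.b (.l 20) .z)) (.a .z (.b .z (.l 23))))) (.a (.b (.a .z (.b .z (.l 23))) (.a (.b .z (.l 23)) (.l 23))) (.l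
23)))) (.a (.b (.a (.b (.a (.l 20) .z) (.a .z (.b .z (.l 23)))) (.b (.a (.b .z (.l 23)) (.l 23)) (.l 23))) (.l 23)) (.l 23)))) (.a (.b (.a (.b (.a (.b
(.a (.l 25) (.b .z (.l 25))) (.a (.l 25) (.b (.l 25) .z))) (.b .z (.a .z (.l 23)))) (.a (.b (.a .z (.b .z (.l 23))) (.l 23)) (.l 23))) (.b (.a (.b (.a
(.b .z (.l 23)) (.l 23)) (.l 23)) (.l 23)) (.l 23))) (.b (.l 23) (.b (.b (.l 23) (.a (.l 23) (.a (.l 23) (.a (.l 23) .z)))) (.b (.a (.a (.a (.l 23)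
.z) .z) .z) (.a (.a .z (.l 26)) (.l 26)))))) (.b (.l 23) (.b (.l 23) (.b (.b (.a (.l 23) .z) (.a .z (.a (.a .z (.l 26)) (.l 26)))) (.l 26)))))) (.b
(.a (.b (.a (.b (.a (.b (.a .z (.l 23)) (.l 23)) (.l 23)) (.l 23)) (.l 23)) (.l 23)) (.l 23)) (.b (.l 23) (.b (.b (.a (.l 23) (.b (.a (.l 23) (.a (.l
23) (.a (.l 23) .z))) (.a (.a (.l 23) (.a (.l 23) .z)) .z))) (.a (.b (.a (.l 23) (.a (.l 23) .z)) (.a (.a (.a (.l 23) .z) .z) (.a .z (.a .z (.l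
26))))) (.b (.a .z (.l 26)) (.l 26)))) (.b (.a (.b (.a (.a .z (.l 26)) (.l 26)) (.l 26)) (.l 26)) (.l 26)))))) (.a (.b (.a (.b (.l 26) (.a (.b (.a (.b
(.l 26) (.a (.b (.l 26) .z) (.l 26))) (.l 26)) (.a (.b (.a (.b .z (.l 27)) .z) (.a (.l 27) (.b .z (.l 27)))) (.b (.l 26) (.a .z (.b (.l 26) .z)))))
(.l 26))) (.l 26)) (.a (.b (.a (.b (.a (.l 27) (.b (.a (.l 27) (.b .z (.l 27))) (.l 27))) (.l 27)) (.b (.a (.b (.a .z (.b (.l 26) .z)) (.a (.l 27)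
.z)) (.b (.l 26) (.a (.b (.l 26) .z) (.l 26)))) (.a (.l 27) (.b (.a (.b .z (.l 27)) .z) (.l 27))))) (.l 27)) (.b (.a (.b (.l 26) (.a (.b (.a (.b (.l
26) .z) (.l 26)) (.a .z (.b (.l 26) .z))) (.l 26))) (.l 26)) (.a (.b (.a (.b (.a (.l 27) (.b .z (.l 27))) (.l 27)) (.b (.a .z (.l 26)) (.a (.b .z (.l
27)) .z))) (.l 27)) (.b (.a (.b (.l 26) (.a (.b (.l 26) .z) (.l 26))) (.l 26)) (.a (.b (.a .z (.b (.l 26) .z)) (.a (.l 27) (.b .z (.l 27)))) (.b (.l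
26) (.a .z (.b (.l 26) .z))))))))) (.b (.l 26) (.a (.b (.l 26) (.a (.l 26) (.b (.l 26) (.a (.b (.l 26) (.a (.b (.l 26) .z) .z)) (.b (.a (.b (.l 26)
.z) .z) (.a (.b .z (.l 29)) (.l 29))))))) (.b (.a (.l 26) (.b (.a (.l 26) (.b (.l 26) (.a (.l 26) (.b (.l 26) .z)))) (.a (.b (.a (.l 26) (.b (.l 26)
.z)) (.a .z (.b .z (.l 29)))) (.b (.a .z (.b .z (.l 29))) (.l 29))))) (.a (.b (.a (.b (.l 26) (.a (.b (.l 26) .z) .z)) (.b (.a (.b (.l 26) .z) .z) (.a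
(.b .z (.l 29)) (.l 29)))) (.a (.b (.a (.b .z (.l 29)) (.l 29)) (.l 29)) (.l 29))) (.b (.a (.b (.a (.b .z (.l 29)) (.l 29)) (.l 29)) (.l 29)) (.l
29))))))))))

theorem vQ119 : ev Q119 I5_8 I4_14 = 1863471588630942 := by decide +kernel

noncomputable def Q154 : QT :=
(.b (.b (.a (.b (.a (.b (.a (.b (.a (.l 31) (.b (.l 31) .z)) (.a (.b (.a (.l 31) .z) .z) (.b (.a .z (.l 28)) (.l 28)))) (.b (.a (.b .z (.a .z (.l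
28))) (.l 28)) (.l 28))) (.a (.b (.a (.b (.a .z (.l 28)) (.l 28)) (.l 28)) (.l 28)) (.l 28))) (.b (.a (.l 28) (.b (.a (.l 28) (.b .z (.l 28))) (.l
28))) (.l 28))) (.a (.l 28) (.b (.l 28) (.a (.l 28) (.b (.a (.l 28) (.b (.l 28) (.a (.l 28) .z))) (.a (.b (.l 28) .z) .z)))))) (.b (.a (.b (.a (.b (.a
(.b (.a .z (.l 32)) .z) (.b (.l 32) (.a (.l 32) .z))) (.a (.b (.a (.l 28) .z) (.l 28)) .z)) (.b (.a (.b .z (.a .z (.l 29))) (.b (.a .z (.l 29)) (.l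
29))) (.a .z (.b .z (.l 33))))) (.a (.l 28) (.b (.a (.b .z (.a (.l 28) .z)) (.b (.l 33) .z)) (.a (.l 28) (.b .z (.a (.l 28) .z)))))) (.b (.a (.b (.l
29) (.b (.b .z (.l 33)) (.l 33))) (.b (.b (.b .z (.a (.l 29) .z)) (.b (.l 29) .z)) (.a (.b .z (.l 33)) (.b (.l 33) .z)))) (.a (.b (.l 33) (.a (.b (.l
33) .z) .z)) (.b (.a (.b (.l 33) .z) (.b .z (.a .z (.l 29)))) (.a (.b (.a .z (.l 29)) (.b (.l 29) .z)) (.b (.l 29) (.b (.l 29) .z))))))) (.a (.b (.a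
(.b (.l 28) (.a (.l 28) (.b (.l 28) .z))) (.b (.a (.l 28) (.b (.a (.l 28) .z) .z)) (.a (.b .z (.a .z (.l 29))) (.b (.a .z (.l 29)) (.l 29))))) (.a (.b
(.a (.b (.a (.l 28) .z) .z) (.b (.a .z (.l 29)) (.b (.l 29) .z))) (.b (.b .z (.l 35)) (.l 35))) (.b (.b (.l 29) .z) (.b .z (.b .z (.l 35)))))) (.b (.a
(.b (.a (.b .z (.l 29)) (.b (.b .z (.l 29)) (.l 29))) (.l 29)) (.l 29)) (.b (.b (.b (.l 29) (.a (.l 29) .z)) (.b .z (.l 33))) (.b (.l 33) (.a .z (.b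
(.l 33) .z)))))))) (.a (.b (.a (.b (.a (.b (.b (.l 28) (.b (.a .z (.l 28)) .z)) (.l 31)) (.b (.b (.l 28) (.b (.l 28) (.a .z (.l 28)))) (.a (.b (.b .z
(.l 31)) (.l 31)) .z))) (.a (.b (.a (.l 31) (.b (.l 31) (.a (.l 31) .z))) (.a .z (.b .z (.l 35)))) (.b (.a .z (.b .z (.l 35))) (.l 35)))) (.b (.a (.b
(.a (.b (.l 28) (.a (.l 28) .z)) (.b (.a (.l 28) .z) .z)) (.a .z (.l 35))) (.b (.a (.b .z (.l 35)) (.l 35)) (.l 35))) (.l 35))) (.a (.b (.a (.b (.a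
(.b .z (.l 35)) (.l 35)) (.b .z (.l 35))) (.b (.l 35) (.b (.b .z (.l 35)) (.l 35)))) (.b (.b (.l 35) (.b (.a (.l 35) .z) .z)) (.b (.l 39) (.a .z (.b
(.l 39) .z))))) (.b (.b (.b (.l 35) (.b (.l 35) (.a (.l 35) .z))) (.b (.b .z (.l 35)) (.l 35))) (.b (.b (.l 35) (.b .z (.l 39))) (.l 39))))) (.b (.b
(.b (.a (.l 35) (.b (.a (.l 35) (.b .z (.l 35))) (.l 35))) (.l 35)) (.l 35)) (.b (.b (.b (.b (.l 35) (.a (.l 35) (.a (.l 35) .z))) (.b (.a (.a (.l 35)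
.z) .z) (.a .z (.l 35)))) (.l 35)) (.b (.b (.b (.a (.l 35) .z) (.a .z (.a .z (.l 39)))) (.b (.a (.a .z (.l 39)) (.l 39)) (.l 39))) (.l 39)))))) (.b
(.b (.b (.a (.b (.a (.b (.a (.l 41) (.b .z (.l 41))) (.l 41)) (.b (.a .z (.l 39)) (.a (.b .z (.l 41)) .z))) (.l 41)) (.b (.a (.b (.l 39) (.a (.b (.l
39) .z) (.l 39))) (.l 39)) (.a (.b (.a (.b .z (.l 41)) .z) (.l 41)) (.b (.a (.b (.l 39) .z) (.l 39)) (.a (.b .z (.l 41)) .z))))) (.b (.b (.a (.l 41)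
(.b (.a (.l 41) (.a (.l 41) .z)) (.a (.a (.l 41) .z) .z))) (.a (.b (.a (.l 41) .z) (.a .z (.a .z (.l 41)))) (.b (.a .z (.l 41)) (.l 41)))) (.b (.a (.l
41) (.b (.l 41) (.a (.l 41) .z))) (.a (.b (.l 41) (.a (.a (.l 41) .z) .z)) (.b (.a .z (.a .z (.l 45))) (.a (.a .z (.l 45)) (.l 45))))))) (.a (.b (.b
(.b (.b (.a .z (.l 45)) (.l 45)) (.l 45)) (.b (.l 45) (.a (.b (.l 45) (.a .z (.l 45))) (.l 45)))) (.b (.b (.a (.b .z (.a (.l 47) .z)) (.b (.l 45) (.a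
.z (.l 45)))) (.a (.b (.l 47) (.a (.l 47) .z)) .z)) (.b (.b (.a .z (.l 47)) (.l 47)) (.b (.a (.l 47) .z) (.a .z (.a .z (.l 51))))))) (.b (.l 45) (.a
(.b (.b (.l 45) (.b (.l 45) (.a .z (.l 45)))) (.a (.b (.b .z (.l 47)) (.b .z (.l 51))) .z)) (.b (.a (.b (.l 45) (.a (.l 45) .z)) .z) (.a (.b .z (.a .z
(.l 49))) (.l 49))))))) (.b (.a (.b (.a (.l 51) (.b (.l 51) (.a (.l 51) (.b (.a (.l 51) .z) .z)))) (.a (.b (.b (.b (.a .z (.l 51)) .z) (.b (.a (.l 53)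
.z) .z)) (.a (.l 57) (.b (.a (.l 57) .z) .z))) (.b (.a (.b (.a (.l 51) .z) .z) (.b (.a .z (.l 49)) .z)) (.a (.b (.a .z (.l 55)) (.l 55)) (.b (.b .z
(.l 55)) (.l 55)))))) (.b (.a (.b (.a (.b (.l 51) (.a (.l 51) .z)) (.b .z (.a .z (.l 49)))) (.a (.b .z (.b (.l 49) .z)) (.b (.l 49) (.b (.l 49) .z))))
(.b (.l 49) (.b (.l 49) (.b .z (.a .z (.l 49)))))) (.b (.b (.b (.l 49) (.a (.a (.l 49) .z) .z)) (.b (.a .z (.l 53)) (.l 53))) (.b (.a (.b (.a .z (.l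
53)) .z) (.l 53)) (.a (.b (.a (.l 55) .z) (.l 55)) (.b .z (.a (.l 55) .z))))))) (.a (.b (.a (.b (.a (.b (.a (.l 57) .z) .z) (.b (.a .z (.l 55)) (.l
55))) (.b (.b (.a (.l 55) .z) .z) (.b (.a (.l 55) .z) .z))) (.b (.l 55) (.b (.b .z (.l 55)) (.b .z (.l 59))))) (.b (.b (.a (.b (.a .z (.l 59)) .z) (.b
(.l 59) (.a .z (.l 59)))) (.a (.l 61) (.b .z (.a (.l 61) .z)))) (.b (.b (.l 61) (.a (.l 61) (.a (.l 61) .z))) (.b .z (.a (.a .z (.l 61)) .z))))) (.b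
(.b (.b (.l 55) (.b (.a (.l 55) (.a (.l 55) .z)) .z)) (.b (.b (.a (.a .z (.l 55)) (.l 55)) (.a (.a (.l 55) .z) .z)) (.b (.a .z (.l 59)) (.l 59)))) (.a
(.b (.b (.l 59) (.b (.l 59) (.a .z (.l 59)))) (.b .z (.b (.l 61) .z))) (.b (.l 59) (.a (.b (.b (.l 59) .z) .z) (.b (.b (.l 59) .z) .z)))))))))

theorem vQ154 : ev Q154 I6_24 I5_30 = 362394278326259 := by decide +kernel

noncomputable def Q91 : QT :=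
(.b (.a (.b (.a (.b (.b (.a (.b (.a (.b (.l 40) .z) (.l 40)) (.a (.b .z (.l 39)) .z)) (.b (.l 40) (.a (.b (.l 40) .z) (.l 40)))) (.a (.l 39) (.b (.a
.z (.b (.l 40) .z)) (.a (.l 39) (.b .z (.l 39)))))) (.b (.l 39) (.b (.b (.l 39) (.a (.l 39) .z)) (.b (.a .z (.a .z (.l 44))) (.l 44))))) (.b (.b (.l
40) (.a (.b (.l 40) (.a .z (.b (.l 40) .z))) (.b (.l 40) (.b (.l 40) (.a .z (.l 40)))))) (.a (.b (.b (.a (.l 39) (.b .z (.l 39))) (.l 39)) (.b (.b (.l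
39) .z) (.l 44))) (.b (.b (.a .z (.b .z (.l 41))) (.a (.b .z (.l 39)) .z)) (.a (.b (.b (.l 39) .z) (.l 44)) (.b (.b (.l 39) .z) (.a (.l 44) .z)))))))
(.a (.b (.b (.l 44) (.a (.b .z (.a (.l 43) (.b .z (.l 43)))) (.b (.b (.l 44) .z) (.a .z (.b (.l 45) .z))))) (.a (.b (.b (.b (.l 43) .z) (.l 48)) (.a
(.l 48) (.b (.l 48) (.a (.l 48) .z)))) (.b (.a (.b (.b (.l 43) .z) (.l 48)) .z) (.a .z (.b (.a .z (.l 44)) (.b .z (.l 46))))))) (.b (.a (.b (.l 44)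
(.a (.b (.b (.l 44) .z) .z) (.b (.a (.l 44) .z) .z))) (.b (.a (.b (.l 44) .z) (.b .z (.a .z (.l 41)))) (.a (.b (.a .z (.l 41)) (.l 41)) (.l 41)))) (.a
(.b (.a (.b .z (.b .z (.l 44))) (.b (.b (.l 41) .z) .z)) (.b (.l 44) (.b .z (.l 46)))) (.b (.b (.b .z (.a .z (.l 46))) (.a (.b (.l 46) .z) (.l 46)))
(.b .z (.b (.a .z (.l 46)) (.l 46)))))))) (.b (.a (.b (.a (.l 40) (.b (.l 40) (.a (.l 40) (.b (.a (.l 40) .z) .z)))) (.a (.b (.a (.b .z (.b (.l 41)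
.z)) (.b (.b (.l 40) .z) .z)) (.a .z (.b .z (.l 41)))) (.b (.a (.b .z (.a .z (.l 40))) (.b (.a .z (.l 40)) (.l 40))) (.b (.b .z (.a .z (.l 41))) (.l
41))))) (.b (.a (.b (.a (.b (.l 40) (.a (.l 40) .z)) (.b .z (.a .z (.l 38)))) (.a .z (.b (.l 38) (.b (.l 38) .z)))) (.b (.a (.b (.a .z (.l 38)) (.l
38)) (.l 38)) (.l 38))) (.b (.a (.b (.a (.l 40) .z) (.l 40)) (.b (.a (.b (.l 38) .z) (.l 38)) (.a .z (.b (.l 38) .z)))) (.b (.b .z (.l 41)) (.l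
41))))) (.b (.b (.l 41) (.b (.l 41) (.b (.l 41) (.a (.l 41) (.a (.l 41) (.a (.l 41) .z)))))) (.a (.b (.b (.b .z (.l 46)) (.l 46)) (.a (.b (.a (.b (.l
46) .z) (.l 46)) (.a .z (.b (.l 46) .z))) (.l 46))) (.b (.b (.b .z (.l 46)) (.l 46)) (.l 46)))))) (.a (.b (.a (.b (.a (.b (.a .z (.b .z (.a (.l 48)
.z))) (.a (.l 48) (.b (.l 48) (.a (.l 48) .z)))) (.b (.a (.b (.l 46) .z) (.l 46)) (.a (.b (.a (.l 48) .z) .z) .z))) (.a (.b (.a (.b (.l 48) .z) .z)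
.z) (.b .z (.a .z (.b .z (.a .z (.l 53))))))) (.b (.a (.b (.l 46) (.a (.b (.l 46) (.a .z (.l 46))) (.l 46))) (.b (.a (.l 46) (.b (.l 46) (.a (.l 46)
.z))) (.a (.b (.a (.l 46) .z) .z) .z))) (.a (.b (.a .z (.b .z (.a .z (.l 53)))) (.a (.b (.a .z (.l 53)) (.l 53)) (.l 53))) (.b (.a (.b .z (.l 53)) (.b
.z (.b .z (.l 53)))) (.a (.b (.l 53) .z) (.b .z (.a .z (.l 54)))))))) (.a (.b (.a (.b .z (.a (.b .z (.l 53)) (.l 53))) (.b (.a (.b (.a .z (.l 53)) (.l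
53)) (.l 53)) (.a (.b (.l 53) .z) (.b .z (.a .z (.l 55)))))) (.a (.b (.a (.b (.l 53) (.a (.l 53) .z)) .z) (.a (.b .z (.l 59)) (.b .z (.l 59)))) (.b
(.a (.b (.a .z (.l 55)) (.b .z (.l 60))) (.b (.l 55) (.b .z (.l 60)))) (.b (.a .z (.l 60)) (.a (.b .z (.l 59)) .z))))) (.b (.a (.b (.a (.b (.l 53) .z)
(.b .z (.a .z (.l 54)))) (.a (.b .z (.l 55)) (.b (.b .z (.l 55)) (.l 55)))) (.b (.a (.b (.a .z (.l 54)) (.l 54)) (.l 54)) (.b (.b .z (.l 55)) (.l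
55)))) (.b (.b (.l 55) (.b .z (.l 60))) (.l 60))))) (.b (.b (.a (.b (.a (.b (.a (.a (.l 46) .z) .z) (.a .z (.l 49))) (.b (.a .z (.b (.l 46) .z)) (.a
(.l 49) .z))) (.a (.a (.b (.l 49) .z) (.b (.l 49) (.a (.l 49) .z))) (.a (.b (.a (.l 49) .z) .z) (.b .z (.l 47))))) (.b (.a (.b (.l 46) (.a (.b (.l 46)
.z) (.l 46))) (.l 46)) (.a (.b (.a (.b .z (.l 47)) .z) (.a (.l 47) (.b .z (.l 47)))) (.b (.b (.l 46) (.a .z (.l 46))) .z)))) (.a (.a (.b .z (.a (.b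
(.a .z (.l 54)) (.l 54)) (.l 54))) (.b (.b (.b (.l 47) .z) (.b .z (.a .z (.l 52)))) (.b (.a (.b .z (.l 54)) .z) (.l 54)))) (.b (.a (.b (.l 47) (.b .z
(.l 52))) (.b (.a (.l 47) .z) (.b (.a .z (.l 47)) .z))) (.a (.b (.a (.b (.l 52) .z) (.l 52)) (.a (.b .z (.l 54)) .z)) (.l 52))))) (.b (.b (.b (.a (.l
54) (.a (.a (.l 54) (.b .z (.l 54))) (.a .z (.b (.l 52) .z)))) (.b (.a (.l 54) (.a (.l 54) (.a (.l 54) .z))) (.a (.l 54) (.a (.l 54) .z)))) (.b (.b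
(.a .z (.a .z (.a .z (.l 55)))) (.l 55)) (.l 55))) (.b (.b (.b (.l 55) (.a (.a (.l 55) (.a (.l 55) .z)) .z)) (.b (.a .z (.l 60)) (.l 60))) (.l
60))))))

theorem vQ91 : ev Q91 I5_4 I6_61 = 327107298594740 := by decide +kernel

noncomputable def Q83 : QT :=
(.b (.a (.b (.l 6) (.a (.b (.l 6) (.a (.b (.l 6) (.a (.b (.l 6) (.a (.b (.l 6) (.a (.b (.l 6) (.a (.b (.l 6) (.a (.b (.l 6) .z) (.b .z (.l 7)))) (.b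
(.a (.b (.l 6) .z) (.b .z (.l 7))) (.l 7)))) (.b (.a (.b (.l 6) (.a (.b (.l 6) .z) (.b .z (.l 7)))) (.b (.a (.b (.l 6) .z) (.b .z (.l 7))) (.l 7)))
(.l 7)))) (.b (.a (.b (.l 6) (.a (.b (.l 6) (.a (.b (.l 6) .z) (.b .z (.l 7)))) (.b (.a (.b (.l 6) .z) (.b .z (.l 7))) (.l 7)))) (.b (.a (.b (.l 6)
(.a (.b (.l 6) .z) (.b .z (.l 7)))) (.b (.a (.b (.l 6) .z) (.b .z (.l 7))) (.l 7))) (.l 7))) (.l 7)))) (.b (.a (.b (.l 6) (.a (.b (.l 6) (.a (.b (.l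
6) (.a (.b (.l 6) .z) (.b .z (.l 7)))) (.b (.a (.b (.l 6) .z) (.b .z (.l 7))) (.l 7)))) (.b (.a (.b (.l 6) (.a (.b (.l 6) .z) (.b .z (.l 7)))) (.b (.a
(.b (.l 6) .z) (.b .z (.l 7))) (.l 7))) (.l 7)))) (.b (.a (.b (.l 6) (.a (.b (.l 6) (.a (.b (.l 6) .z) (.b .z (.l 7)))) (.b (.a (.b (.l 6) .z) (.b .z
(.l 7))) (.l 7)))) (.b (.a (.b (.l 6) (.a (.b (.l 6) .z) (.b .z (.l 7)))) (.b (.a (.b (.l 6) .z) (.b .z (.l 7))) (.l 7))) (.l 7))) (.l 7))) (.l 7))))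
(.b (.a (.b (.l 6) (.a (.b (.l 6) (.a (.b (.l 6) (.a (.b (.l 6) (.a (.b (.l 6) .z) (.b .z (.l 7)))) (.b (.a (.b (.l 6) .z) (.b .z (.l 7))) (.l 7))))
(.b (.a (.b (.l 6) (.a (.b (.l 6) .z) (.b .z (.l 7)))) (.b (.a (.b (.l 6) .z) (.b .z (.l 7))) (.l 7))) (.l 7)))) (.b (.a (.b (.l 6) (.a (.b (.l 6) (.a
(.b (.l 6) .z) (.b .z (.l 7)))) (.b (.a (.b (.l 6) .z) (.b .z (.l 7))) (.l 7)))) (.b (.a (.b (.l 6) (.a (.b (.l 6) .z) (.b .z (.l 7)))) (.b (.a (.b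
(.l 6) .z) (.b .z (.l 7))) (.l 7))) (.l 7))) (.l 7)))) (.b (.a (.b (.l 6) (.a (.b (.l 6) (.a (.b (.l 6) (.a (.b (.l 6) .z) (.b .z (.l 7)))) (.b (.a
(.b (.l 6) .z) (.b .z (.l 7))) (.l 7)))) (.b (.a (.b (.l 6) (.a (.b (.l 6) .z) (.b .z (.l 7)))) (.b (.a (.b (.l 6) .z) (.b .z (.l 7))) (.l 7))) (.l
7)))) (.b (.a (.b (.l 6) (.a (.b (.l 6) (.a (.b (.l 6) .z) (.b .z (.l 7)))) (.b (.a (.b (.l 6) .z) (.b .z (.l 7))) (.l 7)))) (.b (.a (.b (.l 6) (.a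
(.b (.l 6) .z) (.b .z (.l 7)))) (.b (.a (.b (.l 6) .z) (.b .z (.l 7))) (.l 7))) (.l 7))) (.l 7))) (.l 7))) (.l 7)))) (.b (.a (.b (.l 6) (.a (.b (.l 6)
(.a (.b (.l 6) (.a (.b (.l 6) (.a (.b (.l 6) (.a (.b (.l 6) .z) (.b .z (.l 7)))) (.b (.a (.b (.l 6) .z) (.b .z (.l 7))) (.l 7)))) (.b (.a (.b (.l 6)
(.a (.b (.l 6) .z) (.b .z (.l 7)))) (.b (.a (.b (.l 6) .z) (.b .z (.l 7))) (.l 7))) (.l 7)))) (.b (.a (.b (.l 6) (.a (.b (.l 6) (.a (.b (.l 6) .z) (.b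
.z (.l 7)))) (.b (.a (.b (.l 6) .z) (.b .z (.l 7))) (.l 7)))) (.b (.a (.b (.l 6) (.a (.b (.l 6) .z) (.b .z (.l 7)))) (.b (.a (.b (.l 6) .z) (.b .z (.l
7))) (.l 7))) (.l 7))) (.l 7)))) (.b (.a (.b (.l 6) (.a (.b (.l 6) (.a (.b (.l 6) (.a (.b (.l 6) .z) (.b .z (.l 7)))) (.b (.a (.b (.l 6) .z) (.b .z
(.l 7))) (.l 7)))) (.b (.a (.b (.l 6) (.a (.b (.l 6) .z) (.b .z (.l 7)))) (.b (.a (.b (.l 6) .z) (.b .z (.l 7))) (.l 7))) (.l 7)))) (.b (.a (.b (.l 6)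
(.a (.b (.l 6) (.a (.b (.l 6) .z) (.b .z (.l 7)))) (.b (.a (.b (.l 6) .z) (.b .z (.l 7))) (.l 7)))) (.b (.a (.b (.l 6) (.a (.b (.l 6) .z) (.b .z (.l
7)))) (.b (.a (.b (.l 6) .z) (.b .z (.l 7))) (.l 7))) (.l 7))) (.l 7))) (.l 7)))) (.b (.a (.b (.l 6) (.a (.b (.l 6) (.a (.b (.l 6) (.a (.b (.l 6) (.a
(.b (.l 6) .z) (.b .z (.l 7)))) (.b (.a (.b (.l 6) .z) (.b .z (.l 7))) (.l 7)))) (.b (.a (.b (.l 6) (.a (.b (.l 6) .z) (.b .z (.l 7)))) (.b (.a (.b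
(.l 6) .z) (.b .z (.l 7))) (.l 7))) (.l 7)))) (.b (.a (.b (.l 6) (.a (.b (.l 6) (.a (.b (.l 6) .z) (.b .z (.l 7)))) (.b (.a (.b (.l 6) .z) (.b .z (.l
7))) (.l 7)))) (.b (.a (.b (.l 6) (.a (.b (.l 6) .z) (.b .z (.l 7)))) (.b (.a (.b (.l 6) .z) (.b .z (.l 7))) (.l 7))) (.l 7))) (.l 7)))) (.b (.a (.b
(.l 6) (.a (.b (.l 6) (.a (.b (.l 6) (.a (.b (.l 6) .z) (.b .z (.l 7)))) (.b (.a (.b (.l 6) .z) (.b .z (.l 7))) (.l 7)))) (.b (.a (.b (.l 6) (.a (.b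
(.l 6) .z) (.b .z (.l 7)))) (.b (.a (.b (.l 6) .z) (.b .z (.l 7))) (.l 7))) (.l 7)))) (.b (.a (.b (.l 6) (.a (.b (.l 6) (.a (.b (.l 6) .z) (.b .z (.l
7)))) (.b (.a (.b (.l 6) .z) (.b .z (.l 7))) (.l 7)))) (.b (.a (.b (.l 6) (.a (.b (.l 6) .z) (.b .z (.l 7)))) (.b (.a (.b (.l 6) .z) (.b .z (.l 7)))
(.l 7))) (.l 7))) (.l 7))) (.l 7))) (.l 7))) (.l 7)))) (.b (.a (.b (.l 6) (.a (.b (.l 6) (.a (.b (.l 6) (.a (.b (.l 6) (.a (.b (.l 6) (.a (.b (.l 6)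
(.a (.b (.l 6) .z) (.b .z (.l 7)))) (.b (.a (.b (.l 6) .z) (.b .z (.l 7))) (.l 7)))) (.b (.a (.b (.l 6) (.a (.b (.l 6) .z) (.b .z (.l 7)))) (.b (.a
(.b (.l 6) .z) (.b .z (.l 7))) (.l 7))) (.l 7)))) (.b (.a (.b (.l 6) (.a (.b (.l 6) (.a (.b (.l 6) .z) (.b .z (.l 7)))) (.b (.a (.b (.l 6) .z) (.b .z
(.l 7))) (.l 7)))) (.b (.a (.b (.l 6) (.a (.b (.l 6) .z) (.b .z (.l 7)))) (.b (.a (.b (.l 6) .z) (.b .z (.l 7))) (.l 7))) (.l 7))) (.l 7)))) (.b (.a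
(.b (.l 6) (.a (.b (.l 6) (.a (.b (.l 6) (.a (.b (.l 6) .z) (.b .z (.l 7)))) (.b (.a (.b (.l 6) .z) (.b .z (.l 7))) (.l 7)))) (.b (.a (.b (.l 6) (.a
(.b (.l 6) .z) (.b .z (.l 7)))) (.b (.a (.b (.l 6) .z) (.b .z (.l 7))) (.l 7))) (.l 7)))) (.b (.a (.b (.l 6) (.a (.b (.l 6) (.a (.b (.l 6) .z) (.b .z
(.l 7)))) (.b (.a (.b (.l 6) .z) (.b .z (.l 7))) (.l 7)))) (.b (.a (.b (.l 6) (.a (.b (.l 6) .z) (.b .z (.l 7)))) (.b (.a (.b (.l 6) .z) (.b .z (.l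
7))) (.l 7))) (.l 7))) (.l 7))) (.l 7)))) (.b (.a (.b (.l 6) (.a (.b (.l 6) (.a (.b (.l 6) (.a (.b (.l 6) (.a (.b (.l 6) .z) (.b .z (.l 7)))) (.b (.a
(.b (.l 6) .z) (.b .z (.l 7))) (.l 7)))) (.b (.a (.b (.l 6) (.a (.b (.l 6) .z) (.b .z (.l 7)))) (.b (.a (.b (.l 6) .z) (.b .z (.l 7))) (.l 7))) (.l
7)))) (.b (.a (.b (.l 6) (.a (.b (.l 6) (.a (.b (.l 6) .z) (.b .z (.l 7)))) (.b (.a (.b (.l 6) .z) (.b .z (.l 7))) (.l 7)))) (.b (.a (.b (.l 6) (.a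
(.b (.l 6) .z) (.b .z (.l 7)))) (.b (.a (.b (.l 6) .z) (.b .z (.l 7))) (.l 7))) (.l 7))) (.l 7)))) (.b (.a (.b (.l 6) (.a (.b (.l 6) (.a (.b (.l 6)
(.a (.b (.l 6) .z) (.b .z (.l 7)))) (.b (.a (.b (.l 6) .z) (.b .z (.l 7))) (.l 7)))) (.b (.a (.b (.l 6) (.a (.b (.l 6) .z) (.b .z (.l 7)))) (.b (.a
(.b (.l 6) .z) (.b .z (.l 7))) (.l 7))) (.l 7)))) (.b (.a (.b (.l 6) (.a (.b (.l 6) (.a (.b (.l 6) .z) (.b .z (.l 7)))) (.b (.a (.b (.l 6) .z) (.b .z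
(.l 7))) (.l 7)))) (.b (.a (.b (.l 6) (.a (.b (.l 6) .z) (.b .z (.l 7)))) (.b (.a (.b (.l 6) .z) (.b .z (.l 7))) (.l 7))) (.l 7))) (.l 7))) (.l 7)))
(.l 7)))) (.b (.a (.b (.l 6) (.a (.b (.l 6) (.a (.b (.l 6) (.a (.b (.l 6) (.a (.b (.l 6) (.a (.b (.l 6) .z) (.b .z (.l 7)))) (.b (.a (.b (.l 6) .z)
(.b .z (.l 7))) (.l 7)))) (.b (.a (.b (.l 6) (.a (.b (.l 6) .z) (.b .z (.l 7)))) (.b (.a (.b (.l 6) .z) (.b .z (.l 7))) (.l 7))) (.l 7)))) (.b (.a (.b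
(.l 6) (.a (.b (.l 6) (.a (.b (.l 6) .z) (.b .z (.l 7)))) (.b (.a (.b (.l 6) .z) (.b .z (.l 7))) (.l 7)))) (.b (.a (.b (.l 6) (.a (.b (.l 6) .z) (.b
.z (.l 7)))) (.b (.a (.b (.l 6) .z) (.b .z (.l 7))) (.l 7))) (.l 7))) (.l 7)))) (.b (.a (.b (.l 6) (.a (.b (.l 6) (.a (.b (.l 6) (.a (.b (.l 6) .z)
(.b .z (.l 7)))) (.b (.a (.b (.l 6) .z) (.b .z (.l 7))) (.l 7)))) (.b (.a (.b (.l 6) (.a (.b (.l 6) .z) (.b .z (.l 7)))) (.b (.a (.b (.l 6) .z) (.b .z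
(.l 7))) (.l 7))) (.l 7)))) (.b (.a (.b (.l 6) (.a (.b (.l 6) (.a (.b (.l 6) .z) (.b .z (.l 7)))) (.b (.a (.b (.l 6) .z) (.b .z (.l 7))) (.l 7)))) (.b
(.a (.b (.l 6) (.a (.b (.l 6) .z) (.b .z (.l 7)))) (.b (.a (.b (.l 6) .z) (.b .z (.l 7))) (.l 7))) (.l 7))) (.l 7))) (.l 7)))) (.b (.a (.b (.l 6) (.a
(.b (.l 6) (.a (.b (.l 6) (.a (.b (.l 6) (.a (.b (.l 6) .z) (.b .z (.l 7)))) (.b (.a (.b (.l 6) .z) (.b .z (.l 7))) (.l 7)))) (.b (.a (.b (.l 6) (.a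
(.b (.l 6) .z) (.b .z (.l 7)))) (.b (.a (.b (.l 6) .z) (.b .z (.l 7))) (.l 7))) (.l 7)))) (.b (.a (.b (.l 6) (.a (.b (.l 6) (.a (.b (.l 6) .z) (.b .z
(.l 7)))) (.b (.a (.b (.l 6) .z) (.b .z (.l 7))) (.l 7)))) (.b (.a (.b (.l 6) (.a (.b (.l 6) .z) (.b .z (.l 7)))) (.b (.a (.b (.l 6) .z) (.b .z (.l
7))) (.l 7))) (.l 7))) (.l 7)))) (.b (.a (.b (.l 6) (.a (.b (.l 6) (.a (.b (.l 6) (.a (.b (.l 6) .z) (.b .z (.l 7)))) (.b (.a (.b (.l 6) .z) (.b .z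
(.l 7))) (.l 7)))) (.b (.a (.b (.l 6) (.a (.b (.l 6) .z) (.b .z (.l 7)))) (.b (.a (.b (.l 6) .z) (.b .z (.l 7))) (.l 7))) (.l 7)))) (.b (.a (.b (.l 6)
(.a (.b (.l 6) (.a (.b (.l 6) .z) (.b .z (.l 7)))) (.b (.a (.b (.l 6) .z) (.b .z (.l 7))) (.l 7)))) (.b (.a (.b (.l 6) (.a (.b (.l 6) .z) (.b .z (.l
7)))) (.b (.a (.b (.l 6) .z) (.b .z (.l 7))) (.l 7))) (.l 7))) (.l 7))) (.l 7))) (.l 7))) (.l 7))) (.l 7))) (.b (.b (.b (.l 7) (.b (.l 7) (.a (.l 7)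
(.b (.a (.l 7) (.b (.l 7) (.a (.l 7) (.b (.a (.l 7) (.b (.l 7) (.a (.l 7) (.a (.a (.l 7) (.a (.l 7) .z)) .z)))) (.a (.b (.l 7) (.a (.l 7) (.a (.a (.l
7) .z) .z))) (.b (.a (.a (.a (.l 7) .z) .z) (.a .z (.l 10))) (.a (.a .z (.l 10)) (.l 10)))))))) (.a (.b (.l 7) (.a (.l 7) (.b (.a (.l 7) (.b (.a (.l
7) (.a (.l 7) .z)) (.a (.a (.a (.l 7) (.a (.l 7) .z)) .z) (.a .z (.a .z (.l 10)))))) (.a (.b (.a (.l 7) (.a (.a (.a (.l 7) .z) .z) .z)) (.a .z (.a (.a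
.z (.l 10)) (.l 10)))) (.b (.a (.a .z (.l 10)) (.l 10)) (.l 10)))))) (.b (.a (.b (.a (.l 7) (.b (.l 7) (.a (.l 7) .z))) (.a (.b (.a (.l 7) (.a (.l 7)
(.a (.l 7) (.a (.l 7) .z)))) (.a (.a (.l 7) (.a (.a (.l 7) .z) .z)) .z)) (.b (.a .z (.a (.a .z (.l 10)) (.l 10))) (.l 10)))) (.b (.a (.b (.a (.a (.a
(.a (.l 7) .z) .z) .z) (.a .z (.l 10))) (.a (.a (.a .z (.l 10)) (.l 10)) (.l 10))) (.l 10)) (.l 10))) (.a (.b (.a (.b (.a (.a .z (.a .z (.l 10))) (.l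
10)) (.l 10)) (.l 10)) (.l 10)) (.l 10)))))))) (.a (.b (.b (.b (.a (.l 7) (.b (.a (.l 7) (.b (.l 7) (.a (.l 7) (.b (.l 7) (.a (.l 7) .z))))) (.a (.b
(.l 7) (.a (.b (.l 7) (.a (.l 7) (.a (.l 7) (.a (.a (.l 7) .z) .z)))) (.b (.a (.l 7) .z) (.a .z (.a (.a .z (.l 10)) (.l 10)))))) (.b (.a (.b (.a (.l
7) (.a (.l 7) (.a (.a (.l 7) .z) .z))) (.a (.a (.a (.l 7) (.a (.l 7) .z)) .z) (.a .z (.a .z (.l 10))))) (.b (.a .z (.a (.a .z (.l 10)) (.l 10))) (.l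
10))) (.a (.b (.a (.a .z (.l 10)) (.l 10)) (.l 10)) (.l 10)))))) (.a (.b (.a (.l 7) (.b (.a (.l 7) (.b (.l 7) (.a (.a (.l 7) (.a (.l 7) (.a (.l 7)
.z))) .z))) (.a (.b (.a (.l 7) (.a (.l 7) .z)) (.a .z (.a .z (.a .z (.l 10))))) (.b (.a .z (.l 10)) (.l 10))))) (.a (.b (.a (.b (.l 7) (.a (.l 7) (.a
(.a (.a (.l 7) .z) .z) .z))) (.b (.a (.a (.l 7) (.a (.a (.l 7) .z) .z)) .z) (.a (.a .z (.a .z (.l 10))) (.l 10)))) (.a (.b (.a .z (.a (.a .z (.l 10))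
(.l 10))) (.l 10)) (.l 10))) (.b (.a (.b (.a (.a (.a .z (.l 10)) (.l 10)) (.l 10)) (.l 10)) (.l 10)) (.l 10)))) (.b (.a (.b (.a (.b (.a (.a (.a (.l 7)
.z) .z) (.a .z (.a .z (.l 10)))) (.a (.a .z (.l 10)) (.l 10))) (.l 10)) (.l 10)) (.l 10)) (.l 10)))) (.l 10)) (.a (.b (.a (.b (.l 10) (.a (.b (.l 10)
(.a (.b (.l 10) (.a (.b (.a .z (.l 10)) .z) (.b (.l 10) (.a .z (.l 10))))) (.l 10))) (.l 10))) (.l 10)) (.a (.b (.a (.b (.a (.b (.a (.l 11) (.b .z (.a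
(.l 11) .z))) (.l 11)) (.b (.a (.b (.l 10) .z) (.l 10)) (.a (.b (.a (.l 11) .z) (.l 11)) (.b (.a .z (.l 10)) .z)))) (.l 11)) (.b (.a (.b (.l 10) (.a
(.b (.l 10) (.a .z (.l 10))) (.l 10))) (.l 10)) (.a (.b (.a (.b .z (.a (.l 11) .z)) (.b (.l 10) .z)) (.a (.l 11) (.b (.a (.l 11) .z) (.l 11)))) (.b
(.l 10) (.a (.b (.a .z (.l 10)) .z) (.b (.l 10) (.a .z (.l 10)))))))) (.a (.l 11) (.b (.a (.l 11) (.b (.a (.l 11) (.b .z (.a (.l 11) .z))) (.l 11)))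
(.l 11)))) (.b (.l 10) (.a (.b (.a (.b (.a (.b (.l 10) .z) (.l 10)) (.a (.b (.a (.l 11) .z) (.l 11)) (.b (.a .z (.l 10)) .z))) (.l 10)) (.a (.b (.a
(.l 11) (.b (.a (.l 11) .z) (.l 11))) (.l 11)) (.b (.a (.b .z (.a (.l 11) .z)) (.b (.l 10) (.a .z (.l 10)))) (.a (.l 11) (.b .z (.l 11)))))) (.b (.l
10) (.a (.b (.l 10) (.a (.b (.a .z (.l 10)) .z) (.l 10))) (.l 10))))))) (.l 10))) (.b (.b (.b (.a (.b (.a (.b (.a (.b (.l 7) (.a (.l 7) (.a (.l 7)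
.z))) (.b (.a (.a (.l 7) (.a (.l 7) .z)) .z) (.a .z (.l 10)))) (.a (.b (.a (.a (.a (.l 7) .z) .z) (.a .z (.a .z (.l 10)))) (.a (.a .z (.l 10)) (.l
10))) (.l 10))) (.b (.a (.b (.a (.a (.a .z (.l 10)) (.l 10)) (.l 10)) (.l 10)) (.l 10)) (.l 10))) (.l 10)) (.l 10)) (.l 10)) (.l 10)) (.l 10)))) (.b
(.a (.b (.a (.b (.a (.l 11) (.b (.a (.l 11) (.b (.a (.b (.a (.b (.a (.l 11) .z) (.l 11)) (.b (.a .z (.l 10)) .z)) (.l 11)) (.b (.a (.b (.l 10) (.a .z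
(.l 10))) (.l 10)) (.a (.b .z (.a (.l 11) .z)) (.b (.l 10) (.a .z (.l 10)))))) (.a (.l 11) (.b (.a (.l 11) (.b .z (.l 11))) (.l 11))))) (.l 11))) (.l
11)) (.b (.a (.b (.a (.b (.l 10) (.a (.b (.a (.b (.a .z (.l 10)) .z) (.l 10)) (.a (.b (.a (.l 11) .z) (.l 11)) (.b (.a .z (.l 10)) .z))) (.b (.l 10)
(.a (.b (.l 10) (.a .z (.l 10))) (.l 10))))) (.l 10)) (.a (.b (.a (.l 11) (.b (.a (.b .z (.a (.l 11) .z)) (.b (.l 10) (.a .z (.l 10)))) (.a (.l 11)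
(.b .z (.l 11))))) (.l 11)) (.b (.a (.b (.l 10) (.a (.b (.a .z (.l 10)) .z) (.l 10))) (.l 10)) (.a (.b (.a (.b (.a (.l 11) .z) (.l 11)) (.b (.a .z (.l
10)) .z)) (.a (.l 11) (.b (.a (.l 11) .z) (.l 11)))) (.b (.l 10) (.a (.b .z (.a (.l 11) .z)) (.b (.l 10) (.a .z (.l 10))))))))) (.l 10)) (.a (.b (.a
(.l 11) (.b (.a (.l 11) (.b (.a (.l 11) (.b .z (.a (.l 11) .z))) (.l 11))) (.l 11))) (.l 11)) (.b (.a (.b (.a (.b (.a (.b (.l 10) (.a .z (.l 10))) (.l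
10)) (.a (.b .z (.l 11)) (.b (.a .z (.l 10)) .z))) (.l 10)) (.a (.b (.a (.l 11) (.b (.a (.l 11) .z) (.l 11))) (.l 11)) (.b (.a (.b (.a .z (.l 10)) .z)
(.l 10)) (.a (.b (.a (.l 11) .z) (.l 11)) (.b (.a .z (.l 10)) .z))))) (.b (.l 10) (.a (.b (.l 10) (.a (.b (.l 10) (.a .z (.l 10))) (.l 10))) (.l
10)))) (.a (.l 11) (.b (.a (.b (.a (.b .z (.a (.l 11) .z)) (.b (.l 10) (.a .z (.l 10)))) (.a (.l 11) (.b .z (.a (.l 11) .z)))) (.b (.l 10) (.a (.b (.l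
10) (.a .z (.l 10))) (.l 10)))) (.a (.l 11) (.b (.a (.b .z (.l 11)) (.b (.a .z (.l 10)) .z)) (.a (.l 11) (.b (.a (.l 11) .z) (.l 11))))))))))) (.l
11)) (.b (.a (.b (.l 10) (.a (.b (.l 10) (.a (.b (.l 10) (.a (.b (.l 10) (.a (.b (.a .z (.l 10)) .z) (.l 10))) (.l 10))) (.l 10))) (.l 10))) (.l 10))
(.a (.b (.a (.b (.a (.b (.a (.b (.a (.b (.a (.l 11) .z) (.l 11)) (.b (.a .z (.l 10)) .z)) (.a (.l 11) (.b (.a (.l 11) .z) (.l 11)))) (.b (.l 10) (.a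
(.b (.a .z (.l 10)) .z) (.b (.l 10) (.a .z (.l 10)))))) (.a (.l 11) (.b (.a (.l 11) (.b .z (.a (.l 11) .z))) (.l 11)))) (.b (.l 10) (.a (.b (.a (.b
(.l 10) (.a .z (.l 10))) (.l 10)) (.a (.b .z (.a (.l 11) .z)) (.b (.l 10) (.a .z (.l 10))))) (.l 10)))) (.a (.l 11) (.b (.a (.b (.a (.l 11) (.b .z (.a
(.l 11) .z))) (.l 11)) (.b (.a (.b (.l 10) (.a .z (.l 10))) (.l 10)) (.a (.b .z (.a (.l 11) .z)) (.b (.l 10) (.a .z (.l 10)))))) (.a (.l 11) (.b (.a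
(.l 11) (.b .z (.a (.l 11) .z))) (.l 11)))))) (.b (.l 10) (.a (.b (.l 10) (.a (.b (.a (.b (.l 10) (.a .z (.l 10))) (.l 10)) (.a (.b .z (.a (.l 11)
.z)) (.b (.l 10) .z))) (.l 10))) (.l 10)))) (.a (.l 11) (.b (.a (.b (.a (.b (.a (.l 11) (.b (.a (.l 11) .z) (.l 11))) (.l 11)) (.b (.a (.b (.a .z (.l
10)) .z) (.l 10)) (.a (.b (.a (.l 11) .z) (.l 11)) (.b (.a .z (.l 10)) .z)))) (.a (.l 11) (.b (.a (.l 11) (.b (.a (.l 11) .z) (.l 11))) (.l 11)))) (.b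
(.l 10) (.a (.b (.a (.b (.a .z (.l 10)) .z) (.l 10)) (.a (.b (.a (.l 11) .z) (.l 11)) (.b (.a .z (.l 10)) .z))) (.l 10)))) (.a (.l 11) (.a (.b (.b (.a
(.l 11) (.b (.a (.l 11) .z) (.l 11))) (.l 11)) (.l 11)) (.b (.a (.b (.b (.a .z (.l 10)) .z) (.a (.l 11) (.b .z (.l 11)))) (.b (.l 10) (.a .z (.b (.l
10) .z)))) (.a (.l 11) (.b (.a (.l 11) (.b .z (.l 11))) (.l 11))))))))) (.a (.b (.l 10) (.a (.b (.l 10) (.a (.b (.l 10) (.a (.b (.a .z (.b (.l 10)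
.z)) (.a (.l 11) (.b .z (.l 11)))) (.b (.l 10) (.a .z (.b (.l 10) .z))))) (.l 10))) (.l 10))) (.l 10))))) (.a (.l 11) (.a (.l 11) (.b (.a (.b (.a (.b
(.a (.b (.a (.l 11) (.b (.a (.l 11) (.b .z (.l 11))) (.l 11))) (.l 11)) (.b (.a (.b (.a .z (.b (.l 10) .z)) (.a (.l 11) (.b .z (.l 11)))) (.b (.l 10)
(.a .z (.b (.l 10) .z)))) (.a (.l 11) (.b (.a (.l 11) .z) (.l 11))))) (.l 11)) (.b (.a (.b (.l 10) (.a (.b (.a (.b (.l 10) .z) (.l 10)) (.a (.b .z (.l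
11)) .z)) (.b (.l 10) (.a (.b (.l 10) .z) (.l 10))))) (.l 10)) (.a (.b (.a (.l 11) (.b (.a (.b .z (.l 11)) .z) (.l 11))) (.l 11)) (.b (.a (.b (.a (.b
(.l 10) .z) (.l 10)) (.a (.b .z (.l 11)) .z)) (.b (.l 10) (.a (.b (.l 10) .z) (.l 10)))) (.a (.l 11) (.b (.a (.b .z (.l 11)) .z) (.l 11))))))) (.l
11)) (.b (.a (.b (.l 10) (.a (.b (.l 10) (.a (.b (.a (.b (.l 10) .z) (.l 10)) (.a (.b .z (.l 11)) .z)) (.b (.l 10) (.a (.b (.l 10) .z) (.l 10))))) (.l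
10))) (.l 10)) (.a (.b (.a (.b (.a (.l 11) (.b (.a (.b .z (.l 11)) .z) (.a (.l 11) (.b .z (.l 11))))) (.l 11)) (.b (.a (.b (.l 10) (.a .z (.b (.l 10)
.z))) (.l 10)) (.a (.b (.a (.l 11) (.b .z (.l 11))) (.l 11)) (.b (.a .z (.b (.l 10) .z)) (.a (.l 11) (.b .z (.l 11))))))) (.l 11)) (.b (.a (.b (.l 10)
(.a (.b (.l 10) (.a .z (.b (.l 10) .z))) (.l 10))) (.l 10)) (.a (.b (.a (.b (.a (.l 11) (.b .z (.l 11))) (.l 11)) (.b (.a .z (.l 10)) (.a (.b .z (.l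
11)) .z))) (.l 11)) (.b (.a (.b (.l 10) (.a (.b (.l 10) .z) (.l 10))) (.l 10)) (.a (.b (.a (.b .z (.l 11)) .z) (.l 11)) (.b (.a (.b (.l 10) .z) (.l
10)) (.a (.b .z (.l 11)) .z))))))))) (.a (.l 11) (.b (.a (.l 11) (.b (.a (.l 11) (.b (.a (.l 11) (.b (.a (.l 11) (.b .z (.l 11))) (.l 11))) (.l 11)))
(.l 11))) (.l 11)))))))))

theorem vQ83 : ev Q83 I4_3 I3_6 = 7750836087975721 := by decide +kernel

noncomputable def Q246 : QT :=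
(.b (.b (.a (.b (.a (.b (.a (.b (.b (.l 11) (.b (.l 11) (.b (.a (.l 11) (.a (.l 11) .z)) .z))) (.a (.l 45) (.b (.l 45) (.a (.l 45) .z)))) (.b (.a (.b
(.l 11) (.b (.l 11) .z)) (.b (.a (.l 11) (.b (.a (.l 11) .z) .z)) (.a (.b (.a (.l 11) .z) .z) (.b (.a .z (.l 12)) (.l 12))))) (.a (.b (.a .z (.b .z
(.a .z (.l 12)))) (.a (.b .z (.a .z (.l 12))) (.l 12))) (.b (.a (.b (.a .z (.l 12)) (.l 12)) (.l 12)) (.l 12))))) (.a (.b (.a (.b (.l 45) (.a (.l 45)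
.z)) (.b (.a .z (.b .z (.l 12))) (.a (.b (.a .z (.l 12)) (.b (.l 12) .z)) (.b (.l 12) .z)))) (.a (.b (.a .z (.b .z (.l 13))) (.l 13)) (.b (.b (.b (.a
.z (.l 13)) (.l 13)) (.l 13)) (.l 13)))) (.b (.b (.b (.l 12) (.a (.l 12) (.b (.l 12) (.a (.l 12) .z)))) (.b (.a (.b (.l 12) (.a (.l 12) .z)) (.b .z
(.a .z (.l 13)))) (.a (.b .z (.l 13)) (.l 13)))) (.l 13)))) (.b (.a (.b (.a (.b (.a (.b (.a .z (.l 12)) (.l 12)) (.l 12)) (.l 12)) (.l 12)) (.l 12))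
(.b (.l 12) (.b (.l 12) (.b (.a (.l 12) (.b (.l 12) (.a (.l 12) .z))) (.a (.b (.l 12) .z) (.b .z (.a .z (.l 13)))))))) (.b (.b (.a (.b (.a (.l 12) (.b
(.a (.l 12) .z) .z)) (.a (.b (.a (.l 12) .z) .z) (.b (.a .z (.l 13)) (.l 13)))) (.b (.a (.b (.a .z (.l 13)) (.l 13)) (.l 13)) (.l 13))) (.l 13)) (.l
13)))) (.b (.b (.b (.a (.b (.l 13) (.a (.b (.a .z (.l 13)) .z) (.b (.l 13) (.a (.a .z (.l 13)) (.l 13))))) (.l 13)) (.a .z (.b (.a (.b (.a (.a .z (.l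
13)) (.l 13)) .z) (.l 13)) (.a .z (.b (.a .z (.l 13)) .z))))) (.a (.a (.b (.a (.b .z (.l 51)) .z) (.l 51)) .z) .z)) (.a (.a (.b (.a (.b (.l 51) .z)
(.l 51)) (.a (.b .z (.l 117)) (.b (.a .z (.l 51)) .z))) (.b (.b (.a (.l 51) .z) (.l 51)) (.a (.l 51) (.b (.l 51) (.a (.l 51) .z))))) .z))) (.b (.b (.b
(.a (.b (.l 12) (.a (.l 12) (.b (.l 12) (.a (.l 12) (.b (.l 12) .z))))) (.b (.a (.b (.l 12) (.a (.l 12) (.b (.l 12) (.a (.l 12) .z)))) (.b (.a (.l 12)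
(.b (.a (.l 12) .z) .z)) (.a (.b .z (.a .z (.l 13))) (.b (.a .z (.l 13)) (.l 13))))) (.a (.b (.a (.b (.l 12) (.a (.l 12) .z)) (.b .z (.a .z (.l 13))))
(.a (.b .z (.a .z (.l 13))) (.l 13))) (.l 13)))) (.a (.b (.a (.b (.l 12) (.a (.b (.l 12) (.a (.l 12) .z)) (.b (.a (.l 12) .z) .z))) (.b (.a (.b (.a
(.l 12) .z) .z) (.b (.a .z (.l 13)) (.l 13))) (.a (.b (.a .z (.l 13)) (.l 13)) (.l 13)))) (.a (.b (.a (.b .z (.a .z (.l 13))) (.l 13)) (.l 13)) (.l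
13))) (.l 13))) (.l 13)) (.b (.b (.b (.l 13) (.a (.b (.l 13) (.a (.b (.l 13) (.a (.a .z (.l 13)) (.l 13))) (.l 13))) (.l 13))) (.b (.a (.b (.a .z (.b
(.l 13) (.a .z (.a .z (.l 13))))) .z) (.b (.l 13) (.a (.b (.a .z (.l 13)) .z) (.l 13)))) (.a .z (.b (.a .z (.b (.a .z (.a .z (.l 13))) .z)) .z))))
.z))) (.a (.b .z (.a (.b .z (.b (.b (.b (.b .z (.a .z (.l 60))) (.l 60)) (.l 60)) (.b (.a (.b (.a .z (.l 60)) .z) (.b (.l 60) (.a .z (.l 60)))) (.a .z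
(.b .z (.a (.l 65) .z)))))) (.b .z (.a (.b (.b (.b (.b .z (.l 60)) (.l 60)) (.l 60)) (.a (.b (.l 60) (.b (.l 60) .z)) (.b (.l 60) (.a (.l 60) .z))))
(.b (.a (.b (.b .z (.l 60)) (.l 60)) (.b (.b .z (.l 60)) (.a (.l 60) .z))) (.a (.b (.a (.l 60) .z) .z) .z)))))) (.b (.a .z (.b .z (.a (.b .z (.a .z
(.b .z (.a .z (.l 37))))) (.b (.a (.b .z (.a .z (.b .z (.a .z (.l 14))))) (.b (.a .z (.b .z (.l 14))) (.l 14))) (.a (.b (.a (.b (.a .z (.l 14)) .z)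
(.b (.l 14) (.b (.l 14) .z))) (.l 37)) (.b (.b (.l 14) (.b (.l 14) .z)) (.b .z (.l 37)))))))) (.a (.b (.a .z (.b .z (.a (.b .z (.l 37)) (.l 37)))) .z)
(.b (.a (.b (.a (.b (.a .z (.l 37)) (.l 37)) (.l 37)) (.l 37)) (.l 37)) (.b (.b (.b (.a (.b (.l 37) .z) (.l 37)) (.a .z (.b (.l 37) .z))) .z) .z))))))
(.b (.a (.b (.a (.b (.a (.b (.b (.b (.a .z (.l 65)) (.l 65)) (.b (.l 65) .z)) (.b (.b (.a (.b .z (.l 19)) (.l 19)) (.l 19)) (.l 19))) (.b (.b (.b (.l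
65) (.a (.l 65) .z)) (.b (.a .z (.b .z (.l 19))) (.a (.b .z (.l 19)) (.l 19)))) (.a (.b (.l 19) (.a (.l 19) (.b (.l 19) .z))) (.b (.a (.l 19) .z)
.z)))) (.a (.b (.a (.l 19) (.b (.a (.l 19) (.b (.l 19) .z)) (.a (.b (.l 19) .z) .z))) (.a (.b (.a (.b (.l 19) .z) .z) .z) (.b .z (.b .z (.b (.l 20)
.z))))) (.b (.a (.b .z (.l 39)) (.b (.b .z (.l 39)) (.l 39))) (.b (.b .z (.a .z (.l 20))) (.b (.l 20) (.b (.l 20) .z)))))) (.b (.a (.b (.a (.b .z (.a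
(.b (.l 19) .z) .z)) .z) (.a .z (.b .z (.b .z (.l 39))))) (.b .z (.b (.b .z (.a .z (.l 39))) (.l 39)))) (.b (.b (.a (.l 39) (.b (.a (.l 39) .z) (.a .z
(.b .z (.l 20))))) (.a (.b (.a (.l 39) .z) (.a .z (.b .z (.l 20)))) (.b (.a (.b .z (.l 20)) (.l 20)) (.l 20)))) (.b (.a (.b (.a (.b .z (.l 20)) (.l
20)) (.l 20)) (.l 20)) (.b (.l 20) (.b .z (.a (.a .z (.l 19)) (.l 19)))))))) (.l 19)) (.b (.b (.b (.a (.b .z (.a .z (.a (.l 83) .z))) (.b .z (.a .z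
(.b (.a .z (.l 20)) (.l 20))))) (.a (.b (.a (.b .z (.l 39)) .z) (.a (.b (.a (.l 39) .z) .z) (.b (.a .z (.l 20)) (.l 20)))) (.b (.a (.b (.a .z (.l 20))
(.l 20)) (.l 20)) (.l 20)))) (.b (.a (.b (.a (.b (.a (.b .z (.l 20)) (.l 20)) (.l 20)) (.l 20)) (.l 20)) (.l 20)) (.b (.l 20) (.b (.b (.l 20) (.a (.l
20) (.a (.l 20) .z))) (.b (.a .z (.a .z (.a .z (.l 19)))) (.l 19)))))) (.l 19))) (.b (.b (.b (.l 19) (.a (.b (.l 19) (.a (.l 19) (.b (.l 19) (.a (.l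
19) (.b (.l 19) (.a (.l 19) .z)))))) (.b (.a (.l 19) (.a (.b (.l 19) (.b (.a (.l 19) .z) .z)) (.b (.a (.b (.l 19) .z) .z) .z))) (.a (.b (.a (.b (.l
19) (.a (.l 19) .z)) (.b (.a (.l 19) .z) .z)) .z) .z)))) (.b (.a (.b (.a (.b (.l 19) (.a (.l 19) (.b (.l 19) (.a (.l 19) .z)))) (.b (.a (.b (.l 19)
(.a (.l 19) .z)) .z) .z)) (.a (.b (.a (.b (.l 19) (.a (.l 19) .z)) .z) .z) .z)) (.a (.b .z (.b .z (.a .z (.l 111)))) (.b .z (.a (.l 111) .z)))) (.a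
(.a (.a .z (.b .z (.b .z (.l 111)))) (.b (.a (.b .z (.l 111)) (.l 111)) (.l 111))) (.b (.a (.l 111) (.b (.a (.l 111) .z) .z)) (.a (.b (.a (.l 111) .z)
.z) .z))))) (.b (.a (.b (.b (.a (.l 111) (.b (.a (.l 111) .z) .z)) (.a (.b (.a (.l 111) .z) .z) .z)) (.a (.b .z (.a (.b .z (.a .z (.b .z (.l 27))))
(.b .z (.b .z (.l 27))))) (.b .z (.b .z (.b (.a (.a .z (.l 27)) (.l 27)) (.l 27)))))) (.b .z (.b .z (.b .z (.l 27))))) (.a (.b (.a (.b (.a .z (.b (.a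
(.b (.l 27) .z) (.l 27)) (.a .z (.b (.l 27) .z)))) .z) (.b (.l 27) (.a (.b (.a .z (.b (.l 27) .z)) .z) (.b (.l 27) (.a (.b (.l 27) .z) (.l 27))))))
(.a (.l 91) (.b (.a (.b .z (.l 91)) .z) .z))) (.b (.l 27) (.a (.b (.a (.b (.a (.b (.l 27) .z) (.l 27)) (.a .z (.b (.l 27) .z))) (.l 27)) (.a .z (.b
(.a .z (.l 27)) .z))) (.b (.l 27) (.a (.b (.l 27) (.a (.b (.l 27) .z) (.l 27))) (.l 27))))))))))

theorem vQ246 : ev Q246 I6_45 I4_14 = 512716224552682 := by decide +kernel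

noncomputable def Q226 : QT :=
(.a (.b (.b (.b (.l 19) (.a (.b (.a (.b (.l 19) (.a (.b (.l 19) (.a .z (.b (.l 19) .z))) (.l 19))) (.l 19)) (.a (.b (.a (.b (.a (.l 29) (.b .z (.l
29))) (.l 29)) (.b (.a .z (.b (.l 19) .z)) (.a (.l 29) (.b .z (.l 29))))) (.l 29)) (.b (.a (.b (.l 19) (.a .z (.b (.l 19) .z))) (.l 19)) (.a (.b (.a
(.l 29) .z) (.l 29)) (.b (.a (.b (.l 19) .z) (.l 19)) (.a (.b .z (.l 29)) .z)))))) (.b (.l 19) (.a (.b (.l 19) (.a (.b (.l 19) (.a (.b (.l 19) .z) (.l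
19))) (.l 19))) (.l 19))))) (.b (.a (.l 29) (.b (.a (.b (.a (.b (.a (.b .z (.l 29)) .z) (.l 29)) (.b (.a (.b (.l 19) .z) (.l 19)) (.a .z (.b (.l 19)
.z)))) (.a (.l 29) (.b (.a (.l 29) (.b .z (.l 29))) (.l 29)))) (.b (.l 19) (.a (.b (.a .z (.b (.l 19) .z)) (.a (.l 29) .z)) (.b (.l 19) (.a (.b (.l
19) .z) (.l 19)))))) (.a (.a (.b (.l 29) (.a (.l 29) (.b (.l 29) .z))) (.b (.a (.l 29) (.b (.l 29) .z)) .z)) (.b (.a (.a .z (.a .z (.a .z (.l 25))))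
(.b (.a (.b .z (.l 25)) .z) (.a (.l 25) (.b .z (.l 25))))) (.a (.a .z (.a (.a .z (.l 25)) (.l 25))) (.l 25)))))) (.a (.a (.b (.l 29) (.a (.l 29) (.b
(.a (.l 29) (.b (.l 29) (.a (.l 29) .z))) (.a (.b (.a (.l 29) .z) .z) .z)))) (.b (.a (.b (.l 29) (.a (.l 29) (.b (.l 29) (.a (.l 29) .z)))) (.b (.a
(.l 29) (.b (.l 29) (.a (.l 29) .z))) (.a (.b (.a (.l 29) .z) .z) .z))) (.a (.b (.a (.b (.a (.l 29) .z) .z) .z) (.l 75)) (.l 75)))) (.a (.a (.b (.b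
(.a (.b (.a (.l 29) .z) .z) .z) (.l 75)) (.l 75)) (.a (.b (.l 75) (.a (.l 75) .z)) (.b (.a (.l 75) .z) (.a .z (.b (.a .z (.l 25)) (.l 25)))))) (.a (.a
(.b (.a (.b .z (.a .z (.l 25))) (.b (.a .z (.l 25)) (.l 25))) (.l 25)) (.l 25)) (.l 25)))))) (.b (.b (.a (.a (.b (.a (.b (.a (.b (.l 29) .z) .z) .z)
(.b (.a .z (.l 75)) (.a .z (.l 75)))) (.b (.a (.l 91) .z) (.a (.l 91) .z))) (.b (.b (.l 75) (.a (.l 75) (.b (.l 75) .z))) (.b (.a (.b (.l 75) .z) .z)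
.z))) (.a (.a (.a (.b (.b (.l 75) .z) .z) (.b .z (.a .z (.b .z (.a .z (.l 25)))))) (.a (.b (.a .z (.b .z (.l 25))) (.l 25)) (.l 25))) (.l 25))) (.b
(.a (.a .z (.a (.l 173) (.a (.l 173) .z))) (.a (.a (.a .z (.a (.b (.a .z (.l 25)) (.l 25)) (.l 25))) (.l 25)) (.l 25))) (.a (.b (.a (.a .z (.l 173))
(.a (.l 173) .z)) (.a .z (.b .z (.a .z (.b (.a .z (.a .z (.l 11))) (.l 11)))))) (.b (.a (.b (.a (.a (.a .z (.l 25)) (.l 25)) (.l 25)) (.a (.a (.a .z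
(.l 25)) (.l 25)) (.b (.a (.l 25) .z) .z))) (.b (.a (.b (.l 25) (.a (.l 25) .z)) (.b .z (.a .z (.l 11)))) (.a (.b (.a .z (.a .z (.l 11))) (.l 11)) (.l
11)))) (.a (.b (.a (.b .z (.a .z (.l 11))) (.b (.a (.a .z (.l 11)) (.l 11)) (.l 11))) (.l 11)) (.l 11)))))) (.b (.b (.a (.b (.a (.b (.a .z (.b .z (.a
(.a .z (.l 11)) (.l 11)))) (.a (.b (.a .z (.l 11)) (.l 11)) (.l 11))) (.l 11)) (.l 11)) (.l 11)) (.l 11)) (.l 11)))) (.b (.b (.a (.l 19) (.a (.a (.l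
19) (.b (.a (.l 19) (.b (.a (.l 19) (.b .z (.l 19))) (.l 19))) (.l 19))) (.a (.b (.a (.b (.a .z (.b (.l 55) .z)) (.a (.b (.a (.l 19) .z) (.l 19)) (.b
.z (.a (.l 19) .z)))) (.b (.b (.l 55) .z) .z)) (.a (.l 19) (.b (.a (.b .z (.l 19)) .z) (.a (.l 19) (.b (.a (.l 19) .z) (.l 19)))))) (.b (.b (.b (.l
55) .z) (.l 133)) (.a (.b (.l 133) .z) (.l 133)))))) (.b (.a (.b (.l 19) (.a (.b (.a (.b (.l 19) (.a .z (.b (.l 19) .z))) (.l 19)) (.a (.b (.a (.l 25)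
.z) (.l 25)) (.b (.a (.b (.l 19) .z) (.l 19)) (.a (.b .z (.l 25)) .z)))) (.l 19))) (.a (.l 19) (.a (.l 19) (.a (.b (.a (.l 19) (.b .z (.a (.l 19)
.z))) (.l 19)) (.b .z (.a (.b .z (.l 19)) .z)))))) (.a (.b (.a (.b (.a (.l 25) (.b (.a (.l 25) (.b .z (.l 25))) (.l 25))) (.l 25)) (.b (.a (.b (.a .z
(.b (.l 19) .z)) (.a (.l 25) .z)) (.b (.l 19) (.a (.b (.l 19) .z) (.l 19)))) (.a (.l 25) (.b (.a .z (.b (.l 19) .z)) (.a (.l 25) (.b .z (.l 25)))))))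
(.l 25)) (.b (.a (.b (.l 19) (.a (.b (.l 19) (.a .z (.l 19))) (.l 19))) (.a (.l 19) (.a (.l 19) (.a (.l 19) (.b (.a (.l 19) .z) (.l 19)))))) (.a (.b
(.a (.b (.a (.b .z (.l 25)) .z) (.a (.l 25) (.b .z (.l 25)))) (.b (.l 19) (.a .z (.l 19)))) (.a (.l 25) (.b (.a (.b .z (.l 25)) .z) (.a (.l 25) (.b .z
(.l 25)))))) (.b (.l 19) (.a (.b (.l 19) (.a .z (.l 19))) (.l 19)))))))) (.a (.b (.b (.l 25) (.b (.b (.a (.l 25) (.b (.l 25) (.a (.b (.l 25) (.a (.l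
25) .z)) (.b (.a (.l 25) .z) (.a .z (.a .z (.l 11))))))) (.a (.b (.a (.l 25) (.b (.l 25) (.a (.l 25) .z))) (.a (.b (.a (.l 25) .z) .z) (.b (.a .z (.a
.z (.l 11))) (.l 11)))) (.b (.a (.b .z (.a .z (.l 11))) (.l 11)) (.l 11)))) (.b (.a (.b (.a (.b (.a (.a .z (.l 11)) (.l 11)) (.l 11)) (.l 11)) (.l
11)) (.l 11)) (.l 11)))) (.l 11)) (.b (.a (.b (.b (.l 25) (.b (.l 25) (.b (.l 25) (.a (.l 25) (.b (.l 25) .z))))) (.b (.b (.b (.a (.b (.a (.l 25) .z)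
.z) (.b (.a .z (.l 11)) (.l 11))) (.a (.b (.a (.a .z (.l 11)) (.l 11)) (.l 11)) (.l 11))) (.l 11)) (.l 11))) (.b (.b (.a (.b (.a (.b (.a (.l 25) .z)
(.l 25)) (.b .z (.a (.l 25) .z))) (.l 25)) (.b (.a (.b (.l 19) .z) (.l 19)) (.a (.b (.a (.l 25) .z) (.l 25)) (.b .z (.a (.l 25) .z))))) (.b (.b (.l
25) (.a (.l 25) (.b (.l 25) (.a (.l 25) .z)))) (.b (.a (.b (.l 25) (.a (.l 25) .z)) (.b .z (.a .z (.l 11)))) (.a (.b (.a .z (.a .z (.l 11))) (.a (.a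
.z (.l 11)) (.l 11))) (.l 11))))) (.a (.l 11) (.b (.a (.l 11) (.b (.l 11) (.a (.b (.l 11) (.a (.l 11) .z)) .z))) (.a (.b (.a (.l 11) (.b (.l 11) (.a
(.l 11) .z))) (.a (.b (.a (.l 11) .z) .z) (.b .z (.l 20)))) (.b (.a .z (.l 20)) (.l 20))))))) (.a (.b (.a (.l 11) (.b (.l 11) (.a (.l 11) (.b (.l 11)
(.a (.l 11) (.b (.a (.l 11) .z) .z)))))) (.a (.b (.l 11) (.a (.l 11) (.b (.a (.l 11) (.b (.l 11) (.a (.l 11) .z))) (.a (.b (.a (.l 11) .z) .z) (.b .z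
(.l 11)))))) (.b (.a (.b (.a (.l 11) (.b (.l 11) (.a (.l 11) .z))) (.a (.b (.l 11) (.a (.l 11) .z)) .z)) (.b (.a (.b (.a (.l 11) .z) .z) (.b .z (.l
20))) (.l 20))) (.a (.b (.a .z (.l 20)) (.b (.b .z (.l 11)) (.l 11))) (.b (.l 20) (.b .z (.l 11))))))) (.b (.a (.b (.a (.b (.l 11) (.a (.l 11) (.b (.l
11) (.a (.l 11) .z)))) (.b (.a (.b (.l 11) (.a (.l 11) .z)) (.b (.a (.l 11) .z) .z)) (.a .z (.l 20)))) (.a (.b (.a (.b (.l 11) .z) .z) (.a (.b .z (.l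
20)) (.l 20))) (.l 20))) (.b (.a (.b (.a (.b .z (.l 20)) (.l 20)) (.l 20)) (.l 20)) (.l 20))) (.b (.l 20) (.b (.l 20) (.b (.b (.l 20) (.a .z (.l 20)))
(.a (.b (.a (.l 11) .z) (.l 11)) (.b .z (.a (.l 11) .z))))))))))))

theorem vQ226 : ev Q226 I5_22 I5_26 = 857349011479603 := by decide +kernel

noncomputable def Q260 : QT :=
(.a (.b (.b (.b (.a (.a (.b .z (.a (.b (.a (.b .z (.l 49)) (.b .z (.l 49))) (.l 49)) (.a (.l 49) (.b (.l 49) (.a (.l 49) .z))))) (.a (.b (.a (.b .z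
(.b .z (.l 49))) .z) (.a .z (.b .z (.l 81)))) (.b (.a .z (.l 81)) (.l 81)))) (.b (.a (.b (.a (.l 81) .z) (.a (.a (.l 81) .z) .z)) .z) .z)) (.a (.b (.a
(.a (.l 49) (.a (.b (.a (.l 49) .z) .z) (.b .z (.l 81)))) (.a (.l 81) (.a (.b (.l 81) .z) .z))) (.a (.b (.a (.b (.a (.l 49) .z) .z) (.a .z (.l 81)))
(.a (.b (.a (.b .z (.a (.l 14) .z)) .z) (.a (.l 14) (.b (.a (.l 14) .z) (.l 14)))) (.b (.l 81) (.a (.b .z (.a (.l 14) .z)) .z)))) (.a (.a (.b (.l 81)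
.z) .z) .z))) .z)) (.a (.b (.b (.a (.b (.a (.l 14) (.b (.a (.l 14) (.b .z (.l 14))) (.l 14))) (.l 14)) (.b (.a (.b .z (.a (.b (.a (.l 14) .z) (.l 14))
(.b .z (.a (.l 14) .z)))) .z) (.a (.l 14) (.b (.a (.b .z (.l 14)) .z) (.a (.l 14) (.b (.a (.l 14) .z) (.l 14))))))) (.l 14)) (.a (.l 14) (.b (.l 14)
(.a (.l 14) (.b (.a (.l 14) (.b (.l 14) (.a (.b (.l 14) .z) .z))) (.a (.b (.a (.l 14) (.b (.l 14) .z)) .z) (.b (.a .z (.l 17)) (.l 17)))))))) (.b (.a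
(.b .z (.a (.b (.b (.a (.l 14) (.b .z (.a (.l 14) .z))) (.l 14)) (.l 14)) (.b (.b .z (.a (.b .z (.a (.l 14) .z)) .z)) (.a (.l 14) (.b (.a (.l 14) .z)
(.a (.b (.l 14) .z) .z)))))) (.b (.a .z (.b .z (.a (.b .z (.a .z (.l 17))) (.b (.a .z (.l 17)) (.l 17))))) (.a (.b (.a .z (.b .z (.a .z (.l 17)))) (.a
(.b .z (.l 17)) (.l 17))) (.l 17)))) (.a (.b (.a (.b (.a (.l 14) (.b (.l 14) (.a (.l 14) (.b (.l 14) .z)))) (.a (.b (.l 14) (.a (.l 14) (.b (.l 14)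
.z))) (.b (.a (.b (.l 14) .z) .z) (.a .z (.l 17))))) (.b (.a (.b (.a (.l 14) .z) .z) (.b (.a .z (.l 17)) (.l 17))) (.l 17))) (.a (.b (.a (.b .z (.a .z
(.l 17))) (.l 17)) (.l 17)) (.l 17))) (.l 17))))) (.a (.b (.b (.a (.b (.a (.l 14) (.b (.l 14) (.a (.l 14) (.b (.l 14) (.a (.l 14) .z))))) (.a (.b (.l
14) (.a (.b (.l 14) (.a (.l 14) (.b (.l 14) .z))) (.b (.a (.l 14) .z) .z))) (.b (.a (.b (.a (.l 14) (.b (.l 14) .z)) (.a (.b (.l 14) .z) .z)) (.b .z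
(.l 17))) (.a (.b (.a .z (.l 17)) (.l 17)) (.l 17))))) (.b (.a (.b (.a (.b (.l 14) (.a (.l 14) (.b (.l 14) .z))) (.b (.a (.l 14) .z) .z)) (.a (.b (.a
(.b (.l 14) .z) .z) (.a .z (.l 17))) (.l 17))) (.b (.a (.b (.a .z (.l 17)) (.l 17)) (.l 17)) (.l 17))) (.l 17))) (.a (.b (.a (.b (.a (.b (.a (.b (.l
14) .z) .z) (.a .z (.l 17))) (.l 17)) (.l 17)) (.l 17)) (.l 17)) (.l 17))) (.b (.b (.l 17) (.b (.l 17) (.b (.l 17) (.a (.l 17) (.b (.a (.l 17) (.a (.l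
17) .z)) .z))))) (.b (.b (.b (.a (.b (.a (.a (.l 17) .z) .z) (.a .z (.l 18))) (.b (.a (.a .z (.l 18)) (.l 18)) (.l 18))) (.l 18)) (.l 18)) (.l 18))))
(.b (.l 17) (.a (.b (.b (.l 17) (.b (.l 17) (.b (.b (.l 17) (.a (.a (.l 17) .z) .z)) (.b (.a .z (.l 18)) (.l 18))))) (.l 18)) (.b (.b (.l 17) (.b (.b
(.l 17) (.b (.l 17) (.a (.l 17) .z))) (.b (.b (.a .z (.a .z (.l 18))) (.a (.a .z (.l 18)) (.l 18))) (.l 18)))) (.a (.l 18) (.b (.l 18) (.a (.l 18) (.b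
(.a (.l 18) .z) (.a .z (.b .z (.l 18)))))))))))) (.b (.a (.b (.b (.a .z (.b (.a (.a .z (.a .z (.l 69))) .z) (.a (.b (.a .z (.l 69)) .z) (.b .z (.a .z
(.b .z (.b .z (.l 17)))))))) (.a (.b (.a .z (.b .z (.a .z (.b .z (.a .z (.l 17)))))) (.a (.b .z (.a .z (.b .z (.l 17)))) (.b (.a (.b .z (.a .z (.l
17))) (.l 17)) (.l 17)))) (.b (.a (.b (.a .z (.b (.a .z (.l 17)) (.l 17))) (.l 17)) (.l 17)) (.l 17)))) (.b (.a (.b (.a (.b (.a (.b (.a .z (.l 17))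
(.l 17)) (.l 17)) (.l 17)) (.l 17)) (.l 17)) (.l 17)) (.l 17))) (.b (.a (.b (.b (.a .z (.b (.a .z (.l 43)) (.a (.a .z (.l 43)) (.l 43)))) (.b (.a .z
(.b (.a (.l 43) .z) (.a .z (.b .z (.l 17))))) (.b (.a (.b .z (.a .z (.l 17))) (.l 17)) (.l 17)))) (.l 17)) (.b (.b (.b (.l 43) (.a (.b (.l 43) (.a (.l
43) .z)) (.b (.a (.l 43) .z) (.a .z (.b .z (.l 17)))))) (.b (.a (.b (.a .z (.b .z (.l 17))) (.l 17)) (.l 17)) (.l 17))) (.a (.l 17) (.b (.a (.l 17)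
(.b (.l 17) (.a (.l 17) (.b (.l 17) .z)))) (.a (.b (.a (.l 17) (.b (.l 17) .z)) (.a (.b (.l 17) .z) .z)) (.b (.a .z (.b .z (.l 31))) (.l 31))))))) (.a
(.b (.a (.l 17) (.b (.l 17) (.a (.l 17) (.b (.l 17) (.a (.b (.l 17) .z) .z))))) (.a (.b (.l 17) (.a (.b (.l 17) (.a (.l 17) (.b (.l 17) .z))) (.b (.a
(.b (.l 17) .z) .z) (.a .z (.l 31))))) (.b (.a (.b (.a (.l 17) (.b (.l 17) .z)) (.a .z (.b .z (.l 31)))) (.b (.a .z (.l 31)) (.l 31))) (.a (.b (.a (.b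
.z (.l 31)) (.l 31)) (.l 31)) (.l 31))))) (.b (.a (.b (.a (.b (.l 17) (.a (.l 17) (.b (.l 17) .z))) (.b (.a (.l 17) .z) (.a .z (.b .z (.l 31))))) (.a
(.b (.a (.b (.l 17) .z) .z) (.a (.b .z (.l 31)) (.l 31))) (.l 31))) (.b (.a (.b (.a (.b .z (.l 31)) (.l 31)) (.l 31)) (.l 31)) (.l 31))) (.l 31)))))
(.a (.b (.a (.b (.l 17) (.a (.l 17) (.b (.l 17) (.a (.l 17) (.b (.l 17) (.a (.l 17) (.b (.l 17) .z))))))) (.b (.a (.l 17) (.b (.a (.l 17) (.b (.l 17)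
(.a (.l 17) .z))) (.a (.b (.a (.l 17) (.b (.l 17) .z)) (.a (.b (.l 17) .z) .z)) (.b (.a .z (.b .z (.l 31))) (.b (.a .z (.l 31)) .z))))) (.a (.b (.a
(.l 17) (.b (.a (.l 17) .z) .z)) (.a (.b (.a (.b (.l 17) .z) .z) .z) .z)) .z))) (.a (.b (.a (.b (.l 17) (.a (.b (.b (.l 17) .z) (.l 18)) (.b (.a (.b
(.l 17) .z) (.b (.l 17) .z)) (.a (.b (.l 18) .z) .z)))) (.b (.a (.b (.l 17) (.a (.l 17) .z)) .z) .z)) (.a (.b (.a (.b (.a (.l 18) (.b (.l 18) .z)) (.a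
(.b (.l 18) .z) .z)) .z) (.a (.b (.a (.b .z (.l 18)) (.l 18)) (.l 18)) (.b (.l 18) (.b (.l 18) (.b (.l 18) .z))))) (.b (.b .z (.b .z (.b .z (.l 18))))
(.b (.b (.l 18) (.a (.l 18) (.b (.l 18) .z))) (.b (.a (.b (.l 18) .z) .z) (.a .z (.l 19))))))) (.b .z (.b (.b .z (.a (.b .z (.l 18)) (.b (.a (.b .z
(.l 18)) .z) (.a .z (.b .z (.l 19)))))) (.b (.a (.b (.a (.l 18) .z) (.a .z (.b .z (.l 19)))) (.b (.a (.b .z (.l 19)) (.l 19)) (.l 19))) (.l 19))))))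
(.b (.a (.b (.a (.b (.a (.b (.a .z (.b .z (.l 31))) (.a (.b .z (.l 31)) (.l 31))) (.l 31)) (.b (.l 31) (.a (.b (.l 31) (.a .z (.l 31))) (.l 31)))) (.l
31)) (.b (.a (.b (.a .z (.b (.a .z (.l 31)) .z)) .z) (.b (.l 31) (.a (.b (.a .z (.l 31)) .z) (.b (.l 31) (.a .z (.l 31)))))) (.a .z (.b .z (.l
113))))) (.b (.l 31) (.b (.l 31) (.a (.b (.a (.b (.l 31) (.a .z (.l 31))) (.l 31)) (.a .z (.b (.a .z (.l 31)) .z))) (.l 31))))) (.b (.a (.b .z (.b .z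
(.a .z (.b .z (.a .z (.b .z (.l 19))))))) (.b (.a (.b (.a .z (.b .z (.l 64))) .z) (.b (.a (.b (.a .z (.l 31)) .z) (.l 31)) (.a .z (.b .z (.a .z (.l
19)))))) (.a (.b (.a .z (.b .z (.a .z (.l 19)))) (.a (.b (.a .z (.l 19)) (.l 19)) (.l 19))) (.b (.a (.b (.a .z (.l 19)) (.l 19)) (.l 19)) (.l 19)))))
(.b (.a (.b (.a (.b .z (.a .z (.b .z (.l 19)))) (.b (.a (.b .z (.l 19)) (.l 19)) (.l 19))) (.a (.b (.a (.b .z (.l 19)) (.l 19)) (.l 19)) (.l 19))) (.l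
19)) (.l 19)))))))

theorem vQ260 : ev Q260 I5_25 I5_28 = 692841350588073 := by decide +kernel

noncomputable def Q149 : QT :=
(.b (.b (.a (.b (.a (.l 6) (.b (.a (.l 6) (.b (.a (.l 6) (.b (.a (.l 6) (.b (.a (.b .z (.a (.l 6) .z)) (.b (.l 29) .z)) (.a (.l 6) (.b .z (.a (.l 6)
.z))))) (.l 6))) (.l 6))) (.l 6))) (.l 6)) (.a (.b (.a (.b (.a (.b (.b (.a (.b (.l 29) (.a (.b (.l 29) .z) (.l 29))) (.l 29)) (.a (.a (.b (.b .z (.a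
(.l 6) .z)) (.l 6)) (.b (.b (.l 29) .z) (.a (.b .z (.l 6)) .z))) (.a (.b (.l 29) (.a .z (.l 29))) (.l 29)))) (.a (.l 6) (.b (.a (.b (.a (.b .z (.l 6))
.z) (.l 6)) (.b (.a .z (.l 29)) (.a (.b .z (.l 6)) .z))) (.l 6)))) (.b (.l 29) (.a (.b (.a (.b (.l 29) (.a .z (.l 29))) (.l 29)) (.a (.b (.a (.b .z
(.l 6)) .z) (.l 6)) (.b (.a .z (.l 29)) (.a (.b .z (.l 6)) .z)))) (.b (.l 29) (.a (.b (.l 29) (.a .z (.l 29))) (.l 29)))))) (.a (.l 6) (.b (.a (.l 6)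
(.b (.a (.b (.a (.b .z (.l 6)) .z) (.l 6)) (.b (.a .z (.l 29)) (.a (.b .z (.a (.l 6) .z)) .z))) (.a (.l 6) (.b (.a (.l 6) (.b (.a (.l 6) .z) (.l 6)))
(.l 6))))) (.l 6)))) (.b (.l 29) (.a (.b (.a (.b (.l 29) (.a (.b (.a (.b .z (.a (.l 6) .z)) .z) (.a (.l 6) (.b (.a (.l 6) .z) (.l 6)))) (.b (.l 29)
(.a (.b .z (.a (.l 6) .z)) .z)))) (.l 29)) (.a (.b (.a (.l 6) (.b (.a (.l 6) (.b (.a (.l 6) .z) (.l 6))) (.l 6))) (.l 6)) (.b (.a (.b .z (.a (.l 6)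
(.b .z (.l 6)))) (.b (.l 29) .z)) (.a (.l 6) (.b (.a (.l 6) (.b .z (.a (.l 6) .z))) (.l 6)))))) (.b (.l 29) (.a (.b (.l 29) (.a (.b (.a .z (.l 29))
(.a (.b (.a (.l 6) .z) (.l 6)) (.b .z (.a (.l 6) .z)))) (.b (.l 29) (.a .z (.l 29))))) (.l 29)))))) (.a (.l 6) (.b (.a (.l 6) (.b (.a (.b (.a (.l 6)
(.b (.a (.b (.a (.l 6) .z) (.l 6)) .z) (.l 6))) (.l 6)) (.b (.a (.b (.a .z (.l 29)) (.a (.b .z (.l 6)) .z)) (.l 29)) (.a (.b (.a (.l 6) (.b (.a (.l 6)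
.z) (.l 6))) (.l 6)) (.b (.a (.b .z (.a (.l 6) .z)) .z) (.a (.l 6) (.b (.a (.l 6) .z) (.l 6))))))) (.l 6))) (.l 6)))) (.b (.l 29) (.a (.b (.a (.b (.a
(.b (.l 29) (.a (.b (.l 29) .z) (.l 29))) (.l 29)) (.a (.b (.a (.b (.a (.l 6) (.b .z (.l 6))) (.l 6)) (.b (.a .z (.l 29)) (.a (.b (.a (.l 6) .z) (.l
6)) (.b .z (.a (.l 6) .z))))) (.l 6)) (.b (.a (.b (.l 29) (.a .z (.l 29))) (.l 29)) (.a (.b (.a (.b (.a (.l 6) .z) (.l 6)) .z) (.l 6)) (.b (.a .z (.l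
29)) (.a (.b .z (.a (.l 6) .z)) .z)))))) (.l 29)) (.a (.b (.a (.l 6) (.b (.a (.l 6) (.b (.a (.l 6) (.b (.a (.l 6) .z) (.l 6))) (.l 6))) (.l 6))) (.l
6)) (.b (.a (.b (.a (.b .z (.a (.l 6) (.b .z (.l 6)))) (.b (.l 29) (.a .z (.l 29)))) (.a (.l 6) (.b (.a (.b (.a (.l 6) .z) (.l 6)) (.b .z (.a (.l 6)
.z))) (.l 6)))) (.b (.l 29) (.a (.b (.a .z (.l 29)) (.a (.b .z (.l 6)) .z)) (.l 29)))) (.a (.l 6) (.b (.a (.b (.a (.l 6) (.b (.a (.l 6) .z) (.l 6)))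
(.l 6)) (.b (.a (.b .z (.a (.l 6) .z)) .z) (.a (.l 6) (.b .z (.l 6))))) (.l 6)))))) (.b (.l 29) (.a (.b (.l 29) (.a (.b (.a (.b (.l 29) (.a .z (.l
29))) (.l 29)) (.a (.b (.a (.b (.a (.l 6) .z) (.l 6)) (.b .z (.a (.l 6) .z))) (.l 6)) (.b (.a .z (.l 29)) (.a (.b .z (.l 6)) .z)))) (.l 29))) (.l
29))))))) (.a (.b (.l 6) (.a (.l 6) (.b (.l 6) (.a (.l 6) (.b (.l 6) (.a (.l 6) (.b (.l 6) (.a (.l 6) (.b (.l 6) (.a (.b (.l 6) (.a (.l 6) (.a (.l 6)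
.z))) (.b (.a (.l 6) .z) (.a .z (.a .z (.l 7)))))))))))))) (.b (.a (.l 6) (.b (.a (.l 6) (.a (.b (.a (.b (.a (.l 6) (.b (.a (.l 6) (.b (.a (.l 6) .z)
(.l 6))) (.l 6))) (.l 6)) (.b (.a (.b .z (.a (.l 6) (.b .z (.a (.l 6) .z)))) (.b (.l 29) (.a .z (.l 29)))) (.a (.l 6) (.b (.a (.b (.a (.l 6) .z) (.l
6)) .z) (.l 6))))) (.l 6)) (.b (.a (.b (.l 29) (.a (.b (.a .z (.l 29)) (.a (.b .z (.a (.l 6) .z)) .z)) (.l 29))) (.l 29)) (.a (.b (.a (.b (.a (.l 6)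
(.b .z (.l 6))) (.l 6)) (.b (.a .z (.l 29)) (.a (.b (.a (.l 6) .z) (.l 6)) .z))) (.l 6)) (.b (.a (.b (.l 29) (.a .z (.l 29))) (.l 29)) (.a (.b (.a (.b
.z (.a (.l 6) .z)) .z) (.a (.l 6) (.b (.a (.l 6) .z) (.l 6)))) (.b (.l 29) (.a .z (.l 29))))))))) (.a (.b (.l 6) (.a (.l 6) (.b (.l 6) (.a (.l 6) (.b
(.a (.l 6) (.b (.l 6) (.a (.l 6) .z))) (.a (.b (.l 6) (.a (.a (.l 6) .z) .z)) (.b (.a .z (.a .z (.l 7))) (.a (.a .z (.l 7)) (.l 7))))))))) (.b (.a (.b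
(.l 6) (.a (.l 6) (.b (.l 6) (.a (.l 6) (.b (.l 6) (.a (.l 6) (.a (.l 6) .z))))))) (.b (.a (.l 6) (.b (.a (.l 6) (.b (.a (.a (.l 6) .z) .z) (.a (.l 6)
(.a (.l 6) .z)))) (.a (.b (.l 6) (.a (.a (.l 6) .z) .z)) (.b .z (.a (.a .z (.l 7)) (.l 7)))))) (.a (.b (.a (.l 6) (.b (.a (.l 6) (.a (.l 6) .z)) .z))
(.a (.b (.a (.a (.l 6) .z) .z) (.a .z (.l 7))) (.b (.a (.a .z (.l 7)) (.l 7)) (.l 7)))) (.b (.a (.b (.a .z (.l 7)) (.l 7)) (.l 7)) (.l 7))))) (.a (.b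
(.a (.b (.l 6) (.a (.l 6) (.b (.a (.l 6) (.a (.l 6) .z)) .z))) (.b (.a (.b (.l 6) (.a (.a (.l 6) .z) .z)) (.b .z (.a (.a .z (.l 7)) (.l 7)))) (.a (.b
(.a .z (.l 7)) (.l 7)) (.l 7)))) (.a (.b (.a (.b (.a (.a (.l 6) .z) .z) (.a .z (.l 7))) (.b (.a (.a .z (.l 7)) (.l 7)) (.l 7))) (.l 7)) (.l 7))) (.l
7)))))) (.a (.b (.a (.l 6) (.b (.l 6) (.a (.b (.l 6) (.a (.l 6) (.b (.l 6) (.a (.b (.l 6) (.a (.l 6) (.a (.l 6) .z))) (.b (.a (.l 6) .z) (.a .z (.a .z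
(.l 7)))))))) (.b (.a (.b (.l 6) (.a (.l 6) (.b (.l 6) (.a (.l 6) (.a (.l 6) .z))))) (.b (.a (.l 6) (.b (.a (.l 6) (.a (.l 6) .z)) (.a (.a (.l 6) .z)
.z))) (.a (.b (.a (.l 6) .z) (.a .z (.a .z (.l 7)))) (.b (.a .z (.l 7)) (.l 7))))) (.a (.b (.a (.b (.l 6) (.a (.a (.l 6) .z) .z)) (.b .z (.a (.a .z
(.l 7)) (.l 7)))) (.a (.b (.a .z (.l 7)) (.l 7)) (.l 7))) (.l 7)))))) (.a (.b (.a (.l 6) (.b (.a (.l 6) (.b (.l 6) (.a (.l 6) (.b (.l 6) (.a (.l 6)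
(.a (.l 6) .z)))))) (.a (.b (.l 6) (.a (.l 6) (.b (.a (.l 6) (.a (.l 6) .z)) .z))) (.b (.a (.b (.l 6) (.a (.l 6) .z)) (.b .z (.a (.a .z (.l 7)) (.l
7)))) (.a (.b (.a .z (.a .z (.l 7))) (.l 7)) (.l 7)))))) (.a (.b (.a (.b (.l 6) (.a (.l 6) (.b (.l 6) (.a (.l 6) (.a (.l 6) .z))))) (.b (.a (.l 6) (.b
(.l 6) (.a (.a (.l 6) .z) .z))) (.a (.b (.a (.l 6) .z) (.a .z (.a .z (.l 7)))) (.b (.a .z (.l 7)) (.l 7))))) (.a (.b (.a (.b (.l 6) (.a (.a (.l 6) .z)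
.z)) (.b .z (.a (.a .z (.l 7)) (.l 7)))) (.a (.b (.a .z (.l 7)) (.l 7)) (.l 7))) (.l 7))) (.b (.a (.b (.a (.b .z (.a (.a .z (.l 7)) (.l 7))) (.b (.a
(.a .z (.l 7)) (.l 7)) (.l 7))) (.l 7)) (.l 7)) (.l 7)))) (.b (.a (.b (.a (.b (.a (.l 6) (.b (.l 6) (.a (.a (.l 6) .z) .z))) (.a (.b (.a (.l 6) .z)
(.a .z (.a .z (.l 7)))) (.b (.a .z (.l 7)) (.l 7)))) (.b (.a (.b .z (.a (.a .z (.l 7)) (.l 7))) (.l 7)) (.l 7))) (.l 7)) (.l 7)) (.l 7)))) (.b (.a (.b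
(.a (.b (.a (.l 6) (.b (.l 6) (.a (.l 6) (.b (.l 6) (.a (.l 6) .z))))) (.a (.b (.l 6) (.a (.b (.l 6) (.a (.l 6) .z)) (.b (.a (.a (.l 6) .z) .z) (.a .z
(.l 7))))) (.b (.a (.b (.a (.l 6) (.a (.l 6) .z)) .z) (.b (.a .z (.a .z (.l 7))) (.l 7))) (.a (.b (.a (.a .z (.l 7)) (.l 7)) (.l 7)) (.l 7))))) (.b
(.a (.b (.a (.b (.l 6) (.a (.l 6) (.a (.l 6) .z))) (.b (.a (.l 6) .z) (.a .z (.a .z (.l 7))))) (.a (.b .z (.a (.a .z (.l 7)) (.l 7))) (.l 7))) (.b (.a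
(.b (.a .z (.l 7)) (.l 7)) (.l 7)) (.l 7))) (.l 7))) (.a (.b (.a (.b (.a (.b (.a .z (.a .z (.l 7))) (.l 7)) (.l 7)) (.l 7)) (.l 7)) (.l 7)) (.l 7)))
(.l 7)) (.l 7)))))) (.b (.a (.b (.a (.b (.l 6) (.a (.b (.l 6) (.a (.l 6) (.b (.l 6) (.a (.b (.l 6) (.a (.b (.l 6) (.a (.l 6) .z)) (.b (.a (.a (.l 6)
.z) .z) (.a .z (.l 7))))) (.b (.a (.b (.l 6) (.a (.a (.l 6) .z) .z)) (.b .z (.a (.a .z (.l 7)) (.l 7)))) (.a (.b (.a .z (.l 7)) (.l 7)) (.l 7)))))))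
(.b (.a (.b (.l 6) (.a (.l 6) (.b (.l 6) (.a (.l 6) (.b (.l 6) (.a (.a (.l 6) .z) .z)))))) (.b (.a (.l 6) (.b (.l 6) (.a (.b (.l 6) (.a (.l 6) (.a (.l
6) .z))) (.b (.a (.l 6) .z) (.a .z (.a .z (.l 7))))))) (.a (.b (.a (.l 6) (.b (.l 6) .z)) (.a (.b (.a (.a (.l 6) .z) .z) (.a .z (.l 7))) (.b (.a (.a
.z (.l 7)) (.l 7)) (.l 7)))) (.b (.a (.b .z (.a (.a .z (.l 7)) (.l 7))) (.l 7)) (.l 7))))) (.a (.b (.a (.b (.a (.l 6) (.b (.l 6) (.a (.l 6) (.a (.l 6)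
.z)))) (.a (.b (.a (.l 6) (.a (.l 6) .z)) .z) (.b .z (.l 7)))) (.b (.a (.b (.a (.l 6) .z) (.a .z (.a .z (.l 7)))) (.b (.a .z (.l 7)) (.l 7))) (.l 7)))
(.a (.b (.a (.b (.a (.a .z (.l 7)) (.l 7)) (.l 7)) (.l 7)) (.l 7)) (.l 7))) (.l 7))))) (.b (.a (.b (.l 6) (.a (.b (.l 6) (.a (.l 6) (.b (.a (.l 6) (.b
(.l 6) (.a (.l 6) (.a (.l 6) .z)))) (.a (.b (.a (.l 6) (.a (.l 6) .z)) .z) (.b .z (.l 7)))))) (.b (.a (.b (.l 6) (.a (.l 6) (.b (.l 6) (.a (.a (.l 6)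
.z) .z)))) (.b (.a (.l 6) (.b (.a (.l 6) (.a (.l 6) .z)) .z)) (.a (.b .z (.a (.a .z (.l 7)) (.l 7))) (.b (.a (.a .z (.l 7)) (.l 7)) (.l 7))))) (.a (.b
(.a (.b (.a (.l 6) .z) (.a .z (.a .z (.l 7)))) (.b (.a .z (.l 7)) (.l 7))) (.l 7)) (.l 7))))) (.b (.a (.b (.a (.l 6) (.b (.l 6) (.a (.l 6) (.b (.l 6)
(.a (.l 6) (.a (.l 6) .z)))))) (.a (.b (.l 6) (.a (.b (.l 6) (.a (.l 6) .z)) (.b (.a (.a (.l 6) .z) .z) (.a .z (.l 7))))) (.b (.a (.b (.a (.l 6) (.a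
(.l 6) .z)) .z) (.b .z (.l 7))) (.a (.b (.a (.a .z (.l 7)) (.l 7)) (.l 7)) (.l 7))))) (.b (.a (.b (.a (.l 6) (.b (.l 6) (.a (.a (.l 6) .z) .z))) (.a
(.b (.a (.l 6) .z) (.a .z (.a .z (.l 7)))) (.b (.a .z (.l 7)) (.l 7)))) (.b (.a (.b .z (.a (.a .z (.l 7)) (.l 7))) (.l 7)) (.l 7))) (.l 7))) (.a (.b
(.a (.b (.a (.b (.a .z (.a .z (.l 7))) (.l 7)) (.l 7)) (.l 7)) (.l 7)) (.l 7)) (.l 7)))) (.a (.b (.a (.b (.a (.b (.a (.b (.l 6) (.a (.l 6) .z)) (.b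
(.a (.a (.l 6) .z) .z) (.a .z (.l 7)))) (.a (.b (.a .z (.a .z (.l 7))) (.l 7)) (.l 7))) (.b (.a (.b (.a (.a .z (.l 7)) (.l 7)) (.l 7)) (.l 7)) (.l
7))) (.l 7)) (.l 7)) (.l 7)) (.l 7)))) (.a (.b (.a (.b (.a (.b (.a (.b (.l 6) (.a (.l 6) (.b (.a (.l 6) (.a (.l 6) .z)) .z))) (.b (.a (.b (.l 6) (.a
(.l 6) (.a (.l 6) .z))) (.b (.a (.l 6) .z) (.a .z (.a .z (.l 7))))) (.a (.b .z (.l 7)) (.l 7)))) (.a (.b (.a (.b .z (.a (.a .z (.l 7)) (.l 7))) (.b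
(.a (.a .z (.l 7)) (.l 7)) (.l 7))) (.l 7)) (.l 7))) (.b (.a (.b (.a (.b (.a .z (.a .z (.l 7))) (.l 7)) (.l 7)) (.l 7)) (.l 7)) (.l 7))) (.l 7)) (.l
7)) (.l 7)) (.l 7))) (.l 7)) (.b (.b (.l 7) (.a (.b (.l 7) (.a (.b (.l 7) (.a (.b (.a (.b (.a (.a (.a .z (.a .z (.l 7))) (.l 7)) (.l 7)) (.a (.a (.a
(.l 9) .z) .z) (.a (.a .z (.a .z (.l 7))) (.l 7)))) (.l 7)) (.a (.b (.a (.l 9) (.a (.a (.l 9) .z) .z)) (.l 9)) (.b (.a (.a (.a .z (.a .z (.l 7))) (.l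
7)) (.l 7)) (.a (.a (.a (.l 9) .z) .z) (.a (.a .z (.a .z (.l 7))) (.l 7)))))) (.l 7))) (.l 7))) (.l 7))) (.a (.b (.a (.b (.a (.b (.a (.l 9) (.b (.a
(.l 9) (.b (.a (.a (.l 9) .z) .z) (.l 9))) (.l 9))) (.l 9)) (.b (.a (.b (.a (.b (.a (.a .z (.a .z (.l 7))) (.l 7)) (.a (.a (.l 9) .z) .z)) (.b (.l 7)
(.a (.a .z (.a .z (.l 7))) (.l 7)))) (.a (.l 9) (.b (.a (.a (.l 9) .z) .z) (.l 9)))) (.b (.l 7) (.a (.b (.a (.a .z (.a .z (.l 7))) (.l 7)) (.a (.a (.l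
9) .z) .z)) (.b (.l 7) (.a (.a .z (.a .z (.l 7))) (.l 7)))))) (.a (.l 9) (.b (.a (.l 9) (.b (.a (.a (.l 9) .z) .z) (.l 9))) (.l 9))))) (.l 9)) (.b (.a
(.b (.l 7) (.a (.b (.a (.b (.a (.a .z (.l 7)) (.l 7)) .z) (.b (.l 7) (.a (.a (.a .z (.l 7)) (.l 7)) (.l 7)))) (.a (.l 9) (.b .z (.l 9)))) (.b (.l 7)
(.a (.b (.a (.a (.a .z (.l 7)) (.l 7)) (.l 7)) .z) (.l 7))))) (.l 7)) (.a (.b (.a (.l 9) (.b (.a (.b (.a (.l 9) (.a (.l 9) .z)) (.l 9)) (.b (.a .z (.a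
.z (.a .z (.l 7)))) (.a (.l 9) (.a (.l 9) .z)))) (.l 9))) (.l 9)) (.b (.a (.b (.a (.b (.l 7) (.a .z (.a .z (.l 7)))) (.l 7)) (.a (.b (.a (.l 9) .z)
(.l 9)) (.b (.a .z (.a (.a .z (.l 7)) (.l 7))) (.a (.l 9) .z)))) (.b (.l 7) (.a (.b (.l 7) (.a .z (.l 7))) (.l 7)))) (.a (.l 9) (.b (.a (.b (.a (.a
(.l 9) .z) .z) (.l 9)) (.b (.a (.a .z (.l 7)) (.l 7)) .z)) (.l 9))))))) (.l 9)) (.b (.a (.b (.l 7) (.a (.b (.l 7) (.a (.b (.a (.b (.l 7) (.a (.a (.a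
.z (.l 7)) (.l 7)) (.l 7))) (.l 7)) (.a (.b (.a .z (.a .z (.a .z (.l 7)))) (.a (.l 9) (.a (.l 9) .z))) (.b (.l 7) (.a .z (.a .z (.l 7)))))) (.l 7)))
(.l 7))) (.l 7)) (.a (.b (.a (.b (.a (.b (.a (.l 9) (.b (.a (.l 9) .z) (.l 9))) (.l 9)) (.b (.a (.b (.a .z (.l 7)) (.a (.a (.l 9) .z) .z)) (.b (.l 7)
(.a (.a .z (.l 7)) (.l 7)))) (.a (.l 9) (.b .z (.a (.l 9) (.a (.l 9) .z)))))) (.l 9)) (.b (.a (.b (.l 7) (.a (.b (.l 7) (.a .z (.a .z (.a .z (.l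
7))))) (.l 7))) (.l 7)) (.a (.b (.a (.b (.a (.l 9) (.a (.l 9) .z)) (.l 9)) (.b (.a .z (.a (.a .z (.l 7)) (.l 7))) (.a (.l 9) .z))) (.l 9)) (.b (.a (.b
(.l 7) (.a (.a .z (.a .z (.l 7))) (.l 7))) (.l 7)) (.a (.b (.a (.a (.l 9) .z) .z) (.a (.l 9) (.a (.l 9) .z))) (.b (.l 7) (.a .z (.a .z (.l 7)))))))))
(.a (.l 9) (.b (.a (.l 9) (.b (.a (.l 9) (.b (.a (.l 9) .z) (.l 9))) (.l 9))) (.l 9)))) (.b (.l 7) (.a (.b (.a (.b (.a (.b (.a .z (.l 7)) (.a (.a (.l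
9) .z) .z)) (.b (.l 7) (.a (.a .z (.l 7)) (.l 7)))) (.a (.l 9) (.b (.a .z (.a .z (.a .z (.l 7)))) (.a (.l 9) (.a (.l 9) .z))))) (.b (.l 7) (.a (.b (.l
7) (.a .z (.a (.a .z (.l 7)) (.l 7)))) (.l 7)))) (.a (.l 9) (.b (.a (.b (.a (.l 9) .z) (.l 9)) (.b (.a (.a .z (.l 7)) (.l 7)) .z)) (.a (.l 9) (.b (.a
(.l 9) (.a (.l 9) .z)) (.l 9)))))) (.b (.l 7) (.a (.b (.l 7) (.a (.b (.a .z (.a (.a .z (.l 7)) (.l 7))) (.a (.l 9) .z)) (.b (.l 7) (.a (.a .z (.l 7))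
(.l 7))))) (.l 7)))))))))))

theorem vQ149 : ev Q149 I4_7 I4_12 = 3849489993669808 := by decide +kernel

noncomputable def Q98 : QT :=
(.b (.b (.b (.b (.l 27) (.a (.l 27) (.b (.l 27) (.a (.b (.l 27) (.a (.l 27) .z)) (.b (.a (.a (.l 27) .z) .z) (.a (.a .z (.a .z (.l 30))) (.l 30)))))))
(.b (.a (.b (.a (.b (.l 27) (.a (.l 27) (.a (.l 27) .z))) (.b (.a (.l 27) (.a (.a (.l 27) .z) .z)) (.a .z (.a .z (.l 30))))) (.a (.b (.a .z (.a .z (.a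
.z (.l 30)))) (.a (.l 32) (.a (.a (.l 32) .z) .z))) (.l 30))) (.b (.a (.b (.a .z (.a (.a .z (.l 30)) (.l 30))) (.l 30)) (.l 30)) (.l 30))) (.a (.a (.a
(.l 32) (.b (.a (.l 32) (.b (.a (.l 32) .z) (.l 32))) (.l 32))) (.a (.b (.a (.b (.a .z (.l 30)) .z) (.l 30)) (.a (.b (.a (.l 32) .z) (.l 32)) (.b (.a
.z (.l 30)) .z))) (.b (.l 30) (.a (.b (.l 30) (.a .z (.l 30))) (.l 30))))) (.l 30)))) (.a (.b (.a (.a (.l 32) (.b (.l 32) (.a (.b (.l 32) (.a (.l 32)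
(.b (.l 32) .z))) (.b (.a (.l 32) (.b (.l 32) .z)) .z)))) (.b (.a (.a (.b (.l 32) (.a (.l 32) (.b (.l 32) .z))) (.b (.a (.l 32) (.b (.l 32) .z)) .z))
(.b (.a .z (.b (.l 30) (.a .z (.l 30)))) (.a (.l 35) .z))) (.a (.a (.b .z (.l 35)) (.l 35)) (.l 35)))) (.a (.a (.b (.a (.l 32) (.b (.a (.l 32) (.b (.l
32) .z)) (.a (.b (.l 32) .z) .z))) (.a (.b (.a (.b (.l 32) .z) .z) (.a .z (.l 35))) (.b (.a .z (.l 35)) (.l 35)))) (.b (.a (.b .z (.l 35)) (.l 35))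
(.l 35))) (.l 35))) (.b (.a (.b (.a (.b (.l 30) (.a (.b (.l 30) (.a .z (.l 30))) (.l 30))) (.l 30)) (.a (.b (.a .z (.b (.l 30) .z)) (.a (.l 35) (.b .z
(.l 35)))) (.b (.l 30) (.a (.b (.a .z (.l 30)) .z) (.l 30))))) (.b (.l 30) (.a (.l 30) (.a (.b (.l 30) (.a (.b (.l 30) .z) .z)) (.b (.a (.b (.l 30)
.z) .z) .z))))) (.a (.b (.a (.l 35) (.b (.a (.b .z (.l 35)) (.b (.a .z (.l 30)) .z)) (.a (.l 35) (.b .z (.l 35))))) (.a (.l 35) (.b (.a (.l 35) (.a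
(.l 35) .z)) (.a (.b (.l 35) .z) .z)))) (.a (.b (.a (.b (.l 30) (.a .z (.b (.l 30) .z))) (.b (.a (.b (.l 30) .z) .z) .z)) (.a (.b .z (.l 38)) (.b .z
(.b .z (.l 38))))) .z))))) (.a (.b (.b (.a (.l 35) (.b (.l 35) (.a (.l 35) (.b (.a (.l 35) (.b (.l 35) .z)) (.a (.b (.l 35) .z) .z))))) (.a (.b (.l
35) (.a (.l 35) (.b (.a (.l 35) .z) .z))) (.a (.b (.b (.a (.l 35) .z) .z) (.b .z (.b (.a .z (.l 38)) (.a .z (.l 38))))) (.b (.a .z (.b .z (.a .z (.l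
38)))) (.b (.b (.a .z (.l 38)) .z) (.a (.l 38) .z)))))) (.a (.b (.b (.a (.b (.a (.l 35) .z) (.a .z (.b .z (.l 43)))) (.b (.a (.b .z (.l 43)) (.l 43))
(.l 43))) (.a (.b (.a (.b .z (.l 40)) (.a .z (.l 43))) (.a (.l 40) .z)) (.l 43))) (.b (.a (.a (.l 40) (.b (.a (.l 40) .z) (.l 40))) (.a (.b (.a .z (.l
43)) .z) (.l 43))) (.a (.l 40) (.b (.a (.a (.l 40) .z) (.a .z (.l 43))) (.a (.l 40) .z))))) (.b (.b (.a (.b (.a (.b .z (.l 43)) .z) (.l 43)) (.b (.a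
.z (.b .z (.l 41))) (.a .z (.b (.l 41) .z)))) (.a (.l 43) (.b (.a (.l 43) (.b .z (.l 43))) (.a (.l 43) (.b (.l 43) .z))))) (.b (.a (.b (.l 43) (.a (.l
43) .z)) (.b (.a (.b (.l 43) .z) .z) (.a .z (.b (.l 36) .z)))) (.a (.b (.a .z (.b .z (.l 38))) (.a (.b .z (.l 38)) (.l 38))) (.b (.a (.l 38) .z) (.l
38))))))) (.b (.a (.b (.a (.b (.b (.a (.l 35) (.b (.l 35) .z)) (.a (.b (.l 35) .z) .z)) (.a (.b .z (.a .z (.l 38))) (.l 38))) (.b (.a (.b .z (.l 38))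
(.l 38)) (.l 38))) (.b (.l 38) (.a (.b (.b .z (.a .z (.l 41))) (.a (.b .z (.l 41)) (.l 41))) (.b (.b .z (.l 41)) (.a (.l 41) (.b (.l 41) .z)))))) (.b
(.a (.l 38) (.b (.a (.b (.b .z (.l 38)) (.l 38)) (.b .z (.a (.l 38) .z))) (.a (.l 38) (.a (.b (.l 38) .z) .z)))) (.b (.a (.b (.l 38) (.b (.l 38) .z))
(.b (.a (.a (.l 38) .z) .z) (.a .z (.b .z (.l 36))))) (.a (.b (.a (.b .z (.l 41)) .z) (.a .z (.b .z (.l 36)))) (.b (.a (.b .z (.l 36)) (.l 36)) (.l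
36)))))) (.b (.a (.b (.a (.b (.l 41) (.a (.l 41) (.b (.l 41) .z))) (.b (.a (.b (.l 41) .z) .z) (.a .z (.l 36)))) (.a (.b .z (.a .z (.l 36))) (.l 36)))
(.l 36)) (.a (.b (.l 36) (.a (.b (.a (.b (.l 36) .z) (.b (.l 36) .z)) (.a (.b .z (.l 38)) .z)) (.b (.b (.l 36) .z) (.a (.l 41) .z)))) (.b (.l 36) (.b
(.b .z (.a (.a .z (.l 44)) (.l 44))) (.a (.a (.b .z (.l 44)) (.l 44)) (.l 44)))))))))

theorem vQ98 : ev Q98 I5_7 I6_60 = 378368979128579 := by decide +kernel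

noncomputable def Q221 : QT :=
(.b (.b (.l 11) (.b (.a (.l 11) (.b (.l 11) (.a (.l 11) (.b (.l 11) (.a (.b (.l 11) (.a (.l 11) (.b (.l 11) (.a (.l 11) .z)))) (.b (.a (.b (.l 11) (.a
(.l 11) (.a (.l 11) (.a (.l 11) .z)))) (.b (.a (.l 11) .z) (.a .z (.a (.a .z (.l 13)) (.l 13))))) (.a (.b (.a (.a (.l 11) .z) .z) (.a (.a .z (.a .z
(.l 13))) (.l 13))) (.l 13)))))))) (.a (.b (.a (.l 11) (.b (.l 11) (.a (.l 11) (.b (.l 11) (.a (.l 11) (.b (.l 11) (.a (.a (.l 11) .z) .z))))))) (.b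
(.a (.b (.l 11) (.a (.l 11) (.b (.l 11) (.a (.l 11) (.a (.a (.l 11) .z) .z))))) (.a (.b (.a (.l 11) (.b (.l 11) (.a (.a (.l 11) (.a (.l 11) .z)) .z)))
(.b (.a (.a (.a (.l 11) (.a (.l 11) .z)) .z) (.a .z (.l 13))) (.a (.a .z (.l 13)) (.l 13)))) (.b (.a (.b (.a (.a (.l 11) .z) .z) (.a (.a .z (.a .z (.l
13))) (.l 13))) (.b (.a (.a .z (.a .z (.l 13))) (.l 13)) (.l 13))) (.l 13)))) (.a (.b (.a (.b (.l 11) (.a (.l 11) (.a (.a (.a (.l 11) .z) .z) .z)))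
(.b (.a (.a (.a (.l 11) .z) .z) (.a (.a .z (.a .z (.l 13))) (.l 13))) (.a (.a (.a .z (.a .z (.l 13))) (.l 13)) (.l 13)))) (.a (.b (.a .z (.a (.a .z
(.l 13)) (.l 13))) (.a (.a (.a (.a .z (.l 13)) (.l 13)) (.l 13)) (.l 13))) (.l 13))) (.l 13)))) (.b (.a (.b (.a (.l 11) (.b (.l 11) (.a (.b (.l 11)
(.a (.l 11) (.a (.a (.l 11) .z) .z))) (.b (.a (.a (.l 11) (.a (.l 11) .z)) .z) (.a .z (.l 13)))))) (.a (.b (.a (.b (.l 11) (.a (.l 11) (.a (.l 11) (.a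
(.l 11) .z)))) (.b (.a (.l 11) (.a (.l 11) .z)) (.a .z (.a .z (.a .z (.l 13)))))) (.a (.b (.a (.a (.a (.l 11) .z) .z) .z) (.a (.a .z (.l 13)) (.l
13))) (.l 13))) (.b (.a (.b (.a .z (.a .z (.l 13))) (.l 13)) (.l 13)) (.l 13)))) (.b (.a (.b (.a (.b (.a (.l 11) (.a (.l 11) (.a (.l 11) .z))) (.a (.a
(.a (.l 11) .z) .z) .z)) (.b (.a .z (.a (.a .z (.l 13)) (.l 13))) (.l 13))) (.a (.b (.a (.a .z (.l 13)) (.l 13)) (.l 13)) (.l 13))) (.l 13)) (.l 13)))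
(.l 13))))) (.a (.b (.l 13) (.a (.l 13) (.b (.l 13) (.a (.l 13) (.b (.a (.l 13) (.b (.l 13) (.a (.l 13) (.b (.l 13) (.a (.l 13) (.b (.a (.l 13) .z)
.z)))))) (.a (.b (.l 13) (.a (.b (.l 13) (.a (.l 13) (.b (.a (.l 13) .z) .z))) (.b (.a (.b (.l 13) (.a (.l 13) .z)) .z) (.a .z (.l 47))))) (.b (.a (.b
(.a (.l 13) (.b (.l 13) (.a (.l 13) .z))) (.a (.b (.a (.l 13) .z) .z) .z)) (.b .z (.l 47))) (.a (.b (.a .z (.l 47)) (.l 47)) (.l 47))))))))) (.b (.a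
(.l 13) (.b (.a (.l 13) (.b (.a (.l 13) (.b (.l 13) (.a (.l 13) (.b (.l 13) (.a (.l 13) (.b (.a (.l 13) .z) .z)))))) (.a (.b (.l 13) (.a (.l 13) (.b
(.a (.l 13) (.b (.l 13) (.a (.l 13) .z))) (.a (.b (.l 13) .z) .z)))) (.b (.a (.b (.l 13) (.a (.b (.l 13) (.a (.l 13) .z)) (.b (.a (.l 13) .z) .z)))
(.b (.a (.b (.a (.l 13) .z) .z) .z) .z)) .z)))) (.a (.b (.a (.l 13) (.b (.a (.l 13) (.b (.l 13) (.a (.l 13) (.b (.l 13) (.a (.l 13) .z))))) (.a (.b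
(.l 13) (.a (.l 13) (.b (.a (.l 13) .z) .z))) (.b (.a (.b (.l 13) (.a (.l 13) .z)) .z) .z)))) (.a (.b (.a (.l 13) (.b (.l 13) (.a (.b (.l 13) (.a (.l
13) .z)) .z))) (.a (.b (.a (.l 13) (.b (.l 13) .z)) (.a (.b (.a (.l 13) .z) .z) .z)) .z)) (.b (.a (.b (.a (.b (.a (.l 13) .z) .z) .z) .z) .z) (.a (.l
209) .z)))) (.b (.a (.b (.a (.b (.a (.l 13) (.b (.a (.l 13) .z) .z)) (.a (.b (.a (.l 13) .z) .z) .z)) .z) .z) .z) .z)))) (.a (.b (.a (.b (.l 13) (.a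
(.l 13) (.b (.a (.l 13) (.b (.l 13) (.a (.l 13) (.b (.l 13) (.a (.l 13) .z))))) (.a (.b (.l 13) (.a (.l 13) (.b (.a (.l 13) .z) .z))) (.b (.a (.b (.l
13) .z) .z) (.a .z (.l 47))))))) (.b (.a (.b (.l 13) (.a (.l 13) (.b (.l 13) (.a (.b (.l 13) (.a (.l 13) .z)) .z)))) (.b (.a (.b (.l 13) (.a (.l 13)
(.b (.l 13) .z))) (.b (.a (.b (.l 13) (.a (.l 13) .z)) .z) .z)) (.a (.b (.a (.b (.a (.l 13) .z) .z) .z) .z) .z))) (.a (.b (.a (.b (.a (.l 13) (.b (.a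
(.l 13) .z) .z)) (.a (.b (.a (.l 13) .z) .z) .z)) .z) (.a (.l 47) (.a (.a (.l 47) .z) (.b .z (.l 61))))) .z))) (.a (.b (.a (.b (.a (.l 13) (.b (.a (.l
13) (.b (.l 13) (.a (.l 13) .z))) (.a (.b (.a (.l 13) .z) .z) .z))) (.a (.b (.a (.b (.l 13) (.a (.l 13) .z)) .z) (.a .z (.l 47))) (.b (.a .z (.l 47))
(.l 47)))) (.b (.a (.b .z (.l 47)) (.l 47)) (.l 47))) (.l 47)) (.a (.a (.l 47) (.a (.a (.l 47) (.a .z (.l 61))) (.l 61))) (.b (.a (.b (.a (.b .z (.l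
61)) .z) (.l 61)) .z) (.a (.l 61) (.b (.a (.l 61) .z) (.l 61))))))) (.b (.a (.b (.a .z (.a (.b (.l 209) .z) .z)) .z) (.a (.b .z (.a .z (.b (.a .z (.l
73)) (.l 73)))) (.b (.a .z (.l 91)) (.a (.b (.a (.l 73) .z) (.l 73)) (.b .z (.a (.l 73) .z)))))) (.a (.a (.b .z (.a .z (.b .z (.a (.b .z (.l 45)) (.l
45))))) (.b .z (.a (.b (.a (.b .z (.l 45)) (.a (.l 45) .z)) (.a (.l 45) .z)) (.b (.l 167) .z)))) (.a (.b (.b (.l 73) (.a (.b (.l 73) .z) (.l 73))) (.b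
.z (.a (.b .z (.l 79)) (.l 79)))) (.b (.a (.l 73) (.a (.l 73) (.a (.l 73) .z))) (.a (.b (.b (.l 73) .z) (.b .z (.l 79))) (.b (.a (.l 73) .z)
.z))))))))))

theorem vQ221 : ev Q221 I4_10 I5_27 = 1767747318061610 := by decide +kernel

noncomputable def Q5 : QT :=
(.a (.a (.a (.b (.a (.l 210) (.a (.l 210) (.a (.b (.l 210) .z) .z))) (.a (.l 210) (.a (.b (.l 210) (.a (.l 210) .z)) .z))) .z) (.a (.b (.a .z (.a (.b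
.z (.l 230)) (.b (.l 230) .z))) .z) (.b (.a .z (.b .z (.a (.b .z (.a .z (.l 114))) (.b (.a .z (.l 114)) (.l 114))))) (.a (.b (.a .z (.b .z (.a .z (.l
114)))) (.a (.b (.a .z (.l 114)) (.l 114)) (.l 114))) (.l 114))))) (.a (.b (.a (.a (.b (.a (.b (.a .z (.l 114)) (.l 114)) (.l 114)) (.l 114)) (.l
114)) (.a (.l 114) (.a (.b (.a (.b .z (.l 114)) .z) (.l 114)) (.b .z (.a (.b .z (.l 114)) .z))))) (.a (.l 114) (.b (.l 114) (.a (.b (.l 114) (.a (.l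
114) (.b (.l 114) .z))) (.b (.a (.l 114) .z) .z))))) (.a (.b .z (.b (.a .z (.a (.b .z (.l 120)) (.l 120))) (.a (.b (.a .z (.l 120)) (.a .z (.a .z (.l
120)))) (.l 120)))) (.b (.a (.b .z (.a (.b (.a .z (.l 120)) (.l 120)) (.a (.l 120) .z))) (.a .z (.a .z (.l 204)))) (.a (.a (.l 120) (.a (.l 120) (.b
(.a (.l 120) .z) (.l 120)))) (.a .z (.a .z (.b (.l 204) .z))))))))

theorem vQ5 : ev Q5 I3_0 I8_46 = 226020126954501 := by decide +kernel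

noncomputable def Q219 : QT :=
(.a (.b (.a (.l 9) (.b (.l 9) (.a (.l 9) (.b (.l 9) (.a (.l 9) (.b (.a (.l 9) (.b (.a (.l 9) (.b (.l 9) (.a (.l 9) .z))) (.a (.b (.l 9) (.a (.l 9)
.z)) .z))) (.a (.b (.a (.l 9) (.b (.l 9) (.a (.l 9) .z))) (.a (.b (.l 9) (.a (.l 9) .z)) .z)) .z))))))) (.a (.b (.l 9) (.a (.l 9) (.b (.a (.l 9) (.b
(.l 9) (.a (.l 9) (.b (.l 9) (.a (.l 9) (.b (.l 9) (.a (.l 9) .z))))))) (.a (.b (.l 9) (.a (.l 9) (.b (.l 9) (.a (.l 9) (.b (.a (.l 9) .z) .z))))) (.b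
(.a (.b (.l 9) (.a (.l 9) (.b (.l 9) (.a (.l 9) .z)))) (.b (.a (.b (.l 9) (.a (.l 9) .z)) .z) .z)) (.a (.b (.a (.b (.a (.l 9) .z) .z) .z) .z) .z))))))
(.b (.a (.b (.l 9) (.a (.l 9) (.b (.a (.l 9) (.b (.a (.l 9) (.b (.l 9) (.a (.l 9) .z))) (.a (.b (.l 9) .z) .z))) (.a (.b (.a (.l 9) (.b (.a (.l 9) .z)
.z)) (.a (.b (.a (.l 9) .z) .z) .z)) .z)))) (.b (.a (.b (.a (.l 9) (.b (.a (.l 9) (.b (.l 9) (.a (.l 9) .z))) (.a (.b (.l 9) (.a (.l 9) .z)) .z))) (.a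
(.b (.a (.l 9) (.b (.l 9) (.a (.l 9) .z))) (.a (.b (.l 9) (.a (.l 9) .z)) .z)) (.b .z (.l 97)))) (.b (.a (.b .z (.l 97)) (.l 97)) (.l 97))) (.a (.b
(.a .z (.a .z (.l 97))) .z) (.a (.l 97) (.b (.a (.l 97) .z) .z))))) (.a (.b (.a (.b (.a (.l 9) (.b (.a (.l 9) (.b (.a (.l 9) .z) .z)) (.a (.b (.a (.l
9) .z) .z) .z))) (.a (.b (.a (.b (.l 9) (.a (.l 9) .z)) (.b (.a (.l 9) .z) .z)) .z) .z)) (.b .z (.a (.a (.a .z (.l 61)) .z) .z))) (.a (.a (.b (.l 159)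
.z) (.a (.l 159) .z)) (.a (.a (.a (.b .z (.l 61)) (.l 61)) (.a (.l 61) .z)) (.a (.a .z (.l 95)) (.l 95))))) (.a (.b (.a (.b .z (.a .z (.l 87))) (.b .z
(.a (.l 87) .z))) (.a (.b .z (.a (.l 95) .z)) .z)) (.b .z (.a (.b .z (.l 137)) .z))))))) (.a (.b (.a (.b (.a (.l 9) (.b (.b (.b (.a (.b .z (.a (.l 9)
(.a (.l 9) .z))) (.b (.l 27) .z)) (.a (.l 9) (.b (.a (.l 9) .z) (.l 9)))) (.l 9)) (.a (.b (.l 9) (.a (.l 9) (.b (.a (.l 9) (.b (.l 9) .z)) (.a (.b (.l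
9) .z) .z)))) (.b (.a (.b (.l 9) (.a (.l 9) (.b (.l 9) .z))) (.b (.a (.l 9) (.b (.l 9) .z)) .z)) .z)))) (.b (.a (.b (.a (.l 9) (.b (.l 9) (.a (.l 9)
(.b (.a (.l 9) .z) .z)))) (.a (.b (.a (.l 9) (.b (.l 9) (.a (.l 9) .z))) (.a (.b (.l 9) (.a (.l 9) .z)) .z)) (.b (.a (.b (.a (.l 9) .z) .z) .z) .z)))
(.a (.b (.a (.b (.a (.b (.l 9) .z) .z) .z) .z) .z) .z)) .z)) (.b (.a (.b (.a (.b (.b (.l 27) (.b (.a .z (.l 27)) (.a (.a (.l 9) .z) .z))) (.a (.b (.l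
9) (.a (.l 9) (.b (.l 9) .z))) (.b (.a (.l 9) (.b (.l 9) .z)) .z))) (.b (.a (.b (.a (.l 27) .z) .z) (.b (.a (.l 23) .z) .z)) (.a .z (.b .z (.l 29)))))
(.a .z (.a (.a .z (.a .z (.l 29))) (.l 29)))) (.b (.a (.b (.a (.b .z (.l 19)) (.l 19)) (.b (.b (.l 19) (.a .z (.l 19))) (.b .z (.l 29)))) (.b (.l 19)
(.b (.l 19) (.b (.a .z (.l 19)) .z)))) (.b (.b (.a (.l 29) (.b (.a (.l 29) .z) (.l 29))) (.l 29)) (.l 29)))) (.a (.a .z (.a (.a .z (.a .z (.l 29)))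
(.l 29))) (.l 29)))) (.a .z (.a (.a (.b (.l 335) .z) (.a (.a .z (.a .z (.l 29))) (.l 29))) (.l 29)))) (.b (.b (.b (.l 19) (.a (.b (.a (.b (.a (.b (.a
.z (.l 19)) .z) (.b (.l 19) (.a .z (.l 19)))) (.a (.l 29) (.b .z (.a (.l 29) .z)))) (.b (.l 19) (.a (.b (.l 19) (.a .z (.l 19))) (.l 19)))) (.a (.l
29) (.b (.a (.b .z (.a (.l 29) .z)) (.b (.l 19) .z)) (.a (.l 29) (.b (.a (.l 29) .z) (.l 29)))))) (.b (.l 19) (.a (.b (.l 19) (.a (.b (.a .z (.l 19))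
.z) (.l 19))) (.l 19))))) (.b (.a (.l 29) (.b (.a (.b (.a (.b (.a (.l 29) .z) (.l 29)) (.b (.a .z (.l 19)) .z)) (.a (.l 29) (.b (.a (.l 29) .z) (.l
29)))) (.b (.l 19) (.a (.b (.a .z (.l 19)) .z) (.l 19)))) (.a (.l 29) (.a (.b (.b (.a (.l 29) .z) (.l 29)) (.l 29)) (.b (.a .z (.b (.l 19) .z)) (.a
(.l 29) (.b .z (.l 29)))))))) (.l 29))) (.l 29))))

theorem vQ219 : ev Q219 I4_10 I6_52 = 773306787175202 := by decide +kernel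

noncomputable def Q40 : QT :=
(.a (.b (.b (.a (.b (.a (.l 41) (.a (.b (.a (.l 41) (.b (.a (.b .z (.l 41)) .z) (.l 41))) (.l 41)) (.b (.a (.b (.a (.b (.l 52) .z) (.l 52)) (.a (.b .z
(.l 41)) .z)) (.b (.l 52) (.a (.b (.l 52) .z) (.l 52)))) (.a (.l 41) (.b (.a (.b .z (.l 41)) .z) (.l 41)))))) (.l 41)) (.b (.a (.a (.a (.b (.a (.b (.a
(.l 52) .z) (.l 52)) (.b (.a .z (.b (.l 18) .z)) (.a (.l 52) .z))) (.b (.a (.b (.l 52) .z) (.l 52)) (.a (.b .z (.l 41)) .z))) (.b (.a (.b (.l 18) (.a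
.z (.l 18))) (.l 18)) (.a (.b .z (.b (.l 52) .z)) (.b (.a (.b (.l 18) .z) (.l 18)) .z)))) (.a (.a (.l 18) (.b (.l 18) (.a (.l 18) (.b (.l 18) (.a (.l
18) .z))))) (.a (.b (.a (.l 18) (.b (.l 18) (.a (.l 18) .z))) (.a (.b (.a (.l 18) .z) .z) .z)) (.b (.a (.b (.a (.l 18) .z) .z) .z) (.l 100))))) (.a
(.b (.l 100) (.b (.a (.l 100) (.a .z (.b .z (.a .z (.b .z (.l 10)))))) (.a (.b .z (.a .z (.b .z (.a .z (.l 10))))) (.a (.b (.a .z (.b .z (.l 10))) (.l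
10)) (.l 10))))) (.b (.a (.b (.l 100) (.a .z (.b .z (.a .z (.b .z (.l 10)))))) (.b (.a .z (.b .z (.a .z (.b .z (.l 10))))) (.a (.b (.a .z (.b .z (.l
10))) (.l 10)) (.l 10)))) (.a (.b (.a (.b (.a .z (.b .z (.l 10))) (.l 10)) (.l 10)) (.l 10)) (.l 10))))) (.a (.b (.a (.a (.l 41) (.a (.b (.b .z (.l
41)) (.l 41)) (.b .z (.l 41)))) (.b (.a (.a (.a .z (.b (.l 18) .z)) (.a (.l 18) .z)) (.b .z (.a .z (.b .z (.a .z (.l 10)))))) (.a (.b .z (.a .z (.b .z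
(.a .z (.l 10))))) (.b (.a (.b .z (.a .z (.l 10))) (.l 10)) (.l 10))))) (.a (.b (.a (.l 41) (.b (.a (.l 41) .z) (.a .z (.b (.a .z (.l 10)) (.l 10)))))
(.a (.b (.a (.l 41) .z) (.a .z (.b (.a .z (.l 10)) (.l 10)))) (.b (.a (.b (.a .z (.l 10)) (.l 10)) (.l 10)) (.l 10)))) (.b (.a (.b (.a (.b .z (.a .z
(.l 10))) (.l 10)) (.l 10)) (.l 10)) (.l 10)))) (.a (.b (.a (.b (.b (.a (.b .z (.a .z (.l 10))) (.l 10)) (.l 10)) (.l 10)) (.l 10)) (.l 10)) (.l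
10))))) (.a (.b (.a (.b (.l 41) (.a (.b (.a (.b (.l 41) (.a .z (.l 41))) (.l 41)) (.a (.b .z (.a (.l 43) .z)) (.b (.l 41) .z))) (.b (.l 41) (.a (.l
41) (.b (.l 41) (.a (.l 41) .z)))))) (.b (.a (.b (.l 41) (.a (.l 41) (.b (.l 41) (.a (.l 41) .z)))) (.b (.a (.l 41) (.b (.a (.l 41) .z) (.a .z (.b (.a
.z (.l 10)) (.l 10))))) (.a (.b (.a .z (.b .z (.a .z (.l 10)))) (.a (.b .z (.a .z (.l 10))) (.l 10))) (.b (.a (.b (.a .z (.l 10)) (.l 10)) (.l 10))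
(.l 10))))) (.a (.b (.a (.b (.l 41) (.a (.l 41) .z)) (.b (.a .z (.b .z (.a .z (.l 10)))) (.a (.b .z (.a .z (.l 10))) (.l 10)))) (.a (.b (.a .z (.b (.a
.z (.l 10)) (.l 10))) (.a (.b (.a .z (.l 10)) (.l 10)) (.l 10))) (.l 10))) (.l 10)))) (.a (.b (.a (.b (.a (.l 43) (.b (.a (.l 43) .z) (.l 43))) (.a
(.l 43) (.b (.a (.l 43) .z) (.a .z (.b (.a .z (.l 10)) (.l 10)))))) (.b (.a (.b .z (.a .z (.b .z (.a .z (.l 10))))) (.b (.a (.b .z (.a .z (.l 10)))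
(.b (.a .z (.l 10)) (.l 10))) (.l 10))) (.a (.b (.a (.b .z (.l 10)) (.l 10)) (.l 10)) (.l 10)))) (.a (.b (.a (.b (.a .z (.b .z (.a .z (.l 10)))) (.a
(.b .z (.a .z (.l 10))) (.l 10))) (.b (.a (.b (.a .z (.l 10)) (.l 10)) (.l 10)) (.l 10))) (.l 10)) (.l 10))) (.l 10))) (.a (.b (.b (.a (.b (.a (.b (.a
(.b (.a .z (.l 10)) (.l 10)) (.l 10)) (.l 10)) (.l 10)) (.l 10)) (.l 10)) (.l 10)) (.l 10)) (.l 10)))) (.l 10)) (.b (.a (.b (.a (.b (.a (.b (.a (.b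
(.a (.b (.a .z (.b .z (.l 10))) (.l 10)) (.l 10)) (.l 10)) (.l 10)) (.l 10)) (.l 10)) (.l 10)) (.l 10)) (.l 10)) (.l 10)) (.l 10)))

theorem vQ40 : ev Q40 I4_1 I5_26 = 1905194081919208 := by decide +kernel

noncomputable def Q101 : QT :=
(.a (.b .z (.a (.b .z (.a (.b .z (.a (.b .z (.b (.a (.b (.l 146) .z) (.l 146)) (.a .z (.b (.l 146) .z)))) (.b .z (.a (.b (.a (.l 146) .z) (.l 146))
(.b .z (.a (.l 146) .z)))))) .z)) (.b (.a (.b (.a .z (.b .z (.b .z (.a .z (.b (.a (.l 131) .z) (.a .z (.l 131))))))) .z) .z) (.b .z (.b (.b (.a .z (.b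
(.a .z (.a .z (.a .z (.l 119)))) .z)) .z) .z))))) (.b .z (.a (.b .z (.b .z (.b (.a (.a (.b (.b .z (.a (.l 119) .z)) (.a (.a (.a .z (.l 119)) (.l 119))
(.l 119))) (.b .z (.a (.b .z (.a (.l 119) .z)) .z))) .z) (.b (.a (.b (.a (.a (.a .z (.l 119)) (.l 119)) (.a (.b (.l 119) .z) .z)) .z) .z) .z)))) .z)))

theorem vQ101 : ev Q101 I4_4 I4_4 = 31471150879015 := by decide +kernel

end Pool.Agent.Helper64.SPW.Dat
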