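import Pool.Agent.Helper64.SPW.Iv

/-! Boxes of traces, part 11 (data and kernel evaluation). -/

set_option maxRecDepth 1000000
set_option maxHeartbeats 0

namespace Pool.Agent.Helper64.SPW.Dat

noncomputable def Q258 : QT :=
(.b (.b (.b (.b (.a (.b (.a (.b (.a (.b (.a .z (.l 62)) (.a (.b .z (.a (.l 14) (.a (.l 14) .z))) (.b (.l 62) .z))) (.l 62)) (.a (.b (.a (.l 14) (.b
(.a (.l 14) (.a (.l 14) .z)) (.l 14))) (.l 14)) (.b (.a (.b .z (.a (.l 14) .z)) (.b (.l 62) .z)) (.a (.l 14) (.b (.a (.a (.l 14) .z) .z) (.l 14))))))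
(.b (.a (.a (.a (.l 62) (.a (.l 62) .z)) (.a (.a .z (.l 49)) (.l 49))) (.l 49)) (.a (.b (.a (.a (.l 62) .z) (.l 49)) (.a .z (.l 49))) (.l 49)))) (.a
(.l 14) (.b (.a (.b (.a (.b (.a (.l 14) (.a (.l 14) .z)) (.l 14)) (.b .z (.a (.l 14) .z))) (.l 14)) (.b (.a (.b (.l 49) .z) (.l 49)) (.a (.b (.a (.a
(.l 14) .z) .z) (.a (.l 14) (.a (.l 14) .z))) (.b (.l 49) .z)))) (.a (.l 14) (.b (.a (.l 14) (.b (.a (.l 14) .z) (.l 14))) (.l 14)))))) (.b (.a (.l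
49) (.a (.a (.l 49) (.a (.l 49) (.b (.a (.l 49) .z) .z))) .z)) (.a (.b (.l 49) (.a (.b (.a (.b .z (.a (.a (.l 14) .z) .z)) (.l 49)) (.a (.b (.a (.l
14) (.a (.l 14) .z)) (.l 14)) (.b .z (.a (.a (.l 14) .z) .z)))) (.b (.l 49) (.a (.b (.l 49) .z) (.l 49))))) (.a (.a (.a (.l 49) (.b (.l 49) (.a (.l
49) .z))) (.a (.b (.a (.l 49) .z) .z) .z)) (.a .z (.b .z (.a .z (.b .z (.l 49))))))))) (.a (.l 14) (.a (.b (.b (.a (.l 14) (.b (.a (.b .z (.a (.l 14)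
.z)) (.b (.l 49) .z)) (.a (.l 14) (.b .z (.a (.l 14) .z))))) (.l 14)) (.l 14)) (.b (.b (.a (.b (.a (.a (.l 49) .z) .z) .z) (.a .z (.a (.b .z (.l 49))
(.l 49)))) (.a (.a (.b (.b (.a (.a (.l 14) .z) .z) (.a (.l 14) (.a (.l 14) .z))) (.l 14)) (.b .z (.a (.b (.a (.l 14) .z) (.l 14)) (.b .z (.a (.l 14)
.z))))) (.a (.b (.a .z (.l 49)) (.a .z (.l 49))) (.l 49)))) (.a (.l 14) (.b (.a (.b (.a (.b .z (.l 14)) .z) (.l 14)) (.b (.a .z (.l 49)) (.a (.b .z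
(.l 14)) .z))) (.l 14))))))) (.l 14)) (.a (.b (.l 14) (.b (.l 14) (.a (.b (.l 14) (.a (.b (.l 14) (.a (.b (.l 14) (.a .z (.b (.l 14) (.a .z (.l
14))))) (.l 14))) (.l 14))) (.l 14)))) (.b (.a (.l 14) (.b (.l 14) (.a (.b (.l 14) (.a (.l 14) (.b (.l 14) (.a (.l 14) (.b (.l 14) (.a (.l 14)
.z)))))) (.b (.a (.l 14) (.b (.a (.l 14) (.b (.l 14) (.a (.l 14) .z))) (.a (.b (.a (.l 14) (.b (.l 14) .z)) (.a (.b (.l 14) .z) .z)) (.b .z (.l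
17))))) (.a (.b (.a (.b (.l 14) (.a (.l 14) (.b (.l 14) .z))) (.b (.a (.l 14) .z) .z)) (.a (.b (.a (.b (.l 14) .z) .z) (.a .z (.l 17))) (.l 17))) (.b
(.a (.b (.a .z (.l 17)) (.l 17)) (.l 17)) (.l 17))))))) (.a (.b (.a (.l 14) (.b (.l 14) (.a (.l 14) (.b (.a (.l 14) (.b (.l 14) (.a (.l 14) .z))) (.a
(.b (.a (.l 14) (.b (.l 14) .z)) (.a (.b (.l 14) .z) .z)) (.b .z (.l 17))))))) (.a (.b (.a (.l 14) (.b (.l 14) (.a (.l 14) (.b (.l 14) (.a (.l 14)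
.z))))) (.a (.b (.l 14) (.a (.b (.l 14) (.a (.l 14) (.b (.l 14) .z))) (.b (.a (.b (.l 14) .z) .z) (.a .z (.l 18))))) (.b (.a (.b (.a (.l 14) (.b (.l
14) .z)) (.a (.b (.l 14) .z) .z)) (.b .z (.l 18))) (.a (.b (.a .z (.l 18)) (.l 18)) (.l 18))))) (.b (.a (.b (.a (.b (.l 14) (.a (.l 14) (.b (.l 14)
.z))) (.b (.a (.l 14) .z) .z)) (.a (.b (.a (.b (.l 14) .z) .z) (.a .z (.l 18))) (.b .z (.l 18)))) (.b (.a (.b (.a .z (.l 17)) (.l 17)) (.l 17)) (.b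
(.b .z (.l 18)) (.l 18)))) (.l 18)))) (.b (.a (.b (.a (.b (.l 14) (.a (.b (.l 14) (.a (.l 14) (.b (.l 14) .z))) (.b (.a (.l 14) .z) .z))) (.b (.a (.b
(.a (.l 14) (.b (.l 14) .z)) (.a (.b (.l 14) .z) .z)) (.b .z (.l 17))) (.a (.b (.a .z (.l 17)) (.l 17)) (.l 17)))) (.a (.b (.a (.b (.a (.b (.l 14) .z)
.z) (.a .z (.l 17))) (.l 17)) (.l 17)) (.l 17))) (.l 17)) (.b (.b (.b (.a (.l 17) (.b (.l 17) (.a (.l 17) (.a (.l 17) .z)))) (.a (.b (.l 17) .z) (.b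
.z (.a (.a .z (.l 18)) (.l 18))))) (.b (.a (.b (.a (.a .z (.l 18)) (.l 18)) (.l 18)) (.l 18)) (.l 18))) (.l 18))))))) (.b (.a (.b (.a (.b (.b (.a (.b
(.a (.b .z (.l 81)) (.b (.a (.b (.l 14) .z) (.l 14)) (.a .z (.b (.a .z (.l 14)) .z)))) (.a (.a (.l 81) .z) (.b .z (.l 37)))) (.b (.l 14) (.a (.b (.a
.z (.b (.l 14) (.a .z (.l 14)))) .z) (.b (.l 14) (.a (.b (.l 14) (.a .z (.l 14))) (.l 14)))))) (.a (.a (.b (.a .z (.b .z (.l 37))) (.a (.l 37) (.b (.l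
37) .z))) (.b (.a (.l 37) .z) .z)) (.b (.a (.a (.b .z (.l 46)) (.l 46)) (.b (.a .z (.b (.a .z (.l 14)) .z)) .z)) (.a (.a (.a .z (.l 46)) .z) .z))))
(.a (.b (.b (.a (.a (.b (.l 37) .z) .z) .z) .z) (.b (.b (.b (.a (.a (.l 20) .z) .z) (.a .z (.l 19))) (.l 19)) (.a (.l 19) (.b (.a (.l 19) (.b (.l 19)
.z)) (.a (.b (.l 19) .z) .z))))) (.b (.b .z (.b (.a .z (.l 115)) .z)) (.a (.b (.b (.b .z (.l 19)) (.a (.l 19) (.b (.l 19) .z))) .z) (.b .z (.a (.b .z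
(.a .z (.l 21))) (.b (.a .z (.l 21)) (.l 21)))))))) (.b (.a (.b (.l 14) (.a (.b (.b (.l 14) (.a (.b (.a .z (.l 14)) .z) (.l 14))) (.b (.a .z (.b (.a
.z (.l 14)) .z)) .z)) (.b (.l 14) (.a (.b (.b (.l 14) (.a .z (.l 14))) .z) (.b (.a (.l 14) (.b (.l 14) .z)) (.a (.b (.l 14) .z) .z)))))) (.b (.a (.l
14) (.b (.a (.l 14) (.b (.l 14) (.a (.b (.l 14) .z) .z))) (.a (.b (.a (.l 14) (.b (.l 14) .z)) .z) (.b (.a .z (.l 18)) (.l 18))))) (.a (.b (.a (.b (.l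
14) (.a (.l 14) .z)) (.b (.a (.b (.l 14) .z) .z) (.a .z (.l 18)))) (.a (.b .z (.b (.l 18) .z)) (.b (.l 18) (.b (.l 18) .z)))) (.b (.a (.b (.a .z (.l
18)) (.l 18)) (.l 18)) (.b (.l 18) (.b (.l 18) .z)))))) (.a (.b (.a (.b .z (.a .z (.b .z (.a .z (.l 21))))) (.b (.a .z (.b .z (.l 21))) (.l 21))) (.a
(.b (.a (.b (.a .z (.l 21)) (.l 21)) (.l 21)) (.l 21)) (.l 21))) (.l 21)))) (.a (.b (.a (.b (.a (.b (.b (.a (.b (.l 19) .z) .z) .z) .z) .z) (.a (.b .z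
(.a .z (.b (.a .z (.l 21)) (.l 21)))) (.b (.a (.b .z (.a .z (.l 21))) (.l 21)) (.l 21)))) (.b (.a (.b (.a .z (.b .z (.l 21))) (.a (.b (.a .z (.l 21))
(.l 21)) (.l 21))) (.l 21)) (.l 21))) (.a (.b (.a (.b (.a (.b (.a .z (.l 21)) (.l 21)) (.l 21)) (.l 21)) (.l 21)) (.l 21)) (.b (.l 21) (.b (.l 21) (.a
(.l 21) (.b (.l 21) (.a (.b (.l 21) .z) .z))))))) (.b (.l 21) (.b (.a (.l 21) (.b (.l 21) (.a (.b (.l 21) (.a (.l 21) (.b (.l 21) .z))) (.b (.a (.b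
(.l 21) .z) .z) .z)))) (.a (.b (.a (.l 21) (.b (.a (.l 21) (.b (.l 21) .z)) .z)) (.a (.b (.a (.b (.l 21) .z) .z) (.a .z (.l 49))) (.b (.a .z (.l 49))
(.l 49)))) (.b (.a (.b .z (.l 49)) (.a (.l 49) (.a (.l 49) .z))) (.a (.l 49) (.a (.l 49) (.a (.l 49) .z))))))))) (.b (.a (.b (.a (.b (.a (.b (.a (.b
.z (.a .z (.l 18))) (.l 18)) (.l 18)) (.l 18)) (.b (.l 18) (.b (.l 18) (.b .z (.a (.a .z (.l 21)) (.l 21)))))) (.b (.l 18) (.b (.l 18) (.b (.b (.l 18)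
.z) (.b (.a (.a .z (.l 21)) (.l 21)) (.l 21)))))) (.l 21)) (.b (.b (.l 18) (.b (.b (.l 18) (.a (.l 18) (.b (.a (.l 18) (.a (.l 18) .z)) .z))) (.b (.a
(.b .z (.a (.a .z (.l 21)) (.l 21))) (.b (.a (.a .z (.l 21)) (.l 21)) (.l 21))) (.l 21)))) (.b (.l 21) (.a (.l 21) (.b (.l 21) (.a (.l 21) (.b (.a (.l
21) (.b (.l 21) .z)) (.a (.b (.l 21) .z) .z)))))))) (.b (.a (.b (.l 21) (.a (.b (.l 21) (.a (.l 21) (.b (.l 21) (.a (.l 21) (.b (.l 21) .z))))) (.b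
(.a (.l 21) (.b (.a (.l 21) (.b (.l 21) .z)) .z)) (.a (.b (.a (.b (.l 21) .z) .z) .z) .z)))) (.b (.a (.b (.a (.l 21) (.b (.l 21) (.a (.l 21) (.b (.l
21) .z)))) (.a (.b (.l 21) (.a (.b (.l 21) .z) .z)) (.b (.a (.b (.l 21) .z) .z) .z))) (.b (.a (.b (.a (.l 21) .z) .z) .z) .z)) .z)) (.a (.b (.a (.b
(.a (.b (.a (.l 21) (.b (.l 21) .z)) (.a (.b (.l 21) .z) .z)) .z) .z) .z) (.a .z (.b .z (.a .z (.b .z (.l 78)))))) (.b (.a (.b .z (.a (.b (.l 127) .z)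
.z)) .z) (.a (.b (.a (.b .z (.l 78)) (.b .z (.l 78))) (.l 78)) (.a (.b (.l 78) (.a (.l 78) .z)) .z))))))) (.b (.b (.a (.a (.b (.a (.b (.a (.l 21) (.b
(.l 21) (.a (.l 21) (.b (.l 21) .z)))) (.a (.b (.a (.l 21) (.b (.l 21) .z)) (.a (.b (.l 21) .z) .z)) .z)) (.b (.a (.b (.a (.l 21) (.b (.l 21) .z)) .z)
(.b (.a .z (.l 49)) (.l 49))) (.a (.a .z (.a .z (.l 49))) (.l 49)))) (.a .z (.b (.a (.a (.a .z (.l 49)) (.l 49)) (.l 49)) (.a (.l 49) (.b (.a (.l 49)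
.z) .z))))) (.b (.a (.l 49) (.b (.a (.l 49) (.b (.l 49) (.a (.l 49) .z))) (.a (.b (.l 49) .z) .z))) (.a (.b (.a (.b (.l 49) (.a (.l 49) .z)) (.b (.a
(.l 49) .z) .z)) (.a (.b .z (.l 78)) (.l 78))) (.b (.a (.b .z (.l 78)) (.l 78)) (.l 78))))) (.a (.b (.a (.b (.a .z (.b .z (.l 78))) (.l 78)) (.l 78))
(.a (.l 78) (.a (.l 78) (.b (.a (.l 78) .z) .z)))) (.a (.b (.a (.b (.l 78) (.a (.l 78) .z)) (.b (.a (.l 78) .z) .z)) (.a .z (.b (.b (.l 85) .z) .z)))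
(.b (.a (.b .z (.l 85)) (.b (.l 85) .z)) .z)))) (.b (.b (.a (.a .z (.l 78)) (.b (.a (.a (.l 78) .z) .z) (.a (.b (.a (.l 78) .z) (.a (.l 78) .z)) (.b
.z (.a .z (.a .z (.l 23))))))) (.b (.a (.b .z (.a .z (.a .z (.a .z (.a .z (.l 23)))))) (.b (.a (.a .z (.a .z (.a .z (.l 23)))) (.l 23)) (.l 23))) (.a
(.b (.a (.a .z (.a .z (.l 23))) (.l 23)) (.l 23)) (.l 23)))) (.l 23))) (.b (.l 23) (.b (.b (.l 23) (.b (.a (.b (.l 23) (.a (.l 23) (.a (.l 23) (.a (.a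
(.l 23) .z) .z)))) (.b (.a (.l 23) .z) (.a .z (.a (.a (.a .z (.l 29)) (.l 29)) (.l 29))))) (.a (.b (.a .z (.a .z (.a .z (.l 29)))) (.a (.a (.a .z (.l
59)) .z) (.a (.a .z (.a .z (.l 29))) (.l 29)))) (.l 29)))) (.a (.a (.b (.a (.l 59) (.b (.a (.a (.l 59) .z) .z) (.a .z (.a .z (.b .z (.l 29)))))) (.a
(.b .z (.a .z (.b .z (.a .z (.l 29))))) (.b (.a (.b .z (.a .z (.l 29))) (.l 29)) (.l 29)))) (.a (.b (.a (.b (.a .z (.b .z (.l 29))) (.l 29)) (.l 29))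
(.l 29)) (.l 29))) (.b (.l 29) (.b (.l 29) (.b (.a (.l 29) (.a (.l 29) (.a (.l 29) .z))) (.a (.a (.a (.l 29) (.a (.l 29) .z)) .z) (.a .z (.a .z (.a .z
(.l 30))))))))))))))

theorem vQ258 : ev Q258 I5_24 I4_14 = 1637213138557422 := by decide +kernel

noncomputable def Q14 : QT :=
(.a (.a (.l 28) (.a (.a (.l 28) (.b (.l 28) (.a (.l 28) (.b (.l 28) (.a (.l 28) (.b (.l 28) (.a (.l 28) (.b (.l 28) (.a (.b (.l 28) .z) .z)))))))))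
(.a (.b (.a (.l 28) (.b (.a (.l 28) (.b (.l 28) (.a (.l 28) (.b (.l 28) (.a (.l 28) (.b (.l 28) .z)))))) (.a (.b (.l 28) (.a (.l 28) (.b (.a (.l 28)
(.b (.l 28) .z)) .z))) (.b (.a (.b (.l 28) (.a (.l 28) .z)) (.b (.a (.b (.l 28) .z) .z) (.a .z (.l 45)))) (.a (.b .z (.l 45)) (.b (.l 45) (.a (.l 45)
.z))))))) (.a (.b (.a (.l 28) (.b (.a (.l 28) (.b (.l 28) (.a (.l 28) (.b (.l 28) .z)))) (.a (.b (.a (.l 28) (.b (.l 28) .z)) (.a (.b (.l 28) .z) .z))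
(.b .z (.l 45))))) (.a (.b (.a (.b (.l 28) (.a (.l 28) (.b (.l 28) .z))) (.b (.a (.l 28) .z) .z)) (.a (.b .z (.a .z (.l 45))) (.b (.l 45) (.a (.l 45)
.z)))) (.b (.a (.b (.a .z (.l 45)) (.l 45)) (.b (.a (.l 45) .z) .z)) (.a .z (.b .z (.l 76)))))) (.b (.a (.b (.a (.b (.a (.b (.l 28) .z) .z) (.a .z (.l
45))) (.b (.a .z (.l 45)) (.l 45))) (.a (.b (.l 45) (.a (.l 45) .z)) .z)) (.b (.a (.b (.a (.l 45) .z) .z) .z) (.a (.b .z (.l 76)) (.a (.l 76) .z))))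
(.a (.b (.a (.b .z (.l 76)) (.l 76)) (.l 76)) (.l 76))))) (.b (.a (.b (.a (.b (.a (.l 28) (.b (.l 28) (.a (.b (.l 28) .z) .z))) (.a (.b (.a (.l 28)
.z) .z) (.b (.a .z (.l 45)) (.l 45)))) (.b (.a (.b .z (.a .z (.l 45))) (.l 45)) (.a (.b (.l 45) (.a (.l 45) .z)) .z))) (.a (.b (.a (.l 45) (.b (.a (.l
45) .z) .z)) .z) .z)) (.b (.a (.b (.a (.b (.a (.l 45) .z) .z) (.b .z (.l 106))) (.a (.b .z (.l 106)) (.l 106))) (.l 106)) (.a (.a (.b (.l 106) (.a .z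
(.l 106))) (.l 106)) (.l 106)))) (.a (.a (.b .z (.a (.b .z (.l 76)) .z)) .z) (.a (.b (.a .z (.b (.a .z (.l 106)) .z)) (.a .z (.b (.a (.l 106) .z) (.l
106)))) (.b (.b (.l 106) (.a (.b (.l 106) .z) .z)) .z))))))) (.a (.a (.b (.a (.a (.a (.a (.l 106) (.a (.l 106) (.a .z (.b .z (.l 100))))) (.b (.a (.b
.z (.l 100)) .z) (.b (.a (.l 100) (.b (.l 100) .z)) (.a (.b (.l 100) .z) .z)))) (.a .z (.b (.a (.b (.l 192) .z) .z) .z))) .z) (.a (.b (.a (.a (.a (.b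
(.b (.l 106) .z) .z) .z) .z) (.a (.a (.a .z (.a .z (.l 100))) (.b (.a (.l 100) .z) (.l 100))) .z)) (.a .z (.b (.a (.a (.a .z (.l 100)) (.l 100)) (.b
(.a (.l 100) .z) (.a (.l 100) .z))) (.a (.b (.a .z (.l 100)) .z) .z)))) (.b .z (.a .z (.b .z (.a .z (.b .z (.a .z (.l 97))))))))) (.b (.a (.b (.a .z
(.a (.b .z (.l 230)) (.b .z (.l 230)))) (.a .z (.b (.l 230) (.a (.a .z (.l 230)) .z)))) (.b (.a (.b (.a .z (.a .z (.b (.l 53) .z))) .z) (.b (.a (.b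
(.a (.l 53) (.b (.l 53) .z)) (.a (.b (.l 53) .z) .z)) .z) .z)) (.a .z (.a .z (.a (.b .z (.a .z (.l 78))) (.b .z (.l 78))))))) (.a (.b (.a (.b (.a .z
(.l 275)) .z) .z) (.a (.b (.a (.b .z (.a .z (.l 97))) (.a (.a (.l 97) .z) .z)) (.a (.l 97) (.a (.l 97) .z))) .z)) (.a .z (.a .z (.b (.a .z (.b (.a .z
(.l 78)) .z)) (.a (.l 368) .z))))))) (.a (.b (.a (.b (.a .z (.b (.b (.a .z (.l 66)) .z) .z)) (.a (.b .z (.a (.l 78) .z)) (.b (.a .z (.b (.a .z (.b .z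
(.l 41))) (.a (.b .z (.l 41)) (.l 41)))) (.a (.b (.a .z (.b .z (.l 41))) (.l 41)) (.l 41))))) (.b (.a (.b (.a (.b (.l 66) .z) (.b (.a (.l 66) .z) (.a
.z (.b .z (.l 41))))) (.a (.b .z (.a .z (.l 41))) (.l 41))) (.b (.a (.b (.a (.b .z (.l 41)) (.l 41)) (.l 41)) (.l 41)) (.l 41))) (.l 41))) (.a (.a (.a
(.b (.a (.b (.b (.l 78) .z) (.a .z (.l 41))) (.b (.b .z (.b .z (.l 41))) (.l 41))) (.a .z (.b (.a (.b (.l 41) .z) (.l 41)) (.a .z (.b (.l 41) .z)))))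
(.b (.b (.b (.a (.b .z (.l 41)) (.l 41)) (.l 41)) (.l 41)) (.l 41))) (.l 41)) (.b (.l 41) (.a (.b (.l 41) (.a (.l 41) (.b (.l 41) (.a (.b (.l 41) .z)
(.b .z (.a .z (.l 24))))))) (.b (.a (.b (.l 41) (.a (.l 41) (.b (.l 41) .z))) (.b (.a (.l 41) .z) (.a (.b .z (.a .z (.l 24))) (.b (.a .z (.l 24)) (.l
24))))) (.a (.b (.a .z (.b .z (.l 24))) (.a (.b (.a .z (.l 24)) (.l 24)) (.l 24))) (.l 24))))))) (.b (.a (.b (.a (.a (.b (.a (.l 41) (.b (.a (.l 41)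
.z) (.l 41))) (.l 41)) (.b (.a (.b (.a .z (.l 37)) .z) (.l 37)) (.a (.b (.a (.l 41) .z) (.l 41)) (.b (.a .z (.l 37)) .z)))) (.l 37)) (.a (.a (.l 41)
(.b (.a (.l 41) (.b (.a (.l 41) .z) (.l 41))) (.l 41))) (.b (.a (.a (.b (.a .z (.l 37)) .z) (.l 37)) (.l 37)) (.a (.a (.b (.a (.l 41) .z) (.l 41)) (.b
.z (.a (.l 41) .z))) (.b (.a (.l 37) (.b (.l 37) .z)) (.a .z (.b .z (.l 24)))))))) (.b (.a (.b (.l 37) (.a (.l 37) (.b (.l 37) (.a (.l 37) (.b (.l 37)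
.z))))) (.b (.a (.l 37) (.b (.a (.l 37) (.b (.l 37) .z)) (.a (.b (.l 37) .z) (.b .z (.a .z (.l 24)))))) (.a (.b (.a (.l 37) .z) (.a .z (.b (.a .z (.l
24)) (.l 24)))) (.b (.a (.b .z (.l 24)) (.l 24)) (.l 24))))) (.a (.b (.a (.b (.l 37) (.a (.l 37) .z)) (.b (.a (.b (.l 37) .z) (.b .z (.a .z (.l 24))))
(.a (.b (.a .z (.l 24)) (.l 24)) (.l 24)))) (.a (.b (.a (.b .z (.a .z (.l 24))) (.b (.a .z (.l 24)) (.l 24))) (.l 24)) (.l 24))) (.l 24)))) (.a (.b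
(.a (.b (.a (.l 41) (.b (.l 41) (.a (.l 41) (.b (.l 41) .z)))) (.a (.b (.a (.l 41) (.b (.l 41) .z)) (.a (.b (.l 41) .z) (.b .z (.a .z (.l 24))))) (.b
(.a .z (.b (.a .z (.l 24)) (.l 24))) (.l 24)))) (.b (.a (.b (.a (.b (.l 41) .z) .z) (.a (.b .z (.a .z (.l 24))) (.l 24))) (.b (.a (.b (.a .z (.l 24))
(.l 24)) (.l 24)) (.l 24))) (.l 24))) (.a (.b (.a (.b (.a (.b .z (.l 24)) (.l 24)) (.l 24)) (.l 24)) (.l 24)) (.l 24))) (.l 24))))))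

theorem vQ14 : ev Q14 I3_0 I6_18 = 1341813029062497 := by decide +kernel

noncomputable def Q160 : QT :=
(.a (.b (.a (.b (.l 13) (.a (.l 13) (.b (.a (.l 13) (.b (.l 13) (.a (.l 13) (.b (.l 13) (.a (.l 13) (.b (.a (.l 13) (.b (.l 13) .z)) (.a (.b (.l 13)
.z) .z))))))) (.a (.b (.l 13) (.a (.b (.l 13) (.a (.b (.l 13) (.a (.l 13) (.b (.l 13) .z))) (.b (.a (.l 13) (.b (.l 13) .z)) .z))) (.b (.a (.b (.l 13)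
(.a (.b (.l 13) .z) .z)) (.b (.a (.b (.l 13) .z) .z) (.a .z (.l 17)))) (.a (.b (.a .z (.l 17)) (.l 17)) (.l 17))))) (.b (.a (.b (.a (.l 13) (.b (.l
13) (.a (.l 13) .z))) (.a (.b (.a (.l 13) (.b (.l 13) .z)) .z) (.b .z (.l 17)))) (.b (.a (.b (.a (.b (.l 13) .z) .z) (.a .z (.l 17))) (.b (.a .z (.l
17)) (.l 17))) (.l 17))) (.a (.b (.a (.b (.a .z (.l 17)) (.l 17)) (.l 17)) (.l 17)) (.l 17))))))) (.b (.a (.b (.l 13) (.a (.l 13) (.b (.l 13) (.a (.b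
(.l 13) (.a (.l 13) (.b (.l 13) (.a (.b (.l 13) .z) .z)))) (.b (.a (.l 13) (.b (.a (.l 13) (.b (.l 13) .z)) .z)) (.a (.b (.a (.b (.l 13) .z) .z) (.a
.z (.l 17))) (.b (.a .z (.l 17)) (.l 17)))))))) (.b (.a (.b (.l 13) (.a (.l 13) (.b (.l 13) (.a (.l 13) (.b (.l 13) (.a (.l 13) (.b (.l 13) .z)))))))
(.b (.a (.l 13) (.b (.l 13) (.a (.b (.l 13) (.a (.l 13) (.b (.l 13) .z))) (.b (.a (.l 13) (.b (.l 13) .z)) .z)))) (.a (.b (.a (.l 13) (.b (.l 13) (.a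
(.b (.l 13) .z) .z))) (.a (.b (.a (.l 13) .z) .z) (.b (.a .z (.l 17)) (.l 17)))) (.b (.a (.b (.a (.b (.l 13) .z) .z) (.a .z (.l 17))) (.l 17)) (.l
17))))) (.a (.b (.a (.b (.l 13) (.a (.b (.l 13) (.a (.l 13) (.b (.l 13) .z))) (.b (.a (.b (.l 13) .z) .z) (.a .z (.l 17))))) (.b (.a (.b (.l 13) (.a
(.b (.l 13) .z) .z)) (.b .z (.a .z (.l 17)))) (.a (.b (.a .z (.l 17)) (.l 17)) (.l 17)))) (.a (.b (.a (.b .z (.l 17)) (.l 17)) (.l 17)) (.l 17))) (.l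
17)))) (.a (.b (.a (.b (.a (.l 13) (.b (.a (.l 13) (.b (.l 13) (.a (.l 13) (.b (.l 13) .z)))) (.a (.b (.l 13) (.a (.b (.l 13) .z) .z)) (.b (.a (.b (.l
13) .z) .z) (.a .z (.l 17)))))) (.a (.b (.a (.b (.l 13) (.a (.l 13) (.b (.l 13) .z))) (.b (.a (.l 13) .z) .z)) (.a (.b .z (.l 17)) (.l 17))) (.b (.a
(.b (.a .z (.l 17)) (.l 17)) (.l 17)) (.l 17)))) (.b (.a (.b (.a (.b (.a (.l 13) (.b (.l 13) .z)) .z) (.b (.a .z (.l 17)) (.l 17))) (.l 17)) (.l 17))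
(.l 17))) (.l 17)) (.l 17)))) (.a (.b (.a (.b (.a (.b (.l 13) (.a (.l 13) (.b (.l 13) (.a (.b (.l 13) (.a (.l 13) .z)) (.b (.a (.b (.l 13) .z) .z) (.a
.z (.l 17))))))) (.b (.a (.b (.l 13) (.a (.l 13) (.b (.l 13) (.a (.l 13) (.b (.l 13) .z))))) (.b (.a (.l 13) (.b (.l 13) (.a (.b (.l 13) .z) .z))) (.a
(.b (.a (.l 13) .z) .z) (.b (.a .z (.l 17)) (.l 17))))) (.a (.b (.a (.b (.a (.l 13) (.b (.l 13) .z)) (.a (.b (.l 13) .z) .z)) (.b .z (.l 17))) (.a (.b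
(.a .z (.l 17)) (.l 17)) (.l 17))) (.l 17)))) (.a (.b (.a (.b (.a (.l 13) (.b (.a (.l 13) (.b (.l 13) .z)) .z)) (.a (.b (.a (.b (.l 13) .z) .z) .z)
(.b (.a .z (.l 17)) (.b (.l 17) .z)))) (.b (.a (.b .z (.l 17)) (.l 17)) (.b (.l 17) (.b .z (.a .z (.l 21)))))) (.a (.b (.a (.b (.b .z (.l 21)) (.a .z
(.l 21))) (.l 21)) (.a (.b .z (.l 41)) (.b (.a .z (.l 21)) .z))) (.l 21))) (.b (.b (.l 17) (.b (.a (.b (.l 17) .z) (.b .z (.a .z (.l 21)))) (.a (.b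
(.a .z (.l 21)) (.l 21)) (.l 21)))) (.l 21)))) (.b (.a (.b (.a (.b (.a (.b .z (.a .z (.l 17))) (.l 17)) (.l 17)) (.l 17)) (.l 17)) (.b (.l 17) (.b (.l
17) (.b (.l 17) (.a (.l 17) (.b (.l 17) (.a (.l 17) .z))))))) (.b (.b (.a (.b (.a (.l 17) (.b (.l 17) (.a (.l 17) .z))) (.a (.b (.a (.l 17) .z) .z)
(.b .z (.l 21)))) (.b (.a (.b (.a (.l 17) .z) .z) (.b .z (.l 21))) (.l 21))) (.a (.b (.a (.b (.a .z (.l 21)) (.l 21)) (.l 21)) (.l 21)) (.l 21))) (.l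
21)))) (.a (.b (.a (.b (.a (.b (.a (.l 41) (.b .z (.l 41))) (.l 41)) (.b (.a .z (.b (.l 21) (.a .z (.l 21)))) (.a (.l 41) (.b .z (.l 41))))) (.l 41))
(.b (.a (.b (.l 21) (.a (.b (.a .z (.l 21)) .z) (.l 21))) (.l 21)) (.a (.b (.a (.b .z (.l 41)) (.b (.a .z (.l 21)) .z)) (.l 41)) (.b (.a (.b (.l 21)
(.a .z (.l 21))) (.l 21)) (.a .z (.b (.l 21) .z)))))) (.a (.l 41) (.b (.a (.l 41) (.b (.a (.l 41) (.b .z (.l 41))) (.l 41))) (.l 41)))) (.b (.l 21)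
(.a (.b (.a (.b (.a (.b (.a .z (.l 21)) .z) (.l 21)) (.a (.b .z (.l 41)) .z)) (.b (.l 21) (.a (.b (.l 21) (.a .z (.l 21))) (.l 21)))) (.a (.l 41) (.b
(.a .z (.b (.l 21) .z)) (.a (.l 41) .z)))) (.b (.l 21) (.a (.b (.l 21) (.a (.b (.a .z (.l 21)) .z) (.l 21))) (.l 21))))))) (.b (.b (.b (.a (.l 17) (.b
(.l 17) (.a (.l 17) (.b (.a (.l 17) (.b (.l 17) (.a (.l 17) .z))) (.a (.b (.l 17) .z) (.b .z (.a .z (.l 21)))))))) (.a (.b (.a (.l 17) (.b (.l 17) (.a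
(.l 17) (.b (.a (.l 17) .z) .z)))) (.a (.b (.a (.l 17) (.b (.l 17) .z)) (.a (.b .z (.a .z (.l 21))) (.b (.a .z (.l 21)) (.l 21)))) (.b (.a (.b .z (.a
.z (.l 21))) (.b (.a .z (.l 21)) (.l 21))) (.l 21)))) (.b (.a (.b (.a (.b (.l 17) (.a (.l 17) .z)) (.b (.a (.l 17) .z) .z)) (.a (.b .z (.l 21)) (.l
21))) (.b (.a (.b (.a .z (.l 21)) (.l 21)) (.l 21)) (.l 21))) (.l 21)))) (.l 21)) (.l 21)))) (.b (.a (.b (.a (.b (.a (.b (.a (.b (.a (.b (.l 13) (.a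
(.l 13) .z)) (.b (.a (.b (.l 13) .z) .z) (.a .z (.l 17)))) (.a (.b .z (.l 17)) (.l 17))) (.b (.a (.b (.a .z (.l 17)) (.l 17)) (.l 17)) (.l 17))) (.l
17)) (.b (.b (.b (.a (.b .z (.l 17)) (.b (.a (.a .z (.l 15)) (.l 15)) .z)) (.l 17)) (.l 17)) (.l 17))) (.l 17)) (.b (.b (.b (.a (.b (.a (.b (.l 15)
(.a (.a .z (.l 15)) (.l 15))) (.l 15)) (.a (.b .z (.l 17)) (.b (.a (.a .z (.l 15)) (.l 15)) .z))) (.l 15)) (.a (.b (.a (.l 17) (.b (.a (.l 17) .z) (.l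
17))) (.l 17)) (.b (.a (.b .z (.a (.l 17) .z)) (.b (.l 15) (.a .z (.a .z (.l 15))))) (.a (.l 17) (.b (.a (.l 17) .z) (.l 17)))))) (.l 17)) (.l 17)))
(.b (.l 17) (.b (.l 17) (.a (.l 17) (.b (.a (.l 17) (.b (.l 17) (.a (.l 17) (.b (.l 17) (.a (.l 17) .z))))) (.a (.b (.l 17) (.a (.b (.l 17) (.a (.l
17) .z)) .z)) (.b (.a (.b (.l 17) .z) .z) (.a (.b .z (.l 41)) (.l 41))))))))) (.b (.b (.b (.a (.b (.l 15) (.a (.b (.l 15) (.a (.b (.a .z (.a .z (.l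
15))) (.a (.l 17) .z)) (.b (.l 15) (.a .z (.l 15))))) (.l 15))) (.l 15)) (.a (.b (.a (.b (.a (.l 17) (.b .z (.l 17))) (.l 17)) (.b (.a (.b (.a .z (.l
15)) .z) (.b (.l 15) (.a (.a .z (.l 15)) (.l 15)))) (.a (.l 17) (.b .z (.a (.l 17) .z))))) (.l 17)) (.b (.a (.b (.l 15) (.a (.b (.l 15) (.a .z (.a .z
(.l 15)))) (.l 15))) (.l 15)) (.a (.b (.a (.b (.a (.l 17) .z) (.l 17)) (.b (.a .z (.a .z (.l 15))) (.a (.l 17) .z))) (.l 17)) (.b (.a (.b (.l 15) (.a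
.z (.l 15))) (.l 15)) (.a (.b .z (.l 17)) (.b (.a (.a .z (.l 15)) (.l 15)) .z))))))) (.b (.a (.l 17) (.b (.a (.l 17) (.b (.a (.l 17) (.b (.a (.l 17)
.z) (.l 17))) (.l 17))) (.l 17))) (.l 17))) (.b (.l 17) (.b (.a (.b (.l 17) (.a (.l 17) (.b (.l 17) (.a (.b (.l 17) (.a (.l 17) .z)) .z)))) (.b (.a
(.b (.l 17) (.a (.l 17) (.b (.l 17) (.a (.l 17) .z)))) (.b (.a (.l 17) (.b (.a (.l 17) .z) .z)) (.a .z (.b .z (.l 41))))) (.a (.b (.a (.b (.a (.l 17)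
.z) .z) (.b .z (.l 41))) (.a (.b .z (.l 41)) (.l 41))) (.l 41)))) (.a (.b (.a (.b (.a (.l 17) (.b (.a (.l 17) .z) .z)) (.a (.b (.a (.l 17) .z) .z) (.b
.z (.l 41)))) (.b (.a (.b .z (.l 41)) (.l 41)) (.l 41))) (.l 41)) (.l 41)))))) (.b (.b (.a (.b (.a (.b (.a (.b (.l 17) (.a (.l 17) (.b (.l 17) (.a (.l
17) .z)))) (.b (.a (.l 17) (.b (.a (.l 17) .z) .z)) (.a (.b .z (.a .z (.l 21))) (.b (.a .z (.l 21)) (.l 21))))) (.a (.b (.a (.b (.a (.l 17) .z) .z)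
(.b .z (.l 21))) (.l 21)) (.l 21))) (.b (.a (.b (.a (.b .z (.l 21)) (.b (.a (.l 21) .z) (.l 21))) (.l 21)) (.b (.a (.b .z (.a (.l 21) .z)) (.b (.l 41)
.z)) (.a (.l 21) (.b (.a (.l 21) .z) (.l 21))))) (.l 21))) (.l 21)) (.a (.b (.b (.a (.b (.l 41) (.a (.b .z (.a (.l 21) .z)) (.b (.l 41) .z))) (.l 41))
(.a (.b (.a (.l 21) (.b (.a (.l 21) .z) (.l 21))) (.l 21)) (.b (.a .z (.b (.l 41) .z)) (.a (.l 21) (.b .z (.l 21)))))) (.l 21)) (.b (.b (.l 41) (.a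
(.b (.l 41) (.a .z (.b (.l 41) .z))) (.l 41))) (.a (.b (.b (.a (.l 21) (.b .z (.l 21))) (.l 21)) (.l 21)) (.b (.a (.b .z (.b (.a (.l 21) .z) (.l 21)))
(.b (.l 41) (.a (.b .z (.l 21)) .z))) (.a (.b (.l 21) (.a (.l 21) (.b (.l 21) .z))) (.b (.a (.b (.l 21) .z) .z) .z))))))) (.a (.l 21) (.a (.b (.l 21)
(.a (.l 21) (.b (.a (.l 21) (.b (.l 21) (.a (.l 21) .z))) (.a (.b (.l 21) (.a (.l 21) .z)) (.b (.a .z (.b .z (.l 22))) (.a (.b .z (.l 22)) (.l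
22))))))) (.b (.a (.b (.a (.l 21) (.b (.l 21) (.a (.l 21) (.b (.l 21) .z)))) (.a (.b (.l 21) (.a (.l 21) (.b (.l 21) .z))) (.b (.a (.b (.l 21) .z) .z)
.z))) (.b (.a (.b (.a (.b (.l 21) .z) .z) .z) (.l 153)) (.l 153))) (.a (.b (.a (.b (.a .z (.b .z (.l 22))) (.a (.b .z (.l 22)) (.l 22))) (.b .z (.a
(.l 22) (.b .z (.l 22))))) (.l 22)) (.b (.a .z (.l 153)) (.a (.b (.a (.b .z (.l 22)) .z) (.a (.l 22) (.b .z (.l 22)))) .z))))))) (.a (.b (.a (.l 21)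
(.b (.l 21) (.a (.l 21) (.b (.a (.l 21) (.b (.l 21) (.a (.l 21) .z))) (.a (.b (.l 21) (.a (.l 21) .z)) (.b .z (.a (.b .z (.l 25)) (.l 25)))))))) (.a
(.b (.l 21) (.a (.l 21) (.b (.a (.l 21) (.b (.a (.l 21) (.b (.l 21) .z)) (.a (.b (.l 21) .z) .z))) (.a (.b (.a (.l 21) (.b (.l 21) .z)) (.a (.b (.l
21) .z) .z)) (.b (.a .z (.l 25)) (.l 25)))))) (.b (.a (.b (.a (.l 21) (.b (.l 21) (.a (.b (.l 21) .z) .z))) (.a (.b (.a (.l 21) (.b (.l 21) .z)) (.a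
(.b (.l 21) .z) .z)) (.b (.a .z (.l 25)) (.l 25)))) (.b (.a (.b (.a .z (.b .z (.l 25))) (.a (.b .z (.l 25)) (.l 25))) (.l 25)) (.l 25))) (.a (.b (.a
(.b (.a .z (.l 25)) (.l 25)) (.l 25)) (.l 25)) (.l 25))))) (.b (.a (.b (.a (.b (.a (.l 21) (.b (.l 21) (.a (.l 21) .z))) (.a (.b (.l 21) (.a (.l 21)
.z)) (.b (.a .z (.b .z (.l 22))) (.a (.b .z (.l 22)) (.l 22))))) (.b (.a (.b (.a .z (.b .z (.l 22))) (.a (.b .z (.l 22)) (.l 22))) (.l 22)) (.b (.l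
22) (.a (.l 22) (.b (.a (.l 22) .z) .z))))) (.a (.b (.a (.b (.a .z (.b .z (.l 22))) .z) (.b (.b (.l 22) (.a (.l 22) .z)) (.b .z (.l 23)))) (.b (.b (.l
23) (.a .z (.l 23))) (.a (.b (.a (.l 25) .z) (.l 25)) (.b .z (.a (.l 25) .z))))) (.b (.b (.a (.b .z (.a .z (.l 23))) (.b (.a .z (.l 23)) (.l 23))) (.l
23)) (.b (.l 23) (.a (.b (.l 23) .z) (.l 23)))))) (.b (.b (.a (.l 22) (.b (.a (.l 22) (.b .z (.a (.l 22) .z))) (.a (.b (.l 22) .z) (.b .z (.a .z (.l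
23)))))) (.a (.b (.a (.b (.l 22) (.a (.l 22) .z)) (.b (.a (.l 22) .z) .z)) (.a (.b .z (.l 23)) (.l 23))) (.b (.a (.b (.a .z (.l 23)) (.l 23)) (.l 23))
(.l 23)))) (.l 23))) (.b (.a (.b (.a (.l 25) (.b (.a (.b (.a (.l 25) .z) (.l 25)) (.b .z (.a (.l 25) .z))) (.l 25))) (.l 25)) (.b (.a (.b (.a (.b (.l
23) .z) (.l 23)) (.a (.b (.a (.l 25) .z) (.l 25)) (.b .z (.a (.l 25) .z)))) (.b (.l 23) (.a (.b (.l 23) .z) (.l 23)))) (.a (.l 25) (.b (.a (.b (.a (.l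
25) .z) (.l 25)) (.b .z (.a (.l 25) .z))) (.l 25))))) (.l 25)))))))

theorem vQ160 : ev Q160 I4_7 I5_28 = 1833310809397228 := by decide +kernel

noncomputable def Q199 : QT :=
(.a (.b (.a (.b (.a (.b (.a (.b (.b .z (.a (.l 81) .z)) (.b .z (.b (.l 45) .z))) (.b (.b (.l 77) (.a .z (.l 77))) (.a (.b .z (.b .z (.b .z (.l 20))))
(.b .z (.a (.b .z (.l 20)) .z))))) (.a (.b (.l 20) (.a (.l 20) (.b (.a (.l 20) (.b (.l 20) .z)) .z))) (.b (.a (.b (.l 20) (.a (.b (.l 20) .z) .z)) (.b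
(.a (.b (.l 20) .z) .z) .z)) (.a (.b .z (.l 85)) (.l 85))))) (.b (.a (.b (.a (.l 77) (.b (.l 77) .z)) .z) (.b (.a .z (.l 107)) (.b (.b (.l 107) .z)
.z))) (.b (.a (.b (.a (.l 85) .z) (.l 85)) .z) (.a (.b (.l 85) (.b (.l 85) .z)) (.b (.a (.l 85) .z) .z))))) (.a (.b (.a (.b (.a (.b (.a (.b (.l 20)
.z) .z) .z) .z) (.b .z (.a (.l 67) .z))) (.b (.b .z (.b .z (.l 91))) (.b .z (.a .z (.l 67))))) (.b (.b (.a (.l 67) .z) (.a (.b .z (.a .z (.b .z (.l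
21)))) (.b (.a .z (.b .z (.l 21))) (.l 21)))) (.b (.b (.a (.a (.b .z (.l 21)) (.l 21)) (.b (.l 21) .z)) (.a (.b (.a (.l 21) .z) .z) (.b (.a .z (.l
21)) (.l 21)))) (.l 21)))) (.b (.b (.b (.a (.b .z (.l 91)) (.l 91)) (.l 91)) (.b (.b (.l 91) (.a .z (.l 91))) (.a (.b .z (.l 67)) (.b .z (.a .z (.b .z
(.l 21))))))) (.b (.b (.a (.b .z (.a (.b .z (.l 21)) (.l 21))) (.b (.a (.b .z (.l 21)) (.l 21)) (.l 21))) (.b (.l 21) (.a (.l 21) (.b (.l 21) .z))))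
(.b (.b (.a (.b .z (.a .z (.l 21))) (.b (.a .z (.l 21)) (.l 21))) (.l 21)) (.l 21)))))) (.b (.b (.b (.b (.a (.b (.a (.l 107) .z) (.l 107)) (.b (.a (.b
(.a .z (.l 17)) .z) (.l 17)) (.a .z (.b (.a .z (.l 17)) .z)))) (.a (.l 107) (.b (.a (.l 107) .z) .z))) (.b (.a .z (.b .z (.l 152))) (.a (.b (.l 152)
.z) (.l 152)))) (.a (.b (.b .z (.l 157)) (.a .z (.l 157))) (.b (.b (.b (.l 152) .z) .z) (.b (.l 157) (.b (.l 157) .z))))) (.b (.b (.a (.b (.a (.a (.l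
91) .z) .z) (.a (.l 91) .z)) (.b .z (.a (.b .z (.a .z (.b .z (.l 21)))) (.b (.a (.b .z (.l 21)) (.l 21)) (.l 21))))) (.a (.b (.a (.b (.l 91) .z) (.b
.z (.a (.b .z (.l 21)) (.l 21)))) (.a (.b (.a .z (.l 21)) (.l 21)) (.l 21))) (.l 21))) (.b (.b (.a (.l 21) (.b (.l 21) (.a (.b (.l 21) (.a (.l 21)
.z)) (.b (.a (.l 21) .z) .z)))) (.a (.b (.a (.b (.l 21) (.a (.l 21) .z)) (.b (.a (.l 21) .z) .z)) (.a (.b .z (.a .z (.l 21))) (.l 21))) (.b (.a (.b .z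
(.l 21)) (.l 21)) (.l 21)))) (.l 21))))) (.b (.b (.l 21) (.b (.l 21) (.a (.l 21) (.b (.l 21) (.a (.l 21) (.b (.l 21) (.a (.l 21) (.b (.l 21)
.z)))))))) (.b (.b (.b (.a (.b (.l 21) (.a (.l 21) (.b (.l 21) (.a (.l 21) .z)))) (.a (.b (.a (.l 21) (.b (.l 21) .z)) .z) .z)) (.a (.b (.a (.b (.l
21) (.a (.l 21) .z)) .z) .z) .z)) (.b (.a (.a (.a .z (.a (.a .z (.l 57)) (.l 57))) (.b (.a (.l 57) (.b .z (.l 57))) (.l 57))) (.b .z (.a (.a (.b .z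
(.l 57)) .z) .z))) (.a (.b (.a (.a .z (.l 57)) (.l 57)) (.a (.a .z (.l 57)) (.b (.a (.l 57) .z) .z))) (.b (.a (.b (.a (.l 57) .z) .z) (.b (.a .z (.l
27)) (.l 27))) (.a (.b (.a .z (.l 27)) (.l 27)) (.l 27)))))) (.b (.a (.b (.a (.b (.b .z (.a .z (.a .z (.l 27)))) (.a .z (.b (.l 27) .z))) (.b (.b (.a
(.a .z (.l 27)) (.l 27)) (.l 27)) (.l 27))) (.a (.b (.a (.l 53) (.b .z (.l 53))) (.a (.l 53) .z)) (.b (.a (.b (.a .z (.l 27)) .z) (.b (.l 27) (.a .z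
(.l 27)))) (.a (.a (.b .z (.l 29)) (.l 29)) (.b .z (.l 29)))))) (.b (.l 27) (.a (.b (.l 27) (.a (.b (.a .z (.l 27)) .z) (.b (.l 27) (.a .z (.l 27)))))
(.l 27)))) (.a (.a (.b (.a (.b .z (.a (.b .z (.l 29)) (.l 29))) (.b (.a (.b .z (.l 29)) (.l 29)) (.l 29))) (.l 29)) (.l 29)) (.b (.a (.b (.a (.l 29)
(.b .z (.a (.l 29) .z))) (.l 29)) (.b (.a (.b (.l 27) .z) (.l 27)) (.a (.b (.a (.l 29) .z) (.l 29)) (.b .z (.a (.l 29) .z))))) (.b (.a (.l 29) (.b (.l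
29) (.a (.l 29) (.a (.l 29) .z)))) (.a (.b (.l 29) (.a (.l 29) (.a (.l 29) .z))) (.b (.a (.a (.l 29) .z) .z) (.a .z (.l 29))))))))))) (.b (.b (.b (.b
(.a (.b (.l 17) (.a (.b (.a (.b (.a .z (.l 17)) .z) (.b (.l 17) (.a .z (.l 17)))) .z) (.b (.l 17) (.a (.b (.l 17) (.a .z (.l 17))) (.l 17))))) (.l
17)) (.a (.b (.a (.a .z (.a .z (.l 83))) (.b (.a .z (.b (.l 17) (.a .z (.l 17)))) (.a (.l 83) .z))) (.a (.a (.l 152) .z) (.l 83))) (.b (.a (.b (.l 17)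
(.a (.b (.l 17) (.a .z (.l 17))) (.l 17))) (.l 17)) (.a (.b (.a .z (.b (.l 17) (.a .z (.l 17)))) (.a (.l 83) .z)) (.b (.l 17) (.a (.b (.l 17) (.a .z
(.l 17))) (.l 17))))))) (.a (.b (.a (.a (.b (.l 152) .z) (.a (.l 152) .z)) (.b (.l 83) (.a (.a .z (.l 83)) (.b (.l 83) .z)))) (.a (.b .z (.a .z (.b .z
(.a .z (.l 21))))) (.b (.a (.b .z (.a .z (.b .z (.l 21)))) (.b (.a .z (.b .z (.l 21))) (.l 21))) (.a (.b (.a (.b .z (.l 21)) (.l 21)) (.l 21)) (.l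
21))))) (.b (.a (.b (.a (.b (.l 83) .z) (.b .z (.a .z (.b .z (.l 21))))) (.a (.b .z (.a (.b .z (.l 21)) (.l 21))) (.l 21))) (.b (.a (.b (.a (.b .z (.l
21)) .z) (.l 21)) (.b (.a (.b (.l 17) .z) (.l 17)) (.a (.b .z (.l 21)) .z))) (.l 21))) (.l 21)))) (.b (.b (.a (.a (.b (.a (.b (.a .z (.b .z (.l 21)))
(.a (.b .z (.l 21)) (.l 21))) (.l 21)) (.l 21)) (.l 21)) (.l 21)) (.a (.b (.l 21) (.a (.b (.l 21) (.a (.l 21) (.b (.l 21) (.a (.l 21) .z)))) (.b (.a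
(.l 21) (.b (.l 21) (.a (.l 21) .z))) (.a (.b (.a (.l 21) .z) .z) (.b .z (.l 21)))))) (.b (.a (.b (.l 21) (.a (.l 21) (.b (.l 21) .z))) (.b (.a (.b
(.l 21) (.a (.l 21) .z)) (.b (.a (.l 21) .z) .z)) (.a (.b .z (.a .z (.l 21))) (.l 21)))) (.a (.b (.a (.b .z (.a .z (.l 21))) (.b (.a .z (.l 21)) (.l
21))) (.l 21)) (.l 21))))) (.b (.a (.b (.a (.b (.a (.b (.l 21) .z) (.b .z (.a .z (.l 21)))) (.a (.b (.a .z (.l 21)) (.l 21)) (.l 21))) (.l 21)) (.l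
21)) (.l 21)) (.l 21)))) (.b (.b (.l 21) (.b (.a (.l 21) (.b (.l 21) (.a (.l 21) (.b (.l 21) (.a (.b (.l 21) (.a (.l 21) .z)) (.b (.a (.l 21) .z)
.z)))))) (.a (.b (.a (.l 21) (.b (.l 21) (.a (.l 21) (.b (.l 21) .z)))) (.a (.b (.a (.l 21) (.b (.l 21) .z)) .z) .z)) (.b (.a (.b (.a (.l 21) (.b (.a
(.l 21) .z) .z)) .z) .z) .z)))) (.b (.b (.a (.b .z (.a (.a .z (.l 169)) (.b (.l 169) .z))) (.b (.a (.a .z (.l 108)) (.b (.a (.l 108) .z) (.a .z (.b .z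
(.a .z (.l 27)))))) (.a (.b .z (.a (.b .z (.l 27)) (.l 27))) (.b (.a (.b .z (.l 27)) (.l 27)) (.l 27))))) (.a (.b (.a (.b .z (.b (.a .z (.l 27)) (.l
27))) (.b (.a (.b .z (.l 27)) (.l 27)) (.l 27))) (.l 27)) (.l 27))) (.b (.l 27) (.a (.b (.a (.b (.l 27) (.a (.b (.l 27) (.a .z (.l 27))) (.l 27))) (.l
27)) (.a (.b (.a .z (.b (.a .z (.l 27)) .z)) (.a (.l 29) (.b (.a (.l 29) .z) (.l 29)))) (.b (.l 27) (.a (.b .z (.a (.l 29) .z)) (.b (.l 27) (.a .z (.l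
27))))))) (.l 27)))))))

theorem vQ199 : ev Q199 I5_17 I5_29 = 736472646364010 := by decide +kernel

noncomputable def Q114 : QT :=
(.a (.b (.b (.a (.b (.b (.a (.l 4) (.b (.a (.b (.a (.l 4) (.b (.a (.l 4) (.b (.a (.l 4) (.b (.a (.l 4) (.a (.l 4) .z)) (.l 4))) (.l 4))) (.l 4))) (.l
4)) (.a (.b (.b (.a (.b (.a (.b (.a .z (.l 13)) (.a (.a (.l 4) .z) .z)) (.l 13)) (.a (.b (.a (.l 4) (.a (.l 4) .z)) (.l 4)) (.b .z (.a (.l 4) .z))))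
(.b (.l 13) (.a (.b (.l 13) (.a .z (.l 13))) (.l 13)))) (.a (.l 4) (.b (.a (.b .z (.a (.l 4) .z)) (.b (.l 13) (.a .z (.l 13)))) (.a (.l 4) (.b .z (.a
(.l 4) .z)))))) (.l 4)) (.b (.a (.b (.l 13) (.a (.b (.l 13) (.a (.b (.l 13) .z) (.l 13))) (.l 13))) (.l 13)) (.a (.b (.a (.b (.a (.b .z (.l 4)) .z)
(.l 4)) (.b (.a (.b (.l 13) .z) (.l 13)) (.a (.b .z (.l 4)) .z))) (.l 4)) (.b (.a (.b (.l 13) (.a (.b (.l 13) .z) (.l 13))) (.l 13)) (.a (.b (.a (.b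
.z (.a (.l 4) .z)) (.b (.l 13) .z)) (.a (.l 4) (.b (.a (.l 4) .z) (.l 4)))) (.b (.l 13) (.a (.b .z (.a (.l 4) .z)) (.b (.l 13) .z))))))))) (.a (.l 4)
(.a (.l 4) (.b (.a (.l 4) (.b (.a (.l 4) (.b (.a (.l 4) (.b (.a (.l 4) .z) (.l 4))) (.l 4))) (.l 4))) (.l 4)))))) (.l 4)) (.l 4)) (.b (.a (.b (.a (.b
(.l 13) (.a (.b (.a (.b (.a (.b (.a (.b .z (.a (.l 4) .z)) (.b (.l 13) .z)) (.a (.l 4) (.b (.a (.l 4) .z) (.l 4)))) (.b (.l 13) (.a (.b .z (.a (.l 4)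
.z)) (.b (.l 13) .z)))) (.a (.l 4) (.b (.a (.l 4) (.b (.a (.l 4) .z) (.l 4))) (.l 4)))) (.b (.l 13) (.a (.b (.a (.b .z (.a (.l 4) .z)) (.b (.l 13)
.z)) (.a (.l 4) (.b (.a (.l 4) .z) (.l 4)))) (.b (.l 13) (.a .z (.b (.l 13) .z)))))) (.a (.l 4) (.b (.a (.l 4) (.b (.a (.l 4) (.b .z (.l 4))) (.l 4)))
(.l 4)))) (.b (.l 13) (.a (.b (.a (.b (.a .z (.b (.l 13) .z)) (.a (.l 4) (.b .z (.l 4)))) (.b (.l 13) (.a .z (.b (.l 13) .z)))) (.a (.l 4) (.b (.a (.l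
4) (.b .z (.a (.l 4) .z))) (.l 4)))) (.b (.l 13) (.a (.b (.a (.b (.l 13) .z) (.l 13)) (.a (.b (.a (.l 4) .z) (.l 4)) (.b .z (.a (.l 4) .z)))) (.b (.l
13) (.a (.b (.l 13) .z) (.l 13))))))))) (.l 13)) (.a (.b (.a (.l 4) (.b (.a (.l 4) (.b (.a (.l 4) (.b (.a (.b (.a (.l 4) .z) (.l 4)) .z) (.l 4))) (.l
4))) (.l 4))) (.l 4)) (.b (.a (.b (.a (.b (.a (.b (.a (.b (.l 13) .z) (.l 13)) (.a (.b .z (.l 4)) .z)) (.b (.l 13) (.a (.b (.l 13) .z) (.l 13)))) (.a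
(.l 4) (.b (.a (.b .z (.a (.l 4) .z)) (.b (.l 13) .z)) (.a (.l 4) (.b (.a (.l 4) .z) (.l 4)))))) (.b (.l 13) (.a (.b (.l 13) (.a (.b .z (.a (.l 4)
.z)) (.b (.l 13) .z))) (.l 13)))) (.a (.l 4) (.b (.a (.b (.a (.l 4) (.b (.a (.l 4) .z) (.l 4))) (.l 4)) (.b (.a .z (.b (.l 13) .z)) (.a (.l 4) (.b .z
(.l 4))))) (.l 4)))) (.b (.l 13) (.a (.b (.a (.b (.l 13) (.a .z (.l 13))) (.l 13)) (.a (.b (.a (.b (.a (.l 4) .z) (.l 4)) (.b .z (.a (.l 4) .z))) (.l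
4)) (.b (.a (.b (.l 13) .z) (.l 13)) (.a (.b (.a (.l 4) .z) (.l 4)) .z)))) (.b (.l 13) (.a (.b (.l 13) (.a (.b (.l 13) .z) (.l 13))) (.l 13)))))) (.a
(.l 4) (.b (.a (.l 4) (.b (.a (.b (.a (.b .z (.l 4)) .z) (.a (.l 4) (.b (.a (.l 4) .z) (.l 4)))) (.b (.l 13) (.a (.b .z (.a (.l 4) .z)) (.b (.l 13)
.z)))) (.a (.l 4) (.b (.a (.l 4) (.b .z (.l 4))) (.l 4))))) (.l 4)))))) (.b (.l 13) (.a (.b (.l 13) (.a (.b (.a (.b (.l 13) (.a (.b (.a .z (.b (.l 13)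
.z)) (.a (.l 4) (.b .z (.a (.l 4) .z)))) (.b (.l 13) (.a (.b (.l 13) .z) (.l 13))))) (.l 13)) (.a (.b (.a (.l 4) (.b (.a (.b (.a (.l 4) .z) (.l 4))
.z) (.l 4))) (.l 4)) (.b (.a (.b (.a (.b (.l 13) .z) (.l 13)) (.a (.b .z (.l 4)) .z)) (.l 13)) (.a (.b (.a (.l 4) (.b (.a (.l 4) .z) (.l 4))) (.l 4))
(.b (.a (.b .z (.a (.l 4) .z)) (.b (.l 13) .z)) (.a (.l 4) (.b .z (.l 4)))))))) (.b (.l 13) (.a (.b (.l 13) (.a (.b (.l 13) (.a .z (.l 13))) (.l 13)))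
(.l 13))))) (.l 13)))) (.a (.l 4) (.b (.a (.b (.a (.l 4) (.b (.a (.b (.a (.b (.a (.b (.a (.l 4) .z) (.l 4)) (.b .z (.a (.l 4) .z))) (.l 4)) (.b (.a
(.b (.l 13) .z) (.l 13)) (.a (.b .z (.l 4)) .z))) (.a (.l 4) (.b (.a (.l 4) (.b (.a (.l 4) .z) (.l 4))) (.l 4)))) (.b (.l 13) (.a (.b (.a (.b .z (.a
(.l 4) .z)) (.b (.l 13) .z)) (.a (.l 4) (.b .z (.l 4)))) (.b (.l 13) (.a .z (.l 13)))))) (.a (.l 4) (.b (.a (.l 4) (.b (.a (.b (.a (.l 4) .z) (.l 4))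
(.b .z (.a (.l 4) .z))) (.l 4))) (.l 4))))) (.l 4)) (.b (.a (.b (.l 13) (.a (.b (.a (.b (.a (.b (.l 13) .z) (.l 13)) (.a (.b .z (.l 4)) .z)) (.l 13))
(.a (.b (.a (.l 4) (.b (.a (.l 4) .z) (.l 4))) (.l 4)) (.b (.a .z (.b (.l 13) .z)) (.a (.l 4) (.b .z (.a (.l 4) .z)))))) (.b (.l 13) (.a (.b (.l 13)
(.a (.b (.l 13) .z) (.l 13))) (.l 13))))) (.l 13)) (.a (.b (.a (.l 4) (.b (.a (.b (.a (.b (.a (.l 4) .z) (.l 4)) .z) (.l 4)) (.b (.a (.b (.l 13) .z)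
(.l 13)) (.a (.b .z (.a (.l 4) .z)) (.b (.l 13) .z)))) (.a (.l 4) (.b (.a (.l 4) (.b .z (.l 4))) (.l 4))))) (.l 4)) (.b (.a (.b (.l 13) (.a (.b (.a .z
(.l 13)) (.a (.b (.a (.l 4) .z) (.l 4)) (.b .z (.a (.l 4) .z)))) (.b (.l 13) (.a (.b (.l 13) .z) (.l 13))))) (.l 13)) (.a (.b (.a (.l 4) (.b (.a (.b
.z (.a (.l 4) .z)) (.b (.l 13) .z)) (.a (.l 4) (.b (.a (.l 4) .z) (.l 4))))) (.l 4)) (.b (.a (.b (.l 13) (.a .z (.l 13))) (.l 13)) (.a (.b (.a (.b (.a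
(.l 4) .z) (.l 4)) (.b .z (.a (.l 4) .z))) (.l 4)) (.b (.a (.b (.l 13) .z) (.l 13)) (.a (.b .z (.a (.l 4) .z)) (.b (.l 13) .z)))))))))) (.a (.l 4) (.b
(.a (.l 4) (.b (.a (.l 4) (.b (.a (.l 4) (.b (.a (.l 4) (.b (.a (.l 4) .z) (.l 4))) (.l 4))) (.l 4))) (.l 4))) (.l 4))))))) (.l 4)) (.a (.b (.l 4) (.a
(.b (.l 4) (.a (.b (.l 4) (.a (.b (.l 4) (.a (.b (.l 4) (.a (.b (.l 4) (.a (.b (.l 4) (.a (.b (.l 4) .z) (.b .z (.l 5)))) (.b (.a (.b (.l 4) .z) (.b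
.z (.l 5))) (.l 5)))) (.b (.a (.b (.l 4) (.a (.b (.l 4) .z) (.b .z (.l 5)))) (.b (.a (.b (.l 4) .z) (.b .z (.l 5))) (.l 5))) (.l 5)))) (.b (.a (.b (.l
4) (.a (.b (.l 4) (.a (.b (.l 4) .z) (.b .z (.l 5)))) (.b (.a (.b (.l 4) .z) (.b .z (.l 5))) (.l 5)))) (.b (.a (.b (.l 4) (.a (.b (.l 4) .z) (.b .z
(.l 5)))) (.b (.a (.b (.l 4) .z) (.b .z (.l 5))) (.l 5))) (.l 5))) (.l 5)))) (.b (.a (.b (.l 4) (.a (.b (.l 4) (.a (.b (.l 4) (.a (.b (.l 4) .z) (.b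
.z (.l 5)))) (.b (.a (.b (.l 4) .z) (.b .z (.l 5))) (.l 5)))) (.b (.a (.b (.l 4) (.a (.b (.l 4) .z) (.b .z (.l 5)))) (.b (.a (.b (.l 4) .z) (.b .z (.l
5))) (.l 5))) (.l 5)))) (.b (.a (.b (.l 4) (.a (.b (.l 4) (.a (.b (.l 4) .z) (.b .z (.l 5)))) (.b (.a (.b (.l 4) .z) (.b .z (.l 5))) (.l 5)))) (.b (.a
(.b (.l 4) (.a (.b (.l 4) .z) (.b .z (.l 5)))) (.b (.a (.b (.l 4) .z) (.b .z (.l 5))) (.l 5))) (.l 5))) (.l 5))) (.l 5)))) (.b (.a (.b (.l 4) (.a (.b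
(.l 4) (.a (.b (.l 4) (.a (.b (.l 4) (.a (.b (.l 4) .z) (.b .z (.l 5)))) (.b (.a (.b (.l 4) .z) (.b .z (.l 5))) (.l 5)))) (.b (.a (.b (.l 4) (.a (.b
(.l 4) .z) (.b .z (.l 5)))) (.b (.a (.b (.l 4) .z) (.b .z (.l 5))) (.l 5))) (.l 5)))) (.b (.a (.b (.l 4) (.a (.b (.l 4) (.a (.b (.l 4) .z) (.b .z (.l
5)))) (.b (.a (.b (.l 4) .z) (.b .z (.l 5))) (.l 5)))) (.b (.a (.b (.l 4) (.a (.b (.l 4) .z) (.b .z (.l 5)))) (.b (.a (.b (.l 4) .z) (.b .z (.l 5)))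
(.l 5))) (.l 5))) (.l 5)))) (.b (.a (.b (.l 4) (.a (.b (.l 4) (.a (.b (.l 4) (.a (.b (.l 4) .z) (.b .z (.l 5)))) (.b (.a (.b (.l 4) .z) (.b .z (.l
5))) (.l 5)))) (.b (.a (.b (.l 4) (.a (.b (.l 4) .z) (.b .z (.l 5)))) (.b (.a (.b (.l 4) .z) (.b .z (.l 5))) (.l 5))) (.l 5)))) (.b (.a (.b (.l 4) (.a
(.b (.l 4) (.a (.b (.l 4) .z) (.b .z (.l 5)))) (.b (.a (.b (.l 4) .z) (.b .z (.l 5))) (.l 5)))) (.b (.a (.b (.l 4) (.a (.b (.l 4) .z) (.b .z (.l 5))))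
(.b (.a (.b (.l 4) .z) (.b .z (.l 5))) (.l 5))) (.l 5))) (.l 5))) (.l 5))) (.l 5)))) (.b (.a (.b (.l 4) (.a (.b (.l 4) (.a (.b (.l 4) (.a (.b (.l 4)
(.a (.b (.l 4) (.a (.b (.l 4) .z) (.b .z (.l 5)))) (.b (.a (.b (.l 4) .z) (.b .z (.l 5))) (.l 5)))) (.b (.a (.b (.l 4) (.a (.b (.l 4) .z) (.b .z (.l
5)))) (.b (.a (.b (.l 4) .z) (.b .z (.l 5))) (.l 5))) (.l 5)))) (.b (.a (.b (.l 4) (.a (.b (.l 4) (.a (.b (.l 4) .z) (.b .z (.l 5)))) (.b (.a (.b (.l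
4) .z) (.b .z (.l 5))) (.l 5)))) (.b (.a (.b (.l 4) (.a (.b (.l 4) .z) (.b .z (.l 5)))) (.b (.a (.b (.l 4) .z) (.b .z (.l 5))) (.l 5))) (.l 5))) (.l
5)))) (.b (.a (.b (.l 4) (.a (.b (.l 4) (.a (.b (.l 4) (.a (.b (.l 4) .z) (.b .z (.l 5)))) (.b (.a (.b (.l 4) .z) (.b .z (.l 5))) (.l 5)))) (.b (.a
(.b (.l 4) (.a (.b (.l 4) .z) (.b .z (.l 5)))) (.b (.a (.b (.l 4) .z) (.b .z (.l 5))) (.l 5))) (.l 5)))) (.b (.a (.b (.l 4) (.a (.b (.l 4) (.a (.b (.l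
4) .z) (.b .z (.l 5)))) (.b (.a (.b (.l 4) .z) (.b .z (.l 5))) (.l 5)))) (.b (.a (.b (.l 4) (.a (.b (.l 4) .z) (.b .z (.l 5)))) (.b (.a (.b (.l 4) .z)
(.b .z (.l 5))) (.l 5))) (.l 5))) (.l 5))) (.l 5)))) (.b (.a (.b (.l 4) (.a (.b (.l 4) (.a (.b (.l 4) (.a (.b (.l 4) (.a (.b (.l 4) .z) (.b .z (.l
5)))) (.b (.a (.b (.l 4) .z) (.b .z (.l 5))) (.l 5)))) (.b (.a (.b (.l 4) (.a (.b (.l 4) .z) (.b .z (.l 5)))) (.b (.a (.b (.l 4) .z) (.b .z (.l 5)))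
(.l 5))) (.l 5)))) (.b (.a (.b (.l 4) (.a (.b (.l 4) (.a (.b (.l 4) .z) (.b .z (.l 5)))) (.b (.a (.b (.l 4) .z) (.b .z (.l 5))) (.l 5)))) (.b (.a (.b
(.l 4) (.a (.b (.l 4) .z) (.b .z (.l 5)))) (.b (.a (.b (.l 4) .z) (.b .z (.l 5))) (.l 5))) (.l 5))) (.l 5)))) (.b (.a (.b (.l 4) (.a (.b (.l 4) (.a
(.b (.l 4) (.a (.b (.l 4) .z) (.b .z (.l 5)))) (.b (.a (.b (.l 4) .z) (.b .z (.l 5))) (.l 5)))) (.b (.a (.b (.l 4) (.a (.b (.l 4) .z) (.b .z (.l 5))))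
(.b (.a (.b (.l 4) .z) (.b .z (.l 5))) (.l 5))) (.l 5)))) (.b (.a (.b (.l 4) (.a (.b (.l 4) (.a (.b (.l 4) .z) (.b .z (.l 5)))) (.b (.a (.b (.l 4) .z)
(.b .z (.l 5))) (.l 5)))) (.b (.a (.b (.l 4) (.a (.b (.l 4) .z) (.b .z (.l 5)))) (.b (.a (.b (.l 4) .z) (.b .z (.l 5))) (.l 5))) (.l 5))) (.l 5))) (.l
5))) (.l 5))) (.l 5)))) (.b (.a (.b (.l 4) (.a (.b (.l 4) (.a (.b (.l 4) (.a (.b (.l 4) (.a (.b (.l 4) (.a (.b (.l 4) (.a (.b (.l 4) .z) (.b .z (.l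
5)))) (.b (.a (.b (.l 4) .z) (.b .z (.l 5))) (.l 5)))) (.b (.a (.b (.l 4) (.a (.b (.l 4) .z) (.b .z (.l 5)))) (.b (.a (.b (.l 4) .z) (.b .z (.l 5)))
(.l 5))) (.l 5)))) (.b (.a (.b (.l 4) (.a (.b (.l 4) (.a (.b (.l 4) .z) (.b .z (.l 5)))) (.b (.a (.b (.l 4) .z) (.b .z (.l 5))) (.l 5)))) (.b (.a (.b
(.l 4) (.a (.b (.l 4) .z) (.b .z (.l 5)))) (.b (.a (.b (.l 4) .z) (.b .z (.l 5))) (.l 5))) (.l 5))) (.l 5)))) (.b (.a (.b (.l 4) (.a (.b (.l 4) (.a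
(.b (.l 4) (.a (.b (.l 4) .z) (.b .z (.l 5)))) (.b (.a (.b (.l 4) .z) (.b .z (.l 5))) (.l 5)))) (.b (.a (.b (.l 4) (.a (.b (.l 4) .z) (.b .z (.l 5))))
(.b (.a (.b (.l 4) .z) (.b .z (.l 5))) (.l 5))) (.l 5)))) (.b (.a (.b (.l 4) (.a (.b (.l 4) (.a (.b (.l 4) .z) (.b .z (.l 5)))) (.b (.a (.b (.l 4) .z)
(.b .z (.l 5))) (.l 5)))) (.b (.a (.b (.l 4) (.a (.b (.l 4) .z) (.b .z (.l 5)))) (.b (.a (.b (.l 4) .z) (.b .z (.l 5))) (.l 5))) (.l 5))) (.l 5))) (.l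
5)))) (.b (.a (.b (.l 4) (.a (.b (.l 4) (.a (.b (.l 4) (.a (.b (.l 4) (.a (.b (.l 4) .z) (.b .z (.l 5)))) (.b (.a (.b (.l 4) .z) (.b .z (.l 5))) (.l
5)))) (.b (.a (.b (.l 4) (.a (.b (.l 4) .z) (.b .z (.l 5)))) (.b (.a (.b (.l 4) .z) (.b .z (.l 5))) (.l 5))) (.l 5)))) (.b (.a (.b (.l 4) (.a (.b (.l
4) (.a (.b (.l 4) .z) (.b .z (.l 5)))) (.b (.a (.b (.l 4) .z) (.b .z (.l 5))) (.l 5)))) (.b (.a (.b (.l 4) (.a (.b (.l 4) .z) (.b .z (.l 5)))) (.b (.a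
(.b (.l 4) .z) (.b .z (.l 5))) (.l 5))) (.l 5))) (.l 5)))) (.b (.a (.b (.l 4) (.a (.b (.l 4) (.a (.b (.l 4) (.a (.b (.l 4) .z) (.b .z (.l 5)))) (.b
(.a (.b (.l 4) .z) (.b .z (.l 5))) (.l 5)))) (.b (.a (.b (.l 4) (.a (.b (.l 4) .z) (.b .z (.l 5)))) (.b (.a (.b (.l 4) .z) (.b .z (.l 5))) (.l 5)))
(.l 5)))) (.b (.a (.b (.l 4) (.a (.b (.l 4) (.a (.b (.l 4) .z) (.b .z (.l 5)))) (.b (.a (.b (.l 4) .z) (.b .z (.l 5))) (.l 5)))) (.b (.a (.b (.l 4)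
(.a (.b (.l 4) .z) (.b .z (.l 5)))) (.b (.a (.b (.l 4) .z) (.b .z (.l 5))) (.l 5))) (.l 5))) (.l 5))) (.l 5))) (.l 5)))) (.b (.a (.b (.l 4) (.a (.b
(.l 4) (.a (.b (.l 4) (.a (.b (.l 4) (.a (.b (.l 4) (.a (.b (.l 4) .z) (.b .z (.l 5)))) (.b (.a (.b (.l 4) .z) (.b .z (.l 5))) (.l 5)))) (.b (.a (.b
(.l 4) (.a (.b (.l 4) .z) (.b .z (.l 5)))) (.b (.a (.b (.l 4) .z) (.b .z (.l 5))) (.l 5))) (.l 5)))) (.b (.a (.b (.l 4) (.a (.b (.l 4) (.a (.b (.l 4)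
.z) (.b .z (.l 5)))) (.b (.a (.b (.l 4) .z) (.b .z (.l 5))) (.l 5)))) (.b (.a (.b (.l 4) (.a (.b (.l 4) .z) (.b .z (.l 5)))) (.b (.a (.b (.l 4) .z)
(.b .z (.l 5))) (.l 5))) (.l 5))) (.l 5)))) (.b (.a (.b (.l 4) (.a (.b (.l 4) (.a (.b (.l 4) (.a (.b (.l 4) .z) (.b .z (.l 5)))) (.b (.a (.b (.l 4)
.z) (.b .z (.l 5))) (.l 5)))) (.b (.a (.b (.l 4) (.a (.b (.l 4) .z) (.b .z (.l 5)))) (.b (.a (.b (.l 4) .z) (.b .z (.l 5))) (.l 5))) (.l 5)))) (.b (.a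
(.b (.l 4) (.a (.b (.l 4) (.a (.b (.l 4) .z) (.b .z (.l 5)))) (.b (.a (.b (.l 4) .z) (.b .z (.l 5))) (.l 5)))) (.b (.a (.b (.l 4) (.a (.b (.l 4) .z)
(.b .z (.l 5)))) (.b (.a (.b (.l 4) .z) (.b .z (.l 5))) (.l 5))) (.l 5))) (.l 5))) (.l 5)))) (.b (.a (.b (.l 4) (.a (.b (.l 4) (.a (.b (.l 4) (.a (.b
(.l 4) (.a (.b (.l 4) .z) (.b .z (.l 5)))) (.b (.a (.b (.l 4) .z) (.b .z (.l 5))) (.l 5)))) (.b (.a (.b (.l 4) (.a (.b (.l 4) .z) (.b .z (.l 5)))) (.b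
(.a (.b (.l 4) .z) (.b .z (.l 5))) (.l 5))) (.l 5)))) (.b (.a (.b (.l 4) (.a (.b (.l 4) (.a (.b (.l 4) .z) (.b .z (.l 5)))) (.b (.a (.b (.l 4) .z) (.b
.z (.l 5))) (.l 5)))) (.b (.a (.b (.l 4) (.a (.b (.l 4) .z) (.b .z (.l 5)))) (.b (.a (.b (.l 4) .z) (.b .z (.l 5))) (.l 5))) (.l 5))) (.l 5)))) (.b
(.a (.b (.l 4) (.a (.b (.l 4) (.a (.b (.l 4) (.a (.b (.l 4) .z) (.b .z (.l 5)))) (.b (.a (.b (.l 4) .z) (.b .z (.l 5))) (.l 5)))) (.b (.a (.b (.l 4)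
(.a (.b (.l 4) .z) (.b .z (.l 5)))) (.b (.a (.b (.l 4) .z) (.b .z (.l 5))) (.l 5))) (.l 5)))) (.b (.a (.b (.l 4) (.a (.b (.l 4) (.a (.b (.l 4) .z) (.b
.z (.l 5)))) (.b (.a (.b (.l 4) .z) (.b .z (.l 5))) (.l 5)))) (.b (.a (.b (.l 4) (.a (.b (.l 4) .z) (.b .z (.l 5)))) (.b (.a (.b (.l 4) .z) (.b .z (.l
5))) (.l 5))) (.l 5))) (.l 5))) (.l 5))) (.l 5))) (.l 5))) (.l 5)))) (.b (.a (.b (.b (.a (.l 13) (.a (.a (.l 13) (.a (.a (.l 13) (.a (.a (.l 13) .z)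
(.l 11))) (.l 11))) (.l 11))) (.a (.b (.l 13) (.a (.b (.a (.b (.a (.b (.a (.b (.a .z (.l 13)) (.a (.b (.a (.l 4) .z) (.l 4)) (.b .z (.a (.l 4) .z))))
(.b (.l 13) (.a (.b (.l 13) .z) (.l 13)))) (.a (.l 4) (.b (.a (.b .z (.a (.l 4) .z)) (.b (.l 13) .z)) (.a (.l 4) (.b (.a (.l 4) .z) (.l 4)))))) (.b
(.l 13) (.a (.b (.l 13) (.a .z (.l 13))) (.l 13)))) (.a (.l 4) (.b (.a (.b (.a (.b (.a (.l 4) .z) (.l 4)) (.b .z (.a (.l 4) .z))) (.l 4)) (.b (.a (.b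
(.l 13) .z) (.l 13)) (.a (.b .z (.a (.l 4) .z)) (.b (.l 13) .z)))) (.a (.l 4) (.b (.a (.l 4) (.b .z (.l 4))) (.l 4)))))) (.b (.l 13) (.a (.b (.l 13)
(.a (.b (.a .z (.l 13)) (.a (.b (.a (.l 4) .z) (.l 4)) .z)) (.l 13))) (.l 13)))) (.a (.l 4) (.b (.a (.b (.a (.b (.a (.l 4) (.b (.a (.l 4) .z) (.l 4)))
(.l 4)) (.b (.a (.b .z (.a (.l 4) .z)) (.b (.l 13) .z)) (.a (.l 4) (.b .z (.a (.l 4) .z))))) (.l 4)) (.b (.a (.b (.l 13) (.a (.b (.l 13) .z) (.l 13)))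
(.l 13)) (.a (.b (.a (.b .z (.l 4)) .z) (.a (.l 4) (.b (.a (.l 4) .z) (.l 4)))) (.b (.l 13) (.a .z (.l 13)))))) (.a (.l 4) (.b (.a (.l 4) (.b (.a (.b
(.a (.l 4) .z) (.l 4)) .z) (.l 4))) (.l 4)))))) (.b (.l 13) (.a (.b (.l 13) (.a (.b (.a (.b (.a (.b (.l 13) .z) (.l 13)) (.a (.b .z (.a (.l 4) .z))
(.b (.l 13) .z))) (.l 13)) (.a (.b (.a (.l 4) (.b .z (.a (.l 4) .z))) (.l 4)) (.b (.a (.b (.l 13) .z) (.l 13)) (.a (.b .z (.l 4)) .z)))) (.l 13))) (.l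
13))))) (.a (.a (.l 13) (.a (.a (.l 13) (.a (.a (.l 13) .z) (.l 11))) (.l 11))) (.l 11)))) (.a (.b (.b (.a (.l 4) (.b (.a (.b (.a (.b (.a (.l 4) (.b
(.a (.l 4) (.b (.a (.l 4) .z) (.l 4))) (.l 4))) (.l 4)) (.b (.a (.b (.a .z (.l 13)) (.a (.b (.a (.l 4) .z) (.l 4)) .z)) (.l 13)) (.a (.b (.a (.l 4)
(.b (.a (.l 4) .z) (.l 4))) (.l 4)) (.b (.a .z (.b (.l 13) .z)) (.a (.l 4) (.b .z (.a (.l 4) .z))))))) (.l 4)) (.b (.a (.b (.l 13) (.a (.b (.l 13) (.a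
(.b (.l 13) .z) (.l 13))) (.l 13))) (.l 13)) (.a (.b (.a (.b (.a (.b .z (.a (.l 4) .z)) (.b (.l 13) .z)) (.a (.l 4) (.b .z (.a (.l 4) .z)))) (.b (.l
13) (.a (.b (.l 13) .z) (.l 13)))) (.a (.l 4) (.b (.a (.b .z (.l 4)) .z) (.a (.l 4) (.b (.a (.l 4) .z) (.l 4)))))) (.b (.l 13) (.a (.b (.l 13) (.a .z
(.l 13))) (.l 13)))))) (.a (.l 4) (.b (.a (.l 4) (.b (.a (.b (.a (.b (.a (.l 4) .z) (.l 4)) .z) (.a (.l 4) (.b (.a (.l 4) .z) (.l 4)))) (.b (.l 13)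
(.a .z (.l 13)))) (.a (.l 4) (.b (.a (.b (.a (.l 4) .z) (.l 4)) .z) (.a (.l 4) (.b (.a (.l 4) .z) (.l 4))))))) (.l 4))))) (.l 4)) (.a (.b (.l 4) (.a
(.b (.l 4) (.a (.b (.l 4) (.a (.b (.l 4) (.a (.b (.l 4) (.a (.b (.l 4) .z) (.b .z (.l 5)))) (.b (.a (.b (.l 4) .z) (.b .z (.l 5))) (.l 5)))) (.b (.a
(.b (.l 4) (.a (.b (.l 4) .z) (.b .z (.l 5)))) (.b (.a (.b (.l 4) .z) (.b .z (.l 5))) (.l 5))) (.l 5)))) (.b (.a (.b (.l 4) (.a (.b (.l 4) (.a (.b (.l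
4) .z) (.b .z (.l 5)))) (.b (.a (.b (.l 4) .z) (.b .z (.l 5))) (.l 5)))) (.b (.a (.b (.l 4) (.a (.b (.l 4) .z) (.b .z (.l 5)))) (.b (.a (.b (.l 4) .z)
(.b .z (.l 5))) (.l 5))) (.l 5))) (.l 5)))) (.b (.a (.b (.l 4) (.a (.b (.l 4) (.a (.b (.l 4) (.a (.b (.l 4) .z) (.b .z (.l 5)))) (.b (.a (.b (.l 4)
.z) (.b .z (.l 5))) (.l 5)))) (.b (.a (.b (.l 4) (.a (.b (.l 4) .z) (.b .z (.l 5)))) (.b (.a (.b (.l 4) .z) (.b .z (.l 5))) (.l 5))) (.l 5)))) (.b (.a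
(.b (.l 4) (.a (.b (.l 4) (.a (.b (.l 4) .z) (.b .z (.l 5)))) (.b (.a (.b (.l 4) .z) (.b .z (.l 5))) (.l 5)))) (.b (.a (.b (.l 4) (.a (.b (.l 4) .z)
(.b .z (.l 5)))) (.b (.a (.b (.l 4) .z) (.b .z (.l 5))) (.l 5))) (.l 5))) (.l 5))) (.l 5)))) (.b (.a (.b (.l 4) (.a (.b (.l 4) (.a (.b (.l 4) (.a (.b
(.l 4) (.a (.b (.l 4) .z) (.b .z (.l 5)))) (.b (.a (.b (.l 4) .z) (.b .z (.l 5))) (.l 5)))) (.b (.a (.b (.l 4) (.a (.b (.l 4) .z) (.b .z (.l 5)))) (.b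
(.a (.b (.l 4) .z) (.b .z (.l 5))) (.l 5))) (.l 5)))) (.b (.a (.b (.l 4) (.a (.b (.l 4) (.a (.b (.l 4) .z) (.b .z (.l 5)))) (.b (.a (.b (.l 4) .z) (.b
.z (.l 5))) (.l 5)))) (.b (.a (.b (.l 4) (.a (.b (.l 4) .z) (.b .z (.l 5)))) (.b (.a (.b (.l 4) .z) (.b .z (.l 5))) (.l 5))) (.l 5))) (.l 5)))) (.b
(.a (.b (.l 4) (.a (.b (.l 4) (.a (.b (.l 4) (.a (.b (.l 4) .z) (.b .z (.l 5)))) (.b (.a (.b (.l 4) .z) (.b .z (.l 5))) (.l 5)))) (.b (.a (.b (.l 4)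
(.a (.b (.l 4) .z) (.b .z (.l 5)))) (.b (.a (.b (.l 4) .z) (.b .z (.l 5))) (.l 5))) (.l 5)))) (.b (.a (.b (.l 4) (.a (.b (.l 4) (.a (.b (.l 4) .z) (.b
.z (.l 5)))) (.b (.a (.b (.l 4) .z) (.b .z (.l 5))) (.l 5)))) (.b (.a (.b (.l 4) (.a (.b (.l 4) .z) (.b .z (.l 5)))) (.b (.a (.b (.l 4) .z) (.b .z (.l
5))) (.l 5))) (.l 5))) (.l 5))) (.l 5))) (.l 5)))) (.b (.a (.b (.b (.a (.l 13) (.a (.a (.l 13) (.a (.a (.l 13) .z) (.l 11))) (.l 11))) (.a (.b (.a (.b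
(.l 13) (.a (.b (.l 13) (.a .z (.b (.l 13) .z))) (.l 13))) (.l 13)) (.a (.b (.a (.b (.a (.l 4) (.b .z (.a (.l 4) .z))) (.l 4)) (.b (.a (.b (.l 13) .z)
(.l 13)) (.a (.b .z (.a (.l 4) .z)) (.b (.l 13) .z)))) (.a (.l 4) (.b (.a (.l 4) (.b .z (.a (.l 4) .z))) (.l 4)))) (.b (.l 13) (.a (.b (.a (.b (.l 13)
.z) (.l 13)) (.a (.b .z (.a (.l 4) .z)) (.b (.l 13) .z))) (.l 13))))) (.a (.a (.l 13) (.a (.a (.l 13) .z) (.l 11))) (.l 11)))) (.a (.b (.b (.a (.l 4)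
(.b (.a (.b (.a (.l 4) (.b .z (.a (.l 4) .z))) (.l 4)) (.b (.a (.b (.l 13) .z) (.l 13)) (.a (.b .z (.a (.l 4) .z)) (.b (.l 13) .z)))) (.a (.l 4) (.b
(.a (.l 4) (.b .z (.a (.l 4) .z))) (.l 4))))) (.l 4)) (.a (.b (.l 4) (.a (.b (.l 4) (.a (.b (.l 4) (.a (.b (.l 4) .z) (.b .z (.l 5)))) (.b (.a (.b (.l
4) .z) (.b .z (.l 5))) (.l 5)))) (.b (.a (.b (.l 4) (.a (.b (.l 4) .z) (.b .z (.l 5)))) (.b (.a (.b (.l 4) .z) (.b .z (.l 5))) (.l 5))) (.l 5)))) (.b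
(.a (.b (.l 4) (.a (.b (.l 4) (.a (.b (.l 4) .z) (.b .z (.l 5)))) (.b (.a (.b (.l 4) .z) (.b .z (.l 5))) (.l 5)))) (.b (.a (.b (.l 4) (.a (.b (.l 4)
.z) (.b .z (.l 5)))) (.b (.a (.b (.l 4) .z) (.b .z (.l 5))) (.l 5))) (.l 5))) (.l 5)))) (.b (.a (.b (.b (.a (.l 13) (.a (.a (.l 13) .z) (.l 11))) (.a
(.b (.a (.b (.l 13) .z) (.l 13)) (.a (.b .z (.a (.l 4) .z)) (.b (.l 13) .z))) (.a (.a (.l 13) .z) (.l 11)))) (.a (.b (.b (.a (.l 4) (.b .z (.a (.l 4)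
.z))) (.l 4)) (.a (.b (.l 4) (.a (.b (.l 4) .z) (.b .z (.l 5)))) (.b (.a (.b (.l 4) .z) (.b .z (.l 5))) (.l 5)))) (.b (.a (.b .z (.a .z (.b .z (.l
5)))) (.b .z (.b .z (.l 5)))) (.l 5)))) (.b (.a (.b (.l 11) (.a (.b (.l 11) .z) (.b .z (.l 9)))) (.b (.a (.b (.l 11) .z) (.b .z (.l 9))) (.l 9))) (.b
(.b (.l 9) (.b .z (.l 5))) (.l 5)))) (.l 5)))) (.b (.a (.b (.l 11) (.a (.b (.l 11) (.a (.b (.l 11) (.a (.b (.l 11) .z) (.b .z (.l 9)))) (.b (.a (.b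
(.l 11) .z) (.b .z (.l 9))) (.l 9)))) (.b (.a (.b (.l 11) (.a (.b (.l 11) .z) (.b .z (.l 9)))) (.b (.a (.b (.l 11) .z) (.b .z (.l 9))) (.l 9))) (.l
9)))) (.b (.a (.b (.l 11) (.a (.b (.l 11) (.a (.b (.l 11) .z) (.b .z (.l 9)))) (.b (.a (.b (.l 11) .z) (.b .z (.l 9))) (.l 9)))) (.b (.a (.b (.l 11)
(.a (.b (.l 11) .z) (.b .z (.l 9)))) (.b (.a (.b (.l 11) .z) (.b .z (.l 9))) (.l 9))) (.l 9))) (.l 9))) (.b (.b (.l 9) (.b (.b (.l 9) (.b .z (.l 5)))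
(.l 5))) (.l 5)))) (.l 5)))) (.b (.a (.b (.l 11) (.a (.b (.l 11) (.a (.b (.l 11) (.a (.b (.l 11) (.a (.b (.l 11) (.a (.b (.l 11) .z) (.b .z (.l 9))))
(.b (.a (.b (.l 11) .z) (.b .z (.l 9))) (.l 9)))) (.b (.a (.b (.l 11) (.a (.b (.l 11) .z) (.b .z (.l 9)))) (.b (.a (.b (.l 11) .z) (.b .z (.l 9))) (.l
9))) (.l 9)))) (.b (.a (.b (.l 11) (.a (.b (.l 11) (.a (.b (.l 11) .z) (.b .z (.l 9)))) (.b (.a (.b (.l 11) .z) (.b .z (.l 9))) (.l 9)))) (.b (.a (.b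
(.l 11) (.a (.b (.l 11) .z) (.b .z (.l 9)))) (.b (.a (.b (.l 11) .z) (.b .z (.l 9))) (.l 9))) (.l 9))) (.l 9)))) (.b (.a (.b (.l 11) (.a (.b (.l 11)
(.a (.b (.l 11) (.a (.b (.l 11) .z) (.b .z (.l 9)))) (.b (.a (.b (.l 11) .z) (.b .z (.l 9))) (.l 9)))) (.b (.a (.b (.l 11) (.a (.b (.l 11) .z) (.b .z
(.l 9)))) (.b (.a (.b (.l 11) .z) (.b .z (.l 9))) (.l 9))) (.l 9)))) (.b (.a (.b (.l 11) (.a (.b (.l 11) (.a (.b (.l 11) .z) (.b .z (.l 9)))) (.b (.a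
(.b (.l 11) .z) (.b .z (.l 9))) (.l 9)))) (.b (.a (.b (.l 11) (.a (.b (.l 11) .z) (.b .z (.l 9)))) (.b (.a (.b (.l 11) .z) (.b .z (.l 9))) (.l 9)))
(.l 9))) (.l 9))) (.l 9)))) (.b (.a (.b (.l 11) (.a (.b (.l 11) (.a (.b (.l 11) (.a (.b (.l 11) (.a (.b (.l 11) .z) (.b .z (.l 9)))) (.b (.a (.b (.l
11) .z) (.b .z (.l 9))) (.l 9)))) (.b (.a (.b (.l 11) (.a (.b (.l 11) .z) (.b .z (.l 9)))) (.b (.a (.b (.l 11) .z) (.b .z (.l 9))) (.l 9))) (.l 9))))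
(.b (.a (.b (.l 11) (.a (.b (.l 11) (.a (.b (.l 11) .z) (.b .z (.l 9)))) (.b (.a (.b (.l 11) .z) (.b .z (.l 9))) (.l 9)))) (.b (.a (.b (.l 11) (.a (.b
(.l 11) .z) (.b .z (.l 9)))) (.b (.a (.b (.l 11) .z) (.b .z (.l 9))) (.l 9))) (.l 9))) (.l 9)))) (.b (.a (.b (.l 11) (.a (.b (.l 11) (.a (.b (.l 11)
(.a (.b (.l 11) .z) (.b .z (.l 9)))) (.b (.a (.b (.l 11) .z) (.b .z (.l 9))) (.l 9)))) (.b (.a (.b (.l 11) (.a (.b (.l 11) .z) (.b .z (.l 9)))) (.b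
(.a (.b (.l 11) .z) (.b .z (.l 9))) (.l 9))) (.l 9)))) (.b (.a (.b (.l 11) (.a (.b (.l 11) (.a (.b (.l 11) .z) (.b .z (.l 9)))) (.b (.a (.b (.l 11)
.z) (.b .z (.l 9))) (.l 9)))) (.b (.a (.b (.l 11) (.a (.b (.l 11) .z) (.b .z (.l 9)))) (.b (.a (.b (.l 11) .z) (.b .z (.l 9))) (.l 9))) (.l 9))) (.l
9))) (.l 9))) (.l 9))) (.b (.b (.l 9) (.b (.b (.l 9) (.b (.b (.l 9) (.b .z (.l 5))) (.l 5))) (.l 5))) (.l 5)))) (.l 5)))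

theorem vQ114 : ev Q114 I3_2 I3_5 = 15533973651373798 := by decide +kernel

noncomputable def Q52 : QT :=
(.b (.b (.a (.b (.l 14) (.a (.b (.a (.b (.a (.b (.l 14) (.a (.b (.a (.b (.l 14) .z) (.l 14)) .z) (.l 14))) (.l 14)) (.a (.b (.a (.b (.a (.l 18) .z)
(.l 18)) (.b (.a .z (.b (.l 14) .z)) (.a (.l 18) .z))) (.l 18)) (.b (.a (.b (.l 14) (.a .z (.b (.l 14) .z))) (.l 14)) (.a (.b (.a (.l 18) .z) (.l 18))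
(.b (.a .z (.b (.l 14) .z)) (.a (.l 18) .z)))))) (.b (.l 14) (.a (.b (.l 14) (.a (.b (.l 14) (.a .z (.b (.l 14) .z))) (.l 14))) (.l 14)))) (.a (.l 18)
(.b (.a (.b (.a (.b (.a (.l 18) .z) (.l 18)) (.b (.a .z (.l 14)) .z)) (.l 18)) (.b (.a (.b (.l 14) (.a (.b (.l 14) .z) (.l 14))) (.l 14)) (.a (.b .z
(.l 18)) (.b (.a (.b (.l 14) .z) (.l 14)) .z)))) (.a (.l 18) (.b (.a (.l 18) (.b (.a (.l 18) .z) (.l 18))) (.l 18)))))) (.b (.l 14) (.a (.b (.l 14)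
(.a (.b (.a (.b (.a .z (.b (.l 14) .z)) (.a (.l 18) .z)) (.b (.l 14) (.a .z (.b (.l 14) .z)))) (.a (.l 18) (.b (.a (.l 18) .z) (.l 18)))) (.b (.l 14)
(.a (.b (.a (.b (.l 14) .z) (.l 14)) .z) (.b (.l 14) (.a (.b (.l 14) .z) (.l 14))))))) (.l 14))))) (.l 14)) (.a (.b (.a (.l 18) (.b (.a (.b (.a (.l
18) (.b (.a (.l 18) (.b (.a .z (.b (.l 14) .z)) (.a (.l 18) .z))) (.l 18))) (.l 18)) (.b (.a (.b (.a (.b (.l 14) (.a .z (.b (.l 14) .z))) (.l 14)) (.a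
(.b (.a (.l 18) .z) (.l 18)) (.b (.a (.b (.l 14) .z) (.l 14)) .z))) (.b (.l 14) (.a (.b (.l 14) (.a (.b (.l 14) .z) (.l 14))) (.l 14)))) (.a (.l 18)
(.b (.a (.b (.a .z (.b (.l 14) .z)) (.a (.l 18) .z)) (.b (.l 14) (.a .z (.l 14)))) (.a (.l 18) (.b .z (.l 18))))))) (.l 18))) (.a (.b (.l 18) (.a (.b
(.l 18) (.a (.b (.a (.b (.l 18) (.a .z (.l 18))) (.l 18)) (.a (.b .z (.l 22)) (.b (.a .z (.l 18)) .z))) (.l 18))) (.l 18))) (.l 18))) (.b (.a (.b (.a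
(.b (.l 14) (.a (.b (.l 14) (.a (.b (.a (.b (.l 14) .z) (.l 14)) .z) (.l 14))) (.l 14))) (.l 14)) (.a (.b (.a (.b (.a (.b (.a (.l 18) .z) (.l 18)) (.b
(.a .z (.b (.l 14) .z)) (.a (.l 18) .z))) (.l 18)) (.b (.a (.b (.l 14) (.a (.b (.l 14) .z) (.l 14))) (.l 14)) (.a (.b .z (.a (.l 18) .z)) (.b (.l 14)
(.a .z (.l 14)))))) (.a (.l 18) (.b (.a (.l 18) (.b .z (.l 18))) (.l 18)))) (.b (.l 14) (.a (.b (.a (.b (.a (.b (.l 14) .z) (.l 14)) (.a .z (.b (.l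
14) .z))) (.l 14)) (.a (.b (.a (.l 18) .z) (.l 18)) (.b (.a .z (.l 14)) .z))) (.b (.l 14) (.a (.b (.l 14) (.a (.b (.l 14) .z) (.l 14))) (.l 14)))))))
(.l 14)) (.a (.b (.a (.l 18) (.b (.a (.l 18) (.b (.a (.b (.a .z (.b (.l 14) .z)) (.a (.l 18) .z)) (.b (.l 14) (.a (.b (.l 14) .z) (.l 14)))) (.a (.l
18) (.b .z (.a (.l 18) .z))))) (.l 18))) (.l 18)) (.b (.a (.b (.a (.b (.l 14) (.a (.b (.l 14) (.a .z (.l 14))) (.l 14))) (.l 14)) (.a (.b (.a (.b .z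
(.a (.l 18) .z)) (.b (.l 14) (.a .z (.b (.l 14) .z)))) (.a (.l 18) (.b (.a (.l 18) .z) (.l 18)))) (.b (.l 14) (.a (.b (.a (.b (.l 14) .z) (.l 14)) (.a
.z (.b (.l 14) .z))) (.l 14))))) (.l 14)) (.a (.b (.a (.l 18) (.b (.a (.b (.a (.l 18) .z) (.l 18)) (.b (.a (.b (.l 14) .z) (.l 14)) (.a .z (.b (.l 14)
.z)))) (.a (.l 18) (.b (.a (.l 18) .z) (.l 18))))) (.l 18)) (.b (.a (.b (.l 14) (.a (.b (.a .z (.l 14)) .z) (.l 14))) (.l 14)) (.a (.b (.a (.b (.a (.l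
18) .z) (.l 18)) (.b (.a .z (.l 14)) .z)) (.a (.l 18) (.b (.a (.l 18) .z) (.l 18)))) (.b (.l 14) (.a (.b (.a .z (.l 14)) .z) (.l 14))))))))))) (.a (.b
(.b (.a (.b (.a (.b (.a (.b (.a (.l 22) (.b (.a (.l 22) .z) (.l 22))) (.l 22)) (.b (.a (.b .z (.a (.l 22) .z)) (.b (.l 18) (.a .z (.l 18)))) (.a (.l
22) (.b .z (.a (.l 22) .z))))) (.l 22)) (.b (.a (.b (.l 18) (.a (.b (.l 18) .z) (.l 18))) (.l 18)) (.a (.b (.a (.b (.a (.l 22) .z) (.l 22)) (.b (.a .z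
(.l 18)) .z)) (.l 22)) (.b (.a (.b (.l 18) (.a .z (.l 18))) (.l 18)) (.a (.b .z (.a (.l 22) .z)) (.b (.l 18) (.a .z (.l 18)))))))) (.a (.l 22) (.b (.a
(.l 22) (.b (.a (.l 22) (.b .z (.l 22))) (.l 22))) (.l 22)))) (.b (.l 18) (.a (.b (.a (.b (.a (.b (.a .z (.l 18)) .z) (.l 18)) (.a (.b (.a (.l 22) .z)
(.l 22)) (.b (.a .z (.l 18)) .z))) (.l 18)) (.a (.b (.a (.l 22) (.b (.a (.l 22) .z) (.l 22))) (.l 22)) (.b (.a (.b .z (.a (.l 22) .z)) (.b (.l 18) (.a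
.z (.l 18)))) (.a (.l 22) (.b .z (.a (.l 22) .z)))))) (.b (.l 18) (.a (.b (.l 18) (.a (.b (.l 18) (.a .z (.l 18))) (.l 18))) (.l 18)))))) (.a (.b (.l
22) (.a (.b (.l 22) (.a (.b (.a (.b (.a .z (.l 22)) .z) (.b (.l 22) (.a .z (.l 22)))) (.a (.l 26) (.b .z (.a (.l 26) .z)))) (.b (.l 22) (.a (.b (.l
22) (.a .z (.l 22))) (.l 22))))) (.l 22))) (.b (.a (.l 22) (.b (.a (.b (.a (.b .z (.a (.l 22) .z)) (.b (.l 18) (.a .z (.l 18)))) (.a (.l 22) (.b .z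
(.a (.l 22) .z)))) (.b (.l 18) (.a (.b (.l 18) .z) (.l 18)))) (.a (.l 22) (.b (.a (.b (.a (.l 22) .z) (.l 22)) (.b (.a .z (.l 18)) .z)) (.a (.l 22)
(.b (.a (.l 22) .z) (.l 22))))))) (.l 22)))) (.a (.b (.b (.a (.b (.a (.l 26) (.b (.a (.b .z (.a (.l 26) .z)) (.b (.l 22) .z)) (.a (.l 26) (.b (.a (.l
26) .z) (.l 26))))) (.l 26)) (.b (.a (.b (.l 22) (.a (.b (.a .z (.l 22)) .z) (.l 22))) (.l 22)) (.a (.b (.a (.b (.a (.l 26) .z) (.l 26)) (.b (.a .z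
(.l 22)) .z)) (.a (.l 26) (.b (.a (.l 26) .z) (.l 26)))) (.b (.l 22) (.a (.b (.a .z (.l 22)) .z) (.l 22)))))) (.a (.l 26) (.b (.a (.l 26) (.b (.a (.b
(.a (.l 26) .z) (.l 26)) (.b (.a .z (.l 22)) .z)) (.a (.l 26) (.b (.a (.l 26) .z) (.l 26))))) (.l 26)))) (.a (.b (.b (.l 26) (.a (.b (.a (.b (.a .z
(.l 26)) .z) (.l 26)) (.a (.b (.a (.l 30) .z) (.l 30)) (.b (.a .z (.l 26)) .z))) (.l 26))) (.a (.b (.b (.a (.l 30) (.b (.a (.l 30) .z) (.l 30))) (.l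
30)) (.a (.b (.l 30) (.a (.b (.l 30) .z) (.b .z (.l 31)))) (.b (.a (.b (.l 30) .z) (.b .z (.l 31))) (.l 31)))) (.b (.a (.b (.b .z (.a (.l 30) .z)) (.a
(.b (.l 30) .z) (.b .z (.l 31)))) (.b (.a (.b (.l 26) .z) .z) (.b (.b .z (.l 31)) (.l 31)))) (.l 31)))) (.b (.a (.b (.l 26) (.a (.b (.l 26) (.a (.b
(.l 26) .z) (.b .z (.l 27)))) (.b (.a (.b (.l 26) .z) (.b .z (.l 27))) (.l 27)))) (.b (.a (.b (.l 26) (.a (.b (.l 26) .z) (.b .z (.l 27)))) (.b (.a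
(.b (.l 26) .z) (.b .z (.l 27))) (.l 27))) (.l 27))) (.b (.b (.b (.l 27) (.b (.l 27) .z)) (.b (.b .z (.l 31)) (.l 31))) (.l 31))))) (.b (.a (.b (.l
22) (.a (.b (.b (.l 22) (.a (.b (.a .z (.l 22)) .z) (.b (.l 22) (.a .z (.l 22))))) (.a (.b (.l 26) (.a (.b (.l 26) .z) (.b .z (.l 27)))) (.b .z (.l
27)))) (.b (.a (.b (.l 22) (.a (.b (.l 22) .z) (.b .z (.l 23)))) (.b (.a (.b (.l 22) .z) (.b .z (.l 23))) (.l 23))) (.b (.b (.b (.l 23) .z) (.b .z (.l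
27))) (.l 27))))) (.b (.a (.b (.l 22) (.a (.b (.l 22) (.a (.b (.l 22) .z) (.b .z (.l 23)))) (.b (.a (.b (.l 22) .z) (.b .z (.l 23))) (.l 23)))) (.b
(.a (.b (.l 22) (.a (.b (.l 22) .z) (.b .z (.l 23)))) (.b (.a (.b (.l 22) .z) (.b .z (.l 23))) (.l 23))) (.l 23))) (.b (.l 23) (.b (.b (.b (.l 23) .z)
(.b .z (.a (.l 27) (.a (.l 27) .z)))) (.l 27))))) (.b (.l 27) (.b (.b (.b (.l 27) (.b (.l 27) .z)) (.b (.b (.a (.a .z (.a .z (.l 32))) (.l 32)) (.a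
(.a (.l 31) .z) .z)) (.l 31))) (.l 31)))))) (.b (.a (.b (.l 18) (.a (.b (.b (.l 18) (.a (.b (.l 18) (.a (.b (.a .z (.l 18)) .z) (.l 18))) (.l 18)))
(.a (.b (.b (.a (.b (.a (.l 22) .z) (.l 22)) (.b (.a .z (.l 18)) .z)) (.a (.l 22) (.b (.a (.l 22) .z) (.l 22)))) (.a (.b (.l 22) (.a (.b (.l 22) .z)
(.b .z (.l 23)))) (.b (.a (.b (.l 22) .z) (.b .z (.l 23))) (.l 23)))) (.b (.a (.b (.l 18) .z) (.b (.a (.b (.l 18) .z) (.b .z (.l 19))) (.b (.l 19) (.b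
.z (.l 23))))) (.l 23)))) (.b (.a (.b (.l 18) (.a (.b (.l 18) (.a (.b (.l 18) .z) (.b .z (.l 19)))) (.b (.a (.b (.l 18) .z) (.b .z (.l 19))) (.l
19)))) (.b (.a (.b (.l 18) (.a (.b (.l 18) .z) (.b .z (.l 19)))) (.b (.a (.b (.l 18) .z) (.b .z (.l 19))) (.l 19))) (.l 19))) (.b (.b (.l 19) (.b (.l
19) .z)) (.l 23))))) (.b (.a (.b (.l 18) (.a (.b (.l 18) (.a (.b (.l 18) (.a (.b (.l 18) .z) (.b .z (.l 19)))) (.b (.a (.b (.l 18) .z) (.b .z (.l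
19))) (.l 19)))) (.b (.a (.b (.l 18) (.a (.b (.l 18) .z) (.b .z (.l 19)))) (.b (.a (.b (.l 18) .z) (.b .z (.l 19))) (.l 19))) (.l 19)))) (.b (.a (.b
(.l 18) (.a (.b (.l 18) (.a (.b (.l 18) .z) (.b .z (.l 19)))) (.b (.a (.b (.l 18) .z) (.b .z (.l 19))) (.l 19)))) (.b (.a (.b (.b (.a (.l 18) .z) (.l
18)) (.a (.b (.l 18) .z) (.b .z (.l 19)))) (.b .z (.l 19))) (.l 19))) (.l 19))) (.b (.l 19) (.b (.b (.l 19) (.b (.b (.l 19) (.a (.a (.l 19) .z) .z))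
(.b (.a (.a .z (.a .z (.l 24))) (.l 24)) (.a (.a .z (.l 24)) (.l 24))))) (.b (.b (.b (.a (.a (.a (.l 23) .z) .z) (.a .z (.l 24))) (.a (.l 23) (.a (.a
(.l 23) .z) .z))) (.l 23)) (.l 23)))))) (.b (.b (.l 23) (.b (.l 23) (.b (.b (.b (.a (.l 23) (.a (.a (.l 23) .z) .z)) (.a .z (.a (.a .z (.a .z (.l
28))) (.l 28)))) (.a (.b (.l 28) (.a .z (.a .z (.l 28)))) (.l 28))) (.b (.a (.b (.a (.l 27) (.a (.a (.l 27) .z) .z)) (.l 27)) (.b (.a (.a .z (.a .z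
(.l 28))) (.l 28)) (.a (.a (.l 27) .z) .z))) (.a (.l 27) (.b (.a (.l 27) (.a (.l 27) (.a (.l 27) .z))) (.l 27))))))) (.b (.l 27) (.b (.b (.b (.l 27)
(.b (.a (.a (.l 27) (.a (.l 27) .z)) .z) (.a (.a .z (.a .z (.a .z (.l 32)))) (.l 32)))) (.b (.a (.b (.l 32) (.a (.a (.a .z (.l 32)) (.l 32)) (.l 32)))
(.l 32)) (.a (.b (.a .z (.a .z (.a .z (.l 32)))) (.a (.l 31) (.a (.l 31) .z))) (.b (.l 32) (.a .z (.a (.a .z (.l 32)) (.l 32))))))) (.b (.b (.a (.l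
31) (.b (.a (.l 31) .z) (.l 31))) (.l 31)) (.l 31))))))))

theorem vQ52 : ev Q52 I5_2 I4_14 = 1854531452085229 := by decide +kernel

noncomputable def Q121 : QT :=
(.a (.b (.b (.b (.l 17) (.a (.b (.b (.l 17) (.b (.a (.b (.l 17) (.a (.a (.l 17) .z) .z)) (.b .z (.a (.a .z (.l 20)) (.l 20)))) (.a (.b (.a .z (.l 20))
(.l 20)) (.l 20)))) (.l 20)) (.b (.a (.b (.b (.l 17) (.b (.l 17) .z)) (.b (.b (.a (.a .z (.l 20)) (.l 20)) (.l 20)) (.l 20))) (.b (.b (.b (.l 17) (.a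
(.l 17) (.a (.l 17) .z))) (.b .z (.a (.a .z (.l 20)) (.l 20)))) (.a (.l 20) (.b (.l 20) (.a (.b (.l 20) .z) .z))))) (.a (.b (.a (.l 20) (.b (.l 20)
(.a (.l 20) (.b (.l 20) .z)))) (.a (.b (.l 20) (.a (.b (.l 20) .z) .z)) (.b (.a (.b (.l 20) .z) .z) (.a (.b .z (.l 21)) (.l 21))))) (.b (.a (.b (.a
(.l 20) (.b (.l 20) .z)) (.a .z (.b .z (.l 21)))) (.b (.a .z (.l 21)) (.l 21))) (.l 21)))))) (.b (.a (.b (.a (.b (.l 20) (.a (.l 20) (.b (.l 20) (.a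
(.b (.l 20) .z) .z)))) (.b (.a (.b (.l 20) (.a (.l 20) (.b (.l 20) .z))) (.b (.a (.l 20) (.b (.l 20) .z)) (.a .z (.b .z (.l 21))))) (.a (.b (.a (.b
(.l 20) .z) .z) (.a (.b .z (.l 21)) (.l 21))) (.l 21)))) (.a (.b (.a (.b (.a (.l 20) (.b (.l 20) .z)) .z) (.b (.a .z (.l 21)) (.b (.l 21) .z))) (.b
(.b (.a (.l 23) (.a (.l 23) .z)) (.l 23)) (.l 23))) (.b (.l 21) (.b (.b (.a .z (.a .z (.l 21))) (.a (.l 23) .z)) (.l 23))))) (.b (.a (.b (.a (.b (.a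
.z (.l 21)) (.l 21)) (.l 21)) (.l 21)) (.l 21)) (.b (.l 21) (.b (.a (.b (.l 21) (.a (.a .z (.l 21)) (.l 21))) (.l 21)) (.a (.b .z (.a (.l 23) (.a (.l
23) .z))) (.b (.l 21) (.a .z (.l 21)))))))) (.b (.b (.a (.l 23) (.b (.a (.l 23) (.b (.a (.a (.l 23) .z) .z) (.a (.l 23) (.a (.l 23) .z)))) (.l 23)))
(.l 23)) (.l 23)))) (.b (.b (.l 23) (.b (.b (.l 23) (.b (.a (.l 23) (.b (.l 23) (.a (.l 23) (.a (.a (.l 23) .z) .z)))) (.a (.b (.l 23) (.a (.l 23)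
.z)) (.b (.a .z (.a .z (.l 26))) (.a (.a (.a .z (.l 26)) (.l 26)) (.l 26)))))) (.b (.b (.a (.b (.a .z (.a (.a .z (.l 26)) (.l 26))) (.l 26)) (.l 26))
(.l 26)) (.l 26)))) (.b (.a (.b (.l 26) (.a (.b (.l 26) (.a (.l 26) (.b (.l 26) (.a (.l 26) (.b (.l 26) .z))))) (.b (.a (.l 26) (.b (.l 26) (.a (.l
26) (.b (.l 26) .z)))) (.a (.b (.a (.l 26) (.b (.l 26) .z)) (.a .z (.b .z (.l 29)))) (.b (.a .z (.b .z (.l 29))) (.l 29)))))) (.b (.a (.b (.l 26) (.a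
(.l 26) (.b (.l 26) (.a (.l 26) (.b (.l 26) .z))))) (.b (.a (.l 26) (.b (.l 26) (.a (.b (.l 26) .z) .z))) (.a (.b (.a (.b (.l 26) .z) .z) (.a .z (.l
29))) (.b (.a (.b .z (.l 29)) (.l 29)) (.l 29))))) (.a (.b (.a (.b (.a (.l 26) (.b (.l 26) .z)) (.a .z (.b .z (.l 29)))) (.b (.a .z (.b .z (.l 29)))
(.l 29))) (.l 29)) (.l 29)))) (.a (.b (.a (.b (.a (.b (.a (.l 26) (.b (.l 26) .z)) (.a .z (.b .z (.l 29)))) (.b (.a .z (.b .z (.l 29))) (.l 29))) (.l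
29)) (.l 29)) (.b (.l 29) (.b (.l 29) (.b (.l 29) (.a (.a (.l 29) (.a (.l 29) .z)) .z))))) (.b (.l 29) (.b (.l 29) (.b (.b (.l 29) (.a (.l 29) (.a (.a
(.l 29) .z) .z))) (.b (.a .z (.a .z (.l 32))) (.a (.a (.a .z (.l 32)) (.l 32)) (.l 32)))))))))) (.b (.a (.b (.a (.b (.a (.b (.a (.b (.a (.l 17) (.b .z
(.l 17))) (.l 17)) (.b (.a .z (.l 22)) (.a (.b .z (.l 17)) .z))) (.l 17)) (.b (.a (.b (.l 22) (.a (.b (.l 22) .z) (.l 22))) (.l 22)) (.a (.b (.a (.b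
.z (.l 17)) .z) (.l 17)) (.b (.a (.b (.l 22) .z) (.l 22)) (.a (.b .z (.l 17)) .z))))) (.a (.b (.b (.b (.b (.l 17) .z) (.a (.l 20) (.b (.l 20) .z)))
(.b (.a .z (.b .z (.l 21))) (.a (.b .z (.l 21)) (.l 21)))) (.l 21)) (.b (.a (.b (.b (.b (.l 17) .z) .z) (.l 21)) (.b (.a .z (.b .z (.l 21))) (.l 21)))
(.l 21)))) (.b (.b (.l 22) (.b (.a (.l 22) (.b (.l 22) (.a (.l 22) (.b (.l 22) .z)))) (.a (.b (.l 22) (.a (.b (.l 22) .z) .z)) (.b (.a .z (.b .z (.l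
25))) (.a .z (.b (.l 25) .z)))))) (.a (.b (.a (.b .z (.a (.l 21) (.b .z (.l 21)))) (.b (.b (.b .z (.l 28)) (.l 28)) (.a .z (.b (.l 28) .z)))) (.a (.l
21) (.b (.a (.l 21) .z) (.l 21)))) (.b (.b (.b (.b (.a .z (.l 28)) (.l 28)) (.l 28)) (.l 28)) (.a (.b (.a (.b (.l 28) .z) (.l 28)) (.a (.b .z (.l 21))
.z)) (.b (.l 28) (.a (.b (.l 28) .z) (.l 28)))))))) (.a (.b (.l 21) (.b (.b (.b (.b (.l 21) (.a .z (.a .z (.l 21)))) (.b (.a (.l 23) .z) (.l 23))) (.l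
23)) (.l 23))) (.b (.a (.l 21) (.b (.a (.l 21) (.b (.a .z (.b (.l 28) .z)) (.a (.l 21) (.b .z (.l 21))))) (.l 21))) (.b (.b (.b (.l 21) (.b (.a (.a .z
(.l 21)) (.l 21)) (.a .z (.a .z (.l 21))))) (.b (.b (.a (.l 23) .z) (.l 23)) (.l 23))) (.l 23))))) (.b (.b (.b (.a (.b (.l 22) (.a (.l 22) (.b (.a (.l
22) (.b (.l 22) .z)) (.a (.b (.l 22) .z) .z)))) (.b (.a (.b (.l 22) (.a (.l 22) (.b (.l 22) .z))) (.b (.a (.b (.l 22) .z) .z) (.a .z (.l 25)))) (.a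
(.b (.a .z (.b .z (.l 25))) (.l 25)) (.l 25)))) (.a (.b (.a (.b (.a (.b (.l 22) .z) .z) (.a .z (.l 25))) (.b (.a (.b .z (.l 25)) (.l 25)) (.l 25)))
(.b (.l 25) (.b (.a (.a (.l 25) .z) .z) (.a .z (.l 28))))) (.b (.l 25) (.b (.b (.l 25) (.a (.a (.l 25) .z) .z)) (.b (.a .z (.l 28)) (.l 28)))))) (.l
28)) (.a (.b (.a (.b (.a (.b (.l 28) (.a .z (.b (.l 28) .z))) (.l 28)) (.a (.b (.a (.l 21) .z) (.l 21)) (.b (.a (.b (.l 28) .z) (.l 28)) (.a (.b .z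
(.l 21)) .z)))) (.b (.l 28) (.a (.b (.l 28) (.a (.b (.l 28) .z) (.l 28))) (.l 28)))) (.a (.b (.b (.l 21) (.b (.b .z (.a (.l 23) .z)) (.l 23))) (.l
23)) (.b (.a (.b (.a .z (.b (.l 28) .z)) (.a (.b .z (.l 23)) (.b .z (.l 23)))) (.b (.l 28) .z)) (.a (.l 23) (.b (.a (.b .z (.l 23)) .z) (.l 23))))))
(.b (.b (.l 28) (.b (.l 28) (.a (.l 28) (.b (.l 28) (.a (.l 28) (.b (.l 28) .z)))))) (.a (.b (.b (.b (.l 28) (.a (.b (.l 28) .z) .z)) (.b (.a .z (.b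
(.l 31) .z)) (.l 34))) (.a (.b (.a .z (.l 34)) .z) (.l 34))) (.b (.b (.b (.a (.b (.l 28) .z) .z) (.a (.b .z (.l 31)) (.l 31))) (.b .z (.l 34))) (.l
34))))))) (.a (.b (.b (.l 23) (.b (.b (.b (.l 23) (.b (.l 23) (.a (.l 23) (.a (.a (.l 23) .z) .z)))) (.b (.b (.a (.a (.a (.l 23) .z) .z) (.a .z (.l
26))) (.a (.a .z (.l 26)) (.l 26))) (.l 26))) (.a (.b (.l 26) (.a (.l 26) (.b (.l 26) (.a (.b (.l 26) .z) .z)))) (.b (.a (.l 26) (.b (.l 26) (.a (.b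
(.l 26) .z) .z))) (.a (.b (.a (.b (.l 26) .z) .z) (.a (.b .z (.l 27)) (.l 27))) (.b (.a (.b .z (.l 27)) (.l 27)) (.l 27))))))) (.b (.b (.a (.b (.a (.b
(.a (.b (.l 26) .z) .z) (.a (.b .z (.l 29)) (.l 29))) (.b (.a .z (.b (.l 27) .z)) (.l 29))) (.l 29)) (.b (.b (.b (.l 27) (.a .z (.l 27))) (.b (.a (.a
(.l 29) .z) .z) (.a (.l 29) (.a (.l 29) .z)))) (.l 29))) (.l 29)) (.b (.l 29) (.b (.b (.l 29) (.b (.l 29) (.a (.l 29) (.a (.l 29) (.a (.l 29) .z)))))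
(.b (.b (.a (.a (.l 29) .z) .z) (.a (.a .z (.a .z (.l 32))) (.l 32))) (.l 32)))))) (.b (.a (.b (.l 23) (.b (.b (.b (.l 23) (.b (.a (.l 23) .z) (.a .z
(.a .z (.l 26))))) (.a (.b (.l 26) (.a (.l 26) (.b (.l 26) .z))) (.b (.a (.l 26) (.b (.l 26) .z)) (.a .z (.b .z (.l 27)))))) (.b (.a (.b (.a .z (.b .z
(.l 27))) (.a (.b .z (.l 27)) (.l 27))) (.l 27)) (.l 27)))) (.b (.a (.b (.a (.b (.a (.l 23) (.b .z (.l 23))) (.l 23)) (.b (.a .z (.l 34)) (.a (.b .z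
(.l 23)) .z))) (.l 23)) (.b (.a (.b (.l 34) (.a .z (.l 34))) (.l 34)) (.a (.b .z (.a (.l 23) (.b .z (.l 23)))) (.b (.l 34) (.a .z (.l 34)))))) (.a (.b
(.b (.b (.l 23) (.a (.b .z (.l 26)) .z)) (.b (.a .z (.b .z (.l 27))) (.l 27))) (.l 27)) (.b (.a (.b (.b (.b (.l 23) .z) .z) (.l 27)) (.b .z (.a (.l
27) (.b .z (.l 27))))) (.l 27))))) (.b (.b (.b (.b (.l 27) (.a (.b (.l 27) (.a .z (.a .z (.l 27)))) (.l 27))) (.b (.a (.b (.a (.l 29) .z) (.l 29)) (.b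
(.a (.a .z (.l 27)) (.l 27)) .z)) (.a (.l 29) (.b (.a (.l 29) (.a (.l 29) .z)) (.l 29))))) (.l 29)) (.b (.l 29) (.b (.b (.l 29) (.b (.a (.l 29) .z)
(.a .z (.a (.a .z (.l 32)) (.l 32))))) (.a (.l 32) (.b (.l 32) (.a (.b (.l 32) (.a (.l 32) .z)) .z))))))))))

theorem vQ121 : ev Q121 I5_9 I5_29 = 880714493901397 := by decide +kernel

noncomputable def Q12 : QT :=
(.b (.a (.a (.b (.b (.a (.b (.a (.b .z (.a (.l 56) (.b .z (.l 56)))) .z) (.a (.l 56) (.b (.a (.b .z (.l 56)) .z) (.a (.l 56) (.b .z (.l 56)))))) .z)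
(.a (.l 56) (.b (.a (.b (.a (.b .z (.l 56)) .z) (.l 56)) .z) (.a (.a (.l 56) (.b (.a (.l 56) .z) .z)) .z)))) (.a (.b (.a (.b (.l 56) (.a .z (.b (.l
56) (.a .z (.l 56))))) (.b (.a (.l 56) (.b (.l 56) (.a (.l 56) .z))) (.a (.b (.l 56) (.a (.l 56) .z)) .z))) (.a (.b .z (.a (.b .z (.a (.l 28) .z))
.z)) (.b (.a .z (.l 190)) .z))) (.b (.a (.b (.a (.b (.a (.l 56) .z) .z) .z) (.b .z (.l 190))) .z) (.a (.b (.l 190) .z) (.b .z (.a .z (.b (.l 78)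
.z))))))) (.b (.a (.b (.b (.a (.l 217) (.b .z (.l 217))) (.a .z (.l 217))) (.a .z (.b .z (.l 184)))) .z) (.a (.b (.a (.b .z (.a .z (.b .z (.l 78))))
(.b (.a .z (.l 184)) (.a (.b .z (.l 78)) .z))) (.a (.b (.a (.b .z (.l 78)) (.l 78)) (.a (.b (.l 78) .z) .z)) .z)) (.b .z (.a (.b .z (.l 161)) .z)))))
(.a (.b (.b (.a (.b (.a .z (.b .z (.a .z (.a .z (.l 54))))) (.a .z (.a (.b .z (.l 54)) (.l 54)))) (.b (.a .z (.b .z (.l 163))) (.a (.b (.a (.l 54) (.b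
.z (.l 54))) (.l 54)) (.b .z (.a (.l 54) .z))))) (.a (.b (.a .z (.b (.l 54) (.a .z (.l 54)))) .z) (.b (.l 54) (.a (.b (.l 54) (.a .z (.l 54))) (.a (.l
54) (.b (.a (.l 54) .z) .z)))))) (.a (.b (.a .z (.a .z (.a .z (.l 154)))) .z) (.b (.b .z (.a (.l 154) .z)) (.a (.b (.l 154) .z) .z)))) (.b (.b (.a (.b
.z (.a (.b (.l 163) .z) (.b .z (.l 163)))) .z) (.a (.b (.a (.b (.a (.b .z (.l 54)) .z) (.a (.a (.l 54) .z) .z)) (.b (.l 163) .z)) .z) (.b (.a (.b .z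
(.l 163)) .z) .z))) (.a (.b .z (.a (.b .z (.a (.l 256) .z)) .z)) (.b (.b (.a (.b .z (.l 162)) .z) (.a (.b (.l 162) .z) .z)) .z))))) (.a (.a (.b (.a
(.b (.a (.b (.a (.l 28) (.b (.a (.b .z (.l 28)) .z) (.a (.l 28) (.b .z (.l 28))))) (.l 28)) (.b .z (.a (.b (.a (.l 28) .z) (.a (.l 28) (.b (.l 28)
.z))) .z))) (.a (.b (.a (.l 28) (.b (.l 28) (.a (.b (.l 28) .z) .z))) (.a (.b (.a (.l 28) (.b (.l 28) .z)) .z) (.b (.a .z (.l 45)) (.l 45)))) (.b (.a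
(.b (.a (.b (.l 28) .z) .z) (.a .z (.l 45))) (.l 45)) (.a (.l 45) (.b (.a (.l 45) .z) .z))))) (.b (.a (.b (.a .z (.b .z (.l 45))) (.a (.b (.a .z (.l
45)) (.l 45)) (.b (.l 45) (.a (.l 45) .z)))) (.b (.a (.l 45) (.b (.a (.l 45) .z) .z)) (.a (.b (.a (.l 45) .z) .z) .z))) (.a (.b (.a (.b (.l 45) (.a
(.l 45) .z)) .z) .z) .z))) (.a (.b (.a (.b (.a (.b (.a .z (.l 45)) (.l 45)) (.b (.l 45) (.a (.l 45) .z))) (.a (.b (.l 45) .z) .z)) .z) (.a (.b (.a (.b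
.z (.l 106)) .z) (.a (.l 106) (.a (.l 106) .z))) .z)) (.a (.b (.b (.a .z (.l 154)) .z) .z) (.b (.b .z (.a (.l 154) .z)) (.a .z (.b (.l 154) .z))))))
(.b (.a .z (.b (.a (.b (.a .z (.l 161)) .z) (.b (.l 161) (.a .z (.l 161)))) .z)) .z)) (.b (.a (.a (.b (.a .z (.b (.a (.l 232) .z) .z)) .z) .z) (.a .z
(.b .z (.a .z (.b .z (.a (.b .z (.a .z (.l 53))) (.b (.a .z (.l 53)) (.l 53)))))))) (.a .z (.b (.a (.a .z (.b .z (.a (.b .z (.a .z (.l 53))) (.b (.a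
.z (.l 53)) (.l 53))))) (.a (.b (.a (.b .z (.a .z (.l 53))) (.b (.a .z (.l 53)) (.l 53))) (.l 53)) (.l 53))) (.a (.a (.b (.a .z (.b (.a .z (.l 53))
(.a .z (.l 53)))) .z) (.b (.l 53) (.a (.b (.l 53) (.a .z (.l 53))) (.l 53)))) (.b (.l 53) (.a (.l 53) (.b (.a (.l 53) (.b (.l 53) .z)) (.a (.b (.l 53)
.z) .z))))))))))

theorem vQ12 : ev Q12 I5_2 I5_8 = 208377180420328 := by decide +kernel

noncomputable def Q130 : QT :=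
(.a (.b (.b (.b (.b (.b (.l 25) (.b (.a (.l 25) (.b (.l 25) (.a (.l 25) .z))) (.a (.b (.a (.l 25) (.a (.l 25) .z)) .z) .z))) (.b (.b (.a (.b .z (.l
85)) (.a .z (.l 83))) (.a (.l 85) (.a .z (.l 83)))) (.a (.a (.b .z (.a (.b .z (.l 28)) .z)) (.l 85)) (.a (.a (.l 85) .z) (.l 83))))) (.b (.a (.b (.a
(.b (.a (.l 28) (.b .z (.l 28))) (.l 28)) (.b .z (.a (.l 28) .z))) (.a (.l 28) (.b (.l 28) (.a (.l 28) .z)))) (.b .z (.a (.b .z (.a (.b .z (.l 29))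
(.l 29))) (.b (.a (.b .z (.l 29)) (.l 29)) (.l 29))))) (.a (.b (.a (.b (.a (.l 28) (.b (.l 28) .z)) (.a .z (.b .z (.l 29)))) (.b (.a .z (.b .z (.l
29))) (.l 29))) (.b (.l 29) (.a (.b (.l 29) .z) (.l 29)))) (.l 29)))) (.b (.b (.b (.a (.b (.a (.b (.a (.l 31) .z) (.l 31)) (.b (.a .z (.l 29)) .z))
(.l 31)) (.b (.a (.b (.l 29) (.a .z (.l 29))) (.l 29)) (.a (.b .z (.l 31)) (.b (.a .z (.l 29)) .z)))) (.a (.l 31) (.b (.a (.l 31) (.b (.a (.l 31) .z)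
(.l 31))) (.l 31)))) (.b (.l 31) (.b (.a (.l 31) (.b (.l 31) (.a (.l 31) .z))) (.a (.b (.a (.l 31) (.a (.l 31) .z)) .z) .z)))) (.b (.b (.b (.a .z (.a
.z (.l 101))) (.a (.a .z (.l 103)) (.a .z (.l 101)))) (.a (.a (.b (.a (.l 34) .z) (.l 34)) (.b .z (.a (.l 34) .z))) (.a .z (.b (.l 101) .z)))) (.a (.b
(.a (.l 34) (.b (.l 34) .z)) (.a (.b (.a (.l 34) .z) .z) (.b (.a .z (.l 35)) (.l 35)))) (.b (.a (.b .z (.a .z (.l 35))) (.b (.a .z (.l 35)) (.l 35)))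
(.l 35)))))) (.b (.b (.b (.b (.a (.b (.a .z (.b (.l 35) .z)) (.a (.l 37) (.b .z (.l 37)))) (.b (.l 35) (.a .z (.b (.l 35) .z)))) (.a (.l 37) (.b (.a
(.l 37) (.b .z (.l 37))) (.l 37)))) (.b (.b (.l 37) (.a (.l 37) (.b (.l 37) .z))) (.b .z (.a .z (.a .z (.l 119)))))) (.b (.a (.b (.a (.l 40) (.b .z
(.a (.l 40) .z))) (.a (.b (.l 40) (.a (.l 40) .z)) (.b (.a (.l 40) .z) .z))) (.b .z (.a (.b .z (.l 41)) (.l 41)))) (.a (.b (.a (.b .z (.b .z (.l 43)))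
(.b (.l 41) .z)) (.l 43)) (.b (.b (.l 41) (.a (.b (.l 41) .z) (.l 41))) (.b (.a (.b .z (.l 43)) .z) (.l 43)))))) (.b (.b (.b (.b (.l 43) (.a (.b (.l
43) .z) .z)) (.b .z (.a (.a (.l 46) .z) .z))) (.b (.a (.b (.l 46) (.a (.l 46) .z)) (.b (.a .z (.b .z (.l 47))) (.a (.b .z (.l 47)) (.l 47)))) (.a (.b
(.a .z (.b .z (.l 47))) (.a (.b .z (.l 49)) .z)) (.b (.l 47) (.b (.l 47) .z))))) (.b (.b (.b (.a (.l 49) (.b (.a (.l 49) .z) (.l 49))) (.l 49)) (.b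
(.b (.a (.l 49) (.a (.l 49) .z)) (.a (.a (.l 49) .z) .z)) .z)) (.b (.a (.a (.l 52) (.b .z (.l 52))) (.b .z (.a .z (.b .z (.l 53))))) (.a (.b (.a (.b
(.l 52) .z) .z) .z) (.b (.a (.b .z (.l 53)) (.l 53)) (.b (.l 53) (.a .z (.l 53)))))))))) (.b (.b (.b (.b (.b (.b (.l 25) (.a (.l 25) (.b (.a (.l 25)
.z) .z))) (.b (.a (.b (.a (.a (.l 25) .z) .z) .z) (.b .z (.l 83))) (.a (.l 83) (.a (.l 83) .z)))) (.a (.b (.l 83) (.a (.b (.l 83) .z) (.b .z (.a .z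
(.l 29))))) (.b (.a (.b (.l 83) .z) (.b (.a .z (.b .z (.l 29))) (.a (.b .z (.l 29)) (.l 29)))) (.a (.b (.a (.b .z (.l 29)) (.l 29)) (.l 29)) (.l
29))))) (.b (.a (.b (.a (.b (.a .z (.b .z (.l 29))) (.l 29)) (.l 29)) (.l 29)) (.l 29)) (.l 29))) (.b (.b (.b (.l 29) (.a (.b (.a (.b .z (.a (.l 31)
.z)) (.b (.l 29) .z)) (.a (.l 31) (.b (.a (.l 31) .z) (.l 31)))) (.b (.l 29) (.a (.b (.a .z (.l 29)) .z) (.b (.l 29) (.a .z (.l 29))))))) (.b (.a (.l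
31) (.b (.a (.l 31) (.b .z (.a (.l 31) .z))) (.b (.l 31) (.a (.a (.l 31) .z) .z)))) (.b (.a (.b (.a (.l 31) .z) .z) .z) (.a (.l 101) .z)))) (.b (.a
(.b (.a (.b (.l 101) .z) .z) (.a (.b .z (.a .z (.l 35))) (.l 35))) (.b (.a (.b .z (.l 35)) (.l 35)) (.l 35))) (.l 35)))) (.a (.b (.b (.b (.b (.l 35)
(.b (.a .z (.b (.l 35) .z)) (.a (.l 37) (.b .z (.l 37))))) (.b (.b (.l 37) .z) (.a (.b (.l 119) .z) .z))) (.b (.b (.a (.b .z (.l 41)) (.l 41)) (.l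
41)) (.b (.l 41) (.b (.a (.b (.l 41) .z) (.l 41)) (.a (.b .z (.l 43)) .z))))) (.b (.b (.b (.b (.b (.l 43) .z) .z) (.b (.a .z (.b .z (.l 47))) (.a (.b
.z (.l 47)) (.l 47)))) (.l 47)) (.b (.b (.b (.b (.a .z (.l 47)) .z) (.b (.a (.l 49) .z) (.a (.l 49) .z))) (.b .z (.a .z (.b .z (.l 53))))) (.b (.b (.a
(.b .z (.l 53)) (.l 53)) (.l 53)) (.l 53))))) (.a (.b (.b (.b (.b (.l 35) (.b (.l 35) .z)) (.b (.b (.b (.l 37) .z) .z) (.b .z (.l 41)))) (.b (.l 41)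
(.b (.l 41) (.b (.l 41) (.b (.l 41) .z))))) (.a (.b (.b (.b .z (.l 47)) (.l 47)) (.a (.b .z (.l 53)) .z)) (.b (.a (.b (.b .z (.l 47)) (.a (.l 47) .z))
(.b .z (.a .z (.b .z (.l 27))))) (.a .z (.b (.b (.b (.l 27) .z) .z) .z))))) (.b (.b (.a (.b (.b (.l 35) (.b (.l 35) .z)) (.b .z (.l 41))) (.b (.a (.l
35) (.b (.l 35) .z)) .z)) (.a (.b (.a (.l 41) (.b (.l 41) .z)) (.a (.b (.l 41) .z) .z)) (.b (.a .z (.l 73)) (.b (.l 73) .z)))) (.a (.b (.a (.b (.a .z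
(.b .z (.l 27))) (.l 27)) (.b (.b (.b .z (.l 27)) (.l 27)) (.l 27))) (.b (.b (.b (.l 27) (.b (.l 27) .z)) .z) .z)) (.b (.b (.b (.b (.b .z (.l 27)) (.l
27)) (.l 27)) (.l 27)) (.b (.b (.b (.l 27) .z) .z) .z))))))))

theorem vQ130 : ev Q130 I6_21 I5_29 = 320194982788745 := by decide +kernel

noncomputable def Q186 : QT :=
(.b (.b (.b (.b (.l 7) (.b (.a (.b (.a (.b (.l 7) (.a (.b (.a .z (.l 7)) (.a (.a (.l 9) .z) .z)) (.l 7))) (.l 7)) (.a (.b (.a (.b (.a (.l 9) (.a (.l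
9) .z)) (.l 9)) (.b (.a .z (.l 7)) (.a (.a (.l 9) .z) .z))) (.a (.l 9) (.b (.a (.l 9) (.a (.l 9) .z)) (.l 9)))) (.b (.l 7) (.a (.b (.a .z (.l 7)) (.a
(.a (.l 9) .z) .z)) (.l 7))))) (.l 7)) (.a (.a (.l 9) (.b (.a (.b (.b (.a (.l 9) (.a (.l 9) .z)) (.l 9)) (.l 9)) (.b (.a (.b .z (.a (.l 9) .z)) (.b
(.l 7) .z)) (.a (.l 9) (.b (.a (.l 9) .z) (.l 9))))) (.l 9))) (.a (.b (.a (.b (.l 7) (.a (.b .z (.a (.l 9) .z)) (.b (.l 7) .z))) (.l 7)) (.a (.b (.a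
(.l 9) (.b (.a (.l 9) .z) (.l 9))) (.l 9)) (.b (.a (.b .z (.a (.l 9) .z)) (.b (.l 7) .z)) (.a (.l 9) (.b (.a (.l 9) .z) (.l 9)))))) (.b (.l 7) (.a (.b
(.l 7) (.a (.b .z (.a (.l 9) .z)) (.b (.l 7) (.a .z (.a .z (.l 7)))))) (.l 7))))))) (.b (.a (.l 9) (.b (.a (.l 9) (.b (.a (.b (.a (.l 9) (.b (.a (.l
9) .z) (.l 9))) (.l 9)) (.b (.a (.b (.a .z (.a .z (.l 7))) (.a (.l 9) .z)) (.b (.l 7) (.a .z (.a .z (.l 7))))) (.a (.l 9) (.b (.a (.l 9) .z) (.l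
9))))) (.l 9))) (.l 9))) (.l 9))) (.b (.b (.a (.l 9) (.b (.l 9) (.a (.b (.l 9) (.a (.l 9) (.b (.l 9) (.a (.b (.l 9) .z) .z)))) (.b (.a (.b (.l 9) (.a
(.l 9) (.b (.l 9) (.a (.l 9) .z)))) (.b (.a (.l 9) (.b (.l 9) (.a (.l 9) .z))) (.a (.b (.a (.l 9) .z) .z) .z))) (.a (.b (.a (.b (.a (.l 9) .z) .z) .z)
.z) (.l 81)))))) (.a (.b (.a (.b (.l 9) (.a (.l 9) (.b (.l 9) (.a (.l 9) (.b (.l 9) (.a (.l 9) .z)))))) (.b (.a (.l 9) (.b (.l 9) (.a (.l 9) (.b (.a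
(.l 9) .z) .z)))) (.a (.b (.a (.l 9) (.b (.l 9) .z)) .z) (.b .z (.l 81))))) (.a (.b (.a (.b (.a (.l 9) (.b (.l 9) (.a (.l 9) .z))) (.a (.b (.a (.l 9)
.z) .z) .z)) (.b (.a (.b (.a (.l 9) .z) .z) .z) (.l 81))) (.a .z (.l 81))) (.l 81))) (.b (.a (.b (.a (.b (.a (.b (.l 9) (.a (.l 9) .z)) (.b (.a (.l 9)
.z) .z)) .z) (.b .z (.l 81))) (.l 81)) (.l 81)) (.l 81)))) (.a (.b (.a (.b (.a .z (.b .z (.a (.l 85) .z))) (.a (.a (.l 197) .z) (.a (.b (.l 85) .z)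
(.b (.l 85) .z)))) (.b (.a (.b (.l 81) .z) (.l 81)) (.a .z (.b (.a .z (.l 81)) .z)))) (.a (.a (.b .z (.b .z (.b .z (.l 100)))) .z) (.b (.a (.l 197)
(.b (.l 197) .z)) (.a .z (.b (.a .z (.b .z (.l 52))) (.b (.l 52) (.b (.l 52) .z))))))) (.b (.a (.b (.l 81) (.a (.b (.l 81) (.a .z (.l 81))) (.b (.a
(.l 81) .z) (.a .z (.b .z (.l 61)))))) (.b (.a (.b (.l 81) (.a (.l 81) .z)) (.b .z (.a (.b .z (.l 61)) (.l 61)))) (.a (.b (.a .z (.b .z (.l 61))) (.l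
61)) (.l 61)))) (.a (.b (.a (.b .z (.a (.b .z (.l 52)) (.l 52))) (.b (.a .z (.l 61)) (.a (.b .z (.l 52)) .z))) (.a (.l 52) (.b (.a (.l 52) (.b .z (.l
52))) (.l 52)))) (.b (.l 61) (.a (.b (.a .z (.b (.l 61) .z)) (.a (.l 52) (.b .z (.l 52)))) (.b (.l 61) (.a .z (.b (.l 61) .z)))))))))) (.a (.b (.b (.b
(.a (.b (.a (.b (.l 100) .z) (.b .z (.a (.b .z (.l 39)) (.l 39)))) (.a (.b (.a .z (.l 39)) (.l 39)) (.l 39))) (.b (.a (.b (.a (.b .z (.l 39)) (.l 39))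
(.l 39)) (.b (.b .z (.l 39)) (.l 39))) (.l 39))) (.l 39)) (.l 39)) (.b (.b (.b (.b (.a (.b (.a .z (.l 39)) (.a (.b (.a (.l 27) .z) (.l 27)) .z)) (.b
(.l 39) (.a (.b (.l 39) .z) (.l 39)))) (.a (.l 27) (.b (.a (.b .z (.a (.l 27) .z)) (.b (.l 39) .z)) (.a (.l 27) (.b .z (.a (.l 27) .z)))))) (.l 27))
(.b (.b (.a (.l 27) (.b (.l 27) (.a (.l 27) (.b (.a (.l 27) .z) .z)))) (.a (.b (.l 27) (.a (.l 27) (.b (.a (.l 27) .z) (.a .z (.a .z (.l 15)))))) (.b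
(.a (.b (.a (.l 27) .z) .z) (.b (.a .z (.l 15)) (.l 15))) (.a (.b (.a .z (.l 15)) (.l 15)) (.l 15))))) (.b (.a (.b (.a (.b (.a (.l 27) .z) (.a .z (.a
.z (.l 15)))) (.b (.a (.a .z (.l 15)) (.l 15)) (.l 15))) (.a (.b (.a (.a .z (.l 15)) (.l 15)) (.l 15)) (.l 15))) (.l 15)) (.l 15)))) (.l 15))) (.b (.a
(.b (.b (.b (.b (.b (.a (.b (.l 52) .z) (.l 52)) (.a .z (.b (.l 52) .z))) (.b (.a (.l 39) .z) (.l 39))) (.l 39)) (.l 39)) (.l 39)) (.b (.b (.b (.b (.a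
(.l 52) (.a (.l 52) .z)) (.a (.b (.a .z (.l 52)) .z) (.b (.l 52) (.a .z (.l 52))))) (.b (.a (.l 39) (.b .z (.l 39))) (.l 39))) (.l 39)) (.a (.l 39)
(.b (.l 39) (.a (.l 39) (.b (.l 39) (.a (.b (.l 39) .z) .z))))))) (.a (.b (.a (.b (.b (.b (.l 39) (.b (.l 39) (.b (.l 39) .z))) (.b (.b (.b .z (.a (.l
27) .z)) (.l 27)) (.l 27))) (.b (.b (.b (.b (.a (.l 27) .z) .z) (.b (.a .z (.l 15)) (.l 15))) (.l 15)) (.l 15))) (.b (.b (.l 39) (.b (.b (.b (.l 39)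
.z) (.b .z (.a (.l 27) .z))) (.b (.l 27) (.b (.a (.l 27) .z) .z)))) (.a (.b (.b (.b (.b .z (.l 15)) (.l 15)) (.l 15)) (.l 15)) (.b (.l 15) (.a (.l 15)
(.b (.l 15) (.a (.l 15) (.b (.l 15) .z)))))))) (.a (.b (.l 15) (.a (.b (.l 15) (.a (.l 15) (.b (.l 15) (.a (.l 15) (.b (.l 15) .z))))) (.b (.a (.l 15)
(.b (.a (.l 15) (.b (.l 15) .z)) (.a (.b (.l 15) .z) .z))) (.a (.b (.a (.b (.l 15) .z) .z) (.a .z (.l 11))) (.b (.a (.b .z (.l 11)) (.l 11)) (.l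
11)))))) (.b (.a (.b (.l 15) (.a (.b (.l 15) (.a (.l 15) (.b (.l 15) .z))) (.b (.a (.l 15) .z) (.a .z (.b .z (.l 11)))))) (.b (.a (.b (.l 15) (.a (.b
(.l 15) .z) .z)) (.b (.a (.b (.l 15) .z) .z) (.a (.b .z (.l 11)) (.l 11)))) (.a (.b (.a (.b .z (.l 11)) (.l 11)) (.l 11)) (.l 11)))) (.a (.b (.a (.b
(.a .z (.b .z (.l 11))) (.l 11)) (.l 11)) (.l 11)) (.l 11))))) (.b (.a (.b (.a (.b (.l 39) (.b (.b (.l 39) .z) (.b (.b .z (.l 27)) (.b .z (.l 15)))))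
(.b (.l 39) (.a (.b (.l 39) (.b .z (.b .z (.l 15)))) (.b (.l 39) .z)))) (.a (.b (.a (.l 15) (.b (.l 15) (.a (.l 15) (.b (.l 15) .z)))) (.a (.b (.a (.l
15) (.b (.l 15) .z)) (.a .z (.b .z (.l 11)))) (.b (.a .z (.b .z (.l 11))) (.l 11)))) (.b (.a (.b (.a (.b (.l 15) .z) .z) (.a .z (.l 11))) (.b (.a (.b
.z (.l 11)) (.l 11)) (.l 11))) (.l 11)))) (.b (.a (.b (.a (.b (.l 39) .z) .z) (.a (.b .z (.a (.b .z (.l 11)) (.b .z (.l 11)))) (.b (.l 21) (.b .z (.b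
.z (.l 11)))))) (.b (.a (.b .z (.l 21)) (.l 21)) (.b (.b (.l 21) (.b (.l 21) .z)) (.b (.b (.a .z (.l 12)) (.l 12)) (.b .z (.a (.l 11) .z)))))) (.l
11))) (.l 11))))))

theorem vQ186 : ev Q186 I6_33 I4_13 = 863488258458349 := by decide +kernel

noncomputable def Q145 : QT :=
(.b (.a (.l 5) (.b (.l 5) (.a (.b (.l 5) (.a (.l 5) (.b (.a (.l 5) (.b (.l 5) (.a (.l 5) (.b (.a (.l 5) (.b (.l 5) (.a (.l 5) (.b (.l 5) .z)))) (.a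
(.b (.l 5) (.a (.b (.l 5) .z) .z)) (.b (.a (.b (.l 5) .z) .z) .z)))))) (.a (.b (.a (.l 5) (.b (.l 5) (.a (.l 5) (.b (.l 5) (.a (.b (.l 5) .z) .z)))))
(.a (.b (.a (.l 5) (.b (.l 5) (.a (.l 5) (.b (.l 5) .z)))) (.a (.b (.a (.l 5) (.b (.l 5) .z)) (.a (.b (.l 5) .z) .z)) .z)) (.b (.a (.b (.a (.b (.l 5)
.z) .z) .z) .z) .z))) (.b (.a (.b (.a (.b (.l 5) (.a (.l 5) (.b (.l 5) .z))) (.b (.a (.l 5) .z) .z)) .z) (.b .z (.l 83))) (.b (.l 83) (.a .z (.l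
83)))))))) (.b (.a (.b (.l 5) (.a (.l 5) (.b (.a (.l 5) (.b (.l 5) (.a (.l 5) (.b (.l 5) (.a (.l 5) (.b (.l 5) .z)))))) (.a (.b (.l 5) (.a (.b (.l 5)
(.a (.l 5) (.b (.l 5) .z))) (.b (.a (.l 5) .z) .z))) (.b (.a (.b (.l 5) (.a (.b (.l 5) .z) .z)) .z) .z))))) (.b (.a (.b (.l 5) (.a (.l 5) (.b (.l 5)
(.a (.l 5) (.b (.a (.l 5) (.b (.l 5) .z)) .z))))) (.b (.a (.l 5) (.b (.a (.l 5) (.b (.l 5) (.a (.l 5) (.b (.l 5) .z)))) (.a (.b (.l 5) (.a (.b (.l 5)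
.z) .z)) (.b (.a (.b (.l 5) .z) .z) .z)))) (.a (.b (.a (.b (.l 5) (.a (.l 5) (.b (.l 5) .z))) (.b (.a (.b (.l 5) .z) .z) .z)) .z) (.b .z (.l 83)))))
(.a (.b (.a (.b (.a (.l 5) (.b (.l 5) (.a (.b (.l 5) .z) .z))) (.a (.b (.a (.l 5) (.b (.l 5) .z)) .z) .z)) (.b (.a (.b (.a (.b (.l 5) .z) .z) .z) .z)
(.l 83))) (.l 83)) (.l 83)))) (.a (.b (.a (.b (.a (.b (.l 5) (.a (.l 5) (.b (.l 5) (.a (.l 5) .z)))) (.b (.a (.l 5) (.b (.a (.l 5) (.b (.l 5) .z)) (.a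
(.b (.l 5) .z) .z))) (.a (.b (.a (.b (.l 5) .z) .z) .z) .z))) (.a (.b (.a (.b (.a (.l 5) (.b (.l 5) .z)) .z) .z) (.l 83)) (.l 83))) (.b (.a (.b .z (.l
83)) (.l 83)) (.l 83))) (.l 83)) (.l 83)))))) (.a (.b (.a (.b (.l 5) (.a (.l 5) (.b (.l 5) (.a (.l 5) (.b (.l 5) (.a (.l 5) (.b (.l 5) (.a (.l 5) (.b
(.l 5) (.a (.l 5) .z)))))))))) (.b (.a (.l 5) (.b (.l 5) (.a (.b (.l 5) (.a (.l 5) (.b (.l 5) (.a (.l 5) (.b (.l 5) (.a (.l 5) (.b (.l 5) .z)))))))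
(.b (.a (.l 5) (.b (.l 5) (.a (.b (.l 5) (.a (.l 5) (.b (.l 5) .z))) (.b (.a (.l 5) .z) .z)))) (.a (.b (.a (.l 5) (.b (.l 5) (.a (.b (.l 5) .z) .z)))
(.a (.b (.a (.l 5) .z) .z) .z)) (.b (.a .z (.l 44)) (.l 44))))))) (.a (.b (.a (.l 5) (.b (.l 5) (.a (.b (.l 5) (.a (.l 5) (.b (.l 5) (.a (.l 5) (.b
(.l 5) .z))))) (.b (.a (.l 5) (.b (.a (.l 5) (.b (.l 5) .z)) (.a (.b (.l 5) .z) .z))) (.a (.b (.a (.b (.l 5) .z) .z) .z) .z))))) (.a (.b (.a (.l 5)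
(.b (.l 5) (.a (.b (.l 5) (.a (.l 5) .z)) (.b (.a (.b (.l 5) .z) .z) .z)))) (.a (.b (.a (.l 5) (.b (.a (.l 5) (.b (.l 5) .z)) .z)) (.a (.b (.a (.b (.l
5) .z) .z) .z) .z)) (.b (.a .z (.l 44)) (.l 44)))) (.b (.a (.b (.a (.b (.a (.l 5) (.b (.l 5) .z)) (.a (.b (.l 5) .z) .z)) .z) (.a .z (.l 44))) (.l
44)) (.l 44)))) (.b (.a (.b (.a (.b (.l 5) (.a (.b (.l 5) (.a (.l 5) (.b (.l 5) .z))) (.b (.a (.b (.l 5) .z) .z) .z))) (.b (.a (.b (.a (.l 5) (.b (.l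
5) .z)) (.a (.b (.l 5) .z) .z)) .z) (.a .z (.l 44)))) (.a (.b (.a .z (.l 44)) (.l 44)) (.l 44))) (.l 44)) (.l 44))))) (.a (.b (.a (.b (.l 5) (.a (.b
(.l 5) (.a (.l 5) (.b (.l 5) (.a (.l 5) (.b (.l 5) (.a (.l 5) (.b (.l 5) .z))))))) (.b (.a (.l 5) (.b (.l 5) (.a (.b (.l 5) (.a (.l 5) (.b (.l 5)
.z))) (.b (.a (.b (.l 5) .z) .z) (.a .z (.l 6)))))) (.a (.b (.a (.l 5) (.b (.a (.l 5) (.b (.l 5) .z)) (.a (.b (.l 5) .z) .z))) (.a (.b (.a (.b (.l 5)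
.z) .z) (.a .z (.l 6))) (.b (.a (.b .z (.l 6)) (.l 6)) (.l 6)))) (.b (.a (.b (.a .z (.b .z (.l 6))) (.l 6)) (.l 6)) (.l 6)))))) (.b (.a (.b (.l 5) (.a
(.b (.l 5) (.a (.l 5) (.b (.l 5) (.a (.l 5) .z)))) (.b (.a (.l 5) (.b (.a (.l 5) (.b (.l 5) .z)) .z)) (.a (.b (.a (.b (.l 5) .z) .z) .z) .z)))) (.b
(.a (.b (.l 5) (.a (.b (.l 5) (.a (.l 5) .z)) (.b (.a (.b (.l 5) .z) .z) .z))) (.b (.a (.b (.a (.l 5) (.b (.l 5) .z)) .z) .z) (.a .z (.l 44)))) (.a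
(.b (.a .z (.l 44)) (.l 44)) (.l 44)))) (.a (.b (.a (.b (.a (.b (.a (.l 5) (.b (.l 5) .z)) (.a (.b (.l 5) .z) .z)) .z) (.a (.b (.a (.b .z (.l 6)) .z)
(.l 6)) (.b .z (.l 6)))) (.b (.b (.l 44) .z) (.b (.b (.l 29) .z) (.b .z (.a (.l 6) (.a (.l 6) .z)))))) (.l 6)) (.b (.b (.b (.l 44) .z) (.b (.l 29) (.a
(.b (.l 29) .z) (.l 29)))) (.b (.b (.a (.b (.a (.l 6) .z) (.l 6)) .z) (.a (.l 6) (.b (.a (.l 6) (.a (.l 6) .z)) (.l 6)))) (.l 6)))))) (.a (.b (.a (.b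
(.a (.b (.l 5) (.a (.b (.l 5) (.a (.l 5) (.b (.l 5) .z))) (.b (.a (.b (.l 5) .z) .z) (.a .z (.l 6))))) (.b (.a (.b (.a (.l 5) (.b (.l 5) .z)) (.a (.b
(.l 5) .z) .z)) (.b (.a .z (.b .z (.l 6))) (.l 6))) (.a (.b (.a (.b .z (.l 6)) (.l 6)) (.l 6)) (.l 6)))) (.a (.b (.a (.b (.a .z (.b .z (.l 6))) (.a
(.b .z (.l 6)) (.l 6))) (.l 6)) (.l 6)) (.l 6))) (.l 6)) (.l 6)) (.l 6))) (.b (.b (.b (.l 44) (.b (.l 44) (.b (.l 44) (.a (.l 44) (.b (.l 44) (.a (.l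
44) .z)))))) (.b (.b (.b (.a (.b (.l 44) .z) (.b (.a .z (.a .z (.l 29))) (.a (.a .z (.l 29)) (.l 29)))) (.a (.b (.a .z (.l 29)) (.l 29)) (.l 29))) (.l
29)) (.a (.b (.a (.b (.l 29) (.a (.b .z (.a (.l 6) .z)) (.b (.l 29) .z))) (.l 29)) (.a (.b (.a (.l 6) (.b .z (.a (.l 6) (.a (.l 6) .z)))) (.l 6)) (.b
(.a (.b (.l 29) .z) (.l 29)) (.a (.b (.a (.l 6) .z) (.l 6)) .z)))) (.l 29)))) (.b (.b (.a (.b (.a (.l 6) (.b (.a (.l 6) (.b (.a (.l 6) (.a (.l 6) .z))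
(.l 6))) (.l 6))) (.l 6)) (.b (.a (.b (.a (.b .z (.a (.a (.l 6) .z) .z)) (.b (.l 29) .z)) (.a (.l 6) (.b .z (.a (.l 6) .z)))) (.b (.l 29) (.a (.b (.l
29) .z) (.l 29)))) (.a (.l 6) (.b (.a (.b (.a (.a (.l 6) .z) .z) (.a (.l 6) (.a (.l 6) .z))) (.b (.l 29) .z)) (.a (.l 6) (.b (.a (.l 6) .z) (.l
6))))))) (.l 6)) (.l 6))))) (.b (.a (.b (.a (.b (.a (.b (.l 5) (.a (.b (.l 5) (.a (.l 5) (.b (.l 5) (.a (.l 5) (.b (.l 5) .z))))) (.b (.a (.l 5) (.b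
(.l 5) (.a (.b (.l 5) .z) .z))) (.a (.b (.a (.l 5) (.b (.l 5) .z)) .z) .z)))) (.b (.a (.b (.l 5) (.a (.l 5) (.b (.a (.l 5) (.b (.l 5) .z)) .z))) (.b
(.a (.b (.l 5) (.a (.l 5) .z)) (.b (.a (.b (.l 5) .z) .z) .z)) (.a .z (.l 44)))) (.a (.b (.a (.b (.a (.b (.l 5) .z) .z) .z) .z) (.l 44)) (.l 44))))
(.a (.b (.a (.b (.a (.b (.l 5) (.a (.b (.l 5) .z) .z)) (.b (.a (.b (.l 5) .z) .z) .z)) (.a .z (.l 44))) (.l 44)) (.l 44)) (.l 44))) (.b (.a (.b (.a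
(.b (.a .z (.l 44)) (.l 44)) (.l 44)) (.l 44)) (.b (.b .z (.a (.l 44) .z)) (.l 44))) (.l 44))) (.l 44)) (.b (.b (.a (.b (.a (.b (.l 83) (.a .z (.l
83))) (.l 83)) (.a (.b (.a (.b .z (.l 44)) .z) (.a (.l 44) (.b .z (.l 44)))) (.b (.l 83) (.a .z (.l 83))))) (.l 83)) (.a (.b (.a (.l 44) (.b (.a (.b
.z (.l 44)) .z) (.a (.l 44) (.b .z (.l 44))))) (.l 44)) (.b (.a (.b (.l 83) (.a .z (.l 83))) (.l 83)) (.a (.b (.a (.b .z (.l 44)) .z) (.l 44)) (.b (.a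
.z (.l 83)) .z))))) (.b (.a (.l 44) (.b (.a (.l 44) (.b (.a (.l 44) .z) (.l 44))) (.l 44))) (.l 44)))) (.b (.b (.b (.l 44) (.b (.a (.l 44) (.b (.a (.l
44) (.b (.a (.l 44) .z) (.a .z (.a .z (.l 29))))) (.a (.b (.a (.l 44) .z) (.a .z (.a .z (.l 29)))) (.b (.a (.a .z (.l 29)) (.l 29)) (.l 29))))) (.a
(.b (.a (.b (.l 44) (.a (.l 44) .z)) (.b .z (.a .z (.l 29)))) (.a (.b .z (.a .z (.l 29))) (.l 29))) (.b (.a (.b (.a (.a .z (.l 29)) (.l 29)) (.l 29))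
(.l 29)) (.l 29))))) (.l 29)) (.b (.a (.b (.a (.b (.l 29) (.a (.b (.l 29) (.a .z (.l 29))) (.l 29))) (.l 29)) (.a (.b (.a (.b (.a (.b (.a (.l 6) (.a
(.l 6) .z)) (.l 6)) (.b .z (.a (.a (.l 6) .z) .z))) (.a (.l 6) (.b (.a (.l 6) (.a (.l 6) .z)) (.l 6)))) (.b (.l 29) (.a (.b .z (.a (.l 6) .z)) (.b (.l
29) .z)))) (.a (.l 6) (.b (.a (.l 6) (.b .z (.a (.l 6) .z))) (.l 6)))) (.b (.l 29) (.a (.b (.a (.b (.l 29) .z) (.l 29)) (.a (.b (.a (.a (.l 6) .z) .z)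
(.a (.l 6) (.a (.l 6) .z))) (.b (.l 29) .z))) (.l 29))))) (.l 29)) (.a (.b (.a (.l 6) (.b (.a (.b (.a (.l 6) (.b (.a (.a (.l 6) .z) .z) (.l 6))) (.l
6)) (.b (.a .z (.l 29)) (.a (.b (.a (.l 6) .z) (.l 6)) .z))) (.a (.l 6) (.b (.a (.l 6) (.b (.a (.l 6) .z) (.l 6))) (.l 6))))) (.l 6)) (.b (.a (.b (.l
29) (.a (.b (.a (.b .z (.a (.a (.l 6) .z) .z)) (.l 29)) (.a (.b (.a (.l 6) (.a (.l 6) .z)) (.l 6)) (.b .z (.a (.a (.l 6) .z) .z)))) (.l 29))) (.l 29))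
(.a (.b (.a (.b (.a (.l 6) (.b (.a (.l 6) (.a (.l 6) .z)) (.l 6))) (.l 6)) (.b (.a (.b .z (.a (.a (.l 6) .z) .z)) (.b (.l 29) .z)) (.a (.l 6) (.b .z
(.a (.l 6) .z))))) (.l 6)) (.b (.a (.b (.l 29) (.a (.b (.l 29) .z) (.l 29))) (.l 29)) (.a (.b (.a (.b .z (.a (.l 6) .z)) (.b (.l 29) .z)) (.a (.l 6)
(.b .z (.a (.l 6) .z)))) (.b (.l 29) (.a (.b (.l 29) .z) (.l 29)))))))))))))

theorem vQ145 : ev Q145 I5_14 I4_11 = 1877776339120589 := by decide +kernel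

noncomputable def Q82 : QT :=
(.b (.b (.l 6) (.a (.b (.l 6) (.a (.b (.a (.b (.l 6) (.a (.b (.a (.b (.a (.b (.l 6) (.a (.b (.a .z (.l 6)) .z) (.l 6))) (.l 6)) (.a (.b (.a (.b .z (.l
10)) .z) (.l 10)) (.b (.a (.b (.l 6) .z) (.l 6)) (.a (.b .z (.l 10)) (.b (.a .z (.l 6)) .z))))) (.b (.l 6) (.a (.b (.l 6) (.a (.b (.l 6) (.a .z (.l
6))) (.l 6))) (.l 6)))) (.a (.l 10) (.b (.a (.b (.a (.b .z (.l 10)) (.b (.a .z (.l 6)) .z)) (.a (.l 10) (.b .z (.l 10)))) (.b (.l 6) (.a .z (.b (.l 6)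
.z)))) (.a (.l 10) (.b (.a (.l 10) (.b .z (.l 10))) (.l 10)))))) (.b (.l 6) (.a (.b (.l 6) (.a (.b (.a (.b (.a .z (.l 6)) .z) (.b (.l 6) (.a .z (.l
6)))) (.a (.l 10) (.b .z (.l 10)))) (.b (.l 6) (.a (.b (.a .z (.l 6)) .z) (.l 6))))) (.l 6))))) (.l 6)) (.a (.b (.a (.l 10) (.b (.a (.b (.a (.l 10)
(.b (.a (.b .z (.l 10)) .z) (.l 10))) (.l 10)) (.b (.a (.b (.a (.b (.l 6) .z) (.l 6)) (.a (.b .z (.l 10)) (.b (.a .z (.l 6)) .z))) (.b (.l 6) (.a (.b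
(.l 6) (.a .z (.l 6))) (.l 6)))) (.a (.l 10) (.b (.a .z (.b (.l 6) .z)) (.a (.l 10) (.b .z (.l 10))))))) (.l 10))) (.l 10)) (.b (.a (.b (.a (.b (.l 6)
(.a (.b (.l 6) (.a .z (.b (.l 6) (.a .z (.l 6))))) (.l 6))) (.l 6)) (.a (.b (.a (.b (.a (.l 10) (.b .z (.l 10))) (.l 10)) (.b (.a (.b (.a .z (.l 6))
.z) (.l 6)) (.a (.b .z (.l 10)) .z))) (.l 10)) (.b (.a (.b (.l 6) (.a (.b (.l 6) (.a .z (.l 6))) (.l 6))) (.l 6)) (.a (.b (.a (.b .z (.l 10)) (.b (.a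
.z (.l 6)) .z)) (.a (.l 10) (.b .z (.l 10)))) (.b (.l 6) (.a .z (.b (.l 6) (.a .z (.l 6))))))))) (.l 6)) (.a (.b (.a (.l 10) (.b (.a (.l 10) (.b (.a
(.l 10) (.b .z (.l 10))) (.l 10))) (.l 10))) (.l 10)) (.b (.a (.b (.a (.b (.a (.b (.a .z (.l 6)) .z) (.l 6)) (.a (.b .z (.l 10)) .z)) (.b (.l 6) (.a
(.b (.l 6) (.a .z (.l 6))) (.l 6)))) (.a (.l 10) (.b (.a (.b .z (.l 10)) (.b (.a .z (.l 6)) .z)) (.a (.l 10) (.b .z (.l 10)))))) (.b (.l 6) (.a (.b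
(.l 6) (.a .z (.b (.l 6) (.a .z (.l 6))))) (.l 6)))) (.a (.l 10) (.b (.a (.b (.a (.l 10) (.b .z (.l 10))) (.l 10)) (.b (.a (.b (.a .z (.l 6)) .z) (.l
6)) (.a (.b .z (.l 10)) (.b (.a .z (.l 6)) .z)))) (.l 10)))))))) (.b (.l 6) (.a (.b (.l 6) (.a (.b (.l 6) (.a (.b (.a (.b (.l 6) (.a (.b (.l 6) (.a .z
(.l 6))) (.l 6))) (.l 6)) (.a (.b (.a .z (.b (.l 6) .z)) (.a (.l 10) (.b .z (.l 10)))) (.b (.l 6) (.a (.b (.a .z (.l 6)) .z) (.l 6))))) (.l 6))) (.l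
6))) (.l 6))))) (.l 6))) (.a (.b (.b (.a (.l 10) (.b (.a (.b (.a (.b (.a (.b (.a (.l 10) (.b (.a (.b .z (.l 10)) .z) (.l 10))) (.l 10)) (.b (.a (.b
(.a (.b (.l 6) (.a .z (.l 6))) (.l 6)) (.a (.b .z (.l 10)) (.b (.a .z (.l 6)) .z))) (.l 6)) (.a (.b (.a (.l 10) (.b .z (.l 10))) (.l 10)) (.b (.a (.b
(.a .z (.l 6)) .z) (.b (.l 6) (.a .z (.l 6)))) (.a (.l 10) .z))))) (.l 10)) (.b (.a (.b (.l 6) (.a (.b (.l 6) (.a (.b (.l 6) (.a .z (.l 6))) (.l 6)))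
(.l 6))) (.l 6)) (.a (.b (.a (.b (.a (.b .z (.l 10)) (.b (.a .z (.l 6)) .z)) (.a (.l 10) (.b .z (.l 10)))) (.b (.l 6) (.a (.b (.a .z (.l 6)) .z) (.b
(.l 6) (.a .z (.l 6)))))) (.a (.l 10) (.b (.a (.l 10) .z) (.l 10)))) (.b (.l 6) (.a (.b (.a (.b (.l 6) (.a .z (.l 6))) (.l 6)) (.a (.b .z (.l 10)) (.b
(.a .z (.l 6)) .z))) (.l 6)))))) (.a (.l 10) (.b (.a (.l 10) (.b (.a (.b (.a (.l 10) (.b .z (.l 10))) (.l 10)) (.b (.a (.b (.a .z (.l 6)) .z) (.b (.l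
6) (.a .z (.l 6)))) (.a (.l 10) .z))) (.l 10))) (.l 10)))) (.b (.l 6) (.a (.b (.a (.b (.a (.b (.l 6) (.a (.b (.l 6) (.a .z (.l 6))) (.l 6))) (.l 6))
(.a (.b (.a (.b .z (.l 10)) (.b (.a .z (.l 6)) .z)) (.a (.l 10) (.b .z (.l 10)))) (.b (.l 6) (.a (.b (.a .z (.l 6)) .z) (.l 6))))) (.l 6)) (.a (.b (.a
(.l 10) (.b (.a (.b .z (.l 10)) .z) (.l 10))) (.l 10)) (.b (.a (.b (.a (.b (.l 6) (.a .z (.l 6))) (.l 6)) (.a .z (.b (.l 6) (.a .z (.l 6))))) (.l 6))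
(.a (.b (.a (.l 10) (.b .z (.l 10))) (.l 10)) (.b (.a (.b (.a .z (.l 6)) .z) (.l 6)) (.a (.b .z (.l 10)) (.b (.a .z (.l 6)) .z))))))) (.l 6)))) (.a
(.l 10) (.b (.a (.b (.a (.l 10) (.b (.a (.l 10) (.b (.a (.l 10) (.b .z (.l 10))) (.l 10))) (.l 10))) (.l 10)) (.b (.a (.b (.a (.b (.a (.b (.a .z (.l
6)) .z) (.b (.l 6) (.a .z (.l 6)))) (.a (.l 10) .z)) (.b (.l 6) (.a (.b (.l 6) (.a .z (.l 6))) (.l 6)))) (.a (.l 10) (.b (.a .z (.b (.l 6) (.a .z (.l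
6)))) (.a (.l 10) (.b .z (.l 10)))))) (.b (.l 6) (.a (.b (.l 6) (.a (.b (.a .z (.l 6)) .z) (.l 6))) (.l 6)))) (.a (.l 10) (.b (.a (.b (.a (.b .z (.l
10)) (.b (.a .z (.l 6)) .z)) (.a (.l 10) (.b .z (.l 10)))) (.b (.l 6) (.a (.b (.a .z (.l 6)) .z) (.b (.l 6) (.a .z (.l 6)))))) (.a (.l 10) (.b (.a (.l
10) .z) (.l 10))))))) (.l 10))))) (.l 10)) (.a (.b (.l 10) (.a (.b (.l 10) (.a (.b (.l 10) (.a (.b (.l 10) (.a (.b (.l 10) (.a (.b (.l 10) .z) (.b .z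
(.l 11)))) (.b (.a (.b (.l 10) .z) (.b .z (.l 11))) (.l 11)))) (.b (.a (.b (.l 10) (.a (.b (.l 10) .z) (.b .z (.l 11)))) (.b (.a (.b (.l 10) .z) (.b
.z (.l 11))) (.l 11))) (.l 11)))) (.b (.a (.b (.l 10) (.a (.b (.l 10) (.a (.b (.l 10) .z) (.b .z (.l 11)))) (.b (.a (.b (.l 10) .z) (.b .z (.l 11)))
(.l 11)))) (.b (.a (.b (.l 10) (.a (.b (.l 10) .z) (.b .z (.l 11)))) (.b (.a (.b (.l 10) .z) (.b .z (.l 11))) (.l 11))) (.l 11))) (.l 11)))) (.b (.a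
(.b (.l 10) (.a (.b (.l 10) (.a (.b (.l 10) (.a (.b (.l 10) .z) (.b .z (.l 11)))) (.b (.a (.b (.l 10) .z) (.b .z (.l 11))) (.l 11)))) (.b (.a (.b (.l
10) (.a (.b (.l 10) .z) (.b .z (.l 11)))) (.b (.a (.b (.l 10) .z) (.b .z (.l 11))) (.l 11))) (.l 11)))) (.b (.a (.b (.l 10) (.a (.b (.l 10) (.a (.b
(.l 10) .z) (.b .z (.l 11)))) (.b (.a (.b (.l 10) .z) (.b .z (.l 11))) (.l 11)))) (.b (.a (.b (.l 10) (.a (.b (.l 10) .z) (.b .z (.l 11)))) (.b (.a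
(.b (.l 10) .z) (.b .z (.l 11))) (.l 11))) (.l 11))) (.l 11))) (.l 11)))) (.b (.a (.b (.l 10) (.a (.b (.l 10) (.a (.b (.l 10) (.a (.b (.l 10) (.a (.b
(.l 10) .z) (.b .z (.l 11)))) (.b (.a (.b (.l 10) .z) (.b .z (.l 11))) (.l 11)))) (.b (.a (.b (.l 10) (.a (.b (.l 10) .z) (.b .z (.l 11)))) (.b (.a
(.b (.l 10) .z) (.b .z (.l 11))) (.l 11))) (.l 11)))) (.b (.a (.b (.l 10) (.a (.b (.l 10) (.a (.b (.l 10) .z) (.b .z (.l 11)))) (.b (.a (.b (.l 10)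
.z) (.b .z (.l 11))) (.l 11)))) (.b (.a (.b (.l 10) (.a (.b (.l 10) .z) (.b .z (.l 11)))) (.b (.a (.b (.l 10) .z) (.b .z (.l 11))) (.l 11))) (.l 11)))
(.l 11)))) (.b (.a (.b (.l 10) (.a (.b (.l 10) (.a (.b (.l 10) (.a (.b (.l 10) .z) (.b .z (.l 11)))) (.b (.a (.b (.l 10) .z) (.b .z (.l 11))) (.l
11)))) (.b (.a (.b (.l 10) (.a (.b (.l 10) .z) (.b .z (.l 11)))) (.b (.a (.b (.l 10) .z) (.b .z (.l 11))) (.l 11))) (.l 11)))) (.b (.a (.b (.l 10) (.a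
(.b (.l 10) (.a (.b (.l 10) .z) (.b .z (.l 11)))) (.b (.a (.b (.l 10) .z) (.b .z (.l 11))) (.l 11)))) (.b (.a (.b (.l 10) (.a (.b (.l 10) .z) (.b .z
(.l 11)))) (.b (.a (.b (.l 10) .z) (.b .z (.l 11))) (.l 11))) (.l 11))) (.l 11))) (.l 11))) (.l 11)))) (.b (.a (.b (.b (.l 6) (.a (.b (.a (.b (.l 6)
(.a (.b (.l 6) (.a (.b (.a (.b (.l 6) (.a .z (.l 6))) (.l 6)) (.a .z (.b (.l 6) (.a .z (.l 6))))) (.l 6))) (.l 6))) (.l 6)) (.a (.b (.a (.b (.a (.b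
(.a (.l 10) .z) (.l 10)) (.b (.a (.b (.l 6) (.a .z (.l 6))) (.l 6)) (.a (.b .z (.l 10)) (.b (.a .z (.l 6)) .z)))) (.a (.l 10) (.b (.a (.l 10) (.b .z
(.l 10))) (.l 10)))) (.b (.l 6) (.a (.b (.a (.b (.a .z (.l 6)) .z) (.l 6)) (.a (.b .z (.l 10)) (.b (.a .z (.l 6)) .z))) (.l 6)))) (.a (.l 10) (.b (.a
(.b (.a (.l 10) (.b .z (.l 10))) (.l 10)) (.b (.a (.b (.a .z (.l 6)) .z) (.l 6)) (.a (.b .z (.l 10)) .z))) (.l 10)))) (.b (.l 6) (.a (.b (.a (.b (.l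
6) (.a (.b (.l 6) (.a .z (.l 6))) (.l 6))) (.l 6)) (.a (.b (.a .z (.b (.l 6) (.a .z (.l 6)))) (.a (.l 10) .z)) (.b (.l 6) (.a (.b (.l 6) (.a .z (.l
6))) (.l 6))))) (.l 6))))) (.l 6))) (.a (.b (.b (.a (.l 10) (.b (.a (.b (.a (.l 10) (.b (.a .z (.b (.l 6) (.a .z (.l 6)))) (.a (.l 10) .z))) (.l 10))
(.b (.a (.b (.l 6) (.a (.b (.l 6) (.a .z (.l 6))) (.l 6))) (.l 6)) (.a (.b (.a .z (.b (.l 6) (.a .z (.l 6)))) (.a (.l 10) .z)) (.b (.l 6) (.a (.b (.l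
6) .z) (.l 6)))))) (.a (.l 10) (.b (.a (.l 10) (.b (.a (.b .z (.l 10)) (.b (.a .z (.l 6)) .z)) (.a (.l 10) (.b .z (.l 10))))) (.l 10))))) (.l 10)) (.a
(.b (.l 10) (.a (.b (.l 10) (.a (.b (.l 10) (.a (.b (.l 10) .z) (.b .z (.l 11)))) (.b (.a (.b (.l 10) .z) (.b .z (.l 11))) (.l 11)))) (.b (.a (.b (.l
10) (.a (.b (.l 10) .z) (.b .z (.l 11)))) (.b (.a (.b (.l 10) .z) (.b .z (.l 11))) (.l 11))) (.l 11)))) (.b (.a (.b (.l 10) (.a (.b (.l 10) (.a (.b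
(.l 10) .z) (.b .z (.l 11)))) (.b (.a (.b (.l 10) .z) (.b .z (.l 11))) (.l 11)))) (.b (.a (.b (.l 10) (.a (.b (.l 10) .z) (.b .z (.l 11)))) (.b (.a
(.b (.l 10) .z) (.b .z (.l 11))) (.l 11))) (.l 11))) (.l 11)))) (.b (.a (.b (.b (.l 6) (.a (.b (.a (.b (.l 6) (.a (.b (.a .z (.l 6)) .z) (.l 6))) (.l
6)) (.a (.b (.a (.b .z (.l 10)) (.b (.a .z (.l 6)) .z)) (.a (.l 10) (.b .z (.l 10)))) (.b (.l 6) (.a (.b (.a .z (.l 6)) .z) (.l 6))))) (.l 6))) (.a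
(.b (.b (.a (.l 10) (.b (.a (.b .z (.l 10)) (.b (.a .z (.l 6)) .z)) (.a (.l 10) (.b .z (.l 10))))) (.l 10)) (.a (.b (.l 10) (.a (.b (.l 10) .z) (.b .z
(.l 11)))) (.b (.a (.b (.l 10) .z) (.b .z (.l 11))) (.l 11)))) (.b (.a (.b (.b (.l 6) (.a (.b (.a .z (.l 6)) .z) (.l 6))) (.a (.b (.b .z (.l 10)) .z)
(.b .z (.l 11)))) (.b (.a (.b (.l 6) (.a (.b (.l 6) .z) (.b .z (.l 7)))) (.b (.a (.b (.l 6) .z) (.b .z (.l 7))) (.l 7))) (.b (.b (.a (.l 7) (.a (.l 7)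
.z)) .z) (.b .z (.l 11))))) (.l 11)))) (.b (.a (.b (.l 6) (.a (.b (.l 6) (.a (.b (.l 6) (.a (.b (.l 6) .z) (.b .z (.l 7)))) (.b (.a (.b (.l 6) .z) (.b
.z (.l 7))) (.l 7)))) (.b (.a (.b (.l 6) (.a (.b (.l 6) .z) (.b .z (.l 7)))) (.b (.a (.b (.l 6) .z) (.b .z (.l 7))) (.l 7))) (.l 7)))) (.b (.a (.b (.l
6) (.a (.b (.l 6) (.a (.b (.l 6) .z) (.b .z (.l 7)))) (.b (.a (.b (.l 6) .z) (.b .z (.l 7))) (.l 7)))) (.b (.a (.b (.l 6) (.a (.b (.l 6) .z) (.b .z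
(.l 7)))) (.b (.a (.b (.l 6) .z) (.b .z (.l 7))) (.l 7))) (.l 7))) (.l 7))) (.b (.b (.b (.l 7) (.b (.l 7) (.a (.l 7) (.a (.l 7) .z)))) (.a (.b (.b .z
(.l 10)) (.a (.b (.a .z (.l 10)) .z) (.b (.l 10) (.a .z (.l 10))))) (.b (.b (.a .z (.a .z (.l 10))) (.l 10)) (.l 10)))) (.b (.a (.b (.a (.l 11) (.b .z
(.l 11))) (.l 11)) (.b (.a (.b (.a .z (.l 10)) .z) (.l 10)) (.a (.b (.a (.l 11) .z) (.l 11)) (.b .z (.a (.l 11) .z))))) (.l 11))))) (.l 11)))) (.b (.a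
(.b (.l 6) (.a (.b (.l 6) (.a (.b (.l 6) (.a (.b (.l 6) (.a (.b (.l 6) (.a (.b (.l 6) .z) (.b .z (.l 7)))) (.b (.a (.b (.l 6) .z) (.b .z (.l 7))) (.l
7)))) (.b (.a (.b (.l 6) (.a (.b (.l 6) .z) (.b .z (.l 7)))) (.b (.a (.b (.l 6) .z) (.b .z (.l 7))) (.l 7))) (.l 7)))) (.b (.a (.b (.l 6) (.a (.b (.l
6) (.a (.b (.l 6) .z) (.b .z (.l 7)))) (.b (.a (.b (.l 6) .z) (.b .z (.l 7))) (.l 7)))) (.b (.a (.b (.l 6) (.a (.b (.l 6) .z) (.b .z (.l 7)))) (.b (.a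
(.b (.l 6) .z) (.b .z (.l 7))) (.l 7))) (.l 7))) (.l 7)))) (.b (.a (.b (.l 6) (.a (.b (.l 6) (.a (.b (.l 6) (.a (.b (.l 6) .z) (.b .z (.l 7)))) (.b
(.a (.b (.l 6) .z) (.b .z (.l 7))) (.l 7)))) (.b (.a (.b (.l 6) (.a (.b (.l 6) .z) (.b .z (.l 7)))) (.b (.a (.b (.l 6) .z) (.b .z (.l 7))) (.l 7)))
(.l 7)))) (.b (.a (.b (.l 6) (.a (.b (.l 6) (.a (.b (.l 6) .z) (.b .z (.l 7)))) (.b (.a (.b (.l 6) .z) (.b .z (.l 7))) (.l 7)))) (.b (.a (.b (.l 6)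
(.a (.b (.l 6) .z) (.b .z (.l 7)))) (.b (.a (.b (.l 6) .z) (.b .z (.l 7))) (.l 7))) (.l 7))) (.l 7))) (.l 7)))) (.b (.a (.b (.l 6) (.a (.b (.l 6) (.a
(.b (.l 6) (.a (.b (.l 6) (.a (.b (.l 6) .z) (.b .z (.l 7)))) (.b (.a (.b (.l 6) .z) (.b .z (.l 7))) (.l 7)))) (.b (.a (.b (.l 6) (.a (.b (.l 6) .z)
(.b .z (.l 7)))) (.b (.a (.b (.l 6) .z) (.b .z (.l 7))) (.l 7))) (.l 7)))) (.b (.a (.b (.l 6) (.a (.b (.l 6) (.a (.b (.l 6) .z) (.b .z (.l 7)))) (.b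
(.a (.b (.l 6) .z) (.b .z (.l 7))) (.l 7)))) (.b (.a (.b (.l 6) (.a (.b (.l 6) .z) (.b .z (.l 7)))) (.b (.a (.b (.l 6) .z) (.b .z (.l 7))) (.l 7)))
(.l 7))) (.l 7)))) (.b (.a (.b (.l 6) (.a (.b (.l 6) (.a (.b (.l 6) (.a (.b (.l 6) .z) (.b .z (.l 7)))) (.b (.a (.b (.l 6) .z) (.b .z (.l 7))) (.l
7)))) (.b (.a (.b (.l 6) (.a (.b (.l 6) .z) (.b .z (.l 7)))) (.b (.a (.b (.l 6) .z) (.b .z (.l 7))) (.l 7))) (.l 7)))) (.b (.a (.b (.l 6) (.a (.b (.l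
6) (.a (.b (.l 6) .z) (.b .z (.l 7)))) (.b (.a (.b (.l 6) .z) (.b .z (.l 7))) (.l 7)))) (.b (.a (.b (.l 6) (.a (.b (.l 6) .z) (.b .z (.l 7)))) (.b (.a
(.b (.l 6) .z) (.b .z (.l 7))) (.l 7))) (.l 7))) (.l 7))) (.l 7))) (.l 7))) (.b (.b (.b (.l 7) (.b (.l 7) (.a (.l 7) (.b (.l 7) (.a (.l 7) (.b (.a (.l
7) (.a (.l 7) (.a (.a (.l 7) .z) .z))) (.a .z (.a .z (.a .z (.l 10)))))))))) (.a (.b (.b (.b (.a (.l 7) (.b (.l 7) (.a (.a (.l 7) (.a (.l 7) (.a (.l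
7) .z))) .z))) (.a (.b (.a (.l 7) (.a (.a (.l 7) .z) .z)) (.a .z (.a .z (.l 10)))) (.b (.a .z (.l 10)) (.l 10)))) (.l 10)) (.a (.b (.a (.b (.l 10) (.a
(.b (.l 10) .z) (.l 10))) (.l 10)) (.a (.b (.a (.b (.a (.l 11) .z) (.l 11)) (.b .z (.a (.l 11) .z))) (.l 11)) (.b (.a (.b (.l 10) (.a .z (.l 10))) (.l
10)) (.a (.b .z (.l 11)) (.b (.a .z (.l 10)) .z))))) (.b (.l 10) (.a (.b (.l 10) (.a (.b (.l 10) (.a .z (.l 10))) (.l 10))) (.l 10))))) (.b (.b (.b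
(.a (.b (.a (.a (.l 7) .z) .z) (.a (.a .z (.a .z (.l 10))) (.l 10))) (.b (.a (.a (.a .z (.l 10)) (.l 10)) (.l 10)) (.l 10))) (.l 10)) (.l 10)) (.l
10)))) (.b (.a (.b (.a (.l 11) (.b (.a (.b (.a (.b .z (.l 11)) (.b (.a .z (.l 10)) .z)) (.a (.l 11) (.b (.a (.l 11) .z) (.l 11)))) (.b (.l 10) (.a (.b
.z (.a (.l 11) .z)) (.b (.l 10) .z)))) (.a (.l 11) (.b (.a (.l 11) (.b (.a (.l 11) .z) (.l 11))) (.l 11))))) (.l 11)) (.b (.a (.b (.l 10) (.a (.b (.a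
(.b (.a .z (.l 10)) .z) (.b (.l 10) (.a .z (.l 10)))) (.a (.l 11) (.b .z (.l 11)))) (.b (.l 10) (.a (.b (.a .z (.l 10)) .z) (.l 10))))) (.l 10)) (.a
(.b (.a (.l 11) (.b (.a (.b (.a (.l 11) .z) (.l 11)) (.b .z (.a (.l 11) .z))) (.l 11))) (.l 11)) (.b (.a (.b (.a (.b (.l 10) (.a .z (.l 10))) (.l 10))
(.a (.b .z (.l 11)) (.b (.a .z (.l 10)) .z))) (.b (.l 10) (.a (.b (.l 10) (.a .z (.l 10))) (.l 10)))) (.a (.l 11) (.b (.a (.b .z (.a (.l 11) .z)) (.b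
(.l 10) .z)) (.a (.l 11) (.b (.a (.l 11) .z) (.l 11))))))))) (.l 11))))) (.l 11))))

theorem vQ82 : ev Q82 I4_2 I3_6 = 7751847543148506 := by decide +kernel

noncomputable def Q50 : QT :=
(.b (.a (.b (.b (.a (.b (.a (.l 38) (.b (.a (.l 38) .z) (.l 38))) (.a (.b (.l 38) (.a (.b (.l 38) .z) (.l 38))) (.l 38))) (.b (.a (.b (.a (.b (.l 34)
.z) (.l 34)) (.a .z (.b (.l 34) .z))) (.l 34)) (.a (.b (.a (.l 38) (.b .z (.l 38))) (.l 38)) (.b (.a .z (.l 34)) (.a (.b .z (.l 38)) .z))))) (.a (.b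
(.a (.b (.a (.b .z (.l 42)) .z) (.a (.l 42) (.b .z (.l 42)))) (.b (.l 38) (.a .z (.l 38)))) (.a (.l 42) (.b (.a (.b .z (.l 42)) .z) (.l 42)))) (.b (.a
(.l 38) (.b (.a (.l 38) (.b .z (.l 38))) (.l 38))) (.a (.b (.a (.b (.l 38) .z) (.l 38)) (.a .z (.b (.l 38) .z))) (.l 38))))) (.a (.b (.b (.a (.b (.a
(.b (.l 42) .z) (.l 42)) (.a .z (.b (.l 42) .z))) (.l 42)) (.a (.b (.a (.l 46) .z) (.l 46)) (.b (.a (.b (.l 42) .z) (.l 42)) (.a .z (.b (.l 42)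
.z))))) (.a (.b (.b (.l 46) (.a .z (.l 46))) (.a (.b (.b .z (.l 50)) .z) (.b .z (.l 51)))) (.b (.a (.b (.l 46) .z) (.b .z (.l 47))) (.b (.b (.l 47)
(.b .z (.l 51))) (.l 51))))) (.b (.a (.b (.b (.a (.l 42) .z) (.l 42)) (.a (.b (.l 42) .z) (.b .z (.l 43)))) (.b (.a (.b (.b (.l 38) .z) .z) (.b .z (.b
.z (.l 43)))) (.l 43))) (.b (.b (.b .z (.l 47)) (.l 47)) (.b (.b (.l 47) .z) (.l 51)))))) (.b (.a (.b (.b (.a (.l 34) (.b (.a (.l 34) (.b .z (.l 34)))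
(.l 34))) (.l 34)) (.a (.b (.b (.a .z (.l 34)) (.a (.b .z (.l 38)) .z)) (.a (.b (.l 38) .z) (.b .z (.l 39)))) (.b (.a (.b (.l 34) .z) (.b .z (.l 35)))
(.b (.b (.b .z (.l 39)) (.l 39)) (.l 39))))) (.b (.a (.b (.b (.a (.b (.a .z (.l 30)) .z) (.l 30)) (.a (.b .z (.l 34)) (.b (.a .z (.l 30)) .z))) (.a
(.b (.l 34) .z) (.b .z (.l 35)))) (.b (.a (.b (.l 30) (.a (.b (.l 30) .z) (.b .z (.l 31)))) (.b (.a (.b (.l 30) .z) (.b .z (.l 31))) (.l 31))) (.b (.b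
(.b .z (.l 35)) (.l 35)) (.l 35)))) (.b (.l 35) (.b (.b (.b .z (.l 39)) (.l 39)) (.l 39))))) (.b (.b (.b (.l 39) (.b (.b (.l 39) .z) (.b (.a (.a (.l
43) .z) .z) (.l 43)))) (.l 43)) (.b (.b (.b .z (.b (.a (.l 47) (.a (.l 47) .z)) (.l 47))) (.l 47)) (.b (.b (.l 47) .z) (.l 51)))))) (.b (.b (.b (.b
(.b (.l 51) (.b (.a (.a (.l 51) (.a (.l 51) .z)) .z) (.a .z (.a .z (.l 56))))) (.b (.b (.a (.l 55) (.a (.a (.l 55) .z) .z)) (.l 55)) (.l 55))) (.b (.b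
(.l 55) (.b .z (.a (.a (.a (.l 59) .z) .z) .z))) (.l 59))) (.b (.b (.b (.b (.a (.a (.l 59) (.a (.l 59) .z)) .z) (.a .z (.l 64))) (.b (.a (.a (.l 63)
(.a (.l 63) .z)) .z) (.l 63))) (.b (.l 63) (.b (.a (.a (.l 63) .z) .z) (.a .z (.l 68))))) (.b (.b (.b (.a (.a (.l 67) .z) .z) (.l 67)) (.l 67)) (.b .z
(.b (.a (.l 71) (.a (.l 71) .z)) (.l 71)))))) (.b (.b (.b (.b (.b (.l 71) .z) (.b .z (.l 75))) (.b (.b (.l 75) .z) (.b (.a .z (.a .z (.l 80))) (.a (.l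
79) .z)))) (.b (.b (.b (.l 79) .z) (.b (.a .z (.l 84)) (.a (.a (.l 83) .z) .z))) (.b (.b (.l 83) .z) (.b (.a .z (.a .z (.l 88))) (.a (.l 87) .z)))))
(.b (.b (.b (.b (.a (.l 87) (.a (.l 87) .z)) .z) (.b .z (.l 91))) (.b .z (.b (.a (.l 95) (.a (.l 95) .z)) .z))) (.b (.b (.b (.a .z (.a .z (.l 100)))
(.a (.l 99) .z)) .z) (.b (.b (.a (.l 103) (.a (.l 103) .z)) .z) .z))))))

theorem vQ50 : ev Q50 I6_3 I5_30 = 314712291255953 := by decide +kernel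

noncomputable def Q244 : QT :=
(.a (.b (.a (.b (.a (.b (.a .z (.b .z (.a .z (.b .z (.l 45))))) (.a (.b (.a .z (.b .z (.l 45))) (.b (.b .z (.b (.l 19) .z)) (.b (.b .z (.l 17)) (.l
17)))) (.b (.b (.l 45) (.b (.l 45) .z)) (.b (.b (.b .z (.l 19)) (.l 19)) (.b .z (.l 17)))))) (.b (.a (.b (.a .z (.l 45)) (.l 45)) (.l 45)) (.b (.b (.l
45) (.b (.a (.l 45) .z) (.a .z (.b .z (.l 19))))) (.b (.l 19) (.b (.a (.b (.l 19) .z) (.l 19)) (.a (.b .z (.l 17)) .z)))))) (.b (.l 17) (.b (.b (.l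
17) (.b (.a (.l 17) (.b (.l 17) (.a (.l 17) .z))) (.a (.b (.l 17) (.a (.l 17) .z)) .z))) (.b (.b (.a .z (.l 72)) (.a .z (.l 72))) (.l 72))))) (.b (.b
(.a (.l 45) (.b (.l 45) (.a (.l 45) (.b (.a (.l 45) .z) .z)))) (.b (.b (.a (.b (.l 45) (.a (.l 45) .z)) (.b .z (.a .z (.b .z (.l 19))))) (.a (.b (.a
.z (.b .z (.l 19))) (.l 19)) (.l 19))) (.b (.l 19) (.a (.b (.l 19) (.a (.b (.l 19) .z) (.l 19))) (.l 19))))) (.b (.b (.b (.a (.b (.a (.b .z (.l 17))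
.z) (.a (.l 17) (.b .z (.l 17)))) (.b (.l 19) (.a .z (.b (.l 19) .z)))) (.a (.l 17) (.b (.a (.l 17) (.b .z (.l 17))) (.l 17)))) (.l 17)) (.b (.b (.b
(.a (.l 17) (.b (.l 17) (.a (.l 17) .z))) (.a (.b (.l 17) (.a (.l 17) .z)) .z)) (.b (.a .z (.l 72)) (.l 72))) (.a (.b (.l 72) (.b (.l 72) .z)) (.a (.b
(.l 72) .z) .z)))))) (.b (.a (.b (.b (.b (.a (.b .z (.a (.b .z (.l 23)) .z)) .z) (.a (.a (.b (.l 23) .z) .z) .z)) .z) (.b .z (.a (.b .z (.b .z (.l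
107))) (.b (.b .z (.l 107)) (.l 107))))) (.b (.a (.b (.b (.b .z (.l 71)) .z) .z) (.b (.b .z (.b .z (.a (.b .z (.l 25)) (.l 25)))) (.a .z (.b .z (.a .z
(.b .z (.l 19))))))) (.a (.b .z (.a .z (.b (.a .z (.b .z (.l 19))) (.l 19)))) (.b (.a (.b .z (.a (.b .z (.l 19)) (.l 19))) (.l 19)) (.b (.l 19) (.b
(.l 19) (.b (.a (.l 19) .z) .z))))))) (.a (.b (.a (.b (.b (.a .z (.l 107)) .z) .z) (.b (.a (.b (.l 107) .z) .z) (.a .z (.b (.b (.b .z (.l 25)) (.l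
25)) (.b .z (.l 57)))))) (.a .z (.b (.l 57) (.a .z (.b (.l 57) .z))))) (.b (.a (.b (.a .z (.b .z (.b .z (.b .z (.l 25))))) (.b (.b (.b .z (.l 25)) (.l
25)) (.b (.b (.l 25) (.a .z (.l 25))) .z))) (.b (.b .z (.b .z (.a (.b .z (.l 25)) (.b .z (.l 25))))) (.b (.b (.b .z (.l 25)) (.l 25)) (.b (.l 25) (.a
(.b (.l 25) .z) (.l 25)))))) (.b (.b (.a (.l 57) (.b .z (.l 57))) (.l 57)) (.b (.a (.l 57) (.b (.l 57) (.a (.l 57) .z))) (.a (.b (.l 57) .z) .z)))))))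
(.b (.b (.a (.b (.b (.a (.a (.b (.a (.l 45) .z) .z) .z) (.l 84)) (.b .z (.a .z (.b .z (.a .z (.b .z (.l 19))))))) (.b (.b (.a (.b (.a .z (.b .z (.l
19))) (.l 19)) (.l 19)) (.l 19)) (.l 19))) (.b (.b (.b (.a (.l 84) .z) (.a .z (.b (.a .z (.l 65)) (.l 65)))) (.b (.a (.b (.a .z (.l 65)) .z) (.b .z
(.a (.b .z (.l 19)) (.l 19)))) (.a (.b (.a (.b .z (.l 19)) (.l 19)) (.l 19)) (.l 19)))) (.a (.l 19) (.b (.l 19) (.a (.l 19) (.b (.l 19) (.a (.l 19)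
(.b (.l 19) .z)))))))) (.a (.b (.b (.b (.l 19) (.a (.b (.a .z (.b (.l 19) .z)) (.a (.l 17) .z)) (.b (.l 19) (.a (.b (.l 19) .z) (.l 19))))) (.b (.a
(.l 17) (.b (.a (.b .z (.l 17)) .z) (.l 17))) (.a (.b (.l 17) (.a (.l 17) (.b (.l 17) .z))) (.b (.a (.l 17) (.b (.l 17) .z)) .z)))) (.a (.b (.b .z (.a
.z (.l 98))) (.a (.b .z (.l 98)) (.b (.l 98) .z))) (.b (.a (.l 98) .z) (.a (.b .z (.a .z (.b .z (.l 19)))) (.b (.a (.b .z (.l 19)) (.l 19)) (.l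
19)))))) (.b (.a (.b (.l 19) (.a (.b (.b (.b (.l 19) .z) .z) .z) (.b (.a (.b (.l 19) .z) .z) (.a .z (.l 19))))) (.b (.a (.b (.a (.l 19) (.b (.l 19)
.z)) (.a (.b (.l 19) .z) .z)) (.b (.a .z (.b .z (.l 19))) (.l 19))) (.a (.b (.a (.b .z (.l 19)) (.l 19)) (.l 19)) (.l 19)))) (.a (.b (.a (.b (.a .z
(.b .z (.l 19))) (.l 19)) (.l 19)) (.l 19)) (.l 19))))) (.b (.a (.b (.a (.b (.a (.b .z (.a (.b (.l 25) .z) .z)) (.b (.a .z (.b .z (.l 19))) (.a (.b .z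
(.l 19)) (.l 19)))) (.a (.b (.a .z (.l 19)) (.l 19)) (.l 19))) (.l 19)) (.b (.l 19) (.b (.b (.l 19) (.a (.l 19) (.b (.a (.l 19) .z) .z))) (.b (.a (.b
(.a (.l 19) .z) .z) .z) .z)))) (.b (.l 19) (.b (.b (.l 19) (.b (.l 19) (.a (.l 19) (.b (.l 19) (.a (.l 19) .z))))) (.b (.b (.a (.b (.l 19) (.a (.l 19)
.z)) .z) .z) .z)))) (.b (.b (.a .z (.a .z (.a .z (.b .z (.l 111))))) (.a (.b (.a (.b (.a (.b .z (.l 25)) (.b .z (.l 25))) (.l 25)) (.b .z (.a (.l 25)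
(.b .z (.l 25))))) (.l 25)) (.b .z (.a (.b (.a (.l 25) (.b .z (.l 25))) (.l 25)) (.b .z (.a (.b .z (.l 25)) .z)))))) (.b (.a (.b (.a (.b (.a (.b (.l
25) .z) (.l 25)) .z) (.b (.l 25) (.a (.b (.l 25) .z) (.l 25)))) (.a (.a (.a (.l 57) .z) .z) .z)) (.b (.a (.b (.l 25) (.a (.l 25) (.b (.l 25) .z))) (.b
(.a (.l 25) (.b (.l 25) .z)) .z)) (.a (.b (.a (.b (.l 25) .z) .z) .z) (.b .z (.l 91))))) (.a (.b (.a .z (.b .z (.l 91))) (.a (.a .z (.l 91)) (.l 91)))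
(.l 91)))))))

theorem vQ244 : ev Q244 I6_44 I5_29 = 289200800904461 := by decide +kernel

noncomputable def Q162 : QT :=
(.b (.b (.b (.a (.b (.a (.b (.a (.l 21) (.b (.a (.l 21) (.b (.l 21) .z)) (.a (.b (.l 21) .z) .z))) (.a (.b (.a (.l 21) (.b (.l 21) .z)) (.a (.b (.l
21) .z) .z)) (.b (.a .z (.l 25)) (.l 25)))) (.b (.a (.b (.a .z (.l 25)) (.l 25)) (.l 25)) (.l 25))) (.a (.b (.a (.b (.a (.b .z (.l 25)) (.l 25)) (.l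
25)) (.l 25)) (.l 25)) (.l 25))) (.b (.l 25) (.b (.l 25) (.a (.l 25) (.b (.l 25) (.a (.l 25) (.b (.l 25) .z))))))) (.b (.a (.b (.a (.l 25) (.b (.l 25)
(.a (.l 25) (.b (.l 25) (.a (.l 25) .z))))) (.a (.b (.a (.l 25) (.b (.l 25) (.a (.l 25) .z))) (.a (.b (.a (.l 25) .z) .z) (.b .z (.l 29)))) (.b (.a
(.b (.a (.l 25) .z) .z) (.b .z (.l 29))) (.l 29)))) (.b (.a (.b (.a (.l 25) (.b (.l 25) .z)) (.a (.b (.a (.l 25) .z) .z) (.b (.a .z (.l 29)) (.l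
29)))) (.b (.a (.b .z (.a .z (.l 29))) (.b (.a .z (.l 29)) (.l 29))) (.l 29))) (.l 29))) (.l 29))) (.b (.a (.l 29) (.b (.l 29) (.a (.l 29) (.b (.l 29)
(.a (.l 29) (.b (.l 29) (.a (.l 29) (.b (.l 29) .z)))))))) (.a (.b (.l 29) (.a (.l 29) (.b (.l 29) (.a (.b (.l 29) (.a (.l 29) (.b (.l 29) .z))) (.b
(.a (.b (.l 29) .z) .z) (.a .z (.l 33))))))) (.b (.a (.b (.l 29) (.a (.l 29) (.b (.a (.l 29) (.b (.l 29) .z)) (.a (.b (.l 29) .z) .z)))) (.b (.a (.b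
(.l 29) (.a (.l 29) .z)) (.b .z (.a .z (.l 33)))) (.a (.b .z (.l 33)) (.l 33)))) (.a (.b (.a (.b (.a (.l 29) .z) .z) (.b (.a .z (.l 33)) (.l 33))) (.a
(.b (.a .z (.l 33)) (.l 33)) (.l 33))) (.l 33)))))) (.a (.b (.a (.b (.a (.b (.a (.b (.l 29) (.a .z (.b (.l 29) .z))) (.b (.l 29) (.b (.b (.l 29) .z)
.z))) (.a (.b .z (.l 51)) (.b (.a .z (.l 37)) .z))) (.b (.b (.b (.l 29) (.a (.b (.l 29) .z) .z)) (.b (.a .z (.l 33)) .z)) (.a (.b (.l 37) (.a .z (.l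
37))) (.l 37)))) (.a (.b (.l 51) (.b (.b (.b (.l 51) .z) (.a (.b .z (.l 28)) (.b (.l 28) .z))) (.b (.a (.b (.l 28) .z) .z) (.a (.b .z (.l 28)) (.l
28))))) (.b (.a (.b .z (.l 51)) (.b (.a .z (.l 37)) .z)) (.b (.b .z (.a .z (.b .z (.l 28)))) (.l 28))))) (.b (.b (.b (.a (.b .z (.a .z (.l 33))) (.l
33)) (.b (.b (.a (.l 33) .z) .z) (.b (.a .z (.l 37)) (.l 37)))) (.l 37)) (.a (.b (.a (.b (.l 37) (.a .z (.l 37))) (.l 37)) (.a (.b .z (.a (.l 28) (.b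
.z (.l 28)))) (.b (.l 37) .z))) (.l 37)))) (.a (.b (.l 28) (.b (.b (.l 28) (.b (.b (.a (.l 28) (.a (.l 28) .z)) .z) (.b (.a (.a .z (.l 31)) (.l 31))
(.l 31)))) (.l 31))) (.b (.a (.b (.a (.l 28) (.b (.a (.l 28) (.b .z (.l 28))) (.l 28))) (.l 28)) (.b (.a (.b (.a .z (.l 37)) (.a (.b .z (.l 28)) .z))
(.b (.l 37) .z)) (.a (.l 28) (.b (.a (.b .z (.l 28)) .z) (.l 28))))) (.b (.b (.b (.l 28) (.b (.l 28) (.a (.l 28) .z))) (.b (.b (.a .z (.a .z (.l 31)))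
(.l 31)) (.l 31))) (.b (.l 31) (.b (.l 31) (.b (.a (.l 31) (.a (.l 31) .z)) .z))))))) (.b (.b (.b (.b (.b (.a (.l 33) (.b (.a (.l 33) .z) .z)) (.a (.b
(.a (.l 33) .z) .z) (.b (.a .z (.l 37)) (.l 37)))) (.b (.a (.b (.a .z (.l 37)) (.l 37)) (.l 37)) (.l 37))) (.l 37)) (.b (.l 37) (.a (.b (.l 37) (.a
(.l 37) (.b (.l 37) (.a (.l 37) .z)))) (.b (.a (.l 37) (.b (.a (.l 37) .z) .z)) (.a (.b (.a (.l 37) .z) .z) (.b (.a .z (.l 41)) (.l 41))))))) (.a (.b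
(.a (.b (.b (.b (.l 37) .z) (.b .z (.b .z (.l 45)))) (.a (.b (.a .z (.l 45)) .z) (.l 45))) (.b (.b (.b .z (.a .z (.l 41))) (.b .z (.l 45))) (.l 45)))
(.a (.b (.a (.b (.a (.b (.l 28) .z) .z) (.l 31)) (.b .z (.a (.l 31) .z))) (.b (.l 31) (.b (.b (.l 31) (.a (.l 31) .z)) .z))) (.b (.a (.b (.l 45) (.a
.z (.l 45))) (.l 45)) (.a (.b (.a (.b .z (.l 31)) .z) .z) (.b (.l 45) .z))))) (.b (.b (.b (.b (.l 41) (.b (.a (.l 41) .z) .z)) (.b (.b (.a .z (.l 45))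
(.l 45)) (.l 45))) (.l 45)) (.b (.b (.l 45) (.a (.l 45) (.b (.l 45) (.a (.l 45) .z)))) (.b (.a (.b (.a (.l 45) .z) .z) (.b .z (.b (.l 49) .z))) (.a
(.b .z (.l 53)) (.b (.b .z (.l 53)) (.l 53))))))))))

theorem vQ162 : ev Q162 I6_30 I5_29 = 419376395876789 := by decide +kernel

noncomputable def Q203 : QT :=
(.a (.b (.a (.b (.a (.b (.a (.b (.a (.b (.a .z (.b .z (.a .z (.l 13)))) (.a (.b (.a .z (.l 13)) (.l 13)) (.l 13))) (.b (.a (.b (.a .z (.l 13)) (.l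
13)) (.l 13)) (.l 13))) (.l 13)) (.l 13)) (.l 13)) (.l 13)) (.l 13)) (.l 13)) (.b (.b (.b (.l 13) (.a (.l 13) (.b (.l 13) (.a (.l 13) (.b (.a (.l 13)
(.b (.l 13) (.a (.l 13) .z))) (.a (.b (.l 13) (.a (.a (.l 13) .z) .z)) .z)))))) (.b (.a (.b (.l 13) (.a (.b (.l 13) (.a (.l 13) (.b (.l 13) (.a (.l
13) .z)))) (.b (.a (.b (.l 13) (.a (.l 13) (.a (.l 13) .z))) (.b (.a (.a (.l 13) .z) .z) .z)) (.a (.b (.a (.a (.l 13) .z) .z) .z) (.l 36))))) (.b (.a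
(.b (.a (.l 13) (.b (.a (.l 13) (.a (.l 13) .z)) (.a (.a (.l 13) .z) .z))) (.a (.b (.a (.l 13) .z) .z) .z)) .z) (.a (.b (.a .z (.l 71)) .z) (.a (.a
(.l 71) .z) (.a .z (.l 109)))))) (.a (.b (.a (.b (.a (.b (.l 13) (.a (.a (.l 13) .z) .z)) .z) (.a (.b .z (.l 36)) (.l 36))) (.l 36)) (.l 36)) (.a (.b
(.a (.a (.a (.l 36) .z) (.l 41)) (.b (.a (.l 41) .z) (.l 41))) (.a (.a (.a (.l 36) .z) (.l 41)) (.l 41))) (.b (.a .z (.b (.l 109) .z)) (.a (.l 41) (.b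
.z (.a (.l 41) .z)))))))) (.b (.b (.a (.l 36) (.a (.a (.a (.a (.l 36) (.a (.l 36) .z)) (.a .z (.l 41))) (.l 41)) (.l 41))) (.a (.l 36) (.b (.a (.a (.a
(.l 36) .z) (.l 41)) (.l 41)) (.a (.a (.a (.l 36) (.a (.l 36) .z)) (.l 41)) (.b (.a (.l 41) (.b (.l 41) .z)) (.a (.b (.l 41) .z) (.b .z (.a .z (.l
19))))))))) (.a (.b (.b (.l 36) (.a (.b (.l 36) (.a (.l 36) (.b (.l 36) .z))) (.b (.a (.b (.l 36) .z) (.b .z (.a .z (.l 19)))) (.a (.b .z (.a .z (.l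
19))) (.l 19))))) (.a (.b (.b (.a .z (.b (.a .z (.l 19)) (.l 19))) (.a (.b (.a .z (.l 19)) (.l 19)) (.l 19))) (.a (.b (.l 19) (.a (.b (.l 19) .z) (.l
19))) (.l 19))) (.l 19))) (.b (.b (.a (.b (.a (.a (.l 36) .z) (.b (.l 41) .z)) (.a .z (.b (.a .z (.l 19)) (.l 19)))) (.b (.a (.b .z (.a .z (.l 19)))
(.l 19)) (.l 19))) (.a (.b (.a (.b (.a .z (.l 19)) (.l 19)) (.l 19)) (.l 19)) (.l 19))) (.l 19)))))) (.b (.b (.l 13) (.b (.l 13) (.b (.l 13) (.a (.l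
13) (.b (.l 13) (.a (.l 13) (.b (.l 13) (.a (.l 13) (.b (.l 13) (.a (.a (.l 13) .z) .z)))))))))) (.b (.b (.b (.a (.b (.l 13) (.a (.l 13) (.b (.l 13)
(.a (.l 13) (.b (.a (.l 13) .z) .z))))) (.b (.a (.b (.l 13) (.a (.l 13) (.b (.a (.l 13) (.a (.l 13) .z)) (.a (.a (.l 13) .z) .z)))) (.b (.a (.b (.a
(.l 13) (.a (.l 13) .z)) (.a (.a (.l 13) .z) .z)) (.b .z (.l 34))) (.a (.b .z (.l 34)) (.l 34)))) (.a (.b (.a (.b (.a (.l 13) (.a (.l 13) .z)) .z) (.b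
.z (.l 34))) (.a .z (.l 34))) (.l 34)))) (.a (.b (.a (.b (.a (.l 13) (.b (.l 13) (.a (.l 13) (.a (.l 13) .z)))) (.a (.b (.l 13) (.a (.l 13) (.a (.l
13) .z))) (.b (.a (.a (.l 13) .z) .z) .z))) (.b (.a (.b (.a (.l 13) .z) .z) .z) .z)) (.a .z (.a .z (.a (.l 125) .z)))) (.a (.b (.a .z (.b (.l 34) (.a
.z (.l 34)))) (.a (.l 110) .z)) (.b (.l 34) (.a (.b (.l 34) (.a .z (.l 34))) (.l 34)))))) (.a (.b (.b .z (.a (.a (.a (.l 109) .z) .z) .z)) (.a (.b (.a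
(.b (.l 109) .z) .z) .z) .z)) (.b (.a (.b (.b (.a (.l 110) .z) .z) (.a .z (.l 189))) (.b (.a .z (.b (.l 34) (.a .z (.l 34)))) .z)) (.a .z (.a (.b .z
(.l 190)) (.a .z (.a .z (.l 93)))))))) (.b (.b (.a (.b (.a (.a (.b (.a (.l 41) .z) (.l 41)) .z) .z) (.a (.a (.l 41) (.b (.a (.l 41) .z) (.l 41))) (.b
.z (.a (.a (.l 41) .z) .z)))) (.b (.a .z (.b .z (.a .z (.b (.a .z (.l 19)) (.l 19))))) (.a (.b (.a .z (.b .z (.a .z (.l 19)))) (.a (.b .z (.a .z (.l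
19))) (.l 19))) (.b (.a (.b (.a .z (.l 19)) (.l 19)) (.l 19)) (.l 19))))) (.a (.b (.a (.b (.l 41) (.a (.l 41) .z)) (.b (.a (.b (.l 41) .z) (.b .z (.a
.z (.l 19)))) (.a (.b (.a .z (.l 19)) (.l 19)) (.l 19)))) (.a (.b (.a .z (.b (.a .z (.l 19)) (.l 19))) (.l 19)) (.l 19))) (.l 19))) (.l 19)))))

theorem vQ203 : ev Q203 I5_18 I5_28 = 845785846501251 := by decide +kernel

noncomputable def Q207 : QT :=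
(.b (.b (.a (.b (.b (.a (.b (.b .z (.b (.a .z (.l 67)) (.l 67))) (.b (.l 67) (.a (.b .z (.a (.l 63) .z)) (.b (.l 67) .z)))) (.b (.b (.b (.a .z (.l
67)) (.l 67)) (.l 67)) (.a (.l 67) (.b (.a (.l 67) .z) .z)))) (.a (.b (.b .z (.b (.a .z (.l 69)) (.a (.l 69) .z))) (.a (.b .z (.l 75)) .z)) (.b (.a .z
(.b (.a .z (.l 71)) .z)) .z))) (.a (.b (.a (.b (.b (.a (.l 75) .z) .z) (.a (.b .z (.l 73)) (.b (.l 73) .z))) (.b (.a (.b .z (.l 73)) (.b (.l 73) .z))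
(.b .z (.a .z (.l 75))))) (.b .z (.b (.b .z (.a .z (.l 87))) (.a .z (.b (.l 87) .z))))) (.b (.b .z (.b (.b .z (.a .z (.l 75))) (.b (.l 75) .z))) (.b
.z (.a (.b (.b .z (.l 87)) (.l 87)) (.b (.l 87) (.a (.l 87) .z))))))) (.b (.a (.b (.b (.a (.b (.l 67) .z) .z) (.a (.b .z (.l 71)) .z)) (.b (.a (.b (.a
(.l 71) .z) .z) (.b (.a .z (.l 67)) .z)) .z)) (.b (.b .z (.a (.b .z (.b .z (.l 67))) (.b .z (.l 67)))) (.b (.b (.b (.a (.l 67) .z) .z) .z) (.b .z (.b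
.z (.a .z (.l 79))))))) (.b (.b (.a (.b (.b .z (.l 79)) (.a (.b (.l 79) .z) (.l 79))) (.l 79)) (.a (.b (.a .z (.b (.l 79) .z)) .z) (.b (.a (.l 79) (.a
(.l 79) .z)) (.a (.b (.l 79) .z) .z)))) (.b (.a (.a (.b .z (.b .z (.l 87))) .z) .z) (.a (.a (.b .z (.a .z (.l 86))) .z) .z))))) (.b (.a (.b (.a (.b
(.b (.a (.b (.l 83) .z) .z) .z) (.a (.b (.b .z (.l 95)) (.l 95)) .z)) .z) (.a .z (.b .z (.b .z (.l 107))))) (.b (.a (.b .z (.b .z (.a .z (.l 99))))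
(.b .z (.a (.b (.b .z (.l 99)) (.l 99)) (.b (.l 99) (.a (.l 99) .z))))) (.b (.a (.b (.a .z (.b (.l 99) .z)) .z) (.b (.a (.a (.l 99) .z) .z) .z)) .z)))
(.a (.b (.a (.b .z (.a (.b (.b .z (.l 115)) .z) (.b (.a (.l 115) .z) .z))) .z) (.a .z (.b (.a .z (.b .z (.a (.l 127) .z))) .z))) (.b (.a (.b .z (.b
(.a .z (.l 119)) .z)) (.b (.b .z (.b .z (.a .z (.l 119)))) (.b (.a (.l 119) .z) .z))) .z)))) .z)

theorem vQ207 : ev Q207 I5_18 I5_31 = 94891106932474 := by decide +kernel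

noncomputable def Q11 : QT :=
(.a (.l 28) (.a (.l 28) (.b (.a (.b (.b (.a (.b (.a (.l 28) (.b (.a (.l 28) (.b (.a (.l 28) .z) (.l 28))) (.l 28))) (.l 28)) (.a (.b (.b .z (.a (.b
(.a (.l 28) .z) (.l 28)) .z)) (.b (.a (.l 28) (.b (.a (.l 28) .z) (.l 28))) (.l 28))) (.b (.b (.a .z (.b (.l 56) .z)) .z) (.a (.b .z (.a (.l 28) (.b
.z (.l 28)))) .z)))) (.a (.l 28) (.a (.l 28) (.b (.a (.l 28) (.b (.a (.l 28) (.b .z (.l 28))) (.l 28))) (.l 28))))) (.l 28)) (.b (.a (.b (.a (.b (.b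
(.l 56) (.a (.b (.l 56) .z) (.l 56))) (.b (.a .z (.b (.l 56) .z)) .z)) (.b (.l 56) (.a (.b (.l 56) (.a .z (.l 56))) (.l 56)))) (.a (.b (.a (.b .z (.a
(.l 28) (.b .z (.l 28)))) .z) (.a (.l 28) (.b (.a (.l 28) (.b .z (.l 28))) (.l 28)))) (.b (.a .z (.b (.a .z (.l 56)) .z)) (.a (.b .z (.a (.l 28) .z))
.z)))) (.b (.l 56) (.a (.b (.a (.b (.l 56) (.a .z (.l 56))) (.l 56)) (.a .z (.b (.a .z (.l 56)) .z))) (.b (.l 56) (.a (.b (.l 56) (.a .z (.l 56))) (.l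
56)))))) (.a (.b (.a (.l 28) (.b (.a (.l 28) (.b (.a (.b .z (.l 28)) .z) (.l 28))) (.l 28))) (.l 28)) (.b (.a (.b (.a (.b .z (.a (.b .z (.l 28)) .z))
.z) (.a (.b (.a (.l 28) (.b .z (.l 28))) (.l 28)) (.b .z (.a (.l 28) (.b .z (.l 28)))))) (.b (.a .z (.b (.l 56) .z)) .z)) (.a (.l 28) (.b (.a (.b (.a
(.b .z (.l 28)) .z) (.l 28)) (.b .z (.a (.b .z (.l 28)) .z))) (.a (.l 28) (.b (.a (.l 28) (.b .z (.l 28))) (.l 28))))))))) (.a (.l 28) (.b (.l 28) (.a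
(.b (.l 28) (.a (.l 28) (.b (.l 28) (.a (.b (.l 28) (.a (.l 28) (.b (.l 28) .z))) (.b (.a (.b (.l 28) .z) .z) (.a .z (.l 45))))))) (.b (.a (.b (.l 28)
(.a (.l 28) (.b (.l 28) (.a (.b (.l 28) .z) .z)))) (.b (.a (.b (.l 28) (.a (.l 28) (.b (.l 28) .z))) (.b (.a (.b (.l 28) .z) .z) (.a .z (.l 45)))) (.a
(.b .z (.a .z (.l 45))) (.l 45)))) (.a (.b (.a (.b (.a (.l 28) (.b (.l 28) .z)) .z) (.b (.a .z (.l 45)) (.l 45))) (.a (.b (.a .z (.l 45)) (.l 45)) (.b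
(.l 45) .z))) (.b (.a (.b (.l 45) (.a (.l 45) .z)) (.b (.a (.l 45) .z) .z)) (.a .z (.l 106)))))))))))

theorem vQ11 : ev Q11 I4_0 I5_8 = 1897326576425358 := by decide +kernel

noncomputable def Q36 : QT :=
(.b (.l 16) (.b (.a (.l 16) (.a (.l 16) (.b (.l 16) (.a (.l 16) (.b (.l 16) (.a (.b (.l 16) (.a (.b (.l 16) (.a (.l 16) (.b (.l 16) (.a (.l 16) .z))))
(.b (.a (.l 16) (.b (.l 16) (.a (.l 16) .z))) (.a (.b (.a (.l 16) .z) .z) .z)))) (.b (.a (.b (.l 16) (.a (.l 16) (.b (.a (.l 16) .z) .z))) (.b (.a (.b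
(.l 16) (.a (.l 16) .z)) .z) (.a .z (.l 60)))) (.a (.b .z (.l 60)) (.l 60))))))))) (.a (.b (.l 16) (.b (.l 16) (.a (.l 16) (.a (.b (.l 16) (.b (.l 16)
(.a (.b (.l 16) (.a (.l 16) (.a (.l 16) (.a (.l 16) .z)))) (.b (.a (.l 16) .z) .z)))) (.b (.a (.b (.l 16) (.a (.l 16) (.b (.l 16) (.a (.l 16) (.a (.l
16) .z))))) (.b (.a (.l 16) (.b (.l 16) (.a (.a (.l 16) .z) .z))) (.a (.b (.a (.l 16) .z) .z) (.b .z (.l 41))))) (.a (.b (.a (.b (.a (.l 16) (.a (.l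
16) .z)) .z) (.b .z (.l 41))) (.a (.b .z (.l 41)) (.l 41))) (.l 41))))))) (.a (.b (.b (.l 16) (.a (.l 16) (.b (.a (.l 16) (.b (.l 16) (.a (.l 16) (.a
(.l 16) (.b (.l 16) .z))))) (.a (.b (.l 16) (.a (.l 16) (.b (.l 16) (.a (.l 16) .z)))) (.b (.a (.b (.l 16) (.a (.l 16) .z)) .z) (.a .z (.l 41)))))))
(.b (.a (.b (.a (.l 16) (.b (.l 16) (.a (.l 16) (.b (.a (.l 16) (.a (.l 16) .z)) (.a (.a (.l 16) .z) .z))))) (.a (.b (.l 16) (.a (.b (.l 16) (.a (.l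
16) (.a (.l 16) .z))) (.b (.a (.a (.l 16) .z) .z) .z))) (.b (.a (.b (.a (.l 16) .z) .z) (.b .z (.l 41))) (.a (.b .z (.l 41)) (.l 41))))) (.b (.a (.b
(.a (.b (.l 16) (.a (.a (.l 16) .z) .z)) .z) (.a (.b .z (.l 41)) (.l 41))) (.l 41)) (.l 41))) (.a (.b (.a (.b (.a .z (.l 41)) (.l 41)) (.l 41)) (.l
41)) (.l 41)))) (.b (.a (.b (.a (.b (.l 16) (.a (.l 16) (.b (.l 16) (.a (.l 16) (.b (.a (.l 16) .z) .z))))) (.b (.a (.l 16) (.b (.l 16) (.a (.b (.l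
16) (.a (.l 16) .z)) .z))) (.a (.b (.a (.b (.l 16) (.a (.l 16) .z)) (.b (.a (.l 16) .z) .z)) (.a .z (.l 41))) (.b (.a .z (.l 41)) (.l 41))))) (.a (.b
(.a (.b (.a (.l 16) (.b (.l 16) .z)) .z) (.b .z (.l 41))) (.l 41)) (.l 41))) (.b (.a (.b (.a (.b (.a (.b (.l 16) .z) .z) .z) (.b (.l 60) .z)) (.a (.l
41) (.b (.a (.l 41) .z) (.l 41)))) (.b (.l 60) (.a (.b (.a .z (.l 60)) .z) (.l 60)))) (.a (.l 41) (.b (.a (.b (.a (.l 41) .z) (.l 41)) (.b (.a .z (.l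
60)) .z)) (.l 41))))) (.l 41))))))

theorem vQ36 : ev Q36 I4_0 I5_25 = 1925460332527394 := by decide +kernel

end Pool.Agent.Helper64.SPW.Dat
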