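import Pool.Agent.Helper64.SPW.Iv

/-! Boxes of traces, part 12 (data and kernel evaluation). -/

set_option maxRecDepth 1000000
set_option maxHeartbeats 0

namespace Pool.Agent.Helper64.SPW.Dat

noncomputable def Q9 : QT :=
(.a (.b (.b (.a (.b (.b (.b (.b (.a (.b (.l 123) (.a .z (.l 123))) (.a (.a (.l 123) .z) .z)) (.a (.b .z (.a (.l 118) .z)) .z)) (.a (.l 118) (.b (.a
(.b .z (.l 118)) .z) (.l 118)))) (.l 118)) (.a (.b (.l 118) (.a (.b (.a .z (.l 118)) .z) (.b (.l 118) (.a (.b (.l 118) .z) (.l 118))))) (.l 118))) (.b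
(.b (.b (.a (.a .z (.l 150)) (.a (.a (.l 150) .z) (.a (.a .z (.l 113)) (.a (.l 113) .z)))) (.a (.b .z (.a (.b .z (.l 118)) .z)) (.a (.a (.l 150) .z)
.z))) (.b (.a (.b (.a (.l 118) (.b .z (.l 118))) (.l 118)) (.b .z (.a (.l 118) .z))) (.l 118))) (.l 118))) (.a (.b (.a .z (.b (.a (.b (.a (.b (.l 118)
.z) (.l 118)) (.a .z (.b (.l 118) .z))) (.l 118)) (.a (.b .z (.b .z (.l 154))) (.b (.a .z (.l 118)) .z)))) (.a (.b (.b (.a .z (.b .z (.l 154))) (.a .z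
(.a .z (.l 154)))) .z) (.b (.a (.l 154) (.b (.a (.l 154) .z) (.l 154))) .z))) (.a (.b (.l 118) (.a (.b (.b (.a .z (.l 118)) .z) .z) (.b (.l 118) (.a
.z (.b (.l 118) .z))))) (.l 118)))) (.b (.a (.a .z (.b .z (.a (.b (.a .z (.b (.l 209) .z)) .z) (.b (.a (.b (.l 209) .z) .z) .z)))) (.a .z (.b (.a (.b
(.a .z (.b (.l 118) .z)) .z) (.b (.a (.b (.l 118) (.a (.l 118) .z)) (.b (.a (.l 118) .z) .z)) .z)) .z))) (.a (.b .z (.a .z (.b .z (.a (.a (.l 384) .z)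
.z)))) .z))) (.a (.b (.b (.a (.b (.b .z (.b .z (.a (.b .z (.l 118)) .z))) (.l 118)) (.b (.b (.a (.a .z (.a (.b (.l 120) .z) (.l 120))) (.l 120)) (.b
(.a .z (.l 120)) (.a .z (.l 120)))) (.a (.b (.b (.b .z (.l 118)) (.l 118)) (.l 118)) (.b (.b (.b (.a .z (.l 120)) .z) (.b (.a (.l 118) .z) (.l 118)))
(.a (.l 118) (.b (.l 118) .z)))))) (.a (.b (.l 118) (.a (.b (.l 118) (.a (.b (.l 118) (.a (.l 118) .z)) (.b (.a (.l 118) .z) .z))) (.b (.a (.b (.l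
118) (.a (.l 118) .z)) .z) .z))) (.b (.a (.b (.a (.l 118) (.b (.l 118) (.a (.l 118) .z))) (.a (.b (.a (.l 118) .z) .z) (.b .z (.l 117)))) (.b (.a (.b
(.a (.l 118) .z) .z) .z) (.b .z (.a (.b .z (.l 117)) .z)))) (.a (.b (.a (.b (.a .z (.l 117)) .z) (.b (.l 117) .z)) .z) (.b (.b (.b (.l 117) .z) .z)
.z))))) (.b (.a .z (.b (.a .z (.b .z (.b .z (.b .z (.b .z (.l 120)))))) (.a .z (.b (.a (.b (.a .z (.l 120)) .z) (.l 120)) .z)))) .z)) (.a (.b (.b (.b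
(.a (.l 120) (.b (.a (.l 120) (.b (.l 120) (.a (.l 120) .z))) (.a (.b (.l 120) .z) .z))) (.a (.b (.a (.b (.l 120) .z) (.b (.a (.l 120) .z) .z)) (.a .z
(.b (.l 196) .z))) (.b .z (.b .z (.b (.l 196) .z))))) .z) (.b (.b .z (.a (.b (.l 120) (.a (.b (.b (.l 120) .z) .z) (.b (.b (.l 120) .z) .z))) (.b (.b
(.l 120) (.b (.l 120) (.a (.l 120) .z))) .z))) .z)) (.a (.b (.b (.b (.b (.a (.b (.a (.l 120) .z) .z) .z) .z) (.b (.a (.b .z (.l 194)) (.b (.l 194)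
.z)) .z)) .z) (.b (.b .z (.b (.b (.b (.b .z (.l 120)) (.l 120)) (.b (.a (.l 120) .z) .z)) .z)) .z)) (.b (.b (.b (.b (.a .z (.a .z (.l 167))) .z) .z)
.z) .z)))))

theorem vQ9 : ev Q9 I4_1 I5_6 = 543592340089444 := by decide +kernel

noncomputable def Q146 : QT :=
(.b (.a (.b (.a (.b (.a (.l 5) (.b (.l 5) (.a (.l 5) (.b (.l 5) (.a (.l 5) (.b (.l 5) (.a (.b (.l 5) (.a (.l 5) .z)) (.b (.a (.b (.l 5) .z) .z)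
.z)))))))) (.a (.b (.a (.l 5) (.b (.l 5) (.a (.l 5) (.b (.l 5) (.a (.l 5) (.b (.l 5) (.a (.l 5) (.b (.l 5) .z)))))))) (.a (.b (.l 5) (.a (.b (.l 5)
(.a (.l 5) (.b (.l 5) (.a (.l 5) .z)))) (.b (.a (.l 5) (.b (.a (.l 5) (.b (.l 5) .z)) (.a (.b (.l 5) .z) .z))) (.a (.b (.a (.b (.l 5) .z) .z) .z)
.z)))) (.b (.a (.b (.l 5) (.a (.b (.l 5) (.a (.l 5) (.b (.l 5) .z))) (.b (.a (.l 5) .z) .z))) (.b (.a (.b (.l 5) (.a (.b (.l 5) .z) .z)) (.b (.a (.b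
(.l 5) .z) .z) .z)) .z)) (.a (.b .z (.l 83)) (.l 83))))) (.b (.a (.b (.a (.l 5) (.b (.l 5) (.a (.l 5) (.b (.l 5) (.a (.b (.l 5) .z) .z))))) (.a (.b
(.a (.l 5) (.b (.l 5) (.a (.l 5) (.b (.l 5) .z)))) (.a (.b (.a (.l 5) (.b (.l 5) .z)) .z) .z)) (.b (.a (.b (.a (.b (.l 5) .z) .z) .z) .z) (.l 83))))
(.b (.a (.b (.a (.b (.l 5) (.a (.l 5) (.b (.l 5) .z))) (.b (.a (.l 5) (.b (.l 5) .z)) .z)) .z) (.b .z (.l 83))) (.l 83))) (.l 83)))) (.b (.a (.b (.a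
(.l 5) (.b (.l 5) (.a (.b (.l 5) (.a (.l 5) (.b (.a (.l 5) (.b (.l 5) .z)) (.a (.b (.l 5) .z) .z)))) (.b (.a (.b (.l 5) (.a (.l 5) (.b (.l 5) .z)))
(.b (.a (.l 5) (.b (.l 5) .z)) .z)) .z)))) (.a (.b (.a (.b (.l 5) (.a (.l 5) (.b (.l 5) (.a (.l 5) (.b (.l 5) .z))))) (.b (.a (.l 5) (.b (.l 5) (.a
(.b (.l 5) .z) .z))) (.a (.b (.a (.l 5) (.b (.l 5) .z)) .z) .z))) (.a (.b (.a (.b (.a (.l 5) (.b (.l 5) .z)) (.a (.b (.l 5) .z) .z)) .z) .z) (.l 83)))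
(.b (.a (.b (.a (.b (.a (.b (.l 5) .z) .z) .z) .z) (.l 83)) (.l 83)) (.l 83)))) (.b (.a (.b (.a (.b (.l 5) (.a (.b (.l 5) (.a (.b (.l 5) .z) .z)) (.b
(.a (.b (.l 5) .z) .z) .z))) (.b (.a (.b (.a (.l 5) (.b (.l 5) .z)) (.a (.b (.l 5) .z) .z)) .z) .z)) (.a (.b .z (.l 83)) (.l 83))) (.l 83)) (.l 83)))
(.l 83))) (.a (.b (.a (.b (.a (.b (.a (.b (.a (.b (.a (.l 5) (.b (.l 5) .z)) .z) .z) (.l 83)) (.l 83)) (.l 83)) (.l 83)) (.l 83)) (.l 83)) (.l 83))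
(.a (.l 83) (.b (.a (.l 83) (.b (.l 83) (.a (.l 83) (.b (.a (.l 83) .z) .z)))) (.a (.b (.a (.l 83) (.b (.l 83) (.a (.l 83) .z))) (.a (.b (.l 83) (.a
(.l 83) .z)) .z)) (.b (.a (.b (.a (.l 83) .z) .z) (.b .z (.l 139))) (.l 139))))))) (.a (.b (.a (.b (.l 83) (.a (.b (.l 83) (.a (.l 83) (.b (.l 83) (.a
(.l 83) .z)))) (.b (.a (.l 83) (.b (.a (.l 83) .z) .z)) (.a .z (.b .z (.l 139)))))) (.b (.a (.b (.a (.l 83) (.b (.l 83) (.a (.l 83) .z))) (.a (.b (.l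
83) (.a (.l 83) .z)) .z)) (.b (.a (.b (.a (.l 83) .z) .z) (.b .z (.l 139))) (.l 139))) (.a (.b (.a (.b .z (.l 139)) (.l 139)) (.l 139)) (.l 139))))
(.a (.b (.a (.b (.a (.b (.l 83) .z) .z) (.a (.b .z (.l 139)) (.l 139))) (.l 139)) (.l 139)) (.l 139))) (.l 139))) (.b (.b (.a (.a (.l 83) (.a (.a (.l
83) (.b (.a (.l 83) (.b (.l 83) .z)) (.a (.b (.a (.l 83) .z) .z) .z))) (.a (.b (.a .z (.l 139)) (.b (.l 139) (.a .z (.l 139)))) (.l 139)))) (.l 139))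
(.b (.a (.a (.a (.a (.b (.b (.a .z (.l 83)) .z) (.a (.l 44) (.b .z (.l 44)))) (.b (.l 83) (.a .z (.b (.l 83) .z)))) (.l 83)) (.a (.a (.a (.l 83) (.b
(.a (.l 83) .z) .z)) (.a (.b (.a .z (.l 130)) (.l 130)) (.l 130))) (.a (.b .z (.a (.l 130) (.b .z (.l 130)))) (.b (.l 139) (.a .z (.l 139)))))) (.l
139)) (.a (.a (.a (.a (.l 44) (.b (.a (.l 44) (.b .z (.l 44))) (.l 44))) (.a (.b (.a .z (.l 83)) (.a (.b (.a (.l 44) .z) (.l 44)) (.b .z (.a (.l 44)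
.z)))) (.b (.l 83) (.a (.b (.l 83) .z) (.l 83))))) (.a (.a (.a (.b (.a (.l 83) .z) .z) (.b (.a .z (.l 130)) (.l 130))) (.l 130)) (.a (.l 130) (.b (.a
(.b .z (.l 130)) .z) (.a (.l 130) (.b .z (.l 130))))))) (.b (.a (.l 139) (.b (.l 139) (.a (.l 139) (.b (.l 139) .z)))) (.a (.b (.a (.a .z (.l 139))
(.l 139)) (.a (.b .z (.a .z (.b .z (.a .z (.l 29))))) (.b (.a .z (.b .z (.a .z (.l 29)))) (.a (.b (.a .z (.l 29)) (.l 29)) (.l 29))))) (.b (.a (.b .z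
(.a .z (.b .z (.l 29)))) (.b (.a .z (.b .z (.l 29))) (.l 29))) (.a (.b (.a (.b (.a .z (.l 29)) (.l 29)) (.l 29)) (.l 29)) (.l 29)))))))) (.b (.b (.a
(.b (.b (.a (.a (.l 44) (.a (.l 44) (.a (.a (.l 44) .z) .z))) (.a (.b (.a .z (.l 130)) (.a .z (.b .z (.a .z (.l 29))))) (.b (.a .z (.b .z (.a .z (.l
29)))) (.a (.b (.a .z (.l 29)) (.l 29)) (.l 29))))) (.a (.b (.a (.l 44) (.b (.a (.l 44) .z) (.a .z (.a .z (.l 29))))) (.a (.b (.a (.l 44) .z) (.a .z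
(.a .z (.l 29)))) (.b (.a (.a .z (.l 29)) (.l 29)) (.l 29)))) (.a (.b (.b (.a (.a .z (.l 29)) (.l 29)) (.l 29)) (.l 29)) (.l 29)))) (.b (.a (.b (.a
(.b (.a (.a .z (.l 29)) (.l 29)) (.l 29)) (.l 29)) (.l 29)) (.l 29)) (.l 29))) (.b (.a (.b (.a (.b (.a (.b (.a .z (.l 29)) (.l 29)) (.l 29)) (.l 29))
(.l 29)) (.l 29)) (.l 29)) (.l 29))) (.l 29)) (.l 29))))

theorem vQ146 : ev Q146 I5_15 I4_11 = 1823714675272637 := by decide +kernel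

noncomputable def Q10 : QT :=
(.a (.a (.b (.b (.b (.a .z (.a (.b (.b (.l 384) .z) .z) .z)) .z) (.b (.b (.b .z (.b .z (.a .z (.b .z (.a .z (.l 101)))))) (.b (.b (.a (.b .z (.a .z
(.l 101))) (.l 101)) (.l 101)) (.b (.l 101) (.b .z (.a (.l 190) .z))))) (.b (.a (.b (.b (.l 190) (.b (.l 190) .z)) (.b .z (.l 212))) .z) (.b (.a (.b
(.a .z (.l 212)) .z) .z) .z)))) (.b (.b .z (.a .z (.b (.a (.b .z (.a (.l 210) .z)) .z) .z))) (.a (.b (.a (.b (.a (.b (.a (.l 115) .z) .z) .z) .z) (.b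
.z (.a .z (.b .z (.a .z (.l 88)))))) (.a .z (.b (.a .z (.b (.a .z (.l 88)) .z)) .z))) (.b (.a (.b (.b .z (.a (.l 163) .z)) (.a (.b .z (.a (.l 88) .z))
(.b (.l 163) .z))) (.b .z (.b .z (.a (.l 163) .z)))) (.a (.b (.a (.b (.l 88) (.a (.l 88) .z)) (.b (.a (.l 88) .z) .z)) .z) (.b (.a .z (.b (.l 163)
.z)) .z)))))) (.b (.b .z (.b (.b (.b (.a .z (.b .z (.a .z (.b .z (.l 101))))) (.a (.b .z (.b (.a .z (.l 101)) (.l 101))) (.b (.a (.b .z (.l 101)) (.l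
101)) (.l 101)))) (.b (.l 101) (.b (.l 101) .z))) (.b (.a .z (.a (.a (.a .z (.l 263)) .z) .z)) .z))) (.b .z (.a (.b (.b (.a (.b (.a (.l 138) .z) (.a
.z (.l 138))) .z) (.a .z (.b (.l 138) .z))) (.a (.b (.a (.b .z (.l 163)) .z) (.a .z (.b (.l 163) .z))) .z)) (.b (.b .z (.a (.b .z (.a (.l 138) .z))
(.b (.a .z (.l 138)) .z))) (.a (.b (.a .z (.l 138)) .z) (.b (.b .z (.a (.l 138) .z)) (.a (.b (.l 138) .z) (.l 138))))))))) (.b (.a (.b (.b (.a (.b .z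
(.a (.b .z (.a .z (.l 153))) .z)) .z) (.b .z (.b .z (.a .z (.b .z (.a .z (.l 101))))))) (.b (.b (.b (.a (.b (.a .z (.b .z (.l 101))) (.l 101)) (.l
101)) (.l 101)) (.b (.l 101) (.b (.l 101) .z))) .z)) (.a (.b (.b .z (.b (.b .z (.a .z (.l 119))) (.b (.b .z (.a .z (.b .z (.l 101)))) (.b (.a (.b .z
(.l 101)) (.l 101)) (.l 101))))) (.b (.b (.l 101) (.b (.l 101) (.b (.l 101) .z))) .z)) (.a (.a (.b (.b .z (.b (.b (.b .z (.l 119)) (.b (.l 119) .z))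
(.b (.b .z (.l 101)) (.l 101)))) (.b (.b (.l 101) (.b (.l 101) (.b (.l 101) .z))) .z)) (.b (.b .z (.b (.b (.b .z (.l 119)) (.b (.l 119) .z)) (.l
101))) (.a (.b (.b (.l 101) (.b (.l 101) .z)) .z) (.b (.a (.b (.l 101) .z) (.b (.l 101) .z)) .z)))) (.a (.b .z (.a .z (.b (.b .z (.l 140)) .z))) (.b
.z (.b (.a (.l 140) (.a (.l 140) .z)) (.b (.a (.l 140) .z) .z))))))) (.a (.b (.b (.b (.a (.a (.a (.b .z (.l 144)) (.l 144)) (.a (.a (.l 144) .z) .z))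
.z) .z) (.b (.a (.a .z (.b (.a .z (.l 200)) (.a .z (.l 200)))) .z) (.a (.a (.b (.l 256) .z) (.a (.b .z (.l 256)) .z)) .z))) (.a (.b .z (.a (.b .z (.a
(.b .z (.l 138)) .z)) .z)) .z)) (.b .z (.a (.a .z (.b .z (.a (.b .z (.a .z (.b .z (.l 86)))) (.b (.a .z (.l 86)) (.l 86))))) (.a (.a (.a (.b (.b .z
(.b .z (.l 86))) (.l 86)) (.a (.b (.b .z (.l 86)) (.a (.l 86) .z)) (.b .z (.a .z (.b .z (.l 44)))))) (.a (.a (.b (.a .z (.b .z (.l 44))) (.l 44)) (.b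
(.b (.b .z (.l 44)) (.l 44)) (.l 44))) (.b (.b (.b .z (.l 44)) (.l 44)) (.l 44)))) (.b (.b (.b .z (.a (.b .z (.a (.l 44) .z)) .z)) (.b (.a (.l 44) (.b
.z (.a .z (.l 51)))) (.a (.l 44) (.a (.a (.l 44) .z) (.l 51))))) (.a (.l 44) (.b (.a (.a (.l 44) (.a (.l 44) .z)) (.a (.a .z (.l 51)) (.l 51))) (.a
(.l 44) (.b (.a .z (.l 51)) .z)))))))))))

theorem vQ10 : ev Q10 I4_1 I5_7 = 305651746826279 := by decide +kernel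

noncomputable def Q217 : QT :=
(.a (.b (.l 14) (.a (.b (.l 14) (.b (.b (.l 14) (.a (.l 14) (.b (.l 14) (.a (.l 14) (.b (.l 14) (.a (.l 14) (.b (.l 14) (.a (.l 14) .z)))))))) (.b (.a
(.b (.l 14) (.a (.l 14) (.b (.l 14) (.a (.l 14) (.b (.a (.l 14) (.a (.l 14) .z)) (.a .z (.a .z (.a .z (.l 8))))))))) (.b (.a (.b (.l 14) (.a (.l 14)
(.b (.l 14) (.a (.l 14) .z)))) (.b (.a (.b (.l 14) (.a (.l 14) .z)) (.b (.a .z (.a .z (.l 8))) (.a (.a .z (.l 8)) (.l 8)))) (.a (.b (.a .z (.a (.a .z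
(.l 8)) (.l 8))) (.a (.a (.a .z (.l 8)) (.l 8)) (.l 8))) (.l 8)))) (.a (.b (.a (.b (.a (.l 14) (.a (.l 14) .z)) (.a (.a (.l 14) .z) .z)) (.b (.a .z
(.a (.a .z (.l 8)) (.l 8))) (.l 8))) (.a (.b (.a .z (.l 8)) (.l 8)) (.l 8))) (.l 8)))) (.a (.b (.a (.b (.l 14) (.a (.b (.l 14) (.a (.l 14) (.a (.l 14)
.z))) (.b (.a (.a (.l 14) .z) .z) (.a .z (.l 8))))) (.b (.a (.b (.a (.l 14) .z) (.a .z (.a .z (.l 8)))) (.b (.a (.a .z (.l 8)) (.l 8)) (.l 8))) (.a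
(.b (.a (.a (.a .z (.l 8)) (.l 8)) (.l 8)) (.l 8)) (.l 8)))) (.a (.b (.a (.b (.a .z (.a .z (.a .z (.l 8)))) (.a (.a .z (.l 8)) (.l 8))) (.l 8)) (.l
8)) (.l 8))) (.l 8))))) (.b (.b (.l 14) (.a (.l 14) (.b (.l 14) (.a (.l 14) (.b (.l 14) (.a (.l 14) (.b (.l 14) (.a (.b (.l 14) (.a (.l 14) .z)) (.b
(.a (.l 14) .z) .z))))))))) (.a (.b (.b (.a (.l 14) (.b (.l 14) (.a (.l 14) (.b (.l 14) (.a (.l 14) (.b (.l 14) .z)))))) (.b (.a (.b (.l 14) (.a (.l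
14) (.b (.l 14) (.a (.l 14) (.a (.l 14) .z))))) (.a (.b (.a (.l 14) (.b (.l 14) (.a (.l 14) .z))) (.a (.b (.a (.l 14) .z) (.a .z (.a .z (.l 8)))) (.b
(.a .z (.a .z (.l 8))) (.l 8)))) (.b (.a (.b (.a (.l 14) .z) (.a .z (.a .z (.l 8)))) (.b (.a .z (.l 8)) (.l 8))) (.l 8)))) (.a (.b (.a (.b (.l 14) (.a
(.l 14) .z)) (.b (.a (.a (.l 14) .z) (.a .z (.a .z (.l 8)))) (.a (.a .z (.a .z (.l 8))) (.l 8)))) (.a (.b (.a .z (.a .z (.l 8))) (.a (.a .z (.l 8))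
(.l 8))) (.l 8))) (.l 8)))) (.l 8)) (.b (.b (.a (.b (.a (.l 14) (.b (.l 14) (.a (.l 14) (.b (.l 14) .z)))) (.a (.b (.a (.l 14) (.b (.l 14) .z)) (.a
(.b .z (.a .z (.l 8))) (.b (.a .z (.l 8)) (.l 8)))) (.b (.a (.b .z (.a .z (.l 8))) (.b (.a .z (.l 8)) (.l 8))) (.l 8)))) (.b (.a (.b (.a (.l 14) (.b
(.l 14) .z)) (.a (.b .z (.a (.a .z (.l 8)) (.l 8))) (.b (.a (.a .z (.l 8)) (.l 8)) (.l 8)))) (.b (.a (.b .z (.a (.a .z (.l 8)) (.l 8))) (.l 8)) (.l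
8))) (.l 8))) (.l 8)) (.a (.l 8) (.b (.l 8) (.a (.l 8) (.b (.a (.l 8) (.b (.l 8) (.a (.l 8) (.b (.l 8) (.a (.l 8) .z))))) (.a (.b (.l 8) (.a (.l 8)
(.b (.l 8) (.a (.l 8) .z)))) (.b (.a (.b (.l 8) (.a (.l 8) .z)) .z) .z))))))))))) (.b (.a (.b (.a (.l 14) (.a (.a (.l 14) (.a (.a (.l 14) (.a .z (.l
53))) (.l 53))) (.l 53))) (.a (.l 14) (.b (.a (.a (.l 14) (.a (.a (.l 14) (.a .z (.l 53))) (.l 53))) (.l 53)) (.a (.a (.l 14) (.a (.a (.l 14) (.a .z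
(.l 53))) (.l 53))) (.b (.a (.l 53) (.a (.l 53) (.b (.l 53) (.a (.l 53) .z)))) (.a (.l 53) (.b (.a (.a (.l 53) .z) .z) .z))))))) (.b (.a (.b (.a (.l
53) (.a (.l 53) (.b (.l 53) (.a (.l 53) (.b (.l 53) (.a (.l 53) .z)))))) (.a (.l 53) (.b (.a (.l 53) (.a (.b (.a (.l 53) .z) .z) .z)) (.a (.a (.b (.l
53) .z) .z) .z)))) (.b (.a (.b (.a (.a (.l 53) (.b (.l 53) .z)) .z) (.a (.a (.b (.a (.l 53) .z) .z) .z) .z)) (.b (.a .z (.b .z (.a (.b (.a .z (.l 31))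
(.l 31)) (.b (.b .z (.l 31)) (.l 31))))) (.a (.b (.a .z (.b (.a .z (.l 31)) (.l 31))) (.a (.b (.a .z (.l 31)) (.l 31)) (.l 31))) (.l 31)))) (.a (.b
(.a (.b (.l 157) .z) (.b (.a .z (.b (.a .z (.l 31)) (.l 31))) (.a (.b (.a .z (.l 31)) (.l 31)) (.l 31)))) (.a (.b (.a .z (.b (.a .z (.l 31)) (.l 31)))
(.a (.b (.a .z (.l 31)) (.l 31)) (.l 31))) (.l 31))) (.l 31)))) (.a (.b (.a (.b (.a (.l 53) (.a (.b (.l 53) (.a (.l 53) .z)) (.b (.a (.l 53) .z) .z)))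
(.a (.a (.l 53) (.b (.l 53) .z)) .z)) (.b (.a .z (.b (.a .z (.b (.a .z (.l 31)) (.l 31))) (.a (.b (.a .z (.l 31)) (.l 31)) (.l 31)))) (.a (.b (.a .z
(.b (.a .z (.l 31)) (.l 31))) (.a (.b (.a .z (.l 31)) (.l 31)) (.l 31))) (.l 31)))) (.a (.b (.a .z (.b (.a .z (.b (.a .z (.l 31)) (.l 31))) (.a (.b
(.a .z (.l 31)) (.l 31)) (.l 31)))) (.a (.b (.a .z (.b (.a .z (.l 31)) (.l 31))) (.a (.b (.a .z (.l 31)) (.l 31)) (.l 31))) (.l 31))) (.b (.l 31) (.b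
(.l 31) (.a (.l 31) (.b (.l 31) (.a (.l 31) .z))))))) (.b (.l 31) (.b (.a (.l 31) (.b (.a (.l 31) (.b (.a (.l 31) (.b (.l 31) .z)) (.a (.b (.l 31) .z)
.z))) (.a (.b (.a (.l 31) .z) .z) .z))) (.a (.b (.a (.b (.l 31) (.a (.l 31) (.b (.l 31) .z))) (.b (.a (.b (.l 31) .z) .z) .z)) (.a (.b (.a (.b (.l 31)
.z) .z) .z) .z)) .z)))))) (.a (.b (.a (.b (.l 14) (.a (.b (.l 14) (.b (.a (.l 14) (.b (.l 14) (.a (.b (.l 14) .z) (.b .z (.a (.a .z (.l 8)) (.l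
8)))))) (.a (.b (.a (.b (.l 14) (.a (.l 14) .z)) (.b (.a (.l 14) .z) (.a .z (.a .z (.l 8))))) (.a (.b (.a .z (.a .z (.l 8))) (.l 8)) (.l 8))) (.b (.a
(.b (.a .z (.l 8)) (.l 8)) (.l 8)) (.l 8))))) (.b (.b (.l 14) (.a (.b (.l 14) (.a (.l 14) (.b (.l 14) (.a (.l 14) .z)))) (.b (.a (.l 14) (.b (.l 14)
.z)) (.a (.b (.a (.l 14) .z) (.a .z (.a .z (.l 8)))) (.b (.a .z (.l 8)) (.l 8)))))) (.a (.b (.b (.a (.b (.a (.l 14) .z) .z) (.b (.a .z (.a .z (.l 8)))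
(.l 8))) (.a (.b (.a (.a .z (.l 8)) (.l 8)) (.l 8)) (.l 8))) (.l 8)) (.b (.l 8) (.a (.l 8) (.b (.a (.l 8) (.b (.a (.l 8) .z) .z)) (.a (.b (.a (.l 8)
.z) .z) .z)))))))) (.b (.a (.b (.a (.l 14) (.a (.a (.l 14) (.a .z (.l 53))) (.l 53))) (.a (.l 14) (.b (.a (.a (.l 14) .z) (.a (.l 53) .z)) (.a (.a (.l
14) .z) .z)))) (.b (.a (.b (.a (.l 53) .z) (.a (.a (.l 53) .z) .z)) (.b (.a .z (.b (.a .z (.l 31)) (.l 31))) (.a (.b (.a .z (.l 31)) (.l 31)) (.l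
31)))) (.a (.b (.a .z (.b (.a .z (.l 31)) (.l 31))) (.a (.b (.a .z (.l 31)) .z) (.b (.b (.l 31) .z) .z))) (.b (.b (.l 31) (.a (.b (.l 31) .z) .z))
.z)))) (.a (.b (.a (.b (.b (.l 14) (.a (.b (.l 14) (.a (.l 14) .z)) (.b (.a (.l 14) .z) (.a .z (.a .z (.l 8)))))) (.a (.b (.b .z (.a (.a .z (.l 8))
(.l 8))) (.l 8)) (.b (.a (.l 8) (.b (.a (.l 8) .z) .z)) (.a (.b (.a (.l 8) .z) .z) .z)))) (.b (.a (.b (.a (.b (.l 14) .z) .z) .z) .z) (.a .z (.l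
23)))) (.a (.b (.a (.b (.a (.l 8) (.b (.a (.l 8) .z) .z)) (.a (.b (.a (.l 8) .z) .z) .z)) .z) (.a .z (.l 53))) (.a (.a (.l 53) (.a .z (.l 23))) (.l
23)))) (.b (.b (.a (.b .z (.a (.b (.l 25) .z) (.l 25))) (.b .z (.l 25))) (.a (.b (.a (.b .z (.l 23)) .z) (.a (.l 23) (.b .z (.l 23)))) (.b (.l 25) (.a
.z (.b (.l 25) .z))))) (.b (.a (.l 23) (.b (.a (.l 23) .z) (.l 23))) (.l 23)))))) (.a (.b (.a (.b (.l 8) (.a (.l 8) (.b (.a (.l 8) (.b (.l 8) (.a (.l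
8) (.b (.l 8) (.a (.l 8) .z))))) (.a (.b (.l 8) (.a (.l 8) (.b (.l 8) (.a (.l 8) .z)))) (.b (.a (.b (.l 8) (.a (.l 8) .z)) .z) .z))))) (.b (.a (.b (.l
8) (.a (.b (.l 8) (.a (.l 8) (.b (.l 8) (.a (.l 8) .z)))) (.b (.a (.b (.l 8) (.a (.l 8) .z)) (.b (.a (.l 8) .z) .z)) .z))) (.b (.a (.b (.a (.l 8) (.b
(.a (.l 8) .z) .z)) (.a (.b (.a (.l 8) .z) .z) .z)) .z) (.a .z (.a .z (.l 53))))) (.a (.b (.a (.b (.a (.b (.l 8) (.a (.l 8) .z)) .z) .z) .z) .z) (.a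
(.b (.a .z (.l 53)) (.l 53)) (.l 53))))) (.a (.b (.a (.b (.a (.l 8) (.b (.l 8) (.a (.l 8) (.b (.l 8) (.a (.l 8) .z))))) (.a (.b (.l 8) (.a (.l 8) (.b
(.l 8) (.a (.l 8) .z)))) (.b (.a (.b (.l 8) (.a (.l 8) .z)) .z) .z))) (.b (.a (.b (.a (.b (.l 8) (.a (.l 8) .z)) .z) .z) .z) .z)) (.a (.b (.a (.b (.a
(.b (.l 8) (.a (.l 8) .z)) .z) .z) .z) (.l 183)) (.a .z (.b .z (.l 53))))) (.a (.b (.a (.b .z (.a .z (.l 53))) (.l 53)) (.l 53)) (.l 53)))) (.a (.a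
(.l 53) (.a (.a (.l 53) (.a .z (.l 23))) (.l 23))) (.l 23)))) (.b (.b (.a (.b (.a (.b (.l 31) (.a (.b (.l 31) (.a (.l 31) (.b (.l 31) .z))) (.b (.a
(.l 31) .z) .z))) (.b (.a (.b (.a (.l 31) (.b (.l 31) .z)) (.a (.b (.l 31) .z) .z)) .z) .z)) (.a (.b (.a (.b (.a (.b (.l 31) .z) .z) .z) .z) .z) (.b
.z (.l 361)))) (.b (.b (.a (.l 359) .z) .z) (.a (.l 361) (.a (.l 361) .z)))) (.a (.b (.b (.b .z (.l 25)) (.l 25)) (.a (.b (.a (.b (.a (.b (.l 25) .z)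
(.l 25)) (.a (.b .z (.l 23)) .z)) (.l 25)) (.a (.b (.a (.l 23) (.b .z (.l 23))) (.l 23)) (.b (.a .z (.b (.l 25) .z)) (.a (.l 23) .z)))) (.b (.l 25)
(.a (.b (.l 25) (.a (.b (.l 25) .z) (.l 25))) (.l 25))))) (.b (.b (.b .z (.l 25)) (.l 25)) (.l 25)))) (.a (.b (.b (.a (.l 23) (.b (.a (.b (.a .z (.b
(.l 25) .z)) (.a (.l 23) .z)) (.b (.l 25) (.a (.b (.l 25) .z) (.l 25)))) (.a (.l 23) (.b (.a (.b .z (.l 23)) .z) (.a (.l 23) (.b .z (.l 23))))))) (.l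
23)) (.l 23)) (.b (.a (.b (.b (.l 25) (.a (.b (.l 25) (.a .z (.l 25))) (.l 25))) (.a (.b (.b (.a (.b .z (.l 23)) .z) (.a (.l 23) (.a (.l 23) .z))) (.l
23)) (.b (.a (.b (.l 25) .z) (.l 25)) (.a (.b (.a (.l 23) .z) (.l 23)) (.b .z (.a (.l 23) .z)))))) (.b (.l 25) (.a (.b (.l 25) (.a (.b (.l 25) (.a .z
(.l 25))) (.l 25))) (.l 25)))) (.a (.l 23) (.b (.a (.b (.a (.b .z (.l 23)) (.b (.a .z (.l 25)) .z)) (.l 23)) (.b (.a (.b (.l 25) (.a .z (.l 25))) (.l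
25)) (.a (.b .z (.l 23)) (.b (.a .z (.l 25)) .z)))) (.a (.l 23) (.b (.a (.l 23) (.b (.a (.l 23) .z) (.l 23))) (.l 23)))))))))))

theorem vQ217 : ev Q217 I4_10 I5_24 = 1760296748023569 := by decide +kernel

noncomputable def Q115 : QT :=
(.b (.b (.b (.b (.a (.b (.a (.b (.a (.b (.a (.b (.a (.b (.a .z (.a .z (.l 5))) (.a (.l 7) (.a (.a (.l 7) .z) .z))) (.b (.l 5) (.a .z (.l 5)))) (.a (.l
7) (.b (.a (.a (.l 7) (.a (.l 7) .z)) .z) (.l 7)))) (.b (.l 5) (.a (.b (.a (.a .z (.l 5)) (.l 5)) (.a (.a (.a (.l 7) .z) .z) (.a .z (.a .z (.l 5)))))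
(.l 5)))) (.a (.l 7) (.b (.a (.b (.a (.l 7) (.a (.l 7) .z)) (.l 7)) (.b (.a .z (.a (.a .z (.l 5)) (.l 5))) (.a (.l 7) .z))) (.l 7)))) (.b (.l 5) (.a
(.b (.a (.b (.l 5) (.a (.a .z (.l 5)) (.l 5))) (.l 5)) (.a (.b (.a (.a (.a (.l 7) .z) .z) .z) (.a (.l 7) (.a (.l 7) (.a (.l 7) .z)))) (.b (.l 5) (.a
.z (.a (.a .z (.l 5)) (.l 5)))))) (.l 5)))) (.a (.l 7) (.b (.a (.b (.a (.l 7) (.b (.a (.l 7) .z) (.l 7))) (.l 7)) (.b (.a (.b (.a (.a .z (.a .z (.l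
5))) (.l 5)) (.a (.a (.l 7) .z) .z)) (.l 5)) (.a (.b (.a (.l 7) (.a (.l 7) (.a (.l 7) .z))) (.l 7)) (.b (.a .z (.a (.a .z (.l 5)) (.l 5))) (.a (.l 7)
.z))))) (.l 7)))) (.b (.l 5) (.a (.b (.a (.b (.l 5) (.a (.b (.l 5) (.a (.a .z (.l 5)) (.l 5))) (.l 5))) (.l 5)) (.a (.b (.a (.b (.a (.a (.a (.l 7) .z)
.z) .z) (.a (.l 7) (.a (.l 7) (.a (.l 7) .z)))) (.b (.l 5) (.a .z (.a (.a .z (.l 5)) (.l 5))))) (.a (.l 7) (.b (.a (.l 7) .z) (.l 7)))) (.b (.l 5) (.a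
(.b (.a (.a .z (.l 5)) (.l 5)) (.a (.a (.a (.l 7) .z) .z) (.a .z (.a .z (.l 5))))) (.l 5))))) (.l 5)))) (.a (.l 7) (.b (.a (.b (.a (.l 7) (.b (.a (.b
(.a (.l 7) (.a (.l 7) .z)) (.l 7)) (.b (.a .z (.l 5)) (.a (.a (.l 7) (.a (.l 7) .z)) .z))) (.l 7))) (.l 7)) (.b (.a (.b (.a (.b (.l 5) (.a (.a (.a .z
(.l 5)) (.l 5)) (.l 5))) (.l 5)) (.a (.b (.a .z (.a (.a .z (.l 5)) (.l 5))) (.a (.l 7) .z)) (.b (.l 5) (.a (.a .z (.l 5)) (.l 5))))) (.l 5)) (.a (.b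
(.a (.l 7) (.b (.a (.a (.a (.l 7) .z) .z) (.a .z (.a .z (.l 5)))) (.a (.l 7) (.a (.l 7) .z)))) (.l 7)) (.b (.a (.b (.l 5) (.a .z (.l 5))) (.l 5)) (.a
(.b (.a (.a (.l 7) (.a (.l 7) .z)) .z) (.l 7)) (.b (.a (.a (.a .z (.l 5)) (.l 5)) (.l 5)) (.a .z (.a (.a .z (.l 5)) (.l 5))))))))) (.a (.l 7) (.b (.a
(.l 7) (.b (.a (.l 7) (.b (.a (.l 7) .z) (.l 7))) (.l 7))) (.l 7)))))) (.b (.l 5) (.a (.b (.l 5) (.a (.b (.a (.b (.a (.b (.a (.a .z (.l 5)) (.l 5))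
(.a (.a (.a (.l 7) .z) .z) (.a .z (.l 5)))) (.l 5)) (.a (.b (.a (.l 7) (.a (.a (.l 7) .z) .z)) (.l 7)) (.b (.a (.a .z (.a .z (.l 5))) (.l 5)) (.a (.a
(.l 7) .z) (.a .z (.a .z (.l 5))))))) (.l 5)) (.a (.b (.a (.l 7) (.b (.a (.l 7) (.a (.l 7) .z)) (.l 7))) (.l 7)) (.b (.a (.b (.a .z (.l 5)) (.a (.a
(.l 7) (.a (.l 7) .z)) .z)) (.l 5)) (.a (.b (.a (.l 7) (.a (.l 7) (.a (.l 7) .z))) (.l 7)) (.b (.a .z (.a (.a .z (.l 5)) (.l 5))) (.a (.l 7) .z))))))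
(.b (.l 5) (.a (.b (.l 5) (.a (.b (.l 5) (.a (.a (.a .z (.l 5)) (.l 5)) (.l 5))) (.l 5))) (.l 5))))) (.l 5)))) (.a (.l 7) (.a (.b (.b (.a (.l 7) (.b
(.a (.b (.a (.b (.a .z (.a (.a .z (.l 5)) (.l 5))) (.a (.l 7) .z)) (.b (.l 5) (.a (.a .z (.l 5)) (.l 5)))) (.a (.l 7) (.b (.a (.a (.a (.l 7) .z) .z)
(.a .z (.l 5))) (.a (.l 7) (.a (.a (.l 7) .z) .z))))) (.b (.l 5) (.a (.b (.l 5) (.a (.a .z (.l 5)) (.l 5))) (.l 5)))) (.a (.l 7) (.b (.a (.b (.a (.a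
(.a (.l 7) .z) .z) (.a .z (.l 5))) (.a (.l 7) (.a (.a (.l 7) .z) .z))) (.b (.l 5) (.a (.a .z (.a .z (.l 5))) (.l 5)))) (.a (.l 7) (.b (.a (.a (.l 7)
.z) (.a .z (.a .z (.l 5)))) (.a (.l 7) (.a (.l 7) .z)))))))) (.l 7)) (.l 7)) (.b (.a (.b (.b (.l 5) (.a (.b (.l 5) (.a (.b (.l 5) (.a (.a .z (.a .z
(.l 5))) (.l 5))) (.l 5))) (.l 5))) (.a (.b (.b (.a (.b (.a (.a (.l 7) .z) (.a .z (.a .z (.l 5)))) (.a (.l 7) (.a (.l 7) .z))) (.b (.l 5) (.a (.a .z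
(.a .z (.l 5))) (.l 5)))) (.a (.l 7) (.a (.b (.a (.l 7) .z) (.l 7)) (.b (.a .z (.a .z (.l 5))) (.a (.l 7) .z))))) (.l 7)) (.b (.a (.b (.l 5) (.a (.b
(.l 5) (.a .z (.a .z (.l 5)))) (.l 5))) (.l 5)) (.a (.b (.a (.b (.a (.l 7) .z) (.l 7)) (.b (.a .z (.a .z (.l 5))) (.a (.l 7) .z))) (.l 7)) (.b (.a (.b
(.l 5) (.a .z (.a .z (.l 5)))) (.l 5)) (.a (.b (.a (.l 7) .z) (.l 7)) (.b (.a .z (.a .z (.l 5))) (.a (.l 7) .z)))))))) (.b (.l 5) (.a (.b (.l 5) (.a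
(.b (.l 5) (.a (.b (.l 5) (.a .z (.l 5))) (.l 5))) (.l 5))) (.l 5)))) (.a (.l 7) (.b (.a (.b (.a (.b (.a (.b (.a (.a (.l 7) .z) .z) (.l 7)) (.b (.a .z
(.l 5)) (.a (.a (.l 7) .z) .z))) (.l 7)) (.b (.a (.b (.l 5) (.a .z (.l 5))) (.l 5)) (.a (.b (.a (.a (.l 7) .z) .z) (.l 7)) (.b (.a .z (.l 5)) (.a (.a
(.l 7) .z) .z))))) (.l 7)) (.b (.a (.b (.l 5) (.a (.b (.l 5) (.a .z (.l 5))) (.l 5))) (.l 5)) (.a (.b (.a (.b (.a (.a (.l 7) .z) .z) (.l 7)) (.b (.a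
(.a .z (.l 5)) (.l 5)) .z)) (.l 7)) (.b (.a (.b (.l 5) (.a (.a .z (.l 5)) (.l 5))) (.l 5)) (.a (.b .z (.l 7)) (.b (.a (.a .z (.l 5)) (.l 5)) .z))))))
(.a (.l 7) (.b (.a (.l 7) (.b (.a (.l 7) (.b (.a (.l 7) (.a (.l 7) .z)) (.l 7))) (.l 7))) (.l 7))))))))) (.l 7)) (.l 7)) (.b (.b (.b (.a (.l 7) (.b
(.l 7) (.a (.b (.l 7) (.a (.l 7) (.b (.l 7) (.a (.b (.l 7) (.a (.b (.l 7) (.a (.l 7) (.a (.l 7) .z))) (.b (.a (.l 7) (.a (.a (.l 7) .z) .z)) (.a .z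
(.a .z (.l 10)))))) (.b (.a (.b (.l 7) (.a (.l 7) .z)) (.b (.a (.a (.l 7) (.a (.l 7) .z)) .z) (.a .z (.l 10)))) (.a (.b (.a .z (.a .z (.l 10))) (.l
10)) (.l 10))))))) (.b (.a (.b (.l 7) (.a (.l 7) (.b (.l 7) (.a (.l 7) (.b (.l 7) (.a (.l 7) .z)))))) (.b (.a (.l 7) (.b (.l 7) (.a (.b (.l 7) (.a (.l
7) (.a (.l 7) .z))) (.b (.a (.l 7) (.a (.a (.l 7) .z) .z)) .z)))) (.a (.b (.a (.l 7) (.b (.l 7) (.a (.a (.a (.l 7) .z) .z) .z))) (.a (.b (.a (.a (.l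
7) (.a (.l 7) .z)) .z) (.a .z (.l 31))) (.b (.a .z (.l 31)) (.l 31)))) (.b (.a (.b .z (.a .z (.l 31))) (.l 31)) (.l 31))))) (.a (.b (.a (.b (.a (.l 7)
(.b (.l 7) (.a (.l 7) (.a (.l 7) (.a (.l 7) .z))))) (.a (.b (.l 7) (.a (.a (.a (.l 7) .z) .z) .z)) (.b .z (.a .z (.l 31))))) (.b (.a (.b (.a (.l 7)
(.a (.l 7) .z)) .z) (.b .z (.l 31))) (.l 31))) (.a (.b (.a (.b (.a (.a .z (.l 10)) .z) (.a (.l 10) (.a (.l 10) .z))) (.a (.b (.l 31) .z) (.l 31))) (.a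
(.l 10) (.a (.b .z (.a (.l 10) .z)) (.b (.l 31) .z)))) (.l 31))) (.l 31)))))) (.a (.b (.a (.b (.l 7) (.b (.l 7) (.a (.l 7) (.b (.a (.l 7) (.a (.l 7)
(.b (.l 7) (.a (.l 7) (.a (.a (.l 7) .z) .z))))) (.a (.b (.l 7) (.a (.l 7) (.a (.l 7) (.a (.a (.l 7) .z) .z)))) (.b (.a (.a (.l 7) (.a (.a (.l 7) .z)
.z)) (.a .z (.a .z (.l 10)))) (.a (.a .z (.a .z (.l 10))) (.l 10)))))))) (.b (.a (.l 7) (.b (.l 7) (.a (.b (.l 7) (.a (.l 7) (.b (.l 7) (.a (.l 7)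
.z)))) (.b (.a (.l 7) (.b (.l 7) (.a (.a (.l 7) (.a (.l 7) .z)) .z))) (.a (.b (.a (.a (.l 7) (.a (.l 7) .z)) .z) (.a .z (.l 10))) (.b (.a .z (.l 10))
(.l 10))))))) (.a (.b (.a (.b (.l 7) (.a (.l 7) (.b (.l 7) (.a (.l 7) (.a (.a (.l 7) .z) .z))))) (.b (.a (.l 7) (.b (.l 7) (.a (.l 7) (.a (.a (.l 7)
.z) .z)))) (.a (.b (.a (.l 7) (.a (.a (.l 7) .z) .z)) (.a .z (.a .z (.l 10)))) (.b (.a .z (.a .z (.l 10))) (.l 10))))) (.a (.b (.a (.b (.a (.l 7) (.a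
(.a (.l 7) .z) .z)) (.a .z (.a .z (.l 10)))) (.b (.a .z (.a .z (.l 10))) (.l 10))) (.l 10)) (.l 10))) (.b (.a (.b (.a (.b (.a (.l 7) .z) (.a .z (.a .z
(.l 10)))) (.b (.a .z (.a .z (.l 10))) (.l 10))) (.l 10)) (.l 10)) (.l 10))))) (.b (.a (.b (.a (.b (.a (.l 7) (.b (.l 7) (.a (.l 7) (.a (.l 7) (.a (.a
(.l 7) .z) .z))))) (.a (.b (.l 7) (.a (.l 7) (.a (.l 7) .z))) (.b (.a (.a (.l 7) (.a (.a (.l 7) .z) .z)) (.a .z (.a .z (.l 10)))) (.a (.a .z (.a .z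
(.l 10))) (.l 10))))) (.b (.a (.b (.a (.a (.l 7) (.a (.a (.l 7) .z) .z)) (.a .z (.a .z (.l 10)))) (.a (.a .z (.a .z (.l 10))) (.l 10))) (.l 10)) (.l
10))) (.a (.b (.a (.b (.a (.a (.l 7) .z) (.a .z (.a .z (.l 10)))) (.a (.a .z (.a .z (.l 10))) (.l 10))) (.l 10)) (.l 10)) (.l 10))) (.l 10)) (.l 10)))
(.b (.a (.b (.a (.b (.a (.b (.l 7) (.a (.l 7) (.b (.l 7) (.a (.a (.a (.l 7) .z) .z) .z)))) (.b (.a (.l 7) (.b (.a (.l 7) (.a (.l 7) (.a (.l 7) .z)))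
.z)) (.a (.b (.a (.a (.a (.l 7) .z) .z) .z) (.a (.a .z (.l 10)) (.l 10))) (.b (.a (.a .z (.l 10)) (.l 10)) (.l 10))))) (.a (.b (.a (.b (.a (.a (.l 7)
.z) .z) (.a .z (.l 10))) (.b (.a (.a .z (.l 10)) (.l 10)) (.l 10))) (.l 10)) (.l 10))) (.b (.a (.b (.a (.b .z (.l 10)) (.l 10)) (.l 10)) (.l 10)) (.l
10))) (.l 10)) (.a (.b (.a (.b (.a (.l 10) (.b (.a (.l 10) (.b .z (.a (.l 10) .z))) (.l 10))) (.l 10)) (.b (.a (.b (.a (.b (.l 31) .z) (.l 31)) (.a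
(.b .z (.a (.l 10) .z)) (.b (.l 31) .z))) (.l 31)) (.a (.b (.a (.l 10) (.b .z (.a (.l 10) .z))) (.l 10)) (.b (.a (.b (.l 31) .z) (.l 31)) (.a (.b .z
(.a (.l 10) .z)) (.b (.l 31) .z)))))) (.a (.l 10) (.b (.a (.l 10) (.b (.a (.l 10) (.b .z (.a (.l 10) .z))) (.l 10))) (.l 10)))) (.a (.b (.l 31) (.a
(.b (.a (.b (.a .z (.l 31)) (.a (.b .z (.l 10)) .z)) (.b (.l 31) (.a .z (.l 31)))) (.a (.l 10) (.b (.a (.b .z (.l 10)) .z) (.l 10)))) (.b (.l 31) (.a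
(.b (.a .z (.l 31)) (.a (.b .z (.l 10)) .z)) (.b (.l 31) (.a .z (.l 31))))))) (.l 31)))) (.a (.l 10) (.a (.l 10) (.a (.b (.a (.l 10) (.b (.a (.l 10)
(.b (.a (.b .z (.l 10)) .z) (.l 10))) (.l 10))) (.l 10)) (.b (.a (.b (.a (.b (.a .z (.l 31)) (.a (.b .z (.l 10)) .z)) (.b (.l 31) (.a .z (.l 31))))
(.a (.l 10) (.b (.a (.b .z (.l 10)) .z) (.l 10)))) (.b (.l 31) (.a (.b (.a .z (.l 31)) (.a (.b .z (.l 10)) .z)) (.b (.l 31) (.a .z (.l 31)))))) (.a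
(.l 10) (.b (.a (.l 10) (.b (.a (.b .z (.l 10)) .z) (.l 10))) (.l 10)))))))))) (.l 10)) (.a (.b (.l 10) (.a (.b (.l 10) (.a (.b (.a (.b (.a (.b (.a
(.b (.a .z (.b (.l 10) .z)) (.a (.l 11) (.b .z (.l 11)))) (.b (.l 10) (.a .z (.b (.l 10) .z)))) (.a (.l 11) (.b (.a (.l 11) (.b .z (.l 11))) (.l
11)))) (.b (.l 10) (.a (.b (.a .z (.l 10)) (.a (.b .z (.l 11)) .z)) (.b (.l 10) (.a (.b (.l 10) .z) (.l 10)))))) (.a (.l 11) (.b (.a (.l 11) (.b (.a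
(.b .z (.l 11)) .z) (.l 11))) (.l 11)))) (.b (.l 10) (.a (.b (.a (.b (.a (.b (.l 10) .z) (.l 10)) (.a .z (.b (.l 10) .z))) (.l 10)) (.a (.b (.a (.l
11) (.b .z (.l 11))) (.l 11)) (.b (.a .z (.b (.l 10) .z)) (.a (.l 11) (.b .z (.l 11)))))) (.b (.l 10) (.a (.b (.l 10) (.a .z (.l 10))) (.l 10))))))
(.a (.l 11) (.b (.a (.l 11) (.b (.a (.b (.a (.b .z (.l 11)) .z) (.l 11)) (.b (.a (.b (.l 10) .z) (.l 10)) (.a (.b .z (.l 11)) .z))) (.a (.l 11) (.b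
(.a (.l 11) (.b .z (.l 11))) (.l 11))))) (.l 11)))) (.b (.l 10) (.a (.b (.a (.b (.l 10) (.a (.b (.a .z (.b (.l 10) .z)) (.a (.l 11) (.b .z (.l 11))))
(.b (.l 10) (.a .z (.b (.l 10) .z))))) (.l 10)) (.a (.b (.a (.l 11) (.b (.a (.l 11) .z) (.l 11))) (.l 11)) (.b (.a (.b (.a (.b (.l 10) .z) (.l 10))
(.a (.b .z (.l 11)) .z)) (.l 10)) (.a (.b (.a (.l 11) (.b .z (.l 11))) (.l 11)) (.b (.a .z (.b (.l 10) .z)) (.a (.l 11) (.b .z (.l 11)))))))) (.b (.l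
10) (.a (.b (.l 10) (.a (.b (.l 10) (.a .z (.l 10))) (.l 10))) (.l 10))))))) (.b (.l 10) (.a (.b (.l 10) (.a (.b (.l 10) (.a (.b (.l 10) (.a (.b (.l
10) (.a (.l 10) (.b (.l 10) .z))) (.b (.a (.l 10) (.b (.l 10) .z)) (.a .z (.b .z (.l 13)))))) (.b (.a (.b (.l 10) (.a (.l 10) (.b (.l 10) .z))) (.b
(.a (.l 10) (.b (.l 10) .z)) (.a .z (.b .z (.l 13))))) (.a (.b (.a .z (.b .z (.l 13))) (.l 13)) (.l 13))))) (.b (.a (.b (.l 10) (.a (.b (.l 10) (.a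
(.l 10) (.b (.l 10) .z))) (.b (.a (.l 10) (.b (.l 10) .z)) (.a .z (.b .z (.l 13)))))) (.b (.a (.b (.l 10) (.a (.l 10) (.b (.l 10) .z))) (.b (.a (.l
10) (.b (.l 10) .z)) (.a .z (.b .z (.l 13))))) (.a (.b (.a .z (.b .z (.l 13))) (.l 13)) (.l 13)))) (.a (.b (.a (.b (.a .z (.b .z (.l 13))) (.l 13))
(.l 13)) (.l 13)) (.l 13))))) (.b (.a (.b (.l 10) (.a (.b (.l 10) (.a (.b (.l 10) (.a (.l 10) (.b (.l 10) .z))) (.b (.a (.l 10) .z) (.a .z (.b .z (.l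
13)))))) (.b (.a (.b (.l 10) (.a (.b (.l 10) .z) .z)) (.b (.a (.b (.l 10) .z) .z) (.a (.b .z (.l 13)) (.l 13)))) (.a (.b (.a (.b .z (.l 13)) (.l 13))
(.l 13)) (.l 13))))) (.b (.a (.b (.l 10) (.a (.b (.l 10) (.a (.b (.l 10) .z) .z)) (.b (.a (.b (.l 10) .z) .z) (.a (.b .z (.l 13)) (.l 13))))) (.b (.a
(.b (.l 10) (.a (.b (.l 10) .z) .z)) (.b (.a (.b (.l 10) .z) .z) (.a (.b .z (.l 13)) (.l 13)))) (.a (.b (.a (.b .z (.l 13)) (.l 13)) (.l 13)) (.l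
13)))) (.a (.b (.a (.b (.a (.b .z (.l 13)) (.l 13)) (.l 13)) (.l 13)) (.l 13)) (.l 13)))) (.a (.b (.a (.b (.a (.b (.a .z (.b .z (.l 13))) (.l 13)) (.l
13)) (.l 13)) (.l 13)) (.l 13)) (.b (.l 13) (.b (.l 13) (.b (.l 13) (.b (.a (.l 13) (.a (.l 13) .z)) (.a (.a (.a (.l 13) .z) .z) (.a .z (.a .z (.l
16)))))))))))))) (.b (.a (.b (.l 10) (.a (.l 10) (.b (.l 10) (.a (.l 10) (.b (.l 10) (.a (.l 10) (.b (.l 10) (.a (.l 10) (.b (.l 10) (.a (.b (.l 10)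
.z) .z)))))))))) (.b (.a (.l 10) (.b (.l 10) (.a (.l 10) (.b (.l 10) (.a (.l 10) (.b (.l 10) (.a (.b (.l 10) (.a (.b (.l 10) .z) .z)) (.b (.a (.b (.l
10) .z) .z) (.a (.b .z (.l 11)) (.l 11)))))))))) (.a (.b (.a (.l 10) (.b (.l 10) (.a (.l 10) (.b (.l 10) (.a (.b (.l 10) (.a (.l 10) (.b (.l 10) .z)))
(.b (.a (.l 10) (.b (.l 10) .z)) (.a .z (.b .z (.l 13))))))))) (.a (.b (.a (.l 10) (.b (.l 10) (.a (.l 10) (.b (.l 10) (.a (.b (.l 10) .z) .z))))) (.a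
(.b (.a (.l 10) (.b (.l 10) (.a (.b (.l 10) .z) .z))) (.a (.b (.a (.b (.l 10) .z) .z) (.a (.b .z (.l 13)) (.l 13))) (.b (.a (.b .z (.l 13)) (.l 13))
(.l 13)))) (.b (.a (.b (.a (.b (.l 10) .z) .z) (.a (.b .z (.l 13)) (.l 13))) (.b (.a (.b .z (.l 13)) (.l 13)) (.l 13))) (.l 13)))) (.b (.a (.b (.a (.b
(.l 10) (.a (.l 10) (.b (.l 10) .z))) (.b (.a (.l 10) (.b (.l 10) .z)) (.a .z (.b .z (.l 13))))) (.a (.b (.a (.b (.l 10) .z) .z) (.a (.b .z (.l 13))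
(.l 13))) (.l 13))) (.b (.a (.b (.a .z (.b .z (.l 13))) (.l 13)) (.l 13)) (.l 13))) (.l 13)))) (.b (.a (.b (.a (.l 10) (.b (.l 10) (.a (.b (.l 10) (.a
(.l 10) (.b (.l 10) .z))) (.b (.a (.b (.l 10) .z) .z) (.a .z (.l 13)))))) (.a (.b (.a (.b (.l 10) (.a (.l 10) (.b (.l 10) .z))) (.b (.a (.l 10) (.b
(.l 10) .z)) (.a .z (.b .z (.l 13))))) (.a (.b (.a .z (.b .z (.l 13))) (.l 13)) (.l 13))) (.b (.a (.b (.a .z (.b .z (.l 13))) (.l 13)) (.l 13)) (.l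
13)))) (.b (.a (.b (.a (.b (.l 10) (.a (.b (.l 10) .z) .z)) (.b (.a (.b (.l 10) .z) .z) (.a (.b .z (.l 13)) (.l 13)))) (.a (.b (.a (.b .z (.l 13)) (.l
13)) (.l 13)) (.l 13))) (.b (.a (.b (.a (.b .z (.l 13)) (.b .z (.l 13))) (.l 13)) (.b (.b .z (.a (.l 13) .z)) (.l 13))) (.l 13))) (.l 13))) (.l
13))))) (.a (.b (.a (.b (.a (.l 10) (.b (.l 10) (.a (.l 10) (.b (.l 10) (.a (.l 10) (.b (.l 10) (.a (.l 10) (.b (.l 10) .z)))))))) (.a (.b (.l 10) (.a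
(.b (.l 10) (.a (.b (.l 10) (.a (.b (.l 10) .z) .z)) (.b (.a (.b (.l 10) .z) .z) (.a (.b .z (.l 13)) (.l 13))))) (.b (.a (.b (.l 10) (.a (.b (.l 10)
.z) .z)) (.b (.a (.b (.l 10) .z) .z) (.a (.b .z (.l 13)) (.l 13)))) (.a (.b (.a (.b .z (.l 13)) (.l 13)) (.l 13)) (.l 13))))) (.b (.a (.b (.a (.l 10)
(.b (.l 10) (.a (.l 10) (.b (.l 10) .z)))) (.a (.b (.a (.l 10) (.b (.l 10) .z)) (.a (.b (.l 10) .z) .z)) (.b (.a .z (.b .z (.l 13))) (.l 13)))) (.b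
(.a (.b (.a (.l 10) (.b (.l 10) .z)) (.a .z (.b .z (.l 13)))) (.b (.a .z (.b .z (.l 13))) (.l 13))) (.l 13))) (.a (.b (.a (.b (.a (.b .z (.l 13)) (.l
13)) (.l 13)) (.l 13)) (.l 13)) (.l 13))))) (.b (.a (.b (.a (.l 10) (.b (.l 10) (.a (.l 10) (.b (.l 10) (.a (.l 10) (.b (.l 10) .z)))))) (.a (.b (.a
(.l 10) (.b (.l 10) (.a (.l 10) (.b (.l 10) .z)))) (.a (.b (.a (.l 10) (.b (.l 10) .z)) (.a .z (.b .z (.l 13)))) (.b (.a .z (.b .z (.l 13))) (.l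
13)))) (.b (.a (.b (.a (.l 10) (.b (.l 10) .z)) (.a .z (.b .z (.l 13)))) (.b (.a .z (.b .z (.l 13))) (.l 13))) (.l 13)))) (.b (.a (.b (.a (.l 10) (.b
(.l 10) (.a (.b (.l 10) .z) .z))) (.a (.b (.a (.l 10) (.b (.l 10) .z)) (.a .z (.b .z (.l 13)))) (.b (.a .z (.l 13)) (.l 13)))) (.b (.a (.b (.a (.b (.l
10) .z) .z) (.a (.b .z (.l 13)) (.l 13))) (.b (.a (.b .z (.l 13)) (.l 13)) (.l 13))) (.l 13))) (.l 13))) (.l 13))) (.a (.b (.a (.b (.a (.b (.a (.b (.a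
(.b .z (.l 13)) (.l 13)) (.l 13)) (.l 13)) (.l 13)) (.l 13)) (.l 13)) (.l 13)) (.b (.l 13) (.b (.b (.l 13) (.a (.l 13) (.b (.l 13) (.a (.l 13) (.a (.l
13) .z))))) (.b (.a (.b (.l 13) (.a (.l 13) .z)) (.b (.a (.a (.a (.l 13) .z) .z) (.a .z (.a .z (.l 16)))) (.a (.a .z (.l 16)) (.l 16)))) (.a (.b (.a
.z (.a (.a .z (.l 16)) (.l 16))) (.l 16)) (.l 16)))))) (.b (.l 13) (.b (.l 13) (.b (.b (.a (.l 13) (.b (.a (.l 13) (.a (.a (.l 13) .z) .z)) (.a .z (.a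
.z (.l 16))))) (.a (.b (.a (.a (.l 13) (.a (.l 13) .z)) .z) (.a .z (.l 16))) (.b (.a (.a (.a .z (.l 16)) (.l 16)) (.l 16)) (.l 16)))) (.l 16)))))) (.b
(.l 13) (.b (.l 13) (.b (.b (.a (.l 13) (.b (.a (.l 13) (.b (.l 13) (.a (.l 13) (.a (.l 13) .z)))) (.a (.b (.l 13) (.a (.l 13) (.a (.a (.l 13) .z)
.z))) (.b (.a (.a (.l 13) .z) (.a .z (.a .z (.l 16)))) (.a (.a .z (.a .z (.l 16))) (.l 16)))))) (.a (.b (.a (.l 13) (.b (.l 13) (.a (.l 13) .z))) (.a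
(.b (.a (.l 13) (.a (.l 13) (.a (.l 13) .z))) (.a (.a (.l 13) .z) .z)) (.b (.a .z (.a (.a .z (.l 16)) (.l 16))) (.l 16)))) (.b (.a (.b (.a .z (.a .z
(.l 16))) (.a (.a (.a .z (.l 16)) (.l 16)) (.l 16))) (.l 16)) (.l 16)))) (.b (.a (.b (.a (.b (.a (.a .z (.a .z (.l 16))) (.l 16)) (.l 16)) (.l 16))
(.l 16)) (.l 16)) (.l 16))))))))))

theorem vQ115 : ev Q115 I4_4 I3_6 = 7726037960550920 := by decide +kernel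

noncomputable def Q215 : QT :=
(.b (.a (.b .z (.b (.a (.b .z (.a .z (.b .z (.a .z (.b .z (.a (.l 131) .z)))))) .z) (.a (.b (.a .z (.b (.a (.b (.a .z (.l 131)) (.l 131)) (.l 131))
(.b (.a (.a .z (.l 131)) (.a (.l 131) .z)) (.a (.a .z (.l 131)) .z)))) .z) (.b .z (.a .z (.b .z (.a .z (.b .z (.a (.l 113) .z))))))))) (.b .z (.a (.b
.z (.b (.a .z (.b (.a .z (.b (.a .z (.l 84)) (.l 84))) (.a (.b (.a .z (.l 84)) (.l 84)) (.l 84)))) (.a (.b (.a .z (.l 84)) (.a (.a .z (.l 84)) (.l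
84))) (.l 84)))) (.b .z (.a (.b (.a (.b (.a (.b .z (.l 84)) .z) (.l 84)) (.b .z (.a (.b .z (.l 84)) .z))) (.a (.b (.l 84) (.a (.b (.l 84) .z) .z)) (.b
(.a (.b (.l 84) .z) .z) .z))) .z))))) (.b (.a (.b (.a (.b (.a .z (.b (.a .z (.b .z (.l 243))) .z)) (.b (.a (.b (.a (.a (.l 87) .z) .z) .z) (.a (.b .z
(.l 113)) (.l 113))) (.a (.b (.a .z (.l 113)) (.l 113)) (.b (.l 113) (.a (.l 113) (.b (.l 113) .z)))))) (.b (.a (.b (.a (.b (.l 243) .z) (.b .z (.a .z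
(.l 113)))) (.a (.b .z (.l 113)) (.l 113))) (.b (.a (.b (.a .z (.l 113)) (.l 113)) (.a (.a (.l 113) .z) .z)) (.a (.a (.l 113) (.a (.l 113) .z)) (.a .z
(.l 84))))) (.a (.b (.l 113) (.b (.a (.l 113) .z) .z)) (.a (.a (.b (.b (.l 113) .z) .z) (.b .z (.a .z (.l 84)))) (.l 84))))) (.a (.b (.b (.a (.b (.a
(.l 113) (.b (.l 113) .z)) (.a (.b (.l 113) .z) .z)) .z) .z) (.b .z (.l 53))) (.b (.a (.a (.b .z (.a .z (.b .z (.l 95)))) (.a (.b .z (.l 95)) .z)) (.a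
(.a (.b .z (.l 84)) (.l 84)) (.l 84))) (.a (.b (.b (.a (.l 95) (.a (.l 95) .z)) (.b (.a (.l 95) .z) .z)) (.a (.a (.l 53) (.b (.a (.l 53) .z) .z)) .z))
(.b (.b (.l 84) (.b (.l 84) (.b (.l 84) .z))) .z))))) (.b (.a (.b (.a (.l 84) (.a (.l 84) (.b (.a (.l 84) .z) .z))) (.a (.l 84) (.b (.a (.a (.b (.l
84) .z) .z) .z) .z))) .z) (.a (.b (.a (.b (.a (.l 84) (.a (.l 84) .z)) (.a (.l 84) .z)) .z) (.a (.b (.a (.b (.l 84) .z) .z) (.a .z (.l 377))) .z))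
.z))) (.a (.b (.a (.b (.a (.l 53) (.a (.b (.l 53) (.a (.l 53) (.b (.l 53) .z))) (.b (.a (.l 53) (.b (.l 53) .z)) .z))) (.a (.a (.b (.l 53) (.a (.l 53)
(.b (.l 53) (.a (.l 53) .z)))) (.b (.a (.l 53) (.b (.l 53) (.a (.l 53) .z))) (.a (.b (.a (.l 53) .z) .z) (.b .z (.l 129))))) (.b (.a (.a (.b (.a (.l
53) .z) .z) .z) .z) (.a (.a (.a (.l 129) .z) .z) (.b (.l 166) .z))))) (.b (.a (.b .z (.a (.b .z (.l 258)) .z)) .z) (.a (.b (.a (.b (.l 258) .z) .z)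
.z) .z))) (.a (.b (.a (.b (.a (.a (.b (.l 53) .z) .z) (.l 129)) (.a (.a .z (.b (.l 129) .z)) (.b (.b (.l 129) .z) .z))) (.b .z (.a .z (.b (.b (.l 52)
.z) .z)))) .z) .z)) (.b (.a .z (.a .z (.b .z (.a .z (.b .z (.a (.a (.l 115) .z) .z)))))) (.a .z (.b (.a (.a .z (.b .z (.l 132))) (.b (.a (.a (.l 132)
.z) .z) (.a (.b (.l 132) .z) (.b .z (.a .z (.l 117)))))) (.a (.b (.a (.a (.b .z (.l 103)) (.b .z (.l 103))) .z) (.a .z (.b (.a .z (.l 117)) .z))) (.b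
(.a (.b .z (.l 117)) (.l 117)) (.b (.l 117) (.a .z (.l 117)))))))))))

theorem vQ215 : ev Q215 I5_22 I4_11 = 294207047853013 := by decide +kernel

noncomputable def Q55 : QT :=
(.b (.a (.b (.b (.b (.b (.l 51) (.b .z (.l 56))) (.b (.b (.a .z (.l 56)) (.a (.a (.l 55) (.a (.l 55) .z)) .z)) (.b (.a (.l 55) (.a (.l 55) (.a (.l 55)
.z))) (.l 55)))) (.b (.b (.b (.l 55) (.a (.a (.l 55) (.a (.l 55) .z)) .z)) (.b (.a .z (.l 60)) (.a (.a (.a .z (.l 60)) (.l 60)) (.l 60)))) (.b (.b (.a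
.z (.a .z (.l 60))) (.a (.l 59) (.a (.a (.l 59) .z) .z))) (.l 59)))) (.b (.b (.b (.b .z (.l 64)) (.b (.a (.a .z (.a .z (.l 64))) (.l 64)) (.a (.a (.l
63) .z) .z))) (.b (.b (.a (.l 63) (.a (.l 63) (.a (.l 63) .z))) (.l 63)) (.b .z (.l 68)))) (.b (.b (.b (.a .z (.l 68)) (.a (.a (.l 67) .z) .z)) (.b
(.a (.l 67) (.a (.l 67) .z)) (.a (.a (.l 67) .z) .z))) (.b (.b (.a .z (.l 72)) (.l 72)) (.b (.a .z (.a .z (.l 72))) (.a (.l 71) .z)))))) (.b (.b (.b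
(.b (.b (.l 51) (.a (.a (.l 51) .z) .z)) (.b (.a (.a .z (.a .z (.l 56))) (.l 56)) (.l 56))) (.b (.l 56) (.b (.a .z (.a (.a .z (.l 56)) (.l 56))) (.a
(.l 55) .z)))) (.b (.b (.a (.b (.l 55) .z) (.b (.a (.l 55) (.a (.l 55) .z)) .z)) (.l 60)) (.b (.b (.l 60) (.a (.a .z (.a .z (.l 60))) (.l 60))) (.b
(.a (.a (.l 59) .z) (.a .z (.a .z (.l 60)))) (.a (.l 59) .z))))) (.a (.b (.b (.b (.b .z (.l 64)) (.l 64)) (.b (.b .z (.l 63)) (.b .z (.l 68)))) (.b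
(.b (.l 68) .z) (.b (.l 72) (.b (.l 72) .z)))) (.b (.a (.b (.b (.b (.a .z (.l 64)) (.l 64)) (.l 64)) (.b (.b (.a .z (.l 64)) .z) (.b .z (.l 68)))) (.b
(.a (.l 64) (.b (.l 64) (.a (.l 64) .z))) (.a (.b (.b (.l 64) .z) .z) .z))) (.a (.b (.a (.b (.l 68) .z) (.b (.l 68) .z)) (.a (.b (.l 72) .z) (.b .z
(.a .z (.l 47))))) (.b (.a .z (.l 46)) (.b (.b .z (.l 47)) (.l 47)))))))) (.a (.b (.b (.b (.b (.b .z (.a (.a .z (.l 76)) (.l 76))) (.b (.a (.a .z (.l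
76)) (.l 76)) .z)) (.b (.b (.a (.l 75) (.a (.l 75) .z)) .z) (.b (.l 80) (.a .z (.l 80))))) (.b (.b (.b (.a (.a (.l 79) .z) .z) .z) (.b (.l 84) (.a .z
(.l 84)))) (.b (.b (.a (.a (.l 83) .z) .z) .z) (.b (.l 88) (.a .z (.a .z (.l 88))))))) (.a (.b (.b (.b (.b .z (.l 92)) (.b (.a .z (.l 92)) .z)) (.b
(.b .z (.l 96)) .z)) (.a (.b (.b (.b (.l 100) .z) (.b .z (.l 104))) (.b (.b .z (.l 108)) .z)) (.b (.b (.b (.l 100) .z) (.b .z (.l 104))) .z))) (.b (.a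
(.b (.b (.b .z (.l 92)) (.b (.l 92) .z)) .z) (.b .z (.a .z (.b (.b .z (.l 59)) .z)))) (.a .z (.b (.b (.b (.a (.l 62) .z) (.l 62)) (.b .z (.a (.l 63)
.z))) .z))))) (.b (.a (.b (.a (.b (.b (.b .z (.l 76)) (.l 76)) (.b .z (.l 80))) (.b (.a (.b .z (.l 76)) .z) (.a .z (.b .z (.l 51))))) (.a (.b (.a (.b
.z (.l 84)) .z) (.a .z (.b .z (.l 55)))) (.b (.a (.b .z (.b .z (.l 54))) .z) (.b (.b (.l 54) .z) (.b (.a (.l 55) .z) (.l 55)))))) (.b (.a (.b (.a (.b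
.z (.l 50)) (.b .z (.b .z (.l 50)))) (.b (.b (.l 50) .z) (.b (.a (.l 51) .z) (.l 51)))) (.b (.b (.b .z (.a (.l 53) .z)) (.a .z (.l 53))) (.b (.a (.b
.z (.l 50)) .z) (.b .z (.a (.l 51) .z))))) (.a (.b (.b .z (.a (.b (.l 57) .z) (.l 57))) (.b (.a (.b .z (.l 54)) .z) (.a (.b .z (.l 55)) .z))) (.b (.b
(.b .z (.a .z (.l 56))) (.b .z (.l 57))) (.a (.b (.l 57) .z) (.b (.a (.l 57) .z) .z)))))) (.a (.a (.b (.b (.a (.b .z (.l 58)) (.b .z (.b .z (.l 58))))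
(.b (.b .z (.a (.l 59) .z)) .z)) (.b (.b (.a .z (.b (.l 65) .z)) (.a (.b (.l 62) .z) .z)) (.b .z (.b (.l 69) .z)))) (.b (.b (.b .z (.a .z (.l 61)))
.z) (.b (.a (.b (.l 65) .z) (.b (.b .z (.l 65)) .z)) (.a .z (.b (.a .z (.l 63)) .z))))) (.b (.a (.b (.b .z (.l 61)) (.a (.b (.b (.l 61) .z) .z) (.b .z
(.a .z (.l 59))))) (.b (.a .z (.b (.a .z (.l 55)) (.b (.l 55) .z))) (.a (.b (.a .z (.l 59)) (.l 59)) (.b (.b .z (.l 59)) (.l 59))))) (.a (.b (.a .z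
(.b (.b (.l 59) .z) (.b .z (.l 63)))) (.b (.l 63) .z)) (.b (.b (.b (.l 59) .z) (.b .z (.a (.l 63) .z))) (.b (.l 63) (.b .z (.l 68))))))))))

theorem vQ55 : ev Q55 I5_2 I6_61 = 238891495856833 := by decide +kernel

noncomputable def Q57 : QT :=
(.a (.a (.b (.b (.a (.b (.b (.a (.b (.b (.b (.l 112) .z) (.b (.l 116) .z)) .z) .z) .z) (.b (.a .z (.b .z (.a .z (.b .z (.l 91))))) (.a .z (.b .z (.b
(.b (.l 99) .z) .z))))) (.b (.b (.a .z (.b (.b .z (.b .z (.l 73))) .z)) (.a (.b (.b .z (.b .z (.l 81))) .z) .z)) (.b (.a (.b (.a .z (.b (.l 83) .z))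
(.b (.b (.l 87) .z) (.b .z (.l 91)))) (.b (.b (.b .z (.l 83)) .z) (.b (.b (.l 87) .z) .z))) .z))) (.b (.a (.b (.b (.b (.b (.a (.l 107) .z) .z) .z) .z)
.z) .z) .z)) .z) (.b (.b (.b (.a (.b (.a .z (.b (.a .z (.b (.l 67) .z)) (.b .z (.b (.l 71) .z)))) (.b (.b (.b .z (.a (.l 75) .z)) (.b (.l 75) .z)) (.b
(.b (.a .z (.l 80)) .z) (.b (.l 79) .z)))) (.b (.b (.b (.b .z (.a (.l 67) .z)) (.b (.l 67) .z)) (.b (.b (.l 72) .z) (.b (.a (.l 71) .z) .z))) (.a (.b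
(.b (.b (.l 76) .z) .z) (.b (.b (.l 80) .z) .z)) (.b (.a (.b (.l 76) .z) (.b (.l 76) .z)) .z)))) (.a (.b (.a .z (.b (.b .z (.b .z (.l 88))) .z)) .z)
(.b (.a .z (.b (.a .z (.b (.l 71) .z)) (.a (.b (.l 75) .z) .z))) (.b (.a (.b (.a (.l 79) .z) .z) .z) (.a .z (.a (.b .z (.l 83)) (.b (.l 83) .z)))))))
(.b (.a (.b .z (.a (.b (.b (.a .z (.l 93)) (.a (.l 93) .z)) .z) .z)) (.b (.a (.b (.a (.b .z (.l 83)) (.b (.l 83) .z)) .z) .z) .z)) (.a .z (.b .z (.b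
.z (.a .z (.b .z (.a .z (.l 123))))))))) .z)) (.b (.b (.a (.b (.a (.b (.a (.b (.b (.b (.l 68) .z) .z) (.a (.b (.l 72) .z) (.b (.l 72) .z))) .z) (.a .z
(.b (.a (.b .z (.l 67)) .z) .z))) (.b (.a (.b (.a .z (.b .z (.b (.l 62) .z))) (.b (.l 63) (.b (.l 63) .z))) (.b (.b (.a .z (.b (.l 57) .z)) .z) (.b
(.l 63) (.b (.l 63) .z)))) (.b (.a (.a .z (.b .z (.l 70))) (.b (.b (.l 68) .z) (.b .z (.l 70)))) (.a .z (.a (.b (.l 70) .z) .z))))) (.a (.b (.b (.a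
(.a (.b (.l 71) .z) .z) (.a .z (.b .z (.l 73)))) (.a (.a .z (.b .z (.l 73))) (.a (.l 73) (.b (.l 73) .z)))) (.a .z (.b .z (.b .z (.b .z (.l 88))))))
(.b (.a (.b (.a (.b (.l 73) .z) .z) .z) (.b .z (.b .z (.b (.l 75) .z)))) (.b (.a (.b .z (.b (.l 79) .z)) (.b (.b (.l 80) .z) .z)) (.a .z (.b (.a .z
(.l 75)) (.l 75))))))) (.b (.a (.b (.b (.a (.b (.l 57) (.a (.b (.l 57) .z) (.l 57))) (.a (.b (.a (.l 57) .z) (.l 57)) (.b .z (.a (.l 57) .z)))) (.a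
(.b (.a (.b .z (.l 63)) .z) (.b (.l 63) .z)) (.a (.b (.b (.l 57) .z) .z) (.b (.a (.l 57) .z) .z)))) (.a (.b (.a (.b (.l 68) .z) .z) (.a .z (.b (.l 67)
.z))) (.b .z (.b (.l 67) (.b .z (.l 72)))))) (.b (.a (.b (.a (.b (.b .z (.l 64)) .z) .z) (.a (.b .z (.l 63)) (.b (.b .z (.l 63)) (.l 63)))) (.b (.a .z
(.b (.l 59) (.b .z (.l 64)))) (.b (.a (.b .z (.l 63)) .z) (.a (.l 63) (.b .z (.l 63)))))) (.b (.a (.b (.b .z (.l 68)) (.a .z (.l 68))) (.b (.b .z (.l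
68)) (.a (.l 68) .z))) (.a .z (.b (.a .z (.b .z (.l 65))) (.a (.b .z (.l 65)) (.l 65))))))) (.b (.a (.b (.a (.b .z (.b (.l 71) .z)) (.b (.a .z (.l
72)) .z)) (.a (.b (.b (.l 76) .z) .z) .z)) (.b (.a (.b .z (.a .z (.l 72))) (.b (.b (.l 65) .z) (.l 72))) (.b (.b .z (.l 73)) (.b (.a (.l 73) .z)
.z)))) (.a (.b (.a (.b .z (.a .z (.l 75))) (.b .z (.l 75))) (.a (.l 75) (.b (.a (.l 75) .z) .z))) (.b (.a (.b (.a .z (.l 78)) .z) (.l 78)) (.a (.b .z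
(.a (.l 80) .z)) .z)))))) (.b (.a (.b (.a (.b .z (.a .z (.b (.a .z (.l 88)) .z))) (.b (.a (.b (.a .z (.l 75)) .z) (.b (.l 75) (.b (.l 75) .z))) (.a
(.b (.b .z (.l 88)) (.a (.l 88) .z)) .z))) (.a (.b .z (.a (.b (.b .z (.l 104)) .z) (.b (.b .z (.l 104)) .z))) .z)) (.b (.a (.b (.a (.b (.a (.l 75) .z)
.z) .z) (.a .z (.b .z (.b (.l 91) .z)))) (.b (.a (.b .z (.a .z (.l 83))) (.l 83)) (.b (.b (.l 83) (.a .z (.l 83))) .z))) (.a (.b (.a .z (.b (.a .z (.l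
96)) .z)) .z) (.b (.a (.l 96) (.b (.l 96) (.a (.l 96) .z))) .z)))) (.a (.b (.a .z (.b (.a .z (.b .z (.b .z (.l 105)))) .z)) .z) (.b (.a (.b (.a (.b
(.l 102) .z) .z) .z) .z) .z)))) (.b (.a .z (.b (.b (.a .z (.b (.b (.b .z (.l 130)) .z) (.a (.b (.a .z (.l 131)) .z) (.b (.b .z (.l 131)) .z)))) .z)
.z)) .z)))

theorem vQ57 : ev Q57 I4_1 I5_31 = 146388366207301 := by decide +kernel

noncomputable def Q110 : QT :=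
(.a (.a (.l 10) (.a (.a (.l 10) (.a (.a (.l 10) (.a (.a (.l 10) .z) (.l 81))) (.l 81))) (.l 81))) (.b (.a (.l 81) (.a (.b (.l 81) (.a (.l 81) (.b (.a
(.l 81) (.b (.l 81) (.a (.l 81) (.b (.l 81) .z)))) (.a (.b (.l 81) (.a (.b (.l 81) .z) .z)) (.b (.a (.b (.l 81) .z) .z) (.a (.b .z (.l 64)) (.b .z (.l
64)))))))) (.b (.a (.b (.a (.l 81) (.b (.a (.l 81) (.b .z (.l 81))) (.l 81))) (.a (.l 81) (.b (.l 81) (.a (.b (.l 81) .z) .z)))) (.b (.a (.b (.a (.b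
(.a .z (.l 58)) .z) (.b (.l 58) (.a .z (.l 58)))) (.a (.l 81) (.b .z (.l 81)))) (.b (.a (.l 58) (.b (.l 58) (.a (.l 58) .z))) .z)) (.a (.b (.a (.b (.l
81) .z) .z) (.a (.b .z (.l 71)) (.l 71))) (.b (.a (.b .z (.l 71)) .z) (.l 71))))) (.a (.b (.a (.b (.a (.l 81) (.b (.l 81) .z)) (.a .z (.b .z (.l
71)))) (.b (.a .z (.l 71)) (.l 71))) (.b (.l 71) (.b (.b (.l 71) .z) (.b (.a (.l 64) .z) (.l 64))))) (.b (.l 71) (.b (.a (.l 71) (.a (.b (.l 71) .z)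
.z)) (.b (.a (.a (.l 71) .z) .z) .z))))))) (.a (.a (.l 81) (.b (.a (.l 81) (.b (.l 81) (.a (.l 81) (.b (.l 81) (.a (.l 81) .z))))) (.a (.b (.l 81) (.a
(.b (.l 81) (.a (.l 81) (.b (.l 81) .z))) (.b (.a (.b (.l 81) .z) .z) (.a .z (.l 91))))) (.b (.a (.b (.a (.l 81) (.b (.l 81) .z)) (.a .z (.b .z (.l
91)))) (.b (.a .z (.b .z (.l 91))) (.l 91))) (.a (.b (.a (.b .z (.l 91)) (.l 91)) (.l 91)) (.l 91)))))) (.b (.a (.a (.b (.a (.b (.l 81) (.a (.l 81)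
(.b (.l 81) .z))) (.b (.a (.l 81) (.b (.l 81) .z)) (.a .z (.b (.a .z (.l 64)) (.l 64))))) (.a (.b (.a (.b (.l 81) .z) .z) (.a (.b .z (.l 91)) (.l
91))) (.b (.b (.l 64) (.a (.b (.l 64) .z) (.l 64))) (.b (.a .z (.b (.l 64) .z)) (.a (.l 91) .z))))) (.b (.a (.b (.a (.b .z (.a .z (.l 64))) (.l 64))
(.l 64)) (.l 64)) (.b (.l 64) (.a (.b (.l 64) (.a .z (.b (.l 64) .z))) (.l 64))))) (.b (.b (.a (.l 64) (.b (.a (.l 64) (.b .z (.l 64))) (.l 64))) (.l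
64)) (.l 64))) (.a (.b (.a (.l 91) (.b (.a (.b (.a (.l 91) .z) (.l 91)) (.b (.a (.b (.l 64) .z) (.l 64)) .z)) (.a (.l 91) (.b (.a (.l 91) .z) (.l
91))))) (.l 91)) (.b (.a (.b (.l 64) (.a (.b (.a .z (.b (.l 64) .z)) (.a (.l 91) .z)) (.b (.l 64) (.a (.b (.l 64) .z) (.l 64))))) (.b (.a (.l 64) (.b
(.l 64) (.a (.l 64) (.b (.l 64) .z)))) (.a (.b (.l 64) (.a (.l 64) (.b (.l 64) .z))) (.b (.a (.b (.l 64) .z) .z) (.a .z (.l 76)))))) (.a (.b (.a (.l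
91) (.b (.a .z (.b (.l 64) .z)) (.a (.l 91) .z))) (.a (.b (.l 91) (.a (.l 91) .z)) (.b .z (.a .z (.l 76))))) (.b (.a (.b .z (.a .z (.l 76))) (.l 76))
(.l 76)))))))))

theorem vQ110 : ev Q110 I4_5 I5_14 = 1851550883309065 := by decide +kernel

noncomputable def Q197 : QT :=
(.b (.b (.b (.b (.l 11) (.a (.l 11) (.b (.a (.l 11) (.b (.a (.l 11) (.b (.l 11) (.a (.l 11) (.a (.l 11) .z)))) (.a (.b (.l 11) (.a (.l 11) (.a (.l 11)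
.z))) (.b (.a (.a (.l 11) .z) .z) .z)))) (.a (.b (.a (.l 11) (.b (.l 11) (.a (.l 11) .z))) (.a (.b (.l 11) (.a (.l 11) .z)) .z)) (.b (.a (.b (.a (.a
(.l 11) .z) .z) .z) (.l 47)) (.l 47)))))) (.b (.a (.b (.a (.l 11) (.b (.a (.l 11) (.b (.a (.l 11) (.a (.l 11) .z)) (.a (.a (.l 11) .z) .z))) (.a (.b
(.a (.l 11) (.a (.l 11) .z)) .z) (.b .z (.l 47))))) (.a (.b (.a (.l 11) (.b (.a (.l 11) .z) .z)) (.a (.b (.a (.a (.l 11) .z) .z) .z) (.b .z (.l 47))))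
(.b (.a (.b .z (.l 47)) (.l 47)) (.l 47)))) (.b (.a (.b (.a (.b .z (.l 47)) (.l 47)) (.l 47)) (.l 47)) (.l 47))) (.a (.l 47) (.a (.l 47) (.b (.l 47)
(.a (.l 47) (.b (.a (.l 47) .z) .z))))))) (.b (.b (.a (.l 47) (.a (.b (.l 47) (.a (.l 47) (.b (.a (.l 47) .z) .z))) (.b (.a (.b (.a (.l 47) .z) .z)
.z) (.a (.b .z (.l 122)) (.l 122))))) (.a (.b (.a (.b (.a (.b .z (.a (.a (.l 15) .z) .z)) (.l 47)) (.a (.b (.a (.l 15) (.a (.l 15) .z)) (.l 15)) (.b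
.z (.a (.a (.l 15) .z) .z)))) (.l 47)) (.a (.b (.a (.l 15) (.b (.a (.l 15) (.a (.l 15) .z)) (.l 15))) (.l 15)) (.b (.a (.b .z (.a (.a (.l 15) .z) .z))
.z) (.a (.l 15) .z)))) (.b (.a (.a (.b (.a (.l 47) .z) .z) (.b .z (.l 122))) (.l 122)) (.a (.b (.a .z (.l 122)) (.a .z (.l 122))) (.l 122))))) (.b (.a
(.a (.b (.a (.l 15) (.b (.l 15) (.a (.l 15) (.b (.l 15) (.a (.l 15) .z))))) (.a (.b (.l 15) (.a (.l 15) (.b (.l 15) (.a (.l 15) .z)))) (.b (.a (.b (.l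
15) (.a (.l 15) .z)) .z) .z))) (.b (.a (.b (.a (.b (.l 15) (.a (.l 15) .z)) .z) .z) (.b .z (.l 107))) (.l 107))) (.b (.a (.b .z (.a (.l 107) .z)) (.b
(.l 122) (.a .z (.l 122)))) (.a (.l 107) (.a (.b .z (.l 107)) .z)))) (.a (.a (.b (.a (.b (.a (.b (.l 15) (.a (.l 15) .z)) .z) .z) .z) (.l 92)) (.a (.b
(.a .z (.l 107)) .z) (.l 107))) (.b (.l 107) (.a (.l 107) (.b (.l 107) (.a (.l 107) .z)))))))) (.a (.b (.b (.a (.b (.a (.b (.a .z (.l 92)) .z) (.b (.a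
(.l 92) .z) .z)) (.a (.a (.b .z (.l 112)) .z) .z)) (.b (.a (.b .z (.a .z (.l 54))) (.b .z (.a (.l 54) (.b .z (.l 54))))) (.a (.b (.l 54) (.a (.b (.l
54) .z) (.l 54))) (.l 54)))) (.b (.a (.a (.a (.b (.l 112) .z) .z) .z) (.b (.a (.a .z (.b (.l 54) .z)) (.b (.a (.l 54) .z) .z)) (.a .z (.b (.a .z (.l
55)) (.l 55))))) (.a (.b .z (.a (.b .z (.a .z (.l 55))) (.b (.a .z (.l 55)) (.l 55)))) (.b (.a (.b (.a .z (.l 55)) (.l 55)) (.l 55)) (.l 55))))) (.a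
(.b (.b (.l 55) (.b (.l 55) (.b (.l 55) (.a (.l 55) (.b (.l 55) .z))))) (.b (.b (.b .z (.a .z (.l 77))) (.l 77)) (.a (.b (.l 77) (.a .z (.l 77))) (.l
77)))) (.b (.b (.l 55) (.b (.l 55) (.b (.a (.l 55) .z) .z))) (.a (.l 77) (.b (.l 77) (.a (.b (.l 77) .z) .z)))))) (.b (.a (.b (.b (.a (.b (.l 107) .z)
(.b (.b (.l 107) .z) (.b .z (.l 90)))) (.b (.a (.a (.l 54) (.b .z (.l 54))) .z) (.a (.b (.l 54) .z) (.b .z (.a .z (.l 55)))))) (.b (.b (.a (.b (.a .z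
(.l 55)) (.l 55)) (.l 55)) (.l 55)) (.l 55))) (.b (.b (.b .z (.a (.b (.l 90) .z) (.b .z (.a .z (.l 55))))) (.b (.a (.b .z (.a .z (.l 55))) (.l 55))
(.l 55))) (.a (.b (.l 55) (.a (.b (.l 55) (.a (.l 55) .z)) (.b (.a (.l 55) .z) (.a .z (.b .z (.l 13)))))) (.b (.a (.b (.l 55) (.a (.l 55) .z)) (.b (.a
.z (.b .z (.a .z (.l 13)))) (.a (.b .z (.l 13)) (.l 13)))) (.a (.b (.a (.b .z (.a .z (.l 13))) (.b (.a .z (.l 13)) (.l 13))) (.l 13)) (.l 13)))))) (.a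
(.b (.a (.b (.l 55) (.a (.b (.b (.l 55) .z) .z) (.b (.b (.l 55) .z) .z))) (.b (.a (.l 55) (.b (.l 55) .z)) (.a (.b .z (.a .z (.b .z (.l 17)))) (.b (.a
.z (.b (.b (.l 13) .z) .z)) (.l 17))))) (.a (.b (.a (.b (.l 77) .z) (.b (.a .z (.b .z (.l 17))) (.a (.b .z (.l 17)) (.l 17)))) (.a (.b (.a (.b .z (.l
17)) (.l 17)) (.b (.b (.l 17) .z) .z)) (.b (.l 17) (.b (.l 17) .z)))) (.b (.l 17) (.b (.l 17) (.b (.l 17) (.b (.l 17) .z)))))) (.b (.a (.b (.a (.b (.a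
.z (.b .z (.a .z (.l 13)))) (.a (.b (.a .z (.l 13)) (.l 13)) (.l 13))) (.l 13)) (.b (.b (.b (.a (.l 13) .z) .z) (.b (.l 36) .z)) (.b (.b .z (.a (.l
17) .z)) (.l 17)))) (.b (.b (.l 13) (.b (.l 13) (.b (.a (.l 13) (.a (.l 13) .z)) .z))) (.b (.b (.b .z (.l 36)) (.l 36)) (.b (.b (.l 36) .z) (.b .z (.a
(.l 17) .z)))))) (.l 17))))))

theorem vQ197 : ev Q197 I6_34 I5_28 = 364182565248675 := by decide +kernel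

noncomputable def Q222 : QT :=
(.b (.a (.b (.a (.b (.b (.a (.b .z (.a (.b .z (.a (.l 31) .z)) .z)) .z) (.a (.b (.a (.l 31) (.b (.a (.b .z (.l 31)) .z) (.l 31))) (.l 31)) (.b .z (.a
(.b (.a (.l 31) (.b .z (.l 31))) (.l 31)) (.b .z (.a (.b .z (.l 31)) .z)))))) (.b (.a (.l 31) (.b (.a (.l 31) (.b (.a (.l 31) (.b .z (.l 31))) (.l
31))) (.l 31))) (.l 31))) (.b (.a .z (.a (.b .z (.l 281)) .z)) (.a (.b (.b (.a (.b .z (.a (.l 31) .z)) .z) (.a (.l 31) (.b .z (.a (.l 31) .z)))) (.a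
(.b (.l 31) (.a (.l 31) (.b (.l 31) .z))) (.b (.a (.l 31) (.b (.l 31) .z)) .z))) (.b .z (.a .z (.b .z (.l 115))))))) (.b (.a (.b (.a (.l 31) (.b (.a
(.l 31) (.b (.l 31) (.a (.l 31) .z))) (.a (.b (.l 31) (.a (.l 31) .z)) .z))) (.a (.b (.a (.l 31) (.b (.l 31) (.a (.b (.l 31) .z) .z))) (.a (.b (.a (.l
31) (.b (.l 31) .z)) (.a (.b (.l 31) .z) .z)) .z)) .z)) (.a (.b (.a .z (.l 291)) .z) (.a .z (.a (.b (.a .z (.l 115)) .z) (.b (.l 115) .z))))) (.a (.b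
(.a .z (.a .z (.l 285))) .z) (.a .z (.a .z (.a (.b .z (.a .z (.l 75))) (.b .z (.a (.l 75) .z)))))))) (.b (.a (.b .z (.a (.b (.a .z (.b .z (.l 163)))
(.b (.b (.l 163) .z) (.b .z (.a .z (.l 75))))) (.b (.b (.a .z (.l 163)) (.l 163)) (.b (.l 163) .z)))) (.b (.a (.b (.b .z (.b .z (.b .z (.l 87)))) (.a
.z (.b (.b (.l 87) .z) .z))) (.b .z (.b (.l 87) (.a .z (.l 87))))) (.a (.b (.a (.b .z (.l 163)) .z) .z) .z))) (.a (.a (.a (.b (.b (.a .z (.b .z (.l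
75))) (.a (.b .z (.l 75)) (.l 75))) (.a (.b (.l 75) (.a .z (.l 75))) (.l 75))) (.l 75)) (.b (.b (.b (.b (.a (.l 75) .z) (.l 75)) (.l 75)) (.l 75)) (.l
75))) (.a (.b (.b (.b (.a .z (.b (.l 99) .z)) (.a (.l 75) (.b .z (.l 75)))) (.l 75)) (.l 75)) (.b (.b (.b .z (.a .z (.a .z (.l 79)))) (.b (.a (.b .z
(.l 75)) .z) (.a (.l 75) (.a (.l 75) .z)))) (.a (.l 75) (.b (.a (.a (.l 75) .z) (.a .z (.b .z (.l 62)))) (.a .z (.b (.a (.l 62) .z) .z))))))))) (.a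
(.b (.b (.a .z (.a .z (.a (.a (.b .z (.a .z (.l 75))) (.b (.a .z (.l 75)) (.l 75))) (.l 75)))) (.b (.b (.b (.b (.a .z (.a .z (.l 75))) .z) (.l 25))
(.l 25)) (.l 25))) (.a (.b (.l 25) (.a (.b (.l 25) (.a (.b (.a (.b .z (.a (.l 23) .z)) (.b (.l 25) (.a .z (.l 25)))) (.a (.l 23) (.b .z (.l 23)))) (.b
(.l 25) (.a (.b (.a .z (.l 25)) .z) (.l 25))))) (.l 25))) (.l 25))) (.b (.a (.b (.a (.a (.a (.b .z (.l 75)) (.b (.a .z (.l 75)) .z)) (.l 75)) (.l 75))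
(.b (.b (.b (.b (.a .z (.l 75)) .z) (.l 25)) (.l 25)) (.l 25))) (.a (.b (.l 75) (.a (.b (.b (.b .z (.l 25)) (.l 25)) (.a (.l 25) (.b (.l 25) (.a (.l
25) (.b (.l 25) .z))))) (.b (.a (.b (.b .z (.l 25)) (.l 25)) (.b (.a (.b .z (.l 25)) .z) .z)) (.a (.b (.a (.b (.l 25) .z) .z) .z) .z)))) (.b (.a (.b
(.a (.l 75) .z) .z) (.b (.a .z (.b (.l 91) .z)) .z)) .z))) (.a (.a (.l 25) (.b (.a (.l 25) (.b (.l 25) (.a (.l 25) (.b (.l 25) (.a (.b (.l 25) .z)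
.z))))) (.a (.b (.l 25) (.a (.l 25) (.b (.a (.l 25) (.b (.l 25) .z)) (.a (.b (.l 25) .z) .z)))) (.b (.a (.b (.a (.l 25) (.b (.l 25) .z)) (.a (.b (.l
25) .z) .z)) .z) .z)))) (.b (.a (.a (.b (.a (.b (.l 25) (.a (.l 25) .z)) (.b (.a (.b (.l 25) .z) .z) .z)) .z) .z) (.a (.a .z (.a .z (.l 97))) (.a (.b
.z (.l 97)) .z))) (.a (.b (.a (.l 291) .z) .z) (.b (.a .z (.a (.l 97) (.a (.l 97) .z))) (.a .z (.b (.l 97) .z)))))))))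

theorem vQ222 : ev Q222 I5_22 I5_24 = 534293760378346 := by decide +kernel

noncomputable def Q210 : QT :=
(.b (.a (.b (.b (.l 29) (.a (.b (.l 29) (.a (.b (.l 29) (.a (.b (.l 29) (.a (.l 29) .z)) (.b (.a (.l 29) .z) .z))) (.b (.a (.b (.l 29) (.a (.l 29)
.z)) (.b (.a (.l 29) .z) .z)) (.a (.b .z (.l 33)) (.l 33))))) (.b (.a (.b (.l 29) (.a (.b (.l 29) (.a (.l 29) .z)) (.b (.a (.l 29) .z) .z))) (.b (.a
(.b (.l 29) (.a (.l 29) .z)) (.b (.a (.l 29) .z) .z)) (.a (.b .z (.l 33)) (.l 33)))) (.a (.b (.a (.b .z (.l 33)) (.l 33)) (.l 33)) (.l 33))))) (.b (.a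
(.b (.a (.b (.b (.a .z (.l 33)) (.l 33)) (.l 33)) (.l 33)) (.l 33)) (.l 33)) (.b (.a (.l 33) (.b (.a (.l 33) (.a (.b (.l 33) .z) .z)) (.a (.b (.a (.l
33) .z) .z) (.b (.a .z (.l 65)) .z)))) (.a (.b (.a (.l 33) (.b (.a (.l 33) .z) .z)) (.a (.b (.a (.l 33) .z) .z) (.b .z (.l 69)))) (.b (.a (.b .z (.l
69)) .z) (.a (.b (.l 69) .z) (.b .z (.a .z (.l 39))))))))) (.b (.b (.a (.b (.l 29) (.a (.b (.l 29) (.a (.b (.l 29) (.a (.l 29) .z)) .z)) (.b (.a (.b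
(.l 29) .z) .z) (.a (.b .z (.l 33)) (.l 33))))) (.b (.a (.b (.a (.l 29) (.b (.l 29) (.a (.l 29) .z))) (.a (.b (.l 29) .z) .z)) (.b (.a (.b (.a (.l 29)
.z) .z) (.b .z (.l 33))) (.l 33))) (.a (.b (.a (.b .z (.l 33)) (.l 33)) (.l 33)) (.l 33)))) (.a (.b (.a (.b (.a (.b .z (.l 33)) (.l 33)) (.l 33)) (.l
33)) (.l 33)) (.l 33))) (.a (.b (.b (.l 33) (.a (.b (.l 33) (.a (.b (.l 33) .z) .z)) (.b (.a (.b (.l 33) .z) .z) (.a (.b .z (.l 65)) (.l 65))))) (.b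
(.a (.b (.a (.b .z (.l 65)) (.l 65)) (.a (.l 65) (.b (.l 65) .z))) (.b (.a (.l 65) (.b (.l 65) .z)) (.a .z (.b .z (.l 39))))) (.b (.a (.b .z (.a .z
(.l 39))) (.l 39)) (.l 39)))) (.b (.b (.a (.b (.l 33) (.a (.b (.l 33) .z) .z)) (.b (.a (.b (.l 33) .z) .z) (.a (.b .z (.l 65)) (.a (.l 65) .z)))) (.a
(.b (.a (.b .z (.l 65)) (.l 65)) (.a (.l 65) (.b (.l 65) .z))) (.b (.a (.a (.l 65) .z) .z) (.a .z (.b .z (.l 39)))))) (.a (.b (.b (.a .z (.b .z (.l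
39))) (.l 39)) (.a (.l 39) (.b (.l 39) .z))) (.b (.a (.b (.l 39) (.a (.l 39) .z)) (.b (.a (.l 39) .z) .z)) (.a (.b .z (.a .z (.l 35))) (.l 35))))))))
(.a (.b (.a (.b (.b (.b (.a (.b .z (.l 69)) (.b (.l 69) .z)) (.a (.b (.l 69) .z) (.b .z (.a .z (.l 39))))) (.b (.a (.b (.a .z (.l 39)) (.l 39)) (.l
39)) (.l 39))) (.l 39)) (.b (.b (.b (.a (.b .z (.a .z (.l 39))) (.l 39)) (.l 39)) (.l 39)) (.a (.l 39) (.b (.l 39) (.a (.l 39) (.b (.l 39) (.a (.l 39)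
.z))))))) (.a (.b (.l 39) (.a (.b (.l 39) (.a (.l 39) (.b (.l 39) (.a (.l 39) .z)))) (.b (.a (.l 39) (.b (.a (.l 39) .z) .z)) .z))) (.b (.a (.b (.l
39) (.a (.b (.l 39) (.a (.l 39) .z)) (.b .z (.a .z (.l 35))))) (.b (.a (.b (.a (.l 39) .z) .z) (.b .z (.l 35))) (.a (.b (.a .z (.l 35)) (.l 35)) (.l
35)))) (.a (.b (.a (.b .z (.l 35)) (.l 35)) (.a (.b (.a .z (.l 35)) .z) (.b (.a (.l 35) .z) .z))) (.b (.a (.b (.l 35) (.a (.l 35) .z)) .z) (.a (.b .z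
(.l 45)) (.l 45))))))) (.b (.a (.b (.a (.l 39) (.b (.a (.l 39) (.b (.l 39) (.a (.l 39) .z))) (.a (.b (.l 39) .z) (.b .z (.a .z (.l 35)))))) (.a (.b
(.a (.l 39) (.b (.a (.l 39) .z) .z)) (.a (.b .z (.a .z (.l 35))) (.b (.a .z (.l 35)) (.l 35)))) (.b (.a (.b (.a .z (.l 35)) (.l 35)) (.l 35)) (.a (.l
35) (.b (.l 35) .z))))) (.b (.a (.b (.a (.b (.a (.l 39) .z) .z) (.b (.a .z (.l 35)) (.l 35))) (.l 35)) (.b (.a (.l 35) (.b (.l 35) (.a (.l 35) .z)))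
(.a (.b (.l 35) .z) (.b .z (.a .z (.l 39)))))) (.a (.b (.a (.b (.l 35) (.a (.l 35) .z)) (.b (.a (.l 35) .z) .z)) (.a (.b .z (.a .z (.l 41))) (.b (.b
.z (.l 41)) (.l 41)))) (.b (.a (.b (.a .z (.l 39)) .z) (.b (.b (.l 39) .z) (.b .z (.l 41)))) (.l 41))))) (.a (.b (.a (.b (.a (.l 35) (.b (.l 35) (.a
(.l 35) .z))) (.a (.b (.l 35) .z) (.b .z (.a .z (.l 41))))) (.b (.a (.b (.a (.l 35) .z) .z) (.b (.a .z (.l 41)) (.l 41))) (.b (.l 41) (.b (.l 41) (.a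
(.l 41) .z))))) (.a (.b (.a (.b .z (.b .z (.l 45))) (.b .z (.l 45))) (.l 45)) (.b (.b (.b .z (.l 45)) (.l 45)) (.b (.l 45) (.b (.l 45) (.a (.l 45)
.z)))))) (.b (.b (.b (.l 41) (.a (.l 41) (.b (.l 41) (.a (.l 41) .z)))) (.b (.a (.b (.l 41) (.a (.l 41) .z)) (.b .z (.a .z (.l 45)))) (.a (.b .z (.a
.z (.l 45))) (.l 45)))) (.b (.l 45) (.b (.a (.l 45) (.b (.a (.l 45) .z) .z)) .z)))))))

theorem vQ210 : ev Q210 I5_19 I6_60 = 380275657594668 := by decide +kernel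

noncomputable def Q97 : QT :=
(.a (.b (.b (.b (.b (.a (.b (.b (.b (.a (.l 59) (.a (.l 59) .z)) .z) (.a (.b (.l 64) .z) (.l 64))) (.b (.a (.b (.a (.l 63) .z) (.l 63)) (.b .z (.a (.l
63) .z))) (.b (.l 63) .z))) (.b (.b (.b .z (.l 64)) (.l 64)) (.a (.b (.b (.l 64) .z) .z) (.b (.a (.l 64) (.b (.l 64) .z)) .z)))) (.a (.b (.a (.b (.l
68) (.b (.l 68) .z)) (.b (.l 68) .z)) (.a .z (.b .z (.b (.l 67) .z)))) (.b (.a (.b .z (.a .z (.l 67))) (.b (.l 67) (.b (.l 67) .z))) (.b (.b .z (.l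
67)) (.b (.l 67) .z))))) (.b (.b (.a (.b (.b (.a .z (.l 72)) .z) (.b .z (.a .z (.l 74)))) (.b (.l 72) (.a .z (.b (.l 72) .z)))) (.a (.a (.b (.l 74)
(.a (.l 74) .z)) (.b (.a (.l 74) .z) .z)) (.b (.a (.a .z (.l 77)) (.b .z (.l 77))) (.l 77)))) (.b (.b (.b .z (.a .z (.l 77))) (.b (.a (.l 77) .z) (.a
.z (.a .z (.l 82))))) (.l 82)))) (.b (.b (.a (.b (.b (.b (.a .z (.l 82)) .z) .z) (.a (.b (.b .z (.l 92)) (.a .z (.l 92))) (.b (.l 92) .z))) (.b (.b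
(.a (.l 82) (.b (.l 82) .z)) .z) .z)) (.a .z (.b (.b (.a .z (.b .z (.l 93))) .z) .z))) (.a (.b (.b (.b (.a (.b .z (.l 106)) .z) .z) .z) .z) (.b (.a .z
(.b (.a .z (.b .z (.l 108))) .z)) (.a (.b (.b (.b .z (.l 117)) .z) (.b (.b (.l 122) .z) (.b (.l 127) .z))) .z))))) (.b (.b (.b (.a (.b (.b (.b .z (.l
132)) .z) .z) (.b (.b (.a (.l 132) .z) .z) .z)) .z) .z) .z)) (.b (.a (.b (.b (.b (.b (.a (.b (.b .z (.l 64)) (.a (.b (.l 64) .z) .z)) .z) (.a (.b (.a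
.z (.l 67)) (.l 67)) (.l 67))) (.b (.b (.l 67) (.b (.l 67) .z)) (.b (.l 67) (.b .z (.a .z (.l 72)))))) (.b (.b (.a (.b (.l 72) (.a (.l 72) .z)) (.b .z
(.a .z (.l 65)))) (.b (.a .z (.b (.l 65) .z)) (.a (.l 77) (.b .z (.l 77))))) (.b (.b (.b .z (.l 77)) (.b .z (.l 82))) (.b (.a (.l 82) (.b (.l 82) .z))
(.a (.b (.l 82) .z) .z))))) (.b (.b (.b .z (.b (.a .z (.b .z (.l 93))) (.a (.b .z (.l 93)) (.l 93)))) (.b (.b .z (.b (.a .z (.l 98)) (.l 98))) (.b (.b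
(.a .z (.l 98)) .z) (.a .z (.b (.l 103) .z))))) (.b (.b (.b (.b .z (.l 108)) (.a (.l 108) (.b (.l 108) .z))) .z) .z))) (.b (.b (.a (.b (.a (.b .z (.a
(.l 67) .z)) (.b (.b .z (.l 59)) .z)) (.a (.b (.b (.l 67) .z) (.b (.l 67) .z)) .z)) (.b (.b (.b (.b (.l 68) .z) .z) (.b .z (.l 72))) (.a .z (.b .z (.b
(.l 73) .z))))) (.a (.b (.b (.b (.a (.b .z (.l 65)) (.l 65)) (.a (.l 65) (.b (.l 65) .z))) .z) (.b (.b (.b .z (.l 77)) .z) .z)) .z)) (.b (.b (.b .z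
(.b (.a (.l 93) (.b .z (.l 93))) (.l 93))) (.b (.b .z (.a (.l 98) .z)) .z)) (.b .z (.b (.b (.a .z (.b (.l 119) .z)) .z) .z))))) .z))

theorem vQ97 : ev Q97 I5_6 I5_31 = 151157298098308 := by decide +kernel

noncomputable def Q198 : QT :=
(.b (.a (.b (.b (.b (.b (.a (.l 11) (.b (.l 11) (.a (.l 11) (.b (.a (.l 11) .z) .z)))) (.a (.b (.l 11) (.a (.l 11) (.b (.a (.l 11) .z) .z))) (.b (.a
(.b (.a (.l 11) .z) .z) (.b .z (.l 47))) (.a (.b .z (.l 47)) (.l 47))))) (.b (.a (.b (.a (.b (.a (.a (.l 11) .z) .z) .z) (.b .z (.l 47))) (.l 47)) (.l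
47)) (.a (.l 47) (.a (.l 47) (.b (.a (.l 47) .z) .z))))) (.b (.a (.b (.l 47) (.a (.l 47) (.b (.a (.l 47) .z) .z))) (.b (.a (.b (.a (.l 47) .z) .z) .z)
(.a (.b .z (.l 101)) (.a (.l 101) .z)))) (.a (.b (.a (.b (.a (.l 47) .z) .z) (.b .z (.l 101))) (.a (.b .z (.l 101)) (.l 101))) (.l 101)))) (.a (.b (.a
(.b (.a .z (.l 101)) (.a (.b .z (.l 122)) .z)) (.b (.l 101) (.a (.b (.l 101) .z) (.l 101)))) (.a (.b (.b (.l 122) (.b (.l 122) .z)) (.b (.b .z (.l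
107)) .z)) (.b (.a .z (.b (.l 101) .z)) .z))) (.b (.a (.l 101) (.b (.l 101) (.a (.b (.l 101) .z) (.b .z (.a (.b .z (.a .z (.l 13))) (.b (.a .z (.l
13)) (.l 13))))))) (.a (.b (.a (.l 101) (.b .z (.a .z (.b .z (.l 13))))) (.a (.b (.a .z (.b .z (.a .z (.l 13)))) (.a (.b (.a .z (.l 13)) (.l 13)) (.l
13))) (.b (.a (.b (.a .z (.l 13)) (.l 13)) (.l 13)) (.l 13)))) (.b (.a (.b (.a .z (.b (.a .z (.l 13)) (.l 13))) (.l 13)) (.l 13)) (.l 13)))))) (.b (.a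
(.b (.b (.b (.b (.a (.b (.a (.l 11) (.a (.l 11) .z)) (.a (.a (.l 11) .z) .z)) (.b .z (.l 47))) (.a (.b .z (.l 47)) (.l 47))) (.a (.l 47) (.b (.a (.l
47) .z) .z))) (.b (.a (.b (.a (.l 47) .z) .z) (.b .z (.l 115))) (.a .z (.l 115)))) (.a (.b .z (.b .z (.l 101))) (.b (.a (.l 115) (.b (.l 115) .z)) (.a
(.b .z (.a .z (.b .z (.a .z (.l 13))))) (.b (.a .z (.b .z (.l 13))) (.l 13)))))) (.b (.a (.b (.b (.b (.a (.l 47) .z) .z) (.b .z (.l 115))) (.a (.l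
115) (.b (.l 115) .z))) (.b (.a (.b .z (.l 115)) (.b (.l 115) (.a .z (.b .z (.a .z (.l 13)))))) (.a (.b .z (.a (.b .z (.l 13)) (.l 13))) (.b (.a (.b
.z (.l 13)) (.l 13)) (.l 13))))) (.a (.b (.a (.b .z (.a (.b .z (.a .z (.l 13))) (.b (.a .z (.l 13)) (.l 13)))) (.b (.a (.b .z (.a .z (.l 13))) (.b (.a
.z (.l 13)) (.l 13))) (.l 13))) (.l 13)) (.l 13)))) (.a (.b (.a (.b (.a (.b (.l 101) .z) (.b (.a .z (.b .z (.a .z (.l 13)))) (.a (.b (.a .z (.l 13))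
(.l 13)) (.l 13)))) (.a (.b (.a (.b .z (.l 13)) (.l 13)) (.l 13)) (.l 13))) (.b (.a (.b (.a (.b (.a .z (.l 13)) (.l 13)) (.l 13)) (.l 13)) (.l 13))
(.l 13))) (.l 13)) (.l 13)))) (.a (.b (.a (.b (.a (.b (.a (.b .z (.l 55)) (.b (.b .z (.l 55)) (.a (.l 55) .z))) (.a (.b (.a (.l 55) .z) (.a .z (.b .z
(.a .z (.l 13))))) (.b (.a .z (.b .z (.l 13))) (.l 13)))) (.b (.a (.b (.a (.l 55) .z) (.a (.b .z (.a .z (.l 13))) (.b (.a .z (.l 13)) (.l 13)))) (.b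
(.a (.b .z (.l 13)) (.l 13)) (.l 13))) (.l 13))) (.a (.b (.a (.b (.a (.b (.a .z (.l 13)) (.l 13)) (.l 13)) (.l 13)) (.l 13)) (.l 13)) (.l 13))) (.l
13)) (.b (.b (.b (.a (.b (.l 13) (.a (.l 13) (.b (.l 13) (.a (.l 13) (.a (.l 13) .z))))) (.b (.a (.l 13) (.b (.a (.l 13) (.a (.l 13) .z)) (.a (.a (.l
13) .z) .z))) (.a (.b (.a (.l 13) .z) .z) (.b .z (.l 36))))) (.a (.b (.a (.b (.l 13) (.a (.l 13) .z)) (.b (.a (.a (.l 13) .z) .z) .z)) (.a (.b .z (.l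
36)) (.l 36))) (.l 36))) (.b (.l 36) (.a (.b (.l 36) (.a (.b (.l 36) .z) (.l 36))) (.l 36)))) (.b (.b (.a (.b (.a (.b .z (.l 17)) .z) (.a (.l 17) (.b
(.a (.l 17) .z) (.l 17)))) (.b (.l 36) (.a .z (.l 36)))) (.a (.l 17) (.b (.a (.b (.a (.l 17) .z) (.l 17)) .z) (.a (.l 17) (.b (.a (.l 17) .z) (.l
17)))))) (.l 17)))) (.b (.b (.l 13) (.b (.l 13) (.b (.a (.l 13) (.b (.l 13) (.a (.l 13) (.b (.a (.l 13) (.a (.l 13) .z)) .z)))) (.a (.b (.a (.l 13)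
(.b (.l 13) (.a (.l 13) (.a (.l 13) .z)))) (.a (.b (.l 13) (.a (.l 13) .z)) .z)) (.b (.a (.b (.a (.l 13) .z) .z) (.b .z (.l 36))) (.l 36)))))) (.b (.b
(.b (.a (.b (.a (.b .z (.l 36)) (.l 36)) (.l 36)) (.l 36)) (.l 36)) (.l 36)) (.b (.b (.l 36) (.a (.a (.b (.l 36) .z) (.l 36)) (.l 36))) (.a (.b (.a
(.b (.a (.l 17) (.b .z (.l 17))) (.l 17)) (.b .z (.a (.l 17) (.b .z (.l 17))))) (.l 17)) (.b (.a (.b (.l 36) .z) (.b (.l 36) (.b .z (.a .z (.l 19)))))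
(.a (.b (.a (.l 17) (.b .z (.l 17))) (.l 17)) (.b (.a .z (.l 19)) (.a (.b .z (.l 17)) .z))))))))))

theorem vQ198 : ev Q198 I6_35 I5_28 = 401256512087393 := by decide +kernel

noncomputable def Q156 : QT :=
(.b (.b (.a (.b (.a (.b (.b (.b (.b (.a .z (.a .z (.l 65))) (.l 65)) (.l 65)) (.b (.a .z (.b (.l 65) (.a .z (.l 65)))) .z)) (.a (.b (.b (.b .z (.l
71)) (.l 71)) .z) (.b (.a (.b (.l 71) .z) .z) .z))) (.b (.a (.b (.a (.l 65) (.b (.l 65) (.a (.l 65) .z))) (.a (.b (.l 65) .z) .z)) (.b (.a (.b (.a (.l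
65) .z) .z) .z) .z)) (.a (.b (.a .z (.b .z (.l 68))) .z) (.b (.a (.b (.l 68) .z) .z) (.a (.b .z (.l 69)) (.l 69)))))) (.a (.b (.a (.b (.a .z (.b .z
(.l 74))) (.a .z (.b (.l 74) .z))) (.b (.a (.b .z (.l 74)) .z) (.a .z (.b .z (.l 75))))) (.a (.b .z (.b (.l 81) .z)) (.b .z (.b (.b (.l 81) .z) .z))))
(.b (.a (.b .z (.b (.l 75) (.b (.l 75) .z))) (.b (.b .z (.b (.l 73) .z)) (.b .z (.b (.l 75) .z)))) (.b (.b (.b .z (.a .z (.l 79))) (.a (.b (.l 79) .z)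
(.l 79))) (.a (.b .z (.b .z (.l 85))) .z))))) (.b (.a (.b (.a (.b .z (.a .z (.b .z (.b (.l 63) .z)))) (.b (.a (.b .z (.a .z (.l 63))) (.b (.a .z (.l
63)) (.l 63))) (.b (.l 63) (.b .z (.a .z (.l 63)))))) (.b (.b (.a .z (.b .z (.l 67))) (.a .z (.b (.l 67) .z))) (.b (.a (.l 69) (.b .z (.l 69))) (.b
(.l 69) .z)))) (.b (.b (.b (.a (.l 63) (.b (.a (.l 63) .z) (.l 63))) (.l 63)) (.b (.b (.l 63) (.a (.l 63) .z)) .z)) (.b (.b (.b (.a .z (.l 67)) (.l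
67)) (.l 67)) (.a .z (.b (.l 67) .z))))) (.b (.a (.b (.b (.b .z (.a .z (.l 73))) (.l 73)) (.a (.b (.b (.l 73) .z) .z) (.b (.a (.l 73) .z) .z))) (.b
(.a (.b (.b .z (.l 73)) .z) .z) (.a (.b .z (.b .z (.l 77))) (.b .z (.b .z (.l 77)))))) (.a (.b (.a .z (.b (.a .z (.l 77)) .z)) (.a (.b .z (.l 83)) (.b
(.b (.l 81) .z) (.b .z (.l 83))))) (.b (.b (.b (.l 77) (.a (.l 77) .z)) (.b .z (.a .z (.l 81)))) (.a (.b (.l 81) .z) (.b (.l 81) .z))))))) (.a (.b (.a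
(.b (.b (.b (.a .z (.b (.l 85) .z)) (.a (.b (.l 87) .z) .z)) (.a (.b (.b .z (.l 91)) .z) (.a (.b (.l 91) .z) .z))) .z) (.b (.a (.b (.b (.a (.l 85) .z)
.z) (.a .z (.b (.l 89) .z))) (.b .z (.b (.l 89) .z))) (.b (.a .z (.b (.b (.l 93) .z) .z)) (.a (.b (.b (.l 99) .z) .z) .z)))) (.b (.a (.b (.a .z (.b
(.b (.l 105) .z) .z)) .z) (.b .z (.a .z (.b (.b .z (.l 109)) (.b .z (.l 113)))))) .z)) (.b (.b (.a (.b (.b .z (.a .z (.l 87))) (.a (.b .z (.b .z (.l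
93))) .z)) .z) (.a (.b (.a (.b (.a (.l 93) .z) .z) .z) (.a (.b (.a (.l 96) .z) .z) .z)) (.b (.a .z (.b .z (.b (.l 95) .z))) (.a (.b .z (.b .z (.l
101))) .z)))) (.b (.a (.b (.b .z (.b .z (.a .z (.l 107)))) .z) .z) .z)))) .z)

theorem vQ156 : ev Q156 I5_12 I5_31 = 109194911377935 := by decide +kernel

noncomputable def Q166 : QT :=
(.b (.a (.b (.b (.b (.a (.b (.a (.b (.a (.b .z (.l 62)) .z) (.l 62)) (.b (.a .z (.b (.l 61) .z)) .z)) (.a .z (.b .z (.a .z (.b .z (.l 65)))))) (.b (.a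
(.b (.a (.b (.l 61) .z) .z) .z) (.b (.b (.l 64) .z) .z)) (.a (.b (.a .z (.l 71)) .z) (.l 71)))) (.a (.b (.a .z (.b (.b (.l 65) (.a (.l 65) .z)) (.b .z
(.l 70)))) (.b (.l 70) (.b (.l 70) .z))) (.a (.b (.b (.a (.b (.l 65) .z) .z) (.l 70)) (.b (.l 70) .z)) (.b .z (.a (.b (.l 70) .z) .z))))) (.b (.a (.b
(.b (.b .z (.a .z (.l 77))) (.l 77)) (.a (.b (.l 77) (.a (.l 77) .z)) .z)) (.b (.a (.b (.b .z (.l 77)) .z) .z) (.a (.b (.a .z (.l 78)) (.b (.l 78)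
.z)) (.b (.l 78) .z)))) (.a (.b (.a .z (.b .z (.l 85))) (.a (.b .z (.l 84)) (.b .z (.a (.l 84) .z)))) (.b (.a (.b (.b .z (.l 85)) (.l 85)) (.b (.b .z
(.l 85)) (.a (.l 85) .z))) (.a (.b (.a (.l 85) .z) .z) .z))))) (.b (.b (.a (.b (.a (.b .z (.a (.l 91) .z)) .z) .z) (.b (.a .z (.b (.l 93) .z)) (.a (.b
(.b .z (.l 92)) .z) .z))) (.a (.b (.a .z (.b (.l 99) .z)) (.a (.b (.b (.l 98) .z) .z) .z)) .z)) (.b (.a (.b (.b .z (.b .z (.a .z (.l 113)))) (.b (.a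
(.b (.l 113) .z) .z) .z)) (.b .z (.b .z (.a (.b .z (.l 121)) .z)))) .z))) (.b (.b (.a (.b (.b (.a (.b .z (.b .z (.l 71))) (.b .z (.a (.l 71) .z))) (.a
(.b (.a (.l 71) .z) .z) .z)) (.a (.b .z (.a .z (.b (.l 79) .z))) (.b .z (.b (.l 79) .z)))) (.b (.a (.b .z (.b .z (.l 72))) (.b (.a .z (.b .z (.l 81)))
(.a (.b .z (.l 72)) .z))) (.b (.a (.b .z (.b .z (.l 79))) .z) (.a .z (.b .z (.a .z (.l 80))))))) (.a (.b (.a (.b (.a (.b (.l 73) .z) .z) (.b (.l 78)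
.z)) .z) (.b (.a .z (.b .z (.l 86))) (.a (.b (.b (.l 86) .z) (.b .z (.l 93))) (.b .z (.a (.l 93) .z))))) (.b (.a (.b (.b .z (.b .z (.l 87))) (.a (.b
(.l 87) .z) .z)) (.b (.b .z (.a (.l 87) .z)) .z)) (.a (.b (.a (.b .z (.l 86)) .z) .z) (.b (.a .z (.b (.l 95) .z)) .z))))) (.b (.a (.b (.b (.a (.b (.a
(.l 93) .z) .z) .z) (.a (.b (.a .z (.l 101)) .z) (.b (.l 101) .z))) .z) (.b (.a (.b (.b (.l 94) .z) .z) (.b .z (.b (.b .z (.l 102)) .z))) (.b (.b (.a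
(.b .z (.l 109)) .z) .z) (.a .z (.b (.b (.l 117) .z) .z))))) .z))) .z)

theorem vQ166 : ev Q166 I5_14 I5_31 = 87735829838805 := by decide +kernel

noncomputable def Q174 : QT :=
(.a (.b (.a .z (.b .z (.a .z (.b .z (.a (.b .z (.l 492)) .z))))) (.a (.b (.b (.b .z (.b (.b .z (.l 47)) (.l 47))) (.l 47)) (.a (.l 47) (.b (.l 47) (.a
(.b (.l 47) (.a (.b (.l 47) (.a (.l 47) .z)) (.b (.a (.l 47) .z) .z))) (.b (.a (.b (.l 47) (.a (.l 47) .z)) (.b (.a (.l 47) .z) .z)) (.a (.b .z (.l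
72)) (.l 72))))))) (.b (.a (.b (.b (.a .z (.l 492)) (.b (.b .z (.l 47)) (.l 47))) (.l 47)) (.b (.b (.l 492) (.b (.b .z (.l 47)) (.l 47))) (.a (.b (.l
47) (.a (.b (.l 47) (.a (.l 47) .z)) (.b (.a (.l 47) .z) .z))) (.b (.a (.b (.l 47) (.a (.l 47) .z)) (.b (.a (.l 47) .z) .z)) .z)))) (.a (.b (.a (.b
(.l 47) (.a (.b (.l 47) (.a (.l 47) .z)) (.b (.a (.l 47) .z) .z))) (.b (.a (.b (.l 47) (.a (.l 47) .z)) (.b (.a (.l 47) .z) .z)) .z)) (.a (.b (.a (.b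
.z (.l 72)) .z) .z) (.b (.a .z (.l 211)) (.l 211)))) (.b (.a (.b .z (.a (.l 211) .z)) .z) (.a (.a (.l 211) .z) (.a .z (.l 297)))))))) (.b .z (.a (.b
(.a (.b (.a (.b .z (.a (.b (.b .z (.l 47)) (.a (.l 47) .z)) .z)) .z) .z) .z) (.b (.a (.a (.l 297) .z) .z) (.a (.a (.l 297) .z) .z))) .z)))

theorem vQ174 : ev Q174 I5_18 I5_18 = 187872914551880 := by decide +kernel

noncomputable def Q144 : QT :=
(.a (.b (.l 9) (.b (.b (.l 9) (.b (.b (.l 9) (.b (.b (.l 9) (.b .z (.l 5))) (.l 5))) (.l 5))) (.l 5))) (.b (.l 9) (.a (.b (.b (.l 9) (.b (.b (.l 9)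
(.b (.b (.l 9) (.b .z (.l 5))) (.l 5))) (.l 5))) (.a (.l 5) (.b (.l 5) (.a (.l 5) (.b (.l 5) (.a (.b (.l 5) (.a (.l 5) (.b (.l 5) (.a (.l 5) (.b (.l
5) (.a (.l 5) (.b (.l 5) .z))))))) (.b (.a (.l 5) (.b (.l 5) (.a (.l 5) (.b (.a (.l 5) (.b (.l 5) .z)) (.a (.b (.l 5) .z) .z))))) (.a (.b (.a (.l 5)
(.b (.l 5) (.a (.b (.l 5) .z) .z))) (.a (.b (.a (.l 5) (.b (.l 5) .z)) .z) .z)) (.b (.a (.b (.a (.b (.l 5) .z) .z) .z) .z) (.l 83)))))))))) (.b (.a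
(.b (.l 9) (.b (.b (.l 9) (.b (.b (.l 9) (.b .z (.l 5))) (.l 5))) (.l 5))) (.b (.l 9) (.a (.b (.b (.l 9) (.b (.b (.l 9) (.b .z (.l 5))) (.l 5))) (.a
(.l 5) (.b (.l 5) (.a (.l 5) (.b (.l 5) (.a (.b (.l 5) (.a (.l 5) (.b (.l 5) .z))) (.b (.a (.l 5) (.b (.l 5) .z)) .z))))))) (.b (.a (.b (.l 9) (.b (.b
(.l 9) (.b .z (.l 5))) (.l 5))) (.b (.l 9) (.a (.b (.b (.l 9) (.b .z (.l 5))) (.a (.l 5) (.b (.l 5) (.a (.l 5) (.b (.l 5) .z))))) (.b (.a (.b (.l 9)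
(.b .z (.l 5))) (.b (.l 9) .z)) (.a (.b (.a (.l 5) .z) .z) .z))))) (.a (.b (.a (.l 5) (.b (.a (.l 5) (.b (.l 5) (.a (.l 5) (.b (.l 5) .z)))) (.a (.b
(.l 5) (.a (.b (.l 5) .z) .z)) (.b (.a (.b (.l 5) .z) .z) .z)))) (.a (.b (.a (.b (.l 5) (.a (.l 5) .z)) (.b (.a (.b (.l 5) .z) .z) .z)) .z) .z)) (.b
(.a (.b (.a (.b (.a (.l 5) (.b (.l 5) .z)) .z) .z) .z) .z) (.a .z (.l 139)))))))) (.a (.b (.a (.l 5) (.b (.a (.l 5) (.b (.l 5) (.a (.l 5) (.b (.l 5)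
(.a (.l 5) (.b (.l 5) (.a (.l 5) (.b (.l 5) .z)))))))) (.a (.b (.l 5) (.a (.b (.l 5) (.a (.l 5) (.b (.l 5) (.a (.b (.l 5) .z) .z)))) (.b (.a (.b (.l
5) (.a (.l 5) (.b (.l 5) .z))) (.b (.a (.l 5) (.b (.l 5) .z)) .z)) .z))) (.b (.a (.b (.l 5) (.a (.b (.l 5) (.a (.l 5) .z)) (.b (.a (.b (.l 5) .z) .z)
.z))) (.b (.a (.b (.l 5) (.a (.b (.l 5) .z) .z)) (.b (.a (.b (.l 5) .z) .z) .z)) .z)) (.a (.b .z (.l 83)) (.l 83)))))) (.a (.b (.a (.b (.l 5) (.a (.l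
5) (.b (.l 5) (.a (.b (.l 5) (.a (.b (.l 5) .z) .z)) (.b (.a (.b (.l 5) .z) .z) .z))))) (.b (.a (.b (.l 5) (.a (.l 5) (.b (.l 5) (.a (.l 5) (.b (.l 5)
.z))))) (.b (.a (.l 5) (.b (.l 5) (.a (.b (.l 5) .z) .z))) (.a (.b (.a (.l 5) (.b (.l 5) .z)) .z) .z))) (.a (.b (.a (.b (.a (.l 5) (.b (.l 5) .z)) (.a
(.b (.l 5) .z) .z)) .z) .z) (.l 83)))) (.a (.b (.a (.b (.a (.b (.l 5) (.a (.l 5) (.b (.l 5) .z))) (.b (.a (.l 5) (.b (.l 5) .z)) .z)) .z) (.b .z (.l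
83))) (.l 83)) (.l 83))) (.b (.a (.b (.a (.b (.a (.b (.a (.b (.l 5) .z) .z) .z) .z) (.l 83)) (.l 83)) (.l 83)) (.l 83)) (.a (.l 83) (.a (.l 83) (.b
(.l 83) .z)))))) (.b (.a (.b (.a (.b (.a (.l 5) (.b (.l 5) (.a (.l 5) (.b (.l 5) (.a (.b (.l 5) .z) .z))))) (.a (.b (.a (.l 5) (.b (.l 5) (.a (.l 5)
(.b (.l 5) .z)))) (.a (.b (.a (.l 5) (.b (.l 5) .z)) .z) .z)) (.b (.a (.b (.a (.l 5) .z) .z) .z) (.l 83)))) (.b (.a (.b (.a (.l 5) (.b (.a (.l 5) (.b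
(.l 5) .z)) (.a (.b (.l 5) .z) .z))) (.a (.b (.a (.b (.l 5) .z) .z) .z) .z)) (.b .z (.l 83))) (.l 83))) (.a (.l 83) (.a (.b (.l 83) .z) .z))) (.a (.b
(.a (.b (.a (.l 83) .z) .z) (.b .z (.l 139))) (.a (.b .z (.l 139)) (.l 139))) (.l 139))) (.a (.a (.b (.a (.b (.l 83) (.a (.l 83) .z)) (.b (.a (.l 83)
.z) .z)) (.a .z (.l 139))) (.b (.a (.b .z (.l 139)) (.l 139)) (.l 139))) (.l 139))))))))

theorem vQ144 : ev Q144 I4_7 I4_10 = 3839058917101813 := by decide +kernel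

noncomputable def Q236 : QT :=
(.a (.b (.b (.a (.b (.b (.b .z (.a (.b (.a (.l 83) .z) .z) .z)) (.b .z (.a (.b .z (.b .z (.l 95))) (.b .z (.a (.l 95) .z))))) (.b (.b (.a (.b (.l 95)
.z) .z) (.a .z (.b .z (.b .z (.l 107))))) (.a .z (.b (.a (.b (.l 107) .z) .z) .z)))) (.b (.a (.b (.b .z (.b .z (.b (.l 83) .z))) .z) (.b (.a (.b .z
(.b (.l 83) .z)) .z) .z)) (.b (.b .z (.a (.b .z (.a (.l 107) .z)) .z)) (.a (.b .z (.a .z (.b (.l 119) .z))) .z)))) (.b (.a (.b .z (.b (.a (.b .z (.b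
.z (.l 127))) .z) .z)) (.b (.a .z (.b (.b (.b .z (.l 131)) .z) .z)) .z)) .z)) .z) (.b (.b (.a (.b (.a (.b (.a .z (.b .z (.b (.l 111) .z))) .z) (.b (.b
.z (.b (.a (.l 111) .z) .z)) (.a .z (.b (.b .z (.l 123)) .z)))) .z) .z) .z) .z))

theorem vQ236 : ev Q236 I5_20 I5_31 = 15259960446619 := by decide +kernel

end Pool.Agent.Helper64.SPW.Dat
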