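import Pool.Agent.Helper64.SPW.Iv

/-! Boxes of traces, part 13 (data and kernel evaluation). -/

set_option maxRecDepth 1000000
set_option maxHeartbeats 0

namespace Pool.Agent.Helper64.SPW.Dat

noncomputable def Q63 : QT :=
(.a (.b (.a (.b (.a (.l 20) (.b (.a (.l 20) (.b (.a (.b (.a (.l 20) (.b .z (.l 20))) (.l 20)) (.b .z (.a (.l 20) (.b .z (.a (.l 20) .z))))) (.l 20)))
(.l 20))) (.l 20)) (.b (.a (.b (.a (.b (.a (.b (.l 214) .z) (.l 214)) (.a (.b (.a (.b (.a (.l 20) .z) (.l 20)) (.b .z (.a (.l 20) .z))) (.l 20)) (.b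
.z (.a (.b (.a (.l 20) .z) (.l 20)) .z)))) (.b (.a (.l 214) (.a (.l 214) .z)) (.a (.b (.l 214) .z) (.l 214)))) (.a (.l 20) (.b (.a (.b (.a (.b .z (.a
(.l 20) .z)) .z) (.a (.l 20) (.b (.a (.l 20) .z) (.l 20)))) (.b (.l 214) .z)) (.a (.l 20) (.b (.a (.l 20) (.b .z (.a (.l 20) .z))) (.l 20)))))) (.b .z
(.a (.b (.a (.a (.l 214) .z) .z) (.a (.b .z (.a (.b (.a (.l 20) .z) (.l 20)) .z)) .z)) .z))) (.a (.b (.l 20) (.a (.l 20) (.b (.l 20) (.a (.b (.l 20)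
(.a (.l 20) (.b (.l 20) (.a (.l 20) .z)))) (.b (.a (.b (.l 20) (.a (.l 20) .z)) (.b .z (.a .z (.l 24)))) (.a (.b .z (.a .z (.l 24))) (.l 24))))))) (.b
(.a (.b (.a (.b (.a (.l 20) (.b (.a (.l 20) .z) (.l 20))) (.l 20)) (.b (.a (.b .z (.a (.l 20) .z)) .z) (.a (.l 20) (.b .z (.a (.l 20) .z))))) (.a (.l
20) (.b (.a (.l 20) (.b (.l 20) (.a (.l 20) .z))) (.a (.b (.l 20) .z) (.b .z (.a .z (.l 24))))))) (.b .z (.a (.b (.a (.b .z (.a .z (.l 24))) .z) (.a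
(.l 24) (.b (.a (.l 24) .z) (.l 24)))) .z))) (.a (.b (.a (.b (.a (.l 20) (.b (.a (.l 20) .z) .z)) (.a (.b (.a (.l 20) .z) .z) (.b (.a .z (.l 24)) (.l
24)))) (.b (.a (.b (.a .z (.l 24)) (.l 24)) (.l 24)) (.l 24))) (.a (.b (.a (.b (.a .z (.l 24)) (.l 24)) (.l 24)) (.l 24)) (.l 24))) (.b (.a (.l 24)
(.b (.a (.b (.a (.l 24) .z) (.l 24)) .z) (.a (.l 24) (.b (.a (.l 24) .z) (.l 24))))) (.l 24))))))) (.a (.b (.a (.b (.l 20) (.b (.l 20) (.b (.l 20) (.b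
(.a (.b (.a .z (.l 20)) .z) (.b (.l 20) (.a (.a .z (.l 20)) (.l 20)))) (.a (.l 37) (.b (.a .z (.a .z (.l 20))) (.a (.l 37) .z))))))) (.b (.l 20) (.a
(.b (.l 20) (.a (.b (.l 20) (.b (.l 20) (.b (.l 20) (.a .z (.l 20))))) (.b (.l 20) (.a (.l 20) (.b (.l 20) (.a (.l 20) .z)))))) (.b (.a (.l 20) (.b
(.a (.l 20) (.b (.l 20) .z)) (.a (.b (.a (.l 20) .z) .z) (.b (.a .z (.l 24)) (.l 24))))) (.a (.b (.a (.b (.l 20) (.a (.l 20) .z)) (.b (.a (.l 20) .z)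
.z)) (.a (.b .z (.a .z (.l 24))) (.l 24))) (.b (.a (.b (.a .z (.l 24)) (.l 24)) (.l 24)) (.l 24))))))) (.a (.b (.a (.l 37) (.b (.l 37) (.a (.l 37) (.b
(.a (.l 37) (.b (.l 37) .z)) (.a (.b (.l 37) .z) (.b .z (.a .z (.l 24)))))))) (.a (.b (.a (.l 37) (.b (.l 37) (.a (.l 37) (.b (.l 37) .z)))) (.a (.b
(.l 37) (.a (.l 37) .z)) (.b (.a (.b (.l 37) .z) (.b .z (.a .z (.l 24)))) (.a (.b .z (.l 24)) (.l 24))))) (.b (.a (.b (.a (.l 37) .z) (.a .z (.b (.a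
.z (.l 24)) (.l 24)))) (.b (.a (.b .z (.l 24)) (.l 24)) (.l 24))) (.l 24)))) (.b (.a (.b (.a (.b (.b (.b .z (.l 37)) (.l 37)) (.a (.l 37) .z)) (.b (.a
.z (.b .z (.a .z (.l 24)))) (.a (.b (.a .z (.l 24)) (.l 24)) (.l 24)))) (.a (.b (.a (.b .z (.a .z (.l 24))) (.b (.a .z (.l 24)) (.l 24))) (.l 24)) (.l
24))) (.l 24)) (.l 24)))) (.b (.a (.b (.a (.b (.a (.l 20) (.b (.l 20) (.a (.l 20) (.b (.a (.l 20) .z) .z)))) (.a (.b (.a (.l 20) (.b (.l 20) (.a (.l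
20) .z))) (.a (.b (.l 20) (.a (.l 20) .z)) (.b .z (.a .z (.l 24))))) (.b (.a (.b (.a (.l 20) .z) .z) (.b (.a .z (.l 24)) (.l 24))) (.l 24)))) (.b (.a
(.b (.a (.b (.l 20) .z) (.b .z (.a .z (.l 24)))) (.a (.b (.a .z (.l 24)) (.l 24)) (.l 24))) (.l 24)) (.l 24))) (.a (.b (.a (.b (.a (.b .z (.a .z (.l
24))) (.l 24)) (.l 24)) (.l 24)) (.l 24)) (.l 24))) (.l 24)) (.l 24)))) (.b (.a (.b (.a .z (.b .z (.a .z (.b (.b (.a (.l 127) .z) (.b (.l 127) .z))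
.z)))) (.a (.a (.b .z (.a (.b .z (.a (.b (.b (.a (.l 24) .z) (.l 24)) (.l 24)) (.b .z (.a (.l 24) (.b .z (.l 24)))))) .z)) (.a .z (.a (.b .z (.a (.b
.z (.l 78)) (.l 78))) (.b (.b .z (.l 78)) (.l 78))))) (.a (.a (.b (.b (.b (.b .z (.l 78)) (.l 78)) (.l 78)) (.l 78)) (.a (.b (.a (.l 78) (.b .z (.l
78))) (.l 78)) (.b .z (.a (.b .z (.l 78)) .z)))) (.b .z (.b .z (.b .z (.a .z (.b .z (.l 93))))))))) .z) (.a (.b (.a (.a (.b (.a (.l 24) (.b (.a (.b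
(.a (.l 24) (.b .z (.l 24))) (.l 24)) (.b .z (.a (.l 24) (.b .z (.l 24))))) (.l 24))) (.l 24)) (.b (.a (.b (.a .z (.a .z (.l 78))) (.a (.b (.a (.l 24)
(.b .z (.l 24))) (.l 24)) (.b .z (.a (.b .z (.l 24)) .z)))) (.b (.l 78) (.a (.b (.l 78) .z) (.l 78)))) (.a (.l 24) (.b (.a (.b (.a (.b .z (.l 24)) .z)
(.l 24)) .z) (.a (.l 24) (.b (.a (.l 24) (.b .z (.l 24))) (.l 24))))))) (.a (.b (.a (.l 78) (.a (.l 78) (.a (.l 78) (.a (.l 78) .z)))) (.a (.b (.l 78)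
(.a (.b .z (.a (.l 24) .z)) (.b (.l 78) .z))) (.l 78))) (.a (.a (.a (.b .z (.a (.l 78) .z)) (.b (.b (.l 93) .z) .z)) (.b (.b (.l 93) .z) .z)) (.b (.a
(.b (.l 93) .z) (.b (.l 93) .z)) .z)))) (.a (.l 24) (.b (.a (.a (.b (.a (.l 24) (.b (.a (.b .z (.l 24)) .z) (.l 24))) (.l 24)) (.b (.a .z (.l 78)) (.a
(.b (.a (.l 24) (.b .z (.l 24))) (.l 24)) (.b .z (.a (.b .z (.l 24)) .z))))) (.a (.a (.a (.l 78) (.a (.l 78) .z)) .z) .z)) (.a (.b (.a (.l 24) (.a (.l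
24) (.b (.a (.l 24) (.b .z (.l 24))) (.l 24)))) (.a (.l 24) (.b (.l 24) (.a (.b (.l 24) (.a (.l 24) .z)) (.b (.a (.l 24) .z) .z))))) (.b (.a (.b .z
(.a (.a (.l 24) .z) .z)) .z) (.a (.b (.a (.b (.l 24) .z) .z) (.a (.b .z (.l 46)) (.l 46))) (.b .z (.b (.a (.l 46) .z) (.l 46))))))))) (.b (.a (.b (.a
(.a (.a .z (.l 222)) .z) (.a (.b .z (.a .z (.l 192))) (.b .z (.a (.l 192) .z)))) (.a (.a (.b (.l 222) (.a (.l 222) .z)) .z) (.b (.a (.a .z (.l 192))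
(.a (.l 192) .z)) (.a (.a .z (.l 192)) (.b (.l 192) .z))))) .z) (.a (.b .z (.a (.b .z (.b (.b (.b .z (.l 124)) (.l 124)) (.a (.b .z (.a (.l 46) .z))
(.b (.l 124) .z)))) (.b (.b .z (.b .z (.b .z (.l 124)))) (.l 124)))) (.b (.a .z (.a .z (.b (.b (.l 156) .z) .z))) (.b (.b .z (.b .z (.a (.a (.l 124)
.z) .z))) (.a (.a (.l 124) (.a (.a (.l 124) .z) .z)) (.b .z (.b .z (.l 208)))))))))))

theorem vQ63 : ev Q63 I4_2 I5_8 = 1113886674810726 := by decide +kernel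

noncomputable def Q167 : QT :=
(.b (.b (.a (.b (.b (.b (.a (.b (.b (.b (.a (.a (.l 31) .z) .z) (.a .z (.l 35))) (.l 35)) (.a (.l 35) (.b (.l 35) .z))) (.b (.a (.b (.b .z (.l 35))
(.l 35)) (.b (.a (.l 35) .z) .z)) .z)) (.a (.b (.a (.b (.a (.l 35) .z) .z) (.b .z (.b .z (.l 36)))) (.l 36)) (.b (.b .z (.b (.a .z (.l 36)) (.l 36)))
(.a (.b (.l 36) (.a (.l 36) .z)) (.b (.a (.l 36) .z) .z))))) (.b (.a (.b (.a (.l 36) (.b (.a (.l 36) .z) .z)) (.a (.b .z (.a .z (.l 36))) (.b (.a .z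
(.l 36)) (.l 36)))) (.b (.a (.b .z (.l 36)) (.l 36)) (.l 36))) (.b (.b (.a (.l 36) (.b (.l 36) (.a (.l 36) .z))) (.a (.b (.l 36) .z) (.b .z (.a .z (.l
39))))) (.b (.a (.b (.a .z (.l 39)) (.l 39)) (.l 39)) (.l 39))))) (.b (.b (.a (.b (.b (.l 39) (.b (.a (.l 39) .z) .z)) (.l 43)) (.b (.b (.b (.l 39)
.z) (.b (.a .z (.l 43)) (.l 43))) (.a (.l 43) (.b (.l 43) (.a (.l 43) .z))))) (.a (.b (.l 43) (.a (.b (.l 43) .z) (.b .z (.a .z (.l 44))))) (.b (.a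
(.b (.a (.l 43) .z) .z) (.b .z (.l 44))) (.a (.b (.a .z (.l 44)) (.l 44)) (.b (.l 44) .z))))) (.b (.a (.b (.a (.b (.a .z (.l 44)) (.l 44)) (.b (.l 44)
(.a (.l 44) .z))) (.a (.b (.a (.l 44) .z) .z) (.b .z (.l 47)))) (.b (.a (.b .z (.a .z (.l 44))) (.b (.a .z (.l 44)) (.b (.l 44) .z))) (.b (.b .z (.l
47)) (.l 47)))) (.b (.b (.a (.b (.l 47) (.a (.l 47) .z)) (.b (.a (.l 47) .z) .z)) (.a (.b .z (.a .z (.l 51))) (.l 51))) (.l 51))))) (.b (.a (.b (.a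
(.b .z (.b (.b (.b .z (.l 36)) .z) (.b (.a .z (.l 36)) (.l 36)))) (.b .z (.b (.b .z (.a .z (.l 36))) (.l 36)))) (.b (.l 36) (.b (.b (.b (.a (.l 36)
.z) .z) (.l 39)) (.l 39)))) (.b (.a (.b (.a (.b (.a .z (.l 53)) .z) (.l 53)) (.a (.b .z (.l 36)) (.b .z (.a (.l 36) .z)))) (.b (.l 53) (.a (.b (.l 53)
.z) (.b (.l 53) .z)))) (.a (.b (.b (.l 36) (.b (.l 36) (.b (.l 36) .z))) (.b (.b (.b .z (.l 39)) (.l 39)) (.b (.l 39) (.b (.l 39) .z)))) (.b (.a .z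
(.b (.l 61) .z)) (.a (.b (.l 39) (.b (.l 39) .z)) (.b (.a (.l 39) .z) (.b (.l 39) .z))))))) (.b (.b (.a (.b (.a (.b .z (.l 43)) (.b (.b .z (.l 43))
(.a (.l 43) .z))) (.a (.b (.a (.l 43) .z) .z) .z)) (.b .z (.a (.b .z (.b .z (.l 44))) .z))) (.a (.b (.a (.l 44) (.b (.l 44) .z)) (.a (.b .z (.a .z (.l
44))) (.b (.a .z (.l 44)) (.l 44)))) (.b (.a (.b .z (.a .z (.l 44))) (.b (.a .z (.l 44)) (.l 44))) (.l 44)))) (.b (.b (.b (.a (.l 44) (.b (.l 44) .z))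
(.a (.b (.a (.l 44) .z) .z) (.b (.a .z (.l 47)) (.l 47)))) (.b (.l 47) (.a (.b (.l 47) (.a (.l 47) .z)) (.b (.a (.l 47) .z) .z)))) (.b (.a (.b (.b .z
(.l 51)) (.l 51)) (.b (.a (.l 51) .z) .z)) (.a (.b (.a (.l 51) .z) (.a .z (.b .z (.l 52)))) (.b (.a (.b .z (.l 52)) (.l 52)) (.a (.l 52) .z))))))))
(.b (.a (.b (.a (.b (.b (.l 51) (.b (.a (.l 51) .z) (.a .z (.b .z (.l 52))))) (.a (.b (.a .z (.b (.l 52) .z)) (.a (.b .z (.l 50)) .z)) (.b (.b (.b (.l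
52) .z) .z) (.a (.b (.l 59) .z) (.l 59))))) (.b (.b (.b (.a (.l 51) .z) (.a .z (.b .z (.l 52)))) (.b (.a (.b .z (.l 52)) (.b (.l 52) .z)) (.a (.b (.l
52) .z) .z))) (.b (.b (.a .z (.l 55)) (.b .z (.a .z (.l 59)))) (.l 59)))) (.a (.b (.a (.l 50) (.b (.a (.b .z (.l 50)) .z) (.l 50))) (.b (.b (.l 50)
(.b (.l 50) (.a (.l 50) .z))) (.b (.b .z (.l 53)) (.b .z (.a .z (.l 57)))))) (.b (.a (.b (.a (.b (.l 59) .z) (.l 59)) .z) (.b (.b (.l 59) .z) (.b (.b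
.z (.l 60)) .z))) (.a (.b (.a (.b (.l 50) .z) .z) (.b (.b (.l 53) .z) .z)) (.b (.a .z (.l 67)) .z))))) (.b (.b (.b (.a (.b (.a (.b .z (.l 52)) (.b (.l
52) .z)) (.a (.b (.l 52) .z) .z)) (.b (.a .z (.b .z (.l 52))) (.l 52))) (.a (.b (.a .z (.b (.l 52) .z)) (.b (.a .z (.l 55)) (.l 55))) (.b (.b .z (.a
.z (.l 55))) (.l 55)))) (.b (.a (.b (.b (.l 55) .z) (.b (.a .z (.l 59)) (.l 59))) (.b (.b .z (.a .z (.l 59))) (.a (.l 59) (.b (.l 59) .z)))) (.a (.b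
(.l 59) (.a (.l 59) (.b (.l 59) .z))) (.b (.a (.b (.l 59) .z) .z) (.a .z (.b (.l 60) .z)))))) (.a (.b (.b (.b (.a .z (.b .z (.l 60))) (.a (.b .z (.l
60)) .z)) (.b (.a .z (.b .z (.l 63))) .z)) (.a (.b (.l 67) .z) (.b (.l 67) .z))) (.b (.b (.b (.a (.b (.l 60) .z) .z) .z) (.b (.b (.l 63) (.a (.l 63)
.z)) (.b .z (.l 67)))) (.b (.b (.a (.l 67) .z) .z) .z))))) (.a (.b (.b (.b (.a (.b (.a (.b (.l 57) .z) .z) (.a .z (.l 58))) (.b (.a (.b .z (.l 58))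
(.l 58)) (.l 58))) (.l 58)) (.b (.b (.b (.l 58) (.a (.l 58) .z)) (.b (.a .z (.a .z (.l 61))) (.a (.a .z (.l 61)) (.a (.l 61) .z)))) (.a (.b (.b .z (.a
.z (.l 65))) (.l 65)) (.b (.a (.b .z (.l 65)) .z) .z)))) (.b (.b (.a (.b (.a (.b (.l 65) .z) .z) (.a .z (.l 66))) (.b (.a .z (.l 66)) (.l 66))) (.b
(.b (.a (.l 66) .z) .z) .z)) (.b (.a (.b (.b .z (.l 73)) (.l 73)) (.b (.a (.l 73) .z) .z)) (.a .z (.b (.a .z (.l 74)) .z))))) (.b (.a (.b (.a (.b .z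
(.a (.l 58) (.b .z (.l 58)))) (.b .z (.a .z (.l 75)))) (.a (.b (.b (.b (.l 58) .z) (.b (.l 61) .z)) (.b .z (.l 66))) (.b .z (.a (.l 66) .z)))) (.b (.b
(.b .z (.l 75)) (.b (.a (.l 75) .z) .z)) (.a .z (.b .z (.b (.l 83) .z))))) (.a (.b (.b (.l 66) .z) (.b (.b .z (.l 74)) (.b (.b (.l 74) .z) .z))) (.b
.z (.a (.b (.l 74) .z) (.b (.a (.l 74) .z) .z)))))))) (.b (.b (.b (.a (.b (.a (.b (.b (.b .z (.l 81)) (.l 81)) (.a (.b (.l 81) .z) .z)) (.b (.b (.b .z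
(.l 81)) (.a (.l 81) .z)) .z)) (.a (.b (.a .z (.b (.l 89) .z)) .z) (.b (.b (.l 89) (.a (.l 89) .z)) (.a .z (.b .z (.l 97)))))) (.b (.b (.a (.b (.a (.l
81) .z) .z) (.b (.a .z (.l 82)) (.l 82))) (.a (.b (.b (.l 82) .z) (.b .z (.l 89))) .z)) (.b (.a .z (.b (.a .z (.l 90)) .z)) (.a (.b .z (.a (.l 97)
.z)) .z)))) (.a (.a (.b (.b .z (.b (.a .z (.l 88)) .z)) .z) .z) (.a (.b (.b (.b .z (.b .z (.l 105))) .z) .z) (.b (.b (.b .z (.a (.l 105) .z)) .z)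
.z)))) (.a (.b (.b .z (.a (.b (.b (.b .z (.l 110)) .z) (.b .z (.b .z (.l 125)))) .z)) .z) .z)) .z))

theorem vQ167 : ev Q167 I6_30 I4_15 = 277279177859349 := by decide +kernel

noncomputable def Q93 : QT :=
(.b (.b (.a (.b (.a (.b (.a (.b (.a (.a .z (.l 64)) (.b (.l 64) (.a (.l 64) .z))) (.a (.b (.a .z (.l 64)) .z) (.b .z (.a (.b .z (.l 27)) (.l 27)))))
(.b (.a (.b .z (.a .z (.l 27))) (.b (.a (.b .z (.l 27)) (.l 27)) (.l 27))) (.l 27))) (.a (.b (.a (.b (.a .z (.b .z (.l 27))) (.l 27)) (.l 27)) (.l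
27)) (.l 27))) (.l 27)) (.a (.b (.b (.b (.b (.l 27) .z) (.b (.a (.a (.a .z (.l 32)) (.l 32)) (.l 32)) (.l 32))) (.l 32)) (.a (.b (.a (.b (.a .z (.b
(.l 32) .z)) (.a (.l 31) .z)) (.b (.l 32) (.a (.b (.l 32) .z) (.l 32)))) (.a (.l 31) (.b (.a (.b .z (.l 31)) .z) (.l 31)))) (.b (.l 32) (.a (.b (.a
(.b (.l 32) .z) (.l 32)) (.a (.b .z (.l 31)) .z)) (.b (.l 32) (.b (.l 32) .z)))))) (.b (.b (.b (.b (.a (.a (.l 27) (.a (.l 27) .z)) .z) (.a .z (.l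
32))) (.l 32)) (.l 32)) (.l 32)))) (.b (.b (.l 27) (.b (.l 27) (.b (.l 27) (.b (.a (.l 27) (.a (.l 27) (.a (.l 27) .z))) (.a (.a (.l 27) (.a (.a (.l
27) .z) .z)) (.a .z (.a .z (.a .z (.l 32))))))))) (.b (.b (.b (.b (.a (.a .z (.a .z (.l 32))) (.l 32)) (.l 32)) (.l 32)) (.l 32)) (.l 32)))) (.a (.b
(.a (.b (.a (.l 31) (.b (.a (.b (.a (.l 31) (.b .z (.l 31))) (.l 31)) (.b .z (.a (.l 31) (.b .z (.l 31))))) (.l 31))) (.b (.b (.l 31) (.b (.a (.a (.l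
31) .z) .z) (.a .z (.l 36)))) (.l 36))) (.b (.a (.b (.a (.b (.b .z (.l 33)) .z) (.b (.b (.a .z (.l 32)) .z) (.l 33))) (.a (.b (.a (.l 31) .z) (.l 31))
(.b (.a .z (.l 33)) (.a (.b .z (.l 31)) .z)))) (.b (.b (.b (.l 32) (.a (.a .z (.l 32)) (.l 32))) (.b .z (.a (.l 33) .z))) (.a (.b (.l 33) (.a .z (.l
33))) (.l 33)))) (.a (.b (.b (.l 31) (.b .z (.l 36))) (.a (.b (.l 36) .z) .z)) (.b (.a .z (.b (.l 33) (.a .z (.l 33)))) (.a (.b (.a .z (.l 35)) (.b .z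
(.l 38))) (.b .z (.b .z (.l 38)))))))) (.a (.b (.a (.b (.l 36) (.a (.l 36) (.b (.l 36) .z))) (.b (.a (.b (.l 36) (.a (.l 36) .z)) (.b (.a (.l 36) .z)
.z)) (.a (.b .z (.a .z (.l 38))) (.l 38)))) (.a (.b (.a .z (.b (.a .z (.l 38)) (.l 38))) (.l 38)) (.l 38))) (.b (.a (.b (.a (.b (.a .z (.l 38)) (.l
38)) (.l 38)) (.l 38)) (.l 38)) (.l 38)))) (.b (.a (.b (.b (.b (.l 32) (.a (.b (.l 32) (.a .z (.a .z (.l 32)))) (.l 32))) (.b (.a (.b (.a (.l 33) .z)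
(.l 33)) (.b (.a (.a .z (.l 32)) (.l 32)) (.a .z (.a .z (.l 32))))) (.a (.l 33) (.b .z (.a .z (.l 36)))))) (.a (.b (.a (.b (.l 33) .z) .z) (.a (.b (.a
.z (.l 41)) .z) (.l 41))) (.b (.a .z (.b (.b (.l 36) .z) (.l 73))) (.b (.a (.b .z (.l 41)) .z) (.l 41))))) (.b (.b (.l 32) (.b (.l 32) (.a (.b (.a .z
(.l 32)) .z) (.l 32)))) (.b (.b (.a .z (.b (.a .z (.l 32)) .z)) (.l 73)) (.a (.b (.a .z (.l 73)) .z) (.l 73))))) (.a (.b (.a (.b (.a (.b (.a (.l 38)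
.z) (.l 38)) (.b .z (.a (.l 38) .z))) (.l 38)) (.b (.a (.b (.l 41) (.a .z (.l 41))) (.l 41)) (.a (.b .z (.a (.l 38) .z)) (.b (.l 41) (.a .z (.l
41)))))) (.a (.l 38) (.b (.a (.l 38) (.b .z (.l 38))) (.l 38)))) (.b (.a (.b (.b (.a (.l 41) .z) (.l 41)) (.l 41)) (.b (.b (.a .z (.l 73)) .z) (.a (.b
(.l 41) .z) (.b .z (.a .z (.l 37)))))) (.a (.b (.a (.b (.a .z (.l 41)) .z) .z) (.a (.b (.a (.l 38) .z) (.l 38)) (.b (.a .z (.l 42)) .z))) (.b (.a (.b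
(.a .z (.l 37)) (.b (.l 37) .z)) (.b (.l 37) (.b (.l 37) .z))) (.l 42)))))))) (.b (.a (.b (.b (.l 38) (.b (.b (.l 38) (.b (.l 38) (.a (.a (.a (.l 38)
.z) .z) .z))) (.b (.b (.a (.a .z (.l 41)) (.l 41)) (.l 41)) (.l 41)))) (.b (.b (.l 41) (.b (.l 41) (.b (.a (.l 41) (.a (.l 41) .z)) (.a .z (.a .z (.a
.z (.l 46))))))) (.l 46))) (.b (.a (.b (.l 38) (.b (.b (.l 38) (.b .z (.a (.a .z (.l 41)) (.l 41)))) (.l 41))) (.b (.a (.b (.a (.l 38) (.b (.a (.l 38)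
.z) (.l 38))) (.l 38)) (.b (.a (.b (.a .z (.l 42)) .z) (.b (.l 42) (.a .z (.l 42)))) (.a (.l 38) (.b .z (.a (.l 38) .z))))) (.b (.b (.b (.l 38) (.a
(.l 38) .z)) (.b (.a .z (.a .z (.l 41))) (.l 41))) (.l 41)))) (.b (.b (.l 41) (.b (.b (.l 41) (.a (.l 41) (.a (.a (.l 41) .z) .z))) (.b (.a .z (.a .z
(.l 46))) (.l 46)))) (.a (.l 46) (.b (.a (.l 46) (.b (.l 46) (.a (.l 46) (.b (.l 46) .z)))) (.a (.b (.l 46) (.a (.l 46) .z)) (.b (.a (.b (.l 46) .z)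
.z) .z))))))) (.b (.a (.b (.b (.l 46) (.b (.l 46) (.a (.b (.a (.a .z (.l 46)) (.l 46)) (.a .z (.a .z (.l 46)))) (.l 46)))) (.a (.b (.a (.b (.a (.b (.l
47) .z) (.l 47)) .z) (.b (.b .z (.l 47)) (.l 47))) (.a (.b (.a (.b .z (.l 52)) (.b .z (.l 52))) (.l 52)) (.b (.a .z (.b (.l 47) .z)) (.a (.l 52)
.z)))) (.b (.a (.b (.b (.a .z (.l 46)) .z) (.a (.l 47) (.b (.l 47) .z))) (.b (.a (.b (.l 46) .z) (.b (.l 46) .z)) .z)) (.a .z (.b (.a .z (.l 51)) (.b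
(.l 51) .z)))))) (.b (.a (.b (.a (.l 46) (.b (.l 46) (.a (.l 46) .z))) (.a (.b (.l 46) (.a (.b (.l 46) .z) .z)) (.b (.a .z (.b .z (.l 48))) (.a (.b .z
(.l 48)) (.l 48))))) (.b (.a (.b (.a .z (.b .z (.l 51))) (.a (.b .z (.l 48)) .z)) (.b (.a (.l 51) .z) (.b (.l 51) .z))) (.b (.a (.l 48) (.b (.a (.l
48) .z) (.l 48))) (.b (.l 48) (.a (.a (.l 48) .z) .z))))) (.a (.b (.a (.b (.a .z (.b .z (.l 51))) (.l 51)) (.b (.b .z (.l 51)) (.l 51))) (.b (.l 51)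
(.b (.l 51) .z))) (.b (.b (.b (.a .z (.l 51)) (.l 51)) (.l 51)) (.b (.l 51) (.b (.a (.a (.l 51) .z) .z) (.a .z (.l 56)))))))) (.a (.b (.a (.b (.b (.l
52) (.b (.a (.a .z (.l 52)) (.l 52)) .z)) (.l 55)) (.b (.a (.b .z (.a (.b (.l 52) .z) .z)) (.b (.l 56) (.a .z (.l 56)))) (.a (.l 55) (.b (.a (.b .z
(.l 55)) .z) (.a (.l 55) (.b .z (.l 55))))))) (.a (.b (.b (.b (.l 55) .z) (.l 60)) (.l 60)) (.b (.a (.b (.b .z (.a .z (.l 60))) (.l 60)) (.b (.b .z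
(.l 60)) (.a (.b (.l 60) .z) .z))) (.a (.b (.a (.l 60) (.b (.l 60) .z)) (.a .z (.b .z (.l 57)))) (.b (.a .z (.l 57)) (.l 57)))))) (.b (.a (.b (.l 56)
(.a (.b (.l 56) (.a .z (.l 56))) (.l 56))) (.l 56)) (.a (.a (.b (.b .z (.a (.b .z (.l 57)) (.b .z (.l 57)))) (.l 57)) (.b (.a (.b (.l 56) .z) (.l 56))
(.a (.b (.a (.l 57) .z) (.l 57)) .z))) (.b (.a (.l 56) (.b (.l 56) (.a (.b (.l 56) .z) .z))) (.a (.a (.b (.l 56) .z) (.b (.b (.l 56) .z) .z)) (.b (.a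
.z (.l 61)) .z)))))))))

theorem vQ93 : ev Q93 I5_5 I5_30 = 800127281014855 := by decide +kernel

noncomputable def Q123 : QT :=
(.a (.b (.a (.b (.a (.b (.l 44) (.b (.b (.a (.b (.l 44) .z) (.b (.l 44) .z)) (.a .z (.b (.l 47) .z))) (.b (.a (.l 43) (.b .z (.l 43))) (.b (.l 43)
.z)))) (.b (.a (.l 44) (.b (.l 44) (.a (.l 44) (.b (.l 44) .z)))) (.a (.b (.b .z (.l 47)) .z) (.b .z (.a .z (.b (.l 39) .z)))))) (.a (.b (.a (.l 46)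
(.b (.l 46) (.a (.l 46) (.b (.l 46) .z)))) (.a (.b (.l 46) (.a (.l 46) .z)) (.b (.a .z (.b .z (.l 50))) (.a (.b .z (.l 45)) (.b .z (.l 45)))))) (.b
(.a (.b (.a (.b (.l 46) .z) .z) (.a .z (.l 42))) (.b (.b (.b .z (.l 42)) (.l 42)) (.l 42))) (.b (.b .z (.a (.b (.l 50) .z) .z)) (.b (.a (.b .z (.l
45)) (.l 45)) (.l 45)))))) (.b (.a (.b (.a (.b (.a (.l 44) .z) (.a .z (.b .z (.l 39)))) (.b (.a .z (.b .z (.l 39))) (.l 39))) (.b (.l 39) (.b (.l 39)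
(.b .z (.l 42))))) (.b (.b (.b (.b (.l 37) .z) (.l 39)) (.l 39)) (.b (.l 39) (.b (.b (.l 39) .z) (.b (.a .z (.l 42)) (.l 42)))))) (.b (.b (.a (.b (.a
.z (.l 42)) (.a (.b .z (.l 42)) .z)) (.b (.l 42) (.a (.l 42) (.b (.l 42) .z)))) (.a (.b (.a (.l 42) (.b .z (.l 42))) (.a (.l 42) .z)) (.b .z (.a (.b
.z (.l 43)) (.b (.l 43) .z))))) (.b (.a (.b (.a .z (.b .z (.l 45))) (.l 45)) (.b (.b .z (.l 45)) (.l 45))) (.l 45))))) (.a (.a (.b (.a (.b (.b .z (.a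
.z (.b (.l 48) .z))) (.b (.b (.b (.l 47) .z) (.l 49)) (.b (.l 49) (.b (.l 49) .z)))) (.b (.b (.b (.b (.l 45) .z) .z) (.b (.b .z (.l 48)) (.b (.l 48)
.z))) (.b (.b .z (.l 49)) (.b (.l 49) (.b (.l 49) .z))))) (.b (.b (.b (.a (.b (.l 52) .z) (.l 52)) (.a .z (.b (.l 52) .z))) (.b (.a .z (.b .z (.l
53))) (.b (.l 53) .z))) (.b (.b (.b (.a .z (.l 55)) (.l 55)) (.l 55)) (.b (.b .z (.l 58)) (.l 58))))) (.b (.b (.b (.b (.b (.l 45) .z) (.l 48)) (.b (.a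
.z (.b (.l 48) .z)) (.a (.l 48) .z))) (.b (.b (.a .z (.b .z (.l 56))) (.a (.b .z (.l 49)) .z)) (.b (.l 49) (.b (.l 49) .z)))) (.b (.b (.b (.a (.l 52)
(.b (.l 52) .z)) (.a .z (.b .z (.l 53)))) (.b (.l 53) (.b (.l 53) .z))) (.b (.l 55) (.b (.b .z (.l 58)) (.l 58)))))) (.b (.b (.b (.b (.b (.a (.a (.l
45) .z) .z) (.a .z (.l 48))) (.l 48)) (.a (.b (.l 48) (.a (.b (.l 48) .z) (.l 48))) (.l 48))) (.b (.a (.b (.a .z (.b (.l 48) .z)) (.a (.b (.l 56) .z)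
(.b .z (.l 56)))) (.b (.l 48) (.a .z (.l 48)))) (.a (.b (.a .z (.b (.l 56) .z)) .z) (.b .z (.a .z (.b .z (.l 54))))))) (.b (.b (.a (.b (.a .z (.l 53))
(.l 53)) (.b (.a (.b .z (.l 53)) .z) (.a (.l 53) (.b .z (.l 53))))) (.b (.l 53) (.b (.a (.l 53) .z) (.a .z (.a .z (.l 55)))))) (.b (.b (.l 55) (.b (.l
55) (.a (.a (.l 55) .z) .z))) (.a (.b (.b .z (.l 58)) (.l 58)) (.b (.l 58) (.a (.l 58) (.b (.l 58) .z))))))))) (.b (.b (.a (.b (.a (.b (.a (.b .z (.l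
39)) .z) (.l 39)) (.b (.a (.b (.b .z (.l 42)) (.a .z (.l 42))) (.b (.b .z (.l 42)) (.l 42))) (.a (.b .z (.a (.l 39) .z)) (.b (.l 42) .z)))) (.a (.b
(.l 39) (.b (.b (.l 39) .z) (.l 42))) (.b (.a (.l 39) (.b (.a (.l 39) .z) (.l 39))) (.b (.b .z (.a .z (.l 42))) (.a (.b (.l 42) .z) .z))))) (.b (.a
(.b (.b (.b (.a .z (.l 42)) (.l 42)) (.l 42)) (.l 42)) (.a (.b (.l 42) (.a (.b (.l 42) .z) .z)) (.b (.a (.b (.l 42) .z) .z) (.a (.b .z (.l 43)) (.b .z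
(.l 43)))))) (.a (.b (.a (.b (.a .z (.l 42)) .z) (.b (.a (.l 42) .z) .z)) (.a (.b .z (.b .z (.l 43))) (.b .z (.l 43)))) (.b (.a (.a (.b .z (.l 43))
(.l 43)) (.l 43)) (.a (.b (.a .z (.l 43)) .z) (.l 43)))))) (.a (.b (.b (.a (.b (.a (.l 42) (.b (.l 42) .z)) (.a .z (.b .z (.l 43)))) (.b (.a .z (.l
43)) (.l 43))) (.b (.l 43) (.b (.a (.l 43) (.a (.l 43) .z)) .z))) (.b (.l 45) (.b (.l 45) (.b (.l 45) (.a (.l 45) .z))))) (.b (.a (.b (.l 43) (.b (.l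
43) (.b .z (.l 45)))) (.b (.a (.b (.a (.l 43) .z) (.l 43)) (.b .z (.a (.l 43) .z))) (.b (.b (.l 43) (.a (.l 43) .z)) (.b .z (.l 45))))) (.b (.l 45)
(.b (.l 45) (.b (.a (.l 45) .z) (.a .z (.a .z (.l 48))))))))) (.b (.b (.a (.b (.b (.b (.a .z (.a .z (.l 48))) (.l 48)) (.l 48)) (.a (.l 48) (.b (.l
48) (.a (.l 48) (.b (.l 48) .z))))) (.b (.a (.l 48) (.b (.l 48) (.a (.b (.l 48) .z) .z))) (.a (.b (.a (.l 48) .z) (.a .z (.b .z (.l 51)))) (.b (.a (.b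
.z (.l 49)) (.l 49)) (.b .z (.l 51)))))) (.a (.b (.a (.b (.a (.l 48) (.b (.l 48) .z)) (.a .z (.b .z (.l 51)))) (.b (.a .z (.b .z (.l 51))) (.l 51)))
(.a (.b (.a (.b .z (.l 51)) (.b (.l 51) .z)) (.b .z (.l 54))) (.b (.b (.l 51) .z) (.l 54)))) (.b (.l 51) (.b (.b (.a (.l 51) .z) (.a .z (.a .z (.l
54)))) (.l 54))))) (.b (.a (.b (.a (.b (.l 54) (.a .z (.l 54))) (.l 54)) (.a (.b (.a (.b .z (.l 53)) .z) (.b .z (.l 55))) (.b (.a (.b (.l 54) .z) (.l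
54)) (.a .z (.b (.l 54) .z))))) (.b (.a (.l 54) (.b (.l 54) (.a (.l 54) (.b (.l 54) .z)))) (.a (.b (.a (.l 54) (.b (.l 54) .z)) (.a .z (.b .z (.l
57)))) (.b (.a .z (.b .z (.l 57))) (.b (.l 57) .z))))) (.a (.b (.a (.b (.l 55) (.b (.l 55) .z)) (.b (.a (.l 55) .z) .z)) (.a (.b (.a (.l 58) (.b (.l
58) .z)) (.a .z (.b .z (.l 59)))) (.b (.a .z (.b .z (.l 59))) (.l 59)))) (.b (.a (.b (.a .z (.b .z (.l 60))) (.a .z (.b (.l 60) .z))) (.b (.b (.a .z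
(.l 60)) (.l 60)) (.l 60))) (.a (.b (.a (.l 59) .z) (.l 59)) (.b (.a (.b (.l 60) .z) (.l 60)) (.a .z (.a .z (.l 60)))))))))))

theorem vQ123 : ev Q123 I5_8 I6_61 = 330446414307041 := by decide +kernel

noncomputable def Q54 : QT :=
(.a (.b (.b (.b (.b (.l 31) (.b (.l 31) (.b (.a (.l 31) (.a (.a (.l 31) (.a (.l 31) (.a (.l 31) .z))) .z)) (.a (.a (.a (.a (.a (.l 31) .z) .z) .z) .z)
(.a .z (.l 36)))))) (.b (.a (.b (.a (.b (.a .z (.a .z (.l 36))) (.a (.l 35) .z)) (.b (.l 36) (.a .z (.a .z (.l 36))))) (.a (.l 35) (.b (.a (.l 35) .z)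
(.l 35)))) (.b (.l 36) (.a (.b (.a .z (.l 36)) (.a (.a (.l 35) .z) .z)) (.b (.l 36) (.a (.a .z (.l 36)) (.l 36)))))) (.a (.l 35) (.b (.a (.l 35) (.b
.z (.a (.l 35) (.a (.l 35) .z)))) (.l 35))))) (.b (.b (.l 35) (.b (.l 35) (.b (.a (.l 35) (.a (.l 35) .z)) (.a (.a (.a (.a (.l 35) .z) .z) .z) (.a .z
(.a (.a .z (.l 40)) (.l 40))))))) (.b (.a (.b (.b (.a (.a .z (.l 40)) (.l 40)) (.a .z (.a (.a .z (.l 40)) (.l 40)))) (.b (.a (.l 39) .z) (.l 39))) (.b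
(.l 40) (.a (.b (.a (.a .z (.l 40)) (.l 40)) .z) (.l 40)))) (.a (.l 39) (.b (.a (.b (.a (.l 39) (.a (.l 39) .z)) (.l 39)) (.b .z (.a (.l 39) (.a (.l
39) .z)))) (.l 39)))))) (.b (.b (.b (.l 39) (.a (.b (.b (.a (.l 39) (.a (.a (.l 39) .z) .z)) (.a .z (.a .z (.l 44)))) (.b (.a (.a .z (.a .z (.l 44)))
(.l 44)) (.a (.a (.l 43) .z) (.a .z (.a .z (.l 44)))))) (.b (.b .z (.l 44)) (.l 44)))) (.b (.a (.b (.b (.a (.l 43) (.a (.l 43) .z)) (.l 43)) (.l 43))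
(.b (.a (.b (.a .z (.a .z (.l 44))) (.a (.l 43) .z)) (.b (.l 44) (.a .z (.l 44)))) (.a (.l 43) (.b (.a (.a (.l 43) .z) .z) (.l 43))))) (.b (.l 43) (.b
(.l 43) (.a (.l 43) .z))))) (.b (.b (.b (.b (.a .z (.a (.a (.a .z (.l 48)) (.l 48)) (.l 48))) (.l 48)) (.a (.b (.a .z (.a (.a .z (.l 48)) (.l 48)))
(.a (.l 47) .z)) (.a (.b (.l 48) (.a (.a .z (.l 48)) (.l 48))) (.l 48)))) (.b (.a (.l 47) (.a (.b .z (.l 47)) (.b (.a (.a .z (.l 48)) (.l 48)) .z)))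
(.l 47))) (.b (.b (.b (.l 47) (.a (.a (.l 47) .z) .z)) (.a (.b (.a .z (.a (.a .z (.l 52)) (.l 52))) (.a (.a (.a .z (.l 52)) (.l 52)) (.l 52))) (.l
52))) (.b (.a (.b (.a .z (.a .z (.l 52))) (.a (.l 51) (.a (.a (.l 51) .z) .z))) (.a (.b (.l 52) (.a .z (.l 52))) (.l 52))) (.a (.l 51) (.a (.b (.a (.a
(.l 51) .z) .z) (.l 51)) (.b (.a .z (.l 52)) (.a (.a (.l 51) .z) .z))))))))) (.b (.a (.b (.b (.b (.l 31) (.b (.b (.l 31) (.a (.l 31) .z)) (.b (.a .z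
(.a (.a .z (.l 36)) (.l 36))) (.l 36)))) (.b (.l 36) (.b (.a (.b (.l 36) (.a .z (.a .z (.l 36)))) (.l 36)) (.a (.b (.a (.l 35) .z) (.l 35)) (.b (.a .z
(.l 36)) (.a (.a (.l 35) .z) .z)))))) (.b (.b (.b (.a (.l 35) (.b (.a (.l 35) (.a (.l 35) .z)) (.l 35))) (.l 35)) (.b (.b (.l 35) (.a (.l 35) (.a (.l
35) .z))) (.b (.a .z (.a .z (.a .z (.l 40)))) (.l 40)))) (.b (.l 40) (.b (.a (.b (.l 40) (.a .z (.l 40))) (.l 40)) (.a (.b (.a (.a (.l 39) .z) .z) (.l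
39)) (.b (.a (.a .z (.l 40)) (.l 40)) .z)))))) (.b (.b (.b (.a (.l 31) (.b (.a (.l 31) (.b (.a (.l 31) (.a (.l 31) .z)) (.l 31))) (.l 31))) (.b (.b
(.a (.a (.l 31) (.a (.l 31) (.a (.l 31) .z))) .z) (.a .z (.l 36))) (.l 36))) (.l 36)) (.a (.b (.b (.b (.b (.a .z (.l 36)) (.a (.a (.l 35) .z) .z)) (.b
(.a (.l 35) (.a (.l 35) .z)) (.l 35))) (.b (.b (.l 35) .z) (.l 40))) (.l 40)) (.b (.b (.b (.l 36) (.b (.a .z (.a .z (.l 36))) (.a (.l 35) .z))) (.b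
(.b (.a (.a (.l 35) .z) .z) (.a .z (.l 40))) (.l 40))) (.a (.l 40) (.b (.a (.l 40) (.b (.a (.l 40) .z) (.a .z (.b .z (.l 32))))) (.a (.b (.a (.l 40)
.z) .z) (.b .z (.a (.l 34) .z))))))))) (.a (.b (.b (.b (.b (.a (.l 39) (.b (.a (.l 39) (.a (.l 39) .z)) (.l 39))) (.b (.l 39) .z)) (.b (.b (.a (.a (.a
.z (.l 44)) (.l 44)) (.l 44)) (.l 44)) (.l 44))) (.b (.b (.l 44) (.a (.b (.a (.a .z (.l 44)) (.l 44)) .z) (.l 44))) (.b (.a (.b (.a (.l 43) (.a (.l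
43) .z)) (.l 43)) (.b (.a .z (.a .z (.l 44))) (.a (.l 43) .z))) (.b (.a (.a (.l 43) (.a (.l 43) .z)) .z) (.a .z (.l 48)))))) (.a (.b (.b (.l 48) (.b
(.b (.l 48) (.a (.a .z (.l 48)) (.l 48))) (.b .z (.a (.l 47) (.a (.l 47) .z))))) (.b (.b (.b (.a (.a (.l 47) .z) .z) (.a .z (.l 52))) (.l 52)) (.b (.l
52) (.b (.l 52) (.a .z (.l 52)))))) (.b (.a (.b (.l 48) (.b (.l 48) (.b (.l 48) .z))) (.b (.l 48) (.a (.b (.l 48) (.b (.l 48) .z)) (.b (.l 48) .z))))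
(.a (.b (.b (.b .z (.l 52)) (.l 52)) (.a (.l 52) (.b (.a (.l 52) .z) .z))) (.b (.a .z (.b .z (.a (.l 38) .z))) (.a (.b (.a .z (.l 38)) (.l 38)) (.l
38))))))) (.b (.a (.b (.a (.b (.b (.b .z (.a (.l 39) .z)) (.b (.a (.l 39) .z) .z)) (.l 44)) (.b (.b (.b (.l 40) .z) (.b .z (.l 44))) (.a (.l 44) (.b
(.l 44) (.a (.l 44) .z))))) (.a (.b (.l 44) (.a (.b (.b (.l 44) .z) (.b .z (.l 48))) (.b (.b (.l 44) .z) .z))) (.b (.a (.b (.l 44) (.a (.l 44) .z))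
(.b .z (.a .z (.l 34)))) (.a .z (.b (.l 34) (.b (.l 34) .z)))))) (.b (.a (.b (.a (.b (.b (.l 40) .z) .z) (.b .z (.a .z (.l 34)))) (.a (.b .z (.a .z
(.l 34))) (.l 34))) (.b (.a (.b (.a .z (.l 34)) (.l 34)) (.l 34)) (.l 34))) (.l 34))) (.a (.b (.a (.b (.a (.b (.l 48) (.a (.l 48) .z)) (.b .z (.a .z
(.l 35)))) (.a (.b .z (.a .z (.l 35))) (.l 35))) (.b (.b (.a (.l 35) (.b .z (.l 35))) (.l 35)) (.b (.l 35) (.b (.l 35) .z)))) (.a (.b (.a (.b (.b .z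
(.l 41)) .z) (.b .z (.l 41))) (.a (.b (.a (.l 38) .z) (.l 38)) (.b (.a .z (.l 41)) .z))) (.b (.b (.b (.a .z (.l 40)) .z) (.b (.a (.l 41) .z) (.l 41)))
(.l 41)))) (.b (.b (.a (.b (.a .z (.b (.l 34) .z)) (.a (.l 35) (.b .z (.l 35)))) (.b (.l 34) .z)) (.a (.b (.l 35) (.b (.l 35) .z)) (.b (.a (.l 35) .z)
(.b (.l 35) .z)))) (.a (.b (.b (.l 40) (.b .z (.l 41))) (.l 41)) (.b (.b (.l 40) (.b (.a .z (.l 40)) .z)) (.a (.b (.l 41) (.a (.l 41) .z)) .z)))))))))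

theorem vQ54 : ev Q54 I4_1 I6_60 = 783677460578457 := by decide +kernel

noncomputable def Q70 : QT :=
(.b (.b (.b (.a (.b (.a (.b .z (.a (.a .z (.l 159)) .z)) (.b (.a (.a .z (.l 190)) .z) .z)) (.a (.b (.a .z (.b .z (.l 182))) .z) (.b (.a (.a (.l 182)
.z) .z) .z))) (.b (.a .z (.b (.a (.b (.a .z (.b (.a .z (.b (.l 14) .z)) .z)) .z) (.b (.a (.b (.l 14) (.a .z (.l 14))) (.l 14)) (.a .z (.b (.l 14) (.a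
.z (.b (.l 14) .z)))))) .z)) .z)) (.a (.a .z (.b (.a .z (.b (.a (.l 222) .z) .z)) .z)) (.a (.b .z (.a .z (.b (.a (.l 190) .z) .z))) (.b .z (.a .z (.b
.z (.l 217))))))) (.b (.a (.a (.b .z (.a .z (.a .z (.b .z (.a .z (.l 106)))))) (.b (.a (.b .z (.a (.a .z (.l 106)) (.b .z (.l 106)))) .z) (.a (.l 106)
(.b (.a (.b .z (.l 106)) .z) (.l 106))))) (.b (.a .z (.b (.a .z (.b (.l 217) .z)) (.a .z (.b .z (.a .z (.l 75)))))) (.a (.b .z (.a (.b .z (.a (.l 106)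
.z)) .z)) (.b .z (.a (.b (.l 175) .z) (.a .z (.l 115))))))) (.a (.b (.a (.a .z (.a (.b (.a .z (.l 106)) (.l 106)) (.l 106))) (.b (.a (.l 106) (.b (.l
106) (.a (.l 106) .z))) (.a (.b (.l 106) (.a (.l 106) .z)) .z))) (.a (.b (.a (.a .z (.l 106)) (.b (.l 106) (.a (.l 106) .z))) (.a (.b (.a .z (.l 106))
(.a (.l 106) .z)) .z)) (.b .z (.l 330)))) (.b (.a (.b .z (.a (.l 146) .z)) (.a .z (.a .z (.l 115)))) (.b (.a (.a (.a .z (.l 146)) .z) .z) .z))))) (.a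
(.b (.b (.a (.b (.b .z (.b .z (.a (.b .z (.l 76)) .z))) (.a (.b (.a .z (.l 76)) (.a (.b (.a (.l 34) .z) (.l 34)) .z)) (.b (.b (.b .z (.l 76)) (.l 76))
(.l 76)))) (.b (.b (.b (.l 330) .z) (.b (.l 241) (.b .z (.l 252)))) (.b (.b .z (.a (.l 76) (.b .z (.l 76)))) (.l 76)))) (.a (.b (.a (.b (.a (.l 34)
(.b (.a (.l 34) .z) (.l 34))) (.l 34)) (.b (.a .z (.l 76)) (.a (.b (.a (.l 34) .z) (.l 34)) .z))) (.a (.l 34) (.b (.a (.l 34) (.b (.a (.l 34) .z) (.l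
34))) (.l 34)))) (.a (.b (.l 76) (.a (.b .z (.a (.l 34) (.b .z (.l 34)))) (.b (.l 76) .z))) (.l 76)))) (.a (.l 34) (.b (.a (.b (.a (.l 34) (.b (.a (.l
34) (.b .z (.l 34))) (.l 34))) (.l 34)) (.b (.a (.b .z (.a (.l 34) (.b .z (.l 34)))) (.b (.l 76) .z)) (.a (.l 34) (.b (.a (.l 34) (.b .z (.l 34))) (.l
34))))) (.l 34)))) (.b (.b (.b (.b (.b (.a .z (.b .z (.l 241))) (.a (.b .z (.l 241)) (.l 241))) (.a (.b (.l 241) .z) (.a (.b (.l 241) .z) (.b (.l 241)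
.z)))) (.b (.a (.b (.l 252) .z) (.a (.b (.l 252) .z) .z)) (.a (.b (.a (.l 76) .z) (.l 76)) (.b .z (.a (.b .z (.l 76)) .z))))) (.l 76)) (.a (.b (.a (.b
(.l 76) (.a (.b .z (.a (.l 34) (.b .z (.l 34)))) (.b (.l 76) .z))) (.l 76)) (.a (.b (.a (.l 34) (.b (.a (.l 34) .z) (.l 34))) (.l 34)) (.b (.a (.b (.a
.z (.l 76)) (.a (.b .z (.l 34)) .z)) (.b (.l 76) (.a .z (.l 76)))) (.a (.l 34) (.b (.a (.b .z (.l 34)) .z) (.l 34)))))) (.b (.l 76) (.a (.b (.l 76)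
(.a (.b (.a .z (.l 76)) .z) (.l 76))) (.l 76)))))))

theorem vQ70 : ev Q70 I6_10 I4_6 = 477788723879285 := by decide +kernel

noncomputable def Q96 : QT :=
(.a (.b (.a (.b (.b (.a (.b (.l 42) (.a (.b (.l 42) (.a .z (.l 42))) (.l 42))) (.l 42)) (.a (.b (.a (.b .z (.a (.l 41) .z)) (.b (.l 42) (.a .z (.l
42)))) (.a (.l 41) (.b .z (.a (.l 41) .z)))) (.b (.l 42) (.a (.b (.b (.l 42) .z) .z) (.b .z (.l 42)))))) (.a (.b (.b (.l 41) (.b (.b (.l 41) .z) (.a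
(.l 46) (.b (.l 46) .z)))) (.b (.b (.a (.b (.l 46) .z) .z) .z) (.b (.l 95) (.b (.l 95) .z)))) (.b (.a (.b (.a (.b .z (.l 41)) .z) (.b (.b (.l 41) .z)
.z)) (.b (.a (.b (.l 42) .z) (.l 42)) .z)) (.b (.b (.a (.l 46) (.b .z (.l 46))) .z) .z)))) (.b (.b (.b (.l 42) (.a (.l 42) (.b (.a (.l 42) .z) (.a .z
(.b .z (.l 42)))))) (.b (.a (.b (.a (.l 42) .z) (.a .z (.b .z (.l 42)))) (.b (.a (.b .z (.l 42)) (.a (.l 42) .z)) (.a (.l 42) .z))) (.a (.b (.a (.b .z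
(.l 42)) (.l 42)) (.l 42)) (.a (.a (.l 42) .z) .z)))) (.a (.b (.a (.b (.l 42) (.a (.b (.l 42) .z) (.b (.l 42) .z))) (.b (.a (.l 42) (.b (.l 42) .z))
.z)) (.a .z (.b (.a .z (.b .z (.l 47))) .z))) (.b (.b (.b (.a .z (.l 47)) (.a (.a .z (.l 47)) (.b (.l 47) .z))) (.b (.a (.b (.l 47) .z) .z) (.a .z (.l
47)))) (.b (.b (.b (.l 47) .z) (.l 47)) (.l 47)))))) (.a (.b (.b (.b (.a (.b .z (.a (.b .z (.l 51)) .z)) (.a .z (.l 108))) (.b .z (.a (.b (.a (.l 48)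
.z) .z) .z))) (.b (.l 51) (.b (.l 51) (.b .z (.l 56))))) (.b (.b (.l 56) (.a (.b (.l 56) (.a (.l 56) (.b (.l 56) .z))) (.b (.a (.b (.l 56) .z) .z)
.z))) (.b (.a (.b (.a .z (.b .z (.l 61))) (.a (.b .z (.l 61)) (.b (.l 61) .z))) (.b .z (.a .z (.b .z (.l 59))))) (.a (.b (.a .z (.b .z (.l 59))) (.a
(.b .z (.l 59)) (.l 59))) (.b (.b .z (.l 59)) (.l 59)))))) (.b (.a (.b (.a .z (.b .z (.b .z (.b (.l 52) .z)))) (.b (.b (.b (.a (.l 51) .z) (.l 51))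
(.l 51)) (.b (.b (.l 51) .z) (.b (.a .z (.l 56)) (.l 56))))) (.b (.a (.b .z (.a (.l 52) (.b .z (.l 52)))) (.b (.b .z (.l 45)) (.a .z (.b (.l 45)
.z)))) (.a (.b (.b .z (.l 51)) (.b (.b (.l 51) .z) (.l 56))) (.b (.a (.b .z (.l 51)) .z) (.b (.b (.l 51) .z) .z))))) (.b (.b (.a (.b (.a (.l 56) (.b
(.l 56) .z)) (.a (.b (.l 56) .z) .z)) (.b (.a .z (.b .z (.l 49))) (.a (.b (.l 49) .z) .z))) (.a (.b .z (.a .z (.b .z (.l 55)))) (.b (.a .z (.l 55))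
(.l 55)))) (.b (.a (.b (.a .z (.b (.l 55) .z)) (.b (.a .z (.l 60)) .z)) (.b (.b (.l 55) .z) (.b (.l 60) (.a .z (.l 60))))) (.b (.a (.b .z (.l 59)) (.b
.z (.a (.l 59) .z))) (.l 59))))))) (.b (.b (.a (.b (.b (.a (.b (.a (.l 42) .z) .z) (.b (.a (.b .z (.l 42)) (.l 42)) (.l 42))) (.a (.b (.a .z (.a .z
(.l 42))) (.a .z (.b (.l 42) .z))) (.b (.l 42) (.b (.l 42) .z)))) (.b .z (.a .z (.b .z (.a .z (.b .z (.l 43))))))) (.b (.b (.a (.a (.b (.a (.l 42) .z)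
(.l 42)) (.b .z (.a (.l 42) .z))) (.a (.b (.l 40) (.a .z (.l 40))) (.l 40))) (.a (.b (.l 42) (.b (.l 42) .z)) (.b (.a .z (.b (.l 40) .z)) (.a (.b (.l
42) .z) .z)))) (.b (.a .z (.b (.a .z (.l 43)) (.l 43))) (.a (.b (.a (.b .z (.l 43)) (.l 43)) (.l 43)) (.l 43))))) (.b (.a (.b (.a (.b (.a (.l 47) .z)
.z) (.b (.a (.b .z (.l 43)) (.l 43)) (.b (.l 43) .z))) (.b (.a .z (.l 48)) (.a (.b (.a (.l 47) .z) (.l 47)) (.b (.a .z (.l 48)) .z)))) (.b (.b (.l 43)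
(.b (.a (.l 43) .z) (.a .z (.a .z (.l 48))))) (.b (.l 48) (.a (.b (.l 48) (.a .z (.l 48))) (.l 48))))) (.b (.a (.a (.b (.b (.l 47) .z) (.l 47)) (.b .z
(.a (.b (.l 47) .z) .z))) (.b (.a .z (.b (.l 48) (.a .z (.l 48)))) (.a (.l 45) (.b .z (.a (.l 45) .z))))) (.a (.a (.b (.a (.l 47) .z) (.a .z (.b .z
(.l 45)))) (.b (.a (.b .z (.l 45)) (.l 45)) (.l 45))) (.l 45))))) (.a (.b (.a (.b (.b (.b (.a (.b .z (.l 45)) (.l 45)) (.l 45)) (.l 45)) (.a (.b (.a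
.z (.l 45)) .z) (.b (.b (.l 45) (.b (.l 45) .z)) (.a .z (.b .z (.l 58)))))) (.b (.l 45) (.b (.b (.a (.l 45) .z) (.a .z (.b .z (.l 53)))) (.b (.b (.a
(.l 53) .z) .z) (.l 58))))) (.a (.b (.a (.b (.b (.b (.l 49) .z) .z) (.l 55)) (.b .z (.a (.l 55) (.b .z (.l 55))))) (.b (.b (.b (.l 55) .z) (.a (.b (.l
60) .z) .z)) (.b (.b (.a .z (.l 53)) .z) (.b (.a (.l 59) .z) (.l 59))))) (.b (.a (.b (.l 58) (.a .z (.b (.l 58) .z))) (.l 58)) (.a (.b (.a .z (.b .z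
(.l 53))) (.b (.l 53) .z)) (.b (.a .z (.b (.l 58) .z)) .z))))) (.b (.b (.b (.a (.l 45) (.b (.l 45) (.a (.l 45) .z))) (.a (.b (.a (.l 45) (.b (.l 45)
.z)) (.a (.b (.l 45) .z) .z)) (.b .z (.l 53)))) (.b (.a (.b (.a (.b .z (.l 53)) (.l 53)) (.l 53)) (.l 53)) (.b (.b .z (.l 58)) (.l 58)))) (.a (.b (.b
(.l 58) (.b (.l 58) (.a (.l 58) (.b (.l 58) .z)))) (.a (.b (.b (.b (.l 58) .z) .z) .z) (.b (.b .z (.l 61)) .z))) (.b (.b (.l 58) (.b (.a (.l 58) (.b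
(.l 58) .z)) (.a .z (.b .z (.l 61))))) (.b (.b (.l 61) (.a (.l 61) .z)) (.b (.a .z (.b .z (.l 63))) (.b (.l 63) .z)))))))))

theorem vQ96 : ev Q96 I5_6 I6_61 = 279902721680939 := by decide +kernel

noncomputable def Q264 : QT :=
(.a (.b (.l 19) (.b (.a (.b (.b (.b (.l 19) (.b (.a (.l 19) (.b (.l 19) (.a (.l 19) .z))) (.a (.b (.a (.l 19) (.a (.l 19) .z)) .z) (.b (.a .z (.a .z
(.l 25))) (.l 25))))) (.l 25)) (.b (.a (.b (.l 25) (.a (.l 25) (.b (.l 25) (.a (.l 25) (.b (.l 25) .z))))) (.b (.a (.l 25) (.b (.a (.l 25) (.b (.l 25)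
.z)) .z)) (.a (.b (.a (.b (.l 25) .z) .z) .z) .z))) (.a (.b (.a (.b (.l 25) (.a (.b (.l 25) .z) .z)) .z) .z) (.b .z (.a .z (.l 83)))))) (.b (.a (.b
(.b (.l 19) (.b (.b (.a (.a (.l 19) .z) .z) (.a .z (.l 25))) (.l 25))) (.b (.a (.l 25) (.b (.l 25) (.a (.l 25) .z))) (.a (.b (.a (.l 25) (.b (.l 25)
.z)) (.a (.b (.l 25) .z) .z)) .z))) (.b (.a (.b (.b (.l 19) (.b (.l 19) .z)) (.b (.b (.a .z (.l 25)) (.l 25)) (.a (.l 25) (.b (.l 25) .z)))) (.b (.b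
(.l 19) (.b (.a (.l 19) .z) .z)) (.a (.b (.b (.l 25) .z) .z) .z))) (.a .z (.b .z (.a .z (.l 79)))))) (.a .z (.b (.a .z (.b (.a .z (.l 79)) .z)) (.a
(.b .z (.a .z (.b .z (.l 49)))) (.b (.a .z (.b .z (.l 49))) (.l 49))))))) (.a (.b (.a (.b (.b .z (.a (.b .z (.a (.l 56) .z)) (.a .z (.l 83)))) (.a .z
(.b (.l 83) .z))) (.b (.a (.l 83) (.b (.a (.l 83) .z) (.a .z (.b .z (.b .z (.l 25)))))) (.a (.b .z (.a .z (.b (.a .z (.l 25)) (.l 25)))) (.b (.a (.b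
(.a .z (.l 25)) (.l 25)) (.l 25)) (.l 25))))) (.a (.b (.a .z (.b .z (.a (.b .z (.a .z (.l 29))) (.l 29)))) (.a (.b (.a .z (.b .z (.a .z (.l 29)))) (.a
(.b .z (.a .z (.l 29))) (.l 29))) (.l 29))) (.b (.a (.b (.a (.b (.a .z (.l 25)) .z) (.b (.l 25) (.b .z (.l 29)))) (.l 29)) (.b (.b (.l 25) (.b .z (.l
29))) (.l 29))) (.l 29)))) (.b (.a (.b (.a (.b .z (.b .z (.l 25))) (.b (.a .z (.b .z (.l 49))) (.b .z (.l 25)))) (.l 25)) (.b (.b (.b (.l 49) (.b (.l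
49) (.a (.l 49) .z))) (.b (.b .z (.l 25)) (.l 25))) (.l 25))) (.b (.b (.b (.b (.a (.l 25) (.a (.a (.l 25) .z) .z)) (.a (.a (.a (.l 25) .z) .z) (.a .z
(.l 29)))) (.b (.a (.a .z (.l 29)) (.l 29)) (.l 29))) (.a (.l 29) (.a (.b (.l 29) (.a (.l 29) (.b (.l 29) .z))) (.b (.a (.l 29) .z) .z)))) (.a (.b (.a
(.l 29) (.b (.l 29) (.a (.l 29) .z))) (.a (.b (.a (.l 29) (.b (.l 29) .z)) .z) .z)) (.b (.a (.b (.a (.b (.l 29) .z) .z) .z) .z) .z))))))) (.b (.a (.b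
(.l 19) (.b (.a (.l 19) (.b (.a (.l 19) (.b (.l 19) (.a (.l 19) (.b (.l 19) (.a (.l 19) .z))))) (.a (.b (.l 19) (.a (.l 19) (.b (.l 19) (.a (.l 19)
.z)))) (.b (.a (.b (.l 19) (.a (.l 19) .z)) .z) .z)))) (.a (.b (.a (.l 19) (.b (.l 19) (.a (.l 19) (.b (.l 19) (.a (.l 19) .z))))) (.a (.b (.l 19) (.a
(.l 19) (.b (.a (.l 19) .z) .z))) (.b (.a (.b (.a (.l 19) .z) .z) .z) (.a (.b .z (.l 24)) (.b (.b .z (.l 24)) (.l 24)))))) (.b (.a (.b (.a (.b (.l 19)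
(.a (.l 19) .z)) .z) .z) (.b (.l 149) .z)) (.b .z (.b (.b (.a .z (.l 24)) (.l 24)) (.b (.l 24) (.a (.l 24) (.a (.l 24) .z))))))))) (.b (.a (.b (.l 19)
(.b (.l 19) (.a (.l 19) (.b (.a (.l 19) (.b (.a (.l 19) .z) .z)) (.a (.b (.a (.l 19) .z) .z) .z))))) (.b (.b (.l 19) (.a (.l 19) (.b (.a (.l 19) (.b
(.l 19) (.a (.l 19) .z))) (.a (.b (.l 19) (.a (.l 19) .z)) .z)))) (.a (.b (.b (.a (.l 19) (.b (.l 19) .z)) (.a (.b (.a (.l 19) .z) .z) .z)) (.b (.a .z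
(.l 96)) .z)) (.b (.b (.a .z (.l 96)) (.l 96)) (.a (.b (.l 96) .z) (.b (.l 96) .z)))))) (.a (.b (.b (.a (.b (.a (.l 19) (.b (.a (.l 19) .z) .z)) (.a
(.b (.a (.l 19) .z) .z) .z)) (.b (.a .z (.l 119)) (.l 119))) (.a (.a (.l 149) (.a .z (.l 119))) (.l 119))) (.a (.b .z (.b (.b .z (.b .z (.l 24))) (.b
(.l 24) (.b (.a (.l 24) .z) .z)))) (.b (.a (.b (.l 119) .z) (.b (.l 119) .z)) (.a (.b (.a (.b .z (.l 24)) .z) (.a (.b (.l 24) .z) .z)) .z)))) (.b (.a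
(.b (.l 119) (.a (.b (.l 119) .z) .z)) .z) .z)))) (.a (.b (.a (.b (.b (.a (.b (.a (.b (.a (.l 19) .z) .z) (.b (.a .z (.l 24)) .z)) .z) (.b (.b (.b (.l
24) .z) .z) .z)) (.a (.b .z (.l 79)) (.b (.l 79) .z))) (.b (.a (.b (.a (.l 79) .z) (.a .z (.b .z (.l 49)))) (.b (.a .z (.l 49)) (.l 49))) (.l 49)))
(.b (.a (.b (.b .z (.b .z (.l 79))) (.b .z (.a (.b .z (.l 49)) (.l 49)))) (.b (.b (.b .z (.l 79)) .z) (.a (.b (.b .z (.l 49)) (.l 49)) (.b (.l 49) (.a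
(.l 49) .z))))) (.a (.b (.l 49) (.a (.b (.l 49) (.b (.l 49) .z)) (.b (.l 49) .z))) (.b (.a (.b (.l 49) (.a (.l 49) .z)) (.b .z (.a .z (.b (.l 22)
.z)))) (.a .z (.b .z (.l 81))))))) (.a (.b (.a (.b (.b (.b (.l 49) (.b (.l 49) .z)) (.l 25)) (.l 25)) (.b (.b (.b (.a (.l 49) .z) .z) (.l 25)) (.a (.b
(.l 25) (.b (.l 25) (.b (.l 25) .z))) (.b (.a (.l 25) (.b (.l 25) .z)) (.a (.b (.l 25) .z) .z))))) (.a (.b (.b (.b (.b .z (.a (.l 29) .z)) (.a (.b (.l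
29) .z) .z)) .z) .z) (.b (.a .z (.b .z (.l 81))) (.a (.b .z (.b (.b .z (.l 31)) (.l 31))) (.b .z (.l 31)))))) (.b (.a (.b (.a (.b .z (.a (.b (.l 25)
.z) .z)) (.b .z (.l 81))) (.a (.b .z (.l 81)) (.l 81))) (.l 81)) (.b (.b (.a (.l 81) .z) .z) (.b (.b .z (.b .z (.l 31))) (.l 31)))))) (.b (.a (.b (.a
(.b (.a .z (.b .z (.a .z (.b .z (.l 22))))) (.a (.b .z (.a .z (.l 22))) (.l 22))) (.b (.a (.b .z (.l 22)) (.b .z (.l 22))) (.b (.l 22) (.a (.b (.l 22)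
(.a (.l 22) .z)) (.b (.a (.l 22) .z) .z))))) (.b (.a (.b (.a (.b (.l 22) (.a (.l 22) .z)) (.b (.a (.l 22) .z) .z)) (.a .z (.l 81))) (.b (.a .z (.l
81)) (.l 81))) (.l 81))) (.b (.b (.a (.b .z (.b (.a (.b .z (.l 22)) .z) (.l 22))) .z) (.a (.b (.a (.b (.l 22) .z) .z) (.a .z (.l 81))) (.b .z (.l
81)))) (.l 81))) (.b (.b (.a (.l 81) (.b (.l 81) (.a (.l 81) .z))) (.a (.b (.a (.l 81) (.b (.l 81) .z)) (.a (.b (.l 81) .z) .z)) .z)) (.b .z (.b (.b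
(.a .z (.b .z (.l 31))) (.l 31)) (.l 31))))))))

theorem vQ264 : ev Q264 I5_26 I5_29 = 686881033086515 := by decide +kernel

noncomputable def Q43 : QT :=
(.a (.b (.b (.a (.b (.l 32) (.b (.l 32) (.a (.b (.l 32) (.b (.l 32) (.a (.a (.l 32) (.a (.l 32) .z)) .z))) (.b (.a (.b (.l 32) (.a (.l 32) (.a (.l 32)
.z))) (.b (.a (.a (.l 32) .z) .z) .z)) .z)))) (.b (.a (.b (.l 32) (.a (.l 32) (.b (.l 32) (.a (.l 32) (.b (.a (.l 32) .z) .z))))) (.b (.a (.b (.l 32)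
(.a (.l 32) (.b (.l 32) (.a (.l 32) .z)))) (.b (.a (.b (.l 32) (.a (.l 32) .z)) .z) .z)) (.a (.b (.a (.b (.l 32) (.a (.l 32) .z)) .z) .z) (.l 137))))
(.a (.b (.a (.b (.a (.l 32) (.b (.l 32) (.a (.l 32) .z))) (.a (.b (.a (.l 32) .z) .z) .z)) .z) (.a (.b .z (.b .z (.l 128))) (.b .z (.l 128)))) (.b (.b
(.a (.l 137) .z) (.a .z (.b .z (.l 128)))) (.l 128))))) (.a (.b (.b (.a (.b (.b .z (.a (.l 36) (.a (.l 36) .z))) (.l 36)) (.b (.a .z (.b (.l 128) .z))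
(.a (.b .z (.a (.l 36) .z)) .z))) (.a (.l 36) (.b (.a (.l 36) (.a (.b .z (.l 36)) .z)) (.l 36)))) (.l 36)) (.b (.a (.b (.b (.l 128) (.a (.b (.l 128)
.z) (.l 128))) (.a (.b .z (.a (.b .z (.l 36)) .z)) .z)) (.b (.l 128) (.a (.b (.l 128) .z) (.l 128)))) (.a (.b (.a (.b (.a (.l 36) (.b .z (.l 36))) (.l
36)) (.b .z (.a (.l 36) .z))) (.l 36)) (.b (.a .z (.b (.a .z (.l 128)) .z)) (.a (.a (.b .z (.l 36)) .z) (.a .z (.b (.l 131) .z)))))))) (.b (.a (.b (.l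
36) (.b (.l 36) (.a (.b (.l 36) (.b (.l 36) (.a (.l 36) .z))) (.b (.a (.l 36) (.b (.a (.l 36) .z) (.a .z (.a .z (.l 18))))) (.a (.b .z (.a .z (.l
18))) (.b (.a (.a .z (.l 18)) (.l 18)) (.l 18))))))) (.b (.a (.b (.l 36) (.a (.l 36) (.b (.l 36) (.a (.l 36) .z)))) (.b (.a (.b (.a (.l 36) (.a (.l
36) .z)) (.a (.l 36) .z)) (.a (.b .z (.b .z (.l 18))) (.b (.a (.b .z (.l 18)) (.l 18)) (.l 18)))) (.a (.b (.a .z (.b (.a .z (.l 18)) (.l 18))) (.a (.b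
(.a .z (.l 18)) (.l 18)) (.l 18))) (.l 18)))) (.a (.b (.a (.b (.a (.l 36) (.b (.l 36) .z)) (.a .z (.b .z (.l 18)))) (.b (.a (.b .z (.a .z (.l 18)))
(.b (.a .z (.l 18)) (.l 18))) (.l 18))) (.a (.b (.a (.b (.a .z (.l 18)) (.l 18)) (.l 18)) (.l 18)) (.l 18))) (.l 18)))) (.a (.b (.b (.a (.b (.b (.a .z
(.a .z (.l 18))) (.a (.l 40) .z)) (.l 40)) (.b (.a (.b (.l 18) (.a .z (.l 18))) (.l 18)) (.a (.b .z (.l 40)) (.b (.a (.a .z (.l 18)) (.l 18)) (.a .z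
(.a .z (.l 18))))))) (.a (.l 40) (.b (.a (.l 40) (.b (.a (.l 40) .z) (.l 40))) (.l 40)))) (.l 40)) (.b (.a (.b (.l 18) (.a (.b (.a (.b (.a .z (.l 18))
.z) (.b (.l 18) (.a .z (.l 18)))) (.a (.l 40) .z)) (.b (.l 18) (.a (.b (.l 18) .z) (.l 18))))) (.l 18)) (.a (.b (.a (.l 40) (.b (.a (.b .z (.l 40))
(.b (.a .z (.l 18)) .z)) (.a (.l 40) (.b .z (.l 40))))) (.l 40)) (.b (.a (.b (.l 18) (.a (.b (.a .z (.l 18)) .z) (.b (.l 18) (.a .z (.l 18))))) (.l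
18)) (.a (.b (.a (.l 40) .z) .z) (.a (.b (.b (.l 18) (.a .z (.l 18))) .z) (.b (.l 18) (.a (.b (.l 18) .z) (.l 18))))))))))) (.b (.a (.b (.a (.b (.b
(.l 137) (.a (.b (.l 137) .z) (.b .z (.a .z (.l 128))))) (.b (.a (.b (.b .z (.l 128)) (.l 128)) (.l 128)) (.l 128))) (.b (.a (.b (.a .z (.b (.a (.b
(.l 14) (.a .z (.l 14))) (.l 14)) (.a .z (.b (.a .z (.l 14)) .z)))) (.a (.b .z (.l 128)) (.b .z (.a .z (.l 60))))) (.b (.l 14) (.a (.b (.a .z (.b (.l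
14) (.a .z (.l 14)))) (.a (.l 60) .z)) (.b (.l 14) (.a (.b (.a .z (.l 14)) .z) (.l 14)))))) (.a (.b (.a (.l 128) (.a (.a .z (.l 60)) (.l 60))) (.a (.a
(.l 128) .z) (.b (.a .z (.l 60)) (.a (.l 60) .z)))) (.b (.a (.l 60) .z) (.a (.b (.a (.l 60) .z) (.a .z (.b .z (.l 18)))) (.b (.a (.b .z (.l 18)) (.l
18)) (.l 18))))))) (.a (.b (.a (.l 128) (.b (.l 128) (.a (.b (.l 128) .z) (.b .z (.a .z (.b .z (.l 18))))))) (.a (.b (.a (.b (.l 128) .z) (.b (.l 128)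
.z)) (.a (.b .z (.a (.b .z (.l 18)) (.l 18))) (.b (.a (.b .z (.l 18)) (.l 18)) (.l 18)))) (.b (.a (.b .z (.a (.b .z (.l 18)) (.l 18))) (.l 18)) (.l
18)))) (.b (.a (.b (.a .z (.b .z (.a (.b .z (.l 18)) (.l 18)))) (.a (.b (.a .z (.l 18)) (.l 18)) (.l 18))) (.l 18)) (.l 18)))) (.b (.a (.b (.l 14) (.a
(.b (.a (.b (.a (.b (.l 14) (.a .z (.l 14))) (.l 14)) (.a .z (.b (.l 14) .z))) (.l 14)) (.a (.b (.a (.l 18) (.b .z (.l 18))) (.l 18)) (.b (.a (.b (.a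
.z (.l 14)) .z) (.l 14)) (.a (.b .z (.l 18)) (.b (.a .z (.l 14)) .z))))) (.b (.l 14) (.a (.b (.l 14) (.a (.b (.l 14) (.a .z (.l 14))) (.l 14))) (.l
14))))) (.l 14)) (.a (.b (.a (.l 18) (.b (.a (.b (.a .z (.b (.l 14) (.a .z (.l 14)))) (.a (.l 18) .z)) (.b (.l 14) (.a (.b (.l 14) .z) (.l 14)))) (.a
(.l 18) (.b (.a (.b .z (.l 18)) (.b (.a .z (.l 14)) .z)) (.a (.l 18) (.b .z (.l 18))))))) (.l 18)) (.b (.a (.b (.l 14) (.a (.b (.l 14) (.a (.b (.a .z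
(.l 14)) .z) (.l 14))) (.l 14))) (.l 14)) (.a (.b (.a (.b (.a (.b .z (.l 18)) (.b (.a .z (.l 14)) .z)) (.a (.l 18) (.b .z (.l 18)))) (.b (.l 14) (.a
(.b (.a .z (.l 14)) .z) (.l 14)))) (.a (.l 18) (.b (.a (.b .z (.l 18)) .z) (.l 18)))) (.b (.l 14) (.a (.b (.a (.b (.l 14) (.a .z (.l 14))) (.l 14))
(.a .z (.b (.l 14) (.a .z (.l 14))))) (.l 14)))))))) (.a (.l 18) (.b (.a (.l 18) (.b (.a (.l 18) (.a (.b (.b (.a (.l 18) .z) (.l 18)) (.l 18)) (.b (.a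
(.b (.a (.b (.l 14) .z) (.l 14)) .z) (.b (.l 14) (.a (.b (.l 14) .z) (.l 14)))) (.a (.l 18) (.b .z (.l 18)))))) (.l 18))) (.l 18)))))

theorem vQ43 : ev Q43 I4_0 I6_56 = 846739657054079 := by decide +kernel

noncomputable def Q163 : QT :=
(.b (.b (.b (.b (.a (.l 25) (.b (.l 25) (.a (.l 25) (.b (.l 25) (.a (.b (.l 25) (.a (.l 25) .z)) .z))))) (.a (.b (.a (.l 25) (.b (.l 25) (.a (.l 25)
(.b (.a (.l 25) .z) .z)))) (.a (.b (.a (.l 25) (.b (.l 25) .z)) (.a (.b .z (.a .z (.l 29))) (.b .z (.a (.l 29) .z)))) (.b (.a .z (.b .z (.l 57))) (.b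
(.l 57) (.a .z (.l 57)))))) (.b (.a (.b (.a (.b (.l 25) (.a (.l 25) .z)) (.b (.a (.l 25) .z) .z)) (.a (.b .z (.l 57)) (.l 57))) (.b (.a (.b .z (.l
57)) (.l 57)) (.l 57))) (.l 57)))) (.a (.b (.b (.b (.a (.l 29) (.b (.a (.a (.l 29) .z) .z) (.a (.l 29) (.a (.l 29) .z)))) (.l 29)) (.l 29)) (.l 29))
(.b (.a (.b (.b (.b (.l 57) (.a .z (.l 57))) (.b (.a (.a (.l 29) .z) .z) (.a (.l 29) (.a (.l 29) .z)))) (.l 29)) (.b (.b (.l 57) (.a (.b (.l 57) .z)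
(.l 57))) (.a (.b (.b (.a (.l 29) .z) (.l 29)) (.l 29)) (.b (.a (.b .z (.l 29)) .z) .z)))) (.a (.b (.a (.l 29) (.b (.l 29) (.a (.l 29) (.b (.l 29)
.z)))) (.a (.b (.l 29) (.a (.l 29) (.b (.l 29) .z))) (.b (.a (.b (.l 29) .z) .z) (.a .z (.l 30))))) (.b (.a (.b (.a (.l 29) .z) .z) (.b .z (.l 123)))
(.a (.b .z (.a (.l 30) .z)) (.b (.l 123) .z))))))) (.b (.a (.b (.a (.l 29) (.b (.a (.l 29) (.b (.l 29) (.a (.b (.l 29) .z) .z))) (.a (.b (.a (.l 29)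
(.b (.l 29) .z)) (.a (.b (.l 29) .z) .z)) (.b (.a .z (.l 30)) (.b (.a (.l 30) .z) .z))))) (.a (.b (.a (.b (.l 29) (.a (.l 29) (.b (.l 29) .z))) (.b
(.a (.l 29) .z) .z)) (.a (.b (.a (.b (.l 29) .z) .z) (.a .z (.l 33))) (.l 33))) (.b (.a (.b .z (.l 33)) (.b (.b (.l 31) (.a .z (.l 31))) (.b .z (.l
33)))) (.l 33)))) (.b (.a (.b (.a (.b (.a .z (.b .z (.l 30))) (.a (.b .z (.l 30)) (.l 30))) (.l 30)) (.b (.a (.b (.l 30) (.a (.l 30) .z)) (.b (.a (.l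
30) .z) .z)) (.a (.b .z (.l 31)) (.l 31)))) (.b (.b (.a (.l 30) (.a (.b .z (.l 30)) .z)) (.a (.b (.l 30) (.a (.l 30) .z)) (.b (.a (.l 30) .z) .z)))
(.b (.a (.b .z (.l 31)) (.l 31)) (.l 31)))) (.b (.b (.l 31) (.a (.b (.a (.a .z (.l 31)) (.l 31)) (.a .z (.a .z (.l 31)))) (.l 31))) (.b (.a (.b (.a
(.l 33) .z) (.l 33)) (.b (.a .z (.l 31)) .z)) (.a (.l 33) (.b (.a (.l 33) .z) (.l 33))))))) (.b (.l 33) (.b (.a (.l 33) (.b (.a (.l 33) (.a (.l 33)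
(.b (.l 33) .z))) (.a (.b (.l 33) (.a (.l 33) .z)) .z))) (.a (.b (.a (.l 33) (.b (.l 33) (.a (.l 33) .z))) (.a (.b (.l 33) (.a (.l 33) .z)) .z)) (.b
(.a .z (.l 73)) (.a (.b (.l 73) .z) (.l 73)))))))) (.b (.b (.b (.b (.a (.b (.a (.b .z (.l 37)) (.l 37)) (.l 37)) (.a (.b (.b .z (.a (.l 37) .z)) (.l
37)) (.a (.b .z (.b .z (.l 37))) (.b (.l 73) .z)))) (.a (.l 37) (.a (.l 37) (.a (.b (.a (.l 37) .z) .z) .z)))) (.a (.a (.l 37) (.b (.l 37) (.a (.l 37)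
(.b (.l 37) .z)))) (.a (.b (.a (.b (.l 37) (.a (.l 37) .z)) (.b (.a (.l 37) .z) .z)) (.a .z (.b (.b (.l 38) .z) (.b .z (.l 39))))) (.b (.a (.b .z (.l
38)) .z) (.b (.b .z (.a .z (.l 39))) (.l 39)))))) (.a (.b (.a (.b (.l 37) (.a (.b (.l 37) (.a (.l 37) .z)) (.b .z (.a .z (.l 41))))) (.b (.a (.b (.a
(.l 37) .z) .z) (.b .z (.l 41))) (.a (.b (.a .z (.l 41)) (.l 41)) (.l 41)))) (.a (.b (.a (.b .z (.l 41)) (.l 41)) (.l 41)) (.b (.l 41) (.b (.l 41) (.b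
(.l 41) (.a (.l 41) .z)))))) (.b (.b (.b (.a (.b (.a .z (.l 39)) .z) (.l 39)) (.a (.b (.a (.l 41) .z) (.l 41)) (.b (.a .z (.l 39)) .z))) (.b (.a (.l
41) (.b (.a (.l 41) .z) (.l 41))) (.l 41))) (.b (.b (.l 41) (.a (.l 41) (.b (.l 41) (.a (.l 41) .z)))) (.b (.a (.b (.l 41) (.a (.l 41) .z)) .z) (.a .z
(.l 89))))))) (.b (.b (.b (.a (.b (.a (.b (.l 41) .z) (.b .z (.a .z (.l 45)))) (.a (.b (.a .z (.l 45)) (.l 45)) (.l 45))) (.a (.b (.b .z (.a (.l 45)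
.z)) (.l 45)) (.a (.b .z (.b .z (.l 45))) (.b (.l 89) .z)))) (.a (.l 45) (.a (.l 45) (.a (.b (.a (.l 45) .z) .z) .z)))) (.a (.a (.l 45) (.b (.l 45)
(.a (.b (.l 45) (.a (.l 45) .z)) (.b (.a (.l 45) .z) .z)))) (.a (.b (.a (.b (.l 45) .z) .z) (.a (.b .z (.l 49)) (.b .z (.b .z (.l 49))))) (.b (.a (.b
(.a .z (.l 46)) .z) (.b .z (.b .z (.l 47)))) (.b (.l 47) (.b .z (.a (.l 49) .z))))))) (.a (.b (.a (.b (.a (.l 45) (.b (.l 45) .z)) (.a (.b (.a (.l 45)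
.z) .z) (.b (.a .z (.l 49)) (.l 49)))) (.b (.a (.b .z (.a .z (.l 49))) (.l 49)) (.l 49))) (.b (.b (.a (.l 49) (.b (.a (.l 49) .z) .z)) (.a (.b .z (.a
.z (.l 53))) (.b (.a .z (.l 53)) (.l 53)))) (.l 53))) (.b (.b (.l 49) (.b (.a (.l 49) (.b (.l 49) (.a (.l 49) .z))) (.a (.b (.l 49) .z) .z))) (.b (.b
(.a (.b .z (.a (.l 53) .z)) (.b (.l 105) .z)) (.a (.l 53) (.a (.b .z (.l 53)) .z))) (.a (.a (.l 53) (.b (.l 53) (.a (.l 53) .z))) (.a (.b (.a (.l 53)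
.z) .z) .z))))))))

theorem vQ163 : ev Q163 I6_31 I5_29 = 372647092408122 := by decide +kernel

noncomputable def Q92 : QT :=
(.b (.b (.b (.a (.a (.b (.b (.a (.b (.l 59) (.b .z (.l 64))) (.b (.a (.l 59) (.b .z (.l 59))) (.a (.b .z (.l 64)) .z))) (.a (.b (.l 64) (.a .z (.b (.l
64) .z))) (.b (.a (.b (.l 64) .z) .z) (.a .z (.l 65))))) (.b (.a (.b .z (.a .z (.l 65))) (.l 65)) (.l 65))) (.b (.b (.a (.b (.a .z (.l 60)) .z) (.l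
60)) (.a (.a (.l 65) (.b (.a (.l 65) .z) (.l 65))) (.a (.b .z (.a (.l 65) .z)) (.b (.b .z (.l 61)) .z)))) (.a (.l 65) (.b (.a (.l 65) (.b (.a (.l 65)
.z) (.l 65))) (.l 65))))) (.a (.b (.b (.l 60) (.b (.b (.a (.a .z (.l 60)) (.l 60)) .z) (.l 61))) (.a (.b (.a (.b .z (.a (.l 65) .z)) (.b (.l 61) .z))
(.a (.l 65) (.b (.a (.l 65) .z) (.l 65)))) (.b (.b (.l 61) (.b (.l 61) (.a .z (.l 61)))) (.a (.b .z (.a (.l 65) .z)) .z)))) (.b (.b (.l 60) (.a (.b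
(.b (.l 60) (.a .z (.l 60))) (.b .z (.l 61))) (.b (.l 60) .z))) (.b (.a (.b (.a (.l 61) (.b (.l 61) .z)) (.a (.b (.l 61) .z) .z)) (.b .z (.a (.l 68)
.z))) (.a (.b (.a .z (.l 68)) .z) (.b (.a (.l 68) .z) .z)))))) (.a (.b (.b (.b (.a (.b (.l 65) (.a .z (.l 65))) (.l 65)) (.a (.b .z (.a (.l 72) .z))
(.b (.a .z (.l 65)) .z))) (.b (.b (.a .z (.l 73)) (.l 73)) (.b .z (.l 78)))) (.a (.b (.l 78) (.a (.b (.b (.l 78) .z) .z) (.b (.l 78) (.b .z (.l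
79))))) (.b (.l 78) (.a (.b (.l 78) .z) (.b (.a (.l 78) .z) .z))))) (.b (.a (.a (.b (.b (.l 65) (.b (.l 65) .z)) (.b (.b .z (.l 73)) (.b .z (.l 78))))
(.b (.a (.l 65) (.b .z (.l 65))) (.b (.b .z (.l 73)) (.b .z (.l 78))))) (.b (.a .z (.l 73)) (.a .z (.b (.a (.l 73) .z) .z)))) (.a (.b (.a (.b (.l 78)
(.a (.l 78) .z)) .z) .z) (.b (.a .z (.b (.b .z (.l 79)) .z)) (.b (.b .z (.a (.l 83) .z)) .z)))))) (.b (.a (.b (.a (.b (.a (.b (.a (.l 83) .z) (.l 83))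
.z) (.a (.b (.l 83) .z) (.b (.a (.l 83) .z) .z))) (.b (.a (.b (.a (.l 79) .z) .z) .z) .z)) (.a .z (.b (.b (.b (.a (.l 99) .z) .z) .z) .z))) (.b (.a
(.b (.b (.b (.l 87) .z) (.b .z (.a (.l 91) .z))) (.a (.b .z (.b .z (.l 100))) .z)) (.b (.a (.b (.b (.l 87) .z) .z) .z) (.a (.b (.a (.l 96) .z) .z) (.b
(.a .z (.l 81)) .z)))) (.a (.b (.a .z (.b .z (.l 94))) (.a .z (.b (.b (.l 94) .z) .z))) (.b (.b (.b (.l 85) .z) (.a (.l 94) .z)) (.b (.b (.l 94) .z)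
(.b .z (.l 100))))))) (.a (.b (.a (.b .z (.a .z (.b .z (.b (.l 103) .z)))) (.b (.a .z (.b (.b (.l 95) .z) .z)) (.a (.b .z (.b (.l 103) .z)) .z))) (.b
(.b (.b (.l 112) .z) (.b .z (.a .z (.l 118)))) (.a (.b (.a (.b (.l 113) .z) (.b .z (.l 113))) .z) (.b (.a (.b .z (.l 113)) .z) .z)))) (.b (.a (.b (.b
(.b (.a (.l 95) .z) (.l 95)) (.a (.b (.l 95) .z) (.l 95))) (.a .z (.b .z (.b .z (.l 114))))) (.b (.b (.b .z (.a (.l 95) .z)) (.l 95)) (.b (.a (.b (.l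
95) .z) .z) .z))) (.a .z (.b .z (.a .z (.b (.b .z (.l 124)) (.a .z (.l 124)))))))))) (.b (.b (.b (.a .z (.b (.a (.b (.b .z (.l 132)) .z) .z) .z)) .z)
.z) .z))

theorem vQ92 : ev Q92 I5_4 I5_31 = 194549170166062 := by decide +kernel

noncomputable def Q223 : QT :=
(.b (.a (.b (.a (.b (.a (.b (.a (.l 23) (.b (.a (.b (.a (.l 23) .z) (.l 23)) (.b .z (.a (.l 23) .z))) (.l 23))) (.l 23)) (.b (.a (.b (.a (.b (.l 25)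
(.a .z (.l 25))) (.l 25)) (.a (.b .z (.l 23)) (.b (.a .z (.l 25)) .z))) (.l 25)) (.a (.b (.a (.l 23) (.b (.a (.l 23) .z) (.l 23))) (.l 23)) (.b (.a
(.b (.a .z (.l 25)) .z) (.l 25)) (.a (.b (.a (.l 23) .z) (.l 23)) (.b .z (.a (.l 23) .z))))))) (.l 23)) (.b (.a (.b (.l 25) (.a (.b (.l 25) (.a (.b
(.l 25) (.a .z (.l 25))) (.l 25))) (.l 25))) (.l 25)) (.a (.b (.a (.b (.a (.b .z (.a (.l 23) .z)) (.b (.l 25) (.a .z (.l 25)))) (.a (.l 23) (.b .z (.a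
(.l 23) .z)))) (.b (.l 25) (.a (.b (.l 25) (.a .z (.l 25))) (.l 25)))) (.a (.l 23) (.b (.a (.b .z (.a (.l 23) .z)) (.b (.l 25) (.a .z (.l 25)))) (.a
(.l 23) (.b .z (.a (.l 23) .z)))))) (.a (.b (.l 25) (.a (.b (.l 25) (.a (.b (.l 25) .z) (.l 25))) (.l 25))) (.l 25))))) (.a (.l 23) (.b (.a (.l 23)
(.b (.a (.a (.b (.a (.b .z (.l 23)) .z) (.l 23)) (.b (.a (.b (.l 25) .z) (.l 25)) (.a (.b .z (.l 23)) .z))) (.a (.b (.l 25) (.a (.b (.l 25) .z) (.l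
25))) (.l 25))) (.a (.l 23) (.b (.a (.a (.b .z (.l 23)) .z) (.b (.a (.l 25) .z) .z)) (.a (.b (.l 23) .z) .z))))) (.a (.b (.a (.l 23) (.b (.l 23) (.a
(.l 23) (.b (.l 23) .z)))) (.a (.b (.a (.l 23) (.b (.l 23) (.a (.l 23) .z))) (.a (.b (.l 23) .z) (.b .z (.a .z (.l 19))))) (.b (.a (.b (.a (.l 23) .z)
.z) (.b (.a .z (.l 19)) (.l 19))) (.l 19)))) (.b (.a (.b (.a (.b (.l 23) (.a (.l 23) .z)) (.b (.a (.l 23) .z) .z)) (.a (.b .z (.a .z (.l 19))) (.l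
19))) (.b (.a (.b (.a .z (.l 19)) (.l 19)) (.a (.l 19) (.b .z (.l 19)))) (.l 19))) (.l 19)))))) (.b (.a (.b (.a (.a (.l 25) (.b (.l 25) (.a (.l 25)
(.b (.a (.l 25) .z) .z)))) (.a (.b (.a (.b (.a (.l 25) .z) .z) .z) .z) (.b (.b .z (.l 143)) (.l 143)))) (.a (.a (.b (.l 25) (.a (.l 25) (.b (.a (.l
25) .z) .z))) (.b (.a (.b (.a (.l 25) .z) .z) .z) (.a (.b .z (.l 82)) (.b .z (.l 82))))) .z)) (.b (.a (.b .z (.a (.b (.l 143) .z) (.b .z (.a .z (.b .z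
(.l 34)))))) (.b (.a .z (.b (.a .z (.b .z (.l 34))) (.a (.b .z (.l 34)) (.l 34)))) (.a (.b (.a .z (.l 34)) (.l 34)) (.l 34)))) (.a (.b (.a .z (.b (.a
(.b (.l 34) .z) (.l 34)) (.a .z (.b (.l 34) .z)))) .z) (.a (.b (.l 34) (.b (.a (.b (.l 34) .z) (.l 34)) .z)) (.b (.l 34) (.a (.l 34) (.b (.l 34) (.a
(.l 34) .z)))))))) (.a (.b (.a (.b (.a (.b (.a (.a (.l 25) .z) .z) .z) (.b .z (.a .z (.l 87)))) (.a (.b .z (.l 87)) (.l 87))) (.b (.a (.b .z (.a (.l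
87) .z)) .z) (.a (.a (.l 87) .z) .z))) (.a (.a (.b (.a (.b .z (.a (.l 19) (.b .z (.l 19)))) (.b (.l 87) .z)) (.a (.l 19) (.b (.a (.l 19) .z) (.l
19)))) (.b (.l 87) (.a (.b .z (.a (.b .z (.l 19)) .z)) .z))) .z)) (.a (.b (.b (.b .z (.a .z (.a .z (.l 117)))) (.a .z (.a .z (.a .z (.l 117))))) .z)
(.b (.a (.b (.b .z (.b .z (.l 117))) (.a (.l 117) (.b (.l 117) .z))) (.b (.a .z (.b .z (.a .z (.l 55)))) (.a (.b .z (.a .z (.l 55))) (.l 55)))) (.a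
(.b (.a .z (.b (.a .z (.l 55)) (.l 55))) (.a (.b (.a .z (.l 55)) (.l 55)) (.l 55))) (.l 55))))))) (.a (.b (.a (.b (.a (.b (.l 23) (.a (.b (.l 23) (.a
(.l 23) (.b (.l 23) (.a (.l 23) .z)))) (.b (.a (.l 23) (.b (.l 23) (.a (.l 23) .z))) (.a (.b (.a (.l 23) .z) .z) (.b .z (.l 19)))))) (.b (.a (.b (.l
23) (.a (.l 23) (.b (.a (.l 23) .z) .z))) (.b (.a (.b (.l 23) (.a (.l 23) .z)) (.b (.a (.l 23) .z) .z)) (.a (.b .z (.l 19)) (.l 19)))) (.a (.b (.a (.b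
.z (.a .z (.l 19))) (.b (.a .z (.l 19)) (.l 19))) (.l 19)) (.l 19)))) (.a (.b (.a (.b (.a (.b (.l 23) .z) (.b .z (.a .z (.l 19)))) (.a (.b (.a .z (.l
19)) (.l 19)) (.l 19))) (.l 19)) (.l 19)) (.l 19))) (.b (.a (.b (.a (.b (.a (.b (.a .z (.l 19)) (.l 19)) (.l 19)) (.l 19)) (.l 19)) (.l 19)) (.l 19))
(.l 19))) (.l 19)) (.a (.b (.a (.b (.a (.l 19) (.b (.a (.l 19) (.b .z (.a (.l 19) (.b .z (.l 19))))) (.l 19))) (.l 19)) (.b (.a (.b .z (.a (.b (.a (.b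
.z (.l 19)) .z) (.l 19)) .z)) (.b .z (.l 296))) (.a (.b (.a (.l 19) (.b (.a (.l 19) .z) (.l 19))) (.l 19)) (.b (.a (.b .z (.a (.b .z (.l 19)) .z)) .z)
(.a (.b (.a (.l 19) (.b .z (.l 19))) (.l 19)) (.b .z (.a (.b .z (.l 19)) .z))))))) (.a (.l 19) (.b (.a (.l 19) (.b (.a (.l 19) (.b (.a (.l 19) (.b .z
(.l 19))) (.l 19))) (.l 19))) (.l 19)))) (.a (.b (.b (.a (.b .z (.a .z (.b .z (.a .z (.l 55))))) (.b (.a (.b .z (.a .z (.l 55))) (.b (.a .z (.l 55))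
(.l 55))) (.l 55))) (.a (.b (.a (.b .z (.a .z (.l 55))) (.l 55)) (.l 55)) (.l 55))) (.a (.b (.a (.b (.b (.a .z (.l 55)) (.a (.b .z (.l 19)) .z)) (.a
(.l 19) (.b (.a (.l 19) .z) (.l 19)))) (.b (.l 55) (.a (.b .z (.a (.l 19) .z)) (.b (.l 55) .z)))) (.a (.l 19) (.b (.a (.l 19) (.b (.a (.l 19) .z) (.l
19))) (.l 19)))) (.b (.l 55) (.a (.b (.a (.b .z (.a (.l 19) .z)) (.b (.l 55) .z)) (.a (.l 19) (.b (.a (.l 19) .z) (.l 19)))) (.b (.l 55) (.a .z (.b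
(.l 55) .z))))))) (.l 55)))))

theorem vQ223 : ev Q223 I5_22 I5_25 = 767942861698107 := by decide +kernel

noncomputable def Q243 : QT :=
(.a (.b (.a (.b (.b (.b (.b (.a .z (.b (.l 48) (.a .z (.l 48)))) .z) (.b .z (.a (.l 183) .z))) .z) (.a (.b (.b (.a (.l 165) .z) .z) (.a (.b (.b .z (.l
86)) (.b .z (.l 105))) (.b (.a (.l 86) .z) .z))) (.b (.a .z (.b .z (.a .z (.b .z (.l 33))))) (.a (.b (.a .z (.b .z (.l 33))) (.l 33)) (.l 33))))) (.b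
(.a (.b (.b (.b (.l 48) (.b (.a .z (.l 48)) .z)) .z) (.a .z (.b .z (.a (.b .z (.l 45)) (.l 45))))) (.b (.a (.b (.l 48) .z) (.b (.a (.b (.l 48) .z) (.b
.z (.a (.b .z (.l 11)) (.l 11)))) (.a (.b .z (.l 45)) (.b (.b (.b (.l 11) .z) .z) (.l 45))))) (.a (.b (.a (.b .z (.l 45)) (.l 45)) (.l 45)) (.l 45))))
(.a (.b (.a (.b (.a .z (.b .z (.l 45))) (.b .z (.l 33))) (.b (.l 45) (.b (.b .z (.l 33)) (.l 33)))) (.l 33)) (.b (.b (.b (.l 45) (.b (.a (.l 45) .z)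
.z)) (.b (.b (.a .z (.l 33)) (.l 33)) (.l 33))) (.l 33))))) (.a (.b (.a (.b (.a (.b .z (.a (.b .z (.l 33)) (.l 33))) (.b (.a (.b .z (.l 33)) (.l 33))
(.l 33))) (.b (.l 33) (.b (.l 33) (.b (.l 33) (.b (.l 33) .z))))) (.b (.l 33) (.b (.l 33) (.b (.l 33) (.b (.l 33) (.b .z (.a .z (.l 18)))))))) (.b (.b
(.b (.a (.b (.a (.b (.l 18) .z) (.l 18)) (.a (.b .z (.a (.l 15) .z)) (.b (.l 18) .z))) (.l 18)) (.a (.b (.a (.l 15) (.b (.a (.l 15) .z) (.l 15))) (.l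
15)) (.b (.a .z (.b (.l 18) .z)) (.a (.l 15) (.b .z (.a (.l 15) .z)))))) (.b (.a (.l 15) (.b (.l 15) (.a (.b (.l 15) (.a (.l 15) .z)) (.b (.a (.l 15)
.z) .z)))) (.a (.b (.a (.l 15) (.b (.a (.l 15) .z) .z)) .z) (.b (.a .z (.l 37)) (.l 37))))) (.a (.b (.b (.b (.l 37) .z) .z) .z) (.a (.b (.b (.b (.l
37) .z) .z) .z) (.b .z (.a (.b .z (.l 45)) (.l 45))))))) (.b (.b (.l 33) (.a (.b (.l 33) (.b (.l 33) (.b (.l 33) (.b .z (.l 18))))) (.b (.a (.l 33)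
(.b (.l 33) (.a (.l 33) .z))) (.a (.b (.l 33) .z) .z)))) (.b (.a (.b (.a (.b (.l 18) (.b (.l 18) (.b (.l 18) .z))) (.b (.a (.l 18) (.b (.l 18) .z))
(.a (.b (.l 18) .z) .z))) (.a (.b (.a (.b (.b (.l 15) .z) .z) .z) .z) .z)) (.b .z (.b .z (.b .z (.a .z (.l 40)))))) (.a (.a (.b (.a (.b .z (.l 45))
(.b .z (.l 45))) (.l 45)) (.b (.b .z (.l 45)) (.l 45))) (.b (.b (.b (.l 40) (.b .z (.l 45))) (.l 45)) (.l 45))))))) (.b (.a (.b (.a (.b (.a (.b (.a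
(.b (.a (.b .z (.l 11)) (.l 11)) (.l 11)) (.l 11)) (.b (.b (.b (.l 11) .z) (.l 45)) (.l 45))) (.b (.l 11) (.b (.b (.b (.l 11) .z) (.l 45)) (.l 45))))
(.l 45)) (.b (.b (.l 11) (.b (.b (.b (.a (.a (.l 11) .z) .z) .z) (.l 45)) (.l 45))) (.b (.l 45) (.b (.l 45) (.b (.l 45) (.a (.l 45) .z)))))) (.b (.b
(.b (.a (.b (.l 45) (.a (.l 45) .z)) (.b .z (.a .z (.l 33)))) (.a (.b .z (.l 33)) (.l 33))) (.l 33)) (.a (.l 33) (.b (.a (.l 33) (.b (.l 33) (.a (.l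
33) .z))) (.a (.b (.l 33) (.a (.l 33) .z)) .z))))) (.b (.b (.b (.b (.l 11) (.b (.l 11) (.b (.l 11) (.a (.l 11) .z)))) (.b (.b (.b .z (.l 45)) (.l 45))
(.l 45))) (.a (.b (.l 45) (.b (.l 45) (.b (.a (.l 45) .z) .z))) (.b (.l 45) (.a (.b (.b (.l 45) .z) (.b .z (.l 33))) (.b .z (.a .z (.b .z (.a .z (.l
13))))))))) (.b (.a (.b (.l 33) (.a (.l 33) (.b (.a (.l 33) .z) .z))) (.b (.a (.b (.a (.l 33) .z) .z) (.b (.a .z (.b (.l 13) .z)) (.b .z (.l 51))))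
(.a (.b (.a .z (.l 51)) .z) (.b (.l 51) (.a .z (.l 51)))))) (.a (.b (.a .z (.b .z (.l 117))) (.l 117)) (.b (.a (.l 117) .z) (.l 117)))))) (.b (.a (.b
(.a (.b (.a (.l 33) (.b (.l 33) (.a (.l 33) .z))) (.a (.b (.l 33) (.a (.l 33) .z)) .z)) .z) (.a .z (.b .z (.a .z (.b .z (.l 130)))))) (.b .z (.b (.b
(.b .z (.a .z (.l 130))) (.a .z (.a (.l 130) .z))) (.a (.b (.l 130) .z) (.b (.a (.l 130) .z) .z))))) (.b (.a (.b .z (.a (.b .z (.b .z (.a (.l 40)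
.z))) .z)) .z) (.b (.b (.b (.b (.a (.a (.l 40) .z) .z) .z) (.b (.a .z (.a .z (.l 60))) (.a (.a (.l 45) .z) (.a .z (.l 60))))) (.a (.a (.l 45) (.a (.a
(.l 45) .z) .z)) (.a (.b .z (.l 84)) (.b (.a .z (.l 60)) .z)))) (.a (.a (.a (.l 45) (.b (.a (.l 45) .z) .z)) (.a (.b .z (.l 84)) (.l 84))) (.b (.a (.l
84) (.b .z (.l 84))) (.l 84))))))))

theorem vQ243 : ev Q243 I6_44 I5_28 = 265120282960886 := by decide +kernel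

noncomputable def Q60 : QT :=
(.a (.b (.a (.b (.b .z (.a .z (.b (.a (.a .z (.l 99)) (.b (.a (.l 99) .z) (.l 99))) (.l 99)))) (.a (.b (.a .z (.b (.a .z (.b (.l 99) .z)) .z)) .z) (.b
(.b (.l 99) .z) (.b .z (.a .z (.a (.l 250) .z)))))) (.b (.a (.b .z (.b .z (.a (.a (.b .z (.l 99)) .z) .z))) (.b (.a (.b (.a .z (.b (.l 110) .z)) .z)
(.b (.a (.b (.l 110) .z) .z) .z)) (.a (.a .z (.a (.b .z (.a .z (.b .z (.l 26)))) (.b (.a .z (.b .z (.l 26))) (.l 26)))) (.b (.a (.b (.a (.l 26) (.b .z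
(.l 26))) (.l 26)) (.b .z (.a (.b .z (.l 26)) .z))) (.l 26))))) (.a (.a (.b (.b (.b (.l 99) .z) .z) .z) (.a .z (.b .z (.a .z (.b .z (.a (.b .z (.l
26)) (.l 26))))))) (.b (.a (.a (.a (.b .z (.a .z (.b .z (.l 26)))) (.b (.a .z (.b .z (.l 26))) (.l 26))) (.l 26)) (.l 26)) (.a (.l 26) (.b (.l 26) (.a
(.b (.l 26) (.a (.l 26) (.b (.l 26) .z))) (.b (.a (.l 26) (.b (.l 26) .z)) .z)))))))) (.a (.b (.a .z (.b (.a .z (.b (.b (.l 250) .z) .z)) .z)) (.a (.b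
(.a (.b .z (.b .z (.b (.a (.l 51) .z) (.l 51)))) (.b .z (.a (.b .z (.b .z (.l 51))) .z))) (.a (.b (.a (.l 51) (.b (.l 51) .z)) (.a (.b .z (.a (.b .z
(.l 20)) (.l 20))) (.b (.a (.b .z (.l 20)) (.l 20)) (.l 20)))) (.b (.a (.b .z (.a (.b .z (.l 20)) (.l 20))) (.b (.a (.b .z (.l 20)) (.l 20)) (.l 20)))
(.l 20)))) (.b (.a .z (.b .z (.b .z (.b .z (.l 104))))) (.b (.b (.a (.b .z (.a (.l 20) (.b .z (.l 20)))) (.b (.l 104) .z)) (.a (.l 20) (.b (.a (.b .z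
(.l 20)) .z) (.a (.l 20) (.b .z (.l 20)))))) (.l 20))))) (.b (.a (.b (.a .z (.b (.a .z (.a (.a (.b .z (.l 26)) (.l 26)) (.l 26))) (.a .z (.b (.a (.l
26) (.b (.l 26) .z)) .z)))) .z) (.b (.a (.b (.a (.b (.l 26) (.a (.l 26) (.b (.l 26) .z))) (.b (.a (.l 26) (.b (.l 26) .z)) .z)) .z) .z) .z)) (.b (.b
(.a (.b .z (.a .z (.l 204))) .z) (.b (.a .z (.b (.a .z (.l 104)) (.l 104))) (.l 104))) (.b (.a (.b (.l 104) (.a (.b (.l 104) .z) (.l 104))) (.l 104))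
(.a (.b (.a (.b (.a (.l 20) .z) (.l 20)) .z) (.a (.l 20) (.b (.a (.l 20) .z) (.l 20)))) (.a (.b (.l 104) .z) (.a (.l 104) .z)))))))) (.b (.a (.b (.a
(.b .z (.a (.b .z (.a (.b .z (.a (.l 26) .z)) .z)) .z)) (.b .z (.a (.a .z (.l 226)) (.b (.a (.l 226) .z) .z)))) (.a (.b (.a (.b (.a (.l 26) (.b .z (.a
(.l 26) .z))) (.l 26)) (.b .z (.a (.b .z (.a (.l 26) .z)) .z))) (.a (.b (.a (.b (.l 26) (.a (.l 26) (.b (.l 26) .z))) (.b (.a (.l 26) (.b (.l 26) .z))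
.z)) .z) .z)) (.b .z (.a .z (.b .z (.b .z (.l 230))))))) .z) (.a (.a (.b .z (.b (.a (.b .z (.a (.b .z (.l 104)) .z)) .z) (.a .z (.b .z (.l 214)))))
(.b (.a .z (.b (.a (.b (.l 230) .z) (.b (.l 230) .z)) .z)) (.a (.b .z (.b (.a (.l 214) .z) (.l 214))) (.b (.a (.b .z (.l 190)) (.b .z (.l 190)))
.z)))) (.a (.b .z (.a .z (.b .z (.a (.b .z (.a .z (.l 126))) (.b .z (.b .z (.l 126))))))) .z))))

theorem vQ60 : ev Q60 I5_4 I5_7 = 167846004639943 := by decide +kernel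

noncomputable def Q35 : QT :=
(.b (.a (.b (.l 12) (.a (.l 12) (.b (.a (.l 12) (.b (.l 12) (.a (.l 12) (.a (.l 12) (.b (.l 12) (.a (.b (.l 12) (.a (.b (.l 12) (.a (.l 12) .z)) (.b
(.a (.l 12) .z) (.a .z (.a .z (.l 6)))))) (.b (.a (.b (.l 12) (.a (.l 12) .z)) (.b .z (.a .z (.l 6)))) (.a (.b (.a .z (.a .z (.l 6))) (.l 6)) (.l
6))))))))) (.a (.b (.l 12) (.a (.l 12) (.b (.l 12) (.a (.b (.l 12) (.a (.l 12) (.b (.l 12) (.a (.l 12) (.a (.l 12) .z))))) (.b (.a (.l 12) (.b (.a (.l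
12) .z) (.a .z (.a .z (.l 6))))) (.a (.b (.a (.l 12) .z) (.a .z (.a (.a .z (.l 6)) (.l 6)))) (.b (.a (.a .z (.l 6)) (.l 6)) (.l 6)))))))) (.a (.b (.b
(.l 12) (.a (.l 12) (.b (.a (.l 12) (.b (.l 12) (.a (.l 12) .z))) (.a (.b (.l 12) (.a (.a (.l 12) .z) .z)) (.b (.a .z (.a (.a .z (.l 6)) (.l 6))) (.a
(.a (.a .z (.l 6)) (.l 6)) (.l 6))))))) (.b (.a (.b (.a (.l 12) (.b (.a (.l 12) (.a (.l 12) .z)) (.a (.a (.l 12) .z) .z))) (.a (.b (.a (.l 12) (.a (.l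
12) .z)) (.a (.a (.l 12) .z) .z)) (.b (.a .z (.l 6)) (.l 6)))) (.b (.a (.b (.a .z (.l 6)) (.l 6)) (.l 6)) (.l 6))) (.a (.b (.a (.b (.a (.a .z (.a .z
(.l 6))) (.l 6)) (.l 6)) (.l 6)) (.l 6)) (.l 6)))) (.b (.a (.b (.a (.b (.l 12) (.a (.l 12) (.b (.a (.l 12) .z) .z))) (.b (.a (.b (.l 12) (.a (.l 12)
.z)) (.b (.a (.l 12) .z) .z)) (.a (.b .z (.l 6)) (.l 6)))) (.a (.b (.a (.b .z (.a (.a .z (.l 6)) (.l 6))) (.b (.a (.a .z (.l 6)) (.l 6)) (.l 6))) (.l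
6)) (.l 6))) (.b (.a (.b (.a (.b .z (.l 6)) (.l 6)) (.l 6)) (.l 6)) (.l 6))) (.l 6))))))) (.a (.b (.a (.b (.l 12) (.a (.l 12) (.b (.l 12) (.a (.b (.l
12) (.a (.l 12) (.b (.a (.l 12) (.b (.l 12) (.a (.l 12) .z))) (.a (.b (.a (.l 12) .z) .z) (.b (.a .z (.a .z (.l 6))) (.l 6)))))) (.b (.a (.b (.l 12)
(.a (.l 12) (.b (.a (.l 12) .z) .z))) (.b (.a (.b (.l 12) (.a (.l 12) .z)) (.b .z (.a .z (.l 6)))) (.a (.b (.a .z (.a .z (.l 6))) (.l 6)) (.l 6))))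
(.a (.b (.a (.b .z (.a .z (.l 6))) (.b (.a (.a .z (.l 6)) (.l 6)) (.l 6))) (.l 6)) (.l 6))))))) (.b (.a (.b (.l 12) (.a (.l 12) (.b (.l 12) (.a (.b
(.l 12) (.a (.l 12) (.b (.l 12) (.a (.l 12) .z)))) (.b (.a (.b (.l 12) (.a (.l 12) .z)) (.b (.a (.l 12) .z) (.a .z (.a .z (.l 6))))) (.a (.b .z (.a
(.a .z (.l 6)) (.l 6))) (.l 6))))))) (.b (.a (.b (.l 12) (.a (.l 12) (.b (.l 12) (.a (.b (.l 12) (.a (.l 12) .z)) (.b .z (.a .z (.l 6))))))) (.b (.a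
(.b (.l 12) (.a (.l 12) (.b (.a (.l 12) .z) .z))) (.b (.a (.b (.l 12) (.a (.l 12) .z)) (.b .z (.a (.a .z (.l 6)) (.l 6)))) (.a (.b (.a .z (.a .z (.l
6))) (.l 6)) (.l 6)))) (.a (.b (.a (.b (.a (.l 12) .z) (.a .z (.a .z (.l 6)))) (.b (.a .z (.l 6)) (.l 6))) (.a (.b (.a (.a .z (.l 6)) (.l 6)) (.l 6))
(.l 6))) (.l 6)))) (.a (.b (.a (.b (.a (.l 12) (.b (.l 12) (.a (.l 12) .z))) (.a (.b (.a (.l 12) .z) .z) (.b (.a .z (.a .z (.l 6))) (.l 6)))) (.b (.a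
(.b .z (.a (.a .z (.l 6)) (.l 6))) (.l 6)) (.l 6))) (.a (.b (.a (.b (.a (.a .z (.l 6)) (.l 6)) (.l 6)) (.l 6)) (.l 6)) (.l 6))) (.l 6)))) (.a (.b (.a
(.b (.a (.l 12) (.b (.l 12) (.a (.b (.l 12) (.a (.l 12) .z)) (.b (.a (.l 12) .z) (.a .z (.a .z (.l 6))))))) (.a (.b (.a (.l 12) (.b (.l 12) .z)) (.a
(.b (.a (.l 12) .z) (.a .z (.a .z (.l 6)))) (.b (.a .z (.l 6)) (.l 6)))) (.b (.a (.b .z (.a (.a .z (.l 6)) (.l 6))) (.l 6)) (.l 6)))) (.b (.a (.b (.a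
(.b (.a (.l 12) .z) .z) (.b (.a .z (.a .z (.l 6))) (.l 6))) (.a (.b (.a (.a .z (.l 6)) (.l 6)) (.l 6)) (.l 6))) (.l 6)) (.l 6))) (.a (.b (.a (.b (.a
(.b (.a (.a .z (.l 6)) (.l 6)) (.l 6)) (.l 6)) (.l 6)) (.l 6)) (.l 6)) (.l 6))) (.l 6)))) (.a (.b (.a (.b (.a (.b (.l 12) (.a (.l 12) (.b (.l 12) (.a
(.l 12) (.b (.l 12) (.a (.l 12) .z)))))) (.b (.a (.l 12) (.b (.l 12) (.a (.l 12) (.b (.a (.l 12) .z) .z)))) (.a (.b (.a (.l 12) (.b (.l 12) .z)) (.a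
(.b (.a (.l 12) .z) (.a .z (.a .z (.l 6)))) (.b (.a .z (.l 6)) (.l 6)))) (.b (.a (.b .z (.a (.a .z (.l 6)) (.l 6))) (.b (.a (.a .z (.l 6)) (.l 6)) (.l
6))) (.l 6))))) (.a (.b (.a (.b (.l 12) (.a (.b (.l 12) .z) (.b .z (.a (.a .z (.l 6)) (.l 6))))) (.b (.a (.b (.a (.l 12) .z) .z) (.b .z (.l 6))) (.a
(.b (.a (.a .z (.l 6)) (.l 6)) (.l 6)) (.l 6)))) (.a (.b (.a (.b (.a .z (.l 6)) (.l 6)) (.l 6)) (.l 6)) (.l 6))) (.l 6))) (.b (.a (.b (.a (.b (.a (.b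
(.l 12) (.a (.l 12) .z)) (.b .z (.a .z (.l 6)))) (.a (.b (.a .z (.a .z (.l 6))) (.l 6)) (.l 6))) (.b (.a (.b (.a (.a .z (.l 6)) (.l 6)) (.l 6)) (.l
6)) (.l 6))) (.l 6)) (.l 6)) (.l 6))) (.l 6)) (.l 6))) (.l 6))) (.a (.b (.b (.a (.b (.l 12) (.a (.b (.l 12) (.b (.l 12) (.a (.l 12) (.b (.l 12) (.a
(.l 12) (.a (.a (.l 12) (.a (.l 12) .z)) .z)))))) (.b (.a (.l 12) (.a (.b (.l 12) (.b (.a (.l 12) (.a (.a (.l 12) .z) .z)) (.a (.a (.a (.l 12) .z) .z)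
(.a .z (.l 6))))) (.b (.a (.b (.l 12) (.a (.a (.l 12) .z) .z)) (.b (.a (.a (.l 12) .z) .z) (.a (.a .z (.a .z (.l 6))) (.l 6)))) (.a (.b (.a .z (.l 6))
(.l 6)) (.l 6))))) (.a (.b (.a (.b (.l 12) (.a (.l 12) (.a (.l 12) (.a (.l 12) .z)))) (.b (.a (.l 12) (.a (.a (.l 12) .z) .z)) (.a .z (.a (.a .z (.a
.z (.l 6))) (.l 6))))) (.a (.b (.a (.a (.l 12) .z) .z) (.a (.a .z (.a (.a .z (.l 6)) (.l 6))) (.l 6))) (.l 6))) (.a (.b (.b (.a (.a .z (.l 6)) (.l 6))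
(.l 6)) (.l 6)) (.l 6)))))) (.a (.b (.a (.b (.a (.l 12) (.b (.l 12) (.a (.l 12) (.b (.a (.l 12) (.a (.l 12) .z)) (.a (.a (.l 12) .z) .z))))) (.a (.b
(.a (.l 12) (.b (.l 12) (.a (.l 12) (.a (.l 12) .z)))) (.a (.b (.l 12) .z) (.b (.a .z (.a .z (.a .z (.l 6)))) (.a (.a (.a .z (.l 6)) (.l 6)) (.l
6))))) (.b (.a (.b (.a (.l 12) .z) (.a .z (.a (.a .z (.l 6)) (.l 6)))) (.b (.a (.a .z (.a .z (.l 6))) (.l 6)) (.l 6))) (.l 6)))) (.b (.a (.b (.a (.b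
(.l 12) (.a (.l 12) .z)) (.b (.a (.a (.l 12) .z) .z) (.a (.a .z (.a .z (.l 6))) (.l 6)))) (.a (.b (.a .z (.a .z (.l 6))) (.l 6)) (.l 6))) (.l 6)) (.l
6))) (.a (.b (.a (.b (.a (.b (.a (.a .z (.l 6)) (.l 6)) (.l 6)) (.l 6)) (.l 6)) (.l 6)) (.l 6)) (.l 6))) (.l 6))) (.a (.b (.b (.a (.b (.b (.a (.l 12)
(.a (.a (.a (.a (.l 12) .z) .z) .z) (.a (.a .z (.a .z (.a .z (.l 6)))) (.l 6)))) (.a .z (.a (.a (.a (.a .z (.a .z (.l 6))) (.l 6)) (.l 6)) (.l 6))))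
(.b (.a (.a (.l 16) (.a (.l 16) (.a (.a (.l 16) .z) .z))) (.a .z (.a (.a .z (.a .z (.a .z (.l 6)))) (.l 6)))) (.a (.l 16) (.a (.l 16) (.a (.a (.l 16)
(.a (.l 16) .z)) .z))))) (.a (.b (.l 6) (.a (.b (.l 6) (.a .z (.a (.a (.a .z (.l 6)) (.l 6)) (.l 6)))) (.l 6))) (.l 6))) (.a (.l 16) (.a (.b (.a (.b
(.a (.l 16) .z) (.l 16)) (.b (.a (.a .z (.a .z (.a .z (.l 6)))) (.l 6)) (.a (.a (.l 16) (.a (.l 16) .z)) .z))) (.l 16)) (.b (.a (.b (.l 6) (.a (.a .z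
(.l 6)) (.l 6))) (.l 6)) (.a (.b (.a (.a (.a (.l 16) .z) .z) (.a .z (.a .z (.a .z (.l 6))))) (.a (.l 16) (.a (.l 16) (.a (.l 16) .z)))) (.b (.l 6) (.a
.z (.l 6)))))))) (.b (.a (.l 16) (.a (.l 16) (.b (.a (.l 16) (.b (.a (.a (.l 16) (.a (.l 16) .z)) .z) (.l 16))) (.l 16)))) (.l 16))) (.a (.b (.l 6)
(.a (.b (.a (.b (.b (.a (.a (.a .z (.l 6)) (.l 6)) (.l 6)) (.a .z (.a (.a .z (.l 6)) (.l 6)))) (.b (.a (.l 16) .z) (.l 16))) (.b (.l 6) (.a (.b (.a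
(.a .z (.l 6)) (.l 6)) .z) (.b (.l 6) (.a (.a .z (.l 6)) (.l 6)))))) (.a (.l 16) (.b (.a (.l 16) (.b .z (.l 16))) (.l 16)))) (.b (.l 6) (.a (.b (.a
(.b (.a (.a (.a .z (.l 6)) (.l 6)) (.l 6)) .z) (.l 6)) (.a (.b (.a (.l 16) (.a (.l 16) .z)) (.l 16)) (.b (.a .z (.a .z (.l 6))) (.a (.l 16) .z)))) (.b
(.l 6) (.a (.b (.l 6) (.a .z (.a (.a .z (.l 6)) (.l 6)))) (.l 6))))))) (.l 6)))) (.b (.a (.l 16) (.a (.b (.a (.l 16) (.b (.a (.l 16) (.b (.a (.b (.a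
(.l 16) .z) (.l 16)) (.b (.a (.a .z (.a .z (.l 6))) (.l 6)) (.a (.a (.l 16) .z) .z))) (.l 16))) (.l 16))) (.l 16)) (.b (.a (.b (.a (.b (.a (.b (.l 6)
(.a (.a (.a .z (.l 6)) (.l 6)) (.l 6))) (.l 6)) (.a (.b (.a .z (.a .z (.l 6))) (.a (.l 16) .z)) (.b (.l 6) (.a .z (.l 6))))) (.l 6)) (.a (.b (.a (.l
16) (.b (.a (.a (.l 16) .z) .z) (.l 16))) (.l 16)) (.b (.a (.b (.a (.a (.a .z (.l 6)) (.l 6)) (.l 6)) (.a .z (.a .z (.l 6)))) (.l 6)) (.a (.b (.a (.l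
16) .z) (.l 16)) (.b (.a (.a .z (.a .z (.l 6))) (.l 6)) (.a (.a (.l 16) .z) .z)))))) (.l 6)) (.a (.b (.a (.l 16) (.b (.a (.l 16) (.b (.a (.l 16) (.a
(.l 16) .z)) (.l 16))) (.l 16))) (.l 16)) (.b (.a (.b (.a (.b (.a .z (.a (.a .z (.l 6)) (.l 6))) (.a (.l 16) .z)) (.b (.l 6) (.a (.a .z (.l 6)) (.l
6)))) (.a (.l 16) (.b (.a .z (.a .z (.a .z (.l 6)))) (.a (.l 16) (.a (.l 16) .z))))) (.b (.l 6) (.a (.b (.l 6) (.a (.a .z (.a .z (.l 6))) (.l 6))) (.l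
6)))) (.a (.l 16) (.b (.a (.b (.a (.a (.l 16) .z) .z) (.a (.l 16) (.a (.l 16) .z))) (.b (.l 6) (.a .z (.l 6)))) (.a (.l 16) (.b (.a (.a (.l 16) .z)
.z) (.a (.l 16) (.a (.l 16) .z))))))))))) (.l 16))) (.a (.b (.l 6) (.a (.b (.a (.b (.l 6) (.a (.b (.l 6) (.b (.l 6) (.a (.b (.l 6) (.a .z (.a (.a .z
(.l 6)) (.l 6)))) (.l 6)))) (.l 6))) (.l 6)) (.a (.b (.a (.b (.b (.a (.b (.a (.l 16) .z) (.l 16)) (.b (.a (.a (.a .z (.l 6)) (.l 6)) (.l 6)) (.a .z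
(.a (.a .z (.l 6)) (.l 6))))) (.a (.l 16) (.b (.a (.l 16) .z) (.l 16)))) (.l 16)) (.b (.a (.b (.l 6) (.a (.b (.a (.a .z (.l 6)) (.l 6)) .z) (.b (.l 6)
(.a (.a .z (.l 6)) (.l 6))))) (.l 6)) (.a (.b (.a (.l 16) (.b .z (.a (.l 16) .z))) (.l 16)) (.b (.a (.b (.l 6) .z) (.l 6)) (.a (.b (.a (.l 16) .z) (.l
16)) (.b .z (.a (.l 16) .z))))))) (.l 16)) (.b (.a (.b (.l 6) (.a (.b (.l 6) (.a (.b (.l 6) .z) (.l 6))) (.l 6))) (.l 6)) (.a (.b (.a (.b (.a (.b (.a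
(.l 16) .z) (.l 16)) (.b (.a .z (.a .z (.l 6))) (.a (.l 16) .z))) (.l 16)) (.b (.a (.b (.l 6) (.a .z (.a .z (.l 6)))) (.l 6)) (.a (.b (.a (.l 16) .z)
(.l 16)) (.b (.a .z (.l 6)) .z)))) (.l 16)) (.b (.a (.b (.l 6) (.a (.b (.l 6) (.a .z (.l 6))) (.l 6))) (.l 6)) (.a (.b (.a (.b .z (.l 16)) (.b (.a (.a
.z (.l 6)) (.l 6)) .z)) (.l 16)) (.b (.a (.b (.l 6) (.a (.a .z (.l 6)) (.l 6))) (.l 6)) (.a (.b .z (.a (.l 16) .z)) (.b (.l 6) (.a .z (.a .z (.l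
6)))))))))))) (.l 6))) (.l 6))))

theorem vQ35 : ev Q35 I3_0 I5_24 = 3854735549579862 := by decide +kernel

noncomputable def Q142 : QT :=
(.a (.b (.l 11) (.a (.b (.l 11) (.a (.b (.l 11) (.a (.b (.l 11) (.a (.b (.l 11) (.a (.b (.l 11) (.a (.b (.l 11) (.a (.b (.l 11) .z) (.b .z (.l 9))))
(.b (.a (.b (.l 11) .z) (.b .z (.l 9))) (.l 9)))) (.b (.a (.b (.l 11) (.a (.b (.l 11) .z) (.b .z (.l 9)))) (.b (.a (.b (.l 11) .z) (.b .z (.l 9))) (.l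
9))) (.l 9)))) (.b (.a (.b (.l 11) (.a (.b (.l 11) (.a (.b (.l 11) .z) (.b .z (.l 9)))) (.b (.a (.b (.l 11) .z) (.b .z (.l 9))) (.l 9)))) (.b (.a (.b
(.l 11) (.a (.b (.l 11) .z) (.b .z (.l 9)))) (.b (.a (.b (.l 11) .z) (.b .z (.l 9))) (.l 9))) (.l 9))) (.l 9)))) (.b (.a (.b (.l 11) (.a (.b (.l 11)
(.a (.b (.l 11) (.a (.b (.l 11) .z) (.b .z (.l 9)))) (.b (.a (.b (.l 11) .z) (.b .z (.l 9))) (.l 9)))) (.b (.a (.b (.l 11) (.a (.b (.l 11) .z) (.b .z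
(.l 9)))) (.b (.a (.b (.l 11) .z) (.b .z (.l 9))) (.l 9))) (.l 9)))) (.b (.a (.b (.l 11) (.a (.b (.l 11) (.a (.b (.l 11) .z) (.b .z (.l 9)))) (.b (.a
(.b (.l 11) .z) (.b .z (.l 9))) (.l 9)))) (.b (.a (.b (.l 11) (.a (.b (.l 11) .z) (.b .z (.l 9)))) (.b (.a (.b (.l 11) .z) (.b .z (.l 9))) (.l 9)))
(.l 9))) (.l 9))) (.l 9)))) (.b (.a (.b (.l 11) (.a (.b (.l 11) (.a (.b (.l 11) (.a (.b (.l 11) (.a (.b (.l 11) .z) (.b .z (.l 9)))) (.b (.a (.b (.l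
11) .z) (.b .z (.l 9))) (.l 9)))) (.b (.a (.b (.l 11) (.a (.b (.l 11) .z) (.b .z (.l 9)))) (.b (.a (.b (.l 11) .z) (.b .z (.l 9))) (.l 9))) (.l 9))))
(.b (.a (.b (.l 11) (.a (.b (.l 11) (.a (.b (.l 11) .z) (.b .z (.l 9)))) (.b (.a (.b (.l 11) .z) (.b .z (.l 9))) (.l 9)))) (.b (.a (.b (.l 11) (.a (.b
(.l 11) .z) (.b .z (.l 9)))) (.b (.a (.b (.l 11) .z) (.b .z (.l 9))) (.l 9))) (.l 9))) (.l 9)))) (.b (.a (.b (.l 11) (.a (.b (.l 11) (.a (.b (.l 11)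
(.a (.b (.l 11) .z) (.b .z (.l 9)))) (.b (.a (.b (.l 11) .z) (.b .z (.l 9))) (.l 9)))) (.b (.a (.b (.l 11) (.a (.b (.l 11) .z) (.b .z (.l 9)))) (.b
(.a (.b (.l 11) .z) (.b .z (.l 9))) (.l 9))) (.l 9)))) (.b (.a (.b (.l 11) (.a (.b (.l 11) (.a (.b (.l 11) .z) (.b .z (.l 9)))) (.b (.a (.b (.l 11)
.z) (.b .z (.l 9))) (.l 9)))) (.b (.a (.b (.l 11) (.a (.b (.l 11) .z) (.b .z (.l 9)))) (.b (.a (.b (.l 11) .z) (.b .z (.l 9))) (.l 9))) (.l 9))) (.l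
9))) (.l 9))) (.l 9)))) (.b (.a (.b (.l 11) (.a (.b (.l 11) (.a (.b (.l 11) (.a (.b (.l 11) (.a (.b (.l 11) (.a (.b (.l 11) .z) (.b .z (.l 9)))) (.b
(.a (.b (.l 11) .z) (.b .z (.l 9))) (.l 9)))) (.b (.a (.b (.l 11) (.a (.b (.l 11) .z) (.b .z (.l 9)))) (.b (.a (.b (.l 11) .z) (.b .z (.l 9))) (.l
9))) (.l 9)))) (.b (.a (.b (.l 11) (.a (.b (.l 11) (.a (.b (.l 11) .z) (.b .z (.l 9)))) (.b (.a (.b (.l 11) .z) (.b .z (.l 9))) (.l 9)))) (.b (.a (.b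
(.l 11) (.a (.b (.l 11) .z) (.b .z (.l 9)))) (.b (.a (.b (.l 11) .z) (.b .z (.l 9))) (.l 9))) (.l 9))) (.l 9)))) (.b (.a (.b (.l 11) (.a (.b (.l 11)
(.a (.b (.l 11) (.a (.b (.l 11) .z) (.b .z (.l 9)))) (.b (.a (.b (.l 11) .z) (.b .z (.l 9))) (.l 9)))) (.b (.a (.b (.l 11) (.a (.b (.l 11) .z) (.b .z
(.l 9)))) (.b (.a (.b (.l 11) .z) (.b .z (.l 9))) (.l 9))) (.l 9)))) (.b (.a (.b (.l 11) (.a (.b (.l 11) (.a (.b (.l 11) .z) (.b .z (.l 9)))) (.b (.a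
(.b (.l 11) .z) (.b .z (.l 9))) (.l 9)))) (.b (.a (.b (.l 11) (.a (.b (.l 11) .z) (.b .z (.l 9)))) (.b (.a (.b (.l 11) .z) (.b .z (.l 9))) (.l 9)))
(.l 9))) (.l 9))) (.l 9)))) (.b (.a (.b (.l 11) (.a (.b (.l 11) (.a (.b (.l 11) (.a (.b (.l 11) (.a (.b (.l 11) .z) (.b .z (.l 9)))) (.b (.a (.b (.l
11) .z) (.b .z (.l 9))) (.l 9)))) (.b (.a (.b (.l 11) (.a (.b (.l 11) .z) (.b .z (.l 9)))) (.b (.a (.b (.l 11) .z) (.b .z (.l 9))) (.l 9))) (.l 9))))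
(.b (.a (.b (.l 11) (.a (.b (.l 11) (.a (.b (.l 11) .z) (.b .z (.l 9)))) (.b (.a (.b (.l 11) .z) (.b .z (.l 9))) (.l 9)))) (.b (.a (.b (.l 11) (.a (.b
(.l 11) .z) (.b .z (.l 9)))) (.b (.a (.b (.l 11) .z) (.b .z (.l 9))) (.l 9))) (.l 9))) (.l 9)))) (.b (.a (.b (.l 11) (.a (.b (.l 11) (.a (.b (.l 11)
(.a (.b (.l 11) .z) (.b .z (.l 9)))) (.b (.a (.b (.l 11) .z) (.b .z (.l 9))) (.l 9)))) (.b (.a (.b (.l 11) (.a (.b (.l 11) .z) (.b .z (.l 9)))) (.b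
(.a (.b (.l 11) .z) (.b .z (.l 9))) (.l 9))) (.l 9)))) (.b (.a (.b (.l 11) (.a (.b (.l 11) (.a (.b (.l 11) .z) (.b .z (.l 9)))) (.b (.a (.b (.l 11)
.z) (.b .z (.l 9))) (.l 9)))) (.b (.a (.b (.l 11) (.a (.b (.l 11) .z) (.b .z (.l 9)))) (.b (.a (.b (.l 11) .z) (.b .z (.l 9))) (.l 9))) (.l 9))) (.l
9))) (.l 9))) (.l 9))) (.l 9)))) (.b (.a (.b (.l 11) (.a (.b (.l 11) (.a (.b (.l 11) (.a (.b (.l 11) (.a (.b (.l 11) (.a (.b (.l 11) (.a (.b (.l 11)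
.z) (.b .z (.l 9)))) (.b (.a (.b (.l 11) .z) (.b .z (.l 9))) (.l 9)))) (.b (.a (.b (.l 11) (.a (.b (.l 11) .z) (.b .z (.l 9)))) (.b (.a (.b (.l 11)
.z) (.b .z (.l 9))) (.l 9))) (.l 9)))) (.b (.a (.b (.l 11) (.a (.b (.l 11) (.a (.b (.l 11) .z) (.b .z (.l 9)))) (.b (.a (.b (.l 11) .z) (.b .z (.l
9))) (.l 9)))) (.b (.a (.b (.l 11) (.a (.b (.l 11) .z) (.b .z (.l 9)))) (.b (.a (.b (.l 11) .z) (.b .z (.l 9))) (.l 9))) (.l 9))) (.l 9)))) (.b (.a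
(.b (.l 11) (.a (.b (.l 11) (.a (.b (.l 11) (.a (.b (.l 11) .z) (.b .z (.l 9)))) (.b (.a (.b (.l 11) .z) (.b .z (.l 9))) (.l 9)))) (.b (.a (.b (.l 11)
(.a (.b (.l 11) .z) (.b .z (.l 9)))) (.b (.a (.b (.l 11) .z) (.b .z (.l 9))) (.l 9))) (.l 9)))) (.b (.a (.b (.l 11) (.a (.b (.l 11) (.a (.b (.l 11)
.z) (.b .z (.l 9)))) (.b (.a (.b (.l 11) .z) (.b .z (.l 9))) (.l 9)))) (.b (.a (.b (.l 11) (.a (.b (.l 11) .z) (.b .z (.l 9)))) (.b (.a (.b (.l 11)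
.z) (.b .z (.l 9))) (.l 9))) (.l 9))) (.l 9))) (.l 9)))) (.b (.a (.b (.l 11) (.a (.b (.l 11) (.a (.b (.l 11) (.a (.b (.l 11) (.a (.b (.l 11) .z) (.b
.z (.l 9)))) (.b (.a (.b (.l 11) .z) (.b .z (.l 9))) (.l 9)))) (.b (.a (.b (.l 11) (.a (.b (.l 11) .z) (.b .z (.l 9)))) (.b (.a (.b (.l 11) .z) (.b .z
(.l 9))) (.l 9))) (.l 9)))) (.b (.a (.b (.l 11) (.a (.b (.l 11) (.a (.b (.l 11) .z) (.b .z (.l 9)))) (.b (.a (.b (.l 11) .z) (.b .z (.l 9))) (.l 9))))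
(.b (.a (.b (.l 11) (.a (.b (.l 11) .z) (.b .z (.l 9)))) (.b (.a (.b (.l 11) .z) (.b .z (.l 9))) (.l 9))) (.l 9))) (.l 9)))) (.b (.a (.b (.l 11) (.a
(.b (.l 11) (.a (.b (.l 11) (.a (.b (.l 11) .z) (.b .z (.l 9)))) (.b (.a (.b (.l 11) .z) (.b .z (.l 9))) (.l 9)))) (.b (.a (.b (.l 11) (.a (.b (.l 11)
.z) (.b .z (.l 9)))) (.b (.a (.b (.l 11) .z) (.b .z (.l 9))) (.l 9))) (.l 9)))) (.b (.a (.b (.l 11) (.a (.b (.l 11) (.a (.b (.l 11) .z) (.b .z (.l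
9)))) (.b (.a (.b (.l 11) .z) (.b .z (.l 9))) (.l 9)))) (.b (.a (.b (.l 11) (.a (.b (.l 11) .z) (.b .z (.l 9)))) (.b (.a (.b (.l 11) .z) (.b .z (.l
9))) (.l 9))) (.l 9))) (.l 9))) (.l 9))) (.l 9)))) (.b (.a (.b (.l 11) (.a (.b (.l 11) (.a (.b (.l 11) (.a (.b (.l 11) (.a (.b (.l 11) (.a (.b (.l 11)
.z) (.b .z (.l 9)))) (.b (.a (.b (.l 11) .z) (.b .z (.l 9))) (.l 9)))) (.b (.a (.b (.l 11) (.a (.b (.l 11) .z) (.b .z (.l 9)))) (.b (.a (.b (.l 11)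
.z) (.b .z (.l 9))) (.l 9))) (.l 9)))) (.b (.a (.b (.l 11) (.a (.b (.l 11) (.a (.b (.l 11) .z) (.b .z (.l 9)))) (.b (.a (.b (.l 11) .z) (.b .z (.l
9))) (.l 9)))) (.b (.a (.b (.l 11) (.a (.b (.l 11) .z) (.b .z (.l 9)))) (.b (.a (.b (.l 11) .z) (.b .z (.l 9))) (.l 9))) (.l 9))) (.l 9)))) (.b (.a
(.b (.l 11) (.a (.b (.l 11) (.a (.b (.l 11) (.a (.b (.l 11) .z) (.b .z (.l 9)))) (.b (.a (.b (.l 11) .z) (.b .z (.l 9))) (.l 9)))) (.b (.a (.b (.l 11)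
(.a (.b (.l 11) .z) (.b .z (.l 9)))) (.b (.a (.b (.l 11) .z) (.b .z (.l 9))) (.l 9))) (.l 9)))) (.b (.a (.b (.l 11) (.a (.b (.l 11) (.a (.b (.l 11)
.z) (.b .z (.l 9)))) (.b (.a (.b (.l 11) .z) (.b .z (.l 9))) (.l 9)))) (.b (.a (.b (.l 11) (.a (.b (.l 11) .z) (.b .z (.l 9)))) (.b (.a (.b (.l 11)
.z) (.b .z (.l 9))) (.l 9))) (.l 9))) (.l 9))) (.l 9)))) (.b (.a (.b (.l 11) (.a (.b (.l 11) (.a (.b (.l 11) (.a (.b (.l 11) (.a (.b (.l 11) .z) (.b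
.z (.l 9)))) (.b (.a (.b (.l 11) .z) (.b .z (.l 9))) (.l 9)))) (.b (.a (.b (.l 11) (.a (.b (.l 11) .z) (.b .z (.l 9)))) (.b (.a (.b (.l 11) .z) (.b .z
(.l 9))) (.l 9))) (.l 9)))) (.b (.a (.b (.l 11) (.a (.b (.l 11) (.a (.b (.l 11) .z) (.b .z (.l 9)))) (.b (.a (.b (.l 11) .z) (.b .z (.l 9))) (.l 9))))
(.b (.a (.b (.l 11) (.a (.b (.l 11) .z) (.b .z (.l 9)))) (.b (.a (.b (.l 11) .z) (.b .z (.l 9))) (.l 9))) (.l 9))) (.l 9)))) (.b (.a (.b (.l 11) (.a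
(.b (.l 11) (.a (.b (.l 11) (.a (.b (.l 11) .z) (.b .z (.l 9)))) (.b (.a (.b (.l 11) .z) (.b .z (.l 9))) (.l 9)))) (.b (.a (.b (.l 11) (.a (.b (.l 11)
.z) (.b .z (.l 9)))) (.b (.a (.b (.l 11) .z) (.b .z (.l 9))) (.l 9))) (.l 9)))) (.b (.a (.b (.l 11) (.a (.b (.l 11) (.a (.b (.l 11) .z) (.b .z (.l
9)))) (.b (.a (.b (.l 11) .z) (.b .z (.l 9))) (.l 9)))) (.b (.a (.b (.l 11) (.a (.b (.l 11) .z) (.b .z (.l 9)))) (.b (.a (.b (.l 11) .z) (.b .z (.l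
9))) (.l 9))) (.l 9))) (.l 9))) (.l 9))) (.l 9))) (.l 9))) (.l 9)))

theorem vQ142 : ev Q142 I3_3 I3_4 = 15563895864330094 := by decide +kernel

noncomputable def Q100 : QT :=
(.a (.a (.b (.b (.b (.b (.b (.a (.b (.l 68) .z) (.b (.a (.l 68) .z) .z)) (.a .z (.b .z (.a .z (.l 69))))) (.b (.a .z (.b (.b .z (.l 74)) (.b (.l 74)
.z))) (.b (.a (.b .z (.l 73)) .z) .z))) (.a (.a (.b (.b (.b .z (.l 71)) .z) .z) (.b .z (.b (.b (.l 84) .z) (.b (.l 87) .z)))) (.b (.b (.b (.a (.l 71)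
.z) .z) (.b (.b (.l 79) .z) (.b .z (.l 84)))) (.b (.b .z (.b .z (.l 87))) (.b (.b (.l 87) .z) .z))))) (.a (.b .z (.b .z (.b (.b (.b (.l 119) .z) .z)
.z))) .z)) .z) (.b (.b (.b (.b (.b (.a (.b .z (.a .z (.b .z (.l 64)))) (.b (.a .z (.b .z (.l 62))) (.b .z (.a (.l 64) .z)))) (.b (.b .z (.a .z (.l
69))) (.l 69))) (.b .z (.b (.a .z (.l 77)) .z))) (.b (.b (.a .z (.b (.b (.l 72) .z) .z)) (.b (.b (.l 79) .z) .z)) (.b (.b (.a (.b .z (.l 87)) (.b (.l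
87) .z)) (.a (.b (.l 87) .z) .z)) .z))) (.a (.b (.b (.b .z (.b (.b (.l 95) .z) .z)) .z) .z) (.b (.b (.b .z (.b (.b (.l 95) .z) (.b .z (.l 103)))) (.b
(.b (.b (.l 103) .z) .z) .z)) .z))) .z)) (.a (.b (.b (.a (.b (.b (.b (.b (.l 62) .z) (.b .z (.b (.l 69) .z))) (.b (.b (.b .z (.l 72)) (.b (.l 72) .z))
(.b (.b .z (.l 77)) .z))) (.a .z (.b (.b .z (.b .z (.l 82))) .z))) (.b (.a (.b (.b (.b (.l 62) .z) .z) (.b (.l 72) .z)) (.b .z (.a (.b (.l 72) .z)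
.z))) (.a .z (.b (.a .z (.b (.l 69) .z)) .z)))) (.a .z (.b (.b (.b (.b .z (.b .z (.l 88))) (.b .z (.b .z (.l 89)))) .z) .z))) .z) (.b (.b (.a (.b (.a
.z (.b (.b (.b (.b (.l 58) .z) .z) (.b (.b (.l 59) .z) .z)) .z)) (.b (.b (.l 69) (.b .z (.l 73))) (.b (.b (.b (.l 73) .z) (.b (.l 75) .z)) (.b (.b (.l
78) .z) .z)))) (.b (.b (.b (.b (.a (.b (.l 58) .z) .z) (.a .z (.l 66))) .z) (.b (.b (.a .z (.l 65)) (.a (.b (.l 65) .z) .z)) .z)) (.b (.b (.b (.a (.l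
69) .z) (.l 69)) (.b (.b .z (.l 73)) (.l 73))) (.b (.b (.b (.l 73) .z) (.b (.l 75) .z)) (.b (.l 78) .z))))) (.b (.b (.b (.b (.a (.l 89) (.b .z (.l
89))) (.a .z (.b (.l 89) .z))) (.b (.a (.b (.l 88) .z) .z) .z)) (.b .z (.b .z (.b .z (.l 100))))) (.b (.a (.b .z (.b .z (.b (.l 110) .z))) .z) .z)))
.z)))

theorem vQ100 : ev Q100 I5_7 I5_31 = 75817962645262 := by decide +kernel

noncomputable def Q81 : QT :=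
(.b (.a (.b (.l 4) (.a (.b (.a (.b (.a (.b (.l 4) (.a (.b (.a (.b (.a (.b (.l 4) .z) (.l 4)) (.a (.b (.a (.l 6) .z) (.l 6)) (.b .z (.a (.l 6) .z))))
(.b (.l 4) (.a (.b (.l 4) .z) (.l 4)))) (.a (.l 6) (.b (.a (.b (.a (.l 6) .z) (.l 6)) (.b .z (.a (.l 6) .z))) (.l 6)))) (.b (.l 4) (.a (.b (.a (.b (.l
4) .z) (.l 4)) (.a (.b (.a (.l 6) .z) (.l 6)) (.b .z (.a (.l 6) .z)))) (.b (.l 4) (.a (.b (.l 4) .z) (.l 4))))))) (.l 4)) (.a (.b (.a (.l 6) (.b (.a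
(.l 6) (.b (.a (.b (.a (.l 6) .z) (.l 6)) (.b .z (.a (.l 6) .z))) (.l 6))) (.l 6))) (.l 6)) (.b (.a (.b (.a (.b (.a (.b (.l 4) .z) (.l 4)) (.a (.b (.a
(.l 6) .z) (.l 6)) (.b .z (.a (.l 6) .z)))) (.b (.l 4) (.a (.b (.l 4) (.a .z (.l 4))) (.l 4)))) (.a (.l 6) (.b (.a (.b .z (.l 6)) (.b (.a .z (.l 4))
.z)) (.l 6)))) (.b (.l 4) (.a (.b (.a (.b (.l 4) (.a .z (.l 4))) (.l 4)) (.a (.b .z (.l 6)) (.b (.a .z (.l 4)) .z))) (.b (.l 4) (.a (.b (.l 4) (.a .z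
(.l 4))) (.l 4)))))) (.a (.l 6) (.b (.a (.l 6) (.b (.a (.b .z (.l 6)) (.b (.a .z (.l 4)) .z)) (.l 6))) (.l 6)))))) (.b (.l 4) (.a (.b (.l 4) (.a (.b
(.a (.b (.a (.b (.l 4) (.a .z (.l 4))) (.l 4)) (.a (.b .z (.a (.l 6) .z)) (.b (.l 4) .z))) (.l 4)) (.a (.b (.a (.l 6) (.b (.a (.l 6) .z) (.l 6))) (.l
6)) (.b (.a (.b .z (.a (.l 6) .z)) (.b (.l 4) .z)) (.a (.l 6) (.b (.a (.l 6) .z) (.l 6)))))) (.b (.l 4) (.a (.b (.l 4) (.a (.b .z (.a (.l 6) .z)) (.b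
(.l 4) (.a .z (.l 4))))) (.l 4))))) (.l 4)))) (.a (.l 6) (.b (.a (.b (.a (.l 6) (.b (.a (.b (.a (.l 6) (.b .z (.l 6))) (.l 6)) (.b (.a (.b (.a .z (.l
4)) .z) (.b (.l 4) (.a .z (.l 4)))) (.a (.l 6) (.b .z (.l 6))))) (.l 6))) (.l 6)) (.b (.a (.b (.a (.b (.l 4) (.a (.b (.a .z (.l 4)) .z) (.b (.l 4) (.a
.z (.l 4))))) (.l 4)) (.a (.b (.a (.l 6) (.b .z (.a (.l 6) .z))) (.l 6)) (.b (.a (.b (.l 4) .z) (.l 4)) (.a (.b (.a (.l 6) .z) (.l 6)) (.b .z (.a (.l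
6) .z)))))) (.b (.l 4) (.a (.b (.l 4) (.a (.b (.l 4) .z) (.l 4))) (.l 4)))) (.a (.l 6) (.b (.a (.b (.a (.b (.a (.l 6) .z) (.l 6)) (.b (.a .z (.l 4))
.z)) (.l 6)) (.b (.a (.b (.l 4) (.a .z (.l 4))) (.l 4)) (.a (.b .z (.l 6)) (.b (.a .z (.l 4)) .z)))) (.a (.l 6) (.b (.a (.l 6) (.b (.a (.l 6) .z) (.l
6))) (.l 6))))))) (.l 6)))) (.b (.l 4) (.a (.b (.a (.b (.l 4) (.a (.b (.l 4) (.a (.b (.a (.b .z (.a (.l 6) .z)) (.b (.l 4) .z)) (.a (.l 6) (.b (.a (.l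
6) .z) (.l 6)))) (.b (.l 4) (.a (.b (.a .z (.l 4)) .z) (.b (.l 4) (.a .z (.l 4))))))) (.l 4))) (.l 4)) (.a (.b (.a (.b (.a (.l 6) (.b (.a (.l 6) (.b
.z (.l 6))) (.l 6))) (.l 6)) (.b (.a (.b (.a (.b (.a .z (.l 4)) .z) (.l 4)) (.a (.b (.a (.l 6) .z) (.l 6)) (.b .z (.a (.l 6) .z)))) (.b (.l 4) (.a (.b
(.l 4) .z) (.l 4)))) (.a (.l 6) (.b (.a (.b (.a (.l 6) .z) (.l 6)) (.b (.a .z (.l 4)) .z)) (.l 6))))) (.l 6)) (.b (.a (.b (.l 4) (.a (.b (.a (.b (.l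
4) (.a .z (.l 4))) (.l 4)) (.a (.b .z (.l 6)) (.b (.a .z (.l 4)) .z))) (.l 4))) (.l 4)) (.a (.b (.a (.b (.a (.l 6) (.b (.a (.l 6) .z) (.l 6))) (.l 6))
(.b (.a (.b .z (.a (.l 6) .z)) (.b (.l 4) (.a .z (.l 4)))) (.a (.l 6) (.b .z (.l 6))))) (.l 6)) (.b (.a (.b (.l 4) (.a (.b (.a .z (.l 4)) .z) (.b (.l
4) (.a .z (.l 4))))) (.l 4)) (.a (.b (.a (.l 6) (.b .z (.a (.l 6) .z))) (.l 6)) (.b (.a (.b (.l 4) .z) (.l 4)) (.a (.b (.a (.l 6) .z) (.l 6)) (.b (.a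
.z (.l 4)) .z))))))))) (.b (.l 4) (.a (.b (.l 4) (.a (.b (.l 4) (.a (.b (.l 4) (.a (.b (.l 4) (.a .z (.l 4))) (.l 4))) (.l 4))) (.l 4))) (.l 4)))))))
(.l 4)) (.a (.b (.a (.l 6) (.b (.a (.l 6) (.b (.a (.b (.a (.b (.a (.b (.a (.b .z (.a (.l 6) .z)) (.b (.l 4) .z)) (.a (.l 6) (.b (.a (.l 6) .z) (.l
6)))) (.b (.l 4) (.a (.b .z (.a (.l 6) .z)) (.b (.l 4) (.a .z (.l 4)))))) (.a (.l 6) (.b (.a (.l 6) (.b .z (.l 6))) (.l 6)))) (.b (.l 4) (.a (.b (.a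
(.b (.a .z (.l 4)) .z) (.l 4)) (.a (.b (.a (.l 6) .z) (.l 6)) (.b .z (.a (.l 6) .z)))) (.b (.l 4) (.a (.b (.l 4) (.a .z (.l 4))) (.l 4)))))) (.a (.l
6) (.b (.a (.l 6) (.b (.a (.b .z (.l 6)) (.b (.a .z (.l 4)) .z)) (.a (.l 6) (.b (.a (.l 6) .z) (.l 6))))) (.l 6)))) (.b (.l 4) (.a (.b (.a (.b (.l 4)
(.a (.b .z (.a (.l 6) .z)) (.b (.l 4) (.a .z (.l 4))))) (.l 4)) (.a (.b (.a (.l 6) (.b .z (.l 6))) (.l 6)) (.b (.a (.b (.a .z (.l 4)) .z) (.l 4)) (.a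
(.b (.a (.l 6) .z) (.l 6)) (.b .z (.a (.l 6) .z)))))) (.b (.l 4) (.a (.b (.l 4) (.a (.b (.l 4) (.a .z (.l 4))) (.l 4))) (.l 4)))))) (.a (.l 6) (.b (.a
(.l 6) (.b (.a (.b (.a (.b .z (.l 6)) (.b (.a .z (.l 4)) .z)) (.a (.l 6) (.b (.a (.l 6) .z) (.l 6)))) (.b (.l 4) (.a (.b (.a .z (.l 4)) .z) (.b (.l 4)
(.a .z (.l 4)))))) (.a (.l 6) (.b (.a (.l 6) (.b .z (.a (.l 6) .z))) (.l 6))))) (.l 6))))) (.l 6))) (.l 6)) (.b (.a (.b (.a (.b (.l 4) (.a (.b (.a (.b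
(.l 4) (.a (.b (.a (.b (.l 4) .z) (.l 4)) (.a (.b (.a (.l 6) .z) (.l 6)) (.b (.a .z (.l 4)) .z))) (.b (.l 4) (.a (.b (.l 4) (.a .z (.l 4))) (.l 4)))))
(.l 4)) (.a (.b (.a (.l 6) (.b (.a (.b .z (.a (.l 6) .z)) (.b (.l 4) (.a .z (.l 4)))) (.a (.l 6) (.b .z (.l 6))))) (.l 6)) (.b (.a (.b (.l 4) (.a (.b
(.a .z (.l 4)) .z) (.l 4))) (.l 4)) (.a (.b (.a (.b (.a (.l 6) .z) (.l 6)) (.b .z (.a (.l 6) .z))) (.l 6)) (.b (.a (.b (.l 4) (.a .z (.l 4))) (.l 4))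
(.a (.b .z (.a (.l 6) .z)) (.b (.l 4) .z))))))) (.l 4))) (.l 4)) (.a (.b (.a (.b (.a (.l 6) (.b (.a (.l 6) (.b (.a (.l 6) (.b (.a (.l 6) .z) (.l 6)))
(.l 6))) (.l 6))) (.l 6)) (.b (.a (.b (.a (.b (.a (.b (.a .z (.l 4)) .z) (.b (.l 4) (.a .z (.l 4)))) (.a (.l 6) (.b .z (.a (.l 6) .z)))) (.b (.l 4)
(.a (.b (.l 4) (.a .z (.l 4))) (.l 4)))) (.a (.l 6) (.b (.a (.b .z (.l 6)) (.b (.a .z (.l 4)) .z)) (.a (.l 6) (.b (.a (.l 6) .z) (.l 6)))))) (.b (.l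
4) (.a (.b (.l 4) (.a (.b (.a .z (.l 4)) .z) (.b (.l 4) (.a .z (.l 4))))) (.l 4)))) (.a (.l 6) (.b (.a (.b (.a (.l 6) (.b .z (.a (.l 6) .z))) (.l 6))
(.b (.a (.b (.l 4) (.a .z (.l 4))) (.l 4)) (.a (.b .z (.l 6)) (.b (.a .z (.l 4)) .z)))) (.a (.l 6) (.b (.a (.l 6) (.b (.a (.l 6) .z) (.l 6))) (.l
6))))))) (.l 6)) (.b (.a (.b (.l 4) (.a (.b (.l 4) (.a (.b (.a (.b (.a .z (.l 4)) .z) (.b (.l 4) (.a .z (.l 4)))) (.a (.l 6) (.b .z (.a (.l 6) .z))))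
(.b (.l 4) (.a (.b (.l 4) (.a .z (.l 4))) (.l 4))))) (.l 4))) (.l 4)) (.a (.b (.a (.b (.a (.l 6) (.b (.a (.b .z (.l 6)) (.b (.a .z (.l 4)) .z)) (.a
(.l 6) (.b (.a (.l 6) .z) (.l 6))))) (.l 6)) (.b (.a (.b (.l 4) (.a (.b (.a .z (.l 4)) .z) (.l 4))) (.l 4)) (.a (.b (.a (.b (.a (.l 6) .z) (.l 6)) (.b
.z (.a (.l 6) .z))) (.l 6)) (.b (.a (.b (.l 4) (.a .z (.l 4))) (.l 4)) (.a (.b .z (.a (.l 6) .z)) (.b (.l 4) .z)))))) (.a (.l 6) (.b (.a (.l 6) (.b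
(.a (.l 6) (.b (.a (.l 6) .z) (.l 6))) (.l 6))) (.l 6)))) (.b (.l 4) (.a (.b (.a (.b (.a (.b (.a .z (.l 4)) .z) (.l 4)) (.a (.b (.a (.l 6) .z) (.l 6))
(.b (.a .z (.l 4)) .z))) (.b (.l 4) (.a (.b (.l 4) (.a .z (.l 4))) (.l 4)))) (.a (.l 6) (.b (.a (.b .z (.a (.l 6) .z)) (.b (.l 4) (.a .z (.l 4)))) (.a
(.l 6) (.b .z (.a (.l 6) .z)))))) (.b (.l 4) (.a (.b (.l 4) (.a (.b (.l 4) .z) (.l 4))) (.l 4))))))))) (.l 4)) (.a (.b (.a (.l 6) (.b (.a (.l 6) (.b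
(.a (.l 6) (.b (.a (.b (.a (.b (.a (.l 6) .z) (.l 6)) (.b (.a .z (.l 4)) .z)) (.a (.l 6) (.b (.a (.l 6) .z) (.l 6)))) (.b (.l 4) (.a (.b (.a .z (.l
4)) .z) (.l 4)))) (.a (.l 6) (.b (.a (.b (.a (.l 6) .z) (.l 6)) (.b .z (.a (.l 6) .z))) (.l 6))))) (.l 6))) (.l 6))) (.l 6)) (.b (.a (.b (.a (.b (.a
(.b (.l 4) (.a (.b (.a (.b (.l 4) (.a .z (.l 4))) (.l 4)) (.a (.b .z (.a (.l 6) .z)) (.b (.l 4) (.a .z (.l 4))))) (.l 4))) (.l 4)) (.a (.b (.a (.b (.a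
(.l 6) (.b .z (.a (.l 6) .z))) (.l 6)) (.b (.a (.b (.l 4) .z) (.l 4)) (.a (.b (.a (.l 6) .z) (.l 6)) (.b (.a .z (.l 4)) .z)))) (.a (.l 6) (.b (.a (.l
6) (.b (.a (.l 6) .z) (.l 6))) (.l 6)))) (.b (.l 4) (.a (.b (.a (.b (.a .z (.l 4)) .z) (.l 4)) (.a (.b (.a (.l 6) .z) (.l 6)) (.b .z (.a (.l 6) .z))))
(.b (.l 4) (.a (.b (.l 4) (.a .z (.l 4))) (.l 4))))))) (.l 4)) (.a (.b (.a (.l 6) (.b (.a (.l 6) (.b (.a (.b .z (.a (.l 6) .z)) (.b (.l 4) (.a .z (.l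
4)))) (.a (.l 6) (.b .z (.a (.l 6) .z))))) (.l 6))) (.l 6)) (.b (.a (.b (.a (.b (.l 4) (.a (.b (.l 4) (.a .z (.l 4))) (.l 4))) (.l 4)) (.a (.b (.a (.b
.z (.a (.l 6) .z)) (.b (.l 4) .z)) (.a (.l 6) (.b (.a (.l 6) .z) (.l 6)))) (.b (.l 4) (.a (.b (.a .z (.l 4)) .z) (.l 4))))) (.l 4)) (.a (.b (.a (.l 6)
(.b (.a (.b (.a (.l 6) .z) (.l 6)) (.b (.a .z (.l 4)) .z)) (.a (.l 6) (.b (.a (.l 6) .z) (.l 6))))) (.l 6)) (.b (.a (.b (.l 4) (.a (.b (.a .z (.l 4))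
.z) (.l 4))) (.l 4)) (.a (.b (.a (.b (.a (.l 6) .z) (.l 6)) (.b .z (.a (.l 6) .z))) (.l 6)) (.b (.a (.b (.l 4) (.a .z (.l 4))) (.l 4)) (.a (.b .z (.a
(.l 6) .z)) (.b (.l 4) (.a .z (.l 4))))))))))) (.l 4)) (.a (.b (.a (.l 6) (.b (.a (.l 6) (.b (.a (.l 6) (.b (.a (.l 6) (.b .z (.a (.l 6) .z))) (.l
6))) (.l 6))) (.l 6))) (.l 6)) (.b (.a (.b (.a (.b (.a (.b (.a (.b (.l 4) (.a .z (.l 4))) (.l 4)) (.a (.b .z (.a (.l 6) .z)) (.b (.l 4) (.a .z (.l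
4))))) (.l 4)) (.a (.b (.a (.l 6) (.b .z (.a (.l 6) .z))) (.l 6)) (.b (.a (.b (.l 4) (.a .z (.l 4))) (.l 4)) (.a (.b .z (.l 6)) (.b (.a .z (.l 4))
.z))))) (.l 4)) (.a (.b (.a (.l 6) (.b (.a (.l 6) (.b (.a (.l 6) .z) (.l 6))) (.l 6))) (.l 6)) (.b (.a (.b (.a (.b (.a .z (.l 4)) .z) (.l 4)) (.a (.b
(.a (.l 6) .z) (.l 6)) (.b (.a .z (.l 4)) .z))) (.l 4)) (.a (.b (.a (.l 6) (.b (.a (.l 6) .z) (.l 6))) (.l 6)) (.b (.a (.b (.a .z (.l 4)) .z) (.l 4))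
(.a (.b (.a (.l 6) .z) (.l 6)) (.b (.a .z (.l 4)) .z))))))) (.l 4)) (.a (.b (.a (.l 6) (.b (.a (.l 6) (.b (.a (.l 6) (.b (.a (.l 6) .z) (.l 6))) (.l
6))) (.l 6))) (.l 6)) (.b (.a (.b (.a (.b (.a (.b (.a .z (.l 4)) .z) (.l 4)) (.a (.b (.a (.l 6) .z) (.l 6)) (.b (.a .z (.l 4)) .z))) (.l 4)) (.a (.b
(.a (.l 6) (.b (.a (.l 6) .z) (.l 6))) (.l 6)) (.b (.a (.b (.a .z (.l 4)) .z) (.l 4)) (.a (.b (.a (.l 6) .z) (.l 6)) (.b (.a .z (.l 4)) .z))))) (.l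
4)) (.a (.b (.a (.l 6) (.b (.a (.l 6) (.b (.a (.l 6) .z) (.l 6))) (.l 6))) (.l 6)) (.b (.a (.b (.a (.b (.a .z (.l 4)) .z) (.l 4)) (.a (.b (.a (.l 6)
.z) (.l 6)) (.b (.a .z (.l 4)) .z))) (.l 4)) (.a (.b (.a (.l 6) (.b (.a (.l 6) .z) (.l 6))) (.l 6)) (.b (.a (.b (.a .z (.l 4)) .z) (.l 4)) (.a (.b (.a
(.l 6) .z) (.l 6)) (.b (.a .z (.l 4)) .z)))))))))))))))

theorem vQ81 : ev Q81 I4_3 I4_11 = 3880125897174636 := by decide +kernel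

noncomputable def Q180 : QT :=
(.b (.l 11) (.b (.l 11) (.a (.l 11) (.b (.a (.l 11) (.a (.l 11) (.b (.l 11) (.a (.l 11) (.b (.l 11) (.a (.l 11) (.b (.l 11) (.a (.l 11) (.b (.l 11)
(.a (.l 11) (.b (.l 11) .z))))))))))) (.a (.b (.l 11) (.a (.l 11) (.b (.l 11) (.a (.l 11) (.b (.l 11) (.a (.l 11) (.b (.l 11) (.a (.l 11) (.b (.l 11)
(.a (.l 11) .z)))))))))) (.a (.b (.l 11) (.b (.a (.l 11) (.b (.a (.l 11) (.b (.a (.l 11) (.b (.a (.l 11) .z) (.a .z (.a .z (.l 7))))) (.a (.b (.a (.l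
11) .z) (.a .z (.a .z (.l 7)))) (.b (.a (.a .z (.l 7)) (.l 7)) (.l 7))))) (.a (.b (.a (.l 11) (.b (.a (.l 11) .z) (.a .z (.a .z (.l 7))))) (.a (.b (.a
(.l 11) .z) (.a .z (.a .z (.l 7)))) (.b (.a (.a .z (.l 7)) (.l 7)) (.l 7)))) (.b (.a (.b (.a (.a .z (.l 7)) (.l 7)) (.l 7)) (.l 7)) (.l 7))))) (.a (.b
(.a (.b (.l 11) (.a (.l 11) (.b (.l 11) (.a (.l 11) .z)))) (.b (.a (.l 11) (.b (.a (.l 11) .z) (.a .z (.a .z (.l 7))))) (.a (.b .z (.a .z (.l 7))) (.b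
(.a (.a .z (.l 7)) (.l 7)) (.l 7))))) (.a (.b (.a (.b (.l 11) (.a (.l 11) .z)) (.b .z (.a .z (.l 7)))) (.a (.b .z (.a .z (.l 7))) (.l 7))) (.l 7)))
(.b (.a (.b (.a (.b (.a (.a .z (.l 7)) (.l 7)) (.l 7)) (.l 7)) (.l 7)) (.l 7)) (.l 7))))) (.b (.a (.b (.l 11) (.a (.b (.l 11) (.a (.b (.l 11) (.a (.b
(.l 11) .z) (.b .z (.a .z (.l 7))))) (.b (.a (.b (.l 11) .z) (.b .z (.a .z (.l 7)))) (.a (.b (.a .z (.l 7)) (.l 7)) (.l 7))))) (.b (.a (.b (.l 11) (.a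
(.b (.l 11) .z) (.b .z (.a .z (.l 7))))) (.b (.a (.b (.l 11) .z) (.b .z (.a .z (.l 7)))) (.a (.b (.a .z (.l 7)) (.l 7)) (.l 7)))) (.a (.b (.a (.b (.a
.z (.l 7)) (.l 7)) (.l 7)) (.l 7)) (.l 7))))) (.b (.a (.b (.a (.l 11) (.b (.l 11) (.a (.l 11) (.b (.l 11) .z)))) (.a (.b (.a (.l 11) (.b (.l 11) .z))
(.a (.b (.l 11) .z) (.b .z (.a .z (.l 7))))) (.b (.a .z (.b .z (.l 7))) (.l 7)))) (.b (.a (.b (.a (.l 11) (.b (.l 11) .z)) (.a .z (.b .z (.l 7)))) (.b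
(.a .z (.b .z (.l 7))) (.l 7))) (.l 7))) (.a (.b (.a (.b (.a (.b (.a .z (.l 7)) (.l 7)) (.l 7)) (.l 7)) (.l 7)) (.l 7)) (.l 7)))) (.a (.b (.a (.b (.a
(.b (.a (.b (.a .z (.l 7)) (.l 7)) (.l 7)) (.l 7)) (.l 7)) (.l 7)) (.l 7)) (.l 7)) (.l 7)))))))))

theorem vQ180 : ev Q180 I4_8 I4_11 = 3899675508504595 := by decide +kernel

end Pool.Agent.Helper64.SPW.Dat
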