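import Pool.Agent.Helper64.SPW.Iv

/-! Boxes of traces, part 14 (data and kernel evaluation). -/

set_option maxRecDepth 1000000
set_option maxHeartbeats 0

namespace Pool.Agent.Helper64.SPW.Dat

noncomputable def Q173 : QT :=
(.b (.b (.a (.a (.b .z (.a (.b .z (.a .z (.b .z (.a .z (.b (.a .z (.l 59)) (.l 59)))))) (.b (.a .z (.b (.a .z (.b .z (.l 73))) (.a (.b .z (.a (.l 59)
.z)) (.b (.l 73) .z)))) (.a (.b (.a (.b .z (.a .z (.l 59))) (.l 59)) (.l 59)) (.a (.b (.a (.l 59) (.b .z (.l 59))) (.l 59)) (.b .z (.a (.l 59)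
.z))))))) (.b (.a (.b .z (.a (.b .z (.a .z (.b .z (.l 73)))) .z)) .z) (.a (.a (.b (.b (.b (.l 73) (.a (.l 73) .z)) .z) .z) .z) .z))) (.a (.b (.b (.a
(.b .z (.a .z (.b .z (.l 128)))) (.b .z (.a (.a (.b .z (.l 128)) .z) .z))) .z) .z) .z)) (.b (.b (.b (.a (.a (.a (.a .z (.a (.b (.a .z (.l 59)) (.l
59)) (.l 59))) (.l 59)) (.a (.a (.a (.a (.b .z (.l 59)) .z) .z) .z) (.a (.l 231) .z))) .z) (.b (.b (.b (.a (.a (.a (.a .z (.l 59)) (.l 59)) .z) .z)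
.z) (.l 47)) (.l 47))) (.l 47)) (.l 47))) (.a (.b (.a (.b (.a (.b (.a (.b (.l 47) (.a (.b (.a .z (.l 47)) .z) (.b (.l 47) (.a .z (.l 47))))) (.l 47))
(.a (.b (.a (.l 49) (.b .z (.l 49))) (.l 49)) (.b (.a (.b (.a .z (.l 47)) .z) (.b (.l 47) (.a .z (.l 47)))) (.a (.l 49) (.b .z (.a (.l 49) .z))))))
(.b (.l 47) (.a (.b (.l 47) (.a (.b (.l 47) .z) (.l 47))) (.l 47)))) (.a (.b (.b (.b (.b (.l 49) (.a (.l 49) (.b (.l 49) .z))) .z) (.a (.l 321) .z))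
(.a (.b .z (.a .z (.b .z (.l 113)))) (.b (.a (.b .z (.l 113)) (.l 113)) (.l 113)))) (.b (.a (.b (.a .z (.b (.a .z (.l 47)) .z)) (.l 113)) (.b (.a (.b
(.l 47) (.a .z (.l 47))) (.l 47)) (.a .z (.b (.l 47) (.a .z (.l 47)))))) (.a (.l 113) (.b (.a (.l 113) .z) (.l 113)))))) (.b (.l 47) (.a (.b (.l 47)
(.a (.b (.a (.b (.l 47) (.a .z (.l 47))) (.l 47)) (.a .z (.b (.l 47) (.a .z (.l 47))))) (.l 47))) (.l 47)))) (.a (.b (.b (.l 113) (.b (.a (.b (.a .z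
(.b (.l 113) .z)) (.a (.l 61) (.b .z (.l 61)))) (.b (.l 113) (.a .z (.l 113)))) (.a (.l 61) (.b (.a (.b (.a (.l 61) .z) (.l 61)) (.b .z (.a (.l 61)
.z))) (.l 61))))) (.a (.l 61) (.b (.l 61) (.a (.l 61) (.b (.l 61) (.a (.b (.l 61) .z) .z)))))) (.b (.a (.b (.a (.a (.l 113) (.b .z (.l 113))) (.a (.b
(.a (.b (.l 47) .z) (.l 47)) .z) (.b (.l 47) (.a (.b (.l 47) .z) (.l 47))))) (.b (.a (.l 113) (.a (.l 113) .z)) (.b (.a (.b (.l 113) .z) (.l 113)) (.a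
(.b .z (.l 61)) .z)))) (.b (.l 47) (.a (.b (.a (.a (.b (.l 47) .z) (.l 47)) (.l 47)) (.a .z (.b (.l 47) (.a (.l 47) .z)))) (.b (.a (.l 47) (.b (.l 47)
(.a (.l 47) .z))) (.a (.b (.a (.l 47) .z) .z) (.b .z (.l 99))))))) (.a (.b (.a (.l 61) (.b (.a (.l 61) (.b (.b .z (.l 61)) (.a (.l 61) .z))) (.a (.b
(.a (.l 61) .z) .z) .z))) (.a (.b (.a (.b (.l 61) .z) .z) (.a .z (.l 167))) (.b (.a .z (.l 167)) (.l 167)))) (.b (.a .z (.b (.b .z (.b .z (.a (.l 25)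
.z))) (.a (.a (.b (.l 25) .z) (.l 25)) (.l 25)))) (.a .z (.a (.b (.a .z (.b (.a .z (.l 25)) .z)) .z) (.b (.l 25) (.a (.b (.a .z (.l 25)) .z) (.b (.l
25) (.a .z (.l 25)))))))))))) (.b (.a (.b (.l 47) (.a (.l 47) (.b (.l 47) (.a (.b (.l 47) (.a (.l 47) (.b (.l 47) .z))) (.b (.a (.l 47) (.b (.l 47)
.z)) .z))))) (.b (.a (.l 47) (.b (.l 47) (.a (.b (.l 47) (.a (.l 47) (.b (.l 47) .z))) (.b (.a (.l 47) (.b (.a (.l 47) .z) .z)) (.a .z (.b .z (.l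
72))))))) (.a (.b (.a (.b (.l 47) (.a (.l 47) (.b (.l 47) .z))) (.b (.a (.l 47) (.b (.l 47) .z)) .z)) (.a (.b (.a .z (.b .z (.l 93))) (.b (.l 93) (.a
.z (.l 93)))) (.l 93))) (.b .z (.a (.a (.b .z (.b (.l 93) .z)) .z) .z))))) (.a (.b (.a (.b (.a (.b (.l 47) (.a (.l 47) (.b (.l 47) (.a (.l 47) .z))))
(.b (.a (.l 47) (.b (.l 47) .z)) (.a (.b (.a (.l 47) .z) .z) (.b .z (.l 99))))) (.a (.b (.a (.b (.a (.l 47) .z) .z) (.b .z (.l 99))) (.b (.l 99) (.b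
(.l 99) .z))) (.b (.l 99) (.b (.l 99) (.b (.l 99) .z))))) (.b (.a (.b (.a .z (.b .z (.l 99))) (.l 99)) (.a (.l 99) (.b .z (.l 99)))) (.b (.l 99) (.b
(.b (.l 99) (.a (.l 99) .z)) .z)))) (.b (.b (.a .z (.a (.b (.l 196) .z) .z)) (.a (.b (.a (.b .z (.a (.l 25) .z)) .z) (.a (.l 25) (.a (.b .z (.l 25))
.z))) .z)) (.a (.l 25) (.b (.a (.b (.a (.b .z (.l 25)) .z) (.l 25)) (.b .z (.a (.b .z (.a (.l 25) .z)) .z))) (.a (.l 25) (.b (.a (.l 25) (.b (.a (.l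
25) .z) (.l 25))) (.l 25))))))) (.b (.a (.b (.a (.a .z (.b .z (.l 199))) (.b (.b (.a .z (.l 93)) .z) .z)) .z) (.a (.b .z (.b (.b (.l 157) .z) .z)) (.b
.z (.a .z (.b .z (.a .z (.l 41))))))) (.b (.a .z (.a .z (.a (.b .z (.a .z (.l 41))) (.l 41)))) (.a (.b .z (.a (.b (.a (.b .z (.a (.l 25) .z)) .z) (.a
(.l 25) (.b .z (.a (.l 25) .z)))) .z)) (.b (.a .z (.l 41)) (.a (.a .z (.a .z (.l 41))) (.b (.a (.l 41) (.b (.l 41) .z)) (.a .z (.b .z (.l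
47)))))))))))))

theorem vQ173 : ev Q173 I5_17 I4_9 = 1128907085576782 := by decide +kernel

noncomputable def Q187 : QT :=
(.a (.b (.b (.a (.b (.l 7) (.b (.b (.a (.b (.a (.b (.l 7) (.a (.b (.a .z (.l 7)) .z) (.b (.l 7) (.a .z (.l 7))))) (.l 7)) (.a (.b (.a (.l 9) (.b .z
(.l 9))) (.l 9)) (.b (.a (.b (.a .z (.l 7)) .z) (.b (.l 7) (.a (.a .z (.l 7)) (.l 7)))) (.a (.l 9) (.b .z (.l 9)))))) (.b (.l 7) (.a (.b (.l 7) (.a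
(.b (.a (.a .z (.l 7)) (.l 7)) .z) (.l 7))) (.l 7)))) (.a (.l 9) (.b (.a (.b (.a (.b (.a (.l 9) .z) (.l 9)) (.b .z (.a (.l 9) .z))) (.l 9)) (.b (.a
(.b (.l 7) (.a .z (.a .z (.l 7)))) (.l 7)) (.a (.b (.a (.l 9) .z) (.l 9)) (.b (.a .z (.l 7)) .z)))) (.l 9)))) (.b (.l 9) (.a (.l 9) (.b (.l 9) (.a (.l
9) (.b (.l 9) (.a (.l 9) (.b (.l 9) (.a (.l 9) .z)))))))))) (.b (.l 7) (.a (.b (.b (.l 7) (.b (.a (.b (.l 7) (.a (.b (.l 7) (.a .z (.l 7))) (.l 7)))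
(.l 7)) (.a (.b (.a (.b .z (.l 9)) (.b (.a (.a .z (.l 7)) (.l 7)) .z)) (.a (.l 9) (.b (.a (.l 9) .z) (.l 9)))) (.b (.l 7) (.a (.b .z (.a (.l 9) .z))
(.b (.l 7) (.a .z (.a .z (.l 7))))))))) (.b (.b (.a (.l 9) (.b (.a (.l 9) (.b (.a (.l 9) .z) (.l 9))) (.l 9))) (.l 9)) (.b (.a (.l 9) (.b (.l 9) (.a
(.b (.l 9) (.a (.l 9) .z)) (.b (.a (.l 9) .z) .z)))) (.a (.b (.a (.l 9) (.b (.l 9) .z)) .z) (.b .z (.l 81)))))) (.b (.l 7) (.a (.b (.b (.b (.a (.b (.a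
.z (.l 7)) .z) (.b (.l 7) (.a (.a .z (.l 7)) (.l 7)))) (.a (.l 9) (.b .z (.a (.l 9) .z)))) (.b (.l 9) (.a (.l 9) (.b (.l 9) (.a (.l 9) .z))))) (.b (.b
(.a (.b (.l 9) .z) .z) .z) (.a .z (.b .z (.l 61))))) (.b (.a (.b (.b (.l 7) (.b (.l 7) .z)) (.b (.b (.a (.l 9) .z) (.l 9)) (.b (.a (.l 9) .z) .z)))
(.b (.l 7) (.a (.b (.b .z (.l 9)) .z) .z))) (.a (.b .z (.a (.l 61) .z)) (.b (.a .z (.b .z (.l 21))) (.a (.b .z (.l 21)) (.l 21)))))))))) (.a (.a (.b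
(.b (.b (.b (.l 9) (.a (.b (.l 9) (.a (.l 9) (.b (.a (.l 9) .z) .z))) (.b (.a (.b (.l 9) (.a (.l 9) .z)) (.b (.a (.l 9) .z) .z)) .z))) (.b (.a (.b .z
(.l 81)) (.l 81)) (.l 81))) (.b (.a (.l 81) (.b (.l 81) (.a (.l 81) .z))) (.a (.b (.a (.l 81) .z) (.a .z (.b .z (.l 61)))) (.b (.a .z (.b .z (.l 61)))
(.l 61))))) (.b (.b (.a (.b (.a (.b .z (.l 61)) (.l 61)) (.l 61)) (.l 61)) (.l 61)) (.l 61))) (.b (.b (.b (.b (.a (.b (.l 9) (.a (.b (.l 9) .z) .z))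
(.b (.a (.b (.a (.l 9) .z) .z) .z) .z)) (.a (.b .z (.l 81)) (.l 81))) (.a (.l 81) (.b (.a (.l 81) .z) (.a .z (.b .z (.l 61)))))) (.b (.a (.b .z (.a
(.b .z (.l 61)) (.l 61))) (.b (.a (.b .z (.l 61)) (.l 61)) (.l 61))) (.l 61))) (.a (.l 61) (.b (.l 61) (.a (.b (.l 61) (.a (.l 61) (.b (.l 61) .z)))
(.b (.a (.l 61) (.b (.l 61) .z)) (.a (.b .z (.a .z (.l 21))) (.b (.a .z (.l 21)) (.l 21))))))))) (.a (.b (.b (.b (.a (.b (.l 81) (.a (.l 81) .z)) (.b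
.z (.a (.b .z (.l 61)) (.l 61)))) (.a (.b (.a .z (.b .z (.l 61))) (.l 61)) (.l 61))) (.a (.l 61) (.b (.a (.l 61) (.b (.a (.l 61) .z) .z)) (.a (.a (.b
(.l 61) .z) .z) (.b (.a .z (.l 21)) (.l 21)))))) (.a (.b (.a (.b (.l 61) (.a (.b (.l 61) .z) .z)) (.b (.a (.b (.l 61) .z) .z) (.a (.b .z (.l 21)) (.l
21)))) (.a (.b (.a (.b .z (.a .z (.l 21))) (.l 21)) (.l 21)) (.l 21))) (.b (.a (.b (.a (.b .z (.l 21)) (.l 21)) (.l 21)) (.l 21)) (.l 21)))) (.b (.b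
(.a (.b (.a (.b (.b .z (.l 61)) (.l 61)) (.b (.l 61) .z)) (.a (.b (.a (.l 61) .z) .z) (.b (.a .z (.l 21)) (.l 21)))) (.b (.a (.b (.a .z (.b .z (.l
21))) (.a (.b .z (.l 21)) (.l 21))) (.l 21)) (.l 21))) (.a (.b (.a (.b (.a .z (.l 21)) (.l 21)) (.l 21)) (.l 21)) (.l 21))) (.l 21))))) (.a (.b (.a
(.b (.a (.b (.b (.b (.a (.b (.l 61) .z) (.l 61)) (.a (.b .z (.l 52)) .z)) (.b (.b (.a .z (.l 52)) .z) (.l 39))) (.l 39)) (.b (.b (.b (.l 61) (.a (.b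
(.l 61) .z) (.l 61))) (.b (.b (.a .z (.l 61)) .z) (.b .z (.a (.l 39) .z)))) (.a (.b (.l 39) (.a (.l 39) (.b (.l 39) .z))) (.b (.a (.l 39) (.b (.l 39)
.z)) (.a .z (.b .z (.l 21))))))) (.a (.b (.a (.l 39) (.b (.a (.l 39) (.b (.l 39) .z)) (.a (.b (.l 39) .z) (.b .z (.a .z (.l 21)))))) (.a (.b (.a (.b
(.l 39) .z) (.b .z (.a .z (.l 21)))) (.a (.b (.a .z (.l 21)) (.l 21)) (.l 21))) (.b (.a (.b (.a .z (.l 21)) (.l 21)) (.l 21)) (.l 21)))) (.b (.a (.b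
(.a .z (.b .z (.l 21))) (.l 21)) (.l 21)) (.l 21)))) (.b (.a (.b (.a (.b (.l 61) (.a (.b (.l 61) .z) (.b (.l 61) .z))) (.b (.a (.l 61) (.b (.l 61)
.z)) (.a (.b .z (.a .z (.l 21))) (.b (.a .z (.l 21)) (.l 21))))) (.a (.b (.a (.b .z (.a .z (.l 21))) (.b (.a .z (.l 21)) (.l 21))) (.l 21)) (.l 21)))
(.b (.a (.b (.a (.b .z (.a .z (.l 21))) (.b (.a .z (.l 21)) (.l 21))) (.l 21)) (.l 21)) (.l 21))) (.l 21))) (.b (.b (.b (.b (.a (.l 21) (.a (.l 21)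
(.b (.l 21) (.a (.l 21) (.b (.l 21) .z))))) (.a (.b (.l 21) (.a (.l 21) (.b (.l 21) (.a (.l 21) .z)))) (.b (.a (.b (.l 21) (.a (.l 21) .z)) (.a (.b .z
(.a .z (.l 12))) (.b (.a .z (.l 12)) (.l 12)))) (.a (.b (.a .z (.a .z (.l 12))) (.a (.a .z (.l 12)) (.l 12))) (.l 12))))) (.b (.a (.b (.a (.b (.l 21)
(.a (.l 21) .z)) (.b (.a .z (.a .z (.l 12))) (.a (.a .z (.l 12)) (.l 12)))) (.a (.b (.a .z (.a .z (.l 12))) (.a (.a .z (.l 12)) (.l 12))) (.l 12)))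
(.l 12)) (.a (.b (.l 12) (.a (.b (.l 12) (.a .z (.l 12))) (.l 12))) (.l 12)))) (.b (.a (.b (.a (.b (.b (.a (.a (.l 11) .z) .z) (.a (.l 11) (.a (.l 11)
.z))) (.l 11)) (.b (.a (.b (.l 12) .z) (.l 12)) (.a (.b (.a (.l 11) .z) (.l 11)) (.b .z (.a (.l 11) .z))))) (.l 11)) (.b (.a (.b (.l 12) (.a (.b (.l
12) .z) (.l 12))) (.l 12)) (.a (.b (.a (.b (.a (.l 11) .z) (.l 11)) (.b .z (.a (.l 11) .z))) (.l 11)) (.b (.a (.b (.l 12) .z) (.l 12)) (.a (.b (.a (.l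
11) .z) (.l 11)) (.b .z (.a (.l 11) .z))))))) (.l 11))) (.l 11))) (.b (.b (.l 21) (.b (.l 21) (.b (.l 21) (.a (.b (.l 21) (.a (.l 21) (.b (.l 21) (.a
(.l 21) (.b (.l 21) .z))))) (.b (.a (.l 21) (.b (.l 21) (.a (.l 21) .z))) (.a (.b (.a (.l 21) (.b (.l 21) .z)) (.a (.b .z (.a .z (.l 12))) (.b (.a .z
(.l 12)) (.l 12)))) (.b (.a (.b .z (.a .z (.l 12))) (.b (.a .z (.l 12)) (.l 12))) (.l 12)))))))) (.b (.b (.b (.a (.b (.a (.b (.a (.l 21) (.b (.l 21)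
.z)) (.a (.b .z (.a .z (.l 12))) (.b (.a .z (.l 12)) (.l 12)))) (.b (.a (.b .z (.a .z (.l 12))) (.b (.a .z (.l 12)) (.l 12))) (.l 12))) (.l 12)) (.l
12)) (.l 12)) (.b (.a (.b (.l 12) (.a (.b (.l 12) (.a (.b (.l 12) .z) (.l 12))) (.l 12))) (.l 12)) (.a (.b (.a (.b (.a (.b (.a (.l 11) .z) (.l 11))
(.b .z (.a (.l 11) .z))) (.l 11)) (.b (.a (.b (.l 12) .z) (.l 12)) (.a (.b (.a (.l 11) .z) (.l 11)) (.b (.a .z (.l 12)) .z)))) (.l 11)) (.b (.a (.b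
(.l 12) (.a (.b (.l 12) (.a .z (.l 12))) (.l 12))) (.l 12)) (.a (.b (.a (.b .z (.l 11)) (.b (.a .z (.l 12)) .z)) (.l 11)) (.b (.a (.b (.l 12) (.a .z
(.l 12))) (.l 12)) (.a (.b .z (.l 11)) (.b (.a .z (.l 12)) .z)))))))) (.b (.b (.a (.l 11) (.b (.a (.l 11) (.b (.a (.l 11) (.b (.a (.l 11) .z) (.l
11))) (.l 11))) (.l 11))) (.l 11)) (.l 11)))))) (.b (.b (.a (.b (.a (.b (.l 7) (.a (.l 7) (.b (.a (.l 7) (.b (.l 7) (.a (.l 7) (.b (.l 7) (.a (.l 7)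
(.b (.l 7) .z)))))) (.a (.b (.l 7) (.a (.l 7) (.b (.l 7) (.a (.l 7) .z)))) (.b (.a (.b (.l 7) (.a (.l 7) .z)) (.b (.a .z (.b .z (.l 8))) (.a (.b .z
(.l 8)) (.l 8)))) (.a (.b (.a .z (.b .z (.l 8))) (.a (.b .z (.l 8)) (.l 8))) (.l 8))))))) (.b (.a (.b (.l 7) (.a (.b (.l 7) (.a (.l 7) (.b (.l 7) (.a
(.l 7) (.b (.l 7) .z))))) (.b (.a (.l 7) (.b (.a (.l 7) .z) (.a .z (.b .z (.l 8))))) (.a (.b (.a (.b (.l 7) .z) .z) (.a .z (.l 8))) (.b (.a (.b .z (.l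
8)) (.l 8)) (.l 8)))))) (.b (.a (.b (.a (.l 7) (.b (.a (.l 7) (.b (.l 7) .z)) (.a (.b (.l 7) .z) .z))) (.a (.b (.a (.l 7) .z) (.a .z (.b .z (.l 8))))
(.b (.a (.b .z (.l 8)) (.l 8)) (.l 8)))) (.b (.a (.b (.a .z (.l 8)) (.l 8)) (.l 8)) (.l 8))) (.a (.b (.a (.b (.a (.b .z (.l 8)) (.l 8)) (.l 8)) (.l
8)) (.l 8)) (.l 8)))) (.a (.b (.a (.b (.a (.b (.l 7) (.a (.l 7) (.b (.l 7) .z))) (.b (.a (.b (.l 7) .z) .z) (.a .z (.l 8)))) (.a (.b (.a (.b (.l 7)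
.z) .z) (.a .z (.l 8))) (.l 8))) (.l 8)) (.l 8)) (.l 8)))) (.a (.b (.a (.b (.a (.l 7) (.b (.l 7) (.a (.l 7) (.b (.a (.l 7) (.b (.l 7) .z)) (.a (.b (.l
7) .z) .z))))) (.a (.b (.l 7) (.a (.l 7) (.b (.a (.l 7) (.b (.l 7) .z)) (.a (.b (.l 7) .z) .z)))) (.b (.a (.b (.a (.l 7) (.b (.l 7) .z)) (.a (.b (.l
7) .z) .z)) (.b (.a .z (.l 8)) (.l 8))) (.a (.b (.a .z (.l 8)) (.l 8)) (.l 8))))) (.b (.a (.b (.a (.b (.l 7) (.a (.b (.l 7) .z) .z)) (.b (.a .z (.b .z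
(.l 8))) (.a (.b .z (.l 8)) (.l 8)))) (.a (.b (.a .z (.l 8)) (.l 8)) (.l 8))) (.l 8)) (.l 8))) (.a (.b (.a (.b (.a (.b (.a (.l 7) .z) (.a .z (.b .z
(.l 8)))) (.b (.a (.b .z (.l 8)) (.l 8)) (.l 8))) (.a (.b (.a .z (.b (.l 8) .z)) .z) (.b (.l 8) .z))) (.b (.l 8) (.b (.l 8) (.b (.a (.a .z (.l 8)) (.l
8)) .z)))) (.b (.b (.a (.l 21) (.b .z (.l 21))) (.l 21)) (.l 21))) (.b (.l 8) (.b (.b (.a (.b (.a .z (.a .z (.l 8))) .z) (.b (.l 8) (.a .z (.l 8))))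
(.a (.l 21) (.b .z (.l 21)))) (.l 21))))) (.b (.l 8) (.b (.l 8) (.b (.a (.b (.l 8) (.a (.b (.a (.a .z (.l 8)) (.l 8)) .z) (.l 8))) (.l 8)) (.a (.b (.a
(.b .z (.l 21)) (.b (.a .z (.l 8)) .z)) (.l 21)) (.b (.a (.b (.l 8) (.a (.a .z (.l 8)) (.l 8))) (.l 8)) (.a .z (.b (.l 8) (.a .z (.a .z (.l
8)))))))))))) (.l 8)) (.b (.b (.a (.b (.a (.l 21) (.b (.a (.l 21) (.b (.a (.l 21) (.b .z (.l 21))) (.l 21))) (.l 21))) (.l 21)) (.b (.a (.b (.a (.b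
(.a (.b (.a .z (.l 8)) .z) (.b (.l 8) (.a (.a .z (.l 8)) (.l 8)))) (.a (.l 21) (.b (.a .z (.a .z (.l 8))) .z))) (.b (.l 8) (.a (.b (.l 8) (.a .z (.l
8))) (.l 8)))) (.a (.l 21) (.b (.a (.b .z (.l 21)) (.b (.a (.a .z (.l 8)) (.l 8)) (.a .z (.a .z (.l 8))))) (.a (.l 21) (.b .z (.l 21)))))) (.b (.l 8)
(.a (.b (.l 8) (.a (.b (.a .z (.l 8)) .z) (.b (.l 8) (.a (.a .z (.l 8)) (.l 8))))) (.l 8)))) (.a (.l 21) (.b (.a (.b (.a (.l 21) (.b (.a .z (.a .z (.l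
8))) .z)) (.l 21)) (.b (.a (.b (.l 8) (.a .z (.l 8))) (.l 8)) (.a (.b .z (.l 21)) (.b (.a (.a .z (.l 8)) (.l 8)) (.a .z (.a .z (.l 8))))))) (.a (.l
21) (.b (.a (.l 21) (.b .z (.l 21))) (.l 21))))))) (.l 21)) (.l 21))) (.b (.b (.l 21) (.b (.a (.l 21) (.b (.l 21) (.a (.b (.l 21) (.a (.l 21) (.b (.a
(.l 21) (.b (.l 21) .z)) (.a (.b (.l 21) .z) (.b .z (.a .z (.l 12))))))) (.b (.a (.b (.l 21) (.a (.l 21) (.b (.l 21) .z))) (.b (.a (.l 21) (.b (.l 21)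
.z)) (.a .z (.b .z (.l 12))))) (.a (.b (.a .z (.b .z (.l 12))) (.l 12)) (.l 12)))))) (.a (.b (.a (.b (.l 21) (.a (.l 21) (.b (.l 21) (.a (.b (.l 21)
.z) .z)))) (.b (.a (.l 21) (.b (.l 21) (.a (.b (.l 21) .z) (.b .z (.a .z (.l 12)))))) (.a (.b (.a (.b (.l 21) .z) .z) (.a (.b .z (.l 12)) (.l 12)))
(.b (.a (.b .z (.l 12)) (.l 12)) (.l 12))))) (.a (.b (.a (.b (.a (.b (.l 21) .z) .z) (.a (.b .z (.l 12)) (.l 12))) (.b (.a (.b .z (.l 12)) (.l 12))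
(.l 12))) (.l 12)) (.l 12))) (.b (.a (.b (.a (.b (.a (.b (.l 21) .z) (.b .z (.a .z (.l 12)))) (.a (.b (.a .z (.l 12)) (.l 12)) (.l 12))) (.b (.a (.b
(.a .z (.l 12)) (.l 12)) (.l 12)) (.l 12))) (.l 12)) (.l 12)) (.l 12))))) (.b (.l 12) (.b (.a (.b (.a (.b (.a (.b (.a (.b .z (.a (.l 11) .z)) (.b (.l
12) .z)) (.a (.l 11) (.b (.a (.l 11) .z) (.l 11)))) (.b (.l 12) (.a (.b (.a .z (.l 12)) .z) (.b (.l 12) (.a .z (.l 12)))))) (.a (.l 11) (.b (.a (.l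
11) (.b .z (.l 11))) (.l 11)))) (.b (.l 12) (.a (.b (.a (.b (.a .z (.l 12)) .z) (.l 12)) (.a (.b (.a (.l 11) .z) (.l 11)) (.b .z (.a (.l 11) .z))))
(.b (.l 12) (.a (.b (.l 12) .z) (.l 12)))))) (.a (.l 11) (.b (.a (.l 11) (.b (.a (.b (.a (.l 11) .z) (.l 11)) (.b (.a .z (.l 12)) .z)) (.l 11))) (.l
11)))) (.b (.l 12) (.a (.b (.a (.b (.a (.b (.l 12) (.a .z (.l 12))) (.l 12)) (.a (.b .z (.l 11)) (.b (.a .z (.l 12)) .z))) (.l 12)) (.a (.b (.a (.l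
11) (.b (.a (.l 11) .z) (.l 11))) (.l 11)) (.b (.a (.b .z (.a (.l 11) .z)) (.b (.l 12) (.a .z (.l 12)))) (.a (.l 11) (.b .z (.l 11)))))) (.b (.l 12)
(.a (.b (.l 12) (.a (.b (.a .z (.l 12)) .z) (.l 12))) (.l 12)))))) (.a (.l 11) (.b (.a (.l 11) (.b (.a (.b (.a (.b (.a (.l 11) .z) (.l 11)) (.b .z (.a
(.l 11) .z))) (.l 11)) (.b (.a (.b (.l 12) (.a .z (.l 12))) (.l 12)) (.a (.b .z (.l 11)) (.b (.a .z (.l 12)) .z)))) (.a (.l 11) (.b (.a (.l 11) (.b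
(.a (.l 11) .z) (.l 11))) (.l 11))))) (.b (.a (.l 11) (.b (.l 11) (.a (.l 11) (.b (.a (.l 11) (.a (.l 11) .z)) (.a (.a (.l 11) .z) .z))))) (.a (.b (.l
11) (.a (.l 11) (.b (.a (.l 11) (.a (.l 11) .z)) (.a (.a (.l 11) .z) .z)))) (.b (.a (.b (.a (.l 11) (.a (.l 11) .z)) (.a (.a (.l 11) .z) .z)) .z) (.a
(.b .z (.l 47)) .z)))))))))))

theorem vQ187 : ev Q187 I5_17 I4_13 = 1843086655953555 := by decide +kernel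

noncomputable def Q209 : QT :=
(.b (.b (.a (.a (.l 19) (.b (.l 19) (.a (.l 19) (.b (.l 19) (.a (.b (.l 19) (.a (.l 19) (.b (.a (.l 19) .z) .z))) (.b (.a (.b (.l 19) (.a (.l 19) .z))
(.b (.a (.l 19) .z) .z)) (.a (.b .z (.l 20)) (.l 20)))))))) (.a (.b (.a (.l 19) (.b (.a (.l 19) (.b (.l 19) (.a (.l 19) (.b (.l 19) (.a (.l 19)
.z))))) (.a (.b (.a (.l 19) (.b (.l 19) (.a (.l 19) .z))) (.a (.b (.l 19) .z) (.b .z (.a .z (.l 20))))) (.b (.a (.b (.a (.l 19) .z) .z) (.b .z (.l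
20))) (.l 20))))) (.a (.b (.a (.b (.l 19) (.a (.b (.l 19) (.a (.l 19) .z)) (.b .z (.a .z (.l 20))))) (.b (.a (.b (.l 19) .z) (.b .z (.a .z (.l 20))))
(.a (.b (.a .z (.l 20)) (.l 20)) (.l 20)))) (.a (.b (.a (.b .z (.l 20)) (.l 20)) (.l 20)) (.l 20))) (.b (.a (.b (.a (.b (.a .z (.l 20)) (.l 20)) (.l
20)) (.l 20)) (.l 20)) (.l 20)))) (.b (.a (.b (.a (.b (.a (.l 19) (.b (.l 19) .z)) (.a (.b (.a (.l 19) .z) .z) (.b (.a .z (.l 20)) (.l 20)))) (.b (.a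
(.b .z (.a .z (.l 20))) (.b (.a .z (.l 20)) (.l 20))) (.l 20))) (.l 20)) (.b (.l 20) (.a (.l 20) (.b (.l 20) (.a (.l 20) (.b (.l 20) (.a (.l 20)
.z))))))) (.a (.b (.a (.l 20) (.b (.l 20) (.a (.l 20) (.b (.l 20) (.a (.l 20) .z))))) (.a (.b (.l 20) (.a (.b (.l 20) .z) (.b .z (.a .z (.l 25)))))
(.b (.a (.b (.l 20) .z) (.b .z (.a .z (.l 25)))) (.a (.b (.a .z (.l 25)) (.l 25)) (.l 25))))) (.b (.a (.b (.a (.l 20) (.b (.l 20) (.a (.l 20) .z)))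
(.a (.b (.a (.l 20) .z) .z) (.b .z (.l 25)))) (.b (.a (.b (.a (.l 20) .z) .z) (.b .z (.l 25))) (.l 25))) (.l 25)))))) (.a (.b (.a (.b (.l 19) (.a (.b
(.a (.b (.a (.b (.l 19) .z) (.l 19)) (.a (.b .z (.l 21)) .z)) (.l 19)) (.a (.b (.a (.l 21) (.b .z (.l 21))) (.l 21)) (.b (.a .z (.b (.l 19) .z)) (.a
(.l 21) .z)))) (.b (.a (.l 19) (.a (.l 19) (.b (.l 19) (.a (.l 19) .z)))) (.a (.b (.l 19) (.a (.b (.l 19) .z) (.a (.l 19) .z))) (.a (.b (.a (.l 19)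
.z) .z) (.b .z (.l 20))))))) (.a (.b (.a (.b (.l 19) (.a (.l 19) (.b (.l 19) .z))) (.b (.a (.l 19) (.b (.l 19) .z)) (.a (.b .z (.a .z (.l 20))) (.b
(.a .z (.l 20)) (.l 20))))) (.a (.b (.a (.b (.a (.l 19) .z) .z) (.b (.a .z (.l 20)) (.l 20))) (.l 20)) (.l 20))) (.b (.a (.b (.a (.b .z (.a .z (.l
20))) (.b (.a .z (.l 20)) (.l 20))) (.l 20)) (.l 20)) (.l 20)))) (.a (.b (.a (.l 21) (.b (.a (.b .z (.a (.l 21) (.b .z (.l 21)))) (.b (.l 20) (.a .z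
(.l 20)))) (.a (.l 21) (.b (.a (.b .z (.l 21)) .z) (.a (.l 21) (.b .z (.l 21))))))) (.b (.l 21) (.a (.l 21) (.b (.a (.l 21) (.b (.l 21) (.a (.l 21)
.z))) (.a (.b (.l 21) .z) .z))))) (.b (.a (.b (.l 20) (.a (.b (.l 20) (.a .z (.l 20))) (.l 20))) (.a (.b (.l 20) (.a (.b (.l 20) (.a (.l 20) .z)) (.b
(.a (.l 20) .z) .z))) (.b (.a (.b (.l 20) (.a (.l 20) .z)) (.b (.a (.l 20) .z) .z)) (.a (.b .z (.l 25)) (.l 25))))) (.a (.b (.a (.b (.a (.b .z (.l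
21)) .z) (.a (.l 21) (.b .z (.l 21)))) (.b (.a (.l 20) (.a (.l 20) .z)) .z)) (.a (.a (.b (.b (.l 21) .z) .z) .z) (.b .z (.l 23)))) (.b (.a (.a .z (.b
(.b (.l 25) .z) .z)) (.b (.b (.a (.l 25) .z) .z) (.l 99))) (.a .z (.l 99))))))) (.a (.b (.a (.b (.l 20) (.a (.b (.l 20) (.a (.b (.l 20) (.a (.l 20)
.z)) (.b (.a (.l 20) .z) .z))) (.b (.a (.b (.l 20) (.a (.l 20) .z)) (.b .z (.a .z (.l 25)))) (.a (.b .z (.l 25)) (.l 25))))) (.b (.a (.b (.l 20) (.a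
(.b (.l 20) .z) (.b .z (.a .z (.l 25))))) (.b (.a (.b (.l 20) .z) (.b .z (.a .z (.l 25)))) (.a (.b (.a .z (.l 25)) (.l 25)) (.l 25)))) (.a (.b (.a (.b
(.a .z (.l 25)) (.l 25)) (.l 25)) (.l 25)) (.l 25)))) (.a (.b (.a (.b (.a (.b .z (.l 25)) (.l 25)) (.b (.l 25) (.b (.a (.l 25) .z) .z))) (.b (.l 25)
(.b (.b (.l 25) (.a (.l 25) .z)) .z))) (.b (.b (.a .z (.l 99)) (.l 99)) (.l 99))) (.b (.b (.b (.l 25) (.a (.b (.l 25) (.a (.l 25) .z)) (.b (.a (.l 25)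
.z) .z))) .z) (.b (.a (.l 99) .z) (.b (.a (.l 99) .z) (.a (.l 99) .z)))))) (.b (.a (.b (.a (.b (.a (.b (.a .z (.l 25)) (.l 25)) (.l 25)) (.l 25)) (.l
25)) (.b (.l 25) (.b (.l 25) (.a (.l 25) (.b (.l 25) (.a (.l 25) .z)))))) (.b (.l 25) (.b (.l 25) (.b (.a (.b (.l 25) (.a (.l 25) .z)) (.b (.a (.l 25)
.z) .z)) (.a .z (.l 119)))))) (.b (.b (.a (.b (.a (.b (.a (.l 25) .z) .z) .z) .z) .z) .z) (.b (.a .z (.b .z (.a .z (.b .z (.a .z (.l 31)))))) (.a (.b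
.z (.a (.b .z (.a .z (.l 31))) (.b (.a .z (.l 31)) (.l 31)))) (.b (.a (.b (.a .z (.l 31)) (.l 31)) (.l 31)) (.l 31))))))))) (.a (.b (.a (.b (.a (.b
(.b (.b (.a (.b (.l 21) (.a (.l 21) .z)) (.b (.a (.l 21) .z) .z)) (.a .z (.l 73))) (.l 73)) (.a (.b (.b (.l 73) .z) .z) (.b (.a (.l 73) .z) (.a (.b .z
(.a .z (.l 23))) (.b (.a .z (.l 23)) (.l 23)))))) (.b (.a (.b (.b .z (.l 73)) (.a (.l 73) .z)) (.b (.a (.l 73) .z) (.a (.b .z (.a .z (.l 23))) (.b (.a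
.z (.l 23)) (.l 23))))) (.a (.b (.a (.b .z (.a .z (.l 23))) (.b (.a .z (.l 23)) (.l 23))) (.l 23)) (.l 23)))) (.a (.b (.a (.b (.a (.b .z (.a .z (.l
23))) (.b (.a .z (.l 23)) (.l 23))) (.l 23)) (.l 23)) (.l 23)) (.l 23))) (.b (.b (.a (.a (.b (.a (.b .z (.a .z (.l 23))) (.b (.a .z (.l 23)) (.l 23)))
(.l 23)) (.l 23)) (.b (.a (.b (.a (.l 23) .z) (.l 23)) .z) (.a (.l 23) (.b (.a (.l 23) .z) (.l 23))))) (.l 23)) (.b (.a (.l 23) (.b (.l 23) (.a (.l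
23) (.b (.a (.l 23) (.b (.l 23) .z)) (.a (.b (.l 23) .z) .z))))) (.a (.b (.l 23) (.a (.l 23) (.b (.a (.l 23) (.b (.l 23) .z)) (.a (.b (.l 23) .z)
.z)))) (.b (.a (.b (.a (.l 23) (.b (.l 23) .z)) (.a (.b (.l 23) .z) .z)) (.b (.a .z (.l 27)) (.l 27))) (.a (.b (.a .z (.l 27)) (.l 27)) (.l 27)))))))
(.b (.a (.b (.a (.b (.l 23) (.a (.b (.a .z (.l 23)) .z) (.b (.l 23) (.a (.b (.l 23) .z) (.l 23))))) (.b (.l 23) (.a (.l 23) (.b (.a (.l 23) .z) (.a .z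
(.b .z (.l 27))))))) (.a (.b (.a (.l 92) (.b (.a .z (.b (.l 23) .z)) .z)) (.a (.l 92) (.b .z (.a .z (.b .z (.l 27)))))) (.b (.a (.b (.a (.l 23) .z)
(.a .z (.b .z (.l 27)))) (.b (.a (.b .z (.l 27)) (.l 27)) (.l 27))) (.a (.b (.a (.b .z (.l 27)) (.l 27)) (.l 27)) (.l 27))))) (.b (.a (.b (.a (.b (.a
(.l 23) (.b (.l 23) .z)) (.a .z (.b .z (.l 27)))) (.b (.a .z (.l 27)) (.l 27))) (.a (.b (.a (.b .z (.l 27)) (.l 27)) (.l 27)) (.l 27))) (.l 27)) (.l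
27))) (.a (.b (.a (.b (.a (.b .z (.a .z (.l 27))) (.b (.a (.b .z (.l 27)) (.l 27)) (.l 27))) (.l 27)) (.l 27)) (.b (.a (.b (.l 27) (.a (.l 27) (.b (.l
27) (.a (.l 27) .z)))) (.b (.a (.l 27) (.b (.l 27) .z)) (.a (.b .z (.a .z (.l 29))) (.b (.a .z (.l 29)) (.l 29))))) (.a (.b (.a (.b (.a (.l 27) .z)
.z) (.b .z (.l 29))) (.l 29)) (.l 29)))) (.b (.b (.l 27) (.a (.b (.l 27) (.a (.l 27) (.b (.a (.l 27) .z) .z))) (.b (.a (.b (.l 27) (.a (.l 27) .z))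
(.b (.a (.l 27) .z) .z)) (.a (.b .z (.l 29)) (.l 29))))) (.b (.a (.b (.a (.b .z (.a .z (.l 29))) (.b (.a .z (.l 29)) (.l 29))) (.l 29)) (.l 29)) (.l
29)))))) (.b (.a (.b (.a (.b (.b (.b (.l 99) .z) (.a (.a .z (.b (.b .z (.l 31)) (.a .z (.l 31)))) (.l 31))) (.a (.b (.a (.l 23) (.b .z (.l 23))) (.l
23)) (.b (.a (.b (.a .z (.l 31)) .z) (.b (.l 31) (.a .z (.l 31)))) (.a (.l 23) .z)))) (.b (.b (.b (.a .z (.b .z (.a .z (.l 31)))) (.a (.b (.a .z (.l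
31)) (.l 31)) (.l 31))) (.l 31)) (.a (.b (.l 31) (.a (.b (.a .z (.l 31)) .z) (.b (.l 31) (.a .z (.l 31))))) (.l 31)))) (.a (.b (.b (.a (.b (.l 23) (.a
(.b (.l 23) .z) .z)) .z) (.a (.b .z (.b .z (.l 27))) (.b .z (.b .z (.l 27))))) (.l 27)) (.b (.a (.b .z (.b (.l 131) (.b .z (.l 27)))) (.b (.a (.b (.a
.z (.l 31)) .z) (.l 31)) (.a (.b .z (.b .z (.l 27))) (.b .z (.a (.l 27) .z))))) (.l 27)))) (.b (.l 31) (.a (.b (.a (.b (.l 31) (.a (.b (.l 31) .z) (.l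
31))) (.l 31)) (.a (.b (.a (.b (.a (.l 27) .z) (.l 27)) (.b .z (.a (.l 27) .z))) (.l 27)) (.b (.a (.b (.l 31) (.a .z (.l 31))) (.l 31)) (.a (.b .z (.l
27)) (.b (.a .z (.l 31)) .z))))) (.b (.l 31) (.a (.b (.l 31) (.a (.b (.l 31) (.a .z (.l 31))) (.l 31))) (.l 31)))))) (.a (.b (.b (.l 27) (.b (.l 27)
(.a (.l 27) (.b (.l 27) (.a (.l 27) (.b (.l 27) (.a (.l 27) .z))))))) (.b (.b (.a (.b (.l 27) (.a (.b (.l 27) (.a (.l 27) .z)) (.b .z (.a .z (.l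
29))))) (.b (.a (.b (.l 27) .z) (.b .z (.a .z (.l 29)))) (.a (.b (.a .z (.l 29)) (.l 29)) (.l 29)))) (.a (.b (.a (.b .z (.l 29)) (.l 29)) (.l 29)) (.l
29))) (.l 29))) (.b (.a (.b (.l 27) (.b (.l 27) (.b (.a (.l 27) (.b (.l 27) (.a (.l 27) .z))) (.a (.b (.a (.l 27) .z) .z) (.b .z (.l 29)))))) (.b (.a
(.b (.a (.b .z (.a (.l 27) .z)) (.b (.l 31) .z)) (.a (.l 27) (.b (.a (.l 27) .z) (.l 27)))) (.b (.b (.a (.l 31) .z) (.a .z (.b .z (.l 32)))) (.a (.b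
.z (.a (.l 27) .z)) (.b (.l 32) (.a .z (.l 32)))))) (.a (.b (.l 27) (.b (.b .z (.a .z (.l 29))) (.l 29))) (.b (.a (.b (.l 27) (.b (.l 27) .z)) .z) (.b
(.b (.a .z (.l 29)) (.l 29)) (.l 29)))))) (.b (.l 29) (.b (.l 29) (.a (.l 29) (.b (.l 29) (.a (.l 29) (.b (.l 29) (.a (.l 29) .z))))))))))))

theorem vQ209 : ev Q209 I5_19 I5_29 = 821587286379578 := by decide +kernel

noncomputable def Q127 : QT :=
(.b (.b (.b (.b (.a (.l 16) (.b (.a (.l 16) (.b (.a (.b (.a (.l 16) (.b .z (.a (.l 16) .z))) (.l 16)) (.b (.a .z (.l 49)) (.a (.b .z (.a (.l 16) .z))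
.z))) (.a (.l 16) (.b (.a (.l 16) (.b .z (.a (.l 16) .z))) (.l 16))))) (.l 16))) (.a (.l 16) (.b (.l 16) (.a (.l 16) (.b (.a (.l 16) (.b (.a (.l 16)
(.b (.l 16) (.a (.l 16) .z))) (.a (.b (.l 16) .z) .z))) (.a (.b (.a (.l 16) (.b (.a (.l 16) .z) .z)) (.a (.b (.a (.l 16) .z) .z) (.b .z (.l 17)))) (.b
(.a (.b .z (.l 17)) (.l 17)) (.l 17)))))))) (.b (.a (.b (.a (.l 16) (.b (.l 16) (.a (.l 16) (.b (.l 16) (.a (.l 16) (.b (.a (.l 16) .z) .z)))))) (.a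
(.b (.l 16) (.a (.l 16) (.b (.a (.l 16) (.b (.l 16) (.a (.l 16) .z))) (.a (.b (.l 16) (.a (.l 16) .z)) .z)))) (.b (.a (.b (.l 16) (.a (.b (.l 16) (.a
(.l 16) .z)) (.b (.a (.l 16) .z) .z))) (.b (.a (.b (.a (.l 16) .z) .z) (.b .z (.l 19))) (.a (.b .z (.l 19)) (.l 19)))) (.a (.b (.a .z (.l 19)) (.l
19)) (.l 19))))) (.b (.a (.b (.a (.b (.l 16) (.a (.l 16) (.b (.l 16) (.a (.l 16) .z)))) (.b (.a (.b (.l 16) (.a (.l 16) .z)) .z) (.a .z (.l 17)))) (.a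
(.b (.a (.b (.l 16) (.a (.l 16) .z)) .z) (.a .z (.b (.l 17) .z))) (.l 17))) (.b (.a (.b (.a (.b .z (.l 17)) (.l 17)) (.l 17)) (.l 17)) (.l 17))) (.b
(.a (.b (.a (.b (.a (.l 19) .z) (.l 19)) (.b .z (.a (.l 19) .z))) (.l 19)) (.b (.a (.b (.l 17) (.a .z (.l 17))) (.l 17)) (.a (.b .z (.a (.l 19) .z))
(.b (.l 17) .z)))) (.a (.l 19) (.b (.a (.l 19) (.b (.a (.l 19) .z) (.l 19))) (.l 19)))))) (.a (.b (.a (.b (.a (.b (.a (.l 16) (.b (.a (.l 16) .z) .z))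
(.a (.b (.a (.l 16) .z) .z) (.b .z (.l 19)))) (.b (.a (.b .z (.l 19)) (.l 19)) (.l 19))) (.a (.b (.a (.b .z (.l 19)) (.l 19)) (.l 19)) (.l 19))) (.l
19)) (.l 19)) (.l 19)))) (.b (.b (.b (.l 19) (.b (.l 19) (.a (.l 19) (.b (.a (.l 19) (.b (.l 19) (.a (.l 19) .z))) (.a (.b (.a (.l 19) (.a (.l 19)
.z)) (.a (.a (.l 19) .z) .z)) (.b .z (.l 67))))))) (.b (.b (.a (.b (.a (.b (.l 19) (.a (.l 19) (.a (.l 19) .z))) (.b (.a (.l 19) .z) (.a .z (.a .z (.l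
22))))) (.a (.b .z (.a (.a .z (.l 22)) (.l 22))) (.l 22))) (.b (.a (.b .z (.a (.l 22) (.a (.l 22) .z))) (.l 67)) (.a (.a (.l 22) (.a (.l 22) (.b .z
(.l 22)))) (.a .z (.l 67))))) (.a (.l 22) (.a (.l 22) (.a (.b (.a (.l 22) .z) (.l 22)) .z)))) (.a (.l 22) (.a (.l 22) (.b (.a (.l 22) (.b (.a (.l 22)
(.b .z (.l 22))) (.l 22))) (.l 22)))))) (.b (.a (.l 22) (.b (.l 22) (.a (.b (.l 22) (.a (.l 22) (.b (.l 22) (.a (.l 22) (.b (.l 22) .z))))) (.b (.a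
(.l 22) (.b (.a (.l 22) (.b (.l 22) .z)) (.a (.b (.l 22) .z) .z))) (.a (.b (.a (.b (.l 22) .z) .z) (.a .z (.b (.l 23) .z))) (.b (.a (.b .z (.l 23))
(.l 23)) (.l 23))))))) (.a (.b (.a (.l 22) (.b (.l 22) (.a (.b (.l 22) (.a (.l 22) (.b (.l 22) .z))) (.b (.a (.l 22) .z) (.a .z (.b .z (.l 25)))))))
(.a (.b (.a (.l 22) (.b (.l 22) (.a (.l 22) .z))) (.a (.b (.a (.l 22) (.b (.l 22) .z)) (.a .z (.b .z (.l 25)))) (.b (.a .z (.b .z (.l 25))) (.l 25))))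
(.b (.a (.b (.a (.b (.l 22) .z) .z) (.a (.b .z (.l 25)) (.l 25))) (.l 25)) (.l 25)))) (.b (.a (.b (.a (.b (.l 22) (.a (.b (.l 22) .z) .z)) (.b (.a .z
(.b .z (.l 25))) (.a (.b .z (.l 25)) (.l 25)))) (.a (.b (.a (.b .z (.l 25)) (.l 25)) (.l 25)) (.l 25))) (.b (.b (.a (.b (.a (.l 25) .z) (.l 25)) (.b
(.a .z (.l 23)) .z)) (.l 25)) (.l 25))) (.l 25)))))) (.b (.b (.b (.a (.b (.a (.b (.a (.b (.a (.b .z (.l 25)) (.l 25)) (.l 25)) (.l 25)) (.l 25)) (.l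
25)) (.b (.b (.l 25) (.a (.b (.l 25) (.a (.l 25) (.a (.l 25) .z))) (.b (.a (.l 25) .z) (.a .z (.a .z (.l 28)))))) (.b (.a (.b .z (.a (.a .z (.l 28))
(.l 28))) (.l 28)) (.l 28)))) (.b (.l 25) (.b (.b (.a (.b (.l 25) (.a (.l 25) .z)) (.b (.a (.a (.l 25) .z) .z) .z)) (.a (.b (.a .z (.a .z (.l 28)))
(.l 28)) (.a (.a (.l 28) (.b .z (.l 28))) .z))) (.a (.l 28) (.a (.l 28) (.b (.a (.l 28) .z) (.l 28))))))) (.a (.l 28) (.b (.l 28) (.a (.l 28) (.b (.a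
(.l 28) (.b (.l 28) (.a (.l 28) (.b (.l 28) .z)))) (.a (.b (.l 28) (.a (.b (.l 28) .z) .z)) (.b (.a (.b (.l 28) .z) .z) (.a (.b .z (.l 31)) .z))))))))
(.b (.a (.b (.a (.l 28) (.b (.l 28) (.a (.l 28) (.b (.a (.l 28) (.b (.l 28) .z)) (.a (.b (.l 28) .z) .z))))) (.a (.b (.a (.l 28) (.b (.l 28) (.a (.l
28) .z))) (.a (.b (.a (.l 28) (.b (.l 28) .z)) (.a .z (.b .z (.l 31)))) (.b (.a .z (.b .z (.l 31))) (.l 31)))) (.b (.a (.b (.a (.b (.l 28) .z) .z) (.a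
(.b .z (.l 31)) (.l 31))) (.b (.a (.b .z (.l 31)) (.l 31)) (.l 31))) (.l 31)))) (.b (.a (.b (.a (.b (.l 28) (.a (.l 28) (.b (.l 28) .z))) (.b (.a (.l
28) .z) (.a .z (.b .z (.l 31))))) (.a (.b (.a .z (.b .z (.l 31))) (.l 31)) (.l 31))) (.b (.a (.b (.a (.b .z (.l 31)) (.l 31)) (.l 31)) (.l 31)) (.l
31))) (.l 31))) (.b (.b (.a (.b (.l 31) (.a (.b (.l 31) (.a (.a (.l 31) .z) .z)) (.b (.a (.a (.l 31) .z) .z) (.a .z (.l 34))))) (.b (.a (.b (.l 31)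
(.a (.a (.l 31) .z) .z)) .z) (.a (.b (.a .z (.l 34)) (.l 34)) (.l 34)))) (.a (.b (.a (.b (.a .z (.l 34)) (.l 34)) (.l 34)) (.l 34)) (.l 34))) (.a (.l
34) (.a (.l 34) (.b (.l 34) (.a (.l 34) (.b (.l 34) (.a (.l 34) .z))))))))) (.a (.b (.a (.b (.b (.l 34) (.b (.l 34) (.a (.b (.l 34) (.a (.l 34) .z))
(.b .z (.a .z (.l 37)))))) (.a (.b (.a (.b (.b .z (.l 40)) .z) (.b (.b .z (.l 40)) (.l 40))) (.a (.b (.a (.l 27) .z) (.l 27)) (.b (.a .z (.l 40))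
.z))) (.b (.b (.b .z (.l 40)) (.l 40)) (.l 40)))) (.b (.b (.l 34) (.b (.a (.b (.l 34) .z) (.b .z (.a .z (.l 37)))) (.a (.b (.a .z (.l 37)) (.l 37))
(.b (.l 37) (.b (.l 37) .z))))) (.b (.b (.b (.b .z (.l 40)) (.l 40)) (.l 40)) (.l 40)))) (.a (.b (.a (.b (.a (.b (.l 27) (.b (.l 27) (.b .z (.l 29))))
(.b (.a (.l 27) (.b .z (.l 27))) (.b (.l 27) .z))) (.l 29)) (.b (.a (.b (.a .z (.l 40)) .z) (.b (.l 40) (.b (.l 40) .z))) (.a (.b (.a (.l 29) (.b .z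
(.l 29))) (.l 29)) (.b (.a .z (.l 46)) (.a (.b .z (.l 29)) .z))))) (.a (.b (.l 29) (.b (.b (.b (.l 29) (.a (.l 29) .z)) (.b .z (.l 32))) (.b (.b (.a
(.l 32) .z) .z) (.b .z (.l 33))))) (.b (.a (.l 29) (.b (.a (.l 29) (.b .z (.l 29))) (.l 29))) (.b (.b (.b (.l 29) .z) (.b (.a (.l 32) .z) .z)) (.b (.b
.z (.l 33)) (.l 33)))))) (.b (.b (.b (.a (.l 40) (.b (.l 40) .z)) (.a .z (.b (.a .z (.l 43)) (.b .z (.l 46))))) (.l 46)) (.a (.b (.a (.b .z (.a (.l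
29) .z)) (.b (.l 46) (.a .z (.l 46)))) (.a (.b (.b (.b (.l 29) .z) .z) (.l 33)) (.b .z (.a (.l 33) .z)))) (.b (.b (.l 46) (.b (.l 46) .z)) (.a (.b (.b
.z (.l 52)) (.a .z (.l 52))) (.b (.b .z (.l 52)) (.l 52)))))))) (.b (.b (.b (.a (.b (.a (.l 34) (.b (.l 34) (.a (.l 34) .z))) (.a (.b (.l 34) .z) (.b
.z (.a .z (.l 37))))) (.b (.a (.b (.a (.l 34) .z) .z) (.b .z (.l 37))) (.l 37))) (.a (.b (.a (.b (.a .z (.l 37)) (.l 37)) (.l 37)) (.b (.l 37) (.b (.a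
(.l 37) .z) .z))) (.b (.l 37) (.b (.b (.l 37) .z) (.b (.a .z (.l 40)) (.l 40)))))) (.b (.l 40) (.a (.b (.l 40) (.a (.l 40) (.b (.a (.l 40) .z) .z)))
(.b (.a (.b (.l 40) (.a (.l 40) .z)) (.b (.a (.l 40) .z) .z)) (.a (.b .z (.l 43)) (.l 43)))))) (.b (.b (.a (.b (.a (.b .z (.a .z (.l 43))) (.b (.a .z
(.l 43)) (.l 43))) (.b (.b (.l 43) .z) (.b (.a .z (.l 46)) (.l 46)))) (.b (.l 43) (.b (.b .z (.a .z (.l 46))) (.l 46)))) (.b (.l 46) (.a (.l 46) (.b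
(.l 46) (.a (.l 46) .z))))) (.b (.b (.a (.b (.l 46) (.a (.l 46) .z)) (.b (.a .z (.b .z (.l 49))) (.a (.b .z (.l 49)) (.l 49)))) (.a (.b (.a .z (.b .z
(.l 49))) (.a (.b .z (.l 49)) (.b (.l 49) .z))) (.b (.l 49) (.b (.a (.l 49) .z) .z)))) (.b (.b (.b (.a .z (.l 52)) (.l 52)) (.l 52)) (.a (.l 52) (.b
(.l 52) (.a (.l 52) (.b (.l 52) .z)))))))))))

theorem vQ127 : ev Q127 I6_20 I4_14 = 864145006288482 := by decide +kernel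

noncomputable def Q188 : QT :=
(.b (.a (.b (.l 7) (.a (.l 7) (.b (.a (.l 7) (.b (.l 7) (.a (.l 7) (.b (.l 7) (.a (.l 7) (.b (.l 7) (.a (.l 7) (.b (.l 7) (.a (.l 7) (.b (.l 7)
.z)))))))))) (.a (.b (.l 7) (.a (.l 7) (.b (.a (.l 7) (.b (.l 7) (.a (.l 7) (.b (.l 7) (.a (.l 7) (.b (.l 7) .z)))))) (.a (.b (.l 7) (.a (.l 7) (.b
(.a (.l 7) (.b (.l 7) .z)) (.a (.b (.l 7) .z) .z)))) (.b (.a (.b (.l 7) (.a (.l 7) .z)) (.b (.a (.b (.l 7) .z) .z) .z)) .z))))) (.b (.a (.b (.l 7) (.a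
(.l 7) (.b (.a (.l 7) (.b (.l 7) (.a (.l 7) (.b (.l 7) .z)))) (.a (.b (.l 7) (.a (.l 7) .z)) (.b (.a (.b (.l 7) .z) .z) .z))))) (.b (.a (.b (.l 7) (.a
(.l 7) (.b (.a (.l 7) (.b (.l 7) .z)) (.a (.b (.l 7) .z) .z)))) (.b (.a (.b (.l 7) (.a (.l 7) .z)) (.b (.a (.b (.l 7) .z) .z) .z)) .z)) (.a (.b (.a
(.b (.a (.l 7) .z) .z) .z) .z) (.l 223)))) (.a (.b (.a (.b (.a (.l 7) (.b (.a (.l 7) (.b (.l 7) .z)) (.a (.b (.l 7) .z) .z))) (.a (.b (.a (.l 7) .z)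
.z) .z)) .z) (.a (.l 127) .z)) (.b (.b (.l 223) .z) .z))))))) (.b (.a (.b (.l 7) (.a (.l 7) (.b (.l 7) (.a (.b (.l 7) (.a (.l 7) (.b (.l 7) (.a (.b
(.l 7) (.a (.l 7) (.b (.l 7) .z))) (.b (.a (.l 7) .z) .z))))) (.b (.a (.b (.l 7) (.a (.l 7) (.b (.l 7) (.a (.l 7) .z)))) (.b (.a (.l 7) (.b (.a (.l 7)
(.b (.l 7) .z)) .z)) (.a (.b (.a (.b (.l 7) .z) .z) (.a .z (.l 14))) (.b (.a .z (.l 14)) (.l 14))))) (.a (.b (.a (.b (.a (.l 7) (.b (.l 7) .z)) (.a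
(.b (.l 7) .z) .z)) (.b .z (.l 14))) (.a (.b (.a .z (.l 14)) (.l 14)) (.l 14))) (.l 14))))))) (.b (.a (.b (.l 7) (.a (.l 7) (.b (.l 7) (.a (.l 7) (.b
(.a (.l 7) (.b (.l 7) (.a (.l 7) .z))) (.a (.b (.a (.l 7) (.b (.l 7) .z)) .z) (.b .z (.l 14)))))))) (.b (.a (.b (.l 7) (.a (.l 7) (.b (.l 7) (.a (.l
7) (.b (.l 7) (.a (.l 7) (.b (.l 7) .z))))))) (.b (.a (.l 7) (.b (.l 7) (.a (.b (.l 7) (.a (.l 7) (.b (.l 7) .z))) (.b (.a (.l 7) .z) .z)))) (.a (.b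
(.a (.l 7) (.b (.l 7) (.a (.b (.l 7) .z) .z))) (.a (.b (.a (.l 7) (.b (.l 7) .z)) .z) (.b (.a .z (.l 14)) (.l 14)))) (.b (.a (.b .z (.a .z (.l 14)))
(.l 14)) (.l 14))))) (.a (.b (.a (.b (.l 7) (.a (.l 7) (.b (.a (.l 7) (.b (.l 7) .z)) .z))) (.b (.a (.b (.l 7) (.a (.b (.l 7) .z) .z)) (.b (.a (.b (.l
7) .z) .z) (.a .z (.l 14)))) (.a (.b (.a .z (.l 14)) (.l 14)) (.l 14)))) (.a (.b (.a (.b (.a (.b (.l 7) .z) .z) (.a .z (.l 14))) (.b (.a .z (.l 14))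
(.l 14))) (.l 14)) (.l 14))) (.l 14)))) (.a (.b (.a (.b (.a (.l 7) (.b (.l 7) (.a (.l 7) (.b (.a (.l 7) (.b (.l 7) .z)) (.a (.b (.l 7) .z) .z))))) (.a
(.b (.a (.l 7) (.b (.l 7) (.a (.l 7) (.b (.l 7) .z)))) (.a (.b (.l 7) (.a (.b (.l 7) .z) .z)) (.b .z (.a .z (.l 14))))) (.b (.a (.b (.a (.l 7) .z) .z)
(.b (.a .z (.l 14)) (.l 14))) (.l 14)))) (.b (.a (.b (.a (.b (.l 7) (.a (.l 7) (.b (.l 7) .z))) (.b (.a (.b (.l 7) .z) .z) (.a .z (.l 14)))) (.a (.b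
.z (.l 14)) (.l 14))) (.b (.a (.b (.a .z (.l 14)) (.l 14)) (.l 14)) (.l 14))) (.l 14))) (.a (.b (.a (.b (.a (.b (.a .z (.l 14)) (.l 14)) (.l 14)) (.l
14)) (.l 14)) (.l 14)) (.l 14))) (.l 14)))) (.a (.b (.a (.b (.a (.l 7) (.b (.l 7) (.a (.b (.l 7) (.a (.l 7) (.b (.a (.l 7) (.b (.l 7) .z)) (.a (.b (.l
7) .z) .z)))) (.b (.a (.b (.l 7) (.a (.l 7) (.b (.l 7) .z))) (.b (.a (.b (.l 7) .z) .z) (.a .z (.l 14)))) (.a (.b .z (.l 14)) (.l 14)))))) (.a (.b (.a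
(.l 7) (.b (.a (.l 7) (.b (.l 7) (.a (.l 7) (.b (.l 7) .z)))) (.a (.b (.l 7) (.a (.l 7) .z)) (.b (.a (.b (.l 7) .z) .z) .z)))) (.a (.b (.a (.l 7) (.b
(.a (.l 7) (.b (.l 7) .z)) (.a (.b (.l 7) .z) .z))) (.a (.b (.a (.l 7) .z) .z) .z)) .z)) (.b (.a (.b (.a (.b (.a (.l 7) .z) .z) (.b (.a .z (.l 14))
.z)) .z) (.b (.b (.l 14) (.b (.a .z (.l 14)) .z)) .z)) .z))) (.b (.a (.b (.a (.b (.a (.l 7) (.b (.l 7) (.a (.b (.l 7) .z) .z))) (.a (.b (.a (.l 7) (.b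
(.l 7) .z)) .z) (.b (.a .z (.l 14)) (.l 14)))) (.b (.a (.b .z (.a .z (.l 14))) (.l 14)) (.l 14))) (.a (.b (.a (.b (.a .z (.l 14)) (.l 14)) (.l 14))
(.l 14)) (.l 14))) (.l 14)) (.b (.a (.b (.l 14) (.a (.b (.a .z (.b (.l 14) .z)) .z) (.b (.l 14) (.a .z (.b (.l 14) .z))))) (.l 14)) (.a (.b .z (.a .z
(.l 81))) (.b (.a (.b (.a (.b (.l 14) .z) (.l 14)) .z) (.b (.l 14) (.a (.b (.l 14) .z) (.l 14)))) (.a (.l 81) .z)))))) (.a (.a (.b (.l 223) (.b (.l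
223) .z)) (.a (.b (.a .z (.l 251)) (.b .z (.b .z (.l 99)))) (.b .z (.a (.b .z (.l 99)) (.b .z (.l 99)))))) (.b (.a (.b (.a (.b .z (.l 91)) .z) (.a (.l
91) (.b .z (.l 91)))) (.b (.l 81) (.a .z (.b (.l 81) .z)))) (.a (.a (.a .z (.b (.l 91) .z)) (.l 91)) (.b (.a (.l 91) .z) (.l 91)))))) (.b (.b (.l 14)
(.a (.b (.l 14) (.a (.b (.l 14) (.a (.b (.a (.b (.l 14) .z) (.l 14)) .z) (.b (.l 14) (.a (.b (.l 14) .z) (.l 14))))) (.l 14))) (.l 14))) (.b (.a (.b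
(.a (.b (.a (.l 81) .z) (.l 81)) (.b (.a (.b (.a (.b (.l 14) .z) (.l 14)) .z) (.b (.l 14) (.a (.b (.l 14) .z) (.l 14)))) (.a (.l 81) (.b (.a .z (.b
(.l 14) .z)) .z)))) (.a (.b (.a (.l 81) .z) .z) .z)) (.b (.a (.b (.l 14) (.a (.b (.l 14) (.a .z (.b (.l 14) .z))) (.l 14))) (.l 14)) (.a (.b (.a .z
(.b (.a .z (.b (.l 14) .z)) .z)) .z) (.b (.a (.b (.l 14) (.a .z (.l 14))) (.l 14)) (.a .z (.b (.a (.b (.l 14) .z) (.l 14)) .z)))))) (.a .z (.a (.b .z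
(.b (.l 145) .z)) .z))))))) (.a (.b (.a (.b (.a (.l 7) (.b (.l 7) (.a (.b (.l 7) (.a (.l 7) (.b (.l 7) (.a (.l 7) (.b (.a (.l 7) .z) .z))))) (.b (.a
(.b (.l 7) (.a (.l 7) (.b (.l 7) (.a (.l 7) .z)))) (.b (.a (.b (.l 7) (.a (.l 7) (.b (.l 7) .z))) (.b (.a (.b (.l 7) .z) .z) .z)) (.a (.b (.a (.b (.l
7) .z) .z) .z) .z))) (.a (.b (.a (.b (.a (.l 7) (.b (.l 7) .z)) (.a (.b (.l 7) .z) .z)) .z) .z) (.b (.l 127) .z)))))) (.a (.b (.a (.l 7) (.b (.l 7)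
(.a (.l 7) (.b (.a (.l 7) (.b (.a (.l 7) (.b (.l 7) .z)) (.a (.b (.l 7) .z) .z))) (.a (.b (.a (.l 7) .z) (.a .z (.b .z (.l 8)))) (.b (.a (.b .z (.l
8)) (.l 8)) (.l 8))))))) (.a (.b (.a (.l 7) (.b (.l 7) (.a (.l 7) (.b (.l 7) (.a (.l 7) .z))))) (.a (.b (.l 7) (.a (.l 7) (.b (.a (.l 7) (.b (.l 7)
.z)) (.a .z (.b .z (.l 8)))))) (.b (.a (.b (.a (.l 7) (.b (.l 7) .z)) (.a (.b (.l 7) .z) .z)) (.b (.a .z (.b .z (.l 8))) (.l 8))) (.a (.b (.a .z (.l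
8)) (.l 8)) (.l 8))))) (.b (.a (.b (.a (.b (.l 7) (.a (.l 7) (.b (.l 7) .z))) (.b (.a (.b (.l 7) .z) .z) (.a .z (.l 8)))) (.a (.b (.a .z (.b .z (.l
8))) (.a (.b .z (.l 8)) (.l 8))) (.l 8))) (.b (.a (.b (.a (.b .z (.l 8)) (.l 8)) (.l 8)) (.l 8)) (.l 8))) (.l 8)))) (.b (.a (.b (.a (.b (.a (.l 7) (.b
(.l 7) (.a (.l 7) (.b (.l 7) .z)))) (.a (.b (.l 7) (.a (.l 7) .z)) (.b (.a .z (.b .z (.l 8))) (.a (.b .z (.l 8)) (.l 8))))) (.b (.a (.b (.a (.b (.l 7)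
.z) .z) (.a .z (.l 8))) (.b (.a (.b .z (.l 8)) (.b .z (.l 8))) (.l 8))) (.l 8))) (.a (.b (.a (.b (.a .z (.b .z (.l 8))) (.l 8)) (.l 8)) (.l 8)) (.l
8))) (.b (.b (.b (.b (.a .z (.l 8)) (.l 8)) (.l 8)) (.l 8)) (.l 8))) (.l 8)))) (.b (.a (.b (.a (.b (.a (.l 7) (.b (.a (.l 7) (.b (.l 7) (.a (.l 7) (.b
(.l 7) .z)))) (.a (.b (.l 7) (.a (.l 7) (.b (.l 7) .z))) (.b (.a (.b (.l 7) .z) .z) .z)))) (.a (.b (.a (.l 7) (.b (.l 7) (.a (.b (.l 7) .z) .z))) (.a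
(.b (.a (.l 7) (.b (.l 7) .z)) .z) .z)) (.b .z (.l 127)))) (.b (.a (.b (.a (.b (.a (.l 7) .z) .z) .z) (.l 127)) (.l 127)) (.l 127))) (.a (.b (.a (.b
.z (.l 127)) (.l 127)) (.b (.l 127) (.b (.l 127) (.b .z (.a .z (.a (.a .z (.l 8)) (.l 8))))))) (.b (.l 127) (.b (.l 127) (.b .z (.b (.a .z (.a (.a .z
(.l 8)) (.l 8))) (.l 8))))))) (.b (.a (.l 127) (.b (.a (.b .z (.l 127)) .z) (.a (.l 127) (.b .z (.l 127))))) (.b (.l 127) (.b (.b (.l 127) (.b (.l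
127) .z)) (.b (.b (.a .z (.a .z (.a .z (.l 8)))) (.a (.a .z (.a (.a .z (.l 8)) (.l 8))) (.l 8))) (.l 8)))))) (.l 8))) (.a (.b (.a (.b (.a (.b (.a (.b
(.a (.b (.a (.l 7) .z) (.a .z (.b .z (.l 8)))) (.b (.a (.b .z (.l 8)) (.l 8)) (.l 8))) (.l 8)) (.l 8)) (.l 8)) (.l 8)) (.l 8)) (.l 8)) (.l 8)) (.l
8))) (.b (.b (.b (.a (.a (.a (.b (.l 99) (.a .z (.l 99))) (.l 99)) (.a (.a (.a (.l 99) (.b .z (.l 99))) (.a .z (.b (.l 91) .z))) (.l 91))) (.a (.a (.b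
(.a (.l 91) (.b .z (.l 91))) (.l 91)) (.b (.a .z (.l 145)) (.a (.b .z (.l 91)) .z))) .z)) (.b (.a (.b (.a (.a .z (.l 99)) (.a (.a (.l 99) .z) (.l
91))) (.a (.a (.a (.l 127) .z) (.a .z (.l 99))) (.b (.a .z (.l 91)) .z))) (.b (.a (.a (.l 91) (.a (.l 91) .z)) .z) (.a (.b (.a (.l 91) .z) (.a (.b .z
(.a .z (.l 8))) (.b (.a (.a .z (.a .z (.l 8))) (.l 8)) (.l 8)))) (.b (.a (.b .z (.a (.a .z (.a .z (.l 8))) (.l 8))) (.b (.a (.a .z (.l 8)) (.l 8)) (.l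
8))) (.l 8))))) (.a (.b (.a (.b (.a (.l 127) .z) (.a (.b .z (.a .z (.a .z (.l 8)))) (.b (.a .z (.a (.a .z (.l 8)) (.l 8))) (.l 8)))) (.b (.a (.b .z
(.a .z (.a (.a .z (.l 8)) (.l 8)))) (.b (.a .z (.a (.a .z (.l 8)) (.l 8))) (.l 8))) (.l 8))) (.l 8)) (.l 8)))) (.l 8)) (.l 8))))

theorem vQ188 : ev Q188 I5_18 I4_12 = 1775793436623767 := by decide +kernel

noncomputable def Q99 : QT :=
(.a (.b (.b (.b (.a (.b (.a (.b (.l 40) (.a (.b (.l 40) .z) .z)) (.b (.a .z (.b .z (.l 38))) (.a .z (.l 38)))) (.a (.b (.a .z (.l 43)) (.b .z (.l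
43))) (.b (.b .z (.a (.l 43) .z)) (.b .z (.l 43))))) (.b (.l 38) (.b (.b (.l 38) .z) (.l 43)))) (.l 43)) (.b (.b (.b (.b (.l 43) (.a (.l 43) .z)) (.b
(.a .z (.a (.a .z (.l 46)) (.l 46))) (.a (.l 48) (.a .z (.l 46))))) (.a (.a (.l 48) (.b (.l 48) (.a (.l 48) (.b (.l 48) .z)))) (.a (.b (.a (.b (.l 48)
.z) .z) (.a .z (.l 51))) (.b (.a .z (.b (.l 46) .z)) (.a (.l 51) (.b .z (.l 51))))))) (.a (.b (.b (.a (.l 48) (.a (.b (.l 48) .z) .z)) (.a (.b (.a (.l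
48) .z) .z) (.a (.b .z (.l 51)) (.l 51)))) (.a (.b (.a (.b .z (.l 45)) .z) (.a (.l 45) (.b (.l 45) .z))) (.b (.a (.b (.l 51) .z) (.l 51)) .z))) (.b
(.l 51) (.a (.b (.l 51) (.a (.b (.l 51) .z) (.l 51))) (.l 51)))))) (.b (.b (.a (.b (.a (.b .z (.a (.b .z (.l 53)) (.l 53))) (.b (.a (.b (.l 48) .z)
(.l 48)) (.a (.b .z (.l 53)) .z))) (.b (.b .z (.a (.a .z (.l 53)) (.l 53))) (.l 53))) (.b (.a (.b (.a (.b .z (.l 48)) .z) (.a (.b (.l 48) .z) (.b .z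
(.l 48)))) (.b (.l 51) (.a .z (.b (.l 51) .z)))) (.a (.b (.b .z (.l 53)) (.l 53)) (.b (.a (.b .z (.l 53)) (.b .z (.l 53))) (.l 53))))) (.b (.b (.l 53)
(.b (.a (.l 53) (.a (.l 53) (.a (.l 53) .z))) (.a (.a (.a (.l 53) .z) .z) .z))) (.b (.b (.a (.a .z (.l 58)) (.a (.a (.l 58) .z) (.a .z (.l 56)))) (.a
(.l 58) (.a (.a (.l 58) .z) (.a .z (.l 56))))) (.a (.a (.l 58) (.a (.l 58) (.b (.l 58) .z))) (.a (.a .z (.b .z (.l 61))) (.a (.b .z (.l 61)) .z))))))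
(.b (.a (.b (.a (.b (.l 58) (.a (.b (.l 58) .z) .z)) (.b (.a (.b (.l 58) .z) .z) (.a (.b .z (.l 61)) (.l 61)))) (.a (.b (.a .z (.l 61)) (.l 61)) (.b
(.a (.l 61) (.b (.l 61) .z)) .z))) (.b (.a (.b (.l 61) (.a (.l 61) (.b (.l 61) .z))) (.b (.a (.b (.l 61) .z) .z) (.a .z (.l 59)))) (.a (.b (.a .z (.b
.z (.l 59))) (.b (.l 59) .z)) (.b (.l 59) (.b (.a (.l 59) .z) .z))))) (.a (.b (.a (.b (.a (.b (.l 61) .z) .z) (.a (.b .z (.l 63)) (.b .z (.l 63))))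
(.b (.a (.b .z (.l 63)) .z) (.b .z (.l 63)))) (.b (.l 63) (.b (.a (.l 63) .z) .z))) (.b (.b (.a (.b (.a (.l 64) .z) .z) (.b (.a .z (.l 62)) .z)) (.a
(.b .z (.a (.l 63) .z)) .z)) (.b (.a (.l 63) (.b .z (.l 63))) .z)))))) (.b (.b (.b (.a (.b (.a (.b (.a (.l 38) (.b .z (.l 38))) (.a (.b (.l 38) .z)
.z)) (.b .z (.a (.b .z (.l 41)) .z))) (.b (.b .z (.a (.a .z (.l 43)) (.l 43))) (.l 43))) (.b (.a (.b (.l 44) (.a (.b (.l 44) .z) (.l 44))) (.l 44))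
(.a (.b (.a (.b .z (.l 43)) .z) (.a (.l 43) (.b .z (.l 43)))) (.b (.l 44) (.a .z (.b (.l 44) .z)))))) (.a (.l 43) (.b (.a (.l 43) (.b (.a (.l 43) .z)
(.l 43))) (.b (.l 43) (.b (.l 43) (.a (.a (.l 43) .z) .z)))))) (.b (.b (.b (.b (.a .z (.a .z (.l 46))) (.a (.a (.a .z (.l 46)) (.l 46)) (.l 46))) (.l
46)) (.a (.a (.b (.l 46) (.a .z (.b (.l 46) .z))) (.l 46)) (.l 46))) (.a (.b (.a (.b (.a (.l 51) .z) (.l 51)) (.b (.a (.b (.l 46) .z) (.l 46)) (.a (.b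
.z (.l 51)) .z))) (.l 51)) (.b (.a (.b (.l 46) (.a (.b (.l 46) .z) (.l 46))) (.l 46)) (.a (.b (.a .z (.b (.l 46) .z)) (.a (.l 51) (.b .z (.l 51))))
(.b (.l 46) (.a .z (.b (.l 46) .z)))))))) (.a (.b (.b (.b (.l 51) (.a (.b (.a .z (.b (.l 51) .z)) (.a (.l 53) (.b .z (.l 53)))) (.b (.l 51) (.a .z (.b
(.l 51) .z))))) (.b (.a (.b (.l 53) (.b .z (.l 56))) (.b (.a (.l 53) .z) (.a (.b .z (.l 56)) .z))) (.a (.b (.a (.l 56) (.b (.l 56) .z)) (.a (.b (.l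
56) .z) .z)) (.b .z (.l 60))))) (.b (.b (.a (.b .z (.l 59)) (.b (.a (.b (.l 60) .z) (.l 60)) (.a (.b .z (.l 59)) .z))) (.b (.l 59) (.b .z (.l 62))))
(.b (.b (.l 62) (.a (.b (.a .z (.l 62)) .z) (.l 62))) (.b (.a .z (.a .z (.b (.l 62) .z))) (.a (.b .z (.a .z (.l 62))) .z))))) (.a (.b (.b (.l 51) (.b
(.b (.a (.b (.l 51) .z) (.l 51)) .z) (.b (.b (.l 52) .z) (.l 60)))) (.a (.b (.b (.b (.l 60) (.b (.l 60) .z)) (.b (.b .z (.l 59)) (.b .z (.l 62)))) (.a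
(.b (.l 62) (.b (.l 62) .z)) (.b (.l 62) .z))) (.b (.a (.b (.b (.l 60) .z) .z) (.b (.b (.l 60) .z) .z)) (.a (.b (.a (.l 62) .z) .z) .z)))) (.b (.a (.b
(.l 51) (.a (.b (.b (.l 51) .z) (.b .z (.l 60))) (.b (.l 51) .z))) (.b (.b (.b .z (.l 51)) (.a (.l 51) .z)) (.a .z (.b .z (.b (.l 49) .z))))) (.a (.b
.z (.b (.b (.b .z (.l 55)) (.l 55)) (.b (.b (.l 55) .z) .z))) (.b (.b (.b .z (.l 52)) (.b (.b (.l 52) .z) .z)) (.b (.b (.b .z (.l 55)) (.l 55)) (.b .z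
(.b (.l 58) .z))))))))))

theorem vQ99 : ev Q99 I5_7 I6_61 = 326633339593544 := by decide +kernel

noncomputable def Q192 : QT :=
(.a (.a (.b (.b (.b (.b (.b (.b (.l 25) (.a (.l 25) (.b (.l 25) (.a (.l 25) .z)))) (.b (.a (.b (.l 25) .z) .z) (.a .z (.l 107)))) .z) (.b (.b (.a .z
(.b .z (.l 71))) (.a (.b .z (.b .z (.l 59))) (.b (.l 71) .z))) (.l 59))) (.b (.b (.b (.b (.a (.b (.l 59) .z) (.b .z (.a .z (.l 31)))) (.a (.b (.a .z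
(.l 31)) (.l 31)) (.l 31))) (.l 31)) (.b (.l 31) (.b (.l 31) (.b (.a .z (.l 31)) .z)))) (.b (.b (.b (.a (.l 33) (.b .z (.l 33))) (.l 33)) (.b (.l 33)
(.a (.l 33) (.b (.l 33) .z)))) .z))) (.b (.b (.b (.b .z (.b (.b .z (.l 75)) (.l 75))) (.b (.b (.l 75) .z) (.l 39))) (.b (.b (.l 39) (.b (.b (.a .z (.l
39)) .z) (.b (.a (.l 41) .z) (.l 41)))) (.b (.b (.l 41) .z) .z))) (.b (.b (.b .z (.b (.b .z (.l 91)) (.b (.l 91) .z))) (.b (.b (.b .z (.a .z (.l 47)))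
(.l 47)) (.b (.l 47) (.b (.l 47) (.a .z (.l 47)))))) (.b (.b (.b (.b .z (.a (.l 49) .z)) (.b (.l 49) (.a (.l 49) .z))) .z) (.b .z (.b (.b .z (.l 107))
.z)))))) (.b (.b (.b (.b (.b (.b (.a (.l 25) (.b (.l 25) (.a (.l 25) .z))) (.a (.b (.a (.l 25) .z) .z) .z)) (.l 107)) (.b (.a (.b (.l 107) .z) .z) (.a
.z (.l 71)))) (.b (.b (.l 71) (.b (.l 71) (.a .z (.l 71)))) (.b (.b (.a (.b .z (.l 59)) .z) (.l 59)) (.b (.l 59) (.a (.b (.l 59) .z) (.b .z (.a .z (.l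
31)))))))) (.b (.b (.b (.b (.a (.b (.a .z (.l 31)) (.l 31)) (.l 31)) (.l 31)) (.l 31)) (.l 31)) (.b (.b (.b (.a .z (.b (.l 31) .z)) (.a (.l 33) (.b .z
(.l 33)))) (.b (.a (.l 33) (.b (.l 33) .z)) .z)) (.b .z (.a (.b .z (.l 87)) (.l 87)))))) (.a (.b (.b (.b (.b (.l 87) (.b .z (.l 75))) (.b (.b .z (.b
.z (.l 39))) (.l 39))) (.b (.b (.l 39) (.b (.l 39) (.b .z (.l 41)))) (.b (.b (.b (.l 41) .z) .z) (.b .z (.l 103))))) (.b (.b (.b (.l 103) .z) (.l 47))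
(.b (.b (.b (.b (.l 47) .z) .z) .z) (.b (.l 119) (.b .z (.b .z (.l 55))))))) (.b (.a (.b (.b (.b (.l 87) .z) (.b (.b .z (.l 39)) (.l 39))) (.b (.b (.l
39) (.b (.l 39) .z)) (.b .z (.l 103)))) (.b (.b (.b (.l 87) .z) (.b (.b .z (.l 39)) (.l 39))) (.a (.b (.b (.l 39) .z) .z) (.b (.b (.l 39) .z) .z))))
(.a (.b (.b (.b (.l 103) .z) (.l 47)) (.a .z (.b .z (.a .z (.b (.l 31) .z))))) (.b (.a .z (.b .z (.l 27))) (.a (.b (.a (.b .z (.l 31)) (.b .z (.l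
31))) (.b (.l 31) .z)) (.b (.b (.b (.l 27) .z) (.l 31)) (.b (.b (.l 31) .z) .z))))))))) (.a (.b (.b (.a (.b (.b (.b (.b .z (.l 107)) .z) (.b (.b .z
(.l 71)) (.l 71))) (.b (.l 71) (.b (.b .z (.b .z (.l 59))) (.b .z (.b (.a .z (.l 31)) (.l 31)))))) (.b (.b (.b .z (.b .z (.l 71))) (.l 71)) (.a (.b
(.l 71) (.b .z (.b (.b .z (.l 31)) (.l 31)))) (.b (.l 71) (.a (.b .z (.b .z (.l 31))) .z))))) (.a (.b (.l 31) (.a (.b (.b (.b (.l 31) .z) .z) (.l 87))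
(.a (.b (.b (.b (.l 31) .z) .z) (.l 87)) (.b (.b (.b (.l 31) .z) .z) .z)))) (.b (.a (.b (.l 31) (.a (.l 31) (.b (.l 31) (.a (.l 31) .z)))) (.b (.a (.b
(.l 31) (.a (.l 31) .z)) (.b .z (.a .z (.l 19)))) (.a (.b .z (.a .z (.l 19))) (.l 19)))) (.a (.a (.b (.b (.b (.l 31) .z) .z) (.a .z (.b .z (.l 23))))
(.b .z (.l 23))) (.b (.b (.b (.l 19) .z) (.b (.b .z (.l 23)) (.l 23))) (.l 23)))))) (.a (.b (.a (.b (.a (.b .z (.b .z (.l 39))) (.b .z (.a (.l 39)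
.z))) .z) (.b (.a .z (.b .z (.b .z (.l 48)))) (.b (.b (.l 48) .z) (.b .z (.l 69))))) (.b (.b (.b (.l 69) (.b .z (.b .z (.a (.l 27) .z)))) (.l 27)) (.b
(.b (.b (.b (.l 27) .z) .z) (.l 31)) (.b (.b (.a (.l 31) (.b (.l 31) .z)) .z) (.b (.l 117) .z))))) (.b (.b (.b (.b (.b (.l 23) (.a (.l 23) (.b (.l 23)
.z))) (.b (.a (.b (.l 23) .z) .z) .z)) (.b .z (.l 48))) (.b (.b (.b (.l 48) (.a (.l 48) .z)) .z) (.b (.b .z (.l 69)) (.l 69)))) (.b (.b (.b (.l 69)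
(.b (.b .z (.a .z (.l 28))) (.b (.l 28) .z))) (.b (.b (.b (.a (.l 27) .z) (.l 27)) (.l 27)) (.l 27))) (.b (.b .z (.b (.b .z (.l 31)) (.a (.b (.l 31)
.z) .z))) (.b (.b .z (.l 117)) (.l 117))))))) (.b (.b (.a (.b (.a (.b (.b .z (.l 71)) (.a (.l 71) .z)) (.b .z (.a .z (.l 45)))) (.a (.b .z (.a .z (.b
.z (.b .z (.l 19))))) (.b (.l 45) (.b (.b (.l 45) .z) (.b (.b .z (.l 19)) (.l 19)))))) (.b (.a (.b (.a (.b .z (.l 45)) (.l 45)) (.l 45)) (.l 45)) (.b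
(.l 45) (.b (.b (.b (.l 45) .z) (.b .z (.l 20))) (.b (.b (.a .z (.l 20)) .z) (.b (.a (.l 19) .z) (.l 19))))))) (.b (.l 19) (.b (.b (.b (.a (.b (.l 19)
(.a (.l 19) .z)) (.b (.a (.l 19) .z) .z)) (.a .z (.l 71))) (.b .z (.a (.l 23) (.b .z (.l 23))))) (.b (.l 23) (.a (.l 23) (.b (.l 23) (.a (.b (.l 23)
.z) .z))))))) (.b (.b (.b (.b (.a (.b (.a (.l 23) .z) .z) .z) .z) (.b .z (.a (.b .z (.a (.l 48) .z)) .z))) (.b (.b (.a (.b .z (.a .z (.l 49))) (.b (.a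
.z (.l 49)) (.l 49))) (.b (.b (.a (.l 49) .z) .z) (.b .z (.l 79)))) (.b (.b (.b (.l 79) .z) .z) (.l 69)))) (.b (.b (.b (.b (.l 69) (.b .z (.a .z (.a
.z (.l 28))))) (.b (.b (.a (.a .z (.l 28)) (.l 28)) (.l 28)) (.l 28))) (.b (.b (.b (.a .z (.l 28)) (.a (.a (.l 27) .z) .z)) (.b (.a (.l 27) (.a (.l
27) .z)) (.l 27))) (.b (.l 27) (.b (.a (.l 27) (.a (.l 27) .z)) .z)))) (.b (.b (.b .z (.a (.l 91) .z)) .z) (.b .z (.a .z (.b .z (.l 65))))))))))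

theorem vQ192 : ev Q192 I6_32 I5_29 = 272512018921533 := by decide +kernel

noncomputable def Q65 : QT :=
(.a (.b (.a (.b .z (.a (.b (.a .z (.b (.a (.a .z (.b (.l 105) .z)) (.a (.a (.l 105) .z) .z)) .z)) .z) (.b (.a .z (.b .z (.b .z (.b .z (.l 158)))))
.z))) (.b (.a (.b .z (.a .z (.b .z (.b .z (.a (.l 138) .z))))) (.b (.a .z (.a .z (.a .z (.l 290)))) .z)) (.a (.b (.a (.b .z (.b .z (.l 158))) (.b (.a
.z (.b (.l 138) .z)) .z)) (.b (.a (.b (.b (.l 158) .z) .z) .z) (.a .z (.b .z (.a (.l 172) .z))))) (.b (.a (.b (.b (.a (.l 138) .z) (.l 138)) .z) (.b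
.z (.a (.b (.l 138) .z) .z))) (.a (.b .z (.a .z (.b (.a .z (.l 76)) (.b (.l 76) .z)))) (.b .z (.l 76))))))) (.a (.b (.a (.b (.a .z (.b .z (.a .z (.a
.z (.l 161))))) .z) (.b (.b .z (.a (.a (.l 161) .z) .z)) (.a (.b (.b (.a (.l 161) .z) .z) .z) .z))) (.a .z (.b .z (.a .z (.b (.a (.l 254) (.a (.l 254)
.z)) (.a (.b (.l 254) .z) (.a (.l 254) .z))))))) (.b (.b (.a .z (.b (.b .z (.a .z (.a .z (.l 172)))) .z)) (.a (.b (.a .z (.b (.a .z (.b .z (.l 90)))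
(.a .z (.a .z (.l 90))))) .z) (.b (.a (.b .z (.a (.b .z (.l 90)) .z)) .z) (.a (.b (.a (.l 90) (.a (.l 90) .z)) (.b (.a (.l 90) .z) .z)) (.b .z (.a .z
(.l 142))))))) (.a (.b .z (.a .z (.b (.b .z (.a .z (.l 141))) (.a .z (.l 141))))) (.b (.b (.b (.a .z (.l 142)) (.a .z (.a .z (.l 142)))) .z) (.b (.a
(.b .z (.a (.l 141) .z)) .z) (.a (.a .z (.b .z (.l 86))) (.b (.a (.l 86) (.b .z (.l 86))) (.l 86))))))))) (.b (.a (.b (.a (.b (.a (.b (.l 290) (.a (.l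
290) .z)) .z) .z) .z) (.a (.b .z (.b .z (.a (.b (.a (.b .z (.l 76)) .z) (.l 76)) (.b .z (.a (.b .z (.l 76)) .z))))) .z)) .z) (.b (.b (.b (.a (.a (.b
(.b (.a (.b (.l 76) .z) (.a (.l 76) .z)) (.a .z (.a .z (.l 76)))) .z) .z) .z) (.b .z (.a (.a .z (.a (.a .z (.l 142)) .z)) .z))) (.a (.a (.b (.a .z (.b
.z (.l 142))) (.a (.b (.a .z (.l 142)) (.l 142)) (.l 142))) (.a (.l 142) (.b (.a (.l 142) (.b .z (.l 142))) (.l 142)))) (.a (.b .z (.a (.a (.l 142)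
(.b .z (.l 142))) .z)) .z))) (.a (.b (.a (.a (.b (.l 142) (.a (.b (.l 142) .z) (.b (.l 142) .z))) (.b (.l 142) (.b (.l 142) (.b (.l 142) .z)))) (.b
(.l 142) (.b (.l 142) (.b (.l 142) (.a .z (.l 142)))))) (.a (.b .z (.a (.b .z (.a (.b .z (.l 86)) .z)) .z)) .z)) (.a (.b (.b (.a (.l 142) (.a (.b .z
(.l 142)) .z)) (.b (.a (.l 142) (.a (.l 142) .z)) (.b (.a (.l 142) .z) .z))) .z) (.a .z (.b .z (.a .z (.b .z (.b .z (.l 231)))))))))))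

theorem vQ65 : ev Q65 I4_3 I5_8 = 232695387208474 := by decide +kernel

noncomputable def Q240 : QT :=
(.a (.b (.b (.b (.a (.b (.a (.b (.a .z (.b .z (.l 45))) (.l 45)) (.l 45)) (.b (.l 45) (.b (.l 45) .z))) (.a (.a (.a (.b (.l 45) (.b (.l 45) .z)) (.b
(.l 45) .z)) .z) (.b (.b (.b .z (.l 79)) (.l 79)) (.b (.l 79) (.b .z (.l 47)))))) (.a (.b (.b (.l 127) (.a .z (.b (.l 127) .z))) .z) (.b (.a (.b (.a
.z (.l 47)) (.a (.a .z (.l 47)) .z)) (.b (.a (.b (.l 47) .z) .z) .z)) (.a (.b .z (.l 213)) (.b (.l 213) .z))))) (.b (.a (.b (.a .z (.b (.l 213) .z))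
(.b (.a .z (.a .z (.l 119))) .z)) (.b (.b (.a .z (.b .z (.l 119))) (.a (.b .z (.l 119)) (.a (.l 119) .z))) (.a (.b (.l 119) (.b (.l 119) .z)) (.a (.b
(.l 119) .z) .z)))) (.b (.a (.b (.l 87) (.a .z (.b (.l 87) .z))) (.a (.l 87) (.a (.a (.l 87) .z) .z))) (.a (.a (.b (.a (.b (.l 65) .z) (.l 65)) (.a .z
(.b (.l 65) .z))) (.b (.b .z (.l 65)) (.l 65))) (.b .z (.a (.b (.a (.l 65) .z) .z) .z)))))) (.b (.b (.b (.a (.b (.a (.b (.a (.l 59) .z) .z) .z) (.a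
(.b .z (.l 71)) .z)) (.b .z (.a (.l 147) (.a .z (.l 129))))) (.a (.a (.l 71) (.a .z (.b .z (.l 91)))) (.a (.a (.b .z (.l 91)) .z) (.a (.a .z (.l 129))
(.l 129))))) (.b (.a (.b (.a (.b .z (.a (.l 65) .z)) .z) (.a (.l 65) (.b (.a (.l 65) .z) (.a (.l 65) .z)))) (.b (.a (.a (.l 91) .z) (.b (.l 129) .z))
.z)) (.a (.b (.a (.b (.a (.l 65) .z) .z) (.b .z (.l 83))) (.l 83)) (.b (.a (.a .z (.a .z (.l 61))) (.b (.a (.l 61) .z) (.l 61))) (.a (.a .z (.l 61))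
(.l 61)))))) (.b (.b (.b (.b (.b .z (.a .z (.l 23))) (.l 23)) (.l 23)) (.l 23)) (.b (.b (.l 23) (.b (.b .z (.l 25)) (.l 25))) (.a (.b (.l 25) (.a (.b
(.l 25) (.a (.b (.l 25) .z) .z)) (.b (.a (.b (.l 25) .z) .z) .z))) (.b (.a (.b (.l 25) (.a (.b (.l 25) .z) .z)) (.b (.a (.b (.l 25) .z) .z) .z))
.z)))))) (.b (.b (.b (.a (.b (.a (.l 79) (.b (.l 79) (.a (.l 79) .z))) (.a (.b (.l 79) .z) .z)) (.b (.a (.b (.a (.l 79) .z) .z) .z) (.a (.a (.l 177)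
.z) .z))) (.a (.b (.a (.b .z (.l 213)) .z) (.b (.a (.l 213) .z) .z)) (.a .z (.b (.b (.l 183) .z) (.b (.l 183) .z))))) (.b .z (.b (.a .z (.b .z (.a .z
(.b (.l 86) .z)))) (.a (.b .z (.a (.l 130) (.a (.l 130) .z))) (.a .z (.a .z (.b .z (.l 105)))))))) (.a (.b (.b (.b (.a (.a .z (.b (.l 130) .z)) (.a
(.l 130) .z)) (.b (.a (.a (.l 129) .z) .z) (.a (.l 129) .z))) (.b .z (.b (.a (.b .z (.a (.l 61) .z)) .z) (.b (.a (.l 61) .z) (.b (.l 61) (.a (.l 61)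
.z)))))) (.a (.b (.b (.b (.b (.b .z (.l 23)) (.l 23)) (.l 23)) (.l 23)) (.b (.b (.b (.l 23) (.b (.l 23) .z)) (.b (.b (.a .z (.l 25)) (.l 25)) (.a (.b
(.l 25) .z) .z))) .z)) (.b (.b (.b (.b (.b (.a .z (.l 23)) (.l 23)) (.l 23)) (.l 23)) (.l 23)) (.a (.b (.b (.b (.l 23) (.b (.l 23) .z)) .z) .z) (.b
(.a (.b (.b (.l 23) .z) .z) (.b (.b (.l 23) .z) .z)) .z))))) (.b (.a (.b (.b (.b (.a (.l 111) .z) (.l 111)) (.b (.b (.l 111) .z) .z)) .z) (.b .z (.a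
.z (.b (.a .z (.b .z (.l 33))) (.b (.l 33) (.b (.l 33) .z)))))) (.a (.b (.a (.b (.l 23) (.a (.l 23) (.b (.a (.l 23) .z) (.a .z (.b .z (.l 15)))))) (.b
(.a (.b (.l 23) (.a (.l 23) .z)) (.b .z (.a (.b .z (.l 15)) (.l 15)))) (.a (.b (.a .z (.b .z (.l 15))) (.l 15)) (.l 15)))) (.a (.b (.a .z (.b (.a .z
(.b (.l 15) .z)) .z)) .z) (.b (.b (.b (.b (.l 15) (.a (.l 15) .z)) .z) (.l 80)) .z))) (.b (.a (.b (.a (.b (.a (.b .z (.l 15)) (.b .z (.l 15))) (.l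
15)) (.b (.b (.b .z (.l 15)) (.l 15)) (.l 15))) (.l 15)) (.b (.b (.b .z (.l 15)) (.l 15)) (.b (.l 15) (.b (.l 15) (.b (.l 15) .z))))) (.b (.b (.b .z
(.b (.l 37) .z)) (.a (.l 80) .z)) .z)))))))

theorem vQ240 : ev Q240 I6_43 I5_28 = 202178333740903 := by decide +kernel

noncomputable def Q245 : QT :=
(.b (.b (.b (.b (.a (.b (.a .z (.b (.a (.b .z (.l 122)) (.l 122)) (.a (.l 122) (.b (.l 122) .z)))) .z) (.b (.a (.a .z (.b (.a .z (.l 91)) .z)) (.b (.l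
91) (.a (.l 91) (.b (.l 91) .z)))) .z)) (.a (.b (.a .z (.b .z (.a .z (.l 173)))) (.a .z (.b .z (.a (.b .z (.a .z (.b .z (.l 32)))) (.b (.a .z (.b .z
(.l 32))) (.l 32)))))) (.b (.a .z (.b (.a .z (.b .z (.a .z (.b .z (.l 32))))) (.a (.b .z (.a (.b .z (.l 32)) (.l 32))) (.b (.a (.b .z (.l 32)) (.l
32)) (.l 32))))) (.a (.b (.a (.b .z (.a .z (.b .z (.l 32)))) (.b (.a (.b .z (.l 32)) (.l 32)) (.l 32))) (.l 32)) (.l 32))))) (.a (.b (.b (.a (.b (.a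
.z (.b (.a .z (.b .z (.l 32))) (.a (.b .z (.l 32)) (.l 32)))) (.a (.b (.a (.b .z (.l 32)) (.l 32)) (.l 32)) (.l 32))) (.l 32)) (.b (.b (.l 32) (.b (.l
32) .z)) (.l 31))) (.b (.b (.a (.l 31) (.b (.l 31) (.a (.l 31) (.b (.l 31) (.a (.l 31) .z))))) (.a (.b (.a (.l 31) (.b (.l 31) (.a (.l 31) .z))) (.a
(.b (.l 31) .z) .z)) (.b (.a (.b (.a (.l 31) .z) .z) .z) (.l 79)))) (.b (.a (.b (.a .z (.l 79)) (.a (.l 79) .z)) (.b (.a (.l 79) .z) .z)) (.a (.b .z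
(.a .z (.l 79))) .z)))) (.b (.b (.l 32) (.b (.b (.l 32) (.b (.l 32) .z)) (.a (.l 31) (.b (.l 31) (.a (.b (.l 31) (.a (.l 31) .z)) (.b (.a (.l 31) .z)
.z)))))) (.a (.b (.b (.b (.a (.l 31) (.b (.l 31) .z)) .z) (.b (.a (.l 79) .z) (.a (.l 79) .z))) .z) (.b (.b (.b (.a .z (.l 75)) (.l 75)) (.b .z (.a .z
(.l 118)))) (.a .z (.b (.a (.l 118) .z) (.a .z (.b .z (.l 33)))))))))) (.b (.a (.b (.b (.b (.a (.b (.b (.l 79) .z) (.a (.b (.l 39) .z) (.l 39))) (.b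
.z (.l 39))) (.a .z (.b (.a (.b (.l 39) .z) (.l 39)) (.a .z (.b (.l 39) .z))))) (.b (.a .z (.b .z (.a .z (.l 44)))) (.a (.b .z (.a .z (.l 44))) (.l
44)))) (.a (.b (.l 44) (.b (.b (.l 44) .z) (.b (.b .z (.l 99)) .z))) (.b (.a (.l 44) (.b (.a (.l 44) (.b (.l 44) .z)) (.a (.b (.l 44) .z) .z))) (.a
(.b (.a (.b (.l 44) .z) .z) (.a .z (.b .z (.l 45)))) (.b .z (.b .z (.l 45))))))) (.b (.a (.b (.a (.b (.b .z (.l 39)) (.l 39)) (.b (.b .z (.l 39)) (.a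
(.l 39) (.b (.l 39) .z)))) (.a (.b (.b .z (.b .z (.l 44))) (.a (.b (.l 44) .z) .z)) (.b (.a .z (.b .z (.l 35))) (.a .z (.b (.l 35) .z))))) (.b (.a .z
(.b (.l 33) .z)) (.b (.l 35) (.b (.l 35) (.b (.l 35) .z))))) (.a (.b .z (.b .z (.b (.b (.a .z (.l 45)) (.l 45)) (.l 45)))) (.b (.b .z (.b .z (.a .z
(.b .z (.l 45))))) (.b (.b (.a (.b (.l 45) .z) .z) (.b (.a .z (.l 45)) (.l 45))) (.l 45)))))) (.a (.b (.a (.b (.a (.b .z (.a (.b .z (.l 51)) .z)) (.b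
.z (.a .z (.b .z (.l 45))))) (.a .z (.b (.l 45) (.b .z (.b .z (.l 47)))))) (.b (.a (.b (.a (.b .z (.l 45)) (.l 45)) (.l 45)) (.l 45)) (.b (.b (.l 45)
(.b (.a (.l 45) .z) .z)) (.b .z (.b .z (.l 47)))))) (.b (.b (.b (.l 47) .z) (.b (.a .z (.b (.a .z (.l 57)) .z)) (.a .z (.b .z (.a .z (.l 57)))))) (.b
(.b (.a (.b .z (.l 57)) (.l 57)) (.l 57)) (.b (.l 57) (.a (.l 57) (.b (.a (.l 57) .z) .z)))))) (.b (.b (.b (.l 45) (.b (.l 45) (.a (.l 45) (.b (.l 45)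
(.a (.l 45) .z))))) (.b (.b (.a (.b (.a (.l 45) .z) .z) .z) .z) (.b .z (.l 47)))) (.b (.b (.b (.l 47) (.b .z (.a (.l 57) .z))) (.b (.a (.b .z (.a .z
(.l 57))) (.b (.a .z (.l 57)) (.l 57))) (.l 57))) (.b (.b (.l 57) (.a (.l 57) (.b (.l 57) (.a (.l 57) .z)))) (.b (.a (.b (.l 57) .z) .z) .z))))))) (.b
(.b (.b (.b (.b .z (.b (.l 59) (.b .z (.a .z (.l 69))))) (.b (.a (.b (.a (.b .z (.l 69)) (.l 69)) (.l 69)) (.b (.a (.l 69) (.b (.l 69) .z)) .z)) (.a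
(.b (.a (.b (.l 69) .z) .z) .z) (.b .z (.a (.l 148) .z))))) (.a (.b (.b (.b .z (.b (.l 71) .z)) (.b (.a (.b .z (.l 81)) (.l 81)) (.a (.b (.l 81) .z)
.z))) (.b .z (.b (.b (.l 83) .z) (.a (.b (.l 93) .z) .z)))) (.b (.a (.b (.b .z (.b (.l 71) .z)) (.b (.b (.l 81) .z) .z)) (.b (.b .z (.b (.l 71) .z))
.z)) (.a .z (.b .z (.b (.b (.l 75) .z) .z)))))) (.a (.b (.b .z (.a .z (.b (.a .z (.b .z (.l 93))) (.b (.b (.l 93) .z) .z)))) (.a (.b (.a .z (.b (.b .z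
(.l 105)) .z)) (.b (.a (.b (.l 117) .z) .z) .z)) .z)) (.b (.b (.a (.b (.a .z (.l 81)) .z) (.b (.l 81) .z)) (.a (.b (.a (.b .z (.l 93)) .z) .z) .z))
.z))) .z))

theorem vQ245 : ev Q245 I6_44 I4_15 = 279186514042098 := by decide +kernel

noncomputable def Q267 : QT :=
(.a (.b (.a (.b (.a (.b (.a (.b (.b (.a (.l 19) (.b (.l 19) (.a (.l 19) .z))) (.a (.b (.l 19) (.a (.l 19) .z)) .z)) (.b .z (.a .z (.l 96)))) (.b .z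
(.a .z (.b .z (.b (.l 37) .z))))) (.a (.b (.a (.b (.l 96) .z) .z) (.a .z (.b .z (.l 109)))) (.b .z (.b (.a (.l 109) .z) .z)))) (.b (.a (.b (.a (.b .z
(.a .z (.l 37))) (.b (.a .z (.l 37)) (.l 37))) (.b (.l 37) (.b (.b (.l 37) .z) .z))) (.b (.l 37) (.b (.b (.l 37) (.b (.l 37) .z)) .z))) (.a .z (.a .z
(.b .z (.a .z (.l 40))))))) (.b (.a .z (.b (.a .z (.a (.a .z (.b .z (.l 40))) (.l 40))) (.a .z (.b (.a (.a .z (.l 40)) (.l 40)) (.a (.l 40) (.b (.l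
40) .z)))))) (.a .z (.b (.a .z (.b (.a (.b (.l 40) .z) .z) (.a .z (.l 73)))) (.a (.b (.a .z (.l 73)) (.a .z (.l 73))) (.b (.l 73) (.a (.l 73)
.z))))))) (.b (.b (.b (.a (.b (.l 37) (.a (.l 37) (.b (.l 37) (.a (.l 37) .z)))) (.b (.a (.b .z (.a (.l 37) .z)) .z) (.a (.b (.a (.l 37) .z) .z) .z)))
(.b (.a (.b (.a (.b (.l 37) .z) .z) (.a .z (.l 40))) (.a (.a (.a (.l 40) .z) .z) .z)) (.a (.a (.a .z (.l 40)) (.l 40)) (.a (.a (.a (.l 40) .z) .z)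
.z)))) (.a (.a (.a (.b (.a (.b .z (.l 40)) (.l 40)) (.l 40)) (.l 40)) (.l 40)) (.b (.a (.a (.a (.l 40) (.a (.l 40) .z)) .z) .z) (.a (.b (.a (.a (.l
40) .z) .z) (.a (.a (.l 40) .z) .z)) .z)))) (.b (.a (.b (.a (.l 40) (.b (.l 40) (.a (.b (.l 40) .z) .z))) (.a (.b (.a (.l 40) (.b (.l 40) .z)) .z)
.z)) .z) (.b (.b (.a (.b .z (.l 73)) (.a (.a (.l 73) .z) .z)) (.a (.a (.l 73) (.a (.l 73) .z)) .z)) (.b (.a (.a (.a (.l 73) .z) .z) .z) .z))))) (.a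
(.b (.b (.a (.b .z (.b (.b (.b .z (.l 81)) (.l 81)) (.l 81))) (.b (.b .z (.b .z (.a .z (.l 81)))) (.l 81))) (.b (.a (.l 81) (.b (.l 81) (.a (.l 81)
.z))) (.a (.b (.l 81) (.a (.l 81) .z)) .z))) (.b .z (.b (.b .z (.b .z (.a (.b .z (.a .z (.a .z (.l 31)))) (.b (.a .z (.l 31)) (.l 31))))) (.a (.l 31)
(.b (.l 31) (.a (.l 31) (.b (.l 31) (.a (.b (.l 31) .z) .z)))))))) (.b (.b (.b (.b (.a .z (.b .z (.l 81))) (.a (.b (.a .z (.l 81)) (.l 81)) (.a (.l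
81) .z))) (.a (.a (.l 81) (.b (.l 81) (.a (.l 81) .z))) .z)) (.a (.b (.b (.a (.b (.l 81) .z) .z) .z) .z) .z)) (.a (.b .z (.b (.b .z (.b (.b .z (.a (.a
.z (.l 31)) (.l 31))) (.a (.l 31) (.a (.l 31) (.b (.l 31) .z))))) (.a (.b (.b (.l 31) (.a (.l 31) .z)) .z) .z))) (.b .z (.a (.b (.b .z (.a (.b (.b (.l
31) .z) .z) .z)) .z) .z)))))) (.b (.a (.b (.b (.a .z (.b (.a (.b (.a .z (.l 121)) .z) (.b (.a (.l 121) .z) .z)) (.a (.b .z (.a .z (.l 104))) (.b (.a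
.z (.l 104)) (.l 104))))) (.a (.b (.a .z (.b .z (.a .z (.l 104)))) .z) (.b (.b (.l 104) (.a (.l 104) (.b (.l 104) .z))) .z))) .z) (.b (.b (.a (.b .z
(.l 104)) .z) (.b (.a (.b (.a (.l 104) .z) .z) (.b (.a .z (.a .z (.l 105))) .z)) .z)) (.a .z (.b (.a (.b .z (.a .z (.b (.l 96) .z))) .z) (.a .z (.b
(.b (.b .z (.a .z (.l 47))) (.a .z (.l 47))) (.a (.a (.b .z (.l 47)) (.l 47)) (.l 47)))))))) (.a (.b (.a (.b .z (.b (.a (.b (.l 165) .z) .z) .z)) (.b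
.z (.a .z (.b (.a .z (.b .z (.l 73))) (.a (.b .z (.l 73)) (.l 73)))))) (.a (.b .z (.a (.b .z (.a (.b .z (.a (.b .z (.l 26)) (.l 26))) (.b .z (.l
26)))) (.b .z (.b (.b (.a .z (.l 57)) (.a .z (.l 57))) (.a (.b (.b .z (.l 26)) (.l 26)) .z))))) (.b (.a (.b (.a .z (.b (.l 73) .z)) .z) .z) .z))) (.b
(.a (.b (.a (.b .z (.a .z (.b .z (.l 73)))) (.b (.a (.b .z (.l 101)) (.b .z (.l 101))) (.b (.b .z (.l 73)) (.l 73)))) (.b (.a (.l 73) (.b (.l 73) (.a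
(.l 73) .z))) (.a (.b (.a (.l 73) .z) .z) .z))) (.b (.b (.b (.a (.a .z (.a .z (.l 47))) (.l 47)) (.b (.a (.a .z (.l 47)) .z) .z)) (.b (.b (.a .z (.l
73)) (.l 73)) (.a (.l 73) (.a (.l 73) .z)))) (.b (.a (.b (.a (.l 73) .z) .z) .z) .z))) (.b .z (.a .z (.a .z (.b (.a .z (.b (.l 75) .z)) .z))))))))

theorem vQ267 : ev Q267 I5_27 I5_29 = 205754780152480 := by decide +kernel

noncomputable def Q179 : QT :=
(.b (.a (.b (.a (.b (.a (.b (.a (.b (.l 61) (.b (.l 61) (.b (.a .z (.l 61)) .z))) (.b (.l 61) (.a (.b (.l 61) .z) (.b (.a (.l 61) .z) .z)))) (.a (.b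
(.a (.b (.l 56) (.a (.l 56) .z)) (.b (.a (.l 56) .z) .z)) (.a (.b .z (.l 81)) (.l 81))) (.b (.a (.b .z (.l 81)) .z) (.l 81)))) (.b (.a (.b (.a (.b (.l
61) .z) .z) (.a .z (.l 167))) (.b (.a .z (.l 167)) (.l 167))) (.a (.b (.a .z (.l 167)) (.a (.b .z (.l 81)) .z)) (.l 167)))) (.a (.l 81) (.b (.a (.b
(.a (.l 81) (.b .z (.l 81))) (.l 81)) (.b .z (.a (.l 81) (.b .z (.l 81))))) (.l 81)))) (.b (.a (.a (.l 167) (.a (.l 167) (.a (.b (.l 167) .z) .z)))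
(.a (.a (.a .z (.b (.l 183) .z)) (.b (.a (.l 183) .z) .z)) .z)) (.b (.a (.a (.b (.l 167) (.a .z (.l 167))) (.a (.l 167) .z)) (.b (.b .z (.a (.a .z (.l
104)) (.l 104))) (.a .z (.b (.l 104) .z)))) (.a (.b (.a (.a (.b .z (.l 81)) .z) .z) (.a (.b (.l 81) (.a (.l 81) .z)) (.b .z (.a .z (.l 38))))) (.b (.a
(.b .z (.a .z (.b .z (.l 38)))) (.b (.a .z (.l 38)) (.l 38))) (.a (.b (.a (.b .z (.l 38)) (.l 38)) (.l 38)) (.l 38))))))) (.b (.a (.b (.a (.b (.l 81)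
(.a (.a .z (.l 81)) (.b (.l 81) (.a (.l 81) .z)))) (.b (.a (.l 81) (.b (.a (.l 81) .z) .z)) (.a (.b (.a (.l 81) .z) (.a .z (.b .z (.l 38)))) (.b (.a
(.b .z (.l 38)) (.l 38)) (.l 38))))) (.a (.b (.a .z (.b (.a .z (.b .z (.l 38))) (.a (.b .z (.l 38)) (.l 38)))) (.a (.b (.a .z (.l 38)) (.l 38)) (.l
38))) (.l 38))) (.b (.a (.b (.a (.b (.a .z (.b .z (.l 38))) (.l 38)) (.l 38)) (.l 38)) (.l 38)) (.l 38))) (.l 38))) (.b (.b (.a (.b (.a (.a (.a (.b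
(.a (.b (.l 25) (.a .z (.l 25))) (.l 25)) (.a .z (.a (.b (.l 25) .z) (.l 25)))) (.l 25)) (.l 25)) (.l 25)) (.a (.a (.a .z (.a (.b (.a (.b (.l 25) .z)
(.l 25)) .z) (.l 25))) (.l 25)) (.b (.a (.l 25) (.b (.l 25) (.a (.b (.l 25) (.a (.l 25) .z)) .z))) (.a (.b (.a (.l 25) (.b (.l 25) .z)) (.a (.b (.a
(.l 25) .z) .z) (.b .z (.l 38)))) (.b (.a .z (.l 38)) (.l 38)))))) (.b (.a (.b (.a (.l 25) (.b (.a (.b (.a (.l 25) .z) (.l 25)) .z) (.a (.l 25) (.b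
(.l 25) (.a (.l 25) .z))))) (.a (.b (.l 25) (.a (.l 25) (.b (.a (.l 25) .z) .z))) (.b (.a (.b (.l 25) (.a (.l 25) .z)) .z) (.a (.b .z (.l 38)) (.l
38))))) (.b (.a (.b .z (.a .z (.b .z (.a .z (.l 32))))) (.b (.a (.b .z (.l 47)) (.b (.l 47) .z)) (.b (.b .z (.l 32)) (.l 32)))) (.a (.b (.a (.l 38)
.z) (.l 38)) (.b (.a (.b (.l 32) (.a .z (.l 32))) (.l 32)) (.a .z (.b (.l 32) .z)))))) (.a (.b (.a (.b (.a (.b (.a (.l 25) .z) .z) (.b .z (.l 38)))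
(.a (.b .z (.l 38)) (.l 38))) (.l 38)) (.l 38)) (.b (.a (.l 38) (.b (.a (.l 38) (.b .z (.l 38))) (.l 38))) (.l 38))))) (.a (.b (.a (.b (.a (.b (.a .z
(.a .z (.a .z (.l 25)))) .z) (.b (.a (.b (.l 25) (.a (.l 25) .z)) .z) (.a .z (.l 38)))) (.a (.b (.a .z (.b .z (.l 38))) (.a (.b .z (.l 38)) (.l 38)))
(.l 38))) (.b (.a (.b (.a (.b .z (.l 38)) (.l 38)) (.l 38)) (.l 38)) (.l 38))) (.l 38)) (.l 38))) (.l 38))) (.b (.b (.l 38) (.b (.b (.l 38) (.b (.b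
(.l 38) (.b .z (.l 11))) (.l 11))) (.l 11))) (.l 11)))

theorem vQ179 : ev Q179 I5_17 I4_10 = 1806251551765755 := by decide +kernel

noncomputable def Q138 : QT :=
(.b (.a (.b .z (.a (.b .z (.a .z (.b .z (.a .z (.b (.a (.l 119) .z) .z))))) (.b (.a .z (.b .z (.a (.b (.a .z (.l 77)) (.l 77)) (.l 77)))) (.a (.b (.a
.z (.b (.a .z (.l 77)) (.l 77))) (.a (.b (.a .z (.l 77)) (.l 77)) (.l 77))) (.l 77))))) (.b (.a (.b .z (.a (.b .z (.a .z (.b .z (.a .z (.l 101)))))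
(.b (.a .z (.b .z (.a .z (.l 101)))) (.a (.b (.a .z (.l 101)) (.l 101)) (.l 101))))) (.b (.a (.b .z (.a (.b .z (.a .z (.l 101))) (.b (.a .z (.l 101))
(.l 101)))) (.b (.a (.b (.a .z (.l 101)) (.l 101)) (.l 101)) (.l 101))) (.a (.l 101) (.a (.l 101) (.a (.b (.l 101) (.a (.l 101) .z)) (.b (.b (.l 101)
.z) .z)))))) (.b (.a (.b (.a (.b (.a (.b .z (.l 101)) (.l 101)) (.b (.b (.l 101) .z) (.l 77))) (.b (.l 101) (.b (.b (.l 101) .z) (.l 77)))) (.l 77))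
(.b (.b (.a (.l 101) (.a (.l 101) .z)) (.b (.b (.a (.l 101) .z) .z) (.l 77))) (.l 77))) (.l 77)))) (.a (.b (.a (.b (.a (.b (.a .z (.b (.a .z (.l 119))
.z)) (.a .z (.b .z (.a .z (.l 77))))) (.b (.a (.b .z (.a .z (.l 77))) (.l 77)) (.l 77))) (.a (.b (.a (.b (.a .z (.l 77)) (.a .z (.l 77))) (.l 77)) (.a
.z (.a (.b (.l 77) .z) (.l 77)))) (.l 77))) (.b (.l 77) (.b (.l 77) (.b (.a (.l 77) (.a (.l 77) (.b (.l 77) .z))) (.a (.b (.l 77) .z) .z))))) (.a (.a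
(.b (.a .z (.b (.a .z (.b (.l 77) .z)) (.a (.b .z (.l 74)) .z))) (.a (.b (.a .z (.b .z (.l 74))) (.a (.b .z (.l 74)) (.l 74))) (.l 74))) (.a (.b (.b
(.b (.b (.l 77) .z) .z) .z) (.a (.b .z (.l 74)) .z)) .z)) (.b (.b (.b (.a .z (.a .z (.l 173))) (.a .z (.a .z (.l 173)))) (.a .z (.a .z (.l 173)))) (.a
.z (.a .z (.l 173)))))) (.a (.b (.b (.l 77) (.b (.a (.b (.l 77) (.a (.b (.l 77) .z) .z)) (.b (.a (.b (.l 77) .z) .z) .z)) .z)) (.b (.b (.a (.b .z (.a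
(.l 173) .z)) .z) (.a (.l 173) (.b (.a (.l 173) .z) (.l 173)))) (.l 173))) (.b (.a (.b (.b (.l 77) (.b (.a (.l 77) .z) .z)) .z) (.b (.b (.a (.b (.l
77) .z) .z) .z) .z)) (.a (.b .z (.a (.b (.l 173) (.a (.l 173) .z)) .z)) .z)))))

theorem vQ138 : ev Q138 I5_13 I5_14 = 423429568605458 := by decide +kernel

noncomputable def Q208 : QT :=
(.b (.b (.a (.l 13) (.b (.l 13) (.a (.l 13) (.b (.l 13) (.a (.l 13) (.b (.l 13) (.a (.l 13) (.b (.l 13) (.a (.b (.l 13) .z) .z))))))))) (.a (.b (.a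
(.l 13) (.b (.l 13) (.a (.l 13) (.b (.l 13) (.a (.l 13) (.b (.l 13) (.a (.l 13) (.b (.l 13) .z)))))))) (.b (.a (.b (.l 13) (.a (.l 13) (.b (.l 13) (.a
(.l 13) (.b (.l 13) (.a (.l 13) .z)))))) (.b (.a (.b (.l 13) (.a (.l 13) (.b (.l 13) (.a (.l 13) .z)))) (.a (.b (.a (.l 13) (.b (.l 13) .z)) .z) (.b
.z (.l 49)))) (.a (.b (.a (.b (.l 13) (.a (.l 13) .z)) .z) (.a .z (.l 49))) (.l 49)))) (.a (.b (.a (.b (.l 13) (.a (.l 13) (.b (.l 13) (.a (.l 13)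
.z)))) (.b (.a (.b (.l 13) (.a (.l 13) .z)) .z) (.a .z (.a (.l 34) .z)))) (.a (.b (.a (.b (.l 13) (.a (.l 13) .z)) .z) (.a .z (.l 34))) (.l 34))) (.a
(.a (.b (.a (.b (.l 49) .z) (.l 49)) (.a (.b .z (.l 34)) .z)) (.b (.l 49) (.a (.b (.l 49) .z) (.l 49)))) (.a (.l 49) (.b (.a (.l 49) (.b (.l 49) .z))
.z)))))) (.b (.a (.b (.a (.l 13) (.b (.l 13) (.a (.l 13) (.b (.l 13) (.a (.l 13) (.b (.a (.l 13) .z) .z)))))) (.a (.b (.a (.l 13) (.b (.l 13) (.a (.l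
13) (.b (.l 13) .z)))) (.a (.b (.a (.l 13) (.b (.l 13) .z)) .z) (.b .z (.l 49)))) (.b (.a (.b (.a (.l 13) (.b (.l 13) .z)) .z) .z) (.a .z (.a (.a .z
(.l 51)) (.b .z (.l 51))))))) (.b (.a (.b (.a (.l 13) (.b (.l 13) (.a (.b (.l 13) (.a (.l 13) .z)) (.b (.a (.l 13) .z) .z)))) (.a (.b (.a (.b (.l 13)
(.a (.l 13) .z)) (.b (.a (.l 13) .z) .z)) (.a .z (.l 51))) (.b .z (.a (.l 51) .z)))) (.b (.a (.b (.a (.b (.l 13) (.a (.l 13) .z)) (.b (.a (.l 13) .z)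
.z)) (.a .z (.l 47))) (.b (.a .z (.l 47)) (.l 47))) (.a (.a (.a .z (.l 47)) (.l 47)) (.l 47)))) (.a (.a (.b (.l 51) (.a .z (.b (.l 51) .z))) (.a (.l
51) (.a (.a (.l 51) .z) .z))) (.l 47)))) (.a (.a (.a (.b (.b (.l 49) (.a (.l 49) .z)) (.b .z (.b .z (.a .z (.l 50))))) (.b (.b (.a (.b (.l 49) .z) .z)
(.a .z (.l 121))) (.a (.b .z (.l 50)) .z))) (.a (.b (.a .z (.b .z (.a .z (.l 51)))) (.a (.b .z (.l 51)) (.l 51))) (.l 51))) (.a (.a (.b (.b (.a (.l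
51) .z) (.l 51)) (.l 51)) (.a (.a (.b .z (.l 51)) .z) (.a (.b .z (.l 47)) (.l 47)))) (.l 47)))))) (.a (.b (.b (.a (.l 34) (.a (.b (.a (.l 34) (.b (.a
.z (.b (.l 49) .z)) (.a (.l 34) (.b .z (.l 34))))) (.l 34)) (.b (.a (.b (.a (.b (.l 49) .z) .z) .z) (.b (.a .z (.b .z (.l 50))) (.l 50))) (.a (.b (.a
(.l 34) (.b .z (.l 34))) (.l 34)) (.b (.a .z (.b (.l 50) .z)) (.a (.l 34) .z)))))) (.b (.a (.a (.b (.l 34) (.a (.b (.l 34) (.a .z (.l 34))) (.l 34)))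
(.l 34)) (.b (.a (.l 34) (.b (.l 34) (.a (.l 34) .z))) (.a (.b (.a (.l 34) (.b (.l 34) .z)) (.a (.b (.l 34) .z) (.b .z (.a .z (.l 19))))) (.b (.a (.b
.z (.a .z (.l 19))) (.b (.a .z (.l 19)) (.l 19))) (.l 19))))) (.a (.b (.a (.a .z (.b (.l 34) (.a .z (.l 34)))) (.b (.a (.l 34) (.b (.l 34) .z)) (.a
(.b (.l 34) .z) (.b .z (.a .z (.l 19)))))) (.a (.b (.a (.l 93) .z) (.a .z (.b .z (.l 19)))) (.b (.a (.b .z (.a .z (.l 19))) (.l 19)) (.l 19)))) (.b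
(.a (.b (.a (.b .z (.a .z (.l 19))) (.l 19)) (.l 19)) (.l 19)) (.l 19))))) (.b (.b (.a (.b (.a (.b (.a (.b (.a .z (.l 19)) (.l 19)) (.l 19)) (.l 19))
(.l 19)) (.l 19)) (.l 19)) (.l 19)) (.l 19))) (.b (.b (.b (.a (.a (.a (.l 50) (.a (.b (.a (.l 50) .z) .z) (.b (.a .z (.l 51)) (.l 51)))) (.l 51)) (.a
(.b (.a (.l 51) (.a .z (.l 47))) (.a (.l 51) (.b (.a .z (.l 47)) .z))) (.b (.a (.l 47) (.b (.l 47) .z)) (.a (.b .z (.a (.b .z (.l 19)) (.l 19))) (.b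
(.a (.b .z (.l 19)) (.l 19)) (.l 19)))))) (.a (.b (.a (.a (.a (.l 50) (.a (.l 50) .z)) (.a (.a .z (.l 51)) (.l 51))) (.b (.l 51) (.a (.l 51) .z))) (.a
(.b (.a (.a (.l 50) .z) (.l 51)) .z) (.b (.a .z (.b (.a .z (.l 19)) (.l 19))) (.a (.b (.a .z (.l 19)) (.l 19)) (.l 19))))) (.b (.a (.b (.a .z (.a (.b
.z (.l 19)) (.l 19))) (.a (.b (.a .z (.l 19)) (.l 19)) (.l 19))) (.l 19)) (.l 19)))) (.b (.a (.b (.a (.b (.a .z (.b (.a .z (.l 19)) (.l 19))) (.a (.b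
(.a .z (.l 19)) (.l 19)) (.l 19))) (.l 19)) (.l 19)) (.l 19)) (.l 19))) (.a (.l 19) (.b (.l 19) (.a (.b (.l 19) (.a (.l 19) (.b (.l 19) (.a (.l 19)
(.b (.l 19) .z))))) (.b (.a (.l 19) (.b (.l 19) (.a (.b (.l 19) (.a (.l 19) .z)) (.b (.a (.l 19) .z) .z)))) (.a (.b (.a (.b (.l 19) (.a (.l 19) .z))
(.b (.a (.l 19) .z) .z)) (.a (.b .z (.a .z (.l 20))) (.l 20))) (.b (.a (.b .z (.l 20)) (.l 20)) (.l 20))))))))))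

theorem vQ208 : ev Q208 I5_19 I5_28 = 885601506536490 := by decide +kernel

noncomputable def Q89 : QT :=
(.b (.b (.b (.l 17) (.b (.l 17) (.b (.l 17) (.a (.l 17) (.b (.l 17) (.a (.b (.l 17) (.a (.l 17) (.a (.l 17) (.a (.l 17) .z)))) (.b (.a (.l 17) .z) (.a
.z (.a (.a .z (.l 20)) (.l 20)))))))))) (.b (.b (.b (.a (.b (.a (.l 17) (.b (.l 17) (.a (.l 17) (.a (.l 17) .z)))) (.a (.b (.l 17) (.a (.l 17) .z))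
(.b (.a (.a (.a (.l 17) .z) .z) (.a .z (.a .z (.l 20)))) (.a (.a .z (.l 20)) (.l 20))))) (.b (.a (.b (.a (.a (.l 17) .z) .z) (.a (.a .z (.a .z (.l
20))) (.l 20))) (.l 20)) (.l 20))) (.a (.b (.a (.b (.a .z (.a (.a .z (.l 20)) (.l 20))) (.l 20)) (.l 20)) (.a (.a (.a (.a (.b (.l 20) .z) (.l 20)) (.l
20)) (.l 20)) (.l 20))) (.l 20))) (.a (.a (.a (.b (.a (.b (.a (.b .z (.l 22)) .z) (.l 22)) (.b (.a (.b (.l 20) .z) (.l 20)) (.a (.b .z (.l 22)) .z)))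
(.l 22)) (.b (.a (.b (.l 20) (.a (.b (.l 20) .z) (.l 20))) (.l 20)) (.a (.b (.a (.b .z (.l 22)) .z) (.l 22)) (.b (.a (.b (.l 20) .z) (.l 20)) (.a (.b
.z (.l 22)) .z))))) (.a (.b (.l 20) (.a (.b (.l 20) (.a (.b (.l 20) .z) (.l 20))) (.l 20))) (.l 20))) (.l 20))) (.a (.a (.b (.l 22) (.a (.l 22) (.b
(.l 22) (.a (.l 22) (.b (.l 22) (.a (.l 22) .z)))))) (.b (.a (.b (.a (.b (.a .z (.b (.l 20) .z)) (.a (.l 22) (.b .z (.l 22)))) (.b (.l 20) (.a .z (.b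
(.l 20) .z)))) (.a (.l 22) (.b (.a (.l 22) (.b .z (.l 22))) (.l 22)))) (.b (.l 20) (.a (.b (.a .z (.b (.l 20) .z)) (.a (.b (.l 22) .z) .z)) (.b (.l
20) (.a .z (.b (.l 20) .z)))))) (.a (.b (.a (.b (.l 22) (.a (.l 22) (.b (.l 22) .z))) (.b (.a (.l 22) .z) (.a .z (.b .z (.l 25))))) (.a (.b (.a (.b
(.l 22) .z) .z) (.a (.b .z (.l 25)) (.l 25))) (.l 25))) (.b (.a (.b (.a (.b .z (.l 25)) (.l 25)) (.l 25)) (.b (.a (.l 25) .z) (.l 25))) (.l 25)))))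
(.a (.b (.l 20) (.a (.b (.a (.b (.a (.b (.l 20) .z) (.l 20)) (.a (.b .z (.l 25)) .z)) (.b (.l 20) (.a (.b (.l 20) .z) (.l 20)))) (.a (.l 25) (.b (.a
(.b .z (.l 25)) .z) (.l 25)))) (.b (.l 20) (.a (.b (.a (.b (.l 20) .z) (.l 20)) (.a .z (.b (.l 20) .z))) (.l 20))))) (.l 20))))) (.b (.a (.b (.b (.a
(.a (.b (.l 22) (.a (.b (.l 22) (.a (.l 22) (.b (.l 22) .z))) (.b (.a (.l 22) .z) (.a .z (.b .z (.l 25)))))) (.b (.a (.b (.a (.l 22) (.b (.l 22) .z))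
(.a (.b (.l 22) .z) .z)) (.b (.a .z (.b .z (.l 25))) (.l 25))) (.a (.b (.a (.b .z (.l 25)) (.l 25)) (.l 25)) (.l 25)))) (.l 25)) (.a (.b (.a (.b (.a
.z (.l 25)) (.a (.b (.a (.l 22) .z) (.l 22)) (.b (.a .z (.l 25)) .z))) (.l 25)) (.a (.b (.a (.l 22) (.b (.a (.l 22) .z) (.l 22))) (.l 22)) (.b (.a (.b
(.a .z (.l 25)) .z) (.l 25)) (.a (.b (.a (.l 22) .z) (.l 22)) (.b (.a .z (.l 25)) .z))))) (.l 25))) (.a (.b (.b (.a (.l 22) (.b (.a (.l 22) (.b (.a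
(.l 22) .z) (.l 22))) (.l 22))) (.l 22)) (.l 22)) (.b (.a (.b (.a (.b (.a .z (.b (.l 25) .z)) (.a (.l 22) (.b .z (.l 22)))) (.b (.l 25) (.a .z (.b (.l
25) .z)))) (.a (.l 22) (.b (.a (.l 22) (.b .z (.l 22))) (.l 22)))) (.b (.l 25) (.a (.b (.a .z (.b (.l 25) .z)) (.a (.l 22) (.b .z (.l 22)))) (.b (.l
25) (.a .z (.b (.l 25) .z)))))) (.a (.l 22) (.b (.a (.l 22) (.b (.a (.l 22) (.b .z (.l 22))) (.l 22))) (.l 22)))))) (.b (.a (.b (.a (.l 25) (.b (.a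
(.b (.a (.l 25) (.b .z (.l 25))) (.l 25)) (.b (.a .z (.b (.l 20) .z)) (.a (.l 25) (.b .z (.l 25))))) (.l 25))) (.l 25)) (.b (.a (.b (.a (.b (.l 20)
(.a .z (.l 20))) (.l 20)) (.a (.b (.a (.b .z (.l 25)) .z) (.l 25)) (.b (.a (.b (.l 20) .z) (.l 20)) (.a (.b .z (.l 25)) .z)))) (.l 20)) (.a (.b (.a
(.l 25) (.b (.a (.l 25) (.b .z (.l 25))) (.l 25))) (.l 25)) (.b (.a (.b (.a .z (.b (.l 20) .z)) (.a (.l 25) (.b .z (.l 25)))) (.b (.l 20) (.a .z (.l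
20)))) (.a (.l 25) (.b (.a (.b .z (.l 25)) .z) (.l 25))))))) (.a (.b (.l 25) (.a (.b (.a (.b (.a .z (.b (.l 25) .z)) (.a (.l 22) .z)) (.b (.l 25) (.a
(.b (.l 25) .z) (.l 25)))) (.a (.l 22) (.b (.a (.b .z (.l 22)) .z) (.l 22)))) (.b (.l 25) (.a (.b (.a (.b (.l 25) .z) (.l 25)) (.a (.b .z (.l 22))
.z)) (.b (.l 25) (.a (.b (.l 25) .z) (.b (.l 25) .z))))))) (.b (.a (.l 25) (.b (.l 25) (.a (.l 25) (.b (.a (.l 25) (.b (.l 25) .z)) (.a (.b (.l 25)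
.z) .z))))) (.a (.b (.a (.l 25) (.b (.l 25) (.a (.l 25) .z))) (.a (.b (.a (.l 25) (.b (.l 25) .z)) (.a .z (.b .z (.l 23)))) (.b (.a .z (.b .z (.l
23))) (.l 23)))) (.b (.a (.b (.a (.b (.l 25) .z) .z) (.a (.b .z (.l 23)) (.l 23))) (.b (.a (.b .z (.l 23)) (.l 23)) (.l 23))) (.b (.l 23) (.b (.l 23)
.z)))))))) (.a (.b (.b (.b (.b (.l 22) (.a (.b (.a (.a (.a .z (.l 22)) (.l 22)) (.l 22)) (.a (.a .z (.a .z (.l 22))) .z)) (.b (.a (.a (.l 22) (.a (.l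
22) .z)) .z) (.a .z (.l 27))))) (.b (.a (.b (.a .z (.a (.a .z (.l 27)) (.l 27))) (.l 27)) (.l 27)) (.l 27))) (.l 27)) (.l 27)) (.b (.a (.b (.a (.b (.b
(.b (.l 22) (.a (.a (.l 22) .z) .z)) (.b (.a .z (.l 27)) (.l 27))) (.l 27)) (.b (.a (.b (.b (.l 22) .z) (.l 27)) (.b .z (.l 27))) (.l 27))) (.l 27))
(.b (.a (.b (.a (.b (.a .z (.b .z (.l 26))) (.a (.b .z (.l 27)) .z)) (.b (.b .z (.l 26)) (.l 26))) (.a (.b (.a (.l 27) (.b .z (.l 27))) (.l 27)) (.b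
(.a .z (.b (.l 26) .z)) (.a (.l 27) (.b .z (.l 27)))))) (.b (.b (.b (.a (.a .z (.l 26)) (.l 26)) (.l 26)) (.l 26)) (.a (.b (.l 26) (.a .z (.b (.l 26)
.z))) (.l 26)))) (.a (.l 27) (.b (.a (.b (.a (.l 27) (.b .z (.l 27))) (.l 27)) (.b (.a .z (.l 26)) (.a (.b .z (.l 27)) .z))) (.l 27))))) (.l 27)))))

theorem vQ89 : ev Q89 I5_7 I5_29 = 913854882693126 := by decide +kernel

noncomputable def Q59 : QT :=
(.a (.b (.a (.a (.a (.b (.a (.b (.b (.b (.l 167) .z) .z) .z) .z) (.a .z (.b .z (.a .z (.b (.l 208) .z))))) .z) (.b (.b (.a (.b .z (.l 144)) .z) .z)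
.z)) .z) (.a (.a (.a (.a (.b (.a .z (.b (.a (.b .z (.l 105)) (.l 105)) .z)) .z) (.b (.b (.b .z (.a (.l 105) (.b .z (.l 105)))) (.b (.b (.b .z (.l
105)) .z) .z)) .z)) (.b (.b .z (.b .z (.a .z (.b .z (.b .z (.l 110)))))) (.b (.b (.a .z (.b (.l 110) (.a .z (.l 110)))) .z) .z))) (.b (.b .z (.b (.a
.z (.b (.a .z (.b .z (.l 110))) (.l 110))) (.a (.b (.a .z (.l 110)) (.l 110)) (.l 110)))) (.a (.b (.a (.b (.l 110) (.a (.b (.l 110) .z) (.l 110))) (.l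
110)) (.a .z (.b (.a (.b (.l 110) .z) (.l 110)) .z))) (.l 110)))) (.a (.b (.b (.b .z (.a (.b .z (.a (.b .z (.l 110)) (.a (.l 110) .z))) .z)) (.a (.a
(.l 110) (.a (.l 110) .z)) .z)) (.a (.b (.a (.l 110) (.a (.l 110) .z)) (.a (.b (.l 110) (.a (.b (.l 110) .z) .z)) (.b (.a (.b (.l 110) .z) .z) .z)))
.z)) .z))) (.a (.b (.a .z (.b (.b (.a .z (.b .z (.a (.b .z (.a .z (.l 78))) (.a (.a (.l 78) .z) .z)))) (.a (.b (.a .z (.a .z (.b .z (.l 78)))) (.a .z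
(.b (.b (.l 78) .z) .z))) (.b (.b (.a (.l 78) .z) (.b (.a (.l 78) .z) (.a (.l 78) .z))) .z))) .z)) (.a .z (.b .z (.a (.a .z (.b .z (.a .z (.b .z (.l
158))))) (.b (.a (.b (.a .z (.l 78)) .z) (.b .z (.b (.b .z (.l 68)) (.l 68)))) .z))))) (.b .z (.a (.b .z (.b (.b (.a (.b .z (.a .z (.l 68))) (.b (.b
.z (.b .z (.l 68))) (.l 68))) (.l 68)) (.a (.b (.a (.b (.l 68) .z) (.l 68)) .z) (.b (.l 68) (.a (.b (.l 68) (.a .z (.l 68))) (.l 68)))))) (.b .z (.b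
(.b (.b .z (.a (.l 68) (.b .z (.a (.l 68) .z)))) (.l 68)) (.l 68)))))))

theorem vQ59 : ev Q59 I4_2 I5_6 = 225066072999098 := by decide +kernel

noncomputable def Q1 : QT :=
(.b (.a (.b (.b .z (.a (.b .z (.b (.a (.b (.b .z (.a (.l 60) (.a (.l 60) .z))) (.l 60)) (.a (.b .z (.a (.b .z (.l 60)) .z)) .z)) (.a (.l 60) (.a (.l
60) (.b .z (.a (.l 60) (.b .z (.l 60)))))))) .z)) (.b (.a (.l 60) (.a (.b (.a (.b (.a (.b (.b .z (.l 60)) (.l 60)) (.b .z (.a (.l 60) .z))) (.l 60))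
(.b .z (.a (.b .z (.l 60)) .z))) (.a (.l 60) (.b (.a (.l 60) (.b (.a (.l 60) .z) (.l 60))) (.l 60)))) (.b .z (.a (.b (.a (.b .z (.a (.l 60) .z)) .z)
(.a (.l 60) (.b .z (.a (.l 60) .z)))) .z)))) (.a (.l 60) (.a (.l 60) (.b (.a (.l 60) (.a (.b (.b .z (.a (.l 60) .z)) (.l 60)) (.b .z (.a (.b .z (.l
60)) .z)))) (.l 60)))))) (.a (.b .z (.a (.b .z (.a (.b .z (.a (.b (.a (.b .z (.l 60)) .z) (.l 60)) (.b .z (.a (.b .z (.l 60)) .z)))) .z)) .z)) .z))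
(.b (.a (.a (.b (.b (.l 60) (.a (.b (.l 60) (.b (.a .z (.b (.a .z (.l 60)) .z)) .z)) (.b (.l 60) (.a (.b (.l 60) (.a .z (.b (.l 60) .z))) (.l 60)))))
(.b (.a .z (.b (.a .z (.a (.b (.a .z (.l 60)) .z) (.b (.l 60) (.a .z (.l 60))))) .z)) .z)) (.a (.b (.l 60) (.b (.a (.b (.l 60) (.a (.b (.a .z (.l 60))
.z) (.l 60))) (.l 60)) (.a (.b (.a .z (.b (.a .z (.l 60)) .z)) .z) (.b (.a (.b (.l 60) (.a .z (.l 60))) (.l 60)) (.a .z (.b (.l 60) (.a .z (.l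
60)))))))) (.l 60))) (.a (.a (.b (.a (.b (.a (.l 60) (.b (.a (.l 60) (.b .z (.l 60))) (.l 60))) (.l 60)) (.b (.a (.b .z (.a (.l 60) .z)) .z) (.a (.l
60) (.b (.a (.b .z (.l 60)) .z) (.a (.b (.l 60) .z) .z))))) (.a (.b (.l 60) (.a (.b (.l 60) (.a (.l 60) (.b (.l 60) .z))) (.b (.a (.b (.l 60) .z) .z)
.z))) (.b (.a (.b (.a (.l 60) (.b (.l 60) .z)) .z) .z) .z))) .z) .z)) (.b (.a (.a .z (.a .z (.a (.b (.a (.b (.a (.b (.l 60) .z) (.l 60)) .z) (.b (.l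
60) (.a (.b (.l 60) .z) (.l 60)))) (.a .z (.b (.a .z (.b (.l 60) .z)) .z))) (.b (.a (.l 60) (.b (.l 60) (.a (.b (.l 60) .z) .z))) (.a (.b (.a (.b (.l
60) .z) .z) .z) .z))))) .z) (.a .z (.a .z (.b (.a .z (.b (.a .z (.a .z (.l 154))) .z)) (.a .z (.b .z (.a (.b .z (.l 176)) .z)))))))))

theorem vQ1 : ev Q1 I4_0 I5_4 = 438211603752167 := by decide +kernel

noncomputable def Q111 : QT :=
(.b (.a (.l 10) (.a (.a (.l 10) (.a (.a (.l 10) (.a (.a (.l 10) .z) (.l 81))) (.l 81))) (.b (.l 81) (.a (.l 81) (.b (.l 81) (.a (.l 81) (.b (.l 81)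
(.a (.b (.l 81) .z) .z)))))))) (.a (.l 10) (.b (.a (.a (.l 10) (.a (.a (.l 10) (.a (.a (.l 10) .z) (.l 81))) (.l 81))) (.b (.a (.l 81) (.a (.b (.a (.l
81) (.b (.l 81) .z)) (.a (.b (.l 81) .z) .z)) (.b (.a .z (.l 91)) (.l 91)))) (.a (.a (.l 81) (.b (.a (.l 81) .z) (.a .z (.b .z (.l 91))))) (.b (.a (.a
(.b .z (.l 91)) (.l 91)) (.l 91)) (.a (.l 91) (.b (.a (.l 91) .z) .z)))))) (.a (.b (.a (.l 10) (.a (.a (.l 10) (.a (.a (.l 10) .z) (.l 81))) (.b (.l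
81) (.a (.l 81) (.b (.l 81) .z))))) (.a (.l 10) (.b (.a (.a (.l 10) (.a (.a (.l 10) .z) (.l 81))) (.b (.a (.l 81) .z) .z)) (.a (.b (.a (.l 10) (.a (.a
(.l 10) .z) .z)) (.a (.l 10) (.b (.a (.a (.l 10) .z) .z) .z))) (.b .z (.a .z (.b .z (.l 41)))))))) (.b (.a (.b (.a (.a (.b (.l 81) .z) .z) (.a (.b .z
(.l 91)) (.l 91))) (.a (.b (.a .z (.l 91)) .z) (.b (.a (.l 91) .z) .z))) (.b (.a (.b (.a (.l 91) .z) .z) (.b (.a .z (.l 76)) (.l 76))) (.a (.b (.a .z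
(.l 76)) (.l 76)) (.b (.l 76) .z)))) (.a (.b (.a .z (.b (.l 76) (.b .z (.a .z (.l 41))))) (.b (.a (.b .z (.a .z (.l 41))) (.l 41)) (.l 41))) (.b (.b
(.a .z (.b (.a .z (.l 41)) (.l 41))) (.a (.b (.a .z (.l 41)) (.l 41)) (.l 41))) (.l 41))))))))

theorem vQ111 : ev Q111 I5_10 I5_15 = 917788003239878 := by decide +kernel

noncomputable def Q32 : QT :=
(.b (.a (.b (.a (.l 12) (.b (.a (.b (.a (.l 12) (.b (.a (.b (.a (.l 12) (.b .z (.l 12))) (.l 12)) (.b .z (.a (.l 12) (.b .z (.l 12))))) (.l 12))) (.l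
12)) (.b (.a (.b (.a (.b (.l 37) .z) (.l 37)) (.a (.b (.a (.l 12) .z) (.l 12)) (.b .z (.a (.b .z (.l 12)) .z)))) (.b (.l 37) (.a (.b (.l 37) .z) (.l
37)))) (.a (.l 12) (.b (.a (.b (.a (.b .z (.l 12)) .z) (.a (.l 12) (.b .z (.l 12)))) (.b (.l 37) .z)) (.a (.l 12) (.b (.a (.l 12) (.b .z (.l 12))) (.l
12))))))) (.l 12))) (.l 12)) (.b (.a (.b (.a (.b (.l 37) (.a (.b (.l 37) (.a (.b .z (.a (.b .z (.l 12)) .z)) (.b (.l 37) .z))) (.l 37))) (.l 37)) (.a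
(.b (.a (.b (.a (.l 12) (.b (.a (.b .z (.l 12)) .z) (.a (.l 12) (.b .z (.l 12))))) (.l 12)) (.b (.a (.b (.l 37) .z) (.l 37)) (.a (.b (.a (.l 12) .z)
(.l 12)) (.b .z (.a (.b .z (.l 12)) .z))))) (.l 12)) (.b (.a (.b (.l 37) (.a (.b (.l 37) .z) (.l 37))) (.l 37)) (.a (.b (.a (.b .z (.a (.l 12) (.b .z
(.l 12)))) (.b (.l 37) .z)) (.a (.l 12) (.b (.a (.b .z (.l 12)) .z) (.l 12)))) (.b (.l 37) (.a .z (.l 37))))))) (.l 37)) (.a (.b (.a (.l 12) (.b (.a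
(.l 12) (.b (.a (.b (.a (.l 12) (.b .z (.l 12))) (.l 12)) (.b .z (.a (.b .z (.l 12)) .z))) (.l 12))) (.l 12))) (.l 12)) (.b (.a (.b (.a (.b (.a (.b
(.l 37) .z) (.l 37)) (.a (.b .z (.a (.l 12) (.b .z (.l 12)))) (.b (.l 37) .z))) (.l 37)) (.a (.b (.a (.l 12) (.b (.a (.b .z (.l 12)) .z) (.l 12))) (.l
12)) (.b (.a .z (.l 37)) (.a (.b (.a (.l 12) .z) (.l 12)) (.b .z (.a (.b .z (.l 12)) .z)))))) (.l 37)) (.a (.b (.a (.l 12) (.b (.a (.l 12) (.b (.a (.l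
12) (.b .z (.l 12))) (.l 12))) (.l 12))) (.l 12)) (.b (.a (.b (.a (.b .z (.a (.l 12) .z)) (.b (.l 37) .z)) (.a (.l 12) (.b .z (.a (.l 12) (.b .z (.l
12)))))) (.b (.l 37) (.a (.b (.l 37) .z) (.l 37)))) (.a (.l 12) (.b (.a (.b (.a (.b .z (.l 12)) .z) (.a (.l 12) (.b .z (.l 12)))) (.b (.l 37) .z)) (.a
(.l 12) (.b (.a (.l 12) .z) (.l 12))))))))))) (.l 12))

theorem vQ32 : ev Q32 I5_2 I5_22 = 958081042423618 := by decide +kernel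

end Pool.Agent.Helper64.SPW.Dat
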