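import Pool.Agent.Helper11.SP.FcTwo
import Pool.Agent.Helper11.SP.OmOpen
import Pool.Agent.Helper11.SP.EeProd

/-!
Codes on the image of a box of traces (degree 6).
-/

open Polynomial

namespace Pool.Agent.Helper64.SPW

open Pool.Agent.Helper11.SP

theorem Reg_open' {g : ℕ} (hg : 1 ≤ g) : IsOpen (Reg g) := by
  have : Reg g = Om g ∩ ⋃ n : ℤ[X], {x : Fin g → ℝ | Code x n} := by
    ext x
    simp [Reg]
  rw [this]
  exact (Om_open g hg).inter (isOpen_iUnion fun n => code_open hg n)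

lemma ee_two (a b : ℝ) : ee ![a, b] = ![-(a + b), 2 + a * b] := by
  have hprod : (∏ i, (X ^ 2 - C ((![a, b] : Fin 2 → ℝ) i) * X + 1) : ℝ[X]) =
      1 + C (-(a + b)) * X ^ 1 + C (2 + a * b) * X ^ 2 + C (-(a + b)) * X ^ 3 + X ^ 4 := by
    rw [Fin.prod_univ_two]
    simp only [Matrix.cons_val_zero, Matrix.cons_val_one, C_neg, C_add, C_mul]
    have : (C (2 : ℝ) : ℝ[X]) = 2 := rfl
    rw [this]
    ring
  have key : ∀ A B : ℝ, (∏ i, (X ^ 2 - C ((![a, b] : Fin 2 → ℝ) i) * X + 1) : ℝ[X]) =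
      1 + C A * X ^ 1 + C B * X ^ 2 + C A * X ^ 3 + X ^ 4 → ee ![a, b] = ![A, B] := by
    intro A B h
    funext j
    unfold ee
    rw [h]
    fin_cases j
    · simp [coeff_X_pow, coeff_one]
    · simp [coeff_X_pow, coeff_one]
  exact key _ _ hprod

lemma bi_pos (P E Q u1 v1 u2 v2 x y : ℝ) (hx1 : u1 < x) (hx2 : x < v1) (hy1 : u2 < y) (hy2 : y < v2)
    (h1 : 0 ≤ P - (u1 + u2) * E + (2 + u1 * u2) * Q) (h2 : 0 ≤ P - (u1 + v2) * E + (2 + u1 * v2) * Q)
    (h3 : 0 ≤ P - (v1 + u2) * E + (2 + v1 * u2) * Q) (h4 : 0 ≤ P - (v1 + v2) * E + (2 + v1 * v2) * Q) :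
    0 < P - (x + y) * E + (2 + x * y) * Q ∨ (P = 0 ∧ E = 0 ∧ Q = 0) := by
  have hid : (P - (x + y) * E + (2 + x * y) * Q) * ((v1 - u1) * (v2 - u2)) =
      (v1 - x) * (v2 - y) * (P - (u1 + u2) * E + (2 + u1 * u2) * Q) +
      (v1 - x) * (y - u2) * (P - (u1 + v2) * E + (2 + u1 * v2) * Q) +
      (x - u1) * (v2 - y) * (P - (v1 + u2) * E + (2 + v1 * u2) * Q) +
      (x - u1) * (y - u2) * (P - (v1 + v2) * E + (2 + v1 * v2) * Q) := by ring
  set f1 := P - (u1 + u2) * E + (2 + u1 * u2) * Q with hf1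
  set f2 := P - (u1 + v2) * E + (2 + u1 * v2) * Q with hf2
  set f3 := P - (v1 + u2) * E + (2 + v1 * u2) * Q with hf3
  set f4 := P - (v1 + v2) * E + (2 + v1 * v2) * Q with hf4
  have w1 : 0 < (v1 - x) * (v2 - y) := mul_pos (by linarith) (by linarith)
  have w2 : 0 < (v1 - x) * (y - u2) := mul_pos (by linarith) (by linarith)
  have w3 : 0 < (x - u1) * (v2 - y) := mul_pos (by linarith) (by linarith)
  have w4 : 0 < (x - u1) * (y - u2) := mul_pos (by linarith) (by linarith)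
  have wv : 0 < (v1 - u1) * (v2 - u2) := mul_pos (by linarith) (by linarith)
  have g1 := mul_nonneg w1.le h1
  have g2 := mul_nonneg w2.le h2
  have g3 := mul_nonneg w3.le h3
  have g4 := mul_nonneg w4.le h4
  rcases lt_or_ge 0 (P - (x + y) * E + (2 + x * y) * Q) with h | h
  · exact Or.inl h
  · right
    have h0 : (P - (x + y) * E + (2 + x * y) * Q) * ((v1 - u1) * (v2 - u2)) ≤ 0 :=
      mul_nonpos_of_nonpos_of_nonneg h wv.le
    rw [hid] at h0
    have z1 : f1 = 0 := by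
      have : (v1 - x) * (v2 - y) * f1 = 0 := by linarith
      rcases mul_eq_zero.1 this with h | h
      · exact absurd h w1.ne'
      · exact h
    have z2 : f2 = 0 := by
      have : (v1 - x) * (y - u2) * f2 = 0 := by linarith
      rcases mul_eq_zero.1 this with h | h
      · exact absurd h w2.ne'
      · exact h
    have z3 : f3 = 0 := by
      have : (x - u1) * (v2 - y) * f3 = 0 := by linarith
      rcases mul_eq_zero.1 this with h | h
      · exact absurd h w3.ne'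
      · exact h
    have z4 : f4 = 0 := by
      have : (x - u1) * (y - u2) * f4 = 0 := by linarith
      rcases mul_eq_zero.1 this with h | h
      · exact absurd h w4.ne'
      · exact h
    have d1 : (v1 - u1) * (-E + u2 * Q) = 0 := by
      have : (v1 - u1) * (-E + u2 * Q) = f3 - f1 := by rw [hf3, hf1]; ring
      rw [this, z1, z3, sub_zero]
    have d2 : (v1 - u1) * (-E + v2 * Q) = 0 := by
      have : (v1 - u1) * (-E + v2 * Q) = f4 - f2 := by rw [hf4, hf2]; ring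
      rw [this, z2, z4, sub_zero]
    have hv1 : v1 - u1 ≠ 0 := by linarith [hx1, hx2] |> fun (h : 0 < v1 - u1) => h.ne'
    have e1 : -E + u2 * Q = 0 := (mul_eq_zero.1 d1).resolve_left hv1
    have e2 : -E + v2 * Q = 0 := (mul_eq_zero.1 d2).resolve_left hv1
    have hQ : Q = 0 := by
      have : (v2 - u2) * Q = 0 := by linarith
      rcases mul_eq_zero.1 this with h | h
      · linarith
      · exact h
    have hE : E = 0 := by
      rw [hQ] at e1
      linarith
    refine ⟨?_, hE, hQ⟩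
    rw [hf1, hE, hQ] at z1
    linarith

/-- If `n` passes the closed tests at the four corners of a box of traces and the open test at some point, then it is the
code of every point of the open box. -/
theorem code_of_box (n : ℤ[X]) (hn : n.Monic) (h0 : n.coeff 0 = 1) (u1 v1 u2 v2 : ℝ)
    (hc : ∀ i, 1 ≤ i → i < n.natDegree + 4 → ∀ x y, (x = u1 ∨ x = v1) → (y = u2 ∨ y = v2) →
      0 ≤ Fc ![-(x + y), 2 + x * y] n i ∧ Fc ![-(x + y), 2 + x * y] n i ≤ 1)
    (hs : ∀ i, 1 ≤ i → i < n.natDegree + 4 → ∃ a b : ℝ, 0 < Fc ![a, b] n i)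
    (x y : ℝ) (hx1 : u1 < x) (hx2 : x < v1) (hy1 : u2 < y) (hy2 : y < v2) :
    Code ![-(x + y), 2 + x * y] n := by
  refine ⟨hn, h0, fun i hi hi2 => ?_⟩
  have hi2' : i < n.natDegree + 4 := by omega
  obtain ⟨P, E, Q, hF⟩ : ∃ P E Q : ℝ, ∀ a b : ℝ, Fc ![a, b] n i = P + a * E + b * Q := by
    refine ⟨(n.coeff i : ℝ) + (if 4 ≤ i then (n.coeff (i - 4) : ℝ) else 0),
      (if 1 ≤ i then (n.coeff (i - 1) : ℝ) else 0) + (if 3 ≤ i then (n.coeff (i - 3) : ℝ) else 0),
      (if 2 ≤ i then (n.coeff (i - 2) : ℝ) else 0), fun a b => ?_⟩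
    rw [Fc_two]
    split_ifs <;> ring
  have hf : ∀ s t : ℝ, Fc ![-(s + t), 2 + s * t] n i = P - (s + t) * E + (2 + s * t) * Q := by
    intro s t
    rw [hF]
    ring
  have hci := hc i hi hi2'
  obtain ⟨a, b, hab⟩ := hs i hi hi2'
  have c1 := hci u1 u2 (Or.inl rfl) (Or.inl rfl)
  have c2 := hci u1 v2 (Or.inl rfl) (Or.inr rfl)
  have c3 := hci v1 u2 (Or.inr rfl) (Or.inl rfl)
  have c4 := hci v1 v2 (Or.inr rfl) (Or.inr rfl)
  rw [hf] at c1 c2 c3 c4
  rcases bi_pos (1 - P) (-E) (-Q) u1 v1 u2 v2 x y hx1 hx2 hy1 hy2 (by linarith [c1.2]) (by linarith [c2.2])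
    (by linarith [c3.2]) (by linarith [c4.2]) with hp | ⟨hP, hE, hQ⟩
  · rcases bi_pos P E Q u1 v1 u2 v2 x y hx1 hx2 hy1 hy2 c1.1 c2.1 c3.1 c4.1 with hp' | ⟨hP, hE, hQ⟩
    · left
      rw [hf]
      exact ⟨hp', by linarith⟩
    · exfalso
      rw [hF, hP, hE, hQ] at hab
      simp at hab
  · right
    intro z
    have hz : z = ![z 0, z 1] := by
      funext j
      fin_cases j <;> rfl
    rw [hz, hF]
    have e1 : P = 1 := by linarith
    have e2 : E = 0 := by linarith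
    have e3 : Q = 0 := by linarith
    rw [e1, e2, e3]
    ring

end Pool.Agent.Helper64.SPW
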