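import Pool.Agent.Helper11.SP.FcThree
import Pool.Agent.Helper11.SP.EeProd

/-!
Codes on the image of a box of three traces (degree 8).
-/

open Polynomial

namespace Pool.Agent.Helper64.SPW

open Pool.Agent.Helper11.SP

lemma ee_three (a b c : ℝ) :
    ee ![a, b, c] = ![-(a + b + c), 3 + (a * b + a * c + b * c), -(2 * (a + b + c) + a * b * c)] := by
  have hprod : (∏ i, (X ^ 2 - C ((![a, b, c] : Fin 3 → ℝ) i) * X + 1) : ℝ[X]) =
      1 + C (-(a + b + c)) * X ^ 1 + C (3 + (a * b + a * c + b * c)) * X ^ 2 + C (-(2 * (a + b + c) + a * b * c)) * X ^ 3 +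
        C (3 + (a * b + a * c + b * c)) * X ^ 4 + C (-(a + b + c)) * X ^ 5 + X ^ 6 := by
    rw [Fin.prod_univ_three]
    simp only [Matrix.cons_val_zero, Matrix.cons_val_one, Matrix.cons_val_two, Matrix.head_cons,
        Matrix.tail_cons, Matrix.cons_val, C_neg, C_add, C_mul]
    have h2 : (C (2 : ℝ) : ℝ[X]) = 2 := rfl
    have h3 : (C (3 : ℝ) : ℝ[X]) = 3 := rfl
    rw [h2, h3]
    ring
  have key : ∀ A B E : ℝ, (∏ i, (X ^ 2 - C ((![a, b, c] : Fin 3 → ℝ) i) * X + 1) : ℝ[X]) =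
      1 + C A * X ^ 1 + C B * X ^ 2 + C E * X ^ 3 + C B * X ^ 4 + C A * X ^ 5 + X ^ 6 → ee ![a, b, c] = ![A, B, E] := by
    intro A B E h
    funext j
    unfold ee
    rw [h]
    fin_cases j
    · simp [coeff_X_pow, coeff_one]
    · simp [coeff_X_pow, coeff_one]
    · simp [coeff_X_pow, coeff_one]
  exact key _ _ _ hprod

/-- One variable: an affine function nonnegative at the ends of an interval is nonnegative inside, and zero only if it is zero
at both ends. -/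
lemma aff_pos (g0 gu gv u v x : ℝ) (hx1 : u < x) (hx2 : x < v) (hg : g0 * (v - u) = (v - x) * gu + (x - u) * gv)
    (hu : 0 ≤ gu) (hv : 0 ≤ gv) : 0 ≤ g0 ∧ (g0 = 0 → gu = 0 ∧ gv = 0) := by
  have h1 : 0 < v - x := by linarith
  have h2 : 0 < x - u := by linarith
  have h3 : 0 < v - u := by linarith
  have h4 := mul_nonneg h1.le hu
  have h5 := mul_nonneg h2.le hv
  constructor
  · by_contra hc
    push Not at hc
    have := mul_neg_of_neg_of_pos hc h3
    linarith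
  · intro h0
    rw [h0, zero_mul] at hg
    have e1 : (v - x) * gu = 0 := by linarith
    have e2 : (x - u) * gv = 0 := by linarith
    exact ⟨(mul_eq_zero.1 e1).resolve_left h1.ne', (mul_eq_zero.1 e2).resolve_left h2.ne'⟩

/-- The function of the traces. -/
def ff (P E H Q x y z : ℝ) : ℝ :=
  P - (x + y + z) * E + (3 + (x * y + x * z + y * z)) * H - (2 * (x + y + z) + x * y * z) * Q

lemma tri_pos (P E H Q u1 v1 u2 v2 u3 v3 x y z : ℝ) (hx1 : u1 < x) (hx2 : x < v1) (hy1 : u2 < y) (hy2 : y < v2)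
    (hz1 : u3 < z) (hz2 : z < v3)
    (hc : ∀ a b c, (a = u1 ∨ a = v1) → (b = u2 ∨ b = v2) → (c = u3 ∨ c = v3) → 0 ≤ ff P E H Q a b c) :
    0 < ff P E H Q x y z ∨ (P = 0 ∧ E = 0 ∧ H = 0 ∧ Q = 0) := by
  have hx : ∀ b c, ff P E H Q x b c * (v1 - u1) = (v1 - x) * ff P E H Q u1 b c + (x - u1) * ff P E H Q v1 b c := by
    intro b c
    unfold ff
    ring
  have hy : ∀ a c, ff P E H Q a y c * (v2 - u2) = (v2 - y) * ff P E H Q a u2 c + (y - u2) * ff P E H Q a v2 c := by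
    intro a c
    unfold ff
    ring
  have hz : ∀ a b, ff P E H Q a b z * (v3 - u3) = (v3 - z) * ff P E H Q a b u3 + (z - u3) * ff P E H Q a b v3 := by
    intro a b
    unfold ff
    ring
  have s1 : ∀ a b, (a = u1 ∨ a = v1) → (b = u2 ∨ b = v2) → 0 ≤ ff P E H Q a b z ∧
      (ff P E H Q a b z = 0 → ff P E H Q a b u3 = 0 ∧ ff P E H Q a b v3 = 0) := by
    intro a b ha hb
    exact aff_pos _ _ _ u3 v3 z hz1 hz2 (hz a b) (hc a b u3 ha hb (Or.inl rfl)) (hc a b v3 ha hb (Or.inr rfl))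
  have s2 : ∀ a, (a = u1 ∨ a = v1) → 0 ≤ ff P E H Q a y z ∧
      (ff P E H Q a y z = 0 → ff P E H Q a u2 z = 0 ∧ ff P E H Q a v2 z = 0) := by
    intro a ha
    exact aff_pos _ _ _ u2 v2 y hy1 hy2 (hy a z) (s1 a u2 ha (Or.inl rfl)).1 (s1 a v2 ha (Or.inr rfl)).1
  have s3 := aff_pos _ _ _ u1 v1 x hx1 hx2 (hx y z) (s2 u1 (Or.inl rfl)).1 (s2 v1 (Or.inr rfl)).1
  rcases s3.1.eq_or_lt with h | h
  · right
    obtain ⟨e1, e2⟩ := s3.2 h.symm
    obtain ⟨e3, e4⟩ := (s2 u1 (Or.inl rfl)).2 e1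
    obtain ⟨e5, e6⟩ := (s2 v1 (Or.inr rfl)).2 e2
    obtain ⟨c1, c2⟩ := (s1 u1 u2 (Or.inl rfl) (Or.inl rfl)).2 e3
    obtain ⟨c3, c4⟩ := (s1 u1 v2 (Or.inl rfl) (Or.inr rfl)).2 e4
    obtain ⟨c5, c6⟩ := (s1 v1 u2 (Or.inr rfl) (Or.inl rfl)).2 e5
    obtain ⟨c7, c8⟩ := (s1 v1 v2 (Or.inr rfl) (Or.inr rfl)).2 e6
    have w1 : v1 - u1 ≠ 0 := by
      intro h0
      linarith
    have w2 : v2 - u2 ≠ 0 := by
      intro h0
      linarith
    have w3 : v3 - u3 ≠ 0 := by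
      intro h0
      linarith
    -- coefficient of `x y z`
    have hQ : Q = 0 := by
      have h1 : (v1 - u1) * ((v2 - u2) * ((v3 - u3) * Q)) = -(ff P E H Q v1 v2 v3 - ff P E H Q v1 v2 u3 -
          ff P E H Q v1 u2 v3 + ff P E H Q v1 u2 u3 - ff P E H Q u1 v2 v3 + ff P E H Q u1 v2 u3 +
          ff P E H Q u1 u2 v3 - ff P E H Q u1 u2 u3) := by
        unfold ff
        ring
      rw [c1, c2, c3, c4, c5, c6, c7, c8] at h1
      have h2 : (v1 - u1) * ((v2 - u2) * ((v3 - u3) * Q)) = 0 := by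
        rw [h1]
        ring
      exact (mul_eq_zero.1 ((mul_eq_zero.1 ((mul_eq_zero.1 h2).resolve_left w1)).resolve_left w2)).resolve_left w3
    subst hQ
    have hH : H = 0 := by
      have h1 : (v1 - u1) * ((v2 - u2) * H) = ff P E H 0 v1 v2 u3 - ff P E H 0 v1 u2 u3 - ff P E H 0 u1 v2 u3 +
          ff P E H 0 u1 u2 u3 := by
        unfold ff
        ring
      rw [c1, c3, c5, c7] at h1
      have h2 : (v1 - u1) * ((v2 - u2) * H) = 0 := by
        rw [h1]
        ring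
      exact (mul_eq_zero.1 ((mul_eq_zero.1 h2).resolve_left w1)).resolve_left w2
    subst hH
    have hE : E = 0 := by
      have h1 : (v1 - u1) * E = -(ff P E 0 0 v1 u2 u3 - ff P E 0 0 u1 u2 u3) := by
        unfold ff
        ring
      rw [c1, c5] at h1
      have h2 : (v1 - u1) * E = 0 := by
        rw [h1]
        ring
      exact (mul_eq_zero.1 h2).resolve_left w1
    subst hE
    refine ⟨?_, rfl, rfl, rfl⟩
    unfold ff at c1
    linarith
  · exact Or.inl h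

/-- If `n` passes the closed tests at the eight corners of a box of traces and the open test at some point, then it is the
code of every point of the open box. -/
theorem code_of_box3 (n : ℤ[X]) (hn : n.Monic) (h0 : n.coeff 0 = 1) (u1 v1 u2 v2 u3 v3 : ℝ)
    (hc : ∀ i, 1 ≤ i → i < n.natDegree + 6 → ∀ x y z, (x = u1 ∨ x = v1) → (y = u2 ∨ y = v2) → (z = u3 ∨ z = v3) →
      0 ≤ Fc (ee ![x, y, z]) n i ∧ Fc (ee ![x, y, z]) n i ≤ 1)
    (hs : ∀ i, 1 ≤ i → i < n.natDegree + 6 → ∃ a b c : ℝ, 0 < Fc ![a, b, c] n i)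
    (x y z : ℝ) (hx1 : u1 < x) (hx2 : x < v1) (hy1 : u2 < y) (hy2 : y < v2) (hz1 : u3 < z) (hz2 : z < v3) :
    Code (ee ![x, y, z]) n := by
  refine ⟨hn, h0, fun i hi hi2 => ?_⟩
  have hi2' : i < n.natDegree + 6 := by omega
  obtain ⟨P, E, H, Q, hF⟩ : ∃ P E H Q : ℝ, ∀ a b c : ℝ, Fc ![a, b, c] n i = P + a * E + b * H + c * Q := by
    refine ⟨(n.coeff i : ℝ) + (if 6 ≤ i then (n.coeff (i - 6) : ℝ) else 0),
      (if 1 ≤ i then (n.coeff (i - 1) : ℝ) else 0) + (if 5 ≤ i then (n.coeff (i - 5) : ℝ) else 0),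
      (if 2 ≤ i then (n.coeff (i - 2) : ℝ) else 0) + (if 4 ≤ i then (n.coeff (i - 4) : ℝ) else 0),
      (if 3 ≤ i then (n.coeff (i - 3) : ℝ) else 0), fun a b c => ?_⟩
    rw [Fc_three]
    split_ifs <;> ring
  have hf : ∀ s t r : ℝ, Fc (ee ![s, t, r]) n i = ff P E H Q s t r := by
    intro s t r
    rw [ee_three, hF]
    unfold ff
    ring
  have hneg : ∀ s t r : ℝ, ff (1 - P) (-E) (-H) (-Q) s t r = 1 - ff P E H Q s t r := by
    intro s t r
    unfold ff
    ring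
  have hci := hc i hi hi2'
  obtain ⟨a, b, c, hab⟩ := hs i hi hi2'
  rcases tri_pos (1 - P) (-E) (-H) (-Q) u1 v1 u2 v2 u3 v3 x y z hx1 hx2 hy1 hy2 hz1 hz2 (by
    intro a b c ha hb hc'
    rw [hneg, ← hf]
    linarith [(hci a b c ha hb hc').2]) with hp | ⟨hP, hE, hH, hQ⟩
  · rcases tri_pos P E H Q u1 v1 u2 v2 u3 v3 x y z hx1 hx2 hy1 hy2 hz1 hz2 (by
      intro a b c ha hb hc'
      rw [← hf]
      exact (hci a b c ha hb hc').1) with hp' | ⟨hP, hE, hH, hQ⟩
    · left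
      rw [hf]
      rw [hneg] at hp
      exact ⟨hp', by linarith⟩
    · exfalso
      rw [hF, hP, hE, hH, hQ] at hab
      simp at hab
  · right
    intro w
    have hw : w = ![w 0, w 1, w 2] := by
      funext j
      fin_cases j <;> rfl
    rw [hw, hF]
    have e1 : P = 1 := by linarith
    have e2 : E = 0 := by linarith
    have e3 : H = 0 := by linarith
    have e4 : Q = 0 := by linarith
    rw [e1, e2, e3, e4]
    ring

end Pool.Agent.Helper64.SPW
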