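import Pool.Agent.Helper3.Powers
import Pool.Agent.Helper3.Weyl
import Pool.Agent.Helper3.Region
import Pool.Agent.Helper11.SP.Dyn
import Pool.Agent.Helper11.SP.Pert
import Pool.Agent.Helper11.SP.EeProd
import Pool.Agent.Helper11.SP.OmOpen

/-!
Lower density of the Parry numbers among the powers of a Salem number.

For a Salem number of degree `2 g + 2` the lower density of the exponents `k` such that `β ^ k` is a Parry
number is at least the Haar measure of the set of points of the torus whose limit system has a finite orbit.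
-/

open MeasureTheory Filter Topology UnitAddTorus Polynomial

namespace Pool.Agent.Helper64.SPW

open Pool.Agent.Helper3 Pool.Agent.Helper11.SP

section Torus

variable {I : Type} [Fintype I]

open Classical in
theorem density_compact (K U : Set (UnitAddTorus I)) (hK : IsCompact K) (hU : IsOpen U) (hKU : K ⊆ U) (c : ℝ)
    (hc : c < (haarT I).real K) (x : UnitAddTorus I) (hx : ∀ n : I → ℤ, n ≠ 0 → mFourier n x ≠ 1) :
    ∀ᶠ N : ℕ in atTop, c * N ≤ (((Finset.range N).filter (fun k : ℕ => k • x ∈ U)).card : ℝ) := by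
  obtain ⟨f, hf0, hf1, hf⟩ := exists_continuous_zero_one_of_isClosed (isClosed_compl_iff.2 hU)
    hK.isClosed (by
      rw [Set.disjoint_left]
      intro y hy hyK
      exact hy (hKU hyK))
  let F : C(UnitAddTorus I, ℂ) := ⟨fun t => (f t : ℂ), by fun_prop⟩
  have hint : Integrable (fun t => f t) (haarT I) := by
    refine Integrable.mono' (integrable_const (1:ℝ)) f.continuous.aestronglyMeasurable ?_
    refine Eventually.of_forall (fun t => ?_)
    rw [Real.norm_eq_abs, abs_of_nonneg (hf t).1]; exact (hf t).2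
  have hpos : c < ∫ t, f t ∂(haarT I) := by
    refine hc.trans_le ?_
    have h1 : (haarT I).real K = ∫ t, K.indicator (fun _ => (1:ℝ)) t ∂(haarT I) := by
      rw [integral_indicator hK.isClosed.measurableSet]
      simp
    rw [h1]
    refine integral_mono ?_ hint ?_
    · exact (integrable_const (1:ℝ)).indicator hK.isClosed.measurableSet
    · intro t
      show K.indicator (fun _ => (1:ℝ)) t ≤ f t
      by_cases ht : t ∈ K
      · rw [Set.indicator_of_mem ht]
        have := hf1 ht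
        simp at this
        rw [this]
      · rw [Set.indicator_of_notMem ht]
        exact (hf t).1
  have hw := weyl x hx F
  have hFint : ∫ t, F t ∂(haarT I) = ((∫ t, f t ∂(haarT I) : ℝ) : ℂ) := by
    show ∫ t, ((f t : ℝ) : ℂ) ∂(haarT I) = _
    exact integral_ofReal
  rw [hFint] at hw
  have hw' := (Complex.continuous_re.tendsto _).comp hw
  simp only [Complex.ofReal_re] at hw'
  have hev := hw'.eventually (lt_mem_nhds hpos)
  filter_upwards [hev, eventually_gt_atTop 0] with N hN hN0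
  simp only [Function.comp_apply] at hN
  have hNr : (0:ℝ) < N := by exact_mod_cast hN0
  have e1 : (avg x N F).re = (N:ℝ)⁻¹ * ∑ k ∈ Finset.range N, f (k • x) := by
    unfold avg
    have : (∑ k ∈ Finset.range N, F (k • x)) = ((∑ k ∈ Finset.range N, f (k • x) : ℝ) : ℂ) := by
      push_cast; rfl
    rw [this, ← Complex.ofReal_natCast, ← Complex.ofReal_inv, ← Complex.ofReal_mul, Complex.ofReal_re]
  rw [e1] at hN
  have e2 : ∑ k ∈ Finset.range N, f (k • x) ≤ (((Finset.range N).filter (fun k : ℕ => k • x ∈ U)).card : ℝ) := by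
    rw [Finset.card_filter]
    push_cast
    apply Finset.sum_le_sum
    intro k _
    by_cases hk : k • x ∈ U
    · rw [if_pos hk]; exact (hf _).2
    · rw [if_neg hk]
      have := hf0 (show k • x ∈ Uᶜ from hk)
      simp at this
      rw [this]
  have e3 : c * N < ∑ k ∈ Finset.range N, f (k • x) := by
    have := mul_lt_mul_of_pos_right hN hNr
    calc c * N < (N:ℝ)⁻¹ * (∑ k ∈ Finset.range N, f (k • x)) * N := this
      _ = _ := by field_simp
  linarith

end Torus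

/-- The traces `2 cos (2 π x_i)` of a point of the torus. -/
noncomputable def tr {g : ℕ} (x : UnitAddTorus (Fin g)) : Fin g → ℝ := fun i => 2 * (fourier 1 (x i)).re

lemma tr_continuous {g : ℕ} : Continuous (tr (g := g)) := by
  unfold tr
  fun_prop

/-- Points of the torus with a finite orbit of the limit system. -/
def RegT (g : ℕ) : Set (UnitAddTorus (Fin g)) := {x | ee (tr x) ∈ Reg g}

/-- The orbit of `1` for the limit parameter `y`, uniformly for all `β > B`. -/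
def GoodAt {g : ℕ} (y : Fin g → ℝ) (B : ℝ) : Prop :=
  ∃ n : ℤ[X], n.Monic ∧ n.coeff 0 = 1 ∧ ∀ β, B < β → ∀ i, 1 ≤ i → i ≤ n.natDegree + 2 * g →
      0 ≤ Fc y n i - Fc y n (i - 1) / β ∧ Fc y n i - Fc y n (i - 1) / β < 1

lemma good_nhds {g : ℕ} (hg : 1 ≤ g) (x : UnitAddTorus (Fin g)) (hx : x ∈ RegT g) :
    ∃ V : Set (UnitAddTorus (Fin g)), IsOpen V ∧ x ∈ V ∧ ∃ B : ℝ, 1 < B ∧ ∀ y ∈ V, GoodAt (ee (tr y)) B := by
  obtain ⟨_, n, hn⟩ := hx
  obtain ⟨δ, hδ, B, hB, hp⟩ := pert hg (ee (tr x)) n hn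
  refine ⟨(fun y => ee (tr y)) ⁻¹' Metric.ball (ee (tr x)) δ, ?_, ?_, B, hB, ?_⟩
  · exact Metric.isOpen_ball.preimage ((ee_continuous (g := g)).comp tr_continuous)
  · exact Metric.mem_ball_self hδ
  · intro y hy
    exact ⟨n, hn.1, hn.2.1, fun β hβ i h1 h2 => hp (ee (tr y)) (Metric.mem_ball.1 hy) β hβ i h1 h2⟩

lemma good_compact {g : ℕ} (hg : 1 ≤ g) (K : Set (UnitAddTorus (Fin g))) (hK : IsCompact K) (hKR : K ⊆ RegT g) :
    ∃ V : Set (UnitAddTorus (Fin g)), IsOpen V ∧ K ⊆ V ∧ ∃ B : ℝ, 1 < B ∧ ∀ y ∈ V, GoodAt (ee (tr y)) B := by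
  refine hK.induction_on
    (p := fun S => ∃ V : Set (UnitAddTorus (Fin g)), IsOpen V ∧ S ⊆ V ∧ ∃ B : ℝ, 1 < B ∧ ∀ y ∈ V, GoodAt (ee (tr y)) B)
    ?_ ?_ ?_ ?_
  · exact ⟨∅, isOpen_empty, Set.empty_subset _, 2, by norm_num, fun y hy => hy.elim⟩
  · rintro s t hst ⟨V, h1, h2, h3⟩
    exact ⟨V, h1, hst.trans h2, h3⟩
  · rintro s t ⟨V, h1, h2, B, h3, h4⟩ ⟨V', h1', h2', B', h3', h4'⟩
    refine ⟨V ∪ V', h1.union h1', Set.union_subset_union h2 h2', max B B', lt_max_of_lt_left h3, ?_⟩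
    rintro y (hy | hy)
    · obtain ⟨n, a1, a2, a3⟩ := h4 y hy
      exact ⟨n, a1, a2, fun β hβ => a3 β ((le_max_left _ _).trans_lt hβ)⟩
    · obtain ⟨n, a1, a2, a3⟩ := h4' y hy
      exact ⟨n, a1, a2, fun β hβ => a3 β ((le_max_right _ _).trans_lt hβ)⟩
  · intro x hx
    obtain ⟨V, h1, h2, h3⟩ := good_nhds hg x (hKR hx)
    exact ⟨V, mem_nhdsWithin_of_mem_nhds (h1.mem_nhds h2), V, h1, subset_rfl, h3⟩

lemma parry_of_good {g : ℕ} (hg : 1 ≤ g) (β : ℝ) (hβ : IsSalem β) (hM : (upper β).card = g) (k : ℕ) (hk : 1 ≤ k)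
    (B : ℝ) (hB : B < β ^ k) (h : GoodAt (ee (tr (k • pt β g hM))) B) :
    ∃ n, (T (β ^ k))^[n + 2] 1 = (T (β ^ k))^[1] 1 := by
  obtain ⟨n, h1, h2, h3⟩ := h
  have hb1 : 1 < β ^ k := one_lt_pow₀ hβ.1 (by omega)
  have hb0 : β ^ k ≠ 0 := by linarith
  refine ⟨n.natDegree + 2 * g, ?_⟩
  have hP := minpoly_pow_real hβ g hM hk
  have hR : Rpoly g (k • pt β g hM) = HC 1 (ee (tr (k • pt β g hM))) := ee_prod hg _
  rw [hR] at hP
  refine dyn (β ^ k) (β ^ k + 1 / β ^ k) hb1 rfl (minpoly ℤ (β ^ k)) n (HC 1 (ee (tr (k • pt β g hM)))) ?_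
    (n.natDegree + 2 * g) (by omega) ?_ ?_ ?_ ?_
  · rw [hP, ← mul_assoc]
    congr 1
    have e : (C (β ^ k) * C (1 / β ^ k) : ℝ[X]) = 1 := by
      rw [← C_mul, mul_one_div_cancel hb0, C_1]
    rw [C_add]
    linear_combination e
  · have h4 := Fc_zero (ee (tr (k • pt β g hM))) n
    unfold Fc at h4
    rw [h4, h2]
    norm_num
  · exact Fc_top hg _ n h1
  · exact Fc_above hg _ n h1
  · intro i hi hi2
    exact h3 (β ^ k) hB i hi hi2

open Classical in
/-- The lower density of the exponents `k` with `β ^ k` a Parry number is at least the measure of `RegT g`. -/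
theorem power_density {g : ℕ} (hg : 1 ≤ g) (c : ℝ) (hc : ENNReal.ofReal c < haarT (Fin g) (RegT g))
    (hopen : IsOpen (RegT g)) (β : ℝ) (hβ : IsSalem β) (hd : (minpoly ℤ β).natDegree = 2 * g + 2) :
    ∀ᶠ N : ℕ in atTop, c * N ≤ (((Finset.Icc 1 N).filter (fun k : ℕ => IsSalem (β ^ k) ∧
      (minpoly ℤ (β ^ k)).natDegree = 2 * g + 2 ∧ ∃ n, (T (β ^ k))^[n + 2] 1 = (T (β ^ k))^[1] 1)).card : ℝ) := by
  have hM : (upper β).card = g := by
    have := natDegree_eq hβ
    omega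
  obtain ⟨K, hKR, hK, hcK⟩ := hopen.exists_lt_isCompact hc
  have hcK' : c < (haarT (Fin g)).real K := by
    have hfin : haarT (Fin g) K ≠ ⊤ := measure_ne_top _ _
    rcases le_or_gt 0 c with h0 | h0
    · exact (ENNReal.ofReal_lt_iff_lt_toReal h0 hfin).1 hcK
    · exact h0.trans_le measureReal_nonneg
  obtain ⟨c', hc1, hc2⟩ := exists_between hcK'
  obtain ⟨V, hV, hKV, B, hB, hG⟩ := good_compact hg K hK hKR
  have hev := density_compact K V hK hV hKV c' hc2 (pt β g hM) (fun n hn => pt_indep hβ g hM n hn)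
  obtain ⟨k0, hk0⟩ : ∃ k0 : ℕ, ∀ k, k0 ≤ k → B < β ^ k := by
    obtain ⟨k0, hk0⟩ := pow_unbounded_of_one_lt B hβ.1
    exact ⟨k0, fun k hk => hk0.trans_le (pow_le_pow_right₀ hβ.1.le hk)⟩
  have key : ∀ k : ℕ, 1 ≤ k → k0 ≤ k → k • pt β g hM ∈ V →
      (IsSalem (β ^ k) ∧ (minpoly ℤ (β ^ k)).natDegree = 2 * g + 2 ∧
        ∃ n, (T (β ^ k))^[n + 2] 1 = (T (β ^ k))^[1] 1) := by
    intro k hk1 hk hreg
    refine ⟨salem_pow hβ hk1, (natDegree_pow hβ hk1).trans hd, ?_⟩
    exact parry_of_good hg β hβ hM k hk1 B (hk0 k hk) (hG _ hreg)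
  have hcc : 0 < c' - c := by linarith
  obtain ⟨N0, hN0⟩ := exists_nat_gt ((k0 + 1 : ℝ) / (c' - c))
  filter_upwards [hev, eventually_ge_atTop N0] with N hN hNN0
  have hsub : (Finset.range N).filter (fun k : ℕ => k • pt β g hM ∈ V) ⊆
      Finset.range (k0+1) ∪ (Finset.Icc 1 N).filter (fun k : ℕ => IsSalem (β ^ k) ∧
          (minpoly ℤ (β ^ k)).natDegree = 2 * g + 2 ∧ ∃ n, (T (β ^ k))^[n + 2] 1 = (T (β ^ k))^[1] 1) := by
    intro k hk
    rw [Finset.mem_filter, Finset.mem_range] at hk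
    rw [Finset.mem_union, Finset.mem_range, Finset.mem_filter, Finset.mem_Icc]
    by_cases h : k < k0 + 1
    · exact Or.inl h
    · exact Or.inr ⟨⟨by omega, hk.1.le⟩, key k (by omega) (by omega) hk.2⟩
  have hcard := (Finset.card_le_card hsub).trans (Finset.card_union_le _ _)
  rw [Finset.card_range] at hcard
  have hcard' : (((Finset.range N).filter (fun k : ℕ => k • pt β g hM ∈ V)).card : ℝ) ≤
      (k0 + 1) + (((Finset.Icc 1 N).filter (fun k : ℕ => IsSalem (β ^ k) ∧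
          (minpoly ℤ (β ^ k)).natDegree = 2 * g + 2 ∧ ∃ n, (T (β ^ k))^[n + 2] 1 = (T (β ^ k))^[1] 1)).card : ℝ) := by
    exact_mod_cast hcard
  have hbig : (k0 + 1 : ℝ) ≤ (c' - c) * N := by
    have h1 : (k0 + 1 : ℝ) / (c' - c) ≤ N := hN0.le.trans (by exact_mod_cast hNN0)
    rw [div_le_iff₀ hcc] at h1
    linarith
  linarith

end Pool.Agent.Helper64.SPW
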