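import Pool.Agent.Helper64.SPW.Iv3

/-! Boxes of three traces, part 1 (data and kernel evaluation). -/

set_option maxRecDepth 1000000
set_option maxHeartbeats 0

namespace Pool.Agent.Helper64.SPW.Dat3

noncomputable def Q199 : QT3 :=
(.b (.c (.c (.a (.b (.c (.a (.c (.b (.c (.b .z (.a (.b .z (.l 20)) .z)) .z) (.c (.b (.a (.c (.l 20) .z) .z) .z) .z)) .z) .z) .z) (.c (.a (.b (.c (.c
(.b .z (.b .z (.l 23))) (.b (.l 77) (.b .z (.a (.l 23) .z)))) (.a (.b .z (.c (.b .z (.l 23)) .z)) .z)) (.c (.a (.b (.c (.l 23) (.b (.l 23) .z)) .z)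
.z) .z)) (.b .z (.c (.a .z (.b (.c .z (.l 29)) .z)) .z))) (.a (.b (.c .z (.a (.b .z (.c .z (.b .z (.l 17)))) (.b .z (.b .z (.l 17))))) (.c (.a .z (.c
.z (.c .z (.l 17)))) (.l 17))) (.b (.c (.a .z (.c .z (.b .z (.b .z (.l 17))))) (.b .z (.b .z (.l 17)))) (.c (.c .z (.c (.c (.a .z (.l 17)) (.l 17))
(.l 17))) (.l 17)))))) (.b .z (.c (.a (.b (.c (.a .z (.b .z (.b .z (.l 29)))) (.c (.b .z (.b .z (.l 29))) .z)) (.c (.l 29) (.c (.b (.l 29) (.c (.l 29)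
.z)) .z))) (.c (.b (.b .z (.b .z (.l 29))) (.l 29)) (.b (.c (.b .z (.b .z (.l 29))) .z) (.c (.b (.l 29) (.c (.l 29) .z)) .z)))) (.b (.c (.c (.b .z (.c
.z (.a .z (.b .z (.l 17))))) (.b .z (.b .z (.l 17)))) (.a (.b .z (.b .z (.l 17))) (.b .z (.c (.b .z (.l 17)) (.a (.b .z (.l 17)) .z))))) (.c (.a (.c
(.b (.c .z (.c .z (.l 17))) (.c .z (.c .z (.l 17)))) (.l 17)) (.b (.c (.c .z (.l 17)) (.l 17)) (.c (.a (.c .z (.l 17)) .z) (.a (.b (.l 17) .z) .z))))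
(.a (.b (.c (.l 17) (.a (.l 17) (.b (.l 17) .z))) (.c (.a (.l 17) (.b (.l 17) .z)) (.a (.b (.l 17) .z) .z))) (.b (.c (.a (.b (.l 17) .z) .z) .z)
.z))))))) (.a (.b .z (.a (.c (.b (.c (.a (.b .z (.b .z (.l 17))) (.b .z (.b .z (.l 17)))) .z) (.c (.l 17) (.b (.c (.c (.a .z (.l 17)) .z) .z) (.c (.a
(.c (.l 17) .z) (.b (.l 17) .z)) .z)))) (.b .z (.c (.b .z (.c .z (.a .z (.l 26)))) (.b .z (.c (.c (.c (.l 26) .z) .z) .z))))) (.c (.b (.c (.b .z (.b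
.z (.l 17))) (.b .z (.a (.c (.b .z (.l 17)) .z) (.c (.b .z (.l 17)) .z)))) (.c (.b (.c (.l 17) (.a (.l 17) (.b (.l 17) .z))) (.c (.a (.l 17) (.b (.l
17) .z)) (.a (.b (.l 17) .z) .z))) (.b (.c (.a (.b (.l 17) .z) .z) .z) .z))) (.b (.c (.b .z (.a .z (.c .z (.b .z (.l 26))))) .z) (.c (.b (.a (.c .z
(.b .z (.l 26))) (.c .z (.l 26))) (.c (.c .z (.c .z (.l 26))) (.l 26))) (.c (.c .z (.l 41)) (.l 41))))))) (.b .z (.c (.b (.a (.c (.b .z (.c (.b .z (.l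
17)) (.a (.b .z (.l 17)) .z))) .z) .z) (.a (.c (.b (.c (.a (.b (.l 17) .z) .z) .z) .z) .z) .z)) (.b (.a (.c (.b .z (.a (.c .z (.b .z (.l 26))) (.c .z
(.b .z (.l 26))))) (.c .z (.b .z (.b .z (.l 41))))) (.c (.c (.b .z (.c .z (.b .z (.l 26)))) (.c (.b .z (.b .z (.l 26))) .z)) (.c .z (.b .z (.b .z (.l
41)))))) (.c (.c (.c (.c .z (.a .z (.l 26))) (.l 26)) (.c (.l 26) (.c (.l 26) (.a (.l 26) (.a (.l 26) .z))))) (.c (.c (.c .z (.l 41)) (.l 41)) (.l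
41)))))))) (.b (.a (.c (.c .z (.b (.a (.b (.c (.a (.c (.c .z (.l 20)) .z) .z) .z) .z) .z) .z)) .z) (.c (.c .z (.c (.c .z (.a (.c .z (.a (.c .z (.b (.l
22) .z)) (.b (.c .z (.l 22)) .z))) .z)) .z)) .z)) (.a (.c (.c (.b (.a (.c (.b .z (.a .z (.b .z (.l 41)))) .z) (.c (.c (.b .z (.b .z (.l 41))) .z) .z))
(.c (.c (.a (.a .z (.l 41)) (.l 41)) (.a (.a .z (.c (.l 41) .z)) .z)) .z)) .z) .z) (.c (.c (.c (.c (.a (.b (.b .z (.b .z (.l 41))) (.c (.l 41) .z))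
.z) .z) .z) .z) .z)))) (.c (.c (.a (.b (.c (.a (.b .z (.c .z (.a (.b (.c .z (.l 38)) .z) (.b (.c .z (.l 38)) .z)))) (.c .z (.b (.c .z (.b .z (.c .z
(.l 38)))) (.b (.b (.c .z (.l 38)) .z) .z)))) (.b (.c (.c (.a (.l 38) (.c (.l 38) .z)) (.c (.a .z (.a .z (.c .z (.l 17)))) (.a .z (.a (.c .z (.l 17))
(.l 17))))) (.a (.c (.c (.b (.l 17) (.a .z (.l 17))) (.l 17)) (.l 17)) (.b (.c (.l 17) (.a (.l 17) (.b (.l 17) .z))) (.c (.a (.l 17) .z) .z)))) (.c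
(.a (.b (.c (.b (.l 38) .z) .z) .z) .z) (.a (.b (.c (.a (.c .z (.l 17)) (.b (.l 17) .z)) (.a (.b (.l 17) .z) .z)) .z) .z)))) .z) (.b (.c (.b (.c (.c
(.a (.b (.b (.l 29) .z) .z) .z) .z) (.a (.c .z (.b (.c .z (.l 38)) .z)) .z)) .z) (.b (.c (.a (.b (.c (.c .z (.a .z (.l 17))) (.a (.l 17) (.b (.l 17)
.z))) (.c .z (.a (.b (.l 17) .z) .z))) .z) (.a (.b (.c (.a (.b (.l 17) .z) .z) .z) .z) .z)) .z)) .z)) (.a (.b (.c (.b (.c (.a (.b (.c (.l 17) (.a (.l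
17) .z)) (.c (.a (.b (.l 17) .z) .z) .z)) .z) .z) (.c .z (.c .z (.a (.b (.c (.l 34) .z) .z) .z)))) (.b (.a (.c (.b (.c .z (.c (.c .z (.l 26)) (.l
26))) (.c .z (.c .z (.l 26)))) (.c (.c (.c (.l 26) .z) .z) (.a .z (.a .z (.l 41))))) (.c (.c .z (.c (.c (.b (.l 26) .z) (.l 26)) (.l 26))) (.c (.c (.c
(.a (.l 26) .z) .z) (.l 41)) (.l 41)))) (.c (.c .z (.c .z (.a (.b (.c .z (.l 26)) .z) (.b (.l 26) .z)))) (.c (.c (.c (.b (.l 26) (.b (.l 26) .z)) .z)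
(.c .z (.a .z (.l 41)))) (.a .z (.c (.l 41) .z)))))) .z) (.b (.c .z (.c (.c (.c (.a .z (.c .z (.a .z (.b (.l 26) .z)))) (.a (.b (.c .z (.l 26)) .z)
(.b (.l 26) (.c .z (.b (.l 26) .z))))) (.c (.b (.l 26) (.a (.c (.b (.l 26) .z) (.b (.l 26) .z)) (.b (.l 26) (.b (.l 26) .z)))) (.c (.b (.l 26) (.b (.l
26) .z)) (.a (.b (.l 26) (.b (.l 26) .z)) .z)))) (.c (.c (.c .z (.a (.a .z (.l 41)) (.b (.l 41) .z))) (.b (.l 41) (.a (.b (.l 41) .z) .z))) (.a (.b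
(.c (.l 41) (.b (.l 41) .z)) .z) (.b (.c (.b (.l 41) .z) .z) .z))))) (.c .z (.a (.c (.c .z (.b (.c .z (.b (.l 27) .z)) .z)) .z) (.b (.c (.c .z (.c (.b
(.l 27) .z) .z)) .z) (.a .z (.c .z (.b (.c .z (.c .z (.l 18))) .z))))))))) (.a (.b (.c (.c (.c (.c (.b (.a (.a .z (.c (.l 41) .z)) (.c (.b (.l 41) .z)
.z)) .z) .z) (.c (.a (.c .z (.a .z (.c (.a .z (.l 18)) (.l 18)))) (.b (.c .z (.a (.b .z (.l 18)) .z)) (.a (.c .z (.l 18)) (.c (.l 18) (.a (.l 18)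
.z))))) (.a (.c (.a (.b (.c (.l 18) .z) .z) (.b (.b .z (.l 18)) (.l 18))) .z) (.b .z (.a (.c (.b .z (.l 18)) .z) .z))))) (.b .z (.c .z (.b (.c .z (.a
(.c (.c (.l 26) .z) .z) .z)) (.c (.a (.c .z (.c .z (.l 26))) .z) (.c (.a (.c (.l 26) .z) (.c (.l 26) .z)) .z)))))) .z) (.c (.c (.b (.c (.c .z (.a .z
(.c .z (.a .z (.c .z (.l 18)))))) (.b (.c (.a .z (.c (.a .z (.l 18)) (.l 18))) (.a .z (.c (.a (.l 18) .z) .z))) (.c (.a .z (.c (.a .z (.l 18)) (.b (.l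
18) .z))) (.a (.b .z (.c .z (.l 19))) .z)))) (.c .z (.b (.c .z (.a (.c (.l 19) (.c (.l 19) .z)) .z)) (.a (.c (.c (.a .z (.l 16)) (.c (.l 16) .z)) (.c
(.c (.l 19) .z) .z)) .z)))) (.b (.c .z (.c (.c .z (.a (.c .z (.b (.l 26) .z)) .z)) (.c (.a (.c (.l 26) .z) .z) .z))) .z)) .z)) (.b (.a (.c (.c (.c (.c
.z (.a (.c .z (.c .z (.l 18))) (.c (.b .z (.c .z (.l 18))) (.a (.c (.l 18) .z) .z)))) (.c (.a (.c (.b .z (.a (.l 18) .z)) .z) .z) .z)) .z) .z) (.b .z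
(.c (.c (.c (.c (.a (.c .z (.c .z (.l 18))) .z) .z) .z) .z) .z))) (.a (.c (.b (.c (.c (.c .z (.a (.c .z (.l 18)) (.c (.l 18) (.a (.l 18) .z)))) (.c
(.a (.c (.l 18) (.a (.l 18) .z)) .z) .z)) .z) (.c (.a (.c (.c .z (.b (.l 18) (.c (.l 18) .z))) (.b (.c (.c (.l 18) .z) .z) .z)) (.b (.c (.c (.c .z (.l
18)) (.l 18)) .z) (.c (.c (.c .z (.l 18)) (.l 18)) .z))) .z)) .z) (.c (.b (.c (.a (.c (.c (.c .z (.l 18)) (.c (.a (.l 18) .z) .z)) .z) .z) .z) (.c (.a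
(.b (.c (.c (.l 18) .z) .z) (.c (.a (.c (.l 18) .z) (.c (.l 18) .z)) .z)) .z) .z)) .z))))))

theorem vQ199 : ev3 Q199 J4_9 J3_5 J2_3 = 132798370961463349727804 := by decide +kernel

noncomputable def Q160 : QT3 :=
(.c (.b (.a (.c (.l 7) (.c (.l 7) (.a (.b (.l 7) (.c (.l 7) (.a (.b (.c (.l 7) (.a .z (.l 7))) (.c (.a .z (.l 7)) .z)) (.l 7)))) (.l 7)))) (.c (.b (.l
7) (.a (.l 7) (.c (.l 7) (.b (.l 7) (.a (.l 7) (.c (.l 7) (.b (.l 7) (.a (.l 7) .z)))))))) (.b (.a (.l 7) (.c (.l 7) (.b (.l 7) (.a (.l 7) (.c (.b (.l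
7) (.a (.l 7) .z)) (.b (.a (.l 7) .z) .z)))))) (.a (.c (.l 7) (.b (.a (.l 7) (.c (.l 7) (.b (.l 7) (.a (.l 7) .z)))) (.a (.c (.l 7) (.b (.l 7) (.a (.l
7) .z))) (.c (.b (.a (.l 7) .z) .z) .z)))) (.c (.b (.a (.l 7) (.c (.l 7) (.b (.a (.l 7) .z) .z))) (.a (.c (.b (.l 7) (.a (.l 7) .z)) (.b (.a (.l 7)
.z) .z)) (.c .z (.b .z (.a .z (.l 8)))))) (.b (.a (.c (.b (.l 7) (.a (.l 7) .z)) .z) (.c .z (.b .z (.a .z (.l 8))))) (.a (.c .z (.b .z (.l 8))) (.c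
(.b (.a .z (.l 8)) (.l 8)) (.l 8))))))))) (.a (.c (.b (.l 7) (.a (.l 7) (.c (.l 7) (.b (.l 7) (.a (.c (.l 7) (.b (.l 7) (.a (.l 7) .z))) (.c (.b (.l
7) (.a (.l 7) .z)) .z)))))) (.b (.a (.c (.c (.l 7) (.a (.b (.l 7) (.c (.l 7) (.a .z (.l 7)))) (.l 7))) (.c (.a (.b (.c (.l 7) .z) .z) (.b (.l 7) (.c
(.l 7) (.a .z (.l 7))))) (.a (.b .z (.c (.a (.l 9) .z) (.l 9))) (.b (.c (.a .z (.l 7)) .z) .z)))) (.c (.b (.l 7) (.a (.l 7) (.c (.l 7) (.b (.l 7) (.a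
(.l 7) .z))))) (.b (.a (.l 7) (.c (.l 7) (.b (.l 7) .z))) (.a (.c (.b (.l 7) (.a (.l 7) .z)) (.b (.a (.l 7) .z) .z)) (.c (.b (.a (.l 7) .z) .z)
.z))))) (.a (.c (.b (.c (.l 7) (.a (.c (.a .z (.l 7)) .z) (.l 7))) (.a (.c (.c (.a .z (.l 7)) .z) .z) (.c (.l 7) .z))) (.b (.a (.c (.c .z (.a (.l 9)
.z)) (.b (.l 9) (.a (.l 9) .z))) .z) (.a (.c (.b (.c .z (.l 9)) .z) .z) .z))) (.c (.b (.a (.c (.l 7) (.b (.l 7) .z)) (.c (.b (.a (.l 7) .z) .z) .z))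
(.a (.c (.b (.a (.l 7) .z) .z) .z) .z)) .z)))) (.c (.b (.a (.c (.l 7) (.b (.l 7) (.a (.l 7) (.c (.l 7) (.b (.a (.l 7) .z) .z))))) (.c (.b (.l 7) (.a
(.c (.l 7) (.b (.l 7) (.a (.l 7) .z))) (.c (.b (.l 7) (.a (.l 7) .z)) .z))) (.b (.a (.c (.l 7) (.b (.l 7) .z)) (.c (.b (.a (.l 7) .z) .z) .z)) (.a (.c
(.b (.a (.l 7) .z) .z) .z) .z)))) (.a (.c (.b (.a (.l 7) (.c (.l 7) (.b (.l 7) (.a (.l 7) .z)))) (.a (.c (.l 7) (.b (.l 7) (.a (.l 7) .z))) (.c (.b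
(.l 7) .z) .z))) (.b (.a (.c (.b (.l 7) (.a (.l 7) .z)) (.b (.a (.l 7) .z) .z)) .z) .z)) (.c (.b (.a (.c (.b (.l 7) (.a (.l 7) .z)) .z) .z) (.a .z (.c
(.b .z (.l 14)) (.l 14)))) (.b (.a .z (.c (.l 14) .z)) (.c (.l 14) .z))))) (.b (.a (.c (.b (.a (.c (.l 7) (.b (.l 7) (.a (.l 7) .z))) (.c (.b (.l 7)
(.a (.l 7) .z)) (.b (.a (.l 7) .z) .z))) (.a (.c (.b (.l 7) .z) .z) .z)) (.b (.a (.c (.b (.a (.l 7) .z) .z) .z) (.c .z (.b (.a .z (.l 8)) (.l 8))))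
(.a (.c .z (.b (.a .z (.l 8)) (.l 8))) (.c (.c (.a .z (.l 8)) (.l 8)) (.l 8))))) (.c (.b (.a .z (.c .z (.l 8))) (.a (.c .z (.c .z (.a .z (.l 8)))) (.c
.z (.l 8)))) (.b (.a (.c (.b (.a .z (.l 8)) (.l 8)) (.l 8)) (.l 8)) (.l 8)))) (.a (.c .z (.b (.c (.a .z (.c .z (.a .z (.l 8)))) (.b (.c (.l 8) (.b (.l
8) .z)) .z)) .z)) (.c (.c .z (.a .z (.c (.a .z (.c .z (.l 8))) (.l 8)))) (.b (.c (.l 8) (.b (.l 8) (.c (.l 8) .z))) (.c (.b (.a (.c .z (.l 8)) (.l 8))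
(.c (.a .z (.l 8)) .z)) .z)))))))) (.b (.a (.b (.c (.c (.a (.c (.a (.b (.l 7) (.c (.l 7) (.a .z (.l 7)))) (.l 7)) (.a (.b (.c (.a .z (.l 7)) .z) .z)
(.b (.l 7) (.c (.a .z (.l 7)) .z)))) (.l 7)) (.a (.c (.a (.b (.c .z (.a (.l 9) .z)) (.c (.a (.l 9) .z) (.l 9))) (.b (.c (.a .z (.l 7)) .z) .z)) (.a
(.l 9) (.b (.c .z (.a (.l 9) .z)) (.c (.a (.l 9) .z) (.l 9))))) (.c (.a (.b (.l 7) (.c (.a .z (.l 7)) .z)) (.l 7)) (.a (.b (.c (.a .z (.l 7)) .z) .z)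
(.b (.l 7) (.a .z (.c (.l 7) .z))))))) (.a (.c (.c (.c (.c (.l 9) (.a .z (.l 9))) (.c .z (.a (.b (.l 11) .z) .z))) (.c (.a (.l 11) (.c (.b (.l 11) .z)
(.l 11))) (.b (.l 11) (.c (.b (.l 11) .z) .z)))) .z) (.b (.c (.a (.c .z (.c (.c .z (.l 11)) (.c (.l 11) .z))) (.c (.a .z (.c (.l 7) .z)) .z)) .z) (.c
(.a (.c (.a (.c (.l 9) .z) (.c .z (.l 9))) .z) .z) (.a .z (.b .z (.c .z (.a .z (.l 13))))))))) (.c (.a (.c (.c (.a (.b .z (.c .z (.a (.l 9) .z))) (.b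
(.c (.l 7) (.a .z (.l 7))) (.c (.a .z (.l 7)) .z))) (.a (.b (.c .z (.l 9)) (.l 9)) (.b .z (.c .z (.a (.l 9) .z))))) (.b (.c (.a (.l 9) (.c (.a (.l 9)
.z) (.l 9))) (.l 9)) (.a (.l 9) (.c (.l 9) (.b (.l 9) (.a (.l 9) .z)))))) (.c (.b (.c (.l 7) (.a (.c (.l 7) (.a .z (.l 7))) (.l 7))) (.a (.c (.l 7)
(.a .z (.c (.l 7) .z))) (.c (.b (.l 7) (.a (.l 7) .z)) (.b (.a (.l 7) .z) .z)))) (.b (.a (.c .z (.a (.l 9) (.c .z (.l 9)))) (.c (.b (.l 7) .z) .z))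
(.a (.c (.b .z (.a (.l 9) .z)) (.b (.a (.l 9) .z) .z)) (.c .z (.b .z (.a .z (.l 9)))))))) (.a (.b (.c (.c (.c (.l 9) (.a .z (.c (.l 9) .z))) (.c (.a
(.l 11) .z) .z)) (.a (.b (.c .z (.l 17)) .z) .z)) (.c (.a (.b (.c (.c (.l 9) .z) .z) (.c (.c (.l 9) .z) .z)) .z) (.a .z (.b (.c .z (.a .z (.l 13)))
(.c .z (.l 13)))))) (.b (.c (.a (.b (.c (.l 9) .z) (.c (.a (.l 9) .z) .z)) .z) (.a (.b .z (.c .z (.a .z (.l 13)))) (.b (.c .z (.l 13)) (.c (.c .z (.l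
13)) (.l 13))))) (.c (.a .z (.b (.c (.a .z (.l 9)) .z) (.c (.c (.l 9) .z) .z))) (.a (.b (.c .z (.l 13)) (.c .z (.l 13))) (.c (.c .z (.l 13)) (.l
13)))))))) (.b (.c (.a (.c (.b (.l 7) (.a (.l 7) (.c (.l 7) (.b (.l 7) (.a (.l 7) .z))))) (.b (.a (.l 7) (.c (.l 7) (.b (.l 7) (.a (.l 7) .z)))) (.a
(.c (.l 7) (.b (.l 7) .z)) (.c (.b (.a (.l 7) .z) .z) .z)))) (.c (.b (.a (.c (.l 7) (.b (.l 7) (.a (.l 7) .z))) (.c (.b (.l 7) (.a (.l 7) .z)) (.b (.a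
(.l 7) .z) .z))) (.a (.c (.b (.a (.l 7) .z) .z) .z) (.c .z (.b .z (.l 8))))) (.b (.a (.c (.b (.a (.l 7) .z) .z) .z) (.c .z (.b .z (.c (.l 8) .z))))
(.a (.c (.b .z (.a .z (.l 8))) (.b (.a .z (.l 8)) (.l 8))) (.l 8))))) (.a (.b (.c (.a (.b (.c (.c (.l 7) .z) .z) (.c (.l 7) .z)) .z) (.a .z (.b .z (.c
.z (.l 13))))) (.c .z (.a (.b (.c .z (.a .z (.l 13))) (.l 13)) (.c (.b (.c .z (.l 13)) (.l 13)) (.l 13))))) (.b (.c .z (.c .z (.b (.c .z (.b .z (.l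
13))) (.c (.b .z (.l 13)) (.l 13))))) (.c (.c (.b (.c (.a (.l 8) .z) .z) (.c (.a (.l 8) .z) .z)) .z) (.c (.b (.c .z (.l 13)) (.l 13)) (.l 13)))))) (.c
(.a (.c (.b (.a (.c (.l 7) (.b (.l 7) (.a (.l 7) .z))) (.c (.b (.a (.l 7) .z) .z) .z)) (.a (.c (.b (.a (.l 7) .z) .z) .z) (.c (.b .z (.a .z (.l 8)))
(.b (.a .z (.l 8)) (.l 8))))) (.b (.a .z (.c (.b .z (.a .z (.l 8))) (.b (.a .z (.l 8)) (.c (.l 8) .z)))) (.a (.c .z (.b .z (.c .z (.l 9)))) (.c (.b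
(.l 8) (.c (.l 8) .z)) (.b .z (.c .z (.l 9))))))) (.c (.b (.a (.c (.b .z (.a .z (.l 8))) (.b (.a .z (.l 8)) (.l 8))) (.c (.b (.a .z (.l 8)) (.l 8))
(.l 8))) (.l 8)) (.b (.c (.l 8) (.b (.l 8) (.c (.l 8) (.b (.l 8) .z)))) (.c (.b (.l 8) (.c (.l 8) (.b (.l 8) .z))) (.b (.c (.b (.l 8) .z) .z) (.c .z
(.b .z (.l 9)))))))) (.a (.b (.c (.a (.b .z (.c (.c .z (.l 9)) .z)) .z) (.l 13)) (.c (.c (.c (.l 9) (.c (.b (.l 9) .z) .z)) (.c (.c .z (.a (.l 10)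
.z)) .z)) (.c (.c (.a (.c .z (.l 13)) (.l 13)) (.l 13)) (.l 13)))) (.c (.b (.c (.b (.c (.b (.l 8) .z) .z) .z) .z) (.c (.b .z (.c (.c (.l 9) .z) .z))
(.c (.a .z (.c .z (.l 11))) .z))) (.l 13)))))) (.a (.c (.b (.a (.c (.b (.c (.a (.c (.a (.l 9) .z) (.l 9)) .z) (.a (.l 9) (.a (.l 9) (.c .z (.l 9)))))
(.a (.c (.l 9) (.b (.l 9) (.a (.l 9) .z))) (.c (.b (.a (.l 9) .z) .z) .z))) (.b (.a (.c (.l 9) (.b (.l 9) (.a (.l 9) .z))) (.c (.b (.a (.l 9) .z) .z)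
.z)) (.a (.c (.b (.a (.l 9) .z) .z) .z) (.c (.b .z (.a .z (.l 9))) (.b (.a .z (.l 9)) (.l 9)))))) (.c (.b (.a (.c (.b (.a .z (.l 7)) .z) .z) .z) (.a
(.c .z (.b .z (.a .z (.l 9)))) (.c .z (.b (.c .z (.l 9)) (.l 9))))) (.b (.a (.c .z (.b .z (.l 9))) (.c (.b .z (.l 9)) (.l 9))) (.a (.c (.b (.a .z (.l
9)) (.l 9)) (.l 9)) (.l 9))))) (.a (.c (.b (.a (.c (.b (.a (.l 9) .z) .z) .z) (.c .z (.b (.a .z (.l 9)) (.l 9)))) (.a (.c .z (.b (.a .z (.l 9)) (.l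
9))) (.c (.c .z (.l 9)) (.l 9)))) (.b (.a (.c (.b .z (.a .z (.l 9))) (.b (.a .z (.l 9)) (.l 9))) (.l 9)) (.c (.l 9) (.c (.l 9) (.c (.b (.l 9) .z)
.z))))) (.c (.b (.a (.c (.b .z (.c .z (.l 9))) (.l 9)) (.c (.b (.c .z (.l 9)) (.l 9)) (.l 9))) (.c (.c (.c .z (.l 9)) (.l 9)) (.l 9))) (.c (.l 9) (.c
(.l 9) (.b (.c (.l 9) (.b (.l 9) .z)) .z)))))) (.b (.a (.b (.c .z (.a (.b (.c .z (.a .z (.l 13))) (.c .z (.c .z (.l 13)))) (.c .z (.l 13)))) (.c (.a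
(.b .z (.c (.c (.l 9) .z) .z)) (.c (.c (.c (.l 9) .z) .z) (.c (.c (.l 10) .z) .z))) (.c .z (.c (.a .z (.c .z (.l 13))) (.l 13))))) (.c (.c (.c (.b (.l
9) (.c (.b (.l 9) .z) .z)) (.b .z (.c .z (.b .z (.l 10))))) (.c (.b (.c (.b .z (.l 10)) (.a .z (.l 10))) (.l 10)) (.a .z (.c (.l 10) (.b .z (.l
10)))))) (.c (.c .z (.a (.c .z (.l 13)) (.l 13))) (.l 13)))) (.c (.c (.c (.b (.c (.a (.b (.l 9) .z) .z) .z) (.c (.a .z (.b .z (.l 10))) (.a (.b .z (.l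
10)) (.l 10)))) (.b (.c (.a (.b .z (.l 10)) (.l 10)) (.l 10)) (.l 10))) (.a (.c (.a (.c (.b .z (.l 10)) .z) (.l 10)) .z) (.c (.l 10) (.a (.c (.l 10)
(.b .z (.l 10))) (.l 10))))) (.c (.a .z (.c .z (.a .z (.c .z (.l 13))))) (.a (.c (.a .z (.c .z (.b (.l 13) .z))) (.a (.c (.b (.l 13) .z) (.l 13)) (.l
13))) (.c (.a (.c (.a .z (.l 13)) (.l 13)) (.l 13)) (.l 13))))))) (.c (.b (.a (.c (.b (.a (.c (.b .z (.a .z (.l 8))) (.b (.c (.l 8) .z) .z)) (.c (.l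
8) (.b (.l 8) (.c (.l 8) .z)))) (.c (.b (.c (.l 8) (.b (.l 8) .z)) (.c (.b (.l 8) .z) .z)) (.b (.c .z (.b .z (.l 9))) (.c (.b .z (.l 9)) (.l 9)))))
(.b (.c (.b .z (.c (.b .z (.l 9)) (.l 9))) (.l 9)) (.c (.l 9) (.c (.l 9) (.c (.l 9) (.b (.l 9) .z)))))) (.c (.b (.c (.l 8) (.b (.l 8) (.c (.l 8) .z)))
(.c (.b (.l 8) (.c (.l 8) .z)) (.b .z (.c .z (.b .z (.l 9)))))) (.b (.c (.b (.c (.b (.l 8) .z) .z) (.c .z (.b .z (.l 9)))) (.b (.c (.b .z (.l 9)) (.l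
9)) (.l 9))) (.c (.b (.c (.b .z (.l 9)) (.l 9)) (.l 9)) (.c (.l 9) (.c (.b (.l 9) .z) .z)))))) (.c (.b (.c (.b (.c .z (.a (.b .z (.l 9)) .z)) (.c (.a
(.b .z (.l 9)) .z) (.a (.l 9) (.b .z (.l 9))))) (.b (.c (.a (.l 9) (.b .z (.l 9))) (.l 9)) (.l 9))) (.c (.b (.c (.a (.l 9) (.b .z (.l 9))) (.l 9)) (.c
(.c (.a .z (.l 9)) (.l 9)) (.l 9))) (.l 9))) (.c (.c (.l 9) (.b (.l 9) (.a (.l 9) (.c (.l 9) (.b (.l 9) .z))))) (.c (.b (.a (.l 9) (.c (.l 9) (.b (.l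
9) .z))) (.a (.c (.l 9) .z) .z)) (.b (.a (.c (.b (.l 9) .z) .z) .z) (.a (.c .z (.b .z (.l 10))) (.c (.b .z (.l 10)) (.l 10)))))))) (.c (.c (.b (.c (.b
(.c (.a (.l 9) (.b (.l 9) .z)) (.a (.b (.l 9) .z) .z)) (.c .z (.a .z (.b .z (.l 10))))) (.b (.c .z (.a (.b .z (.l 10)) (.a (.l 10) .z))) (.c (.a (.b
.z (.l 10)) (.l 10)) (.a (.l 10) (.a (.l 10) .z))))) (.c (.b (.c (.a .z (.l 10)) (.l 10)) (.l 10)) (.a (.l 10) (.a (.l 10) (.c (.l 10) (.a (.l 10)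
.z)))))) (.a (.c (.a (.l 10) (.c (.l 10) (.a (.l 10) (.a (.l 10) .z)))) (.a (.c (.l 10) (.a (.b .z (.l 10)) .z)) (.c .z (.a .z (.b (.l 13) .z))))) (.c
(.a (.c (.a (.l 10) (.a (.l 10) .z)) .z) (.c .z (.a .z (.b (.l 11) .z)))) (.a (.c .z (.l 13)) (.c .z (.b .z (.l 13))))))) (.c (.a (.c (.a (.c .z (.b
(.l 13) (.a .z (.l 13)))) (.c (.a (.b (.l 13) .z) (.l 13)) (.l 13))) (.l 13)) (.l 13)) (.l 13)))))))

theorem vQ160 : ev3 Q160 J4_4 J4_9 J3_6 = 323412775016581398820697 := by decide +kernel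

noncomputable def Q137 : QT3 :=
(.c (.b (.a (.c .z (.b (.a (.c .z (.b .z (.c .z (.b .z (.c .z (.l 19)))))) .z) (.c (.b .z (.c .z (.a (.b (.c .z (.l 19)) (.l 19)) .z))) (.b (.c (.a
(.b .z (.l 19)) .z) (.a (.l 19) (.b (.c .z (.l 19)) (.l 19)))) (.c (.a (.l 19) (.b (.c .z (.l 19)) (.l 19))) (.l 19)))))) (.c (.b (.a .z (.c (.a .z
(.c .z (.a .z (.c .z (.l 23))))) (.a (.c .z (.a .z (.b (.l 23) .z))) (.c (.a (.c .z (.l 23)) (.l 23)) (.l 23))))) (.a .z (.a .z (.c (.a .z (.c .z (.a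
.z (.l 23)))) (.a (.c .z (.b (.l 23) .z)) (.l 23)))))) (.b (.c (.a (.a .z (.c .z (.b (.a .z (.l 23)) .z))) (.a (.c (.a (.b (.l 23) .z) (.l 23)) (.l
23)) (.l 23))) (.b (.c (.a (.a .z (.l 23)) (.l 23)) (.c (.a (.a .z (.l 23)) (.l 23)) (.b (.c (.l 23) .z) .z))) (.c (.a (.a .z (.a .z (.l 23))) (.l
23)) (.a .z (.c .z (.b .z (.c .z (.l 10)))))))) (.c (.b (.a .z (.a (.a .z (.l 23)) (.l 23))) (.c (.a .z (.a .z (.l 23))) (.a .z (.b (.a .z (.l 23))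
.z)))) (.b (.c (.a .z (.b (.c (.l 23) .z) .z)) .z) (.c (.a (.b .z (.c .z (.l 19))) .z) (.a (.l 19) (.b .z (.a (.l 19) .z))))))))) (.c (.b (.c (.a (.b
(.a .z (.a .z (.c .z (.l 39)))) (.c .z (.a .z (.c .z (.l 39))))) (.a (.c (.c .z (.b (.l 39) .z)) (.b .z (.a (.l 39) .z))) .z)) (.a .z (.b (.c .z (.a
.z (.a .z (.a .z (.l 23))))) .z))) (.c (.a .z (.b (.c .z (.a (.b (.l 39) .z) .z)) .z)) .z)) (.b (.c (.a (.b (.c (.a .z (.b .z (.c .z (.l 19)))) (.a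
(.b (.l 19) (.a .z (.l 19))) (.b (.c .z (.l 19)) (.l 19)))) (.a .z (.b (.c .z (.a .z (.l 19))) .z))) (.b (.c (.a .z (.b (.a .z (.l 23)) .z)) (.a (.b
.z (.c .z (.l 19))) .z)) (.c .z (.a (.l 19) (.b .z (.a (.l 19) .z)))))) (.a (.c (.b (.l 19) (.a .z (.b (.l 19) (.a .z (.l 19))))) (.b (.l 19) (.c (.b
(.a .z (.l 19)) .z) (.a .z (.b (.l 19) .z))))) (.b (.c (.a (.l 19) (.b .z (.a (.l 19) .z))) (.l 19)) (.l 19)))) (.c (.a .z (.b (.c .z (.a (.b (.a .z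
(.l 19)) .z) (.b (.l 19) (.a .z (.l 19))))) (.a .z (.b (.a .z (.b (.l 19) .z)) .z)))) (.c (.a .z (.b (.a (.b (.a .z (.l 19)) .z) (.l 19)) (.a .z (.b
(.a .z (.l 19)) .z)))) (.a .z (.b (.c (.a (.b (.l 19) .z) (.l 19)) (.a (.b (.l 19) .z) (.l 19))) .z))))))) (.b (.c (.b (.c (.a (.b (.c (.a (.b .z (.c
.z (.l 19))) .z) (.a (.c (.l 19) (.c (.l 19) .z)) (.b .z (.l 19)))) (.c (.a (.l 19) (.b (.c .z (.l 19)) (.l 19))) (.c (.c (.l 19) (.a .z (.l 19)))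
.z))) (.b (.c (.a .z (.c (.b .z (.c .z (.l 10))) (.b (.c .z (.l 10)) (.l 10)))) (.a .z (.b (.c (.l 10) (.a .z (.l 10))) (.c (.a .z (.l 10)) .z)))) (.c
(.a .z (.b (.c (.l 10) (.a .z (.l 10))) (.c (.a .z (.l 10)) .z))) (.a (.b .z (.c (.l 19) .z)) .z)))) (.a (.c (.c (.b .z (.a .z (.c .z (.b .z (.l
11))))) (.b (.c (.a (.l 11) (.b .z (.l 11))) (.l 11)) (.l 11))) (.l 11)) (.b (.a (.c (.b .z (.c .z (.c .z (.l 11)))) (.l 11)) (.c .z (.b (.a (.l 11)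
(.c .z (.l 11))) (.l 11)))) (.a (.c (.c .z (.c (.b .z (.l 11)) (.l 11))) (.l 11)) (.c (.b .z (.c .z (.c .z (.l 11)))) (.l 11)))))) (.a (.c (.c (.c (.l
19) (.b (.l 19) (.a .z (.c (.l 19) .z)))) (.c (.b (.c (.a .z (.l 19)) .z) .z) (.b (.a (.c .z (.l 20)) .z) (.a (.l 20) .z)))) (.c (.c (.a (.c .z (.a .z
(.l 11))) (.c (.a .z (.l 11)) (.l 11))) (.l 11)) (.l 11))) (.c (.b (.a (.c (.b (.c .z (.l 19)) (.l 19)) (.c (.l 19) .z)) (.c (.b .z (.a (.l 19) .z))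
(.b (.a (.l 19) .z) (.c (.l 19) .z)))) (.c (.l 19) (.c (.a .z (.l 19)) (.a (.c .z (.b .z (.l 11))) .z)))) (.c (.c (.a (.b (.c .z (.l 11)) (.l 11)) (.b
.z (.c .z (.a (.l 11) .z)))) (.a (.l 11) (.b (.c (.a (.l 11) .z) (.l 11)) (.l 11)))) (.a (.l 11) (.b (.l 11) (.c (.l 11) (.a (.l 11) (.b (.l 11)
.z))))))))) (.c (.a (.b (.l 11) (.c (.l 11) (.b (.l 11) (.a (.l 11) (.c (.l 11) (.a (.l 11) .z)))))) (.b (.c (.l 11) (.a (.l 11) (.b (.l 11) (.c (.a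
(.l 11) (.b (.l 11) .z)) (.a (.b (.l 11) .z) .z))))) (.c (.a (.b (.l 11) (.c (.l 11) (.a (.l 11) (.b (.l 11) .z)))) (.b (.c (.a (.l 11) (.b (.l 11)
.z)) (.a (.b (.l 11) .z) .z)) (.c (.a (.b (.l 11) .z) .z) .z))) (.a (.b (.c (.a (.l 11) (.b (.l 11) .z)) (.a (.b (.l 11) .z) .z)) (.c (.a (.b (.l 11)
.z) .z) .z)) (.b (.c .z (.a .z (.b .z (.l 12)))) (.c (.a .z (.l 12)) (.c (.b (.l 12) .z) .z))))))) (.a (.b (.c (.l 11) (.a (.l 11) (.b (.l 11) (.c (.a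
(.l 11) (.b (.l 11) .z)) (.a (.b (.l 11) .z) .z))))) (.c (.a (.b (.l 11) (.c (.b (.l 11) (.a (.l 11) .z)) (.a (.b (.l 11) .z) .z))) (.b (.c (.a (.l
11) (.b (.l 11) .z)) (.a (.b (.l 11) .z) .z)) .z)) (.a (.b (.c (.a (.l 11) (.b (.l 11) .z)) (.a (.b (.l 11) .z) .z)) .z) (.b .z (.c (.a .z (.l 14))
(.l 14)))))) (.b (.c (.a (.b (.l 11) (.c (.a (.l 11) (.b (.l 11) .z)) (.a (.b (.l 11) .z) .z))) (.b (.c (.a (.l 11) (.b (.l 11) .z)) (.a (.b (.l 11)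
.z) .z)) .z)) (.a (.b (.c (.a (.l 11) (.b (.l 11) .z)) .z) .z) (.b .z (.a (.c .z (.l 14)) .z)))) (.c .z (.a (.b (.c .z (.l 14)) (.l 14)) (.c .z (.a
(.l 14) .z)))))))) (.c (.c (.b (.a (.c (.c (.b (.a .z (.c (.l 19) .z)) .z) (.b .z (.a (.b (.l 20) .z) .z))) (.c (.b (.a (.l 20) (.c .z (.l 20))) (.a
(.b (.l 20) .z) (.c (.l 20) .z))) (.a (.c (.l 20) (.a (.l 20) .z)) .z))) (.c (.c (.b (.l 19) (.a (.c (.l 19) .z) (.l 19))) (.b (.a (.c (.l 19) .z) (.l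
19)) .z)) (.a (.c .z (.b (.c .z (.l 11)) (.c (.a .z (.l 11)) (.l 11)))) (.b (.c .z (.c .z (.a (.l 11) .z))) (.c .z (.a (.l 11) .z)))))) (.a (.c (.b .z
(.c .z (.c .z (.l 29)))) (.c (.a (.b .z (.l 29)) .z) (.a .z (.c .z (.a .z (.l 11)))))) (.c .z (.a (.b (.c .z (.l 11)) (.c .z (.a (.b (.l 11) .z) .z)))
(.b (.c (.a (.c .z (.l 11)) .z) .z) .z))))) (.a (.b (.c (.c (.a (.c .z (.a (.a .z (.l 11)) (.l 11))) (.c (.a (.a .z (.l 11)) (.l 11)) (.l 11))) (.l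
11)) (.b (.l 11) (.a (.l 11) (.c (.l 11) (.a (.l 11) (.b (.l 11) .z)))))) (.c (.b (.a (.c (.c .z (.l 11)) (.l 11)) (.c (.l 11) (.b (.l 11) (.a (.l 11)
.z)))) (.a (.c (.c (.a .z (.l 11)) (.l 11)) (.l 11)) (.c (.b (.l 11) (.a (.l 11) .z)) (.a (.b (.l 11) .z) .z)))) (.b (.a (.c (.l 11) (.b (.l 11) (.a
(.l 11) .z))) (.c (.a (.b (.l 11) .z) .z) .z)) (.a (.c (.b (.a (.l 11) .z) .z) .z) .z)))) (.b (.c (.a (.b (.l 11) (.c (.l 11) (.a (.l 11) (.b (.l 11)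
.z)))) (.b (.c (.l 11) (.a (.l 11) (.b (.l 11) .z))) (.c (.a (.b (.l 11) .z) .z) .z))) (.a (.b (.c (.l 11) (.a (.l 11) (.b (.l 11) .z))) (.c (.a (.b
(.l 11) .z) .z) .z)) (.b (.c (.a (.b (.l 11) .z) .z) .z) .z))) (.c (.a (.b (.c (.a (.l 11) .z) .z) .z) .z) (.a (.b (.c .z (.a .z (.l 22))) (.c (.l 22)
.z)) .z))))) (.a (.b (.c (.c (.b (.a (.l 11) (.c (.l 11) (.a (.l 11) (.b (.l 11) .z)))) (.a (.c (.l 11) (.b (.l 11) (.a (.l 11) .z))) (.c (.a (.b (.l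
11) .z) .z) .z))) (.a (.b (.c (.l 11) (.b (.l 11) (.a (.l 11) .z))) (.c (.b (.a (.l 11) .z) .z) .z)) (.b (.c (.a (.b (.l 11) .z) .z) .z) .z))) (.c (.a
(.b .z (.c .z (.l 14))) (.b (.c .z (.l 14)) (.c (.a (.l 14) .z) (.l 14)))) (.a (.b (.c (.a .z (.l 14)) (.l 14)) (.l 14)) (.l 14)))) (.c (.c (.a (.b
(.c (.b (.a (.l 11) .z) .z) .z) .z) .z) (.a (.b (.c .z (.a .z (.l 14))) (.c (.a (.l 14) .z) (.l 14))) (.b .z (.c .z (.a (.l 14) .z))))) (.a (.b (.l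
14) (.c (.l 14) (.a (.b (.l 14) .z) (.l 14)))) (.l 14)))) (.c (.b (.c (.a (.b (.c (.a (.b (.l 11) .z) .z) .z) .z) (.b (.c .z (.a .z (.l 12))) (.c (.a
.z (.a .z (.l 12))) .z))) (.a .z (.b (.c (.b (.c (.l 12) .z) .z) .z) .z))) .z) (.c (.b (.c (.a .z (.b (.c (.a .z (.l 13)) .z) .z)) (.a (.a (.c .z (.l
14)) .z) .z)) (.c .z (.a (.a (.l 14) (.c .z (.l 14))) .z))) (.a (.l 14) (.c (.a (.c .z (.l 14)) .z) (.a (.b (.l 14) .z) .z)))))))))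

theorem vQ137 : ev3 Q137 J4_3 J4_11 J3_6 = 168317576664518813447978 := by decide +kernel

noncomputable def Q172 : QT3 :=
(.c (.c (.a (.b (.c (.b (.c .z (.c (.a .z (.c .z (.a .z (.l 25)))) (.a .z (.b (.c (.a .z (.l 25)) .z) (.l 25))))) .z) (.c (.b (.c (.a (.b (.c (.a (.l
23) .z) (.l 23)) (.a (.c .z (.l 23)) .z)) .z) (.b (.c (.a (.l 23) (.a (.l 23) .z)) (.a (.l 23) (.b (.l 23) .z))) (.c (.a (.b (.l 23) .z) .z) .z))) .z)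
(.b (.c (.b (.c .z (.a .z (.b .z (.l 19)))) (.c .z (.a (.b .z (.l 19)) (.a (.l 19) .z)))) (.b (.c (.a (.b .z (.l 19)) (.l 19)) (.l 19)) (.l 19))) (.b
(.a (.c (.a (.l 19) (.b (.l 19) .z)) (.l 19)) (.c .z (.b (.a (.l 19) .z) .z))) (.a (.b (.c .z (.a (.l 19) .z)) .z) .z))))) .z) (.b (.c (.a (.c .z (.b
(.c (.a (.c .z (.b .z (.l 25))) .z) (.a (.b (.l 25) (.b (.l 25) .z)) (.c .z (.b (.l 25) .z)))) .z)) (.b (.c (.c .z (.b .z (.a (.l 31) .z))) .z) .z))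
(.a (.b (.c (.c (.b (.a .z (.b (.l 25) .z)) .z) .z) (.c (.b (.c .z (.a (.l 19) .z)) .z) (.c (.b (.l 19) .z) (.a (.l 19) .z)))) .z) .z)) (.c .z (.a (.b
.z (.c .z (.c .z (.b .z (.c .z (.l 37)))))) (.b (.c .z (.c (.a .z (.b .z (.l 28))) .z)) (.c (.c .z (.c .z (.c .z (.l 28)))) (.c (.b (.l 28) .z)
.z))))))) (.a (.b (.c (.a (.b (.c (.c (.c (.l 19) (.b (.c (.l 19) .z) (.l 19))) .z) (.c (.a (.c .z (.a (.c .z (.l 10)) .z)) (.c (.b .z (.l 25)) .z))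
(.a (.c (.a (.l 10) (.c .z (.l 10))) (.l 10)) .z))) (.c (.c (.b (.l 19) (.b (.l 19) (.a (.l 19) .z))) (.c (.l 19) (.b .z (.a (.l 19) .z)))) (.a (.c .z
(.c (.a (.c .z (.l 10)) .z) (.a (.l 10) .z))) (.b (.c (.c .z (.l 25)) .z) .z)))) (.b (.c (.c (.c (.a (.l 19) (.c (.l 19) .z)) .z) .z) (.a (.c .z (.c
(.a .z (.c .z (.l 11))) (.a (.c .z (.l 11)) (.l 11)))) (.b (.c .z (.l 11)) (.c (.c .z (.a .z (.l 11))) (.a (.l 11) (.b (.l 11) .z)))))) (.c (.a (.c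
(.b (.l 19) .z) .z) .z) (.a (.b (.c .z (.a (.c .z (.l 11)) (.b (.l 11) .z))) .z) .z)))) (.a (.b (.c (.c (.a (.c (.a (.c (.l 10) .z) .z) .z) (.c (.a
(.c .z (.l 11)) (.l 11)) (.c (.b (.l 11) .z) .z))) (.c (.a (.l 13) (.c .z (.b (.l 13) .z))) (.b (.c (.l 13) (.b (.l 13) .z)) .z))) .z) (.c (.a .z (.b
(.c (.c (.a .z (.l 11)) .z) .z) .z)) .z)) (.b (.a (.c (.b (.c (.l 11) .z) (.c (.c (.l 11) (.c (.l 11) .z)) .z)) .z) (.c (.b (.c (.l 11) .z) (.c (.a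
(.b (.l 11) .z) .z) .z)) (.b .z (.a .z (.b .z (.c (.l 11) .z)))))) (.a (.c (.b .z (.c .z (.a .z (.b (.l 11) .z)))) (.b (.a .z (.c (.b .z (.l 11)) .z))
(.c .z (.b (.c .z (.l 12)) .z)))) (.c (.b (.c (.a .z (.b .z (.l 11))) (.a (.b .z (.l 11)) (.l 11))) (.c (.c (.c .z (.l 11)) (.l 11)) (.b (.l 11) (.c
(.l 11) .z)))) (.b (.c (.l 11) .z) (.c (.b (.c (.l 11) .z) .z) (.b (.c .z (.l 12)) .z)))))))) (.c (.a (.b (.c (.a (.b (.b (.c .z (.l 19)) .z) .z) .z)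
.z) .z) .z) (.a .z (.b (.c (.b (.c (.b (.c (.c .z (.l 11)) (.l 11)) .z) .z) .z) (.c .z (.c .z (.b .z (.c (.b .z (.l 13)) (.l 13)))))) (.c .z (.b (.c
.z (.b (.c (.c .z (.l 13)) .z) .z)) .z)))))) (.b (.c (.a (.b (.c (.a .z (.b (.c .z (.a (.c .z (.l 11)) .z)) .z)) (.a (.b (.c (.c (.a .z (.l 11)) (.l
11)) (.a (.l 11) (.b (.l 11) .z))) (.c (.a (.b (.l 11) .z) .z) .z)) (.b (.c (.a (.b (.l 11) .z) .z) .z) .z))) .z) (.b .z (.c (.a (.b .z (.c .z (.c (.l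
25) .z))) (.c (.c .z (.l 25)) (.b (.b .z (.l 25)) (.c (.l 25) .z)))) .z))) (.a (.b (.a (.c (.b (.c (.a (.b (.l 11) .z) .z) .z) (.c (.a .z (.b .z (.l
11))) (.a (.b .z (.l 11)) (.l 11)))) (.b (.a .z (.b .z (.c (.l 11) .z))) (.c (.c (.l 11) (.a (.l 11) .z)) .z))) (.c (.b (.c .z (.a (.b .z (.l 11)) (.l
11))) (.c (.c (.c .z (.l 11)) (.l 11)) (.l 11))) (.c (.c (.a (.l 11) (.c (.l 11) .z)) .z) .z))) (.c (.b (.c (.c (.c .z (.l 11)) (.l 11)) (.l 11)) (.c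
(.c (.c .z (.a (.l 11) .z)) (.l 11)) (.b (.a (.l 11) (.c (.l 11) .z)) (.c (.l 11) .z)))) (.b (.c (.a (.c (.l 11) (.a (.l 11) .z)) .z) .z) (.c (.b (.c
(.a (.l 11) .z) .z) .z) .z)))) (.b (.c (.c (.b .z (.c .z (.a (.l 11) (.b .z (.l 11))))) (.b (.c (.a (.l 11) .z) (.a (.a (.l 11) .z) .z)) (.a (.c (.l
11) .z) .z))) (.c (.a .z (.c (.a (.c .z (.l 12)) (.l 12)) (.c (.l 12) (.a .z (.l 12))))) .z)) (.c (.b (.c (.a (.c .z (.l 11)) (.c .z (.a (.l 11) .z)))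
(.a (.c (.a (.l 11) .z) .z) (.c .z (.a .z (.l 12))))) (.c (.a (.c .z (.l 11)) .z) (.b (.a .z (.c .z (.l 12))) .z))) (.b (.c (.a (.c (.a .z (.l 12))
.z) (.c (.l 12) (.c (.l 12) .z))) .z) (.c (.b (.c (.a .z (.l 12)) .z) .z) .z)))))) (.c (.a .z (.b .z (.c .z (.b (.c .z (.b .z (.l 21))) (.c .z (.a (.b
(.l 21) .z) (.l 21))))))) (.b (.c (.b (.c (.b (.a (.c .z (.l 11)) .z) .z) .z) .z) (.b (.c .z (.c .z (.a (.c .z (.b .z (.l 13))) (.c (.b .z (.l 13))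
(.l 13))))) (.c .z (.c (.a (.c .z (.b .z (.l 13))) (.c (.b .z (.l 13)) (.l 13))) (.l 13))))) (.c .z (.b (.c (.c .z (.a (.c .z (.b .z (.l 13))) (.c (.b
.z (.l 13)) (.l 13)))) (.b (.c (.l 13) (.b (.l 13) .z)) (.c (.b (.c (.l 13) .z) .z) .z))) (.c (.b (.c (.a .z (.c .z (.l 13))) (.b (.c (.l 13) .z) .z))
.z) (.b (.c .z (.a .z (.l 14))) (.a .z (.l 14))))))))))) (.a (.b (.a (.b .z (.c (.c (.a .z (.b .z (.c (.c (.c .z (.c .z (.l 13))) .z) .z))) (.a (.b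
(.c (.a .z (.c .z (.l 19))) (.c (.c (.l 19) .z) .z)) (.c (.c .z (.l 19)) .z)) (.c (.b (.c .z (.l 19)) (.c .z (.l 19))) (.c (.c (.c (.l 19) .z) .z)
.z)))) .z)) (.b .z (.c (.c (.c (.b (.c (.b .z (.c .z (.c .z (.l 13)))) .z) (.c (.c .z (.l 13)) (.c (.c (.b .z (.l 13)) .z) .z))) .z) (.c (.b (.c .z
(.c .z (.l 19))) (.c .z (.c .z (.l 19)))) (.c (.c (.c (.b (.l 19) .z) .z) .z) .z))) .z))) (.c (.c (.b (.c (.b (.c (.c (.c (.a .z (.b .z (.l 13))) (.a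
(.b .z (.l 13)) (.l 13))) (.l 13)) (.b (.c (.c (.a .z (.l 13)) .z) .z) (.c (.b (.c (.l 13) .z) .z) .z))) (.c (.b (.c (.l 13) (.b (.c (.l 13) .z) .z))
(.c (.b (.c (.l 13) .z) .z) .z)) (.b (.c .z (.l 14)) (.l 14)))) (.b (.c (.b .z (.c (.l 14) (.c (.l 14) .z))) .z) (.c (.c (.l 14) (.c (.l 14) (.a .z
(.l 14)))) .z))) (.c (.b (.c (.b (.c .z (.a .z (.l 14))) (.a .z (.c .z (.l 14)))) (.l 14)) (.c (.a .z (.c (.a .z (.l 14)) (.l 14))) (.l 14))) (.c (.l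
14) (.c (.b (.c (.a .z (.l 14)) .z) (.c (.l 14) (.a .z (.l 14)))) .z)))) (.c (.b (.c (.c (.a .z (.a .z (.b .z (.l 20)))) (.a (.c .z (.a (.l 19) .z))
(.c (.a .z (.l 20)) .z))) (.a (.c (.l 19) (.b (.l 19) (.c (.l 19) .z))) (.c (.a (.c .z (.l 19)) .z) (.b (.c (.l 19) .z) .z)))) (.a (.c (.c .z (.a (.l
19) (.c .z (.l 19)))) (.b (.c (.c (.l 19) .z) .z) .z)) .z)) (.b (.a (.c .z (.b (.c .z (.l 27)) .z)) .z) (.a .z (.c .z (.b .z (.c (.a (.l 23) .z)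
.z))))))) (.c (.c (.b (.a .z (.c .z (.c (.c (.l 33) .z) .z))) (.a .z (.c (.c .z (.c .z (.l 33))) .z))) .z) .z))) (.b (.c (.b .z (.c (.c (.b (.c (.b
(.c .z (.b .z (.c .z (.l 13)))) (.c .z (.l 13))) (.b .z (.c (.c (.l 13) .z) .z))) (.c (.c (.c (.a .z (.b .z (.l 13))) (.a (.b .z (.l 13)) (.l 13)))
(.l 13)) (.c (.c (.l 13) (.a .z (.l 13))) .z))) .z) .z)) (.b (.c (.b (.c (.c .z (.a .z (.c .z (.l 33)))) .z) .z) .z) (.c (.c (.a (.c .z (.c (.c .z (.l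
33)) .z)) (.c .z (.c (.c .z (.l 33)) .z))) .z) .z))) (.c (.c (.b (.c (.b (.c (.l 13) (.b (.c (.l 13) .z) (.c (.b (.l 13) (.c (.l 13) .z)) .z))) (.c
(.b (.c (.l 13) (.b (.l 13) (.c (.l 13) .z))) (.c (.b (.l 13) (.c (.l 13) .z)) .z)) (.b (.c .z (.b .z (.l 14))) (.c (.b .z (.l 14)) (.l 14))))) (.b
(.c (.b (.c .z (.b .z (.l 14))) (.c (.b .z (.l 14)) (.l 14))) .z) (.a (.c (.l 14) .z) (.c (.l 14) .z)))) (.c (.b (.c (.b (.c .z (.b .z (.l 14))) (.l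
14)) (.l 14)) (.l 14)) (.a (.c (.l 14) (.b (.c (.c (.l 14) .z) .z) (.a (.c (.l 14) .z) (.c (.l 14) .z)))) (.c (.b (.l 14) (.a (.c (.l 14) .z) .z)) (.b
(.a (.c (.l 14) .z) .z) .z))))) (.c (.b (.a (.c (.b (.c .z (.c .z (.l 20))) (.a (.c .z (.l 20)) .z)) (.b (.a .z (.c (.l 20) .z)) .z)) (.c .z (.b .z
(.a .z (.c .z (.l 21)))))) (.a (.c (.b (.a (.c (.l 20) .z) .z) .z) (.b (.a .z (.c .z (.l 21))) (.a (.c .z (.l 21)) (.l 21)))) (.c (.b (.a .z (.c .z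
(.l 21))) (.a (.c .z (.l 21)) (.c .z (.l 21)))) (.c (.l 21) (.b (.l 21) (.c (.l 21) .z)))))) (.b (.a .z (.c (.b (.a .z (.c (.l 21) .z)) (.c (.c (.l
21) .z) .z)) .z)) .z))) (.c (.c (.c (.a (.c .z (.b .z (.c (.l 33) .z))) (.c .z (.b (.c .z (.l 33)) (.c (.l 33) .z)))) (.b (.a (.c (.c (.l 33) .z) .z)
.z) .z)) .z) .z)))))

theorem vQ172 : ev3 Q172 J4_5 J4_11 J2_3 = 104662696890848916878149 := by decide +kernel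

noncomputable def Q202 : QT3 :=
(.a (.b (.a (.b (.c (.c (.c (.c (.c .z (.b (.a (.c .z (.l 14)) .z) .z)) (.b (.c (.a (.l 14) (.b (.l 14) (.c .z (.l 14)))) (.l 14)) (.c (.a (.b (.l 14)
.z) .z) (.a (.l 14) (.b (.l 14) .z))))) (.b (.c (.l 14) (.a (.c (.l 14) (.a (.b .z (.l 14)) (.c (.l 14) .z))) (.c (.a (.l 14) .z) .z))) (.c (.b (.a
(.l 14) (.c (.l 14) (.a (.l 14) .z))) (.c (.l 14) .z)) (.b (.c (.b (.a (.l 14) .z) .z) .z) .z)))) (.b (.c .z (.c (.b (.c .z (.a (.a .z (.l 23)) (.l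
23))) (.a (.c .z (.a .z (.l 23))) (.c (.a .z (.l 23)) (.l 23)))) (.a (.c (.l 23) (.a .z (.c (.l 23) .z))) (.a (.c (.l 23) (.c (.l 23) .z)) (.c (.l 23)
.z))))) (.b (.c .z (.a (.c (.c .z (.a .z (.l 23))) (.c (.l 23) .z)) (.b (.a (.c (.l 23) .z) (.c (.l 23) .z)) (.a (.c (.l 23) .z) .z)))) .z))) .z) (.c
(.c (.b (.c (.b (.c .z (.c .z (.b (.a (.l 14) .z) .z))) .z) .z) (.c (.b .z (.a .z (.c .z (.c (.l 31) .z)))) (.b .z (.a (.c .z (.c .z (.c .z (.l 19))))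
(.c .z (.c .z (.l 19))))))) (.b (.b (.c .z (.a (.b .z (.c .z (.c (.l 25) .z))) (.b (.c .z (.c (.l 25) .z)) (.c (.c .z (.l 25)) .z)))) (.c (.a (.c .z
(.b .z (.c (.l 19) .z))) (.c (.b .z (.c .z (.l 19))) (.c (.l 19) .z))) (.c (.c .z (.l 25)) (.c (.c (.a (.l 25) .z) .z) .z)))) (.c (.c (.c (.b (.a (.c
.z (.l 19)) (.l 19)) (.l 19)) (.l 19)) (.c (.l 19) (.c (.l 19) (.b .z (.l 19))))) (.c (.b (.c .z (.c (.l 25) (.a (.l 25) .z))) .z) .z)))) .z)) (.b (.c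
(.c (.b (.c (.b (.c .z (.a (.c (.c .z (.l 14)) (.l 14)) (.c .z (.a (.l 14) .z)))) (.c .z (.a (.c .z (.c .z (.l 14))) .z))) (.c (.a (.c (.a (.l 14) (.c
(.l 14) .z)) .z) .z) (.a (.c .z (.b (.c (.l 19) .z) .z)) (.c (.b (.c (.l 19) .z) .z) .z)))) .z) (.b (.a (.b (.c .z (.c (.c .z (.a (.l 23) .z)) .z))
.z) .z) (.b .z (.a (.c .z (.b .z (.c .z (.c (.l 25) .z)))) (.c (.c (.b .z (.c .z (.l 19))) .z) (.c .z (.c (.c (.l 25) .z) .z))))))) .z) (.a (.c (.c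
(.b (.c (.b (.c (.c (.b (.l 26) .z) .z) .z) .z) .z) (.c .z (.c .z (.c (.b .z (.l 19)) (.l 19))))) (.b (.b (.c (.c (.b .z (.c .z (.l 19))) (.c (.c (.l
19) .z) .z)) (.c (.c .z (.c .z (.l 25))) .z)) (.c (.c (.l 19) (.c (.c (.l 19) .z) .z)) (.c (.c .z (.c (.l 25) .z)) .z))) (.c (.c (.l 19) (.c (.l 19)
(.c (.b .z (.l 19)) .z))) .z))) .z) (.c (.b (.c (.c .z (.b .z (.c .z (.c .z (.c .z (.l 19)))))) (.c (.c (.c (.b (.c .z (.l 19)) (.l 19)) (.l 19)) (.c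
(.c (.b .z (.l 19)) .z) .z)) .z)) (.c (.c .z (.c .z (.c (.b (.c .z (.l 19)) (.l 19)) (.l 19)))) (.a (.c (.c (.l 19) (.b (.c (.l 19) .z) (.c (.l 19)
.z))) .z) (.b (.c (.c (.l 19) .z) .z) (.a (.c (.c (.l 19) .z) .z) (.c (.c (.l 19) .z) .z)))))) (.b (.c (.c (.c .z (.b .z (.c (.l 34) .z))) .z) .z)
.z))))) (.a (.a (.b (.c (.c (.b (.c (.b (.c .z (.l 31)) (.c (.l 31) (.c (.l 31) .z))) (.c (.b .z (.c .z (.b .z (.l 19)))) (.b (.c (.b .z (.l 19)) (.l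
19)) (.l 19)))) (.c .z (.c (.c (.b .z (.c .z (.l 19))) (.l 19)) (.b (.l 19) (.c (.l 19) (.b (.l 19) .z)))))) (.b (.c (.c (.l 19) (.b (.l 19) (.c (.l
19) (.b (.l 19) .z)))) .z) (.c (.b (.c (.c (.l 19) (.b (.l 19) .z)) .z) .z) .z))) .z) (.c (.c (.b (.c (.c .z (.b .z (.c .z (.b (.l 19) .z)))) (.b (.c
(.c (.l 19) (.b (.l 19) .z)) .z) .z)) .z) .z) .z)) (.b (.c (.c (.c (.b (.c (.b (.l 31) (.a (.l 31) .z)) (.b (.c (.l 31) .z) .z)) .z) (.b (.c (.b .z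
(.c .z (.c .z (.l 19)))) (.l 19)) (.c (.c (.b .z (.c .z (.l 19))) (.l 19)) (.b (.l 19) (.c (.b (.l 19) .z) .z))))) (.b (.c (.c (.b (.l 19) (.c (.l 19)
(.b (.l 19) .z))) (.b (.c (.l 19) (.b (.l 19) .z)) .z)) .z) (.c (.b (.c (.c (.b (.l 19) .z) .z) .z) .z) .z))) .z) (.c (.c (.b (.c (.c .z (.b (.c .z
(.c .z (.l 19))) .z)) (.b (.c (.c (.b (.l 19) .z) .z) .z) .z)) .z) .z) .z))) (.a (.b (.c (.c (.c (.b (.c (.b (.a (.l 31) .z) .z) .z) .z) (.b (.c (.b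
(.c .z (.c .z (.l 19))) (.c .z (.c .z (.l 19)))) (.l 19)) (.c (.b (.c .z (.l 19)) (.c (.c .z (.l 19)) (.b (.l 19) .z))) (.b (.c (.b (.l 19) .z) .z)
.z)))) (.b (.c (.c (.b (.l 19) (.c (.b (.l 19) .z) .z)) (.b (.c (.b (.l 19) .z) .z) .z)) .z) .z)) .z) .z) (.b (.c (.c (.b (.a (.c .z (.c (.b .z (.c .z
(.l 19))) (.l 19))) (.c .z (.b (.c .z (.l 19)) .z))) .z) (.b (.a (.b (.c (.c (.c (.l 19) .z) .z) .z) .z) .z) .z)) .z) .z)))) (.b (.a (.b (.a (.c (.c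
(.b (.c (.b .z (.c .z (.c .z (.a .z (.l 16))))) (.b (.c (.c (.l 16) .z) .z) (.c (.a (.c (.l 16) .z) .z) .z))) (.c .z (.b .z (.c (.a .z (.c (.l 16)
.z)) .z)))) (.b .z (.b (.c .z (.c (.c .z (.c (.l 23) .z)) .z)) (.c (.c (.b .z (.c (.l 19) .z)) .z) (.c (.c .z (.c (.l 23) .z)) .z))))) .z) (.c (.b (.c
(.c (.b (.c .z (.a (.c .z (.l 16)) .z)) (.c .z (.a (.b (.l 16) .z) .z))) (.b (.a (.c (.c (.l 16) .z) .z) .z) .z)) .z) (.c (.a (.c .z (.b (.c (.b .z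
(.l 16)) .z) (.c (.c (.l 16) .z) .z))) (.c .z (.b (.a (.c (.l 16) .z) .z) .z))) .z)) .z)) (.a (.c (.b (.c (.a (.c .z (.b .z (.c .z (.c .z (.l 19)))))
(.c .z (.b (.c .z (.c .z (.l 19))) .z))) (.a (.b (.c (.c (.l 19) .z) .z) (.a (.c (.c (.l 19) .z) .z) (.c (.c (.l 19) .z) .z))) (.b (.a (.c (.c (.l 19)
.z) .z) .z) .z))) (.c (.a (.c .z (.b (.c .z (.l 19)) (.a (.c .z (.l 19)) .z))) .z) (.a (.b (.a (.c (.c (.l 19) .z) .z) .z) .z) .z))) .z) .z)) .z) (.a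
(.a (.b (.c (.c .z (.b (.a .z (.c (.b .z (.c .z (.c (.l 20) .z))) .z)) (.c (.b (.c (.c (.c .z (.l 20)) (.l 20)) (.b (.c (.l 20) .z) (.c (.l 20) .z)))
(.c (.b (.c .z (.l 20)) .z) .z)) (.b .z (.c (.a .z (.c (.l 23) .z)) .z))))) .z) .z) (.b (.c (.c .z (.b (.c (.b .z (.c (.b (.c .z (.l 20)) (.c .z (.l
20))) (.c (.c (.l 20) .z) .z))) .z) (.c (.b (.c (.l 20) (.b .z (.c (.l 20) .z))) (.c (.b (.l 20) (.c (.l 20) .z)) (.b .z (.c .z (.l 23))))) (.b (.c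
(.b .z (.c .z (.l 23))) .z) (.c (.l 23) .z))))) .z) (.c (.c .z (.b (.c (.b (.c .z (.c (.a .z (.l 23)) (.l 23))) (.c .z (.a (.c .z (.l 23)) (.l 23))))
(.a (.b (.c (.c (.l 23) .z) .z) .z) (.b (.c (.l 23) .z) .z))) (.c (.a (.b (.c .z (.c .z (.l 23))) .z) (.b (.c .z (.a (.l 23) .z)) .z)) .z))) .z))) (.b
(.c (.c (.a (.b .z (.c .z (.b .z (.c .z (.c .z (.c .z (.l 20))))))) .z) (.a (.b (.c (.b .z (.c (.c (.c .z (.l 20)) (.c (.l 20) .z)) .z)) .z) (.c (.b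
(.c (.c (.l 20) (.a (.l 20) .z)) .z) (.c (.b (.c (.l 20) .z) .z) (.b .z (.c .z (.l 23))))) (.a (.b (.c .z (.c (.l 23) .z)) (.c (.l 23) .z)) (.b (.c .z
(.c (.l 23) .z)) (.a (.c (.l 23) .z) .z))))) (.b .z (.a (.c (.b (.c (.c (.l 20) .z) .z) .z) .z) .z)))) .z) (.c (.c .z (.a (.b (.c (.a (.b (.c .z (.l
23)) (.c (.c .z (.l 23)) (.a (.l 23) .z))) (.b (.c .z (.a (.l 23) .z)) .z)) (.a (.b (.a (.c (.l 23) .z) (.c (.l 23) .z)) .z) .z)) .z) .z)) .z)))))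

theorem vQ202 : ev3 Q202 J3_4 J3_6 J3_7 = 97758386673508583713050 := by decide +kernel

noncomputable def Q181 : QT3 :=
(.c (.a (.b (.c (.c (.a (.l 14) (.c (.l 14) (.b (.a (.l 14) (.c (.l 14) .z)) (.l 14)))) (.a (.b (.c (.a (.l 14) (.b (.c (.l 14) .z) (.l 14))) (.b .z
(.a (.l 14) .z))) (.l 14)) (.b (.c (.a (.b .z (.c (.l 14) .z)) .z) .z) (.c (.a (.l 14) (.b .z (.l 14))) (.a (.b .z (.l 14)) .z))))) (.a (.c (.b (.c .z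
(.c .z (.a (.c (.a (.l 8) .z) (.l 8)) .z))) (.c (.c (.b (.a (.l 14) .z) (.l 14)) (.a (.c (.l 14) .z) (.b .z (.l 14)))) (.b (.c .z (.a (.l 8) .z)) (.c
.z (.b (.a (.l 8) .z) .z))))) (.b (.c (.l 8) (.b (.a (.l 8) (.a (.l 8) (.c (.l 8) .z))) (.c (.l 8) (.b (.a (.l 8) .z) .z)))) (.c (.b (.c (.l 8) (.b
(.l 8) (.a .z (.l 8)))) (.c (.a .z (.b (.l 8) .z)) .z)) (.b (.c (.a .z (.b (.l 8) .z)) .z) .z)))) (.b (.c .z (.c (.c (.a (.c .z (.a (.l 8) .z)) (.c .z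
(.a .z (.l 13)))) (.a (.a (.l 8) .z) .z)) (.a .z (.c (.a .z (.l 19)) .z)))) (.c .z (.a (.c (.b (.c .z (.a (.l 8) .z)) .z) .z) .z))))) (.c (.a (.c (.b
(.b (.l 14) (.b (.b (.l 14) .z) .z)) .z) (.b (.b (.l 14) (.b (.b (.l 14) .z) .z)) .z)) (.b (.c (.b (.l 14) (.b (.b (.l 14) .z) (.l 35))) (.a (.b (.l
14) (.b (.b (.l 14) .z) .z)) (.c (.b (.l 14) .z) (.b (.a (.l 14) .z) .z)))) (.c (.a (.b (.b (.l 35) .z) .z) .z) .z))) (.a (.b (.c (.c (.b (.c (.l 14)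
.z) .z) .z) .z) .z) (.b (.c (.a (.b (.c (.l 14) .z) .z) .z) .z) (.c .z (.a .z (.c .z (.l 29)))))))) (.b (.c (.a (.b (.c (.c (.a (.c (.l 14) (.a (.l
14) .z)) (.c (.a (.l 14) .z) .z)) .z) .z) (.c (.c (.a (.l 14) (.c (.l 14) (.a (.l 14) .z))) (.a (.c (.l 14) (.b .z (.l 14))) .z)) .z)) (.b (.c .z (.a
(.c .z (.a (.c .z (.a .z (.l 13))) (.c (.b .z (.l 13)) (.l 13)))) (.b (.c (.a .z (.c .z (.l 13))) (.l 13)) (.c (.a (.c .z (.l 13)) (.l 13)) (.a (.l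
13) (.b (.l 13) .z)))))) (.c (.a .z (.b (.c .z (.a .z (.c .z (.l 13)))) .z)) (.a (.b (.c .z (.a (.c .z (.l 13)) (.b (.l 13) .z))) .z) (.b (.c (.a (.c
.z (.l 13)) .z) .z) .z))))) (.a (.b (.c (.a (.c .z (.a (.c .z (.a .z (.l 13))) (.c (.a .z (.l 13)) (.l 13)))) (.c (.a (.c .z (.a .z (.l 13))) (.c (.a
.z (.l 13)) (.l 13))) (.l 13))) (.a (.c (.c (.l 13) (.c (.a .z (.l 13)) .z)) (.c .z (.b (.l 19) .z))) (.b (.c (.l 13) .z) (.c (.a (.l 13) (.b (.l 13)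
.z)) .z)))) (.c (.a (.b (.c .z (.a (.c .z (.l 13)) (.l 13))) (.c .z (.a (.c .z (.l 13)) (.b (.l 13) .z)))) (.b (.c (.a (.c .z (.l 13)) (.l 13)) (.a
(.l 13) (.b (.l 13) .z))) .z)) (.a (.b (.c (.a (.c (.l 13) .z) (.b (.l 13) .z)) .z) .z) .z))) (.b (.c (.a (.b (.l 13) (.c (.l 13) (.a (.l 13) .z)))
(.b (.c (.l 13) (.a (.b (.l 13) .z) .z)) (.c (.a (.b (.l 13) .z) .z) .z))) (.a (.b (.c (.a (.l 13) (.b (.l 13) .z)) .z) .z) .z)) (.c (.a (.b (.c (.a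
(.b (.l 13) .z) .z) .z) .z) .z) .z)))) (.c (.a (.b (.c (.a (.b (.l 14) (.b (.b (.l 14) .z) .z)) (.b (.c (.l 14) (.a (.l 14) .z)) .z)) (.a (.b (.c (.a
(.l 14) .z) .z) .z) .z)) .z) (.b (.c .z (.a .z (.b (.c (.a .z (.l 15)) (.l 15)) (.b (.b (.l 15) .z) (.l 41))))) .z)) (.a (.b .z (.c .z (.c .z (.l
29)))) (.b (.c (.b (.c (.c (.l 15) .z) .z) .z) .z) (.c (.b .z (.c (.c (.b (.l 24) .z) .z) .z)) (.c .z (.c (.c .z (.l 29)) (.l 29))))))))) (.a (.b (.c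
(.a (.b (.c (.c (.b (.c (.a (.l 8) .z) .z) .z) (.b .z (.a (.c .z (.l 11)) (.c .z (.b .z (.l 11)))))) (.c (.b (.a (.c (.b .z (.l 11)) (.l 11)) (.c .z
(.b .z (.l 11)))) (.l 11)) (.l 11))) (.c (.c (.b .z (.c .z (.a .z (.l 11)))) (.a (.c (.a (.c .z (.l 11)) (.l 11)) (.l 11)) (.l 11))) (.a (.l 11) (.b
(.l 11) (.c (.a (.l 11) (.b (.l 11) .z)) (.a (.b (.l 11) .z) .z)))))) (.b (.c (.c (.b .z (.a .z (.c .z (.c .z (.l 12))))) (.b (.c (.c .z (.b .z (.l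
12))) (.a (.b (.l 12) .z) (.l 12))) (.a .z (.c (.b (.l 12) .z) .z)))) (.a (.c (.b .z (.c (.b .z (.l 11)) (.l 11))) (.b (.c (.b .z (.l 11)) (.l 11))
(.l 11))) (.b (.c (.c (.b (.l 12) .z) .z) (.c .z (.b .z (.l 11)))) (.c (.a (.c .z (.l 11)) .z) (.a (.b (.l 11) .z) .z))))) (.c (.a (.b (.c .z (.c (.b
.z (.l 11)) (.l 11))) (.c (.a (.c .z (.l 11)) .z) (.a (.b (.l 11) .z) .z))) .z) (.a (.b (.c (.a (.l 11) (.b (.l 11) .z)) (.a (.b (.l 11) .z) .z)) .z)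
.z)))) (.a (.b (.a (.c (.l 11) (.c (.l 11) (.c (.c .z (.a (.l 13) .z)) (.b (.c (.l 13) .z) .z)))) (.b (.c (.l 11) (.c (.l 11) .z)) (.c (.l 11) (.a (.b
(.c (.l 11) .z) (.c (.l 11) .z)) (.b (.c (.l 11) .z) .z))))) (.a (.b (.c (.l 11) (.a (.b (.c (.l 11) .z) (.c (.l 11) .z)) (.b (.c (.l 11) .z) .z)))
(.c (.a (.c (.l 11) (.b (.l 11) .z)) (.c (.b (.l 11) .z) .z)) .z)) (.b (.c (.a (.c (.l 11) (.b (.l 11) .z)) (.c (.b (.l 11) .z) .z)) .z) .z))) (.b (.a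
(.b (.c (.l 11) (.a (.b (.c (.l 11) .z) (.c (.l 11) .z)) (.b (.c (.l 11) .z) .z))) (.c (.a (.b (.l 11) (.c (.l 11) .z)) (.b (.c (.l 11) .z) .z)) .z))
(.b (.c (.a (.b (.l 11) (.c (.l 11) .z)) (.b (.c (.l 11) .z) .z)) .z) .z)) (.a .z (.b (.c (.a (.c .z (.c (.l 10) .z)) (.c .z (.c (.l 10) .z))) .z)
.z))))) (.c (.a (.b (.c (.a (.b (.c (.c .z (.a .z (.l 11))) (.l 11)) (.c (.c .z (.l 11)) (.a (.b (.l 11) .z) .z))) (.b (.c (.a (.c .z (.l 11)) (.b (.l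
11) .z)) (.a (.b (.l 11) .z) .z)) (.c (.a (.b (.l 11) .z) .z) .z))) (.a (.b (.c (.a (.l 11) (.b (.l 11) .z)) (.a (.b (.l 11) .z) .z)) .z) .z)) (.c .z
(.a .z (.a .z (.c .z (.l 29)))))) (.b (.c (.a .z (.b .z (.b (.b (.l 23) .z) (.l 29)))) (.a (.b .z (.b (.b (.l 23) .z) (.l 29))) (.b (.b .z (.l 23))
(.b (.b (.l 23) .z) (.l 29))))) (.a (.c (.c (.a .z (.l 29)) (.a .z (.l 29))) (.l 29)) (.l 29)))) (.a (.b (.a .z (.b .z (.c (.b (.b (.l 23) .z) .z)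
.z))) (.c (.c (.a .z (.l 29)) .z) (.c (.b .z (.c .z (.a (.l 12) (.b .z (.l 12))))) (.b .z (.c (.a .z (.l 12)) .z))))) (.c (.c (.b (.b (.b (.a .z (.l
23)) (.l 23)) (.b (.b (.l 23) .z) (.l 29))) (.c (.l 29) (.b (.l 29) .z))) .z) (.b .z (.c .z (.b .z (.c (.a (.b .z (.l 12)) .z) (.a (.l 12) (.b .z (.l
12))))))))))) (.b (.a (.c (.b (.c (.a (.b (.c .z (.l 12)) (.c (.a (.c .z (.l 12)) .z) (.a (.b (.l 12) .z) .z))) (.b (.c .z (.a (.b (.l 12) .z) .z))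
.z)) (.a (.b (.c (.a (.c (.l 12) .z) (.b (.l 12) .z)) .z) .z) .z)) (.c .z (.a (.b (.c .z (.b (.l 22) .z)) .z) .z))) (.b (.a (.b .z (.c (.a .z (.c (.c
.z (.l 10)) .z)) .z)) (.b (.c (.a (.b .z (.c (.l 10) .z)) (.c (.b .z (.l 10)) .z)) .z) (.c (.c (.c (.c .z (.l 10)) (.l 10)) (.c (.c (.l 10) .z) .z))
.z))) (.c (.c (.c .z (.b (.c .z (.l 10)) .z)) (.c (.c (.b (.l 10) (.b (.l 10) .z)) (.a (.b .z (.l 10)) .z)) .z)) .z))) (.c .z (.c (.c (.b (.c (.b (.l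
10) (.c (.b (.l 10) .z) (.l 10))) (.l 10)) (.c .z (.b (.l 10) (.c .z (.b (.l 10) .z))))) (.c (.c (.a (.b .z (.a (.l 10) .z)) .z) .z) (.b (.b (.l 25)
(.c (.l 25) .z)) .z))) (.c (.b (.c (.b (.c (.l 25) .z) .z) .z) .z) (.b .z (.a .z (.c (.l 45) .z))))))) (.c (.b (.a (.b (.c .z (.b (.c .z (.a (.l 23)
.z)) (.c (.a (.l 23) .z) (.l 23)))) (.b (.b (.c .z (.l 23)) .z) (.l 29))) (.b (.c .z (.b .z (.c .z (.a (.l 23) .z)))) (.b (.b (.c .z (.a (.l 23) .z))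
.z) (.l 29)))) (.l 29)) (.c (.c (.b (.c (.b (.a (.l 23) (.b .z (.l 23))) (.b (.b (.l 23) .z) (.l 29))) (.b (.a (.c (.l 23) .z) .z) (.b (.b (.l 23) .z)
.z))) (.c (.b (.a (.l 29) .z) .z) .z)) .z) (.b (.c (.c .z (.b .z (.b .z (.l 41)))) (.b .z (.b .z (.l 41)))) (.c .z (.a .z (.b (.l 41) (.c .z (.l
41)))))))))))

theorem vQ181 : ev3 Q181 J4_6 J4_10 J3_6 = 136854187351638504795382 := by decide +kernel

noncomputable def Q51 : QT3 :=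
(.a (.b (.a (.c (.c (.c (.a (.c (.l 15) (.b (.l 15) (.a (.l 15) (.c (.b (.l 15) .z) .z)))) (.b (.c (.a (.l 15) (.c (.l 15) (.b (.l 15) .z))) (.a (.c
(.b (.l 15) .z) .z) .z)) (.c (.a (.c (.b (.l 15) .z) .z) .z) .z))) (.a (.c (.b (.a (.c (.l 15) (.b (.l 15) .z)) (.c (.b (.l 15) .z) .z)) (.a .z (.c .z
(.b .z (.l 18))))) (.b (.a .z (.c .z (.b .z (.l 18)))) (.a (.c .z (.b .z (.l 18))) (.l 18)))) (.b (.c .z (.b .z (.c .z (.l 18)))) (.c (.a (.b .z (.c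
.z (.l 18))) (.b .z (.c .z (.l 18)))) (.l 18))))) (.b (.a (.c (.b (.a .z (.c (.l 18) .z)) (.c (.a .z (.l 18)) .z)) .z) (.c (.c (.l 18) (.c (.a (.c (.l
18) .z) (.l 18)) .z)) (.b (.a (.c (.b .z (.l 25)) .z) .z) .z))) (.a (.c (.c (.c (.l 18) (.a (.c (.l 18) .z) (.l 18))) .z) .z) (.c (.c (.b (.l 18) (.c
(.l 18) (.b (.l 18) .z))) (.b (.c (.l 18) .z) .z)) (.c (.b (.c .z (.b .z (.l 21))) (.c (.b (.l 21) .z) .z)) .z))))) .z) (.c (.b (.c .z (.c (.c (.a (.c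
(.b .z (.l 18)) (.l 18)) .z) (.b .z (.c (.a (.a (.l 18) .z) .z) .z))) .z)) (.c (.a (.c .z (.c .z (.c (.a (.b .z (.l 18)) .z) (.a (.l 18) (.b .z (.l
18)))))) .z) (.a (.c (.c (.b (.l 18) (.c (.l 18) .z)) (.b .z (.c .z (.b .z (.l 21))))) (.c (.b (.c (.b .z (.l 21)) (.c (.l 21) .z)) (.c (.l 21) (.b
(.l 21) .z))) .z)) (.b (.c (.c .z (.c .z (.b .z (.l 21)))) (.c (.c (.l 21) .z) .z)) (.a (.c (.c .z (.c .z (.l 21))) (.b (.c (.l 21) .z) .z)) .z)))))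
.z)) (.a (.b (.c (.c (.c (.a (.c (.a (.l 15) (.c (.b (.l 15) .z) .z)) (.a (.c (.b (.l 15) .z) .z) .z)) (.c (.a .z (.b .z (.c (.l 13) .z))) .z)) (.a
(.c (.a (.c .z (.a .z (.l 18))) (.b (.c .z (.l 18)) (.l 18))) (.b (.l 18) (.c (.l 18) (.b (.l 18) .z)))) (.c (.l 18) (.b (.l 18) (.c (.l 18) (.b (.l
18) .z)))))) (.a (.c (.c (.b (.c (.l 18) .z) .z) .z) .z) (.b (.c (.c (.c (.b (.l 18) .z) .z) (.c (.b .z (.l 21)) (.b (.l 21) .z))) .z) (.c (.c (.c .z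
(.b .z (.l 21))) .z) .z)))) .z) (.c (.c (.a (.c (.c (.a (.c (.a (.l 15) .z) .z) (.c .z (.b .z (.a .z (.l 13))))) (.a (.c .z (.a .z (.b .z (.l 13))))
(.b (.c (.a .z (.l 13)) .z) (.l 13)))) .z) (.b (.c (.a (.c (.c (.a .z (.l 13)) (.l 13)) (.c (.b .z (.l 13)) .z)) (.c (.l 13) .z)) (.c (.c (.b (.l 18)
.z) (.l 18)) .z)) (.c (.a (.l 13) (.b (.c (.l 13) (.c (.l 13) .z)) (.c (.l 13) (.a (.l 13) .z)))) .z))) (.a .z (.b .z (.c .z (.a .z (.c (.c .z (.l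
23)) .z)))))) .z)) (.b (.c (.c (.a (.b (.c .z (.c (.a (.c .z (.l 18)) .z) (.l 18))) (.c (.c (.c (.a (.c (.l 13) .z) .z) .z) .z) (.a (.c (.l 18) (.c
(.l 18) .z)) .z))) .z) (.a (.b (.a (.c (.c .z (.l 21)) .z) (.c (.c .z (.l 21)) .z)) .z) (.b .z (.a .z (.c (.b .z (.c .z (.l 19))) .z))))) .z) (.c (.c
(.a (.b (.c (.a (.c (.c (.l 13) (.b .z (.l 13))) .z) (.b (.c (.c (.l 13) .z) .z) (.c (.c (.l 13) .z) .z))) (.a (.b (.c (.l 18) .z) .z) .z)) (.c (.a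
(.b (.c (.l 13) .z) .z) .z) .z)) (.b (.c (.a .z (.b .z (.c .z (.l 16)))) (.a .z (.c (.l 16) .z))) (.c (.a (.b .z (.c (.c (.l 11) .z) (.l 16))) (.c (.c
(.l 11) .z) (.l 16))) (.c (.l 16) .z)))) (.a (.b .z (.a (.c .z (.c (.c .z (.l 23)) .z)) (.c .z (.c (.c (.l 23) .z) .z)))) (.c (.c .z (.c (.a .z (.c .z
(.l 19))) .z)) (.c (.c (.a (.c .z (.l 23)) .z) .z) .z)))) (.c (.c (.c (.a (.c (.a .z (.l 28)) (.b .z (.l 28))) (.c (.l 28) (.b .z (.l 28)))) .z) .z)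
.z))))) (.b (.a (.c (.b .z (.a (.c .z (.b (.a (.c (.c .z (.c .z (.l 21))) .z) .z) .z)) (.c (.b .z (.c .z (.a .z (.c (.l 16) .z)))) (.b .z (.c (.c (.c
.z (.c .z (.l 19))) (.c (.l 19) .z)) .z))))) (.b .z (.a .z (.c (.c .z (.c (.c (.c .z (.l 43)) (.c (.l 43) .z)) .z)) .z)))) (.c (.b (.a .z (.c (.b (.a
.z (.c .z (.c (.c (.l 16) .z) .z))) (.a (.c .z (.c (.c (.l 16) .z) .z)) (.c .z (.c (.c (.l 16) .z) .z)))) (.c (.c .z (.c (.c (.l 19) .z) .z)) .z)))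
(.a (.c (.b (.c .z (.a (.b .z (.c (.l 16) .z)) (.c (.c (.l 16) .z) .z))) (.c .z (.c (.c (.l 16) (.c (.l 16) .z)) .z))) (.c (.c .z (.c (.c (.b (.l 19)
.z) (.a (.l 19) .z)) .z)) .z)) (.c (.c .z (.c (.c (.a (.l 16) .z) .z) .z)) .z))) (.c (.c .z (.c (.a (.c (.b (.c .z (.l 43)) (.c .z (.l 43))) (.b .z
(.c (.l 43) .z))) (.c (.b (.c .z (.l 43)) .z) .z)) .z)) .z))) (.a (.b (.c (.a (.c (.b .z (.c .z (.a (.b .z (.c (.l 16) .z)) (.c (.l 16) (.c (.l 16)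
.z))))) (.b (.a (.c (.b .z (.c .z (.l 19))) .z) (.c (.c .z (.l 19)) .z)) (.c (.c (.c .z (.c .z (.l 19))) (.l 19)) .z))) (.c (.b (.c (.a .z (.c (.c (.c
(.l 11) .z) .z) (.c .z (.l 16)))) (.c (.l 16) (.c (.a (.l 16) .z) .z))) (.c (.c (.c (.c (.l 11) .z) .z) (.c .z (.l 16))) (.c (.l 16) (.c (.a (.l 16)
.z) .z)))) (.c (.c (.c (.c (.b .z (.l 17)) .z) .z) (.c (.c (.b (.l 19) .z) (.l 19)) (.a (.c (.l 19) .z) (.c (.l 19) .z)))) (.c (.c .z (.a (.c .z (.l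
22)) .z)) (.c .z (.c .z (.l 28))))))) (.c (.c (.c (.c (.b .z (.c (.l 28) .z)) .z) .z) .z) .z)) (.c (.a (.c (.b (.c (.a (.b (.c .z (.l 16)) (.c .z (.l
16))) (.c (.c (.c (.l 11) .z) .z) (.c .z (.l 16)))) (.c (.l 16) (.c (.l 16) .z))) (.c (.c (.c (.c (.l 11) (.b .z (.l 11))) .z) (.c (.c .z (.l 16)) (.l
16))) (.c (.l 16) (.c (.c (.l 16) .z) .z)))) (.c (.c .z (.c (.c (.b (.l 19) .z) (.l 19)) (.a (.c (.l 19) .z) (.l 19)))) (.c .z (.c .z (.c .z (.l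
28)))))) (.c (.c (.c (.c (.c (.l 11) .z) .z) (.c .z (.l 16))) (.c (.l 16) (.c (.a (.l 16) .z) (.a .z (.c .z (.l 17)))))) (.c (.c (.c (.c (.l 17) (.b
.z (.l 17))) .z) .z) (.c (.c (.a .z (.c .z (.l 22))) (.l 22)) (.c .z (.b (.l 28) .z)))))) (.c (.c (.c (.c (.b (.c (.l 28) .z) (.l 28)) .z) .z) .z)
.z))) (.c (.c (.c (.c (.c (.c (.a (.b (.b .z (.l 11)) (.l 11)) (.b .z (.a (.l 11) .z))) .z) .z) (.a (.c .z (.a (.c .z (.l 16)) .z)) .z)) (.c (.a (.c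
(.a (.l 16) (.c (.a (.l 16) .z) (.b (.l 16) .z))) (.a (.c (.l 16) .z) .z)) .z) (.a (.c .z (.b (.b .z (.c .z (.l 17))) (.l 17))) (.b (.c .z (.c .z (.b
.z (.l 17)))) (.c (.b .z (.c .z (.l 17))) (.l 17)))))) (.c (.c (.c (.b (.b (.c (.b .z (.l 17)) .z) (.c (.l 17) .z)) (.c (.l 17) (.b (.b .z (.l 17))
(.l 17)))) .z) .z) (.c (.b .z (.c .z (.a (.c (.b .z (.l 22)) (.a (.l 22) .z)) .z))) (.c .z (.b (.c (.a .z (.l 28)) (.b .z (.l 28))) (.c (.b (.l 28)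
.z) (.l 28))))))) (.c (.c (.c (.c (.b .z (.a (.c (.l 28) .z) .z)) .z) .z) (.c (.b (.c .z (.a (.a (.l 43) .z) .z)) .z) .z)) .z)))))

theorem vQ51 : ev3 Q51 J3_1 J4_4 J3_7 = 96675045075408353554070 := by decide +kernel

noncomputable def Q138 : QT3 :=
(.a (.b (.c (.b (.c (.c (.a (.c (.l 11) (.c (.a (.c (.l 11) (.a (.a .z (.l 11)) (.l 11))) (.l 11)) (.a .z (.c (.l 11) (.a .z (.a .z (.l 11))))))) (.c
(.l 11) (.b (.a (.l 11) (.c (.l 11) (.b (.l 11) (.a (.l 11) .z)))) (.a (.c (.l 11) (.b (.l 11) (.a (.l 11) .z))) (.c (.b (.a (.l 11) .z) .z) .z)))))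
(.a (.c (.b (.c (.a (.l 15) (.c .z (.l 15))) (.c (.l 15) .z)) (.a (.c (.l 15) .z) .z)) .z) (.c (.b (.a (.c (.c (.a .z (.l 11)) .z) .z) .z) .z) (.b (.a
.z (.c .z (.a .z (.l 17)))) (.a (.c .z (.b .z (.l 17))) (.c (.c .z (.l 17)) (.l 17))))))) (.a (.b (.c (.c .z (.a .z (.c .z (.l 23)))) (.a (.b (.c (.c
.z (.l 23)) (.l 23)) (.c (.l 23) .z)) (.c (.l 23) .z))) (.c (.a .z (.c .z (.c (.c .z (.l 23)) (.l 23)))) (.a .z (.b (.c (.c (.l 23) .z) .z) .z)))) (.b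
(.c (.c (.a .z (.c (.c (.l 17) .z) .z)) (.c .z (.a (.a (.l 23) .z) .z))) (.c (.a (.c (.a (.l 23) .z) .z) .z) (.a (.c (.a .z (.l 26)) .z) .z))) (.c (.c
(.c (.c (.b (.l 17) .z) .z) .z) .z) .z)))) (.c (.a (.c (.b (.c (.l 11) (.a (.c (.c (.l 11) (.a .z (.l 11))) .z) (.c (.l 11) (.b (.c (.l 11) .z) .z))))
(.a (.c (.l 11) (.b (.a .z (.c (.l 11) .z)) (.a .z (.c (.l 11) .z)))) (.c (.c (.l 11) (.b (.l 11) (.a (.l 11) .z))) (.c (.b (.a (.l 11) .z) .z) .z))))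
.z) (.c (.c (.b (.a (.l 11) (.c (.b (.l 11) (.a (.l 11) .z)) (.b (.a (.l 11) .z) .z))) (.a (.c (.b (.l 11) (.a (.l 11) .z)) (.b (.a (.l 11) .z) .z))
.z)) (.b (.a (.c (.b (.a (.l 11) .z) .z) .z) (.c .z (.a .z (.l 14)))) (.a (.c .z (.b .z (.l 14))) (.c (.a .z (.l 14)) (.l 14))))) (.b (.c (.a .z (.c
(.l 14) .z)) (.a .z (.c (.a .z (.l 17)) (.c (.l 17) .z)))) (.a (.c (.c (.a .z (.l 14)) .z) .z) (.c (.c (.l 14) .z) (.c (.a .z (.l 17)) .z)))))) (.a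
(.b (.c (.a (.b .z (.c .z (.l 19))) .z) (.a (.b (.c .z (.c (.l 26) .z)) .z) .z)) (.c (.a (.l 19) (.b (.c .z (.a (.l 19) .z)) (.c (.a (.l 19) .z) (.c
(.l 19) .z)))) .z)) .z))) .z) (.c (.c (.b (.a (.c (.b (.a (.c (.b (.c (.a .z (.l 11)) .z) .z) .z) (.c (.b (.c (.l 11) .z) .z) .z)) .z) (.b (.a (.c (.b
.z (.c .z (.l 15))) (.c (.c (.l 15) .z) .z)) .z) (.c (.a (.c (.a .z (.l 15)) (.l 15)) (.c (.a (.l 15) .z) (.l 15))) (.c (.a (.c (.l 15) .z) (.c (.l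
15) .z)) .z)))) (.c (.b (.a (.c .z (.b (.l 14) (.a .z (.l 14)))) (.c (.c (.b .z (.l 14)) (.l 14)) (.l 14))) (.a (.c (.b (.a .z (.l 14)) .z) .z) (.c
(.l 14) (.b (.l 14) (.a .z (.l 14)))))) (.b (.a .z (.c (.c (.l 14) .z) .z)) .z))) (.a (.c (.c (.a (.b (.c .z (.a (.l 14) .z)) (.c .z (.a (.l 14) .z)))
(.b (.c (.a .z (.l 13)) .z) .z)) (.a (.c .z (.a .z (.c .z (.l 15)))) (.b (.c .z (.a (.l 15) .z)) (.l 15)))) (.c (.l 15) (.c (.a (.c (.l 15) (.a .z (.l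
15))) (.l 15)) (.a (.c .z (.a (.l 19) .z)) .z)))) (.c (.b (.a (.c (.b .z (.a (.c (.l 13) .z) .z)) .z) (.c (.b (.a .z (.l 14)) .z) .z)) (.a (.c (.c (.a
(.b (.l 13) .z) (.l 13)) (.a .z (.b (.l 13) .z))) (.a (.c .z (.l 15)) .z)) (.c (.a (.b .z (.l 13)) .z) (.a (.c (.b (.l 13) .z) .z) (.b (.c .z (.l 13))
(.c (.l 13) .z)))))) (.a (.b (.c (.a (.c .z (.l 15)) .z) (.c (.c (.l 15) .z) .z)) (.c (.l 15) (.a (.c (.l 15) .z) .z))) .z)))) (.b (.a (.c (.c (.c (.a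
(.l 19) (.c .z (.a (.l 19) .z))) (.l 19)) (.c (.b (.l 19) (.c (.l 19) (.b (.l 19) .z))) (.b (.c (.b (.l 19) .z) .z) .z))) .z) (.b (.a (.c (.b .z (.c
.z (.c (.l 19) .z))) .z) .z) (.a (.c (.c .z (.c (.c (.l 19) .z) .z)) .z) .z))) (.a (.c (.a (.c (.c (.c (.a (.l 19) .z) (.l 19)) (.b (.l 19) (.c (.l
19) .z))) .z) (.b (.c (.c .z (.l 19)) .z) .z)) (.a .z (.b .z (.c .z (.a .z (.b .z (.l 25))))))) (.c .z (.a (.b .z (.a (.c .z (.l 25)) (.c .z (.l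
25)))) .z))))) .z)) (.b (.c (.a (.c (.c (.b (.c (.a (.b (.c (.l 11) (.a (.l 11) (.b (.l 11) .z))) (.c (.a (.l 11) (.b (.l 11) .z)) (.a (.b (.l 11) .z)
.z))) (.b (.c (.a (.l 11) .z) .z) .z)) (.a (.b (.c (.a (.b (.l 11) .z) .z) .z) .z) (.b .z (.c (.a (.l 14) .z) .z)))) (.c (.a (.b .z (.c (.a .z (.l
14)) (.l 14))) (.b (.c (.a .z (.l 14)) (.l 14)) (.l 14))) (.a (.b (.c (.a .z (.l 14)) (.a (.l 14) .z)) (.c (.l 14) (.a (.l 14) .z))) (.c (.a (.l 14)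
(.c (.l 14) .z)) (.a .z (.c .z (.l 17))))))) (.b (.c (.a (.b (.c .z (.a .z (.l 17))) (.c .z (.a .z (.l 17)))) (.l 17)) (.c (.l 17) (.b (.l 17) (.c (.l
17) (.b (.l 17) .z))))) (.c (.a (.c .z (.a (.c .z (.l 17)) (.l 17))) (.l 17)) (.c (.b (.l 17) (.c (.l 17) .z)) (.b (.c (.b (.l 17) .z) .z) .z))))) (.b
(.c (.c (.c (.b (.c (.b (.l 17) .z) .z) .z) .z) .z) (.c .z (.a (.c (.c .z (.l 27)) .z) (.c (.a (.l 27) .z) .z)))) .z)) (.c (.c (.b (.a (.c (.b .z (.c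
(.a .z (.l 14)) (.a (.l 14) .z))) (.c .z (.c .z (.b .z (.l 17))))) (.c (.c (.a (.c (.l 14) .z) .z) (.a .z (.c .z (.l 15)))) (.c (.c (.l 15) (.b (.l
15) .z)) .z))) (.c (.a (.c (.l 14) (.a (.c (.l 14) .z) .z)) (.c (.a (.c (.l 14) .z) .z) (.a .z (.l 15)))) (.a (.c .z (.l 17)) (.c (.c (.b (.l 15) .z)
.z) (.c .z (.l 17)))))) (.c (.l 17) (.b (.c (.l 17) (.b (.c (.l 17) (.b (.l 17) .z)) (.c (.b (.l 17) .z) .z))) (.c (.b (.c (.l 17) (.b (.l 17) .z))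
.z) .z)))) (.c (.c .z (.b (.c .z (.a (.a .z (.c .z (.l 25))) (.b (.a (.l 25) .z) .z))) .z)) (.c (.a (.c (.b (.b (.a .z (.l 25)) .z) .z) .z) .z) .z))))
.z) (.c (.a (.c (.b (.c (.c (.l 14) (.a (.c (.l 14) (.a (.l 14) (.c (.l 14) .z))) (.c (.a (.l 14) .z) (.a .z (.c .z (.l 17)))))) (.a (.b (.c (.c .z
(.a .z (.l 17))) .z) .z) (.c (.c (.a (.c .z (.l 17)) (.l 17)) (.b (.c (.l 17) .z) .z)) .z))) (.a (.c (.b (.c (.l 14) (.a (.b (.l 14) .z) (.l 14))) (.c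
(.a .z (.b (.l 14) .z)) .z)) .z) (.c (.b (.c (.l 14) (.c (.a (.l 14) .z) .z)) (.c (.l 14) .z)) .z))) (.b .z (.a (.b (.c .z (.c (.c (.c (.l 21) .z) .z)
.z)) .z) .z))) (.c (.b (.c (.c (.a (.c (.a (.l 14) (.c (.l 14) .z)) (.a (.c (.l 14) .z) .z)) (.c .z (.a .z (.c (.l 15) .z)))) (.a (.c (.a .z (.c .z
(.l 17))) (.l 17)) (.c (.c .z (.b .z (.l 17))) (.l 17)))) (.c (.c (.b (.l 17) (.c (.l 17) (.b (.l 17) .z))) (.b (.c (.b (.l 17) .z) .z) .z)) .z)) (.a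
(.c (.c (.c (.a (.l 14) .z) .z) (.c (.a (.c .z (.l 17)) (.l 17)) (.b (.l 17) .z))) .z) (.c (.c .z (.c (.l 17) (.b (.c (.l 17) .z) .z))) .z))) .z))
.z)))

theorem vQ138 : ev3 Q138 J3_1 J4_11 J3_7 = 116572726738118685488001 := by decide +kernel

noncomputable def Q122 : QT3 :=
(.b (.c (.c (.a (.b (.c (.b (.c (.b (.a (.c .z (.l 28)) .z) (.a (.l 28) .z)) (.b (.a (.l 28) .z) (.a (.l 28) .z))) (.c (.b (.a (.l 28) .z) (.a (.l 28)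
(.a (.l 28) .z))) (.a (.l 28) (.c (.a (.l 28) .z) .z)))) (.c (.a (.c (.c (.b (.l 28) .z) .z) .z) (.c (.a .z (.a (.c .z (.l 14)) (.l 14))) (.a .z (.l
14)))) (.a .z (.c (.a .z (.a .z (.c (.l 14) .z))) .z)))) (.c (.c (.a (.l 28) (.c (.l 28) (.a (.l 28) .z))) (.a (.c (.l 28) (.c (.b (.l 28) .z) .z))
(.c .z (.a .z (.a (.c .z (.l 14)) (.l 14)))))) (.c (.a .z (.c (.a (.c (.b .z (.l 14)) (.b (.l 14) .z)) (.l 14)) (.a .z (.a .z (.l 14))))) (.a (.c .z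
(.c .z (.a (.l 40) .z))) .z)))) (.b (.c (.a (.b .z (.c .z (.a (.c .z (.l 14)) (.b (.c .z (.l 14)) (.l 14))))) .z) (.a (.b (.c (.a (.l 14) .z) (.a (.c
(.a (.l 14) .z) .z) .z)) (.c (.a (.l 14) (.c (.l 14) .z)) (.a (.c (.a (.l 14) .z) .z) .z))) .z)) (.a (.c (.b (.c (.a .z (.b (.c .z (.l 14)) (.c .z (.l
14)))) (.a (.c (.a .z (.l 14)) (.l 14)) (.l 14))) (.c (.a .z (.c (.a .z (.l 14)) (.l 14))) (.l 14))) (.c (.a (.l 14) (.c (.l 14) (.a (.l 14) .z))) (.a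
(.c (.a (.c (.l 14) .z) (.c (.l 14) .z)) .z) .z))) (.c (.b (.a (.c .z (.b (.a (.l 14) .z) (.c (.l 14) .z))) .z) (.a (.c (.b (.a (.l 14) .z) (.l 14))
(.c (.l 14) (.a (.l 14) .z))) .z)) .z)))) (.a (.c (.c .z (.b (.a (.c .z (.c (.a (.l 44) .z) (.a (.l 44) .z))) .z) .z)) (.b (.c (.a (.c (.c (.a (.l 44)
.z) .z) .z) (.a (.c (.a .z (.c .z (.l 22))) (.a (.c (.l 22) .z) (.l 22))) (.c (.b (.l 22) (.a (.l 22) .z)) (.a (.l 22) .z)))) .z) (.c (.a .z (.a (.c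
(.b (.l 22) (.a (.l 22) .z)) (.a .z (.c (.l 22) .z))) (.b (.c .z (.a (.l 22) .z)) .z))) .z))) (.b (.a .z (.c (.b (.a .z (.c .z (.a .z (.c .z (.l
19))))) (.a .z (.c .z (.a .z (.c .z (.l 19)))))) (.a (.c .z (.a .z (.c (.l 23) .z))) (.c .z (.c (.a (.l 23) .z) .z))))) (.a .z (.c (.a .z (.c (.a .z
(.c .z (.a .z (.l 19)))) (.a .z (.c (.l 19) (.c (.l 19) .z))))) (.a (.c (.a .z (.c .z (.c .z (.l 23)))) (.a .z (.c (.c (.l 23) .z) .z))) (.c .z (.c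
(.a (.c (.l 23) .z) .z) .z)))))))) (.a .z (.a (.c (.c (.a (.c (.a (.c (.b .z (.l 31)) .z) .z) .z) .z) .z) .z) .z))) (.c (.c (.a (.c (.c (.a (.b (.l
28) (.c (.l 28) (.b (.c (.l 28) .z) .z))) (.b (.a (.c (.l 28) .z) .z) (.a .z (.c .z (.a (.b .z (.l 14)) (.l 14)))))) (.a (.b (.c (.b (.c (.l 28) .z)
.z) .z) .z) (.a (.c (.b .z (.b (.c .z (.l 14)) (.c (.l 14) .z))) (.b (.c (.b .z (.l 14)) (.b (.l 14) .z)) .z)) (.c (.b (.a (.b .z (.l 14)) (.l 14))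
(.l 14)) (.b (.l 14) (.a (.c (.l 14) .z) (.l 14))))))) (.c (.a (.c .z (.b .z (.a (.c .z (.l 40)) .z))) (.a .z (.c (.b (.a (.c (.l 14) .z) (.l 14)) .z)
.z))) (.a (.b (.c (.c .z (.a (.l 40) .z)) (.a (.l 40) (.a (.l 40) .z))) (.b (.c (.a (.l 40) .z) .z) .z)) (.a (.b .z (.b .z (.c .z (.a .z (.l 20)))))
(.c (.b .z (.b .z (.a .z (.l 20)))) (.b .z (.b (.a .z (.l 20)) (.l 20)))))))) (.b (.a (.c (.c (.a (.c (.a .z (.b .z (.l 14))) (.a (.b .z (.l 14)) (.l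
14))) (.l 14)) (.l 14)) (.c (.a (.c (.l 14) (.a (.c (.l 14) .z) (.l 14))) (.c (.l 14) (.a (.l 14) (.a (.l 14) .z)))) (.a (.c (.a .z (.c (.l 14) .z))
.z) (.a (.c (.c (.l 14) .z) .z) .z)))) (.c (.a (.c (.l 14) (.a (.l 14) (.c (.l 14) .z))) (.b (.c (.a (.l 14) .z) .z) (.c (.a (.l 14) .z) .z))) (.a (.c
(.a (.c (.a (.l 14) .z) .z) .z) (.b .z (.c .z (.a .z (.l 19))))) (.c .z (.a (.c (.b .z (.l 19)) .z) .z))))) (.a (.c (.c (.a (.c (.a (.b .z (.l 14))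
(.l 14)) (.l 14)) (.l 14)) (.l 14)) (.a (.c (.c (.l 14) (.a .z (.l 14))) (.c .z (.a (.l 20) .z))) (.c (.a (.l 14) (.c (.l 14) (.a (.l 14) .z))) (.a
(.c (.l 14) .z) .z)))) (.c (.a (.c (.l 14) (.a (.l 14) (.c (.l 14) (.a (.l 14) .z)))) (.c (.a (.c (.a (.l 14) .z) (.l 14)) .z) .z)) (.a (.c (.a (.c
(.a (.l 14) .z) .z) (.c .z (.b .z (.l 19)))) (.a (.c .z (.l 19)) (.c (.l 19) (.a (.l 19) .z)))) (.c (.a (.b (.c .z (.l 19)) (.l 19)) .z) (.a .z (.c .z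
(.a .z (.l 17)))))))))) (.a (.c (.c (.a (.b (.b (.c (.a (.l 40) .z) .z) .z) (.b (.c .z (.b .z (.a .z (.l 20)))) (.c (.b .z (.c (.l 20) .z)) .z))) (.a
(.b .z (.b (.c .z (.l 20)) (.l 20))) (.c (.b (.b .z (.a .z (.l 20))) (.l 20)) (.b (.a (.b .z (.l 20)) .z) (.l 20))))) (.a (.b (.c (.b .z (.b .z (.a .z
(.l 20)))) .z) (.b (.c (.b (.c (.l 20) .z) .z) .z) .z)) (.b (.a (.c (.b .z (.l 20)) .z) .z) (.a (.c (.b (.l 20) .z) .z) (.c (.a (.l 20) .z) .z)))))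
.z) (.a (.c (.a (.c (.c (.a (.b .z (.l 20)) .z) .z) .z) (.c (.a (.c .z (.b (.b .z (.l 19)) .z)) (.b (.b .z (.c .z (.l 19))) (.c (.l 19) (.c (.l 19)
.z)))) (.a .z (.b (.c (.c (.l 19) .z) .z) .z)))) (.a (.c (.b .z (.b .z (.c .z (.a (.l 25) .z)))) .z) .z)) (.c (.a (.c (.a (.b (.b (.c .z (.l 19)) (.l
19)) (.c (.l 19) (.a (.l 19) .z))) (.b (.c (.a (.l 19) .z) .z) .z)) .z) (.c (.a (.b .z (.c .z (.l 19))) (.b (.c .z (.l 19)) (.c .z (.l 19)))) (.a (.b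
(.c (.a .z (.l 19)) .z) .z) (.c (.b (.l 19) .z) .z)))) (.a (.c (.a (.b (.c .z (.a .z (.l 23))) (.c (.a .z (.l 23)) .z)) (.c (.b .z (.c .z (.l 23)))
(.b (.l 23) .z))) .z) .z))))) (.a .z (.a .z (.c (.c (.a .z (.c .z (.b (.b .z (.c (.l 33) .z)) .z))) .z) .z)))))

theorem vQ122 : ev3 Q122 J3_0 J4_9 J3_7 = 111094487430695081131716 := by decide +kernel

noncomputable def Q139 : QT3 :=
(.a (.b (.c (.a (.b (.c .z (.b .z (.c .z (.b (.c .z (.a (.c (.l 50) .z) .z)) (.c (.c .z (.a (.l 50) .z)) (.a (.c (.l 50) .z) .z)))))) .z) (.b (.c (.a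
.z (.b (.c (.a .z (.b (.c .z (.l 44)) .z)) .z) .z)) (.b (.c (.b .z (.c .z (.a (.b (.l 46) .z) .z))) (.b .z (.c (.b (.a (.l 46) .z) .z) .z))) .z)) .z))
(.b (.c (.b .z (.c (.b .z (.c .z (.b (.c (.a (.l 40) .z) .z) .z))) .z)) (.b (.c (.b .z (.c .z (.b (.c .z (.a (.l 26) .z)) (.c .z (.a (.l 26) .z)))))
(.b (.c (.b (.c (.a (.b .z (.l 26)) (.c .z (.l 26))) (.a .z (.a (.l 26) .z))) (.c (.l 26) (.a (.c (.l 26) .z) (.a (.l 26) .z)))) .z) (.c (.l 26) .z)))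
(.c (.c (.b (.c .z (.a (.b .z (.c (.l 25) .z)) (.c (.l 25) (.b .z (.l 25))))) .z) (.c (.a (.b (.c .z (.b .z (.l 26))) (.c (.b .z (.l 26)) (.l 26)))
(.b .z (.a (.c .z (.l 26)) .z))) (.a (.l 26) (.c (.a (.l 26) (.b .z (.l 26))) (.l 26))))) (.c (.l 26) (.c (.a (.c (.b .z (.l 26)) .z) (.a (.c (.l 26)
(.b .z (.l 26))) (.a (.l 26) (.b .z (.l 26))))) (.a (.b (.c .z (.l 49)) .z) .z)))))) (.c .z (.c (.c (.b (.c .z (.a (.b (.c .z (.l 26)) .z) .z)) .z)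
(.b (.c (.a (.b (.l 26) .z) (.b (.a (.l 26) .z) (.a (.b (.l 26) .z) (.l 26)))) (.a (.b (.l 26) .z) (.a (.b (.l 26) (.b (.l 26) .z)) (.l 26)))) (.a .z
(.a .z (.b (.a (.b (.l 26) .z) (.l 26)) .z))))) (.b (.c (.a (.b (.l 26) (.b (.a (.b (.l 26) .z) (.b (.l 26) .z)) .z)) (.b (.l 26) (.a (.b (.l 26) (.a
.z (.l 26))) (.l 26)))) (.a (.c (.b (.l 26) (.b (.a .z (.l 26)) .z)) .z) (.c (.l 26) (.a (.b (.c (.l 26) .z) (.l 26)) (.c (.l 26) (.a (.l 26) .z))))))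
(.c (.a .z (.a .z (.b (.a (.b (.l 26) .z) (.b (.l 26) .z)) .z))) (.b (.a .z (.a .z (.a (.b (.l 26) .z) (.b (.l 26) .z)))) .z))))))) .z) (.b (.c (.a
(.b (.c (.a (.b (.c (.a (.b (.c .z (.l 44)) .z) (.b (.c .z (.l 44)) .z)) .z) .z) .z) .z) .z) .z) (.b (.c (.b .z (.c .z (.a .z (.b .z (.c (.a .z (.b
(.l 33) .z)) .z))))) (.b (.c (.a .z (.b .z (.c .z (.a (.c .z (.l 41)) .z)))) (.a (.c .z (.c (.a .z (.c (.a .z (.l 14)) (.l 14))) (.a (.c (.a .z (.l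
14)) (.l 14)) (.l 14)))) (.c (.b .z (.a (.c (.l 41) .z) .z)) (.a (.c (.c (.a (.l 14) .z) (.l 14)) (.l 14)) (.c .z (.a (.l 14) (.c .z (.l 14))))))))
(.c (.a (.c (.b (.c (.b (.a (.l 25) .z) (.b (.l 25) .z)) (.c (.a (.l 25) .z) .z)) .z) .z) .z) (.a (.c (.c (.a (.c (.a (.l 26) .z) (.a (.l 26) .z)) .z)
(.a (.a (.c (.l 26) .z) .z) .z)) (.a (.c .z (.c (.a .z (.l 14)) (.a .z (.l 14)))) (.c (.a (.c .z (.l 14)) (.l 14)) (.l 14)))) (.c .z (.a (.c (.a (.l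
14) (.c .z (.l 14))) (.l 14)) (.c .z (.a (.l 14) (.c .z (.l 14)))))))))) (.c (.b .z (.c .z (.a (.c .z (.a (.b (.c .z (.l 47)) .z) (.b (.l 47) (.b (.l
47) .z)))) (.c (.b .z (.b (.a (.l 47) .z) (.l 47))) (.b (.b .z (.a (.l 47) .z)) (.b (.l 47) (.b (.l 47) .z))))))) (.b (.c (.a (.c (.c (.b .z (.b .z
(.l 47))) .z) .z) (.c .z (.a .z (.b (.c .z (.l 35)) .z)))) (.a (.c (.a (.a (.a (.l 26) (.c .z (.l 26))) .z) .z) (.a (.c .z (.a .z (.c .z (.l 14))))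
(.c (.a .z (.l 14)) (.l 14)))) (.c (.a (.c .z (.a (.c .z (.l 14)) .z)) (.c (.l 35) (.a .z (.l 35)))) (.a (.l 14) (.c .z (.a (.b (.l 14) .z) .z))))))
(.c (.a (.c (.a .z (.c (.b (.l 47) .z) .z)) .z) (.c (.b (.b (.a (.l 47) .z) (.l 47)) (.b (.l 47) .z)) (.a .z (.b .z (.b (.l 47) .z))))) (.a (.c .z (.a
.z (.c (.a .z (.l 14)) (.a (.c .z (.l 14)) (.l 14))))) (.b (.c (.a (.c .z (.a (.l 14) .z)) .z) (.a (.c (.l 14) (.a (.l 14) .z)) .z)) (.a (.c (.c .z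
(.l 14)) (.b (.c (.l 14) .z) .z)) .z)))))))) .z))

theorem vQ139 : ev3 Q139 J3_0 J3_6 J3_6 = 75105402592802248037728 := by decide +kernel

noncomputable def Q184 : QT3 :=
(.a (.b (.c (.b (.c (.c (.b (.c (.a .z (.a .z (.c (.l 12) .z))) .z) (.c (.a .z (.a (.c (.a .z (.l 12)) .z) (.c (.l 12) (.a .z (.l 12))))) .z)) .z) (.b
.z (.c .z (.c (.b .z (.c .z (.a .z (.l 21)))) .z)))) (.c (.c (.b (.c (.b .z (.c (.b .z (.c .z (.l 13))) (.b (.c .z (.l 13)) (.l 13)))) (.b (.c (.b .z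
(.c .z (.l 13))) .z) (.c (.l 13) (.c (.a .z (.l 13)) .z)))) (.c (.l 13) (.c (.l 13) (.c (.a (.b .z (.l 13)) (.l 13)) (.a .z (.b .z (.l 13))))))) .z)
(.c (.b (.c .z (.b (.c .z (.a .z (.l 21))) (.a .z (.c .z (.l 21))))) (.c .z (.a (.a .z (.c .z (.l 21))) (.c (.c .z (.l 21)) (.l 21))))) (.a (.c (.b
(.a (.c .z (.l 21)) (.c (.l 21) .z)) (.c (.l 21) (.c (.l 21) .z))) .z) (.c (.c (.l 21) (.c (.b (.l 21) .z) .z)) .z))))) (.b (.c (.b .z (.c (.c (.a .z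
(.c (.a .z (.l 26)) .z)) .z) .z)) .z) (.c (.c (.c .z (.a (.c (.c (.l 33) .z) .z) .z)) .z) .z))) (.c (.c (.b (.c (.b (.c (.l 13) (.b (.c (.l 13) (.c
(.l 13) (.a .z (.l 13)))) (.c (.l 13) (.b (.c (.l 13) .z) .z)))) (.c (.b (.l 13) (.c (.l 13) (.b (.c (.l 13) .z) .z))) (.b (.c (.b (.c (.l 13) .z) .z)
.z) (.c .z (.a (.l 14) .z))))) (.b (.c (.b .z (.c .z (.a (.l 14) .z))) .z) (.a (.c (.a (.l 14) (.c (.l 14) .z)) .z) (.c .z (.a .z (.c .z (.l 19)))))))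
(.c (.b (.c (.b .z (.c (.b .z (.l 14)) (.a (.l 14) .z))) (.a (.a (.l 14) (.c (.l 14) .z)) .z)) (.a (.c (.l 14) (.a (.c (.l 14) .z) .z)) (.c (.a (.c
(.l 14) .z) .z) .z))) (.a (.c (.b (.a (.c (.l 14) .z) .z) .z) .z) (.c .z (.c .z (.l 19)))))) (.c (.b (.a (.c .z (.b (.a (.c .z (.l 21)) (.l 21)) (.l
21))) (.c (.c (.c (.l 19) (.b (.l 19) .z)) .z) (.l 21))) (.c (.c (.c .z (.a (.b .z (.l 21)) .z)) (.c (.a (.l 21) (.b .z (.l 21))) (.l 21))) (.c (.b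
(.l 21) (.c (.l 21) (.a (.l 21) .z))) (.b (.c (.l 21) .z) .z)))) (.c (.b (.c (.b (.c (.l 21) (.a (.l 21) .z)) (.c (.a (.l 21) .z) .z)) .z) .z) (.c .z
(.b (.a (.b .z (.l 31)) .z) .z))))) .z)) (.b (.c (.c (.b (.c (.b (.a (.c (.a (.l 12) (.c (.b .z (.l 12)) (.l 12))) (.c (.c (.a .z (.l 12)) .z) .z))
(.c (.a (.c .z (.a (.l 12) .z)) .z) .z)) (.c (.a (.l 12) (.a (.c (.a (.l 12) .z) (.l 12)) (.c .z (.a (.l 12) .z)))) (.b (.c (.a (.c (.l 12) .z) .z)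
.z) .z))) .z) (.c (.b (.c (.b (.c (.a (.l 12) (.a (.l 12) .z)) (.b (.l 12) .z)) (.c .z (.b .z (.c .z (.l 13))))) (.b (.c .z (.b .z (.c (.l 13) .z)))
(.c (.l 13) (.c (.l 13) (.a .z (.l 13)))))) (.c (.b (.c (.b (.c .z (.l 13)) (.l 13)) (.l 13)) (.l 13)) (.l 13))) (.b .z (.c (.b (.c (.a .z (.c (.l 13)
.z)) .z) (.c (.a .z (.l 13)) .z)) .z)))) (.b (.b (.c .z (.c .z (.b .z (.c .z (.b .z (.l 26)))))) (.c .z (.c (.b .z (.c (.b .z (.l 21)) .z)) (.c .z (.a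
(.c .z (.l 26)) (.l 26)))))) (.c (.b (.c .z (.b .z (.c .z (.c .z (.l 21))))) (.c (.b (.c .z (.c (.l 19) .z)) (.c (.l 19) (.c (.l 19) .z))) (.c (.c .z
(.a (.l 21) .z)) (.l 21)))) (.c (.c (.c (.b (.l 21) (.a (.l 21) .z)) (.b (.a (.l 21) .z) .z)) .z) (.c .z (.a (.c .z (.b (.l 26) .z)) (.c (.a .z (.l
26)) (.l 26)))))))) (.b (.c (.b (.c (.c (.b (.c (.b .z (.l 26)) .z) (.a (.c (.l 26) .z) (.c (.l 26) .z))) .z) .z) (.c (.c (.a (.c (.l 26) (.a .z (.l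
26))) (.c (.l 26) (.a (.l 26) .z))) .z) .z)) .z) (.c (.c (.c (.a (.c (.b (.l 26) .z) .z) (.c (.l 26) (.a (.b (.l 26) .z) (.c (.l 26) .z)))) .z) .z)
.z))) (.a (.c (.c (.b (.c (.b (.c (.l 13) (.b (.l 13) (.c (.l 13) (.b (.l 13) .z)))) (.c (.b (.l 13) (.c (.l 13) (.b (.l 13) .z))) (.b (.c (.b (.l 13)
.z) .z) .z))) (.b (.c .z (.b (.c .z (.l 19)) (.c .z (.l 19)))) (.c .z (.c .z (.l 19))))) (.c (.b (.c (.b (.c (.b (.l 13) .z) .z) .z) .z) .z) (.c .z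
(.c (.c (.a .z (.l 19)) (.l 19)) (.l 19))))) (.c (.c (.c (.b (.l 19) (.c (.b (.l 19) .z) .z)) (.b (.c (.b (.l 19) .z) .z) (.c .z (.b .z (.l 21)))))
(.c (.b (.c (.b .z (.l 21)) (.l 21)) (.b (.l 21) (.c (.l 21) .z))) (.b (.b (.l 21) (.c (.l 21) .z)) .z))) .z)) .z) (.c (.c (.b (.c (.b (.l 13) (.c (.b
(.l 13) (.c (.l 13) (.b (.l 13) .z))) (.b (.c (.b (.l 13) .z) .z) .z))) (.b (.c (.b (.c (.l 13) .z) .z) (.b (.c .z (.l 19)) (.l 19))) (.c .z (.l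
19)))) (.c (.b (.c (.b (.c (.b (.l 13) .z) .z) .z) (.b .z (.c .z (.l 16)))) (.c .z (.c .z (.l 16)))) (.c (.c .z (.c .z (.b .z (.l 19)))) (.l 19))))
(.c (.c (.c (.l 19) (.b (.c (.l 19) .z) .z)) (.c (.b (.c .z (.a (.l 21) .z)) .z) (.b (.b (.c (.l 21) .z) .z) .z))) (.c .z (.c .z (.b (.c .z (.a .z (.l
26))) .z))))) (.b (.c (.c (.c (.c (.b (.a .z (.l 26)) .z) .z) .z) .z) .z) .z)))))

theorem vQ184 : ev3 Q184 J4_6 J4_11 J3_7 = 68302842139441070675327 := by decide +kernel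

noncomputable def Q103 : QT3 :=
(.c (.b (.a (.a (.l 24) (.c (.a (.l 24) (.c (.a (.c .z (.a (.l 24) .z)) (.a .z (.c (.l 17) .z))) (.a (.l 24) .z))) (.a (.c (.l 24) (.b (.l 24) (.a (.l
24) .z))) (.a (.c (.b (.l 24) (.c (.l 24) .z)) .z) (.c .z (.b .z (.c .z (.l 20)))))))) (.a (.a (.c (.a (.c (.l 17) (.a .z (.b .z (.l 17)))) (.l 17))
(.a (.c .z (.b .z (.a (.l 20) .z))) (.c (.a (.b .z (.l 17)) (.l 17)) .z))) (.c (.l 17) (.a (.c (.l 17) (.a (.b .z (.l 17)) (.l 17))) (.l 17)))) (.l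
17))) (.c (.a (.a (.l 24) (.a (.c (.a (.l 24) (.c .z (.a (.l 24) .z))) (.l 24)) (.a (.c .z (.a (.b (.l 24) .z) .z)) (.c (.a (.c (.l 17) .z) (.l 17))
(.a .z (.b .z (.l 17))))))) (.l 17)) (.a (.a (.c (.l 24) (.b (.l 24) (.a (.l 24) (.c (.l 24) (.a (.l 24) .z))))) (.a (.c (.b (.a (.l 24) (.c (.l 24)
.z)) (.a (.c (.l 24) .z) .z)) (.a (.b (.c (.l 24) .z) .z) .z)) (.a (.c .z (.b (.c .z (.l 20)) (.l 20))) (.c .z (.b (.l 20) (.a (.l 20) .z)))))) (.a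
(.a (.a (.c (.a .z (.b .z (.l 17))) .z) (.c (.l 17) (.a (.b .z (.l 17)) (.l 17)))) (.l 17)) (.b (.l 17) (.c (.l 17) (.a (.l 17) (.b (.l 17) (.c (.l
17) .z))))))))) (.b (.a (.c (.c (.a (.b (.l 24) (.a (.l 24) (.c (.l 24) (.a (.l 24) .z)))) (.a (.a (.b (.c (.l 24) .z) .z) .z) (.a (.b .z (.c .z (.l
20))) (.l 20)))) (.a (.b (.a (.l 24) (.c (.a (.l 24) .z) .z)) (.c (.a (.l 24) .z) .z)) (.a (.a (.b .z (.c .z (.l 20))) (.b (.c .z (.l 20)) (.l 20)))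
(.l 20)))) (.c (.a (.b .z (.c .z (.b .z (.l 16)))) (.b (.c (.l 20) (.a (.b (.l 20) .z) (.l 20))) (.c (.a .z (.l 20)) .z))) (.a (.b (.c (.b .z (.c .z
(.l 16))) (.l 16)) (.l 16)) (.b (.c .z (.a (.b .z (.l 16)) .z)) (.a (.c (.b .z (.l 16)) (.l 16)) (.c .z (.a (.l 16) .z))))))) (.c (.a (.a (.a (.l 20)
(.c (.b (.a (.l 20) .z) .z) (.b (.l 20) (.a (.l 20) .z)))) (.a (.c (.b .z (.a .z (.l 17))) .z) (.b (.c (.l 17) (.a .z (.l 17))) (.l 17)))) (.l 17))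
(.a (.c (.a (.l 20) (.a (.b (.a (.l 20) .z) .z) (.b .z (.a .z (.l 17))))) (.a (.b (.c (.l 20) (.a .z (.l 20))) (.c (.a .z (.l 20)) .z)) (.a (.b (.l
20) (.a (.l 20) .z)) .z))) (.b (.c (.l 17) (.a (.a (.a .z (.l 17)) (.l 17)) (.b (.l 17) (.a (.l 17) .z)))) (.c (.a (.l 17) (.b (.l 17) (.c (.l 17)
.z))) (.a (.b (.l 17) (.c (.l 17) .z)) .z)))))) (.a (.c (.c (.a (.b (.a (.l 24) (.c (.a (.l 24) .z) .z)) (.c (.a (.b (.l 24) .z) .z) .z)) (.a (.a (.b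
.z (.c .z (.l 20))) (.b (.c .z (.l 20)) (.l 20))) (.l 20))) (.a (.b .z (.c .z (.b (.c .z (.l 16)) (.l 16)))) (.b (.c (.l 20) (.a .z (.l 20))) (.a .z
(.c (.a .z (.l 20)) .z))))) (.b (.c (.a (.c (.b (.c .z (.l 16)) (.l 16)) (.l 16)) (.a (.c .z (.b .z (.l 16))) .z)) (.a (.l 16) (.a (.l 16) (.c (.a (.l
16) .z) (.l 16))))) (.c (.a (.l 16) (.a (.c (.b .z (.l 16)) (.l 16)) (.c .z (.a (.l 16) .z)))) (.b (.a (.l 16) (.c (.l 16) (.a (.l 16) .z))) (.a (.c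
(.l 16) (.b (.l 16) .z)) (.c (.a (.l 16) .z) .z)))))) (.c (.a (.b (.a (.a (.c (.a (.l 20) .z) (.l 20)) .z) (.a (.a (.c (.l 17) .z) (.l 17)) (.l 17)))
(.c (.a (.a .z (.a .z (.l 17))) (.l 17)) (.a (.a (.a (.l 20) .z) .z) (.b (.l 17) (.c (.l 17) .z))))) (.b (.c (.l 17) (.a (.l 17) (.b (.c (.l 17) .z)
.z))) (.c (.a (.b (.l 17) (.c (.l 17) .z)) (.b (.c (.l 17) .z) .z)) (.a (.b (.c (.l 17) .z) .z) .z)))) (.a (.b (.c (.a (.c (.a (.l 20) .z) .z) (.a .z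
(.l 17))) .z) (.c .z (.a .z (.b .z (.c .z (.l 14)))))) (.b (.c (.a (.b (.c (.l 17) .z) .z) .z) .z) .z))))))

theorem vQ103 : ev3 Q103 J3_0 J5_18 J4_11 = 168076338168815540993038 := by decide +kernel

noncomputable def Q60 : QT3 :=
(.c (.c (.a (.c (.a (.l 20) (.c (.a (.b (.b (.a (.l 20) .z) (.l 20)) (.l 20)) (.b (.b .z (.a (.l 20) .z)) (.a (.l 20) (.c .z (.l 20))))) (.b (.a (.l
20) (.b .z (.a (.l 20) .z))) (.l 20)))) (.a (.l 20) (.b (.a (.l 20) (.b (.a (.b .z (.l 20)) .z) (.a (.l 20) (.b .z (.l 20))))) (.l 20)))) (.a (.c .z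
(.a (.b .z (.a (.b (.a (.l 20) .z) (.l 20)) .z)) .z)) (.c (.a (.b (.c (.l 44) (.a .z (.l 44))) .z) (.c .z (.a (.b (.l 44) .z) .z))) (.a .z (.b (.c (.a
(.l 44) .z) .z) (.c .z (.a .z (.b .z (.c .z (.l 10)))))))))) (.a (.a (.l 20) (.b (.a (.l 20) (.b (.a (.l 20) (.c .z (.b .z (.l 20)))) (.l 20))) (.l
20))) (.a (.c (.a (.b .z (.a (.l 20) (.b .z (.a (.l 20) .z)))) .z) (.a (.c (.b .z (.a (.l 20) .z)) .z) (.b .z (.c .z (.a (.b .z (.c .z (.l 10))) (.b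
(.c .z (.l 10)) (.l 10))))))) (.c (.a (.b (.c (.a (.l 45) .z) .z) (.c .z (.a .z (.b .z (.l 10))))) (.b (.c (.a .z (.b .z (.c .z (.l 10)))) (.a (.b .z
(.c .z (.l 10))) (.b (.c .z (.l 10)) (.l 10)))) (.c (.a (.b .z (.c .z (.l 10))) (.l 10)) (.l 10)))) (.a (.b (.c (.a .z (.b .z (.c .z (.l 10)))) (.a
(.b (.c .z (.l 10)) (.l 10)) (.l 10))) (.c (.a (.b (.c .z (.l 10)) (.l 10)) (.l 10)) (.l 10))) (.l 10)))))) (.a (.c (.c (.a (.c (.l 20) (.b (.l 20)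
(.c (.l 20) (.b (.l 20) (.a (.l 20) .z))))) (.c (.b (.a (.l 20) (.c (.l 20) (.a (.l 20) .z))) (.a (.l 20) (.c (.a (.l 20) .z) .z))) (.b (.a (.c (.l
20) (.b (.l 20) .z)) .z) (.a .z (.a (.c .z (.b .z (.l 10))) (.c .z (.l 10))))))) (.c (.a (.b (.c (.l 20) (.b (.a (.l 20) .z) (.a (.l 20) .z))) (.c (.b
(.a (.l 20) .z) .z) .z)) (.a (.b .z (.c (.b .z (.a .z (.l 10))) (.b (.a .z (.l 10)) (.a .z (.l 10))))) (.b (.c (.a .z (.b .z (.l 10))) (.a (.b .z (.l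
10)) (.l 10))) (.l 10)))) (.a (.b .z (.c .z (.b .z (.l 28)))) (.a (.b (.c (.b .z (.l 10)) (.b (.a .z (.l 10)) .z)) (.c (.b (.a .z (.l 10)) .z) .z))
(.b (.l 10) (.c (.l 10) (.a .z (.l 10)))))))) (.c (.a (.c (.b (.c (.b .z (.l 28)) (.l 28)) (.l 28)) (.l 28)) (.c (.a (.b .z (.c .z (.l 28))) (.b (.c
(.a (.b (.l 10) .z) (.l 10)) .z) .z)) (.a (.l 28) .z))) (.b (.a (.l 28) (.c (.a (.l 28) .z) (.b (.a (.l 28) .z) (.a (.l 28) .z)))) (.a (.l 28) (.a (.l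
28) (.a (.l 28) .z)))))) (.c (.a (.c (.a (.c (.b .z (.a (.c .z (.b .z (.l 10))) (.c (.b .z (.l 10)) (.l 10)))) (.b (.a (.c .z (.b .z (.l 10))) (.c (.b
.z (.l 10)) (.l 10))) (.l 10))) (.b (.c (.a (.c .z (.b .z (.l 10))) (.b (.c .z (.l 10)) (.l 10))) (.l 10)) (.l 10))) (.l 10)) (.c (.l 10) (.a (.c (.l
10) (.b (.a (.l 10) (.c (.l 10) (.b .z (.l 10)))) (.l 10))) (.c (.a (.l 10) (.b (.c (.a (.l 10) .z) .z) (.c (.l 10) (.a (.l 10) .z)))) (.a (.b .z (.c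
(.l 10) (.a (.l 10) .z))) .z))))) (.a (.c (.b (.a (.c (.l 10) (.a .z (.c (.l 10) .z))) (.c (.l 10) (.a (.b (.c (.l 10) .z) (.l 10)) (.b .z (.c (.l 10)
.z))))) (.a (.c (.a (.c (.l 10) .z) (.l 10)) .z) (.c (.l 10) (.a (.c (.l 10) (.a .z (.l 10))) (.l 10))))) (.b (.a .z (.c (.a .z (.b (.c .z (.l 12))
.z)) (.b (.a (.c .z (.l 12)) (.l 12)) .z))) (.a .z (.c (.a .z (.b .z (.c (.l 10) .z))) .z)))) (.c (.a (.b (.c (.a (.b (.c (.l 10) .z) (.l 10)) .z) (.a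
.z (.b (.c .z (.l 12)) .z))) (.c (.a (.l 10) (.b (.c (.l 10) .z) (.l 10))) (.a (.b (.c (.l 10) .z) (.l 10)) .z))) (.b (.c (.a (.c .z (.b (.l 12) .z))
(.l 12)) (.l 12)) (.a (.c .z (.b (.c .z (.l 12)) .z)) (.c (.a .z (.c .z (.l 12))) (.c (.b (.l 12) .z) .z))))) (.a (.b (.c (.a (.b (.l 12) (.c .z (.l
12))) (.l 12)) (.c (.b (.a (.l 12) .z) .z) .z)) .z) (.c (.b (.c (.a (.l 12) (.b (.l 12) .z)) .z) (.c .z (.a .z (.b .z (.l 13))))) (.b .z (.c (.a (.b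
.z (.l 13)) (.b .z (.l 13))) .z)))))))))

theorem vQ60 : ev3 Q60 J3_0 J5_13 J4_13 = 148897313041658170357614 := by decide +kernel

noncomputable def Q9 : QT3 :=
(.b (.c (.c (.b .z (.a (.b .z (.b .z (.a (.c (.b (.c (.l 50) .z) (.l 50)) .z) .z))) .z)) .z) (.b (.c (.a (.a (.b (.a (.c .z (.l 158)) .z) .z) .z) .z)
.z) .z)) (.c (.b (.c (.a (.b (.a (.b (.c .z (.b (.c (.l 50) .z) .z)) .z) .z) (.a (.b .z (.b (.c .z (.a (.l 48) .z)) (.c (.a (.l 48) .z) (.a (.l 48)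
.z)))) .z)) .z) (.a (.b .z (.c (.b .z (.c (.a (.a (.l 48) .z) .z) .z)) .z)) (.b .z (.a .z (.c (.a .z (.b .z (.a .z (.l 30)))) (.b (.a .z (.b .z (.l
30))) (.c (.a .z (.l 30)) .z))))))) (.c (.a (.b (.c (.a (.b (.l 48) (.a (.l 48) (.a (.l 48) .z))) .z) (.b (.c (.a (.a (.l 48) .z) .z) (.a (.a (.l 48)
.z) .z)) (.c (.a (.a (.l 48) .z) .z) .z))) (.c (.b (.c (.a (.a (.l 48) .z) .z) .z) .z) (.b .z (.c (.a (.b .z (.l 28)) .z) (.b (.c .z (.l 28)) (.l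
28)))))) .z) (.a (.b (.c (.b .z (.c .z (.a (.b .z (.l 28)) (.b .z (.l 28))))) (.b (.c (.a (.b .z (.l 28)) .z) (.l 28)) (.l 28))) (.c (.b (.c (.b (.c
.z (.l 28)) (.l 28)) (.l 28)) (.l 28)) (.l 28))) (.b (.a (.c .z (.b (.c .z (.b .z (.l 28))) (.c (.b .z (.l 28)) (.l 28)))) (.c .z (.b .z (.c .z (.l
28))))) (.c (.b (.c .z (.a (.l 28) .z)) (.a (.l 28) (.c .z (.l 28)))) (.l 28)))))) (.b (.c (.a (.b .z (.c (.b (.c .z (.a (.b .z (.l 28)) (.b .z (.l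
28)))) (.l 28)) .z)) (.b .z (.c (.b (.c .z (.b .z (.c (.l 28) .z))) (.c (.b (.c .z (.l 28)) (.c .z (.l 28))) (.l 28))) .z))) .z) (.c (.a (.c (.l 28)
(.b (.c (.a (.b (.c (.l 28) .z) (.l 28)) (.b (.c (.l 28) .z) (.l 28))) .z) (.c (.l 28) (.b (.c (.l 28) (.b .z (.l 28))) (.l 28))))) (.c (.l 28) (.b
(.c (.b (.c (.a (.l 28) .z) .z) (.c (.l 28) (.a (.l 28) .z))) .z) (.c (.l 28) (.b (.c (.a (.l 28) .z) .z) (.a (.l 28) (.c (.l 28) .z))))))) (.a (.c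
(.b (.c .z (.b (.a (.l 68) .z) .z)) (.c (.b .z (.a (.c (.l 28) .z) .z)) .z)) (.b (.a (.b (.b .z (.l 68)) (.l 68)) .z) (.c .z (.b (.a (.l 68) .z)
.z)))) .z)))))

theorem vQ9 : ev3 Q9 J3_0 J3_1 J4_9 = 112055711106280161915282 := by decide +kernel

noncomputable def Q203 : QT3 :=
(.b (.c (.a (.b (.c .z (.a (.b (.c (.a .z (.b (.c .z (.a .z (.b .z (.c .z (.a (.l 22) .z))))) .z)) (.a (.b .z (.c .z (.b .z (.a .z (.b .z (.l 26))))))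
(.b (.c .z (.b .z (.c (.a .z (.b .z (.l 26))) .z))) (.c (.b .z (.c .z (.c (.c .z (.l 26)) (.l 26)))) (.c (.b (.a (.b .z (.l 26)) (.l 26)) (.l 26)) (.a
(.b .z (.l 26)) (.c (.l 26) (.b .z (.l 26))))))))) (.c .z (.b (.c (.b (.a (.c .z (.l 26)) (.c .z (.l 26))) (.c (.c .z (.c (.b .z (.l 26)) (.l 26)))
(.l 26))) (.c (.l 26) (.b (.a (.a (.b .z (.l 26)) (.l 26)) (.l 26)) (.c (.l 26) (.b (.l 26) (.a .z (.l 26))))))) (.c (.c (.c (.b (.c .z (.a (.l 26)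
.z)) (.a (.a (.l 26) .z) .z)) (.a (.b (.l 26) .z) .z)) (.b (.a (.l 26) (.a (.b (.l 26) .z) .z)) .z)) (.c (.b (.c (.a (.l 26) .z) (.b (.a (.l 26) .z)
.z)) .z) .z))))) (.b (.c .z (.b (.c (.a .z (.b .z (.c .z (.c .z (.a (.l 26) .z))))) (.a (.b .z (.c (.c (.l 26) (.a (.l 26) .z)) .z)) .z)) (.c (.a (.b
(.c .z (.c (.c .z (.l 26)) (.l 26))) (.c .z (.l 26))) (.c .z (.c (.b (.c .z (.l 26)) .z) (.a (.l 26) .z)))) (.c (.a (.a (.l 26) (.c (.l 26) (.a (.l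
26) .z))) (.a (.c (.a (.l 26) .z) .z) .z)) (.a (.a (.c (.a (.l 26) .z) .z) .z) .z))))) (.c .z (.a (.b (.c (.c .z (.b (.a (.l 26) (.b (.l 26) .z)) .z))
(.c (.b (.a (.l 26) (.b (.l 26) .z)) .z) (.a (.c (.b (.l 26) .z) .z) .z))) .z) .z))))) .z) .z) (.a (.b (.a (.b (.c (.c (.b .z (.c (.c (.a .z (.c (.a
(.b .z (.l 26)) .z) .z)) .z) .z)) .z) .z) (.c (.c (.a (.c (.b (.c (.b (.c (.a .z (.l 26)) .z) .z) .z) .z) (.c (.c (.c .z (.b (.l 37) .z)) .z) .z)) (.b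
(.c (.c (.b (.c (.a (.l 26) .z) .z) (.c (.b (.l 26) .z) .z)) .z) .z) .z)) .z) .z)) (.b (.c (.c (.a (.c (.c .z (.b (.a .z (.a .z (.l 29))) .z)) (.b (.c
(.a .z (.a .z (.l 29))) .z) .z)) (.b (.c (.c (.c (.a .z (.l 29)) (.l 29)) (.l 29)) (.c (.a (.l 29) (.c (.l 29) .z)) .z)) (.c (.c (.c .z (.a .z (.l
29))) (.l 29)) (.a (.c (.b (.l 29) .z) .z) .z)))) .z) .z) (.c (.c (.a .z (.b (.c (.a (.b (.c .z (.l 29)) .z) .z) .z) .z)) .z) .z))) (.a .z (.b (.c (.c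
(.a .z (.b (.c .z (.c .z (.b .z (.l 59)))) .z)) .z) .z) .z))) (.b (.a (.b (.c (.c (.a (.b (.c (.c (.l 29) (.a (.c (.l 29) .z) .z)) .z) (.c (.a (.b (.c
(.l 29) .z) .z) .z) .z)) .z) .z) .z) .z) (.b .z (.c (.a .z (.b .z (.c .z (.a (.b .z (.c (.c .z (.c (.l 22) .z)) .z)) (.b (.c (.c .z (.c (.l 22) .z))
.z) .z))))) .z))) (.a (.b (.a .z (.c (.c .z (.b (.c (.b .z (.c .z (.a .z (.c .z (.l 22))))) .z) (.c (.c .z (.b (.c .z (.l 22)) .z)) .z))) .z)) .z) (.b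
(.c (.a (.c .z (.b (.a (.c (.b .z (.c .z (.c .z (.l 22)))) .z) (.b (.c (.c .z (.c (.l 22) .z)) .z) (.c (.c .z (.c (.l 22) .z)) .z))) .z)) .z) .z)
.z))))) .z)

theorem vQ203 : ev3 Q203 J3_5 J2_3 J2_3 = 42435560826699896009279 := by decide +kernel

noncomputable def Q182 : QT3 :=
(.a (.b (.a (.b (.c (.c .z (.a .z (.b .z (.c (.c .z (.l 21)) (.c .z (.c (.l 22) .z)))))) (.a .z (.c (.c (.c .z (.c .z (.l 35))) .z) .z))) (.c (.c (.a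
(.b (.c .z (.a .z (.b .z (.l 15)))) (.c .z (.c (.l 15) (.c (.l 15) .z)))) (.b (.c .z (.l 15)) (.c (.c .z (.c .z (.l 15))) (.c (.l 15) (.c (.l 15)
.z))))) (.c (.c .z (.c (.c (.a (.l 21) .z) (.l 21)) (.b (.l 21) .z))) (.c .z (.a .z (.c (.a .z (.l 22)) .z))))) .z)) (.b (.c (.c (.a (.b .z (.c (.a .z
(.l 29)) (.c .z (.l 15)))) (.b .z (.c .z (.c .z (.c .z (.l 15)))))) (.c (.c (.c (.c (.b (.l 15) .z) .z) .z) .z) (.c (.a (.c (.c .z (.l 22)) (.l 22))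
(.c (.l 22) (.c (.l 22) .z))) .z))) (.c (.c (.c .z (.c .z (.l 35))) .z) .z)) (.c (.c (.c (.c (.b (.c .z (.l 29)) .z) .z) (.c (.b (.c .z (.a (.l 15)
.z)) (.c (.a (.l 15) .z) (.l 15))) (.c (.l 15) (.c (.b (.l 15) .z) .z)))) (.c .z (.c (.a (.c .z (.a .z (.l 22))) (.c (.l 22) .z)) (.c (.a (.c (.l 22)
.z) .z) .z)))) (.c (.c (.c .z (.c .z (.c (.l 35) .z))) .z) .z)))) (.c (.b (.c (.c (.c .z (.a (.c .z (.c .z (.b (.l 15) .z))) (.b (.c .z (.l 15)) (.c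
.z (.c .z (.l 15)))))) (.c (.l 15) (.c (.b (.c (.l 15) (.a (.l 15) .z)) (.c (.a (.l 15) .z) .z)) .z))) .z) (.c (.c (.a .z (.c (.b .z (.c (.a .z (.c
(.l 12) .z)) .z)) .z)) (.c (.c (.a (.c .z (.b (.l 15) .z)) (.b (.l 15) (.c (.l 15) .z))) (.b (.c (.l 15) (.a (.l 15) .z)) .z)) .z)) .z)) .z)) (.b (.c
(.c (.c .z (.b (.c .z (.a .z (.b (.c (.b .z (.l 20)) (.l 20)) (.c (.l 20) (.a .z (.l 20)))))) (.a (.c .z (.b .z (.c (.c (.l 15) .z) .z))) (.c .z (.b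
(.a .z (.c (.l 20) .z)) .z))))) (.c (.b (.a .z (.c (.b (.c (.a .z (.l 20)) .z) .z) .z)) .z) (.c (.a (.c (.a (.c (.b (.l 22) .z) .z) (.c .z (.a .z (.l
23)))) (.a (.c .z (.a .z (.l 23))) (.l 23))) (.c (.a (.c .z (.l 23)) (.c (.b (.l 23) .z) (.l 23))) (.b (.l 23) (.c (.l 23) (.b (.l 23) .z))))) (.b (.c
(.c (.l 23) (.a (.b (.l 23) .z) .z)) .z) (.a (.c (.b (.c (.l 23) .z) .z) .z) .z))))) (.c (.c (.c .z (.b (.a (.c .z (.c (.l 35) .z)) .z) .z)) .z) .z))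
(.c (.c (.c (.b (.c (.a .z (.b .z (.b .z (.l 41)))) (.a (.b .z (.a (.c .z (.l 15)) .z)) .z)) (.a (.c (.b .z (.a (.c (.b .z (.l 12)) (.a .z (.l 12)))
(.c .z (.b .z (.l 12))))) (.b (.a (.c .z (.l 15)) (.c .z (.l 15))) (.c .z (.c .z (.l 15))))) (.c (.b (.a .z (.l 41)) .z) (.a (.b .z (.c .z (.l 15)))
.z)))) (.a (.b (.c (.b (.a (.l 15) (.c .z (.l 15))) (.c (.l 15) (.c (.l 15) .z))) .z) (.c (.c (.b (.l 15) .z) .z) .z)) .z)) (.b (.c (.a .z (.c .z (.a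
.z (.c .z (.c (.l 20) .z))))) (.a .z (.c (.c (.c .z (.a .z (.l 23))) .z) .z))) (.b (.c (.a .z (.c .z (.a .z (.c .z (.l 20))))) .z) .z))) .z)))

theorem vQ182 : ev3 Q182 J4_6 J4_10 J3_7 = 34559462004629662639906 := by decide +kernel

noncomputable def Q204 : QT3 :=
(.b .z (.c .z (.a (.b (.c .z (.a (.b .z (.a (.b .z (.c (.c .z (.a (.b (.a .z (.c .z (.b (.c .z (.c (.l 24) .z)) (.c .z (.c (.l 24) .z))))) .z) (.b (.c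
.z (.a (.b (.c .z (.c (.l 24) .z)) .z) .z)) .z))) .z)) (.b .z (.c (.c .z (.a (.b (.c .z (.a (.b .z (.c .z (.b (.l 26) .z))) .z)) .z) .z)) .z)))) .z))
.z) .z)))

theorem vQ204 : ev3 Q204 J2_3 J1_1 J1_1 = 953939279177384251264 := by decide +kernel

noncomputable def Q191 : QT3 :=
(.c .z (.a (.b (.c (.a (.b (.c .z (.b (.a (.c .z (.b (.c (.c (.l 26) (.b (.l 26) .z)) .z) .z)) .z) .z)) .z) .z) .z) .z) .z))

theorem vQ191 : ev3 Q191 J3_2 J3_7 J2_3 = 714493918915446997600 := by decide +kernel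

end Pool.Agent.Helper64.SPW.Dat3
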