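import Pool.Agent.Helper64.SPW.Sound
import Pool.Agent.Helper64.SPW.Density

/-!
From the checker to the Haar measure of the torus.
-/

open MeasureTheory Polynomial

namespace Pool.Agent.Helper64.SPW

open Pool.Agent.Helper11.SP

lemma leaf_ok (lo hi w q : ℕ) (h : okLeaf lo hi w q = true) :
    lo < hi ∧ hi ≤ 67108864 ∧ ENNReal.ofReal ((w : ℝ) / 10 ^ 9) ≤ mu (arcSet (tv lo) (tv hi)) := by
  have e : okLeaf lo hi w q = and (and (Nat.ble (Nat.succ lo) hi) (Nat.ble hi 67108864))
    (and (Nat.ble (Nat.mul (Nat.mul (Nat.sub 67108864 lo) lo) (Nat.mul (Nat.sub 67108864 hi) hi)) (Nat.mul q q))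
      (Nat.ble (Nat.add (Nat.mul (Nat.mul 562949953421312 9869606577649) (Nat.mul w w))
          (Nat.mul (Nat.add (Nat.mul lo hi) q) 1000000000000000000000000000000))
        (Nat.mul (Nat.mul 33554432 (Nat.add lo hi)) 1000000000000000000000000000000))) := rfl
  rw [e, Bool.and_eq_true, Bool.and_eq_true, Bool.and_eq_true] at h
  obtain ⟨⟨h1, h2⟩, h3, h4⟩ := h
  have h1' : lo < hi := Nat.le_of_ble_eq_true h1
  have h2' : hi ≤ 67108864 := Nat.le_of_ble_eq_true h2
  have h3' : (67108864 - lo) * lo * ((67108864 - hi) * hi) ≤ q * q := Nat.le_of_ble_eq_true h3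
  have h4' : 562949953421312 * 9869606577649 * (w * w) + (lo * hi + q) * 1000000000000000000000000000000 ≤
      33554432 * (lo + hi) * 1000000000000000000000000000000 := Nat.le_of_ble_eq_true h4
  refine ⟨h1', h2', ?_⟩
  have c3 : ((67108864 - (lo : ℝ)) * lo * ((67108864 - hi) * hi)) ≤ q * q := by
    have := (Nat.cast_le (α := ℝ)).2 h3'
    rw [Nat.cast_mul, Nat.cast_mul, Nat.cast_mul, Nat.cast_mul, Nat.cast_sub (show lo ≤ 67108864 by omega),
      Nat.cast_sub h2'] at this
    exact_mod_cast this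
  have c4 : (562949953421312 * 9869606577649 * ((w : ℝ) * w) + ((lo : ℝ) * hi + q) * 1000000000000000000000000000000) ≤
      33554432 * ((lo : ℝ) + hi) * 1000000000000000000000000000000 := by
    exact_mod_cast h4'
  refine le_trans ?_ (arc_measure (tv lo) (tv hi) (tv_bot lo) (tv_lt h1') (tv_top h2'))
  apply ENNReal.ofReal_le_ofReal
  have hl : (lo : ℝ) < hi := by exact_mod_cast h1'
  have hh : (hi : ℝ) ≤ 67108864 := by exact_mod_cast h2'
  have hl0 : (0 : ℝ) ≤ lo := by positivity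
  have hchord : (w : ℝ) * 3141593 / 10 ^ 15 ≤ Real.arccos (tv lo / 2) - Real.arccos (tv hi / 2) := by
    refine chord (tv lo / 2) (tv hi / 2) ((q : ℝ) / 1125899906842624) _ ?_ ?_ ?_ (by positivity) (by positivity) ?_ ?_
    · have := tv_bot lo
      linarith
    · have := tv_lt h1'
      linarith
    · have := tv_top h2'
      linarith
    · have e1 : (1 - (tv lo / 2) ^ 2) * (1 - (tv hi / 2) ^ 2) =
          ((67108864 - (lo : ℝ)) * lo * ((67108864 - hi) * hi)) / 1125899906842624 ^ 2 := by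
        unfold tv
        ring
      rw [e1, div_pow]
      apply div_le_div_of_nonneg_right _ (by positivity)
      rw [sq]
      exact c3
    · have e1 : 2 - 2 * (tv lo / 2) * (tv hi / 2) - 2 * ((q : ℝ) / 1125899906842624) =
          (33554432 * ((lo : ℝ) + hi) - (lo : ℝ) * hi - q) / 562949953421312 := by
        unfold tv
        ring
      rw [e1, le_div_iff₀ (by norm_num)]
      have e2 : ((w : ℝ) * 3141593 / 10 ^ 15) ^ 2 * 562949953421312 =
          (562949953421312 * 9869606577649 * ((w : ℝ) * w)) / 1000000000000000000000000000000 := by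
        ring
      rw [e2, div_le_iff₀ (by norm_num)]
      linarith
  rw [le_div_iff₀ Real.pi_pos]
  refine le_trans ?_ hchord
  have hpi := Real.pi_lt_d6
  have hw : (0 : ℝ) ≤ (w : ℝ) / 10 ^ 9 := by positivity
  have e3 : (w : ℝ) * 3141593 / 10 ^ 15 = (w : ℝ) / 10 ^ 9 * 3.141593 := by ring
  rw [e3]
  exact mul_le_mul_of_nonneg_left hpi.le hw

lemma ok1_node (lo hi w : ℕ) (l r : T1) (h : ok1 (T1.node lo hi w l r) = true) :
    lo = l.lo ∧ hi = r.hi ∧ l.hi = r.lo ∧ w = l.w + r.w ∧ ok1 l = true ∧ ok1 r = true := by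
  have e : ok1 (T1.node lo hi w l r) =
      and (and (and (Nat.beq lo l.lo) (Nat.beq hi r.hi)) (and (Nat.beq l.hi r.lo) (Nat.beq w (Nat.add l.w r.w))))
        (and (ok1 l) (ok1 r)) := rfl
  rw [e, Bool.and_eq_true, Bool.and_eq_true, Bool.and_eq_true, Bool.and_eq_true, Bool.and_eq_true] at h
  obtain ⟨⟨⟨a1, a2⟩, a3, a4⟩, a5, a6⟩ := h
  exact ⟨Nat.eq_of_beq_eq_true a1, Nat.eq_of_beq_eq_true a2, Nat.eq_of_beq_eq_true a3, Nat.eq_of_beq_eq_true a4, a5, a6⟩

/-- The set of angles of an interval. -/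
def T1.S (p : T1) : Set UnitAddCircle := arcSet (tv p.lo) (tv p.hi)

lemma T1.S_open (p : T1) : IsOpen p.S := arcSet_open _ _

lemma ok1_sound (p : T1) (h : ok1 p = true) :
    p.lo < p.hi ∧ p.hi ≤ 67108864 ∧ ENNReal.ofReal ((p.w : ℝ) / 10 ^ 9) ≤ mu p.S := by
  induction p with
  | leaf lo hi w q => exact leaf_ok lo hi w q h
  | node lo hi w l r ihl ihr =>
    obtain ⟨h1, h2, h3, h4, h5, h6⟩ := ok1_node lo hi w l r h
    obtain ⟨l1, l2, l3⟩ := ihl h5
    obtain ⟨r1, r2, r3⟩ := ihr h6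
    have elo : (T1.node lo hi w l r).lo = lo := rfl
    have ehi : (T1.node lo hi w l r).hi = hi := rfl
    have ew : (T1.node lo hi w l r).w = w := rfl
    rw [elo, ehi, ew]
    refine ⟨by omega, by omega, ?_⟩
    have hsub : l.S ∪ r.S ⊆ (T1.node lo hi w l r).S := by
      rintro x (⟨hx1, hx2⟩ | ⟨hx1, hx2⟩)
      · refine ⟨?_, hx2.trans_le ?_⟩
        · rw [elo, h1]
          exact hx1
        · rw [ehi, h2, h3]
          exact (tv_lt r1).le
      · refine ⟨lt_of_le_of_lt ?_ hx1, ?_⟩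
        · rw [elo, h1, ← h3]
          exact (tv_lt l1).le
        · rw [ehi, h2]
          exact hx2
    have hd : Disjoint l.S r.S := by
      rw [Set.disjoint_left]
      rintro x ⟨_, hx2⟩ ⟨hx3, _⟩
      rw [← h3] at hx3
      linarith
    refine le_trans ?_ (measure_mono hsub)
    rw [measure_union hd r.S_open.measurableSet, h4]
    have e2 : (((l.w + r.w : ℕ) : ℝ) / 10 ^ 9) = (l.w : ℝ) / 10 ^ 9 + (r.w : ℝ) / 10 ^ 9 := by
      push_cast
      ring
    rw [e2, ENNReal.ofReal_add (by positivity) (by positivity)]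
    exact add_le_add l3 r3

/-- Pairs of angles with increasing traces and a finite orbit of the limit system. -/
def G : Set (UnitAddCircle × UnitAddCircle) := {z | t1 z.1 < t1 z.2 ∧ ee ![t1 z.1, t1 z.2] ∈ Reg 2}

lemma vec_continuous : Continuous (fun z : UnitAddCircle × UnitAddCircle => (![t1 z.1, t1 z.2] : Fin 2 → ℝ)) := by
  refine continuous_pi fun j => ?_
  fin_cases j
  · exact t1_continuous.comp continuous_fst
  · exact t1_continuous.comp continuous_snd

lemma G_open : IsOpen G := by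
  have h1 : IsOpen {z : UnitAddCircle × UnitAddCircle | t1 z.1 < t1 z.2} :=
    isOpen_lt (t1_continuous.comp continuous_fst) (t1_continuous.comp continuous_snd)
  have h2 : IsOpen ((fun z : UnitAddCircle × UnitAddCircle => ee (![t1 z.1, t1 z.2] : Fin 2 → ℝ)) ⁻¹' Reg 2) :=
    (Reg_open' (g := 2) (by norm_num)).preimage (ee_continuous.comp vec_continuous)
  exact h1.inter h2

theorem ev_sound (t : QT) : ∀ p q : T1, ok1 p = true → ok1 q = true →
    ENNReal.ofReal ((ev t p q : ℝ) / 10 ^ 18) ≤ (mu.prod mu) (G ∩ (p.S ×ˢ q.S)) := by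
  induction t with
  | z =>
    intro p q _ _
    rw [ev_z]
    simp
  | l L =>
    intro p q hp hq
    rw [ev_l]
    cases hb : boxOK p.lo p.hi q.lo q.hi L with
    | false =>
      show ENNReal.ofReal (((0 : ℕ) : ℝ) / 10 ^ 18) ≤ _
      simp
    | true =>
      obtain ⟨p1, p2, p3⟩ := ok1_sound p hp
      obtain ⟨q1, q2, q3⟩ := ok1_sound q hq
      have hsub : G ∩ (p.S ×ˢ q.S) = p.S ×ˢ q.S := by
        apply Set.inter_eq_right.2
        rintro ⟨x, y⟩ ⟨hx, hy⟩
        exact box_sound p.lo p.hi q.lo q.hi L p1 q1 q2 hb (t1 x) (t1 y) hx.1 hx.2 hy.1 hy.2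
      rw [hsub, Measure.prod_prod]
      show ENNReal.ofReal (((p.w * q.w : ℕ) : ℝ) / 10 ^ 18) ≤ _
      have e2 : (((p.w * q.w : ℕ) : ℝ) / 10 ^ 18) = (p.w : ℝ) / 10 ^ 9 * ((q.w : ℝ) / 10 ^ 9) := by
        push_cast
        ring
      rw [e2, ENNReal.ofReal_mul (by positivity)]
      exact mul_le_mul' p3 q3
  | a x y ihx ihy =>
    intro p q hp hq
    cases p with
    | leaf lo hi w q' =>
      show ENNReal.ofReal (((0 : ℕ) : ℝ) / 10 ^ 18) ≤ _
      simp
    | node lo hi w l r =>
      rw [ev_a]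
      obtain ⟨h1, h2, h3, h4, h5, h6⟩ := ok1_node lo hi w l r hp
      obtain ⟨l1, l2, _⟩ := ok1_sound l h5
      obtain ⟨r1, r2, _⟩ := ok1_sound r h6
      have hl : l.S ⊆ (T1.node lo hi w l r).S := by
        rintro x ⟨hx1, hx2⟩
        have elo : (T1.node lo hi w l r).lo = lo := rfl
        have ehi : (T1.node lo hi w l r).hi = hi := rfl
        refine ⟨?_, hx2.trans_le ?_⟩
        · rw [elo, h1]
          exact hx1
        · rw [ehi, h2, h3]
          exact (tv_lt r1).le
      have hr : r.S ⊆ (T1.node lo hi w l r).S := by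
        rintro x ⟨hx1, hx2⟩
        have elo : (T1.node lo hi w l r).lo = lo := rfl
        have ehi : (T1.node lo hi w l r).hi = hi := rfl
        refine ⟨lt_of_le_of_lt ?_ hx1, ?_⟩
        · rw [elo, h1, ← h3]
          exact (tv_lt l1).le
        · rw [ehi, h2]
          exact hx2
      have hd : Disjoint l.S r.S := by
        rw [Set.disjoint_left]
        rintro x ⟨_, hx2⟩ ⟨hx3, _⟩
        rw [← h3] at hx3
        linarith
      have hsub : G ∩ (l.S ×ˢ q.S) ∪ G ∩ (r.S ×ˢ q.S) ⊆ G ∩ ((T1.node lo hi w l r).S ×ˢ q.S) := by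
        rintro z (⟨g1, g2, g3⟩ | ⟨g1, g2, g3⟩)
        · exact ⟨g1, hl g2, g3⟩
        · exact ⟨g1, hr g2, g3⟩
      have hdd : Disjoint (G ∩ (l.S ×ˢ q.S)) (G ∩ (r.S ×ˢ q.S)) := by
        rw [Set.disjoint_left]
        rintro z ⟨_, g2, _⟩ ⟨_, g4, _⟩
        exact (Set.disjoint_left.1 hd) g2 g4
      refine le_trans ?_ (measure_mono hsub)
      rw [measure_union hdd (G_open.measurableSet.inter (r.S_open.measurableSet.prod q.S_open.measurableSet))]
      have e2 : (((ev x l q + ev y r q : ℕ) : ℝ) / 10 ^ 18) = (ev x l q : ℝ) / 10 ^ 18 + (ev y r q : ℝ) / 10 ^ 18 := by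
        push_cast
        ring
      rw [e2, ENNReal.ofReal_add (by positivity) (by positivity)]
      exact add_le_add (ihx l q h5 hq) (ihy r q h6 hq)
  | b x y ihx ihy =>
    intro q p hq hp
    cases p with
    | leaf lo hi w q' =>
      show ENNReal.ofReal (((0 : ℕ) : ℝ) / 10 ^ 18) ≤ _
      simp
    | node lo hi w l r =>
      rw [ev_b]
      obtain ⟨h1, h2, h3, h4, h5, h6⟩ := ok1_node lo hi w l r hp
      obtain ⟨l1, l2, _⟩ := ok1_sound l h5
      obtain ⟨r1, r2, _⟩ := ok1_sound r h6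
      have hl : l.S ⊆ (T1.node lo hi w l r).S := by
        rintro x ⟨hx1, hx2⟩
        have elo : (T1.node lo hi w l r).lo = lo := rfl
        have ehi : (T1.node lo hi w l r).hi = hi := rfl
        refine ⟨?_, hx2.trans_le ?_⟩
        · rw [elo, h1]
          exact hx1
        · rw [ehi, h2, h3]
          exact (tv_lt r1).le
      have hr : r.S ⊆ (T1.node lo hi w l r).S := by
        rintro x ⟨hx1, hx2⟩
        have elo : (T1.node lo hi w l r).lo = lo := rfl
        have ehi : (T1.node lo hi w l r).hi = hi := rfl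
        refine ⟨lt_of_le_of_lt ?_ hx1, ?_⟩
        · rw [elo, h1, ← h3]
          exact (tv_lt l1).le
        · rw [ehi, h2]
          exact hx2
      have hd : Disjoint l.S r.S := by
        rw [Set.disjoint_left]
        rintro x ⟨_, hx2⟩ ⟨hx3, _⟩
        rw [← h3] at hx3
        linarith
      have hsub : G ∩ (q.S ×ˢ l.S) ∪ G ∩ (q.S ×ˢ r.S) ⊆ G ∩ (q.S ×ˢ (T1.node lo hi w l r).S) := by
        rintro z (⟨g1, g2, g3⟩ | ⟨g1, g2, g3⟩)
        · exact ⟨g1, g2, hl g3⟩
        · exact ⟨g1, g2, hr g3⟩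
      have hdd : Disjoint (G ∩ (q.S ×ˢ l.S)) (G ∩ (q.S ×ˢ r.S)) := by
        rw [Set.disjoint_left]
        rintro z ⟨_, _, g2⟩ ⟨_, _, g4⟩
        exact (Set.disjoint_left.1 hd) g2 g4
      refine le_trans ?_ (measure_mono hsub)
      rw [measure_union hdd (G_open.measurableSet.inter (q.S_open.measurableSet.prod r.S_open.measurableSet))]
      have e2 : (((ev x q l + ev y q r : ℕ) : ℝ) / 10 ^ 18) = (ev x q l : ℝ) / 10 ^ 18 + (ev y q r : ℝ) / 10 ^ 18 := by
        push_cast
        ring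
      rw [e2, ENNReal.ofReal_add (by positivity) (by positivity)]
      exact add_le_add (ihx q l hq h5) (ihy q r hq h6)

/-- Lower bound for the Haar measure of the points of the torus with a finite orbit. -/
theorem haar_lower (t : QT) (p : T1) (hp : ok1 p = true) :
    ENNReal.ofReal (2 * (ev t p p : ℝ) / 10 ^ 18) ≤ Helper3.haarT (Fin 2) (RegT 2) := by
  have h1 := ev_sound t p p hp hp
  have h2 : ENNReal.ofReal ((ev t p p : ℝ) / 10 ^ 18) ≤ (mu.prod mu) G := h1.trans (measure_mono Set.inter_subset_left)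
  set G' : Set (UnitAddCircle × UnitAddCircle) := Prod.swap ⁻¹' G with hG'
  have h3 : (mu.prod mu) G' = (mu.prod mu) G := by
    have := Measure.measurePreserving_swap (μ := mu) (ν := mu)
    rw [hG']
    exact this.measure_preimage G_open.measurableSet.nullMeasurableSet
  have hG'o : IsOpen G' := G_open.preimage continuous_swap
  have hd : Disjoint G G' := by
    rw [Set.disjoint_left]
    rintro z ⟨g1, _⟩ ⟨g2, _⟩
    have : t1 z.2 < t1 z.1 := g2
    linarith
  have h4 : ENNReal.ofReal (2 * (ev t p p : ℝ) / 10 ^ 18) ≤ (mu.prod mu) (G ∪ G') := by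
    rw [measure_union hd hG'o.measurableSet, h3]
    have e2 : 2 * (ev t p p : ℝ) / 10 ^ 18 = (ev t p p : ℝ) / 10 ^ 18 + (ev t p p : ℝ) / 10 ^ 18 := by ring
    rw [e2, ENNReal.ofReal_add (by positivity) (by positivity)]
    exact add_le_add h2 h2
  refine h4.trans ?_
  have hmp := measurePreserving_finTwoArrow (α := UnitAddCircle) mu
  rw [← hmp.measure_preimage (G_open.union hG'o).measurableSet.nullMeasurableSet]
  unfold Helper3.haarT
  apply measure_mono
  intro x hx
  have htr : tr x = ![t1 (x 0), t1 (x 1)] := by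
    funext j
    fin_cases j <;> rfl
  show ee (tr x) ∈ Reg 2
  rw [htr]
  rcases hx with hx | hx
  · exact hx.2
  · have h5 : ee ![t1 (x 1), t1 (x 0)] ∈ Reg 2 := hx.2
    rw [ee_two] at h5 ⊢
    rw [add_comm, mul_comm]
    exact h5

end Pool.Agent.Helper64.SPW
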