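import Pool.Agent.Helper64.SPW.Sound3
import Pool.Agent.Helper64.SPW.Density
import Pool.Agent.Helper64.SPW.Meas

/-!
From the checker to the Haar measure of the torus, degree 8.
-/

open MeasureTheory Polynomial

namespace Pool.Agent.Helper64.SPW

open Pool.Agent.Helper11.SP

lemma ok3_node (lo hi w : ℕ) (l r : T1) (h : ok3 (T1.node lo hi w l r) = true) :
    lo = l.lo ∧ hi = r.hi ∧ l.hi = r.lo ∧ w = l.w + r.w ∧ ok3 l = true ∧ ok3 r = true := by
  have e : ok3 (T1.node lo hi w l r) =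
      and (and (and (Nat.beq lo l.lo) (Nat.beq hi r.hi)) (and (Nat.beq l.hi r.lo) (Nat.beq w (Nat.add l.w r.w))))
        (and (ok3 l) (ok3 r)) := rfl
  rw [e, Bool.and_eq_true, Bool.and_eq_true, Bool.and_eq_true, Bool.and_eq_true, Bool.and_eq_true] at h
  obtain ⟨⟨⟨a1, a2⟩, a3, a4⟩, a5, a6⟩ := h
  exact ⟨Nat.eq_of_beq_eq_true a1, Nat.eq_of_beq_eq_true a2, Nat.eq_of_beq_eq_true a3, Nat.eq_of_beq_eq_true a4, a5, a6⟩

/-- The set of angles of an interval. -/
def T1.S3 (p : T1) : Set UnitAddCircle := arcSet (tw p.lo) (tw p.hi)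

lemma T1.S3_open (p : T1) : IsOpen p.S3 := arcSet_open _ _

lemma ok3_sound (p : T1) (h : ok3 p = true) :
    p.lo < p.hi ∧ p.hi ≤ 262144 ∧ ENNReal.ofReal ((p.w : ℝ) / 10 ^ 9) ≤ mu p.S3 := by
  induction p with
  | leaf lo hi w q =>
    have e : ok3 (T1.leaf lo hi w q) = okLeaf (256 * lo) (256 * hi) w q := rfl
    rw [e] at h
    obtain ⟨h1, h2, h3⟩ := leaf_ok _ _ _ _ h
    refine ⟨?_, ?_, ?_⟩
    · show lo < hi
      omega
    · show hi ≤ 262144
      omega
    · show ENNReal.ofReal ((w : ℝ) / 10 ^ 9) ≤ mu (arcSet (tw lo) (tw hi))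
      rw [tw_tv, tw_tv]
      exact h3
  | node lo hi w l r ihl ihr =>
    obtain ⟨h1, h2, h3, h4, h5, h6⟩ := ok3_node lo hi w l r h
    obtain ⟨l1, l2, l3⟩ := ihl h5
    obtain ⟨r1, r2, r3⟩ := ihr h6
    have elo : (T1.node lo hi w l r).lo = lo := rfl
    have ehi : (T1.node lo hi w l r).hi = hi := rfl
    have ew : (T1.node lo hi w l r).w = w := rfl
    rw [elo, ehi, ew]
    refine ⟨by omega, by omega, ?_⟩
    have hsub : l.S3 ∪ r.S3 ⊆ (T1.node lo hi w l r).S3 := by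
      rintro x (⟨hx1, hx2⟩ | ⟨hx1, hx2⟩)
      · refine ⟨?_, hx2.trans_le ?_⟩
        · rw [elo, h1]
          exact hx1
        · rw [ehi, h2, h3]
          exact (tw_lt r1).le
      · refine ⟨lt_of_le_of_lt ?_ hx1, ?_⟩
        · rw [elo, h1, ← h3]
          exact (tw_lt l1).le
        · rw [ehi, h2]
          exact hx2
    have hd : Disjoint l.S3 r.S3 := by
      rw [Set.disjoint_left]
      rintro x ⟨_, hx2⟩ ⟨hx3, _⟩
      rw [← h3] at hx3
      linarith
    refine le_trans ?_ (measure_mono hsub)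
    rw [measure_union hd r.S3_open.measurableSet, h4]
    have e2 : (((l.w + r.w : ℕ) : ℝ) / 10 ^ 9) = (l.w : ℝ) / 10 ^ 9 + (r.w : ℝ) / 10 ^ 9 := by
      push_cast
      ring
    rw [e2, ENNReal.ofReal_add (by positivity) (by positivity)]
    exact add_le_add l3 r3

lemma split3 (lo hi w : ℕ) (l r : T1) (h : ok3 (T1.node lo hi w l r) = true) :
    l.S3 ⊆ (T1.node lo hi w l r).S3 ∧ r.S3 ⊆ (T1.node lo hi w l r).S3 ∧ Disjoint l.S3 r.S3 := by
  obtain ⟨h1, h2, h3, h4, h5, h6⟩ := ok3_node lo hi w l r h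
  obtain ⟨l1, l2, _⟩ := ok3_sound l h5
  obtain ⟨r1, r2, _⟩ := ok3_sound r h6
  have elo : (T1.node lo hi w l r).lo = lo := rfl
  have ehi : (T1.node lo hi w l r).hi = hi := rfl
  refine ⟨?_, ?_, ?_⟩
  · rintro x ⟨hx1, hx2⟩
    refine ⟨?_, hx2.trans_le ?_⟩
    · rw [elo, h1]
      exact hx1
    · rw [ehi, h2, h3]
      exact (tw_lt r1).le
  · rintro x ⟨hx1, hx2⟩
    refine ⟨lt_of_le_of_lt ?_ hx1, ?_⟩
    · rw [elo, h1, ← h3]
      exact (tw_lt l1).le
    · rw [ehi, h2]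
      exact hx2
  · rw [Set.disjoint_left]
    rintro x ⟨_, hx2⟩ ⟨hx3, _⟩
    rw [← h3] at hx3
    linarith

/-- A box of three angles. -/
def box3 (p q r : T1) : Set (UnitAddTorus (Fin 3)) := {x | x 0 ∈ p.S3 ∧ x 1 ∈ q.S3 ∧ x 2 ∈ r.S3}

lemma box3_open (p q r : T1) : IsOpen (box3 p q r) := by
  have h0 : IsOpen ((fun x : UnitAddTorus (Fin 3) => x 0) ⁻¹' p.S3) := p.S3_open.preimage (continuous_apply (0 : Fin 3))
  have h1 : IsOpen ((fun x : UnitAddTorus (Fin 3) => x 1) ⁻¹' q.S3) := q.S3_open.preimage (continuous_apply (1 : Fin 3))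
  have h2 : IsOpen ((fun x : UnitAddTorus (Fin 3) => x 2) ⁻¹' r.S3) := r.S3_open.preimage (continuous_apply (2 : Fin 3))
  exact h0.inter (h1.inter h2)

lemma box3_measure (p q r : T1) : Helper3.haarT (Fin 3) (box3 p q r) = mu p.S3 * mu q.S3 * mu r.S3 := by
  have e : box3 p q r = Set.pi Set.univ ![p.S3, q.S3, r.S3] := by
    ext x
    constructor
    · rintro ⟨h0, h1, h2⟩ i _
      fin_cases i
      · exact h0
      · exact h1
      · exact h2
    · intro h
      exact ⟨h 0 (Set.mem_univ _), h 1 (Set.mem_univ _), h 2 (Set.mem_univ _)⟩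
  unfold Helper3.haarT
  rw [e, Measure.pi_pi, Fin.prod_univ_three]
  rfl

/-- Triples of angles with increasing traces and a finite orbit of the limit system. -/
def A3 : Set (UnitAddTorus (Fin 3)) := {x | t1 (x 0) < t1 (x 1) ∧ t1 (x 1) < t1 (x 2) ∧ ee (tr x) ∈ Reg 3}

lemma A3_open : IsOpen A3 := by
  have h1 : IsOpen {x : UnitAddTorus (Fin 3) | t1 (x 0) < t1 (x 1)} :=
    isOpen_lt (t1_continuous.comp (continuous_apply 0)) (t1_continuous.comp (continuous_apply 1))
  have h2 : IsOpen {x : UnitAddTorus (Fin 3) | t1 (x 1) < t1 (x 2)} :=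
    isOpen_lt (t1_continuous.comp (continuous_apply 1)) (t1_continuous.comp (continuous_apply 2))
  have h3 : IsOpen ((fun x : UnitAddTorus (Fin 3) => ee (tr x)) ⁻¹' Reg 3) :=
    (Reg_open' (g := 3) (by norm_num)).preimage ((ee_continuous (g := 3)).comp tr_continuous)
  exact h1.inter (h2.inter h3)

lemma add_parts {α : Type} [MeasurableSpace α] (μ : Measure α) (X Y Z : Set α) (hY : MeasurableSet Y)
    (hd : Disjoint X Y) (hX : X ⊆ Z) (hYZ : Y ⊆ Z) (a b : ℕ)
    (ha : ENNReal.ofReal ((a : ℝ) / 10 ^ 27) ≤ μ X) (hb : ENNReal.ofReal ((b : ℝ) / 10 ^ 27) ≤ μ Y) :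
    ENNReal.ofReal (((a + b : ℕ) : ℝ) / 10 ^ 27) ≤ μ Z := by
  refine le_trans ?_ (measure_mono (Set.union_subset hX hYZ))
  rw [measure_union hd hY]
  have e2 : (((a + b : ℕ) : ℝ) / 10 ^ 27) = (a : ℝ) / 10 ^ 27 + (b : ℝ) / 10 ^ 27 := by
    push_cast
    ring
  rw [e2, ENNReal.ofReal_add (by positivity) (by positivity)]
  exact add_le_add ha hb

theorem ev3_sound (t : QT3) : ∀ p q r : T1, ok3 p = true → ok3 q = true → ok3 r = true →
    ENNReal.ofReal ((ev3 t p q r : ℝ) / 10 ^ 27) ≤ Helper3.haarT (Fin 3) (A3 ∩ box3 p q r) := by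
  induction t with
  | z =>
    intro p q r _ _ _
    rw [ev3_z]
    simp
  | l L =>
    intro p q r hp hq hr
    rw [ev3_l]
    cases hb : boxOK3 p.lo p.hi q.lo q.hi r.lo r.hi L with
    | false =>
      show ENNReal.ofReal (((0 : ℕ) : ℝ) / 10 ^ 27) ≤ _
      simp
    | true =>
      obtain ⟨p1, p2, p3⟩ := ok3_sound p hp
      obtain ⟨q1, q2, q3⟩ := ok3_sound q hq
      obtain ⟨r1, r2, r3⟩ := ok3_sound r hr
      have hsub : A3 ∩ box3 p q r = box3 p q r := by
        apply Set.inter_eq_right.2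
        rintro x ⟨hx, hy, hz⟩
        have htr : tr x = ![t1 (x 0), t1 (x 1), t1 (x 2)] := by
          funext j
          fin_cases j <;> rfl
        have := box3_sound p.lo p.hi q.lo q.hi r.lo r.hi L p1 q1 r1 r2 hb (t1 (x 0)) (t1 (x 1)) (t1 (x 2))
          hx.1 hx.2 hy.1 hy.2 hz.1 hz.2
        refine ⟨this.1, this.2.1, ?_⟩
        rw [htr]
        exact this.2.2
      rw [hsub, box3_measure]
      show ENNReal.ofReal (((p.w * q.w * r.w : ℕ) : ℝ) / 10 ^ 27) ≤ _
      have e2 : (((p.w * q.w * r.w : ℕ) : ℝ) / 10 ^ 27) =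
          (p.w : ℝ) / 10 ^ 9 * ((q.w : ℝ) / 10 ^ 9) * ((r.w : ℝ) / 10 ^ 9) := by
        push_cast
        ring
      rw [e2, ENNReal.ofReal_mul (by positivity), ENNReal.ofReal_mul (by positivity)]
      exact mul_le_mul' (mul_le_mul' p3 q3) r3
  | a x y ihx ihy =>
    intro p q r hp hq hr
    cases p with
    | leaf lo hi w q' =>
      show ENNReal.ofReal (((0 : ℕ) : ℝ) / 10 ^ 27) ≤ _
      simp
    | node lo hi w u v =>
      rw [ev3_a]
      obtain ⟨_, _, _, _, h5, h6⟩ := ok3_node lo hi w u v hp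
      obtain ⟨s1, s2, s3⟩ := split3 lo hi w u v hp
      refine add_parts _ (A3 ∩ box3 u q r) (A3 ∩ box3 v q r) _
        (A3_open.measurableSet.inter (box3_open v q r).measurableSet) ?_ ?_ ?_ _ _ (ihx u q r h5 hq hr) (ihy v q r h6 hq hr)
      · rw [Set.disjoint_left]
        rintro z ⟨_, g2, _⟩ ⟨_, g4, _⟩
        exact (Set.disjoint_left.1 s3) g2 g4
      · rintro z ⟨g1, g2, g3, g4⟩
        exact ⟨g1, s1 g2, g3, g4⟩
      · rintro z ⟨g1, g2, g3, g4⟩
        exact ⟨g1, s2 g2, g3, g4⟩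
  | b x y ihx ihy =>
    intro p q r hp hq hr
    cases q with
    | leaf lo hi w q' =>
      show ENNReal.ofReal (((0 : ℕ) : ℝ) / 10 ^ 27) ≤ _
      simp
    | node lo hi w u v =>
      rw [ev3_b]
      obtain ⟨_, _, _, _, h5, h6⟩ := ok3_node lo hi w u v hq
      obtain ⟨s1, s2, s3⟩ := split3 lo hi w u v hq
      refine add_parts _ (A3 ∩ box3 p u r) (A3 ∩ box3 p v r) _
        (A3_open.measurableSet.inter (box3_open p v r).measurableSet) ?_ ?_ ?_ _ _ (ihx p u r hp h5 hr) (ihy p v r hp h6 hr)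
      · rw [Set.disjoint_left]
        rintro z ⟨_, _, g2, _⟩ ⟨_, _, g4, _⟩
        exact (Set.disjoint_left.1 s3) g2 g4
      · rintro z ⟨g1, g2, g3, g4⟩
        exact ⟨g1, g2, s1 g3, g4⟩
      · rintro z ⟨g1, g2, g3, g4⟩
        exact ⟨g1, g2, s2 g3, g4⟩
  | c x y ihx ihy =>
    intro p q r hp hq hr
    cases r with
    | leaf lo hi w q' =>
      show ENNReal.ofReal (((0 : ℕ) : ℝ) / 10 ^ 27) ≤ _
      simp
    | node lo hi w u v =>
      rw [ev3_c]
      obtain ⟨_, _, _, _, h5, h6⟩ := ok3_node lo hi w u v hr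
      obtain ⟨s1, s2, s3⟩ := split3 lo hi w u v hr
      refine add_parts _ (A3 ∩ box3 p q u) (A3 ∩ box3 p q v) _
        (A3_open.measurableSet.inter (box3_open p q v).measurableSet) ?_ ?_ ?_ _ _ (ihx p q u hp hq h5) (ihy p q v hp hq h6)
      · rw [Set.disjoint_left]
        rintro z ⟨_, _, _, g2⟩ ⟨_, _, _, g4⟩
        exact (Set.disjoint_left.1 s3) g2 g4
      · rintro z ⟨g1, g2, g3, g4⟩
        exact ⟨g1, g2, g3, s1 g4⟩
      · rintro z ⟨g1, g2, g3, g4⟩
        exact ⟨g1, g2, g3, s2 g4⟩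

/-- `ee` is symmetric. -/
lemma ee_perm {g : ℕ} (t : Fin g → ℝ) (σ : Equiv.Perm (Fin g)) : ee (fun i => t (σ i)) = ee t := by
  funext j
  unfold ee
  rw [Equiv.prod_comp σ (fun i => (X ^ 2 - C (t i) * X + 1 : ℝ[X]))]

/-- Permutation of the coordinates. -/
noncomputable def permE (σ : Equiv.Perm (Fin 3)) : UnitAddTorus (Fin 3) → UnitAddTorus (Fin 3) := fun x i => x (σ i)

lemma permE_continuous (σ : Equiv.Perm (Fin 3)) : Continuous (permE σ) :=
  continuous_pi fun i => continuous_apply (σ i)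

lemma permE_measure (σ : Equiv.Perm (Fin 3)) (S : Set (UnitAddTorus (Fin 3))) (hS : IsOpen S) :
    Helper3.haarT (Fin 3) (permE σ ⁻¹' S) = Helper3.haarT (Fin 3) S := by
  have hmp := measurePreserving_piCongrLeft (fun _ : Fin 3 => (mu : Measure UnitAddCircle)) σ.symm
  have h := hmp.measure_preimage (s := S) hS.measurableSet.nullMeasurableSet
  unfold Helper3.haarT
  have e : (MeasurableEquiv.piCongrLeft (fun _ : Fin 3 => UnitAddCircle) σ.symm) ⁻¹' S = permE σ ⁻¹' S := by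
    have : ⇑(MeasurableEquiv.piCongrLeft (fun _ : Fin 3 => UnitAddCircle) σ.symm) = permE σ := by
      funext x i
      have := Equiv.piCongrLeft_apply_apply (fun _ : Fin 3 => UnitAddCircle) σ.symm x (σ i)
      rw [Equiv.symm_apply_apply] at this
      exact this
    rw [this]
  rw [e] at h
  exact h

lemma A3_strictMono (x : UnitAddTorus (Fin 3)) (hx : x ∈ A3) : StrictMono (tr x) := by
  obtain ⟨h1, h2, _⟩ := hx
  intro i j hij
  fin_cases i <;> fin_cases j
  · exact absurd hij (lt_irrefl _)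
  · exact h1
  · exact h1.trans h2
  · exact absurd hij (by decide)
  · exact absurd hij (lt_irrefl _)
  · exact h2
  · exact absurd hij (by decide)
  · exact absurd hij (by decide)
  · exact absurd hij (lt_irrefl _)

lemma A3_disjoint : Pairwise (Function.onFun Disjoint fun σ : Equiv.Perm (Fin 3) => permE σ ⁻¹' A3) := by
  intro σ τ hst
  show Disjoint (permE σ ⁻¹' A3) (permE τ ⁻¹' A3)
  rw [Set.disjoint_left]
  intro x h1 h2
  have m1 : StrictMono (tr x ∘ σ) := A3_strictMono _ h1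
  have m2 : StrictMono (tr x ∘ τ) := A3_strictMono _ h2
  have e := Tuple.unique_monotone m1.monotone m2.monotone
  have hinj : Function.Injective (tr x) := by
    have := m1.injective
    intro i j hij
    have h3 : (tr x ∘ σ) (σ.symm i) = (tr x ∘ σ) (σ.symm j) := by
      show tr x (σ (σ.symm i)) = tr x (σ (σ.symm j))
      rw [Equiv.apply_symm_apply, Equiv.apply_symm_apply]
      exact hij
    exact σ.symm.injective (this h3)
  apply hst
  ext i
  have := congrFun e i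
  have h3 := hinj this
  rw [h3]

lemma A3_sub (σ : Equiv.Perm (Fin 3)) : permE σ ⁻¹' A3 ⊆ RegT 3 := by
  rintro x ⟨_, _, h⟩
  have e : tr (permE σ x) = fun i => tr x (σ i) := rfl
  rw [e, ee_perm] at h
  exact h

/-- Lower bound for the Haar measure of the points of the torus with a finite orbit. -/
theorem haar_lower3 (t : QT3) (p : T1) (hp : ok3 p = true) :
    ENNReal.ofReal (6 * ((ev3 t p p p : ℝ) / 10 ^ 27)) ≤ Helper3.haarT (Fin 3) (RegT 3) := by
  have h1 := ev3_sound t p p p hp hp hp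
  have h2 : ENNReal.ofReal ((ev3 t p p p : ℝ) / 10 ^ 27) ≤ Helper3.haarT (Fin 3) A3 :=
    h1.trans (measure_mono Set.inter_subset_left)
  have h3 : Helper3.haarT (Fin 3) (⋃ σ : Equiv.Perm (Fin 3), permE σ ⁻¹' A3) = 6 * Helper3.haarT (Fin 3) A3 := by
    rw [measure_iUnion A3_disjoint (fun σ => (A3_open.preimage (permE_continuous σ)).measurableSet), tsum_fintype]
    have h4 : ∀ σ : Equiv.Perm (Fin 3), Helper3.haarT (Fin 3) (permE σ ⁻¹' A3) = Helper3.haarT (Fin 3) A3 :=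
      fun σ => permE_measure σ A3 A3_open
    rw [Finset.sum_congr rfl (fun σ _ => h4 σ), Finset.sum_const, Finset.card_univ, Fintype.card_perm,
      Fintype.card_fin, nsmul_eq_mul]
    norm_num [Nat.factorial]
  have h5 : (⋃ σ : Equiv.Perm (Fin 3), permE σ ⁻¹' A3) ⊆ RegT 3 := Set.iUnion_subset A3_sub
  refine le_trans ?_ (measure_mono h5)
  rw [h3, ENNReal.ofReal_mul (by norm_num)]
  have e6 : ENNReal.ofReal 6 = 6 := by
    norm_num
  rw [e6]
  exact mul_le_mul' le_rfl h2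

end Pool.Agent.Helper64.SPW
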