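import Pool.Agent.Helper64.SPW.Tree
import Pool.Agent.Helper64.SPW.Box
import Pool.Agent.Helper64.SPW.Arc
import Pool.Agent.Helper11.SP.Run2
import Pool.Agent.Helper11.SP.CodeList

/-!
Soundness of the checker for boxes of traces.
-/

open MeasureTheory Polynomial

namespace Pool.Agent.Helper64.SPW

open Pool.Agent.Helper11.SP

/-- The point of a vertex. -/
noncomputable def pt2' (X Y D : ℕ) : Fin 2 → ℝ := ![(X : ℝ) / D - 4, (Y : ℝ) / D - 2]

/-- The main identity. -/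
lemma key_id' (l : List ℕ) (i : ℕ) (hi : i < l.length) (X Y D : ℕ) (hD : 0 < D) :
    (D : ℝ) * Fc (pt2' X Y D) (pol l) i = (LL2 l i X Y D : ℝ) - RR2 l i D (256 * X + 128 * Y) := by
  have hD' : (D : ℝ) ≠ 0 := by exact_mod_cast hD.ne'
  have hpv : ∀ j, 0 < j → (if j ≤ i then (((pol l).coeff (i - j) : ℤ) : ℝ) else 0) = (pv l i j : ℝ) - 128 := by
    intro j hj
    unfold pv
    split_ifs with h
    · rw [pol_coeff, if_pos (by omega)]
      push_cast
      ring
    · norm_num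
  have h0 : (((pol l).coeff i : ℤ) : ℝ) = (pv l i 0 : ℝ) - 128 := by
    unfold pv
    rw [if_pos (Nat.zero_le i), pol_coeff, if_pos hi, Nat.sub_zero]
    push_cast
    ring
  have hm : ∀ (j : ℕ) (r : ℝ), (if j ≤ i then r * (((pol l).coeff (i - j) : ℤ) : ℝ) else 0) =
      r * (if j ≤ i then (((pol l).coeff (i - j) : ℤ) : ℝ) else 0) := by
    intro j r
    split_ifs <;> simp
  have e : Fc (pt2' X Y D) (pol l) i = ((pv l i 0 : ℝ) - 128) + ((X : ℝ) / D - 4) * ((pv l i 1 : ℝ) - 128)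
      + ((Y : ℝ) / D - 2) * ((pv l i 2 : ℝ) - 128) + ((X : ℝ) / D - 4) * ((pv l i 3 : ℝ) - 128)
      + ((pv l i 4 : ℝ) - 128) := by
    unfold pt2'
    rw [Fc_two, hm, hm, hm, hpv 1 (by norm_num), hpv 2 (by norm_num), hpv 3 (by norm_num),
      hpv 4 (by norm_num), h0]
  rw [e]
  unfold LL2 RR2
  push_cast
  field_simp
  ring

lemma getD_of_len' (l : List ℕ) (k : ℕ) (h : ¬ k < l.length) : (pol l).coeff k = 0 := by
  rw [pol_coeff, if_neg h]

/-- What a successful run proves. -/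
lemma run_code (sX sY sD : ℕ) (hsD : 0 < sD) (vs : VL) (v0 : ℕ × ℕ × ℕ × ℕ) (hv0 : v0 ∈ vs.toL)
    (hV : ∀ v ∈ vs.toL, 1 ≤ v.2.2.1 ∧ v.2.2.2 = 256 * v.1 + 128 * v.2.1) (L : ℕ) (acc : List ℕ)
    (hrun : run2 sX sY sD (256 * sX + 128 * sY) vs L 129 128 128 128 [129] = some acc) :
    ∃ n : ℤ[X], n.Monic ∧ n.coeff 0 = 1 ∧
      ∀ i, 1 ≤ i → i < n.natDegree + 4 →
        (∀ v ∈ vs.toL, 0 ≤ Fc (pt2' v.1 v.2.1 v.2.2.1) n i ∧ Fc (pt2' v.1 v.2.1 v.2.2.1) n i ≤ 1) ∧
        0 < Fc (pt2' sX sY sD) n i := by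
  obtain ⟨hlen, hL4, hl0, hlz, hstep⟩ := run2_sound _ _ _ _ hsD _ _ _ hrun
  set l := acc.reverse with hl
  have hvF : ∀ v ∈ vs.toL, ∀ i, 1 ≤ i → i ≤ L →
      0 ≤ Fc (pt2' v.1 v.2.1 v.2.2.1) (pol l) i ∧ Fc (pt2' v.1 v.2.1 v.2.2.1) (pol l) i ≤ 1 := by
    intro v hv i hi1 hiL
    obtain ⟨hD, hc'⟩ := hV v hv
    obtain ⟨h1, h2⟩ := (hstep i hi1 hiL).2 v hv
    rw [hc'] at h1 h2
    have hD' : (0 : ℝ) < v.2.2.1 := by exact_mod_cast hD
    have hk := key_id' l i (by omega) v.1 v.2.1 v.2.2.1 hD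
    have h1' : (RR2 l i v.2.2.1 (256 * v.1 + 128 * v.2.1) : ℝ) ≤ LL2 l i v.1 v.2.1 v.2.2.1 := by
      exact_mod_cast h1
    have h2' : (LL2 l i v.1 v.2.1 v.2.2.1 : ℝ) ≤
        (RR2 l i v.2.2.1 (256 * v.1 + 128 * v.2.1) : ℝ) + v.2.2.1 := by
      exact_mod_cast h2
    constructor
    · by_contra hcon
      have := mul_neg_of_pos_of_neg hD' (not_le.1 hcon)
      linarith
    · by_contra hcon
      have := mul_lt_mul_of_pos_left (not_le.1 hcon) hD'
      linarith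
  have hsF : ∀ i, 1 ≤ i → i ≤ L → 0 < Fc (pt2' sX sY sD) (pol l) i := by
    intro i hi1 hiL
    have h1 := (hstep i hi1 hiL).1
    have hD' : (0 : ℝ) < sD := by exact_mod_cast hsD
    have hk := key_id' l i (by omega) sX sY sD hsD
    have h1' : (RR2 l i sD (256 * sX + 128 * sY) : ℝ) < LL2 l i sX sY sD := by
      exact_mod_cast h1
    by_contra hcon
    have := mul_nonpos_of_nonneg_of_nonpos hD'.le (not_lt.1 hcon)
    linarith
  have hz : ∀ k, L < k + 4 → (pol l).coeff k = 0 := by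
    intro k hk
    by_cases hk2 : k ≤ L
    · rw [pol_coeff, if_pos (by omega), hlz k hk2 hk]
      norm_num
    · exact getD_of_len' l k (by omega)
  have hFL : ∀ X Y D : ℕ, Fc (pt2' X Y D) (pol l) L = (((pol l).coeff (L - 4) : ℤ) : ℝ) := by
    intro X Y D
    unfold pt2'
    rw [Fc_two, hz L (by omega), hz (L - 1) (by omega), hz (L - 2) (by omega), hz (L - 3) (by omega),
      if_pos hL4]
    simp
  have hone : (pol l).coeff (L - 4) = 1 := by
    have h1 := hsF L (by omega) le_rfl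
    have h2 := (hvF v0 hv0 L (by omega) le_rfl).2
    rw [hFL] at h1 h2
    have h1' : 0 < (pol l).coeff (L - 4) := by exact_mod_cast h1
    have h2' : (pol l).coeff (L - 4) ≤ 1 := by exact_mod_cast h2
    omega
  have hdeg : (pol l).natDegree ≤ L - 4 := by
    rw [Polynomial.natDegree_le_iff_coeff_eq_zero]
    intro k hk
    exact hz k (by omega)
  have hmonic : (pol l).Monic := Polynomial.monic_of_natDegree_le_of_coeff_eq_one _ hdeg hone
  have hdeg' : (pol l).natDegree = L - 4 :=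
    Polynomial.natDegree_eq_of_le_of_coeff_ne_zero hdeg (by rw [hone]; norm_num)
  have hn0 : (pol l).coeff 0 = 1 := by
    rw [pol_coeff, if_pos (by omega), hl0]
    norm_num
  refine ⟨pol l, hmonic, hn0, fun i hi1 hi2 => ?_⟩
  rw [hdeg'] at hi2
  exact ⟨fun v hv => hvF v hv i hi1 (by omega), hsF i hi1 (by omega)⟩

/-- The trace of a natural number. -/
noncomputable def tv (a : ℕ) : ℝ := (a : ℝ) / 16777216 - 2

lemma tv_lt {a b : ℕ} (h : a < b) : tv a < tv b := by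
  unfold tv
  have : (a : ℝ) < b := by exact_mod_cast h
  linarith

lemma tv_le {a b : ℕ} (h : a ≤ b) : tv a ≤ tv b := by
  unfold tv
  have : (a : ℝ) ≤ b := by exact_mod_cast h
  linarith

lemma tv_bot (a : ℕ) : -2 ≤ tv a := by
  unfold tv
  have : (0 : ℝ) ≤ a := by positivity
  linarith

lemma tv_top {a : ℕ} (h : a ≤ 67108864) : tv a ≤ 2 := by
  unfold tv
  have : (a : ℝ) ≤ 67108864 := by exact_mod_cast h
  linarith

lemma pt2_eq (a b : ℕ) (ha : a ≤ 67108864) (hb : b ≤ 67108864) :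
    pt2' (cX a b) (cY a b) 281474976710656 = ![-(tv a + tv b), 2 + tv a * tv b] := by
  have h1 : cX a b = 16777216 * (134217728 - (a + b)) := rfl
  have h2 : cY a b = (2251799813685248 + a * b) - 33554432 * (a + b) := rfl
  have hle1 : a + b ≤ 134217728 := by omega
  have hle2 : 33554432 * (a + b) ≤ 2251799813685248 + a * b := by
    have g1 : (0 : ℤ) ≤ (67108864 - a) * (67108864 - b) := mul_nonneg (by omega) (by omega)
    have g2 : (0 : ℤ) ≤ (a : ℤ) * b := by positivity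
    have g3 : (33554432 : ℤ) * (a + b) ≤ 2251799813685248 + a * b := by nlinarith
    exact_mod_cast g3
  have e1 : ((cX a b : ℕ) : ℝ) = 16777216 * (134217728 - ((a : ℝ) + b)) := by
    rw [h1, Nat.cast_mul, Nat.cast_sub hle1]
    push_cast
    ring
  have e2 : ((cY a b : ℕ) : ℝ) = (2251799813685248 + (a : ℝ) * b) - 33554432 * (a + b) := by
    rw [h2, Nat.cast_sub hle2]
    push_cast
    ring
  unfold pt2' tv
  rw [e1, e2]
  funext j
  fin_cases j
  · simp only [Fin.zero_eta, Matrix.cons_val_zero]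
    push_cast
    ring
  · simp only [Fin.mk_one, Matrix.cons_val_one, Matrix.cons_val_fin_one]
    push_cast
    ring

/-- Soundness of the box test. -/
lemma box_sound (a1 b1 a2 b2 L : ℕ) (ha1 : a1 < b1) (ha2 : a2 < b2) (hb2 : b2 ≤ 67108864)
    (h : boxOK a1 b1 a2 b2 L = true) (x y : ℝ) (hx1 : tv a1 < x) (hx2 : x < tv b1) (hy1 : tv a2 < y)
    (hy2 : y < tv b2) : x < y ∧ ee ![x, y] ∈ Reg 2 := by
  have e : boxOK a1 b1 a2 b2 L =
    and (Nat.ble b1 a2) (Option.rec (motive := fun _ => Bool) false (fun _ => true) (boxRun a1 b1 a2 b2 L)) := rfl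
  rw [e, Bool.and_eq_true] at h
  obtain ⟨h1, h2⟩ := h
  have hba : b1 ≤ a2 := Nat.le_of_ble_eq_true h1
  obtain ⟨acc, hacc⟩ : ∃ acc, boxRun a1 b1 a2 b2 L = some acc := by
    cases hr : boxRun a1 b1 a2 b2 L with
    | none =>
      rw [hr] at h2
      cases h2
    | some acc => exact ⟨acc, rfl⟩
  have hxy : x < y := by
    have := tv_le hba
    linarith
  refine ⟨hxy, ?_⟩
  unfold boxRun at hacc
  set m1 := Nat.div (Nat.add a1 b1) 2 with hm1
  set m2 := Nat.div (Nat.add a2 b2) 2 with hm2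
  have hm1' : m1 = (a1 + b1) / 2 := rfl
  have hm2' : m2 = (a2 + b2) / 2 := rfl
  have hcC : ∀ a b, cC a b = 256 * cX a b + 128 * cY a b := fun a b => rfl
  rw [hcC m1 m2] at hacc
  have hmem : ∀ v ∈ (cV a1 a2 (cV a1 b2 (cV b1 a2 (cV b1 b2 VL.nil)))).toL,
      ∃ a b, (a = a1 ∨ a = b1) ∧ (b = a2 ∨ b = b2) ∧ v = (cX a b, cY a b, 281474976710656, cC a b) := by
    intro v hv
    simp only [cV, VL.toL, List.mem_cons, List.not_mem_nil, or_false] at hv
    rcases hv with rfl | rfl | rfl | rfl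
    · exact ⟨a1, a2, Or.inl rfl, Or.inl rfl, rfl⟩
    · exact ⟨a1, b2, Or.inl rfl, Or.inr rfl, rfl⟩
    · exact ⟨b1, a2, Or.inr rfl, Or.inl rfl, rfl⟩
    · exact ⟨b1, b2, Or.inr rfl, Or.inr rfl, rfl⟩
  have hmem' : ∀ a b, (a = a1 ∨ a = b1) → (b = a2 ∨ b = b2) →
      (cX a b, cY a b, 281474976710656, cC a b) ∈ (cV a1 a2 (cV a1 b2 (cV b1 a2 (cV b1 b2 VL.nil)))).toL := by
    intro a b ha hb
    simp only [cV, VL.toL, List.mem_cons, List.not_mem_nil, or_false]
    rcases ha with rfl | rfl <;> rcases hb with rfl | rfl <;> simp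
  obtain ⟨n, hn, hn0, hall⟩ := run_code (cX m1 m2) (cY m1 m2) 281474976710656 (by norm_num)
    (cV a1 a2 (cV a1 b2 (cV b1 a2 (cV b1 b2 VL.nil)))) _ (hmem' a1 a2 (Or.inl rfl) (Or.inl rfl)) (by
      intro v hv
      obtain ⟨a, b, _, _, rfl⟩ := hmem v hv
      exact ⟨by norm_num, rfl⟩) L acc hacc
  refine ⟨⟨![x, y], ?_, ?_, rfl⟩, n, ?_⟩
  · intro i j hij
    fin_cases i <;> fin_cases j
    · rfl
    · exact absurd hij hxy.ne
    · exact absurd hij hxy.ne'
    · rfl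
  · have l1 := tv_bot a1
    have l2 := tv_bot a2
    have l3 := tv_top (a := b2) hb2
    have l4 := tv_top (a := b1) (by omega)
    intro j
    fin_cases j
    · exact abs_lt.2 ⟨by simp; linarith, by simp; linarith⟩
    · exact abs_lt.2 ⟨by simp; linarith, by simp; linarith⟩
  · rw [ee_two]
    refine code_of_box n hn hn0 (tv a1) (tv b1) (tv a2) (tv b2) ?_ ?_ x y hx1 hx2 hy1 hy2
    · intro i hi1 hi2 s t hs ht
      obtain ⟨a, ha, rfl⟩ : ∃ a, (a = a1 ∨ a = b1) ∧ s = tv a := by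
        rcases hs with rfl | rfl
        · exact ⟨a1, Or.inl rfl, rfl⟩
        · exact ⟨b1, Or.inr rfl, rfl⟩
      obtain ⟨b, hb, rfl⟩ : ∃ b, (b = a2 ∨ b = b2) ∧ t = tv b := by
        rcases ht with rfl | rfl
        · exact ⟨a2, Or.inl rfl, rfl⟩
        · exact ⟨b2, Or.inr rfl, rfl⟩
      have h3 := (hall i hi1 hi2).1 _ (hmem' a b ha hb)
      simp only at h3
      rw [pt2_eq a b (by omega) (by omega)] at h3
      exact h3
    · intro i hi1 hi2
      exact ⟨_, _, (hall i hi1 hi2).2⟩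

end Pool.Agent.Helper64.SPW
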