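import Pool.Agent.Helper64.SPW.Tree3
import Pool.Agent.Helper64.SPW.Box3
import Pool.Agent.Helper64.SPW.Arc
import Pool.Agent.Helper64.SPW.Meas
import Pool.Agent.Helper11.SP.Run3
import Pool.Agent.Helper11.SP.CodeList

/-!
Soundness of the checker for boxes of three traces.
-/

open MeasureTheory Polynomial

namespace Pool.Agent.Helper64.SPW

open Pool.Agent.Helper11.SP

/-- The point of a vertex. -/
noncomputable def pt3' (X Y Z D : ℕ) : Fin 3 → ℝ := ![(X : ℝ) / D - 6, (Y : ℝ) / D - 1, (Z : ℝ) / D - 20]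

/-- The main identity. -/
lemma key_id3' (l : List ℕ) (i : ℕ) (hi : i < l.length) (X Y Z D : ℕ) (hD : 0 < D) :
    (D : ℝ) * Fc (pt3' X Y Z D) (pol l) i =
      (LL3 l i X Y Z D : ℝ) - RR3 l i D (256 * X + 256 * Y + 128 * Z) := by
  have hD' : (D : ℝ) ≠ 0 := by exact_mod_cast hD.ne'
  have hpv : ∀ j, 0 < j → (if j ≤ i then (((pol l).coeff (i - j) : ℤ) : ℝ) else 0) = (pv l i j : ℝ) - 128 := by
    intro j hj
    unfold pv
    split_ifs with h
    · rw [pol_coeff, if_pos (by omega)]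
      push_cast
      ring
    · norm_num
  have h0 : (((pol l).coeff i : ℤ) : ℝ) = (pv l i 0 : ℝ) - 128 := by
    unfold pv
    rw [if_pos (Nat.zero_le i), pol_coeff, if_pos hi, Nat.sub_zero]
    push_cast
    ring
  have hm : ∀ (j : ℕ) (r : ℝ), (if j ≤ i then r * (((pol l).coeff (i - j) : ℤ) : ℝ) else 0) =
      r * (if j ≤ i then (((pol l).coeff (i - j) : ℤ) : ℝ) else 0) := by
    intro j r
    split_ifs <;> simp
  have e : Fc (pt3' X Y Z D) (pol l) i = ((pv l i 0 : ℝ) - 128) + ((X : ℝ) / D - 6) * ((pv l i 1 : ℝ) - 128)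
      + ((Y : ℝ) / D - 1) * ((pv l i 2 : ℝ) - 128) + ((Z : ℝ) / D - 20) * ((pv l i 3 : ℝ) - 128)
      + ((Y : ℝ) / D - 1) * ((pv l i 4 : ℝ) - 128) + ((X : ℝ) / D - 6) * ((pv l i 5 : ℝ) - 128)
      + ((pv l i 6 : ℝ) - 128) := by
    unfold pt3'
    rw [Fc_three, hm, hm, hm, hm, hm, hpv 1 (by norm_num), hpv 2 (by norm_num), hpv 3 (by norm_num),
      hpv 4 (by norm_num), hpv 5 (by norm_num), hpv 6 (by norm_num), h0]
  rw [e]
  unfold LL3 RR3
  push_cast
  field_simp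
  ring

/-- What a successful run proves. -/
lemma run_code3 (sX sY sZ sD : ℕ) (hsD : 0 < sD) (t : T3) (v0 : ℕ × ℕ × ℕ × ℕ × ℕ) (hv0 : v0 ∈ t.toL)
    (hV : ∀ v ∈ t.toL, 1 ≤ v.2.2.2.1 ∧ v.2.2.2.2 = 256 * v.1 + 256 * v.2.1 + 128 * v.2.2.1) (L : ℕ) (acc : List ℕ)
    (hrun : run3 sX sY sZ sD (256 * sX + 256 * sY + 128 * sZ) t L 129 128 128 128 128 128 [129] = some acc) :
    ∃ n : ℤ[X], n.Monic ∧ n.coeff 0 = 1 ∧
      ∀ i, 1 ≤ i → i < n.natDegree + 6 →
        (∀ v ∈ t.toL, 0 ≤ Fc (pt3' v.1 v.2.1 v.2.2.1 v.2.2.2.1) n i ∧ Fc (pt3' v.1 v.2.1 v.2.2.1 v.2.2.2.1) n i ≤ 1) ∧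
        0 < Fc (pt3' sX sY sZ sD) n i := by
  obtain ⟨hlen, hL6, hl0, hlz, hstep⟩ := run3_sound _ _ _ _ _ hsD _ _ _ hrun
  set l := acc.reverse with hl
  have hvF : ∀ v ∈ t.toL, ∀ i, 1 ≤ i → i ≤ L →
      0 ≤ Fc (pt3' v.1 v.2.1 v.2.2.1 v.2.2.2.1) (pol l) i ∧
        Fc (pt3' v.1 v.2.1 v.2.2.1 v.2.2.2.1) (pol l) i ≤ 1 := by
    intro v hv i hi1 hiL
    obtain ⟨hDv, hw⟩ := hV v hv
    obtain ⟨h1, h2⟩ := (hstep i hi1 hiL).2 v hv
    rw [hw] at h1 h2
    have hD' : (0 : ℝ) < v.2.2.2.1 := by exact_mod_cast hDv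
    have hk := key_id3' l i (by omega) v.1 v.2.1 v.2.2.1 v.2.2.2.1 hDv
    have h1' : (RR3 l i v.2.2.2.1 (256 * v.1 + 256 * v.2.1 + 128 * v.2.2.1) : ℝ) ≤
        LL3 l i v.1 v.2.1 v.2.2.1 v.2.2.2.1 := by
      exact_mod_cast h1
    have h2' : (LL3 l i v.1 v.2.1 v.2.2.1 v.2.2.2.1 : ℝ) ≤
        (RR3 l i v.2.2.2.1 (256 * v.1 + 256 * v.2.1 + 128 * v.2.2.1) : ℝ) + v.2.2.2.1 := by
      exact_mod_cast h2
    constructor
    · by_contra hcon
      have := mul_neg_of_pos_of_neg hD' (not_le.1 hcon)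
      linarith
    · by_contra hcon
      have := mul_lt_mul_of_pos_left (not_le.1 hcon) hD'
      linarith
  have hsF : ∀ i, 1 ≤ i → i ≤ L → 0 < Fc (pt3' sX sY sZ sD) (pol l) i := by
    intro i hi1 hiL
    have h1 := (hstep i hi1 hiL).1
    have hD' : (0 : ℝ) < sD := by exact_mod_cast hsD
    have hk := key_id3' l i (by omega) sX sY sZ sD hsD
    have h1' : (RR3 l i sD (256 * sX + 256 * sY + 128 * sZ) : ℝ) < LL3 l i sX sY sZ sD := by
      exact_mod_cast h1
    by_contra hcon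
    have := mul_nonpos_of_nonneg_of_nonpos hD'.le (not_lt.1 hcon)
    linarith
  have hz : ∀ k, L < k + 6 → (pol l).coeff k = 0 := by
    intro k hk
    by_cases hk2 : k ≤ L
    · rw [pol_coeff, if_pos (by omega), hlz k hk2 hk]
      norm_num
    · exact getD_of_len' l k (by omega)
  have hFL : ∀ X Y Z D : ℕ, Fc (pt3' X Y Z D) (pol l) L = (((pol l).coeff (L - 6) : ℤ) : ℝ) := by
    intro X Y Z D
    unfold pt3'
    rw [Fc_three, hz L (by omega), hz (L - 1) (by omega), hz (L - 2) (by omega), hz (L - 3) (by omega),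
      hz (L - 4) (by omega), hz (L - 5) (by omega), if_pos hL6]
    simp
  have hone : (pol l).coeff (L - 6) = 1 := by
    have h1 := hsF L (by omega) le_rfl
    have h2 := (hvF v0 hv0 L (by omega) le_rfl).2
    rw [hFL] at h1 h2
    have h1' : 0 < (pol l).coeff (L - 6) := by exact_mod_cast h1
    have h2' : (pol l).coeff (L - 6) ≤ 1 := by exact_mod_cast h2
    omega
  have hdeg : (pol l).natDegree ≤ L - 6 := by
    rw [Polynomial.natDegree_le_iff_coeff_eq_zero]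
    intro k hk
    exact hz k (by omega)
  have hmonic : (pol l).Monic := Polynomial.monic_of_natDegree_le_of_coeff_eq_one _ hdeg hone
  have hdeg' : (pol l).natDegree = L - 6 :=
    Polynomial.natDegree_eq_of_le_of_coeff_ne_zero hdeg (by rw [hone]; norm_num)
  have hn0 : (pol l).coeff 0 = 1 := by
    rw [pol_coeff, if_pos (by omega), hl0]
    norm_num
  refine ⟨pol l, hmonic, hn0, fun i hi1 hi2 => ?_⟩
  rw [hdeg'] at hi2
  exact ⟨fun v hv => hvF v hv i hi1 (by omega), hsF i hi1 (by omega)⟩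

/-- The trace of a natural number (unit `2^-16`). -/
noncomputable def tw (a : ℕ) : ℝ := (a : ℝ) / 65536 - 2

lemma tw_tv (a : ℕ) : tw a = tv (256 * a) := by
  unfold tw tv
  push_cast
  ring

lemma tw_lt {a b : ℕ} (h : a < b) : tw a < tw b := by
  unfold tw
  have : (a : ℝ) < b := by exact_mod_cast h
  linarith

lemma tw_le {a b : ℕ} (h : a ≤ b) : tw a ≤ tw b := by
  unfold tw
  have : (a : ℝ) ≤ b := by exact_mod_cast h
  linarith

lemma tw_bot (a : ℕ) : -2 ≤ tw a := by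
  unfold tw
  have : (0 : ℝ) ≤ a := by positivity
  linarith

lemma tw_top {a : ℕ} (h : a ≤ 262144) : tw a ≤ 2 := by
  unfold tw
  have : (a : ℝ) ≤ 262144 := by exact_mod_cast h
  linarith

lemma pt3_eq (a b c : ℕ) (ha : a ≤ 262144) (hb : b ≤ 262144) (hc : c ≤ 262144) :
    pt3' (dX a b c) (dY a b c) (dZ a b c) 281474976710656 = ee ![tw a, tw b, tw c] := by
  have h1 : dX a b c = 4294967296 * (786432 - (a + b + c)) := rfl
  have h2 : dY a b c = (4503599627370496 + 65536 * (a * b + a * c + b * c)) - 17179869184 * (a + b + c) := rfl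
  have h3 : dZ a b c = (11258999068426240 + 131072 * (a * b + a * c + b * c)) - (25769803776 * (a + b + c) + a * b * c) := rfl
  have ra : (a : ℝ) ≤ 262144 := by exact_mod_cast ha
  have rb : (b : ℝ) ≤ 262144 := by exact_mod_cast hb
  have rc : (c : ℝ) ≤ 262144 := by exact_mod_cast hc
  have ra0 : (0 : ℝ) ≤ a := by positivity
  have rb0 : (0 : ℝ) ≤ b := by positivity
  have rc0 : (0 : ℝ) ≤ c := by positivity
  have hle1 : a + b + c ≤ 786432 := by omega
  have hle2 : 17179869184 * (a + b + c) ≤ 4503599627370496 + 65536 * (a * b + a * c + b * c) := by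
    have g : (17179869184 : ℝ) * (a + b + c) ≤ 4503599627370496 + 65536 * (a * b + a * c + b * c) := by
      have i1 : (0 : ℝ) ≤ (262144 - a) * ((262144 - b) * (262144 - c)) :=
        mul_nonneg (by linarith) (mul_nonneg (by linarith) (by linarith))
      have i2 : (0 : ℝ) ≤ a * (b * c) := mul_nonneg ra0 (mul_nonneg rb0 rc0)
      nlinarith
    exact_mod_cast g
  have hle3 : 25769803776 * (a + b + c) + a * b * c ≤ 11258999068426240 + 131072 * (a * b + a * c + b * c) := by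
    have g : (25769803776 : ℝ) * (a + b + c) + a * b * c ≤ 11258999068426240 + 131072 * (a * b + a * c + b * c) := by
      have xa : (0 : ℝ) ≤ 262144 - a := by linarith
      have xb : (0 : ℝ) ≤ 262144 - b := by linarith
      have xc : (0 : ℝ) ≤ 262144 - c := by linarith
      have q0 : (0 : ℝ) ≤ (262144 - a) * ((262144 - b) * (262144 - c)) := mul_nonneg xa (mul_nonneg xb xc)
      have q1 : (0 : ℝ) ≤ a * ((262144 - b) * (262144 - c)) := mul_nonneg ra0 (mul_nonneg xb xc)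
      have q2 : (0 : ℝ) ≤ (262144 - a) * (b * (262144 - c)) := mul_nonneg xa (mul_nonneg rb0 xc)
      have q3 : (0 : ℝ) ≤ (262144 - a) * ((262144 - b) * c) := mul_nonneg xa (mul_nonneg xb rc0)
      have q4 : (0 : ℝ) ≤ a * (b * (262144 - c)) := mul_nonneg ra0 (mul_nonneg rb0 xc)
      have q5 : (0 : ℝ) ≤ a * ((262144 - b) * c) := mul_nonneg ra0 (mul_nonneg xb rc0)
      have q6 : (0 : ℝ) ≤ (262144 - a) * (b * c) := mul_nonneg xa (mul_nonneg rb0 rc0)
      linarith [q0, q1, q2, q3, q4, q5, q6]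
    exact_mod_cast g
  have e1 : ((dX a b c : ℕ) : ℝ) = 4294967296 * (786432 - ((a : ℝ) + b + c)) := by
    rw [h1, Nat.cast_mul, Nat.cast_sub hle1]
    push_cast
    ring
  have e2 : ((dY a b c : ℕ) : ℝ) = (4503599627370496 + 65536 * ((a : ℝ) * b + a * c + b * c)) -
      17179869184 * ((a : ℝ) + b + c) := by
    rw [h2, Nat.cast_sub hle2]
    push_cast
    ring
  have e3 : ((dZ a b c : ℕ) : ℝ) = (11258999068426240 + 131072 * ((a : ℝ) * b + a * c + b * c)) -
      (25769803776 * ((a : ℝ) + b + c) + a * b * c) := by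
    rw [h3, Nat.cast_sub hle3]
    push_cast
    ring
  rw [ee_three]
  unfold pt3' tw
  rw [e1, e2, e3]
  funext j
  fin_cases j
  · simp only [Fin.zero_eta, Matrix.cons_val_zero]
    push_cast
    ring
  · simp only [Fin.mk_one, Matrix.cons_val_one]
    push_cast
    ring
  · simp only [Fin.reduceFinMk, Matrix.cons_val]
    push_cast
    ring

/-- Soundness of the box test. -/
lemma box3_sound (a1 b1 a2 b2 a3 b3 L : ℕ) (ha1 : a1 < b1) (ha2 : a2 < b2) (ha3 : a3 < b3) (hb3 : b3 ≤ 262144)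
    (h : boxOK3 a1 b1 a2 b2 a3 b3 L = true) (x y z : ℝ) (hx1 : tw a1 < x) (hx2 : x < tw b1) (hy1 : tw a2 < y)
    (hy2 : y < tw b2) (hz1 : tw a3 < z) (hz2 : z < tw b3) : x < y ∧ y < z ∧ ee ![x, y, z] ∈ Reg 3 := by
  have e : boxOK3 a1 b1 a2 b2 a3 b3 L = and (and (Nat.ble b1 a2) (Nat.ble b2 a3))
    (Option.rec (motive := fun _ => Bool) false (fun _ => true) (boxRun3 a1 b1 a2 b2 a3 b3 L)) := rfl
  rw [e, Bool.and_eq_true, Bool.and_eq_true] at h
  obtain ⟨⟨h1, h1'⟩, h2⟩ := h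
  have hba : b1 ≤ a2 := Nat.le_of_ble_eq_true h1
  have hbb : b2 ≤ a3 := Nat.le_of_ble_eq_true h1'
  obtain ⟨acc, hacc⟩ : ∃ acc, boxRun3 a1 b1 a2 b2 a3 b3 L = some acc := by
    cases hr : boxRun3 a1 b1 a2 b2 a3 b3 L with
    | none =>
      rw [hr] at h2
      cases h2
    | some acc => exact ⟨acc, rfl⟩
  have hxy : x < y := by
    have := tw_le hba
    linarith
  have hyz : y < z := by
    have := tw_le hbb
    linarith
  refine ⟨hxy, hyz, ?_⟩
  unfold boxRun3 at hacc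
  set m1 := mid a1 b1 with hm1
  set m2 := mid a2 b2 with hm2
  set m3 := mid a3 b3 with hm3
  have hdW : ∀ a b c, dW a b c = 256 * dX a b c + 256 * dY a b c + 128 * dZ a b c := fun a b c => rfl
  rw [hdW m1 m2 m3] at hacc
  have hmem : ∀ v ∈ (T3.leaf 0 0 0 0 (corners a1 b1 a2 b2 a3 b3) IL3.nil).toL,
      ∃ a b c, (a = a1 ∨ a = b1) ∧ (b = a2 ∨ b = b2) ∧ (c = a3 ∨ c = b3) ∧
        v = (dX a b c, dY a b c, dZ a b c, 281474976710656, dW a b c) := by
    intro v hv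
    simp only [T3.toL, corners, dV, VL3.toL, List.mem_cons, List.not_mem_nil, or_false] at hv
    rcases hv with rfl | rfl | rfl | rfl | rfl | rfl | rfl | rfl
    · exact ⟨a1, a2, a3, Or.inl rfl, Or.inl rfl, Or.inl rfl, rfl⟩
    · exact ⟨a1, a2, b3, Or.inl rfl, Or.inl rfl, Or.inr rfl, rfl⟩
    · exact ⟨a1, b2, a3, Or.inl rfl, Or.inr rfl, Or.inl rfl, rfl⟩
    · exact ⟨a1, b2, b3, Or.inl rfl, Or.inr rfl, Or.inr rfl, rfl⟩
    · exact ⟨b1, a2, a3, Or.inr rfl, Or.inl rfl, Or.inl rfl, rfl⟩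
    · exact ⟨b1, a2, b3, Or.inr rfl, Or.inl rfl, Or.inr rfl, rfl⟩
    · exact ⟨b1, b2, a3, Or.inr rfl, Or.inr rfl, Or.inl rfl, rfl⟩
    · exact ⟨b1, b2, b3, Or.inr rfl, Or.inr rfl, Or.inr rfl, rfl⟩
  have hmem' : ∀ a b c, (a = a1 ∨ a = b1) → (b = a2 ∨ b = b2) → (c = a3 ∨ c = b3) →
      (dX a b c, dY a b c, dZ a b c, 281474976710656, dW a b c) ∈
        (T3.leaf 0 0 0 0 (corners a1 b1 a2 b2 a3 b3) IL3.nil).toL := by
    intro a b c ha hb hc
    simp only [T3.toL, corners, dV, VL3.toL, List.mem_cons, List.not_mem_nil, or_false]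
    rcases ha with rfl | rfl <;> rcases hb with rfl | rfl <;> rcases hc with rfl | rfl <;> simp
  obtain ⟨n, hn, hn0, hall⟩ := run_code3 (dX m1 m2 m3) (dY m1 m2 m3) (dZ m1 m2 m3) 281474976710656 (by norm_num)
    (T3.leaf 0 0 0 0 (corners a1 b1 a2 b2 a3 b3) IL3.nil) _
    (hmem' a1 a2 a3 (Or.inl rfl) (Or.inl rfl) (Or.inl rfl)) (by
      intro v hv
      obtain ⟨a, b, c, _, _, _, rfl⟩ := hmem v hv
      exact ⟨by norm_num, rfl⟩) L acc hacc
  refine ⟨⟨![x, y, z], ?_, ?_, rfl⟩, n, ?_⟩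
  · intro i j hij
    fin_cases i <;> fin_cases j
    · rfl
    · exact absurd hij hxy.ne
    · exact absurd hij (hxy.trans hyz).ne
    · exact absurd hij hxy.ne'
    · rfl
    · exact absurd hij hyz.ne
    · exact absurd hij (hxy.trans hyz).ne'
    · exact absurd hij hyz.ne'
    · rfl
  · have l1 := tw_bot a1
    have l2 := tw_bot a2
    have l3 := tw_bot a3
    have r1 := tw_top (a := b1) (by omega)
    have r2 := tw_top (a := b2) (by omega)
    have r3 := tw_top (a := b3) hb3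
    intro j
    fin_cases j
    · exact abs_lt.2 ⟨by show -2 < x; linarith, by show x < 2; linarith⟩
    · exact abs_lt.2 ⟨by show -2 < y; linarith, by show y < 2; linarith⟩
    · exact abs_lt.2 ⟨by show -2 < z; linarith, by show z < 2; linarith⟩
  · refine code_of_box3 n hn hn0 (tw a1) (tw b1) (tw a2) (tw b2) (tw a3) (tw b3) ?_ ?_ x y z hx1 hx2 hy1 hy2 hz1 hz2
    · intro i hi1 hi2 s t r hs ht hr
      obtain ⟨a, ha, rfl⟩ : ∃ a, (a = a1 ∨ a = b1) ∧ s = tw a := by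
        rcases hs with rfl | rfl
        · exact ⟨a1, Or.inl rfl, rfl⟩
        · exact ⟨b1, Or.inr rfl, rfl⟩
      obtain ⟨b, hb, rfl⟩ : ∃ b, (b = a2 ∨ b = b2) ∧ t = tw b := by
        rcases ht with rfl | rfl
        · exact ⟨a2, Or.inl rfl, rfl⟩
        · exact ⟨b2, Or.inr rfl, rfl⟩
      obtain ⟨c, hc, rfl⟩ : ∃ c, (c = a3 ∨ c = b3) ∧ r = tw c := by
        rcases hr with rfl | rfl
        · exact ⟨a3, Or.inl rfl, rfl⟩
        · exact ⟨b3, Or.inr rfl, rfl⟩
      have h3 := (hall i hi1 hi2).1 _ (hmem' a b c ha hb hc)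
      simp only at h3
      rw [pt3_eq a b c (by omega) (by omega) (by omega)] at h3
      exact h3
    · intro i hi1 hi2
      exact ⟨_, _, _, (hall i hi1 hi2).2⟩

end Pool.Agent.Helper64.SPW
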