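import Pool.Agent.Helper64.SPW.B01
import Pool.Agent.Helper64.SPW.B02
import Pool.Agent.Helper64.SPW.B03
import Pool.Agent.Helper64.SPW.B04
import Pool.Agent.Helper64.SPW.B05
import Pool.Agent.Helper64.SPW.B06
import Pool.Agent.Helper64.SPW.B07
import Pool.Agent.Helper64.SPW.B08
import Pool.Agent.Helper64.SPW.B09
import Pool.Agent.Helper64.SPW.B10
import Pool.Agent.Helper64.SPW.B11
import Pool.Agent.Helper64.SPW.B12
import Pool.Agent.Helper64.SPW.B13
import Pool.Agent.Helper64.SPW.B14

/-! Assembly of the boxes.  All sums are formed with `ev_a_eq`, `ev_b_eq`, so that nothing is evaluated again. -/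

set_option maxRecDepth 100000

namespace Pool.Agent.Helper64.SPW.Dat

lemma ev_a_eq (x y : QT) (lo hi w : ℕ) (l r q : T1) (n m k : ℕ) (h1 : ev x l q = n) (h2 : ev y r q = m) (h3 : n + m = k) :
    ev (QT.a x y) (T1.node lo hi w l r) q = k := by
  rw [ev_a, h1, h2, h3]

lemma ev_b_eq (x y : QT) (lo hi w : ℕ) (l r p : T1) (n m k : ℕ) (h1 : ev x p l = n) (h2 : ev y p r = m) (h3 : n + m = k) :
    ev (QT.b x y) p (T1.node lo hi w l r) = k := by
  rw [ev_b, h1, h2, h3]

lemma I7_23_def : I7_23 = .node 5205850 5654941 7812487 I8_46 I8_47 := rfl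

lemma I6_11_def : I6_11 = .node 4773836 5654941 15624955 I7_22 I7_23 := rfl

lemma I5_1_def : I5_1 = .node 161574 644739 31249910 I6_2 I6_3 := rfl

lemma I5_5_def : I5_5 = .node 3962065 5654941 31249922 I6_10 I6_11 := rfl

lemma I5_9_def : I5_9 = .node 12267726 14912588 31249923 I6_18 I6_19 := rfl

lemma I5_10_def : I5_10 = .node 14912588 17736982 31249930 I6_20 I6_21 := rfl

lemma I5_11_def : I5_11 = .node 17736982 20713707 31249941 I6_22 I6_23 := rfl

lemma I5_12_def : I5_12 = .node 20713707 23814095 31249933 I6_24 I6_25 := rfl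

lemma I5_15_def : I5_15 = .node 30265523 33554432 31249927 I6_30 I6_31 := rfl

lemma I5_16_def : I5_16 = .node 33554432 36843341 31249927 I6_32 I6_33 := rfl

lemma I5_17_def : I5_17 = .node 36843341 40100577 31249935 I6_34 I6_35 := rfl

lemma I5_20_def : I5_20 = .node 46395157 49371882 31249941 I6_40 I6_41 := rfl

lemma I5_21_def : I5_21 = .node 49371882 52196276 31249930 I6_42 I6_43 := rfl

lemma I5_22_def : I5_22 = .node 52196276 54841138 31249923 I6_44 I6_45 := rfl

lemma I5_23_def : I5_23 = .node 54841138 57280998 31249927 I6_46 I6_47 := rfl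

lemma I5_25_def : I5_25 = .node 59492359 61453923 31249936 I6_50 I6_51 := rfl

lemma I5_26_def : I5_26 = .node 61453923 63146799 31249922 I6_52 I6_53 := rfl

lemma I5_28_def : I5_28 = .node 64554685 65664021 31249920 I6_56 I6_57 := rfl

lemma I5_29_def : I5_29 = .node 65664021 66464125 31249946 I6_58 I6_59 := rfl

lemma I5_30_def : I5_30 = .node 66464125 66947290 31249910 I6_60 I6_61 := rfl

lemma I4_0_def : I4_0 = .node 0 644739 62499866 I5_0 I5_1 := rfl

lemma I4_1_def : I4_1 = .node 644739 2554179 62499866 I5_2 I5_3 := rfl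

lemma I4_2_def : I4_2 = .node 2554179 5654941 62499857 I5_4 I5_5 := rfl

lemma I4_3_def : I4_3 = .node 5654941 9827866 62499872 I5_6 I5_7 := rfl

lemma I4_4_def : I4_4 = .node 9827866 14912588 62499850 I5_8 I5_9 := rfl

lemma I4_5_def : I4_5 = .node 14912588 20713707 62499871 I5_10 I5_11 := rfl

lemma I4_6_def : I4_6 = .node 20713707 27008287 62499861 I5_12 I5_13 := rfl

lemma I4_7_def : I4_7 = .node 27008287 33554432 62499862 I5_14 I5_15 := rfl

lemma I4_8_def : I4_8 = .node 33554432 40100577 62499862 I5_16 I5_17 := rfl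

lemma I4_9_def : I4_9 = .node 40100577 46395157 62499861 I5_18 I5_19 := rfl

lemma I4_10_def : I4_10 = .node 46395157 52196276 62499871 I5_20 I5_21 := rfl

lemma I4_11_def : I4_11 = .node 52196276 57280998 62499850 I5_22 I5_23 := rfl

lemma I4_12_def : I4_12 = .node 57280998 61453923 62499872 I5_24 I5_25 := rfl

lemma I4_13_def : I4_13 = .node 61453923 64554685 62499857 I5_26 I5_27 := rfl

lemma I4_14_def : I4_14 = .node 64554685 66464125 62499866 I5_28 I5_29 := rfl

lemma I4_15_def : I4_15 = .node 66464125 67108864 62499866 I5_30 I5_31 := rfl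

lemma I3_0_def : I3_0 = .node 0 2554179 124999732 I4_0 I4_1 := rfl

lemma I3_1_def : I3_1 = .node 2554179 9827866 124999729 I4_2 I4_3 := rfl

lemma I3_2_def : I3_2 = .node 9827866 20713707 124999721 I4_4 I4_5 := rfl

lemma I3_3_def : I3_3 = .node 20713707 33554432 124999723 I4_6 I4_7 := rfl

lemma I3_4_def : I3_4 = .node 33554432 46395157 124999723 I4_8 I4_9 := rfl

lemma I3_5_def : I3_5 = .node 46395157 57280998 124999721 I4_10 I4_11 := rfl

lemma I3_6_def : I3_6 = .node 57280998 64554685 124999729 I4_12 I4_13 := rfl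

lemma I3_7_def : I3_7 = .node 64554685 67108864 124999732 I4_14 I4_15 := rfl

lemma I2_0_def : I2_0 = .node 0 9827866 249999461 I3_0 I3_1 := rfl

lemma I2_1_def : I2_1 = .node 9827866 33554432 249999444 I3_2 I3_3 := rfl

lemma I2_2_def : I2_2 = .node 33554432 57280998 249999444 I3_4 I3_5 := rfl

lemma I2_3_def : I2_3 = .node 57280998 67108864 249999461 I3_6 I3_7 := rfl

lemma I1_0_def : I1_0 = .node 0 33554432 499998905 I2_0 I2_1 := rfl

lemma I1_1_def : I1_1 = .node 33554432 67108864 499998905 I2_2 I2_3 := rfl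

lemma I0_0_def : I0_0 = .node 0 67108864 999997810 I1_0 I1_1 := rfl

noncomputable def M0 : QT := .a Q1 Q2

lemma M0_def : M0 = .a Q1 Q2 := rfl

lemma vM0 : ev M0 I3_0 I5_4 = 696656116204717 := by
  rw [M0_def]
  rw [I3_0_def]
  exact ev_a_eq _ _ _ _ _ _ _ _ 438211603752167 258444512452550 696656116204717 vQ1 vQ2 (by norm_num)

noncomputable def M1 : QT := .b Q5 Q6

lemma M1_def : M1 = .b Q5 Q6 := rfl

lemma vM1 : ev M1 I3_0 I7_23 = 475881979495085 := by
  rw [M1_def]
  rw [I7_23_def]
  exact ev_b_eq _ _ _ _ _ _ _ _ 226020126954501 249861852540584 475881979495085 vQ5 vQ6 (by norm_num)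

noncomputable def M2 : QT := .b Q4 M1

lemma M2_def : M2 = .b Q4 M1 := rfl

lemma vM2 : ev M2 I3_0 I6_11 = 654694927493192 := by
  rw [M2_def]
  rw [I6_11_def]
  exact ev_b_eq _ _ _ _ _ _ _ _ 178812947998107 475881979495085 654694927493192 vQ4 vM1 (by norm_num)

noncomputable def M3 : QT := .b Q3 M2

lemma M3_def : M3 = .b Q3 M2 := rfl

lemma vM3 : ev M3 I3_0 I5_5 = 813481097903326 := by
  rw [M3_def]
  rw [I5_5_def]
  exact ev_b_eq _ _ _ _ _ _ _ _ 158786170410134 654694927493192 813481097903326 vQ3 vM2 (by norm_num)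

noncomputable def M4 : QT := .b M0 M3

lemma M4_def : M4 = .b M0 M3 := rfl

lemma vM4 : ev M4 I3_0 I4_2 = 1510137214108043 := by
  rw [M4_def]
  rw [I4_2_def]
  exact ev_b_eq _ _ _ _ _ _ _ _ 696656116204717 813481097903326 1510137214108043 vM0 vM3 (by norm_num)

noncomputable def M5 : QT := .b Q7 Q8

lemma M5_def : M5 = .b Q7 Q8 := rfl

lemma vM5 : ev M5 I4_0 I4_3 = 2350082897837096 := by
  rw [M5_def]
  rw [I4_3_def]
  exact ev_b_eq _ _ _ _ _ _ _ _ 1222605570560575 1127477327276521 2350082897837096 vQ7 vQ8 (by norm_num)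

noncomputable def M6 : QT := .b Q9 Q10

lemma M6_def : M6 = .b Q9 Q10 := rfl

lemma vM6 : ev M6 I4_1 I4_3 = 849244086915723 := by
  rw [M6_def]
  rw [I4_3_def]
  exact ev_b_eq _ _ _ _ _ _ _ _ 543592340089444 305651746826279 849244086915723 vQ9 vQ10 (by norm_num)

noncomputable def M7 : QT := .a M5 M6

lemma M7_def : M7 = .a M5 M6 := rfl

lemma vM7 : ev M7 I3_0 I4_3 = 3199326984752819 := by
  rw [M7_def]
  rw [I3_0_def]
  exact ev_a_eq _ _ _ _ _ _ _ _ 2350082897837096 849244086915723 3199326984752819 vM5 vM6 (by norm_num)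

noncomputable def M8 : QT := .b M4 M7

lemma M8_def : M8 = .b M4 M7 := rfl

lemma vM8 : ev M8 I3_0 I3_1 = 4709464198860862 := by
  rw [M8_def]
  rw [I3_1_def]
  exact ev_b_eq _ _ _ _ _ _ _ _ 1510137214108043 3199326984752819 4709464198860862 vM4 vM7 (by norm_num)

noncomputable def M9 : QT := .b Q0 M8

lemma M9_def : M9 = .b Q0 M8 := rfl

lemma vM9 : ev M9 I3_0 I2_0 = 4711848399788607 := by
  rw [M9_def]
  rw [I2_0_def]
  exact ev_b_eq _ _ _ _ _ _ _ _ 2384200927745 4709464198860862 4711848399788607 vQ0 vM8 (by norm_num)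

noncomputable def M10 : QT := .a Q12 Q13

lemma M10_def : M10 = .a Q12 Q13 := rfl

lemma vM10 : ev M10 I4_1 I5_8 = 865217343143165 := by
  rw [M10_def]
  rw [I4_1_def]
  exact ev_a_eq _ _ _ _ _ _ _ _ 208377180420328 656840162722837 865217343143165 vQ12 vQ13 (by norm_num)

noncomputable def M11 : QT := .a Q11 M10

lemma M11_def : M11 = .a Q11 M10 := rfl

lemma vM11 : ev M11 I3_0 I5_8 = 2762543919568523 := by
  rw [M11_def]
  rw [I3_0_def]
  exact ev_a_eq _ _ _ _ _ _ _ _ 1897326576425358 865217343143165 2762543919568523 vQ11 vM10 (by norm_num)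

noncomputable def M12 : QT := .b Q14 Q15

lemma M12_def : M12 = .b Q14 Q15 := rfl

lemma vM12 : ev M12 I3_0 I5_9 = 2784954389055565 := by
  rw [M12_def]
  rw [I5_9_def]
  exact ev_b_eq _ _ _ _ _ _ _ _ 1341813029062497 1443141359993068 2784954389055565 vQ14 vQ15 (by norm_num)

noncomputable def M13 : QT := .b M11 M12

lemma M13_def : M13 = .b M11 M12 := rfl

lemma vM13 : ev M13 I3_0 I4_4 = 5547498308624088 := by
  rw [M13_def]
  rw [I4_4_def]
  exact ev_b_eq _ _ _ _ _ _ _ _ 2762543919568523 2784954389055565 5547498308624088 vM11 vM12 (by norm_num)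

noncomputable def M14 : QT := .a Q16 Q17

lemma M14_def : M14 = .a Q16 Q17 := rfl

lemma vM14 : ev M14 I3_0 I6_20 = 1645557592294696 := by
  rw [M14_def]
  rw [I3_0_def]
  exact ev_a_eq _ _ _ _ _ _ _ _ 758882846562808 886674745731888 1645557592294696 vQ16 vQ17 (by norm_num)

noncomputable def M15 : QT := .b M14 Q18

lemma M15_def : M15 = .b M14 Q18 := rfl

lemma vM15 : ev M15 I3_0 I5_10 = 3313049765401717 := by
  rw [M15_def]
  rw [I5_10_def]
  exact ev_b_eq _ _ _ _ _ _ _ _ 1645557592294696 1667492173107021 3313049765401717 vM14 vQ18 (by norm_num)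

noncomputable def M16 : QT := .b M15 Q19

lemma M16_def : M16 = .b M15 Q19 := rfl

lemma vM16 : ev M16 I3_0 I4_5 = 6908029859104439 := by
  rw [M16_def]
  rw [I4_5_def]
  exact ev_b_eq _ _ _ _ _ _ _ _ 3313049765401717 3594980093702722 6908029859104439 vM15 vQ19 (by norm_num)

noncomputable def M17 : QT := .b M13 M16

lemma M17_def : M17 = .b M13 M16 := rfl

lemma vM17 : ev M17 I3_0 I3_2 = 12455528167728527 := by
  rw [M17_def]
  rw [I3_2_def]
  exact ev_b_eq _ _ _ _ _ _ _ _ 5547498308624088 6908029859104439 12455528167728527 vM13 vM16 (by norm_num)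

noncomputable def M18 : QT := .a Q22 Q23

lemma M18_def : M18 = .a Q22 Q23 := rfl

lemma vM18 : ev M18 I4_1 I5_13 = 1463406719002244 := by
  rw [M18_def]
  rw [I4_1_def]
  exact ev_a_eq _ _ _ _ _ _ _ _ 798222248050715 665184470951529 1463406719002244 vQ22 vQ23 (by norm_num)

noncomputable def M19 : QT := .a Q21 M18

lemma M19_def : M19 = .a Q21 M18 := rfl

lemma vM19 : ev M19 I3_0 I5_13 = 3302201801224632 := by
  rw [M19_def]
  rw [I3_0_def]
  exact ev_a_eq _ _ _ _ _ _ _ _ 1838795082222388 1463406719002244 3302201801224632 vQ21 vM18 (by norm_num)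

noncomputable def M20 : QT := .b Q20 M19

lemma M20_def : M20 = .b Q20 M19 := rfl

lemma vM20 : ev M20 I3_0 I4_6 = 7208435051242588 := by
  rw [M20_def]
  rw [I4_6_def]
  exact ev_b_eq _ _ _ _ _ _ _ _ 3906233250017956 3302201801224632 7208435051242588 vQ20 vM19 (by norm_num)

noncomputable def M21 : QT := .b Q25 Q26

lemma M21_def : M21 = .b Q25 Q26 := rfl

lemma vM21 : ev M21 I3_0 I5_15 = 3639443372941963 := by
  rw [M21_def]
  rw [I5_15_def]
  exact ev_b_eq _ _ _ _ _ _ _ _ 1759163130319103 1880280242622860 3639443372941963 vQ25 vQ26 (by norm_num)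

noncomputable def M22 : QT := .b Q24 M21

lemma M22_def : M22 = .b Q24 M21 := rfl

lemma vM22 : ev M22 I3_0 I4_7 = 7112710436678529 := by
  rw [M22_def]
  rw [I4_7_def]
  exact ev_b_eq _ _ _ _ _ _ _ _ 3473267063736566 3639443372941963 7112710436678529 vQ24 vM21 (by norm_num)

noncomputable def M23 : QT := .b M20 M22

lemma M23_def : M23 = .b M20 M22 := rfl

lemma vM23 : ev M23 I3_0 I3_3 = 14321145487921117 := by
  rw [M23_def]
  rw [I3_3_def]
  exact ev_b_eq _ _ _ _ _ _ _ _ 7208435051242588 7112710436678529 14321145487921117 vM20 vM22 (by norm_num)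

noncomputable def M24 : QT := .b M17 M23

lemma M24_def : M24 = .b M17 M23 := rfl

lemma vM24 : ev M24 I3_0 I2_1 = 26776673655649644 := by
  rw [M24_def]
  rw [I2_1_def]
  exact ev_b_eq _ _ _ _ _ _ _ _ 12455528167728527 14321145487921117 26776673655649644 vM17 vM23 (by norm_num)

noncomputable def M25 : QT := .b M9 M24

lemma M25_def : M25 = .b M9 M24 := rfl

lemma vM25 : ev M25 I3_0 I1_0 = 31488522055438251 := by
  rw [M25_def]
  rw [I1_0_def]
  exact ev_b_eq _ _ _ _ _ _ _ _ 4711848399788607 26776673655649644 31488522055438251 vM9 vM24 (by norm_num)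

noncomputable def M26 : QT := .b Q29 Q30

lemma M26_def : M26 = .b Q29 Q30 := rfl

lemma vM26 : ev M26 I3_0 I5_21 = 3744228244831391 := by
  rw [M26_def]
  rw [I5_21_def]
  exact ev_b_eq _ _ _ _ _ _ _ _ 1878611105783215 1865617139048176 3744228244831391 vQ29 vQ30 (by norm_num)

noncomputable def M27 : QT := .b Q28 M26

lemma M27_def : M27 = .b Q28 M26 := rfl

lemma vM27 : ev M27 I3_0 I4_10 = 7634428950932128 := by
  rw [M27_def]
  rw [I4_10_def]
  exact ev_b_eq _ _ _ _ _ _ _ _ 3890200706100737 3744228244831391 7634428950932128 vQ28 vM26 (by norm_num)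

noncomputable def M28 : QT := .a Q32 Q33

lemma M28_def : M28 = .a Q32 Q33 := rfl

lemma vM28 : ev M28 I4_1 I5_22 = 1803985949899155 := by
  rw [M28_def]
  rw [I4_1_def]
  exact ev_a_eq _ _ _ _ _ _ _ _ 958081042423618 845904907475537 1803985949899155 vQ32 vQ33 (by norm_num)

noncomputable def M29 : QT := .a Q31 M28

lemma M29_def : M29 = .a Q31 M28 := rfl

lemma vM29 : ev M29 I3_0 I5_22 = 3757101949909473 := by
  rw [M29_def]
  rw [I3_0_def]
  exact ev_a_eq _ _ _ _ _ _ _ _ 1953116000010318 1803985949899155 3757101949909473 vQ31 vM28 (by norm_num)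

noncomputable def M30 : QT := .b M29 Q34

lemma M30_def : M30 = .b M29 Q34 := rfl

lemma vM30 : ev M30 I3_0 I4_11 = 7632876639473328 := by
  rw [M30_def]
  rw [I4_11_def]
  exact ev_b_eq _ _ _ _ _ _ _ _ 3757101949909473 3875774689563855 7632876639473328 vM29 vQ34 (by norm_num)

noncomputable def M31 : QT := .b M27 M30

lemma M31_def : M31 = .b M27 M30 := rfl

lemma vM31 : ev M31 I3_0 I3_5 = 15267305590405456 := by
  rw [M31_def]
  rw [I3_5_def]
  exact ev_b_eq _ _ _ _ _ _ _ _ 7634428950932128 7632876639473328 15267305590405456 vM27 vM30 (by norm_num)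

noncomputable def M32 : QT := .b Q27 M31

lemma M32_def : M32 = .b Q27 M31 := rfl

lemma vM32 : ev M32 I3_0 I2_2 = 30844017457575663 := by
  rw [M32_def]
  rw [I2_2_def]
  exact ev_b_eq _ _ _ _ _ _ _ _ 15576711867170207 15267305590405456 30844017457575663 vQ27 vM31 (by norm_num)

noncomputable def M33 : QT := .b Q37 Q38

lemma M33_def : M33 = .b Q37 Q38 := rfl

lemma vM33 : ev M33 I4_1 I5_25 = 1610927788368951 := by
  rw [M33_def]
  rw [I5_25_def]
  exact ev_b_eq _ _ _ _ _ _ _ _ 889773435797631 721154352571320 1610927788368951 vQ37 vQ38 (by norm_num)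

noncomputable def M34 : QT := .a Q36 M33

lemma M34_def : M34 = .a Q36 M33 := rfl

lemma vM34 : ev M34 I3_0 I5_25 = 3536388120896345 := by
  rw [M34_def]
  rw [I3_0_def]
  exact ev_a_eq _ _ _ _ _ _ _ _ 1925460332527394 1610927788368951 3536388120896345 vQ36 vM33 (by norm_num)

noncomputable def M35 : QT := .b Q35 M34

lemma M35_def : M35 = .b Q35 M34 := rfl

lemma vM35 : ev M35 I3_0 I4_12 = 7391123670476207 := by
  rw [M35_def]
  rw [I4_12_def]
  exact ev_b_eq _ _ _ _ _ _ _ _ 3854735549579862 3536388120896345 7391123670476207 vQ35 vM34 (by norm_num)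

noncomputable def M36 : QT := .a Q39 Q40

lemma M36_def : M36 = .a Q39 Q40 := rfl

lemma vM36 : ev M36 I3_0 I5_26 = 3751737561789959 := by
  rw [M36_def]
  rw [I3_0_def]
  exact ev_a_eq _ _ _ _ _ _ _ _ 1846543479870751 1905194081919208 3751737561789959 vQ39 vQ40 (by norm_num)

noncomputable def M37 : QT := .a Q41 Q42

lemma M37_def : M37 = .a Q41 Q42 := rfl

lemma vM37 : ev M37 I3_0 I5_27 = 3752811985557051 := by
  rw [M37_def]
  rw [I3_0_def]
  exact ev_a_eq _ _ _ _ _ _ _ _ 1825325150157765 1927486835399286 3752811985557051 vQ41 vQ42 (by norm_num)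

noncomputable def M38 : QT := .b M36 M37

lemma M38_def : M38 = .b M36 M37 := rfl

lemma vM38 : ev M38 I3_0 I4_13 = 7504549547347010 := by
  rw [M38_def]
  rw [I4_13_def]
  exact ev_b_eq _ _ _ _ _ _ _ _ 3751737561789959 3752811985557051 7504549547347010 vM36 vM37 (by norm_num)

noncomputable def M39 : QT := .b M35 M38

lemma M39_def : M39 = .b M35 M38 := rfl

lemma vM39 : ev M39 I3_0 I3_6 = 14895673217823217 := by
  rw [M39_def]
  rw [I3_6_def]
  exact ev_b_eq _ _ _ _ _ _ _ _ 7391123670476207 7504549547347010 14895673217823217 vM35 vM38 (by norm_num)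

noncomputable def M40 : QT := .b Q43 Q44

lemma M40_def : M40 = .b Q43 Q44 := rfl

lemma vM40 : ev M40 I4_0 I5_28 = 1668803676824578 := by
  rw [M40_def]
  rw [I5_28_def]
  exact ev_b_eq _ _ _ _ _ _ _ _ 846739657054079 822064019770499 1668803676824578 vQ43 vQ44 (by norm_num)

noncomputable def M41 : QT := .a Q46 Q47

lemma M41_def : M41 = .a Q46 Q47 := rfl

lemma vM41 : ev M41 I4_0 I6_59 = 731705066258316 := by
  rw [M41_def]
  rw [I4_0_def]
  exact ev_a_eq _ _ _ _ _ _ _ _ 312805938450949 418899127807367 731705066258316 vQ46 vQ47 (by norm_num)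

noncomputable def M42 : QT := .b Q45 M41

lemma M42_def : M42 = .b Q45 M41 := rfl

lemma vM42 : ev M42 I4_0 I5_29 = 1552817189344312 := by
  rw [M42_def]
  rw [I5_29_def]
  exact ev_b_eq _ _ _ _ _ _ _ _ 821112123085996 731705066258316 1552817189344312 vQ45 vM41 (by norm_num)

noncomputable def M43 : QT := .b M40 M42

lemma M43_def : M43 = .b M40 M42 := rfl

lemma vM43 : ev M43 I4_0 I4_14 = 3221620866168890 := by
  rw [M43_def]
  rw [I4_14_def]
  exact ev_b_eq _ _ _ _ _ _ _ _ 1668803676824578 1552817189344312 3221620866168890 vM40 vM42 (by norm_num)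

noncomputable def M44 : QT := .a Q49 Q50

lemma M44_def : M44 = .a Q49 Q50 := rfl

lemma vM44 : ev M44 I5_1 I5_30 = 568866842525535 := by
  rw [M44_def]
  rw [I5_1_def]
  exact ev_a_eq _ _ _ _ _ _ _ _ 254154551269582 314712291255953 568866842525535 vQ49 vQ50 (by norm_num)

noncomputable def M45 : QT := .b M44 Q51

lemma M45_def : M45 = .b M44 Q51 := rfl

lemma vM45 : ev M45 I5_1 I4_15 = 586984909187006 := by
  rw [M45_def]
  rw [I4_15_def]
  exact ev_b_eq _ _ _ _ _ _ _ _ 568866842525535 18118066661471 586984909187006 vM44 vQ51 (by norm_num)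

noncomputable def M46 : QT := .a Q48 M45

lemma M46_def : M46 = .a Q48 M45 := rfl

lemma vM46 : ev M46 I4_0 I4_15 = 786302061558873 := by
  rw [M46_def]
  rw [I4_0_def]
  exact ev_a_eq _ _ _ _ _ _ _ _ 199317152371867 586984909187006 786302061558873 vQ48 vM45 (by norm_num)

noncomputable def M47 : QT := .b M43 M46

lemma M47_def : M47 = .b M43 M46 := rfl

lemma vM47 : ev M47 I4_0 I3_7 = 4007922927727763 := by
  rw [M47_def]
  rw [I3_7_def]
  exact ev_b_eq _ _ _ _ _ _ _ _ 3221620866168890 786302061558873 4007922927727763 vM43 vM46 (by norm_num)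

noncomputable def M48 : QT := .a Q52 Q53

lemma M48_def : M48 = .a Q52 Q53 := rfl

lemma vM48 : ev M48 I4_1 I4_14 = 3708465708679418 := by
  rw [M48_def]
  rw [I4_1_def]
  exact ev_a_eq _ _ _ _ _ _ _ _ 1854531452085229 1853934256594189 3708465708679418 vQ52 vQ53 (by norm_num)

noncomputable def M49 : QT := .a Q55 Q56

lemma M49_def : M49 = .a Q55 Q56 := rfl

lemma vM49 : ev M49 I4_1 I6_61 = 513547813000320 := by
  rw [M49_def]
  rw [I4_1_def]
  exact ev_a_eq _ _ _ _ _ _ _ _ 238891495856833 274656317143487 513547813000320 vQ55 vQ56 (by norm_num)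

noncomputable def M50 : QT := .b Q54 M49

lemma M50_def : M50 = .b Q54 M49 := rfl

lemma vM50 : ev M50 I4_1 I5_30 = 1297225273578777 := by
  rw [M50_def]
  rw [I5_30_def]
  exact ev_b_eq _ _ _ _ _ _ _ _ 783677460578457 513547813000320 1297225273578777 vQ54 vM49 (by norm_num)

noncomputable def M51 : QT := .b M50 Q57

lemma M51_def : M51 = .b M50 Q57 := rfl

lemma vM51 : ev M51 I4_1 I4_15 = 1443613639786078 := by
  rw [M51_def]
  rw [I4_15_def]
  exact ev_b_eq _ _ _ _ _ _ _ _ 1297225273578777 146388366207301 1443613639786078 vM50 vQ57 (by norm_num)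

noncomputable def M52 : QT := .b M48 M51

lemma M52_def : M52 = .b M48 M51 := rfl

lemma vM52 : ev M52 I4_1 I3_7 = 5152079348465496 := by
  rw [M52_def]
  rw [I3_7_def]
  exact ev_b_eq _ _ _ _ _ _ _ _ 3708465708679418 1443613639786078 5152079348465496 vM48 vM51 (by norm_num)

noncomputable def M53 : QT := .a M47 M52

lemma M53_def : M53 = .a M47 M52 := rfl

lemma vM53 : ev M53 I3_0 I3_7 = 9160002276193259 := by
  rw [M53_def]
  rw [I3_0_def]
  exact ev_a_eq _ _ _ _ _ _ _ _ 4007922927727763 5152079348465496 9160002276193259 vM47 vM52 (by norm_num)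

noncomputable def M54 : QT := .b M39 M53

lemma M54_def : M54 = .b M39 M53 := rfl

lemma vM54 : ev M54 I3_0 I2_3 = 24055675494016476 := by
  rw [M54_def]
  rw [I2_3_def]
  exact ev_b_eq _ _ _ _ _ _ _ _ 14895673217823217 9160002276193259 24055675494016476 vM39 vM53 (by norm_num)

noncomputable def M55 : QT := .b M32 M54

lemma M55_def : M55 = .b M32 M54 := rfl

lemma vM55 : ev M55 I3_0 I1_1 = 54899692951592139 := by
  rw [M55_def]
  rw [I1_1_def]
  exact ev_b_eq _ _ _ _ _ _ _ _ 30844017457575663 24055675494016476 54899692951592139 vM32 vM54 (by norm_num)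

noncomputable def M56 : QT := .b M25 M55

lemma M56_def : M56 = .b M25 M55 := rfl

lemma vM56 : ev M56 I3_0 I0_0 = 86388215007030390 := by
  rw [M56_def]
  rw [I0_0_def]
  exact ev_b_eq _ _ _ _ _ _ _ _ 31488522055438251 54899692951592139 86388215007030390 vM25 vM55 (by norm_num)

noncomputable def M57 : QT := .a Q60 Q61

lemma M57_def : M57 = .a Q60 Q61 := rfl

lemma vM57 : ev M57 I4_2 I5_7 = 397203649172192 := by
  rw [M57_def]
  rw [I4_2_def]
  exact ev_a_eq _ _ _ _ _ _ _ _ 167846004639943 229357644532249 397203649172192 vQ60 vQ61 (by norm_num)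

noncomputable def M58 : QT := .b Q59 M57

lemma M58_def : M58 = .b Q59 M57 := rfl

lemma vM58 : ev M58 I4_2 I4_3 = 622269722171290 := by
  rw [M58_def]
  rw [I4_3_def]
  exact ev_b_eq _ _ _ _ _ _ _ _ 225066072999098 397203649172192 622269722171290 vQ59 vM57 (by norm_num)

noncomputable def M59 : QT := .b Q58 M58

lemma M59_def : M59 = .b Q58 M58 := rfl

lemma vM59 : ev M59 I4_2 I3_1 = 767227530277710 := by
  rw [M59_def]
  rw [I3_1_def]
  exact ev_b_eq _ _ _ _ _ _ _ _ 144957808106420 622269722171290 767227530277710 vQ58 vM58 (by norm_num)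

noncomputable def M60 : QT := .a M59 Q62

lemma M60_def : M60 = .a M59 Q62 := rfl

lemma vM60 : ev M60 I3_1 I3_1 = 1024718850834727 := by
  rw [M60_def]
  have h : ∀ q, q = I3_1 → ev (.a M59 Q62) I3_1 q = 1024718850834727 := by
    intro q hq
    rw [I3_1_def]
    subst hq
    exact ev_a_eq _ _ _ _ _ _ _ _ 767227530277710 257491320557017 1024718850834727 vM59 vQ62 (by norm_num)
  exact h _ rfl

noncomputable def M61 : QT := .b .z M60

lemma M61_def : M61 = .b .z M60 := rfl

lemma vM61 : ev M61 I3_1 I2_0 = 1024718850834727 := by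
  rw [M61_def]
  rw [I2_0_def]
  exact ev_b_eq _ _ _ _ _ _ _ _ 0 1024718850834727 1024718850834727 (ev_z _ _) vM60 (by norm_num)

noncomputable def M62 : QT := .b Q63 Q64

lemma M62_def : M62 = .b Q63 Q64 := rfl

lemma vM62 : ev M62 I4_2 I4_4 = 3006444362321379 := by
  rw [M62_def]
  rw [I4_4_def]
  exact ev_b_eq _ _ _ _ _ _ _ _ 1113886674810726 1892557687510653 3006444362321379 vQ63 vQ64 (by norm_num)

noncomputable def M63 : QT := .b Q65 Q66

lemma M63_def : M63 = .b Q65 Q66 := rfl

lemma vM63 : ev M63 I4_3 I4_4 = 984664503178508 := by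
  rw [M63_def]
  rw [I4_4_def]
  exact ev_b_eq _ _ _ _ _ _ _ _ 232695387208474 751969115970034 984664503178508 vQ65 vQ66 (by norm_num)

noncomputable def M64 : QT := .a M62 M63

lemma M64_def : M64 = .a M62 M63 := rfl

lemma vM64 : ev M64 I3_1 I4_4 = 3991108865499887 := by
  rw [M64_def]
  rw [I3_1_def]
  exact ev_a_eq _ _ _ _ _ _ _ _ 3006444362321379 984664503178508 3991108865499887 vM62 vM63 (by norm_num)

noncomputable def M65 : QT := .a Q67 Q68

lemma M65_def : M65 = .a Q67 Q68 := rfl

lemma vM65 : ev M65 I3_1 I4_5 = 7118909881746284 := by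
  rw [M65_def]
  rw [I3_1_def]
  exact ev_a_eq _ _ _ _ _ _ _ _ 3456815745500056 3662094136246228 7118909881746284 vQ67 vQ68 (by norm_num)

noncomputable def M66 : QT := .b M64 M65

lemma M66_def : M66 = .b M64 M65 := rfl

lemma vM66 : ev M66 I3_1 I3_2 = 11110018747246171 := by
  rw [M66_def]
  rw [I3_2_def]
  exact ev_b_eq _ _ _ _ _ _ _ _ 3991108865499887 7118909881746284 11110018747246171 vM64 vM65 (by norm_num)

noncomputable def M67 : QT := .a Q70 Q71

lemma M67_def : M67 = .a Q70 Q71 := rfl

lemma vM67 : ev M67 I5_5 I4_6 = 1096362501654418 := by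
  rw [M67_def]
  rw [I5_5_def]
  exact ev_a_eq _ _ _ _ _ _ _ _ 477788723879285 618573777775133 1096362501654418 vQ70 vQ71 (by norm_num)

noncomputable def M68 : QT := .a Q69 M67

lemma M68_def : M68 = .a Q69 M67 := rfl

lemma vM68 : ev M68 I4_2 I4_6 = 2489674581495094 := by
  rw [M68_def]
  rw [I4_2_def]
  exact ev_a_eq _ _ _ _ _ _ _ _ 1393312079840676 1096362501654418 2489674581495094 vQ69 vM67 (by norm_num)

noncomputable def M69 : QT := .a M68 Q72

lemma M69_def : M69 = .a M68 Q72 := rfl

lemma vM69 : ev M69 I3_1 I4_6 = 6312104122711205 := by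
  rw [M69_def]
  rw [I3_1_def]
  exact ev_a_eq _ _ _ _ _ _ _ _ 2489674581495094 3822429541216111 6312104122711205 vM68 vQ72 (by norm_num)

noncomputable def M70 : QT := .a Q73 Q74

lemma M70_def : M70 = .a Q73 Q74 := rfl

lemma vM70 : ev M70 I3_1 I4_7 = 7606234712316580 := by
  rw [M70_def]
  rw [I3_1_def]
  exact ev_a_eq _ _ _ _ _ _ _ _ 3711087752520999 3895146959795581 7606234712316580 vQ73 vQ74 (by norm_num)

noncomputable def M71 : QT := .b M69 M70

lemma M71_def : M71 = .b M69 M70 := rfl

lemma vM71 : ev M71 I3_1 I3_3 = 13918338835027785 := by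
  rw [M71_def]
  rw [I3_3_def]
  exact ev_b_eq _ _ _ _ _ _ _ _ 6312104122711205 7606234712316580 13918338835027785 vM69 vM70 (by norm_num)

noncomputable def M72 : QT := .b M66 M71

lemma M72_def : M72 = .b M66 M71 := rfl

lemma vM72 : ev M72 I3_1 I2_1 = 25028357582273956 := by
  rw [M72_def]
  rw [I2_1_def]
  exact ev_b_eq _ _ _ _ _ _ _ _ 11110018747246171 13918338835027785 25028357582273956 vM66 vM71 (by norm_num)

noncomputable def M73 : QT := .b M61 M72

lemma M73_def : M73 = .b M61 M72 := rfl

lemma vM73 : ev M73 I3_1 I1_0 = 26053076433108683 := by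
  rw [M73_def]
  rw [I1_0_def]
  exact ev_b_eq _ _ _ _ _ _ _ _ 1024718850834727 25028357582273956 26053076433108683 vM61 vM72 (by norm_num)

noncomputable def M74 : QT := .b Q75 Q76

lemma M74_def : M74 = .b Q75 Q76 := rfl

lemma vM74 : ev M74 I3_1 I3_4 = 15501610005964865 := by
  rw [M74_def]
  rw [I3_4_def]
  exact ev_b_eq _ _ _ _ _ _ _ _ 7783796088813126 7717813917151739 15501610005964865 vQ75 vQ76 (by norm_num)

noncomputable def M75 : QT := .b Q78 Q79

lemma M75_def : M75 = .b Q78 Q79 := rfl

lemma vM75 : ev M75 I4_2 I5_22 = 1643172906015626 := by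
  rw [M75_def]
  rw [I5_22_def]
  exact ev_b_eq _ _ _ _ _ _ _ _ 787016031131516 856156874884110 1643172906015626 vQ78 vQ79 (by norm_num)

noncomputable def M76 : QT := .b M75 Q80

lemma M76_def : M76 = .b M75 Q80 := rfl

lemma vM76 : ev M76 I4_2 I4_11 = 3517253453571982 := by
  rw [M76_def]
  rw [I4_11_def]
  exact ev_b_eq _ _ _ _ _ _ _ _ 1643172906015626 1874080547556356 3517253453571982 vM75 vQ80 (by norm_num)

noncomputable def M77 : QT := .a M76 Q81

lemma M77_def : M77 = .a M76 Q81 := rfl

lemma vM77 : ev M77 I3_1 I4_11 = 7397379350746618 := by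
  rw [M77_def]
  rw [I3_1_def]
  exact ev_a_eq _ _ _ _ _ _ _ _ 3517253453571982 3880125897174636 7397379350746618 vM76 vQ81 (by norm_num)

noncomputable def M78 : QT := .b Q77 M77

lemma M78_def : M78 = .b Q77 M77 := rfl

lemma vM78 : ev M78 I3_1 I3_5 = 15164010468121394 := by
  rw [M78_def]
  rw [I3_5_def]
  exact ev_b_eq _ _ _ _ _ _ _ _ 7766631117374776 7397379350746618 15164010468121394 vQ77 vM77 (by norm_num)

noncomputable def M79 : QT := .b M74 M78

lemma M79_def : M79 = .b M74 M78 := rfl

lemma vM79 : ev M79 I3_1 I2_2 = 30665620474086259 := by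
  rw [M79_def]
  rw [I2_2_def]
  exact ev_b_eq _ _ _ _ _ _ _ _ 15501610005964865 15164010468121394 30665620474086259 vM74 vM78 (by norm_num)

noncomputable def M80 : QT := .a Q82 Q83

lemma M80_def : M80 = .a Q82 Q83 := rfl

lemma vM80 : ev M80 I3_1 I3_6 = 15502683631124227 := by
  rw [M80_def]
  rw [I3_1_def]
  exact ev_a_eq _ _ _ _ _ _ _ _ 7751847543148506 7750836087975721 15502683631124227 vQ82 vQ83 (by norm_num)

noncomputable def M81 : QT := .a Q84 Q85

lemma M81_def : M81 = .a Q84 Q85 := rfl

lemma vM81 : ev M81 I3_1 I5_28 = 3774982718344361 := by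
  rw [M81_def]
  rw [I3_1_def]
  exact ev_a_eq _ _ _ _ _ _ _ _ 1899352261913755 1875630456430606 3774982718344361 vQ84 vQ85 (by norm_num)

noncomputable def M82 : QT := .b Q86 Q87

lemma M82_def : M82 = .b Q86 Q87 := rfl

lemma vM82 : ev M82 I4_2 I5_29 = 1789801302373625 := by
  rw [M82_def]
  rw [I5_29_def]
  exact ev_b_eq _ _ _ _ _ _ _ _ 923154173829657 866647128543968 1789801302373625 vQ86 vQ87 (by norm_num)

noncomputable def M83 : QT := .a Q88 Q89

lemma M83_def : M83 = .a Q88 Q89 := rfl

lemma vM83 : ev M83 I4_3 I5_29 = 1806490716925108 := by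
  rw [M83_def]
  rw [I4_3_def]
  exact ev_a_eq _ _ _ _ _ _ _ _ 892635834231982 913854882693126 1806490716925108 vQ88 vQ89 (by norm_num)

noncomputable def M84 : QT := .a M82 M83

lemma M84_def : M84 = .a M82 M83 := rfl

lemma vM84 : ev M84 I3_1 I5_29 = 3596292019298733 := by
  rw [M84_def]
  rw [I3_1_def]
  exact ev_a_eq _ _ _ _ _ _ _ _ 1789801302373625 1806490716925108 3596292019298733 vM82 vM83 (by norm_num)

noncomputable def M85 : QT := .b M81 M84

lemma M85_def : M85 = .b M81 M84 := rfl

lemma vM85 : ev M85 I3_1 I4_14 = 7371274737643094 := by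
  rw [M85_def]
  rw [I4_14_def]
  exact ev_b_eq _ _ _ _ _ _ _ _ 3774982718344361 3596292019298733 7371274737643094 vM81 vM84 (by norm_num)

noncomputable def M86 : QT := .b Q90 Q91

lemma M86_def : M86 = .b Q90 Q91 := rfl

lemma vM86 : ev M86 I5_4 I5_30 = 683541357069314 := by
  rw [M86_def]
  rw [I5_30_def]
  exact ev_b_eq _ _ _ _ _ _ _ _ 356434058474574 327107298594740 683541357069314 vQ90 vQ91 (by norm_num)

noncomputable def M87 : QT := .b M86 Q92

lemma M87_def : M87 = .b M86 Q92 := rfl

lemma vM87 : ev M87 I5_4 I4_15 = 878090527235376 := by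
  rw [M87_def]
  rw [I4_15_def]
  exact ev_b_eq _ _ _ _ _ _ _ _ 683541357069314 194549170166062 878090527235376 vM86 vQ92 (by norm_num)

noncomputable def M88 : QT := .b Q93 Q94

lemma M88_def : M88 = .b Q93 Q94 := rfl

lemma vM88 : ev M88 I5_5 I4_15 = 953194646487162 := by
  rw [M88_def]
  rw [I4_15_def]
  exact ev_b_eq _ _ _ _ _ _ _ _ 800127281014855 153067365472307 953194646487162 vQ93 vQ94 (by norm_num)

noncomputable def M89 : QT := .a M87 M88

lemma M89_def : M89 = .a M87 M88 := rfl

lemma vM89 : ev M89 I4_2 I4_15 = 1831285173722538 := by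
  rw [M89_def]
  rw [I4_2_def]
  exact ev_a_eq _ _ _ _ _ _ _ _ 878090527235376 953194646487162 1831285173722538 vM87 vM88 (by norm_num)

noncomputable def M90 : QT := .b Q95 Q96

lemma M90_def : M90 = .b Q95 Q96 := rfl

lemma vM90 : ev M90 I5_6 I5_30 = 713584083864141 := by
  rw [M90_def]
  rw [I5_30_def]
  exact ev_b_eq _ _ _ _ _ _ _ _ 433681362183202 279902721680939 713584083864141 vQ95 vQ96 (by norm_num)

noncomputable def M91 : QT := .b M90 Q97

lemma M91_def : M91 = .b M90 Q97 := rfl

lemma vM91 : ev M91 I5_6 I4_15 = 864741381962449 := by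
  rw [M91_def]
  rw [I4_15_def]
  exact ev_b_eq _ _ _ _ _ _ _ _ 713584083864141 151157298098308 864741381962449 vM90 vQ97 (by norm_num)

noncomputable def M92 : QT := .b Q98 Q99

lemma M92_def : M92 = .b Q98 Q99 := rfl

lemma vM92 : ev M92 I5_7 I5_30 = 705002318722123 := by
  rw [M92_def]
  rw [I5_30_def]
  exact ev_b_eq _ _ _ _ _ _ _ _ 378368979128579 326633339593544 705002318722123 vQ98 vQ99 (by norm_num)

noncomputable def M93 : QT := .b M92 Q100

lemma M93_def : M93 = .b M92 Q100 := rfl

lemma vM93 : ev M93 I5_7 I4_15 = 780820281367385 := by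
  rw [M93_def]
  rw [I4_15_def]
  exact ev_b_eq _ _ _ _ _ _ _ _ 705002318722123 75817962645262 780820281367385 vM92 vQ100 (by norm_num)

noncomputable def M94 : QT := .a M91 M93

lemma M94_def : M94 = .a M91 M93 := rfl

lemma vM94 : ev M94 I4_3 I4_15 = 1645561663329834 := by
  rw [M94_def]
  rw [I4_3_def]
  exact ev_a_eq _ _ _ _ _ _ _ _ 864741381962449 780820281367385 1645561663329834 vM91 vM93 (by norm_num)

noncomputable def M95 : QT := .a M89 M94

lemma M95_def : M95 = .a M89 M94 := rfl

lemma vM95 : ev M95 I3_1 I4_15 = 3476846837052372 := by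
  rw [M95_def]
  rw [I3_1_def]
  exact ev_a_eq _ _ _ _ _ _ _ _ 1831285173722538 1645561663329834 3476846837052372 vM89 vM94 (by norm_num)

noncomputable def M96 : QT := .b M85 M95

lemma M96_def : M96 = .b M85 M95 := rfl

lemma vM96 : ev M96 I3_1 I3_7 = 10848121574695466 := by
  rw [M96_def]
  rw [I3_7_def]
  exact ev_b_eq _ _ _ _ _ _ _ _ 7371274737643094 3476846837052372 10848121574695466 vM85 vM95 (by norm_num)

noncomputable def M97 : QT := .b M80 M96

lemma M97_def : M97 = .b M80 M96 := rfl

lemma vM97 : ev M97 I3_1 I2_3 = 26350805205819693 := by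
  rw [M97_def]
  rw [I2_3_def]
  exact ev_b_eq _ _ _ _ _ _ _ _ 15502683631124227 10848121574695466 26350805205819693 vM80 vM96 (by norm_num)

noncomputable def M98 : QT := .b M79 M97

lemma M98_def : M98 = .b M79 M97 := rfl

lemma vM98 : ev M98 I3_1 I1_1 = 57016425679905952 := by
  rw [M98_def]
  rw [I1_1_def]
  exact ev_b_eq _ _ _ _ _ _ _ _ 30665620474086259 26350805205819693 57016425679905952 vM79 vM97 (by norm_num)

noncomputable def M99 : QT := .b M73 M98

lemma M99_def : M99 = .b M73 M98 := rfl

lemma vM99 : ev M99 I3_1 I0_0 = 83069502113014635 := by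
  rw [M99_def]
  rw [I0_0_def]
  exact ev_b_eq _ _ _ _ _ _ _ _ 26053076433108683 57016425679905952 83069502113014635 vM73 vM98 (by norm_num)

noncomputable def M100 : QT := .a M56 M99

lemma M100_def : M100 = .a M56 M99 := rfl

lemma vM100 : ev M100 I2_0 I0_0 = 169457717120045025 := by
  rw [M100_def]
  rw [I2_0_def]
  exact ev_a_eq _ _ _ _ _ _ _ _ 86388215007030390 83069502113014635 169457717120045025 vM56 vM99 (by norm_num)

noncomputable def M101 : QT := .b Q102 Q103

lemma M101_def : M101 = .b Q102 Q103 := rfl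

lemma vM101 : ev M101 I4_4 I5_10 = 1038545979987161 := by
  rw [M101_def]
  rw [I5_10_def]
  exact ev_b_eq _ _ _ _ _ _ _ _ 235556253907835 802989726079326 1038545979987161 vQ102 vQ103 (by norm_num)

noncomputable def M102 : QT := .b M101 Q104

lemma M102_def : M102 = .b M101 Q104 := rfl

lemma vM102 : ev M102 I4_4 I4_5 = 2975211786270264 := by
  rw [M102_def]
  rw [I4_5_def]
  exact ev_b_eq _ _ _ _ _ _ _ _ 1038545979987161 1936665806283103 2975211786270264 vM101 vQ104 (by norm_num)

noncomputable def M103 : QT := .b Q101 M102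

lemma M103_def : M103 = .b Q101 M102 := rfl

lemma vM103 : ev M103 I4_4 I3_2 = 3006682937149279 := by
  rw [M103_def]
  rw [I3_2_def]
  exact ev_b_eq _ _ _ _ _ _ _ _ 31471150879015 2975211786270264 3006682937149279 vQ101 vM102 (by norm_num)

noncomputable def M104 : QT := .a M103 Q105

lemma M104_def : M104 = .a M103 Q105 := rfl

lemma vM104 : ev M104 I3_2 I3_2 = 3853184485920153 := by
  rw [M104_def]
  have h : ∀ q, q = I3_2 → ev (.a M103 Q105) I3_2 q = 3853184485920153 := by
    intro q hq
    rw [I3_2_def]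
    subst hq
    exact ev_a_eq _ _ _ _ _ _ _ _ 3006682937149279 846501548770874 3853184485920153 vM103 vQ105 (by norm_num)
  exact h _ rfl

noncomputable def M105 : QT := .a Q107 Q108

lemma M105_def : M105 = .a Q107 Q108 := rfl

lemma vM105 : ev M105 I4_5 I4_6 = 2254476171153433 := by
  rw [M105_def]
  rw [I4_5_def]
  exact ev_a_eq _ _ _ _ _ _ _ _ 1741401409920962 513074761232471 2254476171153433 vQ107 vQ108 (by norm_num)

noncomputable def M106 : QT := .a Q106 M105

lemma M106_def : M106 = .a Q106 M105 := rfl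

lemma vM106 : ev M106 I3_2 I4_6 = 6136508746796619 := by
  rw [M106_def]
  rw [I3_2_def]
  exact ev_a_eq _ _ _ _ _ _ _ _ 3882032575643186 2254476171153433 6136508746796619 vQ106 vM105 (by norm_num)

noncomputable def M107 : QT := .a Q111 Q112

lemma M107_def : M107 = .a Q111 Q112 := rfl

lemma vM107 : ev M107 I4_5 I5_15 = 1786581633614802 := by
  rw [M107_def]
  rw [I4_5_def]
  exact ev_a_eq _ _ _ _ _ _ _ _ 917788003239878 868793630374924 1786581633614802 vQ111 vQ112 (by norm_num)

noncomputable def M108 : QT := .b Q110 M107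

lemma M108_def : M108 = .b Q110 M107 := rfl

lemma vM108 : ev M108 I4_5 I4_7 = 3638132516923867 := by
  rw [M108_def]
  rw [I4_7_def]
  exact ev_b_eq _ _ _ _ _ _ _ _ 1851550883309065 1786581633614802 3638132516923867 vQ110 vM107 (by norm_num)

noncomputable def M109 : QT := .a Q109 M108

lemma M109_def : M109 = .a Q109 M108 := rfl

lemma vM109 : ev M109 I3_2 I4_7 = 7544364516944567 := by
  rw [M109_def]
  rw [I3_2_def]
  exact ev_a_eq _ _ _ _ _ _ _ _ 3906232000020700 3638132516923867 7544364516944567 vQ109 vM108 (by norm_num)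

noncomputable def M110 : QT := .b M106 M109

lemma M110_def : M110 = .b M106 M109 := rfl

lemma vM110 : ev M110 I3_2 I3_3 = 13680873263741186 := by
  rw [M110_def]
  rw [I3_3_def]
  exact ev_b_eq _ _ _ _ _ _ _ _ 6136508746796619 7544364516944567 13680873263741186 vM106 vM109 (by norm_num)

noncomputable def M111 : QT := .b M104 M110

lemma M111_def : M111 = .b M104 M110 := rfl

lemma vM111 : ev M111 I3_2 I2_1 = 17534057749661339 := by
  rw [M111_def]
  rw [I2_1_def]
  exact ev_b_eq _ _ _ _ _ _ _ _ 3853184485920153 13680873263741186 17534057749661339 vM104 vM110 (by norm_num)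

noncomputable def M112 : QT := .b .z M111

lemma M112_def : M112 = .b .z M111 := rfl

lemma vM112 : ev M112 I3_2 I1_0 = 17534057749661339 := by
  rw [M112_def]
  rw [I1_0_def]
  exact ev_b_eq _ _ _ _ _ _ _ _ 0 17534057749661339 17534057749661339 (ev_z _ _) vM111 (by norm_num)

noncomputable def M113 : QT := .b Q113 Q114

lemma M113_def : M113 = .b Q113 Q114 := rfl

lemma vM113 : ev M113 I3_2 I2_2 = 31056682158989648 := by
  rw [M113_def]
  rw [I2_2_def]
  exact ev_b_eq _ _ _ _ _ _ _ _ 15522708507615850 15533973651373798 31056682158989648 vQ113 vQ114 (by norm_num)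

noncomputable def M114 : QT := .a Q117 Q118

lemma M114_def : M114 = .a Q117 Q118 := rfl

lemma vM114 : ev M114 I4_5 I4_13 = 3709657555986480 := by
  rw [M114_def]
  rw [I4_5_def]
  exact ev_a_eq _ _ _ _ _ _ _ _ 1873007788095533 1836649767890947 3709657555986480 vQ117 vQ118 (by norm_num)

noncomputable def M115 : QT := .b Q116 M114

lemma M115_def : M115 = .b Q116 M114 := rfl

lemma vM115 : ev M115 I4_5 I3_6 = 7582334223940827 := by
  rw [M115_def]
  rw [I3_6_def]
  exact ev_b_eq _ _ _ _ _ _ _ _ 3872676667954347 3709657555986480 7582334223940827 vQ116 vM114 (by norm_num)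

noncomputable def M116 : QT := .a Q115 M115

lemma M116_def : M116 = .a Q115 M115 := rfl

lemma vM116 : ev M116 I3_2 I3_6 = 15308372184491747 := by
  rw [M116_def]
  rw [I3_2_def]
  exact ev_a_eq _ _ _ _ _ _ _ _ 7726037960550920 7582334223940827 15308372184491747 vQ115 vM115 (by norm_num)

noncomputable def M117 : QT := .b Q120 Q121

lemma M117_def : M117 = .b Q120 Q121 := rfl

lemma vM117 : ev M117 I5_9 I4_14 = 1820913446361293 := by
  rw [M117_def]
  rw [I4_14_def]
  exact ev_b_eq _ _ _ _ _ _ _ _ 940198952459896 880714493901397 1820913446361293 vQ120 vQ121 (by norm_num)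

noncomputable def M118 : QT := .a Q119 M117

lemma M118_def : M118 = .a Q119 M117 := rfl

lemma vM118 : ev M118 I4_4 I4_14 = 3684385034992235 := by
  rw [M118_def]
  rw [I4_4_def]
  exact ev_a_eq _ _ _ _ _ _ _ _ 1863471588630942 1820913446361293 3684385034992235 vQ119 vM117 (by norm_num)

noncomputable def M119 : QT := .b Q122 Q123

lemma M119_def : M119 = .b Q122 Q123 := rfl

lemma vM119 : ev M119 I5_8 I5_30 = 633713888917048 := by
  rw [M119_def]
  rw [I5_30_def]
  exact ev_b_eq _ _ _ _ _ _ _ _ 303267474610007 330446414307041 633713888917048 vQ122 vQ123 (by norm_num)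

noncomputable def M120 : QT := .b Q124 Q125

lemma M120_def : M120 = .b Q124 Q125 := rfl

lemma vM120 : ev M120 I5_9 I5_30 = 677105201909057 := by
  rw [M120_def]
  rw [I5_30_def]
  exact ev_b_eq _ _ _ _ _ _ _ _ 393865510011530 283239691897527 677105201909057 vQ124 vQ125 (by norm_num)

noncomputable def M121 : QT := .a M119 M120

lemma M121_def : M121 = .a M119 M120 := rfl

lemma vM121 : ev M121 I4_4 I5_30 = 1310819090826105 := by
  rw [M121_def]
  rw [I4_4_def]
  exact ev_a_eq _ _ _ _ _ _ _ _ 633713888917048 677105201909057 1310819090826105 vM119 vM120 (by norm_num)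

noncomputable def M122 : QT := .b M121 Q126

lemma M122_def : M122 = .b M121 Q126 := rfl

lemma vM122 : ev M122 I4_4 I4_15 = 1512995813244337 := by
  rw [M122_def]
  rw [I4_15_def]
  exact ev_b_eq _ _ _ _ _ _ _ _ 1310819090826105 202176722418232 1512995813244337 vM121 vQ126 (by norm_num)

noncomputable def M123 : QT := .b M118 M122

lemma M123_def : M123 = .b M118 M122 := rfl

lemma vM123 : ev M123 I4_4 I3_7 = 5197380848236572 := by
  rw [M123_def]
  rw [I3_7_def]
  exact ev_b_eq _ _ _ _ _ _ _ _ 3684385034992235 1512995813244337 5197380848236572 vM118 vM122 (by norm_num)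

noncomputable def M124 : QT := .b Q127 Q128

lemma M124_def : M124 = .b Q127 Q128 := rfl

lemma vM124 : ev M124 I6_20 I3_7 = 1105900741396130 := by
  rw [M124_def]
  rw [I3_7_def]
  exact ev_b_eq _ _ _ _ _ _ _ _ 864145006288482 241755735107648 1105900741396130 vQ127 vQ128 (by norm_num)

noncomputable def M125 : QT := .b Q129 Q130

lemma M125_def : M125 = .b Q129 Q130 := rfl

lemma vM125 : ev M125 I6_21 I4_14 = 753161017703227 := by
  rw [M125_def]
  rw [I4_14_def]
  exact ev_b_eq _ _ _ _ _ _ _ _ 432966034914482 320194982788745 753161017703227 vQ129 vQ130 (by norm_num)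

noncomputable def M126 : QT := .b M125 Q131

lemma M126_def : M126 = .b M125 Q131 := rfl

lemma vM126 : ev M126 I6_21 I3_7 = 875230092657517 := by
  rw [M126_def]
  rw [I3_7_def]
  exact ev_b_eq _ _ _ _ _ _ _ _ 753161017703227 122069074954290 875230092657517 vM125 vQ131 (by norm_num)

noncomputable def M127 : QT := .a M124 M126

lemma M127_def : M127 = .a M124 M126 := rfl

lemma vM127 : ev M127 I5_10 I3_7 = 1981130834053647 := by
  rw [M127_def]
  rw [I5_10_def]
  exact ev_a_eq _ _ _ _ _ _ _ _ 1105900741396130 875230092657517 1981130834053647 vM124 vM126 (by norm_num)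

noncomputable def M128 : QT := .b Q132 Q133

lemma M128_def : M128 = .b Q132 Q133 := rfl

lemma vM128 : ev M128 I6_22 I3_7 = 1123902295657953 := by
  rw [M128_def]
  rw [I3_7_def]
  exact ev_b_eq _ _ _ _ _ _ _ _ 795361416018378 328540879639575 1123902295657953 vQ132 vQ133 (by norm_num)

noncomputable def M129 : QT := .b Q134 Q135

lemma M129_def : M129 = .b Q134 Q135 := rfl

lemma vM129 : ev M129 I6_23 I3_7 = 1204128161319148 := by
  rw [M129_def]
  rw [I3_7_def]
  exact ev_b_eq _ _ _ _ _ _ _ _ 828858732852547 375269428466601 1204128161319148 vQ134 vQ135 (by norm_num)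

noncomputable def M130 : QT := .a M128 M129

lemma M130_def : M130 = .a M128 M129 := rfl

lemma vM130 : ev M130 I5_11 I3_7 = 2328030456977101 := by
  rw [M130_def]
  rw [I5_11_def]
  exact ev_a_eq _ _ _ _ _ _ _ _ 1123902295657953 1204128161319148 2328030456977101 vM128 vM129 (by norm_num)

noncomputable def M131 : QT := .a M127 M130

lemma M131_def : M131 = .a M127 M130 := rfl

lemma vM131 : ev M131 I4_5 I3_7 = 4309161291030748 := by
  rw [M131_def]
  rw [I4_5_def]
  exact ev_a_eq _ _ _ _ _ _ _ _ 1981130834053647 2328030456977101 4309161291030748 vM127 vM130 (by norm_num)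

noncomputable def M132 : QT := .a M123 M131

lemma M132_def : M132 = .a M123 M131 := rfl

lemma vM132 : ev M132 I3_2 I3_7 = 9506542139267320 := by
  rw [M132_def]
  rw [I3_2_def]
  exact ev_a_eq _ _ _ _ _ _ _ _ 5197380848236572 4309161291030748 9506542139267320 vM123 vM131 (by norm_num)

noncomputable def M133 : QT := .b M116 M132

lemma M133_def : M133 = .b M116 M132 := rfl

lemma vM133 : ev M133 I3_2 I2_3 = 24814914323759067 := by
  rw [M133_def]
  rw [I2_3_def]
  exact ev_b_eq _ _ _ _ _ _ _ _ 15308372184491747 9506542139267320 24814914323759067 vM116 vM132 (by norm_num)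

noncomputable def M134 : QT := .b M113 M133

lemma M134_def : M134 = .b M113 M133 := rfl

lemma vM134 : ev M134 I3_2 I1_1 = 55871596482748715 := by
  rw [M134_def]
  rw [I1_1_def]
  exact ev_b_eq _ _ _ _ _ _ _ _ 31056682158989648 24814914323759067 55871596482748715 vM113 vM133 (by norm_num)

noncomputable def M135 : QT := .b M112 M134

lemma M135_def : M135 = .b M112 M134 := rfl

lemma vM135 : ev M135 I3_2 I0_0 = 73405654232410054 := by
  rw [M135_def]
  rw [I0_0_def]
  exact ev_b_eq _ _ _ _ _ _ _ _ 17534057749661339 55871596482748715 73405654232410054 vM112 vM134 (by norm_num)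

noncomputable def M136 : QT := .a Q137 Q138

lemma M136_def : M136 = .a Q137 Q138 := rfl

lemma vM136 : ev M136 I4_6 I5_14 = 752445897708450 := by
  rw [M136_def]
  rw [I4_6_def]
  exact ev_a_eq _ _ _ _ _ _ _ _ 329016329102992 423429568605458 752445897708450 vQ137 vQ138 (by norm_num)

noncomputable def M137 : QT := .b M136 Q139

lemma M137_def : M137 = .b M136 Q139 := rfl

lemma vM137 : ev M137 I4_6 I4_7 = 2368439780285090 := by
  rw [M137_def]
  rw [I4_7_def]
  exact ev_b_eq _ _ _ _ _ _ _ _ 752445897708450 1615993882576640 2368439780285090 vM136 vQ139 (by norm_num)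

noncomputable def M138 : QT := .b Q136 M137

lemma M138_def : M138 = .b Q136 M137 := rfl

lemma vM138 : ev M138 I4_6 I3_3 = 2645480821302241 := by
  rw [M138_def]
  rw [I3_3_def]
  exact ev_b_eq _ _ _ _ _ _ _ _ 277041041017151 2368439780285090 2645480821302241 vQ136 vM137 (by norm_num)

noncomputable def M139 : QT := .a Q140 Q141

lemma M139_def : M139 = .a Q140 Q141 := rfl

lemma vM139 : ev M139 I4_7 I4_7 = 595090314699843 := by
  rw [M139_def]
  have h : ∀ q, q = I4_7 → ev (.a Q140 Q141) I4_7 q = 595090314699843 := by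
    intro q hq
    rw [I4_7_def]
    subst hq
    exact ev_a_eq _ _ _ _ _ _ _ _ 530240718019895 64849596679948 595090314699843 vQ140 vQ141 (by norm_num)
  exact h _ rfl

noncomputable def M140 : QT := .b .z M139

lemma M140_def : M140 = .b .z M139 := rfl

lemma vM140 : ev M140 I4_7 I3_3 = 595090314699843 := by
  rw [M140_def]
  rw [I3_3_def]
  exact ev_b_eq _ _ _ _ _ _ _ _ 0 595090314699843 595090314699843 (ev_z _ _) vM139 (by norm_num)

noncomputable def M141 : QT := .a M138 M140

lemma M141_def : M141 = .a M138 M140 := rfl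

lemma vM141 : ev M141 I3_3 I3_3 = 3240571136002084 := by
  rw [M141_def]
  have h : ∀ q, q = I3_3 → ev (.a M138 M140) I3_3 q = 3240571136002084 := by
    intro q hq
    rw [I3_3_def]
    subst hq
    exact ev_a_eq _ _ _ _ _ _ _ _ 2645480821302241 595090314699843 3240571136002084 vM138 vM140 (by norm_num)
  exact h _ rfl

noncomputable def M142 : QT := .b .z M141

lemma M142_def : M142 = .b .z M141 := rfl

lemma vM142 : ev M142 I3_3 I2_1 = 3240571136002084 := by
  rw [M142_def]
  rw [I2_1_def]
  exact ev_b_eq _ _ _ _ _ _ _ _ 0 3240571136002084 3240571136002084 (ev_z _ _) vM141 (by norm_num)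

noncomputable def M143 : QT := .b .z M142

lemma M143_def : M143 = .b .z M142 := rfl

lemma vM143 : ev M143 I3_3 I1_0 = 3240571136002084 := by
  rw [M143_def]
  rw [I1_0_def]
  exact ev_b_eq _ _ _ _ _ _ _ _ 0 3240571136002084 3240571136002084 (ev_z _ _) vM142 (by norm_num)

noncomputable def M144 : QT := .a Q145 Q146

lemma M144_def : M144 = .a Q145 Q146 := rfl

lemma vM144 : ev M144 I4_7 I4_11 = 3701491014393226 := by
  rw [M144_def]
  rw [I4_7_def]
  exact ev_a_eq _ _ _ _ _ _ _ _ 1877776339120589 1823714675272637 3701491014393226 vQ145 vQ146 (by norm_num)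

noncomputable def M145 : QT := .b Q144 M144

lemma M145_def : M145 = .b Q144 M144 := rfl

lemma vM145 : ev M145 I4_7 I3_5 = 7540549931495039 := by
  rw [M145_def]
  rw [I3_5_def]
  exact ev_b_eq _ _ _ _ _ _ _ _ 3839058917101813 3701491014393226 7540549931495039 vQ144 vM144 (by norm_num)

noncomputable def M146 : QT := .a Q143 M145

lemma M146_def : M146 = .a Q143 M145 := rfl

lemma vM146 : ev M146 I3_3 I3_5 = 15335550794845932 := by
  rw [M146_def]
  rw [I3_3_def]
  exact ev_a_eq _ _ _ _ _ _ _ _ 7795000863350893 7540549931495039 15335550794845932 vQ143 vM145 (by norm_num)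

noncomputable def M147 : QT := .b Q142 M146

lemma M147_def : M147 = .b Q142 M146 := rfl

lemma vM147 : ev M147 I3_3 I2_2 = 30899446659176026 := by
  rw [M147_def]
  rw [I2_2_def]
  exact ev_b_eq _ _ _ _ _ _ _ _ 15563895864330094 15335550794845932 30899446659176026 vQ142 vM146 (by norm_num)

noncomputable def M148 : QT := .b Q147 Q148

lemma M148_def : M148 = .b Q147 Q148 := rfl

lemma vM148 : ev M148 I4_6 I3_6 = 7683243445348986 := by
  rw [M148_def]
  rw [I3_6_def]
  exact ev_b_eq _ _ _ _ _ _ _ _ 3825529014482475 3857714430866511 7683243445348986 vQ147 vQ148 (by norm_num)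

noncomputable def M149 : QT := .b Q149 Q150

lemma M149_def : M149 = .b Q149 Q150 := rfl

lemma vM149 : ev M149 I4_7 I3_6 = 7670488147193348 := by
  rw [M149_def]
  rw [I3_6_def]
  exact ev_b_eq _ _ _ _ _ _ _ _ 3849489993669808 3820998153523540 7670488147193348 vQ149 vQ150 (by norm_num)

noncomputable def M150 : QT := .a M148 M149

lemma M150_def : M150 = .a M148 M149 := rfl

lemma vM150 : ev M150 I3_3 I3_6 = 15353731592542334 := by
  rw [M150_def]
  rw [I3_3_def]
  exact ev_a_eq _ _ _ _ _ _ _ _ 7683243445348986 7670488147193348 15353731592542334 vM148 vM149 (by norm_num)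

noncomputable def M151 : QT := .a Q152 Q153

lemma M151_def : M151 = .a Q152 Q153 := rfl

lemma vM151 : ev M151 I4_6 I5_29 = 1690142753789373 := by
  rw [M151_def]
  rw [I4_6_def]
  exact ev_a_eq _ _ _ _ _ _ _ _ 859734154055536 830408599733837 1690142753789373 vQ152 vQ153 (by norm_num)

noncomputable def M152 : QT := .b Q151 M151

lemma M152_def : M152 = .b Q151 M151 := rfl

lemma vM152 : ev M152 I4_6 I4_14 = 3543004002640219 := by
  rw [M152_def]
  rw [I4_14_def]
  exact ev_b_eq _ _ _ _ _ _ _ _ 1852861248850846 1690142753789373 3543004002640219 vQ151 vM151 (by norm_num)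

noncomputable def M153 : QT := .a Q154 Q155

lemma M153_def : M153 = .a Q154 Q155 := rfl

lemma vM153 : ev M153 I5_12 I5_30 = 719544532233965 := by
  rw [M153_def]
  rw [I5_12_def]
  exact ev_a_eq _ _ _ _ _ _ _ _ 362394278326259 357150253907706 719544532233965 vQ154 vQ155 (by norm_num)

noncomputable def M154 : QT := .b M153 Q156

lemma M154_def : M154 = .b M153 Q156 := rfl

lemma vM154 : ev M154 I5_12 I4_15 = 828739443611900 := by
  rw [M154_def]
  rw [I4_15_def]
  exact ev_b_eq _ _ _ _ _ _ _ _ 719544532233965 109194911377935 828739443611900 vM153 vQ156 (by norm_num)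

noncomputable def M155 : QT := .b Q157 Q158

lemma M155_def : M155 = .b Q157 Q158 := rfl

lemma vM155 : ev M155 I5_13 I5_30 = 723119962282063 := by
  rw [M155_def]
  rw [I5_30_def]
  exact ev_b_eq _ _ _ _ _ _ _ _ 405548526976855 317571435305208 723119962282063 vQ157 vQ158 (by norm_num)

noncomputable def M156 : QT := .b M155 Q159

lemma M156_def : M156 = .b M155 Q159 := rfl

lemma vM156 : ev M156 I5_13 I4_15 = 856158838499119 := by
  rw [M156_def]
  rw [I4_15_def]
  exact ev_b_eq _ _ _ _ _ _ _ _ 723119962282063 133038876217056 856158838499119 vM155 vQ159 (by norm_num)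

noncomputable def M157 : QT := .a M154 M156

lemma M157_def : M157 = .a M154 M156 := rfl

lemma vM157 : ev M157 I4_6 I4_15 = 1684898282111019 := by
  rw [M157_def]
  rw [I4_6_def]
  exact ev_a_eq _ _ _ _ _ _ _ _ 828739443611900 856158838499119 1684898282111019 vM154 vM156 (by norm_num)

noncomputable def M158 : QT := .b M152 M157

lemma M158_def : M158 = .b M152 M157 := rfl

lemma vM158 : ev M158 I4_6 I3_7 = 5227902284751238 := by
  rw [M158_def]
  rw [I3_7_def]
  exact ev_b_eq _ _ _ _ _ _ _ _ 3543004002640219 1684898282111019 5227902284751238 vM152 vM157 (by norm_num)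

noncomputable def M159 : QT := .a Q162 Q163

lemma M159_def : M159 = .a Q162 Q163 := rfl

lemma vM159 : ev M159 I5_15 I5_29 = 792023488284911 := by
  rw [M159_def]
  rw [I5_15_def]
  exact ev_a_eq _ _ _ _ _ _ _ _ 419376395876789 372647092408122 792023488284911 vQ162 vQ163 (by norm_num)

noncomputable def M160 : QT := .a Q161 M159

lemma M160_def : M160 = .a Q161 M159 := rfl

lemma vM160 : ev M160 I4_7 I5_29 = 1646035634041481 := by
  rw [M160_def]
  rw [I4_7_def]
  exact ev_a_eq _ _ _ _ _ _ _ _ 854012145756570 792023488284911 1646035634041481 vQ161 vM159 (by norm_num)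

noncomputable def M161 : QT := .b Q160 M160

lemma M161_def : M161 = .b Q160 M160 := rfl

lemma vM161 : ev M161 I4_7 I4_14 = 3479346443438709 := by
  rw [M161_def]
  rw [I4_14_def]
  exact ev_b_eq _ _ _ _ _ _ _ _ 1833310809397228 1646035634041481 3479346443438709 vQ160 vM160 (by norm_num)

noncomputable def M162 : QT := .b Q164 Q165

lemma M162_def : M162 = .b Q164 Q165 := rfl

lemma vM162 : ev M162 I5_14 I5_30 = 707623436282300 := by
  rw [M162_def]
  rw [I5_30_def]
  exact ev_b_eq _ _ _ _ _ _ _ _ 380991523194989 326631913087311 707623436282300 vQ164 vQ165 (by norm_num)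

noncomputable def M163 : QT := .b M162 Q166

lemma M163_def : M163 = .b M162 Q166 := rfl

lemma vM163 : ev M163 I5_14 I4_15 = 795359266121105 := by
  rw [M163_def]
  rw [I4_15_def]
  exact ev_b_eq _ _ _ _ _ _ _ _ 707623436282300 87735829838805 795359266121105 vM162 vQ166 (by norm_num)

noncomputable def M164 : QT := .a Q167 Q168

lemma M164_def : M164 = .a Q167 Q168 := rfl

lemma vM164 : ev M164 I5_15 I4_15 = 428913219606341 := by
  rw [M164_def]
  rw [I5_15_def]
  exact ev_a_eq _ _ _ _ _ _ _ _ 277279177859349 151634041746992 428913219606341 vQ167 vQ168 (by norm_num)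

noncomputable def M165 : QT := .a M163 M164

lemma M165_def : M165 = .a M163 M164 := rfl

lemma vM165 : ev M165 I4_7 I4_15 = 1224272485727446 := by
  rw [M165_def]
  rw [I4_7_def]
  exact ev_a_eq _ _ _ _ _ _ _ _ 795359266121105 428913219606341 1224272485727446 vM163 vM164 (by norm_num)

noncomputable def M166 : QT := .b M161 M165

lemma M166_def : M166 = .b M161 M165 := rfl

lemma vM166 : ev M166 I4_7 I3_7 = 4703618929166155 := by
  rw [M166_def]
  rw [I3_7_def]
  exact ev_b_eq _ _ _ _ _ _ _ _ 3479346443438709 1224272485727446 4703618929166155 vM161 vM165 (by norm_num)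

noncomputable def M167 : QT := .a M158 M166

lemma M167_def : M167 = .a M158 M166 := rfl

lemma vM167 : ev M167 I3_3 I3_7 = 9931521213917393 := by
  rw [M167_def]
  rw [I3_3_def]
  exact ev_a_eq _ _ _ _ _ _ _ _ 5227902284751238 4703618929166155 9931521213917393 vM158 vM166 (by norm_num)

noncomputable def M168 : QT := .b M150 M167

lemma M168_def : M168 = .b M150 M167 := rfl

lemma vM168 : ev M168 I3_3 I2_3 = 25285252806459727 := by
  rw [M168_def]
  rw [I2_3_def]
  exact ev_b_eq _ _ _ _ _ _ _ _ 15353731592542334 9931521213917393 25285252806459727 vM150 vM167 (by norm_num)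

noncomputable def M169 : QT := .b M147 M168

lemma M169_def : M169 = .b M147 M168 := rfl

lemma vM169 : ev M169 I3_3 I1_1 = 56184699465635753 := by
  rw [M169_def]
  rw [I1_1_def]
  exact ev_b_eq _ _ _ _ _ _ _ _ 30899446659176026 25285252806459727 56184699465635753 vM147 vM168 (by norm_num)

noncomputable def M170 : QT := .b M143 M169

lemma M170_def : M170 = .b M143 M169 := rfl

lemma vM170 : ev M170 I3_3 I0_0 = 59425270601637837 := by
  rw [M170_def]
  rw [I0_0_def]
  exact ev_b_eq _ _ _ _ _ _ _ _ 3240571136002084 56184699465635753 59425270601637837 vM143 vM169 (by norm_num)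

noncomputable def M171 : QT := .a M135 M170

lemma M171_def : M171 = .a M135 M170 := rfl

lemma vM171 : ev M171 I2_1 I0_0 = 132830924834047891 := by
  rw [M171_def]
  rw [I2_1_def]
  exact ev_a_eq _ _ _ _ _ _ _ _ 73405654232410054 59425270601637837 132830924834047891 vM135 vM170 (by norm_num)

noncomputable def M172 : QT := .a M100 M171

lemma M172_def : M172 = .a M100 M171 := rfl

lemma vM172 : ev M172 I1_0 I0_0 = 302288641954092916 := by
  rw [M172_def]
  rw [I1_0_def]
  exact ev_a_eq _ _ _ _ _ _ _ _ 169457717120045025 132830924834047891 302288641954092916 vM100 vM171 (by norm_num)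

noncomputable def M173 : QT := .a Q169 Q170

lemma M173_def : M173 = .a Q169 Q170 := rfl

lemma vM173 : ev M173 I4_8 I4_8 = 457761634767608 := by
  rw [M173_def]
  have h : ∀ q, q = I4_8 → ev (.a Q169 Q170) I4_8 q = 457761634767608 := by
    intro q hq
    rw [I4_8_def]
    subst hq
    exact ev_a_eq _ _ _ _ _ _ _ _ 366209325685197 91552309082411 457761634767608 vQ169 vQ170 (by norm_num)
  exact h _ rfl

noncomputable def M174 : QT := .b Q171 Q172

lemma M174_def : M174 = .b Q171 Q172 := rfl

lemma vM174 : ev M174 I5_16 I4_9 = 1095290024663877 := by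
  rw [M174_def]
  rw [I4_9_def]
  exact ev_b_eq _ _ _ _ _ _ _ _ 520703864504545 574586160159332 1095290024663877 vQ171 vQ172 (by norm_num)

noncomputable def M175 : QT := .a M174 Q173

lemma M175_def : M175 = .a M174 Q173 := rfl

lemma vM175 : ev M175 I4_8 I4_9 = 2224197110240659 := by
  rw [M175_def]
  rw [I4_8_def]
  exact ev_a_eq _ _ _ _ _ _ _ _ 1095290024663877 1128907085576782 2224197110240659 vM174 vQ173 (by norm_num)

noncomputable def M176 : QT := .b M173 M175

lemma M176_def : M176 = .b M173 M175 := rfl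

lemma vM176 : ev M176 I4_8 I3_4 = 2681958745008267 := by
  rw [M176_def]
  rw [I3_4_def]
  exact ev_b_eq _ _ _ _ _ _ _ _ 457761634767608 2224197110240659 2681958745008267 vM173 vM175 (by norm_num)

noncomputable def M177 : QT := .b Q174 Q175

lemma M177_def : M177 = .b Q174 Q175 := rfl

lemma vM177 : ev M177 I5_18 I4_9 = 710960830814689 := by
  rw [M177_def]
  rw [I4_9_def]
  exact ev_b_eq _ _ _ _ _ _ _ _ 187872914551880 523087916262809 710960830814689 vQ174 vQ175 (by norm_num)

noncomputable def M178 : QT := .a M177 Q176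

lemma M178_def : M178 = .a M177 Q176 := rfl

lemma vM178 : ev M178 I4_9 I4_9 = 1076693285894636 := by
  rw [M178_def]
  have h : ∀ q, q = I4_9 → ev (.a M177 Q176) I4_9 q = 1076693285894636 := by
    intro q hq
    rw [I4_9_def]
    subst hq
    exact ev_a_eq _ _ _ _ _ _ _ _ 710960830814689 365732455079947 1076693285894636 vM177 vQ176 (by norm_num)
  exact h _ rfl

noncomputable def M179 : QT := .b .z M178

lemma M179_def : M179 = .b .z M178 := rfl

lemma vM179 : ev M179 I4_9 I3_4 = 1076693285894636 := by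
  rw [M179_def]
  rw [I3_4_def]
  exact ev_b_eq _ _ _ _ _ _ _ _ 0 1076693285894636 1076693285894636 (ev_z _ _) vM178 (by norm_num)

noncomputable def M180 : QT := .a M176 M179

lemma M180_def : M180 = .a M176 M179 := rfl

lemma vM180 : ev M180 I3_4 I3_4 = 3758652030902903 := by
  rw [M180_def]
  have h : ∀ q, q = I3_4 → ev (.a M176 M179) I3_4 q = 3758652030902903 := by
    intro q hq
    rw [I3_4_def]
    subst hq
    exact ev_a_eq _ _ _ _ _ _ _ _ 2681958745008267 1076693285894636 3758652030902903 vM176 vM179 (by norm_num)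
  exact h _ rfl

noncomputable def M181 : QT := .b Q177 Q178

lemma M181_def : M181 = .b Q177 Q178 := rfl

lemma vM181 : ev M181 I5_16 I4_10 = 1788965841622590 := by
  rw [M181_def]
  rw [I4_10_def]
  exact ev_b_eq _ _ _ _ _ _ _ _ 863071626712841 925894214909749 1788965841622590 vQ177 vQ178 (by norm_num)

noncomputable def M182 : QT := .a M181 Q179

lemma M182_def : M182 = .a M181 Q179 := rfl

lemma vM182 : ev M182 I4_8 I4_10 = 3595217393388345 := by
  rw [M182_def]
  rw [I4_8_def]
  exact ev_a_eq _ _ _ _ _ _ _ _ 1788965841622590 1806251551765755 3595217393388345 vM181 vQ179 (by norm_num)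

noncomputable def M183 : QT := .b M182 Q180

lemma M183_def : M183 = .b M182 Q180 := rfl

lemma vM183 : ev M183 I4_8 I3_5 = 7494892901892940 := by
  rw [M183_def]
  rw [I3_5_def]
  exact ev_b_eq _ _ _ _ _ _ _ _ 3595217393388345 3899675508504595 7494892901892940 vM182 vQ180 (by norm_num)

noncomputable def M184 : QT := .b Q181 Q182

lemma M184_def : M184 = .b Q181 Q182 := rfl

lemma vM184 : ev M184 I4_9 I4_10 = 2675044885022650 := by
  rw [M184_def]
  rw [I4_10_def]
  exact ev_b_eq _ _ _ _ _ _ _ _ 963922406376180 1711122478646470 2675044885022650 vQ181 vQ182 (by norm_num)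

noncomputable def M185 : QT := .b M184 Q183

lemma M185_def : M185 = .b M184 Q183 := rfl

lemma vM185 : ev M185 I4_9 I3_5 = 6530791917361214 := by
  rw [M185_def]
  rw [I3_5_def]
  exact ev_b_eq _ _ _ _ _ _ _ _ 2675044885022650 3855747032338564 6530791917361214 vM184 vQ183 (by norm_num)

noncomputable def M186 : QT := .a M183 M185

lemma M186_def : M186 = .a M183 M185 := rfl

lemma vM186 : ev M186 I3_4 I3_5 = 14025684819254154 := by
  rw [M186_def]
  rw [I3_4_def]
  exact ev_a_eq _ _ _ _ _ _ _ _ 7494892901892940 6530791917361214 14025684819254154 vM183 vM185 (by norm_num)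

noncomputable def M187 : QT := .b M180 M186

lemma M187_def : M187 = .b M180 M186 := rfl

lemma vM187 : ev M187 I3_4 I2_2 = 17784336850157057 := by
  rw [M187_def]
  rw [I2_2_def]
  exact ev_b_eq _ _ _ _ _ _ _ _ 3758652030902903 14025684819254154 17784336850157057 vM180 vM186 (by norm_num)

noncomputable def M188 : QT := .a Q185 Q186

lemma M188_def : M188 = .a Q185 Q186 := rfl

lemma vM188 : ev M188 I5_16 I4_13 = 1679889610116035 := by
  rw [M188_def]
  rw [I5_16_def]
  exact ev_a_eq _ _ _ _ _ _ _ _ 816401351657686 863488258458349 1679889610116035 vQ185 vQ186 (by norm_num)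

noncomputable def M189 : QT := .a M188 Q187

lemma M189_def : M189 = .a M188 Q187 := rfl

lemma vM189 : ev M189 I4_8 I4_13 = 3522976266069590 := by
  rw [M189_def]
  rw [I4_8_def]
  exact ev_a_eq _ _ _ _ _ _ _ _ 1679889610116035 1843086655953555 3522976266069590 vM188 vQ187 (by norm_num)

noncomputable def M190 : QT := .b Q184 M189

lemma M190_def : M190 = .b Q184 M189 := rfl

lemma vM190 : ev M190 I4_8 I3_6 = 7404652632420127 := by
  rw [M190_def]
  rw [I3_6_def]
  exact ev_b_eq _ _ _ _ _ _ _ _ 3881676366350537 3522976266069590 7404652632420127 vQ184 vM189 (by norm_num)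

noncomputable def M191 : QT := .a Q188 Q189

lemma M191_def : M191 = .a Q188 Q189 := rfl

lemma vM191 : ev M191 I4_9 I4_12 = 3690227007341592 := by
  rw [M191_def]
  rw [I4_9_def]
  exact ev_a_eq _ _ _ _ _ _ _ _ 1775793436623767 1914433570717825 3690227007341592 vQ188 vQ189 (by norm_num)

noncomputable def M192 : QT := .b M191 Q190

lemma M192_def : M192 = .b M191 Q190 := rfl

lemma vM192 : ev M192 I4_9 I3_6 = 7487979326818822 := by
  rw [M192_def]
  rw [I3_6_def]
  exact ev_b_eq _ _ _ _ _ _ _ _ 3690227007341592 3797752319477230 7487979326818822 vM191 vQ190 (by norm_num)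

noncomputable def M193 : QT := .a M190 M192

lemma M193_def : M193 = .a M190 M192 := rfl

lemma vM193 : ev M193 I3_4 I3_6 = 14892631959238949 := by
  rw [M193_def]
  rw [I3_4_def]
  exact ev_a_eq _ _ _ _ _ _ _ _ 7404652632420127 7487979326818822 14892631959238949 vM190 vM192 (by norm_num)

noncomputable def M194 : QT := .b Q191 Q192

lemma M194_def : M194 = .b Q191 Q192 := rfl

lemma vM194 : ev M194 I6_32 I4_14 = 684259028566695 := by
  rw [M194_def]
  rw [I4_14_def]
  exact ev_b_eq _ _ _ _ _ _ _ _ 411747009645162 272512018921533 684259028566695 vQ191 vQ192 (by norm_num)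

noncomputable def M195 : QT := .b M194 Q193

lemma M195_def : M195 = .b M194 Q193 := rfl

lemma vM195 : ev M195 I6_32 I3_7 = 797507409306445 := by
  rw [M195_def]
  rw [I3_7_def]
  exact ev_b_eq _ _ _ _ _ _ _ _ 684259028566695 113248380739750 797507409306445 vM194 vQ193 (by norm_num)

noncomputable def M196 : QT := .b Q194 Q195

lemma M196_def : M196 = .b Q194 Q195 := rfl

lemma vM196 : ev M196 I6_33 I4_14 = 708576350833506 := by
  rw [M196_def]
  rw [I4_14_def]
  exact ev_b_eq _ _ _ _ _ _ _ _ 357864281130612 350712069702894 708576350833506 vQ194 vQ195 (by norm_num)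

noncomputable def M197 : QT := .b M196 Q196

lemma M197_def : M197 = .b M196 Q196 := rfl

lemma vM197 : ev M197 I6_33 I3_7 = 1018996717288622 := by
  rw [M197_def]
  rw [I3_7_def]
  exact ev_b_eq _ _ _ _ _ _ _ _ 708576350833506 310420366455116 1018996717288622 vM196 vQ196 (by norm_num)

noncomputable def M198 : QT := .a M195 M197

lemma M198_def : M198 = .a M195 M197 := rfl

lemma vM198 : ev M198 I5_16 I3_7 = 1816504126595067 := by
  rw [M198_def]
  rw [I5_16_def]
  exact ev_a_eq _ _ _ _ _ _ _ _ 797507409306445 1018996717288622 1816504126595067 vM195 vM197 (by norm_num)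

noncomputable def M199 : QT := .a Q197 Q198

lemma M199_def : M199 = .a Q197 Q198 := rfl

lemma vM199 : ev M199 I5_17 I5_28 = 765439077336068 := by
  rw [M199_def]
  rw [I5_17_def]
  exact ev_a_eq _ _ _ _ _ _ _ _ 364182565248675 401256512087393 765439077336068 vQ197 vQ198 (by norm_num)

noncomputable def M200 : QT := .b M199 Q199

lemma M200_def : M200 = .b M199 Q199 := rfl

lemma vM200 : ev M200 I5_17 I4_14 = 1501911723700078 := by
  rw [M200_def]
  rw [I4_14_def]
  exact ev_b_eq _ _ _ _ _ _ _ _ 765439077336068 736472646364010 1501911723700078 vM199 vQ199 (by norm_num)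

noncomputable def M201 : QT := .b Q200 Q201

lemma M201_def : M201 = .b Q200 Q201 := rfl

lemma vM201 : ev M201 I5_17 I5_30 = 615355298464146 := by
  rw [M201_def]
  rw [I5_30_def]
  exact ev_b_eq _ _ _ _ _ _ _ _ 347374533569513 267980764894633 615355298464146 vQ200 vQ201 (by norm_num)

noncomputable def M202 : QT := .b M201 Q202

lemma M202_def : M202 = .b M201 Q202 := rfl

lemma vM202 : ev M202 I5_17 I4_15 = 693079440552933 := by
  rw [M202_def]
  rw [I4_15_def]
  exact ev_b_eq _ _ _ _ _ _ _ _ 615355298464146 77724142088787 693079440552933 vM201 vQ202 (by norm_num)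

noncomputable def M203 : QT := .b M200 M202

lemma M203_def : M203 = .b M200 M202 := rfl

lemma vM203 : ev M203 I5_17 I3_7 = 2194991164253011 := by
  rw [M203_def]
  rw [I3_7_def]
  exact ev_b_eq _ _ _ _ _ _ _ _ 1501911723700078 693079440552933 2194991164253011 vM200 vM202 (by norm_num)

noncomputable def M204 : QT := .a M198 M203

lemma M204_def : M204 = .a M198 M203 := rfl

lemma vM204 : ev M204 I4_8 I3_7 = 4011495290848078 := by
  rw [M204_def]
  rw [I4_8_def]
  exact ev_a_eq _ _ _ _ _ _ _ _ 1816504126595067 2194991164253011 4011495290848078 vM198 vM203 (by norm_num)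

noncomputable def M205 : QT := .b Q203 Q204

lemma M205_def : M205 = .b Q203 Q204 := rfl

lemma vM205 : ev M205 I5_18 I4_14 = 1650683965156514 := by
  rw [M205_def]
  rw [I4_14_def]
  exact ev_b_eq _ _ _ _ _ _ _ _ 845785846501251 804898118655263 1650683965156514 vQ203 vQ204 (by norm_num)

noncomputable def M206 : QT := .b Q205 Q206

lemma M206_def : M206 = .b Q205 Q206 := rfl

lemma vM206 : ev M206 I5_18 I5_30 = 553843557986826 := by
  rw [M206_def]
  rw [I5_30_def]
  exact ev_b_eq _ _ _ _ _ _ _ _ 301121336793960 252722221192866 553843557986826 vQ205 vQ206 (by norm_num)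

noncomputable def M207 : QT := .b M206 Q207

lemma M207_def : M207 = .b M206 Q207 := rfl

lemma vM207 : ev M207 I5_18 I4_15 = 648734664919300 := by
  rw [M207_def]
  rw [I4_15_def]
  exact ev_b_eq _ _ _ _ _ _ _ _ 553843557986826 94891106932474 648734664919300 vM206 vQ207 (by norm_num)

noncomputable def M208 : QT := .b M205 M207

lemma M208_def : M208 = .b M205 M207 := rfl

lemma vM208 : ev M208 I5_18 I3_7 = 2299418630075814 := by
  rw [M208_def]
  rw [I3_7_def]
  exact ev_b_eq _ _ _ _ _ _ _ _ 1650683965156514 648734664919300 2299418630075814 vM205 vM207 (by norm_num)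

noncomputable def M209 : QT := .b Q208 Q209

lemma M209_def : M209 = .b Q208 Q209 := rfl

lemma vM209 : ev M209 I5_19 I4_14 = 1707188792916068 := by
  rw [M209_def]
  rw [I4_14_def]
  exact ev_b_eq _ _ _ _ _ _ _ _ 885601506536490 821587286379578 1707188792916068 vQ208 vQ209 (by norm_num)

noncomputable def M210 : QT := .b Q210 Q211

lemma M210_def : M210 = .b Q210 Q211 := rfl

lemma vM210 : ev M210 I5_19 I5_30 = 642534598760248 := by
  rw [M210_def]
  rw [I5_30_def]
  exact ev_b_eq _ _ _ _ _ _ _ _ 380275657594668 262258941165580 642534598760248 vQ210 vQ211 (by norm_num)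

noncomputable def M211 : QT := .b M210 Q212

lemma M211_def : M211 = .b M210 Q212 := rfl

lemma vM211 : ev M211 I5_19 I4_15 = 709292664674609 := by
  rw [M211_def]
  rw [I4_15_def]
  exact ev_b_eq _ _ _ _ _ _ _ _ 642534598760248 66758065914361 709292664674609 vM210 vQ212 (by norm_num)

noncomputable def M212 : QT := .b M209 M211

lemma M212_def : M212 = .b M209 M211 := rfl

lemma vM212 : ev M212 I5_19 I3_7 = 2416481457590677 := by
  rw [M212_def]
  rw [I3_7_def]
  exact ev_b_eq _ _ _ _ _ _ _ _ 1707188792916068 709292664674609 2416481457590677 vM209 vM211 (by norm_num)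

noncomputable def M213 : QT := .a M208 M212

lemma M213_def : M213 = .a M208 M212 := rfl

lemma vM213 : ev M213 I4_9 I3_7 = 4715900087666491 := by
  rw [M213_def]
  rw [I4_9_def]
  exact ev_a_eq _ _ _ _ _ _ _ _ 2299418630075814 2416481457590677 4715900087666491 vM208 vM212 (by norm_num)

noncomputable def M214 : QT := .a M204 M213

lemma M214_def : M214 = .a M204 M213 := rfl

lemma vM214 : ev M214 I3_4 I3_7 = 8727395378514569 := by
  rw [M214_def]
  rw [I3_4_def]
  exact ev_a_eq _ _ _ _ _ _ _ _ 4011495290848078 4715900087666491 8727395378514569 vM204 vM213 (by norm_num)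

noncomputable def M215 : QT := .b M193 M214

lemma M215_def : M215 = .b M193 M214 := rfl

lemma vM215 : ev M215 I3_4 I2_3 = 23620027337753518 := by
  rw [M215_def]
  rw [I2_3_def]
  exact ev_b_eq _ _ _ _ _ _ _ _ 14892631959238949 8727395378514569 23620027337753518 vM193 vM214 (by norm_num)

noncomputable def M216 : QT := .b M187 M215

lemma M216_def : M216 = .b M187 M215 := rfl

lemma vM216 : ev M216 I3_4 I1_1 = 41404364187910575 := by
  rw [M216_def]
  rw [I1_1_def]
  exact ev_b_eq _ _ _ _ _ _ _ _ 17784336850157057 23620027337753518 41404364187910575 vM187 vM215 (by norm_num)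

noncomputable def M217 : QT := .b .z M216

lemma M217_def : M217 = .b .z M216 := rfl

lemma vM217 : ev M217 I3_4 I0_0 = 41404364187910575 := by
  rw [M217_def]
  rw [I0_0_def]
  exact ev_b_eq _ _ _ _ _ _ _ _ 0 41404364187910575 41404364187910575 (ev_z _ _) vM216 (by norm_num)

noncomputable def M218 : QT := .b Q213 Q214

lemma M218_def : M218 = .b Q213 Q214 := rfl

lemma vM218 : ev M218 I4_10 I3_5 = 3923219638660984 := by
  rw [M218_def]
  rw [I3_5_def]
  exact ev_b_eq _ _ _ _ _ _ _ _ 908728520572654 3014491118088330 3923219638660984 vQ213 vQ214 (by norm_num)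

noncomputable def M219 : QT := .a Q215 Q216

lemma M219_def : M219 = .a Q215 Q216 := rfl

lemma vM219 : ev M219 I4_11 I4_11 = 353334603029054 := by
  rw [M219_def]
  have h : ∀ q, q = I4_11 → ev (.a Q215 Q216) I4_11 q = 353334603029054 := by
    intro q hq
    rw [I4_11_def]
    subst hq
    exact ev_a_eq _ _ _ _ _ _ _ _ 294207047853013 59127555176041 353334603029054 vQ215 vQ216 (by norm_num)
  exact h _ rfl

noncomputable def M220 : QT := .b .z M219

lemma M220_def : M220 = .b .z M219 := rfl

lemma vM220 : ev M220 I4_11 I3_5 = 353334603029054 := by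
  rw [M220_def]
  rw [I3_5_def]
  exact ev_b_eq _ _ _ _ _ _ _ _ 0 353334603029054 353334603029054 (ev_z _ _) vM219 (by norm_num)

noncomputable def M221 : QT := .a M218 M220

lemma M221_def : M221 = .a M218 M220 := rfl

lemma vM221 : ev M221 I3_5 I3_5 = 4276554241690038 := by
  rw [M221_def]
  have h : ∀ q, q = I3_5 → ev (.a M218 M220) I3_5 q = 4276554241690038 := by
    intro q hq
    rw [I3_5_def]
    subst hq
    exact ev_a_eq _ _ _ _ _ _ _ _ 3923219638660984 353334603029054 4276554241690038 vM218 vM220 (by norm_num)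
  exact h _ rfl

noncomputable def M222 : QT := .b .z M221

lemma M222_def : M222 = .b .z M221 := rfl

lemma vM222 : ev M222 I3_5 I2_2 = 4276554241690038 := by
  rw [M222_def]
  rw [I2_2_def]
  exact ev_b_eq _ _ _ _ _ _ _ _ 0 4276554241690038 4276554241690038 (ev_z _ _) vM221 (by norm_num)

noncomputable def M223 : QT := .b Q217 Q218

lemma M223_def : M223 = .b Q217 Q218 := rfl

lemma vM223 : ev M223 I4_10 I4_12 = 3510281783187678 := by
  rw [M223_def]
  rw [I4_12_def]
  exact ev_b_eq _ _ _ _ _ _ _ _ 1760296748023569 1749985035164109 3510281783187678 vQ217 vQ218 (by norm_num)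

noncomputable def M224 : QT := .b Q219 Q220

lemma M224_def : M224 = .b Q219 Q220 := rfl

lemma vM224 : ev M224 I4_10 I5_26 = 1523010709480711 := by
  rw [M224_def]
  rw [I5_26_def]
  exact ev_b_eq _ _ _ _ _ _ _ _ 773306787175202 749703922305509 1523010709480711 vQ219 vQ220 (by norm_num)

noncomputable def M225 : QT := .b M224 Q221

lemma M225_def : M225 = .b M224 Q221 := rfl

lemma vM225 : ev M225 I4_10 I4_13 = 3290758027542321 := by
  rw [M225_def]
  rw [I4_13_def]
  exact ev_b_eq _ _ _ _ _ _ _ _ 1523010709480711 1767747318061610 3290758027542321 vM224 vQ221 (by norm_num)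

noncomputable def M226 : QT := .b M223 M225

lemma M226_def : M226 = .b M223 M225 := rfl

lemma vM226 : ev M226 I4_10 I3_6 = 6801039810729999 := by
  rw [M226_def]
  rw [I3_6_def]
  exact ev_b_eq _ _ _ _ _ _ _ _ 3510281783187678 3290758027542321 6801039810729999 vM223 vM225 (by norm_num)

noncomputable def M227 : QT := .b Q222 Q223

lemma M227_def : M227 = .b Q222 Q223 := rfl

lemma vM227 : ev M227 I5_22 I4_12 = 1302236622076453 := by
  rw [M227_def]
  rw [I4_12_def]
  exact ev_b_eq _ _ _ _ _ _ _ _ 534293760378346 767942861698107 1302236622076453 vQ222 vQ223 (by norm_num)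

noncomputable def M228 : QT := .b Q224 Q225

lemma M228_def : M228 = .b Q224 Q225 := rfl

lemma vM228 : ev M228 I5_23 I4_12 = 513074636721180 := by
  rw [M228_def]
  rw [I4_12_def]
  exact ev_b_eq _ _ _ _ _ _ _ _ 142573724610002 370500912111178 513074636721180 vQ224 vQ225 (by norm_num)

noncomputable def M229 : QT := .a M227 M228

lemma M229_def : M229 = .a M227 M228 := rfl

lemma vM229 : ev M229 I4_11 I4_12 = 1815311258797633 := by
  rw [M229_def]
  rw [I4_11_def]
  exact ev_a_eq _ _ _ _ _ _ _ _ 1302236622076453 513074636721180 1815311258797633 vM227 vM228 (by norm_num)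

noncomputable def M230 : QT := .b Q226 Q227

lemma M230_def : M230 = .b Q226 Q227 := rfl

lemma vM230 : ev M230 I5_22 I4_13 = 1682631216866768 := by
  rw [M230_def]
  rw [I4_13_def]
  exact ev_b_eq _ _ _ _ _ _ _ _ 857349011479603 825282205387165 1682631216866768 vQ226 vQ227 (by norm_num)

noncomputable def M231 : QT := .a Q229 Q230

lemma M231_def : M231 = .a Q229 Q230 := rfl

lemma vM231 : ev M231 I5_23 I5_27 = 450966742983075 := by
  rw [M231_def]
  rw [I5_23_def]
  exact ev_a_eq _ _ _ _ _ _ _ _ 268934991456362 182031751526713 450966742983075 vQ229 vQ230 (by norm_num)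

noncomputable def M232 : QT := .b Q228 M231

lemma M232_def : M232 = .b Q228 M231 := rfl

lemma vM232 : ev M232 I5_23 I4_13 = 730034345218720 := by
  rw [M232_def]
  rw [I4_13_def]
  exact ev_b_eq _ _ _ _ _ _ _ _ 279067602235645 450966742983075 730034345218720 vQ228 vM231 (by norm_num)

noncomputable def M233 : QT := .a M230 M232

lemma M233_def : M233 = .a M230 M232 := rfl

lemma vM233 : ev M233 I4_11 I4_13 = 2412665562085488 := by
  rw [M233_def]
  rw [I4_11_def]
  exact ev_a_eq _ _ _ _ _ _ _ _ 1682631216866768 730034345218720 2412665562085488 vM230 vM232 (by norm_num)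

noncomputable def M234 : QT := .b M229 M233

lemma M234_def : M234 = .b M229 M233 := rfl

lemma vM234 : ev M234 I4_11 I3_6 = 4227976820883121 := by
  rw [M234_def]
  rw [I3_6_def]
  exact ev_b_eq _ _ _ _ _ _ _ _ 1815311258797633 2412665562085488 4227976820883121 vM229 vM233 (by norm_num)

noncomputable def M235 : QT := .a M226 M234

lemma M235_def : M235 = .a M226 M234 := rfl

lemma vM235 : ev M235 I3_5 I3_6 = 11029016631613120 := by
  rw [M235_def]
  rw [I3_5_def]
  exact ev_a_eq _ _ _ _ _ _ _ _ 6801039810729999 4227976820883121 11029016631613120 vM226 vM234 (by norm_num)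

noncomputable def M236 : QT := .b Q232 Q233

lemma M236_def : M236 = .b Q232 Q233 := rfl

lemma vM236 : ev M236 I5_20 I5_29 = 770327620486590 := by
  rw [M236_def]
  rw [I5_29_def]
  exact ev_b_eq _ _ _ _ _ _ _ _ 406740960937925 363586659548665 770327620486590 vQ232 vQ233 (by norm_num)

noncomputable def M237 : QT := .b Q231 M236

lemma M237_def : M237 = .b Q231 M236 := rfl

lemma vM237 : ev M237 I5_20 I4_14 = 1654260715277732 := by
  rw [M237_def]
  rw [I4_14_def]
  exact ev_b_eq _ _ _ _ _ _ _ _ 883933094791142 770327620486590 1654260715277732 vQ231 vM236 (by norm_num)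

noncomputable def M238 : QT := .a Q234 Q235

lemma M238_def : M238 = .a Q234 Q235 := rfl

lemma vM238 : ev M238 I5_20 I5_30 = 413417046632147 := by
  rw [M238_def]
  rw [I5_20_def]
  exact ev_a_eq _ _ _ _ _ _ _ _ 253676481934880 159740564697267 413417046632147 vQ234 vQ235 (by norm_num)

noncomputable def M239 : QT := .b M238 Q236

lemma M239_def : M239 = .b M238 Q236 := rfl

lemma vM239 : ev M239 I5_20 I4_15 = 428677007078766 := by
  rw [M239_def]
  rw [I4_15_def]
  exact ev_b_eq _ _ _ _ _ _ _ _ 413417046632147 15259960446619 428677007078766 vM238 vQ236 (by norm_num)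

noncomputable def M240 : QT := .b M237 M239

lemma M240_def : M240 = .b M237 M239 := rfl

lemma vM240 : ev M240 I5_20 I3_7 = 2082937722356498 := by
  rw [M240_def]
  rw [I3_7_def]
  exact ev_b_eq _ _ _ _ _ _ _ _ 1654260715277732 428677007078766 2082937722356498 vM237 vM239 (by norm_num)

noncomputable def M241 : QT := .b Q237 Q238

lemma M241_def : M241 = .b Q237 Q238 := rfl

lemma vM241 : ev M241 I6_42 I4_14 = 589368358156155 := by
  rw [M241_def]
  rw [I4_14_def]
  exact ev_b_eq _ _ _ _ _ _ _ _ 349281335329099 240087022827056 589368358156155 vQ237 vQ238 (by norm_num)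

noncomputable def M242 : QT := .b M241 Q239

lemma M242_def : M242 = .b M241 Q239 := rfl

lemma vM242 : ev M242 I6_42 I3_7 = 654218120850709 := by
  rw [M242_def]
  rw [I3_7_def]
  exact ev_b_eq _ _ _ _ _ _ _ _ 589368358156155 64849762694554 654218120850709 vM241 vQ239 (by norm_num)

noncomputable def M243 : QT := .b Q240 Q241

lemma M243_def : M243 = .b Q240 Q241 := rfl

lemma vM243 : ev M243 I6_43 I4_14 = 391958447756102 := by
  rw [M243_def]
  rw [I4_14_def]
  exact ev_b_eq _ _ _ _ _ _ _ _ 202178333740903 189780114015199 391958447756102 vQ240 vQ241 (by norm_num)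

noncomputable def M244 : QT := .b M243 Q242

lemma M244_def : M244 = .b M243 Q242 := rfl

lemma vM244 : ev M244 I6_43 I3_7 = 536440463136384 := by
  rw [M244_def]
  rw [I3_7_def]
  exact ev_b_eq _ _ _ _ _ _ _ _ 391958447756102 144482015380282 536440463136384 vM243 vQ242 (by norm_num)

noncomputable def M245 : QT := .a M242 M244

lemma M245_def : M245 = .a M242 M244 := rfl

lemma vM245 : ev M245 I5_21 I3_7 = 1190658583987093 := by
  rw [M245_def]
  rw [I5_21_def]
  exact ev_a_eq _ _ _ _ _ _ _ _ 654218120850709 536440463136384 1190658583987093 vM242 vM244 (by norm_num)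

noncomputable def M246 : QT := .a M240 M245

lemma M246_def : M246 = .a M240 M245 := rfl

lemma vM246 : ev M246 I4_10 I3_7 = 3273596306343591 := by
  rw [M246_def]
  rw [I4_10_def]
  exact ev_a_eq _ _ _ _ _ _ _ _ 2082937722356498 1190658583987093 3273596306343591 vM240 vM245 (by norm_num)

noncomputable def M247 : QT := .b Q243 Q244

lemma M247_def : M247 = .b Q243 Q244 := rfl

lemma vM247 : ev M247 I6_44 I4_14 = 554321083865347 := by
  rw [M247_def]
  rw [I4_14_def]
  exact ev_b_eq _ _ _ _ _ _ _ _ 265120282960886 289200800904461 554321083865347 vQ243 vQ244 (by norm_num)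

noncomputable def M248 : QT := .b M247 Q245

lemma M248_def : M248 = .b M247 Q245 := rfl

lemma vM248 : ev M248 I6_44 I3_7 = 833507597907445 := by
  rw [M248_def]
  rw [I3_7_def]
  exact ev_b_eq _ _ _ _ _ _ _ _ 554321083865347 279186514042098 833507597907445 vM247 vQ245 (by norm_num)

noncomputable def M249 : QT := .b Q246 Q247

lemma M249_def : M249 = .b Q246 Q247 := rfl

lemma vM249 : ev M249 I6_45 I3_7 = 857706904362601 := by
  rw [M249_def]
  rw [I3_7_def]
  exact ev_b_eq _ _ _ _ _ _ _ _ 512716224552682 344990679809919 857706904362601 vQ246 vQ247 (by norm_num)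

noncomputable def M250 : QT := .a M248 M249

lemma M250_def : M250 = .a M248 M249 := rfl

lemma vM250 : ev M250 I5_22 I3_7 = 1691214502270046 := by
  rw [M250_def]
  rw [I5_22_def]
  exact ev_a_eq _ _ _ _ _ _ _ _ 833507597907445 857706904362601 1691214502270046 vM248 vM249 (by norm_num)

noncomputable def M251 : QT := .b Q248 Q249

lemma M251_def : M251 = .b Q248 Q249 := rfl

lemma vM251 : ev M251 I5_23 I4_14 = 1523725621957414 := by
  rw [M251_def]
  rw [I4_14_def]
  exact ev_b_eq _ _ _ _ _ _ _ _ 892396375127508 631329246829906 1523725621957414 vQ248 vQ249 (by norm_num)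

noncomputable def M252 : QT := .b Q250 Q251

lemma M252_def : M252 = .b Q250 Q251 := rfl

lemma vM252 : ev M252 I5_23 I4_15 = 589368202638696 := by
  rw [M252_def]
  rw [I4_15_def]
  exact ev_b_eq _ _ _ _ _ _ _ _ 509736790039584 79631412599112 589368202638696 vQ250 vQ251 (by norm_num)

noncomputable def M253 : QT := .b M251 M252

lemma M253_def : M253 = .b M251 M252 := rfl

lemma vM253 : ev M253 I5_23 I3_7 = 2113093824596110 := by
  rw [M253_def]
  rw [I3_7_def]
  exact ev_b_eq _ _ _ _ _ _ _ _ 1523725621957414 589368202638696 2113093824596110 vM251 vM252 (by norm_num)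

noncomputable def M254 : QT := .a M250 M253

lemma M254_def : M254 = .a M250 M253 := rfl

lemma vM254 : ev M254 I4_11 I3_7 = 3804308326866156 := by
  rw [M254_def]
  rw [I4_11_def]
  exact ev_a_eq _ _ _ _ _ _ _ _ 1691214502270046 2113093824596110 3804308326866156 vM250 vM253 (by norm_num)

noncomputable def M255 : QT := .a M246 M254

lemma M255_def : M255 = .a M246 M254 := rfl

lemma vM255 : ev M255 I3_5 I3_7 = 7077904633209747 := by
  rw [M255_def]
  rw [I3_5_def]
  exact ev_a_eq _ _ _ _ _ _ _ _ 3273596306343591 3804308326866156 7077904633209747 vM246 vM254 (by norm_num)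

noncomputable def M256 : QT := .b M235 M255

lemma M256_def : M256 = .b M235 M255 := rfl

lemma vM256 : ev M256 I3_5 I2_3 = 18106921264822867 := by
  rw [M256_def]
  rw [I2_3_def]
  exact ev_b_eq _ _ _ _ _ _ _ _ 11029016631613120 7077904633209747 18106921264822867 vM235 vM255 (by norm_num)

noncomputable def M257 : QT := .b M222 M256

lemma M257_def : M257 = .b M222 M256 := rfl

lemma vM257 : ev M257 I3_5 I1_1 = 22383475506512905 := by
  rw [M257_def]
  rw [I1_1_def]
  exact ev_b_eq _ _ _ _ _ _ _ _ 4276554241690038 18106921264822867 22383475506512905 vM222 vM256 (by norm_num)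

noncomputable def M258 : QT := .b .z M257

lemma M258_def : M258 = .b .z M257 := rfl

lemma vM258 : ev M258 I3_5 I0_0 = 22383475506512905 := by
  rw [M258_def]
  rw [I0_0_def]
  exact ev_b_eq _ _ _ _ _ _ _ _ 0 22383475506512905 22383475506512905 (ev_z _ _) vM257 (by norm_num)

noncomputable def M259 : QT := .a M217 M258

lemma M259_def : M259 = .a M217 M258 := rfl

lemma vM259 : ev M259 I2_2 I0_0 = 63787839694423480 := by
  rw [M259_def]
  rw [I2_2_def]
  exact ev_a_eq _ _ _ _ _ _ _ _ 41404364187910575 22383475506512905 63787839694423480 vM217 vM258 (by norm_num)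

noncomputable def M260 : QT := .b Q253 Q254

lemma M260_def : M260 = .b Q253 Q254 := rfl

lemma vM260 : ev M260 I5_24 I4_13 = 1174921858647697 := by
  rw [M260_def]
  rw [I4_13_def]
  exact ev_b_eq _ _ _ _ _ _ _ _ 449178771486687 725743087161010 1174921858647697 vQ253 vQ254 (by norm_num)

noncomputable def M261 : QT := .b Q255 Q256

lemma M261_def : M261 = .b Q255 Q256 := rfl

lemma vM261 : ev M261 I5_25 I4_13 = 674482984257473 := by
  rw [M261_def]
  rw [I4_13_def]
  exact ev_b_eq _ _ _ _ _ _ _ _ 196932753908066 477550230349407 674482984257473 vQ255 vQ256 (by norm_num)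

noncomputable def M262 : QT := .a M260 M261

lemma M262_def : M262 = .a M260 M261 := rfl

lemma vM262 : ev M262 I4_12 I4_13 = 1849404842905170 := by
  rw [M262_def]
  rw [I4_12_def]
  exact ev_a_eq _ _ _ _ _ _ _ _ 1174921858647697 674482984257473 1849404842905170 vM260 vM261 (by norm_num)

noncomputable def M263 : QT := .b Q252 M262

lemma M263_def : M263 = .b Q252 M262 := rfl

lemma vM263 : ev M263 I4_12 I3_6 = 2174606536997731 := by
  rw [M263_def]
  rw [I3_6_def]
  exact ev_b_eq _ _ _ _ _ _ _ _ 325201694092561 1849404842905170 2174606536997731 vQ252 vM262 (by norm_num)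

noncomputable def M264 : QT := .a M263 Q257

lemma M264_def : M264 = .a M263 Q257 := rfl

lemma vM264 : ev M264 I3_6 I3_6 = 2556789629652076 := by
  rw [M264_def]
  have h : ∀ q, q = I3_6 → ev (.a M263 Q257) I3_6 q = 2556789629652076 := by
    intro q hq
    rw [I3_6_def]
    subst hq
    exact ev_a_eq _ _ _ _ _ _ _ _ 2174606536997731 382183092654345 2556789629652076 vM263 vQ257 (by norm_num)
  exact h _ rfl

noncomputable def M265 : QT := .b Q258 Q259

lemma M265_def : M265 = .b Q258 Q259 := rfl

lemma vM265 : ev M265 I5_24 I3_7 = 2013435021129015 := by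
  rw [M265_def]
  rw [I3_7_def]
  exact ev_b_eq _ _ _ _ _ _ _ _ 1637213138557422 376221882571593 2013435021129015 vQ258 vQ259 (by norm_num)

noncomputable def M266 : QT := .b Q260 Q261

lemma M266_def : M266 = .b Q260 Q261 := rfl

lemma vM266 : ev M266 I5_25 I4_14 = 1403087594609711 := by
  rw [M266_def]
  rw [I4_14_def]
  exact ev_b_eq _ _ _ _ _ _ _ _ 692841350588073 710246244021638 1403087594609711 vQ260 vQ261 (by norm_num)

noncomputable def M267 : QT := .b M266 Q262

lemma M267_def : M267 = .b M266 Q262 := rfl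

lemma vM267 : ev M267 I5_25 I3_7 = 1752610508910777 := by
  rw [M267_def]
  rw [I3_7_def]
  exact ev_b_eq _ _ _ _ _ _ _ _ 1403087594609711 349522914301066 1752610508910777 vM266 vQ262 (by norm_num)

noncomputable def M268 : QT := .a M265 M267

lemma M268_def : M268 = .a M265 M267 := rfl

lemma vM268 : ev M268 I4_12 I3_7 = 3766045530039792 := by
  rw [M268_def]
  rw [I4_12_def]
  exact ev_a_eq _ _ _ _ _ _ _ _ 2013435021129015 1752610508910777 3766045530039792 vM265 vM267 (by norm_num)

noncomputable def M269 : QT := .b Q263 Q264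

lemma M269_def : M269 = .b Q263 Q264 := rfl

lemma vM269 : ev M269 I5_26 I4_14 = 1516811888439359 := by
  rw [M269_def]
  rw [I4_14_def]
  exact ev_b_eq _ _ _ _ _ _ _ _ 829930855352844 686881033086515 1516811888439359 vQ263 vQ264 (by norm_num)

noncomputable def M270 : QT := .b M269 Q265

lemma M270_def : M270 = .b M269 Q265 := rfl

lemma vM270 : ev M270 I5_26 I3_7 = 1911154226089792 := by
  rw [M270_def]
  rw [I3_7_def]
  exact ev_b_eq _ _ _ _ _ _ _ _ 1516811888439359 394342337650433 1911154226089792 vM269 vQ265 (by norm_num)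

noncomputable def M271 : QT := .b Q266 Q267

lemma M271_def : M271 = .b Q266 Q267 := rfl

lemma vM271 : ev M271 I5_27 I4_14 = 599143681766281 := by
  rw [M271_def]
  rw [I4_14_def]
  exact ev_b_eq _ _ _ _ _ _ _ _ 393388901613801 205754780152480 599143681766281 vQ266 vQ267 (by norm_num)

noncomputable def M272 : QT := .b M271 Q268

lemma M272_def : M272 = .b M271 Q268 := rfl

lemma vM272 : ev M272 I5_27 I3_7 = 841853449588978 := by
  rw [M272_def]
  rw [I3_7_def]
  exact ev_b_eq _ _ _ _ _ _ _ _ 599143681766281 242709767822697 841853449588978 vM271 vQ268 (by norm_num)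

noncomputable def M273 : QT := .a M270 M272

lemma M273_def : M273 = .a M270 M272 := rfl

lemma vM273 : ev M273 I4_13 I3_7 = 2753007675678770 := by
  rw [M273_def]
  rw [I4_13_def]
  exact ev_a_eq _ _ _ _ _ _ _ _ 1911154226089792 841853449588978 2753007675678770 vM270 vM272 (by norm_num)

noncomputable def M274 : QT := .a M268 M273

lemma M274_def : M274 = .a M268 M273 := rfl

lemma vM274 : ev M274 I3_6 I3_7 = 6519053205718562 := by
  rw [M274_def]
  rw [I3_6_def]
  exact ev_a_eq _ _ _ _ _ _ _ _ 3766045530039792 2753007675678770 6519053205718562 vM268 vM273 (by norm_num)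

noncomputable def M275 : QT := .b M264 M274

lemma M275_def : M275 = .b M264 M274 := rfl

lemma vM275 : ev M275 I3_6 I2_3 = 9075842835370638 := by
  rw [M275_def]
  rw [I2_3_def]
  exact ev_b_eq _ _ _ _ _ _ _ _ 2556789629652076 6519053205718562 9075842835370638 vM264 vM274 (by norm_num)

noncomputable def M276 : QT := .b .z M275

lemma M276_def : M276 = .b .z M275 := rfl

lemma vM276 : ev M276 I3_6 I1_1 = 9075842835370638 := by
  rw [M276_def]
  rw [I1_1_def]
  exact ev_b_eq _ _ _ _ _ _ _ _ 0 9075842835370638 9075842835370638 (ev_z _ _) vM275 (by norm_num)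

noncomputable def M277 : QT := .b .z M276

lemma M277_def : M277 = .b .z M276 := rfl

lemma vM277 : ev M277 I3_6 I0_0 = 9075842835370638 := by
  rw [M277_def]
  rw [I0_0_def]
  exact ev_b_eq _ _ _ _ _ _ _ _ 0 9075842835370638 9075842835370638 (ev_z _ _) vM276 (by norm_num)

noncomputable def M278 : QT := .a M277 Q269

lemma M278_def : M278 = .a M277 Q269 := rfl

lemma vM278 : ev M278 I2_3 I0_0 = 9331902309978100 := by
  rw [M278_def]
  rw [I2_3_def]
  exact ev_a_eq _ _ _ _ _ _ _ _ 9075842835370638 256059474607462 9331902309978100 vM277 vQ269 (by norm_num)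

noncomputable def M279 : QT := .a M259 M278

lemma M279_def : M279 = .a M259 M278 := rfl

lemma vM279 : ev M279 I1_1 I0_0 = 73119742004401580 := by
  rw [M279_def]
  rw [I1_1_def]
  exact ev_a_eq _ _ _ _ _ _ _ _ 63787839694423480 9331902309978100 73119742004401580 vM259 vM278 (by norm_num)

noncomputable def M280 : QT := .a M172 M279

lemma M280_def : M280 = .a M172 M279 := rfl

lemma vM280 : ev M280 I0_0 I0_0 = 375408383958494496 := by
  rw [M280_def]
  have h : ∀ q, q = I0_0 → ev (.a M172 M279) I0_0 q = 375408383958494496 := by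
    intro q hq
    rw [I0_0_def]
    subst hq
    exact ev_a_eq _ _ _ _ _ _ _ _ 302288641954092916 73119742004401580 375408383958494496 vM172 vM279 (by norm_num)
  exact h _ rfl

end Pool.Agent.Helper64.SPW.Dat
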