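import Pool.Agent.Helper11.SP.Chk2

/-!
Checker for boxes of traces in degree 6 (`g = 2`).

A natural number `X ≤ 4 D`, `D = 2^24 = 16777216`, stands for the trace `X / D - 2`.
`T1`: binary tree of intervals `(lo, hi)` of traces; `w / 10^9` is a lower bound for the measure of the angles with trace in the interval;
`q` is an upper bound for `sqrt ((4 D - lo) lo (4 D - hi) hi)`.
`QT`: binary tree of boxes; `z` not used, `l L` the box has a code with `L` steps, `a` the first interval is split, `b` the second interval is split.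
Written with recursors so that the kernel evaluates it fast.
-/

namespace Pool.Agent.Helper64.SPW

open Pool.Agent.Helper11.SP

/-- Intervals of traces. -/
inductive T1 where
  | leaf (lo hi w q : ℕ) : T1
  | node (lo hi w : ℕ) (l r : T1) : T1

/-- Left end. -/
noncomputable def T1.lo (p : T1) : ℕ :=
  T1.rec (motive := fun _ => ℕ) (fun lo _ _ _ => lo) (fun lo _ _ _ _ _ _ => lo) p

/-- Right end. -/
noncomputable def T1.hi (p : T1) : ℕ :=
  T1.rec (motive := fun _ => ℕ) (fun _ hi _ _ => hi) (fun _ hi _ _ _ _ _ => hi) p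

/-- Weight. -/
noncomputable def T1.w (p : T1) : ℕ :=
  T1.rec (motive := fun _ => ℕ) (fun _ _ w _ => w) (fun _ _ w _ _ _ _ => w) p

/-- Test of a leaf: `lo < hi ≤ 4 D`, `(4 D - lo) lo (4 D - hi) hi ≤ q²`,
`2 D² 3141593² w² + (lo hi + q) 10^30 ≤ 2 D (lo + hi) 10^30`. -/
noncomputable def okLeaf (lo hi w q : ℕ) : Bool :=
  and (and (Nat.ble (Nat.succ lo) hi) (Nat.ble hi 67108864))
    (and (Nat.ble (Nat.mul (Nat.mul (Nat.sub 67108864 lo) lo) (Nat.mul (Nat.sub 67108864 hi) hi)) (Nat.mul q q))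
      (Nat.ble (Nat.add (Nat.mul (Nat.mul 562949953421312 9869606577649) (Nat.mul w w))
          (Nat.mul (Nat.add (Nat.mul lo hi) q) 1000000000000000000000000000000))
        (Nat.mul (Nat.mul 33554432 (Nat.add lo hi)) 1000000000000000000000000000000)))

/-- Test of a tree of intervals. -/
noncomputable def ok1 (p : T1) : Bool :=
  T1.rec (motive := fun _ => Bool) okLeaf
    (fun lo hi w l r ihl ihr =>
      and (and (and (Nat.beq lo l.lo) (Nat.beq hi r.hi)) (and (Nat.beq l.hi r.lo) (Nat.beq w (Nat.add l.w r.w))))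
        (and ihl ihr)) p

/-- First coordinate of the vertex with traces `a`, `b`. -/
noncomputable def cX (a b : ℕ) : ℕ := Nat.mul 16777216 (Nat.sub 134217728 (Nat.add a b))

/-- Second coordinate. -/
noncomputable def cY (a b : ℕ) : ℕ :=
  Nat.sub (Nat.add 2251799813685248 (Nat.mul a b)) (Nat.mul 33554432 (Nat.add a b))

/-- The number `c`. -/
noncomputable def cC (a b : ℕ) : ℕ := Nat.add (Nat.mul 256 (cX a b)) (Nat.mul 128 (cY a b))

/-- Add the vertex with traces `a`, `b`. -/
noncomputable def cV (a b : ℕ) (l : VL) : VL := VL.cons (cX a b) (cY a b) 281474976710656 (cC a b) l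

/-- Run from the center of the box. -/
noncomputable def boxRun (a1 b1 a2 b2 L : ℕ) : Option (List ℕ) :=
  run2 (cX (Nat.div (Nat.add a1 b1) 2) (Nat.div (Nat.add a2 b2) 2))
    (cY (Nat.div (Nat.add a1 b1) 2) (Nat.div (Nat.add a2 b2) 2)) 281474976710656
    (cC (Nat.div (Nat.add a1 b1) 2) (Nat.div (Nat.add a2 b2) 2))
    (cV a1 a2 (cV a1 b2 (cV b1 a2 (cV b1 b2 VL.nil)))) L 129 128 128 128 [129]

/-- Test of a box. -/
noncomputable def boxOK (a1 b1 a2 b2 L : ℕ) : Bool :=
  and (Nat.ble b1 a2) (Option.rec (motive := fun _ => Bool) false (fun _ => true) (boxRun a1 b1 a2 b2 L))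

/-- Trees of boxes. -/
inductive QT where
  | z : QT
  | l (L : ℕ) : QT
  | a (x y : QT) : QT
  | b (x y : QT) : QT

/-- Sum of the weights of the boxes (`10^18` times a lower bound for the measure). -/
noncomputable def ev (t : QT) : T1 → T1 → ℕ :=
  QT.rec (motive := fun _ => T1 → T1 → ℕ)
    (fun _ _ => 0)
    (fun L p q => Bool.rec (motive := fun _ => ℕ) 0 (Nat.mul p.w q.w) (boxOK p.lo p.hi q.lo q.hi L))
    (fun _ _ ihx ihy p q => T1.rec (motive := fun _ => ℕ) (fun _ _ _ _ => 0)
      (fun _ _ _ l r _ _ => Nat.add (ihx l q) (ihy r q)) p)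
    (fun _ _ ihx ihy p q => T1.rec (motive := fun _ => ℕ) (fun _ _ _ _ => 0)
      (fun _ _ _ l r _ _ => Nat.add (ihx p l) (ihy p r)) q)
    t

lemma ev_z (p q : T1) : ev QT.z p q = 0 := rfl

lemma ev_l (L : ℕ) (p q : T1) : ev (QT.l L) p q =
    Bool.rec (motive := fun _ => ℕ) 0 (Nat.mul p.w q.w) (boxOK p.lo p.hi q.lo q.hi L) := rfl

lemma ev_a (x y : QT) (lo hi w : ℕ) (l r q : T1) : ev (QT.a x y) (T1.node lo hi w l r) q = ev x l q + ev y r q := rfl

lemma ev_b (x y : QT) (lo hi w : ℕ) (l r p : T1) : ev (QT.b x y) p (T1.node lo hi w l r) = ev x p l + ev y p r := rfl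

end Pool.Agent.Helper64.SPW
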