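import Pool.Agent.Helper64.SPW.Tree
import Pool.Agent.Helper11.SP.Chk3

/-!
Checker for boxes of three traces in degree 8 (`g = 3`).

A natural number `X ≤ 4 D`, `D = 2^16 = 65536`, stands for the trace `X / D - 2` (so `256 X` is the same trace in the sense of `Tree.lean`).
Written with recursors so that the kernel evaluates it fast.
-/

namespace Pool.Agent.Helper64.SPW

open Pool.Agent.Helper11.SP

/-- Test of a tree of intervals (unit `2^-16`). -/
noncomputable def ok3 (p : T1) : Bool :=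
  T1.rec (motive := fun _ => Bool) (fun lo hi w q => okLeaf (Nat.mul 256 lo) (Nat.mul 256 hi) w q)
    (fun lo hi w l r ihl ihr =>
      and (and (and (Nat.beq lo l.lo) (Nat.beq hi r.hi)) (and (Nat.beq l.hi r.lo) (Nat.beq w (Nat.add l.w r.w))))
        (and ihl ihr)) p

/-- `τ1 + τ2 + τ3`. -/
def s1 (a b c : ℕ) : ℕ := Nat.add (Nat.add a b) c

/-- `τ1 τ2 + τ1 τ3 + τ2 τ3`. -/
def s2 (a b c : ℕ) : ℕ := Nat.add (Nat.add (Nat.mul a b) (Nat.mul a c)) (Nat.mul b c)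

/-- `τ1 τ2 τ3`. -/
def s3 (a b c : ℕ) : ℕ := Nat.mul (Nat.mul a b) c

/-- First coordinate of the vertex with traces `a`, `b`, `c`: `D² (12 D - s1)`. -/
def dX (a b c : ℕ) : ℕ := Nat.mul 4294967296 (Nat.sub 786432 (s1 a b c))

/-- Second coordinate: `16 D³ + s2 D - 4 s1 D²`. -/
def dY (a b c : ℕ) : ℕ := Nat.sub (Nat.add 4503599627370496 (Nat.mul 65536 (s2 a b c))) (Nat.mul 17179869184 (s1 a b c))

/-- Third coordinate: `40 D³ + 2 D s2 - (6 D² s1 + s3)`. -/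
def dZ (a b c : ℕ) : ℕ := Nat.sub (Nat.add 11258999068426240 (Nat.mul 131072 (s2 a b c)))
  (Nat.add (Nat.mul 25769803776 (s1 a b c)) (s3 a b c))

/-- The number `w`. -/
def dW (a b c : ℕ) : ℕ := Nat.add (Nat.add (Nat.mul 256 (dX a b c)) (Nat.mul 256 (dY a b c))) (Nat.mul 128 (dZ a b c))

/-- Add the vertex with traces `a`, `b`, `c`. -/
noncomputable def dV (a b c : ℕ) (l : VL3) : VL3 := VL3.cons (dX a b c) (dY a b c) (dZ a b c) 281474976710656 (dW a b c) l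

/-- The eight corners. -/
noncomputable def corners (a1 b1 a2 b2 a3 b3 : ℕ) : VL3 :=
  dV a1 a2 a3 (dV a1 a2 b3 (dV a1 b2 a3 (dV a1 b2 b3 (dV b1 a2 a3 (dV b1 a2 b3 (dV b1 b2 a3 (dV b1 b2 b3 VL3.nil)))))))

/-- Half of the sum. -/
def mid (a b : ℕ) : ℕ := Nat.div (Nat.add a b) 2

/-- Run from the center of the box. -/
noncomputable def boxRun3 (a1 b1 a2 b2 a3 b3 L : ℕ) : Option (List ℕ) :=
  run3 (dX (mid a1 b1) (mid a2 b2) (mid a3 b3)) (dY (mid a1 b1) (mid a2 b2) (mid a3 b3)) (dZ (mid a1 b1) (mid a2 b2) (mid a3 b3))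
    281474976710656 (dW (mid a1 b1) (mid a2 b2) (mid a3 b3))
    (T3.leaf 0 0 0 0 (corners a1 b1 a2 b2 a3 b3) IL3.nil) L 129 128 128 128 128 128 [129]

/-- Test of a box. -/
noncomputable def boxOK3 (a1 b1 a2 b2 a3 b3 L : ℕ) : Bool :=
  and (and (Nat.ble b1 a2) (Nat.ble b2 a3))
    (Option.rec (motive := fun _ => Bool) false (fun _ => true) (boxRun3 a1 b1 a2 b2 a3 b3 L))

/-- Trees of boxes. -/
inductive QT3 where
  | z : QT3
  | l (L : ℕ) : QT3
  | a (x y : QT3) : QT3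
  | b (x y : QT3) : QT3
  | c (x y : QT3) : QT3

/-- Sum of the weights of the boxes (`10^27` times a lower bound for the measure). -/
noncomputable def ev3 (t : QT3) : T1 → T1 → T1 → ℕ :=
  QT3.rec (motive := fun _ => T1 → T1 → T1 → ℕ)
    (fun _ _ _ => 0)
    (fun L p q r => Bool.rec (motive := fun _ => ℕ) 0 (Nat.mul (Nat.mul p.w q.w) r.w)
      (boxOK3 p.lo p.hi q.lo q.hi r.lo r.hi L))
    (fun _ _ ihx ihy p q r => T1.rec (motive := fun _ => ℕ) (fun _ _ _ _ => 0)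
      (fun _ _ _ u v _ _ => Nat.add (ihx u q r) (ihy v q r)) p)
    (fun _ _ ihx ihy p q r => T1.rec (motive := fun _ => ℕ) (fun _ _ _ _ => 0)
      (fun _ _ _ u v _ _ => Nat.add (ihx p u r) (ihy p v r)) q)
    (fun _ _ ihx ihy p q r => T1.rec (motive := fun _ => ℕ) (fun _ _ _ _ => 0)
      (fun _ _ _ u v _ _ => Nat.add (ihx p q u) (ihy p q v)) r)
    t

lemma ev3_z (p q r : T1) : ev3 QT3.z p q r = 0 := rfl

lemma ev3_l (L : ℕ) (p q r : T1) : ev3 (QT3.l L) p q r =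
    Bool.rec (motive := fun _ => ℕ) 0 (Nat.mul (Nat.mul p.w q.w) r.w) (boxOK3 p.lo p.hi q.lo q.hi r.lo r.hi L) := rfl

lemma ev3_a (x y : QT3) (lo hi w : ℕ) (u v q r : T1) :
    ev3 (QT3.a x y) (T1.node lo hi w u v) q r = ev3 x u q r + ev3 y v q r := rfl

lemma ev3_b (x y : QT3) (lo hi w : ℕ) (u v p r : T1) :
    ev3 (QT3.b x y) p (T1.node lo hi w u v) r = ev3 x p u r + ev3 y p v r := rfl

lemma ev3_c (x y : QT3) (lo hi w : ℕ) (u v p q : T1) :
    ev3 (QT3.c x y) p q (T1.node lo hi w u v) = ev3 x p q u + ev3 y p q v := rfl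

end Pool.Agent.Helper64.SPW
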